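import Pool.Agent.Work.MLC.Green

set_option autoImplicit false

/-! # The Boettcher coordinate of `z ^ 2 + c` near infinity  (helper56)

`bo c z` is defined and holomorphic in both variables on the region `Far c z : ‖c‖ + 2 < ‖z‖`,
`bo c (f c z) = bo c z ^ 2` and `Real.log ‖bo c z‖ = G c z`. -/

namespace Pool.Agent.Work.MLC

open Filter Topology Metric Set

/-- the region near infinity where the Boettcher coordinate is given by a series -/
def Far (c z : ℂ) : Prop := ‖c‖ + 2 < ‖z‖

lemma isOpen_Far : IsOpen {p : ℂ × ℂ | Far p.1 p.2} := by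
  unfold Far
  exact isOpen_lt (by fun_prop) (by fun_prop)

namespace Far

variable {c z : ℂ}

lemma norm_gt (h : Far c z) : 2 < ‖z‖ := by
  unfold Far at h; linarith [norm_nonneg c]

lemma ne_zero (h : Far c z) : z ≠ 0 := by
  intro h0; have := h.norm_gt; rw [h0, norm_zero] at this; linarith

lemma neg (h : Far c z) : Far c (-z) := by unfold Far at h ⊢; rwa [norm_neg]

lemma two_mul_le (h : Far c z) : 2 * ‖z‖ ≤ ‖f c z‖ := by
  have h1 : ‖z‖ ^ 2 - ‖c‖ ≤ ‖f c z‖ := by
    have := norm_sub_norm_le (z ^ 2) (-c)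
    rw [norm_pow, norm_neg, sub_neg_eq_add] at this
    exact this
  have h2 := h.norm_gt
  unfold Far at h
  nlinarith [norm_nonneg c]

lemma f (h : Far c z) : Far c (f c z) := by
  have h1 := h.two_mul_le
  have h2 := h.norm_gt
  unfold Far at h ⊢; linarith

lemma it (h : Far c z) (n : ℕ) : Far c (it c n z) := by
  induction n with
  | zero => exact h
  | succ n ih => rw [it_succ]; exact ih.f

lemma two_pow_mul_le (h : Far c z) (n : ℕ) : 2 ^ n * ‖z‖ ≤ ‖MLC.it c n z‖ := by
  induction n with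
  | zero => simp
  | succ n ih =>
    rw [it_succ, pow_succ]
    have := (h.it n).two_mul_le
    nlinarith

lemma norm_div_le (h : Far c z) : ‖c / z ^ 2‖ ≤ 1 / 8 := by
  rw [norm_div, norm_pow, div_le_iff₀ (by have := h.norm_gt; positivity)]
  unfold Far at h
  nlinarith [norm_nonneg c, sq_nonneg (‖c‖ - 2)]

lemma one_add_mem (h : Far c z) : 1 + c / z ^ 2 ∈ Complex.slitPlane :=
  Complex.mem_slitPlane_of_norm_lt_one (h.norm_div_le.trans_lt (by norm_num))

lemma one_add_ne (h : Far c z) : 1 + c / z ^ 2 ≠ 0 := Complex.slitPlane_ne_zero h.one_add_mem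

end Far

/-- the terms of the series of `log (bo c z / z)` -/
noncomputable def St (c : ℂ) (n : ℕ) (z : ℂ) : ℂ :=
  Complex.log (1 + c / (it c n z) ^ 2) / 2 ^ (n + 1)

lemma norm_St_le {c z : ℂ} (h : Far c z) (n : ℕ) : ‖St c n z‖ ≤ 1 / 2 ^ (n + 1) := by
  have h1 := (h.it n).norm_div_le
  have h2 := Complex.norm_log_one_add_half_le_self (z := c / (it c n z) ^ 2) (by linarith)
  unfold St
  rw [norm_div, norm_pow, Complex.norm_two]
  gcongr
  linarith

lemma norm_St_le' {c z : ℂ} (h : Far c z) (n : ℕ) :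
    ‖St c n z‖ ≤ (3 / 2 * (‖c‖ / ‖z‖ ^ 2)) * (1 / 2 ^ (n + 1)) := by
  have h1 := (h.it n).norm_div_le
  have h2 := Complex.norm_log_one_add_half_le_self (z := c / (it c n z) ^ 2) (by linarith)
  have hz := h.norm_gt
  have h3 : ‖z‖ ≤ ‖it c n z‖ := by
    have := h.two_pow_mul_le n
    have h4 : (1 : ℝ) ≤ 2 ^ n := one_le_pow₀ (by norm_num)
    nlinarith
  have h4 : ‖c / (it c n z) ^ 2‖ ≤ ‖c‖ / ‖z‖ ^ 2 := by
    rw [norm_div, norm_pow]; gcongr
  unfold St
  rw [norm_div, norm_pow, Complex.norm_two, div_eq_mul_one_div]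
  gcongr
  exact h2.trans (by gcongr)

lemma summable_half : Summable fun n : ℕ => (1 : ℝ) / 2 ^ (n + 1) := by
  have := summable_geometric_two.mul_left (1 / 2 : ℝ)
  refine this.congr fun n => ?_
  rw [pow_succ, one_div_pow]; field_simp

lemma tsum_half : ∑' n : ℕ, (1 : ℝ) / 2 ^ (n + 1) = 1 := by
  have h1 : (fun n : ℕ => (1 : ℝ) / 2 ^ (n + 1)) = fun n => (1 / 2 : ℝ) * (1 / 2) ^ n := by
    funext n; rw [pow_succ, one_div_pow]; field_simp
  rw [h1, tsum_mul_left, tsum_geometric_two]; norm_num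

lemma summable_St {c z : ℂ} (h : Far c z) : Summable fun n => St c n z :=
  Summable.of_norm_bounded summable_half (norm_St_le h)

/-- `log (bo c z / z)` -/
noncomputable def SB (c z : ℂ) : ℂ := ∑' n, St c n z

lemma norm_SB_le {c z : ℂ} (h : Far c z) : ‖SB c z‖ ≤ 3 / 2 * (‖c‖ / ‖z‖ ^ 2) := by
  have h1 : Summable fun n => (3 / 2 * (‖c‖ / ‖z‖ ^ 2)) * ((1 : ℝ) / 2 ^ (n + 1)) :=
    summable_half.mul_left _
  refine (tsum_of_norm_bounded h1.hasSum (norm_St_le' h)).trans (le_of_eq ?_)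
  rw [tsum_mul_left, tsum_half, mul_one]

lemma norm_SB_le' {c z : ℂ} (h : Far c z) : ‖SB c z‖ ≤ 3 / 16 := by
  refine (norm_SB_le h).trans ?_
  have := h.norm_div_le
  rw [norm_div, norm_pow] at this
  linarith

lemma SB_f {c z : ℂ} (h : Far c z) :
    SB c (f c z) = 2 * SB c z - Complex.log (1 + c / z ^ 2) := by
  have h1 := (summable_St h).sum_add_tsum_nat_add 1
  have h2 : SB c z = ∑' n, St c n z := rfl
  rw [← h2] at h1
  have h3 : ∑' n, St c (n + 1) z = SB c (f c z) / 2 := by
    unfold SB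
    rw [← tsum_div_const]
    apply tsum_congr
    intro n
    unfold St
    rw [it_succ', pow_succ (2 : ℂ) (n + 1)]
    field_simp
  rw [Finset.sum_range_one, h3] at h1
  unfold St at h1
  rw [it_zero] at h1
  rw [← h1]
  ring

/-- the Boettcher coordinate near infinity -/
noncomputable def bo (c z : ℂ) : ℂ := z * Complex.exp (SB c z)

lemma bo_ne_zero {c z : ℂ} (h : Far c z) : bo c z ≠ 0 :=
  mul_ne_zero h.ne_zero (Complex.exp_ne_zero _)

theorem bo_f {c z : ℂ} (h : Far c z) : bo c (f c z) = bo c z ^ 2 := by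
  unfold bo
  rw [SB_f h, Complex.exp_sub, Complex.exp_log h.one_add_ne, mul_pow, ← Complex.exp_nat_mul]
  have h1 := h.ne_zero
  have h2 := h.one_add_ne
  have h3 : f c z = z ^ 2 * (1 + c / z ^ 2) := by unfold f; field_simp
  rw [h3, mul_assoc, mul_comm (1 + c / z ^ 2), div_mul_cancel₀ _ h2]
  push_cast
  rfl

lemma bo_it {c z : ℂ} (h : Far c z) (n : ℕ) : bo c (it c n z) = bo c z ^ 2 ^ n := by
  induction n with
  | zero => simp
  | succ n ih => rw [it_succ, bo_f (h.it n), ih, ← pow_mul, pow_succ]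

lemma bo_neg {c z : ℂ} : bo c (-z) = - bo c z := by
  have h1 : SB c (-z) = SB c z := by
    unfold SB
    apply tsum_congr
    intro n
    unfold St
    cases n with
    | zero => simp
    | succ n =>
      rw [it_succ', it_succ']
      have : f c (-z) = f c z := by unfold f; ring
      rw [this]
  unfold bo; rw [h1]; ring

theorem norm_bo {c z : ℂ} (h : Far c z) : ‖bo c z‖ = Real.exp (G c z) := by
  -- both sides satisfy the same functional equation and are comparable
  have h1 : ∀ {w : ℂ}, Far c w → |Real.log ‖bo c w‖ - G c w| ≤ 3 / 16 + Real.log (1 + ‖c‖) := by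
    intro w hw
    have hw0 := hw.norm_gt
    have h2 : Real.log ‖bo c w‖ = Real.log ‖w‖ + (SB c w).re := by
      unfold bo
      rw [norm_mul, Complex.norm_exp, Real.log_mul (by linarith) (Real.exp_pos _).ne',
        Real.log_exp]
    have h3 := norm_SB_le' hw
    have h4 := Complex.abs_re_le_norm (SB c w)
    have h5 := abs_G_sub_posLog c w
    rw [Real.posLog_eq_log (by rw [abs_of_nonneg (norm_nonneg _)]; linarith)] at h5
    rw [h2]
    rw [abs_le] at h4 h5 ⊢
    constructor <;> linarith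
  have h2 : ∀ n : ℕ, |Real.log ‖bo c z‖ - G c z| ≤
      (3 / 16 + Real.log (1 + ‖c‖)) / 2 ^ n := by
    intro n
    have h3 := h1 (h.it n)
    rw [bo_it h, norm_pow, Real.log_pow, G_it] at h3
    push_cast at h3
    rw [← mul_sub, abs_mul, abs_of_pos (by positivity : (0 : ℝ) < 2 ^ n)] at h3
    rw [le_div_iff₀ (by positivity)]
    linarith
  have h3 : |Real.log ‖bo c z‖ - G c z| ≤ 0 := by
    have h4 : Tendsto (fun n : ℕ => (3 / 16 + Real.log (1 + ‖c‖)) / (2 : ℝ) ^ n) atTop (𝓝 0) := by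
      have := tendsto_pow_atTop_nhds_zero_of_lt_one (r := (1 / 2 : ℝ)) (by norm_num)
        (by norm_num)
      have h3 := this.const_mul (3 / 16 + Real.log (1 + ‖c‖))
      rw [mul_zero] at h3
      refine h3.congr fun n => ?_
      rw [one_div, inv_pow]; rfl
    exact ge_of_tendsto' h4 h2
  have h4 : Real.log ‖bo c z‖ = G c z := by
    have := abs_nonpos_iff.1 h3; linarith
  rw [← h4, Real.exp_log (norm_pos_iff.2 (bo_ne_zero h))]

lemma log_norm_bo {c z : ℂ} (h : Far c z) : Real.log ‖bo c z‖ = G c z := by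
  rw [norm_bo h, Real.log_exp]

lemma G_pos_of_Far {c z : ℂ} (h : Far c z) : 0 < G c z := by
  rw [G_pos_iff]
  intro h0
  have := norm_le_of_G_zero h0
  unfold Far at h; linarith

/-- explicit form of the Green function near infinity -/
lemma G_eq_log_add {c z : ℂ} (h : Far c z) : G c z = Real.log ‖z‖ + (SB c z).re := by
  rw [← log_norm_bo h]
  unfold bo
  rw [norm_mul, Complex.norm_exp, Real.log_mul (by have := h.norm_gt; linarith)
    (Real.exp_pos _).ne', Real.log_exp]

/-! ### holomorphic dependence -/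

lemma differentiableOn_St {U : Set ℂ} {γ δ : ℂ → ℂ} (hγ : DifferentiableOn ℂ γ U)
    (hδ : DifferentiableOn ℂ δ U) (h : ∀ t ∈ U, Far (γ t) (δ t)) (n : ℕ) :
    DifferentiableOn ℂ (fun t => St (γ t) n (δ t)) U := by
  have h1 : DifferentiableOn ℂ (fun t => it (γ t) n (δ t)) U :=
    (differentiable_it n).comp_differentiableOn (hγ.prodMk hδ)
  unfold St
  refine DifferentiableOn.div_const (DifferentiableOn.clog ?_ ?_) _
  · refine (differentiableOn_const _).add (hγ.div (h1.pow 2) ?_)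
    intro t ht
    exact pow_ne_zero _ ((h t ht).it n).ne_zero
  · intro t ht
    exact ((h t ht).it n).one_add_mem

/-- `SB` is holomorphic along holomorphic curves in parameter x dynamical space -/
theorem differentiableOn_SB {U : Set ℂ} (hU : IsOpen U) {γ δ : ℂ → ℂ}
    (hγ : DifferentiableOn ℂ γ U) (hδ : DifferentiableOn ℂ δ U)
    (h : ∀ t ∈ U, Far (γ t) (δ t)) : DifferentiableOn ℂ (fun t => SB (γ t) (δ t)) U :=
  Complex.differentiableOn_tsum_of_summable_norm summable_half
    (fun n => differentiableOn_St hγ hδ h n) hU fun n t ht => norm_St_le (h t ht) n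

theorem differentiableOn_bo {U : Set ℂ} (hU : IsOpen U) {γ δ : ℂ → ℂ}
    (hγ : DifferentiableOn ℂ γ U) (hδ : DifferentiableOn ℂ δ U)
    (h : ∀ t ∈ U, Far (γ t) (δ t)) : DifferentiableOn ℂ (fun t => bo (γ t) (δ t)) U :=
  hδ.mul (differentiableOn_SB hU hγ hδ h).cexp

lemma continuousOn_SB : ContinuousOn (fun p : ℂ × ℂ => SB p.1 p.2) {p | Far p.1 p.2} := by
  unfold SB
  refine continuousOn_tsum (fun n => ?_) summable_half fun n p hp => norm_St_le hp n
  have h1 : ContinuousOn (fun p : ℂ × ℂ => it p.1 n p.2) {p | Far p.1 p.2} :=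
    (continuous_it n).continuousOn
  unfold St
  refine ContinuousOn.div_const (ContinuousOn.clog ?_ ?_) _
  · refine continuousOn_const.add (continuousOn_fst.div (h1.pow 2) ?_)
    intro p hp
    have hp' : Far p.1 p.2 := hp
    exact pow_ne_zero _ (hp'.it n).ne_zero
  · intro p hp
    have hp' : Far p.1 p.2 := hp
    exact (hp'.it n).one_add_mem

lemma continuousOn_bo : ContinuousOn (fun p : ℂ × ℂ => bo p.1 p.2) {p | Far p.1 p.2} :=
  continuousOn_snd.mul continuousOn_SB.cexp

/-- near a point with positive Green function some iterate is far, for all nearby `(c, z)` -/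
theorem eventually_Far {c z : ℂ} (h : 0 < G c z) :
    ∃ n, ∀ᶠ p : ℂ × ℂ in 𝓝 (c, z), Far p.1 (it p.1 n p.2) := by
  obtain ⟨n, hn⟩ := ((tendsto_it_of_G_pos h).eventually_gt_atTop (‖c‖ + 2)).exists
  refine ⟨n, ?_⟩
  have h1 : Continuous fun p : ℂ × ℂ => (p.1, it p.1 n p.2) :=
    continuous_fst.prodMk (continuous_it n)
  have h2 : {p : ℂ × ℂ | Far p.1 p.2} ∈ 𝓝 ((fun p : ℂ × ℂ => (p.1, it p.1 n p.2)) (c, z)) :=
    isOpen_Far.mem_nhds hn
  exact h1.continuousAt.eventually h2

/-- `G` along a holomorphic curve is locally the real part of a holomorphic function at points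
where it is positive -/
theorem exists_analytic_re {γ δ : ℂ → ℂ} {t₀ : ℂ} (hγ : AnalyticAt ℂ γ t₀)
    (hδ : AnalyticAt ℂ δ t₀) (h : 0 < G (γ t₀) (δ t₀)) :
    ∃ g : ℂ → ℂ, AnalyticAt ℂ g t₀ ∧ ∀ᶠ t in 𝓝 t₀, G (γ t) (δ t) = (g t).re := by
  obtain ⟨n, hn⟩ := eventually_Far h
  have hc : ContinuousAt (fun t => (γ t, δ t)) t₀ :=
    hγ.continuousAt.prodMk hδ.continuousAt
  have h1 := hc.eventually hn
  have h2 : ∀ᶠ t in 𝓝 t₀, DifferentiableAt ℂ γ t :=
    hγ.eventually_analyticAt.mono fun t ht => ht.differentiableAt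
  have h3 : ∀ᶠ t in 𝓝 t₀, DifferentiableAt ℂ δ t :=
    hδ.eventually_analyticAt.mono fun t ht => ht.differentiableAt
  obtain ⟨U, hU, hUo, htU⟩ := _root_.eventually_nhds_iff.1 (h1.and (h2.and h3))
  have hγ' : DifferentiableOn ℂ γ U := fun t ht => (hU t ht).2.1.differentiableWithinAt
  have hδ' : DifferentiableOn ℂ δ U := fun t ht => (hU t ht).2.2.differentiableWithinAt
  have hit : DifferentiableOn ℂ (fun t => it (γ t) n (δ t)) U :=
    (differentiable_it n).comp_differentiableOn (hγ'.prodMk hδ')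
  have hB : DifferentiableOn ℂ (fun t => bo (γ t) (it (γ t) n (δ t))) U :=
    differentiableOn_bo hUo hγ' hit fun t ht => (hU t ht).1
  set B : ℂ → ℂ := fun t => bo (γ t) (it (γ t) n (δ t)) with hBdef
  have hB0 : B t₀ ≠ 0 := bo_ne_zero (hU t₀ htU).1
  have hBan : AnalyticAt ℂ B t₀ := hB.analyticAt (hUo.mem_nhds htU)
  -- a local logarithm of `B`
  have hq : AnalyticAt ℂ (fun t => B t / B t₀) t₀ := hBan.div_const
  have hq1 : (fun t => B t / B t₀) t₀ ∈ Complex.slitPlane := by
    simp only [div_self hB0]; exact Complex.one_mem_slitPlane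
  refine ⟨fun t => (Complex.log (B t / B t₀) + Complex.log (B t₀)) / 2 ^ n,
    ((hq.clog hq1).add analyticAt_const).div_const, ?_⟩
  have hne : ∀ᶠ t in 𝓝 t₀, t ∈ U := hUo.mem_nhds htU
  filter_upwards [hne] with t ht
  have hF := (hU t ht).1
  have h4 : Real.log ‖B t‖ = 2 ^ n * G (γ t) (δ t) := by
    rw [hBdef]; simp only; rw [log_norm_bo hF, G_it]
  have hBt : B t ≠ 0 := bo_ne_zero hF
  have h5 : (Complex.log (B t / B t₀) + Complex.log (B t₀)).re = Real.log ‖B t‖ := by
    rw [Complex.add_re, Complex.log_re, Complex.log_re, norm_div,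
      Real.log_div (norm_ne_zero_iff.2 hBt) (norm_ne_zero_iff.2 hB0)]
    ring
  have h6 : ((Complex.log (B t / B t₀) + Complex.log (B t₀)) / 2 ^ n).re =
      (Complex.log (B t / B t₀) + Complex.log (B t₀)).re / 2 ^ n := by
    have : ((2 : ℂ) ^ n) = ((2 ^ n : ℝ) : ℂ) := by push_cast; rfl
    rw [this, Complex.div_ofReal_re]
  rw [h6, h5, h4]
  field_simp

end Pool.Agent.Work.MLC
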