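import Pool.Agent.Work.MLC.CntQ26

set_option autoImplicit false

/-! # Theorem Cap (MLC quasi-everywhere): interface of the one-piece estimates (manager: helper26)

The author of the theorem is helper90 (note 2201). `WS`, `W.dat y`, `W.Gt`, `RoofH` are in `CntQ26`.
The components `W` and the rationals `x` are arbitrary; `m = W.m`, `q = x.den`. -/

namespace Pool.Agent.Work.MLC.Cap

open Filter Topology Metric Set Complex MeasureTheory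
open Pool.Agent.Work.MLC.Sat Pool.Agent.Work.MLC.Cnt
open scoped ENNReal

/-- the weight -/
noncomputable def bet (N s : ℝ) : ℝ := (max 1 (Real.logb 2 (1 / s) / N)) ^ ((1 : ℝ) / 8)

/-- the energy of a set in the half plane `re > 0` -/
noncomputable def en (A : Set ℂ) : ℝ≥0∞ := ∫⁻ z in A, ENNReal.ofReal (‖deriv cOf z‖ ^ 2)

/-- the region of the rays near the angle `e` -/
def RS (e D H : ℝ) : Set ℂ :=
  {z | 0 < z.re ∧ z.re ≤ 2 * H ∧ |z.im / (2 * Real.pi) - e| ≤ D + 8 * z.re}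

/-- its weighted energy -/
noncomputable def rayE (N e D H : ℝ) : ℝ≥0∞ :=
  ∫⁻ z in RS e D H, ENNReal.ofReal (‖deriv cOf z‖ ^ 2 / bet N z.re)

/-- the region of the roof of height `H` over `[s, t]` -/
def Rf (s t H : ℝ) : Set ℂ :=
  {z | H / 2 < z.re ∧ z.re < 2 * H ∧ s - 2 * H < z.im / (2 * Real.pi) ∧
    z.im / (2 * Real.pi) < t + 2 * H}

/-- the spread of the leaf angles -/
noncomputable def DD (m q : ℕ) : ℝ := 2 * (1 / 2) ^ (m * (3 * q - 1))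

/-- the part of the component next to the root at `x` -/
noncomputable def HH (W : WS) (x : ℚ) : Set ℂ :=
  W.c '' {L | -1 / (200 * W.m * (x.den : ℝ) ^ 2) < L.re ∧ L.re < 0 ∧
    |L.im / (2 * Real.pi) - x| < 1 / (x.den : ℝ) ^ 2}

/-- `u < x < v` are Farey neighbours of `x` with denominators in `(2 q, 3 q]` -/
structure Nbr (x u v : ℚ) : Prop where
  ux : u < x
  xv : x < v
  u0 : 2 / (3 * (x.den : ℚ)) ≤ u
  v1 : v ≤ 1 - 2 / (3 * (x.den : ℚ))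
  detu : x.num * u.den - u.num * x.den = 1
  detv : v.num * x.den - x.num * v.den = 1
  denu : 2 * x.den < u.den ∧ u.den ≤ 3 * x.den
  denv : 2 * x.den < v.den ∧ v.den ≤ 3 * x.den

/-! ## Pure modules -/

/-- NB: the neighbours exist -/
def C_nbr : Prop := ∀ x : ℚ, 0 < x → x < 1 → ∃ u v : ℚ, Nbr x u v

/-- LV: the leaves of the 4-ary Farey tree -/
def C_leaf : Prop := ∀ u v : ℚ, u < v → v.num * u.den - u.num * v.den = 1 → ∀ n : ℕ,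
  ∃ X : Finset ℚ, X.card = 4 ^ n ∧ (∀ x ∈ X, u < x ∧ x < v ∧ x.den ≤ 3 ^ n * (u.den + v.den)) ∧
    ∀ (k : ℕ) (Z : ℝ), k ≤ n → (3 : ℝ) ^ k * (u.den + v.den) ≤ Z → ∀ S ⊆ X,
      (∀ s ∈ S, ∀ s' ∈ S, ∀ y : ℚ, s < y → y < s' → Z < y.den) → S.card ≤ 4 ^ (n - k)

/-! ## Rays and roofs -/

/-- AV: the weighted average -/
def C_average : Prop := ∀ (κ : Type) (X : Finset κ) (τ : κ → ℝ) (e D H N : ℝ) (I : ℕ)
  (M : ℕ → ℝ), X.Nonempty → 0 < H → H ≤ 1 → 1 ≤ N → 0 ≤ D → (∀ x ∈ X, |τ x - e| ≤ D) →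
  (∀ i < I, 0 ≤ M i ∧ ∀ a : ℝ, ((X.filter fun x => a ≤ τ x ∧ τ x ≤ a + H / 2 ^ i).card : ℝ) ≤
    M i * X.card) →
  ∃ x ∈ X, ENNReal.ofReal (diam (RaySeg (τ x) (H / 2 ^ I) H) ^ 2) ≤
    ENNReal.ofReal (10 ^ 5 * ∑ i ∈ Finset.range I, M i * bet N (H / 2 ^ i)) * rayE N e D H

/-- RF: roofs -/
def C_roof : Prop := ∀ s t H : ℝ, 0 < H → H ≤ 1 → s ≤ t → t ≤ s + 5 * H →
  ENNReal.ofReal (diam (RoofH H s t) ^ 2) ≤ 10 ^ 5 * en (Rf (s + H) (t - H) H)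

/-- EN: the total energy -/
def C_energy : Prop := en {z | 0 < z.re ∧ z.re ≤ 2 ∧ -20 < z.im ∧ z.im < 20} ≤ 10 ^ 6

/-- DI: the distance of the angles near `x` -/
def C_dist : Prop := ∀ W : WS, W.Ok → ∀ x u v y : ℚ, 0 < x → x < 1 → Nbr x u v →
  (u < y → y < x → (W.dat x).tm - (W.dat y).tm ≤ DD W.m x.den) ∧
  (x < y → y < v → (W.dat y).tp - (W.dat x).tp ≤ DD W.m x.den)

/-- CR: the rays of a cut (from `C_leaf`, `C_average`, `C_dist`, `n2_ray`) -/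
def C_cutray (C : ℝ) : Prop := ∀ W : WS, W.Ok → ∀ x u v : ℚ, 0 < x → x < 1 → Nbr x u v →
  ∀ H : ℝ, 0 < H → H ≤ 1 → ∃ (x₁ x₂ : ℚ) (g : ℝ), u < x₁ ∧ x₁ < x ∧ x < x₂ ∧ x₂ < v ∧
    0 < g ∧ g ≤ H ∧
    (∀ t : ℝ, 0 < t → t ≤ g → cOf ((t : ℂ) + 2 * Real.pi * (W.dat x₁).tm * I) ∈
      W.Gt x₁ (6 / (2000 * W.m * (x.den : ℝ) ^ 2))) ∧
    (∀ t : ℝ, 0 < t → t ≤ g → cOf ((t : ℂ) + 2 * Real.pi * (W.dat x₂).tp * I) ∈
      W.Gt x₂ (6 / (2000 * W.m * (x.den : ℝ) ^ 2))) ∧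
    ENNReal.ofReal (diam (RaySeg (W.dat x₁).tm g H) ^ 2) ≤ ENNReal.ofReal (C * (W.m * x.den)) *
      rayE (4 * W.m * x.den) (W.dat x).tm (DD W.m x.den) H ∧
    ENNReal.ofReal (diam (RaySeg (W.dat x₂).tp g H) ^ 2) ≤ ENNReal.ofReal (C * (W.m * x.den)) *
      rayE (4 * W.m * x.den) (W.dat x).tp (DD W.m x.den) H

/-! ## Gates -/

/-- CG: the gates of a cut (from `Q_gate`) -/
def C_cutgate (C : ℝ) : Prop := ∀ W : WS, W.Ok → ∀ x u v x₁ x₂ : ℚ, 0 < x → x < 1 → Nbr x u v →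
  u < x₁ → x₁ < x → x < x₂ → x₂ < v → ∃ (F : Finset ℕ) (P : ℕ → Set ℂ),
    (∀ i ∈ F, Bornology.IsBounded (P i)) ∧
    (∀ y : ℝ, (x₁ : ℝ) ≤ y → y ≤ x₂ → ∃ i ∈ F, W.c (2 * Real.pi * y * I) ∈ P i) ∧
    (∃ i ∈ F, W.Gt x₁ (6 / (2000 * W.m * (x.den : ℝ) ^ 2)) ⊆ P i) ∧
    (∃ i ∈ F, W.Gt x₂ (6 / (2000 * W.m * (x.den : ℝ) ^ 2)) ⊆ P i) ∧
    ENNReal.ofReal ((∑ i ∈ F, diam (P i)) ^ 2) ≤
      ENNReal.ofReal (C * W.m) * volume (HH W x)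

/-- HA: the parts of the components have bounded overlap -/
def C_half : Prop := ∀ (ι : Type) (F : Finset ι) (W : ι → WS) (x : ι → ℚ),
  (∀ i ∈ F, (W i).Ok ∧ 0 < x i ∧ x i < 1) →
  (∀ i ∈ F, ∀ G ⊆ F, (∀ j ∈ G, WS.Same (W i) (W j) ∧ x i = x j) → G.card ≤ 3) →
  ∑ i ∈ F, volume (HH (W i) (x i)) / (x i).den ≤ 10 ^ 6

/-! ## Topology of the pieces of type II -/

/-- the piece between the root of `U` and the root of `V` -/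
noncomputable def KP (U V : Dat) : Set ℂ := insert (rt U) (Lm U) \ Lm V

/-- T2: the piece of type II; the outer cut goes through `W` between `x₁` and `x₂`, the inner cut
through `W'` between `x₁'` and `x₂'` -/
def C_top2 : Prop := ∀ W W' : WS, W.Ok → W'.Ok → ∀ (V : Dat) (x x₁ x₂ x₁' x₂' : ℚ),
  V.Par → V.Cir → 0 < x₁ → x₁ < x → x < x₂ → x₂ < 1 → 0 < x₁' → x₁' < x₂' → x₂' < 1 →
  Lm V ⊆ Lm (W.dat x) → (∀ y : ℝ, 0 < y → y < 1 → W'.c (2 * Real.pi * y * I) ∈ Lm V) →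
  (W.dat x).tm ≤ V.tm → V.tm ≤ (W'.dat x₁').tm → (W'.dat x₂').tp ≤ V.tp → V.tp ≤ (W.dat x).tp →
  IsPreconnected (KP (W.dat x) V) →
  ∀ (g g' h : ℝ), 0 < g → g ≤ h → 0 < g' → g' ≤ h →
  ∀ (κ : Type) (F : Finset κ) (P : κ → Set ℂ),
  (∀ i ∈ F, Bornology.IsBounded (P i)) →
  (∀ y : ℝ, (x₁ : ℝ) ≤ y → y ≤ x₂ → ∃ i ∈ F, W.c (2 * Real.pi * y * I) ∈ P i) →
  (∀ u : ℝ, 0 < u → u ≤ g → ∃ i ∈ F, cOf ((u : ℂ) + 2 * Real.pi * (W.dat x₁).tm * I) ∈ P i) →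
  (∀ u : ℝ, 0 < u → u ≤ g → ∃ i ∈ F, cOf ((u : ℂ) + 2 * Real.pi * (W.dat x₂).tp * I) ∈ P i) →
  (∀ y : ℝ, (x₁' : ℝ) ≤ y → y ≤ x₂' → ∃ i ∈ F, W'.c (2 * Real.pi * y * I) ∈ P i) →
  (∀ u : ℝ, 0 < u → u ≤ g' → ∃ i ∈ F, cOf ((u : ℂ) + 2 * Real.pi * (W'.dat x₁').tm * I) ∈ P i) →
  (∀ u : ℝ, 0 < u → u ≤ g' → ∃ i ∈ F, cOf ((u : ℂ) + 2 * Real.pi * (W'.dat x₂').tp * I) ∈ P i) →
  diam (KP (W.dat x) V) ≤
    diam (RaySeg (W.dat x₁).tm g h) + diam (RaySeg (W.dat x₂).tp g h) +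
    diam (RaySeg (W'.dat x₁').tm g' h) + diam (RaySeg (W'.dat x₂').tp g' h) +
    diam (RoofH h (W.dat x₁).tm (W'.dat x₁').tm) + diam (RoofH h (W'.dat x₂').tp (W.dat x₂).tp) +
    ∑ i ∈ F, diam (P i)

/-! ## The results for helper90 -/

/-- the energy of one cut at height `H` -/
noncomputable def cutE (W : WS) (x : ℚ) (H : ℝ) : ℝ≥0∞ :=
  ENNReal.ofReal (W.m * x.den) * (rayE (4 * W.m * x.den) (W.dat x).tm (DD W.m x.den) H +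
    rayE (4 * W.m * x.den) (W.dat x).tp (DD W.m x.den) H) + ENNReal.ofReal W.m * volume (HH W x)

/-- ONE: type I (`H` = length of the plateau) -/
def C_one (C : ℝ) : Prop := ∀ W : WS, W.Ok → ∀ (x : ℚ) (H : ℝ), 0 < x → x < 1 →
  H ≤ 1 → (W.dat x).tp - (W.dat x).tm ≤ 3 * H → DD W.m x.den ≤ H →
  ENNReal.ofReal (diam (Lm (W.dat x)) ^ 2) ≤ ENNReal.ofReal C *
    (cutE W x H + en (Rf (W.dat x).tm (W.dat x).tp H))

/-- TWO: type II -/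
def C_two (C : ℝ) : Prop := ∀ W W' : WS, W.Ok → W'.Ok → ∀ (V : Dat) (x x' : ℚ) (H : ℝ),
  V.Par → V.Cir → 0 < x → x < 1 → 0 < x' → x' < 1 → H ≤ 1 →
  Lm V ⊆ Lm (W.dat x) → (∀ y : ℝ, 0 < y → y < 1 → W'.c (2 * Real.pi * y * I) ∈ Lm V) →
  (W.dat x).tm ≤ V.tm → (∀ y : ℚ, 0 < y → y < 1 → V.tm ≤ (W'.dat y).tm ∧ (W'.dat y).tp ≤ V.tp) →
  V.tp ≤ (W.dat x).tp → IsPreconnected (KP (W.dat x) V) →
  V.tm - (W.dat x).tm ≤ 2 * H → (W.dat x).tp - V.tp ≤ 2 * H → DD W.m x.den ≤ H →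
  DD W'.m x'.den ≤ H → (W'.dat x').tm - V.tm ≤ H → V.tp - (W'.dat x').tp ≤ H →
  ENNReal.ofReal (diam (KP (W.dat x) V) ^ 2) ≤ ENNReal.ofReal C *
    (cutE W x H + cutE W' x' H + en (Rf (W.dat x).tm V.tm H) + en (Rf V.tp (W.dat x).tp H))

end Pool.Agent.Work.MLC.Cap
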