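import Pool.Agent.Work.MLC.CapG26

set_option autoImplicit false

/-! # Theorem Cap, module HA: the parts of the components have bounded overlap (helper78) -/

namespace Pool.Agent.Work.MLC.Cap

open Filter Topology Metric Set Complex MeasureTheory
open Pool.Agent.Work.MLC.Sat Pool.Agent.Work.MLC.Cnt
open scoped ENNReal

lemma exp_inj78 {L L' : ℂ} (h0 : 0 < L.im) (h1 : L.im < 2 * Real.pi) (h0' : 0 < L'.im)
    (h1' : L'.im < 2 * Real.pi) (h : Complex.exp L = Complex.exp L') : L = L' := by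
  rw [Complex.exp_eq_exp_iff_exists_int] at h
  obtain ⟨n, hn⟩ := h
  have h6 := congrArg Complex.im hn
  simp only [add_im, mul_im, mul_re, intCast_re, intCast_im, re_ofNat, im_ofNat, ofReal_re,
    ofReal_im, I_re, I_im, mul_zero, zero_mul, sub_zero, mul_one, add_zero] at h6
  have hpi := Real.pi_gt_three
  have hn0 : n = 0 := by
    have h7 : (n : ℝ) < 1 := by
      by_contra h7
      push Not at h7
      nlinarith
    have h8 : (-1 : ℝ) < n := by
      by_contra h8
      push Not at h8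
      nlinarith
    have h9 : n < 1 := by exact_mod_cast h7
    have h10 : -1 < n := by exact_mod_cast h8
    omega
  rw [hn, hn0]; simp

/-- an attracting parameter belongs to one component only, at one point -/
theorem same78 {W W' : WS} (hW : W.Ok) (hW' : W'.Ok) {L L' : ℂ} (h0 : 0 < L.im)
    (h1 : L.im < 2 * Real.pi) (h2 : L.re < 0) (h0' : 0 < L'.im) (h1' : L'.im < 2 * Real.pi)
    (h2' : L'.re < 0) (h : W.c L = W'.c L') : WS.Same W W' ∧ L = L' := by
  have hD : L ∈ Pri.D0 W.m := ⟨h0, h1, h2.trans_le (by unfold Pri.hgt; positivity)⟩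
  have hD' : L' ∈ Pri.D0 W'.m := ⟨h0', h1', h2'.trans_le (by unfold Pri.hgt; positivity)⟩
  obtain ⟨a1, a2⟩ := hW.wide.sec L hD
  obtain ⟨b1, b2⟩ := hW'.wide.sec L' hD'
  have ea := hW.ex L hD
  have eb := hW'.ex L' hD'
  have h3 : (W.σ L).1 = (W'.σ L').1 := h
  have h4 : ∀ M : ℂ, M.re < 0 → ‖Complex.exp M‖ < 1 := by
    intro M hM
    rw [Complex.norm_exp]
    exact Real.exp_lt_one_iff.2 hM
  have hb1 : it (W.σ L).1 W'.m (W'.σ L').2 = (W'.σ L').2 := by rw [h3]; exact b1
  have hb2 : ‖mul W'.m ((W.σ L).1, (W'.σ L').2)‖ < 1 := by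
    rw [h3, Prod.mk.eta, b2]; exact h4 L' h2'
  have ha1 : it (W.σ L).1 W.m (W.σ L).2 = (W.σ L).2 := a1
  have ha2 : ‖mul W.m ((W.σ L).1, (W.σ L).2)‖ < 1 := by
    rw [Prod.mk.eta, a2]; exact h4 L h2
  obtain ⟨i, hi⟩ := s7_fatou (W.σ L).1 (W.σ L).2 (W'.σ L').2 W.m W'.m hW.wide.pos hW'.wide.pos ha1
    ha2 hb1 hb2
  obtain ⟨j, hj⟩ := s7_fatou (W.σ L).1 (W'.σ L').2 (W.σ L).2 W'.m W.m hW'.wide.pos hW.wide.pos hb1
    hb2 ha1 ha2
  -- equal periods
  have hm : W.m = W'.m := by
    apply le_antisymm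
    · by_contra hcon
      push Not at hcon
      refine ea W'.m hW'.wide.pos hcon ?_
      show it (W.σ L).1 W'.m (W.σ L).2 = (W.σ L).2
      have e := Sat.Per_it (c := (W.σ L).1) (z := (W'.σ L').2) (n := W'.m) hb1 j
      rw [← hj] at e
      exact e
    · by_contra hcon
      push Not at hcon
      refine eb W.m hW.wide.pos hcon ?_
      show it (W'.σ L').1 W.m (W'.σ L').2 = (W'.σ L').2
      rw [← h3]
      have e := Sat.Per_it (c := (W.σ L).1) (z := (W.σ L).2) (n := W.m) ha1 i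
      rw [← hi] at e
      exact e
  have h5 : mul W'.m (W'.σ L') = mul W.m (W.σ L) := by
    have e : W'.σ L' = ((W.σ L).1, it (W.σ L).1 i (W.σ L).2) := by
      rw [← hi, h3]
    rw [e, ← hm]
    exact mul_it' (c := (W.σ L).1) (z := (W.σ L).2) a1 i
  rw [a2, b2] at h5
  have hLL : L = L' := (exp_inj78 h0' h1' h0 h1 h5).symm
  refine ⟨⟨hm, ?_⟩, hLL⟩
  subst hLL
  have hsh := hW.wide.shift i
  have hall := section_unique (Pri.goodDom_D0 hW.wide.pos) hsh.cont hsh.sec
    (Pri.isPreconnected_D0 W.m) (g := W'.σ) (l := id) (by rw [hm]; exact hW'.wide.cont)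
    continuousOn_id (fun M hM => by
      have hM' : M ∈ Pri.D0 W'.m := by rw [← hm]; exact hM
      have := hW'.wide.sec M hM'
      rw [← hm] at this
      exact ⟨this.1, hM, this.2⟩) hD
    (by
      show W'.σ L = ((W.σ L).1, it (W.σ L).1 i (W.σ L).2)
      rw [← hi, h3])
  intro M hM
  have := hall M hM
  show (W.σ M).1 = (W'.σ M).1
  rw [this]
  rfl

lemma isOpen_HR78 (m : ℕ) (x : ℚ) : IsOpen (HR m x) := by
  have h1 : IsOpen {L : ℂ | -1 / (200 * m * (x.den : ℝ) ^ 2) < L.re} :=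
    isOpen_lt continuous_const continuous_re
  have h2 : IsOpen {L : ℂ | L.re < 0} := isOpen_lt continuous_re continuous_const
  have h3 : IsOpen {L : ℂ | |L.im / (2 * Real.pi) - x| < 1 / (x.den : ℝ) ^ 2} :=
    isOpen_lt (by fun_prop) continuous_const
  exact h1.inter (h2.inter h3)

lemma HR_D0_78 {W : WS} {x : ℚ} (hx0 : 0 < x) (hx1 : x < 1) :
    HR W.m x ⊆ Pri.D0 W.m := fun L hL => by
  obtain ⟨h0, h1, h2⟩ := HR_strip hx0 hx1 hL
  exact ⟨h0, h1, h2.trans_le (by unfold Pri.hgt; positivity)⟩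

lemma meas_HH78 {W : WS} (hW : W.Ok) {x : ℚ} (hx0 : 0 < x) (hx1 : x < 1) :
    MeasurableSet (HH W x) := by
  have hc : ContinuousOn W.c (HR W.m x) :=
    (continuous_fst.comp_continuousOn hW.wide.cont).mono (HR_D0_78 hx0 hx1)
  refine (isOpen_HR78 W.m x).measurableSet.image_of_continuousOn_injOn hc ?_
  intro L hL L' hL' h
  obtain ⟨s1, s2, s3⟩ := HR_strip hx0 hx1 hL
  obtain ⟨t1, t2, t3⟩ := HR_strip hx0 hx1 hL'
  exact c_inj26 hW s1 s2 s3 t1 t2 t3 h

lemma bdd_HH78 {W : WS} (hW : W.Ok) {x : ℚ} (hx0 : 0 < x) (hx1 : x < 1) :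
    HH W x ⊆ ball 0 5 := by
  rintro _ ⟨L, hL, rfl⟩
  have hD := HR_D0_78 hx0 hx1 hL
  obtain ⟨a1, a2⟩ := hW.wide.sec L hD
  have h1 := (Per_bdd hW.wide.pos a1 (by rw [a2]; exact Pri.lt_D0 hW.wide.pos hD)).1
  rw [mem_ball, dist_zero_right]
  show ‖(W.σ L).1‖ < 5
  linarith

/-! ## The sum over the rationals near a number -/

/-- rationals in one dyadic block -/
lemma card_block78 (l : ℝ) (k : ℕ) (X : Finset ℚ)
    (h : ∀ x ∈ X, 2 ^ k ≤ x.den ∧ x.den < 2 ^ (k + 1) ∧ |l - x| < 1 / (x.den : ℝ) ^ 2) :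
    X.card ≤ 9 := by
  have h1 : X.card ≤ (Finset.Icc (-4 : ℤ) 4).card := by
    refine Finset.card_le_card_of_injOn (fun x : ℚ => ⌊((x : ℝ) - l) * 4 ^ (k + 1)⌋) ?_ ?_
    · intro x hx
      obtain ⟨h2, h3, h4⟩ := h x hx
      have hd : (2 : ℝ) ^ k ≤ x.den := by exact_mod_cast h2
      have hk : (0 : ℝ) < 2 ^ k := by positivity
      have h5 : |l - x| < 1 / 4 ^ k := by
        refine h4.trans_le (one_div_le_one_div_of_le (by positivity) ?_)
        have e : (4 : ℝ) ^ k = (2 ^ k) ^ 2 := by rw [← pow_mul, mul_comm, pow_mul]; norm_num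
        rw [e]
        exact pow_le_pow_left₀ hk.le hd 2
      rw [abs_sub_comm] at h5
      have h4k : (0 : ℝ) < 4 ^ k := by positivity
      have h6 : |((x : ℝ) - l) * 4 ^ (k + 1)| < 4 := by
        rw [abs_mul, abs_of_pos (show (0 : ℝ) < 4 ^ (k + 1) by positivity), pow_succ]
        calc |(x : ℝ) - l| * (4 ^ k * 4) < 1 / 4 ^ k * (4 ^ k * 4) := by
              exact mul_lt_mul_of_pos_right h5 (by positivity)
          _ = 4 := by field_simp
      rw [abs_lt] at h6
      rw [Finset.mem_coe, Finset.mem_Icc]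
      constructor
      · exact Int.le_floor.2 (by push_cast; linarith)
      · have : ⌊((x : ℝ) - l) * 4 ^ (k + 1)⌋ < 5 := Int.floor_lt.2 (by push_cast; linarith)
        exact Int.lt_add_one_iff.1 this
    · intro x hx y hy hxy
      by_contra hne
      obtain ⟨h2, h3, h4⟩ := h x hx
      obtain ⟨h2', h3', h4'⟩ := h y hy
      have hxy' : ⌊((x : ℝ) - l) * 4 ^ (k + 1)⌋ = ⌊((y : ℝ) - l) * 4 ^ (k + 1)⌋ := hxy
      have h5 := Int.abs_sub_lt_one_of_floor_eq_floor hxy'
      have e1 : ((x : ℝ) - l) * 4 ^ (k + 1) - ((y : ℝ) - l) * 4 ^ (k + 1) =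
          ((x : ℝ) - y) * 4 ^ (k + 1) := by ring
      rw [e1, abs_mul, abs_of_pos (show (0 : ℝ) < 4 ^ (k + 1) by positivity)] at h5
      -- distance of two rationals
      have hxd : (0 : ℝ) < x.den := by exact_mod_cast x.den_pos
      have hyd : (0 : ℝ) < y.den := by exact_mod_cast y.den_pos
      have e2 : (x : ℝ) * x.den = x.num := by exact_mod_cast Rat.mul_den_eq_num x
      have e3 : (y : ℝ) * y.den = y.num := by exact_mod_cast Rat.mul_den_eq_num y
      have h6 : ((x : ℝ) - y) * (x.den * y.den) = ((x.num * y.den - y.num * x.den : ℤ) : ℝ) := by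
        push_cast
        rw [← e2, ← e3]
        ring
      have h7 : (x.num * y.den - y.num * x.den : ℤ) ≠ 0 := by
        intro h8
        rw [h8, Int.cast_zero, mul_eq_zero] at h6
        rcases h6 with h6 | h6
        · apply hne
          have : (x : ℝ) = y := by linarith
          exact_mod_cast this
        · have : (0 : ℝ) < x.den * y.den := by positivity
          linarith
      have h8 : (1 : ℝ) ≤ |((x.num * y.den - y.num * x.den : ℤ) : ℝ)| := by
        rw [← Int.cast_abs]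
        exact_mod_cast Int.one_le_abs h7
      rw [← h6, abs_mul, abs_of_pos (show (0 : ℝ) < x.den * y.den by positivity)] at h8
      have h9 : (x.den : ℝ) * y.den ≤ 4 ^ (k + 1) := by
        have a1 : (x.den : ℝ) ≤ 2 ^ (k + 1) := by exact_mod_cast h3.le
        have a2 : (y.den : ℝ) ≤ 2 ^ (k + 1) := by exact_mod_cast h3'.le
        calc (x.den : ℝ) * y.den ≤ 2 ^ (k + 1) * 2 ^ (k + 1) :=
              mul_le_mul a1 a2 hyd.le (by positivity)
          _ = 4 ^ (k + 1) := by rw [← mul_pow]; norm_num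
      have h10 : |(x : ℝ) - y| * (x.den * y.den) ≤ |(x : ℝ) - y| * 4 ^ (k + 1) :=
        mul_le_mul_of_nonneg_left h9 (abs_nonneg _)
      linarith
  simpa using h1

/-- the sum of `1 / q` over the rationals at distance less than `1 / q ^ 2` -/
lemma sum_near78 (l : ℝ) (X : Finset ℚ) (h : ∀ x ∈ X, |l - x| < 1 / (x.den : ℝ) ^ 2) :
    ∑ x ∈ X, (1 : ℝ) / x.den ≤ 18 := by
  obtain ⟨K, hK⟩ : ∃ K : ℕ, ∀ x ∈ X, Nat.log 2 x.den < K := by
    refine ⟨(X.sup fun x => Nat.log 2 x.den) + 1, fun x hx => ?_⟩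
    exact Nat.lt_succ_of_le (Finset.le_sup (f := fun x : ℚ => Nat.log 2 x.den) hx)
  rw [← Finset.sum_fiberwise_of_maps_to (s := X) (t := Finset.range K)
    (g := fun x : ℚ => Nat.log 2 x.den) (fun x hx => Finset.mem_range.2 (hK x hx))]
  have key : ∀ k ∈ Finset.range K, ∑ x ∈ X.filter (fun x : ℚ => Nat.log 2 x.den = k),
      (1 : ℝ) / x.den ≤ 9 * (1 / 2) ^ k := by
    intro k _
    have hc : (X.filter (fun x : ℚ => Nat.log 2 x.den = k)).card ≤ 9 := by
      refine card_block78 l k _ fun x hx => ?_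
      rw [Finset.mem_filter] at hx
      refine ⟨?_, ?_, h x hx.1⟩
      · rw [← hx.2]; exact Nat.pow_log_le_self 2 x.den_pos.ne'
      · rw [← hx.2]; exact Nat.lt_pow_succ_log_self (by norm_num) _
    calc ∑ x ∈ X.filter (fun x : ℚ => Nat.log 2 x.den = k), (1 : ℝ) / x.den
        ≤ ∑ x ∈ X.filter (fun x : ℚ => Nat.log 2 x.den = k), (1 / 2 : ℝ) ^ k := by
          refine Finset.sum_le_sum fun x hx => ?_
          rw [Finset.mem_filter] at hx
          have h2 : 2 ^ k ≤ x.den := by rw [← hx.2]; exact Nat.pow_log_le_self 2 x.den_pos.ne'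
          have h3 : (2 : ℝ) ^ k ≤ x.den := by exact_mod_cast h2
          rw [one_div_pow]
          exact one_div_le_one_div_of_le (by positivity) h3
      _ = (X.filter (fun x : ℚ => Nat.log 2 x.den = k)).card * (1 / 2 : ℝ) ^ k := by
          rw [Finset.sum_const, nsmul_eq_mul]
      _ ≤ 9 * (1 / 2) ^ k := by
          refine mul_le_mul_of_nonneg_right ?_ (by positivity)
          exact_mod_cast hc
  refine (Finset.sum_le_sum key).trans ?_
  rw [← Finset.mul_sum, geom_sum_eq (by norm_num)]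
  have : (0 : ℝ) < (1 / 2) ^ K := by positivity
  have e : ((1 / 2 : ℝ) ^ K - 1) / (1 / 2 - 1) = 2 * (1 - (1 / 2) ^ K) := by ring
  rw [e]
  linarith

/-- **HA** -/
theorem c_half : C_half := by
  classical
  intro ι F W x hF hG
  have hpt : ∀ c : ℂ, ∑ i ∈ F, (HH (W i) (x i)).indicator
      (fun _ => ENNReal.ofReal (1 / (x i).den)) c ≤
        (ball (0 : ℂ) 5).indicator (fun _ => (54 : ℝ≥0∞)) c := by
    intro c
    by_cases hne : ∃ i₀ ∈ F, c ∈ HH (W i₀) (x i₀)
    · obtain ⟨i₀, hi₀, hci₀⟩ := hne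
      have hcb : c ∈ ball (0 : ℂ) 5 := bdd_HH78 (hF i₀ hi₀).1 (hF i₀ hi₀).2.1 (hF i₀ hi₀).2.2 hci₀
      rw [indicator_of_mem hcb]
      obtain ⟨L, hL, hLc⟩ := hci₀
      obtain ⟨s1, s2, s3⟩ := HR_strip (hF i₀ hi₀).2.1 (hF i₀ hi₀).2.2 hL
      obtain ⟨Fc, hFc⟩ : ∃ Fc : Finset ι, Fc = F.filter (fun i => c ∈ HH (W i) (x i)) := ⟨_, rfl⟩
      have hmem : ∀ i ∈ Fc, i ∈ F ∧ WS.Same (W i₀) (W i) ∧
          |L.im / (2 * Real.pi) - x i| < 1 / ((x i).den : ℝ) ^ 2 := by
        intro i hi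
        rw [hFc, Finset.mem_filter] at hi
        obtain ⟨hiF, L', hL', hLc'⟩ := hi
        obtain ⟨t1, t2, t3⟩ := HR_strip (hF i hiF).2.1 (hF i hiF).2.2 hL'
        obtain ⟨r1, r2⟩ := same78 (hF i₀ hi₀).1 (hF i hiF).1 s1 s2 s3 t1 t2 t3
          (hLc.trans hLc'.symm)
        subst r2
        exact ⟨hiF, r1, hL'.2.2⟩
      have e1 : ∑ i ∈ F, (HH (W i) (x i)).indicator
          (fun _ => ENNReal.ofReal (1 / (x i).den)) c =
          ∑ i ∈ Fc, ENNReal.ofReal (1 / (x i).den) := by
        rw [hFc, Finset.sum_filter]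
        exact Finset.sum_congr rfl fun i _ => by rw [indicator_apply]
      rw [e1, ← ENNReal.ofReal_sum_of_nonneg (fun i _ => by positivity)]
      have h54 : (54 : ℝ≥0∞) = ENNReal.ofReal 54 := by simp
      rw [h54]
      refine ENNReal.ofReal_le_ofReal ?_
      have hX := sum_near78 (L.im / (2 * Real.pi)) (Fc.image x) (by
        intro y hy
        obtain ⟨i, hi, rfl⟩ := Finset.mem_image.1 hy
        exact (hmem i hi).2.2)
      rw [← Finset.sum_fiberwise_of_maps_to (s := Fc) (t := Fc.image x) (g := x)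
        (fun i hi => Finset.mem_image_of_mem x hi)]
      calc ∑ y ∈ Fc.image x, ∑ i ∈ Fc.filter (fun i => x i = y), (1 : ℝ) / (x i).den
          ≤ ∑ y ∈ Fc.image x, 3 * ((1 : ℝ) / y.den) := by
            refine Finset.sum_le_sum fun y hy => ?_
            obtain ⟨i₁, hi₁, hi₁y⟩ := Finset.mem_image.1 hy
            have hcard : (Fc.filter (fun i => x i = y)).card ≤ 3 := by
              refine hG i₁ (hmem i₁ hi₁).1 _ ?_ ?_
              · intro i hi
                exact (hmem i (Finset.mem_filter.1 hi).1).1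
              · intro j hj
                rw [Finset.mem_filter] at hj
                refine ⟨?_, by rw [hi₁y, hj.2]⟩
                have q1 := (hmem i₁ hi₁).2.1
                have q2 := (hmem j hj.1).2.1
                refine ⟨q1.1.symm.trans q2.1, fun M hM => ?_⟩
                have hM' : M ∈ Pri.D0 (W i₀).m := by rw [q1.1]; exact hM
                exact (q1.2 M hM').symm.trans (q2.2 M hM')
            calc ∑ i ∈ Fc.filter (fun i => x i = y), (1 : ℝ) / (x i).den
                = ∑ i ∈ Fc.filter (fun i => x i = y), (1 : ℝ) / y.den :=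
                  Finset.sum_congr rfl fun i hi => by rw [(Finset.mem_filter.1 hi).2]
              _ = (Fc.filter (fun i => x i = y)).card * ((1 : ℝ) / y.den) := by
                  rw [Finset.sum_const, nsmul_eq_mul]
              _ ≤ 3 * ((1 : ℝ) / y.den) := by
                  refine mul_le_mul_of_nonneg_right ?_ (by positivity)
                  exact_mod_cast hcard
        _ ≤ 54 := by
            rw [← Finset.mul_sum]
            linarith
    · push Not at hne
      rw [Finset.sum_eq_zero]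
      · exact bot_le
      · intro i hi
        exact indicator_of_notMem (hne i hi) _
  have hterm : ∀ i ∈ F, volume (HH (W i) (x i)) / (x i).den =
      ∫⁻ c, (HH (W i) (x i)).indicator (fun _ => ENNReal.ofReal (1 / (x i).den)) c := by
    intro i hi
    rw [lintegral_indicator_const (meas_HH78 (hF i hi).1 (hF i hi).2.1 (hF i hi).2.2),
      ENNReal.div_eq_inv_mul]
    congr 1
    have hd : (0 : ℝ) < (x i).den := by exact_mod_cast (x i).den_pos
    rw [one_div, ENNReal.ofReal_inv_of_pos hd, ENNReal.ofReal_natCast]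
  rw [Finset.sum_congr rfl hterm, ← lintegral_finsetSum']
  · calc ∫⁻ c, ∑ i ∈ F, (HH (W i) (x i)).indicator (fun _ => ENNReal.ofReal (1 / (x i).den)) c
        ≤ ∫⁻ c, (ball (0 : ℂ) 5).indicator (fun _ => (54 : ℝ≥0∞)) c := lintegral_mono hpt
      _ = 54 * volume (ball (0 : ℂ) 5) := lintegral_indicator_const measurableSet_ball _
      _ ≤ 10 ^ 6 := by
          rw [Complex.volume_ball]
          have h1 : (NNReal.pi : ℝ≥0∞) ≤ 4 := by
            have : NNReal.pi ≤ 4 := by
              rw [← NNReal.coe_le_coe]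
              exact Real.pi_le_four
            exact_mod_cast this
          calc 54 * (ENNReal.ofReal 5 ^ 2 * (NNReal.pi : ℝ≥0∞))
              ≤ 54 * (ENNReal.ofReal 5 ^ 2 * 4) := by gcongr
            _ ≤ 10 ^ 6 := by
                rw [ENNReal.ofReal_ofNat]
                norm_num
  · intro i hi
    exact (measurable_const.indicator
      (meas_HH78 (hF i hi).1 (hF i hi).2.1 (hF i hi).2.2)).aemeasurable

end Pool.Agent.Work.MLC.Cap
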