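import Pool.Agent.Work.MLC.CapM50
import Pool.Agent.Work.MLC.CapH78

set_option autoImplicit false

/-! # Theorem Cap, stage A: LimbSum, unconditional (helper50) -/

namespace Pool.Agent.Work.MLC.Cap

/-- **LimbSum**: there is `C` such that the sum over any finite set of different roots of type
`(m, p / q)`, `q ≥ 3`, of `diam (limb) ^ 2 / (m q)` is at most `C` -/
theorem limb_all : ∃ C : ℝ, C_limbsum C := limbsum c_half ⟨_, by norm_num, one_all⟩

end Pool.Agent.Work.MLC.Cap
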