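import Mathlib

/-!
# Area and length-area lemmas in the logarithmic coordinate of a torus (helper51)

Abstract lemmas (no dynamics) for the MLC project.

* `Tr.lintegral_normSq_deriv`: area of the image of an injective holomorphic map.
* `Tr.volume_le_lattice`: a measurable set whose translates by the lattice
  `ℤ (2 π i) + ℤ τ` are disjoint has area at most `2 π Re τ`.
* `Tr.energy_le`: the energy of a holomorphic function which is injective modulo the lattice.
* `Tr.length_area`: rectangle length-area inequality.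
* `Tr.strip_growth`: a conformal image of a strip which grows at least linearly must meet one
  of its translates by the lattice.
* `Tr.ply_strip`: length-area inequality for a periodic strip.
* `Tr.exists_return`, `Tr.ply_RH`: the same for injective maps of the right half plane (periodicity
  of tracts and the Pommerenke-Levin-Yoccoz inequality).
-/

open Complex MeasureTheory Set Filter Topology

namespace Pool.Agent.Work.MLC.Tr

/-! ### The area of the image of a holomorphic injection -/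

theorem det_restrictScalars_smulRight (a : ℂ) :
    (((ContinuousLinearMap.toSpanSingleton ℂ a : ℂ →L[ℂ] ℂ).restrictScalars ℝ : ℂ →L[ℝ] ℂ)).det
      = ‖a‖ ^ 2 := by
  have h1 : (((ContinuousLinearMap.toSpanSingleton ℂ a : ℂ →L[ℂ] ℂ).restrictScalars ℝ :
      ℂ →L[ℝ] ℂ) : ℂ →ₗ[ℝ] ℂ) = Algebra.lmul ℝ ℂ a := by
    ext z
    simp [mul_comm]
  rw [ContinuousLinearMap.det, h1, ← Algebra.norm_apply, Algebra.norm_complex_apply,
    Complex.normSq_eq_norm_sq]

theorem lintegral_normSq_deriv {U S : Set ℂ} (hU : IsOpen U) {F : ℂ → ℂ}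
    (hF : DifferentiableOn ℂ F U) (hSU : S ⊆ U) (hS : MeasurableSet S) (hinj : InjOn F S) :
    ∫⁻ z in S, ENNReal.ofReal (‖deriv F z‖ ^ 2) = volume (F '' S) := by
  rw [← lintegral_abs_det_fderiv_eq_addHaar_image volume
    (f' := fun z => (ContinuousLinearMap.toSpanSingleton ℂ (deriv F z) :
      ℂ →L[ℂ] ℂ).restrictScalars ℝ) hS ?_ hinj]
  · apply lintegral_congr
    intro z
    rw [det_restrictScalars_smulRight, abs_of_nonneg (by positivity)]
  · intro z hz
    have h1 : HasDerivAt F (deriv F z) z :=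
      (hF.differentiableAt (hU.mem_nhds (hSU hz))).hasDerivAt
    exact (h1.hasFDerivAt.restrictScalars ℝ).hasFDerivWithinAt

/-! ### The area bound from the lattice -/

/-- The fundamental domain. -/
def Dom (τ : ℂ) : Set ℂ := Ico 0 τ.re ×ℂ Ico 0 (2 * Real.pi)

theorem volume_reProdIm {s t : Set ℝ} (hs : MeasurableSet s) (ht : MeasurableSet t) :
    volume (s ×ℂ t) = volume s * volume t := by
  have h := (Complex.volume_preserving_equiv_real_prod.symm).measure_preimage
    (s := s ×ℂ t) ((hs.preimage measurable_re).inter (ht.preimage measurable_im)).nullMeasurableSet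
  rw [← h]
  have h2 : (Complex.measurableEquivRealProd.symm ⁻¹' (s ×ℂ t)) = s ×ˢ t := by
    ext p
    simp [Complex.mem_reProdIm, Complex.measurableEquivRealProd_symm_apply]
  rw [h2, Measure.volume_eq_prod, Measure.prod_prod]

theorem volume_Dom {τ : ℂ} (hτ : 0 < τ.re) :
    volume (Dom τ) = ENNReal.ofReal (2 * Real.pi * τ.re) := by
  rw [Dom, volume_reProdIm measurableSet_Ico measurableSet_Ico, Real.volume_Ico, Real.volume_Ico,
    ← ENNReal.ofReal_mul (by linarith)]
  congr 1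
  ring

/-- Lattice vector. -/
noncomputable def lv (τ : ℂ) (p : ℤ × ℤ) : ℂ := p.1 * (2 * Real.pi * I) + p.2 * τ

theorem exists_lv {τ : ℂ} (hτ : 0 < τ.re) (z : ℂ) : ∃ p : ℤ × ℤ, z - lv τ p ∈ Dom τ := by
  obtain ⟨k, hk, -⟩ := existsUnique_sub_zsmul_mem_Ico hτ z.re 0
  obtain ⟨m, hm, -⟩ := existsUnique_sub_zsmul_mem_Ico Real.two_pi_pos (z.im - k * τ.im) 0
  refine ⟨(m, k), ?_⟩
  rw [Dom, Complex.mem_reProdIm]
  constructor
  · simpa [lv] using hk
  · simp only [zero_add] at hm ⊢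
    have e2 : (z - lv τ (m, k)).im = z.im - k * τ.im - m • (2 * Real.pi) := by
      simp [lv, zsmul_eq_mul]; ring
    rw [e2]
    exact hm

theorem volume_le_lattice {A : Set ℂ} (hA : MeasurableSet A) {τ : ℂ} (hτ : 0 < τ.re)
    (hd : ∀ z ∈ A, ∀ w ∈ A, ∀ m k : ℤ, z = w + m * (2 * Real.pi * I) + k * τ → m = 0 ∧ k = 0) :
    volume A ≤ ENNReal.ofReal (2 * Real.pi * τ.re) := by
  rw [← volume_Dom hτ]
  have hcov : A ⊆ ⋃ p : ℤ × ℤ, (fun z => z - lv τ p) ⁻¹' (Dom τ) ∩ A := by
    intro z hz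
    obtain ⟨p, hp⟩ := exists_lv hτ z
    exact mem_iUnion.2 ⟨p, hp, hz⟩
  have hDm : MeasurableSet (Dom τ) :=
    (measurableSet_Ico.preimage measurable_re).inter (measurableSet_Ico.preimage measurable_im)
  calc volume A ≤ volume (⋃ p : ℤ × ℤ, (fun z => z - lv τ p) ⁻¹' (Dom τ) ∩ A) :=
        measure_mono hcov
    _ ≤ ∑' p : ℤ × ℤ, volume ((fun z => z - lv τ p) ⁻¹' (Dom τ) ∩ A) := measure_iUnion_le _
    _ = ∑' p : ℤ × ℤ, volume (Dom τ ∩ (fun z => z + lv τ p) ⁻¹' A) := by
        apply tsum_congr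
        intro p
        rw [← measure_preimage_add_right volume (lv τ p)
          ((fun z => z - lv τ p) ⁻¹' (Dom τ) ∩ A)]
        congr 1
        ext z
        simp
    _ = volume (⋃ p : ℤ × ℤ, Dom τ ∩ (fun z => z + lv τ p) ⁻¹' A) := by
        rw [measure_iUnion]
        · intro p q hpq
          rw [Function.onFun, Set.disjoint_left]
          rintro z ⟨-, hz1⟩ ⟨-, hz2⟩
          apply hpq
          have h := hd _ hz1 _ hz2 (p.1 - q.1) (p.2 - q.2) (by
            simp only [lv]; push_cast; ring)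
          exact Prod.ext (by omega) (by omega)
        · intro p
          exact hDm.inter (hA.preimage (measurable_id.add_const _))
    _ ≤ volume (Dom τ) := measure_mono (iUnion_subset fun p => inter_subset_left)

/-- Area bound in terms of the energy. -/
theorem energy_le {U S : Set ℂ} (hU : IsOpen U) {F : ℂ → ℂ} (hF : DifferentiableOn ℂ F U)
    (hSU : S ⊆ U) (hS : MeasurableSet S) {τ : ℂ} (hτ : 0 < τ.re)
    (hd : ∀ z ∈ S, ∀ w ∈ S, ∀ m k : ℤ, F z = F w + m * (2 * Real.pi * I) + k * τ →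
      z = w ∧ m = 0 ∧ k = 0) :
    ∫⁻ z in S, ENNReal.ofReal (‖deriv F z‖ ^ 2) ≤ ENNReal.ofReal (2 * Real.pi * τ.re) := by
  have hinj : InjOn F S := fun z hz w hw h => (hd z hz w hw 0 0 (by simp [h])).1
  rw [lintegral_normSq_deriv hU hF hSU hS hinj]
  apply volume_le_lattice _ hτ
  · rintro _ ⟨z, hz, rfl⟩ _ ⟨w, hw, rfl⟩ m k h
    exact (hd z hz w hw m k h).2
  · exact hS.image_of_continuousOn_injOn (hF.continuousOn.mono hSU) hinj

/-! ### The rectangle inequality -/

theorem sq_integral_le {f : ℝ → ℝ} {K : ℝ} (hK : 0 < K) (hf : ContinuousOn f (Icc 0 K)) :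
    (∫ x in (0:ℝ)..K, f x) ^ 2 ≤ K * ∫ x in (0:ℝ)..K, f x ^ 2 := by
  have huIcc : uIcc 0 K = Icc 0 K := uIcc_of_le hK.le
  have i1 : IntervalIntegrable f volume 0 K := (huIcc ▸ hf).intervalIntegrable
  have i2 : IntervalIntegrable (fun x => f x ^ 2) volume 0 K :=
    (huIcc ▸ (hf.pow 2)).intervalIntegrable
  set m := (∫ x in (0:ℝ)..K, f x) / K with hm
  have h1 : 0 ≤ ∫ x in (0:ℝ)..K, (f x - m) ^ 2 :=
    intervalIntegral.integral_nonneg hK.le (fun x _ => sq_nonneg _)
  have h2 : ∫ x in (0:ℝ)..K, (f x - m) ^ 2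
      = (∫ x in (0:ℝ)..K, f x ^ 2) - 2 * m * (∫ x in (0:ℝ)..K, f x) + K * m ^ 2 := by
    have e : ∀ x, (f x - m) ^ 2 = f x ^ 2 - 2 * m * f x + m ^ 2 := fun x => by ring
    simp_rw [e]
    rw [intervalIntegral.integral_add (i2.sub (i1.const_mul _)) (by simp),
      intervalIntegral.integral_sub i2 (i1.const_mul _), intervalIntegral.integral_const_mul,
      intervalIntegral.integral_const]
    simp
  have h3 : (∫ x in (0:ℝ)..K, f x) = K * m := by rw [hm]; field_simp
  rw [h2, h3] at h1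
  rw [h3]
  nlinarith

theorem length_area {U : Set ℂ} (hU : IsOpen U) {G : ℂ → ℂ} (hG : DifferentiableOn ℂ G U)
    {K a b : ℝ} (hK : 0 < K) 
    (hsub : ∀ x ∈ Icc 0 K, ∀ y ∈ Ioo a b, (x + y * I : ℂ) ∈ U) {d : ℝ} (hd : 0 ≤ d)
    (h : ∀ y ∈ Ioo a b, d ≤ ‖G (K + y * I) - G (y * I)‖) :
    ENNReal.ofReal ((b - a) * d ^ 2) ≤
      ENNReal.ofReal K * ∫⁻ z in (Ioo 0 K ×ℂ Ioo a b), ENNReal.ofReal (‖deriv G z‖ ^ 2) := by
  have hmeas : Measurable (fun z : ℂ => ENNReal.ofReal (‖deriv G z‖ ^ 2)) :=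
    ((measurable_deriv G).norm.pow_const 2).ennreal_ofReal
  -- one horizontal line
  have hline : ∀ y ∈ Ioo a b, ENNReal.ofReal (d ^ 2) ≤
      ENNReal.ofReal K * ∫⁻ x in Ioo (0:ℝ) K, ENNReal.ofReal (‖deriv G (x + y * I)‖ ^ 2) := by
    intro y hy
    have hc : ContinuousOn (fun x : ℝ => deriv G (x + y * I)) (Icc 0 K) := by
      have h1 : ContinuousOn (deriv G) U := (hG.deriv hU).continuousOn
      exact h1.comp (by fun_prop) (fun x hx => hsub x hx y hy)
    have hcn : ContinuousOn (fun x : ℝ => ‖deriv G (x + y * I)‖) (Icc 0 K) := hc.norm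
    have huIcc : uIcc 0 K = Icc 0 K := uIcc_of_le hK.le
    have hder : ∀ x ∈ uIcc 0 K, HasDerivAt (fun x : ℝ => G (x + y * I)) (deriv G (x + y * I)) x := by
      intro x hx
      rw [huIcc] at hx
      have h1 : HasDerivAt G (deriv G (x + y * I)) (x + y * I) :=
        (hG.differentiableAt (hU.mem_nhds (hsub x hx y hy))).hasDerivAt
      have h2 : HasDerivAt (fun w : ℂ => w + y * I) 1 (x : ℂ) := (hasDerivAt_id _).add_const _
      have h3 := HasDerivAt.comp (x : ℂ) h1 h2
      simpa using h3.comp_ofReal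
    have hint : ∫ x in (0:ℝ)..K, deriv G (x + y * I) = G (K + y * I) - G (y * I) := by
      rw [intervalIntegral.integral_eq_sub_of_hasDerivAt hder
        (huIcc ▸ hc).intervalIntegrable]
      simp
    have h1 : d ≤ ∫ x in (0:ℝ)..K, ‖deriv G (x + y * I)‖ := by
      calc d ≤ ‖G (K + y * I) - G (y * I)‖ := h y hy
        _ = ‖∫ x in (0:ℝ)..K, deriv G (x + y * I)‖ := by rw [hint]
        _ ≤ _ := intervalIntegral.norm_integral_le_integral_norm hK.le
    have h2 : d ^ 2 ≤ K * ∫ x in (0:ℝ)..K, ‖deriv G (x + y * I)‖ ^ 2 :=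
      (pow_le_pow_left₀ hd h1 2).trans (sq_integral_le hK hcn)
    have h3 : ENNReal.ofReal (∫ x in (0:ℝ)..K, ‖deriv G (x + y * I)‖ ^ 2)
        = ∫⁻ x in Ioo (0:ℝ) K, ENNReal.ofReal (‖deriv G (x + y * I)‖ ^ 2) := by
      rw [intervalIntegral.integral_of_le hK.le, integral_Ioc_eq_integral_Ioo,
        ofReal_integral_eq_lintegral_ofReal]
      · exact ((hcn.pow 2).integrableOn_Icc).mono_set Ioo_subset_Icc_self
      · exact ae_of_all _ (fun x => by positivity)
    calc ENNReal.ofReal (d ^ 2)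
        ≤ ENNReal.ofReal (K * ∫ x in (0:ℝ)..K, ‖deriv G (x + y * I)‖ ^ 2) :=
          ENNReal.ofReal_le_ofReal h2
      _ = _ := by rw [ENNReal.ofReal_mul hK.le, h3]
  have hfub : ∫⁻ z in (Ioo 0 K ×ℂ Ioo a b), ENNReal.ofReal (‖deriv G z‖ ^ 2)
      = ∫⁻ y in Ioo a b, ∫⁻ x in Ioo (0:ℝ) K, ENNReal.ofReal (‖deriv G (x + y * I)‖ ^ 2) := by
    rw [← (Complex.volume_preserving_equiv_real_prod.symm).setLIntegral_comp_preimage_emb
      Complex.measurableEquivRealProd.symm.measurableEmbedding]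
    have h2 : (Complex.measurableEquivRealProd.symm ⁻¹' (Ioo 0 K ×ℂ Ioo a b))
        = Ioo 0 K ×ˢ Ioo a b := by
      ext p
      simp [Complex.mem_reProdIm, Complex.measurableEquivRealProd_symm_apply]
    rw [h2, Measure.volume_eq_prod, ← Measure.prod_restrict, lintegral_prod_symm']
    · apply lintegral_congr
      intro y
      apply lintegral_congr
      intro x
      simp only [Complex.measurableEquivRealProd_symm_apply]
      rw [Complex.mk_eq_add_mul_I]
    · exact hmeas.comp Complex.measurableEquivRealProd.symm.measurable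
  rw [hfub]
  by_cases hab : a < b
  · calc ENNReal.ofReal ((b - a) * d ^ 2)
        = ∫⁻ _ in Ioo a b, ENNReal.ofReal (d ^ 2) := by
          rw [lintegral_const, Measure.restrict_apply_univ, Real.volume_Ioo,
            ← ENNReal.ofReal_mul (by positivity)]
          congr 1; ring
      _ ≤ ∫⁻ y in Ioo a b, (ENNReal.ofReal K *
            ∫⁻ x in Ioo (0:ℝ) K, ENNReal.ofReal (‖deriv G (x + y * I)‖ ^ 2)) :=
          setLIntegral_mono' measurableSet_Ioo hline
      _ = _ := by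
          rw [lintegral_const_mul']
          exact ENNReal.ofReal_ne_top
  · rw [ENNReal.ofReal_of_nonpos]
    · exact zero_le
    · nlinarith [sq_nonneg d]

/-! ### Strips -/

theorem isOpen_strip (a b : ℝ) : IsOpen {z : ℂ | a < z.im ∧ z.im < b} :=
  (isOpen_lt continuous_const continuous_im).inter (isOpen_lt continuous_im continuous_const)

/-- Length-area for a periodic strip. -/
theorem ply_strip {G : ℂ → ℂ} {a b P : ℝ} (hP : 0 < P)
    (hG : DifferentiableOn ℂ G {z : ℂ | a < z.im ∧ z.im < b}) {τ v : ℂ} (hτ : 0 < τ.re)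
    (hper : ∀ z : ℂ, a < z.im → z.im < b → G (z + P) = G z + v)
    (hd : ∀ z w : ℂ, a < z.im → z.im < b → 0 < z.re → z.re < P →
      a < w.im → w.im < b → 0 < w.re → w.re < P → ∀ m k : ℤ,
      G z = G w + m * (2 * Real.pi * I) + k * τ → z = w ∧ m = 0 ∧ k = 0) :
    (b - a) * ‖v‖ ^ 2 ≤ P * (2 * Real.pi * τ.re) := by
  have h1 := length_area (isOpen_strip a b) hG hP (d := ‖v‖)
    (fun x _ y hy => by simpa using hy) (norm_nonneg _) (fun y hy => by
      have h2 := hper (y * I) (by simpa using hy.1) (by simpa using hy.2)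
      rw [add_comm] at h2
      rw [h2]; simp)
  have h3 : ∫⁻ z in (Ioo 0 P ×ℂ Ioo a b), ENNReal.ofReal (‖deriv G z‖ ^ 2)
      ≤ ENNReal.ofReal (2 * Real.pi * τ.re) := by
    apply energy_le (isOpen_strip a b) hG _ _ hτ
    · intro z hz w hw m k h
      rw [Complex.mem_reProdIm] at hz hw
      exact hd z w hz.2.1 hz.2.2 hz.1.1 hz.1.2 hw.2.1 hw.2.2 hw.1.1 hw.1.2 m k h
    · intro z hz
      rw [Complex.mem_reProdIm] at hz
      exact hz.2
    · exact (measurableSet_Ioo.preimage measurable_re).inter (measurableSet_Ioo.preimage measurable_im)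
  have h4 : ENNReal.ofReal ((b - a) * ‖v‖ ^ 2) ≤ ENNReal.ofReal (P * (2 * Real.pi * τ.re)) := by
    rw [ENNReal.ofReal_mul hP.le]
    exact h1.trans (mul_le_mul_right h3 _)
  exact (ENNReal.ofReal_le_ofReal_iff (by positivity)).1 h4

/-- A holomorphic map of the strip of width `π` whose real part grows at least linearly cannot be
injective modulo the lattice. -/
theorem strip_growth {G : ℂ → ℂ}
    (hG : DifferentiableOn ℂ G {z : ℂ | -(Real.pi / 2) < z.im ∧ z.im < Real.pi / 2})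
    {τ : ℂ} (hτ : 0 < τ.re) {κ C : ℝ} (hκ : 0 < κ)
    (hgrow : ∀ z : ℂ, 0 ≤ z.re → |z.im| ≤ Real.pi / 4 → κ * z.re - C ≤ (G z).re) :
    ∃ z w : ℂ, (-(Real.pi / 2) < z.im ∧ z.im < Real.pi / 2) ∧
      (-(Real.pi / 2) < w.im ∧ w.im < Real.pi / 2) ∧
      ∃ m k : ℤ, G z = G w + m * (2 * Real.pi * I) + k * τ ∧ ¬ (z = w ∧ m = 0 ∧ k = 0) := by
  by_contra hcon
  push Not at hcon
  have hpi := Real.pi_pos
  set U : Set ℂ := {z : ℂ | -(Real.pi / 2) < z.im ∧ z.im < Real.pi / 2} with hUdef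
  have hU : IsOpen U := isOpen_strip _ _
  -- bound on the left side
  obtain ⟨B, hB⟩ : ∃ B : ℝ, ∀ y ∈ Icc (-(Real.pi / 4)) (Real.pi / 4), (G (y * I)).re ≤ B := by
    have hc : ContinuousOn (fun y : ℝ => (G (y * I)).re) (Icc (-(Real.pi / 4)) (Real.pi / 4)) := by
      refine continuous_re.comp_continuousOn (hG.continuousOn.comp (by fun_prop) ?_)
      intro y hy
      simp only [hUdef, mem_ofPred_eq, mul_im, ofReal_re, I_im, mul_one, ofReal_im, I_re, mul_zero,
        add_zero]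
      constructor <;> linarith [hy.1, hy.2]
    obtain ⟨B, hB⟩ := (isCompact_Icc.image_of_continuousOn hc).bddAbove
    exact ⟨B, fun y hy => hB ⟨y, hy, rfl⟩⟩
  -- the inequality for each K
  have key : ∀ K : ℝ, 0 < K → C + B ≤ κ * K →
      (Real.pi / 2) * (κ * K - C - B) ^ 2 ≤ K * (2 * Real.pi * τ.re) := by
    intro K hK hK2
    have h1 := length_area hU hG hK (a := -(Real.pi / 4)) (b := Real.pi / 4)
      (d := κ * K - C - B)
      (fun x _ y hy => by
        simp only [hUdef, mem_ofPred_eq, add_im, ofReal_im, mul_im, ofReal_re, I_im, mul_one, I_re,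
          mul_zero, add_zero, zero_add]
        constructor <;> linarith [hy.1, hy.2]) (by linarith) (fun y hy => by
          have h2 := hgrow (K + y * I) (by simpa using hK.le) (by
            simp only [add_im, ofReal_im, mul_im, ofReal_re, I_im, mul_one, I_re,
              mul_zero, add_zero, zero_add]
            exact abs_le.2 ⟨hy.1.le, hy.2.le⟩)
          have h3 := hB y ⟨hy.1.le, hy.2.le⟩
          have h4 : (K + y * I : ℂ).re = K := by simp
          rw [h4] at h2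
          calc κ * K - C - B ≤ (G (K + y * I)).re - (G (y * I)).re := by linarith
            _ = (G (K + y * I) - G (y * I)).re := by simp
            _ ≤ _ := re_le_norm _)
    have h3 : ∫⁻ z in (Ioo 0 K ×ℂ Ioo (-(Real.pi / 4)) (Real.pi / 4)),
        ENNReal.ofReal (‖deriv G z‖ ^ 2) ≤ ENNReal.ofReal (2 * Real.pi * τ.re) := by
      have hsub : (Ioo 0 K ×ℂ Ioo (-(Real.pi / 4)) (Real.pi / 4)) ⊆ U := by
        intro z hz
        rw [Complex.mem_reProdIm] at hz
        exact ⟨by linarith [hz.2.1], by linarith [hz.2.2]⟩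
      apply energy_le hU hG hsub _ hτ
      · intro z hz w hw m k h
        exact hcon z w (hsub hz) (hsub hw) m k h
      · exact (measurableSet_Ioo.preimage measurable_re).inter
          (measurableSet_Ioo.preimage measurable_im)
    have h4 : ENNReal.ofReal ((Real.pi / 4 - -(Real.pi / 4)) * (κ * K - C - B) ^ 2)
        ≤ ENNReal.ofReal (K * (2 * Real.pi * τ.re)) := by
      rw [ENNReal.ofReal_mul hK.le]
      exact h1.trans (mul_le_mul_right h3 _)
    have h5 := (ENNReal.ofReal_le_ofReal_iff (by positivity)).1 h4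
    have h6 : Real.pi / 4 - -(Real.pi / 4) = Real.pi / 2 := by ring
    rwa [h6] at h5
  -- choose K large
  set D := C + B with hD
  obtain ⟨K, hK⟩ : ∃ K : ℝ, 0 < K ∧ D ≤ κ * K / 2 ∧ 16 * τ.re < κ ^ 2 * K := by
    refine ⟨max 1 (max (2 * D / κ) (16 * τ.re / κ ^ 2 + 1)), by positivity, ?_, ?_⟩
    · have h1 : 2 * D / κ ≤ max 1 (max (2 * D / κ) (16 * τ.re / κ ^ 2 + 1)) :=
        (le_max_left _ _).trans (le_max_right _ _)
      rw [div_le_iff₀ hκ] at h1
      linarith
    · have h1 : 16 * τ.re / κ ^ 2 + 1 ≤ max 1 (max (2 * D / κ) (16 * τ.re / κ ^ 2 + 1)) :=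
        (le_max_right _ _).trans (le_max_right _ _)
      have h2 : 16 * τ.re / κ ^ 2 < max 1 (max (2 * D / κ) (16 * τ.re / κ ^ 2 + 1)) := by linarith
      rw [div_lt_iff₀ (by positivity)] at h2
      linarith
  obtain ⟨hK0, hK1, hK2⟩ := hK
  have h1 := key K hK0 (by nlinarith [mul_pos hκ hK0])
  have h2 : κ * K / 2 ≤ κ * K - C - B := by linarith
  have h3 : (κ * K / 2) ^ 2 ≤ (κ * K - C - B) ^ 2 :=
    pow_le_pow_left₀ (by positivity) h2 2
  have h4 : (Real.pi / 2) * (κ * K / 2) ^ 2 ≤ K * (2 * Real.pi * τ.re) :=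
    (mul_le_mul_of_nonneg_left h3 (by positivity)).trans h1
  have h5 : Real.pi * K * (16 * τ.re) < Real.pi * K * (κ ^ 2 * K) :=
    mul_lt_mul_of_pos_left hK2 (by positivity)
  nlinarith

/-! ### Holomorphic logarithms -/

theorem differentiableOn_of_exp {U : Set ℂ} (hU : IsOpen U) {g F : ℂ → ℂ}
    (hg : DifferentiableOn ℂ g U) (hF : ContinuousOn F U) (h : ∀ z ∈ U, exp (F z) = g z) :
    DifferentiableOn ℂ F U := by
  intro z hz
  apply DifferentiableAt.differentiableWithinAt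
  have hgz : DifferentiableAt ℂ g z := hg.differentiableAt (hU.mem_nhds hz)
  have hFz : ContinuousAt F z := hF.continuousAt (hU.mem_nhds hz)
  have h1 : DifferentiableAt ℂ (fun w => log (g w * exp (-F z)) + F z) z := by
    apply DifferentiableAt.add_const
    apply DifferentiableAt.clog
    · exact hgz.mul_const _
    · rw [← h z hz, ← exp_add]; simp
  apply h1.congr_of_eventuallyEq
  have h2 : ∀ᶠ w in 𝓝 z, ‖F w - F z‖ < 1 := by
    have := (hFz.sub_const (F z)).norm
    simp only [sub_self, norm_zero] at this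
    exact this.eventually (gt_mem_nhds one_pos)
  filter_upwards [h2, hU.mem_nhds hz] with w hw hwU
  rw [← h w hwU, ← exp_add, ← sub_eq_add_neg, log_exp]
  · ring
  · have := (abs_im_le_norm (F w - F z)).trans_lt hw
    rw [abs_lt] at this
    linarith [this.1, Real.pi_gt_three]
  · have := (abs_im_le_norm (F w - F z)).trans_lt hw
    rw [abs_lt] at this
    linarith [this.2, Real.pi_gt_three]

theorem exists_hol_log {U : Set ℂ} (hU : IsOpen U) (hc : Convex ℝ U) (hne : U.Nonempty)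
    {g : ℂ → ℂ} (hg : DifferentiableOn ℂ g U) (h0 : ∀ z ∈ U, g z ≠ 0) :
    ∃ F : ℂ → ℂ, DifferentiableOn ℂ F U ∧ ∀ z ∈ U, exp (F z) = g z := by
  have hsc : IsSimplyConnected U := by
    have := hc.contractibleSpace hne
    show SimplyConnectedSpace U
    infer_instance
  obtain ⟨F, hF, hF2⟩ := Complex.exists_continuousOn_eqOn_exp_comp hsc hU hg.continuousOn
    (by rintro ⟨z, hz, h⟩; exact h0 z hz h)
  exact ⟨F, differentiableOn_of_exp hU hg hF hF2, hF2⟩

/-! ### Injective maps of the right half plane -/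

theorem exp_inj_of_strip {z w : ℂ} (hz : -(Real.pi / 2) < z.im ∧ z.im < Real.pi / 2)
    (hw : -(Real.pi / 2) < w.im ∧ w.im < Real.pi / 2) (h : exp z = exp w) : z = w := by
  have hpi := Real.pi_pos
  rw [← log_exp (x := z) (by linarith [hz.1]) (by linarith [hz.2]),
    ← log_exp (x := w) (by linarith [hw.1]) (by linarith [hw.2]), h]

theorem re_exp_pos {z : ℂ} (hz : -(Real.pi / 2) < z.im ∧ z.im < Real.pi / 2) :
    0 < (exp z).re := by
  rw [exp_re]
  exact mul_pos (Real.exp_pos _) (Real.cos_pos_of_mem_Ioo hz)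

/-- **Periodicity of tracts.** An injective holomorphic map `ψ` from the right half plane to
`ℂ \ {0}` with `Re z ≤ C |ψ z| ^ κ` meets one of its images under `x ↦ ρ ^ k x`, `k ≥ 1`. -/
theorem exists_return {ψ : ℂ → ℂ} (hψ : DifferentiableOn ℂ ψ {z : ℂ | 0 < z.re})
    (h0 : ∀ z : ℂ, 0 < z.re → ψ z ≠ 0)
    (hinj : ∀ z w : ℂ, 0 < z.re → 0 < w.re → ψ z = ψ w → z = w)
    {ρ : ℂ} (hρ : 1 < ‖ρ‖) {κ C : ℝ} (hκ : 0 < κ) (hC : 0 < C)
    (hgrow : ∀ z : ℂ, 0 < z.re → z.re ≤ C * ‖ψ z‖ ^ κ) :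
    ∃ k : ℕ, 0 < k ∧ ∃ z w : ℂ, 0 < z.re ∧ 0 < w.re ∧ ψ z = ρ ^ k * ψ w := by
  have hpi := Real.pi_pos
  set S : Set ℂ := {z : ℂ | -(Real.pi / 2) < z.im ∧ z.im < Real.pi / 2} with hSdef
  have hS : IsOpen S := isOpen_strip _ _
  have hSc : Convex ℝ S := by
    have : S = Complex.im ⁻¹' (Ioo (-(Real.pi / 2)) (Real.pi / 2)) := rfl
    rw [this]
    exact (convex_Ioo _ _).linear_preimage Complex.imLm
  have hSne : S.Nonempty := ⟨0, by simp [hSdef]; positivity⟩
  have hmaps : MapsTo exp S {z : ℂ | 0 < z.re} := fun z hz => re_exp_pos hz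
  obtain ⟨F, hF, hFe⟩ := exists_hol_log hS hSc hSne (g := fun z => ψ (exp z))
    (hψ.comp differentiable_exp.differentiableOn hmaps) (fun z hz => h0 _ (hmaps hz))
  have hρ0 : ρ ≠ 0 := by
    rintro rfl; simp at hρ; linarith
  have hτ : 0 < (log ρ).re := by
    rw [log_re]; exact Real.log_pos hρ
  have hgr : ∀ z : ℂ, 0 ≤ z.re → |z.im| ≤ Real.pi / 4 →
      (1 / κ) * z.re - (1 / κ) * (Real.log C - Real.log (Real.sqrt 2 / 2)) ≤ (F z).re := by
    intro z _ hz
    have hzS : z ∈ S := by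
      have := abs_le.1 hz
      exact ⟨by linarith [this.1], by linarith [this.2]⟩
    have h1 : Real.exp (F z).re = ‖ψ (exp z)‖ := by rw [← norm_exp, hFe z hzS]
    have h2 := hgrow (exp z) (hmaps hzS)
    have h3 : Real.sqrt 2 / 2 ≤ Real.cos z.im := by
      rw [← Real.cos_pi_div_four, ← Real.cos_abs z.im]
      exact Real.cos_le_cos_of_nonneg_of_le_pi (abs_nonneg _) (by linarith) hz
    have h4 : Real.exp z.re * (Real.sqrt 2 / 2) ≤ C * Real.exp ((F z).re * κ) := by
      calc Real.exp z.re * (Real.sqrt 2 / 2) ≤ Real.exp z.re * Real.cos z.im := by gcongr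
        _ = (exp z).re := (exp_re z).symm
        _ ≤ C * ‖ψ (exp z)‖ ^ κ := h2
        _ = C * Real.exp ((F z).re * κ) := by rw [← h1, Real.exp_mul]
    have h5 := Real.log_le_log (by positivity) h4
    rw [Real.log_mul (by positivity) (by positivity), Real.log_exp,
      Real.log_mul (by positivity) (by positivity), Real.log_exp] at h5
    have h6 : z.re - (Real.log C - Real.log (Real.sqrt 2 / 2)) ≤ (F z).re * κ := by linarith
    calc (1 / κ) * z.re - (1 / κ) * (Real.log C - Real.log (Real.sqrt 2 / 2))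
        = (1 / κ) * (z.re - (Real.log C - Real.log (Real.sqrt 2 / 2))) := by ring
      _ ≤ (1 / κ) * ((F z).re * κ) := by gcongr
      _ = (F z).re := by field_simp
  obtain ⟨z, w, hz, hw, m, k, hzw, hne⟩ := strip_growth hF hτ (κ := 1 / κ) (by positivity) hgr
  have hk : ψ (exp z) = ρ ^ k * ψ (exp w) := by
    rw [← hFe z hz, ← hFe w hw, hzw, exp_add, exp_add, exp_int_mul_two_pi_mul_I, mul_one,
      exp_int_mul, exp_log hρ0]
    ring
  rcases lt_trichotomy k 0 with hk0 | hk0 | hk0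
  · refine ⟨(-k).toNat, by omega, exp w, exp z, re_exp_pos hw, re_exp_pos hz, ?_⟩
    rw [hk, ← mul_assoc, ← zpow_natCast, ← zpow_add₀ hρ0]
    have : (((-k).toNat : ℕ) : ℤ) + k = 0 := by omega
    rw [this]; simp
  · exfalso
    apply hne
    rw [hk0, zpow_zero, one_mul] at hk
    have h1 := exp_inj_of_strip hz hw (hinj _ _ (re_exp_pos hz) (re_exp_pos hw) hk)
    refine ⟨h1, ?_, hk0⟩
    rw [h1, hk0] at hzw
    have h2 : (m : ℂ) * (2 * Real.pi * I) = 0 := by
      simpa using hzw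
    rcases mul_eq_zero.1 h2 with h3 | h3
    · exact_mod_cast h3
    · exact absurd h3 two_pi_I_ne_zero
  · refine ⟨k.toNat, by omega, exp z, exp w, re_exp_pos hz, re_exp_pos hw, ?_⟩
    rw [hk, ← zpow_natCast]
    congr 2
    omega

/-- A continuous logarithm of `ψ`, and the translation it undergoes. -/
theorem exists_log_RH {ψ : ℂ → ℂ} (hψ : DifferentiableOn ℂ ψ {z : ℂ | 0 < z.re})
    (h0 : ∀ z : ℂ, 0 < z.re → ψ z ≠ 0) :
    ∃ F : ℂ → ℂ, DifferentiableOn ℂ F {z : ℂ | 0 < z.re} ∧ ∀ z : ℂ, 0 < z.re → exp (F z) = ψ z :=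
  exists_hol_log (isOpen_lt continuous_const continuous_re)
    ((convex_Ioi (0 : ℝ)).linear_preimage Complex.reLm) ⟨1, by simp⟩ hψ h0

theorem exists_shift {ψ F : ℂ → ℂ} (hF : ContinuousOn F {z : ℂ | 0 < z.re})
    (hFψ : ∀ z : ℂ, 0 < z.re → exp (F z) = ψ z) {ρ L : ℂ} (hL : exp L = ρ) {q m : ℕ} {s : ℂ}
    (hs : s.re = 0)
    (hT : ∀ z : ℂ, 0 < z.re → ψ (2 ^ m * z + s) = ρ ^ q * ψ z) :
    ∃ N : ℤ, ∀ z : ℂ, 0 < z.re →
      F (2 ^ m * z + s) = F z + (q * L + N * (2 * Real.pi * I)) := by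
  have hre : ∀ z : ℂ, 0 < z.re → 0 < (2 ^ m * z + s).re := by
    intro z hz
    have : (2 ^ m * z + s).re = 2 ^ m * z.re := by
      have h1 : ((2 : ℂ) ^ m) = ((2 ^ m : ℝ) : ℂ) := by push_cast; rfl
      rw [add_re, hs, add_zero, h1, re_ofReal_mul]
    rw [this]; positivity
  set D : ℂ → ℂ := fun z => (F (2 ^ m * z + s) - F z - q * L) / (2 * Real.pi * I) with hD
  have hDc : ContinuousOn D {z : ℂ | 0 < z.re} := by
    apply ContinuousOn.div_const
    apply ContinuousOn.sub _ continuousOn_const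
    exact (hF.comp (by fun_prop) (fun z hz => hre z hz)).sub hF
  have hint : ∀ z : ℂ, 0 < z.re → ∃ N : ℤ, D z = N := by
    intro z hz
    have h1 : exp (F (2 ^ m * z + s) - F z - q * L) = 1 := by
      rw [exp_sub, exp_sub, hFψ _ (hre z hz), hT z hz, hFψ z hz, exp_nat_mul, hL]
      have h2 : ψ z ≠ 0 := by rw [← hFψ z hz]; exact exp_ne_zero _
      have h3 : ρ ≠ 0 := by rw [← hL]; exact exp_ne_zero _
      field_simp
    obtain ⟨N, hN⟩ := exp_eq_one_iff.1 h1
    refine ⟨N, ?_⟩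
    rw [hD]
    simp only
    rw [hN]
    field_simp [two_pi_I_ne_zero]
  have hconv : Convex ℝ {z : ℂ | 0 < z.re} := (convex_Ioi (0 : ℝ)).linear_preimage Complex.reLm
  obtain ⟨N, hN⟩ := hint 1 (by simp)
  refine ⟨N, fun z hz => ?_⟩
  have hconst : D z = D 1 := by
    have hpre : IsPreconnected (D '' {z : ℂ | 0 < z.re}) := hconv.isPreconnected.image _ hDc
    have hsub : D '' {z : ℂ | 0 < z.re} ⊆ range (fun n : ℤ => (n : ℂ)) := by
      rintro _ ⟨w, hw, rfl⟩
      obtain ⟨n, hn⟩ := hint w hw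
      exact ⟨n, hn.symm⟩
    have hdisc : (D '' {z : ℂ | 0 < z.re}).Subsingleton := by
      have h1 : IsPreconnected (Complex.re '' (D '' {z : ℂ | 0 < z.re})) :=
        hpre.image _ continuous_re.continuousOn
      have h2 : Complex.re '' (D '' {z : ℂ | 0 < z.re}) ⊆ range (fun n : ℤ => (n : ℝ)) := by
        rintro _ ⟨w, hw, rfl⟩
        obtain ⟨n, hn⟩ := hsub hw
        exact ⟨n, by rw [← hn]; simp⟩
      have h3 : (Complex.re '' (D '' {z : ℂ | 0 < z.re})).Subsingleton := by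
        have hcount : (Complex.re '' (D '' {z : ℂ | 0 < z.re})).Countable :=
          (countable_range _).mono h2
        exact hcount.isTotallyDisconnected _ subset_rfl h1
      intro a ha b hb
      obtain ⟨n, hn⟩ := hsub ha
      obtain ⟨n', hn'⟩ := hsub hb
      have h4 := h3 ⟨a, ha, rfl⟩ ⟨b, hb, rfl⟩
      rw [← hn, ← hn'] at h4 ⊢
      simpa using h4
    exact hdisc ⟨z, hz, rfl⟩ ⟨1, by simp, rfl⟩
  rw [hN] at hconst
  have h1 : F (2 ^ m * z + s) - F z - q * L = N * (2 * Real.pi * I) := by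
    rw [← hconst, hD]
    field_simp [two_pi_I_ne_zero]
  linear_combination h1

/-- **Pommerenke-Levin-Yoccoz.** -/
theorem ply_RH {ψ F : ℂ → ℂ} (hF : DifferentiableOn ℂ F {z : ℂ | 0 < z.re})
    (hFψ : ∀ z : ℂ, 0 < z.re → exp (F z) = ψ z)
    (hinj : ∀ z w : ℂ, 0 < z.re → 0 < w.re → ψ z = ψ w → z = w)
    {ρ L : ℂ} (hρ : 1 < ‖ρ‖) (hL : exp L = ρ) {q m : ℕ} (hq : 0 < q) (hm : 0 < m) {s : ℂ}
    (hs : s.re = 0)
    (hT : ∀ z : ℂ, 0 < z.re → ψ (2 ^ m * z + s) = ρ ^ q * ψ z)
    (hdisj : ∀ k : ℕ, 0 < k → k < q → ∀ z w : ℂ, 0 < z.re → 0 < w.re → ψ z ≠ ρ ^ k * ψ w)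
    {v : ℂ} (hv : ∀ z : ℂ, 0 < z.re → F (2 ^ m * z + s) = F z + v) :
    ‖v‖ ^ 2 ≤ 2 * m * Real.log 2 * L.re := by
  have hpi := Real.pi_pos
  have hlog2 : 0 < Real.log 2 := Real.log_pos (by norm_num)
  have h2m : (1 : ℝ) < 2 ^ m := one_lt_pow₀ (by norm_num) hm.ne'
  have h2m' : ((2 : ℂ) ^ m - 1) ≠ 0 := by
    have h1 : ((2 : ℂ) ^ m - 1) = ((2 ^ m - 1 : ℝ) : ℂ) := by push_cast; rfl
    rw [h1]
    exact_mod_cast (by linarith : (2 ^ m - 1 : ℝ) ≠ 0)
  set z0 : ℂ := -s / (2 ^ m - 1) with hz0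
  have hz0s : 2 ^ m * z0 + s = z0 := by
    have : (2 ^ m - 1) * z0 = -s := by rw [hz0]; field_simp
    linear_combination this
  have hz0re : z0.re = 0 := by
    have h1 : ((2 : ℂ) ^ m - 1) = ((2 ^ m - 1 : ℝ) : ℂ) := by push_cast; rfl
    rw [hz0, h1, div_ofReal_re, neg_re, hs]; simp
  have hTre : ∀ z : ℂ, 0 < z.re → 0 < (2 ^ m * z + s).re := by
    intro z hz
    have : (2 ^ m * z + s).re = 2 ^ m * z.re := by
      have h1 : ((2 : ℂ) ^ m) = ((2 ^ m : ℝ) : ℂ) := by push_cast; rfl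
      rw [add_re, hs, add_zero, h1, re_ofReal_mul]
    rw [this]; positivity
  -- the orbit structure
  have aux : ∀ k : ℕ, ∀ Z W : ℂ, 0 < Z.re → 0 < W.re → ψ Z = ρ ^ k * ψ W →
      ∃ j : ℕ, k = j * q ∧ Z - z0 = 2 ^ (m * j) * (W - z0) := by
    intro k
    induction k using Nat.strong_induction_on with
    | _ k ih =>
      intro Z W hZ hW h
      rcases Nat.eq_zero_or_pos k with hk | hk
      · refine ⟨0, by simp [hk], ?_⟩
        rw [hk, pow_zero, one_mul] at h
        rw [hinj Z W hZ hW h]; simp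
      · rcases lt_or_ge k q with hkq | hkq
        · exact absurd h (hdisj k hk hkq Z W hZ hW)
        · have h1 : ψ Z = ρ ^ (k - q) * ψ (2 ^ m * W + s) := by
            rw [hT W hW, h, ← mul_assoc, ← pow_add, Nat.sub_add_cancel hkq]
          obtain ⟨j, hj1, hj2⟩ := ih (k - q) (by omega) Z _ hZ (hTre W hW) h1
          refine ⟨j + 1, ?_, ?_⟩
          · rw [add_mul, one_mul]; omega
          · rw [hj2, mul_add, mul_one, pow_add, mul_assoc]
            congr 1
            linear_combination hz0s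
  have hSre : ∀ z : ℂ, -(Real.pi / 2) < z.im → z.im < Real.pi / 2 → 0 < (z0 + exp z).re := by
    intro z h1 h2
    rw [add_re, hz0re, zero_add]
    exact re_exp_pos ⟨h1, h2⟩
  have hexpP : exp ((m * Real.log 2 : ℝ) : ℂ) = 2 ^ m := by
    rw [← ofReal_exp, mul_comm, Real.exp_mul, Real.exp_log (by norm_num)]
    norm_cast
  have hLρ : 0 < L.re := by
    rw [← hL, norm_exp] at hρ
    exact Real.one_lt_exp_iff.1 hρ
  have hρ0 : ρ ≠ 0 := by rw [← hL]; exact exp_ne_zero _
  -- one-sided version of injectivity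
  have aux2 : ∀ z w : ℂ, -(Real.pi / 2) < z.im → z.im < Real.pi / 2 → 0 < z.re →
      z.re < m * Real.log 2 → -(Real.pi / 2) < w.im → w.im < Real.pi / 2 → 0 < w.re →
      w.re < m * Real.log 2 → ∀ k : ℕ, ψ (z0 + exp z) = ρ ^ k * ψ (z0 + exp w) →
      z = w ∧ k = 0 := by
    intro z w hz1 hz2 hz3 hz4 hw1 hw2 hw3 hw4 k h
    obtain ⟨j, hj1, hj2⟩ := aux k _ _ (hSre z hz1 hz2) (hSre w hw1 hw2) h
    have h1 : exp z = exp (w + (j : ℂ) * ((m * Real.log 2 : ℝ) : ℂ)) := by
      rw [exp_add, exp_nat_mul, hexpP, ← pow_mul]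
      linear_combination hj2
    have him : (w + (j : ℂ) * ((m * Real.log 2 : ℝ) : ℂ)).im = w.im := by
      rw [add_im, ← ofReal_natCast, ← ofReal_mul, ofReal_im, add_zero]
    have h2 := exp_inj_of_strip ⟨hz1, hz2⟩ (by rw [him]; exact ⟨hw1, hw2⟩) h1
    have hre : z.re = w.re + j * (m * Real.log 2) := by
      rw [h2, add_re, ← ofReal_natCast, ← ofReal_mul, ofReal_re]
    have hj0 : j = 0 := by
      by_contra hne
      have : (1 : ℝ) ≤ j := by exact_mod_cast Nat.one_le_iff_ne_zero.2 hne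
      nlinarith [mul_pos (show (0 : ℝ) < m by exact_mod_cast hm) hlog2]
    refine ⟨?_, by rw [hj1, hj0, zero_mul]⟩
    rw [h2, hj0]; simp
  have hmain := ply_strip (G := fun z => F (z0 + exp z)) (a := -(Real.pi / 2))
    (b := Real.pi / 2) (P := m * Real.log 2) (by positivity)
    (by
      apply hF.comp (by fun_prop)
      intro z hz
      exact hSre z hz.1 hz.2) (τ := L) (v := v) hLρ
    (by
      intro z hz1 hz2
      rw [← hv _ (hSre z hz1 hz2), exp_add, hexpP]
      congr 1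
      linear_combination (-1 : ℂ) * hz0s)
    (by
      intro z w hz1 hz2 hz3 hz4 hw1 hw2 hw3 hw4 m' k h
      have hk : ψ (z0 + exp z) = ρ ^ k * ψ (z0 + exp w) := by
        rw [← hFψ _ (hSre z hz1 hz2), ← hFψ _ (hSre w hw1 hw2), h, exp_add, exp_add,
          exp_int_mul_two_pi_mul_I, mul_one, exp_int_mul, hL]
        ring
      have hfin : z = w ∧ k = 0 := by
        rcases le_or_gt 0 k with hk0 | hk0
        · obtain ⟨k', rfl⟩ := Int.eq_ofNat_of_zero_le hk0
          have := aux2 z w hz1 hz2 hz3 hz4 hw1 hw2 hw3 hw4 k' (by simpa using hk)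
          exact ⟨this.1, by simp [this.2]⟩
        · obtain ⟨k', hk'⟩ := Int.eq_ofNat_of_zero_le (show 0 ≤ -k by omega)
          have hk2 : ψ (z0 + exp w) = ρ ^ k' * ψ (z0 + exp z) := by
            rw [hk, ← mul_assoc, ← zpow_natCast, ← zpow_add₀ hρ0, ← hk']
            simp
          have := aux2 w z hw1 hw2 hw3 hw4 hz1 hz2 hz3 hz4 k' hk2
          exact ⟨this.1.symm, by omega⟩
      refine ⟨hfin.1, ?_, hfin.2⟩
      rw [hfin.1, hfin.2] at h
      have h2 : (m' : ℂ) * (2 * Real.pi * I) = 0 := by simpa using h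
      rcases mul_eq_zero.1 h2 with h3 | h3
      · exact_mod_cast h3
      · exact absurd h3 two_pi_I_ne_zero)
  have h6 : Real.pi / 2 - -(Real.pi / 2) = Real.pi := by ring
  rw [h6] at hmain
  have h7 : Real.pi * ‖v‖ ^ 2 ≤ Real.pi * (2 * m * Real.log 2 * L.re) := by
    linarith
  exact le_of_mul_le_mul_left h7 hpi

end Pool.Agent.Work.MLC.Tr
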