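import Mathlib
import Pool.Agent.Work.MLC.Tract51

set_option autoImplicit false

/-! # Scale invariant area on the plane  (helper65, module P1 of the exterior PLY inequality)

* `mu`: the measure `dA / |z|^2`.
* `mu_image`: `mu (V '' S)` for an injective holomorphic `V`.
* `mu_smul`: `mu` is invariant under multiplication.
* `torus_lemma`: `mu W ≤ 2 π log |ρ|` if `W` is disjoint from all `ρ ^ j W`, `j ≠ 0`.
* `sum_mu_le`: the same for finitely many sets, and `sum_mu_le_mul` for a `n`-periodic sequence.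
* `area_submean`: sub-mean value inequality over a disc.
* `norm_deriv_le_of_log`: derivative of a logarithm of an injective function.
* `norm_log_sub_le`: increment of a logarithm along a segment.
* `exists_area`, `sum_sqrt_le`: real forms.
-/

open Complex MeasureTheory Set Filter Topology Metric
open scoped ENNReal

namespace Pool.Agent.Work.MLC

/-- the scale invariant area `dA / |z|^2` -/
noncomputable def mu : Measure ℂ :=
  (volume : Measure ℂ).withDensity (fun z => ENNReal.ofReal (1 / ‖z‖ ^ 2))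

lemma measurable_dens : Measurable (fun z : ℂ => ENNReal.ofReal (1 / ‖z‖ ^ 2)) := by
  fun_prop

lemma mu_apply (S : Set ℂ) : mu S = ∫⁻ z in S, ENNReal.ofReal (1 / ‖z‖ ^ 2) := by
  rw [mu, withDensity_apply']

/-- change of variables -/
lemma mu_image {U S : Set ℂ} (hU : IsOpen U) {V : ℂ → ℂ} (hV : DifferentiableOn ℂ V U)
    (hSU : S ⊆ U) (hS : MeasurableSet S) (hinj : InjOn V S) :
    mu (V '' S) = ∫⁻ z in S, ENNReal.ofReal (‖deriv V z‖ ^ 2 / ‖V z‖ ^ 2) := by
  rw [mu_apply, lintegral_image_eq_lintegral_abs_det_fderiv_mul volume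
    (f' := fun z => (ContinuousLinearMap.toSpanSingleton ℂ (deriv V z) :
      ℂ →L[ℂ] ℂ).restrictScalars ℝ) hS ?_ hinj]
  · apply lintegral_congr
    intro z
    rw [Tr.det_restrictScalars_smulRight, abs_of_nonneg (by positivity),
      ← ENNReal.ofReal_mul (by positivity)]
    congr 1
    ring
  · intro z hz
    have h1 : HasDerivAt V (deriv V z) z :=
      (hV.differentiableAt (hU.mem_nhds (hSU hz))).hasDerivAt
    exact (h1.hasFDerivAt.restrictScalars ℝ).hasFDerivWithinAt

lemma measurableSet_image {U S : Set ℂ} {V : ℂ → ℂ} (hV : DifferentiableOn ℂ V U)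
    (hSU : S ⊆ U) (hS : MeasurableSet S) (hinj : InjOn V S) : MeasurableSet (V '' S) :=
  hS.image_of_continuousOn_injOn (hV.continuousOn.mono hSU) hinj

/-- invariance under multiplication -/
lemma mu_smul {a : ℂ} (ha : a ≠ 0) {W : Set ℂ} (hW : MeasurableSet W) :
    mu ((fun z => a * z) '' W) = mu W := by
  rw [mu_image isOpen_univ (V := fun z => a * z) (by fun_prop) (subset_univ _) hW
    (fun z _ w _ h => mul_left_cancel₀ ha h), mu_apply]
  apply lintegral_congr
  intro z
  congr 1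
  have h1 : deriv (fun z => a * z) z = a := by
    rw [deriv_const_mul _ differentiableAt_id]; simp
  rw [h1, norm_mul, mul_pow]
  have : ‖a‖ ^ 2 ≠ 0 := by positivity
  rw [← div_div, div_self this]

/-- **Torus lemma.** -/
theorem torus_lemma {ρ : ℂ} (hρ : 1 < ‖ρ‖) {W : Set ℂ} (hW : MeasurableSet W)
    (hd : ∀ z ∈ W, ∀ w ∈ W, ∀ j : ℤ, z = ρ ^ j * w → j = 0) :
    mu W ≤ ENNReal.ofReal (2 * Real.pi * Real.log ‖ρ‖) := by
  have hρ0 : ρ ≠ 0 := by
    rintro rfl; simp at hρ; linarith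
  have h0 : (0 : ℂ) ∉ W := fun h => by
    have := hd 0 h 0 h 1 (by simp)
    omega
  set A : Set ℂ := {z | 0 ≤ z.im ∧ z.im < 2 * Real.pi} ∩ exp ⁻¹' W with hA
  have hAm : MeasurableSet A := by
    apply MeasurableSet.inter
    · exact measurable_im measurableSet_Ico
    · exact hW.preimage measurable_exp
  have hinj : InjOn exp A := by
    rintro z ⟨⟨hz1, hz2⟩, -⟩ w ⟨⟨hw1, hw2⟩, -⟩ h
    obtain ⟨k, hk⟩ := exp_eq_exp_iff_exists_int.1 h
    have h1 := congrArg Complex.im hk
    simp only [add_im, mul_im, intCast_re, intCast_im, zero_mul, add_zero, mul_re,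
      re_ofNat, im_ofNat, ofReal_re, ofReal_im, I_re, I_im, mul_zero, mul_one, sub_zero] at h1
    have hpi := Real.pi_pos
    have hk0 : k = 0 := by
      have h2 : (k : ℝ) < 1 := by
        by_contra h3
        push Not at h3
        nlinarith
      have h3 : (-1 : ℝ) < k := by
        by_contra h3
        push Not at h3
        nlinarith
      have h4 : k < 1 := by exact_mod_cast h2
      have h5 : -1 < k := by exact_mod_cast h3
      omega
    rw [hk, hk0]; simp
  have himg : exp '' A = W := by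
    ext z
    constructor
    · rintro ⟨w, ⟨-, hw⟩, rfl⟩
      exact hw
    · intro hz
      have hz0 : z ≠ 0 := fun h => h0 (h ▸ hz)
      obtain ⟨m, hm, -⟩ := existsUnique_sub_zsmul_mem_Ico Real.two_pi_pos (log z).im 0
      refine ⟨log z - m * (2 * Real.pi * I), ⟨?_, ?_⟩, ?_⟩
      · simp only [zero_add] at hm
        have e2 : (log z - m * (2 * Real.pi * I)).im = (log z).im - m • (2 * Real.pi) := by
          simp [zsmul_eq_mul]
        show 0 ≤ (log z - m * (2 * Real.pi * I)).im ∧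
          (log z - m * (2 * Real.pi * I)).im < 2 * Real.pi
        rw [e2]
        exact hm
      · show exp _ ∈ W
        rw [exp_sub, exp_int_mul_two_pi_mul_I, div_one, exp_log hz0]
        exact hz
      · rw [exp_sub, exp_int_mul_two_pi_mul_I, div_one, exp_log hz0]
  have hmu : mu W = volume A := by
    rw [← himg, mu_image isOpen_univ differentiable_exp.differentiableOn (subset_univ _) hAm hinj]
    have : ∀ z : ℂ, ENNReal.ofReal (‖deriv exp z‖ ^ 2 / ‖exp z‖ ^ 2) = 1 := by
      intro z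
      have h : ‖exp z‖ ^ 2 ≠ 0 := pow_ne_zero 2 (norm_ne_zero_iff.2 (exp_ne_zero z))
      rw [Complex.deriv_exp, div_self h, ENNReal.ofReal_one]
    simp_rw [this]
    simp
  rw [hmu]
  have hτ : (log ρ).re = Real.log ‖ρ‖ := log_re ρ
  rw [← hτ]
  apply Tr.volume_le_lattice hAm
  · rw [hτ]; exact Real.log_pos hρ
  · rintro z ⟨⟨hz1, hz2⟩, hzW⟩ w ⟨⟨hw1, hw2⟩, hwW⟩ m k h
    have h1 : exp z = ρ ^ k * exp w := by
      rw [h, exp_add, exp_add, exp_int_mul_two_pi_mul_I, mul_one, exp_int_mul, exp_log hρ0]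
      ring
    have hk : k = 0 := hd _ hzW _ hwW k h1
    refine ⟨?_, hk⟩
    rw [hk, zpow_zero, one_mul] at h1
    have h2 := hinj ⟨⟨hz1, hz2⟩, hzW⟩ ⟨⟨hw1, hw2⟩, hwW⟩ h1
    rw [hk, h2] at h
    have h3 : (m : ℂ) * (2 * Real.pi * I) = 0 := by simpa using h
    rcases mul_eq_zero.1 h3 with h4 | h4
    · exact_mod_cast h4
    · exact absurd h4 two_pi_I_ne_zero

/-- Torus lemma for finitely many sets. -/
theorem sum_mu_le {ρ : ℂ} (hρ : 1 < ‖ρ‖) {n : ℕ} {W : ℕ → Set ℂ}
    (hW : ∀ m < n, MeasurableSet (W m))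
    (hd : ∀ m < n, ∀ m' < n, ∀ z ∈ W m, ∀ w ∈ W m', ∀ j : ℤ, z = ρ ^ j * w → m = m' ∧ j = 0) :
    ∑ m ∈ Finset.range n, mu (W m) ≤ ENNReal.ofReal (2 * Real.pi * Real.log ‖ρ‖) := by
  have h1 : ∑ m ∈ Finset.range n, mu (W m) = mu (⋃ m ∈ Finset.range n, W m) := by
    rw [measure_biUnion_finset]
    · intro m hm m' hm' hne
      have hm2 : m < n := by simpa using hm
      have hm3 : m' < n := by simpa using hm'
      rw [Function.onFun, Set.disjoint_left]
      intro z hz hz'
      exact hne (hd m hm2 m' hm3 z hz z hz' 0 (by simp)).1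
    · intro m hm
      exact hW m (Finset.mem_range.1 hm)
  rw [h1]
  apply torus_lemma hρ
  · exact Finset.measurableSet_biUnion _ (fun m hm => hW m (Finset.mem_range.1 hm))
  · intro z hz w hw j h
    simp only [mem_iUnion, Finset.mem_range] at hz hw
    obtain ⟨m, hm, hz⟩ := hz
    obtain ⟨m', hm', hw⟩ := hw
    exact (hd m hm m' hm' z hz w hw j h).2

lemma mu_periodic {ρ : ℂ} (hρ : ρ ≠ 0) {n : ℕ} {W : ℕ → Set ℂ}
    (hW : ∀ m, MeasurableSet (W m))
    (hper : ∀ m, W (m + n) = (fun z => ρ⁻¹ * z) '' W m) (m : ℕ) :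
    mu (W (m + n)) = mu (W m) := by
  rw [hper, mu_smul (inv_ne_zero hρ) (hW m)]

/-- Torus lemma for a sequence of sets which is `n`-periodic up to multiplication by `ρ`. -/
theorem sum_mu_le_mul {ρ : ℂ} (hρ : 1 < ‖ρ‖) {n : ℕ} {W : ℕ → Set ℂ}
    (hW : ∀ m, MeasurableSet (W m))
    (hper : ∀ m, W (m + n) = (fun z => ρ⁻¹ * z) '' W m)
    (hd : ∀ m < n, ∀ m' < n, ∀ z ∈ W m, ∀ w ∈ W m', ∀ j : ℤ, z = ρ ^ j * w → m = m' ∧ j = 0)
    (J : ℕ) :
    ∑ m ∈ Finset.range (n * J), mu (W m) ≤ ENNReal.ofReal (J * (2 * Real.pi * Real.log ‖ρ‖)) := by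
  have hρ0 : ρ ≠ 0 := by
    rintro rfl; simp at hρ; linarith
  have hlog : 0 < Real.log ‖ρ‖ := Real.log_pos hρ
  have hpi := Real.pi_pos
  have hp := mu_periodic hρ0 hW hper
  have hp2 : ∀ J m, mu (W (m + n * J)) = mu (W m) := by
    intro J
    induction J with
    | zero => intro m; simp
    | succ J ih =>
      intro m
      rw [Nat.mul_succ, ← add_assoc, hp, ih]
  induction J with
  | zero => simp
  | succ J ih =>
    rw [Nat.mul_succ, Finset.sum_range_add]
    have h1 : ∑ x ∈ Finset.range n, mu (W (n * J + x)) = ∑ x ∈ Finset.range n, mu (W x) := by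
      apply Finset.sum_congr rfl
      intro x _
      rw [add_comm, hp2]
    rw [h1]
    calc ∑ x ∈ Finset.range (n * J), mu (W x) + ∑ x ∈ Finset.range n, mu (W x)
        ≤ ENNReal.ofReal (J * (2 * Real.pi * Real.log ‖ρ‖))
          + ENNReal.ofReal (2 * Real.pi * Real.log ‖ρ‖) :=
          add_le_add ih (sum_mu_le hρ (fun m _ => hW m) hd)
      _ = ENNReal.ofReal ((J + 1 : ℕ) * (2 * Real.pi * Real.log ‖ρ‖)) := by
          rw [← ENNReal.ofReal_add (by positivity) (by positivity)]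
          congr 1
          push_cast; ring

/-- Sub-mean value inequality over a circle, in `lintegral` form. -/
lemma circle_submean {g : ℂ → ℂ} {z : ℂ} {t r : ℝ} (ht : 0 < t) (htr : t < r)
    (hg : DifferentiableOn ℂ g (ball z r)) :
    ENNReal.ofReal (2 * Real.pi * ‖g z‖) ≤
      ∫⁻ θ in Ioo (-Real.pi) Real.pi, ENNReal.ofReal ‖g (circleMap z t θ)‖ := by
  have hpi := Real.pi_pos
  have hsub : closedBall z t ⊆ ball z r := closedBall_subset_ball htr
  have hav : Real.circleAverage g z t = g z := by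
    apply DiffContOnCl.circleAverage
    rw [abs_of_pos ht]
    apply DifferentiableOn.diffContOnCl
    rw [closure_ball z ht.ne']
    exact hg.mono hsub
  have hcont : Continuous (fun θ : ℝ => g (circleMap z t θ)) := by
    rw [← continuousOn_univ]
    apply hg.continuousOn.comp (continuous_circleMap z t).continuousOn
    intro θ _
    exact hsub (circleMap_mem_closedBall z ht.le θ)
  have h1 : g z = (2 * Real.pi)⁻¹ • ∫ θ in (-Real.pi)..Real.pi, g (circleMap z t θ) := by
    rw [← hav, Real.circleAverage_eq_integral_add (-Real.pi)]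
    congr 1
    rw [intervalIntegral.integral_comp_add_right (fun θ => g (circleMap z t θ))]
    congr 1 <;> ring
  have h2 : 2 * Real.pi * ‖g z‖ ≤ ∫ θ in (-Real.pi)..Real.pi, ‖g (circleMap z t θ)‖ := by
    have h3 : (2 * Real.pi) • g z = ∫ θ in (-Real.pi)..Real.pi, g (circleMap z t θ) := by
      conv_lhs => rw [h1]
      rw [smul_smul, mul_inv_cancel₀ (by positivity), one_smul]
    calc 2 * Real.pi * ‖g z‖ = ‖(2 * Real.pi) • g z‖ := by
          rw [norm_smul, Real.norm_of_nonneg (by positivity)]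
      _ ≤ _ := by
          rw [h3]
          exact intervalIntegral.norm_integral_le_integral_norm (by linarith)
  calc ENNReal.ofReal (2 * Real.pi * ‖g z‖)
      ≤ ENNReal.ofReal (∫ θ in (-Real.pi)..Real.pi, ‖g (circleMap z t θ)‖) :=
        ENNReal.ofReal_le_ofReal h2
    _ = _ := by
        rw [intervalIntegral.integral_of_le (by linarith), integral_Ioc_eq_integral_Ioo,
          ofReal_integral_eq_lintegral_ofReal]
        · exact (hcont.norm.integrableOn_Icc).mono_set Ioo_subset_Icc_self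
        · exact ae_of_all _ (fun θ => norm_nonneg _)

/-- Sub-mean value inequality over a disc. -/
theorem area_submean {g : ℂ → ℂ} (hgm : Measurable g) {z : ℂ} {r : ℝ} (hr : 0 < r)
    (hg : DifferentiableOn ℂ g (ball z r)) :
    ENNReal.ofReal (Real.pi * r ^ 2 * ‖g z‖) ≤ ∫⁻ w in ball z r, ENNReal.ofReal ‖g w‖ := by
  have hpi := Real.pi_pos
  have h1 : ∫⁻ w in ball z r, ENNReal.ofReal ‖g w‖
      = ∫⁻ w, (ball (0 : ℂ) r).indicator (fun w => ENNReal.ofReal ‖g (z + w)‖) w := by
    rw [← lintegral_indicator measurableSet_ball]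
    rw [← lintegral_add_left_eq_self _ z]
    apply lintegral_congr
    intro w
    simp only [indicator, mem_ball, dist_zero_right, dist_self_add_left]
  have hmeas : Measurable ((ball (0 : ℂ) r).indicator (fun w => ENNReal.ofReal ‖g (z + w)‖)) :=
    (hgm.comp (measurable_const_add z)).norm.ennreal_ofReal.indicator measurableSet_ball
  rw [h1, ← Complex.lintegral_comp_polarCoord_symm]
  have htarget : polarCoord.target = Ioi (0 : ℝ) ×ˢ Ioo (-Real.pi) Real.pi := rfl
  rw [htarget, Measure.volume_eq_prod, ← Measure.prod_restrict, lintegral_prod]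
  swap
  · apply Measurable.aemeasurable
    have hpm : Measurable (Complex.polarCoord.symm : ℝ × ℝ → ℂ) := by
      have : (Complex.polarCoord.symm : ℝ × ℝ → ℂ)
          = fun p => (p.1 : ℂ) * (Real.cos p.2 + Real.sin p.2 * Complex.I) := by
        funext p
        exact Complex.polarCoord_symm_apply p
      rw [this]
      fun_prop
    exact (measurable_fst.ennreal_ofReal).smul (hmeas.comp hpm)
  have hinner : ∀ t ∈ Ioo (0 : ℝ) r, ENNReal.ofReal t * ENNReal.ofReal (2 * Real.pi * ‖g z‖) ≤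
      ∫⁻ θ in Ioo (-Real.pi) Real.pi, ENNReal.ofReal (t, θ).1 •
        (ball (0 : ℂ) r).indicator (fun w => ENNReal.ofReal ‖g (z + w)‖)
          (Complex.polarCoord.symm (t, θ)) := by
    rintro t ⟨ht, htr⟩
    simp only [smul_eq_mul]
    rw [lintegral_const_mul']
    swap
    · exact ENNReal.ofReal_ne_top
    refine mul_le_mul_right ((circle_submean ht htr hg).trans (le_of_eq ?_)) _
    apply lintegral_congr
    intro θ
    have h2 : Complex.polarCoord.symm (t, θ) ∈ ball (0 : ℂ) r := by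
      rw [mem_ball_zero_iff, Complex.norm_polarCoord_symm]
      simpa [abs_of_pos ht] using htr
    rw [indicator_of_mem h2]
    congr 3
    rw [Complex.polarCoord_symm_apply, circleMap, exp_mul_I]
    simp
  calc ENNReal.ofReal (Real.pi * r ^ 2 * ‖g z‖)
      = ∫⁻ t in Ioo (0 : ℝ) r, ENNReal.ofReal t * ENNReal.ofReal (2 * Real.pi * ‖g z‖) := by
        rw [lintegral_mul_const' _ _ ENNReal.ofReal_ne_top]
        have h3 : ∫⁻ t in Ioo (0 : ℝ) r, ENNReal.ofReal t = ENNReal.ofReal (r ^ 2 / 2) := by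
          rw [← ofReal_integral_eq_lintegral_ofReal]
          · rw [← integral_Ioc_eq_integral_Ioo, ← intervalIntegral.integral_of_le hr.le]
            rw [integral_id]
            congr 1; ring
          · exact (continuous_id.integrableOn_Icc).mono_set Ioo_subset_Icc_self
          · rw [EventuallyLE, ae_restrict_iff' measurableSet_Ioo]
            exact ae_of_all _ (fun t ht => ht.1.le)
        rw [h3, ← ENNReal.ofReal_mul (by positivity)]
        congr 1
        ring
    _ ≤ ∫⁻ t in Ioo (0 : ℝ) r, ∫⁻ θ in Ioo (-Real.pi) Real.pi, ENNReal.ofReal (t, θ).1 •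
        (ball (0 : ℂ) r).indicator (fun w => ENNReal.ofReal ‖g (z + w)‖)
          (Complex.polarCoord.symm (t, θ)) := setLIntegral_mono' measurableSet_Ioo hinner
    _ ≤ _ := lintegral_mono_set Ioo_subset_Ioi_self

/-- The derivative of a logarithm of an injective function. -/
theorem norm_deriv_le_mu {V F : ℂ → ℂ} {z : ℂ} {r : ℝ} (hr : 0 < r)
    (hV : DifferentiableOn ℂ V (ball z r)) (hF : DifferentiableOn ℂ F (ball z r))
    (hFV : ∀ w ∈ ball z r, exp (F w) = V w) (hinj : InjOn V (ball z r)) :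
    ENNReal.ofReal (Real.pi * r ^ 2 * ‖deriv F z‖ ^ 2) ≤ mu (V '' ball z r) := by
  rw [mu_image isOpen_ball hV subset_rfl measurableSet_ball hinj]
  have h1 : ∀ w ∈ ball z r, ENNReal.ofReal (‖deriv V w‖ ^ 2 / ‖V w‖ ^ 2)
      = ENNReal.ofReal ‖deriv F w ^ 2‖ := by
    intro w hw
    have hd : HasDerivAt V (exp (F w) * deriv F w) w := by
      have h2 : HasDerivAt (fun x => exp (F x)) (exp (F w) * deriv F w) w :=
        (hF.differentiableAt (isOpen_ball.mem_nhds hw)).hasDerivAt.cexp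
      apply h2.congr_of_eventuallyEq
      filter_upwards [isOpen_ball.mem_nhds hw] with x hx
      exact (hFV x hx).symm
    rw [hd.deriv, hFV w hw, norm_mul, mul_pow, norm_pow]
    congr 1
    have : V w ≠ 0 := by rw [← hFV w hw]; exact exp_ne_zero _
    have h3 : ‖V w‖ ^ 2 ≠ 0 := by positivity
    field_simp
  rw [setLIntegral_congr_fun measurableSet_ball h1]
  have h2 := area_submean (g := fun w => deriv F w ^ 2) ((measurable_deriv F).pow_const 2) hr
    ((hF.deriv isOpen_ball).pow 2)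
  rwa [norm_pow] at h2

/-- The derivative of a continuous logarithm of an injective function. -/
theorem mu_deriv_le {V F : ℂ → ℂ} {z : ℂ} {r : ℝ} (hr : 0 < r)
    (hV : DifferentiableOn ℂ V (ball z r)) (hinj : InjOn V (ball z r))
    (_h0 : ∀ x ∈ ball z r, V x ≠ 0) (hF : ContinuousOn F (ball z r))
    (hexp : ∀ x ∈ ball z r, Complex.exp (F x) = V x) :
    ENNReal.ofReal (‖deriv F z‖ ^ 2 * (Real.pi * r ^ 2)) ≤ mu (V '' ball z r) := by
  rw [mul_comm]
  exact norm_deriv_le_mu hr hV (Tr.differentiableOn_of_exp isOpen_ball hV hF hexp) hexp hinj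

/-- Torus lemma, in the form with disjointness. -/
theorem torus_lemma' {ρ : ℂ} (hρ : 1 < ‖ρ‖) {W : Set ℂ} (hW : MeasurableSet W)
    (hd : ∀ j : ℤ, j ≠ 0 → Disjoint ((fun z => ρ ^ j * z) '' W) W) :
    mu W ≤ ENNReal.ofReal (2 * Real.pi * Real.log ‖ρ‖) := by
  apply torus_lemma hρ hW
  intro z hz w hw j h
  by_contra hj
  exact Set.disjoint_left.1 (hd j hj) ⟨w, hw, h.symm⟩ hz

/-- The derivative of a logarithm of an injective function: real form. -/
theorem norm_deriv_le_of_log {V F : ℂ → ℂ} {z : ℂ} {r : ℝ} (hr : 0 < r)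
    (hV : DifferentiableOn ℂ V (ball z r)) (hF : DifferentiableOn ℂ F (ball z r))
    (hFV : ∀ w ∈ ball z r, exp (F w) = V w) (hinj : InjOn V (ball z r)) {W : Set ℂ}
    (hW : V '' ball z r ⊆ W) {a : ℝ} (ha0 : 0 ≤ a) (ha : mu W ≤ ENNReal.ofReal a) :
    ‖deriv F z‖ ≤ Real.sqrt (a / (Real.pi * r ^ 2)) := by
  have hpi := Real.pi_pos
  have h1 : ENNReal.ofReal (Real.pi * r ^ 2 * ‖deriv F z‖ ^ 2) ≤ ENNReal.ofReal a :=
    (norm_deriv_le_mu hr hV hF hFV hinj).trans ((measure_mono hW).trans ha)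
  apply Real.le_sqrt_of_sq_le
  rw [le_div_iff₀ (by positivity)]
  have h2 := (ENNReal.ofReal_le_ofReal_iff ha0).1 h1
  linarith

/-- The increment of a logarithm of a locally injective function along a segment. -/
theorem norm_log_sub_le {Ω : Set ℂ} {V F : ℂ → ℂ}
    (hV : DifferentiableOn ℂ V Ω) (hF : DifferentiableOn ℂ F Ω)
    (hFV : ∀ w ∈ Ω, exp (F w) = V w) {x y : ℂ} {r : ℝ} (hr : 0 < r)
    (hball : ∀ z ∈ segment ℝ x y, ball z r ⊆ Ω) (hinj : ∀ z ∈ segment ℝ x y, InjOn V (ball z r))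
    {W : Set ℂ} (hW : ∀ z ∈ Ω, V z ∈ W) {a : ℝ} (ha0 : 0 ≤ a) (ha : mu W ≤ ENNReal.ofReal a) :
    ‖F y - F x‖ ≤ Real.sqrt (a / (Real.pi * r ^ 2)) * ‖y - x‖ := by
  apply Convex.norm_image_sub_le_of_norm_deriv_le (𝕜 := ℂ) (s := segment ℝ x y)
  · intro z hz
    exact (hF.mono (hball z hz)).differentiableAt (ball_mem_nhds z hr)
  · intro z hz
    apply norm_deriv_le_of_log hr (hV.mono (hball z hz)) (hF.mono (hball z hz))
      (fun w hw => hFV w (hball z hz hw)) (hinj z hz) _ ha0 ha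
    rintro _ ⟨w, hw, rfl⟩
    exact hW w (hball z hz hw)
  · exact convex_segment x y
  · exact left_mem_segment ℝ x y
  · exact right_mem_segment ℝ x y

/-- A finite `mu` bound by a sum of two terms, in real form. -/
lemma mu_union_le {W W' : Set ℂ} {a a' : ℝ} (ha0 : 0 ≤ a) (ha0' : 0 ≤ a')
    (ha : mu W ≤ ENNReal.ofReal a) (ha' : mu W' ≤ ENNReal.ofReal a') :
    mu (W ∪ W') ≤ ENNReal.ofReal (a + a') := by
  rw [ENNReal.ofReal_add ha0 ha0']
  exact (measure_union_le _ _).trans (add_le_add ha ha')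

/-- Real version of `sum_mu_le_mul`: with `a m = (mu (W m)).toReal` one has `mu (W m) ≤ a m` (as
`ENNReal.ofReal`), `0 ≤ a m` and `∑_{m < n J} a m ≤ J 2 π log ‖ρ‖`. -/
theorem exists_area {ρ : ℂ} (hρ : 1 < ‖ρ‖) {n : ℕ} (hn : 0 < n) {W : ℕ → Set ℂ}
    (hW : ∀ m, MeasurableSet (W m))
    (hper : ∀ m, W (m + n) = (fun z => ρ⁻¹ * z) '' W m)
    (hd : ∀ m < n, ∀ m' < n, ∀ z ∈ W m, ∀ w ∈ W m', ∀ j : ℤ, z = ρ ^ j * w → m = m' ∧ j = 0) :
    ∃ a : ℕ → ℝ, (∀ m, 0 ≤ a m) ∧ (∀ m, mu (W m) ≤ ENNReal.ofReal (a m)) ∧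
      (∀ m, a (m + n) = a m) ∧
      ∀ J : ℕ, ∑ m ∈ Finset.range (n * J), a m ≤ J * (2 * Real.pi * Real.log ‖ρ‖) := by
  have hρ0 : ρ ≠ 0 := by
    rintro rfl; simp at hρ; linarith
  have hlog : 0 < Real.log ‖ρ‖ := Real.log_pos hρ
  have hpi := Real.pi_pos
  have hfin : ∀ m, mu (W m) ≠ ⊤ := by
    intro m
    have h1 := sum_mu_le_mul hρ hW hper hd (m + 1)
    have h2 : mu (W m) ≤ ∑ m ∈ Finset.range (n * (m + 1)), mu (W m) := by
      apply Finset.single_le_sum (f := fun m => mu (W m)) (fun _ _ => zero_le)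
      rw [Finset.mem_range]
      nlinarith
    exact ((h2.trans h1).trans_lt ENNReal.ofReal_lt_top).ne
  refine ⟨fun m => (mu (W m)).toReal, fun m => ENNReal.toReal_nonneg, fun m => ?_, fun m => ?_,
    fun J => ?_⟩
  · rw [ENNReal.ofReal_toReal (hfin m)]
  · show (mu (W (m + n))).toReal = _
    rw [mu_periodic hρ0 hW hper]
  · rw [← ENNReal.toReal_sum (fun m _ => hfin m)]
    apply ENNReal.toReal_le_of_le_ofReal (by positivity)
    exact sum_mu_le_mul hρ hW hper hd J

/-- Cauchy-Schwarz for the sum of the steps. -/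
theorem sum_sqrt_le {a : ℕ → ℝ} {n : ℕ} (hn : 0 < n) {S : ℝ} (h0 : ∀ m, 0 ≤ a m)
    (hs : ∀ J : ℕ, ∑ m ∈ Finset.range (n * J), a m ≤ J * S) (J : ℕ) :
    ∑ m ∈ Finset.range (n * J), Real.sqrt (a (m + 1) + a m) ≤
      Real.sqrt (n * J * (2 * (J + 1) * S)) := by
  have hS0 : 0 ≤ S := by
    have h1 := hs 1
    have h2 : 0 ≤ ∑ m ∈ Finset.range (n * 1), a m := Finset.sum_nonneg (fun m _ => h0 m)
    push_cast at h1
    linarith
  have h1 : ∑ m ∈ Finset.range (n * J), (a (m + 1) + a m) ≤ 2 * (J + 1) * S := by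
    rw [Finset.sum_add_distrib]
    have h2 : ∑ m ∈ Finset.range (n * J), a (m + 1) ≤ (J + 1) * S := by
      calc ∑ m ∈ Finset.range (n * J), a (m + 1)
          ≤ ∑ m ∈ Finset.range (n * J), a (m + 1) + a 0 := by linarith [h0 0]
        _ = ∑ m ∈ Finset.range (n * J + 1), a m := (Finset.sum_range_succ' a _).symm
        _ ≤ ∑ m ∈ Finset.range (n * (J + 1)), a m := by
            apply Finset.sum_le_sum_of_subset_of_nonneg
            · apply Finset.range_subset_range.2
              rw [Nat.mul_succ]; omega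
            · intro m _ _; exact h0 m
        _ ≤ (J + 1 : ℕ) * S := hs _
        _ = (J + 1) * S := by push_cast; ring
    have h3 := hs J
    nlinarith
  apply Real.le_sqrt_of_sq_le
  have h2 : (∑ m ∈ Finset.range (n * J), Real.sqrt (a (m + 1) + a m)) ^ 2 ≤
      (Finset.range (n * J)).card * ∑ m ∈ Finset.range (n * J), Real.sqrt (a (m + 1) + a m) ^ 2 :=
    sq_sum_le_card_mul_sum_sq
  rw [Finset.card_range] at h2
  have h3 : ∑ m ∈ Finset.range (n * J), Real.sqrt (a (m + 1) + a m) ^ 2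
      = ∑ m ∈ Finset.range (n * J), (a (m + 1) + a m) := by
    apply Finset.sum_congr rfl
    intro m _
    exact Real.sq_sqrt (add_nonneg (h0 _) (h0 _))
  rw [h3] at h2
  refine h2.trans ?_
  push_cast
  gcongr

end Pool.Agent.Work.MLC
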