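import Pool.Agent.Work.MLC.Cnt0
import Pool.Agent.Work.MLC.PlyArea

set_option autoImplicit false

/-! # Module N1a of Theorem N: length and area outside the Mandelbrot set (helper78)

`n1_length`: the diameters of the two rays and of the roof over an arc are bounded by the area of
the image of `Box s t` (mean value property of the squared derivative, Tonelli, Cauchy-Schwarz).
`cOf` is two-to-one at most on `Box s t`. -/

namespace Pool.Agent.Work.MLC.Cnt

open Filter Topology Metric Set Complex MeasureTheory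
open scoped ENNReal

/-- the square of an integral -/
lemma ln_sq_lintegral_le {f : ℝ → ℝ≥0∞} (hf : Measurable f) {a b : ℝ} :
    (∫⁻ x in Icc a b, f x) ^ 2 ≤ ENNReal.ofReal (b - a) * ∫⁻ x in Icc a b, f x ^ 2 := by
  have h := ENNReal.lintegral_mul_le_Lp_mul_Lq (volume.restrict (Icc a b))
    (Real.HolderConjugate.two_two) (f := fun _ => (1 : ℝ≥0∞)) (g := f) aemeasurable_const
    hf.aemeasurable
  simp only [Pi.mul_apply, one_mul, one_pow, lintegral_const,
    Measure.restrict_apply_univ, Real.volume_Icc, ENNReal.rpow_two] at h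
  calc (∫⁻ x in Icc a b, f x) ^ 2 ≤ (ENNReal.ofReal (b - a) ^ (1 / 2 : ℝ) *
        (∫⁻ x in Icc a b, f x ^ 2) ^ (1 / 2 : ℝ)) ^ 2 := pow_le_pow_left' h 2
    _ = _ := by
        rw [mul_pow, ← ENNReal.rpow_natCast, ← ENNReal.rpow_natCast, ← ENNReal.rpow_mul,
          ← ENNReal.rpow_mul]
        norm_num

/-- Tonelli over moving balls -/
lemma ln_tonelli {B : Set ℂ} (hB : MeasurableSet B) {F : ℂ → ℝ≥0∞} (hF : Measurable F)
    {γ : ℝ → ℂ} {ρ : ℝ → ℝ} (hγ : Continuous γ) (hρ : Continuous ρ) {a b T : ℝ}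
    (hball : ∀ s ∈ Icc a b, ball (γ s) (ρ s) ⊆ B)
    (hT : ∀ w ∈ B, volume {s | s ∈ Icc a b ∧ w ∈ ball (γ s) (ρ s)} ≤ ENNReal.ofReal T) :
    ∫⁻ s in Icc a b, ∫⁻ w in ball (γ s) (ρ s), F w ≤ ENNReal.ofReal T * ∫⁻ w in B, F w := by
  have hopen : IsOpen {p : ℝ × ℂ | p.2 ∈ ball (γ p.1) (ρ p.1)} := by
    have : {p : ℝ × ℂ | p.2 ∈ ball (γ p.1) (ρ p.1)} = {p : ℝ × ℂ | dist p.2 (γ p.1) < ρ p.1} := rfl
    rw [this]
    exact isOpen_lt (by fun_prop) (by fun_prop)
  set W : Set (ℝ × ℂ) := {p | p.2 ∈ ball (γ p.1) (ρ p.1)} with hW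
  have h1 : ∀ s ∈ Icc a b, ∫⁻ w in ball (γ s) (ρ s), F w =
      ∫⁻ w in B, W.indicator (fun p => F p.2) (s, w) := by
    intro s hs
    have e1 : ∀ w, W.indicator (fun p => F p.2) (s, w) = (ball (γ s) (ρ s)).indicator F w := by
      intro w
      rfl
    simp_rw [e1]
    rw [lintegral_indicator measurableSet_ball, Measure.restrict_restrict measurableSet_ball,
      inter_eq_left.2 (hball s hs)]
  rw [setLIntegral_congr_fun measurableSet_Icc h1]
  rw [lintegral_lintegral_swap]
  · have h2 : ∀ w ∈ B, ∫⁻ s in Icc a b, W.indicator (fun p => F p.2) (s, w) ≤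
        ENNReal.ofReal T * F w := by
      intro w hw
      have e1 : ∀ s, W.indicator (fun p => F p.2) (s, w) =
          {s | w ∈ ball (γ s) (ρ s)}.indicator (fun _ => F w) s := by
        intro s
        rfl
      simp_rw [e1]
      have hm : MeasurableSet {s | w ∈ ball (γ s) (ρ s)} := by
        have : {s | w ∈ ball (γ s) (ρ s)} = {s | dist w (γ s) < ρ s} := rfl
        rw [this]
        exact (isOpen_lt (by fun_prop) (by fun_prop)).measurableSet
      rw [lintegral_indicator hm, lintegral_const, Measure.restrict_apply_univ,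
        Measure.restrict_apply hm, mul_comm]
      refine mul_le_mul_left ((measure_mono ?_).trans (hT w hw)) _
      rintro s ⟨h1, h2⟩
      exact ⟨h2, h1⟩
    calc ∫⁻ w in B, ∫⁻ s in Icc a b, W.indicator (fun p => F p.2) (s, w)
        ≤ ∫⁻ w in B, ENNReal.ofReal T * F w := setLIntegral_mono' hB h2
      _ = _ := by rw [lintegral_const_mul' _ _ ENNReal.ofReal_ne_top]
  · apply Measurable.aemeasurable
    exact (hF.comp measurable_snd).indicator hopen.measurableSet

/-- **Length and area.** -/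
theorem ln_length_sq {U B : Set ℂ} (hU : IsOpen U) {f : ℂ → ℂ} (hf : DifferentiableOn ℂ f U)
    (hBU : B ⊆ U) (hB : MeasurableSet B) {γ γ' : ℝ → ℂ} {ρ : ℝ → ℝ} {a b M T E : ℝ}
    (hab : a ≤ b) (hT0 : 0 ≤ T)
    (hγ : ∀ s, HasDerivAt γ (γ' s) s) (hγ'c : Continuous γ') (hρc : Continuous ρ)
    (hρ : ∀ s ∈ Icc a b, 0 < ρ s) (hγρ : ∀ s ∈ Icc a b, ‖γ' s‖ ≤ M * ρ s)
    (hball : ∀ s ∈ Icc a b, ball (γ s) (ρ s) ⊆ B)
    (hT : ∀ w ∈ B, volume {s | s ∈ Icc a b ∧ w ∈ ball (γ s) (ρ s)} ≤ ENNReal.ofReal T)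
    (hE0 : 0 ≤ E)
    (hE : ∫⁻ z in B, ENNReal.ofReal (‖deriv f z‖ ^ 2) ≤ ENNReal.ofReal E) :
    ‖f (γ b) - f (γ a)‖ ^ 2 ≤ (b - a) * M ^ 2 * T * E / Real.pi := by
  have hpi := Real.pi_pos
  have hγc : Continuous γ := continuous_iff_continuousAt.2 fun s => (hγ s).continuousAt
  have hmem : ∀ s ∈ Icc a b, γ s ∈ U := fun s hs =>
    hBU (hball s hs (mem_ball_self (hρ s hs)))
  have huIcc : uIcc a b = Icc a b := uIcc_of_le hab
  have hderiv : ∀ s ∈ uIcc a b, HasDerivAt (fun x : ℝ => f (γ x)) (deriv f (γ s) * γ' s) s := by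
    intro s hs
    rw [huIcc] at hs
    have h1 : HasDerivAt f (deriv f (γ s)) (γ s) :=
      (hf.differentiableAt (hU.mem_nhds (hmem s hs))).hasDerivAt
    exact h1.comp s (hγ s)
  have hcd : ContinuousOn (fun s : ℝ => deriv f (γ s) * γ' s) (Icc a b) := by
    have h1 : ContinuousOn (deriv f) U := (hf.deriv hU).continuousOn
    exact (h1.comp hγc.continuousOn hmem).mul hγ'c.continuousOn
  have hint : ∫ s in a..b, deriv f (γ s) * γ' s = f (γ b) - f (γ a) :=
    intervalIntegral.integral_eq_sub_of_hasDerivAt hderiv (huIcc ▸ hcd).intervalIntegrable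
  have h1 : ‖f (γ b) - f (γ a)‖ ≤ ∫ s in a..b, ‖deriv f (γ s) * γ' s‖ := by
    rw [← hint]
    exact intervalIntegral.norm_integral_le_integral_norm hab
  have h2 : ENNReal.ofReal (∫ s in a..b, ‖deriv f (γ s) * γ' s‖) =
      ∫⁻ s in Icc a b, ENNReal.ofReal ‖deriv f (γ s) * γ' s‖ := by
    rw [intervalIntegral.integral_of_le hab, ← integral_Icc_eq_integral_Ioc,
      ofReal_integral_eq_lintegral_ofReal]
    · exact hcd.norm.integrableOn_Icc
    · exact ae_of_all _ (fun s => norm_nonneg _)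
  have hm1 : Measurable fun s : ℝ => ENNReal.ofReal ‖deriv f (γ s) * γ' s‖ :=
    (((measurable_deriv f).comp hγc.measurable).mul hγ'c.measurable).norm.ennreal_ofReal
  have h3 := ln_sq_lintegral_le hm1 (a := a) (b := b)
  have h4 : ∀ s ∈ Icc a b, ENNReal.ofReal ‖deriv f (γ s) * γ' s‖ ^ 2 ≤
      ENNReal.ofReal (M ^ 2 / Real.pi) *
        ∫⁻ w in ball (γ s) (ρ s), ENNReal.ofReal (‖deriv f w‖ ^ 2) := by
    intro s hs
    have e1 := area_submean (g := fun w => deriv f w ^ 2) ((measurable_deriv f).pow_const 2)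
      (hρ s hs) (((hf.deriv hU).mono ((hball s hs).trans hBU)).pow 2)
    simp only [norm_pow] at e1
    rw [← ENNReal.ofReal_pow (norm_nonneg _)]
    calc ENNReal.ofReal (‖deriv f (γ s) * γ' s‖ ^ 2)
        ≤ ENNReal.ofReal (M ^ 2 / Real.pi * (Real.pi * ρ s ^ 2 * ‖deriv f (γ s)‖ ^ 2)) := by
          apply ENNReal.ofReal_le_ofReal
          rw [norm_mul, mul_pow]
          have e2 := hγρ s hs
          have e3 : ‖γ' s‖ ^ 2 ≤ (M * ρ s) ^ 2 := pow_le_pow_left₀ (norm_nonneg _) e2 2
          have e4 : M ^ 2 / Real.pi * (Real.pi * ρ s ^ 2 * ‖deriv f (γ s)‖ ^ 2) =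
              ‖deriv f (γ s)‖ ^ 2 * (M * ρ s) ^ 2 := by
            field_simp
          rw [e4]
          exact mul_le_mul_of_nonneg_left e3 (by positivity)
      _ = ENNReal.ofReal (M ^ 2 / Real.pi) *
          ENNReal.ofReal (Real.pi * ρ s ^ 2 * ‖deriv f (γ s)‖ ^ 2) :=
          ENNReal.ofReal_mul (by positivity)
      _ ≤ _ := mul_le_mul_right e1 _
  have h5 : ∫⁻ s in Icc a b, ENNReal.ofReal ‖deriv f (γ s) * γ' s‖ ^ 2 ≤
      ENNReal.ofReal (M ^ 2 / Real.pi) * (ENNReal.ofReal T * ENNReal.ofReal E) := by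
    calc ∫⁻ s in Icc a b, ENNReal.ofReal ‖deriv f (γ s) * γ' s‖ ^ 2
        ≤ ∫⁻ s in Icc a b, ENNReal.ofReal (M ^ 2 / Real.pi) *
            ∫⁻ w in ball (γ s) (ρ s), ENNReal.ofReal (‖deriv f w‖ ^ 2) :=
          setLIntegral_mono' measurableSet_Icc h4
      _ = ENNReal.ofReal (M ^ 2 / Real.pi) * ∫⁻ s in Icc a b,
            ∫⁻ w in ball (γ s) (ρ s), ENNReal.ofReal (‖deriv f w‖ ^ 2) :=
          lintegral_const_mul' _ _ ENNReal.ofReal_ne_top
      _ ≤ _ := by
          refine mul_le_mul_right ?_ _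
          refine (ln_tonelli hB ((measurable_deriv f).norm.pow_const 2).ennreal_ofReal hγc hρc
            hball hT).trans (mul_le_mul_right hE _)
  have h6 : ENNReal.ofReal (‖f (γ b) - f (γ a)‖ ^ 2) ≤
      ENNReal.ofReal ((b - a) * M ^ 2 * T * E / Real.pi) := by
    calc ENNReal.ofReal (‖f (γ b) - f (γ a)‖ ^ 2)
        = ENNReal.ofReal ‖f (γ b) - f (γ a)‖ ^ 2 := ENNReal.ofReal_pow (norm_nonneg _) 2
      _ ≤ (∫⁻ s in Icc a b, ENNReal.ofReal ‖deriv f (γ s) * γ' s‖) ^ 2 := by
          rw [← h2]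
          exact pow_le_pow_left' (ENNReal.ofReal_le_ofReal h1) 2
      _ ≤ _ := h3
      _ ≤ ENNReal.ofReal (b - a) *
          (ENNReal.ofReal (M ^ 2 / Real.pi) * (ENNReal.ofReal T * ENNReal.ofReal E)) :=
          mul_le_mul_right h5 _
      _ = _ := by
          rw [← ENNReal.ofReal_mul hT0, ← ENNReal.ofReal_mul (by positivity),
            ← ENNReal.ofReal_mul (by linarith)]
          congr 1
          ring
  exact (ENNReal.ofReal_le_ofReal_iff
    (by have : 0 ≤ b - a := by linarith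
        positivity)).1 h6

/-! ### The maps -/

lemma ln_isOpen : IsOpen {L : ℂ | 0 < L.re} := isOpen_lt continuous_const Complex.continuous_re

lemma ln_box_sub (s t : ℝ) : Box s t ⊆ {L : ℂ | 0 < L.re} := fun _ h => h.1

lemma ln_box_meas (s t : ℝ) : MeasurableSet (Box s t) := by
  have h : IsOpen (Box s t) := by
    have e : Box s t = {z : ℂ | 0 < z.re} ∩ ({z : ℂ | z.re < 2 * (t - s)} ∩
        ({z : ℂ | 2 * Real.pi * s - z.re / 4 < z.im} ∩ ({z : ℂ | z.im < 2 * Real.pi * t + z.re / 4} ∩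
        ({z : ℂ | z.im < 2 * Real.pi * s + z.re / 4} ∪ ({z : ℂ | 2 * Real.pi * t - z.re / 4 < z.im} ∪
          {z : ℂ | (t - s) / 2 < z.re}))))) := rfl
    rw [e]
    refine (isOpen_lt (by fun_prop) (by fun_prop)).inter
      ((isOpen_lt (by fun_prop) (by fun_prop)).inter
      ((isOpen_lt (by fun_prop) (by fun_prop)).inter
      ((isOpen_lt (by fun_prop) (by fun_prop)).inter
      ((isOpen_lt (by fun_prop) (by fun_prop)).union
      ((isOpen_lt (by fun_prop) (by fun_prop)).union
      (isOpen_lt (by fun_prop) (by fun_prop)))))))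
  exact h.measurableSet

/-- the image of the box is bounded -/
lemma ln_box_bdd {s t : ℝ} (hst : t - s ≤ 1) : cOf '' Box s t ⊆ ball 0 200 := by
  rintro _ ⟨L, hL, rfl⟩
  have h0 : 0 < L.re := hL.1
  have h1 : G (cOf L) (cOf L) ≤ 2 := by
    rw [G_cOf h0]; linarith [hL.2.1]
  have h2 := norm_le_of_G_le h1
  have h3 := Real.exp_one_lt_d9
  have h4 : Real.exp 2 = Real.exp 1 * Real.exp 1 := by rw [← Real.exp_add]; norm_num
  have h5 := Real.exp_pos 1
  rw [mem_ball_zero_iff]
  have h6 : Real.exp 2 ≤ 8 := by rw [h4]; nlinarith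
  linarith

lemma ln_vol_lt {s t : ℝ} (hst : t - s ≤ 1) : volume (cOf '' Box s t) < ⊤ :=
  (measure_mono (ln_box_bdd hst)).trans_lt measure_ball_lt_top

/-- the energy of the box -/
lemma ln_energy {s t : ℝ} (hst : t - s ≤ 1) :
    ∫⁻ z in Box s t, ENNReal.ofReal (‖deriv cOf z‖ ^ 2) ≤ ENNReal.ofReal (2 * area s t) := by
  have hpi := Real.pi_gt_three
  set m : ℝ := Real.pi * (s + t) with hm
  have hlow : MeasurableSet {z : ℂ | z.im < m} := (isOpen_lt (by fun_prop) (by fun_prop)).measurableSet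
  have hupp : MeasurableSet {z : ℂ | m ≤ z.im} := (isClosed_le (by fun_prop) (by fun_prop)).measurableSet
  have key : ∀ A : Set ℂ, MeasurableSet A → A ⊆ Box s t →
      (∀ z ∈ A, ∀ w ∈ A, |z.im - w.im| < 2 * Real.pi) →
      ∫⁻ z in A, ENNReal.ofReal (‖deriv cOf z‖ ^ 2) ≤ ENNReal.ofReal (area s t) := by
    intro A hA hAB hA2
    have hinj : InjOn cOf A := by
      intro z hz w hw h
      obtain ⟨k, hk⟩ := (cOf_eq_iff (hAB hz).1 (hAB hw).1).1 h
      have h1 := congrArg Complex.im hk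
      simp only [add_im, mul_im, mul_re, intCast_re, intCast_im, re_ofNat, im_ofNat, ofReal_re,
        ofReal_im, I_re, I_im, mul_zero, zero_mul, sub_zero, mul_one, add_zero, zero_add] at h1
      have h2 := hA2 z hz w hw
      rw [abs_lt] at h2
      have hk0 : k = 0 := by
        have h3 : (k : ℝ) < 1 := by
          by_contra h3
          push Not at h3
          nlinarith
        have h4 : (-1 : ℝ) < k := by
          by_contra h4
          push Not at h4
          nlinarith
        have h5 : k < 1 := by exact_mod_cast h3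
        have h6 : -1 < k := by exact_mod_cast h4
        omega
      rw [hk, hk0]; simp
    rw [Tr.lintegral_normSq_deriv ln_isOpen differentiableOn_cOf
      (hAB.trans (ln_box_sub s t)) hA hinj, area, ENNReal.ofReal_toReal (ln_vol_lt hst).ne]
    exact measure_mono (image_mono hAB)
  have e : Box s t = (Box s t ∩ {z : ℂ | z.im < m}) ∪ (Box s t ∩ {z : ℂ | m ≤ z.im}) := by
    ext z
    constructor
    · intro hz
      rcases lt_or_ge z.im m with h | h
      · exact Or.inl ⟨hz, h⟩
      · exact Or.inr ⟨hz, h⟩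
    · rintro (h | h)
      · exact h.1
      · exact h.1
  rw [e]
  refine (lintegral_union_le _ _ _).trans ?_
  have hA : 0 ≤ area s t := ENNReal.toReal_nonneg
  rw [two_mul, ENNReal.ofReal_add hA hA]
  refine add_le_add (key _ ((ln_box_meas s t).inter hlow) inter_subset_left ?_)
    (key _ ((ln_box_meas s t).inter hupp) inter_subset_left ?_)
  · rintro z ⟨hz, hz2⟩ w ⟨hw, hw2⟩
    have h1 : z.im < m := hz2
    have h2 : w.im < m := hw2
    have h3 := hz.2.2.1
    have h4 := hw.2.2.1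
    have h5 := hz.2.1
    have h6 := hw.2.1
    rw [abs_lt]
    constructor <;> nlinarith
  · rintro z ⟨hz, hz2⟩ w ⟨hw, hw2⟩
    have h1 : m ≤ z.im := hz2
    have h2 : m ≤ w.im := hw2
    have h3 := hz.2.2.2.1
    have h4 := hw.2.2.2.1
    have h5 := hz.2.1
    have h6 := hw.2.1
    rw [abs_lt]
    constructor <;> nlinarith

/-- one ray -/
lemma ln_ray {s t θ : ℝ} (hst : t - s ≤ 1) (hθ : θ = s ∨ θ = t) {g h : ℝ}
    (hg : 0 < g) (hgh : g ≤ h) (hh : h ≤ t - s) :
    ‖cOf ((h : ℂ) + 2 * Real.pi * θ * I) - cOf ((g : ℂ) + 2 * Real.pi * θ * I)‖ ^ 2 ≤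
      9 * (Real.log (h / g) * area s t) := by
  have hpi := Real.pi_gt_three
  have hh0 : 0 < h := hg.trans_le hgh
  have hlog : Real.log g ≤ Real.log h := Real.log_le_log hg hgh
  have hst0 : 0 < t - s := hh0.trans_le hh
  have h1 := ln_length_sq (f := cOf) (B := Box s t) (γ := fun x : ℝ => ((Real.exp x : ℝ) : ℂ) +
      2 * Real.pi * θ * I) (γ' := fun x : ℝ => ((Real.exp x : ℝ) : ℂ)) (ρ := fun x => Real.exp x / 5)
    (a := Real.log g) (b := Real.log h) (M := 5) (T := 1 / 2) (E := 2 * area s t)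
    ln_isOpen differentiableOn_cOf (ln_box_sub s t) (ln_box_meas s t) hlog (by norm_num) ?_
    (by fun_prop) (by fun_prop) (fun x _ => by positivity) ?_ ?_ ?_
    (mul_nonneg (by norm_num) ENNReal.toReal_nonneg) (ln_energy hst)
  · simp only [Real.exp_log hg, Real.exp_log hh0] at h1
    refine h1.trans ?_
    rw [Real.log_div hh0.ne' hg.ne', div_le_iff₀ (by linarith)]
    have h2 : 0 ≤ area s t := ENNReal.toReal_nonneg
    have h3 : 0 ≤ (Real.log h - Real.log g) * area s t := mul_nonneg (by linarith) h2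
    nlinarith
  · intro x
    exact (Real.hasDerivAt_exp x).ofReal_comp.add_const _
  · intro x _
    simp only [Complex.norm_real, Real.norm_eq_abs, abs_of_pos (Real.exp_pos x)]
    linarith
  · intro x hx z hz
    have hx2 : Real.exp x ≤ h := by
      rw [← Real.exp_log hh0]; exact Real.exp_le_exp.2 hx.2
    have hx0 := Real.exp_pos x
    rw [mem_ball, dist_eq] at hz
    have hre := (abs_re_le_norm _).trans_lt hz
    have him := (abs_im_le_norm _).trans_lt hz
    simp only [sub_re, add_re, ofReal_re, mul_re, re_ofNat, im_ofNat, ofReal_im, I_re, I_im,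
      mul_im, mul_zero, zero_mul, sub_zero, mul_one, add_zero, zero_add, sub_im, add_im,
      sub_self] at hre him
    rw [abs_lt] at hre him
    rcases hθ with rfl | rfl
    · refine ⟨by linarith, by linarith, by linarith, ?_, Or.inl (by linarith)⟩
      nlinarith
    · refine ⟨by linarith, by linarith, ?_, by linarith, Or.inr (Or.inl (by linarith))⟩
      nlinarith
  · intro w hw
    have hw0 : 0 < w.re := hw.1
    have hsub : {x | x ∈ Icc (Real.log g) (Real.log h) ∧
        w ∈ ball (((Real.exp x : ℝ) : ℂ) + 2 * Real.pi * θ * I) (Real.exp x / 5)} ⊆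
        Icc (Real.log (5 / 6 * w.re)) (Real.log (5 / 4 * w.re)) := by
      rintro x ⟨-, hx⟩
      rw [mem_ball, dist_eq] at hx
      have hre := (abs_re_le_norm _).trans_lt hx
      simp only [sub_re, add_re, ofReal_re, mul_re, re_ofNat, im_ofNat, ofReal_im, I_re, I_im,
        mul_im, mul_zero, zero_mul, sub_zero, mul_one, add_zero, sub_self] at hre
      rw [abs_lt] at hre
      constructor
      · rw [Real.log_le_iff_le_exp (by positivity)]; linarith
      · rw [Real.le_log_iff_exp_le (by positivity)]; linarith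
    refine (measure_mono hsub).trans ?_
    rw [Real.volume_Icc]
    apply ENNReal.ofReal_le_ofReal
    rw [Real.log_mul (by norm_num) hw0.ne', Real.log_mul (by norm_num) hw0.ne']
    have h5 : Real.log (5 / 4) - Real.log (5 / 6) = Real.log (3 / 2) := by
      rw [← Real.log_div (by norm_num) (by norm_num)]; norm_num
    have h6 := Real.log_le_sub_one_of_pos (x := 3 / 2) (by norm_num)
    linarith

/-- the roof -/
lemma ln_roof {s t : ℝ} (h0 : s < t) (hst : t - s ≤ 1) {u v : ℝ} (hu : s ≤ u) (huv : u ≤ v)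
    (hv : v ≤ t) :
    ‖cOf (((t - s : ℝ) : ℂ) + 2 * Real.pi * v * I) - cOf (((t - s : ℝ) : ℂ) + 2 * Real.pi * u * I)‖
      ^ 2 ≤ 45 * area s t := by
  have hpi := Real.pi_gt_three
  have hpi2 := Real.pi_lt_four
  have hh : 0 < t - s := by linarith
  set h : ℝ := t - s with hh0
  have hA : 0 ≤ area s t := ENNReal.toReal_nonneg
  have h1 := ln_length_sq (f := cOf) (B := Box s t) (γ := fun x : ℝ => ((h : ℝ) : ℂ) +
      2 * Real.pi * x * I) (γ' := fun x : ℝ => 2 * Real.pi * I) (ρ := fun x => h / 5)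
    (a := u) (b := v) (M := 10 * Real.pi / h) (T := h / (5 * Real.pi)) (E := 2 * area s t)
    ln_isOpen differentiableOn_cOf (ln_box_sub s t) (ln_box_meas s t) huv (by positivity) ?_
    (by fun_prop) (by fun_prop) (fun x _ => by positivity) ?_ ?_ ?_
    (mul_nonneg (by norm_num) ENNReal.toReal_nonneg) (ln_energy hst)
  · refine h1.trans ?_
    have h2 : (v - u) * (10 * Real.pi / h) ^ 2 * (h / (5 * Real.pi)) * (2 * area s t) / Real.pi =
        40 * (area s t * ((v - u) / h)) := by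
      field_simp
      ring
    rw [h2]
    have h3 : (v - u) / h ≤ 1 := by
      rw [div_le_one hh]; linarith
    nlinarith [mul_le_mul_of_nonneg_left h3 hA]
  · intro x
    have h2 : HasDerivAt (fun y : ℝ => (y : ℂ)) 1 x := Complex.ofRealCLM.hasDerivAt
    have h3 := ((h2.const_mul (2 * Real.pi : ℂ)).mul_const I).const_add (h : ℂ)
    simpa using h3
  · intro x _
    have e1 : ‖(2 * Real.pi * I : ℂ)‖ = 2 * Real.pi := by
      simp [abs_of_pos Real.pi_pos]
    rw [e1]
    apply le_of_eq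
    field_simp
    ring
  · intro x hx z hz
    rw [mem_ball, dist_eq] at hz
    have hre := (abs_re_le_norm _).trans_lt hz
    have him := (abs_im_le_norm _).trans_lt hz
    simp only [sub_re, add_re, ofReal_re, mul_re, re_ofNat, im_ofNat, ofReal_im, I_re, I_im,
      mul_im, mul_zero, zero_mul, sub_zero, mul_one, add_zero, zero_add, sub_im, add_im,
      sub_self] at hre him
    rw [abs_lt] at hre him
    have h2 : s ≤ x := hu.trans hx.1
    have h3 : x ≤ t := hx.2.trans hv
    refine ⟨by linarith, by linarith, ?_, ?_, Or.inr (Or.inr (by linarith))⟩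
    · nlinarith
    · nlinarith
  · intro w hw
    have hsub : {x | x ∈ Icc u v ∧ w ∈ ball (((h : ℝ) : ℂ) + 2 * Real.pi * x * I) (h / 5)} ⊆
        Icc ((w.im - h / 5) / (2 * Real.pi)) ((w.im + h / 5) / (2 * Real.pi)) := by
      rintro x ⟨-, hx⟩
      rw [mem_ball, dist_eq] at hx
      have him := (abs_im_le_norm _).trans_lt hx
      simp only [ofReal_re, mul_re, re_ofNat, im_ofNat, ofReal_im, I_re, I_im,
        mul_im, mul_zero, zero_mul, sub_zero, mul_one, add_zero, zero_add, sub_im, add_im] at him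
      rw [abs_lt] at him
      constructor
      · rw [div_le_iff₀ (by positivity)]; linarith
      · rw [le_div_iff₀ (by positivity)]; linarith
    refine (measure_mono hsub).trans ?_
    rw [Real.volume_Icc]
    apply ENNReal.ofReal_le_ofReal
    apply le_of_eq
    field_simp
    ring

/-- **Module N1a.** -/
theorem n1_length : N1_length := by
  intro s t g hst h1 hg hgh
  have hA : 0 ≤ area s t := ENNReal.toReal_nonneg
  have hh : 0 < t - s := by linarith
  have hlog0 : 0 ≤ Real.log ((t - s) / g) := Real.log_nonneg (by rwa [one_le_div hg])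
  have hray : ∀ θ : ℝ, θ = s ∨ θ = t →
      diam (RaySeg θ g (t - s)) ≤ 20 * √((1 + Real.log ((t - s) / g)) * area s t) := by
    intro θ hθ
    have key : ∀ u v : ℝ, g ≤ u → u ≤ v → v ≤ t - s →
        ‖cOf ((v : ℂ) + 2 * Real.pi * θ * I) - cOf ((u : ℂ) + 2 * Real.pi * θ * I)‖ ≤
          20 * √((1 + Real.log ((t - s) / g)) * area s t) := by
      intro u v hu huv hv
      have hu0 : 0 < u := hg.trans_le hu
      have h2 := ln_ray h1 hθ hu0 huv hv
      have h3 : Real.log (v / u) ≤ Real.log ((t - s) / g) := by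
        apply Real.log_le_log (div_pos (hu0.trans_le huv) hu0)
        exact div_le_div₀ hh.le hv hg hu
      have h4 : ‖cOf ((v : ℂ) + 2 * Real.pi * θ * I) - cOf ((u : ℂ) + 2 * Real.pi * θ * I)‖ ^ 2 ≤
          (20 * √((1 + Real.log ((t - s) / g)) * area s t)) ^ 2 := by
        rw [mul_pow, Real.sq_sqrt (mul_nonneg (by linarith) hA)]
        have h5 := mul_le_mul_of_nonneg_right h3 hA
        nlinarith
      exact (abs_le_of_sq_le_sq' h4 (by positivity)).2
    apply diam_le_of_forall_dist_le (by positivity)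
    rintro _ ⟨u, hu, rfl⟩ _ ⟨v, hv, rfl⟩
    rcases le_total u v with huv | huv
    · rw [dist_comm, dist_eq]
      exact key u v hu.1 huv hv.2
    · rw [dist_eq]
      exact key v u hv.1 huv hu.2
  refine ⟨hray s (Or.inl rfl), hray t (Or.inr rfl), ?_⟩
  have key : ∀ u v : ℝ, s ≤ u → u ≤ v → v ≤ t →
      ‖cOf (((t - s : ℝ) : ℂ) + 2 * Real.pi * v * I) -
        cOf (((t - s : ℝ) : ℂ) + 2 * Real.pi * u * I)‖ ≤ 20 * √(area s t) := by
    intro u v hu huv hv
    have h2 := ln_roof hst h1 hu huv hv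
    have h4 : ‖cOf (((t - s : ℝ) : ℂ) + 2 * Real.pi * v * I) -
        cOf (((t - s : ℝ) : ℂ) + 2 * Real.pi * u * I)‖ ^ 2 ≤ (20 * √(area s t)) ^ 2 := by
      rw [mul_pow, Real.sq_sqrt hA]
      nlinarith
    exact (abs_le_of_sq_le_sq' h4 (by positivity)).2
  apply diam_le_of_forall_dist_le (by positivity)
  rintro _ ⟨u, hu, rfl⟩ _ ⟨v, hv, rfl⟩
  rcases le_total u v with huv | huv
  · rw [dist_comm, dist_eq]
    exact key u v hu.1 huv hv.2
  · rw [dist_eq]
    exact key v u hv.1 huv hu.2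

end Pool.Agent.Work.MLC.Cnt
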