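import Pool.Agent.Work.MLC.CntQ26
import Pool.Agent.Work.MLC.CntLen78

set_option autoImplicit false

/-! # Module R1 of Theorem Q: one Whitney box of a ray (helper78) -/

namespace Pool.Agent.Work.MLC.Cnt

open Filter Topology Metric Set Complex MeasureTheory
open scoped ENNReal

lemma qw_meas (t h : ℝ) : MeasurableSet (WB t h) := by
  have e : WB t h = {z : ℂ | h / 4 < z.re} ∩ ({z : ℂ | z.re < 2 * h} ∩
      {z : ℂ | |z.im - 2 * Real.pi * t| < h / 16}) := rfl
  rw [e]
  exact ((isOpen_lt (by fun_prop) (by fun_prop)).inter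
    ((isOpen_lt (by fun_prop) (by fun_prop)).inter
      (isOpen_lt (by fun_prop) (by fun_prop)))).measurableSet

lemma qw_sub {t h : ℝ} (hh : 0 < h) : WB t h ⊆ {L : ℂ | 0 < L.re} := by
  rintro z ⟨h1, -, -⟩
  show 0 < z.re
  linarith

/-- the image of the half plane part `re < 2` is bounded -/
lemma qw_bdd {A : Set ℂ} (hA : ∀ z ∈ A, 0 < z.re ∧ z.re ≤ 2) : cOf '' A ⊆ ball 0 200 := by
  rintro _ ⟨L, hL, rfl⟩
  obtain ⟨h0, h01⟩ := hA L hL
  have h1 : G (cOf L) (cOf L) ≤ 2 := by
    rw [G_cOf h0]; linarith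
  have h2 := norm_le_of_G_le h1
  have h3 := Real.exp_one_lt_d9
  have h4 : Real.exp 2 = Real.exp 1 * Real.exp 1 := by rw [← Real.exp_add]; norm_num
  have h5 := Real.exp_pos 1
  rw [mem_ball_zero_iff]
  have h6 : Real.exp 2 ≤ 8 := by rw [h4]; nlinarith
  linarith

/-- energy of a set of height `< 2 pi` -/
lemma qw_energy {A : Set ℂ} (hAm : MeasurableSet A) (hA : ∀ z ∈ A, 0 < z.re ∧ z.re ≤ 2)
    (hA2 : ∀ z ∈ A, ∀ w ∈ A, |z.im - w.im| < 2 * Real.pi) :
    ∫⁻ z in A, ENNReal.ofReal (‖deriv cOf z‖ ^ 2) =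
      ENNReal.ofReal ((volume (cOf '' A)).toReal) := by
  have hpi := Real.pi_gt_three
  have hinj : InjOn cOf A := by
    intro z hz w hw h
    obtain ⟨k, hk⟩ := (cOf_eq_iff (hA z hz).1 (hA w hw).1).1 h
    have h1 := congrArg Complex.im hk
    simp only [add_im, mul_im, mul_re, intCast_re, intCast_im, re_ofNat, im_ofNat, ofReal_re,
      ofReal_im, I_re, I_im, mul_zero, zero_mul, sub_zero, mul_one, add_zero, zero_add] at h1
    have h2 := hA2 z hz w hw
    rw [abs_lt] at h2
    have hk0 : k = 0 := by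
      have h3 : (k : ℝ) < 1 := by
        by_contra h3
        push Not at h3
        nlinarith
      have h4 : (-1 : ℝ) < k := by
        by_contra h4
        push Not at h4
        nlinarith
      have h5 : k < 1 := by exact_mod_cast h3
      have h6 : -1 < k := by exact_mod_cast h4
      omega
    rw [hk, hk0]; simp
  rw [Tr.lintegral_normSq_deriv ln_isOpen differentiableOn_cOf (fun z hz => (hA z hz).1) hAm hinj,
    ENNReal.ofReal_toReal ((measure_mono (qw_bdd hA)).trans_lt measure_ball_lt_top).ne]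

/-- one Whitney box of a ray, with the square -/
lemma qw_sq {t h : ℝ} (hh : 0 < h) (hh1 : h ≤ 1) {u v : ℝ} (hu : h / 2 ≤ u) (huv : u ≤ v)
    (hv : v ≤ h) :
    ‖cOf ((v : ℂ) + 2 * Real.pi * t * I) - cOf ((u : ℂ) + 2 * Real.pi * t * I)‖ ^ 2 ≤
      6 * (volume (cOf '' WB t h)).toReal := by
  have hpi := Real.pi_gt_three
  have hA : ∀ z ∈ WB t h, 0 < z.re ∧ z.re ≤ 2 := by
    rintro z ⟨h1, h2, -⟩
    constructor <;> linarith
  have hA2 : ∀ z ∈ WB t h, ∀ w ∈ WB t h, |z.im - w.im| < 2 * Real.pi := by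
    rintro z ⟨-, -, h1⟩ w ⟨-, -, h2⟩
    rw [abs_lt] at h1 h2 ⊢
    constructor <;> linarith
  have h1 := ln_length_sq (f := cOf) (B := WB t h) (γ := fun x : ℝ => (x : ℂ) +
      2 * Real.pi * t * I) (γ' := fun _ : ℝ => 1) (ρ := fun _ => h / 16)
    (a := u) (b := v) (M := 16 / h) (T := h / 8) (E := (volume (cOf '' WB t h)).toReal)
    ln_isOpen differentiableOn_cOf (qw_sub hh) (qw_meas t h) huv (by positivity) ?_
    (by fun_prop) (by fun_prop) (fun x _ => by positivity) ?_ ?_ ?_
    ENNReal.toReal_nonneg (qw_energy (qw_meas t h) hA hA2).le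
  · refine h1.trans ?_
    have hE : 0 ≤ (volume (cOf '' WB t h)).toReal := ENNReal.toReal_nonneg
    have h2 : (v - u) * (16 / h) ^ 2 * (h / 8) * (volume (cOf '' WB t h)).toReal / Real.pi =
        32 * ((volume (cOf '' WB t h)).toReal * ((v - u) / h)) / Real.pi := by
      field_simp
      ring
    rw [h2, div_le_iff₀ (by linarith)]
    have h3 : (v - u) / h ≤ 1 / 2 := by
      rw [div_le_iff₀ hh]; linarith
    nlinarith [mul_le_mul_of_nonneg_left h3 hE]
  · intro x
    have h2 : HasDerivAt (fun y : ℝ => (y : ℂ)) 1 x := Complex.ofRealCLM.hasDerivAt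
    exact h2.add_const _
  · intro x _
    rw [norm_one]
    apply le_of_eq
    field_simp
  · intro x hx z hz
    rw [mem_ball, dist_eq] at hz
    have hre := (abs_re_le_norm _).trans_lt hz
    have him := (abs_im_le_norm _).trans_lt hz
    simp only [sub_re, add_re, ofReal_re, mul_re, re_ofNat, im_ofNat, ofReal_im, I_re, I_im,
      mul_im, mul_zero, zero_mul, sub_zero, mul_one, add_zero, zero_add, sub_im, add_im,
      sub_self] at hre him
    rw [abs_lt] at hre
    have h2 := hx.1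
    have h3 := hx.2
    refine ⟨by linarith, by linarith, him⟩
  · intro w hw
    have hsub : {x | x ∈ Icc u v ∧ w ∈ ball ((x : ℂ) + 2 * Real.pi * t * I) (h / 16)} ⊆
        Icc (w.re - h / 16) (w.re + h / 16) := by
      rintro x ⟨-, hx⟩
      rw [mem_ball, dist_eq] at hx
      have hre := (abs_re_le_norm _).trans_lt hx
      simp only [sub_re, add_re, ofReal_re, mul_re, re_ofNat, im_ofNat, ofReal_im, I_re, I_im,
        mul_im, mul_zero, zero_mul, sub_zero, mul_one, add_zero, sub_self] at hre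
      rw [abs_lt] at hre
      constructor <;> linarith
    refine (measure_mono hsub).trans ?_
    rw [Real.volume_Icc]
    apply ENNReal.ofReal_le_ofReal
    apply le_of_eq
    ring

/-- **Module R1.** -/
theorem q_whitney : Q_whitney := by
  intro t h hh hh1
  have hE : 0 ≤ (volume (cOf '' WB t h)).toReal := ENNReal.toReal_nonneg
  have key : ∀ u v : ℝ, h / 2 ≤ u → u ≤ v → v ≤ h →
      ‖cOf ((v : ℂ) + 2 * Real.pi * t * I) - cOf ((u : ℂ) + 2 * Real.pi * t * I)‖ ≤
        20 * √((volume (cOf '' WB t h)).toReal) := by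
    intro u v hu huv hv
    have h2 := qw_sq (t := t) hh hh1 hu huv hv
    have h4 : ‖cOf ((v : ℂ) + 2 * Real.pi * t * I) - cOf ((u : ℂ) + 2 * Real.pi * t * I)‖ ^ 2 ≤
        (20 * √((volume (cOf '' WB t h)).toReal)) ^ 2 := by
      rw [mul_pow, Real.sq_sqrt hE]
      nlinarith
    exact (abs_le_of_sq_le_sq' h4 (by positivity)).2
  apply diam_le_of_forall_dist_le (by positivity)
  rintro _ ⟨u, hu, rfl⟩ _ ⟨v, hv, rfl⟩
  rcases le_total u v with huv | huv
  · rw [dist_comm, dist_eq]
    exact key u v hu.1 huv hv.2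
  · rw [dist_eq]
    exact key v u hv.1 huv hu.2

end Pool.Agent.Work.MLC.Cnt
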