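import Pool.Agent.Work.MLC.Cap26
import Pool.Agent.Work.MLC.CntQ78

set_option autoImplicit false

/-! # Module AV of Theorem Cap: the weighted average (helper78) -/

namespace Pool.Agent.Work.MLC.Cap

open Filter Topology Metric Set Complex MeasureTheory
open Pool.Agent.Work.MLC.Sat Pool.Agent.Work.MLC.Cnt
open scoped ENNReal

lemma av_one_le_bet (N s : ℝ) : 1 ≤ bet N s := by
  unfold bet
  exact Real.one_le_rpow (le_max_left _ _) (by norm_num)

/-- the weight does not change much on a Whitney box -/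
lemma av_bet_le {N s r : ℝ} (hN : 1 ≤ N) (hs : 0 < s) (hr : s / 4 < r) :
    bet N r ≤ 3 * bet N s := by
  have hr0 : 0 < r := by linarith
  have h0 : (0 : ℝ) < N := by linarith
  have h1 : Real.logb 2 (1 / r) ≤ Real.logb 2 (1 / s) + 2 := by
    have h2 : Real.logb 2 (1 / s) + 2 = Real.logb 2 (1 / s * 2 ^ (2 : ℕ)) := by
      rw [Real.logb_mul (by positivity) (by norm_num), Real.logb_pow, Real.logb_self_eq_one (by norm_num)]
      norm_num
    rw [h2]
    apply Real.logb_le_logb_of_le (by norm_num) (by positivity)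
    rw [div_mul_eq_mul_div, one_mul, div_le_div_iff₀ hr0 hs]
    linarith
  have h3 : max 1 (Real.logb 2 (1 / r) / N) ≤ 3 * max 1 (Real.logb 2 (1 / s) / N) := by
    have h4 := le_max_left (1 : ℝ) (Real.logb 2 (1 / s) / N)
    have h5 := le_max_right (1 : ℝ) (Real.logb 2 (1 / s) / N)
    apply max_le
    · linarith
    · have h6 : Real.logb 2 (1 / r) / N ≤ Real.logb 2 (1 / s) / N + 2 := by
        calc Real.logb 2 (1 / r) / N ≤ (Real.logb 2 (1 / s) + 2) / N :=
              div_le_div_of_nonneg_right h1 h0.le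
          _ = Real.logb 2 (1 / s) / N + 2 / N := add_div _ _ _
          _ ≤ _ := by
              have : 2 / N ≤ 2 := by
                rw [div_le_iff₀ h0]; linarith
              linarith
      linarith
  unfold bet
  calc (max 1 (Real.logb 2 (1 / r) / N)) ^ ((1 : ℝ) / 8)
      ≤ (3 * max 1 (Real.logb 2 (1 / s) / N)) ^ ((1 : ℝ) / 8) :=
        Real.rpow_le_rpow (by positivity) h3 (by norm_num)
    _ = 3 ^ ((1 : ℝ) / 8) * (max 1 (Real.logb 2 (1 / s) / N)) ^ ((1 : ℝ) / 8) :=
        Real.mul_rpow (by norm_num) (by positivity)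
    _ ≤ _ := by
        have h7 : (3 : ℝ) ^ ((1 : ℝ) / 8) ≤ 3 ^ (1 : ℝ) :=
          Real.rpow_le_rpow_of_exponent_le (by norm_num) (by norm_num)
        rw [Real.rpow_one] at h7
        exact mul_le_mul_of_nonneg_right h7 (by positivity)

/-- the ray is a union of Whitney pieces -/
lemma av_diam (t : ℝ) {H : ℝ} (hH : 0 < H) (I : ℕ) :
    diam (RaySeg t (H / 2 ^ I) H) ≤
      ∑ i ∈ Finset.range I, diam (RaySeg t (H / 2 ^ i / 2) (H / 2 ^ i)) := by
  induction I with
  | zero =>
      simp only [pow_zero, div_one, Finset.range_zero, Finset.sum_empty]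
      unfold RaySeg
      rw [Icc_self, image_singleton, diam_singleton]
  | succ I ih =>
      rw [Finset.sum_range_succ]
      have e1 : H / 2 ^ (I + 1) = H / 2 ^ I / 2 := by
        rw [pow_succ]; field_simp
      have h1 : H / 2 ^ I / 2 ≤ H / 2 ^ I := by
        have : 0 < H / 2 ^ I := by positivity
        linarith
      have h2 : H / 2 ^ I ≤ H := div_le_self hH.le (one_le_pow₀ (by norm_num))
      have e2 : RaySeg t (H / 2 ^ (I + 1)) H =
          RaySeg t (H / 2 ^ I) H ∪ RaySeg t (H / 2 ^ I / 2) (H / 2 ^ I) := by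
        unfold RaySeg
        rw [← image_union, union_comm, Icc_union_Icc_eq_Icc h1 h2, e1]
      rw [e2]
      refine (diam_union' ?_).trans (by linarith)
      exact ⟨_, ⟨H / 2 ^ I, ⟨le_rfl, h2⟩, rfl⟩, ⟨H / 2 ^ I, ⟨h1, le_rfl⟩, rfl⟩⟩

/-- at most three dyadic scales see a given height -/
lemma av_three {H r : ℝ} (hr : 0 < r) (I : ℕ) :
    ((Finset.range I).filter fun i => H / 2 ^ i / 4 < r ∧ r < 2 * (H / 2 ^ i)).card ≤ 3 := by
  classical
  set S := (Finset.range I).filter fun i => H / 2 ^ i / 4 < r ∧ r < 2 * (H / 2 ^ i) with hS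
  rcases S.eq_empty_or_nonempty with h | h
  · rw [h]; simp
  · have h1 : S ⊆ Finset.Ico (S.min' h) (S.min' h + 3) := by
      intro i hi
      rw [Finset.mem_Ico]
      refine ⟨S.min'_le i hi, ?_⟩
      by_contra hc
      push Not at hc
      have h2 := (Finset.mem_filter.1 (S.min'_mem h)).2
      have h3 := (Finset.mem_filter.1 hi).2
      have h4 : (2 : ℝ) ^ (S.min' h) * 8 ≤ 2 ^ i := by
        calc (2 : ℝ) ^ (S.min' h) * 8 = 2 ^ (S.min' h + 3) := by rw [pow_add]; norm_num
          _ ≤ _ := pow_le_pow_right₀ (by norm_num) hc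
      have h5 := h2.1
      have h6 := h3.2
      have p1 : (0 : ℝ) < 2 ^ (S.min' h) := by positivity
      have p2 : (0 : ℝ) < 2 ^ i := by positivity
      rw [div_div, div_lt_iff₀ (by positivity)] at h5
      rw [← mul_div_assoc, lt_div_iff₀ p2] at h6
      nlinarith
    calc S.card ≤ (Finset.Ico (S.min' h) (S.min' h + 3)).card := Finset.card_le_card h1
      _ = 3 := by rw [Nat.card_Ico]; omega

/-- the pointwise bound -/
lemma av_point {κ : Type} (X : Finset κ) (τ : κ → ℝ) {e D H N : ℝ} (I : ℕ) (M : ℕ → ℝ)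
    (hH : 0 < H) (hN : 1 ≤ N) (hτ : ∀ x ∈ X, |τ x - e| ≤ D) (hM0 : ∀ i < I, 0 < M i)
    (hM : ∀ i < I, ∀ a : ℝ, ((X.filter fun x => a ≤ τ x ∧ τ x ≤ a + H / 2 ^ i).card : ℝ) ≤
      M i * X.card) (z : ℂ) :
    ∑ i ∈ Finset.range I, ∑ x ∈ X, (WB (τ x) (H / 2 ^ i)).indicator
        (fun _ => ENNReal.ofReal (1 / (M i * bet N (H / 2 ^ i)))) z ≤
      (RS e D H).indicator (fun w => ENNReal.ofReal (9 * X.card / bet N w.re)) z := by
  classical
  have hpi := Real.pi_gt_three
  by_cases hz : z ∈ RS e D H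
  · rw [indicator_of_mem hz]
    have hz0 : 0 < z.re := hz.1
    have hb : 0 < bet N z.re := lt_of_lt_of_le one_pos (av_one_le_bet _ _)
    have h1 : ∀ i ∈ Finset.range I, ∑ x ∈ X, (WB (τ x) (H / 2 ^ i)).indicator
        (fun _ => ENNReal.ofReal (1 / (M i * bet N (H / 2 ^ i)))) z ≤
        if H / 2 ^ i / 4 < z.re ∧ z.re < 2 * (H / 2 ^ i) then
          ENNReal.ofReal (3 * X.card / bet N z.re) else 0 := by
      intro i hi
      have hi' := Finset.mem_range.1 hi
      have hhi : 0 < H / 2 ^ i := by positivity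
      have hMi := hM0 i hi'
      have hbi : 0 < bet N (H / 2 ^ i) := lt_of_lt_of_le one_pos (av_one_le_bet _ _)
      split_ifs with hc
      · have e1 : ∑ x ∈ X, (WB (τ x) (H / 2 ^ i)).indicator
            (fun _ => ENNReal.ofReal (1 / (M i * bet N (H / 2 ^ i)))) z =
            ∑ x ∈ X.filter (fun x => z ∈ WB (τ x) (H / 2 ^ i)),
              ENNReal.ofReal (1 / (M i * bet N (H / 2 ^ i))) := by
          rw [Finset.sum_filter]
          rfl
        rw [e1, Finset.sum_const, nsmul_eq_mul, ← ENNReal.ofReal_natCast,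
          ← ENNReal.ofReal_mul (by positivity)]
        apply ENNReal.ofReal_le_ofReal
        have h2 : ((X.filter (fun x => z ∈ WB (τ x) (H / 2 ^ i))).card : ℝ) ≤ M i * X.card := by
          refine le_trans ?_ (hM i hi' (z.im / (2 * Real.pi) - H / 2 ^ i / 2))
          have h3 : X.filter (fun x => z ∈ WB (τ x) (H / 2 ^ i)) ⊆
              X.filter (fun x => z.im / (2 * Real.pi) - H / 2 ^ i / 2 ≤ τ x ∧
                τ x ≤ z.im / (2 * Real.pi) - H / 2 ^ i / 2 + H / 2 ^ i) := by
            intro x hx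
            rw [Finset.mem_filter] at hx ⊢
            refine ⟨hx.1, ?_⟩
            have h4 := hx.2.2.2
            rw [abs_lt] at h4
            have e2 : z.im = 2 * Real.pi * (z.im / (2 * Real.pi)) := by field_simp
            set y := z.im / (2 * Real.pi)
            rw [e2] at h4
            constructor <;> nlinarith
          exact_mod_cast Finset.card_le_card h3
        have h5 := av_bet_le hN hhi hc.1
        rw [mul_one_div, div_le_div_iff₀ (by positivity) hb]
        have h6 : (0 : ℝ) ≤ X.card := Nat.cast_nonneg _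
        calc ((X.filter (fun x => z ∈ WB (τ x) (H / 2 ^ i))).card : ℝ) * bet N z.re
            ≤ (M i * X.card) * (3 * bet N (H / 2 ^ i)) :=
              mul_le_mul h2 h5 hb.le (by positivity)
          _ = _ := by ring
      · apply le_of_eq
        apply Finset.sum_eq_zero
        intro x _
        rw [indicator_of_notMem]
        rintro ⟨h2, h3, -⟩
        exact hc ⟨h2, h3⟩
    refine (Finset.sum_le_sum h1).trans ?_
    rw [← Finset.sum_filter, Finset.sum_const, nsmul_eq_mul]
    calc (((Finset.range I).filter fun i => H / 2 ^ i / 4 < z.re ∧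
          z.re < 2 * (H / 2 ^ i)).card : ℝ≥0∞) * ENNReal.ofReal (3 * X.card / bet N z.re)
        ≤ 3 * ENNReal.ofReal (3 * X.card / bet N z.re) := by
          gcongr
          exact_mod_cast av_three hz0 I
      _ = ENNReal.ofReal 3 * ENNReal.ofReal (3 * X.card / bet N z.re) := by norm_num
      _ = ENNReal.ofReal (9 * X.card / bet N z.re) := by
          rw [← ENNReal.ofReal_mul (by norm_num)]
          congr 1
          ring
  · rw [indicator_of_notMem hz]
    apply le_of_eq
    apply Finset.sum_eq_zero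
    intro i hi
    apply Finset.sum_eq_zero
    intro x hx
    rw [indicator_of_notMem]
    rintro ⟨h2, h3, h4⟩
    apply hz
    have hhi : 0 < H / 2 ^ i := by positivity
    have hhi2 : H / 2 ^ i ≤ H := div_le_self hH.le (one_le_pow₀ (by norm_num))
    refine ⟨by linarith, by linarith, ?_⟩
    have h5 := hτ x hx
    rw [abs_lt] at h4
    rw [abs_le] at h5 ⊢
    have e2 : z.im = 2 * Real.pi * (z.im / (2 * Real.pi)) := by field_simp
    set y := z.im / (2 * Real.pi)
    rw [e2] at h4
    constructor <;> nlinarith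

/-- the sum over the rays -/
lemma av_sum {κ : Type} (X : Finset κ) (τ : κ → ℝ) {e D H N : ℝ} (I : ℕ) (M : ℕ → ℝ)
    (hH : 0 < H) (hN : 1 ≤ N) (hτ : ∀ x ∈ X, |τ x - e| ≤ D) (hM0 : ∀ i < I, 0 < M i)
    (hM : ∀ i < I, ∀ a : ℝ, ((X.filter fun x => a ≤ τ x ∧ τ x ≤ a + H / 2 ^ i).card : ℝ) ≤
      M i * X.card) :
    ∑ x ∈ X, ∑ i ∈ Finset.range I, ENNReal.ofReal (1 / (M i * bet N (H / 2 ^ i))) *
        en (WB (τ x) (H / 2 ^ i)) ≤ 9 * X.card * rayE N e D H := by
  have hRS : MeasurableSet (RS e D H) := by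
    have e0 : RS e D H = {z : ℂ | 0 < z.re} ∩ ({z : ℂ | z.re ≤ 2 * H} ∩
        {z : ℂ | |z.im / (2 * Real.pi) - e| ≤ D + 8 * z.re}) := rfl
    rw [e0]
    refine (isOpen_lt (by fun_prop) (by fun_prop)).measurableSet.inter
      ((isClosed_le (by fun_prop) (by fun_prop)).measurableSet.inter
      (isClosed_le (by fun_prop) (by fun_prop)).measurableSet)
  have hF : Measurable fun z : ℂ => ENNReal.ofReal (‖deriv cOf z‖ ^ 2) :=
    ((measurable_deriv cOf).norm.pow_const 2).ennreal_ofReal
  have h1 : ∀ (x : κ) (i : ℕ), ENNReal.ofReal (1 / (M i * bet N (H / 2 ^ i))) *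
      en (WB (τ x) (H / 2 ^ i)) = ∫⁻ z, (WB (τ x) (H / 2 ^ i)).indicator
        (fun _ => ENNReal.ofReal (1 / (M i * bet N (H / 2 ^ i)))) z *
          ENNReal.ofReal (‖deriv cOf z‖ ^ 2) := by
    intro x i
    unfold en
    rw [← lintegral_const_mul' _ _ ENNReal.ofReal_ne_top, ← lintegral_indicator (qw_meas _ _)]
    apply lintegral_congr
    intro z
    by_cases hz : z ∈ WB (τ x) (H / 2 ^ i)
    · rw [indicator_of_mem hz, indicator_of_mem hz]
    · rw [indicator_of_notMem hz, indicator_of_notMem hz, zero_mul]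
  simp_rw [h1]
  have hm : ∀ (x : κ) (i : ℕ), Measurable fun z : ℂ => (WB (τ x) (H / 2 ^ i)).indicator
        (fun _ => ENNReal.ofReal (1 / (M i * bet N (H / 2 ^ i)))) z *
          ENNReal.ofReal (‖deriv cOf z‖ ^ 2) := by
    intro x i
    exact (measurable_const.indicator (qw_meas _ _)).mul hF
  rw [Finset.sum_comm]
  have h2 : ∀ i ∈ Finset.range I, ∑ x ∈ X, ∫⁻ z, (WB (τ x) (H / 2 ^ i)).indicator
        (fun _ => ENNReal.ofReal (1 / (M i * bet N (H / 2 ^ i)))) z *
          ENNReal.ofReal (‖deriv cOf z‖ ^ 2) = ∫⁻ z, ∑ x ∈ X, (WB (τ x) (H / 2 ^ i)).indicator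
        (fun _ => ENNReal.ofReal (1 / (M i * bet N (H / 2 ^ i)))) z *
          ENNReal.ofReal (‖deriv cOf z‖ ^ 2) := by
    intro i _
    rw [lintegral_finsetSum _ (fun x _ => hm x i)]
  rw [Finset.sum_congr rfl h2, ← lintegral_finsetSum _
    (fun i _ => Finset.measurable_sum _ (fun x _ => hm x i))]
  have h3 : 9 * (X.card : ℝ≥0∞) * rayE N e D H = ∫⁻ z, (RS e D H).indicator
      (fun w => ENNReal.ofReal (9 * X.card / bet N w.re)) z *
        ENNReal.ofReal (‖deriv cOf z‖ ^ 2) := by
    unfold rayE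
    rw [← lintegral_const_mul' _ _ (by finiteness), ← lintegral_indicator hRS]
    apply lintegral_congr
    intro z
    by_cases hz : z ∈ RS e D H
    · rw [indicator_of_mem hz, indicator_of_mem hz]
      have hb : 0 < bet N z.re := lt_of_lt_of_le one_pos (av_one_le_bet _ _)
      have e1 : 9 * (X.card : ℝ≥0∞) = ENNReal.ofReal (9 * X.card) := by
        rw [ENNReal.ofReal_mul (by norm_num), ENNReal.ofReal_natCast]
        norm_num
      rw [e1, ← ENNReal.ofReal_mul (by positivity), ← ENNReal.ofReal_mul (by positivity)]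
      congr 1
      ring
    · rw [indicator_of_notMem hz, indicator_of_notMem hz, zero_mul]
  rw [h3]
  apply lintegral_mono
  intro z
  have h4 := av_point X τ I M hH hN hτ hM0 hM z
  calc ∑ i ∈ Finset.range I, ∑ x ∈ X, (WB (τ x) (H / 2 ^ i)).indicator
        (fun _ => ENNReal.ofReal (1 / (M i * bet N (H / 2 ^ i)))) z *
          ENNReal.ofReal (‖deriv cOf z‖ ^ 2)
      = (∑ i ∈ Finset.range I, ∑ x ∈ X, (WB (τ x) (H / 2 ^ i)).indicator
        (fun _ => ENNReal.ofReal (1 / (M i * bet N (H / 2 ^ i)))) z) *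
          ENNReal.ofReal (‖deriv cOf z‖ ^ 2) := by
        rw [Finset.sum_mul]
        exact Finset.sum_congr rfl fun i _ => (Finset.sum_mul _ _ _).symm
    _ ≤ _ := mul_le_mul_left h4 _

/-- **Module AV.** -/
theorem c_average : C_average := by
  intro κ X τ e D H N I M hX hH hH1 hN hD hτ hM
  classical
  have hcard : (0 : ℝ) < X.card := by exact_mod_cast hX.card_pos
  have hM0 : ∀ i < I, 0 < M i := by
    intro i hi
    obtain ⟨x, hx⟩ := hX
    have h1 := (hM i hi).2 (τ x)
    have h2 : 0 < ((X.filter fun y => τ x ≤ τ y ∧ τ y ≤ τ x + H / 2 ^ i).card : ℝ) := by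
      have : x ∈ X.filter fun y => τ x ≤ τ y ∧ τ y ≤ τ x + H / 2 ^ i := by
        rw [Finset.mem_filter]
        refine ⟨hx, le_rfl, ?_⟩
        have : 0 < H / 2 ^ i := by positivity
        linarith
      exact_mod_cast Finset.card_pos.2 ⟨x, this⟩
    exact (pos_iff_pos_of_mul_pos (h2.trans_le h1)).2 hcard
  set w : ℕ → ℝ := fun i => M i * bet N (H / 2 ^ i) with hw
  have hw0 : ∀ i < I, 0 < w i := fun i hi =>
    mul_pos (hM0 i hi) (lt_of_lt_of_le one_pos (av_one_le_bet _ _))
  set V : κ → ℕ → ℝ := fun x i => (volume (cOf '' WB (τ x) (H / 2 ^ i))).toReal with hV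
  have hV0 : ∀ x i, 0 ≤ V x i := fun x i => ENNReal.toReal_nonneg
  have hi1 : ∀ i : ℕ, H / 2 ^ i ≤ 1 := fun i =>
    (div_le_self hH.le (one_le_pow₀ (by norm_num))).trans hH1
  have hen : ∀ x i, en (WB (τ x) (H / 2 ^ i)) = ENNReal.ofReal (V x i) := by
    intro x i
    have hhi : 0 < H / 2 ^ i := by positivity
    have h1 := hi1 i
    have hpi := Real.pi_gt_three
    apply qw_energy (qw_meas _ _)
    · rintro z ⟨h2, h3, -⟩
      constructor <;> linarith
    · rintro z ⟨-, -, h2⟩ w ⟨-, -, h3⟩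
      rw [abs_lt] at h2 h3 ⊢
      constructor <;> linarith
  -- one ray
  have hray : ∀ x, diam (RaySeg (τ x) (H / 2 ^ I) H) ^ 2 ≤
      400 * (∑ i ∈ Finset.range I, w i) * ∑ i ∈ Finset.range I, V x i / w i := by
    intro x
    have h1 : diam (RaySeg (τ x) (H / 2 ^ I) H) ≤ ∑ i ∈ Finset.range I, 20 * √(V x i) := by
      refine (av_diam (τ x) hH I).trans (Finset.sum_le_sum fun i _ => ?_)
      exact q_whitney (τ x) (H / 2 ^ i) (by positivity) (hi1 i)
    have h2 : (∑ i ∈ Finset.range I, √(V x i)) ^ 2 ≤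
        (∑ i ∈ Finset.range I, w i) * ∑ i ∈ Finset.range I, V x i / w i := by
      apply Finset.sum_sq_le_sum_mul_sum_of_sq_le_mul
      · intro i hi
        exact (hw0 i (Finset.mem_range.1 hi)).le
      · intro i hi
        exact div_nonneg (hV0 x i) (hw0 i (Finset.mem_range.1 hi)).le
      · intro i hi
        rw [Real.sq_sqrt (hV0 x i), mul_div_cancel₀ _ (hw0 i (Finset.mem_range.1 hi)).ne']
    rw [← Finset.mul_sum] at h1
    calc diam (RaySeg (τ x) (H / 2 ^ I) H) ^ 2 ≤ (20 * ∑ i ∈ Finset.range I, √(V x i)) ^ 2 :=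
          pow_le_pow_left₀ diam_nonneg h1 2
      _ = 400 * (∑ i ∈ Finset.range I, √(V x i)) ^ 2 := by ring
      _ ≤ _ := by linarith
  rcases Nat.eq_zero_or_pos I with hI | hI
  · obtain ⟨x, hx⟩ := hX
    refine ⟨x, hx, ?_⟩
    have h1 := hray x
    rw [hI] at h1 ⊢
    simp only [Finset.range_zero, Finset.sum_empty, mul_zero, ENNReal.ofReal_zero, zero_mul]
      at h1 ⊢
    rw [nonpos_iff_eq_zero, ENNReal.ofReal_eq_zero]
    exact h1
  have hSw : 0 < ∑ i ∈ Finset.range I, w i :=
    Finset.sum_pos (fun i hi => hw0 i (Finset.mem_range.1 hi)) ⟨0, Finset.mem_range.2 hI⟩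
  by_cases htop : rayE N e D H = ⊤
  · obtain ⟨x, hx⟩ := hX
    refine ⟨x, hx, ?_⟩
    rw [htop, ENNReal.mul_top]
    · exact le_top
    · rw [Ne, ENNReal.ofReal_eq_zero, not_le]
      positivity
  have h1 := av_sum X τ I M hH hN hτ hM0 (fun i hi => (hM i hi).2)
  have h2 : ∑ x ∈ X, ∑ i ∈ Finset.range I, V x i / w i ≤
      ∑ _x ∈ X, 9 * (rayE N e D H).toReal := by
    rw [Finset.sum_const, nsmul_eq_mul]
    have e1 : ∑ x ∈ X, ∑ i ∈ Finset.range I, ENNReal.ofReal (1 / (M i * bet N (H / 2 ^ i))) *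
        en (WB (τ x) (H / 2 ^ i)) =
        ENNReal.ofReal (∑ x ∈ X, ∑ i ∈ Finset.range I, V x i / w i) := by
      rw [ENNReal.ofReal_sum_of_nonneg]
      · refine Finset.sum_congr rfl fun x _ => ?_
        rw [ENNReal.ofReal_sum_of_nonneg]
        · refine Finset.sum_congr rfl fun i hi => ?_
          have h3 := hw0 i (Finset.mem_range.1 hi)
          rw [hen, ← ENNReal.ofReal_mul (by positivity)]
          congr 1
          rw [one_div_mul_eq_div]
        · intro i hi
          exact div_nonneg (hV0 x i) (hw0 i (Finset.mem_range.1 hi)).le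
      · intro x _
        exact Finset.sum_nonneg fun i hi =>
          div_nonneg (hV0 x i) (hw0 i (Finset.mem_range.1 hi)).le
    have e2 : 9 * (X.card : ℝ≥0∞) * rayE N e D H =
        ENNReal.ofReal ((X.card : ℝ) * (9 * (rayE N e D H).toReal)) := by
      rw [ENNReal.ofReal_mul (Nat.cast_nonneg _), ENNReal.ofReal_natCast,
        ENNReal.ofReal_mul (by norm_num), ENNReal.ofReal_toReal htop]
      norm_num
      ring
    rw [e1, e2] at h1
    exact (ENNReal.ofReal_le_ofReal_iff
      (mul_nonneg (Nat.cast_nonneg _) (mul_nonneg (by norm_num) ENNReal.toReal_nonneg))).1 h1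
  obtain ⟨x, hx, h3⟩ := Finset.exists_le_of_sum_le hX h2
  refine ⟨x, hx, ?_⟩
  have hR : 0 ≤ (rayE N e D H).toReal := ENNReal.toReal_nonneg
  calc ENNReal.ofReal (diam (RaySeg (τ x) (H / 2 ^ I) H) ^ 2)
      ≤ ENNReal.ofReal ((10 ^ 5 * ∑ i ∈ Finset.range I, w i) * (rayE N e D H).toReal) := by
        apply ENNReal.ofReal_le_ofReal
        refine (hray x).trans ?_
        have h4 := mul_le_mul_of_nonneg_left h3 (by positivity : 0 ≤ 400 * ∑ i ∈ Finset.range I, w i)
        refine h4.trans ?_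
        have h5 : 0 ≤ (∑ i ∈ Finset.range I, w i) * (rayE N e D H).toReal :=
          mul_nonneg hSw.le hR
        nlinarith
    _ = _ := by
        rw [ENNReal.ofReal_mul (by positivity), ENNReal.ofReal_toReal htop]

end Pool.Agent.Work.MLC.Cap
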