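import Pool.Agent.Work.MLC.Cap26

set_option autoImplicit false

/-! # Theorem Cap, stage B: two more statements (manager: helper26) -/

namespace Pool.Agent.Work.MLC.Cap

open Filter Topology Metric Set Complex MeasureTheory
open Pool.Agent.Work.MLC.Sat Pool.Agent.Work.MLC.Cnt
open scoped ENNReal

/-- PRE (helper13): the piece is connected -/
def C_pre : Prop := ∀ U V : Dat, U.Par → U.Cir → V.Par → V.Cir → Lm V ⊆ Lm U → rt V ∈ Lm U →
  IsPreconnected (KP U V)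

/-- CH (helper60): the component attached at the root of `W` at `x`, with its wide section -/
def C_child : Prop := ∀ W : WS, W.Ok → ∀ x : ℚ, 0 < x → x < 1 → ∃ W' : WS, W'.Ok ∧
  W'.m = W.m * x.den ∧ (∀ y : ℝ, 0 < y → y < 1 → W'.c (2 * Real.pi * y * I) ∈ Lm (W.dat x)) ∧
  (∀ y : ℚ, 0 < y → y < 1 → (W.dat x).tm < (W'.dat y).tm ∧ (W'.dat y).tp < (W.dat x).tp) ∧
  (W'.dat (1 / 2)).tm - (W.dat x).tm ≤ 1 / (2 ^ W'.m - 1) ∧
  (W.dat x).tp - (W'.dat (1 / 2)).tp ≤ 1 / (2 ^ W'.m - 1)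

end Pool.Agent.Work.MLC.Cap
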