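import Pool.Agent.Work.MLC.Label57

set_option autoImplicit false

/-! # Labels over one parameter are different  (helper54) -/

namespace Pool.Agent.Work.MLC

open Set Circ CircleDeg1Lift

/-- the rotation number is an integer for an integer angle (the angle `0` stays in the closed half
circles) -/
theorem nu_intAngle (w : ℕ → ℤ) (n : ℕ) (m : ℤ) : ∃ k : ℤ, nu w n m = k := by
  have key : ∀ n, ∃ k : ℤ, gw w m n 0 = k := by
    intro n
    induction n with
    | zero => exact ⟨0, by simp⟩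
    | succ n ih =>
      obtain ⟨k, hk⟩ := ih
      rw [gw_succ_apply, hk]
      rcases Int.even_or_odd (m + w n) with ⟨s, hs⟩ | ⟨s, hs⟩
      · refine ⟨k + s, ?_⟩
        have e : (m : ℝ) + w n = s + s := by exact_mod_cast hs
        rw [tdbl_lin (k - s) (by push_cast; linarith) (by push_cast; linarith)]
        push_cast; ring
      · refine ⟨k + s + 1, ?_⟩
        have e : (m : ℝ) + w n = 2 * s + 1 := by exact_mod_cast hs
        rw [tdbl_lin (k - s - 1) (by push_cast; linarith) (by push_cast; linarith)]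
        push_cast; ring
  obtain ⟨k, hk⟩ := key n
  refine ⟨k, ?_⟩
  exact translationNumber_of_eq_add_int (x := 0) _ (by rw [hk]; simp)

/-- the rotation numbers at `θ` and `θ + 1` -/
theorem floor_nu_add_one (w : ℕ → ℤ) (n : ℕ) (θ : ℝ) (h : ∀ k : ℤ, nu w n θ ≠ k)
    (h' : ∀ k : ℤ, nu w n (θ + 1) ≠ k) :
    ⌊nu w n θ⌋ < ⌊nu w n (θ + 1)⌋ ∧ ⌊nu w n (θ + 1)⌋ < ⌊nu w n θ⌋ + n := by
  obtain ⟨a, ha⟩ := nu_intAngle w n ⌈θ⌉
  obtain ⟨b, hb⟩ := nu_intAngle w n (⌈θ⌉ + 1)
  have h1 : θ ≤ (⌈θ⌉ : ℤ) := Int.le_ceil θ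
  have h2 : ((⌈θ⌉ : ℤ) : ℝ) < θ + 1 := Int.ceil_lt_add_one θ
  have m1 := nu_mono w n h1
  have m2 := nu_mono w n h2.le
  have m3 := nu_mono w n (a := θ + 1) (b := ((⌈θ⌉ + 1 : ℤ) : ℝ)) (by push_cast; linarith)
  have m4 := nu_mono w n (a := ((⌈θ⌉ + 1 : ℤ) : ℝ)) (b := θ + 2) (by push_cast; linarith)
  rw [nu_add_two] at m4
  rw [ha] at m1 m2
  rw [hb] at m3 m4
  have s1 : nu w n θ < a := lt_of_le_of_ne m1 (h a)
  have s3 : nu w n (θ + 1) < b := lt_of_le_of_ne m3 (h' b)
  have e1 : ⌊nu w n θ⌋ < a := Int.floor_lt.2 s1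
  have e2 : a ≤ ⌊nu w n (θ + 1)⌋ := Int.le_floor.2 m2
  have e3 : ⌊nu w n (θ + 1)⌋ < b := Int.floor_lt.2 s3
  have e4 : b ≤ ⌊nu w n θ⌋ + n := by
    have : b ≤ ⌊nu w n θ + ((n : ℤ) : ℝ)⌋ := Int.le_floor.2 (by push_cast; exact m4)
    rwa [Int.floor_add_intCast] at this
  exact ⟨lt_of_lt_of_le e1 e2, lt_of_lt_of_le e3 e4⟩

theorem bit_of_nw {n : ℕ} {w w' : ℕ → ℤ} (hw : Bits n w) (hw' : Bits n w') {i : ℕ}
    (h : nw w i = nw w' i) (h0 : w 0 = w' 0) : w i = w' i := by
  unfold nw at h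
  rcases hw.bit i with a | a <;> rcases hw.bit 0 with b | b <;> rcases hw'.bit i with a' | a' <;>
    rcases hw'.bit 0 with b' | b' <;>
    first
      | exact a.trans a'.symm
      | omega
      | (exfalso; rw [a, b, a', b'] at h; norm_num at h)

theorem per_mod {n : ℕ} {w : ℕ → ℤ} (hw : Bits n w) (i : ℕ) : w i = w (i % n) := by
  conv_lhs => rw [← Nat.mod_add_div i n]
  generalize i / n = q
  induction q with
  | zero => simp
  | succ q ih =>
    rw [Nat.mul_succ, ← add_assoc, hw.per, ih]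

/-- **over one angle a label belongs to at most one word** -/
theorem lab_injective {n : ℕ} (hn : 0 < n) {θ : ℝ} {w w' : ℕ → ℤ} (hw : Bits n w)
    (hw' : Bits n w') (h : ∀ k : ℤ, nu w n θ ≠ k) (h' : ∀ k : ℤ, nu w' n θ ≠ k)
    (hl : lab n θ w = lab n θ w') : w = w' := by
  classical
  -- the normalised words agree
  have hnw : nw w = nw w' := by
    have h1 : ∀ i < n, nw w i = nw w' i := by
      intro i hi
      have h2 : (lab n θ w).1.1 ⟨i, hi⟩ = (lab n θ w').1.1 ⟨i, hi⟩ := by rw [hl]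
      rw [lab_fst, lab_fst] at h2
      have h3 : nw w i = 1 ↔ nw w' i = 1 := by simpa using h2
      rcases (bits_nw hw).bit i with a | a <;> rcases (bits_nw hw').bit i with a' | a' <;>
        rw [a, a'] at h3 ⊢ <;> norm_num at h3
    funext i
    rw [per_mod (bits_nw hw) i, per_mod (bits_nw hw') i]
    exact h1 _ (Nat.mod_lt _ hn)
  have hsnd : ((⌊nu (nw w) n (θ + w 0)⌋ : ℤ) : ZMod n) = ((⌊nu (nw w') n (θ + w' 0)⌋ : ℤ) : ZMod n) := by
    have : (lab n θ w).2 = (lab n θ w').2 := by rw [hl]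
    rwa [lab_snd, lab_snd] at this
  -- the case of different first letters is impossible
  have key : ∀ v v' : ℕ → ℤ, Bits n v → Bits n v' → (∀ k : ℤ, nu v n θ ≠ k) →
      (∀ k : ℤ, nu v' n θ ≠ k) → nw v = nw v' → v 0 = 0 → v' 0 = 1 →
      ((⌊nu (nw v) n (θ + v 0)⌋ : ℤ) : ZMod n) = ((⌊nu (nw v') n (θ + v' 0)⌋ : ℤ) : ZMod n) →
      False := by
    intro v v' hv hv' a a' e b b' hz
    have c1 : ∀ k : ℤ, nu (nw v) n θ ≠ k := by
      intro k hk
      have := nu_nw hv θ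
      rw [b] at this
      push_cast at this
      rw [add_zero, hk] at this
      apply a (k - ∑ i ∈ Finset.range n, 0 * (1 - v i))
      push_cast
      linarith
    have c2 : ∀ k : ℤ, nu (nw v) n (θ + 1) ≠ k := by
      intro k hk
      have := nu_nw hv' θ
      rw [b', ← e] at this
      push_cast at this
      rw [hk] at this
      apply a' (k - ∑ i ∈ Finset.range n, 1 * (1 - v' i))
      push_cast
      linarith
    obtain ⟨d1, d2⟩ := floor_nu_add_one (nw v) n θ c1 c2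
    rw [← e, b, b'] at hz
    push_cast at hz
    rw [add_zero, ZMod.intCast_eq_intCast_iff_dvd_sub] at hz
    obtain ⟨k, hk⟩ := hz
    have hn0 : (0 : ℤ) < n := by exact_mod_cast hn
    have hk1 : 0 < k := by
      by_contra hcon
      have : (n : ℤ) * k ≤ 0 := mul_nonpos_of_nonneg_of_nonpos hn0.le (by omega)
      omega
    have : (n : ℤ) * 1 ≤ n * k := mul_le_mul_of_nonneg_left (by omega) hn0.le
    omega
  rcases hw.bit 0 with a | a <;> rcases hw'.bit 0 with a' | a'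
  · funext i; exact bit_of_nw hw hw' (by rw [hnw]) (by rw [a, a'])
  · exact (key w w' hw hw' h h' hnw a a' hsnd).elim
  · exact (key w' w hw' hw h' h hnw.symm a' a hsnd.symm).elim
  · funext i; exact bit_of_nw hw hw' (by rw [hnw]) (by rw [a, a'])

end Pool.Agent.Work.MLC
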