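import Pool.Agent.Work.MLC.CntQ26
import Pool.Agent.Work.MLC.Strip1

set_option autoImplicit false

/-! # Theorem Q, module R5 (helper15): a short ray on each side of `x`, which ends in a small gate -/

namespace Pool.Agent.Work.MLC.Cnt

open Filter Topology Metric Set Complex MeasureTheory
open Pool.Agent.Work.MLC.Sat

/-- a strip has length at most one -/
theorem strip15 {n : ℕ} (hn : 0 < n) {w : ℕ → ℤ} (hw : Bits n w) {a b : ℝ} {k : ℤ}
    (h1 : (k : ℝ) < Circ.nu w n a) (h2 : Circ.nu w n b < k + 1) : b - a ≤ 1 := by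
  by_contra hcon
  push Not at hcon
  have hnon : ∀ θ'' ∈ uIcc a (a + 1), ∀ k' : ℤ, Circ.nu w n θ'' ≠ k' := by
    intro θ hθ k' he
    rw [uIcc_of_le (by linarith)] at hθ
    have h3 := Circ.nu_mono w n hθ.1
    have h4 := Circ.nu_mono w n (show θ ≤ b by linarith [hθ.2])
    rw [he] at h3 h4
    have h5 : (k : ℝ) < k' := by linarith
    have h6 : (k' : ℝ) < k + 1 := by linarith
    have h7 : k < k' := by exact_mod_cast h5
    have h8 : k' < k + 1 := by exact_mod_cast h6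
    omega
  have hl1 : lab n (a + 1) w = lab n a w := lab_of_strip hw hnon
  have hv : Bits n (fun i => 1 - w i) := by
    constructor
    · intro i
      rcases hw.bit i with h | h <;> rw [h] <;> norm_num
    · intro i
      show 1 - w (i + n) = 1 - w i
      rw [hw.per]
  have hl2 : lab n (a + 1) w = lab n a (fun i => 1 - w i) :=
    lab_congr hv hw 1 (by push_cast; ring) (fun i => ⟨w i - 1, by ring⟩)
  have hnu : Circ.nu w n (a + 1) = Circ.nu (fun i => 1 - w i) n a +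
      ((∑ i ∈ Finset.range n, w i : ℤ) : ℝ) := by
    have e1 := Circ.nu_add_theta w a 1 n
    have e2 := Circ.nu_shift (fun i => 1 - w i) w a n
    have e3 : (fun i => w i + 1) = fun i => (1 - w i) + 2 * w i := by funext i; ring
    push_cast at e1
    rw [e1, e3, e2]
    push_cast
    ring
  have heq := lab_injective hn hw hv (fun k' => hnon a left_mem_uIcc k') (by
    intro k' he
    rw [he] at hnu
    refine hnon (a + 1) right_mem_uIcc (k' + ∑ i ∈ Finset.range n, w i) ?_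
    rw [hnu]
    push_cast
    ring) (hl1.symm.trans hl2)
  have h0 : w 0 = 1 - w 0 := congrFun heq 0
  omega

theorem mpos15 {W : WS} (hW : W.Ok) : 0 < W.m := hW.wide.pos

/-- the modulus of continuity of the rotation number at the scale `2 ^ (-i)` -/
theorem modl15 {W : WS} (hW : W.Ok) {H : ℝ} (hH : 0 < H) (hH1 : H ≤ 1) {i : ℕ} (hi : W.m ≤ i)
    (a : ℝ) : W.nu (a + H / 2 ^ i) - W.nu a ≤ 8 * W.m / i := by
  have hm := mpos15 hW
  have hi0 : 0 < i := lt_of_lt_of_le hm hi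
  have hiR : (0 : ℝ) < i := by exact_mod_cast hi0
  have hl : 0 < H / 2 ^ i := by positivity
  have hl1 : H / 2 ^ i ≤ (1 / 2) ^ W.m := by
    have h1 : H / 2 ^ i ≤ 1 / 2 ^ i := by gcongr
    have h2 : (1 : ℝ) / 2 ^ i = (1 / 2) ^ i := by rw [one_div, one_div, inv_pow]
    have h3 : ((1 : ℝ) / 2) ^ i ≤ (1 / 2) ^ W.m :=
      pow_le_pow_of_le_one (by norm_num) (by norm_num) hi
    linarith
  have h1 := Pri.nu_log (θ := a) (θ' := a + H / 2 ^ i) hm hW.wide.bits.per (by linarith)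
    (by rw [add_sub_cancel_left]; exact hl1)
  rw [add_sub_cancel_left] at h1
  have hlog : 0.69 * (i : ℝ) ≤ Real.log (1 / (H / 2 ^ i)) := by
    have h2 : (2 : ℝ) ^ i ≤ 1 / (H / 2 ^ i) := by
      rw [one_div, inv_div, le_div_iff₀ hH]
      have : (0 : ℝ) < 2 ^ i := by positivity
      nlinarith
    have h3 := Real.log_le_log (by positivity) h2
    rw [Real.log_pow] at h3
    have h4 := Real.log_two_gt_d9
    nlinarith
  have h0 : 0 ≤ Circ.nu W.w W.m (a + H / 2 ^ i) - Circ.nu W.w W.m a := by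
    have := Circ.nu_mono W.w W.m (show a ≤ a + H / 2 ^ i by linarith)
    linarith
  have h5 : W.nu (a + H / 2 ^ i) - W.nu a =
      Circ.nu W.w W.m (a + H / 2 ^ i) - Circ.nu W.w W.m a := by
    unfold WS.nu; ring
  rw [h5, le_div_iff₀ hiR]
  have h6 := mul_le_mul_of_nonneg_left hlog h0
  nlinarith

/-- counting of the angles in a window -/
theorem count15 (hc : Q_count) {W : WS} {X : Finset ℚ} {N : ℕ} (hX : ∀ x ∈ X, x.den ≤ N)
    {τ : ℚ → ℝ} (hτ : ∀ x ∈ X, W.nu (τ x) = x) {a l : ℝ} (hl : 0 ≤ l) :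
    ((X.filter fun x => a ≤ τ x ∧ τ x ≤ a + l).card : ℝ) ≤
      (W.nu (a + l) - W.nu a) * (N : ℝ) ^ 2 + 1 := by
  have h1 := hc.2 X N (W.nu a) (W.nu (a + l) - W.nu a)
    (by have := W.nu_mono (show a ≤ a + l by linarith); linarith) hX
  refine le_trans ?_ h1
  have h2 : (X.filter fun x => a ≤ τ x ∧ τ x ≤ a + l) ⊆
      X.filter fun x : ℚ => W.nu a ≤ x ∧ (x : ℝ) ≤ W.nu a + (W.nu (a + l) - W.nu a) := by
    intro x hx
    rw [Finset.mem_filter] at hx ⊢
    obtain ⟨hx1, hx2, hx3⟩ := hx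
    have h3 := W.nu_mono hx2
    have h4 := W.nu_mono hx3
    rw [hτ x hx1] at h3 h4
    exact ⟨hx1, h3, by linarith⟩
  exact_mod_cast Finset.card_le_card h2

/-- the harmonic sum -/
theorem harm15 {I : ℕ} (hI : 0 < I) :
    ∑ i ∈ Finset.range I, (1 : ℝ) / i ≤ 1 + Real.log I := by
  have h1 := harmonic_le_one_add_log I
  refine le_trans ?_ h1
  unfold harmonic
  push_cast
  obtain ⟨J, rfl⟩ : ∃ J, I = J + 1 := ⟨I - 1, by omega⟩
  rw [Finset.sum_range_succ', Finset.sum_range_succ]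
  simp only [CharP.cast_eq_zero, div_zero, add_zero]
  have h2 : (0 : ℝ) ≤ ((J : ℝ) + 1)⁻¹ := by positivity
  have h3 : ∑ k ∈ Finset.range J, (1 : ℝ) / ((k + 1 : ℕ) : ℝ) =
      ∑ i ∈ Finset.range J, ((i : ℝ) + 1)⁻¹ := by
    refine Finset.sum_congr rfl fun k _ => ?_
    push_cast
    rw [one_div]
  rw [h3]
  linarith

/-- the number of scales -/
def II15 (n : ℕ) : ℕ := 10 ^ 35 * n ^ 18

/-- the bound for the denominators -/
def NN15 (n : ℕ) : ℕ := 10 ^ 19 * n ^ 10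

theorem II15_cast (m Q : ℕ) : (II15 (m * Q) : ℝ) = 10 ^ 35 * ((m : ℝ) * Q) ^ 18 := by
  unfold II15
  rw [Nat.cast_mul, Nat.cast_pow, Nat.cast_pow, Nat.cast_mul, Nat.cast_ofNat]

theorem NN15_cast (m Q : ℕ) : (NN15 (m * Q) : ℝ) = 10 ^ 19 * ((m : ℝ) * Q) ^ 10 := by
  unfold NN15
  rw [Nat.cast_mul, Nat.cast_pow, Nat.cast_pow, Nat.cast_mul, Nat.cast_ofNat]

theorem log15 {n : ℕ} (hn : 3 ≤ n) :
    1 ≤ Real.log (2 * n) ∧ 1 + Real.log (II15 n) ≤ 117 * Real.log (2 * n) := by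
  have hn' : (3 : ℝ) ≤ n := by exact_mod_cast hn
  have h1 : 1 ≤ Real.log (2 * n) := by
    rw [Real.le_log_iff_exp_le (by positivity)]
    have := Real.exp_one_lt_d9
    linarith
  refine ⟨h1, ?_⟩
  have h2 : Real.log (II15 n) = 35 * Real.log 10 + 18 * Real.log n := by
    unfold II15
    rw [Nat.cast_mul, Nat.cast_pow, Nat.cast_pow, Nat.cast_ofNat]
    rw [Real.log_mul (by positivity) (by positivity), Real.log_pow, Real.log_pow]
    push_cast
    ring
  have h3 : Real.log 10 ≤ 2.8 := by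
    have h4 : Real.log 10 ≤ Real.log (2 ^ 4) := Real.log_le_log (by norm_num) (by norm_num)
    rw [Real.log_pow] at h4
    have h5 := Real.log_two_lt_d9
    push_cast at h4
    linarith
  have h4 : Real.log n ≤ Real.log (2 * n) := Real.log_le_log (by positivity) (by linarith)
  rw [h2]
  nlinarith

/-- the masses of the windows -/
noncomputable def MI15 (m Q : ℕ) (i : ℕ) : ℝ :=
  if i < m then 1 else 160 * Q * (8 * m / i + 1 / (NN15 (m * Q) : ℝ) ^ 2)

theorem MI15_nonneg (m Q i : ℕ) : 0 ≤ MI15 m Q i := by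
  unfold MI15
  split_ifs
  · norm_num
  · positivity

theorem sum15 {m Q : ℕ} (hm : 0 < m) (hQ : 3 ≤ Q) :
    ∑ i ∈ Finset.range (II15 (m * Q)), MI15 m Q i ≤
      250000 * (m * Q * Real.log (2 * m * Q)) := by
  have hn : 3 ≤ m * Q := by nlinarith
  obtain ⟨hL1, hL2⟩ := log15 hn
  have hm1 : (1 : ℝ) ≤ m := by exact_mod_cast hm
  have hQ3 : (3 : ℝ) ≤ Q := by exact_mod_cast hQ
  have e1 : (2 * ((m * Q : ℕ) : ℝ)) = 2 * m * Q := by push_cast; ring
  rw [e1] at hL1 hL2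
  set L := Real.log (2 * m * Q) with hL
  have hIpos : 0 < II15 (m * Q) := by unfold II15; positivity
  have hterm : ∀ i ∈ Finset.range (II15 (m * Q)), MI15 m Q i ≤
      (if i < m then 1 else 0) + (1280 * (m * Q) * (1 / (i : ℝ)) +
        160 * Q / (NN15 (m * Q) : ℝ) ^ 2) := by
    intro i _
    unfold MI15
    split_ifs
    · have : (0 : ℝ) ≤ 1280 * (m * Q) * (1 / (i : ℝ)) + 160 * Q / (NN15 (m * Q) : ℝ) ^ 2 := by
        positivity
      linarith
    · refine le_of_eq ?_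
      ring
  refine (Finset.sum_le_sum hterm).trans ?_
  rw [Finset.sum_add_distrib, Finset.sum_add_distrib, ← Finset.mul_sum, Finset.sum_const,
    Finset.card_range, nsmul_eq_mul, Finset.sum_boole]
  have h1 : (((Finset.range (II15 (m * Q))).filter fun i => i < m).card : ℝ) ≤ m := by
    have h2 : ((Finset.range (II15 (m * Q))).filter fun i => i < m) ⊆ Finset.range m := by
      intro i hi
      rw [Finset.mem_filter] at hi
      exact Finset.mem_range.2 hi.2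
    have h3 := Finset.card_le_card h2
    rw [Finset.card_range] at h3
    exact_mod_cast h3
  have h2 := harm15 hIpos
  have h3 : (II15 (m * Q) : ℝ) * (160 * Q / (NN15 (m * Q) : ℝ) ^ 2) ≤ 1 := by
    rw [II15_cast, NN15_cast]
    rw [mul_div_assoc', div_le_one (by positivity)]
    have h4 : (1 : ℝ) ≤ m * Q := by nlinarith
    have h5 : (Q : ℝ) ≤ (m * Q) ^ 2 := by nlinarith
    have h6 : (0 : ℝ) ≤ (m * Q) ^ 18 := by positivity
    have h7 := mul_le_mul_of_nonneg_left h5 h6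
    have h8 : ((m : ℝ) * Q) ^ 18 * (m * Q) ^ 2 = (m * Q) ^ 20 := by ring
    have h9 : (10 ^ 19 * ((m : ℝ) * Q) ^ 10) ^ 2 = 10 ^ 38 * (m * Q) ^ 20 := by ring
    have h10 : (0 : ℝ) ≤ (m * Q) ^ 20 := by positivity
    rw [h9]
    nlinarith
  have h4 : 1280 * ((m : ℝ) * Q) * ∑ i ∈ Finset.range (II15 (m * Q)), 1 / (i : ℝ) ≤
      1280 * (m * Q) * (117 * L) :=
    mul_le_mul_of_nonneg_left (h2.trans hL2) (by positivity)
  have h5 : (m : ℝ) ≤ m * Q * L := by
    have h6 : (m : ℝ) * 1 ≤ m * (Q * L) := mul_le_mul_of_nonneg_left (by nlinarith) (by positivity)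
    linarith
  have h6 : (1 : ℝ) ≤ m * Q * L := by linarith
  nlinarith

/-- the gate condition at the chosen rational numbers -/
theorem gate15 {W : WS} (hW : W.Ok) {Q : ℕ} (hQ : 3 ≤ Q) {y : ℚ} (h0 : 3 / (4 * (Q : ℝ)) ≤ y)
    (h1 : (y : ℝ) ≤ 1 - 3 / (4 * Q)) (hden : y.den ≤ NN15 (W.m * Q)) {H u : ℝ} (hH : 0 < H)
    (hH1 : H ≤ 1) (hu : 0 < u) (hu' : u ≤ H / 2 ^ II15 (W.m * Q)) :
    cOf ((u : ℂ) + 2 * Real.pi * (W.dat y).tm * I) ∈ W.Gt y (6 / (2000 * W.m * (Q : ℝ) ^ 2)) ∧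
    cOf ((u : ℂ) + 2 * Real.pi * (W.dat y).tp * I) ∈ W.Gt y (6 / (2000 * W.m * (Q : ℝ) ^ 2)) := by
  have hm := mpos15 hW
  have hm1 : (1 : ℝ) ≤ W.m := by exact_mod_cast hm
  have hQ3 : (3 : ℝ) ≤ Q := by exact_mod_cast hQ
  have hq : 0 < 3 / (4 * (Q : ℝ)) := by positivity
  have hy0 : 0 < y := by
    have : (0 : ℝ) < y := by linarith
    exact_mod_cast this
  have hy1 : y < 1 := by
    have : (y : ℝ) < 1 := by linarith
    exact_mod_cast this
  have hs : (0 : ℝ) < 6 / (2000 * W.m * (Q : ℝ) ^ 2) := by positivity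
  have hsG : 6 / (2000 * W.m * (Q : ℝ) ^ 2) ≤ sG (W.dat y) := by
    unfold sG gR
    rw [WS.dat_m hW hy0 hy1, WS.dat_x hW hy0 hy1]
    have h2 : 3 / (4 * (Q : ℝ)) ≤ min (y : ℝ) (1 - y) := le_min h0 (by linarith)
    have h3 : (3 / (4 * (Q : ℝ))) ^ 2 ≤ (min (y : ℝ) (1 - y)) ^ 2 :=
      pow_le_pow_left₀ hq.le h2 2
    have h4 : 6 / (2000 * W.m * (Q : ℝ) ^ 2) ≤ 1 / 4 * (3 / (4 * (Q : ℝ))) ^ 2 / W.m / 8 := by
      have e : 1 / 4 * (3 / (4 * (Q : ℝ))) ^ 2 / W.m / 8 = (9 / 512) / (W.m * (Q : ℝ) ^ 2) := by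
        field_simp
        norm_num
      have e2 : 6 / (2000 * W.m * (Q : ℝ) ^ 2) = (6 / 2000) / (W.m * (Q : ℝ) ^ 2) := by
        field_simp
      rw [e, e2]
      exact div_le_div_of_nonneg_right (by norm_num) (by positivity)
    refine h4.trans ?_
    gcongr
  have hbig : 130000 * ((W.dat y).m : ℝ) ^ 3 * (W.dat y).x.den ≤
      (6 / (2000 * W.m * (Q : ℝ) ^ 2)) ^ 4 * (-Real.log u) := by
    rw [WS.dat_m hW hy0 hy1, WS.dat_x hW hy0 hy1]
    have h2 : 0.69 * (II15 (W.m * Q) : ℝ) ≤ -Real.log u := by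
      have h3 := Real.log_le_log hu hu'
      rw [Real.log_div hH.ne' (by positivity), Real.log_pow] at h3
      have h4 : Real.log H ≤ 0 := Real.log_nonpos hH.le hH1
      have h5 := Real.log_two_gt_d9
      have h6 : (0 : ℝ) ≤ II15 (W.m * Q) := by positivity
      nlinarith
    have h3 : ((y.den : ℕ) : ℝ) ≤ NN15 (W.m * Q) := by exact_mod_cast hden
    have h4 : 130000 * (W.m : ℝ) ^ 3 * (NN15 (W.m * Q) : ℝ) ≤
        (6 / (2000 * W.m * (Q : ℝ) ^ 2)) ^ 4 * (0.69 * (II15 (W.m * Q) : ℝ)) := by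
      rw [NN15_cast, II15_cast]
      rw [div_pow, div_mul_eq_mul_div, le_div_iff₀ (by positivity)]
      have e1 : 130000 * (W.m : ℝ) ^ 3 * (10 ^ 19 * (W.m * Q) ^ 10) * (2000 * W.m * (Q : ℝ) ^ 2) ^ 4 =
          (130000 * 10 ^ 19 * 2000 ^ 4) * ((W.m : ℝ) ^ 17 * (Q : ℝ) ^ 18) := by ring
      have e2 : (6 : ℝ) ^ 4 * (0.69 * (10 ^ 35 * (W.m * Q) ^ 18)) =
          (6 ^ 4 * 0.69 * 10 ^ 35) * ((W.m : ℝ) ^ 17 * (Q : ℝ) ^ 18 * W.m) := by ring
      rw [e1, e2]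
      have h5 : (0 : ℝ) ≤ (W.m : ℝ) ^ 17 * (Q : ℝ) ^ 18 := by positivity
      have h6 : (W.m : ℝ) ^ 17 * (Q : ℝ) ^ 18 ≤ (W.m : ℝ) ^ 17 * (Q : ℝ) ^ 18 * W.m := by
        nlinarith
      calc _ ≤ (6 ^ 4 * 0.69 * 10 ^ 35) * ((W.m : ℝ) ^ 17 * (Q : ℝ) ^ 18) := by
            refine mul_le_mul_of_nonneg_right ?_ h5
            norm_num
        _ ≤ _ := mul_le_mul_of_nonneg_left h6 (by norm_num)
    calc 130000 * (W.m : ℝ) ^ 3 * (y.den : ℝ) ≤ 130000 * (W.m : ℝ) ^ 3 * (NN15 (W.m * Q) : ℝ) := by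
          gcongr
      _ ≤ _ := h4
      _ ≤ _ := by gcongr
  have hr := n2_ray (W.dat y) (WS.dat_par hW hy0 hy1) (WS.dat_cir hW hy0 hy1)
    (6 / (2000 * W.m * (Q : ℝ) ^ 2)) u hs hsG hu hbig
  have himg : (W.dat y).c '' closedBall (W.dat y).a (6 / (2000 * W.m * (Q : ℝ) ^ 2)) =
      W.Gt y (6 / (2000 * W.m * (Q : ℝ) ^ 2)) := by
    unfold WS.Gt
    rw [WS.dat_a hW hy0 hy1]
    exact image_congr fun L _ => WS.dat_c hW hy0 hy1 L
  rw [himg] at hr
  exact hr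

theorem nu_tmp15 {W : WS} (hW : W.Ok) {y : ℚ} (h0 : 0 < y) (h1 : y < 1) :
    W.nu (W.dat y).tm = y ∧ W.nu (W.dat y).tp = y := by
  have hlt := (WS.dat_cir hW h0 h1).lt
  exact ⟨(WS.plateau hW h0 h1 _).2 ⟨le_rfl, hlt.le⟩, (WS.plateau hW h0 h1 _).2 ⟨hlt.le, le_rfl⟩⟩

/-- one side -/
theorem side15 (hA : Q_average) (hc : Q_count) {W : WS} (hW : W.Ok) {Q : ℕ} (hQ : 3 ≤ Q)
    {a b α β : ℝ} (hab : b - a = 1 / (8 * Q)) (h0 : 3 / (4 * (Q : ℝ)) ≤ a)
    (h1 : b ≤ 1 - 3 / (4 * Q)) (hα : W.nu α ≤ a) (hβ : b ≤ W.nu β) (h2 : 0 < β - α)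
    (h3 : β - α ≤ 1) (τ : ℚ → ℝ)
    (hτ : ∀ y : ℚ, 0 < y → y < 1 → τ y = (W.dat y).tm ∨ τ y = (W.dat y).tp) :
    ∃ y : ℚ, a < y ∧ y < b ∧
      (∀ u : ℝ, 0 < u → u ≤ (β - α) / 2 ^ II15 (W.m * Q) →
        cOf ((u : ℂ) + 2 * Real.pi * τ y * I) ∈ W.Gt y (6 / (2000 * W.m * (Q : ℝ) ^ 2))) ∧
      diam (RaySeg (τ y) ((β - α) / 2 ^ II15 (W.m * Q)) (β - α)) ≤
        10 ^ 5 * √((W.m * Q * Real.log (2 * W.m * Q)) * fa α β) := by
  have hm := mpos15 hW
  have hm1 : (1 : ℝ) ≤ W.m := by exact_mod_cast hm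
  have hQ3 : (3 : ℝ) ≤ Q := by exact_mod_cast hQ
  have hq : 0 < 3 / (4 * (Q : ℝ)) := by positivity
  have h8 : 0 < 1 / (8 * (Q : ℝ)) := by positivity
  have hNN : (0 : ℝ) < NN15 (W.m * Q) := by
    rw [NN15_cast]
    positivity
  obtain ⟨X, hX1, hX2⟩ := hc.1 a b (NN15 (W.m * Q)) (by linarith) (by
    rw [hab, div_le_one (by positivity)]; nlinarith) (by
    rw [hab, NN15_cast]
    rw [div_pow, one_pow, div_mul_eq_mul_div, one_mul, le_div_iff₀ (by positivity)]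
    have h5 : (1 : ℝ) ≤ W.m * Q := by nlinarith
    have h6 : (Q : ℝ) ≤ W.m * Q := by nlinarith
    have h7 : (Q : ℝ) ^ 2 ≤ (W.m * Q) ^ 2 := pow_le_pow_left₀ (by positivity) h6 2
    have h9 : ((W.m : ℝ) * Q) ^ 2 ≤ (W.m * Q) ^ 10 := pow_le_pow_right₀ h5 (by norm_num)
    nlinarith)
  have hy0 : ∀ y ∈ X, 0 < y := by
    intro y hy
    have : (0 : ℝ) < y := by linarith [(hX1 y hy).1]
    exact_mod_cast this
  have hy1 : ∀ y ∈ X, y < 1 := by
    intro y hy
    have : (y : ℝ) < 1 := by linarith [(hX1 y hy).2.1]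
    exact_mod_cast this
  have hnu : ∀ y ∈ X, W.nu (τ y) = y := by
    intro y hy
    obtain ⟨h5, h6⟩ := nu_tmp15 hW (hy0 y hy) (hy1 y hy)
    rcases hτ y (hy0 y hy) (hy1 y hy) with h | h <;> rw [h] <;> assumption
  have hcard : (NN15 (W.m * Q) : ℝ) ^ 2 / (160 * Q) ≤ X.card := by
    refine le_trans (le_of_eq ?_) hX2
    rw [hab]
    field_simp
    norm_num
  have hcpos : (0 : ℝ) < X.card := lt_of_lt_of_le (by positivity) hcard
  have hne : X.Nonempty := by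
    rw [← Finset.card_pos]
    exact_mod_cast hcpos
  have hin : ∀ x ∈ X, α ≤ τ x ∧ τ x ≤ α + (β - α) := by
    intro x hx
    obtain ⟨h5, h6, -⟩ := hX1 x hx
    constructor
    · by_contra hcon
      push Not at hcon
      have := W.nu_mono hcon.le
      rw [hnu x hx] at this
      linarith
    · by_contra hcon
      push Not at hcon
      have := W.nu_mono (show β ≤ τ x by linarith)
      rw [hnu x hx] at this
      linarith
  obtain ⟨y, hyX, hy⟩ := hA ℚ X τ α (β - α) (II15 (W.m * Q)) (MI15 W.m Q) hne h2 h3 hin (by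
    intro i _
    refine ⟨MI15_nonneg _ _ _, fun a' => ?_⟩
    unfold MI15
    split_ifs with hi
    · rw [one_mul]
      exact_mod_cast Finset.card_filter_le _ _
    · push Not at hi
      have h5 := count15 hc (W := W) (X := X) (fun x hx => (hX1 x hx).2.2) hnu (a := a')
        (l := (β - α) / 2 ^ i) (by positivity)
      have h6 := modl15 hW h2 h3 hi a'
      refine h5.trans ?_
      have h7 : 160 * (Q : ℝ) * (8 * W.m / i + 1 / (NN15 (W.m * Q) : ℝ) ^ 2) *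
          ((NN15 (W.m * Q) : ℝ) ^ 2 / (160 * Q)) =
          8 * W.m / i * (NN15 (W.m * Q) : ℝ) ^ 2 + 1 := by
        have hi0 : (i : ℝ) ≠ 0 := by
          have : 0 < i := lt_of_lt_of_le hm hi
          positivity
        field_simp
      have h9 : (0 : ℝ) ≤ 160 * (Q : ℝ) * (8 * W.m / i + 1 / (NN15 (W.m * Q) : ℝ) ^ 2) := by
        positivity
      have h10 := mul_le_mul_of_nonneg_left hcard h9
      rw [h7] at h10
      have h11 := mul_le_mul_of_nonneg_right h6 (show (0 : ℝ) ≤ (NN15 (W.m * Q) : ℝ) ^ 2 by positivity)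
      linarith)
  have hβα : α + (β - α) = β := by ring
  rw [hβα] at hy
  refine ⟨y, (hX1 y hyX).1, (hX1 y hyX).2.1, ?_, ?_⟩
  · intro u hu hu'
    have h5 := gate15 hW hQ (y := y) (by linarith [(hX1 y hyX).1]) (by linarith [(hX1 y hyX).2.1])
      (hX1 y hyX).2.2 h2 h3 hu hu'
    rcases hτ y (hy0 y hyX) (hy1 y hyX) with h | h
    · rw [h]; exact h5.1
    · rw [h]; exact h5.2
  · refine hy.trans ?_
    have hfa : 0 ≤ fa α β := ENNReal.toReal_nonneg
    have h5 := sum15 hm hQ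
    have h6 : (∑ i ∈ Finset.range (II15 (W.m * Q)), MI15 W.m Q i) * fa α β ≤
        500 ^ 2 * ((W.m * Q * Real.log (2 * W.m * Q)) * fa α β) := by
      have := mul_le_mul_of_nonneg_right h5 hfa
      refine this.trans (le_of_eq ?_)
      ring
    calc 200 * √((∑ i ∈ Finset.range (II15 (W.m * Q)), MI15 W.m Q i) * fa α β)
        ≤ 200 * √(500 ^ 2 * ((W.m * Q * Real.log (2 * W.m * Q)) * fa α β)) := by gcongr
      _ = 200 * (500 * √((W.m * Q * Real.log (2 * W.m * Q)) * fa α β)) := by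
          rw [Real.sqrt_mul (by norm_num), Real.sqrt_sq (by norm_num)]
      _ = _ := by ring

/-- **R5** -/
theorem q_ray_explicit (hA : Q_average) (hc : Q_count) : Q_ray (10 ^ 5) := by
  intro W hW x hx0 hx1 hQ
  have hm := mpos15 hW
  have hQ3 : (3 : ℝ) ≤ x.den := by exact_mod_cast hQ
  have hQ0 : (0 : ℝ) < x.den := by linarith
  have hxR : (x : ℝ) = x.num / x.den := Rat.cast_def x
  have hx0' : (0 : ℝ) < x := by exact_mod_cast hx0
  have hx1' : (x : ℝ) < 1 := by exact_mod_cast hx1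
  have hlo : 1 / (x.den : ℝ) ≤ x := by
    rw [hxR]
    have h1 : 0 < x.num := Rat.num_pos.2 hx0
    have h2 : (1 : ℝ) ≤ x.num := by exact_mod_cast h1
    gcongr
  have hhi : (x : ℝ) ≤ 1 - 1 / x.den := by
    rw [hxR]
    have h1 : (x.num : ℝ) < x.den := by
      rw [hxR, div_lt_one hQ0] at hx1'
      exact hx1'
    have h2 : x.num + 1 ≤ x.den := by
      have : x.num < x.den := by exact_mod_cast h1
      omega
    have h3 : (x.num : ℝ) + 1 ≤ x.den := by exact_mod_cast h2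
    rw [le_sub_iff_add_le, ← add_div, div_le_one hQ0]
    exact h3
  obtain ⟨q, hq⟩ : ∃ q : ℝ, q = 1 / (x.den : ℝ) := ⟨_, rfl⟩
  have hqpos : 0 < q := by rw [hq]; positivity
  have e4 : 1 / (4 * (x.den : ℝ)) = q / 4 := by rw [hq]; field_simp
  have e8 : 1 / (8 * (x.den : ℝ)) = q / 8 := by rw [hq]; field_simp
  have e34 : 3 / (4 * (x.den : ℝ)) = 3 * q / 4 := by rw [hq]; field_simp
  rw [← hq] at hlo hhi
  -- the two end points
  have cl : ((x - 1 / (4 * x.den) : ℚ) : ℝ) = x - q / 4 := by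
    rw [← e4]; push_cast; ring
  have cr : ((x + 1 / (4 * x.den) : ℚ) : ℝ) = x + q / 4 := by
    rw [← e4]; push_cast; ring
  have hl0 : 0 < x - 1 / (4 * x.den) := by
    have : (0 : ℝ) < ((x - 1 / (4 * x.den) : ℚ) : ℝ) := by rw [cl]; linarith
    exact_mod_cast this
  have hl1 : x - 1 / (4 * x.den) < 1 := by
    have : ((x - 1 / (4 * x.den) : ℚ) : ℝ) < 1 := by rw [cl]; linarith
    exact_mod_cast this
  have hr0 : 0 < x + 1 / (4 * x.den) := by
    have : (0 : ℝ) < ((x + 1 / (4 * x.den) : ℚ) : ℝ) := by rw [cr]; linarith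
    exact_mod_cast this
  have hr1 : x + 1 / (4 * x.den) < 1 := by
    have : ((x + 1 / (4 * x.den) : ℚ) : ℝ) < 1 := by rw [cr]; linarith
    exact_mod_cast this
  have hnl : W.nu (W.al x) = x - q / 4 := by
    rw [← cl]; exact (nu_tmp15 hW hl0 hl1).1
  have hnr : W.nu (W.be x) = x + q / 4 := by
    rw [← cr]; exact (nu_tmp15 hW hr0 hr1).2
  obtain ⟨α, hα⟩ : ∃ α, α = W.al x := ⟨_, rfl⟩
  obtain ⟨β, hβ⟩ : ∃ β, β = W.be x := ⟨_, rfl⟩
  rw [← hα] at hnl ⊢
  rw [← hβ] at hnr ⊢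
  have hpos : 0 < β - α := by
    by_contra hcon
    push Not at hcon
    have := W.nu_mono (show β ≤ α by linarith)
    rw [hnl, hnr] at this
    linarith
  have hle : β - α ≤ 1 := by
    refine strip15 hm hW.wide.bits (k := W.k) ?_ ?_
    · have h : Circ.nu W.w W.m α - W.k = x - q / 4 := hnl
      linarith
    · have h : Circ.nu W.w W.m β - W.k = x + q / 4 := hnr
      linarith
  obtain ⟨x₁, h1, h2, h3, h4⟩ := side15 hA hc hW hQ (a := x - q / 4) (b := x - q / 8)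
    (by rw [e8]; ring) (by rw [e34]; linarith) (by rw [e34]; linarith) hnl.le
    (by rw [hnr]; linarith) hpos hle (fun y => (W.dat y).tm) (fun y _ _ => Or.inl rfl)
  obtain ⟨x₂, h5, h6, h7, h8⟩ := side15 hA hc hW hQ (a := x + q / 8) (b := x + q / 4)
    (by rw [e8]; ring) (by rw [e34]; linarith) (by rw [e34]; linarith)
    (by rw [hnl]; linarith) hnr.ge hpos hle (fun y => (W.dat y).tp) (fun y _ _ => Or.inr rfl)
  refine ⟨x₁, x₂, (β - α) / 2 ^ II15 (W.m * x.den), ?_, ?_, ?_, ?_, by positivity, ?_, h3, h7, h4, h8⟩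
  · have : ((x - 1 / (4 * x.den) : ℚ) : ℝ) ≤ x₁ := by rw [cl]; exact h1.le
    exact_mod_cast this
  · have : (x₁ : ℝ) < x := by linarith
    exact_mod_cast this
  · have : (x : ℝ) < x₂ := by linarith
    exact_mod_cast this
  · have : (x₂ : ℝ) ≤ ((x + 1 / (4 * x.den) : ℚ) : ℝ) := by rw [cr]; exact h6.le
    exact_mod_cast this
  · exact div_le_self hpos.le (one_le_pow₀ (by norm_num))

/-- **R5** -/
theorem q_ray (hA : Q_average) (hc : Q_count) : ∃ C, Q_ray C := ⟨10 ^ 5, q_ray_explicit hA hc⟩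

end Pool.Agent.Work.MLC.Cnt
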