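import Pool.Agent.Work.MLC.Cap26
import Pool.Agent.Work.MLC.CntQ15

set_option autoImplicit false

/-! # Theorem Cap: the rays of a cut (helper15) -/

namespace Pool.Agent.Work.MLC.Cap

open Filter Topology Metric Set Complex MeasureTheory
open Pool.Agent.Work.MLC.Sat Pool.Agent.Work.MLC.Cnt
open scoped ENNReal

/-! ### plateaus -/

/-- lower bound of the length of a plateau -/
theorem plat15 {W : WS} (hW : W.Ok) {r : ℚ} (h0 : 0 < r) (h1 : r < 1) :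
    1 < (2 : ℝ) ^ (W.m * r.den) * ((W.dat r).tp - (W.dat r).tm) := by
  have hC := WS.dat_cir hW h0 h1
  have hm := mpos15 hW
  obtain ⟨-, ⟨k, hk⟩, -⟩ := hC.per
  obtain ⟨j, l, hjl⟩ := hC.orb
  have hlt := hC.lt
  rw [WS.dat_m hW h0 h1, WS.dat_x hW h0 h1] at hk
  rw [WS.dat_m hW h0 h1] at hjl
  have hP : (1 : ℝ) < 2 ^ (W.m * r.den) :=
    one_lt_pow₀ (by norm_num) (Nat.mul_pos hm r.den_pos).ne'
  have hz : ((2 : ℝ) ^ (W.m * r.den) - 1) * ((W.dat r).tp - (W.dat r).tm) =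
      ((2 ^ (W.m * j) * k + (2 ^ (W.m * r.den) - 1) * l - k : ℤ) : ℝ) := by
    push_cast
    rw [← hk, hjl]
    ring
  have hpos : 0 < ((2 : ℝ) ^ (W.m * r.den) - 1) * ((W.dat r).tp - (W.dat r).tm) :=
    mul_pos (by linarith) (by linarith)
  have h1' : (1 : ℝ) ≤ ((2 : ℝ) ^ (W.m * r.den) - 1) * ((W.dat r).tp - (W.dat r).tm) := by
    rw [hz] at hpos ⊢
    have : 0 < 2 ^ (W.m * j) * k + (2 ^ (W.m * r.den) - 1) * l - k := by exact_mod_cast hpos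
    exact_mod_cast this
  nlinarith

/-- rationals between two angles of a window have large denominators -/
theorem sep15 {W : WS} (hW : W.Ok) {τ : ℚ → ℝ} {s s' r : ℚ} (hs : W.nu (τ s) = s)
    (hs' : W.nu (τ s') = s') (h0 : 0 < r) (h1 : r < 1) (h2 : s < r) (h3 : r < s') {a l : ℝ}
    (ha : a ≤ τ s) (ha' : τ s' ≤ a + l) : 1 < (2 : ℝ) ^ (W.m * r.den) * l := by
  obtain ⟨h4, h5⟩ := nu_tmp15 hW h0 h1
  have h2' : (s : ℝ) < r := by exact_mod_cast h2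
  have h3' : (r : ℝ) < s' := by exact_mod_cast h3
  have h6 : τ s < (W.dat r).tm := by
    by_contra hcon
    push Not at hcon
    have := W.nu_mono hcon
    rw [h4, hs] at this
    linarith
  have h7 : (W.dat r).tp < τ s' := by
    by_contra hcon
    push Not at hcon
    have := W.nu_mono hcon
    rw [h5, hs'] at this
    linarith
  have h8 := plat15 hW h0 h1
  have h9 : (0 : ℝ) < 2 ^ (W.m * r.den) := by positivity
  nlinarith

theorem logb15 {l : ℝ} (hl : 0 < l) {M : ℕ} (h : 1 < (2 : ℝ) ^ M * l) :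
    Real.logb 2 (1 / l) < M := by
  rw [Real.logb_lt_iff_lt_rpow (by norm_num) (by positivity), Real.rpow_natCast,
    div_lt_iff₀ hl]
  exact h

/-- the logarithm of the scale -/
noncomputable def LL (H : ℝ) (i : ℕ) : ℝ := Real.logb 2 (1 / (H / 2 ^ i))

theorem LL_eq {H : ℝ} (hH : 0 < H) (i : ℕ) : LL H i = i + Real.logb 2 (1 / H) := by
  unfold LL
  have h1 : 1 / (H / 2 ^ i) = 2 ^ i * (1 / H) := by field_simp
  rw [h1, Real.logb_mul (by positivity) (by positivity), Real.logb_pow,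
    Real.logb_self_eq_one (by norm_num)]
  ring

theorem logb_nonneg15 {H : ℝ} (hH : 0 < H) (hH1 : H ≤ 1) : 0 ≤ Real.logb 2 (1 / H) :=
  Real.logb_nonneg (by norm_num) (by rw [le_div_iff₀ hH]; linarith)

/-! ### masses -/

theorem three15 : (3 : ℝ) ^ (5 / 4 : ℝ) ≤ 4 := by
  have h1 : ((3 : ℝ) ^ (5 / 4 : ℝ)) ^ 4 ≤ (4 : ℝ) ^ 4 := by
    rw [← Real.rpow_natCast ((3 : ℝ) ^ (5 / 4 : ℝ)) 4, ← Real.rpow_mul (by norm_num)]
    have e : (5 / 4 : ℝ) * ((4 : ℕ) : ℝ) = ((5 : ℕ) : ℝ) := by norm_num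
    rw [e, Real.rpow_natCast]
    norm_num
  exact (pow_le_pow_iff_left₀ (by positivity) (by norm_num) (by norm_num)).1 h1

theorem quarter15 {ξ : ℝ} (hξ : 1 ≤ ξ) {k : ℕ} (hk : ξ < 3 ^ (k + 1)) :
    (1 / 4 : ℝ) ^ k ≤ 4 * ξ ^ (-(5 / 4) : ℝ) := by
  have h1 : (1 / 4 : ℝ) ^ (k + 1) ≤ ((3 : ℝ) ^ (k + 1)) ^ (-(5 / 4) : ℝ) := by
    rw [Real.rpow_neg (by positivity), ← Real.rpow_natCast 3 (k + 1), ← Real.rpow_mul (by norm_num),
      mul_comm, Real.rpow_mul (by norm_num), Real.rpow_natCast, one_div, inv_pow]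
    gcongr
    exact three15
  have h2 : ((3 : ℝ) ^ (k + 1)) ^ (-(5 / 4) : ℝ) ≤ ξ ^ (-(5 / 4) : ℝ) :=
    Real.rpow_le_rpow_of_nonpos (by linarith) hk.le (by norm_num)
  have h3 : (1 / 4 : ℝ) ^ k = 4 * (1 / 4) ^ (k + 1) := by rw [pow_succ]; ring
  rw [h3]
  linarith

/-- the masses of the windows -/
noncomputable def MC (n : ℕ) (N H : ℝ) (i : ℕ) : ℝ :=
  4 * (max 1 (LL H i / N)) ^ (-(5 / 4) : ℝ) + (1 / 4) ^ n

theorem MC_nonneg (n : ℕ) (N H : ℝ) (i : ℕ) : 0 ≤ MC n N H i := by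
  unfold MC
  positivity

/-- counting of the leaves in a window -/
theorem cnt15 {W : WS} (hW : W.Ok) {n N₀ : ℕ} (hN₀ : 0 < N₀) {N : ℝ} (hN : (W.m : ℝ) * N₀ ≤ N)
    {X : Finset ℚ} (hcard : X.card = 4 ^ n)
    (hX : ∀ (k : ℕ) (Z : ℝ), k ≤ n → (3 : ℝ) ^ k * N₀ ≤ Z → ∀ S ⊆ X,
      (∀ s ∈ S, ∀ s' ∈ S, ∀ y : ℚ, s < y → y < s' → Z < y.den) → S.card ≤ 4 ^ (n - k))
    (h0 : ∀ x ∈ X, 0 < x ∧ x < 1) {τ : ℚ → ℝ} (hτ : ∀ x ∈ X, W.nu (τ x) = x)
    {H : ℝ} (hH : 0 < H) (i : ℕ) (a : ℝ) :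
    ((X.filter fun x => a ≤ τ x ∧ τ x ≤ a + H / 2 ^ i).card : ℝ) ≤ MC n N H i * X.card := by
  have hm := mpos15 hW
  have hmR : (0 : ℝ) < W.m := by exact_mod_cast hm
  have hN0R : (0 : ℝ) < N₀ := by exact_mod_cast hN₀
  have hNpos : 0 < N := lt_of_lt_of_le (by positivity) hN
  have hq0 : (0 : ℝ) ≤ (1 / 4) ^ n := by positivity
  have hl : 0 < H / 2 ^ i := by positivity
  have hsub : (X.filter fun x => a ≤ τ x ∧ τ x ≤ a + H / 2 ^ i) ⊆ X := Finset.filter_subset _ _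
  obtain ⟨S, hS⟩ : ∃ S, S = X.filter fun x => a ≤ τ x ∧ τ x ≤ a + H / 2 ^ i := ⟨_, rfl⟩
  rw [← hS] at hsub ⊢
  have hsep : ∀ s ∈ S, ∀ s' ∈ S, ∀ y : ℚ, s < y → y < s' → LL H i / W.m < y.den := by
    intro s hs s' hs' y hy hy'
    rw [hS, Finset.mem_filter] at hs hs'
    obtain ⟨hs1, hs2, hs3⟩ := hs
    obtain ⟨hs1', hs2', hs3'⟩ := hs'
    have h1 := sep15 hW (hτ s hs1) (hτ s' hs1') ((h0 s hs1).1.trans hy) (hy'.trans (h0 s' hs1').2)
      hy hy' hs2 hs3'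
    have h2 := logb15 hl h1
    rw [div_lt_iff₀ hmR]
    unfold LL
    push_cast at h2
    linarith
  rcases lt_or_ge (LL H i / N) 1 with h1 | h1
  · have h2 : MC n N H i = 4 + (1 / 4) ^ n := by
      unfold MC
      rw [max_eq_left h1.le, Real.one_rpow, mul_one]
    have h3 : (S.card : ℝ) ≤ X.card := by exact_mod_cast Finset.card_le_card hsub
    rw [h2]
    have h4 : (0 : ℝ) ≤ X.card := by positivity
    nlinarith
  · have hLN : N ≤ LL H i := by rwa [le_div_iff₀ hNpos, one_mul] at h1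
    obtain ⟨ξ, hξ⟩ : ∃ ξ : ℝ, ξ = LL H i / (W.m * N₀) := ⟨_, rfl⟩
    have hξ1 : 1 ≤ ξ := by
      rw [hξ, le_div_iff₀ (by positivity)]; linarith
    have hξN : LL H i / N ≤ ξ := by
      rw [hξ]
      exact div_le_div_of_nonneg_left (by linarith) (by positivity) hN
    have hfl : ⌊ξ⌋₊ ≠ 0 := by
      have : 1 ≤ ⌊ξ⌋₊ := Nat.le_floor (by exact_mod_cast hξ1)
      omega
    obtain ⟨k, hk⟩ : ∃ k, k = Nat.log 3 ⌊ξ⌋₊ := ⟨_, rfl⟩
    have hk1 : (3 : ℝ) ^ k ≤ ξ := by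
      have h2 : 3 ^ k ≤ ⌊ξ⌋₊ := by rw [hk]; exact Nat.pow_log_le_self 3 hfl
      have h3 : ((3 ^ k : ℕ) : ℝ) ≤ (⌊ξ⌋₊ : ℝ) := by exact_mod_cast h2
      have h4 := Nat.floor_le (show 0 ≤ ξ by linarith)
      push_cast at h3
      linarith
    have hk2 : ξ < 3 ^ (k + 1) := by
      have h2 : ⌊ξ⌋₊ < 3 ^ (k + 1) := by rw [hk]; exact Nat.lt_pow_succ_log_self (by norm_num) _
      have h3 : ((⌊ξ⌋₊ + 1 : ℕ) : ℝ) ≤ ((3 ^ (k + 1) : ℕ) : ℝ) := by exact_mod_cast h2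
      have h4 := Nat.lt_floor_add_one ξ
      push_cast at h3
      linarith
    have hZ : ∀ j : ℕ, (3 : ℝ) ^ j ≤ ξ → (3 : ℝ) ^ j * N₀ ≤ LL H i / W.m := by
      intro j hj
      rw [le_div_iff₀ hmR]
      rw [hξ, le_div_iff₀ (by positivity)] at hj
      linarith
    rcases le_or_gt k n with hkn | hkn
    · have h2 := hX k _ hkn (hZ k hk1) S hsub hsep
      have h3 : (S.card : ℝ) ≤ (4 : ℝ) ^ (n - k) := by exact_mod_cast h2
      have h4 : (4 : ℝ) ^ (n - k) = (1 / 4) ^ k * 4 ^ n := by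
        rw [pow_sub₀ _ (by norm_num) hkn, one_div, inv_pow]
        ring
      have h5 := quarter15 hξ1 hk2
      have h6 : ξ ^ (-(5 / 4) : ℝ) ≤ (LL H i / N) ^ (-(5 / 4) : ℝ) :=
        Real.rpow_le_rpow_of_nonpos (by linarith) hξN (by norm_num)
      have h7 : MC n N H i = 4 * (LL H i / N) ^ (-(5 / 4) : ℝ) + (1 / 4) ^ n := by
        unfold MC
        rw [max_eq_right h1]
      rw [h7, hcard]
      push_cast
      have h8 : (0 : ℝ) < 4 ^ n := by positivity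
      calc (S.card : ℝ) ≤ (1 / 4) ^ k * 4 ^ n := by rw [← h4]; exact h3
        _ ≤ _ := by
            refine mul_le_mul_of_nonneg_right ?_ h8.le
            linarith
    · have h2 := hX n _ le_rfl (hZ n ((pow_le_pow_right₀ (by norm_num) hkn.le).trans hk1)) S
        hsub hsep
      rw [Nat.sub_self, pow_zero] at h2
      have h3 : (S.card : ℝ) ≤ 1 := by exact_mod_cast h2
      have h4 : (1 / 4 : ℝ) ^ n ≤ MC n N H i := by
        unfold MC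
        have : (0 : ℝ) ≤ 4 * (max 1 (LL H i / N)) ^ (-(5 / 4) : ℝ) := by positivity
        linarith
      have h5 : (1 / 4 : ℝ) ^ n * 4 ^ n = 1 := by
        rw [← mul_pow]; norm_num
      rw [hcard]
      push_cast
      have h8 : (0 : ℝ) < 4 ^ n := by positivity
      nlinarith

/-! ### sums -/

theorem step15 {N : ℕ} (hN : 0 < N) {J : ℕ} (hJ : N ≤ J) :
    (((J + 1 : ℕ) : ℝ) / N) ^ (-(9 / 8) : ℝ) ≤
      8 * N * (((J : ℝ) / N) ^ (-(1 / 8) : ℝ) - (((J + 1 : ℕ) : ℝ) / N) ^ (-(1 / 8) : ℝ)) := by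
  have hNR : (0 : ℝ) < N := by exact_mod_cast hN
  have hJR : (N : ℝ) ≤ J := by exact_mod_cast hJ
  obtain ⟨a, ha⟩ : ∃ a : ℝ, a = (J : ℝ) / N := ⟨_, rfl⟩
  obtain ⟨b, hb⟩ : ∃ b : ℝ, b = ((J + 1 : ℕ) : ℝ) / N := ⟨_, rfl⟩
  rw [← ha, ← hb]
  have ha1 : 1 ≤ a := by rw [ha, le_div_iff₀ hNR]; linarith
  have hba : N * (b - a) = 1 := by
    rw [ha, hb]; push_cast; field_simp; ring
  have hab : a ≤ b := by
    have : 0 < b - a := by
      by_contra hcon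
      push Not at hcon
      have := mul_nonpos_of_nonneg_of_nonpos hNR.le hcon
      linarith
    linarith
  have ha0 : 0 < a := by linarith
  have hb0 : 0 < b := by linarith
  obtain ⟨A, hA⟩ : ∃ A : ℝ, A = a ^ (-(1 / 8) : ℝ) := ⟨_, rfl⟩
  obtain ⟨B, hB⟩ : ∃ B : ℝ, B = b ^ (-(1 / 8) : ℝ) := ⟨_, rfl⟩
  rw [← hA, ← hB]
  have hA0 : 0 < A := by rw [hA]; positivity
  have hB0 : 0 < B := by rw [hB]; positivity
  have hBA : B ≤ A := by
    rw [hA, hB]; exact Real.rpow_le_rpow_of_nonpos ha0 hab (by norm_num)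
  have hA8 : a * A ^ 8 = 1 := by
    rw [hA, ← Real.rpow_natCast (a ^ (-(1 / 8) : ℝ)) 8, ← Real.rpow_mul ha0.le]
    have e : (-(1 / 8) : ℝ) * ((8 : ℕ) : ℝ) = -1 := by norm_num
    rw [e, Real.rpow_neg_one]
    exact mul_inv_cancel₀ ha0.ne'
  have hB8 : b * B ^ 8 = 1 := by
    rw [hB, ← Real.rpow_natCast (b ^ (-(1 / 8) : ℝ)) 8, ← Real.rpow_mul hb0.le]
    have e : (-(1 / 8) : ℝ) * ((8 : ℕ) : ℝ) = -1 := by norm_num
    rw [e, Real.rpow_neg_one]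
    exact mul_inv_cancel₀ hb0.ne'
  have hB9 : b ^ (-(9 / 8) : ℝ) = B ^ 9 := by
    rw [hB, ← Real.rpow_natCast (b ^ (-(1 / 8) : ℝ)) 9, ← Real.rpow_mul hb0.le]
    norm_num
  rw [hB9]
  -- `B ^ 9 = N (B - a B ^ 9)`
  have h1 : B ^ 9 = N * (B - a * B ^ 9) := by
    have : B ^ 9 = N * (b - a) * B ^ 9 := by rw [hba, one_mul]
    calc B ^ 9 = N * (b - a) * B ^ 9 := this
      _ = N * (B * (b * B ^ 8) - a * B ^ 9) := by ring
      _ = _ := by rw [hB8, mul_one]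
  obtain ⟨r, hr⟩ : ∃ r : ℝ, r = B / A := ⟨_, rfl⟩
  have hr0 : 0 < r := by rw [hr]; positivity
  have hr1 : r ≤ 1 := by rw [hr, div_le_one hA0]; exact hBA
  have hBr : B = r * A := by rw [hr]; field_simp
  have h2 : a * B ^ 9 = r ^ 9 * A := by
    rw [hBr]
    calc a * (r * A) ^ 9 = r ^ 9 * A * (a * A ^ 8) := by ring
      _ = _ := by rw [hA8, mul_one]
  have h3 := one_add_mul_le_pow (show (-2 : ℝ) ≤ r - 1 by linarith) 8
  have h4 : 1 - r ^ 8 ≤ 8 * (1 - r) := by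
    have e : 1 + (r - 1) = r := by ring
    rw [e] at h3
    push_cast at h3
    linarith
  have h5 : 0 ≤ 1 - r ^ 8 := by
    have := pow_le_one₀ (n := 8) hr0.le hr1
    linarith
  have h6 : r - r ^ 9 ≤ 8 * (1 - r) := by
    have e : r - r ^ 9 = r * (1 - r ^ 8) := by ring
    rw [e]
    nlinarith
  have h7 : B - a * B ^ 9 ≤ 8 * (A - B) := by
    rw [h2, hBr]
    have := mul_le_mul_of_nonneg_right h6 hA0.le
    nlinarith
  rw [h1]
  have := mul_le_mul_of_nonneg_left h7 hNR.le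
  linarith

theorem fsum15 {N : ℕ} (hN : 0 < N) (J : ℕ) :
    ∑ i ∈ Finset.range J, (max 1 ((i : ℝ) / N)) ^ (-(9 / 8) : ℝ) ≤ 10 * N := by
  have hNR : (0 : ℝ) < N := by exact_mod_cast hN
  have hN1 : (1 : ℝ) ≤ N := by exact_mod_cast hN
  have key : ∀ J : ℕ, ∑ i ∈ Finset.range (J + 1), (max 1 ((i : ℝ) / N)) ^ (-(9 / 8) : ℝ) ≤
      (min J N : ℕ) + 1 + 8 * N - 8 * N * (max 1 ((J : ℝ) / N)) ^ (-(1 / 8) : ℝ) := by
    intro J
    induction J with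
    | zero => simp
    | succ J ih =>
      rw [Finset.sum_range_succ]
      rcases lt_or_ge J N with hJ | hJ
      · have h1 : max 1 (((J + 1 : ℕ) : ℝ) / N) = 1 := by
          apply max_eq_left
          rw [div_le_one hNR]
          exact_mod_cast hJ
        have h2 : max 1 ((J : ℝ) / N) = 1 := by
          apply max_eq_left
          rw [div_le_one hNR]
          exact_mod_cast hJ.le
        have h3 : min (J + 1) N = J + 1 := min_eq_left hJ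
        have h4 : min J N = J := min_eq_left hJ.le
        rw [h2, h4] at ih
        rw [h1, h3]
        simp only [Real.one_rpow] at ih ⊢
        push_cast
        linarith
      · have h1 : max 1 (((J + 1 : ℕ) : ℝ) / N) = ((J + 1 : ℕ) : ℝ) / N := by
          apply max_eq_right
          rw [le_div_iff₀ hNR, one_mul]
          exact_mod_cast (by omega : N ≤ J + 1)
        have h2 : max 1 ((J : ℝ) / N) = (J : ℝ) / N := by
          apply max_eq_right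
          rw [le_div_iff₀ hNR, one_mul]
          exact_mod_cast hJ
        have h3 : min (J + 1) N = N := min_eq_right (by omega)
        have h4 : min J N = N := min_eq_right hJ
        rw [h2, h4] at ih
        rw [h1, h3]
        have h5 := step15 hN hJ
        linarith
  have hmono : ∑ i ∈ Finset.range J, (max 1 ((i : ℝ) / N)) ^ (-(9 / 8) : ℝ) ≤
      ∑ i ∈ Finset.range (J + 1), (max 1 ((i : ℝ) / N)) ^ (-(9 / 8) : ℝ) := by
    rw [Finset.sum_range_succ]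
    have : (0 : ℝ) ≤ (max 1 ((J : ℝ) / N)) ^ (-(9 / 8) : ℝ) := by positivity
    linarith
  have h1 := key J
  have h2 : (0 : ℝ) ≤ 8 * N * (max 1 ((J : ℝ) / N)) ^ (-(1 / 8) : ℝ) := by positivity
  have h3 : ((min J N : ℕ) : ℝ) ≤ N := by exact_mod_cast min_le_right J N
  linarith

/-- the sum of the masses with the weights -/
theorem msum15 {N : ℕ} (hN : 0 < N) {H : ℝ} (hH : 0 < H) (hH1 : H ≤ 1) {n I : ℕ}
    (hn : (1 / 4 : ℝ) ^ n * I * (1 + I + Real.logb 2 (1 / H)) ^ (1 / 8 : ℝ) ≤ 1) :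
    ∑ i ∈ Finset.range I, MC n N H i * bet N (H / 2 ^ i) ≤ 41 * N := by
  have hNR : (0 : ℝ) < N := by exact_mod_cast hN
  have hN1 : (1 : ℝ) ≤ N := by exact_mod_cast hN
  have hΛ := logb_nonneg15 hH hH1
  have hterm : ∀ i ∈ Finset.range I, MC n N H i * bet N (H / 2 ^ i) ≤
      4 * (max 1 ((i : ℝ) / N)) ^ (-(9 / 8) : ℝ) +
        (1 / 4) ^ n * (1 + I + Real.logb 2 (1 / H)) ^ (1 / 8 : ℝ) := by
    intro i hi
    have hi' : (i : ℝ) ≤ I := by exact_mod_cast (Finset.mem_range.1 hi).le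
    obtain ⟨ζ, hζ⟩ : ∃ ζ : ℝ, ζ = max 1 (LL H i / N) := ⟨_, rfl⟩
    have hζ1 : 1 ≤ ζ := by rw [hζ]; exact le_max_left _ _
    have hζ0 : 0 < ζ := by linarith
    have hbet : bet N (H / 2 ^ i) = ζ ^ (1 / 8 : ℝ) := by
      unfold bet
      rw [hζ]
      rfl
    have hMC : MC n N H i = 4 * ζ ^ (-(5 / 4) : ℝ) + (1 / 4) ^ n := by
      unfold MC
      rw [hζ]
    have hprod : ζ ^ (-(5 / 4) : ℝ) * ζ ^ (1 / 8 : ℝ) = ζ ^ (-(9 / 8) : ℝ) := by
      rw [← Real.rpow_add hζ0]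
      norm_num
    have hLi := LL_eq hH i
    have h1 : max 1 ((i : ℝ) / N) ≤ ζ := by
      rw [hζ]
      refine max_le_max le_rfl ?_
      rw [hLi]
      exact div_le_div_of_nonneg_right (by linarith) hNR.le
    have h2 : ζ ^ (-(9 / 8) : ℝ) ≤ (max 1 ((i : ℝ) / N)) ^ (-(9 / 8) : ℝ) :=
      Real.rpow_le_rpow_of_nonpos (lt_of_lt_of_le one_pos (le_max_left _ _)) h1 (by norm_num)
    have h3 : ζ ≤ 1 + I + Real.logb 2 (1 / H) := by
      rw [hζ]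
      refine max_le (by have : (0 : ℝ) ≤ I := by positivity
                        linarith) ?_
      rw [hLi]
      refine (div_le_self (by positivity) hN1).trans ?_
      linarith
    have h4 : ζ ^ (1 / 8 : ℝ) ≤ (1 + I + Real.logb 2 (1 / H)) ^ (1 / 8 : ℝ) :=
      Real.rpow_le_rpow hζ0.le h3 (by norm_num)
    have h5 : (0 : ℝ) ≤ (1 / 4) ^ n := by positivity
    calc MC n N H i * bet N (H / 2 ^ i)
        = 4 * (ζ ^ (-(5 / 4) : ℝ) * ζ ^ (1 / 8 : ℝ)) + (1 / 4) ^ n * ζ ^ (1 / 8 : ℝ) := by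
          rw [hbet, hMC]; ring
      _ ≤ _ := by
          rw [hprod]
          have := mul_le_mul_of_nonneg_left h4 h5
          linarith
  refine (Finset.sum_le_sum hterm).trans ?_
  rw [Finset.sum_add_distrib, ← Finset.mul_sum, Finset.sum_const, Finset.card_range, nsmul_eq_mul]
  have h1 := fsum15 hN I
  have h2 : (I : ℝ) * ((1 / 4) ^ n * (1 + I + Real.logb 2 (1 / H)) ^ (1 / 8 : ℝ)) ≤ 1 := by
    refine le_trans (le_of_eq ?_) hn
    ring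
  linarith

/-! ### the number of generations -/

theorem three_eighth15 : (3 : ℝ) ^ (1 / 8 : ℝ) ≤ 6 / 5 := by
  have h1 : ((3 : ℝ) ^ (1 / 8 : ℝ)) ^ 8 ≤ (6 / 5 : ℝ) ^ 8 := by
    rw [← Real.rpow_natCast ((3 : ℝ) ^ (1 / 8 : ℝ)) 8, ← Real.rpow_mul (by norm_num)]
    have e : (1 / 8 : ℝ) * ((8 : ℕ) : ℝ) = 1 := by norm_num
    rw [e, Real.rpow_one]
    norm_num
  exact (pow_le_pow_iff_left₀ (by positivity) (by norm_num) (by norm_num)).1 h1

theorem exists_n15 {K Λ : ℝ} (hK : 0 < K) (hΛ : 0 ≤ Λ) :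
    ∃ n : ℕ, (1 / 4 : ℝ) ^ n * (K * 3 ^ n) * (1 + K * 3 ^ n + Λ) ^ (1 / 8 : ℝ) ≤ 1 := by
  obtain ⟨B, hB⟩ : ∃ B : ℝ, B = (1 + K + Λ) ^ (1 / 8 : ℝ) := ⟨_, rfl⟩
  have hB0 : 0 < B := by rw [hB]; positivity
  obtain ⟨n, hn⟩ := exists_pow_lt_of_lt_one (show (0 : ℝ) < 1 / (K * B) by positivity)
    (show (9 / 10 : ℝ) < 1 by norm_num)
  refine ⟨n, ?_⟩
  have h3 : (1 : ℝ) ≤ 3 ^ n := one_le_pow₀ (by norm_num)
  have h30 : (0 : ℝ) < 3 ^ n := by positivity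
  have h1 : 1 + K * 3 ^ n + Λ ≤ (1 + K + Λ) * 3 ^ n := by nlinarith
  have h2 : (1 + K * 3 ^ n + Λ) ^ (1 / 8 : ℝ) ≤ B * (6 / 5) ^ n := by
    have h4 : (1 + K * 3 ^ n + Λ) ^ (1 / 8 : ℝ) ≤ ((1 + K + Λ) * 3 ^ n) ^ (1 / 8 : ℝ) :=
      Real.rpow_le_rpow (by positivity) h1 (by norm_num)
    rw [Real.mul_rpow (by positivity) (by positivity), ← hB] at h4
    have h5 : ((3 : ℝ) ^ n) ^ (1 / 8 : ℝ) = ((3 : ℝ) ^ (1 / 8 : ℝ)) ^ n := by
      rw [← Real.rpow_natCast 3 n, ← Real.rpow_mul (by norm_num), mul_comm,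
        Real.rpow_mul (by norm_num), Real.rpow_natCast]
    rw [h5] at h4
    have h6 : ((3 : ℝ) ^ (1 / 8 : ℝ)) ^ n ≤ (6 / 5) ^ n :=
      pow_le_pow_left₀ (by positivity) three_eighth15 n
    exact h4.trans (mul_le_mul_of_nonneg_left h6 hB0.le)
  have h7 : (0 : ℝ) ≤ (1 / 4 : ℝ) ^ n * (K * 3 ^ n) := by positivity
  have h8 := mul_le_mul_of_nonneg_left h2 h7
  have h9 : (1 / 4 : ℝ) ^ n * (K * 3 ^ n) * (B * (6 / 5) ^ n) = (K * B) * (9 / 10) ^ n := by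
    have e : (9 / 10 : ℝ) = 1 / 4 * 3 * (6 / 5) := by norm_num
    rw [e, mul_pow, mul_pow]
    ring
  rw [h9] at h8
  have h10 : (K * B) * (9 / 10) ^ n ≤ (K * B) * (1 / (K * B)) :=
    mul_le_mul_of_nonneg_left hn.le (by positivity)
  have h11 : (K * B) * (1 / (K * B)) = 1 := by
    field_simp
  linarith

/-! ### gates -/

/-- the number of scales -/
def KC15 (m q : ℕ) : ℕ := 10 ^ 16 * m ^ 7 * q ^ 9

theorem KC15_cast (m q : ℕ) : (KC15 m q : ℝ) = 10 ^ 16 * (m : ℝ) ^ 7 * (q : ℝ) ^ 9 := by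
  unfold KC15
  rw [Nat.cast_mul, Nat.cast_mul, Nat.cast_pow, Nat.cast_pow, Nat.cast_pow, Nat.cast_ofNat]

/-- the gate condition at the leaves -/
theorem gateC15 {W : WS} (hW : W.Ok) {q : ℕ} (hq : 0 < q) {y : ℚ} (h0 : 2 / (3 * (q : ℝ)) ≤ y)
    (h1 : (y : ℝ) ≤ 1 - 2 / (3 * q)) {n : ℕ} (hden : y.den ≤ 3 ^ n * (4 * q)) {H u : ℝ}
    (hH : 0 < H) (hH1 : H ≤ 1) (hu : 0 < u) (hu' : u ≤ H / 2 ^ (KC15 W.m q * 3 ^ n)) :
    cOf ((u : ℂ) + 2 * Real.pi * (W.dat y).tm * I) ∈ W.Gt y (6 / (2000 * W.m * (q : ℝ) ^ 2)) ∧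
    cOf ((u : ℂ) + 2 * Real.pi * (W.dat y).tp * I) ∈ W.Gt y (6 / (2000 * W.m * (q : ℝ) ^ 2)) := by
  have hm := mpos15 hW
  have hm0 : (0 : ℝ) < W.m := by exact_mod_cast hm
  have hQ0 : (0 : ℝ) < q := by exact_mod_cast hq
  have hqq : 0 < 2 / (3 * (q : ℝ)) := by positivity
  have hy0 : 0 < y := by
    have : (0 : ℝ) < y := by linarith
    exact_mod_cast this
  have hy1 : y < 1 := by
    have : (y : ℝ) < 1 := by linarith
    exact_mod_cast this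
  have hs : (0 : ℝ) < 6 / (2000 * W.m * (q : ℝ) ^ 2) := by positivity
  have hsG : 6 / (2000 * W.m * (q : ℝ) ^ 2) ≤ sG (W.dat y) := by
    unfold sG gR
    rw [WS.dat_m hW hy0 hy1, WS.dat_x hW hy0 hy1]
    have h2 : 2 / (3 * (q : ℝ)) ≤ min (y : ℝ) (1 - y) := le_min h0 (by linarith)
    have h3 : (2 / (3 * (q : ℝ))) ^ 2 ≤ (min (y : ℝ) (1 - y)) ^ 2 :=
      pow_le_pow_left₀ hqq.le h2 2
    have h4 : 6 / (2000 * W.m * (q : ℝ) ^ 2) ≤ 1 / 4 * (2 / (3 * (q : ℝ))) ^ 2 / W.m / 8 := by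
      have e : 1 / 4 * (2 / (3 * (q : ℝ))) ^ 2 / W.m / 8 = (1 / 72) / (W.m * (q : ℝ) ^ 2) := by
        field_simp
        norm_num
      have e2 : 6 / (2000 * W.m * (q : ℝ) ^ 2) = (6 / 2000) / (W.m * (q : ℝ) ^ 2) := by
        field_simp
      rw [e, e2]
      exact div_le_div_of_nonneg_right (by norm_num) (by positivity)
    refine h4.trans ?_
    gcongr
  have hbig : 130000 * ((W.dat y).m : ℝ) ^ 3 * (W.dat y).x.den ≤
      (6 / (2000 * W.m * (q : ℝ) ^ 2)) ^ 4 * (-Real.log u) := by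
    rw [WS.dat_m hW hy0 hy1, WS.dat_x hW hy0 hy1]
    have h2 : 0.69 * ((KC15 W.m q * 3 ^ n : ℕ) : ℝ) ≤ -Real.log u := by
      have h3 := Real.log_le_log hu hu'
      rw [Real.log_div hH.ne' (by positivity), Real.log_pow] at h3
      have h4 : Real.log H ≤ 0 := Real.log_nonpos hH.le hH1
      have h5 := Real.log_two_gt_d9
      have h6 : (0 : ℝ) ≤ ((KC15 W.m q * 3 ^ n : ℕ) : ℝ) := by positivity
      nlinarith
    have h3 : ((y.den : ℕ) : ℝ) ≤ 3 ^ n * (4 * q) := by exact_mod_cast hden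
    have h4 : 130000 * (W.m : ℝ) ^ 3 * (3 ^ n * (4 * q)) ≤
        (6 / (2000 * W.m * (q : ℝ) ^ 2)) ^ 4 * (0.69 * ((KC15 W.m q * 3 ^ n : ℕ) : ℝ)) := by
      rw [Nat.cast_mul, KC15_cast, Nat.cast_pow, Nat.cast_ofNat]
      rw [div_pow, div_mul_eq_mul_div, le_div_iff₀ (by positivity)]
      have e1 : 130000 * (W.m : ℝ) ^ 3 * (3 ^ n * (4 * q)) * (2000 * W.m * (q : ℝ) ^ 2) ^ 4 =
          (130000 * 4 * 2000 ^ 4) * ((W.m : ℝ) ^ 7 * (q : ℝ) ^ 9 * 3 ^ n) := by ring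
      have e2 : (6 : ℝ) ^ 4 * (0.69 * (10 ^ 16 * (W.m : ℝ) ^ 7 * (q : ℝ) ^ 9 * 3 ^ n)) =
          (6 ^ 4 * 0.69 * 10 ^ 16) * ((W.m : ℝ) ^ 7 * (q : ℝ) ^ 9 * 3 ^ n) := by ring
      rw [e1, e2]
      have h5 : (0 : ℝ) ≤ (W.m : ℝ) ^ 7 * (q : ℝ) ^ 9 * 3 ^ n := by positivity
      exact mul_le_mul_of_nonneg_right (by norm_num) h5
    calc 130000 * (W.m : ℝ) ^ 3 * (y.den : ℝ) ≤ 130000 * (W.m : ℝ) ^ 3 * (3 ^ n * (4 * q)) := by
          gcongr
      _ ≤ _ := h4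
      _ ≤ _ := by gcongr
  have hr := n2_ray (W.dat y) (WS.dat_par hW hy0 hy1) (WS.dat_cir hW hy0 hy1)
    (6 / (2000 * W.m * (q : ℝ) ^ 2)) u hs hsG hu hbig
  have himg : (W.dat y).c '' closedBall (W.dat y).a (6 / (2000 * W.m * (q : ℝ) ^ 2)) =
      W.Gt y (6 / (2000 * W.m * (q : ℝ) ^ 2)) := by
    unfold WS.Gt
    rw [WS.dat_a hW hy0 hy1]
    exact image_congr fun L _ => WS.dat_c hW hy0 hy1 L
  rw [himg] at hr
  exact hr

/-! ### one side -/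

theorem sideC15 (hL : C_leaf) (hA : C_average) {W : WS} (hW : W.Ok) {q : ℕ} (hq : 0 < q)
    {a b : ℚ} (hab : a < b) (hdet : b.num * a.den - a.num * b.den = 1)
    (ha : 2 / (3 * (q : ℝ)) ≤ a) (hb : (b : ℝ) ≤ 1 - 2 / (3 * q)) (hden : a.den + b.den ≤ 4 * q)
    {H : ℝ} (hH : 0 < H) (hH1 : H ≤ 1) {n : ℕ}
    (hn : (1 / 4 : ℝ) ^ n * (KC15 W.m q * 3 ^ n) *
      (1 + KC15 W.m q * 3 ^ n + Real.logb 2 (1 / H)) ^ (1 / 8 : ℝ) ≤ 1) (τ : ℚ → ℝ)
    (hτ : ∀ y : ℚ, 0 < y → y < 1 → τ y = (W.dat y).tm ∨ τ y = (W.dat y).tp) {e D : ℝ}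
    (hD : 0 ≤ D) (hdist : ∀ y : ℚ, a < y → y < b → |τ y - e| ≤ D) :
    ∃ y : ℚ, a < y ∧ y < b ∧
      (∀ t : ℝ, 0 < t → t ≤ H / 2 ^ (KC15 W.m q * 3 ^ n) →
        cOf ((t : ℂ) + 2 * Real.pi * τ y * I) ∈ W.Gt y (6 / (2000 * W.m * (q : ℝ) ^ 2))) ∧
      ENNReal.ofReal (diam (RaySeg (τ y) (H / 2 ^ (KC15 W.m q * 3 ^ n)) H) ^ 2) ≤
        ENNReal.ofReal (2 * 10 ^ 7 * (W.m * q)) * rayE (4 * W.m * q) e D H := by
  have hm := mpos15 hW
  have hm0 : (0 : ℝ) < W.m := by exact_mod_cast hm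
  have hQ0 : (0 : ℝ) < q := by exact_mod_cast hq
  have hqq : 0 < 2 / (3 * (q : ℝ)) := by positivity
  obtain ⟨X, hcard, hX1, hX2⟩ := hL a b hab hdet n
  have hy : ∀ y ∈ X, 2 / (3 * (q : ℝ)) ≤ y ∧ (y : ℝ) ≤ 1 - 2 / (3 * q) := by
    intro y hy
    obtain ⟨h1, h2, -⟩ := hX1 y hy
    have h1' : (a : ℝ) < y := by exact_mod_cast h1
    have h2' : (y : ℝ) < b := by exact_mod_cast h2
    exact ⟨by linarith, by linarith⟩
  have h01 : ∀ y ∈ X, 0 < y ∧ y < 1 := by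
    intro y hyX
    obtain ⟨h1, h2⟩ := hy y hyX
    have h3 : (0 : ℝ) < y := by linarith
    have h4 : (y : ℝ) < 1 := by linarith
    exact ⟨by exact_mod_cast h3, by exact_mod_cast h4⟩
  have hnu : ∀ y ∈ X, W.nu (τ y) = y := by
    intro y hyX
    obtain ⟨h5, h6⟩ := nu_tmp15 hW (h01 y hyX).1 (h01 y hyX).2
    rcases hτ y (h01 y hyX).1 (h01 y hyX).2 with h | h <;> rw [h] <;> assumption
  have hne : X.Nonempty := by
    rw [← Finset.card_pos, hcard]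
    positivity
  have hN0 : 0 < a.den + b.den := Nat.add_pos_left a.den_pos _
  have hNN : (W.m : ℝ) * ((a.den + b.den : ℕ) : ℝ) ≤ 4 * W.m * q := by
    have h1 : ((a.den + b.den : ℕ) : ℝ) ≤ 4 * q := by exact_mod_cast hden
    nlinarith
  have hNpos : 0 < 4 * W.m * q := by positivity
  have hN1 : (1 : ℝ) ≤ 4 * W.m * q := by exact_mod_cast hNpos
  obtain ⟨y, hyX, hyE⟩ := hA ℚ X τ e D H (4 * W.m * q) (KC15 W.m q * 3 ^ n)
    (MC n (4 * W.m * q) H) hne hH hH1 hN1 hD (fun y hyX => hdist y (hX1 y hyX).1 (hX1 y hyX).2.1)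
    (by
      intro i _
      refine ⟨MC_nonneg _ _ _ _, fun a' => ?_⟩
      refine cnt15 hW hN0 hNN hcard ?_ h01 hnu hH i a'
      intro k Z hk hZ S hS hS2
      refine hX2 k Z hk ?_ S hS hS2
      push_cast at hZ
      exact hZ)
  refine ⟨y, (hX1 y hyX).1, (hX1 y hyX).2.1, ?_, ?_⟩
  · intro t ht ht'
    have hyd : y.den ≤ 3 ^ n * (4 * q) :=
      (hX1 y hyX).2.2.trans (Nat.mul_le_mul_left _ hden)
    have h5 := gateC15 hW hq (hy y hyX).1 (hy y hyX).2 hyd hH hH1 ht ht'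
    rcases hτ y (h01 y hyX).1 (h01 y hyX).2 with h | h
    · rw [h]; exact h5.1
    · rw [h]; exact h5.2
  · refine hyE.trans ?_
    have hsum := msum15 (N := 4 * W.m * q) hNpos hH hH1 (n := n) (I := KC15 W.m q * 3 ^ n)
      (by push_cast; exact hn)
    push_cast at hsum
    have h6 : 10 ^ 5 * ∑ i ∈ Finset.range (KC15 W.m q * 3 ^ n),
        MC n (4 * W.m * q) H i * bet (4 * W.m * q) (H / 2 ^ i) ≤ 2 * 10 ^ 7 * (W.m * q) := by
      have h7 : (0 : ℝ) ≤ W.m * q := by positivity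
      nlinarith
    gcongr

/-- **CR** -/
theorem c_cutray_explicit (hL : C_leaf) (hA : C_average) (hD : C_dist) : C_cutray (2 * 10 ^ 7) := by
  intro W hW x u v hx0 hx1 hN H hH hH1
  have hm := mpos15 hW
  have hq : 0 < x.den := x.den_pos
  have hQ0 : (0 : ℝ) < x.den := by exact_mod_cast hq
  have hqq : 0 < 2 / (3 * (x.den : ℝ)) := by positivity
  have hu0 : 2 / (3 * (x.den : ℝ)) ≤ u := by
    have h := hN.u0
    have h' : ((2 / (3 * (x.den : ℚ)) : ℚ) : ℝ) ≤ u := by exact_mod_cast h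
    push_cast at h'
    exact h'
  have hv1 : (v : ℝ) ≤ 1 - 2 / (3 * (x.den : ℝ)) := by
    have h := hN.v1
    have h' : (v : ℝ) ≤ ((1 - 2 / (3 * (x.den : ℚ)) : ℚ) : ℝ) := by exact_mod_cast h
    push_cast at h'
    exact h'
  have hux : (u : ℝ) < x := by exact_mod_cast hN.ux
  have hxv : (x : ℝ) < v := by exact_mod_cast hN.xv
  have hDD : 0 ≤ DD W.m x.den := by unfold DD; positivity
  have hK : (0 : ℝ) < KC15 W.m x.den := by
    have hm0 : (0 : ℝ) < W.m := by exact_mod_cast hm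
    rw [KC15_cast]
    positivity
  obtain ⟨n, hn⟩ := exists_n15 hK (logb_nonneg15 hH hH1)
  have hnux := nu_tmp15 hW hx0 hx1
  have hu0' : 0 < u := by
    have : (0 : ℝ) < u := by linarith
    exact_mod_cast this
  have hv1' : v < 1 := by
    have : (v : ℝ) < 1 := by linarith
    exact_mod_cast this
  obtain ⟨x₁, h1, h2, h3, h4⟩ := sideC15 hL hA hW hq hN.ux hN.detu hu0 (by linarith)
    (by have := hN.denu.2; omega) hH hH1 hn (fun y => (W.dat y).tm) (fun y _ _ => Or.inl rfl)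
    (e := (W.dat x).tm) hDD (by
      intro y hy1 hy2
      have h5 := (hD W hW x u v y hx0 hx1 hN).1 hy1 hy2
      have h6 : (W.dat y).tm ≤ (W.dat x).tm := by
        by_contra hcon
        push Not at hcon
        have h7 := W.nu_mono hcon.le
        rw [hnux.1, (nu_tmp15 hW (hu0'.trans hy1) (hy2.trans hx1)).1] at h7
        have h8 : (y : ℝ) < x := by exact_mod_cast hy2
        linarith
      rw [abs_le]
      constructor <;> linarith)
  obtain ⟨x₂, h5, h6, h7, h8⟩ := sideC15 hL hA hW hq hN.xv hN.detv (by linarith) hv1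
    (by have := hN.denv.2; omega) hH hH1 hn (fun y => (W.dat y).tp) (fun y _ _ => Or.inr rfl)
    (e := (W.dat x).tp) hDD (by
      intro y hy1 hy2
      have h5 := (hD W hW x u v y hx0 hx1 hN).2 hy1 hy2
      have h6 : (W.dat x).tp ≤ (W.dat y).tp := by
        by_contra hcon
        push Not at hcon
        have h7 := W.nu_mono hcon.le
        rw [hnux.2, (nu_tmp15 hW (hx0.trans hy1) (hy2.trans hv1')).2] at h7
        have h8 : (x : ℝ) < y := by exact_mod_cast hy1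
        linarith
      rw [abs_le]
      constructor <;> linarith)
  exact ⟨x₁, x₂, H / 2 ^ (KC15 W.m x.den * 3 ^ n), h1, h2, h5, h6, by positivity,
    div_le_self hH.le (one_le_pow₀ (by norm_num)), h3, h7, h4, h8⟩

/-- **CR** -/
theorem c_cutray (hL : C_leaf) (hA : C_average) (hD : C_dist) : ∃ C, C_cutray C :=
  ⟨2 * 10 ^ 7, c_cutray_explicit hL hA hD⟩

end Pool.Agent.Work.MLC.Cap
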