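import Mathlib

/-!
Truncated doubling maps of the circle, in absolute angles.  `tdbl s` is the lift of the map which is
the doubling map on the closed half circle `[s/2, s/2 + 1/2]` and constant equal to `s` on the
other half.  `gw w θ n` is the composition of the maps `tdbl (θ + w i)`, `i < n`; `nu w θ n` is its
translation number.
-/

namespace Pool.Agent.Work.MLC.Circ

open Set Filter Topology CircleDeg1Lift

/-- slope `2` on `[0,1/2]`, flat on `[1/2,1]`, degree one -/
noncomputable def phi (x : ℝ) : ℝ := ⌊x⌋ + min (2 * Int.fract x) 1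

/-- `2 * x - phi x` -/
noncomputable def phi' (x : ℝ) : ℝ := ⌊x⌋ + max 0 (2 * Int.fract x - 1)

theorem phi_add_phi' (x : ℝ) : phi x + phi' x = 2 * x := by
  unfold phi phi'
  have h := Int.floor_add_fract x
  rcases le_total (2 * Int.fract x) 1 with h1 | h1
  · rw [min_eq_left h1, max_eq_left (by linarith)]; linarith
  · rw [min_eq_right h1, max_eq_right (by linarith)]; linarith

theorem phi_add_one (x : ℝ) : phi (x + 1) = phi x + 1 := by
  unfold phi
  rw [Int.floor_add_one, Int.fract_add_one]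
  push_cast; ring

theorem phi_add_int (x : ℝ) (k : ℤ) : phi (x + k) = phi x + k := by
  unfold phi
  rw [Int.floor_add_intCast, Int.fract_add_intCast]
  push_cast; ring

theorem phi_mono : Monotone phi := by
  intro x y hxy
  unfold phi
  rcases (Int.floor_le_floor hxy).lt_or_eq with h | h
  · have h1 : (⌊x⌋ : ℝ) + 1 ≤ ⌊y⌋ := by exact_mod_cast h
    have h2 : min (2 * Int.fract x) 1 ≤ 1 := min_le_right _ _
    have h3 : 0 ≤ min (2 * Int.fract y) 1 := le_min (by have := Int.fract_nonneg y; linarith) zero_le_one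
    linarith
  · have h1 : Int.fract x ≤ Int.fract y := by
      unfold Int.fract; rw [h]; linarith
    rw [h]
    gcongr

theorem phi'_mono : Monotone phi' := by
  intro x y hxy
  unfold phi'
  rcases (Int.floor_le_floor hxy).lt_or_eq with h | h
  · have h1 : (⌊x⌋ : ℝ) + 1 ≤ ⌊y⌋ := by exact_mod_cast h
    have h2 : max 0 (2 * Int.fract x - 1) ≤ 1 :=
      max_le zero_le_one (by have := (Int.fract_lt_one x).le; linarith)
    have h3 : 0 ≤ max 0 (2 * Int.fract y - 1) := le_max_left _ _
    linarith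
  · have h1 : Int.fract x ≤ Int.fract y := by
      unfold Int.fract; rw [h]; linarith
    rw [h]
    gcongr

theorem phi_lipschitz {x y : ℝ} (h : x ≤ y) : phi y - phi x ≤ 2 * (y - x) := by
  have h1 := phi_add_phi' x
  have h2 := phi_add_phi' y
  have h3 := phi'_mono h
  linarith

theorem phi_continuous : Continuous phi := by
  refine LipschitzWith.continuous (K := 2) (LipschitzWith.of_dist_le_mul fun x y => ?_)
  rw [Real.dist_eq, Real.dist_eq]
  rcases le_total x y with h | h
  · have h1 := phi_lipschitz h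
    have h2 := phi_mono h
    rw [abs_sub_comm, abs_of_nonneg (by linarith), abs_sub_comm x y, abs_of_nonneg (by linarith)]
    simpa using h1
  · have h1 := phi_lipschitz h
    have h2 := phi_mono h
    rw [abs_of_nonneg (by linarith), abs_of_nonneg (by linarith)]
    simpa using h1

theorem phi_of_lin {x : ℝ} (k : ℤ) (h : (k : ℝ) ≤ x) (h' : x ≤ k + 1 / 2) : phi x = 2 * x - k := by
  unfold phi
  have hf : ⌊x⌋ = k := Int.floor_eq_iff.2 ⟨h, by linarith⟩
  have hr : Int.fract x = x - k := by unfold Int.fract; rw [hf]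
  rw [hf, hr, min_eq_left (by linarith)]; ring

theorem phi_of_flat {x : ℝ} (k : ℤ) (h : (k : ℝ) + 1 / 2 ≤ x) (h' : x ≤ k + 1) :
    phi x = k + 1 := by
  rcases h'.lt_or_eq with h1 | h1
  · unfold phi
    have hf : ⌊x⌋ = k := Int.floor_eq_iff.2 ⟨by linarith, h1⟩
    have hr : Int.fract x = x - k := by unfold Int.fract; rw [hf]
    rw [hf, hr, min_eq_right (by linarith)]
  · have := phi_of_lin (x := x) (k + 1) (by push_cast; linarith) (by push_cast; linarith)
    rw [this, h1]; push_cast; ring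

theorem le_phi (x : ℝ) : x ≤ phi x := by
  unfold phi
  have h := Int.floor_add_fract x
  have h0 := Int.fract_nonneg x
  have h1 := (Int.fract_lt_one x).le
  rcases le_total (2 * Int.fract x) 1 with h2 | h2
  · rw [min_eq_left h2]; linarith
  · rw [min_eq_right h2]; linarith

theorem phi_le (x : ℝ) : phi x ≤ x + 1 / 2 := by
  unfold phi
  have h := Int.floor_add_fract x
  have h0 := Int.fract_nonneg x
  have h1 := (Int.fract_lt_one x).le
  rcases le_total (2 * Int.fract x) 1 with h2 | h2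
  · rw [min_eq_left h2]; linarith
  · rw [min_eq_right h2]; linarith

/-- the lift of the truncated doubling map: `2 x` on the half circle `[s/2, s/2+1/2]`, constant on the
other half circle -/
noncomputable def tdbl (s : ℝ) : CircleDeg1Lift where
  toFun x := s + phi (x - s / 2)
  monotone' x y h := by
    have : phi (x - s / 2) ≤ phi (y - s / 2) := phi_mono (by linarith)
    show s + phi (x - s / 2) ≤ s + phi (y - s / 2)
    linarith
  map_add_one' x := by
    show s + phi (x + 1 - s / 2) = s + phi (x - s / 2) + 1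
    have : x + 1 - s / 2 = (x - s / 2) + 1 := by ring
    rw [this, phi_add_one]; ring

theorem tdbl_apply (s x : ℝ) : tdbl s x = s + phi (x - s / 2) := rfl

theorem tdbl_lin {s x : ℝ} (k : ℤ) (h : s / 2 + k ≤ x) (h' : x ≤ s / 2 + k + 1 / 2) :
    tdbl s x = 2 * x - k := by
  rw [tdbl_apply, phi_of_lin k (by linarith) (by linarith)]; ring

theorem tdbl_flat {s x : ℝ} (k : ℤ) (h : s / 2 + k + 1 / 2 ≤ x) (h' : x ≤ s / 2 + k + 1) :
    tdbl s x = s + k + 1 := by
  rw [tdbl_apply, phi_of_flat k (by linarith) (by linarith)]; ring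

theorem tdbl_mono {s t : ℝ} (h : s ≤ t) : tdbl s ≤ tdbl t := by
  intro x
  show s + phi (x - s / 2) ≤ t + phi (x - t / 2)
  have := phi_lipschitz (x := x - t / 2) (y := x - s / 2) (by linarith)
  linarith

theorem tdbl_continuous : Continuous fun p : ℝ × ℝ => tdbl p.1 p.2 := by
  show Continuous fun p : ℝ × ℝ => p.1 + phi (p.2 - p.1 / 2)
  exact continuous_fst.add (phi_continuous.comp (by fun_prop))

theorem tdbl_continuous' (s : ℝ) : Continuous (tdbl s) := by
  show Continuous fun x : ℝ => s + phi (x - s / 2)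
  exact continuous_const.add (phi_continuous.comp (by fun_prop))

theorem tdbl_add_two (s x : ℝ) : tdbl (s + 2) x = tdbl s x + 1 := by
  rw [tdbl_apply, tdbl_apply]
  have : x - (s + 2) / 2 = (x - s / 2) + ((-1 : ℤ) : ℝ) := by push_cast; ring
  rw [this, phi_add_int]; push_cast; ring

theorem tdbl_add_two_mul (s x : ℝ) (m : ℤ) : tdbl (s + 2 * m) x = tdbl s x + m := by
  rw [tdbl_apply, tdbl_apply]
  have : x - (s + 2 * m) / 2 = (x - s / 2) + ((-m : ℤ) : ℝ) := by push_cast; ring
  rw [this, phi_add_int]; push_cast; ring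

/-- the first return map along the word `w`: apply `tdbl (θ + w 0)` first -/
noncomputable def gw (w : ℕ → ℤ) (θ : ℝ) : ℕ → CircleDeg1Lift
  | 0 => 1
  | n + 1 => tdbl (θ + w n) * gw w θ n

@[simp] theorem gw_zero (w : ℕ → ℤ) (θ : ℝ) : gw w θ 0 = 1 := rfl

theorem gw_succ (w : ℕ → ℤ) (θ : ℝ) (n : ℕ) : gw w θ (n + 1) = tdbl (θ + w n) * gw w θ n := rfl

theorem gw_succ_apply (w : ℕ → ℤ) (θ : ℝ) (n : ℕ) (x : ℝ) :
    gw w θ (n + 1) x = tdbl (θ + w n) (gw w θ n x) := rfl

theorem gw_add (w : ℕ → ℤ) (θ : ℝ) (m n : ℕ) :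
    gw w θ (m + n) = gw (fun i => w (m + i)) θ n * gw w θ m := by
  induction n with
  | zero => simp
  | succ n ih => rw [← add_assoc, gw_succ, ih, gw_succ, mul_assoc]

theorem gw_congr {w w' : ℕ → ℤ} (θ : ℝ) (n : ℕ) (h : ∀ i < n, w i = w' i) :
    gw w θ n = gw w' θ n := by
  induction n with
  | zero => rfl
  | succ n ih => rw [gw_succ, gw_succ, ih fun i hi => h i (by omega), h n (by omega)]

/-- powers of the return map for a periodic word -/
theorem gw_mul (w : ℕ → ℤ) (θ : ℝ) (n q : ℕ) (hw : ∀ i, w (i + n) = w i) :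
    gw w θ (n * q) = gw w θ n ^ q := by
  induction q with
  | zero => simp
  | succ q ih =>
    have hper : ∀ q i, w (n * q + i) = w i := by
      intro q
      induction q with
      | zero => intro i; simp
      | succ q ihq =>
        intro i
        have : n * (q + 1) + i = (n * q + i) + n := by ring
        rw [this, hw, ihq]
    rw [Nat.mul_succ, gw_add, ih, pow_succ']
    congr 1
    exact gw_congr θ n fun i _ => hper q i

theorem gw_continuous (w : ℕ → ℤ) (n : ℕ) : Continuous fun p : ℝ × ℝ => gw w p.1 n p.2 := by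
  induction n with
  | zero => exact continuous_snd
  | succ n ih =>
    show Continuous fun p : ℝ × ℝ => tdbl (p.1 + w n) (gw w p.1 n p.2)
    exact tdbl_continuous.comp ((continuous_fst.add continuous_const).prodMk ih)

theorem gw_continuous' (w : ℕ → ℤ) (θ : ℝ) (n : ℕ) : Continuous (gw w θ n) :=
  (gw_continuous w n).comp (continuous_const.prodMk continuous_id)

theorem gw_mono (w : ℕ → ℤ) {θ θ' : ℝ} (h : θ ≤ θ') (n : ℕ) : gw w θ n ≤ gw w θ' n := by
  induction n with
  | zero => exact le_rfl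
  | succ n ih =>
    intro x
    show tdbl (θ + w n) (gw w θ n x) ≤ tdbl (θ' + w n) (gw w θ' n x)
    exact ((tdbl (θ + w n)).monotone (ih x)).trans (tdbl_mono (by linarith) _)

/-- the rotation number (a translation number) of the return map -/
noncomputable def nu (w : ℕ → ℤ) (n : ℕ) (θ : ℝ) : ℝ := translationNumber (gw w θ n)

theorem nu_mono (w : ℕ → ℤ) (n : ℕ) : Monotone (nu w n) := fun _ _ h =>
  translationNumber_mono (gw_mono w h n)

theorem pow_continuous_aux {F : ℝ → CircleDeg1Lift} (hF : Continuous fun p : ℝ × ℝ => F p.1 p.2)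
    (m : ℕ) : Continuous fun p : ℝ × ℝ => (F p.1 ^ m) p.2 := by
  induction m with
  | zero => exact continuous_snd
  | succ m ih =>
    have : (fun p : ℝ × ℝ => (F p.1 ^ (m + 1)) p.2) = fun p : ℝ × ℝ => F p.1 ((F p.1 ^ m) p.2) := by
      funext p; rw [pow_succ']; rfl
    rw [this]
    exact hF.comp (continuous_fst.prodMk ih)

/-- continuity of the translation number in a continuous family -/
theorem translationNumber_continuous {F : ℝ → CircleDeg1Lift}
    (hF : Continuous fun p : ℝ × ℝ => F p.1 p.2) : Continuous fun s => translationNumber (F s) := by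
  rw [Metric.continuous_iff]
  intro s ε hε
  obtain ⟨m, hm⟩ := exists_nat_gt (3 / ε)
  have hm0 : (0 : ℝ) < m := lt_trans (by positivity) hm
  have hc : Continuous fun s => (F s ^ m) 0 :=
    (pow_continuous_aux hF m).comp (continuous_id.prodMk continuous_const)
  obtain ⟨δ, hδ, h⟩ := Metric.continuous_iff.1 hc s 1 one_pos
  refine ⟨δ, hδ, fun t ht => ?_⟩
  have h1 := h t ht
  have h2 : ∀ r, |(F r ^ m) 0 - m * translationNumber (F r)| ≤ 1 := by
    intro r
    have := dist_pow_map_zero_mul_translationNumber_le (F r) m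
    rwa [Real.dist_eq] at this
  rw [Real.dist_eq] at h1 ⊢
  have h3 : |(m : ℝ) * (translationNumber (F t) - translationNumber (F s))| < 3 := by
    have e : (m : ℝ) * (translationNumber (F t) - translationNumber (F s)) =
        ((F s ^ m) 0 - m * translationNumber (F s)) - ((F t ^ m) 0 - m * translationNumber (F t)) +
        ((F t ^ m) 0 - (F s ^ m) 0) := by ring
    rw [e]
    have a := abs_add_le (((F s ^ m) 0 - m * translationNumber (F s)) -
      ((F t ^ m) 0 - m * translationNumber (F t))) ((F t ^ m) 0 - (F s ^ m) 0)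
    have b := abs_sub ((F s ^ m) 0 - m * translationNumber (F s))
      ((F t ^ m) 0 - m * translationNumber (F t))
    have c := h2 s
    have d := h2 t
    linarith
  rw [abs_mul, abs_of_pos hm0] at h3
  have h4 : 3 < m * ε := by
    rw [div_lt_iff₀ hε] at hm; exact hm
  by_contra hcon
  push Not at hcon
  have : (m : ℝ) * ε ≤ m * |translationNumber (F t) - translationNumber (F s)| := by gcongr
  linarith

theorem nu_continuous (w : ℕ → ℤ) (n : ℕ) : Continuous (nu w n) :=
  translationNumber_continuous (gw_continuous w n)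

/-- adding constants -/
theorem gw_shift (w : ℕ → ℤ) (u : ℕ → ℤ) (θ : ℝ) (n : ℕ) (x : ℝ) :
    gw (fun i => w i + 2 * u i) θ n x = gw w θ n x + ∑ i ∈ Finset.range n, (u i : ℝ) := by
  induction n with
  | zero => simp
  | succ n ih =>
    rw [gw_succ_apply, ih, gw_succ_apply, Finset.sum_range_succ]
    have h1 : (θ + ((w n + 2 * u n : ℤ) : ℝ)) = (θ + w n) + 2 * (u n : ℤ) := by push_cast; ring
    have h2 : (gw w θ n x + ∑ i ∈ Finset.range n, (u i : ℝ)) =
        gw w θ n x + ((∑ i ∈ Finset.range n, u i : ℤ) : ℝ) := by push_cast; ring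
    rw [h1, tdbl_add_two_mul, h2, map_add_int]
    push_cast; ring

theorem translationNumber_add_int {f g : CircleDeg1Lift} (m : ℤ) (h : ∀ x, f x = g x + m) :
    translationNumber f = translationNumber g + m := by
  have hfg : f = g * (translate (Multiplicative.ofAdd (m : ℝ)) : CircleDeg1Liftˣ) := by
    ext x
    rw [mul_apply, translate_apply, map_int_add, h]; ring
  have hc : Commute g ((translate (Multiplicative.ofAdd (m : ℝ)) : CircleDeg1Liftˣ) : CircleDeg1Lift) := by
    rw [commute_iff_commute]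
    intro x
    simp [map_int_add]
  rw [hfg, translationNumber_mul_of_commute hc, translationNumber_translate]

theorem nu_shift (w : ℕ → ℤ) (u : ℕ → ℤ) (θ : ℝ) (n : ℕ) :
    nu (fun i => w i + 2 * u i) n θ = nu w n θ + ∑ i ∈ Finset.range n, (u i : ℝ) := by
  have := translationNumber_add_int (f := gw (fun i => w i + 2 * u i) θ n) (g := gw w θ n)
    (∑ i ∈ Finset.range n, u i) (fun x => by rw [gw_shift]; push_cast; ring)
  unfold nu
  rw [this]; push_cast; ring

theorem gw_add_theta (w : ℕ → ℤ) (θ : ℝ) (k : ℤ) (n : ℕ) :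
    gw w (θ + k) n = gw (fun i => w i + k) θ n := by
  induction n with
  | zero => rfl
  | succ n ih =>
    rw [gw_succ, gw_succ, ih]
    congr 2
    push_cast; ring

theorem nu_add_theta (w : ℕ → ℤ) (θ : ℝ) (k : ℤ) (n : ℕ) :
    nu w n (θ + k) = nu (fun i => w i + k) n θ := by
  unfold nu; rw [gw_add_theta]

theorem nu_add_two (w : ℕ → ℤ) (θ : ℝ) (n : ℕ) : nu w n (θ + 2) = nu w n θ + n := by
  have h := nu_add_theta w θ 2 n
  have h2 := nu_shift w (fun _ => 1) θ n
  have h3 : (fun i => w i + 2) = fun i => w i + 2 * 1 := by funext i; ring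
  push_cast at h
  rw [h, h3, h2]
  simp

theorem tdbl_bound (s x : ℝ) : x + s / 2 ≤ tdbl s x ∧ tdbl s x ≤ x + s / 2 + 1 / 2 := by
  rw [tdbl_apply]
  have h1 := le_phi (x - s / 2)
  have h2 := phi_le (x - s / 2)
  constructor <;> linarith

/-- an angle whose first `n` iterates under doubling stay in the closed half circles -/
theorem gw_lin (w : ℕ → ℤ) (θ x : ℝ) (n : ℕ)
    (h : ∀ i < n, ∃ k : ℤ, (θ + w i) / 2 + k ≤ 2 ^ i * x ∧ 2 ^ i * x ≤ (θ + w i) / 2 + k + 1 / 2) :
    ∃ m : ℤ, gw w θ n x = 2 ^ n * x - m := by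
  induction n with
  | zero => exact ⟨0, by simp⟩
  | succ n ih =>
    obtain ⟨m, hm⟩ := ih fun i hi => h i (by omega)
    obtain ⟨k, hk1, hk2⟩ := h n (by omega)
    refine ⟨m + k, ?_⟩
    rw [gw_succ_apply, hm, tdbl_lin (k - m) (by push_cast; linarith) (by push_cast; linarith)]
    push_cast; ring

/-- **periodic angles compatible with the word** determine the rotation number -/
theorem nu_of_periodic (w : ℕ → ℤ) (θ β : ℝ) (n q : ℕ) (hq : 0 < q) (hw : ∀ i, w (i + n) = w i)
    (h : ∀ i < n * q, ∃ k : ℤ, (θ + w i) / 2 + k ≤ 2 ^ i * β ∧ 2 ^ i * β ≤ (θ + w i) / 2 + k + 1 / 2)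
    (hβ : ∃ j : ℤ, 2 ^ (n * q) * β = β + j) :
    ∃ P : ℤ, (gw w θ n ^ q) β = β + P ∧ nu w n θ = P / q := by
  obtain ⟨m, hm⟩ := gw_lin w θ β (n * q) h
  obtain ⟨j, hj⟩ := hβ
  refine ⟨j - m, ?_, ?_⟩
  · rw [← gw_mul w θ n q hw, hm, hj]; push_cast; ring
  · have : (gw w θ n ^ q) β = β + ((j - m : ℤ) : ℝ) := by
      rw [← gw_mul w θ n q hw, hm, hj]; push_cast; ring
    exact translationNumber_of_map_pow_eq_add_int _ this hq

/-! ### Right inverses: backward orbits inside the closed half circles -/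

/-- `⌊x⌋ + fract x / 2` -/
noncomputable def psi (x : ℝ) : ℝ := ⌊x⌋ + Int.fract x / 2

theorem psi_add_one (x : ℝ) : psi (x + 1) = psi x + 1 := by
  unfold psi
  rw [Int.floor_add_one, Int.fract_add_one]; push_cast; ring

theorem psi_strictMono : StrictMono psi := by
  intro x y hxy
  unfold psi
  rcases (Int.floor_le_floor hxy.le).lt_or_eq with h | h
  · have h1 : (⌊x⌋ : ℝ) + 1 ≤ ⌊y⌋ := by exact_mod_cast h
    have h2 := Int.fract_lt_one x
    have h3 := Int.fract_nonneg y
    linarith
  · have h1 : Int.fract x < Int.fract y := by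
      unfold Int.fract; rw [h]; linarith
    rw [h]; linarith

theorem phi_psi (x : ℝ) : phi (psi x) = x := by
  have h0 := Int.fract_nonneg x
  have h1 := Int.fract_lt_one x
  have h := Int.floor_add_fract x
  rw [phi_of_lin ⌊x⌋ (by unfold psi; linarith) (by unfold psi; linarith)]
  unfold psi; linarith

/-- strictly monotone right inverse of `tdbl s` with values in the closed half circle -/
noncomputable def sinv (s : ℝ) : CircleDeg1Lift where
  toFun x := s / 2 + psi (x - s)
  monotone' x y h := by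
    have : psi (x - s) ≤ psi (y - s) := psi_strictMono.monotone (by linarith)
    show s / 2 + psi (x - s) ≤ s / 2 + psi (y - s)
    linarith
  map_add_one' x := by
    show s / 2 + psi (x + 1 - s) = s / 2 + psi (x - s) + 1
    have : x + 1 - s = (x - s) + 1 := by ring
    rw [this, psi_add_one]; ring

theorem sinv_apply (s x : ℝ) : sinv s x = s / 2 + psi (x - s) := rfl

theorem sinv_strictMono (s : ℝ) : StrictMono (sinv s) := by
  intro x y h
  show s / 2 + psi (x - s) < s / 2 + psi (y - s)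
  have : psi (x - s) < psi (y - s) := psi_strictMono (by linarith)
  linarith

theorem tdbl_sinv (s x : ℝ) : tdbl s (sinv s x) = x := by
  rw [tdbl_apply, sinv_apply]
  have : s / 2 + psi (x - s) - s / 2 = psi (x - s) := by ring
  rw [this, phi_psi]; ring

/-- the value of `sinv` is in the (half open) half circle, and doubling it gives back the angle -/
theorem sinv_mem (s x : ℝ) : s / 2 + (⌊x - s⌋ : ℤ) ≤ sinv s x ∧
    sinv s x < s / 2 + (⌊x - s⌋ : ℤ) + 1 / 2 ∧ 2 * sinv s x = x + (⌊x - s⌋ : ℤ) := by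
  have h0 := Int.fract_nonneg (x - s)
  have h1 := Int.fract_lt_one (x - s)
  have h := Int.floor_add_fract (x - s)
  rw [sinv_apply]
  unfold psi
  refine ⟨by linarith, by linarith, by linarith⟩

/-- the backward map along the word: right inverse of `gw w θ n` -/
noncomputable def hw (w : ℕ → ℤ) (θ : ℝ) : ℕ → CircleDeg1Lift
  | 0 => 1
  | n + 1 => hw w θ n * sinv (θ + w n)

theorem hw_succ_apply (w : ℕ → ℤ) (θ : ℝ) (n : ℕ) (x : ℝ) :
    hw w θ (n + 1) x = hw w θ n (sinv (θ + w n) x) := rfl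

theorem gw_hw (w : ℕ → ℤ) (θ : ℝ) (n : ℕ) (x : ℝ) : gw w θ n (hw w θ n x) = x := by
  induction n generalizing x with
  | zero => rfl
  | succ n ih => rw [gw_succ_apply, hw_succ_apply, ih, tdbl_sinv]

theorem hw_strictMono (w : ℕ → ℤ) (θ : ℝ) (n : ℕ) : StrictMono (hw w θ n) := by
  induction n with
  | zero => exact strictMono_id
  | succ n ih => exact ih.comp (sinv_strictMono _)

/-- the iterates of `hw w θ n x` under the partial return maps are the backward orbit of `x`; all of
them are in the half open half circles -/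
theorem gw_hw_mem (w : ℕ → ℤ) (θ : ℝ) (n : ℕ) (x : ℝ) (i : ℕ) (hi : i < n) :
    ∃ k : ℤ, (θ + w i) / 2 + k ≤ gw w θ i (hw w θ n x) ∧
      gw w θ i (hw w θ n x) < (θ + w i) / 2 + k + 1 / 2 ∧
      gw w θ (i + 1) (hw w θ n x) = 2 * gw w θ i (hw w θ n x) - k := by
  induction n generalizing x with
  | zero => omega
  | succ n ih =>
    rcases Nat.lt_succ_iff_lt_or_eq.1 hi with h | h
    · rw [hw_succ_apply]; exact ih _ h
    · subst h
      refine ⟨⌊x - (θ + w i)⌋, ?_⟩
      rw [gw_succ_apply, hw_succ_apply, gw_hw, tdbl_sinv]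
      obtain ⟨h1, h2, h3⟩ := sinv_mem (θ + w i) x
      exact ⟨h1, h2, by linarith⟩

/-- translation number of a right inverse -/
theorem translationNumber_right_inv {f g : CircleDeg1Lift} (h : ∀ x, f (g x) = x) :
    translationNumber g = - translationNumber f := by
  have hfg : ∀ m : ℕ, ∀ x, (f ^ m) ((g ^ m) x) = x := by
    intro m
    induction m with
    | zero => intro x; rfl
    | succ m ih =>
      intro x
      have e : (f ^ m) ((g ^ m) (g x)) = g x := ih (g x)
      rw [pow_succ' f, pow_succ g, mul_apply, mul_apply, e, h]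
  have key : ∀ m : ℕ, |(m : ℝ) * (translationNumber g + translationNumber f)| ≤ 3 := by
    intro m
    have h1 := dist_pow_map_zero_mul_translationNumber_le g m
    have h2 := dist_pow_map_zero_mul_translationNumber_le f m
    rw [Real.dist_eq] at h1 h2
    have h3 : dist ((f ^ m) 0 + (g ^ m) 0) ((f ^ m) ((g ^ m) 0)) < 1 := dist_map_map_zero_lt _ _
    rw [hfg m 0, Real.dist_eq] at h3
    rw [abs_le] at h1 h2
    rw [abs_lt] at h3
    rw [abs_le]
    constructor <;> nlinarith [h1.1, h1.2, h2.1, h2.2, h3.1, h3.2]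
  by_contra hne
  have hpos : 0 < |translationNumber g + translationNumber f| := by
    rw [abs_pos]; intro h0; apply hne; linarith
  obtain ⟨m, hm⟩ := exists_nat_gt (3 / |translationNumber g + translationNumber f|)
  have := key m
  rw [abs_mul, Nat.abs_cast] at this
  rw [div_lt_iff₀ hpos] at hm
  linarith

theorem translationNumber_hw (w : ℕ → ℤ) (θ : ℝ) (n : ℕ) :
    translationNumber (hw w θ n) = - nu w n θ :=
  translationNumber_right_inv (gw_hw w θ n)

/-! ### Strips -/

theorem strip_isOpen (w : ℕ → ℤ) (n : ℕ) (a b : ℝ) : IsOpen {θ | a < nu w n θ ∧ nu w n θ < b} :=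
  (isOpen_lt continuous_const (nu_continuous w n)).inter (isOpen_lt (nu_continuous w n) continuous_const)

theorem strip_ordConnected (w : ℕ → ℤ) (n : ℕ) (a b : ℝ) :
    OrdConnected {θ | a < nu w n θ ∧ nu w n θ < b} := by
  refine ⟨fun x hx y hy z hz => ⟨lt_of_lt_of_le hx.1 (nu_mono w n hz.1), ?_⟩⟩
  exact lt_of_le_of_lt (nu_mono w n hz.2) hy.2

/-- rational rotation number means: there is a periodic orbit -/
theorem nu_eq_rat_iff (w : ℕ → ℤ) (n : ℕ) (θ : ℝ) (q : ℕ) (hq : 0 < q) (p : ℤ) :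
    nu w n θ = p / q ↔ ∃ x, (gw w θ n ^ q) x = x + p :=
  translationNumber_eq_rat_iff _ (gw_continuous' w θ n) hq

/-! ### Further statements for the skeleton -/

/-- closed half circle -/
def InHalf (s x : ℝ) : Prop := ∃ k : ℤ, s / 2 + k ≤ x ∧ x ≤ s / 2 + k + 1 / 2

/-- open half circle -/
def InHalfO (s x : ℝ) : Prop := ∃ k : ℤ, s / 2 + k < x ∧ x < s / 2 + k + 1 / 2

theorem InHalfO.inHalf {s x : ℝ} (h : InHalfO s x) : InHalf s x := by
  obtain ⟨k, h1, h2⟩ := h; exact ⟨k, h1.le, h2.le⟩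

/-- all iterates of the angle `β` are in the open half circles of the word -/
def Compat (w : ℕ → ℤ) (θ β : ℝ) : Prop := ∀ i : ℕ, InHalfO (θ + w i) (2 ^ i * β)

theorem nu_flip (w : ℕ → ℤ) (n : ℕ) (θ : ℝ) :
    ∃ k : ℤ, nu (fun i => 1 - w i) n (θ + 1) = nu w n θ + k := by
  refine ⟨∑ i ∈ Finset.range n, (1 - w i), ?_⟩
  have h1 := nu_add_theta (fun i => 1 - w i) θ 1 n
  have h2 := nu_shift w (fun i => 1 - w i) θ n
  have h3 : (fun i => (1 - w i) + 1) = fun i => w i + 2 * (1 - w i) := by funext i; ring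
  push_cast at h1
  rw [h1, h3, h2]
  push_cast; ring

theorem nu_sub_le (w : ℕ → ℤ) (n : ℕ) (θ x : ℝ) (j : ℕ) :
    |(gw w θ n)^[j] x - x - j * nu w n θ| ≤ 1 := by
  have h0 : translationNumber (gw w θ n ^ j) = j * nu w n θ := translationNumber_pow _ j
  have h1 := map_lt_add_translationNumber_add_one (gw w θ n ^ j) x
  have h2 := translationNumber_le_ceil_sub (gw w θ n ^ j) x
  have h3 := Int.ceil_lt_add_one ((gw w θ n ^ j) x - x)
  rw [h0] at h1 h2
  rw [coe_pow] at h1 h2 h3
  rw [abs_le]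
  constructor <;> linarith

/-- backward orbits inside the closed half circles -/
theorem back_orbit (w : ℕ → ℤ) (n : ℕ) (θ : ℝ) (J : ℕ) (y : ℝ) :
    ∃ x : ℝ, (gw w θ n)^[J] x = y ∧
      ∀ j < J, ∀ i < n, InHalf (θ + w i) (gw w θ i ((gw w θ n)^[j] x)) := by
  induction J generalizing y with
  | zero => exact ⟨y, rfl, fun j hj => by omega⟩
  | succ J ih =>
    obtain ⟨x, hx, hx'⟩ := ih (hw w θ n y)
    refine ⟨x, ?_, ?_⟩
    · rw [Function.iterate_succ_apply', hx, gw_hw]
    · intro j hj i hi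
      rcases Nat.lt_succ_iff_lt_or_eq.1 hj with h | h
      · exact hx' j h i hi
      · subst h
        rw [hx]
        obtain ⟨k, h1, h2, _⟩ := gw_hw_mem w θ n y i hi
        exact ⟨k, h1, h2.le⟩

/-- a compatible angle which is periodic: rotation number `p / q`, in lowest terms if `q` is the
exact period under doubling iterated `n` times -/
theorem nu_of_compat (w : ℕ → ℤ) (θ β : ℝ) (n q : ℕ) (hq : 1 ≤ q) (hw : ∀ i, w (i + n) = w i)
    (h : Compat w θ β) (hβ : ∃ j : ℤ, 2 ^ (n * q) * β - β = j) :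
    ∃ p : ℤ, (gw w θ n ^ q) β = β + p ∧ nu w n θ = p / q := by
  refine nu_of_periodic w θ β n q hq hw (fun i _ => ?_) ?_
  · obtain ⟨k, h1, h2⟩ := h i
    exact ⟨k, h1.le, h2.le⟩
  · obtain ⟨j, hj⟩ := hβ
    exact ⟨j, by linarith⟩

theorem nu_of_compat_coprime (w : ℕ → ℤ) (θ β : ℝ) (n q : ℕ) (hq : 1 ≤ q)
    (hw : ∀ i, w (i + n) = w i) (h : Compat w θ β) (hβ : ∃ j : ℤ, 2 ^ (n * q) * β - β = j)
    (hex : ∀ j : ℕ, 0 < j → j < q → ∀ m : ℤ, 2 ^ (n * j) * β - β ≠ m) :
    ∃ p : ℤ, IsCoprime p (q : ℤ) ∧ (gw w θ n ^ q) β = β + p ∧ nu w n θ = p / q := by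
  obtain ⟨p, hp1, hp2⟩ := nu_of_compat w θ β n q hq hw h hβ
  refine ⟨p, ?_, hp1, hp2⟩
  rw [Int.isCoprime_iff_gcd_eq_one]
  by_contra hne
  set d : ℕ := Int.gcd p q with hd
  have hd0 : 0 < d := Int.gcd_pos_of_ne_zero_right _ (by exact_mod_cast (by omega : q ≠ 0))
  have hd2 : 1 < d := by omega
  obtain ⟨a, ha⟩ : (d : ℤ) ∣ p := Int.gcd_dvd_left ..
  obtain ⟨b, hb⟩ : (d : ℤ) ∣ (q : ℤ) := Int.gcd_dvd_right ..
  have hb0 : 0 < b := by
    have hq0 : (0 : ℤ) < q := by exact_mod_cast hq
    rw [hb] at hq0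
    have hd0' : (0 : ℤ) < d := by exact_mod_cast hd0
    exact (mul_pos_iff_of_pos_left hd0').1 hq0
  obtain ⟨b', rfl⟩ := Int.eq_ofNat_of_zero_le hb0.le
  have hqb : q = b' * d := by
    have : ((q : ℕ) : ℤ) = ((b' * d : ℕ) : ℤ) := by rw [hb]; push_cast; ring
    exact_mod_cast this
  have hb'0 : 0 < b' := by exact_mod_cast hb0
  have hlt : b' < q := by rw [hqb]; nlinarith
  have hit : (gw w θ n ^ b')^[d] β = β + d * (a : ℤ) := by
    have e : (gw w θ n ^ b')^[d] β = (gw w θ n ^ q) β := by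
      rw [← coe_pow, ← pow_mul, hqb]
    rw [e, hp1, ha]; push_cast; ring
  rw [iterate_pos_eq_iff _ hd0] at hit
  rw [← gw_mul w θ n b' hw] at hit
  obtain ⟨m, hm⟩ := gw_lin w θ β (n * b') fun i _ => by
    obtain ⟨k, h1, h2⟩ := h i
    exact ⟨k, h1.le, h2.le⟩
  rw [hm] at hit
  exact hex b' hb'0 hlt (a + m) (by push_cast; linarith)

/-- at least two rays: the rotation number is not an integer -/
theorem nu_not_int_of_compat (w : ℕ → ℤ) (θ β : ℝ) (n q : ℕ) (hq : 2 ≤ q)
    (hw : ∀ i, w (i + n) = w i) (h : Compat w θ β) (hβ : ∃ j : ℤ, 2 ^ (n * q) * β - β = j)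
    (hex : ∀ j : ℕ, 0 < j → j < q → ∀ m : ℤ, 2 ^ (n * j) * β - β ≠ m) (N : ℤ) :
    nu w n θ ≠ N := by
  obtain ⟨p, hp, _, hp2⟩ := nu_of_compat_coprime w θ β n q (by omega) hw h hβ hex
  intro hN
  rw [hp2] at hN
  have hq0 : (q : ℝ) ≠ 0 := by exact_mod_cast (by omega : q ≠ 0)
  rw [div_eq_iff hq0] at hN
  have e : p = N * q := by exact_mod_cast hN
  have hdvd : (q : ℤ) ∣ p := ⟨N, by rw [e]; ring⟩
  have hu : IsUnit (q : ℤ) := hp.isUnit_of_dvd' hdvd dvd_rfl
  rw [Int.isUnit_iff] at hu
  omega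

end Pool.Agent.Work.MLC.Circ
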