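import Pool.Agent.Work.MLC.Eta
import Pool.Agent.Work.MLC.Circle

set_option autoImplicit false

/-! # Definitions for the MLC project (project manager: helper50)

Names from `Green`/`Eta` (helper56): `f c z = z ^ 2 + c`, `it c k = (f c)^[k]`, `G c z` Green function,
`eta c L` inverse Böttcher map in logarithmic coordinates (defined for `G c 0 < L.re`).
Names from `Circle` (helper54): `Circ.tdbl`, `Circ.gw w θ n`, `Circ.nu w n θ`.
Angles (`θ`, `β`) are in turns; `L.im = 2 * π * angle`. -/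

namespace Pool.Agent.Work.MLC

open Filter Topology Metric Set Complex

/-- the Mandelbrot set -/
abbrev MM : Set ℂ := N62a1eb23.mandelbrotSet

/-- multiplier of `it c n` at `b` -/
noncomputable def mult (n : ℕ) (c b : ℂ) : ℂ := ∏ i ∈ Finset.range n, (2 * it c i b)

/-- `b` has exact period `n` under `z ^ 2 + c` -/
def PerN (n : ℕ) (c b : ℂ) : Prop := 0 < n ∧ Function.minimalPeriod (f c) b = n

/-- pairs (parameter, point of exact period `n`), multiplier different from `1` -/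
def SS (n : ℕ) : Set (ℂ × ℂ) := {s | PerN n s.1 s.2 ∧ mult n s.1 s.2 ≠ 1}

/-! ### parameters outside the Mandelbrot set -/

/-- `h` continues `eta c` to the half strip `Re L > G c c / 4`, `Im L ∈ (π s, π (s + 1))`
(used for `c ∉ MM` and `s` with `s ≡` external angle of `c` mod 1) -/
def IsHalf (c : ℂ) (s : ℝ) (h : ℂ → ℂ) : Prop :=
  DifferentiableOn ℂ h {L | G c c / 4 < L.re ∧ Real.pi * s < L.im ∧ L.im < Real.pi * (s + 1)} ∧
  (∀ L : ℂ, G c c / 4 < L.re → Real.pi * s < L.im → L.im < Real.pi * (s + 1) →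
    f c (h L) = eta c (2 * L)) ∧
  (∀ L : ℂ, G c c / 2 < L.re → Real.pi * s < L.im → L.im < Real.pi * (s + 1) → h L = eta c L)

/-- `ψ` is the inverse branch of `f c` on `{G c < G c c}` with values in the lobe of
`{G c < G c c / 2}` of the external angles in `(s / 2, (s + 1) / 2)` -/
def IsInv (c : ℂ) (s : ℝ) (ψ : ℂ → ℂ) : Prop :=
  DifferentiableOn ℂ ψ {v | G c v < G c c} ∧ (∀ v : ℂ, G c v < G c c → f c (ψ v) = v) ∧
  ∃ h, IsHalf c s h ∧ ∀ L : ℂ, G c c / 4 < L.re → L.re < G c c / 2 → Real.pi * s < L.im →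
    L.im < Real.pi * (s + 1) → ψ (eta c (2 * L)) = h L

/-- `z` lies in the lobe of the angles in `(s / 2, (s + 1) / 2)` -/
def Side (c : ℂ) (s : ℝ) (z : ℂ) : Prop := G c (f c z) < G c c ∧ ∃ ψ, IsInv c s ψ ∧ ψ (f c z) = z

/-- `c ∉ MM` has external angle `θ`, `b` is fixed by `it c n` and has itinerary `w` (bits `0, 1`)
with respect to `θ` -/
def Ext (n : ℕ) (c b : ℂ) (θ : ℝ) (w : ℕ → ℤ) : Prop :=
  0 < G c c ∧ eta c ((G c c : ℂ) + 2 * Real.pi * θ * I) = c ∧ (0 < n ∧ it c n b = b) ∧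
  (∀ i, w i = 0 ∨ w i = 1) ∧ (∀ i, w (i + n) = w i) ∧ ∀ i, Side c (θ + w i) (it c i b)

/-- bits, `n`-periodic, no smaller period -/
def Word (n : ℕ) (w : ℕ → ℤ) : Prop :=
  (∀ i, w i = 0 ∨ w i = 1) ∧ (∀ i, w (i + n) = w i) ∧ ∀ d, 0 < d → d < n → ∃ i, w (i + d) ≠ w i

/-! ### rays landing at repelling points (parameters in the Mandelbrot set) -/

/-- `β` has exact period `n * q` relative to the period `n`: `2 ^ (n q) β ≡ β` mod 1 and no
`0 < j < q` has `2 ^ (n j) β ≡ β` mod 1 -/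
def PerAngle (n q : ℕ) (β : ℝ) : Prop :=
  0 < q ∧ (∃ k : ℤ, (2 : ℝ) ^ (n * q) * β - β = k) ∧
  ∀ j, 0 < j → j < q → ¬ ∃ k : ℤ, (2 : ℝ) ^ (n * j) * β - β = k

/-- the ray of angle `β` (`q` = its period under `2 ^ n`) lands at `b`; used for `c ∈ MM` -/
def Land (n : ℕ) (c b : ℂ) (β : ℝ) (q : ℕ) : Prop :=
  PerAngle n q β ∧ Tendsto (fun x : ℝ => eta c ((x : ℂ) + 2 * Real.pi * β * I)) (𝓝[>] 0) (𝓝 b)

/-- turning number `p` of the landing ray with respect to the logarithm `ℓ` of the multiplier -/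
def Rot (n : ℕ) (c b : ℂ) (β : ℝ) (q : ℕ) (ℓ : ℂ) (p : ℤ) : Prop :=
  ∃ F : ℝ → ℂ, ContinuousOn F (Ioi 0) ∧
    (∀ x : ℝ, 0 < x → exp (F x) = eta c ((x : ℂ) + 2 * Real.pi * β * I) - b) ∧
    Tendsto (fun x : ℝ => F (2 ^ (n * q) * x) - F x) (𝓝[>] 0) (𝓝 (q * ℓ - 2 * Real.pi * p * I))

/-- all doublings of `β` lie in the open half circles given by `θ + w i` -/
def Compat (β θ : ℝ) (w : ℕ → ℤ) : Prop :=
  ∀ i, ∃ k : ℤ, (θ + w i) / 2 + k < 2 ^ i * β ∧ 2 ^ i * β < (θ + w i) / 2 + k + 1 / 2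

/-- `(θ, w)` and `(θ', w')` describe the same strip: after adding an integer `m` to `θ'` the words
agree, and the rotation number does not meet an integer between `θ` and `θ' + m` -/
def SameStrip (n : ℕ) (θ : ℝ) (w : ℕ → ℤ) (θ' : ℝ) (w' : ℕ → ℤ) : Prop :=
  ∃ m : ℤ, (∀ i, Even (w' i - w i - m)) ∧
    ∀ θ'' ∈ Set.uIcc θ (θ' + m), ∀ k : ℤ, Circ.nu w n θ'' ≠ k

/-! ### hyperbolic components -/

/-- `W` is a hyperbolic component of period `n` -/
def HypComp (n : ℕ) (W : Set ℂ) : Prop :=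
  ∃ c ∈ {c | ∃ b, PerN n c b ∧ ‖mult n c b‖ < 1},
    W = connectedComponentIn {c | ∃ b, PerN n c b ∧ ‖mult n c b‖ < 1} c

/-- `r` is a boundary point of the hyperbolic component `W` of period `n` at which the attracting
cycle of `W` tends to a cycle of exact period `n` with multiplier `exp (2 π i p / q)` -/
def Satellite (n : ℕ) (W : Set ℂ) (r b : ℂ) (p q : ℕ) : Prop :=
  HypComp n W ∧ PerN n r b ∧ mult n r b = exp (2 * Real.pi * (p / q : ℂ) * I) ∧
  0 < p ∧ p < q ∧ Nat.Coprime p q ∧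
  (r, b) ∈ closure {s : ℂ × ℂ | s.1 ∈ W ∧ PerN n s.1 s.2 ∧ ‖mult n s.1 s.2‖ < 1}

end Pool.Agent.Work.MLC
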