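import Pool.Agent.Work.MLC.Type51
import Pool.Agent.Work.MLC.Defs

/-!
# Landing rays and their turning numbers from tracts (helper51)
-/

set_option autoImplicit false

open Complex Filter Topology Set Metric

namespace Pool.Agent.Work.MLC.Tr

variable {c b ρ : ℂ} {n : ℕ} {Λ : ℂ → ℂ}

/-- the angle (in turns) of the ray of the tract -/
noncomputable def ang (m : ℕ) (a : ℤ) : ℝ := -(a : ℝ) / (2 ^ m - 1)

theorem cen_eq_ang (m : ℕ) (a : ℤ) : cen m a = 2 * Real.pi * (ang m a : ℝ) * I := by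
  rw [cen, ang]
  push_cast
  ring

theorem ang_eq {m : ℕ} (hm : 0 < m) (a : ℤ) : (2 : ℝ) ^ m * ang m a - ang m a = ((-a : ℤ) : ℝ) := by
  have h2m : (1 : ℝ) < 2 ^ m := one_lt_pow₀ (by norm_num) hm.ne'
  have h2 : (2 : ℝ) ^ m - 1 ≠ 0 := by linarith
  rw [ang]
  push_cast
  field_simp
  ring

theorem cen_re_pos {m : ℕ} {a : ℤ} {s : ℝ} (hs : 0 < s) : 0 < (cen m a + s).re := by
  rw [add_re, cen_re, zero_add, ofReal_re]; exact hs

theorem Tract.land {ψ : ℂ → ℂ} {q : ℕ} {a : ℤ} (h : Lin c b ρ n Λ) (hc : G c 0 = 0)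
    (T : Tract c b ρ n Λ ψ q a) : Land n c b (ang (n * q) a) q := by
  have hm : 0 < n * q := Nat.mul_pos h.hn T.hq
  refine ⟨⟨T.hq, ⟨-a, ang_eq hm a⟩, ?_⟩, ?_⟩
  · rintro j hj hjq ⟨k, hk⟩
    obtain ⟨g, δ, r, hδ, hr, hgd, hg1, hg2, hg3⟩ := h.exists_local_inverse
    have ht := T.tendsto_zero h
    have e1 : ∀ᶠ s : ℝ in 𝓝[>] 0, ρ ^ j * ψ (cen (n * q) a + s) ∈ ball (0 : ℂ) r := by
      have h1 := ht.const_mul (ρ ^ j)
      rw [mul_zero] at h1
      exact h1.eventually (ball_mem_nhds 0 hr)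
    have e2 : ∀ᶠ s : ℝ in 𝓝[>] 0, ψ (cen (n * q) a + ((2 ^ (n * j) * s : ℝ) : ℂ))
        ∈ ball (0 : ℂ) r := by
      have h1 : Tendsto (fun s : ℝ => 2 ^ (n * j) * s) (𝓝[>] 0) (𝓝[>] 0) := by
        apply tendsto_nhdsWithin_iff.2
        constructor
        · have h2 : Tendsto (fun s : ℝ => 2 ^ (n * j) * s) (𝓝 0) (𝓝 (2 ^ (n * j) * 0)) :=
            (continuous_const.mul continuous_id).tendsto 0
          rw [mul_zero] at h2
          exact h2.mono_left nhdsWithin_le_nhds
        · filter_upwards [self_mem_nhdsWithin] with s hs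
          have : (0 : ℝ) < s := hs
          show (0 : ℝ) < _
          positivity
      exact (ht.comp h1).eventually (ball_mem_nhds 0 hr)
    obtain ⟨s, ⟨hs1, hs2⟩, hs3⟩ := ((e1.and e2).and self_mem_nhdsWithin).exists
    have hs : 0 < s := hs3
    have h3 : Λ (ρ ^ j * ψ (cen (n * q) a + s))
        = Λ (ψ (cen (n * q) a + ((2 ^ (n * j) * s : ℝ) : ℂ))) := by
      rw [h.eqn_pow, T.lift _ (cen_re_pos hs), it_eta hc (cen_re_pos hs),
        T.lift _ (cen_re_pos (by positivity))]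
      rw [← eta_period hc (z := cen (n * q) a + ((2 ^ (n * j) * s : ℝ) : ℂ))
        (cen_re_pos (by positivity)) k]
      congr 1
      have h4 : ((2 : ℂ) ^ (n * j) * (ang (n * q) a : ℝ) - (ang (n * q) a : ℝ)) = k := by
        exact_mod_cast congrArg (fun t : ℝ => (t : ℂ)) hk
      rw [cen_eq_ang]
      push_cast
      linear_combination (2 * Real.pi * I) * h4
    have h5 := (hg3 _ hs1).2
    rw [h3, (hg3 _ hs2).2] at h5
    exact T.disj j hj hjq _ _ (cen_re_pos (by positivity)) (cen_re_pos hs) h5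
  · have h1 := T.landing h
    apply h1.congr
    intro s
    rw [cen_eq_ang, add_comm]

/-- a continuous logarithm of a function with a nonzero limit converges -/
theorem log_tendsto {E D : ℝ → ℂ} (hE : ContinuousOn E (Ioi 0)) (hED : ∀ x, 0 < x → exp (E x) = D x)
    {d : ℂ} (hd : d ≠ 0) (hD : Tendsto D (𝓝[>] 0) (𝓝 d)) :
    ∃ e : ℂ, Tendsto E (𝓝[>] 0) (𝓝 e) := by
  have hDd : Tendsto (fun x => D x / d) (𝓝[>] 0) (𝓝 1) := by
    have := hD.div_const d
    rwa [div_self hd] at this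
  have hslit : ∀ᶠ x : ℝ in 𝓝[>] 0, D x / d ∈ slitPlane := by
    apply hDd.eventually
    exact isOpen_slitPlane.mem_nhds (by simp)
  obtain ⟨ε, hε, hball⟩ : ∃ ε > 0, ∀ x, 0 < x → x < ε → D x / d ∈ slitPlane := by
    rw [eventually_nhdsWithin_iff, Metric.eventually_nhds_iff] at hslit
    obtain ⟨ε, hε, h⟩ := hslit
    exact ⟨ε, hε, fun x hx hx2 => h (by rw [Real.dist_eq, sub_zero, abs_of_pos hx]; exact hx2) hx⟩
  set N : ℝ → ℂ := fun x => (E x - log (D x / d) - log d) / (2 * Real.pi * I) with hN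
  have hDc : ContinuousOn D (Ioo 0 ε) := by
    have h1 : ContinuousOn (fun x => exp (E x)) (Ioo 0 ε) :=
      continuous_exp.comp_continuousOn (hE.mono Ioo_subset_Ioi_self)
    exact h1.congr (fun x hx => (hED x hx.1).symm)
  have hNc : ContinuousOn N (Ioo 0 ε) := by
    apply ContinuousOn.div_const
    apply ContinuousOn.sub _ continuousOn_const
    apply ContinuousOn.sub (hE.mono Ioo_subset_Ioi_self)
    intro x hx
    exact ((hDc x hx).div_const d).clog (hball x hx.1 hx.2)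
  have hint : ∀ x ∈ Ioo 0 ε, ∃ k : ℤ, N x = k := by
    intro x hx
    have h1 : exp (E x - log (D x / d) - log d) = 1 := by
      have hne : D x / d ≠ 0 := slitPlane_ne_zero (hball x hx.1 hx.2)
      rw [exp_sub, exp_sub, hED x hx.1, exp_log hne, exp_log hd]
      have : D x ≠ 0 := by
        intro h0; rw [h0, zero_div] at hne; exact hne rfl
      field_simp
    obtain ⟨k, hk⟩ := exp_eq_one_iff.1 h1
    refine ⟨k, ?_⟩
    simp only [hN]
    rw [hk]
    field_simp [two_pi_I_ne_zero]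
  have hε2 : ε / 2 ∈ Ioo 0 ε := ⟨by linarith, by linarith⟩
  obtain ⟨k, hk⟩ := hint _ hε2
  have hconst : ∀ x ∈ Ioo 0 ε, N x = k := by
    intro x hx
    have hre : (fun x => (N x).re) x = (fun x => (N x).re) (ε / 2) := by
      have hpre : IsPreconnected ((fun x => (N x).re) '' Ioo 0 ε) :=
        isPreconnected_Ioo.image _ (continuous_re.comp_continuousOn hNc)
      have hcount : ((fun x => (N x).re) '' Ioo 0 ε).Countable := by
        apply (countable_range (fun n : ℤ => (n : ℝ))).mono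
        rintro _ ⟨y, hy, rfl⟩
        obtain ⟨j, hj⟩ := hint y hy
        exact ⟨j, by simp [hj]⟩
      exact hcount.isTotallyDisconnected _ subset_rfl hpre ⟨x, hx, rfl⟩ ⟨_, hε2, rfl⟩
    obtain ⟨j, hj⟩ := hint x hx
    simp only [hj, hk, intCast_re, Int.cast_inj] at hre
    rw [hj, hre]
  refine ⟨log d + k * (2 * Real.pi * I), ?_⟩
  have h1 : Tendsto (fun x => log (D x / d) + (log d + k * (2 * Real.pi * I))) (𝓝[>] 0)
      (𝓝 (log 1 + (log d + k * (2 * Real.pi * I)))) := by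
    apply Tendsto.add _ tendsto_const_nhds
    exact (continuousAt_clog (by simp)).tendsto.comp hDd
  rw [log_one, zero_add] at h1
  apply h1.congr'
  filter_upwards [Ioo_mem_nhdsGT hε] with x hx
  have h2 := hconst x hx
  simp only [hN] at h2
  rw [div_eq_iff two_pi_I_ne_zero] at h2
  linear_combination (-1 : ℂ) * h2

theorem Tract.rot {ψ Fψ : ℂ → ℂ} {q : ℕ} {a N : ℤ} (h : Lin c b ρ n Λ) (hc : G c 0 = 0)
    (T : Tract c b ρ n Λ ψ q a) {L : ℂ}
    (hF : DifferentiableOn ℂ Fψ {z : ℂ | 0 < z.re})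
    (hFe : ∀ z : ℂ, 0 < z.re → exp (Fψ z) = ψ z)
    (hFN : ∀ z : ℂ, 0 < z.re → Fψ (2 ^ (n * q) * z + 2 * Real.pi * I * a)
        = Fψ z + (q * L + N * (2 * Real.pi * I))) :
    Rot n c b (ang (n * q) a) q L (-N) := by
  have hm : 0 < n * q := Nat.mul_pos h.hn T.hq
  set D : ℂ → ℂ := dslope Λ 0 with hD
  have hDd : Differentiable ℂ D := by
    rw [← differentiableOn_univ]
    exact (Complex.differentiableOn_dslope univ_mem).2 h.diff.differentiableOn
  have hD0 : D 0 ≠ 0 := by rw [hD, dslope_same]; exact h.der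
  have hDmul : ∀ y, y * D y = Λ y - b := by
    intro y
    have := sub_smul_dslope Λ 0 y
    rw [sub_zero, smul_eq_mul, h.zero] at this
    exact this
  have hDψ : ∀ z : ℂ, 0 < z.re → D (ψ z) ≠ 0 := by
    intro z hz h0
    have h1 := hDmul (ψ z)
    rw [h0, mul_zero, T.lift z hz] at h1
    have h2 : eta c z = b := (sub_eq_zero.1 h1.symm)
    have h3 := G_eta (c := c) (L := z) (by rw [hc]; exact hz)
    rw [h2, h.G_b] at h3
    linarith
  obtain ⟨E, hE, hEe⟩ := exists_log_RH (ψ := fun z => D (ψ z)) (hDd.comp_differentiableOn T.diff) hDψ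
  refine ⟨fun x => Fψ (cen (n * q) a + x) + E (cen (n * q) a + x), ?_, ?_, ?_⟩
  · apply ContinuousOn.add
    · exact hF.continuousOn.comp (by fun_prop) (fun x hx => cen_re_pos hx)
    · exact hE.continuousOn.comp (by fun_prop) (fun x hx => cen_re_pos hx)
  · intro x hx
    rw [exp_add, hFe _ (cen_re_pos hx), hEe _ (cen_re_pos hx), hDmul, T.lift _ (cen_re_pos hx),
      cen_eq_ang, add_comm]
  · obtain ⟨e, he⟩ := log_tendsto (E := fun x : ℝ => E (cen (n * q) a + x))
      (D := fun x : ℝ => D (ψ (cen (n * q) a + x)))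
      (hE.continuousOn.comp (by fun_prop) (fun x hx => cen_re_pos hx))
      (fun x hx => hEe _ (cen_re_pos hx)) hD0
      ((hDd.continuous.tendsto 0).comp (T.tendsto_zero h))
    have h1 : Tendsto (fun s : ℝ => 2 ^ (n * q) * s) (𝓝[>] 0) (𝓝[>] 0) := by
      apply tendsto_nhdsWithin_iff.2
      constructor
      · have h2 : Tendsto (fun s : ℝ => 2 ^ (n * q) * s) (𝓝 0) (𝓝 (2 ^ (n * q) * 0)) :=
          (continuous_const.mul continuous_id).tendsto 0
        rw [mul_zero] at h2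
        exact h2.mono_left nhdsWithin_le_nhds
      · filter_upwards [self_mem_nhdsWithin] with s hs
        have : (0 : ℝ) < s := hs
        show (0 : ℝ) < _
        positivity
    have h2 := (he.comp h1).sub he
    rw [sub_self] at h2
    have h3 := h2.const_add (q * L + N * (2 * Real.pi * I))
    have h4 : (q * L + N * (2 * Real.pi * I) + 0 : ℂ) = q * L - 2 * Real.pi * ((-N : ℤ) : ℂ) * I := by
      push_cast; ring
    rw [h4] at h3
    apply h3.congr'
    filter_upwards [self_mem_nhdsWithin] with x hx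
    have hx0 : 0 < x := hx
    have h5 := hFN _ (cen_re_pos (m := n * q) (a := a) hx0)
    have h6 : 2 ^ (n * q) * (cen (n * q) a + (x : ℂ)) + 2 * Real.pi * I * a
        = cen (n * q) a + ((2 ^ (n * q) * x : ℝ) : ℂ) := by
      have := cen_eq hm a
      push_cast
      linear_combination this
    rw [h6] at h5
    simp only [Function.comp]
    rw [h5]; ring

/-- **Repelling points of parameters in the Mandelbrot set are landing points of periodic rays,
with the Pommerenke-Levin-Yoccoz inequality.** -/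
theorem exists_land_rot (h : Lin c b ρ n Λ) (hc : G c 0 = 0) {L : ℂ} (hL : exp L = ρ) :
    ∃ (β : ℝ) (q : ℕ) (p : ℤ), 0 < q ∧ Land n c b β q ∧ Rot n c b β q L p ∧
      TypeL c Λ L q (-p) ∧
      ‖L - 2 * Real.pi * (p / q : ℂ) * I‖ ^ 2 ≤ 2 * n * Real.log 2 / q * L.re := by
  obtain ⟨x0, hx0⟩ := exists_pos h
  obtain ⟨ψ, q, a, T, -⟩ := exists_tract h hc hx0
  obtain ⟨F, N, hF, hFe, hFN, hply⟩ := T.ply h hL
  refine ⟨ang (n * q) a, q, -N, T.hq, T.land h hc, T.rot h hc hF hFe hFN, ?_, ?_⟩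
  · rw [neg_neg]; exact T.typeL h hc hF hFe hFN
  · have hq : (0 : ℝ) < q := by exact_mod_cast T.hq
    have hqc : (q : ℂ) ≠ 0 := by exact_mod_cast T.hq.ne'
    have h1 : (q : ℂ) * L + N * (2 * Real.pi * I)
        = q * (L - 2 * Real.pi * (((-N : ℤ) : ℂ) / q) * I) := by
      push_cast; field_simp; ring
    rw [h1, norm_mul, mul_pow, norm_natCast] at hply
    rw [div_mul_eq_mul_div, le_div_iff₀ hq]
    have h2 : (q : ℝ) * (‖L - 2 * Real.pi * (((-N : ℤ) : ℂ) / q) * I‖ ^ 2 * q)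
        ≤ q * (2 * n * Real.log 2 * L.re) := by nlinarith
    exact le_of_mul_le_mul_left h2 hq

end Pool.Agent.Work.MLC.Tr
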