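import Pool.Agent.Work.MLC.Curve57

set_option autoImplicit false

/-! # Sections of the multiplier over discs (helper57)

If the multiplier is locally injective at all points of the curve `Per n` lying over `exp '' D`,
where `D` is an open convex set in the logarithmic plane, then `exp L = mul n x` has a holomorphic
solution `x = σ L` on `D` through every solution. -/

namespace Pool.Agent.Work.MLC

open Filter Topology Metric Set

/-- the total space of the covering -/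
def Tot (n : ℕ) (D : Set ℂ) : Set ((ℂ × ℂ) × ℂ) :=
  {p | p.1 ∈ Per n ∧ p.2 ∈ D ∧ mul n p.1 = Complex.exp p.2}

/-- the projection -/
def prj (n : ℕ) (D : Set ℂ) (p : Tot n D) : D := ⟨p.1.2, p.2.2.1⟩

lemma continuous_prj (n : ℕ) (D : Set ℂ) : Continuous (prj n D) :=
  (continuous_snd.comp continuous_subtype_val).subtype_mk _

/-- hypotheses on the domain -/
structure GoodDom (n : ℕ) (D : Set ℂ) : Prop where
  pos : 0 < n
  isOpen : IsOpen D
  ne_one : ∀ L ∈ D, Complex.exp L ≠ 1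
  lt : ∀ L ∈ D, ‖Complex.exp L‖ < 23 / 10
  inj : ∀ x ∈ Per n, ∀ L ∈ D, mul n x = Complex.exp L → LocInj n x

lemma prj_isOpenMap {n : ℕ} {D : Set ℂ} (h : GoodDom n D) : IsOpenMap (prj n D) := by
  rw [isOpenMap_iff_nhds_le]
  intro p U hU
  rw [mem_map] at hU
  have hU' := hU
  rw [nhds_subtype_eq_comap, mem_comap] at hU'
  obtain ⟨V, hV, hVU⟩ := hU'
  rw [nhds_prod_eq, mem_prod_iff] at hV
  obtain ⟨N, hN, B, hB, hNB⟩ := hV
  obtain ⟨⟨x₀, L₀⟩, hx₀, hL₀, hm⟩ := p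
  simp only at hx₀ hL₀ hm hN hB
  have h1 := mul_open h.pos hx₀ (by rw [hm]; exact h.ne_one L₀ hL₀)
    (by rw [hm]; exact h.lt L₀ hL₀) hN
  rw [hm] at h1
  have h2 : ∀ᶠ L in 𝓝 L₀, (∃ x ∈ N ∩ Per n, mul n x = Complex.exp L) ∧ L ∈ B :=
    (Complex.continuous_exp.continuousAt.eventually h1).and hB
  have ht : Tendsto (fun L : D => (L : ℂ)) (𝓝 (⟨L₀, hL₀⟩ : D)) (𝓝 L₀) :=
    continuous_subtype_val.tendsto' _ _ rfl
  have h3 : ∀ᶠ L : D in 𝓝 (⟨L₀, hL₀⟩ : D), (∃ x ∈ N ∩ Per n, mul n x = Complex.exp L) ∧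
      (L : ℂ) ∈ B := ht.eventually h2
  filter_upwards [h3] with L hL
  obtain ⟨⟨x, ⟨hxN, hxP⟩, hx⟩, hLB⟩ := hL
  have h4 : (⟨(x, (L : ℂ)), hxP, L.2, hx⟩ : Tot n D) ∈ (prj n D) ⁻¹' U := hVU (hNB ⟨hxN, hLB⟩)
  exact h4

lemma prj_locInj {n : ℕ} {D : Set ℂ} (h : GoodDom n D) (p : Tot n D) :
    ∃ U ∈ 𝓝 p, IsOpen U ∧ InjOn (prj n D) U := by
  obtain ⟨⟨x₀, L₀⟩, hx₀, hL₀, hm⟩ := p
  obtain ⟨N, hN, hi⟩ := h.inj x₀ hx₀ L₀ hL₀ hm
  obtain ⟨N', hN', hN'o, hx₀N⟩ := _root_.mem_nhds_iff.1 hN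
  have hc : Continuous fun q : Tot n D => q.1.1 := continuous_fst.comp continuous_subtype_val
  refine ⟨{q | q.1.1 ∈ N'}, (hN'o.preimage hc).mem_nhds hx₀N, hN'o.preimage hc, ?_⟩
  rintro ⟨⟨x, L⟩, hx, hL, hxm⟩ hxN ⟨⟨x', L'⟩, hx', hL', hxm'⟩ hxN' heq
  simp only [prj, Subtype.mk.injEq] at heq
  simp only at hxN hxN' hxm hxm'
  have h1 : x = x' := hi ⟨hN' hxN, hx⟩ ⟨hN' hxN', hx'⟩ (by rw [hxm, hxm', heq])
  subst h1
  subst heq
  rfl

lemma prj_isLocalHomeomorph {n : ℕ} {D : Set ℂ} (h : GoodDom n D) :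
    IsLocalHomeomorph (prj n D) := by
  rw [isLocalHomeomorph_iff_isOpenEmbedding_restrict]
  intro p
  obtain ⟨U, hU, hUo, hi⟩ := prj_locInj h p
  refine ⟨U, hU, ?_⟩
  refine Topology.IsOpenEmbedding.of_continuous_injective_isOpenMap ?_ hi.injective ?_
  · exact (continuous_prj n D).comp continuous_subtype_val
  · exact (prj_isOpenMap h).domRestrict hUo

lemma prj_isProperMap {n : ℕ} {D : Set ℂ} (h : GoodDom n D) : IsProperMap (prj n D) := by
  have : LocallyCompactSpace D := h.isOpen.locallyCompactSpace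
  rw [isProperMap_iff_isCompact_preimage]
  refine ⟨continuous_prj n D, fun K hK => ?_⟩
  rw [Topology.IsEmbedding.subtypeVal.isCompact_iff]
  have hKc : IsCompact ((fun L : D => (L : ℂ)) '' K) := hK.image continuous_subtype_val
  have hEc : IsCompact (Complex.exp '' ((fun L : D => (L : ℂ)) '' K)) :=
    hKc.image Complex.continuous_exp
  have h1 : IsCompact (Per n ∩ mul n ⁻¹' (Complex.exp '' ((fun L : D => (L : ℂ)) '' K))) := by
    refine isCompact_Per h.pos hEc.isClosed ?_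
    rintro _ ⟨_, ⟨L, -, rfl⟩, rfl⟩
    exact h.lt L L.2
  have h2 := h1.prod hKc
  have h3 : IsClosed {p : (ℂ × ℂ) × ℂ | mul n p.1 = Complex.exp p.2} :=
    isClosed_eq ((continuous_mul' n).comp continuous_fst)
      (Complex.continuous_exp.comp continuous_snd)
  have h4 := h2.inter_right h3
  convert h4 using 1
  ext ⟨x, L⟩
  constructor
  · rintro ⟨⟨⟨x', L'⟩, hx', hL', hm'⟩, hK', heq⟩
    simp only [Prod.mk.injEq] at heq
    obtain ⟨rfl, rfl⟩ := heq
    refine ⟨⟨⟨hx', ?_⟩, ?_⟩, hm'⟩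
    · exact ⟨L', ⟨⟨L', hL'⟩, hK', rfl⟩, hm'.symm⟩
    · exact ⟨⟨L', hL'⟩, hK', rfl⟩
  · rintro ⟨⟨⟨hx, -⟩, ⟨L', hL', rfl⟩⟩, hm⟩
    exact ⟨⟨(x, (L' : ℂ)), hx, L'.2, hm⟩, hL', rfl⟩

theorem prj_isCoveringMap {n : ℕ} {D : Set ℂ} (h : GoodDom n D) : IsCoveringMap (prj n D) := by
  rw [isCoveringMap_iff_isCoveringMapOn_univ]
  have hl := prj_isLocalHomeomorph h
  have hp := prj_isProperMap h
  refine IsClosedMap.isCoveringMapOn_of_isLocalHomeomorphOn hp.isClosedMap ?_ ?_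
  · intro L _
    have hc : IsCompact (prj n D ⁻¹' {L}) := hp.isCompact_preimage isCompact_singleton
    refine hc.finite (.of_openPartialHomeomorph (prj n D) subset_rfl fun e _ => ?_)
    obtain ⟨φ, h1, h2⟩ := hl e
    exact ⟨φ, h1, h2.symm⟩
  · rw [preimage_univ, ← isLocalHomeomorph_iff_isLocalHomeomorphOn_univ]
    exact hl

/-- **sections of the multiplier**: existence -/
theorem exists_section {n : ℕ} {D : Set ℂ} (h : GoodDom n D) (hD : Convex ℝ D) {x₀ : ℂ × ℂ}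
    (hx₀ : x₀ ∈ Per n) {L₀ : ℂ} (hL₀ : L₀ ∈ D) (hm : mul n x₀ = Complex.exp L₀) :
    ∃ σ : ℂ → ℂ × ℂ, ContinuousOn σ D ∧ (∀ L ∈ D, σ L ∈ Per n ∧ mul n (σ L) = Complex.exp L) ∧
      σ L₀ = x₀ := by
  have : ContractibleSpace D := hD.contractibleSpace ⟨L₀, hL₀⟩
  have : LocallyPathConnectedSpace D := h.isOpen.locallyPathConnectedSpace
  obtain ⟨F, ⟨hF0, hF⟩, -⟩ := (prj_isCoveringMap h).existsUnique_continuousMap_lifts
    (ContinuousMap.id D) ⟨L₀, hL₀⟩ ⟨(x₀, L₀), hx₀, hL₀, hm⟩ rfl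
  classical
  refine ⟨fun L => if hL : L ∈ D then (F ⟨L, hL⟩).1.1 else x₀, ?_, ?_, ?_⟩
  · rw [continuousOn_iff_continuous_domRestrict]
    have h1 : D.domRestrict (fun L => if hL : L ∈ D then (F ⟨L, hL⟩).1.1 else x₀) =
        fun L : D => (F L).1.1 := by
      funext L
      simp [domRestrict, L.2]
    rw [h1]
    exact continuous_fst.comp (continuous_subtype_val.comp F.continuous)
  · intro L hL
    have h1 : prj n D (F ⟨L, hL⟩) = ⟨L, hL⟩ := congrFun hF ⟨L, hL⟩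
    have h2 : (F ⟨L, hL⟩).1.2 = L := congrArg Subtype.val h1
    simp only [hL, dif_pos]
    refine ⟨(F ⟨L, hL⟩).2.1, ?_⟩
    rw [(F ⟨L, hL⟩).2.2.2, h2]
  · simp only [hL₀, dif_pos, hF0]

/-- **sections of the multiplier**: uniqueness -/
theorem section_unique {n : ℕ} {D : Set ℂ} (h : GoodDom n D) {σ : ℂ → ℂ × ℂ}
    (hσ : ContinuousOn σ D) (hσ' : ∀ L ∈ D, σ L ∈ Per n ∧ mul n (σ L) = Complex.exp L)
    {A : Type*} [TopologicalSpace A] {s : Set A} (hs : IsPreconnected s) {g : A → ℂ × ℂ} {l : A → ℂ}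
    (hg : ContinuousOn g s) (hl : ContinuousOn l s) (hgl : ∀ a ∈ s, g a ∈ Per n ∧ l a ∈ D ∧
      mul n (g a) = Complex.exp (l a)) {a₀ : A} (ha₀ : a₀ ∈ s) (h0 : g a₀ = σ (l a₀)) :
    ∀ a ∈ s, g a = σ (l a) := by
  rw [isPreconnected_iff_preconnectedSpace] at hs
  have hg' := continuousOn_iff_continuous_domRestrict.1 hg
  have hl' := continuousOn_iff_continuous_domRestrict.1 hl
  have hσl : Continuous fun a : s => σ (l a) := by
    have h1 : ContinuousOn (fun a => σ (l a)) s := hσ.comp hl fun a ha => (hgl a ha).2.1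
    exact continuousOn_iff_continuous_domRestrict.1 h1
  set g₁ : s → Tot n D := fun a => ⟨(g a, l a), hgl a a.2⟩ with hg₁
  set g₂ : s → Tot n D := fun a => ⟨(σ (l a), l a), (hσ' _ (hgl a a.2).2.1).1, (hgl a a.2).2.1,
    (hσ' _ (hgl a a.2).2.1).2⟩ with hg₂
  have hc₁ : Continuous g₁ := (hg'.prodMk hl').subtype_mk _
  have hc₂ : Continuous g₂ := (hσl.prodMk hl').subtype_mk _
  have h3 : g₁ = g₂ := by
    refine (prj_isCoveringMap h).eq_of_comp_eq hc₁ hc₂ ?_ ⟨a₀, ha₀⟩ ?_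
    · funext a
      rfl
    · simp only [hg₁, hg₂, h0]
  intro a ha
  have h4 := congrFun h3 ⟨a, ha⟩
  simp only [hg₁, hg₂, Subtype.mk.injEq, Prod.mk.injEq] at h4
  exact h4.1

/-- **sections of the multiplier** are holomorphic -/
theorem section_differentiableOn {n : ℕ} {D : Set ℂ} (h : GoodDom n D) {σ : ℂ → ℂ × ℂ}
    (hσ : ContinuousOn σ D) (hσ' : ∀ L ∈ D, σ L ∈ Per n ∧ mul n (σ L) = Complex.exp L) :
    DifferentiableOn ℂ (fun L => (σ L).1) D := by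
  intro L₁ hL₁
  refine DifferentiableAt.differentiableWithinAt ?_
  obtain ⟨h1, h2⟩ := hσ' L₁ hL₁
  obtain ⟨β, hβ, hβ0, hβe, hg, hd⟩ := LocInj.chart h.pos h1 (by rw [h2]; exact h.ne_one _ hL₁)
    (by rw [h2]; exact h.lt _ hL₁) (h.inj _ h1 _ hL₁ h2)
  have hc : ContinuousAt σ L₁ := hσ.continuousAt (h.isOpen.mem_nhds hL₁)
  set w₁ : ℂ := Complex.exp L₁ with hw₁
  have hw0 : w₁ ≠ 0 := Complex.exp_ne_zero _
  set ℓ : ℂ → ℂ := fun w => Complex.log (w / w₁) + L₁ with hℓ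
  have hℓd : DifferentiableAt ℂ ℓ w₁ := by
    have h3 : DifferentiableAt ℂ (fun w => Complex.log (w / w₁)) w₁ := by
      refine DifferentiableAt.clog (by fun_prop) ?_
      rw [div_self hw0]
      exact Complex.one_mem_slitPlane
    exact h3.add_const _
  have hℓ1 : ℓ w₁ = L₁ := by simp [hℓ, div_self hw0]
  have hℓe : ∀ w, w ≠ 0 → Complex.exp (ℓ w) = w := by
    intro w hw
    simp only [hℓ]
    rw [Complex.exp_add, Complex.exp_log (div_ne_zero hw hw0), ← hw₁, div_mul_cancel₀ _ hw0]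
  have hℓr : ∀ᶠ L in 𝓝 L₁, ℓ (Complex.exp L) = L := by
    have h3 : ∀ᶠ L in 𝓝 L₁, ‖L - L₁‖ < 1 := by
      have : ContinuousAt (fun L : ℂ => ‖L - L₁‖) L₁ := by fun_prop
      exact this.eventually (gt_mem_nhds (by simp))
    filter_upwards [h3] with L hL
    simp only [hℓ]
    rw [hw₁, ← Complex.exp_sub, Complex.log_exp]
    · ring
    · have := (abs_le.1 (Complex.abs_im_le_norm (L - L₁))).1
      linarith [Real.pi_gt_three]
    · have := (abs_le.1 (Complex.abs_im_le_norm (L - L₁))).2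
      linarith [Real.pi_gt_three]
  -- the local inverse
  set k : ℂ → ℂ := fun w => (σ (ℓ w)).1 with hk
  have hkc : ContinuousAt k w₁ := by
    have h3 : ContinuousAt σ (ℓ w₁) := by rw [hℓ1]; exact hc
    exact continuous_fst.continuousAt.comp (h3.comp hℓd.continuousAt)
  have hk1 : k w₁ = (σ L₁).1 := by simp only [hk, hℓ1]
  have hkd : DifferentiableAt ℂ k w₁ := by
    have h3 : ∀ᶠ w in 𝓝 w₁, mul n (k w, β (k w)) = w := by
      have h4 : ∀ᶠ w in 𝓝 w₁, ℓ w ∈ D := by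
        have : ContinuousAt ℓ w₁ := hℓd.continuousAt
        exact this.eventually (by rw [hℓ1]; exact h.isOpen.mem_nhds hL₁)
      have h5 : ∀ᶠ w in 𝓝 w₁, (σ (ℓ w) ∈ Per n ↔ β (σ (ℓ w)).1 = (σ (ℓ w)).2) := by
        have h6 : ContinuousAt (fun w => σ (ℓ w)) w₁ := by
          have h3 : ContinuousAt σ (ℓ w₁) := by rw [hℓ1]; exact hc
          exact h3.comp hℓd.continuousAt
        rw [ContinuousAt, hℓ1] at h6
        exact h6.eventually hβe
      have h6 : ∀ᶠ w in 𝓝 w₁, w ≠ 0 := isOpen_ne.mem_nhds hw0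
      filter_upwards [h4, h5, h6] with w h7 h8 h9
      have h10 := hσ' _ h7
      have h11 : ((k w, β (k w)) : ℂ × ℂ) = σ (ℓ w) := by
        simp only [hk]
        rw [h8.1 h10.1]
      rw [h11, h10.2, hℓe w h9]
    have h4 : HasDerivAt (fun c => mul n (c, β c)) (deriv (fun c => mul n (c, β c)) (σ L₁).1)
        (k w₁) := by
      rw [hk1]; exact hg.differentiableAt.hasDerivAt
    exact (h4.of_local_left_inverse hkc hd h3).differentiableAt
  have h3 : (fun L => (σ L).1) =ᶠ[𝓝 L₁] fun L => k (Complex.exp L) := by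
    filter_upwards [hℓr] with L hL
    simp only [hk, hL]
  refine DifferentiableAt.congr_of_eventuallyEq ?_ h3
  exact DifferentiableAt.comp (f := Complex.exp) L₁ hkd Complex.differentiableAt_exp

end Pool.Agent.Work.MLC
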