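import Pool.Agent.Work.MLC.Limb6
import Pool.Agent.Work.MLC.Sec57

set_option autoImplicit false

/-! # Final assembly: from sections and rotation numbers to local connectivity (helper6)

Hypotheses used: `SecHyp` (the multiplier is locally injective over the discs
`ball (2 π i x) (κ min(x, 1 - x)² / n)`), `RotData` (rotation numbers of repelling points of
parameters in `M`), `hrep` (for `c ∉ M` all cycles are repelling), `M` compact connected. -/

namespace Pool.Agent.Work.MLC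

open Filter Topology Metric Set

/-- the Mandelbrot set -/
abbrev MS : Set ℂ := N62a1eb23.mandelbrotSet

/-- rotation numbers: `T c b L x` means that `b` is a repelling point with `f_c^n (b) = b`,
`exp L` is its multiplier, `c ∈ M`, and the rotation number relative to `L` is `x` -/
structure RotData (n : ℕ) (A : ℝ) (T : ℂ → ℂ → ℂ → ℚ → Prop) : Prop where
  dom : ∀ c b L x, T c b L x → 0 < L.re ∧ c ∈ MS
  ex : ∀ c b L, (c, b) ∈ Per n → mul n (c, b) = Complex.exp L → 0 < L.re → c ∈ MS →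
    ∃ x, T c b L x
  uniq : ∀ c b L x x', T c b L x → T c b L x' → x = x'
  opn : ∀ c b L x, T c b L x → ∀ᶠ p : ℂ × ℂ × ℂ in 𝓝 (c, b, L), p.1 ∈ MS →
    (p.1, p.2.1) ∈ Per n → mul n (p.1, p.2.1) = Complex.exp p.2.2 → T p.1 p.2.1 p.2.2 x
  ply : ∀ c b L x, T c b L x → ‖L - axisPt x‖ ^ 2 ≤ A / x.den * L.re

section

variable {n : ℕ} {D : Set ℂ} {σ : ℂ → ℂ × ℂ}

/-- the derivative of the parameter along a section is not zero -/
theorem section_deriv_ne_zero (h : GoodDom n D) (hσ : ContinuousOn σ D)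
    (hσ' : ∀ L ∈ D, σ L ∈ Per n ∧ mul n (σ L) = Complex.exp L) {L₁ : ℂ} (hL₁ : L₁ ∈ D) :
    deriv (fun L => (σ L).1) L₁ ≠ 0 := by
  obtain ⟨h1, h2⟩ := hσ' L₁ hL₁
  obtain ⟨β, hβ, hβ0, hβe, hg, hd⟩ := LocInj.chart h.pos h1 (by rw [h2]; exact h.ne_one _ hL₁)
    (by rw [h2]; exact h.lt _ hL₁) (h.inj _ h1 _ hL₁ h2)
  have hDn : D ∈ 𝓝 L₁ := h.isOpen.mem_nhds hL₁
  have hc : ContinuousAt σ L₁ := hσ.continuousAt hDn
  have hdiff : DifferentiableAt ℂ (fun L => (σ L).1) L₁ :=
    (section_differentiableOn h hσ hσ').differentiableAt hDn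
  have h3 : (fun L => mul n ((σ L).1, β (σ L).1)) =ᶠ[𝓝 L₁] Complex.exp := by
    filter_upwards [hDn, hc.eventually hβe] with L hL hL2
    obtain ⟨h4, h5⟩ := hσ' L hL
    have : ((σ L).1, β (σ L).1) = σ L := by rw [hL2.1 h4]
    rw [this, h5]
  have h4 : HasDerivAt (fun L => mul n ((σ L).1, β (σ L).1))
      (deriv (fun c => mul n (c, β c)) (σ L₁).1 * deriv (fun L => (σ L).1) L₁) L₁ :=
    HasDerivAt.comp (h₂ := fun c => mul n (c, β c)) L₁ hg.differentiableAt.hasDerivAt
      hdiff.hasDerivAt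
  have h5 : HasDerivAt Complex.exp
      (deriv (fun c => mul n (c, β c)) (σ L₁).1 * deriv (fun L => (σ L).1) L₁) L₁ :=
    h4.congr_of_eventuallyEq h3.symm
  have h6 := h5.unique (Complex.hasDerivAt_exp L₁)
  intro h0
  rw [h0, mul_zero] at h6
  exact Complex.exp_ne_zero _ h6.symm

theorem section_strict (h : GoodDom n D) (hσ : ContinuousOn σ D)
    (hσ' : ∀ L ∈ D, σ L ∈ Per n ∧ mul n (σ L) = Complex.exp L) {L₁ : ℂ} (hL₁ : L₁ ∈ D) :
    HasStrictDerivAt (fun L => (σ L).1) (deriv (fun L => (σ L).1) L₁) L₁ := by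
  have h1 : DifferentiableOn ℂ (fun L => (σ L).1) D := section_differentiableOn h hσ hσ'
  exact (h1.analyticAt (h.isOpen.mem_nhds hL₁)).hasStrictDerivAt

/-- `LimbData` of a section -/
theorem limbData_of_section {x₀ : ℚ} {R A : ℝ} {T : ℂ → ℂ → ℂ → ℚ → Prop} (hR : 0 < R)
    (hA : 0 < A) (h : GoodDom n (ball (axisPt x₀) R)) (hσ : ContinuousOn σ (ball (axisPt x₀) R))
    (hσ' : ∀ L ∈ ball (axisPt x₀) R, σ L ∈ Per n ∧ mul n (σ L) = Complex.exp L)
    (hT : RotData n A T)
    (hrep : ∀ x ∈ Per n, x.1 ∉ MS → 1 < ‖mul n x‖) :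
    LimbData MS x₀ R A (fun L => (σ L).1)
      (fun L x => L ∈ ball (axisPt x₀) R ∧ T (σ L).1 (σ L).2 L x) := by
  set D := ball (axisPt x₀) R with hD
  have hcen : axisPt x₀ ∈ D := mem_ball_self hR
  refine ⟨hR, hA, continuous_fst.comp_continuousOn hσ, ?_, ?_, ?_, ?_, ?_, ?_, ?_, ?_⟩
  · intro L hL hre
    by_contra hM
    obtain ⟨h1, h2⟩ := hσ' L hL
    have h3 := hrep _ h1 hM
    rw [h2, Complex.norm_exp] at h3
    have h4 : Real.exp L.re ≤ 1 := Real.exp_le_one_iff.2 hre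
    linarith
  · have h1 := section_strict h hσ hσ' hcen
    have h2 := section_deriv_ne_zero h hσ hσ' hcen
    have hs := h1.hasStrictFDerivAt_equiv h2
    have hN : (hs.toOpenPartialHomeomorph _).source ∈ 𝓝 (axisPt x₀) :=
      (hs.toOpenPartialHomeomorph _).open_source.mem_nhds hs.mem_toOpenPartialHomeomorph_source
    have hi : InjOn (fun L => (σ L).1) (hs.toOpenPartialHomeomorph _).source := by
      have := (hs.toOpenPartialHomeomorph _).injOn
      rwa [HasStrictFDerivAt.toOpenPartialHomeomorph_coe] at this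
    obtain ⟨δ, hδ, hδ2⟩ := Metric.mem_nhds_iff.1 hN
    exact ⟨δ, hδ, hi.mono hδ2⟩
  · intro L hL U hU
    have h1 := section_strict h hσ hσ' hL
    have h2 := section_deriv_ne_zero h hσ hσ' hL
    rw [← h1.map_nhds_eq h2]
    exact image_mem_map hU
  · rintro L x ⟨hL, hx⟩
    exact hT.dom _ _ _ _ hx
  · intro L hL hre hM
    obtain ⟨x, hx⟩ := hT.ex (σ L).1 (σ L).2 L (hσ' L hL).1 (hσ' L hL).2 hre hM
    exact ⟨x, hL, hx⟩
  · rintro L x x' ⟨-, h1⟩ ⟨-, h2⟩
    exact hT.uniq _ _ _ _ _ h1 h2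
  · rintro L hL x ⟨-, hx⟩
    have h1 := hT.opn _ _ _ _ hx
    have hDn : D ∈ 𝓝 L := isOpen_ball.mem_nhds hL
    have hc : ContinuousAt (fun L => ((σ L).1, (σ L).2, L)) L := by
      have h2 : ContinuousAt σ L := hσ.continuousAt hDn
      exact (continuous_fst.continuousAt.comp h2).prodMk
        ((continuous_snd.continuousAt.comp h2).prodMk continuousAt_id)
    filter_upwards [hc.eventually h1, hDn] with L' h2 h3 h4
    exact ⟨h3, h2 h4 (hσ' L' h3).1 (hσ' L' h3).2⟩
  · rintro L x ⟨-, hx⟩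
    exact hT.ply _ _ _ _ hx

end

/-- size of the limb piece -/
theorem limb_size {n : ℕ} {x₀ : ℚ} {R A : ℝ} {T : ℂ → ℚ → Prop} {σ : ℂ → ℂ × ℂ}
    (h : GoodDom n (ball (axisPt x₀) R)) (hσ : ContinuousOn σ (ball (axisPt x₀) R))
    (hσ' : ∀ L ∈ ball (axisPt x₀) R, σ L ∈ Per n ∧ mul n (σ L) = Complex.exp L)
    (hL : LimbData MS x₀ R A (fun L => (σ L).1) T) (hadm : A / x₀.den < R) :
    LimbData.K (fun L => (σ L).1) T x₀ ⊆
      closedBall (σ (axisPt x₀)).1 (9 * (A / x₀.den) / R) := by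
  rw [LimbData.K_eq]
  rintro _ ⟨L, hLP, rfl⟩
  have h1 := hL.P_sub x₀ hLP
  have h2 : L ∈ ball (axisPt x₀) R := closedBall_subset_ball hadm h1
  have hd : DifferentiableOn ℂ (fun L => (σ L).1) (ball (axisPt x₀) R) :=
    section_differentiableOn h hσ hσ'
  have hbd : ∀ L ∈ ball (axisPt x₀) R, ‖(σ L).1‖ ≤ 4 := by
    intro L hL
    obtain ⟨h3, h4⟩ := hσ' L hL
    exact (Per_bdd h.pos h3 (by rw [h4]; exact h.lt L hL)).1
  have hcen : axisPt x₀ ∈ ball (axisPt x₀) R := mem_ball_self hL.R_pos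
  have hmaps : MapsTo (fun L => (σ L).1) (ball (axisPt x₀) R)
      (closedBall (σ (axisPt x₀)).1 9) := by
    intro L hL
    rw [mem_closedBall, dist_eq_norm]
    calc ‖(σ L).1 - (σ (axisPt x₀)).1‖ ≤ ‖(σ L).1‖ + ‖(σ (axisPt x₀)).1‖ := norm_sub_le _ _
      _ ≤ 4 + 4 := add_le_add (hbd _ hL) (hbd _ hcen)
      _ ≤ 9 := by norm_num
  have h3 := Complex.dist_le_div_mul_dist_of_mapsTo_ball hd hmaps h2
  rw [mem_closedBall] at h1 ⊢
  calc dist (σ L).1 (σ (axisPt x₀)).1 ≤ 9 / R * dist L (axisPt x₀) := h3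
    _ ≤ 9 / R * (A / x₀.den) := by
        have := hL.R_pos
        gcongr
    _ = 9 * (A / x₀.den) / R := by ring

/-- the open disc of radius `1/4` is in `M` -/
theorem ball_sub_MS : ball (0 : ℂ) (1 / 4) ⊆ MS := by
  intro c hc
  rw [mem_ball_zero_iff] at hc
  rw [mem_M_iff]
  refine G_zero_of_bdd (B := 1 / 2) (Eventually.frequently (Eventually.of_forall ?_))
  intro k
  induction k with
  | zero => simp
  | succ k ih =>
    rw [it_succ, f_apply]
    calc ‖it c k 0 ^ 2 + c‖ ≤ ‖it c k 0‖ ^ 2 + ‖c‖ := by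
          rw [← norm_pow]; exact norm_add_le _ _
      _ ≤ (1 / 2) ^ 2 + 1 / 4 := by gcongr
      _ = 1 / 2 := by norm_num

/-- removing an interior point does not disconnect -/
theorem preconn_diff_interior {M : Set ℂ} (hMc : IsPreconnected M) {r : ℂ} {δ : ℝ} (hδ : 0 < δ)
    (hr : ball r δ ⊆ M) : IsPreconnected (M \ {r}) := by
  -- the punctured ball is connected
  have hpb : IsPreconnected (ball r δ \ {r}) := by
    have h1 : ball r δ \ {r} =
        (fun p : ℝ × ℝ => r + (p.1 : ℂ) * Complex.exp (p.2 * Complex.I)) '' (Ioo 0 δ ×ˢ univ) := by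
      ext z
      constructor
      · rintro ⟨hz, hz2⟩
        have hz3 : z - r ≠ 0 := sub_ne_zero.2 hz2
        refine ⟨(‖z - r‖, Complex.arg (z - r)), ⟨⟨norm_pos_iff.2 hz3, ?_⟩, mem_univ _⟩, ?_⟩
        · rwa [mem_ball, dist_eq_norm] at hz
        · simp only [Complex.norm_mul_exp_arg_mul_I]
          ring
      · rintro ⟨⟨t, s⟩, ⟨⟨ht0, ht⟩, -⟩, rfl⟩
        have hn : ‖(t : ℂ) * Complex.exp (s * Complex.I)‖ = t := by
          rw [norm_mul, Complex.norm_exp_ofReal_mul_I, mul_one, Complex.norm_real,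
            Real.norm_eq_abs, abs_of_pos ht0]
        refine ⟨?_, ?_⟩
        · rw [mem_ball, dist_eq_norm]
          simp only [add_sub_cancel_left]
          rw [hn]; exact ht
        · intro h0
          have h2 : (t : ℂ) * Complex.exp (s * Complex.I) = 0 := by
            have h3 : r + (t : ℂ) * Complex.exp (s * Complex.I) = r := h0
            linear_combination h3
          rw [h2, norm_zero] at hn
          exact ht0.ne hn
    rw [h1]
    refine (isPreconnected_Ioo.prod isPreconnected_univ).image _ ?_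
    fun_prop
  rw [isPreconnected_iff_subset_of_disjoint]
  intro u v hu hv huv hdis
  have hsub : ball r δ \ {r} ⊆ M \ {r} := sdiff_subset_sdiff_left hr
  have key : ∀ u v : Set ℂ, IsOpen u → IsOpen v → M \ {r} ⊆ u ∪ v → M \ {r} ∩ (u ∩ v) = ∅ →
      ball r δ \ {r} ⊆ u → M \ {r} ⊆ u ∨ M \ {r} ⊆ v := by
    intro u v hu hv huv hdis hbu
    left
    have hvb : ∀ z ∈ ball r δ, z ∉ v := by
      intro z hz hzv
      by_cases hzr : z = r
      · -- `v` is a neighbourhood of `r`, so it contains points of the punctured ball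
        subst hzr
        have h1 : v ∩ ball z δ ∈ 𝓝 z := inter_mem (hv.mem_nhds hzv) (ball_mem_nhds _ hδ)
        obtain ⟨ε, hε, hεs⟩ := Metric.mem_nhds_iff.1 h1
        have h2 : z + ((ε / 2 : ℝ) : ℂ) ∈ ball z ε := by
          rw [mem_ball, dist_eq_norm, add_sub_cancel_left, Complex.norm_real, Real.norm_eq_abs,
            abs_of_pos (by positivity)]
          linarith
        have h3 := hεs h2
        have h4 : z + ((ε / 2 : ℝ) : ℂ) ≠ z := by
          intro h0
          have : ((ε / 2 : ℝ) : ℂ) = 0 := by linear_combination h0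
          have h5 : (ε / 2 : ℝ) = 0 := by exact_mod_cast this
          linarith
        have h5 : z + ((ε / 2 : ℝ) : ℂ) ∈ M \ {z} ∩ (u ∩ v) :=
          ⟨hsub ⟨h3.2, h4⟩, hbu ⟨h3.2, h4⟩, h3.1⟩
        rw [hdis] at h5; exact h5
      · have h5 : z ∈ M \ {r} ∩ (u ∩ v) := ⟨hsub ⟨hz, hzr⟩, hbu ⟨hz, hzr⟩, hzv⟩
        rw [hdis] at h5; exact h5
    have hrb : r ∈ ball r δ := mem_ball_self hδ
    have h6 := isPreconnected_iff_subset_of_disjoint.1 hMc (u ∪ ball r δ) v
      (hu.union isOpen_ball) hv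
      (fun z hz => by
        by_cases hzr : z = r
        · left; right; rw [hzr]; exact hrb
        · rcases huv ⟨hz, hzr⟩ with h | h
          · exact Or.inl (Or.inl h)
          · exact Or.inr h)
      (by
        ext z
        simp only [mem_inter_iff, mem_union, mem_empty_iff_false, iff_false, not_and]
        rintro hz (h | h) hzv
        · by_cases hzr : z = r
          · exact hvb z (by rw [hzr]; exact hrb) hzv
          · have h5 : z ∈ M \ {r} ∩ (u ∩ v) := ⟨⟨hz, hzr⟩, h, hzv⟩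
            rw [hdis] at h5; exact h5
        · exact hvb z h hzv)
    rcases h6 with h6 | h6
    · intro z hz
      rcases h6 hz.1 with h | h
      · exact h
      · exact hbu ⟨h, hz.2⟩
    · exact absurd (h6 (hr hrb)) (hvb r hrb)
  have h7 := isPreconnected_iff_subset_of_disjoint.1 hpb u v hu hv (hsub.trans huv) (by
    ext z
    simp only [mem_inter_iff, mem_empty_iff_false, iff_false]
    rintro ⟨h1, h2⟩
    have h5 : z ∈ M \ {r} ∩ (u ∩ v) := ⟨hsub h1, h2⟩
    rw [hdis] at h5; exact h5)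
  rcases h7 with h7 | h7
  · exact key u v hu hv huv hdis h7
  · exact (key v u hv hu (by rwa [union_comm]) (by rwa [inter_comm v u]) h7).symm

/-- `z ^ 2` has no cycle with multiplier of modulus one -/
theorem mul_zero_norm_ne {n : ℕ} (hn : 0 < n) {b : ℂ} (hb : ((0 : ℂ), b) ∈ Per n) :
    ‖mul n ((0 : ℂ), b)‖ ≠ 1 := by
  have hit : ∀ k, it 0 k b = b ^ 2 ^ k := by
    intro k
    induction k with
    | zero => simp
    | succ k ih => rw [it_succ, f_apply, ih, add_zero, ← pow_mul, pow_succ]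
  have h1 : b ^ 2 ^ n = b := by
    have := hb
    simp only [Per, mem_ofPred_eq] at this
    rwa [hit] at this
  have h2 : ‖b‖ ^ 2 ^ n = ‖b‖ := by rw [← norm_pow, h1]
  have h3 : ‖b‖ = 0 ∨ ‖b‖ = 1 := by
    by_cases h0 : ‖b‖ = 0
    · exact Or.inl h0
    · right
      have h4 : ‖b‖ ^ (2 ^ n - 1) = 1 := by
        have h5 : ‖b‖ ^ (2 ^ n - 1) * ‖b‖ = 1 * ‖b‖ := by
          rw [← pow_succ, Nat.sub_add_cancel Nat.one_le_two_pow, h2, one_mul]
        exact mul_right_cancel₀ h0 h5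
      have h6 : 2 ^ n - 1 ≠ 0 := by
        have : 2 ≤ 2 ^ n := by
          calc 2 = 2 ^ 1 := by norm_num
            _ ≤ 2 ^ n := Nat.pow_le_pow_right (by norm_num) hn
        omega
      exact (pow_eq_one_iff_of_nonneg (norm_nonneg _) h6).1 h4
  have h7 : ‖mul n ((0 : ℂ), b)‖ = ∏ i ∈ Finset.range n, 2 * ‖b‖ ^ 2 ^ i := by
    unfold mul
    rw [norm_prod]
    refine Finset.prod_congr rfl fun i _ => ?_
    simp only [hit, norm_mul, norm_pow]
    simp
  rw [h7]
  rcases h3 with h3 | h3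
  · rw [h3]
    rw [Finset.prod_eq_zero (Finset.mem_range.2 hn) (by simp)]
    norm_num
  · rw [h3]
    simp only [one_pow, mul_one, Finset.prod_const, Finset.card_range]
    have : (2 : ℝ) ≤ 2 ^ n := by
      calc (2 : ℝ) = 2 ^ 1 := by norm_num
        _ ≤ 2 ^ n := pow_le_pow_right₀ (by norm_num) hn
    linarith [this]

/-- the hypotheses about the dynamics which are proved in the other files -/
structure Inputs (κ : ℝ) : Prop where
  κ_pos : 0 < κ
  good : ∀ n : ℕ, 0 < n → ∀ x : ℚ, 0 < x → x < 1 →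
    GoodDom n (ball (axisPt x) (κ * (min (x : ℝ) (1 - x)) ^ 2 / n))
  rot : ∀ n : ℕ, 0 < n → ∃ T, RotData n (2 * n * Real.log 2) T
  rep : ∀ n : ℕ, 0 < n → ∀ x ∈ Per n, x.1 ∉ MS → 1 < ‖mul n x‖
  cpt : IsCompact MS
  conn : IsPreconnected MS

/-- the limb bound: if `f_r` has a point `b` with `f_r^n (b) = b` and multiplier
`exp (2 π i p / q)`, then outside of a compact connected set `K ∋ r` of size
`C n² q / min(p, q - p)²`, open in `M` off `r`, the set `M` is in one component of `M \ {r}` -/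
theorem limb_bound {κ : ℝ} (hI : Inputs κ) : ∃ C : ℝ, 0 < C ∧ ∀ (n p q : ℕ) (r b : ℂ),
    0 < n → 0 < p → p < q → Nat.Coprime p q → it r n b = b →
    mul n (r, b) = Complex.exp (2 * Real.pi * (p / q) * Complex.I) →
    ∃ K ⊆ MS, IsCompact K ∧ IsPreconnected K ∧ r ∈ K ∧
      (∀ z ∈ K, z ≠ r → K \ {r} ∈ 𝓝[MS] z) ∧
      K ⊆ closedBall r (C * (n ^ 2 * q / (min (p : ℝ) (q - p)) ^ 2)) ∧
      ∃ W : Set ℂ, W.Nonempty ∧ ∀ z ∈ MS, z ∉ K → W ⊆ connectedComponentIn (MS \ {r}) z := by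
  have hκ := hI.κ_pos
  have hlog : 0 < Real.log 2 := Real.log_pos (by norm_num)
  refine ⟨18 * Real.log 2 / κ, by positivity, ?_⟩
  intro n p q r b hn hp hpq hcop hb hm
  have hq : 0 < q := hp.trans hpq
  have hq' : (0 : ℝ) < q := by exact_mod_cast hq
  have hn' : (0 : ℝ) < n := by exact_mod_cast hn
  have hp' : (0 : ℝ) < p := by exact_mod_cast hp
  have hpq' : (p : ℝ) < q := by exact_mod_cast hpq
  set x : ℚ := (p : ℚ) / q with hx
  have hxr : (x : ℝ) = p / q := by rw [hx]; push_cast; rfl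
  have hx0 : 0 < x := by
    have h1 : (0 : ℚ) < p := by exact_mod_cast hp
    have h2 : (0 : ℚ) < q := by exact_mod_cast hq
    exact div_pos h1 h2
  have hx1 : x < 1 := by
    have h2 : (0 : ℚ) < q := by exact_mod_cast hq
    rw [hx, div_lt_one h2]
    exact_mod_cast hpq
  have hden : x.den = q := by
    have h1 := Rat.den_div_eq_of_coprime (a := (p : ℤ)) (b := (q : ℤ)) (by omega) (by simpa using hcop)
    have h2 : (((p : ℤ) : ℚ) / ((q : ℤ) : ℚ)) = x := by rw [hx]; push_cast; rfl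
    rw [h2] at h1
    exact_mod_cast h1
  set m : ℝ := min (p : ℝ) (q - p) with hmdef
  have hm0 : 0 < m := lt_min hp' (by linarith)
  have hmin : min (x : ℝ) (1 - x) = m / q := by
    have h1 : 1 - (p : ℝ) / q = (q - p) / q := by field_simp
    rw [hxr, hmdef, h1, min_div_div_right hq'.le]
  set R : ℝ := κ * (min (x : ℝ) (1 - x)) ^ 2 / n with hR
  have hRe : R = κ * m ^ 2 / (q ^ 2 * n) := by
    rw [hR, hmin]; field_simp
  have hR0 : 0 < R := by rw [hRe]; positivity
  have hG := hI.good n hn x hx0 hx1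
  obtain ⟨T, hT⟩ := hI.rot n hn
  have hax : axisPt x = 2 * Real.pi * (p / q) * Complex.I := by
    unfold axisPt
    rw [hxr]; push_cast; ring
  have hPer : ((r, b) : ℂ × ℂ) ∈ Per n := hb
  have hrM : r ∈ MS := by
    by_contra h0
    have h1 := hI.rep n hn _ hPer h0
    rw [hm, Complex.norm_exp] at h1
    have h2 : (2 * (Real.pi : ℂ) * (p / q) * Complex.I).re = 0 := by
      have := LimbData.axisPt_re x
      rwa [hax] at this
    rw [h2, Real.exp_zero] at h1
    exact lt_irrefl _ h1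
  by_cases hsmall : 2 * Real.log 2 * n ^ 2 * q < κ * m ^ 2
  · -- the main case
    obtain ⟨σ, hσ, hσ', hσ0⟩ := exists_section hG (convex_ball _ _) hPer (mem_ball_self hR0)
      (by rw [hm, hax])
    have hA : 0 < 2 * n * Real.log 2 := by positivity
    have hL := limbData_of_section hR0 hA hG hσ hσ' hT (fun x hx hxM => hI.rep n hn x hx hxM)
    have hr1 : (σ (axisPt x)).1 = r := by rw [hσ0]
    have hAR : 2 * n * Real.log 2 / x.den < R := by
      rw [hden, hRe, div_lt_div_iff₀ hq' (by positivity)]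
      have : 2 * n * Real.log 2 * (q ^ 2 * n) = (2 * Real.log 2 * n ^ 2 * q) * q := by ring
      rw [this]
      gcongr
    have hadm : LimbData.Adm x R (2 * n * Real.log 2) x := by
      unfold LimbData.Adm
      rw [sub_self, abs_zero, mul_zero, add_zero]
      exact hAR
    refine ⟨_, hL.K_sub hadm, hL.isCompact_K hI.cpt.isClosed hadm,
      hL.K_conn hI.cpt.isClosed hI.conn hadm, ?_, ?_, ?_, ?_⟩
    · left; exact hr1.symm
    · intro z hz hzr
      have h1 := hL.K_open hadm hz (by rw [hr1]; exact hzr)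
      rwa [hr1] at h1
    · have h1 := limb_size hG hσ hσ' hL hAR
      rw [hr1] at h1
      refine h1.trans (closedBall_subset_closedBall ?_)
      rw [hden, hmin]
      apply le_of_eq
      field_simp
      ring
    · have h1 := hL.main hI.cpt hI.conn hadm
      rwa [hr1] at h1
  · -- the trivial case
    push Not at hsmall
    refine ⟨MS, le_rfl, hI.cpt, hI.conn, hrM, ?_, ?_, {0}, singleton_nonempty _, ?_⟩
    · intro z _ hzr
      have : MS \ {r} = MS ∩ {r}ᶜ := rfl
      rw [this]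
      exact inter_mem self_mem_nhdsWithin (mem_nhdsWithin_of_mem_nhds
        (isOpen_compl_singleton.mem_nhds hzr))
    · intro z hz
      have hbd : ∀ c ∈ MS, ‖c‖ ≤ 4 := by
        intro c hc
        have h1 := norm_it_le_of_G_zero (mem_M_iff.1 hc) 2
        have h2 : it c 2 0 = c ^ 2 + c := by
          rw [it_succ, it_one, f_apply, f_apply]; ring
        rw [h2] at h1
        have h3 : ‖c‖ ^ 2 ≤ ‖c ^ 2 + c‖ + ‖c‖ := by
          rw [← norm_pow]
          calc ‖c ^ 2‖ = ‖(c ^ 2 + c) - c‖ := by ring_nf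
            _ ≤ _ := norm_sub_le _ _
        nlinarith [norm_nonneg c]
      rw [mem_closedBall, dist_eq_norm]
      have h1 : (9 : ℝ) ≤ 18 * Real.log 2 / κ * (n ^ 2 * q / m ^ 2) := by
        rw [div_mul_div_comm, le_div_iff₀ (by positivity)]
        nlinarith
      calc ‖z - r‖ ≤ ‖z‖ + ‖r‖ := norm_sub_le _ _
        _ ≤ 4 + 4 := add_le_add (hbd z hz) (hbd r hrM)
        _ ≤ _ := by linarith
    · intro z hz hz2
      exact absurd hz hz2

/-- **local connectivity** at the parameters which are separated from `0` by points with a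
neutral cycle of period `n` and multiplier `exp (2 π i p / q)` with `n² q / min(p, q - p)²`
arbitrarily small -/
theorem mlc_at {κ : ℝ} (hI : Inputs κ) {c₀ : ℂ} (hc₀ : c₀ ∈ MS)
    (h : ∀ ε > 0, ∃ (n p q : ℕ) (r b : ℂ), 0 < n ∧ 0 < p ∧ p < q ∧ Nat.Coprime p q ∧
      it r n b = b ∧ mul n (r, b) = Complex.exp (2 * Real.pi * (p / q) * Complex.I) ∧
      (n : ℝ) ^ 2 * q / (min (p : ℝ) (q - p)) ^ 2 < ε ∧ r ≠ c₀ ∧
      connectedComponentIn (MS \ {r}) c₀ ≠ connectedComponentIn (MS \ {r}) 0) :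
    ∀ U ∈ 𝓝 c₀, ∃ V ⊆ U, V ⊆ MS ∧ IsCompact V ∧ IsConnected V ∧ V ∈ 𝓝[MS] c₀ := by
  obtain ⟨C, hC, hlimb⟩ := limb_bound hI
  intro U hU
  obtain ⟨δ, hδ, hδU⟩ := Metric.mem_nhds_iff.1 hU
  obtain ⟨n, p, q, r, b, hn, hp, hpq, hcop, hb, hm, hε, hrc, hne⟩ :=
    h (min (δ / (4 * C)) (1 / (16 * C))) (lt_min (by positivity) (by positivity))
  obtain ⟨K, hKM, hKc, hKp, hrK, hKo, hKs, W, ⟨v, hv⟩, hW⟩ :=
    hlimb n p q r b hn hp hpq hcop hb hm
  set Q : ℝ := (n : ℝ) ^ 2 * q / (min (p : ℝ) (q - p)) ^ 2 with hQ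
  have hQ1 : C * Q < δ / 4 := by
    have h1 := hε.trans_le (min_le_left _ _)
    calc C * Q < C * (δ / (4 * C)) := by gcongr
      _ = δ / 4 := by field_simp
  have hQ2 : C * Q < 1 / 16 := by
    have h1 := hε.trans_le (min_le_right _ _)
    calc C * Q < C * (1 / (16 * C)) := by gcongr
      _ = 1 / 16 := by field_simp
  have h0M : (0 : ℂ) ∈ MS := ball_sub_MS (mem_ball_self (by norm_num))
  have hor : c₀ ∈ K ∨ (0 : ℂ) ∈ K := by
    by_contra hcon
    push Not at hcon
    exact hne ((connectedComponentIn_eq (hW c₀ hc₀ hcon.1 hv)).trans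
      (connectedComponentIn_eq (hW 0 h0M hcon.2 hv)).symm)
  rcases hor with hcK | h0K
  · refine ⟨K, ?_, hKM, hKc, ⟨⟨r, hrK⟩, hKp⟩, ?_⟩
    · intro z hz
      apply hδU
      have h1 := hKs hz
      have h2 := hKs hcK
      rw [mem_closedBall] at h1 h2
      rw [mem_ball]
      calc dist z c₀ ≤ dist z r + dist c₀ r := dist_triangle_right _ _ _
        _ < δ := by linarith
    · exact mem_of_superset (hKo c₀ hcK hrc.symm) sdiff_subset
  · exfalso
    have h1 := hKs h0K
    rw [mem_closedBall, dist_zero_left] at h1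
    have hr8 : ball r (1 / 8) ⊆ MS := by
      intro z hz
      apply ball_sub_MS
      rw [mem_ball] at hz
      rw [mem_ball_zero_iff]
      have h2 : ‖z‖ ≤ ‖z - r‖ + ‖r‖ := by
        have : z = (z - r) + r := by ring
        calc ‖z‖ = ‖(z - r) + r‖ := by rw [← this]
          _ ≤ _ := norm_add_le _ _
      rw [dist_eq_norm] at hz
      linarith
    have hpre := preconn_diff_interior hI.conn (by norm_num : (0 : ℝ) < 1 / 8) hr8
    have hr0 : r ≠ 0 := by
      rintro rfl
      apply mul_zero_norm_ne hn (b := b) hb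
      rw [hm, Complex.norm_exp]
      simp
    have h3 : (0 : ℂ) ∈ MS \ {r} := ⟨h0M, fun h => hr0 h.symm⟩
    have h4 : c₀ ∈ MS \ {r} := ⟨hc₀, fun h => hrc h.symm⟩
    apply hne
    have h5 : c₀ ∈ connectedComponentIn (MS \ {r}) 0 :=
      hpre.subset_connectedComponentIn h3 le_rfl h4
    exact (connectedComponentIn_eq h5).symm

end Pool.Agent.Work.MLC
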