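import Pool.Agent.Work.MLC.Defs

set_option autoImplicit false

/-! # The linearizer at a repelling periodic point  (helper56)

For `it c n b = b` with multiplier `ρ = mult n c b`, `1 < ‖ρ‖`, the function `Lz n c b` is entire,
`Lz n c b 0 = b`, `HasDerivAt (Lz n c b) 1 0`, `Lz n c b (ρ * ζ) = it c n (Lz n c b ζ)`, and it is
jointly continuous in `(c, b, ζ)` and holomorphic along holomorphic curves. -/

namespace Pool.Agent.Work.MLC

open Filter Topology Metric Set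

/-! ### algebra of iterates -/

/-- divided difference of the iterate -/
noncomputable def DD (n : ℕ) (c x y : ℂ) : ℂ := ∏ i ∈ Finset.range n, (it c i x + it c i y)

lemma it_sub_it (n : ℕ) (c x y : ℂ) : it c n x - it c n y = (x - y) * DD n c x y := by
  induction n with
  | zero => simp [DD]
  | succ n ih =>
    have h1 : DD (n + 1) c x y = DD n c x y * (it c n x + it c n y) := by
      unfold DD; rw [Finset.prod_range_succ]
    rw [h1, ← mul_assoc, ← ih, it_succ, it_succ]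
    unfold f; ring

lemma DD_self (n : ℕ) (c b : ℂ) : DD n c b b = mult n c b := by
  unfold DD mult
  exact Finset.prod_congr rfl fun i _ => by ring

lemma continuous_DD (n : ℕ) : Continuous fun p : ℂ × ℂ × ℂ => DD n p.1 p.2.1 p.2.2 := by
  unfold DD
  refine continuous_finsetProd _ fun i _ => ?_
  have h1 : Continuous fun p : ℂ × ℂ × ℂ => ((p.1, p.2.1) : ℂ × ℂ) := by fun_prop
  have h2 : Continuous fun p : ℂ × ℂ × ℂ => ((p.1, p.2.2) : ℂ × ℂ) := by fun_prop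
  have h3 : Continuous ((fun p : ℂ × ℂ => it p.1 i p.2) ∘
    fun p : ℂ × ℂ × ℂ => ((p.1, p.2.1) : ℂ × ℂ)) := Continuous.comp (continuous_it i) h1
  have h4 : Continuous ((fun p : ℂ × ℂ => it p.1 i p.2) ∘
    fun p : ℂ × ℂ × ℂ => ((p.1, p.2.2) : ℂ × ℂ)) := Continuous.comp (continuous_it i) h2
  exact h3.add h4

lemma mult_succ (n : ℕ) (c b : ℂ) : mult (n + 1) c b = mult n c b * (2 * it c n b) := by
  unfold mult; rw [Finset.prod_range_succ]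

@[simp] lemma mult_zero (c b : ℂ) : mult 0 c b = 1 := by simp [mult]

@[fun_prop] lemma continuous_mult (n : ℕ) : Continuous fun p : ℂ × ℂ => mult n p.1 p.2 := by
  unfold mult
  exact continuous_finsetProd _ fun i _ => continuous_const.mul (continuous_it i)

@[fun_prop] lemma differentiable_mult (n : ℕ) :
    Differentiable ℂ fun p : ℂ × ℂ => mult n p.1 p.2 := by
  induction n with
  | zero => simp only [mult_zero]; exact differentiable_const _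
  | succ n ih =>
    simp only [mult_succ]
    exact ih.mul ((differentiable_it n).const_mul 2)

theorem hasDerivAt_it_mult (c : ℂ) (n : ℕ) (z : ℂ) : HasDerivAt (it c n) (mult n c z) z := by
  induction n with
  | zero =>
    have : it c 0 = id := by funext x; rfl
    rw [this, mult_zero]; exact hasDerivAt_id z
  | succ n ih =>
    have h1 : it c (n + 1) = fun x => (it c n x) ^ 2 + c := by funext x; rw [it_succ]; rfl
    rw [h1, mult_succ]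
    have h2 := (ih.pow 2).add_const c
    have e : mult n c z * (2 * it c n z) = ((2 : ℕ) : ℂ) * it c n z ^ (2 - 1) * mult n c z := by
      norm_num; ring
    rw [e]; exact h2

/-- quadratic remainder of the iterate -/
noncomputable def RR : ℕ → ℂ → ℂ → ℂ → ℂ
  | 0, _, _, _ => 0
  | n + 1, c, z, h => 2 * it c n z * RR n c z h + (mult n c z + h * RR n c z h) ^ 2

lemma it_add_eq (n : ℕ) (c z h : ℂ) :
    it c n (z + h) = it c n z + mult n c z * h + h ^ 2 * RR n c z h := by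
  induction n with
  | zero => simp [RR]
  | succ n ih =>
    rw [it_succ, it_succ, ih, mult_succ, RR]
    unfold f; ring

lemma continuous_RR (n : ℕ) : Continuous fun p : (ℂ × ℂ) × ℂ => RR n p.1.1 p.1.2 p.2 := by
  induction n with
  | zero => exact continuous_const
  | succ n ih =>
    simp only [RR]
    have h1 : Continuous ((fun p : ℂ × ℂ => it p.1 n p.2) ∘ fun p : (ℂ × ℂ) × ℂ => p.1) :=
      Continuous.comp (continuous_it n) continuous_fst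
    have h2 : Continuous ((fun p : ℂ × ℂ => mult n p.1 p.2) ∘ fun p : (ℂ × ℂ) × ℂ => p.1) :=
      Continuous.comp (continuous_mult n) continuous_fst
    exact ((continuous_const.mul h1).mul ih).add ((h2.add (continuous_snd.mul ih)).pow 2)

/-! ### the approximants -/

/-- pairs (parameter, repelling fixed point of the `n`-th iterate) -/
def Rep (n : ℕ) : Set (ℂ × ℂ) := {p | it p.1 n p.2 = p.2 ∧ 1 < ‖mult n p.1 p.2‖}

/-- approximants of the linearizer -/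
noncomputable def Lk (n : ℕ) (c b : ℂ) (k : ℕ) (ζ : ℂ) : ℂ := it c (n * k) (b + ζ / mult n c b ^ k)

/-- the linearizer -/
noncomputable def Lz (n : ℕ) (c b ζ : ℂ) : ℂ := limUnder atTop fun k => Lk n c b k ζ

lemma Lk_zero (n : ℕ) (c b ζ : ℂ) : Lk n c b 0 ζ = b + ζ := by simp [Lk]

lemma Lk_add (n : ℕ) (c b : ℂ) (k m : ℕ) (ζ : ℂ) :
    Lk n c b (k + m) ζ = it c (n * m) (Lk n c b k (ζ / mult n c b ^ m)) := by
  unfold Lk
  rw [← it_add, div_div, ← pow_add]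
  congr 1
  · ring
  · rw [add_comm m k]

lemma Lk_succ (n : ℕ) (c b : ℂ) (k : ℕ) (ζ : ℂ) :
    Lk n c b (k + 1) ζ = it c n (Lk n c b k (ζ / mult n c b)) := by
  rw [Lk_add, mul_one, pow_one]

/-- constants for the convergence near the fixed point -/
structure LD (n : ℕ) (c b : ℂ) (σ Λ K r : ℝ) : Prop where
  fix : it c n b = b
  hσ : 1 < σ
  hρ : σ ≤ ‖mult n c b‖
  hr : 0 < r
  hK : 0 ≤ K
  hΛ0 : 0 ≤ Λ
  hΛ : Λ < σ ^ 2
  hKr : K * r ≤ σ ^ 2 - Λ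
  hD : ∀ x y, ‖x - b‖ ≤ 2 * r → ‖y - b‖ ≤ 2 * r → ‖DD n c x y‖ ≤ Λ
  hR : ∀ h, ‖h‖ ≤ r → ‖RR n c b h‖ ≤ K

theorem exists_LD {n : ℕ} {c₀ b₀ : ℂ} (h : 1 < ‖mult n c₀ b₀‖) : ∃ σ Λ K r : ℝ,
    ∀ᶠ p : ℂ × ℂ in 𝓝 (c₀, b₀), it p.1 n p.2 = p.2 → LD n p.1 p.2 σ Λ K r := by
  set R₀ := ‖mult n c₀ b₀‖ with hR₀
  obtain ⟨σ, hσ1, hσ2⟩ : ∃ σ, Real.sqrt R₀ < σ ∧ σ < R₀ := by
    apply exists_between
    rw [Real.sqrt_lt' (by linarith)]
    nlinarith
  have hs1 : 1 < Real.sqrt R₀ := by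
    rw [Real.lt_sqrt (by norm_num)]; linarith
  have hσ3 : R₀ < σ ^ 2 := by
    have := Real.sq_sqrt (show 0 ≤ R₀ by linarith)
    nlinarith
  obtain ⟨Λ, hΛ1, hΛ2⟩ := exists_between hσ3
  set K : ℝ := ‖RR n c₀ b₀ 0‖ + 1 with hK
  -- neighbourhoods
  have e1 : ∀ᶠ p : ℂ × ℂ in 𝓝 (c₀, b₀), σ < ‖mult n p.1 p.2‖ :=
    (continuous_mult n).norm.continuousAt.eventually (lt_mem_nhds (by exact hσ2))
  have e2 : ∀ᶠ q : (ℂ × ℂ) × ℂ in 𝓝 ((c₀, b₀), (0 : ℂ)), ‖RR n q.1.1 q.1.2 q.2‖ < K :=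
    (continuous_RR n).norm.continuousAt.eventually (gt_mem_nhds (by simp only [hK]; linarith))
  have e3 : ∀ᶠ q : ℂ × ℂ × ℂ in 𝓝 (c₀, b₀, b₀), ‖DD n q.1 q.2.1 q.2.2‖ < Λ :=
    (continuous_DD n).norm.continuousAt.eventually
      (gt_mem_nhds (by simp only [DD_self]; exact hΛ1))
  obtain ⟨ε₂, hε₂, he2⟩ := Metric.eventually_nhds_iff.1 e2
  obtain ⟨ε₃, hε₃, he3⟩ := Metric.eventually_nhds_iff.1 e3
  obtain ⟨r, hr0, hr⟩ : ∃ r : ℝ, 0 < r ∧ r < ε₂ ∧ 4 * r < ε₃ ∧ K * r ≤ σ ^ 2 - Λ := by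
    have hKpos : 0 < K := by positivity
    refine ⟨min (ε₂ / 2) (min (ε₃ / 8) ((σ ^ 2 - Λ) / K)), ?_, ?_, ?_, ?_⟩
    · have : 0 < (σ ^ 2 - Λ) / K := div_pos (by linarith) hKpos
      positivity
    · exact (min_le_left _ _).trans_lt (by linarith)
    · have : min (ε₂ / 2) (min (ε₃ / 8) ((σ ^ 2 - Λ) / K)) ≤ ε₃ / 8 :=
        (min_le_right _ _).trans (min_le_left _ _)
      linarith
    · have : min (ε₂ / 2) (min (ε₃ / 8) ((σ ^ 2 - Λ) / K)) ≤ (σ ^ 2 - Λ) / K :=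
        (min_le_right _ _).trans (min_le_right _ _)
      calc K * _ ≤ K * ((σ ^ 2 - Λ) / K) := by gcongr
        _ = _ := by field_simp
  refine ⟨σ, Λ, K, r, ?_⟩
  have e4 : ∀ᶠ p : ℂ × ℂ in 𝓝 (c₀, b₀), dist p (c₀, b₀) < min ε₂ (ε₃ / 2) := by
    exact Metric.eventually_nhds_iff.2 ⟨min ε₂ (ε₃ / 2), by positivity, fun _ hy => hy⟩
  filter_upwards [e1, e4] with p hp1 hp4 hfix
  rw [Prod.dist_eq, max_lt_iff] at hp4
  obtain ⟨h41, h42⟩ := hp4
  simp only at h41 h42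
  have hΛ0 : 0 ≤ Λ := by linarith
  refine ⟨hfix, by linarith, hp1.le, hr0, by positivity, hΛ0, hΛ2, hr.2.2, ?_, ?_⟩
  · intro x y hx hy
    have : dist (p.1, x, y) (c₀, b₀, b₀) < ε₃ := by
      rw [Prod.dist_eq, Prod.dist_eq, max_lt_iff, max_lt_iff]
      refine ⟨h41.trans_le ((min_le_right _ _).trans (by linarith)), ?_, ?_⟩
      · have h5 := dist_triangle x p.2 b₀
        rw [dist_eq_norm x p.2] at h5
        have h6 := h42.trans_le (min_le_right _ _)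
        simp only
        linarith [hr.2.1]
      · have h5 := dist_triangle y p.2 b₀
        rw [dist_eq_norm y p.2] at h5
        have h6 := h42.trans_le (min_le_right _ _)
        simp only
        linarith [hr.2.1]
    exact (he3 this).le
  · intro h hh
    have : dist (p, h) ((c₀, b₀), (0 : ℂ)) < ε₂ := by
      rw [Prod.dist_eq, Prod.dist_eq, max_lt_iff, max_lt_iff]
      refine ⟨⟨h41.trans_le (min_le_left _ _), h42.trans_le (min_le_left _ _)⟩, ?_⟩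
      simp only
      rw [dist_zero_right]; exact hh.trans_lt hr.1
    exact (he2 this).le

namespace LD

variable {n : ℕ} {c b : ℂ} {σ Λ K r : ℝ}

lemma mult_ne (h : LD n c b σ Λ K r) : mult n c b ≠ 0 := by
  rw [← norm_pos_iff]; linarith [h.hσ, h.hρ]

lemma norm_div_le (h : LD n c b σ Λ K r) (ζ : ℂ) : ‖ζ / mult n c b‖ ≤ ‖ζ‖ := by
  rw [norm_div]
  exact div_le_self (norm_nonneg _) (by linarith [h.hσ, h.hρ])

lemma sq_div_le (h : LD n c b σ Λ K r) (ζ : ℂ) : ‖ζ / mult n c b‖ ^ 2 ≤ ‖ζ‖ ^ 2 / σ ^ 2 := by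
  rw [norm_div, div_pow]
  have := h.hσ
  have := h.hρ
  gcongr

lemma ratio_nonneg (h : LD n c b σ Λ K r) : 0 ≤ Λ / σ ^ 2 := div_nonneg h.hΛ0 (by positivity)

lemma ratio_lt_one (h : LD n c b σ Λ K r) : Λ / σ ^ 2 < 1 := by
  have : 0 < σ ^ 2 := by have := h.hσ; positivity
  rw [div_lt_one this]; exact h.hΛ

lemma sum_le (h : LD n c b σ Λ K r) (k : ℕ) :
    K / σ ^ 2 * ∑ j ∈ Finset.range k, (Λ / σ ^ 2) ^ j ≤ K / (σ ^ 2 - Λ) := by
  have hs : 0 < σ ^ 2 := by have := h.hσ; positivity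
  have h1 : ∑ j ∈ Finset.range k, (Λ / σ ^ 2) ^ j ≤ (1 - Λ / σ ^ 2)⁻¹ := by
    have h2 := (summable_geometric_of_lt_one h.ratio_nonneg h.ratio_lt_one).sum_le_tsum
      (Finset.range k) (fun j _ => pow_nonneg h.ratio_nonneg j)
    rwa [tsum_geometric_of_lt_one h.ratio_nonneg h.ratio_lt_one] at h2
  have hK := h.hK
  calc K / σ ^ 2 * ∑ j ∈ Finset.range k, (Λ / σ ^ 2) ^ j ≤ K / σ ^ 2 * (1 - Λ / σ ^ 2)⁻¹ := by
        gcongr
    _ = K / (σ ^ 2 - Λ) := by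
        have h3 : 0 < σ ^ 2 - Λ := by linarith [h.hΛ]
        rw [one_sub_div hs.ne', inv_div, div_mul_div_cancel₀ hs.ne']

lemma sum_le' (h : LD n c b σ Λ K r) (k : ℕ) {ζ : ℂ} (hζ : ‖ζ‖ ≤ r) :
    K / σ ^ 2 * (∑ j ∈ Finset.range k, (Λ / σ ^ 2) ^ j) * ‖ζ‖ ^ 2 ≤ ‖ζ‖ := by
  have h1 := h.sum_le k
  have h3 : 0 < σ ^ 2 - Λ := by linarith [h.hΛ]
  have h4 : K / (σ ^ 2 - Λ) * r ≤ 1 := by
    rw [div_mul_eq_mul_div, div_le_one h3]; exact h.hKr
  have h5 : 0 ≤ K / (σ ^ 2 - Λ) := div_nonneg h.hK h3.le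
  calc K / σ ^ 2 * (∑ j ∈ Finset.range k, (Λ / σ ^ 2) ^ j) * ‖ζ‖ ^ 2
      ≤ K / (σ ^ 2 - Λ) * ‖ζ‖ ^ 2 := by gcongr
    _ = K / (σ ^ 2 - Λ) * ‖ζ‖ * ‖ζ‖ := by ring
    _ ≤ K / (σ ^ 2 - Λ) * r * ‖ζ‖ := by gcongr
    _ ≤ 1 * ‖ζ‖ := by gcongr
    _ = ‖ζ‖ := one_mul _

theorem key (h : LD n c b σ Λ K r) (k : ℕ) : ∀ ζ : ℂ, ‖ζ‖ ≤ r →
    ‖Lk n c b k ζ - b - ζ‖ ≤ K / σ ^ 2 * (∑ j ∈ Finset.range k, (Λ / σ ^ 2) ^ j) * ‖ζ‖ ^ 2 ∧
    ‖Lk n c b (k + 1) ζ - Lk n c b k ζ‖ ≤ K / σ ^ 2 * (Λ / σ ^ 2) ^ k * ‖ζ‖ ^ 2 := by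
  have hstep : ∀ k : ℕ, ∀ ζ : ℂ,
      (‖Lk n c b k ζ - b - ζ‖ ≤
        K / σ ^ 2 * (∑ j ∈ Finset.range k, (Λ / σ ^ 2) ^ j) * ‖ζ‖ ^ 2 ∧
      ‖Lk n c b (k + 1) ζ - Lk n c b k ζ‖ ≤ K / σ ^ 2 * (Λ / σ ^ 2) ^ k * ‖ζ‖ ^ 2) →
      ‖Lk n c b (k + 1) ζ - b - ζ‖ ≤
        K / σ ^ 2 * (∑ j ∈ Finset.range (k + 1), (Λ / σ ^ 2) ^ j) * ‖ζ‖ ^ 2 := by
    intro k ζ hh
    have e : Lk n c b (k + 1) ζ - b - ζ =
      (Lk n c b k ζ - b - ζ) + (Lk n c b (k + 1) ζ - Lk n c b k ζ) := by ring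
    rw [e, Finset.sum_range_succ]
    refine (norm_add_le _ _).trans ?_
    have := hh.1
    have := hh.2
    nlinarith
  induction k with
  | zero =>
    intro ζ hζ
    refine ⟨by simp [Lk_zero], ?_⟩
    have h1 := it_add_eq n c b (ζ / mult n c b)
    rw [h.fix, mul_div_cancel₀ _ h.mult_ne] at h1
    have h2 : Lk n c b (0 + 1) ζ - Lk n c b 0 ζ =
        (ζ / mult n c b) ^ 2 * RR n c b (ζ / mult n c b) := by
      rw [Lk_succ, Lk_zero, Lk_zero, h1]; ring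
    rw [h2, norm_mul, norm_pow, pow_zero, mul_one]
    have h3 := h.hR _ ((h.norm_div_le ζ).trans hζ)
    have h4 := h.sq_div_le ζ
    calc ‖ζ / mult n c b‖ ^ 2 * ‖RR n c b (ζ / mult n c b)‖ ≤ (‖ζ‖ ^ 2 / σ ^ 2) * K := by
          gcongr
      _ = _ := by ring
  | succ k ih =>
    intro ζ hζ
    have hb1 := hstep k ζ (ih ζ hζ)
    refine ⟨hb1, ?_⟩
    have hζ' := (h.norm_div_le ζ).trans hζ
    obtain ⟨i1, i2⟩ := ih _ hζ'
    have i3 := hstep k _ ⟨i1, i2⟩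
    have g1 : ‖Lk n c b k (ζ / mult n c b) - b‖ ≤ 2 * r := by
      have e : Lk n c b k (ζ / mult n c b) - b =
        (Lk n c b k (ζ / mult n c b) - b - ζ / mult n c b) + ζ / mult n c b := by ring
      rw [e]
      refine (norm_add_le _ _).trans ?_
      have := h.sum_le' k hζ'
      linarith
    have g2 : ‖Lk n c b (k + 1) (ζ / mult n c b) - b‖ ≤ 2 * r := by
      have e : Lk n c b (k + 1) (ζ / mult n c b) - b =
        (Lk n c b (k + 1) (ζ / mult n c b) - b - ζ / mult n c b) + ζ / mult n c b := by ring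
      rw [e]
      refine (norm_add_le _ _).trans ?_
      have := h.sum_le' (k + 1) hζ'
      linarith
    have e1 := Lk_succ n c b (k + 1) ζ
    have e2 := Lk_succ n c b k ζ
    rw [e1, e2, it_sub_it, norm_mul]
    have g3 := h.hD _ _ g2 g1
    have h4 := h.sq_div_le ζ
    have hK := h.hK
    have hrn := h.ratio_nonneg
    have hΛ0 := h.hΛ0
    calc ‖Lk n c b (k + 1) (ζ / mult n c b) - Lk n c b k (ζ / mult n c b)‖ *
          ‖DD n c (Lk n c b (k + 1) (ζ / mult n c b)) (Lk n c b k (ζ / mult n c b))‖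
        ≤ (K / σ ^ 2 * (Λ / σ ^ 2) ^ k * ‖ζ / mult n c b‖ ^ 2) * Λ := by gcongr
      _ ≤ (K / σ ^ 2 * (Λ / σ ^ 2) ^ k * (‖ζ‖ ^ 2 / σ ^ 2)) * Λ := by gcongr
      _ = _ := by rw [pow_succ]; ring

lemma norm_Lk_sub_le (h : LD n c b σ Λ K r) (k : ℕ) {ζ : ℂ} (hζ : ‖ζ‖ ≤ r) :
    ‖Lk n c b (k + 1) ζ - Lk n c b k ζ‖ ≤ (K / σ ^ 2 * r ^ 2) * (Λ / σ ^ 2) ^ k := by
  have h1 := (h.key k ζ hζ).2
  have hK := h.hK
  have hrn := h.ratio_nonneg
  calc _ ≤ K / σ ^ 2 * (Λ / σ ^ 2) ^ k * ‖ζ‖ ^ 2 := h1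
    _ ≤ K / σ ^ 2 * (Λ / σ ^ 2) ^ k * r ^ 2 := by gcongr
    _ = _ := by ring

lemma tendsto_of_le (h : LD n c b σ Λ K r) {ζ : ℂ} (hζ : ‖ζ‖ ≤ r) :
    Tendsto (fun k => Lk n c b k ζ) atTop (𝓝 (Lz n c b ζ)) := by
  have h1 : CauchySeq fun k => Lk n c b k ζ := by
    refine cauchySeq_of_le_geometric (Λ / σ ^ 2) (K / σ ^ 2 * r ^ 2) h.ratio_lt_one fun k => ?_
    rw [dist_comm, dist_eq_norm]
    exact h.norm_Lk_sub_le k hζ
  exact h1.tendsto_limUnder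

lemma norm_Lk_sub_Lz (h : LD n c b σ Λ K r) {ζ : ℂ} (hζ : ‖ζ‖ ≤ r) (k : ℕ) :
    ‖Lk n c b k ζ - Lz n c b ζ‖ ≤
      (K / σ ^ 2 * r ^ 2) * (Λ / σ ^ 2) ^ k / (1 - Λ / σ ^ 2) := by
  have h2 : ∀ k, dist (Lk n c b k ζ) (Lk n c b (k + 1) ζ) ≤
      (K / σ ^ 2 * r ^ 2) * (Λ / σ ^ 2) ^ k := by
    intro k
    rw [dist_comm, dist_eq_norm]
    exact h.norm_Lk_sub_le k hζ
  have := dist_le_of_le_geometric_of_tendsto (Λ / σ ^ 2) (K / σ ^ 2 * r ^ 2) h.ratio_lt_one h2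
    (h.tendsto_of_le hζ) k
  rwa [dist_eq_norm] at this

/-- `Lz` is tangent to the translation by `b`, with a uniform constant -/
theorem norm_Lz_sub (h : LD n c b σ Λ K r) {ζ : ℂ} (hζ : ‖ζ‖ ≤ r) :
    ‖Lz n c b ζ - b - ζ‖ ≤ K / (σ ^ 2 - Λ) * ‖ζ‖ ^ 2 := by
  have h1 : Tendsto (fun k => ‖Lk n c b k ζ - b - ζ‖) atTop (𝓝 ‖Lz n c b ζ - b - ζ‖) :=
    (((h.tendsto_of_le hζ).sub_const b).sub_const ζ).norm
  refine le_of_tendsto' h1 fun k => ((h.key k ζ hζ).1).trans ?_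
  have := h.sum_le k
  gcongr

/-- some division by a power of the multiplier brings `ζ` into the small disc -/
lemma exists_pow (h : LD n c b σ Λ K r) (ζ : ℂ) : ∃ m : ℕ, ‖ζ / mult n c b ^ m‖ < r := by
  have h1 : Tendsto (fun m : ℕ => ‖ζ‖ / ‖mult n c b‖ ^ m) atTop (𝓝 0) :=
    (tendsto_pow_atTop_atTop_of_one_lt (by linarith [h.hσ, h.hρ])).const_div_atTop _
  obtain ⟨m, hm⟩ := (h1.eventually (gt_mem_nhds h.hr)).exists
  exact ⟨m, by rwa [norm_div, norm_pow]⟩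

end LD

/-! ### the linearizer -/

section Lz

variable {n : ℕ} {c b : ℂ}

lemma LD_of_Rep (h : (c, b) ∈ Rep n) : ∃ σ Λ K r : ℝ, LD n c b σ Λ K r := by
  obtain ⟨σ, Λ, K, r, h1⟩ := exists_LD h.2
  exact ⟨σ, Λ, K, r, h1.self_of_nhds h.1⟩

lemma tendsto_aux (ζ : ℂ) {σ Λ K r : ℝ} (hL : LD n c b σ Λ K r) {m : ℕ}
    (hm : ‖ζ / mult n c b ^ m‖ ≤ r) : Tendsto (fun k => Lk n c b k ζ) atTop
      (𝓝 (it c (n * m) (Lz n c b (ζ / mult n c b ^ m)))) := by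
  have h1 := hL.tendsto_of_le hm
  have h2 : Tendsto (fun k => Lk n c b (k + m) ζ) atTop
      (𝓝 (it c (n * m) (Lz n c b (ζ / mult n c b ^ m)))) := by
    simp only [Lk_add]
    exact ((continuous_it_right c (n * m)).tendsto _).comp h1
  exact (tendsto_add_atTop_iff_nat m).1 h2

theorem tendsto_Lk (h : (c, b) ∈ Rep n) (ζ : ℂ) :
    Tendsto (fun k => Lk n c b k ζ) atTop (𝓝 (Lz n c b ζ)) := by
  obtain ⟨σ, Λ, K, r, hL⟩ := LD_of_Rep h
  obtain ⟨m, hm⟩ := hL.exists_pow ζ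
  have h1 := tendsto_aux ζ hL hm.le
  have h2 : Lz n c b ζ = it c (n * m) (Lz n c b (ζ / mult n c b ^ m)) := h1.limUnder_eq
  rw [h2]; exact h1

theorem Lz_zero (h : (c, b) ∈ Rep n) : Lz n c b 0 = b := by
  have h1 : ∀ k, it c (n * k) b = b := by
    intro k
    induction k with
    | zero => simp
    | succ k ih => rw [mul_add, mul_one, add_comm, it_add, ih, h.1]
  refine tendsto_nhds_unique (tendsto_Lk h 0) ?_
  have : (fun k => Lk n c b k 0) = fun _ => b := by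
    funext k; unfold Lk; rw [zero_div, add_zero, h1]
  rw [this]; exact tendsto_const_nhds

lemma mult_ne_of_Rep (h : (c, b) ∈ Rep n) : mult n c b ≠ 0 := by
  have h2 : 1 < ‖mult n c b‖ := h.2
  rw [← norm_pos_iff]; linarith

/-- the functional equation -/
theorem Lz_mul (h : (c, b) ∈ Rep n) (ζ : ℂ) :
    Lz n c b (mult n c b * ζ) = it c n (Lz n c b ζ) := by
  have h1 : Tendsto (fun k => Lk n c b (k + 1) (mult n c b * ζ)) atTop
      (𝓝 (Lz n c b (mult n c b * ζ))) :=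
    (tendsto_Lk h _).comp (tendsto_add_atTop_nat 1)
  have h2 : Tendsto (fun k => it c n (Lk n c b k ζ)) atTop (𝓝 (it c n (Lz n c b ζ))) :=
    ((continuous_it_right c n).tendsto _).comp (tendsto_Lk h ζ)
  refine tendsto_nhds_unique h1 (h2.congr fun k => ?_)
  rw [Lk_succ, mul_div_cancel_left₀ _ (mult_ne_of_Rep h)]

theorem Lz_pow_mul (h : (c, b) ∈ Rep n) (m : ℕ) (ζ : ℂ) :
    Lz n c b (mult n c b ^ m * ζ) = it c (n * m) (Lz n c b ζ) := by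
  induction m with
  | zero => simp
  | succ m ih =>
    rw [pow_succ', mul_assoc, Lz_mul h, ih, mul_add, mul_one, add_comm (n * m), it_add]

theorem Lz_eq_it (h : (c, b) ∈ Rep n) (m : ℕ) (ζ : ℂ) :
    Lz n c b ζ = it c (n * m) (Lz n c b (ζ / mult n c b ^ m)) := by
  rw [← Lz_pow_mul h, mul_div_cancel₀ _ (pow_ne_zero _ (mult_ne_of_Rep h))]

end Lz

lemma continuous_Lk_aux (n k : ℕ) : ContinuousOn
    (fun q : (ℂ × ℂ) × ℂ => Lk n q.1.1 q.1.2 k q.2) {q | mult n q.1.1 q.1.2 ≠ 0} := by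
  unfold Lk
  have h1 : Continuous ((fun p : ℂ × ℂ => mult n p.1 p.2) ∘ fun q : (ℂ × ℂ) × ℂ => q.1) :=
    Continuous.comp (continuous_mult n) continuous_fst
  have h1' : Continuous fun q : (ℂ × ℂ) × ℂ => mult n q.1.1 q.1.2 := h1
  have h2 : ContinuousOn (fun q : (ℂ × ℂ) × ℂ => q.1.2 + q.2 / mult n q.1.1 q.1.2 ^ k)
      {q | mult n q.1.1 q.1.2 ≠ 0} :=
    (continuous_fst.snd).continuousOn.add
      (continuous_snd.continuousOn.div (h1'.pow k).continuousOn fun q hq => pow_ne_zero _ hq)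
  have h3 : ContinuousOn (fun q : (ℂ × ℂ) × ℂ =>
      ((q.1.1, q.1.2 + q.2 / mult n q.1.1 q.1.2 ^ k) : ℂ × ℂ))
      {q | mult n q.1.1 q.1.2 ≠ 0} :=
    (continuous_fst.fst).continuousOn.prodMk h2
  exact Continuous.comp_continuousOn (g := fun p : ℂ × ℂ => it p.1 (n * k) p.2)
    (continuous_it (n * k)) h3

/-- uniform convergence of the approximants near a point -/
lemma tendstoUniformlyOn_Lk {n : ℕ} {σ Λ K r : ℝ} {α : Type*} {S : Set α} {c b δ : α → ℂ}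
    (h : ∀ t ∈ S, LD n (c t) (b t) σ Λ K r ∧ ‖δ t‖ ≤ r) :
    TendstoUniformlyOn (fun (k : ℕ) (t : α) => Lk n (c t) (b t) k (δ t))
      (fun t => Lz n (c t) (b t) (δ t)) atTop S := by
  rw [Metric.tendstoUniformlyOn_iff]
  intro ε hε
  by_cases hS : S.Nonempty
  · obtain ⟨t₀, ht₀⟩ := hS
    have hL := (h t₀ ht₀).1
    have h1 : Tendsto (fun k : ℕ => (K / σ ^ 2 * r ^ 2) * (Λ / σ ^ 2) ^ k / (1 - Λ / σ ^ 2))
        atTop (𝓝 0) := by
      have := ((tendsto_pow_atTop_nhds_zero_of_lt_one hL.ratio_nonneg hL.ratio_lt_one).const_mul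
        (K / σ ^ 2 * r ^ 2)).div_const (1 - Λ / σ ^ 2)
      simpa using this
    filter_upwards [h1.eventually (gt_mem_nhds hε)] with k hk t ht
    rw [dist_comm, dist_eq_norm]
    exact ((h t ht).1.norm_Lk_sub_Lz (h t ht).2 k).trans_lt hk
  · rw [not_nonempty_iff_eq_empty] at hS
    exact Eventually.of_forall fun k t ht => by rw [hS] at ht; exact absurd ht (notMem_empty _)

/-- joint continuity of the linearizer -/
theorem continuousOn_Lz (n : ℕ) : ContinuousOn (fun q : (ℂ × ℂ) × ℂ => Lz n q.1.1 q.1.2 q.2)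
    {q | q.1 ∈ Rep n} := by
  intro q₀ hq₀
  have hq₀' : q₀.1 ∈ Rep n := hq₀
  obtain ⟨σ, Λ, K, r, hev⟩ := exists_LD (n := n) (c₀ := q₀.1.1) (b₀ := q₀.1.2) hq₀'.2
  have hL₀ : LD n q₀.1.1 q₀.1.2 σ Λ K r := hev.self_of_nhds hq₀'.1
  obtain ⟨m, hm⟩ := hL₀.exists_pow q₀.2
  obtain ⟨N, hN, hNo, hq₀N⟩ := _root_.eventually_nhds_iff.1 hev
  have h1 : Continuous fun q : (ℂ × ℂ) × ℂ => mult n q.1.1 q.1.2 := by
    have : Continuous ((fun p : ℂ × ℂ => mult n p.1 p.2) ∘ fun q : (ℂ × ℂ) × ℂ => q.1) :=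
      Continuous.comp (continuous_mult n) continuous_fst
    exact this
  have hc1 : ContinuousOn (fun q : (ℂ × ℂ) × ℂ => ((q.1, q.2 / mult n q.1.1 q.1.2 ^ m) :
      (ℂ × ℂ) × ℂ)) {q | q.1 ∈ Rep n} :=
    continuousOn_fst.prodMk (continuousOn_snd.div (h1.pow m).continuousOn fun q hq =>
      pow_ne_zero _ (mult_ne_of_Rep (c := q.1.1) (b := q.1.2) hq))
  set T : Set ((ℂ × ℂ) × ℂ) := {q | q.1 ∈ Rep n ∧ q.1 ∈ N ∧ ‖q.2‖ < r} with hT
  have hcL : ContinuousOn (fun q : (ℂ × ℂ) × ℂ => Lz n q.1.1 q.1.2 q.2) T := by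
    have hu := tendstoUniformlyOn_Lk (n := n) (S := T) (c := fun q => q.1.1)
      (b := fun q => q.1.2) (δ := fun q => q.2) (σ := σ) (Λ := Λ) (K := K) (r := r)
      (fun q hq => ⟨hN q.1 hq.2.1 hq.1.1, hq.2.2.le⟩)
    refine hu.continuousOn (Eventually.frequently (Eventually.of_forall fun k => ?_))
    exact (continuous_Lk_aux n k).mono fun q hq =>
      mult_ne_of_Rep (c := q.1.1) (b := q.1.2) hq.1
  -- the point `(q.1, q.2 / ρ ^ m)` lies in `T` near `q₀`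
  have hmem : (q₀.1, q₀.2 / mult n q₀.1.1 q₀.1.2 ^ m) ∈ T := ⟨hq₀', hq₀N, hm⟩
  have hTn : ∀ᶠ q in 𝓝[{q | q.1 ∈ Rep n}] q₀,
      ((q.1, q.2 / mult n q.1.1 q.1.2 ^ m) : (ℂ × ℂ) × ℂ) ∈ T := by
    have hopen : IsOpen {q : (ℂ × ℂ) × ℂ | q.1 ∈ N ∧ ‖q.2‖ < r} :=
      (hNo.preimage continuous_fst).inter (isOpen_lt continuous_snd.norm continuous_const)
    have h5 := (hc1 q₀ hq₀).eventually (hopen.mem_nhds (show _ ∈ _ from ⟨hq₀N, hm⟩))
    filter_upwards [h5, self_mem_nhdsWithin] with q hq1 hq2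
    exact ⟨hq2, hq1⟩
  have h6 : ContinuousWithinAt (fun q : (ℂ × ℂ) × ℂ =>
      Lz n q.1.1 q.1.2 (q.2 / mult n q.1.1 q.1.2 ^ m)) {q | q.1 ∈ Rep n} q₀ := by
    have h7 : Tendsto (fun q : (ℂ × ℂ) × ℂ => ((q.1, q.2 / mult n q.1.1 q.1.2 ^ m) :
        (ℂ × ℂ) × ℂ)) (𝓝[{q | q.1 ∈ Rep n}] q₀)
        (𝓝[T] (q₀.1, q₀.2 / mult n q₀.1.1 q₀.1.2 ^ m)) :=
      tendsto_nhdsWithin_iff.2 ⟨hc1 q₀ hq₀, hTn⟩
    have h7' : Tendsto ((fun q : (ℂ × ℂ) × ℂ => Lz n q.1.1 q.1.2 q.2) ∘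
        fun q : (ℂ × ℂ) × ℂ => ((q.1, q.2 / mult n q.1.1 q.1.2 ^ m) : (ℂ × ℂ) × ℂ))
        (𝓝[{q | q.1 ∈ Rep n}] q₀)
        (𝓝 (Lz n q₀.1.1 q₀.1.2 (q₀.2 / mult n q₀.1.1 q₀.1.2 ^ m))) :=
      Tendsto.comp (hcL _ hmem).tendsto h7
    exact h7'
  have h8 : ContinuousWithinAt (fun q : (ℂ × ℂ) × ℂ => it q.1.1 (n * m)
      (Lz n q.1.1 q.1.2 (q.2 / mult n q.1.1 q.1.2 ^ m))) {q | q.1 ∈ Rep n} q₀ := by
    have h9 : ContinuousWithinAt (fun q : (ℂ × ℂ) × ℂ => ((q.1.1,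
      Lz n q.1.1 q.1.2 (q.2 / mult n q.1.1 q.1.2 ^ m)) : ℂ × ℂ)) {q | q.1 ∈ Rep n} q₀ :=
      (continuous_fst.fst).continuousWithinAt.prodMk h6
    have h10 : Tendsto ((fun p : ℂ × ℂ => it p.1 (n * m) p.2) ∘
        fun q : (ℂ × ℂ) × ℂ => ((q.1.1,
          Lz n q.1.1 q.1.2 (q.2 / mult n q.1.1 q.1.2 ^ m)) : ℂ × ℂ))
        (𝓝[{q | q.1 ∈ Rep n}] q₀) (𝓝 (it q₀.1.1 (n * m)
          (Lz n q₀.1.1 q₀.1.2 (q₀.2 / mult n q₀.1.1 q₀.1.2 ^ m)))) :=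
      Tendsto.comp ((continuous_it (n * m)).tendsto _) h9
    exact h10
  refine h8.congr (fun q hq => ?_) ?_
  · exact Lz_eq_it (c := q.1.1) (b := q.1.2) hq m q.2
  · exact Lz_eq_it (c := q₀.1.1) (b := q₀.1.2) hq₀' m q₀.2

/-- the linearizer is holomorphic along holomorphic curves of (parameter, fixed point, variable) -/
theorem differentiableOn_Lz {n : ℕ} {U : Set ℂ} (hU : IsOpen U) {γ β δ : ℂ → ℂ}
    (hγ : DifferentiableOn ℂ γ U) (hβ : DifferentiableOn ℂ β U) (hδ : DifferentiableOn ℂ δ U)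
    (h : ∀ t ∈ U, (γ t, β t) ∈ Rep n) :
    DifferentiableOn ℂ (fun t => Lz n (γ t) (β t) (δ t)) U := by
  intro t₀ ht₀
  obtain ⟨σ, Λ, K, r, hev⟩ := exists_LD (h t₀ ht₀).2
  have hL₀ : LD n (γ t₀) (β t₀) σ Λ K r := hev.self_of_nhds (h t₀ ht₀).1
  obtain ⟨m, hm⟩ := hL₀.exists_pow (δ t₀)
  obtain ⟨N, hN, hNo, hN₀⟩ := _root_.eventually_nhds_iff.1 hev
  have hmu : DifferentiableOn ℂ (fun t => mult n (γ t) (β t)) U :=
    (differentiable_mult n).comp_differentiableOn (hγ.prodMk hβ)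
  have hd1 : DifferentiableOn ℂ (fun t => δ t / mult n (γ t) (β t) ^ m) U :=
    hδ.div (hmu.pow m) fun t ht => pow_ne_zero _ (mult_ne_of_Rep (h t ht))
  have hc1 : ContinuousOn (fun t => (((γ t, β t), δ t / mult n (γ t) (β t) ^ m) :
      (ℂ × ℂ) × ℂ)) U :=
    (hγ.continuousOn.prodMk hβ.continuousOn).prodMk hd1.continuousOn
  have hopen : IsOpen {q : (ℂ × ℂ) × ℂ | q.1 ∈ N ∧ ‖q.2‖ < r} :=
    (hNo.preimage continuous_fst).inter (isOpen_lt continuous_snd.norm continuous_const)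
  have hV := hc1.isOpen_inter_preimage hU hopen
  set V := U ∩ (fun t => (((γ t, β t), δ t / mult n (γ t) (β t) ^ m) :
      (ℂ × ℂ) × ℂ)) ⁻¹' {q : (ℂ × ℂ) × ℂ | q.1 ∈ N ∧ ‖q.2‖ < r} with hVdef
  have hVU : V ⊆ U := inter_subset_left
  have h1 : DifferentiableOn ℂ (fun t => Lz n (γ t) (β t) (δ t / mult n (γ t) (β t) ^ m)) V := by
    have hu := tendstoUniformlyOn_Lk (n := n) (S := V) (c := γ)
      (b := β) (δ := fun t => δ t / mult n (γ t) (β t) ^ m) (σ := σ) (Λ := Λ) (K := K) (r := r)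
      (fun t ht => ⟨hN (γ t, β t) ht.2.1 (h t ht.1).1, le_of_lt ht.2.2⟩)
    refine hu.tendstoLocallyUniformlyOn.differentiableOn (Eventually.of_forall fun k => ?_) hV
    unfold Lk
    have h2 : DifferentiableOn ℂ (fun t => β t + δ t / mult n (γ t) (β t) ^ m /
        mult n (γ t) (β t) ^ k) V :=
      (hβ.mono hVU).add (((hd1.mono hVU)).div ((hmu.mono hVU).pow k) fun t ht =>
        pow_ne_zero _ (mult_ne_of_Rep (h t (hVU ht))))
    exact (differentiable_it (n * k)).comp_differentiableOn ((hγ.mono hVU).prodMk h2)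
  have h3 : DifferentiableOn ℂ (fun t => it (γ t) (n * m)
      (Lz n (γ t) (β t) (δ t / mult n (γ t) (β t) ^ m))) V :=
    (differentiable_it (n * m)).comp_differentiableOn ((hγ.mono hVU).prodMk h1)
  have h4 : DifferentiableOn ℂ (fun t => Lz n (γ t) (β t) (δ t)) V :=
    h3.congr fun t ht => Lz_eq_it (h t (hVU ht)) m (δ t)
  exact (h4.differentiableAt (hV.mem_nhds ⟨ht₀, hN₀, hm⟩)).differentiableWithinAt

section Lz2

variable {n : ℕ} {c b : ℂ}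

/-- the linearizer is entire -/
theorem differentiable_Lz (h : (c, b) ∈ Rep n) : Differentiable ℂ (Lz n c b) := by
  rw [← differentiableOn_univ]
  exact differentiableOn_Lz (γ := fun _ => c) (β := fun _ => b) (δ := fun t => t) isOpen_univ
    (differentiableOn_const c) (differentiableOn_const b) differentiableOn_id fun _ _ => h

theorem hasDerivAt_Lz_zero (h : (c, b) ∈ Rep n) : HasDerivAt (Lz n c b) 1 0 := by
  obtain ⟨σ, Λ, K, r, hL⟩ := LD_of_Rep h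
  rw [hasDerivAt_iff_isLittleO_nhds_zero]
  simp only [zero_add, Lz_zero h, smul_eq_mul, mul_one]
  rw [Asymptotics.isLittleO_iff]
  intro ε hε
  have h3 : 0 < σ ^ 2 - Λ := by linarith [hL.hΛ]
  have h5 : 0 ≤ K / (σ ^ 2 - Λ) := div_nonneg hL.hK h3.le
  have hpos : 0 < min r (ε / (K / (σ ^ 2 - Λ) + 1)) := lt_min hL.hr (by positivity)
  filter_upwards [Metric.ball_mem_nhds (0 : ℂ) hpos] with ζ hζ
  rw [mem_ball_zero_iff, lt_min_iff] at hζ
  have h6 := hL.norm_Lz_sub hζ.1.le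
  have h7 : (K / (σ ^ 2 - Λ)) * ‖ζ‖ ≤ ε := by
    have h8 := hζ.2
    rw [lt_div_iff₀ (by positivity)] at h8
    nlinarith [norm_nonneg ζ]
  calc ‖Lz n c b ζ - b - ζ‖ ≤ K / (σ ^ 2 - Λ) * ‖ζ‖ ^ 2 := h6
    _ = (K / (σ ^ 2 - Λ) * ‖ζ‖) * ‖ζ‖ := by ring
    _ ≤ ε * ‖ζ‖ := by gcongr

/-- uniform injectivity near `0`: locally uniformly in the repelling pair -/
theorem eventually_inj_Lz {c₀ b₀ : ℂ} (h : (c₀, b₀) ∈ Rep n) : ∃ r > 0, ∀ᶠ p : ℂ × ℂ in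
    𝓝[Rep n] (c₀, b₀), ∀ ζ ζ' : ℂ, ‖ζ‖ ≤ r → ‖ζ'‖ ≤ r →
      ‖ζ - ζ'‖ / 2 ≤ ‖Lz n p.1 p.2 ζ - Lz n p.1 p.2 ζ'‖ := by
  obtain ⟨σ, Λ, K, r, hev⟩ := exists_LD h.2
  have hL₀ : LD n c₀ b₀ σ Λ K r := hev.self_of_nhds h.1
  have h3 : 0 < σ ^ 2 - Λ := by linarith [hL₀.hΛ]
  set C := K / (σ ^ 2 - Λ) with hC
  have hC0 : 0 ≤ C := div_nonneg hL₀.hK h3.le
  have hr := hL₀.hr
  set r' := min (r / 2) (1 / (8 * (C + 1))) with hr'
  have hr'0 : 0 < r' := by positivity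
  have hr'1 : 2 * r' ≤ r := by have := min_le_left (r / 2) (1 / (8 * (C + 1))); linarith
  have hr'2 : 4 * C * r' ≤ 1 / 2 := by
    have h4 : r' ≤ 1 / (8 * (C + 1)) := min_le_right _ _
    rw [le_div_iff₀ (by positivity)] at h4
    nlinarith
  refine ⟨r', hr'0, ?_⟩
  filter_upwards [mem_nhdsWithin_of_mem_nhds hev, self_mem_nhdsWithin] with p hp1 hp2
  have hL : LD n p.1 p.2 σ Λ K r := hp1 hp2.1
  have hd : Differentiable ℂ (Lz n p.1 p.2) := differentiable_Lz hp2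
  set g : ℂ → ℂ := fun ζ => Lz n p.1 p.2 ζ - p.2 - ζ with hg
  have hgd : Differentiable ℂ g := (hd.sub_const _).sub differentiable_id
  have hbd : ∀ ζ : ℂ, ‖ζ‖ ≤ r' → ‖deriv g ζ‖ ≤ 1 / 2 := by
    intro ζ hζ
    have h5 : ∀ ξ ∈ sphere ζ r', ‖g ξ‖ ≤ 4 * C * r' ^ 2 := by
      intro ξ hξ
      have h6 : ‖ξ‖ ≤ 2 * r' := by
        rw [mem_sphere_iff_norm] at hξ
        have := norm_add_le (ξ - ζ) ζ
        rw [sub_add_cancel] at this
        linarith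
      have h7 := hL.norm_Lz_sub (h6.trans hr'1)
      calc ‖g ξ‖ ≤ C * ‖ξ‖ ^ 2 := h7
        _ ≤ C * (2 * r') ^ 2 := by gcongr
        _ = _ := by ring
    have h8 := Complex.norm_deriv_le_of_forall_mem_sphere_norm_le hr'0
      (hgd.diffContOnCl) h5
    calc ‖deriv g ζ‖ ≤ 4 * C * r' ^ 2 / r' := h8
      _ = 4 * C * r' := by field_simp
      _ ≤ 1 / 2 := hr'2
  intro ζ ζ' hζ hζ'
  have h9 : ‖g ζ - g ζ'‖ ≤ 1 / 2 * ‖ζ - ζ'‖ := by
    refine Convex.norm_image_sub_le_of_norm_deriv_le (s := closedBall 0 r')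
      (fun x _ => hgd.differentiableAt) (fun x hx => hbd x (by simpa using hx))
      (convex_closedBall _ _) (by simpa using hζ') (by simpa using hζ)
  have h10 : ζ - ζ' = (Lz n p.1 p.2 ζ - Lz n p.1 p.2 ζ') - (g ζ - g ζ') := by
    simp only [hg]; ring
  have h11 : ‖ζ - ζ'‖ ≤ ‖Lz n p.1 p.2 ζ - Lz n p.1 p.2 ζ'‖ + ‖g ζ - g ζ'‖ := by
    nth_rewrite 1 [h10]; exact norm_sub_le _ _
  linarith

theorem exists_injOn (h : (c, b) ∈ Rep n) : ∃ r > 0, InjOn (Lz n c b) (closedBall 0 r) := by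
  obtain ⟨r, hr, hev⟩ := eventually_inj_Lz h
  refine ⟨r, hr, fun x hx y hy hxy => ?_⟩
  have h1 := hev.self_of_nhdsWithin h x y (by simpa using hx) (by simpa using hy)
  simp only at h1
  rw [hxy, sub_self, norm_zero] at h1
  have h2 : ‖x - y‖ ≤ 0 := by linarith
  exact sub_eq_zero.1 (norm_le_zero_iff.1 h2)

/-- the chain rule for the functional equation -/
theorem deriv_Lz_mul (h : (c, b) ∈ Rep n) (m : ℕ) (ζ : ℂ) :
    deriv (Lz n c b) ζ = mult (n * m) c (Lz n c b (ζ / mult n c b ^ m)) *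
      deriv (Lz n c b) (ζ / mult n c b ^ m) / mult n c b ^ m := by
  have h1 : HasDerivAt (fun x => it c (n * m) (Lz n c b (x / mult n c b ^ m)))
      (mult (n * m) c (Lz n c b (ζ / mult n c b ^ m)) *
      (deriv (Lz n c b) (ζ / mult n c b ^ m) * (1 / mult n c b ^ m))) ζ := by
    have h2 : HasDerivAt (fun x : ℂ => x / mult n c b ^ m) (1 / mult n c b ^ m) ζ :=
      (hasDerivAt_id ζ).div_const _
    have h3 := ((differentiable_Lz h).differentiableAt (x := ζ / mult n c b ^ m)).hasDerivAt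
    have h3' : HasDerivAt (fun x => Lz n c b (x / mult n c b ^ m))
        (deriv (Lz n c b) (ζ / mult n c b ^ m) * (1 / mult n c b ^ m)) ζ :=
      HasDerivAt.comp ζ (h₂ := Lz n c b) h3 h2
    exact HasDerivAt.comp ζ (h₂ := it c (n * m)) (hasDerivAt_it_mult c (n * m) _) h3'
  have h4 : (fun x => it c (n * m) (Lz n c b (x / mult n c b ^ m))) = Lz n c b := by
    funext x; exact (Lz_eq_it h m x).symm
  rw [h4] at h1
  rw [h1.deriv]; ring

lemma mult_eq_zero {N : ℕ} {z : ℂ} (h : mult N c z = 0) : ∃ i < N, it c i z = 0 := by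
  unfold mult at h
  rw [Finset.prod_eq_zero_iff] at h
  obtain ⟨i, hi, h1⟩ := h
  exact ⟨i, Finset.mem_range.1 hi, by simpa using h1⟩

/-- the Green function in the linearizing coordinate -/
theorem G_Lz_mul (h : (c, b) ∈ Rep n) (ζ : ℂ) :
    G c (Lz n c b (mult n c b * ζ)) = 2 ^ n * G c (Lz n c b ζ) := by
  rw [Lz_mul h, G_it]

theorem G_Lz_pow_mul (h : (c, b) ∈ Rep n) (m : ℕ) (ζ : ℂ) :
    G c (Lz n c b (mult n c b ^ m * ζ)) = 2 ^ (n * m) * G c (Lz n c b ζ) := by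
  rw [Lz_pow_mul h, G_it]

/-- at a critical point of the linearizer the potential is `2 ^ j * G c 0` for some `j ≥ 1` -/
theorem exists_of_deriv_eq_zero (h : (c, b) ∈ Rep n) {ζ : ℂ} (h0 : deriv (Lz n c b) ζ = 0) :
    ∃ j : ℕ, 1 ≤ j ∧ G c (Lz n c b ζ) = 2 ^ j * G c 0 := by
  have hc : ContinuousAt (deriv (Lz n c b)) 0 :=
    ((differentiable_Lz h).contDiff (n := 1)).continuous_deriv (by norm_num) |>.continuousAt
  have h1 : ∀ᶠ x in 𝓝 (0 : ℂ), deriv (Lz n c b) x ≠ 0 := by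
    apply hc.eventually_ne
    rw [(hasDerivAt_Lz_zero h).deriv]; exact one_ne_zero
  have h2 : Tendsto (fun m : ℕ => ζ / mult n c b ^ m) atTop (𝓝 0) := by
    rw [tendsto_zero_iff_norm_tendsto_zero]
    have h3 : Tendsto (fun m : ℕ => ‖ζ‖ / ‖mult n c b‖ ^ m) atTop (𝓝 0) :=
      (tendsto_pow_atTop_atTop_of_one_lt h.2).const_div_atTop _
    refine h3.congr fun m => ?_
    rw [norm_div, norm_pow]
  obtain ⟨m, hm⟩ := (h2.eventually h1).exists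
  have h4 := deriv_Lz_mul h m ζ
  rw [h0] at h4
  have h5 : mult (n * m) c (Lz n c b (ζ / mult n c b ^ m)) = 0 := by
    by_contra hne
    have h6 := div_ne_zero (mul_ne_zero hne hm) (pow_ne_zero m (mult_ne_of_Rep h))
    exact h6 h4.symm
  obtain ⟨i, hi, h6⟩ := mult_eq_zero h5
  refine ⟨n * m - i, by omega, ?_⟩
  have h7 : it c (n * m) (Lz n c b (ζ / mult n c b ^ m)) = it c (n * m - i) 0 := by
    have e : n * m = (n * m - i) + i := by omega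
    nth_rewrite 1 [e]
    rw [it_add, h6]
  rw [Lz_eq_it h m ζ, h7, G_it]

/-- for `c` in the Mandelbrot set the linearizer has no critical point over the basin of infinity -/
theorem deriv_Lz_ne_zero (h : (c, b) ∈ Rep n) (hM : G c 0 = 0) {ζ : ℂ}
    (hζ : 0 < G c (Lz n c b ζ)) : deriv (Lz n c b) ζ ≠ 0 := by
  intro h0
  obtain ⟨j, _, hj⟩ := exists_of_deriv_eq_zero h h0
  rw [hM, mul_zero] at hj
  exact hζ.ne' hj

/-- the potential of the linearizer is positive somewhere near `0` -/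
theorem frequently_G_Lz_pos (h : (c, b) ∈ Rep n) : ∃ᶠ ζ in 𝓝 (0 : ℂ), 0 < G c (Lz n c b ζ) := by
  by_contra hcon
  rw [not_frequently] at hcon
  -- then the linearizer is bounded
  have hall : ∀ ζ : ℂ, G c (Lz n c b ζ) = 0 := by
    intro ζ
    have h2 : Tendsto (fun m : ℕ => ζ / mult n c b ^ m) atTop (𝓝 0) := by
      rw [tendsto_zero_iff_norm_tendsto_zero]
      have h3 : Tendsto (fun m : ℕ => ‖ζ‖ / ‖mult n c b‖ ^ m) atTop (𝓝 0) :=
        (tendsto_pow_atTop_atTop_of_one_lt h.2).const_div_atTop _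
      refine h3.congr fun m => ?_
      rw [norm_div, norm_pow]
    obtain ⟨m, hm⟩ := (h2.eventually hcon).exists
    have h3 : G c (Lz n c b (ζ / mult n c b ^ m)) = 0 :=
      le_antisymm (not_lt.1 hm) (G_nonneg _ _)
    rw [Lz_eq_it h m ζ, G_it, h3, mul_zero]
  have hb : Bornology.IsBounded (range (Lz n c b)) := by
    rw [isBounded_iff_forall_norm_le]
    refine ⟨1 + ‖c‖, ?_⟩
    rintro _ ⟨ζ, rfl⟩
    exact norm_le_of_G_zero (hall ζ)
  have hconst : ∀ z w, Lz n c b z = Lz n c b w := fun z w =>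
    (differentiable_Lz h).apply_eq_apply_of_bounded hb z w
  have h1 : deriv (Lz n c b) 0 = 0 := by
    have : Lz n c b = fun _ => Lz n c b 0 := by funext z; exact hconst z 0
    rw [this]; simp
  rw [(hasDerivAt_Lz_zero h).deriv] at h1
  exact one_ne_zero h1

/-- the potential `G c (Lz n c b ζ)` is jointly continuous -/
theorem continuousOn_G_Lz (n : ℕ) : ContinuousOn
    (fun q : (ℂ × ℂ) × ℂ => G q.1.1 (Lz n q.1.1 q.1.2 q.2)) {q | q.1 ∈ Rep n} := by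
  have h1 : ContinuousOn (fun q : (ℂ × ℂ) × ℂ => ((q.1.1, Lz n q.1.1 q.1.2 q.2) : ℂ × ℂ))
      {q | q.1 ∈ Rep n} := (continuous_fst.fst).continuousOn.prodMk (continuousOn_Lz n)
  have h2 : ContinuousOn ((fun p : ℂ × ℂ => G p.1 p.2) ∘
      fun q : (ℂ × ℂ) × ℂ => ((q.1.1, Lz n q.1.1 q.1.2 q.2) : ℂ × ℂ)) {q | q.1 ∈ Rep n} :=
    Continuous.comp_continuousOn continuous_G h1
  exact h2

end Lz2

end Pool.Agent.Work.MLC
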