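import Mathlib

set_option autoImplicit false

/-! # Crossing lemma (helper25)

Two curves in the plane that are periodic up to linearly independent translations meet. -/

namespace Pool.Agent.Work.MLC

open Filter Topology Metric Set Complex

/-- a continuous nowhere vanishing function on `ℝ × ℝ` has a continuous logarithm -/
theorem exists_log_plane {D : ℝ × ℝ → ℂ} (hD : Continuous D) (h0 : ∀ p, D p ≠ 0) :
    ∃ l : ℝ × ℝ → ℂ, Continuous l ∧ ∀ p, Complex.exp (l p) = D p := by
  obtain ⟨F, ⟨-, hF⟩, -⟩ := isCoveringMapOn_exp.existsUnique_continuousMap_lifts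
    (⟨D, hD⟩ : C(ℝ × ℝ, ℂ)) (a₀ := (0, 0)) (e₀ := Complex.log (D (0, 0)))
    (by rw [Complex.exp_log (h0 _)]; rfl) (fun p => h0 p)
  exact ⟨F, F.continuous, fun p => congrFun hF p⟩

/-- a continuous curve with `g (s + 1) = g s + v` stays at bounded distance of `s * v` -/
theorem bounded_sub_linear {g : ℝ → ℂ} (hg : Continuous g) {v : ℂ}
    (hp : ∀ s, g (s + 1) = g s + v) : ∃ C : ℝ, ∀ s : ℝ, ‖g s - s * v‖ ≤ C := by
  set k : ℝ → ℂ := fun s => g s - s * v with hk
  have hper : Function.Periodic k 1 := by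
    intro s
    simp only [hk, hp]
    push_cast
    ring
  have hc : Continuous k := by fun_prop
  obtain ⟨C, hC⟩ := (isCompact_Icc (a := (0 : ℝ)) (b := 1)).exists_bound_of_continuousOn
    (f := k) hc.continuousOn
  refine ⟨C, fun s => ?_⟩
  have h1 : k (Int.fract s) = k s := by
    have h3 := hper.sub_int_mul_eq (n := ⌊s⌋) (x := s)
    rw [mul_one, Int.self_sub_floor] at h3
    exact h3
  have h2 := hC (Int.fract s) ⟨Int.fract_nonneg s, (Int.fract_lt_one s).le⟩
  rw [h1] at h2
  exact h2

/-- **Crossing lemma.** -/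
theorem crossing {g g' : ℝ → ℂ} (hg : Continuous g) (hg' : Continuous g') {v v' : ℂ}
    (hp : ∀ s, g (s + 1) = g s + v) (hp' : ∀ s, g' (s + 1) = g' s + v')
    (hv : v.re * v'.im - v.im * v'.re ≠ 0) : ∃ s t, g s = g' t := by
  by_contra hcon
  push Not at hcon
  obtain ⟨C, hC⟩ := bounded_sub_linear hg hp
  obtain ⟨C', hC'⟩ := bounded_sub_linear hg' hp'
  obtain ⟨l, hl, hle⟩ := exists_log_plane (D := fun p => g p.1 - g' p.2)
    (by fun_prop) (fun p => sub_ne_zero.2 (hcon _ _))
  set d : ℝ := v.re * v'.im - v.im * v'.re with hd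
  have hC0 : 0 ≤ C := (norm_nonneg _).trans (hC 0)
  have hC'0 : 0 ≤ C' := (norm_nonneg _).trans (hC' 0)
  set R : ℝ := 2 * (C + C') + 1 with hR
  have hR0 : 0 < R := by positivity
  -- the point `(S φ, T φ)` with `S v - T v' = R e^{iφ}`
  set S : ℝ → ℝ := fun φ => R * (Real.cos φ * v'.im - Real.sin φ * v'.re) / d with hS
  set T : ℝ → ℝ := fun φ => R * (Real.cos φ * v.im - Real.sin φ * v.re) / d with hT
  have hST : ∀ φ : ℝ, (S φ : ℂ) * v - (T φ : ℂ) * v' = R * Complex.exp (φ * I) := by
    intro φ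
    apply Complex.ext
    · simp only [Complex.sub_re, Complex.mul_re, Complex.ofReal_re, Complex.ofReal_im, zero_mul,
        sub_zero, Complex.exp_ofReal_mul_I_re, hS, hT]
      field_simp
      rw [hd]
      ring
    · simp only [Complex.sub_im, Complex.mul_im, Complex.ofReal_re, Complex.ofReal_im, zero_mul,
        add_zero, Complex.exp_ofReal_mul_I_im, hS, hT]
      field_simp
      rw [hd]
      ring
  set w : ℝ → ℂ := fun φ => l (S φ, T φ) - φ * I with hw
  have hwc : Continuous w := by
    have h1 : Continuous S := by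
      simp only [hS]; fun_prop
    have h2 : Continuous T := by
      simp only [hT]; fun_prop
    exact (hl.comp (h1.prodMk h2)).sub (by fun_prop)
  have hper : w (2 * Real.pi) = w 0 - (2 * Real.pi : ℝ) * I := by
    have h1 : S (2 * Real.pi) = S 0 := by simp [hS]
    have h2 : T (2 * Real.pi) = T 0 := by simp [hT]
    simp only [hw, h1, h2]
    push_cast
    ring
  have hexp : ∀ φ : ℝ, 0 < (Complex.exp (w φ)).re := by
    intro φ
    have h1 : Complex.exp (w φ) * Complex.exp (φ * I) = g (S φ) - g' (T φ) := by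
      rw [← Complex.exp_add]
      simp only [hw, sub_add_cancel]
      exact hle _
    have h2 : ‖g (S φ) - g' (T φ) - R * Complex.exp (φ * I)‖ ≤ C + C' := by
      rw [← hST φ]
      have e : g (S φ) - g' (T φ) - ((S φ : ℂ) * v - (T φ : ℂ) * v') =
          (g (S φ) - (S φ : ℂ) * v) - (g' (T φ) - (T φ : ℂ) * v') := by ring
      rw [e]
      exact (norm_sub_le _ _).trans (add_le_add (hC _) (hC' _))
    have h3 : ‖(Complex.exp (w φ) - R) * Complex.exp (φ * I)‖ ≤ C + C' := by
      rw [sub_mul, h1]; exact h2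
    rw [norm_mul, Complex.norm_exp_ofReal_mul_I, mul_one] at h3
    have h4 : |(Complex.exp (w φ) - R).re| ≤ C + C' := (Complex.abs_re_le_norm _).trans h3
    rw [Complex.sub_re, Complex.ofReal_re] at h4
    have h5 := (abs_le.1 h4).1
    linarith
  -- the imaginary part of `w` moves by `2 π` but `cos (Im w) > 0`
  have hcos : ∀ φ : ℝ, 0 < Real.cos (w φ).im := by
    intro φ
    have h1 := hexp φ
    rw [Complex.exp_re] at h1
    exact (pos_iff_pos_of_mul_pos h1).1 (Real.exp_pos _)
  have him : (w (2 * Real.pi)).im = (w 0).im - 2 * Real.pi := by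
    rw [hper]
    simp
  have hIVT : (w 0).im - Real.pi ∈ (fun φ => (w φ).im) '' Icc 0 (2 * Real.pi) := by
    apply intermediate_value_Icc' (by positivity) (Complex.continuous_im.comp hwc).continuousOn
    constructor
    · show (w (2 * Real.pi)).im ≤ _
      rw [him]; linarith [Real.pi_pos]
    · show _ ≤ (w 0).im
      linarith [Real.pi_pos]
  obtain ⟨φ, -, hφ⟩ := hIVT
  have h1 := hcos φ
  have h2 := hcos 0
  simp only at hφ
  rw [hφ, Real.cos_sub_pi] at h1
  linarith

end Pool.Agent.Work.MLC
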