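import Pool.Agent.Work.MLC.Type51
import Pool.Agent.Work.MLC.Cross25

/-!
# Uniqueness of the rotation type (helper25)

`c` in the Mandelbrot set (`G c 0 = 0`), `Λ` a linearizer at a repelling point of multiplier
`ρ = exp L`. A curve of type `(q, N)` is a continuous `g : ℝ → ℂ` with `g (s + 1) = g s + (q L + 2 π i N)`
and `0 < G c (Λ (exp (g s)))`.

* `Tract.image_nhds`: `ψ(RH)` is a neighbourhood of each of its points;
* `Tract.type_of_meet`: a curve of type `(q, N)` through a tract of type `(qT, NT)` has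
  `(q, N) = k (qT, NT)`;
* `type_unique`: two types at the same point are proportional, `N q' = N' q`.
-/

set_option autoImplicit false

open Complex Filter Topology Set Metric

namespace Pool.Agent.Work.MLC.Tr

theorem isOpen_RH : IsOpen {z : ℂ | 0 < z.re} := isOpen_lt continuous_const continuous_re

/-- a lift of `eta c` is open at every point -/
theorem lift_map_nhds {c b ρ : ℂ} {n : ℕ} {Λ ψ : ℂ → ℂ} (h : Lin c b ρ n Λ) (hc : G c 0 = 0)
    (hψ : DifferentiableOn ℂ ψ {z : ℂ | 0 < z.re})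
    (hlift : ∀ z : ℂ, 0 < z.re → Λ (ψ z) = eta c z) {ζ : ℂ} (hζ : 0 < ζ.re) :
    map ψ (𝓝 ζ) = 𝓝 (ψ ζ) := by
  have hnb : {z : ℂ | 0 < z.re} ∈ 𝓝 ζ := isOpen_RH.mem_nhds hζ
  have h1 : HasDerivAt ψ (deriv ψ ζ) ζ := (hψ.differentiableAt hnb).hasDerivAt
  have h2 : HasDerivAt Λ (deriv Λ (ψ ζ)) (ψ ζ) := (h.diff _).hasDerivAt
  have h3 : HasDerivAt (Λ ∘ ψ) (deriv Λ (ψ ζ) * deriv ψ ζ) ζ := h2.comp ζ h1
  have h4 : (Λ ∘ ψ) =ᶠ[𝓝 ζ] eta c := by
    filter_upwards [hnb] with z hz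
    exact hlift z hz
  have h5 : deriv (eta c) ζ = deriv Λ (ψ ζ) * deriv ψ ζ := by
    rw [← h4.deriv_eq]; exact h3.deriv
  have h6 : deriv (eta c) ζ ≠ 0 := deriv_eta_ne_zero (by rw [hc]; exact hζ)
  have h7 : deriv ψ ζ ≠ 0 := by
    intro h0
    rw [h0, mul_zero] at h5
    exact h6 h5
  have h8 : HasStrictDerivAt ψ (deriv ψ ζ) ζ := (hψ.analyticAt hnb).hasStrictDerivAt
  exact h8.map_nhds_eq h7

/-- a curve in `{u > 0}` that meets a lift stays in the lift -/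
theorem curve_in_lift {c b ρ : ℂ} {n : ℕ} {Λ ψ : ℂ → ℂ} (h : Lin c b ρ n Λ) (hc : G c 0 = 0)
    (hψ : DifferentiableOn ℂ ψ {z : ℂ | 0 < z.re})
    (hlift : ∀ z : ℂ, 0 < z.re → Λ (ψ z) = eta c z) {x : ℝ → ℂ} (hx : Continuous x)
    (hpos : ∀ s, 0 < G c (Λ (x s))) {s0 : ℝ} {z0 : ℂ} (hz0 : 0 < z0.re) (hmeet : ψ z0 = x s0) :
    ∀ s, ∃ z : ℂ, 0 < z.re ∧ ψ z = x s := by
  set S : Set ℝ := {s | ∃ z : ℂ, 0 < z.re ∧ ψ z = x s} with hS
  have hopen : IsOpen S := by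
    rw [isOpen_iff_mem_nhds]
    rintro s ⟨z, hz, hzs⟩
    have h1 : ψ '' {z : ℂ | 0 < z.re} ∈ 𝓝 (x s) := by
      rw [← hzs, ← lift_map_nhds h hc hψ hlift hz]
      exact image_mem_map (isOpen_RH.mem_nhds hz)
    filter_upwards [hx.continuousAt.eventually_mem h1] with t ht
    obtain ⟨w, hw, hwt⟩ := ht
    exact ⟨w, hw, hwt⟩
  have hopen2 : IsOpen Sᶜ := by
    rw [isOpen_iff_mem_nhds]
    intro s hs
    obtain ⟨ζ, hζ1, hζ2⟩ := eta_surj (c := c) (z := Λ (x s)) (by rw [hc]; exact hpos s)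
    have hζ0 : 0 < ζ.re := by rw [hζ1]; exact hpos s
    obtain ⟨ψ', hψ', hlift', hζψ, -⟩ := exists_lift h hc hζ0 hζ2
    have h1 : ψ' '' {z : ℂ | 0 < z.re} ∈ 𝓝 (x s) := by
      rw [← hζψ, ← lift_map_nhds h hc hψ' hlift' hζ0]
      exact image_mem_map (isOpen_RH.mem_nhds hζ0)
    filter_upwards [hx.continuousAt.eventually_mem h1] with t ht
    rintro ⟨z, hz, hzt⟩
    obtain ⟨w, hw, hwt⟩ := ht
    have hw' : 0 < w.re := hw
    obtain ⟨m, -, hm⟩ := lift_meet h hc ⟨hψ'.continuousOn, hlift'⟩ ⟨hψ.continuousOn, hlift⟩ hw' hz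
      (by rw [hwt, hzt])
    apply hs
    refine ⟨ζ + 2 * Real.pi * I * m, ?_, ?_⟩
    · have : (ζ + 2 * Real.pi * I * m).re = ζ.re := by simp [mul_comm]
      rw [this]; exact hζ0
    · rw [← hm ζ hζ0, hζψ]
  have hclopen : IsClopen S := ⟨⟨hopen2⟩, hopen⟩
  have huniv : S = univ := hclopen.eq_univ ⟨s0, z0, hz0, hmeet⟩
  intro s
  have : s ∈ S := by rw [huniv]; exact mem_univ s
  exact this

/-- a continuous map `D : ℝ → ℂ` with `exp D = 1` is constant -/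
theorem const_of_exp_eq_one {D : ℝ → ℂ} (hD : Continuous D) (h1 : ∀ s, exp (D s) = 1) (s t : ℝ) :
    D s = D t := by
  have hre : ∀ s, (D s).re = 0 := by
    intro s
    obtain ⟨N, hN⟩ := exp_eq_one_iff.1 (h1 s)
    rw [hN]; simp
  have him : (D s).im = (D t).im := by
    have hpre : IsPreconnected (range fun s => (D s).im) :=
      isPreconnected_range (by fun_prop)
    have hcount : (range fun s => (D s).im).Countable := by
      apply (countable_range (fun N : ℤ => (N : ℝ) * (2 * Real.pi))).mono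
      rintro _ ⟨s, rfl⟩
      obtain ⟨N, hN⟩ := exp_eq_one_iff.1 (h1 s)
      refine ⟨N, ?_⟩
      simp only [hN]
      simp
    exact (hcount.isTotallyDisconnected _ subset_rfl hpre) ⟨s, rfl⟩ ⟨t, rfl⟩
  apply Complex.ext
  · rw [hre, hre]
  · exact him

theorem Tract.pow_shift {c b ρ : ℂ} {n : ℕ} {Λ ψ : ℂ → ℂ} {qT : ℕ} {a : ℤ}
    (T : Tract c b ρ n Λ ψ qT a) {F : ℂ → ℂ} {v : ℂ}
    (hFs : ∀ z : ℂ, 0 < z.re → F (2 ^ (n * qT) * z + 2 * Real.pi * I * a) = F z + v)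
    (k : ℕ) {z : ℂ} (hz : 0 < z.re) :
    ∃ z' : ℂ, 0 < z'.re ∧ ψ z' = ρ ^ (qT * k) * ψ z ∧ F z' = F z + k * v := by
  induction k with
  | zero => exact ⟨z, hz, by simp, by simp⟩
  | succ k ih =>
    obtain ⟨w, hw, h1, h2⟩ := ih
    refine ⟨2 ^ (n * qT) * w + 2 * Real.pi * I * a, ?_, ?_, ?_⟩
    · have h3 : (2 * Real.pi * I * a : ℂ).re = 0 := by simp
      rw [add_re, re_pow_mul, h3, add_zero]
      positivity
    · rw [T.per w hw, h1, mul_add, mul_one, pow_add]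
      ring
    · rw [hFs w hw, h2]
      push_cast
      ring

/-- a curve of type `(q, N)` through a tract of type `(qT, NT)` has `(q, N) = k (qT, NT)` -/
theorem Tract.type_of_meet {c b ρ : ℂ} {n : ℕ} {Λ ψ : ℂ → ℂ} {qT : ℕ} {a : ℤ}
    (h : Lin c b ρ n Λ) (hc : G c 0 = 0) (T : Tract c b ρ n Λ ψ qT a) {L : ℂ} (hL : exp L = ρ)
    {F : ℂ → ℂ} {NT : ℤ} (hF : ContinuousOn F {z : ℂ | 0 < z.re})
    (hFe : ∀ z : ℂ, 0 < z.re → exp (F z) = ψ z)
    (hFs : ∀ z : ℂ, 0 < z.re → F (2 ^ (n * qT) * z + 2 * Real.pi * I * a)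
      = F z + (qT * L + NT * (2 * Real.pi * I)))
    {g : ℝ → ℂ} (hg : Continuous g) (hpos : ∀ s, 0 < G c (Λ (exp (g s)))) {q : ℕ} {N : ℤ}
    (hper : ∀ s, g (s + 1) = g s + (q * L + N * (2 * Real.pi * I))) {s0 : ℝ} {z0 : ℂ}
    (hz0 : 0 < z0.re) (hmeet : ψ z0 = exp (g s0)) :
    ∃ k : ℕ, q = k * qT ∧ N = k * NT := by
  have hall := curve_in_lift h hc T.diff T.lift (x := fun s => exp (g s)) (by fun_prop) hpos hz0
    hmeet
  choose ζ hζre hζ using hall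
  have hζc : Continuous ζ := by
    rw [continuous_iff_continuousAt]
    intro s V hV
    have h1 : V ∩ {z : ℂ | 0 < z.re} ∈ 𝓝 (ζ s) := inter_mem hV (isOpen_RH.mem_nhds (hζre s))
    have h2 : ψ '' (V ∩ {z : ℂ | 0 < z.re}) ∈ 𝓝 (exp (g s)) := by
      rw [← hζ s, ← lift_map_nhds h hc T.diff T.lift (hζre s)]
      exact image_mem_map h1
    have h3 : ContinuousAt (fun s => exp (g s)) s := by fun_prop
    rw [mem_map]
    filter_upwards [h3.eventually_mem h2] with t ht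
    obtain ⟨w, ⟨hwV, hw⟩, hwt⟩ := ht
    have h4 : ζ t = w := T.inj _ _ (hζre t) hw (by rw [hζ t, hwt])
    show ζ t ∈ V
    rw [h4]; exact hwV
  have hD : Continuous fun s => g s - F (ζ s) := by
    apply hg.sub
    exact hF.comp_continuous hζc hζre
  have hD1 : ∀ s, exp (g s - F (ζ s)) = 1 := by
    intro s
    rw [exp_sub, hFe _ (hζre s), hζ s]
    exact div_self (exp_ne_zero _)
  have hconst := const_of_exp_eq_one hD hD1 (s0 + 1) s0
  rw [hper s0] at hconst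
  have hv : F (ζ (s0 + 1)) = F (ζ s0) + (q * L + N * (2 * Real.pi * I)) := by
    linear_combination -hconst
  have hρ0 := h.rho_ne
  have h1 : ψ (ζ (s0 + 1)) = ρ ^ q * ψ (ζ s0) := by
    rw [hζ, hζ, hper, exp_add, exp_add, exp_nat_mul, hL, exp_int_mul_two_pi_mul_I]
    ring
  obtain ⟨z', hz', h2, h3⟩ := T.pow_shift hFs (q / qT) (hζre s0)
  have hdm : qT * (q / qT) + q % qT = q := Nat.div_add_mod q qT
  have h4 : ψ (ζ (s0 + 1)) = ρ ^ (q % qT) * ψ z' := by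
    rw [h1, h2, ← mul_assoc, ← pow_add, add_comm, hdm]
  have hr : q % qT = 0 := by
    by_contra hne
    exact T.disj (q % qT) (Nat.pos_of_ne_zero hne) (Nat.mod_lt _ T.hq) _ _ (hζre _) hz' h4
  rw [hr, pow_zero, one_mul] at h4
  have h5 : ζ (s0 + 1) = z' := T.inj _ _ (hζre _) hz' h4
  rw [h5, h3] at hv
  have hq : q = q / qT * qT := by
    rw [hr, add_zero] at hdm
    rw [mul_comm]; exact hdm.symm
  refine ⟨q / qT, hq, ?_⟩
  set k := q / qT with hk
  have h6 : (N : ℂ) * (2 * Real.pi * I) = (k * NT : ℤ) * (2 * Real.pi * I) := by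
    have h7 : (q : ℂ) = k * qT := by exact_mod_cast hq
    rw [h7] at hv
    push_cast
    linear_combination -hv
  have h8 := mul_right_cancel₀ two_pi_I_ne_zero h6
  exact_mod_cast h8

/-- **Uniqueness of the rotation type.** -/
theorem type_unique {c b ρ : ℂ} {n : ℕ} {Λ : ℂ → ℂ} (h : Lin c b ρ n Λ) (hc : G c 0 = 0) {L : ℂ}
    (hL : exp L = ρ) {g g' : ℝ → ℂ} (hg : Continuous g) (hg' : Continuous g')
    (hpos : ∀ s, 0 < G c (Λ (exp (g s)))) (hpos' : ∀ s, 0 < G c (Λ (exp (g' s))))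
    {q q' : ℕ} {N N' : ℤ} (hper : ∀ s, g (s + 1) = g s + (q * L + N * (2 * Real.pi * I)))
    (hper' : ∀ s, g' (s + 1) = g' s + (q' * L + N' * (2 * Real.pi * I))) :
    N * q' = N' * q := by
  by_contra hne
  have hLre : 0 < L.re := by
    have h1 := h.rho
    rw [← hL, norm_exp] at h1
    exact Real.one_lt_exp_iff.1 h1
  have hdet : (q * L + N * (2 * Real.pi * I)).re * (q' * L + N' * (2 * Real.pi * I)).im
      - (q * L + N * (2 * Real.pi * I)).im * (q' * L + N' * (2 * Real.pi * I)).re ≠ 0 := by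
    have h1 : (q * L + N * (2 * Real.pi * I)).re * (q' * L + N' * (2 * Real.pi * I)).im
      - (q * L + N * (2 * Real.pi * I)).im * (q' * L + N' * (2 * Real.pi * I)).re
      = 2 * Real.pi * L.re * ((N' * q - N * q' : ℤ) : ℝ) := by
      simp
      ring
    rw [h1]
    have h2 : ((N' * q - N * q' : ℤ) : ℝ) ≠ 0 := by
      have : (N' * q - N * q' : ℤ) ≠ 0 := by
        intro h0; apply hne; linarith
      exact_mod_cast this
    have := Real.pi_pos
    positivity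
  obtain ⟨s, t, hst⟩ := crossing hg hg' hper hper' hdet
  obtain ⟨ψ, qT, a, T, ζ, hζ, hζx⟩ := exists_tract h hc (hpos s)
  obtain ⟨F, NT, hF, hFe, hFs, -⟩ := T.ply h hL
  obtain ⟨k, hk1, hk2⟩ := T.type_of_meet h hc hL hF.continuousOn hFe hFs hg hpos hper hζ hζx
  obtain ⟨k', hk1', hk2'⟩ := T.type_of_meet h hc hL hF.continuousOn hFe hFs hg' hpos' hper' hζ
    (by rw [hζx, hst])
  apply hne
  rw [hk1, hk1', hk2, hk2']
  push_cast
  ring

/-- **(R2)** uniqueness of the type. -/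
theorem TypeL.unique {c b ρ : ℂ} {n : ℕ} {Λ : ℂ → ℂ} (h : Lin c b ρ n Λ) (hc : G c 0 = 0) {L : ℂ}
    (hL : exp L = ρ) {q q' : ℕ} {N N' : ℤ} (hT : TypeL c Λ L q N) (hT' : TypeL c Λ L q' N') :
    N * q' = N' * q := by
  obtain ⟨g, hg, hpos, hper⟩ := hT
  obtain ⟨g', hg', hpos', hper'⟩ := hT'
  exact type_unique h hc hL hg hg' hpos hpos' hper hper'

end Pool.Agent.Work.MLC.Tr
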