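import Pool.Agent.Work.MLC.Open51
import Pool.Agent.Work.MLC.Uniq25
import Pool.Agent.Work.MLC.Lin
import Pool.Agent.Work.MLC.Final6

/-!
# Rotation data for the final assembly (helper51)
-/

set_option autoImplicit false

open Complex Filter Topology Set Metric

namespace Pool.Agent.Work.MLC.Tr

theorem lin_Lz {n : ℕ} (hn : 0 < n) {c b ρ : ℂ} (h : (c, b) ∈ Rep n) (hρ : mult n c b = ρ) :
    Lin c b ρ n (Lz n c b) where
  hn := hn
  diff := differentiable_Lz h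
  zero := Lz_zero h
  der := by rw [(hasDerivAt_Lz_zero h).deriv]; exact one_ne_zero
  eqn := fun x => by rw [← hρ]; exact Lz_mul h x
  rho := by rw [← hρ]; exact h.2

theorem mul_eq_mult (n : ℕ) (c b : ℂ) : mul n (c, b) = mult n c b := rfl

theorem rep_of {n : ℕ} {c b L : ℂ} (h1 : (c, b) ∈ Per n) (h2 : mul n (c, b) = exp L)
    (h3 : 0 < L.re) : (c, b) ∈ Rep n := by
  refine ⟨h1, ?_⟩
  show 1 < ‖mult n c b‖
  rw [← mul_eq_mult, h2, norm_exp]
  exact Real.one_lt_exp_iff.2 h3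

/-- rotation number -/
def RotT (n : ℕ) (c b L : ℂ) (x : ℚ) : Prop :=
  0 < L.re ∧ c ∈ MS ∧ (c, b) ∈ Per n ∧ mul n (c, b) = exp L ∧
    ∃ (q : ℕ) (p : ℤ), 0 < q ∧ TypeL c (Lz n c b) L q (-p) ∧ x = (p : ℚ) / (q : ℚ)

theorem rotT_unique {n : ℕ} (hn : 0 < n) {c b L : ℂ} {x x' : ℚ} (h : RotT n c b L x)
    (h' : RotT n c b L x') : x = x' := by
  obtain ⟨h1, h2, h3, h4, q, p, hq, hT, rfl⟩ := h
  obtain ⟨-, -, -, -, q', p', hq', hT', rfl⟩ := h'
  have hl := lin_Lz hn (rep_of h3 h4 h1) (ρ := exp L) (by rw [← mul_eq_mult, h4])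
  have hc : G c 0 = 0 := mem_M_iff.1 h2
  have e := hT.unique hl hc rfl hT'
  have hq0 : (q : ℚ) ≠ 0 := by exact_mod_cast hq.ne'
  have hq0' : (q' : ℚ) ≠ 0 := by exact_mod_cast hq'.ne'
  rw [div_eq_div_iff hq0 hq0']
  have e2 : (p : ℤ) * q' = p' * q := by linarith
  exact_mod_cast e2

theorem rotT_exists {n : ℕ} (hn : 0 < n) {c b L : ℂ} (h3 : (c, b) ∈ Per n)
    (h4 : mul n (c, b) = exp L) (h1 : 0 < L.re) (h2 : c ∈ MS) :
    ∃ x, RotT n c b L x ∧ ‖L - axisPt x‖ ^ 2 ≤ 2 * n * Real.log 2 / x.den * L.re := by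
  have hl := lin_Lz hn (rep_of h3 h4 h1) (ρ := exp L) (by rw [← mul_eq_mult, h4])
  have hc : G c 0 = 0 := mem_M_iff.1 h2
  obtain ⟨q, N, hq, hT, hply⟩ := exists_type hl hc rfl
  have hqr : (0 : ℝ) < q := by exact_mod_cast hq
  have hqc : (q : ℂ) ≠ 0 := by exact_mod_cast hq.ne'
  refine ⟨((-N : ℤ) : ℚ) / (q : ℚ), ⟨h1, h2, h3, h4, q, -N, hq, by rw [neg_neg]; exact hT, rfl⟩, ?_⟩
  set x : ℚ := ((-N : ℤ) : ℚ) / (q : ℚ) with hx
  have hden : (x.den : ℝ) ≤ q := by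
    have h5 : x.den ∣ q := by
      have h6 := Rat.den_dvd (-N) (q : ℤ)
      rw [Rat.divInt_eq_div] at h6
      have h7 : x = ((-N : ℤ) : ℚ) / ((q : ℤ) : ℚ) := by rw [hx]; push_cast; rfl
      rw [h7]
      exact_mod_cast h6
    exact_mod_cast Nat.le_of_dvd hq h5
  have hden0 : (0 : ℝ) < x.den := by exact_mod_cast x.pos
  have h6 : (q : ℂ) * L + N * (2 * Real.pi * I) = q * (L - axisPt x) := by
    rw [axisPt, hx]
    push_cast
    field_simp
    ring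
  rw [h6, norm_mul, mul_pow, Complex.norm_natCast] at hply
  have hlog2 : 0 < Real.log 2 := Real.log_pos (by norm_num)
  have h7 : ‖L - axisPt x‖ ^ 2 ≤ 2 * n * Real.log 2 / q * L.re := by
    rw [div_mul_eq_mul_div, le_div_iff₀ hqr]
    have h2 : (q : ℝ) * (‖L - axisPt x‖ ^ 2 * q) ≤ q * (2 * n * Real.log 2 * L.re) := by nlinarith
    exact le_of_mul_le_mul_left h2 hqr
  refine h7.trans ?_
  gcongr

/-- **The rotation data** of all repelling points of parameters in the Mandelbrot set. -/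
theorem rotData {n : ℕ} (hn : 0 < n) : RotData n (2 * n * Real.log 2) (RotT n) where
  dom := fun c b L x h => ⟨h.1, h.2.1⟩
  ex := fun c b L h3 h4 h1 h2 => by
    obtain ⟨x, hx, -⟩ := rotT_exists hn h3 h4 h1 h2
    exact ⟨x, hx⟩
  uniq := fun c b L x x' h h' => rotT_unique hn h h'
  ply := fun c b L x h => by
    obtain ⟨x', hx', hply⟩ := rotT_exists hn h.2.2.1 h.2.2.2.1 h.1 h.2.1
    rw [rotT_unique hn h hx']
    exact hply
  opn := fun c b L x h => by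
    obtain ⟨h1, h2, h3, h4, q, p, hq, hT, hx⟩ := h
    set S : Set (ℂ × ℂ × ℂ) := {t | (t.1, t.2.1) ∈ Per n ∧ mul n (t.1, t.2.1) = exp t.2.2 ∧
      0 < t.2.2.re} with hS
    have ht0 : ((c, b, L) : ℂ × ℂ × ℂ) ∈ S := ⟨h3, h4, h1⟩
    have hΛ : Continuous fun x : S × ℂ => Lz n x.1.1.1 x.1.1.2.1 x.2 := by
      have h5 := continuousOn_Lz n
      have h6 : Continuous fun x : S × ℂ =>
          (((x.1.1.1, x.1.1.2.1), x.2) : (ℂ × ℂ) × ℂ) := by fun_prop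
      exact h5.comp_continuous h6 (fun x => rep_of x.1.2.1 x.1.2.2.1 x.1.2.2.2)
    have hopen := isOpen_type (P := S) (n := n) (c := fun t => t.1.1) (b := fun t => t.1.2.1)
      (L := fun t => t.1.2.2) (Λ := fun t => Lz n t.1.1 t.1.2.1) (by fun_prop) (by fun_prop) hΛ
      (fun t => lin_Lz hn (rep_of t.2.1 t.2.2.1 t.2.2.2) (by rw [← mul_eq_mult, t.2.2.1])) q (-p)
    have hmem : (⟨(c, b, L), ht0⟩ : S) ∈
        {t : S | TypeL t.1.1 (Lz n t.1.1 t.1.2.1) t.1.2.2 q (-p)} := by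
      rw [mem_ofPred_eq]
      exact hT
    have hnb := hopen.mem_nhds hmem
    rw [nhds_subtype, mem_comap] at hnb
    obtain ⟨W, hW, hWs⟩ := hnb
    have hre : ∀ᶠ t : ℂ × ℂ × ℂ in 𝓝 (c, b, L), 0 < t.2.2.re := by
      have h7 : Continuous fun t : ℂ × ℂ × ℂ => t.2.2.re := by fun_prop
      exact h7.continuousAt.eventually (lt_mem_nhds h1)
    filter_upwards [hW, hre] with t htW htre htM htP htm
    refine ⟨htre, htM, htP, htm, q, p, hq, ?_, hx⟩
    have h8 : (⟨t, ⟨htP, htm, htre⟩⟩ : S) ∈ Subtype.val ⁻¹' W := htW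
    have h9 := hWs h8
    rw [mem_ofPred_eq] at h9
    exact h9

end Pool.Agent.Work.MLC.Tr
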