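import Pool.Agent.Work.MLC.Cross25
import Pool.Agent.Work.MLC.Rot51
import Pool.Agent.Work.MLC.Land51

set_option autoImplicit false

/-! # The chord lemma for periodic plane curves (helper24)

A curve `g` with `g (s + 1) = g s + d v` has a chord equal to `v`. -/

namespace Pool.Agent.Work.MLC.H24

open Filter Topology Metric Set

/-- a horizontal periodic curve separates the lower part of the plane from the upper part -/
lemma cross_path {g : ℝ → ℂ} (hg : Continuous g) {d : ℝ} (hd : 0 < d)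
    (hp : ∀ s, g (s + 1) = g s + d) {M : ℝ} (hM : ∀ s, |(g s).im| ≤ M) {p p' : ℂ} (γ : Path p p')
    (h1 : p.im < -M) (h2 : M < p'.im) : ∃ s t, g s = γ t := by
  have hM0 : 0 ≤ M := (abs_nonneg _).trans (hM 0)
  obtain ⟨M₁, hM₁⟩ : ∃ M₁ : ℝ, ∀ t, |(γ t).im| ≤ M₁ := by
    have hc : IsCompact (range fun t => |(γ t).im|) := isCompact_range (by fun_prop)
    obtain ⟨M₁, h⟩ := hc.bddAbove
    exact ⟨M₁, fun t => h ⟨t, rfl⟩⟩
  have hM₁0 : 0 ≤ M₁ := (abs_nonneg _).trans (hM₁ 0)
  have hpM : |p.im| ≤ M₁ := by have := hM₁ 0; rwa [γ.source] at this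
  have hpM' : |p'.im| ≤ M₁ := by have := hM₁ 1; rwa [γ.target] at this
  set T : ℝ := M + M₁ + 1 with hT
  set w : ℂ := p' - p + (2 * T : ℝ) * Complex.I with hw
  have hwim : w.im = p'.im - p.im + 2 * T := by simp [hw]
  set γ₂ : ℝ → ℂ := fun t => γ.extend (3 * t - 1) +
    ((T * (max 0 (3 * t - 2) - max 0 (1 - 3 * t)) : ℝ) : ℂ) * Complex.I with hγ₂
  have hγe : Continuous γ.extend := γ.continuous_extend
  have hγ₂c : Continuous γ₂ := by
    apply Continuous.add
    · exact hγe.comp (by fun_prop)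
    · apply Continuous.mul _ continuous_const
      exact Complex.continuous_ofReal.comp (by fun_prop)
  set f : ℝ → ℂ := fun t => γ₂ t - t * w with hf
  have hfc : Continuous f := hγ₂c.sub (by fun_prop)
  have h01 : f 0 = f 1 := by
    simp only [hf, hγ₂]
    have e1 : γ.extend (3 * 0 - 1) = p := γ.extend_of_le_zero (by norm_num)
    have e2 : γ.extend (3 * 1 - 1) = p' := γ.extend_of_one_le (by norm_num)
    rw [e1, e2]
    have e3 : max (0 : ℝ) (3 * 0 - 2) = 0 := max_eq_left (by norm_num)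
    have e4 : max (0 : ℝ) (1 - 3 * 0) = 1 := by norm_num
    have e5 : max (0 : ℝ) (3 * 1 - 2) = 1 := by norm_num
    have e6 : max (0 : ℝ) (1 - 3 * 1) = 0 := max_eq_left (by norm_num)
    rw [e3, e4, e5, e6, hw]
    push_cast
    ring
  have hG : Continuous (f ∘ Int.fract) := ContinuousOn.comp_fract'' hfc.continuousOn h01
  set G : ℝ → ℂ := fun t => f (Int.fract t) + t * w with hGd
  have hGc : Continuous G := hG.add (by fun_prop)
  have hGp : ∀ s, G (s + 1) = G s + w := by
    intro s
    simp only [hGd, Int.fract_add_one]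
    push_cast; ring
  have hGe : ∀ t, G t = γ₂ (Int.fract t) + (⌊t⌋ : ℂ) * w := by
    intro t
    have h3 : (t : ℂ) = ((⌊t⌋ : ℝ) : ℂ) + ((Int.fract t : ℝ) : ℂ) := by
      rw [← Complex.ofReal_add, Int.floor_add_fract]
    simp only [hGd, hf]
    rw [h3]
    push_cast
    ring
  obtain ⟨s, t, hst⟩ := crossing hg hGc (v := (d : ℂ)) (v' := w) hp hGp (by
    simp only [Complex.ofReal_re, Complex.ofReal_im, zero_mul, sub_zero]
    apply mul_ne_zero hd.ne'
    rw [hwim]
    have : 0 < p'.im - p.im + 2 * T := by linarith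
    exact this.ne')
  rw [hGe] at hst
  have hg1 := abs_le.1 (hM s)
  set x := Int.fract t with hx
  have hx0 : 0 ≤ x := Int.fract_nonneg t
  have hx1 : x < 1 := Int.fract_lt_one t
  have him : (g s).im = (γ.extend (3 * x - 1)).im +
      T * (max 0 (3 * x - 2) - max 0 (1 - 3 * x)) + ⌊t⌋ * (p'.im - p.im + 2 * T) := by
    rw [hst]
    simp [hγ₂, hwim]
  have hext : |(γ.extend (3 * x - 1)).im| ≤ M₁ := by
    have : γ.extend (3 * x - 1) ∈ range γ := by
      rw [← γ.extend_range]
      exact ⟨_, rfl⟩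
    obtain ⟨u, hu⟩ := this
    rw [← hu]; exact hM₁ u
  rw [abs_le] at hext hpM hpM'
  have hT0 : 0 < T := by linarith
  have hW : 0 < p'.im - p.im + 2 * T := by linarith
  -- lower and upper bounds for the curve
  have hlow : (γ.extend (3 * x - 1)).im + T * (max 0 (3 * x - 2) - max 0 (1 - 3 * x)) +
      (p'.im - p.im + 2 * T) > M := by
    rcases le_or_gt (3 * x) 1 with hx3 | hx3
    · rw [γ.extend_of_le_zero (by linarith), max_eq_left (show 3 * x - 2 ≤ 0 by linarith),
        max_eq_right (show (0 : ℝ) ≤ 1 - 3 * x by linarith)]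
      nlinarith
    · rw [max_eq_left (show 1 - 3 * x ≤ 0 by linarith)]
      have : 0 ≤ max 0 (3 * x - 2) := le_max_left _ _
      nlinarith
  have hupp : (γ.extend (3 * x - 1)).im + T * (max 0 (3 * x - 2) - max 0 (1 - 3 * x)) -
      (p'.im - p.im + 2 * T) < -M := by
    rcases le_or_gt 2 (3 * x) with hx3 | hx3
    · rw [γ.extend_of_one_le (by linarith), max_eq_right (show 0 ≤ 3 * x - 2 by linarith),
        max_eq_left (show 1 - 3 * x ≤ (0 : ℝ) by linarith)]
      nlinarith
    · rw [max_eq_left (show 3 * x - 2 ≤ 0 by linarith)]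
      have : 0 ≤ max 0 (1 - 3 * x) := le_max_left _ _
      nlinarith
  rcases lt_trichotomy ⌊t⌋ 0 with hk | hk | hk
  · exfalso
    have hk' : (⌊t⌋ : ℝ) ≤ -1 := by exact_mod_cast Int.le_sub_one_of_lt hk
    nlinarith
  · rw [hk] at him hst
    simp only [Int.cast_zero, zero_mul, add_zero] at him hst
    rcases le_or_gt (3 * x) 1 with hx3 | hx3
    · exfalso
      rw [γ.extend_of_le_zero (by linarith), max_eq_left (show 3 * x - 2 ≤ 0 by linarith),
        max_eq_right (show (0 : ℝ) ≤ 1 - 3 * x by linarith)] at him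
      nlinarith
    rcases le_or_gt 2 (3 * x) with hx4 | hx4
    · exfalso
      rw [γ.extend_of_one_le (by linarith), max_eq_right (show 0 ≤ 3 * x - 2 by linarith),
        max_eq_left (show 1 - 3 * x ≤ (0 : ℝ) by linarith)] at him
      nlinarith
    have : γ.extend (3 * x - 1) ∈ range γ := by
      rw [← γ.extend_range]
      exact ⟨_, rfl⟩
    obtain ⟨u, hu⟩ := this
    refine ⟨s, u, ?_⟩
    rw [hu, hst, hγ₂]
    simp only
    rw [max_eq_left (show 3 * x - 2 ≤ (0 : ℝ) by linarith),
      max_eq_left (show 1 - 3 * x ≤ (0 : ℝ) by linarith)]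
    simp
  · exfalso
    have hk' : (1 : ℝ) ≤ ⌊t⌋ := by exact_mod_cast Int.add_one_le_of_lt hk
    nlinarith

/-- the range of a periodic curve is closed -/
lemma isClosed_range_per {g : ℝ → ℂ} (hg : Continuous g) {d : ℝ} (hd : 0 < d)
    (hp : ∀ s, g (s + 1) = g s + d) : IsClosed (range g) := by
  obtain ⟨B, hB⟩ := bounded_sub_linear hg (v := (d : ℂ)) hp
  have h1 : Tendsto g (cocompact ℝ) (cocompact ℂ) := by
    apply tendsto_cocompact_of_tendsto_dist_comp_atTop (0 : ℂ)
    have h2 : Tendsto (fun s : ℝ => d * ‖s‖ - B) (cocompact ℝ) atTop := by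
      apply tendsto_atTop_add_const_right
      exact Tendsto.const_mul_atTop hd (tendsto_norm_cocompact_atTop)
    apply tendsto_atTop_mono _ h2
    intro s
    have h3 := hB s
    have h4 : ‖(s : ℂ) * d‖ = d * ‖s‖ := by
      rw [norm_mul, Complex.norm_real, Complex.norm_real, Real.norm_of_nonneg hd.le, mul_comm]
    rw [dist_zero_right, ← h4]
    have h5 : ‖(s : ℂ) * d‖ ≤ ‖g s‖ + ‖g s - s * d‖ := by
      calc ‖(s : ℂ) * d‖ = ‖g s - (g s - s * d)‖ := by ring_nf
        _ ≤ _ := norm_sub_le _ _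
    linarith
  have h2 : IsProperMap g := isProperMap_iff_tendsto_cocompact.2 ⟨hg, h1⟩
  exact h2.isClosed_range

/-- a component is relatively closed -/
lemma closure_comp_sub {F : Set ℂ} {x : ℂ} (hx : x ∈ F) {z : ℂ}
    (hz : z ∈ closure (connectedComponentIn F x)) (hzF : z ∈ F) : z ∈ connectedComponentIn F x := by
  have h1 : IsPreconnected (closure (connectedComponentIn F x) ∩ F) :=
    isPreconnected_connectedComponentIn.subset_closure
      (subset_inter subset_closure (connectedComponentIn_subset F x)) inter_subset_left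
  have h2 := h1.subset_connectedComponentIn (x := x)
    ⟨subset_closure (mem_connectedComponentIn hx), hx⟩ inter_subset_right
  exact h2 ⟨hz, hzF⟩

/-- translates of a periodic curve: the next one meets the component of a half plane -/
lemma next_meets {g : ℝ → ℂ} (hg : Continuous g) {d : ℕ} (hd : 0 < d)
    (hp : ∀ s, g (s + 1) = g s + d) (hcon : ∀ s t, g t ≠ g s + 1) {H : Set ℂ}
    (hH : IsPreconnected H) (hH1 : ∀ z, ∀ k : ℤ, z ∈ H → z + k ∈ H)
    (hH2 : ∀ z ∈ H, ∀ s, g s ≠ z) {p : ℂ} (hpH : p ∈ H) :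
    ∃ s, g s + 1 ∈ connectedComponentIn (range g)ᶜ p := by
  by_contra hno
  push Not at hno
  set A : ℤ → Set ℂ := fun k => range fun s => g s + k with hA
  have hAH : ∀ k, H ⊆ (A k)ᶜ := by
    rintro k z hz ⟨s, hs⟩
    apply hH2 (z + (-k : ℤ)) (hH1 z _ hz) s
    rw [← hs]; push_cast; ring
  have hAp : ∀ k, p ∈ (A k)ᶜ := fun k => hAH k hpH
  set U : ℤ → Set ℂ := fun k => connectedComponentIn (A k)ᶜ p with hU
  have hA0 : A 0 = range g := by simp [hA]
  have hHU : ∀ k, H ⊆ U k := fun k => hH.subset_connectedComponentIn hpH (hAH k)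
  -- translation
  have htr : ∀ k : ℤ, ∀ z ∈ U k, z + (-k : ℤ) ∈ U 0 := by
    intro k z hz
    have h1 : IsPreconnected ((fun z : ℂ => z + (-k : ℤ)) '' (U k)) :=
      isPreconnected_connectedComponentIn.image _ (by fun_prop)
    have h2 : p + (-k : ℤ) ∈ (fun z : ℂ => z + (-k : ℤ)) '' (U k) :=
      ⟨p, mem_connectedComponentIn (hAp k), rfl⟩
    have h3 : IsPreconnected ((fun z : ℂ => z + (-k : ℤ)) '' (U k) ∪ H) :=
      h1.union (p + (-k : ℤ)) h2 (hH1 p _ hpH) hH
    have h4 : (fun z : ℂ => z + (-k : ℤ)) '' (U k) ∪ H ⊆ (A 0)ᶜ := by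
      apply union_subset _ (hAH 0)
      rintro _ ⟨y, hy, rfl⟩ ⟨s, hs⟩
      apply connectedComponentIn_subset _ _ hy
      refine ⟨s, ?_⟩
      simp only at hs ⊢
      have : y = (y + (-k : ℤ)) + (k : ℤ) := by push_cast; ring
      rw [this, ← hs]; push_cast; ring
    exact h3.subset_connectedComponentIn (Or.inr hpH) h4 (Or.inl ⟨z, hz, rfl⟩)
  have hstep : ∀ k : ℤ, U k ⊆ U (k + 1) := by
    intro k
    apply isPreconnected_connectedComponentIn.subset_connectedComponentIn
      (mem_connectedComponentIn (hAp k))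
    rintro z hz ⟨s, hs⟩
    apply hno s
    rw [← hA0]
    have h1 := htr k z hz
    rw [← hs] at h1
    have h2 : g s + ((k + 1 : ℤ) : ℂ) + ((-k : ℤ) : ℂ) = g s + 1 := by push_cast; ring
    rw [h2] at h1
    exact h1
  have hmono : ∀ j : ℕ, U 1 ⊆ U (1 + j) := by
    intro j
    induction j with
    | zero => simp
    | succ j ih =>
      refine ih.trans ?_
      have := hstep (1 + j)
      rw [show (1 : ℤ) + (j : ℤ) + 1 = 1 + ((j + 1 : ℕ) : ℤ) by push_cast; ring] at this
      exact this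
  have hAd : A d = A 0 := by
    ext z
    constructor
    · rintro ⟨s, rfl⟩
      exact ⟨s + 1, by simp [hp]⟩
    · rintro ⟨s, rfl⟩
      refine ⟨s - 1, ?_⟩
      have := hp (s - 1)
      rw [sub_add_cancel] at this
      simp [this]
  have h10 : U 1 ⊆ U 0 := by
    have h1 := hmono (d - 1)
    have h2 : (1 : ℤ) + ((d - 1 : ℕ) : ℤ) = d := by omega
    rw [h2] at h1
    have h3 : U d = U 0 := by simp only [hU, hAd]
    rwa [h3] at h1
  have h01 : U 0 ⊆ U 1 := by simpa using hstep 0
  have heq : U 0 = U 1 := h01.antisymm h10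
  have hdisj : ∀ z, z ∈ A 0 → z ∈ A 1 → False := by
    rintro z ⟨s, hs⟩ ⟨t, ht⟩
    simp only [Int.cast_zero, add_zero] at hs
    apply hcon t s
    rw [hs, ← ht]; simp
  have hclosed : IsClosed (U 0) := by
    apply isClosed_of_closure_subset
    intro z hz
    by_cases h0 : z ∈ A 0
    · have h1 : z ∉ A 1 := fun h => hdisj z h0 h
      rw [heq] at hz ⊢
      exact closure_comp_sub (hAp 1) hz h1
    · exact closure_comp_sub (hAp 0) hz h0
  have hopen : IsOpen (U 0) := by
    apply IsOpen.connectedComponentIn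
    rw [hA0]
    exact (isClosed_range_per hg (d := (d : ℝ)) (by exact_mod_cast hd)
      (fun s => by rw [hp]; simp)).isOpen_compl
  rcases isClopen_iff.1 ⟨hclosed, hopen⟩ with h | h
  · have := mem_connectedComponentIn (hAp 0)
    change p ∈ U 0 at this
    rw [h] at this; exact this
  · have h1 : g 0 ∈ U 0 := by rw [h]; trivial
    exact connectedComponentIn_subset _ _ h1 (by rw [hA0]; exact ⟨0, rfl⟩)

theorem chord_one {g : ℝ → ℂ} (hg : Continuous g) {d : ℕ} (hd : 0 < d)
    (hp : ∀ s, g (s + 1) = g s + d) : ∃ s t, g t = g s + 1 := by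
  by_contra hcon
  push Not at hcon
  obtain ⟨M, hM⟩ : ∃ M : ℝ, ∀ s, |(g s).im| ≤ M := by
    obtain ⟨B, hB⟩ := bounded_sub_linear hg (v := (d : ℂ)) hp
    refine ⟨B, fun s => ?_⟩
    have h1 := (Complex.abs_im_le_norm (g s - s * d)).trans (hB s)
    simpa using h1
  have hM0 : 0 ≤ M := (abs_nonneg _).trans (hM 0)
  have hup := next_meets hg hd hp hcon (H := {z | M < z.im}) (p := (M + 1) * Complex.I)
    (convex_halfSpace_im_gt M).isPreconnected (by
      intro z k hz
      simp only [mem_ofPred_eq, Complex.add_im, Complex.intCast_im, add_zero] at hz ⊢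
      exact hz) (by
      rintro z hz s rfl
      have := (abs_le.1 (hM s)).2
      simp only [mem_ofPred_eq] at hz
      linarith) (by simp)
  have hdn := next_meets hg hd hp hcon (H := {z | z.im < -M}) (p := -(M + 1) * Complex.I)
    (convex_halfSpace_im_lt (-M)).isPreconnected (by
      intro z k hz
      simp only [mem_ofPred_eq, Complex.add_im, Complex.intCast_im, add_zero] at hz ⊢
      exact hz) (by
      rintro z hz s rfl
      have := (abs_le.1 (hM s)).1
      simp only [mem_ofPred_eq] at hz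
      linarith) (by simp)
  obtain ⟨s, hs⟩ := hup
  obtain ⟨t, ht⟩ := hdn
  have hB : IsPreconnected (range fun s => g s + 1) := isPreconnected_range (by fun_prop)
  have hBA : range (fun s => g s + 1) ⊆ (range g)ᶜ := by
    rintro _ ⟨s, rfl⟩ ⟨t, ht⟩
    exact hcon s t ht
  have e1 := connectedComponentIn_eq hs
  have e2 := connectedComponentIn_eq ht
  have h1 : g s + 1 ∈ connectedComponentIn (range g)ᶜ (g t + 1) :=
    hB.subset_connectedComponentIn ⟨t, rfl⟩ hBA ⟨s, rfl⟩
  have e3 := connectedComponentIn_eq h1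
  have hpp : ((M + 1) * Complex.I : ℂ) ∈ (range g)ᶜ := by
    rintro ⟨u, hu⟩
    have := (abs_le.1 (hM u)).2
    rw [hu] at this
    simp at this
    linarith
  have hpm : (-(M + 1) * Complex.I : ℂ) ∈ (range g)ᶜ := by
    rintro ⟨u, hu⟩
    have := (abs_le.1 (hM u)).1
    rw [hu] at this
    simp at this
    linarith
  have hopen : IsOpen (connectedComponentIn (range g)ᶜ (-(M + 1) * Complex.I : ℂ)) :=
    (isClosed_range_per hg (d := (d : ℝ)) (by exact_mod_cast hd)
      (fun s => by rw [hp]; simp)).isOpen_compl.connectedComponentIn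
  have hcon2 : IsPathConnected (connectedComponentIn (range g)ᶜ (-(M + 1) * Complex.I : ℂ)) :=
    hopen.isConnected_iff_isPathConnected.1
      ⟨⟨_, mem_connectedComponentIn hpm⟩, isPreconnected_connectedComponentIn⟩
  have hj := hcon2.joinedIn _ (mem_connectedComponentIn hpm) ((M + 1) * Complex.I) (by
    rw [e2, e3, ← e1]; exact mem_connectedComponentIn hpp)
  obtain ⟨u, v, huv⟩ := cross_path hg (d := (d : ℝ)) (by exact_mod_cast hd)
    (fun s => by rw [hp]; simp) hM hj.somePath (by simp) (by simp)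
  have h3 := hj.somePath_mem v
  rw [← huv] at h3
  exact connectedComponentIn_subset _ _ h3 ⟨u, rfl⟩

/-- **Chord lemma** -/
theorem chord {g : ℝ → ℂ} (hg : Continuous g) {d : ℕ} (hd : 0 < d) {v : ℂ} (hv : v ≠ 0)
    (hp : ∀ s, g (s + 1) = g s + d * v) : ∃ s t, g t = g s + v := by
  obtain ⟨s, t, h⟩ := chord_one (g := fun s => g s / v) (hg.div_const v) hd (fun s => by
    rw [hp]; field_simp)
  refine ⟨s, t, ?_⟩
  field_simp at h
  exact h

end Pool.Agent.Work.MLC.H24

/-! # Rotation types are primitive (helper24)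

The type of a tract is a coprime pair; hence a point of rotation number `x` is the landing point of
a ray of period exactly `x.den` under the return map. -/

namespace Pool.Agent.Work.MLC.H24

open Complex Filter Topology Set Metric
open Pool.Agent.Work.MLC Pool.Agent.Work.MLC.Tr

variable {c b ρ : ℂ} {n : ℕ} {Λ : ℂ → ℂ}

/-- the type of a tract is primitive -/
theorem tract_coprime {ψ F : ℂ → ℂ} {q : ℕ} {a N : ℤ} (h : Lin c b ρ n Λ)
    (T : Tract c b ρ n Λ ψ q a) {L : ℂ} (hL : exp L = ρ)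
    (hF : ContinuousOn F {z : ℂ | 0 < z.re})
    (hFe : ∀ z : ℂ, 0 < z.re → exp (F z) = ψ z)
    (hFN : ∀ z : ℂ, 0 < z.re → F (2 ^ (n * q) * z + 2 * Real.pi * I * a)
        = F z + (q * L + N * (2 * Real.pi * I))) {d : ℕ} (hd : d ∣ q) (hdN : (d : ℤ) ∣ N) :
    d = 1 := by
  obtain ⟨q', rfl⟩ := hd
  obtain ⟨N', rfl⟩ := hdN
  have hq := T.hq
  have hd0 : 0 < d := Nat.pos_of_ne_zero (by rintro rfl; simp at hq)
  have hq'0 : 0 < q' := Nat.pos_of_ne_zero (by rintro rfl; simp at hq)
  by_contra hd1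
  have hd2 : 2 ≤ d := by omega
  have hm : 0 < n * (d * q') := Nat.mul_pos h.hn T.hq
  have hre : ∀ s : ℝ, 0 < (cen (n * (d * q')) a + ((2 ^ ((n * (d * q') : ℕ) * s) : ℝ) : ℂ)).re := by
    intro s
    rw [add_re, cen_re, zero_add, ofReal_re]
    positivity
  have hLre : 0 < L.re := by
    have h1 := h.rho
    rw [← hL, norm_exp] at h1
    exact Real.one_lt_exp_iff.1 h1
  set v : ℂ := q' * L + N' * (2 * Real.pi * I) with hv
  have hv0 : v ≠ 0 := by
    intro h0
    have h1 : v.re = q' * L.re := by simp [hv]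
    rw [h0] at h1
    have h2 : (0 : ℝ) < q' * L.re := by positivity
    simp at h1
    rcases h1 with h1 | h1
    · omega
    · linarith
  set g : ℝ → ℂ := fun s => F (cen (n * (d * q')) a + ((2 ^ ((n * (d * q') : ℕ) * s) : ℝ) : ℂ))
    with hg
  have hgc : Continuous g := by
    have h1 : Continuous fun s : ℝ => (2 : ℝ) ^ (((n * (d * q') : ℕ) : ℝ) * s) :=
      Continuous.rpow (by fun_prop) (by fun_prop) (fun s => Or.inl (by norm_num))
    exact hF.comp_continuous (continuous_const.add (Complex.continuous_ofReal.comp h1)) hre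
  have hgp : ∀ s, g (s + 1) = g s + d * v := by
    intro s
    have h1 := hFN _ (hre s)
    have h2 : (2 : ℂ) ^ (n * (d * q')) * (cen (n * (d * q')) a +
        ((2 ^ ((n * (d * q') : ℕ) * s) : ℝ) : ℂ)) + 2 * Real.pi * I * a =
        cen (n * (d * q')) a + ((2 ^ ((n * (d * q') : ℕ) * (s + 1)) : ℝ) : ℂ) := by
      have h3 : ((2 ^ (((n * (d * q') : ℕ) : ℝ) * (s + 1)) : ℝ) : ℂ) =
          (2 : ℂ) ^ (n * (d * q')) * ((2 ^ (((n * (d * q') : ℕ) : ℝ) * s) : ℝ) : ℂ) := by
        rw [mul_add, mul_one, Real.rpow_add (by norm_num), Real.rpow_natCast, mul_comm]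
        push_cast
        ring
      have h4 := ang_eq hm a
      have h5 : (2 : ℂ) ^ (n * (d * q')) * cen (n * (d * q')) a + 2 * Real.pi * I * a =
          cen (n * (d * q')) a := by
        rw [cen_eq_ang]
        have h6 : (2 : ℂ) ^ (n * (d * q')) * (ang (n * (d * q')) a : ℂ) -
            (ang (n * (d * q')) a : ℂ) = -(a : ℂ) := by
          have := congrArg (fun t : ℝ => (t : ℂ)) h4
          push_cast at this
          exact this
        linear_combination (2 * Real.pi * I) * h6
      rw [h3]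
      linear_combination h5
    rw [h2] at h1
    simp only [hg]
    rw [h1, hv]
    push_cast
    ring
  obtain ⟨s, t, hst⟩ := chord hgc hd0 hv0 hgp
  have h1 := congrArg exp hst
  rw [exp_add, hv, exp_add, exp_nat_mul, hL, exp_int_mul_two_pi_mul_I, mul_one] at h1
  simp only [hg] at h1
  rw [hFe _ (hre t), hFe _ (hre s), mul_comm (ψ _)] at h1
  exact T.disj q' hq'0 (by nlinarith) _ _ (hre t) (hre s) h1

/-- a point of rotation number `x` is the landing point of a ray of period `x.den` -/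
theorem land_of_rotT (hn : 0 < n) {L : ℂ} {x : ℚ} (h : RotT n c b L x) :
    ∃ β, Land n c b β x.den := by
  obtain ⟨h1, h2, h3, h4, q, p, hq, hT, rfl⟩ := h
  have hl := lin_Lz hn (rep_of h3 h4 h1) (ρ := exp L) (by rw [← mul_eq_mult, h4])
  have hc : G c 0 = 0 := mem_M_iff.1 h2
  obtain ⟨x0, hx0⟩ := exists_pos hl
  obtain ⟨ψ, q₁, a, T, -⟩ := exists_tract hl hc hx0
  obtain ⟨F, N, hF, hFe, hFN, -⟩ := T.ply hl rfl
  have hT₁ := T.typeL hl hc hF hFe hFN
  have hu := hT.unique hl hc rfl hT₁
  have hcop : Nat.Coprime (-N).natAbs q₁ := by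
    have h5 : Nat.gcd (-N).natAbs q₁ = 1 := by
      apply tract_coprime hl T rfl hF.continuousOn hFe hFN (Nat.gcd_dvd_right _ _)
      have := Nat.gcd_dvd_left (-N).natAbs q₁
      rw [Int.natAbs_neg] at this ⊢
      exact Int.natCast_dvd.2 this
    exact h5
  have hq₁ := T.hq
  have hx : (p : ℚ) / (q : ℚ) = ((-N : ℤ) : ℚ) / (q₁ : ℚ) := by
    have hq0 : (q : ℚ) ≠ 0 := by exact_mod_cast hq.ne'
    have hq0' : (q₁ : ℚ) ≠ 0 := by exact_mod_cast hq₁.ne'
    rw [div_eq_div_iff hq0 hq0']
    have e2 : p * q₁ = -N * q := by linarith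
    exact_mod_cast e2
  have hden : ((p : ℚ) / (q : ℚ)).den = q₁ := by
    rw [hx]
    have := Rat.den_div_eq_of_coprime (a := -N) (b := (q₁ : ℤ)) (by exact_mod_cast hq₁)
      (by simpa using hcop)
    exact_mod_cast this
  rw [hden]
  exact ⟨_, T.land hl hc⟩

end Pool.Agent.Work.MLC.H24
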