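import Pool.Agent.Work.MLC.Top34

set_option autoImplicit false

/-! # Limbs of a continuum at a boundary point: the topological part of the final assembly
(helper6) -/

namespace Pool.Agent.Work.MLC

open Filter Topology Metric Set

/-- the point of the imaginary axis with turning number `x` -/
noncomputable def axisPt (x : ℚ) : ℂ := (2 * Real.pi * (x : ℝ) : ℝ) * Complex.I

/-- Data of a branch `c` of the inverse multiplier map on the disc of radius `R` about
`2 π i x₀`, with the rotation numbers `T L x` of the points of `M` over `Re L > 0`. -/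
structure LimbData (M : Set ℂ) (x₀ : ℚ) (R A : ℝ) (c : ℂ → ℂ) (T : ℂ → ℚ → Prop) : Prop where
  R_pos : 0 < R
  A_pos : 0 < A
  cont : ContinuousOn c (ball (axisPt x₀) R)
  left : ∀ L ∈ ball (axisPt x₀) R, L.re ≤ 0 → c L ∈ M
  inj : ∃ δ > 0, InjOn c (ball (axisPt x₀) δ)
  opn : ∀ L ∈ ball (axisPt x₀) R, ∀ U ∈ 𝓝 L, c '' U ∈ 𝓝 (c L)
  T_dom : ∀ L x, T L x → 0 < L.re ∧ c L ∈ M
  T_ex : ∀ L ∈ ball (axisPt x₀) R, 0 < L.re → c L ∈ M → ∃ x, T L x
  T_uniq : ∀ L x x', T L x → T L x' → x = x'
  T_open : ∀ L ∈ ball (axisPt x₀) R, ∀ x, T L x → ∀ᶠ L' in 𝓝 L, c L' ∈ M → T L' x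
  ply : ∀ L x, T L x → ‖L - axisPt x‖ ^ 2 ≤ A / x.den * L.re

namespace LimbData

variable {M : Set ℂ} {x₀ : ℚ} {R A : ℝ} {c : ℂ → ℂ} {T : ℂ → ℚ → Prop}

lemma axisPt_re (x : ℚ) : (axisPt x).re = 0 := by simp [axisPt]

lemma axisPt_im (x : ℚ) : (axisPt x).im = 2 * Real.pi * x := by simp [axisPt]

lemma axisPt_sub (x y : ℚ) : ‖axisPt x - axisPt y‖ = 2 * Real.pi * |(x : ℝ) - y| := by
  have : axisPt x - axisPt y = ((2 * Real.pi * ((x : ℝ) - y) : ℝ) : ℂ) * Complex.I := by
    simp only [axisPt]; push_cast; ring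
  rw [this, norm_mul, Complex.norm_I, mul_one, Complex.norm_real, Real.norm_eq_abs, abs_mul,
    abs_of_pos (by positivity : (0:ℝ) < 2 * Real.pi)]

lemma den_pos (x : ℚ) : (0:ℝ) < x.den := by exact_mod_cast x.pos

/-- the PLY disc: `‖L - 2πix‖ ≤ A / den x` -/
lemma norm_le (h : LimbData M x₀ R A c T) {L : ℂ} {x : ℚ} (hT : T L x) :
    ‖L - axisPt x‖ ≤ A / x.den := by
  have h1 := h.ply L x hT
  have h2 : L.re ≤ ‖L - axisPt x‖ := by
    have := Complex.re_le_norm (L - axisPt x)
    simpa [axisPt_re] using this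
  have hq : 0 < A / x.den := div_pos h.A_pos (den_pos x)
  have h3 : ‖L - axisPt x‖ ^ 2 ≤ A / x.den * ‖L - axisPt x‖ :=
    h1.trans (mul_le_mul_of_nonneg_left h2 hq.le)
  rcases (norm_nonneg (L - axisPt x)).eq_or_lt with h0 | h0
  · rw [← h0]; exact hq.le
  · rw [sq] at h3
    exact le_of_mul_le_mul_right h3 h0

/-- the limb piece -/
def K (c : ℂ → ℂ) (T : ℂ → ℚ → Prop) (x : ℚ) : Set ℂ := insert (c (axisPt x)) (c '' {L | T L x})

/-- its preimage -/
def P (T : ℂ → ℚ → Prop) (x : ℚ) : Set ℂ := insert (axisPt x) {L | T L x}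

lemma K_eq (c : ℂ → ℂ) (T : ℂ → ℚ → Prop) (x : ℚ) : K c T x = c '' P T x := by
  simp [K, P, image_insert_eq]

lemma P_sub (h : LimbData M x₀ R A c T) (x : ℚ) : P T x ⊆ closedBall (axisPt x) (A / x.den) := by
  rintro L (rfl | hL)
  · exact mem_closedBall_self (div_pos h.A_pos (den_pos x)).le
  · rw [mem_closedBall, dist_eq_norm]; exact h.norm_le hL

/-- `x` is admissible when its PLY disc is in the disc `D` -/
def Adm (x₀ : ℚ) (R A : ℝ) (x : ℚ) : Prop := A / x.den + 2 * Real.pi * |(x : ℝ) - x₀| < R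

lemma ball_sub {x : ℚ} {r : ℝ} (hx : Adm x₀ r A x) :
    closedBall (axisPt x) (A / x.den) ⊆ ball (axisPt x₀) r := by
  intro L hL
  rw [mem_closedBall, dist_eq_norm] at hL
  rw [mem_ball, dist_eq_norm]
  have h1 : ‖L - axisPt x₀‖ ≤ ‖L - axisPt x‖ + ‖axisPt x - axisPt x₀‖ := by
    have : L - axisPt x₀ = (L - axisPt x) + (axisPt x - axisPt x₀) := by ring
    rw [this]; exact norm_add_le _ _
  rw [axisPt_sub] at h1
  unfold Adm at hx
  linarith

lemma P_sub_ball (h : LimbData M x₀ R A c T) {x : ℚ} {r : ℝ} (hx : Adm x₀ r A x) :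
    P T x ⊆ ball (axisPt x₀) r := (h.P_sub x).trans (ball_sub hx)

lemma isCompact_P (h : LimbData M x₀ R A c T) (hM : IsClosed M) {x : ℚ} (hx : Adm x₀ R A x) :
    IsCompact (P T x) := by
  refine (isCompact_closedBall (axisPt x) (A / x.den)).of_isClosed_subset ?_ (h.P_sub x)
  refine isClosed_of_closure_subset fun L hL => ?_
  by_cases hLx : L = axisPt x
  · exact Or.inl hLx
  right
  have hLb : L ∈ closedBall (axisPt x) (A / x.den) :=
    closure_minimal (h.P_sub x) isClosed_closedBall hL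
  have hLD : L ∈ ball (axisPt x₀) R := ball_sub hx hLb
  -- PLY passes to the closure
  have hcl : P T x ⊆ {L | ‖L - axisPt x‖ ^ 2 ≤ A / x.den * L.re} := by
    rintro L (rfl | hL)
    · simp [axisPt_re]
    · exact h.ply L x hL
  have hcl2 : IsClosed {L : ℂ | ‖L - axisPt x‖ ^ 2 ≤ A / x.den * L.re} := by
    apply isClosed_le
    · fun_prop
    · exact continuous_const.mul Complex.continuous_re
  have hply : ‖L - axisPt x‖ ^ 2 ≤ A / x.den * L.re := closure_minimal hcl hcl2 hL
  have hpos : 0 < ‖L - axisPt x‖ ^ 2 := by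
    have : 0 < ‖L - axisPt x‖ := norm_pos_iff.2 (sub_ne_zero.2 hLx)
    positivity
  have hq : 0 < A / x.den := div_pos h.A_pos (den_pos x)
  have hre : 0 < L.re := by
    by_contra hcon
    push Not at hcon
    nlinarith
  -- `L` is a limit of points with `T · x`
  have hL2 : L ∈ closure {L | T L x} := by
    have : closure (P T x) = {axisPt x} ∪ closure {L | T L x} := by
      unfold P
      rw [insert_eq, closure_union, closure_singleton]
    rw [this] at hL
    rcases hL with hL | hL
    · exact absurd hL hLx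
    · exact hL
  have hcM : c L ∈ M := by
    have hc : ContinuousWithinAt c {L | T L x} L := by
      exact (h.cont.continuousAt (isOpen_ball.mem_nhds hLD)).continuousWithinAt
    have := hc.mem_closure_image hL2
    refine closure_minimal ?_ hM this
    rintro _ ⟨L', hL', rfl⟩
    exact (h.T_dom L' x hL').2
  obtain ⟨x', hx'⟩ := h.T_ex L hLD hre hcM
  have hev := h.T_open L hLD x' hx'
  obtain ⟨L', hL', hT'⟩ := (mem_closure_iff_frequently.1 hL2).and_eventually hev |>.exists
  have := h.T_uniq L' x x' hL' (hT' (h.T_dom L' x hL').2)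
  rw [this]; exact hx'

lemma isCompact_K (h : LimbData M x₀ R A c T) (hM : IsClosed M) {x : ℚ} (hx : Adm x₀ R A x) :
    IsCompact (K c T x) := by
  rw [K_eq]
  exact (h.isCompact_P hM hx).image_of_continuousOn (h.cont.mono (h.P_sub_ball hx))

lemma K_sub (h : LimbData M x₀ R A c T) {x : ℚ} (hx : Adm x₀ R A x) : K c T x ⊆ M := by
  rintro z (rfl | ⟨L, hL, rfl⟩)
  · refine h.left _ (h.P_sub_ball hx (Or.inl rfl)) ?_
    rw [axisPt_re]
  · exact (h.T_dom L x hL).2

/-- `K` minus its root is open in `M` -/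
lemma K_open (h : LimbData M x₀ R A c T) {x : ℚ} (hx : Adm x₀ R A x) {z : ℂ} (hz : z ∈ K c T x)
    (hzr : z ≠ c (axisPt x)) : K c T x \ {c (axisPt x)} ∈ 𝓝[M] z := by
  rcases hz with hz | ⟨L, hL, rfl⟩
  · exact absurd hz hzr
  have hLD : L ∈ ball (axisPt x₀) R := h.P_sub_ball hx (Or.inr hL)
  have hev := h.T_open L hLD x hL
  have h1 : c '' {L' | c L' ∈ M → T L' x} ∈ 𝓝 (c L) := h.opn L hLD _ hev
  have h2 : {z : ℂ | z ≠ c (axisPt x)} ∈ 𝓝 (c L) := isOpen_ne.mem_nhds hzr
  filter_upwards [mem_nhdsWithin_of_mem_nhds h1, mem_nhdsWithin_of_mem_nhds h2,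
    self_mem_nhdsWithin] with w hw hw2 hwM
  obtain ⟨L', hL', rfl⟩ := hw
  exact ⟨Or.inr ⟨L', hL' hwM, rfl⟩, hw2⟩

/-- the limb piece is connected -/
lemma K_conn (h : LimbData M x₀ R A c T) (hM : IsClosed M) (hMc : IsPreconnected M) {x : ℚ}
    (hx : Adm x₀ R A x) : IsPreconnected (K c T x) := by
  have hKc := h.isCompact_K hM hx
  have hroot : c (axisPt x) ∈ K c T x := Or.inl rfl
  -- a closed piece `B` of `K` which misses the root and is separated from the rest is empty
  have key : ∀ t t' : Set ℂ, IsClosed t → IsClosed t' → K c T x ⊆ t ∪ t' →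
      c (axisPt x) ∈ t → (K c T x ∩ t').Nonempty → (K c T x ∩ (t ∩ t')).Nonempty := by
    intro t t' ht ht' hsub hrt hne
    by_contra hcon
    rw [not_nonempty_iff_eq_empty] at hcon
    have hB : IsClosed (K c T x ∩ t') := hKc.isClosed.inter ht'
    have hBt : ∀ z ∈ K c T x ∩ t', z ∉ t := fun z hz hzt => by
      have : z ∈ K c T x ∩ (t ∩ t') := ⟨hz.1, hzt, hz.2⟩
      rw [hcon] at this; exact this
    -- `M \ B` is closed
    have hMB : IsClosed (M \ (K c T x ∩ t')) := by
      refine isClosed_of_closure_subset fun z hz => ?_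
      have hzM : z ∈ M := closure_minimal sdiff_subset hM hz
      refine ⟨hzM, fun hzB => ?_⟩
      have hzr : z ≠ c (axisPt x) := fun h0 => hBt z hzB (h0 ▸ hrt)
      have h1 := h.K_open hx hzB.1 hzr
      have h2 : tᶜ ∈ 𝓝 z := ht.isOpen_compl.mem_nhds (hBt z hzB)
      have h3 : K c T x ∩ t' ∈ 𝓝[M] z := by
        filter_upwards [h1, mem_nhdsWithin_of_mem_nhds h2] with w hw hw2
        refine ⟨hw.1, ?_⟩
        rcases hsub hw.1 with h0 | h0
        · exact absurd h0 hw2
        · exact h0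
      rw [mem_nhdsWithin_iff_eventually] at h3
      obtain ⟨w, hw, hw2⟩ := ((mem_closure_iff_frequently.1 hz).and_eventually h3).exists
      exact hw.2 (hw2 hw.1)
    obtain ⟨w, hw⟩ := hne
    have h4 := isPreconnected_closed_iff.1 hMc _ _ hB hMB
      (fun z hz => by
        by_cases hzB : z ∈ K c T x ∩ t'
        · exact Or.inl hzB
        · exact Or.inr ⟨hz, hzB⟩)
      ⟨w, h.K_sub hx hw.1, hw⟩
      ⟨c (axisPt x), h.K_sub hx hroot, h.K_sub hx hroot, fun h0 => hBt _ h0 hrt⟩
    obtain ⟨v, -, hv, hv2⟩ := h4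
    exact hv2.2 hv
  rw [isPreconnected_closed_iff]
  intro t t' ht ht' hsub hne hne'
  rcases hsub hroot with h0 | h0
  · exact key t t' ht ht' hsub h0 hne'
  · have := key t' t ht' ht (by rwa [union_comm]) h0 hne
    rwa [inter_comm t' t] at this

/-- distinct rationals are apart -/
lemma rat_apart {x y : ℚ} (hxy : x ≠ y) : 1 / ((x.den : ℝ) * y.den) ≤ |(x : ℝ) - y| := by
  have hx := den_pos x
  have hy := den_pos y
  have h1 : (x : ℝ) = x.num / x.den := by exact_mod_cast (Rat.num_div_den x).symm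
  have h2 : (y : ℝ) = y.num / y.den := by exact_mod_cast (Rat.num_div_den y).symm
  have h3 : (x : ℝ) - y = (x.num * y.den - y.num * x.den) / ((x.den : ℝ) * y.den) := by
    rw [h1, h2]; field_simp
  rw [h3, abs_div, abs_of_pos (by positivity : (0:ℝ) < (x.den : ℝ) * y.den)]
  have h4 : (x.num * y.den - y.num * x.den : ℤ) ≠ 0 := by
    intro h0
    apply hxy
    have h5 : (x : ℝ) - y = 0 := by
      rw [h3]
      have : ((x.num * y.den - y.num * x.den : ℤ) : ℝ) = 0 := by rw [h0]; simp
      push_cast at this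
      rw [this, zero_div]
    have h6 : (x : ℝ) = y := by linarith
    exact_mod_cast h6
  have h5 : (1 : ℝ) ≤ |(x.num * y.den - y.num * x.den : ℝ)| := by
    have := Int.one_le_abs h4
    have h6 : ((1 : ℤ) : ℝ) ≤ ((|x.num * (y.den : ℤ) - y.num * (x.den : ℤ)| : ℤ) : ℝ) := by
      exact_mod_cast this
    push_cast at h6
    exact h6
  gcongr

/-- points of `M` outside the limb piece `K` are in the component of the left side -/
theorem main' (h : LimbData M x₀ R A c T) (hM : IsCompact M) (hMc : IsPreconnected M)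
    (hx₀ : Adm x₀ R A x₀) :
    ∃ δ : ℝ, 0 < δ ∧ δ ≤ R ∧ ∀ z ∈ M, z ∉ K c T x₀ →
      c '' (ball (axisPt x₀) δ ∩ {L | L.re < 0}) ⊆
        connectedComponentIn (M \ {c (axisPt x₀)}) z := by
  obtain ⟨δ₀, hδ₀, hinj₀⟩ := h.inj
  set r := c (axisPt x₀) with hr
  set δ := min δ₀ R with hδdef
  have hδ : 0 < δ := lt_min hδ₀ h.R_pos
  have hδR : δ ≤ R := min_le_right _ _
  have hinj : InjOn c (ball (axisPt x₀) δ) := hinj₀.mono (ball_subset_ball (min_le_left _ _))
  have hsubR : ball (axisPt x₀) δ ⊆ ball (axisPt x₀) R := ball_subset_ball hδR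
  have hcen : axisPt x₀ ∈ ball (axisPt x₀) δ := mem_ball_self hδ
  have hcenR : axisPt x₀ ∈ ball (axisPt x₀) R := mem_ball_self h.R_pos
  have hrM : r ∈ M := h.left _ hcenR (by rw [axisPt_re])
  set S : Set ℂ := ball (axisPt x₀) δ ∩ {L | L.re < 0} with hS
  set W : Set ℂ := c '' S with hW
  have hSconv : Convex ℝ S := (convex_ball _ _).inter (convex_halfSpace_re_lt 0)
  have hSD : S ⊆ ball (axisPt x₀) R := inter_subset_left.trans hsubR
  have hWconn : IsPreconnected W := hSconv.isPreconnected.image _ (h.cont.mono hSD)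
  have hWsub : W ⊆ M \ {r} := by
    rintro _ ⟨L, hL, rfl⟩
    refine ⟨h.left L (hSD hL) (le_of_lt hL.2), fun h0 => ?_⟩
    have h1 : L = axisPt x₀ := hinj hL.1 hcen h0
    have h2 := hL.2
    rw [h1] at h2
    simp [axisPt_re] at h2
  refine ⟨δ, hδ, hδR, ?_⟩
  -- boundary points over the imaginary axis
  have hbd : ∀ L ∈ ball (axisPt x₀) δ, L.re = 0 → L ≠ axisPt x₀ →
      IsPreconnected (insert (c L) W) ∧ insert (c L) W ⊆ M \ {r} := by
    intro L hL hre hne
    constructor
    · refine hWconn.subset_closure (subset_insert _ _) ?_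
      rintro z (rfl | hz)
      · have hLS : L ∈ closure S := by
          rw [Metric.mem_closure_iff]
          intro ε hε
          have hd : 0 < δ - dist L (axisPt x₀) := sub_pos.2 hL
          set η := min (ε / 2) ((δ - dist L (axisPt x₀)) / 2) with hη
          have hη0 : 0 < η := lt_min (by positivity) (by positivity)
          refine ⟨L - (η : ℂ), ⟨?_, ?_⟩, ?_⟩
          · rw [mem_ball]
            calc dist (L - (η : ℂ)) (axisPt x₀) ≤ dist (L - (η : ℂ)) L + dist L (axisPt x₀) :=
                  dist_triangle _ _ _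
              _ = η + dist L (axisPt x₀) := by
                  rw [dist_eq_norm]
                  have : L - (η : ℂ) - L = -(η : ℂ) := by ring
                  rw [this, norm_neg, Complex.norm_real, Real.norm_eq_abs, abs_of_pos hη0]
              _ < δ := by
                  have := min_le_right (ε / 2) ((δ - dist L (axisPt x₀)) / 2)
                  linarith
          · simp [hre, hη0]
          · rw [dist_eq_norm]
            have : L - (L - (η : ℂ)) = (η : ℂ) := by ring
            rw [this, Complex.norm_real, Real.norm_eq_abs, abs_of_pos hη0]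
            have := min_le_left (ε / 2) ((δ - dist L (axisPt x₀)) / 2)
            linarith
        exact (h.cont.continuousAt (isOpen_ball.mem_nhds (hsubR hL))).continuousWithinAt.mem_closure_image
          hLS
      · exact subset_closure hz
    · rintro z (rfl | hz)
      · refine ⟨h.left L (hsubR hL) hre.le, fun h0 => hne (hinj hL hcen h0)⟩
      · exact hWsub hz
  intro z hzM hzK
  have hzr : z ≠ r := fun h0 => hzK (by rw [h0]; exact Or.inl rfl)
  set Q := connectedComponentIn (M \ {r}) z with hQ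
  have hzQ : z ∈ Q := mem_connectedComponentIn ⟨hzM, hzr⟩
  -- it is enough that `Q` meets a connected set in `M \ {r}` containing `W`
  have hfin : ∀ V : Set ℂ, IsPreconnected V → V ⊆ M \ {r} → W ⊆ V → (Q ∩ V).Nonempty → W ⊆ Q := by
    intro V hV hVs hWV hne
    obtain ⟨w, hwQ, hwV⟩ := hne
    have h1 : V ⊆ connectedComponentIn (M \ {r}) w := hV.subset_connectedComponentIn hwV hVs
    have h2 : connectedComponentIn (M \ {r}) z = connectedComponentIn (M \ {r}) w :=
      connectedComponentIn_eq hwQ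
    rw [hQ, h2]
    exact hWV.trans h1
  -- `r` is in the closure of `Q`
  have hrQ : r ∈ closure Q := by
    have h1 := MLC34.closure_component_bumping hM hMc (isOpen_compl_singleton (x := r)) hzM
      (by simpa using hzr) (fun h0 => h0 hrM rfl)
    have h2 : M ∩ {r}ᶜ = M \ {r} := rfl
    rw [h2] at h1
    rw [not_subset] at h1
    obtain ⟨w, hw, hw2⟩ := h1
    have : w = r := by simpa using hw2
    rw [← this]; exact hw
  -- choose `δ'`
  set q : ℝ := (x₀.den : ℝ) with hq
  have hq0 : 0 < q := den_pos x₀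
  obtain ⟨δ', hδ'0, hδ'δ, hδ'⟩ : ∃ δ' > 0, δ' ≤ δ ∧
      (A * q / (2 * Real.pi) + 1) * (Real.sqrt (A * δ') + δ') < δ := by
    have hcont : ContinuousAt (fun t : ℝ => (A * q / (2 * Real.pi) + 1) * (Real.sqrt (A * t) + t))
        0 := by fun_prop
    have h0 : (A * q / (2 * Real.pi) + 1) * (Real.sqrt (A * 0) + 0) < δ := by simpa using hδ
    have hev := hcont.eventually (gt_mem_nhds h0)
    obtain ⟨ε, hε, hball⟩ := Metric.eventually_nhds_iff.1 hev
    refine ⟨min δ (ε / 2), lt_min hδ (by positivity), min_le_left _ _, ?_⟩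
    apply hball
    rw [Real.dist_eq, sub_zero, abs_of_pos (lt_min hδ (by positivity))]
    exact (min_le_right _ _).trans_lt (by linarith)
  -- a point of `Q` close to `r`
  have hnb : c '' ball (axisPt x₀) δ' ∈ 𝓝 r := h.opn _ hcenR _ (ball_mem_nhds _ hδ'0)
  obtain ⟨w, ⟨L, hL, rfl⟩, hwQ⟩ := mem_closure_iff_nhds.1 hrQ _ hnb
  have hLδ : L ∈ ball (axisPt x₀) δ := ball_subset_ball hδ'δ hL
  have hwM : c L ∈ M \ {r} := connectedComponentIn_subset _ _ hwQ
  have hLne : L ≠ axisPt x₀ := fun h0 => hwM.2 (by rw [h0]; rfl)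
  rcases lt_trichotomy L.re 0 with hre | hre | hre
  · exact hfin W hWconn hWsub le_rfl ⟨c L, hwQ, L, ⟨hLδ, hre⟩, rfl⟩
  · obtain ⟨h1, h2⟩ := hbd L hLδ hre hLne
    exact hfin _ h1 h2 (subset_insert _ _) ⟨c L, hwQ, Or.inl rfl⟩
  · obtain ⟨x, hx⟩ := h.T_ex L (hsubR hLδ) hre hwM.1
    by_cases hxx : x = x₀
    · -- then `Q ⊆ K`, contradiction
      exfalso
      rw [hxx] at hx
      have hKclosed : IsClosed (K c T x₀) := (h.isCompact_K hM.isClosed hx₀).isClosed
      have hQpre : IsPreconnected Q := isPreconnected_connectedComponentIn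
      have hcompl : IsClosed (M \ (K c T x₀ \ {r})) := by
        refine isClosed_of_closure_subset fun v hv => ?_
        have hvM : v ∈ M := closure_minimal sdiff_subset hM.isClosed hv
        refine ⟨hvM, fun hvK => ?_⟩
        have h3 := h.K_open hx₀ hvK.1 hvK.2
        rw [mem_nhdsWithin_iff_eventually] at h3
        obtain ⟨u, hu, hu2⟩ := ((mem_closure_iff_frequently.1 hv).and_eventually h3).exists
        exact hu.2 (hu2 hu.1)
      have h4 := isPreconnected_closed_iff.1 hQpre _ _ hKclosed hcompl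
        (fun v hv => by
          have hv2 := connectedComponentIn_subset _ _ hv
          by_cases hvK : v ∈ K c T x₀
          · exact Or.inl hvK
          · exact Or.inr ⟨hv2.1, fun h0 => hvK h0.1⟩)
        ⟨c L, hwQ, Or.inr ⟨L, hx, rfl⟩⟩ ⟨z, hzQ, hzM, fun h0 => hzK h0.1⟩
      obtain ⟨v, hvQ, hv1, hv2⟩ := h4
      exact hv2.2 ⟨hv1, (connectedComponentIn_subset _ _ hvQ).2⟩
    · -- the limb piece of `x` is close to `r` and avoids `r`
      have hLre : L.re ≤ δ' := by
        have h1 := Complex.re_le_norm (L - axisPt x₀)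
        rw [Complex.sub_re, axisPt_re, sub_zero] at h1
        have h2 : ‖L - axisPt x₀‖ < δ' := by rwa [mem_ball, dist_eq_norm] at hL
        linarith
      have hxden := den_pos x
      have hxden1 : (1 : ℝ) ≤ x.den := by exact_mod_cast x.pos
      have hply : ‖L - axisPt x‖ ≤ Real.sqrt (A * δ') := by
        apply Real.le_sqrt_of_sq_le
        have h1 := h.ply L x hx
        have h2 : A / x.den ≤ A := div_le_self h.A_pos.le hxden1
        calc ‖L - axisPt x‖ ^ 2 ≤ A / x.den * L.re := h1
          _ ≤ A * δ' := mul_le_mul h2 hLre hre.le h.A_pos.le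
      have hdist : 2 * Real.pi * |(x : ℝ) - x₀| ≤ Real.sqrt (A * δ') + δ' := by
        rw [← axisPt_sub]
        have h1 : axisPt x - axisPt x₀ = -(L - axisPt x) + (L - axisPt x₀) := by ring
        rw [h1]
        have h2 : ‖L - axisPt x₀‖ < δ' := by rwa [mem_ball, dist_eq_norm] at hL
        calc ‖-(L - axisPt x) + (L - axisPt x₀)‖ ≤ ‖-(L - axisPt x)‖ + ‖L - axisPt x₀‖ :=
              norm_add_le _ _
          _ ≤ _ := by rw [norm_neg]; linarith
      have hAd : A / x.den ≤ A * q / (2 * Real.pi) * (Real.sqrt (A * δ') + δ') := by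
        have h1 := rat_apart hxx
        have h2 : 1 / (x.den : ℝ) ≤ q * |(x : ℝ) - x₀| := by
          have h3 : 1 / ((x.den : ℝ) * x₀.den) * x₀.den ≤ |(x : ℝ) - x₀| * x₀.den :=
            mul_le_mul_of_nonneg_right h1 hq0.le
          have h4 : 1 / ((x.den : ℝ) * x₀.den) * x₀.den = 1 / (x.den : ℝ) := by
            field_simp
          rw [h4] at h3
          calc 1 / (x.den : ℝ) ≤ |(x : ℝ) - x₀| * x₀.den := h3
            _ = q * |(x : ℝ) - x₀| := by rw [hq]; ring
        have h5 : |(x : ℝ) - x₀| ≤ (Real.sqrt (A * δ') + δ') / (2 * Real.pi) := by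
          rw [le_div_iff₀ (by positivity)]
          linarith
        calc A / x.den = A * (1 / x.den) := by ring
          _ ≤ A * (q * |(x : ℝ) - x₀|) := mul_le_mul_of_nonneg_left h2 h.A_pos.le
          _ ≤ A * (q * ((Real.sqrt (A * δ') + δ') / (2 * Real.pi))) := by
              have := h.A_pos.le
              gcongr
          _ = _ := by ring
      have hadm : Adm x₀ δ A x := by
        unfold Adm
        have : (A * q / (2 * Real.pi) + 1) * (Real.sqrt (A * δ') + δ') =
          A * q / (2 * Real.pi) * (Real.sqrt (A * δ') + δ') + (Real.sqrt (A * δ') + δ') := by ring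
        linarith
      have hadmR : Adm x₀ R A x := lt_of_lt_of_le hadm hδR
      have hPδ : P T x ⊆ ball (axisPt x₀) δ := h.P_sub_ball hadm
      have hrK : r ∉ K c T x := by
        rw [K_eq]
        rintro ⟨L', hL', h0⟩
        have h1 : L' = axisPt x₀ := hinj (hPδ hL') hcen h0
        rcases hL' with h2 | h2
        · have h3 : ‖axisPt x - axisPt x₀‖ = 0 := by rw [← h2, h1, sub_self, norm_zero]
          rw [axisPt_sub] at h3
          have h4 : |(x : ℝ) - x₀| = 0 := by
            rcases mul_eq_zero.1 h3 with h5 | h5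
            · exact absurd h5 (by positivity)
            · exact h5
          have h5 : (x : ℝ) = x₀ := by linarith [abs_eq_zero.1 h4]
          exact hxx (by exact_mod_cast h5)
        · have h3 := (h.T_dom L' x h2).1
          rw [h1, axisPt_re] at h3
          exact lt_irrefl _ h3
      have hKpre := h.K_conn hM.isClosed hMc hadmR
      have hxx' : axisPt x ≠ axisPt x₀ := by
        intro h0
        have h3 : ‖axisPt x - axisPt x₀‖ = 0 := by rw [h0, sub_self, norm_zero]
        rw [axisPt_sub] at h3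
        have h4 : |(x : ℝ) - x₀| = 0 := by
          rcases mul_eq_zero.1 h3 with h5 | h5
          · exact absurd h5 (by positivity)
          · exact h5
        have h5 : (x : ℝ) = x₀ := by linarith [abs_eq_zero.1 h4]
        exact hxx (by exact_mod_cast h5)
      obtain ⟨h1, h2⟩ := hbd (axisPt x) (hPδ (Or.inl rfl)) (axisPt_re x) hxx'
      refine hfin (K c T x ∪ insert (c (axisPt x)) W) ?_ ?_ ?_ ?_
      · exact IsPreconnected.union (c (axisPt x)) (Or.inl rfl) (Or.inl rfl) hKpre h1
      · refine union_subset (fun v hv => ⟨h.K_sub hadmR hv, fun h0 => hrK ?_⟩) h2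
        rw [mem_singleton_iff] at h0
        rw [← h0]; exact hv
      · exact (subset_insert _ _).trans subset_union_right
      · exact ⟨c L, hwQ, Or.inl (Or.inr ⟨L, hx, rfl⟩)⟩

/-- the left half disc is not empty -/
lemma left_nonempty (x₀ : ℚ) {δ : ℝ} (hδ : 0 < δ) :
    (ball (axisPt x₀) δ ∩ {L : ℂ | L.re < 0}).Nonempty := by
  refine ⟨axisPt x₀ - ((δ / 2 : ℝ) : ℂ), ?_, ?_⟩
  · rw [mem_ball, dist_eq_norm]
    have : axisPt x₀ - ((δ / 2 : ℝ) : ℂ) - axisPt x₀ = -((δ / 2 : ℝ) : ℂ) := by ring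
    rw [this, norm_neg, Complex.norm_real, Real.norm_eq_abs, abs_of_pos (by positivity)]
    linarith
  · simp [axisPt_re, hδ]

/-- points of `M` outside the limb piece `K` are in one component -/
theorem main (h : LimbData M x₀ R A c T) (hM : IsCompact M) (hMc : IsPreconnected M)
    (hx₀ : Adm x₀ R A x₀) :
    ∃ W : Set ℂ, W.Nonempty ∧ ∀ z ∈ M, z ∉ K c T x₀ →
      W ⊆ connectedComponentIn (M \ {c (axisPt x₀)}) z := by
  obtain ⟨δ, hδ, -, h1⟩ := h.main' hM hMc hx₀
  exact ⟨_, (left_nonempty x₀ hδ).image c, h1⟩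

/-- consequence: two points in different components of `M \ {r}` are not both outside `K` -/
theorem mem_K_or (h : LimbData M x₀ R A c T) (hM : IsCompact M) (hMc : IsPreconnected M)
    (hx₀ : Adm x₀ R A x₀) {z w : ℂ} (hz : z ∈ M) (hw : w ∈ M)
    (hne : connectedComponentIn (M \ {c (axisPt x₀)}) z ≠
      connectedComponentIn (M \ {c (axisPt x₀)}) w) : z ∈ K c T x₀ ∨ w ∈ K c T x₀ := by
  by_contra hcon
  push Not at hcon
  obtain ⟨W, ⟨v, hv⟩, hW⟩ := h.main hM hMc hx₀
  exact hne ((connectedComponentIn_eq (hW z hz hcon.1 hv)).trans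
    (connectedComponentIn_eq (hW w hw hcon.2 hv)).symm)

end LimbData

end Pool.Agent.Work.MLC
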