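import Pool.Agent.Work.MLC.LabG
import Pool.Agent.Work.MLC.Limb6
import Pool.Agent.Work.MLC.Sec57

set_option autoImplicit false

/-! # The good discs at the points of the imaginary axis (helper34)

The disc of radius `m² / (4 n)`, `m = min(x, 1 - x)`, about `2 π i x` lies outside all integer
discs; with the local injectivity on its right half (labels, count) and on its closed left half
(transversality) it is a good domain. -/

namespace Pool.Agent.Work.MLC

open Filter Topology Metric Set Complex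

/-- elementary: the disc is far from the integer discs -/
theorem gd_far {n : ℕ} (hn : 0 < n) {x : ℚ} (h0 : 0 < x) (h1 : x < 1) {L : ℂ}
    (hL : L ∈ ball (axisPt x) (1 / 4 * (min (x : ℝ) (1 - x)) ^ 2 / n)) (k : ℤ) :
    81 * n * L.re < ‖L - 2 * Real.pi * k * I‖ ^ 2 ∧ 0 < ‖L - 2 * Real.pi * k * I‖ ∧
      L.re < 1 / 4 := by
  have hn' : (1 : ℝ) ≤ n := by exact_mod_cast hn
  have hx0 : (0 : ℝ) < x := by exact_mod_cast h0
  have hx1 : (x : ℝ) < 1 := by exact_mod_cast h1
  set m : ℝ := min (x : ℝ) (1 - x) with hm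
  have hm0 : 0 < m := lt_min hx0 (by linarith)
  have hmx : m ≤ x := min_le_left _ _
  have hmx' : m ≤ 1 - x := min_le_right _ _
  have hm2 : m ≤ 1 / 2 := by linarith
  set R : ℝ := 1 / 4 * m ^ 2 / n with hR
  have hRn : R * n = 1 / 4 * m ^ 2 := by
    rw [hR]
    field_simp
  have hR0 : 0 < R := by positivity
  have hRm : R ≤ m / 8 := by
    rw [hR, div_le_iff₀ (by linarith)]
    linarith [mul_le_mul_of_nonneg_left hm2 hm0.le, mul_le_mul_of_nonneg_left hn' hm0.le]
  rw [mem_ball, dist_eq] at hL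
  have hre : L.re < R := by
    have h2 := (abs_re_le_norm (L - axisPt x)).trans_lt hL
    have h3 : (L - axisPt x).re = L.re := by simp [axisPt]
    rw [h3] at h2
    exact (le_abs_self _).trans_lt h2
  have him : |L.im - 2 * Real.pi * x| < R := by
    have h2 := (abs_im_le_norm (L - axisPt x)).trans_lt hL
    have h3 : (L - axisPt x).im = L.im - 2 * Real.pi * x := by simp [axisPt]
    rwa [h3] at h2
  have hpi : (3.14 : ℝ) < Real.pi := Real.pi_gt_d2
  have hkx : m ≤ |(x : ℝ) - k| := by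
    rcases le_or_gt k 0 with hk | hk
    · have h2 : (k : ℝ) ≤ 0 := by exact_mod_cast hk
      rw [abs_of_nonneg (by linarith)]
      linarith
    · have h2 : (1 : ℝ) ≤ k := by exact_mod_cast hk
      rw [abs_of_nonpos (by linarith)]
      linarith
  have hfar : 6 * m ≤ |L.im - 2 * Real.pi * k| := by
    have h2 : 2 * Real.pi * |(x : ℝ) - k| = |2 * Real.pi * x - 2 * Real.pi * k| := by
      rw [← mul_sub, abs_mul, abs_of_pos (by positivity : (0 : ℝ) < 2 * Real.pi)]
    have h3 : |2 * Real.pi * x - 2 * Real.pi * k| ≤ |L.im - 2 * Real.pi * x| +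
        |L.im - 2 * Real.pi * k| := by
      have := abs_sub_abs_le_abs_sub (2 * Real.pi * x - 2 * Real.pi * k) (L.im - 2 * Real.pi * k)
      have h4 : (2 * Real.pi * x - 2 * Real.pi * k) - (L.im - 2 * Real.pi * k) =
          -(L.im - 2 * Real.pi * x) := by ring
      rw [h4, abs_neg] at this
      linarith
    linarith [mul_le_mul_of_nonneg_left hkx (by positivity : (0 : ℝ) ≤ 2 * Real.pi),
      mul_lt_mul_of_pos_right hpi hm0]
  have hnorm : 6 * m ≤ ‖L - 2 * Real.pi * k * I‖ := by
    have h2 := abs_im_le_norm (L - 2 * Real.pi * k * I)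
    have h3 : (L - 2 * Real.pi * k * I).im = L.im - 2 * Real.pi * k := by simp
    rw [h3] at h2
    exact hfar.trans h2
  refine ⟨?_, by linarith [hnorm], by linarith⟩
  have h5 : (6 * m) ^ 2 ≤ ‖L - 2 * Real.pi * k * I‖ ^ 2 := by gcongr
  have h6 : 81 * (n : ℝ) * L.re < 81 * (1 / 4 * m ^ 2) := by
    rw [← hRn]
    linarith [mul_lt_mul_of_pos_right hre (by linarith : (0 : ℝ) < n)]
  linarith [sq_nonneg m]

/-- the good disc, from the occurrence of all labels over its right half -/
theorem goodDom_of_hall {n : ℕ} (hn : 0 < n) {x : ℚ} (h0 : 0 < x) (h1 : x < 1)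
    (hall : ∀ j : Lab n, ∃ z ∈ Per n, ∃ L ∈ ball (axisPt x) (1 / 4 * (min (x : ℝ) (1 - x)) ^ 2 / n),
      0 < L.re ∧ mul n z = exp L ∧ FF n z = j) :
    GoodDom n (ball (axisPt x) (1 / 4 * (min (x : ℝ) (1 - x)) ^ 2 / n)) := by
  set D := ball (axisPt x) (1 / 4 * (min (x : ℝ) (1 - x)) ^ 2 / n) with hD
  have hne : ∀ L ∈ D, exp L ≠ 1 := by
    intro L hL h
    rw [exp_eq_one_iff] at h
    obtain ⟨k, hk⟩ := h
    have h2 := (gd_far hn h0 h1 hL k).2.1
    rw [hk] at h2
    have h3 : (k : ℂ) * (2 * Real.pi * I) - 2 * Real.pi * k * I = 0 := by ring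
    rw [h3, norm_zero] at h2
    exact lt_irrefl _ h2
  have hlt : ∀ L ∈ D, ‖exp L‖ < 23 / 10 := by
    intro L hL
    rw [norm_exp]
    have h2 := (gd_far hn h0 h1 hL 0).2.2
    have h3 : Real.exp L.re < Real.exp (1 / 4) := Real.exp_lt_exp.2 h2
    have h4 : Real.exp (1 / 4) ≤ 23 / 10 := by
      have h5 : Real.exp (1 / 4) ≤ Real.exp (Real.log (23 / 10)) := by
        refine Real.exp_le_exp.2 ?_
        have := Real.one_sub_inv_le_log_of_pos (by norm_num : (0 : ℝ) < 23 / 10)
        norm_num at this ⊢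
        linarith
      rwa [Real.exp_log (by norm_num)] at h5
    linarith
  have hB : GoodB n (D ∩ {L : ℂ | 0 < L.re}) :=
    { isOpen := isOpen_ball.inter (isOpen_lt continuous_const continuous_re)
      conn := ((convex_ball _ _).inter (convex_halfSpace_re_gt 0)).isPreconnected
      pos := fun L hL => hL.2
      lt := fun L hL => hlt L hL.1
      noInt := fun L hL k => (gd_far hn h0 h1 hL.1 k).1 }
  have hinj := locInj_of_goodB hn hB (by
    intro j
    obtain ⟨z, hz, L, hL, h2, h3, h4⟩ := hall j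
    exact ⟨z, hz, L, ⟨hL, h2⟩, h3, h4⟩)
  refine ⟨hn, isOpen_ball, hne, hlt, ?_⟩
  intro z hz L hL hm
  rcases le_or_gt L.re 0 with h2 | h2
  · refine locInj_of_le hn hz ?_ ?_ ?_
    · rw [hm]
      exact hne L hL
    · rw [hm]
      exact exp_ne_zero L
    · rw [hm, norm_exp]
      exact Real.exp_le_one_iff.2 h2
  · exact hinj z hz L ⟨hL, h2⟩ hm

end Pool.Agent.Work.MLC
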