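import Pool.Agent.Work.MLC.Final6
import Pool.Agent.Work.MLC.GoodDom
import Pool.Agent.Work.MLC.Strip1

set_option autoImplicit false

/-! # Module S2: exterior pairs and labels, the lift of the angle along a section, injectivity
(helper51) -/

namespace Pool.Agent.Work.MLC

open Filter Topology Metric Set Complex

/-- other lifts of the angle -/
lemma Ang.add_int {c : ℂ} {θ : ℝ} (h : Ang c θ) (m : ℤ) : Ang c (θ + m) := by
  refine ⟨h.1, ?_⟩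
  have e : ((G c c : ℂ) + 2 * Real.pi * ((θ + m : ℝ) : ℂ) * I) =
      ((G c c : ℂ) + 2 * Real.pi * θ * I) + 2 * Real.pi * I * m := by push_cast; ring
  rw [e, eta_add_int]
  exact h.2

/-- change of the lift of the angle and of the word -/
theorem ExtP.move {n : ℕ} (hn : 0 < n) {c b : ℂ} {θ : ℝ} {w w' : ℕ → ℤ} (h : ExtP n c b θ w)
    (hw' : Bits n w') (m : ℤ) (hp : ∀ i, Even (w' i - w i - m)) : ExtP n c b (θ + m) w' := by
  obtain ⟨w'', hw''⟩ := exists_extP_word hn (h.ang.add_int m) h.2.2.1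
  obtain ⟨m', hm', hpar⟩ := extP_unique h hw''
  have hmm : m' = m := by
    have : (m : ℝ) = m' := by linarith
    exact_mod_cast this.symm
  subst hmm
  have e : w'' = w' := by
    funext i
    have h1 := hpar i
    have h2 := hp i
    rw [Int.even_iff] at h1 h2
    rcases hw''.2.2.2.1.bit i with a | a <;> rcases hw'.bit i with b' | b' <;> omega
  rw [← e]
  exact hw''

/-- the normalised word (first letter zero) -/
theorem ExtP.norm {n : ℕ} (hn : 0 < n) {c b : ℂ} {θ : ℝ} {w : ℕ → ℤ} (h : ExtP n c b θ w) :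
    ExtP n c b (θ + w 0) (nw w) := by
  refine h.move hn (bits_nw h.2.2.2.1) (w 0) fun i => ?_
  have h1 := nw_add h.2.2.2.1 i
  refine ⟨w 0 * (1 - w i) - w 0, ?_⟩
  linarith

/-- integer rotation numbers and the choice of the lift -/
theorem nu_int_move {n : ℕ} {c b : ℂ} {θ θ' : ℝ} {w w' : ℕ → ℤ} (h : ExtP n c b θ w)
    (h' : ExtP n c b θ' w') (hI : ∀ k : ℤ, Circ.nu w n θ ≠ k) (k : ℤ) : Circ.nu w' n θ' ≠ k := by
  obtain ⟨m, hm, hp⟩ := extP_unique h h'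
  obtain ⟨j, hj⟩ := nu_parity hp n
  intro hk
  have e : θ + m + m = θ + 2 * (m : ℤ) := by ring
  rw [hm, hj, e, nu_add_two_mul] at hk
  exact hI (k - j - n * m) (by push_cast; linarith)

/-- **over one exterior parameter a label is carried by at most one point** -/
theorem extP_eq_of_lab {n : ℕ} (hn : 0 < n) {c b b' : ℂ} {θ θ' : ℝ} {w w' : ℕ → ℤ}
    (h : ExtP n c b θ w) (h' : ExtP n c b' θ' w') (hI : ∀ k : ℤ, Circ.nu w n θ ≠ k)
    (hI' : ∀ k : ℤ, Circ.nu w' n θ' ≠ k) (hl : lab n θ w = lab n θ' w') : b = b' := by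
  obtain ⟨w'', hw''⟩ := exists_extP_word hn h.ang h'.2.2.1
  have h1 : lab n θ w'' = lab n θ' w' := (extP_lab_unique h' hw'')
  have h2 := nu_int_move h' hw'' hI'
  have h3 := lab_injective hn h.2.2.2.1 hw''.2.2.2.1 hI h2 (by rw [hl, h1])
  rw [← h3] at hw''
  exact extP_inj hn h hw''

/-- the label is constant along a section over a good half disc -/
theorem FF_const_section {n : ℕ} (hn : 0 < n) {B : Set ℂ} (hB : GoodB n B) {σ : ℂ → ℂ × ℂ}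
    (hσ : ContinuousOn σ B) (hσ' : ∀ L ∈ B, σ L ∈ Per n ∧ mul n (σ L) = exp L) {L₁ L₂ : ℂ}
    (h₁ : L₁ ∈ B) (h₂ : L₂ ∈ B) : FF n (σ L₁) = FF n (σ L₂) := by
  have hloc : ∀ L ∈ B, ∀ᶠ L' in 𝓝 L, FF n (σ L') = FF n (σ L) := by
    intro L hL
    have hn1 : 1 < ‖mul n (σ L)‖ := by
      rw [(hσ' L hL).2, Complex.norm_exp]
      exact Real.one_lt_exp_iff.2 (hB.pos L hL)
    have h1 := FF_nhds hn (hσ' L hL).1 hn1 (by rw [(hσ' L hL).2]; exact hB.lt L hL)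
      (hB.noInt' hL (hσ' L hL).2)
    have hBn : B ∈ 𝓝 L := hB.isOpen.mem_nhds hL
    have hc : ContinuousAt σ L := hσ.continuousAt hBn
    filter_upwards [hc.eventually h1, hBn] with L' h2 h3
    exact h2 (hσ' L' h3).1
  have hpre := hB.conn
  by_contra hne
  have key := hpre.subset_left_of_subset_union (u := {L | L ∈ B ∧ FF n (σ L) = FF n (σ L₁)})
    (v := {L | L ∈ B ∧ FF n (σ L) ≠ FF n (σ L₁)}) ?_ ?_ ?_ ?_ ?_
  · exact hne (key h₂).2.symm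
  · rw [isOpen_iff_mem_nhds]
    rintro L ⟨h1, h2⟩
    filter_upwards [hloc L h1, hB.isOpen.mem_nhds h1] with L' h3 h4
    exact ⟨h4, h3.trans h2⟩
  · rw [isOpen_iff_mem_nhds]
    rintro L ⟨h1, h2⟩
    filter_upwards [hloc L h1, hB.isOpen.mem_nhds h1] with L' h3 h4
    exact ⟨h4, fun h5 => h2 (h3.symm.trans h5)⟩
  · rw [Set.disjoint_left]
    rintro L ⟨-, h1⟩ ⟨-, h2⟩
    exact h2 h1
  · intro L hL
    by_cases h : FF n (σ L) = FF n (σ L₁)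
    · exact Or.inl ⟨hL, h⟩
    · exact Or.inr ⟨hL, h⟩
  · exact ⟨L₁, h₁, h₁, rfl⟩

/-- the rotation number of an exterior point of a section over a good half disc is not an integer -/
theorem nu_ne_int_section {n : ℕ} (hn : 0 < n) {B : Set ℂ} (hB : GoodB n B) {σ : ℂ → ℂ × ℂ}
    (hσ' : ∀ L ∈ B, σ L ∈ Per n ∧ mul n (σ L) = exp L) {L : ℂ} (hL : L ∈ B) {θ : ℝ} {w : ℕ → ℤ}
    (h : ExtP n (σ L).1 (σ L).2 θ w) (k : ℤ) : Circ.nu w n θ ≠ k :=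
  nu_ne_int_ext hn (x := σ L) (by rw [(hσ' L hL).2]; exact hB.lt L hL)
    (hB.noInt' hL (hσ' L hL).2) h k

/-- **over a good half disc the section is injective on exterior parameters** -/
theorem section_eq_ext {n : ℕ} (hn : 0 < n) {B : Set ℂ} (hB : GoodB n B) {σ : ℂ → ℂ × ℂ}
    (hσ : ContinuousOn σ B) (hσ' : ∀ L ∈ B, σ L ∈ Per n ∧ mul n (σ L) = exp L) {L₁ L₂ : ℂ}
    (h₁ : L₁ ∈ B) (h₂ : L₂ ∈ B) (hc : (σ L₁).1 = (σ L₂).1) (hM : 0 < G (σ L₁).1 (σ L₁).1) :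
    σ L₁ = σ L₂ := by
  obtain ⟨θ, hθ⟩ := exists_ang hM
  obtain ⟨w₁, hw₁⟩ := exists_extP_word hn hθ (b := (σ L₁).2) (hσ' L₁ h₁).1
  have hθ₂ : Ang (σ L₂).1 θ := by rw [← hc]; exact hθ
  obtain ⟨w₂, hw₂⟩ := exists_extP_word hn hθ₂ (b := (σ L₂).2) (hσ' L₂ h₂).1
  have h3 := FF_const_section hn hB hσ hσ' h₁ h₂
  rw [FF_ext (x := σ L₁) hw₁, FF_ext (x := σ L₂) hw₂] at h3
  have hi1 := nu_ne_int_section hn hB hσ' h₁ hw₁
  have hi2 := nu_ne_int_section hn hB hσ' h₂ hw₂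
  rw [← hc] at hw₂
  exact Prod.ext hc (extP_eq_of_lab hn hw₁ hw₂ hi1 hi2 h3)

/-- **the lift of the external angle along a section over a good half disc**: one word `w` and one
integer `k` serve for all exterior points of the section -/
theorem exists_word_section {n : ℕ} (hn : 0 < n) {B : Set ℂ} (hB : GoodB n B) {σ : ℂ → ℂ × ℂ}
    (hσ : ContinuousOn σ B) (hσ' : ∀ L ∈ B, σ L ∈ Per n ∧ mul n (σ L) = exp L) :
    ∃ (w : ℕ → ℤ) (k : ℤ), Bits n w ∧ w 0 = 0 ∧ ∀ L ∈ B, 0 < G (σ L).1 (σ L).1 →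
      ∃ θ : ℝ, ExtP n (σ L).1 (σ L).2 θ w ∧ (k : ℝ) < Circ.nu w n θ ∧ Circ.nu w n θ < k + 1 := by
  by_cases hex : ∃ L ∈ B, 0 < G (σ L).1 (σ L).1
  swap
  · refine ⟨fun _ => 0, 0, ⟨fun _ => Or.inl rfl, fun _ => rfl⟩, rfl, fun L hL h => ?_⟩
    exact absurd ⟨L, hL, h⟩ hex
  obtain ⟨L₀, hL₀, hM₀⟩ := hex
  obtain ⟨θ₀, hθ₀⟩ := exists_ang hM₀
  obtain ⟨w₀, hw₀⟩ := exists_extP_word hn hθ₀ (b := (σ L₀).2) (hσ' L₀ hL₀).1
  have hN₀ := hw₀.norm hn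
  set w : ℕ → ℤ := nw w₀ with hw
  set k : ℤ := ⌊Circ.nu w n (θ₀ + w₀ 0)⌋ with hk
  have hwn : nw w = w := by
    funext i
    rw [hw]
    unfold nw
    rcases hw₀.2.2.2.1.bit i with a | a <;> rcases hw₀.2.2.2.1.bit 0 with b | b <;> rw [a, b] <;>
      norm_num
  have hw0 : w 0 = 0 := nw_zero w₀
  refine ⟨w, k, bits_nw hw₀.2.2.2.1, hw0, fun L hL hM => ?_⟩
  obtain ⟨θ₁, hθ₁⟩ := exists_ang hM
  obtain ⟨w₁, hw₁⟩ := exists_extP_word hn hθ₁ (b := (σ L).2) (hσ' L hL).1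
  have hN₁ := hw₁.norm hn
  have hlab : lab n (θ₁ + w₁ 0) (nw w₁) = lab n (θ₀ + w₀ 0) w := by
    have h3 := FF_const_section hn hB hσ hσ' hL hL₀
    rw [FF_ext (x := σ L) hN₁, FF_ext (x := σ L₀) hN₀] at h3
    exact h3
  have hww : nw w₁ = w := by
    have hb1 := bits_nw hw₁.2.2.2.1
    have hb0 : Bits n w := bits_nw hw₀.2.2.2.1
    have h1 : ∀ i < n, nw (nw w₁) i = nw w i := by
      intro i hi
      have h2 : (lab n (θ₁ + w₁ 0) (nw w₁)).1.1 ⟨i, hi⟩ = (lab n (θ₀ + w₀ 0) w).1.1 ⟨i, hi⟩ := by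
        rw [hlab]
      rw [lab_fst, lab_fst] at h2
      have h3 : nw (nw w₁) i = 1 ↔ nw w i = 1 := by simpa using h2
      rcases (bits_nw hb1).bit i with a | a <;> rcases (bits_nw hb0).bit i with a' | a' <;>
        rw [a, a'] at h3 ⊢ <;> norm_num at h3
    have h2 : nw (nw w₁) = nw w₁ := by
      funext i
      unfold nw
      rcases hw₁.2.2.2.1.bit i with a | a <;> rcases hw₁.2.2.2.1.bit 0 with b | b <;>
        rw [a, b] <;> norm_num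
    rw [h2, hwn] at h1
    funext i
    rw [per_mod hb1 i, per_mod hb0 i]
    exact h1 _ (Nat.mod_lt _ hn)
  rw [hww] at hN₁ hlab
  have hsnd : ((⌊Circ.nu w n (θ₁ + w₁ 0)⌋ : ℤ) : ZMod n) = ((k : ℤ) : ZMod n) := by
    have h2 : (lab n (θ₁ + w₁ 0) w).2 = (lab n (θ₀ + w₀ 0) w).2 := by rw [hlab]
    rw [lab_snd, lab_snd, hwn, hw0] at h2
    simpa using h2
  rw [ZMod.intCast_eq_intCast_iff_dvd_sub] at hsnd
  obtain ⟨j, hj⟩ := hsnd
  have hmv : ExtP n (σ L).1 (σ L).2 ((θ₁ + w₁ 0) + ((2 * j : ℤ) : ℝ)) w := by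
    refine hN₁.move hn hN₁.2.2.2.1 (2 * j) fun i => ⟨-j, by ring⟩
  refine ⟨_, hmv, ?_⟩
  have hI := nu_ne_int_section hn hB hσ' hL hmv
  have hval : Circ.nu w n ((θ₁ + w₁ 0) + ((2 * j : ℤ) : ℝ)) = Circ.nu w n (θ₁ + w₁ 0) + n * j := by
    have := nu_add_two_mul w (θ₁ + w₁ 0) n j
    push_cast
    exact this
  have hfl : ⌊Circ.nu w n ((θ₁ + w₁ 0) + ((2 * j : ℤ) : ℝ))⌋ = k := by
    rw [hval]
    have : Circ.nu w n (θ₁ + w₁ 0) + n * j = Circ.nu w n (θ₁ + w₁ 0) + ((n * j : ℤ) : ℝ) := by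
      push_cast; ring
    rw [this, Int.floor_add_intCast]
    linarith
  rw [Int.floor_eq_iff] at hfl
  exact ⟨lt_of_le_of_ne hfl.1 fun h => hI k h.symm, hfl.2⟩

/-- the lift is unique -/
theorem lift_unique_section {n : ℕ} {c b : ℂ} {θ θ' : ℝ} {w : ℕ → ℤ} {k : ℤ}
    (hn : 0 < n) (h : ExtP n c b θ w) (h' : ExtP n c b θ' w)
    (h1 : (k : ℝ) < Circ.nu w n θ) (h2 : Circ.nu w n θ < k + 1)
    (h1' : (k : ℝ) < Circ.nu w n θ') (h2' : Circ.nu w n θ' < k + 1) : θ = θ' := by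
  obtain ⟨m, hm, hp⟩ := extP_unique h h'
  obtain ⟨j, hj⟩ := hp 0
  have hmj : m = 2 * (-j) := by omega
  have h3 := nu_add_two_mul w θ n (-j)
  have h4 : θ' = θ + 2 * (((-j : ℤ)) : ℝ) := by rw [hm, hmj]; push_cast; ring
  rw [← h4] at h3
  have h5 : (n : ℝ) * ((-j : ℤ) : ℝ) < 1 := by linarith
  have h6 : -1 < (n : ℝ) * ((-j : ℤ) : ℝ) := by linarith
  have h7 : (n : ℤ) * (-j) < 1 := by exact_mod_cast h5
  have h8 : -1 < (n : ℤ) * (-j) := by exact_mod_cast h6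
  have h9 : (n : ℤ) * (-j) = 0 := by omega
  have h10 : j = 0 := by
    rcases mul_eq_zero.1 h9 with h | h
    · have : n = 0 := by exact_mod_cast h
      omega
    · omega
  rw [h4, h10]; simp

/-- the external angle is an open map -/
theorem ang_open {c : ℂ} {θ : ℝ} (h : Ang c θ) {U : Set ℂ} (hU : U ∈ 𝓝 c) :
    ∀ᶠ θ' in 𝓝 θ, ∃ c' ∈ U, Ang c' θ' := by
  set L₀ : ℂ := (G c c : ℂ) + 2 * Real.pi * θ * I with hL₀
  have hre : L₀.re = G c c := by simp [hL₀]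
  have hLpos : 0 < L₀.re := by rw [hre]; exact h.1
  have hc₀ : cOf L₀ = c := by
    refine cOf_unique ?_ ?_ h.2
    · have h1 : c ∈ Mc := h.1
      exact mem_Mc_iff.1 h1
    · rw [hre, G_zero_eq]; linarith [h.1]
  have hopen : IsOpen {L : ℂ | 0 < L.re} := isOpen_lt continuous_const continuous_re
  have hcc : ContinuousAt cOf L₀ :=
    (differentiableOn_cOf.differentiableAt (hopen.mem_nhds hLpos)).continuousAt
  have hcont : Continuous fun θ' : ℝ => (G c c : ℂ) + 2 * Real.pi * θ' * I := by fun_prop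
  have ht : Tendsto (fun θ' : ℝ => cOf ((G c c : ℂ) + 2 * Real.pi * θ' * I)) (𝓝 θ) (𝓝 c) := by
    have h1 : Tendsto (fun θ' : ℝ => (G c c : ℂ) + 2 * Real.pi * θ' * I) (𝓝 θ) (𝓝 L₀) :=
      hcont.tendsto' _ _ rfl
    have h2 := hcc.tendsto.comp h1
    rw [hc₀] at h2
    exact h2
  filter_upwards [ht hU] with θ' hθ'
  exact ⟨_, hθ', (ang_cOf h.1).1⟩

/-- the lift is continuous along a section -/
theorem lift_nhds_section {n : ℕ} (hn : 0 < n) {D : Set ℂ} (hD : IsOpen D) {σ : ℂ → ℂ × ℂ}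
    (hσ : ContinuousOn σ D) (hσ' : ∀ L ∈ D, σ L ∈ Per n ∧ mul n (σ L) = exp L) {L : ℂ}
    (hL : L ∈ D) {θ : ℝ} {w : ℕ → ℤ} (h : ExtP n (σ L).1 (σ L).2 θ w) {ε : ℝ} (hε : 0 < ε) :
    ∀ᶠ L' in 𝓝 L, ∃ θ' : ℝ, |θ' - θ| < ε ∧ ExtP n (σ L').1 (σ L').2 θ' w := by
  have hDn : D ∈ 𝓝 L := hD.mem_nhds hL
  have hc : ContinuousAt σ L := hσ.continuousAt hDn
  have h1 := extP_nhds hn (c₀ := (σ L).1) (b₀ := (σ L).2) h hε
  filter_upwards [hc.eventually h1, hDn] with L' h2 h3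
  exact h2 (hσ' L' h3).1

/-- the lift is an open map along a section which is an open map -/
theorem lift_open_section {n : ℕ} (hn : 0 < n) {D : Set ℂ} (hD : IsOpen D) {σ : ℂ → ℂ × ℂ}
    (hσ : ContinuousOn σ D) (hσ' : ∀ L ∈ D, σ L ∈ Per n ∧ mul n (σ L) = exp L) {L : ℂ}
    (hL : L ∈ D) {θ : ℝ} {w : ℕ → ℤ} (h : ExtP n (σ L).1 (σ L).2 θ w)
    (hop : ∀ U ∈ 𝓝 L, (fun L => (σ L).1) '' U ∈ 𝓝 (σ L).1) {U : Set ℂ} (hU : U ∈ 𝓝 L) :
    ∀ᶠ θ' in 𝓝 θ, ∃ L' ∈ U ∩ D, ExtP n (σ L').1 (σ L').2 θ' w := by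
  have h1 := lift_nhds_section hn hD hσ hσ' hL h (ε := 1 / 2) (by norm_num)
  have hV : U ∩ D ∩ {L' | ∃ θ' : ℝ, |θ' - θ| < 1 / 2 ∧ ExtP n (σ L').1 (σ L').2 θ' w} ∈ 𝓝 L :=
    inter_mem (inter_mem hU (hD.mem_nhds hL)) h1
  have h2 := ang_open h.ang (hop _ hV)
  have h3 : ∀ᶠ θ' in 𝓝 θ, |θ' - θ| < 1 / 2 := by
    have := Metric.ball_mem_nhds θ (show (0 : ℝ) < 1 / 2 by norm_num)
    filter_upwards [this] with θ' hθ'
    rwa [mem_ball, Real.dist_eq] at hθ'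
  filter_upwards [h2, h3] with θ' h4 h5
  obtain ⟨c', ⟨L', ⟨hL', θ'', h6, h7⟩, rfl⟩, h8⟩ := h4
  refine ⟨L', hL', ?_⟩
  obtain ⟨m, hm⟩ := h7.ang.unique h8
  rw [abs_lt] at h5 h6
  have h9 : (m : ℝ) < 1 := by linarith
  have h10 : (-1 : ℝ) < m := by linarith
  have h11 : m < 1 := by exact_mod_cast h9
  have h12 : -1 < m := by exact_mod_cast h10
  have h13 : m = 0 := by omega
  rw [h13] at hm
  simp at hm
  rw [hm]
  exact h7

/-- the good half disc at `2 π i x` -/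
theorem goodB_ball {n : ℕ} (hn : 0 < n) {x : ℚ} (h0 : 0 < x) (h1 : x < 1) :
    GoodB n (ball (axisPt x) (1 / 4 * (min (x : ℝ) (1 - x)) ^ 2 / n) ∩ {L : ℂ | 0 < L.re}) := by
  refine ⟨isOpen_ball.inter (isOpen_lt continuous_const continuous_re),
    ((convex_ball _ _).inter (convex_halfSpace_re_gt 0)).isPreconnected, fun L hL => hL.2, ?_,
    fun L hL k => (gd_far hn h0 h1 hL.1 k).1⟩
  intro L hL
  rw [norm_exp]
  have h2 := (gd_far hn h0 h1 hL.1 0).2.2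
  have h3 : Real.exp L.re < Real.exp (1 / 4) := Real.exp_lt_exp.2 h2
  have h4 : Real.exp (1 / 4) ≤ 23 / 10 := by
    have h5 : Real.exp (1 / 4) ≤ Real.exp (Real.log (23 / 10)) := by
      refine Real.exp_le_exp.2 ?_
      have := Real.one_sub_inv_le_log_of_pos (by norm_num : (0 : ℝ) < 23 / 10)
      norm_num at this ⊢
      linarith
    rwa [Real.exp_log (by norm_num)] at h5
  linarith

/-- exterior points of a section have positive real part -/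
theorem re_pos_of_ext {n : ℕ} (hn : 0 < n) {z : ℂ × ℂ} {L : ℂ} (hz : z ∈ Per n)
    (hm : mul n z = exp L) (hG : 0 < G z.1 z.1) : 0 < L.re := by
  have h1 : 1 < ‖mult n z.1 z.2‖ := one_lt_norm_mult_of_ext hn hG hz
  have h2 : mult n z.1 z.2 = mul n z := rfl
  rw [h2, hm, norm_exp] at h1
  exact Real.one_lt_exp_iff.1 h1

/-- **injectivity at the points which are not in the interior of `M`** -/
theorem section_inj_closure {n : ℕ} (hn : 0 < n) {D B : Set ℂ} (hD : IsOpen D) (hB : GoodB n B)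
    (hDB : ∀ L ∈ D, 0 < L.re → L ∈ B) (hexp : InjOn exp D) {σ : ℂ → ℂ × ℂ}
    (hσ : ContinuousOn σ D) (hσ' : ∀ L ∈ D, σ L ∈ Per n ∧ mul n (σ L) = exp L)
    (hBD : B ⊆ D) (hop : ∀ L ∈ D, ∀ U ∈ 𝓝 L, (fun L => (σ L).1) '' U ∈ 𝓝 (σ L).1) {L₁ L₂ : ℂ}
    (h₁ : L₁ ∈ D) (h₂ : L₂ ∈ D) (hc : (σ L₁).1 = (σ L₂).1)
    (hcl : (σ L₁).1 ∈ closure {c : ℂ | 0 < G c c}) : L₁ = L₂ := by
  by_contra hne
  obtain ⟨U₁, U₂, o1, o2, m1, m2, hdis⟩ := t2_separation hne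
  have i1 := hop L₁ h₁ (U₁ ∩ D) (inter_mem (o1.mem_nhds m1) (hD.mem_nhds h₁))
  have i2 := hop L₂ h₂ (U₂ ∩ D) (inter_mem (o2.mem_nhds m2) (hD.mem_nhds h₂))
  rw [← hc] at i2
  obtain ⟨c', ⟨hc1, hc2⟩, hc3⟩ := mem_closure_iff_nhds.1 hcl _ (inter_mem i1 i2)
  obtain ⟨L₁', ⟨a1, b1⟩, e1⟩ := hc1
  obtain ⟨L₂', ⟨a2, b2⟩, e2⟩ := hc2
  have g1 : 0 < G (σ L₁').1 (σ L₁').1 := by
    have e1' : (σ L₁').1 = c' := e1
    rw [e1']; exact hc3
  have g2 : 0 < G (σ L₂').1 (σ L₂').1 := by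
    have e2' : (σ L₂').1 = c' := e2
    rw [e2']; exact hc3
  have p1 := hDB L₁' b1 (re_pos_of_ext hn (hσ' L₁' b1).1 (hσ' L₁' b1).2 g1)
  have p2 := hDB L₂' b2 (re_pos_of_ext hn (hσ' L₂' b2).1 (hσ' L₂' b2).2 g2)
  have h3 := section_eq_ext hn hB (hσ.mono hBD) (fun L hL => hσ' L (hBD hL)) p1 p2
    (e1.trans e2.symm) g1
  have h4 : exp L₁' = exp L₂' := by
    rw [← (hσ' L₁' b1).2, ← (hσ' L₂' b2).2, h3]
  have h5 := hexp b1 b2 h4
  rw [h5] at a1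
  exact Set.disjoint_left.1 hdis a1 a2

end Pool.Agent.Work.MLC
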