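import Pool.Agent.Work.MLC.Sat0
import Pool.Agent.Work.MLC.SatInj51

set_option autoImplicit false

/-! # Modules S2 and S16 of Theorem S (helper51) -/

namespace Pool.Agent.Work.MLC.Sat

open Filter Topology Metric Set Complex

theorem s2_width : S2_width := by
  intro n w θ k _ _ h
  obtain ⟨a, ha⟩ := nu_intAngle w n ⌈θ⌉
  have h1 := Circ.nu_mono w n (Int.le_ceil θ)
  have h2 := Circ.nu_mono w n (Int.ceil_lt_add_one θ).le
  rw [ha] at h1 h2
  have h3 : (k : ℝ) < a := lt_of_lt_of_le h h1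
  have h4 : k + 1 ≤ a := by
    have : k < a := by exact_mod_cast h3
    omega
  have h5 : (k : ℝ) + 1 ≤ a := by exact_mod_cast h4
  exact h5.trans h2

theorem s2_unique : S2_unique := by
  intro n c z z' hn hc hz hz' hI hI' hF
  have hG : 0 < G c c := by
    rw [← mem_Mc, mem_Mc_iff]
    exact hc
  obtain ⟨θ, hθ⟩ := exists_ang hG
  obtain ⟨w, hw⟩ := exists_extP_word hn hθ (b := z) hz
  obtain ⟨w', hw'⟩ := exists_extP_word hn hθ (b := z') hz'
  rw [FF_ext (x := (c, z)) hw, FF_ext (x := (c, z')) hw'] at hF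
  exact extP_eq_of_lab hn hw hw' (hI.2 θ w hw) (hI'.2 θ w' hw') hF

theorem s16_rot : S16_rot := by
  intro n c z L x i hn h
  obtain ⟨h1, h2, h3, h4, q, p, hq, hT, hx⟩ := h
  have hrep := Tr.rep_of h3 h4 h1
  have hm0 : mult n c z ≠ 0 := repelling_ne_zero hrep.2
  have h3' : (c, it c i z) ∈ Per n := it_it_periodic h3 i
  have h4' : mul n (c, it c i z) = exp L := by
    rw [← h4]
    exact mult_it hn h3 hm0 i
  have hrep' := Tr.rep_of h3' h4' h1
  have hl : Tr.Lin c z (exp L) n (Lz n c z) := Tr.lin_Lz hn hrep h4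
  have hl' : Tr.Lin c (it c i z) (exp L) n (Lz n c (it c i z)) := Tr.lin_Lz hn hrep' h4'
  have hne : ∀ j, it c j z ≠ 0 := it_ne_zero_of_mult hn h3 hm0
  have hmi : mul i (c, z) ≠ 0 := by
    unfold mul
    rw [Finset.prod_ne_zero_iff]
    intro j _
    exact mul_ne_zero two_ne_zero (hne j)
  have hli : Tr.Lin c (it c i z) (exp L) n (fun t => it c i (Lz n c z t)) := by
    refine ⟨hn, ?_, ?_, ?_, ?_, hl.rho⟩
    · exact fun t => (((hasDerivAt_it c i _).differentiableAt).comp t (hl.diff t))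
    · simp only [hl.zero]
    · have hd : HasDerivAt (fun t => it c i (Lz n c z t))
          (mul i (c, Lz n c z 0) * deriv (Lz n c z) 0) 0 :=
        (hasDerivAt_it c i _).comp (0 : ℂ) (hl.diff 0).hasDerivAt
      rw [hd.deriv, hl.zero]
      exact mul_ne_zero hmi hl.der
    · intro t
      simp only [hl.eqn]
      rw [← it_add, ← it_add, add_comm]
  have hTi : Tr.TypeL c (fun t => it c i (Lz n c z t)) L q (-p) := by
    obtain ⟨g, hg1, hg2, hg3⟩ := hT
    refine ⟨g, hg1, fun s => ?_, hg3⟩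
    simp only
    rw [G_it]
    exact mul_pos (by positivity) (hg2 s)
  exact ⟨h1, h2, h3', h4', q, p, hq, hTi.indep hli hl', hx⟩

end Pool.Agent.Work.MLC.Sat
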