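import Pool.Agent.Work.MLC.Sat0

set_option autoImplicit false

/-! # S3: limits of repelling pairs with a given label (helper59) -/

namespace Pool.Agent.Work.MLC

open Filter Topology Metric Set Complex
open Pool.Agent.MLC (InHalf Portrait Linked)

namespace Sat

/-- a ray of period one and a ray of period at least two cannot land at the same repelling point -/
theorem land_not_both {n : ℕ} (hn : 0 < n) {c b : ℂ} (hc : G c 0 = 0) (hb : it c n b = b)
    (hρ : 1 < ‖mult n c b‖) {β β' : ℝ} {q : ℕ} (hq : 2 ≤ q) (h : Land n c b β 1)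
    (h' : Land n c b β' q) : False := by
  have hF : Fam n c b {β, β'} := by
    refine ⟨(Set.finite_singleton β').insert β, ?_, ?_, ⟨β', by simp, q, hq, h'.1⟩⟩
    · rintro a (rfl | rfl)
      · exact ⟨1, h.1⟩
      · exact ⟨q, h'.1⟩
    · rintro a (rfl | rfl)
      · exact h.lands hc
      · exact h'.lands hc
  obtain ⟨θ, v, hv, hf⟩ := exists_fits hn hF (portHyp hn _ _ _ hc hb hρ hF)
  have h1 := hf.compat (β := β) (by simp) (h.lands hc)
  have h2 := hf.compat (β := β') (by simp) (h'.lands hc)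
  obtain ⟨P, -, hP⟩ := nu_of_compat h.1 hv.per h1
  exact nu_ne_int_of_compat hq h'.1 hv.per h2 P (by simpa using hP)

/-- the two types over `MM` exclude each other -/
theorem not_nonInt_intRot {n : ℕ} (hn : 0 < n) {x : ℂ × ℂ} (hx : x ∈ Per n)
    (hρ : 1 < ‖mul n x‖) (hI : IntRot n x) (hN : NonInt n x) : False := by
  obtain ⟨c, b⟩ := x
  obtain ⟨hc, β, hβ⟩ := hI
  obtain ⟨β', q, hq, hβ'⟩ := hN.1 hc
  exact land_not_both hn hc hx hρ hq hβ hβ'

/-- near a pair of integer rotation over `MM` there is no pair of non-integer rotation -/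
theorem intRot_nhds_not {n : ℕ} (hn : 0 < n) {x₀ : ℂ × ℂ} (hx₀ : x₀ ∈ Per n)
    (hρ : 1 < ‖mul n x₀‖) (hI : IntRot n x₀) :
    ∀ᶠ x in 𝓝 x₀, x ∈ Per n → ¬ NonInt n x := by
  obtain ⟨β, -, h⟩ := intRot_nhds hn hx₀ hρ hI
  have h2 : ∀ᶠ x in 𝓝 x₀, 1 < ‖mul n x‖ :=
    (continuous_mul' n).norm.continuousAt.eventually (lt_mem_nhds hρ)
  filter_upwards [h, h2] with x h1 h2 hx hN
  by_cases hG : G x.1 0 = 0
  · exact not_nonInt_intRot hn hx h2 ⟨hG, β, (h1 hx).1 hG⟩ hN
  · have hc : 0 < G x.1 x.1 := by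
      rw [G_c_eq]
      have := lt_of_le_of_ne (G_nonneg x.1 0) (Ne.symm hG)
      linarith
    obtain ⟨θ, hθ⟩ := exists_ang hc
    obtain ⟨w, hw⟩ := exists_extP_word hn hθ hx
    obtain ⟨k, hk⟩ := ((h1 hx).2 θ w hw).2
    exact hN.2 θ w hw k hk

/-- **S3**: over `MM` a repelling limit of `NJ` is in `NJ` -/
theorem s3_closed : S3_closed := by
  intro n J x hn hx hρ hM hcl
  have hM0 : G x.1 0 = 0 := mem_M_iff.1 hM
  rcases nonInt_or_intRot hn hx hM0 hρ with hN | hI
  · have h := FF_nhds_gen hn hx hρ hN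
    rw [mem_closure_iff_frequently] at hcl
    obtain ⟨y, hy, h1⟩ := (hcl.and_eventually h).exists
    refine ⟨hx, hρ, hN, ?_⟩
    rw [← (h1 hy.1).1]
    exact hy.2.2.2
  · rw [mem_closure_iff_frequently] at hcl
    obtain ⟨y, hy, h1⟩ := (hcl.and_eventually (intRot_nhds_not hn hx hρ hI)).exists
    exact absurd hy.2.2.1 (h1 hy.1)

/-- outside the integer discs the rotation is not an integer -/
theorem nonInt_of_noInt {n : ℕ} (hn : 0 < n) {x : ℂ × ℂ} (hx : x ∈ Per n)
    (hρ : 1 < ‖mul n x‖) (h23 : ‖mul n x‖ < 23 / 10) (hI : NoInt n x) : NonInt n x := by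
  obtain ⟨c, b⟩ := x
  refine ⟨fun hc => ?_, fun θ w h k => nu_ne_int_ext hn h23 hI h k⟩
  obtain ⟨B, hB⟩ := exists_fam hn hc hx hρ hI
  obtain ⟨β, hβ, q, hq, hp⟩ := hB.two
  exact ⟨β, q, hq, land_of_lands hc hp (hB.land β hβ)⟩

/-- the data around a neutral pair -/
theorem neutral_data {n : ℕ} (hn : 0 < n) {x : ℂ × ℂ} {φ : ℝ} (hx : x ∈ Per n) (h0 : 0 < φ)
    (h1 : φ < 1) (hm : mul n x = exp (2 * Real.pi * φ * I)) :
    ∃ (D : Set ℂ) (σ : ℂ → ℂ × ℂ), Convex ℝ D ∧ GoodDom n D ∧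
      (2 * Real.pi * φ * I : ℂ) ∈ D ∧ ContinuousOn σ D ∧
      (∀ L ∈ D, σ L ∈ Per n ∧ mul n (σ L) = exp L) ∧ σ (2 * Real.pi * φ * I) = x ∧
      ∀ L ∈ D, ∀ k : ℤ, 81 * n * L.re < ‖L - 2 * Real.pi * k * I‖ ^ 2 := by
  have hn' : (1 : ℝ) ≤ n := by exact_mod_cast hn
  set μ : ℝ := min φ (1 - φ) with hμ
  have hμ0 : 0 < μ := lt_min h0 (by linarith)
  have hμ1 : μ ≤ φ := min_le_left _ _
  have hμ2 : μ ≤ 1 - φ := min_le_right _ _
  have hη : 0 < min (μ / 2) (μ ^ 2 / (128 * n)) := by positivity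
  obtain ⟨y, hy1, hy2⟩ := exists_rat_btwn (show φ < φ + min (μ / 2) (μ ^ 2 / (128 * n)) by linarith)
  have hy3 : (y : ℝ) - φ < μ / 2 := by linarith [min_le_left (μ / 2) (μ ^ 2 / (128 * n))]
  have hy4 : (y : ℝ) - φ < μ ^ 2 / (128 * n) := by
    linarith [min_le_right (μ / 2) (μ ^ 2 / (128 * n))]
  have hyR0 : (0 : ℝ) < y := by linarith
  have hyR1 : (y : ℝ) < 1 := by linarith
  have hy0 : 0 < y := by exact_mod_cast hyR0
  have hyl : y < 1 := by exact_mod_cast hyR1
  have hmin : μ / 2 ≤ min (y : ℝ) (1 - y) := le_min (by linarith) (by linarith)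
  have hG : GoodDom n (ball (axisPt y) (1 / 4 * (min (y : ℝ) (1 - y)) ^ 2 / n)) :=
    goodDom34 hn hy0 hyl
  have hL₀ : (2 * Real.pi * φ * I : ℂ) ∈ ball (axisPt y) (1 / 4 * (min (y : ℝ) (1 - y)) ^ 2 / n) := by
    rw [mem_ball, dist_eq]
    have e : (2 * Real.pi * φ * I : ℂ) - axisPt y = ((2 * Real.pi * (φ - y) : ℝ) : ℂ) * I := by
      rw [axisPt]; push_cast; ring
    rw [e, norm_mul, norm_I, mul_one, norm_real, Real.norm_eq_abs, abs_of_nonpos (by
      have : 0 < Real.pi := Real.pi_pos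
      nlinarith)]
    have h5 : 2 * Real.pi * ((y : ℝ) - φ) < 7 * (μ ^ 2 / (128 * n)) := by
      have h6 : 2 * Real.pi < 7 := by linarith [Real.pi_lt_d2]
      have h7 : 0 < (y : ℝ) - φ := by linarith
      have h8 : 0 < Real.pi := Real.pi_pos
      nlinarith
    have h9 : 7 * (μ ^ 2 / (128 * n)) ≤ 1 / 4 * (μ / 2) ^ 2 / n := by
      rw [show 7 * (μ ^ 2 / (128 * n)) = 7 / 128 * (μ ^ 2 / n) by field_simp,
        show 1 / 4 * (μ / 2) ^ 2 / n = 1 / 16 * (μ ^ 2 / n) by ring]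
      have : 0 ≤ μ ^ 2 / n := by positivity
      linarith
    have h10 : 1 / 4 * (μ / 2) ^ 2 / n ≤ 1 / 4 * (min (y : ℝ) (1 - y)) ^ 2 / n := by
      gcongr
    linarith
  obtain ⟨σ, hσ, hσ', hσ0⟩ := exists_section hG (convex_ball _ _) hx hL₀ hm
  exact ⟨_, σ, convex_ball _ _, hG, hL₀, hσ, hσ', hσ0, fun L hL k => (gd_far hn hy0 hyl hL k).1⟩

/-- **S3'** -/
theorem s3_neutral : S3_neutral := by
  intro n x φ hn hx h0 h1 hm
  obtain ⟨D, σ, hDc, hG, hL₀, hσ, hσ', hσ0, hfar⟩ := neutral_data hn hx h0 h1 hm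
  set L₀ : ℂ := 2 * Real.pi * φ * I with hL₀def
  have hL₀re : L₀.re = 0 := by simp [hL₀def]
  have hL₀im : L₀.im = 2 * Real.pi * φ := by simp [hL₀def]
  have hm0 : mul n x ≠ 0 := by rw [hm]; exact exp_ne_zero _
  have hm1 : ‖mul n x‖ = 1 := by rw [hm, norm_exp, hL₀re, Real.exp_zero]
  have hD : D ∈ 𝓝 L₀ := hG.isOpen.mem_nhds hL₀
  have hσc : ContinuousAt σ L₀ := hσ.continuousAt hD
  -- the local logarithm of the multiplier
  set ℓ : ℂ × ℂ → ℂ := fun y => Complex.log (mul n y / mul n x) + L₀ with hℓ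
  have hℓc : ContinuousAt ℓ x := by
    have h2 : ContinuousAt (fun y => mul n y / mul n x) x := by
      have := (continuous_mul' n).continuousAt (x := x)
      exact this.div_const _
    have h3 : ContinuousAt (fun y => Complex.log (mul n y / mul n x)) x :=
      h2.clog (by simp only [div_self hm0]; exact one_mem_slitPlane)
    exact h3.add continuousAt_const
  have hℓx : ℓ x = L₀ := by simp [hℓ, div_self hm0]
  have hℓe : ∀ᶠ y in 𝓝 x, exp (ℓ y) = mul n y := by
    have h2 : ∀ᶠ y in 𝓝 x, mul n y ≠ 0 :=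
      (continuous_mul' n).continuousAt.eventually_ne hm0
    filter_upwards [h2] with y hy
    simp only [hℓ]
    rw [exp_add, exp_log (div_ne_zero hy hm0), ← hm, div_mul_cancel₀ _ hm0]
  have hℓt : Tendsto ℓ (𝓝 x) (𝓝 L₀) := by rw [← hℓx]; exact hℓc
  -- the right half
  set S : Set ℂ := D ∩ {L : ℂ | 0 < L.re} with hS
  have hSc : Convex ℝ S := hDc.inter (convex_halfSpace_re_gt 0)
  have hNI : ∀ L ∈ S, 1 < ‖mul n (σ L)‖ ∧ NonInt n (σ L) := by
    intro L hL
    obtain ⟨h3, h4⟩ := hσ' L hL.1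
    have h5 : 1 < ‖mul n (σ L)‖ := by
      rw [h4, norm_exp]; exact Real.one_lt_exp_iff.2 hL.2
    refine ⟨h5, nonInt_of_noInt hn h3 h5 (by rw [h4]; exact hG.lt L hL.1) ?_⟩
    intro L' hL' k
    rw [h4, Complex.exp_eq_exp_iff_exists_int] at hL'
    obtain ⟨m, hm⟩ := hL'
    have h6 := hfar L hL.1 (k - m)
    have h7 : L'.re = L.re := by rw [hm]; simp
    have h8 : L' - 2 * Real.pi * k * I = L - 2 * Real.pi * ((k - m : ℤ) : ℂ) * I := by
      rw [hm]; push_cast; ring
    rw [h7, h8]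
    exact h6
  have hline : ∀ L ∈ D, L.re = 0 → ∀ᶠ t : ℝ in 𝓝[>] 0, L + t ∈ S := by
    intro L hL hre
    have h2 : Tendsto (fun t : ℝ => L + t) (𝓝[>] 0) (𝓝 L) := by
      have : ContinuousAt (fun t : ℝ => L + t) 0 := by fun_prop
      have h3 := this.tendsto
      simp only [ofReal_zero, add_zero] at h3
      exact h3.mono_left nhdsWithin_le_nhds
    filter_upwards [h2.eventually (hG.isOpen.mem_nhds hL), self_mem_nhdsWithin] with t h3 h4
    exact ⟨h3, by simpa [hre] using h4⟩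
  obtain ⟨t₁, ht₁⟩ := (hline L₀ hL₀ hL₀re).exists
  have hconst : ∀ L ∈ S, FF n (σ L) = FF n (σ (L₀ + t₁)) := by
    have : PreconnectedSpace S := isPreconnected_iff_preconnectedSpace.1 hSc.isPreconnected
    have hlc : IsLocallyConstant fun L : S => FF n (σ L) := by
      rw [IsLocallyConstant.iff_eventually_eq]
      intro L
      have h3 : ContinuousAt σ L := hσ.continuousAt (hG.isOpen.mem_nhds L.2.1)
      have h4 := h3.eventually (FF_nhds_gen hn (hσ' L L.2.1).1 (hNI L L.2).1 (hNI L L.2).2)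
      have h5 : ∀ᶠ L' : S in 𝓝 L, (σ L' ∈ Per n → FF n (σ L') = FF n (σ L) ∧ NonInt n (σ L')) :=
        continuous_subtype_val.continuousAt.eventually h4
      filter_upwards [h5] with L' h6
      exact (h6 (hσ' L' L'.2.1).1).1
    intro L hL
    exact hlc.apply_eq_of_preconnectedSpace ⟨L, hL⟩ ⟨_, ht₁⟩
  obtain ⟨N, hN, hinj⟩ := hG.inj x hx L₀ hL₀ hm
  refine ⟨⟨FF n (σ (L₀ + t₁)), ?_⟩, ?_, ?_⟩
  · -- one label
    filter_upwards [hℓe, hN, hℓt.eventually hD,
      (hσc.tendsto.comp hℓt).eventually (by rw [hσ0]; exact hN)] with y h2 h3 h4 h5 hy hρ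
    have h6 : 0 < (ℓ y).re := by
      rw [← h2, norm_exp] at hρ
      exact Real.one_lt_exp_iff.1 hρ
    have h7 := hσ' (ℓ y) h4
    have h8 : σ (ℓ y) = y := hinj ⟨h5, h7.1⟩ ⟨h3, hy⟩ (h7.2.trans h2)
    have h9 := hNI (ℓ y) ⟨h4, h6⟩
    have h10 := hconst (ℓ y) ⟨h4, h6⟩
    rw [h8] at h9 h10
    exact ⟨hy, hρ, h9.2, h10⟩
  · -- rotation numbers
    intro ε hε
    set δ : ℝ := min ε (min φ (1 - φ)) with hδ
    have hδ0 : 0 < δ := lt_min hε (lt_min h0 (by linarith))
    have hδ1 : δ ≤ ε := min_le_left _ _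
    have hδ2 : δ ≤ φ := (min_le_right _ _).trans (min_le_left _ _)
    have hδ3 : δ ≤ 1 - φ := (min_le_right _ _).trans (min_le_right _ _)
    have hlog : ∀ᶠ y in 𝓝 x, ‖mul n y‖ < 23 / 10 :=
      (continuous_mul' n).norm.continuousAt.eventually (gt_mem_nhds (by
        show ‖mul n x‖ < 23 / 10
        rw [hm1]; norm_num))
    have him : ∀ᶠ y in 𝓝 x, |(ℓ y).im - 2 * Real.pi * φ| < δ := by
      have h2 : Tendsto (fun y => |(ℓ y).im - 2 * Real.pi * φ|) (𝓝 x) (𝓝 |L₀.im - 2 * Real.pi * φ|) :=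
        ((continuous_im.tendsto L₀).comp hℓt |>.sub_const _).abs
      rw [hL₀im, sub_self, abs_zero] at h2
      exact h2.eventually (gt_mem_nhds hδ0)
    have hre : ∀ᶠ y in 𝓝 x, 81 * n * (ℓ y).re < δ ^ 2 := by
      have h2 : Tendsto (fun y => 81 * n * (ℓ y).re) (𝓝 x) (𝓝 (81 * n * L₀.re)) :=
        (((continuous_re.tendsto L₀).comp hℓt).const_mul _)
      rw [hL₀re, mul_zero] at h2
      exact h2.eventually (gt_mem_nhds (by positivity))
    filter_upwards [hℓe, hlog, him, hre] with y h2 h3 h4 h5 θ w hw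
    obtain ⟨-, L, hL, hply⟩ := extP_ply hn hw (G_le_four_of_mul_lt hn hw.2.2.1 h3)
    set ν := Circ.nu w n θ with hν
    have h6 : exp L = exp (ℓ y) := by rw [hL, h2]; rfl
    rw [Complex.exp_eq_exp_iff_exists_int] at h6
    obtain ⟨m, hm'⟩ := h6
    have h7 : L.re = (ℓ y).re := by rw [hm']; simp
    have h8 : L.im = (ℓ y).im + 2 * Real.pi * m := by rw [hm']; simp; ring
    have h9 : |L.im - 2 * Real.pi * ν| < δ := by
      have h10 := abs_im_le_norm (L - 2 * Real.pi * (ν : ℂ) * I)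
      have h11 : (L - 2 * Real.pi * (ν : ℂ) * I).im = L.im - 2 * Real.pi * ν := by simp
      rw [h11] at h10
      refine h10.trans_lt ?_
      refine lt_of_pow_lt_pow_left₀ 2 hδ0.le (hply.trans_lt ?_)
      rw [h7]; exact h5
    have h12 : |2 * Real.pi * (ν - m - φ)| < 2 * δ := by
      have h13 : 2 * Real.pi * (ν - m - φ) =
          ((ℓ y).im - 2 * Real.pi * φ) - (L.im - 2 * Real.pi * ν) := by rw [h8]; ring
      rw [h13]
      exact (abs_sub _ _).trans_lt (by linarith)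
    have h14 : |ν - m - φ| < δ := by
      rw [abs_mul, abs_of_pos (by positivity)] at h12
      have := Real.pi_gt_three
      nlinarith [abs_nonneg (ν - m - φ)]
    have h15 := abs_lt.1 h14
    have h16 : Int.fract ν = ν - m := by
      rw [Int.fract_eq_iff]
      refine ⟨by linarith, by linarith, m, by ring⟩
    rw [h16]
    exact h14.trans_le hδ1
  · -- exterior parameters
    intro hcon
    have hMM : ∀ᶠ c in 𝓝 x.1, c ∈ MM := by
      filter_upwards [hcon] with c hc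
      exact not_not.1 hc
    have h2 : ∀ᶠ L in 𝓝 L₀, L ∈ D ∧ (σ L).1 ∈ MM := by
      have h3 : Tendsto (fun L => (σ L).1) (𝓝 L₀) (𝓝 x.1) := by
        have := (continuous_fst.tendsto _).comp hσc.tendsto
        rwa [hσ0] at this
      filter_upwards [hD, h3.eventually hMM] with L h4 h5
      exact ⟨h4, h5⟩
    obtain ⟨r, hr, hball⟩ := Metric.eventually_nhds_iff_ball.1 h2
    set S' : Set ℂ := ball L₀ r ∩ {L : ℂ | 0 < L.re} with hS'
    have hS'c : Convex ℝ S' := (convex_ball _ _).inter (convex_halfSpace_re_gt 0)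
    have hrot := Tr.rotData hn
    have hex : ∀ L : S', ∃ q : ℚ, Tr.RotT n (σ L).1 (σ L).2 L q := fun L =>
      hrot.ex _ _ _ (hσ' L (hball L L.2.1).1).1 (hσ' L (hball L L.2.1).1).2 L.2.2
        (hball L L.2.1).2
    choose g hg using hex
    have : PreconnectedSpace S' := isPreconnected_iff_preconnectedSpace.1 hS'c.isPreconnected
    have hlc : IsLocallyConstant g := by
      rw [IsLocallyConstant.iff_eventually_eq]
      intro L
      have h3 : ContinuousAt σ L := hσ.continuousAt (hG.isOpen.mem_nhds (hball L L.2.1).1)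
      have h4 : Tendsto (fun L' : ℂ => ((σ L').1, (σ L').2, L')) (𝓝 (L : ℂ))
          (𝓝 ((σ L).1, (σ L).2, (L : ℂ))) := by
        have h5 : ContinuousAt (fun L' : ℂ => ((σ L').1, (σ L').2, L')) (L : ℂ) := by
          exact (h3.fst).prodMk ((h3.snd).prodMk continuousAt_id)
        exact h5.tendsto
      have h5 := h4.eventually (hrot.opn _ _ _ _ (hg L))
      have h6 := continuous_subtype_val.continuousAt.eventually h5
      filter_upwards [h6] with L' h7
      exact hrot.uniq _ _ _ _ _ (hg L') (h7 (hball L' L'.2.1).2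
        (hσ' L' (hball L' L'.2.1).1).1 (hσ' L' (hball L' L'.2.1).1).2)
    have hlim : ∀ L ∈ ball L₀ r, L.re = 0 → ∀ q : ℚ, (∀ L' : S', g L' = q) → L = axisPt q := by
      intro L hL hre q hq
      have h3 : ∀ᶠ t : ℝ in 𝓝[>] 0, L + t ∈ S' := by
        have h4 : Tendsto (fun t : ℝ => L + t) (𝓝[>] 0) (𝓝 L) := by
          have : ContinuousAt (fun t : ℝ => L + t) 0 := by fun_prop
          have h3 := this.tendsto
          simp only [ofReal_zero, add_zero] at h3
          exact h3.mono_left nhdsWithin_le_nhds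
        filter_upwards [h4.eventually (isOpen_ball.mem_nhds hL), self_mem_nhdsWithin] with t h5 h6
        exact ⟨h5, by simpa [hre] using h6⟩
      have h4 : Tendsto (fun t : ℝ => ‖L + t - axisPt q‖ ^ 2 -
          2 * n * Real.log 2 / q.den * (L + t).re) (𝓝[>] 0)
          (𝓝 (‖L + (0 : ℝ) - axisPt q‖ ^ 2 - 2 * n * Real.log 2 / q.den * (L + (0 : ℝ)).re)) := by
        have : ContinuousAt (fun t : ℝ => ‖L + t - axisPt q‖ ^ 2 -
          2 * n * Real.log 2 / q.den * (L + t).re) 0 := by fun_prop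
        exact this.tendsto.mono_left nhdsWithin_le_nhds
      have h5 := le_of_tendsto h4 (b := 0) (by
        filter_upwards [h3] with t ht
        have h6 := hrot.ply _ _ _ _ (hg ⟨L + t, ht⟩)
        rw [hq] at h6
        simp only at h6
        linarith)
      simp only [ofReal_zero, add_zero, hre, mul_zero, sub_zero] at h5
      have h6 : ‖L - axisPt q‖ = 0 := by
        have := sq_nonneg ‖L - axisPt q‖
        exact pow_eq_zero_iff (n := 2) (by norm_num) |>.1 (le_antisymm h5 this)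
      exact sub_eq_zero.1 (norm_eq_zero.1 h6)
    have hne : ∃ L, L ∈ S' := ⟨L₀ + ((r / 2 : ℝ) : ℂ), by
      constructor
      · rw [mem_ball, dist_eq, add_sub_cancel_left, norm_real, Real.norm_eq_abs,
          abs_of_pos (by positivity)]
        linarith
      · simp [hL₀re, hr]⟩
    obtain ⟨L₁, hL₁⟩ := hne
    have hq : ∀ L' : S', g L' = g ⟨L₁, hL₁⟩ := fun L' => hlc.apply_eq_of_preconnectedSpace _ _
    have h3 := hlim L₀ (mem_ball_self hr) hL₀re _ hq
    have h4 := hlim (L₀ + ((r / 2 : ℝ) : ℂ) * I) (by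
      rw [mem_ball, dist_eq, add_sub_cancel_left, norm_mul, norm_I, mul_one, norm_real,
        Real.norm_eq_abs, abs_of_pos (by positivity)]
      linarith) (by simp [hL₀re]) _ hq
    rw [← h3] at h4
    have h5 : ((r / 2 : ℝ) : ℂ) * I = 0 := by
      have := add_eq_left.1 h4
      exact this
    have h6 : (r / 2 : ℝ) = 0 := by
      have := mul_eq_zero.1 h5
      rcases this with h | h
      · exact_mod_cast h
      · exact absurd h I_ne_zero
    linarith

end Sat

end Pool.Agent.Work.MLC
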