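import Pool.Agent.Work.MLC.Sat0
import Pool.Agent.Work.MLC.SatInj51

set_option autoImplicit false

/-! # S4: uniqueness of the pair with a given label; the root (helper57) -/

namespace Pool.Agent.Work.MLC

open Filter Topology Metric Set Complex

namespace Sat

/-- every label occurs over the right half of a good disc -/
theorem hall57 {n : ℕ} (hn : 0 < n) {x : ℚ} (h0 : 0 < x) (h1 : x < 1) (j : Lab n) :
    ∃ z ∈ Per n, ∃ L ∈ ball (axisPt x) (gR n x) ∩ {L : ℂ | 0 < L.re},
      mul n z = exp L ∧ FF n z = j := by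
  have hx0 : (0 : ℝ) < x := by exact_mod_cast h0
  have hx1 : (x : ℝ) < 1 := by exact_mod_cast h1
  have hn' : (0 : ℝ) < n := by exact_mod_cast hn
  have hm : 0 < min (x : ℝ) (1 - x) := lt_min hx0 (by linarith)
  have hR : 0 < gR n x := by unfold gR; positivity
  obtain ⟨c, b, θ, w, L, hE, hj, hL, hre, hmem⟩ := occur_ball hn hx0 hx1 hR j
  have hax : (2 * Real.pi * ((x : ℝ) : ℂ) * I : ℂ) = axisPt x := by
    unfold axisPt
    push_cast
    ring
  rw [hax] at hmem
  exact ⟨(c, b), hE.2.2.1, L, ⟨hmem, hre⟩, hL.symm, (FF_ext (x := (c, b)) hE).trans hj⟩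

theorem s4_unique : S4_unique := by
  classical
  intro n x L y y' hn h0 h1 hL hre hy hy' hm hm' hF
  have : NeZero n := ⟨hn.ne'⟩
  have hB := goodB_ball hn h0 h1
  set B := ball (axisPt x) (1 / 4 * (min (x : ℝ) (1 - x)) ^ 2 / n) ∩ {L : ℂ | 0 < L.re} with hBdef
  have hLB : L ∈ B := ⟨hL, hre⟩
  have hexp : ∀ L ∈ B, 1 < ‖exp L‖ := by
    intro L hL
    rw [Complex.norm_exp]
    exact Real.one_lt_exp_iff.2 (hB.pos L hL)
  have hne1 : ∀ L ∈ B, exp L ≠ 1 := by
    intro L hL h1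
    have := hexp L hL
    rw [h1, norm_one] at this
    exact lt_irrefl _ this
  have hFF : ∀ x ∈ Per n, ∀ L ∈ B, mul n x = Complex.exp L →
      ∀ᶠ x' in 𝓝 x, x' ∈ Per n → FF n x' = FF n x := by
    intro x hx L hL hm
    exact FF_nhds hn hx (by rw [hm]; exact hexp L hL) (by rw [hm]; exact hB.lt L hL)
      (hB.noInt' hL hm)
  have h3 : ∀ j : Lab n, ∃ x ∈ Per n, mul n x = Complex.exp L ∧ FF n x = j := by
    intro j
    obtain ⟨x₀, hx₀, L₀, hL₀, hm₀, hj⟩ := hall57 hn h0 h1 j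
    exact labels_fill hn hB.isOpen hB.conn hne1 hB.lt (FF n) hFF hx₀ hL₀ hm₀ hj L hLB
  choose g hg1 hg2 hg3 using h3
  have hginj : Function.Injective g := fun i j hij => by rw [← hg3 i, ← hg3 j, hij]
  set S : Finset (ℂ × ℂ) := Finset.univ.image g with hS
  have hScard : S.card = n * 2 ^ (n - 1) := by
    rw [hS, Finset.card_image_of_injective _ hginj, Finset.card_univ, card_Lab]
  have hSmem : ∀ z ∈ S, z ∈ Per n ∧ mul n z = Complex.exp L := by
    intro z hz
    obtain ⟨j, -, rfl⟩ := Finset.mem_image.1 hz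
    exact ⟨hg1 j, hg2 j⟩
  have hin : ∀ z, z ∈ Per n → mul n z = exp L → z ∈ S := by
    intro z hz hzm
    by_contra hcon
    have h4 := Cnt.card_le hn (hne1 L hLB) (insert z S) (by
      intro z' hz'
      rcases Finset.mem_insert.1 hz' with rfl | hz'
      · exact ⟨hz, hzm⟩
      · exact hSmem z' hz')
    rw [Finset.card_insert_of_notMem hcon, hScard] at h4
    omega
  obtain ⟨j, -, rfl⟩ := Finset.mem_image.1 (hin y hy hm)
  obtain ⟨j', -, rfl⟩ := Finset.mem_image.1 (hin y' hy' hm')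
  rw [hg3, hg3] at hF
  rw [hF]

end Sat

end Pool.Agent.Work.MLC
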