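import Pool.Agent.Work.MLC.Curve57

set_option autoImplicit false

/-! # Counting the pairs (parameter, periodic point) with a given multiplier  (helper59)

`branch`: local holomorphic continuation of a point of `f_c^n(z) = z` of multiplier `≠ 1`.
`card_le`: there are at most `n * 2 ^ (n-1)` pairs `(c, b)` with `f_c^n(b) = b` and multiplier `lam ≠ 1`,
and if there are that many then the multiplier has nonzero derivative at each of them. -/

namespace Pool.Agent.Work.MLC.Cnt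

open Filter Topology Metric Set Polynomial

/-! ### holomorphic continuation of periodic points -/

/-- `β` is the germ of the continuation of the point `b` of `f_{c₀}^n(z) = z` -/
structure IsBranch (n : ℕ) (c₀ b : ℂ) (β : ℂ → ℂ) : Prop where
  an : AnalyticAt ℂ β c₀
  val : β c₀ = b
  eqn : ∀ᶠ c in 𝓝 c₀, it c n (β c) = β c
  uniq : ∀ᶠ p : ℂ × ℂ in 𝓝 (c₀, b), it p.1 n p.2 = p.2 → p.2 = β p.1

theorem exists_branch {n : ℕ} {c₀ b : ℂ} (h : it c₀ n b = b) (hm : mul n (c₀, b) ≠ 1) :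
    ∃ β : ℂ → ℂ, IsBranch n c₀ b β := by
  obtain ⟨β, h1, h2, h3⟩ := chart (x₀ := (c₀, b)) h hm
  refine ⟨β, h1, h2, ?_, ?_⟩
  · have h4 := chart_tendsto (x₀ := (c₀, b)) h1 h2
    filter_upwards [h4.eventually h3] with c hc
    exact hc.mpr rfl
  · filter_upwards [h3] with p hp hp2
    exact (hp.mp hp2).symm

/-! ### the polynomials -/

/-- the `n`-th iterate as a polynomial in `z` over `ℂ[c]` -/
noncomputable def Fp : ℕ → Polynomial (Polynomial ℂ)
  | 0 => X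
  | n + 1 => Fp n ^ 2 + C X

lemma Fp_monic_natDegree (n : ℕ) : (Fp n).Monic ∧ (Fp n).natDegree = 2 ^ n := by
  induction n with
  | zero => exact ⟨monic_X, by simp [Fp]⟩
  | succ n ih =>
    have h1 : (Fp n ^ 2).Monic := ih.1.pow 2
    have h2 : (Fp n ^ 2).natDegree = 2 ^ (n + 1) := by
      rw [ih.1.natDegree_pow, ih.2]; ring
    have h3 : (C X : Polynomial (Polynomial ℂ)).degree < (Fp n ^ 2).degree := by
      rw [degree_eq_natDegree h1.ne_zero, h2]
      refine lt_of_le_of_lt degree_C_le ?_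
      exact_mod_cast pow_pos (by norm_num : 0 < 2) (n + 1)
    refine ⟨h1.add_of_left h3, ?_⟩
    rw [Fp, natDegree_add_eq_left_of_degree_lt h3, h2]

/-- the polynomial `f_c^n(z)` -/
noncomputable def pc (c : ℂ) (n : ℕ) : ℂ[X] := (Fp n).map (evalRingHom c)

lemma eval_pc (c : ℂ) (n : ℕ) (z : ℂ) : (pc c n).eval z = it c n z := by
  induction n with
  | zero => simp [pc, Fp]
  | succ n ih =>
    rw [it_succ, f_apply, ← ih]
    simp [pc, Fp]

lemma eval_derivative_pc (c : ℂ) (n : ℕ) (z : ℂ) : (derivative (pc c n)).eval z = mul n (c, z) := by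
  rw [← Polynomial.deriv, ← (hasDerivAt_it c n z).deriv]
  congr 1
  funext x
  exact eval_pc c n x

lemma pc_monic (c : ℂ) (n : ℕ) : (pc c n).Monic := (Fp_monic_natDegree n).1.map _

lemma pc_natDegree (c : ℂ) (n : ℕ) : (pc c n).natDegree = 2 ^ n := by
  rw [pc, (Fp_monic_natDegree n).1.natDegree_map, (Fp_monic_natDegree n).2]

/-- the polynomial `f_c^n(z) - z` -/
noncomputable def fx (c : ℂ) (n : ℕ) : ℂ[X] := pc c n - X

lemma eval_fx (c : ℂ) (n : ℕ) (z : ℂ) : (fx c n).eval z = it c n z - z := by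
  simp [fx, eval_pc]

lemma degree_X_lt {n : ℕ} (hn : 0 < n) (c : ℂ) : (X : ℂ[X]).degree < (pc c n).degree := by
  rw [degree_eq_natDegree (pc_monic c n).ne_zero, pc_natDegree, degree_X]
  exact_mod_cast Nat.one_lt_two_pow (by omega)

lemma fx_monic {n : ℕ} (hn : 0 < n) (c : ℂ) : (fx c n).Monic :=
  (pc_monic c n).sub_of_left (degree_X_lt hn c)

lemma fx_natDegree {n : ℕ} (hn : 0 < n) (c : ℂ) : (fx c n).natDegree = 2 ^ n := by
  rw [fx, natDegree_sub_eq_left_of_natDegree_lt, pc_natDegree]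
  rw [pc_natDegree, natDegree_X]
  exact Nat.one_lt_two_pow (by omega)

lemma mem_roots_fx {n : ℕ} (hn : 0 < n) {c z : ℂ} : z ∈ (fx c n).roots ↔ it c n z = z := by
  rw [mem_roots (fx_monic hn c).ne_zero, IsRoot, eval_fx, sub_eq_zero]

lemma card_roots_fx {n : ℕ} (hn : 0 < n) (c : ℂ) : (fx c n).roots.card = 2 ^ n := by
  rw [← fx_natDegree hn c]
  exact (IsAlgClosed.splits _).natDegree_eq_card_roots.symm

/-- the polynomial in `c` -/
noncomputable def Rp (n : ℕ) (lam : ℂ) : ℂ[X] :=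
  resultant (Fp n - X) (C (C lam) - derivative (Fp n)) (2 ^ n) (2 ^ n)

theorem eval_Rp {n : ℕ} (hn : 0 < n) (lam c : ℂ) :
    (Rp n lam).eval c = ((fx c n).roots.map fun b => lam - mul n (c, b)).prod := by
  have h1 : (Rp n lam).eval c = evalRingHom c (Rp n lam) := rfl
  rw [h1, Rp, ← resultant_map_map]
  have h2 : (Fp n - X).map (evalRingHom c) = fx c n := by simp [fx, pc]
  have h3 : (C (C lam) - derivative (Fp n)).map (evalRingHom c) = C lam - derivative (pc c n) := by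
    simp [pc, derivative_map]
  rw [h2, h3]
  have h4 := resultant_eq_prod_eval (fx c n) (C lam - derivative (pc c n)) (2 ^ n) ?_
    (IsAlgClosed.splits _)
  · rw [fx_natDegree hn] at h4
    rw [h4, (fx_monic hn c).leadingCoeff, one_pow, one_mul]
    congr 1
    apply Multiset.map_congr rfl
    intro b _
    simp [eval_derivative_pc]
  · refine (natDegree_sub_le _ _).trans ?_
    rw [natDegree_C, Nat.zero_max]
    refine (natDegree_derivative_le _).trans ?_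
    rw [pc_natDegree]; exact Nat.sub_le _ _

/-! ### size of periodic points -/

lemma it_periodic {c z : ℂ} {n : ℕ} (h : it c n z = z) (i : ℕ) : it c (i + n) z = it c i z := by
  rw [it_add, h]

/-- orbit points of a periodic point are at most `1 + √‖c‖` -/
theorem norm_le_of_periodic {c z : ℂ} {n : ℕ} (hn : 0 < n) (h : it c n z = z) (i : ℕ) :
    ‖it c i z‖ ≤ 1 + Real.sqrt ‖c‖ := by
  -- maximum over one period
  obtain ⟨m, -, hm⟩ := Finset.exists_max_image (Finset.range n) (fun i => ‖it c i z‖)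
    ⟨0, Finset.mem_range.mpr hn⟩
  have hmax : ∀ i, ‖it c i z‖ ≤ ‖it c m z‖ := by
    intro i
    have : it c i z = it c (i % n) z := by
      conv_lhs => rw [← Nat.mod_add_div i n]
      generalize i / n = k
      induction k with
      | zero => simp
      | succ k ih =>
        rw [Nat.mul_succ, ← add_assoc, it_periodic h, ih]
    rw [this]
    exact hm _ (Finset.mem_range.mpr (Nat.mod_lt _ hn))
  refine (hmax i).trans ?_
  set M := ‖it c m z‖ with hM
  have h1 : M ^ 2 ≤ M + ‖c‖ := by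
    have h2 : it c (m + 1) z = (it c m z) ^ 2 + c := by rw [it_succ]; rfl
    have h3 := hmax (m + 1)
    rw [h2] at h3
    have h4 : ‖(it c m z) ^ 2‖ ≤ ‖(it c m z) ^ 2 + c‖ + ‖c‖ := by
      have := norm_sub_le ((it c m z) ^ 2 + c) c
      simpa using this
    rw [norm_pow, ← hM] at h4
    linarith
  have hs : 0 ≤ Real.sqrt ‖c‖ := Real.sqrt_nonneg _
  have hs2 : Real.sqrt ‖c‖ ^ 2 = ‖c‖ := Real.sq_sqrt (norm_nonneg c)
  nlinarith [norm_nonneg (it c m z)]

theorem le_norm_of_periodic {c z : ℂ} {n : ℕ} (hn : 0 < n) (h : it c n z = z) (hc : 16 ≤ ‖c‖)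
    (i : ℕ) : Real.sqrt (‖c‖ / 2) ≤ ‖it c i z‖ := by
  have h1 := norm_le_of_periodic hn h (i + 1)
  have h2 : it c (i + 1) z = (it c i z) ^ 2 + c := by rw [it_succ]; rfl
  rw [h2] at h1
  have h3 : ‖c‖ ≤ ‖(it c i z) ^ 2 + c‖ + ‖(it c i z) ^ 2‖ := by
    have := norm_sub_le ((it c i z) ^ 2 + c) ((it c i z) ^ 2)
    simpa using this
  rw [norm_pow] at h3
  have hs : 0 ≤ Real.sqrt ‖c‖ := Real.sqrt_nonneg _
  have hs2 : Real.sqrt ‖c‖ ^ 2 = ‖c‖ := Real.sq_sqrt (norm_nonneg c)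
  have hs4 : 4 ≤ Real.sqrt ‖c‖ := by
    rw [show (4 : ℝ) = Real.sqrt 16 by rw [show (16 : ℝ) = 4 ^ 2 by norm_num]; simp]
    exact Real.sqrt_le_sqrt hc
  have h5 : ‖c‖ / 2 ≤ ‖it c i z‖ ^ 2 := by nlinarith
  exact Real.sqrt_le_iff.mpr ⟨norm_nonneg _, h5⟩

theorem norm_mul_le {c z : ℂ} {n : ℕ} (hn : 0 < n) (h : it c n z = z) :
    ‖mul n (c, z)‖ ≤ (2 * (1 + Real.sqrt ‖c‖)) ^ n := by
  rw [mul, norm_prod]
  calc ∏ i ∈ Finset.range n, ‖2 * it c i z‖
      ≤ ∏ _i ∈ Finset.range n, (2 * (1 + Real.sqrt ‖c‖)) := by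
        apply Finset.prod_le_prod (fun _ _ => norm_nonneg _)
        intro i _
        rw [norm_mul]
        have := norm_le_of_periodic hn h i
        simp only [RCLike.norm_ofNat]
        linarith
    _ = _ := by simp

theorem le_norm_mul {c z : ℂ} {n : ℕ} (hn : 0 < n) (h : it c n z = z) (hc : 16 ≤ ‖c‖) :
    (2 * Real.sqrt (‖c‖ / 2)) ^ n ≤ ‖mul n (c, z)‖ := by
  rw [mul, norm_prod]
  calc (2 * Real.sqrt (‖c‖ / 2)) ^ n = ∏ _i ∈ Finset.range n, (2 * Real.sqrt (‖c‖ / 2)) := by simp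
    _ ≤ ∏ i ∈ Finset.range n, ‖2 * it c i z‖ := by
        apply Finset.prod_le_prod (fun _ _ => by positivity)
        intro i _
        rw [norm_mul]
        have := le_norm_of_periodic hn h hc i
        simp only [RCLike.norm_ofNat]
        linarith

/-! ### the degree of `Rp` -/

lemma norm_prod_map_le {R : Multiset ℂ} {g : ℂ → ℂ} {B : ℝ} (hB : 0 ≤ B)
    (h : ∀ b ∈ R, ‖g b‖ ≤ B) : ‖(R.map g).prod‖ ≤ B ^ Multiset.card R := by
  induction R using Multiset.induction with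
  | empty => simp
  | cons a R ih =>
    rw [Multiset.map_cons, Multiset.prod_cons, Multiset.card_cons, norm_mul, pow_succ, mul_comm]
    exact mul_le_mul (ih fun b hb => h b (Multiset.mem_cons_of_mem hb))
      (h a (Multiset.mem_cons_self a R)) (norm_nonneg _) (by positivity)

lemma natDegree_le_of_growth {Q : ℂ[X]} {K : ℝ} {N k₀ : ℕ}
    (h : ∀ k : ℕ, k₀ ≤ k → ‖Q.eval ((k : ℂ) ^ 2)‖ ≤ K * ((k : ℝ) ^ 2) ^ N) : Q.natDegree ≤ N := by
  by_contra hd
  push Not at hd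
  have hQ : Q ≠ 0 := by rintro rfl; simp at hd
  have h1 : Tendsto (fun k : ℕ => ((k : ℂ) ^ 2)⁻¹) atTop (𝓝 0) := by
    have h2 : Tendsto (fun k : ℕ => ((k : ℂ))⁻¹) atTop (𝓝 0) := tendsto_inv_atTop_nhds_zero_nat
    have h3 := h2.pow 2
    simpa [inv_pow] using h3
  have h2 : Tendsto (fun k : ℕ => Q.reverse.eval (((k : ℂ) ^ 2)⁻¹)) atTop
      (𝓝 (Q.reverse.eval 0)) :=
    (Q.reverse.continuous.tendsto 0).comp h1
  have h3 : Q.reverse.eval 0 = Q.leadingCoeff := by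
    rw [← coeff_zero_eq_eval_zero, coeff_zero_reverse]
  have h4 : Tendsto (fun k : ℕ => ‖Q.reverse.eval (((k : ℂ) ^ 2)⁻¹)‖) atTop
      (𝓝 ‖Q.leadingCoeff‖) := by
    rw [← h3]; exact h2.norm
  have h5 : Tendsto (fun k : ℕ => K * ((k : ℝ))⁻¹) atTop (𝓝 0) := by
    have := (tendsto_inv_atTop_nhds_zero_nat (𝕜 := ℝ)).const_mul K
    simpa using this
  have h6 : ‖Q.leadingCoeff‖ ≤ 0 := by
    refine le_of_tendsto_of_tendsto h4 h5 ?_
    filter_upwards [eventually_ge_atTop k₀, eventually_ge_atTop 1] with k hk hk1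
    have hk0 : (k : ℂ) ≠ 0 := by exact_mod_cast (by omega : k ≠ 0)
    have hkr : (1 : ℝ) ≤ k := by exact_mod_cast hk1
    have h7 : Q.reverse.eval (((k : ℂ) ^ 2)⁻¹) * ((k : ℂ) ^ 2) ^ Q.natDegree =
        Q.eval ((k : ℂ) ^ 2) := by
      have : Invertible ((k : ℂ) ^ 2) := invertibleOfNonzero (pow_ne_zero _ hk0)
      have := eval₂_reverse_mul_pow (RingHom.id ℂ) ((k : ℂ) ^ 2) Q
      simpa [eval₂_id, invOf_eq_inv] using this
    have h8 := h k hk
    rw [← h7, norm_mul, norm_pow, norm_pow, Complex.norm_natCast] at h8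
    have h9 : 0 < ((k : ℝ) ^ 2) ^ N := by positivity
    have h10 : ((k : ℝ) ^ 2) ^ Q.natDegree = ((k : ℝ) ^ 2) ^ N * ((k : ℝ) ^ 2) ^ (Q.natDegree - N) := by
      rw [← pow_add]; congr 1; omega
    have h11 : (k : ℝ) ≤ ((k : ℝ) ^ 2) ^ (Q.natDegree - N) := by
      calc (k : ℝ) ≤ (k : ℝ) ^ 2 := by nlinarith
        _ = ((k : ℝ) ^ 2) ^ 1 := by rw [pow_one]
        _ ≤ ((k : ℝ) ^ 2) ^ (Q.natDegree - N) :=
          pow_le_pow_right₀ (by nlinarith) (by omega)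
    rw [h10] at h8
    have h12 : ‖Q.reverse.eval (((k : ℂ) ^ 2)⁻¹)‖ * ((k : ℝ) ^ 2) ^ (Q.natDegree - N) ≤ K := by
      have h13 : ‖Q.reverse.eval (((k : ℂ) ^ 2)⁻¹)‖ * ((k : ℝ) ^ 2) ^ (Q.natDegree - N) *
          ((k : ℝ) ^ 2) ^ N ≤ K * ((k : ℝ) ^ 2) ^ N := by
        calc _ = ‖Q.reverse.eval (((k : ℂ) ^ 2)⁻¹)‖ *
              (((k : ℝ) ^ 2) ^ N * ((k : ℝ) ^ 2) ^ (Q.natDegree - N)) := by ring
          _ ≤ _ := h8
      exact le_of_mul_le_mul_right h13 h9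
    have h14 : ‖Q.reverse.eval (((k : ℂ) ^ 2)⁻¹)‖ * k ≤ K :=
      (mul_le_mul_of_nonneg_left h11 (norm_nonneg _)).trans h12
    rw [← div_eq_mul_inv, le_div_iff₀ (by linarith)]
    exact h14
  have h7 : Q.leadingCoeff = 0 := norm_le_zero_iff.mp h6
  exact hQ (leadingCoeff_eq_zero.mp h7)

lemma sqrt_norm_sq (k : ℕ) : Real.sqrt ‖((k : ℂ) ^ 2)‖ = k := by
  rw [norm_pow, Complex.norm_natCast, Real.sqrt_sq (Nat.cast_nonneg k)]

theorem natDegree_Rp_le {n : ℕ} (hn : 0 < n) (lam : ℂ) : (Rp n lam).natDegree ≤ n * 2 ^ (n - 1) := by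
  apply natDegree_le_of_growth (K := ((‖lam‖ + 1) * 4 ^ n) ^ 2 ^ n) (k₀ := 1)
  intro k hk
  have hkr : (1 : ℝ) ≤ k := by exact_mod_cast hk
  rw [eval_Rp hn]
  have h1 : ‖(((fx ((k : ℂ) ^ 2) n).roots.map fun b => lam - mul n (((k : ℂ) ^ 2), b))).prod‖ ≤
      ((‖lam‖ + 1) * 4 ^ n * (k : ℝ) ^ n) ^ Multiset.card (fx ((k : ℂ) ^ 2) n).roots := by
    apply norm_prod_map_le (by positivity)
    intro b hb
    have h2 := norm_mul_le hn ((mem_roots_fx hn).mp hb)
    rw [sqrt_norm_sq] at h2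
    have h3 : (2 * (1 + (k : ℝ))) ^ n ≤ (4 * (k : ℝ)) ^ n := by
      apply pow_le_pow_left₀ (by positivity); linarith
    have h4 : (1 : ℝ) ≤ (4 * (k : ℝ)) ^ n := one_le_pow₀ (by linarith)
    calc ‖lam - mul n (((k : ℂ) ^ 2), b)‖ ≤ ‖lam‖ + ‖mul n (((k : ℂ) ^ 2), b)‖ := norm_sub_le _ _
      _ ≤ ‖lam‖ * (4 * (k : ℝ)) ^ n + (4 * (k : ℝ)) ^ n := by
        have := mul_le_mul_of_nonneg_left h4 (norm_nonneg lam)
        linarith
      _ = (‖lam‖ + 1) * 4 ^ n * (k : ℝ) ^ n := by rw [mul_pow]; ring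
  rw [card_roots_fx hn] at h1
  refine h1.trans (le_of_eq ?_)
  have h5 : n * 2 ^ n = 2 * (n * 2 ^ (n - 1)) := by
    obtain ⟨m, rfl⟩ : ∃ m, n = m + 1 := ⟨n - 1, by omega⟩
    simp only [Nat.add_sub_cancel]; ring
  rw [mul_pow, ← pow_mul, ← pow_mul, h5]

theorem Rp_ne_zero {n : ℕ} (hn : 0 < n) (lam : ℂ) : Rp n lam ≠ 0 := by
  obtain ⟨k, hk⟩ := exists_nat_gt (max ‖lam‖ 4)
  have hk1 : ‖lam‖ < k := lt_of_le_of_lt (le_max_left _ _) hk
  have hk2 : (4 : ℝ) < k := lt_of_le_of_lt (le_max_right _ _) hk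
  intro h0
  have h1 : (Rp n lam).eval ((k : ℂ) ^ 2) = 0 := by rw [h0]; simp
  rw [eval_Rp hn, Multiset.prod_eq_zero_iff] at h1
  obtain ⟨b, hb, hb0⟩ := Multiset.mem_map.mp h1
  have hc : 16 ≤ ‖((k : ℂ) ^ 2)‖ := by
    rw [norm_pow, Complex.norm_natCast]; nlinarith
  have h2 := le_norm_mul hn ((mem_roots_fx hn).mp hb) hc
  have h3 : mul n (((k : ℂ) ^ 2), b) = lam := (sub_eq_zero.mp hb0).symm
  rw [h3] at h2
  have h4 : (k : ℝ) ≤ 2 * Real.sqrt (‖((k : ℂ) ^ 2)‖ / 2) := by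
    rw [norm_pow, Complex.norm_natCast]
    have : (k : ℝ) / 2 ≤ Real.sqrt ((k : ℝ) ^ 2 / 2) := by
      apply Real.le_sqrt_of_sq_le
      nlinarith
    linarith
  have h5 : (k : ℝ) ≤ (2 * Real.sqrt (‖((k : ℂ) ^ 2)‖ / 2)) ^ n := by
    calc (k : ℝ) ≤ (k : ℝ) ^ n := by
          calc (k : ℝ) = (k : ℝ) ^ 1 := (pow_one _).symm
            _ ≤ (k : ℝ) ^ n := pow_le_pow_right₀ (by linarith) hn
      _ ≤ _ := pow_le_pow_left₀ (by linarith) h4 n
  linarith

/-! ### multiplicities -/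

lemma le_rootMultiplicity {Q : ℂ[X]} (hQ : Q ≠ 0) {c₀ : ℂ} {K : ℝ} {m : ℕ}
    (h : ∀ᶠ c in 𝓝 c₀, ‖Q.eval c‖ ≤ K * ‖c - c₀‖ ^ m) : m ≤ Q.rootMultiplicity c₀ := by
  by_contra hm
  push Not at hm
  obtain ⟨q, hq, hq2⟩ := Q.exists_eq_pow_rootMultiplicity_mul_and_not_dvd hQ c₀
  set μ := Q.rootMultiplicity c₀ with hμ
  have hq0 : q.eval c₀ ≠ 0 := fun h => hq2 (dvd_iff_isRoot.mpr h)
  have h1 : ∀ᶠ c in 𝓝[≠] c₀, ‖q.eval c‖ ≤ K * ‖c - c₀‖ ^ (m - μ) := by
    filter_upwards [h.filter_mono nhdsWithin_le_nhds, self_mem_nhdsWithin] with c hc hne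
    have hpos : 0 < ‖c - c₀‖ := norm_pos_iff.mpr (sub_ne_zero.mpr hne)
    rw [hq] at hc
    simp only [eval_mul, eval_pow, eval_sub, eval_X, eval_C, norm_mul, norm_pow] at hc
    have h2 : ‖c - c₀‖ ^ m = ‖c - c₀‖ ^ μ * ‖c - c₀‖ ^ (m - μ) := by
      rw [← pow_add]; congr 1; omega
    rw [h2] at hc
    have h3 : ‖c - c₀‖ ^ μ * ‖q.eval c‖ ≤ ‖c - c₀‖ ^ μ * (K * ‖c - c₀‖ ^ (m - μ)) := by
      calc _ ≤ _ := hc
        _ = _ := by ring
    exact le_of_mul_le_mul_left h3 (by positivity)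
  have h2 : Tendsto (fun c => ‖q.eval c‖) (𝓝[≠] c₀) (𝓝 ‖q.eval c₀‖) :=
    (q.continuous.norm.tendsto c₀).mono_left nhdsWithin_le_nhds
  have h3 : Tendsto (fun c => K * ‖c - c₀‖ ^ (m - μ)) (𝓝[≠] c₀) (𝓝 0) := by
    have h4 : Continuous fun c : ℂ => K * ‖c - c₀‖ ^ (m - μ) := by fun_prop
    have h5 := (h4.tendsto c₀).mono_left (nhdsWithin_le_nhds (s := {c₀}ᶜ))
    have h6 : K * ‖c₀ - c₀‖ ^ (m - μ) = 0 := by
      rw [sub_self, norm_zero, zero_pow (by omega), mul_zero]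
    rw [h6] at h5
    exact h5
  have h4 := le_of_tendsto_of_tendsto h2 h3 h1
  exact hq0 (norm_le_zero_iff.mp h4)

theorem rootMult_ge {n : ℕ} (hn : 0 < n) {lam c₀ : ℂ} (T : Finset ℂ) (m : ℂ → ℕ) (β : ℂ → ℂ → ℂ)
    (K : ℂ → ℝ) (hβ : ∀ b ∈ T, IsBranch n c₀ b (β b))
    (hK : ∀ b ∈ T, ∀ᶠ c in 𝓝 c₀, ‖lam - mul n (c, β b c)‖ ≤ K b * ‖c - c₀‖ ^ (m b)) :
    ∑ b ∈ T, m b ≤ (Rp n lam).rootMultiplicity c₀ := by
  set B : ℝ := ‖lam‖ + (2 * (1 + Real.sqrt (‖c₀‖ + 1))) ^ n with hB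
  have hB1 : 1 ≤ B := by
    have h1 : 0 ≤ Real.sqrt (‖c₀‖ + 1) := Real.sqrt_nonneg _
    have h2 : (1 : ℝ) ≤ (2 * (1 + Real.sqrt (‖c₀‖ + 1))) ^ n := one_le_pow₀ (by linarith)
    have := norm_nonneg lam
    linarith
  have hinj : ∀ᶠ c in 𝓝 c₀, ∀ b ∈ T, ∀ b' ∈ T, b ≠ b' → β b c ≠ β b' c := by
    rw [Finset.eventually_all]
    intro b hb
    rw [Finset.eventually_all]
    intro b' hb'
    by_cases hbb : b = b'
    · exact Eventually.of_forall fun c h => absurd hbb h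
    · have h1 := (hβ b hb).an.continuousAt
      have h2 := (hβ b' hb').an.continuousAt
      have h3 : β b c₀ ≠ β b' c₀ := by rw [(hβ b hb).val, (hβ b' hb').val]; exact hbb
      have h4 : ∀ᶠ c in 𝓝 c₀, β b c - β b' c ≠ 0 :=
        (h1.sub h2).eventually_ne (sub_ne_zero.mpr h3)
      filter_upwards [h4] with c hc _ using sub_ne_zero.mp hc
  have heq : ∀ᶠ c in 𝓝 c₀, ∀ b ∈ T, it c n (β b c) = β b c := by
    rw [Finset.eventually_all]
    intro b hb
    exact (hβ b hb).eqn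
  have hKK : ∀ᶠ c in 𝓝 c₀, ∀ b ∈ T, ‖lam - mul n (c, β b c)‖ ≤ K b * ‖c - c₀‖ ^ (m b) := by
    rw [Finset.eventually_all]
    intro b hb
    exact hK b hb
  apply le_rootMultiplicity (Rp_ne_zero hn lam) (K := (∏ b ∈ T, K b) * B ^ 2 ^ n)
  filter_upwards [hinj, heq, hKK, ball_mem_nhds c₀ one_pos] with c h1 h2 h3 h4
  rw [eval_Rp hn]
  have hle : T.val.map (fun b => β b c) ≤ (fx c n).roots := by
    rw [Multiset.le_iff_subset]
    · intro z hz
      obtain ⟨b, hb, rfl⟩ := Multiset.mem_map.mp hz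
      exact (mem_roots_fx hn).mpr (h2 b hb)
    · apply Multiset.Nodup.map_on _ T.nodup
      intro b hb b' hb' hbb
      by_contra hne
      exact h1 b hb b' hb' hne hbb
  obtain ⟨R, hR⟩ := Multiset.le_iff_exists_add.mp hle
  have hR2 : ∀ b ∈ R, ‖lam - mul n (c, b)‖ ≤ B := by
    intro b hb
    have hb2 : b ∈ (fx c n).roots := by rw [hR]; exact Multiset.mem_add.mpr (Or.inr hb)
    have h5 := norm_mul_le hn ((mem_roots_fx hn).mp hb2)
    have h6 : ‖c‖ ≤ ‖c₀‖ + 1 := by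
      have : ‖c - c₀‖ < 1 := by simpa [dist_eq_norm] using h4
      have h7 := norm_le_norm_add_norm_sub' c c₀
      linarith
    have h7 : (2 * (1 + Real.sqrt ‖c‖)) ^ n ≤ (2 * (1 + Real.sqrt (‖c₀‖ + 1))) ^ n := by
      apply pow_le_pow_left₀ (by positivity)
      have := Real.sqrt_le_sqrt h6
      linarith
    calc ‖lam - mul n (c, b)‖ ≤ ‖lam‖ + ‖mul n (c, b)‖ := norm_sub_le _ _
      _ ≤ B := by rw [hB]; linarith
  have hRc : Multiset.card R ≤ 2 ^ n := by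
    rw [← card_roots_fx hn c, hR, Multiset.card_add]; omega
  rw [hR, Multiset.map_add, Multiset.prod_add, norm_mul, Multiset.map_map]
  have h5 : ‖(Multiset.map ((fun b => lam - mul n (c, b)) ∘ fun b => β b c) T.val).prod‖ ≤
      (∏ b ∈ T, K b) * ‖c - c₀‖ ^ ∑ b ∈ T, m b := by
    have h6 : (Multiset.map ((fun b => lam - mul n (c, b)) ∘ fun b => β b c) T.val).prod =
        ∏ b ∈ T, (lam - mul n (c, β b c)) := rfl
    rw [h6, norm_prod, ← Finset.prod_pow_eq_pow_sum, ← Finset.prod_mul_distrib]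
    exact Finset.prod_le_prod (fun _ _ => norm_nonneg _) h3
  have h6 : ‖(R.map fun b => lam - mul n (c, b)).prod‖ ≤ B ^ 2 ^ n :=
    (norm_prod_map_le (by linarith) hR2).trans (pow_le_pow_right₀ hB1 hRc)
  calc _ ≤ ((∏ b ∈ T, K b) * ‖c - c₀‖ ^ ∑ b ∈ T, m b) * B ^ 2 ^ n :=
        mul_le_mul h5 h6 (norm_nonneg _) ((norm_nonneg _).trans h5)
    _ = _ := by ring

lemma IsBranch.eventuallyEq {n : ℕ} {c₀ b : ℂ} {β β' : ℂ → ℂ} (h : IsBranch n c₀ b β)
    (h' : IsBranch n c₀ b β') : β =ᶠ[𝓝 c₀] β' := by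
  have h1 : Tendsto (fun c => (c, β' c)) (𝓝 c₀) (𝓝 (c₀, b)) := by
    have := h'.an.continuousAt
    have h2 : Tendsto β' (𝓝 c₀) (𝓝 b) := by rw [← h'.val]; exact this
    exact (tendsto_id.prodMk_nhds h2)
  filter_upwards [h1.eventually h.uniq, h'.eqn] with c hc hc2
  exact (hc hc2).symm

lemma analyticAt_mul_branch {n : ℕ} {c₀ b : ℂ} {β : ℂ → ℂ} (h : IsBranch n c₀ b β) :
    AnalyticAt ℂ (fun c => mul n (c, β c)) c₀ := by
  have h1 : ∀ᶠ c in 𝓝 c₀, DifferentiableAt ℂ β c := by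
    filter_upwards [h.an.eventually_analyticAt] with c hc using hc.differentiableAt
  rw [Complex.analyticAt_iff_eventually_differentiableAt]
  filter_upwards [h1] with c hc
  have h2 : DifferentiableAt ℂ (fun x : ℂ => ((x, β x) : ℂ × ℂ)) c :=
    DifferentiableAt.prodMk differentiableAt_id hc
  exact DifferentiableAt.comp (g := mul n) c
    (((contDiff_mul n).differentiable (by simp)) (c, β c)) h2

/-- at a point where the multiplier is `lam`, `|lam - ρ(c)| ≤ K |c - c₀|^m`, `m = 2` if `ρ' = 0` -/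
lemma exists_bound {n : ℕ} {c₀ b lam : ℂ} {β : ℂ → ℂ} (h : IsBranch n c₀ b β)
    (hl : mul n (c₀, b) = lam) :
    ∃ K : ℝ, ∀ᶠ c in 𝓝 c₀, ‖lam - mul n (c, β c)‖ ≤
      K * ‖c - c₀‖ ^ (if deriv (fun c => mul n (c, β c)) c₀ = 0 then 2 else 1) := by
  have han := analyticAt_mul_branch h
  obtain ⟨g, hg, hg2⟩ : ∃ g : ℂ → ℂ, AnalyticAt ℂ g c₀ ∧
      ∀ᶠ c in 𝓝 c₀, mul n (c, β c) - lam = (c - c₀) * g c := by
    have h1 : AnalyticAt ℂ (fun c => mul n (c, β c) - lam) c₀ := han.sub analyticAt_const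
    have h2 : (fun c => mul n (c, β c) - lam) c₀ = 0 := by simp [h.val, hl]
    have h3 : (1 : ℕ∞) ≤ analyticOrderAt (fun c => mul n (c, β c) - lam) c₀ := by
      rw [Order.one_le_iff_ne_zero]
      rw [h1.analyticOrderAt_ne_zero]
      exact h2
    have h4 := (natCast_le_analyticOrderAt h1 (n := 1)).mp (by exact_mod_cast h3)
    obtain ⟨g, hg, hg2⟩ := h4
    exact ⟨g, hg, by simpa using hg2⟩
  have hgd : deriv (fun c => mul n (c, β c)) c₀ = g c₀ := by
    have h1 : HasDerivAt (fun c => (c - c₀) * g c) (1 * g c₀ + (c₀ - c₀) * deriv g c₀) c₀ :=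
      ((hasDerivAt_id c₀).sub_const c₀).mul hg.differentiableAt.hasDerivAt
    have h2 : HasDerivAt (fun c => mul n (c, β c) - lam) (g c₀) c₀ := by
      have h3 : (fun c => mul n (c, β c) - lam) =ᶠ[𝓝 c₀] fun c => (c - c₀) * g c := hg2
      have := h1.congr_of_eventuallyEq h3
      simpa using this
    have h3 : HasDerivAt (fun c => mul n (c, β c)) (g c₀) c₀ := by
      have := h2.add_const lam
      simpa using this
    exact h3.deriv
  by_cases hd : deriv (fun c => mul n (c, β c)) c₀ = 0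
  · rw [if_pos hd]
    have hg0 : g c₀ = 0 := by rw [← hgd, hd]
    have h1 : (fun c => g c) =O[𝓝 c₀] fun c => c - c₀ := by
      have := hg.differentiableAt.isBigO_sub
      simpa [hg0] using this
    obtain ⟨K, hK⟩ := h1.bound
    refine ⟨K, ?_⟩
    filter_upwards [hK, hg2] with c h2 h3
    rw [norm_sub_rev, h3, norm_mul, pow_two]
    calc ‖c - c₀‖ * ‖g c‖ ≤ ‖c - c₀‖ * (K * ‖c - c₀‖) :=
          mul_le_mul_of_nonneg_left h2 (norm_nonneg _)
      _ = _ := by ring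
  · rw [if_neg hd]
    refine ⟨‖g c₀‖ + 1, ?_⟩
    have h1 : ∀ᶠ c in 𝓝 c₀, ‖g c‖ < ‖g c₀‖ + 1 :=
      hg.continuousAt.norm.eventually_lt continuousAt_const (by linarith)
    filter_upwards [h1, hg2] with c h2 h3
    rw [norm_sub_rev, h3, norm_mul, pow_one, mul_comm]
    exact mul_le_mul_of_nonneg_right h2.le (norm_nonneg _)

/-- weighted count: a point counts twice if the multiplier has derivative zero there -/
theorem count_weighted {n : ℕ} (hn : 0 < n) {lam : ℂ} (S : Finset (ℂ × ℂ))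
    (β : ℂ × ℂ → ℂ → ℂ) (hS : ∀ p ∈ S, mul n (p.1, p.2) = lam)
    (hβ : ∀ p ∈ S, IsBranch n p.1 p.2 (β p)) :
    ∑ p ∈ S, (if deriv (fun c => mul n (c, β p c)) p.1 = 0 then 2 else 1) ≤ n * 2 ^ (n - 1) := by
  classical
  set w : ℂ × ℂ → ℕ := fun p => if deriv (fun c => mul n (c, β p c)) p.1 = 0 then 2 else 1 with hw
  have h1 : ∀ c₀ ∈ S.image Prod.fst, ∑ p ∈ S with p.1 = c₀, w p ≤ (Rp n lam).rootMultiplicity c₀ := by
    intro c₀ _
    set T : Finset ℂ := (S.filter fun p => p.1 = c₀).image Prod.snd with hT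
    have hT2 : ∀ b, b ∈ T ↔ (c₀, b) ∈ S := by
      intro b
      simp only [hT, Finset.mem_image, Finset.mem_filter, Prod.exists]
      constructor
      · rintro ⟨x, y, ⟨h1, rfl⟩, rfl⟩; exact h1
      · intro h; exact ⟨c₀, b, ⟨h, rfl⟩, rfl⟩
    have h2 : ∑ p ∈ S with p.1 = c₀, w p = ∑ b ∈ T, w (c₀, b) := by
      rw [hT, Finset.sum_image]
      · apply Finset.sum_congr rfl
        intro p hp
        rw [Finset.mem_filter] at hp
        rw [← hp.2]
      · intro p hp p' hp' h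
        simp only [Finset.coe_filter, Set.mem_ofPred_eq] at hp hp'
        exact Prod.ext (hp.2.trans hp'.2.symm) h
    rw [h2]
    have h3 : ∀ b, ∃ K : ℝ, b ∈ T → ∀ᶠ c in 𝓝 c₀, ‖lam - mul n (c, β (c₀, b) c)‖ ≤
        K * ‖c - c₀‖ ^ (w (c₀, b)) := by
      intro b
      by_cases hb : b ∈ T
      · have hb2 := (hT2 b).mp hb
        obtain ⟨K, hK⟩ := exists_bound (hβ _ hb2) (hS _ hb2)
        exact ⟨K, fun _ => hK⟩
      · exact ⟨0, fun h => absurd h hb⟩
    choose K hK using h3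
    exact rootMult_ge hn T (fun b => w (c₀, b)) (fun b => β (c₀, b)) K
      (fun b hb => hβ _ ((hT2 b).mp hb)) hK
  calc ∑ p ∈ S, w p = ∑ c₀ ∈ S.image Prod.fst, ∑ p ∈ S with p.1 = c₀, w p :=
        (Finset.sum_fiberwise_of_maps_to (fun p hp => Finset.mem_image_of_mem _ hp) w).symm
    _ ≤ ∑ c₀ ∈ S.image Prod.fst, (Rp n lam).rootMultiplicity c₀ := Finset.sum_le_sum h1
    _ ≤ Multiset.card (Rp n lam).roots := by
        rw [← Multiset.sum_count_eq_card (s := S.image Prod.fst ∪ (Rp n lam).roots.toFinset)]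
        · refine le_trans (le_of_eq ?_) (Finset.sum_le_sum_of_subset Finset.subset_union_left)
          apply Finset.sum_congr rfl
          intro c _
          rw [count_roots]
        · intro a ha
          exact Finset.mem_union_right _ (Multiset.mem_toFinset.mpr ha)
    _ ≤ (Rp n lam).natDegree := card_roots' _
    _ ≤ _ := natDegree_Rp_le hn lam

theorem count_le {n : ℕ} (hn : 0 < n) {lam : ℂ} (hlam : lam ≠ 1) (S : Finset (ℂ × ℂ))
    (hS : ∀ p ∈ S, it p.1 n p.2 = p.2 ∧ mul n (p.1, p.2) = lam) : S.card ≤ n * 2 ^ (n - 1) := by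
  classical
  have h1 : ∀ p : ℂ × ℂ, ∃ β : ℂ → ℂ, p ∈ S → IsBranch n p.1 p.2 β := by
    intro p
    by_cases hp : p ∈ S
    · obtain ⟨β, hβ⟩ := exists_branch (hS p hp).1 (by rw [(hS p hp).2]; exact hlam)
      exact ⟨β, fun _ => hβ⟩
    · exact ⟨0, fun h => absurd h hp⟩
  choose β hβ using h1
  refine le_trans ?_ (count_weighted hn S β (fun p hp => (hS p hp).2) hβ)
  rw [Finset.card_eq_sum_ones]
  apply Finset.sum_le_sum
  intro p _
  split_ifs <;> omega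

/-- **the count**: if there are `n 2^(n-1)` pairs `(c, b)` with `f_c^n(b) = b` and multiplier
`lam ≠ 1`, then at every such pair the multiplier has nonzero derivative in `c`. -/
theorem count_simple {n : ℕ} (hn : 0 < n) {lam : ℂ} (hlam : lam ≠ 1) (S : Finset (ℂ × ℂ))
    (hS : ∀ p ∈ S, it p.1 n p.2 = p.2 ∧ mul n (p.1, p.2) = lam) (hcard : n * 2 ^ (n - 1) ≤ S.card)
    {c₀ b : ℂ} (hb : it c₀ n b = b) (hm : mul n (c₀, b) = lam) {β₀ : ℂ → ℂ}
    (hβ₀ : IsBranch n c₀ b β₀) : deriv (fun c => mul n (c, β₀ c)) c₀ ≠ 0 := by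
  classical
  have hmem : (c₀, b) ∈ S := by
    by_contra hne
    have := count_le hn hlam (insert (c₀, b) S) (by
      intro p hp
      rcases Finset.mem_insert.mp hp with rfl | hp
      · exact ⟨hb, hm⟩
      · exact hS p hp)
    rw [Finset.card_insert_of_notMem hne] at this
    omega
  have h1 : ∀ p : ℂ × ℂ, ∃ β : ℂ → ℂ, p ∈ S → IsBranch n p.1 p.2 β := by
    intro p
    by_cases hp : p ∈ S
    · obtain ⟨β, hβ⟩ := exists_branch (hS p hp).1 (by rw [(hS p hp).2]; exact hlam)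
      exact ⟨β, fun _ => hβ⟩
    · exact ⟨0, fun h => absurd h hp⟩
  choose β hβ using h1
  have h2 := count_weighted hn S β (fun p hp => (hS p hp).2) hβ
  intro h0
  have h3 : β (c₀, b) =ᶠ[𝓝 c₀] β₀ := (hβ _ hmem).eventuallyEq hβ₀
  have h4 : deriv (fun c => mul n (c, β (c₀, b) c)) c₀ = 0 := by
    rw [← h0]
    apply Filter.EventuallyEq.deriv_eq
    filter_upwards [h3] with c hc
    rw [hc]
  have h5 : S.card + 1 ≤
      ∑ p ∈ S, (if deriv (fun c => mul n (c, β p c)) p.1 = 0 then 2 else 1) := by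
    rw [← Finset.add_sum_erase S _ hmem, ← Finset.card_erase_add_one hmem]
    simp only [h4, if_true]
    have : (S.erase (c₀, b)).card ≤ ∑ p ∈ S.erase (c₀, b),
        (if deriv (fun c => mul n (c, β p c)) p.1 = 0 then 2 else 1) := by
      rw [Finset.card_eq_sum_ones]
      apply Finset.sum_le_sum
      intro p _
      split_ifs <;> omega
    omega
  omega

/-- the count in the language of `Curve57`: if there are `n 2^(n-1)` points of `Per n` over `lam ≠ 1`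
then the multiplier is locally injective at each of them -/
theorem locInj_of_card {n : ℕ} (hn : 0 < n) {lam : ℂ} (hlam : lam ≠ 1) (S : Finset (ℂ × ℂ))
    (hS : ∀ x ∈ S, x ∈ Per n ∧ mul n x = lam) (hcard : n * 2 ^ (n - 1) ≤ S.card)
    {x : ℂ × ℂ} (hx : x ∈ Per n) (hm : mul n x = lam) : LocInj n x := by
  obtain ⟨β, h1, h2, h3⟩ := chart hx (by rw [hm]; exact hlam)
  have hB : IsBranch n x.1 x.2 β := by
    refine ⟨h1, h2, ?_, ?_⟩
    · have h4 := chart_tendsto h1 h2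
      filter_upwards [h4.eventually h3] with c hc
      exact hc.mpr rfl
    · filter_upwards [h3] with p hp hp2
      exact (hp.mp hp2).symm
  exact LocInj.of_deriv h3 (analyticAt_mul_branch hB)
    (count_simple hn hlam S hS hcard hx hm hB)

/-- at most `n 2^(n-1)` points of `Per n` over `lam ≠ 1` -/
theorem card_le {n : ℕ} (hn : 0 < n) {lam : ℂ} (hlam : lam ≠ 1) (S : Finset (ℂ × ℂ))
    (hS : ∀ x ∈ S, x ∈ Per n ∧ mul n x = lam) : S.card ≤ n * 2 ^ (n - 1) :=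
  count_le hn hlam S hS

end Pool.Agent.Work.MLC.Cnt
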