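import Pool.Agent.Work.MLC.Lin
import Pool.Agent.Work.MLC.Count
import Pool.Agent.Work.MLC.Tract51

set_option autoImplicit false

/-! # One non-repelling cycle (helper49)

* `crit_near`: the critical value comes arbitrarily near to every attracting periodic point.
* `one_attracting`: two attracting periodic points of `z ^ 2 + c` are in the same cycle.
* `one_nonrepelling`: if `x` is attracting and `y` has multiplier of modulus at most `1`, then `y` is
  in the orbit of `x` (hence it is attracting). -/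

namespace Pool.Agent.Work.MLC

namespace One49

open Filter Topology Metric Set

/-! ### algebra -/

lemma mul_eq_mult (n : ℕ) (c b : ℂ) : mul n (c, b) = mult n c b := rfl

lemma mult_add (a b : ℕ) (c x : ℂ) : mult (a + b) c x = mult a c x * mult b c (it c a x) := by
  unfold mult
  rw [Finset.prod_range_add]
  congr 1
  refine Finset.prod_congr rfl fun i _ => ?_
  rw [add_comm a i, it_add]

lemma it_mul_per {c x : ℂ} {n : ℕ} (hx : it c n x = x) (k : ℕ) : it c (n * k) x = x := by
  induction k with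
  | zero => simp
  | succ k ih => rw [Nat.mul_succ, it_add, hx, ih]

lemma it_mod {c x : ℂ} {n : ℕ} (hx : it c n x = x) (i : ℕ) : it c (i % n) x = it c i x := by
  conv_rhs => rw [← Nat.mod_add_div i n]
  rw [it_add, it_mul_per hx]

lemma mult_pow {c x : ℂ} {n : ℕ} (hx : it c n x = x) (k : ℕ) :
    mult (n * k) c x = mult n c x ^ k := by
  induction k with
  | zero => simp
  | succ k ih => rw [Nat.mul_succ, mult_add, it_mul_per hx, ih, pow_succ]

/-! ### holomorphic inverse branches along a periodic orbit -/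

lemma exists_sqrt_ball {x : ℂ} {ε : ℝ} (hε : 0 < ε) {g : ℂ → ℂ}
    (hg : DifferentiableOn ℂ g (ball x ε)) (h0 : ∀ z ∈ ball x ε, g z ≠ 0) {w : ℂ}
    (hw : w ^ 2 = g x) :
    ∃ s : ℂ → ℂ, DifferentiableOn ℂ s (ball x ε) ∧ (∀ z ∈ ball x ε, s z ^ 2 = g z) ∧ s x = w := by
  have hxb : x ∈ ball x ε := mem_ball_self hε
  obtain ⟨F, hF, hF2⟩ := Tr.exists_hol_log isOpen_ball (convex_ball x ε) ⟨x, hxb⟩ hg h0
  have hs : ∀ z ∈ ball x ε, Complex.exp (F z / 2) ^ 2 = g z := by
    intro z hz
    rw [← hF2 z hz, ← Complex.exp_nat_mul]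
    congr 1
    push_cast
    ring
  have hd : DifferentiableOn ℂ (fun z => Complex.exp (F z / 2)) (ball x ε) :=
    (hF.div_const 2).cexp
  have hx2 : (Complex.exp (F x / 2) - w) * (Complex.exp (F x / 2) + w) = 0 := by
    have := hs x hxb
    linear_combination this - hw
  rcases mul_eq_zero.1 hx2 with h | h
  · exact ⟨_, hd, hs, sub_eq_zero.1 h⟩
  · refine ⟨fun z => -Complex.exp (F z / 2), hd.neg, fun z hz => ?_, ?_⟩
    · rw [neg_sq]; exact hs z hz
    · linear_combination -h

lemma branches {c x : ℂ} {m : ℕ} (hx : it c (m + 1) x = x) {ε : ℝ} (hε : 0 < ε)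
    (hav : ∀ j, it c j c ∉ ball x ε) {R : ℝ} (hR : 1 + ‖c‖ ≤ R) (hxR : ‖x‖ + ε ≤ R) :
    ∀ k : ℕ, ∃ h : ℂ → ℂ, DifferentiableOn ℂ h (ball x ε) ∧
      (∀ z ∈ ball x ε, it c k (h z) = z) ∧ (∀ z ∈ ball x ε, ‖h z‖ ≤ R) ∧ h x = it c (m * k) x := by
  intro k
  induction k with
  | zero =>
    refine ⟨fun z => z, differentiableOn_id, fun z _ => by simp, fun z hz => ?_, by simp⟩
    have h1 : ‖z - x‖ < ε := by simpa [dist_eq_norm] using hz
    have h2 : ‖z‖ ≤ ‖z - x‖ + ‖x‖ := by
      calc ‖z‖ = ‖(z - x) + x‖ := by ring_nf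
        _ ≤ _ := norm_add_le _ _
    linarith
  | succ k ih =>
    obtain ⟨h, hd, hi, hb, hv⟩ := ih
    have h0 : ∀ z ∈ ball x ε, h z - c ≠ 0 := by
      intro z hz h0
      have h1 : h z = c := sub_eq_zero.1 h0
      have h2 := hi z hz
      rw [h1] at h2
      exact hav k (by rw [h2]; exact hz)
    have hw : (it c (m * (k + 1)) x) ^ 2 = h x - c := by
      have h1 : f c (it c (m * (k + 1)) x) = it c (m * k) x := by
        rw [← it_succ]
        have h2 : m * (k + 1) + 1 = m * k + (m + 1) := by ring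
        rw [h2, it_add, hx]
      rw [hv, ← h1]
      unfold f; ring
    obtain ⟨s, hsd, hs2, hsx⟩ := exists_sqrt_ball hε (hd.sub_const c) h0 hw
    refine ⟨s, hsd, fun z hz => ?_, fun z hz => ?_, hsx⟩
    · rw [it_succ']
      have h1 : f c (s z) = h z := by
        unfold f
        rw [hs2 z hz]; ring
      rw [h1]; exact hi z hz
    · have h1 : ‖s z‖ ^ 2 ≤ R ^ 2 := by
        rw [← norm_pow, hs2 z hz]
        have h2 : ‖h z - c‖ ≤ R + ‖c‖ := (norm_sub_le _ _).trans (by linarith [hb z hz])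
        have h3 := norm_nonneg c
        nlinarith
      exact le_of_sq_le_sq h1 (by linarith [norm_nonneg c])

/-- the critical value comes arbitrarily near to an attracting periodic point -/
theorem crit_near {c x : ℂ} {n : ℕ} (hn : 0 < n) (hx : it c n x = x) (hm : ‖mult n c x‖ < 1)
    {ε : ℝ} (hε : 0 < ε) : ∃ j, it c j c ∈ ball x ε := by
  by_contra hcon
  push Not at hcon
  obtain ⟨m, rfl⟩ : ∃ m, n = m + 1 := ⟨n - 1, by omega⟩
  by_cases h0 : mult (m + 1) c x = 0
  · unfold mult at h0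
    obtain ⟨i, hi, hi0⟩ := Finset.prod_eq_zero_iff.1 h0
    rw [Finset.mem_range] at hi
    have h1 : it c i x = 0 := by
      rcases mul_eq_zero.1 hi0 with h | h
      · norm_num at h
      · exact h
    have h2 : it c (i + 1) x = c := by
      rw [it_succ, h1]; unfold f; ring
    have h3 : it c (m - i) (it c (i + 1) x) = x := by
      rw [← it_add]
      have : m - i + (i + 1) = m + 1 := by omega
      rw [this, hx]
    rw [h2] at h3
    exact hcon (m - i) (by rw [h3]; exact mem_ball_self hε)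
  · set ρ := mult (m + 1) c x with hρ
    set R := max (1 + ‖c‖) (‖x‖ + ε) with hRdef
    have hR0 : 0 < R := lt_of_lt_of_le (by positivity) (le_max_left _ _)
    have key : ∀ k : ℕ, 1 ≤ ‖ρ‖ ^ k * (R / (ε / 2)) := by
      intro k
      obtain ⟨h, hd, hi, hb, hv⟩ := branches hx hε hcon (le_max_left _ _) (le_max_right _ _)
        ((m + 1) * k)
      have hxb : x ∈ ball x ε := mem_ball_self hε
      have hvx : h x = x := by
        rw [hv]
        have : m * ((m + 1) * k) = (m + 1) * (m * k) := by ring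
        rw [this, it_mul_per hx]
      have hdx : HasDerivAt h (deriv h x) x :=
        (hd.differentiableAt (isOpen_ball.mem_nhds hxb)).hasDerivAt
      have hit : HasDerivAt (it c ((m + 1) * k)) (mult ((m + 1) * k) c (h x)) (h x) :=
        hasDerivAt_it_mult _ _ _
      have hcomp := hit.comp x hdx
      have hid : HasDerivAt (it c ((m + 1) * k) ∘ h) 1 x := by
        refine (hasDerivAt_id' x).congr_of_eventuallyEq ?_
        filter_upwards [isOpen_ball.mem_nhds hxb] with z hz
        exact hi z hz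
      have h1 := hcomp.unique hid
      rw [hvx, mult_pow hx, ← hρ] at h1
      have hc := Complex.norm_deriv_le_of_forall_mem_sphere_norm_le (f := h) (c := x)
        (R := ε / 2) (C := R) (by positivity)
        (by
          apply DifferentiableOn.diffContOnCl
          rw [closure_ball x (by positivity : ε / 2 ≠ 0)]
          exact hd.mono (closedBall_subset_ball (by linarith)))
        (fun z hz => hb z (by
          rw [mem_sphere_iff_norm] at hz
          rw [mem_ball_iff_norm, hz]; linarith))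
      have h2 : ‖ρ‖ ^ k * ‖deriv h x‖ = 1 := by
        rw [← norm_pow, ← norm_mul, h1, norm_one]
      calc (1 : ℝ) = ‖ρ‖ ^ k * ‖deriv h x‖ := h2.symm
        _ ≤ _ := mul_le_mul_of_nonneg_left hc (by positivity)
    have ht : Tendsto (fun k : ℕ => ‖ρ‖ ^ k * (R / (ε / 2))) atTop (𝓝 (0 * (R / (ε / 2)))) :=
      (tendsto_pow_atTop_nhds_zero_of_lt_one (norm_nonneg _) hm).mul_const _
    rw [zero_mul] at ht
    obtain ⟨k, hk⟩ := ((tendsto_order.1 ht).2 1 one_pos).exists
    linarith [key k]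

/-- an attracting periodic point attracts a neighbourhood -/
theorem basin {c x : ℂ} {n : ℕ} (hx : it c n x = x) (hm : ‖mult n c x‖ < 1) :
    ∃ ε > 0, ∀ z ∈ ball x ε, Tendsto (fun k => it c (n * k) z) atTop (𝓝 x) := by
  obtain ⟨r, hr1, hr2⟩ := exists_between hm
  have hd : HasDerivAt (it c n) (mult n c x) x := hasDerivAt_it_mult _ _ _
  have h1 := (hasDerivAt_iff_isLittleO.1 hd).def (c := r - ‖mult n c x‖) (by linarith)
  obtain ⟨ε, hε, hb⟩ := Metric.mem_nhds_iff.1 h1
  have hstep : ∀ z ∈ ball x ε, ‖it c n z - x‖ ≤ r * ‖z - x‖ := by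
    intro z hz
    have h2 : ‖it c n z - it c n x - (z - x) • mult n c x‖ ≤ (r - ‖mult n c x‖) * ‖z - x‖ := hb hz
    rw [hx, smul_eq_mul] at h2
    have h3 : it c n z - x = (it c n z - x - (z - x) * mult n c x) + (z - x) * mult n c x := by
      ring
    rw [h3]
    refine (norm_add_le _ _).trans ?_
    rw [norm_mul]
    nlinarith [norm_nonneg (z - x)]
  have hr0 : 0 ≤ r := le_trans (norm_nonneg _) hr1.le
  refine ⟨ε, hε, fun z hz => ?_⟩
  have hk : ∀ k : ℕ, it c (n * k) z ∈ ball x ε ∧ ‖it c (n * k) z - x‖ ≤ r ^ k * ‖z - x‖ := by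
    intro k
    induction k with
    | zero => simp only [Nat.mul_zero, it_zero, pow_zero, one_mul, le_refl, and_true]; exact hz
    | succ k ih =>
      have h2 : it c (n * (k + 1)) z = it c n (it c (n * k) z) := by
        rw [← it_add]; congr 1; ring
      have h3 := hstep _ ih.1
      rw [h2]
      constructor
      · rw [mem_ball_iff_norm]
        have h4 := ih.1
        rw [mem_ball_iff_norm] at h4
        nlinarith [norm_nonneg (it c (n * k) z - x)]
      · calc _ ≤ r * ‖it c (n * k) z - x‖ := h3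
          _ ≤ r * (r ^ k * ‖z - x‖) := mul_le_mul_of_nonneg_left ih.2 hr0
          _ = r ^ (k + 1) * ‖z - x‖ := by ring
  rw [tendsto_iff_norm_sub_tendsto_zero]
  have ht : Tendsto (fun k : ℕ => r ^ k * ‖z - x‖) atTop (𝓝 (0 * ‖z - x‖)) :=
    (tendsto_pow_atTop_nhds_zero_of_lt_one hr0 hr2).mul_const _
  rw [zero_mul] at ht
  exact squeeze_zero (fun _ => norm_nonneg _) (fun k => (hk k).2) ht

/-- the critical orbit converges to every attracting cycle -/
theorem crit_tendsto {c x : ℂ} {n : ℕ} (hn : 0 < n) (hx : it c n x = x)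
    (hm : ‖mult n c x‖ < 1) : ∃ j, Tendsto (fun k => it c (n * k) (it c j c)) atTop (𝓝 x) := by
  obtain ⟨ε, hε, hb⟩ := basin hx hm
  obtain ⟨j, hj⟩ := crit_near hn hx hm hε
  exact ⟨j, hb _ hj⟩

lemma tendsto_sub {c x : ℂ} {n m j : ℕ} (hm : 0 < m)
    (h : Tendsto (fun k => it c (n * k) (it c j c)) atTop (𝓝 x)) (i : ℕ) :
    Tendsto (fun k => it c (n * m * k) (it c (i + j) c)) atTop (𝓝 (it c i x)) := by
  have h1 : Tendsto (fun k : ℕ => m * k) atTop atTop :=
    tendsto_id.const_mul_atTop' hm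
  have h2 := (continuous_it_right c i).continuousAt.tendsto.comp (h.comp h1)
  refine h2.congr fun k => ?_
  simp only [Function.comp_apply]
  rw [← it_add, ← it_add, ← it_add]
  congr 1; ring

/-- **Uniqueness of the attracting cycle.** -/
theorem one_attracting {c x y : ℂ} {n m : ℕ} (hn : 0 < n) (hm : 0 < m) (hx : it c n x = x)
    (hxm : ‖mult n c x‖ < 1) (hy : it c m y = y) (hym : ‖mult m c y‖ < 1) :
    ∃ i, it c i x = y := by
  obtain ⟨j, hj⟩ := crit_tendsto hn hx hxm
  obtain ⟨j', hj'⟩ := crit_tendsto hm hy hym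
  rcases le_total j j' with h | h
  · have h1 := tendsto_sub hm hj (j' - j)
    have h2 := tendsto_sub hn hj' 0
    rw [show j' - j + j = 0 + j' by omega] at h1
    rw [mul_comm m n] at h2
    exact ⟨j' - j, tendsto_nhds_unique h1 h2⟩
  · have h1 := tendsto_sub hm hj 0
    have h2 := tendsto_sub hn hj' (j - j')
    rw [show j - j' + j' = 0 + j by omega, mul_comm m n] at h2
    have h3 : x = it c (j - j') y := tendsto_nhds_unique h1 h2
    refine ⟨m * (j - j') - (j - j'), ?_⟩
    rw [h3, ← it_add]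
    have : m * (j - j') - (j - j') + (j - j') = m * (j - j') := by
      have : j - j' ≤ m * (j - j') := Nat.le_mul_of_pos_left _ hm
      omega
    rw [this, it_mul_per hy]

/-! ### perturbation -/

/-- If `x` is attracting and `y` is not in its orbit, then nearby parameters have no attracting
point of period dividing `m` near `y`. -/
theorem no_attracting_near {c x y : ℂ} {n m : ℕ} (hn : 0 < n) (hm : 0 < m) (hx : it c n x = x)
    (hxm : ‖mult n c x‖ < 1) (hxy : ∀ i, it c i x ≠ y) :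
    ∀ᶠ p : ℂ × ℂ in 𝓝 (c, y), it p.1 m p.2 = p.2 → 1 ≤ ‖mult m p.1 p.2‖ := by
  have h1 : mul n (c, x) ≠ 1 := by
    intro h0
    rw [mul_eq_mult] at h0
    rw [h0, norm_one] at hxm
    exact lt_irrefl _ hxm
  obtain ⟨β, hβ, hβ0, hβe⟩ := chart (x₀ := (c, x)) hx h1
  have ht := chart_tendsto (x₀ := (c, x)) hβ hβ0
  have hfst : Tendsto (fun p : ℂ × ℂ => p.1) (𝓝 (c, y)) (𝓝 c) := continuous_fst.continuousAt
  have e1 : ∀ᶠ p : ℂ × ℂ in 𝓝 (c, y), ‖mult n p.1 (β p.1)‖ < 1 := by
    have hxm' : ‖mul n (c, x)‖ < 1 := by rw [mul_eq_mult]; exact hxm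
    have h2 : ∀ᶠ q in 𝓝 ((c, x) : ℂ × ℂ), ‖mul n q‖ < 1 :=
      (continuous_mul' n).norm.continuousAt.eventually (gt_mem_nhds hxm')
    have h3 : ∀ᶠ c' in 𝓝 c, ‖mul n (c', β c')‖ < 1 := ht.eventually h2
    exact (hfst.eventually h3).mono fun p hp => hp
  have e2 : ∀ᶠ p : ℂ × ℂ in 𝓝 (c, y), it p.1 n (β p.1) = β p.1 := by
    have h3 : ∀ᶠ c' in 𝓝 c, it c' n (β c') = β c' :=
      (ht.eventually hβe).mono fun c' h => h.2 rfl
    exact (hfst.eventually h3).mono fun p hp => hp
  have e3 : ∀ᶠ p : ℂ × ℂ in 𝓝 (c, y), ∀ i ∈ Finset.range n, it p.1 i (β p.1) ≠ p.2 := by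
    rw [Finset.eventually_all]
    intro i _
    have hc1 : Tendsto (fun p : ℂ × ℂ => it p.1 i (β p.1)) (𝓝 (c, y)) (𝓝 (it c i x)) := by
      have h2 : Tendsto (fun c' : ℂ => (c', β c')) (𝓝 c) (𝓝 (c, x)) := ht
      have h3 := ((continuous_it i).continuousAt (x := (c, x))).tendsto.comp (h2.comp hfst)
      exact h3
    have hc2 : Tendsto (fun p : ℂ × ℂ => p.2) (𝓝 (c, y)) (𝓝 y) := continuous_snd.continuousAt
    exact ((hc1.sub hc2).eventually_ne (sub_ne_zero.2 (hxy i))).mono fun p hp h => hp (by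
      rw [h, sub_self])
  filter_upwards [e1, e2, e3] with p h2 h3 h4 h5
  by_contra hcon
  push Not at hcon
  obtain ⟨i, hi⟩ := one_attracting hn hm h3 h2 h5 hcon
  exact h4 (i % n) (Finset.mem_range.2 (Nat.mod_lt _ hn)) (by rw [it_mod h3]; exact hi)

/-- the case of an indifferent point of multiplier different from `1` -/
theorem one_nonrepelling_ne {c x y : ℂ} {n m : ℕ} (hn : 0 < n) (hm : 0 < m) (hx : it c n x = x)
    (hxm : ‖mult n c x‖ < 1) (hy : it c m y = y) (hym : ‖mult m c y‖ ≤ 1)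
    (hy1 : mult m c y ≠ 1) : ∃ i, it c i x = y := by
  by_contra hcon
  push Not at hcon
  have h1 := no_attracting_near hn hm hx hxm hcon
  have h2 := mul_open (x₀ := (c, y)) hm hy hy1 (by rw [mul_eq_mult]; linarith) h1
  have h3 : ∃ᶠ w in 𝓝 (mul m (c, y)), w ∈ ball (0 : ℂ) 1 := by
    refine mem_closure_iff_frequently.1 ?_
    rw [closure_ball (0 : ℂ) one_ne_zero, mem_closedBall_zero_iff, mul_eq_mult]
    exact hym
  obtain ⟨w, hw, p, ⟨hp1, hp2⟩, hpw⟩ := (h3.and_eventually h2).exists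
  have h5 := hp1 hp2
  have h6 : mult m p.1 p.2 = w := hpw
  rw [h6] at h5
  rw [mem_ball_zero_iff] at hw
  linarith

/-! ### the parabolic case: zeros of the multiplier polynomial move continuously -/

lemma continuous_coeff_pc (m k : ℕ) : Continuous fun c : ℂ => (Cnt.pc c m).coeff k := by
  have h : (fun c : ℂ => (Cnt.pc c m).coeff k) = fun c => ((Cnt.Fp m).coeff k).eval c := by
    funext c
    simp [Cnt.pc, Polynomial.coeff_map]
  rw [h]
  exact Polynomial.continuous _

theorem continuous_Rp (m : ℕ) : Continuous fun p : ℂ × ℂ => (Cnt.Rp m p.1).eval p.2 := by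
  have h1 : (fun p : ℂ × ℂ => (Cnt.Rp m p.1).eval p.2) = fun p : ℂ × ℂ =>
      (Polynomial.sylvester (Cnt.fx p.2 m)
        (Polynomial.C p.1 - Polynomial.derivative (Cnt.pc p.2 m)) (2 ^ m) (2 ^ m)).det := by
    funext p
    have h1 : (Cnt.Rp m p.1).eval p.2 = Polynomial.evalRingHom p.2 (Cnt.Rp m p.1) := rfl
    rw [h1, Cnt.Rp, ← Polynomial.resultant_map_map]
    have h2 : (Cnt.Fp m - Polynomial.X).map (Polynomial.evalRingHom p.2) = Cnt.fx p.2 m := by
      simp [Cnt.fx, Cnt.pc]
    have h3 : (Polynomial.C (Polynomial.C p.1) - Polynomial.derivative (Cnt.Fp m)).map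
        (Polynomial.evalRingHom p.2)
        = Polynomial.C p.1 - Polynomial.derivative (Cnt.pc p.2 m) := by
      simp [Cnt.pc, Polynomial.derivative_map]
    rw [h2, h3]
    rfl
  rw [h1]
  refine Continuous.matrix_det ?_
  refine continuous_matrix fun i j => ?_
  have hg : ∀ k : ℕ, Continuous fun p : ℂ × ℂ =>
      (Polynomial.C p.1 - Polynomial.derivative (Cnt.pc p.2 m)).coeff k := by
    intro k
    simp only [Polynomial.coeff_sub, Polynomial.coeff_C, Polynomial.coeff_derivative]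
    refine Continuous.sub ?_ (((continuous_coeff_pc m (k + 1)).comp continuous_snd).mul
      continuous_const)
    split_ifs
    · exact continuous_fst
    · exact continuous_const
  have hf : ∀ k : ℕ, Continuous fun p : ℂ × ℂ => (Cnt.fx p.2 m).coeff k := by
    intro k
    simp only [Cnt.fx, Polynomial.coeff_sub]
    exact ((continuous_coeff_pc m k).comp continuous_snd).sub continuous_const
  simp only [Polynomial.sylvester, Matrix.of_apply]
  refine Fin.addCases (fun j₁ => ?_) (fun j₁ => ?_) j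
  · simp only [Fin.addCases_left]
    split_ifs
    · exact hg _
    · exact continuous_const
  · simp only [Fin.addCases_right]
    split_ifs
    · exact hf _
    · exact continuous_const

theorem zero_near {m : ℕ} (hm : 0 < m) {c : ℂ} (h0 : (Cnt.Rp m 1).eval c = 0) {V : Set ℂ}
    (hV : V ∈ 𝓝 c) : ∀ᶠ w in 𝓝 (1 : ℂ), ∃ c' ∈ V, (Cnt.Rp m w).eval c' = 0 := by
  have hne := Cnt.Rp_ne_zero hm (1 : ℂ)
  have hfin : ({z : ℂ | (Cnt.Rp m 1).eval z = 0} \ {c}).Finite :=
    (Polynomial.finite_setOfPred_isRoot hne).subset (by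
      rintro z ⟨hz, -⟩
      exact hz)
  have h1 : ({z : ℂ | (Cnt.Rp m 1).eval z = 0} \ {c})ᶜ ∈ 𝓝 c :=
    hfin.isClosed.isOpen_compl.mem_nhds (by simp)
  obtain ⟨d, hd, hball⟩ := Metric.mem_nhds_iff.1 (Filter.inter_mem hV h1)
  have hd2 : 0 < d / 2 := by positivity
  have hK : IsCompact (sphere c (d / 2)) := isCompact_sphere _ _
  have hKne : ∀ z ∈ sphere c (d / 2), (Cnt.Rp m 1).eval z ≠ 0 := by
    intro z hz hz0
    have hz' : z ∈ ball c d := by
      rw [mem_sphere] at hz
      rw [mem_ball, hz]; linarith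
    refine (hball hz').2 ⟨hz0, ?_⟩
    rw [mem_singleton_iff]
    rintro rfl
    rw [mem_sphere, dist_self] at hz
    linarith
  obtain ⟨μ, hμ, hμK⟩ : ∃ μ > 0, ∀ z ∈ sphere c (d / 2), μ ≤ ‖(Cnt.Rp m 1).eval z‖ := by
    have hcont : ContinuousOn (fun z : ℂ => ‖(Cnt.Rp m 1).eval z‖) (sphere c (d / 2)) :=
      (Polynomial.continuous _).norm.continuousOn
    obtain ⟨z₀, hz₀, hmin⟩ := hK.exists_isMinOn (NormedSpace.sphere_nonempty.2 hd2.le) hcont
    exact ⟨_, norm_pos_iff.2 (hKne z₀ hz₀), fun z hz => hmin hz⟩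
  have e1 : ∀ᶠ w in 𝓝 (1 : ℂ), ∀ z ∈ sphere c (d / 2), μ / 2 < ‖(Cnt.Rp m w).eval z‖ := by
    refine hK.eventually_forall_of_forall_eventually fun z hz => ?_
    have h2 : μ / 2 < ‖(Cnt.Rp m 1).eval z‖ := by linarith [hμK z hz]
    exact (continuous_Rp m).norm.continuousAt.eventually (lt_mem_nhds h2)
  have e2 : ∀ᶠ w in 𝓝 (1 : ℂ), ‖(Cnt.Rp m w).eval c‖ < μ / 2 := by
    have h2 : Continuous fun w : ℂ => (Cnt.Rp m w).eval c :=
      (continuous_Rp m).comp (continuous_id.prodMk continuous_const)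
    have h3 : ‖(Cnt.Rp m (1 : ℂ)).eval c‖ < μ / 2 := by
      rw [h0, norm_zero]; positivity
    exact h2.norm.continuousAt.eventually (gt_mem_nhds h3)
  filter_upwards [e1, e2] with w hw1 hw2
  by_contra hcon
  push Not at hcon
  have hnz : ∀ z ∈ closedBall c (d / 2), (Cnt.Rp m w).eval z ≠ 0 := by
    intro z hz
    exact hcon z (hball (closedBall_subset_ball (by linarith) hz)).1
  have hdc : DiffContOnCl ℂ (fun z : ℂ => ((Cnt.Rp m w).eval z)⁻¹) (ball c (d / 2)) := by
    apply DifferentiableOn.diffContOnCl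
    rw [closure_ball c hd2.ne']
    exact ((Cnt.Rp m w).differentiable.differentiableOn).inv hnz
  obtain ⟨z, hz, hmax⟩ := Complex.exists_mem_frontier_isMaxOn_norm isBounded_ball
    ⟨c, mem_ball_self hd2⟩ hdc
  rw [frontier_ball c hd2.ne'] at hz
  have h4 := hmax (subset_closure (mem_ball_self hd2 : c ∈ ball c (d / 2)))
  simp only [Function.comp_apply, norm_inv, mem_ofPred_eq] at h4
  have h5 := hw1 z hz
  have h6 : 0 < ‖(Cnt.Rp m w).eval c‖ := norm_pos_iff.2 (hnz c (mem_closedBall_self hd2.le))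
  have h7 : 0 < ‖(Cnt.Rp m w).eval z‖ := by linarith
  have h8 := (inv_le_inv₀ h6 h7).1 h4
  linarith

/-- a parameter with a point of multiplier `1` is a limit of parameters with a point of
multiplier `w`, as `w → 1` -/
theorem near_parabolic {m : ℕ} (hm : 0 < m) {c y : ℂ} (hy : it c m y = y)
    (hy1 : mult m c y = 1) {V : Set ℂ} (hV : V ∈ 𝓝 c) :
    ∀ᶠ w in 𝓝 (1 : ℂ), ∃ c' ∈ V, ∃ b, it c' m b = b ∧ mult m c' b = w := by
  have h0 : (Cnt.Rp m 1).eval c = 0 := by
    rw [Cnt.eval_Rp hm, Multiset.prod_eq_zero_iff]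
    refine Multiset.mem_map.2 ⟨y, (Cnt.mem_roots_fx hm).2 hy, ?_⟩
    rw [mul_eq_mult, hy1, sub_self]
  filter_upwards [zero_near hm h0 hV] with w hw
  obtain ⟨c', hc', h1⟩ := hw
  rw [Cnt.eval_Rp hm, Multiset.prod_eq_zero_iff] at h1
  obtain ⟨b, hb, hb0⟩ := Multiset.mem_map.1 h1
  exact ⟨c', hc', b, (Cnt.mem_roots_fx hm).1 hb, (sub_eq_zero.1 hb0).symm⟩

lemma mult_f {c x : ℂ} {n : ℕ} (hx : it c n x = x) : mult n c (f c x) = mult n c x := by
  have h1 : mult (n + 1) c x = mult n c x * (2 * x) := by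
    rw [mult_succ, hx]
  have h2 : mult (1 + n) c x = (2 * x) * mult n c (f c x) := by
    rw [mult_add]
    simp [mult]
  by_cases h0 : x = 0
  · -- then both products contain a zero factor, unless `n = 0`
    rcases Nat.eq_zero_or_pos n with rfl | hn
    · simp
    · have h3 : mult n c x = 0 := by
        unfold mult
        exact Finset.prod_eq_zero (Finset.mem_range.2 hn) (by simp [h0])
      have h4 : mult n c (f c x) = 0 := by
        unfold mult
        refine Finset.prod_eq_zero (Finset.mem_range.2 (by omega : n - 1 < n)) ?_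
        rw [← it_succ']
        have : n - 1 + 1 = n := by omega
        rw [this, hx, h0, mul_zero]
      rw [h3, h4]
  · rw [add_comm, h2] at h1
    have h3 : (2 * x) * (mult n c (f c x) - mult n c x) = 0 := by linear_combination h1
    rcases mul_eq_zero.1 h3 with h4 | h4
    · exact absurd h4 (mul_ne_zero two_ne_zero h0)
    · exact sub_eq_zero.1 h4

lemma mult_it_eq {c x : ℂ} {n : ℕ} (hx : it c n x = x) (i : ℕ) :
    mult n c (it c i x) = mult n c x := by
  induction i with
  | zero => simp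
  | succ i ih =>
    have h1 : it c n (it c i x) = it c i x := by
      rw [← it_add, add_comm, it_add, hx]
    rw [it_succ, mult_f h1, ih]

/-- no parabolic point of multiplier `1` besides an attracting cycle -/
theorem no_parabolic {c x y : ℂ} {n m : ℕ} (hn : 0 < n) (hm : 0 < m) (hx : it c n x = x)
    (hxm : ‖mult n c x‖ < 1) (hy : it c m y = y) : mult m c y ≠ 1 := by
  intro hy1
  obtain ⟨r, hr1, hr2⟩ := exists_between hxm
  have hr0 : 0 ≤ r := le_trans (norm_nonneg _) hr1.le
  have h1 : mul n (c, x) ≠ 1 := by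
    intro h0
    rw [mul_eq_mult] at h0
    rw [h0, norm_one] at hxm
    exact lt_irrefl _ hxm
  obtain ⟨β, hβ, hβ0, hβe⟩ := chart (x₀ := (c, x)) hx h1
  have ht := chart_tendsto (x₀ := (c, x)) hβ hβ0
  have e1 : ∀ᶠ c' in 𝓝 c, ‖mult n c' (β c')‖ < r := by
    have hxm' : ‖mul n (c, x)‖ < r := by rw [mul_eq_mult]; exact hr1
    have h2 : ∀ᶠ q in 𝓝 ((c, x) : ℂ × ℂ), ‖mul n q‖ < r :=
      (continuous_mul' n).norm.continuousAt.eventually (gt_mem_nhds hxm')
    exact (ht.eventually h2).mono fun c' h => h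
  have e2 : ∀ᶠ c' in 𝓝 c, it c' n (β c') = β c' := (ht.eventually hβe).mono fun c' h => h.2 rfl
  have h2 := near_parabolic hm hy hy1 (e1.and e2)
  have hrm : r ^ m < 1 := pow_lt_one₀ hr0 hr2 hm.ne'
  have h3 : ∀ᶠ w in 𝓝 (1 : ℂ), r ^ m < ‖w‖ ^ n := by
    have h4 : Continuous fun w : ℂ => ‖w‖ ^ n := continuous_norm.pow n
    refine h4.continuousAt.eventually (lt_mem_nhds ?_)
    show r ^ m < ‖(1 : ℂ)‖ ^ n
    rw [norm_one, one_pow]; exact hrm
  have h4 : ∃ᶠ w in 𝓝 (1 : ℂ), w ∈ ball (0 : ℂ) 1 := by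
    refine mem_closure_iff_frequently.1 ?_
    rw [closure_ball (0 : ℂ) one_ne_zero, mem_closedBall_zero_iff, norm_one]
  obtain ⟨w, hw, hw2, hw3⟩ := (h4.and_eventually (h2.and h3)).exists
  rw [mem_ball_zero_iff] at hw
  obtain ⟨c', ⟨hc1, hc2⟩, b, hb, hbw⟩ := hw2
  obtain ⟨i, hi⟩ := one_attracting hn hm hc2 (hc1.trans hr2) hb (by rw [hbw]; exact hw)
  have h5 : mult (n * m) c' b = mult n c' (β c') ^ m := by
    rw [← hi, mult_it_eq (by rw [it_mul_per hc2]), mult_pow hc2]
  have h6 : mult (n * m) c' b = w ^ n := by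
    rw [mul_comm, mult_pow hb, hbw]
  have h7 : ‖w‖ ^ n = ‖mult n c' (β c')‖ ^ m := by
    rw [← norm_pow, ← norm_pow, ← h6, h5]
  have h8 : ‖mult n c' (β c')‖ ^ m ≤ r ^ m := pow_le_pow_left₀ (norm_nonneg _) hc1.le m
  linarith

/-- **One non-repelling cycle** (in the presence of an attracting one): if `x` is attracting and
the multiplier of `y` has modulus at most `1`, then `y` is in the orbit of `x`. -/
theorem one_nonrepelling {c x y : ℂ} {n m : ℕ} (hn : 0 < n) (hm : 0 < m) (hx : it c n x = x)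
    (hxm : ‖mult n c x‖ < 1) (hy : it c m y = y) (hym : ‖mult m c y‖ ≤ 1) :
    ∃ i, it c i x = y :=
  one_nonrepelling_ne hn hm hx hxm hy hym (no_parabolic hn hm hx hxm hy)

/-- every other periodic point is repelling -/
theorem other_repelling {c x y : ℂ} {n m : ℕ} (hn : 0 < n) (hm : 0 < m) (hx : it c n x = x)
    (hxm : ‖mult n c x‖ < 1) (hy : it c m y = y) (hxy : ∀ i, it c i x ≠ y) :
    1 < ‖mult m c y‖ := by
  by_contra h
  push Not at h
  obtain ⟨i, hi⟩ := one_nonrepelling hn hm hx hxm hy h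
  exact hxy i hi

end One49

/-- S7 in the form of the satellite project -/
theorem fatou (c x y : ℂ) (n k : ℕ) (hn : 0 < n) (hk : 0 < k) (hx : it c n x = x)
    (hxm : ‖mul n (c, x)‖ < 1) (hy : it c k y = y) (hym : ‖mul k (c, y)‖ < 1) :
    ∃ i, y = it c i x := by
  obtain ⟨i, hi⟩ := One49.one_attracting hn hk hx hxm hy hym
  exact ⟨i, hi.symm⟩

end Pool.Agent.Work.MLC
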