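import Pool.Agent.Work.MLC.Sat3
import Pool.Agent.Work.MLC.Sat7

set_option autoImplicit false

/-! # S8: no collision inside `NJ` (helper69)

`Rt n y r`: `r` is the fractional part of the rotation number of the pair `y`. It is unique, exists
for all pairs of non-integer rotation, is constant near the pairs over `MM` and continuous at the
exterior pairs; near a neutral pair it tends to the rotation number of that pair. If pairs of
`NJ n J` accumulate at a pair of multiplier one, then, by openness and properness of the multiplier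
on the pairs of `NJ n J` of one type (`r < 1 / 2`, `r = 1 / 2`, `r > 1 / 2`), such pairs exist over
all of a small half disc, with limits over both halves of the imaginary axis: contradiction. -/

namespace Pool.Agent.Work.MLC

open Filter Topology Metric Set Complex
open Pool.Agent.MLC (InHalf Portrait Linked)

namespace Sat

/-! ### the fractional part of the rotation number -/

/-- all fitting angles and words of one portrait have the same rotation number modulo one -/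
theorem nu_wd {n : ℕ} (hn : 0 < n) {c b : ℂ} {B : Set ℝ} (hF : Fam n c b B)
    (hP : Portrait n (port c b B)) {θ θ' : ℝ} {w w' : ℕ → ℤ} (hw : Bits n w) (hw' : Bits n w')
    (h : Fits c b B θ w) (h' : Fits c b B θ' w') :
    Int.fract (Circ.nu w n θ) = Int.fract (Circ.nu w' n θ') := by
  obtain ⟨s, t, hst, -, -, ⟨v, hv, hvI⟩, hall⟩ := hP.arc_word hn
  have hvB : Bits n v := by
    have h : Fits c b B ((s + t) / 2) v := fun i => hvI i _ ⟨by linarith, by linarith⟩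
    exact bits_of_inHalf hF hP hv h
  have key : ∀ (θ : ℝ) (w : ℕ → ℤ), Bits n w → Fits c b B θ w →
      ∃ k : ℤ, θ + k ∈ Ioo s t ∧ Int.fract (Circ.nu v n (θ + k)) = Int.fract (Circ.nu w n θ) := by
    intro θ w hw h
    obtain ⟨k, hk1, hk2⟩ := hall θ fun i => ⟨w i, h i⟩
    have hev : ∀ i, Even (v i - w i - k) := fun i => by
      have h1 := (h i).shift k
      have h2 := hvI i (θ + k) ⟨hk1, hk2⟩
      obtain ⟨j, hj⟩ := InHalf.unique (port_nonempty hF i) h1 h2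
      exact ⟨j - k, by omega⟩
    refine ⟨k, ⟨hk1, hk2⟩, ?_⟩
    obtain ⟨j, hj⟩ := nu_parity hev n
    rw [hj (θ + k)]
    have e1 : (θ + k + k : ℝ) = θ + 2 * k := by ring
    have e2 : (n : ℝ) * k = ((n * k : ℤ) : ℝ) := by push_cast; ring
    rw [e1, nu_add_even, Int.fract_add_intCast, e2, Int.fract_add_intCast]
  have hconst : ∀ x ∈ Ioo s t, ∀ y ∈ Ioo s t, x ≤ y → Circ.nu v n x = Circ.nu v n y := by
    intro x hx y hy hxy
    obtain ⟨β, hβ, q, hq, hpq⟩ := hF.two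
    have hrat : ∀ z ∈ Ioo s t, ∃ P : ℤ, Circ.nu v n z = P / q := fun z hz => by
      have hfx : Fits c b B z v := fun i => hvI i z hz
      obtain ⟨P, -, hP⟩ := nu_of_compat hpq hvB.per (hfx.compat hβ (hF.land β hβ))
      exact ⟨P, hP⟩
    by_contra hne
    have hlt : Circ.nu v n x < Circ.nu v n y := lt_of_le_of_ne (Circ.nu_mono v n hxy) hne
    obtain ⟨P, hPx⟩ := hrat x hx
    obtain ⟨P', hPy⟩ := hrat y hy
    have hq0 : (0 : ℝ) < q := by exact_mod_cast (by omega : 0 < q)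
    have h1 : (P : ℝ) < P' := by
      rw [hPx, hPy] at hlt; exact (div_lt_div_iff_of_pos_right hq0).1 hlt
    have h2 : P + 1 ≤ P' := by exact_mod_cast h1
    have h2' : (P : ℝ) + 1 ≤ P' := by exact_mod_cast h2
    have h3 : ((P : ℝ) + 1 / 2) / q ∈ Icc (Circ.nu v n x) (Circ.nu v n y) := by
      rw [hPx, hPy]
      constructor
      · exact div_le_div_of_nonneg_right (by linarith) hq0.le
      · exact div_le_div_of_nonneg_right (by linarith) hq0.le
    obtain ⟨z, hz, hz2⟩ := intermediate_value_Icc hxy (Circ.nu_continuous v n).continuousOn h3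
    obtain ⟨P'', hPz⟩ := hrat z ⟨hx.1.trans_le hz.1, hz.2.trans_lt hy.2⟩
    rw [hPz, div_left_inj' hq0.ne'] at hz2
    have h5 : (2 * P'' : ℝ) = 2 * P + 1 := by linarith
    have h6 : (2 * P'' : ℤ) = 2 * P + 1 := by exact_mod_cast h5
    omega
  obtain ⟨k, hk, hk2⟩ := key θ w hw h
  obtain ⟨k', hk', hk2'⟩ := key θ' w' hw' h'
  rw [← hk2, ← hk2']
  rcases le_total (θ + k) (θ' + k') with h1 | h1
  · rw [hconst _ hk _ hk' h1]
  · rw [hconst _ hk' _ hk h1]

/-- `r` is the fractional part of the rotation number of the pair `y` -/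
def Rt (n : ℕ) (y : ℂ × ℂ) (r : ℝ) : Prop :=
  (∃ θ w, ExtP n y.1 y.2 θ w ∧ Int.fract (Circ.nu w n θ) = r) ∨
  (G y.1 0 = 0 ∧ ∃ B θ w, Fam n y.1 y.2 B ∧ Bits n w ∧ Fits y.1 y.2 B θ w ∧
    Int.fract (Circ.nu w n θ) = r)

lemma extP_G_ne {n : ℕ} {c b : ℂ} {θ : ℝ} {w : ℕ → ℤ} (h : ExtP n c b θ w) : G c 0 ≠ 0 := by
  have h2 := h.1
  rw [G_c_eq] at h2
  intro h3; rw [h3] at h2; simp at h2

theorem Rt.unique {n : ℕ} (hn : 0 < n) {y : ℂ × ℂ} (hy : y ∈ Per n) (hρ : 1 < ‖mul n y‖)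
    {r r' : ℝ} (h : Rt n y r) (h' : Rt n y r') : r = r' := by
  obtain ⟨c, b⟩ := y
  rcases h with ⟨θ, w, hE, rfl⟩ | ⟨hM, B, θ, w, hF, hw, hf, rfl⟩
  · rcases h' with ⟨θ', w', hE', rfl⟩ | ⟨hM', -⟩
    · obtain ⟨m, h1, h2⟩ := extP_unique hE hE'
      obtain ⟨j, hj⟩ := nu_parity h2 n
      have h3 := hj θ'
      have h4 : θ' + m = θ + 2 * m := by rw [h1]; ring
      have e2 : (n : ℝ) * m = ((n * m : ℤ) : ℝ) := by push_cast; ring
      rw [h3, h4, nu_add_even, Int.fract_add_intCast, e2, Int.fract_add_intCast]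
    · exact absurd hM' (extP_G_ne hE)
  · rcases h' with ⟨θ', w', hE', rfl⟩ | ⟨-, B', θ', w', hF', hw', hf', rfl⟩
    · exact absurd hM (extP_G_ne hE')
    · have hport : ∀ B, Fam n c b B → Portrait n (port c b B) := fun B hB =>
        portHyp hn _ _ _ hM hy hρ hB
      obtain ⟨φ, v, hv, hφ⟩ := exists_fits hn (hF.union hF') (hport _ (hF.union hF'))
      rw [nu_wd hn hF (hport _ hF) hw hv hf (hφ.mono subset_union_left),
        nu_wd hn hF' (hport _ hF') hw' hv hf' (hφ.mono subset_union_right)]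

lemma pos_of_G_ne {c : ℂ} (h : G c 0 ≠ 0) : 0 < G c c := by
  rw [G_c_eq]
  have := lt_of_le_of_ne (G_nonneg c 0) (Ne.symm h)
  linarith

theorem exists_Rt {n : ℕ} (hn : 0 < n) {y : ℂ × ℂ} (hy : y ∈ Per n) (hρ : 1 < ‖mul n y‖)
    (hN : NonInt n y) : ∃ r, Rt n y r := by
  obtain ⟨c, b⟩ := y
  by_cases hM : G c 0 = 0
  · obtain ⟨β, q, hq, hland⟩ := hN.1 hM
    have hF := hland.fam hM hq
    obtain ⟨θ, v, hv, hf⟩ := exists_fits hn hF (portHyp hn _ _ _ hM hy hρ hF)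
    exact ⟨_, Or.inr ⟨hM, _, θ, v, hF, hv, hf, rfl⟩⟩
  · obtain ⟨θ, hθ⟩ := exists_ang (pos_of_G_ne hM)
    obtain ⟨w, hw⟩ := exists_extP_word hn hθ hy
    exact ⟨_, Or.inl ⟨θ, w, hw, rfl⟩⟩

/-- continuity of the rotation number; it is constant near the pairs over `MM` -/
theorem Rt_nhds {n : ℕ} (hn : 0 < n) {y₀ : ℂ × ℂ} (hy : y₀ ∈ Per n) (hρ : 1 < ‖mul n y₀‖)
    (hN : NonInt n y₀) {r : ℝ} (h : Rt n y₀ r) {ε : ℝ} (hε : 0 < ε) :
    ∀ᶠ y in 𝓝 y₀, y ∈ Per n → ∃ r', |r' - r| < ε ∧ Rt n y r' ∧ (G y₀.1 0 = 0 → r' = r) := by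
  obtain ⟨c₀, b₀⟩ := y₀
  rcases h with ⟨θ₀, w, hE, rfl⟩ | ⟨hM, B, θ, w, hF, hw, hfit, rfl⟩
  · have hν := hN.2 θ₀ w hE
    set k := ⌊Circ.nu w n θ₀⌋ with hk
    have h1 : (k : ℝ) < Circ.nu w n θ₀ :=
      lt_of_le_of_ne (Int.floor_le _) fun h => hν k h.symm
    have h2 : Circ.nu w n θ₀ < k + 1 := Int.lt_floor_add_one _
    have hcc : ∀ᶠ θ in 𝓝 θ₀, ((k : ℝ) < Circ.nu w n θ ∧ Circ.nu w n θ < k + 1) ∧
        |Circ.nu w n θ - Circ.nu w n θ₀| < ε := by
      have h3 := (Circ.nu_continuous w n).tendsto θ₀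
      refine (h3.eventually (Ioo_mem_nhds h1 h2)).and ?_
      have h4 := h3.eventually (Metric.ball_mem_nhds _ hε)
      filter_upwards [h4] with θ h5
      rwa [Real.dist_eq] at h5
    obtain ⟨δ, hδ, hδ'⟩ := Metric.eventually_nhds_iff_ball.1 hcc
    filter_upwards [extP_nhds hn hE hδ] with x h3 hx
    obtain ⟨θ, hθ, hE'⟩ := h3 hx
    obtain ⟨⟨h4, h5⟩, h6⟩ := hδ' θ (by rw [mem_ball, Real.dist_eq]; exact hθ)
    refine ⟨_, ?_, Or.inl ⟨θ, w, hE', rfl⟩, fun hM => absurd hM (extP_G_ne hE)⟩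
    have e1 : Int.fract (Circ.nu w n θ) = Circ.nu w n θ - k := by
      rw [Int.fract_eq_iff]
      exact ⟨by linarith, by linarith, k, by ring⟩
    have e2 : Int.fract (Circ.nu w n θ₀) = Circ.nu w n θ₀ - k := by
      rw [Int.fract_eq_iff]
      exact ⟨by linarith, by linarith, k, by ring⟩
    rw [e1, e2]
    have e3 : Circ.nu w n θ - k - (Circ.nu w n θ₀ - k) = Circ.nu w n θ - Circ.nu w n θ₀ := by ring
    rw [e3]; exact h6
  · filter_upwards [port_nhds hn hM hy hρ hF] with x hx hxn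
    obtain ⟨hFx, hpx⟩ := hx hxn
    refine ⟨_, by simpa using hε, ?_, fun _ => rfl⟩
    by_cases hG : G x.1 0 = 0
    · exact Or.inr ⟨hG, B, θ, w, hFx, hw, fun i => by rw [hpx i]; exact hfit i, rfl⟩
    · have hc : 0 < G x.1 x.1 := pos_of_G_ne hG
      obtain ⟨θ', hθ⟩ := exists_ang hc
      obtain ⟨w', hw'⟩ := exists_extP_word hn hθ hxn
      refine Or.inl ⟨θ', w', hw', ?_⟩
      refine nu_wd hn hF (portHyp hn _ _ _ hM hy hρ hF) hw'.2.2.2.1 hw ?_ hfit
      intro i a ha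
      rw [← hpx i] at ha
      obtain ⟨k, h1, h2⟩ := inHalfO_of_side hc hw'.2.1 (hw'.2.2.2.2 i) ha.2
      refine ⟨-k, ?_, ?_⟩ <;> push_cast <;> linarith

/-- near a neutral pair the rotation number is close to the rotation number of that pair -/
theorem Rt_neutral {n : ℕ} (hn : 0 < n) {x : ℂ × ℂ} {φ : ℝ} (hx : x ∈ Per n) (h0 : 0 < φ)
    (h1 : φ < 1) (hm : mul n x = exp (2 * Real.pi * φ * I)) {U : Set ℝ} (hU : IsOpen U)
    (hφ : φ ∈ U) : ∀ᶠ y in 𝓝 x, y ∈ Per n → 1 < ‖mul n y‖ → ∃ r ∈ U, Rt n y r := by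
  obtain ⟨⟨J, hJ⟩, hnu, hext⟩ := s3_neutral n x φ hn hx h0 h1 hm
  obtain ⟨D, σ, hDc, hG, hL₀, hσ, hσ', hσ0, -⟩ := neutral_data hn hx h0 h1 hm
  obtain ⟨ε, hε, hεU⟩ := Metric.isOpen_iff.1 hU φ hφ
  set L₀ : ℂ := 2 * Real.pi * φ * I with hL₀def
  have hL₀re : L₀.re = 0 := by simp [hL₀def]
  have hm0 : mul n x ≠ 0 := by rw [hm]; exact exp_ne_zero _
  have hD : D ∈ 𝓝 L₀ := hG.isOpen.mem_nhds hL₀
  have hσc : ContinuousAt σ L₀ := hσ.continuousAt hD
  -- the local logarithm of the multiplier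
  set ℓ : ℂ × ℂ → ℂ := fun y => Complex.log (mul n y / mul n x) + L₀ with hℓ
  have hℓc : ContinuousAt ℓ x := by
    have h2 : ContinuousAt (fun y => mul n y / mul n x) x := by
      have := (continuous_mul' n).continuousAt (x := x)
      exact this.div_const _
    have h3 : ContinuousAt (fun y => Complex.log (mul n y / mul n x)) x :=
      h2.clog (by simp only [div_self hm0]; exact one_mem_slitPlane)
    exact h3.add continuousAt_const
  have hℓx : ℓ x = L₀ := by simp [hℓ, div_self hm0]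
  have hℓe : ∀ᶠ y in 𝓝 x, exp (ℓ y) = mul n y := by
    have h2 : ∀ᶠ y in 𝓝 x, mul n y ≠ 0 :=
      (continuous_mul' n).continuousAt.eventually_ne hm0
    filter_upwards [h2] with y hy
    simp only [hℓ]
    rw [exp_add, exp_log (div_ne_zero hy hm0), ← hm, div_mul_cancel₀ _ hm0]
  have hℓt : Tendsto ℓ (𝓝 x) (𝓝 L₀) := by rw [← hℓx]; exact hℓc
  -- a small half disc
  have hσt : Tendsto σ (𝓝 L₀) (𝓝 x) := by rw [← hσ0]; exact hσc
  have hev : ∀ᶠ L in 𝓝 L₀, L ∈ D ∧ (∀ θ w, ExtP n (σ L).1 (σ L).2 θ w →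
      |Int.fract (Circ.nu w n θ) - φ| < ε) ∧
      (σ L ∈ Per n → 1 < ‖mul n (σ L)‖ → σ L ∈ NJ n J) := by
    filter_upwards [hD, hσt.eventually (hnu ε hε), hσt.eventually hJ] with L h2 h3 h4
    exact ⟨h2, h3, h4⟩
  obtain ⟨ρ, hρ, hball⟩ := Metric.eventually_nhds_iff_ball.1 hev
  set S : Set ℂ := ball L₀ ρ ∩ {L : ℂ | 0 < L.re} with hS
  have hSc : Convex ℝ S := (convex_ball _ _).inter (convex_halfSpace_re_gt 0)
  have hSJ : ∀ L ∈ S, σ L ∈ NJ n J := by
    intro L hL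
    obtain ⟨h2, -, h3⟩ := hball L hL.1
    obtain ⟨h4, h5⟩ := hσ' L h2
    refine h3 h4 ?_
    rw [h5, norm_exp]; exact Real.one_lt_exp_iff.2 hL.2
  have hSε : ∀ L ∈ S, ∀ r, Rt n (σ L) r → G (σ L).1 0 ≠ 0 → r ∈ U := by
    rintro L hL r (⟨θ, w, hE, rfl⟩ | ⟨hM, -⟩) hG
    · refine hεU ?_
      rw [mem_ball, Real.dist_eq]
      exact (hball L hL.1).2.1 θ w hE
    · exact absurd hM hG
  have hlc : ∀ L ∈ S, ∀ᶠ L' in 𝓝 L, L' ∈ S →
      ((∃ r ∈ U, Rt n (σ L') r) ↔ ∃ r ∈ U, Rt n (σ L) r) := by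
    intro L hL
    have hLJ := hSJ L hL
    obtain ⟨r, hr⟩ := exists_Rt hn hLJ.1 hLJ.2.1 hLJ.2.2.1
    have h3 : ContinuousAt σ L := hσ.continuousAt (hG.isOpen.mem_nhds (hball L hL.1).1)
    by_cases hM : G (σ L).1 0 = 0
    · filter_upwards [h3.eventually (Rt_nhds hn hLJ.1 hLJ.2.1 hLJ.2.2.1 hr one_pos)] with L' h4 hL'
      obtain ⟨r', -, h5, h6⟩ := h4 (hSJ L' hL').1
      have h7 : r' = r := h6 hM
      subst h7
      constructor
      · rintro ⟨r₁, hr₁, h8⟩
        exact ⟨r₁, hr₁, by rw [h8.unique hn (hSJ L' hL').1 (hSJ L' hL').2.1 h5]; exact hr⟩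
      · rintro ⟨r₁, hr₁, h8⟩
        exact ⟨r₁, hr₁, by rw [h8.unique hn hLJ.1 hLJ.2.1 hr]; exact h5⟩
    · have hrU := hSε L hL r hr hM
      obtain ⟨δ, hδ, hδU⟩ := Metric.isOpen_iff.1 hU r hrU
      filter_upwards [h3.eventually (Rt_nhds hn hLJ.1 hLJ.2.1 hLJ.2.2.1 hr hδ)] with L' h4 hL'
      obtain ⟨r', h5, h6, -⟩ := h4 (hSJ L' hL').1
      refine iff_of_true ⟨r', hδU ?_, h6⟩ ⟨r, hrU, hr⟩
      rw [mem_ball, Real.dist_eq]; exact h5
  have : PreconnectedSpace S := isPreconnected_iff_preconnectedSpace.1 hSc.isPreconnected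
  have hlc2 : IsLocallyConstant fun L : S => ∃ r ∈ U, Rt n (σ L) r := by
    rw [IsLocallyConstant.iff_eventually_eq]
    intro L
    have h5 := continuous_subtype_val.continuousAt.eventually (hlc L L.2)
    filter_upwards [h5] with L' h6
    exact propext (h6 L'.2)
  -- the inverse of the section
  obtain ⟨N, hN, hinj⟩ := hG.inj x hx L₀ hL₀ hm
  have hinv : ∀ᶠ y in 𝓝 x, y ∈ Per n → 1 < ‖mul n y‖ → ℓ y ∈ S ∧ σ (ℓ y) = y := by
    filter_upwards [hℓe, hN, hℓt.eventually (ball_mem_nhds L₀ hρ),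
      (hσt.comp hℓt).eventually hN] with y h2 h3 h4 h5 hy hρy
    have h6 : 0 < (ℓ y).re := by
      rw [← h2, norm_exp] at hρy
      exact Real.one_lt_exp_iff.1 hρy
    have h7 := hσ' (ℓ y) (hball _ h4).1
    exact ⟨⟨h4, h6⟩, hinj ⟨h5, h7.1⟩ ⟨h3, hy⟩ (h7.2.trans h2)⟩
  -- an exterior pair
  have hm1 : mul n x ≠ 1 := by
    rw [hm]
    intro h2
    obtain ⟨k, hk⟩ := exp_eq_one_iff.1 h2
    have h3 : (φ : ℂ) = k := by
      have h4 : (2 * Real.pi * I : ℂ) ≠ 0 := two_pi_I_ne_zero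
      have h5 : (2 * Real.pi * I : ℂ) * φ = (2 * Real.pi * I : ℂ) * k := by
        linear_combination hk
      exact mul_left_cancel₀ h4 h5
    have h4 : φ = k := by exact_mod_cast h3
    rw [h4] at h0 h1
    have h5 : (0 : ℤ) < k := by exact_mod_cast h0
    have h6 : k < (1 : ℤ) := by exact_mod_cast h1
    omega
  obtain ⟨β, hβ, hβ0, hβe⟩ := chart hx hm1
  have hβt := chart_tendsto hβ hβ0
  obtain ⟨c, hc, h2, h3⟩ := (hext.and_eventually
    ((hβt.eventually hβe).and (hβt.eventually hinv))).exists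
  have hcP : ((c, β c) : ℂ × ℂ) ∈ Per n := h2.2 rfl
  have hcG : G c 0 ≠ 0 := fun h => hc (mem_M_iff.2 h)
  have hcm : 1 < ‖mul n (c, β c)‖ := one_lt_norm_mult_of_ext hn (pos_of_G_ne hcG) hcP
  obtain ⟨hS1, hS2⟩ := h3 hcP hcm
  have hP1 : ∃ r ∈ U, Rt n (σ (ℓ (c, β c))) r := by
    obtain ⟨r, hr⟩ := exists_Rt hn (hSJ _ hS1).1 (hSJ _ hS1).2.1 (hSJ _ hS1).2.2.1
    refine ⟨r, hSε _ hS1 r hr ?_, hr⟩
    rw [hS2]; exact hcG
  filter_upwards [hinv] with y hy hyP hyρ
  obtain ⟨h4, h5⟩ := hy hyP hyρ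
  have h6 := hlc2.apply_eq_of_preconnectedSpace ⟨ℓ y, h4⟩ ⟨_, hS1⟩
  simp only at h6
  have h7 : ∃ r ∈ U, Rt n (σ (ℓ y)) r := by rw [h6]; exact hP1
  rwa [h5] at h7

/-! ### filling -/

/-- a bounded part of the curve, open in the curve and relatively closed over `B`, covers `B` -/
theorem fill {n : ℕ} (hn : 0 < n) {B : Set ℂ} (hBc : IsPreconnected B)
    (h1 : ∀ L ∈ B, exp L ≠ 1) (h2 : ∀ L ∈ B, ‖exp L‖ < 23 / 10)
    {A : Set (ℂ × ℂ)} (hA : A ⊆ Per n) (hbd : Bornology.IsBounded A)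
    (hopen : ∀ y ∈ A, ∀ L ∈ B, mul n y = exp L → ∀ᶠ y' in 𝓝 y, y' ∈ Per n → y' ∈ A)
    (hclosed : ∀ y ∈ closure A, ∀ L ∈ B, mul n y = exp L → y ∈ A)
    {y₀ : ℂ × ℂ} (hy₀ : y₀ ∈ A) {L₀ : ℂ} (hL₀ : L₀ ∈ B) (hm₀ : mul n y₀ = exp L₀) :
    ∀ L ∈ B, ∃ y ∈ A, mul n y = exp L := by
  set S : Set ℂ := {L | ∃ y ∈ A, mul n y = exp L} with hS
  have hK : IsCompact (closure A) := hbd.isCompact_closure
  have hKm : IsClosed (mul n '' closure A) := (hK.image (continuous_mul' n)).isClosed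
  have hop : ∀ L ∈ B, L ∈ S → ∀ᶠ L' in 𝓝 L, L' ∈ S := by
    rintro L hL ⟨y, hy, hm⟩
    have h3 := mul_open hn (hA hy) (by rw [hm]; exact h1 L hL) (by rw [hm]; exact h2 L hL)
      (hopen y hy L hL hm)
    rw [hm] at h3
    filter_upwards [Complex.continuous_exp.continuousAt.eventually h3] with L' hL'
    obtain ⟨x', ⟨hx'1, hx'2⟩, hx'3⟩ := hL'
    exact ⟨x', hx'1 hx'2, hx'3⟩
  have hcl : ∀ L ∈ B, L ∈ closure S → L ∈ S := by
    intro L hL hcl
    have h3 : exp L ∈ closure (exp '' S) :=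
      image_closure_subset_closure_image continuous_exp ⟨L, hcl, rfl⟩
    have h4 : exp '' S ⊆ mul n '' closure A := by
      rintro _ ⟨L', ⟨y, hy, hm⟩, rfl⟩
      exact ⟨y, subset_closure hy, hm⟩
    obtain ⟨y, hy, hm⟩ := (closure_minimal h4 hKm) h3
    exact ⟨y, hclosed y hy L hL hm, hm⟩
  intro L hL
  by_contra hcon
  have hpre := hBc (interior S) (closure S)ᶜ isOpen_interior isClosed_closure.isOpen_compl
    (by
      intro L' hL'
      by_cases h : L' ∈ closure S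
      · left
        exact mem_interior_iff_mem_nhds.2 (hop L' hL' (hcl L' hL' h))
      · exact Or.inr h)
    ⟨L₀, hL₀, mem_interior_iff_mem_nhds.2 (hop L₀ hL₀ ⟨y₀, hy₀, hm₀⟩)⟩
    ⟨L, hL, fun h => hcon (hcl L hL h)⟩
  obtain ⟨z, -, hz1, hz2⟩ := hpre
  exact hz2 (subset_closure (interior_subset hz1))

/-- finitely many pairs of the curve have a given multiplier -/
theorem finite_mul {n : ℕ} (hn : 0 < n) (l : ℂ) : {y | y ∈ Per n ∧ mul n y = l}.Finite := by
  have h1 : {c : ℂ | (Cnt.Rp n l).eval c = 0}.Finite :=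
    Polynomial.finite_setOfPred_isRoot (Cnt.Rp_ne_zero hn l)
  have h2 : (⋃ c ∈ {c : ℂ | (Cnt.Rp n l).eval c = 0},
      (fun b => ((c, b) : ℂ × ℂ)) '' {b | b ∈ (Cnt.fx c n).roots.toFinset}).Finite := by
    refine h1.biUnion fun c _ => ?_
    exact (Finset.finite_toSet _).image _
  refine h2.subset ?_
  rintro ⟨c, b⟩ ⟨hP, hm⟩
  have hb : b ∈ (Cnt.fx c n).roots := (Cnt.mem_roots_fx hn).2 hP
  refine mem_biUnion (x := c) ?_ ⟨b, Multiset.mem_toFinset.2 hb, rfl⟩
  show (Cnt.Rp n l).eval c = 0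
  rw [Cnt.eval_Rp hn, Multiset.prod_eq_zero_iff]
  exact Multiset.mem_map.2 ⟨b, hb, by rw [hm, sub_self]⟩

/-- **S8** -/
theorem s8_side : S8_side := by
  intro n J x N hn hx hm hN hcl
  by_contra hcon
  have hfreq : ∃ᶠ y in 𝓝 x, y ∈ NJ n J := fun h => hcon h
  have hn' : (1 : ℝ) ≤ n := by exact_mod_cast hn
  -- the closed ball
  obtain ⟨R, hR, hRN, hR1⟩ : ∃ R > 0, closedBall x R ⊆ N ∧
      ∀ y ∈ closedBall x R, y ∈ Per n → mul n y = 1 → y = x := by
    have hfin : ({y | y ∈ Per n ∧ mul n y = 1} \ {x}).Finite := (finite_mul hn 1).sdiff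
    have h1 : ({y | y ∈ Per n ∧ mul n y = 1} \ {x})ᶜ ∈ 𝓝 x :=
      hfin.isClosed.isOpen_compl.mem_nhds (by simp)
    obtain ⟨R, hR, hball⟩ := Metric.nhds_basis_closedBall.mem_iff.1 (Filter.inter_mem hN h1)
    refine ⟨R, hR, fun y hy => (hball hy).1, fun y hy hyP hy1 => ?_⟩
    by_contra hne
    exact (hball hy).2 ⟨⟨hyP, hy1⟩, hne⟩
  -- the multiplier on the sphere
  obtain ⟨δ, hδ, hδs⟩ : ∃ δ > 0, ∀ y ∈ sphere x R, y ∈ Per n → δ ≤ ‖mul n y - 1‖ := by
    have hK : IsCompact (sphere x R ∩ Per n) := (isCompact_sphere x R).inter_right (isClosed_Per n)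
    rcases (sphere x R ∩ Per n).eq_empty_or_nonempty with he | hne
    · refine ⟨1, one_pos, fun y hy hyP => ?_⟩
      have : y ∈ sphere x R ∩ Per n := ⟨hy, hyP⟩
      rw [he] at this
      exact this.elim
    · obtain ⟨z, hz, hmin⟩ := hK.exists_isMinOn hne
        (((continuous_mul' n).sub continuous_const).norm.continuousOn (f := fun y => ‖mul n y - 1‖))
      refine ⟨‖mul n z - 1‖, ?_, fun y hy hyP => hmin ⟨hy, hyP⟩⟩
      rw [gt_iff_lt, norm_pos_iff, sub_ne_zero]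
      intro h1
      have h2 := hR1 z (sphere_subset_closedBall hz.1) hz.2 h1
      have h3 := hz.1
      rw [h2, mem_sphere, dist_self] at h3
      linarith
  -- the small half disc
  obtain ⟨ε, hε, hε1, hεn, hεb⟩ : ∃ ε : ℝ, 0 < ε ∧ ε ≤ 1 ∧ 81 * n * ε ≤ 1 ∧
      ∀ L : ℂ, ‖L‖ < ε → ‖exp L - 1‖ < δ ∧ ‖exp L‖ < 23 / 10 := by
    have h1 : ∀ᶠ L in 𝓝 (0 : ℂ), ‖exp L - 1‖ < δ ∧ ‖exp L‖ < 23 / 10 := by
      have h2 : Continuous fun L : ℂ => ‖exp L - 1‖ := by fun_prop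
      have h3 : Continuous fun L : ℂ => ‖exp L‖ := by fun_prop
      refine (h2.continuousAt.eventually (gt_mem_nhds ?_)).and
        (h3.continuousAt.eventually (gt_mem_nhds ?_))
      · simpa using hδ
      · simp; norm_num
    obtain ⟨ε, hε, hb⟩ := Metric.eventually_nhds_iff_ball.1 h1
    refine ⟨min ε (1 / (81 * n)), by positivity, ?_, ?_, fun L hL => hb L ?_⟩
    · refine (min_le_right _ _).trans ?_
      rw [div_le_one (by positivity)]
      linarith
    · have h2 := min_le_right ε (1 / (81 * (n : ℝ)))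
      calc 81 * n * min ε (1 / (81 * (n : ℝ))) ≤ 81 * n * (1 / (81 * (n : ℝ))) := by gcongr
        _ = 1 := by field_simp
    · rw [mem_ball_zero_iff]
      exact hL.trans_le (min_le_left _ _)
  set B : Set ℂ := ball 0 ε ∩ {L : ℂ | 0 < L.re} with hB
  have hBc : IsPreconnected B :=
    ((convex_ball _ _).inter (convex_halfSpace_re_gt 0)).isPreconnected
  have hBn : ∀ L ∈ B, ‖L‖ < ε := fun L hL => mem_ball_zero_iff.1 hL.1
  have hBe : ∀ L ∈ B, 1 < ‖exp L‖ := by
    intro L hL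
    rw [norm_exp]; exact Real.one_lt_exp_iff.2 hL.2
  -- the type is locally constant
  have hloc : ∀ y ∈ NJ n J, ∀ L ∈ B, mul n y = exp L → ∀ r, Rt n y r →
      ∀ᶠ y' in 𝓝 y, y' ∈ Per n → ∃ r', Rt n y' r' ∧
        SignType.sign (r' - 1 / 2) = SignType.sign (r - 1 / 2) := by
    intro y hy L hL hmL r hr
    by_cases hG : G y.1 0 = 0
    · filter_upwards [Rt_nhds hn hy.1 hy.2.1 hy.2.2.1 hr one_pos] with y' h1 h2
      obtain ⟨r', -, h3, h4⟩ := h1 h2
      exact ⟨r', h3, by rw [h4 hG]⟩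
    · have hr2 : r ≠ 1 / 2 := by
        rcases hr with ⟨θ, w, hE, hr⟩ | ⟨hM, -⟩
        · intro hr2
          rw [hr2] at hr
          have h23 : ‖mul n y‖ < 23 / 10 := by rw [hmL]; exact (hεb L (hBn L hL)).2
          obtain ⟨-, l, hl, hply⟩ := extP_ply hn hE (G_le_four_of_mul_lt hn hE.2.2.1 h23)
          set ν := Circ.nu w n θ with hν
          have h6 : exp l = exp L := by rw [hl, ← hmL]; rfl
          rw [Complex.exp_eq_exp_iff_exists_int] at h6
          obtain ⟨m, hm'⟩ := h6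
          have h7 : l.re = L.re := by rw [hm']; simp
          have h8 : l.im = L.im + 2 * Real.pi * m := by rw [hm']; simp; ring
          have hLre : L.re < ε := (re_le_norm L).trans_lt (hBn L hL)
          have hLim : |L.im| < ε := (abs_im_le_norm L).trans_lt (hBn L hL)
          have h9 : |l.im - 2 * Real.pi * ν| ≤ 1 := by
            have h10 := abs_im_le_norm (l - 2 * Real.pi * (ν : ℂ) * I)
            have h11 : (l - 2 * Real.pi * (ν : ℂ) * I).im = l.im - 2 * Real.pi * ν := by simp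
            rw [h11] at h10
            refine h10.trans ?_
            refine le_of_sq_le_sq ?_ zero_le_one
            rw [one_pow]
            refine hply.trans ?_
            rw [h7]
            have : 81 * (n : ℝ) * L.re ≤ 81 * n * ε := by gcongr
            linarith
          have h12 : ν = ⌊ν⌋ + 1 / 2 := by
            have := Int.floor_add_fract ν
            linarith
          have h13 : |(⌊ν⌋ : ℝ) + 1 / 2 - m| < 1 / 2 := by
            have h14 : 2 * Real.pi * ((⌊ν⌋ : ℝ) + 1 / 2 - m) =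
                L.im - (l.im - 2 * Real.pi * ν) := by rw [h8, ← h12]; ring
            have h15 : 2 * Real.pi * |(⌊ν⌋ : ℝ) + 1 / 2 - m| ≤ |L.im| + |l.im - 2 * Real.pi * ν| := by
              have h16 := congrArg abs h14
              rw [abs_mul, abs_of_pos (by positivity)] at h16
              rw [h16]
              exact abs_sub _ _
            have := Real.pi_gt_three
            nlinarith [abs_nonneg ((⌊ν⌋ : ℝ) + 1 / 2 - m)]
          have h14 := abs_lt.1 h13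
          have h15 : (m : ℝ) < ⌊ν⌋ + 1 := by linarith
          have h16 : (⌊ν⌋ : ℝ) < m := by linarith
          have h17 : m < ⌊ν⌋ + 1 := by exact_mod_cast h15
          have h18 : ⌊ν⌋ < m := by exact_mod_cast h16
          omega
        · exact absurd hM hG
      have h0 : 0 < |r - 1 / 2| := abs_pos.2 (sub_ne_zero.2 hr2)
      filter_upwards [Rt_nhds hn hy.1 hy.2.1 hy.2.2.1 hr h0] with y' h1 h2
      obtain ⟨r', h3, h4, -⟩ := h1 h2
      refine ⟨r', h4, ?_⟩
      rcases lt_or_gt_of_ne hr2 with h5 | h5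
      · have h6 := abs_lt.1 h3
        rw [abs_of_neg (show r - 1 / 2 < 0 by linarith)] at h6
        rw [sign_neg (show r' - 1 / 2 < 0 by linarith [h6.2]),
          sign_neg (show r - 1 / 2 < 0 by linarith)]
      · have h6 := abs_lt.1 h3
        rw [abs_of_pos (show 0 < r - 1 / 2 by linarith)] at h6
        rw [sign_pos (show 0 < r' - 1 / 2 by linarith [h6.1]),
          sign_pos (show 0 < r - 1 / 2 by linarith)]
  -- the parts
  set A : SignType → Set (ℂ × ℂ) := fun s => {y | y ∈ ball x R ∧ y ∈ NJ n J ∧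
    ∃ r, Rt n y r ∧ SignType.sign (r - 1 / 2) = s} with hA
  have hAP : ∀ s, A s ⊆ Per n := fun s y hy => hy.2.1.1
  have hAb : ∀ s, Bornology.IsBounded (A s) := fun s => isBounded_ball.subset fun y hy => hy.1
  have hAcl : ∀ s, closure (A s) ⊆ closedBall x R := fun s =>
    closure_minimal (fun y hy => ball_subset_closedBall hy.1) isClosed_closedBall
  have hopen : ∀ s, ∀ y ∈ A s, ∀ L ∈ B, mul n y = exp L →
      ∀ᶠ y' in 𝓝 y, y' ∈ Per n → y' ∈ A s := by
    rintro s y ⟨hy1, hy2, r, hr, hs⟩ L hL hmL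
    filter_upwards [isOpen_ball.mem_nhds hy1, FF_nhds_gen hn hy2.1 hy2.2.1 hy2.2.2.1,
      (continuous_mul' n).norm.continuousAt.eventually (lt_mem_nhds hy2.2.1),
      hloc y hy2 L hL hmL r hr] with y' h1 h2 h3 h4 h5
    obtain ⟨r', h6, h7⟩ := h4 h5
    exact ⟨h1, ⟨h5, h3, (h2 h5).2, by rw [(h2 h5).1]; exact hy2.2.2.2⟩, r', h6, by rw [h7, hs]⟩
  have hnear : ∀ s, ∀ y ∈ closure (A s), ‖mul n y - 1‖ < δ → y ∈ ball x R := by
    intro s y hy h1
    have h2 := hAcl s hy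
    have h3 : y ∈ Per n := closure_minimal (hAP s) (isClosed_Per n) hy
    rw [mem_closedBall] at h2
    rw [mem_ball]
    refine lt_of_le_of_ne h2 fun h4 => ?_
    have := hδs y h4 h3
    linarith
  have hclosed : ∀ s, ∀ y ∈ closure (A s), ∀ L ∈ B, mul n y = exp L → y ∈ A s := by
    intro s y hy L hL hmL
    have h1 : y ∈ ball x R := hnear s y hy (by rw [hmL]; exact (hεb L (hBn L hL)).1)
    have h2 : y ∈ Per n := closure_minimal (hAP s) (isClosed_Per n) hy
    have h3 : y ∈ NJ n J := hcl y (hRN (hAcl s hy)) h2 (by rw [hmL]; exact hBe L hL)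
      (closure_mono (fun z hz => hz.2.1) hy)
    obtain ⟨r, hr⟩ := exists_Rt hn h3.1 h3.2.1 h3.2.2.1
    rw [mem_closure_iff_frequently] at hy
    obtain ⟨y', h4, h5⟩ := (hy.and_eventually (hloc y h3 L hL hmL r hr)).exists
    obtain ⟨r', h6, h7⟩ := h5 h4.2.1.1
    obtain ⟨r'', h8, h9⟩ := h4.2.2
    have h10 := h6.unique hn h4.2.1.1 h4.2.1.2.1 h8
    exact ⟨h1, h3, r, hr, by rw [← h7, h10, h9]⟩
  -- one part is nonempty
  obtain ⟨s, y₀, L₀, hy₀, hL₀, hm₀⟩ : ∃ s, ∃ y₀ L₀, y₀ ∈ A s ∧ L₀ ∈ B ∧ mul n y₀ = exp L₀ := by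
    have h1 : ∀ᶠ y in 𝓝 x, y ∈ ball x R := ball_mem_nhds x hR
    have h2 : Tendsto (fun y => Complex.log (mul n y)) (𝓝 x) (𝓝 0) := by
      have h3 : ContinuousAt (fun y => Complex.log (mul n y)) x :=
        (continuous_mul' n).continuousAt.clog (by rw [hm]; exact one_mem_slitPlane)
      have h4 := h3.tendsto
      rwa [hm, log_one] at h4
    obtain ⟨y, h3, h4, h5⟩ := (hfreq.and_eventually (h1.and
      (h2.eventually (ball_mem_nhds (0 : ℂ) hε)))).exists
    obtain ⟨r, hr⟩ := exists_Rt hn h3.1 h3.2.1 h3.2.2.1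
    have h6 : mul n y ≠ 0 := by
      intro h6
      have := h3.2.1
      rw [h6, norm_zero] at this
      linarith
    refine ⟨_, y, Complex.log (mul n y), ⟨h4, h3, r, hr, rfl⟩, ⟨h5, ?_⟩, (exp_log h6).symm⟩
    show 0 < (Complex.log (mul n y)).re
    rw [Complex.log_re]
    exact Real.log_pos h3.2.1
  have hfill := fill hn hBc (fun L hL h => by
    have := hBe L hL
    rw [h, norm_one] at this
    exact lt_irrefl _ this) (fun L hL => (hεb L (hBn L hL)).2) (hAP s) (hAb s) (hopen s)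
    (hclosed s) hy₀ hL₀ hm₀
  -- limits over the imaginary axis
  have hlim : ∀ t : ℝ, |t| < ε → ∃ y ∈ closure (A s), mul n y = exp (t * I) := by
    intro t ht
    have hK : IsCompact (closure (A s)) := (hAb s).isCompact_closure
    have hKm : IsClosed (mul n '' closure (A s)) := (hK.image (continuous_mul' n)).isClosed
    have h1 : (t * I : ℂ) ∈ closure B := by
      rw [mem_closure_iff_frequently]
      have h2 : Tendsto (fun u : ℝ => (t * I + u : ℂ)) (𝓝[>] 0) (𝓝 (t * I)) := by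
        have h3 : ContinuousAt (fun u : ℝ => (t * I + u : ℂ)) 0 := by fun_prop
        have h4 := h3.tendsto
        simp only [ofReal_zero, add_zero] at h4
        exact h4.mono_left nhdsWithin_le_nhds
      have h3 : ∀ᶠ u : ℝ in 𝓝[>] 0, (t * I + u : ℂ) ∈ B := by
        have h4 : (t * I : ℂ) ∈ ball (0 : ℂ) ε := by
          rw [mem_ball_zero_iff, norm_mul, norm_I, mul_one, norm_real]; exact ht
        filter_upwards [h2.eventually (isOpen_ball.mem_nhds h4), self_mem_nhdsWithin] with u h5 h6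
        refine ⟨h5, ?_⟩
        show 0 < (t * I + u : ℂ).re
        simpa using h6
      exact h2.frequently h3.frequently
    have h2 : exp (t * I) ∈ closure (exp '' B) :=
      image_closure_subset_closure_image continuous_exp ⟨_, h1, rfl⟩
    have h3 : exp '' B ⊆ mul n '' closure (A s) := by
      rintro _ ⟨L, hL, rfl⟩
      obtain ⟨y, hy, hmy⟩ := hfill L hL
      exact ⟨y, subset_closure hy, hmy⟩
    exact (closure_minimal h3 hKm) h2
  have hpi := Real.pi_gt_three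
  -- contradiction
  have hend : ∀ (φ : ℝ) (U : Set ℝ), 0 < φ → φ < 1 → IsOpen U → φ ∈ U →
      (∀ r ∈ U, SignType.sign (r - 1 / 2) ≠ s) →
      (∃ y ∈ closure (A s), mul n y = exp (2 * Real.pi * φ * I)) → False := by
    rintro φ U h0 h1 hU hφ hUs ⟨y, hy, hmy⟩
    have h2 : y ∈ Per n := closure_minimal (hAP s) (isClosed_Per n) hy
    rw [mem_closure_iff_frequently] at hy
    obtain ⟨z, h3, h4⟩ := (hy.and_eventually (Rt_neutral hn h2 h0 h1 hmy hU hφ)).exists
    obtain ⟨r, hr, h5⟩ := h4 h3.2.1.1 h3.2.1.2.1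
    obtain ⟨r', h6, h7⟩ := h3.2.2
    rw [h5.unique hn h3.2.1.1 h3.2.1.2.1 h6] at hr
    exact hUs r' hr h7
  set φ : ℝ := ε / (4 * Real.pi) with hφ
  have hφ0 : 0 < φ := by positivity
  have hφ1 : φ < 1 / 2 := by
    rw [hφ, div_lt_iff₀ (by positivity)]
    nlinarith
  have hφ2 : 2 * Real.pi * φ = ε / 2 := by rw [hφ]; field_simp; ring
  by_cases hs : s = -1
  · refine hend (1 - φ) (Ioi (1 / 2)) (by linarith) (by linarith) isOpen_Ioi
      (by show 1 / 2 < 1 - φ; linarith) (fun r hr => ?_) ?_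
    · have hr' : 1 / 2 < r := hr
      rw [sign_pos (by linarith), hs]
      decide
    · obtain ⟨y, hy, hmy⟩ := hlim (-(ε / 2)) (by
        rw [abs_neg, abs_of_pos (by linarith)]; linarith)
      refine ⟨y, hy, ?_⟩
      rw [hmy, Complex.exp_eq_exp_iff_exists_int]
      refine ⟨-1, ?_⟩
      rw [← hφ2]; push_cast; ring
  · refine hend φ (Iio (1 / 2)) hφ0 (by linarith) isOpen_Iio hφ1 (fun r hr => ?_) ?_
    · have hr' : r < 1 / 2 := hr
      rw [sign_neg (by linarith)]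
      exact fun h => hs h.symm
    · obtain ⟨y, hy, hmy⟩ := hlim (ε / 2) (by
        rw [abs_of_pos (by linarith)]; linarith)
      refine ⟨y, hy, ?_⟩
      rw [hmy]
      congr 2
      rw [← hφ2]; push_cast; ring

end Sat

end Pool.Agent.Work.MLC
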