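import Pool.Agent.Work.MLC.Tract51

set_option autoImplicit false

/-! # Satellites: the analytic core (helper4)

`K` is the multiplier of the bifurcating cycle as a function of `e = L₀ - 2 π i p₀ / q₀`, `L₀` the
logarithm of the multiplier of the parent cycle: holomorphic on `ball 0 R`, equal to `1` only at
`0`, bounded by `exp B`, with derivative of modulus at least one at `0`.
Then `exp L = K (E L)` has a univalent solution on a disc of radius `c R / (B + log (2 / R) + 1)`. -/

namespace Pool.Agent.Work.MLC.SatCore4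

open Metric Set Filter Topology

/-- `K - 1` is close to its linear part -/
theorem almost_linear {R B : ℝ} (hR : 0 < R) (hR1 : R ≤ 1) (hB : 0 ≤ B) {K : ℂ → ℂ}
    (hK : DifferentiableOn ℂ K (ball 0 R)) (hK0 : K 0 = 1)
    (hK1 : ∀ e ∈ ball (0 : ℂ) R, e ≠ 0 → K e ≠ 1)
    (hKB : ∀ e ∈ ball (0 : ℂ) R, ‖K e - 1‖ ≤ Real.exp B) (hd : 1 ≤ ‖deriv K 0‖)
    {T : ℝ} (hT : T = B + Real.log (2 / R) + 1) :
    ∀ e : ℂ, ‖e‖ ≤ R / (128 * T) → ‖K e - 1 - deriv K 0 * e‖ ≤ ‖deriv K 0‖ * ‖e‖ / 4 := by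
  have hlog : 0 < Real.log (2 / R) := Real.log_pos (by rw [lt_div_iff₀ hR]; linarith)
  have hT1 : 1 < T := by rw [hT]; linarith
  have hT0 : 0 < T := by linarith
  set a := deriv K 0 with ha
  have ha0 : 0 < ‖a‖ := by linarith
  -- the quotient
  set u : ℂ → ℂ := dslope K 0 with hu
  have hball : ball (0 : ℂ) R ∈ 𝓝 (0 : ℂ) := ball_mem_nhds _ hR
  have hud : DifferentiableOn ℂ u (ball 0 R) := (Complex.differentiableOn_dslope hball).2 hK
  have hu0 : u 0 = a := by rw [hu, dslope_same]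
  have hue : ∀ e : ℂ, e * u e = K e - 1 := by
    intro e
    by_cases h : e = 0
    · simp [h, hK0]
    · rw [hu, dslope_of_ne _ h, slope_def_field, hK0, sub_zero]
      field_simp
  have hune : ∀ e ∈ ball (0 : ℂ) R, u e ≠ 0 := by
    intro e he h0
    by_cases h : e = 0
    · rw [h, hu0] at h0
      rw [h0] at ha0; simp at ha0
    · have := hue e
      rw [h0, mul_zero] at this
      exact hK1 e he h (sub_eq_zero.1 this.symm)
  -- bound on the smaller disc
  set r := R / 2 with hr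
  have hr0 : 0 < r := by positivity
  have hrR : r < R := by rw [hr]; linarith
  have hub : ∀ e ∈ closedBall (0 : ℂ) r, ‖u e‖ ≤ Real.exp B / r := by
    intro e he
    have hbd : Bornology.IsBounded (ball (0 : ℂ) r) := isBounded_ball
    have hdc : DiffContOnCl ℂ u (ball 0 r) := by
      refine (hud.mono ?_).diffContOnCl
      rw [closure_ball _ hr0.ne']
      exact closedBall_subset_ball hrR
    refine Complex.norm_le_of_forall_mem_frontier_norm_le hbd hdc ?_
      (by rwa [closure_ball _ hr0.ne'])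
    intro z hz
    rw [frontier_ball _ hr0.ne', mem_sphere_zero_iff_norm] at hz
    have hzR : z ∈ ball (0 : ℂ) R := by rw [mem_ball_zero_iff, hz]; exact hrR
    have h1 := hKB z hzR
    rw [← hue z, norm_mul, hz] at h1
    rw [le_div_iff₀ hr0]; linarith
  -- logarithm
  obtain ⟨g, hg, hge⟩ := Tr.exists_hol_log isOpen_ball (convex_ball (0 : ℂ) R)
    (nonempty_ball.2 hR) hud hune
  have hgr : ∀ e ∈ ball (0 : ℂ) r, (g e - g 0).re ≤ T := by
    intro e he
    have heR : e ∈ ball (0 : ℂ) R := ball_subset_ball hrR.le he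
    have h1 : Real.exp (g e).re = ‖u e‖ := by rw [← Complex.norm_exp, hge e heR]
    have h2 : Real.exp (g 0).re = ‖a‖ := by
      rw [← Complex.norm_exp, hge 0 (mem_ball_self hR), hu0]
    have h3 := hub e (ball_subset_closedBall he)
    rw [← h1] at h3
    have h4 : (0 : ℝ) ≤ (g 0).re := by
      rw [← Real.exp_le_exp, h2, Real.exp_zero]; exact hd
    have h5 : (g e).re ≤ B + Real.log (2 / R) := by
      rw [← Real.exp_le_exp, Real.exp_add, Real.exp_log (by positivity)]
      refine h3.trans (le_of_eq ?_)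
      rw [hr]; field_simp
    rw [Complex.sub_re, hT]; linarith
  intro e he
  have hsr : R / (128 * T) ≤ r / 64 := by
    rw [hr, div_div, div_le_div_iff₀ (by positivity) (by positivity)]
    nlinarith
  have her : e ∈ ball (0 : ℂ) r := by
    rw [mem_ball_zero_iff]; linarith
  have hbc := Complex.borelCaratheodory_zero (f := fun e => g e - g 0) (M := T) hT0
    ((hg.mono (ball_subset_ball hrR.le)).sub_const _) (fun z hz => hgr z hz) hr0 her (by simp)
  have h1 : ‖g e - g 0‖ ≤ 1 / 15 := by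
    refine hbc.trans ?_
    have h2 : 0 < r - ‖e‖ := by linarith
    rw [div_le_iff₀ h2]
    have h3 : T * ‖e‖ ≤ r / 64 := by
      have := mul_le_mul_of_nonneg_left he hT0.le
      refine this.trans (le_of_eq ?_)
      rw [hr]; field_simp; norm_num
    have h4 : ‖e‖ ≤ r / 64 := he.trans hsr
    nlinarith
  have heR : e ∈ ball (0 : ℂ) R := ball_subset_ball hrR.le her
  have h2 : u e = a * Complex.exp (g e - g 0) := by
    rw [Complex.exp_sub, hge e heR, hge 0 (mem_ball_self hR), hu0]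
    have : a ≠ 0 := norm_pos_iff.1 ha0
    field_simp
  have h3 : ‖Complex.exp (g e - g 0) - 1‖ ≤ 1 / 4 := by
    have := Complex.norm_exp_sub_one_le (x := g e - g 0) (by linarith)
    linarith
  rw [← hue e, h2]
  have h4 : e * (a * Complex.exp (g e - g 0)) - a * e = a * e * (Complex.exp (g e - g 0) - 1) := by
    ring
  rw [h4, norm_mul, norm_mul]
  nlinarith [mul_nonneg ha0.le (norm_nonneg e)]

/-- **The analytic core.** -/
theorem sat_core {R B : ℝ} (hR : 0 < R) (hR1 : R ≤ 1) (hB : 0 ≤ B) {K : ℂ → ℂ}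
    (hK : DifferentiableOn ℂ K (ball 0 R)) (hK0 : K 0 = 1)
    (hK1 : ∀ e ∈ ball (0 : ℂ) R, e ≠ 0 → K e ≠ 1)
    (hKB : ∀ e ∈ ball (0 : ℂ) R, ‖K e - 1‖ ≤ Real.exp B) (hd : 1 ≤ ‖deriv K 0‖)
    {T : ℝ} (hT : T = B + Real.log (2 / R) + 1) :
    ∃ E : ℂ → ℂ, DifferentiableOn ℂ E (ball 0 (R / (3000 * T))) ∧ E 0 = 0 ∧
      InjOn E (ball 0 (R / (3000 * T))) ∧ ∀ L ∈ ball (0 : ℂ) (R / (3000 * T)),
        ‖E L‖ < R / (256 * T) ∧ ‖E L‖ ≤ 3 * ‖L‖ ∧ K (E L) = Complex.exp L ∧
        ∀ e : ℂ, ‖e‖ < R / (256 * T) → K e = Complex.exp L → e = E L := by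
  have hlog : 0 < Real.log (2 / R) := Real.log_pos (by rw [lt_div_iff₀ hR]; linarith)
  have hT1 : 1 < T := by rw [hT]; linarith
  have hT0 : 0 < T := by linarith
  have hal := almost_linear hR hR1 hB hK hK0 hK1 hKB hd hT
  set a := deriv K 0 with ha
  have ha0 : 0 < ‖a‖ := by linarith
  set s := R / (256 * T) with hs
  have hs0 : 0 < s := by positivity
  have h2s : 2 * s = R / (128 * T) := by rw [hs]; field_simp; norm_num
  have hsR : 2 * s < R := by
    rw [h2s, div_lt_iff₀ (by positivity)]; nlinarith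
  have hs1 : s ≤ 1 / 256 := by
    rw [hs, div_le_div_iff₀ (by positivity) (by norm_num)]; nlinarith
  rw [← h2s] at hal
  -- derivative of the difference
  set ψ : ℂ → ℂ := fun e => K e - 1 - a * e with hψ
  have hψd : DifferentiableOn ℂ ψ (ball 0 R) :=
    (hK.sub_const 1).sub ((differentiable_id.const_mul a).differentiableOn)
  have hder : ∀ e ∈ ball (0 : ℂ) s, ‖deriv ψ e‖ ≤ ‖a‖ / 2 := by
    intro e he
    rw [mem_ball_zero_iff] at he
    have hsub : closedBall e s ⊆ ball (0 : ℂ) R := by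
      intro z hz
      rw [mem_closedBall, dist_eq_norm] at hz
      rw [mem_ball_zero_iff]
      have : ‖z‖ ≤ ‖z - e‖ + ‖e‖ := by simpa using norm_add_le (z - e) e
      linarith
    have hdc : DiffContOnCl ℂ ψ (ball e s) := by
      refine (hψd.mono ?_).diffContOnCl
      rw [closure_ball _ hs0.ne']; exact hsub
    refine (Complex.norm_deriv_le_of_forall_mem_sphere_norm_le hs0 hdc
      (C := ‖a‖ * (2 * s) / 4) ?_).trans (le_of_eq (by field_simp; norm_num))
    intro z hz
    rw [mem_sphere, dist_eq_norm] at hz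
    have hz2 : ‖z‖ ≤ 2 * s := by
      have : ‖z‖ ≤ ‖z - e‖ + ‖e‖ := by simpa using norm_add_le (z - e) e
      linarith
    refine (hal z hz2).trans ?_
    gcongr
  have hlip : ∀ e ∈ ball (0 : ℂ) s, ∀ e' ∈ ball (0 : ℂ) s,
      ‖ψ e - ψ e'‖ ≤ ‖a‖ / 2 * ‖e - e'‖ := by
    intro e he e' he'
    refine (convex_ball (0 : ℂ) s).norm_image_sub_le_of_norm_deriv_le (𝕜 := ℂ) ?_ hder he' he
    intro z hz
    exact hψd.differentiableAt (isOpen_ball.mem_nhds (ball_subset_ball (by linarith) hz))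
  have hlow : ∀ e ∈ ball (0 : ℂ) s, ∀ e' ∈ ball (0 : ℂ) s,
      ‖a‖ / 2 * ‖e - e'‖ ≤ ‖K e - K e'‖ := by
    intro e he e' he'
    have h1 := hlip e he e' he'
    have h2 : a * (e - e') = (K e - K e') - (ψ e - ψ e') := by simp only [hψ]; ring
    have h3 : ‖a‖ * ‖e - e'‖ ≤ ‖K e - K e'‖ + ‖ψ e - ψ e'‖ := by
      rw [← norm_mul, h2]; exact norm_sub_le _ _
    linarith
  have hinjK : ∀ e ∈ ball (0 : ℂ) s, ∀ e' ∈ ball (0 : ℂ) s, K e = K e' → e = e' := by
    intro e he e' he' h
    have h1 := hlow e he e' he'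
    rw [h, sub_self, norm_zero] at h1
    have h2 : ‖e - e'‖ ≤ 0 := by
      by_contra hcon
      push Not at hcon
      have : 0 < ‖a‖ / 2 * ‖e - e'‖ := by positivity
      linarith
    exact sub_eq_zero.1 (norm_le_zero_iff.1 h2)
  -- surjectivity
  set s' := s / 2 with hs'
  have hs'0 : 0 < s' := by positivity
  have hs's : s' < s := by rw [hs']; linarith
  have himg : ball (1 : ℂ) (3 * s' / 8) ⊆ K '' closedBall 0 s' := by
    have hdc : DiffContOnCl ℂ K (ball 0 s') := by
      refine (hK.mono ?_).diffContOnCl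
      rw [closure_ball _ hs'0.ne']
      exact closedBall_subset_ball (by linarith)
    have h1 : ∀ z ∈ sphere (0 : ℂ) s', 3 * s' / 4 ≤ ‖K z - K 0‖ := by
      intro z hz
      rw [mem_sphere_zero_iff_norm] at hz
      have h2 := hal z (by rw [hz]; linarith)
      have h3 : ‖a * z‖ ≤ ‖K z - 1‖ + ‖K z - 1 - a * z‖ := by
        have : a * z = (K z - 1) - (K z - 1 - a * z) := by ring
        calc ‖a * z‖ = ‖(K z - 1) - (K z - 1 - a * z)‖ := by rw [← this]
          _ ≤ _ := norm_sub_le _ _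
      rw [norm_mul, hz] at h3
      rw [hz] at h2
      rw [hK0]
      nlinarith
    have h2 : ∃ᶠ z in 𝓝 (0 : ℂ), K z ≠ K 0 := by
      have h4 : ∀ᶠ z in 𝓝[≠] (0 : ℂ), K z ≠ K 0 := by
        filter_upwards [self_mem_nhdsWithin, mem_nhdsWithin_of_mem_nhds (ball_mem_nhds _ hR)]
          with z hz hzR
        rw [hK0]; exact hK1 z hzR hz
      exact h4.frequently.filter_mono nhdsWithin_le_nhds
    have h3 := hdc.ball_subset_image_closedBall hs'0 h1 h2
    rw [hK0] at h3
    refine (ball_subset_ball (le_of_eq ?_)).trans h3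
    ring
  -- the inverse
  have hex : ∀ y : ℂ, ∃ e : ℂ, y ∈ ball (1 : ℂ) (3 * s' / 8) → e ∈ closedBall (0 : ℂ) s' ∧ K e = y := by
    intro y
    by_cases h : y ∈ ball (1 : ℂ) (3 * s' / 8)
    · obtain ⟨e, he, he'⟩ := himg h
      exact ⟨e, fun _ => ⟨he, he'⟩⟩
    · exact ⟨0, fun h' => absurd h' h⟩
  choose Gi hGi using hex
  have hGs : ∀ y ∈ ball (1 : ℂ) (3 * s' / 8), Gi y ∈ ball (0 : ℂ) s := fun y hy =>
    closedBall_subset_ball hs's (hGi y hy).1
  have hGder : ∀ y ∈ ball (1 : ℂ) (3 * s' / 8), DifferentiableAt ℂ Gi y := by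
    intro y hy
    have hev : ∀ᶠ y' in 𝓝 y, y' ∈ ball (1 : ℂ) (3 * s' / 8) := isOpen_ball.mem_nhds hy
    have hcont : ContinuousAt Gi y := by
      rw [ContinuousAt, tendsto_iff_norm_sub_tendsto_zero]
      have h1 : Tendsto (fun y' => 2 / ‖a‖ * ‖y' - y‖) (𝓝 y) (𝓝 0) := by
        have : Tendsto (fun y' => 2 / ‖a‖ * ‖y' - y‖) (𝓝 y) (𝓝 (2 / ‖a‖ * ‖y - y‖)) :=
          Continuous.tendsto (by fun_prop) y
        simpa using this
      refine squeeze_zero' (Eventually.of_forall fun _ => norm_nonneg _) ?_ h1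
      filter_upwards [hev] with y' hy'
      have h2 := hlow _ (hGs y' hy') _ (hGs y hy)
      rw [(hGi y' hy').2, (hGi y hy).2] at h2
      rw [div_mul_eq_mul_div, le_div_iff₀ ha0]
      linarith
    have hKd : HasDerivAt K (deriv K (Gi y)) (Gi y) :=
      (hK.differentiableAt (isOpen_ball.mem_nhds
        (ball_subset_ball (by linarith) (hGs y hy)))).hasDerivAt
    have hne : deriv K (Gi y) ≠ 0 := by
      intro h0
      have h1 := hder _ (hGs y hy)
      have h2 : deriv ψ (Gi y) = deriv K (Gi y) - a := by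
        have h3 : HasDerivAt ψ (deriv K (Gi y) - a * 1) (Gi y) :=
          (hKd.sub_const 1).sub ((hasDerivAt_id _).const_mul a)
        rw [h3.deriv, mul_one]
      rw [h2, h0, zero_sub, norm_neg] at h1
      linarith
    have := HasDerivAt.of_local_left_inverse hcont hKd hne (by
      filter_upwards [hev] with y' hy' using (hGi y' hy').2)
    exact this.differentiableAt
  -- the logarithm
  set δ := R / (3000 * T) with hδ
  have hδ0 : 0 < δ := by positivity
  have hδs : 2 * δ ≤ 3 * s' / 8 := by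
    rw [hδ, hs', hs]
    have : 0 < R / T := by positivity
    have e1 : 2 * (R / (3000 * T)) = (1 / 1500) * (R / T) := by field_simp; norm_num
    have e2 : 3 * (R / (256 * T) / 2) / 8 = (3 / 4096) * (R / T) := by field_simp; norm_num
    rw [e1, e2]; nlinarith
  have hδ1 : δ ≤ 1 := by linarith
  have hexp : ∀ L ∈ ball (0 : ℂ) δ, ‖Complex.exp L - 1‖ ≤ 2 * ‖L‖ := by
    intro L hL
    rw [mem_ball_zero_iff] at hL
    exact Complex.norm_exp_sub_one_le (by linarith)
  have hexpm : ∀ L ∈ ball (0 : ℂ) δ, Complex.exp L ∈ ball (1 : ℂ) (3 * s' / 8) := by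
    intro L hL
    rw [mem_ball, dist_eq_norm]
    have h1 := hexp L hL
    rw [mem_ball_zero_iff] at hL
    linarith
  have h0m : (0 : ℂ) ∈ ball (0 : ℂ) δ := mem_ball_self hδ0
  have hval : ∀ L ∈ ball (0 : ℂ) δ, ∀ e : ℂ, ‖e‖ < s → K e = Complex.exp L →
      e = Gi (Complex.exp L) := by
    intro L hL e he h
    exact hinjK e (by simpa using he) _ (hGs _ (hexpm L hL))
      (by rw [h, (hGi _ (hexpm L hL)).2])
  refine ⟨fun L => Gi (Complex.exp L), ?_, ?_, ?_, ?_⟩
  · intro L hL
    exact ((hGder _ (hexpm L hL)).comp L Complex.differentiable_exp.differentiableAt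
      ).differentiableWithinAt
  · refine (hval 0 h0m 0 (by simpa using hs0) (by rw [hK0, Complex.exp_zero])).symm
  · intro L hL L' hL' h
    have h1 : Complex.exp L = Complex.exp L' := by
      have h2 := (hGi _ (hexpm L hL)).2
      have h3 := (hGi _ (hexpm L' hL')).2
      rw [← h2, ← h3]; exact congrArg K h
    obtain ⟨k, hk⟩ := Complex.exp_eq_exp_iff_exists_int.1 h1
    rw [mem_ball_zero_iff] at hL hL'
    by_cases hk0 : k = 0
    · rw [hk, hk0]; simp
    · exfalso
      have h2 : ‖L - L'‖ < 2 := by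
        have := norm_sub_le L L'
        linarith
      have h3 : L - L' = k * (2 * Real.pi * Complex.I) := by rw [hk]; ring
      rw [h3] at h2
      have h4 : (1 : ℝ) ≤ ‖(k : ℂ)‖ := by
        rw [Complex.norm_intCast]
        exact_mod_cast Int.one_le_abs hk0
      have h5 : ‖(k : ℂ) * (2 * Real.pi * Complex.I)‖ = ‖(k : ℂ)‖ * (2 * Real.pi) := by
        rw [norm_mul, norm_mul, norm_mul, Complex.norm_I, Complex.norm_real, Real.norm_eq_abs,
          abs_of_pos Real.pi_pos, Complex.norm_ofNat]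
        ring
      rw [h5] at h2
      nlinarith [Real.pi_gt_three]
  · intro L hL
    have hG := hGi _ (hexpm L hL)
    have h1 := hG.1
    rw [mem_closedBall_zero_iff] at h1
    refine ⟨by simpa using lt_of_le_of_lt h1 hs's, ?_, hG.2, hval L hL⟩
    have h2 := hlow _ (hGs _ (hexpm L hL)) 0 (mem_ball_self hs0)
    rw [hG.2, hK0, sub_zero] at h2
    have h3 := hexp L hL
    -- a better lower bound
    have h4 := hal (Gi (Complex.exp L)) (by linarith)
    rw [hG.2] at h4
    have h5 : ‖a * Gi (Complex.exp L)‖ ≤ ‖Complex.exp L - 1‖ +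
        ‖Complex.exp L - 1 - a * Gi (Complex.exp L)‖ := by
      have : a * Gi (Complex.exp L) = (Complex.exp L - 1) -
        (Complex.exp L - 1 - a * Gi (Complex.exp L)) := by ring
      calc ‖a * Gi (Complex.exp L)‖ = ‖(Complex.exp L - 1) -
        (Complex.exp L - 1 - a * Gi (Complex.exp L))‖ := by rw [← this]
        _ ≤ _ := norm_sub_le _ _
    rw [norm_mul] at h5
    have h6 : 3 / 4 * (‖a‖ * ‖Gi (Complex.exp L)‖) ≤ 2 * ‖L‖ := by linarith
    have h7 : ‖Gi (Complex.exp L)‖ ≤ ‖a‖ * ‖Gi (Complex.exp L)‖ := by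
      nlinarith [norm_nonneg (Gi (Complex.exp L))]
    show ‖Gi (Complex.exp L)‖ ≤ 3 * ‖L‖
    linarith [norm_nonneg L]

end Pool.Agent.Work.MLC.SatCore4
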