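import Pool.Agent.Work.MLC.SatE26
import Pool.Agent.Work.MLC.SatCore4

set_option autoImplicit false

/-! # Theorem S: the coordinate of the child (helper26) -/

namespace Pool.Agent.Work.MLC.Sat

open Filter Topology Metric Set Complex

section

variable {D : Dat} {Z : ℂ → Set ℂ}

/-- the multiplier of the family -/
theorem exists_K (hF : CycFam D.n D.c D.U Z) :
    ∃ K : ℂ → ℂ, K D.a = 1 ∧ ∀ L ∈ D.U, ∀ z ∈ Z L, mul D.n (D.c L, z) = K L := by
  classical
  refine ⟨fun L => if h : L ∈ D.U then mul D.n (D.c L, (hF.ne L h).some) else 1, ?_, ?_⟩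
  · have : D.a ∉ D.U := fun h => h.2 rfl
    simp [this]
  · intro L hL z hz
    simp only [hL, dif_pos]
    obtain ⟨i, hi⟩ := (hF.cyc L hL z hz _).1 (hF.ne L hL).some_mem
    rw [hi, mul_it' (hF.fix L hL z hz).1 i]

lemma c_diff (hP : D.Par) : DifferentiableOn ℂ D.c D.B :=
  section_differentiableOn (goodB hP) hP.cont hP.sec

/-- the multiplier is holomorphic -/
theorem K_diff (hP : D.Par) (hF : CycFam D.n D.c D.U Z) {K : ℂ → ℂ}
    (hK : ∀ L ∈ D.U, ∀ z ∈ Z L, mul D.n (D.c L, z) = K L) : DifferentiableOn ℂ K D.U := by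
  intro L hL
  have hB := U_sub_B hP hL
  obtain ⟨z, hz⟩ := hF.ne L hL
  obtain ⟨h1, h2⟩ := hF.fix L hL z hz
  obtain ⟨β, hβa, hβ0, hβ⟩ := chart h1 h2
  simp only at hβ0 hβa
  have hc := c_contAt hP hB
  have h8 : Tendsto (fun L' => β (D.c L')) (𝓝 L) (𝓝 z) := by
    rw [← hβ0]; exact hβa.continuousAt.tendsto.comp hc.tendsto
  have h9 : Tendsto (fun L' => ((L', β (D.c L')) : ℂ × ℂ)) (𝓝 L) (𝓝 (L, z)) :=
    tendsto_id.prodMk_nhds h8
  have h10 : Tendsto (fun L' => ((D.c L', β (D.c L')) : ℂ × ℂ)) (𝓝 L) (𝓝 (D.c L, z)) :=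
    hc.tendsto.prodMk_nhds h8
  have h11 : K =ᶠ[𝓝 L] fun L' => mul D.n (D.c L', β (D.c L')) := by
    filter_upwards [h9.eventually (hF.cont L hL z hz), h10.eventually hβ, isOpen_U.mem_nhds hL]
      with L' h12 h13 h14
    exact (hK L' h14 _ (h12 (h13.2 rfl))).symm
  have h12 : AnalyticAt ℂ (fun c => mul D.n (c, β c)) (D.c L) := chart_mul hβa
  have h13 : DifferentiableAt ℂ D.c L := (c_diff hP).differentiableAt (isOpen_B.mem_nhds hB)
  have h14 : DifferentiableAt ℂ (fun L' => mul D.n (D.c L', β (D.c L'))) L :=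
    DifferentiableAt.comp (g := fun c => mul D.n (c, β c)) L h12.differentiableAt h13
  exact (h14.congr_of_eventuallyEq h11).differentiableWithinAt

/-- the multiplier extends over the root -/
theorem K_diff_ball (hP : D.Par) (hF : CycFam D.n D.c D.U Z) {K : ℂ → ℂ}
    (hK : ∀ L ∈ D.U, ∀ z ∈ Z L, mul D.n (D.c L, z) = K L) (hKa : K D.a = 1)
    (hlim : Tendsto K (𝓝[≠] D.a) (𝓝 1)) : DifferentiableOn ℂ K (ball D.a (sR D.m D.x)) := by
  refine (differentiableOn_compl_singleton_and_continuousAt_iff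
    (isOpen_ball.mem_nhds (mem_ball_self (sR_pos hP)))).1 ⟨K_diff hP hF hK, ?_⟩
  rw [continuousAt_iff_punctured_nhds, hKa]
  exact hlim

/-- the crude bound -/
theorem K_bound (hP : D.Par) (hF : CycFam D.n D.c D.U Z) {K : ℂ → ℂ}
    (hK : ∀ L ∈ D.U, ∀ z ∈ Z L, mul D.n (D.c L, z) = K L) {L : ℂ} (hL : L ∈ D.U) :
    ‖K L‖ ≤ 10 ^ D.n := by
  have hB := U_sub_B hP hL
  obtain ⟨z, hz⟩ := hF.ne L hL
  obtain ⟨h1, -⟩ := hF.fix L hL z hz
  rw [← hK L hL z hz]
  obtain ⟨h2, h3⟩ := hP.sec L hB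
  have h4 : ‖D.c L‖ ≤ 4 := (Per_bdd hP.m_pos h2 (by rw [h3]; exact (goodB hP).lt L hB)).1
  have h5 : G (D.c L) z = 0 := by
    have h6 := G_it (D.c L) z D.n
    have h7 : it (D.c L) D.n z = z := h1
    rw [h7] at h6
    have h8 : (2 : ℝ) ≤ 2 ^ D.n := by
      calc (2 : ℝ) = 2 ^ 1 := by norm_num
        _ ≤ 2 ^ D.n := pow_le_pow_right₀ (by norm_num) (Par_n_pos hP)
    nlinarith [G_nonneg (D.c L) z]
  unfold mul
  rw [norm_prod]
  calc ∏ i ∈ Finset.range D.n, ‖2 * it (D.c L) i z‖ ≤ ∏ _i ∈ Finset.range D.n, (10 : ℝ) := by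
        refine Finset.prod_le_prod (fun _ _ => norm_nonneg _) fun i _ => ?_
        rw [norm_mul]
        have := norm_it_le_of_G_zero h5 i
        have h9 : ‖(2 : ℂ)‖ = 2 := by norm_num
        rw [h9]
        linarith
    _ = 10 ^ D.n := by simp

/-- the radius -/
theorem cR_le (hP : D.Par) {T : ℝ} (hT : T = 3 * D.n + Real.log (2 / sR D.m D.x) + 1) :
    cR D.n ≤ sR D.m D.x / (3000 * T) := by
  have hm : (1 : ℝ) ≤ D.m := by exact_mod_cast hP.m_pos
  have hq : (1 : ℝ) ≤ D.x.den := by exact_mod_cast D.x.pos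
  have hn : (D.n : ℝ) = D.m * D.x.den := by unfold Dat.n; push_cast; ring
  have hn1 : (1 : ℝ) ≤ D.n := by rw [hn]; nlinarith
  set X : ℝ := (D.m : ℝ) ^ 3 * D.x.den ^ 4 with hX
  have hX1 : 1 ≤ X := by
    have h1 : (1 : ℝ) ≤ (D.m : ℝ) ^ 3 := one_le_pow₀ hm
    have h2 : (1 : ℝ) ≤ (D.x.den : ℝ) ^ 4 := one_le_pow₀ hq
    nlinarith
  have hXn : X ≤ (D.n : ℝ) ^ 4 := by
    rw [hn, mul_pow]
    have h1 : (D.m : ℝ) ^ 3 ≤ D.m ^ 4 := pow_le_pow_right₀ hm (by norm_num)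
    exact mul_le_mul_of_nonneg_right h1 (by positivity)
  have hs : sR D.m D.x = 1 / (16 * X) := by unfold sR; rw [hX]; ring
  have hlog : Real.log (2 / sR D.m D.x) ≤ 4 * D.n := by
    rw [hs]
    have h1 : 2 / (1 / (16 * X)) = 32 * X := by field_simp; norm_num
    rw [h1, Real.log_mul (by norm_num) (by positivity)]
    have h2 : Real.log 32 ≤ 4 := by
      have : Real.log 32 = 5 * Real.log 2 := by
        rw [show (32 : ℝ) = 2 ^ 5 by norm_num, Real.log_pow]; norm_num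
      rw [this]
      linarith [Real.log_two_lt_d9]
    have h3 : Real.log X ≤ 4 * (D.n - 1) := by
      calc Real.log X ≤ Real.log ((D.n : ℝ) ^ 4) := Real.log_le_log (by linarith) hXn
        _ = 4 * Real.log D.n := by rw [Real.log_pow]; norm_num
        _ ≤ 4 * (D.n - 1) := by
          have := Real.log_le_sub_one_of_pos (by linarith : (0 : ℝ) < D.n)
          linarith
    linarith
  have hT1 : T ≤ 8 * D.n := by rw [hT]; linarith
  have hlog0 : 0 ≤ Real.log (2 / sR D.m D.x) := by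
    apply Real.log_nonneg
    rw [hs, le_div_iff₀ (by positivity), one_mul, div_le_iff₀ (by positivity)]
    linarith
  have hT0 : 0 < T := by rw [hT]; linarith
  unfold cR
  rw [hs, div_div, div_le_div_iff₀ (by positivity) (by positivity), one_mul, one_mul]
  calc 16 * X * (3000 * T) ≤ 16 * (D.n : ℝ) ^ 4 * (3000 * (8 * D.n)) := by gcongr
    _ = 384000 * (D.n : ℝ) ^ 5 := by ring
    _ ≤ 600000 * (D.n : ℝ) ^ 5 := by
        have : 0 ≤ (D.n : ℝ) ^ 5 := by positivity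
        nlinarith

end

/-- **Theorem S** -/
theorem s13_child (h10 : S10_origin) (h11 : S11_deriv) : S13_child := by
  intro D Z hP hC hR hG
  obtain ⟨K, hKa, hK⟩ := exists_K hG.fam
  have hlim := h10 D Z K hP hC hR hG hK
  have hd := K_diff_ball hP hG.fam hK hKa hlim
  have hder := h11 D Z K hP hC hR hG hK hd hKa
  set R := sR D.m D.x with hRdef
  have hR0 : 0 < R := sR_pos hP
  have hm : (1 : ℝ) ≤ D.m := by exact_mod_cast hP.m_pos
  have hq : (1 : ℝ) ≤ D.x.den := by exact_mod_cast D.x.pos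
  have hR1 : R ≤ 1 := by
    rw [hRdef]; unfold sR
    rw [div_le_one (by positivity)]
    have h1 : (1 : ℝ) ≤ (D.m : ℝ) ^ 3 := one_le_pow₀ hm
    have h2 : (1 : ℝ) ≤ (D.x.den : ℝ) ^ 4 := one_le_pow₀ hq
    nlinarith
  have hn1 : (1 : ℝ) ≤ D.n := by exact_mod_cast Par_n_pos hP
  set F : ℂ → ℂ := fun t => K (D.a + t) with hF
  have hmem : ∀ t ∈ ball (0 : ℂ) R, D.a + t ∈ ball D.a R := fun t ht => by
    rw [mem_ball_zero_iff] at ht
    rw [mem_ball, dist_eq_norm, add_sub_cancel_left]; exact ht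
  have hF1 : DifferentiableOn ℂ F (ball 0 R) := by
    refine hd.comp (by fun_prop) ?_
    exact fun t ht => hmem t ht
  have hU : ∀ t ∈ ball (0 : ℂ) R, t ≠ 0 → D.a + t ∈ D.U := fun t ht h0 =>
    ⟨hmem t ht, fun h => h0 (by
      have h1 : D.a + t = D.a := h
      simpa using h1)⟩
  have hF2 : F 0 = 1 := by simp [hF, hKa]
  have hF3 : ∀ t ∈ ball (0 : ℂ) R, t ≠ 0 → F t ≠ 1 := by
    intro t ht h0
    obtain ⟨z, hz⟩ := hG.fam.ne _ (hU t ht h0)
    have := (hG.fam.fix _ (hU t ht h0) z hz).2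
    rw [hK _ (hU t ht h0) z hz] at this
    exact this
  have hF4 : ∀ t ∈ ball (0 : ℂ) R, ‖F t - 1‖ ≤ Real.exp (3 * D.n) := by
    intro t ht
    by_cases h0 : t = 0
    · rw [h0, hF2, sub_self, norm_zero]; positivity
    · have h1 := K_bound hP hG.fam hK (hU t ht h0)
      have h2 : (10 : ℝ) ^ D.n + 1 ≤ 20 ^ D.n := by
        have h3 : (10 : ℝ) ≤ 10 ^ D.n := by
          calc (10 : ℝ) = 10 ^ 1 := by norm_num
            _ ≤ 10 ^ D.n := pow_le_pow_right₀ (by norm_num) (Par_n_pos hP)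
        have h4 : (2 : ℝ) ≤ 2 ^ D.n := by
          calc (2 : ℝ) = 2 ^ 1 := by norm_num
            _ ≤ 2 ^ D.n := pow_le_pow_right₀ (by norm_num) (Par_n_pos hP)
        have h5 : (20 : ℝ) ^ D.n = 2 ^ D.n * 10 ^ D.n := by
          rw [← mul_pow]; norm_num
        rw [h5]; nlinarith
      have h3 : (20 : ℝ) ^ D.n ≤ Real.exp (3 * D.n) := by
        rw [mul_comm, Real.exp_nat_mul]
        have h4 : (20 : ℝ) ≤ Real.exp 3 := by
          have h5 : Real.exp 3 = Real.exp 1 ^ 3 := by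
            rw [← Real.exp_nat_mul]; norm_num
          rw [h5]
          have h6 := Real.exp_one_gt_d9
          calc (20 : ℝ) ≤ 2.7182818283 ^ 3 := by norm_num
            _ ≤ _ := by gcongr
        exact pow_le_pow_left₀ (by norm_num) h4 _
      calc ‖F t - 1‖ ≤ ‖F t‖ + ‖(1 : ℂ)‖ := norm_sub_le _ _
        _ ≤ 10 ^ D.n + 1 := by rw [norm_one]; exact add_le_add h1 le_rfl
        _ ≤ _ := h2.trans h3
  have hF5 : 1 ≤ ‖deriv F 0‖ := by
    have h1 : deriv F 0 = deriv K D.a := by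
      rw [hF, deriv_comp_const_add]; simp
    rw [h1, hder, norm_neg, norm_pow]
    have h2 : ‖(D.x.den : ℂ)‖ = D.x.den := by
      rw [← ofReal_natCast, norm_real, Real.norm_eq_abs, abs_of_nonneg (by positivity)]
    rw [h2]
    exact one_le_pow₀ hq
  set T : ℝ := 3 * D.n + Real.log (2 / R) + 1 with hT
  obtain ⟨E, hE1, hE2, hE3, hE4⟩ := SatCore4.sat_core hR0 hR1
    (by positivity : (0 : ℝ) ≤ 3 * D.n) hF1 hF2 hF3 hF4 hF5 hT
  have hcR := cR_le hP hT
  have hsub : ball (0 : ℂ) (cR D.n) ⊆ ball 0 (R / (3000 * T)) := ball_subset_ball hcR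
  have hcR0 : 0 < cR D.n := by unfold cR; positivity
  have hT0 : 0 < T := by
    by_contra h0
    have h1 : R / (3000 * T) ≤ 0 := div_nonpos_of_nonneg_of_nonpos hR0.le (by linarith)
    linarith
  have hT1 : 1 ≤ T := by
    have h1 : 0 ≤ Real.log (2 / R) := by
      apply Real.log_nonneg
      rw [le_div_iff₀ hR0]; linarith
    rw [hT]; linarith
  have hRT : R / (256 * T) < R := by
    rw [div_lt_iff₀ (by positivity)]
    nlinarith
  have hEmem : ∀ ℓ ∈ ball (0 : ℂ) (cR D.n), E ℓ ∈ ball (0 : ℂ) R := fun ℓ hℓ => by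
    rw [mem_ball_zero_iff]
    exact ((hE4 ℓ (hsub hℓ)).1).trans hRT
  refine ⟨fun ℓ => D.a + E ℓ, ⟨?_, ?_, ?_, ?_, ?_, ?_⟩⟩
  · exact (hE1.mono hsub).const_add _
  · simp [hE2]
  · intro x hx y hy hxy
    exact hE3 (hsub hx) (hsub hy) (by simpa using hxy)
  · intro ℓ hℓ
    refine ⟨hmem _ (hEmem ℓ hℓ), ?_⟩
    rw [add_sub_cancel_left]
    exact (hE4 ℓ (hsub hℓ)).2.1
  · intro ℓ hℓ h0 z hz
    have h1 : E ℓ ≠ 0 := by
      intro h2
      apply h0
      exact hE3 (hsub hℓ) (mem_ball_self (hcR0.trans_le hcR)) (by rw [h2, hE2])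
    have h2 := hU _ (hEmem ℓ hℓ) h1
    rw [hK _ h2 z hz]
    exact (hE4 ℓ (hsub hℓ)).2.2.1
  · refine ⟨R / (256 * T), by positivity, ?_⟩
    intro L hL hLa ℓ hℓ z hz hm'
    have h1 : L ∈ D.U := by
      refine ⟨ball_subset_ball hRT.le hL, hLa⟩
    rw [hK L h1 z hz] at hm'
    have h2 : ‖L - D.a‖ < R / (256 * T) := by rwa [mem_ball, dist_eq_norm] at hL
    have h3 := (hE4 ℓ (hsub hℓ)).2.2.2 (L - D.a) h2 (by simpa [hF] using hm')
    show L = D.a + E ℓ
    rw [← h3]; ring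

end Pool.Agent.Work.MLC.Sat
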