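import Pool.Agent.Work.MLC.Param34

/-!
# The Mandelbrot set is compact and connected (helper60)
-/

set_option autoImplicit false

namespace Pool.Agent.Work.MLC

open Filter Topology Metric Set

/-- the sublevel sets of the potential are compact -/
theorem isCompact_G_diag_le (t : ℝ) : IsCompact {c : ℂ | G c c ≤ t} := by
  refine (isCompact_closedBall (0 : ℂ) (2 * Real.exp t + 100)).of_isClosed_subset
    (isClosed_le continuous_G_diag continuous_const) fun c hc => ?_
  rw [mem_closedBall_zero_iff]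
  exact norm_le_of_G_le hc

theorem mem_MM_iff_le {c : ℂ} : c ∈ N62a1eb23.mandelbrotSet ↔ G c c ≤ 0 := by
  rw [mem_M_iff']
  exact ⟨fun h => h.le, fun h => le_antisymm h (G_nonneg c c)⟩

theorem isCompact_MM : IsCompact N62a1eb23.mandelbrotSet := by
  have h : N62a1eb23.mandelbrotSet = {c : ℂ | G c c ≤ 0} := by
    ext c
    exact mem_MM_iff_le
  rw [h]
  exact isCompact_G_diag_le 0

/-- the level annuli are images of strips -/
theorem image_cOf_strip (s : ℝ) :
    cOf '' {L | 0 < L.re ∧ L.re < s} = {c : ℂ | 0 < G c c ∧ G c c < s} := by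
  ext c
  constructor
  · rintro ⟨L, ⟨h1, h2⟩, rfl⟩
    show 0 < G (cOf L) (cOf L) ∧ G (cOf L) (cOf L) < s
    rw [G_cOf h1]
    exact ⟨h1, h2⟩
  · rintro ⟨h1, h2⟩
    obtain ⟨L, hL1, hL2, hL3⟩ := exists_cOf (mem_Mc_iff.1 h1)
    exact ⟨L, ⟨hL2, by rw [hL1]; exact h2⟩, hL3⟩

theorem isPreconnected_level (s : ℝ) : IsPreconnected {c : ℂ | 0 < G c c ∧ G c c < s} := by
  rw [← image_cOf_strip]
  have hconv : Convex ℝ {L : ℂ | 0 < L.re ∧ L.re < s} :=
    (convex_halfSpace_re_gt 0).inter (convex_halfSpace_re_lt s)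
  exact hconv.isPreconnected.image _ (continuousOn_cOf.mono fun L hL => hL.1)

theorem isPreconnected_MM : IsPreconnected N62a1eb23.mandelbrotSet := by
  set M : Set ℂ := N62a1eb23.mandelbrotSet with hM
  -- key step: two disjoint open sets covering `M`
  have key : ∀ U V : Set ℂ, IsOpen U → IsOpen V → Disjoint U V → M ⊆ U ∪ V → ∀ s : ℝ,
      0 < s → {c : ℂ | 0 < G c c ∧ G c c < s} ⊆ U → V ∩ M = ∅ := by
    intro U V hU hV hUV hMUV s hs hA
    have h1 : V ∩ M = V ∩ {c : ℂ | G c c < s} := by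
      ext c
      constructor
      · rintro ⟨hc1, hc2⟩
        refine ⟨hc1, ?_⟩
        have := mem_MM_iff_le.1 hc2
        show G c c < s
        linarith
      · rintro ⟨hc1, hc2⟩
        refine ⟨hc1, ?_⟩
        by_contra h0
        have h2 : 0 < G c c := mem_Mc_iff.2 h0
        exact (disjoint_left.1 hUV) (hA ⟨h2, hc2⟩) hc1
    have hopen : IsOpen (V ∩ M) := by
      rw [h1]
      exact hV.inter (isOpen_lt continuous_G_diag continuous_const)
    have h2 : V ∩ M = M \ U := by
      ext c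
      constructor
      · rintro ⟨hc1, hc2⟩
        exact ⟨hc2, fun h => (disjoint_left.1 hUV) h hc1⟩
      · rintro ⟨hc1, hc2⟩
        rcases hMUV hc1 with h | h
        · exact absurd h hc2
        · exact ⟨h, hc1⟩
    have hcpt : IsCompact (V ∩ M) := by
      rw [h2]
      exact isCompact_MM.diff hU
    rcases isClopen_iff.1 ⟨hcpt.isClosed, hopen⟩ with h | h
    · exact h
    · exfalso
      rw [h] at hcpt
      exact noncompact_univ ℂ hcpt
  rw [isPreconnected_iff_subset_of_disjoint]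
  intro u v hu hv huv hdis
  have hA : IsCompact (M \ v) := isCompact_MM.diff hv
  have hB : IsCompact (M \ u) := isCompact_MM.diff hu
  have hAB : Disjoint (M \ v) (M \ u) := by
    rw [disjoint_left]
    rintro c ⟨hc1, hc2⟩ ⟨-, hc3⟩
    rcases huv hc1 with h | h
    · exact hc3 h
    · exact hc2 h
  obtain ⟨U, V, hU, hV, hAU, hBV, hUV⟩ := SeparatedNhds.of_isCompact_isCompact hA hB hAB
  have hMUV : M ⊆ U ∪ V := by
    intro c hc
    by_cases h : c ∈ v
    · right
      refine hBV ⟨hc, fun h' => ?_⟩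
      have : c ∈ M ∩ (u ∩ v) := ⟨hc, h', h⟩
      rw [hdis] at this
      exact this
    · exact Or.inl (hAU ⟨hc, h⟩)
  -- a small level set is covered
  obtain ⟨s, hs, hsU⟩ : ∃ s : ℝ, 0 < s ∧ {c : ℂ | 0 < G c c ∧ G c c < s} ⊆ U ∪ V := by
    have hK : IsCompact ({c : ℂ | G c c ≤ 1} \ (U ∪ V)) :=
      (isCompact_G_diag_le 1).diff (hU.union hV)
    rcases ({c : ℂ | G c c ≤ 1} \ (U ∪ V)).eq_empty_or_nonempty with h0 | h0
    · refine ⟨1, one_pos, fun c hc => ?_⟩
      by_contra h
      have : c ∈ {c : ℂ | G c c ≤ 1} \ (U ∪ V) := ⟨hc.2.le, h⟩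
      rw [h0] at this
      exact this
    · obtain ⟨c₀, hc₀, hmin⟩ := hK.exists_isMinOn h0 continuous_G_diag.continuousOn
      have hpos : 0 < G c₀ c₀ := by
        refine mem_Mc_iff.2 fun h => hc₀.2 (hMUV h)
      refine ⟨min 1 (G c₀ c₀), lt_min one_pos hpos, fun c hc => ?_⟩
      by_contra h
      have h1 : c ∈ {c : ℂ | G c c ≤ 1} \ (U ∪ V) :=
        ⟨(hc.2.trans_le (min_le_left _ _)).le, h⟩
      have h2 : G c₀ c₀ ≤ G c c := hmin h1
      have h3 := hc.2.trans_le (min_le_right _ _)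
      linarith
  rcases (isPreconnected_level s).subset_or_subset hU hV hUV hsU with h | h
  · left
    have h1 := key U V hU hV hUV hMUV s hs h
    intro c hc
    by_contra hcu
    have : c ∈ V ∩ M := ⟨hBV ⟨hc, hcu⟩, hc⟩
    rw [h1] at this
    exact this
  · right
    have h1 := key V U hV hU hUV.symm (by rwa [union_comm]) s hs h
    intro c hc
    by_contra hcv
    have : c ∈ U ∩ M := ⟨hAU ⟨hc, hcv⟩, hc⟩
    rw [h1] at this
    exact this

theorem zero_mem_MM : (0 : ℂ) ∈ N62a1eb23.mandelbrotSet := by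
  rw [mem_M_iff]
  refine G_zero_of_bdd (B := 1) (Eventually.frequently (Eventually.of_forall fun k => ?_))
  induction k with
  | zero => simp
  | succ k ih =>
    rw [it_succ, f_apply, add_zero, norm_pow]
    exact pow_le_one₀ (norm_nonneg _) ih

theorem isConnected_MM : IsConnected N62a1eb23.mandelbrotSet :=
  ⟨⟨0, zero_mem_MM⟩, isPreconnected_MM⟩

end Pool.Agent.Work.MLC
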