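import Pool.Agent.Work.MLC.PlyK0
import Pool.Agent.Work.MLC.Final6

set_option autoImplicit false

/-! # All cycles are repelling outside of the Mandelbrot set (helper13) -/

namespace Pool.Agent.Work.MLC

open Filter Topology Metric Set

lemma mul_eq_mult13 (n : ℕ) (c b : ℂ) : mul n (c, b) = mult n c b := by
  unfold mul mult
  rfl

/-- outside of the Mandelbrot set all periodic points are repelling -/
theorem rep13 {n : ℕ} (hn : 0 < n) {x : ℂ × ℂ} (hx : x ∈ Per n) (hM : x.1 ∉ MS) :
    1 < ‖mul n x‖ := by
  obtain ⟨c, b⟩ := x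
  have hc : 0 < G c c := by
    rcases (G_nonneg c c).eq_or_lt with h | h
    · exact absurd (mem_M_iff'.2 h.symm) hM
    · exact h
  have h1 := K0 hc hn (show it c n b = b from hx)
  rw [mul_eq_mult13]
  have h2 : 0 < Real.log ‖mult n c b‖ := by
    refine lt_of_lt_of_le ?_ h1
    have : (0 : ℝ) < n := by exact_mod_cast hn
    positivity
  by_contra h3
  push Not at h3
  exact absurd (Real.log_nonpos (norm_nonneg _) h3) (not_le.2 h2)

end Pool.Agent.Work.MLC
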