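import Pool.Agent.Work.MLC.Good34
import Pool.Agent.Work.MLC.Rot51
import Pool.Agent.Work.MLC.Rep13
import Pool.Agent.Work.MLC.Mconn

set_option autoImplicit false

/-! # All inputs of the final assembly (helper34) -/

namespace Pool.Agent.Work.MLC

open Filter Topology Metric Set Complex

/-- all inputs of the final assembly, with the constant `κ = 1 / 4` -/
theorem inputs34 : Inputs (1 / 4) where
  κ_pos := by norm_num
  good := fun _ hn _ h0 h1 => goodDom34 hn h0 h1
  rot := fun _ hn => ⟨_, Tr.rotData hn⟩
  rep := fun _ hn _ hx hM => rep13 hn hx hM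
  cpt := isCompact_MM
  conn := isPreconnected_MM

end Pool.Agent.Work.MLC
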