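import Pool.Agent.Work.MLC.LabH
import Pool.Agent.Work.MLC.Inputs34

set_option autoImplicit false

/-! # Satellite components: definitions and interface (manager: helper26)

The parent has a point `b` of exact period `m`; `σ L = (c L, b L)` is the section of its multiplier
`exp L` over the good disc about `a = 2 π i x`, `0 < x < 1` rational, `Q = x.den`, `n = m Q`.
Everything happens over the punctured disc `U` of the (small) radius `r`. For `L ∈ U` with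
`c L ∉ MM` there is exactly one angle `θ` with `Th L θ`. `[tm, tp]` is the plateau of the rotation
number `k₀ + x`, `u` is the word of the child (period `n`).
`RE`: exterior parameters; `RI`: inside the wake of the child; `RO`: outside the closed wake. -/

namespace Pool.Agent.Work.MLC

open Filter Topology Metric Set Complex

namespace Sat

/-- radius of the good disc of the parent -/
noncomputable def gR (m : ℕ) (x : ℚ) : ℝ := 1 / 4 * (min (x : ℝ) (1 - x)) ^ 2 / m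

/-- the small radius -/
noncomputable def sR (m : ℕ) (x : ℚ) : ℝ := 1 / (16 * m ^ 3 * x.den ^ 4)

/-- all data of the satellite situation -/
structure Dat where
  /-- period of the parent -/
  m : ℕ
  /-- rotation number at the root -/
  x : ℚ
  /-- section of the parent -/
  σ : ℂ → ℂ × ℂ
  /-- word of the parent -/
  w : ℕ → ℤ
  /-- strip of the parent -/
  k₀ : ℤ
  /-- word of the child -/
  u : ℕ → ℤ
  /-- strip of the child -/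
  k : ℤ
  /-- left end of the plateau -/
  tm : ℝ
  /-- right end of the plateau -/
  tp : ℝ

namespace Dat

variable (D : Dat)

/-- period of the child -/
def n : ℕ := D.m * D.x.den

/-- the root -/
noncomputable def a : ℂ := axisPt D.x

/-- the parameter -/
def c (L : ℂ) : ℂ := (D.σ L).1

/-- the point of the parent -/
def b (L : ℂ) : ℂ := (D.σ L).2

/-- the good disc of the parent -/
noncomputable def B : Set ℂ := ball D.a (gR D.m D.x)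

/-- the small punctured disc -/
noncomputable def U : Set ℂ := ball D.a (sR D.m D.x) \ {D.a}

/-- `θ` is the (normalised) angle of the exterior parameter `c L` -/
def Th (L : ℂ) (θ : ℝ) : Prop :=
  ExtP D.m (D.c L) (D.b L) θ D.w ∧ (D.k₀ : ℝ) < Circ.nu D.w D.m θ ∧
    Circ.nu D.w D.m θ < D.k₀ + 1

/-- the data of the parent -/
structure Par : Prop where
  m_pos : 0 < D.m
  x_pos : 0 < D.x
  x_lt : D.x < 1
  cont : ContinuousOn D.σ D.B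
  sec : ∀ L ∈ D.B, D.σ L ∈ Per D.m ∧ mul D.m (D.σ L) = exp L
  prim : ∀ L ∈ D.B, ∀ d, 0 < d → d < D.m → it (D.c L) d (D.b L) ≠ D.b L
  bits : Bits D.m D.w
  wprim : ∀ d, 0 < d → d < D.m → ∃ i, D.w (i + d) ≠ D.w i
  ang : ∀ L ∈ D.B, D.c L ∉ MM → ∃ θ, D.Th L θ
  ply : ∀ L ∈ D.B, ∀ θ, D.Th L θ →
    ‖L - 2 * Real.pi * ((Circ.nu D.w D.m θ - D.k₀ : ℝ) : ℂ) * I‖ ^ 2 ≤ 81 * D.m * L.re
  lab : ∀ L ∈ D.B, 0 < L.re → NonInt D.m (D.σ L) ∧
    ∀ θ : ℝ, (D.k₀ : ℝ) < Circ.nu D.w D.m θ → Circ.nu D.w D.m θ < D.k₀ + 1 →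
      FF D.m (D.σ L) = lab D.m θ D.w

/-- the rotation number of the parent at `θ` is close to `k₀ + x` (satisfied by the angles of all
exterior `L ∈ U`) -/
def Near (θ : ℝ) : Prop :=
  |Circ.nu D.w D.m θ - (D.k₀ + D.x)| < 1 / ((D.n : ℝ) * D.x.den)

/-- the circle data: plateau and word of the child (phase chosen such that `(tm, tp)` is the
shortest gap of the portrait of the parent) -/
structure Cir : Prop where
  ubits : Bits D.n D.u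
  flip : ∀ i, D.u i = if D.n ∣ i + 1 then 1 - D.w i else D.w i
  uprim : ∀ d, 0 < d → d < D.n → ∃ i, D.u (i + d) ≠ D.u i
  lt : D.tm < D.tp
  lt_one : D.tp < D.tm + 1
  plateau : ∀ θ, Circ.nu D.w D.m θ = D.k₀ + D.x ↔ D.tm ≤ θ ∧ θ ≤ D.tp
  nu_in : ∀ θ, D.tm < θ → θ < D.tp →
    (D.k : ℝ) < Circ.nu D.u D.n θ ∧ Circ.nu D.u D.n θ < D.k + 1
  nu_left : ∀ θ, D.Near θ → θ ≤ D.tm → Circ.nu D.u D.n θ = D.k
  nu_right : ∀ θ, D.Near θ → D.tp ≤ θ → Circ.nu D.u D.n θ = D.k + 1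
  per : PerAngle D.m D.x.den D.tm
  orb : ∃ (j : ℕ) (l : ℤ), D.tp = 2 ^ (D.m * j) * D.tm + l
  orb' : ∃ (j : ℕ) (l : ℤ), D.tm = 2 ^ (D.m * j) * D.tp + l
  avoid : ∀ (i : ℕ) (l : ℤ), ¬ (D.tm < 2 ^ i * D.tm + l ∧ 2 ^ i * D.tm + l < D.tp)
  /-- weak gap lemma -/
  gap : ∀ θ, D.Near θ → (∃ l : ℤ, (2 : ℝ) ^ D.n * θ - θ = l) → D.tm ≤ θ ∧ θ ≤ D.tp
  compat_w : ∀ θ, D.tm < θ → θ < D.tp → Compat D.tm θ D.w ∧ Compat D.tp θ D.w
  compat_w' : ∀ θ, Compat D.tm θ D.w → (D.k₀ : ℝ) < Circ.nu D.w D.m θ →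
    Circ.nu D.w D.m θ < D.k₀ + 1 → D.tm < θ ∧ θ < D.tp
  compat_u_left : ∀ θ, D.Near θ → θ < D.tm → Compat D.tm θ D.u
  compat_u_right : ∀ θ, D.Near θ → D.tp < θ → Compat D.tp θ D.u
  /-- transitivity -/
  trans : ∀ θ, D.tm ≤ θ → θ ≤ D.tp → ∀ (β : ℝ) (q : ℕ), PerAngle D.m q β → Compat β θ D.w →
    ∃ (j : ℕ) (l : ℤ), D.tm = 2 ^ (D.m * j) * β + l

/-- exterior parameters -/
def RE : Set ℂ := {L ∈ D.U | D.c L ∉ MM}

/-- the wake of the child -/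
def RI : Set ℂ := {L ∈ D.U | 0 < L.re ∧ ((∃ θ, D.Th L θ ∧ D.tm < θ ∧ θ < D.tp) ∨
  (D.c L ∈ MM ∧ Land D.m (D.c L) (D.b L) D.tm D.x.den))}

/-- the complement of the closed wake -/
def RO : Set ℂ := {L ∈ D.U | L ∉ D.RI ∧ ∀ θ, D.Th L θ → θ < D.tm ∨ D.tp < θ}

/-- the cycle with the word `u` (exterior parameters) -/
def ZE (L : ℂ) : Set ℂ :=
  {z | ∃ θ, D.Th L θ ∧ ∃ z₀, ExtP D.n (D.c L) z₀ θ D.u ∧ ∃ i, z = it (D.c L) i z₀}

/-- the label of the child -/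
noncomputable def J : Lab D.n := lab D.n ((D.tm + D.tp) / 2) D.u

end Dat

/-- repelling pairs of non-integer rotation with the label `J` -/
def NJ (n : ℕ) (J : Lab n) : Set (ℂ × ℂ) :=
  {x | x ∈ Per n ∧ 1 < ‖mul n x‖ ∧ NonInt n x ∧ FF n x = J}

/-- a continuous family of cycles of period dividing `n` over `V`, with multipliers `≠ 1` -/
structure CycFam (n : ℕ) (c : ℂ → ℂ) (V : Set ℂ) (Z : ℂ → Set ℂ) : Prop where
  ne : ∀ L ∈ V, (Z L).Nonempty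
  fix : ∀ L ∈ V, ∀ z ∈ Z L, (c L, z) ∈ Per n ∧ mul n (c L, z) ≠ 1
  cyc : ∀ L ∈ V, ∀ z ∈ Z L, ∀ z', z' ∈ Z L ↔ ∃ i, z' = it (c L) i z
  cont : ∀ L ∈ V, ∀ z ∈ Z L, ∀ᶠ p : ℂ × ℂ in 𝓝 (L, z), (c p.1, p.2) ∈ Per n → p.2 ∈ Z p.1

/-- the cycles have exact period `n` -/
def Exact (n : ℕ) (c : ℂ → ℂ) (V : Set ℂ) (Z : ℂ → Set ℂ) : Prop :=
  ∀ L ∈ V, ∀ z ∈ Z L, ∀ d, 0 < d → d < n → it (c L) d z ≠ z

/-! ## The modules: statements

Every module proves one (or several) of the following propositions. -/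

/-- S0 (helper39): parent data exist -/
def S0_parent : Prop := ∀ (m : ℕ) (x : ℚ) (r₀ b₀ : ℂ), 0 < m → 0 < x → x < 1 →
  (r₀, b₀) ∈ Per m → (∀ d, 0 < d → d < m → it r₀ d b₀ ≠ b₀) → mul m (r₀, b₀) = exp (axisPt x) →
  ∃ D : Dat, D.m = m ∧ D.x = x ∧ D.σ (axisPt x) = (r₀, b₀) ∧ D.Par

/-- S0' (helper39): replacing the parent point by a point of its orbit -/
def S0_shift : Prop := ∀ (D : Dat) (i₀ : ℕ) (u : ℕ → ℤ) (k : ℤ) (tm tp : ℝ), D.Par →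
  (⟨D.m, D.x, fun L => ((D.σ L).1, it (D.σ L).1 i₀ (D.σ L).2), fun i => D.w (i + i₀), D.k₀,
    u, k, tm, tp⟩ : Dat).Par

/-- S1 (helper54): circle data exist after replacing the parent point by a point of its orbit -/
def S1_circle : Prop := ∀ (m : ℕ) (x : ℚ) (w : ℕ → ℤ) (k₀ : ℤ), 0 < m → 0 < x → x < 1 →
  Bits m w → (∀ d, 0 < d → d < m → ∃ i, w (i + d) ≠ w i) →
  ∃ (i₀ : ℕ) (u : ℕ → ℤ) (k : ℤ) (tm tp : ℝ), i₀ < m ∧ ∀ σ : ℂ → ℂ × ℂ,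
    (⟨m, x, σ, fun i => w (i + i₀), k₀, u, k, tm, tp⟩ : Dat).Cir

/-- S1' (helper54): rotation of the word does not change the rotation number -/
def S1_rot : Prop := ∀ (m : ℕ) (w : ℕ → ℤ) (i₀ : ℕ) (θ : ℝ), Bits m w →
  Circ.nu (fun i => w (i + i₀)) m θ = Circ.nu w m θ

/-- S2 (helper51): Lemma W -/
def S2_width : Prop := ∀ (n : ℕ) (w : ℕ → ℤ) (θ : ℝ) (k : ℤ), 0 < n → Bits n w →
  (k : ℝ) < Circ.nu w n θ → (k : ℝ) + 1 ≤ Circ.nu w n (θ + 1)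

/-- S2' (helper51): over one exterior parameter a label belongs to at most one point -/
def S2_unique : Prop := ∀ (n : ℕ) (c z z' : ℂ), 0 < n → c ∉ MM → (c, z) ∈ Per n → (c, z') ∈ Per n →
  NonInt n (c, z) → NonInt n (c, z') → FF n (c, z) = FF n (c, z') → z = z'

/-- S3 (helper59): over `MM` a repelling limit of `NJ` is in `NJ` -/
def S3_closed : Prop := ∀ (n : ℕ) (J : Lab n) (x : ℂ × ℂ), 0 < n → x ∈ Per n → 1 < ‖mul n x‖ →
  x.1 ∈ MM → x ∈ closure (NJ n J) → x ∈ NJ n J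

/-- S3' (helper59): near a neutral pair with multiplier `exp (2 π i φ)`, `0 < φ < 1`, all repelling
pairs have one label, the rotation numbers are close to `φ` modulo one, and there are exterior
parameters arbitrarily close -/
def S3_neutral : Prop := ∀ (n : ℕ) (x : ℂ × ℂ) (φ : ℝ), 0 < n → x ∈ Per n → 0 < φ → φ < 1 →
  mul n x = exp (2 * Real.pi * φ * I) →
  (∃ J, ∀ᶠ y in 𝓝 x, y ∈ Per n → 1 < ‖mul n y‖ → y ∈ NJ n J) ∧
  (∀ ε > 0, ∀ᶠ y in 𝓝 x, ∀ θ w, ExtP n y.1 y.2 θ w → |Int.fract (Circ.nu w n θ) - φ| < ε) ∧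
  (∃ᶠ c in 𝓝 x.1, c ∉ MM)

/-- S4 (helper57): over the right half of a good disc each label has at most one pair -/
def S4_unique : Prop := ∀ (n : ℕ) (x : ℚ) (L : ℂ) (y y' : ℂ × ℂ), 0 < n → 0 < x → x < 1 →
  L ∈ ball (axisPt x) (gR n x) → 0 < L.re → y ∈ Per n → y' ∈ Per n → mul n y = exp L →
  mul n y' = exp L → FF n y = FF n y' → y = y'

/-- S4' (helper57): both sides of the ends of the plateau accumulate at the root -/
def S4_root : Prop := ∀ D : Dat, D.Par → D.Cir →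
  (∃ᶠ L in 𝓝 D.a, L ∈ D.RI ∩ D.RE) ∧ (∃ᶠ L in 𝓝 D.a, L ∈ D.RO ∩ D.RE)

/-- S5a (helper60): landing of the ray `tm` at the parent point is clopen over `MM`, and controls
the angles of the exterior parameters nearby (on the whole good disc) -/
def S5_land : Prop := ∀ D : Dat, D.Par → D.Cir → ∀ L ∈ D.B, 0 < L.re → D.c L ∈ MM →
  (Land D.m (D.c L) (D.b L) D.tm D.x.den → ∀ᶠ L' in 𝓝 L,
    (D.c L' ∈ MM → Land D.m (D.c L') (D.b L') D.tm D.x.den) ∧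
      ∀ θ, D.Th L' θ → D.tm < θ ∧ θ < D.tp) ∧
  (¬ Land D.m (D.c L) (D.b L) D.tm D.x.den → ∀ᶠ L' in 𝓝 L,
    (D.c L' ∈ MM → ¬ Land D.m (D.c L') (D.b L') D.tm D.x.den) ∧
      ∀ θ, D.Th L' θ → θ < D.tm ∨ D.tp < θ)

/-- S5b (helper13): the PLY inequality of the parent in the wake, also at interior parameters (uses
S5a; minimum principle for `Re (1 / (L - a))` on the components of the interior of `MM`) -/
def S5_ply : Prop := ∀ D : Dat, D.Par → D.Cir → ∀ L ∈ D.RI, ‖L - D.a‖ ^ 2 ≤ 81 * D.m * L.re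

/-- S5 (helper60): the three regions -/
structure Regions (D : Dat) : Prop where
  near : ∀ L ∈ D.U, ∀ θ, D.Th L θ → D.Near θ
  openE : IsOpen D.RE
  openI : IsOpen D.RI
  openO : IsOpen D.RO
  cover : D.U ⊆ D.RE ∪ D.RI ∪ D.RO
  disj : Disjoint D.RI D.RO
  clos : ∀ L ∈ D.U, D.c L ∈ MM → L ∈ closure D.RI → L ∈ D.RI
  ply : ∀ L ∈ D.RI, ‖L - D.a‖ ^ 2 ≤ 81 * D.m * L.re
  /-- every component of `RI`, `RO` meets `RE` -/
  meetI : ∀ V ⊆ D.RI, V.Nonempty → IsOpen V → (∀ L ∈ D.RI, L ∈ closure V → L ∈ V) →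
    (V ∩ D.RE).Nonempty
  meetO : ∀ V ⊆ D.RO, V.Nonempty → IsOpen V → (∀ L ∈ D.RO, L ∈ closure V → L ∈ V) →
    (V ∩ D.RE).Nonempty

def S5_regions : Prop := ∀ D : Dat, D.Par → D.Cir → Regions D

/-- S6 (helper4): the landing points of the rays of the orbit of `tm` over `RO` -/
def S6_outer : Prop := ∀ D : Dat, D.Par → D.Cir → Regions D →
  ∃ Z, CycFam D.n D.c D.RO Z ∧ Exact D.n D.c D.RO Z ∧ (∀ L ∈ D.RO ∩ D.RE, Z L = D.ZE L) ∧
    ∀ L ∈ D.RO, ∀ z ∈ Z L, 1 < ‖mul D.n (D.c L, z)‖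

/-- S7 (helper49): at most one attracting cycle -/
def S7_fatou : Prop := ∀ (c x y : ℂ) (n k : ℕ), 0 < n → 0 < k → it c n x = x →
  ‖mul n (c, x)‖ < 1 → it c k y = y → ‖mul k (c, y)‖ < 1 → ∃ i, y = it c i x

/-- S7' (helper40): a limit, with multiplier `1`, of attracting pairs is over the frontier of `MM`
(uses S7 and S3') -/
def S7_parab : Prop := ∀ (n : ℕ) (y : ℂ × ℂ), 0 < n → y ∈ Per n → mul n y = 1 →
  (∃ᶠ s in 𝓝 y, s ∈ Per n ∧ ‖mul n s‖ < 1) → ∃ᶠ c in 𝓝 y.1, c ∉ MM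

/-- S8 (helper69): no collision inside `NJ` -/
def S8_side : Prop := ∀ (n : ℕ) (J : Lab n) (x : ℂ × ℂ) (N : Set (ℂ × ℂ)), 0 < n → x ∈ Per n →
  mul n x = 1 → N ∈ 𝓝 x →
  (∀ y ∈ N, y ∈ Per n → 1 < ‖mul n y‖ → y ∈ closure (NJ n J) → y ∈ NJ n J) →
  ∀ᶠ y in 𝓝 x, y ∉ NJ n J

/-- S9 (helper26): the inner part -/
def S9_inner : Prop := ∀ D : Dat, D.Par → D.Cir → Regions D →
  ∃ Z, CycFam D.n D.c D.RI Z ∧ (∀ L ∈ D.RI ∩ D.RE, Z L = D.ZE L) ∧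
    ∀ L ∈ D.RI, ∀ z, (D.c L, z) ∈ NJ D.n D.J → z ∈ Z L

/-- the glued family -/
structure Glued (D : Dat) (Z : ℂ → Set ℂ) : Prop where
  fam : CycFam D.n D.c D.U Z
  ext : ∀ L ∈ D.RE, Z L = D.ZE L
  left : ∀ L ∈ D.RO, (∀ z ∈ Z L, 1 < ‖mul D.n (D.c L, z)‖) ∧
    ∀ z ∈ Z L, ∀ d, 0 < d → d < D.n → it (D.c L) d z ≠ z
  inner : ∀ L ∈ D.RI, ∀ z, (D.c L, z) ∈ NJ D.n D.J → z ∈ Z L

/-- S9' (helper26) -/
def S9_glue : Prop := ∀ D : Dat, D.Par → D.Cir → Regions D → ∃ Z, Glued D Z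

/-- S10 (helper34): the multiplier tends to `1` at the root -/
def S10_origin : Prop := ∀ (D : Dat) (Z : ℂ → Set ℂ) (K : ℂ → ℂ), D.Par → D.Cir → Regions D →
  Glued D Z → (∀ L ∈ D.U, ∀ z ∈ Z L, mul D.n (D.c L, z) = K L) → Tendsto K (𝓝[≠] D.a) (𝓝 1)

/-- S11 (helper15): the derivative at the root -/
def S11_deriv : Prop := ∀ (D : Dat) (Z : ℂ → Set ℂ) (K : ℂ → ℂ), D.Par → D.Cir → Regions D →
  Glued D Z → (∀ L ∈ D.U, ∀ z ∈ Z L, mul D.n (D.c L, z) = K L) →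
  DifferentiableOn ℂ K (ball D.a (sR D.m D.x)) → K D.a = 1 →
  deriv K D.a = -(D.x.den : ℂ) ^ 2

/-- S12 (helper67): the attracting `n`-cycles that collapse to the parent cycle at the root are the
cycles of the family -/
def S12_child : Prop := ∀ (D : Dat) (Z : ℂ → Set ℂ) (K : ℂ → ℂ), D.Par → D.Cir → Regions D →
  Glued D Z → (∀ L ∈ D.U, ∀ z ∈ Z L, mul D.n (D.c L, z) = K L) →
  DifferentiableOn ℂ K (ball D.a (sR D.m D.x)) → K D.a = 1 →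
  ∀ᶠ p : ℂ × ℂ in 𝓝 (D.a, D.b D.a), (D.c p.1, p.2) ∈ Per D.n → p.2 ≠ D.b p.1 → p.2 ∈ Z p.1

/-- the radius of the coordinate of the child -/
noncomputable def cR (n : ℕ) : ℝ := 1 / (600000 * n ^ 5)

/-- **Theorem S**: the coordinate `e` of the child -/
structure Child (D : Dat) (Z : ℂ → Set ℂ) (e : ℂ → ℂ) : Prop where
  diff : DifferentiableOn ℂ e (ball 0 (cR D.n))
  zero : e 0 = D.a
  inj : InjOn e (ball 0 (cR D.n))
  maps : ∀ ℓ ∈ ball (0 : ℂ) (cR D.n), e ℓ ∈ ball D.a (sR D.m D.x) ∧ ‖e ℓ - D.a‖ ≤ 3 * ‖ℓ‖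
  mul_eq : ∀ ℓ ∈ ball (0 : ℂ) (cR D.n), ℓ ≠ 0 → ∀ z ∈ Z (e ℓ), mul D.n (D.c (e ℓ), z) = exp ℓ
  uniq : ∃ δ > 0, ∀ L ∈ ball D.a δ, L ≠ D.a → ∀ ℓ ∈ ball (0 : ℂ) (cR D.n), ∀ z ∈ Z L,
    mul D.n (D.c L, z) = exp ℓ → L = e ℓ

/-- S13 (helper26): Theorem S -/
def S13_child : Prop := ∀ (D : Dat) (Z : ℂ → Set ℂ), D.Par → D.Cir → Regions D → Glued D Z →
  ∃ e, Child D Z e

/-- the pairs (parameter in `W`, attracting point of exact period `n`) -/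
def AttW (n : ℕ) (W : Set ℂ) : Set (ℂ × ℂ) :=
  {s | s.1 ∈ W ∧ PerN n s.1 s.2 ∧ ‖mult n s.1 s.2‖ < 1}

/-- S15: the boundary points of the child component `W` with multiplier close to `1` are the points
of the family (the multiplier map of `W` has degree one: both sides of the root carry the label
`J`; then `W` is the image of one section over the left half plane) -/
def S15_bdry : Prop := ∀ (D : Dat) (Z : ℂ → Set ℂ) (e : ℂ → ℂ), D.Par → D.Cir → Regions D →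
  Glued D Z → Child D Z e → ∀ W : Set ℂ, HypComp D.n W → D.σ D.a ∈ closure (AttW D.n W) →
  ∀ (y : ℂ × ℂ) (ℓ : ℂ), y ∈ closure (AttW D.n W) → mul D.n y = exp ℓ → ℓ.re = 0 → ℓ ≠ 0 →
  ℓ ∈ ball (0 : ℂ) (cR D.n) → y.1 = D.c (e ℓ) ∧ y.2 ∈ Z (e ℓ)

/-- S16 (helper51): the rotation type is the same at all points of the cycle -/
def S16_rot : Prop := ∀ (n : ℕ) (c z L : ℂ) (x : ℚ) (i : ℕ), 0 < n → Tr.RotT n c z L x →
  Tr.RotT n c (it c i z) L x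

/-- S17 (helper6): limb data of the child near the root -/
def S17_limb : Prop := ∀ (D : Dat) (Z : ℂ → Set ℂ) (e : ℂ → ℂ), D.Par → D.Cir → Regions D →
  Glued D Z → Child D Z e → ∀ x : ℚ, x ≠ 0 → 2 * Real.pi * |(x : ℝ)| ≤ cR D.n / 2 →
  LimbData MM x (cR D.n / 2) (2 * D.n * Real.log 2) (fun ℓ => D.c (e ℓ))
    (fun ℓ y => ℓ ∈ ball (axisPt x) (cR D.n / 2) ∧ ∃ z ∈ Z (e ℓ), Tr.RotT D.n (D.c (e ℓ)) z ℓ y)

/-- `W` is a hyperbolic component of period `m q₀` whose attracting cycle tends, at the boundary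
point `r₀`, to a cycle of exact period `m` with multiplier `exp (2 π i p₀ / q₀)` -/
def SatOf (m p₀ q₀ : ℕ) (r₀ b₀ : ℂ) (W : Set ℂ) : Prop :=
  PerN m r₀ b₀ ∧ mult m r₀ b₀ = exp (2 * Real.pi * (p₀ / q₀ : ℂ) * I) ∧ 0 < p₀ ∧ p₀ < q₀ ∧
  Nat.Coprime p₀ q₀ ∧ HypComp (m * q₀) W ∧ (r₀, b₀) ∈ closure (AttW (m * q₀) W)

/-- S18 (helper6): the limb bound for satellite components, without `p` -/
def S18_bound : Prop := ∃ C : ℝ, 0 < C ∧ ∀ (m p₀ q₀ : ℕ) (r₀ b₀ : ℂ) (W : Set ℂ) (p q : ℕ)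
  (r b : ℂ), SatOf m p₀ q₀ r₀ b₀ W → Satellite (m * q₀) W r b p q →
    ∃ K ⊆ MS, IsCompact K ∧ IsPreconnected K ∧ r ∈ K ∧
      (∀ z ∈ K, z ≠ r → K \ {r} ∈ 𝓝[MS] z) ∧
      K ⊆ closedBall r (C * ((m * q₀ : ℕ) ^ 12 / q)) ∧
      ∃ V : Set ℂ, V.Nonempty ∧ ∀ z ∈ MS, z ∉ K → V ⊆ connectedComponentIn (MS \ {r}) z

end Sat

end Pool.Agent.Work.MLC
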