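import Pool.Agent.Work.MLC.SatCircE
import Pool.Agent.Work.MLC.Sat0

set_option autoImplicit false

/-! # Circle module for satellite components, part F (helper54)

Assembly: `s1_circle`, `s1_rot`. -/

namespace Pool.Agent.Work.MLC

open Set Circ CircleDeg1Lift Filter Topology

/-- points of the orbit are `N q`-periodic -/
theorem per_of_mem {N q : ℕ} {x : ℝ} (hx : PerAngle N q x) {j : ℕ} {a : ℝ} (ha : a ∈ AA N x j) :
    ∃ l : ℤ, (2 : ℝ) ^ (N * q) * a - a = l := (perAngle_of_mem hx ha).2.1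

namespace CA

variable {N q : ℕ} {w : ℕ → ℤ} {s t : ℝ}

/-- the flipped word is primitive -/
theorem flw_prim (h : CA N q w s t) : ∀ d, 0 < d → d < N * q →
    ∃ i, flw (N * q) w (i + d) ≠ flw (N * q) w i := by
  intro d hd hdn
  by_contra hcon
  push Not at hcon
  have hN := h.pos
  have hq := h.two
  have hw := h.word
  set n := N * q with hn
  have hn2 : 2 * N ≤ n := by
    calc 2 * N = N * 2 := by ring
      _ ≤ N * q := Nat.mul_le_mul_left N hq
  -- the last letter
  have e1 : flw n w (n - 1 + d) = flw n w (n - 1) := hcon (n - 1)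
  have hl : flw n w (n - 1) = 1 - w (n - 1) := flw_last w (by omega)
  have hd1 : flw n w (n - 1 + d) = w (n - 1 + d) := by
    unfold flw
    rw [if_neg]
    rw [show n - 1 + d + 1 = d + n by omega, Nat.add_mod_right, Nat.mod_eq_of_lt hdn]
    omega
  have e2 : w (n - 1 + d) = 1 - w (n - 1) := by rw [← hd1, e1, hl]
  -- the letter `N` steps later
  have e3 : flw n w (n - 1 + N + d) = flw n w (n - 1 + N) := hcon (n - 1 + N)
  have h4 : flw n w (n - 1 + N) = w (n - 1) := by
    unfold flw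
    rw [if_neg, hw.2.1]
    rw [show n - 1 + N + 1 = N + n by omega, Nat.add_mod_right, Nat.mod_eq_of_lt (by omega)]
    omega
  rw [h4] at e3
  have hb := hw.1 (n - 1)
  by_cases h5 : (n - 1 + N + d + 1) % n = 0
  · -- `d = n - N`
    have h6 : (N + d) % n = 0 := by
      rwa [show n - 1 + N + d + 1 = N + d + n by omega, Nat.add_mod_right] at h5
    have h7 : N + d = n := by
      rcases Nat.lt_or_ge (N + d) n with h8 | h8
      · rw [Nat.mod_eq_of_lt h8] at h6; omega
      · rw [Nat.mod_eq_sub_mod h8, Nat.mod_eq_of_lt (by omega)] at h6; omega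
    have h8 : flw n w (n - 1 + N + d) = 1 - w (n - 1) := by
      rw [show n - 1 + N + d = n - 1 + n by omega, flw_per (fun i => word_mod hw.2.1 i q), hl]
    rw [h8] at e3
    omega
  · have h8 : flw n w (n - 1 + N + d) = w (n - 1 + d) := by
      unfold flw
      rw [if_neg h5, show n - 1 + N + d = n - 1 + d + N by omega, hw.2.1]
    rw [h8, e2] at e3
    omega

/-- compatibility inside a label forces the angle to be inside the arc -/
theorem arc_of_compat (h : CA N q w s t) {P : ℤ} (hP : ∀ θ, s ≤ θ → θ ≤ t → nu w N θ = P / q)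
    {k₀ : ℤ} (hk1 : (k₀ : ℝ) < (P : ℝ) / q) (hk2 : (P : ℝ) / q < k₀ + 1) {θ : ℝ}
    (hc : Compat s θ w) (h1 : (k₀ : ℝ) < nu w N θ) (h2 : nu w N θ < k₀ + 1) : s < θ ∧ θ < t := by
  have hst := h.lt
  have hts := h.lt'
  have hn0 := h.npos
  obtain ⟨M, hM⟩ : ∃ M, M + 1 = N * q := ⟨N * q - 1, by omega⟩
  have hMn : (M + 1) % (N * q) = 0 := by rw [hM, Nat.mod_self]
  have hct : Compat t θ w := by
    have := compat_of_mem h.word.2.1 hc h.mem
    simpa using this
  obtain ⟨a, a1, a2⟩ := hc M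
  obtain ⟨k, -, -, -, hk⟩ := h.s_pos M
  have hk := hk hMn
  obtain ⟨b, b1, b2⟩ := hct M
  obtain ⟨l, -, -, -, hl⟩ := h.t_pos M
  have hl := hl hMn
  rw [pow_succ] at hk hl
  -- `θ < s + 1 + 2 (k - a) < θ + 1`, `θ < t + 2 (l - b) < θ + 1`
  have c1 : θ < s + 1 + 2 * (k - a) := by linarith
  have c2 : s + 1 + 2 * (k - a) < θ + 1 := by linarith
  have c3 : θ < t + 2 * (l - b) := by linarith
  have c4 : t + 2 * (l - b) < θ + 1 := by linarith
  have hc0 : l - b = k - a := by
    have f1 : ((-1 : ℤ) : ℝ) < ((l - b - (k - a) : ℤ) : ℝ) := by push_cast; linarith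
    have f2 : ((l - b - (k - a) : ℤ) : ℝ) < ((1 : ℤ) : ℝ) := by push_cast; linarith
    have f3 : -1 < l - b - (k - a) := by exact_mod_cast f1
    have f4 : l - b - (k - a) < 1 := by exact_mod_cast f2
    omega
  set e : ℤ := k - a with he
  have hc0' : (l : ℝ) - b = e := by
    have : ((l - b : ℤ) : ℝ) = ((e : ℤ) : ℝ) := by rw [hc0]
    push_cast at this; exact this
  have he' : (k : ℝ) - a = e := by rw [he]; push_cast; ring
  rw [he'] at c1 c2
  rw [hc0'] at c3 c4
  -- `θ - 2 e` is in the arc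
  have g1 : s < θ + 2 * ((-e : ℤ) : ℝ) := by push_cast; linarith
  have g2 : θ + 2 * ((-e : ℤ) : ℝ) < t := by push_cast; linarith
  have g3 := hP _ g1.le g2.le
  rw [nu_add_even] at g3
  have hN : (1 : ℝ) ≤ N := by exact_mod_cast h.pos
  have g4 : e = 0 := by
    have f1 : ((-1 : ℤ) : ℝ) < ((N * e : ℤ) : ℝ) := by push_cast; push_cast at g3; linarith
    have f2 : ((N * e : ℤ) : ℝ) < ((1 : ℤ) : ℝ) := by push_cast; push_cast at g3; linarith
    have f3 : -1 < (N : ℤ) * e := by exact_mod_cast f1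
    have f4 : (N : ℤ) * e < 1 := by exact_mod_cast f2
    have f5 : (N : ℤ) * e = 0 := by omega
    rcases mul_eq_zero.1 f5 with f6 | f6
    · have := h.pos; omega
    · exact f6
  rw [g4] at g1 g2
  push_cast at g1 g2
  exact ⟨by linarith, by linarith⟩

end CA

theorem isCoprime_aux (x : ℚ) (k₀ : ℤ) : IsCoprime (k₀ * x.den + x.num) (x.den : ℤ) := by
  have h : IsCoprime x.num (x.den : ℤ) := by
    rw [Int.isCoprime_iff_nat_coprime]
    simpa using x.reduced
  have := h.add_mul_left_left k₀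
  rwa [add_comm, mul_comm] at this

theorem cast_aux (x : ℚ) (k₀ : ℤ) :
    ((k₀ * x.den + x.num : ℤ) : ℝ) / (x.den : ℕ) = k₀ + x := by
  have h : (x.den : ℝ) ≠ 0 := by exact_mod_cast x.den_nz
  have h2 : (x : ℝ) = x.num / x.den := Rat.cast_def x
  rw [h2]
  push_cast
  field_simp

theorem two_le_den {x : ℚ} (h0 : 0 < x) (h1 : x < 1) : 2 ≤ x.den := by
  by_contra hcon
  have hd : x.den = 1 := by have := x.den_pos; omega
  have hx : x = x.num := ((Rat.den_eq_one_iff x).1 hd).symm
  rw [hx] at h0 h1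
  have h2 : 0 < x.num := by exact_mod_cast h0
  have h3 : x.num < 1 := by exact_mod_cast h1
  omega

namespace Sat

/-- **S1'** -/
theorem s1_rot : S1_rot := by
  intro m w i₀ θ hw
  have := nu_shift_word w m hw.per θ i₀
  rw [← this]
  congr 1
  funext i
  rw [add_comm]

/-- **S1** -/
theorem s1_circle : S1_circle := by
  intro m x w k₀ hm hx0 hx1 hbits hprim
  have hW : Word m w := ⟨hbits.bit, hbits.per, hprim⟩
  have hq := two_le_den hx0 hx1
  obtain ⟨i₀, hi₀, s, t, h, hplat⟩ := exists_arc hm hq hW (isCoprime_aux x k₀)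
  obtain ⟨k, hks, hkt, hkin⟩ := h.flw_arc
  have hcomm : (fun i => w (i₀ + i)) = fun i => w (i + i₀) := by
    funext i; rw [add_comm]
  rw [hcomm] at h hplat hks hkt hkin
  refine ⟨i₀, flw (m * x.den) (fun i => w (i + i₀)), k, s, t, hi₀, fun σ => ?_⟩
  set w' : ℕ → ℤ := fun i => w (i + i₀) with hw'
  set P : ℤ := k₀ * x.den + x.num with hP
  have hPx : ((P : ℤ) : ℝ) / (x.den : ℕ) = k₀ + x := cast_aux x k₀
  have hst := h.lt
  have hts := h.lt'
  have hq0 : 0 < x.den := by omega
  have hn0 : 0 < m * x.den := Nat.mul_pos hm hq0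
  have hx0' : (0 : ℝ) < x := by exact_mod_cast hx0
  have hx1' : (x : ℝ) < 1 := by exact_mod_cast hx1
  have hplat' : ∀ θ, s ≤ θ → θ ≤ t → nu w' m θ = (P : ℝ) / (x.den : ℕ) := fun θ h1 h2 =>
    (hplat θ).2 ⟨h1, h2⟩
  have hgap : ∀ θ, |nu w' m θ - (k₀ + x)| < 1 / (((m * x.den : ℕ) : ℝ) * x.den) →
      (∃ l : ℤ, (2 : ℝ) ^ (m * x.den) * θ - θ = l) → s ≤ θ ∧ θ ≤ t := by
    intro θ h1 h2
    rw [← hPx] at h1
    exact (hplat θ).1 (gap_of_near w' m (m * x.den) x.den hn0 hq0 h2 h1)
  have hL : ∀ θ, |nu w' m θ - (k₀ + x)| < 1 / (((m * x.den : ℕ) : ℝ) * x.den) →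
      ∀ j, ∀ a ∈ AA m s j, θ ≤ a → ¬ a < s := by
    intro θ h1 j a ha h2 h3
    have h4 : nu w' m θ ≤ nu w' m a := nu_mono w' m h2
    have h5 : nu w' m a ≤ nu w' m s := nu_mono w' m h3.le
    rw [hplat' s le_rfl hst.le, hPx] at h5
    have h6 : |nu w' m a - (k₀ + x)| < 1 / (((m * x.den : ℕ) : ℝ) * x.den) := by
      rw [abs_lt] at h1 ⊢
      constructor <;> linarith [h1.1, h1.2]
    exact absurd (hgap a h6 (per_of_mem h.per ha)).1 (not_le.2 h3)
  have hR : ∀ θ, |nu w' m θ - (k₀ + x)| < 1 / (((m * x.den : ℕ) : ℝ) * x.den) →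
      ∀ j, ∀ a ∈ AA m s j, t < a → ¬ a ≤ θ := by
    intro θ h1 j a ha h2 h3
    have h4 : nu w' m a ≤ nu w' m θ := nu_mono w' m h3
    have h5 : nu w' m t ≤ nu w' m a := nu_mono w' m h2.le
    rw [hplat' t hst.le le_rfl, hPx] at h5
    have h6 : |nu w' m a - (k₀ + x)| < 1 / (((m * x.den : ℕ) : ℝ) * x.den) := by
      rw [abs_lt] at h1 ⊢
      constructor <;> linarith [h1.1, h1.2]
    exact absurd (hgap a h6 (per_of_mem h.per ha)).2 (not_le.2 h2)
  exact
    { ubits := bits_flw h.word
      flip := by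
        intro i
        show flw (m * x.den) w' i = if m * x.den ∣ i + 1 then 1 - w' i else w' i
        unfold flw
        by_cases hd : m * x.den ∣ i + 1
        · rw [if_pos hd, if_pos (Nat.dvd_iff_mod_eq_zero.1 hd)]
        · rw [if_neg hd, if_neg fun h0 => hd (Nat.dvd_iff_mod_eq_zero.2 h0)]
      uprim := h.flw_prim
      lt := hst
      lt_one := hts
      plateau := by
        intro θ
        show nu w' m θ = k₀ + x ↔ s ≤ θ ∧ θ ≤ t
        rw [← hPx]; exact hplat θ
      nu_in := hkin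
      nu_left := fun θ h1 h2 => (h.nu_left h2 (hL θ h1)).trans hks
      nu_right := fun θ h1 h2 => (h.nu_right h2 (hR θ h1)).trans hkt
      per := h.per
      orb := by
        obtain ⟨j, l, e⟩ := h.mem
        refine ⟨j, l, ?_⟩
        show t = 2 ^ (m * j) * s + l
        rwa [zero_add] at e
      orb' := by
        have h1 : s ∈ AA m t 0 := by
          rw [h.AA_t]; simpa using mem_AA m s 0
        obtain ⟨j, l, e⟩ := h1
        refine ⟨j, l, ?_⟩
        show s = 2 ^ (m * j) * t + l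
        rwa [zero_add] at e
      avoid := by
        rintro i l ⟨h1, h2⟩
        exact h.nopt i _ (AA_shift (mem_AA m s i) l) h1 h2
      gap := hgap
      compat_w := by
        intro θ h1 h2
        refine ⟨h.compat θ h1 h2, ?_⟩
        have := compat_of_mem h.word.2.1 (h.compat θ h1 h2) h.mem
        simpa using this
      compat_w' := by
        intro θ h1 h2 h3
        refine h.arc_of_compat hplat' (k₀ := k₀) ?_ ?_ h1 h2 h3
        · rw [hPx]; linarith
        · rw [hPx]; linarith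
      compat_u_left := fun θ h1 h2 => h.compat_left h2 (hL θ h1)
      compat_u_right := fun θ h1 h2 => h.compat_right h2 (hR θ h1)
      trans := by
        intro θ h1 h2 β q' hβ hc
        obtain ⟨P', hcop', hnu'⟩ := nu_of_compat hβ h.word.2.1 hc
        have hnu := hplat' θ h1 h2
        rw [hnu] at hnu'
        have hq'0 : 0 < q' := hβ.1
        have hqq : x.den = q' := by
          rw [div_eq_div_iff (by exact_mod_cast hq0.ne') (by exact_mod_cast hq'0.ne')] at hnu'
          have e : P * q' = P' * x.den := by exact_mod_cast hnu'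
          have h3 : (x.den : ℤ) ∣ q' := by
            have : (x.den : ℤ) ∣ P * q' := ⟨P', by rw [e]; ring⟩
            exact (isCoprime_aux x k₀).symm.dvd_of_dvd_mul_left this
          have h4 : (q' : ℤ) ∣ x.den := by
            have : (q' : ℤ) ∣ P' * x.den := ⟨P, by rw [← e]; ring⟩
            exact hcop'.symm.dvd_of_dvd_mul_left this
          exact Nat.dvd_antisymm (by exact_mod_cast h3) (by exact_mod_cast h4)
        subst hqq
        obtain ⟨j, l, e⟩ := h.unique hβ h1 h2 hc
        refine ⟨j, l, ?_⟩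
        show s = 2 ^ (m * j) * β + l
        rwa [zero_add] at e }

end Sat

end Pool.Agent.Work.MLC
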