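import Pool.Agent.Work.MLC.NVDefs
import Pool.Agent.Work.MLC.Count

set_option autoImplicit false

/-! # Attracting cycles of period `n q` close to a root (helper6)

`sum_inv`: `∑ 1 / (1 - μ) = 0` over the fixed points of `f_c^m`, when no multiplier is `1`.
`attr_near`: for small `t > 0` the parameter `(σ (2 π i x + t)).1` has an attracting point of period
dividing `n q`. -/

namespace Pool.Agent.Work.MLC

open Filter Topology Metric Set Polynomial

namespace NV

/-- the fixed points of `f_c^m` -/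
noncomputable def fixS (m : ℕ) (c : ℂ) : Finset ℂ := (Cnt.fx c m).roots.toFinset

lemma mem_fixS {m : ℕ} (hm : 0 < m) {c z : ℂ} : z ∈ fixS m c ↔ it c m z = z := by
  rw [fixS, Multiset.mem_toFinset, Cnt.mem_roots_fx hm]

lemma nodup_roots {m : ℕ} (hm : 0 < m) {c : ℂ} (h : ∀ b, it c m b = b → mul m (c, b) ≠ 1) :
    (Cnt.fx c m).roots.Nodup := by
  rw [Multiset.nodup_iff_count_le_one]
  intro b
  rw [count_roots]
  by_contra hcon
  push Not at hcon
  rw [one_lt_rootMultiplicity_iff_isRoot (Cnt.fx_monic hm c).ne_zero] at hcon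
  obtain ⟨h1, h2⟩ := hcon
  have h3 : it c m b = b := by
    have : (Cnt.fx c m).eval b = 0 := h1
    rw [Cnt.eval_fx] at this
    exact sub_eq_zero.1 this
  apply h b h3
  have h4 : (derivative (Cnt.fx c m)).eval b = 0 := h2
  rw [Cnt.fx, derivative_sub, derivative_X, eval_sub, eval_one, Cnt.eval_derivative_pc] at h4
  exact sub_eq_zero.1 h4

lemma card_fixS {m : ℕ} (hm : 0 < m) {c : ℂ} (h : ∀ b, it c m b = b → mul m (c, b) ≠ 1) :
    (fixS m c).card = 2 ^ m := by
  rw [fixS, Multiset.toFinset_card_of_nodup (nodup_roots hm h), Cnt.card_roots_fx hm]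

/-- holomorphic fixed point formula for polynomials -/
theorem sum_inv {m : ℕ} (hm : 0 < m) {c : ℂ} (h : ∀ b, it c m b = b → mul m (c, b) ≠ 1) :
    ∑ b ∈ fixS m c, 1 / (1 - mul m (c, b)) = 0 := by
  classical
  have hnd := nodup_roots hm h
  have hinj : Set.InjOn (id : ℂ → ℂ) (fixS m c : Set ℂ) := Function.injective_id.injOn
  have hcard := card_fixS hm h
  have h2 : 2 ≤ 2 ^ m := by
    calc 2 = 2 ^ 1 := by norm_num
      _ ≤ 2 ^ m := Nat.pow_le_pow_right (by norm_num) hm
  have hdeg : (1 : ℂ[X]).degree < (fixS m c).card := by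
    rw [degree_one, hcard]
    exact_mod_cast (by omega : 0 < 2 ^ m)
  have h3 := Lagrange.coeff_eq_sum hinj hdeg
  rw [hcard, coeff_one, if_neg (by omega)] at h3
  have hnodal : Lagrange.nodal (fixS m c) id = Cnt.fx c m := by
    rw [Lagrange.nodal_eq]
    have h4 := (IsAlgClosed.splits (Cnt.fx c m)).eq_prod_roots
    rw [(Cnt.fx_monic hm c).leadingCoeff, map_one, one_mul] at h4
    rw [h4, fixS]
    rw [Finset.prod_multiset_map_count]
    refine Finset.prod_congr rfl fun b hb => ?_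
    rw [Multiset.count_eq_one_of_mem hnd (Multiset.mem_toFinset.1 hb)]
    simp
  have h5 : ∀ b ∈ fixS m c, (eval (id b) (1 : ℂ[X])) / ∏ j ∈ (fixS m c).erase b, (id b - id j) =
      -(1 / (1 - mul m (c, b))) := by
    intro b hb
    have h6 := Lagrange.nodalWeight_eq_eval_derivative_nodal (v := (id : ℂ → ℂ)) hb
    rw [hnodal, Lagrange.nodalWeight, Finset.prod_inv_distrib] at h6
    rw [eval_one, one_div, h6, Cnt.fx, derivative_sub, derivative_X, eval_sub, eval_one, id,
      Cnt.eval_derivative_pc, one_div, ← inv_neg, neg_sub]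
  rw [Finset.sum_congr rfl h5, Finset.sum_neg_distrib] at h3
  exact neg_eq_zero.1 h3.symm

lemma re_le_half {μ : ℂ} (h : 1 ≤ ‖μ‖) : (1 / (1 - μ)).re ≤ 1 / 2 := by
  by_cases h1 : 1 - μ = 0
  · rw [h1, div_zero]; norm_num
  rw [one_div, Complex.inv_re]
  have hpos : 0 < Complex.normSq (1 - μ) := Complex.normSq_pos.2 h1
  rw [div_le_iff₀ hpos]
  have h2 : Complex.normSq (1 - μ) = 1 - 2 * μ.re + ‖μ‖ ^ 2 := by
    rw [← Complex.normSq_eq_norm_sq, Complex.normSq_apply, Complex.normSq_apply]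
    simp only [Complex.sub_re, Complex.one_re, Complex.sub_im, Complex.one_im]
    ring
  rw [h2, Complex.sub_re, Complex.one_re]
  nlinarith

/-- if one of the fixed points of `f_c^m` has the multiplier `exp s` with small `s > 0`, and no
multiplier is `1`, then there is an attracting one -/
theorem exists_attr {m : ℕ} (hm : 0 < m) {c : ℂ} (h : ∀ b, it c m b = b → mul m (c, b) ≠ 1)
    {b : ℂ} (hb : it c m b = b) {s : ℝ} (hs : 0 < s) (hs2 : s * 2 ^ m < 1)
    (hmul : mul m (c, b) = Complex.exp s) : ∃ b', Attr m c b' := by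
  by_contra hcon
  push Not at hcon
  have hrep : ∀ b', it c m b' = b' → 1 ≤ ‖mul m (c, b')‖ := by
    intro b' hb'
    by_contra h1
    push Not at h1
    exact hcon b' ⟨hb', h1⟩
  have h1 := sum_inv hm h
  have hbS : b ∈ fixS m c := (mem_fixS hm).2 hb
  rw [← Finset.add_sum_erase _ _ hbS] at h1
  have h2 := congrArg Complex.re h1
  rw [Complex.add_re, Complex.re_sum, Complex.zero_re, hmul] at h2
  have h3 : ∑ b' ∈ (fixS m c).erase b, (1 / (1 - mul m (c, b'))).re ≤
      ∑ b' ∈ (fixS m c).erase b, (1 / 2 : ℝ) := by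
    apply Finset.sum_le_sum
    intro b' hb'
    exact re_le_half (hrep b' ((mem_fixS hm).1 (Finset.mem_of_mem_erase hb')))
  rw [Finset.sum_const, Finset.card_erase_of_mem hbS, card_fixS hm h, nsmul_eq_mul] at h3
  have h4 : (1 / (1 - Complex.exp (s : ℂ))).re = 1 / (1 - Real.exp s) := by
    rw [← Complex.ofReal_exp, ← Complex.ofReal_one, ← Complex.ofReal_sub, ← Complex.ofReal_div,
      Complex.ofReal_re]
  rw [h4] at h2
  have h5 : Real.exp s - 1 ≤ 2 * s := by
    have hs1 : s ≤ 1 := by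
      have h6 : (1 : ℝ) ≤ 2 ^ m := one_le_pow₀ (by norm_num)
      nlinarith
    have h6 := Real.abs_exp_sub_one_le (x := s) (by rw [abs_of_pos hs]; exact hs1)
    rw [abs_of_pos hs] at h6
    exact (le_abs_self _).trans h6
  have h6 : 0 < Real.exp s - 1 := by
    have := Real.add_one_lt_exp hs.ne'
    linarith
  have h7 : 1 / (1 - Real.exp s) ≤ -(1 / (2 * s)) := by
    have h8 : 1 / (2 * s) ≤ 1 / (Real.exp s - 1) := one_div_le_one_div_of_le h6 h5
    have h9 : 1 / (1 - Real.exp s) = -(1 / (Real.exp s - 1)) := by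
      rw [← neg_sub, one_div, one_div, inv_neg]
    rw [h9]; linarith
  have h8 : (2 : ℝ) ^ m / 2 < 1 / (2 * s) := by
    rw [div_lt_div_iff₀ (by norm_num) (by positivity)]
    linarith
  have h9 : (((2 ^ m - 1 : ℕ) : ℝ)) ≤ 2 ^ m := by
    have : (2 ^ m - 1 : ℕ) ≤ 2 ^ m := Nat.sub_le _ _
    exact_mod_cast this
  linarith

/-- parameters with a multiplier `1` are finite in number -/
lemma finite_par {m : ℕ} (hm : 0 < m) : {c : ℂ | ∃ b, it c m b = b ∧ mul m (c, b) = 1}.Finite := by
  classical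
  refine ((Cnt.Rp m 1).roots.toFinset.finite_toSet).subset ?_
  rintro c ⟨b, hb, hb1⟩
  rw [Finset.mem_coe, Multiset.mem_toFinset, mem_roots (Cnt.Rp_ne_zero hm 1), IsRoot,
    Cnt.eval_Rp hm, Multiset.prod_eq_zero_iff, Multiset.mem_map]
  exact ⟨b, (Cnt.mem_roots_fx hm).2 hb, by rw [hb1, sub_self]⟩

lemma it_mul_period {c b : ℂ} {n : ℕ} (hb : it c n b = b) (k : ℕ) : it c (n * k) b = b := by
  induction k with
  | zero => simp
  | succ k ih => rw [Nat.mul_succ, it_add, hb, ih]

lemma mul_mul_period {c b : ℂ} {n : ℕ} (hb : it c n b = b) (k : ℕ) :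
    mul (n * k) (c, b) = mul n (c, b) ^ k := by
  induction k with
  | zero => simp [mul]
  | succ k ih =>
    have h1 : mul (n * (k + 1)) (c, b) = mul (n * k) (c, b) *
        ∏ i ∈ Finset.range n, 2 * it c (n * k + i) b := by
      unfold mul
      rw [Nat.mul_succ, Finset.prod_range_add]
    rw [h1, ih, pow_succ]
    congr 1
    unfold mul
    refine Finset.prod_congr rfl fun i _ => ?_
    simp only
    rw [add_comm, it_add, it_mul_period hb]

/-- **(NV1)** -/
theorem attr_near {n q : ℕ} {x : ℚ} {R : ℝ} {σ : ℂ → ℂ × ℂ} (hxq : x.den = q) (hR : 0 < R)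
    (h : GoodDom n (ball (axisPt x) R)) (hσ : ContinuousOn σ (ball (axisPt x) R))
    (hσ' : ∀ L ∈ ball (axisPt x) R, σ L ∈ Per n ∧ mul n (σ L) = Complex.exp L)
    (hinj : ∃ δ > 0, InjOn (fun L => (σ L).1) (ball (axisPt x) δ)) :
    ∃ t₀ > 0, t₀ < R ∧ ∀ t : ℝ, 0 < t → t < t₀ →
      ∃ b', Attr (n * q) (σ (axisPt x + t)).1 b' := by
  have hn := h.pos
  have hq : 0 < q := by rw [← hxq]; exact x.pos
  have hnq : 0 < n * q := Nat.mul_pos hn hq
  obtain ⟨δ, hδ, hinj⟩ := hinj
  have hcen : axisPt x ∈ ball (axisPt x) R := mem_ball_self hR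
  -- parameters near the root have no multiplier `1`
  have hfin := finite_par hnq
  set F : Set ℂ := {c : ℂ | ∃ b, it c (n * q) b = b ∧ mul (n * q) (c, b) = 1} with hF
  have h1 : ∀ᶠ c in 𝓝 (σ (axisPt x)).1, c ∉ F \ {(σ (axisPt x)).1} := by
    have : IsClosed (F \ {(σ (axisPt x)).1}) := (hfin.subset sdiff_subset).isClosed
    exact this.isOpen_compl.mem_nhds (fun h0 => h0.2 rfl)
  have hc : ContinuousAt (fun L => (σ L).1) (axisPt x) :=
    continuous_fst.continuousAt.comp (hσ.continuousAt (isOpen_ball.mem_nhds hcen))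
  obtain ⟨δ', hδ', hev⟩ := Metric.eventually_nhds_iff_ball.1 (hc.eventually h1)
  set t₀ : ℝ := min (min δ δ') (min (R / 2) (1 / (q * 2 ^ (n * q)))) with ht₀
  have hq' : (0 : ℝ) < q := by exact_mod_cast hq
  have ht₀0 : 0 < t₀ := by
    refine lt_min (lt_min hδ hδ') (lt_min (by positivity) (by positivity))
  refine ⟨t₀, ht₀0, ?_, fun t ht0 ht => ?_⟩
  · have : t₀ ≤ R / 2 := (min_le_right _ _).trans (min_le_left _ _)
    linarith
  have htδ : t < δ := ht.trans_le ((min_le_left _ _).trans (min_le_left _ _))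
  have htδ' : t < δ' := ht.trans_le ((min_le_left _ _).trans (min_le_right _ _))
  have htR : t < R := by
    have : t₀ ≤ R / 2 := (min_le_right _ _).trans (min_le_left _ _)
    linarith
  have htq : t < 1 / (q * 2 ^ (n * q)) := ht.trans_le ((min_le_right _ _).trans (min_le_right _ _))
  have hmem : ∀ ρ : ℝ, t < ρ → axisPt x + t ∈ ball (axisPt x) ρ := by
    intro ρ hρ
    rw [mem_ball, dist_eq_norm, add_sub_cancel_left, Complex.norm_real, Real.norm_eq_abs,
      abs_of_pos ht0]
    exact hρ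
  have hL := hmem R htR
  obtain ⟨h2, h3⟩ := hσ' _ hL
  set c := (σ (axisPt x + t)).1 with hcdef
  have hcF : c ∉ F := by
    intro h4
    refine hev _ (hmem δ' htδ') ⟨h4, ?_⟩
    intro h5
    have h6 := hinj (hmem δ htδ) (mem_ball_self hδ) h5
    have h7 : (t : ℂ) = 0 := by linear_combination h6
    have h8 : t = 0 := by exact_mod_cast h7
    exact ht0.ne' h8
  have hsimple : ∀ b, it c (n * q) b = b → mul (n * q) (c, b) ≠ 1 :=
    fun b hb h4 => hcF ⟨b, hb, h4⟩
  have hbn : it c n (σ (axisPt x + t)).2 = (σ (axisPt x + t)).2 := h2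
  have hmulq : mul (n * q) (c, (σ (axisPt x + t)).2) = Complex.exp ((q * t : ℝ) : ℂ) := by
    rw [mul_mul_period hbn q]
    have h4 : mul n (c, (σ (axisPt x + t)).2) = Complex.exp (axisPt x + t) := h3
    rw [h4, ← Complex.exp_nat_mul]
    have h5 : (q : ℂ) * (axisPt x + t) = (x.num : ℂ) * (2 * Real.pi * Complex.I) + ((q * t : ℝ) : ℂ) := by
      have h6 : (q : ℂ) * ((x : ℝ) : ℂ) = x.num := by
        have h7 : (x : ℚ) * q = x.num := by rw [← hxq]; exact Rat.mul_den_eq_num x
        have h8 : ((x : ℝ) : ℂ) = (x : ℂ) := by push_cast; rfl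
        rw [h8, mul_comm]
        exact_mod_cast congrArg (fun y : ℚ => (y : ℂ)) h7
      unfold axisPt
      push_cast
      push_cast at h6
      linear_combination (2 * Real.pi * Complex.I) * h6
    rw [h5, Complex.exp_add]
    have h6 : Complex.exp ((x.num : ℂ) * (2 * Real.pi * Complex.I)) = 1 :=
      Complex.exp_int_mul_two_pi_mul_I x.num
    rw [h6, one_mul]
  refine exists_attr hnq hsimple (it_mul_period hbn q) (s := q * t) (by positivity) ?_ hmulq
  rw [lt_div_iff₀ (by positivity)] at htq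
  calc q * t * 2 ^ (n * q) = t * (q * 2 ^ (n * q)) := by ring
    _ < 1 := htq

end NV

end Pool.Agent.Work.MLC
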