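import Pool.Agent.Work.MLC.Lin

set_option autoImplicit false

/-! # Satellites: the multiplier of the bifurcating cycle near the root (helper4)

Let `β e` be the point of the parent cycle for the parameter `c₀ e`, with multiplier
`exp (q e)` for `f^n`. For the other fixed points `z` of `f^n` near `β 0` we have
`mult - 1 = - M (exp (q e) - 1) + O (|e| |z - β e|)` with an integer `M ≥ 1` (the multiplicity of the
parabolic point minus one). No nondegeneracy is used. -/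

namespace Pool.Agent.Work.MLC.SatBif4

open Metric Set Filter Topology Finset

theorem bif_core {D : ℕ} {a : ℕ → ℂ → ℂ}
    (hLip : ∀ i ≤ D, ∃ C : ℝ, ∀ᶠ e in 𝓝 (0 : ℂ), ‖a i e - a i 0‖ ≤ C * ‖e‖)
    (h0 : a 0 0 = 0) (hne : ∃ i ≤ D, a i 0 ≠ 0) :
    ∃ M : ℕ, 1 ≤ M ∧ M ≤ D ∧ ∃ C : ℝ, 0 < C ∧ ∀ᶠ p : ℂ × ℂ in 𝓝 (0, 0),
      ∑ i ∈ range (D + 1), a i p.1 * p.2 ^ i = 0 →
      ‖∑ i ∈ range (D + 1), (i : ℂ) * (a i p.1 * p.2 ^ i) + M * a 0 p.1‖ ≤ C * ‖p.1‖ * ‖p.2‖ := by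
  classical
  -- uniform constants
  have hL : ∃ C : ℝ, 0 < C ∧ ∀ᶠ e in 𝓝 (0 : ℂ), ∀ i ≤ D, ‖a i e - a i 0‖ ≤ C * ‖e‖ := by
    choose! C hC using hLip
    refine ⟨∑ i ∈ range (D + 1), |C i| + 1, by positivity, ?_⟩
    have : ∀ᶠ e in 𝓝 (0 : ℂ), ∀ i ∈ range (D + 1), ‖a i e - a i 0‖ ≤ C i * ‖e‖ := by
      rw [Filter.eventually_all_finset]
      intro i hi
      exact hC i (by simpa [Nat.lt_succ_iff] using hi)
    filter_upwards [this] with e he i hi
    have hi' : i ∈ range (D + 1) := by simpa [Nat.lt_succ_iff] using hi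
    refine (he i hi').trans (mul_le_mul_of_nonneg_right ?_ (norm_nonneg _))
    have h1 : |C i| ≤ ∑ i ∈ range (D + 1), |C i| :=
      single_le_sum (f := fun i => |C i|) (fun j _ => abs_nonneg _) hi'
    linarith [le_abs_self (C i)]
  obtain ⟨C₁, hC₁, hC₁'⟩ := hL
  have hex : ∃ i, i ≤ D ∧ a i 0 ≠ 0 := hne
  set M := Nat.find hex with hM
  have hMs := Nat.find_spec hex
  have hMD : M ≤ D := hMs.1
  have hM0 : a M 0 ≠ 0 := hMs.2
  have hlt : ∀ i < M, a i 0 = 0 := by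
    intro i hi
    by_contra h
    exact Nat.find_min hex hi ⟨by omega, h⟩
  have hM1 : 1 ≤ M := by
    rcases Nat.eq_zero_or_pos M with h | h
    · rw [h] at hM0; exact absurd h0 hM0
    · exact h
  set c₀ := ‖a M 0‖ with hc₀
  have hc₀0 : 0 < c₀ := norm_pos_iff.2 hM0
  set C₂ : ℝ := ∑ i ∈ range (D + 1), ‖a i 0‖ + C₁ with hC₂
  have hC₂0 : 0 < C₂ := by positivity
  refine ⟨M, hM1, hMD, (D + 1) * (D * C₁) + (D + 1) * (D * C₂ * (4 * ((D + 1) * C₁) / c₀)) + 1,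
    by positivity, ?_⟩
  set ρ : ℝ := min 1 (min (c₀ / (2 * C₁)) (c₀ / (4 * ((D + 1) * C₂)))) with hρ
  have hρ0 : 0 < ρ := by positivity
  have hfst : Tendsto (fun p : ℂ × ℂ => p.1) (𝓝 (0, 0)) (𝓝 0) := continuous_fst.tendsto _
  have hb1 : ∀ᶠ p : ℂ × ℂ in 𝓝 (0, 0), ‖p.1‖ < ρ :=
    (continuous_fst.norm.tendsto ((0 : ℂ), (0 : ℂ))).eventually_lt_const (by simpa using hρ0)
  have hb2 : ∀ᶠ p : ℂ × ℂ in 𝓝 (0, 0), ‖p.2‖ < ρ :=
    (continuous_snd.norm.tendsto ((0 : ℂ), (0 : ℂ))).eventually_lt_const (by simpa using hρ0)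
  filter_upwards [hfst.eventually hC₁', hb1, hb2] with p hp he ht hS
  obtain ⟨e, t⟩ := p
  simp only at hp he ht hS ⊢
  have hρ1 : ρ ≤ 1 := min_le_left _ _
  have ht1 : ‖t‖ ≤ 1 := by linarith
  have he1 : ‖e‖ ≤ 1 := by linarith
  have hsmall : ∀ i < M, ‖a i e‖ ≤ C₁ * ‖e‖ := fun i hi => by
    have := hp i (by omega)
    rwa [hlt i hi, sub_zero] at this
  have hbig : ∀ i ≤ D, ‖a i e‖ ≤ C₂ := fun i hi => by
    have h1 := hp i hi
    have h2 : ‖a i e‖ ≤ ‖a i e - a i 0‖ + ‖a i 0‖ := by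
      simpa using norm_add_le (a i e - a i 0) (a i 0)
    have h3 : ‖a i 0‖ ≤ ∑ i ∈ range (D + 1), ‖a i 0‖ :=
      single_le_sum (f := fun i => ‖a i 0‖) (fun j _ => norm_nonneg _)
        (by simpa [Nat.lt_succ_iff] using hi)
    have h4 : C₁ * ‖e‖ ≤ C₁ := by nlinarith
    rw [hC₂]; linarith
  have haM : c₀ / 2 ≤ ‖a M e‖ := by
    have h1 := hp M hMD
    have h2 : ‖a M 0‖ ≤ ‖a M e - a M 0‖ + ‖a M e‖ := by
      have := norm_sub_le (a M e) (a M e - a M 0)
      rw [sub_sub_cancel] at this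
      linarith
    have h3 : C₁ * ‖e‖ ≤ c₀ / 2 := by
      have h4 : ‖e‖ ≤ c₀ / (2 * C₁) := he.le.trans ((min_le_right _ _).trans (min_le_left _ _))
      calc C₁ * ‖e‖ ≤ C₁ * (c₀ / (2 * C₁)) := by gcongr
        _ = c₀ / 2 := by field_simp
    linarith
  have hMmem : M ∈ range (D + 1) := by simp; omega
  -- `|t| ^ M ≤ C |e|`
  have hpow : ∀ i, M < i → ‖t‖ ^ i ≤ ‖t‖ ^ M * ‖t‖ := fun i hi => by
    rw [← pow_succ]
    exact pow_le_pow_of_le_one (norm_nonneg _) ht1 hi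
  have htM : ‖t‖ ^ M ≤ 4 * ((D + 1) * C₁) / c₀ * ‖e‖ := by
    have h1 : a M e * t ^ M = - ∑ i ∈ (range (D + 1)).erase M, a i e * t ^ i := by
      rw [← add_sum_erase _ _ hMmem] at hS
      exact eq_neg_of_add_eq_zero_left hS
    have h2 : ‖a M e‖ * ‖t‖ ^ M ≤ ∑ i ∈ (range (D + 1)).erase M,
        (C₁ * ‖e‖ + C₂ * (‖t‖ ^ M * ‖t‖)) := by
      have h1' : ‖a M e‖ * ‖t‖ ^ M = ‖a M e * t ^ M‖ := by rw [norm_mul, norm_pow]
      rw [h1', h1, norm_neg]
      refine (norm_sum_le _ _).trans (sum_le_sum fun i hi => ?_)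
      rw [mem_erase, Finset.mem_range] at hi
      rw [norm_mul, norm_pow]
      rcases lt_or_gt_of_ne hi.1 with h | h
      · have h3 : ‖a i e‖ * ‖t‖ ^ i ≤ C₁ * ‖e‖ * 1 := by
          gcongr
          · exact hsmall i h
          · exact pow_le_one₀ (norm_nonneg _) ht1
        have h4 : 0 ≤ C₂ * (‖t‖ ^ M * ‖t‖) := by positivity
        linarith
      · have h3 : ‖a i e‖ * ‖t‖ ^ i ≤ C₂ * (‖t‖ ^ M * ‖t‖) := by
          gcongr
          · exact hbig i (by omega)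
          · exact hpow i h
        have h4 : 0 ≤ C₁ * ‖e‖ := by positivity
        linarith
    rw [sum_const, nsmul_eq_mul] at h2
    have h3 : (((range (D + 1)).erase M).card : ℝ) ≤ D + 1 := by
      have : ((range (D + 1)).erase M).card ≤ (range (D + 1)).card := card_erase_le
      rw [card_range] at this
      exact_mod_cast this
    have h4 : c₀ / 2 * ‖t‖ ^ M ≤ (D + 1) * (C₁ * ‖e‖ + C₂ * (‖t‖ ^ M * ‖t‖)) := by
      calc c₀ / 2 * ‖t‖ ^ M ≤ ‖a M e‖ * ‖t‖ ^ M := by gcongr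
        _ ≤ _ := h2
        _ ≤ _ := by gcongr
    have h5 : (D + 1) * C₂ * ‖t‖ ≤ c₀ / 4 := by
      have h6 : ‖t‖ ≤ c₀ / (4 * ((D + 1) * C₂)) :=
        ht.le.trans ((min_le_right _ _).trans (min_le_right _ _))
      calc (D + 1) * C₂ * ‖t‖ ≤ (D + 1) * C₂ * (c₀ / (4 * ((D + 1) * C₂))) := by gcongr
        _ = c₀ / 4 := by field_simp
    have h6 : c₀ / 4 * ‖t‖ ^ M ≤ (D + 1) * C₁ * ‖e‖ := by
      have h7 : 0 ≤ ‖t‖ ^ M := by positivity
      nlinarith
    rw [div_mul_eq_mul_div, le_div_iff₀ hc₀0]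
    linarith
  -- the main identity
  have hid : ∑ i ∈ range (D + 1), (i : ℂ) * (a i e * t ^ i) + M * a 0 e =
      ∑ i ∈ range (D + 1), (if i = 0 then 0 else ((i : ℂ) - M) * (a i e * t ^ i)) := by
    have h1 : ∑ i ∈ range (D + 1), (if i = 0 then 0 else ((i : ℂ) - M) * (a i e * t ^ i)) =
        ∑ i ∈ range (D + 1), ((i : ℂ) - M) * (a i e * t ^ i) + M * a 0 e := by
      rw [sum_range_succ', sum_range_succ' (fun i => ((i : ℂ) - M) * (a i e * t ^ i))]
      simp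
    rw [h1]
    have h2 : ∑ i ∈ range (D + 1), ((i : ℂ) - M) * (a i e * t ^ i) =
        ∑ i ∈ range (D + 1), (i : ℂ) * (a i e * t ^ i) -
          M * ∑ i ∈ range (D + 1), a i e * t ^ i := by
      rw [mul_sum, ← sum_sub_distrib]
      exact sum_congr rfl fun i _ => by ring
    rw [h2, hS]; ring
  rw [hid]
  have hterm : ∀ i ∈ range (D + 1),
      ‖(if i = 0 then (0 : ℂ) else ((i : ℂ) - M) * (a i e * t ^ i))‖ ≤
        D * C₁ * (‖e‖ * ‖t‖) + D * C₂ * (4 * ((D + 1) * C₁) / c₀) * (‖e‖ * ‖t‖) := by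
    intro i hi
    rw [Finset.mem_range] at hi
    have hp1 : 0 ≤ D * C₁ * (‖e‖ * ‖t‖) := by positivity
    have hp2 : 0 ≤ D * C₂ * (4 * ((D + 1) * C₁) / c₀) * (‖e‖ * ‖t‖) := by positivity
    split_ifs with h
    · rw [norm_zero]; linarith
    · have hd : ‖(i : ℂ) - M‖ ≤ D := by
        have : (i : ℂ) - M = (((i : ℤ) - M : ℤ) : ℂ) := by push_cast; ring
        rw [this, Complex.norm_intCast]
        have h2 : |(i : ℤ) - M| ≤ D := by rw [abs_le]; omega
        exact_mod_cast h2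
      rw [norm_mul, norm_mul, norm_pow]
      rcases lt_trichotomy i M with h1 | h1 | h1
      · have h2 : ‖t‖ ^ i ≤ ‖t‖ := by
          have := pow_le_pow_of_le_one (norm_nonneg t) ht1 (Nat.one_le_iff_ne_zero.2 h)
          simpa using this
        have h3 : ‖(i : ℂ) - M‖ * (‖a i e‖ * ‖t‖ ^ i) ≤ D * ((C₁ * ‖e‖) * ‖t‖) := by
          gcongr
          exact hsmall i h1
        linarith
      · rw [h1, sub_self, norm_zero, zero_mul]; linarith
      · have h3 : ‖(i : ℂ) - M‖ * (‖a i e‖ * ‖t‖ ^ i) ≤ D * (C₂ * (‖t‖ ^ M * ‖t‖)) := by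
          gcongr
          · exact hbig i (by omega)
          · exact hpow i h1
        have h4 : D * (C₂ * (‖t‖ ^ M * ‖t‖)) ≤
            D * (C₂ * ((4 * ((D + 1) * C₁) / c₀ * ‖e‖) * ‖t‖)) := by gcongr
        nlinarith
  refine (norm_sum_le _ _).trans ((sum_le_sum hterm).trans ?_)
  rw [sum_const, card_range, nsmul_eq_mul]
  push_cast
  have hp3 : 0 ≤ ‖e‖ * ‖t‖ := by positivity
  have : ((D : ℝ) + 1) * (D * C₁ * (‖e‖ * ‖t‖) +
      D * C₂ * (4 * ((D + 1) * C₁) / c₀) * (‖e‖ * ‖t‖)) =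
      ((D + 1) * (D * C₁) + (D + 1) * (D * C₂ * (4 * ((D + 1) * C₁) / c₀))) * (‖e‖ * ‖t‖) := by
    ring
  rw [this]
  generalize ((D : ℝ) + 1) * (D * C₁) + (D + 1) * (D * C₂ * (4 * ((D + 1) * C₁) / c₀)) = X
  nlinarith

/-- the iterate `it c n (b + X)` as a polynomial -/
noncomputable def Q (c b : ℂ) : ℕ → Polynomial ℂ
  | 0 => Polynomial.X + Polynomial.C b
  | n + 1 => (Q c b n) ^ 2 + Polynomial.C c

lemma Q_eval (c b : ℂ) (n : ℕ) (t : ℂ) : (Q c b n).eval t = it c n (b + t) := by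
  induction n with
  | zero => simp [Q, add_comm]
  | succ n ih => rw [Q, it_succ, ← ih]; simp [f]

lemma Q_natDegree (c b : ℂ) (n : ℕ) : (Q c b n).natDegree = 2 ^ n ∧ (Q c b n).Monic := by
  induction n with
  | zero => exact ⟨by simp [Q], by simpa [Q] using Polynomial.monic_X_add_C b⟩
  | succ n ih =>
    have h1 : ((Q c b n) ^ 2).Monic := ih.2.pow 2
    have h2 : ((Q c b n) ^ 2).natDegree = 2 ^ (n + 1) := by
      rw [ih.2.natDegree_pow, ih.1]; ring
    have h3 : (Polynomial.C c).degree < ((Q c b n) ^ 2).degree := by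
      rw [Polynomial.degree_eq_natDegree h1.ne_zero, h2]
      refine lt_of_le_of_lt Polynomial.degree_C_le ?_
      exact_mod_cast pow_pos (by norm_num : 0 < 2) (n + 1)
    refine ⟨?_, ?_⟩
    · rw [Q, Polynomial.natDegree_add_C, h2]
    · rw [Q]; exact h1.add_of_left h3

lemma Q_coeff_diff {c b : ℂ → ℂ} {e₀ : ℂ} (hc : DifferentiableAt ℂ c e₀)
    (hb : DifferentiableAt ℂ b e₀) (n : ℕ) :
    ∀ i, DifferentiableAt ℂ (fun e => (Q (c e) (b e) n).coeff i) e₀ := by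
  induction n with
  | zero =>
    intro i
    simp only [Q, Polynomial.coeff_add, Polynomial.coeff_C]
    split_ifs
    · exact (differentiableAt_const _).add hb
    · exact (differentiableAt_const _).add (differentiableAt_const _)
  | succ n ih =>
    intro i
    simp only [Q, Polynomial.coeff_add, sq, Polynomial.coeff_mul, Polynomial.coeff_C]
    refine DifferentiableAt.add ?_ ?_
    · exact DifferentiableAt.fun_sum fun x _ => (ih x.1).mul (ih x.2)
    · split_ifs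
      · exact hc
      · exact differentiableAt_const _

lemma Q_deriv (c b : ℂ) (n : ℕ) (t : ℂ) :
    (Polynomial.derivative (Q c b n)).eval t = mult n c (b + t) := by
  have h1 : HasDerivAt (fun t => it c n (b + t)) (mult n c (b + t)) t := by
    have h2 : HasDerivAt (fun t : ℂ => b + t) 1 t := (hasDerivAt_id t).const_add b
    have := HasDerivAt.comp t (h₂ := it c n) (hasDerivAt_it_mult c n (b + t)) h2
    rw [mul_one] at this
    exact this
  have h2 := (Q c b n).hasDerivAt t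
  have h3 : (fun x => Polynomial.eval x (Q c b n)) = fun t => it c n (b + t) := by
    funext x; exact Q_eval c b n x
  rw [h3] at h2
  exact h2.unique h1

/-- **The multiplier near the root.** -/
theorem mult_near_root {n : ℕ} {q : ℂ} {c₀ β : ℂ → ℂ} (hc : DifferentiableAt ℂ c₀ 0)
    (hβ : DifferentiableAt ℂ β 0) (hfix : ∀ᶠ e in 𝓝 (0 : ℂ), it (c₀ e) n (β e) = β e)
    (hm : ∀ᶠ e in 𝓝 (0 : ℂ), mult n (c₀ e) (β e) = Complex.exp (q * e)) (hn : 0 < n) :
    ∃ M : ℕ, 1 ≤ M ∧ ∃ C : ℝ, 0 < C ∧ ∀ᶠ p : ℂ × ℂ in 𝓝 (0, β 0),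
      it (c₀ p.1) n p.2 = p.2 → p.2 ≠ β p.1 →
      ‖mult n (c₀ p.1) p.2 - 1 + M * (Complex.exp (q * p.1) - 1)‖ ≤ C * ‖p.1‖ * ‖p.2 - β p.1‖ := by
  classical
  obtain ⟨D, hD⟩ : ∃ D, 2 ^ n = D + 1 := ⟨2 ^ n - 1, by have := Nat.one_le_two_pow (n := n); omega⟩
  have hD1 : 1 ≤ D := by
    have : 2 ^ 1 ≤ 2 ^ n := Nat.pow_le_pow_right (by norm_num) hn
    omega
  set a : ℕ → ℂ → ℂ := fun i e => (Q (c₀ e) (β e) n).coeff (i + 1) - (if i = 0 then 1 else 0)
    with ha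
  have hsum : ∀ e t : ℂ, it (c₀ e) n (β e) = β e → it (c₀ e) n (β e + t) - (β e + t) =
      t * ∑ i ∈ range (D + 1), a i e * t ^ i := by
    intro e t he
    have h0 : (Q (c₀ e) (β e) n).coeff 0 = β e := by
      rw [Polynomial.coeff_zero_eq_eval_zero, Q_eval, add_zero, he]
    have h1 : ∑ i ∈ range (D + 1), (if i = 0 then (1 : ℂ) else 0) * t ^ i = 1 := by
      rw [sum_range_succ']; simp
    rw [← Q_eval, Polynomial.eval_eq_sum_range, (Q_natDegree _ _ _).1, hD, sum_range_succ', h0]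
    simp only [ha, sub_mul, sum_sub_distrib, h1, mul_sub, mul_sum]
    have h2 : ∀ i, (Q (c₀ e) (β e) n).coeff (i + 1) * t ^ (i + 1) =
        t * ((Q (c₀ e) (β e) n).coeff (i + 1) * t ^ i) := fun i => by ring
    simp only [h2]
    ring
  have hder : ∀ e t : ℂ, it (c₀ e) n (β e) = β e → mult n (c₀ e) (β e + t) - 1 =
      ∑ i ∈ range (D + 1), a i e * t ^ i + ∑ i ∈ range (D + 1), (i : ℂ) * (a i e * t ^ i) := by
    intro e t he
    have h1 : HasDerivAt (fun t : ℂ => it (c₀ e) n (β e + t) - (β e + t))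
        (mult n (c₀ e) (β e + t) - 1) t := by
      have h2 : HasDerivAt (fun t : ℂ => β e + t) 1 t := (hasDerivAt_id t).const_add _
      have h3 := HasDerivAt.comp t (h₂ := it (c₀ e) n) (hasDerivAt_it_mult (c₀ e) n (β e + t)) h2
      have h4 := h3.sub h2
      rw [mul_one] at h4
      exact h4
    have h2 : HasDerivAt (fun t : ℂ => t * ∑ i ∈ range (D + 1), a i e * t ^ i)
        (1 * ∑ i ∈ range (D + 1), a i e * t ^ i +
          t * ∑ i ∈ range (D + 1), a i e * ((i : ℂ) * t ^ (i - 1))) t := by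
      refine (hasDerivAt_id t).mul (HasDerivAt.fun_sum fun i _ => ?_)
      exact (hasDerivAt_pow i t).const_mul _
    have h3 : (fun t : ℂ => it (c₀ e) n (β e + t) - (β e + t)) =
        fun t : ℂ => t * ∑ i ∈ range (D + 1), a i e * t ^ i := by
      funext t; exact hsum e t he
    rw [h3] at h1
    rw [h1.unique h2, one_mul]
    congr 1
    rw [mul_sum]
    refine sum_congr rfl fun i _ => ?_
    rcases Nat.eq_zero_or_pos i with h | h
    · simp [h]
    · have : t ^ i = t * t ^ (i - 1) := by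
        rw [← pow_succ']; congr 1; omega
      rw [this]; ring
  have h00 : a 0 0 = 0 := by
    have he := hfix.self_of_nhds
    have h1 := hder 0 0 he
    have h2 := hm.self_of_nhds
    rw [add_zero, h2, mul_zero, Complex.exp_zero, sub_self] at h1
    rw [sum_range_succ', sum_range_succ' (fun i => (i : ℂ) * (a i 0 * 0 ^ i))] at h1
    simpa using h1.symm
  have ha0 : ∀ e : ℂ, it (c₀ e) n (β e) = β e → a 0 e = mult n (c₀ e) (β e) - 1 := by
    intro e he
    have h1 := hder e 0 he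
    rw [add_zero] at h1
    rw [h1, sum_range_succ', sum_range_succ' (fun i => (i : ℂ) * (a i e * 0 ^ i))]
    simp
  have hLip : ∀ i ≤ D, ∃ C : ℝ, ∀ᶠ e in 𝓝 (0 : ℂ), ‖a i e - a i 0‖ ≤ C * ‖e‖ := by
    intro i _
    have h1 : DifferentiableAt ℂ (a i) 0 := (Q_coeff_diff hc hβ n (i + 1)).sub_const _
    have h2 := h1.isBigO_sub
    obtain ⟨C, hC⟩ := h2.bound
    refine ⟨C, ?_⟩
    filter_upwards [hC] with e he
    simpa using he
  have hne : ∃ i ≤ D, a i 0 ≠ 0 := by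
    refine ⟨D, le_rfl, ?_⟩
    have h1 := Q_natDegree (c₀ 0) (β 0) n
    have h2 : (Q (c₀ 0) (β 0) n).coeff (D + 1) = 1 := by
      rw [← hD, ← h1.1]; exact h1.2
    simp only [ha]
    rw [h2, if_neg (by omega)]
    simp
  obtain ⟨M, hM1, -, C, hC, hev⟩ := bif_core hLip h00 hne
  refine ⟨M, hM1, C, hC, ?_⟩
  have hmap : Tendsto (fun p : ℂ × ℂ => (p.1, p.2 - β p.1)) (𝓝 (0, β 0)) (𝓝 (0, 0)) := by
    have h1 : ContinuousAt (fun p : ℂ × ℂ => (p.1, p.2 - β p.1)) (0, β 0) := by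
      refine continuousAt_fst.prodMk (continuousAt_snd.sub ?_)
      exact ContinuousAt.comp (g := β) hβ.continuousAt continuousAt_fst
    have h2 : (fun p : ℂ × ℂ => (p.1, p.2 - β p.1)) (0, β 0) = (0, 0) := by simp
    rw [← h2]; exact h1
  have hfst : Tendsto (fun p : ℂ × ℂ => p.1) (𝓝 (0, β 0)) (𝓝 0) := continuous_fst.tendsto _
  filter_upwards [hmap.eventually hev, hfst.eventually hfix, hfst.eventually hm]
    with p hp hpf hpm hfp hne'
  have ht : p.2 - β p.1 ≠ 0 := sub_ne_zero.2 hne'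
  have hbt : β p.1 + (p.2 - β p.1) = p.2 := by ring
  have h1 := hsum p.1 (p.2 - β p.1) hpf
  rw [hbt, hfp, sub_self] at h1
  have h2 : ∑ i ∈ range (D + 1), a i p.1 * (p.2 - β p.1) ^ i = 0 := by
    rcases mul_eq_zero.1 h1.symm with h | h
    · exact absurd h ht
    · exact h
  have h3 := hp h2
  have h4 := hder p.1 (p.2 - β p.1) hpf
  rw [hbt, h2, zero_add] at h4
  rw [h4, ← hpm, ← ha0 p.1 hpf]
  exact h3

/-- Consequence: the derivative of the multiplier at the root. -/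
theorem deriv_at_root {n : ℕ} {q : ℂ} {c₀ β : ℂ → ℂ} (hc : DifferentiableAt ℂ c₀ 0)
    (hβ : DifferentiableAt ℂ β 0) (hfix : ∀ᶠ e in 𝓝 (0 : ℂ), it (c₀ e) n (β e) = β e)
    (hm : ∀ᶠ e in 𝓝 (0 : ℂ), mult n (c₀ e) (β e) = Complex.exp (q * e)) (hn : 0 < n)
    {K : ℂ → ℂ} {z : ℂ → ℂ} (hz : Tendsto z (𝓝[≠] 0) (𝓝 (β 0)))
    (hzf : ∀ᶠ e in 𝓝[≠] (0 : ℂ), it (c₀ e) n (z e) = z e ∧ z e ≠ β e ∧
      mult n (c₀ e) (z e) = K e) (hK0 : K 0 = 1) :
    ∃ M : ℕ, 1 ≤ M ∧ HasDerivAt K (-(M * q)) 0 := by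
  obtain ⟨M, hM, C, hC, hev⟩ := mult_near_root hc hβ hfix hm hn
  refine ⟨M, hM, ?_⟩
  have hexp : HasDerivAt (fun e : ℂ => Complex.exp (q * e)) q 0 := by
    have h1 : HasDerivAt (fun e : ℂ => q * e) (q * 1) 0 := (hasDerivAt_id _).const_mul q
    have := h1.cexp
    simpa using this
  -- `K + M (exp - 1)` has derivative zero
  have hkey : HasDerivAt (fun e => K e + M * (Complex.exp (q * e) - 1)) 0 0 := by
    rw [hasDerivAt_iff_isLittleO]
    have hval : K 0 + M * (Complex.exp (q * 0) - 1) = 1 := by rw [hK0]; simp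
    simp only [hval, sub_zero, smul_zero]
    have hpair : Tendsto (fun e => (e, z e)) (𝓝[≠] (0 : ℂ)) (𝓝 (0, β 0)) :=
      (tendsto_id.mono_left nhdsWithin_le_nhds).prodMk_nhds hz
    have hβ0 : Tendsto (fun e => z e - β e) (𝓝[≠] (0 : ℂ)) (𝓝 0) := by
      have h1 : Tendsto β (𝓝[≠] (0 : ℂ)) (𝓝 (β 0)) :=
        hβ.continuousAt.tendsto.mono_left nhdsWithin_le_nhds
      simpa using hz.sub h1
    rw [Asymptotics.isLittleO_iff]
    intro ε hε
    have h1 : ∀ᶠ e in 𝓝[≠] (0 : ℂ), C * ‖z e - β e‖ < ε := by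
      have h2 : Tendsto (fun e => C * ‖z e - β e‖) (𝓝[≠] (0 : ℂ)) (𝓝 (C * ‖(0 : ℂ)‖)) :=
        (hβ0.norm).const_mul C
      exact h2.eventually_lt_const (by simpa using hε)
    have h2 : ∀ᶠ e in 𝓝[≠] (0 : ℂ), ‖K e + M * (Complex.exp (q * e) - 1) - 1‖ ≤ ε * ‖e‖ := by
      filter_upwards [h1, hzf, hpair.eventually hev] with e h3 h4 h5
      have h6 := h5 h4.1 h4.2.1
      rw [h4.2.2] at h6
      have h7 : K e + M * (Complex.exp (q * e) - 1) - 1 = K e - 1 + M * (Complex.exp (q * e) - 1) := by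
        ring
      rw [h7]
      refine h6.trans ?_
      have : C * ‖e‖ * ‖z e - β e‖ = C * ‖z e - β e‖ * ‖e‖ := by ring
      rw [this]
      gcongr
    rw [eventually_nhdsWithin_iff] at h2
    filter_upwards [h2] with e he
    by_cases h : e = 0
    · rw [h]; simp [hK0]
    · exact he h
  have h8 := hkey.sub ((hexp.sub_const 1).const_mul (M : ℂ))
  have h9 : (fun e => K e + M * (Complex.exp (q * e) - 1)) -
      (fun e => (M : ℂ) * (Complex.exp (q * e) - 1)) = K := by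
    funext e; simp
  rw [h9, zero_sub] at h8
  exact h8

end Pool.Agent.Work.MLC.SatBif4
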