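import Pool.Agent.Work.MLC.Sat0
import Pool.Agent.Work.MLC.Sat7

set_option autoImplicit false

/-! # S7 of the satellite project (helper49) -/

namespace Pool.Agent.Work.MLC

/-- at most one attracting cycle -/
theorem s7_fatou : Sat.S7_fatou := fun c x y n k hn hk hx hxm hy hym =>
  fatou c x y n k hn hk hx hxm hy hym

end Pool.Agent.Work.MLC
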