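import Pool.Agent.Work.MLC.SatE26
import Pool.Agent.Work.MLC.SatBif4
import Pool.Agent.Work.MLC.SatS749

set_option autoImplicit false

/-! # Theorem S, module S12: the points near the parent point are points of the family (helper49)

`s12_child : S11_deriv → S12_child`. -/

namespace Pool.Agent.Work.MLC.Sat

open Filter Topology Metric Set Complex

variable {D : Dat}

lemma c_diff49 (h : D.Par) {L : ℂ} (hL : L ∈ D.B) : DifferentiableAt ℂ D.c L :=
  (section_differentiableOn (goodB h) h.cont h.sec).differentiableAt (isOpen_B.mem_nhds hL)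

lemma b_diff49 (h : D.Par) {L : ℂ} (hL : L ∈ D.B) : DifferentiableAt ℂ D.b L := by
  obtain ⟨h1, h2⟩ := h.sec L hL
  obtain ⟨β, hβ, hβ0, hβe⟩ := chart h1 (by rw [h2]; exact (goodB h).ne_one _ hL)
  have h3 : ∀ᶠ L' in 𝓝 L, D.b L' = β (D.c L') := by
    filter_upwards [(σ_contAt h hL).tendsto.eventually hβe, isOpen_B.mem_nhds hL] with L' h4 h5
    exact (h4.1 (h.sec L' h5).1).symm
  have h6 : DifferentiableAt ℂ (fun L' => β (D.c L')) L :=
    DifferentiableAt.comp (g := β) (f := D.c) L hβ.differentiableAt (c_diff49 h hL)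
  exact h6.congr_of_eventuallyEq h3

lemma Qa49 (D : Dat) : exp ((D.x.den : ℂ) * D.a) = 1 := by
  rw [Complex.exp_eq_one_iff]
  refine ⟨D.x.num, ?_⟩
  have h1 : ((D.x.den : ℝ) : ℂ) * ((D.x : ℝ) : ℂ) = ((D.x.num : ℝ) : ℂ) := by
    rw [← ofReal_mul]
    congr 1
    have : (D.x.den : ℚ) * D.x = D.x.num := Rat.den_mul_eq_num D.x
    exact_mod_cast this
  have h2 : D.a = 2 * Real.pi * ((D.x : ℝ) : ℂ) * I := by
    unfold Dat.a axisPt
    push_cast
    ring
  rw [h2]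
  have h3 : ((D.x.den : ℝ) : ℂ) = (D.x.den : ℂ) := by push_cast; rfl
  have h4 : ((D.x.num : ℝ) : ℂ) = (D.x.num : ℂ) := by push_cast; rfl
  rw [h3, h4] at h1
  linear_combination (2 * Real.pi * I) * h1

/-- the multiplier of the parent point for the `n`-th iterate -/
lemma mul_parent49 (h : D.Par) {L : ℂ} (hL : L ∈ D.B) :
    (D.c L, D.b L) ∈ Per D.n ∧ mul D.n (D.c L, D.b L) = exp (D.x.den * (L - D.a)) := by
  obtain ⟨h1, h2⟩ := h.sec L hL
  have h3 : it (D.c L) D.m (D.b L) = D.b L := h1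
  refine ⟨One49.it_mul_per h3 _, ?_⟩
  have h4 := One49.mult_pow h3 D.x.den
  have h5 : mult D.m (D.c L) (D.b L) = exp L := h2
  rw [h5, ← Complex.exp_nat_mul] at h4
  have h6 : exp ((D.x.den : ℂ) * (L - D.a)) = exp (D.x.den * L) := by
    rw [mul_sub, Complex.exp_sub, Qa49, div_one]
  rw [h6]
  exact h4

/-- the complement of a family of cycles is open -/
lemma closed_fam49 {n : ℕ} (hn : 0 < n) {c : ℂ → ℂ} {V : Set ℂ} {Z : ℂ → Set ℂ}
    (hZ : CycFam n c V Z) (hV : IsOpen V) {L z₀ : ℂ} (hL : L ∈ V) (hc : ContinuousAt c L)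
    (h0 : z₀ ∉ Z L) : ∀ᶠ p : ℂ × ℂ in 𝓝 (L, z₀), p.2 ∉ Z p.1 := by
  obtain ⟨w, hw⟩ := hZ.ne L hL
  obtain ⟨hwP, hw1⟩ := hZ.fix L hL w hw
  obtain ⟨β, hβ, hβ0, hβe⟩ := chart hwP hw1
  simp only at hβ hβ0
  have hβc : ContinuousAt (fun L' => β (c L')) L :=
    ContinuousAt.comp (g := β) (f := c) hβ.continuousAt hc
  -- the branch is in the family
  have h1 : Tendsto (fun L' => ((L', β (c L')) : ℂ × ℂ)) (𝓝 L) (𝓝 (L, w)) := by
    have := (continuousAt_id (x := L)).prodMk hβc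
    rw [ContinuousAt, hβ0] at this
    exact this
  have h1' : Tendsto (fun L' => ((c L', β (c L')) : ℂ × ℂ)) (𝓝 L) (𝓝 (c L, w)) := by
    have := hc.prodMk hβc
    rw [ContinuousAt, hβ0] at this
    exact this
  have h2 : ∀ᶠ L' in 𝓝 L, β (c L') ∈ Z L' ∧ (c L', β (c L')) ∈ Per n := by
    filter_upwards [h1.eventually (hZ.cont L hL w hw), h1'.eventually hβe] with L' h3 h4
    have h5 : (c L', β (c L')) ∈ Per n := h4.2 rfl
    exact ⟨h3 h5, h5⟩
  have h3 : ∀ᶠ p : ℂ × ℂ in 𝓝 (L, z₀), ∀ i ∈ Finset.range n, it (c p.1) i (β (c p.1)) ≠ p.2 := by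
    rw [Filter.eventually_all_finset]
    intro i _
    have h4 : ContinuousAt (fun p : ℂ × ℂ => it (c p.1) i (β (c p.1))) (L, z₀) := by
      have h5 : ContinuousAt (fun p : ℂ × ℂ => ((c p.1, β (c p.1)) : ℂ × ℂ)) (L, z₀) := by
        refine ContinuousAt.prodMk ?_ ?_
        · exact ContinuousAt.comp (f := Prod.fst) (g := c) hc continuousAt_fst
        · exact ContinuousAt.comp (f := Prod.fst) (g := fun L' => β (c L')) hβc continuousAt_fst
      exact ContinuousAt.comp (g := fun q : ℂ × ℂ => it q.1 i q.2)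
        (f := fun p : ℂ × ℂ => ((c p.1, β (c p.1)) : ℂ × ℂ)) (x := (L, z₀))
        (continuous_it i).continuousAt h5
    have h6 : ContinuousAt (fun p : ℂ × ℂ => it (c p.1) i (β (c p.1)) - p.2) (L, z₀) :=
      h4.sub continuousAt_snd
    have h7 : it (c L) i (β (c L)) - z₀ ≠ 0 := by
      rw [hβ0, sub_ne_zero]
      intro h8
      exact h0 ((hZ.cyc L hL w hw z₀).2 ⟨i, h8.symm⟩)
    filter_upwards [h6.eventually_ne h7] with p h8
    exact sub_ne_zero.1 h8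
  filter_upwards [h3, (continuousAt_fst (p := ((L, z₀) : ℂ × ℂ))).tendsto.eventually h2,
    (continuousAt_fst (p := ((L, z₀) : ℂ × ℂ))).tendsto.eventually (hV.mem_nhds hL)]
    with p h4 h5 h6 h7
  obtain ⟨i, hi⟩ := (hZ.cyc p.1 h6 _ h5.1 p.2).1 h7
  refine h4 (i % n) (Finset.mem_range.2 (Nat.mod_lt _ hn)) ?_
  rw [One49.it_mod h5.2, ← hi]

/-- `K` is attracting on the positive side of the root -/
lemma K_attr49 {K : ℂ → ℂ} {a : ℂ} {q : ℝ} (hq : 0 < q) (hK : HasDerivAt K (-(q : ℂ)) a)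
    (h1 : K a = 1) : ∀ᶠ s : ℝ in 𝓝[>] 0, ‖K (a + s)‖ < 1 := by
  have h2 := hasDerivAt_iff_isLittleO.1 hK
  have h3 : ∀ᶠ z in 𝓝 a, ‖K z - K a - (z - a) • (-(q : ℂ))‖ ≤ q / 2 * ‖z - a‖ :=
    h2.bound (by positivity)
  have h4 : Tendsto (fun s : ℝ => a + (s : ℂ)) (𝓝[>] 0) (𝓝 a) := by
    have : Continuous fun s : ℝ => a + (s : ℂ) := by fun_prop
    have h5 := this.tendsto 0
    simp only [ofReal_zero, add_zero] at h5
    exact h5.mono_left nhdsWithin_le_nhds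
  have h5 : ∀ᶠ s : ℝ in 𝓝[>] 0, s < 1 / q :=
    mem_nhdsWithin_of_mem_nhds (gt_mem_nhds (by positivity))
  filter_upwards [h4.eventually h3, self_mem_nhdsWithin, h5] with s h6 hs h7
  rw [h1, add_sub_cancel_left] at h6
  have hs0 : 0 < s := hs
  have h8 : ‖(s : ℂ)‖ = s := by rw [Complex.norm_real, Real.norm_eq_abs, abs_of_pos hs0]
  rw [h8] at h6
  have h9 : K (a + s) = (K (a + s) - 1 - (s : ℂ) • (-(q : ℂ))) + ((1 - q * s : ℝ) : ℂ) := by
    rw [smul_eq_mul]; push_cast; ring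
  have h10 : q * s < 1 := by
    rw [lt_div_iff₀ hq] at h7; linarith
  have h11 : ‖((1 - q * s : ℝ) : ℂ)‖ = 1 - q * s := by
    rw [Complex.norm_real, Real.norm_eq_abs, abs_of_pos (by linarith)]
  rw [h9]
  refine (norm_add_le _ _).trans_lt ?_
  rw [h11]
  have : 0 < q * s := by positivity
  linarith

/-- lower bound for `exp - 1` -/
lemma exp_low49 {q : ℝ} (hq : 1 ≤ q) : ∀ᶠ e : ℂ in 𝓝 0, ‖e‖ / 2 ≤ ‖exp ((q : ℂ) * e) - 1‖ := by
  have h1 : HasDerivAt (fun e : ℂ => exp ((q : ℂ) * e)) (q : ℂ) 0 := by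
    have h2 : HasDerivAt (fun e : ℂ => (q : ℂ) * e) ((q : ℂ) * 1) 0 := (hasDerivAt_id _).const_mul _
    have := h2.cexp
    simpa using this
  have h2 := hasDerivAt_iff_isLittleO.1 h1
  have h3 : ∀ᶠ z in 𝓝 (0 : ℂ), ‖exp ((q : ℂ) * z) - exp ((q : ℂ) * 0) - (z - 0) • (q : ℂ)‖ ≤
      1 / 2 * ‖z - 0‖ := h2.bound (by norm_num)
  filter_upwards [h3] with e he
  rw [mul_zero, Complex.exp_zero, sub_zero, smul_eq_mul] at he
  have h4 : ‖e * (q : ℂ)‖ = ‖e‖ * q := by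
    rw [norm_mul, Complex.norm_real, Real.norm_eq_abs, abs_of_pos (by linarith)]
  have h5 : ‖e * (q : ℂ)‖ ≤ ‖exp ((q : ℂ) * e) - 1‖ + ‖exp ((q : ℂ) * e) - 1 - e * (q : ℂ)‖ := by
    calc ‖e * (q : ℂ)‖ = ‖(exp ((q : ℂ) * e) - 1) - (exp ((q : ℂ) * e) - 1 - e * (q : ℂ))‖ := by
          congr 1; ring
      _ ≤ _ := norm_sub_le _ _
  rw [h4] at h5
  nlinarith [norm_nonneg e]

/-- the punctured disc is connected -/
lemma punct49 (δ : ℝ) : IsPreconnected (ball (0 : ℂ) δ \ {0}) := by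
  have h1 : ball (0 : ℂ) δ \ {0} =
      (fun p : ℝ × ℝ => (p.1 : ℂ) * Complex.exp (p.2 * Complex.I)) '' (Ioo 0 δ ×ˢ univ) := by
    ext z
    constructor
    · rintro ⟨hz, hz2⟩
      have hz3 : z ≠ 0 := hz2
      refine ⟨(‖z‖, Complex.arg z), ⟨⟨norm_pos_iff.2 hz3, ?_⟩, mem_univ _⟩, ?_⟩
      · rwa [mem_ball_zero_iff] at hz
      · simp only [Complex.norm_mul_exp_arg_mul_I]
    · rintro ⟨⟨t, s⟩, ⟨⟨ht0, ht⟩, -⟩, rfl⟩
      have hn : ‖(t : ℂ) * Complex.exp (s * Complex.I)‖ = t := by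
        rw [norm_mul, Complex.norm_exp_ofReal_mul_I, mul_one, Complex.norm_real,
          Real.norm_eq_abs, abs_of_pos ht0]
      refine ⟨?_, ?_⟩
      · rw [mem_ball_zero_iff]
        simp only
        rw [hn]; exact ht
      · intro h0
        have h2 : (t : ℂ) * Complex.exp (s * Complex.I) = 0 := h0
        rw [h2, norm_zero] at hn
        exact ht0.ne hn
  rw [h1]
  exact (isPreconnected_Ioo.prod isPreconnected_univ).image _ (by fun_prop)

theorem child_near49 {K : ℂ → ℂ} {Z : ℂ → Set ℂ} (hP : D.Par) (hF : CycFam D.n D.c D.U Z)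
    (hKZ : ∀ L ∈ D.U, ∀ z ∈ Z L, mul D.n (D.c L, z) = K L)
    (hKa : ∀ᶠ s : ℝ in 𝓝[>] 0, ‖K (D.a + s)‖ < 1) :
    ∀ᶠ p : ℂ × ℂ in 𝓝 (D.a, D.b D.a), (D.c p.1, p.2) ∈ Per D.n → p.2 ≠ D.b p.1 →
      p.2 ∈ Z p.1 := by
  have haB := a_mem_B hP
  have hn := Par_n_pos hP
  set a := D.a with ha
  set Q : ℕ := D.x.den with hQ
  have hQ1 : 1 ≤ Q := D.x.pos
  set c₀ : ℂ → ℂ := fun e => D.c (a + e) with hc₀
  set β : ℂ → ℂ := fun e => D.b (a + e) with hβ
  have hae : ContinuousAt (fun e : ℂ => a + e) 0 := by fun_prop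
  have hae' : Tendsto (fun e : ℂ => a + e) (𝓝 0) (𝓝 a) := by
    have := hae.tendsto
    simpa using this
  have hcd : DifferentiableAt ℂ c₀ 0 := by
    have h1 : DifferentiableAt ℂ D.c (a + 0) := by rw [add_zero]; exact c_diff49 hP haB
    exact DifferentiableAt.comp (g := D.c) (f := fun e : ℂ => a + e) 0 h1 (by fun_prop)
  have hβd : DifferentiableAt ℂ β 0 := by
    have h1 : DifferentiableAt ℂ D.b (a + 0) := by rw [add_zero]; exact b_diff49 hP haB
    exact DifferentiableAt.comp (g := D.b) (f := fun e : ℂ => a + e) 0 h1 (by fun_prop)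
  have hB : ∀ᶠ e in 𝓝 (0 : ℂ), a + e ∈ D.B := hae'.eventually (isOpen_B.mem_nhds haB)
  have hpar : ∀ e : ℂ, a + e ∈ D.B → it (c₀ e) D.n (β e) = β e ∧
      mult D.n (c₀ e) (β e) = exp (Q * e) := by
    intro e he
    obtain ⟨h1, h2⟩ := mul_parent49 hP he
    refine ⟨h1, ?_⟩
    rw [← ha, add_sub_cancel_left] at h2
    exact h2
  have hfix : ∀ᶠ e in 𝓝 (0 : ℂ), it (c₀ e) D.n (β e) = β e := hB.mono fun e he => (hpar e he).1
  have hm : ∀ᶠ e in 𝓝 (0 : ℂ), mult D.n (c₀ e) (β e) = exp (Q * e) :=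
    hB.mono fun e he => (hpar e he).2
  obtain ⟨M, hM1, C, hC, hev⟩ := SatBif4.mult_near_root hcd hβd hfix hm hn
  have hM1' : (1 : ℝ) ≤ M := by exact_mod_cast hM1
  -- (A)
  have hA : ∀ᶠ p : ℂ × ℂ in 𝓝 (0, β 0), it (c₀ p.1) D.n p.2 = p.2 → p.2 ≠ β p.1 →
      ‖mult D.n (c₀ p.1) p.2 - 1 + M * (exp (Q * p.1) - 1)‖ ≤ ‖p.1‖ / 4 := by
    have h1 : ContinuousAt (fun p : ℂ × ℂ => C * ‖p.2 - β p.1‖) (0, β 0) := by
      refine ContinuousAt.mul continuousAt_const (ContinuousAt.norm (continuousAt_snd.sub ?_))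
      exact ContinuousAt.comp (g := β) (f := Prod.fst) hβd.continuousAt continuousAt_fst
    have h2 : ∀ᶠ p : ℂ × ℂ in 𝓝 (0, β 0), C * ‖p.2 - β p.1‖ < 1 / 4 := by
      refine h1.eventually (gt_mem_nhds ?_)
      simp
    filter_upwards [hev, h2] with p h3 h4 h5 h6
    refine (h3 h5 h6).trans ?_
    have : C * ‖p.1‖ * ‖p.2 - β p.1‖ = ‖p.1‖ * (C * ‖p.2 - β p.1‖) := by ring
    rw [this]
    have h7 := mul_le_mul_of_nonneg_left h4.le (norm_nonneg p.1)
    linarith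
  -- (D)
  have hD : ∀ᶠ z in 𝓝 (β 0), it (c₀ 0) D.n z = z → z = β 0 := by
    have h1 : {z : ℂ | it (c₀ 0) D.n z = z}.Finite := by
      have h2 : {z : ℂ | it (c₀ 0) D.n z = z} ⊆ ((Cnt.fx (c₀ 0) D.n).roots.toFinset : Set ℂ) := by
        intro z hz
        simp only [Finset.mem_coe, Multiset.mem_toFinset]
        exact (Cnt.mem_roots_fx hn).2 hz
      exact (Finset.finite_toSet _).subset h2
    have h3 : IsClosed ({z : ℂ | it (c₀ 0) D.n z = z} \ {β 0}) := (h1.sdiff).isClosed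
    have h4 : ({z : ℂ | it (c₀ 0) D.n z = z} \ {β 0})ᶜ ∈ 𝓝 (β 0) :=
      h3.isOpen_compl.mem_nhds (by simp)
    filter_upwards [h4] with z hz hz2
    by_contra h5
    exact hz ⟨hz2, h5⟩
  obtain ⟨ε₁, hε₁, hA'⟩ := Metric.eventually_nhds_iff.1 hA
  obtain ⟨ε₂, hε₂, hD'⟩ := Metric.eventually_nhds_iff.1 hD
  set ρ := min ε₁ ε₂ / 2 with hρ
  have hρ0 : 0 < ρ := by positivity
  have hρ1 : ρ < ε₁ := by
    have := min_le_left ε₁ ε₂
    rw [hρ]; linarith [lt_min hε₁ hε₂]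
  have hρ2 : ρ < ε₂ := by
    have := min_le_right ε₁ ε₂
    rw [hρ]; linarith [lt_min hε₁ hε₂]
  -- joint continuity
  have hjoint : ∀ e : ℂ, a + e ∈ D.B → ∀ z : ℂ,
      ContinuousAt (fun p : ℂ × ℂ => ((c₀ p.1, p.2) : ℂ × ℂ)) (e, z) := by
    intro e he z
    refine ContinuousAt.prodMk ?_ continuousAt_snd
    have h1 : ContinuousAt c₀ e := by
      have h2 : ContinuousAt D.c (a + e) := c_contAt hP he
      exact ContinuousAt.comp (g := D.c) (f := fun e : ℂ => a + e) h2 (by fun_prop)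
    exact ContinuousAt.comp (g := c₀) (f := Prod.fst) h1 continuousAt_fst
  have hjit : ∀ e : ℂ, a + e ∈ D.B → ∀ z : ℂ,
      ContinuousAt (fun p : ℂ × ℂ => it (c₀ p.1) D.n p.2 - p.2) (e, z) := by
    intro e he z
    refine ContinuousAt.sub ?_ continuousAt_snd
    exact ContinuousAt.comp (g := fun q : ℂ × ℂ => it q.1 D.n q.2)
      (f := fun p : ℂ × ℂ => ((c₀ p.1, p.2) : ℂ × ℂ)) (x := (e, z))
      (continuous_it D.n).continuousAt (hjoint e he z)
  have h0B : a + 0 ∈ D.B := by rw [add_zero]; exact haB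
  -- (E)
  have hE : ∀ᶠ e in 𝓝 (0 : ℂ), ∀ z ∈ sphere (β 0) ρ, it (c₀ e) D.n z ≠ z := by
    refine (isCompact_sphere (β 0) ρ).eventually_forall_of_forall_eventually ?_
    intro z hz
    have h1 : it (c₀ 0) D.n z - z ≠ 0 := by
      intro h2
      have h3 := hD' (y := z) (by rw [mem_sphere] at hz; rw [hz]; exact hρ2) (sub_eq_zero.1 h2)
      rw [h3, mem_sphere, dist_self] at hz
      exact hρ0.ne hz
    filter_upwards [(hjit 0 h0B z).eventually_ne h1] with p hp h4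
    exact hp (sub_eq_zero.2 h4)
  -- choice of delta
  have hsR := sR_pos hP
  have hlow := exp_low49 (q := (Q : ℝ)) (by exact_mod_cast hQ1)
  have hall : ∀ᶠ e in 𝓝 (0 : ℂ), dist e 0 < ε₁ ∧ (∀ z ∈ sphere (β 0) ρ, it (c₀ e) D.n z ≠ z) ∧
      ‖e‖ / 2 ≤ ‖exp ((Q : ℂ) * e) - 1‖ ∧ ‖e‖ < sR D.m D.x := by
    have h1 : ∀ᶠ e in 𝓝 (0 : ℂ), ‖e‖ < sR D.m D.x :=
      (continuous_norm.tendsto (0 : ℂ)).eventually (gt_mem_nhds (by simpa using hsR))
    have h2 : ∀ᶠ e in 𝓝 (0 : ℂ), dist e 0 < ε₁ := Metric.ball_mem_nhds _ hε₁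
    filter_upwards [h1, h2, hE, hlow] with e h3 h4 h5 h6
    refine ⟨h4, h5, ?_, h3⟩
    have : ((Q : ℝ) : ℂ) = (Q : ℂ) := by push_cast; rfl
    rwa [this] at h6
  obtain ⟨δ, hδ, hall'⟩ := Metric.eventually_nhds_iff_ball.1 hall
  have hUe : ∀ e ∈ ball (0 : ℂ) δ \ {0}, a + e ∈ D.U := by
    rintro e ⟨he, he0⟩
    refine ⟨?_, ?_⟩
    · rw [mem_ball, dist_eq_norm, ← ha, add_sub_cancel_left]
      exact (hall' e he).2.2.2
    · intro h1
      apply he0
      have h2 : a + e = a := h1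
      simpa using h2
  have hUB : ∀ e ∈ ball (0 : ℂ) δ \ {0}, a + e ∈ D.B := fun e he => U_sub_B hP (hUe e he)
  -- multipliers of the points
  have hmul : ∀ e ∈ ball (0 : ℂ) δ \ {0}, ∀ z ∈ ball (β 0) ρ, it (c₀ e) D.n z = z → z ≠ β e →
      ‖mult D.n (c₀ e) z - 1 + M * (exp (Q * e) - 1)‖ ≤ ‖e‖ / 4 := by
    rintro e ⟨he, he0⟩ z hz h1 h2
    refine hA' (y := (e, z)) ?_ h1 h2
    rw [Prod.dist_eq]
    refine max_lt (hall' e he).1 ?_
    rw [mem_ball] at hz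
    exact hz.trans hρ1
  have hne1 : ∀ e ∈ ball (0 : ℂ) δ \ {0}, ∀ z ∈ ball (β 0) ρ, it (c₀ e) D.n z = z → z ≠ β e →
      mult D.n (c₀ e) z ≠ 1 := by
    rintro e he z hz h1 h2 h3
    have h4 := hmul e he z hz h1 h2
    rw [h3, sub_self, zero_add, norm_mul, Complex.norm_natCast] at h4
    have h5 := (hall' e he.1).2.2.1
    have h6 : 0 < ‖e‖ := norm_pos_iff.2 he.2
    nlinarith [norm_nonneg (exp ((Q : ℂ) * e) - 1)]
  have hexp1 : ∀ e ∈ ball (0 : ℂ) δ \ {0}, exp ((Q : ℂ) * e) ≠ 1 := by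
    intro e he h1
    have h5 := (hall' e he.1).2.2.1
    rw [h1, sub_self, norm_zero] at h5
    have h6 : 0 < ‖e‖ := norm_pos_iff.2 he.2
    linarith
  -- the bad set
  set bad : Set ℂ := {e | e ∈ ball (0 : ℂ) δ \ {0} ∧ ∃ z ∈ ball (β 0) ρ, it (c₀ e) D.n z = z ∧
    z ≠ β e ∧ z ∉ Z (a + e)} with hbad
  have hUo : IsOpen (ball (0 : ℂ) δ \ {0}) := isOpen_ball.sdiff isClosed_singleton
  have hshift : ∀ e z : ℂ, Tendsto (fun p : ℂ × ℂ => ((a + p.1, p.2) : ℂ × ℂ)) (𝓝 (e, z))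
      (𝓝 (a + e, z)) := by
    intro e z
    have : Continuous fun p : ℂ × ℂ => ((a + p.1, p.2) : ℂ × ℂ) := by fun_prop
    exact this.tendsto (e, z)
  have hβc : ∀ e, a + e ∈ D.B → ContinuousAt β e := by
    intro e he
    have h2 : ContinuousAt D.b (a + e) := b_contAt hP he
    exact ContinuousAt.comp (g := D.b) (f := fun e : ℂ => a + e) h2 (by fun_prop)
  have hc₀c : ∀ e, a + e ∈ D.B → ContinuousAt c₀ e := by
    intro e he
    have h2 : ContinuousAt D.c (a + e) := c_contAt hP he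
    exact ContinuousAt.comp (g := D.c) (f := fun e : ℂ => a + e) h2 (by fun_prop)
  -- open
  have hopen : IsOpen bad := by
    rw [isOpen_iff_mem_nhds]
    rintro e ⟨he, z, hz, hfz, hzβ, hzZ⟩
    have heB := hUB e he
    have hz1 := hne1 e he z hz hfz hzβ
    obtain ⟨γ, hγ, hγ0, hγe⟩ := chart (x₀ := (c₀ e, z)) (n := D.n) hfz hz1
    simp only at hγ hγ0
    have h1 : ContinuousAt (fun e' => γ (c₀ e')) e :=
      ContinuousAt.comp (g := γ) (f := c₀) hγ.continuousAt (hc₀c e heB)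
    have h2 : Tendsto (fun e' => ((c₀ e', γ (c₀ e')) : ℂ × ℂ)) (𝓝 e) (𝓝 (c₀ e, z)) := by
      have := (hc₀c e heB).prodMk h1
      rw [ContinuousAt, hγ0] at this
      exact this
    have h3 : Tendsto (fun e' => ((e', γ (c₀ e')) : ℂ × ℂ)) (𝓝 e) (𝓝 (e, z)) := by
      have := (continuousAt_id (x := e)).prodMk h1
      rw [ContinuousAt, hγ0] at this
      exact this
    have h4 : ∀ᶠ p : ℂ × ℂ in 𝓝 (a + e, z), p.2 ∉ Z p.1 :=
      closed_fam49 hn hF isOpen_U (hUe e he) (c_contAt hP heB) hzZ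
    have h5 : ∀ᶠ e' in 𝓝 e, γ (c₀ e') - β e' ≠ 0 := by
      have h6 : ContinuousAt (fun e' => γ (c₀ e') - β e') e := h1.sub (hβc e heB)
      refine h6.eventually_ne ?_
      rw [hγ0]; exact sub_ne_zero.2 hzβ
    have h6 : ∀ᶠ e' in 𝓝 e, γ (c₀ e') ∈ ball (β 0) ρ := by
      refine h1.eventually (isOpen_ball.mem_nhds ?_)
      show γ (c₀ e) ∈ ball (β 0) ρ
      rw [hγ0]; exact hz
    filter_upwards [hUo.mem_nhds he, h2.eventually hγe, h5, h6,
      h3.eventually ((hshift e z).eventually h4)] with e' h7 h8 h9 h10 h11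
    exact ⟨h7, γ (c₀ e'), h10, h8.2 rfl, sub_ne_zero.1 h9, h11⟩
  -- relatively closed
  have hclosed : ∀ e ∈ ball (0 : ℂ) δ \ {0}, e ∉ bad → ∀ᶠ e' in 𝓝 e, e' ∉ bad := by
    intro e he heb
    have heB := hUB e he
    have h1 : ∀ᶠ e' in 𝓝 e, ∀ z ∈ closedBall (β 0) ρ, z ∈ ball (β 0) ρ → it (c₀ e') D.n z = z →
        z ≠ β e' → z ∈ Z (a + e') := by
      refine (isCompact_closedBall (β 0) ρ).eventually_forall_of_forall_eventually ?_
      intro z hz
      by_cases hfz : it (c₀ e) D.n z = z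
      · by_cases hzβ : z = β e
        · have h2 : mul D.n (c₀ e, β e) ≠ 1 := by
            have h3 := (hpar e heB).2
            have h4 : mul D.n (c₀ e, β e) = exp (Q * e) := h3
            rw [h4]; exact hexp1 e he
          obtain ⟨γ, hγ, hγ0, hγe⟩ := chart (x₀ := (c₀ e, β e)) (n := D.n) (hpar e heB).1 h2
          have h3 : Tendsto (fun p : ℂ × ℂ => ((c₀ p.1, p.2) : ℂ × ℂ)) (𝓝 (e, β e))
              (𝓝 (c₀ e, β e)) := (hjoint e heB (β e)).tendsto
          have h4 : Tendsto (fun p : ℂ × ℂ => ((c₀ p.1, β p.1) : ℂ × ℂ)) (𝓝 (e, β e))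
              (𝓝 (c₀ e, β e)) := by
            have h5 : ContinuousAt (fun p : ℂ × ℂ => ((c₀ p.1, β p.1) : ℂ × ℂ)) (e, β e) := by
              refine ContinuousAt.prodMk ?_ ?_
              · exact ContinuousAt.comp (g := c₀) (f := Prod.fst) (hc₀c e heB) continuousAt_fst
              · exact ContinuousAt.comp (g := β) (f := Prod.fst) (hβc e heB) continuousAt_fst
            exact h5.tendsto
          rw [hzβ]
          have h6 : ∀ᶠ p : ℂ × ℂ in 𝓝 (e, β e), a + p.1 ∈ D.B := by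
            have h7 : ContinuousAt (fun p : ℂ × ℂ => a + p.1) (e, β e) := by fun_prop
            exact h7.eventually (isOpen_B.mem_nhds heB)
          filter_upwards [h3.eventually hγe, h4.eventually hγe, h6] with p h7 h8 h9 _ h10 h11
          exfalso
          apply h11
          rw [← h7.1 h10]
          exact h8.1 (hpar p.1 h9).1
        · have hzb : z ∈ ball (β 0) ρ := by
            rw [mem_ball]
            rw [mem_closedBall] at hz
            refine lt_of_le_of_ne hz fun h2 => ?_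
            exact (hall' e he.1).2.1 z h2 hfz
          have hzZ : z ∈ Z (a + e) := by
            by_contra h2
            exact heb ⟨he, z, hzb, hfz, hzβ, h2⟩
          have h2 := (hshift e z).eventually (hF.cont (a + e) (hUe e he) z hzZ)
          filter_upwards [h2] with p h3 _ h4 _
          exact h3 h4
      · have h1 : it (c₀ e) D.n z - z ≠ 0 := sub_ne_zero.2 hfz
        filter_upwards [(hjit e heB z).eventually_ne h1] with p hp _ h4 _
        exact absurd (sub_eq_zero.2 h4) hp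
    filter_upwards [h1] with e' h2
    rintro ⟨-, z, hz, h3, h4, h5⟩
    exact h5 (h2 z (ball_subset_closedBall hz) hz h3 h4)
  -- real parameters
  have hreal : ∀ᶠ s : ℝ in 𝓝[>] 0, (s : ℂ) ∈ ball (0 : ℂ) δ \ {0} ∧ (s : ℂ) ∉ bad := by
    have h1 : ∀ᶠ s : ℝ in 𝓝[>] 0, s < δ := mem_nhdsWithin_of_mem_nhds (gt_mem_nhds hδ)
    have h2 : ∀ᶠ s : ℝ in 𝓝[>] 0, M * (Real.exp (Q * s) - 1) < 1 := by
      have h3 : Continuous fun s : ℝ => M * (Real.exp (Q * s) - 1) := by fun_prop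
      have h4 := h3.tendsto 0
      simp only [mul_zero, Real.exp_zero, sub_self] at h4
      exact (h4.eventually (gt_mem_nhds one_pos)).filter_mono nhdsWithin_le_nhds
    filter_upwards [h1, self_mem_nhdsWithin, h2, hKa] with s hs hs0 h3 h4
    have hs0' : 0 < s := hs0
    have hsn : ‖(s : ℂ)‖ = s := by rw [Complex.norm_real, Real.norm_eq_abs, abs_of_pos hs0']
    have hsU : (s : ℂ) ∈ ball (0 : ℂ) δ \ {0} := by
      refine ⟨by rw [mem_ball_zero_iff, hsn]; exact hs, ?_⟩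
      intro h5
      have h6 : (s : ℂ) = 0 := h5
      rw [h6, norm_zero] at hsn
      exact hs0'.ne hsn
    refine ⟨hsU, ?_⟩
    rintro ⟨-, z, hz, h5, h6, h7⟩
    have h8 := hmul s hsU z hz h5 h6
    rw [hsn] at h8
    have h9 : (Q : ℝ) * s + 1 ≤ Real.exp (Q * s) := Real.add_one_le_exp _
    have hQ1' : (1 : ℝ) ≤ Q := by exact_mod_cast hQ1
    have h10 : s ≤ M * (Real.exp (Q * s) - 1) := by
      have h11 : s ≤ Q * s := by nlinarith
      have h12 : s ≤ Real.exp (Q * s) - 1 := by linarith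
      have h13 : 0 ≤ Real.exp (Q * s) - 1 := by linarith
      nlinarith
    have h11 : mult D.n (c₀ s) z = (mult D.n (c₀ s) z - 1 + M * (exp (Q * s) - 1)) +
        ((1 - M * (Real.exp (Q * s) - 1) : ℝ) : ℂ) := by
      push_cast; ring
    have h12 : ‖mult D.n (c₀ s) z‖ < 1 := by
      rw [h11]
      refine (norm_add_le _ _).trans_lt ?_
      rw [Complex.norm_real, Real.norm_eq_abs, abs_of_pos (by linarith)]
      linarith
    obtain ⟨w, hw⟩ := hF.ne (a + s) (hUe s hsU)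
    have h13 := hKZ (a + s) (hUe s hsU) w hw
    have h14 := (hF.fix (a + s) (hUe s hsU) w hw).1
    obtain ⟨i, hi⟩ := fatou (c₀ s) w z D.n D.n hn hn h14
      (by show ‖mul D.n (D.c (a + s), w)‖ < 1; rw [h13]; exact h4) h5 h12
    exact h7 ((hF.cyc (a + s) (hUe s hsU) w hw z).2 ⟨i, hi⟩)
  obtain ⟨s, hsU, hsb⟩ := hreal.exists
  have hbad0 : ∀ e ∈ ball (0 : ℂ) δ \ {0}, e ∉ bad := by
    intro e he heb
    have h1 : ball (0 : ℂ) δ \ {0} ⊆ bad := by
      refine (punct49 δ).subset_of_closure_inter_subset hopen ⟨e, he, heb⟩ ?_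
      rintro e' ⟨h2, h3⟩
      by_contra h4
      have h5 := hclosed e' h3 h4
      rw [mem_closure_iff_frequently] at h2
      exact (h2.and_eventually h5).exists.elim fun x hx => hx.2 hx.1
    exact hsb (h1 hsU)
  -- conclusion
  have hfin : ∀ᶠ p : ℂ × ℂ in 𝓝 (a, D.b a), p.1 - a ∈ ball (0 : ℂ) δ ∧ p.2 ∈ ball (β 0) ρ := by
    have h1 : ContinuousAt (fun p : ℂ × ℂ => p.1 - a) (a, D.b a) := by fun_prop
    have h2 : ∀ᶠ p : ℂ × ℂ in 𝓝 (a, D.b a), p.1 - a ∈ ball (0 : ℂ) δ :=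
      h1.eventually (isOpen_ball.mem_nhds (by simpa using hδ))
    have h3 : ∀ᶠ p : ℂ × ℂ in 𝓝 (a, D.b a), p.2 ∈ ball (β 0) ρ := by
      refine continuousAt_snd.eventually (isOpen_ball.mem_nhds ?_)
      simp only [hβ, add_zero]
      exact mem_ball_self hρ0
    exact h2.and h3
  filter_upwards [hfin] with p hp hper hne
  have h1 : a + (p.1 - a) = p.1 := by ring
  by_cases h2 : p.1 = a
  · exfalso
    apply hne
    have h3 : β 0 = D.b a := by simp only [hβ, add_zero]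
    have h4 : c₀ 0 = D.c a := by simp only [hc₀, add_zero]
    rw [h2, ← h3]
    refine hD' (y := p.2) ((mem_ball.1 hp.2).trans hρ2) ?_
    rw [h4, ← h2]
    exact hper
  · have h3 : p.1 - a ∈ ball (0 : ℂ) δ \ {0} := ⟨hp.1, sub_ne_zero.2 h2⟩
    by_contra h4
    refine hbad0 _ h3 ⟨h3, p.2, hp.2, ?_, ?_, ?_⟩
    · simp only [hc₀, h1]; exact hper
    · simp only [hβ, h1]; exact hne
    · rw [h1]; exact h4

/-- **S12** -/
theorem s12_child (h11 : S11_deriv) : S12_child := by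
  intro D Z K hP hC hR hG hK hKd hKa
  have h1 := h11 D Z K hP hC hR hG hK hKd hKa
  have h2 : HasDerivAt K (-(((D.x.den : ℝ) ^ 2 : ℝ) : ℂ)) D.a := by
    have h3 := (hKd.differentiableAt (isOpen_ball.mem_nhds (mem_ball_self (sR_pos hP)))).hasDerivAt
    rw [h1] at h3
    push_cast
    exact h3
  have hq : (0 : ℝ) < (D.x.den : ℝ) ^ 2 := by
    have : (0 : ℝ) < D.x.den := by exact_mod_cast D.x.pos
    positivity
  exact child_near49 hP hG.fam hK (K_attr49 hq h2 hKa)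

end Pool.Agent.Work.MLC.Sat
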