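import Pool.Agent.Work.MLC.SatLand60

set_option autoImplicit false

/-! # Theorem S, module S5: the three regions (helper60) -/

namespace Pool.Agent.Work.MLC.Sat

open Filter Topology Metric Set Complex

variable {D : Dat}

lemma a_re (D : Dat) : D.a.re = 0 := by
  unfold Dat.a axisPt; simp

lemma re_le_of_U {L : ℂ} (hL : L ∈ D.U) : L.re < sR D.m D.x := by
  have h1 : ‖L - D.a‖ < sR D.m D.x := by
    rw [← dist_eq_norm]; exact hL.1
  have h2 := Complex.re_le_norm (L - D.a)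
  rw [Complex.sub_re, a_re] at h2
  linarith

lemma near_of_th (hP : D.Par) {L : ℂ} (hL : L ∈ D.U) {θ : ℝ} (h : D.Th L θ) : D.Near θ := by
  have h1 := hP.ply L (U_sub_B hP hL) θ h
  have hm : (1 : ℝ) ≤ D.m := by exact_mod_cast hP.m_pos
  have hq : (1 : ℝ) ≤ D.x.den := by exact_mod_cast D.x.pos
  set ν : ℝ := Circ.nu D.w D.m θ with hν
  set N : ℝ := D.m * D.x.den ^ 2 with hN
  have hN1 : 1 ≤ N := by rw [hN]; nlinarith [sq_nonneg ((D.x.den : ℝ) - 1)]
  have hs : sR D.m D.x = 1 / (16 * D.m * N ^ 2) := by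
    unfold sR; rw [hN]; congr 1; ring
  have hre := re_le_of_U hL
  have h2 : ‖L - 2 * Real.pi * ((ν - D.k₀ : ℝ) : ℂ) * I‖ < 9 / (4 * N) := by
    apply lt_of_pow_lt_pow_left₀ 2 (by positivity)
    refine lt_of_le_of_lt h1 ?_
    have h3 : 81 * (D.m : ℝ) * L.re < 81 * D.m * (1 / (16 * D.m * N ^ 2)) := by
      rw [hs] at hre
      exact mul_lt_mul_of_pos_left hre (by positivity)
    refine lt_of_lt_of_eq h3 ?_
    field_simp
    ring
  have h3 : ‖L - D.a‖ < 1 / (16 * N) := by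
    have h4 : ‖L - D.a‖ < sR D.m D.x := by
      rw [← dist_eq_norm]; exact hL.1
    refine lt_of_lt_of_le h4 ?_
    rw [hs]
    apply one_div_le_one_div_of_le (by positivity)
    have : 16 * N * 1 ≤ 16 * N * (D.m * N) :=
      mul_le_mul_of_nonneg_left (by nlinarith) (by positivity)
    nlinarith
  have h4 : D.a - 2 * Real.pi * ((ν - D.k₀ : ℝ) : ℂ) * I
      = ((-(2 * Real.pi * (ν - (D.k₀ + D.x))) : ℝ) : ℂ) * I := by
    unfold Dat.a axisPt; push_cast; ring
  have h5 : ‖D.a - 2 * Real.pi * ((ν - D.k₀ : ℝ) : ℂ) * I‖ = 2 * Real.pi * |ν - (D.k₀ + D.x)| := by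
    rw [h4, norm_mul, Complex.norm_I, mul_one, Complex.norm_real, Real.norm_eq_abs, abs_neg,
      abs_mul, abs_of_pos (by positivity : (0 : ℝ) < 2 * Real.pi)]
  have h6 : ‖D.a - 2 * Real.pi * ((ν - D.k₀ : ℝ) : ℂ) * I‖ ≤
      ‖L - D.a‖ + ‖L - 2 * Real.pi * ((ν - D.k₀ : ℝ) : ℂ) * I‖ := by
    have : D.a - 2 * Real.pi * ((ν - D.k₀ : ℝ) : ℂ) * I
        = (D.a - L) + (L - 2 * Real.pi * ((ν - D.k₀ : ℝ) : ℂ) * I) := by ring
    rw [this]
    refine (norm_add_le _ _).trans ?_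
    rw [norm_sub_rev D.a L]
  rw [h5] at h6
  have h7 : 2 * Real.pi * |ν - (D.k₀ + D.x)| < 1 / (16 * N) + 9 / (4 * N) := by linarith
  have h8 : 1 / (16 * N) + 9 / (4 * N) = (37 / 16) * (1 / N) := by field_simp; ring
  have h9 : (D.n : ℝ) * D.x.den = N := by
    unfold Dat.n; rw [hN]; push_cast; ring
  unfold Dat.Near
  rw [h9]
  have hpi := Real.pi_gt_three
  have h10 : 0 < 1 / N := by positivity
  rw [h8] at h7
  by_contra hcon
  push Not at hcon
  have h11 : 6 * (1 / N) ≤ 2 * Real.pi * |ν - (D.k₀ + D.x)| := by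
    have : (6 : ℝ) ≤ 2 * Real.pi := by linarith
    exact mul_le_mul this hcon h10.le (by positivity)
  linarith

/-- the punctured disc is connected -/
lemma isPreconnected_U (hP : D.Par) : IsPreconnected D.U := by
  have hs := sR_pos hP
  have h1 : D.U = (fun z : ℂ => D.a + exp z) '' {z : ℂ | z.re < Real.log (sR D.m D.x)} := by
    ext L
    constructor
    · rintro ⟨h1, h2⟩
      have h2' : L - D.a ≠ 0 := sub_ne_zero.2 h2
      refine ⟨Complex.log (L - D.a), ?_, ?_⟩
      · show (Complex.log (L - D.a)).re < _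
        rw [Complex.log_re]
        apply Real.log_lt_log (norm_pos_iff.2 h2')
        rw [← dist_eq_norm]; exact h1
      · show D.a + exp (Complex.log (L - D.a)) = L
        rw [Complex.exp_log h2']; ring
    · rintro ⟨z, hz, rfl⟩
      refine ⟨?_, ?_⟩
      · rw [mem_ball, dist_eq_norm, add_sub_cancel_left, Complex.norm_exp]
        exact (Real.lt_log_iff_exp_lt hs).1 hz
      · intro h
        have h' : D.a + exp z = D.a := h
        exact exp_ne_zero z (by simpa using h')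
  rw [h1]
  refine IsPreconnected.image ?_ _ (by fun_prop)
  exact (convex_halfSpace_re_lt _).isPreconnected

lemma openI (hP : D.Par) (hC : D.Cir) : IsOpen D.RI := by
  rw [isOpen_iff_mem_nhds]
  rintro L ⟨hU, hre, h⟩
  have hB := U_sub_B hP hU
  have hre' := (Complex.continuous_re.continuousAt (x := L)).eventually_const_lt hre
  rcases h with ⟨θ, hθ, h1, h2⟩ | ⟨hM, hland⟩
  · have hε : 0 < min (θ - D.tm) (D.tp - θ) := lt_min (by linarith) (by linarith)
    filter_upwards [isOpen_U.mem_nhds hU, hre', Th_nhds hP hB hθ hε] with L' a1 a2 a3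
    obtain ⟨θ', b1, b2⟩ := a3
    refine ⟨a1, a2, Or.inl ⟨θ', b2, ?_, ?_⟩⟩
    · have := (abs_lt.1 b1).1
      have := min_le_left (θ - D.tm) (D.tp - θ)
      linarith
    · have := (abs_lt.1 b1).2
      have := min_le_right (θ - D.tm) (D.tp - θ)
      linarith
  · filter_upwards [isOpen_U.mem_nhds hU, hre', (s5_land D hP hC L hB hre hM).1 hland]
      with L' a1 a2 a3
    refine ⟨a1, a2, ?_⟩
    by_cases hM' : D.c L' ∈ MM
    · exact Or.inr ⟨hM', a3.1 hM'⟩
    · obtain ⟨θ, hθ⟩ := hP.ang L' (U_sub_B hP a1) hM'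
      exact Or.inl ⟨θ, hθ, a3.2 θ hθ⟩

lemma openO (hply : S5_ply) (hP : D.Par) (hC : D.Cir) : IsOpen D.RO := by
  rw [isOpen_iff_mem_nhds]
  rintro L ⟨hU, hI, h⟩
  have hB := U_sub_B hP hU
  by_cases hM : D.c L ∈ MM
  · by_cases hre : 0 < L.re
    · have hnl : ¬ Land D.m (D.c L) (D.b L) D.tm D.x.den := fun hl =>
        hI ⟨hU, hre, Or.inr ⟨hM, hl⟩⟩
      filter_upwards [isOpen_U.mem_nhds hU, (s5_land D hP hC L hB hre hM).2 hnl] with L' a1 a2
      refine ⟨a1, ?_, a2.2⟩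
      rintro ⟨-, -, ⟨θ, hθ, b1, b2⟩ | ⟨b1, b2⟩⟩
      · rcases a2.2 θ hθ with b3 | b3 <;> linarith
      · exact a2.1 b1 b2
    · have hne : 0 < ‖L - D.a‖ := norm_pos_iff.2 (sub_ne_zero.2 hU.2)
      have hc : ContinuousAt (fun z : ℂ => ‖z - D.a‖ ^ 2 - 81 * D.m * z.re) L := by fun_prop
      have h0 : 0 < ‖L - D.a‖ ^ 2 - 81 * D.m * L.re := by
        have : 81 * (D.m : ℝ) * L.re ≤ 0 :=
          mul_nonpos_of_nonneg_of_nonpos (by positivity) (not_lt.1 hre)
        have := pow_pos hne 2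
        linarith
      filter_upwards [isOpen_U.mem_nhds hU, hc.eventually_const_lt h0] with L' a1 a2
      refine ⟨a1, ?_, ?_⟩
      · intro hI'
        have := hply D hP hC L' hI'
        linarith
      · intro θ hθ
        by_contra hcon
        push Not at hcon
        have h1 := (hC.plateau θ).2 hcon
        have h2 := hP.ply L' (U_sub_B hP a1) θ hθ
        rw [h1] at h2
        have h3 : L' - 2 * Real.pi * (((D.k₀ : ℝ) + (D.x : ℝ) - D.k₀ : ℝ) : ℂ) * I = L' - D.a := by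
          unfold Dat.a axisPt; push_cast; ring
        rw [h3] at h2
        linarith
  · obtain ⟨θ, hθ⟩ := hP.ang L hB hM
    have key : ∀ᶠ L' in 𝓝 L, ∃ θ', (θ' < D.tm ∨ D.tp < θ') ∧ D.Th L' θ' := by
      rcases h θ hθ with h1 | h1
      · filter_upwards [Th_nhds hP hB hθ (sub_pos.2 h1)] with L' a
        obtain ⟨θ', b1, b2⟩ := a
        exact ⟨θ', Or.inl (by linarith [(abs_lt.1 b1).2]), b2⟩
      · filter_upwards [Th_nhds hP hB hθ (sub_pos.2 h1)] with L' a
        obtain ⟨θ', b1, b2⟩ := a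
        exact ⟨θ', Or.inr (by linarith [(abs_lt.1 b1).1]), b2⟩
    filter_upwards [isOpen_U.mem_nhds hU, key] with L' a1 a2
    obtain ⟨θ', b1, b2⟩ := a2
    refine ⟨a1, ?_, fun θ'' hθ'' => by rwa [Th_unique hP hθ'' b2]⟩
    intro hI'
    have := RI_th hI' b2 hP
    rcases b1 with b1 | b1 <;> linarith [this.1, this.2]

lemma mem_RO_of_MM {L : ℂ} (hU : L ∈ D.U) (hM : D.c L ∈ MM) (hI : L ∉ D.RI) : L ∈ D.RO :=
  ⟨hU, hI, fun _ hθ => absurd hM (Th_ext hθ)⟩

lemma clos_RI (hply : S5_ply) (hP : D.Par) (hC : D.Cir) {L : ℂ} (hU : L ∈ D.U)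
    (hM : D.c L ∈ MM) (h : L ∈ closure D.RI) : L ∈ D.RI := by
  by_contra hI
  have h1 := (openO hply hP hC).mem_nhds (mem_RO_of_MM hU hM hI)
  obtain ⟨y, hy1, hy2⟩ := mem_closure_iff_nhds.1 h _ h1
  exact hy1.2.1 hy2

/-- a set without exterior points has no exterior limit points -/
lemma MM_of_closure (hP : D.Par) {V : Set ℂ} (hV : V ⊆ D.U) (hE : V ∩ D.RE = ∅) {L : ℂ}
    (hU : L ∈ D.U) (h : L ∈ closure V) : D.c L ∈ MM := by
  by_contra hM
  have h1 := (isOpen_RE hP).mem_nhds (show L ∈ D.RE from ⟨hU, hM⟩)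
  obtain ⟨y, hy1, hy2⟩ := mem_closure_iff_nhds.1 h _ h1
  have : y ∈ V ∩ D.RE := ⟨hy2, hy1⟩
  rw [hE] at this
  exact this

/-- the points of the imaginary axis near the root -/
lemma exists_ext_U (h3 : S3_neutral) (hP : D.Par) : (D.U ∩ {L | D.c L ∉ MM}).Nonempty := by
  have hs := sR_pos hP
  have hpi := Real.pi_gt_three
  have hm : (1 : ℝ) ≤ D.m := by exact_mod_cast hP.m_pos
  have hq : (1 : ℝ) ≤ D.x.den := by exact_mod_cast D.x.pos
  have hx0 : (0 : ℝ) < D.x := by exact_mod_cast hP.x_pos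
  set s := sR D.m D.x with hsd
  set L : ℂ := D.a + ((s / 2 : ℝ) : ℂ) * I with hL
  have hLU : L ∈ D.U := by
    refine ⟨?_, ?_⟩
    · rw [mem_ball, dist_eq_norm, hL, add_sub_cancel_left, norm_mul, Complex.norm_I, mul_one,
        Complex.norm_real, Real.norm_eq_abs, abs_of_pos (by linarith)]
      show s / 2 < s
      linarith
    · intro h
      have h' : D.a + ((s / 2 : ℝ) : ℂ) * I = D.a := h
      have h2 : ((s / 2 : ℝ) : ℂ) * I = 0 := by simpa using h'
      rcases mul_eq_zero.1 h2 with h4 | h4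
      · have : s / 2 = 0 := by exact_mod_cast h4
        linarith
      · exact I_ne_zero h4
  set φ : ℝ := D.x + s / (4 * Real.pi) with hφ
  have hφ0 : 0 < φ := by rw [hφ]; positivity
  have hφ1 : φ < 1 := by
    have h1 := den_le_min hP
    have h2 := min_le_right (D.x : ℝ) (1 - D.x)
    have h4 : s / (4 * Real.pi) < 1 / D.x.den := by
      have h5 : s ≤ 1 / D.x.den := by
        rw [hsd]; unfold sR
        apply one_div_le_one_div_of_le (by positivity)
        have e1 : (1 : ℝ) ≤ D.m ^ 3 := one_le_pow₀ hm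
        have e2 : (D.x.den : ℝ) ≤ D.x.den ^ 4 := by
          calc (D.x.den : ℝ) = D.x.den ^ 1 := (pow_one _).symm
            _ ≤ D.x.den ^ 4 := pow_le_pow_right₀ hq (by norm_num)
        nlinarith
      have h6 : s / (4 * Real.pi) < s := by
        rw [div_lt_iff₀ (by positivity)]
        nlinarith
      linarith
    rw [hφ]; linarith
  have hB := U_sub_B hP hLU
  obtain ⟨hper, hmul⟩ := hP.sec L hB
  have hmul' : mul D.m (D.σ L) = exp (2 * Real.pi * φ * I) := by
    rw [hmul]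
    congr 1
    rw [hL, hφ]
    unfold Dat.a axisPt
    have : (Real.pi : ℂ) ≠ 0 := by exact_mod_cast Real.pi_ne_zero
    push_cast
    field_simp
    ring
  have h4 := (h3 D.m (D.σ L) φ hP.m_pos hper hφ0 hφ1 hmul').2.2
  have h5 : ∃ᶠ L' in 𝓝 L, D.c L' ∉ MM := by
    have h6 : ∃ᶠ c in map D.c (𝓝 L), c ∉ MM := by
      rw [c_map_nhds hP hB]; exact h4
    exact h6
  obtain ⟨L', h7, h8⟩ := (h5.and_eventually (isOpen_U.mem_nhds hLU)).exists
  exact ⟨L', h8, h7⟩

/-- **the three regions** -/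
theorem s5_regions (hply : S5_ply) (h3 : S3_neutral) : S5_regions := by
  intro D hP hC
  refine ⟨fun L hL θ h => near_of_th hP hL h, isOpen_RE hP, openI hP hC, openO hply hP hC, ?_, ?_,
    fun L hU hM h => clos_RI hply hP hC hU hM h, hply D hP hC, ?_, ?_⟩
  · intro L hU
    by_cases hM : D.c L ∈ MM
    · by_cases hI : L ∈ D.RI
      · exact Or.inl (Or.inr hI)
      · exact Or.inr (mem_RO_of_MM hU hM hI)
    · exact Or.inl (Or.inl ⟨hU, hM⟩)
  · rw [Set.disjoint_left]
    intro L h1 h2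
    exact h2.2.1 h1
  · intro V hV hne ho hcl
    by_contra hcon
    rw [Set.not_nonempty_iff_eq_empty] at hcon
    have hVU : V ⊆ D.U := fun L h => (hV h).1
    have h1 : D.U ⊆ V := by
      refine (isPreconnected_U hP).subset_of_closure_inter_subset ho ?_ ?_
      · obtain ⟨y, hy⟩ := hne
        exact ⟨y, hVU hy, hy⟩
      · rintro L ⟨hL, hU⟩
        have hM := MM_of_closure hP hVU hcon hU hL
        exact hcl L (clos_RI hply hP hC hU hM (closure_mono hV hL)) hL
    obtain ⟨L, hL, hE⟩ := exists_ext_U h3 hP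
    have : L ∈ V ∩ D.RE := ⟨h1 hL, hL, hE⟩
    rw [hcon] at this
    exact this
  · intro V hV hne ho hcl
    by_contra hcon
    rw [Set.not_nonempty_iff_eq_empty] at hcon
    have hVU : V ⊆ D.U := fun L h => (hV h).1
    have h1 : D.U ⊆ V := by
      refine (isPreconnected_U hP).subset_of_closure_inter_subset ho ?_ ?_
      · obtain ⟨y, hy⟩ := hne
        exact ⟨y, hVU hy, hy⟩
      · rintro L ⟨hL, hU⟩
        have hM := MM_of_closure hP hVU hcon hU hL
        refine hcl L (mem_RO_of_MM hU hM fun hI => ?_) hL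
        obtain ⟨y, hy1, hy2⟩ := mem_closure_iff_nhds.1 hL _ ((openI hP hC).mem_nhds hI)
        exact (hV hy2).2.1 hy1
    obtain ⟨L, hL, hE⟩ := exists_ext_U h3 hP
    have : L ∈ V ∩ D.RE := ⟨h1 hL, hL, hE⟩
    rw [hcon] at this
    exact this

end Pool.Agent.Work.MLC.Sat
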