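import Pool.Agent.Work.MLC.SatCh26
import Pool.Agent.Work.MLC.Sat12_49
import Pool.Agent.Work.MLC.NV1
import Pool.Agent.Work.MLC.SatReg60

set_option autoImplicit false

/-! # Theorem S, module S11: the derivative of the multiplier at the root (helper15)

`s11_deriv : Sat.S11_deriv`: `K'(a) = - Q ^ 2`. -/

namespace Pool.Agent.Work.MLC.Sat

open Filter Topology Metric Set Complex

/-! ### the derivative is a negative real number -/

/-- the leading coefficient -/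
lemma lead15 {g g₁ : ℂ → ℂ} {p : ℕ} (hg₁ : ContinuousAt g₁ 0)
    (h : ∀ᶠ z in 𝓝 (0 : ℂ), g z = z ^ p * g₁ z)
    (hn : ∀ᶠ e : ℂ in 𝓝 0, e ≠ 0 → e.re ≤ 0 → 1 < ‖1 + g e‖) (hp : 0 < p) {ω : ℂ} (hω : ω ≠ 0)
    (hre : ω.re ≤ 0) : 0 ≤ (ω ^ p * g₁ 0).re := by
  have h1 : Tendsto (fun s : ℝ => (s : ℂ) * ω) (𝓝[>] 0) (𝓝 0) := by
    have h2 : Continuous fun s : ℝ => (s : ℂ) * ω := by fun_prop
    have h3 := h2.tendsto 0
    simp only [ofReal_zero, zero_mul] at h3
    exact h3.mono_left nhdsWithin_le_nhds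
  have h4 : Tendsto (fun s : ℝ => g₁ ((s : ℂ) * ω)) (𝓝[>] 0) (𝓝 (g₁ 0)) := hg₁.tendsto.comp h1
  have h5 : Tendsto (fun s : ℝ => (ω ^ p * g₁ ((s : ℂ) * ω)).re +
      s ^ p * ‖ω ^ p * g₁ ((s : ℂ) * ω)‖ ^ 2 / 2) (𝓝[>] 0)
      (𝓝 ((ω ^ p * g₁ 0).re + 0 ^ p * ‖ω ^ p * g₁ 0‖ ^ 2 / 2)) := by
    have h6 : Tendsto (fun s : ℝ => ω ^ p * g₁ ((s : ℂ) * ω)) (𝓝[>] 0) (𝓝 (ω ^ p * g₁ 0)) :=
      h4.const_mul _
    have h7 : Tendsto (fun s : ℝ => s ^ p) (𝓝[>] 0) (𝓝 (0 ^ p)) := by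
      have : Continuous fun s : ℝ => s ^ p := by fun_prop
      exact (this.tendsto 0).mono_left nhdsWithin_le_nhds
    exact ((continuous_re.tendsto _).comp h6).add ((h7.mul (h6.norm.pow 2)).div_const 2)
  rw [zero_pow hp.ne', zero_mul, zero_div, add_zero] at h5
  refine ge_of_tendsto h5 ?_
  filter_upwards [h1.eventually h, h1.eventually hn, self_mem_nhdsWithin] with s h6 h7 hs
  have hs0 : (0 : ℝ) < s := hs
  have h8 : (s : ℂ) * ω ≠ 0 := mul_ne_zero (by exact_mod_cast hs0.ne') hω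
  have h9 : ((s : ℂ) * ω).re ≤ 0 := by
    rw [re_ofReal_mul]; nlinarith
  have h10 := h7 h8 h9
  rw [h6, mul_pow, mul_assoc] at h10
  set v := ω ^ p * g₁ ((s : ℂ) * ω) with hv
  have h11 : (1 : ℝ) < ‖1 + (s : ℂ) ^ p * v‖ ^ 2 := by nlinarith
  have h12 : ‖1 + (s : ℂ) ^ p * v‖ ^ 2 = 1 + 2 * (s ^ p * v.re) + (s ^ p) ^ 2 * ‖v‖ ^ 2 := by
    have h13 : (s : ℂ) ^ p = ((s ^ p : ℝ) : ℂ) := by push_cast; rfl
    rw [h13, ← Complex.normSq_eq_norm_sq, ← Complex.normSq_eq_norm_sq, Complex.normSq_apply,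
      Complex.normSq_apply]
    simp only [add_re, one_re, add_im, one_im, re_ofReal_mul, im_ofReal_mul]
    ring
  rw [h12] at h11
  have h14 : 0 < s ^ p := pow_pos hs0 p
  have h15 : 0 < s ^ p * (v.re + s ^ p * ‖v‖ ^ 2 / 2) := by nlinarith
  exact ((mul_pos_iff_of_pos_left h14).1 h15).le

/-- if `K` is not attracting in a left half disc, then `K'` is negative -/
theorem neg_deriv15 {K : ℂ → ℂ} {a : ℂ} (hK : AnalyticAt ℂ K a) (h1 : K a = 1)
    (h : ∀ᶠ e : ℂ in 𝓝 0, e ≠ 0 → e.re ≤ 0 → 1 < ‖K (a + e)‖) :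
    ∃ κ : ℝ, 0 < κ ∧ HasDerivAt K (-(κ : ℂ)) a := by
  set g : ℂ → ℂ := fun e => K (a + e) - 1 with hg
  have hK' : AnalyticAt ℂ K (a + 0) := by rwa [add_zero]
  have hga : AnalyticAt ℂ g 0 := by
    have h2 : AnalyticAt ℂ (fun e : ℂ => a + e) 0 := analyticAt_const.add analyticAt_id
    exact (AnalyticAt.fun_comp (g := K) (f := fun e : ℂ => a + e) hK' h2).sub analyticAt_const
  have hn : ∀ᶠ e : ℂ in 𝓝 0, e ≠ 0 → e.re ≤ 0 → 1 < ‖1 + g e‖ := by
    filter_upwards [h] with e he h2 h3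
    have : 1 + g e = K (a + e) := by simp only [hg]; ring
    rw [this]; exact he h2 h3
  have hne : ¬ ∀ᶠ z in 𝓝 (0 : ℂ), g z = 0 := by
    intro h2
    have h3 : Tendsto (fun s : ℝ => ((-s : ℝ) : ℂ)) (𝓝[>] 0) (𝓝 0) := by
      have h4 : Continuous fun s : ℝ => ((-s : ℝ) : ℂ) := by fun_prop
      have h5 := h4.tendsto 0
      simp only [neg_zero, ofReal_zero] at h5
      exact h5.mono_left nhdsWithin_le_nhds
    obtain ⟨s, h4, h5, h6⟩ := ((h3.eventually h2).and ((h3.eventually hn).and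
      self_mem_nhdsWithin)).exists
    have hs0 : (0 : ℝ) < s := h6
    have h7 := h5 (by exact_mod_cast (neg_lt_zero.2 hs0).ne)
      (by rw [ofReal_re]; linarith)
    rw [h4] at h7
    norm_num at h7
  obtain ⟨p, g₁, hg₁, hg₁0, hgp⟩ := hga.exists_eventuallyEq_pow_smul_nonzero_iff.2 hne
  have hgp' : ∀ᶠ z in 𝓝 (0 : ℂ), g z = z ^ p * g₁ z := by
    filter_upwards [hgp] with z hz
    rw [hz, sub_zero, smul_eq_mul]
  have hp : 0 < p := by
    rcases Nat.eq_zero_or_pos p with h0 | h0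
    · exfalso
      have h2 := hgp'.self_of_nhds
      rw [h0, pow_zero, one_mul] at h2
      apply hg₁0
      rw [← h2]
      simp only [hg, add_zero, h1, sub_self]
    · exact h0
  have key : ∀ ω : ℂ, ω ≠ 0 → ω.re ≤ 0 → 0 ≤ (ω ^ p * g₁ 0).re := fun ω hω hre =>
    lead15 hg₁.continuousAt hgp' hn hp hω hre
  have hp1 : p = 1 := by
    by_contra hp1
    have hp2 : 2 ≤ p := by omega
    have hp2' : (2 : ℝ) ≤ p := by exact_mod_cast hp2
    set ψ : ℝ := arg (g₁ 0) with hψ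
    set k : ℤ := ⌈(p * (Real.pi / 2) - Real.pi + ψ) / (2 * Real.pi)⌉ with hk
    have hpi := Real.pi_pos
    have hk1 : (p * (Real.pi / 2) - Real.pi + ψ) ≤ k * (2 * Real.pi) := by
      have := Int.le_ceil ((p * (Real.pi / 2) - Real.pi + ψ) / (2 * Real.pi))
      rwa [div_le_iff₀ (by positivity)] at this
    have hk2 : k * (2 * Real.pi) < (p * (Real.pi / 2) - Real.pi + ψ) + 2 * Real.pi := by
      have h2 := Int.ceil_lt_add_one ((p * (Real.pi / 2) - Real.pi + ψ) / (2 * Real.pi))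
      have h3 : (k : ℝ) * (2 * Real.pi) < ((p * (Real.pi / 2) - Real.pi + ψ) / (2 * Real.pi) + 1) *
        (2 * Real.pi) := by gcongr
      have h4 : ((p * (Real.pi / 2) - Real.pi + ψ) / (2 * Real.pi) + 1) * (2 * Real.pi) =
        (p * (Real.pi / 2) - Real.pi + ψ) + 2 * Real.pi := by field_simp
      rwa [h4] at h3
    set φ : ℝ := (Real.pi + k * (2 * Real.pi) - ψ) / p with hφ
    have hp0 : (0 : ℝ) < p := by linarith
    have hφ1 : Real.pi / 2 ≤ φ := by
      rw [hφ, le_div_iff₀ hp0]; nlinarith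
    have hφ2 : φ ≤ Real.pi + Real.pi / 2 := by
      rw [hφ, div_le_iff₀ hp0]; nlinarith
    have h2 := key (exp (φ * I)) (exp_ne_zero _) (by
      rw [exp_ofReal_mul_I_re]
      exact Real.cos_nonpos_of_pi_div_two_le_of_le hφ1 hφ2)
    have h3 : exp (φ * I) ^ p * g₁ 0 = -(‖g₁ 0‖ : ℂ) := by
      have h4 : g₁ 0 = ‖g₁ 0‖ * exp (ψ * I) := (norm_mul_exp_arg_mul_I (g₁ 0)).symm
      rw [h4, ← exp_nat_mul]
      have h5 : (p : ℂ) * (φ * I) = Real.pi * I + k * (2 * Real.pi * I) - ψ * I := by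
        have h6 : (p : ℝ) * φ = Real.pi + k * (2 * Real.pi) - ψ := by
          rw [hφ]; field_simp
        have h7 : (p : ℂ) * (φ : ℂ) = Real.pi + k * (2 * Real.pi) - ψ := by exact_mod_cast h6
        linear_combination I * h7
      have h8 : exp ((p : ℂ) * (φ * I)) = -exp (-(ψ * I)) := by
        rw [h5, sub_eq_add_neg, exp_add, exp_add, exp_int_mul_two_pi_mul_I, exp_pi_mul_I]
        ring
      rw [h8, exp_neg]
      have h9 := exp_ne_zero ((ψ : ℂ) * I)
      have h10 : ‖(‖g₁ 0‖ : ℂ) * exp (ψ * I)‖ = ‖g₁ 0‖ := by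
        rw [norm_mul, norm_exp_ofReal_mul_I, mul_one, Complex.norm_real, norm_norm]
      rw [h10]
      field_simp
    rw [h3, neg_re, ofReal_re] at h2
    have h4 : 0 < ‖g₁ 0‖ := norm_pos_iff.2 hg₁0
    linarith
  subst hp1
  simp only [pow_one] at key hgp'
  have hre : (g₁ 0).re ≤ 0 := by
    have := key (-1) (by norm_num) (by simp)
    simp only [neg_mul, one_mul, neg_re] at this
    linarith
  have him : (g₁ 0).im = 0 := by
    have h2 := key I I_ne_zero (by simp)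
    have h3 := key (-I) (neg_ne_zero.2 I_ne_zero) (by simp)
    simp only [I_mul_re, neg_mul, neg_re] at h2 h3
    linarith
  have hval : g₁ 0 = (((g₁ 0).re : ℝ) : ℂ) := by
    apply Complex.ext
    · simp
    · simp [him]
  have hlt : (g₁ 0).re < 0 := by
    refine lt_of_le_of_ne hre fun h0 => hg₁0 ?_
    rw [hval, h0, ofReal_zero]
  refine ⟨-(g₁ 0).re, by linarith, ?_⟩
  have hgd : HasDerivAt g (g₁ 0) 0 := by
    have h2 : HasDerivAt (fun z : ℂ => z * g₁ z) (1 * g₁ 0 + 0 * deriv g₁ 0) 0 :=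
      (hasDerivAt_id (0 : ℂ)).mul hg₁.differentiableAt.hasDerivAt
    rw [one_mul, zero_mul, add_zero] at h2
    exact h2.congr_of_eventuallyEq hgp'
  have h3 : HasDerivAt (fun z : ℂ => g (z - a) + 1) (g₁ 0) a := by
    have h4 : HasDerivAt (fun z : ℂ => z - a) 1 a := (hasDerivAt_id a).sub_const a
    have h5 : HasDerivAt g (g₁ 0) (a - a) := by rwa [sub_self]
    have h6 := HasDerivAt.comp (h₂ := g) (h := fun z : ℂ => z - a) a h5 h4
    rw [mul_one] at h6
    exact h6.add_const 1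
  have h7 : (fun z : ℂ => g (z - a) + 1) = K := by
    funext z; simp only [hg, sub_add_cancel, add_sub_cancel]
  rw [h7, hval] at h3
  have h8 : (-((-(g₁ 0).re : ℝ) : ℂ)) = (((g₁ 0).re : ℝ) : ℂ) := by push_cast; ring
  rwa [h8]

/-! ### orbits -/

lemma orb_inj15 {n : ℕ} {c z : ℂ} (hz : it c n z = z)
    (h : ∀ d, 0 < d → d < n → it c d z ≠ z) :
    Set.InjOn (fun i => it c i z) (Finset.range n : Set ℕ) := by
  have key : ∀ i j, i < j → j < n → it c i z ≠ it c j z := by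
    intro i j hij hj heq
    apply h (j - i) (by omega) (by omega)
    have h1 := congrArg (it c (n - i)) heq
    rw [it_comp, it_comp] at h1
    have h2 : n - i + i = n := by omega
    have h3 : n - i + j = (j - i) + n := by omega
    rw [h2, hz, h3, it_add_periodic hz] at h1
    exact h1.symm
  intro i hi j hj heq
  simp only [Finset.coe_range, Set.mem_Iio] at hi hj
  rcases lt_trichotomy i j with h1 | h1 | h1
  · exact absurd heq (key i j h1 hj)
  · exact h1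
  · exact absurd heq.symm (key j i h1 hi)

/-- the orbit as a finset -/
noncomputable def orb15 (n : ℕ) (c z : ℂ) : Finset ℂ := (Finset.range n).image fun i => it c i z

lemma mem_orb15 {n : ℕ} (hn : 0 < n) {c z : ℂ} (hz : it c n z = z) (i : ℕ) :
    it c i z ∈ orb15 n c z := by
  unfold orb15
  rw [Finset.mem_image]
  exact ⟨i % n, Finset.mem_range.2 (Nat.mod_lt _ hn), One49.it_mod hz i⟩

/-- the fixed point formula with two cycles singled out -/
theorem sum_le15 {n : ℕ} (hn : 0 < n) {c : ℂ} (h : ∀ b, it c n b = b → mul n (c, b) ≠ 1)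
    {S T : Finset ℂ} (hS : S ⊆ NV.fixS n c) (hT : T ⊆ NV.fixS n c) (hST : Disjoint S T)
    {μ ν : ℂ} (hμ : ∀ b ∈ S, mul n (c, b) = μ) (hν : ∀ b ∈ T, mul n (c, b) = ν)
    (ho : ∀ b, it c n b = b → b ∉ S → b ∉ T → 1 ≤ ‖mul n (c, b)‖) :
    0 ≤ S.card * (1 / (1 - μ)).re + T.card * (1 / (1 - ν)).re + 2 ^ n / 2 := by
  classical
  have h1 := congrArg Complex.re (NV.sum_inv hn h)
  rw [Complex.re_sum, Complex.zero_re] at h1
  have hU : S ∪ T ⊆ NV.fixS n c := Finset.union_subset hS hT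
  rw [← Finset.sum_sdiff hU, Finset.sum_union hST] at h1
  have h2 : ∑ b ∈ S, (1 / (1 - mul n (c, b))).re = S.card * (1 / (1 - μ)).re := by
    rw [Finset.sum_congr rfl fun b hb => by rw [hμ b hb], Finset.sum_const, nsmul_eq_mul]
  have h3 : ∑ b ∈ T, (1 / (1 - mul n (c, b))).re = T.card * (1 / (1 - ν)).re := by
    rw [Finset.sum_congr rfl fun b hb => by rw [hν b hb], Finset.sum_const, nsmul_eq_mul]
  have h4 : ∑ b ∈ NV.fixS n c \ (S ∪ T), (1 / (1 - mul n (c, b))).re ≤ 2 ^ n / 2 := by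
    calc ∑ b ∈ NV.fixS n c \ (S ∪ T), (1 / (1 - mul n (c, b))).re
        ≤ ∑ _b ∈ NV.fixS n c \ (S ∪ T), (1 / 2 : ℝ) := by
          refine Finset.sum_le_sum fun b hb => NV.re_le_half ?_
          rw [Finset.mem_sdiff, Finset.mem_union, not_or] at hb
          exact ho b ((NV.mem_fixS hn).1 hb.1) hb.2.1 hb.2.2
      _ ≤ ∑ _b ∈ NV.fixS n c, (1 / 2 : ℝ) :=
          Finset.sum_le_sum_of_subset_of_nonneg Finset.sdiff_subset fun _ _ _ => by norm_num
      _ = 2 ^ n / 2 := by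
          rw [Finset.sum_const, NV.card_fixS hn h, nsmul_eq_mul]
          push_cast; ring
  rw [h2, h3] at h1
  linarith

lemma orb_sub15 {n k : ℕ} (hn : 0 < n) {c z : ℂ} (hz : (c, z) ∈ Per n) :
    orb15 k c z ⊆ NV.fixS n c ∧ ∀ b ∈ orb15 k c z, mul n (c, b) = mul n (c, z) := by
  constructor
  · intro b hb
    obtain ⟨i, -, rfl⟩ := Finset.mem_image.1 hb
    exact (NV.mem_fixS hn).2 (it_it_periodic hz i)
  · intro b hb
    obtain ⟨i, -, rfl⟩ := Finset.mem_image.1 hb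
    exact mul_it' hz i

lemma re_nonneg15 {ν : ℂ} (h : ‖ν‖ < 1) : 0 ≤ (1 / (1 - ν)).re := by
  rw [one_div, Complex.inv_re]
  refine div_nonneg ?_ (Complex.normSq_nonneg _)
  rw [sub_re, one_re]
  linarith [Complex.re_le_norm ν]

lemma lim15 {f : ℂ → ℂ} {a d : ℂ} (hf : HasDerivAt f d a) (h1 : f a = 1) (hd : d ≠ 0) :
    Tendsto (fun s : ℝ => s * (1 / (1 - f (a + s))).re) (𝓝[≠] 0) (𝓝 ((1 / (-d)).re)) := by
  have h2 := hasDerivAt_iff_tendsto_slope_zero.1 hf
  have h3 : Tendsto (fun s : ℝ => (s : ℂ)) (𝓝[≠] 0) (𝓝[≠] 0) := by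
    refine tendsto_nhdsWithin_iff.2 ⟨?_, ?_⟩
    · have := (continuous_ofReal.tendsto 0)
      rw [ofReal_zero] at this
      exact this.mono_left nhdsWithin_le_nhds
    · filter_upwards [self_mem_nhdsWithin] with s hs
      have h0 : s ≠ 0 := hs
      have h1 : (s : ℂ) ≠ 0 := by exact_mod_cast h0
      exact h1
  have h4 := (h2.comp h3).neg.inv₀ (neg_ne_zero.2 hd)
  have h5 := (continuous_re.tendsto _).comp h4
  rw [← one_div] at h5
  refine h5.congr' ?_
  filter_upwards [self_mem_nhdsWithin] with s hs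
  have hs0 : s ≠ 0 := hs
  have hs1 : (s : ℂ) ≠ 0 := by exact_mod_cast hs0
  simp only [Function.comp_apply, h1, smul_eq_mul]
  have h6 : (-((s : ℂ)⁻¹ * (f (a + s) - 1)))⁻¹ = (s : ℂ) * (1 / (1 - f (a + s))) := by
    rw [← mul_neg, neg_sub, mul_inv, inv_inv, one_div]
  rw [h6, re_ofReal_mul]

/-- the fixed point formula at the parameters `a + s`, `s` real -/
theorem star15 {D : Dat} {Z : ℂ → Set ℂ} {K : ℂ → ℂ} (hP : D.Par) (hG : Glued D Z)
    (hK : ∀ L ∈ D.U, ∀ z ∈ Z L, mul D.n (D.c L, z) = K L) {κ : ℝ} (hκ : 0 < κ)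
    (hder : HasDerivAt K (-(κ : ℂ)) D.a) (hKa : K D.a = 1)
    (hleft : ∀ L ∈ D.U, L.re ≤ 0 → L ∈ D.RO) :
    ∀ᶠ s : ℝ in 𝓝[≠] 0, 0 ≤ D.m * (1 / (1 - exp ((D.x.den : ℂ) * (D.a + s - D.a)))).re +
      D.n * (1 / (1 - K (D.a + s))).re + 2 ^ D.n / 2 := by
  have hn := Par_n_pos hP
  have hlim : Tendsto (fun s : ℝ => D.a + (s : ℂ)) (𝓝[≠] 0) (𝓝[≠] D.a) := by
    refine tendsto_nhdsWithin_iff.2 ⟨?_, ?_⟩
    · have h2 : Continuous fun s : ℝ => D.a + (s : ℂ) := by fun_prop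
      have h3 := h2.tendsto 0
      simp only [ofReal_zero, add_zero] at h3
      exact h3.mono_left nhdsWithin_le_nhds
    · filter_upwards [self_mem_nhdsWithin] with s hs
      have h2 : s ≠ 0 := hs
      simpa using h2
  have hsimple : ∀ᶠ L in 𝓝[≠] D.a, ∀ b, it (D.c L) D.n b = b → mul D.n (D.c L, b) ≠ 1 := by
    have hfin := NV.finite_par hn
    have h2 : HasDerivAt D.c (deriv D.c D.a) D.a :=
      ((c_diff hP).differentiableAt (isOpen_B.mem_nhds (a_mem_B hP))).hasDerivAt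
    have h3 : deriv D.c D.a ≠ 0 := section_deriv_ne_zero (goodB hP) hP.cont hP.sec (a_mem_B hP)
    have h4 : ∀ᶠ L in 𝓝[≠] D.a, ∀ c₁ ∈ {c : ℂ | ∃ b, it c D.n b = b ∧ mul D.n (c, b) = 1},
        D.c L ≠ c₁ := (Filter.eventually_all_finite hfin).2 fun c₁ _ => h2.eventually_ne h3
    filter_upwards [h4] with L h5 b hb hb1
    exact h5 _ ⟨b, hb, hb1⟩ rfl
  have hattr : ∀ᶠ s : ℝ in 𝓝[≠] 0, 0 < s → ‖K (D.a + s)‖ < 1 := by
    have h2 := K_attr49 hκ hder hKa
    rw [eventually_nhdsWithin_iff] at h2 ⊢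
    filter_upwards [h2] with s h3 _ h5
    exact h3 h5
  have hU : ∀ᶠ L in 𝓝[≠] D.a, L ∈ D.U := by
    have h2 : ball D.a (sR D.m D.x) ∈ 𝓝 D.a := ball_mem_nhds _ (sR_pos hP)
    filter_upwards [mem_nhdsWithin_of_mem_nhds h2, self_mem_nhdsWithin] with L h3 h4
    exact ⟨h3, h4⟩
  filter_upwards [hlim.eventually hsimple, hlim.eventually hU, hattr, self_mem_nhdsWithin]
    with s hs1 hs2 hs3 hs4
  have hs0 : s ≠ 0 := hs4
  set L : ℂ := D.a + s with hLdef
  have hLB := U_sub_B hP hs2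
  obtain ⟨hb, hbm⟩ := mul_parent49 hP hLB
  obtain ⟨z, hz⟩ := hG.fam.ne L hs2
  have hzP := (hG.fam.fix L hs2 z hz).1
  have hzK := hK L hs2 z hz
  have hQ : (0 : ℝ) < D.x.den := by exact_mod_cast D.x.pos
  have hnorm : ‖exp ((D.x.den : ℂ) * (L - D.a))‖ = Real.exp (D.x.den * s) := by
    rw [Complex.norm_exp]
    congr 1
    have : (D.x.den : ℂ) * (L - D.a) = ((D.x.den * s : ℝ) : ℂ) := by
      rw [hLdef]; push_cast; ring
    rw [this, ofReal_re]
  have hre : L.re = s := by rw [hLdef, add_re, a_re, ofReal_re, zero_add]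
  have hpar : it (D.c L) D.m (D.b L) = D.b L := (hP.sec L hLB).1
  set S := orb15 D.m (D.c L) (D.b L) with hS
  set T := orb15 D.n (D.c L) z with hT
  have hScard : S.card = D.m := by
    rw [hS, orb15, Finset.card_image_of_injOn (orb_inj15 hpar (hP.prim L hLB)), Finset.card_range]
  obtain ⟨hS1, hS2⟩ := orb_sub15 (k := D.m) hn hb
  obtain ⟨hT1, hT2⟩ := orb_sub15 (k := D.n) hn hzP
  rw [hbm] at hS2
  rw [hzK] at hT2
  rcases lt_or_gt_of_ne hs0 with hneg | hpos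
  · -- the parent is attracting
    have hRO : L ∈ D.RO := hleft L hs2 (by rw [hre]; exact hneg.le)
    obtain ⟨h1, h2⟩ := hG.left L hRO
    have hK1 : 1 < ‖K L‖ := by rw [← hzK]; exact h1 z hz
    have hpa : ‖exp ((D.x.den : ℂ) * (L - D.a))‖ < 1 := by
      rw [hnorm, Real.exp_lt_one_iff]; nlinarith
    have hTcard : T.card = D.n := by
      rw [hT, orb15, Finset.card_image_of_injOn (orb_inj15 hzP (h2 z hz)), Finset.card_range]
    have hdis : Disjoint S T := by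
      rw [Finset.disjoint_left]
      intro y hy1 hy2
      have h3 := hS2 y hy1
      rw [hT2 y hy2] at h3
      rw [← h3] at hpa
      linarith
    have h3 := sum_le15 hn hs1 hS1 hT1 hdis hS2 hT2 (by
      intro y hy hyS hyT
      by_contra hcon
      push Not at hcon
      obtain ⟨i, hi⟩ := fatou (D.c L) (D.b L) y D.n D.n hn hn hb (by rw [hbm]; exact hpa) hy hcon
      apply hyS
      rw [hi]
      exact mem_orb15 hP.m_pos hpar i)
    rwa [hScard, hTcard] at h3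
  · -- the family is attracting
    have hK1 : ‖K L‖ < 1 := hs3 hpos
    have hpa : 1 < ‖exp ((D.x.den : ℂ) * (L - D.a))‖ := by
      rw [hnorm, Real.one_lt_exp_iff]; positivity
    have hTcard : T.card ≤ D.n := by
      rw [hT, orb15]
      exact Finset.card_image_le.trans (by rw [Finset.card_range])
    have hdis : Disjoint S T := by
      rw [Finset.disjoint_left]
      intro y hy1 hy2
      have h3 := hS2 y hy1
      rw [hT2 y hy2] at h3
      rw [← h3] at hpa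
      linarith
    have h3 := sum_le15 hn hs1 hS1 hT1 hdis hS2 hT2 (by
      intro y hy hyS hyT
      by_contra hcon
      push Not at hcon
      obtain ⟨i, hi⟩ := fatou (D.c L) z y D.n D.n hn hn hzP (by rw [hzK]; exact hK1) hy hcon
      apply hyT
      rw [hi]
      exact mem_orb15 hn hzP i)
    rw [hScard] at h3
    have h4 : (T.card : ℝ) * (1 / (1 - K L)).re ≤ D.n * (1 / (1 - K L)).re :=
      mul_le_mul_of_nonneg_right (by exact_mod_cast hTcard) (re_nonneg15 hK1)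
    linarith

/-- **S11**: the derivative of the multiplier of the child at the root -/
theorem s11_deriv : S11_deriv := by
  intro D Z K hP hC hR hG hK hd hKa
  have hsR := sR_pos hP
  have hball : ball D.a (sR D.m D.x) ∈ 𝓝 D.a := ball_mem_nhds _ hsR
  have hKan : AnalyticAt ℂ K D.a := hd.analyticAt hball
  have hleft : ∀ L ∈ D.U, L.re ≤ 0 → L ∈ D.RO := by
    intro L hL hre
    refine ⟨hL, fun h => ?_, fun θ h => ?_⟩
    · linarith [h.2.1]
    · have := re_pos_of_ext hP (U_sub_B hP hL) (Th_ext h)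
      linarith
  have hrep : ∀ᶠ e : ℂ in 𝓝 0, e ≠ 0 → e.re ≤ 0 → 1 < ‖K (D.a + e)‖ := by
    have h1 : ball (0 : ℂ) (sR D.m D.x) ∈ 𝓝 (0 : ℂ) := ball_mem_nhds _ hsR
    filter_upwards [h1] with e he h0 hre
    have hU : D.a + e ∈ D.U := by
      refine ⟨?_, ?_⟩
      · rw [mem_ball, dist_eq_norm, add_sub_cancel_left]
        rwa [mem_ball, dist_zero_right] at he
      · intro h2
        apply h0
        simpa using h2
    have hRO := hleft _ hU (by rw [add_re, a_re, zero_add]; exact hre)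
    obtain ⟨z, hz⟩ := hG.fam.ne _ hU
    rw [← hK _ hU z hz]
    exact (hG.left _ hRO).1 z hz
  obtain ⟨κ, hκ, hder⟩ := neg_deriv15 hKan hKa hrep
  have hstar := star15 hP hG hK hκ hder hKa hleft
  have hQ : (0 : ℝ) < D.x.den := by exact_mod_cast D.x.pos
  have hQc : (D.x.den : ℂ) ≠ 0 := by exact_mod_cast hQ.ne'
  have hκc : (κ : ℂ) ≠ 0 := by exact_mod_cast hκ.ne'
  have hA := lim15 hder hKa (neg_ne_zero.2 hκc)
  have hE : HasDerivAt (fun L => exp ((D.x.den : ℂ) * (L - D.a))) (D.x.den : ℂ) D.a := by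
    have h1 : HasDerivAt (fun L : ℂ => (D.x.den : ℂ) * (L - D.a)) ((D.x.den : ℂ) * 1) D.a :=
      ((hasDerivAt_id D.a).sub_const D.a).const_mul _
    have h2 := h1.cexp
    simpa using h2
  have hB := lim15 hE (by simp) hQc
  have hA' : (1 / (-(-(κ : ℂ)))).re = 1 / κ := by
    rw [neg_neg, ← ofReal_one, ← ofReal_div, ofReal_re]
  have hB' : (1 / (-(D.x.den : ℂ))).re = -(1 / D.x.den) := by
    have : (1 / (-(D.x.den : ℂ))) = ((-(1 / (D.x.den : ℝ)) : ℝ) : ℂ) := by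
      push_cast
      rw [one_div, one_div, inv_neg]
    rw [this, ofReal_re]
  rw [hA'] at hA
  rw [hB'] at hB
  have hlin : Tendsto (fun s : ℝ => s * (2 ^ D.n / 2 : ℝ)) (𝓝[≠] 0) (𝓝 0) := by
    have h1 : Continuous fun s : ℝ => s * (2 ^ D.n / 2 : ℝ) := by fun_prop
    have h2 := h1.tendsto 0
    rw [zero_mul] at h2
    exact h2.mono_left nhdsWithin_le_nhds
  have hsum := ((hB.const_mul (D.m : ℝ)).add (hA.const_mul (D.n : ℝ))).add hlin
  have hpos : 0 ≤ (D.m : ℝ) * -(1 / D.x.den) + D.n * (1 / κ) + 0 := by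
    have h1 : 𝓝[>] (0 : ℝ) ≤ 𝓝[≠] 0 := nhdsWithin_mono _ fun s hs => (ne_of_gt hs)
    refine ge_of_tendsto (hsum.mono_left h1) ?_
    filter_upwards [h1 hstar, self_mem_nhdsWithin] with s hs hs'
    have hs0 : (0 : ℝ) < s := hs'
    have h2 := mul_nonneg hs0.le hs
    calc (0 : ℝ) ≤ _ := h2
      _ = _ := by ring
  have hneg : (D.m : ℝ) * -(1 / D.x.den) + D.n * (1 / κ) + 0 ≤ 0 := by
    have h1 : 𝓝[<] (0 : ℝ) ≤ 𝓝[≠] 0 := nhdsWithin_mono _ fun s hs => (ne_of_lt hs)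
    refine le_of_tendsto (hsum.mono_left h1) ?_
    filter_upwards [h1 hstar, self_mem_nhdsWithin] with s hs hs'
    have hs0 : s < (0 : ℝ) := hs'
    have h2 := mul_nonneg (neg_nonneg.2 hs0.le) hs
    have h3 : (D.m : ℝ) * (s * (1 / (1 - exp ((D.x.den : ℂ) * (D.a + s - D.a)))).re) +
        D.n * (s * (1 / (1 - K (D.a + s))).re) + s * (2 ^ D.n / 2) =
        -(-s * (D.m * (1 / (1 - exp ((D.x.den : ℂ) * (D.a + s - D.a)))).re +
          D.n * (1 / (1 - K (D.a + s))).re + 2 ^ D.n / 2)) := by ring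
    rw [h3]
    linarith
  have heq : (D.n : ℝ) * (1 / κ) = D.m * (1 / D.x.den) := by linarith
  have hm : (0 : ℝ) < D.m := by exact_mod_cast hP.m_pos
  have hnc : (D.n : ℝ) = D.m * D.x.den := by unfold Dat.n; push_cast; ring
  have hκQ : κ = (D.x.den : ℝ) ^ 2 := by
    rw [hnc] at heq
    field_simp at heq
    nlinarith
  rw [hder.deriv, hκQ]
  push_cast
  ring

end Pool.Agent.Work.MLC.Sat
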