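import Pool.Agent.Work.MLC.SatE26
import Pool.Agent.Work.MLC.Strip1

set_option autoImplicit false

/-! # Theorem S, module S5a: landing of the ray `tm` (helper60) -/

namespace Pool.Agent.Work.MLC.Sat

open Filter Topology Metric Set Complex

/-- two pairs (angle, word) with the same label: after adding an integer to the first angle the
second word may be used, with the rotation number in the same strip -/
theorem exists_shift_of_lab {n : ℕ} (hn : 0 < n) {θ θ₀ : ℝ} {v w : ℕ → ℤ} (hv : Bits n v)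
    (hw : Bits n w) {k₀ : ℤ} (h0 : (k₀ : ℝ) < Circ.nu w n θ₀) (h0' : Circ.nu w n θ₀ < k₀ + 1)
    (hν : ∀ k : ℤ, Circ.nu v n θ ≠ k) (hl : lab n θ v = lab n θ₀ w) :
    ∃ M : ℤ, (∀ i, Even (v i - w i - M)) ∧ (k₀ : ℝ) < Circ.nu w n (θ + M) ∧
      Circ.nu w n (θ + M) < k₀ + 1 := by
  classical
  have hnw : nw v = nw w := by
    have h1 : ∀ i < n, nw v i = nw w i := by
      intro i hi
      have h2 : (lab n θ v).1.1 ⟨i, hi⟩ = (lab n θ₀ w).1.1 ⟨i, hi⟩ := by rw [hl]
      rw [lab_fst, lab_fst] at h2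
      have h3 : nw v i = 1 ↔ nw w i = 1 := by simpa using h2
      rcases (bits_nw hv).bit i with a | a <;> rcases (bits_nw hw).bit i with a' | a' <;>
        rw [a, a'] at h3 ⊢ <;> norm_num at h3
    funext i
    rw [per_mod (bits_nw hv) i, per_mod (bits_nw hw) i]
    exact h1 _ (Nat.mod_lt _ hn)
  have hsnd : ((⌊Circ.nu (nw v) n (θ + v 0)⌋ : ℤ) : ZMod n)
      = ((⌊Circ.nu (nw w) n (θ₀ + w 0)⌋ : ℤ) : ZMod n) := by
    have : (lab n θ v).2 = (lab n θ₀ w).2 := by rw [hl]
    rwa [lab_snd, lab_snd] at this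
  rw [hnw] at hsnd
  obtain ⟨j, hj⟩ : ∃ j : ℤ, ⌊Circ.nu (nw w) n (θ + v 0)⌋
      = ⌊Circ.nu (nw w) n (θ₀ + w 0)⌋ + n * j := by
    have h1 := (ZMod.intCast_eq_intCast_iff_dvd_sub _ _ _).1 hsnd
    obtain ⟨j, hj⟩ := h1
    exact ⟨-j, by linarith⟩
  -- parity
  have hpar : ∀ i, Even (v i - w i - (v 0 - w 0 - 2 * j)) := by
    intro i
    have h2 := congrFun hnw i
    unfold nw at h2
    rcases hv.bit i with a | a <;> rcases hv.bit 0 with b | b <;> rcases hw.bit i with a' | a' <;>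
      rcases hw.bit 0 with b' | b' <;> rw [a, b, a', b'] at h2 <;> rw [a, b, a', b'] <;>
      norm_num at h2 <;> rw [Int.even_iff] <;> omega
  refine ⟨v 0 - w 0 - 2 * j, hpar, ?_⟩
  -- the rotation number
  have e1 := nu_nw hw (θ + ((v 0 - w 0 - 2 * j : ℤ) : ℝ))
  have e2 : θ + ((v 0 - w 0 - 2 * j : ℤ) : ℝ) + w 0 = θ + v 0 + 2 * ((-j : ℤ) : ℝ) := by
    push_cast; ring
  rw [e2, nu_add_even] at e1
  have e3 := nu_nw hw θ₀
  set S : ℤ := ∑ i ∈ Finset.range n, w 0 * (1 - w i) with hS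
  set A : ℝ := Circ.nu (nw w) n (θ + v 0) with hA
  set A₀ : ℝ := Circ.nu (nw w) n (θ₀ + w 0) with hA₀
  set X : ℝ := Circ.nu w n (θ + ((v 0 - w 0 - 2 * j : ℤ) : ℝ)) with hX
  have e4 : X = A - n * j - S := by
    have : A + n * ((-j : ℤ) : ℝ) = X + S := e1
    push_cast at this
    linarith
  have e5 : Circ.nu w n θ₀ = A₀ - S := by
    have : A₀ = Circ.nu w n θ₀ + S := e3
    linarith
  have e6 : ⌊A₀⌋ = k₀ + S := by
    rw [Int.floor_eq_iff]
    push_cast
    rw [e5] at h0 h0'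
    constructor <;> linarith
  have e7 : ⌊A⌋ = k₀ + S + n * j := by rw [hj, e6]
  have e8 := Int.floor_le A
  have e9 := Int.lt_floor_add_one A
  rw [e7] at e8 e9
  push_cast at e8 e9
  constructor
  · refine lt_of_le_of_ne (by rw [e4]; linarith) ?_
    intro hk
    -- then `nu v` is an integer
    have f1 := nu_nw hv θ
    rw [hnw] at f1
    have f2 : A = Circ.nu v n θ + ((∑ i ∈ Finset.range n, v 0 * (1 - v i) : ℤ) : ℝ) := f1
    have f3 : A = k₀ + S + n * j := by rw [e4] at hk; linarith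
    apply hν (k₀ + S + n * j - ∑ i ∈ Finset.range n, v 0 * (1 - v i))
    push_cast at f2 ⊢
    linarith
  · rw [e4]; linarith

/-- rotation along the cycle -/
lemma land_of_orb {D : Dat} {c b : ℂ} {β : ℝ} (hper : it c D.m b = b) (hM : G c 0 = 0)
    (hβ : Lands c β b) (hq : PerAngle D.m D.x.den D.tm) {j : ℕ} {l : ℤ}
    (h : D.tm = 2 ^ (D.m * j) * β + l) : Land D.m c b D.tm D.x.den := by
  refine land_of_lands hM hq ?_
  have h1 := (hβ.push59 (D.m * j)).add59 l
  rw [← h] at h1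
  have h2 : it c (D.m * j) b = b := by
    have := it_mul_per hper 0 j
    rwa [zero_add, it_zero] at this
  rwa [h2] at h1

theorem s5_land : S5_land := by
  intro D hP hC L hL hre hM
  have hm := hP.m_pos
  obtain ⟨hper, hmul⟩ := hP.sec L hL
  have hM0 : G (D.c L) 0 = 0 := G_zero_of_mem hM
  have hρ : ∀ L' ∈ D.B, 0 < L'.re → 1 < ‖mult D.m (D.c L') (D.b L')‖ := by
    intro L' hL' hre'
    have h1 := (hP.sec L' hL').2
    have h2 : mult D.m (D.c L') (D.b L') = mul D.m (D.σ L') := rfl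
    rw [h2, h1, Complex.norm_exp]
    exact Real.one_lt_exp_iff.2 hre'
  have hcont : Tendsto (fun L' => ((D.c L', D.b L') : ℂ × ℂ)) (𝓝 L) (𝓝 (D.c L, D.b L)) :=
    (c_contAt hP hL).prodMk (b_contAt hP hL)
  constructor
  · intro hland
    have h := hcont.eventually (land_nhds hm hM0 hper (hρ L hL hre) hland)
    filter_upwards [h, isOpen_B.mem_nhds hL] with L' h1 h2
    have h3 := h1 (hP.sec L' h2).1
    refine ⟨fun h4 => h3.1 (G_zero_of_mem h4), fun θ hθ => ?_⟩
    exact hC.compat_w' θ (h3.2 θ D.w hθ.1.1 hθ.1.2.1 hθ.1.2.2.2.2) hθ.2.1 hθ.2.2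
  · intro hnl
    obtain ⟨β, q, hq, hland⟩ := (hP.lab L hL hre).1.1 hM0
    -- angles in the plateau are not compatible with `β`
    have key : ∀ θ, D.tm ≤ θ → θ ≤ D.tp → ¬ Compat β θ D.w := by
      intro θ h1 h2 h3
      obtain ⟨j, l, hjl⟩ := hC.trans θ h1 h2 β q hland.1 h3
      exact hnl (land_of_orb hper hM0 (hland.lands hM0) hC.per hjl)
    have h := hcont.eventually (land_nhds hm hM0 hper (hρ L hL hre) hland)
    filter_upwards [h, isOpen_B.mem_nhds hL,
      (Complex.continuous_re.continuousAt (x := L)).eventually_const_lt hre] with L' h1 h2 h2'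
    have h3 := h1 (hP.sec L' h2).1
    refine ⟨fun h4 h5 => ?_, fun θ hθ => ?_⟩
    · have hM' := G_zero_of_mem h4
      have hland' := h3.1 hM'
      have hF : Fam D.m (D.c L') (D.b L') {β, D.tm} := by
        refine ⟨(Set.finite_singleton _).insert _, ?_, ?_, ⟨β, by simp, q, hq, hland.1⟩⟩
        · rintro β' (rfl | rfl)
          · exact ⟨q, hland.1⟩
          · exact ⟨_, hC.per⟩
        · rintro β' (rfl | rfl)
          · exact hland'.lands hM'
          · exact h5.lands hM'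
      have hPH := portHyp hm (D.c L') (D.b L') _ hM' (hP.sec L' h2).1 (hρ L' h2 h2') hF
      obtain ⟨θ, v, hv, hfit⟩ := exists_fits hm hF hPH
      have c1 : Compat β θ v := hfit.compat (by simp) (hland'.lands hM')
      have c2 : Compat D.tm θ v := hfit.compat (by simp) (h5.lands hM')
      have hν := nu_ne_int_of_compat hq hland.1 hv.per c1
      have hlab : FF D.m (D.σ L') = lab D.m θ v := by
        have hM'' : G (D.σ L').1 0 = 0 := hM'
        have h6 : FF D.m (D.σ L') = labM D.m (D.c L') (D.b L') := by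
          rw [FF, if_pos hM'']; rfl
        rw [h6]
        exact labM_eq hm hF (fun B hB => portHyp hm (D.c L') (D.b L') B hM' (hP.sec L' h2).1
          (hρ L' h2 h2') hB) hv hfit
      have hnu : Circ.nu D.w D.m D.tm = D.k₀ + D.x := (hC.plateau D.tm).2 ⟨le_rfl, hC.lt.le⟩
      have hx0 : (0 : ℝ) < D.x := by exact_mod_cast hP.x_pos
      have hx1 : (D.x : ℝ) < 1 := by exact_mod_cast hP.x_lt
      have g0 : (D.k₀ : ℝ) < Circ.nu D.w D.m D.tm := by rw [hnu]; linarith
      have g1 : Circ.nu D.w D.m D.tm < D.k₀ + 1 := by rw [hnu]; linarith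
      have hlab2 := (hP.lab L' h2 h2').2 D.tm g0 g1
      obtain ⟨M, hM1, hM2, hM3⟩ := exists_shift_of_lab hm hv hP.bits g0 g1 hν
        (hlab.symm.trans hlab2)
      have c3 : Compat D.tm (θ + M) D.w := (compat_parity hM1).1 c2
      have c4 : Compat β (θ + M) D.w := (compat_parity hM1).1 c1
      obtain ⟨d1, d2⟩ := hC.compat_w' _ c3 hM2 hM3
      exact key _ d1.le d2.le c4
    · have h4 := h3.2 θ D.w hθ.1.1 hθ.1.2.1 hθ.1.2.2.2.2
      by_contra hcon
      push Not at hcon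
      exact key θ hcon.1 hcon.2 h4

end Pool.Agent.Work.MLC.Sat
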