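import Pool.Agent.Work.MLC.SatE26
import Pool.Agent.Work.MLC.SatInj51

set_option autoImplicit false

/-! # Theorem S, module S10: the multiplier of the child tends to one at the root (helper34) -/

namespace Pool.Agent.Work.MLC.Sat

open Filter Topology Metric Set Complex

/-- a pair with the label of `(θ₀, u)` has a lift with the word `u` and the same integer part of
the rotation number -/
theorem relift {n : ℕ} (hn : 0 < n) {c z : ℂ} {θ θ₀ : ℝ} {w u : ℕ → ℤ} (h : ExtP n c z θ w)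
    (hu : Bits n u) (hl : lab n θ w = lab n θ₀ u) :
    ∃ i : ℤ, ExtP n c z (θ + i) u ∧ ⌊Circ.nu u n (θ + i)⌋ = ⌊Circ.nu u n θ₀⌋ := by
  classical
  have hw := h.2.2.2.1
  have hnw : nw w = nw u := by
    have h1 : ∀ i < n, nw w i = nw u i := by
      intro i hi
      have h2 : (lab n θ w).1.1 ⟨i, hi⟩ = (lab n θ₀ u).1.1 ⟨i, hi⟩ := by rw [hl]
      rw [lab_fst, lab_fst] at h2
      have h3 : nw w i = 1 ↔ nw u i = 1 := by simpa using h2
      rcases (bits_nw hw).bit i with a | a <;> rcases (bits_nw hu).bit i with a' | a' <;>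
        rw [a, a'] at h3 ⊢ <;> norm_num at h3
    funext i
    rw [per_mod (bits_nw hw) i, per_mod (bits_nw hu) i]
    exact h1 _ (Nat.mod_lt _ hn)
  have hsnd : ((⌊Circ.nu (nw w) n (θ + w 0)⌋ : ℤ) : ZMod n) =
      ((⌊Circ.nu (nw u) n (θ₀ + u 0)⌋ : ℤ) : ZMod n) := by
    have : (lab n θ w).2 = (lab n θ₀ u).2 := by rw [hl]
    rwa [lab_snd, lab_snd] at this
  rw [ZMod.intCast_eq_intCast_iff_dvd_sub] at hsnd
  obtain ⟨j, hj⟩ := hsnd
  -- `⌊ν(θ₀ + u 0)⌋ - ⌊ν(θ + w 0)⌋ = n j`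
  have hE : ExtP n c z (θ + w 0) (nw u) := by
    have := h.norm hn
    rwa [hnw] at this
  have hE2 : ExtP n c z (θ + w 0 + ((2 * j - u 0 : ℤ) : ℝ)) u := by
    refine hE.move hn hu (2 * j - u 0) fun i => ?_
    have h1 := nw_add hu i
    refine ⟨u 0 - j - u 0 * (1 - u i), ?_⟩
    linarith
  refine ⟨w 0 + (2 * j - u 0), ?_, ?_⟩
  · have e : θ + ((w 0 + (2 * j - u 0) : ℤ) : ℝ) = θ + w 0 + ((2 * j - u 0 : ℤ) : ℝ) := by
      push_cast; ring
    rw [e]; exact hE2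
  · have h1 := nu_nw hu (θ + ((w 0 + (2 * j - u 0) : ℤ) : ℝ))
    have h2 := nu_nw hu θ₀
    have e : θ + ((w 0 + (2 * j - u 0) : ℤ) : ℝ) + u 0 = (θ + w 0) + 2 * (j : ℤ) := by
      push_cast; ring
    rw [e, nu_add_two_mul] at h1
    have h3 : Circ.nu u n (θ + ((w 0 + (2 * j - u 0) : ℤ) : ℝ)) =
        Circ.nu (nw u) n (θ + w 0) +
          ((n * j - ∑ i ∈ Finset.range n, u 0 * (1 - u i) : ℤ) : ℝ) := by
      push_cast at h1 ⊢
      linarith
    have h4 : Circ.nu u n θ₀ = Circ.nu (nw u) n (θ₀ + u 0) +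
        ((-∑ i ∈ Finset.range n, u 0 * (1 - u i) : ℤ) : ℝ) := by
      push_cast at h2 ⊢
      linarith
    rw [h3, h4, Int.floor_add_intCast, Int.floor_add_intCast]
    rw [hnw] at hj
    linarith

/-- `K` is holomorphic -/
theorem K_diff34 {D : Dat} {Z : ℂ → Set ℂ} {K : ℂ → ℂ} (hP : D.Par)
    (hF : CycFam D.n D.c D.U Z) (hK : ∀ L ∈ D.U, ∀ z ∈ Z L, mul D.n (D.c L, z) = K L) {L : ℂ}
    (hL : L ∈ D.U) : DifferentiableAt ℂ K L := by
  obtain ⟨z, hz⟩ := hF.ne L hL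
  obtain ⟨h1, h2⟩ := hF.fix L hL z hz
  obtain ⟨β, hβ, hβ0, hβe⟩ := chart h1 h2
  have hLB := U_sub_B hP hL
  have hc : ContinuousAt D.c L := c_contAt hP hLB
  have hcd : DifferentiableAt ℂ D.c L :=
    (section_differentiableOn (goodB hP) hP.cont hP.sec L hLB).differentiableAt
      (isOpen_B.mem_nhds hLB)
  have hβc' : ContinuousAt β (D.c L) := hβ.continuousAt
  have hβc : ContinuousAt (fun L' => β (D.c L')) L := hβc'.comp hc
  have h3 : Tendsto (fun L' => ((D.c L', β (D.c L')) : ℂ × ℂ)) (𝓝 L) (𝓝 (D.c L, z)) := by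
    have := (hc.prodMk hβc).tendsto
    rwa [show β (D.c L) = z from hβ0] at this
  have h4 : Tendsto (fun L' => ((L', β (D.c L')) : ℂ × ℂ)) (𝓝 L) (𝓝 (L, z)) := by
    have := (continuousAt_id.prodMk hβc).tendsto
    simp only [id] at this
    rwa [show β (D.c L) = z from hβ0] at this
  have h5 : ∀ᶠ L' in 𝓝 L, K L' = mul D.n (D.c L', β (D.c L')) := by
    filter_upwards [h3.eventually hβe, h4.eventually (hF.cont L hL z hz), isOpen_U.mem_nhds hL]
      with L' h6 h7 h8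
    exact (hK L' h8 _ (h7 (h6.2 rfl))).symm
  have h6 : DifferentiableAt ℂ (fun L' => mul D.n (D.c L', β (D.c L'))) L := by
    have h7 : DifferentiableAt ℂ (mul D.n) (D.c L, β (D.c L)) :=
      ((contDiff_mul D.n).differentiable (by simp)).differentiableAt
    have h8 : DifferentiableAt ℂ (fun L' => β (D.c L')) L :=
      DifferentiableAt.comp L hβ.differentiableAt hcd
    exact DifferentiableAt.comp L (g := mul D.n) (f := fun L' => ((D.c L', β (D.c L')) : ℂ × ℂ))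
      h7 (hcd.prodMk h8)
  exact h6.congr_of_eventuallyEq h5

/-- the `n`-periodic points and their multipliers are bounded over bounded parameters -/
theorem mul_bound (n : ℕ) (hn : 0 < n) (R : ℝ) : ∃ C : ℝ, ∀ c z : ℂ, ‖c‖ ≤ R → (c, z) ∈ Per n →
    ‖mul n (c, z)‖ ≤ C := by
  have hK : IsCompact (closedBall (0 : ℂ) R ×ˢ closedBall (0 : ℂ) (1 + R)) :=
    (isCompact_closedBall _ _).prod (isCompact_closedBall _ _)
  obtain ⟨C, hC⟩ := hK.exists_bound_of_continuousOn (continuous_mul' n).continuousOn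
  refine ⟨C, fun c z hc hz => hC (c, z) ⟨by simpa using hc, ?_⟩⟩
  have := norm_le_of_G_zero (G_zero_of_per hn hz)
  rw [mem_closedBall_zero_iff]
  linarith

/-- `K` has a limit -/
theorem K_lim {D : Dat} {Z : ℂ → Set ℂ} {K : ℂ → ℂ} (hP : D.Par)
    (hF : CycFam D.n D.c D.U Z) (hK : ∀ L ∈ D.U, ∀ z ∈ Z L, mul D.n (D.c L, z) = K L) :
    ∃ κ, Tendsto K (𝓝[≠] D.a) (𝓝 κ) := by
  have hU : ∀ᶠ L in 𝓝[≠] D.a, L ∈ D.U := by
    filter_upwards [self_mem_nhdsWithin, mem_nhdsWithin_of_mem_nhds (ball_mem_nhds D.a (sR_pos hP))]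
      with L h1 h2
    exact ⟨h2, h1⟩
  have hc : ∀ᶠ L in 𝓝[≠] D.a, ‖D.c L‖ ≤ ‖D.c D.a‖ + 1 := by
    have h1 := (c_contAt hP (a_mem_B hP)).norm
    have h2 : ∀ᶠ L in 𝓝 D.a, ‖D.c L‖ < ‖D.c D.a‖ + 1 :=
      h1.eventually_lt_const (by linarith)
    filter_upwards [mem_nhdsWithin_of_mem_nhds h2] with L hL
    exact le_of_lt hL
  obtain ⟨C, hC⟩ := mul_bound D.n (Par_n_pos hP) (‖D.c D.a‖ + 1)
  refine ⟨_, Complex.tendsto_limUnder_of_differentiable_on_punctured_nhds_of_bounded_under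
    (hU.mono fun L hL => K_diff34 hP hF hK hL) ⟨C + ‖K D.a‖, ?_⟩⟩
  rw [eventually_map]
  filter_upwards [hU, hc] with L h1 h2
  obtain ⟨z, hz⟩ := hF.ne L h1
  have h3 := hC (D.c L) z h2 (hF.fix L h1 z hz).1
  rw [hK L h1 z hz] at h3
  exact (norm_sub_le _ _).trans (by linarith)

/-- a rational number which is not an integer -/
theorem fract_rat {q : ℕ} (hq : 0 < q) {P : ℤ} {ν : ℝ} (h : ν = P / q) (hI : ∀ k : ℤ, ν ≠ k) :
    1 / (q : ℝ) ≤ Int.fract ν ∧ Int.fract ν ≤ 1 - 1 / q := by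
  have hq' : (0 : ℝ) < q := by exact_mod_cast hq
  have h1 : Int.fract ν * q = ((P - ⌊ν⌋ * q : ℤ) : ℝ) := by
    have h2 : Int.fract ν = ν - ⌊ν⌋ := rfl
    rw [h2, sub_mul]
    have h3 : ν * q = P := by rw [h]; field_simp
    rw [h3]; push_cast; ring
  have h2 : 0 < Int.fract ν := by
    rcases (Int.fract_nonneg ν).eq_or_lt with h3 | h3
    · exfalso
      have h4 : Int.fract ν = ν - ⌊ν⌋ := rfl
      rw [← h3] at h4
      exact hI ⌊ν⌋ (by linarith)
    · exact h3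
  have h3 := Int.fract_lt_one ν
  set N : ℤ := P - ⌊ν⌋ * q with hN
  have h4 : (0 : ℝ) < N := by rw [← h1]; positivity
  have h5 : (N : ℝ) < q := by rw [← h1]; nlinarith
  have h6 : (1 : ℤ) ≤ N := by exact_mod_cast h4
  have h7 : N + 1 ≤ (q : ℤ) := by
    have : N < (q : ℤ) := by exact_mod_cast h5
    omega
  have h8 : (1 : ℝ) ≤ N := by exact_mod_cast h6
  have h9 : (N : ℝ) + 1 ≤ q := by exact_mod_cast h7
  constructor
  · rw [div_le_iff₀ hq', h1]; exact h8
  · rw [le_sub_iff_add_le, ← sub_nonneg]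
    have : 1 - (Int.fract ν + 1 / q) = (q - (Int.fract ν * q + 1)) / q := by field_simp
    rw [this, h1]
    apply div_nonneg _ hq'.le
    linarith

/-- near a limit `x` of pairs of `NJ` with multiplier different from `1` all exterior pairs have the
label `J` and their rotation numbers stay away from the integers -/
theorem near_limit (h3 : S3_closed) (h3' : S3_neutral) {n : ℕ} (hn : 0 < n) {J : Lab n}
    {x : ℂ × ℂ} (hx : x ∈ Per n) (hM : x.1 ∈ MM) (h1 : mul n x ≠ 1) (hge : 1 ≤ ‖mul n x‖)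
    (hcl : x ∈ closure (NJ n J)) :
    ∃ δ > 0, ∀ᶠ y in 𝓝 x, y ∈ Per n → y.1 ∉ MM → y ∈ NJ n J ∧
      ∀ θ w, ExtP n y.1 y.2 θ w →
        δ ≤ Int.fract (Circ.nu w n θ) ∧ Int.fract (Circ.nu w n θ) ≤ 1 - δ := by
  rcases hge.lt_or_eq with hgt | heq
  · have hx2 : x ∈ NJ n J := h3 n J x hn hx hgt hM hcl
    obtain ⟨q, hq, hq2⟩ := nu_rat_nhds hn hx hM hgt
    refine ⟨1 / q, by positivity, ?_⟩
    filter_upwards [hq2, FF_nhds_gen hn hx hgt hx2.2.2.1] with y h4 h5 h6 h7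
    obtain ⟨h8, h9⟩ := h5 h6
    refine ⟨⟨h6, rep13 hn h6 h7, h9, h8.trans hx2.2.2.2⟩, fun θ w hw => ?_⟩
    obtain ⟨P, hP⟩ := h4 h6 θ w hw
    exact fract_rat hq hP (h9.2 θ w hw)
  · -- neutral
    set φ : ℝ := Int.fract (Complex.arg (mul n x) / (2 * Real.pi)) with hφ
    have hpi := Real.pi_pos
    have hmul : mul n x = exp (2 * Real.pi * φ * I) := by
      have h4 : mul n x = exp (Complex.arg (mul n x) * I) := by
        have := Complex.norm_mul_exp_arg_mul_I (mul n x)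
        rw [← heq] at this
        simpa using this.symm
      have h5 : (2 * Real.pi * φ * I : ℂ) = Complex.arg (mul n x) * I
          - (⌊Complex.arg (mul n x) / (2 * Real.pi)⌋ : ℤ) * (2 * Real.pi * I) := by
        have h6 : φ = Complex.arg (mul n x) / (2 * Real.pi)
          - (⌊Complex.arg (mul n x) / (2 * Real.pi)⌋ : ℤ) := rfl
        rw [h6]
        push_cast
        have : (Real.pi : ℂ) ≠ 0 := by exact_mod_cast hpi.ne'
        field_simp
      rw [h5, Complex.exp_sub, Complex.exp_int_mul_two_pi_mul_I, div_one]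
      exact h4
    have hφ0 : 0 < φ := by
      rcases (Int.fract_nonneg (Complex.arg (mul n x) / (2 * Real.pi))).eq_or_lt with h4 | h4
      · exfalso
        apply h1
        rw [hmul, hφ, ← h4]
        simp
      · exact h4
    have hφ1 : φ < 1 := Int.fract_lt_one _
    obtain ⟨⟨J', hJ'⟩, hν, -⟩ := h3' n x φ hn hx hφ0 hφ1 hmul
    have hJJ : J' = J := by
      obtain ⟨y, hy1, hy2⟩ := ((mem_closure_iff_frequently.1 hcl).and_eventually hJ').exists
      have := hy2 hy1.1 hy1.2.1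
      rw [← this.2.2.2, hy1.2.2.2]
    subst hJJ
    set δ : ℝ := min φ (1 - φ) / 2 with hδ
    have hδ0 : 0 < δ := half_pos (lt_min hφ0 (by linarith))
    have hδ1 : 2 * δ ≤ φ := by
      have := min_le_left φ (1 - φ)
      rw [hδ]; linarith
    have hδ2 : 2 * δ ≤ 1 - φ := by
      have := min_le_right φ (1 - φ)
      rw [hδ]; linarith
    refine ⟨δ, hδ0, ?_⟩
    filter_upwards [hJ', hν δ hδ0] with y h4 h5 h6 h7
    refine ⟨h4 h6 (rep13 hn h6 h7), fun θ w hw => ?_⟩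
    have h8 := abs_lt.1 (h5 θ w hw)
    constructor <;> linarith [h8.1, h8.2]

/-- the limit `κ` of `K` is `1` -/
theorem kappa_eq (h2 : S2_width) (h3 : S3_closed) (h3' : S3_neutral) (h4 : S4_root) {D : Dat}
    {Z : ℂ → Set ℂ} {K : ℂ → ℂ} (hP : D.Par) (hC : D.Cir) (hG : Glued D Z)
    (hK : ∀ L ∈ D.U, ∀ z ∈ Z L, mul D.n (D.c L, z) = K L) {κ : ℂ}
    (hκ : Tendsto K (𝓝[≠] D.a) (𝓝 κ)) : κ = 1 := by
  by_contra hκ1
  have hn := Par_n_pos hP
  obtain ⟨hI, hO⟩ := h4 D hP hC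
  have haM : D.c D.a ∈ MM := by
    by_contra hcon
    have := re_pos_of_ext hP (a_mem_B hP) hcon
    simp [Dat.a, axisPt] at this
  -- the limit pair
  obtain ⟨Ls, hLs, hLI⟩ := exists_seq_forall_of_frequently hI
  have hLU : ∀ j, Ls j ∈ D.U := fun j => (hLI j).1.1
  have hθex : ∀ j, ∃ θ z, D.Th (Ls j) θ ∧ ExtP D.n (D.c (Ls j)) z θ D.u := by
    intro j
    obtain ⟨θ, hθ⟩ := hP.ang (Ls j) (U_sub_B hP (hLU j)) (hLI j).2.2
    obtain ⟨z, hz⟩ := exists_u hP hC hθ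
    exact ⟨θ, z, hθ, hz⟩
  choose θs zs hθs hzs using hθex
  have hmulK : ∀ j, mul D.n (D.c (Ls j), zs j) = K (Ls j) := by
    intro j
    refine hK _ (hLU j) _ ?_
    rw [hG.ext _ (hLI j).2]
    exact ⟨θs j, hθs j, zs j, hzs j, 0, rfl⟩
  have hNJ : ∀ j, (D.c (Ls j), zs j) ∈ NJ D.n D.J := fun j =>
    nj_of_ext hP hC (hLI j).1 (hθs j) (hzs j)
  have hcs : Tendsto (fun j => D.c (Ls j)) atTop (𝓝 (D.c D.a)) :=
    (c_contAt hP (a_mem_B hP)).tendsto.comp hLs
  obtain ⟨R, hR⟩ : ∃ R : ℝ, ∀ j, ‖D.c (Ls j)‖ ≤ R := by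
    obtain ⟨R, hR⟩ := hcs.norm.bddAbove_range
    exact ⟨R, fun j => hR ⟨j, rfl⟩⟩
  have hzb : ∀ j, zs j ∈ closedBall (0 : ℂ) (1 + R) := by
    intro j
    have := norm_le_of_G_zero (G_zero_of_per hn (hNJ j).1)
    rw [mem_closedBall_zero_iff]
    linarith [hR j]
  obtain ⟨z, -, φ, hφ, hzφ⟩ := (isCompact_closedBall (0 : ℂ) (1 + R)).tendsto_subseq hzb
  have hx : Tendsto (fun j => ((D.c (Ls (φ j)), zs (φ j)) : ℂ × ℂ)) atTop (𝓝 (D.c D.a, z)) :=
    (hcs.comp hφ.tendsto_atTop).prodMk_nhds hzφ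
  have hper : (D.c D.a, z) ∈ Per D.n :=
    (isClosed_Per D.n).mem_of_tendsto hx (Eventually.of_forall fun j => (hNJ (φ j)).1)
  have hcl : (D.c D.a, z) ∈ closure (NJ D.n D.J) :=
    mem_closure_of_tendsto hx (Eventually.of_forall fun j => hNJ (φ j))
  have hm : mul D.n (D.c D.a, z) = κ := by
    have h5 := ((continuous_mul' D.n).tendsto (D.c D.a, z)).comp hx
    have h6 : Tendsto (fun j => K (Ls (φ j))) atTop (𝓝 κ) := by
      refine hκ.comp (tendsto_nhdsWithin_iff.2 ⟨hLs.comp hφ.tendsto_atTop,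
        Eventually.of_forall fun j => (hLU (φ j)).2⟩)
    refine tendsto_nhds_unique (h5.congr fun j => ?_) h6
    exact hmulK (φ j)
  have hge : 1 ≤ ‖mul D.n (D.c D.a, z)‖ := by
    have h5 := ((continuous_mul' D.n).norm.tendsto (D.c D.a, z)).comp hx
    exact ge_of_tendsto' h5 fun j => (hNJ (φ j)).2.1.le
  obtain ⟨δ, hδ, hδ'⟩ := near_limit h3 h3' hn hper haM (by rw [hm]; exact hκ1) hge hcl
  -- the continuation of the limit pair
  obtain ⟨β, hβ, hβ0, hβe⟩ := chart hper (by rw [hm]; exact hκ1)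
  have hc : ContinuousAt D.c D.a := c_contAt hP (a_mem_B hP)
  have hβc : Tendsto (fun L => ((D.c L, β (D.c L)) : ℂ × ℂ)) (𝓝 D.a) (𝓝 (D.c D.a, z)) := by
    have hb' : ContinuousAt β (D.c D.a) := hβ.continuousAt
    have hb : ContinuousAt (fun L => β (D.c L)) D.a := hb'.comp hc
    have := (hc.prodMk hb).tendsto
    rwa [show β (D.c D.a) = z from hβ0] at this
  -- the rotation numbers at the two ends
  have hpl := hC.plateau
  have hlt := hC.lt
  have hmono := Circ.nu_mono D.u D.n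
  have hmono' := Circ.nu_mono D.w D.m
  have hcont := Circ.nu_continuous D.u D.n
  have hNear : ∀ t, D.tm ≤ t → t ≤ D.tp → D.Near t := by
    intro t h5 h6
    unfold Dat.Near
    rw [(hpl t).2 ⟨h5, h6⟩, sub_self, abs_zero]
    have : (0 : ℝ) < D.n := by exact_mod_cast hn
    have : (0 : ℝ) < D.x.den := by exact_mod_cast D.x.pos
    positivity
  have hkm : Circ.nu D.u D.n D.tm = D.k := hC.nu_left D.tm (hNear _ le_rfl hlt.le) le_rfl
  have hkp : Circ.nu D.u D.n D.tp = D.k + 1 := hC.nu_right D.tp (hNear _ hlt.le le_rfl) le_rfl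
  have hkm1 : (D.k : ℝ) + 1 ≤ Circ.nu D.u D.n (D.tm + 1) := by
    have h5 : Tendsto (fun t => Circ.nu D.u D.n (t + 1)) (𝓝[>] D.tm)
        (𝓝 (Circ.nu D.u D.n (D.tm + 1))) :=
      ((hcont.comp (continuous_id.add continuous_const)).tendsto D.tm).mono_left
        nhdsWithin_le_nhds
    refine ge_of_tendsto h5 ?_
    filter_upwards [Ioo_mem_nhdsGT hlt] with t ht
    exact h2 D.n D.u t D.k hn hC.ubits (hC.nu_in t ht.1 ht.2).1
  have hkp1 : Circ.nu D.u D.n (D.tp - 1) ≤ D.k := by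
    have h5 : Tendsto (fun t => Circ.nu D.u D.n (t - 1)) (𝓝[<] D.tp)
        (𝓝 (Circ.nu D.u D.n (D.tp - 1))) :=
      ((hcont.comp (continuous_id.sub continuous_const)).tendsto D.tp).mono_left
        nhdsWithin_le_nhds
    refine le_of_tendsto h5 ?_
    filter_upwards [Ioo_mem_nhdsLT hlt] with t ht
    by_contra hcon
    push Not at hcon
    have h6 := h2 D.n D.u (t - 1) D.k hn hC.ubits hcon
    rw [sub_add_cancel] at h6
    linarith [(hC.nu_in t ht.1 ht.2).2]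
  -- a small distance
  obtain ⟨ε, hε, hε1, hε2⟩ : ∃ ε > 0, (D.k : ℝ) + 1 - δ < Circ.nu D.u D.n (D.tm + 1 - ε) ∧
      Circ.nu D.u D.n (D.tp - 1 + ε) < D.k + δ := by
    have h5 : ∀ᶠ ε in 𝓝 (0 : ℝ), (D.k : ℝ) + 1 - δ < Circ.nu D.u D.n (D.tm + 1 - ε) := by
      have : ContinuousAt (fun ε : ℝ => Circ.nu D.u D.n (D.tm + 1 - ε)) 0 :=
        (hcont.comp (continuous_const.sub continuous_id)).continuousAt
      refine this.eventually_const_lt ?_
      simp only [sub_zero]; linarith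
    have h6 : ∀ᶠ ε in 𝓝 (0 : ℝ), Circ.nu D.u D.n (D.tp - 1 + ε) < D.k + δ := by
      have : ContinuousAt (fun ε : ℝ => Circ.nu D.u D.n (D.tp - 1 + ε)) 0 :=
        (hcont.comp (continuous_const.add continuous_id)).continuousAt
      refine this.eventually_lt_const ?_
      simp only [add_zero]; linarith
    obtain ⟨ε, h7, h8⟩ := (((h5.and h6).filter_mono
      (nhdsWithin_le_nhds (s := Ioi 0))).and self_mem_nhdsWithin).exists
    exact ⟨ε, h8, h7.1, h7.2⟩
  -- the angles tend to the plateau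
  set ρ : ℝ := D.k₀ + D.x with hρ
  have hm0 : Circ.nu D.w D.m (D.tm - ε) < ρ := by
    refine lt_of_le_of_ne ?_ fun h5 => ?_
    · rw [← (hpl D.tm).2 ⟨le_rfl, hlt.le⟩]
      exact hmono' (by linarith)
    · have := ((hpl (D.tm - ε)).1 h5).1
      linarith
  have hp0 : ρ < Circ.nu D.w D.m (D.tp + ε) := by
    refine lt_of_le_of_ne ?_ fun h5 => ?_
    · rw [← (hpl D.tp).2 ⟨hlt.le, le_rfl⟩]
      exact hmono' (by linarith)
    · have := ((hpl (D.tp + ε)).1 h5.symm).2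
      linarith
  set ε' : ℝ := min (ρ - Circ.nu D.w D.m (D.tm - ε)) (Circ.nu D.w D.m (D.tp + ε) - ρ) with hε'
  have hε'0 : 0 < ε' := lt_min (by linarith) (by linarith)
  have hang : ∀ᶠ L in 𝓝 D.a, L ∈ D.B → ∀ θ, D.Th L θ → |Circ.nu D.w D.m θ - ρ| < ε' := by
    have h5 : Tendsto (fun L : ℂ => ‖L - D.a‖ + Real.sqrt (81 * D.m * ‖L - D.a‖)) (𝓝 D.a)
        (𝓝 0) := by
      have : Continuous fun L : ℂ => ‖L - D.a‖ + Real.sqrt (81 * D.m * ‖L - D.a‖) := by fun_prop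
      have h6 := this.tendsto D.a
      simpa using h6
    filter_upwards [h5.eventually_lt_const hε'0] with L h6 h7 θ hθ
    have h8 := hP.ply L h7 θ hθ
    have hre : L.re ≤ ‖L - D.a‖ := by
      have h9 := Complex.re_le_norm (L - D.a)
      have h10 : (L - D.a).re = L.re := by simp [Dat.a, axisPt]
      rwa [h10] at h9
    have h9 : ‖L - 2 * Real.pi * ((Circ.nu D.w D.m θ - D.k₀ : ℝ) : ℂ) * I‖ ≤
        Real.sqrt (81 * D.m * ‖L - D.a‖) := by
      apply Real.le_sqrt_of_sq_le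
      refine h8.trans ?_
      have : (0 : ℝ) ≤ 81 * D.m := by positivity
      exact mul_le_mul_of_nonneg_left hre this
    have h10 : 2 * Real.pi * |Circ.nu D.w D.m θ - ρ| ≤
        ‖L - D.a‖ + Real.sqrt (81 * D.m * ‖L - D.a‖) := by
      have h11 : D.a - 2 * Real.pi * ((Circ.nu D.w D.m θ - D.k₀ : ℝ) : ℂ) * I =
          ((-(2 * Real.pi * (Circ.nu D.w D.m θ - ρ)) : ℝ) : ℂ) * I := by
        rw [hρ]
        simp only [Dat.a, axisPt]
        push_cast
        ring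
      have h12 : ‖D.a - 2 * Real.pi * ((Circ.nu D.w D.m θ - D.k₀ : ℝ) : ℂ) * I‖ =
          2 * Real.pi * |Circ.nu D.w D.m θ - ρ| := by
        rw [h11, norm_mul, norm_I, mul_one, norm_real, Real.norm_eq_abs, abs_neg, abs_mul,
          abs_of_pos (by positivity : (0 : ℝ) < 2 * Real.pi)]
      rw [← h12]
      calc ‖D.a - 2 * Real.pi * ((Circ.nu D.w D.m θ - D.k₀ : ℝ) : ℂ) * I‖
          = ‖(D.a - L) + (L - 2 * Real.pi * ((Circ.nu D.w D.m θ - D.k₀ : ℝ) : ℂ) * I)‖ := by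
            congr 1; ring
        _ ≤ ‖D.a - L‖ + ‖L - 2 * Real.pi * ((Circ.nu D.w D.m θ - D.k₀ : ℝ) : ℂ) * I‖ :=
            norm_add_le _ _
        _ ≤ _ := by rw [norm_sub_rev]; linarith
    have h13 : |Circ.nu D.w D.m θ - ρ| ≤ 2 * Real.pi * |Circ.nu D.w D.m θ - ρ| := by
      have := Real.pi_gt_three
      nlinarith [abs_nonneg (Circ.nu D.w D.m θ - ρ)]
    linarith
  -- the contradiction
  obtain ⟨L, hLO, hev1, hev2, hev3⟩ := (hO.and_eventually ((hβc.eventually hδ').and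
    ((hβc.eventually hβe).and hang))).exists
  have hLU : L ∈ D.U := hLO.1.1
  have hLB := U_sub_B hP hLU
  have hyper : (D.c L, β (D.c L)) ∈ Per D.n := hev2.2 rfl
  obtain ⟨hy1, hy2⟩ := hev1 hyper hLO.2.2
  obtain ⟨θ, hθ⟩ := hP.ang L hLB hLO.2.2
  obtain ⟨v, hv⟩ := exists_extP_word hn hθ.1.ang hyper
  have hlab : lab D.n θ v = lab D.n ((D.tm + D.tp) / 2) D.u := by
    rw [← FF_ext (x := (D.c L, β (D.c L))) hv]
    exact hy1.2.2.2
  obtain ⟨i, hi1, hi2⟩ := relift hn hv hC.ubits hlab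
  have hmid := hC.nu_in ((D.tm + D.tp) / 2) (by linarith) (by linarith)
  have hfl : ⌊Circ.nu D.u D.n ((D.tm + D.tp) / 2)⌋ = D.k := by
    rw [Int.floor_eq_iff]
    exact ⟨hmid.1.le, hmid.2⟩
  rw [hfl] at hi2
  obtain ⟨hf1, hf2⟩ := hy2 (θ + i) D.u hi1
  have hfr : Int.fract (Circ.nu D.u D.n (θ + i)) = Circ.nu D.u D.n (θ + i) - D.k := by
    rw [Int.fract, hi2]
  rw [hfr] at hf1 hf2
  have hθρ := abs_lt.1 (hev3 hLB θ hθ)
  rcases hLO.1.2.2 θ hθ with hside | hside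
  · -- left of the plateau
    have h5 : D.tm - ε < θ := by
      by_contra hcon
      push Not at hcon
      have h6 := hmono' hcon
      have h7 := min_le_left (ρ - Circ.nu D.w D.m (D.tm - ε)) (Circ.nu D.w D.m (D.tp + ε) - ρ)
      linarith [hθρ.1]
    rcases le_or_gt i 0 with hi | hi
    · have h6 : (i : ℝ) ≤ 0 := by exact_mod_cast hi
      have h7 : Circ.nu D.u D.n (θ + i) ≤ Circ.nu D.u D.n D.tm := hmono (by linarith)
      rw [hkm] at h7
      linarith
    · have h6 : (1 : ℝ) ≤ i := by exact_mod_cast hi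
      have h7 : Circ.nu D.u D.n (D.tm + 1 - ε) ≤ Circ.nu D.u D.n (θ + i) :=
        hmono (by linarith)
      linarith
  · -- right of the plateau
    have h5 : θ < D.tp + ε := by
      by_contra hcon
      push Not at hcon
      have h6 := hmono' hcon
      have h7 := min_le_right (ρ - Circ.nu D.w D.m (D.tm - ε)) (Circ.nu D.w D.m (D.tp + ε) - ρ)
      linarith [hθρ.2]
    rcases le_or_gt 0 i with hi | hi
    · have h6 : (0 : ℝ) ≤ i := by exact_mod_cast hi
      have h7 : Circ.nu D.u D.n D.tp ≤ Circ.nu D.u D.n (θ + i) := hmono (by linarith)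
      rw [hkp] at h7
      linarith
    · have h6 : (i : ℝ) ≤ -1 := by
        have : i ≤ -1 := by omega
        exact_mod_cast this
      have h7 : Circ.nu D.u D.n (θ + i) ≤ Circ.nu D.u D.n (D.tp - 1 + ε) :=
        hmono (by linarith)
      linarith

/-- **module S10** -/
theorem s10_origin (h2 : S2_width) (h3 : S3_closed) (h3' : S3_neutral) (h4 : S4_root) :
    S10_origin := by
  intro D Z K hP hC _ hG hK
  obtain ⟨κ, hκ⟩ := K_lim hP hG.fam hK
  rw [kappa_eq h2 h3 h3' h4 hP hC hG hK hκ] at hκ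
  exact hκ

end Pool.Agent.Work.MLC.Sat
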