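import Pool.Agent.Work.MLC.Sat0
import Pool.Agent.Work.MLC.Sat7

set_option autoImplicit false

/-! # Theorem S: parameters with a multiplier `1` are in the frontier of `MM` (helper26) -/

namespace Pool.Agent.Work.MLC.Sat

open Filter Topology Metric Set Complex

theorem parab_frontier (h3' : S3_neutral) {n : ℕ} (hn : 0 < n) {y : ℂ × ℂ} (hy : y ∈ Per n)
    (h1 : mul n y = 1) : ∃ᶠ c in 𝓝 y.1, c ∉ MM := by
  rw [frequently_iff]
  intro V hV
  obtain ⟨V', hV'V, hV'o, hV'y⟩ := _root_.mem_nhds_iff.1 hV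
  have h2 := One49.near_parabolic hn (c := y.1) (y := y.2) hy h1 (hV'o.mem_nhds hV'y)
  -- a multiplier on the unit circle
  have h3 : Tendsto (fun φ : ℝ => exp (2 * Real.pi * φ * I)) (𝓝[>] 0) (𝓝 1) := by
    have h4 : Continuous fun φ : ℝ => exp (2 * Real.pi * φ * I) := by fun_prop
    have h5 := h4.tendsto 0
    simp only [ofReal_zero, mul_zero, zero_mul, exp_zero] at h5
    exact h5.mono_left nhdsWithin_le_nhds
  have h4 : ∀ᶠ φ : ℝ in 𝓝[>] 0, φ < 1 := mem_nhdsWithin_of_mem_nhds (gt_mem_nhds one_pos)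
  obtain ⟨φ, ⟨c', hc', b, hb, hm⟩, hφ1, hφ0⟩ :=
    ((h3.eventually h2).and (h4.and self_mem_nhdsWithin)).exists
  obtain ⟨-, -, h5⟩ := h3' n (c', b) φ hn hb hφ0 hφ1 hm
  obtain ⟨c'', h6, h7⟩ := (h5.and_eventually (hV'o.mem_nhds hc')).exists
  exact ⟨c'', hV'V h7, h6⟩

/-- **S7'** -/
theorem s7_parab (h3' : S3_neutral) : S7_parab := fun _ _ hn hy h1 _ =>
  parab_frontier h3' hn hy h1

end Pool.Agent.Work.MLC.Sat
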