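import Pool.Agent.Work.MLC.Sat0

set_option autoImplicit false

/-! # Theorem S: basic facts and the exterior part (helper26) -/

namespace Pool.Agent.Work.MLC.Sat

open Filter Topology Metric Set Complex

lemma not_mem_MM_iff {c : ℂ} : c ∉ MM ↔ 0 < G c c := by
  rw [G_c_eq, mem_M_iff]
  have h := G_nonneg c 0
  constructor
  · intro h1
    have : G c 0 ≠ 0 := h1
    have := lt_of_le_of_ne h (Ne.symm this)
    linarith
  · intro h1 h2
    rw [h2] at h1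
    simp at h1

lemma not_mem_MM_iff' {c : ℂ} : c ∉ MM ↔ G c 0 ≠ 0 := by
  rw [mem_M_iff]

lemma isClosed_MM : IsClosed MM := isCompact_MM.isClosed

lemma isOpen_compl_MM : IsOpen {c : ℂ | c ∉ MM} := isClosed_MM.isOpen_compl

/-! ### orbits of periodic points -/

lemma it_mul_per {c z : ℂ} {n : ℕ} (h : it c n z = z) (i j : ℕ) : it c (i + n * j) z = it c i z := by
  induction j with
  | zero => simp
  | succ j ih =>
    have : i + n * (j + 1) = (i + n * j) + n := by ring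
    rw [this, it_add_periodic h, ih]

lemma it_comp (c z : ℂ) (i j : ℕ) : it c i (it c j z) = it c (i + j) z := by
  rw [← it_add]

/-- going once more around -/
lemma it_back {c z : ℂ} {n : ℕ} (hn : 0 < n) (h : it c n z = z) (i : ℕ) :
    it c (n * i - i) (it c i z) = z := by
  rw [it_comp]
  have h1 : i ≤ n * i := Nat.le_mul_of_pos_left i hn
  rw [Nat.sub_add_cancel h1]
  have := it_mul_per h 0 i
  rwa [zero_add, it_zero] at this

lemma Per_it {n : ℕ} {c z : ℂ} (h : (c, z) ∈ Per n) (i : ℕ) : (c, it c i z) ∈ Per n := by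
  show it c n (it c i z) = it c i z
  exact it_it_periodic h i

lemma mul_it' {n : ℕ} {c z : ℂ} (h : (c, z) ∈ Per n) (i : ℕ) :
    mul n (c, it c i z) = mul n (c, z) := by
  induction i with
  | zero => rw [it_zero]
  | succ i ih =>
    rw [← ih]
    have h1 : it c n (it c i z) = it c i z := it_it_periodic h i
    set y := it c i z with hy
    have h2 : it c (i + 1) z = it c 1 y := by
      rw [hy, it_comp, add_comm]
    rw [h2]
    unfold mul
    simp only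
    rcases Nat.eq_zero_or_pos n with h0 | hn
    · subst h0; simp
    · obtain ⟨k, rfl⟩ : ∃ k, n = k + 1 := ⟨n - 1, by omega⟩
      have h3 : ∀ j, it c j (it c 1 y) = it c (j + 1) y := fun j => it_comp c y j 1
      simp only [h3]
      rw [Finset.prod_range_succ, Finset.prod_range_succ', h1]
      simp

/-- openness in the curve at one point of the cycle is enough -/
lemma cont_of_branch {n : ℕ} (hn : 0 < n) {c : ℂ → ℂ} {Z : ℂ → Set ℂ} {L z₀ : ℂ} (i : ℕ)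
    (hc : ContinuousAt c L) (h0 : (c L, z₀) ∈ Per n)
    (hZ : ∀ᶠ p : ℂ × ℂ in 𝓝 (L, z₀), (c p.1, p.2) ∈ Per n → p.2 ∈ Z p.1)
    (hcl : ∀ᶠ L' in 𝓝 L, ∀ z ∈ Z L', ∀ i, it (c L') i z ∈ Z L') :
    ∀ᶠ p : ℂ × ℂ in 𝓝 (L, it (c L) i z₀), (c p.1, p.2) ∈ Per n → p.2 ∈ Z p.1 := by
  set j := n * i - i with hj
  have hcont : ContinuousAt (fun p : ℂ × ℂ => ((p.1, it (c p.1) j p.2) : ℂ × ℂ))
      (L, it (c L) i z₀) := by
    have h1 : ContinuousAt (fun p : ℂ × ℂ => ((c p.1, p.2) : ℂ × ℂ)) (L, it (c L) i z₀) := by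
      refine ContinuousAt.prodMk ?_ continuousAt_snd
      exact ContinuousAt.comp (f := Prod.fst) (g := c) hc continuousAt_fst
    have h2 : ContinuousAt (fun q : ℂ × ℂ => it q.1 j q.2) (c L, it (c L) i z₀) :=
      (continuous_it j).continuousAt
    exact continuousAt_fst.prodMk (ContinuousAt.comp (g := fun q : ℂ × ℂ => it q.1 j q.2)
      (f := fun p : ℂ × ℂ => ((c p.1, p.2) : ℂ × ℂ)) (x := (L, it (c L) i z₀)) h2 h1)
  have h3 : it (c L) j (it (c L) i z₀) = z₀ := it_back hn h0 i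
  have hcont' := hcont.tendsto
  simp only [h3] at hcont'
  have h4 : ∀ᶠ p : ℂ × ℂ in 𝓝 (L, it (c L) i z₀), ∀ z ∈ Z p.1, ∀ i, it (c p.1) i z ∈ Z p.1 :=
    (continuousAt_fst (p := ((L, it (c L) i z₀) : ℂ × ℂ))).tendsto.eventually hcl
  filter_upwards [hcont'.eventually hZ, h4] with p hp hp4 hper
  have h5 : it (c p.1) j p.2 ∈ Z p.1 := hp (Per_it hper j)
  have h6 : it (c p.1) i (it (c p.1) j p.2) = p.2 := by
    rw [it_comp]
    have h1 : i ≤ n * i := Nat.le_mul_of_pos_left i hn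
    have h7 : i + j = 0 + n * i := by omega
    rw [h7, it_mul_per hper, it_zero]
  rw [← h6]
  exact hp4 _ h5 i

section

variable {D : Dat}

lemma Par_n_pos (h : D.Par) : 0 < D.n := Nat.mul_pos h.m_pos D.x.pos

lemma den_le_min (h : D.Par) : 1 / (D.x.den : ℝ) ≤ min (D.x : ℝ) (1 - D.x) := by
  have hq : (0 : ℝ) < D.x.den := by exact_mod_cast D.x.pos
  have hx : (D.x : ℝ) = D.x.num / D.x.den := by
    have := Rat.num_div_den D.x
    exact_mod_cast this.symm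
  have h1 : (1 : ℤ) ≤ D.x.num := Rat.num_pos.2 h.x_pos
  have h2 : D.x.num + 1 ≤ (D.x.den : ℤ) := by
    have h3 : (D.x.num : ℝ) / D.x.den < 1 := by
      rw [← hx]; exact_mod_cast h.x_lt
    rw [div_lt_one hq] at h3
    have h4 : D.x.num < (D.x.den : ℤ) := by exact_mod_cast h3
    omega
  refine le_min ?_ ?_
  · rw [hx]
    have : (1 : ℝ) ≤ D.x.num := by exact_mod_cast h1
    gcongr
  · rw [hx, le_sub_iff_add_le, ← add_div, div_le_one hq]
    have : (D.x.num : ℝ) + 1 ≤ D.x.den := by exact_mod_cast h2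
    linarith

lemma sR_pos (h : D.Par) : 0 < sR D.m D.x := by
  have h1 : (0 : ℝ) < D.m := by exact_mod_cast h.m_pos
  have hq : (0 : ℝ) < D.x.den := by exact_mod_cast D.x.pos
  unfold sR; positivity

lemma gR_ge (h : D.Par) : 1 / (4 * D.m * D.x.den ^ 2) ≤ gR D.m D.x := by
  have h1 : (0 : ℝ) < D.m := by exact_mod_cast h.m_pos
  have hq : (0 : ℝ) < D.x.den := by exact_mod_cast D.x.pos
  have h2 := den_le_min h
  unfold gR
  have h3 : (1 / (D.x.den : ℝ)) ^ 2 ≤ (min (D.x : ℝ) (1 - D.x)) ^ 2 := by gcongr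
  calc 1 / (4 * (D.m : ℝ) * D.x.den ^ 2) = 1 / 4 * (1 / (D.x.den : ℝ)) ^ 2 / D.m := by
        field_simp
    _ ≤ _ := by gcongr

lemma sR_le_gR (h : D.Par) : sR D.m D.x ≤ gR D.m D.x := by
  refine le_trans ?_ (gR_ge h)
  have h1 : (1 : ℝ) ≤ D.m := by exact_mod_cast h.m_pos
  have hq : (1 : ℝ) ≤ D.x.den := by exact_mod_cast D.x.pos
  unfold sR
  apply one_div_le_one_div_of_le (by positivity)
  have h2 : (D.m : ℝ) ≤ D.m ^ 3 := by
    calc (D.m : ℝ) = D.m ^ 1 := (pow_one _).symm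
      _ ≤ D.m ^ 3 := pow_le_pow_right₀ h1 (by norm_num)
  have h3 : (D.x.den : ℝ) ^ 2 ≤ D.x.den ^ 4 := pow_le_pow_right₀ hq (by norm_num)
  calc 4 * (D.m : ℝ) * D.x.den ^ 2 ≤ 16 * D.m ^ 3 * D.x.den ^ 4 := by gcongr; norm_num
    _ = _ := by ring

lemma U_sub_B (h : D.Par) : D.U ⊆ D.B := fun _ hL =>
  ball_subset_ball (sR_le_gR h) hL.1

lemma isOpen_U : IsOpen D.U := isOpen_ball.sdiff isClosed_singleton

lemma isOpen_B : IsOpen D.B := isOpen_ball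

lemma a_mem_B (h : D.Par) : D.a ∈ D.B := mem_ball_self ((sR_pos h).trans_le (sR_le_gR h))

lemma goodB (h : D.Par) : GoodDom D.m D.B := goodDom34 h.m_pos h.x_pos h.x_lt

lemma σ_contAt (h : D.Par) {L : ℂ} (hL : L ∈ D.B) : ContinuousAt D.σ L :=
  h.cont.continuousAt (isOpen_B.mem_nhds hL)

lemma c_contAt (h : D.Par) {L : ℂ} (hL : L ∈ D.B) : ContinuousAt D.c L :=
  continuous_fst.continuousAt.comp (σ_contAt h hL)

lemma b_contAt (h : D.Par) {L : ℂ} (hL : L ∈ D.B) : ContinuousAt D.b L :=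
  continuous_snd.continuousAt.comp (σ_contAt h hL)

/-- the parameter is a local homeomorphism -/
lemma c_map_nhds (h : D.Par) {L : ℂ} (hL : L ∈ D.B) : map D.c (𝓝 L) = 𝓝 (D.c L) :=
  (section_strict (goodB h) h.cont h.sec hL).map_nhds_eq
    (section_deriv_ne_zero (goodB h) h.cont h.sec hL)

/-- exterior parameters have `Re L > 0` -/
lemma re_pos_of_ext (h : D.Par) {L : ℂ} (hL : L ∈ D.B) (hM : D.c L ∉ MM) : 0 < L.re := by
  obtain ⟨h1, h2⟩ := h.sec L hL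
  have h3 := rep13 h.m_pos h1 hM
  rw [h2, Complex.norm_exp] at h3
  exact (Real.one_lt_exp_iff).1 h3

/-- the angle is unique -/
lemma Th_unique (hP : D.Par) {L θ θ'} (h : D.Th L θ) (h' : D.Th L θ') : θ = θ' := by
  obtain ⟨m, hm, he⟩ := extP_unique h.1 h'.1
  have h0 := he 0
  rw [sub_self, zero_sub, even_neg] at h0
  obtain ⟨j, hj⟩ := h0
  have h1 : θ' = θ + 2 * (j : ℤ) := by rw [hm, hj]; push_cast; ring
  have h2 : Circ.nu D.w D.m θ' = Circ.nu D.w D.m θ + D.m * j := by rw [h1, nu_add_even]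
  have h3 := h.2
  have h4 := h'.2
  rw [h2] at h4
  have hm1 : (1 : ℝ) ≤ D.m := by exact_mod_cast hP.m_pos
  have h5 : |(D.m : ℝ) * j| < 1 := by
    rw [abs_lt]; constructor <;> linarith [h3.1, h3.2, h4.1, h4.2]
  have h6 : j = 0 := by
    by_contra h7
    have h8 : (1 : ℝ) ≤ |(j : ℝ)| := by
      have := Int.one_le_abs h7
      exact_mod_cast this
    rw [abs_mul, abs_of_pos (by linarith : (0 : ℝ) < D.m)] at h5
    nlinarith
  rw [h1, h6]; simp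

/-- the angle is continuous -/
lemma Th_nhds (hP : D.Par) {L θ} (hL : L ∈ D.B) (h : D.Th L θ) {ε : ℝ} (hε : 0 < ε) :
    ∀ᶠ L' in 𝓝 L, ∃ θ', |θ' - θ| < ε ∧ D.Th L' θ' := by
  have h1 : ∀ᶠ θ' in 𝓝 θ, (D.k₀ : ℝ) < Circ.nu D.w D.m θ' ∧ Circ.nu D.w D.m θ' < D.k₀ + 1 := by
    have hc := (Circ.nu_continuous D.w D.m).continuousAt (x := θ)
    exact (hc.eventually (lt_mem_nhds h.2.1)).and (hc.eventually (gt_mem_nhds h.2.2))
  obtain ⟨δ, hδ, hδ2⟩ := Metric.eventually_nhds_iff.1 h1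
  have h2 := extP_nhds hP.m_pos h.1 (lt_min hε hδ)
  have h3 : Tendsto (fun L' => ((D.c L', D.b L') : ℂ × ℂ)) (𝓝 L) (𝓝 (D.c L, D.b L)) :=
    (c_contAt hP hL).prodMk (b_contAt hP hL)
  filter_upwards [h3.eventually h2, isOpen_B.mem_nhds hL] with L' h4 h5
  obtain ⟨θ', h6, h7⟩ := h4 (hP.sec L' h5).1
  refine ⟨θ', h6.trans_le (min_le_left _ _), h7, ?_⟩
  exact hδ2 (by rw [Real.dist_eq]; exact h6.trans_le (min_le_right _ _))

lemma Th_ext {L θ} (h : D.Th L θ) : D.c L ∉ MM := not_mem_MM_iff.2 h.1.1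

lemma isOpen_RE (hP : D.Par) : IsOpen D.RE := by
  rw [isOpen_iff_mem_nhds]
  rintro L ⟨h1, h2⟩
  have h3 := c_contAt hP (U_sub_B hP h1)
  filter_upwards [isOpen_U.mem_nhds h1, h3.eventually (isOpen_compl_MM.mem_nhds h2)] with L' h4 h5
  exact ⟨h4, h5⟩

lemma RI_th {L θ} (h : L ∈ D.RI) (hT : D.Th L θ) (hP : D.Par) : D.tm < θ ∧ θ < D.tp := by
  rcases h.2.2 with ⟨θ', h1, h2⟩ | ⟨h1, -⟩
  · rwa [Th_unique hP hT h1]
  · exact absurd h1 (Th_ext hT)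

/-- the point with the word `u` -/
lemma exists_u (hP : D.Par) (hC : D.Cir) {L θ} (h : D.Th L θ) :
    ∃ z, ExtP D.n (D.c L) z θ D.u :=
  exists_extP (Par_n_pos hP) h.1.ang hC.ubits

lemma ZE_iff (hP : D.Par) {L θ z₀} (h : D.Th L θ) (hz : ExtP D.n (D.c L) z₀ θ D.u) (z : ℂ) :
    z ∈ D.ZE L ↔ ∃ i, z = it (D.c L) i z₀ := by
  constructor
  · rintro ⟨θ', h1, z₁, h2, i, h3⟩
    have h4 := Th_unique hP h h1
    subst h4
    have h5 := extP_inj (Par_n_pos hP) hz h2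
    subst h5
    exact ⟨i, h3⟩
  · rintro ⟨i, h3⟩
    exact ⟨θ, h, z₀, hz, i, h3⟩

/-- near an exterior pair with the word `u` all pairs have the word `u` (for the right angle) -/
lemma u_nhds (hP : D.Par) {v : ℕ → ℤ} {L θ z} (hL : L ∈ D.B) (h : D.Th L θ)
    (hz : ExtP D.n (D.c L) z θ v) : ∀ᶠ p : ℂ × ℂ in 𝓝 (L, z), (D.c p.1, p.2) ∈ Per D.n →
      ∃ θ', D.Th p.1 θ' ∧ ExtP D.n (D.c p.1) p.2 θ' v := by
  have h1 := extP_nhds (Par_n_pos hP) hz (by norm_num : (0 : ℝ) < 1 / 4)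
  have h2 := Th_nhds hP hL h (by norm_num : (0 : ℝ) < 1 / 4)
  have h3 : Tendsto (fun p : ℂ × ℂ => ((D.c p.1, p.2) : ℂ × ℂ)) (𝓝 (L, z)) (𝓝 (D.c L, z)) := by
    refine Tendsto.prodMk_nhds ?_ continuousAt_snd
    exact (c_contAt hP hL).tendsto.comp continuousAt_fst
  filter_upwards [h3.eventually h1, continuousAt_fst.eventually h2] with p h4 h5 h6
  obtain ⟨θ₁, h7, h8⟩ := h4 h6
  obtain ⟨θ₂, h9, h10⟩ := h5
  obtain ⟨m, hm⟩ := h8.ang.unique h10.1.ang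
  have h11 : |(m : ℝ)| < 1 := by
    have : (m : ℝ) = (θ₂ - θ) - (θ₁ - θ) := by rw [hm]; ring
    rw [this]
    calc |(θ₂ - θ) - (θ₁ - θ)| ≤ |θ₂ - θ| + |θ₁ - θ| := abs_sub _ _
      _ < 1 := by linarith
  have h12 : m = 0 := by
    have h13 : |m| < 1 := by exact_mod_cast h11
    exact Int.abs_lt_one_iff.1 h13
  rw [h12] at hm
  simp only [Int.cast_zero, add_zero] at hm
  exact ⟨θ₂, h10, by rw [hm]; exact h8⟩

/-- **the exterior part** -/
theorem cycE (hP : D.Par) (hC : D.Cir) : CycFam D.n D.c D.RE D.ZE where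
  ne := by
    rintro L ⟨h1, h2⟩
    obtain ⟨θ, h3⟩ := hP.ang L (U_sub_B hP h1) h2
    obtain ⟨z, hz⟩ := exists_u hP hC h3
    exact ⟨z, θ, h3, z, hz, 0, rfl⟩
  fix := by
    rintro L ⟨h1, h2⟩ z ⟨θ, h3, z₀, h4, i, rfl⟩
    have h5 : (D.c L, z₀) ∈ Per D.n := h4.2.2.1
    refine ⟨Per_it h5 i, ?_⟩
    rw [mul_it' h5 i]
    intro h6
    have h7 := rep13 (Par_n_pos hP) h5 h2
    rw [h6] at h7
    simp at h7
  cyc := by
    rintro L ⟨h1, h2⟩ z ⟨θ, h3, z₀, h4, i, rfl⟩ z'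
    have h5 : it (D.c L) D.n z₀ = z₀ := h4.2.2.1
    rw [ZE_iff hP h3 h4]
    constructor
    · rintro ⟨j, rfl⟩
      refine ⟨D.n * i - i + j, ?_⟩
      rw [add_comm, it_add, it_back (Par_n_pos hP) h5 i]
    · rintro ⟨j, rfl⟩
      exact ⟨j + i, it_comp _ _ _ _⟩
  cont := by
    rintro L ⟨h1, h2⟩ z ⟨θ, h3, z₀, h4, i, rfl⟩
    have hB := U_sub_B hP h1
    refine cont_of_branch (Par_n_pos hP) i (c_contAt hP hB) h4.2.2.1 ?_ ?_
    · filter_upwards [u_nhds hP hB h3 h4] with p h5 h6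
      obtain ⟨θ', h7, h8⟩ := h5 h6
      exact ⟨θ', h7, p.2, h8, 0, rfl⟩
    · refine Eventually.of_forall ?_
      rintro L' z ⟨θ', h5, z₁, h6, j, rfl⟩ l
      exact ⟨θ', h5, z₁, h6, l + j, it_comp _ _ _ _⟩

/-! ### the label of the child -/

lemma J_eq (hC : D.Cir) {θ : ℝ} (h1 : D.tm < θ) (h2 : θ < D.tp) : lab D.n θ D.u = D.J := by
  unfold Dat.J
  refine lab_of_strip hC.ubits ?_
  have h3 : D.tm < (D.tm + D.tp) / 2 := by linarith [hC.lt]
  have h4 : (D.tm + D.tp) / 2 < D.tp := by linarith [hC.lt]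
  intro t ht k' hk
  have h5 : D.tm < t := (lt_min h3 h1).trans_le ht.1
  have h6 : t < D.tp := ht.2.trans_lt (max_lt h4 h2)
  obtain ⟨h7, h8⟩ := hC.nu_in t h5 h6
  rw [hk] at h7 h8
  have h9 : D.k < k' := by exact_mod_cast h7
  have h10 : k' < D.k + 1 := by exact_mod_cast h8
  omega

lemma nu_ne_int (hC : D.Cir) {θ : ℝ} (h1 : D.tm < θ) (h2 : θ < D.tp) (k' : ℤ) :
    Circ.nu D.u D.n θ ≠ k' := by
  intro hk
  obtain ⟨h7, h8⟩ := hC.nu_in θ h1 h2
  rw [hk] at h7 h8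
  have h9 : D.k < k' := by exact_mod_cast h7
  have h10 : k' < D.k + 1 := by exact_mod_cast h8
  omega

/-- exterior pairs in the wake with the word `u` are in `NJ` -/
lemma nj_of_ext (hP : D.Par) (hC : D.Cir) {L θ z} (hL : L ∈ D.RI) (h : D.Th L θ)
    (hz : ExtP D.n (D.c L) z θ D.u) : (D.c L, z) ∈ NJ D.n D.J := by
  obtain ⟨h1, h2⟩ := RI_th hL h hP
  have h3 : (D.c L, z) ∈ Per D.n := hz.2.2.1
  refine ⟨h3, rep13 (Par_n_pos hP) h3 (Th_ext h), nonInt_ext hz (nu_ne_int hC h1 h2), ?_⟩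
  rw [FF_ext hz]
  exact J_eq hC h1 h2

/-- **limit lemma**, exterior parameters: over the wake a limit of `NJ` has the word `u` -/
lemma closure_nj_ext (h2 : S2_unique) (hP : D.Par) (hC : D.Cir) (hR : Regions D) {L θ z}
    (hL : L ∈ D.RI) (h : D.Th L θ) (hz : (D.c L, z) ∈ Per D.n)
    (hcl : (D.c L, z) ∈ closure (NJ D.n D.J)) : ExtP D.n (D.c L) z θ D.u := by
  have hB := U_sub_B hP hL.1
  obtain ⟨v, hv⟩ := exists_extP_word (Par_n_pos hP) h.1.ang hz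
  -- near `L` everything has the word `v`
  have h3 := u_nhds hP hB h hv
  -- transport to a neighbourhood of `(c L, z)`
  have h4 : ∃ᶠ y in 𝓝 (D.c L, z), y ∈ NJ D.n D.J := mem_closure_iff_frequently.1 hcl
  obtain ⟨V₁, hV₁, V₂, hV₂, hV⟩ := (mem_nhds_prod_iff.1 h3)
  have h5 : D.c '' (V₁ ∩ D.RI) ∈ 𝓝 (D.c L) := by
    rw [← c_map_nhds hP hB]
    exact image_mem_map (inter_mem hV₁ (hR.openI.mem_nhds hL))
  have h6 : (D.c '' (V₁ ∩ D.RI)) ×ˢ V₂ ∈ 𝓝 (D.c L, z) := prod_mem_nhds h5 hV₂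
  have h7 : ∀ᶠ y : ℂ × ℂ in 𝓝 (D.c L, z), y.1 ∉ MM :=
    (continuousAt_fst (p := ((D.c L, z) : ℂ × ℂ))).tendsto.eventually
      (isOpen_compl_MM.mem_nhds (Th_ext h))
  have h6' : ∀ᶠ y : ℂ × ℂ in 𝓝 (D.c L, z), y ∈ (D.c '' (V₁ ∩ D.RI)) ×ˢ V₂ := h6
  obtain ⟨y, hy, ⟨⟨L', ⟨hL'V, hL'I⟩, hL'y⟩, hyV⟩, hyM⟩ := (h4.and_eventually (h6'.and h7)).exists
  obtain ⟨y1, y2⟩ := y
  simp only at hL'y hyV hyM
  subst hL'y
  obtain ⟨θ', h8, h9⟩ := hV (show (L', y2) ∈ V₁ ×ˢ V₂ from ⟨hL'V, hyV⟩) hy.1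
  obtain ⟨z', hz'⟩ := exists_u hP hC h8
  have h10 := nj_of_ext hP hC hL'I h8 hz'
  have h11 : y2 = z' := h2 D.n (D.c L') y2 z' (Par_n_pos hP) hyM hy.1 hz'.2.2.1 hy.2.2.1
    h10.2.2.1 (by rw [hy.2.2.2, h10.2.2.2])
  subst h11
  obtain ⟨m, hm, he⟩ := extP_unique h9 hz'
  have hm0 : m = 0 := by
    have : (m : ℝ) = 0 := by linarith
    exact_mod_cast this
  have h12 : v = D.u := by
    funext i
    have h13 := he i
    rw [hm0, sub_zero] at h13
    rcases hC.ubits.bit i with h14 | h14 <;> rcases h9.2.2.2.1.bit i with h15 | h15 <;>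
      rw [h14, h15] at h13 ⊢ <;> simp at h13
  rw [← h12]; exact hv

end

end Pool.Agent.Work.MLC.Sat
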