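import Pool.Agent.Work.MLC.SatLand60

set_option autoImplicit false

/-! # Theorem S, module S5b: the PLY inequality in the wake (helper60)

No maximum principle is needed: if the ray `tm` lands at the parent point then the ray given by
`exists_land_rot` has the same period `x.den` (both are compatible with one angle and one word), so
its rotation number is a fraction with denominator `x.den` close to `x`, hence equal to `x`. -/

namespace Pool.Agent.Work.MLC.Sat

open Filter Topology Metric Set Complex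

variable {D : Dat}

lemma two_le_den (hP : D.Par) : 2 ≤ D.x.den := by
  have h1 := den_le_min hP
  have hq : (0 : ℝ) < D.x.den := by exact_mod_cast D.x.pos
  have h2 : min (D.x : ℝ) (1 - D.x) ≤ 1 / 2 := by
    rcases le_total (D.x : ℝ) (1 / 2) with h | h
    · exact (min_le_left _ _).trans h
    · exact (min_le_right _ _).trans (by linarith)
  have h3 : 1 / (D.x.den : ℝ) ≤ 1 / 2 := h1.trans h2
  have h4 : (2 : ℝ) ≤ D.x.den := by
    rwa [one_div_le_one_div hq (by norm_num)] at h3
  exact_mod_cast h4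

theorem s5_ply60 : S5_ply := by
  intro D hP hC L hL
  obtain ⟨hU, hre, h⟩ := hL
  have hB := U_sub_B hP hU
  have hxr : (D.x : ℝ) = (D.x.num : ℝ) / D.x.den := by
    have := Rat.num_div_den D.x
    exact_mod_cast this.symm
  rcases h with ⟨θ, hθ, h1, h2⟩ | ⟨hM, hland⟩
  · have h3 := (hC.plateau θ).2 ⟨h1.le, h2.le⟩
    have h4 := hP.ply L hB θ hθ
    rw [h3] at h4
    have h5 : L - 2 * Real.pi * (((D.k₀ : ℝ) + (D.x : ℝ) - D.k₀ : ℝ) : ℂ) * I = L - D.a := by
      unfold Dat.a axisPt; push_cast; ring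
    rwa [h5] at h4
  · have hm := hP.m_pos
    obtain ⟨hper, hmul⟩ := hP.sec L hB
    have hM0 : G (D.c L) 0 = 0 := G_zero_of_mem hM
    have hmul' : exp L = mult D.m (D.c L) (D.b L) := hmul.symm
    have hρ : 1 < ‖mult D.m (D.c L) (D.b L)‖ := by
      rw [← hmul', Complex.norm_exp]
      exact Real.one_lt_exp_iff.2 hre
    obtain ⟨β, q, p, hq, hlβ, -, -, hply⟩ := Tr.exists_land_rot (lin_Lz hm hper hρ) hM0 hmul'
    have hQ2 := two_le_den hP
    have hF : Fam D.m (D.c L) (D.b L) {β, D.tm} := by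
      refine ⟨(Set.finite_singleton _).insert _, ?_, ?_, ⟨D.tm, by simp, _, hQ2, hC.per⟩⟩
      · rintro β' (rfl | rfl)
        · exact ⟨q, hlβ.1⟩
        · exact ⟨_, hC.per⟩
      · rintro β' (rfl | rfl)
        · exact hlβ.lands hM0
        · exact hland.lands hM0
    obtain ⟨θ, v, hv, hfit⟩ := exists_fits hm hF
      (portHyp hm (D.c L) (D.b L) _ hM0 hper hρ hF)
    have c1 : Compat β θ v := hfit.compat (by simp) (hlβ.lands hM0)
    have c2 : Compat D.tm θ v := hfit.compat (by simp) (hland.lands hM0)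
    obtain ⟨P, hP1, hP2⟩ := nu_of_compat hlβ.1 hv.per c1
    obtain ⟨P', hP1', hP2'⟩ := nu_of_compat hC.per hv.per c2
    have hq0 : (0 : ℝ) < q := by exact_mod_cast hq
    have hQ0 : (0 : ℝ) < D.x.den := by exact_mod_cast D.x.pos
    have e1 : P * (D.x.den : ℤ) = P' * (q : ℤ) := by
      have e2 : (P : ℝ) / q = P' / D.x.den := by rw [← hP2, ← hP2']
      rw [div_eq_div_iff hq0.ne' hQ0.ne'] at e2
      exact_mod_cast e2
    have hqQ : q = D.x.den := by
      apply Nat.dvd_antisymm
      · have : (q : ℤ) ∣ (D.x.den : ℤ) := by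
          refine hP1.symm.dvd_of_dvd_mul_left ?_
          rw [e1]; exact dvd_mul_left _ _
        exact_mod_cast this
      · have : (D.x.den : ℤ) ∣ (q : ℤ) := by
          refine hP1'.symm.dvd_of_dvd_mul_left ?_
          rw [← e1]; exact dvd_mul_left _ _
        exact_mod_cast this
    subst hqQ
    -- the fraction is `x`
    have hm1 : (1 : ℝ) ≤ D.m := by exact_mod_cast hm
    have hQ1 : (1 : ℝ) ≤ D.x.den := by exact_mod_cast D.x.pos
    have hlog : Real.log 2 < 1 := by have := Real.log_two_lt_d9; linarith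
    have hlog0 : 0 < Real.log 2 := Real.log_pos (by norm_num)
    have hcoef : 2 * (D.m : ℝ) * Real.log 2 / D.x.den ≤ 2 * D.m := by
      rw [div_le_iff₀ hQ0]
      have : 2 * (D.m : ℝ) * Real.log 2 ≤ 2 * D.m * 1 := by gcongr
      nlinarith
    have hare : D.a.re = 0 := by unfold Dat.a axisPt; simp
    have hdist : ‖L - D.a‖ < sR D.m D.x := by
      rw [← dist_eq_norm]; exact hU.1
    have hre2 : L.re < sR D.m D.x := by
      have h2 := Complex.re_le_norm (L - D.a)
      rw [Complex.sub_re, hare] at h2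
      linarith
    have h6 : ‖L - 2 * Real.pi * ((p : ℂ) / (D.x.den : ℂ)) * I‖ < 1 / (2 * D.x.den) := by
      apply lt_of_pow_lt_pow_left₀ 2 (by positivity)
      refine lt_of_le_of_lt hply ?_
      have h7 : 2 * (D.m : ℝ) * Real.log 2 / D.x.den * L.re ≤ 2 * D.m * L.re :=
        mul_le_mul_of_nonneg_right hcoef hre.le
      have h8 : 2 * (D.m : ℝ) * L.re < 2 * D.m * sR D.m D.x :=
        mul_lt_mul_of_pos_left hre2 (by positivity)
      have h9 : 2 * (D.m : ℝ) * sR D.m D.x ≤ (1 / (2 * D.x.den)) ^ 2 := by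
        unfold sR
        rw [div_pow, one_pow, ← mul_div_assoc, mul_one, div_le_div_iff₀ (by positivity)
          (by positivity)]
        have a1 : (D.m : ℝ) ≤ D.m ^ 3 := by
          calc (D.m : ℝ) = D.m ^ 1 := (pow_one _).symm
            _ ≤ D.m ^ 3 := pow_le_pow_right₀ hm1 (by norm_num)
        have a2 : (D.x.den : ℝ) ^ 2 ≤ D.x.den ^ 4 := pow_le_pow_right₀ hQ1 (by norm_num)
        have a3 : (D.m : ℝ) * D.x.den ^ 2 ≤ D.m ^ 3 * D.x.den ^ 4 := by gcongr
        nlinarith [a3, show (0 : ℝ) ≤ D.m ^ 3 * D.x.den ^ 4 by positivity]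
      linarith
    have h7 : ‖L - D.a‖ < 1 / (2 * D.x.den) := by
      refine lt_of_lt_of_le hdist ?_
      unfold sR
      apply one_div_le_one_div_of_le (by positivity)
      have a1 : (1 : ℝ) ≤ D.m ^ 3 := one_le_pow₀ hm1
      have a2 : (D.x.den : ℝ) ≤ D.x.den ^ 4 := by
        calc (D.x.den : ℝ) = D.x.den ^ 1 := (pow_one _).symm
          _ ≤ D.x.den ^ 4 := pow_le_pow_right₀ hQ1 (by norm_num)
      have a3 : (1 : ℝ) * D.x.den ≤ D.m ^ 3 * D.x.den ^ 4 := by gcongr
      nlinarith
    have h8 : D.a - 2 * Real.pi * ((p : ℂ) / (D.x.den : ℂ)) * I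
        = ((2 * Real.pi * ((D.x.num - p : ℤ) / D.x.den) : ℝ) : ℂ) * I := by
      unfold Dat.a axisPt
      rw [hxr]; push_cast; ring
    have h9 : 2 * Real.pi * |((D.x.num - p : ℤ) : ℝ) / D.x.den| < 1 / D.x.den := by
      have b1 : ‖D.a - 2 * Real.pi * ((p : ℂ) / (D.x.den : ℂ)) * I‖
          = 2 * Real.pi * |((D.x.num - p : ℤ) : ℝ) / D.x.den| := by
        rw [h8, norm_mul, Complex.norm_I, mul_one, Complex.norm_real, Real.norm_eq_abs,
          abs_mul, abs_of_pos (by positivity : (0 : ℝ) < 2 * Real.pi)]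
      rw [← b1]
      have b2 : D.a - 2 * Real.pi * ((p : ℂ) / (D.x.den : ℂ)) * I
          = (L - 2 * Real.pi * ((p : ℂ) / (D.x.den : ℂ)) * I) - (L - D.a) := by ring
      rw [b2]
      refine lt_of_le_of_lt (norm_sub_le _ _) ?_
      have b3 : 1 / (2 * (D.x.den : ℝ)) + 1 / (2 * D.x.den) = 1 / D.x.den := by field_simp; ring
      linarith
    have h10 : D.x.num - p = 0 := by
      rw [abs_div, abs_of_pos hQ0, ← mul_div_assoc, div_lt_div_iff_of_pos_right hQ0] at h9
      have hpi := Real.pi_gt_three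
      by_contra hne
      have b4 : (1 : ℝ) ≤ |((D.x.num - p : ℤ) : ℝ)| := by
        have := Int.one_le_abs hne
        exact_mod_cast this
      nlinarith
    have h11 : L - 2 * Real.pi * ((p : ℂ) / (D.x.den : ℂ)) * I = L - D.a := by
      have b5 := h8
      rw [h10] at b5
      simp only [Int.cast_zero, zero_div, mul_zero, Complex.ofReal_zero, zero_mul] at b5
      rw [← sub_eq_zero.1 b5]
    rw [h11] at hply
    refine hply.trans ?_
    refine mul_le_mul_of_nonneg_right (hcoef.trans ?_) hre.le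
    linarith

end Pool.Agent.Work.MLC.Sat
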