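import Pool.Agent.Work.MLC.SatE26
import Pool.Agent.Work.MLC.Final6

set_option autoImplicit false

/-! # Theorem S, module S17: limb data of the child (helper6) -/

namespace Pool.Agent.Work.MLC.Sat

open Filter Topology Metric Set Complex

/-- an injective analytic function has a nonzero derivative -/
theorem deriv_ne_zero_of_injOn {g : ℂ → ℂ} {z : ℂ} (hg : AnalyticAt ℂ g z) {N : Set ℂ}
    (hN : N ∈ 𝓝 z) (hi : InjOn g N) : deriv g z ≠ 0 := by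
  have hzN : z ∈ N := mem_of_mem_nhds hN
  have hnc : ¬ ∀ᶠ u in 𝓝 z, g u = g z := by
    intro h
    have h1 : ∃ᶠ w in 𝓝[≠] z, True := by
      rw [frequently_true_iff_neBot]; infer_instance
    have h2 : ∃ᶠ w in 𝓝 z, w ≠ z := by
      rw [frequently_nhdsWithin_iff] at h1
      exact h1.mono fun w hw => hw.2
    obtain ⟨w, h3, h4, h5⟩ := (h2.and_eventually (h.and hN)).exists
    exact h3 (hi h5 hzN h4)
  refine MLC34.deriv_ne_zero_of_mult hg ?_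
  by_contra hm
  have hm0 := MLC34.mult_pos hg hnc
  have hd := deriv_alt hg hnc
  have hN' : N ∩ {u | AnalyticAt ℂ g u ∧ (u ≠ z → deriv g u ≠ 0)} ∈ 𝓝 z := by
    refine inter_mem hN ?_
    rw [eventually_nhdsWithin_iff] at hd
    filter_upwards [hd, hg.eventually_analyticAt] with u h1 h2
    exact ⟨h2, h1⟩
  obtain ⟨U, hU, hzU, hUN, W, hW, hS⟩ := MLC34.local_count hg hnc hN'
  have hne : ∃ᶠ w in 𝓝 (g z), w ≠ g z := by
    have h6 : ∃ᶠ w in 𝓝[≠] (g z), True := by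
      rw [frequently_true_iff_neBot]; infer_instance
    rw [frequently_nhdsWithin_iff] at h6
    exact h6.mono fun w hw => hw.2
  obtain ⟨w, hw1, hw2⟩ := (hne.and_eventually hW).exists
  obtain ⟨S, hS1, hS2⟩ := hS w hw2
  have h6 : ∀ u ∈ S, MLC34.mult g u = 1 := by
    intro u hu
    have h7 := (hS1 u).1 hu
    have h8 := (hUN h7.1).2
    refine MLC34.mult_eq_one h8.1 (h8.2 ?_)
    rintro rfl
    exact hw1 h7.2.symm
  have h7 : S.card = MLC34.mult g z := by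
    rw [← hS2, Finset.sum_congr rfl h6]
    simp
  have h8 : 1 < S.card := by omega
  obtain ⟨a, ha, b, hb, hab⟩ := Finset.one_lt_card.1 h8
  have ha' := (hS1 a).1 ha
  have hb' := (hS1 b).1 hb
  exact hab (hi (hUN ha'.1).1 (hUN hb'.1).1 (ha'.2.trans hb'.2.symm))

lemma cR_pos {n : ℕ} (hn : 0 < n) : 0 < cR n := by
  have : (0 : ℝ) < n := by exact_mod_cast hn
  unfold cR; positivity

/-- the disc about `2 π i x` is in the disc of the coordinate of the child -/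
lemma ball_sub_cR {n : ℕ} {x : ℚ} (hx : 2 * Real.pi * |(x : ℝ)| ≤ cR n / 2) :
    ball (axisPt x) (cR n / 2) ⊆ ball (0 : ℂ) (cR n) := by
  intro ℓ hℓ
  rw [mem_ball, dist_eq_norm] at hℓ
  rw [mem_ball_zero_iff]
  have h1 : ‖axisPt x‖ = 2 * Real.pi * |(x : ℝ)| := by
    have h := LimbData.axisPt_sub x 0
    have h0 : axisPt 0 = 0 := by simp [axisPt]
    rw [h0, sub_zero] at h
    simpa using h
  calc ‖ℓ‖ = ‖(ℓ - axisPt x) + axisPt x‖ := by rw [sub_add_cancel]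
    _ ≤ ‖ℓ - axisPt x‖ + ‖axisPt x‖ := norm_add_le _ _
    _ < cR n := by rw [h1]; linarith

section

variable {D : Dat} {Z : ℂ → Set ℂ} {e : ℂ → ℂ}

lemma e_mem_B (hP : D.Par) (hch : Child D Z e) {ℓ : ℂ} (hℓ : ℓ ∈ ball (0 : ℂ) (cR D.n)) :
    e ℓ ∈ D.B := ball_subset_ball (sR_le_gR hP) (hch.maps ℓ hℓ).1

lemma e_mem_U (hP : D.Par) (hch : Child D Z e) {ℓ : ℂ} (hℓ : ℓ ∈ ball (0 : ℂ) (cR D.n))
    (h0 : ℓ ≠ 0) : e ℓ ∈ D.U := by
  refine ⟨(hch.maps ℓ hℓ).1, fun h => h0 ?_⟩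
  have h1 : e ℓ = e 0 := by rw [hch.zero]; exact h
  exact hch.inj hℓ (mem_ball_self (cR_pos (Par_n_pos hP))) h1

lemma e_analyticAt (hch : Child D Z e) {ℓ : ℂ} (hℓ : ℓ ∈ ball (0 : ℂ) (cR D.n)) :
    AnalyticAt ℂ e ℓ := hch.diff.analyticAt (isOpen_ball.mem_nhds hℓ)

lemma c_analyticAt (hP : D.Par) {L : ℂ} (hL : L ∈ D.B) : AnalyticAt ℂ D.c L := by
  have h1 : DifferentiableOn ℂ (fun L => (D.σ L).1) D.B :=
    section_differentiableOn (goodB hP) hP.cont hP.sec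
  exact h1.analyticAt (isOpen_B.mem_nhds hL)

lemma ce_analyticAt (hP : D.Par) (hch : Child D Z e) {ℓ : ℂ} (hℓ : ℓ ∈ ball (0 : ℂ) (cR D.n)) :
    AnalyticAt ℂ (fun ℓ => D.c (e ℓ)) ℓ :=
  AnalyticAt.comp (g := D.c) (f := e) (c_analyticAt hP (e_mem_B hP hch hℓ)) (e_analyticAt hch hℓ)

lemma ce_deriv_ne_zero (hP : D.Par) (hch : Child D Z e) {ℓ : ℂ}
    (hℓ : ℓ ∈ ball (0 : ℂ) (cR D.n)) : deriv (fun ℓ => D.c (e ℓ)) ℓ ≠ 0 := by
  have h1 : HasDerivAt e (deriv e ℓ) ℓ := (e_analyticAt hch hℓ).differentiableAt.hasDerivAt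
  have h2 : HasDerivAt D.c (deriv D.c (e ℓ)) (e ℓ) :=
    (c_analyticAt hP (e_mem_B hP hch hℓ)).differentiableAt.hasDerivAt
  have h3 : HasDerivAt (fun ℓ => D.c (e ℓ)) (deriv D.c (e ℓ) * deriv e ℓ) ℓ :=
    HasDerivAt.comp (h₂ := D.c) ℓ h2 h1
  rw [h3.deriv]
  exact mul_ne_zero (section_deriv_ne_zero (goodB hP) hP.cont hP.sec (e_mem_B hP hch hℓ))
    (deriv_ne_zero_of_injOn (e_analyticAt hch hℓ) (isOpen_ball.mem_nhds hℓ) hch.inj)

/-- limb data about every point `2 π i x` close to the root of the child -/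
theorem s17_limb (h16 : S16_rot) : S17_limb := by
  intro D Z e hP hC hR hG hch x hx hxr
  have hn : 0 < D.n := Par_n_pos hP
  have hn' : (0 : ℝ) < D.n := by exact_mod_cast hn
  have hcR := cR_pos hn
  have hsub : ball (axisPt x) (cR D.n / 2) ⊆ ball (0 : ℂ) (cR D.n) := ball_sub_cR hxr
  have hT := Tr.rotData hn
  have hcen : axisPt x ∈ ball (axisPt x) (cR D.n / 2) := mem_ball_self (by linarith)
  refine ⟨by linarith, ?_, ?_, ?_, ?_, ?_, ?_, ?_, ?_, ?_, ?_⟩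
  · have := Real.log_pos (by norm_num : (1 : ℝ) < 2)
    positivity
  · intro ℓ hℓ
    exact (ce_analyticAt hP hch (hsub hℓ)).continuousAt.continuousWithinAt
  · intro ℓ hℓ hre
    by_contra hM
    by_cases h0 : ℓ = 0
    · subst h0
      rw [hch.zero] at hM
      have h1 := re_pos_of_ext hP (a_mem_B hP) hM
      unfold Dat.a at h1
      rw [LimbData.axisPt_re] at h1
      exact lt_irrefl _ h1
    · have hU := e_mem_U hP hch (hsub hℓ) h0
      obtain ⟨z, hz⟩ := hG.fam.ne _ hU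
      have h1 := rep13 hn (hG.fam.fix _ hU z hz).1 hM
      rw [hch.mul_eq ℓ (hsub hℓ) h0 z hz, Complex.norm_exp, Real.one_lt_exp_iff] at h1
      linarith
  · have h1 := (ce_analyticAt hP hch (hsub hcen)).hasStrictDerivAt
    have h2 := ce_deriv_ne_zero hP hch (hsub hcen)
    have hs := h1.hasStrictFDerivAt_equiv h2
    have hN : (hs.toOpenPartialHomeomorph _).source ∈ 𝓝 (axisPt x) :=
      (hs.toOpenPartialHomeomorph _).open_source.mem_nhds hs.mem_toOpenPartialHomeomorph_source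
    have hi : InjOn (fun ℓ => D.c (e ℓ)) (hs.toOpenPartialHomeomorph _).source := by
      have := (hs.toOpenPartialHomeomorph _).injOn
      rwa [HasStrictFDerivAt.toOpenPartialHomeomorph_coe] at this
    obtain ⟨δ, hδ, hδ2⟩ := Metric.mem_nhds_iff.1 hN
    exact ⟨δ, hδ, hi.mono hδ2⟩
  · intro ℓ hℓ U hU
    have h1 := (ce_analyticAt hP hch (hsub hℓ)).hasStrictDerivAt
    have h2 := ce_deriv_ne_zero hP hch (hsub hℓ)
    rw [← h1.map_nhds_eq h2]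
    exact image_mem_map hU
  · rintro ℓ y ⟨hℓ, z, hz, hzT⟩
    exact hT.dom _ _ _ _ hzT
  · intro ℓ hℓ hre hM
    have h0 : ℓ ≠ 0 := by rintro rfl; simp at hre
    have hU := e_mem_U hP hch (hsub hℓ) h0
    obtain ⟨z, hz⟩ := hG.fam.ne _ hU
    obtain ⟨y, hy⟩ := hT.ex _ _ ℓ (hG.fam.fix _ hU z hz).1
      (hch.mul_eq ℓ (hsub hℓ) h0 z hz) hre hM
    exact ⟨y, hℓ, z, hz, hy⟩
  · rintro ℓ y y' ⟨hℓ, z, hz, h1⟩ ⟨-, z', hz', h2⟩
    have h0 : ℓ ≠ 0 := by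
      rintro rfl
      have := (hT.dom _ _ _ _ h1).1
      simp at this
    have hU := e_mem_U hP hch (hsub hℓ) h0
    obtain ⟨i, rfl⟩ := (hG.fam.cyc _ hU z hz z').1 hz'
    exact Tr.rotT_unique hn (h16 _ _ _ _ _ i hn h1) h2
  · rintro ℓ hℓ y ⟨-, z, hz, h1⟩
    have hre := (hT.dom _ _ _ _ h1).1
    have h0 : ℓ ≠ 0 := by rintro rfl; simp at hre
    have hB := e_mem_B hP hch (hsub hℓ)
    have hU := e_mem_U hP hch (hsub hℓ) h0
    obtain ⟨hper, hne⟩ := hG.fam.fix _ hU z hz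
    obtain ⟨β, hβ, hβ0, hβe⟩ := chart hper hne
    simp only at hβ hβ0
    have hce : ContinuousAt (fun ℓ => D.c (e ℓ)) ℓ :=
      (ce_analyticAt hP hch (hsub hℓ)).continuousAt
    have hec : ContinuousAt e ℓ := (e_analyticAt hch (hsub hℓ)).continuousAt
    have hβc : ContinuousAt (fun ℓ => β (D.c (e ℓ))) ℓ :=
      ContinuousAt.comp (g := β) (f := fun ℓ => D.c (e ℓ)) hβ.continuousAt hce
    -- the pairs `(c, β c)` are periodic
    have h2 : ∀ᶠ ℓ' in 𝓝 ℓ, (D.c (e ℓ'), β (D.c (e ℓ'))) ∈ Per D.n := by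
      have h3 : Tendsto (fun ℓ' => ((D.c (e ℓ'), β (D.c (e ℓ'))) : ℂ × ℂ)) (𝓝 ℓ)
          (𝓝 (D.c (e ℓ), z)) := by
        have := hce.tendsto.prodMk_nhds hβc.tendsto
        rwa [hβ0] at this
      filter_upwards [h3.eventually hβe] with ℓ' h4
      exact h4.2 rfl
    have h5 : ∀ᶠ ℓ' in 𝓝 ℓ, β (D.c (e ℓ')) ∈ Z (e ℓ') := by
      have h3 : Tendsto (fun ℓ' => ((e ℓ', β (D.c (e ℓ'))) : ℂ × ℂ)) (𝓝 ℓ)
          (𝓝 (e ℓ, z)) := by
        have := hec.tendsto.prodMk_nhds hβc.tendsto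
        rwa [hβ0] at this
      filter_upwards [h3.eventually (hG.fam.cont _ hU z hz), h2] with ℓ' h4 h6
      exact h4 h6
    have h7 : ∀ᶠ ℓ' in 𝓝 ℓ, D.c (e ℓ') ∈ MS → (D.c (e ℓ'), β (D.c (e ℓ'))) ∈ Per D.n →
        mul D.n (D.c (e ℓ'), β (D.c (e ℓ'))) = exp ℓ' →
        Tr.RotT D.n (D.c (e ℓ')) (β (D.c (e ℓ'))) ℓ' y := by
      have h3 : Tendsto (fun ℓ' => ((D.c (e ℓ'), β (D.c (e ℓ')), ℓ') : ℂ × ℂ × ℂ)) (𝓝 ℓ)
          (𝓝 (D.c (e ℓ), z, ℓ)) := by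
        have := hce.tendsto.prodMk_nhds (hβc.tendsto.prodMk_nhds (tendsto_id (x := 𝓝 ℓ)))
        rwa [hβ0] at this
      exact h3.eventually (hT.opn _ _ _ _ h1)
    filter_upwards [h2, h5, h7, isOpen_ball.mem_nhds hℓ, isOpen_ne.mem_nhds h0]
      with ℓ' h8 h9 h10 h11 h12 h13
    exact ⟨h11, _, h9, h10 h13 h8 (hch.mul_eq ℓ' (hsub h11) h12 _ h9)⟩
  · rintro ℓ y ⟨hℓ, z, hz, h1⟩
    exact hT.ply _ _ _ _ h1

end

end Pool.Agent.Work.MLC.Sat
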