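import Pool.Agent.Work.MLC.Deg34

/-!
# Conformal maps onto the exterior disc by the degree
-/

set_option autoImplicit false

open Set Topology Filter Metric

namespace MLC34

theorem isPreconnected_ext : IsPreconnected {z : ℂ | 1 < ‖z‖} := by
  have h1 : {z : ℂ | 1 < ‖z‖} = Complex.exp '' {L : ℂ | 0 < L.re} := by
    ext z
    constructor
    · intro hz
      have hz' : 1 < ‖z‖ := hz
      have hz0 : z ≠ 0 := by rw [← norm_pos_iff]; linarith
      refine ⟨Complex.log z, ?_, Complex.exp_log hz0⟩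
      show 0 < (Complex.log z).re
      rw [Complex.log_re]; exact Real.log_pos hz'
    · rintro ⟨L, hL, rfl⟩
      show 1 < ‖Complex.exp L‖
      rw [Complex.norm_exp]; exact Real.one_lt_exp_iff.2 hL
  rw [h1]
  exact (convex_halfSpace_re_gt 0).isPreconnected.image _ Complex.continuous_exp.continuousOn

theorem isOpen_ext : IsOpen {z : ℂ | 1 < ‖z‖} := isOpen_lt continuous_const continuous_norm

/-- A proper holomorphic map onto the exterior of the unit disc which is close to a rotation
near infinity is a biholomorphism. -/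
theorem bij_exterior {Φ : ℂ → ℂ} {Ω : Set ℂ} (h : ProperHol Φ Ω {z | 1 < ‖z‖}) {R B' : ℝ} {s : ℂ}
    (hs : ‖s‖ = 1)
    (hR : ∀ c : ℂ, R < ‖c‖ → c ∈ Ω) (hB : ∀ c : ℂ, R < ‖c‖ → ‖Φ c - s * c‖ ≤ ‖c‖ / 25)
    (hB' : ∀ c ∈ Ω, ‖c‖ ≤ R → ‖Φ c‖ ≤ B') :
    BijOn Φ Ω {z | 1 < ‖z‖} ∧ ∀ c ∈ Ω, deriv Φ c ≠ 0 := by
  -- a large value
  set W : ℝ := 2 * |R| + |B'| + 10 with hW
  have hWpos : 0 < W := by positivity
  set w : ℂ := (W : ℂ) with hw
  have hwn : ‖w‖ = W := by rw [hw, Complex.norm_real, Real.norm_of_nonneg hWpos.le]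
  have hswn : ‖s * w‖ = W := by rw [norm_mul, hs, one_mul, hwn]
  have hwV : s * w ∈ {z : ℂ | 1 < ‖z‖} := by
    show 1 < ‖s * w‖
    rw [hswn, hW]; nlinarith [abs_nonneg R, abs_nonneg B']
  have hball : ∀ c ∈ ball w (W / 2), R < ‖c‖ := by
    intro c hc
    rw [mem_ball, dist_eq_norm] at hc
    have h1 : ‖w‖ - ‖c‖ ≤ ‖c - w‖ := by
      rw [← norm_neg (c - w), neg_sub]; exact norm_sub_norm_le _ _
    rw [hwn] at h1
    have h2 := le_abs_self R
    have : W / 2 = |R| + |B'| / 2 + 5 := by rw [hW]; ring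
    linarith [abs_nonneg B']
  -- the perturbation of the rotation
  have hgd : DifferentiableOn ℂ (fun c => Φ c - s * c) (ball w (W / 2)) :=
    (h.diff.mono fun c hc => hR c (hball c hc)).sub (by fun_prop)
  have hderiv : ∀ c ∈ ball w (W / 4), ‖deriv (fun c => Φ c - s * c) c‖ ≤ 1 / 2 := by
    intro c hc
    have hsub : closedBall c (W / 8) ⊆ ball w (W / 2) := by
      intro u hu
      rw [mem_closedBall] at hu
      rw [mem_ball] at hc ⊢
      have := dist_triangle u c w
      linarith
    have h1 : DiffContOnCl ℂ (fun c => Φ c - s * c) (ball c (W / 8)) := by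
      refine (hgd.mono ?_).diffContOnCl
      exact (closure_ball_subset_closedBall).trans hsub
    have h2 := Complex.norm_deriv_le_of_forall_mem_sphere_norm_le (c := c) (R := W / 8)
      (C := 11 * W / 200) (by positivity) h1 (fun u hu => by
        have hu' : u ∈ closedBall c (W / 8) := sphere_subset_closedBall hu
        refine (hB u (hball u (hsub hu'))).trans ?_
        have h3 : ‖u‖ ≤ 11 * W / 8 := by
          rw [mem_closedBall] at hu'
          rw [mem_ball] at hc
          have h4 := dist_triangle u c w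
          have h5 : ‖u‖ ≤ dist u w + ‖w‖ := by
            rw [dist_eq_norm]
            calc ‖u‖ = ‖(u - w) + w‖ := by ring_nf
              _ ≤ _ := norm_add_le _ _
          rw [hwn] at h5
          linarith
        linarith)
    refine h2.trans ?_
    rw [div_le_iff₀ (by positivity)]
    linarith
  have hLip : ∀ a ∈ ball w (W / 4), ∀ b ∈ ball w (W / 4),
      ‖(Φ b - s * b) - (Φ a - s * a)‖ ≤ 1 / 2 * ‖b - a‖ := by
    intro a ha b hb
    refine (convex_ball w (W / 4)).norm_image_sub_le_of_norm_deriv_le (f := fun c => Φ c - s * c)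
      (fun u hu => ?_) hderiv ha hb
    exact hgd.differentiableAt (isOpen_ball.mem_nhds (ball_subset_ball (by linarith) hu))
  have hinj : ∀ a ∈ ball w (W / 4), ∀ b ∈ ball w (W / 4), Φ a = Φ b → a = b := by
    intro a ha b hb hab
    have h1 := hLip a ha b hb
    rw [hab, show (Φ b - s * b) - (Φ b - s * a) = -(s * (b - a)) by ring, norm_neg, norm_mul, hs,
      one_mul] at h1
    have h2 : ‖b - a‖ ≤ 0 := by linarith [norm_nonneg (b - a)]
    exact (sub_eq_zero.1 (norm_le_zero_iff.1 h2)).symm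
  have hdne : ∀ a ∈ ball w (W / 4), deriv Φ a ≠ 0 := by
    intro a ha h0
    have haΩ : a ∈ Ω := hR a (hball a (ball_subset_ball (by linarith) ha))
    have h1 := hderiv a ha
    have hd : DifferentiableAt ℂ Φ a := (h.analyticAt haΩ).differentiableAt
    have h2 : deriv (fun c => Φ c - s * c) a = deriv Φ a - s * 1 :=
      (hd.hasDerivAt.sub ((hasDerivAt_id a).const_mul s)).deriv
    rw [h2, h0, zero_sub, norm_neg, mul_one, hs] at h1
    norm_num at h1
  have hsol : ∀ c ∈ Ω, Φ c = s * w → c ∈ ball w (W / 4) := by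
    intro c hc hcw
    by_cases hcR : ‖c‖ ≤ R
    · have h1 := hB' c hc hcR
      rw [hcw, hswn] at h1
      have h2 := le_abs_self B'
      exfalso
      have : W = 2 * |R| + |B'| + 10 := hW
      nlinarith [abs_nonneg R]
    · push Not at hcR
      have h1 := hB c hcR
      rw [hcw, ← mul_sub, norm_mul, hs, one_mul] at h1
      have h2 : ‖c‖ ≤ ‖w - c‖ + ‖w‖ := by
        calc ‖c‖ = ‖w - (w - c)‖ := by ring_nf
          _ ≤ ‖w‖ + ‖w - c‖ := norm_sub_le _ _
          _ = _ := by ring
      rw [hwn] at h2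
      rw [mem_ball, dist_comm, dist_eq_norm]
      linarith
  have hΩne : Ω.Nonempty := ⟨w, hR w (hball w (mem_ball_self (by positivity)))⟩
  obtain ⟨c, hcΩ, hcw⟩ := h.surjOn isPreconnected_ext hΩne hwV
  have hcnt : cnt Φ Ω (s * w) = 1 := by
    rw [cnt_eq_sum (S := {c})]
    · rw [Finset.sum_singleton]
      exact mult_eq_one (h.analyticAt hcΩ) (hdne c (hsol c hcΩ hcw))
    · intro u
      rw [Finset.mem_singleton]
      constructor
      · rintro rfl; exact ⟨hcΩ, hcw⟩
      · rintro ⟨hu, huw⟩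
        exact hinj u (hsol u hu huw) c (hsol c hcΩ hcw) (huw.trans hcw.symm)
  exact h.bij_of_cnt_one isPreconnected_ext hwV hcnt

end MLC34
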