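import Pool.Agent.Work.MLC.Eta
import Pool.Agent.Work.MLC.Ext34

/-!
# The parameter map (Douady-Hubbard) from the dynamical Boettcher map (helper34)
-/

set_option autoImplicit false

namespace Pool.Agent.Work.MLC

open Filter Topology Metric Set MLC34

lemma f_zero (c : ℂ) : f c 0 = c := by simp [f]

lemma G_self (c : ℂ) : G c c = 2 * G c 0 := by
  have h := G_f c 0
  rwa [f_zero] at h

/-- the complement of the Mandelbrot set -/
def Mc : Set ℂ := {c | 0 < G c c}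

lemma mem_Mc {c : ℂ} : c ∈ Mc ↔ 0 < G c c := Iff.rfl

lemma mem_Mc_iff {c : ℂ} : c ∈ Mc ↔ c ∉ N62a1eb23.mandelbrotSet := by
  rw [mem_M_iff', mem_Mc, G_pos_iff]

lemma G0_lt_of_mem {c : ℂ} (h : c ∈ Mc) : G c 0 < G c c := by
  have h1 := G_self c
  rw [mem_Mc] at h
  linarith

lemma continuous_G_diag : Continuous fun c : ℂ => G c c := by
  have h1 : Continuous (fun z : ℂ => ((z, z) : ℂ × ℂ)) := by fun_prop
  have h2 : Continuous ((fun p : ℂ × ℂ => G p.1 p.2) ∘ fun z : ℂ => ((z, z) : ℂ × ℂ)) :=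
    Continuous.comp continuous_G h1
  exact h2

lemma isOpen_Mc : IsOpen Mc := isOpen_lt continuous_const continuous_G_diag

lemma eta_of_exp {c z L : ℂ} (h : G c 0 < G c z) (hL : Complex.exp L = phi c z) :
    eta c L = z := by
  rw [eta, hL, psi_phi h]

/-- The Riemann map of the complement of `M` -/
noncomputable def Phi (c : ℂ) : ℂ := phi c c

lemma norm_Phi {c : ℂ} (hc : c ∈ Mc) : ‖Phi c‖ = Real.exp (G c c) := norm_phi (G0_lt_of_mem hc)

lemma one_lt_norm_Phi {c : ℂ} (hc : c ∈ Mc) : 1 < ‖Phi c‖ := by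
  rw [norm_Phi hc]; exact Real.one_lt_exp_iff.2 hc

lemma Phi_ne_zero {c : ℂ} (hc : c ∈ Mc) : Phi c ≠ 0 := by
  rw [← norm_pos_iff]; linarith [one_lt_norm_Phi hc]

lemma differentiableOn_Phi : DifferentiableOn ℂ Phi Mc :=
  differentiableOn_phi isOpen_Mc (γ := fun t => t) (δ := fun t => t) differentiableOn_id
    differentiableOn_id fun _ ht => G0_lt_of_mem ht

lemma norm_sq_sub_le (c : ℂ) : ‖c‖ ^ 2 - ‖c‖ ≤ ‖f c c‖ := by
  have := norm_sub_norm_le (c ^ 2) (-c)
  rw [norm_pow, norm_neg, sub_neg_eq_add] at this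
  exact this

lemma Far_f_self {c : ℂ} (hc : 10 < ‖c‖) : Far c (f c c) := by
  have h1 := norm_sq_sub_le c
  unfold Far
  nlinarith

lemma log_norm_f_le {c : ℂ} (hc : 10 < ‖c‖) :
    Real.log ‖f c c‖ - 3 / 16 ≤ 2 * G c c ∧ 2 * G c c ≤ Real.log ‖f c c‖ + 3 / 16 := by
  have hF := Far_f_self hc
  have h1 := G_eq_log_add hF
  rw [G_f] at h1
  have h2 := (Complex.abs_re_le_norm (SB c (f c c))).trans (norm_SB_le' hF)
  have h3 := abs_le.1 h2
  constructor <;> linarith [h3.1, h3.2]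

lemma mem_Mc_of_large {c : ℂ} (hc : 10 < ‖c‖) : c ∈ Mc := by
  have h1 := G_pos_of_Far (Far_f_self hc)
  rw [G_f] at h1
  rw [mem_Mc]; linarith

/-- closeness of the square -/
lemma norm_Phi_sq {c : ℂ} (hc : 1000 < ‖c‖) : ‖(Phi c / c) ^ 2 - 1‖ ≤ 17 / 250 := by
  have hc10 : 10 < ‖c‖ := by linarith
  have hcM := mem_Mc_of_large hc10
  have hF := Far_f_self hc10
  have hc0 : c ≠ 0 := by rw [← norm_pos_iff]; linarith
  set L := Complex.log (Phi c) with hL
  have hexp : Complex.exp L = Phi c := Complex.exp_log (Phi_ne_zero hcM)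
  have hLre : L.re = G c c := by
    rw [hL, Complex.log_re, norm_Phi hcM, Real.log_exp]
  have h0 : G c 0 < L.re := by rw [hLre]; exact G0_lt_of_mem hcM
  have hη : eta c L = c := eta_of_exp (G0_lt_of_mem hcM) hexp
  have h1 : eta c (2 * L) = f c c := by rw [← f_eta h0, hη]
  have h2 : (2 * L).re = 2 * G c c := by
    rw [← hLre]; simp
  have h3 : Real.log (4 * (‖c‖ + 2)) < (2 * L).re := by
    rw [h2]
    have h4 := (log_norm_f_le hc10).1
    have h5 : Real.log (4 * (‖c‖ + 2)) < Real.log ‖f c c‖ - 3 / 16 := by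
      have h6 : Real.log (4 * (‖c‖ + 2)) + 1 ≤ Real.log ‖f c c‖ := by
        have h7 : Real.log (4 * (‖c‖ + 2)) + 1 = Real.log (4 * (‖c‖ + 2) * Real.exp 1) := by
          rw [Real.log_mul (by positivity) (Real.exp_pos 1).ne', Real.log_exp]
        rw [h7]
        apply Real.log_le_log (by positivity)
        have h8 := norm_sq_sub_le c
        have h9 := Real.exp_one_lt_d9
        have h10 : 4 * (‖c‖ + 2) * Real.exp 1 ≤ 4 * (‖c‖ + 2) * 3 := by
          gcongr; linarith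
        nlinarith
      linarith
    linarith
  have h4 := norm_eta_div_exp_sub_one h3
  have hexp2 : Complex.exp (2 * L) = Phi c ^ 2 := by
    rw [two_mul, Complex.exp_add, hexp, sq]
  rw [h1, hexp2] at h4
  have hP0 := Phi_ne_zero hcM
  set a : ℂ := f c c / Phi c ^ 2 with ha
  have ha1 : 15 / 16 ≤ ‖a‖ := by
    have h5 := norm_sub_norm_le (1 : ℂ) (1 - a)
    rw [norm_one, show (1 : ℂ) - (1 - a) = a by ring, norm_sub_rev] at h5
    linarith
  have ha0 : a ≠ 0 := by rw [← norm_pos_iff]; linarith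
  have hx : (Phi c / c) ^ 2 - 1 = (c⁻¹ - (a - 1)) / a := by
    have h6 : (Phi c / c) ^ 2 * a = 1 + c⁻¹ := by
      rw [ha, f]; field_simp
    rw [eq_div_iff ha0, sub_mul, h6]; ring
  rw [hx, norm_div, div_le_iff₀ (by linarith)]
  have h7 : ‖c⁻¹ - (a - 1)‖ ≤ 1 / 1000 + 1 / 16 := by
    refine (norm_sub_le _ _).trans (add_le_add ?_ h4)
    rw [norm_inv, inv_eq_one_div]
    exact one_div_le_one_div_of_le (by norm_num) hc.le
  linarith

lemma re_ne_zero_of_sq {x : ℂ} (h : ‖x ^ 2 - 1‖ ≤ 17 / 250) : x.re ≠ 0 := by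
  intro h0
  have h1 : (x ^ 2 - 1).re = -(x.im) ^ 2 - 1 := by
    rw [sq, Complex.sub_re, Complex.mul_re, h0, Complex.one_re]; ring
  have h2 := Complex.abs_re_le_norm (x ^ 2 - 1)
  rw [h1] at h2
  have h3 := (abs_le.1 (h2.trans h)).1
  nlinarith [sq_nonneg x.im]

lemma norm_sub_one_of_sq {x : ℂ} (h : ‖x ^ 2 - 1‖ ≤ 17 / 250) (hre : 0 < x.re) :
    ‖x - 1‖ ≤ 1 / 25 := by
  have h1 : ‖x ^ 2 - 1‖ = ‖x - 1‖ * ‖x + 1‖ := by
    rw [← norm_mul]; congr 1; ring
  have h2 : 1 ≤ ‖x + 1‖ := by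
    have h3 := Complex.abs_re_le_norm (x + 1)
    rw [Complex.add_re, Complex.one_re, abs_of_pos (by linarith)] at h3
    linarith
  have h3 : ‖x - 1‖ ≤ 17 / 250 := by
    rw [h1] at h
    nlinarith [norm_nonneg (x - 1)]
  have h4 : 2 - 17 / 250 ≤ ‖x + 1‖ := by
    have h5 := norm_sub_norm_le (2 : ℂ) (1 - x)
    rw [show (2 : ℂ) - (1 - x) = x + 1 by ring, norm_sub_rev 1 x, Complex.norm_two] at h5
    linarith
  rw [h1] at h
  nlinarith [norm_nonneg (x - 1)]

theorem exists_sign : ∃ s : ℂ, ‖s‖ = 1 ∧ ∀ c : ℂ, 1000 < ‖c‖ → ‖Phi c - s * c‖ ≤ ‖c‖ / 25 := by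
  have hpre : IsPreconnected {c : ℂ | 1000 < ‖c‖} := by
    have h1 : {c : ℂ | 1000 < ‖c‖} = (fun z : ℂ => 1000 * z) '' {z : ℂ | 1 < ‖z‖} := by
      ext c
      constructor
      · intro hc
        have hc' : 1000 < ‖c‖ := hc
        refine ⟨c / 1000, ?_, by simp only; ring⟩
        show 1 < ‖c / 1000‖
        rw [norm_div]
        have : ‖(1000 : ℂ)‖ = 1000 := by simp
        rw [this, lt_div_iff₀ (by norm_num)]; linarith
      · rintro ⟨z, hz, rfl⟩
        have hz' : 1 < ‖z‖ := hz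
        show 1000 < ‖1000 * z‖
        rw [norm_mul]
        have : ‖(1000 : ℂ)‖ = 1000 := by simp
        rw [this]; linarith
    rw [h1]
    exact isPreconnected_ext.image _ (by fun_prop)
  have hcont : ContinuousOn (fun c : ℂ => (Phi c / c).re) {c : ℂ | 1000 < ‖c‖} := by
    refine Complex.continuous_re.comp_continuousOn (ContinuousOn.div ?_ continuousOn_id ?_)
    · refine differentiableOn_Phi.continuousOn.mono fun c hc => ?_
      have hc' : 1000 < ‖c‖ := hc
      exact mem_Mc_of_large (by linarith)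
    · intro c hc
      have hc' : 1000 < ‖c‖ := hc
      show c ≠ 0
      rw [← norm_pos_iff]; linarith
  have himg := hpre.image _ hcont
  have h0 : (0 : ℝ) ∉ (fun c : ℂ => (Phi c / c).re) '' {c : ℂ | 1000 < ‖c‖} := by
    rintro ⟨c, hc, hc0⟩
    exact re_ne_zero_of_sq (norm_Phi_sq hc) hc0
  have hdich : (∀ c : ℂ, 1000 < ‖c‖ → 0 < (Phi c / c).re) ∨
      (∀ c : ℂ, 1000 < ‖c‖ → (Phi c / c).re < 0) := by
    by_contra hcon
    push Not at hcon
    obtain ⟨⟨a, ha, ha'⟩, ⟨b, hb, hb'⟩⟩ := hcon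
    exact h0 (himg.ordConnected.out (mem_image_of_mem _ ha) (mem_image_of_mem _ hb) ⟨ha', hb'⟩)
  rcases hdich with hpos | hneg
  · refine ⟨1, norm_one, fun c hc => ?_⟩
    have hc0 : c ≠ 0 := by rw [← norm_pos_iff]; linarith
    have h1 := norm_sub_one_of_sq (norm_Phi_sq hc) (hpos c hc)
    have h2 : Phi c - 1 * c = c * (Phi c / c - 1) := by field_simp
    rw [h2, norm_mul]
    nlinarith [norm_nonneg c]
  · refine ⟨-1, by simp, fun c hc => ?_⟩
    have hc0 : c ≠ 0 := by rw [← norm_pos_iff]; linarith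
    have h1 := norm_sub_one_of_sq (x := -(Phi c / c)) (by rw [neg_sq]; exact norm_Phi_sq hc)
      (by rw [Complex.neg_re]; linarith [hneg c hc])
    have h2 : Phi c - -1 * c = -(c * (-(Phi c / c) - 1)) := by field_simp; ring
    rw [h2, norm_neg, norm_mul]
    nlinarith [norm_nonneg c]

lemma exp_3_16 : Real.exp (3 / 16) ≤ 2 := by
  have h7 := Real.exp_one_lt_d9
  have h8 : Real.exp (3 / 16) ≤ Real.exp (1 / 2) := Real.exp_le_exp.2 (by norm_num)
  have h9 : Real.exp (1 / 2) * Real.exp (1 / 2) = Real.exp 1 := by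
    rw [← Real.exp_add]; norm_num
  nlinarith [Real.exp_pos (1 / 2)]

/-- parameters with bounded Green function are bounded -/
lemma norm_le_of_G_le {c : ℂ} {b : ℝ} (h : G c c ≤ b) : ‖c‖ ≤ 2 * Real.exp b + 100 := by
  by_contra hcon
  push Not at hcon
  have hexp : 0 < Real.exp b := Real.exp_pos b
  have hc10 : 10 < ‖c‖ := by linarith
  have h4 := (log_norm_f_le hc10).1
  have h5 : ‖f c c‖ ≤ Real.exp (2 * b + 3 / 16) := by
    have h6 : Real.log ‖f c c‖ ≤ 2 * b + 3 / 16 := by linarith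
    rwa [Real.log_le_iff_le_exp (by have := (Far_f_self hc10).norm_gt; linarith)] at h6
  have h6 : Real.exp (2 * b + 3 / 16) ≤ 2 * Real.exp b ^ 2 := by
    rw [Real.exp_add, two_mul, Real.exp_add]
    have := exp_3_16
    nlinarith [mul_pos hexp hexp]
  have h7 := norm_sq_sub_le c
  nlinarith

theorem properHol_Phi : ProperHol Phi Mc {z | 1 < ‖z‖} := by
  refine ⟨isOpen_Mc, isOpen_ext, differentiableOn_Phi, fun c hc => one_lt_norm_Phi hc,
    fun K hK hKc => ?_⟩
  rcases K.eq_empty_or_nonempty with rfl | hKne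
  · simp
  -- bounds on `K`
  obtain ⟨w₀, hw₀, hmin⟩ := hKc.exists_isMinOn hKne continuous_norm.continuousOn
  obtain ⟨w₁, hw₁, hmax⟩ := hKc.exists_isMaxOn hKne continuous_norm.continuousOn
  have ha : 1 < ‖w₀‖ := hK hw₀
  have hb : 1 < ‖w₁‖ := hK hw₁
  have ha0 : 0 < Real.log ‖w₀‖ := Real.log_pos ha
  have hG : ∀ c ∈ Mc ∩ Phi ⁻¹' K, Real.log ‖w₀‖ ≤ G c c ∧ G c c ≤ Real.log ‖w₁‖ := by
    intro c hc
    have h1 : ‖w₀‖ ≤ ‖Phi c‖ := hmin hc.2
    have h2 : ‖Phi c‖ ≤ ‖w₁‖ := hmax hc.2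
    rw [norm_Phi hc.1] at h1 h2
    constructor
    · rw [Real.log_le_iff_le_exp (by linarith)]; exact h1
    · rw [Real.le_log_iff_exp_le (by linarith)]; exact h2
  -- the set is closed
  have hcl : IsClosed (Mc ∩ Phi ⁻¹' K) := by
    have h1 : Mc ∩ Phi ⁻¹' K = {c | Real.log ‖w₀‖ ≤ G c c} ∩ Phi ⁻¹' K := by
      ext c
      constructor
      · intro hc; exact ⟨(hG c hc).1, hc.2⟩
      · intro hc; exact ⟨lt_of_lt_of_le ha0 hc.1, hc.2⟩
    rw [h1]
    have h2 : ContinuousOn Phi {c | Real.log ‖w₀‖ ≤ G c c} :=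
      differentiableOn_Phi.continuousOn.mono fun c hc => lt_of_lt_of_le ha0 hc
    exact h2.preimage_isClosed_of_isClosed (isClosed_le continuous_const continuous_G_diag)
      hKc.isClosed
  -- and bounded
  have hbd : Mc ∩ Phi ⁻¹' K ⊆ closedBall 0 (2 * Real.exp (Real.log ‖w₁‖) + 100) := by
    intro c hc
    rw [mem_closedBall_zero_iff]
    exact norm_le_of_G_le (hG c hc).2
  exact (isCompact_closedBall (0 : ℂ) _).of_isClosed_subset hcl hbd

theorem bijOn_Phi : BijOn Phi Mc {z | 1 < ‖z‖} ∧ ∀ c ∈ Mc, deriv Phi c ≠ 0 := by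
  obtain ⟨s, hs, hB⟩ := exists_sign
  obtain ⟨B', hB'⟩ := (isCompact_closedBall (0 : ℂ) 1000).exists_bound_of_continuousOn
    (f := fun c => G c c) continuous_G_diag.continuousOn
  refine bij_exterior properHol_Phi (R := 1000) (B' := Real.exp B') hs
    (fun c hc => mem_Mc_of_large (by linarith)) hB ?_
  intro c hc hcR
  rw [norm_Phi hc]
  apply Real.exp_le_exp.2
  have h1 := hB' c (by rwa [mem_closedBall_zero_iff])
  rw [Real.norm_eq_abs] at h1
  exact (le_abs_self _).trans h1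

theorem exists_Psi : ∃ g : ℂ → ℂ, DifferentiableOn ℂ g {z | 1 < ‖z‖} ∧
    MapsTo g {z | 1 < ‖z‖} Mc ∧ (∀ z ∈ Mc, g (Phi z) = z) ∧ ∀ w ∈ {z : ℂ | 1 < ‖z‖}, Phi (g w) = w :=
  differentiableOn_inv isOpen_Mc differentiableOn_Phi bijOn_Phi.1 bijOn_Phi.2

/-- the inverse of the Riemann map -/
noncomputable def Psi : ℂ → ℂ := exists_Psi.choose

/-- **The parameter map**: `cOf L` is the parameter with external coordinate `L`
(potential `re L`, angle `im L / 2 pi`). -/
noncomputable def cOf (L : ℂ) : ℂ := Psi (Complex.exp L)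

lemma exp_mem_ext {L : ℂ} (hL : 0 < L.re) : Complex.exp L ∈ {z : ℂ | 1 < ‖z‖} := by
  show 1 < ‖Complex.exp L‖
  rw [Complex.norm_exp]; exact Real.one_lt_exp_iff.2 hL

theorem cOf_mem {L : ℂ} (hL : 0 < L.re) : cOf L ∈ Mc :=
  exists_Psi.choose_spec.2.1 (exp_mem_ext hL)

theorem cOf_notMem {L : ℂ} (hL : 0 < L.re) : cOf L ∉ N62a1eb23.mandelbrotSet :=
  mem_Mc_iff.1 (cOf_mem hL)

theorem Phi_cOf {L : ℂ} (hL : 0 < L.re) : Phi (cOf L) = Complex.exp L :=
  exists_Psi.choose_spec.2.2.2 _ (exp_mem_ext hL)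

theorem G_cOf {L : ℂ} (hL : 0 < L.re) : G (cOf L) (cOf L) = L.re := by
  have h1 := norm_Phi (cOf_mem hL)
  rw [Phi_cOf hL, Complex.norm_exp] at h1
  exact (Real.exp_injective h1).symm

theorem G_cOf_zero {L : ℂ} (hL : 0 < L.re) : G (cOf L) 0 = L.re / 2 := by
  have h1 := G_self (cOf L)
  rw [G_cOf hL] at h1; linarith

/-- the critical value of `f (cOf L)` has Boettcher coordinate `L` -/
theorem eta_cOf {L : ℂ} (hL : 0 < L.re) : eta (cOf L) L = cOf L :=
  eta_of_exp (G0_lt_of_mem (cOf_mem hL)) (Phi_cOf hL).symm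

theorem differentiableOn_cOf : DifferentiableOn ℂ cOf {L | 0 < L.re} :=
  exists_Psi.choose_spec.1.comp Complex.differentiable_exp.differentiableOn
    fun _ hL => exp_mem_ext hL

theorem continuousOn_cOf : ContinuousOn cOf {L | 0 < L.re} := differentiableOn_cOf.continuousOn

/-- uniqueness of the parameter with given external coordinate -/
theorem cOf_unique {c L : ℂ} (hc : c ∉ N62a1eb23.mandelbrotSet) (hL : G c 0 < L.re)
    (h : eta c L = c) : cOf L = c := by
  have hcM := mem_Mc_iff.2 hc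
  have h1 : Phi c = Complex.exp L := by
    have h2 := phi_eta hL
    rw [h] at h2; exact h2
  rw [cOf, ← h1]
  exact exists_Psi.choose_spec.2.2.1 c hcM

/-- surjectivity -/
theorem exists_cOf {c : ℂ} (hc : c ∉ N62a1eb23.mandelbrotSet) :
    ∃ L : ℂ, L.re = G c c ∧ 0 < L.re ∧ cOf L = c := by
  have hcM := mem_Mc_iff.2 hc
  obtain ⟨L, hL, hη⟩ := eta_surj (G0_lt_of_mem hcM)
  exact ⟨L, hL, by rw [hL]; exact hcM, cOf_unique hc (by rw [hL]; exact G0_lt_of_mem hcM) hη⟩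

theorem cOf_eq_iff {L L' : ℂ} (hL : 0 < L.re) (hL' : 0 < L'.re) :
    cOf L = cOf L' ↔ ∃ k : ℤ, L' = L + 2 * Real.pi * Complex.I * k := by
  have h1 : cOf L = cOf L' ↔ Complex.exp L' = Complex.exp L := by
    constructor
    · intro h; rw [← Phi_cOf hL, ← Phi_cOf hL', h]
    · intro h; rw [cOf, cOf, h]
  rw [h1, Complex.exp_eq_exp_iff_exists_int]
  constructor
  · rintro ⟨k, hk⟩; exact ⟨k, by rw [hk]; ring⟩
  · rintro ⟨k, hk⟩; exact ⟨k, by rw [hk]; ring⟩

theorem cOf_add_two_pi (L : ℂ) : cOf (L + 2 * Real.pi * Complex.I) = cOf L := by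
  rw [cOf, Complex.exp_add, Complex.exp_two_pi_mul_I, mul_one, cOf]

theorem deriv_cOf_ne_zero {L : ℂ} (hL : 0 < L.re) : deriv cOf L ≠ 0 := by
  have hopen : IsOpen {L : ℂ | 0 < L.re} := isOpen_lt continuous_const Complex.continuous_re
  have h1 : HasDerivAt cOf (deriv cOf L) L :=
    (differentiableOn_cOf.differentiableAt (hopen.mem_nhds hL)).hasDerivAt
  have h2 : HasDerivAt Phi (deriv Phi (cOf L)) (cOf L) :=
    (differentiableOn_Phi.differentiableAt (isOpen_Mc.mem_nhds (cOf_mem hL))).hasDerivAt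
  have h3 : HasDerivAt (Phi ∘ cOf) (deriv Phi (cOf L) * deriv cOf L) L := h2.comp L h1
  have h4 : HasDerivAt Complex.exp (deriv Phi (cOf L) * deriv cOf L) L := by
    refine h3.congr_of_eventuallyEq ?_
    filter_upwards [hopen.mem_nhds hL] with u hu
    exact (Phi_cOf hu).symm
  intro h0
  rw [h0, mul_zero] at h4
  exact Complex.exp_ne_zero L ((Complex.hasDerivAt_exp L).unique h4)

/-- the complement of the Mandelbrot set is the image of the right half plane -/
theorem image_cOf : cOf '' {L | 0 < L.re} = (N62a1eb23.mandelbrotSet)ᶜ := by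
  ext c
  constructor
  · rintro ⟨L, hL, rfl⟩; exact cOf_notMem hL
  · intro hc
    obtain ⟨L, -, h2, h3⟩ := exists_cOf hc
    exact ⟨L, h2, h3⟩

end Pool.Agent.Work.MLC
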