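import Pool.Agent.Work.MLC.PlyExt
import Pool.Agent.Work.MLC.Param34
import Pool.Agent.Work.MLC.Count
import Pool.Agent.Work.MLC.Label57

set_option autoImplicit false

/-! # Exterior pairs, lower periods allowed: words, uniqueness, openness (helper57) -/

namespace Pool.Agent.Work.MLC

open Filter Topology Metric Set Complex

/-- `c ∉ MM` has external angle `θ`, `it c n b = b` and `b` has itinerary `w` -/
def ExtP (n : ℕ) (c b : ℂ) (θ : ℝ) (w : ℕ → ℤ) : Prop :=
  0 < G c c ∧ eta c ((G c c : ℂ) + 2 * Real.pi * θ * I) = c ∧ it c n b = b ∧ Bits n w ∧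
    ∀ i, Side c (θ + w i) (it c i b)

/-- the angle of `c` -/
def Ang (c : ℂ) (θ : ℝ) : Prop := 0 < G c c ∧ eta c ((G c c : ℂ) + 2 * Real.pi * θ * I) = c

lemma Ang.BD {c : ℂ} {θ : ℝ} (h : Ang c θ) : BD c (G c c) (2 * Real.pi * θ) (eta c) :=
  BD_eta h.1 (by
    have h1 : ((G c c : ℝ) : ℂ) + ((2 * Real.pi * θ : ℝ) : ℂ) * I
        = (G c c : ℂ) + 2 * Real.pi * θ * I := by push_cast; ring
    rw [h1]; exact h.2)

lemma ExtP.ang {n : ℕ} {c b : ℂ} {θ : ℝ} {w : ℕ → ℤ} (h : ExtP n c b θ w) : Ang c θ := ⟨h.1, h.2.1⟩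

lemma mult_eq_mul (n : ℕ) (c b : ℂ) : mult n c b = mul n (c, b) := rfl

lemma exists_ang {c : ℂ} (hc : 0 < G c c) : ∃ θ : ℝ, Ang c θ := by
  obtain ⟨th, hB⟩ := exists_BD hc
  refine ⟨th / (2 * Real.pi), hc, ?_⟩
  have h1 := hB.crit
  have hpi := Real.pi_pos
  have h2 : ((G c c : ℝ) : ℂ) + 2 * Real.pi * ((th / (2 * Real.pi) : ℝ) : ℂ) * I
      = (G c c : ℂ) + th * I := by
    push_cast
    have : (Real.pi : ℂ) ≠ 0 := by exact_mod_cast hpi.ne'
    field_simp
  rw [h2]; exact h1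

lemma ang_cOf {g θ : ℝ} (hg : 0 < g) : Ang (cOf ((g : ℂ) + 2 * Real.pi * θ * I)) θ ∧
    G (cOf ((g : ℂ) + 2 * Real.pi * θ * I)) (cOf ((g : ℂ) + 2 * Real.pi * θ * I)) = g := by
  set L : ℂ := (g : ℂ) + 2 * Real.pi * θ * I with hL
  have hre : L.re = g := by simp [hL]
  have hLpos : 0 < L.re := by rw [hre]; exact hg
  have h1 := G_cOf hLpos
  rw [hre] at h1
  refine ⟨⟨by rw [h1]; exact hg, ?_⟩, h1⟩
  rw [h1]
  exact eta_cOf hLpos

/-- the data used by the exterior PLY inequality -/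
lemma ExtP.data {n : ℕ} (hn : 1 ≤ n) {c b : ℂ} {θ : ℝ} {w : ℕ → ℤ} (h : ExtP n c b θ w)
    {sq : ℂ → ℂ} (hS : SQ c (G c c) (2 * Real.pi * θ) (eta c) sq) :
    gc sq w n b = b ∧ b ∈ Ug c (G c c) := by
  have hB := h.ang.BD
  obtain ⟨hG, heta, hfix, hw, hside⟩ := h
  have hbs : ∀ m, it c m b = sb sq (w m) (it c (m + 1) b) := by
    intro m
    have := ((side_iff hB hS).1 (hside m)).2
    rw [← it_succ] at this
    exact this
  constructor
  · have := gc_itin hbs n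
    rwa [hfix] at this
  · show G c b < G c c
    rw [G_zero_of_per hn hfix]; exact hG

/-- **the exterior PLY inequality** -/
theorem extP_ply {n : ℕ} (hn : 1 ≤ n) {c b : ℂ} {θ : ℝ} {w : ℕ → ℤ} (h : ExtP n c b θ w)
    (hc : G c c ≤ 4) :
    1 < ‖mult n c b‖ ∧ ∃ ℓ : ℂ, Complex.exp ℓ = mult n c b ∧
      ‖ℓ - 2 * Real.pi * (Circ.nu w n θ : ℝ) * I‖ ^ 2 ≤ 81 * n * ℓ.re := by
  have hB := h.ang.BD
  obtain ⟨sq, hS⟩ := exists_SQ hB
  obtain ⟨hgc, hbU⟩ := h.data hn hS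
  have hw := h.2.2.2.1.per
  obtain ⟨hk, hK⟩ := exists_KD hB hS hn hw hbU hgc
  obtain ⟨L, hL1, hL2⟩ := ply_end hB hS hn hw hK hc rfl
  refine ⟨?_, L, by rw [hL1, ext_deriv_it], ?_⟩
  · have := hK.one_lt
    rwa [ext_deriv_it] at this
  have : (2 * Real.pi * (Circ.nu w n θ : ℝ) * I : ℂ) = 2 * Real.pi * I * (Circ.nu w n θ : ℝ) := by
    ring
  rw [this]
  exact hL2

/-- every periodic point has a word -/
theorem exists_extP_word {n : ℕ} (hn : 0 < n) {c b : ℂ} {θ : ℝ} (h : Ang c θ)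
    (hb : it c n b = b) : ∃ w, ExtP n c b θ w := by
  have hB := h.BD
  obtain ⟨sq, hS⟩ := exists_SQ hB
  obtain ⟨w, h1, h2, h3, h4, h5⟩ := exists_word hB hS hn hb
  refine ⟨w, h.1, h.2, hb, ⟨h1, h2⟩, fun i => ?_⟩
  rw [side_iff hB hS]
  have hG : G c b = 0 := G_zero_of_per hn hb
  refine ⟨?_, ?_⟩
  · rw [← it_succ, G_it_zero hG]
    exact h.1
  · rw [← it_succ]; exact h5 i

/-- the multiplier is repelling -/
theorem one_lt_norm_mult_of_ext {n : ℕ} (hn : 0 < n) {c b : ℂ} (hc : 0 < G c c)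
    (hb : it c n b = b) : 1 < ‖mult n c b‖ := by
  obtain ⟨θ, hθ⟩ := exists_ang hc
  obtain ⟨w, h⟩ := exists_extP_word hn hθ hb
  have hB := h.ang.BD
  obtain ⟨sq, hS⟩ := exists_SQ hB
  obtain ⟨hgc, hbU⟩ := h.data hn hS
  obtain ⟨hk, hK⟩ := exists_KD hB hS hn h.2.2.2.1.per hbU hgc
  have := hK.one_lt
  rwa [ext_deriv_it] at this

/-- the word determines the point -/
theorem extP_inj {n : ℕ} (hn : 0 < n) {c b b' : ℂ} {θ : ℝ} {w : ℕ → ℤ} (h : ExtP n c b θ w)
    (h' : ExtP n c b' θ w) : b = b' := by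
  have hB := h.ang.BD
  obtain ⟨sq, hS⟩ := exists_SQ hB
  obtain ⟨hgc, hbU⟩ := h.data hn hS
  obtain ⟨hgc', hbU'⟩ := h'.data hn hS
  have D := plySelf_gc (w := w) hB hS hn hbU hgc
  by_contra hne
  obtain ⟨k₀, hk₀⟩ := D.exists_iter_ball (dist b b') (dist_pos.2 hne)
  have h1 := hk₀ k₀ le_rfl b' hbU'
  have h2 : (gc sq w n)^[k₀] b' = b' := Function.iterate_fixed hgc' k₀
  rw [h2, mem_ball, dist_comm] at h1
  exact lt_irrefl _ h1

/-- for `c ∉ MM` there are exactly `2 ^ n` points with `it c n b = b` -/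
theorem card_fix_ext {n : ℕ} (hn : 0 < n) {c : ℂ} (hc : 0 < G c c) :
    (Cnt.fx c n).roots.toFinset.card = 2 ^ n := by
  classical
  rw [Multiset.toFinset_card_of_nodup, Cnt.card_roots_fx hn]
  rw [Multiset.nodup_iff_count_le_one]
  intro b
  rw [Polynomial.count_roots]
  by_contra hcon
  push Not at hcon
  have h0 := (Cnt.fx_monic hn c).ne_zero
  obtain ⟨h1, h2⟩ := (Polynomial.one_lt_rootMultiplicity_iff_isRoot h0).1 hcon
  have h3 : it c n b = b := (Cnt.mem_roots_fx hn).1 ((Polynomial.mem_roots h0).2 h1)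
  have h4 := one_lt_norm_mult_of_ext hn hc h3
  have h5 : Polynomial.eval b (Polynomial.derivative (Cnt.fx c n)) = mul n (c, b) - 1 := by
    rw [Cnt.fx, Polynomial.derivative_sub, Polynomial.derivative_X, Polynomial.eval_sub,
      Cnt.eval_derivative_pc, Polynomial.eval_one]
  rw [Polynomial.IsRoot, h5, sub_eq_zero] at h2
  rw [mult_eq_mul, h2] at h4
  simp at h4

/-- every word occurs -/
theorem exists_extP {n : ℕ} (hn : 0 < n) {c : ℂ} {θ : ℝ} (h : Ang c θ) {w : ℕ → ℤ}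
    (hw : Bits n w) : ∃ b, ExtP n c b θ w := by
  classical
  set S : Finset ℂ := (Cnt.fx c n).roots.toFinset with hS
  have hmem : ∀ b ∈ S, it c n b = b := fun b hb =>
    (Cnt.mem_roots_fx hn).1 (Multiset.mem_toFinset.1 hb)
  have hex : ∀ b : S, ∃ w, ExtP n c b θ w := fun b => exists_extP_word hn h (hmem b b.2)
  choose W hW using hex
  set code : S → (Fin n → Bool) := fun b i => decide (W b i = 1) with hcode
  have hWeq : ∀ (u v : ℕ → ℤ), Bits n u → Bits n v → (∀ i : Fin n, u i = 1 ↔ v i = 1) → u = v := by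
    intro u v hu hv huv
    have h1 : ∀ m : ℕ, ∀ i : ℕ, ∀ u : ℕ → ℤ, Bits n u → u (i + n * m) = u i := by
      intro m i u hu
      induction m with
      | zero => simp
      | succ m ih =>
        have : i + n * (m + 1) = (i + n * m) + n := by ring
        rw [this, hu.per, ih]
    funext i
    have h2 : i = i % n + n * (i / n) := (Nat.mod_add_div i n).symm
    rw [h2, h1 _ _ u hu, h1 _ _ v hv]
    have h3 := huv ⟨i % n, Nat.mod_lt _ hn⟩
    simp only at h3
    rcases hu.bit (i % n) with a | a <;> rcases hv.bit (i % n) with b | b <;> rw [a, b] <;>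
      rw [a, b] at h3 <;> simp at h3
  have hinj : Function.Injective code := by
    intro b b' hbb
    have h1 : W b = W b' := by
      refine hWeq _ _ (hW b).2.2.2.1 (hW b').2.2.2.1 fun i => ?_
      have h2 := congrFun hbb i
      simp only [hcode, decide_eq_decide] at h2
      exact h2
    apply Subtype.ext
    have h2 := hW b
    rw [h1] at h2
    exact extP_inj hn h2 (hW b')
  have hcard : Fintype.card S = Fintype.card (Fin n → Bool) := by
    rw [Fintype.card_coe, hS, card_fix_ext hn h.1, Fintype.card_fun, Fintype.card_bool,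
      Fintype.card_fin]
  have hbij : Function.Bijective code := (Fintype.bijective_iff_injective_and_card code).2
    ⟨hinj, hcard⟩
  obtain ⟨b, hb⟩ := hbij.2 (fun i => decide (w i = 1))
  refine ⟨b, ?_⟩
  have h1 : W b = w := by
    refine hWeq _ _ (hW b).2.2.2.1 hw fun i => ?_
    have h2 := congrFun hb i
    simp only [hcode, decide_eq_decide] at h2
    exact h2
  rw [← h1]
  exact hW b

/-- the angle is unique modulo one -/
theorem Ang.unique {c : ℂ} {θ θ' : ℝ} (h : Ang c θ) (h' : Ang c θ') : ∃ m : ℤ, θ' = θ + m := by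
  have hpi := Real.pi_pos
  have hG := h.1
  have h0 : G c 0 < G c c := by rw [G_zero_eq]; linarith
  have h1 : eta c ((G c c : ℂ) + 2 * Real.pi * θ * I) =
      eta c ((G c c : ℂ) + 2 * Real.pi * θ' * I) := h.2.trans h'.2.symm
  rw [eta_eq_iff (by simpa using h0) (by simpa using h0)] at h1
  obtain ⟨k, hk⟩ := h1
  refine ⟨k, ?_⟩
  have h2 := congrArg Complex.im hk
  simp at h2
  have h3 : 2 * Real.pi * (θ' - (θ + k)) = 0 := by linarith
  rcases mul_eq_zero.1 h3 with h4 | h4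
  · exfalso; linarith
  · linarith

/-- **uniqueness** of angle and word -/
theorem extP_unique {n : ℕ} {c b : ℂ} {θ θ' : ℝ} {w w' : ℕ → ℤ}
    (h : ExtP n c b θ w) (h' : ExtP n c b θ' w') :
    ∃ m : ℤ, θ' = θ + m ∧ ∀ i, Even (w' i - w i - m) := by
  obtain ⟨m, hm⟩ := h.ang.unique h'.ang
  refine ⟨m, hm, fun i => ?_⟩
  have hB := h.ang.BD
  obtain ⟨sq, hS⟩ := exists_SQ hB
  have h1 := ((side_iff hB hS).1 (h.2.2.2.2 i)).2
  have h2 := h'.2.2.2.2 i
  have h3 : θ' + w' i = θ + ((m + w' i : ℤ) : ℝ) := by rw [hm]; push_cast; ring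
  rw [h3] at h2
  have h4 := ((side_iff hB hS).1 h2)
  have hnr : f c (it c i b) ∉ ray (eta c) (G c c) (2 * Real.pi * θ) := by
    refine hB.Ug_ray ?_
    exact h4.1
  obtain ⟨-, k, hk⟩ := hS.sb_disj hnr hnr (h1.symm.trans h4.2)
  exact ⟨-k - m, by omega⟩

/-- the label of an exterior pair does not depend on the choices -/
theorem extP_lab_unique {n : ℕ} {c b : ℂ} {θ θ' : ℝ} {w w' : ℕ → ℤ}
    (h : ExtP n c b θ w) (h' : ExtP n c b θ' w') : lab n θ' w' = lab n θ w := by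
  obtain ⟨m, h1, h2⟩ := extP_unique h h'
  exact lab_congr h.2.2.2.1 h'.2.2.2.1 m h1 h2

end Pool.Agent.Work.MLC
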