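import Mathlib
import Pool.Prelude.Def_F_c31e40fa

set_option autoImplicit false

/-! # The escape-rate (Green) function of `z ^ 2 + c`  (helper56) -/

namespace Pool.Agent.Work.MLC

open Filter Topology Metric Set

/-- the quadratic map -/
noncomputable def f (c z : ℂ) : ℂ := z ^ 2 + c

/-- the `n`-th iterate of the quadratic map -/
noncomputable def it (c : ℂ) (n : ℕ) (z : ℂ) : ℂ := (f c)^[n] z

lemma f_apply (c z : ℂ) : f c z = z ^ 2 + c := rfl

@[simp] lemma it_zero (c z : ℂ) : it c 0 z = z := rfl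

lemma it_succ (c : ℂ) (n : ℕ) (z : ℂ) : it c (n + 1) z = f c (it c n z) := by
  simp [it, Function.iterate_succ_apply']

lemma it_succ' (c : ℂ) (n : ℕ) (z : ℂ) : it c (n + 1) z = it c n (f c z) := by
  simp [it, Function.iterate_succ_apply]

@[simp] lemma it_one (c z : ℂ) : it c 1 z = f c z := rfl

lemma it_add (c : ℂ) (m n : ℕ) (z : ℂ) : it c (m + n) z = it c m (it c n z) := by
  simp [it, Function.iterate_add_apply]

lemma it_mul (c : ℂ) (n k : ℕ) (z : ℂ) : it c (n * k) z = (it c n)^[k] z := by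
  simp only [it, Function.iterate_mul]
  rfl

@[fun_prop] lemma continuous_f : Continuous fun p : ℂ × ℂ => f p.1 p.2 := by
  unfold f; fun_prop

@[fun_prop] lemma continuous_it (n : ℕ) : Continuous fun p : ℂ × ℂ => it p.1 n p.2 := by
  induction n with
  | zero => exact continuous_snd
  | succ n ih =>
    have : (fun p : ℂ × ℂ => it p.1 (n + 1) p.2) = fun p => (it p.1 n p.2) ^ 2 + p.1 := by
      funext p; rw [it_succ]; rfl
    rw [this]; fun_prop

@[fun_prop] lemma differentiable_it (n : ℕ) :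
    Differentiable ℂ fun p : ℂ × ℂ => it p.1 n p.2 := by
  induction n with
  | zero => exact differentiable_snd
  | succ n ih =>
    have : (fun p : ℂ × ℂ => it p.1 (n + 1) p.2) = fun p => (it p.1 n p.2) ^ 2 + p.1 := by
      funext p; rw [it_succ]; rfl
    rw [this]; fun_prop

lemma differentiable_it_right (c : ℂ) (n : ℕ) : Differentiable ℂ (it c n) :=
  (differentiable_it n).comp (Differentiable.prodMk (differentiable_const c) differentiable_id)

lemma continuous_it_right (c : ℂ) (n : ℕ) : Continuous (it c n) :=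
  (differentiable_it_right c n).continuous

/-! ### elementary estimates -/

lemma posLog_f_le (c z : ℂ) :
    Real.posLog ‖f c z‖ ≤ 2 * Real.posLog ‖z‖ + Real.log (1 + ‖c‖) := by
  have h1 : ‖f c z‖ ≤ (1 + ‖c‖) * max 1 ‖z‖ ^ 2 := by
    have h2 : ‖f c z‖ ≤ ‖z‖ ^ 2 + ‖c‖ := by
      unfold f
      calc ‖z ^ 2 + c‖ ≤ ‖z ^ 2‖ + ‖c‖ := norm_add_le _ _
        _ = _ := by rw [norm_pow]
    have h3 : (1 : ℝ) ≤ max 1 ‖z‖ := le_max_left _ _
    have h4 : ‖z‖ ≤ max 1 ‖z‖ := le_max_right _ _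
    have h5 : ‖z‖ ^ 2 ≤ max 1 ‖z‖ ^ 2 := by gcongr
    have h6 : (1 : ℝ) ≤ max 1 ‖z‖ ^ 2 := one_le_pow₀ h3
    nlinarith [norm_nonneg c]
  have h3 : (1 : ℝ) ≤ max 1 ‖z‖ := le_max_left _ _
  have h7 : Real.posLog ‖f c z‖ ≤ Real.posLog ((1 + ‖c‖) * max 1 ‖z‖ ^ 2) :=
    Real.posLog_le_posLog (norm_nonneg _) h1
  refine h7.trans ?_
  have h8 : (1 : ℝ) ≤ (1 + ‖c‖) * max 1 ‖z‖ ^ 2 := by
    have := one_le_pow₀ (n := 2) h3
    nlinarith [norm_nonneg c]
  rw [Real.posLog_eq_log (by rwa [abs_of_nonneg (by positivity)]),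
    Real.log_mul (by positivity) (by positivity), Real.log_pow,
    Real.posLog_eq_log_max_one (norm_nonneg z)]
  push_cast
  linarith

lemma le_posLog_f (c z : ℂ) :
    2 * Real.posLog ‖z‖ ≤ Real.posLog ‖f c z‖ + Real.log (1 + ‖c‖) := by
  have h1 : ‖z‖ ^ 2 ≤ (1 + ‖c‖) * max 1 ‖f c z‖ := by
    have h2 : ‖z‖ ^ 2 ≤ ‖f c z‖ + ‖c‖ := by
      have : z ^ 2 = f c z - c := by unfold f; ring
      calc ‖z‖ ^ 2 = ‖z ^ 2‖ := by rw [norm_pow]
        _ = ‖f c z - c‖ := by rw [this]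
        _ ≤ _ := norm_sub_le _ _
    have h3 : (1 : ℝ) ≤ max 1 ‖f c z‖ := le_max_left _ _
    have h4 : ‖f c z‖ ≤ max 1 ‖f c z‖ := le_max_right _ _
    nlinarith [norm_nonneg c]
  have h3 : (1 : ℝ) ≤ max 1 ‖f c z‖ := le_max_left _ _
  have h7 : Real.posLog (‖z‖ ^ 2) ≤ Real.posLog ((1 + ‖c‖) * max 1 ‖f c z‖) :=
    Real.posLog_le_posLog (by positivity) h1
  rw [Real.posLog_pow] at h7
  have h8 : (1 : ℝ) ≤ (1 + ‖c‖) * max 1 ‖f c z‖ := by nlinarith [norm_nonneg c]
  rw [Real.posLog_eq_log (x := (1 + ‖c‖) * max 1 ‖f c z‖)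
    (by rwa [abs_of_nonneg (by positivity)]),
    Real.log_mul (by positivity) (by positivity)] at h7
  rw [Real.posLog_eq_log_max_one (norm_nonneg (f c z))]
  push_cast at h7
  linarith

lemma log_one_add_norm_nonneg (c : ℂ) : 0 ≤ Real.log (1 + ‖c‖) :=
  Real.log_nonneg (by linarith [norm_nonneg c])

/-- the approximants of the Green function -/
noncomputable def Gn (c : ℂ) (n : ℕ) (z : ℂ) : ℝ := Real.posLog ‖it c n z‖ / 2 ^ n

lemma Gn_zero (c z : ℂ) : Gn c 0 z = Real.posLog ‖z‖ := by simp [Gn]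

lemma Gn_nonneg (c : ℂ) (n : ℕ) (z : ℂ) : 0 ≤ Gn c n z :=
  div_nonneg Real.posLog_nonneg (by positivity)

lemma abs_Gn_succ_sub (c : ℂ) (n : ℕ) (z : ℂ) :
    |Gn c (n + 1) z - Gn c n z| ≤ Real.log (1 + ‖c‖) / 2 ^ (n + 1) := by
  have h1 := posLog_f_le c (it c n z)
  have h2 := le_posLog_f c (it c n z)
  have h3 : Gn c (n + 1) z - Gn c n z =
      (Real.posLog ‖f c (it c n z)‖ - 2 * Real.posLog ‖it c n z‖) / 2 ^ (n + 1) := by
    unfold Gn; rw [it_succ, pow_succ]; field_simp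
  rw [h3, abs_div, abs_of_pos (by positivity : (0 : ℝ) < 2 ^ (n + 1))]
  gcongr
  rw [abs_le]; constructor <;> linarith

lemma abs_Gn_sub (c : ℂ) (n k : ℕ) (z : ℂ) :
    |Gn c (n + k) z - Gn c n z| ≤ Real.log (1 + ‖c‖) / 2 ^ n * (1 - 1 / 2 ^ k) := by
  induction k with
  | zero => simp
  | succ k ih =>
    have h1 := abs_Gn_succ_sub c (n + k) z
    have h2 : |Gn c (n + (k + 1)) z - Gn c n z| ≤
        |Gn c (n + k + 1) z - Gn c (n + k) z| + |Gn c (n + k) z - Gn c n z| := by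
      have : Gn c (n + (k + 1)) z - Gn c n z =
        (Gn c (n + k + 1) z - Gn c (n + k) z) + (Gn c (n + k) z - Gn c n z) := by
        rw [← add_assoc]; ring
      rw [this]; exact abs_add_le _ _
    have h3 : Real.log (1 + ‖c‖) / 2 ^ (n + k + 1) +
        Real.log (1 + ‖c‖) / 2 ^ n * (1 - 1 / 2 ^ k) =
        Real.log (1 + ‖c‖) / 2 ^ n * (1 - 1 / 2 ^ (k + 1)) := by
      rw [pow_succ, pow_add, pow_succ]; field_simp; ring
    linarith

lemma abs_Gn_sub_le (c : ℂ) {n m : ℕ} (h : n ≤ m) (z : ℂ) :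
    |Gn c m z - Gn c n z| ≤ Real.log (1 + ‖c‖) / 2 ^ n := by
  obtain ⟨k, rfl⟩ := Nat.exists_eq_add_of_le h
  refine (abs_Gn_sub c n k z).trans ?_
  have h1 : 0 ≤ Real.log (1 + ‖c‖) / 2 ^ n :=
    div_nonneg (log_one_add_norm_nonneg c) (by positivity)
  have h2 : (0 : ℝ) ≤ 1 / 2 ^ k := by positivity
  nlinarith

lemma exists_tendsto_Gn (c z : ℂ) : ∃ g, Tendsto (fun n => Gn c n z) atTop (𝓝 g) := by
  apply cauchySeq_tendsto_of_complete
  refine cauchySeq_of_le_geometric_two (C := Real.log (1 + ‖c‖)) ?_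
  intro n
  rw [dist_comm, Real.dist_eq]
  refine (abs_Gn_succ_sub c n z).trans (le_of_eq ?_)
  rw [pow_succ]; field_simp

/-- the Green function of the filled Julia set of `z ^ 2 + c` -/
noncomputable def G (c z : ℂ) : ℝ := (exists_tendsto_Gn c z).choose

lemma tendsto_Gn (c z : ℂ) : Tendsto (fun n => Gn c n z) atTop (𝓝 (G c z)) :=
  (exists_tendsto_Gn c z).choose_spec

lemma abs_G_sub_Gn (c z : ℂ) (n : ℕ) :
    |G c z - Gn c n z| ≤ Real.log (1 + ‖c‖) / 2 ^ n := by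
  have h1 : Tendsto (fun m => |Gn c m z - Gn c n z|) atTop (𝓝 |G c z - Gn c n z|) :=
    ((tendsto_Gn c z).sub_const _).abs
  refine le_of_tendsto h1 ?_
  filter_upwards [eventually_ge_atTop n] with m hm
  exact abs_Gn_sub_le c hm z

lemma abs_G_sub_posLog (c z : ℂ) : |G c z - Real.posLog ‖z‖| ≤ Real.log (1 + ‖c‖) := by
  have := abs_G_sub_Gn c z 0
  simpa [Gn] using this

lemma G_nonneg (c z : ℂ) : 0 ≤ G c z :=
  ge_of_tendsto' (tendsto_Gn c z) fun n => Gn_nonneg c n z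

lemma G_f (c z : ℂ) : G c (f c z) = 2 * G c z := by
  have h1 := (tendsto_Gn c z).comp (tendsto_add_atTop_nat 1)
  have h2 := (tendsto_Gn c (f c z))
  have h3 : (fun n => Gn c n (f c z)) = fun n => 2 * ((fun n => Gn c n z) ∘ fun n => n + 1) n := by
    funext n
    simp only [Function.comp, Gn]
    rw [it_succ', pow_succ]; field_simp
  rw [h3] at h2
  exact tendsto_nhds_unique h2 (h1.const_mul 2)

lemma G_it (c z : ℂ) (n : ℕ) : G c (it c n z) = 2 ^ n * G c z := by
  induction n with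
  | zero => simp
  | succ n ih => rw [it_succ, G_f, ih, pow_succ]; ring

lemma G_neg (c z : ℂ) : G c (-z) = G c z := by
  have h1 := G_f c z
  have h2 := G_f c (-z)
  have h3 : f c (-z) = f c z := by unfold f; ring
  rw [h3] at h2; linarith

/-- joint continuity -/
theorem continuous_G : Continuous fun p : ℂ × ℂ => G p.1 p.2 := by
  have h1 : TendstoLocallyUniformly (fun (n : ℕ) (p : ℂ × ℂ) => Gn p.1 n p.2)
      (fun p : ℂ × ℂ => G p.1 p.2) atTop := by
    rw [Metric.tendstoLocallyUniformly_iff]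
    intro ε hε p
    refine ⟨{q : ℂ × ℂ | ‖q.1‖ < ‖p.1‖ + 1}, ?_, ?_⟩
    · refine (isOpen_lt (by fun_prop) continuous_const).mem_nhds ?_
      show ‖p.1‖ < ‖p.1‖ + 1
      linarith
    · have h2 : Tendsto (fun n : ℕ => Real.log (1 + (‖p.1‖ + 1)) / 2 ^ n) atTop (𝓝 0) := by
        have := tendsto_pow_atTop_nhds_zero_of_lt_one (r := (1 / 2 : ℝ)) (by norm_num)
          (by norm_num)
        have h3 := this.const_mul (Real.log (1 + (‖p.1‖ + 1)))
        rw [mul_zero] at h3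
        refine h3.congr fun n => ?_
        rw [one_div, inv_pow]; rfl
      filter_upwards [h2.eventually (gt_mem_nhds hε)] with n hn q hq
      rw [Real.dist_eq]
      refine (abs_G_sub_Gn q.1 q.2 n).trans_lt (lt_of_le_of_lt ?_ hn)
      have hq' : ‖q.1‖ < ‖p.1‖ + 1 := hq
      gcongr
  refine h1.continuous (Eventually.frequently (Eventually.of_forall fun n => ?_))
  unfold Gn
  exact (Real.continuous_posLog.comp (continuous_it n).norm).div_const _

lemma continuous_G_right (c : ℂ) : Continuous (G c) := by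
  have h1 : Continuous (fun z : ℂ => ((c, z) : ℂ × ℂ)) := by fun_prop
  have h2 : Continuous ((fun p : ℂ × ℂ => G p.1 p.2) ∘ fun z : ℂ => ((c, z) : ℂ × ℂ)) :=
    Continuous.comp continuous_G h1
  exact h2

/-! ### boundedness -/

lemma norm_le_of_G_zero {c z : ℂ} (h : G c z = 0) : ‖z‖ ≤ 1 + ‖c‖ := by
  have h1 := abs_G_sub_posLog c z
  rw [h, zero_sub, abs_neg, abs_of_nonneg Real.posLog_nonneg] at h1
  by_cases h2 : ‖z‖ ≤ 1
  · linarith [norm_nonneg c]
  · push Not at h2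
    rw [Real.posLog_eq_log (by rw [abs_of_nonneg (norm_nonneg _)]; exact h2.le)] at h1
    exact (Real.log_le_log_iff (by linarith) (by linarith [norm_nonneg c])).1 h1

lemma norm_it_le_of_G_zero {c z : ℂ} (h : G c z = 0) (n : ℕ) : ‖it c n z‖ ≤ 1 + ‖c‖ := by
  apply norm_le_of_G_zero
  rw [G_it, h, mul_zero]

lemma G_zero_of_bdd {c z : ℂ} {B : ℝ} (h : ∃ᶠ n in atTop, ‖it c n z‖ ≤ B) : G c z = 0 := by
  by_contra h0
  have hpos : 0 < G c z := lt_of_le_of_ne (G_nonneg c z) (Ne.symm h0)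
  have h1 : Tendsto (fun n : ℕ => (2 : ℝ) ^ n * G c z) atTop atTop :=
    (tendsto_pow_atTop_atTop_of_one_lt (by norm_num)).atTop_mul_const hpos
  have h2 := h1.eventually_gt_atTop (Real.posLog B + Real.log (1 + ‖c‖))
  obtain ⟨n, hn, hn2⟩ := (h.and_eventually h2).exists
  rw [← G_it] at hn2
  have h3 := (abs_le.1 (abs_G_sub_posLog c (it c n z))).2
  have h4 : Real.posLog ‖it c n z‖ ≤ Real.posLog B :=
    Real.posLog_le_posLog (norm_nonneg _) hn
  linarith

/-- `G c z = 0` iff the orbit of `z` is bounded (by `1 + ‖c‖`). -/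
theorem G_eq_zero_iff {c z : ℂ} : G c z = 0 ↔ ∀ n, ‖it c n z‖ ≤ 1 + ‖c‖ :=
  ⟨fun h n => norm_it_le_of_G_zero h n,
    fun h => G_zero_of_bdd (Frequently.of_forall h)⟩

lemma G_pos_iff {c z : ℂ} : 0 < G c z ↔ G c z ≠ 0 :=
  ⟨fun h => h.ne', fun h => lt_of_le_of_ne (G_nonneg c z) (Ne.symm h)⟩

/-- if `0 < G c z` the orbit of `z` tends to infinity -/
theorem tendsto_it_of_G_pos {c z : ℂ} (h : 0 < G c z) :
    Tendsto (fun n => ‖it c n z‖) atTop atTop := by
  rw [Filter.tendsto_atTop]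
  intro B
  by_contra h1
  rw [not_eventually] at h1
  have h2 : G c z = 0 := G_zero_of_bdd (B := B) (h1.mono fun n hn => (not_le.1 hn).le)
  exact h.ne' h2

lemma tendsto_it_iff {c z : ℂ} :
    Tendsto (fun n => it c n z) atTop (Bornology.cobounded ℂ) ↔ 0 < G c z := by
  rw [← tendsto_norm_atTop_iff_cobounded]
  constructor
  · intro h
    rw [G_pos_iff]
    intro h0
    have h1 := h.eventually_gt_atTop (1 + ‖c‖)
    obtain ⟨n, hn⟩ := h1.exists
    exact absurd (norm_it_le_of_G_zero h0 n) (not_le.2 hn)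
  · exact tendsto_it_of_G_pos

/-- the Mandelbrot set of the frozen statement -/
theorem mem_M_iff {c : ℂ} : c ∈ N62a1eb23.mandelbrotSet ↔ G c 0 = 0 := by
  have h1 : c ∈ N62a1eb23.mandelbrotSet ↔
      ¬ Tendsto (fun n => it c n 0) atTop (Bornology.cobounded ℂ) := Iff.rfl
  rw [h1, tendsto_it_iff, not_lt]
  exact ⟨fun h => le_antisymm h (G_nonneg c 0), fun h => h.le⟩

theorem mem_M_iff' {c : ℂ} : c ∈ N62a1eb23.mandelbrotSet ↔ G c c = 0 := by
  have h1 := G_f c 0
  have h2 : f c 0 = c := by simp [f]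
  rw [h2] at h1
  rw [mem_M_iff, h1]
  constructor
  · intro h; rw [h, mul_zero]
  · intro h; linarith

/-- the filled Julia set -/
def Kf (c : ℂ) : Set ℂ := {z | G c z = 0}

lemma isClosed_Kf (c : ℂ) : IsClosed (Kf c) :=
  isClosed_eq (continuous_G_right c) continuous_const

lemma isCompact_Kf (c : ℂ) : IsCompact (Kf c) :=
  (isCompact_closedBall (0 : ℂ) (1 + ‖c‖)).of_isClosed_subset (isClosed_Kf c) fun z hz => by
    rw [mem_closedBall_zero_iff]; exact norm_le_of_G_zero hz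

/-- sublevel sets of `G c` are compact -/
lemma isCompact_G_le (c : ℂ) (t : ℝ) : IsCompact {z | G c z ≤ t} := by
  refine (isCompact_closedBall (0 : ℂ) (Real.exp (t + Real.log (1 + ‖c‖)) + 1)).of_isClosed_subset
    (isClosed_le (continuous_G_right c) continuous_const) fun z hz => ?_
  rw [mem_closedBall_zero_iff]
  have hz' : G c z ≤ t := hz
  have h1 := (abs_le.1 (abs_G_sub_posLog c z)).1
  by_cases h2 : ‖z‖ ≤ 1
  · linarith [Real.exp_pos (t + Real.log (1 + ‖c‖))]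
  · push Not at h2
    rw [Real.posLog_eq_log (by rw [abs_of_nonneg (norm_nonneg _)]; exact h2.le)] at h1
    have h3 : Real.log ‖z‖ ≤ t + Real.log (1 + ‖c‖) := by linarith
    have h4 := Real.exp_le_exp.2 h3
    rw [Real.exp_log (by linarith)] at h4
    linarith

end Pool.Agent.Work.MLC
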