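import Mathlib
import Pool.Agent.Work.MLC.Green

set_option autoImplicit false

/-! # Common definitions for the exterior PLY inequality (files `Ply*.lean`)  (helper14)

Angles are in radians here: `E ζ` is the point with Boettcher coordinate `exp ζ`. -/

namespace Pool.Agent.Work.MLC

open Filter Topology Metric Set Complex

/-- properties of the logarithmic inverse Boettcher map `E = eta_c` on `{g / 2 < Re}`
(`g = G c c`, `c = E (g + i th)`) that the exterior PLY inequality uses. -/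
structure BD (c : ℂ) (g th : ℝ) (E : ℂ → ℂ) : Prop where
  pos : 0 < g
  G_c : G c c = g
  hol : DifferentiableOn ℂ E {z | g / 2 < z.re}
  dbl : ∀ z : ℂ, g / 2 < z.re → E (2 * z) = f c (E z)
  per : ∀ z : ℂ, g / 2 < z.re → E (z + 2 * Real.pi * I) = E z
  odd : ∀ z : ℂ, g / 2 < z.re → E (z + Real.pi * I) = - E z
  inj : ∀ z z' : ℂ, g / 2 < z.re → g / 2 < z'.re → E z = E z' →
    ∃ k : ℤ, z = z' + k * (2 * Real.pi * I)
  G_E : ∀ z : ℂ, g / 2 < z.re → G c (E z) = z.re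
  surj : ∀ y : ℂ, g / 2 < G c y → ∃ z : ℂ, z.re = G c y ∧ E z = y
  crit : E (g + th * I) = c
  asym : Tendsto (fun z => E z / Complex.exp z) (comap Complex.re atTop) (𝓝 1)

/-- the ray above the critical value -/
def ray (E : ℂ → ℂ) (g th : ℝ) : Set ℂ := {z | ∃ r : ℝ, g ≤ r ∧ z = E (r + th * I)}

/-- the inverse branch `s = s₀` of `z ^ 2 + c` off the ray above the critical value -/
structure SQ (c : ℂ) (g th : ℝ) (E s : ℂ → ℂ) : Prop where
  hol : DifferentiableOn ℂ s (ray E g th)ᶜ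
  sq : ∀ z ∉ ray E g th, s z ^ 2 = z - c
  log : ∃ l : ℂ → ℂ, ContinuousOn l (ray E g th)ᶜ ∧
    ∀ z ∉ ray E g th, s z = Complex.exp (l z)
  norm0 : ∀ z : ℂ, g < z.re → th < z.im → z.im < th + 2 * Real.pi → s (E z) = E (z / 2)

/-- the two branches `s_e = (-1) ^ e s`, `e : ℤ` (only the parity of `e` matters) -/
noncomputable def sb (s : ℂ → ℂ) (e : ℤ) (z : ℂ) : ℂ := (-1) ^ e * s z

/-- the composition `g_m = s_{w 0} ∘ ... ∘ s_{w (m - 1)}` -/
noncomputable def gc (s : ℂ → ℂ) (w : ℕ → ℤ) : ℕ → ℂ → ℂ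
  | 0, z => z
  | m + 1, z => gc s w m (sb s (w m) z)

/-- the disc `{G < g}` -/
def Ug (c : ℂ) (g : ℝ) : Set ℂ := {z | G c z < g}

/-- Koenigs data on `U = {G < g}` for a periodic word `w` of period `n`:
`b` is the fixed point of `g_n`, `ρ` its multiplier under `f^n`, `h` the Koenigs map. -/
structure KD (c : ℂ) (g : ℝ) (s : ℂ → ℂ) (w : ℕ → ℤ) (n : ℕ) (b ρ : ℂ) (h : ℂ → ℂ) : Prop where
  b_mem : b ∈ Ug c g
  fix : gc s w n b = b
  rho : ρ = deriv (it c n) b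
  one_lt : 1 < ‖ρ‖
  hol : DifferentiableOn ℂ h (Ug c g)
  inj : InjOn h (Ug c g)
  zero : h b = 0
  koe : ∀ z ∈ Ug c g, h (gc s w n z) = h z / ρ
  /-- `h z = ρ ^ k h₀ (g_n^k z)` with the local Koenigs map `h₀ y = (y - b) u(y)`, `|u - 1| < 1`. -/
  form : ∃ (k : ℕ) (q : ℂ → ℂ), ContinuousOn q (Ug c g) ∧ (∀ z ∈ Ug c g, ‖q z - 1‖ < 1) ∧
    ∀ z ∈ Ug c g, h z = ρ ^ k * (gc s w (n * k) z - b) * q z

lemma gc_zero (s : ℂ → ℂ) (w : ℕ → ℤ) (z : ℂ) : gc s w 0 z = z := rfl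

lemma gc_succ (s : ℂ → ℂ) (w : ℕ → ℤ) (m : ℕ) (z : ℂ) :
    gc s w (m + 1) z = gc s w m (sb s (w m) z) := rfl

lemma gc_add (s : ℂ → ℂ) (w : ℕ → ℤ) (m k : ℕ) (z : ℂ) :
    gc s w (m + k) z = gc s w m (gc s (fun i => w (m + i)) k z) := by
  induction k generalizing z with
  | zero => rfl
  | succ k ih => rw [← add_assoc, gc_succ, ih, gc_succ]

lemma gc_succ' (s : ℂ → ℂ) (w : ℕ → ℤ) (m : ℕ) (z : ℂ) :
    gc s w (m + 1) z = sb s (w 0) (gc s (fun i => w (i + 1)) m z) := by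
  rw [add_comm, gc_add, gc_succ, gc_zero]
  congr 2
  funext i
  rw [add_comm]

end Pool.Agent.Work.MLC
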