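import Mathlib
import Pool.Agent.Work.MLC.PlyDefs

set_option autoImplicit false

/-! # Basic lemmas from `BD` and `SQ`  (helper14) -/

namespace Pool.Agent.Work.MLC

open Filter Topology Metric Set Complex

variable {c : ℂ} {g th : ℝ} {E s : ℂ → ℂ}

lemma isOpen_Ug (c : ℂ) (g : ℝ) : IsOpen (Ug c g) :=
  isOpen_lt (continuous_G_right c) continuous_const

lemma Ug_mono {g g' : ℝ} (h : g ≤ g') : Ug c g ⊆ Ug c g' := fun _ hz => lt_of_lt_of_le hz h

namespace BD

lemma G_ray (hB : BD c g th E) {z : ℂ} (hz : z ∈ ray E g th) : g ≤ G c z := by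
  obtain ⟨r, hr, rfl⟩ := hz
  have hp := hB.pos
  rw [hB.G_E _ (by simp; linarith)]
  simpa using hr

lemma Ug_ray (hB : BD c g th E) : Ug c g ⊆ (ray E g th)ᶜ := fun z hz hr =>
  absurd (hB.G_ray hr) (not_le.2 hz)

lemma c_notMem (hB : BD c g th E) : c ∉ Ug c g := fun h => by
  have : G c c < g := h
  rw [hB.G_c] at this
  exact lt_irrefl _ this

lemma E_ne_ray (hB : BD c g th E) {z : ℂ} (hz : g / 2 < z.re)
    (h : ∀ k : ℤ, z.im ≠ th + k * (2 * Real.pi)) : E z ∉ ray E g th := by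
  rintro ⟨r, hr, hE⟩
  have hp := hB.pos
  obtain ⟨k, hk⟩ := hB.inj z _ hz (by simp; linarith) hE
  have := congrArg Complex.im hk
  apply h k
  simpa using this

lemma E_mem (hB : BD c g th E) {z : ℂ} (hz : g / 2 < z.re) {g' : ℝ} (h : z.re < g') :
    E z ∈ Ug c g' := by
  show G c (E z) < g'
  rwa [hB.G_E z hz]

lemma per_int (hB : BD c g th E) {z : ℂ} (hz : g / 2 < z.re) (k : ℤ) :
    E (z + k * (2 * Real.pi * I)) = E z := by
  have hre : ∀ k : ℤ, (z + k * (2 * Real.pi * I)).re = z.re := fun k => by simp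
  induction k using Int.induction_on with
  | zero => simp
  | succ k ih =>
    have := hB.per (z + (k : ℤ) * (2 * Real.pi * I)) (by rw [hre]; exact hz)
    rw [← ih, ← this]
    congr 1
    push_cast; ring
  | pred k ih =>
    have := hB.per (z + ((-(k : ℤ) - 1 : ℤ) : ℂ) * (2 * Real.pi * I)) (by rw [hre]; exact hz)
    rw [← ih, ← this]
    congr 1
    push_cast; ring

lemma odd_int (hB : BD c g th E) {z : ℂ} (hz : g / 2 < z.re) (k : ℤ) :
    E (z + k * (Real.pi * I)) = (-1) ^ k * E z := by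
  have hre : ∀ k : ℤ, (z + k * (Real.pi * I)).re = z.re := fun k => by simp
  induction k using Int.induction_on with
  | zero => simp
  | succ k ih =>
    have := hB.odd (z + (k : ℤ) * (Real.pi * I)) (by rw [hre]; exact hz)
    rw [zpow_add_one₀ (by norm_num : (-1 : ℂ) ≠ 0), mul_right_comm, ← ih, mul_neg_one, ← this]
    congr 1
    push_cast; ring
  | pred k ih =>
    have := hB.odd (z + ((-(k : ℤ) - 1 : ℤ) : ℂ) * (Real.pi * I)) (by rw [hre]; exact hz)
    rw [zpow_sub_one₀ (by norm_num : (-1 : ℂ) ≠ 0), mul_right_comm, ← ih]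
    have h2 : z + ((-(k : ℤ) - 1 : ℤ) : ℂ) * (Real.pi * I) + Real.pi * I
        = z + ((-(k : ℤ) : ℤ) : ℂ) * (Real.pi * I) := by push_cast; ring
    rw [h2] at this
    rw [this]
    norm_num

end BD

lemma sb_sq (s : ℂ → ℂ) (e : ℤ) (z : ℂ) : sb s e z ^ 2 = s z ^ 2 := by
  unfold sb
  rw [mul_pow, ← zpow_natCast, ← zpow_mul, mul_comm e, zpow_mul]
  norm_num

lemma sb_eq (s : ℂ → ℂ) (e : ℤ) : (∀ z, sb s e z = s z) ∨ (∀ z, sb s e z = - s z) := by
  rcases Int.even_or_odd e with he | he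
  · left; intro z; unfold sb; rw [he.neg_one_zpow, one_mul]
  · right; intro z; unfold sb; rw [he.neg_one_zpow, neg_one_mul]

lemma sb_add_two (s : ℂ → ℂ) (e k : ℤ) (z : ℂ) : sb s (e + 2 * k) z = sb s e z := by
  unfold sb
  rw [zpow_add₀ (by norm_num), zpow_mul]
  norm_num

namespace SQ

lemma f_sb (hS : SQ c g th E s) {z : ℂ} (hz : z ∉ ray E g th) (e : ℤ) :
    f c (sb s e z) = z := by
  rw [f_apply, sb_sq, hS.sq z hz]; ring

lemma G_sb (hS : SQ c g th E s) {z : ℂ} (hz : z ∉ ray E g th) (e : ℤ) :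
    G c (sb s e z) = G c z / 2 := by
  have := G_f c (sb s e z)
  rw [hS.f_sb hz e] at this
  linarith

lemma s_ne_zero (hS : SQ c g th E s) {z : ℂ} (hz : z ∉ ray E g th) : s z ≠ 0 := by
  obtain ⟨l, _, hl⟩ := hS.log
  rw [hl z hz]; exact Complex.exp_ne_zero _

lemma sb_ne_zero (hS : SQ c g th E s) {z : ℂ} (hz : z ∉ ray E g th) (e : ℤ) : sb s e z ≠ 0 := by
  rcases sb_eq s e with h | h
  · rw [h]; exact hS.s_ne_zero hz
  · rw [h]; exact neg_ne_zero.2 (hS.s_ne_zero hz)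

lemma sb_inj (hS : SQ c g th E s) {z z' : ℂ} (hz : z ∉ ray E g th) (hz' : z' ∉ ray E g th)
    {e : ℤ} (h : sb s e z = sb s e z') : z = z' := by
  rw [← hS.f_sb hz e, h, hS.f_sb hz' e]

lemma sb_add_ne (hS : SQ c g th E s) {z z' : ℂ} (hz : z ∉ ray E g th) (hz' : z' ∉ ray E g th)
    (e : ℤ) : sb s e z + sb s e z' ≠ 0 := by
  intro h
  have h1 : sb s e z = - sb s e z' := eq_neg_of_add_eq_zero_left h
  have h2 : sb s e z ^ 2 = sb s e z' ^ 2 := by rw [h1, neg_sq]
  rw [sb_sq, sb_sq, hS.sq z hz, hS.sq z' hz'] at h2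
  have h3 : z = z' := by linear_combination h2
  rw [h3] at h
  have : sb s e z' = 0 := by linear_combination h / 2
  exact hS.sb_ne_zero hz' e this

/-- the images of the two branches are disjoint -/
lemma sb_disj (hS : SQ c g th E s) {z z' : ℂ} (hz : z ∉ ray E g th) (hz' : z' ∉ ray E g th)
    {e e' : ℤ} (h : sb s e z = sb s e' z') : z = z' ∧ Even (e - e') := by
  have h0 : z = z' := by rw [← hS.f_sb hz e, h, hS.f_sb hz' e']
  refine ⟨h0, ?_⟩
  subst h0
  have hs := hS.s_ne_zero hz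
  unfold sb at h
  have h1 := mul_right_cancel₀ hs h
  rcases Int.even_or_odd (e - e') with h2 | h2
  · exact h2
  · exfalso
    have h3 : ((-1 : ℂ)) ^ (e - e') = -1 := h2.neg_one_zpow
    rw [zpow_sub₀ (by norm_num), h1, div_self (zpow_ne_zero _ (by norm_num))] at h3
    norm_num at h3

/-- every point of `{G < g / 2}` is in the image of one of the branches -/
lemma eq_sb (hS : SQ c g th E s) {z : ℂ} (hz : f c z ∉ ray E g th) :
    z = sb s 0 (f c z) ∨ z = sb s 1 (f c z) := by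
  have h := hS.sq _ hz
  rw [f_apply] at h
  have h1 : z ^ 2 = s (f c z) ^ 2 := by rw [f_apply, h]; ring
  rcases sq_eq_sq_iff_eq_or_eq_neg.1 h1 with h2 | h2
  · left; unfold sb; simpa using h2
  · right; unfold sb; simpa using h2

lemma sb_mem (hB : BD c g th E) (hS : SQ c g th E s) {z : ℂ} (hz : z ∈ Ug c g) (e : ℤ) :
    sb s e z ∈ Ug c g := by
  have h1 := hS.G_sb (hB.Ug_ray hz) e
  have h2 : G c z < g := hz
  have h3 := G_nonneg c z
  show G c (sb s e z) < g
  rw [h1]; linarith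

lemma sb_mem' (hS : SQ c g th E s) {z : ℂ} (hz : z ∉ ray E g th) (h : G c z < 2 * g)
    (e : ℤ) : sb s e z ∈ Ug c g := by
  show G c (sb s e z) < g
  rw [hS.G_sb hz e]; linarith

lemma differentiableOn_sb (hS : SQ c g th E s) (e : ℤ) :
    DifferentiableOn ℂ (sb s e) (ray E g th)ᶜ := by
  unfold sb
  exact hS.hol.const_mul _

lemma differentiableOn_sb' (hB : BD c g th E) (hS : SQ c g th E s) (e : ℤ) :
    DifferentiableOn ℂ (sb s e) (Ug c g) :=
  (hS.differentiableOn_sb e).mono hB.Ug_ray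

/-- on the `j`-th sheet of the slit annulus -/
lemma s_E (hB : BD c g th E) (hS : SQ c g th E s) {z : ℂ} (hz : g < z.re) (j : ℤ)
    (h1 : th + j * (2 * Real.pi) < z.im) (h2 : z.im < th + (j + 1) * (2 * Real.pi)) (e : ℤ) :
    sb s e (E z) = (-1) ^ (e + j) * E (z / 2) := by
  have hp := hB.pos
  have hz2 : g / 2 < z.re := by linarith
  have h3 := hS.norm0 (z + ((-j : ℤ) : ℂ) * (2 * Real.pi * I)) (by simpa using hz)
    (by simp; linarith) (by simp; linarith)
  rw [hB.per_int hz2] at h3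
  have h4 : (z + ((-j : ℤ) : ℂ) * (2 * Real.pi * I)) / 2 = z / 2 + ((-j : ℤ) : ℂ) * (Real.pi * I) := by
    push_cast; ring
  rw [h4, hB.odd_int (by simp; linarith)] at h3
  unfold sb
  rw [h3, ← mul_assoc, ← zpow_add₀ (by norm_num)]
  congr 1
  rcases Int.even_or_odd (e + j) with h | h
  · have h' : Even (e + -j) := by
      obtain ⟨a, ha⟩ := h; exact ⟨a - j, by omega⟩
    rw [h.neg_one_zpow, h'.neg_one_zpow]
  · have h' : Odd (e + -j) := by
      obtain ⟨a, ha⟩ := h; exact ⟨a - j, by omega⟩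
    rw [h.neg_one_zpow, h'.neg_one_zpow]

/-- block (S): `E z = s_e (E (2 z))` on the half strip of the branch `e` -/
lemma sb_E (hB : BD c g th E) (hS : SQ c g th E s) {z : ℂ} (hz : g / 2 < z.re) (e k : ℤ)
    (h1 : th / 2 + e * Real.pi + k * (2 * Real.pi) < z.im)
    (h2 : z.im < th / 2 + (e + 1) * Real.pi + k * (2 * Real.pi)) :
    sb s e (E (2 * z)) = E z := by
  have h := s_E hB hS (z := 2 * z) (by simp; linarith) (e + 2 * k) (by simp; linarith)
    (by simp; linarith) e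
  rw [h]
  have h3 : Even (e + (e + 2 * k)) := ⟨e + k, by ring⟩
  rw [h3.neg_one_zpow, one_mul]
  congr 1
  ring

end SQ

section gc

variable {w : ℕ → ℤ}

lemma gc_mem (hB : BD c g th E) (hS : SQ c g th E s) (w : ℕ → ℤ) (m : ℕ) {z : ℂ}
    (hz : z ∈ Ug c g) : gc s w m z ∈ Ug c g := by
  induction m generalizing z with
  | zero => exact hz
  | succ m ih => rw [gc_succ]; exact ih (hS.sb_mem hB hz _)

lemma G_gc (hB : BD c g th E) (hS : SQ c g th E s) (w : ℕ → ℤ) (m : ℕ) {z : ℂ}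
    (hz : z ∈ Ug c g) : G c (gc s w m z) = G c z / 2 ^ m := by
  induction m generalizing z with
  | zero => simp [gc_zero]
  | succ m ih =>
    rw [gc_succ, ih (hS.sb_mem hB hz _), hS.G_sb (hB.Ug_ray hz), pow_succ]
    field_simp

lemma it_gc (hB : BD c g th E) (hS : SQ c g th E s) (w : ℕ → ℤ) (m : ℕ) {z : ℂ}
    (hz : z ∈ Ug c g) : it c m (gc s w m z) = z := by
  induction m generalizing z with
  | zero => rfl
  | succ m ih =>
    rw [gc_succ, it_succ, ih (hS.sb_mem hB hz _), hS.f_sb (hB.Ug_ray hz)]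

lemma gc_injOn (hB : BD c g th E) (hS : SQ c g th E s) (w : ℕ → ℤ) (m : ℕ) :
    InjOn (gc s w m) (Ug c g) := fun z hz z' hz' h => by
  rw [← it_gc hB hS w m hz, h, it_gc hB hS w m hz']

lemma gc_mapsTo (hB : BD c g th E) (hS : SQ c g th E s) (w : ℕ → ℤ) (m : ℕ) :
    MapsTo (gc s w m) (Ug c g) (Ug c g) := fun _ hz => gc_mem hB hS w m hz

lemma differentiableOn_gc (hB : BD c g th E) (hS : SQ c g th E s) (w : ℕ → ℤ) (m : ℕ) :
    DifferentiableOn ℂ (gc s w m) (Ug c g) := by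
  induction m with
  | zero => exact differentiableOn_id
  | succ m ih =>
    exact ih.comp (hS.differentiableOn_sb' hB _) (fun z hz => hS.sb_mem hB hz _)

lemma gc_congr {w w' : ℕ → ℤ} {m : ℕ} (h : ∀ i < m, w i = w' i) (z : ℂ) :
    gc s w m z = gc s w' m z := by
  induction m generalizing z with
  | zero => rfl
  | succ m ih => rw [gc_succ, gc_succ, h m (by omega), ih fun i hi => h i (by omega)]

lemma periodic_mul {n : ℕ} (hw : ∀ i, w (i + n) = w i) (k i : ℕ) : w (n * k + i) = w i := by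
  induction k with
  | zero => simp
  | succ k ih =>
    rw [← ih, ← hw (n * k + i)]
    congr 1; ring

/-- periodicity: `g_{n k + m} = g_{n k} ∘ g_m` -/
lemma gc_per {n : ℕ} (hw : ∀ i, w (i + n) = w i) (k m : ℕ) (z : ℂ) :
    gc s w (n * k + m) z = gc s w (n * k) (gc s w m z) := by
  rw [gc_add]
  congr 1
  exact gc_congr (fun i _ => periodic_mul hw k i) z

lemma gc_fix {n : ℕ} (hw : ∀ i, w (i + n) = w i) {b : ℂ} (hb : gc s w n b = b) (k : ℕ) :
    gc s w (n * k) b = b := by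
  induction k with
  | zero => rfl
  | succ k ih =>
    rw [Nat.mul_succ, gc_per hw, hb, ih]

lemma G_fix (hB : BD c g th E) (hS : SQ c g th E s) {n : ℕ} (hn : 1 ≤ n) {b : ℂ}
    (hbU : b ∈ Ug c g) (hb : gc s w n b = b) : G c b = 0 := by
  have h := G_gc hB hS w n hbU
  rw [hb] at h
  have h2 : (2 : ℝ) ≤ 2 ^ n := by
    calc (2 : ℝ) = 2 ^ 1 := by norm_num
      _ ≤ 2 ^ n := pow_le_pow_right₀ (by norm_num) hn
  have h3 := G_nonneg c b
  have h4 : G c b * 2 ^ n = G c b := by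
    rw [eq_div_iff (by positivity)] at h; exact h
  nlinarith

/-- the point of the backward orbit of `b` -/
lemma exists_pre (hB : BD c g th E) (hS : SQ c g th E s) {n : ℕ} (hn : 1 ≤ n)
    (hw : ∀ i, w (i + n) = w i) {b : ℂ} (hbU : b ∈ Ug c g) (hb : gc s w n b = b) (M : ℕ) :
    ∃ b' ∈ Ug c g, G c b' = 0 ∧ gc s w M b' = b := by
  have h1 : M ≤ n * M := Nat.le_mul_of_pos_left M hn
  obtain ⟨j, hj⟩ := Nat.exists_eq_add_of_le h1
  refine ⟨gc s (fun i => w (M + i)) j b, gc_mem hB hS _ _ hbU, ?_, ?_⟩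
  · rw [G_gc hB hS _ _ hbU, G_fix hB hS hn hbU hb, zero_div]
  · rw [← gc_add, ← hj]; exact gc_fix hw hb M

end gc

end Pool.Agent.Work.MLC
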