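import Pool.Agent.Work.MP_78b16e_an.KoenA
import Pool.Agent.Work.MLC.PlyBase

/-!
# Koenigs map of an inverse branch on a bounded domain  (helper13, module P3 of the exterior PLY)

Abstract part: `U` open, preconnected, bounded, `K ⊆ U` compact, `F : U → K` holomorphic and
injective with a fixed point `b`.  Then `‖F' b‖ < 1`, `F^[k] → b` uniformly on `U`, and there is an
injective holomorphic `h` on `U` with `h (F z) = F' b * h z`.
-/

set_option autoImplicit false

namespace Pool.Agent.Work.MLC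

open Metric Filter Topology Set

/-- abstract data: a holomorphic self map of `U` with relatively compact image -/
structure PlySelf (U K : Set ℂ) (F : ℂ → ℂ) (b : ℂ) : Prop where
  openU : IsOpen U
  conn : IsPreconnected U
  bdd : Bornology.IsBounded U
  compK : IsCompact K
  sub : K ⊆ U
  maps : MapsTo F U K
  diff : DifferentiableOn ℂ F U
  inj : InjOn F U
  memb : b ∈ U
  fix : F b = b
  ne : deriv F b ≠ 0

namespace PlySelf

variable {U K : Set ℂ} {F : ℂ → ℂ} {b : ℂ}

theorem mapsU (D : PlySelf U K F b) : MapsTo F U U := fun _ hz => D.sub (D.maps hz)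

theorem iter_maps (D : PlySelf U K F b) (k : ℕ) : MapsTo F^[k] U U := D.mapsU.iterate k

theorem iter_fix (D : PlySelf U K F b) (k : ℕ) : F^[k] b = b := Function.iterate_fixed D.fix k

theorem iter_diff (D : PlySelf U K F b) (k : ℕ) : DifferentiableOn ℂ F^[k] U := by
  induction k with
  | zero => exact differentiableOn_id
  | succ k ih =>
    rw [Function.iterate_succ]
    exact ih.comp D.diff D.mapsU

theorem iter_inj (D : PlySelf U K F b) (k : ℕ) : InjOn F^[k] U := by
  induction k with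
  | zero => exact injOn_id _
  | succ k ih =>
    rw [Function.iterate_succ]
    exact ih.comp D.inj D.mapsU

theorem exists_bound (D : PlySelf U K F b) : ∃ M > 0, ∀ z ∈ U, ‖z‖ ≤ M := by
  obtain ⟨M, hM⟩ := D.bdd.exists_norm_le
  exact ⟨max M 1, by positivity, fun z hz => (hM z hz).trans (le_max_left _ _)⟩

theorem norm_deriv_lt_one (D : PlySelf U K F b) : ‖deriv F b‖ < 1 := by
  obtain ⟨M, hM0, hM⟩ := D.exists_bound
  -- choose `d`
  obtain ⟨δ, hδ, hth⟩ := D.compK.exists_thickening_subset_open D.openU D.sub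
  set d : ℝ := δ / (4 * M) with hd
  have hd0 : 0 < d := by positivity
  set T : ℂ → ℂ := fun z => b + (1 + d) * (F z - b) with hT
  have hTm : MapsTo T U U := by
    intro z hz
    apply hth
    rw [mem_thickening_iff]
    refine ⟨F z, D.maps hz, ?_⟩
    rw [dist_eq_norm]
    have h1 : T z - F z = d * (F z - b) := by simp only [hT]; ring
    rw [h1, norm_mul, Complex.norm_real, Real.norm_of_nonneg hd0.le]
    have h2 : ‖F z - b‖ ≤ 2 * M := by
      refine (norm_sub_le _ _).trans ?_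
      have := hM _ (D.mapsU hz)
      have := hM _ D.memb
      linarith
    have h3 : d * ‖F z - b‖ ≤ d * (2 * M) := by gcongr
    have h4 : d * (2 * M) = δ / 2 := by rw [hd]; field_simp; ring
    linarith
  have hTd : DifferentiableOn ℂ T U :=
    ((D.diff.sub (differentiableOn_const _)).const_mul _).const_add _
  have hTb : T b = b := by simp only [hT]; rw [D.fix]; ring
  have hUb : U ∈ 𝓝 b := D.openU.mem_nhds D.memb
  have hTder : HasDerivAt T ((1 + d) * deriv F b) b := by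
    have h1 : HasDerivAt F (deriv F b) b := (D.diff.differentiableAt hUb).hasDerivAt
    exact ((h1.sub_const b).const_mul (1 + (d : ℂ))).const_add b
  have hit : ∀ k : ℕ, HasDerivAt T^[k] (((1 + d) * deriv F b) ^ k) b := by
    intro k
    exact HasDerivAt.iterate b hTder hTb k
  have hTk : ∀ k : ℕ, DifferentiableOn ℂ T^[k] U := by
    intro k
    induction k with
    | zero => exact differentiableOn_id
    | succ k ih => rw [Function.iterate_succ]; exact ih.comp hTd hTm
  obtain ⟨r, hr, hrU⟩ := Metric.nhds_basis_closedBall.mem_iff.1 hUb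
  have hbd : ∀ k : ℕ, ‖((1 + d) * deriv F b)‖ ^ k ≤ M / r := by
    intro k
    rw [← norm_pow, ← (hit k).deriv]
    refine Complex.norm_deriv_le_of_forall_mem_sphere_norm_le hr ?_ fun z hz => ?_
    · refine ((hTk k).mono ?_).diffContOnCl_ball (U := U) ?_
      · exact subset_rfl
      · exact hrU
    · exact hM _ (hTm.iterate k (hrU (sphere_subset_closedBall hz)))
  have hle : ‖((1 + d) * deriv F b)‖ ≤ 1 := by
    by_contra hcon
    push Not at hcon
    obtain ⟨k, hk⟩ := pow_unbounded_of_one_lt (M / r) hcon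
    exact absurd (hbd k) (not_le.2 hk)
  rw [norm_mul] at hle
  have h5 : ‖(1 + (d : ℂ))‖ = 1 + d := by
    rw [← Complex.ofReal_one, ← Complex.ofReal_add, Complex.norm_real,
      Real.norm_of_nonneg (by positivity)]
  rw [h5] at hle
  by_contra hcon
  push Not at hcon
  nlinarith [norm_nonneg (deriv F b)]

/-- near `b` the map contracts towards `b` -/
theorem exists_contract (D : PlySelf U K F b) (r : ℝ) (hr : 0 < r) :
    ∃ q < 1, 0 ≤ q ∧ ∃ r₁ > 0, r₁ ≤ r ∧ ball b r₁ ⊆ U ∧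
      ∀ z ∈ ball b r₁, ‖F z - b‖ ≤ q * ‖z - b‖ := by
  have hUb : U ∈ 𝓝 b := D.openU.mem_nhds D.memb
  have h1 : HasDerivAt F (deriv F b) b := (D.diff.differentiableAt hUb).hasDerivAt
  have h2 := D.norm_deriv_lt_one
  have h3 := (hasDerivAt_iff_isLittleO.1 h1).def (c := (1 - ‖deriv F b‖) / 2) (by linarith)
  obtain ⟨r₁, hr₁, hr₁'⟩ := Metric.eventually_nhds_iff_ball.1 (h3.and hUb)
  refine ⟨(1 + ‖deriv F b‖) / 2, by linarith, by positivity, min r₁ r, by positivity,
    min_le_right _ _, fun z hz => ?_, fun z hz => ?_⟩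
  · exact (hr₁' z (ball_subset_ball (min_le_left _ _) hz)).2
  · have h4 := (hr₁' z (ball_subset_ball (min_le_left _ _) hz)).1
    rw [D.fix] at h4
    have h5 : ‖F z - b‖ ≤ ‖F z - b - (z - b) • deriv F b‖ + ‖(z - b) • deriv F b‖ := by
      have := norm_add_le (F z - b - (z - b) • deriv F b) ((z - b) • deriv F b)
      simpa using this
    rw [norm_smul] at h5
    nlinarith [norm_nonneg (z - b)]

theorem contract_iter {q r₁ : ℝ} (hq : q < 1) (hq0 : 0 ≤ q)
    (h : ∀ z ∈ ball b r₁, ‖F z - b‖ ≤ q * ‖z - b‖) (k : ℕ) :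
    ∀ z ∈ ball b r₁, F^[k] z ∈ ball b r₁ ∧ ‖F^[k] z - b‖ ≤ q ^ k * ‖z - b‖ := by
  induction k with
  | zero => intro z hz; simpa using hz
  | succ k ih =>
    intro z hz
    obtain ⟨h1, h2⟩ := ih z hz
    rw [Function.iterate_succ_apply']
    have h3 := h _ h1
    refine ⟨?_, ?_⟩
    · rw [mem_ball, dist_eq_norm] at h1 ⊢
      nlinarith [norm_nonneg (F^[k] z - b)]
    · calc ‖F (F^[k] z) - b‖ ≤ q * ‖F^[k] z - b‖ := h3
        _ ≤ q * (q ^ k * ‖z - b‖) := by gcongr
        _ = q ^ (k + 1) * ‖z - b‖ := by ring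

/-- the iterates converge to `b` uniformly on `U` -/
theorem exists_iter_ball (D : PlySelf U K F b) (r : ℝ) (hr : 0 < r) :
    ∃ k₀ : ℕ, ∀ k ≥ k₀, ∀ z ∈ U, F^[k] z ∈ ball b r := by
  obtain ⟨q, hq1, hq0, r₁, hr₁, hr₁r, hrU, hrq⟩ := D.exists_contract r hr
  obtain ⟨M, hM0, hM⟩ := D.exists_bound
  have hrm : MapsTo F (ball b r₁) (ball b r₁) := fun z hz =>
    (contract_iter hq1 hq0 hrq 1 z hz).1
  set S : ℕ → Set ℂ := fun k => U ∩ F^[k] ⁻¹' ball b r₁ with hS
  have hSo : ∀ k, IsOpen (S k) := fun k =>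
    (D.iter_diff k).continuousOn.isOpen_inter_preimage D.openU isOpen_ball
  have hSm : Monotone S := by
    refine monotone_nat_of_le_succ fun k z hz => ⟨hz.1, ?_⟩
    have := hrm hz.2
    rw [mem_preimage, Function.iterate_succ_apply']
    exact this
  -- all of `U`
  have hsub : U ⊆ ⋃ k, S k := by
    refine D.conn.subset_of_closure_inter_subset (isOpen_iUnion hSo) ⟨b, D.memb, ?_⟩ ?_
    · refine mem_iUnion.2 ⟨0, D.memb, ?_⟩
      simpa using hr₁
    · rintro z ⟨hzc, hzU⟩
      obtain ⟨R, hR, hRU⟩ := Metric.nhds_basis_ball.mem_iff.1 (D.openU.mem_nhds hzU)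
      -- a close point of `S`
      set ε : ℝ := min R (r₁ / 2 * R / (2 * M)) with hε
      have hε0 : 0 < ε := by positivity
      obtain ⟨y, hyS, hyz⟩ := Metric.mem_closure_iff.1 hzc ε hε0
      obtain ⟨k, hk⟩ := mem_iUnion.1 hyS
      obtain ⟨j, hj⟩ := exists_pow_lt_of_lt_one (show (0 : ℝ) < 1 / 2 by norm_num) hq1
      have h1 := contract_iter hq1 hq0 hrq j _ hk.2
      rw [← Function.iterate_add_apply] at h1
      have h2 : ‖F^[j + k] y - b‖ < r₁ / 2 := by
        have h3 : ‖F^[k] y - b‖ < r₁ := by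
          have := hk.2
          rwa [mem_preimage, mem_ball, dist_eq_norm] at this
        have h4 : 0 ≤ ‖F^[k] y - b‖ := norm_nonneg _
        have h5 : q ^ j * ‖F^[k] y - b‖ ≤ 1 / 2 * ‖F^[k] y - b‖ := by gcongr
        linarith [h1.2]
      have hyR : y ∈ ball z R := by
        rw [mem_ball, dist_comm]
        exact lt_of_lt_of_le hyz (min_le_left _ _)
      have h6 := Complex.dist_le_div_mul_dist_of_mapsTo_ball (f := F^[j + k]) (c := z) (R₁ := R)
        (R₂ := 2 * M) ((D.iter_diff _).mono hRU) (fun x hx => by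
          rw [mem_closedBall, dist_eq_norm]
          refine (norm_sub_le _ _).trans ?_
          have := hM _ (D.iter_maps (j + k) (hRU hx))
          have := hM _ (D.iter_maps (j + k) hzU)
          linarith) hyR
      have h7 : 2 * M / R * dist y z ≤ r₁ / 2 := by
        have h8 : dist y z ≤ r₁ / 2 * R / (2 * M) := by
          rw [dist_comm]
          exact hyz.le.trans (min_le_right _ _)
        calc 2 * M / R * dist y z ≤ 2 * M / R * (r₁ / 2 * R / (2 * M)) := by gcongr
          _ = r₁ / 2 := by field_simp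
      refine mem_iUnion.2 ⟨j + k, hzU, ?_⟩
      rw [mem_preimage, mem_ball]
      calc dist (F^[j + k] z) b ≤ dist (F^[j + k] z) (F^[j + k] y) + dist (F^[j + k] y) b :=
            dist_triangle _ _ _
        _ < r₁ / 2 + r₁ / 2 := by
            rw [dist_comm, dist_eq_norm (F^[j + k] y) b]
            refine add_lt_add_of_le_of_lt (h6.trans h7) h2
        _ = r₁ := by ring
  have hcov : K ⊆ ⋃ k, S k := D.sub.trans hsub
  obtain ⟨k₀, hk₀⟩ := D.compK.elim_directed_cover S hSo hcov (directed_of_isDirected_le hSm)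
  refine ⟨k₀ + 1, fun k hk z hz => ?_⟩
  obtain ⟨j, rfl⟩ := Nat.exists_eq_add_of_le hk
  have h1 : F z ∈ S (k₀ + j) := hSm (Nat.le_add_right _ _) (hk₀ (D.maps hz))
  have h2 : F^[k₀ + 1 + j] z = F^[k₀ + j] (F z) := by
    rw [← Function.iterate_succ_apply]; congr 2; omega
  rw [h2]
  exact ball_subset_ball hr₁r h1.2

/-- the Koenigs map on `U` -/
theorem exists_koenigs (D : PlySelf U K F b) :
    ∃ (h h₀ : ℂ → ℂ) (r : ℝ) (k₀ : ℕ), 0 < r ∧ ball b r ⊆ U ∧ DifferentiableOn ℂ h U ∧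
      InjOn h U ∧ h b = 0 ∧ (∀ z ∈ U, h (F z) = deriv F b * h z) ∧
      DifferentiableOn ℂ h₀ (ball b r) ∧ InjOn h₀ (ball b r) ∧
      (∀ y ∈ ball b r, ‖h₀ y - (y - b)‖ ≤ 1 / 2 * ‖y - b‖) ∧ h₀ b = 0 ∧ deriv h₀ b = 1 ∧
      ∀ k ≥ k₀, ∀ z ∈ U, F^[k] z ∈ ball b r ∧ deriv F b ^ k * h z = h₀ (F^[k] z) := by
  have hUb : U ∈ 𝓝 b := D.openU.mem_nhds D.memb
  set μ : ℂ := deriv F b with hμ
  have hFa : AnalyticAt ℂ F b := D.diff.analyticAt hUb
  set κ : ℂ → ℂ := fun t => F (b + t) - b with hκ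
  have hκa : AnalyticAt ℂ κ 0 := by
    have h1 : AnalyticAt ℂ (fun t : ℂ => b + t) 0 := analyticAt_const.add analyticAt_id
    have h2 : AnalyticAt ℂ F ((fun t : ℂ => b + t) 0) := by simpa using hFa
    exact (h2.comp h1).sub analyticAt_const
  have hκ0 : κ 0 = 0 := by simp only [hκ, add_zero]; rw [D.fix, sub_self]
  have hκd : deriv κ 0 = μ := by
    have h1 : HasDerivAt F μ (b + 0) := by
      rw [add_zero]; exact (D.diff.differentiableAt hUb).hasDerivAt
    have h2 := HasDerivAt.comp_const_add b 0 h1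
    exact (h2.sub_const b).deriv
  obtain ⟨Φ, hΦa, hΦ0, hΦ1, hΦe⟩ := MP_78b16e_an.koenigs_fun hκa hκ0 hκd D.ne
    D.norm_deriv_lt_one
  set h₀ : ℂ → ℂ := fun y => Φ (y - b) with hh₀
  have hh₀a : AnalyticAt ℂ h₀ b := by
    have h1 : AnalyticAt ℂ (fun y : ℂ => y - b) b := analyticAt_id.sub analyticAt_const
    have h2 : AnalyticAt ℂ Φ ((fun y : ℂ => y - b) b) := by simpa using hΦa
    exact AnalyticAt.comp (f := fun y : ℂ => y - b) h2 h1
  have hh₀0 : h₀ b = 0 := by simp only [hh₀, sub_self]; exact hΦ0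
  have hh₀d : deriv h₀ b = 1 := by
    have h1 : HasDerivAt Φ 1 (b - b) := by
      rw [sub_self, ← hΦ1]; exact hΦa.differentiableAt.hasDerivAt
    exact (HasDerivAt.comp_sub_const b b h1).deriv
  -- strict derivative
  have hstr : HasStrictDerivAt h₀ 1 b := by rw [← hh₀d]; exact hh₀a.hasStrictDerivAt
  have hlo := hstr.hasStrictFDerivAt.isLittleO.def (c := 1 / 2) (by norm_num)
  have hrel : ∀ᶠ y in 𝓝 b, h₀ (F y) = μ * h₀ y := by
    have h1 : Tendsto (fun y : ℂ => y - b) (𝓝 b) (𝓝 0) := by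
      have : Continuous (fun y : ℂ => y - b) := by fun_prop
      simpa using this.tendsto b
    filter_upwards [h1.eventually hΦe] with y hy
    simpa [hκ, hh₀] using hy
  have hana : ∀ᶠ y in 𝓝 b, AnalyticAt ℂ h₀ y := hh₀a.eventually_analyticAt
  rw [nhds_prod_eq] at hlo
  obtain ⟨r₁, hr₁, hr₁'⟩ := (Metric.nhds_basis_ball.prod_self).eventually_iff.1 hlo
  obtain ⟨r₂, hr₂, hr₂'⟩ := Metric.eventually_nhds_iff_ball.1 (hrel.and (hana.and hUb))
  obtain ⟨q, hq1, hq0, r, hr, hrle, hrU, hrq⟩ := D.exists_contract (min r₁ r₂) (by positivity)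
  have hrr₁ : ball b r ⊆ ball b r₁ := ball_subset_ball (hrle.trans (min_le_left _ _))
  have hrr₂ : ball b r ⊆ ball b r₂ := ball_subset_ball (hrle.trans (min_le_right _ _))
  have hest : ∀ x ∈ ball b r, ∀ y ∈ ball b r, ‖h₀ x - h₀ y - (x - y)‖ ≤ 1 / 2 * ‖x - y‖ := by
    intro x hx y hy
    have := hr₁' (mk_mem_prod (hrr₁ hx) (hrr₁ hy))
    simpa using this
  have hinj : InjOn h₀ (ball b r) := by
    intro x hx y hy hxy
    have := hest x hx y hy
    rw [hxy, sub_self, zero_sub, norm_neg] at this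
    have h1 : ‖x - y‖ = 0 := by linarith [norm_nonneg (x - y)]
    exact sub_eq_zero.1 (norm_eq_zero.1 h1)
  have hrelk : ∀ k : ℕ, ∀ y ∈ ball b r, h₀ (F^[k] y) = μ ^ k * h₀ y := by
    intro k y hy
    induction k with
    | zero => simp
    | succ k ih =>
      rw [Function.iterate_succ_apply']
      have h1 := (contract_iter hq1 hq0 hrq k y hy).1
      rw [(hr₂' _ (hrr₂ h1)).1, ih, pow_succ]
      ring
  obtain ⟨k₀, hk₀⟩ := D.exists_iter_ball r hr
  have hmu : ∀ k : ℕ, μ ^ k ≠ 0 := fun k => pow_ne_zero _ D.ne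
  set h : ℂ → ℂ := fun z => (μ ^ k₀)⁻¹ * h₀ (F^[k₀] z) with hh
  have hkey : ∀ k ≥ k₀, ∀ z ∈ U, μ ^ k * h z = h₀ (F^[k] z) := by
    intro k hk z hz
    obtain ⟨j, rfl⟩ := Nat.exists_eq_add_of_le hk
    have h1 : F^[k₀ + j] z = F^[j] (F^[k₀] z) := by
      rw [← Function.iterate_add_apply, add_comm]
    rw [h1, hrelk j _ (hk₀ k₀ le_rfl z hz), pow_add]
    simp only [hh]
    have := hmu k₀
    field_simp
  refine ⟨h, h₀, r, k₀, hr, hrU, ?_, ?_, ?_, ?_, ?_, hinj, ?_, hh₀0, hh₀d, fun k hk z hz =>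
    ⟨hk₀ k hk z hz, hkey k hk z hz⟩⟩
  · refine DifferentiableOn.const_mul ?_ _
    refine DifferentiableOn.comp (g := h₀) (t := ball b r) ?_ (D.iter_diff k₀)
      fun z hz => hk₀ k₀ le_rfl z hz
    exact fun y hy => (hr₂' y (hrr₂ hy)).2.1.differentiableAt.differentiableWithinAt
  · intro x hx y hy hxy
    have h1 : h₀ (F^[k₀] x) = h₀ (F^[k₀] y) := by
      rw [← hkey k₀ le_rfl x hx, ← hkey k₀ le_rfl y hy, hxy]
    exact D.iter_inj k₀ hx hy (hinj (hk₀ k₀ le_rfl x hx) (hk₀ k₀ le_rfl y hy) h1)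
  · simp only [hh]
    rw [D.iter_fix, hh₀0, mul_zero]
  · intro z hz
    have h1 := hkey (k₀ + 1) (Nat.le_succ _) z hz
    have h2 := hkey k₀ le_rfl (F z) (D.mapsU hz)
    rw [← Function.iterate_succ_apply, ← h1, pow_succ, mul_assoc] at h2
    exact mul_left_cancel₀ (hmu k₀) h2
  · exact fun y hy => (hr₂' y (hrr₂ hy)).2.1.differentiableAt.differentiableWithinAt
  · intro y hy
    have := hest y hy b (mem_ball_self hr)
    rwa [hh₀0, sub_zero] at this

end PlySelf

/-! ## connectedness of `{G < g}` -/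

variable {c : ℂ} {g th : ℝ} {E s h : ℂ → ℂ}

theorem isBounded_Ug (c : ℂ) (g : ℝ) : Bornology.IsBounded (Ug c g) :=
  (isCompact_G_le c g).isBounded.subset fun z hz => by
    have h1 : G c z < g := hz
    exact h1.le

theorem isPreconnected_annulus (hB : BD c g th E) :
    IsPreconnected {z : ℂ | g / 2 < G c z ∧ G c z < g} := by
  have h1 : {z : ℂ | g / 2 < G c z ∧ G c z < g} = E '' {z : ℂ | g / 2 < z.re ∧ z.re < g} := by
    ext y
    constructor
    · rintro ⟨hy1, hy2⟩
      obtain ⟨z, hz, rfl⟩ := hB.surj y hy1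
      exact ⟨z, ⟨by rw [hz]; exact hy1, by rw [hz]; exact hy2⟩, rfl⟩
    · rintro ⟨z, ⟨hz1, hz2⟩, rfl⟩
      show g / 2 < G c (E z) ∧ G c (E z) < g
      rw [hB.G_E z hz1]
      exact ⟨hz1, hz2⟩
  rw [h1]
  have h2 : Convex ℝ {z : ℂ | g / 2 < z.re ∧ z.re < g} :=
    (convex_halfSpace_re_gt _).inter (convex_halfSpace_re_lt _)
  refine h2.isPreconnected.image _ (hB.hol.continuousOn.mono fun z hz => hz.1)

theorem isPreconnected_Ug (hB : BD c g th E) : IsPreconnected (Ug c g) := by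
  have hpos := hB.pos
  rw [isPreconnected_iff_subset_of_disjoint]
  -- one side
  have key : ∀ u v : Set ℂ, IsOpen u → IsOpen v → Ug c g ⊆ u ∪ v → Ug c g ∩ (u ∩ v) = ∅ →
      {z : ℂ | g / 2 < G c z ∧ G c z < g} ⊆ u → Ug c g ⊆ u := by
    intro u v hu hv huv hd hA
    set V : Set ℂ := Ug c g ∩ v with hV
    have hVo : IsOpen V := (isOpen_Ug c g).inter hv
    have hVK : V ⊆ {z | G c z ≤ g / 2} := by
      rintro z ⟨hz1, hz2⟩
      by_contra hcon
      have h3 : z ∈ u := hA ⟨not_le.1 hcon, hz1⟩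
      have : z ∈ Ug c g ∩ (u ∩ v) := ⟨hz1, h3, hz2⟩
      rw [hd] at this
      exact this
    have hKc : IsClosed {z | G c z ≤ g / 2} := isClosed_le (continuous_G_right c) continuous_const
    have hVc : IsClosed V := by
      refine isClosed_of_closure_subset fun z hz => ?_
      have h4 : G c z ≤ g / 2 := closure_minimal hVK hKc hz
      have h5 : z ∈ Ug c g := by show G c z < g; linarith
      rcases huv h5 with h6 | h6
      · exfalso
        obtain ⟨y, hy1, hy2⟩ := mem_closure_iff.1 hz u hu h6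
        have : y ∈ Ug c g ∩ (u ∩ v) := ⟨hy2.1, hy1, hy2.2⟩
        rw [hd] at this
        exact this
      · exact ⟨h5, h6⟩
    have hVe : V = ∅ := by
      rcases isClopen_iff.1 ⟨hVc, hVo⟩ with h | h
      · exact h
      · exfalso
        have h7 : IsCompact (univ : Set ℂ) := by
          rw [← h]; exact (isCompact_G_le c (g / 2)).of_isClosed_subset hVc hVK
        exact noncompact_univ ℂ h7
    intro z hz
    rcases huv hz with h | h
    · exact h
    · have : z ∈ V := ⟨hz, h⟩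
      rw [hVe] at this
      exact this.elim
  intro u v hu hv huv hd
  have hsub : {z : ℂ | g / 2 < G c z ∧ G c z < g} ⊆ Ug c g := fun z hz => hz.2
  rcases isPreconnected_iff_subset_of_disjoint.1 (isPreconnected_annulus hB) u v hu hv
    (hsub.trans huv) (by
      apply eq_empty_of_subset_empty
      rw [← hd]
      exact inter_subset_inter_left _ hsub) with h | h
  · exact Or.inl (key u v hu hv huv hd h)
  · exact Or.inr (key v u hv hu (by rwa [union_comm]) (by rwa [inter_comm v u]) h)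

theorem isConnected_Ug (hB : BD c g th E) : IsConnected (Ug c g) := by
  have hpos := hB.pos
  refine ⟨⟨E ((3 * g / 4 : ℝ) : ℂ), hB.E_mem ?_ ?_⟩, isPreconnected_Ug hB⟩
  · rw [Complex.ofReal_re]; linarith
  · rw [Complex.ofReal_re]; linarith

theorem isPathConnected_Ug (hB : BD c g th E) : IsPathConnected (Ug c g) :=
  (isOpen_Ug c g).isConnected_iff_isPathConnected.1 (isConnected_Ug hB)

/-! ## Koenigs data -/

variable {w : ℕ → ℤ} {n : ℕ} {b : ℂ}

theorem gc_iter (hw : ∀ i, w (i + n) = w i) (k : ℕ) (z : ℂ) :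
    (gc s w n)^[k] z = gc s w (n * k) z := by
  induction k generalizing z with
  | zero => rfl
  | succ k ih =>
    rw [Function.iterate_succ_apply, ih, Nat.mul_succ, gc_per hw]

theorem deriv_mul_deriv (hB : BD c g th E) (hS : SQ c g th E s) (hb : b ∈ Ug c g)
    (hfix : gc s w n b = b) : deriv (it c n) b * deriv (gc s w n) b = 1 := by
  have hUb : Ug c g ∈ 𝓝 b := (isOpen_Ug c g).mem_nhds hb
  have h1 : HasDerivAt (gc s w n) (deriv (gc s w n) b) b :=
    ((differentiableOn_gc hB hS w n).differentiableAt hUb).hasDerivAt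
  have h2 : HasDerivAt (it c n) (deriv (it c n) b) (gc s w n b) := by
    rw [hfix]; exact (differentiable_it_right c n b).hasDerivAt
  have h3 := h2.comp b h1
  have h4 : (it c n ∘ gc s w n) =ᶠ[𝓝 b] id := by
    filter_upwards [hUb] with z hz
    exact it_gc hB hS w n hz
  have h5 := (h4.hasDerivAt_iff.1 h3)
  exact h5.unique (hasDerivAt_id b)

theorem plySelf_gc (hB : BD c g th E) (hS : SQ c g th E s) (hn : 1 ≤ n) (hb : b ∈ Ug c g)
    (hfix : gc s w n b = b) : PlySelf (Ug c g) {z | G c z ≤ g / 2} (gc s w n) b where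
  openU := isOpen_Ug c g
  conn := isPreconnected_Ug hB
  bdd := isBounded_Ug c g
  compK := isCompact_G_le c (g / 2)
  sub := fun z hz => by
    have hpos := hB.pos
    have h1 : G c z ≤ g / 2 := hz
    show G c z < g
    linarith
  maps := fun z hz => by
    have hpos := hB.pos
    have h1 : G c z < g := hz
    show G c (gc s w n z) ≤ g / 2
    rw [G_gc hB hS w n hz]
    have h2 : (2 : ℝ) ≤ 2 ^ n := by
      calc (2 : ℝ) = 2 ^ 1 := by norm_num
        _ ≤ 2 ^ n := pow_le_pow_right₀ (by norm_num) hn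
    rw [div_le_div_iff₀ (by positivity) (by norm_num)]
    have h3 := G_nonneg c z
    nlinarith
  diff := differentiableOn_gc hB hS w n
  inj := gc_injOn hB hS w n
  memb := hb
  fix := hfix
  ne := by
    intro h
    have := deriv_mul_deriv hB hS hb hfix
    rw [h, mul_zero] at this
    exact zero_ne_one this

theorem exists_KD (hB : BD c g th E) (hS : SQ c g th E s) (hn : 1 ≤ n)
    (hw : ∀ i, w (i + n) = w i) (hb : b ∈ Ug c g) (hfix : gc s w n b = b) :
    ∃ h : ℂ → ℂ, KD c g s w n b (deriv (it c n) b) h := by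
  have D := plySelf_gc (w := w) hB hS hn hb hfix
  have hmul := deriv_mul_deriv hB hS hb hfix
  set μ := deriv (gc s w n) b with hμ
  set ρ := deriv (it c n) b with hρ
  have hμ0 : μ ≠ 0 := D.ne
  have hρμ : ρ = μ⁻¹ := eq_inv_of_mul_eq_one_left hmul
  obtain ⟨h, h₀, r, k₀, hr, hrU, hd, hinj, hzero, hkoe, hd₀, hinj₀, hest, hz₀, hd1, hform⟩ :=
    D.exists_koenigs
  have hμn := D.norm_deriv_lt_one
  rw [← hμ] at hμn
  refine ⟨h, hb, hfix, rfl, ?_, hd, hinj, hzero, ?_, ?_⟩
  · rw [hρμ, norm_inv]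
    exact one_lt_inv₀ (norm_pos_iff.2 hμ0) |>.2 hμn
  · intro z hz
    rw [hkoe z hz, hρμ, div_inv_eq_mul, mul_comm]
  · refine ⟨k₀, fun z => dslope h₀ b ((gc s w n)^[k₀] z), ?_, ?_, ?_⟩
    · have h1 : ContinuousOn (dslope h₀ b) (ball b r) := by
        refine (continuousOn_dslope (ball_mem_nhds b hr)).2 ⟨hd₀.continuousOn, ?_⟩
        exact hd₀.differentiableAt (ball_mem_nhds b hr)
      exact h1.comp (D.iter_diff k₀).continuousOn fun z hz => (hform k₀ le_rfl z hz).1
    · intro z hz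
      have h2 := (hform k₀ le_rfl z hz).1
      show ‖dslope h₀ b ((gc s w n)^[k₀] z) - 1‖ < 1
      set y := (gc s w n)^[k₀] z with hy
      by_cases hyb : y = b
      · rw [hyb, dslope_same, hd1]; simp
      · rw [dslope_of_ne _ hyb, slope_def_field, hz₀, sub_zero]
        have h3 := hest y h2
        have h4 : y - b ≠ 0 := sub_ne_zero.2 hyb
        have h5 : h₀ y / (y - b) - 1 = (h₀ y - (y - b)) / (y - b) := by field_simp
        rw [h5, norm_div, div_lt_one (norm_pos_iff.2 h4)]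
        have h6 : 0 < ‖y - b‖ := norm_pos_iff.2 h4
        linarith
    · intro z hz
      obtain ⟨h2, h3⟩ := hform k₀ le_rfl z hz
      rw [← gc_iter hw]
      show h z = ρ ^ k₀ * ((gc s w n)^[k₀] z - b) * dslope h₀ b ((gc s w n)^[k₀] z)
      set y := (gc s w n)^[k₀] z with hy
      have h4 : (y - b) * dslope h₀ b y = h₀ y := by
        have := sub_smul_dslope h₀ b y
        rw [hz₀, sub_zero, smul_eq_mul] at this
        exact this
      rw [mul_assoc, h4, ← h3, ← mul_assoc, hρμ, ← mul_pow, inv_mul_cancel₀ hμ0, one_pow,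
        one_mul]

/-! ## the annuli -/

/-- the annulus `A_m = h (g_m {g / 2 ≤ G < g})` -/
def Akd (c : ℂ) (g : ℝ) (s : ℂ → ℂ) (w : ℕ → ℤ) (h : ℂ → ℂ) (m : ℕ) : Set ℂ :=
  (fun z => h (gc s w m z)) '' {z | g / 2 ≤ G c z ∧ G c z < g}

theorem Akd_measurable (hB : BD c g th E) (hS : SQ c g th E s) {ρ : ℂ}
    (hK : KD c g s w n b ρ h) (m : ℕ) : MeasurableSet (Akd c g s w h m) := by
  have hinj : InjOn (fun z => h (gc s w m z)) (Ug c g) :=
    hK.inj.comp (gc_injOn hB hS w m) (gc_mapsTo hB hS w m)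
  have hcont : ContinuousOn (fun z => h (gc s w m z)) (Ug c g) :=
    (hK.hol.comp (differentiableOn_gc hB hS w m) (gc_mapsTo hB hS w m)).continuousOn
  have hsub : {z | g / 2 ≤ G c z ∧ G c z < g} ⊆ Ug c g := fun z hz => hz.2
  have hmeas : MeasurableSet {z | g / 2 ≤ G c z ∧ G c z < g} :=
    (measurableSet_le measurable_const (continuous_G_right c).measurable).inter
      (measurableSet_lt (continuous_G_right c).measurable measurable_const)
  exact hmeas.image_of_continuousOn_injOn (hcont.mono hsub) (hinj.mono hsub)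

theorem Akd_disjoint (hB : BD c g th E) (hS : SQ c g th E s) {ρ : ℂ}
    (hK : KD c g s w n b ρ h) {m m' : ℕ} (hm : m ≠ m') :
    Disjoint (Akd c g s w h m) (Akd c g s w h m') := by
  have hpos := hB.pos
  rw [Set.disjoint_left]
  rintro _ ⟨z, hz, rfl⟩ ⟨z', hz', he⟩
  have hz1 : z ∈ Ug c g := hz.2
  have hz1' : z' ∈ Ug c g := hz'.2
  have h1 : gc s w m' z' = gc s w m z :=
    hK.inj (gc_mem hB hS w m' hz1') (gc_mem hB hS w m hz1) he
  have h2 : G c z' / 2 ^ m' = G c z / 2 ^ m := by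
    rw [← G_gc hB hS w m' hz1', ← G_gc hB hS w m hz1, h1]
  -- wlog
  have key : ∀ (m m' : ℕ) (a a' : ℝ), m < m' → g / 2 ≤ a → a < g → g / 2 ≤ a' → a' < g →
      a' / 2 ^ m' = a / 2 ^ m → False := by
    intro m m' a a' hlt h1 h2 h3 h4 h5
    obtain ⟨j, rfl⟩ := Nat.exists_eq_add_of_lt hlt
    have h6 : (0 : ℝ) < 2 ^ m := by positivity
    have h7 : a' = a * 2 ^ (j + 1) := by
      rw [div_eq_div_iff (by positivity) (by positivity)] at h5
      have h8 : (2 : ℝ) ^ (m + j + 1) = 2 ^ m * 2 ^ (j + 1) := by ring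
      rw [h8] at h5
      have h9 : 2 ^ m * a' = 2 ^ m * (a * 2 ^ (j + 1)) := by linarith
      exact mul_left_cancel₀ h6.ne' h9
    have h8 : (2 : ℝ) ≤ 2 ^ (j + 1) := by
      calc (2 : ℝ) = 2 ^ 1 := by norm_num
        _ ≤ 2 ^ (j + 1) := pow_le_pow_right₀ (by norm_num) (by omega)
    nlinarith
  rcases lt_or_gt_of_ne hm with hlt | hlt
  · exact key m m' _ _ hlt hz.1 hz.2 hz'.1 hz'.2 h2
  · exact key m' m _ _ hlt hz'.1 hz'.2 hz.1 hz.2 h2.symm

theorem Akd_add (hw : ∀ i, w (i + n) = w i) (hB : BD c g th E) (hS : SQ c g th E s) {ρ : ℂ}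
    (hK : KD c g s w n b ρ h) (m k : ℕ) :
    Akd c g s w h (m + n * k) = (fun z => ρ ^ (-(k : ℤ)) * z) '' Akd c g s w h m := by
  unfold Akd
  rw [image_image]
  refine image_congr fun z hz => ?_
  have hz1 : z ∈ Ug c g := hz.2
  induction k with
  | zero => simp
  | succ k ih =>
    have h1 : m + n * (k + 1) = n * 1 + (m + n * k) := by ring
    show h (gc s w (m + n * (k + 1)) z) = _
    rw [h1, gc_per hw, mul_one, hK.koe _ (gc_mem hB hS w _ hz1)]
    have hρ0 : ρ ≠ 0 := by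
      intro h0
      have := hK.one_lt
      rw [h0, norm_zero] at this
      linarith
    have ih' : h (gc s w (m + n * k) z) = ρ ^ (-(k : ℤ)) * h (gc s w m z) := ih
    rw [ih']
    have h2 : ρ ^ (-((k + 1 : ℕ) : ℤ)) = ρ ^ (-(k : ℤ)) * ρ⁻¹ := by
      rw [← zpow_neg_one, ← zpow_add₀ hρ0]
      congr 1
      push_cast; ring
    rw [h2]
    ring

/-- `ρ ^ j A_m` is disjoint from `A_m'` unless `m - j n = m'` -/
theorem Akd_zpow_disjoint (hw : ∀ i, w (i + n) = w i) (hB : BD c g th E) (hS : SQ c g th E s)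
    {ρ : ℂ} (hK : KD c g s w n b ρ h) {m m' : ℕ} {j : ℤ} (hm : (m : ℤ) - n * j ≠ m') :
    Disjoint ((fun z => ρ ^ j * z) '' Akd c g s w h m) (Akd c g s w h m') := by
  have hρ0 : ρ ≠ 0 := by
    intro h0
    have := hK.one_lt
    rw [h0, norm_zero] at this
    linarith
  rcases le_total j 0 with hj | hj
  · obtain ⟨k, rfl⟩ : ∃ k : ℕ, j = -(k : ℤ) := ⟨j.natAbs, by omega⟩
    rw [← Akd_add hw hB hS hK]
    refine Akd_disjoint hB hS hK fun he => hm ?_
    rw [← he]; push_cast; ring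
  · obtain ⟨k, rfl⟩ : ∃ k : ℕ, j = (k : ℤ) := ⟨j.natAbs, by omega⟩
    have h1 : Disjoint (Akd c g s w h m) (Akd c g s w h (m' + n * k)) := by
      refine Akd_disjoint hB hS hK fun he => hm ?_
      rw [he]; push_cast; ring
    rw [Akd_add hw hB hS hK] at h1
    rw [Set.disjoint_left] at h1 ⊢
    rintro _ ⟨x, hx, rfl⟩ hx'
    refine h1 hx ⟨_, hx', ?_⟩
    show ρ ^ (-(k : ℤ)) * (ρ ^ (k : ℤ) * x) = x
    rw [← mul_assoc, ← zpow_add₀ hρ0]
    simp

end Pool.Agent.Work.MLC
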