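import Pool.Agent.Work.MLC.SatOut4
import Pool.Agent.Work.MLC.ExtP57
import Pool.Agent.Work.MLC.PlyKoe

set_option autoImplicit false

/-! # Exterior parameters: the ray of a compatible angle is unbroken and lands (helper4) -/

namespace Pool.Agent.Work.MLC

open Filter Topology Metric Set

lemma ray0_of_mem {c : ℂ} {β : ℝ} (hM : G c 0 = 0) : Ray0 c β (eR c β) where
  cont := by
    have := continuousOn_eR_right c β
    rwa [hM] at this
  conj := fun t ht j _ => it_eR (by rw [hM]; exact ht) j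
  ne := fun t ht j h0 => by
    have h1 := congrArg (G c) (it_eR (c := c) (β := β) (t := t) (by rw [hM]; exact ht) j)
    have h2 : (0 : ℝ) < 2 ^ j * t := by positivity
    rw [h0, hM, G_eR (by rw [hM]; exact h2)] at h1
    linarith

namespace SatR

variable {c : ℂ} {θ : ℝ} {s : ℂ → ℂ}

/-- a finite stage of the extended ray -/
noncomputable def RY (c : ℂ) (s : ℂ → ℂ) (j : ℕ) (β : ℝ) (v : ℕ → ℤ) (t : ℝ) : ℂ :=
  gc s v j (eR c (2 ^ j * β) (2 ^ j * t))

lemma RY_zero (β : ℝ) (v : ℕ → ℤ) (t : ℝ) : RY c s 0 β v t = eR c β t := by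
  simp [RY, gc_zero]

lemma RY_add (m j : ℕ) (β : ℝ) (v : ℕ → ℤ) (t : ℝ) :
    RY c s (m + j) β v t = gc s v m (RY c s j (2 ^ m * β) (fun i => v (m + i)) (2 ^ m * t)) := by
  unfold RY
  rw [gc_add]
  congr 3 <;> rw [pow_add] <;> ring

lemma compat_shift {β θ : ℝ} {v : ℕ → ℤ} (h : Compat β θ v) (m : ℕ) :
    Compat (2 ^ m * β) θ (fun i => v (m + i)) := by
  intro i
  obtain ⟨k, h1, h2⟩ := h (m + i)
  refine ⟨k, ?_, ?_⟩
  · have : (2 : ℝ) ^ i * (2 ^ m * β) = 2 ^ (m + i) * β := by rw [pow_add]; ring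
    rw [this]; exact h1
  · have : (2 : ℝ) ^ i * (2 ^ m * β) = 2 ^ (m + i) * β := by rw [pow_add]; ring
    rw [this]; exact h2

lemma eR_im' (t β : ℝ) : ((t : ℂ) + 2 * Real.pi * Complex.I * (β : ℂ)).im = 2 * Real.pi * β := by
  simp

lemma RY_succ (hA : Ang c θ) (hS : SQ c (G c c) (2 * Real.pi * θ) (eta c) s) {β : ℝ} {v : ℕ → ℤ}
    (hv : Compat β θ v) {j : ℕ} {t : ℝ} (ht : G c 0 < 2 ^ j * t) :
    RY c s (j + 1) β v t = RY c s j β v t := by
  have hB := hA.BD
  have hpi := Real.pi_pos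
  obtain ⟨k, h1, h2⟩ := hv j
  unfold RY
  rw [gc_succ]
  congr 1
  have h3 : OnSide c s (v j) (eR c (2 ^ j * β) (2 ^ j * t)) := by
    refine onSide_E hB hS ?_ (v j) k ?_ ?_
    · rw [eR_re, ← G_zero_eq]; exact ht
    · rw [eR_im']
      have h4 := mul_lt_mul_of_pos_left h1 (by positivity : 0 < 2 * Real.pi)
      linarith
    · rw [eR_im']
      have h4 := mul_lt_mul_of_pos_left h2 (by positivity : 0 < 2 * Real.pi)
      linarith
  unfold OnSide at h3
  rw [f_eR ht] at h3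
  rw [h3]
  congr 2 <;> ring

/-- the extended ray -/
noncomputable def RX (c : ℂ) (s : ℂ → ℂ) (β : ℝ) (v : ℕ → ℤ) (t : ℝ) : ℂ := by
  classical exact if h : 0 < t then RY c s (Nat.find (exists_pow_gt (G c 0) h)) β v t else 0

lemma RX_eq (hA : Ang c θ) (hS : SQ c (G c c) (2 * Real.pi * θ) (eta c) s) {β : ℝ} {v : ℕ → ℤ}
    (hv : Compat β θ v) {j : ℕ} {t : ℝ} (ht : 0 < t) (hj : G c 0 < 2 ^ j * t) :
    RX c s β v t = RY c s j β v t := by
  classical
  unfold RX
  rw [dif_pos ht]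
  set N := Nat.find (exists_pow_gt (G c 0) ht) with hN
  have h1 : G c 0 < 2 ^ N * t := Nat.find_spec (exists_pow_gt (G c 0) ht)
  have h2 : N ≤ j := Nat.find_min' _ hj
  clear hj
  induction j, h2 using Nat.le_induction with
  | base => rfl
  | succ m hm ih =>
    rw [RY_succ hA hS hv, ih]
    have : (2 : ℝ) ^ N ≤ 2 ^ m := pow_le_pow_right₀ (by norm_num) hm
    nlinarith

lemma RX_add (hA : Ang c θ) (hS : SQ c (G c c) (2 * Real.pi * θ) (eta c) s) {β : ℝ} {v : ℕ → ℤ}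
    (hv : Compat β θ v) (m : ℕ) {t : ℝ} (ht : 0 < t) :
    RX c s β v t = gc s v m (RX c s (2 ^ m * β) (fun i => v (m + i)) (2 ^ m * t)) := by
  have ht2 : 0 < 2 ^ m * t := by positivity
  obtain ⟨j, hj⟩ := exists_pow_gt (G c 0) ht2
  rw [RX_eq hA hS (compat_shift hv m) ht2 hj, RX_eq (j := m + j) hA hS hv ht (by
    rw [add_comm, pow_add]; linarith [hj]), RY_add]

lemma RX_one (hA : Ang c θ) (hS : SQ c (G c c) (2 * Real.pi * θ) (eta c) s) {β : ℝ} {v : ℕ → ℤ}
    (hv : Compat β θ v) {t : ℝ} (ht : 0 < t) :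
    RX c s β v t = sb s (v 0) (RX c s (2 * β) (fun i => v (1 + i)) (2 * t)) := by
  have h := RX_add hA hS hv 1 ht
  rw [gc_succ, gc_zero, pow_one] at h
  exact h

lemma RX_far (hA : Ang c θ) (hS : SQ c (G c c) (2 * Real.pi * θ) (eta c) s) {β : ℝ} {v : ℕ → ℤ}
    (hv : Compat β θ v) {t : ℝ} (ht : G c 0 < t) : RX c s β v t = eR c β t := by
  rw [RX_eq (j := 0) hA hS hv (lt_of_le_of_lt (G_nonneg c 0) ht) (by simpa using ht), RY_zero]

/-- `2 β` is not the angle of `c` -/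
lemma ne_of_compat {β θ : ℝ} {v : ℕ → ℤ} (h : Compat β θ v) (l : ℤ) : 2 * β ≠ θ + l := by
  obtain ⟨k, h1, h2⟩ := h 0
  rw [pow_zero, one_mul] at h1 h2
  intro h3
  have h4 : ((v 0 + 2 * k : ℤ) : ℝ) < l := by push_cast; linarith
  have h5 : (l : ℝ) < ((v 0 + 2 * k + 1 : ℤ) : ℝ) := by push_cast; linarith
  have h6 : v 0 + 2 * k < l := by exact_mod_cast h4
  have h7 : l < v 0 + 2 * k + 1 := by exact_mod_cast h5
  omega

/-- points on the double of a compatible ray above `G c 0` are not on the ray of `c` -/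
lemma eR_notMem_ray (hA : Ang c θ) {β : ℝ} (hβ : ∀ l : ℤ, β ≠ θ + l) {t : ℝ}
    (ht : G c 0 < t) : eR c β t ∉ ray (eta c) (G c c) (2 * Real.pi * θ) := by
  have hB := hA.BD
  have hpi := Real.pi_pos
  rintro ⟨r, hr, he⟩
  have hpos := hB.pos
  have h0 : G c 0 < G c c := by rw [G_zero_eq]; linarith
  unfold eR at he
  obtain ⟨k, hk⟩ := hB.inj _ _ (by rw [eR_re, ← G_zero_eq]; exact ht)
    (by simp; linarith) he
  have h2 := congrArg Complex.im hk
  simp at h2
  apply hβ k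
  have h3 : 2 * Real.pi * (β - (θ + k)) = 0 := by linarith
  rcases mul_eq_zero.1 h3 with h4 | h4
  · exfalso; linarith
  · linarith

lemma RX_core (hA : Ang c θ) (hS : SQ c (G c c) (2 * Real.pi * θ) (eta c) s) (j : ℕ) :
    ∀ {β : ℝ} {v : ℕ → ℤ}, Compat β θ v → ∀ {t : ℝ}, 0 < t → G c 0 < 2 ^ j * t →
    G c (RX c s β v t) = t ∧
      RX c s (2 * β) (fun i => v (1 + i)) (2 * t) ∉ ray (eta c) (G c c) (2 * Real.pi * θ) := by
  induction j with
  | zero =>
    intro β v hv t ht hj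
    have h1 : G c 0 < t := by simpa using hj
    have hv' := compat_shift hv 1
    rw [pow_one] at hv'
    have h2 : G c 0 < 2 * t := by linarith
    refine ⟨by rw [RX_far hA hS hv h1, G_eR h1], ?_⟩
    rw [RX_far hA hS hv' h2]
    exact eR_notMem_ray hA (ne_of_compat hv) h2
  | succ j ih =>
    intro β v hv t ht hj
    have hv' := compat_shift hv 1
    rw [pow_one] at hv'
    have ht2 : 0 < 2 * t := by linarith
    obtain ⟨h1, -⟩ := ih hv' ht2 (by rw [pow_succ] at hj; linarith)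
    have hnr : RX c s (2 * β) (fun i => v (1 + i)) (2 * t) ∉
        ray (eta c) (G c c) (2 * Real.pi * θ) := by
      by_cases h2 : G c 0 < 2 * t
      · rw [RX_far hA hS hv' h2]
        exact eR_notMem_ray hA (ne_of_compat hv) h2
      · intro h3
        have h4 := hA.BD.G_ray h3
        rw [h1] at h4
        have h5 : G c 0 < G c c := by
          have := hA.1
          rw [G_zero_eq]; linarith
        linarith
    refine ⟨?_, hnr⟩
    have h3 := hS.f_sb hnr (v 0)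
    rw [← RX_one hA hS hv ht] at h3
    have h4 := congrArg (G c) h3
    rw [G_f, h1] at h4
    linarith

lemma RX_green (hA : Ang c θ) (hS : SQ c (G c c) (2 * Real.pi * θ) (eta c) s) {β : ℝ} {v : ℕ → ℤ}
    (hv : Compat β θ v) {t : ℝ} (ht : 0 < t) : G c (RX c s β v t) = t := by
  obtain ⟨j, hj⟩ := exists_pow_gt (G c 0) ht
  exact (RX_core hA hS j hv ht hj).1

lemma RX_nr (hA : Ang c θ) (hS : SQ c (G c c) (2 * Real.pi * θ) (eta c) s) {β : ℝ} {v : ℕ → ℤ}
    (hv : Compat β θ v) {t : ℝ} (ht : 0 < t) :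
    RX c s (2 * β) (fun i => v (1 + i)) (2 * t) ∉ ray (eta c) (G c c) (2 * Real.pi * θ) := by
  obtain ⟨j, hj⟩ := exists_pow_gt (G c 0) ht
  exact (RX_core hA hS j hv ht hj).2

lemma f_RX (hA : Ang c θ) (hS : SQ c (G c c) (2 * Real.pi * θ) (eta c) s) {β : ℝ} {v : ℕ → ℤ}
    (hv : Compat β θ v) {t : ℝ} (ht : 0 < t) :
    f c (RX c s β v t) = RX c s (2 * β) (fun i => v (1 + i)) (2 * t) := by
  rw [RX_one hA hS hv ht]
  exact hS.f_sb (RX_nr hA hS hv ht) (v 0)

lemma it_RX (hA : Ang c θ) (hS : SQ c (G c c) (2 * Real.pi * θ) (eta c) s) {β : ℝ} {v : ℕ → ℤ}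
    (hv : Compat β θ v) (j : ℕ) {t : ℝ} (ht : 0 < t) :
    it c j (RX c s β v t) = RX c s (2 ^ j * β) (fun i => v (j + i)) (2 ^ j * t) := by
  induction j with
  | zero => simp
  | succ j ih =>
    rw [it_succ, ih, f_RX hA hS (compat_shift hv j) (by positivity)]
    congr 1
    · rw [pow_succ]; ring
    · funext i; congr 1; ring
    · rw [pow_succ]; ring

lemma RX_ne (hA : Ang c θ) (hS : SQ c (G c c) (2 * Real.pi * θ) (eta c) s) {β : ℝ} {v : ℕ → ℤ}
    (hv : Compat β θ v) {t : ℝ} (ht : 0 < t) : RX c s β v t ≠ 0 := by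
  rw [RX_one hA hS hv ht]
  exact hS.sb_ne_zero (RX_nr hA hS hv ht) _

lemma RX_continuousOn (hA : Ang c θ) (hS : SQ c (G c c) (2 * Real.pi * θ) (eta c) s) (j : ℕ) :
    ∀ {β : ℝ} {v : ℕ → ℤ}, Compat β θ v → ContinuousOn (RX c s β v) (Ioi (G c 0 / 2 ^ j)) := by
  have h0 : 0 ≤ G c 0 := G_nonneg c 0
  induction j with
  | zero =>
    intro β v hv
    rw [pow_zero, div_one]
    exact (continuousOn_eR_right c β).congr fun t ht => RX_far hA hS hv ht
  | succ j ih =>
    intro β v hv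
    have hv' := compat_shift hv 1
    rw [pow_one] at hv'
    have hpos : ∀ t ∈ Ioi (G c 0 / 2 ^ (j + 1)), 0 < t := fun t ht =>
      lt_of_le_of_lt (by positivity) ht
    have h1 : ContinuousOn (fun t : ℝ => RX c s (2 * β) (fun i => v (1 + i)) (2 * t))
        (Ioi (G c 0 / 2 ^ (j + 1))) := by
      refine (ih hv').comp (f := fun t : ℝ => 2 * t) (by fun_prop) ?_
      intro t ht
      have ht' : G c 0 / 2 ^ (j + 1) < t := ht
      show G c 0 / 2 ^ j < 2 * t
      have h2 : G c 0 / 2 ^ j = 2 * (G c 0 / 2 ^ (j + 1)) := by rw [pow_succ]; field_simp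
      rw [h2]; linarith
    have h2 := ((hS.differentiableOn_sb (v 0)).continuousOn).comp h1
      (fun t ht => RX_nr hA hS hv (hpos t ht))
    exact h2.congr fun t ht => RX_one hA hS hv (hpos t ht)

theorem ray0_RX (hA : Ang c θ) (hS : SQ c (G c c) (2 * Real.pi * θ) (eta c) s) {β : ℝ} {v : ℕ → ℤ}
    (hv : Compat β θ v) : Ray0 c β (RX c s β v) where
  cont := by
    intro t ht
    have ht' : (0 : ℝ) < t := ht
    obtain ⟨j, hj⟩ := exists_pow_gt (G c 0) ht'
    have h1 : G c 0 / 2 ^ j < t := by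
      rw [div_lt_iff₀ (by positivity)]; linarith
    exact ((RX_continuousOn hA hS j hv).continuousAt (Ioi_mem_nhds h1)).continuousWithinAt
  conj := fun t ht j hj => by
    rw [it_RX hA hS hv j ht, RX_far hA hS (compat_shift hv j) hj]
  ne := fun t ht j => by
    rw [it_RX hA hS hv j ht]
    exact RX_ne hA hS (compat_shift hv j) (by positivity)

/-- the ray of a compatible periodic angle lands at the point with the word -/
theorem lands_RX {n : ℕ} (hn : 0 < n) {z₀ : ℂ} {v : ℕ → ℤ} (h : ExtP n c z₀ θ v)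
    (hS : SQ c (G c c) (2 * Real.pi * θ) (eta c) s) {β : ℝ} {m : ℤ} (hβ : 2 ^ n * β = β + m)
    (hv : Compat β θ v) : Ray c β z₀ (RX c s β v) := by
  have hA := h.ang
  have hB := hA.BD
  have h0 := ray0_RX hA hS hv
  have hper : ∀ i, v (n + i) = v i := fun i => by rw [add_comm]; exact h.2.2.2.1.per i
  -- the functional equation
  have hstep : ∀ t, 0 < t → RX c s β v t = gc s v n (RX c s β v (2 ^ n * t)) := by
    intro t ht
    have ht2 : 0 < 2 ^ n * t := by positivity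
    obtain ⟨j, hj⟩ := exists_pow_gt (G c 0) ht2
    rw [RX_add hA hS hv n ht]
    congr 1
    rw [RX_eq hA hS (compat_shift hv n) ht2 hj, RX_eq hA hS hv ht2 hj]
    have h1 : (fun i => v (n + i)) = v := funext hper
    rw [h1]
    unfold RY
    congr 1
    rw [hβ]
    have h2 : (2 : ℝ) ^ j * (β + m) = 2 ^ j * β + ((2 ^ j * m : ℤ) : ℝ) := by push_cast; ring
    rw [h2, eR_add_int]
  have hiter : ∀ k : ℕ, ∀ t, 0 < t →
      RX c s β v t = (gc s v n)^[k] (RX c s β v ((2 ^ n) ^ k * t)) := by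
    intro k
    induction k with
    | zero => intro t _; simp
    | succ k ih =>
      intro t ht
      rw [ih t ht, Function.iterate_succ_apply, hstep _ (by positivity)]
      congr 3
      rw [pow_succ]; ring
  obtain ⟨hgc, hbU⟩ := h.data hn hS
  have D := plySelf_gc (w := v) hB hS hn hbU hgc
  refine ⟨h0.cont, h0.conj, h0.ne, ?_⟩
  rw [Metric.tendsto_nhds]
  intro ε hε
  obtain ⟨k₀, hk₀⟩ := D.exists_iter_ball ε hε
  have hpos := hB.pos
  have hτ : 0 < G c c / (2 ^ n) ^ k₀ := by positivity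
  filter_upwards [Ioo_mem_nhdsGT hτ] with t ht
  rw [hiter k₀ t ht.1]
  refine mem_ball.1 (hk₀ k₀ le_rfl _ ?_)
  show G c _ < G c c
  have ht1 := ht.1
  rw [RX_green hA hS hv (by positivity)]
  have := ht.2
  rw [lt_div_iff₀ (by positivity)] at this
  linarith

end SatR

/-- **for exterior parameters the ray of a compatible periodic angle lands** -/
theorem ExtP.lands {n : ℕ} (hn : 0 < n) {c z₀ : ℂ} {θ : ℝ} {v : ℕ → ℤ} (h : ExtP n c z₀ θ v)
    {β : ℝ} {m : ℤ} (hβ : 2 ^ n * β = β + m) (hv : Compat β θ v) : Lands c β z₀ := by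
  obtain ⟨sq, hS⟩ := exists_SQ h.ang.BD
  exact ⟨_, SatR.lands_RX hn h hS hβ hv⟩

end Pool.Agent.Work.MLC
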