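import Pool.Agent.Work.MLC.SatE26
import Pool.Agent.Work.MLC.SatRay4

set_option autoImplicit false

/-! # Theorem S, module S6: the outer part (helper4) -/

namespace Pool.Agent.Work.MLC.Sat

open Filter Topology Metric Set Complex

variable {D : Dat}

lemma pow_tm (hC : D.Cir) : ∃ k : ℤ, 2 ^ D.n * D.tm = D.tm + k := hC.per.exists_pow

lemma pow_tp (hC : D.Cir) : ∃ k : ℤ, 2 ^ D.n * D.tp = D.tp + k := by
  obtain ⟨k, hk⟩ := pow_tm hC
  obtain ⟨j, l, h⟩ := hC.orb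
  refine ⟨2 ^ (D.m * j) * k + 2 ^ D.n * l - l, ?_⟩
  have h1 : (2 : ℝ) ^ D.n * D.tp = 2 ^ (D.m * j) * (2 ^ D.n * D.tm) + 2 ^ D.n * l := by
    rw [h]; ring
  rw [h1, hk]
  push_cast
  rw [h]; ring

/-- over exterior parameters outside the closed wake the ray `tm` lands at a point of the cycle
with the word `u` -/
lemma ext_lands4 (hP : D.Par) (hC : D.Cir) {θ : ℝ} {c z₀ : ℂ} (hz : ExtP D.n c z₀ θ D.u)
    (hN : D.Near θ) (hlr : θ < D.tm ∨ D.tp < θ) : ∃ i, Lands c D.tm (it c i z₀) := by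
  rcases hlr with h1 | h1
  · obtain ⟨k, hk⟩ := pow_tm hC
    exact ⟨0, hz.lands (Par_n_pos hP) hk (hC.compat_u_left θ hN h1)⟩
  · obtain ⟨k, hk⟩ := pow_tp hC
    have h2 := hz.lands (Par_n_pos hP) hk (hC.compat_u_right θ hN h1)
    obtain ⟨j, l, h⟩ := hC.orb'
    refine ⟨D.m * j, ?_⟩
    have h3 := (h2.push59 (D.m * j)).add59 l
    rwa [← h] at h3

/-- exterior points with the word `u` have exact period `n` -/
lemma ext_exact4 (hC : D.Cir) {θ : ℝ} {c z₀ : ℂ} (hz : ExtP D.n c z₀ θ D.u) {d : ℕ}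
    (hd : 0 < d) (hdn : d < D.n) : it c d z₀ ≠ z₀ := by
  intro h
  obtain ⟨i, hi⟩ := hC.uprim d hd hdn
  have hz' : ExtP D.n c z₀ θ (fun i => D.u (i + d)) := by
    refine ⟨hz.1, hz.2.1, hz.2.2.1, ⟨fun i => hz.2.2.2.1.bit _, fun i => ?_⟩, fun i => ?_⟩
    · have := hz.2.2.2.1.per (i + d)
      rw [← this]; congr 1; ring
    · have h1 := hz.2.2.2.2 (i + d)
      rwa [it_add, h] at h1
  obtain ⟨m, hm, hev⟩ := extP_unique hz hz'
  have hm0 : m = 0 := by
    have : (m : ℝ) = 0 := by linarith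
    exact_mod_cast this
  have h1 := hev i
  rw [hm0] at h1
  simp only [sub_zero] at h1
  apply hi
  rcases hz.2.2.2.1.bit i with a | a <;> rcases hz.2.2.2.1.bit (i + d) with b | b <;>
    rw [a, b] at h1 ⊢ <;> norm_num at h1

/-- the local section over the component of a point of `RO` -/
theorem outer_section4 (hP : D.Par) (hC : D.Cir) (hR : Regions D) {L : ℂ} (hL : L ∈ D.RO) :
    ∃ V : Set ℂ, IsOpen V ∧ L ∈ V ∧ V ⊆ D.RO ∧ ∃ g : ℂ → ℂ,
      DifferentiableOn ℂ g (D.c '' V) ∧ IsOpen (D.c '' V) ∧ ∀ c ∈ D.c '' V,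
        Lands c D.tm (g c) ∧ it c D.n (g c) = g c ∧ 1 < ‖mult D.n c (g c)‖ ∧
        ∀ d, 0 < d → d < D.n → it c d (g c) ≠ g c := by
  have hn := Par_n_pos hP
  set V : Set ℂ := connectedComponentIn D.RO L with hV
  have hVo : IsOpen V := hR.openO.connectedComponentIn
  have hVc : IsPreconnected V := isPreconnected_connectedComponentIn
  have hVs : V ⊆ D.RO := connectedComponentIn_subset _ _
  have hLV : L ∈ V := mem_connectedComponentIn hL
  have hVB : V ⊆ D.B := fun x hx => U_sub_B hP (hVs hx).1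
  have hcont : ContinuousOn D.c V := fun x hx => (c_contAt hP (hVB hx)).continuousWithinAt
  have himg : ∀ W ⊆ V, IsOpen W → IsOpen (D.c '' W) := by
    intro W hWV hW
    rw [isOpen_iff_mem_nhds]
    rintro _ ⟨x, hx, rfl⟩
    rw [← c_map_nhds hP (hVB (hWV hx))]
    exact image_mem_map (hW.mem_nhds hx)
  have hUo := himg V subset_rfl hVo
  have hUc : IsPreconnected (D.c '' V) := hVc.image _ hcont
  -- exterior points
  have hmeet : (V ∩ D.RE).Nonempty := by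
    refine hR.meetO V hVs ⟨L, hLV⟩ hVo fun x hx hxc => ?_
    have h1 : IsPreconnected (insert x V) :=
      hVc.subset_closure (subset_insert _ _) (insert_subset hxc subset_closure)
    exact h1.subset_connectedComponentIn (mem_insert_of_mem _ hLV)
      (insert_subset hx hVs) (mem_insert _ _)
  have hVe : IsOpen (D.c '' (V ∩ D.RE)) := himg _ inter_subset_left (hVo.inter hR.openE)
  -- landing over exterior points
  have hext : ∀ c ∈ D.c '' (V ∩ D.RE), ∃ z₀ θ, ExtP D.n c z₀ θ D.u ∧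
      ∃ i, Lands c D.tm (it c i z₀) := by
    rintro _ ⟨x, ⟨hxV, hxE⟩, rfl⟩
    obtain ⟨θ, hθ⟩ := hP.ang x (hVB hxV) hxE.2
    obtain ⟨z₀, hz₀⟩ := exists_u hP hC hθ
    exact ⟨z₀, θ, hz₀, ext_lands4 hP hC hz₀ (hR.near x hxE.1 θ hθ) ((hVs hxV).2.2 θ hθ)⟩
  -- rays
  have hray : ∀ c ∈ D.c '' V, ∃ R, Ray0 c D.tm R := by
    rintro _ ⟨x, hx, rfl⟩
    by_cases hM : D.c x ∈ MM
    · exact ⟨_, ray0_of_mem (G_zero_of_mem hM)⟩
    · obtain ⟨z₀, θ, -, i, R, hR'⟩ := hext _ ⟨x, ⟨hx, (hVs hx).1, hM⟩, rfl⟩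
      exact ⟨R, hR'.ray0⟩
  choose! R hR0 using hray
  obtain ⟨k, hk⟩ := pow_tm hC
  obtain ⟨g, hg, hgp⟩ := out_section hUo hUc hn hk hR0 hVe (image_mono inter_subset_left)
    (hmeet.image _) (by
      intro c hc
      obtain ⟨z₀, θ, hz₀, i, hi⟩ := hext c hc
      refine ⟨_, hi, ?_⟩
      have h1 : (c, z₀) ∈ Per D.n := hz₀.2.2.1
      have h2 := mul_it' h1 i
      rw [mult_eq_mul, h2]
      exact one_lt_norm_mult_of_ext hn hz₀.1 hz₀.2.2.1)
  refine ⟨V, hVo, hLV, hVs, g, hg, hUo, fun c hc => ?_⟩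
  obtain ⟨h1, h2, h3⟩ := hgp c hc
  refine ⟨⟨_, h1⟩, h2, h3, ?_⟩
  -- exactness
  intro d hd hdn hfix
  set e := Nat.gcd D.n d with he
  have he0 : 0 < e := Nat.gcd_pos_of_pos_left _ hn
  have hed : e ∣ d := Nat.gcd_dvd_right _ _
  have hen : e ∣ D.n := Nat.gcd_dvd_left _ _
  have helt : e < D.n := lt_of_le_of_lt (Nat.le_of_dvd hd hed) hdn
  have hfe : it c e (g c) = g c := by
    have a1 : Function.IsPeriodicPt (f c) D.n (g c) := h2
    have a2 : Function.IsPeriodicPt (f c) d (g c) := hfix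
    exact a1.gcd a2
  -- the multiplier of the smaller period is not one
  obtain ⟨q, hq⟩ := hen
  have hpow : ∀ (q : ℕ) (y : ℂ), it c e y = y → mul (e * q) (c, y) = mul e (c, y) ^ q := by
    intro q y hy
    induction q with
    | zero => simp [mul]
    | succ q ih =>
      have h4 : e * (q + 1) = e * q + e := by ring
      have h5 : mul (e * q + e) (c, y) = mul (e * q) (c, y) * mul e (c, it c (e * q) y) := by
        unfold mul
        rw [Finset.prod_range_add]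
        congr 1
        refine Finset.prod_congr rfl fun i _ => ?_
        simp only
        rw [it_comp, add_comm]
      have h6 : it c (e * q) y = y := by
        have := it_mul_per hy 0 q
        rwa [zero_add, it_zero] at this
      rw [h4, h5, h6, ih, pow_succ]
  have hme : mul e (c, g c) ≠ 1 := by
    intro h4
    have h5 := hpow q (g c) hfe
    rw [← hq, h4, one_pow] at h5
    rw [mult_eq_mul, h5] at h3
    simp at h3
  have hmn : mul D.n (c, g c) ≠ 1 := by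
    intro h4
    rw [mult_eq_mul, h4] at h3
    simp at h3
  -- the difference vanishes near `c`
  obtain ⟨β, hβ1, hβ2, hβ3⟩ := chart (n := D.n) (x₀ := (c, g c)) h2 hmn
  obtain ⟨γ, hγ1, hγ2, hγ3⟩ := chart (n := e) (x₀ := (c, g c)) hfe hme
  have hgc : ContinuousAt g c := (hg.differentiableAt (hUo.mem_nhds hc)).continuousAt
  have hev : ∀ᶠ c' in 𝓝 c, it c' e (g c') = g c' := by
    have t1 : Tendsto (fun c' => ((c', g c') : ℂ × ℂ)) (𝓝 c) (𝓝 (c, g c)) :=
      continuousAt_id.prodMk hgc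
    have t2 : Tendsto (fun c' => ((c', γ c') : ℂ × ℂ)) (𝓝 c) (𝓝 (c, g c)) := by
      have := (continuousAt_id (x := c)).prodMk hγ1.continuousAt
      have h4 : γ c = g c := hγ2
      rw [ContinuousAt, h4] at this
      exact this
    filter_upwards [t1.eventually hβ3, t2.eventually hβ3, t2.eventually hγ3, hUo.mem_nhds hc]
      with c' h4 h5 h6 h7
    have h8 : (c', γ c') ∈ Per e := h6.2 rfl
    have h9 : (c', γ c') ∈ Per D.n := by
      rw [hq]
      have h10 : it c' e (γ c') = γ c' := h8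
      have := it_mul_per h10 0 q
      rwa [zero_add, it_zero] at this
    have h10 : (c', g c') ∈ Per D.n := (hgp c' h7).2.1
    have h11 : β c' = g c' := h4.1 h10
    have h12 : β c' = γ c' := h5.1 h9
    have h13 : g c' = γ c' := by rw [← h11, h12]
    rw [h13]; exact h8
  have hall : EqOn (fun c' => it c' e (g c') - g c') 0 (D.c '' V) := by
    have hd1 : DifferentiableOn ℂ (fun c' => it c' e (g c') - g c') (D.c '' V) := by
      have h4 : Differentiable ℂ fun p : ℂ × ℂ => it p.1 e p.2 :=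
        (contDiff_it4 e).differentiable one_ne_zero
      exact (h4.comp_differentiableOn (differentiableOn_id.prodMk hg)).sub hg
    refine (hd1.analyticOnNhd hUo).eqOn_zero_of_preconnected_of_eventuallyEq_zero hUc hc ?_
    filter_upwards [hev] with c' h4
    simp [h4]
  obtain ⟨x, hx⟩ := hmeet
  obtain ⟨z₀, θ, hz₀, i, hi⟩ := hext (D.c x) ⟨x, hx, rfl⟩
  have h4 := hall ⟨x, hx.1, rfl⟩
  simp only [Pi.zero_apply] at h4
  have h5 : g (D.c x) = it (D.c x) i z₀ :=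
    Lands.uniq59 ⟨_, (hgp _ ⟨x, hx.1, rfl⟩).1⟩ hi
  have h6 : it (D.c x) e (it (D.c x) i z₀) = it (D.c x) i z₀ := by
    rw [← h5]; exact sub_eq_zero.1 h4
  apply ext_exact4 hC hz₀ he0 helt
  have h7 := it_back hn hz₀.2.2.1 i
  have h8 : it (D.c x) e z₀ = it (D.c x) (D.n * i - i) (it (D.c x) e (it (D.c x) i z₀)) := by
    calc it (D.c x) e z₀ = it (D.c x) e (it (D.c x) (D.n * i - i) (it (D.c x) i z₀)) := by rw [h7]
      _ = _ := by
        rw [it_comp _ (it (D.c x) i z₀) e, it_comp _ (it (D.c x) i z₀) (D.n * i - i), add_comm]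
  rw [h8, h6, h7]

/-- the cycle -/
def ZO (D : Dat) (L : ℂ) : Set ℂ := {z | ∃ z₀, Lands (D.c L) D.tm z₀ ∧ ∃ i, z = it (D.c L) i z₀}

theorem s6_outer : S6_outer := by
  intro D hP hC hR
  have hn := Par_n_pos hP
  have key : ∀ L ∈ D.RO, ∃ z₀, Lands (D.c L) D.tm z₀ ∧ (D.c L, z₀) ∈ Per D.n ∧
      1 < ‖mul D.n (D.c L, z₀)‖ ∧ ∀ d, 0 < d → d < D.n → it (D.c L) d z₀ ≠ z₀ := by
    intro L hL
    obtain ⟨V, -, hLV, -, g, -, -, h⟩ := outer_section4 hP hC hR hL
    obtain ⟨h1, h2, h3, h4⟩ := h _ ⟨L, hLV, rfl⟩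
    exact ⟨_, h1, h2, h3, h4⟩
  have hit : ∀ L, ∀ z ∈ ZO D L, ∀ i, it (D.c L) i z ∈ ZO D L := by
    rintro L z ⟨z₀, h1, j, rfl⟩ i
    exact ⟨z₀, h1, i + j, it_comp _ _ _ _⟩
  refine ⟨ZO D, ⟨?_, ?_, ?_, ?_⟩, ?_, ?_, ?_⟩
  · intro L hL
    obtain ⟨z₀, h1, -⟩ := key L hL
    exact ⟨z₀, z₀, h1, 0, rfl⟩
  · rintro L hL z ⟨z₁, h1, i, rfl⟩
    obtain ⟨z₀, h2, h3, h4, -⟩ := key L hL
    rw [h1.uniq59 h2]
    refine ⟨Per_it h3 i, ?_⟩
    rw [mul_it' h3 i]
    intro h5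
    rw [h5] at h4
    simp at h4
  · rintro L hL z ⟨z₁, h1, i, rfl⟩ z'
    obtain ⟨z₀, h2, h3, -, -⟩ := key L hL
    have h5 := h1.uniq59 h2
    subst h5
    constructor
    · rintro ⟨z₂, h6, j, rfl⟩
      rw [h6.uniq59 h2]
      refine ⟨D.n * i - i + j, ?_⟩
      rw [add_comm, it_add, it_back hn h3 i]
    · rintro ⟨j, rfl⟩
      exact ⟨z₁, h1, j + i, it_comp _ _ _ _⟩
  · rintro L hL z ⟨z₁, h1, i, rfl⟩
    obtain ⟨V, hVo, hLV, hVs, g, hg, hUo, h⟩ := outer_section4 hP hC hR hL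
    obtain ⟨h2, h3, h4, -⟩ := h _ ⟨L, hLV, rfl⟩
    have h5 := h1.uniq59 h2
    have hcc := c_contAt hP (U_sub_B hP hL.1)
    have hcU : D.c L ∈ D.c '' V := ⟨L, hLV, rfl⟩
    rw [h5]
    refine cont_of_branch hn i hcc h3 ?_ (Eventually.of_forall fun L' => hit L')
    have hmn : mul D.n (D.c L, g (D.c L)) ≠ 1 := by
      intro h6
      rw [mult_eq_mul, h6] at h4
      simp at h4
    obtain ⟨β, hβ1, hβ2, hβ3⟩ := chart (n := D.n) (x₀ := (D.c L, g (D.c L))) h3 hmn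
    have hgc : ContinuousAt g (D.c L) := (hg.differentiableAt (hUo.mem_nhds hcU)).continuousAt
    have t1 : Tendsto (fun c' => ((c', g c') : ℂ × ℂ)) (𝓝 (D.c L)) (𝓝 (D.c L, g (D.c L))) :=
      continuousAt_id.prodMk hgc
    have t2 : Tendsto (fun p : ℂ × ℂ => ((D.c p.1, p.2) : ℂ × ℂ)) (𝓝 (L, g (D.c L)))
        (𝓝 (D.c L, g (D.c L))) := by
      refine Tendsto.prodMk_nhds ?_ continuousAt_snd
      exact hcc.tendsto.comp continuousAt_fst
    have t3 : Tendsto (fun p : ℂ × ℂ => D.c p.1) (𝓝 (L, g (D.c L))) (𝓝 (D.c L)) :=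
      hcc.tendsto.comp continuousAt_fst
    filter_upwards [t2.eventually hβ3, t3.eventually (t1.eventually hβ3),
      continuousAt_fst.eventually (hVo.mem_nhds hLV)] with p h6 h7 h8 h9
    have h10 := h (D.c p.1) ⟨p.1, h8, rfl⟩
    have h11 : β (D.c p.1) = p.2 := h6.1 h9
    have h12 : β (D.c p.1) = g (D.c p.1) := h7.1 h10.2.1
    refine ⟨g (D.c p.1), h10.1, 0, ?_⟩
    rw [it_zero, ← h12, h11]
  · rintro L hL z ⟨z₁, h1, i, rfl⟩ d hd hdn hfix
    obtain ⟨z₀, h2, h3, -, h4⟩ := key L hL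
    have h5 := h1.uniq59 h2
    subst h5
    apply h4 d hd hdn
    have h7 : it (D.c L) (D.n * i - i) (it (D.c L) i z₁) = z₁ := it_back hn h3 i
    have h8 : it (D.c L) d z₁ = it (D.c L) (D.n * i - i) (it (D.c L) d (it (D.c L) i z₁)) := by
      calc it (D.c L) d z₁ = it (D.c L) d (it (D.c L) (D.n * i - i) (it (D.c L) i z₁)) := by rw [h7]
        _ = _ := by
          rw [it_comp _ (it (D.c L) i z₁) d, it_comp _ (it (D.c L) i z₁) (D.n * i - i), add_comm]
    rw [h8, hfix, h7]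
  · rintro L ⟨hL, hE⟩
    obtain ⟨θ, hθ⟩ := hP.ang L (U_sub_B hP hE.1) hE.2
    obtain ⟨z₀, hz₀⟩ := exists_u hP hC hθ
    obtain ⟨i, hi⟩ := ext_lands4 hP hC hz₀ (hR.near L hE.1 θ hθ) (hL.2.2 θ hθ)
    ext z
    rw [ZE_iff hP hθ hz₀]
    constructor
    · rintro ⟨z₁, h1, j, rfl⟩
      rw [h1.uniq59 hi]
      exact ⟨j + i, it_comp _ _ _ _⟩
    · rintro ⟨j, rfl⟩
      refine ⟨_, hi, D.n * i - i + j, ?_⟩
      rw [add_comm, it_add, it_back hn hz₀.2.2.1 i]
  · rintro L hL z ⟨z₁, h1, i, rfl⟩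
    obtain ⟨z₀, h2, h3, h4, -⟩ := key L hL
    rw [h1.uniq59 h2, mul_it' h3 i]
    exact h4

end Pool.Agent.Work.MLC.Sat
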