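import Pool.Agent.Work.MLC.H24P
import Pool.Agent.Work.MLC.H24Q
import Pool.Agent.Work.MLC.SatPar39
import Pool.Agent.Work.MLC.SatCircF
import Pool.Agent.Work.MLC.Sat2_51
import Pool.Agent.Work.MLC.Sat3
import Pool.Agent.Work.MLC.SatLand60
import Pool.Agent.Work.MLC.SatReg60
import Pool.Agent.Work.MLC.SatPly60
import Pool.Agent.Work.MLC.SatS749
import Pool.Agent.Work.MLC.SatPar26
import Pool.Agent.Work.MLC.Sat8_69
import Pool.Agent.Work.MLC.SatIn26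
import Pool.Agent.Work.MLC.SatS6_4
import Pool.Agent.Work.MLC.SatOrigin34
import Pool.Agent.Work.MLC.SatRoot51
import Pool.Agent.Work.MLC.Sat4_57
import Pool.Agent.Work.MLC.SatDer15
import Pool.Agent.Work.MLC.SatCh26
import Pool.Agent.Work.MLC.SatS17_6

set_option autoImplicit false

/-! # Parameters of rotation number `x` near the root of the satellite are in its wake (helper24) -/

namespace Pool.Agent.Work.MLC.H24

open Filter Topology Metric Set Complex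
open Pool.Agent.Work.MLC Pool.Agent.Work.MLC.Tr Pool.Agent.Work.MLC.Sat

variable {D : Dat}

/-- near a parameter of `MM` at which the parent has rotation number `x` all exterior angles are in
the plateau -/
lemma plateau_nhds (hP : D.Par) (hC : D.Cir) (hR : Regions D) {L : ℂ} (hL : L ∈ D.U)
    (h : RotT D.m (D.c L) (D.b L) L D.x) :
    ∀ᶠ L' in 𝓝 L, ∀ θ, D.Th L' θ → D.tm ≤ θ ∧ θ ≤ D.tp := by
  have hB := U_sub_B hP hL
  obtain ⟨β, hβ⟩ := land_of_rotT hP.m_pos h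
  obtain ⟨h1, h2, h3, h4, -⟩ := h
  have hM0 : G (D.c L) 0 = 0 := mem_M_iff.1 h2
  have hρ : 1 < ‖mul D.m (D.c L, D.b L)‖ := by
    rw [h4, norm_exp]; exact Real.one_lt_exp_iff.2 h1
  have e1 := (σ_contAt hP hB).tendsto.eventually (land_nhds hP.m_pos hM0 h3 hρ hβ)
  filter_upwards [e1, isOpen_U.mem_nhds hL, isOpen_B.mem_nhds hB] with L' h5 h6 h7 θ hθ
  rw [← hC.plateau]
  have h8 := (h5 (hP.sec L' h7).1).2 θ D.w hθ.1.1 hθ.1.2.1 hθ.1.2.2.2.2
  obtain ⟨P, -, hP'⟩ := nu_of_compat hβ.1 hP.bits.per h8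
  have h9 := hR.near L' h6 θ hθ
  have hq : (0 : ℝ) < D.x.den := by exact_mod_cast D.x.pos
  have hn : (1 : ℝ) ≤ D.n := by exact_mod_cast Par_n_pos hP
  unfold Dat.Near at h9
  have hx : (D.x : ℝ) = D.x.num / D.x.den := by
    have := Rat.num_div_den D.x
    exact_mod_cast this.symm
  rw [hP', hx] at h9 ⊢
  have h10 : (P : ℝ) / D.x.den - (D.k₀ + D.x.num / D.x.den) =
      ((P - D.k₀ * D.x.den - D.x.num : ℤ) : ℝ) / D.x.den := by
    push_cast; field_simp; ring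
  rw [h10, abs_div, abs_of_pos hq, div_lt_div_iff₀ hq (by positivity)] at h9
  have h11 : |((P - D.k₀ * D.x.den - D.x.num : ℤ) : ℝ)| < 1 := by
    by_contra hcon
    push Not at hcon
    have h12 : (1 : ℝ) * ((D.n : ℝ) * D.x.den) ≤
        |((P - D.k₀ * D.x.den - D.x.num : ℤ) : ℝ)| * ((D.n : ℝ) * D.x.den) := by gcongr
    nlinarith
  have h12 : P - D.k₀ * D.x.den - D.x.num = 0 := by
    have : |P - D.k₀ * D.x.den - D.x.num| < 1 := by exact_mod_cast h11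
    exact Int.abs_lt_one_iff.1 this
  have h13 : (P : ℝ) = D.k₀ * D.x.den + D.x.num := by
    have : P = D.k₀ * D.x.den + D.x.num := by omega
    rw [this]; push_cast; ring
  rw [h13]
  field_simp

/-- **the limb of rotation number `x` is inside the wake near the root** -/
theorem mem_RI_of_rotT (h5 : S5_land) (hP : D.Par) (hC : D.Cir) (hR : Regions D) {L : ℂ}
    (hL : L ∈ D.U) (h : RotT D.m (D.c L) (D.b L) L D.x) : L ∈ D.RI := by
  have hrd := rotData hP.m_pos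
  by_cases hland : Land D.m (D.c L) (D.b L) D.tm D.x.den
  · exact ⟨hL, h.1, Or.inr ⟨h.2.1, hland⟩⟩
  exfalso
  set S : Set ℂ := {L' | L' ∈ D.U ∧ RotT D.m (D.c L') (D.b L') L' D.x ∧
    ¬ Land D.m (D.c L') (D.b L') D.tm D.x.den} with hS
  set H : Set ℂ := ball D.a (sR D.m D.x) ∩ {z | 0 < z.re} with hH
  have ha0 : D.a.re = 0 := LimbData.axisPt_re D.x
  have hHU : H ⊆ D.U := by
    rintro z ⟨h1, h2⟩
    refine ⟨h1, ?_⟩
    rintro rfl
    simp only [mem_ofPred_eq, ha0] at h2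
    exact lt_irrefl _ h2
  have hHc : IsPreconnected H :=
    ((convex_ball _ _).inter (convex_halfSpace_re_gt 0)).isPreconnected
  -- rotation types near a parameter
  have hrot : ∀ L' ∈ D.U, ∀ y, RotT D.m (D.c L') (D.b L') L' y → ∀ᶠ L'' in 𝓝 L',
      D.c L'' ∈ MM → RotT D.m (D.c L'') (D.b L'') L'' y := by
    intro L' hL' y hy
    have hB := U_sub_B hP hL'
    have h1 := hrd.opn _ _ _ _ hy
    have h2 : ContinuousAt (fun L'' => ((D.c L'', D.b L'', L'') : ℂ × ℂ × ℂ)) L' :=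
      (c_contAt hP hB).prodMk ((b_contAt hP hB).prodMk continuousAt_id)
    filter_upwards [h2.tendsto.eventually h1, isOpen_B.mem_nhds hB] with L'' h3 h4 h5
    exact h3 h5 (hP.sec L'' h4).1 (hP.sec L'' h4).2
  have hopen : IsOpen S := by
    rw [isOpen_iff_mem_nhds]
    rintro L' ⟨h1, h2, h3⟩
    have hB := U_sub_B hP h1
    have e1 := plateau_nhds hP hC hR h1 h2
    have e2 := (h5 D hP hC L' hB h2.1 h2.2.1).2 h3
    filter_upwards [e1, e2, hrot L' h1 _ h2, isOpen_U.mem_nhds h1, isOpen_B.mem_nhds hB] with L''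
      g1 g2 g3 g4 g5
    have hM : D.c L'' ∈ MM := by
      by_contra hM
      obtain ⟨θ, hθ⟩ := hP.ang L'' g5 hM
      have g6 := g1 θ hθ
      rcases g2.2 θ hθ with g7 | g7 <;> linarith [g6.1, g6.2]
    exact ⟨g4, g3 hM, g2.1 hM⟩
  have hclosed : closure S ∩ H ⊆ S := by
    rintro L' ⟨h1, h2⟩
    have hU := hHU h2
    have hB := U_sub_B hP hU
    have hfr := mem_closure_iff_frequently.1 h1
    have hM : D.c L' ∈ MM := by
      have h3 : ∃ᶠ L'' in 𝓝 L', D.c L'' ∈ MM := hfr.mono fun L'' h => h.2.1.2.1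
      have h4 : ∃ᶠ c in 𝓝 (D.c L'), c ∈ MM := (c_contAt hP hB).tendsto.frequently h3
      exact isClosed_MM.closure_subset (mem_closure_iff_frequently.2 h4)
    obtain ⟨y, hy⟩ := hrd.ex _ _ _ (hP.sec L' hB).1 (hP.sec L' hB).2 h2.2 hM
    obtain ⟨L'', h3, h4⟩ := (hfr.and_eventually (hrot L' hU y hy)).exists
    have hyx : y = D.x := hrd.uniq _ _ _ _ _ (h4 h3.2.1.2.1) h3.2.1
    subst hyx
    refine ⟨hU, hy, fun hl => ?_⟩
    obtain ⟨L₃, h6, h7⟩ := (hfr.and_eventually ((h5 D hP hC L' hB h2.2 hM).1 hl)).exists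
    exact h6.2.2 (h7.1 h6.2.1.2.1)
  have hall : H ⊆ S := hHc.subset_of_closure_inter_subset hopen ⟨L, ⟨hL.1, h.1⟩, hL, h, hland⟩ hclosed
  -- contradiction with the inequality of Pommerenke, Levin and Yoccoz
  have hr := sR_pos hP
  set r := sR D.m D.x with hrdef
  set A : ℝ := 2 * D.m * Real.log 2 / D.x.den with hA
  have hA0 : 0 < A := by
    have : 0 < Real.log 2 := Real.log_pos (by norm_num)
    have h1 : (0 : ℝ) < D.m := by exact_mod_cast hP.m_pos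
    have h2 : (0 : ℝ) < D.x.den := by exact_mod_cast D.x.pos
    positivity
  obtain ⟨ε, hε, hε1, hε2⟩ : ∃ ε : ℝ, 0 < ε ∧ ε < r / 4 ∧ A * ε < (r / 2) ^ 2 := by
    refine ⟨min (r / 8) ((r / 2) ^ 2 / (2 * A)), by positivity, ?_, ?_⟩
    · exact (min_le_left _ _).trans_lt (by linarith)
    · calc A * min (r / 8) ((r / 2) ^ 2 / (2 * A)) ≤ A * ((r / 2) ^ 2 / (2 * A)) := by
            gcongr; exact min_le_right _ _
        _ = (r / 2) ^ 2 / 2 := by field_simp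
        _ < (r / 2) ^ 2 := half_lt_self (by positivity)
  set z : ℂ := D.a + (ε + (r / 2 : ℝ) * I) with hz
  have hza : z - D.a = ε + (r / 2 : ℝ) * I := by rw [hz]; ring
  have hzre : z.re = ε := by simp [hz, ha0]
  have hzH : z ∈ H := by
    refine ⟨?_, by simp only [mem_ofPred_eq]; rw [hzre]; exact hε⟩
    rw [mem_ball, dist_eq_norm, hza]
    calc ‖(ε : ℂ) + (r / 2 : ℝ) * I‖ ≤ ‖(ε : ℂ)‖ + ‖((r / 2 : ℝ) : ℂ) * I‖ := norm_add_le _ _
      _ = ε + r / 2 := by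
          rw [norm_mul, norm_I, mul_one, norm_real, norm_real, Real.norm_of_nonneg hε.le,
            Real.norm_of_nonneg (by positivity)]
      _ < r := by linarith
  have h1 := hrd.ply _ _ _ _ (hall hzH).2.1
  change ‖z - D.a‖ ^ 2 ≤ A * z.re at h1
  rw [hza, hzre] at h1
  have h2 : (r / 2) ^ 2 ≤ ‖(ε : ℂ) + (r / 2 : ℝ) * I‖ ^ 2 := by
    have h3 := abs_im_le_norm ((ε : ℂ) + (r / 2 : ℝ) * I)
    have h4 : ((ε : ℂ) + (r / 2 : ℝ) * I).im = r / 2 := by simp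
    rw [h4, abs_of_pos (by positivity)] at h3
    gcongr
  linarith

end Pool.Agent.Work.MLC.H24

/-! # The child has non-integer rotation over the limb of the parent (helper24) -/

namespace Pool.Agent.Work.MLC.H24

open Filter Topology Metric Set Complex
open Pool.Agent.Work.MLC Pool.Agent.Work.MLC.Tr Pool.Agent.Work.MLC.Sat

section fam

variable {n : ℕ} {c : ℂ → ℂ} {V : Set ℂ} {Z Z' : ℂ → Set ℂ}

lemma fam_branch (hF : CycFam n c V Z) {L z : ℂ} (hL : L ∈ V) (hc : ContinuousAt c L)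
    (hz : z ∈ Z L) {β : ℂ → ℂ} (hβ : Cnt.IsBranch n (c L) z β) :
    ∀ᶠ L' in 𝓝 L, β (c L') ∈ Z L' := by
  have h1 : ContinuousAt (fun L' => ((L', β (c L')) : ℂ × ℂ)) L := by
    refine continuousAt_id.prodMk ?_
    exact ContinuousAt.comp (g := β) (f := c) (x := L) hβ.an.continuousAt hc
  have h2 : Tendsto (fun L' => ((L', β (c L')) : ℂ × ℂ)) (𝓝 L) (𝓝 (L, z)) := by
    have := h1.tendsto
    rwa [hβ.val] at this
  filter_upwards [h2.eventually (hF.cont L hL z hz), hc.tendsto.eventually hβ.eqn] with L' h3 h4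
  exact h3 h4

lemma fam_eq_of_mem (hF : CycFam n c V Z) (hF' : CycFam n c V Z') {L z : ℂ} (hL : L ∈ V)
    (hz : z ∈ Z L) (hz' : z ∈ Z' L) : Z L = Z' L := by
  ext y
  rw [hF.cyc L hL z hz, hF'.cyc L hL z hz']

lemma exists_index (hn : 0 < n) (hF : CycFam n c V Z) {L z y : ℂ} (hL : L ∈ V) (hz : z ∈ Z L)
    (hy : y ∈ Z L) : ∃ i < n, y = it (c L) i z := by
  obtain ⟨i, hi⟩ := (hF.cyc L hL z hz y).1 hy
  refine ⟨i % n, Nat.mod_lt _ hn, ?_⟩
  have h1 := it_mul_per (hF.fix L hL z hz).1 (i % n) (i / n)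
  rw [Nat.mod_add_div] at h1
  rw [hi, h1]

/-- two families which agree somewhere on every component agree -/
lemma isOpen_agree (hV : IsOpen V) (hc : ∀ L ∈ V, ContinuousAt c L) (hF : CycFam n c V Z)
    (hF' : CycFam n c V Z') : IsOpen {L | L ∈ V ∧ Z L = Z' L} := by
  rw [isOpen_iff_mem_nhds]
  rintro L ⟨hL, he⟩
  obtain ⟨z, hz⟩ := hF.ne L hL
  obtain ⟨β, hβ⟩ := Cnt.exists_branch (hF.fix L hL z hz).1 (hF.fix L hL z hz).2
  filter_upwards [fam_branch hF hL (hc L hL) hz hβ,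
    fam_branch hF' hL (hc L hL) (by rwa [he] at hz) hβ, hV.mem_nhds hL] with L' h1 h2 h3
  exact ⟨h3, fam_eq_of_mem hF hF' h3 h1 h2⟩

lemma closed_agree (hn : 0 < n) (hc : ∀ L ∈ V, ContinuousAt c L)
    (hF : CycFam n c V Z) (hF' : CycFam n c V Z') {L : ℂ} (hL : L ∈ V)
    (h : L ∈ closure {L | L ∈ V ∧ Z L = Z' L}) : Z L = Z' L := by
  obtain ⟨z, hz⟩ := hF.ne L hL
  obtain ⟨z', hz'⟩ := hF'.ne L hL
  obtain ⟨β, hβ⟩ := Cnt.exists_branch (hF.fix L hL z hz).1 (hF.fix L hL z hz).2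
  obtain ⟨β', hβ'⟩ := Cnt.exists_branch (hF'.fix L hL z' hz').1 (hF'.fix L hL z' hz').2
  have h1 : ∃ᶠ L' in 𝓝 L, ∃ i ∈ Finset.range n, β (c L') = it (c L') i (β' (c L')) := by
    refine ((mem_closure_iff_frequently.1 h).and_eventually
      ((fam_branch hF hL (hc L hL) hz hβ).and (fam_branch hF' hL (hc L hL) hz' hβ'))).mono ?_
    rintro L' ⟨⟨h2, h3⟩, h4, h5⟩
    rw [h3] at h4
    obtain ⟨i, hi, he⟩ := exists_index hn hF' h2 h5 h4
    exact ⟨i, Finset.mem_range.2 hi, he⟩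
  have h2 : ∃ i ∈ Finset.range n, ∃ᶠ L' in 𝓝 L, β (c L') = it (c L') i (β' (c L')) := by
    by_contra hcon
    push Not at hcon
    apply h1
    have h3 : ∀ᶠ L' in 𝓝 L, ∀ i ∈ Finset.range n, ¬ β (c L') = it (c L') i (β' (c L')) :=
      (Filter.eventually_all_finset _).2 fun i hi => hcon i hi
    filter_upwards [h3] with L' h4
    rintro ⟨i, hi, he⟩
    exact h4 i hi he
  obtain ⟨i, -, hi⟩ := h2
  have hcβ : ContinuousAt (fun L' => β (c L')) L :=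
    ContinuousAt.comp (g := β) (f := c) (x := L) hβ.an.continuousAt (hc L hL)
  have hcβ' : ContinuousAt (fun L' => it (c L') i (β' (c L'))) L := by
    have h3 : ContinuousAt (fun L' => β' (c L')) L :=
      ContinuousAt.comp (g := β') (f := c) (x := L) hβ'.an.continuousAt (hc L hL)
    exact ContinuousAt.comp (g := fun q : ℂ × ℂ => it q.1 i q.2)
      (f := fun L' => ((c L', β' (c L')) : ℂ × ℂ)) (x := L) (continuous_it i).continuousAt
      ((hc L hL).prodMk h3)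
  have he : β (c L) = it (c L) i (β' (c L)) := by
    by_contra hne
    have h4 : ∀ᶠ L' in 𝓝 L, β (c L') ≠ it (c L') i (β' (c L')) :=
      (hcβ.tendsto.prodMk_nhds hcβ'.tendsto).eventually
        ((isOpen_ne_fun continuous_fst continuous_snd).mem_nhds hne)
    exact hi h4
  rw [hβ.val, hβ'.val] at he
  exact fam_eq_of_mem hF hF' hL hz ((hF'.cyc L hL z' hz' z).2 ⟨i, he⟩)

end fam

variable {D : Dat} {Z : ℂ → Set ℂ}

/-- inside the wake the glued family is the family constructed there -/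
theorem glued_eq_ZI (h2 : S2_unique) (h3 : S3_closed) (h3' : S3_neutral) (h7 : S7_fatou)
    (h7' : S7_parab) (h8 : S8_side) (hP : D.Par) (hC : D.Cir) (hR : Regions D) (hG : Glued D Z)
    {L : ℂ} (hL : L ∈ D.RI) : Z L = ZI D L := by
  have hn := Par_n_pos hP
  have hF' := cycI h2 h3 h3' h7 h7' h8 hP hC hR
  have hF : CycFam D.n D.c D.RI Z :=
    ⟨fun L hL => hG.fam.ne L hL.1, fun L hL => hG.fam.fix L hL.1, fun L hL => hG.fam.cyc L hL.1,
      fun L hL => hG.fam.cont L hL.1⟩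
  have hc : ∀ L ∈ D.RI, ContinuousAt D.c L := fun L hL => c_contAt hP (U_sub_B hP hL.1)
  by_contra hne
  set V : Set ℂ := {L | L ∈ D.RI ∧ Z L ≠ ZI D L} with hV
  have hopen : IsOpen V := by
    rw [isOpen_iff_mem_nhds]
    rintro L' ⟨h4, h5⟩
    have h6 : L' ∉ closure {L | L ∈ D.RI ∧ Z L = ZI D L} := fun h =>
      h5 (closed_agree hn hc hF hF' h4 h)
    filter_upwards [isClosed_closure.isOpen_compl.mem_nhds h6, hR.openI.mem_nhds h4] with L'' h7 h8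
    exact ⟨h8, fun he => h7 (subset_closure ⟨h8, he⟩)⟩
  obtain ⟨L', ⟨h4, h5⟩, h6⟩ := hR.meetI V (fun _ h => h.1) ⟨L, hL, hne⟩ hopen (by
    intro L' h4 h5
    refine ⟨h4, fun he => ?_⟩
    have h6 := (isOpen_agree hR.openI hc hF hF').mem_nhds ⟨h4, he⟩
    obtain ⟨L'', h7, h8⟩ := mem_closure_iff_nhds.1 h5 _ h6
    exact h8.2 h7.2)
  apply h5
  rw [hG.ext L' h6, ZI_eq_ZE h2 hP hC hR ⟨h4, h6⟩]

/-- over the limb of the parent the rotation number of the child is not an integer -/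
theorem child_nonint (h2 : S2_unique) (h3 : S3_closed) (h3' : S3_neutral) (h5 : S5_land)
    (h7 : S7_fatou) (h7' : S7_parab) (h8 : S8_side) (hP : D.Par) (hC : D.Cir)
    (hR : Regions D) (hG : Glued D Z) {L : ℂ} (hL : L ∈ D.U)
    (h : RotT D.m (D.c L) (D.b L) L D.x) {z ℓ : ℂ} {y : ℚ} (hz : z ∈ Z L)
    (hy : RotT D.n (D.c L) z ℓ y) : y.den ≠ 1 := by
  intro hden
  have hn := Par_n_pos hP
  have hI := mem_RI_of_rotT h5 hP hC hR hL h
  have hzI := hz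
  rw [glued_eq_ZI h2 h3 h3' h7 h7' h8 hP hC hR hG hI] at hzI
  have hρ : 1 < ‖mul D.n (D.c L, z)‖ := by
    rw [hy.2.2.2.1, norm_exp]; exact Real.one_lt_exp_iff.2 hy.1
  rcases hzI with ⟨z₀, hz₀, i, rfl⟩ | ⟨-, hz₀⟩
  · rw [mul_it' hz₀.1 i] at hρ
    have hNJ := nj_of_closure h2 h3 hP hC hR hI hz₀.1 hρ hz₀.2.2.2
    -- back to `z₀`
    have hy₀ : RotT D.n (D.c L) z₀ ℓ y := by
      have h9 := s16_rot D.n (D.c L) (it (D.c L) i z₀) ℓ y (D.n * i - i) hn hy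
      rwa [it_back hn hz₀.1 i] at h9
    obtain ⟨β, hβ⟩ := land_of_rotT hn hy₀
    rw [hden] at hβ
    exact not_nonInt_intRot hn hz₀.1 hρ ⟨mem_M_iff.1 hy.2.1, β, hβ⟩ hNJ.2.2.1
  · have := hz₀.2
    linarith

end Pool.Agent.Work.MLC.H24

/-! # Satellites of the main cardioid: from Theorem S to `ChildRoot` (helper24) -/

namespace Pool.Agent.Work.MLC.H24

open Filter Topology Metric Set Complex
open Pool.Agent.Work.MLC Pool.Agent.Work.MLC.Tr Pool.Agent.Work.MLC.Sat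

variable {D : Dat} {Z : ℂ → Set ℂ}

lemma c_diff (hP : D.Par) {L : ℂ} (hL : L ∈ D.B) : DifferentiableAt ℂ D.c L :=
  differentiableAt_of_deriv_ne_zero (section_deriv_ne_zero (goodB hP) hP.cont hP.sec hL)

/-- the multiplier of the glued family -/
theorem exists_K (h10 : S10_origin) (hP : D.Par) (hC : D.Cir) (hR : Regions D) (hG : Glued D Z) :
    ∃ K : ℂ → ℂ, (∀ L ∈ D.U, ∀ z ∈ Z L, mul D.n (D.c L, z) = K L) ∧
      DifferentiableOn ℂ K (ball D.a (sR D.m D.x)) ∧ K D.a = 1 := by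
  classical
  set K : ℂ → ℂ := fun L => if h : L ∈ D.U then mul D.n (D.c L, (hG.fam.ne L h).some) else 1
    with hK
  have h1 : ∀ L ∈ D.U, ∀ z ∈ Z L, mul D.n (D.c L, z) = K L := by
    intro L hL z hz
    have h2 := (hG.fam.ne L hL).some_mem
    obtain ⟨i, hi⟩ := (hG.fam.cyc L hL z hz _).1 h2
    simp only [hK, dif_pos hL]
    rw [hi, mul_it' (hG.fam.fix L hL z hz).1 i]
  have ha : K D.a = 1 := by
    have : D.a ∉ D.U := fun h => h.2 rfl
    simp only [hK, dif_neg this]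
  have h3 : ∀ L ∈ D.U, DifferentiableAt ℂ K L := by
    intro L hL
    have hB := U_sub_B hP hL
    obtain ⟨z, hz⟩ := hG.fam.ne L hL
    obtain ⟨β, hβ⟩ := Cnt.exists_branch (hG.fam.fix L hL z hz).1 (hG.fam.fix L hL z hz).2
    have h4 := Cnt.analyticAt_mul_branch hβ
    have h5 : DifferentiableAt ℂ (fun L' => mul D.n (D.c L', β (D.c L'))) L :=
      DifferentiableAt.comp (g := fun c => mul D.n (c, β c)) (f := D.c) L h4.differentiableAt
        (c_diff hP hB)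
    refine h5.congr_of_eventuallyEq ?_
    filter_upwards [fam_branch hG.fam hL (c_contAt hP hB) hz hβ, isOpen_U.mem_nhds hL] with L' h6 h7
    rw [h1 L' h7 _ h6]
  refine ⟨K, h1, ?_, ha⟩
  have h6 := h10 D Z K hP hC hR hG h1
  have hmem : ball D.a (sR D.m D.x) ∈ 𝓝 D.a := ball_mem_nhds _ (sR_pos hP)
  rw [← differentiableOn_compl_singleton_and_continuousAt_iff hmem]
  refine ⟨fun L hL => (h3 L hL).differentiableWithinAt, ?_⟩
  rw [continuousAt_iff_punctured_nhds, ha]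
  exact h6

/-- the derivatives of the coordinate of the child -/
theorem child_deriv {e K : ℂ → ℂ} (h11 : S11_deriv) (hP : D.Par) (hC : D.Cir) (hR : Regions D)
    (hG : Glued D Z) (he : Child D Z e) (h1 : ∀ L ∈ D.U, ∀ z ∈ Z L, mul D.n (D.c L, z) = K L)
    (hK : DifferentiableOn ℂ K (ball D.a (sR D.m D.x))) (hKa : K D.a = 1) :
    (∀ ℓ ∈ ball (0 : ℂ) (cR D.n), deriv e ℓ ≠ 0) ∧ deriv e 0 = -1 / (D.x.den : ℂ) ^ 2 := by
  have hn := Par_n_pos hP
  have hcR : 0 < cR D.n := by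
    unfold cR
    have : (0 : ℝ) < D.n := by exact_mod_cast hn
    positivity
  have h0 : (0 : ℂ) ∈ ball (0 : ℂ) (cR D.n) := mem_ball_self hcR
  have hKe : ∀ ℓ ∈ ball (0 : ℂ) (cR D.n), K (e ℓ) = exp ℓ := by
    intro ℓ hℓ
    by_cases h2 : ℓ = 0
    · rw [h2, he.zero, hKa, exp_zero]
    have h3 : e ℓ ∈ D.U := by
      refine ⟨(he.maps ℓ hℓ).1, fun h4 => h2 ?_⟩
      exact he.inj hℓ h0 (by rw [he.zero]; exact h4)
    obtain ⟨z, hz⟩ := hG.fam.ne _ h3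
    rw [← h1 _ h3 z hz]
    exact he.mul_eq ℓ hℓ h2 z hz
  have hchain : ∀ ℓ ∈ ball (0 : ℂ) (cR D.n), deriv K (e ℓ) * deriv e ℓ = exp ℓ := by
    intro ℓ hℓ
    have h2 : DifferentiableAt ℂ K (e ℓ) := hK.differentiableAt (isOpen_ball.mem_nhds (he.maps ℓ hℓ).1)
    have h3 : DifferentiableAt ℂ e ℓ := he.diff.differentiableAt (isOpen_ball.mem_nhds hℓ)
    have h4 : HasDerivAt (fun y => K (e y)) (deriv K (e ℓ) * deriv e ℓ) ℓ :=
      h2.hasDerivAt.comp ℓ h3.hasDerivAt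
    have h5 : (fun y => K (e y)) =ᶠ[𝓝 ℓ] exp := by
      filter_upwards [isOpen_ball.mem_nhds hℓ] with y hy
      exact hKe y hy
    have h6 := h4.congr_of_eventuallyEq h5.symm
    exact h6.unique (Complex.hasDerivAt_exp ℓ)
  refine ⟨fun ℓ hℓ h2 => ?_, ?_⟩
  · have h3 := hchain ℓ hℓ
    rw [h2, mul_zero] at h3
    exact exp_ne_zero ℓ h3.symm
  · have h3 := hchain 0 h0
    have h4 := h11 D Z K hP hC hR hG h1 hK hKa
    rw [he.zero, h4, exp_zero] at h3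
    have hq : (D.x.den : ℂ) ≠ 0 := by exact_mod_cast D.x.pos.ne'
    field_simp
    linear_combination -h3

end Pool.Agent.Work.MLC.H24

/-! # Hoelder local connectivity along the main cardioid, from Theorem S (helper24) -/

namespace Pool.Agent.Work.MLC.H24

open Filter Topology Metric Set Complex
open Pool.Agent.Work.MLC Pool.Agent.Work.MLC.Tr Pool.Agent.Work.MLC.Sat

/-- size of a holomorphic map near the centre from a bound and the derivative -/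
lemma near_linear {e : ℂ → ℂ} {r : ℝ} (hr : 0 < r) (hd : DifferentiableOn ℂ e (ball 0 r))
    (hb : ∀ ℓ ∈ ball (0 : ℂ) r, ‖e ℓ - e 0‖ ≤ 3 * ‖ℓ‖) {q : ℝ} (hq : 1 ≤ q)
    (h0 : deriv e 0 = -1 / (q : ℂ) ^ 2) {ℓ : ℂ} (hℓ : ‖ℓ‖ < r / (24 * q ^ 2)) :
    3 / (4 * q ^ 2) * ‖ℓ‖ ≤ ‖e ℓ - e 0‖ ∧ ‖e ℓ - e 0‖ ≤ 5 / (4 * q ^ 2) * ‖ℓ‖ := by
  have hq0 : 0 < q := by linarith
  have hq2 : 0 < q ^ 2 := by positivity
  have hq1 : 1 ≤ q ^ 2 := by nlinarith
  have hsub : r / (24 * q ^ 2) ≤ r := by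
    rw [div_le_iff₀ (by positivity)]; nlinarith
  have hℓr : ℓ ∈ ball (0 : ℂ) r := by
    rw [mem_ball_zero_iff]; linarith
  have h1 : ‖(-1 : ℂ) / (q : ℂ) ^ 2‖ = 1 / q ^ 2 := by
    rw [norm_div, norm_neg, norm_one, norm_pow, norm_real, Real.norm_of_nonneg hq0.le]
  have hn : ∀ z ∈ ball (0 : ℂ) r, ‖dslope e 0 z‖ ≤ 3 := by
    intro z hz
    by_cases hz0 : z = 0
    · rw [hz0, dslope_same, h0, h1]
      rw [div_le_iff₀ hq2]; linarith
    · have h2 := hb z hz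
      have h3 := sub_smul_dslope e 0 z
      rw [← h3, sub_zero, smul_eq_mul, norm_mul, mul_comm] at h2
      exact le_of_mul_le_mul_right h2 (norm_pos_iff.2 hz0)
  have h2 : dist (dslope e 0 ℓ) (dslope e 0 0) ≤ 6 / r * dist ℓ 0 := by
    apply dist_le_div_mul_dist_of_mapsTo_ball _ _ hℓr
    · exact (differentiableOn_dslope (ball_mem_nhds _ hr)).2 hd
    · intro z hz
      rw [mem_closedBall]
      calc dist (dslope e 0 z) (dslope e 0 0) ≤ ‖dslope e 0 z‖ + ‖dslope e 0 0‖ := by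
            rw [dist_eq_norm]; exact norm_sub_le _ _
        _ ≤ 6 := by linarith [hn z hz, hn 0 (mem_ball_self hr)]
  rw [dslope_same, h0, dist_zero_right, dist_eq_norm] at h2
  have h3 : 6 / r * ‖ℓ‖ ≤ 1 / (4 * q ^ 2) := by
    calc 6 / r * ‖ℓ‖ ≤ 6 / r * (r / (24 * q ^ 2)) := by gcongr
      _ = 1 / (4 * q ^ 2) := by field_simp; norm_num
  have h4 := h2.trans h3
  have h5 : e ℓ - e 0 = ℓ * dslope e 0 ℓ := by
    have := sub_smul_dslope e 0 ℓ
    rw [← this]; simp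
  set s := dslope e 0 ℓ with hs
  have h6 : ‖s‖ ≤ 5 / (4 * q ^ 2) := by
    calc ‖s‖ = ‖(s - -1 / (q : ℂ) ^ 2) + -1 / (q : ℂ) ^ 2‖ := by ring_nf
      _ ≤ ‖s - -1 / (q : ℂ) ^ 2‖ + ‖(-1 : ℂ) / (q : ℂ) ^ 2‖ := norm_add_le _ _
      _ ≤ 1 / (4 * q ^ 2) + 1 / q ^ 2 := by rw [h1]; gcongr
      _ = 5 / (4 * q ^ 2) := by field_simp; norm_num
  have h7 : 3 / (4 * q ^ 2) ≤ ‖s‖ := by
    have h8 : 1 / q ^ 2 ≤ ‖s - -1 / (q : ℂ) ^ 2‖ + ‖s‖ := by
      calc 1 / q ^ 2 = ‖(-1 : ℂ) / (q : ℂ) ^ 2‖ := h1.symm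
        _ = ‖s - (s - -1 / (q : ℂ) ^ 2)‖ := by ring_nf
        _ ≤ ‖s‖ + ‖s - -1 / (q : ℂ) ^ 2‖ := norm_sub_le _ _
        _ = _ := add_comm _ _
    have h9 : 3 / (4 * q ^ 2) = 1 / q ^ 2 - 1 / (4 * q ^ 2) := by field_simp; norm_num
    linarith
  rw [h5, norm_mul, mul_comm ‖ℓ‖]
  exact ⟨by gcongr, by gcongr⟩

variable {D : Dat} {Z : ℂ → Set ℂ}

lemma σ_eq (hP : D.Par) (hm : D.m = 1) {L : ℂ} (hL : L ∈ D.B) :
    D.c L = cc L ∧ D.b L = exp L / 2 := by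
  obtain ⟨h1, h2⟩ := hP.sec L hL
  rw [hm] at h1 h2
  have h3 : (D.b L) ^ 2 + D.c L = D.b L := h1
  have h4 : mul 1 (D.σ L) = 2 * D.b L := by
    have : mul 1 (D.σ L) = ∏ i ∈ Finset.range 1, 2 * it (D.σ L).1 i (D.σ L).2 := rfl
    rw [this, Finset.prod_range_one]
    rfl
  have h5 : D.b L = exp L / 2 := by
    rw [← h2, h4]; ring
  refine ⟨?_, h5⟩
  rw [h5] at h3
  rw [cc, cl]
  linear_combination h3

/-- all modules of Theorem S that are used -/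
structure SAll : Prop where
  s0 : S0_parent
  s0' : S0_shift
  s1 : S1_circle
  s2 : S2_unique
  s3 : S3_closed
  s3' : S3_neutral
  s5 : S5_land
  s5' : S5_regions
  s7 : S7_fatou
  s7' : S7_parab
  s8 : S8_side
  s9 : S9_glue
  s10 : S10_origin
  s11 : S11_deriv
  s13 : S13_child
  s17 : S17_limb

theorem childRoot_of (h : SAll) {e : ℂ → ℂ} (hP : D.Par) (hC : D.Cir) (hR : Regions D)
    (hG : Glued D Z) (he : Child D Z e) (hm : D.m = 1) (hx : D.x.den ≠ 1) :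
    ∃ g T, ChildRoot D.x (1 / 14400000 / (D.x.den : ℝ) ^ 7) g T := by
  have hn := Par_n_pos hP
  have hnq : D.n = D.x.den := by unfold Dat.n; rw [hm, one_mul]
  obtain ⟨K, hK1, hK2, hK3⟩ := exists_K h.s10 hP hC hR hG
  obtain ⟨hder, hder0⟩ := child_deriv h.s11 hP hC hR hG he hK1 hK2 hK3
  have hq2 := two_le_den hx
  set q : ℝ := (D.x.den : ℝ) with hq
  have hq0 : 0 < q := by linarith
  set r : ℝ := cR D.n with hr
  have hrv : r = 1 / (600000 * q ^ 5) := by rw [hr, cR, hnq]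
  have hr0 : 0 < r := by rw [hrv]; positivity
  have hR0 : 1 / 14400000 / q ^ 7 = r / (24 * q ^ 2) := by
    rw [hrv]; field_simp; norm_num
  rw [hR0]
  have hq4 : 4 ≤ q ^ 2 := by nlinarith
  have hRr : r / (24 * q ^ 2) ≤ r / 96 := by
    apply div_le_div_of_nonneg_left hr0.le (by norm_num)
    linarith
  have hr1 : r ≤ 1 := by
    rw [hrv, div_le_one (by positivity)]
    have : 1 ≤ q ^ 5 := one_le_pow₀ (by linarith)
    linarith
  have hRpos : 0 < r / (24 * q ^ 2) := by positivity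
  have h0r : (0 : ℂ) ∈ ball (0 : ℂ) r := mem_ball_self hr0
  have hsub : ball (0 : ℂ) (r / (24 * q ^ 2)) ⊆ ball 0 r := ball_subset_ball (by linarith)
  have hlin : ∀ ℓ : ℂ, ‖ℓ‖ < r / (24 * q ^ 2) → 3 / (4 * q ^ 2) * ‖ℓ‖ ≤ ‖e ℓ - D.a‖ ∧
      ‖e ℓ - D.a‖ ≤ 5 / (4 * q ^ 2) * ‖ℓ‖ := by
    intro ℓ hℓ
    have := near_linear hr0 he.diff (fun ℓ hℓ => by rw [he.zero]; exact (he.maps ℓ hℓ).2)
      (by linarith) (by rw [hder0, hq]; push_cast; rfl) hℓ
    rwa [he.zero] at this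
  -- parameters
  have heB : ∀ ℓ ∈ ball (0 : ℂ) r, e ℓ ∈ D.B := fun ℓ hℓ =>
    ball_subset_ball (sR_le_gR hP) (he.maps ℓ hℓ).1
  have heU : ∀ ℓ ∈ ball (0 : ℂ) r, ℓ ≠ 0 → e ℓ ∈ D.U := by
    intro ℓ hℓ h2
    refine ⟨(he.maps ℓ hℓ).1, fun h4 => h2 ?_⟩
    exact he.inj hℓ h0r (by rw [he.zero]; exact h4)
  have hcc : ∀ ℓ ∈ ball (0 : ℂ) r, cc (axisPt D.x + (e ℓ - D.a)) = D.c (e ℓ) := by
    intro ℓ hℓ
    rw [(σ_eq hP hm (heB ℓ hℓ)).1]
    congr 1
    show D.a + (e ℓ - D.a) = e ℓ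
    ring
  -- a small rational
  obtain ⟨x₀, hx₀ne, hx₀⟩ : ∃ x₀ : ℚ, x₀ ≠ 0 ∧ 2 * Real.pi * |(x₀ : ℝ)| ≤ r / 8 := by
    obtain ⟨N, hN⟩ := exists_nat_gt (2 * Real.pi / (r / 8))
    have hN0 : (0 : ℝ) < N := lt_of_le_of_lt (by positivity) hN
    refine ⟨1 / N, ?_, ?_⟩
    · have : (N : ℚ) ≠ 0 := by
        have : (N : ℝ) ≠ 0 := hN0.ne'
        exact_mod_cast this
      exact one_div_ne_zero this
    · push_cast
      rw [abs_of_pos (by positivity), mul_one_div, div_le_iff₀ hN0]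
      rw [div_lt_iff₀ (by positivity)] at hN
      linarith
  have hL := h.s17 D Z e hP hC hR hG he x₀ hx₀ne (by linarith)
  have haxn : ‖axisPt x₀‖ ≤ r / 8 := by rw [norm_axisPt]; exact hx₀
  have hball : ∀ ℓ ∈ ball (0 : ℂ) (r / (24 * q ^ 2)), ℓ ∈ ball (axisPt x₀) (r / 2) := by
    intro ℓ hℓ
    rw [mem_ball_zero_iff] at hℓ
    rw [mem_ball, dist_eq_norm]
    calc ‖ℓ - axisPt x₀‖ ≤ ‖ℓ‖ + ‖axisPt x₀‖ := norm_sub_le _ _
      _ < r / 2 := by linarith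
  have hball' : ∀ ℓ ∈ ball (axisPt x₀) (r / 2), ℓ ∈ ball (0 : ℂ) r := by
    intro ℓ hℓ
    rw [mem_ball, dist_eq_norm] at hℓ
    rw [mem_ball_zero_iff]
    calc ‖ℓ‖ = ‖(ℓ - axisPt x₀) + axisPt x₀‖ := by ring_nf
      _ ≤ ‖ℓ - axisPt x₀‖ + ‖axisPt x₀‖ := norm_add_le _ _
      _ < r := by linarith
  refine ⟨fun ℓ => e ℓ - D.a, _, hRpos, by linarith, ?_, ?_, ?_, ?_, ?_, ?_, ?_, ?_, hL.T_uniq,
    ?_, ?_, ?_⟩
  · exact (he.diff.mono hsub).sub_const _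
  · intro ℓ hℓ
    rw [deriv_sub_const]
    exact hder ℓ (hsub hℓ)
  · rw [he.zero, sub_self]
  · intro ℓ hℓ
    rw [mem_ball_zero_iff] at hℓ
    refine (hlin ℓ hℓ).2.trans ?_
    apply mul_le_mul_of_nonneg_right _ (norm_nonneg _)
    rw [div_le_div_iff₀ (by positivity) (by positivity)]
    nlinarith
  · intro w hw
    have hw0 : ‖w‖ ≤ r / (24 * q ^ 2) / (4 * q ^ 2) := hw
    by_cases hwz : w = 0
    · refine ⟨0, mem_ball_self hRpos, ?_, ?_⟩
      · rw [he.zero, sub_self, hwz]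
      · rw [hwz]; simp
    have hwn : 0 < ‖w‖ := norm_pos_iff.2 hwz
    set ρ : ℝ := 3 * q ^ 2 * ‖w‖ with hρ
    have hρ0 : 0 < ρ := by positivity
    have hρR : ρ < r / (24 * q ^ 2) := by
      calc ρ ≤ 3 * q ^ 2 * (r / (24 * q ^ 2) / (4 * q ^ 2)) := by rw [hρ]; gcongr
        _ = 3 / 4 * (r / (24 * q ^ 2)) := by field_simp
        _ < r / (24 * q ^ 2) := by linarith
    have hcl : closedBall (0 : ℂ) ρ ⊆ ball 0 r := by
      refine (closedBall_subset_ball hρR).trans hsub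
    have hdc : DiffContOnCl ℂ e (ball 0 ρ) := by
      apply DifferentiableOn.diffContOnCl
      rw [closure_ball (0 : ℂ) hρ0.ne']
      exact he.diff.mono hcl
    have hsph : ∀ z ∈ sphere (0 : ℂ) ρ, 9 / 4 * ‖w‖ ≤ ‖e z - e 0‖ := by
      intro z hz
      rw [mem_sphere_zero_iff_norm] at hz
      rw [he.zero]
      refine le_trans (le_of_eq ?_) (hlin z (by rw [hz]; exact hρR)).1
      rw [hz, hρ]; field_simp; norm_num
    have hfr : ∃ᶠ z in 𝓝 (0 : ℂ), e z ≠ e 0 := by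
      have h1 : ∃ᶠ z in 𝓝 (0 : ℂ), z ≠ 0 := by
        have : (𝓝[≠] (0 : ℂ)).NeBot := inferInstance
        exact (frequently_mem_iff_neBot (l := 𝓝 (0 : ℂ)) (s := {0}ᶜ)).2 this
      refine (h1.and_eventually (isOpen_ball.mem_nhds h0r)).mono ?_
      rintro z ⟨h2, h3⟩ h4
      exact h2 (he.inj h3 h0r h4)
    have h1 := hdc.ball_subset_image_closedBall hρ0 hsph hfr
    obtain ⟨ℓ, h2, h3⟩ := h1 (show D.a + w ∈ ball (e 0) (9 / 4 * ‖w‖ / 2) by
      rw [he.zero, mem_ball, dist_eq_norm, add_sub_cancel_left]; linarith)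
    rw [mem_closedBall_zero_iff] at h2
    have h4 : e ℓ - D.a = w := by rw [h3]; ring
    refine ⟨ℓ, by rw [mem_ball_zero_iff]; linarith, h4, ?_⟩
    have h5 := (hlin ℓ (by linarith)).1
    rw [h4] at h5
    rw [div_mul_eq_mul_div, div_le_iff₀ (by positivity)] at h5
    change ‖ℓ‖ ≤ 2 * q ^ 2 * ‖w‖
    nlinarith
  · intro ℓ hℓ hre
    rw [hcc ℓ (hsub hℓ)]
    by_cases h0 : ℓ = 0
    · rw [h0, he.zero, (σ_eq hP hm (a_mem_B hP)).1]
      apply cl_mem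
      rw [norm_exp, show (D.a).re = 0 from LimbData.axisPt_re D.x, Real.exp_zero]
    by_contra hM
    obtain ⟨z, hz⟩ := hG.fam.ne _ (heU ℓ (hsub hℓ) h0)
    have h1 := rep13 hn (hG.fam.fix _ (heU ℓ (hsub hℓ) h0) z hz).1 hM
    rw [he.mul_eq ℓ (hsub hℓ) h0 z hz, norm_exp] at h1
    exact absurd h1 (not_lt.2 (Real.exp_le_one_iff.2 hre))
  · intro ℓ y hT
    have h1 := hL.T_dom ℓ y hT
    rw [hcc ℓ (hball' ℓ hT.1)]
    exact h1
  · intro ℓ hℓ hre hM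
    rw [hcc ℓ (hsub hℓ)] at hM
    exact hL.T_ex ℓ (hball ℓ hℓ) hre hM
  · intro ℓ hℓ y hT
    filter_upwards [hL.T_open ℓ (hball ℓ hℓ) y hT, isOpen_ball.mem_nhds hℓ] with ℓ' h1 h2 h3
    rw [hcc ℓ' (hsub h2)] at h3
    exact h1 h3
  · intro ℓ y hT
    have h1 := hL.ply ℓ y hT
    rw [hnq] at h1
    exact h1
  · rintro ℓ hℓ y hT1 ⟨h1, z, hz, hy⟩
    have h0 : ℓ ≠ 0 := by
      rintro rfl
      have := hy.1
      simp at this
    have h2 := heU ℓ (hsub hℓ) h0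
    have h3 : axisPt D.x + (e ℓ - D.a) = e ℓ := by
      show D.a + (e ℓ - D.a) = e ℓ
      ring
    rw [h3] at hT1
    have h4 : RotT D.m (D.c (e ℓ)) (D.b (e ℓ)) (e ℓ) D.x := by
      rw [(σ_eq hP hm (U_sub_B hP h2)).1, (σ_eq hP hm (U_sub_B hP h2)).2, hm]
      exact hT1
    exact child_nonint h.s2 h.s3 h.s3' h.s5 h.s7 h.s7' h.s8 hP hC hR hG h2 h4 hz hy

theorem exists_childRoot (h : SAll) (x : ℚ) (hx0 : 0 < x) (hx1 : x < 1) (hx : x.den ≠ 1) :
    ∃ g T, ChildRoot x (1 / 14400000 / (x.den : ℝ) ^ 7) g T := by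
  obtain ⟨D₀, hm, rfl, -, hP₀⟩ := h.s0 1 x (cc (axisPt x)) (exp (axisPt x) / 2) one_pos hx0 hx1
    (per_cc _) (fun d hd hd' => by omega) (mul_cc _)
  obtain ⟨i₀, u, k, tm, tp, -, hC₀⟩ := h.s1 D₀.m D₀.x D₀.w D₀.k₀ hP₀.m_pos hx0 hx1 hP₀.bits hP₀.wprim
  have hP := h.s0' D₀ i₀ u k tm tp hP₀
  have hC := hC₀ (fun L => ((D₀.σ L).1, it (D₀.σ L).1 i₀ (D₀.σ L).2))
  set D : Dat := ⟨D₀.m, D₀.x, fun L => ((D₀.σ L).1, it (D₀.σ L).1 i₀ (D₀.σ L).2),
    fun i => D₀.w (i + i₀), D₀.k₀, u, k, tm, tp⟩ with hD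
  have hR := h.s5' D hP hC
  obtain ⟨Z, hG⟩ := h.s9 D hP hC hR
  obtain ⟨e, he⟩ := h.s13 D Z hP hC hR hG
  exact childRoot_of (D := D) h hP hC hR hG he hm hx

theorem sAll : SAll where
  s0 := s0_parent
  s0' := s0_shift
  s1 := s1_circle
  s2 := s2_unique
  s3 := s3_closed
  s3' := s3_neutral
  s5 := s5_land
  s5' := s5_regions s5_ply60 s3_neutral
  s7 := s7_fatou
  s7' := s7_parab s3_neutral
  s8 := s8_side
  s9 := s9_glue s6_outer
    (s9_inner s2_unique s3_closed s3_neutral s7_fatou (s7_parab s3_neutral) s8_side)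
  s10 := s10_origin s2_width s3_closed s3_neutral (s4_root s4_unique)
  s11 := s11_deriv
  s13 := s13_child (s10_origin s2_width s3_closed s3_neutral (s4_root s4_unique)) s11_deriv
  s17 := s17_limb s16_rot

/-- the satellites of the main cardioid -/
theorem childRoot_all (x : ℚ) (hx0 : 0 < x) (hx1 : x < 1) (hx : x.den ≠ 1) :
    ∃ g T, ChildRoot x (1 / 14400000 / (x.den : ℝ) ^ 7) g T :=
  exists_childRoot sAll x hx0 hx1 hx

end Pool.Agent.Work.MLC.H24
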