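import Pool.Agent.Work.MLC.RotX13

set_option autoImplicit false

/-! # The relation `Ex` without restriction on the denominator (helper13) -/

namespace Pool.Agent.Work.MLC

open Filter Topology Metric Set Complex

/-- an angle of period one (under `2 ^ n`) is compatible with some word -/
lemma exists_compat13 {n : ℕ} (hn : 0 < n) {β : ℝ} (hβ : PerAngle n 1 β) :
    ∃ (θ : ℝ) (w : ℕ → ℤ), Bits n w ∧ Compat β θ w := by
  obtain ⟨-, ⟨K, hK⟩, -⟩ := hβ
  rw [mul_one] at hK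
  -- an angle outside the orbit
  have hfin : (⋃ i ∈ Finset.range n, {t : ℝ | Int.fract (2 ^ (i + 1) * β) = t}).Finite :=
    Set.Finite.biUnion (Finset.finite_toSet _) fun i _ => by
      have : {t : ℝ | Int.fract (2 ^ (i + 1) * β) = t} = {Int.fract (2 ^ (i + 1) * β)} := by
        ext t; simp [eq_comm]
      rw [this]; exact Set.finite_singleton _
  obtain ⟨θ, hθ, hθn⟩ := (Set.Ioo_infinite (show (0 : ℝ) < 1 by norm_num)).exists_notMem_finite hfin
  have hne : ∀ i < n, ∀ k : ℤ, (2 : ℝ) ^ (i + 1) * β ≠ θ + k := by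
    intro i hi k h
    apply hθn
    simp only [Set.mem_iUnion, Finset.mem_range, exists_prop]
    refine ⟨i, hi, ?_⟩
    show Int.fract (2 ^ (i + 1) * β) = θ
    rw [h, Int.fract_add_intCast, Int.fract_eq_self.2 ⟨hθ.1.le, hθ.2⟩]
  have hperi : ∀ i, ∃ z : ℤ, (2 : ℝ) ^ (i + n) * β = 2 ^ i * β + z := fun i =>
    ⟨2 ^ i * K, by rw [pow_add]; push_cast; rw [← hK]; ring⟩
  have hmod : ∀ i, ∃ z : ℤ, (2 : ℝ) ^ i * β = 2 ^ (i % n) * β + z := by
    intro i
    have : ∀ m j : ℕ, ∃ z : ℤ, (2 : ℝ) ^ (j + n * m) * β = 2 ^ j * β + z := by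
      intro m j
      induction m with
      | zero => exact ⟨0, by simp⟩
      | succ m ih =>
        obtain ⟨z, hz⟩ := ih
        obtain ⟨z', hz'⟩ := hperi (j + n * m)
        refine ⟨z + z', ?_⟩
        have : j + n * (m + 1) = (j + n * m) + n := by ring
        rw [this, hz', hz]; push_cast; ring
    have h2 := this (i / n) (i % n)
    rwa [Nat.mod_add_div] at h2
  -- the floor of `2 * 2 ^ i β - θ`
  set F : ℕ → ℤ := fun i => ⌊(2 : ℝ) ^ (i + 1) * β - θ⌋ with hF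
  refine ⟨θ, fun i => (F (i % n)) % 2, ⟨fun i => ?_, fun i => ?_⟩, fun i => ?_⟩
  · exact Int.emod_two_eq_zero_or_one (F (i % n))
  · show F ((i + n) % n) % 2 = F (i % n) % 2
    rw [Nat.add_mod_right]
  · obtain ⟨z, hz⟩ := hmod i
    have hi : i % n < n := Nat.mod_lt _ hn
    set j := i % n with hj
    have h1 := Int.floor_le ((2 : ℝ) ^ (j + 1) * β - θ)
    have h2 := Int.lt_floor_add_one ((2 : ℝ) ^ (j + 1) * β - θ)
    have h3 : (2 : ℝ) ^ (j + 1) * β - θ ≠ (F j : ℝ) := by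
      intro h
      exact hne j hi (F j) (by linarith)
    have h1' : (F j : ℝ) < (2 : ℝ) ^ (j + 1) * β - θ := lt_of_le_of_ne h1 (Ne.symm h3)
    have h2' : (2 : ℝ) ^ (j + 1) * β - θ < F j + 1 := h2
    have h4 : (F j : ℝ) = ((F j % 2 : ℤ) : ℝ) + 2 * ((F j / 2 : ℤ) : ℝ) := by
      have := Int.emod_add_mul_ediv (F j) 2
      exact_mod_cast this.symm
    have h5 : (2 : ℝ) ^ (j + 1) * β = 2 * (2 ^ j * β) := by rw [pow_succ]; ring
    refine ⟨F j / 2 + z, ?_, ?_⟩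
    · show (θ + ((F j % 2 : ℤ) : ℝ)) / 2 + ((F j / 2 + z : ℤ) : ℝ) < 2 ^ i * β
      rw [hz]; push_cast at h4 ⊢; linarith
    · show 2 ^ i * β < (θ + ((F j % 2 : ℤ) : ℝ)) / 2 + ((F j / 2 + z : ℤ) : ℝ) + 1 / 2
      rw [hz]; push_cast at h4 ⊢; linarith

section

variable {n : ℕ} {x : ℚ} {c b : ℂ}

lemma eq_num_of_den {x : ℚ} (h : x.den = 1) : x = x.num := by
  rw [Rat.den_eq_one_iff] at h; exact h.symm

/-- some compatible pair exists for a landing ray -/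
lemma exists_compat_of_land (hn : 0 < n) (hM : G c 0 = 0) (hfix : it c n b = b)
    (hρ : 1 < ‖mult n c b‖) {β : ℝ} {q : ℕ} (hl : Land n c b β q) :
    ∃ (θ : ℝ) (w : ℕ → ℤ), Bits n w ∧ Compat β θ w := by
  by_cases hq : 2 ≤ q
  · have hF : Fam n c b {β} := by
      refine ⟨Set.finite_singleton _, ?_, ?_, ⟨β, by simp, q, hq, hl.1⟩⟩
      · rintro β' rfl; exact ⟨q, hl.1⟩
      · rintro β' rfl; exact hl.lands hM
    obtain ⟨θ, v, hv, hfit⟩ := exists_fits hn hF (portHyp hn c b _ hM hfix hρ hF)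
    exact ⟨θ, v, hv, hfit.compat (by simp) (hl.lands hM)⟩
  · have h1 : q = 1 := by have := hl.1.1; omega
    subst h1
    exact exists_compat13 hn hl.1

/-- all rays which land at `b` have this rotation number -/
lemma Ex.all' (h : Ex n x c b) (hn : 0 < n) (hM : G c 0 = 0)
    (hfix : it c n b = b) (hρ : 1 < ‖mult n c b‖) {β : ℝ} {q : ℕ} (hl : Land n c b β q) :
    q = x.den ∧ ∀ (θ : ℝ) (w : ℕ → ℤ), (∀ i, w (i + n) = w i) → Compat β θ w →
      ∃ k : ℤ, Circ.nu w n θ = x + k := by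
  by_cases hx : 2 ≤ x.den
  · exact h.all hn hx hM hfix hρ hl
  have hx1 : x.den = 1 := by have := x.pos; omega
  have hxn := eq_num_of_den hx1
  have hxr : (x : ℝ) = (x.num : ℝ) := by exact_mod_cast congrArg (fun t : ℚ => (t : ℝ)) hxn
  have hq1 : q = 1 := by
    by_contra hcon
    have hq2 : 2 ≤ q := by have := hl.1.1; omega
    obtain ⟨β₀, hl₀, θ₀, w₀, hw₀, hc₀, k₀, hk₀⟩ := h
    have hF : Fam n c b {β, β₀} := by
      refine ⟨(Set.finite_singleton _).insert _, ?_, ?_, ⟨β, by simp, _, hq2, hl.1⟩⟩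
      · rintro β' (rfl | rfl)
        · exact ⟨q, hl.1⟩
        · exact ⟨_, hl₀.1⟩
      · rintro β' (rfl | rfl)
        · exact hl.lands hM
        · exact hl₀.lands hM
    obtain ⟨θ, v, hv, hfit⟩ := exists_fits hn hF (portHyp hn c b _ hM hfix hρ hF)
    have c1 : Compat β θ v := hfit.compat (by simp) (hl.lands hM)
    have c2 : Compat β₀ θ v := hfit.compat (by simp) (hl₀.lands hM)
    obtain ⟨k1, hk1⟩ := numod hl₀.1 hw₀ hv.per hc₀ c2
    refine nu_ne_int_of_compat hq2 hl.1 hv.per c1 (x.num + k₀ + k1) ?_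
    rw [hk1, hk₀, hxr]; push_cast; ring
  refine ⟨by rw [hq1, hx1], fun θ w hw hc => ?_⟩
  obtain ⟨P, -, hP⟩ := nu_of_compat hl.1 hw hc
  refine ⟨P - x.num, ?_⟩
  rw [hP, hq1, hxr]; push_cast; ring

/-- closedness -/
lemma ex_closed' (hn : 0 < n) (hM : G c 0 = 0) (hfix : it c n b = b)
    (hρ : 1 < ‖mult n c b‖)
    (h : ∃ᶠ y : ℂ × ℂ in 𝓝 (c, b), y ∈ Per n ∧ G y.1 0 = 0 ∧ Ex n x y.1 y.2) : Ex n x c b := by
  have hL : Complex.exp (Complex.log (mult n c b)) = mult n c b :=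
    Complex.exp_log (mult_ne_zero57 hρ)
  obtain ⟨β, q, p, hq, hland, -⟩ := Tr.exists_land_rot (lin_Lz hn hfix hρ) hM hL
  have hρ' : ∀ᶠ y : ℂ × ℂ in 𝓝 (c, b), 1 < ‖mult n y.1 y.2‖ :=
    ((continuous_mult n).norm.tendsto (c, b)).eventually (lt_mem_nhds hρ)
  obtain ⟨y, ⟨hy, hG, hE⟩, hev, hρy⟩ :=
    (h.and_eventually ((land_nhds hn hM hfix hρ hland).and hρ')).exists
  have hl := (hev hy).1 hG
  obtain ⟨hqx, hall⟩ := hE.all' hn hG hy hρy hl
  obtain ⟨θ, v, hv, c1⟩ := exists_compat_of_land hn hM hfix hρ hland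
  exact ⟨β, hqx ▸ hland, θ, v, hv.per, c1, hall θ v hv.per c1⟩

/-- every repelling point over the Mandelbrot set has a combinatorial rotation number -/
lemma exists_ex (hn : 0 < n) (hM : G c 0 = 0) (hfix : it c n b = b)
    (hρ : 1 < ‖mult n c b‖) : ∃ x : ℚ, Ex n x c b := by
  have hL : Complex.exp (Complex.log (mult n c b)) = mult n c b :=
    Complex.exp_log (mult_ne_zero57 hρ)
  obtain ⟨β, q, p, hq, hland, -⟩ := Tr.exists_land_rot (lin_Lz hn hfix hρ) hM hL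
  obtain ⟨θ, v, hv, c1⟩ := exists_compat_of_land hn hM hfix hρ hland
  obtain ⟨P, hP1, hP2⟩ := nu_of_compat hland.1 hv.per c1
  have hden : q = ((P : ℚ) / (q : ℚ)).den := den_of_eq (k := 0) hq hP1 (by push_cast; ring)
  refine ⟨(P : ℚ) / (q : ℚ), β, ?_, θ, v, hv.per, c1, 0, ?_⟩
  · rw [← hden]; exact hland
  · rw [hP2]; push_cast; ring

/-- the combinatorial rotation number is unique modulo one -/
lemma Ex.unique {x' : ℚ} (h : Ex n x c b) (h' : Ex n x' c b) (hn : 0 < n) (hM : G c 0 = 0)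
    (hfix : it c n b = b) (hρ : 1 < ‖mult n c b‖) : ∃ k : ℤ, x' = x + k := by
  obtain ⟨β, hl, θ, w, hw, hc, k, hk⟩ := h'
  obtain ⟨-, h1⟩ := h.all' hn hM hfix hρ hl
  obtain ⟨k', hk'⟩ := h1 θ w hw hc
  refine ⟨k' - k, ?_⟩
  have : (x' : ℝ) = x + ((k' - k : ℤ) : ℝ) := by push_cast; linarith
  exact_mod_cast this

/-- the PLY inequality with the denominator `x.den`, and the rotation number -/
lemma Ex.ply' (h : Ex n x c b) (hn : 0 < n) (hM : c ∈ MM)
    (hfix : (c, b) ∈ Per n) {L : ℂ} (hL : mul n (c, b) = exp L) (hre : 0 < L.re) :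
    ∃ p : ℤ, Tr.RotT n c b L ((p : ℚ) / (x.den : ℚ)) ∧
      ‖L - axisPt ((p : ℚ) / (x.den : ℚ))‖ ^ 2 ≤ 2 * n * Real.log 2 / x.den * L.re := by
  have hM0 : G c 0 = 0 := mem_M_iff.1 hM
  have hρ : 1 < ‖mult n c b‖ := by
    have : mult n c b = mul n (c, b) := rfl
    rw [this, hL, norm_exp]; exact Real.one_lt_exp_iff.2 hre
  have hL' : exp L = mult n c b := hL.symm
  obtain ⟨β, q, p, hq, hland, -, hT, hply⟩ := Tr.exists_land_rot
    (Tr.lin_Lz hn (Tr.rep_of hfix hL hre) rfl) hM0 hL'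
  obtain ⟨hqx, -⟩ := h.all' hn hM0 hfix hρ hland
  subst hqx
  refine ⟨p, ⟨hre, hM, hfix, hL, x.den, p, hq, hT, rfl⟩, ?_⟩
  have e : axisPt ((p : ℚ) / (x.den : ℚ)) = 2 * Real.pi * ((p : ℂ) / (x.den : ℂ)) * I := by
    unfold axisPt; push_cast; ring
  rw [e]; exact hply

end

end Pool.Agent.Work.MLC
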