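import Pool.Agent.Work.MLC.Cnt0

set_option autoImplicit false

/-! # Theorem N: the wake of a root and its frontier, and N9 (helper26) -/

namespace Pool.Agent.Work.MLC.Cnt

open Filter Topology Metric Set Complex MeasureTheory
open Pool.Agent.Work.MLC.Sat

namespace CH

/-! ### the uniformisation -/

lemma eq_cOf {c : ℂ} {θ : ℝ} (h : Ang c θ) : c = cOf ((G c c : ℂ) + 2 * Real.pi * θ * I) := by
  have hre : ((G c c : ℂ) + 2 * Real.pi * θ * I).re = G c c := by simp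
  symm
  refine cOf_unique ?_ ?_ h.2
  · have h1 : c ∈ Mc := h.1
    exact mem_Mc_iff.1 h1
  · rw [hre, G_zero_eq]; linarith [h.1]

lemma re_pt (g θ : ℝ) : ((g : ℂ) + 2 * Real.pi * θ * I).re = g := by simp

lemma im_pt (g θ : ℝ) : ((g : ℂ) + 2 * Real.pi * θ * I).im = 2 * Real.pi * θ := by simp

lemma pt_of {z : ℂ} {θ : ℝ} (h : z.im = 2 * Real.pi * θ) : z = (z.re : ℂ) + 2 * Real.pi * θ * I := by
  apply Complex.ext
  · rw [re_pt]
  · rw [im_pt, h]

lemma ang_of {z : ℂ} (h : 0 < z.re) : Ang (cOf z) (z.im / (2 * Real.pi)) := by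
  have h9 : z.im = 2 * Real.pi * (z.im / (2 * Real.pi)) := by field_simp
  have h1 := (ang_cOf (g := z.re) (θ := z.im / (2 * Real.pi)) h).1
  rwa [← pt_of h9] at h1

lemma cOf_shift (g θ : ℝ) (k : ℤ) : cOf ((g : ℂ) + 2 * Real.pi * ((θ + k : ℝ) : ℂ) * I) =
    cOf ((g : ℂ) + 2 * Real.pi * θ * I) := by
  have h : ((g : ℂ) + 2 * Real.pi * ((θ + k : ℝ) : ℂ) * I) =
      ((g : ℂ) + 2 * Real.pi * θ * I) + (k : ℂ) * (2 * Real.pi * I) := by
    push_cast; ring
  have h2 : Complex.exp ((k : ℂ) * (2 * Real.pi * I)) = 1 := Complex.exp_int_mul_two_pi_mul_I k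
  rw [h, cOf, cOf, Complex.exp_add, h2, mul_one]

lemma isOpen_image {S : Set ℂ} (hS : IsOpen S) (hp : ∀ z ∈ S, 0 < z.re) : IsOpen (cOf '' S) := by
  have h1 : cOf '' S = Mc ∩ Phi ⁻¹' (Complex.exp '' S) := by
    ext c
    constructor
    · rintro ⟨z, hz, rfl⟩
      exact ⟨cOf_mem (hp z hz), z, hz, (Phi_cOf (hp z hz)).symm⟩
    · rintro ⟨h1, z, hz, h2⟩
      refine ⟨z, hz, ?_⟩
      obtain ⟨L, -, hL, rfl⟩ := exists_cOf (mem_Mc_iff.1 h1)
      rw [Phi_cOf hL] at h2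
      rw [cOf, cOf, h2]
  rw [h1]
  exact differentiableOn_Phi.continuousOn.isOpen_inter_preimage isOpen_Mc
    (Complex.isOpenMap_exp _ hS)

/-! ### the wake -/

/-- the exterior part of the wake, below the roof -/
def ExtW (s t : ℝ) : Set ℂ :=
  cOf '' {z | 0 < z.re ∧ z.re < t - s ∧ 2 * Real.pi * s < z.im ∧ z.im < 2 * Real.pi * t}

lemma isOpen_ExtW (s t : ℝ) : IsOpen (ExtW s t) := by
  refine isOpen_image ?_ fun z hz => hz.1
  exact (isOpen_lt continuous_const continuous_re).inter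
    ((isOpen_lt continuous_re continuous_const).inter
    ((isOpen_lt continuous_const continuous_im).inter (isOpen_lt continuous_im continuous_const)))

/-- the wake, below the roof -/
def Wk (D : Dat) : Set ℂ := Lm D ∪ ExtW D.tm D.tp

variable {D : Dat}

lemma isOpen_Wk (h5 : N5_open) (hP : D.Par) (hC : D.Cir) : IsOpen (Wk D) := by
  rw [isOpen_iff_mem_nhds]
  rintro c (hc | hc)
  · have hcM : c ∈ MM := hc.1
    have hG0 : G c c = 0 := mem_M_iff'.1 hcM
    have hG : ∀ᶠ c' in 𝓝 c, G c' c' < D.tp - D.tm := by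
      refine (continuous_G_diag.tendsto c).eventually (eventually_lt_nhds ?_)
      rw [hG0]; linarith [hC.lt]
    filter_upwards [h5 D hP hC c hc, hG] with c' h1 h2
    by_cases hM : c' ∈ MM
    · exact Or.inl (h1.1 hM)
    · right
      have hpos : 0 < G c' c' := mem_Mc_iff.2 hM
      obtain ⟨θ, hθ⟩ := exists_ang hpos
      obtain ⟨k, hk1, hk2⟩ := h1.2 θ hθ
      have hpi := Real.two_pi_pos
      refine ⟨(G c' c' : ℂ) + 2 * Real.pi * ((θ + k : ℝ) : ℂ) * I, ⟨?_, ?_, ?_, ?_⟩, ?_⟩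
      · rw [re_pt]; exact hpos
      · rw [re_pt]; exact h2
      · rw [im_pt]; exact mul_lt_mul_of_pos_left hk1 hpi
      · rw [im_pt]; exact mul_lt_mul_of_pos_left hk2 hpi
      · rw [cOf_shift]; exact (eq_cOf hθ).symm
  · exact mem_of_superset ((isOpen_ExtW _ _).mem_nhds hc) subset_union_right

lemma bounded_Wk (D : Dat) : Bornology.IsBounded (Wk D) := by
  refine isCompact_MM.isBounded.union ((isCompact_G_diag_le (D.tp - D.tm)).isBounded) |>.subset ?_
  rintro c (hc | ⟨z, hz, rfl⟩)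
  · exact Or.inl hc.1
  · right
    show G (cOf z) (cOf z) ≤ _
    rw [G_cOf hz.1]; exact hz.2.1.le

lemma a_mem (hP : D.Par) : D.a ∈ D.B := by
  refine mem_ball_self ?_
  have h1 : (0 : ℝ) < D.x := by exact_mod_cast hP.x_pos
  have h2 : (D.x : ℝ) < 1 := by exact_mod_cast hP.x_lt
  have h3 : (0 : ℝ) < D.m := by exact_mod_cast hP.m_pos
  have h4 : 0 < min (D.x : ℝ) (1 - D.x) := lt_min h1 (by linarith)
  rw [gR]; positivity

lemma gR_pos (hP : D.Par) : 0 < gR D.m D.x := by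
  have h1 : (0 : ℝ) < D.x := by exact_mod_cast hP.x_pos
  have h2 : (D.x : ℝ) < 1 := by exact_mod_cast hP.x_lt
  have h3 : (0 : ℝ) < D.m := by exact_mod_cast hP.m_pos
  have h4 : 0 < min (D.x : ℝ) (1 - D.x) := lt_min h1 (by linarith)
  rw [gR]; positivity

lemma sG_pos (hP : D.Par) : 0 < sG D := by
  have := gR_pos hP
  rw [sG]; positivity

lemma norm_exp_a (D : Dat) : ‖Complex.exp D.a‖ = 1 := by
  rw [Complex.norm_exp]
  have : D.a.re = 0 := by simp [Dat.a, axisPt]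
  rw [this, Real.exp_zero]

lemma rt_mem_MM (hP : D.Par) : rt D ∈ MM := by
  by_contra h
  have hpos : 0 < G (rt D) (rt D) := mem_Mc_iff.2 h
  obtain ⟨h1, h2⟩ := hP.sec D.a (a_mem hP)
  have h3 : it (rt D) D.m (D.b D.a) = D.b D.a := h1
  have h4 := one_lt_norm_mult_of_ext hP.m_pos hpos h3
  have h5 : mult D.m (rt D) (D.b D.a) = mul D.m (D.σ D.a) := rfl
  rw [h5, h2, norm_exp_a] at h4
  exact lt_irrefl _ h4

lemma rt_mem_Gate (hP : D.Par) : rt D ∈ Gate D :=
  ⟨D.a, mem_closedBall_self (sG_pos hP).le, rfl⟩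

/-- the frontier of the wake -/
lemma frontier_Wk (h2 : N2_ray) (h5 : N5_open) (h5' : N5_closed) (hP : D.Par) (hC : D.Cir)
    {g : ℝ}
    (hg2 : 130000 * (D.m : ℝ) ^ 3 * D.x.den ≤ sG D ^ 4 * (-Real.log g)) :
    frontier (Wk D) ⊆ Gate D ∪ RaySeg D.tm g (D.tp - D.tm) ∪ RaySeg D.tp g (D.tp - D.tm) ∪
      Roof D.tm D.tp := by
  intro z hz
  have hsG := sG_pos hP
  have hlog : ∀ u : ℝ, 0 < u → u ≤ g →
      130000 * (D.m : ℝ) ^ 3 * D.x.den ≤ sG D ^ 4 * (-Real.log u) := by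
    intro u hu hug
    refine hg2.trans ?_
    have : Real.log u ≤ Real.log g := Real.log_le_log hu hug
    gcongr
  rw [frontier, (isOpen_Wk h5 hP hC).interior_eq] at hz
  obtain ⟨hzc, hzn⟩ := hz
  by_cases hM : z ∈ MM
  · have h1 : z ∈ Lm D ∨ z = rt D := by
      refine h5' D hP hC z hM (closure_mono ?_ hzc)
      rintro c (hc | ⟨w, hw, rfl⟩)
      · exact Or.inl hc
      · right
        refine ⟨w.im / (2 * Real.pi), ang_of hw.1, ?_, ?_⟩
        · rw [le_div_iff₀ Real.two_pi_pos]; linarith [hw.2.2.1]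
        · rw [div_le_iff₀ Real.two_pi_pos]; linarith [hw.2.2.2]
    rcases h1 with h1 | h1
    · exact absurd (Or.inl h1) hzn
    · rw [h1]; exact Or.inl (Or.inl (Or.inl (rt_mem_Gate hP)))
  · have hzG : 0 < G z z := mem_Mc_iff.2 hM
    have h1 : z ∈ closure (ExtW D.tm D.tp) := by
      rw [Wk, closure_union] at hzc
      rcases hzc with h | h
      · exfalso
        refine hM ?_
        have : closure (Lm D) ⊆ MM := closure_minimal (fun c hc => hc.1) isCompact_MM.isClosed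
        exact this h
      · exact h
    set S : Set ℂ := Icc (G z z / 2) (D.tp - D.tm) ×ℂ
      Icc (2 * Real.pi * D.tm) (2 * Real.pi * D.tp) with hS
    have hSc : IsCompact S := isCompact_Icc.reProdIm isCompact_Icc
    have hSpos : ∀ w ∈ S, 0 < w.re := fun w hw => by
      have := hw.1.1
      have h' : G z z / 2 ≤ w.re := this
      linarith
    have hcl : IsClosed (cOf '' S) :=
      (hSc.image_of_continuousOn (continuousOn_cOf.mono hSpos)).isClosed
    have hU : {c : ℂ | G z z / 2 < G c c} ∈ 𝓝 z :=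
      (isOpen_lt continuous_const continuous_G_diag).mem_nhds (by
        show G z z / 2 < G z z
        linarith)
    have h3 : z ∈ closure ({c : ℂ | G z z / 2 < G c c} ∩ ExtW D.tm D.tp) :=
      mem_closure_iff_nhds.2 fun t ht => by
        obtain ⟨y, hy1, hy2⟩ := mem_closure_iff_nhds.1 h1 _ (inter_mem ht hU)
        exact ⟨y, hy1.1, hy1.2, hy2⟩
    have h4 : z ∈ cOf '' S := by
      refine hcl.closure_subset_iff.2 ?_ h3
      rintro c ⟨hc1, w, hw, rfl⟩
      refine ⟨w, ⟨⟨?_, hw.2.1.le⟩, ⟨hw.2.2.1.le, hw.2.2.2.le⟩⟩, rfl⟩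
      have : G z z / 2 < G (cOf w) (cOf w) := hc1
      rw [G_cOf hw.1] at this
      exact this.le
    obtain ⟨w, hw, hwz⟩ := h4
    have hw0 := hSpos w hw
    obtain ⟨⟨hr1, hr2⟩, hi1, hi2⟩ := hw
    have key : ∀ t : ℝ, (∀ u, 0 < u → u ≤ g → cOf ((u : ℂ) + 2 * Real.pi * t * I) ∈ Gate D) →
        w.im = 2 * Real.pi * t → z ∈ Gate D ∪ RaySeg t g (D.tp - D.tm) := by
      intro t ht hwt
      rw [← hwz, pt_of hwt]
      rcases le_or_gt w.re g with h | h
      · exact Or.inl (ht _ hw0 h)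
      · exact Or.inr ⟨w.re, ⟨h.le, hr2⟩, rfl⟩
    rcases hi1.eq_or_lt with h6 | h6
    · rcases key D.tm (fun u hu hug => (h2 D hP hC (sG D) u hsG le_rfl hu (hlog u hu hug)).1)
        h6.symm with h | h
      · exact Or.inl (Or.inl (Or.inl h))
      · exact Or.inl (Or.inl (Or.inr h))
    rcases hi2.eq_or_lt with h7 | h7
    · rcases key D.tp (fun u hu hug => (h2 D hP hC (sG D) u hsG le_rfl hu (hlog u hu hug)).2)
        h7 with h | h
      · exact Or.inl (Or.inl (Or.inl h))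
      · exact Or.inl (Or.inr h)
    rcases hr2.eq_or_lt with h8 | h8
    · right
      refine ⟨w.im / (2 * Real.pi), ⟨?_, ?_⟩, ?_⟩
      · rw [le_div_iff₀ Real.two_pi_pos]; linarith
      · rw [div_le_iff₀ Real.two_pi_pos]; linarith
      · have h9 : w.im = 2 * Real.pi * (w.im / (2 * Real.pi)) := by field_simp
        have h10 := pt_of h9
        show cOf (((D.tp - D.tm : ℝ) : ℂ) + 2 * Real.pi * ((w.im / (2 * Real.pi) : ℝ) : ℂ) * I) = z
        rw [← hwz, ← h8, ← h10]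
    · exact absurd (Or.inr ⟨w, ⟨hw0, h8, h6, h7⟩, hwz⟩) hzn

/-- `limb ∪ {root}` is connected -/
lemma preconn_K (h5 : N5_open) (h5' : N5_closed) (hP : D.Par) (hC : D.Cir) :
    IsPreconnected (Lm D ∪ {rt D}) := by
  have hcl : ∀ c ∈ MM, c ∈ closure (Lm D) → c ∈ Lm D ∨ c = rt D := fun c hc h =>
    h5' D hP hC c hc (closure_mono subset_union_left h)
  have hop : ∀ c ∈ Lm D, c ∈ interior (Lm D ∪ MMᶜ) := by
    intro c hc
    rw [mem_interior_iff_mem_nhds]
    filter_upwards [h5 D hP hC c hc] with c' h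
    by_cases hM : c' ∈ MM
    · exact Or.inl (h.1 hM)
    · exact Or.inr hM
  have key : ∀ u v : Set ℂ, IsOpen u → IsOpen v → Lm D ∪ {rt D} ⊆ u ∪ v → rt D ∈ u →
      ((Lm D ∪ {rt D}) ∩ v).Nonempty → ((Lm D ∪ {rt D}) ∩ (u ∩ v)).Nonempty := by
    intro u v hu hv huv hr hvn
    by_cases hrv : rt D ∈ v
    · exact ⟨rt D, Or.inr rfl, hr, hrv⟩
    obtain ⟨y, hy, hyv⟩ := hvn
    have hyL : y ∈ Lm D := by
      rcases hy with h | h
      · exact h
      · rw [h] at hyv; exact absurd hyv hrv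
    have h1 : MM ⊆ (v ∩ interior (Lm D ∪ MMᶜ)) ∪ (u ∪ (closure (Lm D))ᶜ) := by
      intro z hz
      by_cases hzc : z ∈ closure (Lm D)
      · rcases hcl z hz hzc with h | h
        · rcases huv (Or.inl h) with h' | h'
          · exact Or.inr (Or.inl h')
          · exact Or.inl ⟨h', hop z h⟩
        · rw [h]; exact Or.inr (Or.inl hr)
      · exact Or.inr (Or.inr hzc)
    obtain ⟨z, hz, ⟨hz1, hz2⟩, hz3⟩ := isPreconnected_MM _ _ (hv.inter isOpen_interior)
      (hu.union isClosed_closure.isOpen_compl) h1 ⟨y, hyL.1, hyv, hop y hyL⟩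
      ⟨rt D, rt_mem_MM hP, Or.inl hr⟩
    have hzL : z ∈ Lm D := by
      rcases interior_subset hz2 with h | h
      · exact h
      · exact absurd hz h
    rcases hz3 with h | h
    · exact ⟨z, Or.inl hzL, h, hz1⟩
    · exact absurd (subset_closure hzL) h
  intro u v hu hv huv hun hvn
  rcases huv (Or.inr rfl : rt D ∈ Lm D ∪ {rt D}) with h | h
  · exact key u v hu hv huv h hvn
  · rw [inter_comm u v]
    exact key v u hv hu (by rwa [union_comm v u]) h hun

/-- the rays land at the root -/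
lemma rt_mem_closure (h2 : N2_ray) (hP : D.Par) (hC : D.Cir) (N : Set ℂ) (hN : N ∈ 𝓝 (rt D)) :
    ∃ g : ℝ, 0 < g ∧ cOf ((g : ℂ) + 2 * Real.pi * D.tm * I) ∈ N ∧
      cOf ((g : ℂ) + 2 * Real.pi * D.tp * I) ∈ N := by
  have hsG := sG_pos hP
  have hcont : ContinuousAt D.c D.a :=
    (continuous_fst.continuousAt).comp ((hP.cont.continuousAt (isOpen_ball.mem_nhds (a_mem hP))))
  obtain ⟨ε, hε, hεN⟩ := Metric.mem_nhds_iff.1 (hcont.preimage_mem_nhds hN)
  set s : ℝ := min (sG D) (ε / 2) with hs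
  have hs0 : 0 < s := lt_min hsG (by positivity)
  have hs1 : s ≤ sG D := min_le_left _ _
  have hs2 : s < ε := (min_le_right _ _).trans_lt (by linarith)
  have hsub : D.c '' closedBall D.a s ⊆ N := by
    rintro _ ⟨L, hL, rfl⟩
    exact hεN (closedBall_subset_ball hs2 hL)
  refine ⟨Real.exp (-(130000 * (D.m : ℝ) ^ 3 * D.x.den / s ^ 4)), Real.exp_pos _, ?_⟩
  have h := h2 D hP hC s (Real.exp (-(130000 * (D.m : ℝ) ^ 3 * D.x.den / s ^ 4))) hs0 hs1
    (Real.exp_pos _) (by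
      rw [Real.log_exp, neg_neg, mul_div_cancel₀ _ (by positivity)])
  exact ⟨hsub h.1, hsub h.2⟩

/-- the diameter of one limb -/
lemma diam_Sep (h1 : N1_length) (h2 : N2_ray) (h3 : N3_gate) (h5 : N5_open) (h5' : N5_closed)
    (h6 : N6_sep) (h7 : N7_proj) (hP : D.Par) (hC : D.Cir) :
    diam (Sep (rt D)) ≤ 2 * (diam (Gate D) +
      60 * √((1 + 130000 * (D.m : ℝ) ^ 3 * D.x.den / sG D ^ 4) * area D.tm D.tp)) := by
  have hsG := sG_pos hP
  set Λ : ℝ := 130000 * (D.m : ℝ) ^ 3 * D.x.den / sG D ^ 4 with hΛ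
  have hΛ0 : 0 ≤ Λ := by positivity
  set h : ℝ := D.tp - D.tm with hh
  have hh0 : 0 < h := by have := hC.lt; linarith
  have hh1 : h ≤ 1 := by have := hC.lt_one; linarith
  set g : ℝ := min (Real.exp (-Λ)) h with hg
  have hg0 : 0 < g := lt_min (Real.exp_pos _) hh0
  have hgh : g ≤ h := min_le_right _ _
  have hlg : Real.log g ≤ -Λ := by
    rw [← Real.log_exp (-Λ)]
    exact Real.log_le_log hg0 (min_le_left _ _)
  have hg2 : 130000 * (D.m : ℝ) ^ 3 * D.x.den ≤ sG D ^ 4 * (-Real.log g) := by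
    have e : 130000 * (D.m : ℝ) ^ 3 * D.x.den = sG D ^ 4 * Λ := by
      rw [hΛ, mul_div_cancel₀ _ (by positivity)]
    rw [e]
    exact mul_le_mul_of_nonneg_left (by linarith) (by positivity)
  have hlog : Real.log (h / g) ≤ Λ := by
    rcases min_cases (Real.exp (-Λ)) h with ⟨e, -⟩ | ⟨e, -⟩
    · rw [hg, e, Real.log_div hh0.ne' (Real.exp_pos _).ne', Real.log_exp]
      have := Real.log_nonpos hh0.le hh1
      linarith
    · rw [hg, e, div_self hh0.ne', Real.log_one]; exact hΛ0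
  have hA0 : 0 ≤ area D.tm D.tp := ENNReal.toReal_nonneg
  obtain ⟨hl1, hl2, hl3⟩ := h1 D.tm D.tp g hC.lt hh1 hg0 hgh
  set R : ℝ := √((1 + Λ) * area D.tm D.tp) with hR
  have hR1 : √((1 + Real.log (h / g)) * area D.tm D.tp) ≤ R := by
    apply Real.sqrt_le_sqrt
    gcongr
  have hR2 : √(area D.tm D.tp) ≤ R := by
    apply Real.sqrt_le_sqrt
    nlinarith
  have hrayb : ∀ t : ℝ, Bornology.IsBounded (RaySeg t g h) := by
    intro t
    have hc : ContinuousOn (fun u : ℝ => cOf ((u : ℂ) + 2 * Real.pi * t * I)) (Icc g h) := by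
      refine continuousOn_cOf.comp (by fun_prop) fun u hu => ?_
      show 0 < ((u : ℂ) + 2 * Real.pi * t * I).re
      rw [re_pt]; exact hg0.trans_le hu.1
    exact (isCompact_Icc.image_of_continuousOn hc).isBounded
  have hroofb : Bornology.IsBounded (Roof D.tm D.tp) := by
    have hc : ContinuousOn (fun u : ℝ => cOf (((D.tp - D.tm : ℝ) : ℂ) + 2 * Real.pi * u * I))
        (Icc D.tm D.tp) := by
      refine continuousOn_cOf.comp (by fun_prop) fun u hu => ?_
      show 0 < (((D.tp - D.tm : ℝ) : ℂ) + 2 * Real.pi * u * I).re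
      rw [re_pt]; exact hh0
    exact (isCompact_Icc.image_of_continuousOn hc).isBounded
  have hgate := h3 D hP hC
  have hproj := h7 (Wk D) (Lm D ∪ {rt D}) (rt D) (Fin 4) Finset.univ
    ![Gate D, RaySeg D.tm g h, RaySeg D.tp g h, Roof D.tm D.tp]
    (isOpen_Wk h5 hP hC) (bounded_Wk D) (preconn_K h5 h5' hP hC) (Or.inr rfl)
    (by
      rintro z (hz | hz)
      · exact Or.inl (Or.inl hz)
      · exact Or.inr hz)
    (by
      intro i _
      fin_cases i
      · exact hgate.2.2.1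
      · exact hrayb _
      · exact hrayb _
      · exact hroofb)
    (by
      intro z hz
      rw [mem_iUnion₂]
      rcases frontier_Wk h2 h5 h5' hP hC hg2 hz with ((h | h) | h) | h
      · exact ⟨0, Finset.mem_univ _, h⟩
      · exact ⟨1, Finset.mem_univ _, h⟩
      · exact ⟨2, Finset.mem_univ _, h⟩
      · exact ⟨3, Finset.mem_univ _, h⟩)
  have hsum : ∀ z ∈ Lm D ∪ {rt D}, dist z (rt D) ≤ diam (Gate D) + 60 * R := by
    intro z hz
    have h9 := hproj z hz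
    rw [Fin.sum_univ_four] at h9
    have h10 : diam (Gate D) + diam (RaySeg D.tm g h) + diam (RaySeg D.tp g h) +
        diam (Roof D.tm D.tp) ≤ diam (Gate D) + 60 * R := by linarith
    exact le_trans h9 h10
  rw [h6 D hP hC]
  apply diam_le_of_forall_dist_le
  · have h10 : 0 ≤ diam (Gate D) := diam_nonneg
    have h11 : 0 ≤ R := Real.sqrt_nonneg _
    positivity
  · intro z hz z' hz'
    have h10 := hsum z (Or.inl hz)
    have h11 := hsum z' (Or.inl hz')
    have h12 := dist_triangle_right z z' (rt D)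
    linarith

lemma lam_le (hP : D.Par) {N : ℕ} (hN : D.m * D.x.den ≤ N) :
    1 + 130000 * (D.m : ℝ) ^ 3 * D.x.den / sG D ^ 4 ≤ 140000000000 * (N : ℝ) ^ 9 := by
  have hx0 : (0 : ℝ) < D.x := by exact_mod_cast hP.x_pos
  have hx1 : (D.x : ℝ) < 1 := by exact_mod_cast hP.x_lt
  have hm : (1 : ℝ) ≤ D.m := by exact_mod_cast hP.m_pos
  have hq : (1 : ℝ) ≤ D.x.den := by exact_mod_cast D.x.pos
  have hnum : (D.x : ℝ) * D.x.den = D.x.num := by exact_mod_cast Rat.mul_den_eq_num D.x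
  have hnum1 : (1 : ℝ) ≤ D.x.num := by
    have : 0 < D.x.num := Rat.num_pos.2 hP.x_pos
    exact_mod_cast this
  have hnum2 : (D.x.num : ℝ) + 1 ≤ D.x.den := by
    have h1 : D.x.num < D.x.den := by
      have h2 : (D.x.num : ℝ) < D.x.den := by rw [← hnum]; nlinarith
      exact_mod_cast h2
    exact_mod_cast h1
  set q : ℝ := ((D.x.den : ℕ) : ℝ) with hqd
  set m : ℝ := ((D.m : ℕ) : ℝ) with hmd
  have hq0 : 0 < q := by linarith
  have hm0 : 0 < m := by linarith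
  have hmin : 1 / q ≤ min (D.x : ℝ) (1 - D.x) := by
    refine le_min ?_ ?_
    · rw [div_le_iff₀ hq0]; linarith
    · rw [div_le_iff₀ hq0]; nlinarith
  have hs : 1 / (32 * m * q ^ 2) ≤ sG D := by
    have h1 : (1 / q) ^ 2 ≤ (min (D.x : ℝ) (1 - D.x)) ^ 2 := by gcongr
    have h2 : 1 / (32 * m * q ^ 2) = 1 / 4 * (1 / q) ^ 2 / m / 8 := by field_simp; norm_num
    rw [h2, sG, gR]
    gcongr
  have hs4 : (1 / (32 * m * q ^ 2)) ^ 4 ≤ sG D ^ 4 := by gcongr
  have h3 : 130000 * m ^ 3 * q / sG D ^ 4 ≤ 130000 * m ^ 3 * q / (1 / (32 * m * q ^ 2)) ^ 4 := by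
    gcongr
  have h4 : 130000 * m ^ 3 * q / (1 / (32 * m * q ^ 2)) ^ 4 = 136314880000 * (m ^ 7 * q ^ 9) := by
    field_simp; ring
  have hN' : m * q ≤ N := by
    rw [hmd, hqd]; exact_mod_cast hN
  have hqN : q ≤ N := by nlinarith
  have h5 : m ^ 7 * q ^ 9 ≤ (N : ℝ) ^ 9 := by
    calc m ^ 7 * q ^ 9 = (m * q) ^ 7 * q ^ 2 := by ring
      _ ≤ (N : ℝ) ^ 7 * (N : ℝ) ^ 2 := by gcongr
      _ = (N : ℝ) ^ 9 := by ring
  have h6 : (1 : ℝ) ≤ (N : ℝ) ^ 9 := one_le_pow₀ (by nlinarith)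
  linarith

/-- Two roots of the family have disjoint arcs. -/
lemma disj_arcs (h2 : N2_ray) (h5' : N5_closed) (h6 : N6_sep) {D D' : Dat} (hP : D.Par)
    (hC : D.Cir) (hP' : D'.Par) (hC' : D'.Cir) (hne : rt D ≠ rt D') (h : rt D' ∉ Sep (rt D))
    (h' : rt D ∉ Sep (rt D')) (k : ℤ) :
    Disjoint (Ioo D.tm D.tp) (Ioo (D'.tm + k) (D'.tp + k)) := by
  -- the left end of one of the arcs is in the other one
  have key : ∀ {D D' : Dat}, D.Par → D.Cir → D'.Par → D'.Cir → rt D ≠ rt D' →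
      rt D' ∉ Sep (rt D) → ∀ k : ℤ, D.tm ≤ D'.tm + k → D'.tm + k < D.tp → False := by
    intro D D' hP hC hP' hC' hne h k h1 h3
    have hcl : rt D' ∈ closure (Lm D ∪ {c' | ∃ θ, Ang c' θ ∧ D.tm ≤ θ ∧ θ ≤ D.tp}) := by
      rw [mem_closure_iff_nhds]
      intro N hN
      obtain ⟨g, hg, hg1, -⟩ := rt_mem_closure h2 hP' hC' N hN
      refine ⟨_, hg1, Or.inr ⟨D'.tm + k, ?_, h1, h3.le⟩⟩
      rw [← cOf_shift g D'.tm k]
      exact (ang_cOf hg).1
    rcases h5' D hP hC _ (rt_mem_MM hP') hcl with h4 | h4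
    · rw [← h6 D hP hC] at h4; exact h h4
    · exact hne h4.symm
  rw [Set.disjoint_left]
  rintro t ⟨ht1, ht2⟩ ⟨ht3, ht4⟩
  rcases le_or_gt D.tm (D'.tm + k) with hle | hlt
  · exact key hP hC hP' hC' hne h k hle (by linarith)
  · refine key hP' hC' hP hC hne.symm h' (-k) ?_ ?_
    · push_cast; linarith
    · push_cast; linarith

lemma sum_half (h3 : N3_gate) (h3' : N3_disj) (N : ℕ) (ι : Type) (F : Finset ι) (D : ι → Dat)
    (hF : ∀ i ∈ F, (D i).Par ∧ (D i).Cir ∧ (D i).m * (D i).x.den ≤ N)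
    (hne : ∀ i ∈ F, ∀ j ∈ F, i ≠ j → rt (D i) ≠ rt (D j)) :
    ∑ i ∈ F, (volume (Half (D i))).toReal ≤ 315 * (N : ℝ) ^ 3 := by
  classical
  have hball : (volume (ball (0 : ℂ) 10)).toReal ≤ 315 := by
    rw [Complex.volume_ball]
    have h1 : (ENNReal.ofReal 10 ^ 2 * (NNReal.pi : ENNReal)).toReal = 100 * Real.pi := by
      rw [ENNReal.toReal_mul, ENNReal.toReal_pow, ENNReal.toReal_ofReal (by norm_num)]
      norm_num
    rw [h1]
    have := Real.pi_lt_d2
    linarith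
  have hfin : volume (ball (0 : ℂ) 10) ≠ ⊤ := measure_ball_lt_top.ne
  set T : Finset (ℕ × ℕ × ℕ) := Finset.Icc 1 N ×ˢ (Finset.Icc 1 N ×ˢ Finset.Icc 1 N) with hT
  set κ : ι → ℕ × ℕ × ℕ := fun i => ((D i).m, (D i).x.den, (D i).x.num.natAbs) with hκ
  have hmaps : ∀ i ∈ F, κ i ∈ T := by
    intro i hi
    obtain ⟨hP, hC, hN⟩ := hF i hi
    have hm : 1 ≤ (D i).m := hP.m_pos
    have hq : 1 ≤ (D i).x.den := (D i).x.pos
    have hnum : 0 < (D i).x.num := Rat.num_pos.2 hP.x_pos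
    have hlt : (D i).x.num < (D i).x.den := Rat.num_lt_denom_iff.2 hP.x_lt
    have h1 : (D i).m ≤ N := by nlinarith
    have h2 : (D i).x.den ≤ N := by nlinarith
    have h4 : (D i).x.num.natAbs ≤ N := by omega
    simp only [hT, hκ, Finset.mem_product, Finset.mem_Icc]
    exact ⟨⟨hm, h1⟩, ⟨hq, h2⟩, by omega, h4⟩
  have hcard : T.card = N ^ 3 := by
    simp only [hT, Finset.card_product, Nat.card_Icc, Nat.add_sub_cancel]
    ring
  rw [← Finset.sum_fiberwise_of_maps_to hmaps]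
  have hfib : ∀ y ∈ T, ∑ i ∈ F with κ i = y, (volume (Half (D i))).toReal ≤ 315 := by
    intro y _
    have hmem : ∀ i ∈ F.filter (fun i => κ i = y), i ∈ F ∧ κ i = y := fun i hi => by
      simpa using hi
    have hdisj : (↑(F.filter fun i => κ i = y) : Set ι).PairwiseDisjoint fun i => Half (D i) := by
      intro i hi j hj hij
      obtain ⟨hi1, hi2⟩ := hmem i (by simpa using hi)
      obtain ⟨hj1, hj2⟩ := hmem j (by simpa using hj)
      obtain ⟨hP, hC, -⟩ := hF i hi1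
      obtain ⟨hP', hC', -⟩ := hF j hj1
      have he : κ i = κ j := hi2.trans hj2.symm
      simp only [hκ, Prod.mk.injEq] at he
      obtain ⟨e1, e2, e3⟩ := he
      have hnum : 0 < (D i).x.num := Rat.num_pos.2 hP.x_pos
      have hnum' : 0 < (D j).x.num := Rat.num_pos.2 hP'.x_pos
      have e4 : (D i).x = (D j).x := Rat.ext (by omega) e2
      exact h3' (D i) (D j) hP hC hP' hC' e1 e4 (hne i hi1 j hj1 hij)
    have hmeas : ∀ i ∈ F.filter (fun i => κ i = y), MeasurableSet (Half (D i)) := fun i hi => by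
      obtain ⟨hi1, -⟩ := hmem i hi
      exact (h3 (D i) (hF i hi1).1 (hF i hi1).2.1).1
    have hsub : (⋃ i ∈ F.filter (fun i => κ i = y), Half (D i)) ⊆ ball (0 : ℂ) 10 := by
      refine iUnion₂_subset fun i hi => ?_
      obtain ⟨hi1, -⟩ := hmem i hi
      exact (h3 (D i) (hF i hi1).1 (hF i hi1).2.1).2.1
    have hfini : ∀ i ∈ F.filter (fun i => κ i = y), volume (Half (D i)) ≠ ⊤ := fun i hi => by
      obtain ⟨hi1, -⟩ := hmem i hi
      exact measure_ne_top_of_subset (h3 (D i) (hF i hi1).1 (hF i hi1).2.1).2.1 hfin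
    rw [← ENNReal.toReal_sum hfini, ← measure_biUnion_finset hdisj hmeas]
    exact (ENNReal.toReal_mono hfin (measure_mono hsub)).trans hball
  calc ∑ y ∈ T, ∑ i ∈ F with κ i = y, (volume (Half (D i))).toReal ≤ ∑ y ∈ T, (315 : ℝ) :=
        Finset.sum_le_sum hfib
    _ = 315 * (N : ℝ) ^ 3 := by
        rw [Finset.sum_const, hcard, nsmul_eq_mul]; push_cast; ring

end CH

/-- **N9** -/
theorem n9_anti (h2 : N2_ray) (h4 : N4_anti) (h5 : N5_open) (h6 : N6_sep) : N9_anti := by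
  intro D D' hP hC hP' hC' hm hq hq' hmem
  rw [h6 D hP hC] at hmem
  have hne : rt D' ≠ rt D := by
    have h7 : rt D' ∈ Sep (rt D) := by rw [h6 D hP hC]; exact hmem
    exact h7.2.1
  obtain ⟨g, hg, hg1, -⟩ := CH.rt_mem_closure h2 hP' hC' _ (h5 D hP hC _ hmem)
  obtain ⟨k, hk1, hk2⟩ := hg1.2 D'.tm (ang_cOf hg).1
  refine hne (h4 D D' hP hC hP' hC' hm hq hq' ?_).symm
  set t : ℝ := min D.tp (D'.tp + k) with ht
  have h8 : D'.tm + k < t := lt_min hk2 (by linarith [hC'.lt])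
  have h9 : t ≤ D.tp := min_le_left _ _
  have h10 : t ≤ D'.tp + k := min_le_right _ _
  refine ⟨(D'.tm + k + t) / 2, -k, by linarith, by linarith, ?_, ?_⟩
  · push_cast; linarith
  · push_cast; linarith

/-- **N8: the sum** -/
theorem n8_sum (h1 : N1_length) (h1' : N1_area) (h2 : N2_ray) (h3 : N3_gate) (h3' : N3_disj)
    (h5 : N5_open) (h5' : N5_closed) (h6 : N6_sep) (h7 : N7_proj) : N8_sum := by
  intro N ι F D hF hsep
  have harea : ∑ i ∈ F, area (D i).tm (D i).tp ≤ 10 ^ 4 := by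
    refine h1' ι F (fun i => (D i).tm) (fun i => (D i).tp) ?_ ?_
    · intro i hi
      obtain ⟨-, hC, -⟩ := hF i hi
      exact ⟨hC.lt, by linarith [hC.lt_one]⟩
    · intro i hi j hj hij k
      obtain ⟨hP, hC, -⟩ := hF i hi
      obtain ⟨hP', hC', -⟩ := hF j hj
      exact CH.disj_arcs h2 h5' h6 hP hC hP' hC' (hsep i hi j hj hij).1 (hsep i hi j hj hij).2
        (hsep j hj i hi hij.symm).2 k
  have hhalf := CH.sum_half h3 h3' N ι F D hF fun i hi j hj hij => (hsep i hi j hj hij).1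
  have hone : ∀ i ∈ F, diam (Sep (rt (D i))) ^ 2 ≤
      8 * 10 ^ 12 * (volume (Half (D i))).toReal +
        28800 * (140000000000 * (N : ℝ) ^ 9) * area (D i).tm (D i).tp := by
    intro i hi
    obtain ⟨hP, hC, hN⟩ := hF i hi
    have hd := CH.diam_Sep h1 h2 h3 h5 h5' h6 h7 hP hC
    have hlam := CH.lam_le hP hN
    set Λ : ℝ := 1 + 130000 * ((D i).m : ℝ) ^ 3 * (D i).x.den / sG (D i) ^ 4 with hΛ
    have hsG := CH.sG_pos hP
    have hΛ0 : 0 ≤ Λ := by positivity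
    have hA0 : 0 ≤ area (D i).tm (D i).tp := ENNReal.toReal_nonneg
    set A : ℝ := area (D i).tm (D i).tp with hA
    have hR2 : √(Λ * A) ^ 2 = Λ * A := Real.sq_sqrt (by positivity)
    have hg := (h3 (D i) hP hC).2.2.2
    set V : ℝ := (volume (Half (D i))).toReal with hV
    have hV0 : 0 ≤ V := ENNReal.toReal_nonneg
    have hg2 : diam (Gate (D i)) ^ 2 ≤ 10 ^ 12 * V := by
      calc diam (Gate (D i)) ^ 2 ≤ (10 ^ 6 * √V) ^ 2 := by
            gcongr
        _ = 10 ^ 12 * V := by rw [mul_pow, Real.sq_sqrt hV0]; norm_num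
    have hd0 : 0 ≤ diam (Sep (rt (D i))) := diam_nonneg
    set d : ℝ := diam (Gate (D i)) with hdd
    set R : ℝ := √(Λ * A) with hR
    calc diam (Sep (rt (D i))) ^ 2 ≤ (2 * (d + 60 * R)) ^ 2 := by gcongr
      _ ≤ 8 * d ^ 2 + 28800 * R ^ 2 := by nlinarith [sq_nonneg (d - 60 * R)]
      _ ≤ 8 * (10 ^ 12 * V) + 28800 * (140000000000 * (N : ℝ) ^ 9 * A) := by
          rw [hR2]; gcongr
      _ = _ := by ring
  have hN39 : (N : ℝ) ^ 3 ≤ (N : ℝ) ^ 9 := by
    rcases Nat.eq_zero_or_pos N with h0 | h0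
    · rw [h0]; norm_num
    · have h1 : (1 : ℝ) ≤ N := by exact_mod_cast h0
      exact pow_le_pow_right₀ h1 (by norm_num)
  calc ∑ i ∈ F, diam (Sep (rt (D i))) ^ 2
      ≤ ∑ i ∈ F, (8 * 10 ^ 12 * (volume (Half (D i))).toReal +
        28800 * (140000000000 * (N : ℝ) ^ 9) * area (D i).tm (D i).tp) :=
        Finset.sum_le_sum hone
    _ = 8 * 10 ^ 12 * ∑ i ∈ F, (volume (Half (D i))).toReal +
        28800 * (140000000000 * (N : ℝ) ^ 9) * ∑ i ∈ F, area (D i).tm (D i).tp := by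
        rw [Finset.sum_add_distrib, Finset.mul_sum, Finset.mul_sum]
    _ ≤ 8 * 10 ^ 12 * (315 * (N : ℝ) ^ 3) +
        28800 * (140000000000 * (N : ℝ) ^ 9) * 10 ^ 4 := by gcongr
    _ ≤ 8 * 10 ^ 12 * (315 * (N : ℝ) ^ 9) +
        28800 * (140000000000 * (N : ℝ) ^ 9) * 10 ^ 4 := by gcongr
    _ ≤ 10 ^ 20 * (N : ℝ) ^ 9 := by
        have : 0 ≤ (N : ℝ) ^ 9 := by positivity
        nlinarith

end Pool.Agent.Work.MLC.Cnt
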