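import Pool.Agent.Work.MLC.CntQ26
import Pool.Agent.Work.MLC.CntE60
import Pool.Agent.Work.MLC.CntH26

set_option autoImplicit false

/-! # Theorem Q, module T: the region between two rays (helper60) -/

namespace Pool.Agent.Work.MLC.Cnt

open Filter Topology Metric Set Complex MeasureTheory
open Pool.Agent.Work.MLC.Sat

namespace T60

/-! ### the projection lemma for two points -/

/-- A preconnected set that meets `Q` and its complement meets the frontier of `Q`. -/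
theorem inter_frontier {X : Type*} [TopologicalSpace X] {s Q : Set X} (hs : IsPreconnected s)
    (h1 : (s ∩ Q).Nonempty) (h2 : (s ∩ Qᶜ).Nonempty) : (s ∩ frontier Q).Nonempty := by
  by_contra h
  rw [not_nonempty_iff_eq_empty] at h
  have hsub : s ⊆ interior Q ∪ interior Qᶜ := by
    intro x hx
    by_contra hx'
    rw [mem_union, not_or] at hx'
    have : x ∈ s ∩ frontier Q := by
      refine ⟨hx, ?_⟩
      rw [frontier_eq_closure_inter_closure]
      refine ⟨?_, ?_⟩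
      · rw [closure_eq_compl_interior_compl]; exact hx'.2
      · rw [closure_compl]; exact hx'.1
    rw [h] at this
    exact this
  obtain ⟨a, has, haQ⟩ := h1
  obtain ⟨b, hbs, hbQ⟩ := h2
  have ha : a ∈ interior Q := by
    rcases hsub has with h' | h'
    · exact h'
    · exact absurd haQ (interior_subset h')
  have hb : b ∈ interior Qᶜ := by
    rcases hsub hbs with h' | h'
    · exact absurd (interior_subset h') hbQ
    · exact h'
  obtain ⟨x, -, hx1, hx2⟩ := hs (interior Q) (interior Qᶜ) isOpen_interior isOpen_interior hsub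
    ⟨a, has, ha⟩ ⟨b, hbs, hb⟩
  exact (interior_subset hx2) (interior_subset hx1)

/-- **projection lemma for two points** -/
theorem proj {Q K : Set ℂ} {ι : Type} {F : Finset ι} {P : ι → Set ℂ}
    (hQb : Bornology.IsBounded Q) (hK : IsPreconnected K) (hKQ : K ⊆ Q ∪ ⋃ i ∈ F, P i)
    (hPb : ∀ i ∈ F, Bornology.IsBounded (P i)) (hfr : frontier Q ⊆ ⋃ i ∈ F, P i) {z r : ℂ}
    (hz : z ∈ K) (hrK : r ∈ K) : dist z r ≤ ∑ i ∈ F, diam (P i) := by
  have hnn : 0 ≤ ∑ i ∈ F, diam (P i) := Finset.sum_nonneg fun i _ => diam_nonneg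
  rcases eq_or_ne z r with h | hzr
  · rw [h, dist_self]; exact hnn
  -- the projection
  set d : ℝ := ‖z - r‖ with hd
  have hd0 : 0 < d := norm_pos_iff.2 (sub_ne_zero.2 hzr)
  set v : ℂ := (z - r) / d with hv
  have hvn : ‖v‖ = 1 := by
    rw [hv, norm_div, Complex.norm_real, Real.norm_of_nonneg hd0.le, ← hd, div_self hd0.ne']
  let π : ℂ → ℝ := fun u => ((starRingEnd ℂ) v * u).re
  have hπc : Continuous π := by
    apply Complex.continuous_re.comp
    exact continuous_const.mul continuous_id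
  have hπl : ∀ u w, |π u - π w| ≤ dist u w := by
    intro u w
    have : π u - π w = ((starRingEnd ℂ) v * (u - w)).re := by
      simp only [π, ← Complex.sub_re]; congr 1; ring
    rw [this]
    calc |((starRingEnd ℂ) v * (u - w)).re| ≤ ‖(starRingEnd ℂ) v * (u - w)‖ :=
          Complex.abs_re_le_norm _
      _ = dist u w := by
          rw [norm_mul, RCLike.norm_conj, hvn, one_mul, dist_eq_norm]
  have hLip : LipschitzWith 1 π := LipschitzWith.of_dist_le_mul fun u w => by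
    rw [Real.dist_eq, NNReal.coe_one, one_mul]; exact hπl u w
  have hπz : π z - π r = d := by
    have h1 : π z - π r = ((starRingEnd ℂ) v * (z - r)).re := by
      simp only [π, ← Complex.sub_re]; congr 1; ring
    have h2 : z - r = v * d := by
      rw [hv, div_mul_cancel₀ _ (Complex.ofReal_ne_zero.2 hd0.ne')]
    rw [h1, h2, ← mul_assoc, ← Complex.normSq_eq_conj_mul_self, Complex.normSq_eq_norm_sq, hvn]
    simp
  -- every intermediate value is taken on the cover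
  have key : Ioo (π r) (π z) ⊆ ⋃ i ∈ F, π '' (P i) := by
    intro t ht
    obtain ⟨u, huK, hut⟩ : t ∈ π '' K := by
      have := hK.intermediate_value hrK hz hπc.continuousOn
      exact this ⟨ht.1.le, ht.2.le⟩
    rcases hKQ huK with huQ | huP
    swap
    · rw [mem_iUnion₂] at huP ⊢
      obtain ⟨i, hi, hui⟩ := huP
      exact ⟨i, hi, u, hui, hut⟩
    -- the line
    let ℓ : ℝ → ℂ := fun s => u + (s : ℂ) * (I * v)
    have hℓc : Continuous ℓ := by
      apply continuous_const.add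
      exact (Complex.continuous_ofReal).mul continuous_const
    have hℓπ : ∀ s, π (ℓ s) = t := by
      intro s
      have : (starRingEnd ℂ) v * ℓ s = (starRingEnd ℂ) v * u + ((s : ℂ) * I) *
          ((starRingEnd ℂ) v * v) := by simp only [ℓ]; ring
      have h2 : (starRingEnd ℂ) v * v = 1 := by
        rw [← Complex.normSq_eq_conj_mul_self, Complex.normSq_eq_norm_sq, hvn]; simp
      simp only [π] at hut ⊢
      rw [this, h2, mul_one, Complex.add_re, hut]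
      simp
    have hconn : IsPreconnected (range ℓ) := isPreconnected_range hℓc
    have h1 : (range ℓ ∩ Q).Nonempty := ⟨u, ⟨0, by simp [ℓ]⟩, huQ⟩
    have h2 : (range ℓ ∩ Qᶜ).Nonempty := by
      obtain ⟨R, hR⟩ := hQb.subset_closedBall 0
      refine ⟨ℓ (‖u‖ + |R| + 1), ⟨_, rfl⟩, fun hmem => ?_⟩
      have h3 := hR hmem
      rw [mem_closedBall, dist_zero_right] at h3
      have h4 : ‖((‖u‖ + |R| + 1 : ℝ) : ℂ) * (I * v)‖ = ‖u‖ + |R| + 1 := by
        rw [norm_mul, norm_mul, Complex.norm_I, hvn, Complex.norm_real, Real.norm_of_nonneg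
          (by positivity)]; ring
      have h5 : ‖((‖u‖ + |R| + 1 : ℝ) : ℂ) * (I * v)‖ ≤ ‖ℓ (‖u‖ + |R| + 1)‖ + ‖u‖ := by
        have : ((‖u‖ + |R| + 1 : ℝ) : ℂ) * (I * v) = ℓ (‖u‖ + |R| + 1) - u := by
          simp only [ℓ]; ring
        rw [this]; exact norm_sub_le _ _
      have := le_abs_self R
      rw [h4] at h5
      linarith
    obtain ⟨w, ⟨s, hs⟩, hw⟩ := inter_frontier hconn h1 h2
    have hwt : π w = t := by rw [← hs]; exact hℓπ s
    have hw' := hfr hw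
    rw [mem_iUnion₂] at hw' ⊢
    obtain ⟨i, hi, hwi⟩ := hw'
    exact ⟨i, hi, w, hwi, hwt⟩
  -- measure
  have hvol : ENNReal.ofReal d ≤ ∑ i ∈ F, ENNReal.ofReal (diam (P i)) := by
    calc ENNReal.ofReal d = volume (Ioo (π r) (π z)) := by rw [Real.volume_Ioo, hπz]
      _ ≤ volume (⋃ i ∈ F, π '' (P i)) := measure_mono key
      _ ≤ ∑ i ∈ F, volume (π '' (P i)) := measure_biUnion_finset_le _ _
      _ ≤ ∑ i ∈ F, ENNReal.ofReal (diam (P i)) := by
          refine Finset.sum_le_sum fun i hi => ?_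
          calc volume (π '' (P i)) ≤ ediam (π '' (P i)) := Real.volume_le_diam _
            _ ≤ ediam (P i) := by
                have := hLip.ediam_image_le (P i)
                simpa using this
            _ = ENNReal.ofReal (diam (P i)) := by
                rw [diam, ENNReal.ofReal_toReal]
                exact (hPb i hi).ediam_ne_top
  rw [← ENNReal.ofReal_sum_of_nonneg (fun i _ => diam_nonneg)] at hvol
  rw [dist_eq_norm]
  exact (ENNReal.ofReal_le_ofReal_iff hnn).1 hvol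

/-! ### the exterior part -/

/-- the exterior part of the region -/
def Ext (s t h : ℝ) : Set ℂ :=
  cOf '' {z | 0 < z.re ∧ z.re < h ∧ 2 * Real.pi * s < z.im ∧ z.im < 2 * Real.pi * t}

lemma isOpen_Ext (s t h : ℝ) : IsOpen (Ext s t h) := by
  refine CH.isOpen_image ?_ fun z hz => hz.1
  exact (isOpen_lt continuous_const continuous_re).inter
    ((isOpen_lt continuous_re continuous_const).inter
    ((isOpen_lt continuous_const continuous_im).inter (isOpen_lt continuous_im continuous_const)))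

/-- an exterior point with an angle in the arc and small potential -/
lemma mem_Ext {s t h : ℝ} {c : ℂ} {θ : ℝ} (hθ : Ang c θ) (hh : G c c < h) {k : ℤ}
    (h1 : s < θ + k) (h2 : θ + k < t) : c ∈ Ext s t h := by
  have hpi := Real.two_pi_pos
  refine ⟨(G c c : ℂ) + 2 * Real.pi * ((θ + k : ℝ) : ℂ) * I, ⟨?_, ?_, ?_, ?_⟩, ?_⟩
  · rw [CH.re_pt]; exact hθ.1
  · rw [CH.re_pt]; exact hh
  · rw [CH.im_pt]; exact mul_lt_mul_of_pos_left h1 hpi
  · rw [CH.im_pt]; exact mul_lt_mul_of_pos_left h2 hpi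
  · rw [CH.cOf_shift]; exact (CH.eq_cOf hθ).symm

lemma ang_Ext {s t h : ℝ} {c : ℂ} (hc : c ∈ Ext s t h) : ∃ θ, Ang c θ ∧ s < θ ∧ θ < t := by
  obtain ⟨w, hw, rfl⟩ := hc
  refine ⟨w.im / (2 * Real.pi), CH.ang_of hw.1, ?_, ?_⟩
  · rw [lt_div_iff₀ Real.two_pi_pos]; linarith [hw.2.2.1]
  · rw [div_lt_iff₀ Real.two_pi_pos]; linarith [hw.2.2.2]

/-- the exterior part of the frontier -/
lemma frontier_Ext {s t h : ℝ} {z : ℂ} (hM : z ∉ MM) (hz : z ∈ closure (Ext s t h))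
    (hn : z ∉ Ext s t h) :
    (∃ u : ℝ, 0 < u ∧ u ≤ h ∧ (z = cOf ((u : ℂ) + 2 * Real.pi * s * I) ∨
      z = cOf ((u : ℂ) + 2 * Real.pi * t * I))) ∨ z ∈ RoofH h s t := by
  have hzG : 0 < G z z := mem_Mc_iff.2 hM
  set S : Set ℂ := Icc (G z z / 2) h ×ℂ Icc (2 * Real.pi * s) (2 * Real.pi * t) with hS
  have hSc : IsCompact S := isCompact_Icc.reProdIm isCompact_Icc
  have hSpos : ∀ w ∈ S, 0 < w.re := fun w hw => by
    have h' : G z z / 2 ≤ w.re := hw.1.1
    linarith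
  have hcl : IsClosed (cOf '' S) :=
    (hSc.image_of_continuousOn (continuousOn_cOf.mono hSpos)).isClosed
  have hU : {c : ℂ | G z z / 2 < G c c} ∈ 𝓝 z :=
    (isOpen_lt continuous_const continuous_G_diag).mem_nhds (by
      show G z z / 2 < G z z
      linarith)
  have h3 : z ∈ closure ({c : ℂ | G z z / 2 < G c c} ∩ Ext s t h) :=
    mem_closure_iff_nhds.2 fun N ht => by
      obtain ⟨y, hy1, hy2⟩ := mem_closure_iff_nhds.1 hz _ (inter_mem ht hU)
      exact ⟨y, hy1.1, hy1.2, hy2⟩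
  have h4 : z ∈ cOf '' S := by
    refine hcl.closure_subset_iff.2 ?_ h3
    rintro c ⟨hc1, w, hw, rfl⟩
    refine ⟨w, ⟨⟨?_, hw.2.1.le⟩, ⟨hw.2.2.1.le, hw.2.2.2.le⟩⟩, rfl⟩
    have : G z z / 2 < G (cOf w) (cOf w) := hc1
    rw [G_cOf hw.1] at this
    exact this.le
  obtain ⟨w, hw, hwz⟩ := h4
  have hw0 := hSpos w hw
  obtain ⟨⟨hr1, hr2⟩, hi1, hi2⟩ := hw
  rcases hi1.eq_or_lt with h6 | h6
  · exact Or.inl ⟨w.re, hw0, hr2, Or.inl (by rw [← hwz]; exact congrArg cOf (CH.pt_of h6.symm))⟩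
  rcases hi2.eq_or_lt with h7 | h7
  · exact Or.inl ⟨w.re, hw0, hr2, Or.inr (by rw [← hwz]; exact congrArg cOf (CH.pt_of h7))⟩
  rcases hr2.eq_or_lt with h8 | h8
  · right
    refine ⟨w.im / (2 * Real.pi), ⟨?_, ?_⟩, ?_⟩
    · rw [le_div_iff₀ Real.two_pi_pos]; linarith
    · rw [div_le_iff₀ Real.two_pi_pos]; linarith
    · have h9 : w.im = 2 * Real.pi * (w.im / (2 * Real.pi)) := by field_simp
      have h10 := CH.pt_of h9
      show cOf ((h : ℂ) + 2 * Real.pi * ((w.im / (2 * Real.pi) : ℝ) : ℂ) * I) = z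
      rw [← hwz, ← h8, ← h10]
  · exact absurd ⟨w, ⟨hw0, h8, h6, h7⟩, hwz⟩ hn

/-! ### limits of exterior points -/

variable {W : WS}

lemma axis_mem_D0 {m : ℕ} {ν : ℝ} (hm : 0 < m) (h0 : 0 < ν) (h1 : ν < 1) :
    (2 * Real.pi * ν * I : ℂ) ∈ Pri.D0 m := by
  have hpi := Real.pi_pos
  have him : (2 * Real.pi * ν * I : ℂ).im = 2 * Real.pi * ν := by simp
  have hre : (2 * Real.pi * ν * I : ℂ).re = 0 := by simp
  have hm0 : (0 : ℝ) < m := by exact_mod_cast hm
  refine ⟨?_, ?_, ?_⟩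
  · rw [him]; positivity
  · rw [him]; nlinarith
  · rw [him, hre]
    have := Pri.mu_pos (y := 2 * Real.pi * ν) (by positivity) (by nlinarith)
    unfold Pri.hgt
    positivity

/-- **limits of the exterior part**: in a limb or on the axis -/
theorem limit_Ext (hW : W.Ok) {x₁ x₂ : ℚ} (h0 : 0 < x₁) (h12 : x₁ < x₂) (h1 : x₂ < 1) {hh : ℝ}
    {z : ℂ} (hM : z ∈ MM) (hz : z ∈ closure (Ext (W.dat x₁).tm (W.dat x₂).tp hh)) :
    (∃ y : ℚ, x₁ ≤ y ∧ y ≤ x₂ ∧ z ∈ Lm (W.dat y)) ∨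
      ∃ y : ℝ, (x₁ : ℝ) ≤ y ∧ y ≤ x₂ ∧ z = W.c (2 * Real.pi * y * I) := by
  have hV := hW.wide
  have hm := hV.pos
  have hm0 : (0 : ℝ) < W.m := by exact_mod_cast hm
  have hx₁0 : (0 : ℝ) < x₁ := by exact_mod_cast h0
  have hx₂1 : (x₂ : ℝ) < 1 := by exact_mod_cast h1
  have hM0 : G z 0 = 0 := G_zero_of_mem hM
  set s : ℝ := (W.dat x₁).tm with hs
  set t' : ℝ := (W.dat x₂).tp with ht'
  have hνs : W.nu s = x₁ := (WS.plateau hW h0 (h12.trans h1) s).2
    ⟨le_rfl, (WS.dat_cir hW h0 (h12.trans h1)).lt.le⟩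
  have hνt : W.nu t' = x₂ := (WS.plateau hW (h0.trans h12) h1 t').2
    ⟨(WS.dat_cir hW (h0.trans h12) h1).lt.le, le_rfl⟩
  set T : Set (ℂ × (ℂ × ℝ)) := {p | p.1 ∈ ball z 1 ∧ ExtP W.m p.1 p.2.1 p.2.2 W.w ∧
    s ≤ p.2.2 ∧ p.2.2 ≤ t'} with hT
  have hTb : Bornology.IsBounded T := by
    refine ((isBounded_closedBall (x := (0 : ℂ)) (r := ‖z‖ + 1)).prod
      ((isBounded_closedBall (x := (0 : ℂ)) (r := ‖z‖ + 2)).prod
        (isBounded_Icc s t'))).subset ?_
    rintro ⟨c', b', θ'⟩ ⟨h2, h3, h4, h5⟩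
    have h6 : ‖c'‖ ≤ ‖z‖ + 1 := by
      have h7 : ‖c' - z‖ < 1 := by rw [← dist_eq_norm]; exact h2
      have h8 : ‖c'‖ ≤ ‖z‖ + ‖c' - z‖ := by
        have : c' = z + (c' - z) := by ring
        calc ‖c'‖ = ‖z + (c' - z)‖ := by rw [← this]
          _ ≤ _ := norm_add_le _ _
      linarith
    have h7 := norm_le_of_per hm h3.2.2.1
    exact ⟨mem_closedBall_zero_iff.2 h6, mem_closedBall_zero_iff.2 (by
      show ‖b'‖ ≤ _
      linarith), h4, h5⟩
  have h2 : z ∈ closure (Prod.fst '' T) := by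
    rw [mem_closure_iff_frequently] at hz ⊢
    refine (hz.and_eventually (ball_mem_nhds z one_pos)).mono ?_
    rintro c' ⟨h3, h4⟩
    obtain ⟨θ, h5, h6, h7⟩ := ang_Ext h3
    obtain ⟨b, hb⟩ := exists_extP hm h5 hV.bits
    exact ⟨(c', b, θ), ⟨h4, hb, h6.le, h7.le⟩, rfl⟩
  obtain ⟨⟨b, θ⟩, hbθ⟩ := fst_closure hTb h2
  have hNe : (𝓝[T] ((z, b, θ) : ℂ × (ℂ × ℝ))).NeBot := mem_closure_iff_nhdsWithin_neBot.1 hbθ
  set F := 𝓝[T] ((z, b, θ) : ℂ × (ℂ × ℝ)) with hF
  have hFT : ∀ᶠ p in F, p ∈ T := self_mem_nhdsWithin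
  have hle : F ≤ 𝓝 (z, b, θ) := nhdsWithin_le_nhds
  have t1 : Tendsto (fun p : ℂ × (ℂ × ℝ) => p.1) F (𝓝 z) := (continuous_fst.tendsto _).mono_left hle
  have t2 : Tendsto (fun p : ℂ × (ℂ × ℝ) => ((p.1, p.2.1) : ℂ × ℂ)) F (𝓝 (z, b)) :=
    ((continuous_fst.prodMk (continuous_fst.comp continuous_snd)).tendsto _).mono_left hle
  have t3 : Tendsto (fun p : ℂ × (ℂ × ℝ) => p.2.2) F (𝓝 θ) :=
    ((continuous_snd.comp continuous_snd).tendsto _).mono_left hle
  have hνc : Continuous W.nu := by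
    unfold WS.nu
    exact (Circ.nu_continuous W.w W.m).sub continuous_const
  have t4 : Tendsto (fun p : ℂ × (ℂ × ℝ) => W.nu p.2.2) F (𝓝 (W.nu θ)) :=
    (hνc.tendsto θ).comp t3
  have t5 : Tendsto (fun p : ℂ × (ℂ × ℝ) => ‖mul W.m (p.1, p.2.1)‖) F (𝓝 ‖mul W.m (z, b)‖) :=
    ((continuous_mul' W.m).norm.tendsto (z, b)).comp t2
  have hθ1 : s ≤ θ := ge_of_tendsto t3 (hFT.mono fun p hp => hp.2.2.1)
  have hθ2 : θ ≤ t' := le_of_tendsto t3 (hFT.mono fun p hp => hp.2.2.2)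
  have hν1 : (x₁ : ℝ) ≤ W.nu θ := by rw [← hνs]; exact WS.nu_mono W hθ1
  have hν2 : W.nu θ ≤ x₂ := by rw [← hνt]; exact WS.nu_mono W hθ2
  have hper : (z, b) ∈ Per W.m :=
    (isClosed_Per W.m).mem_of_tendsto t2 (hFT.mono fun p hp => hp.2.1.2.2.1)
  have hnorm : ∀ᶠ p in F, 1 < ‖mul W.m (p.1, p.2.1)‖ := hFT.mono fun p hp =>
    one_lt_norm_mult_of_ext hm hp.2.1.1 hp.2.1.2.2.1
  have hnorm0 : 1 ≤ ‖mul W.m (z, b)‖ := ge_of_tendsto t5 (hnorm.mono fun p hp => hp.le)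
  rcases hnorm0.eq_or_lt with hρ | hρ
  · -- the neutral case
    right
    refine ⟨W.nu θ, hν1, hν2, ?_⟩
    set ν₀ : ℝ := W.nu θ with hν₀
    set L₀ : ℂ := 2 * Real.pi * ν₀ * I with hL₀
    have hL₀D : L₀ ∈ Pri.D0 W.m := axis_mem_D0 hm (by linarith) (by linarith)
    have hcont : ContinuousAt W.c L₀ :=
      continuous_fst.continuousAt.comp (hV.cont.continuousAt ((Pri.isOpen_D0 W.m).mem_nhds hL₀D))
    have hG4 : ∀ᶠ p in F, G p.1 p.1 ≤ 4 := by
      have h3 : ∀ᶠ c' in 𝓝 z, G c' c' < 4 := by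
        refine continuous_G_diag.continuousAt.eventually_lt_const ?_
        show G z z < 4
        rw [mem_M_iff'.1 hM]; norm_num
      exact (t1.eventually h3).mono fun p hp => hp.le
    refine eq_of_forall_dist_le fun δ hδ => ?_
    obtain ⟨ε, hε, hεc⟩ := Metric.continuousAt_iff.1 hcont δ hδ
    obtain ⟨ε', hε', hεD⟩ := Metric.isOpen_iff.1 (Pri.isOpen_D0 W.m) L₀ hL₀D
    set η : ℝ := min ε ε' / 2 with hη
    have hη0 : 0 < η := by rw [hη]; have := lt_min hε hε'; positivity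
    have e1 : ∀ᶠ p in F, ‖mul W.m (p.1, p.2.1)‖ < Real.exp (η ^ 2 / (81 * W.m)) := by
      refine t5.eventually_lt_const ?_
      rw [← hρ, Real.one_lt_exp_iff]
      positivity
    have e2 : ∀ᶠ p in F, dist (W.nu p.2.2) ν₀ < η / (2 * Real.pi) :=
      t4.eventually (ball_mem_nhds _ (by have := Real.pi_pos; positivity))
    have e3 : ∀ᶠ p in F, dist p.1 (W.c L₀) ≤ δ := by
      filter_upwards [hFT, hG4, e1, e2, hnorm] with p hp h4 h5 h6 h7
      obtain ⟨-, hE, h8, h9⟩ := hp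
      obtain ⟨-, ℓ, hℓ, hply⟩ := extP_ply hm hE h4
      set L : ℂ := ℓ - W.k * (2 * Real.pi * I) with hL
      have hexp : exp L = mul W.m (p.1, p.2.1) := by
        rw [hL, Complex.exp_sub, Complex.exp_int_mul_two_pi_mul_I, div_one, hℓ]
        rfl
      have hre : L.re = ℓ.re := by rw [hL]; simp
      have hply' : ‖L - 2 * Real.pi * (W.nu p.2.2 : ℝ) * I‖ ^ 2 ≤ 81 * W.m * L.re := by
        have h10 : L - 2 * Real.pi * (W.nu p.2.2 : ℝ) * I =
            ℓ - 2 * Real.pi * (Circ.nu W.w W.m p.2.2 : ℝ) * I := by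
          rw [hL]; unfold WS.nu; push_cast; ring
        rw [h10, hre]; exact hply
      have hLre : 0 < L.re := by
        rw [← hexp, Complex.norm_exp, Real.one_lt_exp_iff] at h7
        exact h7
      rw [← hexp, Complex.norm_exp, Real.exp_lt_exp, lt_div_iff₀ (by positivity)] at h5
      have h11 : ‖L - 2 * Real.pi * (W.nu p.2.2 : ℝ) * I‖ < η :=
        lt_of_pow_lt_pow_left₀ 2 hη0.le (by linarith)
      have h12' : ‖(2 * Real.pi * (W.nu p.2.2 : ℝ) * I : ℂ) - L₀‖ < η := by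
        have h13 : (2 * Real.pi * (W.nu p.2.2 : ℝ) * I : ℂ) - L₀ =
            ((2 * Real.pi * (W.nu p.2.2 - ν₀) : ℝ) : ℂ) * I := by
          rw [hL₀]; push_cast; ring
        have hpi := Real.two_pi_pos
        rw [h13, norm_mul, norm_I, mul_one, norm_real, Real.norm_eq_abs, abs_mul,
          abs_of_pos hpi]
        rw [Real.dist_eq, lt_div_iff₀ hpi] at h6
        linarith
      have h13 : dist L L₀ < min ε ε' := by
        rw [dist_eq_norm]
        have h14 : L - L₀ = (L - 2 * Real.pi * (W.nu p.2.2 : ℝ) * I) +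
            ((2 * Real.pi * (W.nu p.2.2 : ℝ) * I : ℂ) - L₀) := by ring
        rw [h14]
        refine (norm_add_le _ _).trans_lt ?_
        have : η + η = min ε ε' := by rw [hη]; ring
        linarith
      have hLD : L ∈ Pri.D0 W.m := hεD (h13.trans_le (min_le_right _ _))
      have hk1 : (x₁ : ℝ) ≤ W.nu p.2.2 := by rw [← hνs]; exact WS.nu_mono W h8
      have hk2 : W.nu p.2.2 ≤ x₂ := by rw [← hνt]; exact WS.nu_mono W h9
      have hFF : FF W.m (p.1, p.2.1) = FF W.m (W.σ L) := by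
        rw [(hV.lab L hLD hLre).2 p.2.2 (by unfold WS.nu at hk1; linarith)
          (by unfold WS.nu at hk2; linarith)]
        exact FF_ext (x := (p.1, p.2.1)) hE
      have heq := hV.uniq L hLD hLre (p.1, p.2.1) hE.2.2.1 hexp.symm hFF
      have h15 : p.1 = W.c L := by
        show p.1 = (W.σ L).1
        rw [← heq]
      rw [h15]
      exact (hεc (h13.trans_le (min_le_left _ _))).le
    exact le_of_tendsto (t1.dist tendsto_const_nhds) e3
  · -- the repelling case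
    have hρ' : 1 < ‖mult W.m z b‖ := hρ
    have hρ0 : mult W.m z b ≠ 0 := by
      intro h3
      rw [h3, norm_zero] at hρ'
      linarith
    obtain ⟨β, q, p', hq, hland, -, -, -⟩ := Tr.exists_land_rot (Pool.Agent.Work.MLC.lin_Lz hm hper hρ') hM0
      (Complex.exp_log hρ0)
    have hq0 : (0 : ℝ) < q := by exact_mod_cast hq
    have e1 : ∀ᶠ p in F, ∃ P : ℤ, Circ.nu W.w W.m p.2.2 = P / q := by
      filter_upwards [hFT, t2.eventually (land_nhds hm hM0 hper hρ' hland)] with p hp h3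
      obtain ⟨P, -, hP⟩ := nu_of_compat hland.1 hp.2.1.2.2.2.1.per
        ((h3 hp.2.1.2.2.1).2 p.2.2 W.w hp.2.1.1 hp.2.1.2.1 hp.2.1.2.2.2.2)
      exact ⟨P, hP⟩
    have t6 : Tendsto (fun p : ℂ × (ℂ × ℝ) => Circ.nu W.w W.m p.2.2) F
        (𝓝 (Circ.nu W.w W.m θ)) := ((Circ.nu_continuous W.w W.m).tendsto θ).comp t3
    obtain ⟨P₀, hP₀⟩ : Circ.nu W.w W.m θ ∈ {x : ℝ | ∃ P : ℤ, x = P / q} :=
      (Pri.isClosed_rat hq).mem_of_tendsto t6 e1
    have e2 : ∀ᶠ p in F, Circ.nu W.w W.m p.2.2 = Circ.nu W.w W.m θ := by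
      filter_upwards [e1, t6.eventually (ball_mem_nhds _ (show (0 : ℝ) < 1 / q by positivity))]
        with p h3 h4
      obtain ⟨P, hP⟩ := h3
      rw [hP, hP₀, Real.dist_eq, ← sub_div, abs_div, abs_of_pos hq0,
        div_lt_div_iff_of_pos_right hq0] at h4
      have h5 : |P - P₀| < 1 := by exact_mod_cast h4
      have h6 : P = P₀ := by
        have := Int.abs_lt_one_iff.1 h5
        omega
      rw [hP, hP₀, h6]
    set y : ℚ := (P₀ : ℚ) / q - W.k with hy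
    have hyν : W.nu θ = y := by
      unfold WS.nu
      rw [hP₀, hy]
      push_cast
      ring
    have hy1 : x₁ ≤ y := by rw [hyν] at hν1; exact_mod_cast hν1
    have hy2 : y ≤ x₂ := by rw [hyν] at hν2; exact_mod_cast hν2
    have hy0 : 0 < y := h0.trans_le hy1
    have hyl : y < 1 := hy2.trans_lt h1
    have hcl : z ∈ closure (Lm (W.dat y) ∪
        {c' | ∃ θ, Ang c' θ ∧ (W.dat y).tm ≤ θ ∧ θ ≤ (W.dat y).tp}) := by
      refine mem_closure_of_tendsto t1 ?_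
      filter_upwards [hFT, e2] with p hp h3
      right
      have h4 : W.nu p.2.2 = y := by
        rw [← hyν]; unfold WS.nu; rw [h3]
      obtain ⟨h5, h6⟩ := (WS.plateau hW hy0 hyl _).1 h4
      exact ⟨p.2.2, hp.2.1.ang, h5, h6⟩
    rcases n5_closed _ (WS.dat_par hW hy0 hyl) (WS.dat_cir hW hy0 hyl) z hM hcl with h3 | h3
    · exact Or.inl ⟨y, hy1, hy2, h3⟩
    · right
      refine ⟨y, by exact_mod_cast hy1, by exact_mod_cast hy2, ?_⟩
      rw [h3, rt, WS.dat_c hW hy0 hyl, WS.dat_a hW hy0 hyl, axisPt_eq]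

/-! ### the region -/

/-- the region -/
def Reg (W : WS) (x₁ x₂ : ℚ) (h : ℝ) : Set ℂ :=
  Ext (W.dat x₁).tm (W.dat x₂).tp h ∪ {c | ∃ y : ℚ, x₁ ≤ y ∧ y ≤ x₂ ∧ c ∈ Lm (W.dat y)}

/-- the plateaus are ordered -/
lemma ends (hW : W.Ok) {x₁ x₂ y : ℚ} (h0 : 0 < x₁) (h1 : x₂ < 1) (hy1 : x₁ ≤ y) (hy2 : y ≤ x₂) :
    (W.dat x₁).tm ≤ (W.dat y).tm ∧ (W.dat y).tp ≤ (W.dat x₂).tp := by
  have hx1 : x₁ < 1 := (hy1.trans hy2).trans_lt h1
  have hx2 : 0 < x₂ := h0.trans_le (hy1.trans hy2)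
  have hy0 : 0 < y := h0.trans_le hy1
  have hyl : y < 1 := hy2.trans_lt h1
  have a1 := (WS.plateau hW h0 hx1 (W.dat x₁).tm).2 ⟨le_rfl, (WS.dat_cir hW h0 hx1).lt.le⟩
  have a2 := (WS.plateau hW hx2 h1 (W.dat x₂).tp).2 ⟨(WS.dat_cir hW hx2 h1).lt.le, le_rfl⟩
  have a3 := (WS.plateau hW hy0 hyl (W.dat y).tm).2 ⟨le_rfl, (WS.dat_cir hW hy0 hyl).lt.le⟩
  have a4 := (WS.plateau hW hy0 hyl (W.dat y).tp).2 ⟨(WS.dat_cir hW hy0 hyl).lt.le, le_rfl⟩
  constructor
  · rcases hy1.eq_or_lt with h | h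
    · rw [h]
    · by_contra hcon
      push Not at hcon
      have h2 := WS.nu_mono W hcon.le
      rw [a1, a3] at h2
      have h3 : y ≤ x₁ := by exact_mod_cast h2
      exact absurd h (not_lt.2 h3)
  · rcases hy2.eq_or_lt with h | h
    · rw [h]
    · by_contra hcon
      push Not at hcon
      have h2 := WS.nu_mono W hcon.le
      rw [a2, a4] at h2
      have h3 : x₂ ≤ y := by exact_mod_cast h2
      exact absurd h (not_lt.2 h3)

/-- near a point of a limb -/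
lemma near_Lm (hW : W.Ok) {x₁ x₂ y : ℚ} (h0 : 0 < x₁) (h1 : x₂ < 1) (hy1 : x₁ ≤ y) (hy2 : y ≤ x₂)
    {h : ℝ} (hh : 0 < h) {c : ℂ} (hc : c ∈ Lm (W.dat y)) :
    ∀ᶠ c' in 𝓝 c, c' ∈ Lm (W.dat y) ∪ Ext (W.dat x₁).tm (W.dat x₂).tp h := by
  have hy0 : 0 < y := h0.trans_le hy1
  have hyl : y < 1 := hy2.trans_lt h1
  have hcM : c ∈ MM := hc.1
  have hG : ∀ᶠ c' in 𝓝 c, G c' c' < h := by
    refine (continuous_G_diag.tendsto c).eventually (eventually_lt_nhds ?_)
    rw [mem_M_iff'.1 hcM]; exact hh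
  obtain ⟨e1, e2⟩ := ends hW h0 h1 hy1 hy2
  filter_upwards [n5_open _ (WS.dat_par hW hy0 hyl) (WS.dat_cir hW hy0 hyl) c hc, hG] with c' h2 h3
  by_cases hM : c' ∈ MM
  · exact Or.inl (h2.1 hM)
  · right
    obtain ⟨θ, hθ⟩ := exists_ang (mem_Mc_iff.2 hM)
    obtain ⟨k, hk1, hk2⟩ := h2.2 θ hθ
    exact mem_Ext hθ h3 (e1.trans_lt hk1) (hk2.trans_le e2)

lemma isOpen_Reg (hW : W.Ok) {x₁ x₂ : ℚ} (h0 : 0 < x₁) (h1 : x₂ < 1) {h : ℝ} (hh : 0 < h) :
    IsOpen (Reg W x₁ x₂ h) := by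
  rw [isOpen_iff_mem_nhds]
  rintro c (hc | ⟨y, hy1, hy2, hc⟩)
  · exact mem_of_superset ((isOpen_Ext _ _ _).mem_nhds hc) subset_union_left
  · filter_upwards [near_Lm hW h0 h1 hy1 hy2 hh hc] with c' h2
    rcases h2 with h2 | h2
    · exact Or.inr ⟨y, hy1, hy2, h2⟩
    · exact Or.inl h2

lemma bounded_Reg (W : WS) (x₁ x₂ : ℚ) (h : ℝ) : Bornology.IsBounded (Reg W x₁ x₂ h) := by
  refine isCompact_MM.isBounded.union ((isCompact_G_diag_le h).isBounded) |>.subset ?_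
  rintro c (⟨z, hz, rfl⟩ | ⟨y, -, -, hc⟩)
  · right
    show G (cOf z) (cOf z) ≤ _
    rw [G_cOf hz.1]; exact hz.2.1.le
  · exact Or.inl hc.1

/-- a point of `MM` in the closure of the region is a limit of the exterior part, or in a limb, or a
root -/
theorem limit_Reg (hW : W.Ok) {x₁ x₂ : ℚ} (h0 : 0 < x₁) (h1 : x₂ < 1) {h : ℝ} (hh : 0 < h)
    {z : ℂ} (hM : z ∈ MM) (hz : z ∈ closure (Reg W x₁ x₂ h)) :
    z ∈ closure (Ext (W.dat x₁).tm (W.dat x₂).tp h) ∨
      ∃ y : ℚ, x₁ ≤ y ∧ y ≤ x₂ ∧ (z ∈ Lm (W.dat y) ∨ z = rt (W.dat y)) := by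
  by_contra hcon
  push Not at hcon
  obtain ⟨hn1, hn2⟩ := hcon
  obtain ⟨r, hr, hball⟩ := Metric.isOpen_iff.1 isClosed_closure.isOpen_compl z hn1
  obtain ⟨c, hcb, hc⟩ := mem_closure_iff_nhds.1 hz _ (ball_mem_nhds z hr)
  rcases hc with hc | ⟨y, hy1, hy2, hc⟩
  · exact hball hcb (subset_closure hc)
  have hy0 : 0 < y := h0.trans_le hy1
  have hyl : y < 1 := hy2.trans_lt h1
  set D := W.dat y with hD
  have hP : D.Par := WS.dat_par hW hy0 hyl
  have hC : D.Cir := WS.dat_cir hW hy0 hyl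
  obtain ⟨hzL, hzr⟩ := hn2 y hy1 hy2
  -- the open set
  set V : Set ℂ := ball z r ∩ Lm D with hV
  have hVo : IsOpen V := by
    rw [isOpen_iff_mem_nhds]
    rintro u ⟨hu1, hu2⟩
    filter_upwards [near_Lm hW h0 h1 hy1 hy2 hh hu2, isOpen_ball.mem_nhds hu1] with u' h2 h3
    rcases h2 with h2 | h2
    · exact ⟨h3, h2⟩
    · exact absurd (subset_closure h2) (hball h3)
  have hfrV : ∀ u ∈ ball z r, u ∈ frontier V → u = rt D := by
    intro u hu hfr
    rw [frontier, hVo.interior_eq] at hfr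
    have h2 : u ∈ closure (Lm D) := closure_mono inter_subset_right hfr.1
    have h3 : u ∈ MM := closure_minimal (fun c hc => hc.1) isCompact_MM.isClosed h2
    rcases n5_closed D hP hC u h3 (closure_mono subset_union_left h2) with h4 | h4
    · exact absurd ⟨hu, h4⟩ hfr.2
    · exact h4
  have hzV : z ∉ closure V := by
    intro h2
    have h3 : z ∈ closure (Lm D) := closure_mono inter_subset_right h2
    rcases n5_closed D hP hC z hM (closure_mono subset_union_left h3) with h4 | h4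
    · exact hzL h4
    · exact hzr h4
  -- every segment from `V` to a point close to `z` contains the root
  have hseg : ∀ u ∈ V, ∀ v ∈ ball z r, v ∉ closure V → rt D ∈ segment ℝ u v := by
    intro u hu v hv hvV
    have hsub : segment ℝ u v ⊆ ball z r := (convex_ball z r).segment_subset hu.1 hv
    obtain ⟨w, hw1, hw2⟩ := inter_frontier (convex_segment (𝕜 := ℝ) u v).isPreconnected
      ⟨u, left_mem_segment ℝ u v, hu⟩
      ⟨v, right_mem_segment ℝ u v, fun h2 => hvV (subset_closure h2)⟩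
    rw [← hfrV w (hsub hw1) hw2]
    exact hw1
  have hcV : c ∈ V := ⟨hcb, hc⟩
  have hcz : c ≠ z := by
    rintro rfl
    exact hzV (subset_closure hcV)
  -- two parallel segments
  have e1 : ∀ᶠ ε : ℝ in 𝓝 0, c + (ε : ℂ) * (I * (c - z)) ∈ V := by
    have h2 : Continuous fun ε : ℝ => c + (ε : ℂ) * (I * (c - z)) := by fun_prop
    refine (h2.tendsto 0).eventually (hVo.mem_nhds ?_)
    simpa using hcV
  have e2 : ∀ᶠ ε : ℝ in 𝓝 0, z + (ε : ℂ) * (I * (c - z)) ∈ ball z r ∩ (closure V)ᶜ := by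
    have h2 : Continuous fun ε : ℝ => z + (ε : ℂ) * (I * (c - z)) := by fun_prop
    refine (h2.tendsto 0).eventually ((isOpen_ball.inter isClosed_closure.isOpen_compl).mem_nhds ?_)
    simpa using ⟨hr, hzV⟩
  obtain ⟨ε, ⟨h2, h3⟩, h4⟩ := (((e1.and e2).filter_mono
    (nhdsWithin_le_nhds (s := Ioi 0))).and self_mem_nhdsWithin).exists
  have h4' : (0 : ℝ) < ε := h4
  obtain ⟨a, b, -, -, hab, h5⟩ := hseg c hcV z (mem_ball_self hr) hzV
  obtain ⟨a', b', -, -, hab', h6⟩ := hseg _ h2 _ h3.1 h3.2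
  rw [← h5] at h6
  simp only [real_smul] at h6
  have hb : (b : ℂ) = 1 - a := by
    rw [eq_sub_iff_add_eq, add_comm]; exact_mod_cast hab
  have hb' : (b' : ℂ) = 1 - a' := by
    rw [eq_sub_iff_add_eq, add_comm]; exact_mod_cast hab'
  rw [hb, hb'] at h6
  have h7 : (c - z) * ((a' : ℂ) - a + ε * I) = 0 := by linear_combination h6
  rcases mul_eq_zero.1 h7 with h8 | h8
  · exact hcz (sub_eq_zero.1 h8)
  · have h9 := congrArg Complex.im h8
    simp at h9
    exact h4'.ne' h9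

/-- **the frontier of the region** -/
theorem frontier_Reg (hW : W.Ok) {x₁ x₂ : ℚ} (h0 : 0 < x₁) (h12 : x₁ < x₂) (h1 : x₂ < 1) {h : ℝ}
    (hh : 0 < h) {z : ℂ} (hz : z ∈ frontier (Reg W x₁ x₂ h)) :
    (∃ u : ℝ, 0 < u ∧ u ≤ h ∧ (z = cOf ((u : ℂ) + 2 * Real.pi * (W.dat x₁).tm * I) ∨
      z = cOf ((u : ℂ) + 2 * Real.pi * (W.dat x₂).tp * I))) ∨
      z ∈ RoofH h (W.dat x₁).tm (W.dat x₂).tp ∨
      ∃ y : ℝ, (x₁ : ℝ) ≤ y ∧ y ≤ x₂ ∧ z = W.c (2 * Real.pi * y * I) := by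
  rw [frontier, (isOpen_Reg hW h0 h1 hh).interior_eq] at hz
  obtain ⟨hzc, hzn⟩ := hz
  by_cases hM : z ∈ MM
  · right; right
    have key : ∀ y : ℚ, x₁ ≤ y → y ≤ x₂ → z = rt (W.dat y) →
        ∃ y : ℝ, (x₁ : ℝ) ≤ y ∧ y ≤ x₂ ∧ z = W.c (2 * Real.pi * y * I) := by
      intro y hy1 hy2 h3
      have hy0 : 0 < y := h0.trans_le hy1
      have hyl : y < 1 := hy2.trans_lt h1
      refine ⟨y, by exact_mod_cast hy1, by exact_mod_cast hy2, ?_⟩
      rw [h3, rt, WS.dat_c hW hy0 hyl, WS.dat_a hW hy0 hyl, axisPt_eq]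
    rcases limit_Reg hW h0 h1 hh hM hzc with h2 | ⟨y, hy1, hy2, h2 | h2⟩
    · rcases limit_Ext hW h0 h12 h1 hM h2 with ⟨y, hy1, hy2, h3⟩ | h3
      · exact absurd (Or.inr ⟨y, hy1, hy2, h3⟩) hzn
      · exact h3
    · exact absurd (Or.inr ⟨y, hy1, hy2, h2⟩) hzn
    · exact key y hy1 hy2 h2
  · have h2 : z ∈ closure (Ext (W.dat x₁).tm (W.dat x₂).tp h) := by
      rw [Reg, closure_union] at hzc
      rcases hzc with h3 | h3
      · exact h3
      · exfalso
        refine hM (closure_minimal ?_ isCompact_MM.isClosed h3)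
        rintro c ⟨y, -, -, hc⟩
        exact hc.1
    rcases frontier_Ext hM h2 (fun h3 => hzn (Or.inl h3)) with h3 | h3
    · exact Or.inl h3
    · exact Or.inr (Or.inl h3)

end T60

/-- **module T** -/
theorem q_top : Q_top := by
  intro W hW x x₁ x₂ h0 hx1 hx2 h1 g h hg hgh κ F P hPb hax hr1 hr2
  have hh : 0 < h := hg.trans_le hgh
  have h12 : x₁ < x₂ := hx1.trans hx2
  have hx0 : 0 < x := h0.trans hx1
  have hxl : x < 1 := hx2.trans h1
  set s : ℝ := (W.dat x₁).tm with hs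
  set t : ℝ := (W.dat x₂).tp with ht
  have hrayb : ∀ t : ℝ, Bornology.IsBounded (RaySeg t g h) := by
    intro t
    have hc : ContinuousOn (fun u : ℝ => cOf ((u : ℂ) + 2 * Real.pi * t * I)) (Icc g h) := by
      refine continuousOn_cOf.comp (by fun_prop) fun u hu => ?_
      show 0 < ((u : ℂ) + 2 * Real.pi * t * I).re
      rw [CH.re_pt]; exact hg.trans_le hu.1
    exact (isCompact_Icc.image_of_continuousOn hc).isBounded
  have hroofb : Bornology.IsBounded (RoofH h s t) := by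
    have hc : ContinuousOn (fun u : ℝ => cOf ((h : ℂ) + 2 * Real.pi * u * I)) (Icc s t) := by
      refine continuousOn_cOf.comp (by fun_prop) fun u hu => ?_
      show 0 < ((h : ℂ) + 2 * Real.pi * u * I).re
      rw [CH.re_pt]; exact hh
    exact (isCompact_Icc.image_of_continuousOn hc).isBounded
  set F' : Finset (κ ⊕ Fin 3) := F.disjSum Finset.univ with hF'
  set P' : κ ⊕ Fin 3 → Set ℂ :=
    Sum.elim P ![RaySeg s g h, RaySeg t g h, RoofH h s t] with hP'
  have hsum : ∑ i ∈ F', diam (P' i) = diam (RaySeg s g h) + diam (RaySeg t g h) +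
      diam (RoofH h s t) + ∑ i ∈ F, diam (P i) := by
    rw [hF', Finset.sum_disjSum, Fin.sum_univ_three]
    simp [hP']
    ring
  have hin : ∀ z : ℂ, (∃ i ∈ F, z ∈ P i) → z ∈ ⋃ i ∈ F', P' i := by
    rintro z ⟨i, hi, hz⟩
    rw [mem_iUnion₂]
    exact ⟨Sum.inl i, by simp [hF', hi], hz⟩
  have hin' : ∀ (z : ℂ) (j : Fin 3), z ∈ P' (Sum.inr j) → z ∈ ⋃ i ∈ F', P' i := by
    intro z j hz
    rw [mem_iUnion₂]
    exact ⟨Sum.inr j, by simp [hF'], hz⟩
  have hfr : frontier (T60.Reg W x₁ x₂ h) ⊆ ⋃ i ∈ F', P' i := by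
    intro z hz
    rcases T60.frontier_Reg hW h0 h12 h1 hh hz with ⟨u, hu0, huh, h3 | h3⟩ | h3 | ⟨y, hy1, hy2, h3⟩
    · rcases le_or_gt u g with h4 | h4
      · rw [h3]; exact hin _ (hr1 u hu0 h4)
      · exact hin' z 0 ⟨u, ⟨h4.le, huh⟩, h3.symm⟩
    · rcases le_or_gt u g with h4 | h4
      · rw [h3]; exact hin _ (hr2 u hu0 h4)
      · exact hin' z 1 ⟨u, ⟨h4.le, huh⟩, h3.symm⟩
    · exact hin' z 2 h3
    · rw [h3]; exact hin _ (hax y hy1 hy2)
  rw [← hsum]
  refine diam_le_of_forall_dist_le (Finset.sum_nonneg fun i _ => diam_nonneg) ?_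
  intro z hz z' hz'
  refine T60.proj (K := Lm (W.dat x) ∪ {rt (W.dat x)}) (T60.bounded_Reg W x₁ x₂ h)
    (CH.preconn_K n5_open n5_closed (WS.dat_par hW hx0 hxl) (WS.dat_cir hW hx0 hxl)) ?_ ?_ hfr
    (Or.inl hz) (Or.inl hz')
  · rintro c (hc | hc)
    · exact Or.inl (Or.inr ⟨x, hx1.le, hx2.le, hc⟩)
    · right
      rw [mem_singleton_iff.1 hc, rt, WS.dat_c hW hx0 hxl, WS.dat_a hW hx0 hxl, axisPt_eq]
      exact hin _ (hax x (by exact_mod_cast hx1.le) (by exact_mod_cast hx2.le))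
  · intro i hi
    rcases i with i | i
    · refine hPb i ?_
      simpa [hF'] using hi
    · fin_cases i
      · exact hrayb s
      · exact hrayb t
      · exact hroofb

end Pool.Agent.Work.MLC.Cnt
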