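import Pool.Agent.Work.MLC.SatCircF

set_option autoImplicit false

/-! # The period lemma (helper54, proof by helper60)

A periodic angle of period `n` on the plateau of the rotation number `p / q` of an exact word of
length `N` satisfies `(q - 2) * N < n`. -/

namespace Pool.Agent.Work.MLC

open Set Circ CircleDeg1Lift Filter Topology

namespace CA

variable {N q : ℕ} {w : ℕ → ℤ} {s t θ : ℝ}

/-- the `j`-th image of the arc lies in one open half circle -/
def NC (w : ℕ → ℤ) (s t θ : ℝ) (j : ℕ) : Prop :=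
  ∃ k : ℤ, (θ + w j) / 2 + k < gw w θ j s ∧ gw w θ j t < (θ + w j) / 2 + k + 1 / 2

/-- the `j`-th image of the arc contains a point of the orbit -/
def Occ (N : ℕ) (w : ℕ → ℤ) (s t θ : ℝ) (j : ℕ) : Prop :=
  ∃ i, ∃ u ∈ AA N s i, gw w θ j s < u ∧ u < gw w θ j t

/-- the images of the arc are gaps -/
theorem gap (h : CA N q w s t) (h1 : s < θ) (h2 : θ < t) (j : ℕ) :
    ∀ u ∈ AA N s j, gw w θ j s < u → ¬ u < gw w θ j t := by
  induction j with
  | zero => intro u hu h3 h4; exact h.nopt 0 u hu (by simpa using h3) (by simpa using h4)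
  | succ j ih =>
    intro u hu h3 h4
    obtain ⟨v, hv, k, e⟩ := AA_sur hu
    obtain ⟨k', e', -, -⟩ := tdbl_of_inHalf (h.half h1 h2 j) hv
    have e2 : tdbl (θ + w j) (v + ((k' - k : ℤ) : ℝ)) = u := by
      rw [map_add_int, e']; push_cast; linarith
    refine ih (v + ((k' - k : ℤ) : ℝ)) (AA_shift hv _) ?_ ?_
    · by_contra hcon
      push Not at hcon
      have := (tdbl (θ + w j)).monotone hcon
      rw [e2, ← gw_succ_apply] at this
      exact absurd h3 (not_lt.2 this)
    · by_contra hcon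
      push Not at hcon
      have := (tdbl (θ + w j)).monotone hcon
      rw [e2, ← gw_succ_apply] at this
      exact absurd h4 (not_lt.2 this)

theorem mem0 : s ∈ AA N s 0 := ⟨0, 0, by simp⟩

theorem gw_le (h : CA N q w s t) (j : ℕ) : gw w θ j s ≤ gw w θ j t ∧ gw w θ j t ≤ gw w θ j s + 1 := by
  refine ⟨(gw w θ j).monotone h.lt.le, ?_⟩
  rw [← map_add_one]; exact (gw w θ j).monotone h.lt'.le

/-- data of a critical image -/
theorem crit_data (h : CA N q w s t) (h1 : s < θ) (h2 : θ < t) {j : ℕ} (hj : ¬ NC w s t θ j) :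
    ∃ k : ℤ, gw w θ (j + 1) s = 2 * gw w θ j s - k ∧ gw w θ (j + 1) t = 2 * gw w θ j t - (k + 1) ∧
      gw w θ (j + 1) s < θ + ((w j + k + 1 : ℤ) : ℝ) ∧ θ + ((w j + k + 1 : ℤ) : ℝ) < gw w θ (j + 1) t := by
  obtain ⟨-, k, e1, e2, e3⟩ := h.gw_pt h1 h2 mem0 j
  obtain ⟨-, k', f1, f2, f3⟩ := h.gw_pt h1 h2 h.mem j
  obtain ⟨g1, g2⟩ := h.gw_le (θ := θ) j
  have hk1 : k ≤ k' := by
    have : ((k : ℤ) : ℝ) < ((k' + 1 : ℤ) : ℝ) := by push_cast; linarith
    have : k < k' + 1 := by exact_mod_cast this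
    omega
  have hk2 : k' ≤ k + 1 := by
    have : ((k' : ℤ) : ℝ) < ((k + 2 : ℤ) : ℝ) := by push_cast; linarith
    have : k' < k + 2 := by exact_mod_cast this
    omega
  have hk3 : k' ≠ k := by
    intro hk
    subst hk
    exact hj ⟨k', e2, f3⟩
  have hk4 : k' = k + 1 := by omega
  subst hk4
  refine ⟨k, e1, by rw [f1]; push_cast; ring, ?_, ?_⟩
  · rw [e1]; push_cast; linarith
  · rw [f1]; push_cast at f2 ⊢; linarith

/-- an image which contains `θ` contains the arc -/
theorem cover (h : CA N q w s t) (h1 : s < θ) (h2 : θ < t) {j : ℕ} {m : ℤ}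
    (e1 : gw w θ j s < θ + m) (e2 : θ + m < gw w θ j t) :
    gw w θ j s ≤ s + m ∧ t + m ≤ gw w θ j t := by
  constructor
  · by_contra hcon
    push Not at hcon
    exact h.nopt' (h.gw_pt h1 h2 mem0 j).1 m hcon (by linarith)
  · by_contra hcon
    push Not at hcon
    exact h.nopt' (h.gw_pt h1 h2 h.mem j).1 m (by linarith) hcon

/-- no image of phase `0` except the arc itself contains `θ` -/
theorem cover_zero (h : CA N q w s t) (h1 : s < θ) (h2 : θ < t) {σ : ℕ} (h0 : 0 < σ) (hσ : σ < q)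
    {m : ℤ} (e1 : gw w θ (N * σ) s < θ + m) (e2 : θ + m < gw w θ (N * σ) t) : False := by
  obtain ⟨g1, g2⟩ := h.cover h1 h2 e1 e2
  have h3 : s + m ∈ AA N s (N * σ) := by
    have := AA_congr h.per 0 σ
    rw [Nat.zero_add] at this
    rw [this]
    exact AA_shift mem0 m
  have h4 : s + m ≤ gw w θ (N * σ) s := by
    by_contra hcon
    push Not at hcon
    exact h.gap h1 h2 _ _ h3 hcon (by linarith)
  exact h.gw_s_ne h1 h2 mem0 (Nat.mul_pos h.pos h0) (Nat.mul_lt_mul_of_pos_left hσ h.pos) m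
    (le_antisymm g1 h4)

/-- the image of phase `N - 1` is not critical before the end -/
theorem nc_last (h : CA N q w s t) (h1 : s < θ) (h2 : θ < t) {σ j : ℕ} (hσ : σ + 1 < q)
    (hj : j + 1 = N * (σ + 1)) : NC w s t θ j := by
  by_contra hcon
  obtain ⟨k, -, -, e3, e4⟩ := h.crit_data h1 h2 hcon
  rw [hj] at e3 e4
  exact h.cover_zero h1 h2 (Nat.succ_pos σ) hσ e3 e4

theorem occ_succ {j : ℕ} (h : CA N q w s t) (hj : NC w s t θ j)
    (ho : Occ N w s t θ j) : Occ N w s t θ (j + 1) := by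
  obtain ⟨k, k1, k2⟩ := hj
  obtain ⟨i, u, hu, u1, u2⟩ := ho
  have hst := (h.gw_le (θ := θ) j).1
  refine ⟨i + 1, 2 * u - k, AA_dbl' hu k, ?_, ?_⟩
  · rw [gw_succ_apply, tdbl_lin k (by linarith) (by linarith)]; linarith
  · rw [gw_succ_apply, tdbl_lin k (by linarith) (by linarith)]; linarith

/-- a critical image, and the next one, are occupied -/
theorem occ_crit {j : ℕ} (h : CA N q w s t) (h1 : s < θ) (h2 : θ < t) (hj : ¬ NC w s t θ j)
    (hm : (j + 1) % N ≠ 0) : Occ N w s t θ j ∧ Occ N w s t θ (j + 1) := by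
  obtain ⟨k, e1, e2, e3, e4⟩ := h.crit_data h1 h2 hj
  obtain ⟨g1, g2⟩ := h.cover h1 h2 e3 e4
  set m : ℤ := w j + k + 1 with hmdef
  have g3 : gw w θ (j + 1) s < s + m := by
    refine lt_of_le_of_ne g1 fun he => hm ?_
    have h3 := (h.gw_pt h1 h2 (x := s) mem0 (j + 1)).1
    rw [he] at h3
    have h4 : s + m ∈ AA N s 0 := AA_shift mem0 m
    have := h.mod_of_mem h3 h4
    rwa [Nat.zero_mod] at this
  have g4 : s + m < gw w θ (j + 1) t := by linarith
  refine ⟨?_, 0, s + m, AA_shift mem0 m, g3, g4⟩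
  obtain ⟨a, ha, l, hl⟩ : ∃ a ∈ AA N s (N - 1), ∃ l : ℤ, 2 * a = s + l := by
    have h3 : s ∈ AA N s (N - 1 + 1) := by
      rw [Nat.sub_add_cancel h.pos]
      have := AA_per h.per 0
      rw [Nat.zero_add] at this
      rw [this]; exact mem0
    exact AA_sur h3
  rw [e1] at g3
  rw [e2] at g4
  rcases Int.even_or_odd (m + k - l) with ⟨r, hr⟩ | ⟨r, hr⟩
  · refine ⟨N - 1, a + r, AA_shift ha r, ?_, ?_⟩
    · have : (m : ℝ) + k - l = r + r := by exact_mod_cast hr
      linarith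
    · have : (m : ℝ) + k - l = r + r := by exact_mod_cast hr
      linarith
  · refine ⟨N - 1, a + ((r + 1 : ℤ) : ℝ), AA_shift ha _, ?_, ?_⟩
    · have : (m : ℝ) + k - l = 2 * r + 1 := by exact_mod_cast hr
      push_cast; linarith
    · have : (m : ℝ) + k - l = 2 * r + 1 := by exact_mod_cast hr
      push_cast; linarith

/-- propagation inside a block -/
theorem occ_phase (h : CA N q w s t) (h1 : s < θ) (h2 : θ < t) {σ p : ℕ} (d : ℕ) (hd : p + d < N)
    (ho : Occ N w s t θ (p + N * σ)) : Occ N w s t θ (p + d + N * σ) := by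
  induction d with
  | zero => exact ho
  | succ d ih =>
    have ih' := ih (by omega)
    rw [show p + (d + 1) + N * σ = (p + d + N * σ) + 1 by ring]
    by_cases hn : NC w s t θ (p + d + N * σ)
    · exact h.occ_succ hn ih'
    · refine (h.occ_crit h1 h2 hn ?_).2
      rw [show p + d + N * σ + 1 = (p + d + 1) + N * σ by ring, Nat.add_mul_mod_self_left,
        Nat.mod_eq_of_lt (by omega)]
      omega

/-- next block -/
theorem occ_block (h : CA N q w s t) (h1 : s < θ) (h2 : θ < t) {σ p : ℕ} (hp : p < N)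
    (hσ : σ + 1 < q) (ho : Occ N w s t θ (p + N * σ)) {k : ℕ} (hk : k < N) :
    Occ N w s t θ (k + N * (σ + 1)) := by
  have h3 := h.occ_phase h1 h2 (N - 1 - p) (by omega) ho
  have e : p + (N - 1 - p) + N * σ + 1 = N * (σ + 1) := by
    have : p + (N - 1 - p) + 1 = N := by omega
    calc p + (N - 1 - p) + N * σ + 1 = (p + (N - 1 - p) + 1) + N * σ := by ring
      _ = N * (σ + 1) := by rw [this]; ring
  have h4 := h.occ_succ (h.nc_last h1 h2 hσ e) h3
  rw [e] at h4
  have h5 := h.occ_phase h1 h2 (σ := σ + 1) (p := 0) k (by omega) (by rwa [Nat.zero_add])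
  rwa [Nat.zero_add] at h5

/-- **some phase has at most one occupied gap** -/
theorem exists_phase (h : CA N q w s t) (h1 : s < θ) (h2 : θ < t) {j : ℕ} (hj : j < N * q)
    (ho : Occ N w s t θ j) : ∃ k < N, ∀ σ, σ + 1 < q → Occ N w s t θ (k + N * σ) →
      Occ N w s t θ (k + N * (σ + 1)) → False := by
  classical
  obtain ⟨j₀, hj₀, hmin⟩ := Finset.exists_min_image ((Finset.range (N * q)).filter
    fun j => Occ N w s t θ j) (fun j => gw w θ j t - gw w θ j s)
    ⟨j, Finset.mem_filter.2 ⟨Finset.mem_range.2 hj, ho⟩⟩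
  obtain ⟨hj₀1, i, u, hu, u1, u2⟩ := Finset.mem_filter.1 hj₀
  have haA := (h.gw_pt h1 h2 (x := s) mem0 j₀).1
  have hbA := (h.gw_pt h1 h2 h.mem j₀).1
  obtain ⟨hab1, hab2⟩ := h.gw_le (θ := θ) j₀
  set a := gw w θ j₀ s with ha
  set b := gw w θ j₀ t with hb
  have hcθ := h.compat θ h1 h2
  have hik : i % N < N := Nat.mod_lt _ h.pos
  set k := i % N with hk
  have huk : u ∈ AA N s k := by rw [hk, ← AA_mod h.per]; exact hu
  have hne : k % N ≠ j₀ % N := by
    intro he
    refine h.gap h1 h2 j₀ u ?_ u1 u2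
    rw [AA_mod h.per, ← he, ← AA_mod h.per]; exact huk
  have hnl : ¬ Pool.Agent.MLC.Linked (AA N s k) (AA N s j₀) :=
    not_linked h.pos h.word hcθ hcθ hne
  have hnl' : ¬ Pool.Agent.MLC.Linked (AA N s j₀) (AA N s k) :=
    not_linked h.pos h.word hcθ hcθ (Ne.symm hne)
  have hdis : ∀ v ∈ AA N s k, v ∉ AA N s j₀ := fun v hv hv' => hne (h.mod_of_mem hv hv')
  have key : ∀ σ, σ < q → Occ N w s t θ (k + N * σ) →
      ∃ l : ℤ, gw w θ (k + N * σ) s < a + l ∧ a + l < gw w θ (k + N * σ) t := by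
    intro σ hσ hoc
    have hcA : gw w θ (k + N * σ) s ∈ AA N s k := by
      have := (h.gw_pt h1 h2 (x := s) mem0 (k + N * σ)).1
      rwa [AA_congr h.per] at this
    have hdA : gw w θ (k + N * σ) t ∈ AA N s k := by
      have := (h.gw_pt h1 h2 h.mem (k + N * σ)).1
      rwa [AA_congr h.per] at this
    have hlen : b - a ≤ gw w θ (k + N * σ) t - gw w θ (k + N * σ) s := by
      refine hmin (k + N * σ) (Finset.mem_filter.2 ⟨Finset.mem_range.2 ?_, hoc⟩)
      calc k + N * σ < N + N * σ := by omega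
        _ = N * (σ + 1) := by ring
        _ ≤ N * q := Nat.mul_le_mul_left N hσ
    obtain ⟨hcd1, hcd2⟩ := h.gw_le (θ := θ) (k + N * σ)
    set c := gw w θ (k + N * σ) s with hc
    set d := gw w θ (k + N * σ) t with hd
    -- translate `c` into `(a, a + 1)`
    set l : ℤ := -⌊c - a⌋ with hl
    have l1 : a ≤ c + l := by
      have := Int.floor_le (c - a); rw [hl]; push_cast; linarith
    have l2 : c + l < a + 1 := by
      have := Int.lt_floor_add_one (c - a); rw [hl]; push_cast; linarith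
    have hcl : c + l ∈ AA N s k := AA_shift hcA l
    have hdl : d + l ∈ AA N s k := AA_shift hdA l
    have l3 : a < c + l := lt_of_le_of_ne l1 fun he => hdis _ hcl (he ▸ haA)
    have l4 : c + l < b := by
      by_contra hcon
      push Not at hcon
      refine hnl ⟨u, huk, b, hbA, c + l, hcl, a + ((1 : ℤ) : ℝ), AA_shift haA 1, u2.le, hcon, ?_, ?_⟩
      · push_cast; linarith
      · push_cast; linarith
    refine ⟨1 - l, ?_, ?_⟩
    · push_cast; linarith
    · by_contra hcon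
      push Not at hcon
      push_cast at hcon
      have l5 : b ≤ d + l := by
        by_contra h7
        push Not at h7
        linarith
      exact hnl' ⟨a, haA, c + l, hcl, b, hbA, d + l, hdl, l3.le, l4.le, l5, by linarith⟩
  refine ⟨k, hik, fun σ hσ o1 o2 => ?_⟩
  obtain ⟨l, a1, a2⟩ := key σ (by omega) o1
  obtain ⟨l', b1, b2⟩ := key (σ + 1) hσ o2
  have hAk : ∀ σ, AA N s (k + N * σ) = AA N s k := fun σ => AA_congr h.per k σ
  have hc1 := (h.gw_pt h1 h2 (x := s) mem0 (k + N * σ)).1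
  have hc2 := (h.gw_pt h1 h2 (x := s) mem0 (k + N * (σ + 1))).1
  rw [hAk] at hc1 hc2
  have he1 : gw w θ (k + N * (σ + 1)) s + ((l - l' : ℤ) : ℝ) ≤ gw w θ (k + N * σ) s := by
    by_contra hcon
    push Not at hcon
    refine h.gap h1 h2 (k + N * σ) _ ?_ hcon ?_
    · rw [hAk]; exact AA_shift hc2 _
    · push_cast; linarith
  have he2 : gw w θ (k + N * σ) s + ((l' - l : ℤ) : ℝ) ≤ gw w θ (k + N * (σ + 1)) s := by
    by_contra hcon
    push Not at hcon
    refine h.gap h1 h2 (k + N * (σ + 1)) _ ?_ hcon ?_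
    · rw [hAk]; exact AA_shift hc1 _
    · push_cast; linarith
  obtain ⟨m, hm⟩ := h.gw_pt_eq h1 h2 (x := s) mem0 (k + N * σ)
  obtain ⟨m', hm'⟩ := h.gw_pt_eq h1 h2 (x := s) mem0 (k + N * (σ + 1))
  have he3 : (2 : ℝ) ^ (k + N * (σ + 1)) * s = 2 ^ (k + N * σ) * s + ((m - m' + l' - l : ℤ) : ℝ) := by
    rw [hm, hm'] at he1 he2
    push_cast at he1 he2 ⊢
    linarith
  have hx0 : (2 : ℝ) ^ (N * (σ + 1)) * s ∈ AA N s 0 := ⟨σ + 1, 0, by simp⟩
  have he4 : (2 : ℝ) ^ N * (2 ^ (N * (σ + 1)) * s) = 2 ^ (N * (σ + 1)) * s +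
      ((2 ^ (N - k) * (m - m' + l' - l) : ℤ) : ℝ) := by
    have e5 : (2 : ℝ) ^ N * (2 ^ (N * (σ + 1)) * s) = 2 ^ (N - k) * (2 ^ (k + N * (σ + 1)) * s) := by
      rw [← mul_assoc, ← mul_assoc, ← pow_add, ← pow_add]
      congr 2
      omega
    have e6 : (2 : ℝ) ^ (N - k) * (2 ^ (k + N * σ) * s) = 2 ^ (N * (σ + 1)) * s := by
      rw [← mul_assoc, ← pow_add]
      congr 2
      have : N - k + (k + N * σ) = N + N * σ := by omega
      rw [this]; ring
    rw [e5, he3, mul_add, e6]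
    push_cast; ring
  have hdvd := h.dvd_of_per hx0 he4
  have hle := Nat.le_of_dvd h.pos hdvd
  have : N * 2 ≤ N * q := Nat.mul_le_mul_left N h.two
  have := h.pos
  omega

/-- **the images of the arc are not critical before the time `(q - 2) N`** -/
theorem nc (h : CA N q w s t) (h1 : s < θ) (h2 : θ < t) {j : ℕ} (hj : j < (q - 2) * N) :
    NC w s t θ j := by
  by_contra hcon
  have hN := h.pos
  have hσ : j / N < q - 2 := Nat.div_lt_of_lt_mul (by rwa [mul_comm] at hj)
  have hp : j % N < N := Nat.mod_lt _ hN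
  have hjd : j % N + N * (j / N) = j := Nat.mod_add_div j N
  generalize j / N = σ at hσ hjd
  have hjq : j < N * q := by
    calc j < (q - 2) * N := hj
      _ ≤ q * N := Nat.mul_le_mul_right N (Nat.sub_le q 2)
      _ = N * q := mul_comm _ _
  by_cases hm : (j + 1) % N = 0
  · -- the last phase
    refine hcon (h.nc_last h1 h2 (σ := σ) (by omega) ?_)
    have h3 : j % N + 1 = N := by
      by_contra hne
      have h4 : (j + 1) % N = j % N + 1 := by
        conv_lhs => rw [← hjd]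
        rw [show j % N + N * σ + 1 = (j % N + 1) + N * σ by ring, Nat.add_mul_mod_self_left,
          Nat.mod_eq_of_lt (by omega)]
      omega
    calc j + 1 = (j % N + 1) + N * σ := by omega
      _ = N * (σ + 1) := by rw [h3]; ring
  · obtain ⟨ho, -⟩ := h.occ_crit h1 h2 hcon hm
    obtain ⟨k, hk, hun⟩ := h.exists_phase h1 h2 hjq ho
    rw [← hjd] at ho
    have o1 := h.occ_block h1 h2 hp (by omega) ho hk
    have o2 := h.occ_block h1 h2 hk (by omega) o1 hk
    exact hun (σ + 1) (by omega) o1 o2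

/-- **the period lemma**: a periodic angle on the arc has a long period -/
theorem per_lt (h : CA N q w s t) {x : ℝ} (hx : s ≤ x) (hx' : x ≤ t) {n : ℕ} (hn : 0 < n)
    (hper : ∃ a : ℤ, 2 ^ n * x - x = a) : (q - 2) * N < n := by
  obtain ⟨a, ha⟩ := hper
  have hq := h.two
  have hN := h.pos
  have hend : ∀ y, y ∈ AA N s 0 → y = x → (q - 2) * N < n := by
    rintro y hy rfl
    have h3 := h.dvd_of_per hy (j := n) (m := a) (by linarith)
    have h4 := Nat.le_of_dvd hn h3
    calc (q - 2) * N < q * N := Nat.mul_lt_mul_of_pos_right (by omega) hN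
      _ = N * q := mul_comm _ _
      _ ≤ n := h4
  rcases hx.lt_or_eq with h1 | h1
  swap
  · exact hend s mem0 h1
  rcases hx'.lt_or_eq with h2 | h2
  swap
  · exact hend t h.mem h2.symm
  by_contra hcon
  push Not at hcon
  have hlin : ∀ i ≤ (q - 2) * N, ∃ m : ℤ, gw w x i x = 2 ^ i * x + m := by
    intro i
    induction i with
    | zero => intro _; exact ⟨0, by simp⟩
    | succ i ih =>
      intro hi
      obtain ⟨m, hm⟩ := ih (by omega)
      obtain ⟨k, k1, k2⟩ := h.nc h1 h2 (j := i) (by omega)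
      have g1 : gw w x i s ≤ gw w x i x := (gw w x i).monotone h1.le
      have g2 : gw w x i x ≤ gw w x i t := (gw w x i).monotone h2.le
      refine ⟨2 * m - k, ?_⟩
      rw [gw_succ_apply, tdbl_lin k (by linarith) (by linarith), hm, pow_succ]
      push_cast; ring
  obtain ⟨M, rfl⟩ : ∃ M, n = M + 1 := ⟨n - 1, by omega⟩
  obtain ⟨m, hm⟩ := hlin M (by omega)
  obtain ⟨k, k1, k2⟩ := h.nc h1 h2 (j := M) (by omega)
  have g1 : gw w x M s ≤ gw w x M x := (gw w x M).monotone h1.le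
  have g2 : gw w x M x ≤ gw w x M t := (gw w x M).monotone h2.le
  rw [hm] at g1 g2
  rw [pow_succ] at ha
  have e1 : ((w M + 2 * k : ℤ) : ℝ) < ((a + 2 * m : ℤ) : ℝ) := by push_cast; linarith
  have e2 : ((a + 2 * m : ℤ) : ℝ) < ((w M + 2 * k + 1 : ℤ) : ℝ) := by push_cast; linarith
  have e3 : w M + 2 * k < a + 2 * m := by exact_mod_cast e1
  have e4 : a + 2 * m < w M + 2 * k + 1 := by exact_mod_cast e2
  omega

end CA

/-- **the period lemma for a word**: an `n`-periodic angle with rotation number `κ + y` of an exact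
word of length `m` satisfies `(y.den - 2) * m < n` -/
theorem perL54 {m n : ℕ} {v : ℕ → ℤ} {κ : ℤ} {y : ℚ} {t : ℝ} (hm : 0 < m) (hv : Word m v)
    (hy0 : 0 < y) (hy1 : y < 1) (hn : 0 < n) (ht : ∃ a : ℤ, (2 : ℝ) ^ n * t - t = a)
    (hnu : nu v m t = κ + y) : (y.den - 2) * m < n := by
  have hq := two_le_den hy0 hy1
  obtain ⟨i₀, hi₀, s, t', h, hplat⟩ := exists_arc hm hq hv (isCoprime_aux y κ)
  have hPx : ((κ * y.den + y.num : ℤ) : ℝ) / (y.den : ℕ) = κ + y := cast_aux y κ
  have h3 : nu (fun j => v (i₀ + j)) m t = ((κ * y.den + y.num : ℤ) : ℝ) / (y.den : ℕ) := by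
    rw [nu_shift_word v m hv.2.1 t i₀, hnu, hPx]
  obtain ⟨h4, h5⟩ := (hplat t).1 h3
  exact h.per_lt h4 h5 hn ht

end Pool.Agent.Work.MLC
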