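import Pool.Agent.Work.MLC.SatE26

set_option autoImplicit false

/-! # Theorem S: the family of cycles inside the wake (helper26) -/

namespace Pool.Agent.Work.MLC.Sat

open Filter Topology Metric Set Complex

lemma norm_le_of_per {n : ℕ} (hn : 0 < n) {c z : ℂ} (h : (c, z) ∈ Per n) : ‖z‖ ≤ 1 + ‖c‖ := by
  apply norm_le_of_G_zero
  have h1 := G_it c z n
  have h2 : it c n z = z := h
  rw [h2] at h1
  have h3 : (2 : ℝ) ≤ 2 ^ n := by
    calc (2 : ℝ) = 2 ^ 1 := by norm_num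
      _ ≤ 2 ^ n := pow_le_pow_right₀ (by norm_num) hn
  nlinarith [G_nonneg c z]

/-- a closed condition on periodic points passes to the limit parameter -/
lemma cluster {n : ℕ} (hn : 0 < n) {c : ℂ → ℂ} {L : ℂ} (hc : ContinuousAt c L)
    {P : ℂ → ℂ → Prop} (h : ∃ᶠ L' in 𝓝 L, ∃ z, (c L', z) ∈ Per n ∧ P L' z) :
    ∃ z, ∃ᶠ p : ℂ × ℂ in 𝓝 (L, z), (c p.1, p.2) ∈ Per n ∧ P p.1 p.2 := by
  by_contra hcon
  push Not at hcon
  have h1 : ∀ z ∈ closedBall (0 : ℂ) (2 + ‖c L‖),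
      ∀ᶠ p : ℂ × ℂ in 𝓝 (L, z), ¬ ((c p.1, p.2) ∈ Per n ∧ P p.1 p.2) := fun z _ =>
    (hcon z).mono fun p hp hh => hp hh.1 hh.2
  have h2 := (isCompact_closedBall (0 : ℂ) (2 + ‖c L‖)).eventually_forall_of_forall_eventually
    (P := fun L' z => ¬ ((c L', z) ∈ Per n ∧ P L' z)) h1
  have h3 : ∀ᶠ L' in 𝓝 L, ‖c L'‖ < 1 + ‖c L‖ := hc.norm.eventually (gt_mem_nhds (by linarith))
  obtain ⟨L', ⟨z, h4, h5⟩, h6, h7⟩ := (h.and_eventually (h2.and h3)).exists
  refine h6 z ?_ ⟨h4, h5⟩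
  rw [mem_closedBall_zero_iff]
  have := norm_le_of_per hn h4
  linarith

section

variable {D : Dat}

lemma pair_contAt (hP : D.Par) {L : ℂ} (hL : L ∈ D.B) (z : ℂ) :
    ContinuousAt (fun p : ℂ × ℂ => ((D.c p.1, p.2) : ℂ × ℂ)) (L, z) := by
  refine ContinuousAt.prodMk ?_ continuousAt_snd
  exact ContinuousAt.comp (f := Prod.fst) (g := D.c) (x := ((L, z) : ℂ × ℂ)) (c_contAt hP hL)
    continuousAt_fst

/-- the points over `L` which are not attracting and have the label of the child -/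
def NN (D : Dat) (L : ℂ) : Set ℂ :=
  {z | (D.c L, z) ∈ Per D.n ∧ 1 ≤ ‖mul D.n (D.c L, z)‖ ∧ mul D.n (D.c L, z) ≠ 1 ∧
    (D.c L, z) ∈ closure (NJ D.n D.J)}

/-- the attracting points over `L` -/
def AA (D : Dat) (L : ℂ) : Set ℂ :=
  {z | (D.c L, z) ∈ Per D.n ∧ ‖mul D.n (D.c L, z)‖ < 1}

/-- the family inside the wake -/
def ZI (D : Dat) (L : ℂ) : Set ℂ :=
  {z | (∃ z₀ ∈ NN D L, ∃ i, z = it (D.c L) i z₀) ∨ (NN D L = ∅ ∧ z ∈ AA D L)}

/-- over the wake, repelling limits of `NJ` are in `NJ` -/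
lemma nj_of_closure (h2 : S2_unique) (h3 : S3_closed) (hP : D.Par) (hC : D.Cir)
    (hR : Regions D) {L z : ℂ} (hL : L ∈ D.RI) (h : (D.c L, z) ∈ Per D.n)
    (h1 : 1 < ‖mul D.n (D.c L, z)‖) (hcl : (D.c L, z) ∈ closure (NJ D.n D.J)) :
    (D.c L, z) ∈ NJ D.n D.J := by
  by_cases hM : D.c L ∈ MM
  · exact h3 D.n D.J _ (Par_n_pos hP) h h1 hM hcl
  · obtain ⟨θ, hθ⟩ := hP.ang L (U_sub_B hP hL.1) hM
    exact nj_of_ext hP hC hL hθ (closure_nj_ext h2 hP hC hR hL hθ h hcl)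

/-- a neighbourhood of a pair over the wake consists of pairs over the wake -/
lemma wake_nhds (hP : D.Par) (hR : Regions D) {L z : ℂ} (hL : L ∈ D.RI) :
    (D.c '' D.RI) ×ˢ (univ : Set ℂ) ∈ 𝓝 (D.c L, z) := by
  refine prod_mem_nhds ?_ univ_mem
  rw [← c_map_nhds hP (U_sub_B hP hL.1)]
  exact image_mem_map (hR.openI.mem_nhds hL)

lemma closure_per {n : ℕ} {J : Lab n} {y : ℂ × ℂ} (h : y ∈ closure (NJ n J)) :
    y ∈ Per n ∧ 1 ≤ ‖mul n y‖ := by
  have h1 : closure (NJ n J) ⊆ Per n ∩ {y | 1 ≤ ‖mul n y‖} := by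
    refine closure_minimal ?_ ((isClosed_Per n).inter ?_)
    · rintro y ⟨h1, h2, -⟩
      exact ⟨h1, h2.le⟩
    · exact isClosed_le continuous_const (continuous_mul' n).norm
  exact h1 h

/-- **limit lemma**: over the wake all limits of `NJ` are in `NN` -/
lemma closure_NN (h2 : S2_unique) (h3 : S3_closed) (h8 : S8_side) (hP : D.Par) (hC : D.Cir)
    (hR : Regions D) {L z : ℂ} (hL : L ∈ D.RI) (hcl : (D.c L, z) ∈ closure (NJ D.n D.J)) :
    z ∈ NN D L := by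
  obtain ⟨h4, h5⟩ := closure_per hcl
  refine ⟨h4, h5, ?_, hcl⟩
  intro h6
  have h7 := h8 D.n D.J (D.c L, z) _ (Par_n_pos hP) h4 h6 (wake_nhds hP hR hL) (by
    rintro ⟨y1, y2⟩ ⟨⟨L', hL', rfl⟩, -⟩ h7 h8 h9
    exact nj_of_closure h2 h3 hP hC hR hL' h7 h8 h9)
  exact (mem_closure_iff_frequently.1 hcl) h7

lemma exists_phi {μ : ℂ} (h : ‖μ‖ = 1) (h1 : μ ≠ 1) :
    ∃ φ : ℝ, 0 < φ ∧ φ < 1 ∧ μ = exp (2 * Real.pi * φ * I) := by
  have hμ : μ = exp (arg μ * I) := by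
    have := norm_mul_exp_arg_mul_I μ
    rw [h] at this
    simpa using this.symm
  have hpi := Real.pi_pos
  have ha0 : arg μ ≠ 0 := by
    intro h0
    rw [h0] at hμ
    simp at hμ
    exact h1 hμ
  rcases lt_or_gt_of_ne ha0 with h2 | h2
  · refine ⟨arg μ / (2 * Real.pi) + 1, ?_, ?_, ?_⟩
    · have h3 := neg_pi_lt_arg μ
      have : -(1 / 2) < arg μ / (2 * Real.pi) := by
        rw [lt_div_iff₀ (by positivity)]; linarith
      linarith
    · have : arg μ / (2 * Real.pi) < 0 := div_neg_of_neg_of_pos h2 (by positivity)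
      linarith
    · have h3 : (2 * Real.pi * ((arg μ / (2 * Real.pi) + 1 : ℝ) : ℂ) * I) =
          arg μ * I + 2 * Real.pi * I := by
        push_cast
        have : (Real.pi : ℂ) ≠ 0 := by exact_mod_cast hpi.ne'
        field_simp
      rw [h3, exp_periodic]
      exact hμ
  · refine ⟨arg μ / (2 * Real.pi), by positivity, ?_, ?_⟩
    · rw [div_lt_one (by positivity)]
      have h3 := arg_le_pi μ
      linarith
    · have h3 : (2 * Real.pi * ((arg μ / (2 * Real.pi) : ℝ) : ℂ) * I) = arg μ * I := by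
        push_cast
        have : (Real.pi : ℂ) ≠ 0 := by exact_mod_cast hpi.ne'
        field_simp
      rw [h3]
      exact hμ

/-- persistence of `NN` along the curve, as long as the pair is not attracting -/
lemma NN_nhds (h2 : S2_unique) (h3 : S3_closed) (h3' : S3_neutral) (hP : D.Par) (hC : D.Cir)
    (hR : Regions D) {L z : ℂ} (hL : L ∈ D.RI) (hz : z ∈ NN D L) :
    ∀ᶠ p : ℂ × ℂ in 𝓝 (L, z), (D.c p.1, p.2) ∈ Per D.n → 1 ≤ ‖mul D.n (D.c p.1, p.2)‖ →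
      p.2 ∈ NN D p.1 := by
  obtain ⟨hz1, hz2, hz3, hz4⟩ := hz
  have hn := Par_n_pos hP
  have hB := U_sub_B hP hL.1
  have hcont := pair_contAt hP hB z
  have hne : ∀ᶠ y in 𝓝 (D.c L, z), mul D.n y ≠ 1 :=
    (continuous_mul' D.n).continuousAt.eventually (isOpen_ne.mem_nhds hz3)
  have key : ∀ᶠ y in 𝓝 (D.c L, z), y ∈ Per D.n → 1 ≤ ‖mul D.n y‖ → y ∈ closure (NJ D.n D.J) := by
    rcases hz2.lt_or_eq with h1 | h1
    · have h5 := nj_of_closure h2 h3 hP hC hR hL hz1 h1 hz4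
      have h6 := FF_nhds_gen hn hz1 h1 h5.2.2.1
      have h7 : ∀ᶠ y in 𝓝 (D.c L, z), 1 < ‖mul D.n y‖ :=
        (continuous_mul' D.n).norm.continuousAt.eventually (lt_mem_nhds h1)
      filter_upwards [h6, h7] with y h8 h9 h10 _
      obtain ⟨h11, h12⟩ := h8 h10
      exact subset_closure ⟨h10, h9, h12, by rw [h11]; exact h5.2.2.2⟩
    · obtain ⟨φ, hφ0, hφ1, hφ⟩ := exists_phi h1.symm hz3
      obtain ⟨⟨J', hJ'⟩, -, -⟩ := h3' D.n (D.c L, z) φ hn hz1 hφ0 hφ1 hφ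
      have hJ : J' = D.J := by
        obtain ⟨y, h5, h6⟩ := ((mem_closure_iff_frequently.1 hz4).and_eventually hJ').exists
        have h7 := h6 h5.1 h5.2.1
        rw [← h7.2.2.2, h5.2.2.2]
      subst hJ
      have h23 : ∀ᶠ y in 𝓝 (D.c L, z), ‖mul D.n y‖ < 23 / 10 :=
        (continuous_mul' D.n).norm.continuousAt.eventually (gt_mem_nhds (by
          show ‖mul D.n (D.c L, z)‖ < 23 / 10
          rw [← h1]; norm_num))
      filter_upwards [hJ', eventually_eventually_nhds.2 hJ', hne, h23] with y h5 h6 h7 h8 h9 h10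
      rcases h10.lt_or_eq with h11 | h11
      · exact subset_closure (h5 h9 h11)
      · rw [mem_closure_iff_nhds]
        intro t ht
        have h12 := mul_open hn h9 h7 h8 (inter_mem ht h6)
        -- a repelling value close to `mul n y`
        have h13 : ∃ᶠ w in 𝓝 (mul D.n y), 1 < ‖w‖ := by
          have h14 : mul D.n y ≠ 0 := by
            intro h0; rw [h0] at h11; simp at h11
          have h15 : Tendsto (fun s : ℝ => ((1 + s : ℝ) : ℂ) * mul D.n y) (𝓝[>] 0)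
              (𝓝 (mul D.n y)) := by
            have h16 : Continuous fun s : ℝ => ((1 + s : ℝ) : ℂ) * mul D.n y := by fun_prop
            have h17 := h16.tendsto 0
            simp only [add_zero, ofReal_one, one_mul] at h17
            exact h17.mono_left nhdsWithin_le_nhds
          refine h15.frequently (Eventually.frequently ?_)
          filter_upwards [self_mem_nhdsWithin] with s hs
          have hs' : (0 : ℝ) < s := hs
          rw [norm_mul, ← h11, mul_one, norm_real, Real.norm_eq_abs, abs_of_pos (by linarith)]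
          linarith
        obtain ⟨w, h14, x', ⟨⟨hx't, hx'J⟩, hx'P⟩, hx'm⟩ := (h13.and_eventually h12).exists
        exact ⟨x', hx't, hx'J hx'P (by rw [hx'm]; exact h14)⟩
  filter_upwards [hcont.eventually key, hcont.eventually hne] with p h5 h6 h7 h8
  exact ⟨h7, h8, h6, h5 h7 h8⟩

/-- near `L` all points of `NN` are near the points of `NN D L` -/
lemma NN_limit (h2 : S2_unique) (h3 : S3_closed) (h8 : S8_side) (hP : D.Par) (hC : D.Cir)
    (hR : Regions D) {L : ℂ} (hL : L ∈ D.RI) {N : Set (ℂ × ℂ)} (hN : ∀ z ∈ NN D L, N ∈ 𝓝 (L, z)) :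
    ∀ᶠ L' in 𝓝 L, ∀ z' ∈ NN D L', (L', z') ∈ N := by
  by_contra hcon
  have h4 : ∃ᶠ L' in 𝓝 L, ∃ z', (D.c L', z') ∈ Per D.n ∧ (z' ∈ NN D L' ∧ (L', z') ∉ N) := by
    rw [not_eventually] at hcon
    refine hcon.mono fun L' h => ?_
    push Not at h
    obtain ⟨z', h5, h6⟩ := h
    exact ⟨z', h5.1, h5, h6⟩
  have hB := U_sub_B hP hL.1
  obtain ⟨z, hz⟩ := cluster (Par_n_pos hP) (c_contAt hP hB) h4
  have hzN : z ∈ NN D L := by
    refine closure_NN h2 h3 h8 hP hC hR hL ?_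
    rw [← closure_closure, mem_closure_iff_frequently]
    refine (pair_contAt hP hB z).tendsto.frequently (hz.mono ?_)
    rintro p ⟨-, h5, -⟩
    exact h5.2.2.2
  obtain ⟨p, h5, h6⟩ := (hz.and_eventually (hN z hzN)).exists
  exact h5.2.2 h6

/-- exterior parameters near a frontier parameter -/
lemma frequently_ext (hP : D.Par) {L : ℂ} (hB : L ∈ D.B) (h : ∃ᶠ c in 𝓝 (D.c L), c ∉ MM) :
    ∃ᶠ L' in 𝓝 L, D.c L' ∉ MM := by
  rw [← c_map_nhds hP hB] at h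
  exact frequently_map.1 h

/-- uniqueness at frontier parameters -/
lemma NN_unique_frontier (h2 : S2_unique) (h3 : S3_closed) (h3' : S3_neutral) (hP : D.Par)
    (hC : D.Cir) (hR : Regions D) {L z z' : ℂ} (hL : L ∈ D.RI) (hz : z ∈ NN D L)
    (hz' : z' ∈ NN D L) (hfr : ∃ᶠ L' in 𝓝 L, D.c L' ∉ MM) : z = z' := by
  by_contra hne
  have hB := U_sub_B hP hL.1
  have hn := Par_n_pos hP
  obtain ⟨β, hβa, hβ0, hβ⟩ := chart hz.1 hz.2.2.1
  obtain ⟨β', hβa', hβ0', hβ'⟩ := chart hz'.1 hz'.2.2.1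
  simp only at hβ0 hβ0' hβa hβa'
  have hc := c_contAt hP hB
  -- the continuations over `L'`
  have hcont : ∀ {γ : ℂ → ℂ} {y : ℂ}, AnalyticAt ℂ γ (D.c L) → γ (D.c L) = y →
      Tendsto (fun L' => ((L', γ (D.c L')) : ℂ × ℂ)) (𝓝 L) (𝓝 (L, y)) := by
    intro γ y hγ hγ0
    have h1 : Tendsto (fun L' => γ (D.c L')) (𝓝 L) (𝓝 (γ (D.c L))) :=
      hγ.continuousAt.tendsto.comp hc.tendsto
    rw [hγ0] at h1
    exact tendsto_id.prodMk_nhds h1
  have hcont2 : ∀ {γ : ℂ → ℂ} {y : ℂ}, AnalyticAt ℂ γ (D.c L) → γ (D.c L) = y →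
      Tendsto (fun L' => ((D.c L', γ (D.c L')) : ℂ × ℂ)) (𝓝 L) (𝓝 (D.c L, y)) := by
    intro γ y hγ hγ0
    have h1 : Tendsto (fun L' => γ (D.c L')) (𝓝 L) (𝓝 (γ (D.c L))) :=
      hγ.continuousAt.tendsto.comp hc.tendsto
    rw [hγ0] at h1
    exact hc.tendsto.prodMk_nhds h1
  have e1 := (hcont hβa hβ0).eventually (NN_nhds h2 h3 h3' hP hC hR hL hz)
  have e1' := (hcont hβa' hβ0').eventually (NN_nhds h2 h3 h3' hP hC hR hL hz')
  have e2 := (hcont2 hβa hβ0).eventually hβ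
  have e2' := (hcont2 hβa' hβ0').eventually hβ'
  have e3 : ∀ᶠ L' in 𝓝 L, β (D.c L') ≠ β' (D.c L') := by
    have h1 : Tendsto (fun L' => β (D.c L')) (𝓝 L) (𝓝 z) := by
      rw [← hβ0]; exact hβa.continuousAt.tendsto.comp hc.tendsto
    have h1' : Tendsto (fun L' => β' (D.c L')) (𝓝 L) (𝓝 z') := by
      rw [← hβ0']; exact hβa'.continuousAt.tendsto.comp hc.tendsto
    filter_upwards [(h1.sub h1').eventually_ne (sub_ne_zero.2 hne)] with L' h9
    exact sub_ne_zero.1 h9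
  obtain ⟨L', hM, h5, h5', h6, h6', h7, h8⟩ :=
    (hfr.and_eventually (e1.and (e1'.and (e2.and (e2'.and
      (e3.and (hR.openI.mem_nhds hL))))))).exists
  simp only at h5 h5'
  have p1 : (D.c L', β (D.c L')) ∈ Per D.n := h6.2 rfl
  have p1' : (D.c L', β' (D.c L')) ∈ Per D.n := h6'.2 rfl
  have r1 := rep13 hn p1 hM
  have r1' := rep13 hn p1' hM
  have n1 := nj_of_closure h2 h3 hP hC hR h8 p1 r1 (h5 p1 r1.le).2.2.2
  have n1' := nj_of_closure h2 h3 hP hC hR h8 p1' r1' (h5' p1' r1'.le).2.2.2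
  exact h7 (h2 D.n (D.c L') _ _ hn hM p1 p1' n1.2.2.1 n1'.2.2.1 (by rw [n1.2.2.2, n1'.2.2.2]))

/-- the good parameters -/
def VV (D : Dat) : Set ℂ :=
  {L ∈ D.RI | (NN D L).Subsingleton ∧ (NN D L = ∅ → (AA D L).Nonempty)}

/-- points over `L'` near an attracting point -/
lemma AA_nhds (hP : D.Par) {L z : ℂ} (hB : L ∈ D.B) (hz : z ∈ AA D L) :
    (∀ᶠ p : ℂ × ℂ in 𝓝 (L, z), (D.c p.1, p.2) ∈ Per D.n → p.2 ∈ AA D p.1) ∧
      ∀ᶠ L' in 𝓝 L, (AA D L').Nonempty := by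
  have h1 : ∀ᶠ p : ℂ × ℂ in 𝓝 (L, z), ‖mul D.n (D.c p.1, p.2)‖ < 1 :=
    (pair_contAt hP hB z).tendsto.eventually
      ((continuous_mul' D.n).norm.continuousAt.eventually (gt_mem_nhds hz.2))
  have h2 : ∀ᶠ p : ℂ × ℂ in 𝓝 (L, z), (D.c p.1, p.2) ∈ Per D.n → p.2 ∈ AA D p.1 :=
    h1.mono fun p h3 h4 => ⟨h4, h3⟩
  refine ⟨h2, ?_⟩
  have hne : mul D.n (D.c L, z) ≠ 1 := by
    intro h0
    have := hz.2
    rw [h0] at this
    simp at this
  obtain ⟨β, hβa, hβ0, hβ⟩ := chart hz.1 hne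
  simp only at hβ0 hβa
  have hc := c_contAt hP hB
  have h3 : Tendsto (fun L' => β (D.c L')) (𝓝 L) (𝓝 z) := by
    rw [← hβ0]; exact hβa.continuousAt.tendsto.comp hc.tendsto
  have h4 : Tendsto (fun L' => ((L', β (D.c L')) : ℂ × ℂ)) (𝓝 L) (𝓝 (L, z)) :=
    tendsto_id.prodMk_nhds h3
  have h5 : Tendsto (fun L' => ((D.c L', β (D.c L')) : ℂ × ℂ)) (𝓝 L) (𝓝 (D.c L, z)) :=
    hc.tendsto.prodMk_nhds h3
  filter_upwards [h4.eventually h2, h5.eventually hβ] with L' h6 h7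
  exact ⟨β (D.c L'), h6 (h7.2 rfl)⟩

/-- near a point of `NN D L` (the only one) the points of the curve are the points of `NN`, or
attracting, and then `NN` is empty -/
lemma NN_struct (h2 : S2_unique) (h3 : S3_closed) (h3' : S3_neutral) (h8 : S8_side) (hP : D.Par)
    (hC : D.Cir) (hR : Regions D) {L z : ℂ} (hL : L ∈ D.RI) (hz : z ∈ NN D L)
    (hsub : (NN D L).Subsingleton) :
    (∀ᶠ p : ℂ × ℂ in 𝓝 (L, z), (D.c p.1, p.2) ∈ Per D.n →
      (p.2 ∈ NN D p.1 ∨ (NN D p.1 = ∅ ∧ p.2 ∈ AA D p.1))) ∧ ∀ᶠ L' in 𝓝 L, L' ∈ VV D := by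
  have hB := U_sub_B hP hL.1
  obtain ⟨β, hβa, hβ0, hβ⟩ := chart hz.1 hz.2.2.1
  simp only at hβ0 hβa
  have hc := c_contAt hP hB
  -- on `N` the curve is the graph of `β`
  have h4 : ∀ᶠ p : ℂ × ℂ in 𝓝 (L, z), ((D.c p.1, p.2) ∈ Per D.n ↔ β (D.c p.1) = p.2) :=
    (pair_contAt hP hB z).tendsto.eventually hβ
  have h5 : ∀ᶠ L' in 𝓝 L, ∀ z' ∈ NN D L',
      (L', z') ∈ {p : ℂ × ℂ | (D.c p.1, p.2) ∈ Per D.n ↔ β (D.c p.1) = p.2} := by
    refine NN_limit h2 h3 h8 hP hC hR hL fun z' hz' => ?_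
    rw [hsub hz' hz]
    exact h4
  have h5' : ∀ᶠ L' in 𝓝 L, ∀ z' ∈ NN D L', z' = β (D.c L') := by
    filter_upwards [h5] with L' h6 z' hz'
    exact ((h6 z' hz').1 hz'.1).symm
  have h6 := NN_nhds h2 h3 h3' hP hC hR hL hz
  have h7 : ∀ᶠ p : ℂ × ℂ in 𝓝 (L, z), (D.c p.1, p.2) ∈ Per D.n →
      (p.2 ∈ NN D p.1 ∨ (NN D p.1 = ∅ ∧ p.2 ∈ AA D p.1)) := by
    filter_upwards [h4, h6, (continuousAt_fst (p := ((L, z) : ℂ × ℂ))).tendsto.eventually h5']
      with p h8 h9 h10 h11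
    rcases le_or_gt 1 ‖mul D.n (D.c p.1, p.2)‖ with h12 | h12
    · exact Or.inl (h9 h11 h12)
    · refine Or.inr ⟨?_, h11, h12⟩
      rw [eq_empty_iff_forall_notMem]
      intro z' hz'
      have h13 := h10 z' hz'
      rw [h8.1 h11] at h13
      subst h13
      exact absurd hz'.2.1 (not_le.2 h12)
  refine ⟨h7, ?_⟩
  have h8 : Tendsto (fun L' => β (D.c L')) (𝓝 L) (𝓝 z) := by
    rw [← hβ0]; exact hβa.continuousAt.tendsto.comp hc.tendsto
  have h9 : Tendsto (fun L' => ((L', β (D.c L')) : ℂ × ℂ)) (𝓝 L) (𝓝 (L, z)) :=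
    tendsto_id.prodMk_nhds h8
  have h10 : Tendsto (fun L' => ((D.c L', β (D.c L')) : ℂ × ℂ)) (𝓝 L) (𝓝 (D.c L, z)) :=
    hc.tendsto.prodMk_nhds h8
  filter_upwards [h9.eventually h7, h10.eventually hβ, h5', hR.openI.mem_nhds hL] with L' h11 h12
    h13 h14
  refine ⟨h14, ?_, ?_⟩
  · intro z₁ h15 z₂ h16
    rw [h13 z₁ h15, h13 z₂ h16]
  · intro h15
    rcases h11 (h12.2 rfl) with h16 | h16
    · rw [h15] at h16; exact absurd h16 (notMem_empty _)
    · exact ⟨_, h16.2⟩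

lemma NN_empty_nhds (h2 : S2_unique) (h3 : S3_closed) (h8 : S8_side) (hP : D.Par)
    (hC : D.Cir) (hR : Regions D) {L : ℂ} (hL : L ∈ D.RI) (h : NN D L = ∅) :
    ∀ᶠ L' in 𝓝 L, NN D L' = ∅ := by
  have h1 := NN_limit h2 h3 h8 hP hC hR hL (N := ∅) (by
    intro z hz; rw [h] at hz; exact absurd hz (notMem_empty _))
  filter_upwards [h1] with L' h4
  rw [eq_empty_iff_forall_notMem]
  exact fun z hz => h4 z hz

lemma NN_ext_iff (h2 : S2_unique) (hP : D.Par) (hC : D.Cir) (hR : Regions D) {L z : ℂ} {θ : ℝ}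
    (hL : L ∈ D.RI) (h : D.Th L θ) : z ∈ NN D L ↔ ExtP D.n (D.c L) z θ D.u := by
  constructor
  · rintro hz
    exact closure_nj_ext h2 hP hC hR hL h hz.1 hz.2.2.2
  · intro hz
    have h4 := nj_of_ext hP hC hL h hz
    refine ⟨h4.1, h4.2.1.le, ?_, subset_closure h4⟩
    intro h0
    have := h4.2.1
    rw [h0] at this
    simp at this

/-- **all parameters of the wake are good** -/
theorem VV_eq (h2 : S2_unique) (h3 : S3_closed) (h3' : S3_neutral) (h7 : S7_parab)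
    (h8 : S8_side) (hP : D.Par) (hC : D.Cir) (hR : Regions D) {L : ℂ} (hL : L ∈ D.RI) :
    L ∈ VV D := by
  -- `VV` is open
  have hopen : ∀ L ∈ VV D, ∀ᶠ L' in 𝓝 L, L' ∈ VV D := by
    rintro L ⟨hL, h4, h5⟩
    rcases (NN D L).eq_empty_or_nonempty with h6 | ⟨z, hz⟩
    · obtain ⟨z, hz⟩ := h5 h6
      filter_upwards [NN_empty_nhds h2 h3 h8 hP hC hR hL h6, (AA_nhds hP (U_sub_B hP hL.1) hz).2,
        hR.openI.mem_nhds hL] with L' h9 h10 h11
      refine ⟨h11, ?_, fun _ => h10⟩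
      rw [h9]; exact subsingleton_empty
    · exact (NN_struct h2 h3 h3' h8 hP hC hR hL hz h4).2
  -- and closed in the wake
  have hclosed : ∀ L ∈ D.RI, L ∈ closure (VV D) → L ∈ VV D := by
    intro L hL hcl
    have hB := U_sub_B hP hL.1
    have hn := Par_n_pos hP
    have hfreq : ∃ᶠ L' in 𝓝 L, L' ∈ VV D := mem_closure_iff_frequently.1 hcl
    have hc := c_contAt hP hB
    refine ⟨hL, ?_, ?_⟩
    · intro z hz z' hz'
      by_contra hne
      have hfr : ¬ ∃ᶠ L' in 𝓝 L, D.c L' ∉ MM := fun hfr =>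
        hne (NN_unique_frontier h2 h3 h3' hP hC hR hL hz hz' hfr)
      -- both are repelling
      have hrep : ∀ y ∈ NN D L, 1 < ‖mul D.n (D.c L, y)‖ := by
        intro y hy
        rcases hy.2.1.lt_or_eq with h9 | h9
        · exact h9
        · exfalso
          obtain ⟨φ, hφ0, hφ1, hφ⟩ := exists_phi h9.symm hy.2.2.1
          obtain ⟨-, -, h10⟩ := h3' D.n (D.c L, y) φ hn hy.1 hφ0 hφ1 hφ
          exact hfr (frequently_ext hP hB h10)
      have hpers : ∀ y ∈ NN D L, ∃ γ : ℂ → ℂ, Tendsto γ (𝓝 L) (𝓝 y) ∧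
          ∀ᶠ L' in 𝓝 L, γ L' ∈ NN D L' := by
        intro y hy
        obtain ⟨β, hβa, hβ0, hβ⟩ := chart hy.1 hy.2.2.1
        simp only at hβ0 hβa
        have h9 : Tendsto (fun L' => β (D.c L')) (𝓝 L) (𝓝 y) := by
          rw [← hβ0]; exact hβa.continuousAt.tendsto.comp hc.tendsto
        have h10 : Tendsto (fun L' => ((L', β (D.c L')) : ℂ × ℂ)) (𝓝 L) (𝓝 (L, y)) :=
          tendsto_id.prodMk_nhds h9
        have h11 : Tendsto (fun L' => ((D.c L', β (D.c L')) : ℂ × ℂ)) (𝓝 L) (𝓝 (D.c L, y)) :=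
          hc.tendsto.prodMk_nhds h9
        refine ⟨fun L' => β (D.c L'), h9, ?_⟩
        have h12 : ∀ᶠ L' in 𝓝 L, 1 < ‖mul D.n (D.c L', β (D.c L'))‖ :=
          h11.eventually ((continuous_mul' D.n).norm.continuousAt.eventually
            (lt_mem_nhds (hrep y hy)))
        filter_upwards [h10.eventually (NN_nhds h2 h3 h3' hP hC hR hL hy), h11.eventually hβ, h12]
          with L' h13 h14 h15
        exact h13 (h14.2 rfl) h15.le
      obtain ⟨γ, hγ, hγ'⟩ := hpers z hz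
      obtain ⟨γ', hγ₁, hγ₁'⟩ := hpers z' hz'
      have h9 : ∀ᶠ L' in 𝓝 L, γ L' - γ' L' ≠ 0 := (hγ.sub hγ₁).eventually_ne (sub_ne_zero.2 hne)
      obtain ⟨L', h10, h11, h12, h13⟩ :=
        (hfreq.and_eventually (hγ'.and (hγ₁'.and h9))).exists
      exact h13 (sub_eq_zero.2 (h10.2.1 h11 h12))
    · intro hem
      have h9 := NN_empty_nhds h2 h3 h8 hP hC hR hL hem
      have h10 : ∃ᶠ L' in 𝓝 L, ∃ z, (D.c L', z) ∈ Per D.n ∧ ‖mul D.n (D.c L', z)‖ < 1 := by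
        refine (hfreq.and_eventually h9).mono ?_
        rintro L' ⟨h11, h12⟩
        obtain ⟨z, hz⟩ := h11.2.2 h12
        exact ⟨z, hz.1, hz.2⟩
      obtain ⟨z, hz⟩ := cluster hn hc h10
      have hcont := pair_contAt hP hB z
      have hz' : ∃ᶠ s in 𝓝 (D.c L, z), s ∈ Per D.n ∧ ‖mul D.n s‖ < 1 :=
        hcont.tendsto.frequently hz
      have h11 : (D.c L, z) ∈ Per D.n ∩ {s | ‖mul D.n s‖ ≤ 1} := by
        have h12 : (D.c L, z) ∈ closure (Per D.n ∩ {s | ‖mul D.n s‖ ≤ 1}) :=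
          mem_closure_iff_frequently.2 (hz'.mono fun s hs => ⟨hs.1, hs.2.le⟩)
        exact ((isClosed_Per D.n).inter
          (isClosed_le (continuous_mul' D.n).norm continuous_const)).closure_eq ▸ h12
      rcases (show ‖mul D.n (D.c L, z)‖ ≤ 1 from h11.2).lt_or_eq with h12 | h12
      · exact ⟨z, h11.1, h12⟩
      · exfalso
        have hfr : ∃ᶠ c in 𝓝 (D.c L), c ∉ MM := by
          by_cases h13 : mul D.n (D.c L, z) = 1
          · exact h7 D.n (D.c L, z) hn h11.1 h13 hz'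
          · obtain ⟨φ, hφ0, hφ1, hφ⟩ := exists_phi h12 h13
            exact (h3' D.n (D.c L, z) φ hn h11.1 hφ0 hφ1 hφ).2.2
        obtain ⟨L', h13, h14, h15⟩ := ((frequently_ext hP hB hfr).and_eventually
          (h9.and (hR.openI.mem_nhds hL))).exists
        obtain ⟨θ, hθ⟩ := hP.ang L' (U_sub_B hP h15.1) h13
        obtain ⟨y, hy⟩ := exists_u hP hC hθ
        have h16 := (NN_ext_iff h2 hP hC hR h15 hθ).2 hy
        rw [h14] at h16
        exact absurd h16 (notMem_empty _)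
  by_contra hcon
  have hV'o : IsOpen (D.RI \ VV D) := by
    rw [isOpen_iff_mem_nhds]
    rintro L' ⟨h9, h10⟩
    have h11 : L' ∉ closure (VV D) := fun h => h10 (hclosed L' h9 h)
    filter_upwards [hR.openI.mem_nhds h9, isClosed_closure.isOpen_compl.mem_nhds h11] with L'' h12
      h13
    exact ⟨h12, fun h => h13 (subset_closure h)⟩
  obtain ⟨L', ⟨h9, h10⟩, h11⟩ := hR.meetI (D.RI \ VV D) sdiff_subset ⟨L, hL, hcon⟩ hV'o (by
    intro L' h9 h10
    refine ⟨h9, fun h11 => ?_⟩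
    obtain ⟨L'', h12, h13⟩ := ((mem_closure_iff_frequently.1 h10).and_eventually
      (hopen L' h11)).exists
    exact h12.2 h13)
  apply h10
  obtain ⟨θ, hθ⟩ := hP.ang L' (U_sub_B hP h9.1) h11.2
  obtain ⟨y, hy⟩ := exists_u hP hC hθ
  refine ⟨h9, ?_, ?_⟩
  · intro z₁ h12 z₂ h13
    rw [NN_ext_iff h2 hP hC hR h9 hθ] at h12 h13
    exact extP_inj (Par_n_pos hP) h12 h13
  · intro h12
    have h13 := (NN_ext_iff h2 hP hC hR h9 hθ).2 hy
    rw [h12] at h13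
    exact absurd h13 (notMem_empty _)

lemma ZI_it (_hP : D.Par) {L z : ℂ} (hz : z ∈ ZI D L) (i : ℕ) : it (D.c L) i z ∈ ZI D L := by
  rcases hz with ⟨z₀, h1, j, rfl⟩ | ⟨h1, h2⟩
  · exact Or.inl ⟨z₀, h1, i + j, it_comp _ _ _ _⟩
  · exact Or.inr ⟨h1, Per_it h2.1 i, by rw [mul_it' h2.1 i]; exact h2.2⟩

/-- **the inner part** -/
theorem cycI (h2 : S2_unique) (h3 : S3_closed) (h3' : S3_neutral) (h7 : S7_fatou)
    (h7' : S7_parab) (h8 : S8_side) (hP : D.Par) (hC : D.Cir) (hR : Regions D) :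
    CycFam D.n D.c D.RI (ZI D) where
  ne := by
    intro L hL
    obtain ⟨-, h4, h5⟩ := VV_eq h2 h3 h3' h7' h8 hP hC hR hL
    rcases (NN D L).eq_empty_or_nonempty with h6 | ⟨z, hz⟩
    · obtain ⟨z, hz⟩ := h5 h6
      exact ⟨z, Or.inr ⟨h6, hz⟩⟩
    · exact ⟨z, Or.inl ⟨z, hz, 0, rfl⟩⟩
  fix := by
    rintro L hL z (⟨z₀, h4, i, rfl⟩ | ⟨h4, h5⟩)
    · refine ⟨Per_it h4.1 i, ?_⟩
      rw [mul_it' h4.1 i]
      exact h4.2.2.1
    · refine ⟨h5.1, fun h0 => ?_⟩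
      have := h5.2
      rw [h0] at this
      simp at this
  cyc := by
    intro L hL z hz z'
    have hn := Par_n_pos hP
    obtain ⟨-, h4, h5⟩ := VV_eq h2 h3 h3' h7' h8 hP hC hR hL
    constructor
    · intro hz'
      rcases hz with ⟨z₀, h6, i, rfl⟩ | ⟨h6, h9⟩
      · rcases hz' with ⟨z₁, h10, j, rfl⟩ | ⟨h10, -⟩
        · have h11 := h4 h6 h10
          subst h11
          refine ⟨j + (D.n * i - i), ?_⟩
          rw [it_add, it_back hn h6.1 i]
        · rw [h10] at h6; exact absurd h6 (notMem_empty _)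
      · rcases hz' with ⟨z₁, h10, j, rfl⟩ | ⟨-, h10⟩
        · rw [h6] at h10; exact absurd h10 (notMem_empty _)
        · exact h7 (D.c L) z z' D.n D.n hn hn h9.1 h9.2 h10.1 h10.2
    · rintro ⟨i, rfl⟩
      exact ZI_it hP hz i
  cont := by
    intro L hL z hz
    have hn := Par_n_pos hP
    have hB := U_sub_B hP hL.1
    obtain ⟨-, h4, h5⟩ := VV_eq h2 h3 h3' h7' h8 hP hC hR hL
    rcases hz with ⟨z₀, h6, i, rfl⟩ | ⟨h6, h9⟩
    · refine cont_of_branch hn i (c_contAt hP hB) h6.1 ?_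
        (Eventually.of_forall fun L' z hz i => ZI_it hP hz i)
      filter_upwards [(NN_struct h2 h3 h3' h8 hP hC hR hL h6 h4).1] with p h10 h11
      rcases h10 h11 with h12 | h12
      · exact Or.inl ⟨p.2, h12, 0, rfl⟩
      · exact Or.inr h12
    · filter_upwards [(AA_nhds hP hB h9).1,
        (continuousAt_fst (p := ((L, z) : ℂ × ℂ))).tendsto.eventually
          (NN_empty_nhds h2 h3 h8 hP hC hR hL h6)] with p h10 h11 h12
      exact Or.inr ⟨h11, h10 h12⟩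

theorem ZI_eq_ZE (h2 : S2_unique) (hP : D.Par) (hC : D.Cir) (hR : Regions D) {L : ℂ}
    (hL : L ∈ D.RI ∩ D.RE) : ZI D L = D.ZE L := by
  obtain ⟨θ, hθ⟩ := hP.ang L (U_sub_B hP hL.1.1) hL.2.2
  obtain ⟨y, hy⟩ := exists_u hP hC hθ
  have hy' := (NN_ext_iff h2 hP hC hR hL.1 hθ).2 hy
  ext z
  rw [ZE_iff hP hθ hy]
  constructor
  · rintro (⟨z₀, h4, i, rfl⟩ | ⟨h4, -⟩)
    · rw [NN_ext_iff h2 hP hC hR hL.1 hθ] at h4
      have := extP_inj (Par_n_pos hP) h4 hy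
      subst this
      exact ⟨i, rfl⟩
    · rw [h4] at hy'; exact absurd hy' (notMem_empty _)
  · rintro ⟨i, rfl⟩
    exact Or.inl ⟨y, hy', i, rfl⟩

end

/-- **S9** -/
theorem s9_inner (h2 : S2_unique) (h3 : S3_closed) (h3' : S3_neutral) (h7 : S7_fatou)
    (h7' : S7_parab) (h8 : S8_side) : S9_inner := by
  intro D hP hC hR
  refine ⟨ZI D, cycI h2 h3 h3' h7 h7' h8 hP hC hR, fun L hL => ZI_eq_ZE h2 hP hC hR hL, ?_⟩
  intro L hL z hz
  exact Or.inl ⟨z, closure_NN h2 h3 h8 hP hC hR hL (subset_closure hz), 0, rfl⟩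

/-- **S9'**: gluing -/
theorem s9_glue (h6 : S6_outer) (h9 : S9_inner) : S9_glue := by
  classical
  intro D hP hC hR
  obtain ⟨ZO, hO1, hO2, hO3, hO4⟩ := h6 D hP hC hR
  obtain ⟨ZN, hI1, hI2, hI3⟩ := h9 D hP hC hR
  have hE := cycE hP hC
  set Z : ℂ → Set ℂ := fun L => if L ∈ D.RI then ZN L else if L ∈ D.RO then ZO L else D.ZE L
    with hZ
  have zI : ∀ L ∈ D.RI, Z L = ZN L := fun L hL => by simp [hZ, hL]
  have zO : ∀ L ∈ D.RO, Z L = ZO L := fun L hL => by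
    have : L ∉ D.RI := fun h => (disjoint_left.1 hR.disj) h hL
    simp [hZ, hL, this]
  have zE : ∀ L ∈ D.RE, Z L = D.ZE L := fun L hL => by
    by_cases h1 : L ∈ D.RI
    · rw [zI L h1, hI2 L ⟨h1, hL⟩]
    · by_cases h2 : L ∈ D.RO
      · rw [zO L h2, hO3 L ⟨h2, hL⟩]
      · simp [hZ, h1, h2]
  -- locally `Z` is one of the three families
  have hloc : ∀ L ∈ D.U, ∃ (V : Set ℂ) (Z' : ℂ → Set ℂ), IsOpen V ∧ L ∈ V ∧
      CycFam D.n D.c V Z' ∧ ∀ L' ∈ V, Z L' = Z' L' := by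
    intro L hL
    rcases hR.cover hL with (h | h) | h
    · exact ⟨D.RE, D.ZE, hR.openE, h, hE, zE⟩
    · exact ⟨D.RI, ZN, hR.openI, h, hI1, zI⟩
    · exact ⟨D.RO, ZO, hR.openO, h, hO1, zO⟩
  refine ⟨Z, ⟨?_, ?_, ?_, ?_⟩, zE, ?_, ?_⟩
  · intro L hL
    obtain ⟨V, Z', hV, hLV, hF, he⟩ := hloc L hL
    rw [he L hLV]; exact hF.ne L hLV
  · intro L hL z hz
    obtain ⟨V, Z', hV, hLV, hF, he⟩ := hloc L hL
    rw [he L hLV] at hz; exact hF.fix L hLV z hz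
  · intro L hL z hz z'
    obtain ⟨V, Z', hV, hLV, hF, he⟩ := hloc L hL
    rw [he L hLV] at hz ⊢; exact hF.cyc L hLV z hz z'
  · intro L hL z hz
    obtain ⟨V, Z', hV, hLV, hF, he⟩ := hloc L hL
    rw [he L hLV] at hz
    filter_upwards [hF.cont L hLV z hz,
      (continuousAt_fst (p := ((L, z) : ℂ × ℂ))).tendsto.eventually (hV.mem_nhds hLV)]
      with p h1 h2 h3
    rw [he p.1 h2]
    exact h1 h3
  · intro L hL
    rw [zO L hL]
    exact ⟨fun z hz => hO4 L hL z hz, fun z hz d hd hd' => hO2 L hL z hz d hd hd'⟩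
  · intro L hL z hz
    rw [zI L hL]
    exact hI3 L hL z hz

end Pool.Agent.Work.MLC.Sat
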