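import Pool.Agent.Work.MLC.NV3

set_option autoImplicit false

/-! # Uncountably many parameters satisfy the hypothesis of the main theorem (helper6, after
helper13's `NV2`) -/

namespace Pool.Agent.Work.MLC

open Filter Topology Metric Set

/-- `next_root13` with a finite set to avoid -/
theorem next_root_avoid {κ : ℝ} (hI : Inputs κ) {n : ℕ} (hn : 0 < n) {c₁ b₁ : ℂ} (h : Attr n c₁ b₁)
    {F : Set ℂ} (hF : F.Finite) {B : ℝ} (hB : 0 < B) :
    ∃ (p q : ℕ) (x : ℚ) (σ : ℂ → ℂ × ℂ) (V : Set ℂ), 0 < p ∧ p < q ∧ Nat.Coprime p q ∧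
      (x : ℝ) = p / q ∧ x.den = q ∧
      B * (n : ℝ) ^ 2 * q ≤ (min (p : ℝ) (q - p)) ^ 2 ∧
      ContinuousOn σ (ball (axisPt x) (κ * (min (x : ℝ) (1 - x)) ^ 2 / n)) ∧
      (∀ L ∈ ball (axisPt x) (κ * (min (x : ℝ) (1 - x)) ^ 2 / n),
        σ L ∈ Per n ∧ mul n (σ L) = Complex.exp L) ∧
      (σ (axisPt x)).1 ∉ F ∧
      IsPreconnected V ∧ c₁ ∈ V ∧ V ⊆ interior MS ∧
      (∀ L ∈ ball (axisPt x) (κ * (min (x : ℝ) (1 - x)) ^ 2 / n), L.re < 0 → (σ L).1 ∈ V) := by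
  have hκ := hI.κ_pos
  have hn' : (0 : ℝ) < n := by exact_mod_cast hn
  obtain ⟨c₂, b₂, W, hA2, hne0, hWc, hc1W, hc2W, hWM⟩ := h.move hI hn
  have hGL := goodDom_left hn
  have hLconv : Convex ℝ {L : ℂ | L.re < 0} := convex_halfSpace_re_lt 0
  have hlogre : (Complex.log (mul n (c₂, b₂))).re < 0 := by
    rw [Complex.log_re]
    exact Real.log_neg (norm_pos_iff.2 hne0) hA2.2
  obtain ⟨σ₁, hσ₁, hσ₁', hσ₁0⟩ := exists_section hGL hLconv hA2.1 hlogre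
    (Complex.exp_log hne0).symm
  -- the rational numbers
  set x : ℕ → ℚ := fun p => (p : ℚ) / (2 * p + 1) with hx
  set R : ℕ → ℝ := fun p => κ * (min (x p : ℝ) (1 - x p)) ^ 2 / n with hR
  have hx0 : ∀ p, 0 < p → 0 < x p := by
    intro p hp
    have h1 : (0 : ℚ) < p := by exact_mod_cast hp
    simp only [hx]; positivity
  have hx1 : ∀ p, x p < 1 := by
    intro p
    simp only [hx]
    have h1 : (0 : ℚ) ≤ p := by positivity
    rw [div_lt_one (by positivity)]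
    linarith
  have hR0 : ∀ p, 0 < p → 0 < R p := by
    intro p hp
    have h1 : (0 : ℝ) < x p := by exact_mod_cast hx0 p hp
    have h2 : (x p : ℝ) < 1 := by exact_mod_cast hx1 p
    have h3 : 0 < min (x p : ℝ) (1 - x p) := lt_min h1 (by linarith)
    simp only [hR]
    positivity
  have key : ∀ p, 0 < p → ∃ σ : ℂ → ℂ × ℂ, ContinuousOn σ (ball (axisPt (x p)) (R p)) ∧
      (∀ L ∈ ball (axisPt (x p)) (R p), σ L ∈ Per n ∧ mul n (σ L) = Complex.exp L) ∧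
      (∀ L ∈ ball (axisPt (x p)) (R p), L.re < 0 → σ₁ L = σ L) := by
    intro p hp
    have hG : GoodDom n (ball (axisPt (x p)) (R p)) := hI.good n hn (x p) (hx0 p hp) (hx1 p)
    have hRp := hR0 p hp
    set L₂ : ℂ := axisPt (x p) - ((R p / 2 : ℝ) : ℂ) with hL₂
    have hL₂D : L₂ ∈ ball (axisPt (x p)) (R p) := by
      rw [mem_ball, dist_eq_norm, hL₂, sub_sub_cancel_left, norm_neg, Complex.norm_real,
        Real.norm_eq_abs, abs_of_pos (by positivity)]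
      linarith
    have hL₂re : L₂.re < 0 := by
      rw [hL₂, Complex.sub_re, LimbData.axisPt_re, Complex.ofReal_re]
      linarith
    obtain ⟨σ, hσ, hσ', hσ0⟩ := exists_section hG (convex_ball _ _) (hσ₁' L₂ hL₂re).1 hL₂D
      (hσ₁' L₂ hL₂re).2
    refine ⟨σ, hσ, hσ', fun L hL hre => ?_⟩
    have hs : IsPreconnected (ball (axisPt (x p)) (R p) ∩ {L : ℂ | L.re < 0}) :=
      ((convex_ball _ _).inter hLconv).isPreconnected
    exact section_unique hG hσ hσ' hs (g := σ₁) (l := fun L => L)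
      (hσ₁.mono inter_subset_right) continuousOn_id
      (fun a ha => ⟨(hσ₁' a ha.2).1, ha.1, (hσ₁' a ha.2).2⟩) (a₀ := L₂) ⟨hL₂D, hL₂re⟩
      hσ0.symm L ⟨hL, hre⟩
  choose! σ hσ hσ' hσe using key
  -- a good index
  obtain ⟨P, hP⟩ := exists_nat_gt (3 * B * (n : ℝ) ^ 2)
  have hP0 : 0 < P := by
    have : (0 : ℝ) < P := lt_of_le_of_lt (by positivity) hP
    exact_mod_cast this
  obtain ⟨p, hpP, hpr⟩ : ∃ p, P ≤ p ∧ (σ p (axisPt (x p))).1 ∉ F := by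
    by_contra hcon
    push Not at hcon
    have hinf : (Set.Ici P).Infinite := Set.Ici_infinite P
    refine hinf ?_
    refine Set.Finite.of_finite_image (f := fun p => Complex.exp (axisPt (x p))) ?_ ?_
    · refine (hF.biUnion fun r _ => finite_mults hn r).subset ?_
      rintro _ ⟨p, hp, rfl⟩
      have hp0 : 0 < p := lt_of_lt_of_le hP0 hp
      have h1 := hσ' p hp0 (axisPt (x p)) (mem_ball_self (hR0 p hp0))
      have h2 := hcon p hp
      refine mem_iUnion₂.2 ⟨(σ p (axisPt (x p))).1, h2, (σ p (axisPt (x p))).2, ?_, ?_⟩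
      · exact h1.1
      · exact h1.2
    · intro p hp p' hp' heq
      have hp0 : 0 < p := lt_of_lt_of_le hP0 hp
      have hp0' : 0 < p' := lt_of_lt_of_le hP0 hp'
      have h1 := exp_axisPt_inj (hx0 p hp0) (hx1 p) (hx0 p' hp0') (hx1 p') heq
      simp only [hx] at h1
      rw [div_eq_div_iff (by positivity) (by positivity)] at h1
      have h2 : (p : ℚ) = p' := by linarith
      exact_mod_cast h2
  have hp0 : 0 < p := lt_of_lt_of_le hP0 hpP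
  have hp' : (0 : ℝ) < p := by exact_mod_cast hp0
  have hcop : Nat.Coprime p (2 * p + 1) := by
    rw [Nat.coprime_iff_gcd_eq_one]
    simp
  refine ⟨p, 2 * p + 1, x p, σ p, W ∪ (fun L => (σ₁ L).1) '' {L : ℂ | L.re < 0}, hp0, by omega,
    hcop, ?_, ?_, ?_, hσ p hp0, hσ' p hp0, hpr, ?_, Or.inl hc1W, ?_, ?_⟩
  · simp only [hx]; push_cast; rfl
  · have h1 := Rat.den_div_eq_of_coprime (a := (p : ℤ)) (b := ((2 * p + 1 : ℕ) : ℤ)) (by omega)
      (by rw [Int.natAbs_natCast, Int.natAbs_natCast]; exact hcop)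
    have h2 : (((p : ℤ) : ℚ) / (((2 * p + 1 : ℕ) : ℤ) : ℚ)) = x p := by
      simp only [hx]; push_cast; rfl
    rw [h2] at h1
    exact_mod_cast h1
  · have h1 : min (p : ℝ) (((2 * p + 1 : ℕ) : ℝ) - p) = p := by
      apply min_eq_left
      push_cast
      linarith
    rw [h1]
    have h2 : 3 * B * (n : ℝ) ^ 2 ≤ p := hP.le.trans (by exact_mod_cast hpP)
    have h3 : (1 : ℝ) ≤ p := by exact_mod_cast hp0
    push_cast
    have h4 : 0 < B * (n : ℝ) ^ 2 := by positivity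
    calc B * (n : ℝ) ^ 2 * (2 * p + 1) ≤ B * (n : ℝ) ^ 2 * (3 * p) := by
          gcongr; linarith
      _ = (3 * B * (n : ℝ) ^ 2) * p := by ring
      _ ≤ p * p := by gcongr
      _ = (p : ℝ) ^ 2 := by ring
  · refine IsPreconnected.union c₂ hc2W ⟨_, hlogre, ?_⟩ hWc ?_
    · show (σ₁ _).1 = c₂
      rw [hσ₁0]
    · exact hLconv.isPreconnected.image _ (continuous_fst.comp_continuousOn hσ₁)
  · rintro z (hz | ⟨L, hL, rfl⟩)
    · exact hWM hz
    · have h1 := hσ₁' L hL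
      have h2 : Attr n (σ₁ L).1 (σ₁ L).2 := by
        refine ⟨h1.1, ?_⟩
        show ‖mul n (σ₁ L)‖ < 1
        rw [h1.2, Complex.norm_exp]
        exact Real.exp_lt_one_iff.2 hL
      exact h2.interior hI hn
  · intro L hL hre
    right
    refine ⟨L, hre, ?_⟩
    show (σ₁ L).1 = (σ p L).1
    rw [hσe p hp0 L hL hre]


namespace NV

/-- a root next to a stage gives a stage -/
theorem stage_sub {κ : ℝ} (hI : Inputs κ) {n : ℕ} {K : Set ℂ} {r : ℂ} (h : Stage κ n K r)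
    {n₁ : ℕ} {c₁ : ℂ} {S : Set ℂ} (hn₁ : 0 < n₁) (hS : IsPreconnected S) (hrS : r ∈ S)
    (hcS : c₁ ∈ S) (hcK : c₁ ∈ K) (hSi : S ⊆ insert r (interior MS))
    {p q : ℕ} {x : ℚ} {σ : ℂ → ℂ × ℂ} {V : Set ℂ} (hp : 0 < p) (hpq : p < q)
    (hcop : Nat.Coprime p q) (hx : (x : ℝ) = p / q) (hxd : x.den = q)
    (hB : 288 * Real.log 2 / κ * (n₁ : ℝ) ^ 2 * q ≤ (min (p : ℝ) (q - p)) ^ 2)
    (hσ : ContinuousOn σ (ball (axisPt x) (κ * (min (x : ℝ) (1 - x)) ^ 2 / n₁)))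
    (hσ' : ∀ L ∈ ball (axisPt x) (κ * (min (x : ℝ) (1 - x)) ^ 2 / n₁),
      σ L ∈ Per n₁ ∧ mul n₁ (σ L) = Complex.exp L)
    (hne : (σ (axisPt x)).1 ≠ r) (hV : IsPreconnected V) (hcV : c₁ ∈ V) (hVi : V ⊆ interior MS)
    (hVL : ∀ L ∈ ball (axisPt x) (κ * (min (x : ℝ) (1 - x)) ^ 2 / n₁), L.re < 0 → (σ L).1 ∈ V) :
    ∃ K' : Set ℂ, Stage κ n₁ K' (σ (axisPt x)).1 ∧ K' ⊆ K \ {r} ∧
      (∀ U : Set ℂ, IsPreconnected U → U ⊆ MS \ {(σ (axisPt x)).1} → c₁ ∈ U →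
        ∀ z ∈ U, z ∉ K') ∧ IsPreconnected (insert (σ (axisPt x)).1 V) := by
  have hκ := hI.κ_pos
  have hlog : 0 < Real.log 2 := Real.log_pos (by norm_num)
  obtain ⟨K', hK', hK'2⟩ := mk_stage hI hn₁ hp hpq hcop hx hxd hB hσ hσ'
  set r' := (σ (axisPt x)).1 with hr'
  have hrM : r ∈ MS := h.sub h.root
  have hr'i : r' ∉ interior MS := hK'.front.2
  have hri : r ∉ interior MS := h.front.2
  have hVr0 : V ⊆ MS \ {r'} := by
    intro z hz
    refine ⟨interior_subset (hVi hz), fun h0 => hr'i ?_⟩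
    rw [← mem_singleton_iff.1 h0]; exact hVi hz
  -- `r ∉ K'`
  have hrK' : r ∉ K' := by
    refine hK'2 (V ∪ S) (IsPreconnected.union c₁ hcV hcS hV hS) ?_ ?_ r (Or.inr hrS)
    · rintro z (hz | hz)
      · exact hVr0 hz
      · rcases hSi hz with h0 | h0
        · rw [h0]
          exact ⟨hrM, fun h1 => hne (mem_singleton_iff.1 h1).symm⟩
        · refine ⟨interior_subset h0, fun h1 => hr'i ?_⟩
          rw [← mem_singleton_iff.1 h1]; exact h0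
    · intro L hL hre
      exact Or.inl (hVL L hL hre)
  -- `r' ∈ closure V`
  set R : ℝ := κ * (min (x : ℝ) (1 - x)) ^ 2 / n₁ with hR
  have hq : 0 < q := hp.trans hpq
  have hq' : (0 : ℝ) < q := by exact_mod_cast hq
  have hp' : (0 : ℝ) < p := by exact_mod_cast hp
  have hpq' : (p : ℝ) < q := by exact_mod_cast hpq
  have hR0 : 0 < R := by
    have h1 : (0 : ℝ) < x := by rw [hx]; positivity
    have h2 : (x : ℝ) < 1 := by rw [hx, div_lt_one hq']; exact hpq'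
    have h3 : 0 < min (x : ℝ) (1 - x) := lt_min h1 (by linarith)
    have h4 : (0 : ℝ) < n₁ := by exact_mod_cast hn₁
    positivity
  have hcen : axisPt x ∈ ball (axisPt x) R := mem_ball_self hR0
  have hr'V : r' ∈ closure V := by
    have hc : ContinuousAt (fun L => (σ L).1) (axisPt x) :=
      continuous_fst.continuousAt.comp (hσ.continuousAt (isOpen_ball.mem_nhds hcen))
    rw [mem_closure_iff_nhds]
    intro N hN
    have h1 := hc.preimage_mem_nhds hN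
    obtain ⟨δ, hδ, hδN⟩ := Metric.mem_nhds_iff.1
      (inter_mem h1 (isOpen_ball.mem_nhds hcen : ball (axisPt x) R ∈ 𝓝 (axisPt x)))
    obtain ⟨L, hLb, hLre⟩ := LimbData.left_nonempty x hδ
    exact ⟨(σ L).1, (hδN hLb).1, hVL L (hδN hLb).2 hLre⟩
  have hVr : IsPreconnected (insert r' V) :=
    hV.subset_closure (subset_insert _ _) (insert_subset hr'V subset_closure)
  have hcr : c₁ ≠ r := fun h0 => hri (h0 ▸ hVi hcV)
  have h1 : insert r' V ⊆ K := by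
    refine conn_sub hI.cpt.isClosed h.cpt.isClosed h.opn hVr ?_ ⟨c₁, Or.inr hcV, hcK⟩
    rintro z (hz | hz)
    · rw [hz]
      exact ⟨hK'.sub hK'.root, fun h0 => hne (mem_singleton_iff.1 h0)⟩
    · refine ⟨interior_subset (hVi hz), fun h0 => hri ?_⟩
      rw [← mem_singleton_iff.1 h0]; exact hVi hz
  have h2 : K' ⊆ K := by
    refine conn_sub hI.cpt.isClosed h.cpt.isClosed h.opn hK'.conn ?_
      ⟨r', hK'.root, h1 (Or.inl rfl)⟩
    intro z hz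
    exact ⟨hK'.sub hz, fun h0 => hrK' (by rw [← mem_singleton_iff.1 h0]; exact hz)⟩
  refine ⟨K', hK', fun z hz => ⟨h2 hz, fun h0 => hrK' (by rw [← mem_singleton_iff.1 h0]; exact hz)⟩,
    fun U hU hUM hcU z hz => ?_, hVr⟩
  exact hK'2 (V ∪ U) (IsPreconnected.union c₁ hcV hcU hV hU)
    (union_subset hVr0 hUM) (fun L hL hre => Or.inl (hVL L hL hre)) z (Or.inr hz)

/-- two disjoint stages below a stage -/
theorem stage_two {κ : ℝ} (hI : Inputs κ) {n : ℕ} {K : Set ℂ} {r : ℂ} (h : Stage κ n K r) :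
    ∃ (n' : ℕ) (K₁ : Set ℂ) (r₁ : ℂ) (K₂ : Set ℂ) (r₂ : ℂ), n < n' ∧ Stage κ n' K₁ r₁ ∧
      Stage κ n' K₂ r₂ ∧ K₁ ⊆ K \ {r} ∧ K₂ ⊆ K \ {r} ∧ Disjoint K₁ K₂ := by
  have hκ := hI.κ_pos
  have hlog : 0 < Real.log 2 := Real.log_pos (by norm_num)
  obtain ⟨n₁, c₁, b₁, S, hnn, hA, hS, hrS, hcS, hcK, hSi⟩ := h.next
  have hn₁ : 0 < n₁ := h.npos.trans hnn
  obtain ⟨p, q, x, σ, V, hp, hpq, hcop, hx, hxd, hB, hσ, hσ', hne, hV, hcV, hVi, hVL⟩ :=
    next_root_avoid hI hn₁ hA (finite_singleton r) (B := 288 * Real.log 2 / κ) (by positivity)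
  obtain ⟨K₁, hK₁, hK₁s, hK₁U, hK₁V⟩ := stage_sub hI h hn₁ hS hrS hcS hcK hSi hp hpq hcop hx hxd hB
    hσ hσ' (fun h0 => hne (mem_singleton_iff.2 h0)) hV hcV hVi hVL
  obtain ⟨p', q', x', σ', V', hp', hpq', hcop', hx', hxd', hB', hσ₂, hσ₂', hne', hV', hcV', hVi',
    hVL'⟩ := next_root_avoid hI hn₁ hA (F := {r, (σ (axisPt x)).1}) (by simp)
      (B := 288 * Real.log 2 / κ) (by positivity)
  have hne1 : (σ' (axisPt x')).1 ≠ r := fun h0 => hne' (by simp [h0])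
  have hne2 : (σ' (axisPt x')).1 ≠ (σ (axisPt x)).1 := fun h0 => hne' (by simp [h0])
  obtain ⟨K₂, hK₂, hK₂s, hK₂U, hK₂V⟩ := stage_sub hI h hn₁ hS hrS hcS hcK hSi hp' hpq' hcop' hx'
    hxd' hB' hσ₂ hσ₂' hne1 hV' hcV' hVi' hVL'
  set r₁ := (σ (axisPt x)).1 with hr₁
  set r₂ := (σ' (axisPt x')).1 with hr₂
  have h1 : r₁ ∉ K₂ := by
    refine hK₂U _ hK₁V ?_ (Or.inr hcV) r₁ (Or.inl rfl)
    rintro z (hz | hz)
    · rw [hz]
      exact ⟨hK₁.sub hK₁.root, fun h0 => hne2 (mem_singleton_iff.1 h0).symm⟩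
    · refine ⟨interior_subset (hVi hz), fun h0 => hK₂.front.2 ?_⟩
      rw [← mem_singleton_iff.1 h0]; exact hVi hz
  have h2 : r₂ ∉ K₁ := by
    refine hK₁U _ hK₂V ?_ (Or.inr hcV') r₂ (Or.inl rfl)
    rintro z (hz | hz)
    · rw [hz]
      exact ⟨hK₂.sub hK₂.root, fun h0 => hne2 (mem_singleton_iff.1 h0)⟩
    · refine ⟨interior_subset (hVi' hz), fun h0 => hK₁.front.2 ?_⟩
      rw [← mem_singleton_iff.1 h0]; exact hVi' hz
  refine ⟨n₁, K₁, r₁, K₂, r₂, hnn, hK₁, hK₂, hK₁s, hK₂s, ?_⟩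
  rw [disjoint_iff_inter_eq_empty]
  by_contra hcon
  obtain ⟨z, hz1, hz2⟩ := nonempty_iff_ne_empty.2 hcon
  refine h1 (conn_sub hI.cpt.isClosed hK₂.cpt.isClosed hK₂.opn hK₁.conn ?_ ⟨z, hz1, hz2⟩ hK₁.root)
  intro w hw
  exact ⟨hK₁.sub hw, fun h0 => h2 (by rw [← mem_singleton_iff.1 h0]; exact hw)⟩

/-- the property of the parameters in the main theorem -/
def Prop6 (κ : ℝ) (c₀ : ℂ) : Prop :=
  ∀ N : ℕ, ∃ (n p q : ℕ) (r b : ℂ), N ≤ n ∧ 0 < n ∧ 0 < p ∧ p < q ∧ Nat.Coprime p q ∧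
      it r n b = b ∧ mul n (r, b) = Complex.exp (2 * Real.pi * (p / q) * Complex.I) ∧
      4 * Real.log 2 * (n : ℝ) ^ 2 * q ≤ κ * (min (p : ℝ) (q - p)) ^ 2 ∧ r ≠ c₀ ∧
      c₀ ∉ connectedComponentIn (MS \ {r}) 0

/-- the intersection of a tower -/
theorem param_of_tower {κ : ℝ} (hI : Inputs κ) {n : ℕ → ℕ} {K : ℕ → Set ℂ} {r : ℕ → ℂ}
    (hs : ∀ m, Stage κ (n m) (K m) (r m)) (hn : ∀ m, n m < n (m + 1))
    (hK : ∀ m, K (m + 1) ⊆ K m \ {r m}) : ∃ c₀ ∈ MS, (∀ m, c₀ ∈ K m) ∧ Prop6 κ c₀ := by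
  have hn' : ∀ m, m ≤ n m := by
    intro m
    induction m with
    | zero => exact Nat.zero_le _
    | succ m ih =>
      have := hn m
      omega
  have hne : (⋂ m, K m).Nonempty := by
    refine IsCompact.nonempty_iInter_of_sequence_nonempty_isCompact_isClosed _ ?_ ?_ ?_ ?_
    · intro m; exact (hK m).trans sdiff_subset
    · intro m; exact ⟨_, (hs m).root⟩
    · exact (hs 0).cpt
    · intro m; exact (hs m).cpt.isClosed
  obtain ⟨c₀, hc₀⟩ := hne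
  rw [mem_iInter] at hc₀
  refine ⟨c₀, (hs 0).sub (hc₀ 0), hc₀, fun N => ?_⟩
  have hst := hs N
  obtain ⟨p, q, b, hp, hpq, hcop, hb, hm, hr⟩ := hst.data
  have hcr : c₀ ∈ K N \ {r N} := hK N (hc₀ (N + 1))
  refine ⟨n N, p, q, r N, b, hn' N, hst.npos, hp, hpq, hcop, hb, hm, hr,
    fun h0 => hcr.2 h0.symm, fun h0 => ?_⟩
  have h1 : connectedComponentIn (MS \ {r N}) 0 ⊆ K N :=
    conn_sub hI.cpt.isClosed hst.cpt.isClosed hst.opn isPreconnected_connectedComponentIn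
      (connectedComponentIn_subset _ _) ⟨c₀, h0, hcr.1⟩
  have h0M : (0 : ℂ) ∈ MS := ball_sub_MS (mem_ball_self (by norm_num))
  have h2 : (0 : ℂ) ∈ MS \ {r N} := by
    refine ⟨h0M, fun h3 => hst.zero ?_⟩
    have h4 : (0 : ℂ) = r N := h3
    rw [h4]; exact hst.root
  exact hst.zero (h1 (mem_connectedComponentIn h2))

/-- **uncountably many** parameters have the property -/
theorem uncountable_param {κ : ℝ} (hI : Inputs κ) : ¬ {c₀ ∈ MS | Prop6 κ c₀}.Countable := by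
  classical
  intro hcount
  let X := {s : ℕ × Set ℂ × ℂ // Stage κ s.1 s.2.1 s.2.2}
  have hstep : ∀ (s : X) (w : ℂ), ∃ s' : X, s.1.1 < s'.1.1 ∧ s'.1.2.1 ⊆ s.1.2.1 \ {s.1.2.2} ∧
      w ∉ s'.1.2.1 := by
    rintro ⟨⟨n, K, r⟩, hs⟩ w
    obtain ⟨n', K₁, r₁, K₂, r₂, h1, h2, h3, h4, h5, h6⟩ := stage_two hI hs
    by_cases hw : w ∈ K₁
    · exact ⟨⟨⟨n', K₂, r₂⟩, h3⟩, h1, h5, fun h7 => disjoint_left.1 h6 hw h7⟩
    · exact ⟨⟨⟨n', K₁, r₁⟩, h2⟩, h1, h4, hw⟩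
  choose F hF1 hF2 hF3 using hstep
  obtain ⟨n₀, K₀, r₀, h₀⟩ := stage_zero hI
  -- an enumeration
  have hne : {c₀ ∈ MS | Prop6 κ c₀}.Nonempty := by
    obtain ⟨c₀, h1, h2⟩ := exists_param hI
    refine ⟨c₀, h1, fun N => ?_⟩
    obtain ⟨n, p, q, r, b, h3, h4, h5, h6, h7, h8, h9, h10, h11, h12⟩ := h2 N
    exact ⟨n, p, q, r, b, h3, h4, h5, h6, h7, h8, h9, h10, h11,
      fun h13 => h12 (connectedComponentIn_eq h13).symm⟩
  obtain ⟨e, he⟩ := hcount.exists_eq_range hne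
  let s : ℕ → X := fun m => Nat.rec (⟨⟨n₀, K₀, r₀⟩, h₀⟩ : X) (fun k s => F s (e k)) m
  have hs : ∀ m, s (m + 1) = F (s m) (e m) := fun m => rfl
  obtain ⟨c₀, hc₀M, hc₀K, hc₀⟩ := param_of_tower hI (n := fun m => (s m).1.1)
    (K := fun m => (s m).1.2.1) (r := fun m => (s m).1.2.2) (fun m => (s m).2)
    (fun m => by simp only [hs]; exact hF1 _ _) (fun m => by simp only [hs]; exact hF2 _ _)
  have h1 : c₀ ∈ range e := by rw [← he]; exact ⟨hc₀M, hc₀⟩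
  obtain ⟨m, hm⟩ := h1
  have h2 := hc₀K (m + 1)
  simp only [hs] at h2
  rw [← hm] at h2
  exact hF3 _ _ h2

end NV

end Pool.Agent.Work.MLC
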