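import Pool.Agent.Work.MLC.SatV6
import Pool.Agent.Work.MLC.NV4

set_option autoImplicit false

/-! # Statements of the results with satellite components, from `SatPiece` (helper6) -/

namespace Pool.Agent.Work.MLC.Sat

open N62a1eb23 Set Filter Topology Metric

theorem res_localConn (hSP : SatPiece) : ∃ S : Set ℂ,
    (∀ c₀ : ℂ, c₀ ∈ S ↔ c₀ ∈ mandelbrotSet ∧ ∀ N : ℕ, ∃ (n p q : ℕ) (r b : ℂ), N ≤ n ∧
      0 < n ∧ 0 < p ∧ p < q ∧ Nat.Coprime p q ∧ (fun z : ℂ => z ^ 2 + r)^[n] b = b ∧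
      deriv ((fun z : ℂ => z ^ 2 + r)^[n]) b = Complex.exp (2 * Real.pi * (p / q) * Complex.I) ∧
      c₀ ≠ r ∧ c₀ ∉ connectedComponentIn (mandelbrotSet \ {r}) 0 ∧
      (16 * Real.log 2 * (n : ℝ) ^ 2 * q ≤ (min (p : ℝ) (q - p)) ^ 2 ∨
        (10 ^ 15 * n ^ 12 ≤ q ∧ ∃ (m p₀ q₀ : ℕ) (r₀ b₀ : ℂ) (W : Set (ℂ × ℂ)),
          n = m * q₀ ∧ 0 < p₀ ∧ p₀ < q₀ ∧ Nat.Coprime p₀ q₀ ∧
          Function.minimalPeriod (fun z : ℂ => z ^ 2 + r₀) b₀ = m ∧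
          deriv ((fun z : ℂ => z ^ 2 + r₀)^[m]) b₀ =
            Complex.exp (2 * Real.pi * (p₀ / q₀) * Complex.I) ∧
          Function.minimalPeriod (fun z : ℂ => z ^ 2 + r) b = n ∧ IsPreconnected W ∧
          (∀ x ∈ W, Function.minimalPeriod (fun z : ℂ => z ^ 2 + x.1) x.2 = n ∧
            ‖deriv ((fun z : ℂ => z ^ 2 + x.1)^[n]) x.2‖ < 1) ∧
          (r₀, b₀) ∈ closure W ∧ (r, b) ∈ closure W))) ∧
    ¬ S.Countable ∧
    ∀ c₀ ∈ S, ∀ U ∈ 𝓝 c₀, ∃ V ⊆ U, V ⊆ mandelbrotSet ∧ IsCompact V ∧ IsConnected V ∧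
      V ∈ 𝓝[mandelbrotSet] c₀ := by
  have hlog : 0 < Real.log 2 := Real.log_pos (by norm_num)
  have hmul : ∀ (n : ℕ) (r b : ℂ), deriv ((fun z : ℂ => z ^ 2 + r)^[n]) b =
      Pool.Agent.Work.MLC.mul n (r, b) :=
    fun n r b => (Pool.Agent.Work.MLC.hasDerivAt_it r n b).deriv
  refine ⟨{c₀ | _}, fun c₀ => Iff.rfl, fun hS => ?_, ?_⟩
  · refine Pool.Agent.Work.MLC.NV.uncountable_param Pool.Agent.Work.MLC.inputs34 (hS.mono ?_)
    rintro c₀ ⟨h1, h2⟩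
    refine ⟨h1, fun N => ?_⟩
    obtain ⟨n, p, q, r, b, h3, h4, h5, h6, h7, h8, h9, h10, h11, h12⟩ := h2 N
    exact ⟨n, p, q, r, b, h3, h4, h5, h6, h7, h8, (hmul n r b).trans h9,
      h11.symm, h12, Or.inl (by linarith)⟩
  · rintro c₀ ⟨h1, h2⟩
    refine lc_main hSP h1 fun N => ?_
    obtain ⟨n, p, q, r, b, h3, h4, h5, h6, h7, h8, h9, h10, h11, h12⟩ := h2 N
    refine ⟨n, p, q, r, b, h3, h4, h5, h6, h7, h8, (hmul n r b).symm.trans h9,
      h10.symm, fun h13 => h11 ?_, ?_⟩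
    · rw [← h13]
      exact mem_connectedComponentIn ⟨h1, h10⟩
    · rcases h12 with h12 | ⟨h12, m, p₀, q₀, r₀, b₀, W, k1, k2, k3, k4, k5, k6, k7, k8, k9, k10,
        k11⟩
      · exact Or.inl h12
      · right
        obtain ⟨W', hW1, hW2⟩ := sat_of_conn h4 k1 k2 k3 k4 k5 k6 h5 h6 h7 k7 h9 k8 k9 k10 k11
        refine ⟨?_, m, p₀, q₀, r₀, b₀, W', k1, hW1, hW2⟩
        have : (((10 : ℕ) ^ 15 * n ^ 12 : ℕ) : ℝ) ≤ q := by exact_mod_cast h12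
        push_cast at this
        linarith

theorem res_limbBound (hSP : SatPiece) : ∀ (n p q : ℕ) (r b : ℂ), 0 < n → 0 < p → p < q →
    Nat.Coprime p q → (fun z : ℂ => z ^ 2 + r)^[n] b = b →
    deriv ((fun z : ℂ => z ^ 2 + r)^[n]) b = Complex.exp (2 * Real.pi * (p / q) * Complex.I) →
    (∀ z ∈ mandelbrotSet \ connectedComponentIn (mandelbrotSet \ {r}) 0,
      dist z r ≤ 50 * (n ^ 2 * q / (min (p : ℝ) (q - p)) ^ 2)) ∧
    (6 * (n : ℝ) ^ 2 * q ≤ (min (p : ℝ) (q - p)) ^ 2 →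
      IsCompact (mandelbrotSet \ connectedComponentIn (mandelbrotSet \ {r}) 0) ∧
      IsConnected (mandelbrotSet \ connectedComponentIn (mandelbrotSet \ {r}) 0) ∧
      r ∈ closure ((mandelbrotSet \ connectedComponentIn (mandelbrotSet \ {r}) 0) ∩
        interior mandelbrotSet)) ∧
    (∀ (m p₀ q₀ : ℕ) (r₀ b₀ : ℂ) (W : Set (ℂ × ℂ)),
      n = m * q₀ → 0 < p₀ → p₀ < q₀ → Nat.Coprime p₀ q₀ →
      Function.minimalPeriod (fun z : ℂ => z ^ 2 + r₀) b₀ = m →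
      deriv ((fun z : ℂ => z ^ 2 + r₀)^[m]) b₀ =
        Complex.exp (2 * Real.pi * (p₀ / q₀) * Complex.I) →
      Function.minimalPeriod (fun z : ℂ => z ^ 2 + r) b = n → IsPreconnected W →
      (∀ x ∈ W, Function.minimalPeriod (fun z : ℂ => z ^ 2 + x.1) x.2 = n ∧
        ‖deriv ((fun z : ℂ => z ^ 2 + x.1)^[n]) x.2‖ < 1) →
      (r₀, b₀) ∈ closure W → (r, b) ∈ closure W →
      ∀ z ∈ mandelbrotSet \ connectedComponentIn (mandelbrotSet \ {r}) 0,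
        dist z r ≤ 3 * 10 ^ 15 * (n ^ 12 / q)) := by
  intro n p q r b hn hp hpq hcop hb hm
  have hb' : Pool.Agent.Work.MLC.it r n b = b := hb
  have hm' : Pool.Agent.Work.MLC.mul n (r, b) =
      Complex.exp (2 * Real.pi * (p / q) * Complex.I) := by
    rw [← hm]
    exact (Pool.Agent.Work.MLC.hasDerivAt_it r n b).deriv.symm
  refine ⟨Pool.Agent.Work.MLC.limb_dist Pool.Agent.Work.MLC.inputs34 hn hp hpq hcop hb' hm',
    fun hsm => ?_, ?_⟩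
  · have hq : 0 < q := hp.trans hpq
    have hq' : (0 : ℝ) < q := by exact_mod_cast hq
    have hn1 : (1 : ℝ) ≤ n := by exact_mod_cast hn
    have hp' : (0 : ℝ) < p := by exact_mod_cast hp
    have hpq' : (p : ℝ) < q := by exact_mod_cast hpq
    have hm0 : 0 < min (p : ℝ) (q - p) := lt_min hp' (by linarith)
    have hlog2 : Real.log 2 < 0.6931471808 := Real.log_two_lt_d9
    have hnq : 0 < (n : ℝ) ^ 2 * q := by positivity
    have hmq : min (p : ℝ) (q - p) ≤ q / 2 := by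
      have h1 := min_le_left (p : ℝ) (q - p)
      have h2 := min_le_right (p : ℝ) (q - p)
      linarith
    have hq3 : 3 ≤ q := by
      by_contra hcon
      have h1 : q ≤ 2 := by omega
      have h2 : (q : ℝ) ≤ 2 := by exact_mod_cast h1
      have h3 : min (p : ℝ) (q - p) ≤ 1 := by linarith
      have h4 : (min (p : ℝ) (q - p)) ^ 2 ≤ 1 := pow_le_one₀ hm0.le h3
      have h5 : (1 : ℝ) ≤ q := by exact_mod_cast hq
      nlinarith
    obtain ⟨h1, h2, -, h3, -⟩ := Pool.Agent.Work.MLC.limb_canon Pool.Agent.Work.MLC.inputs34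
      hn hp hpq hcop hb' hm' hq3 (by nlinarith)
    exact ⟨h1, h2, h3⟩
  · intro m p₀ q₀ r₀ b₀ W k1 k2 k3 k4 k5 k6 k7 k8 k9 k10 k11
    obtain ⟨W', hW1, hW2⟩ := sat_of_conn hn k1 k2 k3 k4 k5 k6 hp hpq hcop k7 hm k8 k9 k10 k11
    intro z hz
    have h1 := (sat_bound hSP k1 hW1 hW2).2 z hz
    linarith

end Pool.Agent.Work.MLC.Sat
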