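import Pool.Agent.Work.MLC.Sat2_51
import Pool.Agent.Work.MLC.Sat3
import Pool.Agent.Work.MLC.SatCh26
import Pool.Agent.Work.MLC.SatIn26
import Pool.Agent.Work.MLC.SatOrigin34
import Pool.Agent.Work.MLC.SatPar26
import Pool.Agent.Work.MLC.SatReg60
import Pool.Agent.Work.MLC.SatPly60
import Pool.Agent.Work.MLC.SatS17_6
import Pool.Agent.Work.MLC.SatS749
import Pool.Agent.Work.MLC.Sat12_49
import Pool.Agent.Work.MLC.Sat4_57
import Pool.Agent.Work.MLC.SatRoot51
import Pool.Agent.Work.MLC.Sat15_51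
import Pool.Agent.Work.MLC.SatRes6
import Pool.Agent.Work.MLC.SatPar39
import Pool.Agent.Work.MLC.SatCircF
import Pool.Agent.Work.MLC.SatS6_4
import Pool.Agent.Work.MLC.Sat8_69
import Pool.Agent.Work.MLC.SatDer15

set_option autoImplicit false

/-! # Theorem S: assembly (helper60)

Everything is proved: no hypothesis is left. -/

namespace Pool.Agent.Work.MLC.Sat

open Filter Topology Metric Set Complex

/-- the data of a parent point and its child exist (after moving the point along its orbit) -/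
theorem exists_data {m : ℕ} {x : ℚ}
    {r₀ b₀ : ℂ} (hm : 0 < m) (hx0 : 0 < x) (hx1 : x < 1) (hper : (r₀, b₀) ∈ Per m)
    (hprim : ∀ d, 0 < d → d < m → it r₀ d b₀ ≠ b₀)
    (hmul : mul m (r₀, b₀) = exp (axisPt x)) :
    ∃ (D : Dat) (i₀ : ℕ), D.m = m ∧ D.x = x ∧ D.σ D.a = (r₀, it r₀ i₀ b₀) ∧ D.Par ∧ D.Cir := by
  obtain ⟨D, rfl, rfl, hσ, hP⟩ := s0_parent m x r₀ b₀ hm hx0 hx1 hper hprim hmul
  obtain ⟨i₀, u, k, tm, tp, -, hC⟩ := s1_circle D.m D.x D.w D.k₀ hm hx0 hx1 hP.bits hP.wprim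
  refine ⟨⟨D.m, D.x, fun L => ((D.σ L).1, it (D.σ L).1 i₀ (D.σ L).2), fun i => D.w (i + i₀),
    D.k₀, u, k, tm, tp⟩, i₀, rfl, rfl, ?_, s0_shift D i₀ u k tm tp hP, hC _⟩
  show ((D.σ (axisPt D.x)).1, it (D.σ (axisPt D.x)).1 i₀ (D.σ (axisPt D.x)).2) = _
  rw [hσ]

theorem regions_all : S5_regions := s5_regions s5_ply60 s3_neutral

theorem glue_all : S9_glue :=
  s9_glue s6_outer (s9_inner s2_unique s3_closed s3_neutral s7_fatou (s7_parab s3_neutral) s8_side)

theorem root_all : S4_root := s4_root s4_unique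

theorem origin_all : S10_origin := s10_origin s2_width s3_closed s3_neutral root_all

theorem child_all : S13_child := s13_child origin_all s11_deriv

theorem s12_all : S12_child := s12_child s11_deriv

/-- **Theorem S**: the coordinate of the child -/
theorem theoremS {m : ℕ} {x : ℚ} {r₀ b₀ : ℂ} (hm : 0 < m) (hx0 : 0 < x)
    (hx1 : x < 1) (hper : (r₀, b₀) ∈ Per m) (hprim : ∀ d, 0 < d → d < m → it r₀ d b₀ ≠ b₀)
    (hmul : mul m (r₀, b₀) = exp (axisPt x)) :
    ∃ (D : Dat) (i₀ : ℕ) (Z : ℂ → Set ℂ) (e : ℂ → ℂ), D.m = m ∧ D.x = x ∧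
      D.σ D.a = (r₀, it r₀ i₀ b₀) ∧ D.Par ∧ D.Cir ∧ Regions D ∧ Glued D Z ∧ Child D Z e := by
  obtain ⟨D, i₀, hDm, hDx, hσ, hP, hC⟩ := exists_data hm hx0 hx1 hper hprim hmul
  have hR := regions_all D hP hC
  obtain ⟨Z, hZ⟩ := glue_all D hP hC hR
  obtain ⟨e, he⟩ := child_all D Z hP hC hR hZ
  exact ⟨D, i₀, Z, e, hDm, hDx, hσ, hP, hC, hR, hZ, he⟩

/-- limb data of the child -/
theorem limb_all : S17_limb := s17_limb s16_rot

theorem bdry_all : S15_bdry := s15_bdry s7_fatou origin_all s12_all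

/-- limb pieces of satellite components -/
theorem satPiece_all : SatPiece :=
  satPiece s0_parent s0_shift s1_circle regions_all glue_all child_all bdry_all limb_all

/-- the bound for the pieces of satellite components -/
theorem bound_all : S18_bound := s18_bound satPiece_all

end Pool.Agent.Work.MLC.Sat
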