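import Pool.Agent.Work.MLC.CapB26
import Pool.Agent.Work.MLC.CntT60
import Pool.Agent.Work.MLC.SatAll60
import Pool.Agent.Work.MLC.PerL54

set_option autoImplicit false

/-! # Theorem Cap, stage B: the child component with its wide section (helper60) -/

namespace Pool.Agent.Work.MLC.Cap

open Filter Topology Metric Set Complex MeasureTheory
open Pool.Agent.Work.MLC.Sat Pool.Agent.Work.MLC.Cnt

namespace C60

/-! ### periodic angles have rational rotation numbers -/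

lemma tdbl_cases (s x : ℝ) : ∃ k : ℤ, Circ.tdbl s x = 2 * x - k ∨ Circ.tdbl s x = s + k + 1 := by
  refine ⟨⌊x - s / 2⌋, ?_⟩
  have h1 := Int.floor_le (x - s / 2)
  have h2 := Int.lt_floor_add_one (x - s / 2)
  rcases le_total (x - s / 2) (⌊x - s / 2⌋ + 1 / 2) with h | h
  · exact Or.inl (Circ.tdbl_lin _ (by linarith) (by linarith))
  · exact Or.inr (Circ.tdbl_flat _ (by linarith) (by linarith))

/-- the orbit of a periodic angle under the truncated maps is finite modulo one -/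
lemma orb_finite {N : ℕ} (hN : 0 < N) {θ : ℝ} (hθ : ∃ a : ℤ, (2 : ℝ) ^ N * θ - θ = a)
    (w : ℕ → ℤ) (j : ℕ) : ∃ (i : Fin N) (l : ℤ), Circ.gw w θ j θ = 2 ^ (i : ℕ) * θ + l := by
  induction j with
  | zero => exact ⟨⟨0, hN⟩, 0, by simp⟩
  | succ j ih =>
    obtain ⟨i, l, hi⟩ := ih
    obtain ⟨a, ha⟩ := hθ
    obtain ⟨k, hk | hk⟩ := tdbl_cases (θ + w j) (Circ.gw w θ j θ)
    · rcases Nat.lt_or_ge ((i : ℕ) + 1) N with h | h
      · refine ⟨⟨i + 1, h⟩, 2 * l - k, ?_⟩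
        rw [Circ.gw_succ_apply, hk, hi]
        push_cast
        ring
      · refine ⟨⟨0, hN⟩, a + 2 * l - k, ?_⟩
        have h2 : (i : ℕ) + 1 = N := by have := i.2; omega
        have h3 : (2 : ℝ) ^ N * θ = 2 * (2 ^ (i : ℕ) * θ) := by
          have h4 : (2 : ℝ) ^ N = 2 ^ ((i : ℕ) + 1) := by rw [h2]
          rw [h4, pow_succ]; ring
        rw [Circ.gw_succ_apply, hk, hi]
        push_cast
        linear_combination ha - h3
    · refine ⟨⟨0, hN⟩, w j + k + 1, ?_⟩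
      rw [Circ.gw_succ_apply, hk]
      push_cast
      ring

/-- **a periodic angle has a rational rotation number** -/
theorem nu_rat {N n : ℕ} (hN : 0 < N) {θ : ℝ} (hθ : ∃ a : ℤ, (2 : ℝ) ^ N * θ - θ = a)
    {w : ℕ → ℤ} (hw : ∀ i, w (i + n) = w i) : ∃ z : ℚ, Circ.nu w n θ = z := by
  classical
  have h1 : ∀ r : ℕ, ∃ (i : Fin N) (l : ℤ), (Circ.gw w θ n ^ r) θ = 2 ^ (i : ℕ) * θ + l := by
    intro r
    rw [← Circ.gw_mul w θ n r hw]
    exact orb_finite hN hθ w (n * r)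
  choose i l hil using h1
  obtain ⟨r₁, r₂, hne, heq⟩ := Finite.exists_ne_map_eq_of_infinite i
  wlog hlt : r₁ < r₂ generalizing r₁ r₂
  · exact this r₂ r₁ hne.symm heq.symm (lt_of_le_of_ne (not_lt.1 hlt) hne.symm)
  obtain ⟨d, rfl⟩ := Nat.exists_eq_add_of_lt hlt
  have h2 : (Circ.gw w θ n ^ (d + 1)) ((Circ.gw w θ n ^ r₁) θ) =
      (Circ.gw w θ n ^ r₁) θ + ((l (r₁ + d + 1) - l r₁ : ℤ) : ℝ) := by
    have h3 : (Circ.gw w θ n ^ (d + 1)) ((Circ.gw w θ n ^ r₁) θ) =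
        (Circ.gw w θ n ^ (r₁ + d + 1)) θ := by
      rw [show r₁ + d + 1 = (d + 1) + r₁ by ring, pow_add (Circ.gw w θ n) (d + 1) r₁]
      rfl
    rw [h3, hil, hil r₁, ← heq]
    push_cast
    ring
  have h3 := CircleDeg1Lift.translationNumber_of_map_pow_eq_add_int _ h2 (Nat.succ_pos d)
  refine ⟨((l (r₁ + d + 1) - l r₁ : ℤ) : ℚ) / ((d + 1 : ℕ) : ℚ), ?_⟩
  unfold Circ.nu
  rw [h3]
  push_cast
  rfl

end C60

/-- **the child** -/
theorem c_child : C_child := by
  intro W hW x h0 h1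
  set D := W.dat x with hD
  have hP : D.Par := WS.dat_par hW h0 h1
  have hC : D.Cir := WS.dat_cir hW h0 h1
  have hR := regions_all D hP hC
  obtain ⟨Z, hG⟩ := glue_all D hP hC hR
  have hn : 0 < D.n := Par_n_pos hP
  have hword : Word D.n D.u := ⟨hC.ubits.bit, hC.ubits.per, hC.uprim⟩
  obtain ⟨σ, hV, hex⟩ := Pri.exists_wide_word hn hword D.k
  set W' : WS := ⟨D.n, D.u, D.k, σ⟩ with hW'
  have hok : W'.Ok := ⟨hV, hex⟩
  have hn0 : (0 : ℝ) < D.n := by exact_mod_cast hn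
  have hq0 : (0 : ℝ) < D.x.den := by exact_mod_cast D.x.pos
  have hnear : ∀ θ, Circ.nu D.w D.m θ = D.k₀ + D.x → D.Near θ := by
    intro θ h
    unfold Dat.Near
    rw [h, sub_self, abs_zero]
    positivity
  have hum : Circ.nu D.u D.n D.tm = D.k :=
    hC.nu_left _ (hnear _ ((hC.plateau D.tm).2 ⟨le_rfl, hC.lt.le⟩)) le_rfl
  have hup : Circ.nu D.u D.n D.tp = D.k + 1 :=
    hC.nu_right _ (hnear _ ((hC.plateau D.tp).2 ⟨hC.lt.le, le_rfl⟩)) le_rfl
  have hin : ∀ θ, (D.k : ℝ) < Circ.nu D.u D.n θ → Circ.nu D.u D.n θ < D.k + 1 →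
      D.tm < θ ∧ θ < D.tp := by
    intro θ h2 h3
    constructor
    · by_contra hcon
      push Not at hcon
      have := Circ.nu_mono D.u D.n hcon
      linarith
    · by_contra hcon
      push Not at hcon
      have := Circ.nu_mono D.u D.n hcon
      linarith
  have hnu' : ∀ θ, W'.nu θ = Circ.nu D.u D.n θ - D.k := fun θ => rfl
  have harc : ∀ y : ℚ, 0 < y → y < 1 → D.tm < (W'.dat y).tm ∧ (W'.dat y).tp < D.tp := by
    intro y hy0 hy1
    have hy0' : (0 : ℝ) < y := by exact_mod_cast hy0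
    have hy1' : (y : ℝ) < 1 := by exact_mod_cast hy1
    have hlt := (WS.dat_cir hok hy0 hy1).lt
    have a1 := (WS.plateau hok hy0 hy1 (W'.dat y).tm).2 ⟨le_rfl, hlt.le⟩
    have a2 := (WS.plateau hok hy0 hy1 (W'.dat y).tp).2 ⟨hlt.le, le_rfl⟩
    rw [hnu'] at a1 a2
    exact ⟨(hin _ (by linarith) (by linarith)).1, (hin _ (by linarith) (by linarith)).2⟩
  -- no `n`-periodic angle between the ends and the plateau of `1 / 2`
  have hperiod : ∀ θ : ℝ, (∃ a : ℤ, (2 : ℝ) ^ D.n * θ - θ = a) → D.tm < θ → θ < D.tp →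
      (W'.dat (1 / 2)).tm ≤ θ ∧ θ ≤ (W'.dat (1 / 2)).tp := by
    intro θ hθ h2 h3
    obtain ⟨h4, h5⟩ := hC.nu_in θ h2 h3
    obtain ⟨z, hz⟩ := C60.nu_rat hn hθ hC.ubits.per
    set y : ℚ := z - D.k with hy
    have hzy : Circ.nu D.u D.n θ = D.k + y := by rw [hz, hy]; push_cast; ring
    have hy0 : 0 < y := by
      have : (0 : ℝ) < y := by linarith
      exact_mod_cast this
    have hy1 : y < 1 := by
      have : (y : ℝ) < 1 := by linarith
      exact_mod_cast this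
    have h6 := perL54 hn hword hy0 hy1 hn hθ hzy
    have h7 := two_le_den hy0 hy1
    have h8 : y.den = 2 := by
      by_contra hne
      have h9 : 1 ≤ y.den - 2 := by omega
      have : D.n ≤ (y.den - 2) * D.n := Nat.le_mul_of_pos_left _ h9
      omega
    have h9 : y = 1 / 2 := by
      have h10 : y = (y.num : ℚ) / 2 := by
        conv_lhs => rw [← Rat.num_div_den y, h8]
        norm_num
      have h11 : 0 < y.num := Rat.num_pos.2 hy0
      have h12 : y.num < 2 := by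
        rw [h10] at hy1
        rw [div_lt_one (by norm_num)] at hy1
        exact_mod_cast hy1
      have h13 : y.num = 1 := by omega
      rw [h10, h13]; norm_num
    refine (WS.plateau hok (by norm_num) (by norm_num) θ).1 ?_
    rw [hnu', hzy, h9]
    ring
  have h2n : (1 : ℝ) < 2 ^ D.n := one_lt_pow₀ (by norm_num) hn.ne'
  have hδ : (0 : ℝ) < 1 / (2 ^ D.n - 1) := by
    have : (0 : ℝ) < 2 ^ D.n - 1 := by linarith
    positivity
  have hδ1 : ((2 : ℝ) ^ D.n - 1) * (1 / (2 ^ D.n - 1)) = 1 := by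
    have : (0 : ℝ) < 2 ^ D.n - 1 := by linarith
    field_simp
  have hpm : ∃ a : ℤ, (2 : ℝ) ^ D.n * D.tm - D.tm = a := hC.per.2.1
  have hpp : ∃ a : ℤ, (2 : ℝ) ^ D.n * D.tp - D.tp = a := by
    obtain ⟨a, ha⟩ := hpm
    obtain ⟨j, l, hj⟩ := hC.orb
    refine ⟨2 ^ (D.m * j) * a + (2 ^ D.n - 1) * l, ?_⟩
    rw [hj]
    push_cast
    linear_combination 2 ^ (D.m * j) * ha
  refine ⟨W', hok, ?_, ?_, harc, ?_, ?_⟩
  · show D.m * D.x.den = W.m * x.den
    rw [hD, WS.dat_m hW h0 h1, WS.dat_x hW h0 h1]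
  · -- the axis of the child is in the limb
    intro y hy0 hy1
    set L₀ : ℂ := 2 * Real.pi * y * I with hL₀
    have hL₀D : L₀ ∈ Pri.D0 D.n := T60.axis_mem_D0 hn hy0 hy1
    have hpi := Real.pi_pos
    have hfreq : ∃ᶠ L in 𝓝 L₀, L ∈ Pri.D0 D.n ∧ 0 < L.re ∧ (σ L).1 ∉ MM := by
      have h2 := hV.exists_ext (y := 2 * Real.pi * y) (by positivity) (by nlinarith)
      have h3 : ((2 * Real.pi * y : ℝ) : ℂ) * I = L₀ := by rw [hL₀]; push_cast; ring
      rwa [h3] at h2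
    have hcσ : ContinuousAt σ L₀ := hV.cont.continuousAt ((Pri.isOpen_D0 _).mem_nhds hL₀D)
    have hcc : ContinuousAt W'.c L₀ := continuous_fst.continuousAt.comp hcσ
    have hM : W'.c L₀ ∈ MM := by
      by_contra hM
      have h2 := hV.sec L₀ hL₀D
      have h3 : 1 < ‖mult D.n (σ L₀).1 (σ L₀).2‖ :=
        one_lt_norm_mult_of_ext hn (not_mem_MM_iff.1 hM) h2.1
      have h4 : mult D.n (σ L₀).1 (σ L₀).2 = exp L₀ := h2.2
      rw [h4, Complex.norm_exp] at h3
      have h5 : L₀.re = 0 := by simp [hL₀]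
      rw [h5, Real.exp_zero] at h3
      exact lt_irrefl _ h3
    have hcl : W'.c L₀ ∈ closure (Lm D ∪ {c' | ∃ θ, Ang c' θ ∧ D.tm ≤ θ ∧ θ ≤ D.tp}) := by
      rw [mem_closure_iff_frequently]
      refine hcc.tendsto.frequently (hfreq.mono ?_)
      rintro L ⟨hL, -, hLM⟩
      right
      obtain ⟨θ, hθ, hk1, hk2⟩ := hV.ang L hL hLM
      obtain ⟨h3, h4⟩ := hin θ hk1 hk2
      exact ⟨θ, hθ.ang, h3.le, h4.le⟩
    rcases n5_closed D hP hC _ hM hcl with h2 | h2
    · exact h2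
    · exfalso
      obtain ⟨K, hK1, hK2, hK3⟩ := H24.exists_K origin_all hP hC hR hG
      have ha : D.a ∈ ball D.a (sR D.m D.x) := mem_ball_self (sR_pos hP)
      have hKc : ContinuousAt K D.a := (hK2 D.a ha).continuousWithinAt.continuousAt
        (isOpen_ball.mem_nhds ha)
      have hne : exp L₀ ≠ 1 := Pri.ne_one_D0 hL₀D
      set ε : ℝ := ‖exp L₀ - 1‖ / 2 with hε
      have hε0 : 0 < ε := by
        have : 0 < ‖exp L₀ - 1‖ := norm_pos_iff.2 (sub_ne_zero.2 hne)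
        rw [hε]; linarith
      have hN : {L | L ∈ ball D.a (sR D.m D.x) ∧ dist (K L) (K D.a) < ε} ∈ 𝓝 D.a :=
        inter_mem (isOpen_ball.mem_nhds ha) (hKc (ball_mem_nhds _ hε0))
      have hmap := (section_strict (goodB hP) hP.cont hP.sec (a_mem_B hP)).map_nhds_eq
        (section_deriv_ne_zero (goodB hP) hP.cont hP.sec (a_mem_B hP))
      have hN' : D.c '' {L | L ∈ ball D.a (sR D.m D.x) ∧ dist (K L) (K D.a) < ε} ∈
          𝓝 (W'.c L₀) := by
        rw [h2]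
        show _ ∈ 𝓝 (D.c D.a)
        have h3 : 𝓝 (D.c D.a) = Filter.map D.c (𝓝 D.a) := hmap.symm
        rw [h3]
        exact image_mem_map hN
      have hexp : ∀ᶠ L in 𝓝 L₀, dist (exp L) (exp L₀) < ε :=
        continuous_exp.continuousAt (ball_mem_nhds _ hε0)
      obtain ⟨L, ⟨⟨hL, hLre, hLM⟩, hLN⟩, hLe⟩ :=
        ((hfreq.and_eventually (hcc hN')).and_eventually hexp).exists
      obtain ⟨L₂, ⟨hL₂b, hL₂K⟩, hL₂c⟩ := hLN
      have hL₂M : D.c L₂ ∉ MM := by rw [hL₂c]; exact hLM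
      have hL₂a : L₂ ≠ D.a := by
        rintro rfl
        exact hL₂M (CH.rt_mem_MM hP)
      have hL₂U : L₂ ∈ D.U := ⟨hL₂b, hL₂a⟩
      obtain ⟨θ, hθ, hk1, hk2⟩ := hV.ang L hL hLM
      obtain ⟨ht1, ht2⟩ := hin θ hk1 hk2
      obtain ⟨θ₀, hθ₀, hk3, hk4⟩ := hP.ang L₂ (U_sub_B hP hL₂U) hL₂M
      have hang : Ang (D.c L₂) θ := by
        rw [hL₂c]; exact hθ.ang
      obtain ⟨j, hj⟩ := hang.unique hθ₀.ang
      have hνθ : Circ.nu D.w D.m θ = D.k₀ + D.x := (hC.plateau θ).2 ⟨ht1.le, ht2.le⟩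
      have hx0 : (0 : ℝ) < D.x := by exact_mod_cast hP.x_pos
      have hx1 : (D.x : ℝ) < 1 := by exact_mod_cast hP.x_lt
      have hj0 : j = 0 := by
        rcases lt_trichotomy j 0 with h3 | h3 | h3
        · exfalso
          have h4 : (j : ℝ) ≤ -1 := by exact_mod_cast Int.le_sub_one_of_lt h3
          have h5 := s2_width D.m D.w θ₀ D.k₀ hP.m_pos hP.bits hk3
          have h6 := Circ.nu_mono D.w D.m (show θ₀ + 1 ≤ θ by rw [hj]; linarith)
          linarith
        · exact h3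
        · exfalso
          have h4 : (1 : ℝ) ≤ j := by exact_mod_cast h3
          have h5 := s2_width D.m D.w θ D.k₀ hP.m_pos hP.bits (by rw [hνθ]; linarith)
          have h6 := Circ.nu_mono D.w D.m (show θ + 1 ≤ θ₀ by rw [hj]; linarith)
          linarith
      rw [hj0] at hj
      simp only [Int.cast_zero, add_zero] at hj
      rw [hj] at hθ₀ hk3 hk4
      have hZ : (σ L).2 ∈ Z L₂ := by
        rw [hG.ext L₂ ⟨hL₂U, hL₂M⟩]
        refine ⟨θ, ⟨hθ₀, hk3, hk4⟩, (σ L).2, ?_, 0, by simp⟩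
        rw [hL₂c]
        exact hθ
      have h3 := hK1 L₂ hL₂U _ hZ
      have h4 : mul D.n (D.c L₂, (σ L).2) = exp L := by
        rw [hL₂c]
        exact (hV.sec L hL).2
      rw [h4] at h3
      rw [← h3, hK3, dist_eq_norm] at hL₂K
      rw [dist_eq_norm] at hLe
      have h5 : exp L₀ - 1 = (exp L - 1) - (exp L - exp L₀) := by ring
      have h6 : ‖exp L₀ - 1‖ < ε + ε := by
        rw [h5]
        exact (norm_sub_le _ _).trans_lt (add_lt_add hL₂K hLe)
      rw [hε] at h6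
      linarith
  · show (W'.dat (1 / 2)).tm - D.tm ≤ 1 / (2 ^ D.n - 1)
    by_contra hcon
    push Not at hcon
    have ha := harc (1 / 2) (by norm_num) (by norm_num)
    have hlt := (WS.dat_cir hok (y := 1 / 2) (by norm_num) (by norm_num)).lt
    have h2 := hperiod (D.tm + 1 / (2 ^ D.n - 1)) ?_ (by linarith) (by linarith)
    · linarith [h2.1]
    · obtain ⟨a, ha⟩ := hpm
      refine ⟨a + 1, ?_⟩
      push_cast
      linear_combination ha + hδ1
  · show D.tp - (W'.dat (1 / 2)).tp ≤ 1 / (2 ^ D.n - 1)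
    by_contra hcon
    push Not at hcon
    have ha := harc (1 / 2) (by norm_num) (by norm_num)
    have hlt := (WS.dat_cir hok (y := 1 / 2) (by norm_num) (by norm_num)).lt
    have h2 := hperiod (D.tp - 1 / (2 ^ D.n - 1)) ?_ (by linarith) (by linarith)
    · linarith [h2.2]
    · obtain ⟨a, ha⟩ := hpp
      refine ⟨a - 1, ?_⟩
      push_cast
      linear_combination ha - hδ1

end Pool.Agent.Work.MLC.Cap
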