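import Pool.Agent.Work.MLC.CntQ26
import Pool.Agent.Work.MLC.CntLen78

set_option autoImplicit false

/-! # Theorem Q, modules L and S: one limb, and the sum (helper26) -/

namespace Pool.Agent.Work.MLC.Cnt

open Filter Topology Metric Set Complex MeasureTheory
open Pool.Agent.Work.MLC.Sat

namespace WS

variable {W : WS} {y y' : ℚ}

lemma nu_tm (h : W.Ok) (h0 : 0 < y) (h1 : y < 1) : W.nu (W.dat y).tm = y :=
  (plateau h h0 h1 _).2 ⟨le_rfl, (dat_cir h h0 h1).lt.le⟩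

lemma nu_tp (h : W.Ok) (h0 : 0 < y) (h1 : y < 1) : W.nu (W.dat y).tp = y :=
  (plateau h h0 h1 _).2 ⟨(dat_cir h h0 h1).lt.le, le_rfl⟩

lemma lt_of_nu {s t : ℝ} (h : W.nu s < W.nu t) : s < t := by
  by_contra hcon
  push Not at hcon
  exact absurd (W.nu_mono hcon) (not_le.2 h)

lemma tm_mono (h : W.Ok) (h0 : 0 < y) (hyy : y ≤ y') (h1 : y' < 1) :
    (W.dat y).tm ≤ (W.dat y').tm := by
  rcases hyy.eq_or_lt with rfl | hlt
  · exact le_rfl
  · have hlt' : (y : ℝ) < y' := by exact_mod_cast hlt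
    refine (lt_of_nu (W := W) ?_).le
    rw [nu_tm h h0 (hlt.trans h1), nu_tm h (h0.trans hlt) h1]
    exact hlt'

lemma tp_mono (h : W.Ok) (h0 : 0 < y) (hyy : y ≤ y') (h1 : y' < 1) :
    (W.dat y).tp ≤ (W.dat y').tp := by
  rcases hyy.eq_or_lt with rfl | hlt
  · exact le_rfl
  · have hlt' : (y : ℝ) < y' := by exact_mod_cast hlt
    refine (lt_of_nu (W := W) ?_).le
    rw [nu_tp h h0 (hlt.trans h1), nu_tp h (h0.trans hlt) h1]
    exact hlt'

lemma tm_lt_tp (h : W.Ok) (h0 : 0 < y) (hyy : y ≤ y') (h1 : y' < 1) :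
    (W.dat y).tm < (W.dat y').tp :=
  (tm_mono h h0 hyy h1).trans_lt (dat_cir h (h0.trans_le hyy) h1).lt

lemma tp_lt_add (h : W.Ok) (h0 : 0 < y) (h1 : y < 1) (h0' : 0 < y') (h1' : y' < 1) :
    (W.dat y').tp < (W.dat y).tm + 1 := by
  have hy0 : (0 : ℝ) < y := by exact_mod_cast h0
  have hy1' : (y' : ℝ) < 1 := by exact_mod_cast h1'
  have h2 := s2_width W.m W.w (W.dat y).tm W.k h.wide.pos h.wide.bits (by
    have := nu_tm h h0 h1
    unfold nu at this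
    linarith)
  refine lt_of_nu (W := W) ?_
  rw [nu_tp h h0' h1']
  unfold nu
  linarith

end WS

/-! ### the interval around `x` -/

section

variable {x : ℚ}

lemma den_pos' (x : ℚ) : (0 : ℝ) < x.den := by exact_mod_cast x.den_pos

lemma one_div_den_le (h0 : 0 < x) : 1 / (x.den : ℝ) ≤ x := by
  have h1 := den_pos' x
  rw [div_le_iff₀ h1]
  have h2 : (1 : ℤ) ≤ x.num := Rat.num_pos.2 h0
  have h3 : (x : ℝ) * x.den = x.num := by exact_mod_cast Rat.mul_den_eq_num x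
  rw [h3]
  exact_mod_cast h2

lemma one_div_den_le' (h1 : x < 1) : (x : ℝ) + 1 / x.den ≤ 1 := by
  have h2 := den_pos' x
  have h3 : (x : ℝ) * x.den = x.num := by exact_mod_cast Rat.mul_den_eq_num x
  have h4 : (x : ℝ) < 1 := by exact_mod_cast h1
  have h5 : (x.num : ℝ) < x.den := by rw [← h3]; nlinarith
  have h6 : x.num < x.den := by exact_mod_cast h5
  have h7 : (x.num : ℝ) + 1 ≤ x.den := by exact_mod_cast h6
  have h8 : ((x : ℝ) + 1 / x.den) * x.den ≤ 1 * x.den := by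
    rw [add_mul, h3, one_div, inv_mul_cancel₀ h2.ne', one_mul]
    exact h7
  exact le_of_mul_le_mul_right h8 h2

end

/-! ### gates on a grid -/

/-- the grid points near `[s, t]` -/
noncomputable def grid (B : ℕ) (s t : ℝ) : Finset ℕ :=
  (Finset.range B).filter fun a => s - 1 / B ≤ (a : ℝ) / B ∧ (a : ℝ) / B ≤ t + 1 / B

lemma mem_grid {B : ℕ} {s t : ℝ} {a : ℕ} :
    a ∈ grid B s t ↔ a < B ∧ s - 1 / B ≤ (a : ℝ) / B ∧ (a : ℝ) / B ≤ t + 1 / B := by
  unfold grid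
  rw [Finset.mem_filter, Finset.mem_range]

lemma grid_near {B : ℕ} (hB : 0 < B) {s t y : ℝ} (hs : 1 / B < s) (ht : t < 1 - 1 / B)
    (h1 : s ≤ y) (h2 : y ≤ t) : ∃ a ∈ grid B s t, |y - (a : ℝ) / B| ≤ 1 / (2 * B) := by
  have hBR : (0 : ℝ) < B := by exact_mod_cast hB
  have h3 : 0 < 1 / (B : ℝ) := by positivity
  have hy0 : 0 < y := by linarith
  have e1 : 1 / (2 * (B : ℝ)) = 1 / B / 2 := by field_simp
  have hfl := Nat.floor_le (show 0 ≤ y * B + 1 / 2 by positivity)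
  have hfl2 := Nat.lt_floor_add_one (y * B + 1 / 2)
  have habs : |y - (⌊y * B + 1 / 2⌋₊ : ℝ) / B| ≤ 1 / (2 * B) := by
    have e2 : y - (⌊y * B + 1 / 2⌋₊ : ℝ) / B = (y * B - ⌊y * B + 1 / 2⌋₊) / B := by
      field_simp
    rw [e2, abs_div, abs_of_pos hBR, div_le_div_iff₀ hBR (by positivity), one_mul]
    have h4 : |y * B - (⌊y * B + 1 / 2⌋₊ : ℝ)| ≤ 1 / 2 := by
      rw [abs_le]; constructor <;> linarith
    nlinarith
  have habs' := abs_le.1 habs
  rw [e1] at habs'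
  refine ⟨⌊y * B + 1 / 2⌋₊, mem_grid.2 ⟨?_, by linarith, by linarith⟩, habs⟩
  have h5 : (⌊y * B + 1 / 2⌋₊ : ℝ) / B < 1 := by linarith
  rw [div_lt_one hBR] at h5
  exact_mod_cast h5

lemma card_grid {B : ℕ} (hB : 0 < B) {s t : ℝ} (hst : s ≤ t) (hs : 1 / B < s) :
    ((grid B s t).card : ℝ) ≤ (t - s) * B + 3 := by
  have hBR : (0 : ℝ) < B := by exact_mod_cast hB
  have hsB : 1 < s * B := by
    have := mul_lt_mul_of_pos_right hs hBR
    rwa [one_div, inv_mul_cancel₀ hBR.ne'] at this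
  have hsub : grid B s t ⊆ Finset.Icc ⌈s * B - 1⌉₊ ⌊t * B + 1⌋₊ := by
    intro a ha
    obtain ⟨-, h1, h2⟩ := mem_grid.1 ha
    rw [Finset.mem_Icc]
    have e1 : (a : ℝ) / B * B = a := by field_simp
    constructor
    · refine Nat.ceil_le.2 ?_
      have := mul_le_mul_of_nonneg_right h1 hBR.le
      rw [e1, sub_mul, one_div, inv_mul_cancel₀ hBR.ne'] at this
      exact this
    · refine Nat.le_floor ?_
      have := mul_le_mul_of_nonneg_right h2 hBR.le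
      rw [e1, add_mul, one_div, inv_mul_cancel₀ hBR.ne'] at this
      exact this
  have h1 := Finset.card_le_card hsub
  rw [Nat.card_Icc] at h1
  have h2 := Nat.le_ceil (s * B - 1)
  have h3 := Nat.floor_le (show 0 ≤ t * B + 1 by nlinarith)
  have h4 : ((⌊t * B + 1⌋₊ + 1 - ⌈s * B - 1⌉₊ : ℕ) : ℝ) ≤ (t - s) * B + 3 := by
    rcases Nat.lt_or_ge (⌊t * B + 1⌋₊ + 1) ⌈s * B - 1⌉₊ with h5 | h5
    · rw [Nat.sub_eq_zero_of_le h5.le, Nat.cast_zero]
      nlinarith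
    · rw [Nat.cast_sub h5]
      push_cast
      linarith
  refine le_trans ?_ h4
  exact_mod_cast h1

lemma axisPt_eq26 (x : ℚ) : axisPt x = 2 * Real.pi * ((x : ℝ) : ℂ) * I := by
  unfold axisPt
  push_cast
  ring

lemma dist_axis (y : ℝ) (x : ℚ) :
    dist ((2 * Real.pi * y * I : ℂ)) (axisPt x) = 2 * Real.pi * |y - x| := by
  rw [axisPt_eq26, dist_eq_norm]
  have e : (2 * Real.pi * y * I : ℂ) - 2 * Real.pi * ((x : ℝ) : ℂ) * I =
      ((2 * Real.pi * (y - x) : ℝ) : ℂ) * I := by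
    push_cast; ring
  rw [e, norm_mul, Complex.norm_I, mul_one, Complex.norm_real, Real.norm_eq_abs, abs_mul,
    abs_of_pos (by positivity)]

/-- the gates on the grid -/
theorem gates26 (hG : Q_gate) {W : WS} (hW : W.Ok) {B : ℕ} (hB : 0 < B) {s t : ℝ} (hst : s ≤ t)
    (hs : 1 / B < s) (ht : t < 1 - 1 / B)
    (hr : ∀ a ∈ grid B s t, 10 / (B : ℝ) ≤ gR W.m ((a : ℚ) / B) / 8) :
    (∀ a ∈ grid B s t, 0 < (a : ℚ) / B ∧ (a : ℚ) / B < 1 ∧
      Bornology.IsBounded (W.Gt ((a : ℚ) / B) (10 / B))) ∧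
    (∀ y : ℝ, s ≤ y → y ≤ t → ∃ a ∈ grid B s t, ∀ ρ : ℝ, ρ ≤ 6 / B →
      W.c '' closedBall (2 * Real.pi * y * I) ρ ⊆ W.Gt ((a : ℚ) / B) (10 / B)) ∧
    (∑ a ∈ grid B s t, diam (W.Gt ((a : ℚ) / B) (10 / B))) ^ 2 ≤
      ((t - s) * B + 3) * (10 ^ 12 *
        ∑ a ∈ grid B s t, (volume (W.Hf ((a : ℚ) / B) (10 / B))).toReal) := by
  have hBR : (0 : ℝ) < B := by exact_mod_cast hB
  have hcast : ∀ a : ℕ, (((a : ℚ) / B : ℚ) : ℝ) = (a : ℝ) / B := by intro a; push_cast; rfl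
  have h01 : ∀ a ∈ grid B s t, 0 < (a : ℚ) / B ∧ (a : ℚ) / B < 1 := by
    intro a ha
    obtain ⟨h1, h2, h3⟩ := mem_grid.1 ha
    have h4 : (0 : ℝ) < (a : ℝ) / B := by linarith
    have h5 : (a : ℝ) / B < 1 := by
      rw [div_lt_one hBR]
      exact_mod_cast h1
    rw [← hcast a] at h4 h5
    exact ⟨by exact_mod_cast h4, by exact_mod_cast h5⟩
  have hg := fun a (ha : a ∈ grid B s t) => hG W hW ((a : ℚ) / B) (10 / B) (h01 a ha).1
    (h01 a ha).2 (by positivity) (hr a ha)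
  refine ⟨fun a ha => ⟨(h01 a ha).1, (h01 a ha).2, (hg a ha).2.1⟩, ?_, ?_⟩
  · intro y h1 h2
    obtain ⟨a, ha, h3⟩ := grid_near hB hs ht h1 h2
    refine ⟨a, ha, fun ρ hρ => ?_⟩
    unfold WS.Gt
    refine image_mono (closedBall_subset_closedBall' ?_)
    rw [dist_axis, hcast a]
    have h4 : 2 * Real.pi * |y - (a : ℝ) / B| ≤ 2 * 4 * (1 / (2 * B)) := by
      have := Real.pi_lt_four
      gcongr
    have h5 : 2 * 4 * (1 / (2 * (B : ℝ))) = 4 / B := by field_simp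
    have h6 : 6 / (B : ℝ) + 4 / B = 10 / B := by ring
    linarith
  · have h1 : ∑ a ∈ grid B s t, diam (W.Gt ((a : ℚ) / B) (10 / B)) ≤
        ∑ a ∈ grid B s t, 10 ^ 6 * √((volume (W.Hf ((a : ℚ) / B) (10 / B))).toReal) :=
      Finset.sum_le_sum fun a ha => (hg a ha).2.2
    have h0 : 0 ≤ ∑ a ∈ grid B s t, diam (W.Gt ((a : ℚ) / B) (10 / B)) :=
      Finset.sum_nonneg fun a _ => diam_nonneg
    have h2 := pow_le_pow_left₀ h0 h1 2
    refine h2.trans ?_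
    refine (sq_sum_le_card_mul_sum_sq).trans ?_
    have h3 : ∑ a ∈ grid B s t, (10 ^ 6 * √((volume (W.Hf ((a : ℚ) / B) (10 / B))).toReal)) ^ 2 =
        10 ^ 12 * ∑ a ∈ grid B s t, (volume (W.Hf ((a : ℚ) / B) (10 / B))).toReal := by
      rw [Finset.mul_sum]
      refine Finset.sum_congr rfl fun a _ => ?_
      rw [mul_pow, Real.sq_sqrt ENNReal.toReal_nonneg]
      ring
    rw [h3]
    refine mul_le_mul_of_nonneg_right (card_grid hB hst hs) ?_
    have : 0 ≤ ∑ a ∈ grid B s t, (volume (W.Hf ((a : ℚ) / B) (10 / B))).toReal :=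
      Finset.sum_nonneg fun a _ => ENNReal.toReal_nonneg
    positivity

end Pool.Agent.Work.MLC.Cnt
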