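import Pool.Agent.Work.MLC.Cap26
import Pool.Agent.Work.MLC.CntL26
import Pool.Agent.Work.MLC.PerL54

set_option autoImplicit false

/-! # Theorem Cap, module DI: the distance of the angles near a root (helper43)

Between the plateaus of two Farey neighbours `a < b` with denominators of sum `> n / m + 1` there is
no angle of period `n` (`perL54`), hence their distance is at most `1 / (2 ^ n - 1)`. -/

namespace Pool.Agent.Work.MLC.Cap

open Filter Topology Metric Set Complex MeasureTheory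
open Pool.Agent.Work.MLC.Sat Pool.Agent.Work.MLC.Cnt
open scoped ENNReal

/-- the translates of the orbit of the angle -/
def OA (θ : ℝ) : Set ℝ := {x | ∃ (j : ℕ) (k : ℤ), x = 2 ^ j * θ + k}

lemma OA_tdbl {θ x : ℝ} (w : ℤ) (hx : x ∈ OA θ) : Circ.tdbl (θ + w) x ∈ OA θ := by
  obtain ⟨j, k, rfl⟩ := hx
  obtain ⟨l, hl⟩ : ∃ l : ℤ, l = ⌊(2 ^ j * θ + k) - (θ + w) / 2⌋ := ⟨_, rfl⟩
  have h1 := Int.floor_le ((2 ^ j * θ + k) - (θ + w) / 2)
  have h2 := Int.lt_floor_add_one ((2 ^ j * θ + k) - (θ + w) / 2)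
  rw [← hl] at h1 h2
  rcases le_total (2 ^ j * θ + k) ((θ + w) / 2 + l + 1 / 2) with h | h
  · refine ⟨j + 1, 2 * k - l, ?_⟩
    rw [Circ.tdbl_lin l (by linarith) h, pow_succ]
    push_cast; ring
  · refine ⟨0, w + l + 1, ?_⟩
    rw [Circ.tdbl_flat l h (by linarith)]
    push_cast; ring

lemma OA_gw {θ x : ℝ} (w : ℕ → ℤ) (hx : x ∈ OA θ) (n : ℕ) : Circ.gw w θ n x ∈ OA θ := by
  induction n with
  | zero => exact hx
  | succ n ih => exact OA_tdbl _ ih

lemma OA_iter {θ x : ℝ} (w : ℕ → ℤ) (m : ℕ) (hx : x ∈ OA θ) (i : ℕ) :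
    ((Circ.gw w θ m) ^ i) x ∈ OA θ := by
  induction i with
  | zero => exact hx
  | succ i ih => rw [pow_succ']; exact OA_gw w ih m

lemma OA_fract {θ : ℝ} {n : ℕ} (hn : 0 < n) {a : ℤ} (ht : (2 : ℝ) ^ n * θ - θ = a) {x : ℝ}
    (hx : x ∈ OA θ) :
    Int.fract x ∈ (fun i : ℕ => Int.fract ((2 : ℝ) ^ i * θ)) '' (Finset.range n : Set ℕ) := by
  obtain ⟨j, k, rfl⟩ := hx
  have key : ∀ j : ℕ, ∃ i < n, ∃ k : ℤ, (2 : ℝ) ^ j * θ = 2 ^ i * θ + k := by
    intro j
    induction j with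
    | zero => exact ⟨0, hn, 0, by simp⟩
    | succ j ih =>
      obtain ⟨i, hi, k, hk⟩ := ih
      rcases Nat.lt_or_ge (i + 1) n with h | h
      · refine ⟨i + 1, h, 2 * k, ?_⟩
        rw [pow_succ, pow_succ]; push_cast; linarith
      · have e : i + 1 = n := by omega
        refine ⟨0, hn, 2 * k + a, ?_⟩
        have h3 : (2 : ℝ) ^ (i + 1) * θ - θ = a := by rw [e]; exact ht
        rw [pow_succ] at h3 ⊢
        push_cast; simp only [pow_zero, one_mul]; linarith
  obtain ⟨i, hi, k', hk'⟩ := key j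
  refine ⟨i, by simpa using hi, ?_⟩
  rw [hk']
  show Int.fract ((2 : ℝ) ^ i * θ) = _
  rw [Int.fract_add_intCast, Int.fract_add_intCast]

/-- **the rotation number of a periodic angle is rational** -/
theorem nu_rat43 {w : ℕ → ℤ} {m n : ℕ} {θ : ℝ} (hn : 0 < n)
    (ht : ∃ a : ℤ, (2 : ℝ) ^ n * θ - θ = a) : ∃ r : ℚ, Circ.nu w m θ = r := by
  obtain ⟨a, ha⟩ := ht
  have h0 : θ ∈ OA θ := ⟨0, 0, by simp⟩
  obtain ⟨i, -, j, -, hij, he⟩ := Set.Infinite.exists_lt_map_eq_of_mapsTo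
    (s := (Set.univ : Set ℕ)) (t := (fun i : ℕ => Int.fract ((2 : ℝ) ^ i * θ)) ''
      (Finset.range n : Set ℕ)) (f := fun i : ℕ => Int.fract (((Circ.gw w θ m) ^ i) θ))
    Set.infinite_univ (fun i _ => OA_fract hn ha (OA_iter w m h0 i))
    ((Finset.finite_toSet _).image _)
  obtain ⟨z, hz⟩ := Int.fract_eq_fract.1 he
  obtain ⟨q, rfl⟩ : ∃ q, j = q + i := ⟨j - i, by omega⟩
  have hq : 0 < q := by omega
  have h1 : ((Circ.gw w θ m) ^ q) (((Circ.gw w θ m) ^ i) θ) =
      ((Circ.gw w θ m) ^ i) θ + ((-z : ℤ) : ℝ) := by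
    have h2 : ((Circ.gw w θ m) ^ (q + i)) θ =
        ((Circ.gw w θ m) ^ q) (((Circ.gw w θ m) ^ i) θ) := by rw [pow_add]; rfl
    rw [← h2]; push_cast; linarith
  refine ⟨((-z : ℤ) : ℚ) / q, ?_⟩
  have h2 := CircleDeg1Lift.translationNumber_of_map_pow_eq_add_int _ h1 hq
  unfold Circ.nu
  rw [h2]; push_cast; rfl

/-- a fraction between Farey neighbours -/
lemma farey_den {a b r : ℚ} (h1 : a < r) (h2 : r < b)
    (hdet : b.num * a.den - a.num * b.den = 1) : a.den + b.den ≤ r.den := by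
  have ha : (a.num : ℚ) = a * a.den := (Rat.mul_den_eq_num a).symm
  have hb : (b.num : ℚ) = b * b.den := (Rat.mul_den_eq_num b).symm
  have hr : (r.num : ℚ) = r * r.den := (Rat.mul_den_eq_num r).symm
  have a0 : (0 : ℚ) < a.den := by exact_mod_cast a.den_pos
  have b0 : (0 : ℚ) < b.den := by exact_mod_cast b.den_pos
  have r0 : (0 : ℚ) < r.den := by exact_mod_cast r.den_pos
  have k1 : 1 ≤ r.num * a.den - a.num * r.den := by
    have : (0 : ℚ) < r.num * a.den - a.num * r.den := by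
      rw [ha, hr]
      have : r * r.den * a.den - a * a.den * r.den = (r - a) * (r.den * a.den) := by ring
      rw [this]
      exact mul_pos (by linarith) (by positivity)
    have : 0 < r.num * a.den - a.num * r.den := by exact_mod_cast this
    omega
  have k2 : 1 ≤ b.num * r.den - r.num * b.den := by
    have : (0 : ℚ) < b.num * r.den - r.num * b.den := by
      rw [hb, hr]
      have : b * b.den * r.den - r * r.den * b.den = (b - r) * (b.den * r.den) := by ring
      rw [this]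
      exact mul_pos (by linarith) (by positivity)
    have : 0 < b.num * r.den - r.num * b.den := by exact_mod_cast this
    omega
  have k3 : (r.den : ℤ) = (r.num * a.den - a.num * r.den) * b.den +
      (b.num * r.den - r.num * b.den) * a.den := by
    have : (r.num * a.den - a.num * r.den) * b.den + (b.num * r.den - r.num * b.den) * a.den =
      (b.num * a.den - a.num * b.den) * r.den := by ring
    rw [this, hdet, one_mul]
  have a0' : (0 : ℤ) < a.den := by exact_mod_cast a.den_pos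
  have b0' : (0 : ℤ) < b.den := by exact_mod_cast b.den_pos
  have : (a.den : ℤ) + b.den ≤ r.den := by
    rw [k3]
    nlinarith
  exact_mod_cast this

/-- **the plateaus of Farey neighbours are close** -/
theorem plateau_dist {W : WS} (hW : W.Ok) {a b : ℚ} (ha0 : 0 < a) (hb1 : b < 1)
    (hab : a < b) (hdet : b.num * a.den - a.num * b.den = 1) {K : ℕ} (hK : 0 < K)
    (hden : K + 2 ≤ a.den + b.den) :
    (W.dat b).tm - (W.dat a).tp ≤ 2 * (1 / 2) ^ (W.m * K) := by
  have hm := hW.wide.pos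
  have hn : 0 < W.m * K := Nat.mul_pos hm hK
  obtain ⟨n, hndef⟩ : ∃ n, n = W.m * K := ⟨_, rfl⟩
  rw [← hndef] at hn ⊢
  have h2n : (2 : ℝ) ≤ 2 ^ n := by
    calc (2 : ℝ) = 2 ^ 1 := by norm_num
      _ ≤ 2 ^ n := pow_le_pow_right₀ (by norm_num) hn
  by_contra hcon
  push Not at hcon
  have h3 : 1 / ((2 : ℝ) ^ n - 1) ≤ 2 * (1 / 2) ^ n := by
    rw [one_div_pow, div_le_iff₀ (by linarith), ← mul_div_assoc, mul_one, div_mul_eq_mul_div,
      le_div_iff₀ (by positivity)]
    linarith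
  have h4 : 1 / ((2 : ℝ) ^ n - 1) < (W.dat b).tm - (W.dat a).tp := lt_of_le_of_lt h3 hcon
  rw [div_lt_iff₀ (by linarith)] at h4
  -- a periodic angle in the gap
  obtain ⟨j, hj⟩ : ∃ j : ℤ, j = ⌊((2 : ℝ) ^ n - 1) * (W.dat a).tp⌋ + 1 := ⟨_, rfl⟩
  have h5 := Int.floor_le (((2 : ℝ) ^ n - 1) * (W.dat a).tp)
  have h6 := Int.lt_floor_add_one (((2 : ℝ) ^ n - 1) * (W.dat a).tp)
  have h7 : ((2 : ℝ) ^ n - 1) * (W.dat a).tp < j := by rw [hj]; push_cast; exact h6
  have h8 : (j : ℝ) < ((2 : ℝ) ^ n - 1) * (W.dat b).tm := by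
    rw [hj]; push_cast; linarith
  obtain ⟨θ, hθ⟩ : ∃ θ : ℝ, θ = j / ((2 : ℝ) ^ n - 1) := ⟨_, rfl⟩
  have hpos : (0 : ℝ) < 2 ^ n - 1 := by linarith
  have h9 : (W.dat a).tp < θ := by rw [hθ, lt_div_iff₀ hpos]; linarith
  have h10 : θ < (W.dat b).tm := by rw [hθ, div_lt_iff₀ hpos]; linarith
  have hper : ∃ i : ℤ, (2 : ℝ) ^ n * θ - θ = i := ⟨j, by rw [hθ]; field_simp⟩
  obtain ⟨r, hr⟩ := nu_rat43 (w := W.w) (m := W.m) hn hper
  have ha1 : a < 1 := hab.trans hb1
  have hb0 : 0 < b := ha0.trans hab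
  have hnu : W.nu θ = ((r - W.k : ℚ) : ℝ) := by
    unfold WS.nu; rw [hr]; push_cast; rfl
  have e1 : (a : ℝ) < ((r - W.k : ℚ) : ℝ) := by
    have h11 := W.nu_mono h9.le
    rw [WS.nu_tp hW ha0 ha1, hnu] at h11
    refine lt_of_le_of_ne h11 fun he => ?_
    have := (WS.plateau hW ha0 ha1 θ).1 (by rw [hnu, ← he])
    linarith [this.2]
  have e2 : ((r - W.k : ℚ) : ℝ) < b := by
    have h11 := W.nu_mono h10.le
    rw [WS.nu_tm hW hb0 hb1, hnu] at h11
    refine lt_of_le_of_ne h11 fun he => ?_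
    have := (WS.plateau hW hb0 hb1 θ).1 (by rw [hnu, he])
    linarith [this.1]
  have e1' : a < r - W.k := by exact_mod_cast e1
  have e2' : r - W.k < b := by exact_mod_cast e2
  have h12 := farey_den e1' e2' hdet
  have h13 := perL54 (κ := W.k) (y := r - W.k) hm (hW.wide.word hW.ex) (ha0.trans e1') (e2'.trans hb1) hn
    hper (by rw [hr]; push_cast; ring)
  rw [hndef, mul_comm W.m] at h13
  have h14 := Nat.lt_of_mul_lt_mul_right h13
  omega

/-- **DI** -/
theorem c_dist : C_dist := by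
  intro W hW x u v y hx0 hx1 hN
  have hq := x.den_pos
  have hu0 : 0 < u := by
    refine lt_of_lt_of_le ?_ hN.u0
    have : (0 : ℚ) < x.den := by exact_mod_cast x.den_pos
    positivity
  have hv1 : v < 1 := by
    refine lt_of_le_of_lt hN.v1 ?_
    have : (0 : ℚ) < x.den := by exact_mod_cast x.den_pos
    have h : (0 : ℚ) < 2 / (3 * x.den) := by positivity
    linarith
  obtain ⟨hdu, -⟩ := hN.denu
  obtain ⟨hdv, -⟩ := hN.denv
  constructor
  · intro h1 h2
    have h3 := plateau_dist hW (K := 3 * x.den - 1) hu0 hx1 hN.ux hN.detu (by omega) (by omega)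
    have h4 : (W.dat u).tp < (W.dat y).tm := by
      refine WS.lt_of_nu (W := W) ?_
      rw [WS.nu_tp hW hu0 (hN.ux.trans hx1), WS.nu_tm hW (hu0.trans h1) (h2.trans hx1)]
      exact_mod_cast h1
    unfold DD
    linarith
  · intro h1 h2
    have h3 := plateau_dist hW (K := 3 * x.den - 1) hx0 hv1 hN.xv hN.detv (by omega) (by omega)
    have h4 : (W.dat y).tp < (W.dat v).tm := by
      refine WS.lt_of_nu (W := W) ?_
      rw [WS.nu_tp hW (hx0.trans h1) (h2.trans hv1), WS.nu_tm hW (hx0.trans hN.xv) hv1]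
      exact_mod_cast h2
    unfold DD
    linarith

end Pool.Agent.Work.MLC.Cap
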