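import Pool.Agent.Work.MLC.Cap26

set_option autoImplicit false

/-! # Theorem Cap, the multiplicity lemma (helper26) -/

namespace Pool.Agent.Work.MLC.Cap

open Filter Topology Metric Set Complex MeasureTheory
open Pool.Agent.Work.MLC.Sat Pool.Agent.Work.MLC.Cnt
open scoped ENNReal

lemma two_thirds_pow : ((2 : ℝ) / 3) ^ ((1 : ℝ) / 8) ≤ 20 / 21 := by
  have h1 : ((2 : ℝ) / 3) ≤ (20 / 21) ^ (8 : ℕ) := by norm_num
  have h2 := Real.rpow_le_rpow (by norm_num) h1 (show (0 : ℝ) ≤ 1 / 8 by norm_num)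
  refine h2.trans ?_
  rw [← Real.rpow_natCast, ← Real.rpow_mul (by norm_num)]
  norm_num

/-- geometric sum over a set in which blocks have bounded cardinality -/
lemma block_sum {ι : Type*} [DecidableEq ι] (Λ : ι → ℝ) (C₀ : ℝ) (hC : 0 ≤ C₀) (N : ℕ) :
    ∀ S : Finset ι, S.card ≤ N → (∀ i ∈ S, 0 < Λ i) →
    (∀ T ⊆ S, (∀ i ∈ T, ∀ j ∈ T, Λ i ≤ 3 / 2 * Λ j) → (T.card : ℝ) ≤ C₀) →
    ∀ X : ℝ, (∀ i ∈ S, Λ i ≤ X) → ∑ i ∈ S, (Λ i / X) ^ ((1 : ℝ) / 8) ≤ 21 * C₀ := by
  induction N with
  | zero =>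
    intro S hS _ _ X _
    have : S = ∅ := Finset.card_eq_zero.1 (by omega)
    rw [this, Finset.sum_empty]
    positivity
  | succ N ih =>
    intro S hS hpos hb X hX
    rcases S.eq_empty_or_nonempty with rfl | hne
    · rw [Finset.sum_empty]; positivity
    obtain ⟨i₀, hi₀, hmax⟩ := S.exists_max_image Λ hne
    have hM : 0 < Λ i₀ := hpos i₀ hi₀
    have hX0 : 0 < X := hM.trans_le (hX i₀ hi₀)
    rw [← Finset.sum_filter_add_sum_filter_not S (fun i => 2 / 3 * Λ i₀ < Λ i)]
    have h1 : ∑ i ∈ S.filter (fun i => 2 / 3 * Λ i₀ < Λ i), (Λ i / X) ^ ((1 : ℝ) / 8) ≤ C₀ := by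
      refine le_trans ?_ (hb (S.filter (fun i => 2 / 3 * Λ i₀ < Λ i)) (Finset.filter_subset _ _) ?_)
      · rw [Finset.card_eq_sum_ones, Nat.cast_sum]
        refine Finset.sum_le_sum fun i hi => ?_
        have hiS := (Finset.mem_filter.1 hi).1
        rw [Nat.cast_one]
        refine Real.rpow_le_one (div_nonneg (hpos i hiS).le hX0.le) ?_ (by norm_num)
        rw [div_le_one hX0]
        exact hX i hiS
      · intro i hi j hj
        have h2 := hmax i (Finset.mem_filter.1 hi).1
        have h3 := (Finset.mem_filter.1 hj).2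
        linarith
    have h2 : ∑ i ∈ S.filter (fun i => ¬ 2 / 3 * Λ i₀ < Λ i), (Λ i / X) ^ ((1 : ℝ) / 8) ≤
        20 / 21 * (21 * C₀) := by
      have h3 := ih (S.filter (fun i => ¬ 2 / 3 * Λ i₀ < Λ i)) ?_
        (fun i hi => hpos i (Finset.mem_filter.1 hi).1)
        (fun T hT => hb T (hT.trans (Finset.filter_subset _ _))) (2 / 3 * Λ i₀)
        (fun i hi => not_lt.1 (Finset.mem_filter.1 hi).2)
      · refine le_trans ?_ (mul_le_mul_of_nonneg_left h3 (by norm_num))
        rw [Finset.mul_sum]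
        refine Finset.sum_le_sum fun i hi => ?_
        have hiS := (Finset.mem_filter.1 hi).1
        have e : Λ i / X = (2 / 3 * Λ i₀ / X) * (Λ i / (2 / 3 * Λ i₀)) := by
          field_simp
        rw [e, Real.mul_rpow (by positivity) (div_nonneg (hpos i hiS).le (by positivity))]
        refine mul_le_mul_of_nonneg_right ?_ (Real.rpow_nonneg
          (div_nonneg (hpos i hiS).le (by positivity)) _)
        refine le_trans (Real.rpow_le_rpow (by positivity) ?_ (by norm_num)) two_thirds_pow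
        rw [div_le_iff₀ hX0]
        have := hX i₀ hi₀
        nlinarith
      · have h4 : (S.filter (fun i => ¬ 2 / 3 * Λ i₀ < Λ i)).card < S.card := by
          refine Finset.card_lt_card ?_
          refine Finset.filter_ssubset.2 ⟨i₀, hi₀, ?_⟩
          push Not
          linarith
        omega
    linarith

/-- separated points in an interval -/
lemma sep_card {ι : Type*} (T : Finset ι) (e : ι → ℝ) (A L d : ℝ) (hd : 0 < d)
    (hA : ∀ i ∈ T, A ≤ e i ∧ e i ≤ A + L)
    (hs : ∀ i ∈ T, ∀ j ∈ T, i ≠ j → d ≤ |e i - e j|) (hL : 0 ≤ L) : (T.card : ℝ) ≤ L / d + 1 := by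
  have h1 : T.card ≤ (Finset.range (⌊L / d⌋₊ + 1)).card := by
    refine Finset.card_le_card_of_injOn (fun i => ⌊(e i - A) / d⌋₊) ?_ ?_
    · intro i hi
      obtain ⟨h1, h2⟩ := hA i hi
      have h3 : (e i - A) / d ≤ L / d := by gcongr; linarith
      have h4 := Nat.floor_le_floor h3
      simp only [Finset.coe_range, mem_Iio]
      omega
    · intro i hi j hj hij
      by_contra hne
      have h3 := hs i hi j hj hne
      obtain ⟨h1, -⟩ := hA i hi
      obtain ⟨h2, -⟩ := hA j hj
      have h4 := Nat.floor_le (show 0 ≤ (e i - A) / d from div_nonneg (by linarith) hd.le)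
      have h5 := Nat.lt_floor_add_one ((e i - A) / d)
      have h6 := Nat.floor_le (show 0 ≤ (e j - A) / d from div_nonneg (by linarith) hd.le)
      have h7 := Nat.lt_floor_add_one ((e j - A) / d)
      have hij' : (⌊(e i - A) / d⌋₊ : ℝ) = ⌊(e j - A) / d⌋₊ := by exact_mod_cast hij
      have h8 : |(e i - A) / d - (e j - A) / d| < 1 := by
        rw [abs_lt]; constructor <;> linarith
      have e1 : (e i - A) / d - (e j - A) / d = (e i - e j) / d := by ring
      rw [e1, abs_div, abs_of_pos hd, div_lt_one hd] at h8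
      linarith
  rw [Finset.card_range] at h1
  have h2 := Nat.floor_le (show 0 ≤ L / d by positivity)
  have h3 : (T.card : ℝ) ≤ ⌊L / d⌋₊ + 1 := by exact_mod_cast h1
  linarith

/-- the exponent of the length -/
noncomputable def lam (l : ℝ) : ℝ := Real.logb 2 (1 / l)

lemma lam_anti {l l' : ℝ} (hl : 0 < l) (h : l ≤ l') : lam l' ≤ lam l := by
  unfold lam
  have hl' : 0 < l' := hl.trans_le h
  exact Real.logb_le_logb_of_le (by norm_num) (by positivity) (one_div_le_one_div_of_le hl h)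

/-- the family of the ends -/
structure Fam {ι : Type*} (F : Finset ι) (l n D e : ι → ℝ) : Prop where
  pos : ∀ i ∈ F, 0 < l i
  big : ∀ i ∈ F, 10 ≤ lam (l i)
  n0 : ∀ i ∈ F, 0 < n i
  n1 : ∀ i ∈ F, n i ≤ 6 * lam (l i)
  D1 : ∀ i ∈ F, D i ≤ l i ^ 2 / 2
  sep : ∀ i ∈ F, ∀ j ∈ F, i ≠ j → min (l i) (l j) ≤ |e i - e j| ∨
    9 / 5 * lam (l i) ≤ lam (l j) ∨ 9 / 5 * lam (l j) ≤ lam (l i)

variable {ι : Type*} {F : Finset ι} {l n D e : ι → ℝ}

/-- a block of the rays -/
lemma Fam.block (h : Fam F l n D e) {g t : ℝ} (hg : 0 < g) {T : Finset ι} (hT : T ⊆ F)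
    (h1 : ∀ i ∈ T, g ≤ 2 * l i ∧ |t - e i| ≤ D i + 8 * g)
    (h2 : ∀ i ∈ T, ∀ j ∈ T, lam (l i) ≤ 3 / 2 * lam (l j)) : (T.card : ℝ) ≤ 38 := by
  classical
  have hsep : ∀ i ∈ T, ∀ j ∈ T, i ≠ j → min (l i) (l j) ≤ |e i - e j| := by
    intro i hi j hj hne
    have b1 := h.big i (hT hi)
    have b2 := h.big j (hT hj)
    rcases h.sep i (hT hi) j (hT hj) hne with h3 | h3 | h3
    · exact h3
    · have := h2 j hj i hi
      linarith
    · have := h2 i hi j hj
      linarith
  have hcard := Finset.card_filter_add_card_filter_not (s := T) (fun i => D i ≤ g)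
  have hnear : ((T.filter fun i => D i ≤ g).card : ℝ) ≤ 37 := by
    have h3 := sep_card (T.filter fun i => D i ≤ g) e (t - 9 * g) (18 * g) (g / 2) (by positivity)
      ?_ ?_ (by positivity)
    · have e1 : 18 * g / (g / 2) + 1 = 37 := by field_simp; norm_num
      rwa [e1] at h3
    · intro i hi
      obtain ⟨hiT, hD⟩ := Finset.mem_filter.1 hi
      have h4 := (h1 i hiT).2
      rw [abs_le] at h4
      constructor <;> linarith
    · intro i hi j hj hne
      obtain ⟨hiT, -⟩ := Finset.mem_filter.1 hi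
      obtain ⟨hjT, -⟩ := Finset.mem_filter.1 hj
      refine le_trans (le_min ?_ ?_) (hsep i hiT j hjT hne)
      · have := (h1 i hiT).1; linarith
      · have := (h1 j hjT).1; linarith
  have hfar : (T.filter fun i => ¬ D i ≤ g).card ≤ 1 := by
    rw [Finset.card_le_one]
    intro i hi j hj
    by_contra hne
    wlog hl : l i ≤ l j generalizing i j
    · exact this j hj i hi (Ne.symm hne) (le_of_not_ge hl)
    obtain ⟨hiT, hDi⟩ := Finset.mem_filter.1 hi
    obtain ⟨hjT, hDj⟩ := Finset.mem_filter.1 hj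
    push Not at hDi hDj
    have h3 := hsep i hiT j hjT hne
    rw [min_eq_left hl] at h3
    have h4 := (h1 i hiT).2
    have h5 := (h1 j hjT).2
    have h6 : |e i - e j| ≤ 9 * D i + 9 * D j := by
      rw [abs_le] at h4 h5 ⊢
      constructor <;> linarith
    have h7 := h.D1 i (hT hiT)
    have h8 := h.D1 j (hT hjT)
    have pi := h.pos i (hT hiT)
    have pj := h.pos j (hT hjT)
    have h9 : l i ≤ 9 * l j ^ 2 := by nlinarith
    have h10 := lam_anti pi h9
    have h11 : lam (9 * l j ^ 2) = 2 * lam (l j) - Real.logb 2 9 := by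
      unfold lam
      rw [one_div, one_div, Real.logb_inv, Real.logb_inv, Real.logb_mul (by norm_num)
        (by positivity), Real.logb_pow]
      push_cast
      ring
    have h12 : Real.logb 2 9 ≤ 4 := by
      have h13 := Real.logb_le_logb_of_le (b := 2) (by norm_num) (by norm_num)
        (show (9 : ℝ) ≤ 2 ^ (4 : ℕ) by norm_num)
      rw [Real.logb_pow, Real.logb_self_eq_one (by norm_num)] at h13
      push_cast at h13
      linarith
    have h14 := h2 i hiT j hjT
    have h15 := h.big j (hT hjT)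
    linarith
  have hfar' : ((T.filter fun i => ¬ D i ≤ g).card : ℝ) ≤ 1 := by exact_mod_cast hfar
  have hc : (T.card : ℝ) = ((T.filter fun i => D i ≤ g).card : ℝ) +
      (T.filter fun i => ¬ D i ≤ g).card := by
    exact_mod_cast hcard.symm
  linarith

/-- **the multiplicity lemma** -/
theorem Fam.mult (h : Fam F l n D e) {g t : ℝ} (hg : 0 < g) {S : Finset ι} (hS : S ⊆ F)
    (h1 : ∀ i ∈ S, g ≤ 2 * l i ∧ |t - e i| ≤ D i + 8 * g) :
    ∑ i ∈ S, 1 / bet (4 * n i) g ≤ 10 ^ 4 := by
  classical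
  rcases S.eq_empty_or_nonempty with rfl | ⟨i₁, hi₁⟩
  · rw [Finset.sum_empty]; positivity
  obtain ⟨X, hX⟩ : ∃ X, X = Real.logb 2 (1 / g) + 1 := ⟨_, rfl⟩
  have hle : ∀ i ∈ S, lam (l i) ≤ X := by
    intro i hi
    have h2 := (h1 i hi).1
    have h3 : g / 2 ≤ l i := by linarith
    have h4 := lam_anti (by positivity) h3
    have h5 : lam (g / 2) = X := by
      unfold lam
      rw [hX, one_div_div, one_div, Real.logb_div (by norm_num) hg.ne', Real.logb_inv,
        Real.logb_self_eq_one (by norm_num)]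
      ring
    rw [h5] at h4
    exact h4
  have hXbig : 10 ≤ X := (h.big i₁ (hS hi₁)).trans (hle i₁ hi₁)
  have h2 := block_sum (fun i => lam (l i)) 38 (by norm_num) S.card S le_rfl
    (fun i hi => by have := h.big i (hS hi); linarith)
    (fun T hT hT2 => h.block hg (hT.trans hS) (fun i hi => h1 i (hT hi)) hT2) X hle
  have h3 : ∑ i ∈ S, 1 / bet (4 * n i) g ≤ ∑ i ∈ S, 2 * (lam (l i) / X) ^ ((1 : ℝ) / 8) := by
    refine Finset.sum_le_sum fun i hi => ?_
    have b1 := h.big i (hS hi)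
    have b2 := h.n0 i (hS hi)
    have b3 := h.n1 i (hS hi)
    have h4 : (X / (256 * lam (l i))) ^ ((1 : ℝ) / 8) ≤ bet (4 * n i) g := by
      unfold bet
      refine Real.rpow_le_rpow (by positivity) ?_ (by norm_num)
      refine le_trans ?_ (le_max_right _ _)
      have e1 : Real.logb 2 (1 / g) = X - 1 := by rw [hX]; ring
      rw [e1, div_le_div_iff₀ (by positivity) (by positivity)]
      nlinarith
    have h5 : 0 < (X / (256 * lam (l i))) ^ ((1 : ℝ) / 8) := by positivity
    have h6 : 1 / bet (4 * n i) g ≤ 1 / (X / (256 * lam (l i))) ^ ((1 : ℝ) / 8) :=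
      one_div_le_one_div_of_le h5 h4
    refine h6.trans (le_of_eq ?_)
    rw [one_div, ← Real.inv_rpow (by positivity), inv_div]
    have e2 : 256 * lam (l i) / X = (2 : ℝ) ^ (8 : ℕ) * (lam (l i) / X) := by ring
    rw [e2, Real.mul_rpow (by positivity) (by positivity), ← Real.rpow_natCast,
      ← Real.rpow_mul (by norm_num)]
    norm_num
  rw [← Finset.mul_sum] at h3
  linarith

/-- the multiplicity of the roofs -/
theorem Fam.roof (h : Fam F l n D e) {g t : ℝ} (hg : 0 < g) {S : Finset ι} (hS : S ⊆ F)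
    (h1 : ∀ i ∈ S, l i / 2 < g ∧ g < 2 * l i ∧ e i - 3 * l i < t ∧ t < e i + 3 * l i) :
    (S.card : ℝ) ≤ 25 := by
  have h2 := sep_card S e (t - 6 * g) (12 * g) (g / 2) (by positivity) ?_ ?_ (by positivity)
  · have e1 : 12 * g / (g / 2) + 1 = 25 := by field_simp; norm_num
    rwa [e1] at h2
  · intro i hi
    obtain ⟨a1, a2, a3, a4⟩ := h1 i hi
    constructor <;> linarith
  · intro i hi j hj hne
    obtain ⟨a1, a2, -, -⟩ := h1 i hi
    obtain ⟨b1, b2, -, -⟩ := h1 j hj
    have c1 := h.big i (hS hi)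
    have c2 := h.big j (hS hj)
    have pi := h.pos i (hS hi)
    have pj := h.pos j (hS hj)
    have hl : ∀ a b : ℝ, 0 < a → 0 < b → b < 4 * a → lam a ≤ lam b + 2 := by
      intro a b ha hb hab
      have h3 : b / 4 ≤ a := by linarith
      have h4 := lam_anti (by positivity) h3
      have h5 : lam (b / 4) = lam b + 2 := by
        unfold lam
        rw [one_div_div, one_div, Real.logb_div (by norm_num) hb.ne', Real.logb_inv,
          show (4 : ℝ) = 2 ^ (2 : ℕ) by norm_num, Real.logb_pow,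
          Real.logb_self_eq_one (by norm_num)]
        push_cast
        ring
      linarith
    have d1 := hl (l i) (l j) pi pj (by linarith)
    have d2 := hl (l j) (l i) pj pi (by linarith)
    rcases h.sep i (hS hi) j (hS hj) hne with h3 | h3 | h3
    · refine le_trans (le_min ?_ ?_) h3 <;> linarith
    · linarith
    · linarith

/-- the strip -/
def St : Set ℂ := {z | 0 < z.re ∧ z.re ≤ 2 ∧ -20 < z.im ∧ z.im < 20}

lemma meas_St : MeasurableSet St := by
  have e : St = {z : ℂ | 0 < z.re} ∩ ({z : ℂ | z.re ≤ 2} ∩ ({z : ℂ | -20 < z.im} ∩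
      {z : ℂ | z.im < 20})) := rfl
  rw [e]
  exact (isOpen_lt (by fun_prop) (by fun_prop)).measurableSet.inter
    ((isClosed_le (by fun_prop) (by fun_prop)).measurableSet.inter
    ((isOpen_lt (by fun_prop) (by fun_prop)).measurableSet.inter
      (isOpen_lt (by fun_prop) (by fun_prop)).measurableSet))

lemma meas_RS (e D H : ℝ) : MeasurableSet (RS e D H) := by
  have e : RS e D H = {z : ℂ | 0 < z.re} ∩ ({z : ℂ | z.re ≤ 2 * H} ∩
      {z : ℂ | |z.im / (2 * Real.pi) - e| ≤ D + 8 * z.re}) := rfl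
  rw [e]
  exact (isOpen_lt (by fun_prop) (by fun_prop)).measurableSet.inter
    ((isClosed_le (by fun_prop) (by fun_prop)).measurableSet.inter
    (isClosed_le (by fun_prop) (by fun_prop)).measurableSet)

lemma meas_Rf (s t H : ℝ) : MeasurableSet (Rf s t H) := by
  have e : Rf s t H = {z : ℂ | H / 2 < z.re} ∩ ({z : ℂ | z.re < 2 * H} ∩
      ({z : ℂ | s - 2 * H < z.im / (2 * Real.pi)} ∩ {z : ℂ | z.im / (2 * Real.pi) < t + 2 * H})) :=
    rfl
  rw [e]
  exact (isOpen_lt (by fun_prop) (by fun_prop)).measurableSet.inter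
    ((isOpen_lt (by fun_prop) (by fun_prop)).measurableSet.inter
    ((isOpen_lt (by fun_prop) (by fun_prop)).measurableSet.inter
      (isOpen_lt (by fun_prop) (by fun_prop)).measurableSet))

lemma sum_lintegral_le {α κ : Type*} [MeasurableSpace α] (μ : Measure α) (S : Finset κ)
    (f : κ → α → ℝ≥0∞) : ∑ i ∈ S, ∫⁻ a, f i a ∂μ ≤ ∫⁻ a, ∑ i ∈ S, f i a ∂μ := by
  classical
  induction S using Finset.induction_on with
  | empty => simp
  | insert i S hi ih =>
    rw [Finset.sum_insert hi]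
    refine (add_le_add le_rfl ih).trans ((le_lintegral_add _ _).trans (le_of_eq ?_))
    refine lintegral_congr fun a => ?_
    rw [Finset.sum_insert hi]

/-- comparison of a sum of integrals with the energy of the strip -/
lemma sum_en_le {κ : Type*} (S : Finset κ) (A : κ → Set ℂ) (b : κ → ℂ → ℝ)
    (hA : ∀ i ∈ S, MeasurableSet (A i)) (hsub : ∀ i ∈ S, A i ⊆ St)
    (hb : ∀ i ∈ S, ∀ z ∈ A i, 0 < b i z) (K : ℝ)
    (hK : ∀ z ∈ St, ∀ T ⊆ S, (∀ i ∈ T, z ∈ A i) → ∑ i ∈ T, 1 / b i z ≤ K) :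
    ∑ i ∈ S, ∫⁻ z in A i, ENNReal.ofReal (‖deriv cOf z‖ ^ 2 / b i z) ≤
      ENNReal.ofReal K * en St := by
  classical
  have h1 : ∑ i ∈ S, ∫⁻ z in A i, ENNReal.ofReal (‖deriv cOf z‖ ^ 2 / b i z) =
      ∑ i ∈ S, ∫⁻ z, (A i).indicator (fun z => ENNReal.ofReal (‖deriv cOf z‖ ^ 2 / b i z)) z :=
    Finset.sum_congr rfl fun i hi => (lintegral_indicator (hA i hi) _).symm
  rw [h1]
  refine (sum_lintegral_le _ _ _).trans ?_
  unfold en
  rw [← lintegral_const_mul' _ _ ENNReal.ofReal_ne_top, ← lintegral_indicator meas_St]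
  refine lintegral_mono fun z => ?_
  show ∑ i ∈ S, (A i).indicator (fun z => ENNReal.ofReal (‖deriv cOf z‖ ^ 2 / b i z)) z ≤
    St.indicator (fun z => ENNReal.ofReal K * ENNReal.ofReal (‖deriv cOf z‖ ^ 2)) z
  by_cases hz : z ∈ St
  · rw [Set.indicator_of_mem hz]
    have h2 : ∑ i ∈ S, (A i).indicator
        (fun z => ENNReal.ofReal (‖deriv cOf z‖ ^ 2 / b i z)) z =
        ∑ i ∈ S.filter (fun i => z ∈ A i), ENNReal.ofReal (‖deriv cOf z‖ ^ 2 / b i z) := by
      rw [Finset.sum_filter]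
      rfl
    rw [h2, ← ENNReal.ofReal_sum_of_nonneg]
    · have hK' := hK z hz (S.filter fun i => z ∈ A i) (Finset.filter_subset _ _)
        (fun i hi => (Finset.mem_filter.1 hi).2)
      have hK0 : 0 ≤ K := by
        refine le_trans (Finset.sum_nonneg fun i hi => ?_) hK'
        obtain ⟨hi1, hi2⟩ := Finset.mem_filter.1 hi
        have := hb i hi1 z hi2
        positivity
      rw [← ENNReal.ofReal_mul hK0]
      refine ENNReal.ofReal_le_ofReal ?_
      calc ∑ i ∈ S.filter (fun i => z ∈ A i), ‖deriv cOf z‖ ^ 2 / b i z =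
          (∑ i ∈ S.filter (fun i => z ∈ A i), 1 / b i z) * ‖deriv cOf z‖ ^ 2 := by
            rw [Finset.sum_mul]
            refine Finset.sum_congr rfl fun i _ => ?_
            ring
        _ ≤ K * ‖deriv cOf z‖ ^ 2 := mul_le_mul_of_nonneg_right hK' (by positivity)
    · intro i hi
      obtain ⟨hi1, hi2⟩ := Finset.mem_filter.1 hi
      have := hb i hi1 z hi2
      positivity
  · rw [Set.indicator_of_notMem hz]
    refine le_of_eq (Finset.sum_eq_zero fun i hi => ?_)
    rw [Set.indicator_of_notMem fun h => hz (hsub i hi h)]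

lemma lam_small {l : ℝ} (hl : 0 < l) (h : 10 ≤ lam l) : l ≤ 1 / 1024 := by
  by_contra hcon
  push Not at hcon
  have h1 := lam_anti (by norm_num) hcon.le
  have h2 : lam (1 / 1024) = 10 := by
    unfold lam
    rw [one_div_one_div, show (1024 : ℝ) = 2 ^ (10 : ℕ) by norm_num, Real.logb_pow,
      Real.logb_self_eq_one (by norm_num)]
    norm_num
  have h3 : lam l < 10 := by
    rw [← h2]
    unfold lam
    refine Real.logb_lt_logb (by norm_num) (by positivity) ?_
    rw [one_div_one_div, one_div, inv_lt_comm₀ hl (by norm_num)]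
    rw [← one_div]
    exact hcon
  linarith

lemma bet_pos (N s : ℝ) : 0 < bet N s := by
  unfold bet
  exact Real.rpow_pos_of_pos (lt_of_lt_of_le one_pos (le_max_left _ _)) _

/-- **the sum of the ray energies** -/
theorem Fam.sum_ray (h : Fam F l n D e) (he : ∀ i ∈ F, 0 ≤ e i ∧ e i < 1) :
    ∑ i ∈ F, rayE (4 * n i) (e i) (D i) (l i) ≤ ENNReal.ofReal (10 ^ 4) * en St := by
  unfold rayE
  refine sum_en_le F (fun i => RS (e i) (D i) (l i)) (fun i z => bet (4 * n i) z.re)
    (fun i _ => meas_RS _ _ _) ?_ (fun i _ z _ => bet_pos _ _) _ ?_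
  · rintro i hi z ⟨h1, h2, h3⟩
    have h4 := lam_small (h.pos i hi) (h.big i hi)
    have h5 := h.D1 i hi
    have h6 := h.pos i hi
    have hpi := Real.pi_gt_three
    have hpi' := Real.pi_lt_four
    obtain ⟨he0, he1⟩ := he i hi
    have h7 : D i ≤ 1 / 1024 := by nlinarith
    rw [abs_le] at h3
    have h8 : z.im / (2 * Real.pi) < 2 := by linarith
    have h9 : -1 < z.im / (2 * Real.pi) := by linarith
    rw [div_lt_iff₀ (by positivity)] at h8
    rw [lt_div_iff₀ (by positivity)] at h9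
    refine ⟨h1, by linarith, by linarith, ?_⟩
    have : Real.pi < 3.15 := Real.pi_lt_d2
    linarith
  · rintro z ⟨hz, -, -, -⟩ T hT hT2
    exact h.mult (t := z.im / (2 * Real.pi)) hz hT fun i hi => ⟨(hT2 i hi).2.1, (hT2 i hi).2.2⟩

/-- **the sum of the roof energies** -/
theorem Fam.sum_roof (h : Fam F l n D e) (he : ∀ i ∈ F, 0 ≤ e i ∧ e i < 1) :
    ∑ i ∈ F, en (Rf (e i) (e i + l i) (l i)) ≤ ENNReal.ofReal 25 * en St := by
  have h1 := sum_en_le F (fun i => Rf (e i) (e i + l i) (l i)) (fun _ _ => 1)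
    (fun i _ => meas_Rf _ _ _) ?_ (fun i _ z _ => one_pos) 25 ?_
  · simp only [div_one] at h1
    exact h1
  · rintro i hi z ⟨h1, h2, h3, h4⟩
    have h5 := lam_small (h.pos i hi) (h.big i hi)
    have h6 := h.pos i hi
    have hpi := Real.pi_gt_three
    obtain ⟨he0, he1⟩ := he i hi
    have h8 : z.im / (2 * Real.pi) < 2 := by linarith
    have h9 : -1 < z.im / (2 * Real.pi) := by linarith
    rw [div_lt_iff₀ (by positivity)] at h8
    rw [lt_div_iff₀ (by positivity)] at h9
    have : Real.pi < 3.15 := Real.pi_lt_d2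
    refine ⟨by linarith, by linarith, by linarith, by linarith⟩
  · rintro z ⟨hz, -, -, -⟩ T hT hT2
    have h2 := h.roof (t := z.im / (2 * Real.pi)) hz hT fun i hi => by
      obtain ⟨a1, a2, a3, a4⟩ := hT2 i hi
      have := h.pos i (hT hi)
      exact ⟨a1, a2, by linarith, by linarith⟩
    rw [Finset.sum_const, nsmul_eq_mul, div_one, mul_one]
    exact h2

end Pool.Agent.Work.MLC.Cap
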