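import Pool.Agent.Work.MLC.CntI60

set_option autoImplicit false

/-! # Theorem F, module G7, part 1: nested limbs (helper60)

Purely topological facts about the limbs, from `n5_open`, `n5_closed`. -/

namespace Pool.Agent.Work.MLC.Cnt

open Filter Topology Metric Set Complex
open Pool.Agent.Work.MLC.Sat

/-- removing a relatively open set which is closed up to one point of the rest keeps a continuum
connected -/
lemma conn_diff {K S : Set ℂ} {r : ℂ} (hKc : IsClosed K) (hK : IsPreconnected K)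
    (hS : ∀ z ∈ S, ∀ᶠ w in 𝓝 z, w ∈ K → w ∈ S) (hSc : closure S ⊆ insert r S) (hr : r ∈ K)
    (hrS : r ∉ S) : IsPreconnected (K \ S) := by
  have hcl : IsClosed (K \ S) := by
    refine isClosed_of_closure_subset fun z hz => ?_
    have hzK : z ∈ K := closure_minimal sdiff_subset hKc hz
    refine ⟨hzK, fun hzS => ?_⟩
    obtain ⟨w, hw, hw2⟩ := ((mem_closure_iff_frequently.1 hz).and_eventually (hS z hzS)).exists
    exact hw.2 (hw2 hw.1)
  have key : ∀ t t' : Set ℂ, IsClosed t → IsClosed t' → K \ S ⊆ t ∪ t' → r ∈ t →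
      (K \ S ∩ t').Nonempty → (K \ S ∩ (t ∩ t')).Nonempty := by
    intro t t' ht ht' hsub hrt ⟨y, hy⟩
    by_contra hcon
    rw [not_nonempty_iff_eq_empty] at hcon
    have hno : ∀ z ∈ K \ S, z ∈ t → z ∉ t' := fun z hz h1 h2 => by
      have : z ∈ K \ S ∩ (t ∩ t') := ⟨hz, h1, h2⟩
      rw [hcon] at this; exact this
    obtain ⟨v, -, hv1, hv2⟩ := isPreconnected_closed_iff.1 hK (K \ S ∩ t')
      (K \ S ∩ t ∪ closure S ∩ K) (hcl.inter ht') ((hcl.inter ht).union
        (isClosed_closure.inter hKc))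
      (fun z hz => by
        by_cases hzS : z ∈ S
        · exact Or.inr (Or.inr ⟨subset_closure hzS, hz⟩)
        · rcases hsub ⟨hz, hzS⟩ with h | h
          · exact Or.inr (Or.inl ⟨⟨hz, hzS⟩, h⟩)
          · exact Or.inl ⟨⟨hz, hzS⟩, h⟩)
      ⟨y, hy.1.1, hy⟩ ⟨r, hr, Or.inl ⟨⟨hr, hrS⟩, hrt⟩⟩
    rcases hv2 with h | h
    · exact hno v hv1.1 h.2 hv1.2
    · rcases hSc h.1 with h' | h'
      · exact hno v hv1.1 (h' ▸ hrt) hv1.2
      · exact hv1.1.2 h'
  rw [isPreconnected_closed_iff]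
  intro t t' ht ht' hsub hne hne'
  rcases hsub ⟨hr, hrS⟩ with h0 | h0
  · exact key t t' ht ht' hsub h0 hne'
  · have := key t' t ht' ht (by rwa [union_comm]) h0 hne
    rwa [inter_comm t' t] at this

section

variable {D D' : Dat}

/-- a connected subset of `MM` which misses the root and meets the limb is in the limb -/
lemma sub_lm_of_conn (hP : D.Par) (hC : D.Cir) {C : Set ℂ} (hCM : C ⊆ MM) (hCc : IsPreconnected C)
    (hr : rt D ∉ C) (hne : (C ∩ Lm D).Nonempty) : C ⊆ Lm D := by
  intro z hz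
  by_contra hzL
  set O : Set ℂ := interior {w | w ∈ MM → w ∈ Lm D} with hO
  obtain ⟨y, hyC, hyL⟩ := hne
  obtain ⟨v, hvC, hv1, hv2⟩ := hCc O (closure (Lm D))ᶜ isOpen_interior
    isClosed_closure.isOpen_compl
    (fun v hv => by
      by_cases hvL : v ∈ Lm D
      · exact Or.inl (mem_interior_iff_mem_nhds.2 (lm_open hP hC hvL))
      · refine Or.inr fun hvc => ?_
        rcases lm_closure hP hC hvc with h | h
        · exact hr (h ▸ hv)
        · exact hvL h)
    ⟨y, hyC, mem_interior_iff_mem_nhds.2 (lm_open hP hC hyL)⟩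
    ⟨z, hz, fun hzc => by
      rcases lm_closure hP hC hzc with h | h
      · exact hr (h ▸ hz)
      · exact hzL h⟩
  exact hv2 (subset_closure (interior_subset hv1 (hCM hvC)))

/-- the complement of the limb is connected -/
lemma isPreconnected_compl_lm (hP : D.Par) (hC : D.Cir) : IsPreconnected (MM \ Lm D) :=
  conn_diff isClosed_MM isPreconnected_MM (fun _ hz => lm_open hP hC hz) (lm_closure hP hC)
    (rt_mem_MM hP) (rt_notMem hP hC)

/-- two roots do not separate each other from `0` -/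
lemma not_both (hP : D.Par) (hC : D.Cir) (hP' : D'.Par) (hC' : D'.Cir) (h : rt D' ∈ Lm D) :
    rt D ∉ Lm D' := by
  intro h'
  have h1 := sub_lm_of_conn hP hC (C := MM \ Lm D') sdiff_subset
    (isPreconnected_compl_lm hP' hC') (fun h0 => h0.2 h')
    ⟨rt D', ⟨rt_mem_MM hP', rt_notMem hP' hC'⟩, h⟩
  exact zero_notMem hP hC (h1 ⟨zero_mem_MM, zero_notMem hP' hC'⟩)

/-- nested limbs -/
lemma limb_sub (hP : D.Par) (hC : D.Cir) (hP' : D'.Par) (hC' : D'.Cir) (h : rt D' ∈ Lm D) :
    insert (rt D') (Lm D') ⊆ Lm D := by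
  refine sub_lm_of_conn hP hC (insert_subset (rt_mem_MM hP') lm_subset)
    (isPreconnected_limb hP' hC') ?_ ⟨rt D', Or.inl rfl, h⟩
  rintro (h0 | h0)
  · rw [← h0] at h
    exact rt_notMem hP hC h
  · exact not_both hP hC hP' hC' h h0

/-- limbs which are not nested are disjoint -/
lemma limb_disjoint (hP : D.Par) (hC : D.Cir) (hP' : D'.Par) (hC' : D'.Cir) (hne : rt D ≠ rt D')
    (h : rt D' ∉ Lm D) (h' : rt D ∉ Lm D') :
    Disjoint (insert (rt D) (Lm D)) (insert (rt D') (Lm D')) := by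
  rw [Set.disjoint_left]
  rintro z (h1 | h1) (h2 | h2)
  · exact hne (h1.symm.trans h2)
  · exact h' (h1 ▸ h2)
  · exact h (h2 ▸ h1)
  · have h3 := sub_lm_of_conn hP hC (insert_subset (rt_mem_MM hP') lm_subset)
      (isPreconnected_limb hP' hC') (by
        rintro (h0 | h0)
        · exact hne h0
        · exact h' h0) ⟨z, Or.inr h2, h1⟩
    exact h (h3 (Or.inl rfl))

end

/-! ### the pieces -/

section

variable {ι : Type} {F : Finset ι} {D : ι → Dat}

/-- a finite family of roots -/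
structure Fam60 (F : Finset ι) (D : ι → Dat) : Prop where
  par : ∀ i ∈ F, (D i).Par
  cir : ∀ i ∈ F, (D i).Cir
  inj : ∀ i ∈ F, ∀ j ∈ F, rt (D i) = rt (D j) → i = j

/-- the addresses: chains of nested limbs which contain with a limb all larger limbs -/
structure IsAdr (F : Finset ι) (D : ι → Dat) (A : Finset ι) : Prop where
  sub : A ⊆ F
  chain : ∀ i ∈ A, ∀ j ∈ A, i ≠ j → rt (D i) ∈ Lm (D j) ∨ rt (D j) ∈ Lm (D i)
  up : ∀ i ∈ A, ∀ j ∈ F, rt (D i) ∈ Lm (D j) → j ∈ A

/-- the piece with the address `A` -/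
def Pc (F : Finset ι) (D : ι → Dat) (A : Finset ι) : Set ℂ :=
  {z | z ∈ MM ∧ ∀ i ∈ F, (i ∈ A → z ∈ insert (rt (D i)) (Lm (D i))) ∧
    (i ∉ A → z ∉ Lm (D i))}

lemma isClosed_Pc (h : Fam60 F D) (A : Finset ι) : IsClosed (Pc F D A) := by
  refine isClosed_of_closure_subset fun z hz => ?_
  have hzM : z ∈ MM := closure_minimal (fun w hw => hw.1) isClosed_MM hz
  refine ⟨hzM, fun i hi => ⟨fun hiA => ?_, fun hiA hzL => ?_⟩⟩
  · exact closure_minimal (fun w hw => (hw.2 i hi).1 hiA)
      (isClosed_limb (h.par i hi) (h.cir i hi)) hz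
  · obtain ⟨w, hw, hw2⟩ := ((mem_closure_iff_frequently.1 hz).and_eventually
      (lm_open (h.par i hi) (h.cir i hi) hzL)).exists
    exact (hw.2 i hi).2 hiA (hw2 hw.1)

lemma isCompact_Pc (h : Fam60 F D) (A : Finset ι) : IsCompact (Pc F D A) :=
  isCompact_MM.of_isClosed_subset (isClosed_Pc h A) fun _ hz => hz.1

/-- the piece is open in `MM` off the roots -/
lemma Pc_open (h : Fam60 F D) {A : Finset ι} {z : ℂ} (hz : z ∈ Pc F D A)
    (hr : ∀ i ∈ F, z ≠ rt (D i)) : ∀ᶠ w in 𝓝 z, w ∈ MM → w ∈ Pc F D A := by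
  have h1 : ∀ᶠ w in 𝓝 z, ∀ i ∈ F, w ∈ MM → (i ∈ A → w ∈ insert (rt (D i)) (Lm (D i))) ∧
      (i ∉ A → w ∉ Lm (D i)) := by
    rw [Filter.eventually_all_finset]
    intro i hi
    by_cases hiA : i ∈ A
    · have hzL : z ∈ Lm (D i) := by
        rcases (hz.2 i hi).1 hiA with h0 | h0
        · exact absurd h0 (hr i hi)
        · exact h0
      filter_upwards [lm_open (h.par i hi) (h.cir i hi) hzL] with w hw hwM
      exact ⟨fun _ => Or.inr (hw hwM), fun h0 => absurd hiA h0⟩
    · have hzc : z ∉ closure (Lm (D i)) := by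
        intro hzc
        rcases lm_closure (h.par i hi) (h.cir i hi) hzc with h0 | h0
        · exact hr i hi h0
        · exact (hz.2 i hi).2 hiA h0
      filter_upwards [isClosed_closure.isOpen_compl.mem_nhds hzc] with w hw hwM
      exact ⟨fun h0 => absurd h0 hiA, fun _ h0 => hw (subset_closure h0)⟩
  filter_upwards [h1] with w hw hwM
  exact ⟨hwM, fun i hi => hw i hi hwM⟩

/-- the innermost limb of an address -/
lemma exists_inner (h : Fam60 F D) {A : Finset ι} (hA : IsAdr F D A) (hne : A.Nonempty) :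
    ∃ o ∈ A, ∀ i ∈ A, i ≠ o → rt (D o) ∈ Lm (D i) := by
  classical
  -- the number of limbs which contain `rt (D i)`
  obtain ⟨o, ho, hmax⟩ := A.exists_max_image (fun i => (A.filter fun j => rt (D i) ∈ Lm (D j)).card)
    hne
  refine ⟨o, ho, fun i hi hio => ?_⟩
  rcases hA.chain i hi o ho hio with h1 | h1
  · exfalso
    -- `i` is inside `o`
    have hPi := h.par i (hA.sub hi)
    have hCi := h.cir i (hA.sub hi)
    have hPo := h.par o (hA.sub ho)
    have hCo := h.cir o (hA.sub ho)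
    have h2 : (A.filter fun j => rt (D o) ∈ Lm (D j)) ⊂ A.filter fun j => rt (D i) ∈ Lm (D j) := by
      rw [Finset.ssubset_iff_of_subset]
      · refine ⟨o, Finset.mem_filter.2 ⟨ho, h1⟩, fun h3 => ?_⟩
        exact rt_notMem hPo hCo (Finset.mem_filter.1 h3).2
      · intro j hj
        obtain ⟨hjA, hj⟩ := Finset.mem_filter.1 hj
        refine Finset.mem_filter.2 ⟨hjA, ?_⟩
        exact limb_sub (h.par j (hA.sub hjA)) (h.cir j (hA.sub hjA)) hPo hCo hj (Or.inr h1)
    exact absurd (Finset.card_lt_card h2) (not_lt.2 (hmax i hi))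
  · exact h1

/-- the outer part of the piece -/
lemma conn_step (h : Fam60 F D) {K₀ : Set ℂ} (hK₀ : IsClosed K₀) (hK₀c : IsPreconnected K₀)
    (hK₀M : K₀ ⊆ MM) {B : Finset ι} (hB : B ⊆ F)
    (hB0 : ∀ j ∈ B, rt (D j) ∈ K₀ ∨ Disjoint K₀ (Lm (D j))) :
    IsClosed (K₀ \ ⋃ j ∈ B, Lm (D j)) ∧ IsPreconnected (K₀ \ ⋃ j ∈ B, Lm (D j)) := by
  classical
  induction B using Finset.induction_on with
  | empty => simpa using ⟨hK₀, hK₀c⟩
  | insert j B hj ih =>
    obtain ⟨ih1, ih2⟩ := ih (fun i hi => hB (Finset.mem_insert_of_mem hi))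
      (fun i hi => hB0 i (Finset.mem_insert_of_mem hi))
    have hjF := hB (Finset.mem_insert_self j B)
    have hPj := h.par j hjF
    have hCj := h.cir j hjF
    set K := K₀ \ ⋃ j ∈ B, Lm (D j) with hK
    have hKM : K ⊆ MM := sdiff_subset.trans hK₀M
    have heq : K₀ \ ⋃ i ∈ insert j B, Lm (D i) = K \ Lm (D j) := by
      rw [Finset.set_biUnion_insert, hK, sdiff_sdiff, union_comm]
    rw [heq]
    have hop : ∀ z ∈ Lm (D j), ∀ᶠ w in 𝓝 z, w ∈ K → w ∈ Lm (D j) := fun z hz =>
      (lm_open hPj hCj hz).mono fun w hw hwK => hw (hKM hwK)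
    refine ⟨?_, ?_⟩
    · refine isClosed_of_closure_subset fun z hz => ?_
      refine ⟨closure_minimal sdiff_subset ih1 hz, fun hzL => ?_⟩
      obtain ⟨w, hw, hw2⟩ := ((mem_closure_iff_frequently.1 hz).and_eventually (hop z hzL)).exists
      exact hw.2 (hw2 hw.1)
    · by_cases hr : rt (D j) ∈ K
      · exact conn_diff ih1 ih2 hop (lm_closure hPj hCj) hr (rt_notMem hPj hCj)
      · -- nothing is removed
        have hdis : Disjoint K (Lm (D j)) := by
          rcases hB0 j (Finset.mem_insert_self j B) with h1 | h1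
          · have h2 : rt (D j) ∈ ⋃ i ∈ B, Lm (D i) := by
              by_contra h2
              exact hr ⟨h1, h2⟩
            simp only [mem_iUnion, exists_prop] at h2
            obtain ⟨i, hi, h3⟩ := h2
            have hiF := hB (Finset.mem_insert_of_mem hi)
            have h4 := limb_sub (h.par i hiF) (h.cir i hiF) hPj hCj h3
            rw [Set.disjoint_left]
            intro z hz hzL
            exact hz.2 (mem_biUnion hi (h4 (Or.inr hzL)))
          · exact h1.mono_left sdiff_subset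
        rw [hdis.sdiff_eq_left]
        exact ih2

/-- **the pieces are connected** -/
theorem isPreconnected_Pc (h : Fam60 F D) {A : Finset ι} (hA : IsAdr F D A) :
    IsPreconnected (Pc F D A) := by
  classical
  rcases A.eq_empty_or_nonempty with rfl | hne
  · have h1 := (conn_step h isClosed_MM isPreconnected_MM (le_refl MM) (B := F) (Finset.Subset.refl F)
      fun j hj => Or.inl (rt_mem_MM (h.par j hj))).2
    have h2 : Pc F D ∅ = MM \ ⋃ j ∈ F, Lm (D j) := by
      ext z
      simp [Pc]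
    rw [h2]; exact h1
  · obtain ⟨o, ho, hin⟩ := exists_inner h hA hne
    have hoF := hA.sub ho
    have hPo := h.par o hoF
    have hCo := h.cir o hoF
    have h1 := (conn_step h (isClosed_limb hPo hCo) (isPreconnected_limb hPo hCo)
      (insert_subset (rt_mem_MM hPo) lm_subset) (B := F \ A) Finset.sdiff_subset
      fun j hj => by
        obtain ⟨hjF, hjA⟩ := Finset.mem_sdiff.1 hj
        by_cases h2 : rt (D j) ∈ insert (rt (D o)) (Lm (D o))
        · exact Or.inl h2
        · refine Or.inr ?_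
          have h3 : rt (D o) ∉ Lm (D j) := fun h3 => hjA (hA.up o ho j hjF h3)
          have h4 := limb_disjoint hPo hCo (h.par j hjF) (h.cir j hjF)
            (fun h5 => h2 (Or.inl h5.symm)) (fun h5 => h2 (Or.inr h5)) h3
          exact h4.mono_right (subset_insert _ _)).2
    have h2 : Pc F D A = insert (rt (D o)) (Lm (D o)) \ ⋃ j ∈ F \ A, Lm (D j) := by
      ext z
      constructor
      · rintro ⟨hzM, hz⟩
        refine ⟨(hz o hoF).1 ho, fun hzU => ?_⟩
        simp only [mem_iUnion, exists_prop] at hzU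
        obtain ⟨j, hj, hzj⟩ := hzU
        obtain ⟨hjF, hjA⟩ := Finset.mem_sdiff.1 hj
        exact (hz j hjF).2 hjA hzj
      · rintro ⟨hzo, hzU⟩
        have hzM : z ∈ MM := (insert_subset (rt_mem_MM hPo) lm_subset) hzo
        refine ⟨hzM, fun i hi => ⟨fun hiA => ?_, fun hiA hzi => hzU ?_⟩⟩
        · by_cases hio : i = o
          · rw [hio]; exact hzo
          · have h3 := limb_sub (h.par i hi) (h.cir i hi) hPo hCo (hin i hiA hio)
            exact Or.inr (h3 hzo)
        · exact mem_biUnion (Finset.mem_sdiff.2 ⟨hi, hiA⟩) hzi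
    rw [h2]; exact h1

/-- the root of the innermost limb is in the piece -/
lemma inner_mem_Pc (h : Fam60 F D) {A : Finset ι} (hA : IsAdr F D A) {o : ι} (ho : o ∈ A)
    (hin : ∀ i ∈ A, i ≠ o → rt (D o) ∈ Lm (D i)) : rt (D o) ∈ Pc F D A := by
  refine ⟨rt_mem_MM (h.par o (hA.sub ho)), fun i hi => ⟨fun hiA => ?_, fun hiA h1 => ?_⟩⟩
  · by_cases hio : i = o
    · rw [hio]; exact Or.inl rfl
    · exact Or.inr (hin i hiA hio)
  · exact hiA (hA.up o ho i hi h1)

end

end Pool.Agent.Work.MLC.Cnt
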