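import Pool.Agent.Work.MLC.CapB26
import Pool.Agent.Work.MLC.CntP60

set_option autoImplicit false

/-! # The piece of type II is connected (helper13) -/

namespace Pool.Agent.Work.MLC.Cap

open Filter Topology Metric Set Complex MeasureTheory
open Pool.Agent.Work.MLC.Sat Pool.Agent.Work.MLC.Cnt

/-- the piece is closed -/
lemma isClosed_KP {U V : Dat} (hU : U.Par) (hUC : U.Cir) (hV : V.Par) (hVC : V.Cir) :
    IsClosed (KP U V) := by
  have hK := isClosed_limb hU hUC
  refine isClosed_of_closure_subset fun z hz => ?_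
  refine ⟨closure_minimal sdiff_subset hK hz, fun hzL => ?_⟩
  obtain ⟨w, hw, hw2⟩ := ((mem_closure_iff_frequently.1 hz).and_eventually
    (lm_open hV hVC hzL)).exists
  exact hw.2 (hw2 (insert_subset (rt_mem_MM hU) lm_subset hw.1))

/-- PRE: the piece is connected -/
theorem c_pre : C_pre := by
  intro U V hU hUC hV hVC _ hr
  exact conn_diff (isClosed_limb hU hUC) (isPreconnected_limb hU hUC)
    (fun z hz => (lm_open hV hVC hz).mono fun w hw hwK =>
      hw (insert_subset (rt_mem_MM hU) lm_subset hwK))
    (lm_closure hV hVC) (Or.inr hr) (rt_notMem hV hVC)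

end Pool.Agent.Work.MLC.Cap
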