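import Pool.Agent.Work.MLC.CntG86

set_option autoImplicit false

/-! # Theorem F, module G9: covering numbers

A set which for every `n ≥ 1` is covered by at most `C n ^ a` intervals of length `K 2 ^ (-n)` is
null for the Hausdorff measure with gauge `(log (1 / t)) ^ (-(a + 1))`, and has dimension `0`. -/

namespace Pool.Agent.Work.MLC.Cnt

open Filter Topology Set MeasureTheory Metric
open scoped ENNReal NNReal

/-- covering numbers: for every `n ≥ 1` the set `E` is covered by at most `C n ^ a` intervals of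
length `2 ^ (-n)` -/
def CovPoly (a : ℕ) (E : Set ℝ) : Prop :=
  ∃ C : ℝ, ∀ n : ℕ, 1 ≤ n → ∃ F : Finset ℝ, (F.card : ℝ) ≤ C * (n : ℝ) ^ a ∧
    E ⊆ ⋃ x ∈ F, Icc x (x + (1 / 2 : ℝ) ^ n)

/-- the constant in the length of the intervals and missing levels do not matter, as long as the
levels have bounded ratio -/
theorem covPoly_of_levels {a : ℕ} {E : Set ℝ} (C K : ℝ) (M : ℕ)
    (h : ∀ n : ℕ, 1 ≤ n → ∃ m : ℕ, n ≤ m ∧ m ≤ M * n ∧ ∃ F : Finset ℝ,
      (F.card : ℝ) ≤ C * (m : ℝ) ^ a ∧ E ⊆ ⋃ x ∈ F, Icc x (x + K * (1 / 2 : ℝ) ^ m)) :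
    CovPoly a E := by
  obtain ⟨k, hk⟩ := pow_unbounded_of_one_lt K (one_lt_two (α := ℝ))
  refine ⟨|C| * ((M * (1 + k) : ℕ) : ℝ) ^ a, fun n hn => ?_⟩
  obtain ⟨m, hm1, hm2, F, hF, hE⟩ := h (n + k) (by omega)
  refine ⟨F, ?_, ?_⟩
  · have h1 : m ≤ M * (1 + k) * n := by
      calc m ≤ M * (n + k) := hm2
        _ ≤ M * ((1 + k) * n) := Nat.mul_le_mul_left _ (by nlinarith)
        _ = M * (1 + k) * n := by ring
    have h2 : (m : ℝ) ≤ ((M * (1 + k) : ℕ) : ℝ) * n := by exact_mod_cast h1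
    calc (F.card : ℝ) ≤ C * (m : ℝ) ^ a := hF
      _ ≤ |C| * (m : ℝ) ^ a := mul_le_mul_of_nonneg_right (le_abs_self C) (by positivity)
      _ ≤ |C| * (((M * (1 + k) : ℕ) : ℝ) * n) ^ a := by
          refine mul_le_mul_of_nonneg_left ?_ (abs_nonneg C)
          exact pow_le_pow_left₀ (by positivity) h2 a
      _ = _ := by rw [mul_pow]; ring
  · refine hE.trans ?_
    refine iUnion₂_mono fun x _ => Icc_subset_Icc_right ?_
    have h3 : (1 / 2 : ℝ) ^ m ≤ (1 / 2 : ℝ) ^ (n + k) :=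
      pow_le_pow_of_le_one (by norm_num) (by norm_num) hm1
    have h4 : K * (1 / 2 : ℝ) ^ m ≤ 2 ^ k * (1 / 2 : ℝ) ^ (n + k) :=
      (mul_le_mul_of_nonneg_right hk.le (by positivity)).trans
        (mul_le_mul_of_nonneg_left h3 (by positivity))
    have h5 : (2 : ℝ) ^ k * (1 / 2 : ℝ) ^ (n + k) = (1 / 2 : ℝ) ^ n := by
      rw [pow_add, mul_left_comm, ← mul_pow]
      norm_num
    linarith

theorem CovPoly.mono {a : ℕ} {E E' : Set ℝ} (h : CovPoly a E) (hE : E' ⊆ E) : CovPoly a E' := by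
  obtain ⟨C, hC⟩ := h
  refine ⟨C, fun n hn => ?_⟩
  obtain ⟨F, hF, hEF⟩ := hC n hn
  exact ⟨F, hF, hE.trans hEF⟩

/-- a general gauge -/
theorem CovPoly.mkMetric_null {a : ℕ} {E : Set ℝ} (h : CovPoly a E) (m : ℝ≥0∞ → ℝ≥0∞)
    (hm : Tendsto (fun n : ℕ => ENNReal.ofReal ((n : ℝ) ^ a) *
      m (ENNReal.ofReal ((1 / 2 : ℝ) ^ n))) atTop (𝓝 0)) :
    Measure.mkMetric m E = 0 := by
  obtain ⟨C, hC⟩ := h
  choose! F hF hE using hC
  have hr : Tendsto (fun n : ℕ => ENNReal.ofReal ((1 / 2 : ℝ) ^ n)) atTop (𝓝 0) := by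
    rw [← ENNReal.ofReal_zero]
    exact ENNReal.tendsto_ofReal
      (tendsto_pow_atTop_nhds_zero_of_lt_one (by norm_num) (by norm_num))
  have hd : ∀ (n : ℕ) (x : ℝ), ediam (Icc x (x + (1 / 2 : ℝ) ^ n)) =
      ENNReal.ofReal ((1 / 2 : ℝ) ^ n) := fun n x => by
    rw [Real.ediam_Icc, add_sub_cancel_left]
  have h2 := Measure.mkMetric_le_liminf_tsum E (l := (atTop : Filter ℕ))
    (fun n : ℕ => ENNReal.ofReal ((1 / 2 : ℝ) ^ n)) hr
    (fun n (x : F n) => Icc (x : ℝ) (x + (1 / 2 : ℝ) ^ n))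
    (Eventually.of_forall fun n x => (hd n x).le)
    ((eventually_ge_atTop 1).mono fun n hn θ hθ => by
      have := hE n hn hθ
      simp only [mem_iUnion] at this ⊢
      obtain ⟨x, hx, hθx⟩ := this
      exact ⟨⟨x, hx⟩, hθx⟩) m
  refine le_antisymm (h2.trans ?_) zero_le
  have h3 : Tendsto (fun n : ℕ => ENNReal.ofReal |C| * (ENNReal.ofReal ((n : ℝ) ^ a) *
      m (ENNReal.ofReal ((1 / 2 : ℝ) ^ n)))) atTop (𝓝 0) := by
    have := ENNReal.Tendsto.const_mul (a := ENNReal.ofReal |C|) hm (Or.inr ENNReal.ofReal_ne_top)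
    rwa [mul_zero] at this
  rw [← h3.liminf_eq]
  refine liminf_le_liminf ((eventually_ge_atTop 1).mono fun n hn => ?_)
  simp only [hd]
  rw [tsum_fintype, Finset.sum_const, Finset.card_univ, nsmul_eq_mul, ← mul_assoc]
  refine mul_le_mul_left ?_ _
  rw [Fintype.card_coe, ← ENNReal.ofReal_natCast, ← ENNReal.ofReal_mul (abs_nonneg C)]
  refine ENNReal.ofReal_le_ofReal ((hF n hn).trans ?_)
  exact mul_le_mul_of_nonneg_right (le_abs_self C) (by positivity)

/-- the logarithmic gauge -/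
theorem CovPoly.gau_null {a : ℕ} {E : Set ℝ} (h : CovPoly a E) :
    Measure.mkMetric (gau (a + 1)) E = 0 := by
  refine h.mkMetric_null _ ?_
  have hl2 : 0 < Real.log 2 := Real.log_pos (by norm_num)
  have h1 : Tendsto (fun n : ℕ => (Real.log 2)⁻¹ ^ (a + 1) * (n : ℝ)⁻¹) atTop (𝓝 0) := by
    have := (tendsto_inv_atTop_nhds_zero_nat (𝕜 := ℝ)).const_mul ((Real.log 2)⁻¹ ^ (a + 1))
    rwa [mul_zero] at this
  have h2 := ENNReal.tendsto_ofReal h1
  rw [ENNReal.ofReal_zero] at h2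
  refine h2.congr' ((eventually_ge_atTop 1).mono fun n hn => ?_)
  have hn0 : (0 : ℝ) < n := by exact_mod_cast hn
  show _ = ENNReal.ofReal ((n : ℝ) ^ a) * gau (a + 1) (ENNReal.ofReal ((1 / 2 : ℝ) ^ n))
  rw [gau_two, ← ENNReal.ofReal_mul (by positivity)]
  congr 1
  rw [mul_inv, mul_pow, pow_succ ((n : ℝ)⁻¹), inv_pow (n : ℝ)]
  field_simp

/-- the dimension -/
theorem CovPoly.dimH_eq {a : ℕ} {E : Set ℝ} (h : CovPoly a E) : dimH E = 0 := by
  refine le_antisymm (le_of_forall_pos_le_add ?_) zero_le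
  intro e he
  rw [zero_add]
  rcases eq_or_ne e ∞ with rfl | he'
  · exact le_top
  lift e to ℝ≥0 using he'
  have he0 : (0 : ℝ) < e := by exact_mod_cast he
  refine dimH_le_of_hausdorffMeasure_ne_top ?_
  have h0 : Measure.hausdorffMeasure (e : ℝ) E = 0 := by
    refine h.mkMetric_null _ ?_
    set r : ℝ := (1 / 2 : ℝ) ^ (e : ℝ) with hr
    have hr0 : 0 < r := by positivity
    have hr1 : r < 1 := Real.rpow_lt_one (by norm_num) (by norm_num) he0
    have h1 : Tendsto (fun n : ℕ => (n : ℝ) ^ a * r ^ n) atTop (𝓝 0) :=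
      tendsto_pow_const_mul_const_pow_of_abs_lt_one a (by rwa [abs_of_pos hr0])
    have h2 := ENNReal.tendsto_ofReal h1
    rw [ENNReal.ofReal_zero] at h2
    refine h2.congr fun n => ?_
    rw [ENNReal.ofReal_mul (by positivity), ENNReal.ofReal_rpow_of_nonneg (by positivity) he0.le]
    congr 2
    rw [hr, ← Real.rpow_natCast, ← Real.rpow_natCast, ← Real.rpow_mul (by norm_num),
      ← Real.rpow_mul (by norm_num), mul_comm]
  rw [h0]
  exact ENNReal.zero_ne_top

/-- the final form: a countable union of sets with polynomial covering numbers and a countable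
set -/
theorem null_of_cov {a : ℕ} {E : Set ℝ} {A : ℕ → Set ℝ} {B : Set ℝ} (hA : ∀ j, CovPoly a (A j))
    (hB : B.Countable) (h : E ⊆ B ∪ ⋃ j, A j) :
    Measure.mkMetric (gau (a + 1)) E = 0 ∧ dimH E = 0 := by
  have hpt : ∀ x : ℝ, CovPoly a {x} := fun x => ⟨1, fun n hn => ⟨{x}, by
    simp only [Finset.card_singleton, Nat.cast_one, one_mul]
    exact one_le_pow₀ (by exact_mod_cast hn), by
    rintro y rfl
    simp only [Finset.mem_singleton, iUnion_iUnion_eq_left, mem_Icc, le_refl, true_and]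
    exact le_add_of_nonneg_right (by positivity)⟩⟩
  constructor
  · refine measure_mono_null h (measure_union_null ?_ (measure_iUnion_null fun j =>
      (hA j).gau_null))
    rw [← biUnion_of_singleton B]
    exact (measure_biUnion_null_iff hB).2 fun x _ => (hpt x).gau_null
  · refine le_antisymm ((dimH_mono h).trans ?_) zero_le
    rw [dimH_union, dimH_iUnion]
    simp only [(hA _).dimH_eq, ciSup_const, dimH_countable hB, max_self, le_refl]

end Pool.Agent.Work.MLC.Cnt
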