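import Pool.Agent.Work.MLC.Param34
import Pool.Agent.Work.MLC.Defs

set_option autoImplicit false

/-! # G12: the Riemann map of the complement of the Mandelbrot set  (helper36)

`Psi` (Param34) is holomorphic and bijective from `{1 < |z|}` onto the complement of `MM`,
`Psi z / z → 1`, and boundary limits of `Psi` from limits of `cOf`. -/

namespace Pool.Agent.Work.MLC

open Filter Topology Metric Set MLC34

lemma norm_Phi_bounds {c : ℂ} (hc : 1000 < ‖c‖) :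
    24 / 25 * ‖c‖ ≤ ‖Phi c‖ ∧ ‖Phi c‖ ≤ 26 / 25 * ‖c‖ := by
  obtain ⟨s, hs, h⟩ := exists_sign
  have h1 := h c hc
  have h2 : ‖s * c‖ = ‖c‖ := by rw [norm_mul, hs, one_mul]
  have h3 := norm_sub_norm_le (s * c) (Phi c)
  have h4 := norm_sub_norm_le (Phi c) (s * c)
  rw [norm_sub_rev] at h3
  rw [h2] at h3 h4
  constructor <;> linarith

lemma near_Phi_sq {c : ℂ} (hc : 1000 < ‖c‖) : Near c ((Phi c)⁻¹ ^ 2) := by
  have h1 := (norm_Phi_bounds hc).1
  have h2 : 0 < ‖Phi c‖ := by linarith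
  unfold Near
  rw [norm_pow, norm_inv, inv_pow, inv_mul_lt_iff₀ (by positivity), mul_one]
  nlinarith

theorem Phi_sq_eq {c : ℂ} (hc : 1000 < ‖c‖) : Phi c ^ 2 = bo c (f c c) := by
  have hcM : c ∈ Mc := mem_Mc_of_large (by linarith)
  have h0 := G0_lt_of_mem hcM
  have h1 := f_psi (dom_phi h0)
  rw [psi_phi h0] at h1
  have hN : Near c (Phi c ^ 2)⁻¹ := by
    have := near_Phi_sq hc
    rwa [inv_pow] at this
  have h2 : psi c (Phi c ^ 2) = Phi c ^ 2 * Eb c (Phi c ^ 2)⁻¹ := psi_near hN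
  have h3 : f c c = Phi c ^ 2 * Eb c (Phi c ^ 2)⁻¹ := by rw [h1]; exact h2
  rw [h3, bo_psib hN (pow_ne_zero _ (Phi_ne_zero hcM))]

lemma div_Phi_eq {c : ℂ} (hc : c ∈ Mc) : c / Phi c = Ef (c, (Phi c)⁻¹) := by
  have h0 := G0_lt_of_mem hc
  have h1 : psi c (Phi c) = c := psi_phi h0
  unfold psi at h1
  have h2 := Phi_ne_zero hc
  rw [div_eq_iff h2, mul_comm]
  exact h1.symm

/-- the sign is `+1` -/
theorem re_div_Phi_pos {c : ℂ} (hc : 1000 < ‖c‖) : 0 < (c / Phi c).re := by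
  have hcM : c ∈ Mc := mem_Mc_of_large (by linarith)
  have h0 := G0_lt_of_mem hcM
  rw [div_Phi_eq hcM]
  set u : ℂ := (Phi c)⁻¹ with hu
  have hOm : (c, u) ∈ Om := mem_Om_of_dom (dom_phi h0)
  have hb := (norm_Phi_bounds hc).1
  have hPpos : 0 < ‖Phi c‖ := by linarith
  have hnorm : ∀ s ∈ Icc (0 : ℝ) 1, ‖(s : ℂ) * u‖ ≤ ‖u‖ := by
    intro s hs
    rw [norm_mul, Complex.norm_real, Real.norm_of_nonneg hs.1]
    exact mul_le_of_le_one_left (norm_nonneg _) hs.2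
  have hOm' : ∀ s ∈ Icc (0 : ℝ) 1, (c, (s : ℂ) * u) ∈ Om := fun s hs =>
    Om_smaller hOm (hnorm s hs)
  have hne : ∀ s ∈ Icc (0 : ℝ) 1, (Ef (c, (s : ℂ) * u)).re ≠ 0 := by
    intro s hs
    apply re_ne_zero_of_sq
    have hN : Near c (((s : ℂ) * u) ^ 2) := by
      refine (near_Phi_sq hc).mono ?_
      rw [norm_pow, norm_pow]
      exact pow_le_pow_left₀ (norm_nonneg _) (hnorm s hs) 2
    rw [Ef_sq (hOm' s hs), Ef_near hN]
    have h1 := Eb_bound hN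
    have h2 : ‖c * ((s : ℂ) * u) ^ 2‖ ≤ 1 / 500 := by
      rw [norm_mul, norm_pow]
      have h3 : ‖(s : ℂ) * u‖ ≤ ‖Phi c‖⁻¹ := by
        have := hnorm s hs
        rwa [hu, norm_inv] at this
      have h4 : ‖(s : ℂ) * u‖ ^ 2 ≤ (‖Phi c‖⁻¹) ^ 2 := pow_le_pow_left₀ (norm_nonneg _) h3 2
      have h5 : ‖c‖ * (‖Phi c‖⁻¹) ^ 2 ≤ 1 / 500 := by
        rw [inv_pow, ← div_eq_mul_inv, div_le_div_iff₀ (by positivity) (by norm_num)]
        nlinarith
      calc ‖c‖ * ‖(s : ℂ) * u‖ ^ 2 ≤ ‖c‖ * (‖Phi c‖⁻¹) ^ 2 := by gcongr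
        _ ≤ _ := h5
    have e : Eb c (((s : ℂ) * u) ^ 2) - c * ((s : ℂ) * u) ^ 2 - 1 =
        (Eb c (((s : ℂ) * u) ^ 2) - 1) - c * ((s : ℂ) * u) ^ 2 := by ring
    rw [e]
    refine (norm_sub_le _ _).trans ?_
    linarith
  have hcont : ContinuousOn (fun s : ℝ => (Ef (c, (s : ℂ) * u)).re) (Icc 0 1) := by
    have h1 : ContinuousOn (fun s : ℝ => ((c, (s : ℂ) * u) : ℂ × ℂ)) (Icc 0 1) := by
      have : Continuous (fun s : ℝ => ((c, (s : ℂ) * u) : ℂ × ℂ)) := by fun_prop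
      exact this.continuousOn
    exact Complex.continuous_re.comp_continuousOn (continuousOn_Ef.comp h1 hOm')
  by_contra hcon
  push Not at hcon
  have hmem : (0 : ℝ) ∈ Icc ((Ef (c, ((1 : ℝ) : ℂ) * u)).re) ((Ef (c, ((0 : ℝ) : ℂ) * u)).re) := by
    constructor
    · simpa using hcon
    · simp
  obtain ⟨s, hs, hs0⟩ := intermediate_value_Icc' (by norm_num : (0 : ℝ) ≤ 1) hcont hmem
  exact hne s hs hs0

lemma re_inv_pos {x : ℂ} (h : 0 < x.re) : 0 < (x⁻¹).re := by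
  rw [Complex.inv_re]
  apply div_pos h
  rw [Complex.normSq_pos]
  intro h0
  rw [h0] at h
  simp at h

/-- asymptotics of the Riemann map -/
theorem norm_Phi_div_sub_one {c : ℂ} (hc : 1000 < ‖c‖) : ‖Phi c / c - 1‖ ≤ 7 / ‖c‖ := by
  have hc0 : c ≠ 0 := by rw [← norm_pos_iff]; linarith
  have hn0 : 0 < ‖c‖ := by linarith
  have hF := Far_f_self (c := c) (by linarith)
  have hre : 0 < (Phi c / c).re := by
    have := re_inv_pos (re_div_Phi_pos hc)
    rwa [inv_div] at this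
  set y : ℂ := Phi c / c with hy
  set S : ℂ := SB c (f c c) with hS
  have h1 : y ^ 2 = (1 + c⁻¹) * Complex.exp S := by
    rw [hy, div_pow, Phi_sq_eq hc, bo, ← hS, f]
    field_simp
  have h2 : ‖S‖ ≤ 3 / 2 * (1 / ‖c‖) := by
    refine (norm_SB_le hF).trans ?_
    have h3 := norm_sq_sub_le c
    have h4 : ‖c‖ ≤ ‖f c c‖ := by nlinarith
    have h5 : ‖c‖ / ‖f c c‖ ^ 2 ≤ 1 / ‖c‖ := by
      rw [div_le_div_iff₀ (by nlinarith) hn0]
      nlinarith
    linarith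
  have h2' : 3 / 2 * (1 / ‖c‖) ≤ 1 := by
    rw [mul_one_div, div_le_one hn0]
    linarith
  have h3 : ‖Complex.exp S - 1‖ ≤ 2 * ‖S‖ := Complex.norm_exp_sub_one_le (h2.trans h2')
  have h4 : ‖c⁻¹‖ = 1 / ‖c‖ := by rw [norm_inv, inv_eq_one_div]
  have h5 : ‖(1 : ℂ) + c⁻¹‖ ≤ 2 := by
    refine (norm_add_le _ _).trans ?_
    rw [h4, norm_one]
    have : 1 / ‖c‖ ≤ 1 := by rw [div_le_one hn0]; linarith
    linarith
  have h6 : ‖y ^ 2 - 1‖ ≤ 7 / ‖c‖ := by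
    have e : y ^ 2 - 1 = (1 + c⁻¹) * (Complex.exp S - 1) + c⁻¹ := by rw [h1]; ring
    rw [e]
    calc ‖(1 + c⁻¹) * (Complex.exp S - 1) + c⁻¹‖
        ≤ ‖(1 + c⁻¹) * (Complex.exp S - 1)‖ + ‖c⁻¹‖ := norm_add_le _ _
      _ ≤ 2 * (2 * (3 / 2 * (1 / ‖c‖))) + 1 / ‖c‖ := by
        rw [norm_mul, h4]
        gcongr
        exact h3.trans (by gcongr)
      _ = 7 / ‖c‖ := by ring
  have h7 : ‖y - 1‖ * ‖y + 1‖ = ‖y ^ 2 - 1‖ := by
    rw [← norm_mul]; congr 1; ring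
  have h8 : 1 ≤ ‖y + 1‖ := by
    have h9 := Complex.re_le_norm (y + 1)
    rw [Complex.add_re, Complex.one_re] at h9
    linarith
  have h10 : ‖y - 1‖ ≤ ‖y - 1‖ * ‖y + 1‖ := le_mul_of_one_le_right (norm_nonneg _) h8
  linarith

/-! ### the map `Psi` -/

theorem differentiableOn_Psi : DifferentiableOn ℂ Psi {z | 1 < ‖z‖} := exists_Psi.choose_spec.1

theorem Psi_mem {z : ℂ} (hz : 1 < ‖z‖) : Psi z ∈ Mc := exists_Psi.choose_spec.2.1 hz

theorem Phi_Psi {z : ℂ} (hz : 1 < ‖z‖) : Phi (Psi z) = z := exists_Psi.choose_spec.2.2.2 z hz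

theorem Psi_Phi {c : ℂ} (hc : c ∈ Mc) : Psi (Phi c) = c := exists_Psi.choose_spec.2.2.1 c hc

theorem bijOn_Psi : BijOn Psi {z | 1 < ‖z‖} MMᶜ := by
  refine ⟨fun z hz => mem_Mc_iff.1 (Psi_mem hz), fun z hz w hw h => ?_, fun c hc => ?_⟩
  · rw [← Phi_Psi hz, ← Phi_Psi hw, h]
  · have hcM := mem_Mc_iff.2 hc
    exact ⟨Phi c, one_lt_norm_Phi hcM, Psi_Phi hcM⟩

theorem Psi_exp (L : ℂ) : Psi (Complex.exp L) = cOf L := rfl

theorem tendsto_Psi_div : Tendsto (fun z => Psi z / z) (Bornology.cobounded ℂ) (𝓝 1) := by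
  obtain ⟨B', hB'⟩ := (isCompact_closedBall (0 : ℂ) 1000).exists_bound_of_continuousOn
    (f := fun c => G c c) continuous_G_diag.continuousOn
  have hbig : ∀ z : ℂ, max 1 (Real.exp B') < ‖z‖ → 1000 < ‖Psi z‖ := by
    intro z hz
    have hz1 : 1 < ‖z‖ := (le_max_left _ _).trans_lt hz
    by_contra hcon
    push Not at hcon
    have h1 := hB' (Psi z) (by rwa [mem_closedBall_zero_iff])
    rw [Real.norm_eq_abs] at h1
    have h2 : ‖z‖ = Real.exp (G (Psi z) (Psi z)) := by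
      have := norm_Phi (Psi_mem hz1)
      rwa [Phi_Psi hz1] at this
    have h3 : ‖z‖ ≤ Real.exp B' := by
      rw [h2]; exact Real.exp_le_exp.2 ((le_abs_self _).trans h1)
    exact absurd ((le_max_right 1 _).trans_lt hz) (not_lt.2 h3)
  have hnorm : Tendsto (fun z : ℂ => ‖z‖) (Bornology.cobounded ℂ) atTop :=
    tendsto_norm_cobounded_atTop
  have key : Tendsto (fun z : ℂ => z / Psi z) (Bornology.cobounded ℂ) (𝓝 1) := by
    rw [tendsto_iff_norm_sub_tendsto_zero]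
    have h0 : Tendsto (fun z : ℂ => 8 / ‖z‖) (Bornology.cobounded ℂ) (𝓝 0) :=
      hnorm.const_div_atTop 8
    refine squeeze_zero' (Eventually.of_forall fun z => norm_nonneg _) ?_ h0
    filter_upwards [hnorm.eventually_gt_atTop (max 1 (Real.exp B'))] with z hz
    have hz1 : 1 < ‖z‖ := (le_max_left _ _).trans_lt hz
    have h1 := hbig z hz
    have h2 := norm_Phi_div_sub_one h1
    have h3 := (norm_Phi_bounds h1).2
    rw [Phi_Psi hz1] at h2 h3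
    refine h2.trans ?_
    rw [div_le_div_iff₀ (by linarith) (by linarith)]
    linarith
  have h4 := key.inv₀ one_ne_zero
  rw [inv_one] at h4
  refine h4.congr fun z => ?_
  rw [inv_div]

/-! ### boundary limits -/

theorem tendsto_Psi_of_cOf {L₀ c₀ : ℂ} (h : Tendsto cOf (𝓝[{L | 0 < L.re}] L₀) (𝓝 c₀))
    (hL₀ : L₀.re = 0) : Tendsto Psi (𝓝[{z | 1 < ‖z‖}] (Complex.exp L₀)) (𝓝 c₀) := by
  have h1 : Tendsto (fun z : ℂ => L₀ + Complex.log (z * Complex.exp (-L₀)))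
      (𝓝[{z | 1 < ‖z‖}] (Complex.exp L₀)) (𝓝[{L | 0 < L.re}] L₀) := by
    rw [tendsto_nhdsWithin_iff]
    constructor
    · have h2 : Tendsto (fun z : ℂ => z * Complex.exp (-L₀)) (𝓝 (Complex.exp L₀)) (𝓝 1) := by
        have h3 : Tendsto (fun z : ℂ => z * Complex.exp (-L₀)) (𝓝 (Complex.exp L₀))
            (𝓝 (Complex.exp L₀ * Complex.exp (-L₀))) := tendsto_id.mul_const _
        rwa [← Complex.exp_add, add_neg_cancel, Complex.exp_zero] at h3
      have h4 : Tendsto Complex.log (𝓝 1) (𝓝 (Complex.log 1)) :=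
        (continuousAt_clog (Complex.one_mem_slitPlane)).tendsto
      rw [Complex.log_one] at h4
      have h5 := ((h4.comp h2).const_add L₀).mono_left
        (nhdsWithin_le_nhds (s := {z : ℂ | 1 < ‖z‖}))
      rw [add_zero] at h5
      exact h5
    · filter_upwards [self_mem_nhdsWithin] with z hz
      have hz' : 1 < ‖z‖ := hz
      show 0 < (L₀ + Complex.log (z * Complex.exp (-L₀))).re
      rw [Complex.add_re, hL₀, zero_add, Complex.log_re, norm_mul, Complex.norm_exp,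
        Complex.neg_re, hL₀, neg_zero, Real.exp_zero, mul_one]
      exact Real.log_pos hz'
  refine (h.comp h1).congr' ?_
  filter_upwards [self_mem_nhdsWithin] with z hz
  have hz' : 1 < ‖z‖ := hz
  have hz0 : z * Complex.exp (-L₀) ≠ 0 := by
    apply mul_ne_zero _ (Complex.exp_ne_zero _)
    rw [← norm_pos_iff]; linarith
  show cOf (L₀ + Complex.log (z * Complex.exp (-L₀))) = Psi z
  rw [cOf, Complex.exp_add, Complex.exp_log hz0, mul_left_comm, ← Complex.exp_add, add_neg_cancel,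
    Complex.exp_zero, mul_one]

lemma norm_cOf_le {L : ℂ} (hL : 0 < L.re) (hL1 : L.re ≤ 1) :
    ‖cOf L‖ ≤ 2 * Real.exp 1 + 100 := norm_le_of_G_le (by rw [G_cOf hL]; exact hL1)

lemma eventually_re_le {L₀ : ℂ} (hL₀ : L₀.re = 0) : ∀ᶠ L in 𝓝 L₀, L.re ≤ 1 := by
  have : Tendsto Complex.re (𝓝 L₀) (𝓝 L₀.re) := Complex.continuous_re.continuousAt
  rw [hL₀] at this
  filter_upwards [this.eventually (gt_mem_nhds (by norm_num : (0 : ℝ) < 1))] with L hL
  exact le_of_lt hL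

/-- if all limits along sequences agree, `cOf` has a limit -/
theorem tendsto_cOf_of_unique {L₀ c₀ : ℂ} (hL₀ : L₀.re = 0)
    (h : ∀ (u : ℕ → ℂ) (c : ℂ), (∀ n, 0 < (u n).re) → Tendsto u atTop (𝓝 L₀) →
      Tendsto (fun n => cOf (u n)) atTop (𝓝 c) → c = c₀) :
    Tendsto cOf (𝓝[{L | 0 < L.re}] L₀) (𝓝 c₀) := by
  by_contra hcon
  rw [not_tendsto_iff_exists_frequently_notMem] at hcon
  obtain ⟨V, hV, hfr⟩ := hcon
  have hfr2 : ∃ᶠ L in 𝓝[{L | 0 < L.re}] L₀, cOf L ∉ V ∧ (0 < L.re ∧ L.re ≤ 1) := by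
    apply hfr.and_eventually
    filter_upwards [self_mem_nhdsWithin, nhdsWithin_le_nhds (eventually_re_le hL₀)] with L h1 h2
    exact ⟨h1, h2⟩
  obtain ⟨u, hu, hu2⟩ := exists_seq_forall_of_frequently hfr2
  have hu3 : Tendsto u atTop (𝓝 L₀) := hu.mono_right nhdsWithin_le_nhds
  obtain ⟨c, -, φ, hφ, hc⟩ := (isCompact_closedBall (0 : ℂ) (2 * Real.exp 1 + 100)).tendsto_subseq
    (x := fun n => cOf (u n)) (fun n => by
      rw [mem_closedBall_zero_iff]; exact norm_cOf_le (hu2 n).2.1 (hu2 n).2.2)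
  have h1 := h (u ∘ φ) c (fun n => (hu2 (φ n)).2.1) (hu3.comp hφ.tendsto_atTop) hc
  rw [h1] at hc
  obtain ⟨n, hn⟩ := (hc.eventually hV).exists
  exact (hu2 (φ n)).1 hn

/-- the limits of `cOf` at the imaginary axis are in the Mandelbrot set -/
theorem mem_MM_of_tendsto {u : ℕ → ℂ} {c : ℂ} (hu : ∀ n, 0 < (u n).re)
    (h0 : Tendsto (fun n => (u n).re) atTop (𝓝 0))
    (hc : Tendsto (fun n => cOf (u n)) atTop (𝓝 c)) : c ∈ MM := by
  rw [mem_M_iff']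
  have h1 : Tendsto (fun n => G (cOf (u n)) (cOf (u n))) atTop (𝓝 (G c c)) :=
    (continuous_G_diag.tendsto c).comp hc
  refine tendsto_nhds_unique h1 ?_
  refine h0.congr fun n => ?_
  rw [G_cOf (hu n)]

/-- there is a limit -/
theorem exists_limit_cOf {u : ℕ → ℂ} (hu : ∀ n, 0 < (u n).re) (hu1 : ∀ n, (u n).re ≤ 1) :
    ∃ c, ∃ φ : ℕ → ℕ, StrictMono φ ∧ Tendsto (fun n => cOf (u (φ n))) atTop (𝓝 c) := by
  obtain ⟨c, -, φ, hφ, hc⟩ := (isCompact_closedBall (0 : ℂ) (2 * Real.exp 1 + 100)).tendsto_subseq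
    (x := fun n => cOf (u n)) (fun n => by
      rw [mem_closedBall_zero_iff]; exact norm_cOf_le (hu n) (hu1 n))
  exact ⟨c, φ, hφ, hc⟩

/-- **G12**: boundary limits of the Riemann map -/
theorem tendsto_Psi_of_unique {θ : ℝ} {c₀ : ℂ}
    (h : ∀ (g t : ℕ → ℝ) (c : ℂ), (∀ n, 0 < g n) → Tendsto g atTop (𝓝 0) →
      Tendsto t atTop (𝓝 θ) →
      Tendsto (fun n => cOf ((g n : ℂ) + 2 * Real.pi * t n * Complex.I)) atTop (𝓝 c) → c = c₀) :
    Tendsto Psi (𝓝[{z | 1 < ‖z‖}] (Complex.exp (2 * Real.pi * θ * Complex.I))) (𝓝 c₀) := by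
  have hre : (2 * Real.pi * θ * Complex.I : ℂ).re = 0 := by simp
  have him : (2 * Real.pi * θ * Complex.I : ℂ).im = 2 * Real.pi * θ := by simp
  refine tendsto_Psi_of_cOf (tendsto_cOf_of_unique hre fun u c hu hu2 hc => ?_) hre
  refine h (fun n => (u n).re) (fun n => (u n).im / (2 * Real.pi)) c hu ?_ ?_ ?_
  · have := (Complex.continuous_re.tendsto _).comp hu2
    rwa [hre] at this
  · have h1 := ((Complex.continuous_im.tendsto _).comp hu2).div_const (2 * Real.pi)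
    rw [him, mul_div_cancel_left₀ _ (by positivity)] at h1
    exact h1
  · refine hc.congr fun n => ?_
    congr 1
    have h2 : (2 : ℂ) * Real.pi * (((u n).im / (2 * Real.pi) : ℝ) : ℂ) = ((u n).im : ℂ) := by
      have h3 : (2 : ℂ) * Real.pi * (((u n).im / (2 * Real.pi) : ℝ) : ℂ) =
          ((2 * Real.pi * ((u n).im / (2 * Real.pi)) : ℝ) : ℂ) := by push_cast; ring
      rw [h3, mul_div_cancel₀ _ (by positivity)]
    rw [h2]
    exact (Complex.re_add_im (u n)).symm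

/-- **G12**: the Riemann map, all properties -/
theorem riemann_map : ∃ ψ : ℂ → ℂ, DifferentiableOn ℂ ψ {z | 1 < ‖z‖} ∧
    BijOn ψ {z | 1 < ‖z‖} MMᶜ ∧ Tendsto (fun z => ψ z / z) (Bornology.cobounded ℂ) (𝓝 1) ∧
    (∀ L, ψ (Complex.exp L) = cOf L) ∧
    ∀ (θ : ℝ) (c₀ : ℂ), (∀ (g t : ℕ → ℝ) (c : ℂ), (∀ n, 0 < g n) → Tendsto g atTop (𝓝 0) →
      Tendsto t atTop (𝓝 θ) →
      Tendsto (fun n => cOf ((g n : ℂ) + 2 * Real.pi * t n * Complex.I)) atTop (𝓝 c) → c = c₀) →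
    Tendsto ψ (𝓝[{z | 1 < ‖z‖}] (Complex.exp (2 * Real.pi * θ * Complex.I))) (𝓝 c₀) :=
  ⟨Psi, differentiableOn_Psi, bijOn_Psi, tendsto_Psi_div, fun _ => rfl,
    fun _ _ h => tendsto_Psi_of_unique h⟩

end Pool.Agent.Work.MLC
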