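import Pool.Agent.Work.MLC.Gleason51
import Pool.Agent.Work.MLC.SatE26

set_option autoImplicit false

/-! # The multiplier map of a hyperbolic component is injective (helper51) -/

namespace Pool.Agent.Work.MLC.Hyp

open Filter Topology Metric Set

/-- the multiplier of a multiple of the period -/
lemma mul_mul {g k : ℕ} {x : ℂ × ℂ} (hx : x ∈ Per g) : mul (g * k) x = mul g x ^ k := by
  have h1 : HasDerivAt (it x.1 g) (mul g x) x.2 := hasDerivAt_it x.1 g x.2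
  have h2 := HasDerivAt.iterate _ h1 hx k
  have h3 : (it x.1 g)^[k] = it x.1 (g * k) := by
    unfold it
    rw [← Function.iterate_mul]
  rw [h3] at h2
  exact (hasDerivAt_it x.1 (g * k) x.2).unique h2

/-- near a pair with multiplier different from `1` the periods do not change -/
theorem per_nhds {n : ℕ} {x₀ : ℂ × ℂ} (hx : x₀ ∈ Per n) (hm : mul n x₀ ≠ 1) (d : ℕ) :
    ∀ᶠ x in 𝓝 x₀, x ∈ Per n → (it x.1 d x.2 = x.2 ↔ it x₀.1 d x₀.2 = x₀.2) := by
  by_cases hd : it x₀.1 d x₀.2 = x₀.2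
  · -- the common period
    set g := Nat.gcd d n with hg
    have hper : x₀ ∈ Per g := by
      have h1 : Function.IsPeriodicPt (f x₀.1) d x₀.2 := hd
      have h2 : Function.IsPeriodicPt (f x₀.1) n x₀.2 := hx
      exact h1.gcd h2
    obtain ⟨k, hk⟩ : g ∣ n := Nat.gcd_dvd_right d n
    obtain ⟨l, hl⟩ : g ∣ d := Nat.gcd_dvd_left d n
    have hmg : mul g x₀ ≠ 1 := by
      intro h
      apply hm
      rw [hk, mul_mul hper, h, one_pow]
    obtain ⟨β, hβ, hβ0, hβe⟩ := chart hx hm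
    obtain ⟨γ, hγ, hγ0, hγe⟩ := chart hper hmg
    have ht := chart_tendsto (x₀ := x₀) hγ hγ0
    have h1 : ∀ᶠ c in 𝓝 x₀.1, γ c = β c ∧ (c, γ c) ∈ Per g := by
      filter_upwards [ht.eventually hγe, ht.eventually hβe] with c h2 h3
      have h4 : (c, γ c) ∈ Per g := h2.2 rfl
      have h5 : (c, γ c) ∈ Per n := by
        have h6 : Function.IsPeriodicPt (f c) g (γ c) := h4
        have h7 : Function.IsPeriodicPt (f c) n (γ c) := h6.trans_dvd ⟨k, hk⟩
        exact h7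
      exact ⟨(h3.1 h5).symm, h4⟩
    filter_upwards [continuous_fst.continuousAt.eventually h1, hβe] with x h2 h3 h4
    refine ⟨fun _ => hd, fun _ => ?_⟩
    have h5 : β x.1 = x.2 := h3.1 h4
    have h6 : (x.1, x.2) ∈ Per g := by
      rw [← h5, ← h2.1]; exact h2.2
    have h7 : Function.IsPeriodicPt (f x.1) g x.2 := h6
    have h8 : Function.IsPeriodicPt (f x.1) d x.2 := h7.trans_dvd ⟨l, hl⟩
    exact h8
  · have h1 : ∀ᶠ x : ℂ × ℂ in 𝓝 x₀, it x.1 d x.2 ≠ x.2 :=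
      (isOpen_ne_fun (continuous_it d) continuous_snd).mem_nhds hd
    filter_upwards [h1] with x h2 _
    exact ⟨fun h => absurd h h2, fun h => absurd h hd⟩

/-- attracting pairs of exact period `n` -/
def Att (n : ℕ) : Set (ℂ × ℂ) :=
  {x | x ∈ Per n ∧ (∀ d, 0 < d → d < n → it x.1 d x.2 ≠ x.2) ∧ ‖mul n x‖ < 1}

lemma mem_Att_iff {n : ℕ} (hn : 0 < n) {x : ℂ × ℂ} :
    x ∈ Att n ↔ PerN n x.1 x.2 ∧ ‖mult n x.1 x.2‖ < 1 := by
  constructor
  · rintro ⟨h1, h2, h3⟩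
    refine ⟨⟨hn, ?_⟩, h3⟩
    have h4 : Function.IsPeriodicPt (f x.1) n x.2 := h1
    have h5 := h4.minimalPeriod_le hn
    rcases h5.lt_or_eq with h | h
    · exfalso
      exact h2 _ (h4.minimalPeriod_pos hn) h (Function.isPeriodicPt_minimalPeriod (f x.1) x.2)
    · exact h
  · rintro ⟨⟨h1, h2⟩, h3⟩
    refine ⟨?_, ?_, h3⟩
    · have h4 := Function.isPeriodicPt_minimalPeriod (f x.1) x.2
      rw [h2] at h4
      exact h4
    · intro d hd hdn h4
      have h5 : Function.IsPeriodicPt (f x.1) d x.2 := h4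
      have := h5.minimalPeriod_le hd
      omega

lemma Att.ne_one {n : ℕ} {x : ℂ × ℂ} (h : x ∈ Att n) : mul n x ≠ 1 := by
  intro h1
  have := h.2.2
  rw [h1, norm_one] at this
  exact lt_irrefl _ this

lemma Att.lt {n : ℕ} {x : ℂ × ℂ} (h : x ∈ Att n) : ‖mul n x‖ < 23 / 10 := by
  have := h.2.2; linarith

/-- exactness is locally constant -/
lemma exact_nhds {n : ℕ} {x₀ : ℂ × ℂ} (hx : x₀ ∈ Per n) (hm : mul n x₀ ≠ 1) :
    ∀ᶠ x in 𝓝 x₀, x ∈ Per n → ((∀ d, 0 < d → d < n → it x.1 d x.2 ≠ x.2) ↔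
      ∀ d, 0 < d → d < n → it x₀.1 d x₀.2 ≠ x₀.2) := by
  have h1 : ∀ᶠ x in 𝓝 x₀, ∀ d ∈ Finset.range n, x ∈ Per n →
      (it x.1 d x.2 = x.2 ↔ it x₀.1 d x₀.2 = x₀.2) := by
    rw [Filter.eventually_all_finset]
    intro d _
    exact per_nhds hx hm d
  filter_upwards [h1] with x h2 h3
  constructor
  · intro h4 d hd hdn h5
    exact h4 d hd hdn ((h2 d (Finset.mem_range.2 hdn) h3).2 h5)
  · intro h4 d hd hdn h5
    exact h4 d hd hdn ((h2 d (Finset.mem_range.2 hdn) h3).1 h5)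

/-- attracting pairs form an open subset of the curve -/
lemma att_nhds {n : ℕ} {x₀ : ℂ × ℂ} (hx : x₀ ∈ Att n) :
    ∀ᶠ x in 𝓝 x₀, x ∈ Per n → x ∈ Att n := by
  have h2 : ∀ᶠ x in 𝓝 x₀, ‖mul n x‖ < 1 :=
    ((continuous_mul' n).norm.continuousAt).eventually_lt continuousAt_const hx.2.2
  filter_upwards [exact_nhds hx.1 (Att.ne_one hx), h2] with x h3 h4 h5
  exact ⟨h5, (h3 h5).2 hx.2.1, h4⟩

/-- local injectivity at all attracting pairs of exact period `n` -/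
lemma Att.locInj {n : ℕ} (hn : 0 < n) {x : ℂ × ℂ} (h : x ∈ Att n) : LocInj n x := by
  by_cases h0 : mul n x = 0
  · exact locInj_center hn h.1 h.2.1 h0
  · exact locInj_of_le hn h.1 (Att.ne_one h) h0 h.2.2.le

/-- the projection to the disc of multipliers -/
noncomputable def pr (n : ℕ) (p : Att n) : ball (0 : ℂ) 1 := ⟨mul n p.1, by
  rw [mem_ball_zero_iff]; exact p.2.2.2⟩

lemma continuous_pr (n : ℕ) : Continuous (pr n) :=
  ((continuous_mul' n).comp continuous_subtype_val).subtype_mk _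

lemma pr_isOpenMap {n : ℕ} (hn : 0 < n) : IsOpenMap (pr n) := by
  rw [isOpenMap_iff_nhds_le]
  intro p U hU
  rw [mem_map] at hU
  have hU' := hU
  rw [nhds_subtype_eq_comap, mem_comap] at hU'
  obtain ⟨V, hV, hVU⟩ := hU'
  obtain ⟨x₀, hx₀⟩ := p
  simp only at hV
  have h1 := mul_open hn hx₀.1 (Att.ne_one hx₀) (Att.lt hx₀) (inter_mem hV (att_nhds hx₀))
  have ht : Tendsto (fun L : ball (0 : ℂ) 1 => (L : ℂ)) (𝓝 (pr n ⟨x₀, hx₀⟩)) (𝓝 (mul n x₀)) :=
    continuous_subtype_val.tendsto' _ _ rfl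
  filter_upwards [ht.eventually h1] with L hL
  obtain ⟨x, ⟨⟨hxV, hxA⟩, hxP⟩, hx⟩ := hL
  have h4 : (⟨x, hxA hxP⟩ : Att n) ∈ (pr n) ⁻¹' U := hVU hxV
  have h5 : pr n ⟨x, hxA hxP⟩ = L := Subtype.ext hx
  rw [mem_preimage, h5] at h4
  exact h4

lemma pr_locInj {n : ℕ} (hn : 0 < n) (p : Att n) :
    ∃ U ∈ 𝓝 p, IsOpen U ∧ InjOn (pr n) U := by
  obtain ⟨x₀, hx₀⟩ := p
  obtain ⟨N, hN, hi⟩ := Att.locInj hn hx₀
  obtain ⟨N', hN', hN'o, hx₀N⟩ := _root_.mem_nhds_iff.1 hN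
  have hc : Continuous fun q : Att n => q.1 := continuous_subtype_val
  refine ⟨{q | q.1 ∈ N'}, (hN'o.preimage hc).mem_nhds hx₀N, hN'o.preimage hc, ?_⟩
  rintro ⟨x, hx⟩ hxN ⟨x', hx'⟩ hxN' heq
  simp only [pr, Subtype.mk.injEq] at heq
  exact Subtype.ext (hi ⟨hN' hxN, hx.1⟩ ⟨hN' hxN', hx'.1⟩ heq)

lemma pr_isLocalHomeomorph {n : ℕ} (hn : 0 < n) : IsLocalHomeomorph (pr n) := by
  rw [isLocalHomeomorph_iff_isOpenEmbedding_restrict]
  intro p
  obtain ⟨U, hU, hUo, hi⟩ := pr_locInj hn p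
  refine ⟨U, hU, ?_⟩
  refine Topology.IsOpenEmbedding.of_continuous_injective_isOpenMap ?_ hi.injective ?_
  · exact (continuous_pr n).comp continuous_subtype_val
  · exact (pr_isOpenMap hn).domRestrict hUo

lemma pr_isProperMap {n : ℕ} (hn : 0 < n) : IsProperMap (pr n) := by
  have : LocallyCompactSpace (ball (0 : ℂ) 1) := isOpen_ball.locallyCompactSpace
  rw [isProperMap_iff_isCompact_preimage]
  refine ⟨continuous_pr n, fun K hK => ?_⟩
  rw [Topology.IsEmbedding.subtypeVal.isCompact_iff]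
  have hKc : IsCompact ((fun L : ball (0 : ℂ) 1 => (L : ℂ)) '' K) :=
    hK.image continuous_subtype_val
  have hKlt : ∀ L ∈ ((fun L : ball (0 : ℂ) 1 => (L : ℂ)) '' K), ‖L‖ < 1 := by
    rintro _ ⟨L, -, rfl⟩
    exact mem_ball_zero_iff.1 L.2
  have h1 : IsCompact (Per n ∩ mul n ⁻¹' ((fun L : ball (0 : ℂ) 1 => (L : ℂ)) '' K)) := by
    refine isCompact_Per hn hKc.isClosed ?_
    intro L hL
    have := hKlt L hL
    linarith
  refine h1.of_isClosed_subset ?_ ?_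
  · refine isClosed_of_closure_subset ?_
    intro x₀ hx₀
    have hcl : x₀ ∈ Per n ∩ mul n ⁻¹' ((fun L : ball (0 : ℂ) 1 => (L : ℂ)) '' K) := by
      refine h1.isClosed.closure_subset_iff.2 ?_ hx₀
      rintro _ ⟨⟨x, hx⟩, hxK, rfl⟩
      exact ⟨hx.1, ⟨pr n ⟨x, hx⟩, hxK, rfl⟩⟩
    have hlt := hKlt _ hcl.2
    have hne : mul n x₀ ≠ 1 := by
      intro h; rw [h, norm_one] at hlt; exact lt_irrefl _ hlt
    obtain ⟨x, h2, h3⟩ := mem_closure_iff_nhds.1 hx₀ _ (exact_nhds hcl.1 hne)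
    obtain ⟨⟨y, hy⟩, hyK, rfl⟩ := h3
    have h4 := (h2 hy.1).1 hy.2.1
    have hx₀A : x₀ ∈ Att n := ⟨hcl.1, h4, hlt⟩
    obtain ⟨L, hL, hL2⟩ := hcl.2
    refine ⟨⟨x₀, hx₀A⟩, ?_, rfl⟩
    have h5 : pr n ⟨x₀, hx₀A⟩ = L := Subtype.ext hL2.symm
    rw [mem_preimage, h5]
    exact hL
  · rintro _ ⟨⟨x, hx⟩, hxK, rfl⟩
    exact ⟨hx.1, ⟨pr n ⟨x, hx⟩, hxK, rfl⟩⟩

theorem pr_isCoveringMap {n : ℕ} (hn : 0 < n) : IsCoveringMap (pr n) := by
  rw [isCoveringMap_iff_isCoveringMapOn_univ]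
  have hl := pr_isLocalHomeomorph hn
  have hp := pr_isProperMap hn
  refine IsClosedMap.isCoveringMapOn_of_isLocalHomeomorphOn hp.isClosedMap ?_ ?_
  · intro L _
    have hc : IsCompact (pr n ⁻¹' {L}) := hp.isCompact_preimage isCompact_singleton
    refine hc.finite (.of_openPartialHomeomorph (pr n) subset_rfl fun e _ => ?_)
    obtain ⟨φ, h1, h2⟩ := hl e
    exact ⟨φ, h1, h2.symm⟩
  · rw [preimage_univ, ← isLocalHomeomorph_iff_isLocalHomeomorphOn_univ]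
    exact hl

/-- **the inverse of the multiplier map** through an attracting pair of exact period `n` -/
theorem exists_sec {n : ℕ} (hn : 0 < n) {x₀ : ℂ × ℂ} (hx₀ : x₀ ∈ Att n) :
    ∃ s : ℂ → ℂ × ℂ, ContinuousOn s (ball 0 1) ∧ (∀ l ∈ ball (0 : ℂ) 1, s l ∈ Att n ∧
      mul n (s l) = l) ∧ s (mul n x₀) = x₀ := by
  have : ContractibleSpace (ball (0 : ℂ) 1) :=
    (convex_ball (0 : ℂ) 1).contractibleSpace ⟨0, mem_ball_self one_pos⟩
  have : LocallyPathConnectedSpace (ball (0 : ℂ) 1) := isOpen_ball.locallyPathConnectedSpace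
  have hl₀ : mul n x₀ ∈ ball (0 : ℂ) 1 := mem_ball_zero_iff.2 hx₀.2.2
  obtain ⟨F, ⟨hF0, hF⟩, -⟩ := (pr_isCoveringMap hn).existsUnique_continuousMap_lifts
    (ContinuousMap.id (ball (0 : ℂ) 1)) ⟨mul n x₀, hl₀⟩ ⟨x₀, hx₀⟩ rfl
  classical
  refine ⟨fun L => if hL : L ∈ ball (0 : ℂ) 1 then (F ⟨L, hL⟩).1 else x₀, ?_, ?_, ?_⟩
  · rw [continuousOn_iff_continuous_domRestrict]
    have h1 : (ball (0 : ℂ) 1).domRestrict
        (fun L => if hL : L ∈ ball (0 : ℂ) 1 then (F ⟨L, hL⟩).1 else x₀) =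
        fun L : ball (0 : ℂ) 1 => (F L).1 := by
      funext L
      simp [domRestrict, L.2]
    rw [h1]
    exact continuous_subtype_val.comp F.continuous
  · intro L hL
    have h1 : pr n (F ⟨L, hL⟩) = ⟨L, hL⟩ := congrFun hF ⟨L, hL⟩
    have h2 : mul n (F ⟨L, hL⟩).1 = L := congrArg Subtype.val h1
    simp only [hL, dif_pos]
    exact ⟨(F ⟨L, hL⟩).2, h2⟩
  · simp only [hl₀, dif_pos, hF0]

/-- parameters with an attracting cycle of exact period `n` -/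
def AA (n : ℕ) : Set ℂ := {c | ∃ b, PerN n c b ∧ ‖mult n c b‖ < 1}

lemma att_same (h7 : Sat.S7_fatou) {n : ℕ} (hn : 0 < n) {c b b' : ℂ} (h : (c, b) ∈ Att n)
    (h' : (c, b') ∈ Att n) : mul n (c, b') = mul n (c, b) := by
  obtain ⟨i, hi⟩ := h7 c b b' n n hn hn h.1 h.2.2 h'.1 h'.2.2
  rw [hi]
  exact Sat.mul_it' h.1 i

/-- **the multiplier map of a hyperbolic component is injective**, and onto the disc -/
theorem hyp_section (h7 : Sat.S7_fatou) {n : ℕ} (hn : 0 < n) {W : Set ℂ} (hW : HypComp n W)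
    {x : ℂ × ℂ} (hx : x ∈ Att n) (hxW : x.1 ∈ W) :
    ∃ s : ℂ → ℂ × ℂ, ContinuousOn s (ball 0 1) ∧ (∀ l ∈ ball (0 : ℂ) 1, s l ∈ Att n ∧
      mul n (s l) = l ∧ (s l).1 ∈ W) ∧ s (mul n x) = x ∧
      ∀ y ∈ Att n, y.1 ∈ W → y.1 = (s (mul n y)).1 := by
  obtain ⟨s, hs, hs', hs0⟩ := exists_sec hn hx
  obtain ⟨c₁, hc₁, hWe⟩ := hW
  set V : Set ℂ := (fun l => (s l).1) '' ball 0 1 with hV
  have hsc : ContinuousOn (fun l => (s l).1) (ball 0 1) := continuous_fst.comp_continuousOn hs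
  have hVpre : IsPreconnected V := (convex_ball (0 : ℂ) 1).isPreconnected.image _ hsc
  have hxl : mul n x ∈ ball (0 : ℂ) 1 := mem_ball_zero_iff.2 hx.2.2
  have hxV : x.1 ∈ V := ⟨mul n x, hxl, by simp only [hs0]⟩
  have hVA : V ⊆ AA n := by
    rintro _ ⟨l, hl, rfl⟩
    exact ⟨(s l).2, (mem_Att_iff hn).1 (hs' l hl).1⟩
  have hWA : W ⊆ AA n := by
    rw [hWe]; exact connectedComponentIn_subset _ _
  have hWpre : IsPreconnected W := by
    rw [hWe]; exact isPreconnected_connectedComponentIn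
  have hVW : V ⊆ W := by
    have hxc : connectedComponentIn (AA n) c₁ = connectedComponentIn (AA n) x.1 := by
      refine connectedComponentIn_eq ?_
      rw [hWe] at hxW
      exact hxW
    have hWe' : W = connectedComponentIn (AA n) x.1 := by rw [← hxc]; exact hWe
    rw [hWe']
    exact hVpre.subset_connectedComponentIn hxV hVA
  have hVo : IsOpen V := by
    rw [isOpen_iff_mem_nhds]
    rintro _ ⟨l, hl, rfl⟩
    obtain ⟨h1, h2⟩ := hs' l hl
    obtain ⟨N, hN, hinj⟩ := Att.locInj hn h1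
    obtain ⟨β, hβ, hβ0, hβe⟩ := chart h1.1 (Att.ne_one h1)
    have ht := chart_tendsto (x₀ := s l) hβ hβ0
    have hlb : ball (0 : ℂ) 1 ∈ 𝓝 l := isOpen_ball.mem_nhds hl
    have hsl : ContinuousAt s l := hs.continuousAt hlb
    have hm : Tendsto (fun c => mul n (c, β c)) (𝓝 (s l).1) (𝓝 l) := by
      have h3 : Tendsto (mul n) (𝓝 (s l)) (𝓝 l) := by
        have := (continuous_mul' n).tendsto (s l)
        rwa [h2] at this
      exact h3.comp ht
    filter_upwards [ht.eventually hN, ht.eventually hβe, hm.eventually hlb,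
      hm.eventually (hsl.eventually hN)] with c h3 h4 h5 h6
    refine ⟨mul n (c, β c), h5, ?_⟩
    have h7' := hinj ⟨h6, (hs' _ h5).1.1⟩ ⟨h3, h4.2 rfl⟩ (hs' _ h5).2
    simp only [h7']
  have hWV : W ⊆ V := by
    refine hWpre.subset_of_closure_inter_subset hVo ⟨x.1, hxW, hxV⟩ ?_
    rintro c ⟨hcV, hcW⟩
    obtain ⟨b, hb⟩ := hWA hcW
    have hb' : (c, b) ∈ Att n := (mem_Att_iff hn).2 hb
    obtain ⟨β, hβ, hβ0, hβe⟩ := chart hb'.1 (Att.ne_one hb')
    have ht := chart_tendsto (x₀ := (c, b)) hβ hβ0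
    obtain ⟨u, hu, hul⟩ := mem_closure_iff_seq_limit.1 hcV
    choose l hl hlu using hu
    have hlb : mul n (c, b) ∈ ball (0 : ℂ) 1 := mem_ball_zero_iff.2 hb'.2.2
    have hmt : Tendsto (fun c => mul n (c, β c)) (𝓝 c) (𝓝 (mul n (c, b))) :=
      ((continuous_mul' n).tendsto (c, b)).comp ht
    have hev : ∀ᶠ k in atTop, l k = mul n (u k, β (u k)) := by
      have h3 : ∀ᶠ c' in 𝓝 c, (c', β c') ∈ Att n := by
        filter_upwards [ht.eventually (att_nhds hb'), ht.eventually hβe] with c' h4 h5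
        exact h4 (h5.2 rfl)
      filter_upwards [hul.eventually h3] with k hk
      have h4 := (hs' (l k) (hl k)).1
      have h5 : (u k, (s (l k)).2) ∈ Att n := by
        have h6 : (s (l k)).1 = u k := hlu k
        rw [← h6]; exact h4
      have h7' := att_same h7 hn h5 hk
      rw [h7']
      have h6 : (s (l k)).1 = u k := hlu k
      rw [← h6]
      exact (hs' (l k) (hl k)).2.symm
    have hlt : Tendsto l atTop (𝓝 (mul n (c, b))) :=
      (hmt.comp hul).congr' (hev.mono fun k hk => hk.symm)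
    have hst : Tendsto (fun k => (s (l k)).1) atTop (𝓝 (s (mul n (c, b))).1) :=
      ((hsc.continuousAt (isOpen_ball.mem_nhds hlb)).tendsto).comp hlt
    have he : (fun k => (s (l k)).1) = u := funext hlu
    rw [he] at hst
    exact ⟨mul n (c, b), hlb, tendsto_nhds_unique hst hul⟩
  refine ⟨s, hs, fun l hl => ⟨(hs' l hl).1, (hs' l hl).2, hVW ⟨l, hl, rfl⟩⟩, hs0, ?_⟩
  intro y hy hyW
  obtain ⟨l, hl, hly⟩ := hWV hyW
  have h1 : (y.1, (s l).2) ∈ Att n := by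
    have h2 : (s l).1 = y.1 := hly
    rw [← h2]; exact (hs' l hl).1
  have h3 := att_same h7 hn (c := y.1) (b := y.2) hy h1
  have h4 : mul n (y.1, (s l).2) = l := by
    have h2 : (s l).1 = y.1 := hly
    rw [← h2]; exact (hs' l hl).2
  rw [h4] at h3
  have h5 : mul n y = l := h3.symm
  rw [h5]
  exact hly.symm

/-- injectivity -/
theorem hyp_inj (h7 : Sat.S7_fatou) {n : ℕ} (hn : 0 < n) {W : Set ℂ} (hW : HypComp n W)
    {x y : ℂ × ℂ} (hx : x ∈ Att n) (hxW : x.1 ∈ W) (hy : y ∈ Att n) (hyW : y.1 ∈ W)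
    (hm : mul n x = mul n y) : x.1 = y.1 := by
  obtain ⟨s, -, -, h1, h2⟩ := hyp_section h7 hn hW hx hxW
  rw [h2 y hy hyW, ← hm, h1]

end Pool.Agent.Work.MLC.Hyp
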