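import Pool.Agent.Work.MLC.Cnt0
import Pool.Agent.Work.MLC.Hyp51

set_option autoImplicit false

/-! # Theorem N, module N3b: the inner halves of two gates are disjoint (helper13) -/

namespace Pool.Agent.Work.MLC.Cnt

open Filter Topology Metric Set Complex MeasureTheory
open Pool.Agent.Work.MLC.Sat

/-- the left half of the good disc -/
def LB (D : Dat) : Set ℂ := {L | L ∈ D.B ∧ L.re < 0}

lemma sG_le {D : Dat} (hP : D.Par) : sG D ≤ gR D.m D.x := by
  have hR : 0 < gR D.m D.x := (sR_pos hP).trans_le (sR_le_gR hP)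
  unfold sG; linarith

lemma Half_sub {D : Dat} (hP : D.Par) : Half D ⊆ D.c '' LB D := by
  rintro _ ⟨L, ⟨h1, h2⟩, rfl⟩
  exact ⟨L, ⟨ball_subset_ball (sG_le hP) h1, h2⟩, rfl⟩

/-- the pairs over the left half of the good disc are attracting -/
lemma att_LB {D : Dat} (hP : D.Par) {L : ℂ} (hL : L ∈ LB D) : D.σ L ∈ Hyp.Att D.m := by
  obtain ⟨h1, h2⟩ := hP.sec L hL.1
  refine ⟨h1, hP.prim L hL.1, ?_⟩
  rw [h2, Complex.norm_exp]
  exact Real.exp_lt_one_iff.2 hL.2

lemma LB_aa {D : Dat} (hP : D.Par) : D.c '' LB D ⊆ Hyp.AA D.m := by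
  rintro _ ⟨L, hL, rfl⟩
  exact ⟨(D.σ L).2, (Hyp.mem_Att_iff hP.m_pos).1 (att_LB hP hL)⟩

lemma LB_pre {D : Dat} (hP : D.Par) : IsPreconnected (D.c '' LB D) := by
  have h1 : IsPreconnected (LB D) :=
    ((convex_ball _ _).inter (convex_halfSpace_re_lt 0)).isPreconnected
  exact h1.image _ fun L h1 => (c_contAt hP h1.1).continuousWithinAt

/-- the root is a limit of the left half -/
lemma rt_lim {D : Dat} (hP : D.Par) :
    (∀ᶠ s : ℝ in 𝓝[>] 0, D.a - (s : ℂ) ∈ LB D) ∧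
      Tendsto (fun s : ℝ => D.c (D.a - (s : ℂ))) (𝓝[>] 0) (𝓝 (rt D)) := by
  have haB := a_mem_B hP
  have h5 : Tendsto (fun s : ℝ => D.a - (s : ℂ)) (𝓝[>] 0) (𝓝 D.a) := by
    have h6 : Continuous fun s : ℝ => D.a - (s : ℂ) := by fun_prop
    have h7 := h6.tendsto 0
    simp only [ofReal_zero, sub_zero] at h7
    exact h7.mono_left nhdsWithin_le_nhds
  refine ⟨?_, (c_contAt hP haB).tendsto.comp h5⟩
  filter_upwards [h5.eventually (isOpen_B.mem_nhds haB), self_mem_nhdsWithin] with s h6 h7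
  refine ⟨h6, ?_⟩
  have h8 : D.a.re = 0 := by
    show (axisPt D.x).re = 0
    exact LimbData.axisPt_re D.x
  have h9 : (0 : ℝ) < s := h7
  simp [h8, h9]

/-- **N3b** -/
theorem n3_disj : N3_disj := by
  intro D D' hP hC hP' hC' hm hx hr
  rw [Set.disjoint_left]
  intro c hc hc'
  apply hr
  have ha : D.a = D'.a := by
    show axisPt D.x = axisPt D'.x
    rw [hx]
  have hB : D.B = D'.B := by
    show ball D.a (gR D.m D.x) = ball D'.a (gR D'.m D'.x)
    rw [ha, hm, hx]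
  have hLB : LB D = LB D' := by
    unfold LB
    rw [hB]
  have h1 := Half_sub hP hc
  have h1' := Half_sub hP' hc'
  have hmp := hP.m_pos
  set W := connectedComponentIn (Hyp.AA D.m) c with hW
  have hcA : c ∈ Hyp.AA D.m := LB_aa hP h1
  have hWc : HypComp D.m W := ⟨c, hcA, rfl⟩
  have h2 : D.c '' LB D ⊆ W := (LB_pre hP).subset_connectedComponentIn h1 (LB_aa hP)
  have h2' : D'.c '' LB D' ⊆ W := by
    refine (LB_pre hP').subset_connectedComponentIn h1' ?_
    rw [hm]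
    exact LB_aa hP'
  have h3 : ∀ L ∈ LB D, D.c L = D'.c L := by
    intro L hL
    have hL' : L ∈ LB D' := hLB ▸ hL
    have h4 : D'.σ L ∈ Hyp.Att D.m := by
      rw [hm]
      exact att_LB hP' hL'
    refine Hyp.hyp_inj s7_fatou hmp hWc (att_LB hP hL) (h2 ⟨L, hL, rfl⟩) h4 (h2' ⟨L, hL', rfl⟩) ?_
    rw [(hP.sec L hL.1).2]
    have := (hP'.sec L hL'.1).2
    rw [← hm] at this
    exact this.symm
  obtain ⟨h4, h5⟩ := rt_lim hP
  obtain ⟨-, h6⟩ := rt_lim hP'
  refine tendsto_nhds_unique h5 (h6.congr' ?_)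
  filter_upwards [h4] with s hs
  rw [h3 _ hs, ha]

end Pool.Agent.Work.MLC.Cnt
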