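import Mathlib
import Pool.Agent.Work.MLC.PlyArea

set_option autoImplicit false

/-! # An explicit distortion theorem  (helper70)

`koebe70`: if `f` is univalent on `ball z0 R` then
`‖f'' z‖ (R - ‖z - z0‖) ≤ 32 ‖f' z‖` on the ball (stated with a logarithm of `f'`). -/

namespace Pool.Agent.Work.MLC.Kb

open Filter Topology Metric Set Complex MeasureTheory

/-- mean value over a circle -/
lemma circle_mean {g : ℂ → ℂ} {t r : ℝ} (ht : 0 < t) (htr : t < r)
    (hg : DifferentiableOn ℂ g (ball 0 r)) :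
    ∫ θ in (-Real.pi)..Real.pi, g (circleMap 0 t θ) = (2 * Real.pi) • g 0 := by
  have hpi := Real.pi_pos
  have hsub : closedBall (0 : ℂ) t ⊆ ball 0 r := closedBall_subset_ball htr
  have hav : Real.circleAverage g 0 t = g 0 := by
    apply DiffContOnCl.circleAverage
    rw [abs_of_pos ht]
    apply DifferentiableOn.diffContOnCl
    rw [closure_ball (0 : ℂ) ht.ne']
    exact hg.mono hsub
  have h1 : g 0 = (2 * Real.pi)⁻¹ • ∫ θ in (-Real.pi)..Real.pi, g (circleMap 0 t θ) := by
    rw [← hav, Real.circleAverage_eq_integral_add (-Real.pi)]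
    congr 1
    rw [intervalIntegral.integral_comp_add_right (fun θ => g (circleMap 0 t θ))]
    congr 1 <;> ring
  conv_rhs => rw [h1]
  rw [smul_smul, mul_inv_cancel₀ (by positivity), one_smul]

lemma cont_circle {g : ℂ → ℂ} {t r : ℝ} (ht : 0 < t) (htr : t < r)
    (hg : ContinuousOn g (ball 0 r)) : Continuous (fun θ : ℝ => g (circleMap 0 t θ)) := by
  rw [← continuousOn_univ]
  apply hg.comp (continuous_circleMap 0 t).continuousOn
  intro θ _
  exact closedBall_subset_ball htr (circleMap_mem_closedBall 0 ht.le θ)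

/-- energy on a circle -/
lemma circle_energy {k : ℂ → ℂ} {t r : ℝ} (ht : 0 < t) (htr : t < r)
    (hk : DifferentiableOn ℂ k (ball 0 r)) :
    ENNReal.ofReal (2 * Real.pi * (1 / t ^ 2 + ‖k 0‖ ^ 2)) ≤
      ∫⁻ θ in Ioo (-Real.pi) Real.pi,
        ENNReal.ofReal (‖(circleMap 0 t θ)⁻¹ + k (circleMap 0 t θ)‖ ^ 2) := by
  have hpi := Real.pi_pos
  have hz : ∀ θ : ℝ, ‖circleMap 0 t θ‖ = t := fun θ => by
    rw [norm_circleMap_zero, abs_of_pos ht]
  have hz0 : ∀ θ : ℝ, circleMap 0 t θ ≠ 0 := fun θ h => by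
    have := hz θ
    rw [h, norm_zero] at this
    exact ht.ne this
  have hck := cont_circle ht htr hk.continuousOn
  have hcz : Continuous fun θ : ℝ => circleMap 0 t θ := continuous_circleMap 0 t
  have hid : ∀ θ : ℝ, ‖(circleMap 0 t θ)⁻¹ + k (circleMap 0 t θ)‖ ^ 2 =
      1 / t ^ 2 + 2 / t ^ 2 * (circleMap 0 t θ * k (circleMap 0 t θ)).re +
        ‖k (circleMap 0 t θ)‖ ^ 2 := by
    intro θ
    set z := circleMap 0 t θ
    have h0 : z ≠ 0 := hz0 θ
    have h1 : z⁻¹ + k z = (1 + z * k z) / z := by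
      field_simp
    rw [h1, norm_div, div_pow, hz θ]
    have h2 : ‖1 + z * k z‖ ^ 2 = 1 + 2 * (z * k z).re + t ^ 2 * ‖k z‖ ^ 2 := by
      have h3 : ‖z * k z‖ ^ 2 = t ^ 2 * ‖k z‖ ^ 2 := by rw [norm_mul, hz θ, mul_pow]
      rw [← h3, ← Complex.normSq_eq_norm_sq, ← Complex.normSq_eq_norm_sq,
        Complex.normSq_apply, Complex.normSq_apply]
      simp only [add_re, one_re, add_im, one_im, zero_add]
      ring
    rw [h2]
    field_simp
  have hc2 : Continuous fun θ : ℝ =>
      2 / t ^ 2 * (circleMap 0 t θ * k (circleMap 0 t θ)).re :=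
    continuous_const.mul (continuous_re.comp (hcz.mul hck))
  have hc3 : Continuous fun θ : ℝ => ‖k (circleMap 0 t θ)‖ ^ 2 := hck.norm.pow 2
  have hcf : Continuous fun θ : ℝ => ‖(circleMap 0 t θ)⁻¹ + k (circleMap 0 t θ)‖ ^ 2 := by
    simp_rw [hid]
    exact (continuous_const.add hc2).add hc3
  have hi1 : ∫ θ in (-Real.pi)..Real.pi, (circleMap 0 t θ * k (circleMap 0 t θ)) = 0 := by
    have h1 := circle_mean (g := fun z => z * k z) ht htr
      (differentiableOn_id.mul hk)
    simpa using h1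
  have hi2 : ∫ θ in (-Real.pi)..Real.pi, (circleMap 0 t θ * k (circleMap 0 t θ)).re = 0 := by
    have h1 : IntervalIntegrable (fun θ => circleMap 0 t θ * k (circleMap 0 t θ)) volume
        (-Real.pi) Real.pi := (hcz.mul hck).intervalIntegrable _ _
    have h2 := Complex.reCLM.intervalIntegral_comp_comm h1
    simp only [Complex.reCLM_apply] at h2
    rw [h2, hi1, zero_re]
  have hi3 : 2 * Real.pi * ‖k 0‖ ^ 2 ≤
      ∫ θ in (-Real.pi)..Real.pi, ‖k (circleMap 0 t θ)‖ ^ 2 := by
    have h1 := circle_mean (g := fun z => k z ^ 2) ht htr (hk.pow 2)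
    calc 2 * Real.pi * ‖k 0‖ ^ 2 = ‖(2 * Real.pi) • (k 0 ^ 2)‖ := by
          rw [norm_smul, Real.norm_of_nonneg (by positivity), norm_pow]
      _ = ‖∫ θ in (-Real.pi)..Real.pi, k (circleMap 0 t θ) ^ 2‖ := by rw [h1]
      _ ≤ ∫ θ in (-Real.pi)..Real.pi, ‖k (circleMap 0 t θ) ^ 2‖ :=
          intervalIntegral.norm_integral_le_integral_norm (by linarith)
      _ = _ := by simp_rw [norm_pow]
  have hint : ∫ θ in (-Real.pi)..Real.pi, ‖(circleMap 0 t θ)⁻¹ + k (circleMap 0 t θ)‖ ^ 2 =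
      2 * Real.pi * (1 / t ^ 2) + ∫ θ in (-Real.pi)..Real.pi, ‖k (circleMap 0 t θ)‖ ^ 2 := by
    simp_rw [hid]
    rw [intervalIntegral.integral_add, intervalIntegral.integral_add,
      intervalIntegral.integral_const_mul, hi2]
    · rw [intervalIntegral.integral_const, smul_eq_mul]; ring
    · exact continuous_const.intervalIntegrable _ _
    · exact hc2.intervalIntegrable _ _
    · exact (continuous_const.add hc2).intervalIntegrable _ _
    · exact hc3.intervalIntegrable _ _
  calc ENNReal.ofReal (2 * Real.pi * (1 / t ^ 2 + ‖k 0‖ ^ 2))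
      ≤ ENNReal.ofReal (∫ θ in (-Real.pi)..Real.pi,
        ‖(circleMap 0 t θ)⁻¹ + k (circleMap 0 t θ)‖ ^ 2) := by
        apply ENNReal.ofReal_le_ofReal
        rw [hint]; linarith
    _ = _ := by
        rw [intervalIntegral.integral_of_le (by linarith), integral_Ioc_eq_integral_Ioo,
          ofReal_integral_eq_lintegral_ofReal]
        · exact (hcf.integrableOn_Icc).mono_set Ioo_subset_Icc_self
        · exact ae_of_all _ (fun θ => by positivity)

/-- energy on an annulus -/
lemma annulus_energy {k : ℂ → ℂ} {ε r r' : ℝ} (hε : 0 < ε) (hεr : ε < r) (hr : r ≤ r')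
    (hkm : Measurable k) (hk : DifferentiableOn ℂ k (ball 0 r')) :
    ENNReal.ofReal (2 * Real.pi * (Real.log r - Real.log ε) +
      Real.pi * ‖k 0‖ ^ 2 * (r ^ 2 - ε ^ 2)) ≤
      ∫⁻ w in {w : ℂ | ε < ‖w‖ ∧ ‖w‖ < r}, ENNReal.ofReal (‖w⁻¹ + k w‖ ^ 2) := by
  have hpi := Real.pi_pos
  have hr0 : 0 < r := hε.trans hεr
  set A : Set ℂ := {w : ℂ | ε < ‖w‖ ∧ ‖w‖ < r} with hA
  have hAm : MeasurableSet A := by
    apply IsOpen.measurableSet
    exact (isOpen_lt continuous_const continuous_norm).inter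
      (isOpen_lt continuous_norm continuous_const)
  have hm1 : Measurable fun w : ℂ => ENNReal.ofReal (‖w⁻¹ + k w‖ ^ 2) := by
    fun_prop
  have hmeas : Measurable (A.indicator (fun w => ENNReal.ofReal (‖w⁻¹ + k w‖ ^ 2))) :=
    hm1.indicator hAm
  rw [← lintegral_indicator hAm, ← Complex.lintegral_comp_polarCoord_symm]
  have htarget : polarCoord.target = Ioi (0 : ℝ) ×ˢ Ioo (-Real.pi) Real.pi := rfl
  rw [htarget, Measure.volume_eq_prod, ← Measure.prod_restrict, lintegral_prod]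
  swap
  · apply Measurable.aemeasurable
    have hpm : Measurable (Complex.polarCoord.symm : ℝ × ℝ → ℂ) := by
      have : (Complex.polarCoord.symm : ℝ × ℝ → ℂ)
          = fun p => (p.1 : ℂ) * (Real.cos p.2 + Real.sin p.2 * Complex.I) := by
        funext p
        exact Complex.polarCoord_symm_apply p
      rw [this]
      fun_prop
    exact (measurable_fst.ennreal_ofReal).smul (hmeas.comp hpm)
  have hinner : ∀ t ∈ Ioo ε r,
      ENNReal.ofReal (2 * Real.pi * (t⁻¹ + t * ‖k 0‖ ^ 2)) ≤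
      ∫⁻ θ in Ioo (-Real.pi) Real.pi, ENNReal.ofReal (t, θ).1 •
        A.indicator (fun w => ENNReal.ofReal (‖w⁻¹ + k w‖ ^ 2))
          (Complex.polarCoord.symm (t, θ)) := by
    rintro t ⟨ht, htr⟩
    have ht0 : 0 < t := hε.trans ht
    simp only [smul_eq_mul]
    rw [lintegral_const_mul']
    swap
    · exact ENNReal.ofReal_ne_top
    have h1 : ENNReal.ofReal (2 * Real.pi * (t⁻¹ + t * ‖k 0‖ ^ 2)) =
        ENNReal.ofReal t * ENNReal.ofReal (2 * Real.pi * (1 / t ^ 2 + ‖k 0‖ ^ 2)) := by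
      rw [← ENNReal.ofReal_mul ht0.le]
      congr 1
      field_simp
    rw [h1]
    refine mul_le_mul_right ((circle_energy ht0 (htr.trans_le hr) hk).trans (le_of_eq ?_)) _
    apply lintegral_congr
    intro θ
    have h2 : Complex.polarCoord.symm (t, θ) ∈ A := by
      rw [hA, Set.mem_ofPred_eq, Complex.norm_polarCoord_symm]
      simpa [abs_of_pos ht0] using ⟨ht, htr⟩
    rw [indicator_of_mem h2]
    have h3 : circleMap 0 t θ = Complex.polarCoord.symm (t, θ) := by
      rw [Complex.polarCoord_symm_apply, circleMap, exp_mul_I]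
      simp
    rw [h3]
  have hsub : Ioo ε r ⊆ Ioi (0 : ℝ) := fun t ht => hε.trans ht.1
  have hcont : ContinuousOn (fun t : ℝ => 2 * Real.pi * (t⁻¹ + t * ‖k 0‖ ^ 2)) (Icc ε r) := by
    apply ContinuousOn.mul continuousOn_const
    apply ContinuousOn.add
    · exact continuousOn_inv₀.mono fun t ht => (hε.trans_le ht.1).ne'
    · fun_prop
  calc ENNReal.ofReal (2 * Real.pi * (Real.log r - Real.log ε) +
      Real.pi * ‖k 0‖ ^ 2 * (r ^ 2 - ε ^ 2))
      = ∫⁻ t in Ioo ε r, ENNReal.ofReal (2 * Real.pi * (t⁻¹ + t * ‖k 0‖ ^ 2)) := by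
        rw [← ofReal_integral_eq_lintegral_ofReal]
        · rw [← integral_Ioc_eq_integral_Ioo, ← intervalIntegral.integral_of_le hεr.le]
          rw [intervalIntegral.integral_const_mul, intervalIntegral.integral_add,
            intervalIntegral.integral_mul_const, integral_id, integral_inv_of_pos hε hr0,
            Real.log_div hr0.ne' hε.ne']
          · congr 1; ring
          · apply ContinuousOn.intervalIntegrable
            rw [uIcc_of_le hεr.le]
            exact continuousOn_inv₀.mono fun t ht => (hε.trans_le ht.1).ne'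
          · exact Continuous.intervalIntegrable (by fun_prop) _ _
        · exact (hcont.integrableOn_Icc).mono_set Ioo_subset_Icc_self
        · rw [EventuallyLE, ae_restrict_iff' measurableSet_Ioo]
          refine ae_of_all _ (fun t ht => ?_)
          have := hε.trans ht.1
          simp only [Pi.zero_apply]
          positivity
    _ ≤ ∫⁻ t in Ioo ε r, ∫⁻ θ in Ioo (-Real.pi) Real.pi, ENNReal.ofReal (t, θ).1 •
        A.indicator (fun w => ENNReal.ofReal (‖w⁻¹ + k w‖ ^ 2))
          (Complex.polarCoord.symm (t, θ)) := setLIntegral_mono' measurableSet_Ioo hinner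
    _ ≤ _ := lintegral_mono_set hsub

/-- the area of an annulus -/
lemma mu_ann {a b δ : ℝ} (hδ : 0 < δ) (hab : a ≤ b) :
    mu {w : ℂ | Real.exp a ≤ ‖w‖ ∧ ‖w‖ ≤ Real.exp b} ≤
      ENNReal.ofReal (2 * Real.pi * (b - a + δ)) := by
  have hρ : ‖((Real.exp (b - a + δ) : ℝ) : ℂ)‖ = Real.exp (b - a + δ) := by
    rw [Complex.norm_real, Real.norm_of_nonneg (Real.exp_pos _).le]
  have h1 : 1 < ‖((Real.exp (b - a + δ) : ℝ) : ℂ)‖ := by
    rw [hρ]; exact Real.one_lt_exp_iff.2 (by linarith)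
  have hm : MeasurableSet {w : ℂ | Real.exp a ≤ ‖w‖ ∧ ‖w‖ ≤ Real.exp b} := by
    apply IsClosed.measurableSet
    exact (isClosed_le continuous_const continuous_norm).inter
      (isClosed_le continuous_norm continuous_const)
  have h := torus_lemma h1 hm ?_
  · rw [hρ, Real.log_exp] at h
    exact h
  · rintro z ⟨hz1, hz2⟩ w ⟨hw1, hw2⟩ j hj
    by_contra hj0
    have hn : ‖z‖ = Real.exp ((b - a + δ) * j) * ‖w‖ := by
      have hpow : ‖(((Real.exp (b - a + δ) : ℝ) : ℂ)) ^ j‖ = Real.exp ((b - a + δ) * j) := by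
        rw [norm_zpow, hρ, Real.exp_mul, Real.rpow_intCast]
      rw [hj, norm_mul, hpow]
    rcases lt_or_gt_of_ne hj0 with h | h
    · have hj1 : (j : ℝ) ≤ -1 := by exact_mod_cast (by omega : j ≤ -1)
      have h2 : Real.exp ((b - a + δ) * j) ≤ Real.exp (-(b - a + δ)) :=
        Real.exp_le_exp.2 (by nlinarith)
      have h3 : ‖z‖ ≤ Real.exp (-(b - a + δ)) * Real.exp b := by
        rw [hn]
        exact mul_le_mul h2 hw2 (norm_nonneg _) (Real.exp_pos _).le
      rw [← Real.exp_add] at h3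
      have h4 : Real.exp (-(b - a + δ) + b) < Real.exp a := Real.exp_lt_exp.2 (by linarith)
      linarith
    · have hj1 : (1 : ℝ) ≤ j := by exact_mod_cast (by omega : 1 ≤ j)
      have h2 : Real.exp (b - a + δ) ≤ Real.exp ((b - a + δ) * j) :=
        Real.exp_le_exp.2 (by nlinarith)
      have h3 : Real.exp (b - a + δ) * Real.exp a ≤ ‖z‖ := by
        rw [hn]
        exact mul_le_mul h2 hw1 (Real.exp_pos _).le (Real.exp_pos _).le
      rw [← Real.exp_add] at h3
      have h4 : Real.exp b < Real.exp (b - a + δ + a) := Real.exp_lt_exp.2 (by linarith)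
      linarith

/-- the coefficient inequality -/
lemma coef_ineq {F : ℂ → ℂ} {R r Λ : ℝ} (hr : 0 < r) (hrR : r < R)
    (hF : DifferentiableOn ℂ F (ball 0 R)) (hinj : InjOn (fun z => z * exp (F z)) (ball 0 R))
    (hΛ0 : 0 ≤ Λ) (hΛ : ∀ z ∈ ball (0 : ℂ) r, (F z).re ≤ (F 0).re + Λ) :
    r ^ 2 * ‖deriv F 0‖ ^ 2 ≤ 2 * Λ := by
  have hpi := Real.pi_pos
  set V : ℂ → ℂ := fun z => z * exp (F z) with hV
  have hVd : DifferentiableOn ℂ V (ball 0 R) := differentiableOn_id.mul hF.cexp
  have h0R : (0 : ℂ) ∈ ball (0 : ℂ) R := mem_ball_self (hr.trans hrR)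
  have key : ∀ δ > 0, ∀ᶠ ε in 𝓝[>] (0 : ℝ),
      (r ^ 2 - ε ^ 2) * ‖deriv F 0‖ ^ 2 ≤ 2 * (Λ + 2 * δ) := by
    intro δ hδ
    have hcont : ContinuousAt (fun z => (F z).re) 0 :=
      continuous_re.continuousAt.comp (hF.continuousOn.continuousAt (isOpen_ball.mem_nhds h0R))
    have e1 : ∀ᶠ z in 𝓝 (0 : ℂ), (F 0).re - δ < (F z).re :=
      hcont.eventually (lt_mem_nhds (by linarith))
    obtain ⟨η, hη, hη2⟩ := Metric.eventually_nhds_iff_ball.1 e1
    obtain ⟨B, hB⟩ : ∃ B, ∀ z ∈ closedBall (0 : ℂ) r, B ≤ (F z).re := by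
      have hc : ContinuousOn (fun z => (F z).re) (closedBall (0 : ℂ) r) :=
        continuous_re.comp_continuousOn (hF.continuousOn.mono (closedBall_subset_ball hrR))
      obtain ⟨B, hB⟩ := (isCompact_closedBall (0 : ℂ) r).bddBelow_image hc
      exact ⟨B, fun z hz => hB ⟨z, hz, rfl⟩⟩
    have e2 : ∀ᶠ ε in 𝓝[>] (0 : ℝ), ε < r :=
      mem_nhdsWithin_of_mem_nhds (Iio_mem_nhds hr)
    have e3 : ∀ᶠ ε in 𝓝[>] (0 : ℝ), ε * Real.exp ((F 0).re - δ) < η * Real.exp B := by
      have h1 : Tendsto (fun ε : ℝ => ε * Real.exp ((F 0).re - δ)) (𝓝 0)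
          (𝓝 (0 * Real.exp ((F 0).re - δ))) := tendsto_id.mul_const _
      rw [zero_mul] at h1
      exact (h1.mono_left nhdsWithin_le_nhds).eventually (gt_mem_nhds (by positivity))
    filter_upwards [self_mem_nhdsWithin, e2, e3] with ε hε hεr hε3
    have hε0 : 0 < ε := hε
    set A : Set ℂ := {w : ℂ | ε < ‖w‖ ∧ ‖w‖ < r} with hA
    have hAm : MeasurableSet A := by
      apply IsOpen.measurableSet
      exact (isOpen_lt continuous_const continuous_norm).inter
        (isOpen_lt continuous_norm continuous_const)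
    have hAB : A ⊆ ball 0 R := fun w hw => by
      rw [mem_ball_zero_iff]; exact hw.2.trans hrR
    have h1 := annulus_energy (k := deriv F) hε0 hεr hrR.le (measurable_deriv F)
      (hF.deriv isOpen_ball)
    have h2 : ∫⁻ w in A, ENNReal.ofReal (‖w⁻¹ + deriv F w‖ ^ 2) = mu (V '' A) := by
      rw [mu_image isOpen_ball hVd hAB hAm (hinj.mono hAB)]
      apply setLIntegral_congr_fun hAm
      intro w hw
      have hw0 : w ≠ 0 := by
        rintro rfl
        have := hw.1
        rw [norm_zero] at this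
        linarith
      have hFw : HasDerivAt F (deriv F w) w :=
        (hF.differentiableAt (isOpen_ball.mem_nhds (hAB hw))).hasDerivAt
      have hd : HasDerivAt V (1 * exp (F w) + w * (exp (F w) * deriv F w)) w :=
        (hasDerivAt_id w).mul hFw.cexp
      simp only
      rw [hd.deriv, ← div_pow, ← norm_div]
      congr 3
      have he : exp (F w) ≠ 0 := exp_ne_zero _
      rw [hV]
      field_simp
    have h3 : V '' A ⊆ {w | Real.exp (Real.log ε + (F 0).re - δ) ≤ ‖w‖ ∧
        ‖w‖ ≤ Real.exp (Real.log r + (F 0).re + Λ)} := by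
      rintro _ ⟨w, hw, rfl⟩
      have hn : ‖V w‖ = ‖w‖ * Real.exp (F w).re := by
        rw [hV]; simp only; rw [norm_mul, Complex.norm_exp]
      rw [Set.mem_ofPred_eq, hn]
      have hwr : w ∈ ball (0 : ℂ) r := by rw [mem_ball_zero_iff]; exact hw.2
      constructor
      · have h4 : Real.exp (Real.log ε + (F 0).re - δ) = ε * Real.exp ((F 0).re - δ) := by
          rw [add_sub_assoc, Real.exp_add, Real.exp_log hε0]
        rw [h4]
        by_cases hwη : ‖w‖ < η
        · have h5 := hη2 w (by rwa [mem_ball_zero_iff])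
          exact mul_le_mul hw.1.le (Real.exp_le_exp.2 h5.le) (Real.exp_pos _).le (norm_nonneg _)
        · push Not at hwη
          have h5 := hB w (ball_subset_closedBall hwr)
          exact hε3.le.trans (mul_le_mul hwη (Real.exp_le_exp.2 h5) (Real.exp_pos _).le
            (norm_nonneg _))
      · rw [add_assoc, Real.exp_add, Real.exp_log hr]
        exact mul_le_mul hw.2.le (Real.exp_le_exp.2 (hΛ w hwr)) (Real.exp_pos _).le hr.le
    have hlog : Real.log ε < Real.log r := Real.log_lt_log hε0 hεr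
    have h4 := mu_ann (a := Real.log ε + (F 0).re - δ) (b := Real.log r + (F 0).re + Λ) hδ
      (by linarith)
    have h5 := h1.trans (h2.le.trans ((measure_mono h3).trans h4))
    rw [ENNReal.ofReal_le_ofReal_iff (by
      have : 0 ≤ Real.log r + (F 0).re + Λ - (Real.log ε + (F 0).re - δ) + δ := by linarith
      positivity)] at h5
    have h6 : Real.pi * ((r ^ 2 - ε ^ 2) * ‖deriv F 0‖ ^ 2) ≤ Real.pi * (2 * (Λ + 2 * δ)) := by
      nlinarith
    exact le_of_mul_le_mul_left h6 hpi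
  have key2 : ∀ δ > 0, r ^ 2 * ‖deriv F 0‖ ^ 2 ≤ 2 * (Λ + 2 * δ) := by
    intro δ hδ
    have hlim : Tendsto (fun ε : ℝ => (r ^ 2 - ε ^ 2) * ‖deriv F 0‖ ^ 2) (𝓝[>] 0)
        (𝓝 ((r ^ 2 - 0 ^ 2) * ‖deriv F 0‖ ^ 2)) := by
      have h1 : Continuous fun ε : ℝ => (r ^ 2 - ε ^ 2) * ‖deriv F 0‖ ^ 2 := by fun_prop
      exact (h1.tendsto 0).mono_left nhdsWithin_le_nhds
    have := le_of_tendsto hlim (key δ hδ)
    simpa using this
  apply le_of_forall_pos_le_add
  intro δ hδ
  have := key2 (δ / 4) (by positivity)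
  linarith

/-- the coefficient inequality for a univalent function -/
lemma coef_univ {f F : ℂ → ℂ} {z₁ : ℂ} {d P : ℝ} (hd : 0 < d) (hf : DifferentiableOn ℂ f (ball z₁ d))
    (hi : InjOn f (ball z₁ d)) (hF : DifferentiableOn ℂ F (ball z₁ d))
    (hFf : ∀ z ∈ ball z₁ d, exp (F z) = deriv f z) (hP : 0 ≤ P)
    (hb : ∀ z ∈ ball z₁ (d / 2), ‖deriv F z‖ ≤ 2 * P / d) :
    d ^ 2 * ‖deriv F z₁‖ ^ 2 ≤ 32 * P := by
  have hz1 : z₁ ∈ ball z₁ d := mem_ball_self hd
  have hmem : ∀ z ∈ ball (0 : ℂ) d, z₁ + z ∈ ball z₁ d := fun z hz => by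
    rw [mem_ball, dist_eq_norm, add_sub_cancel_left]; exact mem_ball_zero_iff.1 hz
  have hmem2 : ∀ z ∈ ball (0 : ℂ) (d / 2), z₁ + z ∈ ball z₁ (d / 2) := fun z hz => by
    rw [mem_ball, dist_eq_norm, add_sub_cancel_left]; exact mem_ball_zero_iff.1 hz
  set g : ℂ → ℂ := fun z => f (z₁ + z) - f z₁ with hg
  have hgd : DifferentiableOn ℂ g (ball 0 d) :=
    (hf.comp (by fun_prop) fun z hz => hmem z hz).sub_const _
  have h0d : (0 : ℂ) ∈ ball (0 : ℂ) d := mem_ball_self hd
  have hg0 : g 0 = 0 := by simp [hg]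
  have hgderiv : ∀ z ∈ ball (0 : ℂ) d, HasDerivAt g (exp (F (z₁ + z))) z := by
    intro z hz
    have h1 : HasDerivAt f (deriv f (z₁ + z)) (z₁ + z) :=
      (hf.differentiableAt (isOpen_ball.mem_nhds (hmem z hz))).hasDerivAt
    rw [hFf _ (hmem z hz)]
    exact (h1.comp_const_add z₁ z).sub_const _
  set q : ℂ → ℂ := dslope g 0 with hq
  have hqd : DifferentiableOn ℂ q (ball 0 d) :=
    (Complex.differentiableOn_dslope (isOpen_ball.mem_nhds h0d)).2 hgd
  have hgq : ∀ z, g z = z * q z := fun z => by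
    have h1 := sub_smul_dslope g 0 z
    rw [hg0, sub_zero, sub_zero, smul_eq_mul] at h1
    exact h1.symm
  have hq0 : q 0 = exp (F z₁) := by
    rw [hq, dslope_same]
    have := (hgderiv 0 h0d).deriv
    rwa [add_zero] at this
  have hqne : ∀ z ∈ ball (0 : ℂ) d, q z ≠ 0 := by
    intro z hz h
    by_cases h0 : z = 0
    · rw [h0, hq0] at h
      exact exp_ne_zero _ h
    · have h1 := hgq z
      rw [h, mul_zero] at h1
      have h2 : f (z₁ + z) = f z₁ := sub_eq_zero.1 h1
      have h3 := hi (hmem z hz) hz1 h2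
      exact h0 (by simpa using h3)
  obtain ⟨H, hH, hHq⟩ := Tr.exists_hol_log isOpen_ball (convex_ball 0 d) ⟨0, h0d⟩ hqd hqne
  have hgH : ∀ z ∈ ball (0 : ℂ) d, z * exp (H z) = g z := fun z hz => by
    rw [hHq z hz, ← hgq z]
  have hinj : InjOn (fun z => z * exp (H z)) (ball 0 d) := by
    intro z hz w hw h
    simp only at h
    rw [hgH z hz, hgH w hw] at h
    have h2 : f (z₁ + z) = f (z₁ + w) := by
      simpa [hg] using h
    have h3 := hi (hmem z hz) (hmem w hw) h2
    simpa using h3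
  -- growth
  have hFlip : ∀ z ∈ ball z₁ (d / 2), (F z).re ≤ (F z₁).re + P := by
    intro z hz
    have h1 : ‖F z - F z₁‖ ≤ 2 * P / d * ‖z - z₁‖ := by
      apply Convex.norm_image_sub_le_of_norm_deriv_le (𝕜 := ℂ) (s := ball z₁ (d / 2))
      · intro x hx
        exact hF.differentiableAt (isOpen_ball.mem_nhds (ball_subset_ball (by linarith) hx))
      · exact hb
      · exact convex_ball _ _
      · exact mem_ball_self (by positivity)
      · exact hz
    have h2 : ‖z - z₁‖ ≤ d / 2 := by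
      rw [mem_ball, dist_eq_norm] at hz; exact hz.le
    have h3 : 2 * P / d * ‖z - z₁‖ ≤ P := by
      calc 2 * P / d * ‖z - z₁‖ ≤ 2 * P / d * (d / 2) := by gcongr
        _ = P := by field_simp
    have h4 := (Complex.re_le_norm (F z - F z₁)).trans (h1.trans h3)
    rw [sub_re] at h4
    linarith
  have hH0 : (H 0).re = (F z₁).re := by
    have h1 : exp (H 0) = exp (F z₁) := by rw [hHq 0 h0d, hq0]
    have h2 := congrArg norm h1
    rw [Complex.norm_exp, Complex.norm_exp] at h2
    exact Real.exp_injective h2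
  have hHlip : ∀ z ∈ ball (0 : ℂ) (d / 2), (H z).re ≤ (H 0).re + P := by
    intro z hz
    by_cases h0 : z = 0
    · rw [h0]; linarith
    have hzd : z ∈ ball (0 : ℂ) d := ball_subset_ball (by linarith) hz
    have h1 : ‖g z - g 0‖ ≤ Real.exp ((F z₁).re + P) * ‖z - 0‖ := by
      apply Convex.norm_image_sub_le_of_norm_deriv_le (𝕜 := ℂ) (s := ball (0 : ℂ) (d / 2))
      · intro x hx
        exact (hgderiv x (ball_subset_ball (by linarith) hx)).differentiableAt
      · intro x hx
        rw [(hgderiv x (ball_subset_ball (by linarith) hx)).deriv, Complex.norm_exp]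
        exact Real.exp_le_exp.2 (hFlip _ (hmem2 x hx))
      · exact convex_ball _ _
      · exact mem_ball_self (by positivity)
      · exact hz
    rw [hg0, sub_zero, sub_zero, ← hgH z hzd, norm_mul, mul_comm, Complex.norm_exp] at h1
    have h2 : Real.exp (H z).re ≤ Real.exp ((F z₁).re + P) :=
      le_of_mul_le_mul_right h1 (norm_pos_iff.2 h0)
    rw [hH0]
    exact Real.exp_le_exp.1 h2
  have hmain := coef_ineq (r := d / 2) (by positivity) (by linarith) hH hinj hP hHlip
  -- the derivative at the centre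
  have hder : deriv F z₁ = 2 * deriv H 0 := by
    have hH1 : ∀ z ∈ ball (0 : ℂ) d, HasDerivAt H (deriv H z) z := fun z hz =>
      (hH.differentiableAt (isOpen_ball.mem_nhds hz)).hasDerivAt
    have hH2 : HasDerivAt (deriv H) (deriv (deriv H) 0) 0 :=
      ((hH.deriv isOpen_ball).differentiableAt (isOpen_ball.mem_nhds h0d)).hasDerivAt
    have h1 : ∀ z ∈ ball (0 : ℂ) d, exp (F (z₁ + z)) = exp (H z) * (1 + z * deriv H z) := by
      intro z hz
      have h2 : HasDerivAt (fun z => z * exp (H z)) (1 * exp (H z) + z * (exp (H z) * deriv H z))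
          z := (hasDerivAt_id z).mul (hH1 z hz).cexp
      have h3 : HasDerivAt g (1 * exp (H z) + z * (exp (H z) * deriv H z)) z := by
        apply h2.congr_of_eventuallyEq
        filter_upwards [isOpen_ball.mem_nhds hz] with x hx
        exact (hgH x hx).symm
      have h4 := (hgderiv z hz).unique h3
      rw [h4]; ring
    have hF1 : HasDerivAt F (deriv F z₁) z₁ :=
      (hF.differentiableAt (isOpen_ball.mem_nhds hz1)).hasDerivAt
    have h2 : HasDerivAt (fun z => exp (F (z₁ + z))) (exp (F z₁) * deriv F z₁) 0 := by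
      have h3 : HasDerivAt F (deriv F z₁) (z₁ + 0) := by rwa [add_zero]
      have h4 := (h3.comp_const_add z₁ 0).cexp
      rwa [add_zero] at h4
    have h3 : HasDerivAt (fun z => exp (H z) * (1 + z * deriv H z))
        (exp (H 0) * deriv H 0 * (1 + 0 * deriv H 0) +
          exp (H 0) * (1 * deriv H 0 + 0 * deriv (deriv H) 0)) 0 := by
      have h4 : HasDerivAt (fun z => 1 + z * deriv H z)
          (1 * deriv H 0 + 0 * deriv (deriv H) 0) 0 :=
        ((hasDerivAt_id (0 : ℂ)).mul hH2).const_add 1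
      exact (hH1 0 h0d).cexp.mul h4
    have h4 : HasDerivAt (fun z => exp (F (z₁ + z)))
        (exp (H 0) * deriv H 0 * (1 + 0 * deriv H 0) +
          exp (H 0) * (1 * deriv H 0 + 0 * deriv (deriv H) 0)) 0 := by
      apply h3.congr_of_eventuallyEq
      filter_upwards [isOpen_ball.mem_nhds h0d] with x hx
      exact h1 x hx
    have h5 := h2.unique h4
    have h6 : exp (H 0) = exp (F z₁) := by rw [hHq 0 h0d, hq0]
    rw [h6] at h5
    have h7 : exp (F z₁) ≠ 0 := exp_ne_zero _
    apply mul_left_cancel₀ h7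
    rw [h5]; ring
  rw [hder, norm_mul, Complex.norm_ofNat, mul_pow]
  nlinarith

/-- **explicit distortion theorem**: the logarithmic derivative of the derivative of a univalent
function -/
theorem koebe_log {f F : ℂ → ℂ} {z0 : ℂ} {R : ℝ} (hf : DifferentiableOn ℂ f (ball z0 R))
    (hi : InjOn f (ball z0 R)) (hF : DifferentiableOn ℂ F (ball z0 R))
    (hFf : ∀ z ∈ ball z0 R, exp (F z) = deriv f z) {z : ℂ} (hz : z ∈ ball z0 R) :
    ‖deriv F z‖ * (R - ‖z - z0‖) ≤ 32 := by
  -- on a slightly smaller disc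
  have key : ∀ ρ : ℝ, 0 < ρ → ρ < R → ∀ z ∈ closedBall z0 ρ,
      ‖deriv F z‖ * (ρ - ‖z - z0‖) ≤ 32 := by
    intro ρ hρ0 hρR
    have hcd : ContinuousOn (deriv F) (closedBall z0 ρ) :=
      (hF.deriv isOpen_ball).continuousOn.mono (closedBall_subset_ball hρR)
    have hc : ContinuousOn (fun z => ‖deriv F z‖ * (ρ - ‖z - z0‖)) (closedBall z0 ρ) :=
      hcd.norm.mul (by fun_prop)
    obtain ⟨z₁, hz₁, hmax⟩ := (isCompact_closedBall z0 ρ).exists_isMaxOn
      ⟨z0, mem_closedBall_self hρ0.le⟩ hc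
    have hmax' : ∀ z ∈ closedBall z0 ρ, ‖deriv F z‖ * (ρ - ‖z - z0‖) ≤
        ‖deriv F z₁‖ * (ρ - ‖z₁ - z0‖) := fun z hz => hmax hz
    set P : ℝ := ‖deriv F z₁‖ * (ρ - ‖z₁ - z0‖) with hP
    suffices hP32 : P ≤ 32 from fun z hz => (hmax' z hz).trans hP32
    by_contra hcon
    push Not at hcon
    set d : ℝ := ρ - ‖z₁ - z0‖ with hd
    have hd0 : 0 ≤ d := by
      rw [mem_closedBall, dist_eq_norm] at hz₁
      linarith
    have hdpos : 0 < d := by
      rcases hd0.lt_or_eq with h | h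
      · exact h
      · exfalso
        rw [hP, ← h, mul_zero] at hcon
        linarith
    have hsub : ball z₁ d ⊆ ball z0 ρ := by
      apply ball_subset_ball'
      rw [dist_eq_norm]
      linarith
    have hsub2 : ball z₁ d ⊆ ball z0 R := hsub.trans (ball_subset_ball hρR.le)
    have h1 := coef_univ hdpos (hf.mono hsub2) (hi.mono hsub2) (hF.mono hsub2)
      (fun z hz => hFf z (hsub2 hz)) (P := P) (by linarith) ?_
    · have h2 : d ^ 2 * ‖deriv F z₁‖ ^ 2 = P ^ 2 := by rw [hP]; ring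
      rw [h2] at h1
      nlinarith
    · intro z hz
      have hz2 : z ∈ ball z₁ d := ball_subset_ball (by linarith) hz
      have h2 := hmax' z (ball_subset_closedBall (hsub hz2))
      have h3 : d / 2 ≤ ρ - ‖z - z0‖ := by
        rw [mem_ball, dist_eq_norm] at hz
        have h4 : ‖z - z0‖ ≤ ‖z - z₁‖ + ‖z₁ - z0‖ := by
          have : z - z0 = (z - z₁) + (z₁ - z0) := by ring
          rw [this]; exact norm_add_le _ _
        linarith
      have h4 : ‖deriv F z‖ * (d / 2) ≤ P :=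
        (mul_le_mul_of_nonneg_left h3 (norm_nonneg _)).trans h2
      rw [le_div_iff₀ hdpos]
      linarith
  -- the limit
  have hz' : ‖z - z0‖ < R := by rwa [mem_ball, dist_eq_norm] at hz
  have hR : 0 < R := (norm_nonneg _).trans_lt hz'
  have hev : ∀ᶠ ρ in 𝓝[<] R, ‖deriv F z‖ * (ρ - ‖z - z0‖) ≤ 32 := by
    have e1 : ∀ᶠ ρ in 𝓝[<] R, max 0 ‖z - z0‖ < ρ :=
      mem_nhdsWithin_of_mem_nhds (Ioi_mem_nhds (max_lt hR hz'))
    filter_upwards [e1, self_mem_nhdsWithin] with ρ h1 h2
    refine key ρ ((le_max_left _ _).trans_lt h1) h2 z ?_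
    rw [mem_closedBall, dist_eq_norm]
    exact ((le_max_right _ _).trans_lt h1).le
  have hlim : Tendsto (fun ρ : ℝ => ‖deriv F z‖ * (ρ - ‖z - z0‖)) (𝓝[<] R)
      (𝓝 (‖deriv F z‖ * (R - ‖z - z0‖))) := by
    have h1 : Continuous fun ρ : ℝ => ‖deriv F z‖ * (ρ - ‖z - z0‖) := by fun_prop
    exact (h1.tendsto R).mono_left nhdsWithin_le_nhds
  exact le_of_tendsto hlim hev

/-- distortion on the disc of a quarter of the radius -/
theorem deriv_ratio {f : ℂ → ℂ} {z0 : ℂ} {R : ℝ} (hR : 0 < R)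
    (hf : DifferentiableOn ℂ f (ball z0 R)) (hi : InjOn f (ball z0 R))
    (hf' : ∀ z ∈ ball z0 R, deriv f z ≠ 0) {z w : ℂ} (hz : z ∈ closedBall z0 (R / 8))
    (hw : w ∈ closedBall z0 (R / 8)) (hzw : ‖z - w‖ ≤ 3 * R / 16) :
    ‖deriv f z‖ ≤ 1100 * ‖deriv f w‖ := by
  obtain ⟨F, hF, hFf⟩ := Tr.exists_hol_log isOpen_ball (convex_ball z0 R) ⟨z0, mem_ball_self hR⟩
    (hf.deriv isOpen_ball) hf'
  have hsub : closedBall z0 (R / 8) ⊆ ball z0 R := closedBall_subset_ball (by linarith)
  have h1 : ‖F z - F w‖ ≤ 256 / (7 * R) * ‖z - w‖ := by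
    apply Convex.norm_image_sub_le_of_norm_deriv_le (𝕜 := ℂ) (s := closedBall z0 (R / 8))
    · intro x hx
      exact hF.differentiableAt (isOpen_ball.mem_nhds (hsub hx))
    · intro x hx
      have h2 := koebe_log hf hi hF hFf (hsub hx)
      rw [mem_closedBall, dist_eq_norm] at hx
      have h3 : ‖deriv F x‖ * (7 * R / 8) ≤ 32 :=
        (mul_le_mul_of_nonneg_left (by linarith) (norm_nonneg _)).trans h2
      rw [le_div_iff₀ (by positivity)]
      linarith
    · exact convex_closedBall _ _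
    · exact hw
    · exact hz
  have h2 : ‖F z - F w‖ ≤ 7 := by
    calc ‖F z - F w‖ ≤ 256 / (7 * R) * ‖z - w‖ := h1
      _ ≤ 256 / (7 * R) * (3 * R / 16) := by gcongr
      _ = 48 / 7 := by field_simp; norm_num
      _ ≤ 7 := by norm_num
  have h3 := (Complex.re_le_norm (F z - F w)).trans h2
  rw [sub_re] at h3
  rw [← hFf z (hsub hz), ← hFf w (hsub hw), Complex.norm_exp, Complex.norm_exp]
  have h4 : Real.exp 7 ≤ 1100 := by
    have h5 := Real.exp_one_lt_d9
    have h6 : Real.exp 7 = Real.exp 1 ^ 7 := by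
      rw [← Real.exp_nat_mul]; norm_num
    rw [h6]
    calc Real.exp 1 ^ 7 ≤ 2.7182818286 ^ 7 := by gcongr
      _ ≤ 1100 := by norm_num
  calc Real.exp (F z).re ≤ Real.exp (7 + (F w).re) := Real.exp_le_exp.2 (by linarith)
    _ = Real.exp 7 * Real.exp (F w).re := Real.exp_add _ _
    _ ≤ 1100 * Real.exp (F w).re := by gcongr

/-- the left half of a disc -/
def LH (z0 : ℂ) (s : ℝ) : Set ℂ := {z | z ∈ ball z0 s ∧ z.re < z0.re}

lemma isOpen_LH (z0 : ℂ) (s : ℝ) : IsOpen (LH z0 s) :=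
  isOpen_ball.inter (isOpen_lt continuous_re continuous_const)

lemma LH_sub (z0 : ℂ) (s : ℝ) : LH z0 s ⊆ ball z0 s := fun _ h => h.1

/-- **the diameter of the image of a disc and the area of the image of its left half** -/
theorem gate_gen {f : ℂ → ℂ} {z0 : ℂ} {R : ℝ} (hR : 0 < R)
    (hf : DifferentiableOn ℂ f (ball z0 R)) (hi : InjOn f (ball z0 R))
    (hf' : ∀ z ∈ ball z0 R, deriv f z ≠ 0) :
    MeasurableSet (f '' LH z0 (R / 8)) ∧ Bornology.IsBounded (f '' closedBall z0 (R / 8)) ∧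
    diam (f '' closedBall z0 (R / 8)) ≤ 3000 * √((volume (f '' LH z0 (R / 8))).toReal) := by
  have hpi := Real.pi_pos
  have hsub : closedBall z0 (R / 8) ⊆ ball z0 R := closedBall_subset_ball (by linarith)
  have hsub2 : LH z0 (R / 8) ⊆ ball z0 R :=
    (LH_sub _ _).trans (ball_subset_ball (by linarith))
  have hm : MeasurableSet (f '' LH z0 (R / 8)) :=
    measurableSet_image hf hsub2 (isOpen_LH _ _).measurableSet (hi.mono hsub2)
  have hbd : Bornology.IsBounded (f '' closedBall z0 (R / 8)) :=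
    ((isCompact_closedBall z0 (R / 8)).image_of_continuousOn
      (hf.continuousOn.mono hsub)).isBounded
  refine ⟨hm, hbd, ?_⟩
  have hfin : volume (f '' LH z0 (R / 8)) ≠ ⊤ := by
    apply ((hbd.subset _).measure_lt_top).ne
    exact image_mono ((LH_sub _ _).trans ball_subset_closedBall)
  set v : ℝ := (volume (f '' LH z0 (R / 8))).toReal with hv
  have hv0 : 0 ≤ v := ENNReal.toReal_nonneg
  -- the base point
  set w : ℂ := z0 - ((R / 16 : ℝ) : ℂ) with hw
  have hw1 : ‖w - z0‖ = R / 16 := by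
    rw [hw, sub_sub_cancel_left, norm_neg, Complex.norm_real, Real.norm_of_nonneg (by positivity)]
  have hball : ball w (R / 16) ⊆ LH z0 (R / 8) := by
    intro x hx
    rw [mem_ball, dist_eq_norm] at hx
    constructor
    · rw [mem_ball, dist_eq_norm]
      have : x - z0 = (x - w) + (w - z0) := by ring
      rw [this]
      calc ‖(x - w) + (w - z0)‖ ≤ ‖x - w‖ + ‖w - z0‖ := norm_add_le _ _
        _ < R / 16 + R / 16 := by rw [hw1]; linarith
        _ = R / 8 := by ring
    · have h1 := (Complex.re_le_norm (x - w)).trans_lt hx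
      rw [sub_re, hw, sub_re, ofReal_re] at h1
      linarith
  have hwc : w ∈ closedBall z0 (R / 8) := by
    rw [mem_closedBall, dist_eq_norm, hw1]; linarith
  have harea : Real.pi * (R / 16) ^ 2 * ‖deriv f w‖ ^ 2 ≤ v := by
    have h1 := area_submean (g := fun z => deriv f z ^ 2) ((measurable_deriv f).pow_const 2)
      (z := w) (r := R / 16) (by positivity)
      (((hf.deriv isOpen_ball).pow 2).mono (hball.trans hsub2))
    have h2 : ∫⁻ z in ball w (R / 16), ENNReal.ofReal ‖deriv f z ^ 2‖ =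
        volume (f '' ball w (R / 16)) := by
      rw [← Tr.lintegral_normSq_deriv isOpen_ball hf (hball.trans hsub2) measurableSet_ball
        (hi.mono (hball.trans hsub2))]
      simp_rw [norm_pow]
    have h3 := h1.trans (h2.le.trans (measure_mono (image_mono hball)))
    rw [norm_pow] at h3
    rw [hv, ← ENNReal.ofReal_le_iff_le_toReal hfin]
    exact h3
  have hbound : R * ‖deriv f w‖ ≤ 10 * √v := by
    have h1 : (R * ‖deriv f w‖) ^ 2 ≤ (10 * √v) ^ 2 := by
      rw [mul_pow 10, Real.sq_sqrt hv0]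
      have h2 : 3 * ((R / 16) ^ 2 * ‖deriv f w‖ ^ 2) ≤ v := by
        have h3 : 0 ≤ (R / 16) ^ 2 * ‖deriv f w‖ ^ 2 := by positivity
        nlinarith [Real.pi_gt_three]
      nlinarith
    exact (pow_le_pow_iff_left₀ (by positivity) (by positivity) two_ne_zero).1 h1
  have hderiv : ∀ z ∈ closedBall z0 (R / 8), ‖deriv f z‖ ≤ 1100 * ‖deriv f w‖ := by
    intro z hz
    refine deriv_ratio hR hf hi hf' hz hwc ?_
    rw [mem_closedBall, dist_eq_norm] at hz
    have : z - w = (z - z0) - (w - z0) := by ring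
    rw [this]
    calc ‖(z - z0) - (w - z0)‖ ≤ ‖z - z0‖ + ‖w - z0‖ := norm_sub_le _ _
      _ ≤ R / 8 + R / 16 := by rw [hw1]; linarith
      _ = 3 * R / 16 := by ring
  apply diam_le_of_forall_dist_le (by positivity)
  rintro _ ⟨x, hx, rfl⟩ _ ⟨y, hy, rfl⟩
  rw [dist_eq_norm]
  have h1 : ‖f x - f y‖ ≤ 1100 * ‖deriv f w‖ * ‖x - y‖ := by
    apply Convex.norm_image_sub_le_of_norm_deriv_le (𝕜 := ℂ) (s := closedBall z0 (R / 8))
    · intro z hz
      exact hf.differentiableAt (isOpen_ball.mem_nhds (hsub hz))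
    · exact hderiv
    · exact convex_closedBall _ _
    · exact hy
    · exact hx
  have h2 : ‖x - y‖ ≤ R / 4 := by
    rw [← dist_eq_norm]
    have := dist_triangle_right x y z0
    rw [mem_closedBall] at hx hy
    linarith
  calc ‖f x - f y‖ ≤ 1100 * ‖deriv f w‖ * ‖x - y‖ := h1
    _ ≤ 1100 * ‖deriv f w‖ * (R / 4) := by gcongr
    _ = 275 * (R * ‖deriv f w‖) := by ring
    _ ≤ 275 * (10 * √v) := by gcongr
    _ ≤ 3000 * √v := by nlinarith [Real.sqrt_nonneg v]

end Pool.Agent.Work.MLC.Kb
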