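import Pool.Agent.Work.MLC.Cnt0
import Pool.Agent.Work.MLC.KoebeB70

set_option autoImplicit false

/-! # Theorem N, module N3a: the size of the gate (helper70) -/

namespace Pool.Agent.Work.MLC.Cnt

open Filter Topology Metric Set Complex MeasureTheory
open Pool.Agent.Work.MLC.Sat

/-- the Mandelbrot set is contained in the disc of radius `4` -/
lemma norm_MM_le_four {c : ℂ} (hc : c ∈ MM) : ‖c‖ ≤ 4 := by
  have h1 := norm_it_le_of_G_zero (mem_M_iff.1 hc) 2
  have h2 : it c 2 0 = c ^ 2 + c := by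
    rw [it_succ, it_one, f_apply, f_apply]; ring
  rw [h2] at h1
  have h3 : ‖c‖ ^ 2 ≤ ‖c ^ 2 + c‖ + ‖c‖ := by
    rw [← norm_pow]
    calc ‖c ^ 2‖ = ‖(c ^ 2 + c) - c‖ := by ring_nf
      _ ≤ _ := norm_sub_le _ _
  nlinarith [norm_nonneg c]

lemma Half_eq (D : Dat) : Half D = D.c '' Kb.LH D.a (gR D.m D.x / 8) := by
  have h : D.a.re = 0 := by
    show (axisPt D.x).re = 0
    exact LimbData.axisPt_re D.x
  unfold Half Kb.LH sG
  rw [h]

/-- the inner half of the gate is in `MM` -/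
lemma Half_sub_MM {D : Dat} (hP : D.Par) : Half D ⊆ MM := by
  rintro _ ⟨L, ⟨h1, h2⟩, rfl⟩
  by_contra h3
  have hR : 0 < gR D.m D.x := (sR_pos hP).trans_le (sR_le_gR hP)
  have h4 : L ∈ D.B := by
    refine ball_subset_ball ?_ h1
    unfold sG; linarith
  have h5 := Sat.re_pos_of_ext hP h4 h3
  linarith

/-- the gate, general form -/
theorem gate_size {D : Dat} (hP : D.Par) (hC : D.Cir) : MeasurableSet (Half D) ∧
    Half D ⊆ MM ∧ Bornology.IsBounded (Gate D) ∧
    diam (Gate D) ≤ 3000 * √((volume (Half D)).toReal) := by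
  have hR : 0 < gR D.m D.x := (sR_pos hP).trans_le (sR_le_gR hP)
  obtain ⟨h1, h2, h3⟩ := Kb.gate_gen (f := D.c) (z0 := D.a) hR (c_diff hP) (c_injOn hP hC)
    (fun L hL => section_deriv_ne_zero (goodB hP) hP.cont hP.sec hL)
  rw [← Half_eq D] at h1 h3
  exact ⟨h1, Half_sub_MM hP, h2, h3⟩

/-- **N3a** -/
theorem n3_gate : N3_gate := by
  intro D hP hC
  obtain ⟨h1, h2, h3, h4⟩ := gate_size hP hC
  refine ⟨h1, fun c hc => ?_, h3, h4.trans ?_⟩
  · rw [mem_ball_zero_iff]
    have := norm_MM_le_four (h2 hc)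
    linarith
  · have := Real.sqrt_nonneg ((volume (Half D)).toReal)
    nlinarith

end Pool.Agent.Work.MLC.Cnt
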