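import Pool.Agent.Work.MLC.CntQ60
import Pool.Agent.Work.MLC.CntS15
import Pool.Agent.Work.MLC.CntPsi36
import Pool.Agent.Work.MLC.CntG86b

set_option autoImplicit false

/-! # Theorem F, module G10 (helper6): from the levels to the exceptional set

`LvD N D`: the data of one level: gaps of length at most `16 / 2 ^ N`, at most `10 ^ 27 N ^ 13 / δ ^ 2`
of them belong to pieces of diameter at least `δ`. `finB`: the exceptional set. -/

namespace Pool.Agent.Work.MLC.Cnt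

open Filter Topology Metric Set Complex MeasureTheory
open Pool.Agent.Work.MLC.Sat

/-- the data of the level `N` -/
structure LvD (N : ℕ) {ι : Type} [Fintype ι] (D : ι → Dat) : Prop where
  fam : Fam60 Finset.univ D
  ne : Nonempty ι
  short : ∀ J, IsGap (La D) (Ra D) J → J.2 - J.1 ≤ 16 / 2 ^ N
  count : ∀ δ : ℝ, 0 < δ →
    ({J | IsGap (La D) (Ra D) J ∧ δ ≤ diam (Pc Finset.univ D (adr D J))}.ncard : ℝ) ≤
      10 ^ 27 * (N : ℝ) ^ 13 / δ ^ 2

/-- `M` is locally connected at `c` (with compact connected neighbourhoods) -/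
def LCat (M : Set ℂ) (c : ℂ) : Prop :=
  ∀ U ∈ 𝓝 c, ∃ K ⊆ M ∩ U, IsCompact K ∧ IsConnected K ∧ K ∈ 𝓝[M] c

/-- the angles in the closed gaps of the big pieces -/
def BadA {ι : Type} [Fintype ι] (D : ι → Dat) (δ : ℝ) : Set ℝ :=
  {θ | ∃ J, IsGap (La D) (Ra D) J ∧ δ ≤ diam (Pc Finset.univ D (adr D J)) ∧
    ∃ k : ℤ, J.1 + k ≤ θ ∧ θ ≤ J.2 + k}

/-- the bad angles of one level are covered by few short intervals -/
lemma cover_bad {N : ℕ} {ι : Type} [Fintype ι] {D : ι → Dat} (h : LvD N D) {δ : ℝ} (hδ : 0 < δ) :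
    ∃ T : Finset ℝ, (T.card : ℝ) ≤ 3 * (10 ^ 27 * (N : ℝ) ^ 13 / δ ^ 2) ∧
      Icc 0 1 ∩ BadA D δ ⊆ ⋃ t ∈ T, Icc t (t + 16 / 2 ^ N) := by
  classical
  set S : Set (ℝ × ℝ) := {J | IsGap (La D) (Ra D) J ∧ δ ≤ diam (Pc Finset.univ D (adr D J))} with hS
  have hfin : S.Finite := (finite_gaps h.fam.lam).subset fun J hJ => hJ.1
  set T : Finset ℝ := (hfin.toFinset ×ˢ (Finset.Icc (-1 : ℤ) 1)).image
    fun p : (ℝ × ℝ) × ℤ => p.1.1 + p.2 with hT
  refine ⟨T, ?_, ?_⟩
  · have h1 : T.card ≤ hfin.toFinset.card * 3 := by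
      refine Finset.card_image_le.trans ?_
      rw [Finset.card_product]
      exact Nat.mul_le_mul_left _ (by decide)
    have h2 : hfin.toFinset.card = S.ncard := (Set.ncard_eq_toFinset_card S hfin).symm
    rw [h2] at h1
    have h3 : (T.card : ℝ) ≤ S.ncard * 3 := by exact_mod_cast h1
    have h4 := h.count δ hδ
    linarith
  · rintro θ ⟨⟨h0, h1⟩, J, hJ, hd, k, hk1, hk2⟩
    have h2 := hJ.nn
    have h3 := hJ.lt_one
    have h4 := hJ.le_one
    have hk : k ∈ Finset.Icc (-1 : ℤ) 1 := by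
      rw [Finset.mem_Icc]
      have e1 : (k : ℝ) < 2 := by linarith
      have e2 : (-2 : ℝ) < k := by linarith
      have e3 : k < 2 := by exact_mod_cast e1
      have e4 : -2 < k := by exact_mod_cast e2
      omega
    refine mem_biUnion (x := J.1 + k) ?_ ⟨hk1, ?_⟩
    · rw [hT]
      simp only [Finset.coe_image, Set.mem_image, Finset.mem_coe, Finset.mem_product]
      exact ⟨(J, k), ⟨by simpa using ⟨hJ, hd⟩, hk⟩, rfl⟩
    · have := h.short J hJ
      linarith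

/-- **the exceptional set** -/
theorem finB (hlev : ∀ N : ℕ, 2 ≤ N → ∃ (ι : Type) (_ : Fintype ι) (D : ι → Dat), LvD N D) :
    ∃ E : ℕ → Set ℝ,
      (∀ j n : ℕ, 1 ≤ n → ∃ T : Finset ℝ, (T.card : ℝ) ≤ 10 ^ 37 * ((j : ℝ) + 1) ^ 2 * (n : ℝ) ^ 13 ∧
        E j ⊆ ⋃ t ∈ T, Icc t (t + (1 / 2 : ℝ) ^ n)) ∧
      ∀ θ ∈ Ico (0 : ℝ) 1, (∀ j, θ ∉ E j) → ∃ c₀ ∈ MM,
        Tendsto Psi (𝓝[{z | 1 < ‖z‖}] (Complex.exp (2 * Real.pi * θ * Complex.I))) (𝓝 c₀) ∧
        LCat MM c₀ := by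
  classical
  choose ι inst D hD using fun N : ℕ => hlev (N + 2) (by omega)
  -- the ends
  set Z : Set ℝ := ⋃ N : ℕ, ends (La (D N)) (Ra (D N)) with hZ
  have hZc : Z.Countable := by
    refine countable_iUnion fun N => ?_
    haveI := inst N
    refine Set.Countable.mono (s₂ := ⋃ (i : ι N) (k : ℤ), {(D N i).tm + k, (D N i).tp + (k : ℝ)}) ?_
      (countable_iUnion fun i => countable_iUnion fun k => (Set.toFinite _).countable)
    rintro t ⟨i, k, h⟩
    simp only [mem_iUnion]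
    exact ⟨i, k, by rcases h with h | h <;> [left; right] <;> exact h⟩
  obtain ⟨e, he⟩ : ∃ e : ℕ → ℝ, Z ⊆ range e := by
    rcases Z.eq_empty_or_nonempty with h | h
    · exact ⟨fun _ => 0, by rw [h]; exact empty_subset _⟩
    · obtain ⟨e, he⟩ := hZc.exists_eq_range h
      exact ⟨e, he.le⟩
  refine ⟨fun j => {e j} ∪ (Icc 0 1 ∩ ⋂ N : ℕ, {θ | ∃ J,
    IsGap (La (D N)) (Ra (D N)) J ∧
      1 / ((j : ℝ) + 1) ≤ diam (Pc (@Finset.univ _ (inst N)) (D N) (@adr _ (inst N) (D N) J)) ∧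
      ∃ k : ℤ, J.1 + k ≤ θ ∧ θ ≤ J.2 + k}), ?_, ?_⟩
  · intro j n hn
    letI := inst (n + 2)
    obtain ⟨T, hT1, hT2⟩ := cover_bad (hD (n + 2)) (δ := 1 / ((j : ℝ) + 1)) (by positivity)
    refine ⟨insert (e j) T, ?_, ?_⟩
    · have h1 : ((insert (e j) T).card : ℝ) ≤ T.card + 1 := by
        exact_mod_cast Finset.card_insert_le _ _
      have h2 : (1 : ℝ) ≤ n := by exact_mod_cast hn
      have h3 : ((n + 2 + 2 : ℕ) : ℝ) ^ 13 ≤ 5 ^ 13 * (n : ℝ) ^ 13 := by
        rw [← mul_pow]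
        refine pow_le_pow_left₀ (by positivity) ?_ 13
        push_cast
        linarith
      have h4 : (1 : ℝ) ≤ ((j : ℝ) + 1) ^ 2 := one_le_pow₀ (by linarith [(Nat.cast_nonneg j : (0 : ℝ) ≤ j)])
      have h5 : (1 : ℝ) ≤ (n : ℝ) ^ 13 := one_le_pow₀ h2
      have h6 : 10 ^ 27 * ((n + 2 + 2 : ℕ) : ℝ) ^ 13 / (1 / ((j : ℝ) + 1)) ^ 2 =
          10 ^ 27 * ((n + 2 + 2 : ℕ) : ℝ) ^ 13 * ((j : ℝ) + 1) ^ 2 := by
        field_simp
      rw [h6] at hT1
      have h7 : 10 ^ 27 * ((n + 2 + 2 : ℕ) : ℝ) ^ 13 * ((j : ℝ) + 1) ^ 2 ≤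
          10 ^ 27 * (5 ^ 13 * (n : ℝ) ^ 13) * ((j : ℝ) + 1) ^ 2 := by gcongr
      have h8 : (1 : ℝ) ≤ ((j : ℝ) + 1) ^ 2 * (n : ℝ) ^ 13 := one_le_mul_of_one_le_of_one_le h4 h5
      calc ((insert (e j) T).card : ℝ) ≤ T.card + 1 := h1
        _ ≤ 3 * (10 ^ 27 * (5 ^ 13 * (n : ℝ) ^ 13) * ((j : ℝ) + 1) ^ 2) +
            ((j : ℝ) + 1) ^ 2 * (n : ℝ) ^ 13 := by linarith
        _ = (3 * (10 ^ 27 * 5 ^ 13) + 1) * (((j : ℝ) + 1) ^ 2 * (n : ℝ) ^ 13) := by ring
        _ ≤ 10 ^ 37 * (((j : ℝ) + 1) ^ 2 * (n : ℝ) ^ 13) := by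
            refine mul_le_mul_of_nonneg_right (by norm_num) (by positivity)
        _ = _ := by ring
    · rintro θ (hθ | ⟨h0, hθ⟩)
      · refine mem_biUnion (x := e j) (by simp) ?_
        rw [mem_singleton_iff.1 hθ]
        exact ⟨le_rfl, by linarith [show (0 : ℝ) < (1 / 2) ^ n by positivity]⟩
      · have h1 : θ ∈ BadA (D (n + 2)) (1 / ((j : ℝ) + 1)) := by
          simp only [mem_iInter] at hθ
          exact hθ (n + 2)
        have h2 := hT2 ⟨h0, h1⟩
        simp only [mem_iUnion, exists_prop] at h2 ⊢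
        obtain ⟨t, ht, h3, h4⟩ := h2
        refine ⟨t, Finset.mem_insert_of_mem ht, h3, h4.trans ?_⟩
        have h5 : (16 : ℝ) / 2 ^ (n + 2 + 2) = (1 / 2 : ℝ) ^ n := by
          rw [one_div, inv_pow, pow_add, pow_add]
          have : (2 : ℝ) ^ n ≠ 0 := by positivity
          field_simp
          norm_num
        rw [h5]
  · intro θ hθ hE
    have hθZ : θ ∉ Z := by
      intro h
      obtain ⟨j, hj⟩ := he h
      exact hE j (Or.inl (by rw [← hj]; rfl))
    -- the small pieces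
    have hsmall : ∀ j : ℕ, ∃ N, ∀ J, IsGap (La (D N)) (Ra (D N)) J →
        (∃ k : ℤ, J.1 + k ≤ θ ∧ θ ≤ J.2 + k) →
        diam (Pc (@Finset.univ _ (inst N)) (D N) (@adr _ (inst N) (D N) J)) < 1 / ((j : ℝ) + 1) := by
      intro j
      by_contra hcon
      push Not at hcon
      refine hE j (Or.inr ⟨⟨hθ.1, hθ.2.le⟩, ?_⟩)
      simp only [mem_iInter]
      intro N
      obtain ⟨J, h1, h2, h3⟩ := hcon N
      exact ⟨J, h1, h3, h2⟩
    choose N hN using hsmall
    set K : ℕ → Set ℂ := fun j => Pc (@Finset.univ _ (inst (N j))) (D (N j))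
      (@adrPt _ (inst (N j)) (D (N j)) θ) with hK
    have hend : ∀ j, θ ∉ ends (La (D (N j))) (Ra (D (N j))) := fun j h =>
      hθZ (mem_iUnion.2 ⟨N j, h⟩)
    have hKd : ∀ j, diam (K j) < 1 / ((j : ℝ) + 1) := by
      intro j
      letI := inst (N j)
      haveI := (hD (N j)).ne
      obtain ⟨J, ⟨hJ, hJa⟩, k, h1, h2⟩ := exists_gapsOf (hD (N j)).fam (hend j)
      have := hN j J hJ ⟨k, h1.le, h2.le⟩
      rw [hJa] at this
      exact this
    have hKb : ∀ j, Bornology.IsBounded (K j) := fun j => by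
      letI := inst (N j)
      exact (isCompact_Pc (hD (N j)).fam _).isBounded
    have himp : ∀ c ∈ MM, (c, θ) ∈ closure {p : ℂ × ℝ | Ang p.1 p.2} → ∀ j, c ∈ K j := by
      intro c hc hcl j
      letI := inst (N j)
      exact imp_Pc (hD (N j)).fam hc (hend j) hcl
    have huniq : ∀ c c' : ℂ, (∀ j, c ∈ K j) → (∀ j, c' ∈ K j) → c = c' := by
      intro c c' h h'
      by_contra hne
      have hd : 0 < dist c c' := dist_pos.2 hne
      obtain ⟨j, hj⟩ := exists_nat_one_div_lt hd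
      have h1 := dist_le_diam_of_mem (hKb j) (h j) (h' j)
      linarith [hKd j]
    have hseq : ∀ (g t : ℕ → ℝ) (c : ℂ), (∀ n, 0 < g n) → Tendsto g atTop (𝓝 0) →
        Tendsto t atTop (𝓝 θ) →
        Tendsto (fun n => cOf ((g n : ℂ) + 2 * Real.pi * t n * Complex.I)) atTop (𝓝 c) →
        ∀ j, c ∈ K j := by
      intro g t c hg hg0 ht hc
      refine himp c ?_ ?_
      · refine mem_MM_of_tendsto (u := fun n => (g n : ℂ) + 2 * Real.pi * t n * Complex.I)
          (fun n => ?_) ?_ hc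
        · have := CH.re_pt (g n) (t n)
          rw [this]; exact hg n
        · refine hg0.congr fun n => ?_
          exact (CH.re_pt (g n) (t n)).symm
      · have h1 : Tendsto (fun n => (cOf ((g n : ℂ) + 2 * Real.pi * t n * Complex.I), t n)) atTop
            (𝓝 (c, θ)) := hc.prodMk_nhds ht
        refine mem_closure_of_tendsto h1 (Eventually.of_forall fun n => ?_)
        exact (ang_cOf (hg n)).1
    -- a limit point
    obtain ⟨c₀, φ, hφ, hc₀⟩ := exists_limit_cOf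
      (u := fun n => ((1 / ((n : ℝ) + 1) : ℝ) : ℂ) + 2 * Real.pi * θ * Complex.I)
      (fun n => by rw [CH.re_pt]; positivity)
      (fun n => by
        rw [CH.re_pt, div_le_one (by positivity)]
        linarith [(Nat.cast_nonneg n : (0 : ℝ) ≤ n)])
    have hc₀K : ∀ j, c₀ ∈ K j := by
      refine hseq (fun n => 1 / ((φ n : ℝ) + 1)) (fun _ => θ) c₀ (fun n => by positivity) ?_
        tendsto_const_nhds hc₀
      exact tendsto_one_div_add_atTop_nhds_zero_nat.comp hφ.tendsto_atTop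
    have hc₀M : c₀ ∈ MM := (hc₀K 0).1
    refine ⟨c₀, hc₀M, ?_, ?_⟩
    · refine tendsto_Psi_of_unique fun g t c hg hg0 ht hc => ?_
      exact huniq c c₀ (hseq g t c hg hg0 ht hc) hc₀K
    · -- `c₀` is no root
      have hnr : ∀ j (i : ι (N j)), c₀ ≠ rt (D (N j) i) := by
        intro j i hi
        letI := inst (N j)
        obtain ⟨η, hη, hbig⟩ := piece_diam15 ((hD (N j)).fam.P i)
          ((hD (N j)).fam.C i)
        obtain ⟨j', hj'⟩ := exists_nat_one_div_lt hη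
        letI := inst (N j')
        have h1 := hbig (ι (N j')) Finset.univ (D (N j')) (hD (N j')).fam
          (adrPt (D (N j')) θ) (by rw [← hi]; exact hc₀K j')
        have h2 := hKd j'
        have h3 : η ≤ diam (K j') := h1
        linarith
      intro U hU
      obtain ⟨ε, hε, hεU⟩ := Metric.mem_nhds_iff.1 hU
      obtain ⟨j, hj⟩ := exists_nat_one_div_lt hε
      letI := inst (N j)
      have hfam := (hD (N j)).fam
      refine ⟨K j, fun z hz => ⟨hz.1, hεU ?_⟩, isCompact_Pc hfam _,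
        ⟨⟨c₀, hc₀K j⟩, isPreconnected_Pc hfam (isAdr_adrPt hfam θ)⟩, ?_⟩
      · have h1 := dist_le_diam_of_mem (hKb j) hz (hc₀K j)
        rw [mem_ball]
        linarith [hKd j]
      · have h1 := Pc_open hfam (hc₀K j) fun i _ => hnr j i
        rw [mem_nhdsWithin_iff_eventually]
        filter_upwards [h1] with w hw hwM
        exact hw hwM

end Pool.Agent.Work.MLC.Cnt
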