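import Pool.Agent.Work.MLC.Cnt0

set_option autoImplicit false

/-! # N4: two roots of the same period with denominators at least `3` are not nested (helper54)

Also the length of the characteristic arc: `2 ^ ((q - 2) N) (t - s) ≤ 1`. -/

namespace Pool.Agent.Work.MLC

open Set Circ CircleDeg1Lift Filter Topology

namespace CA

variable {N q q' : ℕ} {w w' : ℕ → ℤ} {s t s' t' θ : ℝ}

/-- before the time `(q - 2) N` the truncated maps are linear on the arc -/
theorem lin (h : CA N q w s t) (h1 : s < θ) (h2 : θ < t) {i : ℕ} (hi : i ≤ (q - 2) * N) :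
    ∃ m : ℤ, ∀ x, s ≤ x → x ≤ t → gw w θ i x = 2 ^ i * x + m := by
  induction i with
  | zero => exact ⟨0, fun x _ _ => by simp⟩
  | succ i ih =>
    obtain ⟨m, hm⟩ := ih (by omega)
    obtain ⟨k, k1, k2⟩ := h.nc h1 h2 (j := i) (by omega)
    refine ⟨2 * m - k, fun x hx hx' => ?_⟩
    have g1 : gw w θ i s ≤ gw w θ i x := (gw w θ i).monotone hx
    have g2 : gw w θ i x ≤ gw w θ i t := (gw w θ i).monotone hx'
    rw [gw_succ_apply, tdbl_lin k (by linarith) (by linarith), hm x hx hx', pow_succ]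
    push_cast; ring

/-- **the length of the characteristic arc** -/
theorem len (h : CA N q w s t) : (2 : ℝ) ^ ((q - 2) * N) * (t - s) ≤ 1 := by
  have h1 : s < (s + t) / 2 := by linarith [h.lt]
  have h2 : (s + t) / 2 < t := by linarith [h.lt]
  obtain ⟨m, hm⟩ := h.lin h1 h2 (i := (q - 2) * N) le_rfl
  have h3 := (h.gw_le (θ := (s + t) / 2) ((q - 2) * N)).2
  rw [hm s le_rfl h.lt.le, hm t h.lt.le le_rfl] at h3
  linarith

/-- linked classes with words `w`, `w'` (with respect to the same `θ`) -/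
theorem linked_step2 {x y : ℝ} (hb : ∀ i, w i = 0 ∨ w i = 1) (hb' : ∀ i, w' i = 0 ∨ w' i = 1)
    (hw : ∀ i, w (i + N) = w i) (hw' : ∀ i, w' (i + N) = w' i) (hx : Compat x θ w)
    (hy : Compat y θ w') {i j : ℕ} (h : Pool.Agent.MLC.Linked (AA N x i) (AA N y j)) :
    w i = w' j ∧ Pool.Agent.MLC.Linked (AA N x (i + 1)) (AA N y (j + 1)) := by
  obtain ⟨a, ha, b, hb1, c, hc, d, hd, h1, h2, h3, h4⟩ := h
  have hX := inHalf_of_compat hw hx i
  have hY := inHalf_of_compat hw' hy j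
  obtain ⟨ka, ea, a1, a2⟩ := tdbl_of_inHalf hX ha
  obtain ⟨kb, eb, b1, b2⟩ := tdbl_of_inHalf hY hb1
  obtain ⟨kc, ec, c1, c2⟩ := tdbl_of_inHalf hX hc
  obtain ⟨kd, ed, d1, d2⟩ := tdbl_of_inHalf hY hd
  have hwij : w i = w' j := by
    by_contra hne
    have hcase : (w i = 0 ∧ w' j = 1) ∨ (w i = 1 ∧ w' j = 0) := by
      rcases hb i with h | h <;> rcases hb' j with h' | h'
      · exact absurd (h.trans h'.symm) hne
      · exact Or.inl ⟨h, h'⟩
      · exact Or.inr ⟨h, h'⟩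
      · exact absurd (h.trans h'.symm) hne
    have key : ∀ (u v : ℤ) (p r : ℝ) (ep er : ℤ), (ep = 0 ∨ ep = 1) → (er = 0 ∨ er = 1) →
        (θ + ep) / 2 + u < p → p < (θ + ep) / 2 + u + 1 / 2 → (θ + er) / 2 + v < r →
        r < (θ + er) / 2 + v + 1 / 2 → p ≤ r → ep + 2 * u ≤ er + 2 * v := by
      intro u v p r ep er _ _ h1 h2 h3 h4 h5
      have : ((ep + 2 * u : ℤ) : ℝ) < ((er + 2 * v + 1 : ℤ) : ℝ) := by push_cast; linarith
      have h6 : ep + 2 * u < er + 2 * v + 1 := by exact_mod_cast this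
      omega
    have k1 := key ka kb a b _ _ (hb i) (hb' j) a1 a2 b1 b2 h1
    have k2 := key kb kc b c _ _ (hb' j) (hb i) b1 b2 c1 c2 h2
    have k3 := key kc kd c d _ _ (hb i) (hb' j) c1 c2 d1 d2 h3
    have k4 := key kd (ka + 1) d (a + 1) _ _ (hb' j) (hb i) d1 d2 (by push_cast; linarith)
      (by push_cast; linarith) h4
    omega
  refine ⟨hwij, 2 * a - ka, AA_dbl' ha ka, 2 * b - kb, AA_dbl' hb1 kb, 2 * c - kc, AA_dbl' hc kc,
    2 * d - kd, AA_dbl' hd kd, ?_, ?_, ?_, ?_⟩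
  · rw [← ea, ← eb, hwij]; exact (tdbl _).monotone h1
  · rw [← eb, ← ec, hwij]; exact (tdbl _).monotone h2
  · rw [← ec, ← ed, hwij]; exact (tdbl _).monotone h3
  · rw [← ed, ← ea, hwij, ← map_add_one]; exact (tdbl _).monotone h4

theorem linked_word2 {x y : ℝ} (hb : ∀ i, w i = 0 ∨ w i = 1) (hb' : ∀ i, w' i = 0 ∨ w' i = 1)
    (hw : ∀ i, w (i + N) = w i) (hw' : ∀ i, w' (i + N) = w' i) (hx : Compat x θ w)
    (hy : Compat y θ w') (h : Pool.Agent.MLC.Linked (AA N x 0) (AA N y 0)) : w = w' := by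
  have key : ∀ t, Pool.Agent.MLC.Linked (AA N x t) (AA N y t) := by
    intro t
    induction t with
    | zero => exact h
    | succ t ih => exact (linked_step2 hb hb' hw hw' hx hy ih).2
  funext t
  exact (linked_step2 hb hb' hw hw' hx hy (key t)).1

/-- the first image of the arc is disjoint from the arc (`q ≥ 3`) -/
theorem image_out (h : CA N q w s t) (hq : 3 ≤ q) {u : ℝ} (h1 : s < u) (h2 : u < t) :
    ∃ l : ℤ, t ≤ 2 ^ N * u + l ∧ 2 ^ N * u + l ≤ s + 1 := by
  have hN := h.pos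
  have hle : N ≤ (q - 2) * N := Nat.le_mul_of_pos_left N (by omega)
  obtain ⟨m, hm⟩ := h.lin h1 h2 hle
  have hst := h.lt.le
  have es := hm s le_rfl hst
  have et := hm t hst le_rfl
  have eu := hm u h1.le h2.le
  have hp : (0 : ℝ) < 2 ^ N := by positivity
  have g1 : gw w u N s < gw w u N u := by
    rw [es, eu]; have := mul_lt_mul_of_pos_left h1 hp; linarith
  have g2 : gw w u N u < gw w u N t := by
    rw [et, eu]; have := mul_lt_mul_of_pos_left h2 hp; linarith
  -- translate into `[s, s + 1)`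
  set l : ℤ := -⌊gw w u N u - s⌋ with hl
  have l1 : s ≤ gw w u N u + l := by
    have := Int.floor_le (gw w u N u - s); rw [hl]; push_cast; linarith
  have l2 : gw w u N u + l < s + 1 := by
    have := Int.lt_floor_add_one (gw w u N u - s); rw [hl]; push_cast; linarith
  refine ⟨m + l, ?_, ?_⟩
  swap
  · rw [eu] at l2; push_cast; linarith
  have hcl : t ≤ gw w u N u + l := by
    by_contra hcon
    push Not at hcon
    have hsA : ∀ k : ℤ, s + k ∈ AA N s N := by
      intro k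
      have h5 := AA_per h.per 0
      rw [Nat.zero_add] at h5
      rw [h5]; exact AA_shift mem0 k
    -- `s ≤ gw s + l`
    have a1 : s ≤ gw w u N s + l := by
      by_contra hc
      push Not at hc
      refine h.gap h1 h2 N (s + ((-l : ℤ) : ℝ)) (hsA _) ?_ ?_
      · push_cast; linarith
      · push_cast; linarith
    have a2 : gw w u N s + l ≤ s := by
      by_contra hc
      push Not at hc
      have h6 := (h.gw_pt h1 h2 (x := s) mem0 N).1
      refine h.nopt' h6 (-l) ?_ ?_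
      · push_cast; linarith
      · push_cast; linarith
    refine h.gw_s_ne h1 h2 (x := s) mem0 hN ?_ (-l) ?_
    · calc N = N * 1 := (mul_one N).symm
        _ < N * q := Nat.mul_lt_mul_of_pos_left (by omega) hN
    · push_cast; linarith
  rw [eu] at hcl
  push_cast; linarith

/-- a point of another class in the arc: the words agree -/
theorem word_eq_of_mem (h : CA N q w s t) (h' : CA N q' w' s' t') (hq : 3 ≤ q) (h1 : s < θ)
    (h2 : θ < t) (h3 : s' < θ) (h4 : θ < t') {u : ℝ} (hu : u ∈ AA N s' 0) (u1 : s < u)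
    (u2 : u < t) : w = w' := by
  obtain ⟨l, l1, l2⟩ := h.image_out hq u1 u2
  refine linked_word2 h.word.1 h'.word.1 h.word.2.1 h'.word.2.1 (h.compat θ h1 h2)
    (h'.compat θ h3 h4) ⟨s, mem0, u, hu, t, h.mem, 2 ^ N * u + l, ?_, u1.le, u2.le, l1, l2⟩
  obtain ⟨m, k, rfl⟩ := hu
  refine ⟨m + 1, 2 ^ N * k + l, ?_⟩
  rw [Nat.zero_add, Nat.zero_add, show N * (m + 1) = N + N * m by ring, pow_add]
  push_cast
  ring

/-- the same angle: the words agree -/
theorem word_eq_of_compat {x : ℝ} (hb : ∀ i, w i = 0 ∨ w i = 1) (hb' : ∀ i, w' i = 0 ∨ w' i = 1)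
    (hx : Compat x θ w) (hy : Compat x θ w') : w = w' := by
  funext i
  obtain ⟨k, k1, k2⟩ := hx i
  obtain ⟨k', k1', k2'⟩ := hy i
  have e1 : ((w i + 2 * k : ℤ) : ℝ) < ((w' i + 2 * k' + 1 : ℤ) : ℝ) := by push_cast; linarith
  have e2 : ((w' i + 2 * k' : ℤ) : ℝ) < ((w i + 2 * k + 1 : ℤ) : ℝ) := by push_cast; linarith
  have e3 : w i + 2 * k < w' i + 2 * k' + 1 := by exact_mod_cast e1
  have e4 : w' i + 2 * k' < w i + 2 * k + 1 := by exact_mod_cast e2
  rcases hb i with h | h <;> rcases hb' i with h' | h' <;> omega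

/-- **overlapping characteristic arcs**: the words agree, and the arcs agree or the words force
the classes to agree -/
theorem overlap (h : CA N q w s t) (h' : CA N q' w' s' t') (hq : 3 ≤ q) (hq' : 3 ≤ q')
    (h1 : s < θ) (h2 : θ < t) (h3 : s' < θ) (h4 : θ < t') : w = w' := by
  by_cases c1 : s < s'
  · exact h.word_eq_of_mem h' hq h1 h2 h3 h4 mem0 c1 (by linarith)
  by_cases c2 : s' < s
  · exact (h'.word_eq_of_mem h hq' h3 h4 h1 h2 mem0 c2 (by linarith)).symm
  have hs : s = s' := le_antisymm (not_lt.1 c2) (not_lt.1 c1)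
  have e1 := h.compat θ h1 h2
  have e2 := h'.compat θ h3 h4
  rw [← hs] at e2
  exact word_eq_of_compat h.word.1 h'.word.1 e1 e2

/-- shift of the arc by an integer -/
theorem AA_add (x : ℝ) (k : ℤ) (j : ℕ) : AA N (x + k) j = AA N x j := by
  ext a
  constructor
  · rintro ⟨m, l, rfl⟩
    exact ⟨m, 2 ^ (j + N * m) * k + l, by push_cast; ring⟩
  · rintro ⟨m, l, rfl⟩
    exact ⟨m, l - 2 ^ (j + N * m) * k, by push_cast; ring⟩

theorem shift (h : CA N q w s t) (k : ℤ) : CA N q (fun i => (w i + k) % 2) (s + k) (t + k) := by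
  have hb : ∀ i, (w i + k) % 2 = 0 ∨ (w i + k) % 2 = 1 := fun i => by omega
  refine ⟨h.pos, h.two, ⟨hb, fun i => by simp only [h.word.2.1], ?_⟩, ?_, by linarith [h.lt],
    by linarith [h.lt'], ?_, ?_, ?_⟩
  · intro d hd hdN
    obtain ⟨i, hi⟩ := h.word.2.2 d hd hdN
    refine ⟨i, fun he => hi ?_⟩
    simp only at he
    rcases h.word.1 (i + d) with a | a <;> rcases h.word.1 i with b | b <;> rw [a, b] at he ⊢ <;>
      omega
  · refine perAngle_of_mem h.per (i := 0) ?_
    exact AA_shift mem0 k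
  · rw [AA_add]
    exact AA_shift h.mem k
  · intro θ h1 h2
    have hc := h.compat (θ - k) (by linarith) (by linarith)
    intro i
    obtain ⟨l, l1, l2⟩ := hc i
    obtain ⟨r, hr⟩ : ∃ r : ℤ, (w i + k) % 2 = w i + k + 2 * r := ⟨-((w i + k) / 2), by omega⟩
    refine ⟨l - k - r + 2 ^ i * k, ?_, ?_⟩
    · simp only [hr]; push_cast at l1 l2 ⊢; linarith
    · simp only [hr]; push_cast at l1 l2 ⊢; linarith
  · intro j a ha h1 h2
    rw [AA_add] at ha
    exact h.nopt' ha k h1 h2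

end CA

namespace Cnt

open Pool.Agent.Work.MLC.Sat

/-- the characteristic arc of the data -/
theorem ca_of {D : Dat} (hP : D.Par) (hC : D.Cir) : CA D.m D.x.den D.w D.tm D.tp := by
  refine ⟨hP.m_pos, two_le_den hP.x_pos hP.x_lt, ⟨hP.bits.bit, hP.bits.per, hP.wprim⟩, hC.per,
    hC.lt, hC.lt_one, ?_, fun θ h1 h2 => (hC.compat_w θ h1 h2).1, ?_⟩
  · obtain ⟨j, l, hj⟩ := hC.orb
    exact ⟨j, l, by rw [Nat.zero_add]; exact hj⟩
  · rintro j a ⟨m, l, rfl⟩ h1 h2
    exact hC.avoid (j + D.m * m) l ⟨h1, h2⟩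

/-- **the length of the plateau** -/
theorem arc_len {D : Dat} (hP : D.Par) (hC : D.Cir) :
    (2 : ℝ) ^ (D.m * (D.x.den - 2)) * (D.tp - D.tm) ≤ 1 := by
  have := (ca_of hP hC).len
  rwa [mul_comm (D.x.den - 2) D.m] at this

/-- **N4** -/
theorem n4_anti : N4_anti := by
  intro D D' hP hC hP' hC' hm hq hq' ⟨θ, k, h1, h2, h3, h4⟩
  have hA := ca_of hP hC
  have hA' := ca_of hP' hC'
  rw [← hm] at hA'
  have hA'' := hA'.shift (-k)
  push_cast at hA''
  have hw : D.w = fun i => (D'.w i + -k) % 2 :=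
    hA.overlap hA'' hq hq' h1 h2 (by linarith) (by linarith)
  -- the rotation numbers
  obtain ⟨r, hr⟩ : ∃ r : ℕ → ℤ, ∀ i, D'.w i + k = D.w i + 2 * r i :=
    ⟨fun i => (D'.w i + -k) / 2 + k, fun i => by
      have h5 : D.w i = (D'.w i + -k) % 2 := congrFun hw i
      show D'.w i + k = D.w i + 2 * ((D'.w i + -k) / 2 + k)
      omega⟩
  have hnu : Circ.nu D'.w D'.m (θ + k) = Circ.nu D.w D.m θ + ∑ i ∈ Finset.range D.m, (r i : ℝ) := by
    rw [nu_add_theta, ← hm]
    have h5 : (fun i => D'.w i + k) = fun i => D.w i + 2 * r i := funext hr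
    rw [h5, nu_shift]
  have e1 := (hC.plateau θ).2 ⟨h1.le, h2.le⟩
  have e2 := (hC'.plateau (θ + k)).2 ⟨h3.le, h4.le⟩
  have hx : D.x = D'.x := by
    have h5 : (D'.x : ℝ) - D.x = ((D.k₀ - D'.k₀ + ∑ i ∈ Finset.range D.m, r i : ℤ) : ℝ) := by
      rw [e2, e1] at hnu
      push_cast
      linarith
    have h6 : D'.x - D.x = ((D.k₀ - D'.k₀ + ∑ i ∈ Finset.range D.m, r i : ℤ) : ℚ) := by
      exact_mod_cast h5
    have a1 := hP.x_pos
    have a2 := hP.x_lt
    have a3 := hP'.x_pos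
    have a4 := hP'.x_lt
    have h7 : ((D.k₀ - D'.k₀ + ∑ i ∈ Finset.range D.m, r i : ℤ) : ℚ) < ((1 : ℤ) : ℚ) := by
      rw [← h6]; push_cast; linarith
    have h8 : ((-1 : ℤ) : ℚ) < ((D.k₀ - D'.k₀ + ∑ i ∈ Finset.range D.m, r i : ℤ) : ℚ) := by
      rw [← h6]; push_cast; linarith
    have h9 : D.k₀ - D'.k₀ + ∑ i ∈ Finset.range D.m, r i < 1 := by exact_mod_cast h7
    have h10 : -1 < D.k₀ - D'.k₀ + ∑ i ∈ Finset.range D.m, r i := by exact_mod_cast h8
    have h11 : D.k₀ - D'.k₀ + ∑ i ∈ Finset.range D.m, r i = 0 := by omega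
    rw [h11] at h6
    push_cast at h6
    linarith
  -- the labels
  have hlab : lab D.m (θ + k) D'.w = lab D.m θ D.w := by
    refine lab_congr hP.bits (hm ▸ hP'.bits) k rfl fun i => ?_
    have := hr i
    exact ⟨r i - k, by omega⟩
  have hx0 : (0 : ℝ) < D.x := by exact_mod_cast hP.x_pos
  have hx1 : (D.x : ℝ) < 1 := by exact_mod_cast hP.x_lt
  have hB : D'.B = D.B := by
    unfold Dat.B Dat.a; rw [← hm, ← hx]
  have key : ∀ L ∈ D.B, 0 < L.re → D.σ L = D'.σ L := by
    intro L hL hre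
    have hL' : L ∈ D'.B := by rw [hB]; exact hL
    obtain ⟨p1, p2⟩ := hP.sec L hL
    obtain ⟨p1', p2'⟩ := hP'.sec L hL'
    rw [← hm] at p1' p2'
    refine s4_unique D.m D.x L _ _ hP.m_pos hP.x_pos hP.x_lt hL hre p1 p1' p2 p2' ?_
    have f1 := (hP.lab L hL hre).2 θ (by rw [e1]; linarith) (by rw [e1]; linarith)
    have hx' : (D'.x : ℝ) = D.x := by rw [hx]
    have f2 := (hP'.lab L hL' hre).2 (θ + k) (by rw [e2, hx']; linarith)
      (by rw [e2, hx']; linarith)
    rw [f1, ← hlab]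
    have f3 : FF D'.m (D'.σ L) = lab D'.m (θ + k) D'.w := f2
    have : ∀ (a b : ℕ), a = b → FF a (D'.σ L) = lab a (θ + k) D'.w →
        FF b (D'.σ L) = lab b (θ + k) D'.w := by
      rintro a _ rfl h; exact h
    exact (this _ _ hm.symm f3).symm
  have ha : D'.a = D.a := by unfold Dat.a; rw [← hx]
  have hrad : 0 < gR D.m D.x := by
    unfold gR
    have : 0 < min (D.x : ℝ) (1 - D.x) := lt_min hx0 (by linarith)
    have hm0 : (0 : ℝ) < D.m := by exact_mod_cast hP.m_pos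
    positivity
  have haB : D.a ∈ D.B := Metric.mem_ball_self hrad
  have hnB : D.B ∈ 𝓝 D.a := Metric.isOpen_ball.mem_nhds haB
  have hc1 : ContinuousAt D.σ D.a := hP.cont.continuousAt hnB
  have hc2 : ContinuousAt D'.σ D.a := by
    have := hP'.cont.continuousAt (x := D.a) (by rw [hB]; exact hnB)
    exact this
  have hseq : Tendsto (fun t : ℝ => D.a + (t : ℂ)) (𝓝[>] 0) (𝓝 D.a) := by
    have h6 : Continuous fun s : ℝ => D.a + (s : ℂ) := by fun_prop
    have h7 := h6.tendsto 0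
    simp only [Complex.ofReal_zero, add_zero] at h7
    exact h7.mono_left nhdsWithin_le_nhds
  have hev : ∀ᶠ t : ℝ in 𝓝[>] 0, D.σ (D.a + t) = D'.σ (D.a + t) := by
    filter_upwards [hseq.eventually hnB, self_mem_nhdsWithin] with t ht ht0
    refine key _ ht ?_
    have : (0 : ℝ) < t := ht0
    have h8 : D.a.re = 0 := LimbData.axisPt_re _
    rw [Complex.add_re, h8, Complex.ofReal_re, zero_add]
    exact this
  have hfin : D.σ D.a = D'.σ D.a :=
    tendsto_nhds_unique_of_eventuallyEq (hc1.tendsto.comp hseq) (hc2.tendsto.comp hseq) hev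
  unfold rt Dat.c
  rw [ha, hfin]

end Cnt

end Pool.Agent.Work.MLC
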