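import Pool.Agent.Work.MLC.CntH26
import Pool.Agent.Work.MLC.CntA54

set_option autoImplicit false

/-! # Theorem F, module G1 (and G2): the plateaus of the roots are laminar (helper54)

`D.tm' + k` in the closed plateau of `D` forces: the root of `D'` is in the limb of `D` (or it is
the root of `D`), and then the whole plateau of `D'`, moved by `k`, is inside the open plateau. -/

namespace Pool.Agent.Work.MLC.Cnt

open Filter Topology Metric Set Complex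
open Pool.Agent.Work.MLC.Sat

namespace CL

/-- one step of the binary expansion -/
lemma floor_step {e k l : ℤ} {z : ℝ} (h1 : ((k : ℝ) + e) / 2 + l < z)
    (h2 : z < ((k : ℝ) + e) / 2 + l + 1 / 2) : ⌊2 * z⌋ = k + e + 2 * l := by
  rw [Int.floor_eq_iff]
  push_cast
  constructor <;> linarith

lemma floor_two (z : ℝ) : ⌊2 * z⌋ = 2 * ⌊z⌋ ∨ ⌊2 * z⌋ = 2 * ⌊z⌋ + 1 := by
  have h1 := Int.floor_le z
  have h2 := Int.lt_floor_add_one z
  have h3 : 2 * ⌊z⌋ ≤ ⌊2 * z⌋ := by rw [Int.le_floor]; push_cast; linarith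
  have h4 : ⌊2 * z⌋ < 2 * ⌊z⌋ + 2 := by rw [Int.floor_lt]; push_cast; linarith
  omega

/-- angles with the same itinerary with respect to an integer differ by an integer -/
lemma eq_of_compat_int {w : ℕ → ℤ} {x y : ℝ} {k : ℤ} (hx : Compat x k w) (hy : Compat y k w) :
    ∃ l : ℤ, y = x + l := by
  refine ⟨⌊y⌋ - ⌊x⌋, ?_⟩
  have key : ∀ i : ℕ, ⌊2 ^ i * y⌋ - ⌊2 ^ i * x⌋ = 2 ^ i * (⌊y⌋ - ⌊x⌋) := by
    intro i
    induction i with
    | zero => simp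
    | succ i ih =>
      obtain ⟨l, l1, l2⟩ := hx i
      obtain ⟨l', l1', l2'⟩ := hy i
      have e1 := floor_step l1 l2
      have e2 := floor_step l1' l2'
      have e3 : (2 : ℝ) ^ (i + 1) * x = 2 * (2 ^ i * x) := by ring
      have e4 : (2 : ℝ) ^ (i + 1) * y = 2 * (2 ^ i * y) := by ring
      rw [e3, e4, pow_succ]
      rcases floor_two (2 ^ i * x) with a | a <;> rcases floor_two (2 ^ i * y) with b | b
      · rw [a, b]; linarith
      · omega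
      · omega
      · rw [a, b]; linarith
  have h1 : ∀ i : ℕ, |2 ^ i * (y - x - ((⌊y⌋ - ⌊x⌋ : ℤ) : ℝ))| ≤ 1 := by
    intro i
    have h2 := congrArg (fun n : ℤ => (n : ℝ)) (key i)
    push_cast at h2
    have a1 := Int.floor_le (2 ^ i * x)
    have a2 := Int.lt_floor_add_one (2 ^ i * x)
    have a3 := Int.floor_le (2 ^ i * y)
    have a4 := Int.lt_floor_add_one (2 ^ i * y)
    rw [abs_le]
    push_cast
    constructor <;> nlinarith
  by_contra hne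
  have h3 : 0 < |y - x - ((⌊y⌋ - ⌊x⌋ : ℤ) : ℝ)| := by
    rw [abs_pos]
    intro h
    exact hne (by linarith)
  obtain ⟨n, hn⟩ := pow_unbounded_of_one_lt (1 / |y - x - ((⌊y⌋ - ⌊x⌋ : ℤ) : ℝ)|) (one_lt_two)
  have h4 := h1 n
  rw [abs_mul, abs_of_pos (by positivity : (0 : ℝ) < 2 ^ n)] at h4
  rw [div_lt_iff₀ h3] at hn
  linarith

end CL

variable {D D' : Dat}

lemma tm_not_int (hP : D.Par) (hC : D.Cir) (k : ℤ) : D.tm ≠ k := by
  intro h
  refine hC.per.2.2 1 one_pos (two_le_den hP.x_pos hP.x_lt) ⟨2 ^ (D.m * 1) * k - k, ?_⟩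
  rw [h]; push_cast; ring

lemma tp_not_int (hP : D.Par) (hC : D.Cir) (k : ℤ) : D.tp ≠ k := by
  intro h
  obtain ⟨j, l, hj⟩ := hC.orb'
  refine tm_not_int hP hC (2 ^ (D.m * j) * k + l) ?_
  rw [hj, h]; push_cast; ring

/-- the plateau contains no integer -/
theorem no_int_mem (hP : D.Par) (hC : D.Cir) (k : ℤ) : ¬ (D.tm ≤ k ∧ (k : ℝ) ≤ D.tp) := by
  rintro ⟨h1, h2⟩
  have h1' : D.tm < k := lt_of_le_of_ne h1 (tm_not_int hP hC k)
  have h2' : (k : ℝ) < D.tp := lt_of_le_of_ne h2 (fun h => tp_not_int hP hC k h.symm)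
  obtain ⟨a, b⟩ := hC.compat_w k h1' h2'
  obtain ⟨l, hl⟩ := CL.eq_of_compat_int a b
  have h3 := hC.lt
  have h4 := hC.lt_one
  rw [hl] at h3 h4
  have h5 : (0 : ℝ) < l := by linarith
  have h6 : (l : ℝ) < 1 := by linarith
  have h7 : 0 < l := by exact_mod_cast h5
  have h8 : l < 1 := by exact_mod_cast h6
  omega

/-- the plateau is in one unit interval -/
lemma floor_plateau (hP : D.Par) (hC : D.Cir) : (⌊D.tm⌋ : ℝ) < D.tm ∧ D.tp < ⌊D.tm⌋ + 1 := by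
  refine ⟨lt_of_le_of_ne (Int.floor_le _) (fun h => tm_not_int hP hC _ h.symm), ?_⟩
  by_contra h
  push Not at h
  refine no_int_mem hP hC (⌊D.tm⌋ + 1) ⟨?_, ?_⟩
  · push_cast; exact (Int.lt_floor_add_one _).le
  · push_cast; exact h

/-- two plateaus: the translate is determined -/
lemma shift_unique (hP : D.Par) (hC : D.Cir) (hP' : D'.Par) (hC' : D'.Cir) {k l : ℤ} {u v : ℝ}
    (hu : D'.tm ≤ u) (hu' : u ≤ D'.tp) (hv : D'.tm ≤ v) (hv' : v ≤ D'.tp)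
    (h1 : D.tm ≤ u + k) (h2 : u + k ≤ D.tp) (h3 : D.tm ≤ v + l) (h4 : v + l ≤ D.tp) : k = l := by
  obtain ⟨a1, a2⟩ := floor_plateau hP hC
  obtain ⟨b1, b2⟩ := floor_plateau hP' hC'
  have e1 : ((⌊D.tm⌋ - ⌊D'.tm⌋ - k : ℤ) : ℝ) < 1 := by push_cast; linarith
  have e2 : ((-1 : ℤ) : ℝ) < ((⌊D.tm⌋ - ⌊D'.tm⌋ - k : ℤ) : ℝ) := by push_cast; linarith
  have e3 : ((⌊D.tm⌋ - ⌊D'.tm⌋ - l : ℤ) : ℝ) < 1 := by push_cast; linarith
  have e4 : ((-1 : ℤ) : ℝ) < ((⌊D.tm⌋ - ⌊D'.tm⌋ - l : ℤ) : ℝ) := by push_cast; linarith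
  have f1 : ⌊D.tm⌋ - ⌊D'.tm⌋ - k < 1 := by exact_mod_cast e1
  have f2 : -1 < ⌊D.tm⌋ - ⌊D'.tm⌋ - k := by exact_mod_cast e2
  have f3 : ⌊D.tm⌋ - ⌊D'.tm⌋ - l < 1 := by exact_mod_cast e3
  have f4 : -1 < ⌊D.tm⌋ - ⌊D'.tm⌋ - l := by exact_mod_cast e4
  omega

/-- an end of the plateau of `D'` in the closed plateau of `D`: the root of `D'` is in the limb -/
theorem rt_mem_Lm_of_end (h2 : N2_ray) (h5' : N5_closed) (hP : D.Par) (hC : D.Cir) (hP' : D'.Par)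
    (hC' : D'.Cir) (hne : rt D ≠ rt D') {k : ℤ}
    (h : (D.tm ≤ D'.tm + k ∧ D'.tm + k ≤ D.tp) ∨ (D.tm ≤ D'.tp + k ∧ D'.tp + k ≤ D.tp)) :
    rt D' ∈ Lm D := by
  have hcl : rt D' ∈ closure (Lm D ∪ {c' | ∃ θ, Ang c' θ ∧ D.tm ≤ θ ∧ θ ≤ D.tp}) := by
    rw [mem_closure_iff_nhds]
    intro N hN
    obtain ⟨g, hg, hg1, hg2⟩ := CH.rt_mem_closure h2 hP' hC' N hN
    rcases h with h | h
    · refine ⟨_, hg1, Or.inr ⟨D'.tm + k, ?_, h⟩⟩
      rw [← CH.cOf_shift g D'.tm k]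
      exact (ang_cOf hg).1
    · refine ⟨_, hg2, Or.inr ⟨D'.tp + k, ?_, h⟩⟩
      rw [← CH.cOf_shift g D'.tp k]
      exact (ang_cOf hg).1
  rcases h5' D hP hC _ (CH.rt_mem_MM hP') hcl with h4 | h4
  · exact h4
  · exact absurd h4.symm hne

/-- the root of `D'` in the limb of `D`: the plateau of `D'` is inside the open plateau -/
theorem plateau_of_rt_mem_Lm (h2 : N2_ray) (h5 : N5_open) (hP : D.Par) (hC : D.Cir) (hP' : D'.Par)
    (hC' : D'.Cir) (h : rt D' ∈ Lm D) : ∃ k : ℤ, D.tm < D'.tm + k ∧ D'.tp + k < D.tp := by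
  obtain ⟨g, hg, hg1, hg2⟩ := CH.rt_mem_closure h2 hP' hC' _ (h5 D hP hC _ h)
  obtain ⟨k, k1, k2⟩ := hg1.2 D'.tm (ang_cOf hg).1
  obtain ⟨l, l1, l2⟩ := hg2.2 D'.tp (ang_cOf hg).1
  have hkl : k = l := shift_unique hP hC hP' hC' le_rfl hC'.lt.le hC'.lt.le le_rfl k1.le k2.le l1.le
    l2.le
  exact ⟨k, k1, by rw [hkl]; exact l2⟩

/-- **G2**: the root of `D'` is in the limb of `D` iff the plateau of `D'` is inside the plateau of
`D` (modulo integers) -/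
theorem rt_mem_Lm_iff (h2 : N2_ray) (h5 : N5_open) (h5' : N5_closed) (hP : D.Par) (hC : D.Cir)
    (hP' : D'.Par) (hC' : D'.Cir) (hne : rt D ≠ rt D') :
    rt D' ∈ Lm D ↔ ∃ k : ℤ, D.tm < D'.tm + k ∧ D'.tp + k < D.tp := by
  refine ⟨plateau_of_rt_mem_Lm h2 h5 hP hC hP' hC', ?_⟩
  rintro ⟨k, k1, k2⟩
  exact rt_mem_Lm_of_end h2 h5' hP hC hP' hC' hne (k := k)
    (Or.inl ⟨k1.le, by linarith [hC'.lt]⟩)

/-- an end of the plateau of `D'` in the closed plateau of `D`: the plateau of `D'` is inside -/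
theorem plateau_of_end (h2 : N2_ray) (h5 : N5_open) (h5' : N5_closed) (hP : D.Par) (hC : D.Cir)
    (hP' : D'.Par) (hC' : D'.Cir) (hne : rt D ≠ rt D') {k : ℤ}
    (h : (D.tm ≤ D'.tm + k ∧ D'.tm + k ≤ D.tp) ∨ (D.tm ≤ D'.tp + k ∧ D'.tp + k ≤ D.tp)) :
    D.tm < D'.tm + k ∧ D'.tp + k < D.tp := by
  have h1 := rt_mem_Lm_of_end h2 h5' hP hC hP' hC' hne h
  obtain ⟨l, l1, l2⟩ := plateau_of_rt_mem_Lm h2 h5 hP hC hP' hC' h1
  have hlt := hC'.lt
  have hkl : k = l := by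
    rcases h with ⟨a, b⟩ | ⟨a, b⟩
    · exact shift_unique hP hC hP' hC' le_rfl hlt.le le_rfl hlt.le a b l1.le (by linarith)
    · exact shift_unique hP hC hP' hC' hlt.le le_rfl hlt.le le_rfl a b (by linarith) l2.le
  rw [hkl]
  exact ⟨l1, l2⟩

/-- **G1**: the plateaus of different roots are disjoint or nested, without common ends -/
theorem laminar (h2 : N2_ray) (h5 : N5_open) (h5' : N5_closed) (hP : D.Par) (hC : D.Cir)
    (hP' : D'.Par) (hC' : D'.Cir) (hne : rt D ≠ rt D') (k : ℤ) :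
    (D.tm < D'.tm + k ∧ D'.tp + k < D.tp) ∨ (D'.tm + k < D.tm ∧ D.tp < D'.tp + k) ∨
      D'.tp + k < D.tm ∨ D.tp < D'.tm + k := by
  by_cases a1 : D.tm ≤ D'.tm + k ∧ D'.tm + k ≤ D.tp
  · exact Or.inl (plateau_of_end h2 h5 h5' hP hC hP' hC' hne (Or.inl a1))
  by_cases a2 : D.tm ≤ D'.tp + k ∧ D'.tp + k ≤ D.tp
  · exact Or.inl (plateau_of_end h2 h5 h5' hP hC hP' hC' hne (Or.inr a2))
  rcases lt_or_ge (D'.tp + k) D.tm with b1 | b1
  · exact Or.inr (Or.inr (Or.inl b1))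
  rcases lt_or_ge D.tp (D'.tm + k) with b2 | b2
  · exact Or.inr (Or.inr (Or.inr b2))
  right; left
  constructor
  · by_contra h
    push Not at h
    exact a1 ⟨h, b2⟩
  · by_contra h
    push Not at h
    exact a2 ⟨b1, h⟩

/-! ### rays which accumulate at the root -/

/-- a ray which accumulates at the root has its angle in the closed plateau -/
theorem plateau_of_limit (hP : D.Par) (hC : D.Cir) {θ : ℝ}
    (h : ∀ N ∈ 𝓝 (rt D), ∃ g : ℝ, 0 < g ∧ cOf ((g : ℂ) + 2 * Real.pi * θ * I) ∈ N) :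
    ∃ k : ℤ, D.tm ≤ θ + k ∧ θ + k ≤ D.tp := by
  by_contra hcon
  push Not at hcon
  have haB := CH.a_mem hP
  have hB : D.B ∈ 𝓝 D.a := isOpen_ball.mem_nhds haB
  have hmap := c_map_nhds hP haB
  have hm0 : (0 : ℝ) < D.m := by exact_mod_cast hP.m_pos
  have hpi := Real.two_pi_pos
  -- near the root the rotation number is near `x`
  have hev : ∀ δ > 0, ∃ k : ℤ, (D.k₀ : ℝ) < Circ.nu D.w D.m (θ + k) ∧
      Circ.nu D.w D.m (θ + k) < D.k₀ + 1 ∧ |Circ.nu D.w D.m (θ + k) - D.k₀ - D.x| < δ := by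
    intro δ hδ
    have hc : ∀ᶠ L in 𝓝 D.a, L ∈ D.B ∧ ‖L - D.a‖ < δ ∧ 81 * D.m * L.re < δ ^ 2 := by
      have c1 : ∀ᶠ L in 𝓝 D.a, ‖L - D.a‖ < δ := by
        have : Continuous fun L : ℂ => ‖L - D.a‖ := by fun_prop
        refine (this.tendsto D.a).eventually (eventually_lt_nhds ?_)
        rw [sub_self, norm_zero]; exact hδ
      have c2 : ∀ᶠ L in 𝓝 D.a, 81 * D.m * L.re < δ ^ 2 := by
        have : Continuous fun L : ℂ => 81 * (D.m : ℝ) * L.re := by fun_prop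
        refine (this.tendsto D.a).eventually (eventually_lt_nhds ?_)
        have h8 : D.a.re = 0 := LimbData.axisPt_re _
        rw [h8]; simpa using by positivity
      filter_upwards [hB, c1, c2] with L a b c using ⟨a, b, c⟩
    have hN : D.c '' {L | L ∈ D.B ∧ ‖L - D.a‖ < δ ∧ 81 * D.m * L.re < δ ^ 2} ∈ 𝓝 (rt D) := by
      have : rt D = D.c D.a := rfl
      rw [this, ← hmap]
      exact image_mem_map hc
    obtain ⟨g, hg, L, ⟨hLB, hL1, hL2⟩, hLc⟩ := h _ hN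
    have hA := (ang_cOf (θ := θ) hg).1
    rw [← hLc] at hA
    have hM : D.c L ∉ MM := not_mem_MM_iff.2 hA.1
    obtain ⟨θ', hθ'⟩ := hP.ang L hLB hM
    obtain ⟨k, hk⟩ := hA.unique hθ'.1.ang
    have hply := hP.ply L hLB θ' hθ'
    rw [hk] at hply hθ'
    refine ⟨k, hθ'.2.1, hθ'.2.2, ?_⟩
    have e1 : ‖L - 2 * Real.pi * ((Circ.nu D.w D.m (θ + k) - D.k₀ : ℝ) : ℂ) * I‖ < δ := by
      refine lt_of_pow_lt_pow_left₀ 2 hδ.le (lt_of_le_of_lt hply hL2)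
    have e2 : D.a - 2 * Real.pi * ((Circ.nu D.w D.m (θ + k) - D.k₀ : ℝ) : ℂ) * I =
        ((2 * Real.pi * (D.x - (Circ.nu D.w D.m (θ + k) - D.k₀)) : ℝ) : ℂ) * I := by
      rw [Dat.a, axisPt]; push_cast; ring
    have e3 : ‖D.a - 2 * Real.pi * ((Circ.nu D.w D.m (θ + k) - D.k₀ : ℝ) : ℂ) * I‖ < 2 * δ := by
      have e4 : D.a - 2 * Real.pi * ((Circ.nu D.w D.m (θ + k) - D.k₀ : ℝ) : ℂ) * I =
          (L - 2 * Real.pi * ((Circ.nu D.w D.m (θ + k) - D.k₀ : ℝ) : ℂ) * I) - (L - D.a) := by ring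
      rw [e4]
      refine lt_of_le_of_lt (norm_sub_le _ _) ?_
      linarith
    rw [e2, norm_mul, Complex.norm_I, mul_one, Complex.norm_real, Real.norm_eq_abs, abs_mul,
      abs_of_pos hpi] at e3
    have e5 : |Circ.nu D.w D.m (θ + k) - D.k₀ - D.x| =
        |(D.x : ℝ) - (Circ.nu D.w D.m (θ + k) - D.k₀)| := by
      rw [← abs_neg]; congr 1; ring
    rw [e5]
    have hpi3 := Real.pi_gt_three
    nlinarith [abs_nonneg ((D.x : ℝ) - (Circ.nu D.w D.m (θ + k) - D.k₀))]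
  -- finitely many translates are in the strip
  set S : Set ℤ := {k : ℤ | (D.k₀ : ℝ) < Circ.nu D.w D.m (θ + k) ∧
    Circ.nu D.w D.m (θ + k) < D.k₀ + 1} with hS
  have hfin : S.Finite := by
    obtain ⟨k₁, h1, h1', -⟩ := hev 1 one_pos
    refine (Set.finite_Icc (k₁ - 2) (k₁ + 2)).subset ?_
    rintro k ⟨h2, h2'⟩
    have hm1 : (1 : ℝ) ≤ D.m := by exact_mod_cast hP.m_pos
    have key : ∀ a b : ℤ, (D.k₀ : ℝ) < Circ.nu D.w D.m (θ + a) →
        Circ.nu D.w D.m (θ + b) < D.k₀ + 1 → ¬ a + 2 ≤ b := by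
      intro a b ha hb hab
      have h3 := Circ.nu_add_two D.w (θ + a) D.m
      have h4 : Circ.nu D.w D.m (θ + a + 2) ≤ Circ.nu D.w D.m (θ + b) := by
        refine Circ.nu_mono _ _ ?_
        have : ((a + 2 : ℤ) : ℝ) ≤ b := by exact_mod_cast hab
        push_cast at this
        linarith
      linarith
    have h5 := key k k₁ h2 h1'
    have h6 := key k₁ k h1 h2'
    exact ⟨by omega, by omega⟩
  have hne : ∀ k ∈ S, 0 < |Circ.nu D.w D.m (θ + k) - D.k₀ - D.x| := by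
    intro k _
    rw [abs_pos]
    intro h0
    have h1 : Circ.nu D.w D.m (θ + k) = D.k₀ + D.x := by linarith
    obtain ⟨h2, h3⟩ := (hC.plateau (θ + k)).1 h1
    exact absurd h3 (not_le.2 (hcon k h2))
  obtain ⟨δ, hδ, hδ'⟩ : ∃ δ > 0, ∀ k ∈ S, δ ≤ |Circ.nu D.w D.m (θ + k) - D.k₀ - D.x| := by
    by_cases hemp : S.Nonempty
    · obtain ⟨k, hk, hmin⟩ := hfin.exists_minimalFor
        (fun k : ℤ => |Circ.nu D.w D.m (θ + k) - D.k₀ - D.x|) S hemp
      refine ⟨_, hne k hk, fun k' hk' => ?_⟩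
      by_contra hlt
      push Not at hlt
      exact absurd (hmin hk' hlt.le) (not_le.2 hlt)
    · refine ⟨1, one_pos, fun k hk => absurd ⟨k, hk⟩ hemp⟩
  obtain ⟨k, k1, k2, k3⟩ := hev δ hδ
  exact absurd (hδ' k ⟨k1, k2⟩) (not_le.2 k3)

/-- **G1b**: the plateau is determined by the root (modulo integers) -/
theorem plateau_unique (h2 : N2_ray) (hP : D.Par) (hC : D.Cir) (hP' : D'.Par) (hC' : D'.Cir)
    (he : rt D = rt D') : ∃ k : ℤ, D.tm = D'.tm + k ∧ D.tp = D'.tp + k := by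
  have key : ∀ {D D' : Dat}, D.Par → D.Cir → D'.Par → D'.Cir → rt D = rt D' →
      ∃ k : ℤ, D.tm ≤ D'.tm + k ∧ D'.tp + k ≤ D.tp := by
    intro D D' hP hC hP' hC' he
    obtain ⟨k, k1, k2⟩ := plateau_of_limit hP hC (θ := D'.tm) fun N hN => by
      rw [he] at hN
      obtain ⟨g, hg, hg1, -⟩ := CH.rt_mem_closure h2 hP' hC' N hN
      exact ⟨g, hg, hg1⟩
    obtain ⟨l, l1, l2⟩ := plateau_of_limit hP hC (θ := D'.tp) fun N hN => by
      rw [he] at hN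
      obtain ⟨g, hg, -, hg1⟩ := CH.rt_mem_closure h2 hP' hC' N hN
      exact ⟨g, hg, hg1⟩
    have hkl : k = l := shift_unique hP hC hP' hC' le_rfl hC'.lt.le hC'.lt.le le_rfl k1 k2 l1 l2
    exact ⟨k, k1, by rw [hkl]; exact l2⟩
  obtain ⟨k, k1, k2⟩ := key hP hC hP' hC' he
  obtain ⟨l, l1, l2⟩ := key hP' hC' hP hC he.symm
  exact ⟨k, by linarith, by linarith⟩

end Pool.Agent.Work.MLC.Cnt
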