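import Pool.Agent.Work.MLC.CapP13
import Pool.Agent.Work.MLC.CntFin6
import Pool.Agent.Work.MLC.CntL54

set_option autoImplicit false

/-! # The pieces of type I and II: topology, impressions, and the end of the proof (helper13)

`PK U V two` is the limb of `U` with its root, without the limb of `V` if `two`.
`PKok`: the hypotheses. `PK_compact`, `PK_conn`, `PK_nhds`, `PK_imp`, `PK_diam`, and `fin_pieces`:
pieces with diameters tending to zero at an angle give local connectivity. -/

namespace Pool.Agent.Work.MLC.Cap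

open Filter Topology Metric Set Complex MeasureTheory
open Pool.Agent.Work.MLC.Sat Pool.Agent.Work.MLC.Cnt

/-- nested arcs of two roots give nested limbs -/
lemma nest_of_arc {U V : Dat} (hU : U.Par) (hUC : U.Cir) (hV : V.Par) (hVC : V.Cir)
    (h1 : U.tm < V.tm) (h2 : V.tp < U.tp) : rt V ∈ Lm U := by
  have hlt := hVC.lt
  have hne : rt V ≠ rt U := by
    intro he
    obtain ⟨k, k1, k2⟩ := plateau_unique n2_ray hV hVC hU hUC he
    linarith
  exact (nest_iff hU hUC hV hVC hne).2 ⟨0, by push_cast; linarith, by push_cast; linarith⟩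

/-- the limb of `U` with its root, without the limb of `V` if `two` -/
def PK (U V : Dat) (two : Prop) : Set ℂ :=
  {z | z ∈ MM ∧ (z = rt U ∨ z ∈ Lm U) ∧ (two → z ∉ Lm V)}

/-- the hypotheses -/
structure PKok (U V : Dat) (two : Prop) : Prop where
  par : U.Par
  cir : U.Cir
  par' : two → V.Par
  cir' : two → V.Cir
  nest : two → rt V ∈ Lm U

variable {U V : Dat} {two : Prop}

open Classical in
/-- the piece as a piece of a finite family -/
lemma PKok.eq_Pc (h : PKok U V two) :
    ∃ (F : Finset (Fin 2)), Fam60 F ![U, V] ∧ IsAdr F ![U, V] {0} ∧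
      PK U V two = Pc F ![U, V] {0} ∧ (∀ i ∈ F, i = 0 ∨ two) := by
  by_cases h2 : two
  · refine ⟨Finset.univ, ⟨?_, ?_, ?_⟩, ⟨Finset.subset_univ _, ?_, ?_⟩, ?_, fun i _ => Or.inr h2⟩
    · intro i _
      fin_cases i
      · exact h.par
      · exact h.par' h2
    · intro i _
      fin_cases i
      · exact h.cir
      · exact h.cir' h2
    · intro i _ j _ hij
      have hne : rt V ≠ rt U := by
        intro he
        have h3 := h.nest h2
        rw [he] at h3
        exact rt_notMem h.par h.cir h3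
      fin_cases i <;> fin_cases j
      · rfl
      · exact absurd hij (Ne.symm hne)
      · exact absurd hij hne
      · rfl
    · intro i hi j hj hij
      rw [Finset.mem_singleton] at hi hj
      exact absurd (hi.trans hj.symm) hij
    · intro i hi j _ hij
      rw [Finset.mem_singleton] at hi
      subst hi
      fin_cases j
      · exact Finset.mem_singleton_self _
      · exact absurd hij (fun h3 => not_both h.par h.cir (h.par' h2) (h.cir' h2) (h.nest h2) h3)
    · ext z
      constructor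
      · rintro ⟨hM, hz, hz2⟩
        refine ⟨hM, fun i _ => ?_⟩
        fin_cases i
        · exact ⟨fun _ => hz, fun h3 => absurd (Finset.mem_singleton_self _) h3⟩
        · exact ⟨fun h3 => absurd (Finset.mem_singleton.1 h3) (by decide), fun _ => hz2 h2⟩
      · rintro ⟨hM, hz⟩
        refine ⟨hM, (hz 0 (Finset.mem_univ _)).1 (Finset.mem_singleton_self _), fun _ => ?_⟩
        exact (hz 1 (Finset.mem_univ _)).2 (by decide)
  · refine ⟨{0}, ⟨?_, ?_, ?_⟩, ⟨subset_rfl, ?_, ?_⟩, ?_, fun i hi => Or.inl (Finset.mem_singleton.1 hi)⟩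
    · intro i hi
      rw [Finset.mem_singleton] at hi
      subst hi
      exact h.par
    · intro i hi
      rw [Finset.mem_singleton] at hi
      subst hi
      exact h.cir
    · intro i hi j hj _
      rw [Finset.mem_singleton] at hi hj
      exact hi.trans hj.symm
    · intro i hi j hj hij
      rw [Finset.mem_singleton] at hi hj
      exact absurd (hi.trans hj.symm) hij
    · intro i hi j hj _
      exact hj
    · ext z
      constructor
      · rintro ⟨hM, hz, -⟩
        refine ⟨hM, fun i hi => ?_⟩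
        rw [Finset.mem_singleton] at hi
        subst hi
        exact ⟨fun _ => hz, fun h3 => absurd (Finset.mem_singleton_self _) h3⟩
      · rintro ⟨hM, hz⟩
        exact ⟨hM, (hz 0 (Finset.mem_singleton_self _)).1 (Finset.mem_singleton_self _),
          fun h3 => absurd h3 h2⟩

theorem PKok.compact (h : PKok U V two) : IsCompact (PK U V two) := by
  obtain ⟨F, h1, -, h3, -⟩ := h.eq_Pc
  rw [h3]
  exact isCompact_Pc h1 _

lemma PKok.rt_mem (h : PKok U V two) : rt U ∈ PK U V two :=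
  ⟨rt_mem_MM h.par, Or.inl rfl, fun h2 => not_both h.par h.cir (h.par' h2) (h.cir' h2) (h.nest h2)⟩

theorem PKok.conn (h : PKok U V two) : IsConnected (PK U V two) := by
  refine ⟨⟨_, h.rt_mem⟩, ?_⟩
  obtain ⟨F, h1, h2, h3, -⟩ := h.eq_Pc
  rw [h3]
  exact isPreconnected_Pc h1 h2

/-- the piece is a neighbourhood of its points which are no roots -/
theorem PKok.nhds (h : PKok U V two) {c : ℂ} (hc : c ∈ PK U V two) (hcU : c ≠ rt U)
    (hcV : two → c ≠ rt V) : PK U V two ∈ 𝓝[MM] c := by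
  obtain ⟨F, h1, -, h3, h4⟩ := h.eq_Pc
  rw [h3] at hc ⊢
  have h5 := Pc_open h1 hc fun i hi => by
    rcases h4 i hi with h6 | h6
    · subst h6
      exact hcU
    · fin_cases i
      · exact hcU
      · exact hcV h6
  rw [mem_nhdsWithin_iff_eventually]
  filter_upwards [h5] with w hw hwM
  exact hw hwM

/-- the impression of an angle of the piece is in the piece -/
theorem PKok.imp (h : PKok U V two) {θ : ℝ} (hθ : InA U θ)
    (hθ' : two → ∀ k : ℤ, ¬ (V.tm ≤ θ + k ∧ θ + k ≤ V.tp)) {c : ℂ} (hc : c ∈ MM)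
    (hcl : (c, θ) ∈ closure {p : ℂ × ℝ | Ang p.1 p.2}) : c ∈ PK U V two := by
  refine ⟨hc, ?_, fun h2 hL => ?_⟩
  · obtain ⟨k, h1, h2⟩ := hθ
    have h3 : c ∈ closure (Lm U ∪ {c' | ∃ θ, Ang c' θ ∧ U.tm ≤ θ ∧ θ ≤ U.tp}) := by
      rw [mem_closure_iff_frequently]
      have h4 : Tendsto (fun p : ℂ × ℝ => p.2 + k) (𝓝 (c, θ)) (𝓝 (θ + k)) :=
        Continuous.tendsto (by fun_prop) (c, θ)
      have h5 := ((mem_closure_iff_frequently.1 hcl).and_eventually
        ((h4.eventually (lt_mem_nhds h1)).and (h4.eventually (gt_mem_nhds h2))))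
      have h6 := (continuous_fst.tendsto (c, θ)).frequently (p := fun c' =>
        c' ∈ Lm U ∪ {c' | ∃ θ, Ang c' θ ∧ U.tm ≤ θ ∧ θ ≤ U.tp}) (h5.mono fun p hp =>
          Or.inr ⟨p.2 + k, Ang.add_int hp.1 k, hp.2.1.le, hp.2.2.le⟩)
      exact h6
    rcases n5_closed U h.par h.cir c hc h3 with h4 | h4
    · exact Or.inr h4
    · exact Or.inl h4
  · obtain ⟨k, h1, h3⟩ := imp_mem (h.par' h2) (h.cir' h2) hL hcl
    exact hθ' h2 k ⟨h1, h3⟩

/-- the pieces which contain a given root are not small -/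
theorem PK_diam {D : Dat} (hP : D.Par) (hC : D.Cir) : ∃ η > 0, ∀ (U V : Dat) (two : Prop),
    PKok U V two → rt D ∈ PK U V two → η ≤ diam (PK U V two) := by
  obtain ⟨η, hη, h⟩ := piece_diam15 hP hC
  refine ⟨η, hη, fun U V two hok hr => ?_⟩
  obtain ⟨F, h1, h2, h3, -⟩ := hok.eq_Pc
  rw [h3] at hr ⊢
  exact h _ F _ h1 _ hr

/-- **the end of the proof**: pieces at the angle `θ` with diameters tending to zero -/
theorem fin_pieces {θ : ℝ} (U V : ℕ → Dat) (two : ℕ → Prop) (hok : ∀ n, PKok (U n) (V n) (two n))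
    (hθ : ∀ n, InA (U n) θ) (hθ' : ∀ n, two n → ∀ k : ℤ, ¬ ((V n).tm ≤ θ + k ∧ θ + k ≤ (V n).tp))
    (hd : ∀ ε : ℝ, 0 < ε → ∃ n, diam (PK (U n) (V n) (two n)) < ε) :
    ∃ c₀ ∈ MM,
      Tendsto Psi (𝓝[{z | 1 < ‖z‖}] (Complex.exp (2 * Real.pi * θ * Complex.I))) (𝓝 c₀) ∧
      LCat MM c₀ := by
  set K : ℕ → Set ℂ := fun n => PK (U n) (V n) (two n) with hK
  have hKb : ∀ j, Bornology.IsBounded (K j) := fun j => (hok j).compact.isBounded
  have himp : ∀ c ∈ MM, (c, θ) ∈ closure {p : ℂ × ℝ | Ang p.1 p.2} → ∀ j, c ∈ K j :=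
    fun c hc hcl j => (hok j).imp (hθ j) (hθ' j) hc hcl
  have huniq : ∀ c c' : ℂ, (∀ j, c ∈ K j) → (∀ j, c' ∈ K j) → c = c' := by
    intro c c' h h'
    by_contra hne
    have hdd : 0 < dist c c' := dist_pos.2 hne
    obtain ⟨j, hj⟩ := hd _ hdd
    have h1 := dist_le_diam_of_mem (hKb j) (h j) (h' j)
    linarith
  have hseq : ∀ (g t : ℕ → ℝ) (c : ℂ), (∀ n, 0 < g n) → Tendsto g atTop (𝓝 0) →
      Tendsto t atTop (𝓝 θ) →
      Tendsto (fun n => cOf ((g n : ℂ) + 2 * Real.pi * t n * Complex.I)) atTop (𝓝 c) →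
      ∀ j, c ∈ K j := by
    intro g t c hg hg0 ht hc
    refine himp c ?_ ?_
    · refine mem_MM_of_tendsto (u := fun n => (g n : ℂ) + 2 * Real.pi * t n * Complex.I)
        (fun n => ?_) ?_ hc
      · have := CH.re_pt (g n) (t n)
        rw [this]; exact hg n
      · refine hg0.congr fun n => ?_
        exact (CH.re_pt (g n) (t n)).symm
    · have h1 : Tendsto (fun n => (cOf ((g n : ℂ) + 2 * Real.pi * t n * Complex.I), t n)) atTop
          (𝓝 (c, θ)) := hc.prodMk_nhds ht
      refine mem_closure_of_tendsto h1 (Eventually.of_forall fun n => ?_)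
      exact (ang_cOf (hg n)).1
  -- a limit point
  obtain ⟨c₀, φ, hφ, hc₀⟩ := exists_limit_cOf
    (u := fun n => ((1 / ((n : ℝ) + 1) : ℝ) : ℂ) + 2 * Real.pi * θ * Complex.I)
    (fun n => by rw [CH.re_pt]; positivity)
    (fun n => by
      rw [CH.re_pt, div_le_one (by positivity)]
      linarith [(Nat.cast_nonneg n : (0 : ℝ) ≤ n)])
  have hc₀K : ∀ j, c₀ ∈ K j := by
    refine hseq (fun n => 1 / ((φ n : ℝ) + 1)) (fun _ => θ) c₀ (fun n => by positivity) ?_
      tendsto_const_nhds hc₀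
    exact tendsto_one_div_add_atTop_nhds_zero_nat.comp hφ.tendsto_atTop
  have hc₀M : c₀ ∈ MM := (hc₀K 0).1
  refine ⟨c₀, hc₀M, ?_, ?_⟩
  · refine tendsto_Psi_of_unique fun g t c hg hg0 ht hc => ?_
    exact huniq c c₀ (hseq g t c hg hg0 ht hc) hc₀K
  · -- `c₀` is no root
    have hnr : ∀ D : Dat, D.Par → D.Cir → c₀ ≠ rt D := by
      intro D hP hC hi
      obtain ⟨η, hη, hbig⟩ := PK_diam hP hC
      obtain ⟨j, hj⟩ := hd η hη
      have h1 := hbig _ _ _ (hok j) (by rw [← hi]; exact hc₀K j)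
      linarith
    intro W hW
    obtain ⟨ε, hε, hεW⟩ := Metric.mem_nhds_iff.1 hW
    obtain ⟨j, hj⟩ := hd ε hε
    refine ⟨K j, fun z hz => ⟨hz.1, hεW ?_⟩, (hok j).compact, (hok j).conn,
      (hok j).nhds (hc₀K j) (hnr _ (hok j).par (hok j).cir)
        fun h2 => hnr _ ((hok j).par' h2) ((hok j).cir' h2)⟩
    have h1 := dist_le_diam_of_mem (hKb j) hz (hc₀K j)
    rw [mem_ball]
    exact h1.trans_lt hj

end Pool.Agent.Work.MLC.Cap
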