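import Mathlib

set_option autoImplicit false

/-! # Laminar families of arcs of the circle: gaps and classes (helper24), module G6

`Lam a b`: the arcs `(a i, b i)` mod 1 are nested or disjoint, without common ends (up to equality of
arcs), with finitely many ends mod 1. `IsGap`: the complementary arcs of the set of ends. Two gaps
are in the same class (`SameCls`) if they are contained in the same arcs `i`. -/

namespace Pool.Agent.Work.MLC.Cnt

open Set

section lam

variable {ι : Type*} {a b : ι → ℝ}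

/-- the ends of the arcs, with all translates -/
def ends (a b : ι → ℝ) : Set ℝ := {t | ∃ (i : ι) (k : ℤ), t = a i + k ∨ t = b i + k}

/-- the arcs `i` and `j` are equal mod 1 -/
def EqArc (a b : ι → ℝ) (i j : ι) : Prop := ∃ k : ℤ, a j = a i + k ∧ b j = b i + k

/-- a laminar family of arcs `(a i, b i)` mod 1 -/
structure Lam (a b : ι → ℝ) : Prop where
  lt : ∀ i, a i < b i
  lt_one : ∀ i, b i < a i + 1
  lam : ∀ i j, EqArc a b i j ∨ ∀ k : ℤ, (a i < a j + k ∧ b j + k < b i) ∨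
      ((a j + k < a i ∨ b i < a j + k) ∧ (b j + k < a i ∨ b i < b j + k))
  fin : (ends a b ∩ Ico 0 1).Finite

/-- the gaps, normalised -/
structure IsGap (a b : ι → ℝ) (J : ℝ × ℝ) : Prop where
  nn : 0 ≤ J.1
  lt_one : J.1 < 1
  lt : J.1 < J.2
  left : J.1 ∈ ends a b
  right : J.2 ∈ ends a b
  emp : ∀ t ∈ ends a b, J.1 < t → t < J.2 → False

/-- the gap `J` is inside of the arc `i` -/
def InArc (a b : ι → ℝ) (i : ι) (J : ℝ × ℝ) : Prop := ∃ k : ℤ, a i + k ≤ J.1 ∧ J.2 ≤ b i + k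

/-- the gaps `J`, `J'` are in the same arcs -/
def SameCls (a b : ι → ℝ) (J J' : ℝ × ℝ) : Prop := ∀ i, InArc a b i J ↔ InArc a b i J'

/-- the point `t` is in the arc `i` -/
def PtIn (a b : ι → ℝ) (i : ι) (t : ℝ) : Prop := ∃ k : ℤ, a i < t + k ∧ t + k < b i

lemma ends_add {t : ℝ} (h : t ∈ ends a b) (n : ℤ) : t + n ∈ ends a b := by
  obtain ⟨i, k, h | h⟩ := h
  · exact ⟨i, k + n, Or.inl (by rw [h]; push_cast; ring)⟩
  · exact ⟨i, k + n, Or.inr (by rw [h]; push_cast; ring)⟩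

lemma ends_sub {t : ℝ} (h : t ∈ ends a b) (n : ℤ) : t - n ∈ ends a b := by
  have := ends_add h (-n)
  push_cast at this
  rwa [← sub_eq_add_neg] at this

lemma left_end (i : ι) (k : ℤ) : a i + k ∈ ends a b := ⟨i, k, Or.inl rfl⟩

lemma right_end (i : ι) (k : ℤ) : b i + k ∈ ends a b := ⟨i, k, Or.inr rfl⟩

namespace IsGap

variable {J J' : ℝ × ℝ}

lemma eq_of_left (h : IsGap a b J) (h' : IsGap a b J') (h1 : J.1 = J'.1) : J = J' := by
  refine Prod.ext h1 ?_
  rcases lt_trichotomy J.2 J'.2 with h2 | h2 | h2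
  · exact (h'.emp J.2 h.right (h1 ▸ h.lt) h2).elim
  · exact h2
  · exact (h.emp J'.2 h'.right (h1 ▸ h'.lt) h2).elim

lemma eq_of_int (h : IsGap a b J) (h' : IsGap a b J') {k : ℤ} (h1 : J.1 = J'.1 + k) : J = J' := by
  refine h.eq_of_left h' ?_
  have h2 : (-1 : ℝ) < k := by linarith [h.nn, h'.lt_one]
  have h3 : (k : ℝ) < 1 := by linarith [h'.nn, h.lt_one]
  have h4 : (-1 : ℤ) < k := by exact_mod_cast h2
  have h5 : k < (1 : ℤ) := by exact_mod_cast h3
  have h6 : k = 0 := by omega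
  rw [h1, h6]; simp

/-- the length is at most one -/
lemma le_one (h : IsGap a b J) : J.2 ≤ J.1 + 1 := by
  by_contra hcon
  push Not at hcon
  have h1 := ends_add h.left 1
  push_cast at h1
  exact h.emp _ h1 (by linarith) hcon

lemma inArc_of (h : IsGap a b J) {i : ι} {k : ℤ} (h1 : a i + k ≤ J.1) (h2 : J.1 < b i + k) :
    InArc a b i J := by
  refine ⟨k, h1, ?_⟩
  by_contra hcon
  push Not at hcon
  exact h.emp _ (right_end i k) h2 hcon

/-- a gap which meets an arc is inside of the arc -/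
lemma inArc_of_meet (h : IsGap a b J) {i : ι} {k : ℤ} {u : ℝ} (h1 : a i + k < u) (h2 : u < b i + k)
    (h3 : J.1 < u) (h4 : u < J.2) : InArc a b i J := by
  refine ⟨k, ?_, ?_⟩
  · by_contra hcon
    push Not at hcon
    exact h.emp _ (left_end i k) hcon (h1.trans h4)
  · by_contra hcon
    push Not at hcon
    exact h.emp _ (right_end i k) (h3.trans h2) hcon

/-- membership of the points of a gap in an arc -/
lemma ptIn_iff (h : IsGap a b J) {i : ι} {u : ℝ} (h3 : J.1 < u) (h4 : u < J.2) :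
    PtIn a b i u ↔ InArc a b i J := by
  constructor
  · rintro ⟨k, h1, h2⟩
    refine h.inArc_of_meet (k := -k) (u := u) ?_ ?_ h3 h4
    · push_cast; linarith
    · push_cast; linarith
  · rintro ⟨k, h1, h2⟩
    refine ⟨-k, ?_, ?_⟩
    · push_cast; linarith
    · push_cast; linarith

/-- the gaps are disjoint mod 1 -/
lemma eq_of_meet (h : IsGap a b J) (h' : IsGap a b J') {k : ℤ} {u : ℝ} (h1 : J.1 < u) (h2 : u < J.2)
    (h3 : J'.1 + k < u) (h4 : u < J'.2 + k) : J = J' := by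
  refine h.eq_of_int h' (k := k) ?_
  rcases lt_trichotomy J.1 (J'.1 + k) with h5 | h5 | h5
  · exact (h.emp _ (ends_add h'.left k) h5 (h3.trans h2)).elim
  · exact h5
  · refine (h'.emp _ (ends_sub h.left k) ?_ ?_).elim <;> linarith

lemma disjoint (h : IsGap a b J) (h' : IsGap a b J') (hne : J ≠ J') (k : ℤ) :
    Disjoint (Ioo J.1 J.2) (Ioo (J'.1 + k) (J'.2 + k)) := by
  rw [Set.disjoint_left]
  rintro u ⟨h1, h2⟩ ⟨h3, h4⟩
  exact hne (h.eq_of_meet h' h1 h2 h3 h4)

end IsGap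

/-! ### existence -/

lemma ends_fin (h : Lam a b) (u v : ℝ) : (ends a b ∩ Icc u v).Finite := by
  have h1 : ((ends a b ∩ Ico 0 1) ×ˢ (Icc ⌊u⌋ ⌊v⌋ : Set ℤ)).Finite :=
    h.fin.prod (Set.finite_Icc _ _)
  refine Set.Finite.of_injOn (f := fun t : ℝ => (Int.fract t, ⌊t⌋)) ?_ ?_ h1
  · rintro t ⟨h2, h3, h4⟩
    refine ⟨⟨?_, Int.fract_nonneg t, Int.fract_lt_one t⟩, Int.floor_le_floor h3,
      Int.floor_le_floor h4⟩
    exact ends_sub h2 ⌊t⌋
  · intro t _ t' _ h2
    simp only [Prod.mk.injEq] at h2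
    rw [← Int.floor_add_fract t, ← Int.floor_add_fract t', h2.1, h2.2]

/-- every angle which is no end is in a gap -/
theorem exists_gap (h : Lam a b) (hne : (ends a b).Nonempty) {θ : ℝ} (hθ : θ ∉ ends a b) :
    ∃ J, IsGap a b J ∧ ∃ k : ℤ, J.1 + k < θ ∧ θ < J.2 + k := by
  obtain ⟨e, he⟩ := hne
  -- the next end on the left
  obtain ⟨s, ⟨hs1, hs2, hs3⟩, hsmax⟩ : ∃ s ∈ {t | t ∈ ends a b ∧ θ - 1 ≤ t ∧ t < θ},
      ∀ t ∈ {t | t ∈ ends a b ∧ θ - 1 ≤ t ∧ t < θ}, t ≤ s := by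
    refine Set.exists_max_image _ id ?_ ?_
    · refine (ends_fin h (θ - 1) θ).subset ?_
      rintro t ⟨h1, h2, h3⟩
      exact ⟨h1, h2, h3.le⟩
    · refine ⟨e + ⌈θ - 1 - e⌉, ends_add he _, ?_, ?_⟩
      · have := Int.le_ceil (θ - 1 - e)
        linarith
      · have := Int.ceil_lt_add_one (θ - 1 - e)
        linarith
  obtain ⟨t, ⟨ht1, ht2, ht3⟩, htmin⟩ : ∃ t ∈ {t | t ∈ ends a b ∧ θ < t ∧ t ≤ θ + 1},
      ∀ t' ∈ {t | t ∈ ends a b ∧ θ < t ∧ t ≤ θ + 1}, t ≤ t' := by
    refine Set.exists_min_image _ id ?_ ?_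
    · refine (ends_fin h θ (θ + 1)).subset ?_
      rintro t ⟨h1, h2, h3⟩
      exact ⟨h1, h2.le, h3⟩
    · refine ⟨e + ⌊θ + 1 - e⌋, ends_add he _, ?_, ?_⟩
      · have := Int.lt_floor_add_one (θ + 1 - e)
        linarith
      · have := Int.floor_le (θ + 1 - e)
        linarith
  refine ⟨(s - ⌊s⌋, t - ⌊s⌋), ⟨?_, ?_, ?_, ends_sub hs1 _, ends_sub ht1 _, ?_⟩, ⌊s⌋, ?_, ?_⟩
  · exact Int.fract_nonneg s
  · exact Int.fract_lt_one s
  · show s - (⌊s⌋ : ℝ) < t - ⌊s⌋
    linarith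
  · intro u hu h1 h2
    have h3 : u + ⌊s⌋ ∈ ends a b := ends_add hu _
    have h1' : s - (⌊s⌋ : ℝ) < u := h1
    have h2' : u < t - (⌊s⌋ : ℝ) := h2
    rcases lt_trichotomy (u + ⌊s⌋) θ with h4 | h4 | h4
    · have := hsmax _ ⟨h3, by linarith, h4⟩
      linarith
    · rw [h4] at h3
      exact hθ h3
    · have := htmin _ ⟨h3, h4, by linarith⟩
      linarith
  · show s - (⌊s⌋ : ℝ) + ⌊s⌋ < θ
    linarith
  · show θ < t - (⌊s⌋ : ℝ) + ⌊s⌋
    linarith

lemma finite_gaps (h : Lam a b) : {J | IsGap a b J}.Finite := by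
  refine Set.Finite.of_injOn (f := Prod.fst) ?_ ?_ h.fin
  · intro J hJ
    exact ⟨hJ.left, hJ.nn, hJ.lt_one⟩
  · intro J hJ J' hJ' h1
    exact IsGap.eq_of_left hJ hJ' h1

lemma SameCls.refl (J : ℝ × ℝ) : SameCls a b J J := fun _ => Iff.rfl

lemma SameCls.symm {J J' : ℝ × ℝ} (h : SameCls a b J J') : SameCls a b J' J := fun i => (h i).symm

lemma SameCls.trans {J J' J'' : ℝ × ℝ} (h : SameCls a b J J') (h' : SameCls a b J' J'') :
    SameCls a b J J'' := fun i => (h i).trans (h' i)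

/-! ### the number of gaps of a class -/

/-- a class has at most one gap that begins at the left end of an arc -/
lemma left_unique (h : Lam a b) {J J' : ℝ × ℝ} (hJ : IsGap a b J) (hJ' : IsGap a b J')
    (hs : SameCls a b J J') {i j : ι} {k k' : ℤ} (h1 : J.1 = a i + k) (h2 : J'.1 = a j + k') :
    J = J' := by
  have hi : InArc a b i J := hJ.inArc_of h1.ge (by rw [h1]; linarith [h.lt i])
  have hj : InArc a b j J' := hJ'.inArc_of h2.ge (by rw [h2]; linarith [h.lt j])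
  obtain ⟨p, hp1, hp2⟩ := (hs i).1 hi
  obtain ⟨p', hp1', hp2'⟩ := (hs j).2 hj
  rcases h.lam i j with ⟨l, hl, -⟩ | hlam
  · refine hJ.eq_of_int hJ' (k := k - l - k') ?_
    rw [h1, h2, hl]; push_cast; ring
  rcases h.lam j i with ⟨l, hl, -⟩ | hlam'
  · refine hJ.eq_of_int hJ' (k := l + k - k') ?_
    rw [h1, h2, hl]; push_cast; ring
  exfalso
  have hJl := hJ.lt
  have hJl' := hJ'.lt
  rcases hlam (k' - p) with ⟨g1, g2⟩ | ⟨g1, -⟩
  · rcases hlam' (k - p') with ⟨g3, g4⟩ | ⟨g3, -⟩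
    · push_cast at g1 g2 g3 g4
      have e1 : (0 : ℝ) < ((k' - p + (k - p') : ℤ) : ℝ) := by push_cast; linarith
      have e2 : ((k' - p + (k - p') : ℤ) : ℝ) < 0 := by push_cast; linarith
      linarith
    · push_cast at g3
      rcases g3 with g3 | g3 <;> linarith
  · push_cast at g1
    rcases g1 with g1 | g1 <;> linarith

/-- the left end of `i` is in the arc `l`: then `i` is inside of `l` -/
lemma nested_of_ptIn (h : Lam a b) {i l : ι} {n : ℤ} (h1 : a l < a i + n) (h2 : a i + n < b l) :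
    b i + n < b l := by
  rcases h.lam l i with ⟨k, hk, -⟩ | hlam
  · exfalso
    rw [hk] at h1 h2
    have h3 : (0 : ℝ) < ((k + n : ℤ) : ℝ) := by push_cast; linarith
    have h4 : ((k + n : ℤ) : ℝ) < 1 := by push_cast; linarith [h.lt_one l]
    have h5 : (0 : ℤ) < k + n := by exact_mod_cast h3
    have h6 : k + n < (1 : ℤ) := by exact_mod_cast h4
    omega
  rcases hlam n with ⟨-, g⟩ | ⟨g, -⟩
  · exact g
  · rcases g with g | g <;> linarith

/-- if the right end of `j` is in the half open arc `l` then `j` is inside of `l` -/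
lemma ptIn_of_right (h : Lam a b) {j l : ι} {n : ℤ} (h1 : a l ≤ b j + n) (h2 : b j + n < b l) :
    PtIn a b l (a j) := by
  rcases h.lam l j with ⟨k, -, hk⟩ | hlam
  · exfalso
    rw [hk] at h1 h2
    have h3 : ((k + n : ℤ) : ℝ) < 0 := by push_cast; linarith
    have h4 : (-1 : ℝ) < ((k + n : ℤ) : ℝ) := by push_cast; linarith [h.lt_one l]
    have h5 : k + n < (0 : ℤ) := by exact_mod_cast h3
    have h6 : (-1 : ℤ) < k + n := by exact_mod_cast h4
    omega
  rcases hlam n with ⟨g, -⟩ | ⟨-, g⟩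
  · exact ⟨n, g, by linarith [h.lt j]⟩
  · rcases g with g | g
    · linarith
    · linarith

/-- two arcs that are adjacent on the left to gaps of one class are separated by no arc -/
lemma ptIn_right (h : Lam a b) {J J' : ℝ × ℝ} (hJ : IsGap a b J)
    (hs : SameCls a b J J') {i j l : ι} {k k' : ℤ} (h1 : J.1 = b i + k) (h2 : J'.1 = b j + k')
    (hJ' : IsGap a b J') (hl : PtIn a b l (a i)) : PtIn a b l (a j) := by
  obtain ⟨n, hn1, hn2⟩ := hl
  have h3 := nested_of_ptIn h hn1 hn2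
  have hlJ : InArc a b l J := hJ.inArc_of (k := k - n) (by
    rw [h1]; push_cast; linarith [h.lt i]) (by rw [h1]; push_cast; linarith)
  obtain ⟨p, hp1, hp2⟩ := (hs l).1 hlJ
  have hlt := hJ'.lt
  refine ptIn_of_right h (n := k' - p) ?_ ?_
  · push_cast; linarith
  · push_cast; linarith

/-- **the number of gaps of a class** -/
theorem card_class (h : Lam a b) {κ : Type*} (ℓ : ι → κ) (K : Finset κ) (hK : ∀ i, ℓ i ∈ K)
    (hsep : ∀ i j, ℓ i = ℓ j → ¬ EqArc a b i j →
      ∃ l, (PtIn a b l (a i) ∧ ¬ PtIn a b l (a j)) ∨ (PtIn a b l (a j) ∧ ¬ PtIn a b l (a i)))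
    (J₀ : ℝ × ℝ) : {J | IsGap a b J ∧ SameCls a b J₀ J}.ncard ≤ K.card + 1 := by
  classical
  set g : ℝ × ℝ → Option κ := fun J =>
    if ∃ (i : ι) (k : ℤ), J.1 = a i + k then none
    else if h : ∃ (i : ι) (k : ℤ), J.1 = b i + k then some (ℓ h.choose) else none with hg
  have hmaps : ∀ J ∈ {J | IsGap a b J ∧ SameCls a b J₀ J},
      g J ∈ ((insert none (K.image some) : Finset (Option κ)) : Set (Option κ)) := by
    intro J _
    simp only [hg]
    split_ifs with h1 h2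
    · simp
    · simp only [Finset.coe_insert, Finset.coe_image, mem_insert_iff, mem_image, Finset.mem_coe]
      exact Or.inr ⟨_, hK _, rfl⟩
    · simp
  have hinj : InjOn g {J | IsGap a b J ∧ SameCls a b J₀ J} := by
    rintro J ⟨hJ, hc⟩ J' ⟨hJ', hc'⟩ hgg
    have hs : SameCls a b J J' := hc.symm.trans hc'
    simp only [hg] at hgg
    by_cases h1 : ∃ (i : ι) (k : ℤ), J.1 = a i + k
    · by_cases h1' : ∃ (i : ι) (k : ℤ), J'.1 = a i + k
      · obtain ⟨i, k, hik⟩ := h1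
        obtain ⟨j, k', hjk⟩ := h1'
        exact left_unique h hJ hJ' hs hik hjk
      · exfalso
        have h2' : ∃ (i : ι) (k : ℤ), J'.1 = b i + k := by
          obtain ⟨i, k, h3 | h3⟩ := hJ'.left
          · exact absurd ⟨i, k, h3⟩ h1'
          · exact ⟨i, k, h3⟩
        rw [if_pos h1, if_neg h1', dif_pos h2'] at hgg
        exact absurd hgg (by simp)
    · have h2 : ∃ (i : ι) (k : ℤ), J.1 = b i + k := by
        obtain ⟨i, k, h3 | h3⟩ := hJ.left
        · exact absurd ⟨i, k, h3⟩ h1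
        · exact ⟨i, k, h3⟩
      by_cases h1' : ∃ (i : ι) (k : ℤ), J'.1 = a i + k
      · rw [if_neg h1, if_pos h1', dif_pos h2] at hgg
        exact absurd hgg (by simp)
      · have h2' : ∃ (i : ι) (k : ℤ), J'.1 = b i + k := by
          obtain ⟨i, k, h3 | h3⟩ := hJ'.left
          · exact absurd ⟨i, k, h3⟩ h1'
          · exact ⟨i, k, h3⟩
        rw [if_neg h1, if_neg h1', dif_pos h2, dif_pos h2', Option.some.injEq] at hgg
        obtain ⟨k, hk⟩ := h2.choose_spec
        obtain ⟨k', hk'⟩ := h2'.choose_spec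
        by_cases he : EqArc a b h2.choose h2'.choose
        · obtain ⟨l, -, hl⟩ := he
          refine hJ.eq_of_int hJ' (k := k - l - k') ?_
          rw [hk, hk', hl]; push_cast; ring
        · exfalso
          obtain ⟨l, ⟨g1, g2⟩ | ⟨g1, g2⟩⟩ := hsep _ _ hgg he
          · exact g2 (ptIn_right h hJ hs hk hk' hJ' g1)
          · exact g2 (ptIn_right h hJ' hs.symm hk' hk hJ g1)
  have h1 := Set.ncard_le_ncard_of_injOn g hmaps hinj (Finset.finite_toSet _)
  refine h1.trans ?_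
  rw [Set.ncard_coe_finset]
  exact (Finset.card_insert_le _ _).trans (Nat.add_le_add_right Finset.card_image_le 1)

/-- for finitely many arcs the ends are finite mod 1 -/
lemma ends_finite [Finite ι] (a b : ι → ℝ) : (ends a b ∩ Ico 0 1).Finite := by
  have h1 : ((Set.range fun i => Int.fract (a i)) ∪ Set.range fun i => Int.fract (b i)).Finite :=
    (Set.finite_range _).union (Set.finite_range _)
  refine h1.subset ?_
  rintro t ⟨⟨i, k, h | h⟩, h2, h3⟩
  · left
    refine ⟨i, ?_⟩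
    show Int.fract (a i) = t
    have h4 : Int.fract t = t := Int.fract_eq_self.2 ⟨h2, h3⟩
    rw [← h4, h, Int.fract_add_intCast]
  · right
    refine ⟨i, ?_⟩
    show Int.fract (b i) = t
    have h4 : Int.fract t = t := Int.fract_eq_self.2 ⟨h2, h3⟩
    rw [← h4, h, Int.fract_add_intCast]

/-- the two kinds of gaps: the left end is a left end or a right end -/
lemma IsGap.left_cases {J : ℝ × ℝ} (hJ : IsGap a b J) :
    (∃ (i : ι) (k : ℤ), J.1 = a i + k) ∨ ∃ (i : ι) (k : ℤ), J.1 = b i + k := by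
  obtain ⟨i, k, h | h⟩ := hJ.left
  · exact Or.inl ⟨i, k, h⟩
  · exact Or.inr ⟨i, k, h⟩

lemma IsGap.right_cases {J : ℝ × ℝ} (hJ : IsGap a b J) :
    (∃ (i : ι) (k : ℤ), J.2 = a i + k) ∨ ∃ (i : ι) (k : ℤ), J.2 = b i + k := by
  obtain ⟨i, k, h | h⟩ := hJ.right
  · exact Or.inl ⟨i, k, h⟩
  · exact Or.inr ⟨i, k, h⟩

end lam

/-! ### the labels `(m, x)` of level `N` -/

/-- the pairs (period of the parent, rotation number) of level `N` -/
def labels (N : ℕ) : Finset (ℕ × ℚ) :=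
  (Finset.Icc 1 N) ×ˢ ((Finset.Icc 1 N ×ˢ Finset.Icc 1 N).image fun p : ℕ × ℕ => (p.1 : ℚ) / p.2)

lemma card_labels (N : ℕ) : (labels N).card ≤ N ^ 3 := by
  unfold labels
  rw [Finset.card_product]
  calc (Finset.Icc 1 N).card *
        ((Finset.Icc 1 N ×ˢ Finset.Icc 1 N).image fun p : ℕ × ℕ => (p.1 : ℚ) / p.2).card
      ≤ (Finset.Icc 1 N).card * (Finset.Icc 1 N ×ˢ Finset.Icc 1 N).card :=
        Nat.mul_le_mul_left _ Finset.card_image_le
    _ = N ^ 3 := by rw [Finset.card_product]; simp; ring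

lemma mem_labels {N m : ℕ} {x : ℚ} (hm : 0 < m) (hmN : m ≤ N) (hx0 : 0 < x) (hx1 : x < 1)
    (hxN : x.den ≤ N) : (m, x) ∈ labels N := by
  unfold labels
  rw [Finset.mem_product]
  refine ⟨Finset.mem_Icc.2 ⟨hm, hmN⟩, ?_⟩
  rw [Finset.mem_image]
  have h1 : 0 < x.num := Rat.num_pos.2 hx0
  have h2 : x.num < x.den := by
    have h3 : (x.num : ℚ) / x.den < 1 := by rw [Rat.num_div_den]; exact hx1
    have h4 : (0 : ℚ) < x.den := by exact_mod_cast x.pos
    rw [div_lt_one h4] at h3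
    exact_mod_cast h3
  have h5 : ((x.num.toNat : ℕ) : ℤ) = x.num := Int.toNat_of_nonneg h1.le
  refine ⟨(x.num.toNat, x.den), ?_, ?_⟩
  · rw [Finset.mem_product, Finset.mem_Icc, Finset.mem_Icc]
    have := x.pos
    refine ⟨⟨?_, ?_⟩, ?_, hxN⟩
    · show 1 ≤ x.num.toNat
      omega
    · show x.num.toNat ≤ N
      omega
    · exact this
  · show ((x.num.toNat : ℕ) : ℚ) / (x.den : ℚ) = x
    have h6 : ((x.num.toNat : ℕ) : ℚ) = (x.num : ℚ) := by
      have : (((x.num.toNat : ℕ) : ℤ) : ℚ) = (x.num : ℚ) := by rw [h5]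
      exact_mod_cast this
    rw [h6, Rat.num_div_den]

end Pool.Agent.Work.MLC.Cnt
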