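import Pool.Agent.Work.MLC.Cnt0

set_option autoImplicit false

/-! # Theorem N, module N2 (helper15): the ends of the two rays are in the gate -/

namespace Pool.Agent.Work.MLC.Cnt

open Filter Topology Metric Set Complex MeasureTheory
open Pool.Agent.Work.MLC.Sat

theorem gR_pos15 {D : Dat} (hP : D.Par) : 0 < gR D.m D.x := by
  have hx0 : (0 : ℝ) < D.x := by exact_mod_cast hP.x_pos
  have hx1 : (D.x : ℝ) < 1 := by exact_mod_cast hP.x_lt
  have hm : (0 : ℝ) < D.m := by exact_mod_cast hP.m_pos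
  have h5 : 0 < min (D.x : ℝ) (1 - D.x) := lt_min hx0 (by linarith)
  unfold gR
  positivity

theorem gR_le15 {D : Dat} (hP : D.Par) : gR D.m D.x ≤ 1 / 4 := by
  have hx0 : (0 : ℝ) < D.x := by exact_mod_cast hP.x_pos
  have hx1 : (D.x : ℝ) < 1 := by exact_mod_cast hP.x_lt
  have hm : (1 : ℝ) ≤ D.m := by exact_mod_cast hP.m_pos
  have h5 : 0 < min (D.x : ℝ) (1 - D.x) := lt_min hx0 (by linarith)
  have h6 : min (D.x : ℝ) (1 - D.x) ≤ 1 := (min_le_left _ _).trans hx1.le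
  have h7 : (min (D.x : ℝ) (1 - D.x)) ^ 2 ≤ 1 := pow_le_one₀ h5.le h6
  unfold gR
  rw [div_le_iff₀ (by linarith)]
  nlinarith

/-- at an end of the plateau the point of the parameter ray at a small potential is in the image of
the disc of radius `s` -/
theorem ray_mem15 {D : Dat} (hP : D.Par) {s g t : ℝ} (hs : 0 < s) (hs' : s ≤ sG D) (hg : 0 < g)
    (hbig : 130000 * (D.m : ℝ) ^ 3 * D.x.den ≤ s ^ 4 * (-Real.log g))
    (ht : Circ.nu D.w D.m t = D.k₀ + D.x)
    (hend : ∀ s > 0, Circ.nu D.w D.m (t + s) ≠ D.k₀ + D.x ∨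
      Circ.nu D.w D.m (t - s) ≠ D.k₀ + D.x) :
    cOf ((g : ℂ) + 2 * Real.pi * t * I) ∈ D.c '' closedBall D.a s := by
  have hmn := hP.m_pos
  have hQn : 0 < D.x.den := D.x.den_pos
  have hm1 : (1 : ℝ) ≤ D.m := by exact_mod_cast hmn
  have hQ1 : (1 : ℝ) ≤ D.x.den := by exact_mod_cast hQn
  have hx0 : (0 : ℝ) < D.x := by exact_mod_cast hP.x_pos
  have hx1 : (D.x : ℝ) < 1 := by exact_mod_cast hP.x_lt
  have hgR := gR_pos15 hP
  have hgR4 := gR_le15 hP
  have hs8 : s ≤ gR D.m D.x / 8 := hs'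
  have hs1 : s ≤ 1 := by linarith
  have hs4 : s ^ 4 ≤ 1 := pow_le_one₀ hs.le hs1
  -- the rational number
  have hPQ : ((D.k₀ * D.x.den + D.x.num : ℤ) : ℝ) / D.x.den = D.k₀ + D.x := by
    have hQ0 : (D.x.den : ℝ) ≠ 0 := by positivity
    push_cast
    rw [add_div, mul_div_cancel_right₀ _ hQ0]
    congr 1
    exact (Rat.cast_def D.x).symm
  -- the exterior point
  set ζ : ℂ := (g : ℂ) + 2 * Real.pi * t * I with hζ
  have hζ' : ζ = (g : ℂ) + ((2 * Real.pi * t : ℝ) : ℂ) * I := by rw [hζ]; push_cast; ring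
  have hre : ζ.re = g := by rw [hζ', add_re, ofReal_re, re_ofReal_mul, I_re]; ring
  have him : ζ.im / (2 * Real.pi) = t := by
    have hpi := Real.pi_pos
    rw [hζ', add_im, ofReal_im, im_ofReal_mul, I_im]; field_simp; ring
  have hE := Pri.aW_spec (n := D.m) (w := D.w) hmn hP.bits (ζ := ζ) (by rw [hre]; exact hg)
  rw [him] at hE
  set b := Pri.aW D.m D.w ζ with hb
  have hG : G (cOf ζ) (cOf ζ) = g := by rw [hζ]; exact (ang_cOf hg).2
  have hlog : 130000 * (D.m : ℝ) ^ 3 * D.x.den ≤ -Real.log g := by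
    have h0 : 0 < 130000 * (D.m : ℝ) ^ 3 * D.x.den := by positivity
    have h1 : 0 < -Real.log g := by
      by_contra hcon
      push Not at hcon
      have : s ^ 4 * (-Real.log g) ≤ 0 := mul_nonpos_of_nonneg_of_nonpos (by positivity) hcon
      linarith
    have h2 : s ^ 4 * (-Real.log g) ≤ 1 * (-Real.log g) := mul_le_mul_of_nonneg_right hs4 h1.le
    linarith
  have hm3 : (D.m : ℝ) ≤ (D.m : ℝ) ^ 3 * D.x.den := by
    have h1 : (1 : ℝ) ≤ (D.m : ℝ) ^ 2 := one_le_pow₀ hm1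
    have h2 : (1 : ℝ) ≤ (D.m : ℝ) ^ 2 * D.x.den := by nlinarith
    nlinarith
  have hlogpos : 0 < -Real.log g := by
    have : (0 : ℝ) < (D.m : ℝ) ^ 3 * D.x.den := by positivity
    nlinarith
  have hlt : G (cOf ζ) (cOf ζ) < Real.exp (-(5 * D.m)) := by
    rw [hG, ← Real.log_lt_iff_lt_exp hg]
    nlinarith
  have hv := Pri.ray_mult (n := D.m) (w := D.w) hmn (P := D.k₀ * D.x.den + D.x.num) hQn
    (t := t) (by rw [hPQ]; exact ht) (by rw [hPQ]; exact hend) hE hlt
  rw [hG, hPQ] at hv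
  set v : ℂ := 1 - exp (2 * Real.pi * ((D.k₀ + D.x : ℝ) : ℂ) * I) / mult D.m (cOf ζ) b with hvdef
  have hvs : ‖v‖ ≤ s / 2 := by
    by_contra hcon
    push Not at hcon
    have h2 : (s / 2) ^ 4 < ‖v‖ ^ 4 := pow_lt_pow_left₀ hcon (by positivity) (by norm_num)
    have h3 : (s / 2) ^ 4 * (-Real.log g) < 8000 * (D.m : ℝ) ^ 3 * D.x.den :=
      lt_of_lt_of_le (mul_lt_mul_of_pos_right h2 hlogpos) hv
    have h4 : (s / 2) ^ 4 * (-Real.log g) = (s ^ 4 * (-Real.log g)) / 16 := by ring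
    rw [h4] at h3
    have h5 : (0 : ℝ) < (D.m : ℝ) ^ 3 * D.x.den := by positivity
    nlinarith
  have hv2 : ‖v‖ ≤ 1 / 2 := by linarith
  have hv1 : 1 - v ≠ 0 := by
    intro h0
    have h1 : v = 1 := by linear_combination -h0
    rw [h1, norm_one] at hv2
    linarith
  -- the point `L`
  have hmult : 1 < ‖mult D.m (cOf ζ) b‖ := one_lt_norm_mult_of_ext hmn hE.1 hE.2.2.1
  have hmult0 : mult D.m (cOf ζ) b ≠ 0 := by
    intro h0; rw [h0, norm_zero] at hmult; linarith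
  have hexpa : exp (2 * Real.pi * ((D.k₀ + D.x : ℝ) : ℂ) * I) = exp D.a := by
    have h1 : (2 * Real.pi * ((D.k₀ + D.x : ℝ) : ℂ) * I : ℂ) = D.a + D.k₀ * (2 * Real.pi * I) := by
      show _ = axisPt D.x + _
      unfold axisPt
      push_cast
      ring
    rw [h1, Complex.exp_add, Complex.exp_int_mul_two_pi_mul_I, mul_one]
  have hL : exp (D.a - log (1 - v)) = mult D.m (cOf ζ) b := by
    rw [Complex.exp_sub, Complex.exp_log hv1]
    have h1 : 1 - v = exp D.a / mult D.m (cOf ζ) b := by rw [hvdef, hexpa]; ring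
    rw [h1]
    field_simp [Complex.exp_ne_zero]
  set L : ℂ := D.a - log (1 - v) with hLdef
  have hLa : ‖L - D.a‖ ≤ s := by
    have h1 : L - D.a = -log (1 + -v) := by rw [hLdef]; ring_nf
    rw [h1, norm_neg]
    refine (norm_log_one_add_half_le_self (by rw [norm_neg]; exact hv2)).trans ?_
    rw [norm_neg]
    linarith
  have hLB : L ∈ D.B := by
    show L ∈ ball D.a (gR D.m D.x)
    rw [mem_ball, dist_eq_norm]
    linarith
  have hLre : 0 < L.re := by
    rw [← hL, Complex.norm_exp, Real.one_lt_exp_iff] at hmult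
    exact hmult
  obtain ⟨h1, h2⟩ := hP.sec L hLB
  obtain ⟨h3, h4⟩ := hP.lab L hLB hLre
  have h5 := h4 t (by rw [ht]; linarith) (by rw [ht]; linarith)
  have h6 : FF D.m (cOf ζ, b) = lab D.m t D.w := FF_ext (x := (cOf ζ, b)) hE
  have h7 := s4_unique D.m D.x L (D.σ L) (cOf ζ, b) hmn hP.x_pos hP.x_lt hLB hLre h1 hE.2.2.1
    h2 hL.symm (h5.trans h6.symm)
  refine ⟨L, ?_, ?_⟩
  · rw [mem_closedBall, dist_eq_norm]; exact hLa
  · show (D.σ L).1 = cOf ζ
    rw [h7]

/-- **N2** -/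
theorem n2_ray : N2_ray := by
  intro D hP hC s g hs hs' hg hbig
  constructor
  · refine ray_mem15 hP hs hs' hg hbig ((hC.plateau D.tm).2 ⟨le_refl _, hC.lt.le⟩) ?_
    intro r hr
    right
    intro h0
    have := ((hC.plateau _).1 h0).1
    linarith
  · refine ray_mem15 hP hs hs' hg hbig ((hC.plateau D.tp).2 ⟨hC.lt.le, le_refl _⟩) ?_
    intro r hr
    left
    intro h0
    have := ((hC.plateau _).1 h0).2
    linarith

end Pool.Agent.Work.MLC.Cnt
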