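import Mathlib

set_option autoImplicit false

/-! # Theorem QE, module CAP: covers of small energy (helper90) -/

namespace Pool.Agent.Work.MLC.Shp

open Filter Topology Metric Set MeasureTheory
open scoped ENNReal

/-- binary logarithm of the inverse -/
noncomputable def lg (g : ℝ) : ℝ := Real.logb 2 (1 / g)

/-- the kernel of the logarithmic energy -/
noncomputable def ker (x y : ℝ) : ℝ≥0∞ :=
  open Classical in if x = y then ⊤ else ENNReal.ofReal (-Real.log |x - y|)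

/-- finite logarithmic energy -/
def FinE (μ : Measure ℝ) : Prop := ∫⁻ x, ∫⁻ y, ker x y ∂μ ∂μ < ⊤

lemma measurable_ker : Measurable (fun p : ℝ × ℝ => ker p.1 p.2) := by
  have h1 : MeasurableSet {p : ℝ × ℝ | p.1 = p.2} := measurableSet_eq_fun measurable_fst measurable_snd
  have h2 : Measurable (fun p : ℝ × ℝ => ENNReal.ofReal (-Real.log |p.1 - p.2|)) := by
    refine (Measurable.neg ?_).ennreal_ofReal
    exact Real.measurable_log.comp ((measurable_fst.sub measurable_snd).norm)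
  have h3 : (fun p : ℝ × ℝ => ker p.1 p.2) = fun p : ℝ × ℝ =>
      open Classical in if p.1 = p.2 then ⊤ else ENNReal.ofReal (-Real.log |p.1 - p.2|) := rfl
  rw [h3]
  classical
  convert Measurable.ite h1 measurable_const h2

/-- the energy near the diagonal -/
noncomputable def En (μ : Measure ℝ) (r : ℝ) : ℝ≥0∞ :=
  ∫⁻ p in {p : ℝ × ℝ | |p.1 - p.2| ≤ r}, ker p.1 p.2 ∂(μ.prod μ)

lemma meas_near (r : ℝ) : MeasurableSet {p : ℝ × ℝ | |p.1 - p.2| ≤ r} :=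
  (isClosed_le (by fun_prop) continuous_const).measurableSet

lemma lintegral_ker (μ : Measure ℝ) [IsFiniteMeasure μ] :
    ∫⁻ p, ker p.1 p.2 ∂(μ.prod μ) = ∫⁻ x, ∫⁻ y, ker x y ∂μ ∂μ :=
  lintegral_prod _ measurable_ker.aemeasurable

/-- the diagonal is null -/
lemma diag_null (μ : Measure ℝ) [IsFiniteMeasure μ] (h : FinE μ) :
    μ.prod μ {p : ℝ × ℝ | p.1 = p.2} = 0 := by
  have h0 := lintegral_ker μ
  have h1 : ∀ᵐ p ∂(μ.prod μ), ker p.1 p.2 < ⊤ := by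
    apply ae_lt_top measurable_ker
    rw [h0]
    exact h.ne
  have h2 : {p : ℝ × ℝ | p.1 = p.2} ⊆ {p : ℝ × ℝ | ¬ ker p.1 p.2 < ⊤} := by
    intro p hp
    have : p.1 = p.2 := hp
    simp [ker, this]
  exact measure_mono_null h2 h1

/-- no atoms -/
lemma sing_null (μ : Measure ℝ) [IsFiniteMeasure μ] (h : FinE μ) (x : ℝ) : μ {x} = 0 := by
  have h1 := diag_null μ h
  have h2 : ({x} ×ˢ {x} : Set (ℝ × ℝ)) ⊆ {p : ℝ × ℝ | p.1 = p.2} := by
    rintro ⟨a, b⟩ ⟨ha, hb⟩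
    simp only [mem_singleton_iff] at ha hb
    simp [ha, hb]
  have h3 := measure_mono_null h2 h1
  rw [Measure.prod_prod] at h3
  exact (mul_self_eq_zero (a := μ {x})).1 h3

lemma count_null (μ : Measure ℝ) [IsFiniteMeasure μ] (h : FinE μ) {N : Set ℝ} (hN : N.Countable) :
    μ N = 0 := by
  have h1 : N = ⋃ x ∈ N, {x} := by simp
  rw [h1]
  exact (measure_biUnion_null_iff hN).2 fun x _ => sing_null μ h x

/-- the energy near the diagonal is small -/
lemma en_small (μ : Measure ℝ) [IsFiniteMeasure μ] (h : FinE μ) {δ : ℝ≥0∞} (hδ : 0 < δ) :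
    ∃ r : ℝ, 0 < r ∧ r < 1 ∧ En μ r < δ := by
  -- the sets decrease to the diagonal
  have h1 : Tendsto (fun n : ℕ => En μ (1 / ((n : ℝ) + 2))) atTop (𝓝 0) := by
    have h2 : ∫⁻ p, ker p.1 p.2 ∂(μ.prod μ) ≠ ⊤ := by rw [lintegral_ker]; exact h.ne
    apply tendsto_setLIntegral_zero h2
    have h3 : Tendsto (μ.prod μ ∘ fun n : ℕ => {p : ℝ × ℝ | |p.1 - p.2| ≤ 1 / ((n : ℝ) + 2)}) atTop
        (𝓝 (μ.prod μ (⋂ n : ℕ, {p : ℝ × ℝ | |p.1 - p.2| ≤ 1 / ((n : ℝ) + 2)}))) := by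
      apply tendsto_measure_iInter_atTop
      · intro n; exact (meas_near _).nullMeasurableSet
      · intro m n hmn p hp
        have h4 : |p.1 - p.2| ≤ 1 / ((n : ℝ) + 2) := hp
        have h5 : (1 : ℝ) / ((n : ℝ) + 2) ≤ 1 / ((m : ℝ) + 2) := by
          apply one_div_le_one_div_of_le (by positivity)
          have : (m : ℝ) ≤ n := by exact_mod_cast hmn
          linarith
        exact h4.trans h5
      · exact ⟨0, measure_ne_top _ _⟩
    have h6 : (⋂ n : ℕ, {p : ℝ × ℝ | |p.1 - p.2| ≤ 1 / ((n : ℝ) + 2)}) ⊆ {p : ℝ × ℝ | p.1 = p.2} := by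
      intro p hp
      have h7 : ∀ n : ℕ, |p.1 - p.2| ≤ 1 / ((n : ℝ) + 2) := fun n => mem_iInter.1 hp n
      have h8 : |p.1 - p.2| ≤ 0 := by
        have h9 : Tendsto (fun n : ℕ => 1 / ((n : ℝ) + 2)) atTop (𝓝 0) := by
          have := (tendsto_natCast_atTop_atTop (R := ℝ)).atTop_add (tendsto_const_nhds (x := (2 : ℝ)))
          have h10 := this.inv_tendsto_atTop
          refine h10.congr fun n => ?_
          simp
        exact ge_of_tendsto' h9 h7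
      have h10 : |p.1 - p.2| = 0 := le_antisymm h8 (abs_nonneg _)
      exact sub_eq_zero.1 (abs_eq_zero.1 h10)
    rw [measure_mono_null h6 (diag_null μ h)] at h3
    exact h3
  obtain ⟨n, hn⟩ := ((tendsto_order.1 h1).2 δ hδ).exists
  refine ⟨1 / ((n : ℝ) + 2), by positivity, ?_, hn⟩
  rw [div_lt_one (by positivity)]
  have : (0 : ℝ) ≤ n := Nat.cast_nonneg n
  linarith

/-- the square of the measure of a short interval -/
lemma sq_short (μ : Measure ℝ) [IsFiniteMeasure μ] {B A : Set ℝ} (hB : MeasurableSet B) {a ℓ r : ℝ}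
    (hBA : B ⊆ A) (hr : ℓ ≤ r) (hBI : B ⊆ Icc a (a + ℓ)) :
    ENNReal.ofReal (-Real.log ℓ) * (μ B * μ B) ≤
      ∫⁻ p in (A ×ˢ A) ∩ {p : ℝ × ℝ | |p.1 - p.2| ≤ r}, ker p.1 p.2 ∂(μ.prod μ) := by
  have h1 : (B ×ˢ B : Set (ℝ × ℝ)) ⊆ (A ×ˢ A) ∩ {p : ℝ × ℝ | |p.1 - p.2| ≤ r} := by
    rintro ⟨x, y⟩ ⟨hx, hy⟩
    refine ⟨⟨hBA hx, hBA hy⟩, ?_⟩
    have h2 := hBI hx
    have h3 := hBI hy
    show |x - y| ≤ r
    rw [abs_le]
    constructor <;> linarith [h2.1, h2.2, h3.1, h3.2]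
  calc ENNReal.ofReal (-Real.log ℓ) * (μ B * μ B)
      = ∫⁻ p in (B ×ˢ B : Set (ℝ × ℝ)), ENNReal.ofReal (-Real.log ℓ) ∂(μ.prod μ) := by
        rw [lintegral_const, Measure.restrict_apply_univ, Measure.prod_prod]
    _ ≤ ∫⁻ p in (B ×ˢ B : Set (ℝ × ℝ)), ker p.1 p.2 ∂(μ.prod μ) := by
        apply setLIntegral_mono' (hB.prod hB)
        rintro ⟨x, y⟩ ⟨hx, hy⟩
        have h2 := hBI hx
        have h3 := hBI hy
        unfold ker
        split_ifs with hxy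
        · exact le_top
        · apply ENNReal.ofReal_le_ofReal
          apply neg_le_neg
          apply Real.log_le_log
          · exact abs_pos.2 (sub_ne_zero.2 hxy)
          · show |x - y| ≤ ℓ
            rw [abs_le]
            constructor <;> linarith [h2.1, h2.2, h3.1, h3.2]
    _ ≤ _ := lintegral_mono_set h1

/-- the square of the measure of one set -/
lemma sq_set (μ : Measure ℝ) [IsFiniteMeasure μ] {A : Set ℝ} (hA : MeasurableSet A) {ℓ r : ℝ}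
    (hr : ℓ ≤ r) {a : Fin 8 → ℝ} (hAI : A ⊆ ⋃ j, Icc (a j) (a j + ℓ)) :
    ENNReal.ofReal (-Real.log ℓ) * (μ A) ^ 2 ≤
      64 * ∫⁻ p in (A ×ˢ A) ∩ {p : ℝ × ℝ | |p.1 - p.2| ≤ r}, ker p.1 p.2 ∂(μ.prod μ) := by
  set X := ∫⁻ p in (A ×ˢ A) ∩ {p : ℝ × ℝ | |p.1 - p.2| ≤ r}, ker p.1 p.2 ∂(μ.prod μ) with hX
  have h1 : μ A ≤ ∑ j, μ (A ∩ Icc (a j) (a j + ℓ)) := by
    calc μ A ≤ μ (⋃ j, A ∩ Icc (a j) (a j + ℓ)) := by
          apply measure_mono
          intro x hx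
          obtain ⟨j, hj⟩ := mem_iUnion.1 (hAI hx)
          exact mem_iUnion.2 ⟨j, hx, hj⟩
      _ ≤ _ := measure_iUnion_fintype_le _ _
  obtain ⟨j, -, hj⟩ := Finset.exists_max_image (Finset.univ : Finset (Fin 8))
    (fun j => μ (A ∩ Icc (a j) (a j + ℓ))) Finset.univ_nonempty
  have h2 : μ A ≤ 8 * μ (A ∩ Icc (a j) (a j + ℓ)) := by
    refine h1.trans ?_
    calc ∑ i, μ (A ∩ Icc (a i) (a i + ℓ)) ≤ ∑ i : Fin 8, μ (A ∩ Icc (a j) (a j + ℓ)) :=
          Finset.sum_le_sum fun i hi => hj i hi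
      _ = _ := by simp
  have h3 := sq_short μ (hA.inter measurableSet_Icc) (A := A) (a := a j) inter_subset_left hr
    inter_subset_right
  calc ENNReal.ofReal (-Real.log ℓ) * (μ A) ^ 2
      ≤ ENNReal.ofReal (-Real.log ℓ) * (8 * μ (A ∩ Icc (a j) (a j + ℓ))) ^ 2 := by gcongr
    _ = 64 * (ENNReal.ofReal (-Real.log ℓ) * (μ (A ∩ Icc (a j) (a j + ℓ)) *
          μ (A ∩ Icc (a j) (a j + ℓ)))) := by
        rw [mul_pow]
        have : (8 : ℝ≥0∞) ^ 2 = 64 := by norm_num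
        rw [this]; ring
    _ ≤ 64 * X := by gcongr

/-- the sum of the squares -/
lemma sum_sq (μ : Measure ℝ) [IsFiniteMeasure μ] (h : FinE μ) {r : ℝ} {ι : Type} (T : Finset ι)
    (A : ι → Set ℝ) (ℓ : ι → ℝ) (N : Set ℝ) (hN : N.Countable)
    (hT : ∀ i ∈ T, MeasurableSet (A i) ∧ 0 < ℓ i ∧ ℓ i ≤ r ∧
      ∃ a : Fin 8 → ℝ, A i ⊆ ⋃ j, Icc (a j) (a j + ℓ i))
    (h3 : ∀ x ∉ N, ∀ T' ⊆ T, (∀ i ∈ T', x ∈ A i) → T'.card ≤ 3) :
    ∑ i ∈ T, ENNReal.ofReal (-Real.log (ℓ i)) * (μ (A i)) ^ 2 ≤ 192 * En μ r := by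
  have h1 : ∀ i ∈ T, ENNReal.ofReal (-Real.log (ℓ i)) * (μ (A i)) ^ 2 ≤
      64 * ∫⁻ p in {p : ℝ × ℝ | |p.1 - p.2| ≤ r}, (A i ×ˢ A i).indicator (fun p => ker p.1 p.2) p
        ∂(μ.prod μ) := by
    intro i hi
    obtain ⟨hA, -, hr, a, ha⟩ := hT i hi
    have h4 := sq_set μ hA hr ha
    rwa [lintegral_indicator (hA.prod hA), Measure.restrict_restrict (hA.prod hA)]
  refine (Finset.sum_le_sum h1).trans ?_
  rw [← Finset.mul_sum, ← lintegral_finsetSum']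
  · have h5 : (192 : ℝ≥0∞) = 64 * 3 := by norm_num
    rw [h5, mul_assoc]
    refine mul_le_mul_right ?_ _
    unfold En
    rw [← lintegral_const_mul _ measurable_ker]
    apply lintegral_mono_ae
    have hN0 : μ.prod μ (Prod.fst ⁻¹' N) = 0 := by
      have h6 : (Prod.fst ⁻¹' N : Set (ℝ × ℝ)) = N ×ˢ univ := by ext p; simp
      rw [h6, Measure.prod_prod, count_null μ h hN, zero_mul]
    have h7 : ∀ᵐ p ∂((μ.prod μ).restrict {p : ℝ × ℝ | |p.1 - p.2| ≤ r}), p.1 ∉ N := by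
      apply ae_restrict_of_ae
      rw [ae_iff]
      have h9 : {p : ℝ × ℝ | ¬ p.1 ∉ N} = Prod.fst ⁻¹' N := by ext p; simp
      rw [h9]
      exact hN0
    filter_upwards [h7] with p hp
    classical
    set T' := T.filter fun i => p.1 ∈ A i ∧ p.2 ∈ A i with hT'
    have h8 : ∑ i ∈ T, (A i ×ˢ A i).indicator (fun p => ker p.1 p.2) p = ∑ i ∈ T', ker p.1 p.2 := by
      rw [hT', Finset.sum_filter]
      refine Finset.sum_congr rfl fun i _ => ?_
      by_cases h9 : p.1 ∈ A i ∧ p.2 ∈ A i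
      · rw [if_pos h9, indicator_of_mem (show p ∈ A i ×ˢ A i from h9)]
      · rw [if_neg h9, indicator_of_notMem (show p ∉ A i ×ˢ A i from h9)]
    rw [h8, Finset.sum_const, nsmul_eq_mul]
    have h10 := h3 p.1 hp T' (Finset.filter_subset _ _) fun i hi => (Finset.mem_filter.1 hi).2.1
    gcongr
    exact_mod_cast h10
  · intro i hi
    exact ((measurable_ker.indicator ((hT i hi).1.prod (hT i hi).1))).aemeasurable

/-- **Module CAP.** -/
theorem cap_cover : ∀ μ : Measure ℝ, IsFiniteMeasure μ → FinE μ → ∀ B : ℝ, ∀ ε : ℝ≥0∞, 0 < ε →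
    ∃ r > 0, ∀ (ι : Type) (T : Finset ι) (A : ι → Set ℝ) (ℓ : ι → ℝ) (N : Set ℝ), N.Countable →
    (∀ i ∈ T, MeasurableSet (A i) ∧ 0 < ℓ i ∧ ℓ i ≤ r ∧
      ∃ a : Fin 8 → ℝ, A i ⊆ ⋃ j, Icc (a j) (a j + ℓ i)) →
    (∀ x ∉ N, ∀ T' ⊆ T, (∀ i ∈ T', x ∈ A i) → T'.card ≤ 3) → ∑ i ∈ T, 1 / lg (ℓ i) ≤ B →
    μ (⋃ i ∈ T, A i) ≤ ε := by
  intro μ hμ h B ε hε
  rcases eq_or_ne ε ⊤ with hεt | hεt
  · exact ⟨1, one_pos, fun _ _ _ _ _ _ _ _ _ => hεt ▸ le_top⟩
  set e : ℝ := ε.toReal with he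
  have he0 : 0 < e := ENNReal.toReal_pos hε.ne' hεt
  set B' : ℝ := max B 1 with hB'
  have hB1 : 1 ≤ B' := le_max_right _ _
  set δ : ℝ := e ^ 2 / (400 * B') with hδ
  have hδ0 : 0 < δ := by positivity
  obtain ⟨r, hr0, hr1, hr⟩ := en_small μ h (δ := ENNReal.ofReal δ) (ENNReal.ofReal_pos.2 hδ0)
  refine ⟨r, hr0, ?_⟩
  intro ι T A ℓ N hN hT h3 hB
  have h4 := (sum_sq μ h T A ℓ N hN hT h3).trans (mul_le_mul_right hr.le _)
  -- real numbers
  set a : ι → ℝ := fun i => (μ (A i)).toReal with ha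
  have hlog : ∀ i ∈ T, 0 < -Real.log (ℓ i) := by
    intro i hi
    obtain ⟨-, h0, hr2, -⟩ := hT i hi
    have := Real.log_neg h0 (by linarith)
    linarith
  have h5 : ∑ i ∈ T, (-Real.log (ℓ i)) * a i ^ 2 ≤ 192 * δ := by
    have h6 : ENNReal.ofReal (∑ i ∈ T, (-Real.log (ℓ i)) * a i ^ 2) ≤ ENNReal.ofReal (192 * δ) := by
      rw [ENNReal.ofReal_sum_of_nonneg]
      · rw [ENNReal.ofReal_mul (by norm_num)]
        have h7 : ENNReal.ofReal 192 = 192 := by norm_num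
        rw [h7]
        refine le_trans (le_of_eq ?_) h4
        refine Finset.sum_congr rfl fun i hi => ?_
        rw [ENNReal.ofReal_mul (hlog i hi).le, ENNReal.ofReal_pow ENNReal.toReal_nonneg,
          ENNReal.ofReal_toReal (measure_ne_top _ _)]
      · intro i hi
        have := hlog i hi
        positivity
    exact (ENNReal.ofReal_le_ofReal_iff (by positivity)).1 h6
  have hlg : ∀ i ∈ T, lg (ℓ i) = (-Real.log (ℓ i)) / Real.log 2 := by
    intro i _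
    rw [lg, Real.logb, one_div, Real.log_inv]
  have hl2 : 0 < Real.log 2 := Real.log_pos (by norm_num)
  have h8 : ∑ i ∈ T, 1 / (-Real.log (ℓ i)) ≤ B' / Real.log 2 := by
    have h9 : ∑ i ∈ T, 1 / (-Real.log (ℓ i)) = (∑ i ∈ T, 1 / lg (ℓ i)) / Real.log 2 := by
      rw [Finset.sum_div]
      refine Finset.sum_congr rfl fun i hi => ?_
      rw [hlg i hi]
      have := hlog i hi
      field_simp
    rw [h9]
    gcongr
    exact hB.trans (le_max_left _ _)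
  have h10 : (∑ i ∈ T, a i) ^ 2 ≤ (∑ i ∈ T, (-Real.log (ℓ i)) * a i ^ 2) *
      (∑ i ∈ T, 1 / (-Real.log (ℓ i))) := by
    apply Finset.sum_sq_le_sum_mul_sum_of_sq_le_mul
    · intro i hi; have := hlog i hi; positivity
    · intro i hi; have := hlog i hi; positivity
    · intro i hi
      have h0 := (hlog i hi).ne'
      rw [mul_one_div, mul_div_right_comm, div_self h0, one_mul]
  have h11 : (∑ i ∈ T, a i) ^ 2 ≤ e ^ 2 := by
    have h12 : (1 : ℝ) / 2 < Real.log 2 := by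
      have := Real.log_two_gt_d9; linarith
    have h13 : B' / Real.log 2 ≤ 2 * B' := by
      rw [div_le_iff₀ hl2]; nlinarith
    have h14 : 0 ≤ ∑ i ∈ T, 1 / (-Real.log (ℓ i)) :=
      Finset.sum_nonneg fun i hi => by have := hlog i hi; positivity
    calc (∑ i ∈ T, a i) ^ 2 ≤ (192 * δ) * (2 * B') := by
          refine h10.trans ?_
          exact mul_le_mul h5 (h8.trans h13) h14 (by positivity)
      _ ≤ e ^ 2 := by
          rw [hδ]
          field_simp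
          norm_num
  have h15 : ∑ i ∈ T, a i ≤ e := abs_le_of_sq_le_sq' h11 he0.le |>.2
  calc μ (⋃ i ∈ T, A i) ≤ ∑ i ∈ T, μ (A i) := measure_biUnion_finset_le _ _
    _ = ENNReal.ofReal (∑ i ∈ T, a i) := by
        rw [ENNReal.ofReal_sum_of_nonneg fun i _ => ENNReal.toReal_nonneg]
        exact Finset.sum_congr rfl fun i _ => (ENNReal.ofReal_toReal (measure_ne_top _ _)).symm
    _ ≤ ENNReal.ofReal e := ENNReal.ofReal_le_ofReal h15
    _ = ε := ENNReal.ofReal_toReal hεt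

end Pool.Agent.Work.MLC.Shp
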