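import Pool.Agent.Work.MLC.Cross60

set_option autoImplicit false

/-! # The left end of a label interval (helper54)

`w` exact of length `n`, `t` the largest angle with `nu w n t = k`. After a rotation of the word
(characteristic phase) the angle `t` itself is the only fixed point of `gw w t n - k` modulo one, it
has exact period `n`, stays in the half open half circles and hits the start of the last one. -/

namespace Pool.Agent.Work.MLC

open Set Circ CircleDeg1Lift Filter Topology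

/-- the orbit of `x` stays in the half open half circles of the word at the parameter `t` -/
def HO (w : ℕ → ℤ) (t x : ℝ) : Prop :=
  ∀ j, ∃ k : ℤ, (t + w j) / 2 + k ≤ 2 ^ j * x ∧ 2 ^ j * x < (t + w j) / 2 + k + 1 / 2

theorem HO.shift {w : ℕ → ℤ} {t x : ℝ} (h : HO w t x) (d : ℕ) :
    HO (fun j => w (d + j)) t (2 ^ d * x) := by
  intro j
  obtain ⟨k, h1, h2⟩ := h (d + j)
  refine ⟨k, ?_, ?_⟩
  · show (t + w (d + j)) / 2 + k ≤ 2 ^ j * (2 ^ d * x)
    rw [← mul_assoc, ← pow_add, add_comm j d]; exact h1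
  · show 2 ^ j * (2 ^ d * x) < (t + w (d + j)) / 2 + k + 1 / 2
    rw [← mul_assoc, ← pow_add, add_comm j d]; exact h2

theorem HO.add_int {w : ℕ → ℤ} {t x : ℝ} (h : HO w t x) (l : ℤ) : HO w t (x + l) := by
  intro j
  obtain ⟨k, h1, h2⟩ := h j
  refine ⟨k + 2 ^ j * l, ?_, ?_⟩ <;> push_cast <;> linarith

theorem HO.word_eq {w w' : ℕ → ℤ} (hw : ∀ i, w i = 0 ∨ w i = 1) (hw' : ∀ i, w' i = 0 ∨ w' i = 1)
    {t x : ℝ} (h : HO w t x) (h' : HO w' t x) : w = w' := by
  funext j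
  obtain ⟨k, h1, h2⟩ := h j
  obtain ⟨k', h3, h4⟩ := h' j
  have f1 : ((w j + 2 * k : ℤ) : ℝ) < ((w' j + 2 * k' + 1 : ℤ) : ℝ) := by push_cast; linarith
  have f2 : ((w' j + 2 * k' : ℤ) : ℝ) < ((w j + 2 * k + 1 : ℤ) : ℝ) := by push_cast; linarith
  have f3 : w j + 2 * k < w' j + 2 * k' + 1 := by exact_mod_cast f1
  have f4 : w' j + 2 * k' < w j + 2 * k + 1 := by exact_mod_cast f2
  have := hw j
  have := hw' j
  omega

/-- data at the left end `t` of a label interval, in the characteristic phase -/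
structure LE (n : ℕ) (w : ℕ → ℤ) (t : ℝ) (k : ℤ) : Prop where
  pos : 0 < n
  word : Word n w
  per : ∃ a : ℤ, 2 ^ n * t - t = a
  ho : HO w t t
  fix : gw w t n t = t + k
  above : ∀ x, x + k ≤ gw w t n x
  uniq : ∀ x, gw w t n x = x + k → ∃ z : ℤ, x = t + z

theorem word_shift {N : ℕ} {w : ℕ → ℤ} (hN : 0 < N) (hw : Word N w) (i₀ : ℕ) :
    Word N (fun j => w (i₀ + j)) := by
  refine ⟨fun i => hw.1 _, fun i => ?_, fun d hd hdN => ?_⟩
  · show w (i₀ + (i + N)) = w (i₀ + i)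
    rw [← add_assoc, hw.2.1]
  · by_contra hcon
    push Not at hcon
    have h1 := mod_eq_of_word hN hw (i := i₀ + d) (j := i₀) fun t => by
      have := hcon t
      rw [show i₀ + d + t = i₀ + (t + d) by ring]; exact this
    have h2 : (i₀ + d) % N = i₀ % N := h1
    have h3 : N ∣ d := by
      have := (Nat.modEq_iff_dvd' (show i₀ ≤ i₀ + d by omega)).1 (show i₀ % N = (i₀ + d) % N from h2.symm)
      simpa using this
    exact absurd (Nat.le_of_dvd hd h3) (by omega)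

/-- the return map is above `x + k` at the left end -/
theorem above_of_left {w : ℕ → ℤ} {n : ℕ} {t : ℝ} {k : ℤ} (hgt : ∀ θ, t < θ → k < nu w n θ) (x : ℝ) :
    x + k ≤ gw w t n x := by
  have h1 : Tendsto (fun θ => gw w θ n x) (𝓝[>] t) (𝓝 (gw w t n x)) := by
    have hc : Continuous fun θ : ℝ => gw w θ n x :=
      (gw_continuous w n).comp (continuous_id.prodMk continuous_const)
    exact hc.continuousAt.tendsto.mono_left nhdsWithin_le_nhds
  refine ge_of_tendsto h1 (eventually_nhdsWithin_of_forall fun θ hθ => ?_)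
  by_contra hcon
  push Not at hcon
  have h2 : nu w n θ ≤ k := translationNumber_le_of_le_add_int _ hcon.le
  exact absurd (hgt θ hθ) (not_lt.2 h2)

/-- an `n`-periodic angle whose first `n` doublings are in half open half circles -/
theorem ho_of_lt {w : ℕ → ℤ} {n : ℕ} (hn : 0 < n) (hw : ∀ i, w (i + n) = w i) {t x : ℝ}
    (hx : ∃ a : ℤ, 2 ^ n * x - x = a)
    (h : ∀ i < n, ∃ k : ℤ, (t + w i) / 2 + k ≤ 2 ^ i * x ∧ 2 ^ i * x < (t + w i) / 2 + k + 1 / 2) :
    HO w t x := by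
  obtain ⟨a, ha⟩ := hx
  intro j
  obtain ⟨b, hb⟩ := pow_per_mul ha (j / n)
  obtain ⟨k, h1, h2⟩ := h (j % n) (Nat.mod_lt _ hn)
  have e1 : (2 : ℝ) ^ j * x = 2 ^ (j % n) * x + ((2 ^ (j % n) * b : ℤ) : ℝ) := by
    conv_lhs => rw [← Nat.mod_add_div j n]
    rw [pow_add, mul_assoc, hb]
    push_cast; ring
  have e2 : w j = w (j % n) := by
    conv_lhs => rw [← Nat.mod_add_div j n]
    exact word_mod hw _ _
  rw [e1, e2]
  refine ⟨k + 2 ^ (j % n) * b, ?_, ?_⟩ <;> push_cast <;> linarith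

/-- the orbit of a fixed point of the return map at the left end: half open, passes through `t` -/
theorem orbit_of_left {w : ℕ → ℤ} {n : ℕ} (hn : 0 < n) (hw : ∀ i, w (i + n) = w i) {t : ℝ} {k : ℤ}
    (hab : ∀ x, x + k ≤ gw w t n x) {x : ℝ} (hx : gw w t n x = x + k) :
    HO w t x ∧ (∃ a : ℤ, 2 ^ n * x - x = a) ∧ ∃ i < n, ∃ l : ℤ, t = 2 ^ (i + 1) * x + l := by
  obtain ⟨h1, i, hi, m, hm⟩ := tangent_above hab hx hn
  have hlin := gw_of_cl (w := w) (θ := t) (x := x) (m := n) fun i hi => by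
    obtain ⟨k', h2, h3⟩ := h1 i hi
    exact ⟨k', h2, h3.le⟩
  have hper : ∃ a : ℤ, 2 ^ n * x - x = a := by
    obtain ⟨a, ha⟩ := hlin n le_rfl
    exact ⟨k - a, by push_cast; linarith⟩
  refine ⟨ho_of_lt hn hw hper fun i hi => ?_, hper, i, hi, ?_⟩
  · obtain ⟨k', h2, h3⟩ := h1 i hi
    obtain ⟨a, ha⟩ := hlin i hi.le
    rw [ha] at h2 h3
    refine ⟨k' - a, ?_, ?_⟩ <;> push_cast <;> linarith
  · obtain ⟨a, ha⟩ := hlin i hi.le
    rw [ha] at hm
    refine ⟨2 * a - w i - 2 * m, ?_⟩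
    rw [pow_succ]
    push_cast
    linarith

/-- `t` is a fixed point of the return map if its orbit is in the half circles -/
theorem fix_of_ho {w : ℕ → ℤ} {n : ℕ} {t : ℝ} {k : ℤ} (hper : ∃ a : ℤ, 2 ^ n * t - t = a)
    (hho : HO w t t) (hnu : nu w n t = k) : gw w t n t = t + k := by
  obtain ⟨m, hm⟩ := gw_lin w t t n fun i _ => by
    obtain ⟨k', h1, h2⟩ := hho i
    exact ⟨k', h1, h2.le⟩
  obtain ⟨a, ha⟩ := hper
  have h1 : gw w t n t = t + ((a - m : ℤ) : ℝ) := by rw [hm]; push_cast; linarith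
  have h2 : nu w n t = ((a - m : ℤ) : ℝ) := translationNumber_of_eq_add_int _ h1
  rw [hnu] at h2
  rw [h1, h2]

/-- **the left end in the characteristic phase** -/
theorem exists_LE {n : ℕ} (hn : 0 < n) {w : ℕ → ℤ} (hw : Word n w) {t : ℝ} {k : ℤ}
    (hnu : nu w n t = k) (hgt : ∀ θ, t < θ → k < nu w n θ) :
    ∃ i₀ < n, LE n (fun j => w (i₀ + j)) t k := by
  obtain ⟨x, hx⟩ : ∃ x, gw w t n x = x + k := by
    have := (nu_eq_rat_iff w n t 1 one_pos k).1 (by rw [hnu]; simp)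
    simpa using this
  obtain ⟨hho, ⟨a, ha⟩, i, hi, l, hl⟩ := orbit_of_left hn hw.2.1 (above_of_left hgt) hx
  set i₀ := (i + 1) % n with hi₀
  have hfun : (fun j => w (i + 1 + j)) = fun j => w (i₀ + j) := by
    funext j
    conv_lhs => rw [← Nat.mod_add_div (i + 1) n]
    rw [show (i + 1) % n + n * ((i + 1) / n) + j = (i₀ + j) + n * ((i + 1) / n) by rw [hi₀]; ring,
      word_mod hw.2.1]
  set w' : ℕ → ℤ := fun j => w (i₀ + j) with hw'
  have hW : Word n w' := word_shift hn hw i₀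
  have hnu' : ∀ θ, nu w' n θ = nu w n θ := fun θ => nu_shift_word w n hw.2.1 θ i₀
  have hho' : HO w' t t := by
    have h1 := (hho.shift (i + 1)).add_int l
    rw [hfun, ← hl] at h1
    exact h1
  have hper : ∃ b : ℤ, 2 ^ n * t - t = b := by
    refine ⟨2 ^ (i + 1) * a + 2 ^ n * l - l, ?_⟩
    rw [hl]
    push_cast
    linear_combination (2 : ℝ) ^ (i + 1) * ha
  have hab : ∀ x, x + k ≤ gw w' t n x := above_of_left fun θ hθ => by rw [hnu']; exact hgt θ hθ
  refine ⟨i₀, Nat.mod_lt _ hn, hn, hW, hper, hho', fix_of_ho hper hho' (by rw [hnu', hnu]), hab, ?_⟩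
  intro y hy
  obtain ⟨hhoy, ⟨b, hb⟩, i', hi', l', hl'⟩ := orbit_of_left hn hW.2.1 hab hy
  have h1 := (hhoy.shift (i' + 1)).add_int l'
  rw [← hl'] at h1
  have h2 := HO.word_eq (fun i => hW.1 _) hW.1 h1 hho'
  have h3 : (i' + 1) % n = 0 % n := mod_eq_of_word hn hW fun j => by
    rw [Nat.zero_add]; exact congrFun h2 j
  have h4 : n ∣ i' + 1 := Nat.dvd_of_mod_eq_zero (by rw [h3, Nat.zero_mod])
  have h5 : i' + 1 = n := Nat.le_antisymm (by omega) (Nat.le_of_dvd (by omega) h4)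
  rw [h5] at hl'
  refine ⟨-l' - b, ?_⟩
  push_cast
  linarith

namespace LE

variable {n : ℕ} {w : ℕ → ℤ} {t : ℝ} {k : ℤ}

/-- `t` has exact period `n` -/
theorem dvd (h : LE n w t k) {d : ℕ} (hd : ∃ a : ℤ, 2 ^ d * t - t = a) : n ∣ d := by
  obtain ⟨a, ha⟩ := hd
  have h1 := (h.ho.shift d).add_int (-a)
  have e : (2 : ℝ) ^ d * t + ((-a : ℤ) : ℝ) = t := by push_cast; linarith
  rw [e] at h1
  have h2 := HO.word_eq (fun i => h.word.1 _) h.word.1 h1 h.ho
  have h3 : d % n = 0 % n := mod_eq_of_word h.pos h.word fun j => by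
    rw [Nat.zero_add]; exact congrFun h2 j
  exact Nat.dvd_of_mod_eq_zero (by rw [h3, Nat.zero_mod])

/-- at the times `n | j + 1` the point is at the start of the half circle -/
theorem start (h : LE n w t k) {j : ℕ} (hj : (j + 1) % n = 0) :
    ∃ m : ℤ, 2 ^ j * t = (t + w j) / 2 + m := by
  obtain ⟨m, h1, h2⟩ := h.ho j
  obtain ⟨c, hc⟩ := Nat.dvd_of_mod_eq_zero hj
  obtain ⟨a, ha⟩ := h.per
  obtain ⟨b, hb⟩ := pow_per_mul ha c
  rw [← hc, pow_succ] at hb
  have f1 : ((b : ℤ) : ℝ) < ((w j + 2 * m + 1 : ℤ) : ℝ) := by push_cast; linarith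
  have f2 : ((w j + 2 * m - 1 : ℤ) : ℝ) < ((b : ℤ) : ℝ) := by push_cast; linarith
  have f3 : b < w j + 2 * m + 1 := by exact_mod_cast f1
  have f4 : w j + 2 * m - 1 < b := by exact_mod_cast f2
  have f5 : b = w j + 2 * m := by omega
  refine ⟨m, ?_⟩
  rw [f5] at hb
  push_cast at hb
  linarith

/-- at the other times it is not -/
theorem not_start (h : LE n w t k) {j : ℕ} (hj : (j + 1) % n ≠ 0) (m : ℤ) :
    2 ^ j * t ≠ (t + w j) / 2 + m := by
  intro he
  refine hj (Nat.mod_eq_zero_of_dvd (h.dvd (d := j + 1) ⟨w j + 2 * m, ?_⟩))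
  rw [pow_succ]; push_cast; linarith

end LE

/-- no orbit point of `t` in `(t, θ]` -/
def NoPt (x t θ : ℝ) : Prop := ∀ (j : ℕ) (l : ℤ), t < 2 ^ j * x + l → ¬ 2 ^ j * x + l ≤ θ

theorem noPt_mono {x t θ θ' : ℝ} (h : NoPt x t θ) (h' : θ' ≤ θ) : NoPt x t θ' := fun j l h1 h2 =>
  h j l h1 (h2.trans h')

/-- orbits of periodic angles are discrete -/
theorem eventually_noPt {n : ℕ} (hn : 0 < n) {x : ℝ} (hx : ∃ a : ℤ, 2 ^ n * x - x = a) (t : ℝ) :
    ∀ᶠ θ in 𝓝[>] t, NoPt x t θ := by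
  obtain ⟨a, ha⟩ := hx
  have h1 : ∀ᶠ θ in 𝓝[>] t, ∀ j ∈ Finset.range n, θ < 2 ^ j * x - ⌈2 ^ j * x - t⌉ + 1 := by
    rw [Finset.eventually_all]
    intro j _
    refine mem_nhdsWithin_of_mem_nhds (gt_mem_nhds ?_)
    have := Int.ceil_lt_add_one (2 ^ j * x - t)
    linarith
  filter_upwards [h1] with θ hθ j l h2 h3
  obtain ⟨b, hb⟩ := pow_per_mul ha (j / n)
  have e1 : (2 : ℝ) ^ j * x = 2 ^ (j % n) * x + ((2 ^ (j % n) * b : ℤ) : ℝ) := by
    conv_lhs => rw [← Nat.mod_add_div j n]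
    rw [pow_add, mul_assoc, hb]
    push_cast; ring
  have h4 := hθ (j % n) (Finset.mem_range.2 (Nat.mod_lt _ hn))
  rw [e1] at h2 h3
  set u := (2 : ℝ) ^ (j % n) * x with hu
  set c : ℤ := 2 ^ (j % n) * b with hc
  have h5 := Int.le_ceil (u - t)
  have h6 : ((-(c + l) : ℤ) : ℝ) < ⌈u - t⌉ := by push_cast; linarith
  have h7 : -(c + l) < ⌈u - t⌉ := by exact_mod_cast h6
  have h8 : ((-(c + l) + 1 : ℤ) : ℝ) ≤ ⌈u - t⌉ := by exact_mod_cast h7
  push_cast at h8
  linarith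

/-- the lower word: `t` is compatible with it to the right of `t` -/
theorem LE.compat {n : ℕ} {w : ℕ → ℤ} {t : ℝ} {k : ℤ} (h : LE n w t k) {θ : ℝ} (h1 : t < θ)
    (h2 : θ < t + 1) (hno : NoPt t t θ) : Compat t θ (flw n w) := by
  intro j
  unfold flw
  by_cases hj : (j + 1) % n = 0
  · rw [if_pos hj]
    obtain ⟨m, hm⟩ := h.start hj
    refine ⟨m + w j - 1, ?_, ?_⟩ <;> push_cast <;> linarith
  · rw [if_neg hj]
    obtain ⟨m, h3, h4⟩ := h.ho j
    have h5 := lt_of_le_of_ne h3 (Ne.symm (h.not_start hj m))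
    refine ⟨m, ?_, by linarith⟩
    have h6 := hno (j + 1) (-w j - 2 * m)
    push_cast at h6
    rw [pow_succ] at h6
    have h7 := h6 (by linarith)
    linarith [not_le.1 h7]

theorem flw_flw (n : ℕ) (w : ℕ → ℤ) : flw n (flw n w) = w := by
  funext j
  unfold flw
  by_cases hj : (j + 1) % n = 0
  · simp only [if_pos hj]; ring
  · simp only [if_neg hj]

/-- minimal period of a periodic word -/
theorem exists_min_word {n : ℕ} (hn : 0 < n) {v : ℕ → ℤ} (hb : ∀ i, v i = 0 ∨ v i = 1)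
    (hv : ∀ i, v (i + n) = v i) : ∃ d Q, d * Q = n ∧ 0 < d ∧ 0 < Q ∧ Word d v := by
  classical
  have hex : ∃ d, 0 < d ∧ ∀ i, v (i + d) = v i := ⟨n, hn, hv⟩
  set d := Nat.find hex with hd
  obtain ⟨hd0, hdv⟩ := Nat.find_spec hex
  have hmin : ∀ e, e < d → ¬ (0 < e ∧ ∀ i, v (i + e) = v i) := fun e he => Nat.find_min hex he
  have hword : Word d v := by
    refine ⟨hb, hdv, fun e he hed => ?_⟩
    by_contra hcon
    push Not at hcon
    exact hmin e hed ⟨he, hcon⟩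
  have hdvd : d ∣ n := by
    have h1 : n % d = 0 % d := mod_eq_of_word hd0 hword fun i => by
      rw [Nat.zero_add, add_comm]; exact hv i
    exact Nat.dvd_of_mod_eq_zero (by rw [h1, Nat.zero_mod])
  obtain ⟨Q, hQ⟩ := hdvd
  refine ⟨d, Q, hQ.symm, hd0, Nat.pos_of_ne_zero fun h => ?_, hword⟩
  rw [h, mul_zero] at hQ; omega

/-- **dichotomy**: the lower word is exact, or the component is a satellite and `t` is the left end
of the characteristic arc of the parent cycle -/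
theorem LE.cases {n : ℕ} {w : ℕ → ℤ} {t : ℝ} {k : ℤ} (h : LE n w t k) :
    Word n (flw n w) ∨ ∃ d Q t', d * Q = n ∧ CA d Q (flw n w) t t' := by
  have hn := h.pos
  have hbits : ∀ i, flw n w i = 0 ∨ flw n w i = 1 := flw_bit h.word.1
  obtain ⟨d, Q, hdQ, hd0, hQ0, hW⟩ := exists_min_word hn hbits (flw_per h.word.2.1)
  rcases Nat.lt_or_ge 1 Q with hQ | hQ
  swap
  · left
    have : Q = 1 := by omega
    rw [this, mul_one] at hdQ
    rwa [hdQ] at hW
  right
  have hper : PerAngle d Q t := by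
    refine ⟨hQ0, ?_, fun j hj hjQ hcon => ?_⟩
    · rw [hdQ]; exact h.per
    · have h1 := h.dvd hcon
      rw [← hdQ] at h1
      have h2 := Nat.dvd_of_mul_dvd_mul_left hd0 h1
      exact absurd (Nat.le_of_dvd hj h2) (by omega)
  have hlt1 : ∀ᶠ θ in 𝓝[>] t, θ < t + 1 :=
    mem_nhdsWithin_of_mem_nhds (gt_mem_nhds (show t < t + 1 by linarith))
  obtain ⟨θ, ⟨h1, h2⟩, h3⟩ := (((eventually_noPt hn h.per t).and hlt1).and
    self_mem_nhdsWithin).exists
  have h3' : t < θ := h3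
  obtain ⟨i₀, hi₀, s, t', hs, ht', hsA, hCA⟩ := exists_CA hd0 hQ hW hper (h.compat h3' h2 h1)
  -- `s = t`
  obtain ⟨m, l, hml⟩ := hsA
  have hst : s ≤ t := by
    by_contra hcon
    push Not at hcon
    rw [hml] at hcon hs
    exact h1 _ _ hcon hs.le
  have htA : ∃ j, t ∈ AA d s j := by
    have e1 := AA_of_mem hper (s := s) ⟨m, l, hml⟩
    refine ⟨d - i₀, ?_⟩
    rw [e1, show i₀ + (d - i₀) = 0 + d by omega, AA_per hper]
    simpa using mem_AA d t 0
  have hst' : s = t := by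
    rcases hst.lt_or_eq with h4 | h4
    · obtain ⟨j, hj⟩ := htA
      exact absurd (h3'.trans ht') (hCA.nopt j t hj h4)
    · exact h4
  subst hst'
  have hi0 : i₀ = 0 := by
    have h4 : n ∣ i₀ + d * m := h.dvd ⟨-l, by push_cast; linarith⟩
    have h5 : d ∣ i₀ + d * m := Dvd.dvd.trans ⟨Q, hdQ.symm⟩ h4
    have h6 : d ∣ i₀ := (Nat.dvd_add_left ⟨m, rfl⟩).1 h5
    by_contra hcon
    exact absurd (Nat.le_of_dvd (Nat.pos_of_ne_zero hcon) h6) (by omega)
  subst hi0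
  refine ⟨d, Q, t', hdQ, ?_⟩
  have e : (fun j => flw n w (0 + j)) = flw n w := by funext j; rw [Nat.zero_add]
  rwa [e] at hCA

end Pool.Agent.Work.MLC
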