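import Pool.Agent.Work.MLC.Sep70B
import Pool.Agent.Work.MLC.Lab54a

set_option autoImplicit false

/-! # Separation of components of the same period, part C (helper70): the theorem

`sep`: two label intervals of exact period `n` with different left ends `t, t'` in `(0, 1)` are
separated by a cycle of smaller exact period. -/

namespace Pool.Agent.Work.MLC.Sep

open Set Filter Topology Pool.Agent.Work.MLC Pool.Agent.Work.MLC.Circ CircleDeg1Lift

/-! ### words -/

theorem st_congr {w w' : ℕ → ℤ} {y N : ℕ} (h : ∀ i < N, w i = w' i) : ∀ d, y + d ≤ N → 0 < y →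
    st w 0 y d = st w' 0 y d := by
  intro d
  induction d with
  | zero => intro _ _; rfl
  | succ d ih =>
    intro hd hy
    have h1 := ih (by omega) hy
    have h2 := st_le w 0 y d
    rw [st_succ, st_succ, ← h1, stp, stp, h _ (by omega), h (y + d) (by omega)]

/-- the last reset -/
theorem st_back (w : ℕ → ℤ) (y : ℕ) : ∀ d, st w 0 y (d - st w 0 y d) = 0 ∧
    ∀ i < st w 0 y d, w i = w (y + (d - st w 0 y d) + i) := by
  intro d
  induction d with
  | zero => exact ⟨rfl, fun i hi => absurd hi (Nat.not_lt_zero _)⟩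
  | succ d ih =>
    have hle := st_le w 0 y d
    rw [st_succ, stp]
    by_cases h : w (st w 0 y d) = w (y + d)
    · rw [if_pos h]
      refine ⟨?_, fun i hi => ?_⟩
      · rw [show d + 1 - (st w 0 y d + 1) = d - st w 0 y d by omega]; exact ih.1
      · rw [show d + 1 - (st w 0 y d + 1) = d - st w 0 y d by omega]
        rcases Nat.lt_succ_iff_lt_or_eq.1 hi with h1 | h1
        · exact ih.2 i h1
        · rw [h1, h]; congr 1; omega
    · rw [if_neg h]
      refine ⟨?_, fun i hi => absurd hi (Nat.not_lt_zero _)⟩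
      rw [Nat.sub_zero, st_succ, stp, if_neg h]

/-- periodic extension -/
def pe (w : ℕ → ℤ) (S : ℕ) (j : ℕ) : ℤ := w (j % S)

theorem pe_of_lt {w : ℕ → ℤ} {S j : ℕ} (h : j < S) : pe w S j = w j := by
  rw [pe, Nat.mod_eq_of_lt h]

theorem pe_bit {w : ℕ → ℤ} (hw : ∀ i, w i = 0 ∨ w i = 1) (S i : ℕ) : pe w S i = 0 ∨ pe w S i = 1 :=
  hw _

theorem pe_per (w : ℕ → ℤ) (S i : ℕ) : pe w S (i + S) = pe w S i := by
  rw [pe, pe, Nat.add_mod_right]

theorem pe_word {w : ℕ → ℤ} (hw : ∀ i, w i = 0 ∨ w i = 1) {S : ℕ} (hS : 0 < S)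
    (h : st w 0 1 (S - 1) = 0) : st (pe w S) 0 1 (S - 1) = 0 ∧ Word S (pe w S) := by
  have h1 : st (pe w S) 0 1 (S - 1) = 0 := by
    have h2 := st_congr (w := pe w S) (w' := w) (y := 1) (N := S) (fun i hi => pe_of_lt hi) (S - 1)
      (by omega) one_pos
    exact h2.trans h
  exact ⟨h1, pe_bit hw S, pe_per w S, fun d hd hdS =>
    prim_of_run hS (pe_bit hw S) (pe_per w S) h1 hd hdS⟩

/-- **kneading step**: the first difference of the kneading sequences gives a separating word -/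
theorem case_first {w w₁ : ℕ → ℤ} {t t₁ : ℝ} {j₀ : ℕ} (hj : 1 ≤ j₀) (hw : ∀ i, w i = 0 ∨ w i = 1)
    (hw₁ : ∀ i, w₁ i = 0 ∨ w₁ i = 1) (hag : ∀ i < j₀, w i = w₁ i) (hne : w j₀ ≠ w₁ j₀)
    (hs : ∀ i ≤ j₀, InHalfO (t + w i) (2 ^ i * t)) (hs₁ : ∀ i ≤ j₀, InHalfO (t₁ + w₁ i) (2 ^ i * t₁))
    (hr : st w 0 1 j₀ = 0)
    (H : ∀ u, Word (j₀ + 1) u → (∀ m : ℤ, nu u (j₀ + 1) t ≠ m) →
      nu u (j₀ + 1) t = nu u (j₀ + 1) t₁) : False := by
  obtain ⟨h1, h2⟩ := pe_word hw (S := j₀ + 1) (by omega) hr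
  have h3 : ∀ m : ℤ, nu (pe w (j₀ + 1)) (j₀ + 1) t ≠ m := fun m =>
    nu_ne_int (by omega) (pe_bit hw _) (pe_per w _) h1
      (fun i hi => by rw [pe_of_lt hi]; exact hs i (by omega)) m
  have h4 := H _ h2 h3
  obtain ⟨m, hm⟩ := nu_int_of_flip (w := pe w (j₀ + 1)) (n := j₀) (θ := t₁) (pe_bit hw _)
    (fun i hi => by rw [pe_of_lt (by omega), hag i hi]; exact hs₁ i hi.le) (hw₁ j₀)
    (by rw [pe_of_lt (by omega)]; exact hne.symm) (hs₁ j₀ le_rfl)
  exact h3 m (h4.trans hm)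

/-! ### the left end -/

theorem strict_of_LE {n : ℕ} {w : ℕ → ℤ} {t : ℝ} {k : ℤ} (h : LE n w t k) {i : ℕ} (hi : i + 1 < n) :
    InHalfO (t + w i) (2 ^ i * t) := by
  obtain ⟨m, h1, h2⟩ := h.ho i
  refine ⟨m, lt_of_le_of_ne h1 (Ne.symm (h.not_start ?_ m)), h2⟩
  rw [Nat.mod_eq_of_lt hi]; omega

/-- the last step starts at the start of the half circle -/
theorem pre_last {L : ℕ} {w : ℕ → ℤ} {t : ℝ} {k : ℤ} (h : LE (L + 1) w t k) :
    gw w t L t = (t + w L) / 2 + ((k - w L : ℤ) : ℝ) := by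
  obtain ⟨c, hc⟩ := gw_lin w t t L fun i _ => by
    obtain ⟨m, h1, h2⟩ := h.ho i
    exact ⟨m, h1, h2.le⟩
  obtain ⟨m, hm⟩ := h.start (j := L) (Nat.mod_self _)
  have h1 : gw w t L t = (t + w L) / 2 + ((m - c : ℤ) : ℝ) := by
    rw [hc, hm]; push_cast; ring
  have h2 := h.fix
  rw [gw_succ_apply, h1, tdbl_lin (m - c) le_rfl (by linarith)] at h2
  have h3 : ((m - c : ℤ) : ℝ) = ((k - w L : ℤ) : ℝ) := by
    push_cast at h2 ⊢; linarith
  rw [h1, h3]

theorem sym_zero {n : ℕ} {w : ℕ → ℤ} {t : ℝ} {k : ℤ} (h : LE n w t k) (h0 : 0 < t) (h1 : t < 1) :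
    w 0 = 0 := by
  obtain ⟨m, h2, h3⟩ := h.ho 0
  rcases h.word.1 0 with h4 | h4
  · exact h4
  · exfalso
    rw [h4, pow_zero, one_mul] at h2 h3
    push_cast at h2 h3
    have e1 : (m : ℝ) < ((0 : ℤ) : ℝ) := by push_cast; linarith
    have e2 : ((-1 : ℤ) : ℝ) < (m : ℝ) := by push_cast; linarith
    have e3 : m < 0 := by exact_mod_cast e1
    have e4 : -1 < m := by exact_mod_cast e2
    omega

theorem gt_of_nu {w : ℕ → ℤ} {n : ℕ} {θ : ℝ} {k : ℤ} (h : (k : ℝ) < nu w n θ) (x : ℝ) :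
    x + k < gw w θ n x := by
  by_contra hcon
  push Not at hcon
  have h2 : nu w n θ ≤ k := translationNumber_le_of_le_add_int _ hcon
  exact absurd h (not_lt.2 h2)

/-! ### the limb -/

/-- the orbit of the left end of a limb does not depend on the angle in the closed limb -/
theorem orbit_const {S q : ℕ} {u : ℕ → ℤ} {a b : ℝ} (h : CA S q u a b) (j : ℕ) :
    ∃ z ∈ AA S a j, ∀ θ, a ≤ θ → θ ≤ b → gw u θ j a = z := by
  induction j with
  | zero => exact ⟨a, by simpa using mem_AA S a 0, fun θ _ _ => rfl⟩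
  | succ j ih =>
    obtain ⟨z, hz, hz'⟩ := ih
    obtain ⟨k, h1, h2⟩ := h.pos_arc hz
    refine ⟨2 * z - k, AA_dbl' hz k, fun θ h3 h4 => ?_⟩
    rw [gw_succ_apply, hz' θ h3 h4, tdbl_lin k (by linarith) (by linarith)]

/-- three point unlinking: the phase of the limb -/
theorem phase_eq {S q : ℕ} {u : ℕ → ℤ} {i₀ : ℕ} {a b θ : ℝ} (hu : Word S u) (hi₀ : i₀ < S)
    (h : CA S q (fun j => u (i₀ + j)) a b) (h1 : a < θ) (h2 : θ < b)
    (hθ : ∀ i < S, InHalfO (θ + u i) (2 ^ i * θ)) : (fun j => u (i₀ + j)) = u := by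
  by_contra hne
  have hS : 0 < S := by omega
  -- the first difference
  have hex : ∃ k, u (i₀ + k) ≠ u k := by
    by_contra hcon
    push Not at hcon
    exact hne (funext hcon)
  classical
  set k := Nat.find hex with hk
  have hk1 : u (i₀ + k) ≠ u k := Nat.find_spec hex
  have hk2 : ∀ j < k, u (i₀ + j) = u j := fun j hj => by
    by_contra hcon
    exact Nat.find_min hex hj hcon
  have hkS : k < S := by
    by_contra hcon
    push Not at hcon
    have h3 := hk2 (k - S) (by omega)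
    apply hk1
    have e1 : u (i₀ + k) = u (i₀ + (k - S)) := by
      rw [show i₀ + k = i₀ + (k - S) + S by omega, hu.2.1]
    have e2 : u k = u (k - S) := by
      conv_lhs => rw [show k = (k - S) + S by omega, hu.2.1]
    rw [e1, h3, e2]
  -- the ray `y` of the phase `S - i₀`
  set y₀ : ℝ := 2 ^ (S - i₀) * a with hy₀
  have hy₀A : y₀ ∈ AA S a (S - i₀) := mem_AA S a _
  set y : ℝ := y₀ - ⌈y₀ - a⌉ with hy
  have hyA : y ∈ AA S a (S - i₀) := by
    have := AA_shift hy₀A (-⌈y₀ - a⌉)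
    push_cast at this
    rwa [← sub_eq_add_neg] at this
  have hya : y ≤ a := by have := Int.le_ceil (y₀ - a); linarith
  have hya' : a < y + 1 := by have := Int.ceil_lt_add_one (y₀ - a); linarith
  have hyb : b ≤ y + 1 := by
    by_contra hcon
    push Not at hcon
    refine h.nopt' (AA_shift hyA 1) 0 ?_ ?_ <;> push_cast <;> linarith
  -- orbits up to the time `k`
  have hgu : gw (fun j => u (i₀ + j)) θ k = gw u θ k := gw_congr θ k hk2
  have hYk : ∀ j, gw u θ j y ∈ AA S a (S - i₀ + j) := by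
    intro j
    induction j with
    | zero => exact hyA
    | succ j ih =>
      have h3 := h.half h1 h2 (S - i₀ + j)
      have e : u (i₀ + (S - i₀ + j)) = u j := by
        rw [show i₀ + (S - i₀ + j) = j + S by omega, hu.2.1]
      simp only [e] at h3
      obtain ⟨c, hc, -, -⟩ := tdbl_of_inHalf h3 ih
      rw [gw_succ_apply, hc]
      exact AA_dbl' ih c
  obtain ⟨ky, -, y1, y2⟩ := tdbl_of_inHalf (h.half h1 h2 (S - i₀ + k)) (hYk k)
  have e : u (i₀ + (S - i₀ + k)) = u k := by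
    rw [show i₀ + (S - i₀ + k) = k + S by omega, hu.2.1]
  simp only [e] at y1 y2
  obtain ⟨-, ka, -, a1, a2⟩ := h.gw_pt h1 h2 (x := a) (by simpa using mem_AA S a 0) k
  obtain ⟨-, kb, -, b1, b2⟩ := h.gw_pt h1 h2 h.mem k
  rw [hgu] at a1 a2 b1 b2
  obtain ⟨c, hc⟩ := gw_lin u θ θ k fun i hi => by
    obtain ⟨m, h3, h4⟩ := hθ i (by omega)
    exact ⟨m, h3.le, h4.le⟩
  obtain ⟨kt, t1, t2⟩ := hθ k hkS
  have t1' : (θ + u k) / 2 + ((kt - c : ℤ) : ℝ) < gw u θ k θ := by rw [hc]; push_cast; linarith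
  have t2' : gw u θ k θ < (θ + u k) / 2 + ((kt - c : ℤ) : ℝ) + 1 / 2 := by
    rw [hc]; push_cast; linarith
  have g1 : gw u θ k y ≤ gw u θ k a := (gw u θ k).monotone hya
  have g2 : gw u θ k a ≤ gw u θ k θ := (gw u θ k).monotone h1.le
  have g3 : gw u θ k θ ≤ gw u θ k b := (gw u θ k).monotone h2.le
  have g4 : gw u θ k b ≤ gw u θ k y + 1 := by
    rw [← map_add_one]; exact (gw u θ k).monotone hyb
  -- compare the numbers of the arcs
  have key : ∀ (v v' : ℤ) (p r : ℝ) (ep er : ℤ),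
      (θ + ep) / 2 + v < p → r < (θ + er) / 2 + v' + 1 / 2 → p ≤ r → ep + 2 * v ≤ er + 2 * v' := by
    intro v v' p r ep er h3 h4 h5
    have : ((ep + 2 * v : ℤ) : ℝ) < ((er + 2 * v' + 1 : ℤ) : ℝ) := by push_cast; linarith
    have h6 : ep + 2 * v < er + 2 * v' + 1 := by exact_mod_cast this
    omega
  have k1 := key ky ka _ _ _ _ y1 a2 g1
  have k2 := key ka (kt - c) _ _ _ _ a1 t2' g2
  have k3 := key (kt - c) kb _ _ _ _ t1' b2 g3
  have k4 := key kb (ky + 1) (gw u θ k b) (gw u θ k y + 1) (u (i₀ + k)) (u k) b1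
    (by push_cast; linarith) g4
  have hb1 := hu.1 k
  have hb2 := hu.1 (i₀ + k)
  omega

/-- **no continuation of the periodic pattern** -/
theorem last_ne {S q n : ℕ} {u w : ℕ → ℤ} {a b t : ℝ} {k : ℤ} (h : CA S q u a b) (ha : a ≤ t)
    (hb : t < b) (hfix : gw w t n t = t + k) (hgt : ∀ θ, t < θ → (k : ℝ) < nu w n θ)
    (hag : ∀ j < n, w j = u j) : False := by
  obtain ⟨z, hz, hz'⟩ := orbit_const h n
  have h1 : gw w t n a = z := by rw [gw_congr t n hag]; exact hz' t ha hb.le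
  have h2 : z ≤ t + k := by rw [← h1, ← hfix]; exact (gw w t n).monotone ha
  set θ := (t + b) / 2 with hθ
  have h3 : gw w θ n a = z := by
    rw [gw_congr θ n hag]; exact hz' θ (by linarith) (by linarith)
  have h4 := gt_of_nu (hgt θ (by linarith)) a
  rw [h3] at h4
  exact h.nopt' hz k h4 (by linarith)

theorem last_ne_end {S q n : ℕ} {u w : ℕ → ℤ} {a b : ℝ} {k : ℤ} (h : CA S q u a b)
    (hSn : S < n) (hLE : LE n w b k) (hag : ∀ j < n, w j = u j) : False := by
  have h1 : n ∣ S * q := hLE.dvd h.per_t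
  obtain ⟨c, hc⟩ := hLE.per
  have h2 : S * q ∣ n := h.dvd_of_per h.mem (j := n) (m := c) (by linarith)
  have h3 : n = S * q := Nat.dvd_antisymm h1 h2
  have hSd : S ∣ n := ⟨q, h3⟩
  have hn := hLE.pos
  have hwu : w = u := by
    funext j
    have e1 : w j = w (j % n) := by
      conv_lhs => rw [← Nat.mod_add_div j n]
      exact word_mod hLE.word.2.1 _ _
    have e2 : u j = u (j % n) := by
      conv_lhs => rw [← Nat.mod_add_div j n]
      obtain ⟨e, he⟩ := hSd
      rw [he, mul_assoc]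
      exact word_mod h.word.2.1 _ _
    rw [e1, e2]
    exact hag _ (Nat.mod_lt _ hn)
  obtain ⟨i, hi⟩ := hLE.word.2.2 S h.pos hSn
  apply hi
  rw [hwu]
  exact h.word.2.1 i

/-- **the theorem in the characteristic phase** -/
theorem no_two {n : ℕ} {w w₁ : ℕ → ℤ} {t t₁ : ℝ} {k k₁ : ℤ} (h : LE n w t k) (h₁ : LE n w₁ t₁ k₁)
    (hgt : ∀ θ, t < θ → (k : ℝ) < nu w n θ) (hgt₁ : ∀ θ, t₁ < θ → (k₁ : ℝ) < nu w₁ n θ)
    (hnu₁ : nu w₁ n t₁ = k₁) (htt : t < t₁) (h0 : 0 < t) (h1 : t₁ < 1)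
    (H : ∀ S, 0 < S → S < n → ∀ u, Word S u →
      ((∀ m : ℤ, nu u S t ≠ m) ∨ ∀ m : ℤ, nu u S t₁ ≠ m) → nu u S t = nu u S t₁) : False := by
  have hw := h.word.1
  have hw₁ := h₁.word.1
  have hn := h.pos
  -- `n ≥ 2`
  obtain ⟨L, rfl⟩ : ∃ L, n = L + 1 := ⟨n - 1, by omega⟩
  have hL : 1 ≤ L := by
    by_contra hcon
    have hL0 : L = 0 := by omega
    subst hL0
    obtain ⟨c, hc⟩ := h.per
    rw [zero_add, pow_one] at hc
    have e1 : ((0 : ℤ) : ℝ) < (c : ℝ) := by push_cast; linarith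
    have e2 : (c : ℝ) < ((1 : ℤ) : ℝ) := by push_cast; linarith
    have e3 : 0 < c := by exact_mod_cast e1
    have e4 : c < 1 := by exact_mod_cast e2
    omega
  -- step 1: the kneading sequences agree
  have hag : ∀ j < L, w j = w₁ j := by
    by_contra hcon
    push Not at hcon
    classical
    set j₀ := Nat.find hcon with hj₀
    obtain ⟨hjL, hjne⟩ := Nat.find_spec hcon
    have hmin : ∀ j < j₀, w j = w₁ j := fun j hj => by
      by_contra hc
      exact Nat.find_min hcon hj ⟨by omega, hc⟩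
    have hj1 : 1 ≤ j₀ := by
      by_contra hc
      have hz : j₀ = 0 := by omega
      rw [← hj₀, hz] at hjne
      exact hjne ((sym_zero h h0 (by linarith)).trans (sym_zero h₁ (by linarith) h1).symm)
    rw [← hj₀] at hjL hjne
    have hs : ∀ i ≤ j₀, InHalfO (t + w i) (2 ^ i * t) := fun i hi => strict_of_LE h (by omega)
    have hs₁ : ∀ i ≤ j₀, InHalfO (t₁ + w₁ i) (2 ^ i * t₁) := fun i hi => strict_of_LE h₁ (by omega)
    obtain ⟨j, hj⟩ : ∃ j, j₀ = j + 1 := ⟨j₀ - 1, by omega⟩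
    have hst : st w 0 1 j = st w₁ 0 1 j := st_congr (N := j₀) hmin j (by omega) one_pos
    have hsle := st_le w 0 1 j
    have hsym : w (st w 0 1 j) = w₁ (st w 0 1 j) := hmin _ (by omega)
    by_cases hc : w (st w 0 1 j) = w j₀
    · -- the other word resets
      have hc1 : w₁ (st w₁ 0 1 j) ≠ w₁ (1 + j) := by
        rw [← hst, ← hsym, hc, show 1 + j = j₀ by omega]; exact hjne
      refine case_first hj1 hw₁ hw (fun i hi => (hmin i hi).symm) hjne.symm hs₁ hs ?_ ?_
      · rw [hj, st_succ, stp, if_neg hc1]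
      · intro u hu hm
        exact (H _ (by omega) (by omega) u hu (Or.inr hm)).symm
    · have hc1 : w (st w 0 1 j) ≠ w (1 + j) := by
        rw [show 1 + j = j₀ by omega]; exact hc
      refine case_first hj1 hw hw₁ hmin hjne hs hs₁ ?_ ?_
      · rw [hj, st_succ, stp, if_neg hc1]
      · intro u hu hm
        exact H _ (by omega) (by omega) u hu (Or.inl hm)
  -- step 2: the last reset
  obtain ⟨hb1, hb2⟩ := st_back w 1 (L - 1)
  have hsle := st_le w 0 1 (L - 1)
  set s := st w 0 1 (L - 1) with hs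
  set S := L - s with hS
  have hS0 : 0 < S := by omega
  have hSL : S ≤ L := by omega
  have hr : st w 0 1 (S - 1) = 0 := by
    rw [show S - 1 = L - 1 - s by omega]; exact hb1
  have hmatch : ∀ j < L, w j = pe w S j := by
    intro j
    induction j using Nat.strong_induction_on with
    | _ j ih =>
      intro hj
      rcases Nat.lt_or_ge j S with h2 | h2
      · rw [pe_of_lt h2]
      · have h3 := hb2 (j - S) (by omega)
        rw [show 1 + (L - 1 - s) + (j - S) = j by omega] at h3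
        have h4 := ih (j - S) (by omega) (by omega)
        rw [← h3, h4, ← pe_per, Nat.sub_add_cancel h2]
  set u := pe w S with hu
  obtain ⟨hur, huW⟩ := pe_word hw hS0 hr
  have hni : ∀ m : ℤ, nu u S t ≠ m := fun m =>
    nu_ne_int hS0 (pe_bit hw _) (pe_per w _) hur
      (fun i hi => by rw [pe_of_lt hi]; exact strict_of_LE h (by omega)) m
  have hEq := H S hS0 (by omega) u huW (Or.inl hni)
  -- rational
  obtain ⟨Q, P, hQ, hQn, hPQ⟩ := weak_gap u S (L + 1) (by omega) h.per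
  set r : ℚ := (P : ℚ) / Q with hrdef
  have hnr : nu u S t = (r.num : ℝ) / (r.den : ℕ) := by
    have e1 : nu u S t = ((r : ℚ) : ℝ) := by rw [hPQ, hrdef]; push_cast; ring
    rw [e1]
    exact (Rat.cast_def r)
  have hq2 : 2 ≤ r.den := by
    by_contra hc
    have hd : r.den = 1 := by have := r.den_pos; omega
    rw [hd] at hnr
    exact hni r.num (by rw [hnr]; simp)
  have hcop : IsCoprime r.num (r.den : ℤ) := by
    rw [Int.isCoprime_iff_gcd_eq_one]
    exact r.reduced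
  obtain ⟨i₀, hi₀, a, b, hCA, hpl⟩ := exists_arc hS0 hq2 huW hcop
  have hat := (hpl t).1 (by rw [nu_shift_word u S huW.2.1]; exact hnr)
  have hbt := (hpl t₁).1 (by rw [nu_shift_word u S huW.2.1, ← hEq]; exact hnr)
  have htb : t < b := by linarith [hbt.2]
  -- the phase
  have hopen : ∀ᶠ θ in 𝓝[>] t, ∀ i ∈ Finset.range S, InHalfO (θ + u i) (2 ^ i * θ) := by
    rw [Finset.eventually_all]
    intro i hi
    have hi' := Finset.mem_range.1 hi
    obtain ⟨m, h2, h3⟩ := strict_of_LE h (i := i) (by omega)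
    have c1 : Continuous fun θ : ℝ => 2 ^ i * θ - ((θ + u i) / 2 + m) := by fun_prop
    have c2 : Continuous fun θ : ℝ => (θ + u i) / 2 + m + 1 / 2 - 2 ^ i * θ := by fun_prop
    have hui : u i = w i := pe_of_lt hi'
    have e1 := (c1.tendsto t).eventually (lt_mem_nhds (show (0 : ℝ) < _ by rw [hui]; linarith))
    have e2 := (c2.tendsto t).eventually (lt_mem_nhds (show (0 : ℝ) < _ by rw [hui]; linarith))
    filter_upwards [mem_nhdsWithin_of_mem_nhds e1, mem_nhdsWithin_of_mem_nhds e2] with θ h4 h5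
    exact ⟨m, by linarith, by linarith⟩
  have hltb : ∀ᶠ θ in 𝓝[>] t, θ < b := mem_nhdsWithin_of_mem_nhds (gt_mem_nhds htb)
  obtain ⟨θ, ⟨h2, h3⟩, h4⟩ := ((hopen.and hltb).and self_mem_nhdsWithin).exists
  have h4' : t < θ := h4
  have hph := phase_eq huW hi₀ hCA (lt_of_le_of_lt hat.1 h4') h3
    fun i hi => h2 i (Finset.mem_range.2 hi)
  rw [hph] at hCA
  -- the last symbols
  have hlast : w L ≠ u L := by
    intro hc
    refine last_ne (n := L + 1) hCA hat.1 htb h.fix hgt fun j hj => ?_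
    rcases Nat.lt_succ_iff_lt_or_eq.1 hj with h5 | h5
    · exact hmatch j h5
    · rw [h5]; exact hc
  have hag₁ : ∀ j < L, w₁ j = u j := fun j hj => (hag j hj).symm.trans (hmatch j hj)
  have hlast₁ : w₁ L ≠ u L := by
    intro hc
    have hall : ∀ j < L + 1, w₁ j = u j := fun j hj => by
      rcases Nat.lt_succ_iff_lt_or_eq.1 hj with h5 | h5
      · exact hag₁ j h5
      · rw [h5]; exact hc
    rcases hbt.2.lt_or_eq with h5 | h5
    · exact last_ne (n := L + 1) hCA hbt.1 h5 h₁.fix hgt₁ hall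
    · subst h5
      exact last_ne_end hCA (by omega) h₁ hall
  have hwL : w L = w₁ L := by
    have hub := pe_bit hw S L
    rw [← hu] at hub
    rcases hw L with h5 | h5 <;> rcases hw₁ L with h6 | h6
    · rw [h5, h6]
    · exfalso
      rcases hub with h7 | h7
      · exact hlast (h5.trans h7.symm)
      · exact hlast₁ (h6.trans h7.symm)
    · exfalso
      rcases hub with h7 | h7
      · exact hlast₁ (h6.trans h7.symm)
      · exact hlast (h5.trans h7.symm)
    · rw [h5, h6]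
  have hww : ∀ j < L + 1, w j = w₁ j := fun j hj => by
    rcases Nat.lt_succ_iff_lt_or_eq.1 hj with h5 | h5
    · exact hag j h5
    · rw [h5]; exact hwL
  -- step 3: `k < k₁`
  have hk : k < k₁ := by
    have h5 := hgt t₁ htt
    have h6 : nu w (L + 1) t₁ = k₁ := by
      rw [← hnu₁]; unfold nu; rw [gw_congr t₁ (L + 1) hww]
    rw [h6] at h5
    exact_mod_cast h5
  have hk' : (k : ℝ) + 1 ≤ k₁ := by exact_mod_cast hk
  have e1 := pre_last h
  have e2 := pre_last h₁
  obtain ⟨z, -, hz⟩ := orbit_const hCA L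
  have f1 : gw w t L a = z := by rw [gw_congr t L hmatch]; exact hz t hat.1 htb.le
  have f2 : gw w₁ t₁ L a = z := by rw [gw_congr t₁ L hag₁]; exact hz t₁ hbt.1 hbt.2
  have g1 : gw w t L a ≤ gw w t L t := (gw w t L).monotone hat.1
  have g2 : gw w₁ t₁ L t₁ ≤ gw w₁ t₁ L a + 1 := by
    rw [← map_add_one]
    refine (gw w₁ t₁ L).monotone ?_
    have := hCA.lt'
    linarith [hbt.2]
  rw [e1, f1] at g1
  rw [e2, f2, ← hwL] at g2
  push_cast at g1 g2
  linarith

/-- the left end determines the label in the characteristic phase -/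
theorem label_unique {n : ℕ} {w w₁ : ℕ → ℤ} {t : ℝ} {k k₁ : ℤ} (h : LE n w t k)
    (h₁ : LE n w₁ t k₁) : w = w₁ ∧ k = k₁ := by
  have h2 := HO.word_eq h.word.1 h₁.word.1 h.ho h₁.ho
  subst h2
  have h3 := h.fix
  rw [h₁.fix] at h3
  have h4 : (k₁ : ℝ) = k := by linarith
  exact ⟨rfl, by exact_mod_cast h4.symm⟩

/-- **separation theorem**: two labels of exact period `n` whose left ends are in `(0, 1)`, and which
no cycle of smaller exact period separates, are the same -/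
theorem sep {n : ℕ} (hn : 0 < n) {w w₁ : ℕ → ℤ} (hw : Word n w) (hw₁ : Word n w₁) {k k₁ : ℤ}
    {t t₁ : ℝ} (ht0 : 0 < t) (ht1 : t < 1) (ht0' : 0 < t₁) (ht1' : t₁ < 1) (hl : nu w n t = k)
    (hgt : ∀ θ, t < θ → (k : ℝ) < nu w n θ) (hl₁ : nu w₁ n t₁ = k₁)
    (hgt₁ : ∀ θ, t₁ < θ → (k₁ : ℝ) < nu w₁ n θ)
    (H : ∀ S, 0 < S → S < n → ∀ u, Word S u →
      ((∀ m : ℤ, nu u S t ≠ m) ∨ ∀ m : ℤ, nu u S t₁ ≠ m) → nu u S t = nu u S t₁) :
    t = t₁ ∧ k = k₁ ∧ ∃ i i₁ : ℕ, i < n ∧ i₁ < n ∧ ∀ j, w (i + j) = w₁ (i₁ + j) := by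
  obtain ⟨i, hi, hLE⟩ := exists_LE hn hw hl hgt
  obtain ⟨i₁, hi₁, hLE₁⟩ := exists_LE hn hw₁ hl₁ hgt₁
  have e : ∀ θ, nu (fun j => w (i + j)) n θ = nu w n θ := fun θ => nu_shift_word w n hw.2.1 θ i
  have e₁ : ∀ θ, nu (fun j => w₁ (i₁ + j)) n θ = nu w₁ n θ := fun θ =>
    nu_shift_word w₁ n hw₁.2.1 θ i₁
  have htt : t = t₁ := by
    rcases lt_trichotomy t t₁ with h | h | h
    · exact (no_two hLE hLE₁ (fun θ hθ => by rw [e]; exact hgt θ hθ)
        (fun θ hθ => by rw [e₁]; exact hgt₁ θ hθ) (by rw [e₁]; exact hl₁) h ht0 ht1' H).elim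
    · exact h
    · exact (no_two hLE₁ hLE (fun θ hθ => by rw [e₁]; exact hgt₁ θ hθ)
        (fun θ hθ => by rw [e]; exact hgt θ hθ) (by rw [e]; exact hl) h ht0' ht1
        fun S hS hSn u hu hm => (H S hS hSn u hu hm.symm).symm).elim
  subst htt
  obtain ⟨h1, h2⟩ := label_unique hLE hLE₁
  exact ⟨rfl, h2, i, i₁, hi, hi₁, fun j => congrFun h1 j⟩

end Pool.Agent.Work.MLC.Sep
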