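import Pool.Agent.Work.MLC.PriSepA26
import Pool.Agent.Work.MLC.Sep70C

set_option autoImplicit false

/-! # The separation of labels (helper70): `SEP` with barriers of period at most `n` -/

namespace Pool.Agent.Work.MLC.Pri

theorem sep70 : Sep70 := by
  intro n w w' k k' t t' hn hw hw' ht ht' h0 h1 h0' h1' H
  exact (Sep.sep (by omega) hw hw' h0 h1 h0' h1' ht.1 ht.2 ht'.1 ht'.2 H).1

/-- **separation of the labels** -/
theorem sepD : SEP (fun n => n) := sep_of_70 sep70

end Pool.Agent.Work.MLC.Pri
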