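import Pool.Agent.Work.MLC.CntW54
import Pool.Agent.Work.MLC.PriSep70
import Pool.Agent.Work.MLC.PerL54

set_option autoImplicit false

/-! # Theorem F, module G4: the ends of level `N` are dense at the scale `2 ^ (-N)` (helper78)

* `gs_exact`: `k / (2 ^ N - 1)` or `(k + 1) / (2 ^ N - 1)` has exact period `N` (the cyclotomic
  value divides the numerators of the others).
* `gs_end`: every angle `t` of exact period `N` is the left end of a strip, or `-t` is (by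
  helper70's parse of the itinerary of `t`).
* `gs_nu_refl`: reflection of the rotation numbers.
* `gs_sep_dat`: two ends of the same kind are separated by a plateau of level `N` (SEP).
* `g4_short`: every interval of length `16 / 2 ^ N` contains an end of a plateau of level `N`. -/

namespace Pool.Agent.Work.MLC.Cnt

open Filter Topology Metric Set
open Pool.Agent.Work.MLC.Circ Pool.Agent.Work.MLC.Sep CircleDeg1Lift

/-! ### Angles of exact period `N` -/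

/-- `k / (2 ^ N - 1)` or `(k + 1) / (2 ^ N - 1)` has exact period `N` -/
lemma gs_exact_aux {N : ℕ} (hN : 2 ≤ N) {k : ℤ} {d : ℕ} (hd : 0 < d) (hdN : d < N) {b : ℤ}
    (h : (2 ^ d - 1) * k = b * (2 ^ N - 1)) :
    (Polynomial.cyclotomic N ℤ).eval 2 ∣ k := by
  set M : ℤ := 2 ^ N - 1 with hM
  have hM0 : (0 : ℤ) < M := by
    have : (2 : ℤ) ^ 1 ≤ 2 ^ N := pow_le_pow_right₀ (by norm_num) (by omega)
    rw [hM]; linarith
  have hMn : ((2 ^ N - 1 : ℕ) : ℤ) = M := by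
    rw [Nat.cast_sub Nat.one_le_two_pow]; push_cast; rfl
  let f : ZMod (2 ^ N - 1) → ZMod (2 ^ N - 1) := fun x => 2 * x
  have hf : ∀ (j : ℕ) (x : ZMod (2 ^ N - 1)), f^[j] x = 2 ^ j * x := by
    intro j
    induction j with
    | zero => intro x; simp
    | succ j ih => intro x; rw [Function.iterate_succ_apply', ih, pow_succ]; show 2 * _ = _; ring
  have key : ∀ j : ℕ, Function.IsPeriodicPt f j (k : ZMod (2 ^ N - 1)) ↔ M ∣ (2 ^ j - 1) * k := by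
    intro j
    rw [Function.IsPeriodicPt, Function.IsFixedPt, hf, ← sub_eq_zero, ← hMn,
      ← ZMod.intCast_zmod_eq_zero_iff_dvd]
    push_cast
    constructor
    · intro h; rw [← h]; ring
    · intro h; rw [← h]; ring
  have h1 : Function.IsPeriodicPt f N (k : ZMod (2 ^ N - 1)) := (key N).2 ⟨k, by rw [hM]⟩
  have h2 : Function.IsPeriodicPt f d (k : ZMod (2 ^ N - 1)) := (key d).2 ⟨b, by rw [h]; ring⟩
  have h3 := h1.gcd h2
  set g := Nat.gcd N d with hg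
  have hg0 : 0 < g := Nat.gcd_pos_of_pos_right _ hd
  have hgN : g < N := (Nat.gcd_le_right _ hd).trans_lt hdN
  have h4 := (key g).1 h3
  have h5 : ((Polynomial.X ^ g - 1) * Polynomial.cyclotomic N ℤ) ∣ Polynomial.X ^ N - 1 :=
    Polynomial.X_pow_sub_one_mul_cyclotomic_dvd_X_pow_sub_one_of_dvd ℤ
      (Nat.mem_properDivisors.2 ⟨Nat.gcd_dvd_left _ _, hgN⟩)
  have h6 := Polynomial.eval_dvd (x := (2 : ℤ)) h5
  simp only [Polynomial.eval_mul, Polynomial.eval_sub, Polynomial.eval_pow, Polynomial.eval_X,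
    Polynomial.eval_one] at h6
  have h7 : ((2 : ℤ) ^ g - 1) * (Polynomial.cyclotomic N ℤ).eval 2 ∣ (2 ^ g - 1) * k :=
    h6.trans h4
  have h8 : (2 : ℤ) ^ g - 1 ≠ 0 := by
    have : (2 : ℤ) ^ 1 ≤ 2 ^ g := pow_le_pow_right₀ (by norm_num) (by omega)
    linarith
  exact (mul_dvd_mul_iff_left h8).1 h7

lemma gs_exact {N : ℕ} (hN : 2 ≤ N) (k : ℤ) : ∃ t : ℝ, (t = k / (2 ^ N - 1) ∨
    t = (k + 1 : ℝ) / (2 ^ N - 1)) ∧ (∃ a : ℤ, (2 : ℝ) ^ N * t - t = a) ∧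
    ∀ d, 0 < d → d < N → ¬ ∃ b : ℤ, (2 : ℝ) ^ d * t - t = b := by
  have hM0 : (0 : ℝ) < 2 ^ N - 1 := by
    have : (2 : ℝ) ^ 1 ≤ 2 ^ N := pow_le_pow_right₀ (by norm_num) (by omega)
    linarith
  have hper : ∀ k : ℤ, ∃ a : ℤ, (2 : ℝ) ^ N * ((k : ℝ) / (2 ^ N - 1)) - (k : ℝ) / (2 ^ N - 1) = a :=
    fun k => ⟨k, by field_simp⟩
  have haux : ∀ k : ℤ, (∃ d, 0 < d ∧ d < N ∧ ∃ b : ℤ,
      (2 : ℝ) ^ d * ((k : ℝ) / (2 ^ N - 1)) - (k : ℝ) / (2 ^ N - 1) = b) →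
      (Polynomial.cyclotomic N ℤ).eval 2 ∣ k := by
    rintro k ⟨d, h1, h2, b, hb⟩
    refine gs_exact_aux hN h1 h2 (b := b) ?_
    have h3 : ((2 : ℝ) ^ d - 1) * k = b * (2 ^ N - 1) := by
      rw [← hb]; field_simp
    exact_mod_cast h3
  by_cases h1 : ∃ d, 0 < d ∧ d < N ∧ ∃ b : ℤ,
      (2 : ℝ) ^ d * ((k : ℝ) / (2 ^ N - 1)) - (k : ℝ) / (2 ^ N - 1) = b
  · by_cases h2 : ∃ d, 0 < d ∧ d < N ∧ ∃ b : ℤ,
        (2 : ℝ) ^ d * (((k + 1 : ℤ) : ℝ) / (2 ^ N - 1)) - ((k + 1 : ℤ) : ℝ) / (2 ^ N - 1) = b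
    · exfalso
      have h3 := haux k h1
      have h4 := haux (k + 1) h2
      have h5 : (Polynomial.cyclotomic N ℤ).eval 2 ∣ 1 := by
        have := dvd_sub h4 h3
        simpa using this
      have h6 := Polynomial.sub_one_lt_natAbs_cyclotomic_eval (n := N) (q := 2) (by omega) (by norm_num)
      have h7 := Int.natAbs_dvd_natAbs.2 h5
      simp only [Int.natAbs_one, Nat.dvd_one] at h7
      norm_num at h6
      omega
    · push Not at h2
      refine ⟨((k + 1 : ℤ) : ℝ) / (2 ^ N - 1), Or.inr (by push_cast; rfl), hper _, ?_⟩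
      rintro d hd hdN ⟨b, hb⟩
      exact h2 d hd hdN b hb
  · push Not at h1
    refine ⟨(k : ℝ) / (2 ^ N - 1), Or.inl rfl, hper _, ?_⟩
    rintro d hd hdN ⟨b, hb⟩
    exact h1 d hd hdN b hb

/-! ### Reflection -/

lemma gs_floor_neg (y : ℝ) : Circ.phi (1 / 2 - y) = 1 - Circ.phi y := by
  -- `y = ⌊y⌋ + fract y`
  set k := ⌊y⌋ with hk
  have h1 := Int.floor_le y
  have h2 := Int.lt_floor_add_one y
  rw [← hk] at h1 h2
  rcases le_total y (k + 1 / 2) with h | h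
  · rw [phi_of_lin k h1 h, phi_of_lin (-k) (by push_cast; linarith) (by push_cast; linarith)]
    push_cast; ring
  · rw [phi_of_flat k h h2.le, phi_of_flat (-k - 1) (by push_cast; linarith) (by push_cast; linarith)]
    push_cast; ring

lemma gs_tdbl_refl (s x : ℝ) : tdbl (1 - s) (-x) = 1 - tdbl s x := by
  rw [tdbl_apply, tdbl_apply]
  have h1 := gs_floor_neg (x - s / 2)
  have h2 : Circ.phi (-x - (1 - s) / 2) = Circ.phi (1 / 2 - (x - s / 2)) - 1 := by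
    have h3 := phi_add_int (-x - (1 - s) / 2) 1
    push_cast at h3
    have h4 : -x - (1 - s) / 2 + 1 = 1 / 2 - (x - s / 2) := by ring
    rw [h4] at h3
    linarith
  rw [h2, h1]
  ring

lemma gs_gw_refl (w : ℕ → ℤ) (θ x : ℝ) (n : ℕ) :
    gw (fun i => 1 - w i) (-θ) n (-x) = n - gw w θ n x := by
  induction n with
  | zero => simp
  | succ n ih =>
    rw [gw_succ_apply, gw_succ_apply, ih]
    have h1 : -θ + ((1 - w n : ℤ) : ℝ) = 1 - (θ + w n) := by push_cast; ring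
    have h2 : (n : ℝ) - gw w θ n x = -(gw w θ n x) + ((n : ℤ) : ℝ) := by push_cast; ring
    rw [h1, h2, map_add_int, gs_tdbl_refl]
    push_cast; ring

lemma gs_nu_refl (w : ℕ → ℤ) (θ : ℝ) (n : ℕ) : nu (fun i => 1 - w i) n (-θ) = n - nu w n θ := by
  have hit : ∀ (j : ℕ) (x : ℝ), (gw (fun i => 1 - w i) (-θ) n)^[j] (-x) =
      j * n - (gw w θ n)^[j] x := by
    intro j
    induction j with
    | zero => intro x; simp
    | succ j ih =>
      intro x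
      rw [Function.iterate_succ_apply', Function.iterate_succ_apply', ih]
      have h2 : (j : ℝ) * n - (gw w θ n)^[j] x = -((gw w θ n)^[j] x) + ((j * n : ℤ) : ℝ) := by
        push_cast; ring
      rw [h2, map_add_int, gs_gw_refl]
      push_cast; ring
  set δ := nu (fun i => 1 - w i) n (-θ) - (n - nu w n θ) with hδ
  have hb : ∀ j : ℕ, j * |δ| ≤ 2 := by
    intro j
    have h1 := nu_sub_le (fun i => 1 - w i) n (-θ) (-0) j
    have h2 := nu_sub_le w n θ 0 j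
    rw [hit] at h1
    rw [abs_le] at h1 h2
    have h3 : (j : ℝ) * |δ| = |(j : ℝ) * δ| := by rw [abs_mul, Nat.abs_cast]
    rw [h3, abs_le, hδ]
    constructor <;> nlinarith
  have h0 : |δ| = 0 := by
    by_contra hne
    have hpos : 0 < |δ| := lt_of_le_of_ne (abs_nonneg _) (Ne.symm hne)
    obtain ⟨j, hj⟩ := exists_nat_gt (2 / |δ|)
    have h1 := hb j
    rw [div_lt_iff₀ hpos] at hj
    linarith
  have h1 : δ = 0 := abs_eq_zero.1 h0
  rw [hδ] at h1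
  linarith

/-! ### Every angle of exact period `n` is an end -/

/-- the left closed itinerary -/
noncomputable def wL (t : ℝ) (j : ℕ) : ℤ := ⌊2 ^ (j + 1) * t - t⌋ % 2

/-- the right closed itinerary -/
noncomputable def wR (t : ℝ) (j : ℕ) : ℤ := (⌈2 ^ (j + 1) * t - t⌉ - 1) % 2

lemma wL_bit (t : ℝ) (j : ℕ) : wL t j = 0 ∨ wL t j = 1 := by unfold wL; omega

lemma wR_bit (t : ℝ) (j : ℕ) : wR t j = 0 ∨ wR t j = 1 := by unfold wR; omega

lemma wL_in (t : ℝ) (j : ℕ) : ∃ k : ℤ, (t + wL t j) / 2 + k ≤ 2 ^ j * t ∧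
    2 ^ j * t < (t + wL t j) / 2 + k + 1 / 2 := by
  set z := ⌊2 ^ (j + 1) * t - t⌋ with hz
  refine ⟨z / 2, ?_⟩
  have h1 := Int.floor_le (2 ^ (j + 1) * t - t)
  have h2 := Int.lt_floor_add_one (2 ^ (j + 1) * t - t)
  rw [← hz] at h1 h2
  have h3 : (wL t j : ℤ) + 2 * (z / 2) = z := by unfold wL; omega
  have h4 : (wL t j : ℝ) + 2 * ((z / 2 : ℤ) : ℝ) = z := by exact_mod_cast h3
  rw [pow_succ] at h1 h2
  constructor <;> linarith

lemma wR_in (t : ℝ) (j : ℕ) : ∃ k : ℤ, (t + wR t j) / 2 + k < 2 ^ j * t ∧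
    2 ^ j * t ≤ (t + wR t j) / 2 + k + 1 / 2 := by
  set z := ⌈2 ^ (j + 1) * t - t⌉ with hz
  refine ⟨(z - 1) / 2, ?_⟩
  have h1 := Int.le_ceil (2 ^ (j + 1) * t - t)
  have h2 := Int.ceil_lt_add_one (2 ^ (j + 1) * t - t)
  rw [← hz] at h1 h2
  have h3 : (wR t j : ℤ) + 2 * ((z - 1) / 2) = z - 1 := by unfold wR; omega
  have h4 : (wR t j : ℝ) + 2 * (((z - 1) / 2 : ℤ) : ℝ) = z - 1 := by exact_mod_cast h3
  rw [pow_succ] at h1 h2
  constructor <;> linarith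

lemma wL_per {t : ℝ} {n : ℕ} {a : ℤ} (ha : (2 : ℝ) ^ n * t - t = a) (i : ℕ) :
    wL t (i + n) = wL t i := by
  have h1 : (2 : ℝ) ^ (i + n + 1) * t - t = (2 ^ (i + 1) * t - t) + ((2 ^ (i + 1) * a : ℤ) : ℝ) := by
    have e : (2 : ℝ) ^ (i + n + 1) * t = 2 ^ (i + 1) * (2 ^ n * t) := by rw [← mul_assoc, ← pow_add]; ring_nf
    have e2 : (2 : ℝ) ^ n * t = t + a := by linarith
    rw [e, e2]; push_cast; ring
  unfold wL
  rw [h1, Int.floor_add_intCast]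
  have h2 : (2 : ℤ) ^ (i + 1) * a = 2 * (2 ^ i * a) := by rw [pow_succ]; ring
  rw [h2]
  omega

lemma wR_per {t : ℝ} {n : ℕ} {a : ℤ} (ha : (2 : ℝ) ^ n * t - t = a) (i : ℕ) :
    wR t (i + n) = wR t i := by
  have h1 : (2 : ℝ) ^ (i + n + 1) * t - t = (2 ^ (i + 1) * t - t) + ((2 ^ (i + 1) * a : ℤ) : ℝ) := by
    have e : (2 : ℝ) ^ (i + n + 1) * t = 2 ^ (i + 1) * (2 ^ n * t) := by rw [← mul_assoc, ← pow_add]; ring_nf
    have e2 : (2 : ℝ) ^ n * t = t + a := by linarith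
    rw [e, e2]; push_cast; ring
  unfold wR
  rw [h1, Int.ceil_add_intCast]
  have h2 : (2 : ℤ) ^ (i + 1) * a = 2 * (2 ^ i * a) := by rw [pow_succ]; ring
  rw [h2]
  omega

/-- integral rotation number at a periodic angle which is compatible with the word -/
lemma gs_nu_int {w : ℕ → ℤ} {t : ℝ} {n : ℕ} {a : ℤ} (ha : (2 : ℝ) ^ n * t - t = a)
    (h : ∀ i < n, ∃ k : ℤ, (t + w i) / 2 + k ≤ 2 ^ i * t ∧ 2 ^ i * t ≤ (t + w i) / 2 + k + 1 / 2) :
    ∃ K : ℤ, nu w n t = K := by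
  obtain ⟨m, hm⟩ := gw_lin w t t n h
  refine ⟨a - m, ?_⟩
  have := (nu_eq_rat_iff w n t 1 one_pos (a - m)).2 ⟨t, by
    rw [pow_one, hm]; push_cast; linarith⟩
  rw [this]; simp

/-- **every angle of exact period `n` is a left end or a reflected left end** -/
theorem gs_end {n : ℕ} (hn : 2 ≤ n) {t : ℝ} {a : ℤ} (ha : (2 : ℝ) ^ n * t - t = a)
    (hex : ∀ d, 0 < d → d < n → ¬ ∃ b : ℤ, (2 : ℝ) ^ d * t - t = b) :
    (∃ (w : ℕ → ℤ) (k : ℤ), Word n w ∧ nu w n t = k ∧ ∀ θ, t < θ → (k : ℝ) < nu w n θ) ∨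
    (∃ (w : ℕ → ℤ) (k : ℤ), Word n w ∧ nu w n (-t) = k ∧ ∀ θ, -t < θ → (k : ℝ) < nu w n θ) := by
  set r := st (wL t) 0 1 (n - 2) with hr
  have hr1 : r ≤ n - 2 := by have := st_le (wL t) 0 1 (n - 2); omega
  -- the words agree below `n - 1`
  have heq : ∀ i < n - 1, wL t i = wR t i := by
    intro i hi
    unfold wL wR
    have h1 : ¬ ∃ b : ℤ, (2 : ℝ) ^ (i + 1) * t - t = b := hex (i + 1) (by omega) (by omega)
    have h2 : ⌈(2 : ℝ) ^ (i + 1) * t - t⌉ = ⌊(2 : ℝ) ^ (i + 1) * t - t⌋ + 1 := by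
      have h3 := Int.floor_le ((2 : ℝ) ^ (i + 1) * t - t)
      have h4 := Int.lt_floor_add_one ((2 : ℝ) ^ (i + 1) * t - t)
      have h5 : (⌊(2 : ℝ) ^ (i + 1) * t - t⌋ : ℝ) ≠ (2 : ℝ) ^ (i + 1) * t - t := fun h =>
        h1 ⟨_, h.symm⟩
      rw [Int.ceil_eq_iff]
      push_cast
      constructor
      · linarith [lt_of_le_of_ne h3 h5]
      · linarith
    rw [h2]
    ring_nf
  have hne : wL t (n - 1) ≠ wR t (n - 1) := by
    unfold wL wR
    have h1 : (2 : ℝ) ^ (n - 1 + 1) * t - t = ((a : ℤ) : ℝ) := by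
      rw [show n - 1 + 1 = n by omega]; exact ha
    rw [h1, Int.floor_intCast, Int.ceil_intCast]
    omega
  by_cases hc : wL t r = wL t (n - 1)
  · -- the right closed word
    right
    have hr' : st (wR t) 0 1 (n - 2) = r := by
      rw [hr]
      exact (st_congr (N := n - 1) (fun i hi => heq i hi) (n - 2) (by omega) (by omega)).symm
    have hS : st (wR t) 0 1 (n - 1) = 0 := by
      rw [show n - 1 = (n - 2) + 1 by omega, st_succ, hr', stp, if_neg]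
      rw [show 1 + (n - 2) = n - 1 by omega, ← heq r (by omega), hc]
      exact hne
    have hbit := wR_bit t
    have hper := wR_per (t := t) ha
    obtain ⟨K, hK⟩ := gs_nu_int (w := wR t) ha fun i _ => by
      obtain ⟨k, h1, h2⟩ := wR_in t i
      exact ⟨k, h1.le, h2⟩
    have hmono := nu_mono (wR t) n
    have hlt : ∀ θ, θ < t → nu (wR t) n θ < K := by
      intro θ hθ
      refine lt_of_le_of_ne (hK ▸ hmono hθ.le) fun hcon => ?_
      have hev : ∀ᶠ s : ℝ in 𝓝[<] t, ∀ i ∈ Finset.range n, InHalfO (s + wR t i) (2 ^ i * s) := by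
        rw [Filter.eventually_all_finset]
        intro i _
        obtain ⟨k, h1, h2⟩ := wR_in t i
        have h3 : ∀ᶠ s : ℝ in 𝓝 t, (s + wR t i) / 2 + k < 2 ^ i * s :=
          (isOpen_lt (f := fun s : ℝ => (s + wR t i) / 2 + k) (g := fun s : ℝ => 2 ^ i * s)
            (by fun_prop) (by fun_prop)).mem_nhds h1
        filter_upwards [h3.filter_mono nhdsWithin_le_nhds, self_mem_nhdsWithin] with s hs hst
        refine ⟨k, hs, ?_⟩
        have h4 : (1 : ℝ) ≤ 2 ^ i := one_le_pow₀ (by norm_num)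
        have h5 : s < t := hst
        nlinarith
      obtain ⟨s, hs1, hs2, hs3⟩ := (hev.and ((eventually_gt_nhds hθ).filter_mono
        nhdsWithin_le_nhds |>.and self_mem_nhdsWithin)).exists
      have h1 : nu (wR t) n s = K := le_antisymm (hK ▸ hmono (le_of_lt hs3)) (hcon ▸ hmono hs2.le)
      exact nu_ne_int (by omega) hbit hper hS (fun i hi => hs1 i (Finset.mem_range.2 hi)) K h1
    refine ⟨fun i => 1 - wR t i, n - K, ⟨fun i => ?_, fun i => ?_, fun d hd hdn => ?_⟩, ?_, ?_⟩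
    · have := hbit i; show 1 - wR t i = 0 ∨ 1 - wR t i = 1; omega
    · show 1 - wR t (i + n) = 1 - wR t i; rw [hper]
    · obtain ⟨i, hi⟩ := prim_of_run (by omega) hbit hper hS hd hdn
      exact ⟨i, fun h => hi (by have h' : 1 - wR t (i + d) = 1 - wR t i := h; omega)⟩
    · rw [gs_nu_refl, hK]; push_cast; ring
    · intro θ hθ
      have h1 := gs_nu_refl (wR t) (-θ) n
      rw [neg_neg] at h1
      rw [h1]
      have h2 := hlt (-θ) (by linarith)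
      push_cast
      linarith
  · -- the left closed word
    left
    have hS : st (wL t) 0 1 (n - 1) = 0 := by
      rw [show n - 1 = (n - 2) + 1 by omega, st_succ, ← hr, stp, if_neg]
      rw [show 1 + (n - 2) = n - 1 by omega]
      exact hc
    have hbit := wL_bit t
    have hper := wL_per (t := t) ha
    obtain ⟨K, hK⟩ := gs_nu_int (w := wL t) ha fun i _ => by
      obtain ⟨k, h1, h2⟩ := wL_in t i
      exact ⟨k, h1, h2.le⟩
    have hmono := nu_mono (wL t) n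
    refine ⟨wL t, K, ⟨hbit, hper, fun d hd hdn => prim_of_run (by omega) hbit hper hS hd hdn⟩, hK, ?_⟩
    intro θ hθ
    refine lt_of_le_of_ne (hK ▸ hmono hθ.le) fun hcon => ?_
    have hev : ∀ᶠ s : ℝ in 𝓝[>] t, ∀ i ∈ Finset.range n, InHalfO (s + wL t i) (2 ^ i * s) := by
      rw [Filter.eventually_all_finset]
      intro i _
      obtain ⟨k, h1, h2⟩ := wL_in t i
      have h3 : ∀ᶠ s : ℝ in 𝓝 t, 2 ^ i * s < (s + wL t i) / 2 + k + 1 / 2 :=
        (isOpen_lt (f := fun s : ℝ => 2 ^ i * s) (g := fun s : ℝ => (s + wL t i) / 2 + k + 1 / 2)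
          (by fun_prop) (by fun_prop)).mem_nhds h2
      filter_upwards [h3.filter_mono nhdsWithin_le_nhds, self_mem_nhdsWithin] with s hs hst
      refine ⟨k, ?_, hs⟩
      have h4 : (1 : ℝ) ≤ 2 ^ i := one_le_pow₀ (by norm_num)
      have h5 : t < s := hst
      nlinarith
    obtain ⟨s, hs1, hs2, hs3⟩ := (hev.and ((eventually_lt_nhds hθ).filter_mono
      nhdsWithin_le_nhds |>.and self_mem_nhdsWithin)).exists
    have h1 : nu (wL t) n s = K := le_antisymm (hcon ▸ hmono hs2.le) (hK ▸ hmono (le_of_lt hs3))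
    exact nu_ne_int (by omega) hbit hper hS (fun i hi => hs1 i (Finset.mem_range.2 hi)) K h1


/-! ### Separation of two angles of exact period `N` -/

/-- two left ends of period `N` which are not congruent are separated by a plateau arc -/
lemma gs_sep {N : ℕ} (hN : 0 < N) {w w' : ℕ → ℤ} {k k' : ℤ} {t t' : ℝ} (hw : Word N w)
    (hw' : Word N w') (ht : Pri.LeftEnd N w k t) (ht' : Pri.LeftEnd N w' k' t')
    (hne : ∀ m : ℤ, t ≠ t' + m) :
    ∃ (d : ℕ) (v : ℕ → ℤ) (κ : ℤ) (x : ℚ), 0 < d ∧ d ≤ N ∧ Word d v ∧ 0 < x ∧ x < 1 ∧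
      x.den ≤ N ∧ d * x.den ≤ 3 * N ∧
      ∃ m : ℤ, Xor (nu v d (t + m) = κ + x) (nu v d (t' + m) = κ + x) := by
  rcases Pri.sepD N w w' k k' t t' hN hw hw' ht ht' with h | ⟨d, v, κ, x, h1, h2, h3, h4, h5, h6, h7⟩
  · obtain ⟨i, m, -, hm⟩ := h
    exact absurd hm (hne m)
  · have h2 : d ≤ N := h2
    have h6 : x.den ≤ N := h6
    have hper : ∀ s : ℝ, (∃ a : ℤ, (2 : ℝ) ^ N * s - s = a) → ∀ m : ℤ, nu v d (s + m) = κ + x →
        d * x.den ≤ 3 * N := by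
      rintro s ⟨a, ha⟩ m hm
      have h8 := perL54 h1 h3 h4 h5 hN (t := s + m) ⟨a + (2 ^ N - 1) * m, by
        push_cast; rw [← ha]; ring⟩ hm
      have h9 : d * x.den ≤ (x.den - 2) * d + 2 * d := by
        have : x.den ≤ (x.den - 2) + 2 := by omega
        calc d * x.den ≤ d * ((x.den - 2) + 2) := Nat.mul_le_mul_left _ this
          _ = _ := by ring
      omega
    have hp := Pri.lep N w k t hN hw ht
    have hp' := Pri.lep N w' k' t' hN hw' ht'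
    rcases h7 with ⟨⟨m, hm⟩, h8⟩ | ⟨⟨m, hm⟩, h8⟩
    · exact ⟨d, v, κ, x, h1, h2, h3, h4, h5, h6, hper t hp m hm, m,
        Or.inl ⟨hm, fun h => h8 ⟨m, h⟩⟩⟩
    · exact ⟨d, v, κ, x, h1, h2, h3, h4, h5, h6, hper t' hp' m hm, m,
        Or.inr ⟨hm, fun h => h8 ⟨m, h⟩⟩⟩

/-- the same for the data, also for two reflected left ends -/
lemma gs_sep_dat {N : ℕ} (hN : 0 < N) {t t' : ℝ} (hne : ∀ m : ℤ, t ≠ t' + m)
    (h : (∃ (w w' : ℕ → ℤ) (k k' : ℤ), Word N w ∧ Word N w' ∧ Pri.LeftEnd N w k t ∧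
        Pri.LeftEnd N w' k' t') ∨
      (∃ (w w' : ℕ → ℤ) (k k' : ℤ), Word N w ∧ Word N w' ∧ Pri.LeftEnd N w k (-t) ∧
        Pri.LeftEnd N w' k' (-t'))) :
    ∃ D : Sat.Dat, D.Par ∧ D.Cir ∧ D.m ≤ N ∧ D.x.den ≤ N ∧ D.m * D.x.den ≤ 3 * N ∧
      ∃ m : ℤ, Xor (D.tm ≤ t + m ∧ t + m ≤ D.tp) (D.tm ≤ t' + m ∧ t' + m ≤ D.tp) := by
  rcases h with ⟨w, w', k, k', hw, hw', ht, ht'⟩ | ⟨w, w', k, k', hw, hw', ht, ht'⟩
  · obtain ⟨d, v, κ, x, h1, h2, h3, h4, h5, h6, h7, m, h8⟩ := gs_sep hN hw hw' ht ht' hne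
    obtain ⟨D, hP, hC, hm, hx, -, -, hpl⟩ := exists_dat h1 h3 κ h4 h5
    refine ⟨D, hP, hC, by rw [hm]; exact h2, by rw [hx]; exact h6, by rw [hm, hx]; exact h7, m, ?_⟩
    rwa [hpl, hpl] at h8
  · obtain ⟨d, v, κ, x, h1, h2, h3, h4, h5, h6, h7, m, h8⟩ := gs_sep hN hw hw' ht ht' fun m hm =>
      hne (-m) (by push_cast; linarith)
    have h3' : Word d fun i => 1 - v i := by
      refine ⟨fun i => ?_, fun i => ?_, fun e he hed => ?_⟩
      · have := h3.1 i; show 1 - v i = 0 ∨ 1 - v i = 1; omega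
      · show 1 - v (i + d) = 1 - v i; rw [h3.2.1]
      · obtain ⟨i, hi⟩ := h3.2.2 e he hed
        exact ⟨i, fun h => hi (by have h' : 1 - v (i + e) = 1 - v i := h; omega)⟩
    have hxd : (1 - x).den = x.den := by
      have h9 : (1 - x) = -x + ((1 : ℤ) : ℚ) := by push_cast; ring
      rw [h9, Rat.add_intCast_den, Rat.neg_den]
    obtain ⟨D, hP, hC, hm, hx, -, -, hpl⟩ := exists_dat h1 h3' (d - κ - 1) (x := 1 - x)
      (by linarith) (by linarith)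
    refine ⟨D, hP, hC, by rw [hm]; exact h2, by rw [hx, hxd]; exact h6,
      by rw [hm, hx, hxd]; exact h7, -m, ?_⟩
    have key : ∀ s : ℝ, nu v d (-s + m) = κ + x ↔ D.tm ≤ s + ((-m : ℤ) : ℝ) ∧
        s + ((-m : ℤ) : ℝ) ≤ D.tp := by
      intro s
      rw [← hpl]
      have h9 := gs_nu_refl v (-s + m) d
      have e : -(-s + (m : ℝ)) = s + ((-m : ℤ) : ℝ) := by push_cast; ring
      rw [e] at h9
      rw [h9]
      push_cast
      constructor <;> intro h <;> linarith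
    rwa [key, key] at h8

/-- an end of the arc between two separated angles -/
lemma gs_between {D : Sat.Dat} {t t' : ℝ} (h : t ≤ t') {m : ℤ}
    (hx : Xor (D.tm ≤ t + m ∧ t + m ≤ D.tp) (D.tm ≤ t' + m ∧ t' + m ≤ D.tp)) :
    ∃ k : ℤ, (t ≤ D.tm + k ∧ D.tm + k ≤ t') ∨ (t ≤ D.tp + k ∧ D.tp + k ≤ t') := by
  refine ⟨-m, ?_⟩
  push_cast
  rcases hx with ⟨⟨h1, h2⟩, h3⟩ | ⟨⟨h1, h2⟩, h3⟩
  · right
    have h4 : D.tp < t' + m := by
      by_contra hcon
      push Not at hcon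
      exact h3 ⟨by linarith, hcon⟩
    constructor <;> linarith
  · left
    have h4 : t + m < D.tm := by
      by_contra hcon
      push Not at hcon
      exact h3 ⟨hcon, by linarith⟩
    constructor <;> linarith

/-- **G4.** Every interval of length `16 / 2 ^ N` contains an end of the plateau of a root of
level `N`. -/
theorem g4_short {N : ℕ} (hN : 0 < N) (a : ℝ) :
    ∃ D : Sat.Dat, D.Par ∧ D.Cir ∧ D.m ≤ N ∧ D.m * D.x.den ≤ 3 * N ∧ (2 ≤ N → D.x.den ≤ N) ∧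
      ∃ k : ℤ, (a < D.tm + k ∧ D.tm + k < a + 16 / 2 ^ N) ∨
        (a < D.tp + k ∧ D.tp + k < a + 16 / 2 ^ N) := by
  rcases Nat.lt_or_ge N 4 with h4 | h4
  · -- small levels
    have hw : Word 1 fun _ => 0 := ⟨fun _ => Or.inl rfl, fun _ => rfl, fun d h1 h2 => by omega⟩
    obtain ⟨D, hP, hC, hm, hx, -, -, -⟩ := exists_dat one_pos hw 0 (x := 1 / 2) (by norm_num)
      (by norm_num)
    have hden : D.x.den = 2 := by rw [hx]; norm_num
    refine ⟨D, hP, hC, by omega, by rw [hm, hden]; omega, fun h => by rw [hden]; exact h,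
      ⌊a - D.tm⌋ + 1, Or.inl ?_⟩
    have h1 := Int.floor_le (a - D.tm)
    have h2 := Int.lt_floor_add_one (a - D.tm)
    have h3 : (2 : ℝ) ≤ 16 / 2 ^ N := by
      rw [le_div_iff₀ (by positivity)]
      have : (2 : ℝ) ^ N ≤ 2 ^ 3 := pow_le_pow_right₀ (by norm_num) (by omega)
      linarith
    push_cast
    constructor <;> linarith
  · have hM : (15 / 16 : ℝ) * 2 ^ N ≤ 2 ^ N - 1 := by
      have : (2 : ℝ) ^ 4 ≤ 2 ^ N := pow_le_pow_right₀ (by norm_num) h4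
      linarith
    have h2N : (16 : ℝ) ≤ 2 ^ N := by
      have : (2 : ℝ) ^ 4 ≤ 2 ^ N := pow_le_pow_right₀ (by norm_num) h4
      linarith
    set M : ℝ := 2 ^ N - 1 with hMdef
    have hM0 : 0 < M := by linarith
    set k₀ : ℤ := ⌊a * M⌋ + 1 with hk₀
    have h1 : a * M < k₀ := by rw [hk₀]; push_cast; exact Int.lt_floor_add_one _
    have h2 : (k₀ : ℝ) ≤ a * M + 1 := by
      rw [hk₀]; push_cast; linarith [Int.floor_le (a * M)]
    obtain ⟨t₁, ht₁, hp₁, he₁⟩ := gs_exact (by omega : 2 ≤ N) k₀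
    obtain ⟨t₂, ht₂, hp₂, he₂⟩ := gs_exact (by omega : 2 ≤ N) (k₀ + 2)
    obtain ⟨t₃, ht₃, hp₃, he₃⟩ := gs_exact (by omega : 2 ≤ N) (k₀ + 4)
    have hb₁ : k₀ / M ≤ t₁ ∧ t₁ ≤ (k₀ + 1) / M := by
      rcases ht₁ with h | h <;> rw [h] <;> constructor <;>
        exact div_le_div_of_nonneg_right (by linarith) hM0.le
    have hb₂ : (k₀ + 2) / M ≤ t₂ ∧ t₂ ≤ (k₀ + 3) / M := by
      rcases ht₂ with h | h <;> rw [h] <;> push_cast <;> constructor <;>
        exact div_le_div_of_nonneg_right (by linarith) hM0.le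
    have hb₃ : (k₀ + 4) / M ≤ t₃ ∧ t₃ ≤ (k₀ + 5) / M := by
      rcases ht₃ with h | h <;> rw [h] <;> push_cast <;> constructor <;>
        exact div_le_div_of_nonneg_right (by linarith) hM0.le
    have h12 : t₁ < t₂ := hb₁.2.trans_lt ((div_lt_div_iff_of_pos_right hM0 |>.2 (by linarith)).trans_le hb₂.1)
    have h23 : t₂ < t₃ := hb₂.2.trans_lt ((div_lt_div_iff_of_pos_right hM0 |>.2 (by linarith)).trans_le hb₃.1)
    have hlow : a < t₁ := lt_of_lt_of_le ((lt_div_iff₀ hM0).2 h1) hb₁.1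
    have hupp : t₃ < a + 16 / 2 ^ N := by
      refine lt_of_le_of_lt hb₃.2 ?_
      rw [div_lt_iff₀ hM0]
      have h5 : (15 : ℝ) ≤ 16 / 2 ^ N * M := by
        rw [div_mul_eq_mul_div, le_div_iff₀ (by positivity)]
        linarith
      nlinarith
    have hlen : t₃ - t₁ < 1 := by
      have h5 : (16 : ℝ) / 2 ^ N ≤ 1 := by
        rw [div_le_one (by positivity)]; exact h2N
      linarith
    -- two of the same kind
    have main : ∀ t t' : ℝ, t₁ ≤ t → t < t' → t' ≤ t₃ →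
        ((∃ (w w' : ℕ → ℤ) (k k' : ℤ), Word N w ∧ Word N w' ∧ Pri.LeftEnd N w k t ∧
          Pri.LeftEnd N w' k' t') ∨
        (∃ (w w' : ℕ → ℤ) (k k' : ℤ), Word N w ∧ Word N w' ∧ Pri.LeftEnd N w k (-t) ∧
          Pri.LeftEnd N w' k' (-t'))) →
        ∃ D : Sat.Dat, D.Par ∧ D.Cir ∧ D.m ≤ N ∧ D.m * D.x.den ≤ 3 * N ∧ (2 ≤ N → D.x.den ≤ N) ∧
          ∃ k : ℤ, (a < D.tm + k ∧ D.tm + k < a + 16 / 2 ^ N) ∨
            (a < D.tp + k ∧ D.tp + k < a + 16 / 2 ^ N) := by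
      intro t t' e1 e2 e3 h
      have hne : ∀ m : ℤ, t ≠ t' + m := by
        intro m hm
        have f1 : ((-1 : ℤ) : ℝ) < m := by push_cast; linarith
        have f2 : (m : ℝ) < ((0 : ℤ) : ℝ) := by push_cast; linarith
        have f3 : -1 < m := by exact_mod_cast f1
        have f4 : m < 0 := by exact_mod_cast f2
        omega
      obtain ⟨D, hP, hC, g1, g2, g3, m, g4⟩ := gs_sep_dat hN hne h
      obtain ⟨k, hk⟩ := gs_between e2.le g4
      refine ⟨D, hP, hC, g1, g3, fun _ => g2, k, ?_⟩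
      rcases hk with ⟨c1, c2⟩ | ⟨c1, c2⟩
      · left; constructor <;> linarith
      · right; constructor <;> linarith
    obtain ⟨a₁, ha₁⟩ := hp₁
    obtain ⟨a₂, ha₂⟩ := hp₂
    obtain ⟨a₃, ha₃⟩ := hp₃
    have c₁ := gs_end (by omega : 2 ≤ N) ha₁ he₁
    have c₂ := gs_end (by omega : 2 ≤ N) ha₂ he₂
    have c₃ := gs_end (by omega : 2 ≤ N) ha₃ he₃
    rcases c₁ with ⟨w₁, k₁, x₁, y₁, z₁⟩ | ⟨w₁, k₁, x₁, y₁, z₁⟩ <;>
      rcases c₂ with ⟨w₂, k₂, x₂, y₂, z₂⟩ | ⟨w₂, k₂, x₂, y₂, z₂⟩ <;>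
      rcases c₃ with ⟨w₃, k₃, x₃, y₃, z₃⟩ | ⟨w₃, k₃, x₃, y₃, z₃⟩
    · exact main t₁ t₂ le_rfl h12 h23.le (Or.inl ⟨w₁, w₂, k₁, k₂, x₁, x₂, ⟨y₁, z₁⟩, ⟨y₂, z₂⟩⟩)
    · exact main t₁ t₂ le_rfl h12 h23.le (Or.inl ⟨w₁, w₂, k₁, k₂, x₁, x₂, ⟨y₁, z₁⟩, ⟨y₂, z₂⟩⟩)
    · exact main t₁ t₃ le_rfl (h12.trans h23) le_rfl
        (Or.inl ⟨w₁, w₃, k₁, k₃, x₁, x₃, ⟨y₁, z₁⟩, ⟨y₃, z₃⟩⟩)
    · exact main t₂ t₃ h12.le h23 le_rfl (Or.inr ⟨w₂, w₃, k₂, k₃, x₂, x₃, ⟨y₂, z₂⟩, ⟨y₃, z₃⟩⟩)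
    · exact main t₂ t₃ h12.le h23 le_rfl (Or.inl ⟨w₂, w₃, k₂, k₃, x₂, x₃, ⟨y₂, z₂⟩, ⟨y₃, z₃⟩⟩)
    · exact main t₁ t₃ le_rfl (h12.trans h23) le_rfl
        (Or.inr ⟨w₁, w₃, k₁, k₃, x₁, x₃, ⟨y₁, z₁⟩, ⟨y₃, z₃⟩⟩)
    · exact main t₁ t₂ le_rfl h12 h23.le (Or.inr ⟨w₁, w₂, k₁, k₂, x₁, x₂, ⟨y₁, z₁⟩, ⟨y₂, z₂⟩⟩)
    · exact main t₁ t₂ le_rfl h12 h23.le (Or.inr ⟨w₁, w₂, k₁, k₂, x₁, x₂, ⟨y₁, z₁⟩, ⟨y₂, z₂⟩⟩)

end Pool.Agent.Work.MLC.Cnt
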