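import Pool.Agent.Work.MLC.ShpDef
import Pool.Agent.Work.MLC.CntG78

set_option autoImplicit false

/-! # Theorem CAP, module T1: the strip of a wake (helper90) -/

namespace Pool.Agent.Work.MLC.Shp

open Filter Topology Metric Set
open Pool.Agent.Work.MLC.Circ Pool.Agent.Work.MLC.Cnt CircleDeg1Lift

variable {m : ℕ} {α β : ℝ}

lemma cast_lt_of {a b : ℤ} (h : (a : ℝ) < b) : a < b := by exact_mod_cast h

lemma cast_le_of {a b : ℤ} (h : (a : ℝ) ≤ b) : a ≤ b := by exact_mod_cast h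

/-- doublings are not critical for the angles inside -/
lemma Wake.nonint (h : Wake m α β) {θ : ℝ} (h1 : α < θ) (h2 : θ < β) (i : ℕ) (n : ℤ) :
    2 ^ (i + 1) * α ≠ θ + n ∧ 2 ^ (i + 1) * β ≠ θ + n := by
  obtain ⟨w, j, k, e1, e2, e3, e4⟩ := h.side θ h1 h2 i
  have p : ∀ x : ℝ, (2 : ℝ) ^ (i + 1) * x = 2 * (2 ^ i * x) := fun x => by rw [pow_succ]; ring
  constructor
  · intro he
    rw [p] at he
    have f1 : ((w + 2 * j : ℤ) : ℝ) < (n : ℤ) := by push_cast; linarith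
    have f2 : ((n : ℤ) : ℝ) < ((w + 2 * j + 1 : ℤ) : ℝ) := by push_cast; linarith
    have f3 := cast_lt_of f1
    have f4 := cast_lt_of f2
    omega
  · intro he
    rw [p] at he
    have f1 : ((w + 2 * k : ℤ) : ℝ) < (n : ℤ) := by push_cast; linarith
    have f2 : ((n : ℤ) : ℝ) < ((w + 2 * k + 1 : ℤ) : ℝ) := by push_cast; linarith
    have f3 := cast_lt_of f1
    have f4 := cast_lt_of f2
    omega

/-- the sides of the doublings -/
lemma Wake.side_int (h : Wake m α β) (i : ℕ) : ∃ n n' : ℤ, (n : ℝ) ≤ 2 ^ (i + 1) * α - β ∧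
    2 ^ (i + 1) * α - α ≤ n + 1 ∧ (n' : ℝ) ≤ 2 ^ (i + 1) * β - β ∧ 2 ^ (i + 1) * β - α ≤ n' + 1 ∧
    ∃ l : ℤ, n' = n + 2 * l := by
  have hlt := h.lt
  set θ₀ : ℝ := (α + β) / 2 with hθ₀
  have h1 : α < θ₀ := by linarith
  have h2 : θ₀ < β := by linarith
  obtain ⟨w, j, k, e1, e2, e3, e4⟩ := h.side θ₀ h1 h2 i
  have p : ∀ x : ℝ, (2 : ℝ) ^ (i + 1) * x = 2 * (2 ^ i * x) := fun x => by rw [pow_succ]; ring
  rw [p, p]
  refine ⟨w + 2 * j, w + 2 * k, ?_, ?_, ?_, ?_, k - j, by ring⟩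
  · by_contra hcon
    push Not at hcon
    have := (h.nonint (θ := 2 * (2 ^ i * α) - ((w + 2 * j : ℤ) : ℝ)) (by push_cast; linarith)
      (by linarith) i (w + 2 * j)).1
    rw [p] at this
    exact this (by ring)
  · by_contra hcon
    push Not at hcon
    have := (h.nonint (θ := 2 * (2 ^ i * α) - ((w + 2 * j + 1 : ℤ) : ℝ)) (by push_cast at hcon ⊢; linarith)
      (by push_cast; linarith) i (w + 2 * j + 1)).1
    rw [p] at this
    exact this (by ring)
  · by_contra hcon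
    push Not at hcon
    have := (h.nonint (θ := 2 * (2 ^ i * β) - ((w + 2 * k : ℤ) : ℝ)) (by push_cast; linarith)
      (by linarith) i (w + 2 * k)).2
    rw [p] at this
    exact this (by ring)
  · by_contra hcon
    push Not at hcon
    have := (h.nonint (θ := 2 * (2 ^ i * β) - ((w + 2 * k + 1 : ℤ) : ℝ)) (by push_cast at hcon ⊢; linarith)
      (by push_cast; linarith) i (w + 2 * k + 1)).2
    rw [p] at this
    exact this (by ring)

/-- the orbits avoid the wake -/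
lemma Wake.avoid (h : Wake m α β) (j : ℕ) (l : ℤ) : ¬ (α < 2 ^ j * α + l ∧ 2 ^ j * α + l < β) := by
  rintro ⟨h1, h2⟩
  have h0 := h.nonneg
  have h3 := h.le_one
  rcases j with _ | i
  · simp only [pow_zero, one_mul] at h1 h2
    have f1 : ((0 : ℤ) : ℝ) < l := by push_cast; linarith
    have f2 : ((l : ℤ) : ℝ) < ((1 : ℤ) : ℝ) := by push_cast; linarith
    have := cast_lt_of f1
    have := cast_lt_of f2
    omega
  · exact (h.nonint h1 h2 i (-l)).1 (by push_cast; ring)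

lemma Wake.avoid' (h : Wake m α β) (j : ℕ) (l : ℤ) : ¬ (α < 2 ^ j * β + l ∧ 2 ^ j * β + l < β) := by
  rintro ⟨h1, h2⟩
  have h0 := h.nonneg
  have h3 := h.le_one
  rcases j with _ | i
  · simp only [pow_zero, one_mul] at h1 h2
    have f1 : ((-1 : ℤ) : ℝ) < l := by push_cast; linarith
    have f2 : ((l : ℤ) : ℝ) < ((0 : ℤ) : ℝ) := by push_cast; linarith
    have := cast_lt_of f1
    have := cast_lt_of f2
    omega
  · exact (h.nonint h1 h2 i (-l)).2 (by push_cast; ring)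

/-- **the windows avoid the wake** -/
lemma Wake.win (h : Wake m α β) {j : ℕ} (hj : 0 < j) (hjm : j < m) {δ : ℝ} (h0 : 0 ≤ δ)
    (h1 : δ * 2 ^ m ≤ β - α) (l : ℤ) : ¬ (α < 2 ^ j * (α + δ) + l ∧ 2 ^ j * (α + δ) + l < β) := by
  rintro ⟨h2, h3⟩
  have hp : (0 : ℝ) < 2 ^ j := by positivity
  rcases lt_trichotomy α (2 ^ j * α + l) with h4 | h4 | h4
  · refine h.avoid j l ⟨h4, ?_⟩
    have : 0 ≤ 2 ^ j * δ := by positivity
    nlinarith
  · exact h.exact j hj hjm ⟨-l, by push_cast; linarith⟩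
  · obtain ⟨A, hA⟩ := h.per
    -- the next return
    have e1 : (2 : ℝ) ^ (m - j) * 2 ^ j = 2 ^ m := by rw [← pow_add]; congr 1; omega
    have hp' : (0 : ℝ) < 2 ^ (m - j) := by positivity
    have h5 := h.avoid (m - j) (-(A + 2 ^ (m - j) * l))
    apply h5
    have e2 : (2 : ℝ) ^ (m - j) * (2 ^ j * α + l) = α + A + 2 ^ (m - j) * l := by
      rw [mul_add, ← mul_assoc, e1]
      linarith
    have e3 : (2 : ℝ) ^ (m - j) * (2 ^ j * (α + δ) + l) = α + A + 2 ^ (m - j) * l + δ * 2 ^ m := by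
      rw [← e2, ← e1]; ring
    have h6 := mul_lt_mul_of_pos_left h4 hp'
    have h7 := mul_lt_mul_of_pos_left h2 hp'
    rw [e2] at h6
    rw [e3] at h7
    push_cast
    constructor <;> linarith

lemma Wake.win' (h : Wake m α β) {j : ℕ} (hj : 0 < j) (hjm : j < m) {δ : ℝ} (h0 : 0 ≤ δ)
    (h1 : δ * 2 ^ m ≤ β - α) (l : ℤ) : ¬ (α < 2 ^ j * (β - δ) + l ∧ 2 ^ j * (β - δ) + l < β) := by
  rintro ⟨h2, h3⟩
  have hp : (0 : ℝ) < 2 ^ j := by positivity
  rcases lt_trichotomy (2 ^ j * β + l) β with h4 | h4 | h4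
  · refine h.avoid' j l ⟨?_, h4⟩
    have : 0 ≤ 2 ^ j * δ := by positivity
    nlinarith
  · exact h.exact' j hj hjm ⟨-l, by push_cast; linarith⟩
  · obtain ⟨A, hA⟩ := h.per'
    have e1 : (2 : ℝ) ^ (m - j) * 2 ^ j = 2 ^ m := by rw [← pow_add]; congr 1; omega
    have hp' : (0 : ℝ) < 2 ^ (m - j) := by positivity
    have h5 := h.avoid' (m - j) (-(A + 2 ^ (m - j) * l))
    apply h5
    have e2 : (2 : ℝ) ^ (m - j) * (2 ^ j * β + l) = β + A + 2 ^ (m - j) * l := by
      rw [mul_add, ← mul_assoc, e1]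
      linarith
    have e3 : (2 : ℝ) ^ (m - j) * (2 ^ j * (β - δ) + l) = β + A + 2 ^ (m - j) * l - δ * 2 ^ m := by
      rw [← e2, ← e1]; ring
    have h6 := mul_lt_mul_of_pos_left h4 hp'
    have h7 := mul_lt_mul_of_pos_left h3 hp'
    rw [e2] at h6
    rw [e3] at h7
    push_cast
    constructor <;> linarith

/-! ### words -/

/-- `α` has exact period `m` -/
lemma Wake.dvd (h : Wake m α β) {e : ℕ} : (∃ a : ℤ, (2 : ℝ) ^ e * α - α = a) ↔ m ∣ e := by
  obtain ⟨A, hA⟩ := h.per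
  have hA' : (2 : ℝ) ^ m * α - α = A := by linarith
  constructor
  · rintro ⟨a, ha⟩
    by_contra hcon
    obtain ⟨b, hb⟩ := pow_per_mul hA' (e / m)
    have hr := Nat.mod_lt e h.pos
    have hr0 : 0 < e % m := Nat.pos_of_ne_zero fun h0 => hcon (Nat.dvd_of_mod_eq_zero h0)
    refine h.exact (e % m) hr0 hr ⟨a - 2 ^ (e % m) * b, ?_⟩
    have e1 : (2 : ℝ) ^ e * α = 2 ^ (e % m) * (2 ^ (m * (e / m)) * α) := by
      rw [← mul_assoc, ← pow_add, Nat.mod_add_div]
    rw [hb] at e1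
    push_cast
    linarith
  · rintro ⟨c, rfl⟩
    obtain ⟨b, hb⟩ := pow_per_mul hA' c
    exact ⟨b, by linarith⟩

/-- the reflected wake -/
lemma Wake.refl (h : Wake m α β) : Wake m (1 - β) (1 - α) where
  pos := h.pos
  nonneg := by linarith [h.le_one]
  lt := by linarith [h.lt]
  le_one := by linarith [h.nonneg]
  per := by
    obtain ⟨b, hb⟩ := h.per'
    exact ⟨2 ^ m - 1 - b, by push_cast; linarith⟩
  per' := by
    obtain ⟨b, hb⟩ := h.per
    exact ⟨2 ^ m - 1 - b, by push_cast; linarith⟩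
  exact := by
    rintro d hd hdm ⟨b, hb⟩
    exact h.exact' d hd hdm ⟨2 ^ d - 1 - b, by push_cast; linarith⟩
  exact' := by
    rintro d hd hdm ⟨b, hb⟩
    exact h.exact d hd hdm ⟨2 ^ d - 1 - b, by push_cast; linarith⟩
  side := by
    intro θ h1 h2 i
    obtain ⟨w, j, k, e1, e2, e3, e4⟩ := h.side (1 - θ) (by linarith) (by linarith) i
    refine ⟨-w, -k - 1 + 2 ^ i, -j - 1 + 2 ^ i, ?_, ?_, ?_, ?_⟩ <;> push_cast <;> linarith

lemma Wake.dvd' (h : Wake m α β) {e : ℕ} : (∃ a : ℤ, (2 : ℝ) ^ e * β - β = a) ↔ m ∣ e := by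
  rw [← h.refl.dvd]
  constructor
  · rintro ⟨a, ha⟩
    exact ⟨2 ^ e - 1 - a, by push_cast; linarith⟩
  · rintro ⟨a, ha⟩
    exact ⟨2 ^ e - 1 - a, by push_cast; linarith⟩

lemma wLR_of_int {t : ℝ} {j : ℕ} {a : ℤ} (h : (2 : ℝ) ^ (j + 1) * t - t = a) :
    wL t j = 1 - wR t j := by
  unfold wL wR
  rw [h, Int.floor_intCast, Int.ceil_intCast]
  omega

lemma wLR_of_not_int {t : ℝ} {j : ℕ} (h : ¬ ∃ a : ℤ, (2 : ℝ) ^ (j + 1) * t - t = a) :
    wL t j = wR t j := by
  unfold wL wR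
  have h2 : ⌈(2 : ℝ) ^ (j + 1) * t - t⌉ = ⌊(2 : ℝ) ^ (j + 1) * t - t⌋ + 1 := by
    have h3 := Int.floor_le ((2 : ℝ) ^ (j + 1) * t - t)
    have h4 := Int.lt_floor_add_one ((2 : ℝ) ^ (j + 1) * t - t)
    have h5 : (⌊(2 : ℝ) ^ (j + 1) * t - t⌋ : ℝ) ≠ (2 : ℝ) ^ (j + 1) * t - t := fun h6 =>
      h ⟨_, h6.symm⟩
    rw [Int.ceil_eq_iff]
    push_cast
    constructor
    · linarith [lt_of_le_of_ne h3 h5]
    · linarith
  rw [h2]
  ring_nf

/-- the right closed word of `α` is the left closed word of `β` -/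
lemma Wake.wR_eq (h : Wake m α β) (j : ℕ) : wR α j = wL β j := by
  obtain ⟨n, n', h1, h2, h3, h4, l, hl⟩ := h.side_int j
  have hlt := h.lt
  have e1 : ⌈(2 : ℝ) ^ (j + 1) * α - α⌉ = n + 1 := by
    rw [Int.ceil_eq_iff]
    push_cast
    constructor <;> linarith
  have e2 : ⌊(2 : ℝ) ^ (j + 1) * β - β⌋ = n' := by
    rw [Int.floor_eq_iff]
    constructor <;> linarith
  unfold wR wL
  rw [e1, e2, hl]
  omega

lemma Wake.wL_eq (h : Wake m α β) (j : ℕ) : wL α j = wR β j := by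
  have h1 := h.wR_eq j
  by_cases hm : m ∣ j + 1
  · obtain ⟨a, ha⟩ := h.dvd.2 hm
    obtain ⟨b, hb⟩ := h.dvd'.2 hm
    have h2 := wLR_of_int ha
    have h3 := wLR_of_int hb
    omega
  · have h2 := wLR_of_not_int (t := α) (j := j) fun hc => hm (h.dvd.1 hc)
    have h3 := wLR_of_not_int (t := β) (j := j) fun hc => hm (h.dvd'.1 hc)
    omega

lemma wL_neg (t : ℝ) (j : ℕ) : wL (-t) j = 1 - wR t j := by
  unfold wL wR
  have e : (2 : ℝ) ^ (j + 1) * -t - -t = -(2 ^ (j + 1) * t - t) := by ring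
  rw [e, Int.floor_neg]
  omega

lemma wL_one_sub (t : ℝ) (j : ℕ) : wL (1 - t) j = wR t j := by
  unfold wL wR
  have e : (2 : ℝ) ^ (j + 1) * (1 - t) - (1 - t) = -(2 ^ (j + 1) * t - t) + ((2 ^ (j + 1) - 1 : ℤ) : ℝ) := by
    push_cast; ring
  rw [e, Int.floor_add_intCast, Int.floor_neg]
  have : (2 : ℤ) ^ (j + 1) = 2 * 2 ^ j := by rw [pow_succ]; ring
  omega

lemma ho_wL (t : ℝ) : HO (wL t) t t := fun j => wL_in t j

/-- explicit linear orbits -/
lemma gw_expl (w : ℕ → ℤ) (θ x : ℝ) (k : ℕ → ℤ) (n : ℕ)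
    (h : ∀ i < n, (θ + w i) / 2 + k i ≤ 2 ^ i * x ∧ 2 ^ i * x ≤ (θ + w i) / 2 + k i + 1 / 2) :
    gw w θ n x = 2 ^ n * x - ((∑ i ∈ Finset.range n, k i : ℤ) : ℝ) := by
  induction n with
  | zero => simp
  | succ n ih =>
    obtain ⟨hk1, hk2⟩ := h n (by omega)
    rw [gw_succ_apply, ih fun i hi => h i (by omega), Finset.sum_range_succ,
      tdbl_lin (k n - ∑ i ∈ Finset.range n, k i) (by push_cast; linarith) (by push_cast; linarith)]
    push_cast; ring


/-! ### the left end -/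

/-- **`α` is the left end of the strip of its left closed word** -/
theorem Wake.leftEnd (h : Wake m α β) (hm : 2 ≤ m) : ∃ k : ℤ, Word m (wL α) ∧
    nu (wL α) m α = k ∧ ∀ θ, α < θ → (k : ℝ) < nu (wL α) m θ := by
  have hm0 : 0 < m := h.pos
  obtain ⟨A, hA⟩ := h.per
  have hA' : (2 : ℝ) ^ m * α - α = A := by linarith
  have hex : ∀ d, 0 < d → d < m → ¬ ∃ b : ℤ, (2 : ℝ) ^ d * α - α = b := by
    rintro d hd hdm ⟨b, hb⟩
    exact h.exact d hd hdm ⟨b, by linarith⟩
  rcases gs_end hm hA' hex with ⟨w', k', hw', hn, hgt⟩ | ⟨w', k', hw', hn, hgt⟩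
  · obtain ⟨i₀, hi₀, hLE⟩ := exists_LE hm0 hw' hn hgt
    have hu : (fun j => w' (i₀ + j)) = wL α :=
      HO.word_eq hLE.word.1 (wL_bit α) hLE.ho (ho_wL α)
    have hnu : ∀ θ, nu (wL α) m θ = nu w' m θ := fun θ => by
      rw [← hu]; exact nu_shift_word w' m hw'.2.1 θ i₀
    exact ⟨k', hu ▸ hLE.word, by rw [hnu]; exact hn, fun θ hθ => by rw [hnu]; exact hgt θ hθ⟩
  · exfalso
    obtain ⟨i₀, hi₀, hLE⟩ := exists_LE hm0 hw' hn hgt
    have hu : (fun j => w' (i₀ + j)) = wL (-α) :=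
      HO.word_eq hLE.word.1 (wL_bit (-α)) hLE.ho (ho_wL (-α))
    have hu2 : wL (-α) = fun j => 1 - wR α j := funext fun j => wL_neg α j
    have hnu : ∀ θ, nu w' m (-θ) = m - nu (wR α) m θ := fun θ => by
      rw [← gs_nu_refl, ← hu2, ← hu]
      exact (nu_shift_word w' m hw'.2.1 (-θ) i₀).symm
    have hword : Word m fun j => 1 - wR α j := by rw [← hu2, ← hu]; exact hLE.word
    have hlt : ∀ θ, θ < α → nu (wR α) m θ < nu (wR α) m α := by
      intro θ hθ
      have h1 := hgt (-θ) (by linarith)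
      rw [hnu] at h1
      rw [hnu] at hn
      linarith
    obtain ⟨B, hB⟩ := h.per'
    by_cases hc : ∃ j, 0 < j ∧ j < m ∧ ∃ l : ℤ, (2 : ℝ) ^ j * β + l = α
    · -- the word is not primitive
      obtain ⟨j, hj, hjm, l, hl⟩ := hc
      obtain ⟨i, hi⟩ := hword.2.2 j hj hjm
      apply hi
      show 1 - wR α (i + j) = 1 - wR α i
      obtain ⟨n, n', h1, h2, h3, h4, -⟩ := h.side_int i
      have hab := h.lt
      have e1 : ⌈(2 : ℝ) ^ (i + 1) * α - α⌉ = n + 1 := by
        rw [Int.ceil_eq_iff]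
        push_cast
        constructor <;> linarith
      have e2 : ⌊(2 : ℝ) ^ (i + j + 1) * β - β⌋ = n - 2 ^ (i + 1) * l := by
        have e3 : (2 : ℝ) ^ (i + j + 1) * β = 2 ^ (i + 1) * (α - l) := by
          rw [← hl, show i + j + 1 = (i + 1) + j by ring, pow_add]; ring
        rw [e3, Int.floor_eq_iff]
        push_cast
        constructor <;> linarith
      rw [h.wR_eq (i + j)]
      unfold wL wR
      rw [e1, e2]
      have : (2 : ℤ) ^ (i + 1) * l = 2 * (2 ^ i * l) := by rw [pow_succ]; ring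
      omega
    · -- the rotation number is constant to the left of `α`
      push Not at hc
      have hab := h.lt
      have hLm : ∀ l : ℤ, (2 : ℝ) ^ m * β + l ≠ α := by
        intro l hl
        have f0 := h.nonneg
        have f1 := h.le_one
        have f2 : ((B + l : ℤ) : ℝ) < ((0 : ℤ) : ℝ) := by push_cast; linarith
        have f3 : ((-1 : ℤ) : ℝ) ≤ ((B + l : ℤ) : ℝ) := by push_cast; linarith
        have f4 := cast_lt_of f2
        have f5 := cast_le_of f3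
        have f6 : B + l = -1 := by omega
        have f7 : (B : ℝ) + l = -1 := by exact_mod_cast f6
        -- `α = 0`
        have f8 : α = 0 := by linarith
        exact h.exact 1 one_pos (by omega) ⟨0, by rw [f8]; simp⟩
      have hne : ∀ i < m, ∀ l : ℤ, (2 : ℝ) ^ (i + 1) * β + l ≠ α := by
        intro i hi l
        rcases Nat.lt_or_ge (i + 1) m with h1 | h1
        · exact hc (i + 1) (by omega) h1 l
        · rw [show i + 1 = m by omega]; exact hLm l
      have hev : ∀ᶠ θ : ℝ in 𝓝[<] α, ∀ i ∈ Finset.range m,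
          (2 : ℝ) ^ (i + 1) * β - θ < ⌊(2 : ℝ) ^ (i + 1) * β - β⌋ + 1 := by
        rw [Filter.eventually_all_finset]
        intro i hi
        obtain ⟨n, n', h1, h2, h3, h4, -⟩ := h.side_int i
        have e2 : ⌊(2 : ℝ) ^ (i + 1) * β - β⌋ = n' := by
          rw [Int.floor_eq_iff]
          constructor <;> linarith
        have h5 : (2 : ℝ) ^ (i + 1) * β - α < n' + 1 := by
          refine lt_of_le_of_ne h4 fun hcon => hne i (Finset.mem_range.1 hi) (-(n' + 1)) ?_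
          push_cast
          linarith
        rw [e2]
        exact mem_nhdsWithin_of_mem_nhds ((isOpen_lt (f := fun s : ℝ => (2 : ℝ) ^ (i + 1) * β - s)
          (g := fun _ => (n' : ℝ) + 1) (by fun_prop) (by fun_prop)).mem_nhds h5)
      obtain ⟨θ₁, hθ₁, hθ₁α⟩ := (hev.and self_mem_nhdsWithin).exists
      have hθα : θ₁ < α := hθ₁α
      have hint : ∀ θ, θ₁ ≤ θ → θ ≤ α → ∃ k : ℤ, nu (wR α) m θ = k := by
        intro θ h1 h2
        have hw : wR α = wL β := funext fun j => h.wR_eq j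
        obtain ⟨M, hM⟩ := gw_lin (wR α) θ β m fun i hi => by
          set z := ⌊(2 : ℝ) ^ (i + 1) * β - β⌋ with hz
          have e1 := Int.floor_le ((2 : ℝ) ^ (i + 1) * β - β)
          have e2 := hθ₁ i (Finset.mem_range.2 hi)
          rw [← hz] at e1 e2
          have e3 : wR α i = z % 2 := by rw [hw]; rfl
          refine ⟨z / 2, ?_⟩
          have e4 : (wR α i : ℤ) + 2 * (z / 2) = z := by omega
          have e5 : (wR α i : ℝ) + 2 * ((z / 2 : ℤ) : ℝ) = z := by exact_mod_cast e4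
          rw [pow_succ] at e1 e2
          constructor <;> linarith
        refine ⟨B - M, ?_⟩
        have h3 : gw (wR α) θ m β = β + ((B - M : ℤ) : ℝ) := by
          rw [hM]; push_cast; linarith
        exact translationNumber_of_eq_add_int _ h3
      have h6 := nu_const_of_int hθα.le hint
      exact absurd h6 (hlt θ₁ hθα).ne

/-- reflection and translation of the rotation number -/
lemma nu_one_sub (w : ℕ → ℤ) (n : ℕ) (θ : ℝ) :
    nu w n (1 - θ) = ((n + ∑ i ∈ Finset.range n, w i : ℤ) : ℝ) - nu w n θ := by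
  have h1 := nu_add_theta w (-θ) 1 n
  have h2 : (fun i => w i + 1) = fun i => (1 - w i) + 2 * w i := by funext i; ring
  have h3 := nu_shift (fun i => 1 - w i) w (-θ) n
  have h4 := gs_nu_refl w θ n
  have e : (1 : ℝ) - θ = -θ + ((1 : ℤ) : ℝ) := by push_cast; ring
  rw [e, h1, h2, h3, h4]
  push_cast
  ring

/-- **Module T1**: the strip of a wake -/
theorem Wake.strip (h : Wake m α β) (hm : 2 ≤ m) : ∃ k : ℤ, Word m (wL α) ∧
    nu (wL α) m α = k ∧ nu (wL α) m β = k + 1 ∧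
    ∀ θ, α < θ → θ < β → (k : ℝ) < nu (wL α) m θ ∧ nu (wL α) m θ < k + 1 := by
  have hab := h.lt
  obtain ⟨k, hword, hk, hgt⟩ := h.leftEnd hm
  obtain ⟨k', -, hk', hgt'⟩ := h.refl.leftEnd hm
  set w := wL α with hw
  have hwr : wL (1 - β) = w := funext fun j => by rw [wL_one_sub, hw, h.wL_eq]
  rw [hwr] at hk' hgt'
  set c : ℤ := m + ∑ i ∈ Finset.range m, w i with hc
  have hk1 : nu w m β = ((c - k' : ℤ) : ℝ) := by
    rw [nu_one_sub] at hk'
    push_cast at hk' ⊢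
    rw [hc]; push_cast; linarith
  have hlt : ∀ θ, θ < β → nu w m θ < ((c - k' : ℤ) : ℝ) := by
    intro θ hθ
    have h1 := hgt' (1 - θ) (by linarith)
    rw [nu_one_sub] at h1
    rw [hc]; push_cast at h1 ⊢; linarith
  -- the explicit value
  have hle : c - k' ≤ k + 1 := by
    obtain ⟨A, hA⟩ := h.per
    obtain ⟨B, hB⟩ := h.per'
    have hm1 : m - 1 + 1 = m := by omega
    have hpm : (2 : ℝ) ^ m = 2 * 2 ^ (m - 1) := by
      conv_lhs => rw [← hm1]
      rw [pow_succ]; ring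
    have hL1 : β ≤ α + 1 := by linarith [h.nonneg, h.le_one]
    -- the letters below `m - 1`
    have hkk : ∀ i, ∃ κ κ' : ℤ, i < m - 1 → ∀ θ, α ≤ θ → θ ≤ β →
        ((θ + w i) / 2 + κ ≤ 2 ^ i * α ∧ 2 ^ i * α ≤ (θ + w i) / 2 + κ + 1 / 2) ∧
        ((θ + w i) / 2 + κ' ≤ 2 ^ i * β ∧ 2 ^ i * β ≤ (θ + w i) / 2 + κ' + 1 / 2) := by
      intro i
      obtain ⟨n, n', h1, h2, h3, h4, l, hl⟩ := h.side_int i
      refine ⟨n / 2, n' / 2, fun hi θ hθ1 hθ2 => ?_⟩
      have hnd : ¬ ∃ a : ℤ, (2 : ℝ) ^ (i + 1) * α - α = a := fun hcon => by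
        have := Nat.le_of_dvd (by omega) (h.dvd.1 hcon)
        omega
      have e1 : ⌈(2 : ℝ) ^ (i + 1) * α - α⌉ = n + 1 := by
        rw [Int.ceil_eq_iff]
        push_cast
        constructor <;> linarith
      have e2 : w i = n % 2 := by
        rw [hw, wLR_of_not_int hnd]
        unfold wR
        rw [e1]; ring_nf
      have e3 : w i + 2 * (n / 2) = n := by omega
      have e4 : w i + 2 * (n' / 2) = n' := by omega
      have e5 : (w i : ℝ) + 2 * ((n / 2 : ℤ) : ℝ) = n := by exact_mod_cast e3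
      have e6 : (w i : ℝ) + 2 * ((n' / 2 : ℤ) : ℝ) = n' := by exact_mod_cast e4
      rw [pow_succ] at h1 h2 h3 h4
      refine ⟨⟨?_, ?_⟩, ?_, ?_⟩ <;> linarith
    choose κ κ' hκ using hkk
    set K : ℤ := ∑ i ∈ Finset.range (m - 1), κ i with hK
    set K' : ℤ := ∑ i ∈ Finset.range (m - 1), κ' i with hK'
    have hα : ∀ θ, α ≤ θ → θ ≤ β → gw w θ (m - 1) α = 2 ^ (m - 1) * α - (K : ℝ) := fun θ h1 h2 =>
      gw_expl w θ α κ (m - 1) fun i hi => (hκ i hi θ h1 h2).1
    have hβ : ∀ θ, α ≤ θ → θ ≤ β → gw w θ (m - 1) β = 2 ^ (m - 1) * β - (K' : ℝ) := fun θ h1 h2 =>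
      gw_expl w θ β κ' (m - 1) fun i hi => (hκ i hi θ h1 h2).2
    -- the last letter
    have ew : w (m - 1) = A % 2 := by
      rw [hw]; unfold wL
      rw [hm1, show (2 : ℝ) ^ m * α - α = A by linarith, Int.floor_intCast]
    have ew' : w (m - 1) = (B - 1) % 2 := by
      rw [hw, h.wL_eq]; unfold wR
      rw [hm1, show (2 : ℝ) ^ m * β - β = B by linarith, Int.ceil_intCast]
    have eA : w (m - 1) + 2 * (A / 2) = A := by omega
    have eB : w (m - 1) + 2 * ((B - 1) / 2) = B - 1 := by omega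
    have eA' : (w (m - 1) : ℝ) + 2 * ((A / 2 : ℤ) : ℝ) = A := by exact_mod_cast eA
    have eB' : (w (m - 1) : ℝ) + 2 * (((B - 1) / 2 : ℤ) : ℝ) = B - 1 := by exact_mod_cast eB
    have pA : (2 : ℝ) ^ (m - 1) * α = (α + A) / 2 := by rw [hpm] at hA; linarith
    have pB : (2 : ℝ) ^ (m - 1) * β = (β + B) / 2 := by rw [hpm] at hB; linarith
    have gA : gw w α m α = α + ((A - K - A / 2 : ℤ) : ℝ) := by
      conv_lhs => rw [← hm1]
      rw [gw_succ_apply, hα α le_rfl hab.le, tdbl_lin (A / 2 - K) (by push_cast; linarith)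
        (by push_cast; linarith)]
      push_cast; linarith
    have gB : gw w β m β = β + ((B - K' - (B - 1) / 2 : ℤ) : ℝ) := by
      conv_lhs => rw [← hm1]
      rw [gw_succ_apply, hβ β hab.le le_rfl, tdbl_lin ((B - 1) / 2 - K') (by push_cast; linarith)
        (by push_cast; linarith)]
      push_cast; linarith
    have nA : nu w m α = ((A - K - A / 2 : ℤ) : ℝ) := translationNumber_of_eq_add_int _ gA
    have nB : nu w m β = ((B - K' - (B - 1) / 2 : ℤ) : ℝ) := translationNumber_of_eq_add_int _ gB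
    have eq1 : k = A - K - A / 2 := by exact_mod_cast hk.symm.trans nA
    have eq2 : c - k' = B - K' - (B - 1) / 2 := by exact_mod_cast hk1.symm.trans nB
    -- monotonicity
    have hmon : gw w α (m - 1) β ≤ gw w α (m - 1) (α + 1) := (gw w α (m - 1)).monotone hL1
    rw [map_add_one, hα α le_rfl hab.le, hβ α le_rfl hab.le] at hmon
    have f1 : ((B - A - 2 * (K' - K) : ℤ) : ℝ) < ((2 : ℤ) : ℝ) := by
      push_cast
      rw [hpm] at hA hB
      linarith
    have f2 := cast_lt_of f1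
    omega
  have hlt' : k < c - k' := by
    have h1 := hgt ((α + β) / 2) (by linarith)
    have h2 := hlt ((α + β) / 2) (by linarith)
    exact cast_lt_of (h1.trans h2)
  have heq : c - k' = k + 1 := by omega
  rw [heq] at hk1 hlt
  push_cast at hk1 hlt
  exact ⟨k, hword, hk, hk1, fun θ h1 h2 => ⟨hgt θ h1, hlt θ h2⟩⟩

end Pool.Agent.Work.MLC.Shp
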