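import Pool.Agent.Work.MLC.Cap26
import Pool.Agent.Work.MLC.CntR60
import Pool.Agent.Work.MLC.CntFin6
import Pool.Agent.Work.MLC.ShpCap
import Pool.Agent.Work.MLC.ShpT

set_option autoImplicit false

/-! # Theorem CAP (the Mandelbrot set is locally connected quasi-everywhere), stage B: interface
(author: helper90; one-piece estimates: manager helper26)

Blueprint: note 2201. Definitions, and the statements of the modules as propositions.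

A piece is a limb (denominator at least `3`) or (`two`) the part of the limb of `U` outside of the
limb of `V`, both of rotation number `1 / 2`. Stage A (type I: limbs) is `Cap26`, `CapS6`.

Classes: the pieces with `L ≤ lg ℓ < 6 / 5 L` form a class. In every class we choose a minimal
subfamily with the same angles (`S_sub`, overlap at most `3`), then the sum over ALL chosen pieces of
`diam ^ 2 / lg ℓ` converges (`B_sum`) and the exceptional set is a null set for the gauge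
`1 / log (1 / t)`. -/

namespace Pool.Agent.Work.MLC.Shp

open Filter Topology Metric Set Complex MeasureTheory
open Pool.Agent.Work.MLC.Sat Pool.Agent.Work.MLC.Cnt
open scoped ENNReal

/-! ## definitions -/

/-- the weight of the potential `g` for a cut with the constant `N` -/
noncomputable def bet (N g : ℝ) : ℝ := (max 1 (lg g / N)) ^ (1 / 8 : ℝ)

/-- the region used by a cut whose angles are within `D` of `e`, from the height `H` down -/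
def Sc (e D H : ℝ) : Set ℂ :=
  {z | 0 < z.re ∧ z.re ≤ 2 * H ∧ |z.im / (2 * Real.pi) - e| ≤ D + 8 * z.re}

/-- the weighted area of the region -/
noncomputable def Ray (N e D H : ℝ) : ℝ≥0∞ :=
  ∫⁻ z in Sc e D H, ENNReal.ofReal (‖deriv cOf z‖ ^ 2 / bet N z.re)

/-- the weighted area next to the end `e` of an arc of length `ℓ` -/
noncomputable def RayE (e ℓ : ℝ) : ℝ≥0∞ := Ray (16 * lg ℓ) e (ℓ ^ (5 / 4 : ℝ)) ℓ

/-- the part of the component next to the root at `x` -/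
noncomputable def Hd (W : WS) (x : ℚ) : Set ℂ := Cap.HH W x

/-- a pair of nested roots `U = W.dat (1 / 2)`, `V = W'.dat (1 / 2)` whose two arcs have the same
length `ℓ` -/
structure Two (W W' : WS) (ℓ : ℝ) : Prop where
  ok : W.Ok
  ok' : W'.Ok
  pos : 0 < ℓ
  left : (W'.dat (1 / 2)).tm = (W.dat (1 / 2)).tm + ℓ
  right : (W.dat (1 / 2)).tp = (W'.dat (1 / 2)).tp + ℓ
  m_le : 100 ≤ W.m
  m_le' : W.m ≤ W'.m
  le : (W'.m : ℝ) ≤ lg ℓ
  gU : 2 / 2 ^ (5 * W.m) ≤ ℓ ^ (5 / 4 : ℝ)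
  gV : 2 / 2 ^ (2 * W'.m) ≤ ℓ ^ (5 / 4 : ℝ)

/-- a piece: the limb of `W.dat x`, or (`two`) the part of the limb of `W.dat x`, `x = 1 / 2`,
outside of the limb of `W'.dat (1 / 2)` -/
structure Pie where
  /-- the component of the outer root -/
  W : WS
  /-- the rotation number of the outer root -/
  x : ℚ
  /-- the component of the inner root -/
  W' : WS
  /-- is there an inner root -/
  two : Prop

namespace Pie

variable (P : Pie)

/-- the outer root -/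
noncomputable def U : Dat := P.W.dat P.x

/-- the inner root -/
noncomputable def V : Dat := P.W'.dat (1 / 2)

/-- the length of the arcs -/
noncomputable def ℓ : ℝ := open Classical in if P.two then P.V.tm - P.U.tm else P.U.tp - P.U.tm

/-- the angles -/
def A : Set ℝ := {θ | InA P.U θ ∧ (P.two → ∀ k : ℤ, ¬ (P.V.tm ≤ θ + k ∧ θ + k ≤ P.V.tp))}

/-- the parameters -/
def K : Set ℂ := {z | z ∈ MM ∧ (z = rt P.U ∨ z ∈ Lm P.U) ∧ (P.two → z ∉ Lm P.V)}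

/-- the hypotheses -/
structure Ok : Prop where
  ok : P.W.Ok
  x_pos : 0 < P.x
  x_lt : P.x < 1
  m_le : 100 ≤ P.W.m
  one : ¬ P.two → 3 ≤ P.x.den
  half : P.two → P.x = 1 / 2
  nest : P.two → Two P.W P.W' (P.V.tm - P.U.tm)

/-- `θ` is an end of an arc of the piece -/
def End (θ : ℝ) : Prop := ∃ k : ℤ, θ + k = P.U.tm ∨ θ + k = P.U.tp ∨
  (P.two ∧ (θ + k = P.V.tm ∨ θ + k = P.V.tp))

end Pie

/-- at most three pieces at every angle which is not an end -/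
def Over {ι : Type} (F : Finset ι) (P : ι → Pie) : Prop := ∀ θ : ℝ, (∀ i ∈ F, ¬ (P i).End θ) →
  ∀ T ⊆ F, (∀ i ∈ T, θ ∈ (P i).A) → T.card ≤ 3

/-- zero logarithmic capacity -/
def ZeroCap (E : Set ℝ) : Prop := ∀ μ : Measure ℝ, IsFiniteMeasure μ → FinE μ → μ E = 0

/-- at most three pieces of one class at every angle which is not an end -/
def OverC {ι : Type} (F : Finset ι) (P : ι → Pie) : Prop := ∀ L θ : ℝ, 0 < L →
  (∀ i ∈ F, ¬ (P i).End θ) → ∀ T ⊆ F,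
    (∀ i ∈ T, θ ∈ (P i).A ∧ L ≤ lg (P i).ℓ ∧ lg (P i).ℓ < 6 / 5 * L) → T.card ≤ 3

/-- the left end of the plateau `1 / 2` of the `n`-th real component of the copy of the wake
`(α, β)` -/
noncomputable def sL (m : ℕ) (α β : ℝ) (n : ℕ) : ℝ :=
  α + (β - α) * 2 ^ (m * n) / (2 ^ m * (2 ^ (m * n) + 1))

/-- its right end -/
noncomputable def sR (m : ℕ) (α β : ℝ) (n : ℕ) : ℝ :=
  β - (β - α) * 2 ^ (m * n) / (2 ^ m * (2 ^ (m * n) + 1))

/-! ## pure modules -/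

/-- M: the weighted areas next to the ends of arcs of overlap at most three in every class -/
def M_class : Prop := ∃ C : ℝ, ∀ (ι : Type) (F : Finset ι) (e ℓ : ι → ℝ),
  (∀ i ∈ F, 0 < ℓ i ∧ ℓ i ≤ 1 / 2 ^ 90) →
  (∀ L x : ℝ, 0 < L → (∀ i ∈ F, ∀ k : ℤ, x + k ≠ e i ∧ x + k ≠ e i + ℓ i) → ∀ T ⊆ F,
    (∀ i ∈ T, L ≤ lg (ℓ i) ∧ lg (ℓ i) < 6 / 5 * L ∧ ∃ k : ℤ, e i < x + k ∧ x + k < e i + ℓ i) →
      T.card ≤ 3) →
  ∑ i ∈ F, RayE (e i) (ℓ i) ≤ ENNReal.ofReal C ∧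
  ∑ i ∈ F, RayE (e i + ℓ i) (ℓ i) ≤ ENNReal.ofReal C

/-- S: a subfamily with the same angles and overlap at most three -/
def S_sub : Prop := ∀ (ι : Type) (F : Finset ι) (P : ι → Pie), (∀ i ∈ F, (P i).Ok) →
  ∃ F' ⊆ F, Over F' P ∧ ∀ θ : ℝ, (∀ i ∈ F, ¬ (P i).End θ) → ∀ i ∈ F, θ ∈ (P i).A →
    ∃ j ∈ F', θ ∈ (P j).A

/-! ## angles and tuning (`Wake.strip` is proved in `ShpT`) -/

/-- T2 (helper24): the plateau of the rotation number `1 / 2` of the real components of the copy -/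
def T_half : Prop := ∀ (m : ℕ) (α β : ℝ), Wake m α β → 2 ≤ m → ∀ n : ℕ, 0 < n →
  ∃ (u : ℕ → ℤ) (κ : ℤ), Word (n * m) u ∧ (n = 1 → u = wL α) ∧
    ∀ θ, Circ.nu u (n * m) θ = κ + 1 / 2 ↔ sL m α β n ≤ θ ∧ θ ≤ sR m α β n

/-- IRR: not both rotation numbers are irrational -/
def T_irr : Prop := ∀ (W W' : WS) (θ : ℝ), W.Ok → W'.Ok → W.m ≠ W'.m →
  0 < W.nu θ → W.nu θ < 1 → 0 < W'.nu θ → W'.nu θ < 1 →
  Irrational (W.nu θ) → Irrational (W'.nu θ) → False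

/-- the pieces of type II of a wake -/
def T_two : Prop := ∀ (m : ℕ) (α β : ℝ) (n : ℕ), Wake m α β → 100 ≤ m → 0 < n →
  ∃ P : Pie, P.Ok ∧ P.two ∧ P.W.m = n * m ∧ P.W'.m = (n + 1) * m ∧
    P.U.tm = sL m α β n ∧ P.U.tp = sR m α β n ∧ P.V.tm = sL m α β (n + 1) ∧
    P.V.tp = sR m α β (n + 1) ∧ (n + 1) * m ≤ lg P.ℓ ∧ lg P.ℓ ≤ (n + 2) * m + 1

/-- T3: an infinitely renormalizable angle is (off a countable set) in infinitely many wakes of type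
`(m, p / q)`, `q ≥ 3`, or in infinitely many pieces of type II -/
def T_pieces : Prop := ∃ N : Set ℝ, N.Countable ∧ ∀ θ : ℝ, θ ∉ N → InfRen θ →
  (∀ M : ℕ, ∃ (W : WS) (x : ℚ), W.Ok ∧ M ≤ W.m ∧ 0 < x ∧ x < 1 ∧ 3 ≤ x.den ∧
    (W.dat x).tm < θ ∧ θ < (W.dat x).tp) ∨
  (∀ M : ℕ, ∃ (m : ℕ) (α β : ℝ) (n : ℕ), M ≤ m ∧ Wake m α β ∧ 0 < n ∧
    ((sL m α β n < θ ∧ θ < sL m α β (n + 1)) ∨ (sR m α β (n + 1) < θ ∧ θ < sR m α β n)))

/-! ## one piece (manager: helper26) -/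

/-- E2: a piece with two arcs; `W''` is the child of the inner root -/
def E_two : Prop := ∃ C : ℝ, 0 < C ∧ ∀ (W W' : WS) (ℓ : ℝ), Two W W' ℓ → ∃ W'' : WS, W''.Ok ∧
  W''.m = 2 * W'.m ∧ (W'.dat (1 / 2)).tm < (W''.dat (1 / 2)).tm ∧
  (W''.dat (1 / 2)).tm - (W'.dat (1 / 2)).tm ≤ 1 / (2 ^ (2 * W'.m) - 1) ∧
  ENNReal.ofReal (diam {z | z ∈ MM ∧ (z = rt (W.dat (1 / 2)) ∨ z ∈ Lm (W.dat (1 / 2))) ∧
    z ∉ Lm (W'.dat (1 / 2))} ^ 2) ≤ ENNReal.ofReal C *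
    (ENNReal.ofReal (lg ℓ) * (RayE (W.dat (1 / 2)).tm ℓ + RayE (W'.dat (1 / 2)).tm ℓ +
        RayE (W'.dat (1 / 2)).tp ℓ + RayE (W.dat (1 / 2)).tp ℓ) +
      (W.m * volume (Hd W (1 / 2)) + W'.m * volume (Hd W'' (1 / 2))))

/-! ## the theorem -/

/-- H: the sum of the areas inside the components -/
def H_sum : Prop := ∃ C : ℝ, ∀ (ι : Type) (F : Finset ι) (W : ι → WS) (x : ι → ℚ),
  (∀ i ∈ F, (W i).Ok ∧ 0 < x i ∧ x i < 1) →
  (∀ i ∈ F, ∀ j ∈ F, WS.Same (W i) (W j) → x i = x j → i = j) →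
  ∑ i ∈ F, volume (Hd (W i) (x i)) / (x i).den ≤ ENNReal.ofReal C

/-- Z: the sum over the pieces of type II -/
def B_sum : Prop := ∃ C : ℝ, ∀ (ι : Type) (F : Finset ι) (P : ι → Pie),
  (∀ i ∈ F, (P i).Ok ∧ (P i).two) → OverC F P → ∑ i ∈ F, diam (P i).K ^ 2 / lg (P i).ℓ ≤ C

/-- the choice of the pieces (helper49): `I` is the set of indices `(m, a, b, n)` of the pieces of
type II, `P` the pieces -/
def Ix (i : ℕ × ℕ × ℕ × ℕ) : Prop := 100 ≤ i.1 ∧ 0 < i.2.2.2 ∧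
  Wake i.1 (i.2.1 / (2 ^ i.1 - 1)) (i.2.2.1 / (2 ^ i.1 - 1))

/-- CH: the chosen pieces cover and have a convergent sum -/
def B_choose : Prop := ∀ P : ℕ × ℕ × ℕ × ℕ → Pie, (∀ i, Ix i → (P i).Ok ∧ (P i).two ∧
    (P i).U.tm = sL i.1 (i.2.1 / (2 ^ i.1 - 1)) (i.2.2.1 / (2 ^ i.1 - 1)) i.2.2.2 ∧
    ((i.2.2.2 + 1) * i.1 : ℝ) ≤ lg (P i).ℓ) →
  ∃ G : Set (ℕ × ℕ × ℕ × ℕ), (∀ i ∈ G, Ix i) ∧
    Summable (fun i : G => diam (P i).K ^ 2 / lg (P i).ℓ) ∧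
    ∀ θ : ℝ, (∀ i, Ix i → ¬ (P i).End θ) → (∀ M : ℕ, ∃ i, Ix i ∧ M ≤ i.1 ∧ θ ∈ (P i).A) →
      ∀ M : ℕ, ∃ i ∈ G, (M : ℝ) ≤ lg (P i).ℓ ∧ θ ∈ (P i).A

/-- a null set for the gauge `1 / log (1 / t)` -/
def LogNull (E : Set ℝ) : Prop := ∀ ε > 0, ∃ a b : ℕ → ℝ, (∀ i, a i < b i ∧ b i < a i + 1) ∧
  E ⊆ (⋃ i, Icc (a i) (b i)) ∧ Summable (fun i => 1 / Real.log (1 / (b i - a i))) ∧
  ∑' i, 1 / Real.log (1 / (b i - a i)) < ε

/-- FIN: **Theorem CAP** -/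
def Cap_thm : Prop := ∃ E : Set ℝ, LogNull E ∧ ∀ θ ∈ Ico (0 : ℝ) 1, InfRen θ → θ ∉ E → ∃ c₀ ∈ MM,
  Tendsto Psi (𝓝[{z | 1 < ‖z‖}] (Complex.exp (2 * Real.pi * θ * Complex.I))) (𝓝 c₀) ∧
  LCat MM c₀

end Pool.Agent.Work.MLC.Shp
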