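import Pool.Agent.Work.MLC.CapU26
import Pool.Agent.Work.MLC.CapC60
import Pool.Agent.Work.MLC.CapP13
import Pool.Agent.Work.MLC.CapQ13
import Pool.Agent.Work.MLC.CapM26
import Pool.Agent.Work.MLC.Shp0

set_option autoImplicit false

/-! # Theorem Cap, stage B: the estimate of a piece with two arcs (helper26) -/

namespace Pool.Agent.Work.MLC.Cap

open Filter Topology Metric Set Complex MeasureTheory
open Pool.Agent.Work.MLC.Sat Pool.Agent.Work.MLC.Cnt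
open Pool.Agent.Work.MLC.Shp (lg RayE Ray Sc Two)
open scoped ENNReal

lemma meas_Sc (e D H : ℝ) : MeasurableSet (Sc e D H) := meas_RS e D H

lemma bet_eq (N g : ℝ) : Shp.bet N g = bet N g := rfl

lemma bet_anti {N N' g : ℝ} (hN : 0 < N) (h : N ≤ N') : bet N' g ≤ bet N g := by
  unfold bet
  refine Real.rpow_le_rpow (le_trans zero_le_one (le_max_left _ _)) ?_ (by norm_num)
  rcases le_total (Real.logb 2 (1 / g)) 0 with h1 | h1
  · have h2 : Real.logb 2 (1 / g) / N' ≤ 0 := div_nonpos_of_nonpos_of_nonneg h1 (hN.le.trans h)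
    rw [max_eq_left (by linarith)]
    exact le_max_left _ _
  · exact max_le_max le_rfl (div_le_div_of_nonneg_left h1 hN h)

/-- comparison of the ray energies -/
lemma rayE_le {N e e' D ℓ : ℝ} (hN0 : 0 < N) (hN : N ≤ 16 * lg ℓ)
    (hD : D + |e - e'| ≤ ℓ ^ (5 / 4 : ℝ)) : rayE N e D ℓ ≤ RayE e' ℓ := by
  unfold rayE RayE Shp.Ray
  have hsub : RS e D ℓ ⊆ Sc e' (ℓ ^ (5 / 4 : ℝ)) ℓ := by
    rintro z ⟨h1, h2, h3⟩
    refine ⟨h1, h2, ?_⟩
    have := abs_sub_le (z.im / (2 * Real.pi)) e e'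
    linarith
  refine (lintegral_mono_set hsub).trans (setLIntegral_mono' (meas_Sc _ _ _) fun z _ => ?_)
  refine ENNReal.ofReal_le_ofReal ?_
  rw [bet_eq]
  exact div_le_div_of_nonneg_left (by positivity) (bet_pos _ _) (bet_anti hN0 hN)

/-- comparison of the roof energies -/
lemma roofE_le {e s t ℓ : ℝ} (hℓ : 0 < ℓ) (hlg : 1 ≤ lg ℓ) (h1 : e ≤ s) (h2 : t ≤ e + ℓ) :
    en (Rf s t ℓ) ≤ RayE e ℓ := by
  unfold en RayE Shp.Ray
  have hsub : Rf s t ℓ ⊆ Sc e (ℓ ^ (5 / 4 : ℝ)) ℓ := by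
    rintro z ⟨a1, a2, a3, a4⟩
    have : 0 < ℓ ^ (5 / 4 : ℝ) := by positivity
    refine ⟨by linarith, a2.le, ?_⟩
    rw [abs_le]
    constructor <;> linarith
  refine le_trans ?_ (lintegral_mono_set hsub)
  refine setLIntegral_mono' (meas_Rf _ _ _) fun z hz => ?_
  refine ENNReal.ofReal_le_ofReal ?_
  rw [bet_eq]
  have hb : bet (16 * lg ℓ) z.re = 1 := by
    unfold bet
    rw [max_eq_left, Real.one_rpow]
    rw [div_le_one (by positivity)]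
    have h4 : ℓ / 2 ≤ z.re := hz.1.le
    have h5 := lam_anti (by positivity) h4
    have h6 : lam (ℓ / 2) = lg ℓ + 1 := by
      unfold lam lg
      rw [one_div_div, one_div, Real.logb_div (by norm_num) hℓ.ne', Real.logb_inv,
        Real.logb_self_eq_one (by norm_num)]
      ring
    have h7 : Real.logb 2 (1 / z.re) = lam z.re := rfl
    rw [h7]
    linarith
  rw [hb, div_one]

/-- E2 in the final form -/
def E_two' : Prop := ∃ C : ℝ, 0 < C ∧ ∀ (W W' : WS) (ℓ : ℝ), Two W W' ℓ → ∃ W'' : WS, W''.Ok ∧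
  W''.m = 2 * W'.m ∧ (W'.dat (1 / 2)).tm < (W''.dat (1 / 2)).tm ∧
  (W''.dat (1 / 2)).tm - (W'.dat (1 / 2)).tm ≤ 1 / (2 ^ (2 * W'.m) - 1) ∧
  ENNReal.ofReal (diam {z | z ∈ MM ∧ (z = rt (W.dat (1 / 2)) ∨ z ∈ Lm (W.dat (1 / 2))) ∧
    z ∉ Lm (W'.dat (1 / 2))} ^ 2) ≤ ENNReal.ofReal C *
    (ENNReal.ofReal (lg ℓ) * (RayE (W.dat (1 / 2)).tm ℓ + RayE (W'.dat (1 / 2)).tm ℓ +
        RayE (W'.dat (1 / 2)).tp ℓ + RayE (W.dat (1 / 2)).tp ℓ) +
      (W.m * volume (HH W (1 / 2)) + W'.m * volume (HH W'' (1 / 2))))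

theorem e_two : E_two' := by
  refine ⟨8 * (2 * 10 ^ 17), by norm_num, fun W W' ℓ hT => ?_⟩
  have h0 : (0 : ℚ) < 1 / 2 := by norm_num
  have h1 : (1 / 2 : ℚ) < 1 := by norm_num
  have hd : ((1 / 2 : ℚ)).den = 2 := by norm_num
  obtain ⟨W'', hW'', hm'', hax, hang, hdl, hdr⟩ := c_child W' hT.ok' (1 / 2) h0 h1
  rw [hd] at hm''
  have hm2 : W''.m = 2 * W'.m := by omega
  obtain ⟨U, hU⟩ : ∃ U, U = W.dat (1 / 2) := ⟨_, rfl⟩
  obtain ⟨V, hV⟩ : ∃ V, V = W'.dat (1 / 2) := ⟨_, rfl⟩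
  have hUP : U.Par := hU ▸ WS.dat_par hT.ok h0 h1
  have hUC : U.Cir := hU ▸ WS.dat_cir hT.ok h0 h1
  have hVP : V.Par := hV ▸ WS.dat_par hT.ok' h0 h1
  have hVC : V.Cir := hV ▸ WS.dat_cir hT.ok' h0 h1
  have hl := hT.left
  have hr := hT.right
  have hpos := hT.pos
  rw [← hU, ← hV] at hl hr
  have hUV1 : U.tm < V.tm := by linarith
  have hUV2 : V.tp < U.tp := by linarith
  have hmem := nest_of_arc hUP hUC hVP hVC hUV1 hUV2
  have hsub : Lm V ⊆ Lm U := (subset_insert _ _).trans (limb_sub hUP hUC hVP hVC hmem)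
  have hpre := c_pre U V hUP hUC hVP hVC hsub hmem
  -- numbers
  have hWm : (100 : ℝ) ≤ W.m := by exact_mod_cast hT.m_le
  have hWm' : (W.m : ℝ) ≤ W'.m := by exact_mod_cast hT.m_le'
  have hlg := hT.le
  have hlg1 : 1 ≤ lg ℓ := by linarith
  have hℓ1 : ℓ ≤ 1 := by
    by_contra hcon
    push Not at hcon
    have : lg ℓ ≤ 0 := by
      unfold lg
      refine Real.logb_nonpos (by norm_num) (by positivity) ?_
      rw [div_le_one hpos]
      exact hcon.le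
    linarith
  have hpw : ℓ ^ (5 / 4 : ℝ) ≤ ℓ := by
    have := Real.rpow_le_rpow_of_exponent_ge hpos hℓ1 (show (1 : ℝ) ≤ 5 / 4 by norm_num)
    rwa [Real.rpow_one] at this
  have hgU : DD W.m 2 ≤ ℓ ^ (5 / 4 : ℝ) := by
    refine le_trans (le_of_eq ?_) hT.gU
    unfold DD
    rw [show W.m * (3 * 2 - 1) = 5 * W.m by ring, one_div, inv_pow]
    ring
  have hm'1 : 1 ≤ W'.m := by
    have h := hT.m_le
    have h' := hT.m_le'
    omega
  have hA : (4 : ℝ) ≤ 2 ^ (2 * W'.m) := by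
    calc (4 : ℝ) = 2 ^ 2 := by norm_num
      _ ≤ 2 ^ (2 * W'.m) := pow_le_pow_right₀ (by norm_num) (by omega)
  have hDD'' : DD W''.m 2 + 1 / (2 ^ W''.m - 1) ≤ 2 / 2 ^ (2 * W'.m) := by
    have e1 : DD W''.m 2 = 2 / (2 ^ (2 * W'.m)) ^ 5 := by
      unfold DD
      rw [hm2, show 2 * W'.m * (3 * 2 - 1) = (2 * W'.m) * 5 by ring, one_div, inv_pow, pow_mul]
      ring
    rw [e1, hm2]
    obtain ⟨A, hAd⟩ : ∃ A : ℝ, A = 2 ^ (2 * W'.m) := ⟨_, rfl⟩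
    rw [← hAd] at hA ⊢
    have hA1 : 0 < A - 1 := by linarith
    rw [div_add_div _ _ (by positivity) hA1.ne', div_le_div_iff₀ (by positivity) (by linarith)]
    have hA2 : 16 ≤ A ^ 2 := by nlinarith
    have hA3 : 64 ≤ A ^ 3 := by nlinarith
    have hA5 : A ^ 5 = A ^ 2 * A ^ 3 := by ring
    have hA4 : (4 : ℝ) * A ^ 4 ≤ A ^ 5 := by
      have : A ^ 5 = A * A ^ 4 := by ring
      rw [this]
      exact mul_le_mul_of_nonneg_right hA (by positivity)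
    nlinarith [mul_nonneg (show (0 : ℝ) ≤ A ^ 5 by positivity) hA1.le]
  have hgV := hT.gV
  have hDpos : 0 < DD W''.m 2 := DD_pos _ _
  have hApos : (0 : ℝ) < 1 / (2 ^ W''.m - 1) := by
    rw [hm2]
    have : (0 : ℝ) < 2 ^ (2 * W'.m) - 1 := by linarith
    positivity
  rw [← hV] at hdl hdr hax hang
  have hkey := two_all W W'' hT.ok hW'' V (1 / 2) (1 / 2) ℓ hVP hVC h0 h1 h0 h1 hℓ1
    (by rw [← hU]; exact hsub) hax (by rw [← hU]; exact hUV1.le)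
    (fun y hy0 hy1 => ⟨(hang y hy0 hy1).1.le, (hang y hy0 hy1).2.le⟩)
    (by rw [← hU]; exact hUV2.le) (by rw [← hU]; exact hpre)
    (by rw [← hU]; linarith) (by rw [← hU]; linarith) (by rw [hd]; linarith)
    (by rw [hd]; linarith) (by linarith) (by linarith)
  refine ⟨W'', hW'', hm2, by rw [← hV]; exact (hang _ h0 h1).1, by rw [← hV, ← hm2]; exact hdl, ?_⟩
  have hset : {z | z ∈ MM ∧ (z = rt (W.dat (1 / 2)) ∨ z ∈ Lm (W.dat (1 / 2))) ∧
      z ∉ Lm (W'.dat (1 / 2))} = KP (W.dat (1 / 2)) V := by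
    rw [← hU, ← hV]
    ext z
    constructor
    · rintro ⟨-, a2, a3⟩
      exact ⟨a2, a3⟩
    · rintro ⟨a2, a3⟩
      refine ⟨?_, a2, a3⟩
      rcases a2 with rfl | a2
      · exact rt_mem_MM hUP
      · exact lm_subset a2
  rw [hset]
  refine hkey.trans ?_
  rw [show ENNReal.ofReal (8 * (2 * 10 ^ 17)) = ENNReal.ofReal (2 * 10 ^ 17) * 8 by
    rw [mul_comm (8 : ℝ), ENNReal.ofReal_mul (by norm_num)]; norm_num, mul_assoc]
  refine mul_le_mul' le_rfl ?_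
  rw [← hU, ← hV]
  have hlgm : (W.m : ℝ) ≤ lg ℓ := hWm'.trans hlg
  -- the rays of the outer cut
  have r1 : rayE (4 * W.m * ((1 / 2 : ℚ)).den) U.tm (DD W.m ((1 / 2 : ℚ)).den) ℓ ≤
      RayE U.tm ℓ := by
    rw [hd]
    refine rayE_le (by positivity) (by push_cast; linarith) ?_
    rw [sub_self, abs_zero, add_zero]
    exact hgU
  have r2 : rayE (4 * W.m * ((1 / 2 : ℚ)).den) U.tp (DD W.m ((1 / 2 : ℚ)).den) ℓ ≤
      RayE U.tp ℓ := by
    rw [hd]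
    refine rayE_le (by positivity) (by push_cast; linarith) ?_
    rw [sub_self, abs_zero, add_zero]
    exact hgU
  have hm2R : (W''.m : ℝ) = 2 * W'.m := by rw [hm2]; push_cast; ring
  have r3 : rayE (4 * W''.m * ((1 / 2 : ℚ)).den) (W''.dat (1 / 2)).tm
      (DD W''.m ((1 / 2 : ℚ)).den) ℓ ≤ RayE V.tm ℓ := by
    rw [hd]
    refine rayE_le (by rw [hm2R]; positivity) (by rw [hm2R]; push_cast; linarith) ?_
    rw [abs_of_pos (by have := (hang _ h0 h1).1; linarith)]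
    linarith
  have r4 : rayE (4 * W''.m * ((1 / 2 : ℚ)).den) (W''.dat (1 / 2)).tp
      (DD W''.m ((1 / 2 : ℚ)).den) ℓ ≤ RayE V.tp ℓ := by
    rw [hd]
    refine rayE_le (by rw [hm2R]; positivity) (by rw [hm2R]; push_cast; linarith) ?_
    rw [abs_sub_comm, abs_of_pos (by have := (hang _ h0 h1).2; linarith)]
    linarith
  have f1 : en (Rf U.tm V.tm ℓ) ≤ RayE U.tm ℓ :=
    roofE_le hpos hlg1 le_rfl (by linarith)
  have f2 : en (Rf V.tp U.tp ℓ) ≤ RayE V.tp ℓ :=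
    roofE_le hpos hlg1 le_rfl (by linarith)
  have g1 : ENNReal.ofReal (W.m * ((1 / 2 : ℚ)).den) ≤ 2 * ENNReal.ofReal (lg ℓ) := by
    rw [show (2 : ℝ≥0∞) = ENNReal.ofReal 2 by simp, ← ENNReal.ofReal_mul (by norm_num), hd]
    refine ENNReal.ofReal_le_ofReal ?_
    push_cast
    linarith
  have g2 : ENNReal.ofReal (W''.m * ((1 / 2 : ℚ)).den) ≤ 4 * ENNReal.ofReal (lg ℓ) := by
    rw [show (4 : ℝ≥0∞) = ENNReal.ofReal 4 by simp, ← ENNReal.ofReal_mul (by norm_num), hd, hm2R]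
    refine ENNReal.ofReal_le_ofReal ?_
    push_cast
    linarith
  have g3 : (1 : ℝ≥0∞) ≤ ENNReal.ofReal (lg ℓ) := by
    rw [← ENNReal.ofReal_one]
    exact ENNReal.ofReal_le_ofReal hlg1
  have g4 : ENNReal.ofReal (W.m : ℝ) = W.m := ENNReal.ofReal_natCast _
  have g5 : ENNReal.ofReal (W''.m : ℝ) = 2 * W'.m := by
    rw [hm2R, ENNReal.ofReal_mul (by norm_num), ENNReal.ofReal_natCast]
    norm_num
  unfold cutE
  rw [← hU, g4, g5]
  obtain ⟨a, ha⟩ : ∃ a, a = RayE U.tm ℓ := ⟨_, rfl⟩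
  obtain ⟨b, hb⟩ : ∃ b, b = RayE V.tm ℓ := ⟨_, rfl⟩
  obtain ⟨c, hc⟩ : ∃ c, c = RayE V.tp ℓ := ⟨_, rfl⟩
  obtain ⟨d, hdd⟩ : ∃ d, d = RayE U.tp ℓ := ⟨_, rfl⟩
  obtain ⟨L, hL⟩ : ∃ L, L = ENNReal.ofReal (lg ℓ) := ⟨_, rfl⟩
  obtain ⟨v, hv⟩ : ∃ v, v = volume (HH W (1 / 2)) := ⟨_, rfl⟩
  obtain ⟨v', hv'⟩ : ∃ v, v = volume (HH W'' (1 / 2)) := ⟨_, rfl⟩
  rw [← ha] at r1 f1
  rw [← hb] at r3
  rw [← hc] at r4 f2
  rw [← hdd] at r2
  rw [← hL] at g1 g2 g3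
  rw [← ha, ← hb, ← hc, ← hdd, ← hL, ← hv, ← hv']
  have k1 := mul_le_mul' g1 (add_le_add r1 r2)
  have k2 := mul_le_mul' g2 (add_le_add r3 r4)
  have k3 : en (Rf U.tm V.tm ℓ) ≤ L * a := f1.trans (by
    calc a = 1 * a := (one_mul a).symm
      _ ≤ L * a := mul_le_mul' g3 le_rfl)
  have k4 : en (Rf V.tp U.tp ℓ) ≤ L * c := f2.trans (by
    calc c = 1 * c := (one_mul c).symm
      _ ≤ L * c := mul_le_mul' g3 le_rfl)
  refine (add_le_add (add_le_add (add_le_add (add_le_add k1 le_rfl) (add_le_add k2 le_rfl)) k3)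
    k4).trans ?_
  have e1 : 2 * L * (a + d) + (W.m : ℝ≥0∞) * v + (4 * L * (b + c) + 2 * W'.m * v') + L * a +
      L * c = (3 * (L * a) + 4 * (L * b) + 5 * (L * c) + 2 * (L * d)) +
        (1 * (W.m * v) + 2 * (W'.m * v')) := by ring
  have e2 : 8 * (L * (a + b + c + d) + (W.m * v + W'.m * v')) =
      (8 * (L * a) + 8 * (L * b) + 8 * (L * c) + 8 * (L * d)) +
        (8 * (W.m * v) + 8 * (W'.m * v')) := by ring
  rw [e1, e2]
  gcongr <;> norm_num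

end Pool.Agent.Work.MLC.Cap
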