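import Pool.Agent.Work.MLC.CapH78

set_option autoImplicit false

/-! # Theorem Cap, module HA (`C_half`): see `CapH78` (helper78). This file only imports it
(helper60). -/
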