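import Pool.Agent.Work.MLC.Cap26
import Pool.Agent.Work.MLC.CntA54

set_option autoImplicit false

/-! # Theorem Cap: the length of the plateaus (helper24) -/

namespace Pool.Agent.Work.MLC.Cap

open Filter Topology Metric Set Complex MeasureTheory
open Pool.Agent.Work.MLC.Sat Pool.Agent.Work.MLC.Cnt

/-- the plateau of a datum is not too short -/
lemma dat_len_lower {D : Dat} (hC : D.Cir) :
    (1 / 2 : ℝ) ^ (D.m * D.x.den) ≤ D.tp - D.tm := by
  obtain ⟨-, ⟨k, hk⟩, -⟩ := hC.per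
  obtain ⟨j, l, hj⟩ := hC.orb
  have hlt := hC.lt
  set n : ℕ := D.m * D.x.den with hn
  have h1 : ((2 : ℝ) ^ n - 1) * (D.tp - D.tm) =
      ((2 ^ (D.m * j) * k + (2 ^ n - 1) * l - k : ℤ) : ℝ) := by
    push_cast
    rw [hj]
    linear_combination (2 ^ (D.m * j) - 1) * hk
  have h2 : (0 : ℝ) < 2 ^ n := by positivity
  have h4 : (1 : ℝ) ≤ 2 ^ n := one_le_pow₀ (by norm_num)
  have h5 : (0 : ℝ) < 2 ^ n - 1 := by
    rcases h4.lt_or_eq with h | h
    · linarith
    · exfalso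
      rw [← h] at hk h1
      -- `n = 0`
      have hn0 : n = 0 := by
        by_contra hne
        have : (1 : ℝ) < 2 ^ n := one_lt_pow₀ (by norm_num) hne
        linarith
      have hq : D.x.den ≠ 0 := D.x.den_nz
      have hm0 : D.m = 0 := by
        rcases Nat.mul_eq_zero.1 hn0 with h | h
        · exact h
        · exact absurd h hq
      have hmj : D.m * j = 0 := by rw [hm0, zero_mul]
      rw [hmj, pow_zero, one_mul] at hj
      have h6 := hC.lt_one
      have h7 : (0 : ℝ) < l := by linarith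
      have h8 : (l : ℝ) < 1 := by linarith
      have h9 : 0 < l := by exact_mod_cast h7
      have h10 : l < 1 := by exact_mod_cast h8
      omega
  have h6 : (0 : ℝ) < ((2 ^ (D.m * j) * k + (2 ^ n - 1) * l - k : ℤ) : ℝ) := by
    rw [← h1]
    exact mul_pos h5 (by linarith)
  have h7 : (1 : ℝ) ≤ ((2 ^ (D.m * j) * k + (2 ^ n - 1) * l - k : ℤ) : ℝ) := by
    have : (0 : ℤ) < 2 ^ (D.m * j) * k + (2 ^ n - 1) * l - k := by exact_mod_cast h6
    exact_mod_cast this
  rw [← h1] at h7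
  rw [one_div, inv_pow, ← one_div, div_le_iff₀ h2]
  nlinarith

variable {W : WS} {x : ℚ}

/-- `2 ^ (-m q) ≤ l` -/
theorem len_lower (h : W.Ok) (h0 : 0 < x) (h1 : x < 1) :
    (1 / 2 : ℝ) ^ (W.m * x.den) ≤ (W.dat x).tp - (W.dat x).tm := by
  have h2 := dat_len_lower (WS.dat_cir h h0 h1)
  rwa [WS.dat_m h h0 h1, WS.dat_x h h0 h1] at h2

/-- `l ≤ 2 ^ (-m (q - 2))` -/
theorem len_upper (h : W.Ok) (h0 : 0 < x) (h1 : x < 1) :
    (W.dat x).tp - (W.dat x).tm ≤ (1 / 2 : ℝ) ^ (W.m * (x.den - 2)) := by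
  have h2 := arc_len (WS.dat_par h h0 h1) (WS.dat_cir h h0 h1)
  rw [WS.dat_m h h0 h1, WS.dat_x h h0 h1] at h2
  rw [one_div, inv_pow, ← one_div, le_div_iff₀ (by positivity)]
  linarith

lemma len_pos (h : W.Ok) (h0 : 0 < x) (h1 : x < 1) : 0 < (W.dat x).tp - (W.dat x).tm :=
  lt_of_lt_of_le (by positivity) (len_lower h h0 h1)

lemma two_le_den_of (h0 : 0 < x) (h1 : x < 1) : 2 ≤ x.den := by
  rcases Nat.lt_or_ge x.den 2 with h | h
  · exfalso
    have h3 : x.den = 1 := by have := x.pos; omega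
    have h4 : x = x.num := by
      conv_lhs => rw [← Rat.num_div_den x]
      rw [h3]; simp
    rw [h4] at h0 h1
    have h5 : 0 < x.num := by exact_mod_cast h0
    have h6 : x.num < 1 := by exact_mod_cast h1
    omega
  · exact h

/-- the spread of the leaf angles is at most the length of the plateau -/
theorem DD_le_len (h : W.Ok) (h0 : 0 < x) (h1 : x < 1) :
    DD W.m x.den ≤ (W.dat x).tp - (W.dat x).tm := by
  refine le_trans ?_ (len_lower h h0 h1)
  have hm : 0 < W.m := (WS.dat_m h h0 h1) ▸ (WS.dat_par h h0 h1).m_pos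
  have hq := two_le_den_of h0 h1
  unfold DD
  have h2 : W.m * x.den + 1 ≤ W.m * (3 * x.den - 1) := by
    have h3 : 3 * x.den - 1 = x.den + (2 * x.den - 1) := by omega
    rw [h3, mul_add]
    have h4 : 1 ≤ W.m * (2 * x.den - 1) := Nat.mul_pos hm (by omega)
    omega
  calc 2 * (1 / 2 : ℝ) ^ (W.m * (3 * x.den - 1)) ≤ 2 * (1 / 2) ^ (W.m * x.den + 1) := by
        refine mul_le_mul_of_nonneg_left ?_ (by norm_num)
        exact pow_le_pow_of_le_one (by norm_num) (by norm_num) h2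
    _ = (1 / 2) ^ (W.m * x.den) := by rw [pow_succ]; ring

/-- the spread of the leaf angles is at most half the square of the length of the plateau -/
theorem DD_le_sq (h : W.Ok) (h0 : 0 < x) (h1 : x < 1) (h3 : 3 ≤ x.den) :
    DD W.m x.den ≤ ((W.dat x).tp - (W.dat x).tm) ^ 2 / 2 := by
  have hm : 0 < W.m := (WS.dat_m h h0 h1) ▸ (WS.dat_par h h0 h1).m_pos
  have h4 : ((1 / 2 : ℝ) ^ (W.m * x.den)) ^ 2 ≤ ((W.dat x).tp - (W.dat x).tm) ^ 2 :=
    pow_le_pow_left₀ (by positivity) (len_lower h h0 h1) 2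
  refine le_trans ?_ (div_le_div_of_nonneg_right h4 (by norm_num))
  unfold DD
  have h2 : W.m * x.den * 2 + 2 ≤ W.m * (3 * x.den - 1) := by
    have h5 : 3 * x.den - 1 = x.den * 2 + (x.den - 1) := by omega
    rw [h5, mul_add]
    have h6 : 1 * 2 ≤ W.m * (x.den - 1) := Nat.mul_le_mul hm (by omega)
    rw [← mul_assoc]
    omega
  calc 2 * (1 / 2 : ℝ) ^ (W.m * (3 * x.den - 1)) ≤ 2 * (1 / 2) ^ (W.m * x.den * 2 + 2) := by
        refine mul_le_mul_of_nonneg_left ?_ (by norm_num)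
        exact pow_le_pow_of_le_one (by norm_num) (by norm_num) h2
    _ = ((1 / 2 : ℝ) ^ (W.m * x.den)) ^ 2 / 2 := by rw [pow_add, pow_mul]; ring

end Pool.Agent.Work.MLC.Cap
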