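import Pool.Agent.Work.MLC.Cap26

set_option autoImplicit false

/-! # Theorem Cap: leaves of the 4-ary Farey tree (helper31)

The children of the Farey interval `(u, v)` are the intervals between `u`, `2u+v`, `u+v`, `u+2v`,
`v` (mediant notation); the leaves of generation `n` are the mediants of the nodes. -/

namespace Pool.Agent.Work.MLC.Cap

theorem leaf_rat (a b p q e : ℤ) (hb : 0 < b) (he : e = 1 ∨ e = -1) (h : p * b - a * q = e) :
    (((a : ℚ) / b).den : ℤ) = b := by
  have hc : Nat.Coprime a.natAbs b.natAbs := by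
    rw [Nat.Coprime, ← Int.gcd_def, ← Int.isCoprime_iff_gcd_eq_one]
    rcases he with rfl | rfl
    · exact ⟨-q, p, by linear_combination h⟩
    · exact ⟨q, -p, by linear_combination -h⟩
  exact Rat.den_div_eq_of_coprime hb hc

theorem leaf_lt (a b c d : ℤ) (hb : 0 < b) (hd : 0 < d) (h : c * b - a * d = 1) :
    (a : ℚ) / b < (c : ℚ) / d := by
  have hbQ : (0 : ℚ) < b := by exact_mod_cast hb
  have hdQ : (0 : ℚ) < d := by exact_mod_cast hd
  have hQ : (c : ℚ) * b - a * d = 1 := by exact_mod_cast h
  rw [div_lt_div_iff₀ hbQ hdQ]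
  linarith

theorem leaf_union (A B : Finset ℚ) (y : ℚ) (hA : ∀ x ∈ A, x < y) (hB : ∀ x ∈ B, y < x) :
    (A ∪ B).card = A.card + B.card := by
  apply Finset.card_union_of_disjoint
  rw [Finset.disjoint_left]
  intro x hxA hxB
  exact lt_asymm (hA x hxA) (hB x hxB)

theorem leaf_aux (n : ℕ) : ∀ a b c d : ℤ, 0 < b → 0 < d → c * b - a * d = 1 →
    ∃ X : Finset ℚ, X.card = 4 ^ n ∧
      (∀ x ∈ X, (a : ℚ) / b < x ∧ x < (c : ℚ) / d ∧ (x.den : ℤ) ≤ 3 ^ n * (b + d)) ∧
      ∀ (k : ℕ) (Z : ℝ), k ≤ n → (3 : ℝ) ^ k * ((b : ℝ) + d) ≤ Z → ∀ S ⊆ X,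
        (∀ s ∈ S, ∀ s' ∈ S, ∀ y : ℚ, s < y → y < s' → Z < y.den) → S.card ≤ 4 ^ (n - k) := by
  induction n with
  | zero =>
    intro a b c d hb hd h
    have h1 := leaf_lt a b (a + c) (b + d) hb (by linarith) (by linear_combination h)
    have h2 := leaf_lt (a + c) (b + d) c d (by linarith) hd (by linear_combination h)
    have h3 := leaf_rat (a + c) (b + d) a b (-1) (by linarith) (Or.inr rfl)
      (by linear_combination -h)
    refine ⟨{((a + c : ℤ) : ℚ) / ((b + d : ℤ) : ℚ)}, by simp, ?_, ?_⟩
    · intro x hx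
      rw [Finset.mem_singleton] at hx
      subst hx
      exact ⟨h1, h2, by rw [h3]; simp⟩
    · intro k Z _ _ S hS _
      calc S.card ≤ _ := Finset.card_le_card hS
        _ = 1 := by simp
        _ ≤ _ := Nat.one_le_pow _ _ (by norm_num)
  | succ n ih =>
    intro a b c d hb hd h
    have hbR : (0 : ℝ) < b := by exact_mod_cast hb
    have hdR : (0 : ℝ) < d := by exact_mod_cast hd
    obtain ⟨X1, c1, m1, f1⟩ := ih a b (2 * a + c) (2 * b + d) hb (by linarith)
      (by linear_combination h)
    obtain ⟨X2, c2, m2, f2⟩ := ih (2 * a + c) (2 * b + d) (a + c) (b + d) (by linarith)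
      (by linarith) (by linear_combination h)
    obtain ⟨X3, c3, m3, f3⟩ := ih (a + c) (b + d) (a + 2 * c) (b + 2 * d) (by linarith)
      (by linarith) (by linear_combination h)
    obtain ⟨X4, c4, m4, f4⟩ := ih (a + 2 * c) (b + 2 * d) c d (by linarith) hd
      (by linear_combination h)
    set y1 : ℚ := ((2 * a + c : ℤ) : ℚ) / ((2 * b + d : ℤ) : ℚ) with hy1
    set y2 : ℚ := ((a + c : ℤ) : ℚ) / ((b + d : ℤ) : ℚ) with hy2
    set y3 : ℚ := ((a + 2 * c : ℤ) : ℚ) / ((b + 2 * d : ℤ) : ℚ) with hy3
    have l0 : (a : ℚ) / b < y1 := leaf_lt _ _ _ _ hb (by linarith) (by linear_combination h)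
    have l1 : y1 < y2 := leaf_lt _ _ _ _ (by linarith) (by linarith) (by linear_combination h)
    have l2 : y2 < y3 := leaf_lt _ _ _ _ (by linarith) (by linarith) (by linear_combination h)
    have l3 : y3 < (c : ℚ) / d := leaf_lt _ _ _ _ (by linarith) hd (by linear_combination h)
    have e1 : (y1.den : ℤ) = 2 * b + d := leaf_rat _ _ a b (-1) (by linarith) (Or.inr rfl)
      (by linear_combination -h)
    have e2 : (y2.den : ℤ) = b + d := leaf_rat _ _ a b (-1) (by linarith) (Or.inr rfl)
      (by linear_combination -h)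
    have e3 : (y3.den : ℤ) = b + 2 * d := leaf_rat _ _ c d 1 (by linarith) (Or.inl rfl)
      (by linear_combination h)
    have hcard : (X1 ∪ X2 ∪ X3 ∪ X4).card = 4 ^ (n + 1) := by
      rw [leaf_union (X1 ∪ X2 ∪ X3) X4 y3, leaf_union (X1 ∪ X2) X3 y2, leaf_union X1 X2 y1,
        c1, c2, c3, c4]
      · ring
      · exact fun x hx => (m1 x hx).2.1
      · exact fun x hx => (m2 x hx).1
      · intro x hx
        rw [Finset.mem_union] at hx
        rcases hx with hx | hx
        · exact lt_trans (m1 x hx).2.1 l1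
        · exact (m2 x hx).2.1
      · exact fun x hx => (m3 x hx).1
      · intro x hx
        rw [Finset.mem_union, Finset.mem_union] at hx
        rcases hx with (hx | hx) | hx
        · exact lt_trans (m1 x hx).2.1 (lt_trans l1 l2)
        · exact lt_trans (m2 x hx).2.1 l2
        · exact (m3 x hx).2.1
      · exact fun x hx => (m4 x hx).1
    refine ⟨X1 ∪ X2 ∪ X3 ∪ X4, hcard, ?_, ?_⟩
    · intro x hx
      have hpow : (0 : ℤ) < 3 ^ n := by positivity
      rw [Finset.mem_union, Finset.mem_union, Finset.mem_union] at hx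
      rcases hx with ((hx | hx) | hx) | hx
      · obtain ⟨g1, g2, g3⟩ := m1 x hx
        refine ⟨g1, lt_trans g2 (lt_trans l1 (lt_trans l2 l3)), g3.trans ?_⟩
        rw [pow_succ]
        nlinarith
      · obtain ⟨g1, g2, g3⟩ := m2 x hx
        refine ⟨lt_trans l0 g1, lt_trans g2 (lt_trans l2 l3), g3.trans ?_⟩
        rw [pow_succ]
        nlinarith
      · obtain ⟨g1, g2, g3⟩ := m3 x hx
        refine ⟨lt_trans l0 (lt_trans l1 g1), lt_trans g2 l3, g3.trans ?_⟩
        rw [pow_succ]
        nlinarith
      · obtain ⟨g1, g2, g3⟩ := m4 x hx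
        refine ⟨lt_trans l0 (lt_trans l1 (lt_trans l2 g1)), g2, g3.trans ?_⟩
        rw [pow_succ]
        nlinarith
    · intro k Z hk hZ S hS hsep
      rcases Nat.eq_zero_or_pos k with rfl | hk0
      · exact (Finset.card_le_card hS).trans (le_of_eq hcard)
      obtain ⟨j, rfl⟩ : ∃ j, k = j + 1 := ⟨k - 1, by omega⟩
      rw [Nat.succ_sub_succ]
      have hj : j ≤ n := by omega
      have hpow : (1 : ℝ) ≤ 3 ^ j := one_le_pow₀ (by norm_num)
      have hZ' : 3 * ((b : ℝ) + d) ≤ Z := by
        refine le_trans ?_ hZ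
        rw [pow_succ]
        nlinarith
      have z1 : (y1.den : ℝ) ≤ Z := by
        have : (y1.den : ℝ) = 2 * b + d := by exact_mod_cast e1
        rw [this]
        linarith
      have z2 : (y2.den : ℝ) ≤ Z := by
        have : (y2.den : ℝ) = b + d := by exact_mod_cast e2
        rw [this]
        linarith
      have z3 : (y3.den : ℝ) ≤ Z := by
        have : (y3.den : ℝ) = b + 2 * d := by exact_mod_cast e3
        rw [this]
        linarith
      rcases S.eq_empty_or_nonempty with rfl | ⟨s, hs⟩
      · simp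
      have key : ∀ y : ℚ, (y.den : ℝ) ≤ Z → ∀ t ∈ S, ∀ t' ∈ S, t < y → y < t' → False := by
        intro y hy t ht t' ht' h1 h2
        exact absurd (hsep t ht t' ht' y h1 h2) (not_lt.mpr hy)
      have hsX := hS hs
      rw [Finset.mem_union, Finset.mem_union, Finset.mem_union] at hsX
      rcases hsX with ((hx | hx) | hx) | hx
      · refine f1 j Z hj ?_ S ?_ hsep
        · refine le_trans ?_ hZ
          push_cast
          rw [pow_succ]
          nlinarith
        · intro t ht
          have htX := hS ht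
          rw [Finset.mem_union, Finset.mem_union, Finset.mem_union] at htX
          rcases htX with ((hy | hy) | hy) | hy
          · exact hy
          · exact (key y1 z1 s hs t ht (m1 s hx).2.1 (m2 t hy).1).elim
          · exact (key y2 z2 s hs t ht (lt_trans (m1 s hx).2.1 l1) (m3 t hy).1).elim
          · exact (key y3 z3 s hs t ht (lt_trans (m1 s hx).2.1 (lt_trans l1 l2)) (m4 t hy).1).elim
      · refine f2 j Z hj ?_ S ?_ hsep
        · refine le_trans ?_ hZ
          push_cast
          rw [pow_succ]
          nlinarith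
        · intro t ht
          have htX := hS ht
          rw [Finset.mem_union, Finset.mem_union, Finset.mem_union] at htX
          rcases htX with ((hy | hy) | hy) | hy
          · exact (key y1 z1 t ht s hs (m1 t hy).2.1 (m2 s hx).1).elim
          · exact hy
          · exact (key y2 z2 s hs t ht (m2 s hx).2.1 (m3 t hy).1).elim
          · exact (key y3 z3 s hs t ht (lt_trans (m2 s hx).2.1 l2) (m4 t hy).1).elim
      · refine f3 j Z hj ?_ S ?_ hsep
        · refine le_trans ?_ hZ
          push_cast
          rw [pow_succ]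
          nlinarith
        · intro t ht
          have htX := hS ht
          rw [Finset.mem_union, Finset.mem_union, Finset.mem_union] at htX
          rcases htX with ((hy | hy) | hy) | hy
          · exact (key y2 z2 t ht s hs (lt_trans (m1 t hy).2.1 l1) (m3 s hx).1).elim
          · exact (key y2 z2 t ht s hs (m2 t hy).2.1 (m3 s hx).1).elim
          · exact hy
          · exact (key y3 z3 s hs t ht (m3 s hx).2.1 (m4 t hy).1).elim
      · refine f4 j Z hj ?_ S ?_ hsep
        · refine le_trans ?_ hZ
          push_cast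
          rw [pow_succ]
          nlinarith
        · intro t ht
          have htX := hS ht
          rw [Finset.mem_union, Finset.mem_union, Finset.mem_union] at htX
          rcases htX with ((hy | hy) | hy) | hy
          · exact (key y3 z3 t ht s hs (lt_trans (m1 t hy).2.1 (lt_trans l1 l2)) (m4 s hx).1).elim
          · exact (key y3 z3 t ht s hs (lt_trans (m2 t hy).2.1 l2) (m4 s hx).1).elim
          · exact (key y3 z3 t ht s hs (m3 t hy).2.1 (m4 s hx).1).elim
          · exact hy

theorem c_leaf : C_leaf := by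
  intro u v _ hdet n
  obtain ⟨X, h1, h2, h3⟩ := leaf_aux n u.num u.den v.num v.den (by exact_mod_cast u.den_pos)
    (by exact_mod_cast v.den_pos) hdet
  refine ⟨X, h1, ?_, ?_⟩
  · intro x hx
    obtain ⟨g1, g2, g3⟩ := h2 x hx
    refine ⟨?_, ?_, by exact_mod_cast g3⟩
    · have : u = (u.num : ℚ) / ((u.den : ℤ) : ℚ) := by
        rw [Int.cast_natCast]
        exact (Rat.num_div_den u).symm
      rw [this]
      exact g1
    · have : v = (v.num : ℚ) / ((v.den : ℤ) : ℚ) := by
        rw [Int.cast_natCast]
        exact (Rat.num_div_den v).symm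
      rw [this]
      exact g2
  · intro k Z hk hZ S hS hsep
    exact h3 k Z hk (by push_cast; exact hZ) S hS hsep

end Pool.Agent.Work.MLC.Cap
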