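import Pool.Agent.Work.MLC.Cap26

set_option autoImplicit false

/-! # Theorem Cap: the energies of rays and roofs are invariant under integer shifts (helper53) -/

namespace Pool.Agent.Work.MLC.Cap

open Filter Topology Metric Set Complex MeasureTheory
open Pool.Agent.Work.MLC.Sat Pool.Agent.Work.MLC.Cnt
open scoped ENNReal

/-- `cOf` has the period `2 π i k` -/
theorem cOf_add_int (z : ℂ) (k : ℤ) : cOf (z + (k : ℂ) * (2 * Real.pi * I)) = cOf z := by
  rw [cOf, cOf, Complex.exp_add, Complex.exp_int_mul_two_pi_mul_I, mul_one]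

/-- the derivative of `cOf` has the period `2 π i k` -/
theorem deriv_cOf_add_int (z : ℂ) (k : ℤ) :
    deriv cOf (z + (k : ℂ) * (2 * Real.pi * I)) = deriv cOf z := by
  have h : (fun w : ℂ => cOf (w + (k : ℂ) * (2 * Real.pi * I))) = cOf :=
    funext fun w => cOf_add_int w k
  rw [← deriv_comp_add_const, h]

/-- change of variables: translation by `2 π i k` -/
theorem lintegral_shift (A : Set ℂ) (f : ℂ → ℝ≥0∞) (k : ℤ)
    (hf : ∀ z : ℂ, f (z + (k : ℂ) * (2 * Real.pi * I)) = f z) :
    ∫⁻ z in (fun z : ℂ => z + (k : ℂ) * (2 * Real.pi * I)) ⁻¹' A, f z = ∫⁻ z in A, f z := by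
  have h1 := (measurePreserving_add_right (volume : Measure ℂ)
    ((k : ℂ) * (2 * Real.pi * I))).setLIntegral_comp_preimage_emb
    (measurableEmbedding_addRight _) f A
  simpa only [hf] using h1

theorem im_shift (z : ℂ) (k : ℤ) :
    (z + (k : ℂ) * (2 * Real.pi * I)).im / (2 * Real.pi) = z.im / (2 * Real.pi) + k := by
  have h1 : (z + (k : ℂ) * (2 * Real.pi * I)).im = z.im + k * (2 * Real.pi) := by
    simp
  have h2 : (2 * Real.pi : ℝ) ≠ 0 := by positivity
  rw [h1, add_div, mul_div_assoc, div_self h2, mul_one]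

theorem re_shift (z : ℂ) (k : ℤ) : (z + (k : ℂ) * (2 * Real.pi * I)).re = z.re := by
  simp

theorem rayE_shift (N e D H : ℝ) (k : ℤ) : rayE N (e + k) D H = rayE N e D H := by
  have hA : (fun z : ℂ => z + (k : ℂ) * (2 * Real.pi * I)) ⁻¹' RS (e + k) D H = RS e D H := by
    ext z
    simp only [mem_preimage, RS, mem_setOf_eq, im_shift, re_shift]
    rw [add_sub_add_right_eq_sub]
  rw [rayE, rayE, ← hA]
  refine (lintegral_shift (RS (e + k) D H)
    (fun z => ENNReal.ofReal (‖deriv cOf z‖ ^ 2 / bet N z.re)) k fun z => ?_).symm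
  simp only [deriv_cOf_add_int, re_shift]

theorem en_shift (A : Set ℂ) (k : ℤ) :
    en ((fun z : ℂ => z + (k : ℂ) * (2 * Real.pi * I)) ⁻¹' A) = en A := by
  refine lintegral_shift A (fun z => ENNReal.ofReal (‖deriv cOf z‖ ^ 2)) k fun z => ?_
  simp only [deriv_cOf_add_int]

theorem enRf_shift (s t H : ℝ) (k : ℤ) : en (Rf (s + k) (t + k) H) = en (Rf s t H) := by
  have hA : (fun z : ℂ => z + (k : ℂ) * (2 * Real.pi * I)) ⁻¹' Rf (s + k) (t + k) H =
      Rf s t H := by
    ext z
    simp only [mem_preimage, Rf, mem_setOf_eq, im_shift, re_shift]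
    constructor
    · rintro ⟨h1, h2, h3, h4⟩
      exact ⟨h1, h2, by linarith, by linarith⟩
    · rintro ⟨h1, h2, h3, h4⟩
      exact ⟨h1, h2, by linarith, by linarith⟩
  rw [← hA, en_shift]

end Pool.Agent.Work.MLC.Cap
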