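import Pool.Agent.Work.MLC.CntW54
import Pool.Agent.Work.MLC.CntR60
import Pool.Agent.Work.MLC.CntL54
import Pool.Agent.Work.MLC.PriSep70

set_option autoImplicit false

/-! # Theorem F, module G3 (helper70): roots of the same period and the same rotation number are
separated by the arc of a root of smaller period and low level -/

namespace Pool.Agent.Work.MLC.Cnt

open Filter Topology Metric Set Complex
open Pool.Agent.Work.MLC.Sat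
open Pool.Agent.Work.MLC.Pri (LeftEnd InPl)

variable {D D' : Dat}

namespace G3

/-- the word of the parent is exact -/
lemma word_of (hP : D.Par) : Word D.m D.w := ⟨hP.bits.bit, hP.bits.per, hP.wprim⟩

/-- the left end is periodic -/
lemma tm_per (hC : D.Cir) : ∃ a : ℤ, (2 : ℝ) ^ (D.m * D.x.den) * D.tm - D.tm = a := hC.per.2.1

/-- the right end is periodic -/
lemma tp_per (hC : D.Cir) : ∃ a : ℤ, (2 : ℝ) ^ (D.m * D.x.den) * D.tp - D.tp = a := by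
  obtain ⟨j, l, h⟩ := hC.orb
  obtain ⟨a, ha⟩ := tm_per hC
  refine ⟨2 ^ (D.m * j) * a + (2 ^ (D.m * D.x.den) - 1) * l, ?_⟩
  rw [h]
  push_cast
  rw [← ha]
  ring

lemma int_shift {n : ℕ} {t : ℝ} (h : ∃ a : ℤ, (2 : ℝ) ^ n * t - t = a) (k : ℤ) :
    ∃ a : ℤ, (2 : ℝ) ^ n * (t + k) - (t + k) = a := by
  obtain ⟨a, ha⟩ := h
  refine ⟨a + (2 ^ n - 1) * k, ?_⟩
  push_cast
  rw [← ha]
  ring

lemma nu_tm (hC : D.Cir) : Circ.nu D.w D.m D.tm = D.k₀ + D.x :=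
  (hC.plateau _).2 ⟨le_rfl, hC.lt.le⟩

lemma nu_tp (hC : D.Cir) : Circ.nu D.w D.m D.tp = D.k₀ + D.x :=
  (hC.plateau _).2 ⟨hC.lt.le, le_rfl⟩

/-- an end of the plateau of `D'` between the left end of the strip and the plateau of `D` -/
theorem core (hP : D.Par) (hC : D.Cir) (hP' : D'.Par) (hC' : D'.Cir) {t : ℝ}
    (ht : LeftEnd D.m D.w D.k₀ t) {k : ℤ} {e : ℝ} (he : e = D'.tm ∨ e = D'.tp) (h1 : t < e + k)
    (h2 : e + k ≤ D.tm) :
    t < D'.tm + k ∧ (D'.tp + k < D.tm ∨ (D.tm ≤ D'.tm + k ∧ D'.tp + k ≤ D.tp)) := by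
  have hmono := Circ.nu_mono D.w D.m
  have hx0 : (0 : ℝ) < D.x := by exact_mod_cast hP.x_pos
  have hx1 : (D.x : ℝ) < 1 := by exact_mod_cast hP.x_lt
  have hm := hP.m_pos
  have hn' : 0 < D'.m * D'.x.den := Nat.mul_pos hP'.m_pos D'.x.pos
  have heper : ∃ a : ℤ, (2 : ℝ) ^ (D'.m * D'.x.den) * e - e = a := by
    rcases he with h | h
    · rw [h]; exact tm_per hC'
    · rw [h]; exact tp_per hC'
  have hel : D'.tm ≤ e ∧ e ≤ D'.tp := by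
    rcases he with h | h
    · rw [h]; exact ⟨le_rfl, hC'.lt.le⟩
    · rw [h]; exact ⟨hC'.lt.le, le_rfl⟩
  obtain ⟨Q, P, hQ, -, hnu⟩ := Circ.weak_gap D.w D.m _ hn' (int_shift heper k)
  have g1 : (D.k₀ : ℝ) < Circ.nu D.w D.m (e + k) := ht.2 _ h1
  have g2 : Circ.nu D.w D.m (e + k) ≤ D.k₀ + D.x := by
    rw [← nu_tm hC]; exact hmono h2
  set ξ : ℚ := (P : ℚ) / Q - D.k₀ with hξ
  have hξr : Circ.nu D.w D.m (e + k) = D.k₀ + (ξ : ℝ) := by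
    rw [hξ, hnu]; push_cast; ring
  have hξ0 : 0 < ξ := by
    have : (0 : ℝ) < ξ := by linarith
    exact_mod_cast this
  have hξx : (ξ : ℝ) ≤ D.x := by linarith
  have hξ1 : ξ < 1 := by
    have : (ξ : ℝ) < 1 := by linarith
    exact_mod_cast this
  obtain ⟨E, hEP, hEC, -, -, -, -, hpl⟩ := exists_dat hm (word_of hP) D.k₀ hξ0 hξ1
  have hmem : E.tm ≤ e + k ∧ e + k ≤ E.tp := (hpl _).1 hξr
  have hnuE : Circ.nu D.w D.m E.tm = D.k₀ + (ξ : ℝ) := (hpl _).2 ⟨le_rfl, hEC.lt.le⟩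
  have hnuE' : Circ.nu D.w D.m E.tp = D.k₀ + (ξ : ℝ) := (hpl _).2 ⟨hEC.lt.le, le_rfl⟩
  have hξ0' : (0 : ℝ) < ξ := by exact_mod_cast hξ0
  have htE : t < E.tm := by
    by_contra hcon
    push Not at hcon
    have := hmono hcon
    rw [hnuE, ht.1] at this
    linarith
  -- the plateau of `D'` is in the plateau of `E`
  have hin : E.tm ≤ D'.tm + k ∧ D'.tp + k ≤ E.tp := by
    by_cases hrt : rt E = rt D'
    · obtain ⟨l, l1, l2⟩ := plateau_unique n2_ray hEP hEC hP' hC' hrt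
      have hkl : k = l := shift_unique hEP hEC hP' hC' hel.1 hel.2 hC'.lt.le le_rfl hmem.1 hmem.2
        (by rw [← l2]; exact hEC.lt.le) (by rw [← l2])
      rw [hkl]
      exact ⟨l1.le, l2.symm.le⟩
    · rcases laminar60 hEP hEC hP' hC' hrt k with h | h
      · exact ⟨h.1.le, h.2.le⟩
      · exfalso
        rcases he with h' | h'
        · rw [h'] at hmem
          rcases h.1 with h3 | h3 <;> linarith [hmem.1, hmem.2]
        · rw [h'] at hmem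
          rcases h.2 with h3 | h3 <;> linarith [hmem.1, hmem.2]
  refine ⟨htE.trans_le hin.1, ?_⟩
  rcases hξx.lt_or_eq with h3 | h3
  · left
    refine hin.2.trans_lt ?_
    by_contra hcon
    push Not at hcon
    have := hmono hcon
    rw [hnuE', nu_tm hC] at this
    linarith
  · right
    rw [h3] at hnuE hnuE'
    exact ⟨((hC.plateau _).1 hnuE).1.trans hin.1, hin.2.trans ((hC.plateau _).1 hnuE').2⟩

/-- the left end of the strip is left of the plateau -/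
lemma left_lt (hP : D.Par) (hC : D.Cir) {t : ℝ} (ht : LeftEnd D.m D.w D.k₀ t) : t < D.tm := by
  by_contra hcon
  push Not at hcon
  have hx0 : (0 : ℝ) < D.x := by exact_mod_cast hP.x_pos
  have := Circ.nu_mono D.w D.m hcon
  rw [nu_tm hC, ht.1] at this
  linarith

/-- the left end in the plateau of `D'`: the arc of `D'` contains the left end of the arc of `D` -/
theorem mem_of_in (hP : D.Par) (hC : D.Cir) (hP' : D'.Par) (hC' : D'.Cir) {t : ℝ}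
    (ht : LeftEnd D.m D.w D.k₀ t) {l : ℤ} (h1 : D'.tm ≤ t + l) (h2 : t + l < D'.tp) :
    InA D' D.tm := by
  have h3 := left_lt hP hC ht
  refine ⟨l, by linarith, ?_⟩
  by_contra hcon
  push Not at hcon
  obtain ⟨h4, -⟩ := core hP hC hP' hC' ht (k := -l) (Or.inr rfl) (by push_cast; linarith)
    (by push_cast; linarith)
  push_cast at h4
  linarith

/-- the left end not in the plateau of `D'` -/
theorem not_mem_of_out (hP : D.Par) (hC : D.Cir) (hP' : D'.Par) (hC' : D'.Cir) {t : ℝ}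
    (ht : LeftEnd D.m D.w D.k₀ t) (h : ∀ l : ℤ, ¬ (D'.tm ≤ t + l ∧ t + l ≤ D'.tp)) :
    ¬ InA D' D.tm := by
  rintro ⟨k, h1, h2⟩
  have h3 := left_lt hP hC ht
  have h4 : t + k < D'.tm := by
    by_contra hcon
    push Not at hcon
    exact h k ⟨hcon, by linarith⟩
  obtain ⟨-, h5⟩ := core hP hC hP' hC' ht (k := -k) (Or.inl rfl) (by push_cast; linarith)
    (by push_cast; linarith)
  push_cast at h5
  rcases h5 with h5 | h5 <;> linarith [h5]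

/-- the right end of an arc is not the left end of a strip of larger period -/
theorem no_bdry (hP' : D'.Par) (hC' : D'.Cir) {n : ℕ} {w : ℕ → ℤ} (hn : 0 < n) (hw : Word n w)
    {k : ℤ} {t : ℝ} (ht : LeftEnd n w k t) (hlt : D'.m < n) {l : ℤ} (h : t + l = D'.tp) :
    False := by
  obtain ⟨w₁, k₁, hw₁, ht₁⟩ := ht.trans hw (-l)
  have e : t - ((-l : ℤ) : ℝ) = D'.tp := by push_cast; linarith
  rw [e] at ht₁
  obtain ⟨i₀, -, hLE⟩ := exists_LE hn hw₁ ht₁.1 ht₁.2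
  have hho : HO D'.w D'.tp D'.tp := by
    intro j
    -- angles just left of `tp`
    have hmain : ∀ θ, D'.tm < θ → θ < D'.tp → Compat D'.tp θ D'.w := fun θ h1 h2 =>
      (hC'.compat_w θ h1 h2).2
    set θ₀ := (D'.tm + D'.tp) / 2 with hθ₀
    have hlt' := hC'.lt
    obtain ⟨k₂, a1, a2⟩ := hmain θ₀ (by linarith) (by linarith) j
    refine ⟨k₂, ?_, by linarith⟩
    -- the integer is the same for all `θ` in the arc
    by_contra hcon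
    push Not at hcon
    set θ₁ := max θ₀ (2 * (2 ^ j * D'.tp - k₂) - D'.w j) with hθ₁
    have b1 : D'.tm < θ₁ := lt_of_lt_of_le (by linarith) (le_max_left _ _)
    have b2 : θ₁ < D'.tp := max_lt (by linarith) (by linarith)
    obtain ⟨k₃, a3, a4⟩ := hmain θ₁ b1 b2 j
    have c1 : 2 * (2 ^ j * D'.tp - k₂) - D'.w j ≤ θ₁ := le_max_right _ _
    have c2 : θ₀ ≤ θ₁ := le_max_left _ _
    have hd1 : ((k₃ : ℤ) : ℝ) < k₂ := by linarith
    have hd2 : k₃ < k₂ := by exact_mod_cast hd1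
    have hd3 : ((k₃ : ℤ) : ℝ) ≤ k₂ - 1 := by exact_mod_cast (by omega : k₃ ≤ k₂ - 1)
    have hlt1 := hC'.lt_one
    linarith
  have heq := HO.word_eq (fun i => hw₁.1 _) hP'.bits.bit hLE.ho hho
  obtain ⟨i, hi⟩ := hLE.word.2.2 D'.m hP'.m_pos hlt
  apply hi
  rw [heq]
  exact hP'.bits.per i

/-- `InPl` and the plateau -/
lemma inPl_iff {S : ℕ} {u : ℕ → ℤ} {κ : ℤ} {y : ℚ}
    (hpl : ∀ θ : ℝ, Circ.nu u S θ = κ + y ↔ D'.tm ≤ θ ∧ θ ≤ D'.tp) (t : ℝ) :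
    InPl S u κ y t ↔ ∃ l : ℤ, D'.tm ≤ t + l ∧ t + l ≤ D'.tp :=
  ⟨fun ⟨m, hm⟩ => ⟨m, (hpl _).1 hm⟩, fun ⟨m, hm⟩ => ⟨m, (hpl _).2 hm⟩⟩

/-- labels with left ends that are not equal modulo one: a barrier of smaller period -/
theorem sepS {n : ℕ} (hn : 0 < n) {w w' : ℕ → ℤ} {k k' : ℤ} {t t' : ℝ} (hw : Word n w)
    (hw' : Word n w') (ht : LeftEnd n w k t) (ht' : LeftEnd n w' k' t')
    (hne : ¬ ∃ m : ℤ, t = t' + m) :
    ∃ (S : ℕ) (u : ℕ → ℤ) (κ : ℤ) (y : ℚ), 0 < S ∧ S < n ∧ Word S u ∧ 0 < y ∧ y < 1 ∧ y.den ≤ n ∧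
      Xor (InPl S u κ y t) (InPl S u κ y t') := by
  rcases Nat.lt_or_ge n 2 with h2 | h2
  · exfalso
    have h1 : n = 1 := by omega
    subst h1
    obtain ⟨a, ha⟩ := Pri.lep 1 w k t hn hw ht
    obtain ⟨a', ha'⟩ := Pri.lep 1 w' k' t' hn hw' ht'
    refine hne ⟨a - a', ?_⟩
    push_cast
    linarith
  · obtain ⟨w₁, k₁, hw₁, ht₁⟩ := ht.trans hw ⌊t⌋
    obtain ⟨w₁', k₁', hw₁', ht₁'⟩ := ht'.trans hw' ⌊t'⌋
    have e1 := Int.floor_le t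
    have e2 := Int.lt_floor_add_one t
    have e3 := Int.floor_le t'
    have e4 := Int.lt_floor_add_one t'
    have e5 : t ≠ ⌊t⌋ := Pri.leftEnd_not_int h2 hw ht _
    have e6 : t' ≠ ⌊t'⌋ := Pri.leftEnd_not_int h2 hw' ht' _
    have g0 : 0 < t - ⌊t⌋ := sub_pos.2 (lt_of_le_of_ne e1 e5.symm)
    have g1 : t - ⌊t⌋ < 1 := by linarith
    have g0' : 0 < t' - ⌊t'⌋ := sub_pos.2 (lt_of_le_of_ne e3 e6.symm)
    have g1' : t' - ⌊t'⌋ < 1 := by linarith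
    have hne' : t - ⌊t⌋ ≠ t' - ⌊t'⌋ := fun hcon => hne ⟨⌊t⌋ - ⌊t'⌋, by push_cast; linarith⟩
    have f : ∀ (S : ℕ) (u : ℕ → ℤ) (κ : ℤ) (y : ℚ), Xor (InPl S u κ y (t - ⌊t⌋))
        (InPl S u κ y (t' - ⌊t'⌋)) → Xor (InPl S u κ y t) (InPl S u κ y t') := by
      intro S u κ y hX
      have f1 : InPl S u κ y (t - ⌊t⌋) ↔ InPl S u κ y t := by
        rw [← Pri.InPl.add_int_iff (t := t - ⌊t⌋) ⌊t⌋, sub_add_cancel]
      have f2 : InPl S u κ y (t' - ⌊t'⌋) ↔ InPl S u κ y t' := by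
        rw [← Pri.InPl.add_int_iff (t := t' - ⌊t'⌋) ⌊t'⌋, sub_add_cancel]
      rwa [f1, f2] at hX
    by_contra hcon
    refine hne' (Pri.sep70 n w₁ w₁' k₁ k₁' _ _ h2 hw₁ hw₁' ht₁ ht₁' g0 g1 g0' g1'
      fun S hS hSn u hu hor => ?_)
    by_contra hneq
    rcases hor with h3 | h3
    · obtain ⟨κ, x, h4, h5, h6, h7, h8⟩ := Pri.sep_of_ne hn (Pri.lep n w₁ k₁ _ hn hw₁ ht₁) g0 g1
        g0' g1' h3 hneq
      exact hcon ⟨S, u, κ, x, hS, hSn, hu, h4, h5, h6, f _ _ _ _ (Or.inl ⟨h7, h8⟩)⟩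
    · obtain ⟨κ, x, h4, h5, h6, h7, h8⟩ := Pri.sep_of_ne hn (Pri.lep n w₁' k₁' _ hn hw₁' ht₁') g0'
        g1' g0 g1 h3 (Ne.symm hneq)
      exact hcon ⟨S, u, κ, x, hS, hSn, hu, h4, h5, h6, f _ _ _ _ (Or.inr ⟨h7, h8⟩)⟩

/-- left ends that are equal modulo one: the same root -/
theorem same_rt {D₁ D₂ : Dat} (hP₁ : D₁.Par) (hC₁ : D₁.Cir) (hP₂ : D₂.Par) (hC₂ : D₂.Cir)
    (hm : D₁.m = D₂.m) (hx : D₁.x = D₂.x) {t₁ t₂ : ℝ} (ht₁ : LeftEnd D₁.m D₁.w D₁.k₀ t₁)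
    (ht₂ : LeftEnd D₂.m D₂.w D₂.k₀ t₂) {l : ℤ} (h : t₁ = t₂ + l) : rt D₁ = rt D₂ := by
  have hm0 := hP₁.m_pos
  have hw₁ := word_of hP₁
  have hw₂ : Word D₁.m D₂.w := by rw [hm]; exact word_of hP₂
  rw [← hm] at ht₂
  -- the translate of the second label
  have hpar : ∀ i, Even ((D₂.w i - l) % 2 - D₂.w i - (-l)) := fun i =>
    ⟨-((D₂.w i - l) / 2), by omega⟩
  obtain ⟨K, hK⟩ := nu_parity hpar D₁.m
  set w' : ℕ → ℤ := fun i => (D₂.w i - l) % 2 with hw'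
  have hww' : Word D₁.m w' := by
    refine ⟨fun i => by show (D₂.w i - l) % 2 = 0 ∨ (D₂.w i - l) % 2 = 1; omega, fun i => ?_,
      fun d hd hdn => ?_⟩
    · simp only [hw', hw₂.2.1 i]
    · obtain ⟨i, hi⟩ := hw₂.2.2 d hd hdn
      refine ⟨i, fun h => hi ?_⟩
      have h1 := hw₂.1 i
      have h2 := hw₂.1 (i + d)
      simp only [hw'] at h
      omega
  have hKl : ∀ θ : ℝ, Circ.nu w' D₁.m (θ + l) = Circ.nu D₂.w D₁.m θ + K := by
    intro θ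
    rw [hK]
    push_cast
    ring_nf
  have ht₂' : LeftEnd D₁.m w' (D₂.k₀ + K) t₁ := by
    refine ⟨by rw [h, hKl, ht₂.1]; push_cast; ring, fun θ hθ => ?_⟩
    have h1 := ht₂.2 (θ - l) (by linarith)
    have h2 := hKl (θ - l)
    rw [sub_add_cancel] at h2
    rw [h2]
    push_cast
    linarith
  obtain ⟨i, hi, hLE⟩ := exists_LE hm0 hw₁ ht₁.1 ht₁.2
  obtain ⟨i₁, hi₁, hLE₁⟩ := exists_LE hm0 hww' ht₂'.1 ht₂'.2
  obtain ⟨q1, q2⟩ := Sep.label_unique hLE hLE₁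
  have hnu : ∀ θ : ℝ, Circ.nu D₁.w D₁.m θ = Circ.nu w' D₁.m θ := by
    intro θ
    rw [← Circ.nu_shift_word D₁.w D₁.m hw₁.2.1 θ i, ← Circ.nu_shift_word w' D₁.m hww'.2.1 θ i₁, q1]
  -- the left ends of the plateaus
  have hiff : ∀ θ : ℝ, (D₁.tm ≤ θ + l ∧ θ + l ≤ D₁.tp) ↔ (D₂.tm ≤ θ ∧ θ ≤ D₂.tp) := by
    intro θ
    rw [← hC₁.plateau, ← hC₂.plateau, hnu, hKl, ← hm, ← hx, q2]
    push_cast
    constructor <;> intro h <;> linarith
  have h1 := ((hiff D₂.tm).2 ⟨le_rfl, hC₂.lt.le⟩).1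
  have h2 := ((hiff (D₁.tm - l)).1 ⟨by simp, by simpa using hC₁.lt.le⟩).1
  have h3 : D₂.tm + l = D₁.tm := by linarith
  by_contra hne
  exact (no_common hP₁ hC₁ hP₂ hC₂ hne l).1 h3

end G3

/-- **G3**: roots of the same period and the same `x` are separated by the arc of a root of smaller
period -/
theorem g3_sep {D₁ D₂ : Dat} (hP₁ : D₁.Par) (hC₁ : D₁.Cir) (hP₂ : D₂.Par) (hC₂ : D₂.Cir)
    (hm : D₁.m = D₂.m) (hx : D₁.x = D₂.x) (hne : rt D₁ ≠ rt D₂) :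
    ∃ D' : Dat, D'.Par ∧ D'.Cir ∧ D'.m < D₁.m ∧ D'.x.den ≤ D₁.m ∧ D'.m * D'.x.den ≤ 3 * D₁.m ∧
      Xor (InA D' D₁.tm) (InA D' D₂.tm) := by
  obtain ⟨t₁, ht₁⟩ := Pri.exists_leftEnd hP₁.m_pos D₁.w D₁.k₀
  obtain ⟨t₂, ht₂⟩ := Pri.exists_leftEnd hP₂.m_pos D₂.w D₂.k₀
  have hw₁ := G3.word_of hP₁
  have hw₂ := G3.word_of hP₂
  have hmod : ¬ ∃ m : ℤ, t₁ = t₂ + m := fun ⟨l, hl⟩ =>
    hne (G3.same_rt hP₁ hC₁ hP₂ hC₂ hm hx ht₁ ht₂ hl)
  obtain ⟨S, u, κ, y, hS, hSn, hu, hy0, hy1, hyd, hX⟩ := G3.sepS hP₁.m_pos (k := D₁.k₀)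
    (k' := D₂.k₀) hw₁ (by rw [hm]; exact hw₂) ht₁ (by rw [hm]; exact ht₂) hmod
  obtain ⟨D', hP', hC', hm', hx', -, -, hpl⟩ := exists_dat hS hu κ hy0 hy1
  -- the level
  have hlev : S * y.den ≤ 3 * D₁.m := by
    have key : ∀ t : ℝ, (∃ a : ℤ, (2 : ℝ) ^ D₁.m * t - t = a) → InPl S u κ y t →
        S * y.den ≤ 3 * D₁.m := by
      rintro t ht ⟨l, hl⟩
      have h1 := perL54 hS hu hy0 hy1 hP₁.m_pos (G3.int_shift ht l) hl
      have h2 := two_le_den hy0 hy1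
      have h3 : y.den = (y.den - 2) + 2 := by omega
      calc S * y.den = (y.den - 2) * S + 2 * S := by
            conv_lhs => rw [h3]
            ring
        _ ≤ 3 * D₁.m := by omega
    rcases hX with ⟨h, -⟩ | ⟨h, -⟩
    · exact key t₁ (Pri.lep _ _ _ _ hP₁.m_pos hw₁ ht₁) h
    · refine key t₂ ?_ h
      rw [hm]
      exact Pri.lep _ _ _ _ hP₂.m_pos hw₂ ht₂
  have hin : ∀ D : Dat, D.Par → D.Cir → D.m = D₁.m → ∀ t, LeftEnd D.m D.w D.k₀ t →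
      InPl S u κ y t → InA D' D.tm := by
    intro D hP hC hmD t ht h
    obtain ⟨l, h1, h2⟩ := (G3.inPl_iff hpl t).1 h
    rcases h2.lt_or_eq with h3 | h3
    · exact G3.mem_of_in hP hC hP' hC' ht h1 h3
    · exact (G3.no_bdry hP' hC' hP.m_pos (G3.word_of hP) ht (by rw [hm', hmD]; exact hSn) h3).elim
  have hout : ∀ D : Dat, D.Par → D.Cir → ∀ t, LeftEnd D.m D.w D.k₀ t →
      ¬ InPl S u κ y t → ¬ InA D' D.tm := by
    intro D hP hC t ht h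
    exact G3.not_mem_of_out hP hC hP' hC' ht fun l hl => h ((G3.inPl_iff hpl t).2 ⟨l, hl⟩)
  refine ⟨D', hP', hC', by rw [hm']; exact hSn, by rw [hx']; exact hyd, by rw [hm', hx']; exact hlev,
    ?_⟩
  rcases hX with ⟨h1, h2⟩ | ⟨h1, h2⟩
  · exact Or.inl ⟨hin D₁ hP₁ hC₁ rfl t₁ ht₁ h1, hout D₂ hP₂ hC₂ t₂ ht₂ h2⟩
  · exact Or.inr ⟨hin D₂ hP₂ hC₂ hm.symm t₂ ht₂ h1, hout D₁ hP₁ hC₁ t₁ ht₁ h2⟩

end Pool.Agent.Work.MLC.Cnt
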