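import Pool.Agent.Work.MLC.Cap26
import Pool.Agent.Work.MLC.CntG3_70
import Pool.Agent.Work.MLC.CntR60
import Pool.Agent.Work.MLC.CntH26

set_option autoImplicit false

/-! # Theorem Cap, stage A: the finitely many small labels (helper57)

A family of roots of labels `m q ≤ N` whose arcs are different modulo `1` has at most
`(N + 1) 2 ^ N` members. -/

namespace Pool.Agent.Work.MLC.Cap

open Pool.Agent.Work.MLC.Sat Pool.Agent.Work.MLC.Cnt

/-- the left end of the arc of a root is periodic with the period of the child -/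
lemma tm_per_dat {W : WS} {x : ℚ} (hW : W.Ok) (h0 : 0 < x) (h1 : x < 1) :
    ∃ a : ℤ, (2 : ℝ) ^ (W.m * x.den) * (W.dat x).tm - (W.dat x).tm = a := by
  have h := G3.tm_per (W.dat_cir hW h0 h1)
  rwa [W.dat_m hW h0 h1, W.dat_x hW h0 h1] at h

/-- two angles with the same period whose numerators agree modulo `2 ^ n - 1` agree modulo `1` -/
lemma eq_add_int {n : ℕ} (hn : 0 < n) {s t : ℝ} {a b : ℤ} (ha : (2 : ℝ) ^ n * s - s = a)
    (hb : (2 : ℝ) ^ n * t - t = b) (hab : a % (2 ^ n - 1) = b % (2 ^ n - 1)) :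
    ∃ k : ℤ, s = t + k := by
  have hdvd : (2 ^ n - 1 : ℤ) ∣ a - b := Int.ModEq.dvd (show b % (2 ^ n - 1) = a % (2 ^ n - 1) from hab.symm)
  obtain ⟨c, hc⟩ := hdvd
  refine ⟨c, ?_⟩
  have h2 : (1 : ℝ) < 2 ^ n := one_lt_pow₀ (by norm_num) hn.ne'
  have h3 : ((2 : ℝ) ^ n - 1) ≠ 0 := by linarith
  have h4 : (a : ℝ) - b = (2 ^ n - 1) * c := by exact_mod_cast hc
  apply mul_left_cancel₀ h3
  rw [mul_add, ← h4]
  linarith

/-- **small labels**: a family of roots of labels `m q ≤ N` whose arcs are different modulo `1` has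
at most `(N + 1) 2 ^ N` members -/
theorem small_card {ι : Type*} (N : ℕ) (s : Finset ι) (W : ι → WS) (x : ι → ℚ)
    (hok : ∀ i ∈ s, (W i).Ok ∧ 0 < x i ∧ x i < 1) (hN : ∀ i ∈ s, (W i).m * (x i).den ≤ N)
    (hne : ∀ i ∈ s, ∀ j ∈ s, i ≠ j → ∀ k : ℤ,
      ((W i).dat (x i)).tm ≠ ((W j).dat (x j)).tm + k) :
    s.card ≤ (N + 1) * 2 ^ N := by
  classical
  have hper : ∀ i ∈ s, ∃ a : ℤ, (2 : ℝ) ^ ((W i).m * (x i).den) * ((W i).dat (x i)).tm -
      ((W i).dat (x i)).tm = a := fun i hi => tm_per_dat (hok i hi).1 (hok i hi).2.1 (hok i hi).2.2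
  choose! a ha using hper
  have hpos : ∀ i ∈ s, 0 < (W i).m * (x i).den := fun i hi =>
    Nat.mul_pos (hok i hi).1.wide.pos (x i).pos
  set f : ι → ℕ × ℕ := fun i => ((W i).m * (x i).den,
    (a i % (2 ^ ((W i).m * (x i).den) - 1)).toNat) with hf
  have hmod : ∀ i ∈ s, (0 : ℤ) ≤ a i % (2 ^ ((W i).m * (x i).den) - 1) ∧
      a i % (2 ^ ((W i).m * (x i).den) - 1) < 2 ^ ((W i).m * (x i).den) - 1 := by
    intro i hi
    have h1 : (1 : ℤ) < 2 ^ ((W i).m * (x i).den) := one_lt_pow₀ (by norm_num) (hpos i hi).ne'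
    exact ⟨Int.emod_nonneg _ (by omega), Int.emod_lt_of_pos _ (by omega)⟩
  have hmaps : ∀ i ∈ s, f i ∈ Finset.range (N + 1) ×ˢ Finset.range (2 ^ N) := by
    intro i hi
    rw [Finset.mem_product]
    refine ⟨Finset.mem_range.2 (Nat.lt_succ_of_le (hN i hi)), Finset.mem_range.2 ?_⟩
    have h1 := (hmod i hi).2
    have h2 : (2 : ℤ) ^ ((W i).m * (x i).den) ≤ 2 ^ N := pow_le_pow_right₀ (by norm_num) (hN i hi)
    have h3 := (hmod i hi).1
    show (a i % (2 ^ ((W i).m * (x i).den) - 1)).toNat < 2 ^ N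
    zify
    rw [Int.toNat_of_nonneg h3]
    omega
  have hinj : Set.InjOn f s := by
    intro i hi j hj hij
    by_contra hne'
    have h1 : (W i).m * (x i).den = (W j).m * (x j).den := congrArg Prod.fst hij
    have h2 : (a i % (2 ^ ((W i).m * (x i).den) - 1)).toNat =
      (a j % (2 ^ ((W j).m * (x j).den) - 1)).toNat := congrArg Prod.snd hij
    have h3 : a i % (2 ^ ((W i).m * (x i).den) - 1) = a j % (2 ^ ((W j).m * (x j).den) - 1) := by
      rw [← Int.toNat_of_nonneg (hmod i hi).1, h2, Int.toNat_of_nonneg (hmod j hj).1]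
    rw [← h1] at h3
    have h4 := ha j hj
    rw [← h1] at h4
    obtain ⟨k, hk⟩ := eq_add_int (hpos i hi) (ha i hi) h4 h3
    exact hne i hi j hj hne' k hk
  calc s.card ≤ (Finset.range (N + 1) ×ˢ Finset.range (2 ^ N)).card :=
        Finset.card_le_card_of_injOn f hmaps hinj
    _ = (N + 1) * 2 ^ N := by rw [Finset.card_product, Finset.card_range, Finset.card_range]

/-- a rough bound for the limbs -/
theorem diam_Lm_le (D : Dat) : Metric.diam (Lm D) ≤ 204 := by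
  have h : Lm D ⊆ Metric.closedBall (0 : ℂ) 102 := by
    intro c hc
    rw [mem_closedBall_zero_iff]
    have h1 : ‖c‖ ≤ 2 * Real.exp 0 + 100 := norm_le_of_G_le (mem_MM_iff_le.1 hc.1)
    rw [Real.exp_zero] at h1
    linarith
  calc Metric.diam (Lm D) ≤ Metric.diam (Metric.closedBall (0 : ℂ) 102) :=
        Metric.diam_mono h Metric.isBounded_closedBall
    _ ≤ 2 * 102 := Metric.diam_closedBall (by norm_num)
    _ = 204 := by norm_num

/-- the sum over the small labels -/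
theorem small_sum {ι : Type*} (N : ℕ) (s : Finset ι) (W : ι → WS) (x : ι → ℚ)
    (hok : ∀ i ∈ s, (W i).Ok ∧ 0 < x i ∧ x i < 1) (hN : ∀ i ∈ s, (W i).m * (x i).den ≤ N)
    (hne : ∀ i ∈ s, ∀ j ∈ s, i ≠ j → ∀ k : ℤ,
      ((W i).dat (x i)).tm ≠ ((W j).dat (x j)).tm + k) :
    ∑ i ∈ s, Metric.diam (Lm ((W i).dat (x i))) ^ 2 / ((W i).m * (x i).den : ℝ) ≤
      204 ^ 2 * ((N + 1) * 2 ^ N) := by
  have hcard : (s.card : ℝ) ≤ (N + 1) * 2 ^ N := by
    have := small_card N s W x hok hN hne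
    exact_mod_cast this
  have hterm : ∀ i ∈ s, Metric.diam (Lm ((W i).dat (x i))) ^ 2 / ((W i).m * (x i).den : ℝ) ≤
      204 ^ 2 := by
    intro i hi
    have h1 : 1 ≤ (W i).m * (x i).den := Nat.mul_pos (hok i hi).1.wide.pos (x i).pos
    have h2 : (1 : ℝ) ≤ (W i).m * (x i).den := by exact_mod_cast h1
    have h3 := diam_Lm_le ((W i).dat (x i))
    have h4 : (0 : ℝ) ≤ Metric.diam (Lm ((W i).dat (x i))) := Metric.diam_nonneg
    calc Metric.diam (Lm ((W i).dat (x i))) ^ 2 / ((W i).m * (x i).den : ℝ)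
        ≤ Metric.diam (Lm ((W i).dat (x i))) ^ 2 / 1 := by gcongr
      _ = Metric.diam (Lm ((W i).dat (x i))) ^ 2 := div_one _
      _ ≤ 204 ^ 2 := by gcongr
  calc ∑ i ∈ s, Metric.diam (Lm ((W i).dat (x i))) ^ 2 / ((W i).m * (x i).den : ℝ)
      ≤ ∑ _i ∈ s, (204 : ℝ) ^ 2 := Finset.sum_le_sum hterm
    _ = 204 ^ 2 * s.card := by rw [Finset.sum_const, nsmul_eq_mul, mul_comm]
    _ ≤ 204 ^ 2 * ((N + 1) * 2 ^ N) := by gcongr

/-- roots with the same angle are equal -/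
theorem rt_eq_of_tm {D D' : Dat} (hP : D.Par) (hC : D.Cir) (hP' : D'.Par) (hC' : D'.Cir) {k : ℤ}
    (h : D.tm = D'.tm + k) : rt D = rt D' := by
  have h1 := ray_tm hP hC
  have h2 := ray_tm hP' hC'
  refine tendsto_nhds_unique h1 (h2.congr fun g => ?_)
  rw [← CH.cOf_shift g D'.tm k, ← h]

/-- **small labels**, for different roots -/
theorem small_card_rt {ι : Type*} (N : ℕ) (F : Finset ι) (W : ι → WS) (x : ι → ℚ)
    (hok : ∀ i ∈ F, (W i).Ok ∧ 0 < x i ∧ x i < 1) (hN : ∀ i ∈ F, (W i).m * (x i).den ≤ N)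
    (hne : ∀ i ∈ F, ∀ j ∈ F, i ≠ j → rt ((W i).dat (x i)) ≠ rt ((W j).dat (x j))) :
    F.card ≤ (N + 1) * 2 ^ N :=
  small_card N F W x hok hN fun i hi j hj hij _ hk => hne i hi j hj hij
    (rt_eq_of_tm ((W i).dat_par (hok i hi).1 (hok i hi).2.1 (hok i hi).2.2)
      ((W i).dat_cir (hok i hi).1 (hok i hi).2.1 (hok i hi).2.2)
      ((W j).dat_par (hok j hj).1 (hok j hj).2.1 (hok j hj).2.2)
      ((W j).dat_cir (hok j hj).1 (hok j hj).2.1 (hok j hj).2.2) hk)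

/-- **small labels**, existence form -/
theorem small_card_ex (N : ℕ) : ∃ K : ℕ, ∀ (ι : Type) (F : Finset ι) (W : ι → WS) (x : ι → ℚ),
    (∀ i ∈ F, (W i).Ok ∧ 0 < x i ∧ x i < 1 ∧ 3 ≤ (x i).den ∧ (W i).m * (x i).den ≤ N) →
    (∀ i ∈ F, ∀ j ∈ F, i ≠ j → rt ((W i).dat (x i)) ≠ rt ((W j).dat (x j))) → F.card ≤ K :=
  ⟨(N + 1) * 2 ^ N, fun _ F W x h hne => small_card_rt N F W x
    (fun i hi => ⟨(h i hi).1, (h i hi).2.1, (h i hi).2.2.1⟩) (fun i hi => (h i hi).2.2.2.2) hne⟩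

/-- the sum over the small labels, for different roots -/
theorem small_sum_rt {ι : Type*} (N : ℕ) (F : Finset ι) (W : ι → WS) (x : ι → ℚ)
    (hok : ∀ i ∈ F, (W i).Ok ∧ 0 < x i ∧ x i < 1) (hN : ∀ i ∈ F, (W i).m * (x i).den ≤ N)
    (hne : ∀ i ∈ F, ∀ j ∈ F, i ≠ j → rt ((W i).dat (x i)) ≠ rt ((W j).dat (x j))) :
    ∑ i ∈ F, Metric.diam (Lm ((W i).dat (x i))) ^ 2 / ((W i).m * (x i).den : ℝ) ≤
      204 ^ 2 * ((N + 1) * 2 ^ N) :=
  small_sum N F W x hok hN fun i hi j hj hij _ hk => hne i hi j hj hij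
    (rt_eq_of_tm ((W i).dat_par (hok i hi).1 (hok i hi).2.1 (hok i hi).2.2)
      ((W i).dat_cir (hok i hi).1 (hok i hi).2.1 (hok i hi).2.2)
      ((W j).dat_par (hok j hj).1 (hok j hj).2.1 (hok j hj).2.2)
      ((W j).dat_cir (hok j hj).1 (hok j hj).2.1 (hok j hj).2.2) hk)

end Pool.Agent.Work.MLC.Cap
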