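import Pool.Agent.Work.MLC.Cap26
import Pool.Agent.Work.MLC.CntFin6
import Pool.Agent.Work.MLC.CntA54
import Pool.Agent.Work.MLC.CntL54

set_option autoImplicit false

/-! # Theorem Cap, stage A: from the sum over all limbs to the exceptional set (helper6)

`C_limbsum C`: the sum over all roots of type `(m, p / q)`, `q ≥ 3`, of `diam (limb) ^ 2 / (m q)` is
at most `C`. -/

namespace Pool.Agent.Work.MLC.Cap

open Filter Topology Metric Set Complex MeasureTheory
open Pool.Agent.Work.MLC.Sat Pool.Agent.Work.MLC.Cnt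
open scoped ENNReal

/-- LS: the sum over all limbs with denominators at least `3` -/
def C_limbsum (C : ℝ) : Prop := ∀ (ι : Type) (F : Finset ι) (W : ι → WS) (x : ι → ℚ),
  (∀ i ∈ F, (W i).Ok ∧ 0 < x i ∧ x i < 1 ∧ 3 ≤ (x i).den) →
  (∀ i ∈ F, ∀ j ∈ F, i ≠ j → rt ((W i).dat (x i)) ≠ rt ((W j).dat (x j))) →
  ∑ i ∈ F, diam (Lm ((W i).dat (x i))) ^ 2 / ((W i).m * (x i).den) ≤ C

/-! ### pure lemmas -/

/-- the tail of a convergent sum -/
lemma pure_tail {α : Type} {d w : α → ℝ} (hw : ∀ a, 0 ≤ w a)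
    (hs : Summable fun a => d a ^ 2 * w a) {ε : ℝ≥0∞} (hε : ε ≠ 0) :
    ∃ B : Set α, ∑' a : B, ENNReal.ofReal (w a) < ε ∧ ∀ δ > 0, {a | a ∉ B ∧ δ ≤ d a}.Finite := by
  classical
  obtain ⟨ε', hε', hsum⟩ := ENNReal.exists_pos_sum_of_countable' hε ℕ
  set S : ℕ → Set α := fun j => {a | 1 / ((j : ℝ) + 1) ≤ d a} with hS
  set f : ℕ → α → ℝ≥0∞ := fun j => (S j).indicator fun a => ENNReal.ofReal (w a) with hf
  have hf1 : ∀ j, ∑' a, f j a ≠ ⊤ := by
    intro j
    have h1 : ∀ a, f j a ≤ ENNReal.ofReal (((j : ℝ) + 1) ^ 2 * (d a ^ 2 * w a)) := by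
      intro a
      rw [hf]
      by_cases ha : a ∈ S j
      · simp only [indicator_of_mem ha]
        apply ENNReal.ofReal_le_ofReal
        have h2 : 1 / ((j : ℝ) + 1) ≤ d a := ha
        have h3 : (0 : ℝ) < (j : ℝ) + 1 := by positivity
        have h4 : 1 ≤ ((j : ℝ) + 1) * d a := by
          rw [div_le_iff₀ h3] at h2; linarith
        have h5 : 1 ≤ (((j : ℝ) + 1) * d a) ^ 2 := one_le_pow₀ h4
        have h6 := mul_le_mul_of_nonneg_right h5 (hw a)
        nlinarith
      · simp only [indicator_of_notMem ha]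
        exact bot_le
    have h2 : Summable fun a => ((j : ℝ) + 1) ^ 2 * (d a ^ 2 * w a) := hs.mul_left _
    exact ne_top_of_le_ne_top h2.tsum_ofReal_ne_top (ENNReal.tsum_le_tsum h1)
  have hF : ∀ j, ∃ F : Finset α, ∑' a : {a // a ∉ F}, f j a < ε' j := by
    intro j
    have h1 := ENNReal.tendsto_tsum_compl_atTop_zero (hf1 j)
    exact (h1.eventually (gt_mem_nhds (hε' j))).exists
  choose F hF using hF
  refine ⟨⋃ j, {a | a ∈ S j ∧ a ∉ F j}, ?_, ?_⟩
  · refine lt_of_le_of_lt ?_ hsum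
    refine (ENNReal.tsum_iUnion_le_tsum (fun a => ENNReal.ofReal (w a)) _).trans ?_
    refine ENNReal.tsum_le_tsum fun j => ?_
    refine le_trans ?_ (hF j).le
    have h1 : ∑' a : {a | a ∈ S j ∧ a ∉ F j}, ENNReal.ofReal (w a) =
        ∑' a : {a | a ∈ S j ∧ a ∉ F j}, f j a := by
      refine tsum_congr fun a => ?_
      rw [hf]
      simp only [indicator_of_mem a.2.1]
    have h2 : ∑' a : {a | a ∈ S j ∧ a ∉ F j}, ENNReal.ofReal (w a) ≤
        ∑' a : {a | a ∉ F j}, f j a := by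
      rw [h1]
      exact ENNReal.tsum_mono_subtype (f j) fun a ha => ha.2
    exact h2
  · intro δ hδ
    obtain ⟨j, hj⟩ := exists_nat_one_div_lt hδ
    refine (F j).finite_toSet.subset ?_
    rintro a ⟨h1, h2⟩
    by_contra h3
    exact h1 (mem_iUnion.2 ⟨j, hj.le.trans h2, h3⟩)

/-- a countable infinite family of intervals as a sequence -/
lemma to_seq {β : Type} [Countable β] [Infinite β] (a l : β → ℝ) (hl : ∀ b, 0 < l b ∧ l b < 1)
    {ε : ℝ} (hs : ∑' b, ENNReal.ofReal (1 / Real.log (1 / l b)) < ENNReal.ofReal ε) :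
    ∃ a' l' : ℕ → ℝ, (∀ i, 0 < l' i ∧ l' i < 1) ∧
      Summable (fun i => 1 / Real.log (1 / l' i)) ∧ ∑' i, 1 / Real.log (1 / l' i) < ε ∧
      ∀ b, ∃ i, a' i = a b ∧ l' i = l b := by
  obtain ⟨h⟩ := nonempty_denumerable β
  have e : β ≃ ℕ := h.eqv
  have hnn : ∀ b, 0 ≤ 1 / Real.log (1 / l b) := fun b => by
    have h1 : 1 ≤ 1 / l b := by rw [le_div_iff₀ (hl b).1]; linarith [(hl b).2]
    have := Real.log_nonneg h1
    positivity
  have hsum : Summable fun b => 1 / Real.log (1 / l b) := by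
    have h1 : Summable fun b => (ENNReal.ofReal (1 / Real.log (1 / l b))).toReal :=
      ENNReal.summable_toReal (ne_top_of_lt hs)
    refine h1.congr fun b => ?_
    rw [ENNReal.toReal_ofReal (hnn b)]
  have h1 : ∑' b, 1 / Real.log (1 / l b) < ε := by
    rw [← ENNReal.ofReal_tsum_of_nonneg hnn hsum] at hs
    exact (ENNReal.ofReal_lt_ofReal_iff_of_nonneg (tsum_nonneg hnn)).1 hs
  refine ⟨fun i => a (e.symm i), fun i => l (e.symm i), fun i => hl _, ?_, ?_, fun b =>
    ⟨e b, by simp, by simp⟩⟩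
  · exact (e.symm.summable_iff (f := fun b => 1 / Real.log (1 / l b))).2 hsum
  · rw [e.symm.tsum_eq (fun b => 1 / Real.log (1 / l b))]
    exact h1

/-- tiny intervals -/
lemma exists_tiny {ε : ℝ≥0∞} (hε : ε ≠ 0) : ∃ l : ℕ → ℝ, (∀ i, 0 < l i ∧ l i < 1) ∧
    ∑' i, ENNReal.ofReal (1 / Real.log (1 / l i)) < ε := by
  obtain ⟨ε', hε', hsum⟩ := ENNReal.exists_pos_sum_of_countable hε ℕ
  refine ⟨fun i => Real.exp (-(1 / (ε' i : ℝ))), fun i => ⟨Real.exp_pos _, ?_⟩, ?_⟩
  · rw [Real.exp_lt_one_iff]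
    have : (0 : ℝ) < ε' i := by exact_mod_cast hε' i
    have := one_div_pos.2 this
    linarith
  · refine lt_of_eq_of_lt (tsum_congr fun i => ?_) hsum
    have h1 : 1 / Real.log (1 / Real.exp (-(1 / (ε' i : ℝ)))) = ε' i := by
      rw [one_div (Real.exp _), ← Real.exp_neg, Real.log_exp, neg_neg, one_div_one_div]
    show ENNReal.ofReal (1 / Real.log (1 / Real.exp (-(1 / (ε' i : ℝ))))) = _
    rw [h1]
    exact ENNReal.ofReal_coe_nnreal

/-! ### the roots -/

/-- the data of a root with denominator at least `3` -/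
structure RD where
  /-- the component -/
  W : WS
  /-- the rotation number -/
  x : ℚ
  ok : W.Ok
  x0 : 0 < x
  x1 : x < 1
  q3 : 3 ≤ x.den

namespace RD

variable (R : RD)

/-- the data -/
noncomputable def D : Dat := R.W.dat R.x

lemma par : R.D.Par := WS.dat_par R.ok R.x0 R.x1

lemma cir : R.D.Cir := WS.dat_cir R.ok R.x0 R.x1

lemma D_m : R.D.m = R.W.m := WS.dat_m R.ok R.x0 R.x1

lemma D_x : R.D.x = R.x := WS.dat_x R.ok R.x0 R.x1

/-- the weight -/
noncomputable def wt : ℝ := 1 / (R.W.m * (R.x.den : ℝ))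

/-- the length of the arc -/
noncomputable def len : ℝ := R.D.tp - R.D.tm

lemma m_pos : 0 < R.W.m := by rw [← R.D_m]; exact R.par.m_pos

lemma wt_pos : 0 < R.wt := by
  have h1 : (0 : ℝ) < R.W.m := by exact_mod_cast R.m_pos
  have h2 : (0 : ℝ) < R.x.den := by exact_mod_cast R.x.pos
  unfold wt; positivity

lemma len_pos : 0 < R.len := sub_pos.2 R.cir.lt

lemma log_len : Real.log 2 / 3 * (1 / R.wt) ≤ Real.log (1 / R.len) := by
  have h1 := arc_len R.par R.cir
  rw [R.D_m, R.D_x] at h1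
  have h2 := R.len_pos
  have h3 : (2 : ℝ) ^ (R.W.m * (R.x.den - 2)) ≤ 1 / R.len := by
    rw [le_div_iff₀ h2]; exact h1
  have h4 := Real.log_le_log (by positivity) h3
  rw [Real.log_pow] at h4
  refine le_trans ?_ h4
  have h5 : 0 < Real.log 2 := Real.log_pos (by norm_num)
  have h6 : 1 / R.wt = R.W.m * (R.x.den : ℝ) := by rw [wt, one_div_one_div]
  rw [h6]
  have h7 : R.W.m * R.x.den ≤ 3 * (R.W.m * (R.x.den - 2)) := by
    have := R.q3
    calc R.W.m * R.x.den ≤ R.W.m * (3 * (R.x.den - 2)) := Nat.mul_le_mul_left _ (by omega)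
      _ = _ := by ring
  have h8 : (R.W.m : ℝ) * R.x.den ≤ 3 * ((R.W.m * (R.x.den - 2) : ℕ) : ℝ) := by exact_mod_cast h7
  nlinarith

lemma len_lt : R.len < 1 := by
  have h1 := R.log_len
  have h2 := R.wt_pos
  have h3 : 0 < Real.log 2 := Real.log_pos (by norm_num)
  have h4 : 0 < Real.log (1 / R.len) := lt_of_lt_of_le (by positivity) h1
  by_contra hcon
  push Not at hcon
  have h5 : Real.log (1 / R.len) ≤ 0 := Real.log_nonpos (by have := R.len_pos; positivity)
    ((div_le_one R.len_pos).2 hcon)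
  linarith

lemma gauge_le : 1 / Real.log (1 / R.len) ≤ 5 * R.wt := by
  have h1 := R.log_len
  have h2 := R.wt_pos
  have h3 : 0.6931471803 < Real.log 2 := Real.log_two_gt_d9
  have h4 : 0 < Real.log 2 / 3 * (1 / R.wt) := by positivity
  refine (one_div_le_one_div_of_le h4 h1).trans ?_
  rw [one_div, mul_inv, one_div, inv_inv, inv_div]
  refine mul_le_mul_of_nonneg_right ?_ h2.le
  rw [div_le_iff₀ (by linarith)]
  linarith

end RD

/-- the roots with denominators at least `3` -/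
def RT : Set ℂ := range fun R : RD => rt R.D

/-- the data of a root -/
noncomputable def rd (r : RT) : RD := r.2.choose

lemma rt_rd (r : RT) : rt (rd r).D = r := r.2.choose_spec

/-- the diameter of the limb -/
noncomputable def dm (r : RT) : ℝ := diam (Lm (rd r).D)

lemma summable_dm {C : ℝ} (h : C_limbsum C) : Summable fun r : RT => dm r ^ 2 * (rd r).wt := by
  refine summable_of_sum_le (c := C) (fun r => mul_nonneg (sq_nonneg _) (rd r).wt_pos.le) fun F => ?_
  have h1 := h RT F (fun r => (rd r).W) (fun r => (rd r).x)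
    (fun r _ => ⟨(rd r).ok, (rd r).x0, (rd r).x1, (rd r).q3⟩) (fun r _ r' _ hne he => hne ?_)
  · refine le_trans (le_of_eq (Finset.sum_congr rfl fun r _ => ?_)) h1
    rw [dm, RD.wt, mul_one_div]
    rfl
  · have h2 : rt (rd r).D = rt (rd r').D := he
    rw [rt_rd, rt_rd] at h2
    exact Subtype.ext h2

/-- the roots are countable -/
lemma countable_RT : RT.Countable := by
  have h1 : ∀ r : RT, ∃ (N : ℕ) (k : ℤ), (rd r).D.tm = k / (2 ^ N - 1) := by
    intro r
    obtain ⟨h1, ⟨k, hk⟩, -⟩ := (rd r).cir.per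
    refine ⟨(rd r).D.m * (rd r).D.x.den, k, ?_⟩
    have h2 : (1 : ℝ) < 2 ^ ((rd r).D.m * (rd r).D.x.den) :=
      one_lt_pow₀ (by norm_num) (Nat.mul_pos (rd r).par.m_pos h1).ne'
    rw [eq_div_iff (by linarith)]
    linarith
  choose N k hNk using h1
  have h2 : Function.Injective fun r : RT => (N r, k r) := by
    intro r r' h
    have h3 := (Prod.ext_iff.1 h).1
    have h4 := (Prod.ext_iff.1 h).2
    simp only at h3 h4
    have h5 : (rd r).D.tm = (rd r').D.tm := by rw [hNk, hNk, h3, h4]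
    by_contra hne
    have h6 : rt (rd r).D ≠ rt (rd r').D := by
      rw [rt_rd, rt_rd]
      exact fun h => hne (Subtype.ext h)
    have h7 := laminar n2_ray n5_open n5_closed (rd r).par (rd r).cir (rd r').par (rd r').cir h6 0
    have h8 := (rd r).cir.lt
    have h9 := (rd r').cir.lt
    rw [Int.cast_zero, add_zero, add_zero, h5] at h7
    rcases h7 with ⟨h7, -⟩ | ⟨h7, -⟩ | h7 | h7
    · exact lt_irrefl _ h7
    · exact lt_irrefl _ h7
    · linarith
    · linarith
  exact (Function.Injective.countable h2)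

end Pool.Agent.Work.MLC.Cap
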