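import Pool.Agent.Work.MLC.Cap26

set_option autoImplicit false

/-! # Theorem Cap: Farey neighbours with denominators in `(2 q, 3 q]` (helper31) -/

namespace Pool.Agent.Work.MLC.Cap

theorem nbr_aux (p q e : ℤ) (hq : 0 < q) (h : IsCoprime p q) :
    ∃ a b : ℤ, 2 * q < b ∧ b ≤ 3 * q ∧ p * b - a * q = e := by
  obtain ⟨s, t, hst⟩ := h
  refine ⟨p * ((3 * q - e * s) / q) - e * t, e * s + q * ((3 * q - e * s) / q), ?_, ?_, ?_⟩
  · have h1 := Int.emod_add_mul_ediv (3 * q - e * s) q
    have h2 := Int.emod_lt_of_pos (3 * q - e * s) hq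
    linarith
  · have h1 := Int.emod_add_mul_ediv (3 * q - e * s) q
    have h2 := Int.emod_nonneg (3 * q - e * s) hq.ne'
    linarith
  · linear_combination e * hst

theorem nbr_rat (a b p q e : ℤ) (hb : 0 < b) (he : e = 1 ∨ e = -1) (h : p * b - a * q = e) :
    ((a : ℚ) / b).num = a ∧ (((a : ℚ) / b).den : ℤ) = b := by
  have hc : Nat.Coprime a.natAbs b.natAbs := by
    rw [Nat.Coprime, ← Int.gcd_def, ← Int.isCoprime_iff_gcd_eq_one]
    rcases he with rfl | rfl
    · exact ⟨-q, p, by linear_combination h⟩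
    · exact ⟨q, -p, by linear_combination -h⟩
  exact ⟨Rat.num_div_eq_of_coprime hb hc, Rat.den_div_eq_of_coprime hb hc⟩

theorem c_nbr : C_nbr := by
  intro x hx0 hx1
  have hq : (0 : ℤ) < x.den := by exact_mod_cast x.den_pos
  have hp : 0 < x.num := Rat.num_pos.mpr hx0
  have hpq : x.num < x.den := by
    have := hx1
    rw [Rat.lt_iff] at this
    simpa using this
  have hcop : IsCoprime x.num (x.den : ℤ) := by
    rw [Int.isCoprime_iff_gcd_eq_one]
    exact x.reduced
  obtain ⟨a, b, hb1, hb2, hab⟩ := nbr_aux x.num x.den 1 hq hcop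
  obtain ⟨c, d, hd1, hd2, hcd⟩ := nbr_aux x.num x.den (-1) hq hcop
  have hb0 : 0 < b := by linarith
  have hd0 : 0 < d := by linarith
  obtain ⟨hun, hud⟩ := nbr_rat a b x.num x.den 1 hb0 (Or.inl rfl) hab
  obtain ⟨hvn, hvd⟩ := nbr_rat c d x.num x.den (-1) hd0 (Or.inr rfl) hcd
  have hxe : x = (x.num : ℚ) / x.den := (Rat.num_div_den x).symm
  have hqQ : (0 : ℚ) < x.den := by exact_mod_cast hq
  have hbQ : (0 : ℚ) < b := by exact_mod_cast hb0
  have hdQ : (0 : ℚ) < d := by exact_mod_cast hd0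
  have habQ : (x.num : ℚ) * b - a * x.den = 1 := by exact_mod_cast hab
  have hcdQ : (x.num : ℚ) * d - c * x.den = -1 := by exact_mod_cast hcd
  have h5b : (3 : ℚ) ≤ b := by
    have : (3 : ℤ) ≤ b := by linarith
    exact_mod_cast this
  have h5d : (3 : ℚ) ≤ d := by
    have : (3 : ℤ) ≤ d := by linarith
    exact_mod_cast this
  have hp1 : (1 : ℚ) ≤ x.num := by exact_mod_cast hp
  have hpq1 : (x.num : ℚ) + 1 ≤ x.den := by exact_mod_cast hpq
  have hu : (a : ℚ) / b = (x.num - 1 / b) / x.den := by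
    field_simp
    linarith
  have hv : (c : ℚ) / d = (x.num + 1 / d) / x.den := by
    field_simp
    linarith
  have h3b : 1 / (b : ℚ) ≤ 1 / 3 := one_div_le_one_div_of_le (by norm_num) h5b
  have h3d : 1 / (d : ℚ) ≤ 1 / 3 := one_div_le_one_div_of_le (by norm_num) h5d
  refine ⟨(a : ℚ) / b, (c : ℚ) / d, ?_, ?_, ?_, ?_, ?_, ?_, ?_, ?_⟩
  · rw [hu]
    conv_rhs => rw [hxe]
    gcongr
    have : 0 < 1 / (b : ℚ) := by positivity
    linarith
  · rw [hv]
    conv_lhs => rw [hxe]
    gcongr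
    have : 0 < 1 / (d : ℚ) := by positivity
    linarith
  · rw [hu, div_le_div_iff₀ (by positivity) hqQ]
    nlinarith
  · rw [hv, div_le_iff₀ hqQ]
    have : (1 - 2 / (3 * (x.den : ℚ))) * x.den = x.den - 2 / 3 := by
      field_simp
    rw [this]
    linarith
  · rw [hun, hud]
    linarith
  · rw [hvn, hvd]
    linarith
  · constructor
    · have : (2 : ℤ) * x.den < (((a : ℚ) / b).den : ℤ) := by rw [hud]; exact hb1
      exact_mod_cast this
    · have : (((a : ℚ) / b).den : ℤ) ≤ 3 * x.den := by rw [hud]; exact hb2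
      exact_mod_cast this
  · constructor
    · have : (2 : ℤ) * x.den < (((c : ℚ) / d).den : ℤ) := by rw [hvd]; exact hd1
      exact_mod_cast this
    · have : (((c : ℚ) / d).den : ℤ) ≤ 3 * x.den := by rw [hvd]; exact hd2
      exact_mod_cast this

end Pool.Agent.Work.MLC.Cap
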