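import Pool.Agent.Work.MLC.Cnt0

set_option autoImplicit false

/-! # N1b: disjoint arcs use boundedly overlapping areas -/

namespace Pool.Agent.Work.MLC.Cnt

open Filter Topology Metric Set Complex MeasureTheory

/-- images of open sets are open -/
lemma isOpen_image_cOf {U : Set ℂ} (hU : IsOpen U) (hU0 : U ⊆ {L | 0 < L.re}) :
    IsOpen (cOf '' U) := by
  have hopen : IsOpen {L : ℂ | 0 < L.re} := isOpen_lt continuous_const Complex.continuous_re
  rw [isOpen_iff_mem_nhds]
  rintro _ ⟨L, hL, rfl⟩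
  have hL0 : 0 < L.re := hU0 hL
  have h1 : AnalyticAt ℂ cOf L := differentiableOn_cOf.analyticAt (hopen.mem_nhds hL0)
  have h2 : HasStrictDerivAt cOf (deriv cOf L) L := h1.hasStrictDerivAt
  have h3 := h2.map_nhds_eq (deriv_cOf_ne_zero hL0)
  rw [← h3]
  exact image_mem_map (hU.mem_nhds hL)

lemma isOpen_Box (s t : ℝ) : IsOpen (Box s t) := by
  have hre : Continuous fun z : ℂ => z.re := Complex.continuous_re
  have him : Continuous fun z : ℂ => z.im := Complex.continuous_im
  refine (isOpen_lt continuous_const hre).inter ((isOpen_lt hre continuous_const).inter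
    ((isOpen_lt (by fun_prop) him).inter ((isOpen_lt him (by fun_prop)).inter ?_)))
  exact (isOpen_lt him (by fun_prop)).union ((isOpen_lt (by fun_prop) him).union
    (isOpen_lt continuous_const hre))

lemma Box_sub (s t : ℝ) : Box s t ⊆ {L | 0 < L.re} := fun _ h => h.1

lemma exp_aux : Real.exp (2 * 2 + 3 / 16) < 90 := by
  have h1 := Real.add_one_le_exp (-(3 / 16 : ℝ))
  have h2 : Real.exp (3 / 16 : ℝ) * Real.exp (-(3 / 16 : ℝ)) = 1 := by
    rw [← Real.exp_add]; simp
  have h3 : Real.exp (3 / 16 : ℝ) ≤ 16 / 13 := by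
    have h4 := Real.exp_pos (3 / 16 : ℝ)
    nlinarith
  have h5 : Real.exp (2 * 2 : ℝ) = Real.exp 1 ^ 4 := by
    rw [← Real.exp_nat_mul]; norm_num
  have h6 := Real.exp_one_lt_d9
  have h7 : Real.exp 1 ^ 4 ≤ (2.7182818286 : ℝ) ^ 4 :=
    pow_le_pow_left₀ (Real.exp_pos 1).le h6.le 4
  rw [Real.exp_add, h5]
  calc Real.exp 1 ^ 4 * Real.exp (3 / 16) ≤ (2.7182818286 : ℝ) ^ 4 * (16 / 13) :=
        mul_le_mul h7 h3 (Real.exp_pos _).le (by positivity)
    _ < 90 := by norm_num

/-- the parameters of potential less than `2` have modulus at most `10` -/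
lemma norm_le_ten {c : ℂ} (h : G c c ≤ 2) : ‖c‖ ≤ 10 := by
  by_contra hcon
  push Not at hcon
  have h4 := (log_norm_f_le hcon).1
  have h5 : ‖f c c‖ ≤ Real.exp (2 * 2 + 3 / 16) := by
    have h6 : Real.log ‖f c c‖ ≤ 2 * 2 + 3 / 16 := by linarith
    rwa [Real.log_le_iff_le_exp (by have := (Far_f_self hcon).norm_gt; linarith)] at h6
  have h6 := exp_aux
  have h7 := norm_sq_sub_le c
  nlinarith

/-- an arc which uses a point in the box contains one of three points -/
lemma box_arc {s t : ℝ} {z : ℂ} (h : z ∈ Box s t) :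
    ∃ e : Fin 3, z.im / (2 * Real.pi) + ((e : ℕ) - 1 : ℝ) * (z.re / 20) ∈ Ioo s t := by
  obtain ⟨h0, h1, h2, h3, h4⟩ := h
  have hpi := Real.pi_gt_three
  have hpi0 := Real.pi_pos
  have hd : z.re / 4 / (2 * Real.pi) < z.re / 20 := by
    rw [div_div, div_lt_div_iff₀ (by positivity) (by norm_num)]
    nlinarith
  set x := z.im / (2 * Real.pi) with hx
  have hxim : z.im = 2 * Real.pi * x := by rw [hx]; field_simp
  set d := z.re / 4 / (2 * Real.pi) with hdd
  have hdre : z.re / 4 = 2 * Real.pi * d := by rw [hdd]; field_simp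
  have hd0 : 0 < d := by rw [hdd]; positivity
  rw [hxim, hdre] at h2 h3
  rw [hxim, hdre] at h4
  have h2' : s < x + d := by
    by_contra hc; push Not at hc; nlinarith
  have h3' : x < t + d := by
    by_contra hc; push Not at hc; nlinarith
  by_cases hs : x < s + d
  · refine ⟨2, ?_, ?_⟩
    · simp only [Fin.val_two]; push_cast; linarith
    · simp only [Fin.val_two]; push_cast; linarith
  by_cases ht : t - d < x
  · refine ⟨0, ?_, ?_⟩
    · simp only [Fin.val_zero]; push_cast; linarith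
    · simp only [Fin.val_zero]; push_cast; linarith
  · push Not at hs ht
    refine ⟨1, ?_, ?_⟩
    · simp only [Fin.val_one]; push_cast; linarith
    · simp only [Fin.val_one]; push_cast; linarith

/-- multiplicity of the cover -/
lemma box_count_le {ι : Type} (F : Finset ι) (s t : ι → ℝ)
    (hdis : ∀ i ∈ F, ∀ j ∈ F, i ≠ j → ∀ k : ℤ,
      Disjoint (Ioo (s i) (t i)) (Ioo (s j + k) (t j + k)))
    (c : ℂ) (T : Finset ι) (hT : T ⊆ F) (hc : ∀ i ∈ T, c ∈ cOf '' Box (s i) (t i)) :
    T.card ≤ 3 := by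
  classical
  rcases T.eq_empty_or_nonempty with rfl | ⟨i₀, hi₀⟩
  · simp
  have hex : ∀ i : ι, ∃ p : ℂ × Fin 3, i ∈ T → (p.1 ∈ Box (s i) (t i) ∧ cOf p.1 = c ∧
      p.1.im / (2 * Real.pi) + ((p.2 : ℕ) - 1 : ℝ) * (p.1.re / 20) ∈ Ioo (s i) (t i)) := by
    intro i
    by_cases hi : i ∈ T
    · obtain ⟨z, hz, hzc⟩ := hc i hi
      obtain ⟨e, he⟩ := box_arc hz
      exact ⟨(z, e), fun _ => ⟨hz, hzc, he⟩⟩
    · exact ⟨(0, 0), fun h => absurd h hi⟩
  choose p hp using hex
  have hinj : Set.InjOn (fun i => (p i).2) (T : Set ι) := by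
    intro i hi j hj hij
    by_contra hne
    obtain ⟨a1, a2, a3⟩ := hp i hi
    obtain ⟨b1, b2, b3⟩ := hp j hj
    obtain ⟨k, hk⟩ := (cOf_eq_iff b1.1 a1.1).1 (b2.trans a2.symm)
    have hre : (p i).1.re = (p j).1.re := by rw [hk]; simp
    have him : (p i).1.im / (2 * Real.pi) = (p j).1.im / (2 * Real.pi) + k := by
      have : (p i).1.im = (p j).1.im + 2 * Real.pi * k := by rw [hk]; simp
      rw [this]; field_simp
    have hij' : (p i).2 = (p j).2 := hij
    have h1 := Set.disjoint_left.1 (hdis i (hT hi) j (hT hj) hne k) a3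
    apply h1
    rw [hre, him, hij']
    constructor
    · linarith [b3.1]
    · linarith [b3.2]
  have h2 := Finset.card_le_card_of_injOn (s := T) (t := (Finset.univ : Finset (Fin 3)))
    (fun i => (p i).2) (fun _ _ => Finset.mem_coe.2 (Finset.mem_univ _)) hinj
  simpa using h2

/-- N1b: disjoint arcs use boundedly overlapping areas -/
theorem n1_area : N1_area := by
  classical
  intro ι F s t hlen hdis
  set S : ι → Set ℂ := fun i => cOf '' Box (s i) (t i) with hS
  have hmeas : ∀ i, MeasurableSet (S i) := fun i =>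
    (isOpen_image_cOf (isOpen_Box _ _) (Box_sub _ _)).measurableSet
  have hsub : ∀ i ∈ F, S i ⊆ closedBall (0 : ℂ) 10 := by
    rintro i hi _ ⟨z, hz, rfl⟩
    rw [mem_closedBall_zero_iff]
    apply norm_le_ten
    rw [G_cOf hz.1]
    have h1 := hz.2.1
    have h2 := (hlen i hi).2
    linarith
  have hfin : volume (closedBall (0 : ℂ) 10) ≠ ⊤ := measure_closedBall_lt_top.ne
  have hpt : ∀ c : ℂ, ∑ i ∈ F, (S i).indicator (fun _ => (1 : ENNReal)) c ≤
      (closedBall (0 : ℂ) 10).indicator (fun _ => (3 : ENNReal)) c := by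
    intro c
    set T := F.filter fun i => c ∈ S i with hTdef
    have h1 : ∑ i ∈ F, (S i).indicator (fun _ => (1 : ENNReal)) c = (T.card : ENNReal) := by
      rw [hTdef, Finset.card_filter]
      push_cast
      refine Finset.sum_congr rfl fun i _ => ?_
      simp [Set.indicator_apply]
    rw [h1]
    rcases T.eq_empty_or_nonempty with hT | ⟨i₀, hi₀⟩
    · rw [hT]; simp
    · have h2 : c ∈ closedBall (0 : ℂ) 10 := by
        have h3 := Finset.mem_filter.1 hi₀
        exact hsub i₀ h3.1 h3.2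
      rw [Set.indicator_of_mem h2]
      have h3 := box_count_le F s t hdis c T (Finset.filter_subset _ _)
        (fun i hi => (Finset.mem_filter.1 hi).2)
      exact_mod_cast h3
  have hsum : ∑ i ∈ F, volume (S i) ≤ 3 * volume (closedBall (0 : ℂ) 10) := by
    calc ∑ i ∈ F, volume (S i)
        = ∑ i ∈ F, ∫⁻ c, (S i).indicator (fun _ => (1 : ENNReal)) c := by
          refine Finset.sum_congr rfl fun i _ => ?_
          rw [lintegral_indicator (hmeas i)]; simp
      _ = ∫⁻ c, ∑ i ∈ F, (S i).indicator (fun _ => (1 : ENNReal)) c := by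
          rw [lintegral_finsetSum]
          intro i _
          exact measurable_const.indicator (hmeas i)
      _ ≤ ∫⁻ c, (closedBall (0 : ℂ) 10).indicator (fun _ => (3 : ENNReal)) c :=
          lintegral_mono hpt
      _ = 3 * volume (closedBall (0 : ℂ) 10) := by
          rw [lintegral_indicator measurableSet_closedBall]; simp
  have hfinS : ∀ i ∈ F, volume (S i) ≠ ⊤ := fun i hi =>
    ne_top_of_le_ne_top hfin (measure_mono (hsub i hi))
  have h1 : ∑ i ∈ F, area (s i) (t i) = (∑ i ∈ F, volume (S i)).toReal := by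
    rw [ENNReal.toReal_sum hfinS]; rfl
  rw [h1]
  have h2 : (∑ i ∈ F, volume (S i)).toReal ≤ (3 * volume (closedBall (0 : ℂ) 10)).toReal :=
    ENNReal.toReal_mono (ENNReal.mul_ne_top (by norm_num) hfin) hsum
  refine h2.trans ?_
  rw [ENNReal.toReal_mul, Complex.volume_closedBall]
  have hpi : Real.pi < 3.15 := Real.pi_lt_d2
  have hpi0 := Real.pi_pos
  have h3 : (ENNReal.ofReal 10 ^ 2 * (NNReal.pi : ENNReal)).toReal = 100 * Real.pi := by
    rw [ENNReal.toReal_mul, ENNReal.toReal_pow, ENNReal.toReal_ofReal (by norm_num)]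
    norm_num
  rw [h3]
  simp only [ENNReal.toReal_ofNat]
  nlinarith

end Pool.Agent.Work.MLC.Cnt
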