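import Pool.Agent.Work.MLC.Cap26
import Pool.Agent.Work.MLC.CntQ78
import Pool.Agent.Work.MLC.CntA86

set_option autoImplicit false

/-! # Theorem Cap: the roof and the total energy (helper24) -/

namespace Pool.Agent.Work.MLC.Cap

open Filter Topology Metric Set Complex MeasureTheory
open Pool.Agent.Work.MLC.Sat Pool.Agent.Work.MLC.Cnt
open scoped ENNReal

lemma isOpen_Rf (s t H : ℝ) : IsOpen (Rf s t H) := by
  have e : Rf s t H = {z : ℂ | H / 2 < z.re} ∩ ({z : ℂ | z.re < 2 * H} ∩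
      ({z : ℂ | s - 2 * H < z.im / (2 * Real.pi)} ∩
        {z : ℂ | z.im / (2 * Real.pi) < t + 2 * H})) := rfl
  rw [e]
  have h1 : Continuous fun z : ℂ => z.im / (2 * Real.pi) := Complex.continuous_im.div_const _
  exact (isOpen_lt (by fun_prop) (by fun_prop)).inter
    ((isOpen_lt (by fun_prop) (by fun_prop)).inter
      ((isOpen_lt (by fun_prop) h1).inter (isOpen_lt h1 (by fun_prop))))

/-- the roof, with the square -/
lemma roof_sq {s t H E : ℝ} (hH : 0 < H) (hst : t ≤ s + 5 * H) (hE0 : 0 ≤ E)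
    (hE : en (Rf (s + H) (t - H) H) ≤ ENNReal.ofReal E) {u v : ℝ} (hu : s ≤ u) (huv : u ≤ v)
    (hv : v ≤ t) :
    ‖cOf ((H : ℂ) + 2 * Real.pi * v * I) - cOf ((H : ℂ) + 2 * Real.pi * u * I)‖ ^ 2 ≤
      100 * E := by
  have hpi := Real.pi_gt_three
  have hpi2 := Real.pi_lt_four
  have hpi0 := Real.pi_pos
  have h1 := ln_length_sq (f := cOf) (B := Rf (s + H) (t - H) H) (γ := fun x : ℝ => (H : ℂ) +
      2 * Real.pi * x * I) (γ' := fun x : ℝ => 2 * Real.pi * I) (ρ := fun x => H / 5)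
    (a := u) (b := v) (M := 10 * Real.pi / H) (T := H / (5 * Real.pi)) (E := E)
    ln_isOpen differentiableOn_cOf (fun z hz => by
      have := hz.1
      show 0 < z.re
      linarith) (isOpen_Rf _ _ _).measurableSet huv (by positivity) ?_
    (by fun_prop) (by fun_prop) (fun x _ => by positivity) ?_ ?_ ?_ hE0 hE
  · refine h1.trans ?_
    have h2 : (v - u) * (10 * Real.pi / H) ^ 2 * (H / (5 * Real.pi)) * E / Real.pi =
        20 * (E * ((v - u) / H)) := by
      field_simp
      ring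
    rw [h2]
    have h3 : (v - u) / H ≤ 5 := by
      rw [div_le_iff₀ hH]; linarith
    nlinarith [mul_le_mul_of_nonneg_left h3 hE0]
  · intro x
    have h2 : HasDerivAt (fun y : ℝ => (y : ℂ)) 1 x := Complex.ofRealCLM.hasDerivAt
    have h3 := ((h2.const_mul (2 * Real.pi : ℂ)).mul_const I).const_add (H : ℂ)
    simpa using h3
  · intro x _
    have e1 : ‖(2 * Real.pi * I : ℂ)‖ = 2 * Real.pi := by
      simp [abs_of_pos Real.pi_pos]
    rw [e1]
    apply le_of_eq
    field_simp
    ring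
  · intro x hx z hz
    rw [mem_ball, dist_eq] at hz
    have hre := (abs_re_le_norm _).trans_lt hz
    have him := (abs_im_le_norm _).trans_lt hz
    simp only [sub_re, add_re, ofReal_re, mul_re, re_ofNat, im_ofNat, ofReal_im, I_re, I_im,
      mul_im, mul_zero, zero_mul, sub_zero, mul_one, add_zero, zero_add, sub_im, add_im,
      sub_self] at hre him
    rw [abs_lt] at hre him
    have h2 : s ≤ x := hu.trans hx.1
    have h3 : x ≤ t := hx.2.trans hv
    refine ⟨by linarith, by linarith, ?_, ?_⟩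
    · rw [lt_div_iff₀ (by positivity)]
      nlinarith
    · rw [div_lt_iff₀ (by positivity)]
      nlinarith
  · intro w hw
    have hsub : {x | x ∈ Icc u v ∧ w ∈ ball ((H : ℂ) + 2 * Real.pi * x * I) (H / 5)} ⊆
        Icc ((w.im - H / 5) / (2 * Real.pi)) ((w.im + H / 5) / (2 * Real.pi)) := by
      rintro x ⟨-, hx⟩
      rw [mem_ball, dist_eq] at hx
      have him := (abs_im_le_norm _).trans_lt hx
      simp only [ofReal_re, mul_re, re_ofNat, im_ofNat, ofReal_im, I_re, I_im,
        mul_im, mul_zero, zero_mul, sub_zero, mul_one, add_zero, zero_add, sub_im, add_im] at him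
      rw [abs_lt] at him
      constructor
      · rw [div_le_iff₀ (by positivity)]; linarith
      · rw [le_div_iff₀ (by positivity)]; linarith
    refine (measure_mono hsub).trans ?_
    rw [Real.volume_Icc]
    apply ENNReal.ofReal_le_ofReal
    apply le_of_eq
    field_simp
    ring

/-- **RF: roofs** -/
theorem c_roof : C_roof := by
  intro s t H hH _ _ hst
  rcases eq_or_ne (en (Rf (s + H) (t - H) H)) ⊤ with h | h
  · rw [h, ENNReal.mul_top (by norm_num)]
    exact le_top
  set E : ℝ := (en (Rf (s + H) (t - H) H)).toReal with hE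
  have hE0 : 0 ≤ E := ENNReal.toReal_nonneg
  have hE1 : en (Rf (s + H) (t - H) H) = ENNReal.ofReal E := (ENNReal.ofReal_toReal h).symm
  have key : ∀ u v : ℝ, s ≤ u → u ≤ v → v ≤ t →
      ‖cOf ((H : ℂ) + 2 * Real.pi * v * I) - cOf ((H : ℂ) + 2 * Real.pi * u * I)‖ ≤
        10 * √E := by
    intro u v hu huv hv
    have h2 := roof_sq hH hst hE0 hE1.le hu huv hv
    have h4 : ‖cOf ((H : ℂ) + 2 * Real.pi * v * I) - cOf ((H : ℂ) + 2 * Real.pi * u * I)‖ ^ 2 ≤
        (10 * √E) ^ 2 := by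
      rw [mul_pow, Real.sq_sqrt hE0]
      linarith
    exact (abs_le_of_sq_le_sq' h4 (by positivity)).2
  have hd : diam (RoofH H s t) ≤ 10 * √E := by
    apply diam_le_of_forall_dist_le (by positivity)
    rintro _ ⟨u, hu, rfl⟩ _ ⟨v, hv, rfl⟩
    rcases le_total u v with huv | huv
    · rw [dist_comm, dist_eq]
      exact key u v hu.1 huv hv.2
    · rw [dist_eq]
      exact key v u hv.1 huv hu.2
  have hd2 : diam (RoofH H s t) ^ 2 ≤ 10 ^ 5 * E := by
    calc diam (RoofH H s t) ^ 2 ≤ (10 * √E) ^ 2 := pow_le_pow_left₀ diam_nonneg hd 2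
      _ = 100 * E := by rw [mul_pow, Real.sq_sqrt hE0]; norm_num
      _ ≤ 10 ^ 5 * E := by nlinarith
  refine (ENNReal.ofReal_le_ofReal hd2).trans (le_of_eq ?_)
  rw [hE1, ENNReal.ofReal_mul (by norm_num)]
  congr 1
  norm_num

/-- a strip of height `2 π` -/
lemma en_strip {A : Set ℂ} (hAm : MeasurableSet A) (hA : ∀ z ∈ A, 0 < z.re ∧ z.re ≤ 2)
    (hA2 : ∀ z ∈ A, ∀ w ∈ A, |z.im - w.im| < 2 * Real.pi) : en A ≤ 400 := by
  unfold en
  rw [qw_energy hAm hA hA2]
  have hsub : cOf '' A ⊆ closedBall (0 : ℂ) 10 := by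
    rintro _ ⟨z, hz, rfl⟩
    rw [mem_closedBall_zero_iff]
    apply norm_le_ten
    rw [G_cOf (hA z hz).1]
    linarith [(hA z hz).2]
  have h1 : (volume (cOf '' A)).toReal ≤ 400 := by
    refine (ENNReal.toReal_mono measure_closedBall_lt_top.ne (measure_mono hsub)).trans ?_
    rw [Complex.volume_closedBall]
    have hpi : Real.pi < 3.15 := Real.pi_lt_d2
    have h3 : (ENNReal.ofReal 10 ^ 2 * (NNReal.pi : ENNReal)).toReal = 100 * Real.pi := by
      rw [ENNReal.toReal_mul, ENNReal.toReal_pow, ENNReal.toReal_ofReal (by norm_num)]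
      norm_num
    rw [h3]
    linarith
  refine (ENNReal.ofReal_le_ofReal h1).trans ?_
  norm_num

/-- **EN: the total energy** -/
theorem c_energy : C_energy := by
  have hpi := Real.pi_gt_three
  have hpi0 := Real.pi_pos
  set A : Fin 7 → Set ℂ := fun j => {z | 0 < z.re ∧ z.re ≤ 2 ∧
    -20 + 2 * Real.pi * (j : ℕ) ≤ z.im ∧ z.im < -20 + 2 * Real.pi * ((j : ℕ) + 1)} with hA
  have hm : ∀ j, MeasurableSet (A j) := by
    intro j
    exact (measurableSet_lt measurable_const measurable_re).inter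
      ((measurableSet_le measurable_re measurable_const).inter
        ((measurableSet_le measurable_const measurable_im).inter
          (measurableSet_lt measurable_im measurable_const)))
  have hsub : {z : ℂ | 0 < z.re ∧ z.re ≤ 2 ∧ -20 < z.im ∧ z.im < 20} ⊆ ⋃ j, A j := by
    rintro z ⟨h1, h2, h3, h4⟩
    have h5 : 0 ≤ (z.im + 20) / (2 * Real.pi) := by
      have : 0 < z.im + 20 := by linarith
      positivity
    have h6 : ⌊(z.im + 20) / (2 * Real.pi)⌋₊ < 7 := by
      rw [Nat.floor_lt h5, div_lt_iff₀ (by positivity)]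
      push_cast
      linarith
    refine mem_iUnion.2 ⟨⟨_, h6⟩, h1, h2, ?_, ?_⟩
    · have h7 := Nat.floor_le h5
      rw [le_div_iff₀ (by positivity)] at h7
      show -20 + 2 * Real.pi * ((⌊(z.im + 20) / (2 * Real.pi)⌋₊ : ℕ) : ℝ) ≤ z.im
      linarith
    · have h7 := Nat.lt_floor_add_one ((z.im + 20) / (2 * Real.pi))
      rw [div_lt_iff₀ (by positivity)] at h7
      show z.im < -20 + 2 * Real.pi * (((⌊(z.im + 20) / (2 * Real.pi)⌋₊ : ℕ) : ℝ) + 1)
      linarith
  have h1 : en {z : ℂ | 0 < z.re ∧ z.re ≤ 2 ∧ -20 < z.im ∧ z.im < 20} ≤ ∑ j, en (A j) := by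
    calc en {z : ℂ | 0 < z.re ∧ z.re ≤ 2 ∧ -20 < z.im ∧ z.im < 20} ≤ en (⋃ j, A j) :=
          lintegral_mono_set hsub
      _ ≤ ∑' j, en (A j) := lintegral_iUnion_le _ _
      _ = ∑ j, en (A j) := tsum_fintype _
  refine h1.trans ?_
  calc ∑ j, en (A j) ≤ ∑ _j : Fin 7, (400 : ℝ≥0∞) := by
        refine Finset.sum_le_sum fun j _ => en_strip (hm j) (fun z hz => ⟨hz.1, hz.2.1⟩) ?_
        rintro z ⟨-, -, h3, h4⟩ w ⟨-, -, h5, h6⟩
        rw [abs_lt]
        constructor <;> nlinarith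
    _ ≤ 10 ^ 6 := by
        rw [Finset.sum_const, Finset.card_univ, Fintype.card_fin]
        norm_num

end Pool.Agent.Work.MLC.Cap
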