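import Pool.Agent.Work.MLC.Cap26
import Pool.Agent.Work.MLC.CntT60
import Pool.Agent.Work.MLC.CntP60

set_option autoImplicit false

/-! # Theorem Cap: module C_top2, the enclosure of a piece of type II (helper49)

The piece between the root of `U = W.dat x` and the root of `V` lies in the region of `W` minus the
closure of the region of `W'`; the projection lemma of `CntT60` does the rest. -/

namespace Pool.Agent.Work.MLC.Cap

open Filter Topology Metric Set Complex MeasureTheory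
open Pool.Agent.Work.MLC.Sat Pool.Agent.Work.MLC.Cnt

namespace T49

/-- the root of `W.dat y` is on the axis -/
lemma rt_dat {W : WS} (hW : W.Ok) {y : ℚ} (h0 : 0 < y) (h1 : y < 1) :
    rt (W.dat y) = W.c (2 * Real.pi * y * I) := by
  rw [rt, WS.dat_c hW h0 h1, WS.dat_a hW h0 h1, axisPt_eq]
  push_cast
  rfl

/-- the closure of the inner region meets the Mandelbrot set in the inner limb only -/
theorem closure_sub {W' : WS} (hW' : W'.Ok) {V : Dat} (hP : V.Par) (hC : V.Cir) {x₁' x₂' : ℚ}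
    (h0 : 0 < x₁') (h12 : x₁' < x₂') (h1 : x₂' < 1)
    (hax : ∀ y : ℝ, 0 < y → y < 1 → W'.c (2 * Real.pi * y * I) ∈ Lm V) {h : ℝ} (hh : 0 < h) {z : ℂ}
    (hM : z ∈ MM) (hz : z ∈ closure (T60.Reg W' x₁' x₂' h)) : z ∈ Lm V := by
  have key : ∀ y : ℚ, x₁' ≤ y → y ≤ x₂' → insert (rt (W'.dat y)) (Lm (W'.dat y)) ⊆ Lm V := by
    intro y hy1 hy2
    have hy0 : 0 < y := h0.trans_le hy1
    have hyl : y < 1 := hy2.trans_lt h1
    refine limb_sub hP hC (WS.dat_par hW' hy0 hyl) (WS.dat_cir hW' hy0 hyl) ?_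
    rw [rt_dat hW' hy0 hyl]
    exact hax y (by exact_mod_cast hy0) (by exact_mod_cast hyl)
  rcases T60.limit_Reg hW' h0 h1 hh hM hz with h2 | ⟨y, hy1, hy2, h2 | h2⟩
  · rcases T60.limit_Ext hW' h0 h12 h1 hM h2 with ⟨y, hy1, hy2, h3⟩ | ⟨y, hy1, hy2, h3⟩
    · exact key y hy1 hy2 (Or.inr h3)
    · rw [h3]
      exact hax y (lt_of_lt_of_le (by exact_mod_cast h0) hy1)
        (lt_of_le_of_lt hy2 (by exact_mod_cast h1))
  · exact key y hy1 hy2 (Or.inr h2)
  · exact key y hy1 hy2 (Or.inl h2)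

/-- a point of the inner roof is not in the closure of the difference of the regions -/
theorem roof_notMem {W W' : WS} {x₁ x₂ x₁' x₂' : ℚ} {h : ℝ} (hh : 0 < h) {u : ℝ}
    (hu1 : (W'.dat x₁').tm < u) (hu2 : u < (W'.dat x₂').tp) :
    cOf ((h : ℂ) + 2 * Real.pi * u * I) ∉
      closure (T60.Reg W x₁ x₂ h \ closure (T60.Reg W' x₁' x₂' h)) := by
  have hpi := Real.two_pi_pos
  set N : Set ℂ := cOf '' {w | 0 < w.re ∧ 2 * Real.pi * (W'.dat x₁').tm < w.im ∧
    w.im < 2 * Real.pi * (W'.dat x₂').tp} with hN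
  have hNo : IsOpen N := CH.isOpen_image ((isOpen_lt continuous_const continuous_re).inter
    ((isOpen_lt continuous_const continuous_im).inter (isOpen_lt continuous_im continuous_const)))
    fun z hz => hz.1
  have hmem : cOf ((h : ℂ) + 2 * Real.pi * u * I) ∈ N := by
    refine ⟨_, ⟨?_, ?_, ?_⟩, rfl⟩
    · rw [CH.re_pt]; exact hh
    · rw [CH.im_pt]; exact mul_lt_mul_of_pos_left hu1 hpi
    · rw [CH.im_pt]; exact mul_lt_mul_of_pos_left hu2 hpi
  intro hc
  obtain ⟨c, ⟨w, ⟨hw0, hw1, hw2⟩, rfl⟩, hcR, hcR'⟩ :=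
    mem_closure_iff_nhds.1 hc N (hNo.mem_nhds hmem)
  rcases lt_or_ge w.re h with h3 | h3
  · exact hcR' (subset_closure (Or.inl ⟨w, ⟨hw0, h3, hw1, hw2⟩, rfl⟩))
  · rcases hcR with ⟨w', hw', he⟩ | ⟨y, -, -, hy⟩
    · have h4 := congrArg (fun c => G c c) he
      rw [G_cOf hw'.1, G_cOf hw0] at h4
      linarith [hw'.2.1]
    · have h4 := mem_M_iff'.1 hy.1
      rw [G_cOf hw0] at h4
      linarith

end T49

open T49 in
/-- **module C_top2** -/
theorem c_top2 : C_top2 := by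
  intro W W' hW hW' V x x₁ x₂ x₁' x₂' hVP hVC h0 hx1 hx2 h1 h0' h12' h1' hsub hax' _ _ _ _ hK
    g g' h hg hgh hg' hgh' κ F P hPb hax hr1 hr2 haxI hr1' hr2'
  have hh : 0 < h := hg.trans_le hgh
  have h12 : x₁ < x₂ := hx1.trans hx2
  have hx0 : 0 < x := h0.trans hx1
  have hxl : x < 1 := hx2.trans h1
  set s : ℝ := (W.dat x₁).tm with hs
  set t : ℝ := (W.dat x₂).tp with ht
  set s' : ℝ := (W'.dat x₁').tm with hs'
  set t' : ℝ := (W'.dat x₂').tp with ht'
  have hrayb : ∀ t g : ℝ, 0 < g → Bornology.IsBounded (RaySeg t g h) := by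
    intro t g hg
    have hc : ContinuousOn (fun u : ℝ => cOf ((u : ℂ) + 2 * Real.pi * t * I)) (Icc g h) := by
      refine continuousOn_cOf.comp (by fun_prop) fun u hu => ?_
      show 0 < ((u : ℂ) + 2 * Real.pi * t * I).re
      rw [CH.re_pt]; exact hg.trans_le hu.1
    exact (isCompact_Icc.image_of_continuousOn hc).isBounded
  have hroofb : ∀ s t : ℝ, Bornology.IsBounded (RoofH h s t) := by
    intro s t
    have hc : ContinuousOn (fun u : ℝ => cOf ((h : ℂ) + 2 * Real.pi * u * I)) (Icc s t) := by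
      refine continuousOn_cOf.comp (by fun_prop) fun u hu => ?_
      show 0 < ((h : ℂ) + 2 * Real.pi * u * I).re
      rw [CH.re_pt]; exact hh
    exact (isCompact_Icc.image_of_continuousOn hc).isBounded
  set F' : Finset (κ ⊕ Fin 6) := F.disjSum Finset.univ with hF'
  set P' : κ ⊕ Fin 6 → Set ℂ :=
    Sum.elim P ![RaySeg s g h, RaySeg t g h, RaySeg s' g' h, RaySeg t' g' h, RoofH h s s',
      RoofH h t' t] with hP'
  have hsum : ∑ i ∈ F', diam (P' i) = diam (RaySeg s g h) + diam (RaySeg t g h) +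
      diam (RaySeg s' g' h) + diam (RaySeg t' g' h) +
      diam (RoofH h s s') + diam (RoofH h t' t) + ∑ i ∈ F, diam (P i) := by
    rw [hF', Finset.sum_disjSum, Fin.sum_univ_six]
    simp [hP']
    ring
  have hin : ∀ z : ℂ, (∃ i ∈ F, z ∈ P i) → z ∈ ⋃ i ∈ F', P' i := by
    rintro z ⟨i, hi, hz⟩
    rw [mem_iUnion₂]
    exact ⟨Sum.inl i, by simp [hF', hi], hz⟩
  have hin' : ∀ (z : ℂ) (j : Fin 6), z ∈ P' (Sum.inr j) → z ∈ ⋃ i ∈ F', P' i := by
    intro z j hz
    rw [mem_iUnion₂]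
    exact ⟨Sum.inr j, by simp [hF'], hz⟩
  set A : Set ℂ := T60.Reg W x₁ x₂ h with hA
  set B : Set ℂ := T60.Reg W' x₁' x₂' h with hB
  have hfr : frontier (A \ closure B) ⊆ ⋃ i ∈ F', P' i := by
    intro z hz
    have hzc : z ∈ closure (A \ closure B) := frontier_subset_closure hz
    have hz2 : z ∈ frontier A ∨ z ∈ frontier B := by
      rw [sdiff_eq] at hz
      rcases frontier_inter_subset _ _ hz with h2 | h2
      · exact Or.inl h2.1
      · right
        rw [frontier_compl] at h2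
        exact frontier_closure_subset h2.2
    rcases hz2 with hz2 | hz2
    · rcases T60.frontier_Reg hW h0 h12 h1 hh hz2 with ⟨u, hu0, huh, h3 | h3⟩ | h3 |
        ⟨y, hy1, hy2, h3⟩
      · rcases le_or_gt u g with h4 | h4
        · rw [h3]; exact hin _ (hr1 u hu0 h4)
        · exact hin' z 0 ⟨u, ⟨h4.le, huh⟩, h3.symm⟩
      · rcases le_or_gt u g with h4 | h4
        · rw [h3]; exact hin _ (hr2 u hu0 h4)
        · exact hin' z 1 ⟨u, ⟨h4.le, huh⟩, h3.symm⟩
      · obtain ⟨u, ⟨hu1, hu2⟩, h3⟩ := h3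
        rcases le_or_gt u s' with h4 | h4
        · exact hin' z 4 ⟨u, ⟨hu1, h4⟩, h3⟩
        rcases le_or_gt t' u with h5 | h5
        · exact hin' z 5 ⟨u, ⟨h5, hu2⟩, h3⟩
        rw [← h3] at hzc
        exact absurd hzc (roof_notMem hh h4 h5)
      · rw [h3]; exact hin _ (hax y hy1 hy2)
    · rcases T60.frontier_Reg hW' h0' h12' h1' hh hz2 with ⟨u, hu0, huh, h3 | h3⟩ | h3 |
        ⟨y, hy1, hy2, h3⟩
      · rcases le_or_gt u g' with h4 | h4
        · rw [h3]; exact hin _ (hr1' u hu0 h4)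
        · exact hin' z 2 ⟨u, ⟨h4.le, huh⟩, h3.symm⟩
      · rcases le_or_gt u g' with h4 | h4
        · rw [h3]; exact hin _ (hr2' u hu0 h4)
        · exact hin' z 3 ⟨u, ⟨h4.le, huh⟩, h3.symm⟩
      · obtain ⟨u, ⟨hu1, hu2⟩, h3⟩ := h3
        rcases hu1.eq_or_lt with h4 | h4
        · exact hin' z 2 ⟨h, ⟨hgh', le_rfl⟩, by rw [← h3, ← h4]⟩
        rcases hu2.eq_or_lt with h5 | h5
        · exact hin' z 3 ⟨h, ⟨hgh', le_rfl⟩, by rw [← h3, h5]⟩
        rw [← h3] at hzc
        exact absurd hzc (roof_notMem hh h4 h5)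
      · rw [h3]; exact hin _ (haxI y hy1 hy2)
  rw [← hsum]
  refine diam_le_of_forall_dist_le (Finset.sum_nonneg fun i _ => diam_nonneg) ?_
  intro z hz z' hz'
  refine T60.proj (Q := A \ closure B) ((T60.bounded_Reg W x₁ x₂ h).subset sdiff_subset) hK ?_ ?_
    hfr hz hz'
  · rintro c ⟨hc | hc, hcV⟩
    · right
      rw [hc, rt_dat hW hx0 hxl]
      exact hin _ (hax x (by exact_mod_cast hx1.le) (by exact_mod_cast hx2.le))
    · left
      refine ⟨Or.inr ⟨x, hx1.le, hx2.le, hc⟩, fun hcB => hcV ?_⟩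
      exact closure_sub hW' hVP hVC h0' h12' h1' hax' hh hc.1 hcB
  · intro i hi
    rcases i with i | i
    · refine hPb i ?_
      simpa [hF'] using hi
    · fin_cases i
      · exact hrayb s g hg
      · exact hrayb t g hg
      · exact hrayb s' g' hg'
      · exact hrayb t' g' hg'
      · exact hroofb s s'
      · exact hroofb t' t

end Pool.Agent.Work.MLC.Cap
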