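import Pool.Agent.Work.MLC.CntQ26
import Pool.Agent.Work.MLC.CntGate70

set_option autoImplicit false

/-! # Theorem Q, module G1: the size of a gate of any radius at most `gR / 8` (helper43) -/

namespace Pool.Agent.Work.MLC.Cnt

open Filter Topology Metric Set Complex MeasureTheory
open Pool.Agent.Work.MLC.Sat

/-- **G1** -/
theorem q_gate : Q_gate := by
  intro W hW y ρ h0 h1 hρ hρR
  have hP := WS.dat_par hW h0 h1
  have hC := WS.dat_cir hW h0 h1
  have hm := WS.dat_m hW h0 h1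
  have hx := WS.dat_x hW h0 h1
  have ha := WS.dat_a hW h0 h1
  have hc : W.c = (W.dat y).c := funext fun L => (WS.dat_c hW h0 h1 L).symm
  have hsub : ball (axisPt y) (8 * ρ) ⊆ (W.dat y).B := by
    show ball (axisPt y) (8 * ρ) ⊆ ball (W.dat y).a (gR (W.dat y).m (W.dat y).x)
    rw [ha, hm, hx]
    exact ball_subset_ball (by linarith)
  obtain ⟨g1, g2, g3⟩ := Kb.gate_gen (f := (W.dat y).c) (z0 := axisPt y) (R := 8 * ρ)
    (by positivity) ((c_diff hP).mono hsub) ((c_injOn hP hC).mono hsub)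
    (fun L hL => section_deriv_ne_zero (goodB hP) hP.cont hP.sec (hsub hL))
  have h8 : 8 * ρ / 8 = ρ := by ring
  rw [h8] at g1 g2 g3
  have hre : (axisPt y).re = 0 := LimbData.axisPt_re y
  have hH : W.Hf y ρ = (W.dat y).c '' Kb.LH (axisPt y) ρ := by
    unfold WS.Hf Kb.LH
    rw [hre, hc]
  have hG : W.Gt y ρ = (W.dat y).c '' closedBall (axisPt y) ρ := by
    unfold WS.Gt
    rw [hc]
  rw [hH, hG]
  refine ⟨g1, g2, g3.trans ?_⟩
  have := Real.sqrt_nonneg ((volume ((W.dat y).c '' Kb.LH (axisPt y) ρ)).toReal)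
  nlinarith

end Pool.Agent.Work.MLC.Cnt
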