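import Pool.Agent.Work.MLC.CapO26
import Pool.Agent.Work.MLC.CapG26
import Pool.Agent.Work.MLC.CapB26
import Pool.Agent.Work.MLC.CapA78
import Pool.Agent.Work.MLC.CapR24
import Pool.Agent.Work.MLC.CapD43
import Pool.Agent.Work.MLC.CapL31
import Pool.Agent.Work.MLC.CapN31
import Pool.Agent.Work.MLC.CapC15
import Pool.Agent.Work.MLC.CapT49
import Pool.Agent.Work.MLC.CntT60
import Pool.Agent.Work.MLC.CntR43

set_option autoImplicit false

/-! # Theorem Cap: the one-piece estimates of type I and II, unconditional (helper26) -/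

namespace Pool.Agent.Work.MLC.Cap

open Pool.Agent.Work.MLC.Sat Pool.Agent.Work.MLC.Cnt

lemma cutray_mono {C C' : ℝ} (h : C ≤ C') (hC : C_cutray C) : C_cutray C' := by
  intro W hW x u v hx0 hx1 hN H hH0 hH1
  obtain ⟨x₁, x₂, g, h1, h2, h3, h4, h5, h6, h7, h8, h9, h10⟩ :=
    hC W hW x u v hx0 hx1 hN H hH0 hH1
  have hle : ENNReal.ofReal (C * (W.m * x.den)) ≤ ENNReal.ofReal (C' * (W.m * x.den)) :=
    ENNReal.ofReal_le_ofReal (mul_le_mul_of_nonneg_right h (by positivity))
  exact ⟨x₁, x₂, g, h1, h2, h3, h4, h5, h6, h7, h8, h9.trans (mul_le_mul' hle le_rfl),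
    h10.trans (mul_le_mul' hle le_rfl)⟩

/-- one complete cut -/
theorem cut_all : C_cut (3 * (2 * 10 ^ 7 + 10 ^ 16)) :=
  c_cut c_nbr c_dist (by norm_num) (by norm_num) (c_cutray_explicit c_leaf c_average c_dist)
    (c_cutgate q_gate)

lemma one_mono {C C' : ℝ} (h : C ≤ C') (hC : C_one C) : C_one C' :=
  fun W hW x H hx0 hx1 hH1 hlen hDD => (hC W hW x H hx0 hx1 hH1 hlen hDD).trans
    (mul_le_mul' (ENNReal.ofReal_le_ofReal h) le_rfl)

/-- **the one-piece estimate for limbs** -/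
theorem one_all : C_one (10 ^ 17) :=
  one_mono (by norm_num) (c_one q_top c_roof (by norm_num) cut_all)

/-- **the one-piece estimate for the pieces between two roots** -/
theorem two_all : C_two (2 * 10 ^ 17) := by
  have h := c_two c_top2 c_roof (by norm_num) cut_all
  intro W W' hW hW' V x x' H a1 a2 a3 a4 a5 a6 a7 a8 a9 a10 a11 a12 a13 a14 a15 a16 a17 a18 a19
  exact (h W W' hW hW' V x x' H a1 a2 a3 a4 a5 a6 a7 a8 a9 a10 a11 a12 a13 a14 a15 a16 a17 a18
    a19).trans (mul_le_mul' (ENNReal.ofReal_le_ofReal (by norm_num)) le_rfl)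

end Pool.Agent.Work.MLC.Cap
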