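import Pool.Agent.Work.MLC.CapN50
import Pool.Agent.Work.MLC.CapM26
import Pool.Agent.Work.MLC.CapL24
import Pool.Agent.Work.MLC.CapU26
import Pool.Agent.Work.MLC.CapP53
import Pool.Agent.Work.MLC.CapS57
import Pool.Agent.Work.MLC.CapS6
import Pool.Agent.Work.MLC.CntE60

set_option autoImplicit false

/-! # Theorem Cap, stage A: the sum over all roots with denominators at least `3` (helper50) -/

namespace Pool.Agent.Work.MLC.Cap

open Filter Topology Metric Set Complex MeasureTheory
open Pool.Agent.Work.MLC.Sat Pool.Agent.Work.MLC.Cnt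
open scoped ENNReal

/-- the plateaus of different roots with denominators at least `3` are disjoint, or nested and then
the exponent of the length doubles (modulo integers) -/
theorem far_or_double {D D' : Dat} (hP : D.Par) (hC : D.Cir) (hP' : D'.Par) (hC' : D'.Cir)
    (hq : 3 ≤ D.x.den) (hq' : 3 ≤ D'.x.den) (hne : rt D ≠ rt D') (k : ℤ) :
    D'.tp + k < D.tm ∨ D.tp < D'.tm + k ∨ D'.tp - D'.tm ≤ 2 * (D.tp - D.tm) ^ 2 ∨
      D.tp - D.tm ≤ 2 * (D'.tp - D'.tm) ^ 2 := by
  have hA := ca_of hP hC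
  have hA' := (ca_of hP' hC').shift k
  have hlt := hC.lt
  have hlt' := hC'.lt
  rcases laminar n2_ray n5_open n5_closed hP hC hP' hC' hne k with ⟨h1, h2⟩ | ⟨h1, h2⟩ | h | h
  · right; right; left
    have hm : D.m ≠ D'.m := by
      intro hm
      refine hne (n4_anti D D' hP hC hP' hC' hm hq hq' ⟨(D'.tm + D'.tp) / 2 + k, -k, ?_, ?_, ?_, ?_⟩)
      · linarith
      · linarith
      · push_cast; linarith
      · push_cast; linarith
    have h3 := (hA.nested_double hA' hm hq hq' h1 h2).1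
    linarith
  · right; right; right
    have hm : D'.m ≠ D.m := by
      intro hm
      refine hne (n4_anti D D' hP hC hP' hC' hm.symm hq hq' ⟨(D.tm + D.tp) / 2, -k, ?_, ?_, ?_, ?_⟩)
      · linarith
      · linarith
      · push_cast; linarith
      · push_cast; linarith
    have h3 := (hA'.nested_double hA hm hq' hq h1 h2).1
    have e : D'.tp + k - (D'.tm + k) = D'.tp - D'.tm := by ring
    rw [e] at h3
    exact h3
  · exact Or.inl h
  · exact Or.inr (Or.inl h)

/-- the exponent doubles -/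
lemma lam_double {l l' : ℝ} (hl : 0 < l) (hl' : 0 < l') (h : l' ≤ 2 * l ^ 2) (h10 : 10 ≤ lam l) :
    9 / 5 * lam l ≤ lam l' := by
  have h1 : lam (2 * l ^ 2) ≤ lam l' := lam_anti hl' h
  have h2 : lam (2 * l ^ 2) = 2 * lam l - 1 := by
    unfold lam
    rw [one_div, one_div, Real.logb_inv, Real.logb_inv, Real.logb_mul (by norm_num) (by positivity),
      Real.logb_pow, Real.logb_self_eq_one (by norm_num)]
    push_cast; ring
  linarith

lemma lam_pow {n : ℕ} {l : ℝ} (hl : 0 < l) (h : l ≤ (1 / 2) ^ n) : (n : ℝ) ≤ lam l := by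
  have h1 := lam_anti hl h
  have h2 : lam ((1 / 2) ^ n) = n := by
    unfold lam
    rw [one_div, one_div, Real.logb_inv, Real.logb_pow, Real.logb_inv,
      Real.logb_self_eq_one (by norm_num)]
    ring
  rwa [h2] at h1

lemma lam_pow' {n : ℕ} {l : ℝ} (h : (1 / 2) ^ n ≤ l) : lam l ≤ n := by
  have h1 := lam_anti (by positivity) h
  have h2 : lam ((1 / 2) ^ n) = n := by
    unfold lam
    rw [one_div, one_div, Real.logb_inv, Real.logb_pow, Real.logb_inv,
      Real.logb_self_eq_one (by norm_num)]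
    ring
  rwa [h2] at h1

variable {W : WS} {x : ℚ}

/-- the roof is cheaper than the ray -/
lemma roof_le_ray {N e D l : ℝ} (hl : 0 < l) (hN : 0 < N) (hlN : lam l + 1 ≤ N) (hD : 0 ≤ D) :
    en (Rf e (e + l) l) ≤ rayE N e D l := by
  unfold en rayE
  have hsub : Rf e (e + l) l ⊆ RS e D l := by
    rintro z ⟨h1, h2, h3, h4⟩
    refine ⟨by linarith, h2.le, ?_⟩
    rw [abs_le]
    constructor <;> linarith
  refine le_trans (le_of_eq ?_) (lintegral_mono_set hsub)
  refine setLIntegral_congr_fun (meas_Rf _ _ _) fun z hz => ?_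
  obtain ⟨h1, h2, -, -⟩ := hz
  have hb : bet N z.re = 1 := by
    unfold bet
    have h3 : Real.logb 2 (1 / z.re) ≤ N := by
      refine le_trans ?_ hlN
      have h4 : Real.logb 2 (1 / z.re) ≤ Real.logb 2 (1 / l * 2) := by
        apply Real.logb_le_logb_of_le (by norm_num) (by have : 0 < z.re := by linarith
                                                        positivity)
        rw [div_mul_eq_mul_div, one_mul, div_le_div_iff₀ (by linarith) hl]
        linarith
      rw [Real.logb_mul (by positivity) (by norm_num), Real.logb_self_eq_one (by norm_num)] at h4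
      exact h4
    rw [max_eq_left (by rw [div_le_one hN]; exact h3), Real.one_rpow]
  show ENNReal.ofReal (‖deriv cOf z‖ ^ 2) = ENNReal.ofReal (‖deriv cOf z‖ ^ 2 / bet N z.re)
  rw [hb, div_one]

/-- same component and same rational: same root -/
lemma rt_eq_of_same {W W' : WS} {x x' : ℚ} (hW : W.Ok) (hW' : W'.Ok) (h : WS.Same W W')
    (hx : x = x') (h0 : 0 < x) (h1 : x < 1) : rt (W.dat x) = rt (W'.dat x') := by
  subst hx
  unfold rt
  rw [WS.dat_c hW h0 h1, WS.dat_c hW' h0 h1, WS.dat_a hW h0 h1, WS.dat_a hW' h0 h1]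
  refine h.2 _ ?_
  have hm : (0 : ℝ) < W.m := by exact_mod_cast hW.wide.pos
  have hx0 : (0 : ℝ) < x := by exact_mod_cast h0
  have hx1 : (x : ℝ) < 1 := by exact_mod_cast h1
  have hpi := Real.two_pi_pos
  refine ⟨?_, ?_, ?_⟩
  · rw [LimbData.axisPt_im]; positivity
  · rw [LimbData.axisPt_im]; nlinarith
  · rw [LimbData.axisPt_re]
    unfold Pri.hgt
    have h3 : 0 < min (axisPt x).im (2 * Real.pi - (axisPt x).im) := by
      rw [LimbData.axisPt_im]
      exact lt_min (by positivity) (by nlinarith)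
    positivity

/-- the hypotheses on a family of different roots with denominators at least `3` -/
def RFam {ι : Type} (F : Finset ι) (W : ι → WS) (x : ι → ℚ) : Prop :=
  (∀ i ∈ F, (W i).Ok ∧ 0 < x i ∧ x i < 1 ∧ 3 ≤ (x i).den) ∧
    ∀ i ∈ F, ∀ j ∈ F, i ≠ j → rt ((W i).dat (x i)) ≠ rt ((W j).dat (x j))

/-- the length of the plateau -/
noncomputable def ln (W : WS) (x : ℚ) : ℝ := (W.dat x).tp - (W.dat x).tm

/-- the family of the left ends is admissible -/
lemma fam_left {ι : Type} {F : Finset ι} {W : ι → WS} {x : ι → ℚ} (h : RFam F W x)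
    (hbig : ∀ i ∈ F, 10 ≤ lam (ln (W i) (x i))) (e : ι → ℝ)
    (he : (∀ i ∈ F, ∃ k : ℤ, ((W i).dat (x i)).tm = e i + k) ∨
      (∀ i ∈ F, ∃ k : ℤ, ((W i).dat (x i)).tp = e i + k)) :
    Fam F (fun i => ln (W i) (x i)) (fun i => ((W i).m * (x i).den : ℝ))
      (fun i => DD (W i).m (x i).den) e where
  pos := fun i hi => len_pos (h.1 i hi).1 (h.1 i hi).2.1 (h.1 i hi).2.2.1
  big := hbig
  n0 := fun i hi => by
    have h1 : (0 : ℝ) < (W i).m := by exact_mod_cast (h.1 i hi).1.wide.pos
    have h2 : (0 : ℝ) < (x i).den := by exact_mod_cast (x i).pos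
    positivity
  n1 := fun i hi => by
    obtain ⟨hW, h0, h1, h3⟩ := h.1 i hi
    have h4 := lam_pow (len_pos hW h0 h1) (len_upper hW h0 h1)
    have h5 : ((W i).m * (x i).den : ℝ) ≤ 3 * (((W i).m * ((x i).den - 2) : ℕ) : ℝ) := by
      have : (W i).m * (x i).den ≤ 3 * ((W i).m * ((x i).den - 2)) := by
        rw [← mul_assoc, mul_comm 3, mul_assoc]
        exact Nat.mul_le_mul_left _ (by omega)
      exact_mod_cast this
    have h6 := hbig i hi
    simp only [ln] at h6 ⊢
    linarith
  D1 := fun i hi => DD_le_sq (h.1 i hi).1 (h.1 i hi).2.1 (h.1 i hi).2.2.1 (h.1 i hi).2.2.2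
  sep := fun i hi j hj hij => by
    obtain ⟨hW, h0, h1, h3⟩ := h.1 i hi
    obtain ⟨hW', h0', h1', h3'⟩ := h.1 j hj
    have hP := WS.dat_par hW h0 h1
    have hC := WS.dat_cir hW h0 h1
    have hP' := WS.dat_par hW' h0' h1'
    have hC' := WS.dat_cir hW' h0' h1'
    have hx := WS.dat_x hW h0 h1
    have hx' := WS.dat_x hW' h0' h1'
    have hl := len_pos hW h0 h1
    have hl' := len_pos hW' h0' h1'
    have key := fun k : ℤ => far_or_double hP hC hP' hC' (by rw [hx]; exact h3)
      (by rw [hx']; exact h3') (h.2 i hi j hj hij) k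
    have hb := hbig i hi
    have hb' := hbig j hj
    simp only [ln] at hb hb' ⊢
    rcases he with he | he
    · obtain ⟨a, ha⟩ := he i hi
      obtain ⟨b, hb1⟩ := he j hj
      rcases key (a - b) with h4 | h4 | h4 | h4
      · left
        refine (min_le_right _ _).trans (le_trans ?_ (le_abs_self _))
        push_cast at h4
        linarith
      · left
        refine (min_le_left _ _).trans (le_trans ?_ (neg_le_abs _))
        push_cast at h4
        linarith
      · right; left
        exact lam_double hl hl' h4 hb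
      · right; right
        exact lam_double hl' hl h4 hb'
    · obtain ⟨a, ha⟩ := he i hi
      obtain ⟨b, hb1⟩ := he j hj
      rcases key (a - b) with h4 | h4 | h4 | h4
      · left
        refine (min_le_left _ _).trans (le_trans ?_ (le_abs_self _))
        push_cast at h4
        linarith
      · left
        refine (min_le_right _ _).trans (le_trans ?_ (neg_le_abs _))
        push_cast at h4
        linarith
      · right; left
        exact lam_double hl hl' h4 hb
      · right; right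
        exact lam_double hl' hl h4 hb'

/-- the sum of the ray energies of a family -/
lemma sum_rays (hE : C_energy) {ι : Type} {F : Finset ι} {W : ι → WS} {x : ι → ℚ}
    (h : RFam F W x) (hbig : ∀ i ∈ F, 10 ≤ lam (ln (W i) (x i))) :
    ∑ i ∈ F, rayE (4 * (W i).m * (x i).den) ((W i).dat (x i)).tm (DD (W i).m (x i).den)
      (ln (W i) (x i)) ≤ ENNReal.ofReal (10 ^ 10) ∧
    ∑ i ∈ F, rayE (4 * (W i).m * (x i).den) ((W i).dat (x i)).tp (DD (W i).m (x i).den)
      (ln (W i) (x i)) ≤ ENNReal.ofReal (10 ^ 10) := by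
  have hK : ENNReal.ofReal (10 ^ 4) * en St ≤ ENNReal.ofReal (10 ^ 10) := by
    have h1 : en St ≤ 10 ^ 6 := hE
    refine (mul_le_mul' le_rfl h1).trans (le_of_eq ?_)
    have h2 : (10 : ℝ≥0∞) ^ 6 = ENNReal.ofReal (10 ^ 6) := by
      rw [ENNReal.ofReal_pow (by norm_num)]; norm_num
    rw [h2, ← ENNReal.ofReal_mul (by norm_num)]
    norm_num
  have main : ∀ e : ι → ℝ, ((∀ i ∈ F, ∃ k : ℤ, ((W i).dat (x i)).tm = e i + k) ∨
      (∀ i ∈ F, ∃ k : ℤ, ((W i).dat (x i)).tp = e i + k)) → (∀ i ∈ F, 0 ≤ e i ∧ e i < 1) →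
      ∑ i ∈ F, rayE (4 * (W i).m * (x i).den) (e i) (DD (W i).m (x i).den) (ln (W i) (x i)) ≤
        ENNReal.ofReal (10 ^ 10) := by
    intro e he he1
    have h1 := (fam_left h hbig e he).sum_ray he1
    refine le_trans (le_of_eq (Finset.sum_congr rfl fun i _ => ?_)) (h1.trans hK)
    rw [mul_assoc]
  have hfr : ∀ u : ℝ, u = Int.fract u + (⌊u⌋ : ℤ) := fun u => (Int.fract_add_floor u).symm
  constructor
  · refine le_trans (le_of_eq (Finset.sum_congr rfl fun i _ => ?_))
      (main (fun i => Int.fract ((W i).dat (x i)).tm) (Or.inl fun i _ => ⟨_, hfr _⟩)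
        fun i _ => ⟨Int.fract_nonneg _, Int.fract_lt_one _⟩)
    conv_lhs => rw [hfr ((W i).dat (x i)).tm]
    exact rayE_shift _ _ _ _ _
  · refine le_trans (le_of_eq (Finset.sum_congr rfl fun i _ => ?_))
      (main (fun i => Int.fract ((W i).dat (x i)).tp) (Or.inr fun i _ => ⟨_, hfr _⟩)
        fun i _ => ⟨Int.fract_nonneg _, Int.fract_lt_one _⟩)
    conv_lhs => rw [hfr ((W i).dat (x i)).tp]
    exact rayE_shift _ _ _ _ _

/-- one piece, normalised -/
lemma one_piece {C : ℝ} (hC : C_one C) (hW : W.Ok) (h0 : 0 < x) (h1 : x < 1) (h3 : 3 ≤ x.den) :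
    ENNReal.ofReal (diam (Lm (W.dat x)) ^ 2 / (W.m * x.den)) ≤ ENNReal.ofReal C *
      (2 * rayE (4 * W.m * x.den) (W.dat x).tm (DD W.m x.den) (ln W x) +
        rayE (4 * W.m * x.den) (W.dat x).tp (DD W.m x.den) (ln W x) +
        volume (HH W x) / x.den) := by
  have hm : (0 : ℝ) < W.m := by exact_mod_cast hW.wide.pos
  have hm1 : (1 : ℝ) ≤ W.m := by exact_mod_cast hW.wide.pos
  have hq : (0 : ℝ) < x.den := by exact_mod_cast x.pos
  have hq3 : (3 : ℝ) ≤ x.den := by exact_mod_cast h3
  have hl := len_pos hW h0 h1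
  have hle1 : ln W x ≤ 1 := by
    refine (len_upper hW h0 h1).trans (pow_le_one₀ (by norm_num) (by norm_num))
  have h4 := hC W hW x (ln W x) h0 h1 hle1 (by unfold ln; linarith) (DD_le_len hW h0 h1)
  have hlam : lam (ln W x) ≤ (W.m * x.den : ℕ) := lam_pow' (len_lower hW h0 h1)
  push_cast at hlam
  have hroof : en (Rf (W.dat x).tm (W.dat x).tp (ln W x)) ≤
      rayE (4 * W.m * x.den) (W.dat x).tm (DD W.m x.den) (ln W x) := by
    have h5 := roof_le_ray (N := 4 * W.m * x.den) (e := (W.dat x).tm) (D := DD W.m x.den)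
      (l := ln W x) hl (by positivity) (by nlinarith) (DD_pos _ _).le
    have e : (W.dat x).tm + ln W x = (W.dat x).tp := by unfold ln; ring
    rwa [e] at h5
  set R₁ := rayE (4 * W.m * x.den) (W.dat x).tm (DD W.m x.den) (ln W x) with hR₁
  set R₂ := rayE (4 * W.m * x.den) (W.dat x).tp (DD W.m x.den) (ln W x) with hR₂
  have e1 : ENNReal.ofReal (diam (Lm (W.dat x)) ^ 2 / (W.m * x.den)) =
      ENNReal.ofReal (1 / (W.m * x.den)) * ENNReal.ofReal (diam (Lm (W.dat x)) ^ 2) := by
    rw [← ENNReal.ofReal_mul (by positivity)]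
    congr 1; ring
  rw [e1]
  refine (mul_le_mul' le_rfl h4).trans ?_
  rw [mul_left_comm]
  refine mul_le_mul' le_rfl ?_
  unfold cutE
  rw [mul_add, mul_add]
  have f1 : ENNReal.ofReal (1 / (W.m * x.den)) * (ENNReal.ofReal (W.m * x.den) * (R₁ + R₂)) =
      R₁ + R₂ := by
    rw [← mul_assoc, ← ENNReal.ofReal_mul (by positivity), one_div,
      inv_mul_cancel₀ (by positivity), ENNReal.ofReal_one, one_mul]
  have f2 : ENNReal.ofReal (1 / (W.m * x.den)) * (ENNReal.ofReal W.m * volume (HH W x)) =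
      volume (HH W x) / x.den := by
    rw [← mul_assoc, ← ENNReal.ofReal_mul (by positivity)]
    have : (1 / (W.m * x.den) * W.m : ℝ) = (x.den : ℝ)⁻¹ := by field_simp
    rw [this, ENNReal.ofReal_inv_of_pos hq, ENNReal.ofReal_natCast, mul_comm, ← div_eq_mul_inv]
  have f3 : ENNReal.ofReal (1 / (W.m * x.den)) * en (Rf (W.dat x).tm (W.dat x).tp (ln W x)) ≤
      R₁ := by
    refine le_trans (mul_le_mul' ?_ hroof) (le_of_eq (one_mul _))
    rw [← ENNReal.ofReal_one]
    refine ENNReal.ofReal_le_ofReal ?_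
    rw [div_le_one (by positivity)]
    nlinarith
  rw [f1, f2]
  calc R₁ + R₂ + volume (HH W x) / x.den +
        ENNReal.ofReal (1 / (W.m * x.den)) * en (Rf (W.dat x).tm (W.dat x).tp (ln W x)) ≤
      R₁ + R₂ + volume (HH W x) / x.den + R₁ := add_le_add le_rfl f3
    _ = _ := by ring

/-- the sum over the small pieces -/
lemma sum_big (hE : C_energy) (hH : C_half) {C : ℝ} (hC0 : 0 ≤ C) (hC : C_one C)
    {ι : Type} {F : Finset ι} {W : ι → WS} {x : ι → ℚ}
    (h : RFam F W x) (hbig : ∀ i ∈ F, 10 ≤ lam (ln (W i) (x i))) :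
    ∑ i ∈ F, diam (Lm ((W i).dat (x i))) ^ 2 / ((W i).m * (x i).den) ≤ C * 10 ^ 11 := by
  have h1 : ENNReal.ofReal (∑ i ∈ F, diam (Lm ((W i).dat (x i))) ^ 2 / ((W i).m * (x i).den)) ≤
      ENNReal.ofReal (C * 10 ^ 11) := by
    rw [ENNReal.ofReal_sum_of_nonneg fun i _ => by positivity]
    refine (Finset.sum_le_sum fun i hi => one_piece hC (h.1 i hi).1 (h.1 i hi).2.1
      (h.1 i hi).2.2.1 (h.1 i hi).2.2.2).trans ?_
    rw [← Finset.mul_sum, Finset.sum_add_distrib, Finset.sum_add_distrib, ← Finset.mul_sum,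
      ENNReal.ofReal_mul hC0]
    refine mul_le_mul' le_rfl ?_
    obtain ⟨h2, h3⟩ := sum_rays hE h hbig
    have h4 := hH ι F W x (fun i hi => ⟨(h.1 i hi).1, (h.1 i hi).2.1, (h.1 i hi).2.2.1⟩) (by
      intro i hi G hG hGi
      refine le_trans ?_ (by norm_num : 1 ≤ 3)
      rw [Finset.card_le_one]
      intro a ha b hb
      by_contra hab
      obtain ⟨hWi, h0, h1, -⟩ := h.1 i hi
      have ea := rt_eq_of_same hWi (h.1 a (hG ha)).1 (hGi a ha).1 (hGi a ha).2 h0 h1
      have eb := rt_eq_of_same hWi (h.1 b (hG hb)).1 (hGi b hb).1 (hGi b hb).2 h0 h1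
      exact h.2 a (hG ha) b (hG hb) hab (ea.symm.trans eb))
    refine (add_le_add (add_le_add (mul_le_mul' le_rfl h2) h3) h4).trans ?_
    have e2 : (2 : ℝ≥0∞) = ENNReal.ofReal 2 := by norm_num
    have e6 : (10 : ℝ≥0∞) ^ 6 = ENNReal.ofReal (10 ^ 6) := by
      rw [ENNReal.ofReal_pow (by norm_num)]; norm_num
    rw [e2, e6, ← ENNReal.ofReal_mul (by norm_num), ← ENNReal.ofReal_add (by norm_num) (by norm_num),
      ← ENNReal.ofReal_add (by norm_num) (by norm_num)]
    exact ENNReal.ofReal_le_ofReal (by norm_num)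
  exact (ENNReal.ofReal_le_ofReal_iff (by positivity)).1 h1

/-- **LimbSum**: the sum over all roots with denominators at least `3` -/
theorem limbsum (hH : C_half) (hO : ∃ C : ℝ, 0 ≤ C ∧ C_one C) : ∃ C' : ℝ, C_limbsum C' := by
  classical
  obtain ⟨C, hC0, hC⟩ := hO
  obtain ⟨K, hK⟩ := small_card_ex 30
  refine ⟨C * 10 ^ 11 + K * diam MM ^ 2, fun ι F W x h h' => ?_⟩
  rw [← Finset.sum_filter_add_sum_filter_not F (fun i => 10 ≤ lam (ln (W i) (x i)))]
  refine add_le_add ?_ ?_
  · refine sum_big c_energy hH hC0 hC (F := F.filter fun i => 10 ≤ lam (ln (W i) (x i)))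
      ⟨fun i hi => h i (Finset.mem_filter.1 hi).1, fun i hi j hj hij =>
        h' i (Finset.mem_filter.1 hi).1 j (Finset.mem_filter.1 hj).1 hij⟩
      fun i hi => (Finset.mem_filter.1 hi).2
  · have hcard : (F.filter fun i => ¬ 10 ≤ lam (ln (W i) (x i))).card ≤ K := by
      refine hK ι _ W x ?_ fun i hi j hj hij =>
        h' i (Finset.mem_filter.1 hi).1 j (Finset.mem_filter.1 hj).1 hij
      intro i hi
      obtain ⟨hi1, hi2⟩ := Finset.mem_filter.1 hi
      obtain ⟨hW, h0, h1, h3⟩ := h i hi1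
      refine ⟨hW, h0, h1, h3, ?_⟩
      push Not at hi2
      have h4 := lam_pow (len_pos hW h0 h1) (len_upper hW h0 h1)
      have h5 : (((W i).m * ((x i).den - 2) : ℕ) : ℝ) < ((10 : ℕ) : ℝ) := by
        simp only [ln] at hi2
        push_cast at h4 ⊢
        linarith
      have h6 : (W i).m * ((x i).den - 2) < 10 := by exact_mod_cast h5
      have h7 : (W i).m * (x i).den ≤ 3 * ((W i).m * ((x i).den - 2)) := by
        rw [← mul_assoc, mul_comm 3, mul_assoc]
        exact Nat.mul_le_mul_left _ (by omega)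
      omega
    calc ∑ i ∈ F.filter (fun i => ¬ 10 ≤ lam (ln (W i) (x i))),
          diam (Lm ((W i).dat (x i))) ^ 2 / ((W i).m * (x i).den) ≤
        ∑ i ∈ F.filter (fun i => ¬ 10 ≤ lam (ln (W i) (x i))), diam MM ^ 2 := by
          refine Finset.sum_le_sum fun i hi => ?_
          obtain ⟨hW, h0, h1, h3⟩ := h i (Finset.mem_filter.1 hi).1
          have hm1 : (1 : ℝ) ≤ (W i).m := by exact_mod_cast hW.wide.pos
          have hq3 : (3 : ℝ) ≤ (x i).den := by exact_mod_cast h3
          refine (div_le_self (by positivity) (by nlinarith)).trans ?_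
          exact pow_le_pow_left₀ diam_nonneg (diam_mono (fun c hc => hc.1) isCompact_MM.isBounded) 2
      _ = (F.filter fun i => ¬ 10 ≤ lam (ln (W i) (x i))).card * diam MM ^ 2 := by
          rw [Finset.sum_const, nsmul_eq_mul]
      _ ≤ K * diam MM ^ 2 := by
          refine mul_le_mul_of_nonneg_right ?_ (by positivity)
          exact_mod_cast hcard

end Pool.Agent.Work.MLC.Cap
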