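import Pool.Agent.Work.MLC.CapU6

set_option autoImplicit false

/-! # Theorem V: the measure form of the sum over the limbs (helper6)

For every measure `μ`, for almost every `c` with `∑ 1 / (N r * μ (L r)) = ∞` (the sum over the roots
`r` with `c` in the limb `L r`), the Mandelbrot set is locally connected at `c`. -/

namespace Pool.Agent.Work.MLC.Cap

open Filter Topology Metric Set Complex MeasureTheory
open Pool.Agent.Work.MLC.Sat Pool.Agent.Work.MLC.Cnt
open scoped ENNReal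

/-- the measure form of a convergent sum -/
lemma pure_measure {α X : Type} [MeasurableSpace X] [Countable α] (μ : Measure X) (A : α → Set X)
    (hA : ∀ a, MeasurableSet (A a)) (d N : α → ℝ≥0∞) (hN : ∀ a, N a ≠ 0)
    (hs : ∑' a, d a / N a ≠ ⊤) :
    ∀ᵐ x ∂μ, ∀ δ : ℝ≥0∞, δ ≠ 0 → δ ≠ ⊤ → {a | x ∈ A a ∧ d a < δ}.Finite →
      ∑' a : {a // x ∈ A a}, 1 / (N a * μ (A a)) ≠ ⊤ := by
  classical
  set h : X → ℝ≥0∞ := fun x => ∑' a, (A a).indicator (fun _ => d a / (N a * μ (A a))) x with hh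
  have h1 : ∫⁻ x, h x ∂μ ≤ ∑' a, d a / N a := by
    rw [hh]
    simp only
    rw [lintegral_tsum fun a => (measurable_const.indicator (hA a)).aemeasurable]
    refine ENNReal.tsum_le_tsum fun a => ?_
    rw [lintegral_indicator (hA a), lintegral_const, Measure.restrict_apply_univ]
    rcases eq_or_ne (μ (A a)) 0 with h0 | h0
    · rw [h0]; simp
    rcases eq_or_ne (μ (A a)) ⊤ with h2 | h2
    · rw [h2, ENNReal.mul_top (hN a), ENNReal.div_top, zero_mul]
      exact zero_le
    · rw [ENNReal.div_eq_inv_mul, ENNReal.div_eq_inv_mul,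
        ENNReal.mul_inv (Or.inl (hN a)) (Or.inr h0)]
      have h3 : (N a)⁻¹ * (μ (A a))⁻¹ * d a * μ (A a) = (N a)⁻¹ * d a * ((μ (A a))⁻¹ * μ (A a)) := by
        ring
      rw [h3, ENNReal.inv_mul_cancel h0 h2, mul_one]
  have hmeas : Measurable h := Measurable.tsum fun a => measurable_const.indicator (hA a)
  have h2 : ∀ᵐ x ∂μ, h x < ⊤ := ae_lt_top hmeas (ne_top_of_le_ne_top hs h1)
  have h3 : ∀ᵐ x ∂μ, ∀ a, x ∈ A a → μ (A a) ≠ 0 := by
    rw [ae_all_iff]
    intro a
    rcases eq_or_ne (μ (A a)) 0 with h0 | h0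
    · have : ∀ᵐ x ∂μ, x ∉ A a := measure_eq_zero_iff_ae_notMem.1 h0
      filter_upwards [this] with x hx hxa
      exact absurd hxa hx
    · exact Eventually.of_forall fun x _ => h0
  filter_upwards [h2, h3] with x hx hx0 δ hδ hδt hfin
  set f : α → ℝ≥0∞ := fun a => (A a).indicator (fun _ => 1 / (N a * μ (A a))) x with hf
  have h4 : ∑' a : {a // x ∈ A a}, 1 / (N a * μ (A a)) = ∑' a, f a := by
    have h5 := tsum_subtype {a | x ∈ A a} fun a => 1 / (N a * μ (A a))
    refine (h5.trans (tsum_congr fun a => ?_) :)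
    rw [hf]
    by_cases hxa : x ∈ A a
    · simp [indicator, hxa]
    · simp [indicator, hxa]
  have hft : ∀ a, f a ≠ ⊤ := by
    intro a
    rw [hf]
    by_cases hxa : x ∈ A a
    · simp only [indicator_of_mem hxa]
      exact ENNReal.div_ne_top ENNReal.one_ne_top (mul_ne_zero (hN a) (hx0 a hxa))
    · simp only [indicator_of_notMem hxa]
      exact ENNReal.zero_ne_top
  have hle : ∀ a, f a ≤ (if a ∈ hfin.toFinset then f a else 0) +
      δ⁻¹ * (A a).indicator (fun _ => d a / (N a * μ (A a))) x := by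
    intro a
    by_cases haF : a ∈ hfin.toFinset
    · rw [if_pos haF]; exact le_self_add
    · rw [if_neg haF, zero_add, hf]
      by_cases hxa : x ∈ A a
      · simp only [indicator_of_mem hxa]
        have h5 : δ ≤ d a := by
          by_contra hcon
          exact haF (hfin.mem_toFinset.2 ⟨hxa, not_le.1 hcon⟩)
        calc 1 / (N a * μ (A a)) = δ⁻¹ * (δ / (N a * μ (A a))) := by
              rw [ENNReal.div_eq_inv_mul, ENNReal.div_eq_inv_mul, mul_one, mul_left_comm,
                ENNReal.inv_mul_cancel hδ hδt, mul_one]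
          _ ≤ _ := mul_le_mul_right (ENNReal.div_le_div_right h5 _) _
      · simp only [indicator_of_notMem hxa]
        exact zero_le
  rw [h4]
  refine ne_top_of_le_ne_top ?_ (ENNReal.tsum_le_tsum hle)
  rw [ENNReal.tsum_add, ENNReal.tsum_mul_left]
  refine ENNReal.add_ne_top.2 ⟨?_, ENNReal.mul_ne_top (ENNReal.inv_ne_top.2 hδ) hx.ne⟩
  rw [tsum_eq_sum (s := hfin.toFinset) fun a ha => if_neg ha]
  refine (ENNReal.sum_lt_top.2 fun a ha => ?_).ne
  rw [if_pos ha]
  exact (hft a).lt_top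

/-- a root with denominator at least `3`; `N` is the period of the root times the denominator -/
def IsRt (N : ℕ) (r : ℂ) : Prop := ∃ n q : ℕ, 3 ≤ q ∧ IsRoot n q r ∧ N = n * q

/-- the limb -/
def LimS (r : ℂ) : Set ℂ := MM \ connectedComponentIn (MM \ {r}) 0

lemma LimS_eq (r : RT) : LimS r = insert (rt (rd r).D) (Lm (rd r).D) := by
  rw [← limb_eq (rd r).par (rd r).cir, rt_rd]
  rfl

lemma IsRt.mem {N : ℕ} {r : ℂ} (h : IsRt N r) : r ∈ RT := by
  obtain ⟨n, q, hq, h1, -⟩ := h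
  exact mem_RT hq h1

lemma IsRt.pos {N : ℕ} {r : ℂ} (h : IsRt N r) : 0 < N := by
  obtain ⟨n, q, hq, ⟨p, b, h1, -⟩, rfl⟩ := h
  exact Nat.mul_pos h1 (by omega)

/-- **Theorem V**: for every measure, the Mandelbrot set is locally connected at almost every `c`
such that the sum of `1 / (N r * μ (L r))` over the limbs which contain `c` is infinite -/
theorem limb_measure {C : ℝ} (h : C_limbsum C) (μ : Measure ℂ) (N : ℂ → ℕ)
    (hN : ∀ r, (∃ k, IsRt k r) → IsRt (N r) r) :
    ∀ᵐ c ∂μ, c ∈ MM →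
      ∑' r : {r : ℂ // (∃ k, IsRt k r) ∧ c ∈ LimS r}, 1 / ((N r : ℝ≥0∞) * μ (LimS r)) = ⊤ →
      LCat MM c := by
  classical
  set α : Type := {r : ℂ // ∃ k, IsRt k r} with hα
  have hmem : ∀ r : α, (r : ℂ) ∈ RT := fun r => r.2.choose_spec.mem
  have hcount : Countable α := by
    have := countable_RT.to_subtype
    exact Function.Injective.countable (f := fun r : α => (⟨r, hmem r⟩ : RT))
      fun r r' h => Subtype.ext (congrArg (fun z : RT => (z : ℂ)) h)
  have hpos : ∀ r : α, 0 < N r := fun r => (hN r r.2).pos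
  have hcpt : ∀ r : α, IsCompact (LimS r) := fun r => by
    have := isCompact_limb (rd ⟨r, hmem r⟩).par (rd ⟨r, hmem r⟩).cir
    rwa [← LimS_eq ⟨r, hmem r⟩] at this
  have hsum : ∑' r : α, ENNReal.ofReal (diam (LimS r) ^ 2) / (N r : ℝ≥0∞) ≠ ⊤ := by
    refine ne_top_of_le_ne_top (b := ENNReal.ofReal C) ENNReal.ofReal_ne_top ?_
    rw [ENNReal.tsum_eq_iSup_sum]
    refine iSup_le fun F => ?_
    have h1 := capI_sum h (F.image fun r : α => (r : ℂ)) N fun r hr => by
      obtain ⟨s, hs, rfl⟩ := Finset.mem_image.1 hr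
      obtain ⟨n, q, hq, h2, h3⟩ := hN s s.2
      exact ⟨n, q, hq, h2, h3⟩
    rw [Finset.sum_image fun a _ b _ hab => Subtype.ext hab] at h1
    refine le_trans (le_of_eq ?_) (ENNReal.ofReal_le_ofReal h1)
    rw [ENNReal.ofReal_sum_of_nonneg fun r _ => by positivity]
    refine Finset.sum_congr rfl fun r _ => ?_
    rw [ENNReal.ofReal_div_of_pos (by exact_mod_cast hpos r), ENNReal.ofReal_natCast]
    rfl
  have key := pure_measure μ (fun r : α => LimS r) (fun r => (hcpt r).measurableSet)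
    (fun r => ENNReal.ofReal (diam (LimS r) ^ 2)) (fun r => (N r : ℝ≥0∞))
    (fun r => by exact_mod_cast (hpos r).ne') hsum
  filter_upwards [key] with c hc hcM htop
  by_contra hL
  have h2 : ∃ δ > 0, ∀ r : α, c ∈ LimS r → c ≠ r → δ ≤ diam (LimS r) := by
    by_contra hcon
    push Not at hcon
    refine hL fun U hU => ?_
    obtain ⟨ε, hε, hεU⟩ := Metric.mem_nhds_iff.1 hU
    obtain ⟨r, hr1, hr2, hr3⟩ := hcon ε hε
    have hb : Bornology.IsBounded (LimS (r : ℂ)) := (hcpt r).isBounded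
    have he := LimS_eq ⟨r, hmem r⟩
    have h3 : c ∈ Lm (rd ⟨r, hmem r⟩).D := by
      have h4 := hr1
      rw [he] at h4
      rcases h4 with h5 | h5
      · rw [rt_rd] at h5; exact absurd h5 hr2
      · exact h5
    refine ⟨LimS r, fun z hz => ⟨hz.1, hεU ?_⟩, hcpt r, ⟨⟨c, hr1⟩, ?_⟩, ?_⟩
    · rw [mem_ball]
      exact (dist_le_diam_of_mem hb hz hr1).trans_lt hr3
    · rw [he]
      exact isPreconnected_limb (rd ⟨r, hmem r⟩).par (rd ⟨r, hmem r⟩).cir
    · rw [mem_nhdsWithin_iff_eventually, he]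
      filter_upwards [lm_open (rd ⟨r, hmem r⟩).par (rd ⟨r, hmem r⟩).cir h3] with w hw hwM
      exact Or.inr (hw hwM)
  obtain ⟨δ, hδ, hδr⟩ := h2
  have h3 : {r : α | c ∈ LimS r ∧ ENNReal.ofReal (diam (LimS r) ^ 2) < ENNReal.ofReal (δ ^ 2)}.Finite := by
    refine Set.Subsingleton.finite ?_
    have h4 : ∀ r : α, c ∈ LimS r ∧ ENNReal.ofReal (diam (LimS r) ^ 2) < ENNReal.ofReal (δ ^ 2) →
        (r : ℂ) = c := by
      rintro r ⟨hr1, hr2⟩
      by_contra hne
      have h5 := hδr r hr1 fun h => hne h.symm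
      exact absurd (ENNReal.ofReal_le_ofReal (pow_le_pow_left₀ hδ.le h5 2)) (not_le.2 hr2)
    intro r hr r' hr'
    exact Subtype.ext ((h4 r hr).trans (h4 r' hr').symm)
  refine hc (ENNReal.ofReal (δ ^ 2)) (ENNReal.ofReal_pos.2 (by positivity)).ne' ENNReal.ofReal_ne_top
    h3 ?_
  rw [← htop]
  exact (Equiv.subtypeSubtypeEquivSubtypeInter (fun r : ℂ => ∃ k, IsRt k r)
    (fun r => c ∈ LimS r)).tsum_eq fun r => 1 / ((N r : ℝ≥0∞) * μ (LimS r))

end Pool.Agent.Work.MLC.Cap
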