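import Pool.Agent.Work.MLC.CntA54
import Pool.Agent.Work.MLC.CntL54

set_option autoImplicit false

/-! # Nested characteristic arcs (helper50)

Two nested characteristic arcs of different periods with denominators at least `3`: if `(s', t')`
(period `N'`, denominator `q'`) is inside `(s, t)`, then `2 ^ ((q' - 2) N') (t' - s') ≤ t - s` and
`1 < 2 ^ (N' + 1) (t - s)`, hence `t' - s' ≤ 2 (t - s) ^ 2`. The proof is the two-cycle version of
the argument of helper54 with occupied gaps (`PerL54`). -/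

namespace Pool.Agent.Work.MLC

open Set Circ CircleDeg1Lift Filter Topology

namespace CA

variable {N q N' q' : ℕ} {w w' : ℕ → ℤ} {s t s' t' θ : ℝ}

/-- the `j`-th image of the arc contains a point of `X` -/
def OccX (X : Set ℝ) (w : ℕ → ℤ) (s t θ : ℝ) (j : ℕ) : Prop :=
  ∃ u ∈ X, gw w θ j s < u ∧ u < gw w θ j t

/-- `X` is closed under doubling modulo one and contains the cycle of `s` -/
structure XOk (N : ℕ) (s : ℝ) (X : Set ℝ) : Prop where
  dbl : ∀ u ∈ X, ∀ k : ℤ, 2 * u - k ∈ X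
  sub : ∀ i, AA N s i ⊆ X

variable {X : Set ℝ}

theorem occX_of_occ (hX : XOk N s X) {j : ℕ} (h : Occ N w s t θ j) : OccX X w s t θ j := by
  obtain ⟨i, u, hu, h1, h2⟩ := h
  exact ⟨u, hX.sub i hu, h1, h2⟩

theorem occX_succ {j : ℕ} (h : CA N q w s t) (hX : XOk N s X) (hj : NC w s t θ j)
    (ho : OccX X w s t θ j) : OccX X w s t θ (j + 1) := by
  obtain ⟨k, k1, k2⟩ := hj
  obtain ⟨u, hu, u1, u2⟩ := ho
  have hst := (h.gw_le (θ := θ) j).1
  refine ⟨2 * u - k, hX.dbl u hu k, ?_, ?_⟩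
  · rw [gw_succ_apply, tdbl_lin k (by linarith) (by linarith)]; linarith
  · rw [gw_succ_apply, tdbl_lin k (by linarith) (by linarith)]; linarith

/-- propagation inside a block -/
theorem occX_phase (h : CA N q w s t) (hX : XOk N s X) (h1 : s < θ) (h2 : θ < t) {σ p : ℕ} (d : ℕ)
    (hd : p + d < N) (ho : OccX X w s t θ (p + N * σ)) : OccX X w s t θ (p + d + N * σ) := by
  induction d with
  | zero => exact ho
  | succ d ih =>
    have ih' := ih (by omega)
    rw [show p + (d + 1) + N * σ = (p + d + N * σ) + 1 by ring]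
    by_cases hn : NC w s t θ (p + d + N * σ)
    · exact h.occX_succ hX hn ih'
    · refine occX_of_occ hX (h.occ_crit h1 h2 hn ?_).2
      rw [show p + d + N * σ + 1 = (p + d + 1) + N * σ by ring, Nat.add_mul_mod_self_left,
        Nat.mod_eq_of_lt (by omega)]
      omega

/-- next block -/
theorem occX_block (h : CA N q w s t) (hX : XOk N s X) (h1 : s < θ) (h2 : θ < t) {σ p : ℕ}
    (hp : p < N) (hσ : σ + 1 < q) (ho : OccX X w s t θ (p + N * σ)) {k : ℕ} (hk : k < N) :
    OccX X w s t θ (k + N * (σ + 1)) := by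
  have h3 := h.occX_phase hX h1 h2 (N - 1 - p) (by omega) ho
  have e : p + (N - 1 - p) + N * σ + 1 = N * (σ + 1) := by
    have : p + (N - 1 - p) + 1 = N := by omega
    calc p + (N - 1 - p) + N * σ + 1 = (p + (N - 1 - p) + 1) + N * σ := by ring
      _ = N * (σ + 1) := by rw [this]; ring
  have h4 := h.occX_succ hX (h.nc_last h1 h2 hσ e) h3
  rw [e] at h4
  have h5 := h.occX_phase hX h1 h2 (σ := σ + 1) (p := 0) k (by omega) (by rwa [Nat.zero_add])
  rwa [Nat.zero_add] at h5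

/-- **a short occupied gap**: if a gap `(a, b)` of a polygon `B` contains a point of phase `k` and
all occupied gaps of phase `k` are at least as long, then phase `k` has at most one occupied gap -/
theorem phase_of_short (h : CA N q w s t) (h1 : s < θ) (h2 : θ < t) {B : Set ℝ}
    (hB : ∀ u ∈ B, ∀ l : ℤ, u + l ∈ B) {a b u : ℝ} (ha : a ∈ B) (hb : b ∈ B) (hab2 : b ≤ a + 1)
    {k : ℕ} (hik : k < N) (huk : u ∈ AA N s k) (u1 : a < u) (u2 : u < b)
    (hnl : ¬ Pool.Agent.MLC.Linked (AA N s k) B) (hnl' : ¬ Pool.Agent.MLC.Linked B (AA N s k))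
    (hmin : ∀ σ, σ < q → OccX X w s t θ (k + N * σ) →
      b - a ≤ gw w θ (k + N * σ) t - gw w θ (k + N * σ) s) :
    ∀ σ, σ + 1 < q → OccX X w s t θ (k + N * σ) → OccX X w s t θ (k + N * (σ + 1)) → False := by
  have hdis : ∀ v ∈ AA N s k, v ∉ B := fun v hv hv' =>
    hnl ⟨v, hv, v, hv', v, hv, v, hv', le_rfl, le_rfl, le_rfl, by linarith⟩
  have key : ∀ σ, σ < q → OccX X w s t θ (k + N * σ) →
      ∃ l : ℤ, gw w θ (k + N * σ) s < a + l ∧ a + l < gw w θ (k + N * σ) t := by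
    intro σ hσ hoc
    have hcA : gw w θ (k + N * σ) s ∈ AA N s k := by
      have := (h.gw_pt h1 h2 (x := s) mem0 (k + N * σ)).1
      rwa [AA_congr h.per] at this
    have hdA : gw w θ (k + N * σ) t ∈ AA N s k := by
      have := (h.gw_pt h1 h2 h.mem (k + N * σ)).1
      rwa [AA_congr h.per] at this
    have hlen : b - a ≤ gw w θ (k + N * σ) t - gw w θ (k + N * σ) s := hmin σ hσ hoc
    obtain ⟨hcd1, hcd2⟩ := h.gw_le (θ := θ) (k + N * σ)
    set c := gw w θ (k + N * σ) s with hc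
    set d := gw w θ (k + N * σ) t with hd
    set l : ℤ := -⌊c - a⌋ with hl
    have l1 : a ≤ c + l := by
      have := Int.floor_le (c - a); rw [hl]; push_cast; linarith
    have l2 : c + l < a + 1 := by
      have := Int.lt_floor_add_one (c - a); rw [hl]; push_cast; linarith
    have hcl : c + l ∈ AA N s k := AA_shift hcA l
    have hdl : d + l ∈ AA N s k := AA_shift hdA l
    have l3 : a < c + l := lt_of_le_of_ne l1 fun he => hdis _ hcl (he ▸ ha)
    have l4 : c + l < b := by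
      by_contra hcon
      push Not at hcon
      refine hnl ⟨u, huk, b, hb, c + l, hcl, a + ((1 : ℤ) : ℝ), hB a ha 1, u2.le, hcon, ?_, ?_⟩
      · push_cast; linarith
      · push_cast; linarith
    refine ⟨1 - l, ?_, ?_⟩
    · push_cast; linarith
    · by_contra hcon
      push Not at hcon
      push_cast at hcon
      have l5 : b ≤ d + l := by
        by_contra h7
        push Not at h7
        linarith
      exact hnl' ⟨a, ha, c + l, hcl, b, hb, d + l, hdl, l3.le, l4.le, l5, by linarith⟩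
  intro σ hσ o1 o2
  obtain ⟨l, a1, a2⟩ := key σ (by omega) o1
  obtain ⟨l', b1, b2⟩ := key (σ + 1) hσ o2
  have hAk : ∀ σ, AA N s (k + N * σ) = AA N s k := fun σ => AA_congr h.per k σ
  have hc1 := (h.gw_pt h1 h2 (x := s) mem0 (k + N * σ)).1
  have hc2 := (h.gw_pt h1 h2 (x := s) mem0 (k + N * (σ + 1))).1
  rw [hAk] at hc1 hc2
  have he1 : gw w θ (k + N * (σ + 1)) s + ((l - l' : ℤ) : ℝ) ≤ gw w θ (k + N * σ) s := by
    by_contra hcon
    push Not at hcon
    refine h.gap h1 h2 (k + N * σ) _ ?_ hcon ?_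
    · rw [hAk]; exact AA_shift hc2 _
    · push_cast; linarith
  have he2 : gw w θ (k + N * σ) s + ((l' - l : ℤ) : ℝ) ≤ gw w θ (k + N * (σ + 1)) s := by
    by_contra hcon
    push Not at hcon
    refine h.gap h1 h2 (k + N * (σ + 1)) _ ?_ hcon ?_
    · rw [hAk]; exact AA_shift hc1 _
    · push_cast; linarith
  obtain ⟨m, hm⟩ := h.gw_pt_eq h1 h2 (x := s) mem0 (k + N * σ)
  obtain ⟨m', hm'⟩ := h.gw_pt_eq h1 h2 (x := s) mem0 (k + N * (σ + 1))
  have he3 : (2 : ℝ) ^ (k + N * (σ + 1)) * s = 2 ^ (k + N * σ) * s + ((m - m' + l' - l : ℤ) : ℝ) := by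
    rw [hm, hm'] at he1 he2
    push_cast at he1 he2 ⊢
    linarith
  have hx0 : (2 : ℝ) ^ (N * (σ + 1)) * s ∈ AA N s 0 := ⟨σ + 1, 0, by simp⟩
  have he4 : (2 : ℝ) ^ N * (2 ^ (N * (σ + 1)) * s) = 2 ^ (N * (σ + 1)) * s +
      ((2 ^ (N - k) * (m - m' + l' - l) : ℤ) : ℝ) := by
    have e5 : (2 : ℝ) ^ N * (2 ^ (N * (σ + 1)) * s) = 2 ^ (N - k) * (2 ^ (k + N * (σ + 1)) * s) := by
      rw [← mul_assoc, ← mul_assoc, ← pow_add, ← pow_add]
      congr 2
      omega
    have e6 : (2 : ℝ) ^ (N - k) * (2 ^ (k + N * σ) * s) = 2 ^ (N * (σ + 1)) * s := by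
      rw [← mul_assoc, ← pow_add]
      congr 2
      have : N - k + (k + N * σ) = N + N * σ := by omega
      rw [this]; ring
    rw [e5, he3, mul_add, e6]
    push_cast; ring
  have hdvd := h.dvd_of_per hx0 he4
  have hle := Nat.le_of_dvd h.pos hdvd
  have : N * 2 ≤ N * q := Nat.mul_le_mul_left N h.two
  have := h.pos
  omega

/-! ### two cycles -/

/-- linked classes of two cycles: one step -/
theorem linked_step3 {x y : ℝ} (hb : ∀ i, w i = 0 ∨ w i = 1) (hb' : ∀ i, w' i = 0 ∨ w' i = 1)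
    (hw : ∀ i, w (i + N) = w i) (hw' : ∀ i, w' (i + N') = w' i) (hx : Compat x θ w)
    (hy : Compat y θ w') {i j : ℕ} (h : Pool.Agent.MLC.Linked (AA N x i) (AA N' y j)) :
    w i = w' j ∧ Pool.Agent.MLC.Linked (AA N x (i + 1)) (AA N' y (j + 1)) := by
  obtain ⟨a, ha, b, hb1, c, hc, d, hd, h1, h2, h3, h4⟩ := h
  have hX := inHalf_of_compat hw hx i
  have hY := inHalf_of_compat hw' hy j
  obtain ⟨ka, ea, a1, a2⟩ := tdbl_of_inHalf hX ha
  obtain ⟨kb, eb, b1, b2⟩ := tdbl_of_inHalf hY hb1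
  obtain ⟨kc, ec, c1, c2⟩ := tdbl_of_inHalf hX hc
  obtain ⟨kd, ed, d1, d2⟩ := tdbl_of_inHalf hY hd
  have hwij : w i = w' j := by
    by_contra hne
    have key : ∀ (u v : ℤ) (p r : ℝ) (ep er : ℤ), (ep = 0 ∨ ep = 1) → (er = 0 ∨ er = 1) →
        (θ + ep) / 2 + u < p → p < (θ + ep) / 2 + u + 1 / 2 → (θ + er) / 2 + v < r →
        r < (θ + er) / 2 + v + 1 / 2 → p ≤ r → ep + 2 * u ≤ er + 2 * v := by
      intro u v p r ep er _ _ h1 h2 h3 h4 h5
      have : ((ep + 2 * u : ℤ) : ℝ) < ((er + 2 * v + 1 : ℤ) : ℝ) := by push_cast; linarith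
      have h6 : ep + 2 * u < er + 2 * v + 1 := by exact_mod_cast this
      omega
    have hbi := hb i
    have hbj := hb' j
    have k1 := key ka kb a b _ _ (hb i) (hb' j) a1 a2 b1 b2 h1
    have k2 := key kb kc b c _ _ (hb' j) (hb i) b1 b2 c1 c2 h2
    have k3 := key kc kd c d _ _ (hb i) (hb' j) c1 c2 d1 d2 h3
    have k4 := key kd (ka + 1) d (a + 1) _ _ (hb' j) (hb i) d1 d2 (by push_cast; linarith)
      (by push_cast; linarith) h4
    omega
  refine ⟨hwij, 2 * a - ka, AA_dbl' ha ka, 2 * b - kb, AA_dbl' hb1 kb, 2 * c - kc, AA_dbl' hc kc,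
    2 * d - kd, AA_dbl' hd kd, ?_, ?_, ?_, ?_⟩
  · rw [← ea, ← eb, hwij]; exact (tdbl _).monotone h1
  · rw [← eb, ← ec, hwij]; exact (tdbl _).monotone h2
  · rw [← ec, ← ed, hwij]; exact (tdbl _).monotone h3
  · rw [← ed, ← ea, hwij, ← map_add_one]; exact (tdbl _).monotone h4

/-- linked classes: the words agree -/
theorem linked_word3 {x y : ℝ} (hb : ∀ i, w i = 0 ∨ w i = 1) (hb' : ∀ i, w' i = 0 ∨ w' i = 1)
    (hw : ∀ i, w (i + N) = w i) (hw' : ∀ i, w' (i + N') = w' i) (hx : Compat x θ w)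
    (hy : Compat y θ w') {i j : ℕ} (h : Pool.Agent.MLC.Linked (AA N x i) (AA N' y j)) (r : ℕ) :
    w (i + r) = w' (j + r) := by
  have key : ∀ r, Pool.Agent.MLC.Linked (AA N x (i + r)) (AA N' y (j + r)) := by
    intro r
    induction r with
    | zero => exact h
    | succ r ih => exact (linked_step3 hb hb' hw hw' hx hy ih).2
  exact (linked_step3 hb hb' hw hw' hx hy (key r)).1

theorem dvd_of_words (hN : 0 < N) (hw : Word N w) (hw' : Word N' w') {i j : ℕ}
    (h : ∀ r, w (i + r) = w' (j + r)) : N ∣ N' := by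
  have h1 : (i + N') % N = i % N := by
    refine mod_eq_of_word hN hw fun r => ?_
    rw [h r, show i + N' + r = i + (N' + r) by ring, h (N' + r),
      show j + (N' + r) = j + r + N' by ring, hw'.2.1]
  have h2 : (N' + i) % N = (0 + i) % N := by rwa [add_comm N' i, Nat.zero_add]
  have h3 : N' ≡ 0 [MOD N] := Nat.ModEq.add_right_cancel' i h2
  exact (Nat.modEq_zero_iff_dvd).1 h3

/-- different periods: unlinked -/
theorem not_linked3 (hN : 0 < N) (hN' : 0 < N') (hne : N ≠ N') (hw : Word N w) (hw' : Word N' w')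
    {x y : ℝ} (hx : Compat x θ w) (hy : Compat y θ w') (i j : ℕ) :
    ¬ Pool.Agent.MLC.Linked (AA N x i) (AA N' y j) := by
  intro h
  have h1 := linked_word3 hw.1 hw'.1 hw.2.1 hw'.2.1 hx hy h
  exact hne (Nat.dvd_antisymm (dvd_of_words hN hw hw' h1)
    (dvd_of_words hN' hw' hw fun r => (h1 r).symm))

/-- the points of both cycles -/
def XX (N N' : ℕ) (s s' : ℝ) : Set ℝ := {u | ∃ i, u ∈ AA N s i} ∪ {u | ∃ i, u ∈ AA N' s' i}

theorem xOk_left : XOk N s (XX N N' s s') := by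
  refine ⟨?_, fun i u hu => Or.inl ⟨i, hu⟩⟩
  rintro u (⟨i, hu⟩ | ⟨i, hu⟩) k
  · exact Or.inl ⟨i + 1, AA_dbl' hu k⟩
  · exact Or.inr ⟨i + 1, AA_dbl' hu k⟩

theorem xOk_right : XOk N' s' (XX N N' s s') := by
  refine ⟨?_, fun i u hu => Or.inr ⟨i, hu⟩⟩
  rintro u (⟨i, hu⟩ | ⟨i, hu⟩) k
  · exact Or.inl ⟨i + 1, AA_dbl' hu k⟩
  · exact Or.inr ⟨i + 1, AA_dbl' hu k⟩

/-- the phase `k` has at most one occupied gap -/
def One (X : Set ℝ) (N q : ℕ) (w : ℕ → ℤ) (s t θ : ℝ) (k : ℕ) : Prop :=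
  ∀ σ, σ + 1 < q → OccX X w s t θ (k + N * σ) → OccX X w s t θ (k + N * (σ + 1)) → False

/-- the consequences of a shortest occupied gap (of the first cycle) -/
theorem one_of_min (h : CA N q w s t) (h' : CA N' q' w' s' t') (hne : N ≠ N') (h1 : s < θ)
    (h2 : θ < t) (h1' : s' < θ) (h2' : θ < t') {X : Set ℝ} (hX : XOk N s X) (hX' : XOk N' s' X)
    (hXs : X ⊆ XX N N' s s')
    {j₀ : ℕ} (ho : OccX X w s t θ j₀)
    (hmin : ∀ j < N * q, OccX X w s t θ j → gw w θ j₀ t - gw w θ j₀ s ≤ gw w θ j t - gw w θ j s)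
    (hmin' : ∀ j < N' * q', OccX X w' s' t' θ j →
      gw w θ j₀ t - gw w θ j₀ s ≤ gw w' θ j t' - gw w' θ j s') :
    (∃ k < N, One X N q w s t θ k) ∨ (∃ k < N', One X N' q' w' s' t' θ k) := by
  obtain ⟨u, hu, u1, u2⟩ := ho
  have haA := (h.gw_pt h1 h2 (x := s) mem0 j₀).1
  have hbA := (h.gw_pt h1 h2 h.mem j₀).1
  have hcθ := h.compat θ h1 h2
  have hcθ' := h'.compat θ h1' h2'
  have hB : ∀ v ∈ AA N s j₀, ∀ l : ℤ, v + l ∈ AA N s j₀ := fun v hv l => AA_shift hv l
  have hidx : ∀ {N q k σ : ℕ}, k < N → σ < q → k + N * σ < N * q := by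
    intro N q k σ hk hσ
    calc k + N * σ < N + N * σ := by omega
      _ = N * (σ + 1) := by ring
      _ ≤ N * q := Nat.mul_le_mul_left N hσ
  rcases hXs hu with ⟨i, hi⟩ | ⟨i, hi⟩
  · left
    have hik : i % N < N := Nat.mod_lt _ h.pos
    have huk : u ∈ AA N s (i % N) := by rw [← AA_mod h.per]; exact hi
    have hnk : (i % N) % N ≠ j₀ % N := by
      intro he
      refine h.gap h1 h2 j₀ u ?_ u1 u2
      rw [AA_mod h.per, ← he, ← AA_mod h.per]; exact huk
    refine ⟨i % N, hik, h.phase_of_short h1 h2 hB haA hbA (h.gw_le (θ := θ) j₀).2 hik huk u1 u2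
      (not_linked h.pos h.word hcθ hcθ hnk) (not_linked h.pos h.word hcθ hcθ (Ne.symm hnk)) ?_⟩
    intro σ hσ hoc
    exact hmin _ (hidx hik hσ) hoc
  · right
    have hik : i % N' < N' := Nat.mod_lt _ h'.pos
    have huk : u ∈ AA N' s' (i % N') := by rw [← AA_mod h'.per]; exact hi
    refine ⟨i % N', hik, h'.phase_of_short h1' h2' hB haA hbA (h.gw_le (θ := θ) j₀).2 hik huk
      u1 u2 (not_linked3 h'.pos h.pos (Ne.symm hne) h'.word h.word hcθ' hcθ _ _)
      (not_linked3 h.pos h'.pos hne h.word h'.word hcθ hcθ' _ _) ?_⟩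
    intro σ hσ hoc
    exact hmin' _ (hidx hik hσ) hoc

theorem XX_comm : XX N N' s s' = XX N' N s' s := by
  unfold XX
  exact Set.union_comm _ _

/-- **one of the two cycles has a phase with at most one occupied gap** -/
theorem exists_one (h : CA N q w s t) (h' : CA N' q' w' s' t') (hne : N ≠ N') (h1 : s < θ)
    (h2 : θ < t) (h1' : s' < θ) (h2' : θ < t') (ho : OccX (XX N N' s s') w s t θ 0) :
    (∃ k < N, One (XX N N' s s') N q w s t θ k) ∨
      (∃ k < N', One (XX N N' s s') N' q' w' s' t' θ k) := by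
  classical
  set X := XX N N' s s' with hX
  obtain ⟨j₀, hj₀, hm₀⟩ := Finset.exists_min_image ((Finset.range (N * q)).filter
    fun j => OccX X w s t θ j) (fun j => gw w θ j t - gw w θ j s)
    ⟨0, Finset.mem_filter.2 ⟨Finset.mem_range.2 h.npos, ho⟩⟩
  have hm : ∀ j < N * q, OccX X w s t θ j →
      gw w θ j₀ t - gw w θ j₀ s ≤ gw w θ j t - gw w θ j s := fun j hj hoj =>
    hm₀ j (Finset.mem_filter.2 ⟨Finset.mem_range.2 hj, hoj⟩)
  have ho₀ := (Finset.mem_filter.1 hj₀).2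
  rcases ((Finset.range (N' * q')).filter fun j => OccX X w' s' t' θ j).eq_empty_or_nonempty with
    he | hne'
  · refine one_of_min h h' hne h1 h2 h1' h2' xOk_left xOk_right subset_rfl ho₀ hm ?_
    intro j hj hoj
    have : j ∈ (Finset.range (N' * q')).filter fun j => OccX X w' s' t' θ j :=
      Finset.mem_filter.2 ⟨Finset.mem_range.2 hj, hoj⟩
    rw [he] at this
    exact absurd this (Finset.notMem_empty _)
  obtain ⟨j₁, hj₁, hm₁⟩ := Finset.exists_min_image _ (fun j => gw w' θ j t' - gw w' θ j s') hne'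
  have hm' : ∀ j < N' * q', OccX X w' s' t' θ j →
      gw w' θ j₁ t' - gw w' θ j₁ s' ≤ gw w' θ j t' - gw w' θ j s' := fun j hj hoj =>
    hm₁ j (Finset.mem_filter.2 ⟨Finset.mem_range.2 hj, hoj⟩)
  have ho₁ := (Finset.mem_filter.1 hj₁).2
  rcases le_total (gw w θ j₀ t - gw w θ j₀ s) (gw w' θ j₁ t' - gw w' θ j₁ s') with hle | hle
  · exact one_of_min h h' hne h1 h2 h1' h2' xOk_left xOk_right subset_rfl ho₀ hm
      fun j hj hoj => hle.trans (hm' j hj hoj)
  · have := one_of_min h' h hne.symm h1' h2' h1 h2 (X := X) xOk_right xOk_left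
      (by rw [hX, XX_comm]) ho₁ hm' fun j hj hoj => hle.trans (hm j hj hoj)
    exact this.symm

/-- **nested arcs**: the relative length of the inner arc -/
theorem nested_len (h : CA N q w s t) (h' : CA N' q' w' s' t') (hne : N ≠ N') (hq : 3 ≤ q)
    (hs : s < s') (ht : t' < t) : (2 : ℝ) ^ ((q' - 2) * N') * (t' - s') ≤ t - s := by
  have hst' := h'.lt
  set θ : ℝ := (s' + t') / 2 with hθ
  have h1' : s' < θ := by rw [hθ]; linarith
  have h2' : θ < t' := by rw [hθ]; linarith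
  have h1 : s < θ := hs.trans h1'
  have h2 : θ < t := h2'.trans ht
  have ho : OccX (XX N N' s s') w s t θ 0 := by
    refine ⟨s', Or.inr ⟨0, mem0⟩, ?_, ?_⟩
    · simpa using hs
    · simpa using hst'.trans ht
  have hq2 := h'.two
  have hcθ := h.compat θ h1 h2
  have hcθ' := h'.compat θ h1' h2'
  obtain ⟨k, hk, hone⟩ : ∃ k < N', One (XX N N' s s') N' q' w' s' t' θ k := by
    rcases exists_one h h' hne h1 h2 h1' h2' ho with ⟨k, hk, hone⟩ | h3
    · exfalso
      have o0 : OccX (XX N N' s s') w s t θ (0 + N * 0) := by simpa using ho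
      have o1 := h.occX_block xOk_left h1 h2 h.pos (by omega : 0 + 1 < q) o0 hk
      have o2 := h.occX_block xOk_left h1 h2 hk (by omega : 1 + 1 < q) o1 hk
      exact hone 1 (by omega) o1 o2
    · exact h3
  -- the gap `q' - 2` of phase `0` is not occupied
  have hno : ¬ OccX (XX N N' s s') w' s' t' θ (0 + N' * (q' - 2)) := by
    intro o0
    have o1 := h'.occX_phase xOk_right h1' h2' k (by omega) o0
    rw [Nat.zero_add] at o1
    have o2 := h'.occX_block xOk_right h1' h2' hk (by omega : q' - 2 + 1 < q') o1 hk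
    exact hone (q' - 2) (by omega) o1 o2
  rw [Nat.zero_add] at hno
  obtain ⟨m, hm⟩ := h'.lin h1' h2' (i := (q' - 2) * N') le_rfl
  have hmc : (q' - 2) * N' = N' * (q' - 2) := mul_comm _ _
  have haA : gw w' θ (N' * (q' - 2)) s' ∈ AA N' s' 0 := by
    have := (h'.gw_pt h1' h2' (x := s') mem0 (N' * (q' - 2))).1
    have e := AA_congr h'.per 0 (q' - 2)
    rw [Nat.zero_add] at e
    rwa [e] at this
  have hlen : gw w' θ (N' * (q' - 2)) t' - gw w' θ (N' * (q' - 2)) s' =
      2 ^ ((q' - 2) * N') * (t' - s') := by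
    rw [← hmc, hm s' le_rfl hst'.le, hm t' hst'.le le_rfl]; ring
  have hpos : 0 < gw w' θ (N' * (q' - 2)) t' - gw w' θ (N' * (q' - 2)) s' := by
    rw [hlen]
    exact mul_pos (by positivity) (by linarith)
  rw [← hlen]
  set a := gw w' θ (N' * (q' - 2)) s' with ha
  set b := gw w' θ (N' * (q' - 2)) t' with hb
  have hnl := not_linked3 h.pos h'.pos hne h.word h'.word hcθ hcθ' 0 0
  set l : ℤ := ⌊a - s⌋ with hl
  have l1 : s + l ≤ a := by
    have := Int.floor_le (a - s); rw [hl]; linarith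
  have l2 : a < s + l + 1 := by
    have := Int.lt_floor_add_one (a - s); rw [hl]; linarith
  have htl := h.mem
  have h5 : a < t + l := by
    by_contra hcon
    push Not at hcon
    refine hnl ⟨s, mem0, s', mem0, t, htl, a + ((-l : ℤ) : ℝ), AA_shift haA _, hs.le, ?_, ?_, ?_⟩
    · linarith
    · push_cast; linarith
    · push_cast; linarith
  have h6 : b ≤ t + l := by
    by_contra hcon
    push Not at hcon
    exact hno ⟨t + l, Or.inl ⟨0, AA_shift htl l⟩, h5, hcon⟩
  linarith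

/-- **nested arcs**: the period of the inner arc is large -/
theorem nested_per (h : CA N q w s t) (h' : CA N' q' w' s' t') (hne : N ≠ N')
    (hs : s < s') (ht : t' < t) (hl : t - s ≤ 1 / 2) : 1 < (2 : ℝ) ^ (N' + 1) * (t - s) := by
  have hst' := h'.lt
  set θ : ℝ := (s' + t') / 2 with hθ
  have h1' : s' < θ := by rw [hθ]; linarith
  have h2' : θ < t' := by rw [hθ]; linarith
  have h1 : s < θ := hs.trans h1'
  have h2 : θ < t := h2'.trans ht
  have hcθ := h.compat θ h1 h2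
  have hcθ' := h'.compat θ h1' h2'
  have hnl := not_linked3 h.pos h'.pos hne h.word h'.word hcθ hcθ' 0 0
  have hlt := h.lt
  -- every point of phase `0` is in `(s, t)` modulo one
  have hin : ∀ a ∈ AA N' s' 0, ∃ l : ℤ, s < a + l ∧ a + l < t := by
    intro a ha
    set l : ℤ := -⌊a - s⌋ with hl
    have l1 : s ≤ a + l := by
      have := Int.floor_le (a - s); rw [hl]; push_cast; linarith
    have l2 : a + l < s + 1 := by
      have := Int.lt_floor_add_one (a - s); rw [hl]; push_cast; linarith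
    have hal : a + l ∈ AA N' s' 0 := AA_shift ha l
    refine ⟨l, lt_of_le_of_ne l1 fun he => ?_, ?_⟩
    · refine hnl ⟨s, mem0, a + l, hal, s, mem0, a + l, hal, l1, ?_, l1, l2.le⟩
      exact he.symm.le
    · by_contra hcon
      push Not at hcon
      exact hnl ⟨s, mem0, s', mem0, t, h.mem, a + l, hal, hs.le, by linarith, hcon, l2.le⟩
  by_contra hcon
  push Not at hcon
  have hcon' : (2 : ℝ) ^ N' * (t - s) ≤ 1 / 2 := by
    rw [pow_succ] at hcon; linarith
  have hp0 : (0 : ℝ) < 2 ^ N' := by positivity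
  -- differences grow
  have hgrow : ∀ n : ℕ, ∃ a ∈ AA N' s' 0, ∃ b ∈ AA N' s' 0, s < a ∧ a < t ∧ s < b ∧ b < t ∧
      b - a = (2 ^ N') ^ n * (t' - s') := by
    intro n
    induction n with
    | zero =>
      exact ⟨s', mem0, t', h'.mem, hs, hst'.trans ht, hs.trans hst', ht, by simp⟩
    | succ n ih =>
      obtain ⟨a, ha, b, hb, a1, a2, b1, b2, e⟩ := ih
      have hdbl : ∀ u ∈ AA N' s' 0, 2 ^ N' * u ∈ AA N' s' 0 := by
        rintro u ⟨m, k, rfl⟩
        refine ⟨m + 1, 2 ^ N' * k, ?_⟩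
        rw [Nat.zero_add, Nat.zero_add, show N' * (m + 1) = N' + N' * m by ring, pow_add]
        push_cast; ring
      obtain ⟨la, la1, la2⟩ := hin _ (hdbl a ha)
      obtain ⟨lb, lb1, lb2⟩ := hin _ (hdbl b hb)
      have hpos : 0 ≤ b - a := by rw [e]; exact mul_nonneg (by positivity) (by linarith)
      have g1 : 0 ≤ 2 ^ N' * (b - a) := mul_nonneg hp0.le hpos
      have g2 : 2 ^ N' * (b - a) ≤ 1 / 2 := by
        have : 2 ^ N' * (b - a) ≤ 2 ^ N' * (t - s) := mul_le_mul_of_nonneg_left (by linarith) hp0.le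
        linarith
      have hlab : la = lb := by
        have f1 : ((lb - la : ℤ) : ℝ) < ((1 : ℤ) : ℝ) := by push_cast; nlinarith
        have f2 : ((-1 : ℤ) : ℝ) < ((lb - la : ℤ) : ℝ) := by push_cast; nlinarith
        have f3 : lb - la < 1 := by exact_mod_cast f1
        have f4 : -1 < lb - la := by exact_mod_cast f2
        omega
      refine ⟨_, AA_shift (hdbl a ha) la, _, AA_shift (hdbl b hb) lb, la1, la2, lb1, lb2, ?_⟩
      rw [hlab, pow_succ, mul_assoc, mul_comm (2 ^ N' : ℝ) (t' - s'), ← mul_assoc, ← e]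
      ring
  obtain ⟨n, hn⟩ := pow_unbounded_of_one_lt (1 / (t' - s')) (one_lt_two (α := ℝ))
  obtain ⟨a, -, b, -, a1, a2, b1, b2, e⟩ := hgrow n
  have h3 : 1 / (t' - s') < (2 ^ N') ^ n := by
    refine hn.trans_le ?_
    refine pow_le_pow_left₀ (by norm_num) ?_ n
    calc (2 : ℝ) = 2 ^ 1 := (pow_one _).symm
      _ ≤ 2 ^ N' := pow_le_pow_right₀ (by norm_num) h'.pos
  have h4 : 1 < (2 ^ N') ^ n * (t' - s') := by
    rwa [div_lt_iff₀ (by linarith)] at h3
  linarith

/-- **doubling** -/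
theorem nested_double (h : CA N q w s t) (h' : CA N' q' w' s' t') (hne : N ≠ N') (hq : 3 ≤ q)
    (hq' : 3 ≤ q') (hs : s < s') (ht : t' < t) : t' - s' ≤ 2 * (t - s) ^ 2 ∧
      2 * (t' - s') ≤ t - s := by
  have h1 := h.nested_len h' hne hq hs ht
  have hlt := h.lt
  have hlt' := h'.lt
  have hle : t - s ≤ 1 / 2 := by
    have h2 := h.len
    have h3 : (2 : ℝ) ^ 1 ≤ 2 ^ ((q - 2) * N) :=
      pow_le_pow_right₀ (by norm_num) (Nat.mul_pos (by omega) h.pos)
    have h4 : (2 : ℝ) ^ 1 * (t - s) ≤ 2 ^ ((q - 2) * N) * (t - s) :=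
      mul_le_mul_of_nonneg_right h3 (by linarith)
    linarith
  have h2 := h.nested_per h' hne hs ht hle
  have h3 : (2 : ℝ) ^ N' ≤ 2 ^ ((q' - 2) * N') :=
    pow_le_pow_right₀ (by norm_num) (Nat.le_mul_of_pos_left N' (by omega))
  have h4 : (2 : ℝ) ^ N' * (t' - s') ≤ t - s :=
    (mul_le_mul_of_nonneg_right h3 (by linarith)).trans h1
  have h5 : (2 : ℝ) ≤ 2 ^ N' := by
    calc (2 : ℝ) = 2 ^ 1 := (pow_one _).symm
      _ ≤ 2 ^ N' := pow_le_pow_right₀ (by norm_num) h'.pos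
  rw [pow_succ] at h2
  constructor
  · nlinarith
  · nlinarith

end CA

end Pool.Agent.Work.MLC
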