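import Pool.Agent.Work.MLC.Cap26
import Pool.Agent.Work.MLC.CntL26

set_option autoImplicit false

/-! # Theorem Cap, modules ONE and TWO: the one-piece estimates (helper26) -/

namespace Pool.Agent.Work.MLC.Cap

open Filter Topology Metric Set Complex MeasureTheory
open Pool.Agent.Work.MLC.Sat Pool.Agent.Work.MLC.Cnt
open scoped ENNReal

lemma DD_pos (m q : ℕ) : 0 < DD m q := by unfold DD; positivity

lemma ofReal_sq_add {a b : ℝ} :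
    ENNReal.ofReal ((a + b) ^ 2) ≤ 2 * (ENNReal.ofReal (a ^ 2) + ENNReal.ofReal (b ^ 2)) := by
  rw [← ENNReal.ofReal_add (by positivity) (by positivity),
    show (2 : ℝ≥0∞) = ENNReal.ofReal 2 by simp, ← ENNReal.ofReal_mul (by norm_num)]
  refine ENNReal.ofReal_le_ofReal ?_
  nlinarith [sq_nonneg (a - b)]

lemma ofReal_sq_add3 {a b c : ℝ} :
    ENNReal.ofReal ((a + b + c) ^ 2) ≤
      3 * (ENNReal.ofReal (a ^ 2) + ENNReal.ofReal (b ^ 2) + ENNReal.ofReal (c ^ 2)) := by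
  rw [← ENNReal.ofReal_add (by positivity) (by positivity),
    ← ENNReal.ofReal_add (by positivity) (by positivity),
    show (3 : ℝ≥0∞) = ENNReal.ofReal 3 by simp, ← ENNReal.ofReal_mul (by norm_num)]
  refine ENNReal.ofReal_le_ofReal ?_
  nlinarith [sq_nonneg (a - b), sq_nonneg (a - c), sq_nonneg (b - c)]

/-- a complete cut -/
def C_cut (C : ℝ) : Prop := ∀ W : WS, W.Ok → ∀ (x : ℚ) (H : ℝ), 0 < x → x < 1 → 0 < H → H ≤ 1 →
  ∃ (x₁ x₂ : ℚ) (g : ℝ) (F : Finset ℕ) (P : ℕ → Set ℂ), 0 < x₁ ∧ x₁ < x ∧ x < x₂ ∧ x₂ < 1 ∧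
    0 < g ∧ g ≤ H ∧ (∀ i ∈ F, Bornology.IsBounded (P i)) ∧
    (∀ y : ℝ, (x₁ : ℝ) ≤ y → y ≤ x₂ → ∃ i ∈ F, W.c (2 * Real.pi * y * I) ∈ P i) ∧
    (∀ t : ℝ, 0 < t → t ≤ g → ∃ i ∈ F,
      cOf ((t : ℂ) + 2 * Real.pi * (W.dat x₁).tm * I) ∈ P i) ∧
    (∀ t : ℝ, 0 < t → t ≤ g → ∃ i ∈ F,
      cOf ((t : ℂ) + 2 * Real.pi * (W.dat x₂).tp * I) ∈ P i) ∧
    (W.dat x).tm - (W.dat x₁).tm ≤ DD W.m x.den ∧ (W.dat x₂).tp - (W.dat x).tp ≤ DD W.m x.den ∧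
    ENNReal.ofReal ((diam (RaySeg (W.dat x₁).tm g H) + diam (RaySeg (W.dat x₂).tp g H) +
      ∑ i ∈ F, diam (P i)) ^ 2) ≤ ENNReal.ofReal C * cutE W x H

theorem c_cut (hN : C_nbr) (hD : C_dist) {C C' : ℝ} (hC0 : 0 ≤ C) (hC0' : 0 ≤ C')
    (hC : C_cutray C) (hG : C_cutgate C') : C_cut (3 * (C + C')) := by
  intro W hW x H hx0 hx1 hH0 hH1
  have hm := hW.wide.pos
  have hm1 : (1 : ℝ) ≤ W.m := by exact_mod_cast hm
  have hq0 := den_pos' x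
  obtain ⟨u, v, hn⟩ := hN x hx0 hx1
  obtain ⟨x₁, x₂, g, h1, h2, h3, h4, h5, h6, h7, h8, h9, h10⟩ :=
    hC W hW x u v hx0 hx1 hn H hH0 hH1
  obtain ⟨F, P, k1, k2, ⟨i₁, hi₁, k3⟩, ⟨i₂, hi₂, k4⟩, k5⟩ :=
    hG W hW x u v x₁ x₂ hx0 hx1 hn h1 h2 h3 h4
  obtain ⟨d1, -⟩ := hD W hW x u v x₁ hx0 hx1 hn
  obtain ⟨-, d2⟩ := hD W hW x u v x₂ hx0 hx1 hn
  have hu0 : 0 < u := by
    refine lt_of_lt_of_le ?_ hn.u0
    have : (0 : ℚ) < x.den := by exact_mod_cast x.den_pos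
    positivity
  have hv1 : v < 1 := by
    refine lt_of_le_of_lt hn.v1 ?_
    have : (0 : ℚ) < x.den := by exact_mod_cast x.den_pos
    have h : (0 : ℚ) < 2 / (3 * x.den) := by positivity
    linarith
  refine ⟨x₁, x₂, g, F, P, hu0.trans h1, h2, h3, h4.trans hv1, h5, h6, k1, k2,
    fun t ht ht' => ⟨i₁, hi₁, k3 (h7 t ht ht')⟩, fun t ht ht' => ⟨i₂, hi₂, k4 (h8 t ht ht')⟩,
    d1 h1 h2, d2 h3 h4, ?_⟩
  refine ofReal_sq_add3.trans ?_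
  unfold cutE
  have e1 : ENNReal.ofReal (C * (W.m * x.den)) =
      ENNReal.ofReal C * ENNReal.ofReal (W.m * x.den) := ENNReal.ofReal_mul hC0
  have e2 : ENNReal.ofReal (C' * W.m) = ENNReal.ofReal C' * ENNReal.ofReal W.m :=
    ENNReal.ofReal_mul hC0'
  rw [e1] at h9 h10
  rw [e2] at k5
  have e3 : ENNReal.ofReal (3 * (C + C')) = 3 * (ENNReal.ofReal C + ENNReal.ofReal C') := by
    rw [ENNReal.ofReal_mul (by norm_num), ENNReal.ofReal_add hC0 hC0']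
    norm_num
  rw [e3, mul_assoc]
  refine mul_le_mul' le_rfl ?_
  refine (add_le_add (add_le_add h9 h10) k5).trans ?_
  have key : ∀ a a' n k r₁ r₂ v : ℝ≥0∞, a * n * r₁ + a * n * r₂ + a' * k * v ≤
      (a + a') * (n * (r₁ + r₂) + k * v) := by
    intro a a' n k r₁ r₂ v
    calc a * n * r₁ + a * n * r₂ + a' * k * v = a * (n * (r₁ + r₂)) + a' * (k * v) := by ring
      _ ≤ a * (n * (r₁ + r₂) + k * v) + a' * (n * (r₁ + r₂) + k * v) :=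
          add_le_add (mul_le_mul' le_rfl le_self_add) (mul_le_mul' le_rfl le_add_self)
      _ = _ := by ring
  exact key _ _ _ _ _ _ _

/-- monotonicity of the energy of a roof -/
lemma en_mono {A B : Set ℂ} (h : A ⊆ B) : en A ≤ en B := lintegral_mono_set h

/-- **ONE** -/
theorem c_one (hT : Q_top) (hR : C_roof) {C : ℝ} (hC0 : 0 ≤ C) (hC : C_cut C) :
    C_one (2 * (C + 10 ^ 5)) := by
  intro W hW x H hx0 hx1 hH1 hlen hDD
  have hH0 : 0 < H := (DD_pos _ _).trans_le hDD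
  obtain ⟨x₁, x₂, g, F, P, a1, a2, a3, a4, a5, a6, a7, a8, a9, a10, a11, a12, a13⟩ :=
    hC W hW x H hx0 hx1 hH0 hH1
  have h1 := hT W hW x x₁ x₂ a1 a2 a3 a4 g H a5 a6 ℕ F P a7 a8 a9 a10
  have hlt : (W.dat x).tm < (W.dat x).tp := (WS.dat_cir hW hx0 hx1).lt
  have b1 : (W.dat x₁).tm ≤ (W.dat x).tm := WS.tm_mono hW a1 a2.le hx1
  have b2 : (W.dat x).tp ≤ (W.dat x₂).tp := WS.tp_mono hW hx0 a3.le a4
  have h2 := hR (W.dat x₁).tm (W.dat x₂).tp H hH0 hH1 (by linarith) (by linarith)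
  have h3 : en (Rf ((W.dat x₁).tm + H) ((W.dat x₂).tp - H) H) ≤
      en (Rf (W.dat x).tm (W.dat x).tp H) := by
    refine en_mono fun z hz => ?_
    obtain ⟨z1, z2, z3, z4⟩ := hz
    exact ⟨z1, z2, by linarith, by linarith⟩
  have h4 : ENNReal.ofReal (diam (Lm (W.dat x)) ^ 2) ≤ ENNReal.ofReal
      (((diam (RaySeg (W.dat x₁).tm g H) + diam (RaySeg (W.dat x₂).tp g H) +
      ∑ i ∈ F, diam (P i)) + diam (RoofH H (W.dat x₁).tm (W.dat x₂).tp)) ^ 2) := by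
    refine ENNReal.ofReal_le_ofReal (pow_le_pow_left₀ diam_nonneg ?_ 2)
    linarith
  refine (h4.trans ofReal_sq_add).trans ?_
  have e3 : ENNReal.ofReal (2 * (C + 10 ^ 5)) = 2 * (ENNReal.ofReal C + 10 ^ 5) := by
    rw [ENNReal.ofReal_mul (by norm_num), ENNReal.ofReal_add hC0 (by norm_num)]
    norm_num
  rw [e3, mul_assoc]
  refine mul_le_mul' le_rfl ((add_le_add a13 (h2.trans (mul_le_mul' le_rfl h3))).trans ?_)
  rw [add_mul]
  exact add_le_add (mul_le_mul' le_rfl le_self_add) (mul_le_mul' le_rfl le_add_self)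

/-- **TWO** -/
theorem c_two (hT : C_top2) (hR : C_roof) {C : ℝ} (hC0 : 0 ≤ C) (hC : C_cut C) :
    C_two (4 * (C + 10 ^ 5)) := by
  intro W W' hW hW' V x x' H hVP hVC hx0 hx1 hx0' hx1' hH1 hV1 hV2 hV3 hV4 hV5 hpre hl1 hl2 hD1
    hD2 hl3 hl4
  have hH0 : 0 < H := (DD_pos _ _).trans_le hD1
  obtain ⟨x₁, x₂, g, F, P, a1, a2, a3, a4, a5, a6, a7, a8, a9, a10, a11, a12, a13⟩ :=
    hC W hW x H hx0 hx1 hH0 hH1
  obtain ⟨y₁, y₂, g', F', P', b1, b2, b3, b4, b5, b6, b7, b8, b9, b10, b11, b12, b13⟩ :=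
    hC W' hW' x' H hx0' hx1' hH0 hH1
  have h1 := hT W W' hW hW' V x x₁ x₂ y₁ y₂ hVP hVC a1 a2 a3 a4 b1 (b2.trans b3) b4 hV1 hV2 hV3
    (hV4 y₁ b1 (b2.trans hx1')).1 (hV4 y₂ (hx0'.trans b3) b4).2 hV5 hpre g g' H a5 a6 b5 b6
    (ℕ ⊕ ℕ) (F.disjSum F') (Sum.elim P P') ?_ ?_ ?_ ?_ ?_ ?_ ?_
  rotate_left
  · intro i hi
    rcases i with i | i
    · exact a7 i (Finset.inl_mem_disjSum.1 hi)
    · exact b7 i (Finset.inr_mem_disjSum.1 hi)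
  · intro y h1 h2
    obtain ⟨i, hi, h3⟩ := a8 y h1 h2
    exact ⟨Sum.inl i, Finset.inl_mem_disjSum.2 hi, h3⟩
  · intro y h1 h2
    obtain ⟨i, hi, h3⟩ := a9 y h1 h2
    exact ⟨Sum.inl i, Finset.inl_mem_disjSum.2 hi, h3⟩
  · intro y h1 h2
    obtain ⟨i, hi, h3⟩ := a10 y h1 h2
    exact ⟨Sum.inl i, Finset.inl_mem_disjSum.2 hi, h3⟩
  · intro y h1 h2
    obtain ⟨i, hi, h3⟩ := b8 y h1 h2
    exact ⟨Sum.inr i, Finset.inr_mem_disjSum.2 hi, h3⟩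
  · intro y h1 h2
    obtain ⟨i, hi, h3⟩ := b9 y h1 h2
    exact ⟨Sum.inr i, Finset.inr_mem_disjSum.2 hi, h3⟩
  · intro y h1 h2
    obtain ⟨i, hi, h3⟩ := b10 y h1 h2
    exact ⟨Sum.inr i, Finset.inr_mem_disjSum.2 hi, h3⟩
  have hsum : ∑ i ∈ F.disjSum F', diam ((Sum.elim P P') i) =
      ∑ i ∈ F, diam (P i) + ∑ i ∈ F', diam (P' i) := by
    rw [Finset.sum_disjSum]
    rfl
  rw [hsum] at h1
  have hlt : (W.dat x).tm < (W.dat x).tp := (WS.dat_cir hW hx0 hx1).lt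
  have hlt' : (W'.dat x').tm < (W'.dat x').tp := (WS.dat_cir hW' hx0' hx1').lt
  have c1 : (W.dat x₁).tm ≤ (W.dat x).tm := WS.tm_mono hW a1 a2.le hx1
  have c2 : (W.dat x).tp ≤ (W.dat x₂).tp := WS.tp_mono hW hx0 a3.le a4
  have c3 : (W'.dat y₁).tm ≤ (W'.dat x').tm := WS.tm_mono hW' b1 b2.le hx1'
  have c4 : (W'.dat x').tp ≤ (W'.dat y₂).tp := WS.tp_mono hW' hx0' b3.le b4
  have c5 := (hV4 y₁ b1 (b2.trans hx1')).1
  have c6 := (hV4 y₂ (hx0'.trans b3) b4).2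
  have h2 := hR (W.dat x₁).tm (W'.dat y₁).tm H hH0 hH1 (by linarith) (by linarith)
  have h2' := hR (W'.dat y₂).tp (W.dat x₂).tp H hH0 hH1 (by linarith) (by linarith)
  have h3 : en (Rf ((W.dat x₁).tm + H) ((W'.dat y₁).tm - H) H) ≤
      en (Rf (W.dat x).tm V.tm H) := by
    refine en_mono fun z hz => ?_
    obtain ⟨z1, z2, z3, z4⟩ := hz
    exact ⟨z1, z2, by linarith, by linarith⟩
  have h3' : en (Rf ((W'.dat y₂).tp + H) ((W.dat x₂).tp - H) H) ≤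
      en (Rf V.tp (W.dat x).tp H) := by
    refine en_mono fun z hz => ?_
    obtain ⟨z1, z2, z3, z4⟩ := hz
    exact ⟨z1, z2, by linarith, by linarith⟩
  obtain ⟨s, hs⟩ : ∃ s, s = diam (RaySeg (W.dat x₁).tm g H) + diam (RaySeg (W.dat x₂).tp g H) +
      ∑ i ∈ F, diam (P i) := ⟨_, rfl⟩
  obtain ⟨s', hs'⟩ : ∃ s, s = diam (RaySeg (W'.dat y₁).tm g' H) +
      diam (RaySeg (W'.dat y₂).tp g' H) + ∑ i ∈ F', diam (P' i) := ⟨_, rfl⟩
  obtain ⟨r, hr⟩ : ∃ r, r = diam (RoofH H (W.dat x₁).tm (W'.dat y₁).tm) := ⟨_, rfl⟩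
  obtain ⟨r', hr'⟩ : ∃ r, r = diam (RoofH H (W'.dat y₂).tp (W.dat x₂).tp) := ⟨_, rfl⟩
  rw [← hs] at a13
  rw [← hs'] at b13
  rw [← hr] at h2
  rw [← hr'] at h2'
  have h4 : ENNReal.ofReal (diam (KP (W.dat x) V) ^ 2) ≤ ENNReal.ofReal
      (((s + s') + (r + r')) ^ 2) := by
    refine ENNReal.ofReal_le_ofReal (pow_le_pow_left₀ diam_nonneg ?_ 2)
    linarith
  refine (h4.trans ofReal_sq_add).trans ?_
  have e3 : ENNReal.ofReal (4 * (C + 10 ^ 5)) = 2 * (2 * (ENNReal.ofReal C + 10 ^ 5)) := by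
    rw [ENNReal.ofReal_mul (by norm_num), ENNReal.ofReal_add hC0 (by norm_num), ← mul_assoc]
    norm_num
  rw [e3, mul_assoc]
  refine mul_le_mul' le_rfl ?_
  refine (add_le_add (ofReal_sq_add (a := s) (b := s')) (ofReal_sq_add (a := r) (b := r'))).trans ?_
  rw [← mul_add, mul_assoc]
  refine mul_le_mul' le_rfl ?_
  refine (add_le_add (add_le_add a13 b13) (add_le_add (h2.trans (mul_le_mul' le_rfl h3))
    (h2'.trans (mul_le_mul' le_rfl h3')))).trans ?_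
  have key : ∀ a b u v p q : ℝ≥0∞, a * u + a * v + (b * p + b * q) ≤
      (a + b) * (u + v + p + q) := by
    intro a b u v p q
    calc a * u + a * v + (b * p + b * q) = a * (u + v) + b * (p + q) := by ring
      _ ≤ a * (u + v + p + q) + b * (u + v + p + q) :=
          add_le_add (mul_le_mul' le_rfl (by rw [add_assoc]; exact le_self_add))
            (mul_le_mul' le_rfl (by rw [add_assoc]; exact le_add_self))
      _ = _ := by ring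
  exact key _ _ _ _ _ _

end Pool.Agent.Work.MLC.Cap
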