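import Pool.Agent.Work.MLC.CapS6

set_option autoImplicit false

/-! # Theorem Cap, stage A: the exceptional set (helper6) -/

namespace Pool.Agent.Work.MLC.Cap

open Filter Topology Metric Set Complex MeasureTheory
open Pool.Agent.Work.MLC.Sat Pool.Agent.Work.MLC.Cnt
open scoped ENNReal

/-- `r` separates a point of the impression of the angle `t` from `0` -/
def ImpSep (t : ℝ) (r : ℂ) : Prop := ∃ c ∈ Sep r, (c, t) ∈ closure {p : ℂ × ℝ | Ang p.1 p.2}

/-- the impression of an angle in the open arc -/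
lemma imp_in {D : Dat} (hP : D.Par) (hC : D.Cir) {c : ℂ} {t : ℝ} (hM : c ∈ MM) {k : ℤ}
    (h1 : D.tm < t + k) (h2 : t + k < D.tp) (hc : (c, t) ∈ closure {p : ℂ × ℝ | Ang p.1 p.2}) :
    c ∈ insert (rt D) (Lm D) := by
  have h3 : c ∈ closure (Lm D ∪ {c' | ∃ θ, Ang c' θ ∧ D.tm ≤ θ ∧ θ ≤ D.tp}) := by
    rw [mem_closure_iff_frequently]
    have h4 : Tendsto (fun p : ℂ × ℝ => p.2 + k) (𝓝 (c, t)) (𝓝 (t + k)) :=
      Continuous.tendsto (by fun_prop) (c, t)
    have h5 := ((mem_closure_iff_frequently.1 hc).and_eventually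
      ((h4.eventually (lt_mem_nhds h1)).and (h4.eventually (gt_mem_nhds h2))))
    exact (continuous_fst.tendsto (c, t)).frequently (p := fun c' =>
      c' ∈ Lm D ∪ {c' | ∃ θ, Ang c' θ ∧ D.tm ≤ θ ∧ θ ≤ D.tp}) (h5.mono fun p hp =>
        Or.inr ⟨p.2 + k, Ang.add_int hp.1 k, hp.2.1.le, hp.2.2.le⟩)
  rcases n5_closed D hP hC c hM h3 with h4 | h4
  · exact Or.inr h4
  · exact Or.inl h4

/-- the diameter of the limb with its root -/
lemma diam_limb {D : Dat} (hP : D.Par) (hC : D.Cir) :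
    diam (insert (rt D) (Lm D)) = diam (Lm D) := by
  have hb : Bornology.IsBounded (insert (rt D) (Lm D)) := (isCompact_limb hP hC).isBounded
  refine le_antisymm ?_ (diam_mono (subset_insert _ _) hb)
  rcases (Lm D).eq_empty_or_nonempty with h | h
  · rw [h]; simp
  have hcl : insert (rt D) (Lm D) ⊆ closure (Lm D) := by
    refine insert_subset ?_ subset_closure
    by_contra hcon
    obtain ⟨r, hr, hr0⟩ := Metric.mem_nhds_iff.1 (isClosed_closure.isOpen_compl.mem_nhds hcon)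
    obtain ⟨z, hz, h1, h2⟩ := isPreconnected_limb hP hC (ball (rt D) r) {z | z ≠ rt D}
      isOpen_ball isOpen_ne (fun z hz => by
        by_cases h0 : z = rt D
        · exact Or.inl (h0 ▸ mem_ball_self hr)
        · exact Or.inr h0) ⟨rt D, Or.inl rfl, mem_ball_self hr⟩
      (by
        obtain ⟨y, hy⟩ := h
        exact ⟨y, Or.inr hy, fun h0 => Cnt.rt_notMem hP hC (h0 ▸ hy)⟩)
    rcases hz with h3 | h3
    · exact h2 h3
    · exact hr0 h1 (subset_closure h3)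
  calc diam (insert (rt D) (Lm D)) ≤ diam (closure (Lm D)) :=
        diam_mono hcl (hb.subset (subset_insert _ _)).closure
    _ = _ := diam_closure _

/-- **the impression of an angle in infinitely many open arcs of small limbs** -/
theorem lc_of_small {t : ℝ} {S : Set RT} (hS : S.Infinite)
    (hSt : ∀ r ∈ S, ∃ k : ℤ, (rd r).D.tm < t + k ∧ t + k < (rd r).D.tp)
    (hsm : ∀ δ > 0, {r | r ∈ S ∧ δ ≤ dm r}.Finite) : ∃ c₀ ∈ MM,
      Tendsto Psi (𝓝[{z | 1 < ‖z‖}] (Complex.exp (2 * Real.pi * t * Complex.I))) (𝓝 c₀) ∧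
      LCat MM c₀ := by
  classical
  set K : RT → Set ℂ := fun r => insert (rt (rd r).D) (Lm (rd r).D) with hK
  have hKc : ∀ r, IsCompact (K r) := fun r => isCompact_limb (rd r).par (rd r).cir
  have hKb : ∀ r, Bornology.IsBounded (K r) := fun r => (hKc r).isBounded
  have hKd : ∀ r, diam (K r) ≤ dm r := fun r => (diam_limb (rd r).par (rd r).cir).le
  have hsmall : ∀ δ > 0, ∃ r ∈ S, dm r < δ ∧ ∀ c : ℂ, ∃ r' ∈ S, dm r' < δ ∧ c ≠ rt (rd r').D := by
    intro δ hδ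
    have h1 : (S \ {r | r ∈ S ∧ δ ≤ dm r}).Infinite := hS.diff (hsm δ hδ)
    obtain ⟨r, hr⟩ := h1.nonempty
    refine ⟨r, hr.1, ?_, fun c => ?_⟩
    · by_contra h2
      exact hr.2 ⟨hr.1, not_lt.1 h2⟩
    · obtain ⟨r', hr', r'', hr'', hne⟩ := h1.nontrivial
      have key : ∀ r' ∈ S \ {r | r ∈ S ∧ δ ≤ dm r}, dm r' < δ := by
        intro r' hr'
        by_contra h2
        exact hr'.2 ⟨hr'.1, not_lt.1 h2⟩
      by_cases hc : c = rt (rd r').D
      · refine ⟨r'', hr''.1, key _ hr'', ?_⟩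
        intro h3
        rw [rt_rd] at hc h3
        exact hne (Subtype.ext (hc.symm.trans h3))
      · exact ⟨r', hr'.1, key _ hr', hc⟩
  have himp : ∀ c ∈ MM, (c, t) ∈ closure {p : ℂ × ℝ | Ang p.1 p.2} → ∀ r ∈ S, c ∈ K r := by
    intro c hc hcl r hr
    obtain ⟨k, h1, h2⟩ := hSt r hr
    exact imp_in (rd r).par (rd r).cir hc h1 h2 hcl
  have huniq : ∀ c c' : ℂ, (∀ r ∈ S, c ∈ K r) → (∀ r ∈ S, c' ∈ K r) → c = c' := by
    intro c c' h h'
    by_contra hne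
    have hd : 0 < dist c c' := dist_pos.2 hne
    obtain ⟨r, hr, h1, -⟩ := hsmall _ hd
    have h2 := dist_le_diam_of_mem (hKb r) (h r hr) (h' r hr)
    linarith [hKd r]
  have hseq : ∀ (g u : ℕ → ℝ) (c : ℂ), (∀ n, 0 < g n) → Tendsto g atTop (𝓝 0) →
      Tendsto u atTop (𝓝 t) →
      Tendsto (fun n => cOf ((g n : ℂ) + 2 * Real.pi * u n * Complex.I)) atTop (𝓝 c) →
      c ∈ MM ∧ ∀ r ∈ S, c ∈ K r := by
    intro g u c hg hg0 hu hc
    have hcM : c ∈ MM := by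
      refine mem_MM_of_tendsto (u := fun n => (g n : ℂ) + 2 * Real.pi * u n * Complex.I)
        (fun n => ?_) ?_ hc
      · have := CH.re_pt (g n) (u n)
        rw [this]; exact hg n
      · refine hg0.congr fun n => ?_
        exact (CH.re_pt (g n) (u n)).symm
    refine ⟨hcM, himp c hcM ?_⟩
    have h1 : Tendsto (fun n => (cOf ((g n : ℂ) + 2 * Real.pi * u n * Complex.I), u n)) atTop
        (𝓝 (c, t)) := hc.prodMk_nhds hu
    refine mem_closure_of_tendsto h1 (Eventually.of_forall fun n => ?_)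
    exact (ang_cOf (hg n)).1
  -- a limit point
  obtain ⟨c₀, φ, hφ, hc₀⟩ := exists_limit_cOf
    (u := fun n => ((1 / ((n : ℝ) + 1) : ℝ) : ℂ) + 2 * Real.pi * t * Complex.I)
    (fun n => by rw [CH.re_pt]; positivity)
    (fun n => by
      rw [CH.re_pt, div_le_one (by positivity)]
      linarith [(Nat.cast_nonneg n : (0 : ℝ) ≤ n)])
  obtain ⟨hc₀M, hc₀K⟩ := hseq (fun n => 1 / ((φ n : ℝ) + 1)) (fun _ => t) c₀
    (fun n => by positivity) (tendsto_one_div_add_atTop_nhds_zero_nat.comp hφ.tendsto_atTop)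
    tendsto_const_nhds hc₀
  refine ⟨c₀, hc₀M, ?_, ?_⟩
  · refine tendsto_Psi_of_unique fun g u c hg hg0 hu hc => ?_
    exact huniq c c₀ (hseq g u c hg hg0 hu hc).2 hc₀K
  · intro U hU
    obtain ⟨ε, hε, hεU⟩ := Metric.mem_nhds_iff.1 hU
    obtain ⟨-, -, -, h1⟩ := hsmall ε hε
    obtain ⟨r, hr, h2, h3⟩ := h1 c₀
    have h4 : c₀ ∈ Lm (rd r).D := by
      rcases hc₀K r hr with h | h
      · exact absurd h h3
      · exact h
    refine ⟨K r, fun z hz => ⟨?_, hεU ?_⟩, hKc r,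
      ⟨⟨c₀, hc₀K r hr⟩, isPreconnected_limb (rd r).par (rd r).cir⟩, ?_⟩
    · exact insert_subset (Cnt.rt_mem_MM (rd r).par) lm_subset hz
    · have h5 := dist_le_diam_of_mem (hKb r) hz (hc₀K r hr)
      rw [mem_ball]
      linarith [hKd r]
    · rw [mem_nhdsWithin_iff_eventually]
      filter_upwards [lm_open (rd r).par (rd r).cir h4] with w hw hwM
      exact Or.inr (hw hwM)

/-- **the exceptional set** -/
theorem cap_final {C : ℝ} (h : C_limbsum C) {ε : ℝ} (hε : 0 < ε) :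
    ∃ a l : ℕ → ℝ, (∀ i, 0 < l i ∧ l i < 1) ∧ Summable (fun i => 1 / Real.log (1 / l i)) ∧
      ∑' i, 1 / Real.log (1 / l i) < ε ∧
      ∀ t ∈ Ico (0 : ℝ) 1, (∀ i, t ∉ Icc (a i) (a i + l i)) →
        {r | r ∈ RT ∧ ImpSep t r}.Infinite → ∃ c₀ ∈ MM,
          Tendsto Psi (𝓝[{z | 1 < ‖z‖}] (Complex.exp (2 * Real.pi * t * Complex.I))) (𝓝 c₀) ∧
          LCat MM c₀ := by
  classical
  haveI : Countable RT := countable_RT.to_subtype
  have hε2 : ENNReal.ofReal (ε / 2) ≠ 0 := by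
    rw [Ne, ENNReal.ofReal_eq_zero, not_le]; linarith
  have hε3 : ENNReal.ofReal (ε / 2 / 5) ≠ 0 := by
    rw [Ne, ENNReal.ofReal_eq_zero, not_le]; linarith
  obtain ⟨B, hB1, hB2⟩ := pure_tail (d := dm) (w := fun r => (rd r).wt)
    (fun r => (rd r).wt_pos.le) (summable_dm h) hε3
  obtain ⟨l, hl, hlsum⟩ := exists_tiny hε2
  -- the ends
  set Z : Set ℝ := ⋃ (r : RT) (k : ℤ), {(rd r).D.tm + k, (rd r).D.tp + (k : ℝ)} with hZ
  have hZc : Z.Countable :=
    countable_iUnion fun r => countable_iUnion fun k => (Set.toFinite _).countable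
  obtain ⟨e, he⟩ : ∃ e : ℕ → ℝ, Z ⊆ range e := by
    rcases Z.eq_empty_or_nonempty with h | h
    · exact ⟨fun _ => 0, by rw [h]; exact empty_subset _⟩
    · obtain ⟨e, he⟩ := hZc.exists_eq_range h
      exact ⟨e, he.le⟩
  set aa : B ⊕ ℕ → ℝ := Sum.elim (fun r => Int.fract (rd r.1).D.tm) e with haa
  set ll : B ⊕ ℕ → ℝ := Sum.elim (fun r => (rd r.1).len) l with hll
  have hll1 : ∀ b, 0 < ll b ∧ ll b < 1 := by
    rintro (r | i)
    · exact ⟨(rd r.1).len_pos, (rd r.1).len_lt⟩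
    · exact hl i
  have hsum : ∑' b, ENNReal.ofReal (1 / Real.log (1 / ll b)) < ENNReal.ofReal ε := by
    rw [ENNReal.summable.tsum_sum ENNReal.summable]
    have h1 : ∑' r : B, ENNReal.ofReal (1 / Real.log (1 / ll (Sum.inl r))) ≤
        5 * ∑' r : B, ENNReal.ofReal (rd r.1).wt := by
      rw [← ENNReal.tsum_mul_left]
      refine ENNReal.tsum_le_tsum fun r => ?_
      have h2 := (rd r.1).gauge_le
      have h3 : (5 : ℝ≥0∞) = ENNReal.ofReal 5 := by simp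
      rw [h3, ← ENNReal.ofReal_mul (by norm_num)]
      exact ENNReal.ofReal_le_ofReal h2
    have h2 : ∑' i : ℕ, ENNReal.ofReal (1 / Real.log (1 / ll (Sum.inr i))) <
        ENNReal.ofReal (ε / 2) := hlsum
    have h3 : 5 * ∑' r : B, ENNReal.ofReal (rd r.1).wt ≤ ENNReal.ofReal (ε / 2) := by
      refine (mul_le_mul_right hB1.le 5).trans (le_of_eq ?_)
      have h3 : (5 : ℝ≥0∞) = ENNReal.ofReal 5 := by simp
      rw [h3, ← ENNReal.ofReal_mul (by norm_num)]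
      congr 1; ring
    have h4 : ENNReal.ofReal ε = ENNReal.ofReal (ε / 2) + ENNReal.ofReal (ε / 2) := by
      rw [← ENNReal.ofReal_add (by linarith) (by linarith)]
      congr 1; ring
    rw [h4]
    exact ENNReal.add_lt_add_of_le_of_lt (ne_top_of_le_ne_top ENNReal.ofReal_ne_top
      (h1.trans h3)) (h1.trans h3) h2
  obtain ⟨a', l', h1, h2, h3, h4⟩ := to_seq aa ll hll1 hsum
  refine ⟨a', l', h1, h2, h3, fun t ht hta hinf => ?_⟩
  have hb : ∀ b, t ∉ Icc (aa b) (aa b + ll b) := by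
    intro b hb
    obtain ⟨i, hi1, hi2⟩ := h4 b
    exact hta i (by rw [hi1, hi2]; exact hb)
  have htZ : t ∉ Z := by
    intro h
    obtain ⟨i, hi⟩ := he h
    refine hb (Sum.inr i) ⟨hi.le, ?_⟩
    show t ≤ e i + l i
    rw [hi]; linarith [(hl i).1]
  -- the roots whose open arcs contain `t`
  set S : Set RT := {r | ∃ k : ℤ, (rd r).D.tm < t + k ∧ t + k < (rd r).D.tp} with hS
  have hS1 : ∀ r : RT, (∃ k : ℤ, (rd r).D.tm ≤ t + k ∧ t + k ≤ (rd r).D.tp) → r ∈ S := by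
    rintro r ⟨k, k1, k2⟩
    refine ⟨k, lt_of_le_of_ne k1 fun h5 => htZ ?_, lt_of_le_of_ne k2 fun h5 => htZ ?_⟩
    · refine mem_iUnion₂.2 ⟨r, -k, Or.inl ?_⟩
      push_cast; linarith
    · refine mem_iUnion₂.2 ⟨r, -k, Or.inr ?_⟩
      show t = (rd r).D.tp + ((-k : ℤ) : ℝ)
      push_cast; linarith
  have hSinf : S.Infinite := by
    intro hfin
    refine hinf ((hfin.image Subtype.val).subset ?_)
    rintro r ⟨hr, c, hc, hcl⟩
    refine ⟨⟨r, hr⟩, hS1 _ ?_, rfl⟩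
    have h5 : c ∈ Lm (rd ⟨r, hr⟩).D := by
      rw [← Cnt.n6_sep (rd ⟨r, hr⟩).D (rd ⟨r, hr⟩).par (rd ⟨r, hr⟩).cir, rt_rd]
      exact hc
    exact imp_mem (rd ⟨r, hr⟩).par (rd ⟨r, hr⟩).cir h5 hcl
  have hSB : ∀ r ∈ S, r ∉ B := by
    rintro r ⟨k, k1, k2⟩ hrB
    refine hb (Sum.inl ⟨r, hrB⟩) ?_
    show Int.fract (rd r).D.tm ≤ t ∧ t ≤ Int.fract (rd r).D.tm + ((rd r).D.tp - (rd r).D.tm)
    obtain ⟨f1, f2⟩ := floor_plateau (rd r).par (rd r).cir
    have hk : k = ⌊(rd r).D.tm⌋ := by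
      have e1 : (⌊(rd r).D.tm⌋ : ℝ) < k + 1 := by linarith [ht.2]
      have e2 : (k : ℝ) < ⌊(rd r).D.tm⌋ + 1 := by linarith [ht.1]
      have e3 : ⌊(rd r).D.tm⌋ < k + 1 := by exact_mod_cast e1
      have e4 : k < ⌊(rd r).D.tm⌋ + 1 := by exact_mod_cast e2
      omega
    rw [hk] at k1 k2
    have := Int.self_sub_floor (rd r).D.tm
    constructor <;> linarith
  refine lc_of_small hSinf (fun r hr => hr) fun δ hδ => ?_
  exact (hB2 δ hδ).subset fun r hr => ⟨hSB r hr.1, hr.2⟩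

end Pool.Agent.Work.MLC.Cap
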