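import Pool.Agent.Work.MLC.CntB26

set_option autoImplicit false

/-! # Theorem F (A'): the canonical pieces (helper26) -/

namespace Pool.Agent.Work.MLC.Cnt

open Filter Topology Metric Set Complex MeasureTheory
open Pool.Agent.Work.MLC.Sat

/-- the roots of level `N` -/
def RN (N : ℕ) : Set ℂ :=
  {r | ∃ (m p q : ℕ) (b : ℂ), 0 < m ∧ m ≤ N ∧ 0 < p ∧ p < q ∧ Nat.Coprime p q ∧ m * q ≤ 3 * N ∧
    Function.minimalPeriod (fun z : ℂ => z ^ 2 + r) b = m ∧
    deriv ((fun z : ℂ => z ^ 2 + r)^[m]) b = Complex.exp (2 * Real.pi * (p / q) * Complex.I)}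

/-- the points of `M` which are separated from `0` by the same roots of level `N` as `z` -/
def PN (N : ℕ) (z : ℂ) : Set ℂ :=
  {w | w ∈ MM ∧ ∀ r ∈ RN N, w = r ∨
    (w ∈ connectedComponentIn (MM \ {r}) 0 ↔ z ∈ connectedComponentIn (MM \ {r}) 0)}

lemma axis_pq {p q : ℕ} {x : ℚ} (hx : x = (p : ℚ) / q) :
    (axisPt x : ℂ) = 2 * Real.pi * (p / q) * Complex.I := by
  rw [axisPt, hx]; push_cast; ring

/-- the roots of level `N` are the roots of a complete family -/
lemma RN_eq {ι : Type} [Fintype ι] {D : ι → Dat} {N : ℕ} (h : Fam60 Finset.univ D)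
    (hm : ∀ i, (D i).m ≤ N) (hmq : ∀ i, (D i).m * (D i).x.den ≤ 3 * N) (hF : Full24 N D) :
    RN N = range fun i => rt (D i) := by
  ext r
  constructor
  · rintro ⟨m, p, q, b, h1, h2, h3, h4, h5, h6, h7, h8⟩
    have hPer : PerN m r b := ⟨h1, h7⟩
    have hq0 : 0 < q := h3.trans h4
    set x : ℚ := (p : ℚ) / q with hx
    have hxd : x.den = q := by
      have h9 := Rat.den_div_eq_of_coprime (a := (p : ℤ)) (b := (q : ℤ)) (by exact_mod_cast hq0)
        (by simpa using h5)
      rw [Int.cast_natCast, Int.cast_natCast] at h9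
      rw [hx]
      exact Int.natCast_inj.1 h9
    have hx0 : 0 < x := by rw [hx]; positivity
    have hx1 : x < 1 := by
      rw [hx, div_lt_one (by exact_mod_cast hq0)]
      exact_mod_cast h4
    have hmul : mul m (r, b) = Complex.exp (axisPt x) := by
      rw [axis_pq hx, ← h8]
      exact (Pool.Agent.Work.MLC.hasDerivAt_it r m b).deriv.symm
    obtain ⟨D', i₀, hDm, hDx, hσ, hP, hC⟩ := exists_data h1 hx0 hx1
      (show (r, b) ∈ Per m from perN_it hPer) (fun d hd hdm => perN_ne hPer hd hdm) hmul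
    have hrt : rt D' = r := congrArg Prod.fst hσ
    obtain ⟨i, hi⟩ := hF D' hP hC (by rw [hDm]; exact h2) (by rw [hDm, hDx, hxd]; exact h6)
    exact ⟨i, hi.trans hrt⟩
  · rintro ⟨i, rfl⟩
    have hP := h.P i
    have haB := CH.a_mem hP
    have h1 := hP.sec (D i).a haB
    have h2 : mul (D i).m (rt (D i), (D i).b (D i).a) = Complex.exp (axisPt (D i).x) := h1.2
    have hPer : PerN (D i).m (rt (D i)) ((D i).b (D i).a) := by
      have h3 : Function.IsPeriodicPt (f (rt (D i))) (D i).m ((D i).b (D i).a) := h1.1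
      refine ⟨hP.m_pos, ?_⟩
      have h4 := h3.minimalPeriod_le hP.m_pos
      have h5 := h3.minimalPeriod_pos hP.m_pos
      have h6 : it (rt (D i)) (Function.minimalPeriod (f (rt (D i))) ((D i).b (D i).a))
        ((D i).b (D i).a) = (D i).b (D i).a := Function.iterate_minimalPeriod
      by_contra hne
      exact hP.prim (D i).a haB _ h5 (lt_of_le_of_ne h4 hne) h6
    have hnum : 0 < (D i).x.num := Rat.num_pos.2 hP.x_pos
    have hlt : (D i).x.num < (D i).x.den := Rat.num_lt_denom_iff.2 hP.x_lt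
    have hnn : (((D i).x.num.toNat : ℕ) : ℤ) = (D i).x.num := Int.toNat_of_nonneg hnum.le
    have hcop : Nat.Coprime (D i).x.num.toNat (D i).x.den := by
      have h7 := (D i).x.reduced
      have h8 : (D i).x.num.natAbs = (D i).x.num.toNat := by omega
      rwa [h8] at h7
    have hx : (D i).x = (((D i).x.num.toNat : ℕ) : ℚ) / ((D i).x.den : ℚ) := by
      have h9 : (((D i).x.num.toNat : ℕ) : ℚ) = ((D i).x.num : ℚ) := by
        have : ((((D i).x.num.toNat : ℕ) : ℤ) : ℚ) = ((D i).x.num : ℚ) := by rw [hnn]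
        exact_mod_cast this
      rw [h9, Rat.num_div_den]
    refine ⟨(D i).m, (D i).x.num.toNat, (D i).x.den, (D i).b (D i).a, hP.m_pos, hm i, by omega,
      by omega, hcop, hmq i, hPer.2, ?_⟩
    rw [← axis_pq hx, ← h2]
    exact (Pool.Agent.Work.MLC.hasDerivAt_it (rt (D i)) (D i).m ((D i).b (D i).a)).deriv

/-- the canonical piece of a point with the address `A` -/
lemma PN_eq {ι : Type} [Fintype ι] {D : ι → Dat} {N : ℕ} (h : Fam60 Finset.univ D)
    (hR : RN N = range fun i => rt (D i)) {z : ℂ} {A : Finset ι} (hz : z ∈ Pc Finset.univ D A)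
    (hzR : z ∉ RN N) : PN N z = Pc Finset.univ D A := by
  have hzi : ∀ i, z ≠ rt (D i) := fun i hi => hzR (by rw [hR]; exact ⟨i, hi.symm⟩)
  have hiff : ∀ (i : ι) (w : ℂ), w ∈ MM → w ≠ rt (D i) →
      (w ∈ connectedComponentIn (MM \ {rt (D i)}) 0 ↔ w ∉ Lm (D i)) := by
    intro i w hw hwr
    rw [← n6_sep (D i) (h.P i) (h.C i)]
    constructor
    · intro h1 h2; exact h2.2.2 h1
    · intro h1
      by_contra h2
      exact h1 ⟨hw, hwr, h2⟩
  have hzA : ∀ i, i ∈ A ↔ z ∈ Lm (D i) := by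
    intro i
    have h1 := hz.2 i (Finset.mem_univ i)
    constructor
    · intro hi
      rcases h1.1 hi with h2 | h2
      · exact absurd h2 (hzi i)
      · exact h2
    · intro hi
      by_contra h2
      exact h1.2 h2 hi
  ext w
  constructor
  · rintro ⟨hw, h1⟩
    refine ⟨hw, fun i _ => ?_⟩
    have h2 := h1 (rt (D i)) (by rw [hR]; exact ⟨i, rfl⟩)
    by_cases hwr : w = rt (D i)
    · exact ⟨fun _ => Or.inl hwr, fun _ h3 => rt_notMem (h.P i) (h.C i) (hwr ▸ h3)⟩
    · rcases h2 with h2 | h2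
      · exact absurd h2 hwr
      · rw [hiff i w hw hwr, hiff i z hz.1 (hzi i)] at h2
        refine ⟨fun hi => Or.inr ?_, fun hi h3 => ?_⟩
        · by_contra h3
          exact h2.1 h3 ((hzA i).1 hi)
        · exact h2.2 (fun h4 => hi ((hzA i).2 h4)) h3
  · rintro ⟨hw, h1⟩
    refine ⟨hw, fun r hr => ?_⟩
    rw [hR] at hr
    obtain ⟨i, rfl⟩ := hr
    by_cases hwr : w = rt (D i)
    · exact Or.inl hwr
    · right
      show w ∈ connectedComponentIn (MM \ {rt (D i)}) 0 ↔
        z ∈ connectedComponentIn (MM \ {rt (D i)}) 0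
      rw [hiff i w hw hwr, hiff i z hz.1 (hzi i), ← hzA i]
      have h2 := h1 i (Finset.mem_univ i)
      constructor
      · intro h3 hi
        rcases h2.1 hi with h4 | h4
        · exact hwr h4
        · exact h3 h4
      · intro hi; exact h2.2 hi

/-- **(A')**: the canonical decomposition of the Mandelbrot set -/
theorem canonical : ∃ C : ℝ, ∀ N : ℕ, 1 ≤ N → (RN N).Finite ∧
    (2 : ℝ) ^ N ≤ C * (RN N).ncard ∧ ∃ KK : Finset (Set ℂ),
      (∀ K, K ∈ KK ↔ ∃ z ∈ MM, z ∉ RN N ∧ K = PN N z) ∧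
      KK.card = (RN N).ncard + 1 ∧
      (∀ K ∈ KK, IsCompact K ∧ IsConnected K ∧ (interior K).Nonempty ∧
        ∀ z ∈ K, z ∉ RN N → K ∈ 𝓝[MM] z) ∧
      (∀ K ∈ KK, ∀ K' ∈ KK, K ≠ K' → (K ∩ K').Subsingleton) ∧
      ∑ K ∈ KK, diam K ^ 2 ≤ C * (N : ℝ) ^ 11 := by
  classical
  refine ⟨10 ^ 25, fun N hN => ?_⟩
  obtain ⟨ι, hι, D, h, hm, hmq, hF⟩ := exists_fam N
  have hne : Nonempty ι := by
    obtain ⟨D', a, b, c, d, -⟩ := dense26 hN 0
    obtain ⟨i, -⟩ := hF D' a b c d
    exact ⟨i⟩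
  have hTop := topFam h
  have hR := RN_eq h hm hmq hF
  have hinj : Function.Injective fun i => rt (D i) := fun i j hij =>
    h.inj i (Finset.mem_univ i) j (Finset.mem_univ j) hij
  have hcard : (RN N).ncard = Fintype.card ι := by
    rw [hR, ← image_univ, Set.ncard_image_of_injective _ hinj, Set.ncard_univ,
      Nat.card_eq_fintype_card]
  have hRfin : (RN N).Finite := by rw [hR]; exact finite_range _
  refine ⟨hRfin, ?_, Finset.univ.image fun o => Pc Finset.univ D (adO D o), ?_, ?_, ?_, ?_, ?_⟩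
  · rw [hcard]
    have h1 := card_full24 n2_ray h hF (dense26 hN)
    have h2 : (2 : ℝ) ^ N ≤ 64 * (Fintype.card ι : ℝ) := by exact_mod_cast h1
    have h3 : (0 : ℝ) ≤ Fintype.card ι := Nat.cast_nonneg _
    linarith
  · intro K
    constructor
    · intro hK
      obtain ⟨o, -, rfl⟩ := Finset.mem_image.1 hK
      -- a point of the interior which is no root
      obtain ⟨z, hz, hzR⟩ : ∃ z ∈ interior (Pc Finset.univ D (adO D o)), z ∉ RN N := by
        by_contra hcon
        push Not at hcon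
        have h1 : (interior (Pc Finset.univ D (adO D o))).Finite := hRfin.subset hcon
        have h2 := (hTop.int o)
        obtain ⟨y, hy⟩ := h2
        exact (infinite_of_mem_nhds y (isOpen_interior.mem_nhds hy)) h1
      have hz' := interior_subset hz
      exact ⟨z, hz'.1, hzR, (PN_eq h hR hz' hzR).symm⟩
    · rintro ⟨z, hz, hzR, rfl⟩
      have h1 : z ∈ ⋃ o, Pc Finset.univ D (adO D o) := by rw [hTop.union]; exact hz
      obtain ⟨o, ho⟩ := mem_iUnion.1 h1
      exact Finset.mem_image.2 ⟨o, Finset.mem_univ o, (PN_eq h hR ho hzR).symm⟩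
  · rw [Finset.card_image_of_injective _ hTop.inj, Finset.card_univ, Fintype.card_option, hcard]
  · intro K hK
    obtain ⟨o, -, rfl⟩ := Finset.mem_image.1 hK
    refine ⟨isCompact_Pc h _, ⟨(hTop.int o).mono interior_subset,
      isPreconnected_Pc h (isAdr_adO13 h o)⟩, hTop.int o, fun z hz hzR => ?_⟩
    exact Pc_nhds13 h hz fun i _ hi => hzR (by rw [hR]; exact ⟨i, hi.symm⟩)
  · intro K hK K' hK' hKK
    obtain ⟨o, -, rfl⟩ := Finset.mem_image.1 hK
    obtain ⟨o', -, rfl⟩ := Finset.mem_image.1 hK'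
    exact hTop.inter o o' fun h1 => hKK (by rw [h1])
  · exact sum_sq_opt n1_area n3_gate n3_disj hN h hm hmq (sepFam_of g3Sep h hm hF)
      (partFam43 h hmq) _ fun K hK => by
      obtain ⟨o, -, rfl⟩ := Finset.mem_image.1 hK
      exact ⟨o, rfl⟩

end Pool.Agent.Work.MLC.Cnt
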