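import Pool.Agent.Work.MLC.CapT6
import Pool.Agent.Work.MLC.CntAA26

set_option autoImplicit false

/-! # Theorem Cap, stage A: the intrinsic statements (helper6) -/

namespace Pool.Agent.Work.MLC.Cap

open Filter Topology Metric Set Complex MeasureTheory
open Pool.Agent.Work.MLC.Sat Pool.Agent.Work.MLC.Cnt
open scoped ENNReal

/-- `z ^ 2 + r` has a point of exact period `n` whose multiplier is a primitive `q`-th root of `1` -/
def IsRoot (n q : ℕ) (r : ℂ) : Prop := ∃ (p : ℕ) (b : ℂ), 0 < n ∧ 0 < p ∧ p < q ∧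
  Nat.Coprime p q ∧ Function.minimalPeriod (fun z : ℂ => z ^ 2 + r) b = n ∧
  deriv ((fun z : ℂ => z ^ 2 + r)^[n]) b = Complex.exp (2 * Real.pi * (p / q) * Complex.I)

/-- the data of a root -/
theorem exists_RD {n q : ℕ} {r : ℂ} (hq : 3 ≤ q) (h : IsRoot n q r) :
    ∃ R : RD, rt R.D = r ∧ R.W.m = n ∧ R.x.den = q := by
  obtain ⟨p, b, h1, h3, h4, h5, h7, h8⟩ := h
  have hPer : PerN n r b := ⟨h1, h7⟩
  have hq0 : 0 < q := h3.trans h4
  have hpi := Real.pi_pos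
  set x : ℚ := (p : ℚ) / q with hx
  have hxd : x.den = q := by
    have h9 := Rat.den_div_eq_of_coprime (a := (p : ℤ)) (b := (q : ℤ)) (by exact_mod_cast hq0)
      (by simpa using h5)
    rw [Int.cast_natCast, Int.cast_natCast] at h9
    rw [hx]
    exact Int.natCast_inj.1 h9
  have hx0 : 0 < x := by rw [hx]; positivity
  have hx1 : x < 1 := by
    rw [hx, div_lt_one (by exact_mod_cast hq0)]
    exact_mod_cast h4
  have hx0' : (0 : ℝ) < x := by exact_mod_cast hx0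
  have hx1' : (x : ℝ) < 1 := by exact_mod_cast hx1
  have hmul : mul n (r, b) = Complex.exp (axisPt x) := by
    rw [axis_pq hx, ← h8]
    exact (Pool.Agent.Work.MLC.hasDerivAt_it r n b).deriv.symm
  have hL₀ : axisPt x ∈ Pri.D0 n :=
    Pri.axis_mem_D0 h1 (y := 2 * Real.pi * (x : ℝ)) (by positivity) (by nlinarith)
  obtain ⟨σ, w, k, hW, hσ⟩ := Pri.exists_wide h1 (show (r, b) ∈ Per n from perN_it hPer) hL₀ hmul
  have hex : ∀ L ∈ Pri.D0 n, Pri.Exa n (σ L) := Pri.prim_D0 hW.cont hW.sec hL₀ (by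
    rw [hσ]; exact fun d hd hdm => perN_ne hPer hd hdm)
  have hok : WS.Ok ⟨n, w, k, σ⟩ := ⟨hW, hex⟩
  refine ⟨⟨⟨n, w, k, σ⟩, x, hok, hx0, hx1, by rw [hxd]; exact hq⟩, ?_, rfl, hxd⟩
  show (WS.dat ⟨n, w, k, σ⟩ x).c (WS.dat ⟨n, w, k, σ⟩ x).a = r
  rw [WS.dat_c hok hx0 hx1, WS.dat_a hok hx0 hx1]
  show (σ (axisPt x)).1 = r
  rw [hσ]

lemma mem_RT {n q : ℕ} {r : ℂ} (hq : 3 ≤ q) (h : IsRoot n q r) : r ∈ RT := by
  obtain ⟨R, hR, -⟩ := exists_RD hq h
  exact ⟨R, hR⟩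

/-- the limb, intrinsically -/
lemma limb_eq {D : Dat} (hP : D.Par) (hC : D.Cir) :
    MM \ connectedComponentIn (MM \ {rt D}) 0 = insert (rt D) (Lm D) := by
  rw [← Cnt.n6_sep D hP hC]
  ext z
  constructor
  · rintro ⟨h1, h2⟩
    by_cases h3 : z = rt D
    · exact Or.inl h3
    · exact Or.inr ⟨h1, h3, h2⟩
  · rintro (h1 | ⟨h1, -, h2⟩)
    · refine ⟨h1 ▸ Cnt.rt_mem_MM hP, fun h2 => ?_⟩
      exact (connectedComponentIn_subset _ _ h2).2 h1
    · exact ⟨h1, h2⟩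

/-- **the sum over all limbs** -/
theorem capI_sum {C : ℝ} (h : C_limbsum C) (R : Finset ℂ) (N : ℂ → ℕ)
    (hR : ∀ r ∈ R, ∃ n q : ℕ, 3 ≤ q ∧ IsRoot n q r ∧ N r = n * q) :
    ∑ r ∈ R, diam (MM \ connectedComponentIn (MM \ {r}) 0) ^ 2 / N r ≤ C := by
  classical
  have h1 : ∀ r : R, ∃ S : RD, rt S.D = r ∧ N r = S.W.m * S.x.den := by
    rintro ⟨r, hr⟩
    obtain ⟨n, q, hq, h1, h2⟩ := hR r hr
    obtain ⟨S, h3, h4, h5⟩ := exists_RD hq h1
    exact ⟨S, h3, by rw [h4, h5]; exact h2⟩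
  choose S hS hN using h1
  have h2 := h R Finset.univ (fun r => (S r).W) (fun r => (S r).x)
    (fun r _ => ⟨(S r).ok, (S r).x0, (S r).x1, (S r).q3⟩) (fun r _ r' _ hne he => hne ?_)
  · rw [← Finset.sum_coe_sort]
    refine le_trans (le_of_eq (Finset.sum_congr rfl fun r _ => ?_)) h2
    have h3 : diam (MM \ connectedComponentIn (MM \ {(r : ℂ)}) 0) = diam (Lm (S r).D) := by
      rw [← hS r, limb_eq (S r).par (S r).cir, diam_limb (S r).par (S r).cir]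
    rw [h3, hN r]
    push_cast
    rfl
  · have h2 : rt (S r).D = rt (S r').D := he
    rw [hS, hS] at h2
    exact Subtype.ext h2

/-- cluster points of `Psi` -/
lemma closure_of_cluster {c : ℂ} {t : ℝ}
    (h : MapClusterPt c (𝓝[{z | 1 < ‖z‖}] (Complex.exp (2 * Real.pi * t * Complex.I))) Psi) :
    (c, t) ∈ closure {p : ℂ × ℝ | Ang p.1 p.2} := by
  set L₀ : ℂ := 2 * Real.pi * t * Complex.I with hL₀
  have hre : L₀.re = 0 := by simp [hL₀]
  have him : L₀.im = 2 * Real.pi * t := by simp [hL₀]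
  have hpi := Real.pi_pos
  have h1 : Tendsto (fun z : ℂ => L₀ + Complex.log (z * Complex.exp (-L₀)))
      (𝓝[{z | 1 < ‖z‖}] (Complex.exp L₀)) (𝓝 L₀) := by
    have h2 : Tendsto (fun z : ℂ => z * Complex.exp (-L₀)) (𝓝 (Complex.exp L₀)) (𝓝 1) := by
      have h3 : Tendsto (fun z : ℂ => z * Complex.exp (-L₀)) (𝓝 (Complex.exp L₀))
          (𝓝 (Complex.exp L₀ * Complex.exp (-L₀))) := tendsto_id.mul_const _
      rwa [← Complex.exp_add, add_neg_cancel, Complex.exp_zero] at h3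
    have h4 : Tendsto Complex.log (𝓝 1) (𝓝 (Complex.log 1)) :=
      (continuousAt_clog (Complex.one_mem_slitPlane)).tendsto
    rw [Complex.log_one] at h4
    have h5 := ((h4.comp h2).const_add L₀).mono_left
      (nhdsWithin_le_nhds (s := {z : ℂ | 1 < ‖z‖}))
    rw [add_zero] at h5
    exact h5
  have h2 : Tendsto (fun z : ℂ => (L₀ + Complex.log (z * Complex.exp (-L₀))).im / (2 * Real.pi))
      (𝓝[{z | 1 < ‖z‖}] (Complex.exp L₀)) (𝓝 t) := by
    have h3 := ((Complex.continuous_im.tendsto L₀).comp h1).div_const (2 * Real.pi)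
    rw [him, mul_div_cancel_left₀ _ (by positivity)] at h3
    exact h3
  rw [mem_closure_iff_nhds]
  intro V hV
  rw [nhds_prod_eq, mem_prod_iff] at hV
  obtain ⟨V₁, hV₁, V₂, hV₂, hV⟩ := hV
  obtain ⟨z, ⟨hz1, hz2⟩, hz3⟩ := (((mapClusterPt_iff_frequently.1 h V₁ hV₁).and_eventually
    (h2 hV₂)).and_eventually self_mem_nhdsWithin).exists
  have hz' : 1 < ‖z‖ := hz3
  have hz0 : z * Complex.exp (-L₀) ≠ 0 := by
    apply mul_ne_zero _ (Complex.exp_ne_zero _)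
    rw [← norm_pos_iff]; linarith
  have hcO : cOf (L₀ + Complex.log (z * Complex.exp (-L₀))) = Psi z := by
    rw [cOf, Complex.exp_add, Complex.exp_log hz0, mul_left_comm, ← Complex.exp_add,
      add_neg_cancel, Complex.exp_zero, mul_one]
  have hpos : 0 < (L₀ + Complex.log (z * Complex.exp (-L₀))).re := by
    rw [Complex.add_re, hre, zero_add, Complex.log_re, norm_mul, Complex.norm_exp,
      Complex.neg_re, hre, neg_zero, Real.exp_zero, mul_one]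
    exact Real.log_pos hz'
  refine ⟨(Psi z, (L₀ + Complex.log (z * Complex.exp (-L₀))).im / (2 * Real.pi)),
    hV ⟨hz1, hz2⟩, ?_⟩
  set L : ℂ := L₀ + Complex.log (z * Complex.exp (-L₀)) with hL
  have h6 := (ang_cOf (g := L.re) (θ := L.im / (2 * Real.pi)) hpos).1
  have e : ((L.re : ℂ) + 2 * Real.pi * ((L.im / (2 * Real.pi) : ℝ) : ℂ) * Complex.I) = L := by
    have h7 : (2 : ℂ) * Real.pi * ((L.im / (2 * Real.pi) : ℝ) : ℂ) = (L.im : ℂ) := by
      have h8 : (2 : ℂ) * Real.pi * ((L.im / (2 * Real.pi) : ℝ) : ℂ) =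
          ((2 * Real.pi * (L.im / (2 * Real.pi)) : ℝ) : ℂ) := by push_cast; ring
      rw [h8, mul_div_cancel₀ _ (by positivity)]
    rw [h7]
    exact Complex.re_add_im L
  rw [e, hcO] at h6
  exact h6

/-- **MLC off a set of angles of zero measure for the gauge `1 / log (1 / t)`** -/
theorem capI_final {C : ℝ} (h : C_limbsum C) {ε : ℝ} (hε : 0 < ε) :
    ∃ a l : ℕ → ℝ, (∀ i, 0 < l i ∧ l i < 1) ∧ Summable (fun i => 1 / Real.log (1 / l i)) ∧
      ∑' i, 1 / Real.log (1 / l i) < ε ∧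
      ∀ t ∈ Ico (0 : ℝ) 1, (∀ i, t ∉ Icc (a i) (a i + l i)) →
        {r : ℂ | (∃ n q : ℕ, 3 ≤ q ∧ IsRoot n q r) ∧ ∃ c ∈ MM, c ≠ r ∧
          c ∉ connectedComponentIn (MM \ {r}) 0 ∧ MapClusterPt c
            (𝓝[{z | 1 < ‖z‖}] (Complex.exp (2 * Real.pi * t * Complex.I))) Psi}.Infinite →
        ∃ c₀ ∈ MM,
          Tendsto Psi (𝓝[{z | 1 < ‖z‖}] (Complex.exp (2 * Real.pi * t * Complex.I))) (𝓝 c₀) ∧
          ∀ U ∈ 𝓝 c₀, ∃ K ⊆ MM ∩ U, IsCompact K ∧ IsConnected K ∧ K ∈ 𝓝[MM] c₀ := by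
  obtain ⟨a, l, h1, h2, h3, h4⟩ := cap_final h hε
  refine ⟨a, l, h1, h2, h3, fun t ht hta hinf => ?_⟩
  refine h4 t ht hta (hinf.mono ?_)
  rintro r ⟨⟨n, q, hq, hr⟩, c, hc1, hc2, hc3, hc4⟩
  exact ⟨mem_RT hq hr, c, ⟨hc1, hc2, hc3⟩, closure_of_cluster hc4⟩

end Pool.Agent.Work.MLC.Cap
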