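import Pool.Agent.Work.MLC.LabH
import Pool.Agent.Work.MLC.SatE26

set_option autoImplicit false

/-! # The ray estimate for the primitive theorem (helper15)

At an end `t` of the plateau `nu w n = P / Q` the multiplier along the parameter ray of angle `t` is
close to `exp (2 π i P / Q)`, with an explicit rate.  Proof: PLY inequality on the boundary of a half
disc, with the rotation number of the landing rays of the limit points as a rational approximation,
reflection and the maximum principle. -/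

namespace Pool.Agent.Work.MLC.Pri

open Filter Topology Metric Set Complex CircleDeg1Lift

/-! ### modulus of continuity of the rotation number -/

theorem gw_sub_le (w : ℕ → ℤ) {θ θ' : ℝ} (h : θ ≤ θ') {x y : ℝ} (hxy : x ≤ y) (n : ℕ) :
    Circ.gw w θ' n y - Circ.gw w θ n x + (θ' - θ) ≤ 2 ^ n * (y - x + (θ' - θ)) := by
  induction n with
  | zero => simp
  | succ n ih =>
    rw [Circ.gw_succ_apply, Circ.gw_succ_apply, Circ.tdbl_apply, Circ.tdbl_apply]
    have hmono : Circ.gw w θ n x ≤ Circ.gw w θ' n y :=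
      ((Circ.gw w θ n).monotone hxy).trans (Circ.gw_mono w h n y)
    have h1 : Circ.phi (Circ.gw w θ' n y - (θ' + w n) / 2) ≤
        Circ.phi (Circ.gw w θ' n y - (θ + w n) / 2) := Circ.phi_mono (by linarith)
    have h2 := Circ.phi_lipschitz (x := Circ.gw w θ n x - (θ + w n) / 2)
      (y := Circ.gw w θ' n y - (θ + w n) / 2) (by linarith)
    rw [pow_succ]
    linarith

theorem nu_modulus {n : ℕ} {w : ℕ → ℤ} (hw : ∀ i, w (i + n) = w i) {θ θ' : ℝ} (h : θ ≤ θ') {k : ℕ}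
    (hk : (2 : ℝ) ^ (n * k) * (θ' - θ) ≤ 1) :
    k * (Circ.nu w n θ' - Circ.nu w n θ) ≤ 3 := by
  have h1 := Circ.nu_sub_le w n θ 0 k
  have h2 := Circ.nu_sub_le w n θ' 0 k
  have h3 := gw_sub_le w h (le_refl (0 : ℝ)) (n * k)
  rw [Circ.gw_mul w θ n k hw, Circ.gw_mul w θ' n k hw, coe_pow, coe_pow] at h3
  rw [abs_le] at h1 h2
  linarith [h1.1, h1.2, h2.1, h2.2]

theorem nu_log {n : ℕ} (hn : 0 < n) {w : ℕ → ℤ} (hw : ∀ i, w (i + n) = w i) {θ θ' : ℝ}
    (h : θ < θ') (hδ : θ' - θ ≤ (1 / 2) ^ n) :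
    (Circ.nu w n θ' - Circ.nu w n θ) * Real.log (1 / (θ' - θ)) ≤ 5 * n := by
  have hn0 : (0 : ℝ) < n := by exact_mod_cast hn
  have hδ0 : 0 < θ' - θ := by linarith
  have hlog2 : 0 < Real.log 2 := Real.log_pos (by norm_num)
  have hlog2' : Real.log 2 < 0.7 := by have := Real.log_two_lt_d9; linarith
  have hL : n * Real.log 2 ≤ Real.log (1 / (θ' - θ)) := by
    rw [one_div, Real.log_inv]
    have h1 := Real.log_le_log hδ0 hδ
    rw [Real.log_pow, one_div, Real.log_inv] at h1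
    linarith
  set x : ℝ := Real.log (1 / (θ' - θ)) / (n * Real.log 2) with hx
  have hx1 : 1 ≤ x := by
    rw [hx, le_div_iff₀ (by positivity)]; linarith
  set k : ℕ := ⌊x⌋₊ with hk
  have hk1 : (k : ℝ) ≤ x := Nat.floor_le (by linarith)
  have hk2 : x < k + 1 := Nat.lt_floor_add_one x
  have hk3 : (1 : ℝ) ≤ k := by
    have : 1 ≤ k := Nat.le_floor (by exact_mod_cast hx1)
    exact_mod_cast this
  have hk4 : (2 : ℝ) ^ (n * k) * (θ' - θ) ≤ 1 := by
    rw [← le_div_iff₀ hδ0, ← Real.log_le_log_iff (by positivity) (by positivity), Real.log_pow]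
    have := mul_le_mul_of_nonneg_right hk1 (show 0 ≤ n * Real.log 2 by positivity)
    rw [hx, div_mul_cancel₀ _ (by positivity)] at this
    push_cast
    linarith
  have h3 := nu_modulus hw h.le hk4
  have h4 : 0 ≤ Circ.nu w n θ' - Circ.nu w n θ := by have := Circ.nu_mono w n h.le; linarith
  have h5 : Real.log (1 / (θ' - θ)) = x * (n * Real.log 2) := by
    rw [hx, div_mul_cancel₀ _ (by positivity)]
  rw [h5]
  have h6 : x ≤ 2 * k := by linarith
  calc (Circ.nu w n θ' - Circ.nu w n θ) * (x * (n * Real.log 2))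
      ≤ (Circ.nu w n θ' - Circ.nu w n θ) * (2 * k * (n * Real.log 2)) := by gcongr
    _ = 2 * (n * Real.log 2) * (k * (Circ.nu w n θ' - Circ.nu w n θ)) := by ring
    _ ≤ 2 * (n * Real.log 2) * 3 := by gcongr
    _ ≤ 5 * n := by nlinarith

/-- symmetric form -/
theorem nu_log_abs {n : ℕ} (hn : 0 < n) {w : ℕ → ℤ} (hw : ∀ i, w (i + n) = w i) {θ t δ : ℝ}
    (hδ : |θ - t| ≤ δ) (hδ0 : 0 < δ) (hδ1 : δ ≤ (1 / 2) ^ n) :
    |Circ.nu w n θ - Circ.nu w n t| * Real.log (1 / δ) ≤ 5 * n := by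
  have hn0 : (0 : ℝ) < n := by exact_mod_cast hn
  have hδ2 : δ ≤ 1 := hδ1.trans (pow_le_one₀ (by norm_num) (by norm_num))
  have hlog : 0 ≤ Real.log (1 / δ) := Real.log_nonneg (by rw [le_div_iff₀ hδ0]; linarith)
  have key : ∀ a b : ℝ, a < b → b - a ≤ δ → |Circ.nu w n b - Circ.nu w n a| * Real.log (1 / δ) ≤ 5 * n := by
    intro a b hab hba
    have h4 : 0 ≤ Circ.nu w n b - Circ.nu w n a := by have := Circ.nu_mono w n hab.le; linarith
    rw [abs_of_nonneg h4]
    refine le_trans ?_ (nu_log hn hw hab (hba.trans hδ1))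
    refine mul_le_mul_of_nonneg_left ?_ h4
    refine Real.log_le_log (by positivity) ?_
    exact one_div_le_one_div_of_le (by linarith) hba
  rcases lt_trichotomy θ t with h | h | h
  · rw [abs_sub_comm]
    exact key θ t h (by rw [abs_of_neg (by linarith)] at hδ; linarith)
  · rw [h]; simp
  · exact key t θ h (by rw [abs_of_pos (by linarith)] at hδ; linarith)

/-! ### the point with a given word over the uniformised exterior -/

lemma ang_cOf' {ζ : ℂ} (h : 0 < ζ.re) : Ang (cOf ζ) (ζ.im / (2 * Real.pi)) := by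
  have h1 := (ang_cOf (g := ζ.re) (θ := ζ.im / (2 * Real.pi)) h).1
  have h2 : ((ζ.re : ℝ) : ℂ) + 2 * Real.pi * ((ζ.im / (2 * Real.pi) : ℝ) : ℂ) * I = ζ := by
    have h5 : (Real.pi : ℂ) ≠ 0 := by exact_mod_cast Real.pi_pos.ne'
    push_cast
    have h6 : (2 : ℂ) * Real.pi * (ζ.im / (2 * Real.pi)) = ζ.im := by field_simp
    rw [h6]; exact re_add_im ζ
  rwa [h2] at h1

/-- the point of the parameter `cOf ζ` with word `w` -/
noncomputable def aW (n : ℕ) (w : ℕ → ℤ) (ζ : ℂ) : ℂ :=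
  Classical.epsilon fun a => ExtP n (cOf ζ) a (ζ.im / (2 * Real.pi)) w

variable {n : ℕ} {w : ℕ → ℤ}

theorem aW_spec (hn : 0 < n) (hw : Bits n w) {ζ : ℂ} (h : 0 < ζ.re) :
    ExtP n (cOf ζ) (aW n w ζ) (ζ.im / (2 * Real.pi)) w :=
  Classical.epsilon_spec (exists_extP hn (ang_cOf' h) hw)

theorem aW_diff (hn : 0 < n) (hw : Bits n w) {ζ : ℂ} (h : 0 < ζ.re) :
    DifferentiableAt ℂ (aW n w) ζ := by
  have hE := aW_spec hn hw h
  set x₀ : ℂ × ℂ := (cOf ζ, aW n w ζ) with hx₀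
  have hper : x₀ ∈ Per n := hE.2.2.1
  have h1 : 1 < ‖mul n x₀‖ := one_lt_norm_mult_of_ext hn hE.1 hE.2.2.1
  have hne : mul n x₀ ≠ 1 := by intro h0; rw [h0, norm_one] at h1; exact lt_irrefl _ h1
  obtain ⟨β, hβ, hβ0, hβn⟩ := chart hper hne
  have hc : DifferentiableAt ℂ cOf ζ :=
    (differentiableOn_cOf ζ h).differentiableAt ((isOpen_lt continuous_const continuous_re).mem_nhds h)
  have ht : Tendsto (fun ξ => ((cOf ξ, β (cOf ξ)) : ℂ × ℂ)) (𝓝 ζ) (𝓝 x₀) := by
    have h2 : ContinuousAt β (cOf ζ) := hβ.continuousAt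
    have h3 : Tendsto (fun ξ => β (cOf ξ)) (𝓝 ζ) (𝓝 (β (cOf ζ))) :=
      h2.tendsto.comp hc.continuousAt.tendsto
    rw [hβ0] at h3
    exact hc.continuousAt.tendsto.prodMk_nhds h3
  have hpos : ∀ᶠ ξ in 𝓝 ζ, 0 < ξ.re := (isOpen_lt continuous_const continuous_re).mem_nhds h
  have hang : ∀ᶠ ξ : ℂ in 𝓝 ζ, |ξ.im / (2 * Real.pi) - ζ.im / (2 * Real.pi)| < 1 / 2 := by
    have hcc : Continuous fun ξ : ℂ => |ξ.im / (2 * Real.pi) - ζ.im / (2 * Real.pi)| :=
      ((continuous_im.div_const _).sub continuous_const).abs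
    exact hcc.continuousAt.eventually_lt_const (by simp)
  have heq : ∀ᶠ ξ in 𝓝 ζ, aW n w ξ = β (cOf ξ) := by
    filter_upwards [ht.eventually hβn, ht.eventually (extP_nhds hn hE (ε := 1 / 2) (by norm_num)),
      hpos, hang] with ξ h2 h3 h4 h5
    have h6 : it (cOf ξ) n (β (cOf ξ)) = β (cOf ξ) := h2.2 rfl
    obtain ⟨θ, hθ, hθE⟩ := h3 h6
    have h7 := aW_spec hn hw h4
    obtain ⟨m, hm⟩ := h7.ang.unique hθE.ang
    have hm0 : m = 0 := by
      have h8 : |(m : ℝ)| < 1 := by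
        have h9 : (m : ℝ) = (θ - ζ.im / (2 * Real.pi)) -
            (ξ.im / (2 * Real.pi) - ζ.im / (2 * Real.pi)) := by rw [hm]; ring
        rw [h9]
        refine (abs_sub _ _).trans_lt ?_
        linarith
      have h9 : |m| < 1 := by exact_mod_cast h8
      exact Int.abs_lt_one_iff.1 h9
    rw [hm0] at hm
    simp only [Int.cast_zero, add_zero] at hm
    rw [hm] at hθE
    exact extP_inj hn h7 hθE
  have hd : DifferentiableAt ℂ (fun ξ => β (cOf ξ)) ζ :=
    (hβ.differentiableAt).comp ζ hc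
  exact hd.congr_of_eventuallyEq heq

/-- the multiplier -/
noncomputable def rW (n : ℕ) (w : ℕ → ℤ) (ζ : ℂ) : ℂ := mult n (cOf ζ) (aW n w ζ)

lemma rW_eq (n : ℕ) (w : ℕ → ℤ) (ζ : ℂ) : rW n w ζ = mul n (cOf ζ, aW n w ζ) := rfl

theorem rW_diff (hn : 0 < n) (hw : Bits n w) {ζ : ℂ} (h : 0 < ζ.re) :
    DifferentiableAt ℂ (rW n w) ζ := by
  have hc : DifferentiableAt ℂ cOf ζ :=
    (differentiableOn_cOf ζ h).differentiableAt ((isOpen_lt continuous_const continuous_re).mem_nhds h)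
  have h1 : DifferentiableAt ℂ (fun ξ => ((cOf ξ, aW n w ξ) : ℂ × ℂ)) ζ :=
    hc.prodMk (aW_diff hn hw h)
  have h2 : DifferentiableAt ℂ (mul n) (cOf ζ, aW n w ζ) :=
    (contDiff_mul n).differentiable (by simp) _
  exact DifferentiableAt.comp (g := mul n) (f := fun ξ => ((cOf ξ, aW n w ξ) : ℂ × ℂ)) ζ h2 h1

theorem rW_norm (hn : 0 < n) (hw : Bits n w) {ζ : ℂ} (h : 0 < ζ.re) : 1 < ‖rW n w ζ‖ := by
  have hE := aW_spec hn hw h
  exact one_lt_norm_mult_of_ext hn hE.1 hE.2.2.1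

/-- `1 - exp (2 π i x) / ρ` -/
noncomputable def vW (n : ℕ) (w : ℕ → ℤ) (x : ℝ) (ζ : ℂ) : ℂ :=
  1 - exp (2 * Real.pi * x * I) / rW n w ζ

lemma norm_exp_turn (x : ℝ) : ‖exp (2 * Real.pi * x * I)‖ = 1 := by
  have : (2 * Real.pi * x * I : ℂ) = ((2 * Real.pi * x : ℝ) : ℂ) * I := by push_cast; ring
  rw [this, norm_exp_ofReal_mul_I]

theorem vW_diff (hn : 0 < n) (hw : Bits n w) (x : ℝ) {ζ : ℂ} (h : 0 < ζ.re) :
    DifferentiableAt ℂ (vW n w x) ζ := by
  have h1 := rW_norm hn hw h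
  have h2 : rW n w ζ ≠ 0 := by intro h0; rw [h0, norm_zero] at h1; linarith
  exact (differentiableAt_const _).sub ((differentiableAt_const _).div (rW_diff hn hw h) h2)

theorem vW_norm (hn : 0 < n) (hw : Bits n w) (x : ℝ) {ζ : ℂ} (h : 0 < ζ.re) :
    ‖vW n w x ζ‖ ≤ 2 := by
  have h1 := rW_norm hn hw h
  unfold vW
  refine (norm_sub_le _ _).trans ?_
  rw [norm_div, norm_exp_turn, norm_one]
  have : 1 / ‖rW n w ζ‖ ≤ 1 := by rw [div_le_one (by linarith)]; exact h1.le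
  linarith

/-! ### boundary values -/

lemma isClosed_rat {q : ℕ} (hq : 0 < q) : IsClosed {x : ℝ | ∃ P : ℤ, x = P / q} := by
  have h1 : IsClosed (range ((↑) : ℤ → ℝ)) := Int.isClosedEmbedding_coe_real.isClosed_range
  have h2 : {x : ℝ | ∃ P : ℤ, x = P / q} = (fun x : ℝ => x * q) ⁻¹' range ((↑) : ℤ → ℝ) := by
    have hq0 : (q : ℝ) ≠ 0 := by exact_mod_cast hq.ne'
    ext x
    constructor
    · rintro ⟨P, rfl⟩
      exact ⟨P, by field_simp⟩
    · rintro ⟨P, hP⟩
      exact ⟨P, by rw [hP]; field_simp⟩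
  rw [h2]
  exact h1.preimage (by fun_prop)

lemma norm_one_sub_exp_le {z : ℂ} (h : z.re ≤ 0) : ‖1 - exp z‖ ≤ ‖z‖ := by
  have h1 := Convex.norm_image_sub_le_of_norm_deriv_le (𝕜 := ℂ) (f := exp) (C := 1)
    (s := {z : ℂ | z.re ≤ 0}) (x := z) (y := 0) (fun x _ => Complex.differentiableAt_exp)
    (fun x hx => by
      rw [Complex.deriv_exp, Complex.norm_exp]
      exact Real.exp_le_one_iff.2 hx)
    (convex_halfSpace_re_le 0) h (by simp)
  simpa using h1

lemma rat_dist {P P' : ℤ} {Q q : ℕ} (hQ : 0 < Q) (hq : 0 < q) (h : (P' / q : ℝ) ≠ P / Q) :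
    1 / (q : ℝ) ≤ Q * |(P' / q : ℝ) - P / Q| := by
  have hQ0 : (0 : ℝ) < Q := by exact_mod_cast hQ
  have hq0 : (0 : ℝ) < q := by exact_mod_cast hq
  have h1 : (P' / q : ℝ) - P / Q = ((P' * Q - P * q : ℤ) : ℝ) / (q * Q) := by
    push_cast; field_simp
  have h2 : (P' * Q - P * q : ℤ) ≠ 0 := by
    intro h0
    rw [h0] at h1
    simp only [Int.cast_zero, zero_div] at h1
    exact h (by linarith)
  have h3 : (1 : ℝ) ≤ |((P' * Q - P * q : ℤ) : ℝ)| := by exact_mod_cast Int.one_le_abs h2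
  rw [h1, abs_div, abs_of_pos (show (0 : ℝ) < q * Q by positivity)]
  rw [div_le_iff₀ hq0]
  have h4 : (Q : ℝ) * (|((P' * Q - P * q : ℤ) : ℝ)| / (q * Q)) * q = |((P' * Q - P * q : ℤ) : ℝ)| := by
    field_simp
  rw [h4]; exact h3

/-- the limit point estimate -/
theorem limit_bound (hn : 0 < n) {P : ℤ} {Q : ℕ} (hQ : 0 < Q) {θ : ℝ}
    (hne : Circ.nu w n θ ≠ P / Q) (hle : |Circ.nu w n θ - P / Q| ≤ 1) {c b l : ℂ}
    (hc : G c 0 = 0) (hb : it c n b = b) (hl : exp l = mult n c b)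
    (hply : ‖l - 2 * Real.pi * (Circ.nu w n θ : ℝ) * I‖ ^ 2 ≤ 81 * n * l.re)
    (hrat : ∀ q : ℕ, 0 < q → (∀ᶠ x : ℂ × ℂ in 𝓝 (c, b), x ∈ Per n →
      ∀ θ, ExtP n x.1 x.2 θ w → ∃ P : ℤ, Circ.nu w n θ = P / q) →
      ∃ P : ℤ, Circ.nu w n θ = P / q) :
    ‖1 - exp (2 * Real.pi * ((P / Q : ℝ) : ℂ) * I) / exp l‖ ≤
      17 * n * √(Q * |Circ.nu w n θ - P / Q|) := by
  have hn0 : (1 : ℝ) ≤ n := by exact_mod_cast hn
  have hQ0 : (1 : ℝ) ≤ Q := by exact_mod_cast hQ
  set ν := Circ.nu w n θ with hν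
  set d : ℝ := |ν - P / Q| with hd
  have hd0 : 0 ≤ d := abs_nonneg _
  set s : ℝ := √(Q * d) with hs
  have hs0 : 0 ≤ s := Real.sqrt_nonneg _
  have hs2 : s ^ 2 = Q * d := Real.sq_sqrt (by positivity)
  have hds : d ≤ s := by
    refine Real.le_sqrt_of_sq_le ?_
    nlinarith
  have hpi := Real.pi_lt_d4
  have hpi0 := Real.pi_pos
  set z : ℂ := 2 * Real.pi * ((P / Q : ℝ) : ℂ) * I - l with hz
  have hzre : z.re = - l.re := by
    rw [hz, sub_re]
    have : (2 * Real.pi * ((P / Q : ℝ) : ℂ) * I : ℂ) = ((2 * Real.pi * (P / Q) : ℝ) : ℂ) * I := by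
      push_cast; ring
    rw [this, re_ofReal_mul, I_re]; ring
  have hlre : 0 ≤ l.re := by
    by_contra hcon
    push Not at hcon
    have h1 : 0 ≤ ‖l - 2 * Real.pi * (ν : ℝ) * I‖ ^ 2 := by positivity
    have h2 : 81 * (n : ℝ) * l.re < 0 := by
      have : (0 : ℝ) < 81 * n := by positivity
      exact mul_neg_of_pos_of_neg this hcon
    linarith
  have hv : 1 - exp (2 * Real.pi * ((P / Q : ℝ) : ℂ) * I) / exp l = 1 - exp z := by
    rw [hz, Complex.exp_sub]
  rw [hv]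
  refine (norm_one_sub_exp_le (by rw [hzre]; linarith)).trans ?_
  have hz2 : ‖z‖ ≤ ‖l - 2 * Real.pi * (ν : ℝ) * I‖ + 2 * Real.pi * d := by
    have h1 : z = -(l - 2 * Real.pi * (ν : ℝ) * I) + ((-(2 * Real.pi * (ν - P / Q)) : ℝ) : ℂ) * I := by
      rw [hz]; push_cast; ring
    rw [h1]
    refine (norm_add_le _ _).trans ?_
    rw [norm_neg, norm_mul, norm_I, mul_one, norm_real, Real.norm_eq_abs, abs_neg, abs_mul,
      abs_of_pos (show 0 < 2 * Real.pi by positivity)]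
  suffices h : ‖l - 2 * Real.pi * (ν : ℝ) * I‖ ≤ 10.7 * n * s by
    have h1 : 2 * Real.pi * d ≤ 6.2832 * s := by nlinarith
    have h2 : 6.2832 * s ≤ 6.3 * n * s := by nlinarith
    have h3 : (0 : ℝ) ≤ n * s := by positivity
    nlinarith
  rcases hlre.eq_or_lt with h0 | h0
  · rw [← h0, mul_zero] at hply
    have h1 : ‖l - 2 * Real.pi * (ν : ℝ) * I‖ = 0 := by
      have h2 := norm_nonneg (l - 2 * Real.pi * (ν : ℝ) * I)
      nlinarith
    rw [h1]; positivity
  · have hρ : 1 < ‖mult n c b‖ := by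
      rw [← hl, Complex.norm_exp]; exact Real.one_lt_exp_iff.2 h0
    have hlin := lin_Lz hn hb hρ
    obtain ⟨β, q, p, hq, hland, -, -, hp⟩ := Tr.exists_land_rot hlin hc hl
    have hq0 : (0 : ℝ) < q := by exact_mod_cast hq
    obtain ⟨P', hP'⟩ : ∃ P' : ℤ, Circ.nu w n θ = P' / q := by
      refine hrat q hq ?_
      filter_upwards [land_nhds hn hc hb hρ hland] with x h1 hx θ' hE
      obtain ⟨P', -, hP'⟩ := nu_of_compat hland.1 hE.2.2.2.1.per ((h1 hx).2 θ' w hE.1 hE.2.1 hE.2.2.2.2)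
      exact ⟨P', hP'⟩
    have hq1 : 1 / (q : ℝ) ≤ Q * d := by
      rw [hd, hν, hP']
      refine rat_dist hQ hq ?_
      rw [← hP']; exact hne
    have hlog2 : Real.log 2 < 0.7 := by have := Real.log_two_lt_d9; linarith
    have hlog20 : 0 < Real.log 2 := Real.log_pos (by norm_num)
    have h1 : l.re ≤ 2 * n * Real.log 2 / q := by
      have h2 : |(l - 2 * Real.pi * (p / q : ℂ) * I).re| ≤ ‖l - 2 * Real.pi * (p / q : ℂ) * I‖ :=
        abs_re_le_norm _
      have h3 : (l - 2 * Real.pi * (p / q : ℂ) * I).re = l.re := by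
        have h4 : (2 * Real.pi * (p / q : ℂ) * I : ℂ) = ((2 * Real.pi * (p / q) : ℝ) : ℂ) * I := by
          push_cast; ring
        rw [sub_re, h4, re_ofReal_mul, I_re]; ring
      rw [h3, abs_of_pos h0] at h2
      have h4 : l.re * l.re ≤ 2 * n * Real.log 2 / q * l.re := by nlinarith
      exact le_of_mul_le_mul_right h4 h0
    have h2 : l.re ≤ 1.4 * n * s ^ 2 := by
      refine h1.trans ?_
      rw [hs2]
      have h3 : 2 * (n : ℝ) * Real.log 2 / q = 2 * n * Real.log 2 * (1 / q) := by ring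
      rw [h3]
      calc 2 * n * Real.log 2 * (1 / q) ≤ 2 * n * Real.log 2 * (Q * d) := by gcongr
        _ ≤ 1.4 * n * (Q * d) := by
          have : (0 : ℝ) ≤ n * (Q * d) := by positivity
          nlinarith
    refine abs_le_of_sq_le_sq' ?_ (by positivity) |>.2
    refine hply.trans ?_
    have h3 : 81 * n * l.re ≤ 81 * n * (1.4 * n * s ^ 2) := by gcongr
    refine h3.trans ?_
    have h4 : (0 : ℝ) ≤ n ^ 2 * s ^ 2 := by positivity
    nlinarith

theorem vW_boundary (hn : 0 < n) (hw : Bits n w) {P : ℤ} {Q : ℕ} (hQ : 0 < Q) {θ : ℝ}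
    (hne : Circ.nu w n θ ≠ P / Q) (hle : |Circ.nu w n θ - P / Q| ≤ 1) {ε : ℝ} (hε : 0 < ε) :
    ∀ᶠ ζ in 𝓝[{ζ : ℂ | 0 < ζ.re}] (2 * Real.pi * θ * I),
      ‖vW n w (P / Q) ζ‖ ≤ 17 * n * √(Q * |Circ.nu w n θ - P / Q|) + ε := by
  by_contra hcon
  rw [Filter.not_eventually] at hcon
  have hG : NeBot (𝓝[{ζ : ℂ | 0 < ζ.re}] (2 * Real.pi * θ * I) ⊓
    𝓟 {ζ | ¬ ‖vW n w (P / Q) ζ‖ ≤ 17 * n * √(Q * |Circ.nu w n θ - P / Q|) + ε}) :=
    Filter.frequently_iff_neBot.1 hcon
  set U := Ultrafilter.of (𝓝[{ζ : ℂ | 0 < ζ.re}] (2 * Real.pi * θ * I) ⊓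
    𝓟 {ζ | ¬ ‖vW n w (P / Q) ζ‖ ≤ 17 * n * √(Q * |Circ.nu w n θ - P / Q|) + ε}) with hU
  have hUle := Ultrafilter.of_le (𝓝[{ζ : ℂ | 0 < ζ.re}] (2 * Real.pi * θ * I) ⊓
    𝓟 {ζ | ¬ ‖vW n w (P / Q) ζ‖ ≤ 17 * n * √(Q * |Circ.nu w n θ - P / Q|) + ε})
  rw [← hU] at hUle
  have hU1 : (U : Filter ℂ) ≤ 𝓝[{ζ : ℂ | 0 < ζ.re}] (2 * Real.pi * θ * I) := hUle.trans inf_le_left
  have hU2 : (U : Filter ℂ) ≤ 𝓝 (2 * Real.pi * θ * I) := hU1.trans nhdsWithin_le_nhds
  have hpos : ∀ᶠ ζ in (U : Filter ℂ), 0 < ζ.re := hU1 self_mem_nhdsWithin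
  have hbig : ∀ᶠ ζ in (U : Filter ℂ), 17 * n * √(Q * |Circ.nu w n θ - P / Q|) + ε <
      ‖vW n w (P / Q) ζ‖ := by
    have h1 : {ζ | ¬ ‖vW n w (P / Q) ζ‖ ≤ 17 * n * √(Q * |Circ.nu w n θ - P / Q|) + ε} ∈ U :=
      (hUle.trans inf_le_right) (mem_principal_self _)
    filter_upwards [h1] with ζ h2
    exact not_le.1 h2
  have hp0 : (2 * Real.pi * θ * I : ℂ) = ((2 * Real.pi * θ : ℝ) : ℂ) * I := by push_cast; ring
  have hre0 : Tendsto (fun ζ : ℂ => ζ.re) U (𝓝 0) := by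
    have h1 : Tendsto (fun ζ : ℂ => ζ.re) U (𝓝 (2 * Real.pi * θ * I : ℂ).re) :=
      (continuous_re.tendsto _).mono_left hU2
    have h2 : (2 * Real.pi * θ * I : ℂ).re = 0 := by rw [hp0, re_ofReal_mul, I_re, mul_zero]
    rwa [h2] at h1
  have him0 : Tendsto (fun ζ : ℂ => ζ.im / (2 * Real.pi)) U (𝓝 θ) := by
    have h1 : Tendsto (fun ζ : ℂ => ζ.im / (2 * Real.pi)) U
        (𝓝 ((2 * Real.pi * θ * I : ℂ).im / (2 * Real.pi))) :=
      ((continuous_im.div_const _).tendsto _).mono_left hU2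
    have h2 : (2 * Real.pi * θ * I : ℂ).im / (2 * Real.pi) = θ := by
      rw [hp0, im_ofReal_mul, I_im]
      have := Real.pi_pos.ne'
      field_simp
    rwa [h2] at h1
  have hnu0 : Tendsto (fun ζ : ℂ => Circ.nu w n (ζ.im / (2 * Real.pi))) U (𝓝 (Circ.nu w n θ)) :=
    (Circ.nu_continuous w n).continuousAt.tendsto.comp him0
  have hex : ∀ ζ : ℂ, ∃ l : ℂ, 0 < ζ.re → ζ.re ≤ 4 → exp l = rW n w ζ ∧
      ‖l - 2 * Real.pi * (Circ.nu w n (ζ.im / (2 * Real.pi)) : ℝ) * I‖ ^ 2 ≤ 81 * n * l.re := by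
    intro ζ
    by_cases h1 : 0 < ζ.re ∧ ζ.re ≤ 4
    · obtain ⟨-, l, h2, h3⟩ := extP_ply hn (aW_spec hn hw h1.1) (by rw [G_cOf h1.1]; exact h1.2)
      exact ⟨l, fun _ _ => ⟨h2, h3⟩⟩
    · exact ⟨0, fun h2 h3 => absurd ⟨h2, h3⟩ h1⟩
  choose ℓ hℓ using hex
  have hle4 : ∀ᶠ ζ in (U : Filter ℂ), ζ.re ≤ 4 :=
    hre0.eventually_le_const (by norm_num)
  have hnuB : ∀ᶠ ζ in (U : Filter ℂ), |Circ.nu w n (ζ.im / (2 * Real.pi))| ≤ |Circ.nu w n θ| + 1 :=
    hnu0.abs.eventually_le_const (by linarith)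
  set K : Set (ℂ × ℂ × ℂ) := closedBall 0 (2 * Real.exp 4 + 100) ×ˢ
    closedBall 0 (1 + (2 * Real.exp 4 + 100)) ×ˢ
    closedBall 0 (81 * n + 2 * Real.pi * (|Circ.nu w n θ| + 1)) with hK
  have hKc : IsCompact K := (isCompact_closedBall _ _).prod
    ((isCompact_closedBall _ _).prod (isCompact_closedBall _ _))
  have hn0 : (1 : ℝ) ≤ n := by exact_mod_cast hn
  have hmem : ∀ᶠ ζ in (U : Filter ℂ), (cOf ζ, aW n w ζ, ℓ ζ) ∈ K := by
    filter_upwards [hpos, hle4, hnuB] with ζ h1 h2 h3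
    obtain ⟨h4, h5⟩ := hℓ ζ h1 h2
    have hE := aW_spec hn hw h1
    have h6 : ‖cOf ζ‖ ≤ 2 * Real.exp 4 + 100 := norm_le_of_G_le (by rw [G_cOf h1]; exact h2)
    have h7 : ‖aW n w ζ‖ ≤ 1 + ‖cOf ζ‖ := norm_le_of_G_zero (G_zero_of_per hn hE.2.2.1)
    refine ⟨mem_closedBall_zero_iff.2 h6, mem_closedBall_zero_iff.2 (by linarith),
      mem_closedBall_zero_iff.2 ?_⟩
    set A : ℂ := 2 * Real.pi * (Circ.nu w n (ζ.im / (2 * Real.pi)) : ℝ) * I with hA
    have hA1 : A = ((2 * Real.pi * Circ.nu w n (ζ.im / (2 * Real.pi)) : ℝ) : ℂ) * I := by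
      rw [hA]; push_cast; ring
    have h8 : (ℓ ζ).re ≤ ‖ℓ ζ - A‖ := by
      have h9 : (ℓ ζ - A).re = (ℓ ζ).re := by rw [sub_re, hA1, re_ofReal_mul, I_re]; ring
      rw [← h9]; exact re_le_norm _
    have h10 : ‖ℓ ζ - A‖ ≤ 81 * n := by
      by_contra hcc
      push Not at hcc
      have h11 : 0 < ‖ℓ ζ - A‖ := lt_trans (by positivity) hcc
      nlinarith
    have h12 : ‖A‖ ≤ 2 * Real.pi * (|Circ.nu w n θ| + 1) := by
      rw [hA1, norm_mul, norm_I, mul_one, norm_real, Real.norm_eq_abs, abs_mul,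
        abs_of_pos (show 0 < 2 * Real.pi by positivity)]
      gcongr
    calc ‖ℓ ζ‖ = ‖(ℓ ζ - A) + A‖ := by rw [sub_add_cancel]
      _ ≤ ‖ℓ ζ - A‖ + ‖A‖ := norm_add_le _ _
      _ ≤ _ := by linarith
  obtain ⟨x, -, hx⟩ := hKc.ultrafilter_le_nhds (U.map fun ζ => (cOf ζ, aW n w ζ, ℓ ζ)) (by
    rw [Filter.le_principal_iff]; exact hmem)
  obtain ⟨c, b, l⟩ := x
  have hT : Tendsto (fun ζ => (cOf ζ, aW n w ζ, ℓ ζ)) U (𝓝 (c, b, l)) := hx
  have hTc : Tendsto cOf U (𝓝 c) := (continuous_fst.tendsto _).comp hT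
  have hTb : Tendsto (aW n w) U (𝓝 b) := ((continuous_fst.comp continuous_snd).tendsto _).comp hT
  have hTl : Tendsto ℓ U (𝓝 l) := ((continuous_snd.comp continuous_snd).tendsto _).comp hT
  have hTcb : Tendsto (fun ζ => ((cOf ζ, aW n w ζ) : ℂ × ℂ)) U (𝓝 (c, b)) := hTc.prodMk_nhds hTb
  have hb : it c n b = b := by
    have h1 : (c, b) ∈ Per n := (isClosed_Per n).mem_of_tendsto hTcb (by
      filter_upwards [hpos] with ζ h1
      exact (aW_spec hn hw h1).2.2.1)
    exact h1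
  have hc : G c 0 = 0 := by
    have h1 : Tendsto (fun ζ => G (cOf ζ) (cOf ζ)) U (𝓝 (G c c)) :=
      (continuous_G_diag.tendsto c).comp hTc
    have h2 : Tendsto (fun ζ => G (cOf ζ) (cOf ζ)) U (𝓝 0) := by
      refine hre0.congr' ?_
      filter_upwards [hpos] with ζ h1
      exact (G_cOf h1).symm
    have h3 := tendsto_nhds_unique h1 h2
    rw [G_self] at h3; linarith
  have hTr : Tendsto (rW n w) U (𝓝 (mult n c b)) := by
    have h1 : Tendsto (fun ζ => mul n (cOf ζ, aW n w ζ)) U (𝓝 (mul n (c, b))) :=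
      ((contDiff_mul n).continuous.tendsto (c, b)).comp hTcb
    rw [mult_eq_mul]
    exact h1.congr fun ζ => (rW_eq n w ζ).symm
  have hl : exp l = mult n c b := by
    have h1 : Tendsto (fun ζ => exp (ℓ ζ)) U (𝓝 (exp l)) := (continuous_exp.tendsto _).comp hTl
    refine tendsto_nhds_unique h1 (hTr.congr' ?_)
    filter_upwards [hpos, hle4] with ζ h1 h2
    exact (hℓ ζ h1 h2).1.symm
  have hply : ‖l - 2 * Real.pi * (Circ.nu w n θ : ℝ) * I‖ ^ 2 ≤ 81 * n * l.re := by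
    have h1 : Tendsto (fun ζ : ℂ =>
        ‖ℓ ζ - 2 * Real.pi * (Circ.nu w n (ζ.im / (2 * Real.pi)) : ℝ) * I‖ ^ 2) U
        (𝓝 (‖l - 2 * Real.pi * (Circ.nu w n θ : ℝ) * I‖ ^ 2)) := by
      have h2 : Tendsto (fun ζ : ℂ => ((Circ.nu w n (ζ.im / (2 * Real.pi)) : ℝ) : ℂ)) U
          (𝓝 ((Circ.nu w n θ : ℝ) : ℂ)) := (continuous_ofReal.tendsto _).comp hnu0
      exact ((hTl.sub ((tendsto_const_nhds.mul h2).mul tendsto_const_nhds)).norm).pow 2
    have h3 : Tendsto (fun ζ : ℂ => 81 * n * (ℓ ζ).re) U (𝓝 (81 * n * l.re)) :=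
      tendsto_const_nhds.mul ((continuous_re.tendsto _).comp hTl)
    refine le_of_tendsto_of_tendsto h1 h3 ?_
    filter_upwards [hpos, hle4] with ζ h1 h2
    exact (hℓ ζ h1 h2).2
  have hfin := limit_bound hn hQ hne hle hc hb hl hply (by
    intro q hq hev
    refine (isClosed_rat hq).mem_of_tendsto hnu0 ?_
    filter_upwards [hpos, hTcb.eventually hev] with ζ h1 h2
    exact h2 (aW_spec hn hw h1).2.2.1 _ (aW_spec hn hw h1))
  have hTv : Tendsto (fun ζ => ‖vW n w (P / Q) ζ‖) U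
      (𝓝 ‖1 - exp (2 * Real.pi * ((P / Q : ℝ) : ℂ) * I) / exp l‖) := by
    rw [hl]
    have hne0 : mult n c b ≠ 0 := by rw [← hl]; exact exp_ne_zero _
    have h1 : Tendsto (fun ζ => ‖1 - exp (2 * Real.pi * ((P / Q : ℝ) : ℂ) * I) / rW n w ζ‖) U
        (𝓝 ‖1 - exp (2 * Real.pi * ((P / Q : ℝ) : ℂ) * I) / mult n c b‖) :=
      ((tendsto_const_nhds (x := (1 : ℂ))).sub
        ((tendsto_const_nhds (x := exp (2 * Real.pi * ((P / Q : ℝ) : ℂ) * I))).div hTr hne0)).norm
    exact h1.congr fun ζ => by rw [vW]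
  have h1 := ge_of_tendsto hTv (hbig.mono fun _ h => h.le)
  linarith

/-! ### the maximum principle -/

theorem norm_le_of_limsup {U : Set ℂ} (hU : IsOpen U) (hb : Bornology.IsBounded U) {F : ℂ → ℂ}
    (hF : DifferentiableOn ℂ F U) {B : ℝ}
    (h : ∀ z ∈ frontier U, ∀ ε > 0, ∀ᶠ w in 𝓝[U] z, ‖F w‖ ≤ B + ε) {z : ℂ} (hz : z ∈ U) :
    ‖F z‖ ≤ B := by
  refine le_of_forall_pos_le_add fun ε hε => ?_
  by_contra hcon
  push Not at hcon
  set V : Set ℂ := U ∩ {w | B + ε < ‖F w‖} with hV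
  have hVo : IsOpen V := hF.continuousOn.norm.isOpen_inter_preimage hU isOpen_Ioi
  have hVU : V ⊆ U := inter_subset_left
  have hcl : closure V ⊆ U := by
    intro x hx
    by_contra hxU
    have hxf : x ∈ frontier U := ⟨closure_mono hVU hx, by rwa [hU.interior_eq]⟩
    have h1 := h x hxf ε hε
    have : NeBot (𝓝[V] x) := mem_closure_iff_nhdsWithin_neBot.1 hx
    have h2 : ∀ᶠ w in 𝓝[V] x, ‖F w‖ ≤ B + ε := nhdsWithin_mono x hVU h1
    have h3 : ∀ᶠ w in 𝓝[V] x, w ∈ V := self_mem_nhdsWithin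
    obtain ⟨w, h4, h5⟩ := (h2.and h3).exists
    exact absurd h4 (not_le.2 h5.2)
  have hd : DiffContOnCl ℂ F V := ⟨hF.mono hVU, hF.continuousOn.mono hcl⟩
  have hfr : ∀ x ∈ frontier V, ‖F x‖ ≤ B + ε := by
    intro x hx
    have h1 : x ∈ U := hcl hx.1
    have h2 : x ∉ V := by
      have := hx.2
      rwa [hVo.interior_eq] at this
    by_contra h3
    exact h2 ⟨h1, not_le.1 h3⟩
  have h4 := Complex.norm_le_of_forall_mem_frontier_norm_le (hb.subset hVU) hd hfr
    (subset_closure (show z ∈ V from ⟨hz, hcon⟩))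
  exact absurd h4 (not_le.2 hcon)

lemma norm_log_le {w : ℂ} (h : 0 < w.re) (h1 : ‖w‖ ≤ 1) :
    ‖Complex.log w‖ ≤ -Real.log ‖w‖ + Real.pi / 2 := by
  refine (Complex.norm_le_abs_re_add_abs_im _).trans ?_
  rw [Complex.log_re, Complex.log_im]
  have h2 : |Complex.arg w| ≤ Real.pi / 2 := Complex.abs_arg_le_pi_div_two_iff.2 h.le
  have h3 : Real.log ‖w‖ ≤ 0 := Real.log_nonpos (norm_nonneg _) h1
  rw [abs_of_nonpos h3]
  linarith

/-- Phragmen-Lindelöf for a reflected bounded function on a half disc: `u` bounded by `2`, with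
boundary values at one of each two symmetric points `± i y` bounded by `M y`, where
`4 (M y)² (log (1 / y) + π / 2) < B` -/
theorem reflect_bound {u : ℂ → ℂ} (hu : ∀ w : ℂ, 0 < w.re → DifferentiableAt ℂ u w)
    (hu2 : ∀ w : ℂ, 0 < w.re → ‖u w‖ ≤ 2) {R B : ℝ} (hR : 0 < R) (hR1 : R < 1)
    (hB : 16 * (-Real.log R + Real.pi / 2) ≤ B)
    (hbd : ∀ y : ℝ, 0 < y → y < R → ∃ M : ℝ, 0 ≤ M ∧ 4 * M ^ 2 * (-Real.log y + Real.pi / 2) < B ∧
      ((∀ ε > 0, ∀ᶠ w in 𝓝[{w : ℂ | 0 < w.re}] ((y : ℂ) * I), ‖u w‖ ≤ M + ε) ∨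
        ∀ ε > 0, ∀ᶠ w in 𝓝[{w : ℂ | 0 < w.re}] (-((y : ℂ) * I)), ‖u w‖ ≤ M + ε))
    {g : ℝ} (hg : 0 < g) (hgR : g < R) : ‖u g‖ ^ 4 * (-Real.log g) ≤ B := by
  have hpi := Real.pi_pos
  have hlogR : Real.log R < 0 := Real.log_neg hR hR1
  have hB0 : 0 < B := lt_of_lt_of_le (by nlinarith) hB
  set D : Set ℂ := {w : ℂ | ‖w‖ < R ∧ 0 < w.re} with hD
  have hDo : IsOpen D := (isOpen_lt continuous_norm continuous_const).inter
    (isOpen_lt continuous_const continuous_re)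
  have hDb : Bornology.IsBounded D := by
    refine Metric.isBounded_ball (x := (0 : ℂ)) (r := R) |>.subset ?_
    intro w hw
    exact mem_ball_zero_iff.2 hw.1
  set H : ℂ → ℂ := fun w => u w * (starRingEnd ℂ) (u ((starRingEnd ℂ) w)) with hH
  have hHd : ∀ w : ℂ, 0 < w.re → DifferentiableAt ℂ H w := by
    intro w hw
    refine (hu w hw).mul ?_
    have h1 : DifferentiableAt ℂ u ((starRingEnd ℂ) w) := hu _ (by rw [conj_re]; exact hw)
    have h2 := h1.conj_conj
    rw [conj_conj] at h2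
    exact h2
  have hHn : ∀ w : ℂ, ‖H w‖ = ‖u w‖ * ‖u ((starRingEnd ℂ) w)‖ := by
    intro w; simp only [hH]; rw [norm_mul, RCLike.norm_conj]
  have hH4 : ∀ w : ℂ, 0 < w.re → ‖H w‖ ≤ 4 := by
    intro w hw
    rw [hHn]
    have h1 := hu2 w hw
    have h2 := hu2 ((starRingEnd ℂ) w) (by rw [conj_re]; exact hw)
    nlinarith [norm_nonneg (u w), norm_nonneg (u ((starRingEnd ℂ) w))]
  -- the auxiliary function
  have key : ∀ η : ℝ, 0 < η → ∀ w ∈ D,
      ‖H w ^ 2 * Complex.log w * exp (η * Complex.log w)‖ ≤ B := by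
    intro η hη w hw
    have hnorm : ∀ w ∈ D, ‖H w ^ 2 * Complex.log w * exp (η * Complex.log w)‖ ≤
        ‖H w‖ ^ 2 * (-Real.log ‖w‖ + Real.pi / 2) * Real.exp (η * Real.log ‖w‖) := by
      intro w hw
      rw [norm_mul, norm_mul, norm_pow, Complex.norm_exp]
      have h1 : ((η : ℂ) * Complex.log w).re = η * Real.log ‖w‖ := by
        rw [re_ofReal_mul, Complex.log_re]
      rw [h1]
      gcongr
      exact norm_log_le hw.2 (hw.1.le.trans hR1.le)
    have hexp1 : ∀ w ∈ D, Real.exp (η * Real.log ‖w‖) ≤ 1 := by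
      intro w hw
      rw [Real.exp_le_one_iff]
      exact mul_nonpos_of_nonneg_of_nonpos hη.le
        (Real.log_nonpos (norm_nonneg _) (hw.1.le.trans hR1.le))
    have hlogpos : ∀ w ∈ D, 0 ≤ -Real.log ‖w‖ + Real.pi / 2 := by
      intro w hw
      have := Real.log_nonpos (norm_nonneg w) (hw.1.le.trans hR1.le)
      linarith
    refine norm_le_of_limsup hDo hDb (F := fun w => H w ^ 2 * Complex.log w *
      exp (η * Complex.log w)) ?_ ?_ hw
    · intro w hw
      have h1 : DifferentiableAt ℂ Complex.log w :=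
        (Complex.differentiableAt_log (Complex.mem_slitPlane_iff.2 (Or.inl hw.2)))
      exact ((((hHd w hw.2).pow 2).mul h1).mul ((h1.const_mul _).cexp)).differentiableWithinAt
    · intro z hz ε hε
      have hzc : ‖z‖ ≤ R ∧ 0 ≤ z.re := by
        have h1 : z ∈ closure D := hz.1
        have h2 : closure D ⊆ {w : ℂ | ‖w‖ ≤ R ∧ 0 ≤ w.re} := by
          refine closure_minimal (fun w hw => ⟨hw.1.le, hw.2.le⟩) ?_
          exact (isClosed_le continuous_norm continuous_const).inter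
            (isClosed_le continuous_const continuous_re)
        exact h2 h1
      have hznD : z ∉ D := by
        have := hz.2
        rwa [hDo.interior_eq] at this
      rcases hzc.1.eq_or_lt with hzR | hzR
      · -- on the arc
        have hcont : ContinuousAt (fun w : ℂ => 16 * (-Real.log ‖w‖ + Real.pi / 2)) z := by
          have h1 : ContinuousAt (fun w : ℂ => Real.log ‖w‖) z :=
            continuous_norm.continuousAt.log (by rw [hzR]; exact hR.ne')
          exact continuousAt_const.mul (h1.neg.add continuousAt_const)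
        have h2 : ∀ᶠ w in 𝓝 z, 16 * (-Real.log ‖w‖ + Real.pi / 2) < B + ε := by
          refine hcont.eventually_lt_const ?_
          show 16 * (-Real.log ‖z‖ + Real.pi / 2) < B + ε
          rw [hzR]; linarith
        filter_upwards [nhdsWithin_le_nhds h2, self_mem_nhdsWithin] with w h3 h4
        refine (hnorm w h4).trans (le_trans ?_ h3.le)
        have h5 := hH4 w h4.2
        have h6 := hexp1 w h4
        have h7 := hlogpos w h4
        have h8 : ‖H w‖ ^ 2 ≤ 16 := by nlinarith [norm_nonneg (H w)]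
        calc ‖H w‖ ^ 2 * (-Real.log ‖w‖ + Real.pi / 2) * Real.exp (η * Real.log ‖w‖)
            ≤ 16 * (-Real.log ‖w‖ + Real.pi / 2) * 1 := by gcongr
          _ = _ := by ring
      · have hzre : z.re = 0 := by
          by_contra hne
          exact hznD ⟨hzR, lt_of_le_of_ne hzc.2 (Ne.symm hne)⟩
        by_cases hz0 : z = 0
        · -- at the origin
          subst hz0
          have h1 : Tendsto (fun w : ℂ => Real.log ‖w‖) (𝓝[≠] 0) atBot := by
            refine Real.tendsto_log_nhdsGT_zero.comp ?_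
            exact tendsto_norm_nhdsNE_zero
          have h2 : ∀ᶠ w in 𝓝[≠] (0 : ℂ), Real.log ‖w‖ ≤ -(max 2 (64 / (η ^ 2 * B))) :=
            h1.eventually_le_atBot _
          have h3 : 𝓝[D] (0 : ℂ) ≤ 𝓝[≠] 0 := by
            refine nhdsWithin_mono _ fun w hw => ?_
            rintro rfl
            have := hw.2
            simp at this
          filter_upwards [h3 h2, self_mem_nhdsWithin] with w h4 h5
          refine (hnorm w h5).trans ?_
          set x : ℝ := -Real.log ‖w‖ with hx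
          have hx1 : 2 ≤ x := by have := le_max_left 2 (64 / (η ^ 2 * B)); linarith
          have hx2 : 64 / (η ^ 2 * B) ≤ x := by have := le_max_right 2 (64 / (η ^ 2 * B)); linarith
          have h6 : Real.exp (η * Real.log ‖w‖) = 1 / Real.exp (η * x) := by
            rw [hx, one_div, ← Real.exp_neg]; congr 1; ring
          have h7 : (η * x) ^ 2 / 2 ≤ Real.exp (η * x) := by
            have := Real.quadratic_le_exp_of_nonneg (show 0 ≤ η * x by positivity)
            nlinarith [show 0 ≤ η * x by positivity]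
          have h8 : ‖H w‖ ^ 2 ≤ 16 := by nlinarith [norm_nonneg (H w), hH4 w h5.2]
          have h9 : x + Real.pi / 2 ≤ 2 * x := by have := Real.pi_le_four; linarith
          rw [h6]
          have h10 : 64 ≤ x * (η ^ 2 * B) := by
            rwa [div_le_iff₀ (by positivity)] at hx2
          calc ‖H w‖ ^ 2 * (x + Real.pi / 2) * (1 / Real.exp (η * x))
              ≤ 16 * (2 * x) * (1 / ((η * x) ^ 2 / 2)) := by gcongr
            _ = 64 / (x * η ^ 2) := by field_simp; ring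
            _ ≤ B := by
              rw [div_le_iff₀ (by positivity)]
              nlinarith
            _ ≤ B + ε := by linarith
        · -- on the axis
          have hzim : z.im ≠ 0 := fun h0 => hz0 (Complex.ext hzre h0)
          set y : ℝ := |z.im| with hy
          have hy0 : 0 < y := abs_pos.2 hzim
          have hzn : ‖z‖ = y := by
            have h1 : z = (z.im : ℂ) * I := by
              apply Complex.ext
              · rw [re_ofReal_mul, I_re, hzre]; ring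
              · rw [im_ofReal_mul, I_im]; ring
            rw [h1, norm_mul, norm_I, mul_one, norm_real, Real.norm_eq_abs]
          obtain ⟨M, hM0, hM1, hM2⟩ := hbd y hy0 (by rw [← hzn]; exact hzR)
          -- in both cases the product is bounded by `2 (M + δ)`
          have hprod : ∀ δ > 0, ∀ᶠ w in 𝓝[D] z, ‖H w‖ ≤ 2 * (M + δ) := by
            intro δ hδ
            have hDP : 𝓝[D] z ≤ 𝓝[{w : ℂ | 0 < w.re}] z := nhdsWithin_mono _ fun w hw => hw.2
            have hconj : Tendsto (starRingEnd ℂ) (𝓝[D] z)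
                (𝓝[{w : ℂ | 0 < w.re}] ((starRingEnd ℂ) z)) := by
              refine tendsto_nhdsWithin_iff.2 ⟨?_, ?_⟩
              · exact (continuous_conj.tendsto z).mono_left nhdsWithin_le_nhds
              · filter_upwards [self_mem_nhdsWithin] with w hw
                show 0 < ((starRingEnd ℂ) w).re
                rw [conj_re]; exact hw.2
            have hcz : (starRingEnd ℂ) z = -z := by
              apply Complex.ext
              · rw [conj_re, neg_re, hzre]; ring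
              · rw [conj_im, neg_im]
            -- either at `z` or at `conj z`
            have hcase : (∀ᶠ w in 𝓝[{w : ℂ | 0 < w.re}] z, ‖u w‖ ≤ M + δ) ∨
                (∀ᶠ w in 𝓝[{w : ℂ | 0 < w.re}] ((starRingEnd ℂ) z), ‖u w‖ ≤ M + δ) := by
              have hzz : z = (z.im : ℂ) * I := by
                apply Complex.ext
                · rw [re_ofReal_mul, I_re, hzre]; ring
                · rw [im_ofReal_mul, I_im]; ring
              rcases le_total 0 z.im with h0 | h0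
              · have h1 : (y : ℂ) * I = z := by rw [hy, abs_of_nonneg h0]; exact hzz.symm
                rw [h1] at hM2
                rw [hcz]
                exact hM2.imp (fun h => h δ hδ) (fun h => h δ hδ)
              · have h1 : (y : ℂ) * I = -z := by
                  rw [hy, abs_of_nonpos h0]; push_cast; rw [neg_mul, ← hzz]
                rw [h1, neg_neg] at hM2
                rw [hcz]
                exact (hM2.imp (fun h => h δ hδ) (fun h => h δ hδ)).symm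
            rcases hcase with h | h
            · filter_upwards [hDP h, self_mem_nhdsWithin] with w h1 h2
              rw [hHn]
              have h3 := hu2 ((starRingEnd ℂ) w) (by rw [conj_re]; exact h2.2)
              nlinarith [norm_nonneg (u w), norm_nonneg (u ((starRingEnd ℂ) w))]
            · filter_upwards [hconj.eventually h, self_mem_nhdsWithin] with w h1 h2
              rw [hHn]
              have h3 := hu2 w h2.2
              nlinarith [norm_nonneg (u w), norm_nonneg (u ((starRingEnd ℂ) w))]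
          obtain ⟨δ, hδ0, hδ⟩ : ∃ δ > 0, (2 * (M + δ)) ^ 2 * (-Real.log y + δ + Real.pi / 2) < B := by
            have hcont : ContinuousAt (fun δ : ℝ => (2 * (M + δ)) ^ 2 *
              (-Real.log y + δ + Real.pi / 2)) 0 := by fun_prop
            have h1 : ∀ᶠ δ in 𝓝 (0 : ℝ), (2 * (M + δ)) ^ 2 * (-Real.log y + δ + Real.pi / 2) < B := by
              refine hcont.eventually_lt_const ?_
              show (2 * (M + 0)) ^ 2 * (-Real.log y + 0 + Real.pi / 2) < B
              calc (2 * (M + 0)) ^ 2 * (-Real.log y + 0 + Real.pi / 2) =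
                4 * M ^ 2 * (-Real.log y + Real.pi / 2) := by ring
                _ < B := hM1
            have h2 : ∀ᶠ δ in 𝓝[>] (0 : ℝ), (2 * (M + δ)) ^ 2 *
              (-Real.log y + δ + Real.pi / 2) < B := nhdsWithin_le_nhds h1
            obtain ⟨δ, h3, h4⟩ := (h2.and self_mem_nhdsWithin).exists
            exact ⟨δ, h4, h3⟩
          have hlogc : ∀ᶠ w in 𝓝 z, -Real.log ‖w‖ < -Real.log y + δ := by
            have h1 : ContinuousAt (fun w : ℂ => -Real.log ‖w‖) z :=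
              (continuous_norm.continuousAt.log (by rw [hzn]; exact hy0.ne')).neg
            refine h1.eventually_lt_const ?_
            show -Real.log ‖z‖ < -Real.log y + δ
            rw [hzn]; linarith
          filter_upwards [hprod δ hδ0, nhdsWithin_le_nhds hlogc, self_mem_nhdsWithin] with w h1 h2 h3
          refine (hnorm w h3).trans ?_
          have h4 := hexp1 w h3
          have h5 := hlogpos w h3
          have h6 : 0 ≤ 2 * (M + δ) := by positivity
          have h7 : 0 ≤ -Real.log y + δ + Real.pi / 2 := by linarith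
          have h8 : 0 ≤ (2 * (M + δ)) ^ 2 * (-Real.log y + δ + Real.pi / 2) := by positivity
          calc ‖H w‖ ^ 2 * (-Real.log ‖w‖ + Real.pi / 2) * Real.exp (η * Real.log ‖w‖)
              ≤ (2 * (M + δ)) ^ 2 * (-Real.log y + δ + Real.pi / 2) * 1 := by gcongr
            _ ≤ B + ε := by rw [mul_one]; linarith
  -- conclusion
  have hgD : (g : ℂ) ∈ D := by
    refine ⟨?_, ?_⟩
    · rw [norm_real, Real.norm_eq_abs, abs_of_pos hg]; exact hgR
    · rw [ofReal_re]; exact hg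
  have hval : ∀ η : ℝ, 0 < η → ‖u g‖ ^ 4 * (-Real.log g) * Real.exp (η * Real.log g) ≤ B := by
    intro η hη
    have h1 := key η hη g hgD
    rw [norm_mul, norm_mul, norm_pow, hHn, conj_ofReal, Complex.norm_exp, ← Complex.ofReal_log hg.le,
      norm_real, Real.norm_eq_abs, abs_of_neg (Real.log_neg hg (hgR.trans hR1)), re_ofReal_mul,
      ofReal_re] at h1
    calc ‖u g‖ ^ 4 * (-Real.log g) * Real.exp (η * Real.log g)
        = (‖u g‖ * ‖u g‖) ^ 2 * (-Real.log g) * Real.exp (η * Real.log g) := by ring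
      _ ≤ B := h1
  have hT : Tendsto (fun η : ℝ => ‖u g‖ ^ 4 * (-Real.log g) * Real.exp (η * Real.log g)) (𝓝[>] 0)
      (𝓝 (‖u g‖ ^ 4 * (-Real.log g))) := by
    have h1 : Continuous fun η : ℝ => ‖u g‖ ^ 4 * (-Real.log g) * Real.exp (η * Real.log g) := by
      fun_prop
    have h2 := (h1.tendsto 0).mono_left (nhdsWithin_le_nhds (s := Ioi (0 : ℝ)))
    simpa using h2
  refine le_of_tendsto hT ?_
  filter_upwards [self_mem_nhdsWithin] with η hη
  exact hval η hη

/-! ### the ray estimate -/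

lemma exp_neg_five_le (n : ℕ) : Real.exp (-(5 * n)) ≤ (1 / 2) ^ n := by
  have h1 : Real.exp (-(5 * (n : ℝ))) = Real.exp (-5) ^ n := by
    rw [← Real.exp_nat_mul]; congr 1; ring
  rw [h1]
  refine pow_le_pow_left₀ (Real.exp_pos _).le ?_ n
  rw [Real.exp_neg, one_div]
  refine inv_anti₀ (by norm_num) ?_
  have := Real.add_one_le_exp (5 : ℝ)
  linarith

theorem ray_v (hn : 0 < n) (hw : Bits n w) {P : ℤ} {Q : ℕ} (hQ : 0 < Q) {t : ℝ}
    (ht : Circ.nu w n t = P / Q)
    (hend : ∀ s > 0, Circ.nu w n (t + s) ≠ P / Q ∨ Circ.nu w n (t - s) ≠ P / Q)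
    {g : ℝ} (hg : 0 < g) (hg1 : g < Real.exp (-(5 * n))) :
    ‖vW n w (P / Q) (g + 2 * Real.pi * t * I)‖ ^ 4 * (-Real.log g) ≤ 8000 * n ^ 3 * Q := by
  have hn0 : (1 : ℝ) ≤ n := by exact_mod_cast hn
  have hQ0 : (1 : ℝ) ≤ Q := by exact_mod_cast hQ
  have hpi := Real.pi_pos
  have hpi4 := Real.pi_lt_d4
  have hn3 : (n : ℝ) ≤ n ^ 3 * Q := by
    have h1 : (1 : ℝ) ≤ n ^ 2 := one_le_pow₀ hn0
    have h2 : (1 : ℝ) ≤ n ^ 2 * Q := by nlinarith
    nlinarith
  have hre : ∀ z : ℂ, (z + 2 * Real.pi * t * I).re = z.re := by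
    intro z
    have : (2 * Real.pi * t * I : ℂ) = ((2 * Real.pi * t : ℝ) : ℂ) * I := by push_cast; ring
    rw [add_re, this, re_ofReal_mul, I_re]; ring
  -- transfer of the boundary estimate
  have htr : ∀ θ : ℝ, ∀ z : ℂ, z + 2 * Real.pi * t * I = 2 * Real.pi * θ * I →
      Circ.nu w n θ ≠ P / Q → |Circ.nu w n θ - P / Q| ≤ 1 → ∀ ε > 0,
      ∀ᶠ w' in 𝓝[{w : ℂ | 0 < w.re}] z, ‖vW n w (P / Q) (w' + 2 * Real.pi * t * I)‖ ≤
        17 * n * √(Q * |Circ.nu w n θ - P / Q|) + ε := by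
    intro θ z hz h1 h2 ε hε
    have h3 := vW_boundary hn hw hQ h1 h2 hε
    rw [← hz] at h3
    have h4 : Tendsto (fun w' : ℂ => w' + 2 * Real.pi * t * I) (𝓝[{w : ℂ | 0 < w.re}] z)
        (𝓝[{w : ℂ | 0 < w.re}] (z + 2 * Real.pi * t * I)) := by
      refine tendsto_nhdsWithin_iff.2 ⟨?_, ?_⟩
      · have h5 : Continuous fun w' : ℂ => w' + 2 * Real.pi * t * I := by fun_prop
        exact (h5.tendsto z).mono_left nhdsWithin_le_nhds
      · filter_upwards [self_mem_nhdsWithin] with w' hw'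
        show 0 < (w' + 2 * Real.pi * t * I).re
        rw [hre]; exact hw'
    exact h4.eventually h3
  -- size of the rotation number difference
  have hsize : ∀ y : ℝ, 0 < y → y < Real.exp (-(5 * n)) → ∀ θ : ℝ, |θ - t| ≤ y →
      |Circ.nu w n θ - P / Q| ≤ 1 ∧
      4 * (17 * n * √(Q * |Circ.nu w n θ - P / Q|)) ^ 2 * (-Real.log y + Real.pi / 2) <
        8000 * n ^ 3 * Q := by
    intro y hy hy1 θ hθ
    have h1 := nu_log_abs hn hw.per hθ hy (hy1.le.trans (exp_neg_five_le n))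
    rw [one_div, Real.log_inv, ht] at h1
    set x : ℝ := -Real.log y with hx
    have hx5 : 5 * n < x := by
      have h2 := Real.log_lt_log hy hy1
      rw [Real.log_exp] at h2
      linarith
    set d : ℝ := |Circ.nu w n θ - P / Q| with hd
    have hd0 : 0 ≤ d := abs_nonneg _
    have hd1 : d ≤ 1 := by
      by_contra hcon
      push Not at hcon
      nlinarith
    refine ⟨hd1, ?_⟩
    rw [mul_pow, Real.sq_sqrt (by positivity)]
    have h3 : d * (x + Real.pi / 2) ≤ 6.6 * n := by nlinarith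
    calc 4 * ((17 * n) ^ 2 * (Q * d)) * (x + Real.pi / 2)
        = 1156 * (n : ℝ) ^ 2 * Q * (d * (x + Real.pi / 2)) := by ring
      _ ≤ 1156 * (n : ℝ) ^ 2 * Q * (6.6 * n) := by gcongr
      _ < 8000 * (n : ℝ) ^ 3 * Q := by
        have : (0 : ℝ) < n ^ 3 * Q := by positivity
        nlinarith
  refine reflect_bound (u := fun z => vW n w (P / Q) (z + 2 * Real.pi * t * I))
    (R := Real.exp (-(5 * n))) ?_ ?_ (Real.exp_pos _) ?_ ?_ ?_ hg hg1
  · intro z hz
    have h1 := vW_diff hn hw (P / Q) (ζ := z + 2 * Real.pi * t * I) (by rw [hre]; exact hz)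
    exact DifferentiableAt.comp (g := vW n w (P / Q)) (f := fun z => z + 2 * Real.pi * t * I) z h1
      (by fun_prop)
  · intro z hz
    exact vW_norm hn hw _ (by rw [hre]; exact hz)
  · rw [Real.exp_lt_one_iff]
    linarith
  · rw [Real.log_exp]
    nlinarith
  · intro y hy hy1
    have hs : 0 < y / (2 * Real.pi) := by positivity
    have hsy : y / (2 * Real.pi) ≤ y := by
      rw [div_le_iff₀ (by positivity)]
      have := Real.pi_gt_three
      nlinarith
    have hπ0 : (Real.pi : ℂ) ≠ 0 := by exact_mod_cast hpi.ne'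
    rcases hend _ hs with h | h
    · have habs : |t + y / (2 * Real.pi) - t| ≤ y := by
        rw [add_sub_cancel_left, abs_of_pos hs]; exact hsy
      obtain ⟨h1, h2⟩ := hsize y hy hy1 (t + y / (2 * Real.pi)) habs
      refine ⟨_, by positivity, h2, Or.inl ?_⟩
      refine htr _ _ ?_ h h1
      push_cast
      field_simp
      ring
    · have habs : |t - y / (2 * Real.pi) - t| ≤ y := by
        have h0 : t - y / (2 * Real.pi) - t = -(y / (2 * Real.pi)) := by ring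
        rw [h0, abs_neg, abs_of_pos hs]; exact hsy
      obtain ⟨h1, h2⟩ := hsize y hy hy1 (t - y / (2 * Real.pi)) habs
      refine ⟨_, by positivity, h2, Or.inr ?_⟩
      refine htr _ _ ?_ h h1
      push_cast
      field_simp
      ring

/-- **the ray estimate** in terms of the multiplier -/
theorem ray_mult (hn : 0 < n) {P : ℤ} {Q : ℕ} (hQ : 0 < Q) {t : ℝ}
    (ht : Circ.nu w n t = P / Q)
    (hend : ∀ s > 0, Circ.nu w n (t + s) ≠ P / Q ∨ Circ.nu w n (t - s) ≠ P / Q)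
    {c a : ℂ} (hE : ExtP n c a t w) (hg1 : G c c < Real.exp (-(5 * n))) :
    ‖1 - exp (2 * Real.pi * ((P / Q : ℝ) : ℂ) * I) / mult n c a‖ ^ 4 * (-Real.log (G c c)) ≤
      8000 * n ^ 3 * Q := by
  have hw := hE.2.2.2.1
  have h1 := ray_v hn hw hQ ht hend hE.1 hg1
  have hpi := Real.pi_pos
  have hA : ((G c c : ℂ) + 2 * Real.pi * t * I) =
      ((G c c : ℝ) : ℂ) + ((2 * Real.pi * t : ℝ) : ℂ) * I := by push_cast; ring
  have hre : ((G c c : ℂ) + 2 * Real.pi * t * I).re = G c c := by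
    rw [hA, add_re, ofReal_re, re_ofReal_mul, I_re]; ring
  have him : ((G c c : ℂ) + 2 * Real.pi * t * I).im / (2 * Real.pi) = t := by
    rw [hA, add_im, ofReal_im, im_ofReal_mul, I_im]; field_simp; ring
  have h2 : cOf ((G c c : ℂ) + 2 * Real.pi * t * I) = c := by
    refine cOf_unique (Sat.not_mem_MM_iff.2 hE.1) ?_ hE.2.1
    rw [hre, G_self]
    have := hE.1
    rw [G_self] at this
    linarith
  have h3 := aW_spec hn hw (ζ := (G c c : ℂ) + 2 * Real.pi * t * I) (by rw [hre]; exact hE.1)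
  rw [h2, him] at h3
  have h4 := extP_inj hn h3 hE
  rw [vW, rW, h2, h4] at h1
  exact h1

/-- **the ray estimate**: at an end of the plateau `P / Q` the multiplier is `exp L` with `L` in the
disc of radius `s ≤ 1` around `2 π i P / Q`, as soon as `log (1 / G c c) ≥ 10 ^ 14 n ^ 7 Q / s ^ 8` -/
theorem ray_L (hn : 0 < n) {P : ℤ} {Q : ℕ} (hQ : 0 < Q) {t : ℝ}
    (ht : Circ.nu w n t = P / Q)
    (hend : ∀ s > 0, Circ.nu w n (t + s) ≠ P / Q ∨ Circ.nu w n (t - s) ≠ P / Q)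
    {c a : ℂ} (hE : ExtP n c a t w) {s : ℝ} (hs : 0 < s) (hs1 : s ≤ 1)
    (hg : 10 ^ 14 * n ^ 7 * Q ≤ s ^ 8 * (-Real.log (G c c))) :
    ∃ L : ℂ, exp L = mult n c a ∧ ‖L - 2 * Real.pi * ((P / Q : ℝ) : ℂ) * I‖ ≤ s ∧
      ‖L - 2 * Real.pi * ((P / Q : ℝ) : ℂ) * I‖ ^ 2 ≤ 81 * n * L.re := by
  have hn0 : (1 : ℝ) ≤ n := by exact_mod_cast hn
  have hQ0 : (1 : ℝ) ≤ Q := by exact_mod_cast hQ
  have hG := hE.1
  have hn7 : (n : ℝ) ≤ n ^ 7 * Q := by
    have h1 : (1 : ℝ) ≤ n ^ 6 := one_le_pow₀ hn0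
    have h2 : (1 : ℝ) ≤ n ^ 6 * Q := by nlinarith
    nlinarith
  have hs8 : s ^ 8 ≤ 1 := pow_le_one₀ hs.le hs1
  have hlog : 0 < -Real.log (G c c) := by
    by_contra hcon
    push Not at hcon
    have : s ^ 8 * (-Real.log (G c c)) ≤ 0 := mul_nonpos_of_nonneg_of_nonpos (by positivity) hcon
    linarith
  have hlog2 : 10 ^ 14 * (n ^ 7 * Q) ≤ -Real.log (G c c) := by nlinarith
  have hlt : G c c < Real.exp (-(5 * n)) := by
    rw [← Real.log_lt_iff_lt_exp hG]
    linarith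
  have hle4 : G c c ≤ 4 := by
    have : Real.exp (-(5 * (n : ℝ))) ≤ 1 := Real.exp_le_one_iff.2 (by linarith)
    linarith
  obtain ⟨h1, L, hL, hply⟩ := extP_ply hn hE hle4
  rw [ht] at hply
  have hv := ray_mult hn hQ ht hend hE hlt
  refine ⟨L, hL, ?_, hply⟩
  set v : ℂ := 1 - exp (2 * Real.pi * ((P / Q : ℝ) : ℂ) * I) / mult n c a with hvdef
  -- size of `v`
  have hvs : ‖v‖ ≤ s ^ 2 / (162 * n) := by
    by_contra hcon
    push Not at hcon
    have h2 : (s ^ 2 / (162 * n)) ^ 4 < ‖v‖ ^ 4 := pow_lt_pow_left₀ hcon (by positivity) (by norm_num)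
    have h3 : (s ^ 2 / (162 * n)) ^ 4 * (-Real.log (G c c)) < 8000 * n ^ 3 * Q :=
      lt_of_lt_of_le (mul_lt_mul_of_pos_right h2 hlog) hv
    have h4 : (s ^ 2 / (162 * n)) ^ 4 * (-Real.log (G c c)) =
        (s ^ 8 * (-Real.log (G c c))) / (162 * (n : ℝ)) ^ 4 := by
      rw [div_pow, ← pow_mul]; ring
    rw [h4, div_lt_iff₀ (by positivity)] at h3
    have h5 : 8000 * (n : ℝ) ^ 3 * Q * (162 * n) ^ 4 ≤ 10 ^ 14 * n ^ 7 * Q := by
      have : (0 : ℝ) ≤ n ^ 7 * Q := by positivity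
      calc 8000 * (n : ℝ) ^ 3 * Q * (162 * (n : ℝ)) ^ 4
          = (8000 * 162 ^ 4) * ((n : ℝ) ^ 7 * Q) := by ring
        _ ≤ 10 ^ 14 * ((n : ℝ) ^ 7 * Q) := by
          refine mul_le_mul_of_nonneg_right (by norm_num) this
        _ = _ := by ring
    linarith
  have hs2 : s ^ 2 ≤ 1 := pow_le_one₀ hs.le hs1
  have hv2 : ‖v‖ ≤ 1 / 2 := by
    refine hvs.trans ?_
    rw [div_le_iff₀ (by positivity)]
    nlinarith
  -- size of `Re L`
  have hLre : L.re ≤ 2 * ‖v‖ := by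
    have h2 : ‖mult n c a‖ = Real.exp L.re := by rw [← hL, Complex.norm_exp]
    have h3 : Real.exp (-L.re) = ‖1 - v‖ := by
      rw [hvdef, sub_sub_cancel, norm_div, norm_exp_turn, h2, Real.exp_neg, one_div]
    have h4 : 1 - ‖v‖ ≤ Real.exp (-L.re) := by
      rw [h3]
      have := norm_sub_norm_le (1 : ℂ) v
      rw [norm_one] at this
      exact this
    have h5 : 0 < 1 - ‖v‖ := by linarith
    have h6 := Real.log_le_log h5 h4
    rw [Real.log_exp] at h6
    have h7 := Real.one_sub_inv_le_log_of_pos h5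
    have h8 : 1 - (1 - ‖v‖)⁻¹ ≥ -(2 * ‖v‖) := by
      rw [ge_iff_le, neg_le, neg_sub, sub_le_iff_le_add, inv_le_comm₀ h5 (by positivity)]
      rw [inv_le_iff_one_le_mul₀ (by positivity)]
      nlinarith [norm_nonneg v]
    linarith
  have h9 : ‖L - 2 * Real.pi * ((P / Q : ℝ) : ℂ) * I‖ ^ 2 ≤ s ^ 2 := by
    refine hply.trans ?_
    have h10 : ‖v‖ * (162 * n) ≤ s ^ 2 := by rwa [le_div_iff₀ (by positivity)] at hvs
    nlinarith
  exact abs_le_of_sq_le_sq' h9 hs.le |>.2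

end Pool.Agent.Work.MLC.Pri
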