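import Pool.Agent.Work.MLC.CapS6
import Pool.Agent.Work.MLC.CapL24
import Pool.Agent.Work.MLC.PriRay15

set_option autoImplicit false

/-! # Theorem Cap, stage A: the set of angles is not a null set (helper57; proof by helper6)

The angles which are in infinitely many open wakes with denominators at least `3` are not a null set
for the gauge `1 / log (1 / t)`. -/

namespace Pool.Agent.Work.MLC.Cap

open Filter Topology Metric Set Complex
open Pool.Agent.Work.MLC.Sat Pool.Agent.Work.MLC.Cnt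

/-- NN: the set of the theorem is not a null set -/
def C_nonnull : Prop := ∃ δ > (0 : ℝ), ∀ a l : ℕ → ℝ, (∀ i, 0 < l i ∧ l i < 1) →
  Summable (fun i => 1 / Real.log (1 / l i)) → ∑' i, 1 / Real.log (1 / l i) < δ →
  ∃ t ∈ Ico (0 : ℝ) 1, (∀ i, t ∉ Icc (a i) (a i + l i)) ∧ ∀ M : ℕ, ∃ R : RD, M ≤ R.W.m ∧
    ∃ k : ℤ, R.D.tm < t + k ∧ t + k < R.D.tp

namespace V57

/-- components -/
abbrev OW := {W : WS // W.Ok}

/-- the child: its word is the flipped word of the data -/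
lemma child_ex (W : OW) {x : ℚ} (h0 : 0 < x) (h1 : x < 1) : ∃ W' : OW,
    (W'.1.m = W.1.m * x.den ∧ ∀ y : ℚ, 0 < y → y < 1 →
      (W.1.dat x).tm < (W'.1.dat y).tm ∧ (W'.1.dat y).tp < (W.1.dat x).tp) ∧
    W'.1.w = (W.1.dat x).u := by
  set D := W.1.dat x with hD
  have hP : D.Par := WS.dat_par W.2 h0 h1
  have hC : D.Cir := WS.dat_cir W.2 h0 h1
  have hn : 0 < D.n := Nat.mul_pos hP.m_pos D.x.pos
  have hword : Word D.n D.u := ⟨hC.ubits.bit, hC.ubits.per, hC.uprim⟩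
  obtain ⟨σ, hV, hex⟩ := Pri.exists_wide_word hn hword D.k
  set W' : WS := ⟨D.n, D.u, D.k, σ⟩ with hW'
  have hok : W'.Ok := ⟨hV, hex⟩
  have hn0 : (0 : ℝ) < D.n := by exact_mod_cast hn
  have hq0 : (0 : ℝ) < D.x.den := by exact_mod_cast D.x.pos
  have hnear : ∀ θ, Circ.nu D.w D.m θ = D.k₀ + D.x → D.Near θ := by
    intro θ h
    unfold Dat.Near
    rw [h, sub_self, abs_zero]
    positivity
  have hum : Circ.nu D.u D.n D.tm = D.k :=
    hC.nu_left _ (hnear _ ((hC.plateau D.tm).2 ⟨le_rfl, hC.lt.le⟩)) le_rfl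
  have hup : Circ.nu D.u D.n D.tp = D.k + 1 :=
    hC.nu_right _ (hnear _ ((hC.plateau D.tp).2 ⟨hC.lt.le, le_rfl⟩)) le_rfl
  have hin : ∀ θ, (D.k : ℝ) < Circ.nu D.u D.n θ → Circ.nu D.u D.n θ < D.k + 1 →
      D.tm < θ ∧ θ < D.tp := by
    intro θ h2 h3
    constructor
    · by_contra hcon
      push Not at hcon
      have := Circ.nu_mono D.u D.n hcon
      linarith
    · by_contra hcon
      push Not at hcon
      have := Circ.nu_mono D.u D.n hcon
      linarith
  have hnu' : ∀ θ, W'.nu θ = Circ.nu D.u D.n θ - D.k := fun θ => rfl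
  refine ⟨⟨W', hok⟩, ⟨?_, fun y hy0 hy1 => ?_⟩, rfl⟩
  · show D.m * D.x.den = W.1.m * x.den
    rw [hD, WS.dat_m W.2 h0 h1, WS.dat_x W.2 h0 h1]
  · have hy0' : (0 : ℝ) < y := by exact_mod_cast hy0
    have hy1' : (y : ℝ) < 1 := by exact_mod_cast hy1
    have hlt := (WS.dat_cir hok hy0 hy1).lt
    have a1 := (WS.plateau hok hy0 hy1 (W'.dat y).tm).2 ⟨le_rfl, hlt.le⟩
    have a2 := (WS.plateau hok hy0 hy1 (W'.dat y).tp).2 ⟨hlt.le, le_rfl⟩
    rw [hnu'] at a1 a2
    exact ⟨(hin _ (by linarith) (by linarith)).1, (hin _ (by linarith) (by linarith)).2⟩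

open Classical in
/-- the child -/
noncomputable def ch (W : OW) (x : ℚ) : OW :=
  if h : 0 < x ∧ x < 1 then (child_ex W h.1 h.2).choose else W

lemma ch_m (W : OW) {x : ℚ} (h0 : 0 < x) (h1 : x < 1) : (ch W x).1.m = W.1.m * x.den := by
  unfold ch
  rw [dif_pos ⟨h0, h1⟩]
  exact (child_ex W h0 h1).choose_spec.1.1

lemma ch_in (W : OW) {x y : ℚ} (h0 : 0 < x) (h1 : x < 1) (h2 : 0 < y) (h3 : y < 1) :
    (W.1.dat x).tm < ((ch W x).1.dat y).tm ∧ ((ch W x).1.dat y).tp < (W.1.dat x).tp := by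
  unfold ch
  rw [dif_pos ⟨h0, h1⟩]
  exact (child_ex W h0 h1).choose_spec.1.2 y h2 h3

lemma ch_w (W : OW) {x : ℚ} (h0 : 0 < x) (h1 : x < 1) : (ch W x).1.w = (W.1.dat x).u := by
  unfold ch
  rw [dif_pos ⟨h0, h1⟩]
  exact (child_ex W h0 h1).choose_spec.2

/-- the denominators -/
noncomputable def Q (j : ℕ) : ℕ := (Nat.exists_infinite_primes (2 ^ (j + 2))).choose

lemma Q_ge (j : ℕ) : 2 ^ (j + 2) ≤ Q j := (Nat.exists_infinite_primes (2 ^ (j + 2))).choose_spec.1

lemma Q_prime (j : ℕ) : (Q j).Prime := (Nat.exists_infinite_primes (2 ^ (j + 2))).choose_spec.2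

lemma Q_ge4 (j : ℕ) : 4 ≤ Q j := by
  have h1 := Q_ge j
  have h2 : 2 ^ 2 ≤ 2 ^ (j + 2) := Nat.pow_le_pow_right (by norm_num) (by omega)
  omega

/-- the rotation numbers -/
noncomputable def xx (j i : ℕ) : ℚ := (i : ℚ) / (Q j : ℚ)

variable {j i k : ℕ}

lemma xx_pos (hi : i ∈ Finset.Ico 1 (Q j)) : 0 < xx j i := by
  rw [Finset.mem_Ico] at hi
  have h1 := Q_ge4 j
  have h2 : (0 : ℚ) < i := by exact_mod_cast (by omega : 0 < i)
  have h3 : (0 : ℚ) < Q j := by exact_mod_cast (by omega : 0 < Q j)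
  exact div_pos h2 h3

lemma xx_lt (hi : i ∈ Finset.Ico 1 (Q j)) : xx j i < 1 := by
  rw [Finset.mem_Ico] at hi
  have h1 := Q_ge4 j
  have h2 : (i : ℚ) < Q j := by exact_mod_cast hi.2
  have h3 : (0 : ℚ) < Q j := by exact_mod_cast (by omega : 0 < Q j)
  exact (div_lt_one h3).2 h2

lemma xx_den (hi : i ∈ Finset.Ico 1 (Q j)) : (xx j i).den = Q j := by
  rw [Finset.mem_Ico] at hi
  have h1 := Q_ge4 j
  have hco : Nat.Coprime i (Q j) := by
    refine Nat.Coprime.symm ((Nat.Prime.coprime_iff_not_dvd (Q_prime j)).2 fun h => ?_)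
    have := Nat.le_of_dvd (by omega) h
    omega
  have h2 : xx j i = ((i : ℤ) : ℚ) / ((Q j : ℤ) : ℚ) := by
    unfold xx; push_cast; rfl
  have h3 := Rat.den_div_eq_of_coprime (a := (i : ℤ)) (b := (Q j : ℤ)) (by exact_mod_cast (by omega : 0 < Q j))
    (by simpa using hco)
  rw [h2]
  exact_mod_cast h3

/-- sums over the leaves of level `k` -/
noncomputable def SSm : ℕ → ℕ → OW → (ℝ → ℝ → ℝ) → ℝ
  | 0, j, W, f => ∑ i ∈ Finset.Ico 1 (Q j), f (W.1.dat (xx j i)).tm (W.1.dat (xx j i)).tp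
  | k + 1, j, W, f => ∑ i ∈ Finset.Ico 1 (Q j), SSm k (j + 1) (ch W (xx j i)) f

/-- the arcs of level `k` -/
def LS : ℕ → ℕ → OW → Set (ℝ × ℝ)
  | 0, j, W => {p | ∃ i ∈ Finset.Ico 1 (Q j), p = ((W.1.dat (xx j i)).tm, (W.1.dat (xx j i)).tp)}
  | k + 1, j, W => {p | ∃ i ∈ Finset.Ico 1 (Q j), p ∈ LS k (j + 1) (ch W (xx j i))}

lemma LS_fin : ∀ (k j : ℕ) (W : OW), (LS k j W).Finite
  | 0, j, W => by
      have : LS 0 j W = (fun i : ℕ => ((W.1.dat (xx j i)).tm, (W.1.dat (xx j i)).tp)) ''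
          (Finset.Ico 1 (Q j) : Set ℕ) := by
        ext p
        simp only [LS, mem_ofPred_eq, mem_image, Finset.mem_coe]
        exact ⟨fun ⟨i, h1, h2⟩ => ⟨i, h1, h2.symm⟩, fun ⟨i, h1, h2⟩ => ⟨i, h1, h2.symm⟩⟩
      rw [this]
      exact (Finset.finite_toSet _).image _
  | k + 1, j, W => by
      have : LS (k + 1) j W = ⋃ i ∈ Finset.Ico 1 (Q j), LS k (j + 1) (ch W (xx j i)) := by
        ext p
        simp only [LS, mem_ofPred_eq, mem_iUnion, exists_prop]
      rw [this]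
      exact (Finset.finite_toSet _).biUnion fun i _ => LS_fin k (j + 1) _

lemma SSm_mono : ∀ (k j : ℕ) (W : OW) (f g : ℝ → ℝ → ℝ),
    (∀ p ∈ LS k j W, f p.1 p.2 ≤ g p.1 p.2) → SSm k j W f ≤ SSm k j W g
  | 0, _, _, _, _, h => Finset.sum_le_sum fun i hi => h _ ⟨i, hi, rfl⟩
  | k + 1, j, _, f, g, h => Finset.sum_le_sum fun i hi =>
      SSm_mono k (j + 1) _ f g fun p hp => h p ⟨i, hi, hp⟩

lemma SSm_const : ∀ (k j : ℕ) (W : OW) (c : ℝ),
    SSm k j W (fun _ _ => c) = (∏ i ∈ Finset.range (k + 1), ((Q (j + i) : ℝ) - 1)) * c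
  | 0, j, W, c => by
      have h1 := Q_ge4 j
      simp only [SSm, Finset.sum_const, Nat.card_Ico, nsmul_eq_mul, zero_add, Finset.prod_range_one,
        add_zero]
      rw [Nat.cast_sub (by omega)]
      simp
  | k + 1, j, W, c => by
      have h1 := Q_ge4 j
      simp only [SSm]
      rw [Finset.sum_congr rfl fun i _ => SSm_const k (j + 1) (ch W (xx j i)) c, Finset.sum_const,
        Nat.card_Ico, nsmul_eq_mul, Finset.prod_range_succ' _ (k + 1), Nat.cast_sub (by omega)]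
      have : ∏ i ∈ Finset.range (k + 1), ((Q (j + 1 + i) : ℝ) - 1) =
          ∏ i ∈ Finset.range (k + 1), ((Q (j + (i + 1)) : ℝ) - 1) :=
        Finset.prod_congr rfl fun i _ => by rw [show j + 1 + i = j + (i + 1) by ring]
      rw [this, add_zero]
      push_cast
      ring

lemma SSm_sum {κ : Type} (F : Finset κ) (f : κ → ℝ → ℝ → ℝ) : ∀ (k j : ℕ) (W : OW),
    SSm k j W (fun s t => ∑ a ∈ F, f a s t) = ∑ a ∈ F, SSm k j W (f a)
  | 0, j, W => by
      simp only [SSm]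
      rw [Finset.sum_comm]
  | k + 1, j, W => by
      simp only [SSm]
      rw [Finset.sum_congr rfl fun i _ => SSm_sum F f k (j + 1) (ch W (xx j i)), Finset.sum_comm]

/-- the arcs below a root are in its open arc -/
lemma LS_in : ∀ (k j : ℕ) (W : OW) (x : ℚ), 0 < x → x < 1 → ∀ p ∈ LS k j (ch W x),
    (W.1.dat x).tm < p.1 ∧ p.2 < (W.1.dat x).tp
  | 0, j, W, x, h0, h1, p, hp => by
      obtain ⟨i, hi, rfl⟩ := hp
      exact ch_in W h0 h1 (xx_pos hi) (xx_lt hi)
  | k + 1, j, W, x, h0, h1, p, hp => by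
      obtain ⟨i, hi, hp⟩ := hp
      have h2 := LS_in k (j + 1) (ch W x) (xx j i) (xx_pos hi) (xx_lt hi) p hp
      have h3 := ch_in W h0 h1 (xx_pos hi) (xx_lt hi)
      exact ⟨h3.1.trans h2.1, h2.2.trans h3.2⟩

lemma LS_le : ∀ (k j : ℕ) (W : OW), ∀ p ∈ LS k j W, p.1 < p.2
  | 0, j, W, p, hp => by
      obtain ⟨i, hi, rfl⟩ := hp
      exact (WS.dat_cir W.2 (xx_pos hi) (xx_lt hi)).lt
  | k + 1, j, W, p, hp => by
      obtain ⟨i, hi, hp⟩ := hp
      exact LS_le k (j + 1) _ p hp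

/-- the union of the arcs of level `k` -/
def US (k j : ℕ) (W : OW) : Set ℝ := ⋃ p ∈ LS k j W, Icc p.1 p.2

lemma US_compact (k j : ℕ) (W : OW) : IsCompact (US k j W) :=
  (LS_fin k j W).isCompact_biUnion fun _ _ => isCompact_Icc

lemma mem_US_zero {W : OW} {t : ℝ} : t ∈ US 0 j W ↔ ∃ i ∈ Finset.Ico 1 (Q j),
    (W.1.dat (xx j i)).tm ≤ t ∧ t ≤ (W.1.dat (xx j i)).tp := by
  simp only [US, LS, mem_iUnion, mem_ofPred_eq, exists_prop, mem_Icc]
  constructor
  · rintro ⟨p, ⟨i, hi, rfl⟩, h⟩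
    exact ⟨i, hi, h⟩
  · rintro ⟨i, hi, h⟩
    exact ⟨_, ⟨i, hi, rfl⟩, h⟩

lemma mem_US_succ {W : OW} {t : ℝ} : t ∈ US (k + 1) j W ↔ ∃ i ∈ Finset.Ico 1 (Q j),
    t ∈ US k (j + 1) (ch W (xx j i)) := by
  simp only [US, LS, mem_iUnion, mem_ofPred_eq, exists_prop]
  constructor
  · rintro ⟨p, ⟨i, hi, hp⟩, h⟩
    exact ⟨i, hi, p, hp, h⟩
  · rintro ⟨i, hi, p, hp, h⟩
    exact ⟨p, ⟨i, hi, hp⟩, h⟩

lemma US_anti : ∀ (k j : ℕ) (W : OW), US (k + 1) j W ⊆ US k j W
  | 0, j, W => by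
      intro t ht
      rw [mem_US_succ] at ht
      obtain ⟨i, hi, ht⟩ := ht
      rw [mem_US_zero] at ht
      obtain ⟨i', hi', h1, h2⟩ := ht
      have h3 := ch_in W (xx_pos hi) (xx_lt hi) (xx_pos hi') (xx_lt hi')
      rw [mem_US_zero]
      exact ⟨i, hi, by linarith [h3.1], by linarith [h3.2]⟩
  | k + 1, j, W => by
      intro t ht
      rw [mem_US_succ] at ht ⊢
      obtain ⟨i, hi, ht⟩ := ht
      exact ⟨i, hi, US_anti k (j + 1) _ ht⟩

/-- a point of level `k + 1` is in an open arc of level `k` -/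
lemma exists_RD : ∀ (k j : ℕ) (W : OW) (t : ℝ), t ∈ US (k + 1) j W →
    ∃ R : RD, 3 ^ k * W.1.m ≤ R.W.m ∧ R.D.tm < t ∧ t < R.D.tp
  | 0, j, W, t, ht => by
      rw [mem_US_succ] at ht
      obtain ⟨i, hi, ht⟩ := ht
      rw [mem_US_zero] at ht
      obtain ⟨i', hi', h1, h2⟩ := ht
      have h3 := ch_in W (xx_pos hi) (xx_lt hi) (xx_pos hi') (xx_lt hi')
      have h4 : 3 ≤ (xx j i).den := by rw [xx_den hi]; have := Q_ge4 j; omega
      exact ⟨⟨W.1, xx j i, W.2, xx_pos hi, xx_lt hi, h4⟩, by simp, lt_of_lt_of_le h3.1 h1,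
        lt_of_le_of_lt h2 h3.2⟩
  | k + 1, j, W, t, ht => by
      rw [mem_US_succ] at ht
      obtain ⟨i, hi, ht⟩ := ht
      obtain ⟨R, hR, h1, h2⟩ := exists_RD k (j + 1) _ t ht
      refine ⟨R, le_trans ?_ hR, h1, h2⟩
      rw [ch_m W (xx_pos hi) (xx_lt hi), xx_den hi]
      have h3 : 3 ≤ Q j := by have := Q_ge4 j; omega
      calc 3 ^ (k + 1) * W.1.m = 3 ^ k * (W.1.m * 3) := by ring
        _ ≤ 3 ^ k * (W.1.m * Q j) := by gcongr

/-! ### the main estimate -/

open Classical in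
/-- does the arc meet the interval -/
noncomputable def ind (a b s t : ℝ) : ℝ := if s ≤ b ∧ a ≤ t then 1 else 0

lemma ind_nonneg (a b s t : ℝ) : 0 ≤ ind a b s t := by unfold ind; split_ifs <;> norm_num

lemma ind_le (a b s t : ℝ) : ind a b s t ≤ 1 := by unfold ind; split_ifs <;> norm_num

/-- the number of all sequences -/
noncomputable def PQ (k j : ℕ) : ℝ := ∏ i ∈ Finset.range (k + 1), (Q (j + i) : ℝ)

lemma PQ_zero (j : ℕ) : PQ 0 j = Q j := by simp [PQ]

lemma PQ_succ (k j : ℕ) : PQ (k + 1) j = Q j * PQ k (j + 1) := by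
  unfold PQ
  rw [Finset.prod_range_succ' _ (k + 1), mul_comm, add_zero]
  congr 1
  exact Finset.prod_congr rfl fun i _ => by rw [show j + 1 + i = j + (i + 1) by ring]

lemma PQ_pos (k j : ℕ) : 0 < PQ k j :=
  Finset.prod_pos fun i _ => by
    have := Q_ge4 (j + i)
    exact_mod_cast (by omega : 0 < Q (j + i))

lemma prod_le_PQ (k j : ℕ) : ∏ i ∈ Finset.range (k + 1), ((Q (j + i) : ℝ) - 1) ≤ PQ k j := by
  refine Finset.prod_le_prod (fun i _ => ?_) fun i _ => by linarith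
  have := Q_ge4 (j + i)
  have h : (4 : ℝ) ≤ Q (j + i) := by exact_mod_cast this
  linarith

lemma SSm_ind_le_PQ (k j : ℕ) (W : OW) (a b : ℝ) : SSm k j W (ind a b) ≤ PQ k j := by
  refine (SSm_mono k j W _ (fun _ _ => 1) fun p _ => ind_le _ _ _ _).trans ?_
  rw [SSm_const, mul_one]
  exact prod_le_PQ k j

/-- integers in an interval -/
lemma card_le_of {T : Finset ℕ} {u v : ℝ} (huv : u ≤ v) (h : ∀ i ∈ T, u ≤ i ∧ (i : ℝ) ≤ v) :
    (T.card : ℝ) ≤ v - u + 1 := by
  rcases T.eq_empty_or_nonempty with h0 | h0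
  · rw [h0]; simp; linarith
  · have h1 : T ⊆ Finset.Icc (T.min' h0) (T.max' h0) := fun i hi =>
      Finset.mem_Icc.2 ⟨Finset.min'_le _ _ hi, Finset.le_max' _ _ hi⟩
    have h2 := Finset.card_le_card h1
    rw [Nat.card_Icc] at h2
    have h3 : T.min' h0 ≤ T.max' h0 := Finset.min'_le _ _ (Finset.max'_mem _ h0)
    have h4 : (T.card : ℝ) ≤ (T.max' h0 : ℝ) + 1 - (T.min' h0 : ℝ) := by
      have h5 : T.card + T.min' h0 ≤ T.max' h0 + 1 := by omega
      have h6 : (T.card : ℝ) + (T.min' h0 : ℝ) ≤ (T.max' h0 : ℝ) + 1 := by exact_mod_cast h5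
      linarith
    have h5 := (h _ (T.min'_mem h0)).1
    have h6 := (h _ (T.max'_mem h0)).2
    linarith

open Classical in
/-- the children which meet the interval -/
noncomputable def TT (j : ℕ) (W : OW) (a b : ℝ) : Finset ℕ :=
  (Finset.Ico 1 (Q j)).filter fun i => (W.1.dat (xx j i)).tm ≤ b ∧ a ≤ (W.1.dat (xx j i)).tp

lemma mem_TT {W : OW} {a b : ℝ} : i ∈ TT j W a b ↔ i ∈ Finset.Ico 1 (Q j) ∧
    (W.1.dat (xx j i)).tm ≤ b ∧ a ≤ (W.1.dat (xx j i)).tp := by
  unfold TT; rw [Finset.mem_filter]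

lemma nu_tm' (W : OW) {x : ℚ} (h0 : 0 < x) (h1 : x < 1) : W.1.nu (W.1.dat x).tm = x :=
  (WS.plateau W.2 h0 h1 _).2 ⟨le_rfl, (WS.dat_cir W.2 h0 h1).lt.le⟩

lemma nu_tp' (W : OW) {x : ℚ} (h0 : 0 < x) (h1 : x < 1) : W.1.nu (W.1.dat x).tp = x :=
  (WS.plateau W.2 h0 h1 _).2 ⟨(WS.dat_cir W.2 h0 h1).lt.le, le_rfl⟩

lemma card_TT {W : OW} {a b : ℝ} (hab : a ≤ b) :
    ((TT j W a b).card : ℝ) ≤ Q j * (W.1.nu b - W.1.nu a) + 1 := by
  have hQ : (0 : ℝ) < Q j := by
    have := Q_ge4 j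
    exact_mod_cast (by omega : 0 < Q j)
  have h1 : W.1.nu a ≤ W.1.nu b := W.1.nu_mono hab
  have h2 := card_le_of (T := TT j W a b) (u := Q j * W.1.nu a) (v := Q j * W.1.nu b)
    (by gcongr) fun i hi => ?_
  · linarith
  · obtain ⟨hi, h3, h4⟩ := mem_TT.1 hi
    have h5 := W.1.nu_mono h3
    have h6 := W.1.nu_mono h4
    rw [nu_tm' W (xx_pos hi) (xx_lt hi)] at h5
    rw [nu_tp' W (xx_pos hi) (xx_lt hi)] at h6
    have h7 : ((xx j i : ℚ) : ℝ) * Q j = i := by
      unfold xx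
      push_cast
      field_simp
    constructor
    · calc (Q j : ℝ) * W.1.nu a ≤ Q j * (xx j i : ℚ) := by gcongr
        _ = i := by rw [mul_comm]; exact h7
    · calc (i : ℝ) = Q j * (xx j i : ℚ) := by rw [mul_comm]; exact h7.symm
        _ ≤ Q j * W.1.nu b := by gcongr

/-- two children are met only by long intervals -/
lemma two_children {W : OW} {a b : ℝ} (hl : b - a < 1) (hab : a < b) {i i' : ℕ}
    (hi : i ∈ TT j W a b) (hi' : i' ∈ TT j W a b) (hii : i < i') :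
    Real.log (1 / (b - a)) ≤ 2 * W.1.m * Q j := by
  obtain ⟨hi, -, h2⟩ := mem_TT.1 hi
  obtain ⟨hi', h3, -⟩ := mem_TT.1 hi'
  have hQ4 := Q_ge4 j
  have hQ : (0 : ℚ) < Q j := by exact_mod_cast (by omega : 0 < Q j)
  set y : ℚ := ((2 * i + 1 : ℕ) : ℚ) / ((2 * Q j : ℕ) : ℚ) with hy
  have e1 : xx j i < y := by
    rw [hy]; unfold xx
    rw [div_lt_div_iff₀ hQ (by push_cast; positivity)]
    push_cast
    nlinarith
  have e2 : y < xx j i' := by
    have h4 : (i : ℚ) + 1 ≤ i' := by exact_mod_cast hii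
    rw [hy]; unfold xx
    rw [div_lt_div_iff₀ (by push_cast; positivity) hQ]
    push_cast
    nlinarith
  have y0 : 0 < y := (xx_pos hi).trans e1
  have y1 : y < 1 := e2.trans (xx_lt hi')
  have hden : y.den ≤ 2 * Q j := by
    have h4 : (y.den : ℤ) ∣ ((2 * Q j : ℕ) : ℤ) := by
      have h5 : y = Rat.divInt ((2 * i + 1 : ℕ) : ℤ) ((2 * Q j : ℕ) : ℤ) := by
        rw [hy, Rat.divInt_eq_div]; push_cast; rfl
      rw [h5]
      exact Rat.den_dvd _ _
    exact Nat.le_of_dvd (by omega) (by exact_mod_cast h4)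
  have f1 : (W.1.dat (xx j i)).tp < (W.1.dat y).tm := by
    by_contra hcon
    push Not at hcon
    have h4 := W.1.nu_mono hcon
    rw [nu_tm' W y0 y1, nu_tp' W (xx_pos hi) (xx_lt hi)] at h4
    have h5 : y ≤ xx j i := by exact_mod_cast h4
    linarith
  have f2 : (W.1.dat y).tp < (W.1.dat (xx j i')).tm := by
    by_contra hcon
    push Not at hcon
    have h4 := W.1.nu_mono hcon
    rw [nu_tp' W y0 y1, nu_tm' W (xx_pos hi') (xx_lt hi')] at h4
    have h5 : xx j i' ≤ y := by exact_mod_cast h4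
    linarith
  have f3 := len_lower W.2 y0 y1
  have f4 : (1 / 2 : ℝ) ^ (W.1.m * (2 * Q j)) ≤ (1 / 2 : ℝ) ^ (W.1.m * y.den) :=
    pow_le_pow_of_le_one (by norm_num) (by norm_num) (Nat.mul_le_mul_left _ hden)
  have f5 : (1 / 2 : ℝ) ^ (W.1.m * (2 * Q j)) ≤ b - a := by linarith
  have f6 : 1 / (b - a) ≤ 2 ^ (W.1.m * (2 * Q j)) := by
    rw [div_le_iff₀ (by linarith)]
    rw [one_div, inv_pow] at f5
    rw [inv_le_iff_one_le_mul₀ (by positivity)] at f5
    linarith
  have f7 := Real.log_le_log (by have : 0 < b - a := by linarith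
                                 positivity) f6
  rw [Real.log_pow] at f7
  have f8 : Real.log 2 ≤ 1 := by
    have := Real.log_two_lt_d9
    linarith
  have f9 : (0 : ℝ) ≤ ((W.1.m * (2 * Q j) : ℕ) : ℝ) := Nat.cast_nonneg _
  calc Real.log (1 / (b - a)) ≤ ((W.1.m * (2 * Q j) : ℕ) : ℝ) * Real.log 2 := f7
    _ ≤ ((W.1.m * (2 * Q j) : ℕ) : ℝ) * 1 := by gcongr
    _ = 2 * W.1.m * Q j := by push_cast; ring

lemma m_pos (W : OW) : 0 < W.1.m := W.2.wide.pos

/-- the rotation number grows slowly -/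
lemma nu_small {W : OW} {a b : ℝ} (hab : a < b) (h : b - a ≤ (1 / 2) ^ W.1.m) :
    (W.1.nu b - W.1.nu a) * Real.log (1 / (b - a)) ≤ 5 * W.1.m := by
  have h1 := Pri.nu_log (m_pos W) W.2.wide.bits.per hab h
  unfold WS.nu
  linarith

/-- the children which do not meet the interval do not contribute -/
lemma SSm_zero_of {W : OW} {a b : ℝ} (hi : i ∈ Finset.Ico 1 (Q j)) (hn : i ∉ TT j W a b) :
    SSm k (j + 1) (ch W (xx j i)) (ind a b) ≤ 0 := by
  have h1 : SSm k (j + 1) (ch W (xx j i)) (ind a b) ≤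
      SSm k (j + 1) (ch W (xx j i)) (fun _ _ => 0) := by
    refine SSm_mono _ _ _ _ _ fun p hp => le_of_eq ?_
    have h2 := LS_in k (j + 1) W (xx j i) (xx_pos hi) (xx_lt hi) p hp
    unfold ind
    rw [if_neg]
    rintro ⟨h3, h4⟩
    exact hn (mem_TT.2 ⟨hi, by linarith [h2.1], by linarith [h2.2]⟩)
  rwa [SSm_const, mul_zero] at h1

/-- **the main estimate** -/
theorem main_est : ∀ (k j : ℕ) (W : OW) (a b : ℝ), a < b → b - a < 1 →
    SSm k j W (ind a b) ≤ PQ k j * (7 * W.1.m / Real.log (1 / (b - a))) + 1 := by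
  intro k
  induction k with
  | zero =>
    intro j W a b hab hl
    have hL : 0 < Real.log (1 / (b - a)) :=
      Real.log_pos (by rw [lt_div_iff₀ (by linarith)]; linarith)
    have hm : (0 : ℝ) < W.1.m := by exact_mod_cast m_pos W
    have hQ : (0 : ℝ) < Q j := by
      have := Q_ge4 j
      exact_mod_cast (by omega : 0 < Q j)
    rcases le_or_gt (b - a) ((1 / 2) ^ W.1.m) with hs | hs
    · have h1 : SSm 0 j W (ind a b) = ((TT j W a b).card : ℝ) := by
        classical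
        simp only [SSm, ind, TT]
        rw [Finset.sum_boole]
      rw [h1, PQ_zero]
      refine (card_TT hab.le).trans ?_
      have h2 := nu_small hab hs
      have h3 : W.1.nu b - W.1.nu a ≤ 7 * W.1.m / Real.log (1 / (b - a)) := by
        rw [le_div_iff₀ hL]; linarith
      have h4 := mul_le_mul_of_nonneg_left h3 hQ.le
      linarith
    · have h1 : Real.log (1 / (b - a)) ≤ 7 * W.1.m := by
        have h2 : 1 / (b - a) ≤ 2 ^ W.1.m := by
          rw [div_le_iff₀ (by linarith)]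
          rw [one_div, inv_pow, ← one_div, div_lt_iff₀ (by positivity)] at hs
          linarith
        have h3 := Real.log_le_log (by have : 0 < b - a := by linarith
                                       positivity) h2
        rw [Real.log_pow] at h3
        have := Real.log_two_lt_d9
        nlinarith
      have h2 : 1 ≤ 7 * W.1.m / Real.log (1 / (b - a)) := by rw [le_div_iff₀ hL]; linarith
      have h3 := SSm_ind_le_PQ 0 j W a b
      have h4 := mul_le_mul_of_nonneg_left h2 (PQ_pos 0 j).le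
      linarith
  | succ k ih =>
    intro j W a b hab hl
    have hL : 0 < Real.log (1 / (b - a)) :=
      Real.log_pos (by rw [lt_div_iff₀ (by linarith)]; linarith)
    have hm : (0 : ℝ) < W.1.m := by exact_mod_cast m_pos W
    have hQ : (0 : ℝ) < Q j := by
      have := Q_ge4 j
      exact_mod_cast (by omega : 0 < Q j)
    rcases le_or_gt (b - a) ((1 / 2) ^ W.1.m) with hs | hs
    · have h1 : SSm (k + 1) j W (ind a b) ≤
          ∑ i ∈ TT j W a b, SSm k (j + 1) (ch W (xx j i)) (ind a b) := by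
        simp only [SSm]
        classical
        have hsub : TT j W a b ⊆ Finset.Ico 1 (Q j) := fun i hi => (mem_TT.1 hi).1
        rw [← Finset.sum_sdiff hsub]
        have h2 : ∑ i ∈ Finset.Ico 1 (Q j) \ TT j W a b,
            SSm k (j + 1) (ch W (xx j i)) (ind a b) ≤ 0 :=
          Finset.sum_nonpos fun i hi => by
            obtain ⟨h3, h4⟩ := Finset.mem_sdiff.1 hi
            exact SSm_zero_of h3 h4
        linarith
      rcases Nat.lt_or_ge 1 (TT j W a b).card with hc | hc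
      · -- at least two children
        obtain ⟨i, hi, i', hi', hii⟩ := Finset.one_lt_card.1 hc
        have hlog : Real.log (1 / (b - a)) ≤ 2 * W.1.m * Q j := by
          rcases lt_or_gt_of_ne hii with h | h
          · exact two_children hl hab hi hi' h
          · exact two_children hl hab hi' hi h
        have h2 : ∑ i ∈ TT j W a b, SSm k (j + 1) (ch W (xx j i)) (ind a b) ≤
            (TT j W a b).card * PQ k (j + 1) := by
          rw [← nsmul_eq_mul, ← Finset.sum_const]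
          exact Finset.sum_le_sum fun i _ => SSm_ind_le_PQ _ _ _ _ _
        have h3 := card_TT (j := j) (W := W) hab.le
        have h4 := nu_small hab hs
        have h5 : (Q j : ℝ) * (W.1.nu b - W.1.nu a) + 1 ≤
            Q j * (7 * W.1.m / Real.log (1 / (b - a))) := by
          rw [← mul_div_assoc, le_div_iff₀ hL, add_mul]
          have h6 := mul_le_mul_of_nonneg_left h4 hQ.le
          nlinarith
        rw [PQ_succ]
        calc SSm (k + 1) j W (ind a b) ≤ (TT j W a b).card * PQ k (j + 1) := h1.trans h2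
          _ ≤ (Q j * (7 * W.1.m / Real.log (1 / (b - a)))) * PQ k (j + 1) :=
              mul_le_mul_of_nonneg_right (h3.trans h5) (PQ_pos _ _).le
          _ = Q j * PQ k (j + 1) * (7 * W.1.m / Real.log (1 / (b - a))) := by ring
          _ ≤ _ := by linarith
      · -- at most one child
        have h2 : ∑ i ∈ TT j W a b, SSm k (j + 1) (ch W (xx j i)) (ind a b) ≤
            PQ k (j + 1) * (7 * (W.1.m * Q j) / Real.log (1 / (b - a))) + 1 := by
          rcases Nat.lt_or_ge 0 (TT j W a b).card with h0 | h0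
          · have h3 : (TT j W a b).card = 1 := by omega
            obtain ⟨i, hi⟩ := Finset.card_eq_one.1 h3
            have hi' : i ∈ Finset.Ico 1 (Q j) := (mem_TT.1 (by rw [hi]; simp)).1
            rw [hi, Finset.sum_singleton]
            have h4 := ih (j + 1) (ch W (xx j i)) a b hab hl
            rw [ch_m W (xx_pos hi') (xx_lt hi'), xx_den hi'] at h4
            push_cast at h4
            exact h4
          · have h3 : TT j W a b = ∅ := Finset.card_eq_zero.1 (by omega)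
            rw [h3, Finset.sum_empty]
            have := PQ_pos k (j + 1)
            positivity
        rw [PQ_succ]
        refine (h1.trans h2).trans (le_of_eq ?_)
        ring
    · have h1 : Real.log (1 / (b - a)) ≤ 7 * W.1.m := by
        have h2 : 1 / (b - a) ≤ 2 ^ W.1.m := by
          rw [div_le_iff₀ (by linarith)]
          rw [one_div, inv_pow, ← one_div, div_lt_iff₀ (by positivity)] at hs
          linarith
        have h3 := Real.log_le_log (by have : 0 < b - a := by linarith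
                                       positivity) h2
        rw [Real.log_pow] at h3
        have := Real.log_two_lt_d9
        nlinarith
      have h2 : 1 ≤ 7 * W.1.m / Real.log (1 / (b - a)) := by rw [le_div_iff₀ hL]; linarith
      have h3 := SSm_ind_le_PQ (k + 1) j W a b
      have h4 := mul_le_mul_of_nonneg_left h2 (PQ_pos (k + 1) j).le
      linarith

/-! ### the total mass -/

lemma prod_half : ∀ n : ℕ, 1 / 2 + (1 / 2 : ℝ) ^ (n + 1) ≤
    ∏ i ∈ Finset.range n, (1 - 1 / (Q i : ℝ))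
  | 0 => by norm_num
  | n + 1 => by
      rw [Finset.prod_range_succ]
      have h1 := prod_half n
      have h2 : (2 : ℝ) ^ (n + 2) ≤ Q n := by exact_mod_cast Q_ge n
      have h3 : 1 / (Q n : ℝ) ≤ (1 / 2) ^ (n + 2) := by
        rw [one_div_pow]
        exact one_div_le_one_div_of_le (by positivity) h2
      set u : ℝ := (1 / 2 : ℝ) ^ n with hu
      have hu0 : 0 < u := by positivity
      have hu1 : u ≤ 1 := pow_le_one₀ (by norm_num) (by norm_num)
      have e1 : (1 / 2 : ℝ) ^ (n + 1) = u / 2 := by rw [pow_succ]; ring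
      have e2 : (1 / 2 : ℝ) ^ (n + 2) = u / 4 := by rw [pow_add]; ring
      rw [e1] at h1
      rw [e2] at h3
      have e3 : (1 / 2 : ℝ) ^ (n + 1 + 1) = u / 4 := e2
      rw [e3]
      calc 1 / 2 + u / 4 ≤ (1 / 2 + u / 2) * (1 - u / 4) := by nlinarith
        _ ≤ (∏ i ∈ Finset.range n, (1 - 1 / (Q i : ℝ))) * (1 - 1 / (Q n : ℝ)) := by
            refine mul_le_mul h1 (by linarith) (by linarith) ?_
            linarith

lemma half_PQ (k : ℕ) : PQ k 0 / 2 ≤ ∏ i ∈ Finset.range (k + 1), ((Q (0 + i) : ℝ) - 1) := by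
  have h1 := prod_half (k + 1)
  have h2 : ∏ i ∈ Finset.range (k + 1), ((Q (0 + i) : ℝ) - 1) =
      PQ k 0 * ∏ i ∈ Finset.range (k + 1), (1 - 1 / (Q i : ℝ)) := by
    unfold PQ
    rw [← Finset.prod_mul_distrib]
    refine Finset.prod_congr rfl fun i _ => ?_
    have : (Q i : ℝ) ≠ 0 := by
      have := Q_ge4 i
      exact_mod_cast (by omega : Q i ≠ 0)
    rw [zero_add]
    field_simp
  rw [h2]
  have h3 := PQ_pos k 0
  have h4 : (0 : ℝ) < (1 / 2 : ℝ) ^ (k + 1 + 1) := by positivity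
  nlinarith

lemma PQ_ge (k : ℕ) : (4 : ℝ) ^ (k + 1) ≤ PQ k 0 := by
  unfold PQ
  calc (4 : ℝ) ^ (k + 1) = ∏ _i ∈ Finset.range (k + 1), (4 : ℝ) := by
        rw [Finset.prod_const, Finset.card_range]
    _ ≤ _ := Finset.prod_le_prod (fun _ _ => by norm_num) fun i _ => by
        exact_mod_cast Q_ge4 (0 + i)

lemma PQ_mono : Monotone fun k => PQ k 0 := by
  refine monotone_nat_of_le_succ fun k => ?_
  show PQ k 0 ≤ PQ (k + 1) 0
  have h1 := PQ_pos k 0
  have h2 : PQ (k + 1) 0 = PQ k 0 * Q (0 + (k + 1)) := by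
    unfold PQ
    rw [Finset.prod_range_succ]
  have h3 : (1 : ℝ) ≤ Q (0 + (k + 1)) := by
    have := Q_ge4 (0 + (k + 1))
    exact_mod_cast (by omega : 1 ≤ Q (0 + (k + 1)))
  rw [h2]
  nlinarith

/-- the component of period one -/
lemma exists_W₀ : ∃ W : OW, W.1.m = 1 := by
  have hw : Word 1 (fun _ : ℕ => (0 : ℤ)) :=
    ⟨fun _ => Or.inl rfl, fun _ => rfl, fun d h0 h1 => absurd h1 (by omega)⟩
  obtain ⟨σ, hV, hex⟩ := Pri.exists_wide_word one_pos hw 0
  exact ⟨⟨⟨1, fun _ => 0, 0, σ⟩, ⟨hV, hex⟩⟩, rfl⟩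

lemma nu_add_two' {W : OW} (hW : W.1.m = 1) (t : ℝ) : W.1.nu (t + 2) = W.1.nu t + 1 := by
  have h1 := Circ.nu_add_two W.1.w t W.1.m
  unfold WS.nu
  rw [h1, hW]
  push_cast
  ring

lemma nu_add_even {W : OW} (hW : W.1.m = 1) (k : ℤ) : W.1.nu (2 * k) = W.1.nu 0 + k := by
  induction k using Int.induction_on with
  | zero => simp
  | succ i ih =>
    have h1 := nu_add_two' hW (2 * (i : ℤ) : ℝ)
    have h2 : ((2 : ℝ) * (((i : ℤ) + 1 : ℤ) : ℝ)) = 2 * ((i : ℤ) : ℝ) + 2 := by push_cast; ring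
    rw [h2, h1, ih]
    push_cast
    ring
  | pred i ih =>
    have h1 := nu_add_two' hW (2 * ((-(i : ℤ) - 1 : ℤ) : ℝ))
    have h2 : 2 * ((-(i : ℤ) - 1 : ℤ) : ℝ) + 2 = 2 * ((-(i : ℤ) : ℤ) : ℝ) := by push_cast; ring
    rw [h2, ih] at h1
    push_cast at h1 ⊢
    linarith

/-- the angles of the wake of the component of period one -/
lemma floor_mem {W : OW} (hW : W.1.m = 1) : ∃ n₀ : ℤ, ∀ t : ℝ, 0 < W.1.nu t → W.1.nu t < 1 →
    ∃ c : Fin 4, ⌊t⌋ = n₀ + (c : ℕ) := by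
  refine ⟨2 * ⌊-W.1.nu 0⌋, fun t h0 h1 => ?_⟩
  set K : ℤ := ⌊-W.1.nu 0⌋ with hK
  have a1 := Int.floor_le (-W.1.nu 0)
  have a2 := Int.lt_floor_add_one (-W.1.nu 0)
  rw [← hK] at a1 a2
  have b1 : (2 * K : ℝ) < t := by
    by_contra hcon
    push Not at hcon
    have h2 := W.1.nu_mono hcon
    rw [nu_add_even hW K] at h2
    linarith
  have b2 : t < 2 * ((K + 2 : ℤ) : ℝ) := by
    by_contra hcon
    push Not at hcon
    have h2 := W.1.nu_mono hcon
    rw [nu_add_even hW (K + 2)] at h2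
    push_cast at h2
    linarith
  have c1 : 2 * K ≤ ⌊t⌋ := Int.le_floor.2 (by push_cast; linarith)
  have c2 : ⌊t⌋ < 2 * K + 4 := Int.floor_lt.2 (by push_cast at b2 ⊢; linarith)
  refine ⟨⟨(⌊t⌋ - 2 * K).toNat, by omega⟩, ?_⟩
  show ⌊t⌋ = 2 * K + ((⌊t⌋ - 2 * K).toNat : ℤ)
  omega

/-- the points of the union are in the wake -/
lemma nu_US {W : OW} {t : ℝ} (ht : t ∈ US 0 j W) : 0 < W.1.nu t ∧ W.1.nu t < 1 := by
  rw [mem_US_zero] at ht
  obtain ⟨i, hi, h⟩ := ht
  have h1 := (WS.plateau W.2 (xx_pos hi) (xx_lt hi) t).2 h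
  rw [h1]
  exact ⟨by exact_mod_cast xx_pos hi, by exact_mod_cast xx_lt hi⟩

end V57

open V57 in
/-- **NN**, the angles in all arcs of a chain of satellites -/
theorem nonnull_chain : ∃ δ > (0 : ℝ), ∀ a l : ℕ → ℝ, (∀ i, 0 < l i ∧ l i < 1) →
    Summable (fun i => 1 / Real.log (1 / l i)) → ∑' i, 1 / Real.log (1 / l i) < δ →
    ∃ (W : OW) (t : ℝ), W.1.m = 1 ∧ (∀ k, t ∈ US k 0 W) ∧
      ∀ i, Int.fract t ∉ Icc (a i) (a i + l i) := by
  refine ⟨1 / 1000, by norm_num, fun a l hl hs hsum => ?_⟩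
  obtain ⟨W, hW⟩ := exists_W₀
  obtain ⟨n₀, hn₀⟩ := floor_mem hW
  have hh : ∀ i, 0 < 1 / Real.log (1 / l i) := fun i => by
    have h1 : 1 < 1 / l i := by rw [lt_div_iff₀ (hl i).1]; linarith [(hl i).2]
    have := Real.log_pos h1
    positivity
  have hlog : ∀ i, 1000 < Real.log (1 / l i) := fun i => by
    have h1 := hs.le_tsum i fun j _ => (hh j).le
    have h2 : 1 / Real.log (1 / l i) < 1 / 1000 := lt_of_le_of_lt h1 hsum
    have h3 : 0 < Real.log (1 / l i) := one_div_pos.1 (hh i)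
    exact (one_div_lt_one_div h3 (by norm_num)).1 h2
  -- the enlarged intervals are short
  have h3l : ∀ i, 3 * l i < 1 ∧ 1 / Real.log (1 / (3 * l i)) ≤ 2 * (1 / Real.log (1 / l i)) := by
    intro i
    have h1 := hlog i
    have h2 := (hl i).1
    have h4 : Real.log (1 / (3 * l i)) = Real.log (1 / l i) - Real.log 3 := by
      rw [show 1 / (3 * l i) = (1 / l i) / 3 by field_simp, Real.log_div (by positivity) (by norm_num)]
    have h5 : Real.log 3 ≤ 2 := by
      have := Real.log_le_sub_one_of_pos (by norm_num : (0 : ℝ) < 3)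
      linarith
    have h6 : Real.log (1 / l i) / 2 ≤ Real.log (1 / (3 * l i)) := by rw [h4]; linarith
    constructor
    · have h7 : 0 < Real.log (1 / (3 * l i)) := by linarith
      by_contra hcon
      push Not at hcon
      have : Real.log (1 / (3 * l i)) ≤ 0 := Real.log_nonpos (by positivity)
        ((div_le_one (by positivity)).2 hcon)
      linarith
    · have h7 : (0 : ℝ) < Real.log (1 / l i) / 2 := by linarith
      refine (one_div_le_one_div_of_le h7 h6).trans (le_of_eq ?_)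
      field_simp
  set J : ℕ × Fin 4 → Set ℝ := fun z =>
    Ioo (a z.1 + (n₀ + (z.2 : ℕ) : ℤ) - l z.1) (a z.1 + (n₀ + (z.2 : ℕ) : ℤ) + 2 * l z.1) with hJ
  -- the union of the intervals does not cover a level
  have hne : ∀ k, (US k 0 W \ ⋃ z, J z).Nonempty := by
    intro k
    by_contra hcon
    rw [Set.not_nonempty_iff_eq_empty, sdiff_eq_empty] at hcon
    obtain ⟨F, hF⟩ := (US_compact k 0 W).elim_finite_subcover J (fun z => isOpen_Ioo) hcon
    obtain ⟨K, hK⟩ : ∃ K : ℕ, (100 : ℝ) * F.card < PQ K 0 := by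
      obtain ⟨K, hK⟩ := exists_nat_gt ((100 : ℝ) * F.card)
      refine ⟨K, hK.trans_le (le_trans ?_ (PQ_ge K))⟩
      have h1 : K < 4 ^ K := Nat.lt_pow_self (by norm_num)
      have h2 : (K : ℝ) ≤ 4 ^ K := by exact_mod_cast h1.le
      exact h2.trans (pow_le_pow_right₀ (by norm_num) (by omega))
    have hanti : ∀ k' k'' : ℕ, k' ≤ k'' → US k'' 0 W ⊆ US k' 0 W := fun k' k'' h =>
      antitone_nat_of_succ_le (f := fun k => US k 0 W) (fun k => US_anti k 0 W) h
    -- go to a level which is finer than both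
    obtain ⟨L, hL1, hL2⟩ : ∃ L : ℕ, k ≤ L ∧ (100 : ℝ) * F.card < PQ L 0 := by
      exact ⟨max k K, le_max_left _ _, hK.trans_le (PQ_mono (le_max_right k K))⟩
    have hcov : US L 0 W ⊆ ⋃ z ∈ F, J z := (hanti k L hL1).trans hF
    have h1 : SSm L 0 W (fun _ _ => 1) ≤ SSm L 0 W (fun s t => ∑ z ∈ F,
        ind (a z.1 + (n₀ + (z.2 : ℕ) : ℤ) - l z.1) (a z.1 + (n₀ + (z.2 : ℕ) : ℤ) + 2 * l z.1)
          s t) := by
      refine SSm_mono _ _ _ _ _ fun p hp => ?_
      have h2 : p.1 ∈ US L 0 W := by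
        unfold US
        exact mem_biUnion hp ⟨le_rfl, (LS_le _ _ _ p hp).le⟩
      have h3 := hcov h2
      rw [mem_iUnion₂] at h3
      obtain ⟨z, hz, h4⟩ := h3
      refine le_trans ?_ (Finset.single_le_sum (f := fun z : ℕ × Fin 4 =>
        ind (a z.1 + (n₀ + (z.2 : ℕ) : ℤ) - l z.1) (a z.1 + (n₀ + (z.2 : ℕ) : ℤ) + 2 * l z.1)
          p.1 p.2) (fun z _ => ind_nonneg _ _ _ _) hz)
      have h5 := LS_le _ _ _ p hp
      show (1 : ℝ) ≤ ind _ _ p.1 p.2
      unfold ind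
      rw [if_pos ⟨h4.2.le, by linarith [h4.1]⟩]
    rw [SSm_sum, SSm_const, mul_one] at h1
    have h2 : ∀ z ∈ F, SSm L 0 W (ind (a z.1 + (n₀ + (z.2 : ℕ) : ℤ) - l z.1)
        (a z.1 + (n₀ + (z.2 : ℕ) : ℤ) + 2 * l z.1)) ≤
        PQ L 0 * (14 * (1 / Real.log (1 / l z.1))) + 1 := by
      intro z _
      obtain ⟨e1, e2⟩ := h3l z.1
      have e3 := (hl z.1).1
      have h3 := main_est L 0 W (a z.1 + (n₀ + (z.2 : ℕ) : ℤ) - l z.1)
        (a z.1 + (n₀ + (z.2 : ℕ) : ℤ) + 2 * l z.1) (by linarith) (by linarith)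
      rw [show a z.1 + (n₀ + (z.2 : ℕ) : ℤ) + 2 * l z.1 - (a z.1 + (n₀ + (z.2 : ℕ) : ℤ) - l z.1) =
        3 * l z.1 by ring, hW] at h3
      have h4 : PQ L 0 * (7 * ((1 : ℕ) : ℝ) / Real.log (1 / (3 * l z.1))) ≤
          PQ L 0 * (14 * (1 / Real.log (1 / l z.1))) := by
        refine mul_le_mul_of_nonneg_left ?_ (PQ_pos _ _).le
        calc 7 * ((1 : ℕ) : ℝ) / Real.log (1 / (3 * l z.1))
            = 7 * (1 / Real.log (1 / (3 * l z.1))) := by push_cast; ring
          _ ≤ 7 * (2 * (1 / Real.log (1 / l z.1))) := by gcongr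
          _ = 14 * (1 / Real.log (1 / l z.1)) := by ring
      linarith
    have h3 := h1.trans (Finset.sum_le_sum h2)
    rw [Finset.sum_add_distrib, Finset.sum_const, nsmul_eq_mul, mul_one, ← Finset.mul_sum,
      ← Finset.mul_sum] at h3
    have h4 : ∑ z ∈ F, 1 / Real.log (1 / l z.1) ≤ 4 / 1000 := by
      classical
      calc ∑ z ∈ F, 1 / Real.log (1 / l z.1)
          ≤ ∑ z ∈ (F.image Prod.fst) ×ˢ (Finset.univ : Finset (Fin 4)),
              1 / Real.log (1 / l z.1) := by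
            refine Finset.sum_le_sum_of_subset_of_nonneg ?_ fun z _ _ => (hh z.1).le
            intro z hz
            exact Finset.mem_product.2 ⟨Finset.mem_image_of_mem _ hz, Finset.mem_univ _⟩
        _ = ∑ i ∈ F.image Prod.fst, 4 * (1 / Real.log (1 / l i)) := by
            rw [Finset.sum_product]
            refine Finset.sum_congr rfl fun i _ => ?_
            show ∑ _y : Fin 4, 1 / Real.log (1 / l i) = _
            rw [Finset.sum_const, Finset.card_univ, Fintype.card_fin, nsmul_eq_mul]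
            norm_num
        _ = 4 * ∑ i ∈ F.image Prod.fst, 1 / Real.log (1 / l i) := by rw [Finset.mul_sum]
        _ ≤ 4 * ∑' i, 1 / Real.log (1 / l i) := by
            refine mul_le_mul_of_nonneg_left ?_ (by norm_num)
            exact hs.sum_le_tsum _ fun i _ => (hh i).le
        _ ≤ 4 / 1000 := by linarith
    have h5 := half_PQ L
    have h6 := PQ_pos L 0
    nlinarith
  have hint := IsCompact.nonempty_iInter_of_sequence_nonempty_isCompact_isClosed
    (fun k => US k 0 W \ ⋃ z, J z) (fun k => sdiff_subset_sdiff_left (US_anti k 0 W)) hne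
    ((US_compact 0 0 W).diff (isOpen_iUnion fun z => isOpen_Ioo))
    (fun k => ((US_compact k 0 W).diff (isOpen_iUnion fun z => isOpen_Ioo)).isClosed)
  obtain ⟨t, ht⟩ := hint
  rw [mem_iInter] at ht
  obtain ⟨hnu0, hnu1⟩ := nu_US (ht 0).1
  obtain ⟨c, hc⟩ := hn₀ t hnu0 hnu1
  refine ⟨W, t, hW, fun k => (ht k).1, fun i hi => ?_⟩
  have h1 : t = Int.fract t + ⌊t⌋ := (Int.fract_add_floor t).symm
  refine (ht 0).2 (mem_iUnion.2 ⟨(i, c), ?_⟩)
  have h2 := (hl i).1
  have h3 := hi.1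
  have h4 := hi.2
  rw [hc] at h1
  show t ∈ Ioo (a i + (n₀ + (c : ℕ) : ℤ) - l i) (a i + (n₀ + (c : ℕ) : ℤ) + 2 * l i)
  constructor
  · linarith
  · linarith

open V57 in
/-- **NN**: the set of angles of the theorem is not a null set -/
theorem c_nonnull : C_nonnull := by
  obtain ⟨δ, hδ, h⟩ := nonnull_chain
  refine ⟨δ, hδ, fun a l hl hs hsum => ?_⟩
  obtain ⟨W, t, hW, ht, hi⟩ := h a l hl hs hsum
  refine ⟨Int.fract t, ⟨Int.fract_nonneg _, Int.fract_lt_one _⟩, hi, fun M => ?_⟩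
  obtain ⟨k, hk⟩ : ∃ k : ℕ, M ≤ 3 ^ k :=
    ⟨M, (Nat.lt_pow_self (by norm_num)).le⟩
  obtain ⟨R, hR, h1, h2⟩ := exists_RD k 0 W t (ht (k + 1))
  refine ⟨R, ?_, ⌊t⌋, ?_, ?_⟩
  · rw [hW, mul_one] at hR
    exact hk.trans hR
  · rw [Int.fract_add_floor]; exact h1
  · rw [Int.fract_add_floor]; exact h2

end Pool.Agent.Work.MLC.Cap
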