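import Pool.Agent.Work.MLC.CapA50
import Pool.Agent.Work.MLC.CapV57
import Pool.Agent.Work.MLC.CapU6

set_option autoImplicit false

/-! # Theorem Cap, stage A: the final statement (helper6) -/

namespace Pool.Agent.Work.MLC.Cap

open Filter Topology Metric Set Complex MeasureTheory
open Pool.Agent.Work.MLC.Sat Pool.Agent.Work.MLC.Cnt

/-- `r` separates `c` from `0` in the Mandelbrot set -/
def Behind (r c : ℂ) : Prop := c ∈ MM ∧ c ≠ r ∧ c ∉ connectedComponentIn (MM \ {r}) 0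

/-- infinitely many roots of type `(n, q)`, `q ≥ 3`, separate a limit point of `ψ` at
`exp (2 π i θ)` from `0` -/
def ManyLimbs (ψ : ℂ → ℂ) (θ : ℝ) : Prop :=
  {r : ℂ | (∃ n q : ℕ, 3 ≤ q ∧ IsRoot n q r) ∧ ∃ c, Behind r c ∧ MapClusterPt c
    (𝓝[{z | 1 < ‖z‖}] (Complex.exp (2 * Real.pi * θ * Complex.I))) ψ}.Infinite

/-- `ψ` has a limit at `exp (2 π i θ)` and the Mandelbrot set is locally connected there -/
def Good (ψ : ℂ → ℂ) (θ : ℝ) : Prop := ∃ c ∈ MM,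
  Tendsto ψ (𝓝[{z | 1 < ‖z‖}] (Complex.exp (2 * Real.pi * θ * Complex.I))) (𝓝 c) ∧
  ∀ U ∈ 𝓝 c, ∃ K ⊆ MM ∩ U, IsCompact K ∧ IsConnected K ∧ K ∈ 𝓝[MM] c

/-- zero measure for the gauge `1 / log (1 / t)` -/
def Null (E : Set ℝ) : Prop := ∀ ε > 0, ∃ a l : ℕ → ℝ, (∀ i, 0 < l i ∧ l i < 1) ∧
  E ⊆ (⋃ i, Icc (a i) (a i + l i)) ∧ Summable (fun i => 1 / Real.log (1 / l i)) ∧
  ∑' i, 1 / Real.log (1 / l i) < ε

/-- **Theorem A** -/
theorem null_bad : Null {θ | θ ∈ Ico (0 : ℝ) 1 ∧ ManyLimbs Psi θ ∧ ¬ Good Psi θ} := by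
  intro ε hε
  obtain ⟨C, hC⟩ := limb_all
  obtain ⟨a, l, h1, h2, h3, h4⟩ := capI_final hC hε
  refine ⟨a, l, h1, ?_, h2, h3⟩
  rintro θ ⟨hθ, hM, hG⟩
  by_contra hcon
  simp only [mem_iUnion, not_exists] at hcon
  refine hG (h4 θ hθ hcon (hM.mono ?_))
  rintro r ⟨hr, c, ⟨hc1, hc2, hc3⟩, hc4⟩
  exact ⟨hr, c, hc1, hc2, hc3, hc4⟩

/-- the root of the data is a root -/
lemma RD.isRoot (R : RD) : IsRoot R.W.m R.x.den (rt R.D) := by
  have hP := R.par
  have haB := CH.a_mem hP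
  have h1 := hP.sec R.D.a haB
  have h2 : mul R.D.m (rt R.D, R.D.b R.D.a) = Complex.exp (axisPt R.D.x) := h1.2
  have hPer : PerN R.D.m (rt R.D) (R.D.b R.D.a) := by
    have h3 : Function.IsPeriodicPt (f (rt R.D)) R.D.m (R.D.b R.D.a) := h1.1
    refine ⟨hP.m_pos, ?_⟩
    have h4 := h3.minimalPeriod_le hP.m_pos
    have h5 := h3.minimalPeriod_pos hP.m_pos
    have h6 : it (rt R.D) (Function.minimalPeriod (f (rt R.D)) (R.D.b R.D.a)) (R.D.b R.D.a) =
      R.D.b R.D.a := Function.iterate_minimalPeriod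
    by_contra hne
    exact hP.prim R.D.a haB _ h5 (lt_of_le_of_ne h4 hne) h6
  have hnum : 0 < R.x.num := Rat.num_pos.2 R.x0
  have hlt : R.x.num < R.x.den := Rat.num_lt_denom_iff.2 R.x1
  have hnn : ((R.x.num.toNat : ℕ) : ℤ) = R.x.num := Int.toNat_of_nonneg hnum.le
  have hcop : Nat.Coprime R.x.num.toNat R.x.den := by
    have h7 := R.x.reduced
    have h8 : R.x.num.natAbs = R.x.num.toNat := by omega
    rwa [h8] at h7
  have hx : R.x = ((R.x.num.toNat : ℕ) : ℚ) / (R.x.den : ℚ) := by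
    have h9 : ((R.x.num.toNat : ℕ) : ℚ) = (R.x.num : ℚ) := by
      have : (((R.x.num.toNat : ℕ) : ℤ) : ℚ) = (R.x.num : ℚ) := by rw [hnn]
      exact_mod_cast this
    rw [h9, Rat.num_div_den]
  refine ⟨R.x.num.toNat, R.D.b R.D.a, R.m_pos, by omega, by omega, hcop, ?_, ?_⟩
  · rw [← R.D_m]
    exact hPer.2
  · rw [← axis_pq hx]
    rw [R.D_x, R.D_m] at h2
    rw [← h2]
    exact (Pool.Agent.Work.MLC.hasDerivAt_it (rt R.D) R.W.m (R.D.b R.D.a)).deriv

lemma RD.len_le (R : RD) : R.len ≤ (1 / 2) ^ R.W.m := by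
  have h1 := arc_len R.par R.cir
  rw [R.D_m, R.D_x] at h1
  have h2 := R.len_pos
  have h3 : (2 : ℝ) ^ R.W.m * R.len ≤ 1 := by
    refine le_trans (mul_le_mul_of_nonneg_right ?_ h2.le) h1
    refine pow_le_pow_right₀ (by norm_num) ?_
    have := R.q3
    calc R.W.m = R.W.m * 1 := (mul_one _).symm
      _ ≤ R.W.m * (R.x.den - 2) := Nat.mul_le_mul_left _ (by omega)
  rw [one_div, inv_pow, ← one_div, le_div_iff₀ (by positivity)]
  linarith

/-- there are limit points -/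
lemma exists_cluster (t : ℝ) : ∃ c ∈ MM, MapClusterPt c
    (𝓝[{z | 1 < ‖z‖}] (Complex.exp (2 * Real.pi * t * Complex.I))) Psi := by
  set u : ℕ → ℂ := fun n => ((1 / ((n : ℝ) + 1) : ℝ) : ℂ) + 2 * Real.pi * t * Complex.I with hu
  have hre : ∀ n, (u n).re = 1 / ((n : ℝ) + 1) := fun n => CH.re_pt _ _
  obtain ⟨c, φ, hφ, hc⟩ := exists_limit_cOf (u := u)
    (fun n => by rw [hre]; positivity)
    (fun n => by
      rw [hre, div_le_one (by positivity)]
      linarith [(Nat.cast_nonneg n : (0 : ℝ) ≤ n)])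
  have hre0 : Tendsto (fun n => (u (φ n)).re) atTop (𝓝 0) := by
    simp only [hre]
    exact tendsto_one_div_add_atTop_nhds_zero_nat.comp hφ.tendsto_atTop
  refine ⟨c, mem_MM_of_tendsto (u := fun n => u (φ n)) (fun n => by rw [hre]; positivity) hre0 hc,
    ?_⟩
  have h1 : Tendsto (fun n => Complex.exp (u (φ n))) atTop
      (𝓝[{z | 1 < ‖z‖}] (Complex.exp (2 * Real.pi * t * Complex.I))) := by
    rw [tendsto_nhdsWithin_iff]
    constructor
    · refine (Complex.continuous_exp.tendsto _).comp ?_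
      have h2 : Tendsto (fun n : ℕ => ((1 / ((φ n : ℝ) + 1) : ℝ) : ℂ)) atTop (𝓝 ((0 : ℝ) : ℂ)) :=
        (Complex.continuous_ofReal.tendsto 0).comp
          (tendsto_one_div_add_atTop_nhds_zero_nat.comp hφ.tendsto_atTop)
      have h3 := h2.add_const (2 * Real.pi * t * Complex.I)
      rw [Complex.ofReal_zero, zero_add] at h3
      exact h3
    · refine Eventually.of_forall fun n => ?_
      show 1 < ‖Complex.exp (u (φ n))‖
      rw [Complex.norm_exp, hre]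
      exact Real.one_lt_exp_iff.2 (by positivity)
  exact MapClusterPt.of_comp h1 (Tendsto.mapClusterPt hc)

/-- an angle in open arcs of arbitrarily large periods -/
lemma manyLimbs_of {t : ℝ} (h : ∀ M : ℕ, ∃ R : RD, M ≤ R.W.m ∧
    ∃ k : ℤ, R.D.tm < t + k ∧ t + k < R.D.tp) : ManyLimbs Psi t := by
  classical
  obtain ⟨c, hcM, hcl⟩ := exists_cluster t
  have hcl' := closure_of_cluster hcl
  intro hfin
  set T : Set ℂ := {r : ℂ | (∃ n q : ℕ, 3 ≤ q ∧ IsRoot n q r) ∧ ∃ c, Behind r c ∧ MapClusterPt c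
    (𝓝[{z | 1 < ‖z‖}] (Complex.exp (2 * Real.pi * t * Complex.I))) Psi} with hT
  -- all roots are in a finite set
  have hall : ∀ R : RD, (∃ k : ℤ, R.D.tm < t + k ∧ t + k < R.D.tp) → rt R.D ∈ insert c T := by
    rintro R ⟨k, k1, k2⟩
    rcases imp_in R.par R.cir hcM k1 k2 hcl' with h1 | h1
    · exact Or.inl h1.symm
    · refine Or.inr ⟨⟨_, _, R.q3, R.isRoot⟩, c, ?_, hcl⟩
      rw [← Cnt.n6_sep R.D R.par R.cir] at h1
      exact h1
  have hfin' : (insert c T).Finite := hfin.insert c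
  -- the lengths of the arcs of the roots in the finite set are bounded from below
  have hlow : ∃ δ > (0 : ℝ), ∀ R : RD, rt R.D ∈ insert c T → δ ≤ R.len := by
    have h1 : ∀ r ∈ insert c T, ∃ δ > (0 : ℝ), ∀ R : RD, rt R.D = r → δ ≤ R.len := by
      intro r _
      by_cases h2 : ∃ R : RD, rt R.D = r
      · obtain ⟨R₀, hR₀⟩ := h2
        refine ⟨R₀.len, R₀.len_pos, fun R hR => ?_⟩
        obtain ⟨k, k1, k2⟩ := plateau_unique n2_ray R₀.par R₀.cir R.par R.cir (hR₀.trans hR.symm)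
        unfold RD.len
        linarith
      · exact ⟨1, one_pos, fun R hR => absurd ⟨R, hR⟩ h2⟩
    choose! δ hδ hδ' using h1
    rcases hfin'.toFinset.eq_empty_or_nonempty with h2 | h2
    · refine ⟨1, one_pos, fun R hR => ?_⟩
      have h3 : rt R.D ∈ hfin'.toFinset := hfin'.mem_toFinset.2 hR
      rw [h2] at h3
      exact absurd h3 (Finset.notMem_empty _)
    · refine ⟨hfin'.toFinset.inf' h2 δ, ?_, fun R hR => ?_⟩
      · rw [gt_iff_lt, Finset.lt_inf'_iff]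
        exact fun r hr => hδ r (hfin'.mem_toFinset.1 hr)
      · exact (Finset.inf'_le δ (hfin'.mem_toFinset.2 hR)).trans (hδ' _ hR R rfl)
  obtain ⟨δ, hδ, hδ'⟩ := hlow
  obtain ⟨M, hM⟩ := exists_pow_lt_of_lt_one hδ (by norm_num : (1 / 2 : ℝ) < 1)
  obtain ⟨R, hR1, hR2⟩ := h M
  have h1 := hδ' R (hall R hR2)
  have h2 := R.len_le
  have h3 : (1 / 2 : ℝ) ^ R.W.m ≤ (1 / 2) ^ M :=
    pow_le_pow_of_le_one (by norm_num) (by norm_num) hR1
  linarith

/-- the angles of Theorem A are not a null set -/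
theorem not_null : ¬ Null {θ | θ ∈ Ico (0 : ℝ) 1 ∧ ManyLimbs Psi θ} := by
  intro h
  obtain ⟨δ, hδ, h1⟩ := c_nonnull
  obtain ⟨a, l, h2, h3, h4, h5⟩ := h δ hδ
  obtain ⟨t, ht, h6, h7⟩ := h1 a l h2 h4 h5
  obtain ⟨i, hi⟩ := mem_iUnion.1 (h3 ⟨ht, manyLimbs_of h7⟩)
  exact h6 i hi

end Pool.Agent.Work.MLC.Cap
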