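import Pool.Agent.Work.MLC.Univ60
import Pool.Agent.Work.MLC.PriRay15
import Pool.Agent.Work.MLC.PerL54

set_option autoImplicit false

/-! # Theorem N (square mean of the limbs): definitions and interface (manager: helper50)

For a finite set `F` of roots of level `≤ N` (the root `r` has a point of exact period `m` and
multiplier `exp (2 π i p / q)`, `m q ≤ N`), none of which separates another one from `0` in the
Mandelbrot set, the sum of the squares of the diameters of the limbs is at most `C N ^ A`.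

`D : Dat` is the data of a root (`Sat0`), `D.a = 2 π i x` its point in the coordinate `L` of the
parent, `[D.tm, D.tp]` its plateau (in turns), `cOf` the inverse of the Riemann map of the exterior
of `MM` in the logarithmic coordinate. -/

namespace Pool.Agent.Work.MLC.Cnt

open Filter Topology Metric Set Complex MeasureTheory
open Pool.Agent.Work.MLC.Sat

/-- the root -/
noncomputable def rt (D : Dat) : ℂ := D.c D.a

/-- the label of the parent -/
noncomputable def JP (D : Dat) : Lab D.m := lab D.m D.tm D.w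

/-- the limb of `D`, without the root: the parameters of `MM` over which the ray `tm` lands at a
point with the label of the parent -/
def Lm (D : Dat) : Set ℂ :=
  {c | c ∈ MM ∧ ∃ b, (c, b) ∈ NJ D.m (JP D) ∧ Land D.m c b D.tm D.x.den}

/-- the limb, topologically: the points of `MM` which are separated from `0` by `r` -/
def Sep (r : ℂ) : Set ℂ := {z | z ∈ MM ∧ z ≠ r ∧ z ∉ connectedComponentIn (MM \ {r}) 0}

/-- the radius of the gate -/
noncomputable def sG (D : Dat) : ℝ := gR D.m D.x / 8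

/-- the gate -/
noncomputable def Gate (D : Dat) : Set ℂ := D.c '' closedBall D.a (sG D)

/-- the inner half of the gate (in the component of the parent) -/
noncomputable def Half (D : Dat) : Set ℂ := D.c '' {L | L ∈ ball D.a (sG D) ∧ L.re < 0}

/-- neighbourhood of the curve `Ray s`, roof, `Ray t` in the logarithmic coordinate (`s`, `t` in
turns) -/
def Box (s t : ℝ) : Set ℂ :=
  {z | 0 < z.re ∧ z.re < 2 * (t - s) ∧ 2 * Real.pi * s - z.re / 4 < z.im ∧
    z.im < 2 * Real.pi * t + z.re / 4 ∧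
    (z.im < 2 * Real.pi * s + z.re / 4 ∨ 2 * Real.pi * t - z.re / 4 < z.im ∨ (t - s) / 2 < z.re)}

/-- the area used by the arc `(s, t)` -/
noncomputable def area (s t : ℝ) : ℝ := (volume (cOf '' Box s t)).toReal

/-- the part of the parameter ray `t` between the potentials `g` and `h` -/
noncomputable def RaySeg (t g h : ℝ) : Set ℂ :=
  (fun u : ℝ => cOf ((u : ℂ) + 2 * Real.pi * t * I)) '' Icc g h

/-- the roof of height `t - s` over the arc `(s, t)` -/
noncomputable def Roof (s t : ℝ) : Set ℂ :=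
  (fun u : ℝ => cOf (((t - s : ℝ) : ℂ) + 2 * Real.pi * u * I)) '' Icc s t

/-! ## The modules: statements -/

/-- N1a (helper45): length and area -/
def N1_length : Prop := ∀ s t g : ℝ, s < t → t - s ≤ 1 → 0 < g → g ≤ t - s →
  diam (RaySeg s g (t - s)) ≤ 20 * √((1 + Real.log ((t - s) / g)) * area s t) ∧
  diam (RaySeg t g (t - s)) ≤ 20 * √((1 + Real.log ((t - s) / g)) * area s t) ∧
  diam (Roof s t) ≤ 20 * √(area s t)

/-- N1b (helper86): disjoint arcs use boundedly overlapping areas -/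
def N1_area : Prop := ∀ (ι : Type) (F : Finset ι) (s t : ι → ℝ),
  (∀ i ∈ F, s i < t i ∧ t i - s i ≤ 1) →
  (∀ i ∈ F, ∀ j ∈ F, i ≠ j → ∀ k : ℤ, Disjoint (Ioo (s i) (t i)) (Ioo (s j + k) (t j + k))) →
  ∑ i ∈ F, area (s i) (t i) ≤ 10 ^ 4

/-- N2 (helper15): the ends of the two rays are in the gate (and they land at the root) -/
def N2_ray : Prop := ∀ D : Dat, D.Par → D.Cir → ∀ s g : ℝ, 0 < s → s ≤ sG D → 0 < g →
  130000 * (D.m : ℝ) ^ 3 * D.x.den ≤ s ^ 4 * (-Real.log g) →
  cOf ((g : ℂ) + 2 * Real.pi * D.tm * I) ∈ D.c '' closedBall D.a s ∧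
  cOf ((g : ℂ) + 2 * Real.pi * D.tp * I) ∈ D.c '' closedBall D.a s

/-- N3a (helper4): the size of the gate -/
def N3_gate : Prop := ∀ D : Dat, D.Par → D.Cir → MeasurableSet (Half D) ∧ Half D ⊆ ball 0 10 ∧
  Bornology.IsBounded (Gate D) ∧ diam (Gate D) ≤ 10 ^ 6 * √((volume (Half D)).toReal)

/-- N3b (helper13): the inner halves are disjoint -/
def N3_disj : Prop := ∀ D D' : Dat, D.Par → D.Cir → D'.Par → D'.Cir → D.m = D'.m →
  D.x = D'.x → rt D ≠ rt D' → Disjoint (Half D) (Half D')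

/-- N4 (helper54): two roots of the same period with denominators at least `3` are not nested -/
def N4_anti : Prop := ∀ D D' : Dat, D.Par → D.Cir → D'.Par → D'.Cir → D.m = D'.m →
  3 ≤ D.x.den → 3 ≤ D'.x.den →
  (∃ (θ : ℝ) (k : ℤ), D.tm < θ ∧ θ < D.tp ∧ D'.tm < θ + k ∧ θ + k < D'.tp) → rt D = rt D'

/-- N5a (helper60): near a point of the limb -/
def N5_open : Prop := ∀ D : Dat, D.Par → D.Cir → ∀ c ∈ Lm D, ∀ᶠ c' in 𝓝 c,
  (c' ∈ MM → c' ∈ Lm D) ∧ ∀ θ, Ang c' θ → ∃ k : ℤ, D.tm < θ + k ∧ θ + k < D.tp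

/-- N5b (helper60): limits of the wake -/
def N5_closed : Prop := ∀ D : Dat, D.Par → D.Cir → ∀ c ∈ MM, c ∈ closure (Lm D ∪
  {c' | ∃ θ, Ang c' θ ∧ D.tm ≤ θ ∧ θ ≤ D.tp}) → c ∈ Lm D ∨ c = rt D

/-- N6 (helper24): the limb is the part of `MM` separated from `0` by the root -/
def N6_sep : Prop := ∀ D : Dat, D.Par → D.Cir → Sep (rt D) = Lm D

/-- N7 (helper67): projection lemma -/
def N7_proj : Prop := ∀ (Q K : Set ℂ) (r : ℂ) (ι : Type) (F : Finset ι) (P : ι → Set ℂ),
  IsOpen Q → Bornology.IsBounded Q → IsPreconnected K → r ∈ K → K ⊆ Q ∪ {r} →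
  (∀ i ∈ F, Bornology.IsBounded (P i)) → frontier Q ⊆ ⋃ i ∈ F, P i →
  ∀ z ∈ K, dist z r ≤ ∑ i ∈ F, diam (P i)

/-- N8 (helper26): the sum -/
def N8_sum : Prop := ∀ (N : ℕ) (ι : Type) (F : Finset ι) (D : ι → Dat),
  (∀ i ∈ F, (D i).Par ∧ (D i).Cir ∧ (D i).m * (D i).x.den ≤ N) →
  (∀ i ∈ F, ∀ j ∈ F, i ≠ j → rt (D i) ≠ rt (D j) ∧ rt (D j) ∉ Sep (rt (D i))) →
  ∑ i ∈ F, diam (Sep (rt (D i))) ^ 2 ≤ 10 ^ 20 * (N : ℝ) ^ 9

/-- N9 (helper26): the roots of one period with denominators at least `3` do not separate each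
other from `0` -/
def N9_anti : Prop := ∀ D D' : Dat, D.Par → D.Cir → D'.Par → D'.Cir → D.m = D'.m →
  3 ≤ D.x.den → 3 ≤ D'.x.den → rt D' ∉ Sep (rt D)

end Pool.Agent.Work.MLC.Cnt
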