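import Pool.Agent.Work.MLC.CntZ26
import Pool.Agent.Work.MLC.CntFin6

set_option autoImplicit false

/-! # Theorem F: the exceptional set, without hypotheses (helper6) -/

namespace Pool.Agent.Work.MLC.Cnt

open Filter Topology Metric Set Complex MeasureTheory
open Pool.Agent.Work.MLC.Sat

/-- the level data exist -/
theorem lvD_all6 (N : ℕ) (hN : 2 ≤ N) : ∃ (ι : Type) (_ : Fintype ι) (D : ι → Dat), LvD N D := by
  classical
  have hN1 : 1 ≤ N := by omega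
  obtain ⟨ι, hι, D, h, hm, hmq, hF⟩ := exists_fam N
  have hne : Nonempty ι := by
    obtain ⟨D', a, b, c, d, -⟩ := dense26 hN1 0
    obtain ⟨i, -⟩ := hF D' a b c d
    exact ⟨i⟩
  have hsep := sepFam_of g3Sep h hm hF
  have hpart := partFam43 h hmq
  refine ⟨ι, hι, D, h, hne, fun J hJ => ?_, fun δ hδ => ?_⟩
  · by_contra hcon
    push Not at hcon
    set u : ℝ := (J.1 + (J.2 - 16 / 2 ^ N)) / 2 with hu
    obtain ⟨t, ht, h1, h2⟩ := exists_end24 n2_ray h hF (dense26 hN1) u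
    exact hJ.emp t ht (by linarith) (by linarith)
  · have h1 := card_big_gaps n1_area n3_gate n3_disj hN1 h hm hmq hsep hpart hδ
    have h2 : {J | IsGap (La D) (Ra D) J ∧ δ ≤ diam (Pc Finset.univ D (adr D J))} =
        (((Gp h).filter fun J => δ ≤ diam (Pc Finset.univ D (adr D J)) : Finset (ℝ × ℝ)) :
          Set (ℝ × ℝ)) := by
      ext J
      simp [mem_Gp]
    rw [h2, Set.ncard_coe_finset]
    exact h1

/-- **the exceptional set** -/
theorem theoremB : ∃ E : ℕ → Set ℝ,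
    (∀ j n : ℕ, 1 ≤ n → ∃ T : Finset ℝ, (T.card : ℝ) ≤ 10 ^ 37 * ((j : ℝ) + 1) ^ 2 * (n : ℝ) ^ 13 ∧
      E j ⊆ ⋃ t ∈ T, Icc t (t + (1 / 2 : ℝ) ^ n)) ∧
    ∀ θ ∈ Ico (0 : ℝ) 1, (∀ j, θ ∉ E j) → ∃ c₀ ∈ MM,
      Tendsto Psi (𝓝[{z | 1 < ‖z‖}] (Complex.exp (2 * Real.pi * θ * Complex.I))) (𝓝 c₀) ∧
      LCat MM c₀ := finB lvD_all6

end Pool.Agent.Work.MLC.Cnt
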