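import Pool.Agent.Work.MLC.CntG24

set_option autoImplicit false

/-! # The labels `(m, x)` with `m ≤ N`, `m * x.den ≤ 3 N` (helper24) -/

namespace Pool.Agent.Work.MLC.Cnt

/-- the rational numbers in `(0, 1]` with denominator at most `K` -/
def rats (K : ℕ) : Finset ℚ :=
  (Finset.Icc 1 K ×ˢ Finset.Icc 1 K).image fun p : ℕ × ℕ => (p.1 : ℚ) / p.2

lemma card_rats (K : ℕ) : (rats K).card ≤ K ^ 2 := by
  unfold rats
  refine Finset.card_image_le.trans ?_
  rw [Finset.card_product]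
  simp [sq]

lemma mem_rats {K : ℕ} {x : ℚ} (hx0 : 0 < x) (hx1 : x < 1) (hxK : x.den ≤ K) : x ∈ rats K := by
  have h := mem_labels (N := K) (m := x.den) x.pos hxK hx0 hx1 hxK
  unfold labels at h
  exact (Finset.mem_product.1 h).2

/-- the pairs (period of the parent, rotation number) with `m ≤ N`, `m * x.den ≤ 3 N` -/
def labels3 (N : ℕ) : Finset (ℕ × ℚ) :=
  (Finset.Icc 1 N).biUnion fun m => (rats (3 * N / m)).image fun x => (m, x)

lemma mem_labels3 {N m : ℕ} {x : ℚ} (hm : 0 < m) (hmN : m ≤ N) (hx0 : 0 < x) (hx1 : x < 1)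
    (hxN : m * x.den ≤ 3 * N) : (m, x) ∈ labels3 N := by
  unfold labels3
  rw [Finset.mem_biUnion]
  refine ⟨m, Finset.mem_Icc.2 ⟨hm, hmN⟩, Finset.mem_image.2 ⟨x, mem_rats hx0 hx1 ?_, rfl⟩⟩
  rw [Nat.le_div_iff_mul_le hm, mul_comm]
  exact hxN

lemma sum_inv_sq {N : ℕ} (hN : 1 ≤ N) :
    ∑ m ∈ Finset.Icc 1 N, 1 / ((m : ℝ) ^ 2) ≤ 2 - 1 / (N : ℝ) := by
  induction N, hN using Nat.le_induction with
  | base => norm_num
  | succ N hN ih =>
    rw [Finset.sum_Icc_succ_top (by omega)]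
    have h0 : (0 : ℝ) < N := by exact_mod_cast hN
    have h1 : 1 / ((N + 1 : ℕ) : ℝ) ^ 2 ≤ 1 / (N : ℝ) - 1 / ((N + 1 : ℕ) : ℝ) := by
      push_cast
      rw [div_sub_div _ _ h0.ne' (by positivity), div_le_div_iff₀ (by positivity) (by positivity)]
      nlinarith
    linarith

theorem card_labels3 (N : ℕ) : (labels3 N).card ≤ 18 * N ^ 2 := by
  unfold labels3
  refine Finset.card_biUnion_le.trans ?_
  have h1 : ∀ m ∈ Finset.Icc 1 N, (((rats (3 * N / m)).image fun x => (m, x)).card : ℝ) ≤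
      9 * (N : ℝ) ^ 2 * (1 / (m : ℝ) ^ 2) := by
    intro m hm
    rw [Finset.mem_Icc] at hm
    have hm0 : (0 : ℝ) < m := by exact_mod_cast hm.1
    have h2 : (((rats (3 * N / m)).image fun x => (m, x)).card : ℝ) ≤ ((3 * N / m : ℕ) : ℝ) ^ 2 := by
      exact_mod_cast Finset.card_image_le.trans (card_rats _)
    refine h2.trans ?_
    have h3 : ((3 * N / m : ℕ) : ℝ) ≤ 3 * N / m := by
      have := @Nat.cast_div_le ℝ _ _ _ (3 * N) m
      push_cast at this
      exact this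
    calc ((3 * N / m : ℕ) : ℝ) ^ 2 ≤ (3 * N / m) ^ 2 := by gcongr
      _ = 9 * (N : ℝ) ^ 2 * (1 / (m : ℝ) ^ 2) := by field_simp; ring
  have h2 : ((∑ m ∈ Finset.Icc 1 N, ((rats (3 * N / m)).image fun x => (m, x)).card : ℕ) : ℝ) ≤
      18 * (N : ℝ) ^ 2 := by
    push_cast
    refine (Finset.sum_le_sum h1).trans ?_
    rw [← Finset.mul_sum]
    rcases Nat.eq_zero_or_pos N with h0 | h0
    · subst h0; simp
    · have h3 := sum_inv_sq h0
      have h4 : (0 : ℝ) ≤ 1 / (N : ℝ) := by positivity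
      nlinarith [sq_nonneg (N : ℝ)]
  exact_mod_cast h2

end Pool.Agent.Work.MLC.Cnt
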