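import Pool.Agent.Work.MLC.CntJ26
import Pool.Agent.Work.MLC.CntK24
import Pool.Agent.Work.MLC.CntH26

set_option autoImplicit false

/-! # Theorem F: the sum over the gaps (module G8, helper26) -/

namespace Pool.Agent.Work.MLC.Cnt

open Filter Topology Metric Set Complex MeasureTheory
open Pool.Agent.Work.MLC.Sat

namespace CH

lemma eq_of_right {ι : Type*} {a b : ι → ℝ} {J J' : ℝ × ℝ} (h : IsGap a b J) (h' : IsGap a b J')
    {k : ℤ} (h1 : J.2 = J'.2 + k) : J = J' := by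
  have hl := h.lt
  have hl' := h'.lt
  have hm1 : J.1 ≤ max J.1 (J'.1 + k) := le_max_left _ _
  have hm2 : J'.1 + k ≤ max J.1 (J'.1 + k) := le_max_right _ _
  have hm3 : max J.1 (J'.1 + k) < J.2 := max_lt hl (by linarith)
  refine h.eq_of_meet h' (k := k) (u := (max J.1 (J'.1 + k) + J.2) / 2) ?_ ?_ ?_ ?_
  · linarith
  · linarith
  · linarith
  · linarith

/-- halves in one ball, general labels -/
lemma sum_half_gen (h3 : N3_gate) (h3' : N3_disj) {ι : Type*} (F : Finset ι) (D : ι → Dat)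
    (hP : ∀ i ∈ F, (D i).Par) (hC : ∀ i ∈ F, (D i).Cir) (T : Finset (ℕ × ℚ))
    (hT : ∀ i ∈ F, ((D i).m, (D i).x) ∈ T)
    (hne : ∀ i ∈ F, ∀ j ∈ F, i ≠ j → rt (D i) ≠ rt (D j)) :
    ∑ i ∈ F, (volume (Half (D i))).toReal ≤ 315 * (T.card : ℝ) := by
  classical
  have hball : (volume (ball (0 : ℂ) 10)).toReal ≤ 315 := by
    rw [Complex.volume_ball]
    have h1 : (ENNReal.ofReal 10 ^ 2 * (NNReal.pi : ENNReal)).toReal = 100 * Real.pi := by
      rw [ENNReal.toReal_mul, ENNReal.toReal_pow, ENNReal.toReal_ofReal (by norm_num)]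
      norm_num
    rw [h1]
    have := Real.pi_lt_d2
    linarith
  have hfin : volume (ball (0 : ℂ) 10) ≠ ⊤ := measure_ball_lt_top.ne
  rw [← Finset.sum_fiberwise_of_maps_to hT]
  have hfib : ∀ y ∈ T, ∑ i ∈ F with ((D i).m, (D i).x) = y, (volume (Half (D i))).toReal ≤ 315 := by
    intro y _
    have hmem : ∀ i ∈ F.filter (fun i => ((D i).m, (D i).x) = y),
        i ∈ F ∧ ((D i).m, (D i).x) = y := fun i hi => by
      simpa using hi
    have hdisj : (↑(F.filter fun i => ((D i).m, (D i).x) = y) : Set ι).PairwiseDisjoint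
        fun i => Half (D i) := by
      intro i hi j hj hij
      obtain ⟨hi1, hi2⟩ := hmem i (by simpa using hi)
      obtain ⟨hj1, hj2⟩ := hmem j (by simpa using hj)
      have he := hi2.trans hj2.symm
      simp only [Prod.mk.injEq] at he
      exact h3' (D i) (D j) (hP i hi1) (hC i hi1) (hP j hj1) (hC j hj1) he.1 he.2
        (hne i hi1 j hj1 hij)
    have hmeas : ∀ i ∈ F.filter (fun i => ((D i).m, (D i).x) = y),
        MeasurableSet (Half (D i)) := fun i hi => by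
      obtain ⟨hi1, -⟩ := hmem i hi
      exact (h3 (D i) (hP i hi1) (hC i hi1)).1
    have hsub : (⋃ i ∈ F.filter (fun i => ((D i).m, (D i).x) = y), Half (D i)) ⊆
        ball (0 : ℂ) 10 := by
      refine iUnion₂_subset fun i hi => ?_
      obtain ⟨hi1, -⟩ := hmem i hi
      exact (h3 (D i) (hP i hi1) (hC i hi1)).2.1
    have hfini : ∀ i ∈ F.filter (fun i => ((D i).m, (D i).x) = y),
        volume (Half (D i)) ≠ ⊤ := fun i hi => by
      obtain ⟨hi1, -⟩ := hmem i hi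
      exact measure_ne_top_of_subset (h3 (D i) (hP i hi1) (hC i hi1)).2.1 hfin
    rw [← ENNReal.toReal_sum hfini, ← measure_biUnion_finset hdisj hmeas]
    exact (ENNReal.toReal_mono hfin (measure_mono hsub)).trans hball
  calc ∑ y ∈ T, ∑ i ∈ F with ((D i).m, (D i).x) = y, (volume (Half (D i))).toReal
      ≤ ∑ y ∈ T, (315 : ℝ) := Finset.sum_le_sum hfib
    _ = 315 * (T.card : ℝ) := by
        rw [Finset.sum_const, nsmul_eq_mul]; ring

/-- each gate is used at most twice on each side -/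
lemma sum_sel {ι : Type*} [Fintype ι] [DecidableEq ι] {a b : ι → ℝ} (G : Finset (ℝ × ℝ))
    (σ : ℝ × ℝ → ι) (v : ι → ℝ) (hv : ∀ i, 0 ≤ v i) (p : ℝ × ℝ → ℝ)
    (hp : ∀ J ∈ G, ∀ J' ∈ G, (∃ k : ℤ, p J = p J' + k) → J = J')
    (hσ : ∀ J ∈ G, ∃ k : ℤ, p J = a (σ J) + k ∨ p J = b (σ J) + k) :
    ∑ J ∈ G, v (σ J) ≤ 2 * ∑ i, v i := by
  classical
  have hcard : ∀ i, (G.filter fun J => σ J = i).card ≤ 2 := by
    intro i
    have h1 : (G.filter fun J => σ J = i).card ≤ (Finset.univ : Finset Bool).card := by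
      refine Finset.card_le_card_of_injOn
        (fun J => decide (∃ k : ℤ, p J = a i + k)) (fun _ _ => Finset.mem_univ _) ?_
      intro J hJ J' hJ' heq
      obtain ⟨hJ1, hJ2⟩ := Finset.mem_filter.1 (Finset.mem_coe.1 hJ)
      obtain ⟨hJ1', hJ2'⟩ := Finset.mem_filter.1 (Finset.mem_coe.1 hJ')
      apply hp J hJ1 J' hJ1'
      have heq' : (∃ k : ℤ, p J = a i + k) ↔ ∃ k : ℤ, p J' = a i + k := by
        simpa using heq
      by_cases hc : ∃ k : ℤ, p J = a i + k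
      · obtain ⟨k, hk⟩ := hc
        obtain ⟨k', hk'⟩ := heq'.1 ⟨k, hk⟩
        exact ⟨k - k', by rw [hk, hk']; push_cast; ring⟩
      · have hc' : ¬ ∃ k : ℤ, p J' = a i + k := fun h => hc (heq'.2 h)
        obtain ⟨k, hk⟩ := hσ J hJ1
        obtain ⟨k', hk'⟩ := hσ J' hJ1'
        rw [hJ2] at hk
        rw [hJ2'] at hk'
        rcases hk with hk | hk
        · exact absurd ⟨k, hk⟩ hc
        rcases hk' with hk' | hk'
        · exact absurd ⟨k', hk'⟩ hc'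
        exact ⟨k - k', by rw [hk, hk']; push_cast; ring⟩
    simpa using h1
  rw [← Finset.sum_fiberwise_of_maps_to (s := G) (t := Finset.univ) (g := σ)
    (fun _ _ => Finset.mem_univ _), Finset.mul_sum]
  refine Finset.sum_le_sum fun i _ => ?_
  calc ∑ J ∈ G with σ J = i, v (σ J) = ∑ J ∈ G with σ J = i, v i := by
        refine Finset.sum_congr rfl fun J hJ => ?_
        rw [(Finset.mem_filter.1 hJ).2]
    _ = ((G.filter fun J => σ J = i).card : ℝ) * v i := by rw [Finset.sum_const, nsmul_eq_mul]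
    _ ≤ 2 * v i := by
        refine mul_le_mul_of_nonneg_right ?_ (hv i)
        exact_mod_cast hcard i

/-- **the sum over the gaps** of the squares of the sizes of the parts -/
theorem sum_gaps (h1' : N1_area) (h3 : N3_gate) (h3' : N3_disj) {ι : Type} [Fintype ι]
    (D : ι → Dat) (hP : ∀ i, (D i).Par) (hC : ∀ i, (D i).Cir)
    (hne : ∀ i j, i ≠ j → rt (D i) ≠ rt (D j)) (T : Finset (ℕ × ℚ))
    (hT : ∀ i, ((D i).m, (D i).x) ∈ T) (G : Finset (ℝ × ℝ))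
    (hG : ∀ J ∈ G, IsGap (fun i => (D i).tm) (fun i => (D i).tp) J) (σ τ : ℝ × ℝ → ι)
    (hσ : ∀ J ∈ G, ∃ k : ℤ, J.1 = (D (σ J)).tm + k ∨ J.1 = (D (σ J)).tp + k)
    (hτ : ∀ J ∈ G, ∃ k : ℤ, J.2 = (D (τ J)).tm + k ∨ J.2 = (D (τ J)).tp + k) {Λ : ℝ}
    (hΛ : 0 ≤ Λ) :
    ∑ J ∈ G, (60 * √(Λ * area J.1 J.2) + diam (Gate (D (σ J))) + diam (Gate (D (τ J)))) ^ 2 ≤
      3 * (3600 * Λ * 10 ^ 4 + 4 * (10 ^ 12 * (315 * (T.card : ℝ)))) := by
  classical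
  have harea : ∑ J ∈ G, area J.1 J.2 ≤ 10 ^ 4 := by
    refine h1' (ℝ × ℝ) G Prod.fst Prod.snd ?_ ?_
    · intro J hJ
      exact ⟨(hG J hJ).lt, by linarith [(hG J hJ).le_one]⟩
    · intro J hJ J' hJ' hJJ k
      exact (hG J hJ).disjoint (hG J' hJ') hJJ k
  have hhalf := sum_half_gen h3 h3' Finset.univ D (fun i _ => hP i) (fun i _ => hC i) T
    (fun i _ => hT i) (fun i _ j _ hij => hne i j hij)
  have hgate : ∀ i, diam (Gate (D i)) ^ 2 ≤ 10 ^ 12 * (volume (Half (D i))).toReal := by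
    intro i
    have hV0 : 0 ≤ (volume (Half (D i))).toReal := ENNReal.toReal_nonneg
    calc diam (Gate (D i)) ^ 2 ≤ (10 ^ 6 * √((volume (Half (D i))).toReal)) ^ 2 := by
          gcongr
          exact (h3 (D i) (hP i) (hC i)).2.2.2
      _ = 10 ^ 12 * (volume (Half (D i))).toReal := by
          rw [mul_pow, Real.sq_sqrt hV0]; norm_num
  have hgs : ∑ i, diam (Gate (D i)) ^ 2 ≤ 10 ^ 12 * (315 * (T.card : ℝ)) := by
    calc ∑ i, diam (Gate (D i)) ^ 2 ≤ ∑ i, 10 ^ 12 * (volume (Half (D i))).toReal :=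
          Finset.sum_le_sum fun i _ => hgate i
      _ = 10 ^ 12 * ∑ i, (volume (Half (D i))).toReal := by rw [Finset.mul_sum]
      _ ≤ _ := by gcongr
  have hs1 := sum_sel (a := fun i => (D i).tm) (b := fun i => (D i).tp) G σ (fun i => diam (Gate (D i)) ^ 2) (fun i => sq_nonneg _) Prod.fst
    (fun J hJ J' hJ' ⟨k, hk⟩ => (hG J hJ).eq_of_int (hG J' hJ') hk) hσ
  have hs2 := sum_sel (a := fun i => (D i).tm) (b := fun i => (D i).tp) G τ (fun i => diam (Gate (D i)) ^ 2) (fun i => sq_nonneg _) Prod.snd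
    (fun J hJ J' hJ' ⟨k, hk⟩ => eq_of_right (hG J hJ) (hG J' hJ') hk) hτ
  have hone : ∀ J ∈ G, (60 * √(Λ * area J.1 J.2) + diam (Gate (D (σ J))) +
      diam (Gate (D (τ J)))) ^ 2 ≤ 3 * (3600 * Λ * area J.1 J.2 + diam (Gate (D (σ J))) ^ 2 +
        diam (Gate (D (τ J))) ^ 2) := by
    intro J _
    have hA0 : 0 ≤ area J.1 J.2 := ENNReal.toReal_nonneg
    have h1 : √(Λ * area J.1 J.2) ^ 2 = Λ * area J.1 J.2 := Real.sq_sqrt (by positivity)
    set R : ℝ := √(Λ * area J.1 J.2)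
    set u : ℝ := diam (Gate (D (σ J)))
    set v : ℝ := diam (Gate (D (τ J)))
    have h2 : 3600 * Λ * area J.1 J.2 = 3600 * R ^ 2 := by rw [h1]; ring
    rw [h2]
    nlinarith [sq_nonneg (60 * R - u), sq_nonneg (60 * R - v), sq_nonneg (u - v)]
  calc ∑ J ∈ G, (60 * √(Λ * area J.1 J.2) + diam (Gate (D (σ J))) + diam (Gate (D (τ J)))) ^ 2
      ≤ ∑ J ∈ G, 3 * (3600 * Λ * area J.1 J.2 + diam (Gate (D (σ J))) ^ 2 +
        diam (Gate (D (τ J))) ^ 2) := Finset.sum_le_sum hone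
    _ = 3 * (3600 * Λ * ∑ J ∈ G, area J.1 J.2 + ∑ J ∈ G, diam (Gate (D (σ J))) ^ 2 +
        ∑ J ∈ G, diam (Gate (D (τ J))) ^ 2) := by
        rw [← Finset.mul_sum, Finset.sum_add_distrib, Finset.sum_add_distrib, Finset.mul_sum]
    _ ≤ 3 * (3600 * Λ * 10 ^ 4 + 2 * (10 ^ 12 * (315 * (T.card : ℝ))) +
        2 * (10 ^ 12 * (315 * (T.card : ℝ)))) := by
        have e1 : ∑ J ∈ G, diam (Gate (D (σ J))) ^ 2 ≤ 2 * (10 ^ 12 * (315 * (T.card : ℝ))) :=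
          hs1.trans (by gcongr)
        have e2 : ∑ J ∈ G, diam (Gate (D (τ J))) ^ 2 ≤ 2 * (10 ^ 12 * (315 * (T.card : ℝ))) :=
          hs2.trans (by gcongr)
        gcongr
    _ = _ := by ring

end CH

/-- **G8**: the number of gaps of level `N` in the classes of size at least `δ` -/
theorem g8_big (h1' : N1_area) (h3 : N3_gate) (h3' : N3_disj) {N : ℕ} (hN : 1 ≤ N) {ι : Type}
    [Fintype ι] (D : ι → Dat) (hP : ∀ i, (D i).Par) (hC : ∀ i, (D i).Cir)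
    (hne : ∀ i j, i ≠ j → rt (D i) ≠ rt (D j))
    (hm : ∀ i, (D i).m ≤ N) (hmq : ∀ i, (D i).m * (D i).x.den ≤ 3 * N)
    (G : Finset (ℝ × ℝ)) (hG : ∀ J ∈ G, IsGap (fun i => (D i).tm) (fun i => (D i).tp) J)
    (σ τ : ℝ × ℝ → ι)
    (hσ : ∀ J ∈ G, ∃ k : ℤ, J.1 = (D (σ J)).tm + k ∨ J.1 = (D (σ J)).tp + k)
    (hτ : ∀ J ∈ G, ∃ k : ℤ, J.2 = (D (τ J)).tm + k ∨ J.2 = (D (τ J)).tp + k)
    {κ : Type*} [DecidableEq κ] (cls : ℝ × ℝ → κ) (d : κ → ℝ)
    (hcard : ∀ J ∈ G, (G.filter fun J' => cls J' = cls J).card ≤ 18 * N ^ 2 + 1)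
    (hd : ∀ J ∈ G, d (cls J) ≤ ∑ J' ∈ G with cls J' = cls J,
      (60 * √((140000000000 * ((3 * N : ℕ) : ℝ) ^ 9) * area J'.1 J'.2) +
        diam (Gate (D (σ J'))) + diam (Gate (D (τ J')))))
    {δ : ℝ} (hδ : 0 < δ) :
    ((G.filter fun J => δ ≤ d (cls J)).card : ℝ) ≤ 10 ^ 27 * (N : ℝ) ^ 13 / δ ^ 2 := by
  have hN1 : (1 : ℝ) ≤ N := by exact_mod_cast hN
  have hT : ∀ i, ((D i).m, (D i).x) ∈ labels3 N := fun i =>
    mem_labels3 (hP i).m_pos (hm i) (hP i).x_pos (hP i).x_lt (hmq i)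
  have hs := CH.sum_gaps h1' h3 h3' D hP hC hne (labels3 N) hT G hG σ τ hσ hτ
    (Λ := 140000000000 * ((3 * N : ℕ) : ℝ) ^ 9) (by positivity)
  have hc := card_big G cls d _ hcard hd hs hδ
  have hT' : ((labels3 N).card : ℝ) ≤ 18 * (N : ℝ) ^ 2 := by exact_mod_cast card_labels3 N
  rw [le_div_iff₀ (by positivity)]
  refine hc.trans ?_
  have h29 : (N : ℝ) ^ 2 ≤ (N : ℝ) ^ 9 := pow_le_pow_right₀ hN1 (by norm_num)
  have h12 : (1 : ℝ) ≤ (N : ℝ) ^ 2 := one_le_pow₀ hN1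
  have hK : ((18 * N ^ 2 + 1 : ℕ) : ℝ) ≤ 19 * (N : ℝ) ^ 2 := by push_cast; linarith
  calc ((18 * N ^ 2 + 1 : ℕ) : ℝ) ^ 2 * (3 * (3600 * (140000000000 * ((3 * N : ℕ) : ℝ) ^ 9) *
        10 ^ 4 + 4 * (10 ^ 12 * (315 * ((labels3 N).card : ℝ)))))
      ≤ (19 * (N : ℝ) ^ 2) ^ 2 * (3 * (3600 * (140000000000 * ((3 * N : ℕ) : ℝ) ^ 9) *
        10 ^ 4 + 4 * (10 ^ 12 * (315 * (18 * (N : ℝ) ^ 9))))) := by
        have e1 : ((labels3 N).card : ℝ) ≤ 18 * (N : ℝ) ^ 9 := hT'.trans (by linarith)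
        gcongr
    _ ≤ 10 ^ 27 * (N : ℝ) ^ 13 := by
        push_cast
        have h0 : (0 : ℝ) ≤ (N : ℝ) ^ 13 := by positivity
        have e : (19 * (N : ℝ) ^ 2) ^ 2 * (3 * (3600 * (140000000000 * (3 * (N : ℝ)) ^ 9) *
          10 ^ 4 + 4 * (10 ^ 12 * (315 * (18 * (N : ℝ) ^ 9))))) =
          (361 * (3 * (3600 * (140000000000 * 19683) * 10 ^ 4 + 4 * (10 ^ 12 * (315 * 18))))) *
            (N : ℝ) ^ 13 := by ring
        rw [e]
        have : (361 * (3 * (3600 * (140000000000 * 19683) * 10 ^ 4 +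
          4 * (10 ^ 12 * (315 * 18)))) : ℝ) ≤ 10 ^ 27 := by norm_num
        exact mul_le_mul_of_nonneg_right this h0

/-- **G8, sum of squares**: the sum over the classes of level `N` of the squares of the sizes -/
theorem g8_sum (h1' : N1_area) (h3 : N3_gate) (h3' : N3_disj) {N : ℕ} (hN : 1 ≤ N) {ι : Type}
    [Fintype ι] (D : ι → Dat) (hP : ∀ i, (D i).Par) (hC : ∀ i, (D i).Cir)
    (hne : ∀ i j, i ≠ j → rt (D i) ≠ rt (D j))
    (hm : ∀ i, (D i).m ≤ N) (hmq : ∀ i, (D i).m * (D i).x.den ≤ 3 * N)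
    (G : Finset (ℝ × ℝ)) (hG : ∀ J ∈ G, IsGap (fun i => (D i).tm) (fun i => (D i).tp) J)
    (σ τ : ℝ × ℝ → ι)
    (hσ : ∀ J ∈ G, ∃ k : ℤ, J.1 = (D (σ J)).tm + k ∨ J.1 = (D (σ J)).tp + k)
    (hτ : ∀ J ∈ G, ∃ k : ℤ, J.2 = (D (τ J)).tm + k ∨ J.2 = (D (τ J)).tp + k)
    {κ : Type*} [DecidableEq κ] (cls : ℝ × ℝ → κ) (d : κ → ℝ)
    (hcard : ∀ J ∈ G, (G.filter fun J' => cls J' = cls J).card ≤ 18 * N ^ 2 + 1)
    (hd0 : ∀ J ∈ G, 0 ≤ d (cls J))
    (hd : ∀ J ∈ G, d (cls J) ≤ ∑ J' ∈ G with cls J' = cls J,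
      (60 * √((140000000000 * ((3 * N : ℕ) : ℝ) ^ 9) * area J'.1 J'.2) +
        diam (Gate (D (σ J'))) + diam (Gate (D (τ J'))))) :
    ∑ y ∈ G.image cls, d y ^ 2 ≤ 10 ^ 25 * (N : ℝ) ^ 11 := by
  have hN1 : (1 : ℝ) ≤ N := by exact_mod_cast hN
  have hT : ∀ i, ((D i).m, (D i).x) ∈ labels3 N := fun i =>
    mem_labels3 (hP i).m_pos (hm i) (hP i).x_pos (hP i).x_lt (hmq i)
  have hs := CH.sum_gaps h1' h3 h3' D hP hC hne (labels3 N) hT G hG σ τ hσ hτ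
    (Λ := 140000000000 * ((3 * N : ℕ) : ℝ) ^ 9) (by positivity)
  have hc := sum_cls G cls d _ hcard hd0 hd hs
  have hT' : ((labels3 N).card : ℝ) ≤ 18 * (N : ℝ) ^ 2 := by exact_mod_cast card_labels3 N
  refine hc.trans ?_
  have h29 : (N : ℝ) ^ 2 ≤ (N : ℝ) ^ 9 := pow_le_pow_right₀ hN1 (by norm_num)
  have h12 : (1 : ℝ) ≤ (N : ℝ) ^ 2 := one_le_pow₀ hN1
  have hK : ((18 * N ^ 2 + 1 : ℕ) : ℝ) ≤ 19 * (N : ℝ) ^ 2 := by push_cast; linarith
  calc ((18 * N ^ 2 + 1 : ℕ) : ℝ) * (3 * (3600 * (140000000000 * ((3 * N : ℕ) : ℝ) ^ 9) *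
        10 ^ 4 + 4 * (10 ^ 12 * (315 * ((labels3 N).card : ℝ)))))
      ≤ (19 * (N : ℝ) ^ 2) * (3 * (3600 * (140000000000 * ((3 * N : ℕ) : ℝ) ^ 9) *
        10 ^ 4 + 4 * (10 ^ 12 * (315 * (18 * (N : ℝ) ^ 9))))) := by
        have e1 : ((labels3 N).card : ℝ) ≤ 18 * (N : ℝ) ^ 9 := hT'.trans (by linarith)
        gcongr
    _ ≤ 10 ^ 25 * (N : ℝ) ^ 11 := by
        push_cast
        have h0 : (0 : ℝ) ≤ (N : ℝ) ^ 11 := by positivity
        have e : (19 * (N : ℝ) ^ 2) * (3 * (3600 * (140000000000 * (3 * (N : ℝ)) ^ 9) *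
          10 ^ 4 + 4 * (10 ^ 12 * (315 * (18 * (N : ℝ) ^ 9))))) =
          (19 * (3 * (3600 * (140000000000 * 19683) * 10 ^ 4 + 4 * (10 ^ 12 * (315 * 18))))) *
            (N : ℝ) ^ 11 := by ring
        rw [e]
        have : (19 * (3 * (3600 * (140000000000 * 19683) * 10 ^ 4 +
          4 * (10 ^ 12 * (315 * 18)))) : ℝ) ≤ 10 ^ 25 := by norm_num
        exact mul_le_mul_of_nonneg_right this h0

end Pool.Agent.Work.MLC.Cnt
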