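import Pool.Agent.Work.MLC.CntQ60
import Pool.Agent.Work.MLC.CntL54
import Pool.Agent.Work.MLC.CntK26

set_option autoImplicit false

/-! # Theorem F: the gaps of a level and the addresses of the pieces (helper26) -/

namespace Pool.Agent.Work.MLC.Cnt

open Filter Topology Metric Set Complex MeasureTheory
open Pool.Agent.Work.MLC.Sat

variable {ι : Type} [Fintype ι] {D : ι → Dat}

/-- all gaps -/
noncomputable def Gp (h : Fam60 Finset.univ D) : Finset (ℝ × ℝ) := (finite_gaps h.lam).toFinset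

lemma mem_Gp (h : Fam60 Finset.univ D) {J : ℝ × ℝ} : J ∈ Gp h ↔ IsGap (La D) (Ra D) J := by
  simp [Gp]

open Classical in
/-- the address of the piece behind `i`, and of the outer piece -/
noncomputable def adO (D : ι → Dat) : Option ι → Finset ι
  | none => ∅
  | some i => Finset.univ.filter fun j => j = i ∨ rt (D i) ∈ Lm (D j)

open Classical in
/-- the arc of `D i`, or `none` -/
noncomputable def endL [Nonempty ι] (D : ι → Dat) (t : ℝ) : ι :=
  if h : ∃ i, EndOf D i t then h.choose else Classical.arbitrary ι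

lemma endL_spec [Nonempty ι] {t : ℝ} (h : t ∈ ends (La D) (Ra D)) : EndOf D (endL D t) t := by
  have h' : ∃ i, EndOf D i t := h
  rw [endL, dif_pos h']
  exact h'.choose_spec

/-- the address of the gap that begins at `tm` -/
lemma adr_of_left (h : Fam60 Finset.univ D) {i : ι} {J : ℝ × ℝ} (hJ : IsGap (La D) (Ra D) J)
    {k : ℤ} (hk : J.1 + k = (D i).tm) : adr D J = adO D (some i) := by
  classical
  ext j
  rw [mem_adr]
  simp only [adO, Finset.mem_filter, Finset.mem_univ, true_and]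
  by_cases hji : j = i
  · subst hji
    refine ⟨fun _ => Or.inl rfl, fun _ => ?_⟩
    refine hJ.inArc_of (k := -k) ?_ ?_
    · simp only [La]; push_cast; linarith
    · simp only [Ra]; push_cast; linarith [(h.C j).lt]
  · rw [h.nest (Ne.symm hji)]
    constructor
    · rintro ⟨l, h1, h2⟩
      right
      simp only [La, Ra] at h1 h2
      obtain ⟨n1, n2, n3, n4⟩ := no_common (h.P i) (h.C i) (h.P j) (h.C j) (h.ne (Ne.symm hji))
        (l + k)
      have hlt := hJ.lt
      refine ⟨-(l + k), ?_, ?_⟩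
      · have : (D j).tm + ((l + k : ℤ) : ℝ) ≤ (D i).tm := by push_cast; linarith
        have := lt_of_le_of_ne this n1
        push_cast at this ⊢
        linarith
      · push_cast; linarith
    · rintro (h1 | ⟨l, h1, h2⟩)
      · exact absurd h1 hji
      · refine hJ.inArc_of (k := -(l + k)) ?_ ?_
        · simp only [La]; push_cast; linarith
        · simp only [Ra]; push_cast; linarith

/-- the angle `0` is in no arc -/
lemma adrPt_zero (h : Fam60 Finset.univ D) : adrPt D 0 = ∅ := by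
  rw [Finset.eq_empty_iff_forall_notMem]
  intro i hi
  obtain ⟨k, h1, h2⟩ := mem_adrPt.1 hi
  rw [zero_add] at h1 h2
  exact no_int_mem (h.P i) (h.C i) k ⟨h1.le, h2.le⟩

lemma zero_notMem_ends (h : Fam60 Finset.univ D) : (0 : ℝ) ∉ ends (La D) (Ra D) := by
  rintro ⟨i, k, h1 | h1⟩
  · refine tm_not_int (h.P i) (h.C i) (-k) ?_
    simp only [La] at h1
    push_cast; linarith
  · refine tp_not_int (h.P i) (h.C i) (-k) ?_
    simp only [Ra] at h1
    push_cast; linarith

/-- each address is the address of a gap -/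
lemma adO_mem [Nonempty ι] (h : Fam60 Finset.univ D) (o : Option ι) :
    ∃ J ∈ Gp h, adr D J = adO D o := by
  cases o with
  | none =>
    obtain ⟨J, hJ, -⟩ := exists_gapsOf h (zero_notMem_ends h)
    rw [adrPt_zero h] at hJ
    exact ⟨J, (mem_Gp h).2 hJ.1, hJ.2⟩
  | some i =>
    obtain ⟨J, hJ, k, hk⟩ := exists_gap_at h.lam (e := (D i).tm) ⟨i, 0, by simp [La]⟩
    exact ⟨J, (mem_Gp h).2 hJ, adr_of_left h hJ hk⟩

/-- each gap has one of the addresses -/
lemma adr_eq_adO (h : Fam60 Finset.univ D) {J : ℝ × ℝ} (hJ : IsGap (La D) (Ra D) J) :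
    ∃ o, adr D J = adO D o := by
  classical
  have hA := isAdr_adr h hJ.lt
  rcases (adr D J).eq_empty_or_nonempty with h0 | h0
  · exact ⟨none, h0⟩
  · obtain ⟨o, ho, hin⟩ := exists_inner h hA h0
    refine ⟨some o, ?_⟩
    ext j
    simp only [adO, Finset.mem_filter, Finset.mem_univ, true_and]
    constructor
    · intro hj
      by_cases hjo : j = o
      · exact Or.inl hjo
      · exact Or.inr (hin j hj hjo)
    · rintro (rfl | hj)
      · exact ho
      · exact hA.up o ho j (Finset.mem_univ j) hj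

/-- **the number of gaps of a class**, from the separation statement -/
lemma card_gaps_le [DecidableEq ι] (h : Fam60 Finset.univ D) {N : ℕ} (hm : ∀ i, (D i).m ≤ N)
    (hmq : ∀ i, (D i).m * (D i).x.den ≤ 3 * N)
    (hsep : ∀ i j, i ≠ j → (D i).m = (D j).m → (D i).x = (D j).x →
      ∃ l, (InA (D l) (D i).tm ∧ ¬ InA (D l) (D j).tm) ∨ (InA (D l) (D j).tm ∧ ¬ InA (D l) (D i).tm))
    (J : ℝ × ℝ) : ((Gp h).filter fun J' => adr D J' = adr D J).card ≤ 18 * N ^ 2 + 1 := by
  have h1 := card_class h.lam (fun i => ((D i).m, (D i).x)) (labels3 N)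
    (fun i => mem_labels3 (h.P i).m_pos (hm i) (h.P i).x_pos (h.P i).x_lt (hmq i))
    (fun i j hij hne => by
      simp only [Prod.mk.injEq] at hij
      have hne' : i ≠ j := by
        rintro rfl
        exact hne ⟨0, by simp, by simp⟩
      exact hsep i j hne' hij.1 hij.2) J
  have h2 : {J' | IsGap (La D) (Ra D) J' ∧ SameCls (La D) (Ra D) J J'} =
      (((Gp h).filter fun J' => adr D J' = adr D J : Finset (ℝ × ℝ)) : Set (ℝ × ℝ)) := by
    ext J'
    simp only [Set.mem_ofPred_eq, Finset.coe_filter, mem_Gp]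
    rw [sameCls_iff, eq_comm (a := adr D J)]
  rw [h2, Set.ncard_coe_finset] at h1
  exact h1.trans (Nat.add_le_add_right (card_labels3 N) 1)

/-- the size of a part -/
noncomputable def bt [Nonempty ι] (D : ι → Dat) (N : ℕ) (J : ℝ × ℝ) : ℝ :=
  60 * √((140000000000 * ((3 * N : ℕ) : ℝ) ^ 9) * area J.1 J.2) +
    diam (Gate (D (endL D J.1))) + diam (Gate (D (endL D J.2)))

variable {N : ℕ}

/-- the separation statement for the family (from G3 for a complete level) -/
def SepFam (D : ι → Dat) : Prop := ∀ i j, i ≠ j → (D i).m = (D j).m → (D i).x = (D j).x →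
  ∃ l, (InA (D l) (D i).tm ∧ ¬ InA (D l) (D j).tm) ∨ (InA (D l) (D j).tm ∧ ¬ InA (D l) (D i).tm)

/-- the size of a piece is at most the sum of the sizes of its parts (G13) -/
def PartFam [Nonempty ι] [DecidableEq ι] (h : Fam60 Finset.univ D) (N : ℕ) : Prop :=
  ∀ J ∈ Gp h, diam (Pc Finset.univ D (adr D J)) ≤
    ∑ J' ∈ Gp h with adr D J' = adr D J, bt D N J'

/-- **the gaps of the big pieces** -/
theorem card_big_gaps [Nonempty ι] [DecidableEq ι] (h1' : N1_area) (h3 : N3_gate) (h3' : N3_disj)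
    (hN : 1 ≤ N) (h : Fam60 Finset.univ D) (hm : ∀ i, (D i).m ≤ N)
    (hmq : ∀ i, (D i).m * (D i).x.den ≤ 3 * N) (hsep : SepFam D) (hd : PartFam h N) {δ : ℝ}
    (hδ : 0 < δ) :
    (((Gp h).filter fun J => δ ≤ diam (Pc Finset.univ D (adr D J))).card : ℝ) ≤
      10 ^ 27 * (N : ℝ) ^ 13 / δ ^ 2 :=
  g8_big h1' h3 h3' hN D h.P h.C (fun _ _ hij => h.ne hij) hm hmq (Gp h)
    (fun _ hJ => (mem_Gp h).1 hJ) (fun J => endL D J.1) (fun J => endL D J.2)
    (fun _ hJ => endL_spec ((mem_Gp h).1 hJ).left) (fun _ hJ => endL_spec ((mem_Gp h).1 hJ).right)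
    (adr D) (fun A => diam (Pc Finset.univ D A)) (fun J _ => card_gaps_le h hm hmq hsep J)
    hd hδ

/-- **(e), sum of squares** over the addresses of the gaps -/
theorem sum_sq_adr [Nonempty ι] [DecidableEq ι] (h1' : N1_area) (h3 : N3_gate) (h3' : N3_disj)
    (hN : 1 ≤ N) (h : Fam60 Finset.univ D) (hm : ∀ i, (D i).m ≤ N)
    (hmq : ∀ i, (D i).m * (D i).x.den ≤ 3 * N) (hsep : SepFam D) (hd : PartFam h N) :
    ∑ A ∈ (Gp h).image (adr D), diam (Pc Finset.univ D A) ^ 2 ≤ 10 ^ 25 * (N : ℝ) ^ 11 :=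
  g8_sum h1' h3 h3' hN D h.P h.C (fun _ _ hij => h.ne hij) hm hmq (Gp h)
    (fun _ hJ => (mem_Gp h).1 hJ) (fun J => endL D J.1) (fun J => endL D J.2)
    (fun _ hJ => endL_spec ((mem_Gp h).1 hJ).left) (fun _ hJ => endL_spec ((mem_Gp h).1 hJ).right)
    (adr D) (fun A => diam (Pc Finset.univ D A)) (fun J _ => card_gaps_le h hm hmq hsep J)
    (fun _ _ => diam_nonneg) hd

/-- **(e)** for the pieces, indexed by `Option ι` -/
theorem sum_sq_opt [Nonempty ι] [DecidableEq ι] (h1' : N1_area) (h3 : N3_gate) (h3' : N3_disj)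
    (hN : 1 ≤ N) (h : Fam60 Finset.univ D) (hm : ∀ i, (D i).m ≤ N)
    (hmq : ∀ i, (D i).m * (D i).x.den ≤ 3 * N) (hsep : SepFam D) (hd : PartFam h N)
    (KK : Finset (Set ℂ)) (hKK : ∀ K ∈ KK, ∃ o, K = Pc Finset.univ D (adO D o)) :
    ∑ K ∈ KK, diam K ^ 2 ≤ 10 ^ 25 * (N : ℝ) ^ 11 := by
  classical
  refine le_trans ?_ (sum_sq_adr h1' h3 h3' hN h hm hmq hsep hd)
  have hsub : KK ⊆ ((Gp h).image (adr D)).image (Pc Finset.univ D) := by
    intro K hK
    obtain ⟨o, rfl⟩ := hKK K hK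
    obtain ⟨J, hJ, hJo⟩ := adO_mem h o
    exact Finset.mem_image.2 ⟨adO D o, Finset.mem_image.2 ⟨J, hJ, hJo⟩, rfl⟩
  calc ∑ K ∈ KK, diam K ^ 2 ≤ ∑ K ∈ ((Gp h).image (adr D)).image (Pc Finset.univ D), diam K ^ 2 :=
        Finset.sum_le_sum_of_subset_of_nonneg hsub fun K _ _ => sq_nonneg _
    _ ≤ ∑ A ∈ (Gp h).image (adr D), diam (Pc Finset.univ D A) ^ 2 :=
        Finset.sum_image_le_of_nonneg fun A _ => sq_nonneg _

end Pool.Agent.Work.MLC.Cnt
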