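import Pool.Agent.Work.MLC.CntS15
import Pool.Agent.Work.MLC.CntW26

set_option autoImplicit false

/-! # Theorem F, part (A): the pieces cover, meet in points, have interior, are different (helper13)
-/

namespace Pool.Agent.Work.MLC.Cnt

open Filter Topology Metric Set Complex
open Pool.Agent.Work.MLC.Sat

section

variable {ι : Type} {F : Finset ι} {D : ι → Dat}

/-- the address of a parameter -/
lemma isAdr_pt13 [DecidableEq ι] (h : Fam60 F D) (z : ℂ) :
    ∃ A, IsAdr F D A ∧ ∀ i, i ∈ A ↔ i ∈ F ∧ z ∈ Lm (D i) := by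
  classical
  refine ⟨F.filter fun i => z ∈ Lm (D i), ⟨Finset.filter_subset _ _, ?_, ?_⟩, fun i => by simp⟩
  · intro i hi j hj hij
    obtain ⟨hi, hiz⟩ := Finset.mem_filter.1 hi
    obtain ⟨hj, hjz⟩ := Finset.mem_filter.1 hj
    by_contra hcon
    push Not at hcon
    have h1 := limb_disjoint (h.par i hi) (h.cir i hi) (h.par j hj) (h.cir j hj)
      (fun h0 => hij (h.inj i hi j hj h0)) hcon.2 hcon.1
    exact (Set.disjoint_left.1 h1) (Or.inr hiz) (Or.inr hjz)
  · intro i hi j hj hij
    obtain ⟨hi, hiz⟩ := Finset.mem_filter.1 hi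
    exact Finset.mem_filter.2 ⟨hj, limb_sub (h.par j hj) (h.cir j hj) (h.par i hi) (h.cir i hi) hij
      (Or.inr hiz)⟩

/-- each parameter of `MM` is in a piece -/
lemma mem_Pc_pt13 (h : Fam60 F D) {z : ℂ} (hz : z ∈ MM) :
    ∃ A, IsAdr F D A ∧ z ∈ Pc F D A := by
  classical
  obtain ⟨A, hA, hA2⟩ := isAdr_pt13 h z
  exact ⟨A, hA, hz, fun i hi => ⟨fun hiA => Or.inr ((hA2 i).1 hiA).2,
    fun hiA hzi => hiA ((hA2 i).2 ⟨hi, hzi⟩)⟩⟩

/-- different pieces have at most one common point -/
lemma Pc_inter13 {A A' : Finset ι} (hA : A ⊆ F) (hA' : A' ⊆ F) (hne : A ≠ A') :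
    (Pc F D A ∩ Pc F D A').Subsingleton := by
  have key : ∀ B B' : Finset ι, B ⊆ F → (∃ i ∈ B, i ∉ B') →
      (Pc F D B ∩ Pc F D B').Subsingleton := by
    rintro B B' hB ⟨i, hi, hi'⟩
    have h1 : ∀ z ∈ Pc F D B ∩ Pc F D B', z = rt (D i) := by
      rintro z ⟨hz, hz'⟩
      rcases (hz.2 i (hB hi)).1 hi with h0 | h0
      · exact h0
      · exact absurd h0 ((hz'.2 i (hB hi)).2 hi')
    intro z hz w hw
    rw [h1 z hz, h1 w hw]
  by_cases h1 : ∃ i ∈ A, i ∉ A'
  · exact key A A' hA h1
  · by_cases h2 : ∃ i ∈ A', i ∉ A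
    · rw [inter_comm]; exact key A' A hA' h2
    · push Not at h1 h2
      exact absurd (Finset.Subset.antisymm h1 h2) hne

/-- an inner point of `MM` in the piece which is no root is an inner point of the piece -/
lemma int_Pc13 (h : Fam60 F D) {A : Finset ι} {z : ℂ} (hz : z ∈ Pc F D A)
    (hr : ∀ i ∈ F, z ≠ rt (D i)) (hM : ∀ᶠ w in 𝓝 z, w ∈ MM) : z ∈ interior (Pc F D A) := by
  rw [mem_interior_iff_mem_nhds]
  filter_upwards [hM, Pc_open h hz hr] with w h1 h2
  exact h2 h1

/-- `0` has a superattracting fixed point -/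
lemma zero_att13 : ((0 : ℂ), (0 : ℂ)) ∈ Per 1 ∧ ‖mul 1 ((0 : ℂ), (0 : ℂ))‖ < 1 := by
  constructor
  · show it 0 1 0 = 0
    simp [it, f]
  · have h1 : mul 1 ((0 : ℂ), (0 : ℂ)) = 0 := by
      simp [mul, it]
    rw [h1, norm_zero]
    exact one_pos

/-- **the pieces have inner points** -/
theorem Pc_interior13 (h : Fam60 F D) {A : Finset ι} (hA : IsAdr F D A) :
    (interior (Pc F D A)).Nonempty := by
  rcases A.eq_empty_or_nonempty with rfl | hne
  · refine ⟨0, int_Pc13 h ⟨zero_mem_MM, fun i hi => ⟨fun h0 => by simp at h0,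
      fun _ => zero_notMem (h.par i hi) (h.cir i hi)⟩⟩ (fun i hi h0 => ?_)
      (att_MM15 one_pos zero_att13.1 zero_att13.2)⟩
    exact rt_ne15 (h.par i hi) one_pos zero_att13.1 zero_att13.2 h0.symm
  · obtain ⟨o, ho, hin⟩ := exists_inner h hA hne
    have hoF := hA.sub ho
    have hP := h.par o hoF
    have hC := h.cir o hoF
    have hR := regions_all (D o) hP hC
    obtain ⟨Z, hG⟩ := glue_all (D o) hP hC hR
    obtain ⟨e, hCh⟩ := child_all (D o) Z hP hC hR hG
    have hsub : Out15 (D o) e ⊆ Pc F D A := by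
      refine piece_sub15 h (inner_mem_Pc h hA ho hin) (out_conn15 hP hCh) (out_MM15 hP hG hCh)
        (fun j hj => out_root15 hP hG hCh (h.par j hj)) (out_clos15 hP hCh) fun j hj hrj => ?_
      have hij : o = j := h.inj o hoF j hj hrj
      subst hij
      exact ⟨fun _ => out_sub15 hP hC hR hG hCh, fun h0 => absurd ho h0⟩
    have hne' : (HL (D o).n).Nonempty := by
      have hc := cR_pos15 hP
      refine ⟨-((cR (D o).n * (1 / 2) : ℝ) : ℂ), ?_, ?_⟩
      · rw [mem_ball_zero_iff, norm_neg, norm_real, Real.norm_eq_abs, abs_of_pos (by positivity)]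
        nlinarith
      · show (-((cR (D o).n * (1 / 2) : ℝ) : ℂ)).re < 0
        rw [neg_re, ofReal_re]
        linarith
    obtain ⟨ℓ, hℓ⟩ := hne'
    have hmem : (D o).c (e ℓ) ∈ Out15 (D o) e := ⟨ℓ, hℓ, rfl⟩
    obtain ⟨z, -, h1, h2⟩ := out_att15 hP hG hCh hℓ
    exact ⟨(D o).c (e ℓ), int_Pc13 h (hsub hmem)
      (fun i hi h0 => out_root15 hP hG hCh (h.par i hi) (h0 ▸ hmem))
      (att_MM15 (Par_n_pos hP) h1 h2)⟩

/-- different addresses give different pieces -/
lemma Pc_inj13 (h : Fam60 F D) {A A' : Finset ι} (hA : IsAdr F D A) (hA' : IsAdr F D A')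
    (heq : Pc F D A = Pc F D A') : A = A' := by
  by_contra hne
  have h1 := Pc_inter13 (D := D) hA.sub hA'.sub hne
  rw [← heq, inter_self] at h1
  obtain ⟨z, hz⟩ := Pc_interior13 h hA
  have h2 : interior (Pc F D A) = {z} :=
    Set.Subsingleton.eq_singleton_of_mem (h1.anti interior_subset) hz
  have h3 : IsOpen ({z} : Set ℂ) := h2 ▸ isOpen_interior
  exact not_isOpen_singleton z h3

/-- the piece is a neighbourhood in `MM` of each of its points which is no root -/
lemma Pc_nhds13 (h : Fam60 F D) {A : Finset ι} {z : ℂ} (hz : z ∈ Pc F D A)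
    (hr : ∀ i ∈ F, z ≠ rt (D i)) : Pc F D A ∈ 𝓝[MM] z := by
  rw [mem_nhdsWithin_iff_eventually]
  exact Pc_open h hz hr

end

/-! ### the index `adO` -/

section

variable {ι : Type} [Fintype ι] {D : ι → Dat}

lemma isAdr_adO13 (h : Fam60 Finset.univ D) (o : Option ι) :
    IsAdr Finset.univ D (adO D o) := by
  cases o with
  | none =>
    exact ⟨Finset.subset_univ _, fun i hi => by simp [adO] at hi, fun i hi => by simp [adO] at hi⟩
  | some i =>
    have : Nonempty ι := ⟨i⟩
    obtain ⟨J, hJ, hJo⟩ := adO_mem h (some i)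
    rw [← hJo]
    exact isAdr_adr h ((mem_Gp h).1 hJ).lt

lemma exists_adO13 (h : Fam60 Finset.univ D) {A : Finset ι} (hA : IsAdr Finset.univ D A) :
    ∃ o, A = adO D o := by
  classical
  rcases A.eq_empty_or_nonempty with h0 | h0
  · exact ⟨none, h0⟩
  · obtain ⟨o, ho, hin⟩ := exists_inner h hA h0
    refine ⟨some o, ?_⟩
    ext j
    simp only [adO, Finset.mem_filter, Finset.mem_univ, true_and]
    constructor
    · intro hj
      by_cases hjo : j = o
      · exact Or.inl hjo
      · exact Or.inr (hin j hj hjo)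
    · rintro (rfl | hj)
      · exact ho
      · exact hA.up o ho j (Finset.mem_univ j) hj

lemma adO_inj13 (h : Fam60 Finset.univ D) : Function.Injective (adO D) := by
  classical
  have hself : ∀ i, i ∈ adO D (some i) := fun i => by simp [adO]
  intro o o' hoo
  cases o with
  | none =>
    cases o' with
    | none => rfl
    | some j =>
      have h1 := hself j
      rw [← hoo] at h1
      simp [adO] at h1
  | some i =>
    cases o' with
    | none =>
      have h1 := hself i
      rw [hoo] at h1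
      simp [adO] at h1
    | some j =>
      by_contra hne
      have hij : i ≠ j := fun h0 => hne (by rw [h0])
      have h1 := hself i
      rw [hoo] at h1
      have h2 := hself j
      rw [← hoo] at h2
      simp only [adO, Finset.mem_filter, Finset.mem_univ, true_and] at h1 h2
      rcases h1 with h1 | h1
      · exact hij h1
      · rcases h2 with h2 | h2
        · exact hij h2.symm
        · exact not_both (h.par i (Finset.mem_univ i)) (h.cir i (Finset.mem_univ i))
            (h.par j (Finset.mem_univ j)) (h.cir j (Finset.mem_univ j)) h1 h2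

/-- **(b)** the pieces cover `MM` -/
theorem Pc_cover13 (h : Fam60 Finset.univ D) : (⋃ o, Pc Finset.univ D (adO D o)) = MM := by
  refine Subset.antisymm (iUnion_subset fun o z hz => hz.1) fun z hz => ?_
  obtain ⟨A, hA, hzA⟩ := mem_Pc_pt13 h hz
  obtain ⟨o, rfl⟩ := exists_adO13 h hA
  exact mem_iUnion.2 ⟨o, hzA⟩

/-- **(c)** different pieces have at most one common point -/
theorem Pc_meet13 (h : Fam60 Finset.univ D) (o o' : Option ι) (hne : o ≠ o') :
    (Pc Finset.univ D (adO D o) ∩ Pc Finset.univ D (adO D o')).Subsingleton :=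
  Pc_inter13 (Finset.subset_univ _) (Finset.subset_univ _) fun h0 => hne (adO_inj13 h h0)

/-- the pieces are pairwise different -/
theorem Pc_adO_inj13 (h : Fam60 Finset.univ D) :
    Function.Injective fun o => Pc Finset.univ D (adO D o) := fun o o' hoo =>
  adO_inj13 h (Pc_inj13 h (isAdr_adO13 h o) (isAdr_adO13 h o') hoo)

/-- the pieces have inner points -/
theorem Pc_adO_int13 (h : Fam60 Finset.univ D) (o : Option ι) :
    (interior (Pc Finset.univ D (adO D o))).Nonempty :=
  Pc_interior13 h (isAdr_adO13 h o)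

end

end Pool.Agent.Work.MLC.Cnt
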