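import Pool.Agent.Work.MLC.CntZ26
import Pool.Agent.Work.MLC.CntFin6
import Pool.Agent.Work.MLC.CntU13

set_option autoImplicit false

/-! # Theorem F: the levels exist (helper26) -/

namespace Pool.Agent.Work.MLC.Cnt

open Filter Topology Metric Set Complex MeasureTheory
open Pool.Agent.Work.MLC.Sat

/-- the gaps of a complete family are short -/
lemma short_gaps {ι : Type} [Fintype ι] {D : ι → Dat} {N : ℕ} (hN : 1 ≤ N)
    (h : Fam60 Finset.univ D) (hF : Full24 N D) {J : ℝ × ℝ} (hJ : IsGap (La D) (Ra D) J) :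
    J.2 - J.1 ≤ 16 / 2 ^ N := by
  by_contra hcon
  push Not at hcon
  obtain ⟨t, ht, h1, h2⟩ := exists_end24 n2_ray h hF (dense26 hN)
    ((J.1 + (J.2 - 16 / 2 ^ N)) / 2)
  exact hJ.emp t ht (by linarith) (by linarith)

/-- **all levels** -/
theorem lvD_all (N : ℕ) (hN : 1 ≤ N) : ∃ (ι : Type) (_ : Fintype ι) (D : ι → Dat), LvD N D := by
  classical
  obtain ⟨ι, hι, D, h, hm, hmq, hF⟩ := exists_fam N
  have hne : Nonempty ι := by
    obtain ⟨D', a, b, c, d, -⟩ := dense26 hN 0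
    obtain ⟨i, -⟩ := hF D' a b c d
    exact ⟨i⟩
  refine ⟨ι, hι, D, h, hne, fun J hJ => short_gaps hN h hF hJ, fun δ hδ => ?_⟩
  have h1 := card_big_gaps n1_area n3_gate n3_disj hN h hm hmq (sepFam_of g3Sep h hm hF)
    (partFam43 h hmq) hδ
  have h2 : {J | IsGap (La D) (Ra D) J ∧ δ ≤ diam (Pc Finset.univ D (adr D J))} =
      (((Gp h).filter fun J => δ ≤ diam (Pc Finset.univ D (adr D J)) : Finset (ℝ × ℝ)) :
        Set (ℝ × ℝ)) := by
    ext J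
    simp [mem_Gp]
  rw [h2, Set.ncard_coe_finset]
  exact h1

/-- the topological facts about the pieces (helper13) -/
theorem topFam {ι : Type} [Fintype ι] {D : ι → Dat} (h : Fam60 Finset.univ D) : TopFam D :=
  ⟨Pc_cover13 h, Pc_meet13 h, Pc_adO_inj13 h, Pc_adO_int13 h⟩

/-- **Theorem F (B)** -/
theorem thmF : ∃ E : ℕ → Set ℝ,
    (∀ j n : ℕ, 1 ≤ n → ∃ T : Finset ℝ, (T.card : ℝ) ≤ 10 ^ 37 * ((j : ℝ) + 1) ^ 2 * (n : ℝ) ^ 13 ∧
      E j ⊆ ⋃ t ∈ T, Icc t (t + (1 / 2 : ℝ) ^ n)) ∧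
    ∀ θ ∈ Ico (0 : ℝ) 1, (∀ j, θ ∉ E j) → ∃ c₀ ∈ MM,
      Tendsto Psi (𝓝[{z | 1 < ‖z‖}] (Complex.exp (2 * Real.pi * θ * Complex.I))) (𝓝 c₀) ∧
      LCat MM c₀ :=
  finB fun N hN => lvD_all N (by omega)

end Pool.Agent.Work.MLC.Cnt
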