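import Mathlib

set_option autoImplicit false

/-! # G5 (Theorem F): the projection lemma for two points

`K` preconnected, contained in the union of the open bounded set `Q` and of the parts `P i`, which
cover the frontier of `Q`: then two points of `K` have distance at most the sum of the diameters of
the parts. -/

namespace Pool.Agent.Work.MLC.Cnt

open Filter Topology Metric Set Complex MeasureTheory

/-- A preconnected set that meets `Q` and its complement meets the frontier of `Q`. -/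
theorem inter_frontier67b {X : Type*} [TopologicalSpace X] {s Q : Set X} (hs : IsPreconnected s)
    (h1 : (s ∩ Q).Nonempty) (h2 : (s ∩ Qᶜ).Nonempty) : (s ∩ frontier Q).Nonempty := by
  by_contra h
  rw [not_nonempty_iff_eq_empty] at h
  have hsub : s ⊆ interior Q ∪ interior Qᶜ := by
    intro x hx
    by_contra hx'
    rw [mem_union, not_or] at hx'
    have : x ∈ s ∩ frontier Q := by
      refine ⟨hx, ?_⟩
      rw [frontier_eq_closure_inter_closure]
      refine ⟨?_, ?_⟩
      · rw [closure_eq_compl_interior_compl]; exact hx'.2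
      · rw [closure_compl]; exact hx'.1
    rw [h] at this
    exact this
  obtain ⟨a, has, haQ⟩ := h1
  obtain ⟨b, hbs, hbQ⟩ := h2
  have ha : a ∈ interior Q := by
    rcases hsub has with h' | h'
    · exact h'
    · exact absurd haQ (interior_subset h')
  have hb : b ∈ interior Qᶜ := by
    rcases hsub hbs with h' | h'
    · exact absurd (interior_subset h') hbQ
    · exact h'
  obtain ⟨x, -, hx1, hx2⟩ := hs (interior Q) (interior Qᶜ) isOpen_interior isOpen_interior hsub
    ⟨a, has, ha⟩ ⟨b, hbs, hb⟩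
  exact (interior_subset hx2) (interior_subset hx1)

/-- G5: two points. -/
theorem g5_proj2 (Q K : Set ℂ) {ι : Type*} (F : Finset ι) (P : ι → Set ℂ)
    (hQb : Bornology.IsBounded Q) (hK : IsPreconnected K) (hKQ : K ⊆ Q ∪ ⋃ i ∈ F, P i)
    (hPb : ∀ i ∈ F, Bornology.IsBounded (P i)) (hfr : frontier Q ⊆ ⋃ i ∈ F, P i) :
    ∀ z ∈ K, ∀ r ∈ K, dist z r ≤ ∑ i ∈ F, diam (P i) := by
  intro z hz r hrK
  have hnn : 0 ≤ ∑ i ∈ F, diam (P i) := Finset.sum_nonneg fun i _ => diam_nonneg
  rcases eq_or_ne z r with h | hzr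
  · rw [h, dist_self]; exact hnn
  -- the projection
  set d : ℝ := ‖z - r‖ with hd
  have hd0 : 0 < d := norm_pos_iff.2 (sub_ne_zero.2 hzr)
  set v : ℂ := (z - r) / d with hv
  have hvn : ‖v‖ = 1 := by
    rw [hv, norm_div, Complex.norm_real, Real.norm_of_nonneg hd0.le, ← hd, div_self hd0.ne']
  let π : ℂ → ℝ := fun u => ((starRingEnd ℂ) v * u).re
  have hπc : Continuous π := by
    apply Complex.continuous_re.comp
    exact continuous_const.mul continuous_id
  have hπl : ∀ u w, |π u - π w| ≤ dist u w := by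
    intro u w
    have : π u - π w = ((starRingEnd ℂ) v * (u - w)).re := by
      simp only [π, ← Complex.sub_re]; congr 1; ring
    rw [this]
    calc |((starRingEnd ℂ) v * (u - w)).re| ≤ ‖(starRingEnd ℂ) v * (u - w)‖ :=
          Complex.abs_re_le_norm _
      _ = dist u w := by
          rw [norm_mul, RCLike.norm_conj, hvn, one_mul, dist_eq_norm]
  have hLip : LipschitzWith 1 π := LipschitzWith.of_dist_le_mul fun u w => by
    rw [Real.dist_eq, NNReal.coe_one, one_mul]; exact hπl u w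
  have hπz : π z - π r = d := by
    have h1 : π z - π r = ((starRingEnd ℂ) v * (z - r)).re := by
      simp only [π, ← Complex.sub_re]; congr 1; ring
    have h2 : z - r = v * d := by
      rw [hv, div_mul_cancel₀ _ (Complex.ofReal_ne_zero.2 hd0.ne')]
    rw [h1, h2, ← mul_assoc, ← Complex.normSq_eq_conj_mul_self, Complex.normSq_eq_norm_sq, hvn]
    simp
  -- every intermediate value is taken on one of the parts
  have key : Ioo (π r) (π z) ⊆ ⋃ i ∈ F, π '' (P i) := by
    intro t ht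
    obtain ⟨u, huK, hut⟩ : t ∈ π '' K := by
      have := hK.intermediate_value hrK hz hπc.continuousOn
      exact this ⟨ht.1.le, ht.2.le⟩
    rcases hKQ huK with huQ | huP
    swap
    · rw [mem_iUnion₂] at huP ⊢
      obtain ⟨i, hi, hui⟩ := huP
      exact ⟨i, hi, u, hui, hut⟩
    -- the line
    let ℓ : ℝ → ℂ := fun s => u + (s : ℂ) * (I * v)
    have hℓc : Continuous ℓ := by
      apply continuous_const.add
      exact (Complex.continuous_ofReal).mul continuous_const
    have hℓπ : ∀ s, π (ℓ s) = t := by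
      intro s
      have : (starRingEnd ℂ) v * ℓ s = (starRingEnd ℂ) v * u + ((s : ℂ) * I) *
          ((starRingEnd ℂ) v * v) := by simp only [ℓ]; ring
      have h2 : (starRingEnd ℂ) v * v = 1 := by
        rw [← Complex.normSq_eq_conj_mul_self, Complex.normSq_eq_norm_sq, hvn]; simp
      simp only [π] at hut ⊢
      rw [this, h2, mul_one, Complex.add_re, hut]
      simp
    have hconn : IsPreconnected (range ℓ) := isPreconnected_range hℓc
    have h1 : (range ℓ ∩ Q).Nonempty := ⟨u, ⟨0, by simp [ℓ]⟩, huQ⟩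
    have h2 : (range ℓ ∩ Qᶜ).Nonempty := by
      obtain ⟨R, hR⟩ := hQb.subset_closedBall 0
      refine ⟨ℓ (‖u‖ + |R| + 1), ⟨_, rfl⟩, fun hmem => ?_⟩
      have h3 := hR hmem
      rw [mem_closedBall, dist_zero_right] at h3
      have h4 : ‖((‖u‖ + |R| + 1 : ℝ) : ℂ) * (I * v)‖ = ‖u‖ + |R| + 1 := by
        rw [norm_mul, norm_mul, Complex.norm_I, hvn, Complex.norm_real, Real.norm_of_nonneg
          (by positivity)]; ring
      have h5 : ‖((‖u‖ + |R| + 1 : ℝ) : ℂ) * (I * v)‖ ≤ ‖ℓ (‖u‖ + |R| + 1)‖ + ‖u‖ := by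
        have : ((‖u‖ + |R| + 1 : ℝ) : ℂ) * (I * v) = ℓ (‖u‖ + |R| + 1) - u := by
          simp only [ℓ]; ring
        rw [this]; exact norm_sub_le _ _
      have := le_abs_self R
      rw [h4] at h5
      linarith
    obtain ⟨w, ⟨s, hs⟩, hw⟩ := inter_frontier67b hconn h1 h2
    have hwt : π w = t := by rw [← hs]; exact hℓπ s
    have hw' := hfr hw
    rw [mem_iUnion₂] at hw' ⊢
    obtain ⟨i, hi, hwi⟩ := hw'
    exact ⟨i, hi, w, hwi, hwt⟩
  -- measure
  have hvol : ENNReal.ofReal d ≤ ∑ i ∈ F, ENNReal.ofReal (diam (P i)) := by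
    calc ENNReal.ofReal d = volume (Ioo (π r) (π z)) := by rw [Real.volume_Ioo, hπz]
      _ ≤ volume (⋃ i ∈ F, π '' (P i)) := measure_mono key
      _ ≤ ∑ i ∈ F, volume (π '' (P i)) := measure_biUnion_finset_le _ _
      _ ≤ ∑ i ∈ F, ENNReal.ofReal (diam (P i)) := by
          refine Finset.sum_le_sum fun i hi => ?_
          calc volume (π '' (P i)) ≤ ediam (π '' (P i)) := Real.volume_le_diam _
            _ ≤ ediam (P i) := by
                have := hLip.ediam_image_le (P i)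
                simpa using this
            _ = ENNReal.ofReal (diam (P i)) := by
                rw [diam, ENNReal.ofReal_toReal]
                exact (hPb i hi).ediam_ne_top
  rw [← ENNReal.ofReal_sum_of_nonneg (fun i _ => diam_nonneg)] at hvol
  rw [dist_eq_norm]
  exact (ENNReal.ofReal_le_ofReal_iff hnn).1 hvol

/-- G5: the diameter. -/
theorem g5_diam (Q K : Set ℂ) {ι : Type*} (F : Finset ι) (P : ι → Set ℂ)
    (hQb : Bornology.IsBounded Q) (hK : IsPreconnected K) (hKQ : K ⊆ Q ∪ ⋃ i ∈ F, P i)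
    (hPb : ∀ i ∈ F, Bornology.IsBounded (P i)) (hfr : frontier Q ⊆ ⋃ i ∈ F, P i) :
    diam K ≤ ∑ i ∈ F, diam (P i) :=
  diam_le_of_forall_dist_le (Finset.sum_nonneg fun _ _ => diam_nonneg)
    fun z hz r hr => g5_proj2 Q K F P hQb hK hKQ hPb hfr z hz r hr

/-- Cauchy–Schwarz form of `g5_diam`: with at most `n` parts, the square of the diameter is at most
`n` times the sum of the squares. -/
theorem g5_diam_sq (Q K : Set ℂ) {ι : Type*} (F : Finset ι) (P : ι → Set ℂ)
    (hQb : Bornology.IsBounded Q) (hK : IsPreconnected K) (hKQ : K ⊆ Q ∪ ⋃ i ∈ F, P i)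
    (hPb : ∀ i ∈ F, Bornology.IsBounded (P i)) (hfr : frontier Q ⊆ ⋃ i ∈ F, P i) :
    diam K ^ 2 ≤ F.card * ∑ i ∈ F, diam (P i) ^ 2 := by
  have h := g5_diam Q K F P hQb hK hKQ hPb hfr
  calc diam K ^ 2 ≤ (∑ i ∈ F, diam (P i)) ^ 2 := pow_le_pow_left₀ diam_nonneg h 2
    _ ≤ F.card * ∑ i ∈ F, diam (P i) ^ 2 := sq_sum_le_card_mul_sum_sq

/-- G5 with a finite exceptional set `R0`, which costs nothing. -/
theorem g5_proj2_fin (Q K R0 : Set ℂ) {ι : Type*} (F : Finset ι) (P : ι → Set ℂ)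
    (hR0 : R0.Finite)
    (hQb : Bornology.IsBounded Q) (hK : IsPreconnected K) (hKQ : K ⊆ Q ∪ (R0 ∪ ⋃ i ∈ F, P i))
    (hPb : ∀ i ∈ F, Bornology.IsBounded (P i)) (hfr : frontier Q ⊆ R0 ∪ ⋃ i ∈ F, P i) :
    ∀ z ∈ K, ∀ r ∈ K, dist z r ≤ ∑ i ∈ F, diam (P i) := by
  classical
  let G : Finset (ι ⊕ ℂ) := F.disjSum hR0.toFinset
  let P' : ι ⊕ ℂ → Set ℂ := Sum.elim P (fun z => {z})
  have hU : R0 ∪ ⋃ i ∈ F, P i ⊆ ⋃ i ∈ G, P' i := by
    rintro w (hw | hw)
    · rw [mem_iUnion₂]
      exact ⟨Sum.inr w, Finset.mem_disjSum.2 (Or.inr ⟨w, hR0.mem_toFinset.2 hw, rfl⟩), rfl⟩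
    · rw [mem_iUnion₂] at hw ⊢
      obtain ⟨i, hi, hwi⟩ := hw
      exact ⟨Sum.inl i, Finset.mem_disjSum.2 (Or.inl ⟨i, hi, rfl⟩), hwi⟩
  have hb : ∀ i ∈ G, Bornology.IsBounded (P' i) := by
    rintro (i | w) hi
    · rcases Finset.mem_disjSum.1 hi with ⟨j, hj, h⟩ | ⟨j, _, h⟩
      · rw [← Sum.inl_injective h]; exact hPb j hj
      · exact absurd h (by simp)
    · exact Bornology.isBounded_singleton
  have hsum : ∑ i ∈ G, diam (P' i) = ∑ i ∈ F, diam (P i) := by
    rw [Finset.sum_disjSum]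
    simp [P']
  intro z hz r hr
  rw [← hsum]
  exact g5_proj2 Q K G P' hQb hK (hKQ.trans (union_subset_union_right _ hU)) hb (hfr.trans hU)
    z hz r hr

/-- G5 with a finite exceptional set: the diameter. -/
theorem g5_diam_fin (Q K R0 : Set ℂ) {ι : Type*} (F : Finset ι) (P : ι → Set ℂ)
    (hR0 : R0.Finite)
    (hQb : Bornology.IsBounded Q) (hK : IsPreconnected K) (hKQ : K ⊆ Q ∪ (R0 ∪ ⋃ i ∈ F, P i))
    (hPb : ∀ i ∈ F, Bornology.IsBounded (P i)) (hfr : frontier Q ⊆ R0 ∪ ⋃ i ∈ F, P i) :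
    diam K ≤ ∑ i ∈ F, diam (P i) :=
  diam_le_of_forall_dist_le (Finset.sum_nonneg fun _ _ => diam_nonneg)
    fun z hz r hr => g5_proj2_fin Q K R0 F P hR0 hQb hK hKQ hPb hfr z hz r hr

end Pool.Agent.Work.MLC.Cnt
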