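import Pool.Agent.Work.MLC.CntQ60
import Pool.Agent.Work.MLC.CntQ67

set_option autoImplicit false

/-! # Theorem F, module G13: the diameter of a piece is at most the sum of the parts of its gaps
(helper43) -/

namespace Pool.Agent.Work.MLC.Cnt

open Filter Topology Metric Set Complex MeasureTheory
open Pool.Agent.Work.MLC.Sat

/-- `s` is an end of the arc of `D`, up to an integer -/
def EndOf43 (D : Dat) (s : ℝ) : Prop := ∃ k : ℤ, s = D.tm + k ∨ s = D.tp + k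

/-- the constant `Λ` of a root -/
noncomputable def lam43 (D : Dat) : ℝ := 130000 * (D.m : ℝ) ^ 3 * D.x.den / sG D ^ 4

lemma lam43_nonneg (D : Dat) : 0 ≤ lam43 D := by
  rw [lam43]; positivity

/-- the end of the ray is in the gate -/
lemma ray_gate43 (h2 : N2_ray) {D : Dat} (hP : D.Par) (hC : D.Cir) {s Λ : ℝ} (hs : EndOf43 D s)
    (hΛ : lam43 D ≤ Λ) {u : ℝ} (hu : 0 < u) (hu2 : u ≤ Real.exp (-Λ)) :
    cOf ((u : ℂ) + 2 * Real.pi * s * I) ∈ Gate D := by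
  have hsG := CH.sG_pos hP
  have hlog : Real.log u ≤ -Λ := by
    rw [← Real.log_exp (-Λ)]; exact Real.log_le_log hu hu2
  have h := h2 D hP hC (sG D) u hsG le_rfl hu (by
    have e : 130000 * (D.m : ℝ) ^ 3 * D.x.den = sG D ^ 4 * lam43 D := by
      rw [lam43, mul_div_cancel₀ _ (by positivity)]
    rw [e]
    exact mul_le_mul_of_nonneg_left (by linarith) (by positivity))
  obtain ⟨k, hk | hk⟩ := hs
  · rw [hk, CH.cOf_shift]; exact h.1
  · rw [hk, CH.cOf_shift]; exact h.2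

lemma bounded_ray43 {t g h : ℝ} (hg : 0 < g) : Bornology.IsBounded (RaySeg t g h) := by
  have hc : ContinuousOn (fun u : ℝ => cOf ((u : ℂ) + 2 * Real.pi * t * I)) (Icc g h) := by
    refine continuousOn_cOf.comp (by fun_prop) fun u hu => ?_
    show 0 < ((u : ℂ) + 2 * Real.pi * t * I).re
    rw [CH.re_pt]; exact hg.trans_le hu.1
  exact (isCompact_Icc.image_of_continuousOn hc).isBounded

lemma bounded_roof43 {s t : ℝ} (hst : s < t) : Bornology.IsBounded (Roof s t) := by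
  have hc : ContinuousOn (fun u : ℝ => cOf (((t - s : ℝ) : ℂ) + 2 * Real.pi * u * I))
      (Icc s t) := by
    refine continuousOn_cOf.comp (by fun_prop) fun u hu => ?_
    show 0 < (((t - s : ℝ) : ℂ) + 2 * Real.pi * u * I).re
    rw [CH.re_pt]; linarith
  exact (isCompact_Icc.image_of_continuousOn hc).isBounded

/-- the parts of one gap -/
lemma parts43 (h1 : N1_length) (h2 : N2_ray) {D D' : Dat} (hP : D.Par) (hC : D.Cir) (hP' : D'.Par)
    (hC' : D'.Cir) {s t Λ : ℝ} (hst : s < t) (hst1 : t ≤ s + 1) (hs : EndOf43 D s)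
    (ht : EndOf43 D' t) (hΛ : lam43 D ≤ Λ) (hΛ' : lam43 D' ≤ Λ) :
    ∃ g : ℝ, 0 < g ∧ rayTo s (t - s) ⊆ Gate D ∪ RaySeg s g (t - s) ∧
      rayTo t (t - s) ⊆ Gate D' ∪ RaySeg t g (t - s) ∧
      diam (RaySeg s g (t - s)) + diam (RaySeg t g (t - s)) + diam (Roof s t) ≤
        60 * √((1 + Λ) * area s t) := by
  have hΛ0 : 0 ≤ Λ := (lam43_nonneg D).trans hΛ
  set h : ℝ := t - s with hh
  have hh0 : 0 < h := by linarith
  have hh1 : h ≤ 1 := by linarith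
  set g : ℝ := min (Real.exp (-Λ)) h with hg
  have hg0 : 0 < g := lt_min (Real.exp_pos _) hh0
  have hgh : g ≤ h := min_le_right _ _
  have hge : g ≤ Real.exp (-Λ) := min_le_left _ _
  have hlog : Real.log (h / g) ≤ Λ := by
    rcases min_cases (Real.exp (-Λ)) h with ⟨e, -⟩ | ⟨e, -⟩
    · rw [hg, e, Real.log_div hh0.ne' (Real.exp_pos _).ne', Real.log_exp]
      have := Real.log_nonpos hh0.le hh1
      linarith
    · rw [hg, e, div_self hh0.ne', Real.log_one]; exact hΛ0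
  have hA0 : 0 ≤ area s t := ENNReal.toReal_nonneg
  obtain ⟨hl1, hl2, hl3⟩ := h1 s t g hst hh1 hg0 hgh
  set R : ℝ := √((1 + Λ) * area s t) with hR
  have hR1 : √((1 + Real.log (h / g)) * area s t) ≤ R := by
    apply Real.sqrt_le_sqrt
    gcongr
  have hR2 : √(area s t) ≤ R := by
    apply Real.sqrt_le_sqrt
    nlinarith
  refine ⟨g, hg0, ?_, ?_, by linarith⟩
  · rintro z ⟨u, hu, rfl⟩
    rcases le_or_gt u g with h9 | h9
    · exact Or.inl (ray_gate43 h2 hP hC hs hΛ hu.1 (h9.trans hge))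
    · exact Or.inr ⟨u, ⟨h9.le, hu.2⟩, rfl⟩
  · rintro z ⟨u, hu, rfl⟩
    rcases le_or_gt u g with h9 | h9
    · exact Or.inl (ray_gate43 h2 hP' hC' ht hΛ' hu.1 (h9.trans hge))
    · exact Or.inr ⟨u, ⟨h9.le, hu.2⟩, rfl⟩

/-- G13, abstract form -/
theorem diam_piece43 (h1 : N1_length) (h2 : N2_ray) (h3 : N3_gate)
    {Q K R₀ : Set ℂ} (hQb : Bornology.IsBounded Q) (hK : IsPreconnected K)
    (hR : R₀.Finite) (hKQ : K ⊆ Q ∪ R₀) (Γ : Finset (ℝ × ℝ)) (dl dr : ℝ × ℝ → Dat) (Λ : ℝ)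
    (hΓ : ∀ J ∈ Γ, J.1 < J.2 ∧ J.2 ≤ J.1 + 1)
    (hl : ∀ J ∈ Γ, (dl J).Par ∧ (dl J).Cir ∧ EndOf43 (dl J) J.1 ∧ lam43 (dl J) ≤ Λ)
    (hr : ∀ J ∈ Γ, (dr J).Par ∧ (dr J).Cir ∧ EndOf43 (dr J) J.2 ∧ lam43 (dr J) ≤ Λ)
    (hfr : frontier Q ⊆ R₀ ∪ ⋃ J ∈ Γ, (rayTo J.1 (J.2 - J.1) ∪ rayTo J.2 (J.2 - J.1) ∪
      Roof J.1 J.2)) :
    diam K ≤ ∑ J ∈ Γ, (60 * √((1 + Λ) * area J.1 J.2) + diam (Gate (dl J)) +
      diam (Gate (dr J))) := by
  classical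
  have key : ∀ J ∈ Γ, ∃ g : ℝ, 0 < g ∧ rayTo J.1 (J.2 - J.1) ⊆ Gate (dl J) ∪
      RaySeg J.1 g (J.2 - J.1) ∧
      rayTo J.2 (J.2 - J.1) ⊆ Gate (dr J) ∪ RaySeg J.2 g (J.2 - J.1) ∧
      diam (RaySeg J.1 g (J.2 - J.1)) + diam (RaySeg J.2 g (J.2 - J.1)) + diam (Roof J.1 J.2) ≤
        60 * √((1 + Λ) * area J.1 J.2) := by
    intro J hJ
    obtain ⟨a1, a2, a3, a4⟩ := hl J hJ
    obtain ⟨b1, b2, b3, b4⟩ := hr J hJ
    exact parts43 h1 h2 a1 a2 b1 b2 (hΓ J hJ).1 (hΓ J hJ).2 a3 b3 a4 b4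
  choose! g hg0 hg1 hg2 hg3 using key
  set P : (ℝ × ℝ) × Fin 5 → Set ℂ := fun p =>
    ![Gate (dl p.1), Gate (dr p.1), RaySeg p.1.1 (g p.1) (p.1.2 - p.1.1),
      RaySeg p.1.2 (g p.1) (p.1.2 - p.1.1), Roof p.1.1 p.1.2] p.2 with hP
  have h9 := g5_diam_fin Q K R₀ (Γ ×ˢ Finset.univ) P hR hQb hK
    (hKQ.trans (union_subset_union_right _ subset_union_left)) ?_ ?_
  · refine h9.trans ?_
    rw [Finset.sum_product]
    refine Finset.sum_le_sum fun J hJ => ?_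
    have h10 := hg3 J hJ
    rw [Fin.sum_univ_five]
    simp only [hP, Matrix.cons_val_zero, Matrix.cons_val_one, Matrix.cons_val]
    linarith
  · rintro ⟨J, i⟩ hJi
    have hJ : J ∈ Γ := (Finset.mem_product.1 hJi).1
    obtain ⟨a1, a2, -, -⟩ := hl J hJ
    obtain ⟨b1, b2, -, -⟩ := hr J hJ
    fin_cases i
    · exact (h3 (dl J) a1 a2).2.2.1
    · exact (h3 (dr J) b1 b2).2.2.1
    · exact bounded_ray43 (hg0 J hJ)
    · exact bounded_ray43 (hg0 J hJ)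
    · exact bounded_roof43 (hΓ J hJ).1
  · intro w hw
    rcases hfr hw with h | h
    · exact Or.inl h
    · right
      rw [mem_iUnion₂] at h ⊢
      obtain ⟨J, hJ, h⟩ := h
      have mk : ∀ i : Fin 5, w ∈ P (J, i) → ∃ p, ∃ _ : p ∈ Γ ×ˢ (Finset.univ : Finset (Fin 5)),
          w ∈ P p := fun i hi =>
        ⟨(J, i), Finset.mem_product.2 ⟨hJ, Finset.mem_univ _⟩, hi⟩
      rcases h with (h | h) | h
      · rcases hg1 J hJ h with h' | h'
        · exact mk 0 h'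
        · exact mk 2 h'
      · rcases hg2 J hJ h with h' | h'
        · exact mk 1 h'
        · exact mk 3 h'
      · exact mk 4 h

variable {ι : Type} [Fintype ι] {D : ι → Dat}

/-- **G13**: the diameter of the piece with the address of the gap `J` (hypothesis `hd` of
`g8_big`) -/
theorem g13_diam [Nonempty ι] [DecidableEq (Finset ι)] (h1 : N1_length) (h2 : N2_ray)
    (h3 : N3_gate) (h : Fam60 Finset.univ D) {N : ℕ} (hmq : ∀ i, (D i).m * (D i).x.den ≤ 3 * N)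
    (G : Finset (ℝ × ℝ)) (hG : ∀ J, J ∈ G ↔ IsGap (La D) (Ra D) J) (σ τ : ℝ × ℝ → ι)
    (hσ : ∀ J ∈ G, ∃ k : ℤ, J.1 = (D (σ J)).tm + k ∨ J.1 = (D (σ J)).tp + k)
    (hτ : ∀ J ∈ G, ∃ k : ℤ, J.2 = (D (τ J)).tm + k ∨ J.2 = (D (τ J)).tp + k) :
    ∀ J ∈ G, diam (Pc Finset.univ D (adr D J)) ≤ ∑ J' ∈ G with adr D J' = adr D J,
      (60 * √((140000000000 * ((3 * N : ℕ) : ℝ) ^ 9) * area J'.1 J'.2) +
        diam (Gate (D (σ J'))) + diam (Gate (D (τ J')))) := by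
  intro J hJ
  have hJg : IsGap (La D) (Ra D) J := (hG J).1 hJ
  set Λ : ℝ := 140000000000 * ((3 * N : ℕ) : ℝ) ^ 9 - 1 with hΛ
  have hlam : ∀ i, lam43 (D i) ≤ Λ := fun i => by
    have := CH.lam_le (h.P i) (hmq i)
    rw [lam43, hΛ]; linarith
  have hΛ1 : 140000000000 * ((3 * N : ℕ) : ℝ) ^ 9 = 1 + Λ := by rw [hΛ]; ring
  rw [hΛ1]
  refine diam_piece43 h1 h2 h3 (Q := Qs D (adr D J)) (R₀ := range fun i => rt (D i))
    (isBounded_Qs _) (isPreconnected_Pc h (isAdr_adr h hJg.lt)) (finite_range _) ?_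
    (G.filter fun J' => adr D J' = adr D J) (fun J' => D (σ J')) (fun J' => D (τ J')) Λ ?_ ?_ ?_ ?_
  · intro z hz
    by_cases hr : ∃ i, rt (D i) = z
    · exact Or.inr hr
    · refine Or.inl (Or.inl ⟨hz, fun i hi => hr ⟨i, hi.symm⟩⟩)
  · intro J' hJ'
    have hg := (hG J').1 (Finset.mem_filter.1 hJ').1
    exact ⟨hg.lt, hg.le_one⟩
  · intro J' hJ'
    exact ⟨h.P _, h.C _, hσ J' (Finset.mem_filter.1 hJ').1, hlam _⟩
  · intro J' hJ'
    exact ⟨h.P _, h.C _, hτ J' (Finset.mem_filter.1 hJ').1, hlam _⟩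
  · intro z hz
    rcases frontier_Qs₀ h (adr D J) hz with ⟨-, i, hi⟩ | hz
    · exact Or.inl ⟨i, hi.symm⟩
    · right
      rw [mem_iUnion₂] at hz ⊢
      obtain ⟨J', ⟨hJ1, hJ2⟩, hz⟩ := hz
      exact ⟨J', Finset.mem_filter.2 ⟨(hG J').2 hJ1, hJ2⟩, hz⟩

end Pool.Agent.Work.MLC.Cnt
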