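import Mathlib

set_option autoImplicit false

/-! # Theorem E, module E4: a Borel–Cantelli lemma for the Hausdorff dimension

If `∑ (diam A i) ^ s` is finite for every `s > 0`, the points lying in infinitely many of the
sets `A i` form a set of Hausdorff dimension `0`.  The last theorem is the form used for the arcs of
the large limbs. -/

namespace Pool.Agent.Work.MLC.Cnt

open Filter Topology Set MeasureTheory Metric
open scoped ENNReal NNReal

/-- the points in infinitely many sets of the family -/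
def Inf {X ι : Type*} (A : ι → Set X) : Set X := {x | {i | x ∈ A i}.Infinite}

/-- the Borel-Cantelli lemma for the Hausdorff measure -/
theorem hausdorff_inf {X ι : Type*} [EMetricSpace X] [MeasurableSpace X] [BorelSpace X]
    [Countable ι] (A : ι → Set X) (s : ℝ) (hs : 0 < s) (h : ∑' i, ediam (A i) ^ s ≠ ∞) :
    Measure.hausdorffMeasure s (Inf A) = 0 := by
  have ht := ENNReal.tendsto_tsum_compl_atTop_zero h
  have hr : Tendsto (fun F : Finset ι => (∑' i : {i // i ∉ F}, ediam (A i) ^ s) ^ (1 / s)) atTop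
      (𝓝 0) := by
    have h1 := (ENNReal.continuous_rpow_const (y := 1 / s)).tendsto (0 : ℝ≥0∞)
    rw [ENNReal.zero_rpow_of_pos (by positivity)] at h1
    exact h1.comp ht
  have h2 := Measure.hausdorffMeasure_le_liminf_tsum s (Inf A) (l := (atTop : Filter (Finset ι)))
    (fun F : Finset ι => (∑' i : {i // i ∉ F}, ediam (A i) ^ s) ^ (1 / s)) hr
    (fun F (i : {i // i ∉ F}) => A i)
    (Eventually.of_forall fun F i => by
      have h3 : ediam (A i) ^ s ≤ ∑' i : {i // i ∉ F}, ediam (A i) ^ s :=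
        ENNReal.le_tsum (f := fun i : {i // i ∉ F} => ediam (A i) ^ s) i
      calc ediam (A i) = (ediam (A i) ^ s) ^ (1 / s) := by
            rw [← ENNReal.rpow_mul, mul_one_div_cancel hs.ne', ENNReal.rpow_one]
        _ ≤ _ := ENNReal.rpow_le_rpow h3 (by positivity))
    (Eventually.of_forall fun F x hx => by
      have h3 : ({i | x ∈ A i} \ (F : Set ι)).Nonempty :=
        (Set.Infinite.sdiff hx F.finite_toSet).nonempty
      obtain ⟨i, hi, hiF⟩ := h3
      exact mem_iUnion.2 ⟨⟨i, by simpa using hiF⟩, hi⟩)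
  rw [ht.liminf_eq] at h2
  exact le_antisymm h2 zero_le

/-- the Borel-Cantelli lemma for the Hausdorff dimension -/
theorem dimH_inf {X ι : Type*} [EMetricSpace X] [Countable ι] (A : ι → Set X)
    (h : ∀ s : ℝ, 0 < s → ∑' i, ediam (A i) ^ s ≠ ∞) : dimH (Inf A) = 0 := by
  borelize X
  refine le_antisymm (le_of_forall_pos_le_add ?_) zero_le
  intro e he
  rw [zero_add]
  rcases eq_or_ne e ∞ with rfl | he'
  · exact le_top
  lift e to ℝ≥0 using he'
  have he0 : (0 : ℝ) < e := by exact_mod_cast he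
  exact dimH_le_of_hausdorffMeasure_ne_top (by
    rw [hausdorff_inf A e he0 (h e he0)]; exact ENNReal.zero_ne_top)

/-- the angles `θ` (in turns, mod `1`) in infinitely many arcs of a family form a set of
dimension `0` if the sums of the powers of the lengths are finite -/
theorem dimH_arcs {ι : Type*} [Countable ι] (s t : ι → ℝ)
    (h : ∀ e : ℝ, 0 < e → ∑' i, ENNReal.ofReal (t i - s i) ^ e ≠ ∞) :
    dimH {θ : ℝ | {i | ∃ k : ℤ, s i ≤ θ + k ∧ θ + k ≤ t i}.Infinite} = 0 := by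
  set A : ι → Set ℝ := fun i => Icc (s i - ⌊s i⌋) (t i - ⌊s i⌋) with hA
  have hA0 : dimH (Inf A) = 0 := dimH_inf A (fun e he => by
    have h0 := h e he
    have h1 : ∀ i, ediam (A i) = ENNReal.ofReal (t i - s i) := fun i => by
      rw [hA, Real.ediam_Icc, sub_sub_sub_cancel_right]
    simpa only [h1] using h0)
  have h1 : {i | 1 < t i - s i}.Finite := by
    have := ENNReal.finite_const_le_of_tsum_ne_top (h 1 one_pos) one_ne_zero
    refine this.subset ?_
    intro i hi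
    simp only [mem_ofPred_eq] at hi
    simp only [ENNReal.rpow_one, mem_ofPred_eq]
    rw [← ENNReal.ofReal_one]
    exact ENNReal.ofReal_le_ofReal hi.le
  have h2 : {θ : ℝ | {i | ∃ k : ℤ, s i ≤ θ + k ∧ θ + k ≤ t i}.Infinite} ⊆
      ⋃ k : ℤ, (IsometryEquiv.addRight (k : ℝ)) ⁻¹' (Inf A) := by
    intro θ hθ
    by_contra hn
    simp only [mem_iUnion, mem_preimage, not_exists, Inf, mem_ofPred_eq, Set.not_infinite] at hn
    apply hθ
    refine (h1.union ((Set.finite_Icc ⌈-θ⌉ ⌊2 - θ⌋).biUnion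
      (fun k _ => hn k))).subset ?_
    rintro i ⟨k, hk1, hk2⟩
    by_cases hi : 1 < t i - s i
    · exact Or.inl hi
    · right
      have hf1 := Int.floor_le (s i)
      have hf2 := Int.lt_floor_add_one (s i)
      simp only [mem_iUnion, mem_ofPred_eq, exists_prop]
      refine ⟨k - ⌊s i⌋, ⟨Int.ceil_le.2 ?_, Int.le_floor.2 ?_⟩, ?_⟩
      · push_cast
        linarith
      · push_cast
        linarith
      · simp only [IsometryEquiv.addRight_apply, hA, mem_Icc]
        push_cast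
        constructor <;> linarith
  refine le_antisymm ((dimH_mono h2).trans ?_) zero_le
  rw [dimH_iUnion]
  simp [IsometryEquiv.dimH_preimage, hA0]

/-- the sum over the types `(n, q)` -/
theorem sum_types (a : ℕ) (C r : ℝ) (hr0 : 0 < r) (hr1 : r < 1) :
    Summable fun p : ℕ × ℕ => C * ((p.1 : ℝ) * p.2) ^ a * (r ^ 2)⁻¹ * (r ^ p.1 * r ^ p.2) := by
  have h1 : Summable fun n : ℕ => (n : ℝ) ^ a * r ^ n :=
    summable_pow_mul_geometric_of_norm_lt_one a (by rwa [Real.norm_of_nonneg hr0.le])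
  have h2 := (h1.mul_of_nonneg h1 (fun n => by positivity) (fun n => by positivity)).mul_left
    (C * (r ^ 2)⁻¹)
  refine h2.congr fun p => ?_
  rw [mul_pow]
  ring

/-- the arcs of the types `(n, q)`, `q ≥ 3`, polynomially many of each type, with lengths at most
`2 ^ (-n (q - 2))`: the angles in infinitely many of them form a set of dimension `0` -/
theorem dimH_types {α : Type*} (G : ℕ → ℕ → Set α) (s t : α → ℝ) (C : ℝ) (a : ℕ)
    (hG : ∀ n q, 1 ≤ n → 3 ≤ q → (G n q).Finite ∧ ((G n q).ncard : ℝ) ≤ C * ((n : ℝ) * q) ^ a)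
    (hl : ∀ n q, 1 ≤ n → 3 ≤ q → ∀ x ∈ G n q, t x - s x ≤ (1 / 2 : ℝ) ^ (n * (q - 2))) :
    dimH {θ : ℝ | ∀ N : ℕ, ∃ n q x, N ≤ n * q ∧ 1 ≤ n ∧ 3 ≤ q ∧ x ∈ G n q ∧
      ∃ k : ℤ, s x ≤ θ + k ∧ θ + k ≤ t x} = 0 := by
  classical
  let H : ℕ × ℕ → Set α := fun p => {x | 1 ≤ p.1 ∧ 3 ≤ p.2 ∧ x ∈ G p.1 p.2}
  have hHf : ∀ p, (H p).Finite := fun p => by
    by_cases hp : 1 ≤ p.1 ∧ 3 ≤ p.2
    · exact (hG p.1 p.2 hp.1 hp.2).1.subset fun x hx => hx.2.2
    · have : H p = ∅ := by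
        ext x
        simp only [H, mem_ofPred_eq, mem_empty_iff_false, iff_false]
        exact fun h => hp ⟨h.1, h.2.1⟩
      rw [this]
      exact finite_empty
  have : ∀ p, Finite (H p) := fun p => (hHf p).to_subtype
  have : ∀ p, Fintype (H p) := fun p => Fintype.ofFinite _
  have key := dimH_arcs (ι := Σ p : ℕ × ℕ, H p) (fun i => s i.2) (fun i => t i.2) (by
    intro e he
    set r : ℝ := (1 / 2 : ℝ) ^ (e / 2) with hr
    have hr0 : 0 < r := by positivity
    have hr1 : r < 1 := Real.rpow_lt_one (by norm_num) (by norm_num) (by positivity)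
    have hS := sum_types a |C| r hr0 hr1
    have hterm : ∀ p : ℕ × ℕ, ∑' x : H p, ENNReal.ofReal (t x - s x) ^ e ≤
        ENNReal.ofReal (|C| * ((p.1 : ℝ) * p.2) ^ a * (r ^ 2)⁻¹ * (r ^ p.1 * r ^ p.2)) := by
      intro p
      by_cases hp : 1 ≤ p.1 ∧ 3 ≤ p.2
      · obtain ⟨hp1, hp2⟩ := hp
        have hb : ∀ x : H p, ENNReal.ofReal (t x - s x) ^ e ≤
            ENNReal.ofReal ((r ^ 2)⁻¹ * (r ^ p.1 * r ^ p.2)) := by
          intro x
          have h1 := hl p.1 p.2 hp1 hp2 x x.2.2.2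
          have h2 : ENNReal.ofReal (t x - s x) ^ e ≤
              ENNReal.ofReal ((1 / 2 : ℝ) ^ (p.1 * (p.2 - 2))) ^ e :=
            ENNReal.rpow_le_rpow (ENNReal.ofReal_le_ofReal h1) he.le
          refine h2.trans ?_
          rw [ENNReal.ofReal_rpow_of_nonneg (by positivity) he.le]
          refine ENNReal.ofReal_le_ofReal ?_
          have h3 : ((1 / 2 : ℝ) ^ (p.1 * (p.2 - 2))) ^ e = r ^ (2 * (p.1 * (p.2 - 2))) := by
            rw [hr, ← Real.rpow_natCast, ← Real.rpow_mul (by norm_num), ← Real.rpow_natCast,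
              ← Real.rpow_mul (by norm_num)]
            congr 1
            push_cast
            ring
          rw [h3]
          obtain ⟨m, hm⟩ : ∃ m, p.2 = m + 3 := ⟨p.2 - 3, by omega⟩
          obtain ⟨l, hl⟩ : ∃ l, p.1 = l + 1 := ⟨p.1 - 1, by omega⟩
          have h4 : p.1 + (p.2 - 2) ≤ 2 * (p.1 * (p.2 - 2)) := by
            rw [hm, hl]
            have : m + 3 - 2 = m + 1 := by omega
            rw [this]
            nlinarith [Nat.zero_le (l * m)]
          calc r ^ (2 * (p.1 * (p.2 - 2))) ≤ r ^ (p.1 + (p.2 - 2)) :=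
                pow_le_pow_of_le_one hr0.le hr1.le h4
            _ = (r ^ 2)⁻¹ * (r ^ p.1 * r ^ p.2) := by
                have h5 : r ^ p.2 = r ^ (p.2 - 2) * r ^ 2 := by
                  rw [← pow_add]
                  congr 1
                  omega
                rw [h5, pow_add]
                field_simp
        calc ∑' x : H p, ENNReal.ofReal (t x - s x) ^ e
            = ∑ x : H p, ENNReal.ofReal (t x - s x) ^ e := tsum_fintype _
          _ ≤ ∑ _x : H p, ENNReal.ofReal ((r ^ 2)⁻¹ * (r ^ p.1 * r ^ p.2)) :=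
              Finset.sum_le_sum fun x _ => hb x
          _ = ENNReal.ofReal ((H p).ncard : ℝ) *
                ENNReal.ofReal ((r ^ 2)⁻¹ * (r ^ p.1 * r ^ p.2)) := by
              rw [Finset.sum_const, Finset.card_univ, nsmul_eq_mul, ENNReal.ofReal_natCast,
                ← Nat.card_coe_set_eq, Nat.card_eq_fintype_card]
          _ ≤ _ := by
              rw [← ENNReal.ofReal_mul (by positivity)]
              refine ENNReal.ofReal_le_ofReal ?_
              have h6 : ((H p).ncard : ℝ) ≤ |C| * ((p.1 : ℝ) * p.2) ^ a := by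
                have h7 : (H p).ncard ≤ (G p.1 p.2).ncard :=
                  Set.ncard_le_ncard (fun x hx => hx.2.2) (hG p.1 p.2 hp1 hp2).1
                calc ((H p).ncard : ℝ) ≤ ((G p.1 p.2).ncard : ℝ) := by exact_mod_cast h7
                  _ ≤ C * ((p.1 : ℝ) * p.2) ^ a := (hG p.1 p.2 hp1 hp2).2
                  _ ≤ |C| * ((p.1 : ℝ) * p.2) ^ a :=
                      mul_le_mul_of_nonneg_right (le_abs_self C) (by positivity)
              calc ((H p).ncard : ℝ) * ((r ^ 2)⁻¹ * (r ^ p.1 * r ^ p.2))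
                  ≤ (|C| * ((p.1 : ℝ) * p.2) ^ a) * ((r ^ 2)⁻¹ * (r ^ p.1 * r ^ p.2)) :=
                    mul_le_mul_of_nonneg_right h6 (by positivity)
                _ = _ := by ring
      · have : IsEmpty (H p) := ⟨fun x => hp ⟨x.2.1, x.2.2.1⟩⟩
        rw [tsum_empty]
        exact zero_le
    rw [ENNReal.tsum_sigma' (fun i : Σ p : ℕ × ℕ, H p => ENNReal.ofReal (t i.2 - s i.2) ^ e)]
    refine ne_top_of_le_ne_top ?_ (ENNReal.tsum_le_tsum hterm)
    rw [← ENNReal.ofReal_tsum_of_nonneg (fun p => by positivity) hS]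
    exact ENNReal.ofReal_ne_top)
  refine le_antisymm ((dimH_mono ?_).trans key.le) zero_le
  intro θ hθ hfin
  obtain ⟨B, hB⟩ := (hfin.image fun i : Σ p : ℕ × ℕ, H p => i.1.1 * i.1.2).bddAbove
  obtain ⟨n, q, x, hN, h1, h3, hx, hk⟩ := hθ (B + 1)
  have hmem : n * q ≤ B := hB ⟨⟨(n, q), ⟨x, h1, h3, hx⟩⟩, hk, rfl⟩
  omega

/-- the same with lists for every `δ = 1 / (j + 1)` -/
theorem dimH_all {α : Type*} (G : ℕ → ℕ → ℕ → Set α) (s t : α → ℝ) (C : ℕ → ℝ) (a : ℕ)
    (hG : ∀ j n q, 1 ≤ n → 3 ≤ q →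
      (G j n q).Finite ∧ ((G j n q).ncard : ℝ) ≤ C j * ((n : ℝ) * q) ^ a)
    (hl : ∀ j n q, 1 ≤ n → 3 ≤ q → ∀ x ∈ G j n q, t x - s x ≤ (1 / 2 : ℝ) ^ (n * (q - 2))) :
    dimH {θ : ℝ | ∃ j, ∀ N : ℕ, ∃ n q x, N ≤ n * q ∧ 1 ≤ n ∧ 3 ≤ q ∧ x ∈ G j n q ∧
      ∃ k : ℤ, s x ≤ θ + k ∧ θ + k ≤ t x} = 0 := by
  have h : {θ : ℝ | ∃ j, ∀ N : ℕ, ∃ n q x, N ≤ n * q ∧ 1 ≤ n ∧ 3 ≤ q ∧ x ∈ G j n q ∧
      ∃ k : ℤ, s x ≤ θ + k ∧ θ + k ≤ t x} = ⋃ j, {θ : ℝ | ∀ N : ℕ, ∃ n q x, N ≤ n * q ∧ 1 ≤ n ∧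
      3 ≤ q ∧ x ∈ G j n q ∧ ∃ k : ℤ, s x ≤ θ + k ∧ θ + k ≤ t x} := by
    ext θ
    simp
  rw [h, dimH_iUnion]
  simp only [dimH_types (G _) s t (C _) a (hG _) (hl _), ciSup_const]

end Pool.Agent.Work.MLC.Cnt
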