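import Pool.Agent.Work.MLC.CntB26

set_option autoImplicit false

/-! # Mean square oscillation of the Riemann map, part 1: one box (helper26) -/

namespace Pool.Agent.Work.MLC.Cnt

open Filter Topology Metric Set Complex MeasureTheory
open Pool.Agent.Work.MLC.Sat

lemma preconn_union_of_closure {A B : Set ℂ} (hA : IsPreconnected A) (hB : IsPreconnected B)
    {x : ℂ} (hx : x ∈ closure A) (hxB : x ∈ B) : IsPreconnected (B ∪ A) := by
  have h1 : IsPreconnected (insert x A) :=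
    hA.subset_closure (subset_insert _ _) (insert_subset hx subset_closure)
  have h2 := hB.union x hxB (mem_insert x A) h1
  have h3 : B ∪ insert x A = B ∪ A := by
    ext z
    simp only [mem_union, mem_insert_iff]
    constructor
    · rintro (h | h | h)
      · exact Or.inl h
      · exact Or.inl (h ▸ hxB)
      · exact Or.inr h
    · rintro (h | h)
      · exact Or.inl h
      · exact Or.inr (Or.inr h)
  rwa [h3] at h2

lemma preconn_ExtW (s t : ℝ) : IsPreconnected (CH.ExtW s t) := by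
  have hconv : Convex ℝ {z : ℂ | 0 < z.re ∧ z.re < t - s ∧ 2 * Real.pi * s < z.im ∧
      z.im < 2 * Real.pi * t} :=
    (convex_halfSpace_re_gt 0).inter ((convex_halfSpace_re_lt (t - s)).inter
      ((convex_halfSpace_im_gt (2 * Real.pi * s)).inter
        (convex_halfSpace_im_lt (2 * Real.pi * t))))
  exact hconv.isPreconnected.image _ (continuousOn_cOf.mono fun z hz => hz.1)

variable {ι : Type} [Fintype ι] {D : ι → Dat} {N : ℕ}

/-- the size of the piece of the gap together with the exterior box over the gap -/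
noncomputable def dJ [Nonempty ι] [DecidableEq ι] (h : Fam60 Finset.univ D) (N : ℕ)
    (J : ℝ × ℝ) : ℝ := ∑ J' ∈ Gp h with adr D J' = adr D J, bt D N J'

lemma preconn_KJ (h : Fam60 Finset.univ D) {J : ℝ × ℝ} (hJ : IsGap (La D) (Ra D) J) :
    IsPreconnected (Pc Finset.univ D (adr D J) ∪ CH.ExtW J.1 J.2) := by
  have hlt := hJ.lt
  set t : ℝ := (J.1 + J.2) / 2 with ht
  set w : ℝ := min 1 ((J.2 - J.1) / 2) with hw
  have hw0 : 0 < w := lt_min one_pos (by linarith)
  have hw1 : w ≤ 1 := min_le_left _ _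
  have hw2 : w < J.2 - J.1 := (min_le_right _ _).trans_lt (by linarith)
  set u : ℕ → ℂ := fun n => ((w / ((n : ℝ) + 1) : ℝ) : ℂ) + 2 * Real.pi * t * I with hu
  have hre : ∀ n, (u n).re = w / ((n : ℝ) + 1) := fun n => CH.re_pt _ _
  have him : ∀ n, (u n).im = 2 * Real.pi * t := fun n => CH.im_pt _ _
  have hpos : ∀ n, 0 < (u n).re := fun n => by rw [hre]; positivity
  have hle : ∀ n, (u n).re ≤ w := fun n => by
    rw [hre, div_le_iff₀ (by positivity)]
    have : (0 : ℝ) ≤ n := Nat.cast_nonneg n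
    nlinarith
  obtain ⟨c, φ, hφ, hc⟩ := exists_limit_cOf hpos fun n => (hle n).trans hw1
  have hmem : ∀ n, cOf (u n) ∈ CH.ExtW J.1 J.2 := fun n => by
    have hpi := Real.two_pi_pos
    refine ⟨u n, ⟨hpos n, (hle n).trans_lt hw2, ?_, ?_⟩, rfl⟩
    · rw [him]; exact mul_lt_mul_of_pos_left (by rw [ht]; linarith) hpi
    · rw [him]; exact mul_lt_mul_of_pos_left (by rw [ht]; linarith) hpi
  have h0 : Tendsto (fun n => (u (φ n)).re) atTop (𝓝 0) := by
    have h1 : Tendsto (fun n : ℕ => w / ((n : ℝ) + 1)) atTop (𝓝 0) := by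
      have h2 := (tendsto_one_div_add_atTop_nhds_zero_nat (𝕜 := ℝ)).const_mul w
      rw [mul_zero] at h2
      refine h2.congr fun n => ?_
      ring
    have h2 := h1.comp hφ.tendsto_atTop
    exact h2.congr fun n => (hre (φ n)).symm
  have hcM : c ∈ MM := mem_MM_of_tendsto (u := fun n => u (φ n)) (fun n => hpos _) h0 hc
  have hccl : c ∈ closure (CH.ExtW J.1 J.2) :=
    mem_closure_of_tendsto hc (Eventually.of_forall fun n => hmem _)
  exact preconn_union_of_closure (preconn_ExtW _ _) (isPreconnected_Pc h (isAdr_adr h hlt)) hccl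
    (closure_ExtW_MM h hJ hcM hccl)

/-- **the box over the gap** -/
theorem diam_KJ [Nonempty ι] [DecidableEq ι] (h : Fam60 Finset.univ D)
    (hmq : ∀ i, (D i).m * (D i).x.den ≤ 3 * N) {J : ℝ × ℝ} (hJ : IsGap (La D) (Ra D) J) :
    diam (Pc Finset.univ D (adr D J) ∪ CH.ExtW J.1 J.2) ≤ dJ h N J := by
  set Λ : ℝ := 140000000000 * ((3 * N : ℕ) : ℝ) ^ 9 - 1 with hΛ
  have hlam : ∀ i, lam43 (D i) ≤ Λ := fun i => by
    have := CH.lam_le (h.P i) (hmq i)
    rw [lam43, hΛ]; linarith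
  have hΛ1 : 140000000000 * ((3 * N : ℕ) : ℝ) ^ 9 = 1 + Λ := by rw [hΛ]; ring
  unfold dJ bt
  rw [hΛ1]
  refine diam_piece43 n1_length n2_ray n3_gate (Q := Qs D (adr D J))
    (R₀ := range fun i => rt (D i))
    (isBounded_Qs _) (preconn_KJ h hJ) (finite_range _) ?_
    ((Gp h).filter fun J' => adr D J' = adr D J) (fun J' => D (endL D J'.1))
    (fun J' => D (endL D J'.2)) Λ ?_ ?_ ?_ ?_
  · rintro z (hz | hz)
    · by_cases hr : ∃ i, rt (D i) = z
      · exact Or.inr hr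
      · exact Or.inl (Or.inl ⟨hz, fun i hi => hr ⟨i, hi.symm⟩⟩)
    · left; right
      exact mem_biUnion (x := J) ⟨hJ, rfl⟩ hz
  · intro J' hJ'
    have hg := (mem_Gp h).1 (Finset.mem_filter.1 hJ').1
    exact ⟨hg.lt, hg.le_one⟩
  · intro J' hJ'
    exact ⟨h.P _, h.C _, endL_spec ((mem_Gp h).1 (Finset.mem_filter.1 hJ').1).left, hlam _⟩
  · intro J' hJ'
    exact ⟨h.P _, h.C _, endL_spec ((mem_Gp h).1 (Finset.mem_filter.1 hJ').1).right, hlam _⟩
  · intro z hz
    rcases frontier_Qs₀ h (adr D J) hz with ⟨-, i, hi⟩ | hz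
    · exact Or.inl ⟨i, hi.symm⟩
    · right
      rw [mem_iUnion₂] at hz ⊢
      obtain ⟨J', ⟨hJ1, hJ2⟩, hz⟩ := hz
      exact ⟨J', Finset.mem_filter.2 ⟨(mem_Gp h).2 hJ1, hJ2⟩, hz⟩

/-- the ends of the gaps are periodic -/
lemma end_per (h : Fam60 Finset.univ D) (hmq : ∀ i, (D i).m * (D i).x.den ≤ 3 * N) {t : ℝ}
    (ht : t ∈ ends (La D) (Ra D)) : ∃ (l : ℕ) (a : ℤ), 0 < l ∧ l ≤ 3 * N ∧ (2 ^ l - 1) * t = a := by
  obtain ⟨i, hi⟩ := ht
  have hC := h.C i
  have hP := h.P i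
  have hpos : 0 < (D i).m * (D i).x.den := Nat.mul_pos hP.m_pos (D i).x.pos
  obtain ⟨a, ha⟩ := hC.per.2.1
  obtain ⟨j, l, hj⟩ := hC.orb
  obtain ⟨k, hk | hk⟩ := hi
  · refine ⟨(D i).m * (D i).x.den, a + (2 ^ ((D i).m * (D i).x.den) - 1) * k, hpos, hmq i, ?_⟩
    rw [hk]
    push_cast
    simp only [La]
    linear_combination ha
  · refine ⟨(D i).m * (D i).x.den, 2 ^ ((D i).m * j) * a +
      (2 ^ ((D i).m * (D i).x.den) - 1) * (l + k), hpos, hmq i, ?_⟩
    rw [hk]
    push_cast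
    simp only [Ra]
    rw [hj]
    linear_combination (2 ^ ((D i).m * j) : ℝ) * ha

/-- the gaps are not too short -/
lemma gap_long (h : Fam60 Finset.univ D) (hmq : ∀ i, (D i).m * (D i).x.den ≤ 3 * N)
    {J : ℝ × ℝ} (hJ : IsGap (La D) (Ra D) J) : Real.log (1 / (J.2 - J.1)) ≤ 6 * N := by
  obtain ⟨l, a, hl0, hl, ha⟩ := end_per h hmq hJ.left
  obtain ⟨l', a', hl0', hl', ha'⟩ := end_per h hmq hJ.right
  have hlt := hJ.lt
  set x : ℝ := J.2 - J.1 with hx
  have hx0 : 0 < x := by linarith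
  have h2 : ∀ n : ℕ, 0 < n → (0 : ℝ) < 2 ^ n - 1 := fun n hn => by
    have : (2 : ℝ) ^ 1 ≤ 2 ^ n := pow_le_pow_right₀ (by norm_num) hn
    linarith
  have h3 := h2 l hl0
  have h4 := h2 l' hl0'
  have h5 : (2 ^ l - 1) * (2 ^ l' - 1) * x =
      (((2 ^ l - 1) * a' - (2 ^ l' - 1) * a : ℤ) : ℝ) := by
    push_cast
    rw [hx, ← ha, ← ha']; ring
  have h6 : (1 : ℝ) ≤ (2 ^ l - 1) * (2 ^ l' - 1) * x := by
    rw [h5]
    have h7 : (0 : ℝ) < (((2 ^ l - 1) * a' - (2 ^ l' - 1) * a : ℤ) : ℝ) := by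
      rw [← h5]; positivity
    have h8 : (0 : ℤ) < (2 ^ l - 1) * a' - (2 ^ l' - 1) * a := by exact_mod_cast h7
    exact_mod_cast h8
  have h9 : (2 ^ l - 1) * (2 ^ l' - 1) ≤ (2 : ℝ) ^ (6 * N) := by
    calc ((2 : ℝ) ^ l - 1) * (2 ^ l' - 1) ≤ 2 ^ l * 2 ^ l' := by
          apply mul_le_mul (by linarith) (by linarith) h4.le (by positivity)
      _ = 2 ^ (l + l') := by rw [pow_add]
      _ ≤ 2 ^ (6 * N) := pow_le_pow_right₀ (by norm_num) (by omega)
  have h10 : 1 / x ≤ (2 : ℝ) ^ (6 * N) := by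
    rw [div_le_iff₀ hx0]
    exact h6.trans (mul_le_mul_of_nonneg_right h9 hx0.le)
  calc Real.log (1 / x) ≤ Real.log (2 ^ (6 * N)) := Real.log_le_log (by positivity) h10
    _ = 6 * N * Real.log 2 := by rw [Real.log_pow]; push_cast; ring
    _ ≤ 6 * N * 1 := by
        have := Real.log_two_lt_d9
        gcongr
        linarith
    _ = 6 * N := by ring

/-- the distance of a point of the box to the top -/
theorem dist_top [Nonempty ι] [DecidableEq ι] (h : Fam60 Finset.univ D)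
    (hmq : ∀ i, (D i).m * (D i).x.den ≤ 3 * N) {J : ℝ × ℝ} (hJ : IsGap (La D) (Ra D) J)
    {H u t : ℝ} {k : ℤ} (hH1 : H ≤ 1) (hJH : J.2 - J.1 ≤ H) (hu : 0 < u) (huH : u ≤ H)
    (ht1 : J.1 + k < t) (ht2 : t < J.2 + k) :
    dist (cOf ((u : ℂ) + 2 * Real.pi * t * I)) (cOf ((H : ℂ) + 2 * Real.pi * t * I)) ≤
      dJ h N J + 20 * √((1 + 6 * N) * area t (t + H)) := by
  have hlt := hJ.lt
  have hH0 : 0 < H := hu.trans_le huH
  set g : ℝ := J.2 - J.1 with hg
  have hg0 : 0 < g := by linarith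
  have hdJ0 : 0 ≤ dJ h N J := diam_nonneg.trans (diam_KJ h hmq hJ)
  have hA0 : 0 ≤ area t (t + H) := ENNReal.toReal_nonneg
  -- the ray
  have hray : diam (RaySeg t g H) ≤ 20 * √((1 + 6 * N) * area t (t + H)) := by
    have h1 := (n1_length t (t + H) g (by linarith) (by linarith) hg0 (by linarith)).1
    rw [add_sub_cancel_left] at h1
    refine h1.trans ?_
    have h2 : Real.log (H / g) ≤ 6 * N := by
      refine le_trans ?_ (gap_long h hmq hJ)
      apply Real.log_le_log (by positivity)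
      rw [← hg]
      gcongr
    gcongr
  have hb := bounded_ray43 (t := t) (g := g) (h := H) hg0
  have htop : cOf ((H : ℂ) + 2 * Real.pi * t * I) ∈ RaySeg t g H := ⟨H, ⟨hJH, le_rfl⟩, rfl⟩
  rcases le_or_gt g u with h1 | h1
  · have h2 : cOf ((u : ℂ) + 2 * Real.pi * t * I) ∈ RaySeg t g H := ⟨u, ⟨h1, huH⟩, rfl⟩
    have h3 := dist_le_diam_of_mem hb h2 htop
    linarith
  · -- below the roof of the gap
    have hpi := Real.two_pi_pos
    set B : Set ℂ := Pc Finset.univ D (adr D J) ∪ CH.ExtW J.1 J.2 with hB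
    have hBb : Bornology.IsBounded B :=
      (isCompact_Pc h _).isBounded.union (((isCompact_G_diag_le (J.2 - J.1)).isBounded).subset (by
        rintro _ ⟨z, hz, rfl⟩
        show G (cOf z) (cOf z) ≤ _
        rw [G_cOf hz.1]; exact hz.2.1.le))
    have hmem : ∀ v : ℝ, 0 < v → v < g → cOf ((v : ℂ) + 2 * Real.pi * t * I) ∈ B := by
      intro v hv hvg
      right
      refine ⟨(v : ℂ) + 2 * Real.pi * ((t + ((-k : ℤ) : ℝ) : ℝ) : ℂ) * I, ⟨?_, ?_, ?_, ?_⟩, ?_⟩
      · rw [CH.re_pt]; exact hv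
      · rw [CH.re_pt]; exact hvg
      · rw [CH.im_pt]
        exact mul_lt_mul_of_pos_left (by push_cast; linarith) hpi
      · rw [CH.im_pt]
        exact mul_lt_mul_of_pos_left (by push_cast; linarith) hpi
      · exact CH.cOf_shift v t (-k)
    have hroof : cOf ((g : ℂ) + 2 * Real.pi * t * I) ∈ closure B := by
      have hc : ContinuousAt (fun v : ℝ => cOf ((v : ℂ) + 2 * Real.pi * t * I)) g := by
        have h2 : ContinuousAt cOf ((g : ℂ) + 2 * Real.pi * t * I) :=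
          continuousOn_cOf.continuousAt ((isOpen_lt continuous_const Complex.continuous_re).mem_nhds
            (by show 0 < ((g : ℂ) + 2 * Real.pi * t * I).re; rw [CH.re_pt]; exact hg0))
        exact ContinuousAt.comp (f := fun v : ℝ => (v : ℂ) + 2 * Real.pi * t * I) h2
          (by fun_prop)
      have h3 : g ∈ closure (Ioo 0 g) := by
        rw [closure_Ioo hg0.ne]; exact ⟨hg0.le, le_rfl⟩
      have h4 := mem_closure_image hc h3
      refine closure_mono ?_ h4
      rintro _ ⟨v, hv, rfl⟩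
      exact hmem v hv.1 hv.2
    have h5 : dist (cOf ((u : ℂ) + 2 * Real.pi * t * I)) (cOf ((g : ℂ) + 2 * Real.pi * t * I)) ≤
        dJ h N J := by
      have h6 := dist_le_diam_of_mem hBb.closure (subset_closure (hmem u hu h1)) hroof
      rw [diam_closure] at h6
      exact h6.trans (diam_KJ h hmq hJ)
    have h7 : cOf ((g : ℂ) + 2 * Real.pi * t * I) ∈ RaySeg t g H := ⟨g, ⟨le_rfl, hJH⟩, rfl⟩
    have h8 := dist_le_diam_of_mem hb h7 htop
    have h9 := dist_triangle (cOf ((u : ℂ) + 2 * Real.pi * t * I))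
      (cOf ((g : ℂ) + 2 * Real.pi * t * I)) (cOf ((H : ℂ) + 2 * Real.pi * t * I))
    linarith

end Pool.Agent.Work.MLC.Cnt
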