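import Pool.Agent.Work.MLC.CntE26

set_option autoImplicit false

/-! # Mean square oscillation of the Riemann map, part 2: the sum over the boxes (helper26) -/

namespace Pool.Agent.Work.MLC.Cnt

open Filter Topology Metric Set Complex MeasureTheory
open Pool.Agent.Work.MLC.Sat

/-- **abstract sum of squares** over all elements of all classes -/
lemma sum_sq_cls {γ κ : Type*} [DecidableEq κ] (G : Finset γ) (cls : γ → κ) (β : γ → ℝ) {K : ℕ}
    {S : ℝ} (hK : ∀ J ∈ G, (G.filter fun J' => cls J' = cls J).card ≤ K)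
    (hS : ∑ J ∈ G, β J ^ 2 ≤ S) :
    ∑ J ∈ G, (∑ J' ∈ G with cls J' = cls J, β J') ^ 2 ≤ (K : ℝ) ^ 2 * S := by
  have hK0 : (0 : ℝ) ≤ K := Nat.cast_nonneg K
  have h1 : ∀ J ∈ G, (∑ J' ∈ G with cls J' = cls J, β J') ^ 2 ≤
      (K : ℝ) * ∑ J' ∈ G with cls J' = cls J, β J' ^ 2 := by
    intro J hJ
    have h3 : (∑ J' ∈ G with cls J' = cls J, β J') ^ 2 ≤
        ((G.filter fun J' => cls J' = cls J).card : ℝ) * ∑ J' ∈ G with cls J' = cls J, β J' ^ 2 :=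
      sq_sum_le_card_mul_sum_sq
    have h4 : ((G.filter fun J' => cls J' = cls J).card : ℝ) ≤ K := by exact_mod_cast hK J hJ
    have h5 : 0 ≤ ∑ J' ∈ G with cls J' = cls J, β J' ^ 2 :=
      Finset.sum_nonneg fun J _ => sq_nonneg (β J)
    exact h3.trans (mul_le_mul_of_nonneg_right h4 h5)
  have h2 : ∑ J ∈ G, ∑ J' ∈ G with cls J' = cls J, β J' ^ 2 ≤ K * S := by
    calc ∑ J ∈ G, ∑ J' ∈ G with cls J' = cls J, β J' ^ 2
        = ∑ J ∈ G, ∑ J' ∈ G, if cls J' = cls J then β J' ^ 2 else 0 := by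
          simp_rw [Finset.sum_filter]
      _ = ∑ J' ∈ G, ∑ J ∈ G, if cls J' = cls J then β J' ^ 2 else 0 := Finset.sum_comm
      _ = ∑ J' ∈ G, ((G.filter fun J => cls J = cls J').card : ℝ) * β J' ^ 2 := by
          refine Finset.sum_congr rfl fun J' _ => ?_
          rw [← Finset.sum_filter, Finset.sum_const, nsmul_eq_mul]
          simp_rw [eq_comm (a := cls J')]
      _ ≤ ∑ J' ∈ G, (K : ℝ) * β J' ^ 2 := by
          refine Finset.sum_le_sum fun J' hJ' => mul_le_mul_of_nonneg_right ?_ (sq_nonneg _)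
          exact_mod_cast hK J' hJ'
      _ = K * ∑ J ∈ G, β J ^ 2 := by rw [Finset.mul_sum]
      _ ≤ K * S := by gcongr
  calc ∑ J ∈ G, (∑ J' ∈ G with cls J' = cls J, β J') ^ 2
      ≤ ∑ J ∈ G, (K : ℝ) * ∑ J' ∈ G with cls J' = cls J, β J' ^ 2 := Finset.sum_le_sum h1
    _ = K * ∑ J ∈ G, ∑ J' ∈ G with cls J' = cls J, β J' ^ 2 := by rw [Finset.mul_sum]
    _ ≤ K * (K * S) := by gcongr
    _ = (K : ℝ) ^ 2 * S := by ring

/-- two different boxes of the same parity are separated modulo one -/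
lemma parity_sep {N k k' : ℕ} (hN : 1 ≤ N) (hk : k < 2 ^ N) (hk' : k' < 2 ^ N) (hne : k ≠ k')
    (hp : k % 2 = k' % 2) (l : ℤ) : (2 : ℝ) ≤ |(k : ℝ) - k' - l * 2 ^ N| := by
  have h2N : (2 : ℤ) ^ N = 2 * 2 ^ (N - 1) := by
    rw [← pow_succ']; congr 1; omega
  have hk1 : (k : ℤ) < 2 ^ N := by exact_mod_cast hk
  have hk2 : (k' : ℤ) < 2 ^ N := by exact_mod_cast hk'
  obtain ⟨r, hr⟩ : ∃ r : ℤ, l * 2 ^ N = 2 * r := ⟨l * 2 ^ (N - 1), by rw [h2N]; ring⟩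
  have hP : (0 : ℤ) < 2 ^ N := by positivity
  have hq : l * 2 ^ N ≤ -2 ^ N ∨ l * 2 ^ N = 0 ∨ 2 ^ N ≤ l * 2 ^ N := by
    rcases lt_trichotomy l 0 with h | h | h
    · left
      have : l ≤ -1 := by omega
      nlinarith
    · right; left
      rw [h, zero_mul]
    · right; right
      have : 1 ≤ l := by omega
      nlinarith
  have hne' : (k : ℤ) ≠ k' := by exact_mod_cast hne
  have key : (k : ℤ) - k' - l * 2 ^ N ≤ -2 ∨ 2 ≤ (k : ℤ) - k' - l * 2 ^ N := by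
    generalize l * 2 ^ N = q at *
    generalize (2 : ℤ) ^ N = P at *
    omega
  rcases key with h | h
  · have h' : (k : ℝ) - k' - l * 2 ^ N ≤ -2 := by exact_mod_cast h
    exact le_abs.2 (Or.inr (by linarith))
  · have h' : (2 : ℝ) ≤ (k : ℝ) - k' - l * 2 ^ N := by exact_mod_cast h
    exact le_abs.2 (Or.inl h')

/-- points of different boxes of the same parity are at distance at least `2 ^ -N` modulo one -/
lemma parity_dist {N k k' : ℕ} (hN : 1 ≤ N) (hk : k < 2 ^ N) (hk' : k' < 2 ^ N) (hne : k ≠ k')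
    (hp : k % 2 = k' % 2) {t t' : ℝ} (ht : t ∈ Icc ((k : ℝ) * (1 / 2) ^ N) ((k + 1) * (1 / 2) ^ N))
    (ht' : t' ∈ Icc ((k' : ℝ) * (1 / 2) ^ N) ((k' + 1) * (1 / 2) ^ N)) (l : ℤ) :
    (1 / 2 : ℝ) ^ N ≤ |t - t' - l| := by
  have h1 := parity_sep hN hk hk' hne hp l
  set H : ℝ := (1 / 2) ^ N with hH
  have hH0 : 0 < H := by positivity
  have h2 : (2 : ℝ) ^ N * H = 1 := by
    rw [hH, ← mul_pow]; norm_num
  have h3 : ((k : ℝ) - k' - l * 2 ^ N) * H = k * H - k' * H - l := by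
    calc ((k : ℝ) - k' - l * 2 ^ N) * H = k * H - k' * H - l * (2 ^ N * H) := by ring
      _ = _ := by rw [h2, mul_one]
  have h4 : 2 * H ≤ |k * H - k' * H - l| := by
    rw [← h3, abs_mul, abs_of_pos hH0]
    exact mul_le_mul_of_nonneg_right h1 hH0.le
  obtain ⟨h5, h6⟩ := ht
  obtain ⟨h7, h8⟩ := ht'
  rw [add_mul, one_mul] at h6 h8
  rcases le_abs.1 h4 with h9 | h9
  · exact le_abs.2 (Or.inl (by linarith))
  · exact le_abs.2 (Or.inr (by linarith))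

/-- the image of the box: potentials at most `2 ^ -N`, angles in the dyadic interval `k` -/
def Bx (N k : ℕ) : Set ℂ :=
  {c | ∃ u t : ℝ, 0 < u ∧ u ≤ (1 / 2) ^ N ∧ (k : ℝ) * (1 / 2) ^ N ≤ t ∧
    t ≤ ((k : ℝ) + 1) * (1 / 2) ^ N ∧ c = cOf ((u : ℂ) + 2 * Real.pi * t * I)}

lemma isBounded_Bx (N k : ℕ) : Bornology.IsBounded (Bx N k) := by
  refine (isCompact_G_diag_le 1).isBounded.subset ?_
  rintro _ ⟨u, t, hu, huH, -, -, rfl⟩
  show G (cOf _) (cOf _) ≤ _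
  rw [G_cOf (by rw [CH.re_pt]; exact hu), CH.re_pt]
  exact huH.trans (pow_le_one₀ (by norm_num) (by norm_num))

variable {ι : Type} [Fintype ι] {D : ι → Dat}

lemma countable_ends : (ends (La D) (Ra D)).Countable := by
  refine ((countable_range fun p : ι × ℤ => La D p.1 + p.2).union
    (countable_range fun p : ι × ℤ => Ra D p.1 + p.2)).mono ?_
  rintro t ⟨i, k, h | h⟩
  · exact Or.inl ⟨(i, k), h.symm⟩
  · exact Or.inr ⟨(i, k), h.symm⟩

/-- two points of the box, at angles which are no ends, almost realise the diameter -/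
lemma exists_pair (D : ι → Dat) (N k : ℕ) : ∃ u t v s : ℝ, 0 < u ∧ u ≤ (1 / 2) ^ N ∧
    0 < v ∧ v ≤ (1 / 2) ^ N ∧
    t ∈ Icc ((k : ℝ) * (1 / 2) ^ N) ((k + 1) * (1 / 2) ^ N) ∧ t ∉ ends (La D) (Ra D) ∧
    s ∈ Icc ((k : ℝ) * (1 / 2) ^ N) ((k + 1) * (1 / 2) ^ N) ∧ s ∉ ends (La D) (Ra D) ∧
    diam (Bx N k) ≤ 2 * dist (cOf ((u : ℂ) + 2 * Real.pi * t * I))
      (cOf ((v : ℂ) + 2 * Real.pi * s * I)) := by
  set H : ℝ := (1 / 2) ^ N with hH
  have hH0 : 0 < H := by positivity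
  have hlt : (k : ℝ) * H < (k + 1) * H := by nlinarith
  set S : Set ℝ := Ioo ((k : ℝ) * H) ((k + 1) * H) ∩ (ends (La D) (Ra D))ᶜ with hS
  have hdense : Dense (ends (La D) (Ra D))ᶜ := countable_ends.dense_compl ℝ
  have hcl : Icc ((k : ℝ) * H) ((k + 1) * H) ⊆ closure S := by
    rw [← closure_Ioo hlt.ne]
    exact closure_minimal (hdense.open_subset_closure_inter isOpen_Ioo) isClosed_closure
  set B₀ : Set ℂ := {c | ∃ u t : ℝ, 0 < u ∧ u ≤ H ∧ t ∈ S ∧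
    c = cOf ((u : ℂ) + 2 * Real.pi * t * I)} with hB₀
  have hsub : Bx N k ⊆ closure B₀ := by
    rintro _ ⟨u, t, hu, huH, ht1, ht2, rfl⟩
    have hc : ContinuousAt (fun t : ℝ => cOf ((u : ℂ) + 2 * Real.pi * t * I)) t := by
      have h2 : ContinuousAt cOf ((u : ℂ) + 2 * Real.pi * t * I) :=
        continuousOn_cOf.continuousAt ((isOpen_lt continuous_const Complex.continuous_re).mem_nhds
          (by show 0 < ((u : ℂ) + 2 * Real.pi * t * I).re; rw [CH.re_pt]; exact hu))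
      exact ContinuousAt.comp (f := fun t : ℝ => (u : ℂ) + 2 * Real.pi * t * I) h2
        (by fun_prop)
    have h4 := mem_closure_image hc (hcl ⟨ht1, ht2⟩)
    refine closure_mono ?_ h4
    rintro _ ⟨s, hs, rfl⟩
    exact ⟨u, s, hu, huH, hs, rfl⟩
  have hsub' : B₀ ⊆ Bx N k := by
    rintro _ ⟨u, t, hu, huH, ht, rfl⟩
    exact ⟨u, t, hu, huH, ht.1.1.le, ht.1.2.le, rfl⟩
  have hb : Bornology.IsBounded B₀ := (isBounded_Bx N k).subset hsub'
  have hd : diam (Bx N k) ≤ diam B₀ := by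
    rw [← diam_closure B₀]
    exact diam_mono hsub hb.closure
  have hSne : S.Nonempty := by
    have : (closure S).Nonempty := ⟨_, hcl ⟨le_rfl, hlt.le⟩⟩
    exact closure_nonempty_iff.1 this
  obtain ⟨t₀, ht₀⟩ := hSne
  by_contra hcon
  push Not at hcon
  have key : ∀ z ∈ B₀, ∀ w ∈ B₀, 2 * dist z w < diam (Bx N k) := by
    rintro _ ⟨u, t, hu, huH, ht, rfl⟩ _ ⟨v, s, hv, hvH, hs, rfl⟩
    exact hcon u t v s hu huH hv hvH ⟨ht.1.1.le, ht.1.2.le⟩ ht.2 ⟨hs.1.1.le, hs.1.2.le⟩ hs.2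
  have hz₀ : cOf ((H : ℂ) + 2 * Real.pi * t₀ * I) ∈ B₀ := ⟨H, t₀, hH0, le_rfl, ht₀, rfl⟩
  have h1 := key _ hz₀ _ hz₀
  rw [dist_self, mul_zero] at h1
  have h2 : diam B₀ ≤ diam (Bx N k) / 2 :=
    diam_le_of_forall_dist_le (by linarith) fun z hz w hw => by linarith [key z hz w hw]
  linarith

variable {M N : ℕ}

/-- **one box** -/
lemma box_one [Nonempty ι] [DecidableEq ι] (h : Fam60 Finset.univ D)
    (hmq : ∀ i, (D i).m * (D i).x.den ≤ 3 * M)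
    (hs : ∀ J, IsGap (La D) (Ra D) J → J.2 - J.1 ≤ (1 / 2 : ℝ) ^ N / 2) (k : ℕ) :
    ∃ (J J' : ℝ × ℝ) (t t' : ℝ) (l l' : ℤ), IsGap (La D) (Ra D) J ∧ IsGap (La D) (Ra D) J' ∧
      J.1 + l < t ∧ t < J.2 + l ∧ J'.1 + l' < t' ∧ t' < J'.2 + l' ∧
      t ∈ Icc ((k : ℝ) * (1 / 2) ^ N) ((k + 1) * (1 / 2) ^ N) ∧
      t' ∈ Icc ((k : ℝ) * (1 / 2) ^ N) ((k + 1) * (1 / 2) ^ N) ∧
      diam (Bx N k) ^ 2 ≤ 20 * (dJ h M J ^ 2 + dJ h M J' ^ 2 +
        400 * ((1 + 6 * M) * area t (t + (1 / 2) ^ N)) +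
        400 * ((1 + 6 * M) * area t' (t' + (1 / 2) ^ N)) +
        400 * area (k * (1 / 2) ^ N) (k * (1 / 2) ^ N + (1 / 2) ^ N)) := by
  obtain ⟨u, t, v, s, hu, huH, hv, hvH, ht, hte, hst, hse, hd⟩ := exists_pair D N k
  set H : ℝ := (1 / 2) ^ N with hH
  have hH0 : 0 < H := by positivity
  have hH1 : H ≤ 1 := pow_le_one₀ (by norm_num) (by norm_num)
  obtain ⟨J, ⟨hJ, -⟩, l, h1, h2⟩ := exists_gapsOf h hte
  obtain ⟨J', ⟨hJ', -⟩, l', h1', h2'⟩ := exists_gapsOf h hse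
  refine ⟨J, J', t, s, l, l', hJ, hJ', h1, h2, h1', h2', ht, hst, ?_⟩
  have e1 := dist_top h hmq hJ hH1 (by linarith [hs J hJ]) hu huH h1 h2
  have e2 := dist_top h hmq hJ' hH1 (by linarith [hs J' hJ']) hv hvH h1' h2'
  -- the roof
  have e3 : dist (cOf ((H : ℂ) + 2 * Real.pi * t * I)) (cOf ((H : ℂ) + 2 * Real.pi * s * I)) ≤
      20 * √(area (k * H) (k * H + H)) := by
    have r1 := (n1_length (k * H) (k * H + H) H (by linarith) (by linarith) hH0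
      (by linarith)).2.2
    have hmem : ∀ x ∈ Icc ((k : ℝ) * H) ((k + 1) * H),
        cOf ((H : ℂ) + 2 * Real.pi * x * I) ∈ Roof (k * H) (k * H + H) := by
      intro x hx
      refine ⟨x, ⟨hx.1, by linarith [hx.2]⟩, ?_⟩
      show cOf (((k * H + H - k * H : ℝ) : ℂ) + 2 * Real.pi * x * I) = _
      rw [add_sub_cancel_left]
    exact (dist_le_diam_of_mem (bounded_roof43 (by linarith)) (hmem t ht) (hmem s hst)).trans r1
  have e4 : dist (cOf ((u : ℂ) + 2 * Real.pi * t * I)) (cOf ((v : ℂ) + 2 * Real.pi * s * I)) ≤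
      dist (cOf ((u : ℂ) + 2 * Real.pi * t * I)) (cOf ((H : ℂ) + 2 * Real.pi * t * I)) +
      dist (cOf ((H : ℂ) + 2 * Real.pi * t * I)) (cOf ((H : ℂ) + 2 * Real.pi * s * I)) +
      dist (cOf ((v : ℂ) + 2 * Real.pi * s * I)) (cOf ((H : ℂ) + 2 * Real.pi * s * I)) := by
    rw [dist_comm (cOf ((v : ℂ) + 2 * Real.pi * s * I))]
    exact dist_triangle4 _ _ _ _
  have hA1 : 0 ≤ area t (t + H) := ENNReal.toReal_nonneg
  have hA2 : 0 ≤ area s (s + H) := ENNReal.toReal_nonneg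
  have hA3 : 0 ≤ area (k * H) (k * H + H) := ENNReal.toReal_nonneg
  have q1 : √((1 + 6 * (M : ℝ)) * area t (t + H)) ^ 2 = (1 + 6 * M) * area t (t + H) :=
    Real.sq_sqrt (by positivity)
  have q2 : √((1 + 6 * (M : ℝ)) * area s (s + H)) ^ 2 = (1 + 6 * M) * area s (s + H) :=
    Real.sq_sqrt (by positivity)
  have q3 : √(area (k * H) (k * H + H)) ^ 2 = area (k * H) (k * H + H) := Real.sq_sqrt hA3
  rw [← q1, ← q2, ← q3]
  set x1 := dJ h M J
  set x2 := dJ h M J'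
  set x3 := √((1 + 6 * (M : ℝ)) * area t (t + H))
  set x4 := √((1 + 6 * (M : ℝ)) * area s (s + H))
  set x5 := √(area (k * H) (k * H + H))
  have h6 : diam (Bx N k) ≤ 2 * (x1 + x2 + 20 * x3 + 20 * x4 + 20 * x5) := by linarith
  have h7 : diam (Bx N k) ^ 2 ≤ (2 * (x1 + x2 + 20 * x3 + 20 * x4 + 20 * x5)) ^ 2 :=
    pow_le_pow_left₀ diam_nonneg h6 2
  refine h7.trans ?_
  nlinarith [sq_nonneg (x1 - x2), sq_nonneg (x1 - 20 * x3), sq_nonneg (x1 - 20 * x4),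
    sq_nonneg (x1 - 20 * x5), sq_nonneg (x2 - 20 * x3), sq_nonneg (x2 - 20 * x4),
    sq_nonneg (x2 - 20 * x5), sq_nonneg (x3 - x4), sq_nonneg (x3 - x5), sq_nonneg (x4 - x5)]

/-- the areas of the arcs over the boxes -/
lemma sum_area (hN : 1 ≤ N) (t : ℕ → ℝ)
    (ht : ∀ k : ℕ, t k ∈ Icc ((k : ℝ) * (1 / 2) ^ N) ((k + 1) * (1 / 2) ^ N)) :
    ∑ k ∈ Finset.range (2 ^ N), area (t k) (t k + (1 / 2) ^ N) ≤ 2 * 10 ^ 4 := by
  set H : ℝ := (1 / 2) ^ N with hH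
  have hH0 : 0 < H := by positivity
  have hH1 : H ≤ 1 := pow_le_one₀ (by norm_num) (by norm_num)
  have key : ∀ p : ℕ, ∑ k ∈ (Finset.range (2 ^ N)).filter (fun k => k % 2 = p),
      area (t k) (t k + H) ≤ 10 ^ 4 := by
    intro p
    refine n1_area ℕ _ t (fun k => t k + H) (fun k _ => ⟨by linarith, by linarith⟩) ?_
    intro k hk k' hk' hne l
    obtain ⟨hk1, hk2⟩ := Finset.mem_filter.1 hk
    obtain ⟨hk1', hk2'⟩ := Finset.mem_filter.1 hk'
    have h1 := parity_dist hN (Finset.mem_range.1 hk1) (Finset.mem_range.1 hk1') hne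
      (hk2.trans hk2'.symm) (ht k) (ht k') l
    rw [← hH] at h1
    rw [Set.disjoint_left]
    rintro x ⟨h2, h3⟩ ⟨h4, h5⟩
    rcases le_abs.1 h1 with h6 | h6 <;> linarith
  have hsplit : ∑ k ∈ Finset.range (2 ^ N), area (t k) (t k + H) =
      ∑ k ∈ (Finset.range (2 ^ N)).filter (fun k => k % 2 = 0), area (t k) (t k + H) +
      ∑ k ∈ (Finset.range (2 ^ N)).filter (fun k => k % 2 = 1), area (t k) (t k + H) := by
    rw [← Finset.sum_filter_add_sum_filter_not (Finset.range (2 ^ N)) (fun k => k % 2 = 0)]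
    congr 1
    refine Finset.sum_congr (Finset.filter_congr fun k _ => ?_) fun _ _ => rfl
    omega
  rw [hsplit]
  linarith [key 0, key 1]

/-- each gap is used by at most two boxes -/
lemma sum_boxes (hN : 1 ≤ N) (G : Finset (ℝ × ℝ)) (f : ℝ × ℝ → ℝ) (hf : ∀ J, 0 ≤ f J)
    (hs : ∀ J ∈ G, J.2 - J.1 ≤ (1 / 2 : ℝ) ^ N / 2) (J : ℕ → ℝ × ℝ) (t : ℕ → ℝ) (l : ℕ → ℤ)
    (hJ : ∀ k, J k ∈ G) (h1 : ∀ k, (J k).1 + l k < t k) (h2 : ∀ k, t k < (J k).2 + l k)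
    (ht : ∀ k : ℕ, t k ∈ Icc ((k : ℝ) * (1 / 2) ^ N) ((k + 1) * (1 / 2) ^ N)) :
    ∑ k ∈ Finset.range (2 ^ N), f (J k) ≤ 2 * ∑ J ∈ G, f J := by
  classical
  set H : ℝ := (1 / 2) ^ N with hH
  have hH0 : 0 < H := by positivity
  have key : ∀ p : ℕ, ∑ k ∈ (Finset.range (2 ^ N)).filter (fun k => k % 2 = p), f (J k) ≤
      ∑ J ∈ G, f J := by
    intro p
    have hinj : ∀ k ∈ (Finset.range (2 ^ N)).filter (fun k => k % 2 = p),
        ∀ k' ∈ (Finset.range (2 ^ N)).filter (fun k => k % 2 = p), J k = J k' → k = k' := by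
      intro k hk k' hk' hkk
      by_contra hne
      obtain ⟨hk1, hk2⟩ := Finset.mem_filter.1 hk
      obtain ⟨hk1', hk2'⟩ := Finset.mem_filter.1 hk'
      have e1 := parity_dist hN (Finset.mem_range.1 hk1) (Finset.mem_range.1 hk1') hne
        (hk2.trans hk2'.symm) (ht k) (ht k') (l k - l k')
      rw [← hH] at e1
      push_cast at e1
      have e2 := h1 k
      have e3 := h2 k
      have e4 := h1 k'
      have e5 := h2 k'
      have e6 := hs _ (hJ k')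
      rw [hkk] at e2 e3
      rcases le_abs.1 e1 with h6 | h6 <;> linarith
    calc ∑ k ∈ (Finset.range (2 ^ N)).filter (fun k => k % 2 = p), f (J k)
        = ∑ J ∈ ((Finset.range (2 ^ N)).filter (fun k => k % 2 = p)).image J, f J :=
          (Finset.sum_image fun k hk k' hk' h => hinj k hk k' hk' h).symm
      _ ≤ ∑ J ∈ G, f J := by
          refine Finset.sum_le_sum_of_subset_of_nonneg ?_ fun J _ _ => hf J
          intro x hx
          obtain ⟨k, -, rfl⟩ := Finset.mem_image.1 hx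
          exact hJ k
  have hsplit : ∑ k ∈ Finset.range (2 ^ N), f (J k) =
      ∑ k ∈ (Finset.range (2 ^ N)).filter (fun k => k % 2 = 0), f (J k) +
      ∑ k ∈ (Finset.range (2 ^ N)).filter (fun k => k % 2 = 1), f (J k) := by
    rw [← Finset.sum_filter_add_sum_filter_not (Finset.range (2 ^ N)) (fun k => k % 2 = 0)]
    congr 1
    refine Finset.sum_congr (Finset.filter_congr fun k _ => ?_) fun _ _ => rfl
    omega
  rw [hsplit]
  linarith [key 0, key 1]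

/-- the sum of the squares of the sizes over the gaps -/
lemma sum_dJ [Nonempty ι] [DecidableEq ι] (hM : 1 ≤ M) (h : Fam60 Finset.univ D)
    (hm : ∀ i, (D i).m ≤ M) (hmq : ∀ i, (D i).m * (D i).x.den ≤ 3 * M) (hsep : SepFam D) :
    ∑ J ∈ Gp h, dJ h M J ^ 2 ≤ 10 ^ 27 * (M : ℝ) ^ 13 := by
  have hN1 : (1 : ℝ) ≤ M := by exact_mod_cast hM
  have hT : ∀ i, ((D i).m, (D i).x) ∈ labels3 M := fun i =>
    mem_labels3 (h.P i).m_pos (hm i) (h.P i).x_pos (h.P i).x_lt (hmq i)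
  have hss := CH.sum_gaps n1_area n3_gate n3_disj D h.P h.C (fun _ _ hij => h.ne hij) (labels3 M)
    hT (Gp h) (fun _ hJ => (mem_Gp h).1 hJ) (fun J => endL D J.1) (fun J => endL D J.2)
    (fun _ hJ => endL_spec ((mem_Gp h).1 hJ).left) (fun _ hJ => endL_spec ((mem_Gp h).1 hJ).right)
    (Λ := 140000000000 * ((3 * M : ℕ) : ℝ) ^ 9) (by positivity)
  have hc := sum_sq_cls (Gp h) (adr D) (bt D M) (K := 18 * M ^ 2 + 1)
    (fun J _ => card_gaps_le h hm hmq hsep J) hss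
  refine hc.trans ?_
  have hT' : ((labels3 M).card : ℝ) ≤ 18 * (M : ℝ) ^ 2 := by exact_mod_cast card_labels3 M
  have h29 : (M : ℝ) ^ 2 ≤ (M : ℝ) ^ 9 := pow_le_pow_right₀ hN1 (by norm_num)
  have h12 : (1 : ℝ) ≤ (M : ℝ) ^ 2 := one_le_pow₀ hN1
  have hK : ((18 * M ^ 2 + 1 : ℕ) : ℝ) ≤ 19 * (M : ℝ) ^ 2 := by push_cast; linarith
  calc ((18 * M ^ 2 + 1 : ℕ) : ℝ) ^ 2 * (3 * (3600 * (140000000000 * ((3 * M : ℕ) : ℝ) ^ 9) *
        10 ^ 4 + 4 * (10 ^ 12 * (315 * ((labels3 M).card : ℝ)))))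
      ≤ (19 * (M : ℝ) ^ 2) ^ 2 * (3 * (3600 * (140000000000 * ((3 * M : ℕ) : ℝ) ^ 9) *
        10 ^ 4 + 4 * (10 ^ 12 * (315 * (18 * (M : ℝ) ^ 9))))) := by
        have e1 : ((labels3 M).card : ℝ) ≤ 18 * (M : ℝ) ^ 9 := hT'.trans (by linarith)
        gcongr
    _ ≤ 10 ^ 27 * (M : ℝ) ^ 13 := by
        push_cast
        have h0 : (0 : ℝ) ≤ (M : ℝ) ^ 13 := by positivity
        have e : (19 * (M : ℝ) ^ 2) ^ 2 * (3 * (3600 * (140000000000 * (3 * (M : ℝ)) ^ 9) *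
          10 ^ 4 + 4 * (10 ^ 12 * (315 * (18 * (M : ℝ) ^ 9))))) =
          (361 * (3 * (3600 * (140000000000 * 19683) * 10 ^ 4 + 4 * (10 ^ 12 * (315 * 18))))) *
            (M : ℝ) ^ 13 := by ring
        rw [e]
        have : (361 * (3 * (3600 * (140000000000 * 19683) * 10 ^ 4 +
          4 * (10 ^ 12 * (315 * 18)))) : ℝ) ≤ 10 ^ 27 := by norm_num
        exact mul_le_mul_of_nonneg_right this h0

/-- **the mean square oscillation**, logarithmic form -/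
theorem msq_log (hN : 1 ≤ N) :
    ∑ k ∈ Finset.range (2 ^ N), diam (Bx N k) ^ 2 ≤ 10 ^ 40 * (N : ℝ) ^ 13 := by
  classical
  set M : ℕ := N + 5 with hM
  obtain ⟨ι, hι, D, h, hm, hmq, hF⟩ := exists_fam M
  have hne : Nonempty ι := by
    obtain ⟨D', a, b, c, d, -⟩ := dense26 (N := M) (by omega) 0
    obtain ⟨i, -⟩ := hF D' a b c d
    exact ⟨i⟩
  have hs : ∀ J, IsGap (La D) (Ra D) J → J.2 - J.1 ≤ (1 / 2 : ℝ) ^ N / 2 := by
    intro J hJ
    have h1 := short_gaps (N := M) (by omega) h hF hJ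
    have h2 : (16 : ℝ) / 2 ^ M = (1 / 2 : ℝ) ^ N / 2 := by
      rw [hM, pow_add, one_div, inv_pow]
      field_simp
      norm_num
    rwa [h2] at h1
  have hsep := sepFam_of g3Sep h hm hF
  have hsum := sum_dJ (M := M) (by omega) h hm hmq hsep
  choose J J' t t' l l' hJ hJ' h1 h2 h1' h2' ht ht' hd using fun k => box_one h hmq hs k
  have s1 := sum_boxes hN (Gp h) (fun J => dJ h M J ^ 2) (fun _ => sq_nonneg _)
    (fun J hJ => hs J ((mem_Gp h).1 hJ)) J t l (fun k => (mem_Gp h).2 (hJ k)) h1 h2 ht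
  have s2 := sum_boxes hN (Gp h) (fun J => dJ h M J ^ 2) (fun _ => sq_nonneg _)
    (fun J hJ => hs J ((mem_Gp h).1 hJ)) J' t' l' (fun k => (mem_Gp h).2 (hJ' k)) h1' h2' ht'
  have s3 := sum_area hN t ht
  have s4 := sum_area hN t' ht'
  have s5 := sum_area hN (fun k => (k : ℝ) * (1 / 2) ^ N) fun k =>
    ⟨le_rfl, by
      have : (0 : ℝ) ≤ (1 / 2) ^ N := by positivity
      nlinarith⟩
  have hM1 : (1 : ℝ) ≤ M := by
    have : 1 ≤ M := by omega
    exact_mod_cast this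
  have hMN : (M : ℝ) ≤ 6 * N := by
    have : M ≤ 6 * N := by omega
    exact_mod_cast this
  calc ∑ k ∈ Finset.range (2 ^ N), diam (Bx N k) ^ 2
      ≤ ∑ k ∈ Finset.range (2 ^ N), 20 * (dJ h M (J k) ^ 2 + dJ h M (J' k) ^ 2 +
        400 * ((1 + 6 * M) * area (t k) (t k + (1 / 2) ^ N)) +
        400 * ((1 + 6 * M) * area (t' k) (t' k + (1 / 2) ^ N)) +
        400 * area (k * (1 / 2) ^ N) (k * (1 / 2) ^ N + (1 / 2) ^ N)) :=
        Finset.sum_le_sum fun k _ => hd k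
    _ = 20 * (∑ k ∈ Finset.range (2 ^ N), dJ h M (J k) ^ 2 +
        ∑ k ∈ Finset.range (2 ^ N), dJ h M (J' k) ^ 2 +
        400 * ((1 + 6 * M) * ∑ k ∈ Finset.range (2 ^ N), area (t k) (t k + (1 / 2) ^ N)) +
        400 * ((1 + 6 * M) * ∑ k ∈ Finset.range (2 ^ N), area (t' k) (t' k + (1 / 2) ^ N)) +
        400 * ∑ k ∈ Finset.range (2 ^ N),
          area (k * (1 / 2) ^ N) (k * (1 / 2) ^ N + (1 / 2) ^ N)) := by
        simp only [← Finset.mul_sum, Finset.sum_add_distrib]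
    _ ≤ 20 * (2 * (10 ^ 27 * (M : ℝ) ^ 13) + 2 * (10 ^ 27 * (M : ℝ) ^ 13) +
        400 * ((1 + 6 * M) * (2 * 10 ^ 4)) + 400 * ((1 + 6 * M) * (2 * 10 ^ 4)) +
        400 * (2 * 10 ^ 4)) := by
        have s1' := s1.trans (mul_le_mul_of_nonneg_left hsum (by norm_num))
        have s2' := s2.trans (mul_le_mul_of_nonneg_left hsum (by norm_num))
        gcongr
    _ ≤ 10 ^ 29 * (M : ℝ) ^ 13 := by
        have e1 : (M : ℝ) ≤ (M : ℝ) ^ 13 := le_self_pow₀ hM1 (by norm_num)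
        have e2 : (1 : ℝ) ≤ (M : ℝ) ^ 13 := one_le_pow₀ hM1
        nlinarith
    _ ≤ 10 ^ 29 * (6 * (N : ℝ)) ^ 13 := by gcongr
    _ = 10 ^ 29 * 6 ^ 13 * (N : ℝ) ^ 13 := by rw [mul_pow]; ring
    _ ≤ 10 ^ 40 * (N : ℝ) ^ 13 := by
        gcongr
        norm_num

end Pool.Agent.Work.MLC.Cnt
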