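import Pool.Agent.Work.MLC.CntE60

set_option autoImplicit false

/-! # Theorem N, module N6: the limb is the part of `MM` separated from `0` by the root (helper60) -/

namespace Pool.Agent.Work.MLC

open Filter Topology Metric Set

namespace LimbData

variable {M : Set ℂ} {x₀ : ℚ} {R A : ℝ} {c : ℂ → ℂ} {T : ℂ → ℚ → Prop}

/-- variant of `main'`: `K₀` is open and closed in `M` up to the root, and contains the points of
type `x₀` near the root; then all points of `M` outside `K₀`, different from the root, are in the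
component of the left side (the proof is the one of `main'`, helper6) -/
theorem main_gen (h : LimbData M x₀ R A c T) (hM : IsCompact M) (hMc : IsPreconnected M)
    {K₀ : Set ℂ} (hKo : ∀ z ∈ K₀, ∀ᶠ w in 𝓝 z, w ∈ M → w ∈ K₀)
    (hKc : ∀ z ∈ M, z ∈ closure K₀ → z ∈ K₀ ∨ z = c (axisPt x₀))
    {δ₁ : ℝ} (hδ₁ : 0 < δ₁) (hKT : ∀ L ∈ ball (axisPt x₀) δ₁, T L x₀ → c L ∈ K₀) :
    ∃ δ : ℝ, 0 < δ ∧ δ ≤ R ∧ ∀ z ∈ M, z ∉ K₀ → z ≠ c (axisPt x₀) →
      c '' (ball (axisPt x₀) δ ∩ {L | L.re < 0}) ⊆
        connectedComponentIn (M \ {c (axisPt x₀)}) z := by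
  obtain ⟨δ₀, hδ₀, hinj₀⟩ := h.inj
  set r := c (axisPt x₀) with hr
  set δ := min (min δ₀ δ₁) R with hδdef
  have hδ : 0 < δ := lt_min (lt_min hδ₀ hδ₁) h.R_pos
  have hδR : δ ≤ R := min_le_right _ _
  have hδδ₁ : δ ≤ δ₁ := (min_le_left _ _).trans (min_le_right _ _)
  have hinj : InjOn c (ball (axisPt x₀) δ) :=
    hinj₀.mono (ball_subset_ball ((min_le_left _ _).trans (min_le_left _ _)))
  have hsubR : ball (axisPt x₀) δ ⊆ ball (axisPt x₀) R := ball_subset_ball hδR
  have hcen : axisPt x₀ ∈ ball (axisPt x₀) δ := mem_ball_self hδ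
  have hcenR : axisPt x₀ ∈ ball (axisPt x₀) R := mem_ball_self h.R_pos
  have hrM : r ∈ M := h.left _ hcenR (by rw [axisPt_re])
  set S : Set ℂ := ball (axisPt x₀) δ ∩ {L | L.re < 0} with hS
  set W : Set ℂ := c '' S with hW
  have hSconv : Convex ℝ S := (convex_ball _ _).inter (convex_halfSpace_re_lt 0)
  have hSD : S ⊆ ball (axisPt x₀) R := inter_subset_left.trans hsubR
  have hWconn : IsPreconnected W := hSconv.isPreconnected.image _ (h.cont.mono hSD)
  have hWsub : W ⊆ M \ {r} := by
    rintro _ ⟨L, hL, rfl⟩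
    refine ⟨h.left L (hSD hL) (le_of_lt hL.2), fun h0 => ?_⟩
    have h1 : L = axisPt x₀ := hinj hL.1 hcen h0
    have h2 := hL.2
    rw [h1] at h2
    simp [axisPt_re] at h2
  refine ⟨δ, hδ, hδR, ?_⟩
  -- boundary points over the imaginary axis
  have hbd : ∀ L ∈ ball (axisPt x₀) δ, L.re = 0 → L ≠ axisPt x₀ →
      IsPreconnected (insert (c L) W) ∧ insert (c L) W ⊆ M \ {r} := by
    intro L hL hre hne
    constructor
    · refine hWconn.subset_closure (subset_insert _ _) ?_
      rintro z (rfl | hz)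
      · have hLS : L ∈ closure S := by
          rw [Metric.mem_closure_iff]
          intro ε hε
          have hd : 0 < δ - dist L (axisPt x₀) := sub_pos.2 hL
          set η := min (ε / 2) ((δ - dist L (axisPt x₀)) / 2) with hη
          have hη0 : 0 < η := lt_min (by positivity) (by positivity)
          refine ⟨L - (η : ℂ), ⟨?_, ?_⟩, ?_⟩
          · rw [mem_ball]
            calc dist (L - (η : ℂ)) (axisPt x₀) ≤ dist (L - (η : ℂ)) L + dist L (axisPt x₀) :=
                  dist_triangle _ _ _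
              _ = η + dist L (axisPt x₀) := by
                  rw [dist_eq_norm]
                  have : L - (η : ℂ) - L = -(η : ℂ) := by ring
                  rw [this, norm_neg, Complex.norm_real, Real.norm_eq_abs, abs_of_pos hη0]
              _ < δ := by
                  have := min_le_right (ε / 2) ((δ - dist L (axisPt x₀)) / 2)
                  linarith
          · simp [hre, hη0]
          · rw [dist_eq_norm]
            have : L - (L - (η : ℂ)) = (η : ℂ) := by ring
            rw [this, Complex.norm_real, Real.norm_eq_abs, abs_of_pos hη0]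
            have := min_le_left (ε / 2) ((δ - dist L (axisPt x₀)) / 2)
            linarith
        exact (h.cont.continuousAt (isOpen_ball.mem_nhds (hsubR hL))).continuousWithinAt.mem_closure_image
          hLS
      · exact subset_closure hz
    · rintro z (rfl | hz)
      · refine ⟨h.left L (hsubR hL) hre.le, fun h0 => hne (hinj hL hcen h0)⟩
      · exact hWsub hz
  intro z hzM hzK hzr
  set Q := connectedComponentIn (M \ {r}) z with hQ
  have hzQ : z ∈ Q := mem_connectedComponentIn ⟨hzM, hzr⟩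
  -- it is enough that `Q` meets a connected set in `M \ {r}` containing `W`
  have hfin : ∀ V : Set ℂ, IsPreconnected V → V ⊆ M \ {r} → W ⊆ V → (Q ∩ V).Nonempty → W ⊆ Q := by
    intro V hV hVs hWV hne
    obtain ⟨w, hwQ, hwV⟩ := hne
    have h1 : V ⊆ connectedComponentIn (M \ {r}) w := hV.subset_connectedComponentIn hwV hVs
    have h2 : connectedComponentIn (M \ {r}) z = connectedComponentIn (M \ {r}) w :=
      connectedComponentIn_eq hwQ
    rw [hQ, h2]
    exact hWV.trans h1
  -- `r` is in the closure of `Q`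
  have hrQ : r ∈ closure Q := by
    have h1 := MLC34.closure_component_bumping hM hMc (isOpen_compl_singleton (x := r)) hzM
      (by simpa using hzr) (fun h0 => h0 hrM rfl)
    have h2 : M ∩ {r}ᶜ = M \ {r} := rfl
    rw [h2] at h1
    rw [not_subset] at h1
    obtain ⟨w, hw, hw2⟩ := h1
    have : w = r := by simpa using hw2
    rw [← this]; exact hw
  -- choose `δ'`
  set q : ℝ := (x₀.den : ℝ) with hq
  have hq0 : 0 < q := den_pos x₀
  obtain ⟨δ', hδ'0, hδ'δ, hδ'⟩ : ∃ δ' > 0, δ' ≤ δ ∧
      (A * q / (2 * Real.pi) + 1) * (Real.sqrt (A * δ') + δ') < δ := by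
    have hcont : ContinuousAt (fun t : ℝ => (A * q / (2 * Real.pi) + 1) * (Real.sqrt (A * t) + t))
        0 := by fun_prop
    have h0 : (A * q / (2 * Real.pi) + 1) * (Real.sqrt (A * 0) + 0) < δ := by simpa using hδ
    have hev := hcont.eventually (gt_mem_nhds h0)
    obtain ⟨ε, hε, hball⟩ := Metric.eventually_nhds_iff.1 hev
    refine ⟨min δ (ε / 2), lt_min hδ (by positivity), min_le_left _ _, ?_⟩
    apply hball
    rw [Real.dist_eq, sub_zero, abs_of_pos (lt_min hδ (by positivity))]
    exact (min_le_right _ _).trans_lt (by linarith)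
  -- a point of `Q` close to `r`
  have hnb : c '' ball (axisPt x₀) δ' ∈ 𝓝 r := h.opn _ hcenR _ (ball_mem_nhds _ hδ'0)
  obtain ⟨w, ⟨L, hL, rfl⟩, hwQ⟩ := mem_closure_iff_nhds.1 hrQ _ hnb
  have hLδ : L ∈ ball (axisPt x₀) δ := ball_subset_ball hδ'δ hL
  have hwM : c L ∈ M \ {r} := connectedComponentIn_subset _ _ hwQ
  have hLne : L ≠ axisPt x₀ := fun h0 => hwM.2 (by rw [h0]; rfl)
  rcases lt_trichotomy L.re 0 with hre | hre | hre
  · exact hfin W hWconn hWsub le_rfl ⟨c L, hwQ, L, ⟨hLδ, hre⟩, rfl⟩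
  · obtain ⟨h1, h2⟩ := hbd L hLδ hre hLne
    exact hfin _ h1 h2 (subset_insert _ _) ⟨c L, hwQ, Or.inl rfl⟩
  · obtain ⟨x, hx⟩ := h.T_ex L (hsubR hLδ) hre hwM.1
    by_cases hxx : x = x₀
    · -- then `Q` meets `K₀`, contradiction
      exfalso
      rw [hxx] at hx
      have hLK : c L ∈ K₀ := hKT L (ball_subset_ball hδδ₁ hLδ) hx
      have hQpre : IsPreconnected Q := isPreconnected_connectedComponentIn
      set O : Set ℂ := interior {w | w ∈ M → w ∈ K₀} with hO
      have hsub : Q ⊆ O ∪ (closure K₀)ᶜ := by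
        intro v hv
        have hv2 := connectedComponentIn_subset _ _ hv
        by_cases hvK : v ∈ K₀
        · exact Or.inl (mem_interior_iff_mem_nhds.2 (hKo v hvK))
        · refine Or.inr fun hvc => ?_
          rcases hKc v hv2.1 hvc with h3 | h3
          · exact hvK h3
          · exact hv2.2 h3
      obtain ⟨v, hvQ, hv1, hv2⟩ := hQpre O (closure K₀)ᶜ isOpen_interior
        isClosed_closure.isOpen_compl hsub
        ⟨c L, hwQ, mem_interior_iff_mem_nhds.2 (hKo _ hLK)⟩
        ⟨z, hzQ, fun hzc => by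
          rcases hKc z hzM hzc with h3 | h3
          · exact hzK h3
          · exact hzr h3⟩
      have hv3 := connectedComponentIn_subset _ _ hvQ
      exact hv2 (subset_closure (interior_subset hv1 hv3.1))
    · -- the limb piece of `x` is close to `r` and avoids `r`
      have hLre : L.re ≤ δ' := by
        have h1 := Complex.re_le_norm (L - axisPt x₀)
        rw [Complex.sub_re, axisPt_re, sub_zero] at h1
        have h2 : ‖L - axisPt x₀‖ < δ' := by rwa [mem_ball, dist_eq_norm] at hL
        linarith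
      have hxden := den_pos x
      have hxden1 : (1 : ℝ) ≤ x.den := by exact_mod_cast x.pos
      have hply : ‖L - axisPt x‖ ≤ Real.sqrt (A * δ') := by
        apply Real.le_sqrt_of_sq_le
        have h1 := h.ply L x hx
        have h2 : A / x.den ≤ A := div_le_self h.A_pos.le hxden1
        calc ‖L - axisPt x‖ ^ 2 ≤ A / x.den * L.re := h1
          _ ≤ A * δ' := mul_le_mul h2 hLre hre.le h.A_pos.le
      have hdist : 2 * Real.pi * |(x : ℝ) - x₀| ≤ Real.sqrt (A * δ') + δ' := by
        rw [← axisPt_sub]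
        have h1 : axisPt x - axisPt x₀ = -(L - axisPt x) + (L - axisPt x₀) := by ring
        rw [h1]
        have h2 : ‖L - axisPt x₀‖ < δ' := by rwa [mem_ball, dist_eq_norm] at hL
        calc ‖-(L - axisPt x) + (L - axisPt x₀)‖ ≤ ‖-(L - axisPt x)‖ + ‖L - axisPt x₀‖ :=
              norm_add_le _ _
          _ ≤ _ := by rw [norm_neg]; linarith
      have hAd : A / x.den ≤ A * q / (2 * Real.pi) * (Real.sqrt (A * δ') + δ') := by
        have h1 := rat_apart hxx
        have h2 : 1 / (x.den : ℝ) ≤ q * |(x : ℝ) - x₀| := by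
          have h3 : 1 / ((x.den : ℝ) * x₀.den) * x₀.den ≤ |(x : ℝ) - x₀| * x₀.den :=
            mul_le_mul_of_nonneg_right h1 hq0.le
          have h4 : 1 / ((x.den : ℝ) * x₀.den) * x₀.den = 1 / (x.den : ℝ) := by
            field_simp
          rw [h4] at h3
          calc 1 / (x.den : ℝ) ≤ |(x : ℝ) - x₀| * x₀.den := h3
            _ = q * |(x : ℝ) - x₀| := by rw [hq]; ring
        have h5 : |(x : ℝ) - x₀| ≤ (Real.sqrt (A * δ') + δ') / (2 * Real.pi) := by
          rw [le_div_iff₀ (by positivity)]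
          linarith
        calc A / x.den = A * (1 / x.den) := by ring
          _ ≤ A * (q * |(x : ℝ) - x₀|) := mul_le_mul_of_nonneg_left h2 h.A_pos.le
          _ ≤ A * (q * ((Real.sqrt (A * δ') + δ') / (2 * Real.pi))) := by
              have := h.A_pos.le
              gcongr
          _ = _ := by ring
      have hadm : Adm x₀ δ A x := by
        unfold Adm
        have : (A * q / (2 * Real.pi) + 1) * (Real.sqrt (A * δ') + δ') =
          A * q / (2 * Real.pi) * (Real.sqrt (A * δ') + δ') + (Real.sqrt (A * δ') + δ') := by ring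
        linarith
      have hadmR : Adm x₀ R A x := lt_of_lt_of_le hadm hδR
      have hPδ : P T x ⊆ ball (axisPt x₀) δ := h.P_sub_ball hadm
      have hrK : r ∉ K c T x := by
        rw [K_eq]
        rintro ⟨L', hL', h0⟩
        have h1 : L' = axisPt x₀ := hinj (hPδ hL') hcen h0
        rcases hL' with h2 | h2
        · have h3 : ‖axisPt x - axisPt x₀‖ = 0 := by rw [← h2, h1, sub_self, norm_zero]
          rw [axisPt_sub] at h3
          have h4 : |(x : ℝ) - x₀| = 0 := by
            rcases mul_eq_zero.1 h3 with h5 | h5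
            · exact absurd h5 (by positivity)
            · exact h5
          have h5 : (x : ℝ) = x₀ := by linarith [abs_eq_zero.1 h4]
          exact hxx (by exact_mod_cast h5)
        · have h3 := (h.T_dom L' x h2).1
          rw [h1, axisPt_re] at h3
          exact lt_irrefl _ h3
      have hKpre := h.K_conn hM.isClosed hMc hadmR
      have hxx' : axisPt x ≠ axisPt x₀ := by
        intro h0
        have h3 : ‖axisPt x - axisPt x₀‖ = 0 := by rw [h0, sub_self, norm_zero]
        rw [axisPt_sub] at h3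
        have h4 : |(x : ℝ) - x₀| = 0 := by
          rcases mul_eq_zero.1 h3 with h5 | h5
          · exact absurd h5 (by positivity)
          · exact h5
        have h5 : (x : ℝ) = x₀ := by linarith [abs_eq_zero.1 h4]
        exact hxx (by exact_mod_cast h5)
      obtain ⟨h1, h2⟩ := hbd (axisPt x) (hPδ (Or.inl rfl)) (axisPt_re x) hxx'
      refine hfin (K c T x ∪ insert (c (axisPt x)) W) ?_ ?_ ?_ ?_
      · exact IsPreconnected.union (c (axisPt x)) (Or.inl rfl) (Or.inl rfl) hKpre h1
      · refine union_subset (fun v hv => ⟨h.K_sub hadmR hv, fun h0 => hrK ?_⟩) h2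
        rw [mem_singleton_iff] at h0
        rw [← h0]; exact hv
      · exact (subset_insert _ _).trans subset_union_right
      · exact ⟨c L, hwQ, Or.inl (Or.inr ⟨L, hx, rfl⟩)⟩


end LimbData

namespace Cnt

open Complex Pool.Agent.Work.MLC.Sat

variable {D : Dat}

lemma rt_mem_MM (hP : D.Par) : rt D ∈ MM := by
  by_contra h
  have h1 := Sat.re_pos_of_ext hP (a_mem_B hP) h
  rw [Sat.a_re] at h1
  exact lt_irrefl _ h1

/-- the root pair is a limit of pairs with the label of the parent -/
lemma root_mem_closure (hP : D.Par) (hC : D.Cir) : (rt D, D.b D.a) ∈ closure (NJ D.m (JP D)) := by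
  have haB := a_mem_B hP
  have t1 : Tendsto (fun s : ℝ => D.a + (s : ℂ)) (𝓝[>] 0) (𝓝 D.a) := by
    have h6 : Continuous fun s : ℝ => D.a + (s : ℂ) := by fun_prop
    have h7 := h6.tendsto 0
    simp only [ofReal_zero, add_zero] at h7
    exact h7.mono_left nhdsWithin_le_nhds
  refine mem_closure_of_tendsto ((σ_contAt hP haB).tendsto.comp t1) ?_
  filter_upwards [t1.eventually (isOpen_B.mem_nhds haB), self_mem_nhdsWithin] with s h2 h3
  have hs : (0 : ℝ) < s := h3
  refine σ_mem_NJ hP hC h2 ?_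
  rw [add_re, Sat.a_re, ofReal_re, zero_add]; exact hs

lemma mul_root (hP : D.Par) : mul D.m (rt D, D.b D.a) = exp (axisPt D.x) :=
  (hP.sec D.a (a_mem_B hP)).2

lemma norm_mul_root (hP : D.Par) : ‖mul D.m (rt D, D.b D.a)‖ = 1 := by
  rw [mul_root hP, Complex.norm_exp]
  simp [axisPt]

lemma rt_notMem (hP : D.Par) (hC : D.Cir) : rt D ∉ Lm D := by
  rintro ⟨hM, b, hb, -⟩
  have hm := hP.m_pos
  have h1 := root_mem_closure hP hC
  have h2 := norm_mul_root hP
  have h3 : mul D.m (rt D, D.b D.a) ≠ 1 := by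
    rw [mul_root hP]; exact exp_axisPt_ne_one hP.x_pos hP.x_lt
  have h4 := closure_unique hm hM (ext_of_neutral hm (closure_per h1).1 h2) h1 (subset_closure hb)
    h3 (by
      intro h0
      have := hb.2.1
      rw [h0] at this
      simp at this)
  have h5 := hb.2.1
  rw [← h4, h2] at h5
  exact lt_irrefl _ h5

/-- the multipliers over the centre `0` -/
lemma mult_zero60 {n : ℕ} {b : ℂ} (hb : it 0 n b = b) (hb0 : b ≠ 0) : mul n (0, b) = 2 ^ n := by
  have hit : ∀ k, it 0 k b = b ^ 2 ^ k := by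
    intro k
    induction k with
    | zero => simp [it]
    | succ k ih =>
      rw [it_succ, ih, f_apply, add_zero, ← pow_mul, pow_succ]
  have hmul : ∀ k, mult k 0 b * b = 2 ^ k * b ^ 2 ^ k := by
    intro k
    induction k with
    | zero => simp [mult]
    | succ k ih =>
      have : mult (k + 1) 0 b = mult k 0 b * (2 * it 0 k b) := by
        simp [mult, Finset.prod_range_succ]
      rw [this, hit]
      calc mult k 0 b * (2 * b ^ 2 ^ k) * b = (mult k 0 b * b) * (2 * b ^ 2 ^ k) := by ring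
        _ = 2 ^ (k + 1) * b ^ 2 ^ (k + 1) := by rw [ih, pow_succ 2 k, pow_succ 2 k]; ring
  have h1 := hmul n
  have h2 : b ^ 2 ^ n = b := by rw [← hit, hb]
  rw [h2] at h1
  exact mul_right_cancel₀ hb0 h1

lemma zero_ne_rt (hP : D.Par) : (0 : ℂ) ≠ rt D := by
  intro h
  have hm := hP.m_pos
  have h1 := norm_mul_root hP
  have h2 : it (rt D) D.m (D.b D.a) = D.b D.a := (hP.sec D.a (a_mem_B hP)).1
  rw [← h] at h1 h2
  by_cases hb : D.b D.a = 0
  · rw [hb] at h1
    have h3 : mul D.m (0, 0) = 0 := by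
      unfold mul
      exact Finset.prod_eq_zero (Finset.mem_range.2 hm) (by simp)
    rw [h3] at h1
    simp at h1
  · rw [mult_zero60 h2 hb, norm_pow] at h1
    have h3 : (2 : ℝ) ≤ 2 ^ D.m := by
      calc (2 : ℝ) = 2 ^ 1 := (pow_one _).symm
        _ ≤ 2 ^ D.m := pow_le_pow_right₀ (by norm_num) hm
    simp at h1
    linarith

lemma zero_notMem (hP : D.Par) (hC : D.Cir) : (0 : ℂ) ∉ Lm D := by
  rintro ⟨hM, b, hb, hl⟩
  have hm := hP.m_pos
  have hM0 : G 0 0 = 0 := G_zero_of_mem hM
  have hm1 : (1 : ℝ) ≤ D.m := by exact_mod_cast hm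
  have hρ : 1 < ‖mult D.m 0 b‖ := hb.2.1
  have hfix : it 0 D.m b = b := hb.1
  have hb0 : b ≠ 0 := by
    rintro rfl
    have h3 : mul D.m (0, 0) = 0 := by
      unfold mul
      exact Finset.prod_eq_zero (Finset.mem_range.2 hm) (by simp)
    have h4 := hb.2.1
    rw [h3] at h4
    simp at h4
    linarith
  have hlog0 : 0 < Real.log 2 := Real.log_pos (by norm_num)
  have h1 : mul D.m (0, b) = exp (((D.m * Real.log 2 : ℝ) : ℂ)) := by
    rw [mult_zero60 hfix hb0, ← Complex.ofReal_exp, Real.exp_nat_mul, Real.exp_log (by norm_num)]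
    push_cast; rfl
  have h2 := two_le_den hP.x_pos hP.x_lt
  have hE := ex_of_land hP hC hM0 hl 0
  rw [it_zero] at hE
  obtain ⟨p, h3, h4⟩ := hE.ply hm h2 hM hb.1 h1 (by rw [ofReal_re]; positivity)
  obtain ⟨β, hβ⟩ := H24.land_of_rotT hm h3
  have h5 := (hE.all hm h2 hM0 hfix hρ hβ).1
  set y : ℚ := (p : ℚ) / (D.x.den : ℚ) with hy
  have hq : (2 : ℝ) ≤ D.x.den := by exact_mod_cast h2
  -- the imaginary part of the axis point vanishes
  have h6 : (2 * Real.pi * (y : ℝ)) ^ 2 ≤ 0 := by
    have h7 : ((D.m * Real.log 2 : ℝ) : ℂ) - axisPt y =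
        ((D.m * Real.log 2 : ℝ) : ℂ) + ((-(2 * Real.pi * (y : ℝ)) : ℝ) : ℂ) * I := by
      unfold axisPt; push_cast; ring
    rw [h7, ← Complex.normSq_eq_norm_sq, Complex.normSq_add_mul_I, ofReal_re] at h4
    have h8 : 2 * (D.m : ℝ) * Real.log 2 / D.x.den * (D.m * Real.log 2) ≤
        (D.m * Real.log 2) ^ 2 := by
      have h9 : 2 * (D.m : ℝ) * Real.log 2 / D.x.den ≤ D.m * Real.log 2 := by
        rw [div_le_iff₀ (by linarith)]
        have h10 : 0 < (D.m : ℝ) * Real.log 2 := by positivity
        nlinarith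
      have h10 : 0 < (D.m : ℝ) * Real.log 2 := by positivity
      calc 2 * (D.m : ℝ) * Real.log 2 / D.x.den * (D.m * Real.log 2)
          ≤ D.m * Real.log 2 * (D.m * Real.log 2) := mul_le_mul_of_nonneg_right h9 h10.le
        _ = _ := by ring
    nlinarith
  have h7 : (y : ℝ) = 0 := by
    have h8 : (2 * Real.pi * (y : ℝ)) = 0 := by
      have := sq_nonneg (2 * Real.pi * (y : ℝ))
      exact pow_eq_zero_iff two_ne_zero |>.1 (le_antisymm h6 this)
    rcases mul_eq_zero.1 h8 with h9 | h9
    · exact absurd h9 (by positivity)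
    · exact h9
  have h8 : y = 0 := by exact_mod_cast h7
  rw [h8] at h5
  have h9 : (0 : ℚ).den = 1 := rfl
  omega

/-- limb data of the parent -/
lemma limbData_par (hP : D.Par) : LimbData MM D.x (gR D.m D.x) (2 * D.m * Real.log 2)
    (fun L => (D.σ L).1) (fun L x => L ∈ ball (axisPt D.x) (gR D.m D.x) ∧
      Tr.RotT D.m (D.σ L).1 (D.σ L).2 L x) := by
  have hm0 : (0 : ℝ) < D.m := by exact_mod_cast hP.m_pos
  have hlog0 : 0 < Real.log 2 := Real.log_pos (by norm_num)
  exact limbData_of_section ((sR_pos hP).trans_le (sR_le_gR hP)) (by positivity)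
    (goodDom34 hP.m_pos hP.x_pos hP.x_lt) hP.cont hP.sec (Tr.rotData hP.m_pos)
    fun x hx hM => rep13 hP.m_pos hx hM

theorem n6_sep : N6_sep := by
  intro D hP hC
  have hm := hP.m_pos
  have hrM := rt_mem_MM hP
  have hcl : ∀ z ∈ MM, z ∈ closure (Lm D) → z ∈ Lm D ∨ z = rt D := fun z hz h =>
    n5_closed D hP hC z hz (closure_mono subset_union_left h)
  have hop : ∀ z ∈ Lm D, ∀ᶠ w in 𝓝 z, w ∈ MM → w ∈ Lm D := fun z hz =>
    (n5_open D hP hC z hz).mono fun w hw => hw.1
  have h0 : (0 : ℂ) ∈ MM \ {rt D} := ⟨zero_mem_MM, zero_ne_rt hP⟩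
  obtain ⟨δ, hδ, -, hδ'⟩ := (limbData_par hP).main_gen isCompact_MM isPreconnected_MM hop hcl
    (sR_pos hP) (by
      rintro L hL ⟨-, hT⟩
      have hLU : L ∈ D.U := by
        refine ⟨hL, ?_⟩
        rintro rfl
        have := hT.1
        rw [Sat.a_re] at this
        exact lt_irrefl _ this
      obtain ⟨-, hre, ⟨θ, hθ, -⟩ | ⟨h1, h2⟩⟩ := H24.mem_RI_of_rotT s5_land hP hC
        (regions_all D hP hC) hLU hT
      · exact absurd hT.2.1 (Th_ext hθ)
      · exact ⟨h1, D.b L, σ_mem_NJ hP hC (U_sub_B hP hLU) hre, h2⟩)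
  ext z
  constructor
  · rintro ⟨hz, hzr, hzc⟩
    by_contra hzL
    apply hzc
    have h1 := hδ' z hz hzL hzr
    have h2 := hδ' 0 zero_mem_MM (zero_notMem hP hC) (zero_ne_rt hP)
    obtain ⟨L, hL⟩ := LimbData.left_nonempty D.x hδ
    have h3 := connectedComponentIn_eq (h1 ⟨L, hL, rfl⟩)
    have h4 := connectedComponentIn_eq (h2 ⟨L, hL, rfl⟩)
    show z ∈ connectedComponentIn (MM \ {rt D}) 0
    have h5 : z ∈ connectedComponentIn (MM \ {rt D}) z := mem_connectedComponentIn ⟨hz, hzr⟩
    have h6 : connectedComponentIn (MM \ {rt D}) z = connectedComponentIn (MM \ {rt D}) 0 :=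
      h3.trans h4.symm
    rwa [h6] at h5
  · intro hz
    refine ⟨hz.1, fun h1 => rt_notMem hP hC (h1 ▸ hz), fun hzc => ?_⟩
    set Q := connectedComponentIn (MM \ {rt D}) 0 with hQ
    have hQpre : IsPreconnected Q := isPreconnected_connectedComponentIn
    set O : Set ℂ := interior {w | w ∈ MM → w ∈ Lm D} with hO
    have hsub : Q ⊆ O ∪ (closure (Lm D))ᶜ := by
      intro v hv
      have hv2 := connectedComponentIn_subset _ _ hv
      by_cases hvK : v ∈ Lm D
      · exact Or.inl (mem_interior_iff_mem_nhds.2 (hop v hvK))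
      · refine Or.inr fun hvc => ?_
        rcases hcl v hv2.1 hvc with h3 | h3
        · exact hvK h3
        · exact hv2.2 h3
    obtain ⟨v, hvQ, hv1, hv2⟩ := hQpre O (closure (Lm D))ᶜ isOpen_interior
      isClosed_closure.isOpen_compl hsub
      ⟨z, hzc, mem_interior_iff_mem_nhds.2 (hop _ hz)⟩
      ⟨0, mem_connectedComponentIn h0, fun hzc => by
        rcases hcl 0 zero_mem_MM hzc with h3 | h3
        · exact zero_notMem hP hC h3
        · exact zero_ne_rt hP h3⟩
    have hv3 := connectedComponentIn_subset _ _ hvQ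
    exact hv2 (subset_closure (interior_subset hv1 hv3.1))

end Cnt

end Pool.Agent.Work.MLC
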