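import Pool.Agent.Work.MLC.CntX26
import Pool.Agent.Work.MLC.CntG3_70

set_option autoImplicit false

/-! # Theorem F, module G3 in the form of helper26 (helper70) -/

namespace Pool.Agent.Work.MLC.Cnt

/-- **G3** -/
theorem g3_sep26 : G3_sep := fun _ _ hP₁ hC₁ hP₂ hC₂ hm hx hne => by
  obtain ⟨D', h1, h2, h3, -, h4, h5⟩ := g3_sep hP₁ hC₁ hP₂ hC₂ hm hx hne
  exact ⟨D', h1, h2, h3.le, h4, h5⟩

end Pool.Agent.Work.MLC.Cnt
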