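import Pool.Agent.Work.MLC.Cnt0
import Pool.Agent.Work.MLC.Sat8_69

set_option autoImplicit false

/-! # Finiteness of the roots of level `N` (helper57), module G0 -/

namespace Pool.Agent.Work.MLC.Cnt

open Filter Topology Metric Set Complex
open Pool.Agent.Work.MLC.Sat

/-- the data of level `N` -/
def InLev (N : ℕ) (D : Dat) : Prop := D.Par ∧ D.Cir ∧ D.m ≤ N ∧ D.x.den ≤ N

/-- the root has a point of period `m` and multiplier `exp (2 π i x)` -/
lemma rt_mem {D : Dat} (hP : D.Par) : D.σ D.a ∈ {y | y ∈ Per D.m ∧ mul D.m y = exp (axisPt D.x)} := by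
  have hB : D.a ∈ D.B := by
    have h0 : (0 : ℝ) < D.x := by exact_mod_cast hP.x_pos
    have h1 : (D.x : ℝ) < 1 := by exact_mod_cast hP.x_lt
    have hm : (0 : ℝ) < D.m := by exact_mod_cast hP.m_pos
    have h2 : 0 < min (D.x : ℝ) (1 - D.x) := lt_min h0 (by linarith)
    refine mem_ball_self ?_
    unfold gR
    positivity
  exact hP.sec _ hB

/-- the fractions of bounded denominator -/
lemma finite_rat (N : ℕ) : {x : ℚ | 0 < x ∧ x < 1 ∧ x.den ≤ N}.Finite := by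
  have h1 : ((Icc (0 : ℤ) N) ×ˢ (Icc (0 : ℕ) N)).Finite :=
    (Set.finite_Icc _ _).prod (Set.finite_Icc _ _)
  refine (h1.image fun y : ℤ × ℕ => ((y.1 : ℚ) / y.2)).subset ?_
  rintro x ⟨h0, hx1, hx2⟩
  refine ⟨(x.num, x.den), ⟨⟨(Rat.num_pos.2 h0).le, ?_⟩, Nat.zero_le _, hx2⟩, x.num_div_den⟩
  have h3 : x.num < x.den := by
    have := Rat.num_div_den x
    have h4 : (0 : ℚ) < x.den := by exact_mod_cast x.pos
    rw [← this, div_lt_one h4] at hx1
    exact_mod_cast hx1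
  have h4 : (x.den : ℤ) ≤ N := by exact_mod_cast hx2
  exact (h3.le.trans h4)

/-- **the roots of level `N` are finitely many** -/
theorem finite_roots (N : ℕ) : {r : ℂ | ∃ D, InLev N D ∧ rt D = r}.Finite := by
  have h1 : (⋃ m ∈ Icc 1 N, ⋃ x ∈ {x : ℚ | 0 < x ∧ x < 1 ∧ x.den ≤ N},
      Prod.fst '' {y | y ∈ Per m ∧ mul m y = exp (axisPt x)}).Finite := by
    refine (Set.finite_Icc 1 N).biUnion fun m hm => (finite_rat N).biUnion fun x _ => ?_
    exact (finite_mul hm.1 _).image _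
  refine h1.subset ?_
  rintro r ⟨D, ⟨hP, -, hm, hx⟩, rfl⟩
  refine mem_biUnion (x := D.m) ⟨hP.m_pos, hm⟩ (mem_biUnion (x := D.x) ⟨hP.x_pos, hP.x_lt, hx⟩ ?_)
  exact ⟨D.σ D.a, rt_mem hP, rfl⟩

/-- **G0**: the complete list of level `N`, one datum per root -/
theorem exists_lev (N : ℕ) : ∃ (ι : Type) (_ : Fintype ι) (D : ι → Dat), (∀ i, InLev N (D i)) ∧
    (∀ i j, rt (D i) = rt (D j) → i = j) ∧ ∀ D', InLev N D' → ∃ i, rt (D i) = rt D' := by
  classical
  have hf := finite_roots N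
  refine ⟨hf.toFinset, inferInstance, fun r => (hf.mem_toFinset.1 r.2).choose, fun r => ?_,
    fun r s h => ?_, fun D' h => ?_⟩
  · exact (hf.mem_toFinset.1 r.2).choose_spec.1
  · have h1 := (hf.mem_toFinset.1 r.2).choose_spec.2
    have h2 := (hf.mem_toFinset.1 s.2).choose_spec.2
    exact Subtype.ext (h1.symm.trans (h.trans h2))
  · have h1 : rt D' ∈ hf.toFinset := hf.mem_toFinset.2 ⟨D', h, rfl⟩
    exact ⟨⟨rt D', h1⟩, (hf.mem_toFinset.1 h1).choose_spec.2⟩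

/-- the data of level `m ≤ N`, `m q ≤ 3 N` -/
def InLev3 (N : ℕ) (D : Dat) : Prop := D.Par ∧ D.Cir ∧ D.m ≤ N ∧ D.m * D.x.den ≤ 3 * N

lemma InLev3.inLev {N : ℕ} {D : Dat} (h : InLev3 N D) : InLev (3 * N) D := by
  obtain ⟨hP, hC, h1, h2⟩ := h
  refine ⟨hP, hC, by omega, ?_⟩
  have h3 := hP.m_pos
  calc D.x.den = 1 * D.x.den := (one_mul _).symm
    _ ≤ D.m * D.x.den := Nat.mul_le_mul_right _ h3
    _ ≤ 3 * N := h2

/-- **G0** for any family of data of bounded level -/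
theorem exists_list (N : ℕ) (S : Dat → Prop) (hS : ∀ D, S D → InLev N D) :
    ∃ (ι : Type) (_ : Fintype ι) (D : ι → Dat), (∀ i, S (D i)) ∧
      (∀ i j, rt (D i) = rt (D j) → i = j) ∧ ∀ D', S D' → ∃ i, rt (D i) = rt D' := by
  classical
  have hf : {r : ℂ | ∃ D, S D ∧ rt D = r}.Finite :=
    (finite_roots N).subset fun r ⟨D, h, hr⟩ => ⟨D, hS D h, hr⟩
  refine ⟨hf.toFinset, inferInstance, fun r => (hf.mem_toFinset.1 r.2).choose, fun r => ?_,
    fun r s h => ?_, fun D' h => ?_⟩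
  · exact (hf.mem_toFinset.1 r.2).choose_spec.1
  · have h1 := (hf.mem_toFinset.1 r.2).choose_spec.2
    have h2 := (hf.mem_toFinset.1 s.2).choose_spec.2
    exact Subtype.ext (h1.symm.trans (h.trans h2))
  · have h1 : rt D' ∈ hf.toFinset := hf.mem_toFinset.2 ⟨D', h, rfl⟩
    exact ⟨⟨rt D', h1⟩, (hf.mem_toFinset.1 h1).choose_spec.2⟩

/-- **G0** for the level `m ≤ N`, `m q ≤ 3 N` -/
theorem exists_lev3 (N : ℕ) : ∃ (ι : Type) (_ : Fintype ι) (D : ι → Dat),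
    (∀ i, InLev3 N (D i)) ∧ (∀ i j, rt (D i) = rt (D j) → i = j) ∧
      ∀ D', InLev3 N D' → ∃ i, rt (D i) = rt D' :=
  exists_list (3 * N) (InLev3 N) fun _ h => h.inLev

end Pool.Agent.Work.MLC.Cnt
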