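import Pool.Agent.Work.MLC.CntD72

set_option autoImplicit false

/-! # Theorem E, module E4: null sets of the logarithmic gauge `(log (1 / l)) ^ (-B)` -/

namespace Pool.Agent.Work.MLC.Cnt

open Filter Topology Set MeasureTheory Metric
open scoped ENNReal NNReal

/-- `E` is null for the gauge `(log (1 / l)) ^ (-B)`: for every `ε > 0` it is covered by countably
many intervals of lengths `exp (-y i)`, `y i > 0`, with `∑ 1 / (y i) ^ B < ε` -/
def LogNull (B : ℕ) (E : Set ℝ) : Prop :=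
  ∀ ε : ℝ, 0 < ε → ∃ x y : ℕ → ℝ, (∀ i, 0 < y i) ∧ (Summable fun i => 1 / y i ^ B) ∧
    ∑' i, 1 / y i ^ B < ε ∧ ∀ θ ∈ E, ∃ i, x i ≤ θ ∧ θ ≤ x i + Real.exp (-y i)

theorem conv_sum {κ : Type*} (f : κ → ℝ) (hf : ∀ i, 0 ≤ f i) (ε : ℝ) :
    (Summable f ∧ ∑' i, f i < ε) ↔ ∑' i, ENNReal.ofReal (f i) < ENNReal.ofReal ε := by
  constructor
  · rintro ⟨h1, h2⟩
    rw [← ENNReal.ofReal_tsum_of_nonneg hf h1]
    exact (ENNReal.ofReal_lt_ofReal_iff_of_nonneg (tsum_nonneg hf)).2 h2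
  · intro h
    have h1 : Summable f := by
      have := ENNReal.summable_toReal (ne_top_of_lt h)
      refine this.congr fun i => ?_
      rw [ENNReal.toReal_ofReal (hf i)]
    refine ⟨h1, ?_⟩
    rw [← ENNReal.ofReal_tsum_of_nonneg hf h1] at h
    exact (ENNReal.ofReal_lt_ofReal_iff_of_nonneg (tsum_nonneg hf)).1 h

/-- it is enough to find covers with any countable index type -/
theorem logNull_of {B : ℕ} (hB : 1 ≤ B) {E : Set ℝ}
    (h : ∀ ε : ℝ, 0 < ε → ∃ (κ : Type) (_ : Countable κ) (x y : κ → ℝ), (∀ i, 0 < y i) ∧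
      ∑' i, ENNReal.ofReal (1 / y i ^ B) ≤ ENNReal.ofReal ε ∧
      ∀ θ ∈ E, ∃ i, x i ≤ θ ∧ θ ≤ x i + Real.exp (-y i)) : LogNull B E := by
  intro ε hε
  set δ : ℝ := min ε 1 with hδ
  have hδ0 : 0 < δ := lt_min hε one_pos
  have hδ1 : δ ≤ 1 := min_le_right _ _
  have hδε : δ ≤ ε := min_le_left _ _
  obtain ⟨κ, hκ, x, y, hy, hs, hc⟩ := h (δ / 4) (by positivity)
  let x' : κ ⊕ ℕ → ℝ := Sum.elim x (fun _ => 0)
  let y' : κ ⊕ ℕ → ℝ := Sum.elim y (fun n => 4 * 2 ^ n / δ)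
  have hy' : ∀ i, 0 < y' i := by
    rintro (i | i)
    · exact hy i
    · simp only [y', Sum.elim_inr]
      positivity
  have hs' : ∑' i, ENNReal.ofReal (1 / y' i ^ B) < ENNReal.ofReal ε := by
    rw [ENNReal.summable.tsum_sum ENNReal.summable]
    have h1 : ∑' n : ℕ, ENNReal.ofReal (1 / y' (Sum.inr n) ^ B) ≤ ENNReal.ofReal (δ / 2) := by
      have h2 : ∀ n : ℕ, ENNReal.ofReal (1 / y' (Sum.inr n) ^ B) ≤
          ENNReal.ofReal (δ / 2 / 2 / 2 ^ n) := by
        intro n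
        refine ENNReal.ofReal_le_ofReal ?_
        simp only [y', Sum.elim_inr]
        have h3 : (1 : ℝ) ≤ 4 * 2 ^ n / δ := by
          rw [le_div_iff₀ hδ0]
          have : (1 : ℝ) ≤ 2 ^ n := one_le_pow₀ (by norm_num)
          linarith
        calc 1 / (4 * 2 ^ n / δ) ^ B ≤ 1 / (4 * 2 ^ n / δ) ^ 1 :=
              one_div_le_one_div_of_le (by positivity) (pow_le_pow_right₀ h3 hB)
          _ = δ / 2 / 2 / 2 ^ n := by
              rw [pow_one]
              field_simp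
              norm_num
      refine (ENNReal.tsum_le_tsum h2).trans (le_of_eq ?_)
      rw [← ENNReal.ofReal_tsum_of_nonneg (fun n => by positivity) (summable_geometric_two' _),
        tsum_geometric_two']
    calc _ ≤ ENNReal.ofReal (δ / 4) + ENNReal.ofReal (δ / 2) := add_le_add hs h1
      _ = ENNReal.ofReal (δ / 4 + δ / 2) := (ENNReal.ofReal_add (by positivity) (by positivity)).symm
      _ < ENNReal.ofReal ε := (ENNReal.ofReal_lt_ofReal_iff hε).2 (by linarith)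
  obtain ⟨e⟩ : Nonempty (ℕ ≃ κ ⊕ ℕ) := nonempty_equiv_of_countable
  have h3 := (conv_sum (fun i => 1 / y' i ^ B) (fun i => by have := hy' i; positivity) ε).2 hs'
  refine ⟨x' ∘ e, y' ∘ e, fun i => hy' _, ?_, ?_, ?_⟩
  · exact (e.summable_iff (f := fun i => 1 / y' i ^ B)).2 h3.1
  · have := e.tsum_eq (fun i => 1 / y' i ^ B)
    simp only [Function.comp]
    rw [this]
    exact h3.2
  · intro θ hθ
    obtain ⟨i, hi⟩ := hc θ hθ
    refine ⟨e.symm (Sum.inl i), ?_⟩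
    simpa [x', y'] using hi

theorem LogNull.mono {B : ℕ} {E F : Set ℝ} (h : LogNull B F) (hEF : E ⊆ F) : LogNull B E := by
  intro ε hε
  obtain ⟨x, y, h1, h2, h3, h4⟩ := h ε hε
  exact ⟨x, y, h1, h2, h3, fun θ hθ => h4 θ (hEF hθ)⟩

/-- translates -/
theorem LogNull.shift {B : ℕ} {E : Set ℝ} (h : LogNull B E) (a : ℝ) :
    LogNull B {θ | θ + a ∈ E} := by
  intro ε hε
  obtain ⟨x, y, h1, h2, h3, h4⟩ := h ε hε
  refine ⟨fun i => x i - a, y, h1, h2, h3, fun θ hθ => ?_⟩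
  obtain ⟨i, hi1, hi2⟩ := h4 _ hθ
  exact ⟨i, by simp only; linarith, by simp only; linarith⟩

/-- countable unions -/
theorem LogNull.iUnion {B : ℕ} (hB : 1 ≤ B) {ι : Type} [Countable ι] {E : ι → Set ℝ}
    (h : ∀ i, LogNull B (E i)) : LogNull B (⋃ i, E i) := by
  refine logNull_of hB fun ε hε => ?_
  obtain ⟨ε', hε', hsum⟩ := ENNReal.exists_pos_sum_of_countable'
    (ENNReal.ofReal_pos.2 hε).ne' ι
  choose x y h1 h2 h3 h4 using fun i => h i (min (ε' i) 1).toReal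
    (ENNReal.toReal_pos (ne_of_gt (lt_min (hε' i) one_pos))
      (ne_top_of_le_ne_top ENNReal.one_ne_top (min_le_right _ _)))
  refine ⟨Σ _ : ι, ℕ, inferInstance, fun p => x p.1 p.2, fun p => y p.1 p.2, fun p => h1 _ _,
    ?_, ?_⟩
  · rw [ENNReal.tsum_sigma' (fun p : Σ _ : ι, ℕ => ENNReal.ofReal (1 / y p.1 p.2 ^ B))]
    refine (ENNReal.tsum_le_tsum fun i => ?_).trans hsum.le
    have := (conv_sum (fun n => 1 / y i n ^ B) (fun n => by have := h1 i n; positivity) _).1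
      ⟨h2 i, h3 i⟩
    refine this.le.trans ?_
    rw [ENNReal.ofReal_toReal (ne_top_of_le_ne_top ENNReal.one_ne_top (min_le_right _ _))]
    exact min_le_left _ _
  · intro θ hθ
    obtain ⟨i, hi⟩ := mem_iUnion.1 hθ
    obtain ⟨n, hn⟩ := h4 i θ hi
    exact ⟨⟨i, n⟩, hn⟩

/-- Borel-Cantelli for the gauge -/
theorem logNull_inf {B : ℕ} (hB : 1 ≤ B) {ι : Type} [Countable ι] (s t w : ι → ℝ)
    (hw : ∀ i, 0 < w i) (hst : ∀ i, t i - s i ≤ Real.exp (-w i))
    (h : Summable fun i => 1 / w i ^ B) : LogNull B (Inf fun i => Icc (s i) (t i)) := by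
  refine logNull_of hB fun ε hε => ?_
  have h0 : ∑' i, ENNReal.ofReal (1 / w i ^ B) ≠ ∞ := by
    rw [← ENNReal.ofReal_tsum_of_nonneg (fun i => by have := hw i; positivity) h]
    exact ENNReal.ofReal_ne_top
  obtain ⟨F, hF⟩ := ((tendsto_order.1 (ENNReal.tendsto_tsum_compl_atTop_zero h0)).2 _
    (ENNReal.ofReal_pos.2 hε)).exists
  refine ⟨{i // i ∉ F}, inferInstance, fun i => s i, fun i => w i, fun i => hw i, hF.le, ?_⟩
  intro θ hθ
  obtain ⟨i, hi, hiF⟩ := (Set.Infinite.sdiff hθ F.finite_toSet).nonempty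
  refine ⟨⟨i, by simpa using hiF⟩, hi.1, ?_⟩
  have h1 := hst i
  have h2 := hi.2
  simp only
  linarith

/-- arcs mod `1` -/
theorem logNull_arcs {B : ℕ} (hB : 1 ≤ B) {ι : Type} [Countable ι] (s t w : ι → ℝ)
    (hw : ∀ i, 0 < w i) (hst : ∀ i, t i - s i ≤ Real.exp (-w i))
    (h : Summable fun i => 1 / w i ^ B) :
    LogNull B {θ : ℝ | {i | ∃ k : ℤ, s i ≤ θ + k ∧ θ + k ≤ t i}.Infinite} := by
  have h0 := logNull_inf hB (fun i => s i - ⌊s i⌋) (fun i => t i - ⌊s i⌋) w hw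
    (fun i => by simpa only [sub_sub_sub_cancel_right] using hst i) h
  refine (LogNull.iUnion hB fun k : ℤ => h0.shift (k : ℝ)).mono ?_
  intro θ hθ
  by_contra hn
  simp only [mem_iUnion, not_exists, Inf, mem_ofPred_eq, Set.not_infinite] at hn
  apply hθ
  refine ((Set.finite_Icc ⌈-θ⌉ ⌊2 - θ⌋).biUnion (fun k _ => hn k)).subset ?_
  rintro i ⟨k, hk1, hk2⟩
  have hf1 := Int.floor_le (s i)
  have hf2 := Int.lt_floor_add_one (s i)
  have h3 : Real.exp (-w i) ≤ 1 := Real.exp_le_one_iff.2 (by have := hw i; linarith)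
  have h4 := hst i
  simp only [mem_iUnion, mem_ofPred_eq, exists_prop]
  refine ⟨k - ⌊s i⌋, ⟨Int.ceil_le.2 ?_, Int.le_floor.2 ?_⟩, ?_⟩
  · push_cast
    linarith
  · push_cast
    linarith
  · simp only [mem_Icc]
    push_cast
    constructor <;> linarith

/-- the arcs of the types `(n, q)`, `q ≥ 3`, at most `C (n q) ^ a` of each type, with lengths at
most `2 ^ (-n (q - 2))`: the angles in infinitely many of them form a null set for the gauge
`(log (1 / l)) ^ (-(a + 2))` -/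
theorem logNull_types {α : Type} (G : ℕ → ℕ → Set α) (s t : α → ℝ) (C : ℝ) (a : ℕ)
    (hG : ∀ n q, 1 ≤ n → 3 ≤ q → (G n q).Finite ∧ ((G n q).ncard : ℝ) ≤ C * ((n : ℝ) * q) ^ a)
    (hl : ∀ n q, 1 ≤ n → 3 ≤ q → ∀ x ∈ G n q, t x - s x ≤ (1 / 2 : ℝ) ^ (n * (q - 2))) :
    LogNull (a + 2) {θ : ℝ | ∀ N : ℕ, ∃ n q x, N ≤ n * q ∧ 1 ≤ n ∧ 3 ≤ q ∧ x ∈ G n q ∧
      ∃ k : ℤ, s x ≤ θ + k ∧ θ + k ≤ t x} := by
  classical
  let H : ℕ × ℕ → Set α := fun p => {x | 1 ≤ p.1 ∧ 3 ≤ p.2 ∧ x ∈ G p.1 p.2}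
  have hHf : ∀ p, (H p).Finite := fun p => by
    by_cases hp : 1 ≤ p.1 ∧ 3 ≤ p.2
    · exact (hG p.1 p.2 hp.1 hp.2).1.subset fun x hx => hx.2.2
    · have : H p = ∅ := by
        ext x
        simp only [H, mem_ofPred_eq, mem_empty_iff_false, iff_false]
        exact fun h => hp ⟨h.1, h.2.1⟩
      rw [this]
      exact finite_empty
  have : ∀ p, Finite (H p) := fun p => (hHf p).to_subtype
  have : ∀ p, Fintype (H p) := fun p => Fintype.ofFinite _
  have hlog : 0 < Real.log 2 := Real.log_pos (by norm_num)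
  have key := logNull_arcs (B := a + 2) (by omega) (ι := Σ p : ℕ × ℕ, H p)
    (fun i => s i.2) (fun i => t i.2) (fun i => Real.log 2 * (i.1.1 * (i.1.2 - 2) : ℕ))
    (by
      rintro ⟨⟨n, q⟩, ⟨x, h1, h3, hx⟩⟩
      have h4 : 0 < n * (q - 2) := Nat.mul_pos h1 (by simp only at h3; omega)
      have h5 : (0 : ℝ) < ((n * (q - 2) : ℕ) : ℝ) := by exact_mod_cast h4
      positivity)
    (by
      rintro ⟨⟨n, q⟩, ⟨x, h1, h3, hx⟩⟩
      refine (hl n q h1 h3 x hx).trans (le_of_eq ?_)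
      simp only
      rw [← neg_mul, mul_comm (-Real.log 2), Real.exp_nat_mul, Real.exp_neg,
        Real.exp_log (by norm_num), one_div])
    (by
      rw [summable_sigma_of_nonneg (fun i => by positivity)]
      refine ⟨fun p => Summable.of_finite, ?_⟩
      have h2 : Summable fun n : ℕ => 1 / (n : ℝ) ^ 2 :=
        Real.summable_one_div_nat_pow.2 (by norm_num)
      have h3 := ((h2.mul_of_nonneg h2 (fun n => by positivity) (fun n => by positivity)).mul_left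
        (|C| * (3 / Real.log 2) ^ (a + 2)))
      refine Summable.of_nonneg_of_le (fun p => tsum_nonneg fun x => by positivity) ?_ h3
      rintro ⟨n, q⟩
      by_cases hp : 1 ≤ n ∧ 3 ≤ q
      · obtain ⟨hn, hq⟩ := hp
        simp only
        rw [tsum_fintype, Finset.sum_const, Finset.card_univ, nsmul_eq_mul]
        have hc : ((Fintype.card (H (n, q)) : ℕ) : ℝ) ≤ |C| * ((n : ℝ) * q) ^ a := by
          have h7 : Fintype.card (H (n, q)) ≤ (G n q).ncard := by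
            rw [← Nat.card_eq_fintype_card, Nat.card_coe_set_eq]
            exact Set.ncard_le_ncard (fun x hx => hx.2.2) (hG n q hn hq).1
          calc ((Fintype.card (H (n, q)) : ℕ) : ℝ) ≤ ((G n q).ncard : ℝ) := by exact_mod_cast h7
            _ ≤ C * ((n : ℝ) * q) ^ a := (hG n q hn hq).2
            _ ≤ |C| * ((n : ℝ) * q) ^ a :=
                mul_le_mul_of_nonneg_right (le_abs_self C) (by positivity)
        have hn0 : (0 : ℝ) < n := by exact_mod_cast hn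
        have hq0 : (0 : ℝ) < q := by exact_mod_cast (by omega : 0 < q)
        have hq3 : (q : ℝ) / 3 ≤ ((q - 2 : ℕ) : ℝ) := by
          rw [Nat.cast_sub (by omega)]
          have : (3 : ℝ) ≤ q := by exact_mod_cast hq
          push_cast
          linarith
        have hw : Real.log 2 / 3 * (n * q) ≤ Real.log 2 * ((n * (q - 2) : ℕ) : ℝ) := by
          rw [Nat.cast_mul]
          calc Real.log 2 / 3 * (n * q) = Real.log 2 * (n * (q / 3)) := by ring
            _ ≤ _ := by gcongr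
        have hw2 : 1 / (Real.log 2 * ((n * (q - 2) : ℕ) : ℝ)) ^ (a + 2) ≤
            1 / (Real.log 2 / 3 * (n * q)) ^ (a + 2) :=
          one_div_le_one_div_of_le (by positivity) (pow_le_pow_left₀ (by positivity) hw _)
        calc ((Fintype.card (H (n, q)) : ℕ) : ℝ) *
              (1 / (Real.log 2 * ((n * (q - 2) : ℕ) : ℝ)) ^ (a + 2))
            ≤ (|C| * ((n : ℝ) * q) ^ a) * (1 / (Real.log 2 / 3 * (n * q)) ^ (a + 2)) :=
              mul_le_mul hc hw2 (by positivity) (by positivity)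
          _ = |C| * (3 / Real.log 2) ^ (a + 2) * (1 / (n : ℝ) ^ 2 * (1 / (q : ℝ) ^ 2)) := by
              rw [mul_pow (Real.log 2 / 3), div_pow (Real.log 2) 3, div_pow 3 (Real.log 2),
                pow_add ((n : ℝ) * q) a 2]
              have := hlog.ne'
              field_simp
      · have : IsEmpty (H (n, q)) := ⟨fun x => hp ⟨x.2.1, x.2.2.1⟩⟩
        rw [tsum_empty]
        positivity)
  refine key.mono ?_
  intro θ hθ hfin
  obtain ⟨b, hb⟩ := (hfin.image fun i : Σ p : ℕ × ℕ, H p => i.1.1 * i.1.2).bddAbove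
  obtain ⟨n, q, x, hN, h1, h3, hx, hk⟩ := hθ (b + 1)
  have hmem : n * q ≤ b := hb ⟨⟨(n, q), ⟨x, h1, h3, hx⟩⟩, hk, rfl⟩
  omega

/-- the same with lists for every `δ = 1 / (j + 1)` -/
theorem logNull_all {α : Type} (G : ℕ → ℕ → ℕ → Set α) (s t : α → ℝ) (C : ℕ → ℝ) (a : ℕ)
    (hG : ∀ j n q, 1 ≤ n → 3 ≤ q →
      (G j n q).Finite ∧ ((G j n q).ncard : ℝ) ≤ C j * ((n : ℝ) * q) ^ a)
    (hl : ∀ j n q, 1 ≤ n → 3 ≤ q → ∀ x ∈ G j n q, t x - s x ≤ (1 / 2 : ℝ) ^ (n * (q - 2))) :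
    LogNull (a + 2) {θ : ℝ | ∃ j, ∀ N : ℕ, ∃ n q x, N ≤ n * q ∧ 1 ≤ n ∧ 3 ≤ q ∧ x ∈ G j n q ∧
      ∃ k : ℤ, s x ≤ θ + k ∧ θ + k ≤ t x} := by
  refine (LogNull.iUnion (by omega) fun j =>
    logNull_types (G j) s t (C j) a (hG j) (hl j)).mono ?_
  intro θ hθ
  exact mem_iUnion.2 hθ

end Pool.Agent.Work.MLC.Cnt
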