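import Pool.Agent.Work.MLC.CntQ60
import Pool.Agent.Work.MLC.CntL54

set_option autoImplicit false

/-! # Theorem F, part (A)(d): the number of pieces of level `N` is exponentially large (helper24) -/

namespace Pool.Agent.Work.MLC.Cnt

open Set
open Pool.Agent.Work.MLC.Sat

variable {ι : Type} [Fintype ι] {D : ι → Dat}

/-- the family is complete for the level `N` -/
def Full24 (N : ℕ) (D : ι → Dat) : Prop := ∀ D' : Dat, D'.Par → D'.Cir → D'.m ≤ N →
  D'.m * D'.x.den ≤ 3 * N → ∃ i, rt (D i) = rt D'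

/-- the ends of the plateaus of level `N` are dense on the scale `16 / 2 ^ N` -/
def Dense24 (N : ℕ) : Prop := ∀ u : ℝ, ∃ D' : Dat, D'.Par ∧ D'.Cir ∧ D'.m ≤ N ∧
  D'.m * D'.x.den ≤ 3 * N ∧ ∃ k : ℤ, (u ≤ D'.tm + k ∧ D'.tm + k ≤ u + 16 / 2 ^ N) ∨
    (u ≤ D'.tp + k ∧ D'.tp + k ≤ u + 16 / 2 ^ N)

/-- the ends of a complete family -/
lemma exists_end24 (h2 : N2_ray) {N : ℕ} (h : Fam60 Finset.univ D) (hF : Full24 N D)
    (hd : Dense24 N) (u : ℝ) : ∃ t ∈ ends (La D) (Ra D), u ≤ t ∧ t ≤ u + 16 / 2 ^ N := by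
  obtain ⟨D', hP, hC, hm, hq, k, h3⟩ := hd u
  obtain ⟨i, hi⟩ := hF D' hP hC hm hq
  obtain ⟨l, h4, h5⟩ := plateau_unique h2 (h.P i) (h.C i) hP hC hi
  rcases h3 with ⟨h6, h7⟩ | ⟨h6, h7⟩
  · refine ⟨D'.tm + k, ⟨i, k - l, Or.inl ?_⟩, h6, h7⟩
    show D'.tm + k = (D i).tm + ((k - l : ℤ) : ℝ)
    rw [h4]; push_cast; ring
  · refine ⟨D'.tp + k, ⟨i, k - l, Or.inr ?_⟩, h6, h7⟩
    show D'.tp + k = (D i).tp + ((k - l : ℤ) : ℝ)
    rw [h5]; push_cast; ring

/-- arcs with dense ends are many -/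
theorem card_of_dense {a b : ι → ℝ} {N : ℕ}
    (hd : ∀ u : ℝ, ∃ t ∈ ends a b, u ≤ t ∧ t ≤ u + 16 / 2 ^ N) :
    2 ^ N ≤ 64 * Fintype.card ι := by
  classical
  have hpos : 0 < Fintype.card ι := by
    obtain ⟨t, ⟨i, -⟩, -⟩ := hd 0
    exact Fintype.card_pos_iff.2 ⟨i⟩
  rcases Nat.lt_or_ge N 5 with hN | hN
  · have h1 : 2 ^ N ≤ 2 ^ 4 := Nat.pow_le_pow_right (by norm_num) (by omega)
    omega
  obtain ⟨M, rfl⟩ : ∃ M, N = M + 5 := ⟨N - 5, by omega⟩
  -- the ends in the unit interval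
  set S : Finset ℝ := (Finset.univ.image fun i => Int.fract (a i)) ∪
    (Finset.univ.image fun i => Int.fract (b i)) with hS
  have hScard : S.card ≤ 2 * Fintype.card ι := by
    refine (Finset.card_union_le _ _).trans ?_
    have h1 := Finset.card_image_le (s := (Finset.univ : Finset ι)) (f := fun i => Int.fract (a i))
    have h2 := Finset.card_image_le (s := (Finset.univ : Finset ι)) (f := fun i => Int.fract (b i))
    rw [Finset.card_univ] at h1 h2
    omega
  have hmem : ∀ t ∈ ends a b, 0 ≤ t → t < 1 → t ∈ S := by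
    rintro t ⟨i, k, h | h⟩ h2 h3
    · have h4 : Int.fract t = t := Int.fract_eq_self.2 ⟨h2, h3⟩
      rw [hS, Finset.mem_union]
      left
      rw [Finset.mem_image]
      exact ⟨i, Finset.mem_univ i, by rw [← h4, h, Int.fract_add_intCast]⟩
    · have h4 : Int.fract t = t := Int.fract_eq_self.2 ⟨h2, h3⟩
      rw [hS, Finset.mem_union]
      right
      rw [Finset.mem_image]
      exact ⟨i, Finset.mem_univ i, by rw [← h4, h, Int.fract_add_intCast]⟩
  have hp : (0 : ℝ) < 2 ^ M := by positivity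
  have hlen : (16 : ℝ) / 2 ^ (M + 5) = 1 / (2 * 2 ^ M) := by
    rw [pow_add]; field_simp; norm_num
  choose t ht1 ht2 ht3 using fun j : ℕ => hd (j / 2 ^ M)
  have ht4 : ∀ j : ℕ, t j < ((j : ℝ) + 1) / 2 ^ M := by
    intro j
    refine (ht3 j).trans_lt ?_
    rw [hlen, add_div]
    have : 1 / (2 * 2 ^ M) < (1 : ℝ) / 2 ^ M := by
      apply one_div_lt_one_div_of_lt hp
      linarith
    linarith
  have hmaps : ∀ j ∈ Finset.range (2 ^ M), t j ∈ S := by
    intro j hj
    rw [Finset.mem_range] at hj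
    refine hmem _ (ht1 j) (le_trans (by positivity) (ht2 j)) ?_
    refine (ht4 j).trans_le ?_
    rw [div_le_one hp]
    have : j + 1 ≤ 2 ^ M := hj
    exact_mod_cast this
  have hinj : Set.InjOn t (Finset.range (2 ^ M)) := by
    have key : ∀ j j' : ℕ, j < j' → t j ≠ t j' := by
      intro j j' hjj h
      have h1 := ht4 j
      have h2 := ht2 j'
      rw [h] at h1
      have h3 : ((j : ℝ) + 1) / 2 ^ M ≤ j' / 2 ^ M := by
        gcongr
        exact_mod_cast hjj
      linarith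
    intro j _ j' _ h
    rcases lt_trichotomy j j' with h1 | h1 | h1
    · exact absurd h (key _ _ h1)
    · exact h1
    · exact absurd h.symm (key _ _ h1)
  have h1 := Finset.card_le_card_of_injOn t hmaps hinj
  rw [Finset.card_range] at h1
  have h2 : 2 ^ (M + 5) = 32 * 2 ^ M := by ring
  omega

/-- **(A)(d)**: the number of roots of level `N` -/
theorem card_full24 (h2 : N2_ray) {N : ℕ} (h : Fam60 Finset.univ D) (hF : Full24 N D)
    (hd : Dense24 N) : 2 ^ N ≤ 64 * Fintype.card ι :=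
  card_of_dense (exists_end24 h2 h hF hd)

end Pool.Agent.Work.MLC.Cnt
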