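import Pool.Agent.Work.MLC.CntG78
import Pool.Agent.Work.MLC.CntV24

set_option autoImplicit false

/-! # Theorem F, module G4, in the form `Dense24` (helper78) -/

namespace Pool.Agent.Work.MLC.Cnt

/-- **G4 in the form of the decomposition theorem** -/
theorem dense24 (N : ℕ) (hN : 0 < N) : Dense24 N := by
  intro u
  obtain ⟨D, h1, h2, h3, h4, -, k, h5⟩ := g4_short hN u
  refine ⟨D, h1, h2, h3, h4, k, ?_⟩
  rcases h5 with ⟨h6, h7⟩ | ⟨h6, h7⟩
  · exact Or.inl ⟨h6.le, h7.le⟩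
  · exact Or.inr ⟨h6.le, h7.le⟩

end Pool.Agent.Work.MLC.Cnt
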