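import Pool.Agent.Work.MLC.CntD72

set_option autoImplicit false

/-! # Theorem E, module E4 with a logarithmic gauge

`gau s` is the gauge `t ↦ (log (1 / t)) ^ (-s)`, and `Measure.mkMetric (gau s)` is the Hausdorff
measure of that gauge.  If there are at most `C (n q) ^ a` arcs of type `(n, q)`, `q ≥ 3`, with
lengths at most `2 ^ (-n (q - 2))`, then the angles in infinitely many of them form a set of
measure `0` for the gauge `(log (1 / t)) ^ (-(a + 2))`.  This is much more than dimension `0`. -/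

namespace Pool.Agent.Work.MLC.Cnt

open Filter Topology Set MeasureTheory Metric
open scoped ENNReal NNReal

/-- the gauge `t ↦ (log (1 / t)) ^ (-s)` -/
noncomputable def gau (s : ℕ) (r : ℝ≥0∞) : ℝ≥0∞ :=
  ENNReal.ofReal ((Real.log (1 / r.toReal))⁻¹ ^ s)

/-- the Borel-Cantelli lemma for a general gauge -/
theorem mkMetric_inf {X ι : Type*} [EMetricSpace X] [MeasurableSpace X] [BorelSpace X]
    [Countable ι] (A : ι → Set X) (m : ℝ≥0∞ → ℝ≥0∞)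
    (h1 : ∑' i, ediam (A i) ≠ ∞) (h : ∑' i, m (ediam (A i)) ≠ ∞) :
    Measure.mkMetric m (Inf A) = 0 := by
  have ht := ENNReal.tendsto_tsum_compl_atTop_zero h
  have hr := ENNReal.tendsto_tsum_compl_atTop_zero h1
  have h2 := Measure.mkMetric_le_liminf_tsum (Inf A) (l := (atTop : Filter (Finset ι)))
    (fun F : Finset ι => ∑' i : {i // i ∉ F}, ediam (A i)) hr
    (fun F (i : {i // i ∉ F}) => A i)
    (Eventually.of_forall fun F i =>
      ENNReal.le_tsum (f := fun i : {i // i ∉ F} => ediam (A i)) i)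
    (Eventually.of_forall fun F x hx => by
      have h3 : ({i | x ∈ A i} \ (F : Set ι)).Nonempty :=
        (Set.Infinite.sdiff hx F.finite_toSet).nonempty
      obtain ⟨i, hi, hiF⟩ := h3
      exact mem_iUnion.2 ⟨⟨i, by simpa using hiF⟩, hi⟩) m
  rw [ht.liminf_eq] at h2
  exact le_antisymm h2 zero_le

/-- angles mod `1` in infinitely many arcs -/
theorem gauge_arcs {ι : Type*} [Countable ι] (m : ℝ≥0∞ → ℝ≥0∞) (s L : ι → ℝ)
    (hL : ∀ i, L i ≤ 1) (h1 : ∑' i, ENNReal.ofReal (L i) ≠ ∞)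
    (h2 : ∑' i, m (ENNReal.ofReal (L i)) ≠ ∞) :
    Measure.mkMetric m
      {θ : ℝ | {i | ∃ k : ℤ, s i ≤ θ + k ∧ θ + k ≤ s i + L i}.Infinite} = 0 := by
  set A : ℤ → ι → Set ℝ := fun k i => Icc (s i - ⌊s i⌋ - k) (s i - ⌊s i⌋ - k + L i) with hA
  have hd : ∀ k i, ediam (A k i) = ENNReal.ofReal (L i) := fun k i => by
    rw [hA, Real.ediam_Icc, add_sub_cancel_left]
  have hA0 : ∀ k, Measure.mkMetric m (Inf (A k)) = 0 := fun k =>
    mkMetric_inf (A k) m (by simpa only [hd] using h1) (by simpa only [hd] using h2)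
  refine measure_mono_null (t := ⋃ k : ℤ, Inf (A k)) ?_ (measure_iUnion_null hA0)
  intro θ hθ
  by_contra hn
  simp only [mem_iUnion, not_exists, Inf, mem_ofPred_eq, Set.not_infinite] at hn
  apply hθ
  refine ((Set.finite_Icc ⌈-θ⌉ ⌊2 - θ⌋).biUnion (fun k _ => hn k)).subset ?_
  rintro i ⟨k, hk1, hk2⟩
  have hf1 := Int.floor_le (s i)
  have hf2 := Int.lt_floor_add_one (s i)
  have hLi := hL i
  simp only [mem_iUnion, mem_ofPred_eq, exists_prop]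
  refine ⟨k - ⌊s i⌋, ⟨Int.ceil_le.2 ?_, Int.le_floor.2 ?_⟩, ?_⟩
  · push_cast
    linarith
  · push_cast
    linarith
  · simp only [hA, mem_Icc]
    push_cast
    constructor <;> linarith

/-- the value of the gauge at `2 ^ (-k)` -/
theorem gau_two (s k : ℕ) :
    gau s (ENNReal.ofReal ((1 / 2 : ℝ) ^ k)) = ENNReal.ofReal (((k : ℝ) * Real.log 2)⁻¹ ^ s) := by
  rw [gau, ENNReal.toReal_ofReal (by positivity)]
  congr 3
  rw [one_div, Real.log_inv, Real.log_pow, one_div, Real.log_inv]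
  ring

theorem exists_geom (s : ℕ) : ∃ K : ℝ, 0 ≤ K ∧ ∀ k : ℕ, 1 ≤ k →
    (1 / 2 : ℝ) ^ k ≤ K * ((k : ℝ) * Real.log 2)⁻¹ ^ s := by
  have h1 : Tendsto (fun k : ℕ => (k : ℝ) ^ s * (1 / 2 : ℝ) ^ k) atTop (𝓝 0) :=
    tendsto_pow_const_mul_const_pow_of_abs_lt_one s (by norm_num [abs_of_pos])
  obtain ⟨K, hK⟩ := h1.bddAbove_range
  have hl : 0 < Real.log 2 := Real.log_pos (by norm_num)
  have hK0 : 0 ≤ K := le_trans (by positivity) (hK ⟨1, rfl⟩)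
  refine ⟨K * (Real.log 2) ^ s, by positivity, fun k hk => ?_⟩
  have hk0 : (0 : ℝ) < k := by exact_mod_cast hk
  have h2 : (k : ℝ) ^ s * (1 / 2 : ℝ) ^ k ≤ K := hK ⟨k, rfl⟩
  have h3 : K * (Real.log 2) ^ s * ((k : ℝ) * Real.log 2)⁻¹ ^ s = K / (k : ℝ) ^ s := by
    rw [mul_inv, mul_pow, inv_pow, inv_pow]
    field_simp
  rw [h3, le_div_iff₀ (by positivity)]
  linarith

/-- the arcs of the types `(n, q)`, `q ≥ 3`, at most `C (n q) ^ a` of each type, with lengths at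
most `2 ^ (-n (q - 2))`: the angles in infinitely many of them form a null set of the Hausdorff
measure with gauge `(log (1 / t)) ^ (-(a + 2))` -/
theorem gauge_types {α : Type*} (G : ℕ → ℕ → Set α) (s t : α → ℝ) (C : ℝ) (a : ℕ)
    (hG : ∀ n q, 1 ≤ n → 3 ≤ q → (G n q).Finite ∧ ((G n q).ncard : ℝ) ≤ C * ((n : ℝ) * q) ^ a)
    (hl : ∀ n q, 1 ≤ n → 3 ≤ q → ∀ x ∈ G n q, t x - s x ≤ (1 / 2 : ℝ) ^ (n * (q - 2))) :
    Measure.mkMetric (gau (a + 2)) {θ : ℝ | ∀ N : ℕ, ∃ n q x, N ≤ n * q ∧ 1 ≤ n ∧ 3 ≤ q ∧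
      x ∈ G n q ∧ ∃ k : ℤ, s x ≤ θ + k ∧ θ + k ≤ t x} = 0 := by
  classical
  let H : ℕ × ℕ → Set α := fun p => {x | 1 ≤ p.1 ∧ 3 ≤ p.2 ∧ x ∈ G p.1 p.2}
  have hHf : ∀ p, (H p).Finite := fun p => by
    by_cases hp : 1 ≤ p.1 ∧ 3 ≤ p.2
    · exact (hG p.1 p.2 hp.1 hp.2).1.subset fun x hx => hx.2.2
    · have : H p = ∅ := by
        ext x
        simp only [H, mem_ofPred_eq, mem_empty_iff_false, iff_false]
        exact fun h => hp ⟨h.1, h.2.1⟩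
      rw [this]
      exact finite_empty
  have : ∀ p, Finite (H p) := fun p => (hHf p).to_subtype
  have : ∀ p, Fintype (H p) := fun p => Fintype.ofFinite _
  have hl2 : 0 < Real.log 2 := Real.log_pos (by norm_num)
  set L : (Σ p : ℕ × ℕ, H p) → ℝ := fun i => (1 / 2 : ℝ) ^ (i.1.1 * (i.1.2 - 2)) with hLdef
  set D : ℝ := (3 / Real.log 2) ^ (a + 2) with hD
  have hsum : Summable fun p : ℕ × ℕ => |C| * D * ((1 / (p.1 : ℝ) ^ 2) * (1 / (p.2 : ℝ) ^ 2)) := by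
    have h1 : Summable fun n : ℕ => 1 / (n : ℝ) ^ 2 := Real.summable_one_div_nat_pow.2 (by norm_num)
    exact (h1.mul_of_nonneg h1 (fun n => by positivity) (fun n => by positivity)).mul_left _
  have hterm : ∀ p : ℕ × ℕ,
      ∑' x : H p, gau (a + 2) (ENNReal.ofReal ((1 / 2 : ℝ) ^ (p.1 * (p.2 - 2)))) ≤
      ENNReal.ofReal (|C| * D * ((1 / (p.1 : ℝ) ^ 2) * (1 / (p.2 : ℝ) ^ 2))) := by
    intro p
    by_cases hp : 1 ≤ p.1 ∧ 3 ≤ p.2
    · obtain ⟨hp1, hp2⟩ := hp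
      have hn0 : (0 : ℝ) < p.1 := by exact_mod_cast hp1
      have hq0 : (0 : ℝ) < p.2 := by exact_mod_cast (by omega : 0 < p.2)
      have hk : (p.1 : ℝ) * p.2 ≤ 3 * ((p.1 * (p.2 - 2) : ℕ) : ℝ) := by
        have : p.2 ≤ 3 * (p.2 - 2) := by omega
        have h2 : p.1 * p.2 ≤ 3 * (p.1 * (p.2 - 2)) := by
          calc p.1 * p.2 ≤ p.1 * (3 * (p.2 - 2)) := Nat.mul_le_mul_left _ this
            _ = _ := by ring
        exact_mod_cast h2
      have hk0 : (0 : ℝ) < ((p.1 * (p.2 - 2) : ℕ) : ℝ) := by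
        have := mul_pos hn0 hq0
        linarith
      have hinv : (((p.1 * (p.2 - 2) : ℕ) : ℝ) * Real.log 2)⁻¹ ≤
          3 / Real.log 2 * ((p.1 : ℝ) * p.2)⁻¹ := by
        rw [inv_le_iff_one_le_mul₀ (by positivity)]
        rw [show 3 / Real.log 2 * ((p.1 : ℝ) * p.2)⁻¹ *
          (((p.1 * (p.2 - 2) : ℕ) : ℝ) * Real.log 2) =
          3 * ((p.1 * (p.2 - 2) : ℕ) : ℝ) / ((p.1 : ℝ) * p.2) by field_simp]
        rw [le_div_iff₀ (by positivity)]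
        linarith
      have h6 : ((H p).ncard : ℝ) ≤ |C| * ((p.1 : ℝ) * p.2) ^ a := by
        have h7 : (H p).ncard ≤ (G p.1 p.2).ncard :=
          Set.ncard_le_ncard (fun x hx => hx.2.2) (hG p.1 p.2 hp1 hp2).1
        calc ((H p).ncard : ℝ) ≤ ((G p.1 p.2).ncard : ℝ) := by exact_mod_cast h7
          _ ≤ C * ((p.1 : ℝ) * p.2) ^ a := (hG p.1 p.2 hp1 hp2).2
          _ ≤ |C| * ((p.1 : ℝ) * p.2) ^ a :=
              mul_le_mul_of_nonneg_right (le_abs_self C) (by positivity)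
      rw [gau_two, tsum_fintype, Finset.sum_const, Finset.card_univ, nsmul_eq_mul,
        ← Nat.card_eq_fintype_card, Nat.card_coe_set_eq, ← ENNReal.ofReal_natCast,
        ← ENNReal.ofReal_mul (by positivity)]
      refine ENNReal.ofReal_le_ofReal ?_
      calc ((H p).ncard : ℝ) * (((p.1 * (p.2 - 2) : ℕ) : ℝ) * Real.log 2)⁻¹ ^ (a + 2)
          ≤ (|C| * ((p.1 : ℝ) * p.2) ^ a) * (3 / Real.log 2 * ((p.1 : ℝ) * p.2)⁻¹) ^ (a + 2) :=
            mul_le_mul h6 (pow_le_pow_left₀ (by positivity) hinv _) (by positivity) (by positivity)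
        _ = |C| * D * ((1 / (p.1 : ℝ) ^ 2) * (1 / (p.2 : ℝ) ^ 2)) := by
            rw [hD, mul_pow (3 / Real.log 2), inv_pow, pow_add ((p.1 : ℝ) * p.2), mul_inv]
            have hnq : ((p.1 : ℝ) * p.2) ^ a ≠ 0 := by positivity
            field_simp
    · have : IsEmpty (H p) := ⟨fun x => hp ⟨x.2.1, x.2.2.1⟩⟩
      rw [tsum_empty]
      exact zero_le
  have hB : ∑' i : Σ p : ℕ × ℕ, H p, gau (a + 2) (ENNReal.ofReal (L i)) ≠ ∞ := by
    rw [ENNReal.tsum_sigma' (fun i : Σ p : ℕ × ℕ, H p => gau (a + 2) (ENNReal.ofReal (L i)))]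
    refine ne_top_of_le_ne_top ?_ (ENNReal.tsum_le_tsum hterm)
    rw [← ENNReal.ofReal_tsum_of_nonneg (fun p => by positivity) hsum]
    exact ENNReal.ofReal_ne_top
  have hA : ∑' i : Σ p : ℕ × ℕ, H p, ENNReal.ofReal (L i) ≠ ∞ := by
    obtain ⟨K, hK0, hK⟩ := exists_geom (a + 2)
    have h1 : ∀ i : Σ p : ℕ × ℕ, H p, ENNReal.ofReal (L i) ≤
        ENNReal.ofReal K * gau (a + 2) (ENNReal.ofReal (L i)) := by
      rintro ⟨p, x⟩
      have hx := x.2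
      have hk : 1 ≤ p.1 * (p.2 - 2) := Nat.mul_pos hx.1 (by have := hx.2.1; omega)
      simp only [hLdef]
      rw [gau_two, ← ENNReal.ofReal_mul hK0]
      exact ENNReal.ofReal_le_ofReal (hK _ hk)
    refine ne_top_of_le_ne_top ?_ (ENNReal.tsum_le_tsum h1)
    rw [ENNReal.tsum_mul_left]
    exact ENNReal.mul_ne_top ENNReal.ofReal_ne_top hB
  refine measure_mono_null ?_ (gauge_arcs (gau (a + 2)) (fun i : Σ p : ℕ × ℕ, H p => s i.2) L
    (fun i => pow_le_one₀ (by norm_num) (by norm_num)) hA hB)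
  intro θ hθ hfin
  obtain ⟨B, hB⟩ := (hfin.image fun i : Σ p : ℕ × ℕ, H p => i.1.1 * i.1.2).bddAbove
  obtain ⟨n, q, x, hN, h1, h3, hx, k, hk1, hk2⟩ := hθ (B + 1)
  have hle := hl n q h1 h3 x hx
  have hmem : n * q ≤ B := hB ⟨⟨(n, q), ⟨x, h1, h3, hx⟩⟩, ⟨k, hk1, by
    simp only [hLdef]
    linarith⟩, rfl⟩
  omega

/-- the same with lists for every `δ = 1 / (j + 1)` -/
theorem gauge_all {α : Type*} (G : ℕ → ℕ → ℕ → Set α) (s t : α → ℝ) (C : ℕ → ℝ) (a : ℕ)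
    (hG : ∀ j n q, 1 ≤ n → 3 ≤ q →
      (G j n q).Finite ∧ ((G j n q).ncard : ℝ) ≤ C j * ((n : ℝ) * q) ^ a)
    (hl : ∀ j n q, 1 ≤ n → 3 ≤ q → ∀ x ∈ G j n q, t x - s x ≤ (1 / 2 : ℝ) ^ (n * (q - 2))) :
    Measure.mkMetric (gau (a + 2)) {θ : ℝ | ∃ j, ∀ N : ℕ, ∃ n q x, N ≤ n * q ∧ 1 ≤ n ∧ 3 ≤ q ∧
      x ∈ G j n q ∧ ∃ k : ℤ, s x ≤ θ + k ∧ θ + k ≤ t x} = 0 := by
  have h : {θ : ℝ | ∃ j, ∀ N : ℕ, ∃ n q x, N ≤ n * q ∧ 1 ≤ n ∧ 3 ≤ q ∧ x ∈ G j n q ∧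
      ∃ k : ℤ, s x ≤ θ + k ∧ θ + k ≤ t x} = ⋃ j, {θ : ℝ | ∀ N : ℕ, ∃ n q x, N ≤ n * q ∧ 1 ≤ n ∧
      3 ≤ q ∧ x ∈ G j n q ∧ ∃ k : ℤ, s x ≤ θ + k ∧ θ + k ≤ t x} := by
    ext θ
    simp
  rw [h]
  exact measure_iUnion_null fun j => gauge_types (G j) s t (C j) a (hG j) (hl j)

end Pool.Agent.Work.MLC.Cnt
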