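import Pool.Agent.Work.MLC.CntF60

set_option autoImplicit false

/-! # Theorem E, modules E2 and E3 (helper60)

The limb with its root is compact and connected; the angles whose impression contains a point of the
limb are in the plateau. -/

namespace Pool.Agent.Work.MLC.Cnt

open Filter Topology Metric Set Complex
open Pool.Agent.Work.MLC.Sat

variable {D : Dat}

/-- **E3**: the angles of the impressions which contain a point of the limb -/
theorem imp_mem (hP : D.Par) (hC : D.Cir) {c₀ : ℂ} (h : c₀ ∈ Lm D) {θ : ℝ}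
    (hθ : (c₀, θ) ∈ closure {p : ℂ × ℝ | Ang p.1 p.2}) :
    ∃ k : ℤ, D.tm ≤ θ + k ∧ θ + k ≤ D.tp := by
  have h1 : ∀ᶠ p : ℂ × ℝ in 𝓝 (c₀, θ), Ang p.1 p.2 → ∃ k : ℤ, D.tm < p.2 + k ∧ p.2 + k < D.tp := by
    have h2 := (continuous_fst.tendsto (c₀, θ)).eventually (n5_open D hP hC c₀ h)
    filter_upwards [h2] with p hp hA
    exact hp.2 _ hA
  have h2 : ∀ᶠ p : ℂ × ℝ in 𝓝 (c₀, θ), |p.2 - θ| < 1 := by
    have h3 : Tendsto (fun p : ℂ × ℝ => |p.2 - θ|) (𝓝 (c₀, θ)) (𝓝 |θ - θ|) :=
      Continuous.tendsto (by fun_prop) (c₀, θ)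
    rw [sub_self, abs_zero] at h3
    exact h3.eventually (gt_mem_nhds one_pos)
  -- finitely many shifts
  set F : Set ℤ := {k : ℤ | D.tm - θ - 1 < k ∧ (k : ℝ) < D.tp - θ + 1} with hF
  have hFfin : F.Finite := by
    refine (Set.finite_Icc (⌊D.tm - θ - 1⌋) (⌈D.tp - θ + 1⌉)).subset ?_
    rintro k ⟨h3, h4⟩
    exact ⟨Int.floor_le_iff.2 (by linarith), Int.le_ceil_iff.2 (by linarith)⟩
  by_contra hcon
  push Not at hcon
  have h3 : ∀ᶠ p : ℂ × ℝ in 𝓝 (c₀, θ), ∀ k ∈ F, ¬ (D.tm < p.2 + k ∧ p.2 + k < D.tp) := by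
    rw [Filter.eventually_all_finite hFfin]
    intro k _
    have h4 : Tendsto (fun p : ℂ × ℝ => p.2 + k) (𝓝 (c₀, θ)) (𝓝 (θ + k)) :=
      Continuous.tendsto (by fun_prop) (c₀, θ)
    rcases lt_or_ge (θ + k) D.tm with h5 | h5
    · filter_upwards [h4.eventually (gt_mem_nhds h5)] with p hp h6
      linarith [h6.1]
    · filter_upwards [h4.eventually (lt_mem_nhds (hcon k h5))] with p hp h6
      linarith [h6.2]
  obtain ⟨p, hp, h4, h5, h6⟩ := ((mem_closure_iff_frequently.1 hθ).and_eventually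
    (h1.and (h2.and h3))).exists
  obtain ⟨k, h7, h8⟩ := h4 hp
  have h9 := abs_lt.1 h5
  exact h6 k ⟨by linarith [h9.2], by linarith [h9.1]⟩ ⟨h7, h8⟩

/-- the limb is relatively open -/
theorem lm_open (hP : D.Par) (hC : D.Cir) {c : ℂ} (hc : c ∈ Lm D) :
    ∀ᶠ w in 𝓝 c, w ∈ MM → w ∈ Lm D :=
  (n5_open D hP hC c hc).mono fun _ hw => hw.1

lemma lm_subset : Lm D ⊆ MM := fun _ h => h.1

/-- the limb is closed up to the root -/
theorem lm_closure (hP : D.Par) (hC : D.Cir) : closure (Lm D) ⊆ insert (rt D) (Lm D) := by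
  intro z hz
  have hzM : z ∈ MM := closure_minimal lm_subset isClosed_MM hz
  rcases n5_closed D hP hC z hzM (closure_mono subset_union_left hz) with h | h
  · exact Or.inr h
  · exact Or.inl h

lemma isClosed_limb (hP : D.Par) (hC : D.Cir) : IsClosed (insert (rt D) (Lm D)) := by
  refine isClosed_of_closure_subset ?_
  rw [insert_eq, closure_union, closure_singleton, ← insert_eq]
  exact insert_subset (Or.inl rfl) (lm_closure hP hC)

/-- **E2**: the limb is compact -/
theorem isCompact_limb (hP : D.Par) (hC : D.Cir) : IsCompact (insert (rt D) (Lm D)) :=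
  isCompact_MM.of_isClosed_subset (isClosed_limb hP hC)
    (insert_subset (rt_mem_MM hP) lm_subset)

/-- a clopen piece of the limb which misses the root is empty -/
lemma limb_piece (hP : D.Par) (hC : D.Cir) {t t' : Set ℂ} (ht : IsClosed t) (ht' : IsClosed t')
    (hsub : insert (rt D) (Lm D) ⊆ t ∪ t') (hr : rt D ∈ t)
    (hne : (insert (rt D) (Lm D) ∩ t').Nonempty) :
    (insert (rt D) (Lm D) ∩ (t ∩ t')).Nonempty := by
  by_contra hcon
  rw [not_nonempty_iff_eq_empty] at hcon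
  set K := insert (rt D) (Lm D) with hK
  have hKc : IsClosed K := isClosed_limb hP hC
  have hBt : ∀ z ∈ K ∩ t', z ∉ t := fun z hz hzt => by
    have : z ∈ K ∩ (t ∩ t') := ⟨hz.1, hzt, hz.2⟩
    rw [hcon] at this; exact this
  have hMB : IsClosed (MM \ (K ∩ t')) := by
    refine isClosed_of_closure_subset fun z hz => ?_
    have hzM : z ∈ MM := closure_minimal sdiff_subset isClosed_MM hz
    refine ⟨hzM, fun hzB => ?_⟩
    have hzL : z ∈ Lm D := by
      rcases hzB.1 with h0 | h0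
      · exact absurd hr (h0 ▸ hBt z hzB)
      · exact h0
    obtain ⟨w, hw, hw1, hw2⟩ := ((mem_closure_iff_frequently.1 hz).and_eventually
      ((lm_open hP hC hzL).and (ht.isOpen_compl.mem_nhds (hBt z hzB)))).exists
    have hwL := hw1 hw.1
    refine hw.2 ⟨Or.inr hwL, ?_⟩
    rcases hsub (Or.inr hwL) with h0 | h0
    · exact absurd h0 hw2
    · exact h0
  obtain ⟨w, hw⟩ := hne
  obtain ⟨v, -, hv, hv2⟩ := isPreconnected_closed_iff.1 isPreconnected_MM _ _ (hKc.inter ht') hMB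
    (fun z hz => by
      by_cases hzB : z ∈ K ∩ t'
      · exact Or.inl hzB
      · exact Or.inr ⟨hz, hzB⟩)
    ⟨w, insert_subset (rt_mem_MM hP) lm_subset hw.1, hw⟩
    ⟨rt D, rt_mem_MM hP, rt_mem_MM hP, fun h0 => hBt _ h0 hr⟩
  exact hv2.2 hv

/-- **E2**: the limb is connected -/
theorem isPreconnected_limb (hP : D.Par) (hC : D.Cir) :
    IsPreconnected (insert (rt D) (Lm D)) := by
  rw [isPreconnected_closed_iff]
  intro t t' ht ht' hsub hne hne'
  rcases hsub (Or.inl rfl) with h0 | h0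
  · exact limb_piece hP hC ht ht' hsub h0 hne'
  · have := limb_piece hP hC ht' ht (by rwa [union_comm]) h0 hne
    rwa [inter_comm t' t] at this

end Pool.Agent.Work.MLC.Cnt
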