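import Mathlib

set_option autoImplicit false

/-! # Theorem F: abstract counting of the big classes (helper26) -/

namespace Pool.Agent.Work.MLC.Cnt

open Finset

/-- **counting**: `G` is divided into classes with at most `K` elements, and the size `d` of a class
is at most the sum of the sizes `β` of its elements. Then the classes of size at least `δ` have
together at most `K ^ 2 S / δ ^ 2` elements, `S` the sum of the squares of `β`. -/
theorem card_big {γ κ : Type*} [DecidableEq κ] (G : Finset γ) (cls : γ → κ) (d : κ → ℝ)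
    (β : γ → ℝ) {K : ℕ} {S δ : ℝ} (hK : ∀ J ∈ G, (G.filter fun J' => cls J' = cls J).card ≤ K)
    (hd : ∀ J ∈ G, d (cls J) ≤ ∑ J' ∈ G with cls J' = cls J, β J')
    (hS : ∑ J ∈ G, β J ^ 2 ≤ S) (hδ : 0 < δ) :
    ((G.filter fun J => δ ≤ d (cls J)).card : ℝ) * δ ^ 2 ≤ (K : ℝ) ^ 2 * S := by
  have hS0 : 0 ≤ S := (Finset.sum_nonneg fun J _ => sq_nonneg (β J)).trans hS
  have h1 : ∀ J ∈ G.filter (fun J => δ ≤ d (cls J)),
      δ ^ 2 ≤ (K : ℝ) * ∑ J' ∈ G with cls J' = cls J, β J' ^ 2 := by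
    intro J hJ
    obtain ⟨hJG, hJd⟩ := Finset.mem_filter.1 hJ
    have h2 : δ ≤ ∑ J' ∈ G with cls J' = cls J, β J' := hJd.trans (hd J hJG)
    have h3 : (∑ J' ∈ G with cls J' = cls J, β J') ^ 2 ≤
        ((G.filter fun J' => cls J' = cls J).card : ℝ) * ∑ J' ∈ G with cls J' = cls J, β J' ^ 2 :=
      sq_sum_le_card_mul_sum_sq
    have h4 : ((G.filter fun J' => cls J' = cls J).card : ℝ) ≤ K := by exact_mod_cast hK J hJG
    have h5 : 0 ≤ ∑ J' ∈ G with cls J' = cls J, β J' ^ 2 :=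
      Finset.sum_nonneg fun J _ => sq_nonneg (β J)
    calc δ ^ 2 ≤ (∑ J' ∈ G with cls J' = cls J, β J') ^ 2 := by gcongr
      _ ≤ _ := h3
      _ ≤ _ := by gcongr
  calc ((G.filter fun J => δ ≤ d (cls J)).card : ℝ) * δ ^ 2
      = ∑ J ∈ G with δ ≤ d (cls J), δ ^ 2 := by rw [Finset.sum_const, nsmul_eq_mul]
    _ ≤ ∑ J ∈ G with δ ≤ d (cls J), (K : ℝ) * ∑ J' ∈ G with cls J' = cls J, β J' ^ 2 :=
        Finset.sum_le_sum h1
    _ ≤ ∑ J ∈ G, (K : ℝ) * ∑ J' ∈ G with cls J' = cls J, β J' ^ 2 := by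
        refine Finset.sum_le_sum_of_subset_of_nonneg (Finset.filter_subset _ _) fun J _ _ => ?_
        exact mul_nonneg (Nat.cast_nonneg _) (Finset.sum_nonneg fun J _ => sq_nonneg (β J))
    _ = (K : ℝ) * ∑ J' ∈ G, ∑ J ∈ G with cls J = cls J', β J' ^ 2 := by
        rw [← Finset.mul_sum]
        congr 1
        simp_rw [Finset.sum_filter]
        rw [Finset.sum_comm]
        refine Finset.sum_congr rfl fun J _ => Finset.sum_congr rfl fun J' _ => ?_
        simp only [eq_comm]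
    _ = (K : ℝ) * ∑ J' ∈ G, ((G.filter fun J => cls J = cls J').card : ℝ) * β J' ^ 2 := by
        simp_rw [Finset.sum_const, nsmul_eq_mul]
    _ ≤ (K : ℝ) * ∑ J' ∈ G, (K : ℝ) * β J' ^ 2 := by
        refine mul_le_mul_of_nonneg_left (Finset.sum_le_sum fun J hJ => ?_) (Nat.cast_nonneg _)
        have : ((G.filter fun J' => cls J' = cls J).card : ℝ) ≤ K := by exact_mod_cast hK J hJ
        gcongr
    _ = (K : ℝ) ^ 2 * ∑ J' ∈ G, β J' ^ 2 := by rw [← Finset.mul_sum]; ring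
    _ ≤ _ := by gcongr

/-- the sum of the squares of the sizes of the classes -/
theorem sum_cls {γ κ : Type*} [DecidableEq κ] (G : Finset γ) (cls : γ → κ) (d : κ → ℝ)
    (β : γ → ℝ) {K : ℕ} {S : ℝ} (hK : ∀ J ∈ G, (G.filter fun J' => cls J' = cls J).card ≤ K)
    (hd0 : ∀ J ∈ G, 0 ≤ d (cls J))
    (hd : ∀ J ∈ G, d (cls J) ≤ ∑ J' ∈ G with cls J' = cls J, β J')
    (hS : ∑ J ∈ G, β J ^ 2 ≤ S) : ∑ y ∈ G.image cls, d y ^ 2 ≤ (K : ℝ) * S := by
  have h1 : ∀ y ∈ G.image cls, d y ^ 2 ≤ (K : ℝ) * ∑ J' ∈ G with cls J' = y, β J' ^ 2 := by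
    intro y hy
    obtain ⟨J, hJ, rfl⟩ := Finset.mem_image.1 hy
    have h3 : (∑ J' ∈ G with cls J' = cls J, β J') ^ 2 ≤
        ((G.filter fun J' => cls J' = cls J).card : ℝ) * ∑ J' ∈ G with cls J' = cls J, β J' ^ 2 :=
      sq_sum_le_card_mul_sum_sq
    have h4 : ((G.filter fun J' => cls J' = cls J).card : ℝ) ≤ K := by exact_mod_cast hK J hJ
    have h5 : 0 ≤ ∑ J' ∈ G with cls J' = cls J, β J' ^ 2 :=
      Finset.sum_nonneg fun J _ => sq_nonneg (β J)
    have h6 := hd0 J hJ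
    calc d (cls J) ^ 2 ≤ (∑ J' ∈ G with cls J' = cls J, β J') ^ 2 := by
          gcongr; exact hd J hJ
      _ ≤ _ := h3
      _ ≤ _ := by gcongr
  calc ∑ y ∈ G.image cls, d y ^ 2
      ≤ ∑ y ∈ G.image cls, (K : ℝ) * ∑ J' ∈ G with cls J' = y, β J' ^ 2 := Finset.sum_le_sum h1
    _ = (K : ℝ) * ∑ J' ∈ G, β J' ^ 2 := by
        rw [← Finset.mul_sum, Finset.sum_fiberwise_of_maps_to
          fun J hJ => Finset.mem_image_of_mem cls hJ]
    _ ≤ _ := by gcongr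

end Pool.Agent.Work.MLC.Cnt
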