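import Pool.Agent.Work.MLC.CntI60
import Pool.Agent.Work.MLC.SatAll60

set_option autoImplicit false

/-! # Roots in elementary terms and their limbs (helper65) -/

namespace Pool.Agent.Work.MLC.Cnt

open Filter Topology Metric Set Complex
open Pool.Agent.Work.MLC.Sat

/-- `r` is a root of type `(m, p / q)`: `z ^ 2 + r` has a point of exact period `m` with multiplier
`exp (2 π i p / q)` -/
def IsRt (m p q : ℕ) (r : ℂ) : Prop :=
  0 < m ∧ 0 < p ∧ p < q ∧ Nat.Coprime p q ∧ ∃ b : ℂ,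
    Function.minimalPeriod (fun z : ℂ => z ^ 2 + r) b = m ∧
    deriv ((fun z : ℂ => z ^ 2 + r)^[m]) b = Complex.exp (2 * Real.pi * (p / q) * Complex.I)

variable {m p q : ℕ} {r : ℂ}

/-- the data of a root -/
theorem IsRt.exists_dat (h : IsRt m p q r) :
    ∃ D : Dat, D.Par ∧ D.Cir ∧ rt D = r ∧ D.m = m ∧ D.x = p / q ∧ D.x.den = q := by
  obtain ⟨hm, hp, hpq, hcop, b, hper, hmul⟩ := h
  have hq0 : 0 < q := by omega
  have hden : ((p : ℚ) / q).den = q := by
    have h1 := Rat.den_div_eq_of_coprime (a := (p : ℤ)) (b := (q : ℤ)) (by exact_mod_cast hq0)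
      (by simpa using hcop)
    push_cast at h1
    exact_mod_cast h1
  have hx0 : (0 : ℚ) < (p : ℚ) / q := by positivity
  have hx1 : (p : ℚ) / q < 1 := by
    rw [div_lt_one (by exact_mod_cast hq0)]
    exact_mod_cast hpq
  have hPer : (r, b) ∈ Per m := perN_it ⟨hm, hper⟩
  have hprim : ∀ d, 0 < d → d < m → it r d b ≠ b := by
    intro d hd hdm h
    have h1 : Function.IsPeriodicPt (f r) d b := h
    have h2 := h1.minimalPeriod_le hd
    have h3 : Function.minimalPeriod (f r) b = m := hper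
    omega
  have hexp : mul m (r, b) = Complex.exp (axisPt ((p : ℚ) / q)) := by
    have h1 : deriv ((fun z : ℂ => z ^ 2 + r)^[m]) b = mul m (r, b) :=
      (hasDerivAt_it r m b).deriv
    rw [← h1, hmul]
    unfold axisPt
    congr 1
    push_cast
    ring
  obtain ⟨D, i₀, h1, h2, h3, h4, h5⟩ := exists_data hm hx0 hx1 hPer hprim hexp
  refine ⟨D, h4, h5, ?_, h1, h2, by rw [h2]; exact hden⟩
  show (D.σ D.a).1 = r
  rw [h3]

/-- the limb of a root of any type -/
theorem IsRt.limb (h : IsRt m p q r) :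
    MM \ connectedComponentIn (MM \ {r}) 0 = insert r (Sep r) ∧
    IsCompact (MM \ connectedComponentIn (MM \ {r}) 0) ∧
    IsConnected (MM \ connectedComponentIn (MM \ {r}) 0) ∧
    (∀ c ∈ Sep r, MM \ connectedComponentIn (MM \ {r}) 0 ∈ 𝓝[MM] c) ∧
    ((Sep r).Nonempty → MM \ connectedComponentIn (MM \ {r}) 0 ⊆ closure (Sep r)) := by
  obtain ⟨D, hP, hC, hr, -, -, -⟩ := h.exists_dat
  have hrM : r ∈ MM := hr ▸ rt_mem_MM hP
  have hSep : Sep r = Lm D := by rw [← hr]; exact n6_sep D hP hC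
  have hV : MM \ connectedComponentIn (MM \ {r}) 0 = insert r (Sep r) := by
    ext z
    constructor
    · rintro ⟨hz1, hz2⟩
      by_cases hzr : z = r
      · exact Or.inl hzr
      · exact Or.inr ⟨hz1, hzr, hz2⟩
    · rintro (hz | ⟨hz1, -, hz2⟩)
      · rw [hz]
        exact ⟨hrM, fun h1 => (connectedComponentIn_subset _ _ h1).2 rfl⟩
      · exact ⟨hz1, hz2⟩
  have hV' : insert r (Sep r) = insert (rt D) (Lm D) := by rw [hSep, hr]
  have hpre : IsPreconnected (insert r (Sep r)) := hV' ▸ isPreconnected_limb hP hC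
  have hcl : closure (Sep r) ⊆ insert r (Sep r) := by
    rw [hV', hSep]
    exact lm_closure hP hC
  refine ⟨hV, ?_, ?_, ?_, ?_⟩
  · rw [hV, hV']
    exact isCompact_limb hP hC
  · rw [hV]
    exact ⟨⟨r, Or.inl rfl⟩, hpre⟩
  · intro c hc
    rw [hV, mem_nhdsWithin_iff_eventually]
    rw [hSep] at hc
    filter_upwards [lm_open hP hC hc] with w hw hwM
    right
    rw [hSep]
    exact hw hwM
  · intro hne
    rw [hV]
    by_contra hcon
    have hrcl : r ∉ closure (Sep r) := by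
      intro h1
      exact hcon (insert_subset h1 subset_closure)
    have hclosed : IsClosed (Sep r) := by
      refine isClosed_of_closure_subset fun z hz => ?_
      rcases hcl hz with h1 | h1
      · exact absurd (h1 ▸ hz) hrcl
      · exact h1
    obtain ⟨z, -, hz1, hz2⟩ := isPreconnected_closed_iff.1 hpre {r} (Sep r) isClosed_singleton
      hclosed (fun z hz => hz) ⟨r, Or.inl rfl, rfl⟩
      (by obtain ⟨z, hz⟩ := hne; exact ⟨z, Or.inr hz, hz⟩)
    exact hz2.2.1 hz1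

/-- small limbs around `c` give local connectivity at `c`, with limbs as neighbourhoods -/
theorem lc_of_limbs {c : ℂ} {R : Set ℂ} (hR : ∀ r ∈ R, ∃ m p q, IsRt m p q r)
    (h : ∀ ε : ℝ, 0 < ε → ∃ r ∈ R, c ∈ Sep r ∧ diam (Sep r) < ε) (U : Set ℂ) (hU : U ∈ 𝓝 c) :
    ∃ r ∈ R, ∃ V ⊆ U, V = MM \ connectedComponentIn (MM \ {r}) 0 ∧ IsCompact V ∧ IsConnected V ∧
      V ∈ 𝓝[MM] c := by
  obtain ⟨ε, hε, hεU⟩ := Metric.mem_nhds_iff.1 hU
  obtain ⟨r, hrR, hc, hd⟩ := h ε hε
  obtain ⟨m, p, q, hr⟩ := hR r hrR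
  obtain ⟨h1, h2, h3, h4, h5⟩ := hr.limb
  refine ⟨r, hrR, _, ?_, rfl, h2, h3, h4 c hc⟩
  intro z hz
  apply hεU
  have hb : Bornology.IsBounded (Sep r) :=
    isCompact_MM.isBounded.subset fun w hw => hw.1
  have h6 : z ∈ closure (Sep r) := h5 ⟨c, hc⟩ hz
  have h7 := dist_le_diam_of_mem hb.closure h6 (subset_closure hc)
  rw [diam_closure] at h7
  exact mem_ball.2 (h7.trans_lt hd)

end Pool.Agent.Work.MLC.Cnt
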