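import Pool.Agent.Work.MLC.Cnt0

set_option autoImplicit false

/-! # N7: the projection lemma -/

namespace Pool.Agent.Work.MLC.Cnt

open Filter Topology Metric Set Complex MeasureTheory

/-- A preconnected set that meets `Q` and its complement meets the frontier of `Q`. -/
theorem inter_frontier67 {X : Type*} [TopologicalSpace X] {s Q : Set X} (hs : IsPreconnected s)
    (h1 : (s ∩ Q).Nonempty) (h2 : (s ∩ Qᶜ).Nonempty) : (s ∩ frontier Q).Nonempty := by
  by_contra h
  rw [not_nonempty_iff_eq_empty] at h
  have hsub : s ⊆ interior Q ∪ interior Qᶜ := by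
    intro x hx
    by_contra hx'
    rw [mem_union, not_or] at hx'
    have : x ∈ s ∩ frontier Q := by
      refine ⟨hx, ?_⟩
      rw [frontier_eq_closure_inter_closure]
      refine ⟨?_, ?_⟩
      · rw [closure_eq_compl_interior_compl]; exact hx'.2
      · rw [closure_compl]; exact hx'.1
    rw [h] at this
    exact this
  obtain ⟨a, has, haQ⟩ := h1
  obtain ⟨b, hbs, hbQ⟩ := h2
  have ha : a ∈ interior Q := by
    rcases hsub has with h' | h'
    · exact h'
    · exact absurd haQ (interior_subset h')
  have hb : b ∈ interior Qᶜ := by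
    rcases hsub hbs with h' | h'
    · exact absurd (interior_subset h') hbQ
    · exact h'
  obtain ⟨x, -, hx1, hx2⟩ := hs (interior Q) (interior Qᶜ) isOpen_interior isOpen_interior hsub
    ⟨a, has, ha⟩ ⟨b, hbs, hb⟩
  exact (interior_subset hx2) (interior_subset hx1)

theorem n7_proj : N7_proj := by
  intro Q K r ι F P _hQo hQb hK hrK hKQ hPb hfr z hz
  have hnn : 0 ≤ ∑ i ∈ F, diam (P i) := Finset.sum_nonneg fun i _ => diam_nonneg
  rcases eq_or_ne z r with h | hzr
  · rw [h, dist_self]; exact hnn
  -- the projection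
  set d : ℝ := ‖z - r‖ with hd
  have hd0 : 0 < d := norm_pos_iff.2 (sub_ne_zero.2 hzr)
  set v : ℂ := (z - r) / d with hv
  have hvn : ‖v‖ = 1 := by
    rw [hv, norm_div, Complex.norm_real, Real.norm_of_nonneg hd0.le, ← hd, div_self hd0.ne']
  let π : ℂ → ℝ := fun u => ((starRingEnd ℂ) v * u).re
  have hπc : Continuous π := by
    apply Complex.continuous_re.comp
    exact continuous_const.mul continuous_id
  have hπl : ∀ u w, |π u - π w| ≤ dist u w := by
    intro u w
    have : π u - π w = ((starRingEnd ℂ) v * (u - w)).re := by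
      simp only [π, ← Complex.sub_re]; congr 1; ring
    rw [this]
    calc |((starRingEnd ℂ) v * (u - w)).re| ≤ ‖(starRingEnd ℂ) v * (u - w)‖ :=
          Complex.abs_re_le_norm _
      _ = dist u w := by
          rw [norm_mul, RCLike.norm_conj, hvn, one_mul, dist_eq_norm]
  have hLip : LipschitzWith 1 π := LipschitzWith.of_dist_le_mul fun u w => by
    rw [Real.dist_eq, NNReal.coe_one, one_mul]; exact hπl u w
  have hπz : π z - π r = d := by
    have h1 : π z - π r = ((starRingEnd ℂ) v * (z - r)).re := by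
      simp only [π, ← Complex.sub_re]; congr 1; ring
    have h2 : z - r = v * d := by
      rw [hv, div_mul_cancel₀ _ (Complex.ofReal_ne_zero.2 hd0.ne')]
    rw [h1, h2, ← mul_assoc, ← Complex.normSq_eq_conj_mul_self, Complex.normSq_eq_norm_sq, hvn]
    simp
  -- every intermediate value is taken on the frontier
  have key : Ioo (π r) (π z) ⊆ ⋃ i ∈ F, π '' (P i) := by
    intro t ht
    obtain ⟨u, huK, hut⟩ : t ∈ π '' K := by
      have := hK.intermediate_value hrK hz hπc.continuousOn
      exact this ⟨ht.1.le, ht.2.le⟩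
    have hur : u ≠ r := by
      rintro rfl; exact absurd hut ht.1.ne
    have huQ : u ∈ Q := by
      rcases hKQ huK with h | h
      · exact h
      · exact absurd h hur
    -- the line
    let ℓ : ℝ → ℂ := fun s => u + (s : ℂ) * (I * v)
    have hℓc : Continuous ℓ := by
      apply continuous_const.add
      exact (Complex.continuous_ofReal).mul continuous_const
    have hℓπ : ∀ s, π (ℓ s) = t := by
      intro s
      have : (starRingEnd ℂ) v * ℓ s = (starRingEnd ℂ) v * u + ((s : ℂ) * I) *
          ((starRingEnd ℂ) v * v) := by simp only [ℓ]; ring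
      have h2 : (starRingEnd ℂ) v * v = 1 := by
        rw [← Complex.normSq_eq_conj_mul_self, Complex.normSq_eq_norm_sq, hvn]; simp
      simp only [π] at hut ⊢
      rw [this, h2, mul_one, Complex.add_re, hut]
      simp
    have hconn : IsPreconnected (range ℓ) := isPreconnected_range hℓc
    have h1 : (range ℓ ∩ Q).Nonempty := ⟨u, ⟨0, by simp [ℓ]⟩, huQ⟩
    have h2 : (range ℓ ∩ Qᶜ).Nonempty := by
      obtain ⟨R, hR⟩ := hQb.subset_closedBall 0
      refine ⟨ℓ (‖u‖ + |R| + 1), ⟨_, rfl⟩, fun hmem => ?_⟩
      have h3 := hR hmem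
      rw [mem_closedBall, dist_zero_right] at h3
      have h4 : ‖((‖u‖ + |R| + 1 : ℝ) : ℂ) * (I * v)‖ = ‖u‖ + |R| + 1 := by
        rw [norm_mul, norm_mul, Complex.norm_I, hvn, Complex.norm_real, Real.norm_of_nonneg
          (by positivity)]; ring
      have h5 : ‖((‖u‖ + |R| + 1 : ℝ) : ℂ) * (I * v)‖ ≤ ‖ℓ (‖u‖ + |R| + 1)‖ + ‖u‖ := by
        have : ((‖u‖ + |R| + 1 : ℝ) : ℂ) * (I * v) = ℓ (‖u‖ + |R| + 1) - u := by
          simp only [ℓ]; ring
        rw [this]; exact norm_sub_le _ _
      have := le_abs_self R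
      rw [h4] at h5
      linarith
    obtain ⟨w, ⟨s, hs⟩, hw⟩ := inter_frontier67 hconn h1 h2
    have hwt : π w = t := by rw [← hs]; exact hℓπ s
    have hw' := hfr hw
    rw [mem_iUnion₂] at hw' ⊢
    obtain ⟨i, hi, hwi⟩ := hw'
    exact ⟨i, hi, w, hwi, hwt⟩
  -- measure
  have hvol : ENNReal.ofReal d ≤ ∑ i ∈ F, ENNReal.ofReal (diam (P i)) := by
    calc ENNReal.ofReal d = volume (Ioo (π r) (π z)) := by rw [Real.volume_Ioo, hπz]
      _ ≤ volume (⋃ i ∈ F, π '' (P i)) := measure_mono key
      _ ≤ ∑ i ∈ F, volume (π '' (P i)) := measure_biUnion_finset_le _ _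
      _ ≤ ∑ i ∈ F, ENNReal.ofReal (diam (P i)) := by
          refine Finset.sum_le_sum fun i hi => ?_
          calc volume (π '' (P i)) ≤ ediam (π '' (P i)) := Real.volume_le_diam _
            _ ≤ ediam (P i) := by
                have := hLip.ediam_image_le (P i)
                simpa using this
            _ = ENNReal.ofReal (diam (P i)) := by
                rw [diam, ENNReal.ofReal_toReal]
                exact (hPb i hi).ediam_ne_top
  rw [← ENNReal.ofReal_sum_of_nonneg (fun i _ => diam_nonneg)] at hvol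
  rw [dist_eq_norm]
  exact (ENNReal.ofReal_le_ofReal_iff hnn).1 hvol

end Pool.Agent.Work.MLC.Cnt
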