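import Pool.Agent.Work.MLC.CntQ78
import Pool.Agent.Work.MLC.CntA86

set_option autoImplicit false

/-! # Module R2 of Theorem Q: averaging over a finite family of rays, with weights (helper24) -/

namespace Pool.Agent.Work.MLC.Cnt

open Filter Topology Metric Set Complex MeasureTheory

/-- weighted sum of volumes -/
lemma wsum_vol {κ : Type} (F : Finset κ) (S : κ → Set ℂ) (T : Set ℂ) (β : κ → ℝ) (m : ℝ)
    (hS : ∀ x ∈ F, MeasurableSet (S x)) (hT : MeasurableSet T) (hTf : volume T ≠ ⊤)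
    (hsub : ∀ x ∈ F, S x ⊆ T)
    (hc : ∀ c ∈ T, ∑ x ∈ F, (S x).indicator (fun _ => β x) c ≤ m) :
    ∑ x ∈ F, β x * (volume (S x)).toReal ≤ m * (volume T).toReal := by
  have : IsFiniteMeasure (volume.restrict T) := ⟨by
    rw [Measure.restrict_apply_univ]; exact lt_top_iff_ne_top.2 hTf⟩
  have h1 : ∀ x ∈ F, β x * (volume (S x)).toReal =
      ∫ c in T, (S x).indicator (fun _ => β x) c := by
    intro x hx
    rw [integral_indicator_const _ (hS x hx), Measure.real, Measure.restrict_apply (hS x hx),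
      inter_eq_left.2 (hsub x hx), smul_eq_mul, mul_comm]
  rw [Finset.sum_congr rfl h1, ← integral_finsetSum]
  · calc ∫ c in T, ∑ x ∈ F, (S x).indicator (fun _ => β x) c ≤ ∫ _ in T, m := by
          refine setIntegral_mono_on ?_ (integrable_const _) hT hc
          exact integrable_finsetSum _ fun x hx => (integrable_const _).indicator (hS x hx)
      _ = m * (volume T).toReal := by
          rw [integral_const, Measure.real, Measure.restrict_apply_univ, smul_eq_mul, mul_comm]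
  · intro x hx
    exact (integrable_const _).indicator (hS x hx)

/-- a ray segment is the union of dyadic pieces -/
lemma diam_raySeg_le (t h : ℝ) (hh : 0 < h) (hh1 : h ≤ 1) (I : ℕ) :
    diam (RaySeg t (h / 2 ^ I) h) ≤
      ∑ i ∈ Finset.range I, 20 * √((volume (cOf '' WB t (h / 2 ^ i))).toReal) := by
  induction I with
  | zero =>
    have : RaySeg t (h / 2 ^ 0) h = {cOf ((h : ℂ) + 2 * Real.pi * t * I)} := by
      simp [RaySeg]
    rw [this, diam_singleton]
    simp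
  | succ J ih =>
    rw [Finset.sum_range_succ]
    have hp : (0 : ℝ) < 2 ^ J := by positivity
    have h1 : RaySeg t (h / 2 ^ (J + 1)) h =
        RaySeg t (h / 2 ^ J) h ∪ RaySeg t (h / 2 ^ J / 2) (h / 2 ^ J) := by
      unfold RaySeg
      rw [← image_union, Set.union_comm, Icc_union_Icc_eq_Icc]
      · congr 2
        rw [pow_succ]; field_simp
      · have : 0 < h / 2 ^ J := by positivity
        linarith
      · exact div_le_self hh.le (one_le_pow₀ (by norm_num))
    rw [h1]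
    refine (diam_union' ?_).trans (add_le_add ih ?_)
    · have h2 : h / 2 ^ J ≤ h := div_le_self hh.le (one_le_pow₀ (by norm_num))
      have h3 : 0 < h / 2 ^ J := by positivity
      exact ⟨_, ⟨h / 2 ^ J, ⟨le_rfl, h2⟩, rfl⟩, ⟨h / 2 ^ J, ⟨by linarith, le_rfl⟩, rfl⟩⟩
    · refine q_whitney t (h / 2 ^ J) (by positivity) ?_
      exact (div_le_self hh.le (one_le_pow₀ (by norm_num))).trans hh1

lemma isOpen_WB (t h : ℝ) : IsOpen (WB t h) := by
  have e : WB t h = {z : ℂ | h / 4 < z.re} ∩ ({z : ℂ | z.re < 2 * h} ∩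
      {z : ℂ | |z.im - 2 * Real.pi * t| < h / 16}) := rfl
  rw [e]
  exact (isOpen_lt (by fun_prop) (by fun_prop)).inter
    ((isOpen_lt (by fun_prop) (by fun_prop)).inter (isOpen_lt (by fun_prop) (by fun_prop)))

open Classical in
/-- **averaging, with weights**: the weighted mean of the lengths of the rays `τ x`, `x ∈ X`,
between the potentials `h / 2 ^ I` and `h`; `M i` is a bound for the weight of the rays in an
interval of length `h / 2 ^ i` (modulo one), `R` contains all Whitney boxes -/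
theorem q_avg_mod {κ : Type} (X : Finset κ) (β τ : κ → ℝ) (h : ℝ) (I : ℕ) (M : ℕ → ℝ) (R : Set ℂ)
    (hβ : ∀ x ∈ X, 0 ≤ β x) (hβ1 : ∑ x ∈ X, β x ≤ 1) (hh : 0 < h) (hh1 : h ≤ 1)
    (hM : ∀ i < I, ∀ a : ℝ, ∑ x ∈ X with ∃ k : ℤ, a ≤ τ x + k ∧ τ x + k ≤ a + h / 2 ^ i, β x ≤ M i)
    (hRm : MeasurableSet (cOf '' R)) (hRf : volume (cOf '' R) ≠ ⊤)
    (hR : ∀ x ∈ X, ∀ i < I, WB (τ x) (h / 2 ^ i) ⊆ R) :
    ∑ x ∈ X, β x * diam (RaySeg (τ x) (h / 2 ^ I) h) ≤
      35 * √((∑ i ∈ Finset.range I, M i) * (volume (cOf '' R)).toReal) := by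
  have hpi := Real.pi_gt_three
  have hpi0 := Real.pi_pos
  have hhi : ∀ i : ℕ, 0 < h / 2 ^ i := fun i => by positivity
  set S : ℕ → κ → Set ℂ := fun i x => cOf '' WB (τ x) (h / 2 ^ i) with hS
  have hSo : ∀ i x, IsOpen (S i x) := fun i x =>
    isOpen_image_cOf (isOpen_WB _ _) (qw_sub (hhi i))
  set T : ℕ → Set ℂ := fun i => ⋃ x ∈ X, S i x with hT
  have hTo : ∀ i, IsOpen (T i) := fun i => isOpen_biUnion fun x _ => hSo i x
  have hTR : ∀ i < I, T i ⊆ cOf '' R := by
    intro i hi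
    refine iUnion₂_subset fun x hx => image_mono (hR x hx i hi)
  have hTf : ∀ i < I, volume (T i) ≠ ⊤ := fun i hi =>
    ne_top_of_le_ne_top hRf (measure_mono (hTR i hi))
  have hST : ∀ i, ∀ x ∈ X, S i x ⊆ T i := fun i x hx => subset_biUnion_of_mem (u := S i) hx
  set A : ℕ → ℝ := fun i => (volume (T i)).toReal with hA
  have hA0 : ∀ i, 0 ≤ A i := fun i => ENNReal.toReal_nonneg
  have hM0 : ∀ i < I, 0 ≤ M i := by
    intro i hi
    refine le_trans ?_ (hM i hi 0)
    exact Finset.sum_nonneg fun x hx => hβ x (Finset.mem_filter.1 hx).1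
  -- one scale
  have key1 : ∀ i < I, ∑ x ∈ X, β x * (volume (S i x)).toReal ≤ M i * A i := by
    intro i hi
    refine wsum_vol X (S i) (T i) β (M i) (fun x _ => (hSo i x).measurableSet)
      (hTo i).measurableSet (hTf i hi) (hST i) ?_
    intro c hc
    obtain ⟨x₀, hx₀, z₀, hz₀, rfl⟩ := by simpa [hT, hS] using hc
    have hz0 : 0 < z₀.re := qw_sub (hhi i) hz₀
    refine le_trans ?_ (hM i hi (z₀.im / (2 * Real.pi) - h / 2 ^ i / 2))
    rw [Finset.sum_filter]
    refine Finset.sum_le_sum fun x hx => ?_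
    by_cases hcx : cOf z₀ ∈ S i x
    · rw [Set.indicator_of_mem hcx, if_pos]
      obtain ⟨z, hz, hzc⟩ := hcx
      have hz1 : 0 < z.re := qw_sub (hhi i) hz
      obtain ⟨k, hk⟩ := (cOf_eq_iff hz1 hz0).1 hzc
      have him : z₀.im = z.im + 2 * Real.pi * k := by rw [hk]; simp
      have h3 := hz.2.2
      rw [abs_lt] at h3
      refine ⟨k, ?_, ?_⟩
      · have h4 : z₀.im / (2 * Real.pi) ≤ τ x + k + h / 2 ^ i / 2 := by
          rw [div_le_iff₀ (by positivity), him]
          nlinarith [hhi i, h3.2]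
        linarith
      · have h4 : τ x + k ≤ z₀.im / (2 * Real.pi) + h / 2 ^ i / 2 := by
          rw [← sub_le_iff_le_add, le_div_iff₀ (by positivity), him]
          nlinarith [hhi i, h3.1]
        linarith
    · rw [Set.indicator_of_notMem hcx]
      split_ifs
      · exact hβ x hx
      · exact le_rfl
  have key2 : ∀ i < I, ∑ x ∈ X, β x * √((volume (S i x)).toReal) ≤ √(M i) * √(A i) := by
    intro i hi
    have h1 := Real.sum_mul_le_sqrt_mul_sqrt X (fun x => √(β x))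
      (fun x => √(β x) * √((volume (S i x)).toReal))
    have h2 : ∑ x ∈ X, √(β x) * (√(β x) * √((volume (S i x)).toReal)) =
        ∑ x ∈ X, β x * √((volume (S i x)).toReal) := by
      refine Finset.sum_congr rfl fun x hx => ?_
      rw [← mul_assoc, Real.mul_self_sqrt (hβ x hx)]
    have h3 : ∑ x ∈ X, √(β x) ^ 2 = ∑ x ∈ X, β x :=
      Finset.sum_congr rfl fun x hx => Real.sq_sqrt (hβ x hx)
    have h4 : ∑ x ∈ X, (√(β x) * √((volume (S i x)).toReal)) ^ 2 =
        ∑ x ∈ X, β x * (volume (S i x)).toReal := by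
      refine Finset.sum_congr rfl fun x hx => ?_
      rw [mul_pow, Real.sq_sqrt (hβ x hx), Real.sq_sqrt ENNReal.toReal_nonneg]
    rw [h2, h3, h4] at h1
    refine h1.trans ?_
    have h5 : √(∑ x ∈ X, β x) ≤ 1 := Real.sqrt_le_one.2 hβ1
    calc √(∑ x ∈ X, β x) * √(∑ x ∈ X, β x * (volume (S i x)).toReal)
        ≤ 1 * √(M i * A i) :=
          mul_le_mul h5 (Real.sqrt_le_sqrt (key1 i hi)) (Real.sqrt_nonneg _) zero_le_one
      _ = √(M i) * √(A i) := by rw [one_mul, Real.sqrt_mul (hM0 i hi)]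
  -- the scales overlap three times
  have key3 : ∑ i ∈ Finset.range I, 1 * (volume (T i)).toReal ≤
      3 * (volume (cOf '' R)).toReal := by
    refine wsum_vol (Finset.range I) T (cOf '' R) (fun _ => 1) 3
      (fun i _ => (hTo i).measurableSet) hRm hRf (fun i hi => hTR i (Finset.mem_range.1 hi)) ?_
    intro c _
    have h1 : ∑ i ∈ Finset.range I, (T i).indicator (fun _ => (1 : ℝ)) c =
        (((Finset.range I).filter fun i => c ∈ T i).card : ℝ) := by
      rw [Finset.card_filter]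
      push_cast
      refine Finset.sum_congr rfl fun i _ => ?_
      simp [Set.indicator_apply]
    rw [h1]
    rcases ((Finset.range I).filter fun i => c ∈ T i).eq_empty_or_nonempty with he | hne
    · rw [he]; simp
    · obtain ⟨i₀, hi₀, hmin⟩ := Finset.exists_min_image _ (fun i : ℕ => i) hne
      have hsub : ((Finset.range I).filter fun i => c ∈ T i) ⊆ Finset.Ico i₀ (i₀ + 3) := by
        intro i hi
        rw [Finset.mem_Ico]
        refine ⟨hmin i hi, ?_⟩
        obtain ⟨x₀, -, z₀, hz₀, hc0⟩ := by simpa [hT, hS] using (Finset.mem_filter.1 hi₀).2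
        obtain ⟨x₁, -, z₁, hz₁, hc1⟩ := by simpa [hT, hS] using (Finset.mem_filter.1 hi).2
        have hr0 : 0 < z₀.re := qw_sub (hhi i₀) hz₀
        have hr1 : 0 < z₁.re := qw_sub (hhi i) hz₁
        obtain ⟨k, hk⟩ := (cOf_eq_iff hr0 hr1).1 (hc0.trans hc1.symm)
        have hre : z₁.re = z₀.re := by rw [hk]; simp
        have h2 : h / 2 ^ i₀ / 4 < 2 * (h / 2 ^ i) := by
          have := hz₀.1
          have := hz₁.2.1
          linarith
        by_contra hcon
        push Not at hcon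
        have h3 : (2 : ℝ) ^ (i₀ + 3) ≤ 2 ^ i := pow_le_pow_right₀ (by norm_num) hcon
        have h4 : h / 2 ^ i ≤ h / 2 ^ (i₀ + 3) := div_le_div_of_nonneg_left hh.le (by positivity) h3
        have h5 : h / 2 ^ (i₀ + 3) = h / 2 ^ i₀ / 8 := by
          rw [pow_add]; field_simp; norm_num
        have h6 := hhi i₀
        linarith
      have h2 := Finset.card_le_card hsub
      rw [Nat.card_Ico] at h2
      have h3 : (((Finset.range I).filter fun i => c ∈ T i).card) ≤ 3 := by omega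
      exact_mod_cast h3
  simp only [one_mul] at key3
  -- the sum
  have hd : ∀ x ∈ X, β x * diam (RaySeg (τ x) (h / 2 ^ I) h) ≤
      ∑ i ∈ Finset.range I, 20 * (β x * √((volume (S i x)).toReal)) := by
    intro x hx
    refine (mul_le_mul_of_nonneg_left (diam_raySeg_le (τ x) h hh hh1 I) (hβ x hx)).trans ?_
    rw [Finset.mul_sum]
    refine Finset.sum_le_sum fun i _ => ?_
    rw [mul_left_comm]
  refine (Finset.sum_le_sum hd).trans ?_
  rw [Finset.sum_comm]
  have h6 : ∀ i ∈ Finset.range I, ∑ x ∈ X, 20 * (β x * √((volume (S i x)).toReal)) ≤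
      20 * (√(M i) * √(A i)) := by
    intro i hi
    rw [← Finset.mul_sum]
    exact mul_le_mul_of_nonneg_left (key2 i (Finset.mem_range.1 hi)) (by norm_num)
  refine (Finset.sum_le_sum h6).trans ?_
  rw [← Finset.mul_sum]
  have h7 := Real.sum_mul_le_sqrt_mul_sqrt (Finset.range I) (fun i => √(M i)) (fun i => √(A i))
  have h8 : ∑ i ∈ Finset.range I, √(M i) ^ 2 = ∑ i ∈ Finset.range I, M i :=
    Finset.sum_congr rfl fun i hi => Real.sq_sqrt (hM0 i (Finset.mem_range.1 hi))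
  have h9 : ∑ i ∈ Finset.range I, √(A i) ^ 2 = ∑ i ∈ Finset.range I, A i :=
    Finset.sum_congr rfl fun i _ => Real.sq_sqrt (hA0 i)
  rw [h8, h9] at h7
  have hMs : 0 ≤ ∑ i ∈ Finset.range I, M i :=
    Finset.sum_nonneg fun i hi => hM0 i (Finset.mem_range.1 hi)
  have h10 : √(∑ i ∈ Finset.range I, A i) ≤ √3 * √((volume (cOf '' R)).toReal) := by
    rw [← Real.sqrt_mul (by norm_num)]
    exact Real.sqrt_le_sqrt key3
  have h11 : √3 ≤ 7 / 4 := by
    rw [Real.sqrt_le_left (by norm_num)]; norm_num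
  calc 20 * ∑ i ∈ Finset.range I, √(M i) * √(A i)
      ≤ 20 * (√(∑ i ∈ Finset.range I, M i) * √(∑ i ∈ Finset.range I, A i)) := by linarith
    _ ≤ 20 * (√(∑ i ∈ Finset.range I, M i) * (7 / 4 * √((volume (cOf '' R)).toReal))) := by
        refine mul_le_mul_of_nonneg_left (mul_le_mul_of_nonneg_left (h10.trans ?_)
          (Real.sqrt_nonneg _)) (by norm_num)
        exact mul_le_mul_of_nonneg_right h11 (Real.sqrt_nonneg _)
    _ = 35 * √((∑ i ∈ Finset.range I, M i) * (volume (cOf '' R)).toReal) := by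
        rw [Real.sqrt_mul hMs]; ring

lemma isOpen_FB (s t : ℝ) : IsOpen (FB s t) := by
  have e : FB s t = {z : ℂ | 0 < z.re} ∩ ({z : ℂ | z.re < 2 * (t - s)} ∩
      ({z : ℂ | 2 * Real.pi * s - z.re / 4 < z.im} ∩
        {z : ℂ | z.im < 2 * Real.pi * t + z.re / 4})) := rfl
  rw [e]
  exact (isOpen_lt (by fun_prop) (by fun_prop)).inter
    ((isOpen_lt (by fun_prop) (by fun_prop)).inter
      ((isOpen_lt (by fun_prop) (by fun_prop)).inter (isOpen_lt (by fun_prop) (by fun_prop))))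

lemma FB_sub (s t : ℝ) : FB s t ⊆ {L | 0 < L.re} := fun _ h => h.1

lemma meas_FB (s t : ℝ) : MeasurableSet (cOf '' FB s t) :=
  (isOpen_image_cOf (isOpen_FB s t) (FB_sub s t)).measurableSet

lemma vol_FB_ne {s t : ℝ} (hst : t - s ≤ 1) : volume (cOf '' FB s t) ≠ ⊤ := by
  refine ((measure_mono (qw_bdd ?_)).trans_lt measure_ball_lt_top).ne
  rintro z ⟨h1, h2, -, -⟩
  exact ⟨h1, by linarith⟩

/-- the Whitney boxes are in the full box -/
lemma WB_sub_FB {α h τ : ℝ} (hh : 0 < h) (h1 : α ≤ τ) (h2 : τ ≤ α + h) (i : ℕ) :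
    WB τ (h / 2 ^ i) ⊆ FB α (α + h) := by
  have hpi := Real.pi_gt_three
  have h3 : h / 2 ^ i ≤ h := div_le_self hh.le (one_le_pow₀ (by norm_num))
  have h4 : 0 < h / 2 ^ i := by positivity
  rintro z ⟨h5, h6, h7⟩
  rw [abs_lt] at h7
  refine ⟨by linarith, by linarith, ?_, ?_⟩
  · nlinarith [h7.1]
  · nlinarith [h7.2]

open Classical in
/-- the number of points modulo one in an interval -/
lemma sum_mod_le {κ : Type} (X : Finset κ) (β τ : κ → ℝ) {α l m : ℝ} (hβ : ∀ x ∈ X, 0 ≤ β x)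
    (hl : l ≤ 1) (hτ : ∀ x ∈ X, α ≤ τ x ∧ τ x ≤ α + 1)
    (hm : ∀ a : ℝ, ∑ x ∈ X with a ≤ τ x ∧ τ x ≤ a + l, β x ≤ m) (a : ℝ) :
    ∑ x ∈ X with ∃ k : ℤ, a ≤ τ x + k ∧ τ x + k ≤ a + l, β x ≤ 3 * m := by
  set k₀ : ℤ := ⌈a - α - 1⌉ with hk₀
  have h1 : ∑ x ∈ X with ∃ k : ℤ, a ≤ τ x + k ∧ τ x + k ≤ a + l, β x ≤
      ∑ e ∈ Finset.range 3, ∑ x ∈ X with (a - (k₀ + e)) ≤ τ x ∧ τ x ≤ (a - (k₀ + e)) + l, β x := by
    rw [Finset.sum_filter]
    have h2 : ∑ e ∈ Finset.range 3, ∑ x ∈ X with (a - (k₀ + e)) ≤ τ x ∧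
        τ x ≤ (a - (k₀ + e)) + l, β x =
        ∑ x ∈ X, ∑ e ∈ Finset.range 3, if ((a - (k₀ + e)) ≤ τ x ∧
        τ x ≤ (a - (k₀ + e)) + l) then β x else 0 := by
      rw [Finset.sum_comm]
      exact Finset.sum_congr rfl fun e _ => Finset.sum_filter _ _
    rw [h2]
    refine Finset.sum_le_sum fun x hx => ?_
    have hnn : ∀ e ∈ Finset.range 3, 0 ≤ if ((a - (k₀ + e)) ≤ τ x ∧
        τ x ≤ (a - (k₀ + e)) + l) then β x else 0 := by
      intro e _
      split_ifs
      · exact hβ x hx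
      · exact le_rfl
    split_ifs with hx2
    · obtain ⟨k, hk1, hk2⟩ := hx2
      have h3 : k₀ ≤ k := by
        rw [hk₀, Int.ceil_le]
        linarith [(hτ x hx).2]
      have h4 : k ≤ k₀ + 2 := by
        have h5 : a - α - 1 ≤ k₀ := Int.le_ceil _
        have h6 : (k : ℝ) ≤ k₀ + 2 := by linarith [(hτ x hx).1]
        exact_mod_cast h6
      obtain ⟨e, he⟩ : ∃ e : ℕ, k = k₀ + e := ⟨(k - k₀).toNat, by omega⟩
      have he3 : e ∈ Finset.range 3 := by rw [Finset.mem_range]; omega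
      refine le_trans (le_of_eq ?_) (Finset.single_le_sum hnn he3)
      rw [if_pos]
      have hke : (k : ℝ) = k₀ + e := by rw [he]; push_cast; ring
      constructor <;> linarith
    · exact Finset.sum_nonneg hnn
  refine h1.trans ((Finset.sum_le_sum (g := fun _ => m)
    fun (e : ℕ) _ => hm (a - ((k₀ : ℝ) + (e : ℝ)))).trans ?_)
  rw [Finset.sum_const, Finset.card_range, nsmul_eq_mul]
  norm_num

open Classical in
/-- averaging over the rays of an arc, with weights -/
theorem q_average_w {κ : Type} (X : Finset κ) (β τ : κ → ℝ) (α h : ℝ) (I : ℕ) (M : ℕ → ℝ)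
    (hβ : ∀ x ∈ X, 0 ≤ β x) (hβ1 : ∑ x ∈ X, β x ≤ 1) (hh : 0 < h) (hh1 : h ≤ 1)
    (hτ : ∀ x ∈ X, α ≤ τ x ∧ τ x ≤ α + h)
    (hM : ∀ i < I, ∀ a : ℝ, ∑ x ∈ X with a ≤ τ x ∧ τ x ≤ a + h / 2 ^ i, β x ≤ M i) :
    ∑ x ∈ X, β x * diam (RaySeg (τ x) (h / 2 ^ I) h) ≤
      70 * √((∑ i ∈ Finset.range I, M i) * fa α (α + h)) := by
  have h1 := q_avg_mod X β τ h I (fun i => 3 * M i) (FB α (α + h)) hβ hβ1 hh hh1 (fun i hi a =>
    sum_mod_le X β τ (α := α) hβ ((div_le_self hh.le (one_le_pow₀ (by norm_num))).trans hh1)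
      (fun x hx => ⟨(hτ x hx).1, by linarith [(hτ x hx).2]⟩) (hM i hi) a)
    (meas_FB _ _) (vol_FB_ne (by linarith)) (fun x hx i _ => WB_sub_FB hh (hτ x hx).1 (hτ x hx).2 i)
  refine h1.trans ?_
  rw [← Finset.mul_sum, mul_assoc, Real.sqrt_mul (by norm_num), ← mul_assoc]
  refine mul_le_mul_of_nonneg_right ?_ (Real.sqrt_nonneg _)
  have h2 : √3 ≤ 2 := by rw [Real.sqrt_le_left (by norm_num)]; norm_num
  linarith

/-- **Module R2.** -/
theorem q_average : Q_average := by
  classical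
  intro κ X τ α h I M hX hh hh1 hτ hM
  have hc : (0 : ℝ) < X.card := by exact_mod_cast hX.card_pos
  have h1 := q_average_w X (fun _ => 1 / (X.card : ℝ)) τ α h I M (fun _ _ => by positivity)
    (by rw [Finset.sum_const, nsmul_eq_mul, mul_one_div, div_self hc.ne']) hh hh1 hτ ?_
  · have h2 : ∑ x ∈ X, 1 / (X.card : ℝ) * diam (RaySeg (τ x) (h / 2 ^ I) h) ≤
        ∑ x ∈ X, 1 / (X.card : ℝ) * (200 * √((∑ i ∈ Finset.range I, M i) * fa α (α + h))) := by
      refine h1.trans ?_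
      rw [Finset.sum_const, nsmul_eq_mul, ← mul_assoc, mul_one_div, div_self hc.ne', one_mul]
      have := Real.sqrt_nonneg ((∑ i ∈ Finset.range I, M i) * fa α (α + h))
      linarith
    obtain ⟨x, hx, h3⟩ := Finset.exists_le_of_sum_le hX h2
    exact ⟨x, hx, le_of_mul_le_mul_left h3 (by positivity)⟩
  · intro i hi a
    rw [Finset.sum_const, nsmul_eq_mul, mul_one_div, div_le_iff₀ hc]
    refine le_trans (le_of_eq ?_) ((hM i hi).2 a)
    congr 2

end Pool.Agent.Work.MLC.Cnt
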