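import Pool.Agent.Work.MLC.CntW54
import Pool.Agent.Work.MLC.CntR15

set_option autoImplicit false

/-! # Theorem Q (random rays): definitions and interface (manager: helper26)

For all `m ≥ 1`, `Q ≥ 3` the sum of the squares of the diameters of all limbs of type `(m, Q)` is
`≤ C n log (2 n)`, `n = m Q`. See note 2208. -/

namespace Pool.Agent.Work.MLC.Cnt

open Filter Topology Metric Set Complex MeasureTheory
open Pool.Agent.Work.MLC.Sat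

/-- a component of period `m` with its wide section -/
structure WS where
  /-- the period -/
  m : ℕ
  /-- the word -/
  w : ℕ → ℤ
  /-- the strip -/
  k : ℤ
  /-- the section over `D0 m` -/
  σ : ℂ → ℂ × ℂ

namespace WS

/-- the data are a wide section with exact periods -/
structure Ok (W : WS) : Prop where
  wide : Pri.Wide W.m W.w W.k W.σ
  ex : ∀ L ∈ Pri.D0 W.m, Pri.Exa W.m (W.σ L)

/-- the chart of the component -/
def c (W : WS) (L : ℂ) : ℂ := (W.σ L).1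

/-- the rotation number -/
noncomputable def nu (W : WS) (θ : ℝ) : ℝ := Circ.nu W.w W.m θ - W.k

open Classical in
/-- the data of the root at `y` (`0 < y < 1`) -/
noncomputable def dat (W : WS) (y : ℚ) : Dat :=
  if h : W.Ok ∧ 0 < y ∧ y < 1 then (exists_dat_of_wide h.1.wide h.1.ex h.2.1 h.2.2).choose
  else ⟨0, 0, fun _ => (0, 0), fun _ => 0, 0, fun _ => 0, 0, 0, 0⟩

variable {W : WS} {y : ℚ}

lemma dat_choose (h : W.Ok) (h0 : 0 < y) (h1 : y < 1) :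
    (W.dat y).Par ∧ (W.dat y).Cir ∧ (W.dat y).m = W.m ∧ (W.dat y).x = y ∧ (W.dat y).k₀ = W.k ∧
      (∃ i₀ : ℕ, i₀ < W.m ∧ ((W.dat y).w = fun i => W.w (i + i₀)) ∧
        ∀ L, (W.dat y).σ L = ((W.σ L).1, it (W.σ L).1 i₀ (W.σ L).2)) ∧
      ∀ θ : ℝ, Circ.nu W.w W.m θ = W.k + y ↔ (W.dat y).tm ≤ θ ∧ θ ≤ (W.dat y).tp := by
  have hh : W.Ok ∧ 0 < y ∧ y < 1 := ⟨h, h0, h1⟩
  unfold dat
  rw [dif_pos hh]
  exact (exists_dat_of_wide hh.1.wide hh.1.ex hh.2.1 hh.2.2).choose_spec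

lemma dat_par (h : W.Ok) (h0 : 0 < y) (h1 : y < 1) : (W.dat y).Par := (dat_choose h h0 h1).1

lemma dat_cir (h : W.Ok) (h0 : 0 < y) (h1 : y < 1) : (W.dat y).Cir := (dat_choose h h0 h1).2.1

lemma dat_m (h : W.Ok) (h0 : 0 < y) (h1 : y < 1) : (W.dat y).m = W.m :=
  (dat_choose h h0 h1).2.2.1

lemma dat_x (h : W.Ok) (h0 : 0 < y) (h1 : y < 1) : (W.dat y).x = y :=
  (dat_choose h h0 h1).2.2.2.1

lemma dat_k (h : W.Ok) (h0 : 0 < y) (h1 : y < 1) : (W.dat y).k₀ = W.k :=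
  (dat_choose h h0 h1).2.2.2.2.1

/-- all data of `W` have the same chart -/
lemma dat_c (h : W.Ok) (h0 : 0 < y) (h1 : y < 1) (L : ℂ) : (W.dat y).c L = W.c L := by
  obtain ⟨i₀, -, -, h4⟩ := (dat_choose h h0 h1).2.2.2.2.2.1
  show ((W.dat y).σ L).1 = (W.σ L).1
  rw [h4]

lemma dat_a (h : W.Ok) (h0 : 0 < y) (h1 : y < 1) : (W.dat y).a = axisPt y := by
  show axisPt (W.dat y).x = _
  rw [dat_x h h0 h1]

/-- the plateau of `y` -/
lemma plateau (h : W.Ok) (h0 : 0 < y) (h1 : y < 1) (θ : ℝ) :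
    W.nu θ = y ↔ (W.dat y).tm ≤ θ ∧ θ ≤ (W.dat y).tp := by
  rw [← (dat_choose h h0 h1).2.2.2.2.2.2 θ]
  unfold nu
  constructor <;> intro h <;> linarith

lemma nu_mono (W : WS) : Monotone W.nu := fun a b hab => by
  have := Circ.nu_mono W.w W.m hab
  unfold nu
  linarith

/-- the two sections belong to the same component -/
def Same (W W' : WS) : Prop := W.m = W'.m ∧ ∀ L ∈ Pri.D0 W.m, W.c L = W'.c L

/-- the gate of radius `ρ` at `y` -/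
noncomputable def Gt (W : WS) (y : ℚ) (ρ : ℝ) : Set ℂ := W.c '' closedBall (axisPt y) ρ

/-- its left half -/
noncomputable def Hf (W : WS) (y : ℚ) (ρ : ℝ) : Set ℂ := W.c '' {L | L ∈ ball (axisPt y) ρ ∧ L.re < 0}

/-- the left end of the arc around `x` -/
noncomputable def al (W : WS) (x : ℚ) : ℝ := (W.dat (x - 1 / (4 * x.den))).tm

/-- the right end of the arc around `x` -/
noncomputable def be (W : WS) (x : ℚ) : ℝ := (W.dat (x + 1 / (4 * x.den))).tp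

end WS

/-- the roof of height `h` over `[s, t]` -/
noncomputable def RoofH (h s t : ℝ) : Set ℂ :=
  (fun u : ℝ => cOf ((h : ℂ) + 2 * Real.pi * u * I)) '' Icc s t

/-- a Whitney box -/
def WB (t h : ℝ) : Set ℂ := {z | h / 4 < z.re ∧ z.re < 2 * h ∧ |z.im - 2 * Real.pi * t| < h / 16}

/-- the full box over the arc `(s, t)` -/
def FB (s t : ℝ) : Set ℂ :=
  {z | 0 < z.re ∧ z.re < 2 * (t - s) ∧ 2 * Real.pi * s - z.re / 4 < z.im ∧
    z.im < 2 * Real.pi * t + z.re / 4}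

/-- the area of the full box -/
noncomputable def fa (s t : ℝ) : ℝ := (volume (cOf '' FB s t)).toReal

/-! ## The modules: statements -/

/-- T (topology): the limb of `x` is surrounded by the ray of the left end of the plateau of `x₁`,
the ray of the right end of the plateau of `x₂`, the roof and the gates between `x₁` and `x₂` -/
def Q_top : Prop := ∀ W : WS, W.Ok → ∀ x x₁ x₂ : ℚ, 0 < x₁ → x₁ < x → x < x₂ → x₂ < 1 →
  ∀ (g h : ℝ), 0 < g → g ≤ h → ∀ (κ : Type) (F : Finset κ) (P : κ → Set ℂ),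
  (∀ i ∈ F, Bornology.IsBounded (P i)) →
  (∀ y : ℝ, (x₁ : ℝ) ≤ y → y ≤ x₂ → ∃ i ∈ F, W.c (2 * Real.pi * y * I) ∈ P i) →
  (∀ u : ℝ, 0 < u → u ≤ g → ∃ i ∈ F, cOf ((u : ℂ) + 2 * Real.pi * (W.dat x₁).tm * I) ∈ P i) →
  (∀ u : ℝ, 0 < u → u ≤ g → ∃ i ∈ F, cOf ((u : ℂ) + 2 * Real.pi * (W.dat x₂).tp * I) ∈ P i) →
  diam (Lm (W.dat x)) ≤ diam (RaySeg (W.dat x₁).tm g h) + diam (RaySeg (W.dat x₂).tp g h) +
    diam (RoofH h (W.dat x₁).tm (W.dat x₂).tp) + ∑ i ∈ F, diam (P i)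

/-- G1: the size of a gate -/
def Q_gate : Prop := ∀ W : WS, W.Ok → ∀ (y : ℚ) (ρ : ℝ), 0 < y → y < 1 → 0 < ρ →
  ρ ≤ gR W.m y / 8 → MeasurableSet (W.Hf y ρ) ∧ Bornology.IsBounded (W.Gt y ρ) ∧
    diam (W.Gt y ρ) ≤ 10 ^ 6 * √((volume (W.Hf y ρ)).toReal)

/-- G2: the halves of the gates on the grid `(1 / B) ℤ` have bounded overlap, over all components of
period `m` (`i` is a pair `(W, x)`, `Y i` the grid points near `x`) -/
def Q_halves : Prop := ∀ (m B : ℕ) (ι : Type) (F : Finset ι) (W : ι → WS) (Y : ι → Finset ℕ),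
  0 < B → (∀ i ∈ F, (W i).Ok ∧ (W i).m = m) →
  (∀ i ∈ F, ∀ j ∈ F, i ≠ j → ¬ WS.Same (W i) (W j) ∨ Disjoint (Y i) (Y j)) →
  (∀ i ∈ F, ∀ a ∈ Y i, 0 < a ∧ a < B ∧ 10 / (B : ℝ) ≤ gR m ((a : ℚ) / B) / 8) →
  ∑ i ∈ F, ∑ a ∈ Y i, (volume ((W i).Hf ((a : ℚ) / B) (10 / B))).toReal ≤ 10 ^ 4

/-- R1: one Whitney box of a ray -/
def Q_whitney : Prop := ∀ t h : ℝ, 0 < h → h ≤ 1 →
  diam (RaySeg t (h / 2) h) ≤ 20 * √((volume (cOf '' WB t h)).toReal)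

/-- R2: averaging: some ray of the finite family is short -/
def Q_average : Prop := ∀ (κ : Type) (X : Finset κ) (τ : κ → ℝ) (α h : ℝ) (I : ℕ) (M : ℕ → ℝ),
  X.Nonempty → 0 < h → h ≤ 1 → (∀ x ∈ X, α ≤ τ x ∧ τ x ≤ α + h) →
  (∀ i < I, 0 ≤ M i ∧ ∀ a : ℝ, ((X.filter fun x => a ≤ τ x ∧ τ x ≤ a + h / 2 ^ i).card : ℝ) ≤
    M i * X.card) →
  ∃ x ∈ X, diam (RaySeg (τ x) (h / 2 ^ I) h) ≤
    200 * √((∑ i ∈ Finset.range I, M i) * fa α (α + h))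

/-- R3: counting of rationals -/
def Q_count : Prop := (∀ (a b : ℝ) (N : ℕ), a < b → b - a ≤ 1 → 10 ^ 4 ≤ (b - a) ^ 2 * N →
    ∃ X : Finset ℚ, (∀ x ∈ X, a < x ∧ x < b ∧ x.den ≤ N) ∧ (b - a) * (N : ℝ) ^ 2 / 20 ≤ X.card) ∧
  ∀ (X : Finset ℚ) (N : ℕ) (u ω : ℝ), 0 ≤ ω → (∀ x ∈ X, x.den ≤ N) →
    ((X.filter fun x : ℚ => u ≤ x ∧ (x : ℝ) ≤ u + ω).card : ℝ) ≤ ω * (N : ℝ) ^ 2 + 1

/-- D: the arcs `(al, be)` of different data `(W, x)` with the same `m` and `Q` are disjoint modulo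
one -/
def Q_disj : Prop := ∀ (W W' : WS) (x x' : ℚ), W.Ok → W'.Ok → W.m = W'.m → 0 < x → x < 1 →
  0 < x' → x' < 1 → x.den = x'.den → 3 ≤ x.den → (x ≠ x' ∨ ¬ WS.Same W W') →
  ∀ l : ℤ, Disjoint (Ioo (W.al x) (W.be x)) (Ioo (W'.al x' + l) (W'.be x' + l))

/-- A: full boxes over disjoint arcs overlap boundedly -/
def Q_area : Prop := ∀ (ι : Type) (F : Finset ι) (s t : ι → ℝ),
  (∀ i ∈ F, s i < t i ∧ t i - s i ≤ 1) →
  (∀ i ∈ F, ∀ j ∈ F, i ≠ j → ∀ k : ℤ, Disjoint (Ioo (s i) (t i)) (Ioo (s j + k) (t j + k))) →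
  ∑ i ∈ F, fa (s i) (t i) ≤ 10 ^ 5

/-- R5: a short ray on each side of `x`, which ends in a small gate -/
def Q_ray (C : ℝ) : Prop := ∀ W : WS, W.Ok → ∀ x : ℚ, 0 < x → x < 1 → 3 ≤ x.den →
  ∃ (x₁ x₂ : ℚ) (g : ℝ), x - 1 / (4 * x.den) ≤ x₁ ∧ x₁ < x ∧ x < x₂ ∧
    x₂ ≤ x + 1 / (4 * x.den) ∧ 0 < g ∧ g ≤ W.be x - W.al x ∧
    (∀ u : ℝ, 0 < u → u ≤ g → cOf ((u : ℂ) + 2 * Real.pi * (W.dat x₁).tm * I) ∈
      W.Gt x₁ (6 / (2000 * W.m * (x.den : ℝ) ^ 2))) ∧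
    (∀ u : ℝ, 0 < u → u ≤ g → cOf ((u : ℂ) + 2 * Real.pi * (W.dat x₂).tp * I) ∈
      W.Gt x₂ (6 / (2000 * W.m * (x.den : ℝ) ^ 2))) ∧
    diam (RaySeg (W.dat x₁).tm g (W.be x - W.al x)) ≤
      C * √((W.m * x.den * Real.log (2 * W.m * x.den)) * fa (W.al x) (W.be x)) ∧
    diam (RaySeg (W.dat x₂).tp g (W.be x - W.al x)) ≤
      C * √((W.m * x.den * Real.log (2 * W.m * x.den)) * fa (W.al x) (W.be x))

end Pool.Agent.Work.MLC.Cnt
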