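import Pool.Agent.Work.MLC.CntQ26

set_option autoImplicit false

namespace Pool.Agent.Work.MLC.Cnt.QC53

open Finset

/-- integers strictly between `a q` and `b q` -/
noncomputable def K (a b : ℝ) (q : ℕ) : Finset ℤ := Ioo ⌊a * q⌋ ⌈b * q⌉

lemma mem_K {a b : ℝ} {q : ℕ} {k : ℤ} : k ∈ K a b q ↔ a * q < k ∧ k < b * q := by
  unfold K
  rw [mem_Ioo, Int.floor_lt, Int.lt_ceil]

lemma card_K_ge {a b : ℝ} (q : ℕ) : (b - a) * q - 1 ≤ ((K a b q).card : ℝ) := by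
  unfold K
  rw [Int.card_Ioo]
  have h1 : (b * q : ℝ) ≤ ⌈b * q⌉ := Int.le_ceil _
  have h2 : (⌊a * q⌋ : ℝ) ≤ a * q := Int.floor_le _
  have h3 : ((⌈b * q⌉ - ⌊a * q⌋ - 1 : ℤ) : ℝ) ≤ (((⌈b * q⌉ - ⌊a * q⌋ - 1 : ℤ).toNat : ℤ) : ℝ) := by
    exact_mod_cast Int.self_le_toNat _
  push_cast at h3
  have h4 : (((⌈b * q⌉ - ⌊a * q⌋ - 1 : ℤ).toNat : ℕ) : ℝ) = (((⌈b * q⌉ - ⌊a * q⌋ - 1 : ℤ).toNat : ℤ) : ℝ) := by
    norm_cast
  push_cast at h4
  linarith

lemma card_K_le {a b : ℝ} (hab : a < b) (q : ℕ) : ((K a b q).card : ℝ) ≤ (b - a) * q + 1 := by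
  unfold K
  rw [Int.card_Ioo]
  have h1 : (⌈b * q⌉ : ℝ) < b * q + 1 := Int.ceil_lt_add_one _
  have h2 : a * q - 1 < (⌊a * q⌋ : ℝ) := Int.sub_one_lt_floor _
  rcases le_or_gt (⌈b * q⌉ - ⌊a * q⌋ - 1) 0 with h | h
  · rw [Int.toNat_of_nonpos h]
    have : (0 : ℝ) ≤ (b - a) * q := mul_nonneg (by linarith) (Nat.cast_nonneg _)
    push_cast
    linarith
  · have h3 : (((⌈b * q⌉ - ⌊a * q⌋ - 1 : ℤ).toNat : ℤ) : ℝ) = ((⌈b * q⌉ - ⌊a * q⌋ - 1 : ℤ) : ℝ) := by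
      rw [Int.toNat_of_nonneg h.le]
    have h4 : (((⌈b * q⌉ - ⌊a * q⌋ - 1 : ℤ).toNat : ℕ) : ℝ) = (((⌈b * q⌉ - ⌊a * q⌋ - 1 : ℤ).toNat : ℤ) : ℝ) := by
      norm_cast
    rw [h4, h3]
    push_cast
    linarith

/-- all pairs -/
noncomputable def P (a b : ℝ) (N : ℕ) : Finset (Σ _ : ℕ, ℤ) := (Icc 1 N).sigma fun q => K a b q

lemma mem_P {a b : ℝ} {N : ℕ} {z : Σ _ : ℕ, ℤ} :
    z ∈ P a b N ↔ (1 ≤ z.1 ∧ z.1 ≤ N) ∧ a * z.1 < z.2 ∧ z.2 < b * z.1 := by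
  unfold P
  rw [mem_sigma, mem_Icc, mem_K]

lemma sum_id (N : ℕ) : ∑ q ∈ Icc 1 N, (q : ℝ) = N * (N + 1) / 2 := by
  induction N with
  | zero => simp
  | succ n ih => rw [sum_Icc_succ_top (by omega), ih]; push_cast; ring

lemma card_P_ge (a b : ℝ) (N : ℕ) : (b - a) * (N * (N + 1) / 2) - N ≤ ((P a b N).card : ℝ) := by
  unfold P
  rw [card_sigma]
  push_cast
  calc (b - a) * (N * (N + 1) / 2) - N = ∑ q ∈ Icc 1 N, ((b - a) * (q : ℝ) - 1) := by
        rw [sum_sub_distrib, ← mul_sum, sum_id]; simp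
    _ ≤ _ := sum_le_sum fun q _ => card_K_ge q

lemma card_P_le {a b : ℝ} (hab : a < b) (N : ℕ) :
    ((P a b N).card : ℝ) ≤ (b - a) * (N * (N + 1) / 2) + N := by
  unfold P
  rw [card_sigma]
  push_cast
  calc _ ≤ ∑ q ∈ Icc 1 N, ((b - a) * (q : ℝ) + 1) := sum_le_sum fun q _ => card_K_le hab q
    _ = _ := by rw [sum_add_distrib, ← mul_sum, sum_id]; simp

open Classical in
/-- coprime pairs -/
noncomputable def S (a b : ℝ) (N : ℕ) : Finset (Σ _ : ℕ, ℤ) :=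
  (P a b N).filter fun z => Int.gcd z.2 z.1 = 1

open Classical in
lemma bad_le (a b : ℝ) (N : ℕ) :
    ((P a b N).filter fun z => ¬ Int.gcd z.2 z.1 = 1).card ≤
      ∑ d ∈ Icc 2 N, (P a b (N / d)).card := by
  have hsub : ((P a b N).filter fun z => ¬ Int.gcd z.2 z.1 = 1) ⊆
      (Icc 2 N).biUnion fun d => (P a b (N / d)).image fun z => (⟨d * z.1, d * z.2⟩ : Σ _ : ℕ, ℤ) := by
    intro z hz
    rw [mem_filter, mem_P] at hz
    obtain ⟨⟨⟨h1, h2⟩, h3, h4⟩, h5⟩ := hz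
    set d := Int.gcd z.2 z.1 with hd
    have hd0 : 0 < d := by
      apply Int.gcd_pos_of_ne_zero_right
      exact_mod_cast (by omega : z.1 ≠ 0)
    have hdz : (d : ℤ) ∣ (z.1 : ℤ) := Int.gcd_dvd_right _ _
    have hdz1 : d ∣ z.1 := by exact_mod_cast hdz
    obtain ⟨q', hq'⟩ := hdz1
    obtain ⟨k', hk'⟩ : (d : ℤ) ∣ z.2 := Int.gcd_dvd_left _ _
    have hdR : (0 : ℝ) < d := by exact_mod_cast hd0
    have hq0 : 1 ≤ q' := by
      rcases Nat.eq_zero_or_pos q' with h | h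
      · rw [h] at hq'; omega
      · exact h
    have hdN : d ≤ N := by
      calc d = d * 1 := by ring
        _ ≤ d * q' := Nat.mul_le_mul_left _ hq0
        _ = z.1 := hq'.symm
        _ ≤ N := h2
    rw [mem_biUnion]
    refine ⟨d, mem_Icc.2 ⟨by omega, hdN⟩, ?_⟩
    rw [mem_image]
    refine ⟨⟨q', k'⟩, ?_, ?_⟩
    · rw [mem_P]
      refine ⟨⟨hq0, ?_⟩, ?_, ?_⟩
      · rw [Nat.le_div_iff_mul_le hd0, Nat.mul_comm, ← hq']; exact h2
      · have : a * ((d : ℝ) * q') < (d : ℝ) * k' := by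
          have h3' := h3
          rw [hk', hq'] at h3'
          push_cast at h3'
          exact h3'
        have h6 : (d : ℝ) * (a * q') < d * k' := by linarith
        exact lt_of_mul_lt_mul_left h6 hdR.le
      · have : (d : ℝ) * k' < b * ((d : ℝ) * q') := by
          have h4' := h4
          rw [hk', hq'] at h4'
          push_cast at h4'
          exact h4'
        have h6 : (d : ℝ) * k' < d * (b * q') := by linarith
        exact lt_of_mul_lt_mul_left h6 hdR.le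
    · rcases z with ⟨q, k⟩
      simp only at hq' hk' ⊢
      rw [← hq', ← hk']
  calc _ ≤ _ := card_le_card hsub
    _ ≤ ∑ d ∈ Icc 2 N, ((P a b (N / d)).image fun z => (⟨d * z.1, d * z.2⟩ : Σ _ : ℕ, ℤ)).card :=
        card_biUnion_le
    _ ≤ _ := sum_le_sum fun d _ => card_image_le

lemma sum_sq (N : ℕ) (hN : 1 ≤ N) : ∑ d ∈ Icc 2 N, (1 : ℝ) / (d : ℝ) ^ 2 ≤ 3 / 4 := by
  rcases Nat.lt_or_ge N 2 with h | h
  · rw [Icc_eq_empty (by omega)]; norm_num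
  have : ∀ M : ℕ, 2 ≤ M → ∑ d ∈ Icc 2 M, (1 : ℝ) / (d : ℝ) ^ 2 ≤ 3 / 4 - 1 / M := by
    intro M hM
    induction M, hM using Nat.le_induction with
    | base => norm_num
    | succ n hn ih =>
      rw [sum_Icc_succ_top (by omega)]
      have hn' : (2 : ℝ) ≤ n := by exact_mod_cast hn
      have h1 : (1 : ℝ) / ((n + 1 : ℕ) : ℝ) ^ 2 ≤ 1 / n - 1 / ((n + 1 : ℕ) : ℝ) := by
        push_cast
        rw [div_sub_div _ _ (by positivity) (by positivity), div_le_div_iff₀ (by positivity) (by positivity)]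
        nlinarith
      linarith
  have h2 := this N h
  have h3 : (0 : ℝ) ≤ 1 / N := by positivity
  linarith

lemma sum_inv (N : ℕ) : ∑ d ∈ Icc 1 N, (1 : ℝ) / (d : ℝ) ≤ 2 * √N := by
  induction N with
  | zero => simp
  | succ n ih =>
    rw [sum_Icc_succ_top (by omega)]
    have hs : √(n : ℝ) ^ 2 = n := Real.sq_sqrt (Nat.cast_nonneg _)
    have hs' : √((n + 1 : ℕ) : ℝ) ^ 2 = n + 1 := by
      rw [Real.sq_sqrt (Nat.cast_nonneg _)]; push_cast; ring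
    have h0 : 0 ≤ √(n : ℝ) := Real.sqrt_nonneg _
    have h1 : 1 ≤ √((n + 1 : ℕ) : ℝ) := by
      rw [Real.one_le_sqrt]; push_cast; linarith [(Nat.cast_nonneg n : (0 : ℝ) ≤ n)]
    have h2 : √(n : ℝ) ≤ √((n + 1 : ℕ) : ℝ) := Real.sqrt_le_sqrt (by push_cast; linarith)
    have h3 : (1 : ℝ) / ((n + 1 : ℕ) : ℝ) ≤ 2 * (√((n + 1 : ℕ) : ℝ) - √(n : ℝ)) := by
      have h4 : ((n + 1 : ℕ) : ℝ) = √((n + 1 : ℕ) : ℝ) ^ 2 := by rw [hs']; push_cast; ring
      set s := √((n + 1 : ℕ) : ℝ)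
      set r := √(n : ℝ)
      rw [h4, div_le_iff₀ (by positivity)]
      have h5 : (s - r) * (s + r) = 1 := by nlinarith
      have h6 : 0 ≤ s - r := by linarith
      have h7 : 1 ≤ (s - r) * (2 * s) := by nlinarith
      nlinarith
    linarith

open Classical in
lemma card_S_ge {a b : ℝ} {N : ℕ} (hab : a < b) (hab1 : b - a ≤ 1)
    (hN : 10 ^ 4 ≤ (b - a) ^ 2 * N) : (b - a) * (N : ℝ) ^ 2 / 20 ≤ ((S a b N).card : ℝ) := by
  have hl : 0 < b - a := by linarith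
  have hN0 : (10 : ℝ) ^ 4 ≤ N := by
    have h1 : (b - a) ^ 2 ≤ 1 := by nlinarith
    have h2 : (b - a) ^ 2 * N ≤ 1 * N := mul_le_mul_of_nonneg_right h1 (Nat.cast_nonneg _)
    linarith
  have hNpos : (0 : ℝ) < N := by linarith
  have hN1 : 1 ≤ N := by
    rcases Nat.eq_zero_or_pos N with h | h
    · rw [h] at hNpos; simp at hNpos
    · exact h
  have hsplit : ((P a b N).card : ℝ) = ((S a b N).card : ℝ) +
      (((P a b N).filter fun z => ¬ Int.gcd z.2 z.1 = 1).card : ℝ) := by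
    unfold S
    have := card_filter_add_card_filter_not (s := P a b N) (fun z => Int.gcd z.2 z.1 = 1)
    exact_mod_cast this.symm
  have hbad : (((P a b N).filter fun z => ¬ Int.gcd z.2 z.1 = 1).card : ℝ) ≤
      (b - a) / 2 * (N : ℝ) ^ 2 * (3 / 4) + ((b - a) / 2 + 1) * N * (2 * √N) := by
    calc (((P a b N).filter fun z => ¬ Int.gcd z.2 z.1 = 1).card : ℝ)
        ≤ ∑ d ∈ Icc 2 N, ((P a b (N / d)).card : ℝ) := by exact_mod_cast bad_le a b N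
      _ ≤ ∑ d ∈ Icc 2 N, ((b - a) / 2 * (N : ℝ) ^ 2 * (1 / (d : ℝ) ^ 2) +
            ((b - a) / 2 + 1) * N * (1 / (d : ℝ))) := by
          refine sum_le_sum fun d hd => ?_
          have hd2 : 2 ≤ d := (mem_Icc.1 hd).1
          have hdR : (0 : ℝ) < d := by exact_mod_cast (by omega : 0 < d)
          have h1 : ((N / d : ℕ) : ℝ) ≤ N / d := Nat.cast_div_le
          have h0 : (0 : ℝ) ≤ ((N / d : ℕ) : ℝ) := Nat.cast_nonneg _
          refine (card_P_le hab _).trans ?_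
          have h2 : ((N / d : ℕ) : ℝ) * (((N / d : ℕ) : ℝ) + 1) ≤ (N / d) * (N / d + 1) := by
            gcongr
          calc (b - a) * (((N / d : ℕ) : ℝ) * (((N / d : ℕ) : ℝ) + 1) / 2) + ((N / d : ℕ) : ℝ)
              ≤ (b - a) * (((N : ℝ) / d) * (N / d + 1) / 2) + N / d := by
                gcongr
            _ = _ := by field_simp; ring
      _ = (b - a) / 2 * (N : ℝ) ^ 2 * (∑ d ∈ Icc 2 N, 1 / (d : ℝ) ^ 2) +
            ((b - a) / 2 + 1) * N * (∑ d ∈ Icc 2 N, 1 / (d : ℝ)) := by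
          rw [sum_add_distrib, ← mul_sum, ← mul_sum]
      _ ≤ _ := by
          have h1 := sum_sq N hN1
          have h2 : ∑ d ∈ Icc 2 N, 1 / (d : ℝ) ≤ 2 * √N := by
            refine le_trans ?_ (sum_inv N)
            refine sum_le_sum_of_subset_of_nonneg (Icc_subset_Icc (by norm_num) le_rfl) ?_
            intro i _ _
            positivity
          gcongr
  have hP := card_P_ge a b N
  -- l N ≥ 100 √N
  have hsq : √(N : ℝ) ^ 2 = N := Real.sq_sqrt hNpos.le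
  have hs1 : 100 ≤ √(N : ℝ) := by
    rw [show (100 : ℝ) = √(10 ^ 4) by rw [show (10 : ℝ) ^ 4 = 100 ^ 2 by norm_num, Real.sqrt_sq (by norm_num)]]
    exact Real.sqrt_le_sqrt hN0
  have hls : 100 ≤ (b - a) * √(N : ℝ) := by
    have h1 : (100 : ℝ) ^ 2 ≤ ((b - a) * √(N : ℝ)) ^ 2 := by
      rw [mul_pow, hsq]; linarith
    exact (pow_le_pow_iff_left₀ (by norm_num) (by positivity) (by norm_num)).1 h1
  set s := √(N : ℝ) with hs
  set l := b - a with hl'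
  have key : (S a b N).card ≥ l * (N * (N + 1) / 2) - N -
      (l / 2 * (N : ℝ) ^ 2 * (3 / 4) + (l / 2 + 1) * N * (2 * s)) := by linarith
  have h5 : N * (2 * s) * (l / 2 + 1) ≤ N * (3 * s) := by
    have : (l / 2 + 1) ≤ 3 / 2 := by linarith
    calc N * (2 * s) * (l / 2 + 1) ≤ N * (2 * s) * (3 / 2) := by gcongr
      _ = N * (3 * s) := by ring
  have h6 : 100 * s ≤ l * N := by
    rw [← hsq]; nlinarith
  have h7 : N * (100 * s) ≤ N * (l * N) := mul_le_mul_of_nonneg_left h6 hNpos.le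
  have h8 : (0 : ℝ) ≤ l * N := by positivity
  have h9 : (N : ℝ) ≤ N * s := by nlinarith
  nlinarith

/-- part 1 -/
lemma count_ge (a b : ℝ) (N : ℕ) (hab : a < b) (hab1 : b - a ≤ 1)
    (hN : 10 ^ 4 ≤ (b - a) ^ 2 * N) :
    ∃ X : Finset ℚ, (∀ x ∈ X, a < x ∧ x < b ∧ x.den ≤ N) ∧
      (b - a) * (N : ℝ) ^ 2 / 20 ≤ X.card := by
  classical
  have hnd : ∀ z ∈ S a b N, ((z.2 : ℚ) / (z.1 : ℚ)).num = z.2 ∧ ((z.2 : ℚ) / (z.1 : ℚ)).den = z.1 := by
    intro z hz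
    unfold S at hz
    rw [mem_filter, mem_P] at hz
    obtain ⟨⟨⟨h1, h2⟩, h3, h4⟩, h5⟩ := hz
    have hpos : (0 : ℤ) < (z.1 : ℤ) := by exact_mod_cast h1
    have hc : Nat.Coprime z.2.natAbs (z.1 : ℤ).natAbs := h5
    have h6 := Rat.num_div_eq_of_coprime hpos hc
    have h7 := Rat.den_div_eq_of_coprime hpos hc
    push_cast at h6 h7
    exact ⟨h6, by exact_mod_cast h7⟩
  refine ⟨(S a b N).image fun z => (z.2 : ℚ) / (z.1 : ℚ), ?_, ?_⟩
  · intro x hx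
    rw [mem_image] at hx
    obtain ⟨z, hz, rfl⟩ := hx
    have hz' := hnd z hz
    unfold S at hz
    rw [mem_filter, mem_P] at hz
    obtain ⟨⟨⟨h1, h2⟩, h3, h4⟩, h5⟩ := hz
    have hpos : (0 : ℝ) < (z.1 : ℝ) := by exact_mod_cast h1
    refine ⟨?_, ?_, ?_⟩
    · push_cast
      rw [lt_div_iff₀ hpos]; exact h3
    · push_cast
      rw [div_lt_iff₀ hpos]; exact h4
    · rw [hz'.2]; exact h2
  · rw [card_image_of_injOn]
    · exact card_S_ge hab hab1 hN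
    · intro z hz z' hz' h
      have h1 := hnd z hz
      have h2 := hnd z' hz'
      simp only at h
      rw [h] at h1
      rcases z with ⟨q, k⟩
      rcases z' with ⟨q', k'⟩
      simp only at h1 h2
      have e1 : k = k' := h1.1.symm.trans h2.1
      have e2 : q = q' := h1.2.symm.trans h2.2
      rw [e1, e2]

/-- two different rationals with small denominators are far apart -/
lemma gap {x y : ℚ} {N : ℕ} (hx : x.den ≤ N) (hy : y.den ≤ N) (hxy : x < y) :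
    1 ≤ ((y : ℝ) - x) * (N : ℝ) ^ 2 := by
  have hx0 : (0 : ℚ) < x.den := by exact_mod_cast x.den_pos
  have hy0 : (0 : ℚ) < y.den := by exact_mod_cast y.den_pos
  have hxe : x = x.num / x.den := (Rat.num_div_den x).symm
  have hye : y = y.num / y.den := (Rat.num_div_den y).symm
  have h1 : (y - x) * (x.den * y.den) = ((y.num * x.den - x.num * y.den : ℤ) : ℚ) := by
    push_cast
    have e1 : x * x.den = x.num := by exact_mod_cast Rat.mul_den_eq_num x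
    have e2 : y * y.den = y.num := by exact_mod_cast Rat.mul_den_eq_num y
    calc (y - x) * (x.den * y.den) = (y * y.den) * x.den - (x * x.den) * y.den := by ring
      _ = _ := by rw [e1, e2]
  have h2 : (0 : ℚ) < (y - x) * (x.den * y.den) := by
    have : 0 < y - x := by linarith
    positivity
  rw [h1] at h2
  have h3 : (1 : ℤ) ≤ y.num * x.den - x.num * y.den := by
    have : (0 : ℤ) < y.num * x.den - x.num * y.den := by exact_mod_cast h2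
    omega
  have h4 : (1 : ℚ) ≤ (y - x) * (x.den * y.den) := by
    rw [h1]; exact_mod_cast h3
  have h5 : (x.den * y.den : ℚ) ≤ (N : ℚ) ^ 2 := by
    have : ((x.den * y.den : ℕ) : ℚ) ≤ ((N * N : ℕ) : ℚ) := by
      exact_mod_cast Nat.mul_le_mul hx hy
    push_cast at this
    rw [sq]; exact this
  have h6 : (1 : ℚ) ≤ (y - x) * (N : ℚ) ^ 2 := by
    have : 0 ≤ y - x := by linarith
    calc (1 : ℚ) ≤ _ := h4
      _ ≤ _ := mul_le_mul_of_nonneg_left h5 this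
  exact_mod_cast h6

/-- part 2 -/
lemma count_le (X : Finset ℚ) (N : ℕ) (u ω : ℝ) (hω : 0 ≤ ω) (hX : ∀ x ∈ X, x.den ≤ N)
    [DecidablePred fun x : ℚ => u ≤ x ∧ (x : ℝ) ≤ u + ω] :
    ((X.filter fun x : ℚ => u ≤ x ∧ (x : ℝ) ≤ u + ω).card : ℝ) ≤ ω * (N : ℝ) ^ 2 + 1 := by
  set Y := X.filter fun x : ℚ => u ≤ x ∧ (x : ℝ) ≤ u + ω with hY
  have hN2 : (0 : ℝ) ≤ (N : ℝ) ^ 2 := by positivity
  have hmap : ∀ x ∈ Y, ⌊((x : ℝ) - u) * (N : ℝ) ^ 2⌋ ∈ Icc (0 : ℤ) ⌊ω * (N : ℝ) ^ 2⌋ := by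
    intro x hx
    rw [hY, mem_filter] at hx
    rw [mem_Icc]
    constructor
    · apply Int.floor_nonneg.2
      exact mul_nonneg (by linarith [hx.2.1]) hN2
    · apply Int.floor_le_floor
      exact mul_le_mul_of_nonneg_right (by linarith [hx.2.2]) hN2
  have hinj : Set.InjOn (fun x : ℚ => ⌊((x : ℝ) - u) * (N : ℝ) ^ 2⌋) (Y : Set ℚ) := by
    have key : ∀ x ∈ Y, ∀ y ∈ Y, x < y →
        ⌊((x : ℝ) - u) * (N : ℝ) ^ 2⌋ ≠ ⌊((y : ℝ) - u) * (N : ℝ) ^ 2⌋ := by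
      intro x hx y hy hxy h
      rw [hY, mem_filter] at hx hy
      have h1 := gap (hX x hx.1) (hX y hy.1) hxy
      have h2 : ((y : ℝ) - u) * (N : ℝ) ^ 2 < ⌊((y : ℝ) - u) * (N : ℝ) ^ 2⌋ + 1 := Int.lt_floor_add_one _
      have h3 : (⌊((x : ℝ) - u) * (N : ℝ) ^ 2⌋ : ℝ) ≤ ((x : ℝ) - u) * (N : ℝ) ^ 2 := Int.floor_le _
      rw [h] at h3
      nlinarith
    intro x hx y hy h
    rcases lt_trichotomy x y with hlt | heq | hgt
    · exact absurd h (key x hx y hy hlt)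
    · exact heq
    · exact absurd h.symm (key y hy x hx hgt)
  have hcard : Y.card ≤ (Icc (0 : ℤ) ⌊ω * (N : ℝ) ^ 2⌋).card :=
    card_le_card_of_injOn _ hmap hinj
  rw [Int.card_Icc] at hcard
  have h0 : 0 ≤ ⌊ω * (N : ℝ) ^ 2⌋ := Int.floor_nonneg.2 (mul_nonneg hω hN2)
  have h4 : ((⌊ω * (N : ℝ) ^ 2⌋ + 1 - 0).toNat : ℤ) = ⌊ω * (N : ℝ) ^ 2⌋ + 1 := by
    rw [Int.toNat_of_nonneg (by omega)]; ring
  have h5 : (Y.card : ℤ) ≤ ⌊ω * (N : ℝ) ^ 2⌋ + 1 := by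
    rw [← h4]; exact_mod_cast hcard
  have h6 : (Y.card : ℝ) ≤ (⌊ω * (N : ℝ) ^ 2⌋ : ℝ) + 1 := by exact_mod_cast h5
  have h7 : (⌊ω * (N : ℝ) ^ 2⌋ : ℝ) ≤ ω * (N : ℝ) ^ 2 := Int.floor_le _
  linarith

end Pool.Agent.Work.MLC.Cnt.QC53

namespace Pool.Agent.Work.MLC.Cnt

/-- R3 -/
theorem q_count : Q_count := by
  refine ⟨fun a b N hab hab1 hN => QC53.count_ge a b N hab hab1 hN, fun X N u ω hω hX => ?_⟩
  exact QC53.count_le X N u ω hω hX

end Pool.Agent.Work.MLC.Cnt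

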