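import Pool.Agent.Work.MLC.CntR60
import Pool.Agent.Work.MLC.CntH26

set_option autoImplicit false

/-! # Theorem F, module G7, part 2 (helper60): the open set of a class of gaps and its frontier

`ι` finite, `D : ι → Dat` with different roots (`Fam60 Finset.univ D`), `La D i = tm`, `Ra D i = tp`.
`adr D J`: the arcs which contain the gap `J`; `gapsOf D A`: the gaps with the address `A`;
`Qs D A`: the piece `Pc Finset.univ D A` without the roots and the exterior parameters over the gaps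
of the class below the roofs. -/

namespace Pool.Agent.Work.MLC.Cnt

open Filter Topology Metric Set Complex
open Pool.Agent.Work.MLC.Sat

section

variable {ι : Type} [Fintype ι] {D : ι → Dat}

/-- left ends -/
def La (D : ι → Dat) (i : ι) : ℝ := (D i).tm

/-- right ends -/
def Ra (D : ι → Dat) (i : ι) : ℝ := (D i).tp

namespace Fam60

lemma P (h : Fam60 Finset.univ D) (i : ι) : (D i).Par := h.par i (Finset.mem_univ i)

lemma C (h : Fam60 Finset.univ D) (i : ι) : (D i).Cir := h.cir i (Finset.mem_univ i)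

lemma ne (h : Fam60 Finset.univ D) {i j : ι} (hij : i ≠ j) : rt (D i) ≠ rt (D j) := fun h1 =>
  hij (h.inj i (Finset.mem_univ i) j (Finset.mem_univ j) h1)

/-- the family of arcs is laminar -/
lemma lam (h : Fam60 Finset.univ D) : Lam (La D) (Ra D) where
  lt i := (h.C i).lt
  lt_one i := (h.C i).lt_one
  lam i j := by
    by_cases hij : i = j
    · left
      subst hij
      exact ⟨0, by simp, by simp⟩
    · right
      intro k
      exact laminar60 (h.P i) (h.C i) (h.P j) (h.C j) (h.ne hij) k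
  fin := ends_finite _ _

lemma nest (h : Fam60 Finset.univ D) {i j : ι} (hij : i ≠ j) :
    rt (D i) ∈ Lm (D j) ↔ InA (D j) (D i).tm :=
  nest_iff (h.P j) (h.C j) (h.P i) (h.C i) (h.ne hij)

lemma nest' (h : Fam60 Finset.univ D) {i j : ι} (hij : i ≠ j) :
    rt (D i) ∈ Lm (D j) ↔ InA (D j) (D i).tp :=
  nest_iff' (h.P j) (h.C j) (h.P i) (h.C i) (h.ne hij)

end Fam60

/-- `t` is an end of the arc of `i` modulo one -/
def EndOf (D : ι → Dat) (i : ι) (t : ℝ) : Prop := ∃ k : ℤ, t = (D i).tm + k ∨ t = (D i).tp + k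

omit [Fintype ι] in
lemma mem_ends_iff {t : ℝ} : t ∈ ends (La D) (Ra D) ↔ ∃ i, EndOf D i t := Iff.rfl

lemma endOf_unique (h : Fam60 Finset.univ D) {i j : ι} {t : ℝ} (h1 : EndOf D i t)
    (h2 : EndOf D j t) : i = j := by
  by_contra hij
  obtain ⟨k, h1⟩ := h1
  obtain ⟨l, h2⟩ := h2
  obtain ⟨n1, n2, n3, n4⟩ := no_common (h.P i) (h.C i) (h.P j) (h.C j) (h.ne hij) (l - k)
  push_cast at n1 n2 n3 n4
  rcases h1 with h1 | h1 <;> rcases h2 with h2 | h2
  · exact n1 (by linarith)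
  · exact n3 (by linarith)
  · exact n2 (by linarith)
  · exact n4 (by linarith)

open Classical in
/-- the address of the gap -/
noncomputable def adr (D : ι → Dat) (J : ℝ × ℝ) : Finset ι :=
  Finset.univ.filter fun i => InArc (La D) (Ra D) i J

lemma mem_adr {J : ℝ × ℝ} {i : ι} : i ∈ adr D J ↔ InArc (La D) (Ra D) i J := by
  simp [adr]

open Classical in
/-- the address of the angle -/
noncomputable def adrPt (D : ι → Dat) (θ : ℝ) : Finset ι :=
  Finset.univ.filter fun i => InA (D i) θ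

lemma mem_adrPt {θ : ℝ} {i : ι} : i ∈ adrPt D θ ↔ InA (D i) θ := by
  simp [adrPt]

omit [Fintype ι] in
lemma inA_iff {θ : ℝ} {i : ι} : InA (D i) θ ↔ PtIn (La D) (Ra D) i θ := Iff.rfl

omit [Fintype ι] in
lemma inA_add {θ : ℝ} {i : ι} (k : ℤ) : InA (D i) (θ + k) ↔ InA (D i) θ := by
  constructor
  · rintro ⟨l, h1, h2⟩
    exact ⟨k + l, by push_cast; linarith, by push_cast; linarith⟩
  · rintro ⟨l, h1, h2⟩
    exact ⟨l - k, by push_cast; linarith, by push_cast; linarith⟩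

/-- the points of a gap have the address of the gap -/
lemma adrPt_eq {J : ℝ × ℝ} (hJ : IsGap (La D) (Ra D) J) {θ : ℝ} {k : ℤ} (h1 : J.1 + k < θ)
    (h2 : θ < J.2 + k) : adrPt D θ = adr D J := by
  ext i
  rw [mem_adrPt, mem_adr, ← hJ.ptIn_iff (u := θ - k) (by linarith) (by linarith), ← inA_iff]
  have h3 := inA_add (D := D) (θ := θ) (i := i) (-k)
  rw [← h3]
  have h4 : θ + ((-k : ℤ) : ℝ) = θ - k := by push_cast; ring
  rw [h4]

/-- the addresses of the gaps are addresses -/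
lemma isAdr_adr (h : Fam60 Finset.univ D) {J : ℝ × ℝ} (hJ : J.1 < J.2) :
    IsAdr Finset.univ D (adr D J) := by
  refine ⟨Finset.subset_univ _, fun i hi j hj hij => ?_, fun i hi j _ hij => ?_⟩
  · obtain ⟨k, h1, h2⟩ := mem_adr.1 hi
    obtain ⟨k', h3, h4⟩ := mem_adr.1 hj
    simp only [La, Ra] at h1 h2 h3 h4
    rcases laminar60 (h.P i) (h.C i) (h.P j) (h.C j) (h.ne hij) (k' - k) with ⟨g1, g2⟩ | ⟨g1, g2⟩
    · right
      refine (h.nest (Ne.symm hij)).2 ⟨k' - k, g1, ?_⟩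
      push_cast at g1 g2 ⊢
      linarith
    · left
      push_cast at g1 g2
      refine (h.nest hij).2 ⟨k - k', ?_⟩
      push_cast
      have g3 : (D j).tm + (k' - k) < (D i).tm := by
        rcases g1 with g | g
        · exact g
        · linarith
      constructor <;> linarith
  · obtain ⟨k, h1, h2⟩ := mem_adr.1 hi
    simp only [La, Ra] at h1 h2
    by_cases hij' : i = j
    · subst hij'; exact hi
    obtain ⟨n, h3, h4⟩ := (h.nest hij').1 hij
    have h5 := nested_of_ptIn h.lam (i := i) (l := j) (n := n) h3 h4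
    simp only [Ra] at h5
    refine mem_adr.2 ⟨k - n, ?_, ?_⟩
    · simp only [La]; push_cast; linarith
    · simp only [Ra]; push_cast; linarith

lemma isAdr_adrPt (h : Fam60 Finset.univ D) (θ : ℝ) : IsAdr Finset.univ D (adrPt D θ) := by
  refine ⟨Finset.subset_univ _, fun i hi j hj hij => ?_, fun i hi j _ hij => ?_⟩
  · obtain ⟨k, h1, h2⟩ := mem_adrPt.1 hi
    obtain ⟨k', h3, h4⟩ := mem_adrPt.1 hj
    rcases laminar60 (h.P i) (h.C i) (h.P j) (h.C j) (h.ne hij) (k - k') with ⟨g1, g2⟩ | ⟨g1, g2⟩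
    · right
      refine (h.nest (Ne.symm hij)).2 ⟨k - k', g1, ?_⟩
      push_cast at g1 g2 ⊢
      linarith [(h.C j).lt]
    · left
      push_cast at g1 g2
      refine (h.nest hij).2 ⟨k' - k, ?_⟩
      push_cast
      have g3 : (D j).tm + (k - k') < (D i).tm := by
        rcases g1 with g | g
        · exact g
        · linarith
      constructor <;> linarith
  · obtain ⟨k, h1, h2⟩ := mem_adrPt.1 hi
    by_cases hij' : i = j
    · subst hij'; exact hi
    obtain ⟨n, h3, h4⟩ := (h.nest hij').1 hij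
    have h5 := nested_of_ptIn h.lam (i := i) (l := j) (n := n) h3 h4
    simp only [Ra] at h5
    refine mem_adrPt.2 ⟨k + n, ?_, ?_⟩
    · push_cast; linarith
    · push_cast; linarith

/-- the gaps with the address `A` -/
def gapsOf (D : ι → Dat) (A : Finset ι) : Set (ℝ × ℝ) :=
  {J | IsGap (La D) (Ra D) J ∧ adr D J = A}

lemma finite_gapsOf (h : Fam60 Finset.univ D) (A : Finset ι) : (gapsOf D A).Finite :=
  (finite_gaps h.lam).subset fun _ hJ => hJ.1

/-- gaps are in the same class iff they have the same address -/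
lemma sameCls_iff {J J' : ℝ × ℝ} : SameCls (La D) (Ra D) J J' ↔ adr D J = adr D J' := by
  constructor
  · intro h
    ext i
    rw [mem_adr, mem_adr]
    exact h i
  · intro h i
    rw [← mem_adr, ← mem_adr, h]

lemma gapsOf_adr (J₀ : ℝ × ℝ) :
    gapsOf D (adr D J₀) = {J | IsGap (La D) (Ra D) J ∧ SameCls (La D) (Ra D) J₀ J} := by
  ext J
  show _ ∧ _ ↔ _ ∧ _
  rw [sameCls_iff, eq_comm (a := adr D J)]

/-- the open set of the class -/
def Qs (D : ι → Dat) (A : Finset ι) : Set ℂ :=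
  {z | z ∈ Pc Finset.univ D A ∧ ∀ i, z ≠ rt (D i)} ∪ ⋃ J ∈ gapsOf D A, CH.ExtW J.1 J.2

/-- the part of the parameter ray `t` below the potential `u` -/
def rayTo (t u : ℝ) : Set ℂ := (fun g : ℝ => cOf ((g : ℂ) + 2 * Real.pi * t * I)) '' Ioc 0 u

lemma Qs_sub_ball (A : Finset ι) : Qs D A ⊆ {c : ℂ | G c c ≤ 1} := by
  rintro z (hz | hz)
  · have : G z z = 0 := mem_M_iff'.1 hz.1.1
    show G z z ≤ 1
    rw [this]; exact zero_le_one
  · simp only [mem_iUnion, exists_prop] at hz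
    obtain ⟨J, hJ, w, hw, rfl⟩ := hz
    show G (cOf w) (cOf w) ≤ 1
    rw [G_cOf hw.1]
    linarith [hw.2.1, hJ.1.le_one]

/-- **the open set is bounded** -/
theorem isBounded_Qs (A : Finset ι) : Bornology.IsBounded (Qs D A) :=
  (isCompact_G_diag_le 1).isBounded.subset (Qs_sub_ball A)

/-- near a point of the piece which is no root -/
lemma Qs_nhds [Nonempty ι] (h : Fam60 Finset.univ D) {A : Finset ι} {z : ℂ}
    (hz : z ∈ Pc Finset.univ D A) (hr : ∀ i, z ≠ rt (D i)) : Qs D A ∈ 𝓝 z := by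
  have hzM : z ∈ MM := hz.1
  -- the address of the angles near `z`
  have h1 : ∀ᶠ c in 𝓝 z, ∀ i, ∀ θ, Ang c θ → (i ∈ A ↔ InA (D i) θ) ∧ ¬ EndOf D i θ := by
    rw [Filter.eventually_all]
    intro i
    have hlt := (h.C i).lt
    have hlt1 := (h.C i).lt_one
    by_cases hiA : i ∈ A
    · have hzL : z ∈ Lm (D i) := by
        rcases (hz.2 i (Finset.mem_univ i)).1 hiA with h0 | h0
        · exact absurd h0 (hr i)
        · exact h0
      filter_upwards [n5_open (D i) (h.P i) (h.C i) z hzL] with c hc θ hθ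
      obtain ⟨k, g1, g2⟩ := hc.2 θ hθ
      refine ⟨⟨fun _ => ⟨k, g1, g2⟩, fun _ => hiA⟩, ?_⟩
      rintro ⟨l, g3 | g3⟩
      · rw [g3] at g1 g2
        have e1 : (0 : ℝ) < ((l + k : ℤ) : ℝ) := by push_cast; linarith
        have e2 : ((l + k : ℤ) : ℝ) < 1 := by push_cast; linarith
        have e3 : (0 : ℤ) < l + k := by exact_mod_cast e1
        have e4 : l + k < (1 : ℤ) := by exact_mod_cast e2
        omega
      · rw [g3] at g1 g2
        have e1 : (-1 : ℝ) < ((l + k : ℤ) : ℝ) := by push_cast; linarith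
        have e2 : ((l + k : ℤ) : ℝ) < 0 := by push_cast; linarith
        have e3 : (-1 : ℤ) < l + k := by exact_mod_cast e1
        have e4 : l + k < (0 : ℤ) := by exact_mod_cast e2
        omega
    · have hzc : z ∉ closure (Lm (D i) ∪ {c' | ∃ θ, Ang c' θ ∧ (D i).tm ≤ θ ∧ θ ≤ (D i).tp}) := by
        intro hzc
        rcases n5_closed (D i) (h.P i) (h.C i) z hzM hzc with h0 | h0
        · exact (hz.2 i (Finset.mem_univ i)).2 hiA h0
        · exact hr i h0
      filter_upwards [isClosed_closure.isOpen_compl.mem_nhds hzc] with c hc θ hθ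
      have h2 : ∀ k : ℤ, ¬ ((D i).tm ≤ θ + k ∧ θ + k ≤ (D i).tp) := fun k hk =>
        hc (subset_closure (Or.inr ⟨θ + k, hθ.add_int k, hk.1, hk.2⟩))
      refine ⟨⟨fun h0 => absurd h0 hiA, fun ⟨k, g1, g2⟩ => (h2 k ⟨g1.le, g2.le⟩).elim⟩, ?_⟩
      rintro ⟨l, g3 | g3⟩
      · refine h2 (-l) ?_
        rw [g3]
        push_cast
        constructor <;> linarith
      · refine h2 (-l) ?_
        rw [g3]
        push_cast
        constructor <;> linarith
  -- the minimal length of a gap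
  obtain ⟨ε, hε, hεm⟩ : ∃ ε : ℝ, 0 < ε ∧ ∀ J ∈ {J | IsGap (La D) (Ra D) J}, ε ≤ J.2 - J.1 := by
    rcases ({J | IsGap (La D) (Ra D) J}).eq_empty_or_nonempty with he | hne
    · exact ⟨1, one_pos, fun J hJ => by rw [he] at hJ; exact hJ.elim⟩
    · obtain ⟨J, hJ, hmin⟩ := Set.exists_min_image _ (fun J : ℝ × ℝ => J.2 - J.1)
        (finite_gaps h.lam) hne
      exact ⟨J.2 - J.1, by linarith [IsGap.lt hJ], hmin⟩
  have h2 : ∀ᶠ c in 𝓝 z, G c c < ε := by
    refine (continuous_G_diag.tendsto z).eventually (eventually_lt_nhds ?_)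
    rw [show G z z = 0 from mem_M_iff'.1 hzM]; exact hε
  have h3 : ∀ᶠ c in 𝓝 z, ∀ i, c ≠ rt (D i) := by
    rw [Filter.eventually_all]
    intro i
    exact isOpen_ne.mem_nhds (hr i)
  filter_upwards [h1, h2, h3, Pc_open h hz fun i _ => hr i] with c g1 g2 g3 g4
  by_cases hcM : c ∈ MM
  · exact Or.inl ⟨g4 hcM, g3⟩
  · right
    have hpos : 0 < G c c := mem_Mc_iff.2 hcM
    obtain ⟨θ, hθ⟩ := exists_ang hpos
    have hne : θ ∉ ends (La D) (Ra D) := by
      rintro ⟨i, hi⟩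
      exact (g1 i θ hθ).2 hi
    have hnon : (ends (La D) (Ra D)).Nonempty :=
      ⟨_, left_end (Classical.arbitrary ι) 0⟩
    obtain ⟨J, hJ, k, h5, h6⟩ := exists_gap h.lam hnon hne
    refine mem_biUnion (x := J) ⟨hJ, ?_⟩ ?_
    · rw [← adrPt_eq hJ h5 h6]
      ext i
      rw [mem_adrPt]
      exact ((g1 i θ hθ).1).symm
    · have hpi := Real.two_pi_pos
      refine ⟨(G c c : ℂ) + 2 * Real.pi * ((θ + ((-k : ℤ) : ℝ) : ℝ) : ℂ) * I, ⟨?_, ?_, ?_, ?_⟩, ?_⟩
      · rw [CH.re_pt]; exact hpos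
      · rw [CH.re_pt]; exact g2.trans_le (hεm J hJ)
      · rw [CH.im_pt]
        refine mul_lt_mul_of_pos_left ?_ hpi
        push_cast; linarith
      · rw [CH.im_pt]
        refine mul_lt_mul_of_pos_left ?_ hpi
        push_cast; linarith
      · rw [CH.cOf_shift]; exact (CH.eq_cOf hθ).symm

/-- **the open set is open** -/
theorem isOpen_Qs [Nonempty ι] (h : Fam60 Finset.univ D) (A : Finset ι) : IsOpen (Qs D A) := by
  rw [isOpen_iff_mem_nhds]
  rintro z (hz | hz)
  · exact Qs_nhds h hz.1 hz.2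
  · simp only [mem_iUnion, exists_prop] at hz
    obtain ⟨J, hJ, hz⟩ := hz
    refine mem_of_superset ((CH.isOpen_ExtW _ _).mem_nhds hz) fun w hw => Or.inr ?_
    exact mem_biUnion (x := J) hJ hw

/-- the closure of the exterior part of a gap -/
lemma closure_ExtW_MM (h : Fam60 Finset.univ D) {J : ℝ × ℝ} (hJ : IsGap (La D) (Ra D) J) {z : ℂ}
    (hzM : z ∈ MM) (hz : z ∈ closure (CH.ExtW J.1 J.2)) : z ∈ Pc Finset.univ D (adr D J) := by
  have hpi := Real.two_pi_pos
  refine ⟨hzM, fun i _ => ⟨fun hi => ?_, fun hi hzL => ?_⟩⟩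
  · obtain ⟨k, h1, h2⟩ := mem_adr.1 hi
    simp only [La, Ra] at h1 h2
    have h3 : z ∈ closure (Lm (D i) ∪ {c' | ∃ θ, Ang c' θ ∧ (D i).tm ≤ θ ∧ θ ≤ (D i).tp}) := by
      refine closure_mono ?_ hz
      rintro _ ⟨w, hw, rfl⟩
      have h4 := (CH.ang_of hw.1).add_int (-k)
      refine Or.inr ⟨_, h4, ?_, ?_⟩
      · have : J.1 < w.im / (2 * Real.pi) := by
          rw [lt_div_iff₀ hpi]; linarith [hw.2.2.1]
        push_cast; linarith
      · have : w.im / (2 * Real.pi) < J.2 := by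
          rw [div_lt_iff₀ hpi]; linarith [hw.2.2.2]
        push_cast; linarith
    rcases n5_closed (D i) (h.P i) (h.C i) z hzM h3 with h4 | h4
    · exact Or.inr h4
    · exact Or.inl h4
  · obtain ⟨c, hc, hc2⟩ := ((mem_closure_iff_frequently.1 hz).and_eventually
      (n5_open (D i) (h.P i) (h.C i) z hzL)).exists
    obtain ⟨w, hw, rfl⟩ := hc
    have h4 := hc2.2 _ (CH.ang_of hw.1)
    have h5 : J.1 < w.im / (2 * Real.pi) := by
      rw [lt_div_iff₀ hpi]; linarith [hw.2.2.1]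
    have h6 : w.im / (2 * Real.pi) < J.2 := by
      rw [div_lt_iff₀ hpi]; linarith [hw.2.2.2]
    exact hi (mem_adr.2 ((hJ.ptIn_iff h5 h6).1 h4))

omit [Fintype ι] in
/-- the frontier of the exterior part of a gap over the exterior -/
lemma closure_ExtW_ext {s t : ℝ} {z : ℂ} (hzM : z ∉ MM) (hz : z ∈ closure (CH.ExtW s t)) :
    z ∈ CH.ExtW s t ∨ z ∈ rayTo s (t - s) ∨ z ∈ rayTo t (t - s) ∨ z ∈ Roof s t := by
  have hzG : 0 < G z z := mem_Mc_iff.2 hzM
  set S : Set ℂ := Icc (G z z / 2) (t - s) ×ℂ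
    Icc (2 * Real.pi * s) (2 * Real.pi * t) with hS
  have hSc : IsCompact S := isCompact_Icc.reProdIm isCompact_Icc
  have hSpos : ∀ w ∈ S, 0 < w.re := fun w hw => by
    have h' : G z z / 2 ≤ w.re := hw.1.1
    linarith
  have hcl : IsClosed (cOf '' S) :=
    (hSc.image_of_continuousOn (continuousOn_cOf.mono hSpos)).isClosed
  have hU : {c : ℂ | G z z / 2 < G c c} ∈ 𝓝 z :=
    (isOpen_lt continuous_const continuous_G_diag).mem_nhds (by
      show G z z / 2 < G z z
      linarith)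
  have h3 : z ∈ closure ({c : ℂ | G z z / 2 < G c c} ∩ CH.ExtW s t) :=
    mem_closure_iff_nhds.2 fun t ht => by
      obtain ⟨y, hy1, hy2⟩ := mem_closure_iff_nhds.1 hz _ (inter_mem ht hU)
      exact ⟨y, hy1.1, hy1.2, hy2⟩
  have h4 : z ∈ cOf '' S := by
    refine hcl.closure_subset_iff.2 ?_ h3
    rintro c ⟨hc1, w, hw, rfl⟩
    refine ⟨w, ⟨⟨?_, hw.2.1.le⟩, ⟨hw.2.2.1.le, hw.2.2.2.le⟩⟩, rfl⟩
    have : G z z / 2 < G (cOf w) (cOf w) := hc1
    rw [G_cOf hw.1] at this
    exact this.le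
  obtain ⟨w, hw, hwz⟩ := h4
  have hw0 := hSpos w hw
  obtain ⟨⟨hr1, hr2⟩, hi1, hi2⟩ := hw
  have key : ∀ t' : ℝ, w.im = 2 * Real.pi * t' → z ∈ rayTo t' (t - s) := by
    intro t' hwt
    rw [← hwz, CH.pt_of hwt]
    exact ⟨w.re, ⟨hw0, hr2⟩, rfl⟩
  rcases hi1.eq_or_lt with h6 | h6
  · exact Or.inr (Or.inl (key s h6.symm))
  rcases hi2.eq_or_lt with h7 | h7
  · exact Or.inr (Or.inr (Or.inl (key t h7)))
  rcases hr2.eq_or_lt with h8 | h8
  · right; right; right
    refine ⟨w.im / (2 * Real.pi), ⟨?_, ?_⟩, ?_⟩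
    · rw [le_div_iff₀ Real.two_pi_pos]; linarith
    · rw [div_le_iff₀ Real.two_pi_pos]; linarith
    · have h9 : w.im = 2 * Real.pi * (w.im / (2 * Real.pi)) := by field_simp
      have h10 := CH.pt_of h9
      show cOf (((t - s : ℝ) : ℂ) + 2 * Real.pi * ((w.im / (2 * Real.pi) : ℝ) : ℂ) * I) = z
      rw [← hwz, ← h8, ← h10]
  · exact Or.inl ⟨w, ⟨hw0, h8, h6, h7⟩, hwz⟩

/-- **the frontier of the open set**, first form -/
theorem frontier_Qs₀ [Nonempty ι] (h : Fam60 Finset.univ D) (A : Finset ι) :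
    frontier (Qs D A) ⊆ {z | z ∈ Pc Finset.univ D A ∧ ∃ i, z = rt (D i)} ∪
      ⋃ J ∈ gapsOf D A, (rayTo J.1 (J.2 - J.1) ∪ rayTo J.2 (J.2 - J.1) ∪ Roof J.1 J.2) := by
  intro z hz
  rw [frontier, (isOpen_Qs h A).interior_eq] at hz
  obtain ⟨hzc, hzn⟩ := hz
  have h1 : z ∈ Pc Finset.univ D A ∨ ∃ J ∈ gapsOf D A, z ∈ closure (CH.ExtW J.1 J.2) := by
    rw [Qs, closure_union] at hzc
    rcases hzc with h0 | h0
    · left
      exact closure_minimal (fun w hw => hw.1) (isClosed_Pc h A) h0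
    · right
      rw [(finite_gapsOf h A).closure_biUnion] at h0
      simpa only [mem_iUnion, exists_prop] using h0
  by_cases hM : z ∈ MM
  · left
    have h2 : z ∈ Pc Finset.univ D A := by
      rcases h1 with h0 | ⟨J, hJ, h0⟩
      · exact h0
      · have := closure_ExtW_MM h hJ.1 hM h0
        rwa [hJ.2] at this
    refine ⟨h2, ?_⟩
    by_contra hcon
    push Not at hcon
    exact hzn (Or.inl ⟨h2, hcon⟩)
  · right
    rcases h1 with h0 | ⟨J, hJ, h0⟩
    · exact absurd h0.1 hM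
    · refine mem_biUnion (x := J) hJ ?_
      rcases closure_ExtW_ext hM h0 with h2 | h2 | h2 | h2
      · exact absurd (Or.inr (mem_biUnion (x := J) hJ h2)) hzn
      · exact Or.inl (Or.inl h2)
      · exact Or.inl (Or.inr h2)
      · exact Or.inr h2

/-! ### the roots in a piece -/

omit [Fintype ι] in
/-- there is a gap which begins at a given end -/
lemma exists_gap_at (h : Lam (La D) (Ra D)) {e : ℝ} (he : e ∈ ends (La D) (Ra D)) :
    ∃ J, IsGap (La D) (Ra D) J ∧ ∃ k : ℤ, J.1 + k = e := by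
  obtain ⟨t, ⟨ht1, ht2, ht3⟩, htmin⟩ : ∃ t ∈ {t | t ∈ ends (La D) (Ra D) ∧ e < t ∧ t ≤ e + 1},
      ∀ t' ∈ {t | t ∈ ends (La D) (Ra D) ∧ e < t ∧ t ≤ e + 1}, t ≤ t' := by
    refine Set.exists_min_image _ id ?_ ?_
    · refine (ends_fin h e (e + 1)).subset ?_
      rintro t ⟨h1, h2, h3⟩
      exact ⟨h1, h2.le, h3⟩
    · refine ⟨e + 1, ?_, by linarith, le_rfl⟩
      have := ends_add he 1
      push_cast at this
      exact this
  have hθ : (e + t) / 2 ∉ ends (La D) (Ra D) := by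
    intro h1
    have := htmin _ ⟨h1, by linarith, by linarith⟩
    linarith
  obtain ⟨J, hJ, k, h1, h2⟩ := exists_gap h ⟨e, he⟩ hθ
  refine ⟨J, hJ, k, ?_⟩
  have h3 : J.1 + k ∈ ends (La D) (Ra D) := ends_add hJ.left k
  rcases lt_trichotomy (J.1 + k) e with h4 | h4 | h4
  · exact (hJ.emp _ (ends_sub he k) (by linarith) (by linarith)).elim
  · exact h4
  · have := htmin _ ⟨h3, h4, by linarith⟩
    linarith

/-- **the roots of the family in a piece are ends of gaps of the class** -/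
theorem root_gap (h : Fam60 Finset.univ D) {A : Finset ι} {i : ι}
    (hi : rt (D i) ∈ Pc Finset.univ D A) : ∃ J ∈ gapsOf D A, EndOf D i J.1 := by
  have hlt := (h.C i).lt
  have hlt1 := (h.C i).lt_one
  have hj : ∀ j, j ≠ i → (j ∈ A ↔ rt (D i) ∈ Lm (D j)) := by
    intro j hji
    constructor
    · intro hjA
      rcases (hi.2 j (Finset.mem_univ j)).1 hjA with h0 | h0
      · exact absurd h0 (h.ne (Ne.symm hji))
      · exact h0
    · intro h0
      by_contra hjA
      exact (hi.2 j (Finset.mem_univ j)).2 hjA h0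
  -- the arcs `j ≠ i` and a gap which begins at an end of `i`
  have hadr : ∀ (J : ℝ × ℝ), IsGap (La D) (Ra D) J → EndOf D i J.1 → ∀ j, j ≠ i →
      (j ∈ adr D J ↔ rt (D i) ∈ Lm (D j)) := by
    intro J hJ hJi j hji
    rw [mem_adr]
    constructor
    · rintro ⟨k, h1, h2⟩
      simp only [La, Ra] at h1 h2
      have h3 : (D j).tm + k < J.1 := lt_of_le_of_ne h1 fun h3 =>
        hji (endOf_unique h ⟨k, Or.inl h3.symm⟩ hJi)
      have h4 := hJ.lt
      obtain ⟨l, h5 | h5⟩ := hJi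
      · refine (h.nest (Ne.symm hji)).2 ⟨l - k, ?_, ?_⟩
        · push_cast; linarith
        · push_cast; linarith
      · refine (h.nest' (Ne.symm hji)).2 ⟨l - k, ?_, ?_⟩
        · push_cast; linarith
        · push_cast; linarith
    · intro h0
      obtain ⟨l, h5 | h5⟩ := hJi
      · obtain ⟨n, h1, h2⟩ := (h.nest (Ne.symm hji)).1 h0
        refine hJ.inArc_of (k := l - n) ?_ ?_
        · simp only [La]; push_cast; linarith
        · simp only [Ra]; push_cast; linarith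
      · obtain ⟨n, h1, h2⟩ := (h.nest' (Ne.symm hji)).1 h0
        refine hJ.inArc_of (k := l - n) ?_ ?_
        · simp only [La]; push_cast; linarith
        · simp only [Ra]; push_cast; linarith
  by_cases hiA : i ∈ A
  · obtain ⟨J, hJ, k, hk⟩ := exists_gap_at h.lam (left_end (a := La D) (b := Ra D) i 0)
    have hJi : EndOf D i J.1 := ⟨-k, Or.inl (by
      simp only [La] at hk
      push_cast at hk ⊢
      linarith)⟩
    refine ⟨J, ⟨hJ, ?_⟩, hJi⟩
    ext j
    by_cases hji : j = i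
    · subst hji
      refine ⟨fun _ => hiA, fun _ => mem_adr.2 (hJ.inArc_of (k := -k) ?_ ?_)⟩
      · simp only [La] at hk ⊢
        push_cast at hk ⊢
        linarith
      · simp only [La, Ra] at hk ⊢
        push_cast at hk ⊢
        linarith
    · rw [hadr J hJ hJi j hji, hj j hji]
  · obtain ⟨J, hJ, k, hk⟩ := exists_gap_at h.lam (right_end (a := La D) (b := Ra D) i 0)
    simp only [Ra] at hk
    push_cast at hk
    have hJi : EndOf D i J.1 := ⟨-k, Or.inr (by push_cast; linarith)⟩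
    refine ⟨J, ⟨hJ, ?_⟩, hJi⟩
    ext j
    by_cases hji : j = i
    · subst hji
      refine ⟨fun h0 => ?_, fun h0 => absurd h0 hiA⟩
      exfalso
      obtain ⟨n, h1, h2⟩ := mem_adr.1 h0
      simp only [La, Ra] at h1 h2
      have h3 := hJ.lt
      have e1 : (0 : ℝ) < ((n + k : ℤ) : ℝ) := by push_cast; linarith
      have e2 : ((n + k : ℤ) : ℝ) < 1 := by push_cast; linarith
      have e3 : (0 : ℤ) < n + k := by exact_mod_cast e1
      have e4 : n + k < (1 : ℤ) := by exact_mod_cast e2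
      omega
    · rw [hadr J hJ hJi j hji, hj j hji]

/-! ### the impressions -/

/-- **the impression of an angle which is no end is in the piece of the angle** -/
theorem imp_Pc (h : Fam60 Finset.univ D) {c₀ : ℂ} {θ : ℝ} (hM : c₀ ∈ MM)
    (hθ : θ ∉ ends (La D) (Ra D)) (hc : (c₀, θ) ∈ closure {p : ℂ × ℝ | Ang p.1 p.2}) :
    c₀ ∈ Pc Finset.univ D (adrPt D θ) := by
  refine ⟨hM, fun i _ => ⟨fun hi => ?_, fun hi hL => ?_⟩⟩
  · obtain ⟨k, h1, h2⟩ := mem_adrPt.1 hi
    have h3 : c₀ ∈ closure (Lm (D i) ∪ {c' | ∃ θ, Ang c' θ ∧ (D i).tm ≤ θ ∧ θ ≤ (D i).tp}) := by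
      rw [mem_closure_iff_frequently]
      have h4 : Tendsto (fun p : ℂ × ℝ => p.2 + k) (𝓝 (c₀, θ)) (𝓝 (θ + k)) :=
        Continuous.tendsto (by fun_prop) (c₀, θ)
      have h5 := ((mem_closure_iff_frequently.1 hc).and_eventually
        ((h4.eventually (lt_mem_nhds h1)).and (h4.eventually (gt_mem_nhds h2))))
      have h6 := (continuous_fst.tendsto (c₀, θ)).frequently (p := fun c' =>
        c' ∈ Lm (D i) ∪ {c' | ∃ θ, Ang c' θ ∧ (D i).tm ≤ θ ∧ θ ≤ (D i).tp}) (h5.mono fun p hp =>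
          Or.inr ⟨p.2 + k, Ang.add_int hp.1 k, hp.2.1.le, hp.2.2.le⟩)
      exact h6
    rcases n5_closed (D i) (h.P i) (h.C i) c₀ hM h3 with h4 | h4
    · exact Or.inr h4
    · exact Or.inl h4
  · obtain ⟨k, h1, h2⟩ := imp_mem (h.P i) (h.C i) hL hc
    refine hi (mem_adrPt.2 ⟨k, lt_of_le_of_ne h1 fun h3 => hθ ⟨i, -k, Or.inl ?_⟩,
      lt_of_le_of_ne h2 fun h3 => hθ ⟨i, -k, Or.inr ?_⟩⟩)
    · simp only [La]; push_cast; linarith
    · simp only [Ra]; push_cast; linarith

/-- the piece of an angle is the piece of its gap -/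
lemma exists_gapsOf [Nonempty ι] (h : Fam60 Finset.univ D) {θ : ℝ}
    (hθ : θ ∉ ends (La D) (Ra D)) : ∃ J ∈ gapsOf D (adrPt D θ), ∃ k : ℤ,
      J.1 + k < θ ∧ θ < J.2 + k := by
  have hnon : (ends (La D) (Ra D)).Nonempty := ⟨_, left_end (Classical.arbitrary ι) 0⟩
  obtain ⟨J, hJ, k, h1, h2⟩ := exists_gap h.lam hnon hθ
  exact ⟨J, ⟨hJ, (adrPt_eq hJ h1 h2).symm⟩, k, h1, h2⟩

end

end Pool.Agent.Work.MLC.Cnt
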