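import Pool.Agent.Work.MLC.PriBT57b
import Pool.Agent.Work.MLC.Cnt0

set_option autoImplicit false

/-! # Theorem F: data exist for all words, strips and rotation numbers (helper54) -/

namespace Pool.Agent.Work.MLC.Cnt

open Filter Topology Metric Set Complex
open Pool.Agent.Work.MLC.Sat

/-- the data of a wide section -/
theorem exists_dat_of_wide {m : ℕ} {w : ℕ → ℤ} {k : ℤ} {σ : ℂ → ℂ × ℂ} (hV : Pri.Wide m w k σ)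
    (hex : ∀ L ∈ Pri.D0 m, Pri.Exa m (σ L)) {x : ℚ} (h0 : 0 < x) (h1 : x < 1) :
    ∃ D : Dat, D.Par ∧ D.Cir ∧ D.m = m ∧ D.x = x ∧ D.k₀ = k ∧
      (∃ i₀ : ℕ, i₀ < m ∧ (D.w = fun i => w (i + i₀)) ∧
        ∀ L, D.σ L = ((σ L).1, it (σ L).1 i₀ (σ L).2)) ∧
      ∀ θ : ℝ, Circ.nu w m θ = k + x ↔ D.tm ≤ θ ∧ θ ≤ D.tp := by
  have hm := hV.pos
  have hwd : Word m w := hV.word hex
  set B : Set ℂ := ball (axisPt x) (Sat.gR m x) with hB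
  have hBD : B ⊆ Pri.D0 m := Pri.ball_subset_D0 hm h0 h1
  have hP₀ : (⟨m, x, σ, w, k, w, 0, 0, 0⟩ : Sat.Dat).Par := by
    refine Sat.par_of _ hm h0 h1 (hV.cont.mono hBD) (fun L hL => hV.sec L (hBD hL)) ?_ hV.bits ?_
    · exact fun L hL => hex L (hBD hL)
    · intro L hL hM
      obtain ⟨θ, h2, h3, h4⟩ := hV.ang L (hBD hL) hM
      exact ⟨θ, h2, h3, h4⟩
  obtain ⟨i₀, u, kk, tm, tp, hi₀, hcir⟩ := Sat.s1_circle m x w k hm h0 h1 hV.bits hwd.2.2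
  have hP := Sat.s0_shift _ i₀ u kk tm tp hP₀
  set D : Sat.Dat := ⟨m, x, fun L => ((σ L).1, it (σ L).1 i₀ (σ L).2), fun i => w (i + i₀), k,
    u, kk, tm, tp⟩ with hD
  have hC : D.Cir := hcir _
  refine ⟨D, hP, hC, rfl, rfl, rfl, ⟨i₀, hi₀, rfl, fun L => rfl⟩, fun θ => ?_⟩
  rw [← hC.plateau θ, ← Sat.s1_rot m w i₀ θ hV.bits]

/-- **every word, strip and rotation number has data** -/
theorem exists_dat {m : ℕ} (hm : 0 < m) {w : ℕ → ℤ} (hw : Word m w) (k : ℤ) {x : ℚ} (h0 : 0 < x)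
    (h1 : x < 1) :
    ∃ D : Dat, D.Par ∧ D.Cir ∧ D.m = m ∧ D.x = x ∧ D.k₀ = k ∧
      (∃ i₀ : ℕ, i₀ < m ∧ D.w = fun i => w (i + i₀)) ∧
      ∀ θ : ℝ, Circ.nu w m θ = k + x ↔ D.tm ≤ θ ∧ θ ≤ D.tp := by
  obtain ⟨σ, hV, hex⟩ := Pri.exists_wide_word hm hw k
  obtain ⟨D, h1, h2, h3, h4, h5, ⟨i₀, h6, h7, -⟩, h8⟩ := exists_dat_of_wide hV hex h0 h1
  exact ⟨D, h1, h2, h3, h4, h5, ⟨i₀, h6, h7⟩, h8⟩

end Pool.Agent.Work.MLC.Cnt
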