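import Pool.Agent.Work.MLC.CntW26
import Pool.Agent.Work.MLC.CntV24
import Pool.Agent.Work.MLC.CntR15
import Pool.Agent.Work.MLC.CntA86
import Pool.Agent.Work.MLC.CntC13
import Pool.Agent.Work.MLC.CntGate70

set_option autoImplicit false

/-! # Theorem F, part (A): the decomposition of the Mandelbrot set (helper26) -/

namespace Pool.Agent.Work.MLC.Cnt

open Filter Topology Metric Set Complex MeasureTheory
open Pool.Agent.Work.MLC.Sat

/-- G3: separation of the roots of one period -/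
def G3_sep : Prop := ∀ D₁ D₂ : Dat, D₁.Par → D₁.Cir → D₂.Par → D₂.Cir → D₁.m = D₂.m →
  D₁.x = D₂.x → rt D₁ ≠ rt D₂ → ∃ D' : Dat, D'.Par ∧ D'.Cir ∧ D'.m ≤ D₁.m ∧
    D'.m * D'.x.den ≤ 3 * D₁.m ∧
    ((InA D' D₁.tm ∧ ¬ InA D' D₂.tm) ∨ (InA D' D₂.tm ∧ ¬ InA D' D₁.tm))

lemma inA_congr {D D' : Dat} {k : ℤ} (h1 : D'.tm = D.tm + k) (h2 : D'.tp = D.tp + k) {θ : ℝ} :
    InA D θ ↔ InA D' θ := by
  constructor
  · rintro ⟨l, h3, h4⟩
    exact ⟨l + k, by rw [h1]; push_cast; linarith, by rw [h2]; push_cast; linarith⟩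
  · rintro ⟨l, h3, h4⟩
    rw [h1] at h3
    rw [h2] at h4
    exact ⟨l - k, by push_cast; linarith, by push_cast; linarith⟩

variable {ι : Type} [Fintype ι] {D : ι → Dat} {N : ℕ}

/-- the separation statement for a complete family -/
theorem sepFam_of (hG3 : G3_sep) (h : Fam60 Finset.univ D) (hm : ∀ i, (D i).m ≤ N)
    (hF : Full24 N D) : SepFam D := by
  intro i j hij hmij hxij
  obtain ⟨D', hP, hC, h1, h2, h3⟩ := hG3 (D i) (D j) (h.P i) (h.C i) (h.P j) (h.C j) hmij hxij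
    (h.ne hij)
  obtain ⟨l, hl⟩ := hF D' hP hC (h1.trans (hm i)) (h2.trans (Nat.mul_le_mul_left 3 (hm i)))
  obtain ⟨k, hk1, hk2⟩ := plateau_unique n2_ray (h.P l) (h.C l) hP hC hl
  refine ⟨l, ?_⟩
  rw [← inA_congr hk1 hk2, ← inA_congr hk1 hk2]
  exact h3

end Pool.Agent.Work.MLC.Cnt
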