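import Pool.Agent.Work.MLC.CntD43
import Pool.Agent.Work.MLC.CntW26
import Pool.Agent.Work.MLC.CntLen78
import Pool.Agent.Work.MLC.CntR15
import Pool.Agent.Work.MLC.CntGate70

set_option autoImplicit false

/-! # Theorem F, module G13, final form (helper43): `PartFam` without hypotheses -/

namespace Pool.Agent.Work.MLC.Cnt

open Pool.Agent.Work.MLC.Sat

/-- **G13**: the size of every piece is at most the sum of the sizes of its parts -/
theorem partFam43 {ι : Type} [Fintype ι] {D : ι → Dat} [Nonempty ι] [DecidableEq ι]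
    (h : Fam60 Finset.univ D) {N : ℕ} (hmq : ∀ i, (D i).m * (D i).x.den ≤ 3 * N) :
    PartFam h N :=
  g13_diam n1_length n2_ray n3_gate h hmq (Gp h) (fun _ => mem_Gp h) (fun J => endL D J.1)
    (fun J => endL D J.2) (fun _ hJ => endL_spec ((mem_Gp h).1 hJ).left)
    (fun _ hJ => endL_spec ((mem_Gp h).1 hJ).right)

end Pool.Agent.Work.MLC.Cnt
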