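import Pool.Agent.Work.MLC.CntG86b

set_option autoImplicit false

/-! # Theorem F: measures (helper26) -/

namespace Pool.Agent.Work.MLC.Cnt

open Filter Topology Set MeasureTheory
open scoped ENNReal

/-- a set with polylogarithmic covering numbers is null for every measure which gives mass at most
`c / n ^ (a + 1)` to the intervals of length `2 ^ (-n)` -/
theorem CovPoly.measure_null {a : ℕ} {E : Set ℝ} (h : CovPoly a E) (ν : Measure ℝ) (c : ℝ)
    (hν : ∀ (x : ℝ) (n : ℕ), 1 ≤ n →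
      ν (Icc x (x + (1 / 2 : ℝ) ^ n)) ≤ ENNReal.ofReal (c / (n : ℝ) ^ (a + 1))) : ν E = 0 := by
  obtain ⟨C, hC⟩ := h
  have key : ∀ n : ℕ, 1 ≤ n → ν E ≤ ENNReal.ofReal (|C| * |c| * (n : ℝ)⁻¹) := by
    intro n hn
    obtain ⟨F, hF, hE⟩ := hC n hn
    have hn0 : (0 : ℝ) < n := by exact_mod_cast hn
    calc ν E ≤ ν (⋃ x ∈ F, Icc x (x + (1 / 2 : ℝ) ^ n)) := measure_mono hE
      _ ≤ ∑ x ∈ F, ν (Icc x (x + (1 / 2 : ℝ) ^ n)) := measure_biUnion_finset_le _ _
      _ ≤ ∑ x ∈ F, ENNReal.ofReal (|c| / (n : ℝ) ^ (a + 1)) := by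
          refine Finset.sum_le_sum fun x _ => (hν x n hn).trans ?_
          apply ENNReal.ofReal_le_ofReal
          gcongr
          exact le_abs_self c
      _ = ENNReal.ofReal (F.card * (|c| / (n : ℝ) ^ (a + 1))) := by
          rw [Finset.sum_const, nsmul_eq_mul, ENNReal.ofReal_mul (Nat.cast_nonneg _),
            ENNReal.ofReal_natCast]
      _ ≤ ENNReal.ofReal (|C| * |c| * (n : ℝ)⁻¹) := by
          apply ENNReal.ofReal_le_ofReal
          have h1 : (F.card : ℝ) ≤ |C| * (n : ℝ) ^ a := hF.trans (by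
            gcongr; exact le_abs_self C)
          calc (F.card : ℝ) * (|c| / (n : ℝ) ^ (a + 1))
              ≤ |C| * (n : ℝ) ^ a * (|c| / (n : ℝ) ^ (a + 1)) := by gcongr
            _ = |C| * |c| * (n : ℝ)⁻¹ := by
                rw [pow_succ]; field_simp
  have h1 : Tendsto (fun n : ℕ => |C| * |c| * (n : ℝ)⁻¹) atTop (𝓝 0) := by
    have := (tendsto_inv_atTop_nhds_zero_nat (𝕜 := ℝ)).const_mul (|C| * |c|)
    rwa [mul_zero] at this
  have h2 := ENNReal.tendsto_ofReal h1
  rw [ENNReal.ofReal_zero] at h2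
  refine le_antisymm (ge_of_tendsto h2 ?_) zero_le
  filter_upwards [eventually_ge_atTop 1] with n hn
  exact key n hn

end Pool.Agent.Work.MLC.Cnt
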