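import Pool.Agent.Work.MLC.CntX26
import Pool.Agent.Work.MLC.CntX43
import Pool.Agent.Work.MLC.CntG57
import Pool.Agent.Work.MLC.CntG3_70
import Pool.Agent.Work.MLC.CntG78

set_option autoImplicit false

/-! # Theorem F, part (A): assembly (helper26) -/

namespace Pool.Agent.Work.MLC.Cnt

open Filter Topology Metric Set Complex MeasureTheory
open Pool.Agent.Work.MLC.Sat

/-- the topological facts about the pieces -/
structure TopFam {ι : Type} [Fintype ι] (D : ι → Dat) : Prop where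
  union : (⋃ o, Pc Finset.univ D (adO D o)) = MM
  inter : ∀ o o', o ≠ o' →
    (Pc Finset.univ D (adO D o) ∩ Pc Finset.univ D (adO D o')).Subsingleton
  inj : Function.Injective fun o => Pc Finset.univ D (adO D o)
  int : ∀ o, (interior (Pc Finset.univ D (adO D o))).Nonempty

/-- G3 (helper70) -/
theorem g3Sep : G3_sep := by
  intro D₁ D₂ hP1 hC1 hP2 hC2 hm hx hne
  obtain ⟨D', h1, h2, h3, -, h4, h5⟩ := g3_sep hP1 hC1 hP2 hC2 hm hx hne
  exact ⟨D', h1, h2, h3.le, h4, h5⟩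

/-- G4 (helper78) -/
theorem dense26 {N : ℕ} (hN : 1 ≤ N) : Dense24 N := by
  intro u
  obtain ⟨D, h1, h2, h3, h4, -, k, h5⟩ := g4_short hN u
  refine ⟨D, h1, h2, h3, h4, k, ?_⟩
  rcases h5 with ⟨h5, h6⟩ | ⟨h5, h6⟩
  · exact Or.inl ⟨h5.le, h6.le⟩
  · exact Or.inr ⟨h5.le, h6.le⟩

/-- a complete family of level `N` -/
theorem exists_fam (N : ℕ) : ∃ (ι : Type) (_ : Fintype ι) (D : ι → Dat), Fam60 Finset.univ D ∧
    (∀ i, (D i).m ≤ N) ∧ (∀ i, (D i).m * (D i).x.den ≤ 3 * N) ∧ Full24 N D := by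
  obtain ⟨ι, hι, D, h1, h2, h3⟩ := exists_lev3 N
  exact ⟨ι, hι, D, ⟨fun i _ => (h1 i).1, fun i _ => (h1 i).2.1, fun i _ j _ h => h2 i j h⟩,
    fun i => (h1 i).2.2.1, fun i => (h1 i).2.2.2, fun D' a b c d => h3 D' ⟨a, b, c, d⟩⟩

/-- **the decomposition of the Mandelbrot set** (part (A)) -/
theorem decomp
    (hT : ∀ (ι : Type) [Fintype ι] (D : ι → Dat), Fam60 Finset.univ D → TopFam D) :
    ∃ C : ℝ, ∀ N : ℕ, 1 ≤ N → ∃ (R : Finset ℂ) (KK : Finset (Set ℂ)),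
      (∀ K ∈ KK, IsCompact K ∧ IsConnected K ∧ (interior K).Nonempty ∧ K ⊆ MM ∧
        ∀ z ∈ K, z ∉ R → K ∈ 𝓝[MM] z) ∧
      ⋃ K ∈ KK, K = MM ∧
      (∀ K ∈ KK, ∀ K' ∈ KK, K ≠ K' → (K ∩ K').Subsingleton) ∧
      (2 : ℝ) ^ N ≤ C * KK.card ∧ ∑ K ∈ KK, diam K ^ 2 ≤ C * (N : ℝ) ^ 11 := by
  classical
  refine ⟨10 ^ 25, fun N hN => ?_⟩
  obtain ⟨ι, hι, D, h, hm, hmq, hF⟩ := exists_fam N
  have hne : Nonempty ι := by
    obtain ⟨D', a, b, c, d, -⟩ := dense26 hN 0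
    obtain ⟨i, -⟩ := hF D' a b c d
    exact ⟨i⟩
  have hsep := sepFam_of g3Sep h hm hF
  have hpart := partFam43 h hmq
  have hTop := hT ι D h
  have hAdr : ∀ o, IsAdr Finset.univ D (adO D o) := by
    intro o
    obtain ⟨J, hJ, hJo⟩ := adO_mem h o
    rw [← hJo]
    exact isAdr_adr h ((mem_Gp h).1 hJ).lt
  refine ⟨Finset.univ.image fun i => rt (D i),
    Finset.univ.image fun o => Pc Finset.univ D (adO D o), ?_, ?_, ?_, ?_, ?_⟩
  · intro K hK
    obtain ⟨o, -, rfl⟩ := Finset.mem_image.1 hK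
    refine ⟨isCompact_Pc h _, ⟨(hTop.int o).mono interior_subset, isPreconnected_Pc h (hAdr o)⟩,
      hTop.int o, fun z hz => hz.1, fun z hz hzR => ?_⟩
    have h1 : ∀ i ∈ (Finset.univ : Finset ι), z ≠ rt (D i) := fun i hi h2 =>
      hzR (Finset.mem_image.2 ⟨i, hi, h2.symm⟩)
    rw [mem_nhdsWithin_iff_eventually]
    exact Pc_open h hz h1
  · have h1 := hTop.union
    rw [← h1]
    ext z
    simp
  · intro K hK K' hK' hKK
    obtain ⟨o, -, rfl⟩ := Finset.mem_image.1 hK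
    obtain ⟨o', -, rfl⟩ := Finset.mem_image.1 hK'
    exact hTop.inter o o' fun h1 => hKK (by rw [h1])
  · rw [Finset.card_image_of_injective _ hTop.inj, Finset.card_univ, Fintype.card_option]
    have h1 := card_full24 n2_ray h hF (dense26 hN)
    have h2 : (2 : ℝ) ^ N ≤ 64 * (Fintype.card ι : ℝ) := by exact_mod_cast h1
    push_cast
    have h3 : (0 : ℝ) ≤ Fintype.card ι := Nat.cast_nonneg _
    linarith
  · exact sum_sq_opt n1_area n3_gate n3_disj hN h hm hmq hsep hpart _ fun K hK => by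
      obtain ⟨o, -, rfl⟩ := Finset.mem_image.1 hK
      exact ⟨o, rfl⟩

end Pool.Agent.Work.MLC.Cnt
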