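import Mathlib

/-!
# MLC project, module Comb (helper67)

A finite family `A i` (`i : ℕ`, `n`-periodic) of `ℤ`-invariant subsets of `ℝ` (i.e. finite
subsets of the circle) with `2 A i = A (i+1)`, every `A i` contained in an open half circle and
having at least two points, pairwise equal or unlinked (and disjoint).  Then the set of the `θ`
whose diameter `{θ/2, (θ+1)/2}` separates no `A i` (nor meets one of their hulls) is one
nonempty open arc.
-/

namespace Pool.Agent.MLC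

/-- `A` (a `ℤ`-invariant set of reals) lies in the open half circle
`((θ+e)/2, (θ+e)/2 + 1/2)` modulo `1`. -/
def InHalf (A : Set ℝ) (θ : ℝ) (e : ℤ) : Prop :=
  ∀ a ∈ A, ∃ k : ℤ, (θ + e) / 2 < a + k ∧ a + k < (θ + e) / 2 + 1 / 2

/-- weakly linked: two points of `A` and two of `B` alternate on the circle (equalities allowed,
so a common point counts as linked). -/
def Linked (A B : Set ℝ) : Prop :=
  ∃ a ∈ A, ∃ b ∈ B, ∃ c ∈ A, ∃ d ∈ B, a ≤ b ∧ b ≤ c ∧ c ≤ d ∧ d ≤ a + 1

theorem Linked.symm' {A B : Set ℝ} (hA : ∀ a ∈ A, ∀ k : ℤ, a + k ∈ A)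
    (h : Linked A B) : Linked B A := by
  obtain ⟨a, ha, b, hb, c, hc, d, hd, h1, h2, h3, h4⟩ := h
  refine ⟨b, hb, c, hc, d, hd, a + 1, by simpa using hA a ha 1, h2, h3, h4, by linarith⟩

/-- A finite portrait of period `n` (lifted to `ℝ`). -/
structure Portrait (n : ℕ) (A : ℕ → Set ℝ) : Prop where
  per : ∀ i, A (i + n) = A i
  shift : ∀ i, ∀ a ∈ A i, ∀ k : ℤ, a + k ∈ A i
  fin : ∀ i, (A i ∩ Set.Ico 0 1).Finite
  dbl : ∀ i, ∀ a ∈ A i, 2 * a ∈ A (i + 1)
  sur : ∀ i, ∀ b ∈ A (i + 1), ∃ a ∈ A i, ∃ k : ℤ, 2 * a = b + k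
  two : ∀ i, ∃ a ∈ A i, ∃ b ∈ A i, a < b ∧ b < a + 1
  half : ∀ i, ∃ s : ℝ, ∀ a ∈ A i, ∃ k : ℤ, s < a + k ∧ a + k < s + 1 / 2
  unl : ∀ i j, A i = A j ∨ ¬ Linked (A i) (A j)

namespace Portrait

variable {n : ℕ} {A : ℕ → Set ℝ}

/-- the set of differences `b - a`, `a < b < a + 1`, `a, b` in the same `A i`. -/
def diffs (A : ℕ → Set ℝ) : Set ℝ :=
  {g | ∃ i, ∃ a ∈ A i, ∃ b ∈ A i, a < b ∧ b < a + 1 ∧ g = b - a}

theorem per_mod (hP : Portrait n A) (hn : 0 < n) (i : ℕ) : A i = A (i % n) := by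
  induction i using Nat.strong_induction_on with
  | _ i ih =>
    by_cases h : i < n
    · rw [Nat.mod_eq_of_lt h]
    · push Not at h
      have h1 : A ((i - n) + n) = A (i - n) := hP.per (i - n)
      rw [Nat.sub_add_cancel h] at h1
      rw [h1, ih (i - n) (by omega), Nat.mod_eq_sub_mod h]

theorem diffs_finite (hP : Portrait n A) (hn : 0 < n) : (diffs A).Finite := by
  classical
  -- the finite set of all representatives
  have hfin2 : ∀ i, (A i ∩ Set.Ico 0 2).Finite := by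
    intro i
    have h1 : (A i ∩ Set.Ico (0 : ℝ) 2) ⊆
        (A i ∩ Set.Ico 0 1) ∪ ((fun x : ℝ => x + 1) '' (A i ∩ Set.Ico 0 1)) := by
      rintro x ⟨hx, hx0, hx2⟩
      by_cases h : x < 1
      · exact Or.inl ⟨hx, hx0, h⟩
      · push Not at h
        refine Or.inr ⟨x - 1, ⟨?_, by constructor <;> linarith⟩, by ring⟩
        have := hP.shift i x hx (-1)
        simpa [sub_eq_add_neg] using this
    exact ((hP.fin i).union ((hP.fin i).image _)).subset h1
  have : (diffs A) ⊆ ⋃ i ∈ Finset.range n,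
      ((fun p : ℝ × ℝ => p.2 - p.1) '' ((A i ∩ Set.Ico 0 1) ×ˢ (A i ∩ Set.Ico 0 2))) := by
    rintro g ⟨i, a, ha, b, hb, hab, hba, rfl⟩
    rw [hP.per_mod hn i] at ha hb
    simp only [Set.mem_iUnion, Finset.mem_range]
    refine ⟨i % n, Nat.mod_lt _ hn, ⟨(a + (-⌊a⌋ : ℤ), b + (-⌊a⌋ : ℤ)), ⟨⟨?_, ?_⟩, ⟨?_, ?_⟩⟩, ?_⟩⟩
    · exact hP.shift _ a ha _
    · push_cast
      have h1 := Int.floor_le a
      have h2 := Int.lt_floor_add_one a
      constructor <;> linarith
    · exact hP.shift _ b hb _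
    · push_cast
      have h1 := Int.floor_le a
      have h2 := Int.lt_floor_add_one a
      constructor <;> linarith
    · simp only; ring
  refine Set.Finite.subset ?_ this
  refine Set.Finite.biUnion (Finset.finite_toSet _) ?_
  intro i _
  exact ((hP.fin i).prod (hfin2 i)).image _

/-- given `a, b` in `A i`, there is a translate of `b` at distance `< 1/2` of `a`. -/
theorem near (hP : Portrait n A) (i : ℕ) {a b : ℝ} (ha : a ∈ A i) (hb : b ∈ A i) :
    ∃ k : ℤ, b + k ∈ A i ∧ a - 1 / 2 < b + k ∧ b + k < a + 1 / 2 := by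
  obtain ⟨s, hs⟩ := hP.half i
  obtain ⟨k, hk1, hk2⟩ := hs a ha
  obtain ⟨l, hl1, hl2⟩ := hs b hb
  refine ⟨l - k, hP.shift i b hb _, ?_, ?_⟩ <;> push_cast <;> linarith

theorem near_ne (hP : Portrait n A) (i : ℕ) {a : ℝ} (ha : a ∈ A i) :
    ∃ b ∈ A i, b ≠ a ∧ a - 1 / 2 < b ∧ b < a + 1 / 2 := by
  obtain ⟨u, hu, v, hv, huv, hvu⟩ := hP.two i
  obtain ⟨k, hk, hk1, hk2⟩ := hP.near i ha hu
  obtain ⟨l, hl, hl1, hl2⟩ := hP.near i ha hv
  by_cases h : u + k = a
  · refine ⟨v + l, hl, ?_, hl1, hl2⟩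
    intro h'
    have h3 : v - u = ((k - l : ℤ) : ℝ) := by push_cast; linarith
    have h4 : (0 : ℝ) < ((k - l : ℤ) : ℝ) := by rw [← h3]; linarith
    have h5 : ((k - l : ℤ) : ℝ) < 1 := by rw [← h3]; linarith
    have h6 : 0 < k - l := by exact_mod_cast h4
    have h7 : k - l < 1 := by exact_mod_cast h5
    omega
  · exact ⟨u + k, hk, h, hk1, hk2⟩

/-- the longest short chord. -/
theorem exists_max (hP : Portrait n A) (hn : 0 < n) :
    ∃ i, ∃ x ∈ A i, ∃ y ∈ A i, x < y ∧ y < x + 1 / 2 ∧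
      ∀ j, ∀ a ∈ A j, ∀ b ∈ A j, a ≤ b → b < a + 1 / 2 → b - a ≤ y - x := by
  classical
  have hfin : (diffs A ∩ Set.Iio (1 / 2)).Finite := (hP.diffs_finite hn).subset Set.inter_subset_left
  have hne : (diffs A ∩ Set.Iio (1 / 2)).Nonempty := by
    obtain ⟨a, ha, -⟩ := hP.two 0
    obtain ⟨b, hb, hne, h1, h2⟩ := hP.near_ne 0 ha
    rcases lt_or_gt_of_ne hne with h | h
    · exact ⟨a - b, ⟨0, b, hb, a, ha, h, by linarith, rfl⟩, by simp only [Set.mem_Iio]; linarith⟩
    · exact ⟨b - a, ⟨0, a, ha, b, hb, h, by linarith, rfl⟩, by simp only [Set.mem_Iio]; linarith⟩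
  obtain ⟨g, hg⟩ := hfin.exists_maximal hne
  obtain ⟨⟨i, x, hx, y, hy, hxy, hyx, hg1⟩, hg2⟩ := hg.1
  simp only [Set.mem_Iio] at hg2
  refine ⟨i, x, hx, y, hy, hxy, by linarith, ?_⟩
  intro j a ha b hb hab hba
  rcases hab.eq_or_lt with h | h
  · rw [h]; linarith
  by_contra hcon
  push Not at hcon
  have hmem : b - a ∈ diffs A ∩ Set.Iio (1 / 2) :=
    ⟨⟨j, a, ha, b, hb, h, by linarith, rfl⟩, by simp only [Set.mem_Iio]; linarith⟩
  have := hg.2 hmem (by rw [hg1]; exact hcon.le)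
  rw [hg1] at this
  linarith

/-- every distance is at least `1 - 2 (y-x)`. -/
theorem min_dist (hP : Portrait n A) (hn : 0 < n) {L : ℝ}
    (hL : ∀ j, ∀ a ∈ A j, ∀ b ∈ A j, a ≤ b → b < a + 1 / 2 → b - a ≤ L) :
    ∀ j, ∀ a ∈ A j, ∀ b ∈ A j, a < b → 1 - 2 * L ≤ b - a := by
  classical
  -- it suffices to treat differences < 1
  have hL0 : 0 ≤ L := by
    obtain ⟨a, ha, -⟩ := hP.two 0
    have := hL 0 a ha a ha le_rfl (by linarith)
    linarith
  have key : ∀ g ∈ diffs A, 1 - 2 * L ≤ g := by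
    have hne : (diffs A).Nonempty := by
      obtain ⟨a, ha, b, hb, h1, h2⟩ := hP.two 0
      exact ⟨b - a, 0, a, ha, b, hb, h1, h2, rfl⟩
    obtain ⟨g, hg⟩ := (hP.diffs_finite hn).exists_minimal hne
    obtain ⟨i, a, ha, b, hb, hab, hba, hg1⟩ := hg.1
    have hgmin : ∀ g' ∈ diffs A, g ≤ g' := by
      intro g' hg'
      by_contra hcon
      push Not at hcon
      exact absurd (hg.2 hg' hcon.le) (not_le.mpr hcon)
    suffices h : 1 - 2 * L ≤ g by
      intro g' hg'
      exact h.trans (hgmin g' hg')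
    -- pull back
    have hAi : A i = A ((i + n - 1) + 1) := by
      rw [← hP.per i]
      congr 1
      omega
    rw [hAi] at ha hb
    set m := i + n - 1 with hm
    obtain ⟨a', ha', k, hk⟩ := hP.sur m a ha
    obtain ⟨b₀, hb₀, l₀, hl₀⟩ := hP.sur m b hb
    obtain ⟨q, hb', hq1, hq2⟩ := hP.near m ha' hb₀
    set b' := b₀ + q with hb'def
    have hl : 2 * b' = b + ((l₀ + 2 * q : ℤ) : ℝ) := by
      push_cast; rw [hb'def]; linarith
    set l := l₀ + 2 * q with hldef
    -- 2 (b' - a') = g + (l - k)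
    have h1 : 2 * (b' - a') = g + ((l - k : ℤ) : ℝ) := by
      push_cast; rw [hg1]; linarith
    have h2 : -1 < g + ((l - k : ℤ) : ℝ) := by rw [← h1]; linarith
    have h3 : g + ((l - k : ℤ) : ℝ) < 1 := by rw [← h1]; linarith
    have hg0 : 0 < g := by rw [hg1]; linarith
    have hg1' : g < 1 := by rw [hg1]; linarith
    have h4 : (-2 : ℝ) < ((l - k : ℤ) : ℝ) := by linarith
    have h5 : ((l - k : ℤ) : ℝ) < 1 := by linarith
    have h4' : -2 < l - k := by exact_mod_cast h4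
    have h5' : l - k < 1 := by exact_mod_cast h5
    have h6 : l - k = -1 ∨ l - k = 0 := by omega
    rcases h6 with h6 | h6
    · -- b' - a' = (g-1)/2
      rw [h6] at h1
      push_cast at h1
      have h7 : a' - b' ≤ L := by
        apply hL m b' hb' a' ha'
        · linarith
        · linarith
      linarith
    · rw [h6] at h1
      push_cast at h1
      have h7 : b' - a' ∈ diffs A := ⟨m, a', ha', b', hb', by linarith, by linarith, rfl⟩
      have := hgmin _ h7
      linarith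
  intro j a ha b hb hab
  by_cases h : b < a + 1
  · exact key _ ⟨j, a, ha, b, hb, hab, h, rfl⟩
  · push Not at h
    linarith

/-- extremality of the longest short chord inside its own `A i`. -/
theorem extreme (hP : Portrait n A) {i : ℕ} {x y : ℝ} (hx : x ∈ A i) (hy : y ∈ A i)
    (hxy : x < y) (hyx : y < x + 1 / 2)
    (hmax : ∀ j, ∀ a ∈ A j, ∀ b ∈ A j, a ≤ b → b < a + 1 / 2 → b - a ≤ y - x) :
    ∀ a ∈ A i, ∃ k : ℤ, x ≤ a + k ∧ a + k ≤ y := by
  intro a ha
  obtain ⟨s, hs⟩ := hP.half i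
  obtain ⟨p, hp1, hp2⟩ := hs x hx
  obtain ⟨q, hq1, hq2⟩ := hs y hy
  obtain ⟨k, hk1, hk2⟩ := hs a ha
  have h1 : ((q - p : ℤ) : ℝ) < 1 := by push_cast; linarith
  have h2 : (-1 : ℝ) < ((q - p : ℤ) : ℝ) := by push_cast; linarith
  have h1' : q - p < 1 := by exact_mod_cast h1
  have h2' : -1 < q - p := by exact_mod_cast h2
  have hpq : q = p := by omega
  subst hpq
  refine ⟨k - q, ?_, ?_⟩
  · by_contra hcon
    push Not at hcon
    push_cast at hcon
    have := hmax i (a + k) (hP.shift i a ha k) (y + q) (hP.shift i y hy q) (by linarith) (by linarith)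
    linarith
  · by_contra hcon
    push Not at hcon
    push_cast at hcon
    have := hmax i (x + q) (hP.shift i x hx q) (a + k) (hP.shift i a ha k) (by linarith) (by linarith)
    linarith

/-- the doubled longest gap contains no point of the next set. -/
theorem gap_next (hP : Portrait n A) {i : ℕ} {x y : ℝ}
    (hex : ∀ a ∈ A i, ∃ k : ℤ, x ≤ a + k ∧ a + k ≤ y) :
    ∀ b ∈ A (i + 1), 2 * y < b → b < 2 * x + 1 → False := by
  intro b hb h1 h2
  obtain ⟨a, ha, k, hk⟩ := hP.sur i b hb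
  obtain ⟨l, hl1, hl2⟩ := hex a ha
  have h3 : (0 : ℝ) < ((-k - 2 * l : ℤ) : ℝ) + 1 - 1 := by
    push_cast
    have : b + k = 2 * a := hk.symm
    nlinarith
  have h4 : ((-k - 2 * l : ℤ) : ℝ) < 1 + 0 := by
    push_cast
    have : b + k = 2 * a := hk.symm
    nlinarith
  have h3' : (0 : ℝ) < ((-k - 2 * l : ℤ) : ℝ) := by linarith
  have h4' : ((-k - 2 * l : ℤ) : ℝ) < 1 := by linarith
  have h5 : 0 < -k - 2 * l := by exact_mod_cast h3'
  have h6 : -k - 2 * l < 1 := by exact_mod_cast h4'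
  omega

/-- no point of any `A j` doubles into the characteristic arc. -/
theorem no_point (hP : Portrait n A) (hn : 0 < n) {i : ℕ} {x y : ℝ} (hx : x ∈ A i) (hy : y ∈ A i)
    (_hxy : x < y) (_hyx : y < x + 1 / 2)
    (hmax : ∀ j, ∀ a ∈ A j, ∀ b ∈ A j, a ≤ b → b < a + 1 / 2 → b - a ≤ y - x)
    (hex : ∀ a ∈ A i, ∃ k : ℤ, x ≤ a + k ∧ a + k ≤ y)
    (j : ℕ) {a : ℝ} (ha : a ∈ A j) (m₀ : ℤ) (h1 : 2 * y < 2 * a + m₀) (h2 : 2 * a + m₀ < 2 * x + 1) :
    False := by
  have hmin := hP.min_dist hn hmax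
  obtain ⟨b, hb, hne, hb1, hb2⟩ := hP.near_ne j ha
  have ha2 : 2 * a + m₀ ∈ A (j + 1) := hP.shift _ _ (hP.dbl j a ha) _
  have hb2' : 2 * b ∈ A (j + 1) := hP.dbl j b hb
  rcases hP.unl (i + 1) (j + 1) with heq | hunl
  · rw [← heq] at ha2
    exact hP.gap_next hex _ ha2 h1 h2
  · -- normalise 2 b into [2 y, 2 y + 1)
    set m : ℤ := -⌊2 * b - 2 * y⌋ with hm
    have hm1 : 2 * y ≤ 2 * b + m := by
      have := Int.floor_le (2 * b - 2 * y)
      push_cast [hm]; linarith
    have hm2 : 2 * b + m < 2 * y + 1 := by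
      have := Int.lt_floor_add_one (2 * b - 2 * y)
      push_cast [hm]; linarith
    have hb3 : 2 * b + m ∈ A (j + 1) := hP.shift _ _ hb2' _
    have hy2 : 2 * y ∈ A (i + 1) := hP.dbl i y hy
    have hx2 : 2 * x + 1 ∈ A (i + 1) := by
      have := hP.shift _ _ (hP.dbl i x hx) 1
      simpa using this
    by_cases hcase : 2 * x + 1 ≤ 2 * b + m
    · exact hunl ⟨2 * y, hy2, 2 * a + m₀, ha2, 2 * x + 1, hx2, 2 * b + m, hb3,
        h1.le, h2.le, hcase, hm2.le⟩
    · push Not at hcase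
      -- both in the characteristic arc
      -- 2 b - 2 a = (m₀ - m) + small
      by_cases hmm : m₀ = m
      · subst hmm
        rcases lt_or_gt_of_ne hne with h | h
        · have := hmin j b hb a ha h
          linarith
        · have := hmin j a ha b hb h
          linarith
      · rcases lt_or_gt_of_ne hmm with h | h
        · -- m₀ < m
          have h' : (m₀ : ℝ) + 1 ≤ m := by exact_mod_cast h
          have := hmax j b hb a ha (by linarith) (by linarith)
          linarith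
        · have h' : (m : ℝ) + 1 ≤ m₀ := by exact_mod_cast h
          have := hmax j a ha b hb (by linarith) (by linarith)
          linarith

/-- no short chord of any `A j` contains a half of an angle of the characteristic arc. -/
theorem no_sep (hP : Portrait n A) (hn : 0 < n) {i : ℕ} {x y : ℝ} (hx : x ∈ A i) (hy : y ∈ A i)
    (hxy : x < y) (hyx : y < x + 1 / 2)
    (hmax : ∀ j, ∀ a ∈ A j, ∀ b ∈ A j, a ≤ b → b < a + 1 / 2 → b - a ≤ y - x)
    (hex : ∀ a ∈ A i, ∃ k : ℤ, x ≤ a + k ∧ a + k ≤ y)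
    (j : ℕ) {a b : ℝ} (ha : a ∈ A j) (hb : b ∈ A j) (_hab : a ≤ b) (hba : b < a + 1 / 2)
    {θ : ℝ} (m : ℤ) (h1 : 2 * y < θ) (h2 : θ < 2 * x + 1)
    (h3 : a ≤ (θ + m) / 2) (h4 : (θ + m) / 2 ≤ b) : False := by
  -- 2 a, 2 b are not in the arc
  have ha1 : 2 * a ≤ 2 * y + m := by
    by_contra hcon
    push Not at hcon
    exact hP.no_point hn hx hy hxy hyx hmax hex j ha (-m) (by push_cast; linarith)
      (by push_cast; linarith)
  have hb1 : 2 * x + 1 + m ≤ 2 * b := by
    by_contra hcon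
    push Not at hcon
    exact hP.no_point hn hx hy hxy hyx hmax hex j hb (-m) (by push_cast; linarith)
      (by push_cast; linarith)
  obtain ⟨m', hm' | hm'⟩ := Int.even_or_odd' m
  · have hm'' : (m : ℝ) = 2 * m' := by rw [hm']; push_cast; ring
    have c1 : x + m' ∈ A i := hP.shift i x hx m'
    have c2 : y + m' ∈ A i := hP.shift i y hy m'
    rcases hP.unl i j with heq | hunl
    · rw [← heq] at hb
      obtain ⟨k, hk1, hk2⟩ := hex b hb
      have e1 : ((m' + k : ℤ) : ℝ) < 0 + 0 := by push_cast; linarith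
      have e2 : (-1 : ℝ) < ((m' + k : ℤ) : ℝ) := by push_cast; linarith
      have e1' : ((m' + k : ℤ) : ℝ) < 0 := by linarith
      have e3 : m' + k < 0 := by exact_mod_cast e1'
      have e4 : -1 < m' + k := by exact_mod_cast e2
      omega
    · exact hunl ⟨x + m', c1, a, ha, y + m', c2, b, hb, by linarith, by linarith, by linarith,
        by linarith⟩
  · have hm'' : (m : ℝ) = 2 * m' + 1 := by rw [hm']; push_cast; ring
    have c1 : y + m' ∈ A i := hP.shift i y hy m'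
    have c2 : x + m' + 1 ∈ A i := by
      have := hP.shift i x hx (m' + 1)
      push_cast at this
      rwa [← add_assoc] at this
    rcases hP.unl i j with heq | hunl
    · rw [← heq] at ha
      obtain ⟨k, hk1, hk2⟩ := hex a ha
      have e1 : ((m' + k : ℤ) : ℝ) < 0 + 0 := by push_cast; linarith
      have e2 : (-1 : ℝ) < ((m' + k : ℤ) : ℝ) := by push_cast; linarith
      have e1' : ((m' + k : ℤ) : ℝ) < 0 := by linarith
      have e3 : m' + k < 0 := by exact_mod_cast e1'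
      have e4 : -1 < m' + k := by exact_mod_cast e2
      omega
    · exact hunl ⟨y + m', c1, a, ha, x + m' + 1, c2, b, hb, by linarith, by linarith, by linarith,
        by linarith⟩

theorem _root_.Pool.Agent.MLC.InHalf.add_two {A : Set ℝ} {θ : ℝ} {e : ℤ} (h : InHalf A θ e)
    (j : ℤ) : InHalf A θ (e + 2 * j) := by
  intro a ha
  obtain ⟨k, h1, h2⟩ := h a ha
  refine ⟨k + j, ?_, ?_⟩ <;> push_cast <;> linarith

theorem _root_.Pool.Agent.MLC.InHalf.shift {A : Set ℝ} {θ : ℝ} {e : ℤ} (h : InHalf A θ e)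
    (j : ℤ) : InHalf A (θ + j) (e - j) := by
  intro a ha
  obtain ⟨k, h1, h2⟩ := h a ha
  refine ⟨k, ?_, ?_⟩ <;> push_cast <;> linarith

/-- the index of the half circle is determined modulo `2`. -/
theorem _root_.Pool.Agent.MLC.InHalf.unique {A : Set ℝ} (hne : A.Nonempty) {θ : ℝ} {e e' : ℤ}
    (h : InHalf A θ e) (h' : InHalf A θ e') : ∃ j : ℤ, e' = e + 2 * j := by
  obtain ⟨a, ha⟩ := hne
  obtain ⟨k, h1, h2⟩ := h a ha
  obtain ⟨l, h3, h4⟩ := h' a ha
  refine ⟨l - k, ?_⟩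
  have f1 : ((e' - e - 2 * (l - k) : ℤ) : ℝ) < 1 := by push_cast; linarith
  have f2 : (-1 : ℝ) < ((e' - e - 2 * (l - k) : ℤ) : ℝ) := by push_cast; linarith
  have f3 : e' - e - 2 * (l - k) < 1 := by exact_mod_cast f1
  have f4 : -1 < e' - e - 2 * (l - k) := by exact_mod_cast f2
  omega

/-- **Comb.** There are `s < t < s + 1` in one `A i` and a word `w` such that for `θ ∈ (s, t)`
every `A i` is in the open half circle number `w i` of `θ`; and every `θ` whose diameter
separates no `A i` is, modulo `1`, in `(s, t)`. -/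
theorem arc_word (hP : Portrait n A) (hn : 0 < n) :
    ∃ s t : ℝ, s < t ∧ t < s + 1 ∧ (∃ i, s ∈ A i ∧ t ∈ A i) ∧
      (∃ w : ℕ → ℤ, (∀ i, w i = 0 ∨ w i = 1) ∧
        ∀ i, ∀ θ ∈ Set.Ioo s t, InHalf (A i) θ (w i)) ∧
      ∀ θ : ℝ, (∀ i, ∃ e : ℤ, InHalf (A i) θ e) → ∃ k : ℤ, s < θ + k ∧ θ + k < t := by
  obtain ⟨i, x, hx, y, hy, hxy, hyx, hmax⟩ := hP.exists_max hn
  have hex := hP.extreme hx hy hxy hyx hmax
  refine ⟨2 * y, 2 * x + 1, by linarith, by linarith, ⟨i + 1, hP.dbl i y hy, ?_⟩, ?_, ?_⟩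
  · have := hP.shift _ _ (hP.dbl i x hx) 1
    simpa using this
  · -- the word
    choose a₀ ha₀ _ using hP.two
    set θ₀ : ℝ := (2 * y + (2 * x + 1)) / 2 with hθ₀
    have hw : ∀ j, ∀ θ ∈ Set.Ioo (2 * y) (2 * x + 1), ∃ m : ℤ, m = ⌊2 * a₀ j - θ₀⌋ ∧
        InHalf (A j) θ m := by
      intro j θ hθ
      obtain ⟨hk1, hk2⟩ := hθ
      set m : ℤ := ⌊2 * a₀ j - θ⌋ with hm
      have hm1 : (θ + m) / 2 ≤ a₀ j := by
        have := Int.floor_le (2 * a₀ j - θ)
        rw [← hm] at this; linarith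
      have hm2 : a₀ j < (θ + m) / 2 + 1 / 2 := by
        have := Int.lt_floor_add_one (2 * a₀ j - θ)
        rw [← hm] at this; linarith
      have hm1' : (θ + m) / 2 < a₀ j := by
        rcases hm1.lt_or_eq with h | h
        · exact h
        · exfalso
          exact hP.no_sep hn hx hy hxy hyx hmax hex j (ha₀ j) (ha₀ j) le_rfl (by linarith)
            (θ := θ) m hk1 hk2 (by rw [h]) (by rw [h])
      refine ⟨m, ?_, ?_⟩
      · -- the floor is constant
        symm
        rw [Int.floor_eq_iff]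
        constructor
        · by_contra hcon
          push Not at hcon
          -- 2 a₀ - θ₀ < m ≤ 2 a₀ - θ
          refine hP.no_point hn hx hy hxy hyx hmax hex j (ha₀ j) (-m) ?_ ?_
          · push_cast; linarith
          · push_cast; rw [hθ₀] at hcon; linarith
        · by_contra hcon
          push Not at hcon
          -- 2 a₀ - θ < m + 1 ≤ 2 a₀ - θ₀
          refine hP.no_point hn hx hy hxy hyx hmax hex j (ha₀ j) (-(m + 1)) ?_ ?_
          · push_cast; rw [hθ₀] at hcon; linarith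
          · push_cast; linarith
      · intro b hb
        obtain ⟨q, hq, hq1, hq2⟩ := hP.near j (ha₀ j) hb
        refine ⟨q, ?_, ?_⟩
        · by_contra hcon
          push Not at hcon
          exact hP.no_sep hn hx hy hxy hyx hmax hex j hq (ha₀ j) (by linarith) (by linarith)
            (θ := θ) m hk1 hk2 (by linarith) hm1'.le
        · by_contra hcon
          push Not at hcon
          exact hP.no_sep hn hx hy hxy hyx hmax hex j (ha₀ j) hq (by linarith) (by linarith)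
            (θ := θ) (m + 1) hk1 hk2 (by push_cast; linarith) (by push_cast; linarith)
    refine ⟨fun j => ⌊2 * a₀ j - θ₀⌋ % 2, fun j => Int.emod_two_eq_zero_or_one _, ?_⟩
    intro j θ hθ
    obtain ⟨m, hm, hin⟩ := hw j θ hθ
    show InHalf (A j) θ (⌊2 * a₀ j - θ₀⌋ % 2)
    rw [← hm]
    have h2 : m % 2 = m + 2 * (-(m / 2)) := by omega
    rw [h2]
    exact hin.add_two _
  · intro θ h
    obtain ⟨e, he⟩ := h i
    by_contra hcon
    push Not at hcon
    -- a translate of θ in [2x, 2y]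
    set m : ℤ := -⌊θ - 2 * x⌋ with hm
    have hm1 : 2 * x ≤ θ + m := by
      have := Int.floor_le (θ - 2 * x)
      push_cast [hm]; linarith
    have hm2 : θ + m < 2 * x + 1 := by
      have := Int.lt_floor_add_one (θ - 2 * x)
      push_cast [hm]; linarith
    have hm3 : θ + m ≤ 2 * y := by
      by_contra h'
      push Not at h'
      exact absurd (hcon m h') (by push Not; exact hm2)
    obtain ⟨k, hk1, hk2⟩ := he x hx
    obtain ⟨l, hl1, hl2⟩ := he y hy
    have e1 : ((l - k : ℤ) : ℝ) < 1 := by push_cast; linarith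
    have e2 : (-1 : ℝ) < ((l - k : ℤ) : ℝ) := by push_cast; linarith
    have e3 : l - k < 1 := by exact_mod_cast e1
    have e4 : -1 < l - k := by exact_mod_cast e2
    have e5 : l = k := by omega
    subst e5
    have f1 : ((e - 2 * l : ℤ) : ℝ) < m := by push_cast; linarith
    have f2 : (m : ℝ) < ((e - 2 * l + 1 : ℤ) : ℝ) := by push_cast; linarith
    have f3 : e - 2 * l < m := by exact_mod_cast f1
    have f4 : m < e - 2 * l + 1 := by exact_mod_cast f2
    omega

/-- the same, as an equivalence (without the word). -/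
theorem arc (hP : Portrait n A) (hn : 0 < n) :
    ∃ s t : ℝ, s < t ∧ t < s + 1 ∧ (∃ i, s ∈ A i ∧ t ∈ A i) ∧
      ∀ θ : ℝ, (∀ i, ∃ e : ℤ, InHalf (A i) θ e) ↔ ∃ k : ℤ, s < θ + k ∧ θ + k < t := by
  obtain ⟨s, t, h1, h2, h3, ⟨w, -, hw⟩, h5⟩ := hP.arc_word hn
  refine ⟨s, t, h1, h2, h3, fun θ => ⟨h5 θ, ?_⟩⟩
  rintro ⟨k, hk1, hk2⟩ i
  have := (hw i (θ + k) ⟨hk1, hk2⟩).shift (-k)
  refine ⟨w i - (-k), ?_⟩
  have e : θ + (k : ℝ) + ((-k : ℤ) : ℝ) = θ := by push_cast; ring
  rwa [e] at this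

end Portrait

end Pool.Agent.MLC
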