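import Pool.Agent.Work.MLC.SatCircE

set_option autoImplicit false

/-! # Characteristic arcs do not cross (helper60)

Two characteristic arcs (limbs in the parameter circle) are nested or disjoint, and the label
intervals of two different components are nested through a limb or disjoint. -/

namespace Pool.Agent.Work.MLC

open Set Circ CircleDeg1Lift Filter Topology

/-- one step of `linked_pairs` -/
theorem linked_pairs_step {w w' : ℕ → ℤ} (hw : ∀ i, w i = 0 ∨ w i = 1)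
    (hw' : ∀ i, w' i = 0 ∨ w' i = 1) {θ a b c d : ℝ}
    (ha : Compat a θ w) (hb : Compat b θ w') (hc : Compat c θ w) (hd : Compat d θ w') {i : ℕ}
    {ka kb kc kd : ℤ} (h1 : 2 ^ i * a + ka ≤ 2 ^ i * b + kb)
    (h2 : 2 ^ i * b + kb ≤ 2 ^ i * c + kc) (h3 : 2 ^ i * c + kc ≤ 2 ^ i * d + kd)
    (h4 : 2 ^ i * d + kd ≤ 2 ^ i * a + ka + 1) :
    w i = w' i ∧ ∃ ka kb kc kd : ℤ, 2 ^ (i + 1) * a + ka ≤ 2 ^ (i + 1) * b + kb ∧
      2 ^ (i + 1) * b + kb ≤ 2 ^ (i + 1) * c + kc ∧ 2 ^ (i + 1) * c + kc ≤ 2 ^ (i + 1) * d + kd ∧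
      2 ^ (i + 1) * d + kd ≤ 2 ^ (i + 1) * a + ka + 1 := by
  obtain ⟨ma, a1, a2⟩ := ha i
  obtain ⟨mb, b1, b2⟩ := hb i
  obtain ⟨mc, c1, c2⟩ := hc i
  obtain ⟨md, d1, d2⟩ := hd i
  have key : ∀ (u v : ℤ) (p r : ℝ) (ep er : ℤ),
      (θ + ep) / 2 + u < p → r < (θ + er) / 2 + v + 1 / 2 → p ≤ r → ep + 2 * u ≤ er + 2 * v := by
    intro u v p r ep er h1 h4 h5
    have : ((ep + 2 * u : ℤ) : ℝ) < ((er + 2 * v + 1 : ℤ) : ℝ) := by push_cast; linarith
    have h6 : ep + 2 * u < er + 2 * v + 1 := by exact_mod_cast this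
    omega
  have k1 := key (ma + ka) (mb + kb) _ _ (w i) (w' i) (by push_cast; linarith)
    (by push_cast; linarith) h1
  have k2 := key (mb + kb) (mc + kc) _ _ (w' i) (w i) (by push_cast; linarith)
    (by push_cast; linarith) h2
  have k3 := key (mc + kc) (md + kd) _ _ (w i) (w' i) (by push_cast; linarith)
    (by push_cast; linarith) h3
  have k4 := key (md + kd) (ma + ka + 1) _ (2 ^ i * a + ka + 1) (w' i) (w i)
    (by push_cast; linarith) (by push_cast; linarith) h4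
  have he : w i = w' i := by
    rcases hw i with h | h <;> rcases hw' i with h' | h' <;> omega
  refine ⟨he, ?_⟩
  have ta : tdbl (θ + w i) (2 ^ i * a + ka) = 2 * (2 ^ i * a + ka) - (ma + ka : ℤ) :=
    tdbl_lin (ma + ka) (by push_cast; linarith) (by push_cast; linarith)
  have tb : tdbl (θ + w i) (2 ^ i * b + kb) = 2 * (2 ^ i * b + kb) - (mb + kb : ℤ) := by
    rw [he]; exact tdbl_lin (mb + kb) (by push_cast; linarith) (by push_cast; linarith)
  have tc : tdbl (θ + w i) (2 ^ i * c + kc) = 2 * (2 ^ i * c + kc) - (mc + kc : ℤ) :=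
    tdbl_lin (mc + kc) (by push_cast; linarith) (by push_cast; linarith)
  have td : tdbl (θ + w i) (2 ^ i * d + kd) = 2 * (2 ^ i * d + kd) - (md + kd : ℤ) := by
    rw [he]; exact tdbl_lin (md + kd) (by push_cast; linarith) (by push_cast; linarith)
  have m1 := (tdbl (θ + w i)).monotone h1
  have m2 := (tdbl (θ + w i)).monotone h2
  have m3 := (tdbl (θ + w i)).monotone h3
  have m4 := (tdbl (θ + w i)).monotone h4
  rw [map_add_one] at m4
  rw [ta, tb] at m1
  rw [tb, tc] at m2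
  rw [tc, td] at m3
  rw [td, ta] at m4
  refine ⟨ka - ma, kb - mb, kc - mc, kd - md, ?_, ?_, ?_, ?_⟩ <;> push_cast at * <;>
    simp only [pow_succ] <;> linarith

/-- **unlinking**: (weakly) linked pairs of angles with equal itineraries have the same itinerary -/
theorem linked_pairs {w w' : ℕ → ℤ} (hw : ∀ i, w i = 0 ∨ w i = 1) (hw' : ∀ i, w' i = 0 ∨ w' i = 1)
    {θ a b c d : ℝ} (h1 : a ≤ b) (h2 : b ≤ c) (h3 : c ≤ d) (h4 : d ≤ a + 1)
    (ha : Compat a θ w) (hb : Compat b θ w') (hc : Compat c θ w) (hd : Compat d θ w') :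
    w = w' := by
  have key : ∀ i : ℕ, ∃ ka kb kc kd : ℤ, 2 ^ i * a + ka ≤ 2 ^ i * b + kb ∧
      2 ^ i * b + kb ≤ 2 ^ i * c + kc ∧ 2 ^ i * c + kc ≤ 2 ^ i * d + kd ∧
      2 ^ i * d + kd ≤ 2 ^ i * a + ka + 1 := by
    intro i
    induction i with
    | zero => exact ⟨0, 0, 0, 0, by simpa using ⟨h1, h2, h3, h4⟩⟩
    | succ i ih =>
      obtain ⟨ka, kb, kc, kd, e1, e2, e3, e4⟩ := ih
      exact (linked_pairs_step hw hw' ha hb hc hd e1 e2 e3 e4).2
  funext i
  obtain ⟨ka, kb, kc, kd, e1, e2, e3, e4⟩ := key i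
  exact (linked_pairs_step hw hw' ha hb hc hd e1 e2 e3 e4).1

/-- **two proper powers do not differ in one letter** -/
theorem proper_powers {n N N' : ℕ} {w w' : ℕ → ℤ} (hw : ∀ i, w (i + N) = w i)
    (hw' : ∀ i, w' (i + N') = w' i) (hN : 0 < N) (hN' : 0 < N') (h2 : 2 * N ≤ n) (h2' : 2 * N' ≤ n)
    (h : ∀ i, i + 1 < n → w i = w' i) : w (n - 1) = w' (n - 1) := by
  have e1 : ∀ j, N ≤ j → w j = w (j - N) := fun j hj => by
    have := hw (j - N); rwa [Nat.sub_add_cancel hj] at this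
  have e2 : ∀ j, N' ≤ j → w' j = w' (j - N') := fun j hj => by
    have := hw' (j - N'); rwa [Nat.sub_add_cancel hj] at this
  by_cases hNN : N + N' < n
  · calc w (n - 1) = w (n - 1 - N) := e1 _ (by omega)
      _ = w' (n - 1 - N) := h _ (by omega)
      _ = w' (n - 1 - N - N') := e2 _ (by omega)
      _ = w (n - 1 - N - N') := (h _ (by omega)).symm
      _ = w (n - 1 - N' - N) := by congr 1; omega
      _ = w (n - 1 - N') := (e1 _ (by omega)).symm
      _ = w' (n - 1 - N') := h _ (by omega)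
      _ = w' (n - 1) := (e2 _ (by omega)).symm
  · have h3 : N = N' := by omega
    subst h3
    rw [e1 _ (by omega), e2 _ (by omega)]
    exact h _ (by omega)

/-- exact periods of a word agree -/
theorem word_period_unique {N N' : ℕ} {w : ℕ → ℤ} (hN : 0 < N) (hN' : 0 < N') (h : Word N w)
    (h' : Word N' w) : N = N' := by
  rcases lt_trichotomy N N' with h1 | h1 | h1
  · obtain ⟨i, hi⟩ := h'.2.2 N hN h1
    exact absurd (h.2.1 i) hi
  · exact h1
  · obtain ⟨i, hi⟩ := h.2.2 N' hN' h1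
    exact absurd (h'.2.1 i) hi

namespace CA

variable {N q N' q' : ℕ} {w w' : ℕ → ℤ} {s t s' t' : ℝ}

theorem q_pos (h : CA N q w s t) : 0 < q := by have := h.two; omega

/-- rotation numbers on the arc are not integers -/
theorem nu_ne_int (h : CA N q w s t) {θ : ℝ} (h1 : s ≤ θ) (h2 : θ ≤ t) (k : ℤ) :
    nu w N θ ≠ k := by
  obtain ⟨P, hP, hnu⟩ := h.nu_w
  rw [hnu θ h1 h2]
  intro he
  have hq : (0 : ℝ) < q := by exact_mod_cast h.q_pos
  rw [div_eq_iff hq.ne'] at he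
  have h3 : P = k * (q : ℤ) := by exact_mod_cast he
  have h4 : IsUnit (q : ℤ) := hP.isUnit_of_dvd' ⟨k, by rw [h3]; ring⟩ dvd_rfl
  have h5 := Int.isUnit_iff.1 h4
  have := h.two
  omega

/-- no integer is in the closed arc -/
theorem not_int (h : CA N q w s t) {k : ℤ} (h1 : s ≤ k) (h2 : (k : ℝ) ≤ t) : False := by
  obtain ⟨Q, P, hQ, hQ1, hnu⟩ := weak_gap w N 1 one_pos (θ := k) ⟨k, by ring⟩
  have : Q = 1 := by omega
  subst this
  exact h.nu_ne_int h1 h2 P (by rw [hnu]; simp)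

theorem floor_eq (h : CA N q w s t) {x : ℝ} (h1 : s ≤ x) (h2 : x ≤ t) : ⌊x⌋ = ⌊s⌋ := by
  by_contra hne
  have h3 : ⌊s⌋ ≤ ⌊x⌋ := Int.floor_le_floor h1
  have h4 : s < ⌊x⌋ := by
    have h5 : ⌊s⌋ + 1 ≤ ⌊x⌋ := by omega
    have h6 : ((⌊s⌋ + 1 : ℤ) : ℝ) ≤ ⌊x⌋ := by exact_mod_cast h5
    push_cast at h6
    exact (Int.lt_floor_add_one s).trans_le h6
  exact h.not_int h4.le ((Int.floor_le x).trans h2)

/-- `t` is compatible, too -/
theorem compat_t (h : CA N q w s t) {θ : ℝ} (h1 : s < θ) (h2 : θ < t) : Compat t θ w := by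
  have := compat_of_mem h.word.2.1 (h.compat θ h1 h2) h.mem
  simpa using this

/-- the period of `s` -/
theorem period_dvd (h : CA N q w s t) {n : ℕ} (hn : ∃ a : ℤ, 2 ^ n * s - s = a) : N * q ∣ n := by
  obtain ⟨a, ha⟩ := hn
  exact h.dvd_of_per (x := s) ⟨0, 0, by simp⟩ (m := a) (by linarith)

theorem period_dvd_t (h : CA N q w s t) {n : ℕ} (hn : ∃ a : ℤ, 2 ^ n * t - t = a) : N * q ∣ n := by
  obtain ⟨a, ha⟩ := hn
  exact h.dvd_of_per (x := t) h.mem (m := a) (by linarith)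

/-- two arcs with the same word and a common angle are equal -/
theorem eq_of_word (h : CA N q w s t) (h' : CA N' q' w s' t') {θ : ℝ} (h1 : s ≤ θ) (h2 : θ ≤ t)
    (h3 : s' ≤ θ) (h4 : θ ≤ t') : N = N' ∧ q = q' ∧ s = s' ∧ t = t' := by
  obtain rfl := word_period_unique h.pos h'.pos h.word h'.word
  obtain ⟨P, hP, hnu⟩ := h.nu_w
  obtain ⟨P', hP', hnu'⟩ := h'.nu_w
  have hq : (0 : ℝ) < q := by exact_mod_cast h.q_pos
  have hq' : (0 : ℝ) < q' := by exact_mod_cast h'.q_pos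
  have he : (P : ℝ) / q = P' / q' := by rw [← hnu θ h1 h2, ← hnu' θ h3 h4]
  have hqq : q = q' := by
    rw [div_eq_div_iff hq.ne' hq'.ne'] at he
    have he' : P * (q' : ℤ) = P' * (q : ℤ) := by exact_mod_cast he
    have d1 : (q : ℤ) ∣ q' := by
      have : (q : ℤ) ∣ P * (q' : ℤ) := ⟨P', by rw [he']; ring⟩
      exact hP.symm.dvd_of_dvd_mul_left this
    have d2 : (q' : ℤ) ∣ q := by
      have : (q' : ℤ) ∣ P' * (q : ℤ) := ⟨P, by rw [← he']; ring⟩
      exact hP'.symm.dvd_of_dvd_mul_left this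
    exact Nat.dvd_antisymm (by exact_mod_cast d1) (by exact_mod_cast d2)
  subst hqq
  have hPP : (P : ℝ) / q = P' / q := he
  have p1 := h.plateau hP hnu
  have p2 := h'.plateau hP' hnu'
  have hset : ∀ θ, (s ≤ θ ∧ θ ≤ t) ↔ (s' ≤ θ ∧ θ ≤ t') := fun θ => by
    rw [← p1 θ, ← p2 θ, hPP]
  have hst := h.lt
  have hst' := h'.lt
  have a1 := ((hset s).1 ⟨le_rfl, hst.le⟩)
  have a2 := ((hset t).1 ⟨hst.le, le_rfl⟩)
  have a3 := ((hset s').2 ⟨le_rfl, hst'.le⟩)
  have a4 := ((hset t').2 ⟨hst'.le, le_rfl⟩)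
  exact ⟨rfl, rfl, le_antisymm a3.1 a1.1, le_antisymm a2.2 a4.2⟩

/-- **characteristic arcs are not adjacent** -/
theorem not_adjacent (h : CA N q w s t) (h' : CA N' q' w' s' t') (he : s = t') : False := by
  have hn : N * q = N' * q' := by
    apply Nat.dvd_antisymm
    · refine h.period_dvd ?_
      rw [he]; exact h'.per_t
    · refine h'.period_dvd_t ?_
      rw [← he]; exact h.per_s
  have hst := h.lt
  have hst' := h'.lt
  have hb := h.word.1
  have hb' := h'.word.1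
  have hpos := h.npos
  have h2 := h.two
  have h2' := h'.two
  -- equal letters
  have heq : ∀ i, i + 1 < N * q → w i = w' i := by
    intro i hi
    obtain ⟨k, k1, k2, k3, -⟩ := h.s_pos i
    obtain ⟨k', l1, l2, l3, -⟩ := h'.t_pos i
    have hmod : (i + 1) % (N * q) ≠ 0 := by rw [Nat.mod_eq_of_lt hi]; omega
    have k3' := lt_of_le_of_ne k2 (k3 hmod)
    have l3' := lt_of_le_of_ne l1 (Ne.symm (l3 (by rw [← hn]; exact hmod)))
    rw [← he] at l1 l2 l3'
    have e1 : ((w' i - w i + 2 * k' - 2 * k : ℤ) : ℝ) < 1 := by push_cast; linarith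
    have e2 : (-1 : ℝ) < ((w' i - w i + 2 * k' - 2 * k : ℤ) : ℝ) := by push_cast; linarith
    have e3 : w' i - w i + 2 * k' - 2 * k < 1 := by exact_mod_cast e1
    have e4 : -1 < w' i - w i + 2 * k' - 2 * k := by exact_mod_cast e2
    rcases hb i with h | h <;> rcases hb' i with h' | h' <;> omega
  -- the last letters are different
  have hne : w (N * q - 1) ≠ w' (N * q - 1) := by
    obtain ⟨k, -, -, -, k4⟩ := h.s_pos (N * q - 1)
    obtain ⟨k', -, -, -, l4⟩ := h'.t_pos (N * q - 1)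
    have e1 := k4 (by rw [Nat.sub_add_cancel hpos, Nat.mod_self])
    have e2 := l4 (by rw [Nat.sub_add_cancel hpos, ← hn, Nat.mod_self])
    rw [← he] at e2
    intro heq
    rw [← heq] at e2
    have e3 : ((2 * (k' - k) : ℤ) : ℝ) = ((1 : ℤ) : ℝ) := by push_cast; linarith
    have e4 : 2 * (k' - k) = 1 := by exact_mod_cast e3
    omega
  exact hne (proper_powers h.word.2.1 h'.word.2.1 h.pos h'.pos
    (by rw [mul_comm]; exact Nat.mul_le_mul_left N h2)
    (by rw [hn, mul_comm]; exact Nat.mul_le_mul_left N' h2') heq)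

/-- **arcs do not cross** -/
theorem cross (h : CA N q w s t) (h' : CA N' q' w' s' t') (h1 : s' ≤ s) (h2 : s ≤ t') : t ≤ t' := by
  by_contra hcon
  push Not at hcon
  rcases h2.eq_or_lt with h2 | h2
  · exact h.not_adjacent h' h2
  have hst := h.lt
  obtain ⟨θ, h3, h4⟩ := exists_between h2
  have h5 : t ≤ s' + 1 := by
    have e1 := h.floor_eq hst.le le_rfl
    have e2 := h'.floor_eq h1 h2.le
    have e3 := Int.lt_floor_add_one t
    have e4 := Int.floor_le s'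
    rw [e1, e2] at e3
    linarith
  have hww := linked_pairs h'.word.1 h.word.1 h1 h2.le hcon.le h5
    (h'.compat θ (h1.trans_lt h3) h4) (h.compat θ h3 (h4.trans hcon))
    (h'.compat_t (h1.trans_lt h3) h4) (h.compat_t h3 (h4.trans hcon))
  subst hww
  obtain ⟨-, -, -, h6⟩ := h.eq_of_word h' h3.le (h4.trans hcon).le (h1.trans h3.le) h4.le
  exact hcon.ne' h6

/-- **arcs do not cross**, mirror image -/
theorem cross' (h : CA N q w s t) (h' : CA N' q' w' s' t') (h1 : s' ≤ t) (h2 : t ≤ t') : s' ≤ s := by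
  by_contra hcon
  push Not at hcon
  rcases h1.eq_or_lt with h1 | h1
  · exact h'.not_adjacent h h1
  obtain ⟨θ, h3, h4⟩ := exists_between h1
  have hst' := h'.lt
  have h5 : t' ≤ s + 1 := by
    have e1 := h.floor_eq hcon.le h1.le
    have e2 := h'.floor_eq hst'.le le_rfl
    have e3 := Int.lt_floor_add_one t'
    have e4 := Int.floor_le s
    rw [e2, e1] at e3
    linarith
  have hww := linked_pairs h.word.1 h'.word.1 hcon.le h1.le h2 h5
    (h.compat θ (hcon.trans h3) h4) (h'.compat θ h3 (h4.trans_le h2))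
    (h.compat_t (hcon.trans h3) h4) (h'.compat_t h3 (h4.trans_le h2))
  subst hww
  obtain ⟨-, -, h6, -⟩ := h.eq_of_word h' (hcon.trans h3).le h4.le h3.le (h4.trans_le h2).le
  exact hcon.ne h6

/-- equal arcs have equal words -/
theorem word_eq_of_eq (h : CA N q w s t) (h' : CA N' q' w' s t) : w = w' := by
  obtain ⟨θ, h3, h4⟩ := exists_between h.lt
  exact linked_pairs h.word.1 h'.word.1 le_rfl le_rfl le_rfl (by linarith)
    (h.compat θ h3 h4) (h'.compat θ h3 h4) (h.compat θ h3 h4) (h'.compat θ h3 h4)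

end CA

/-- a rational number which is not an integer, in lowest terms -/
theorem lowest_terms {x : ℝ} {P : ℤ} {Q : ℕ} {κ : ℤ} (hx : x = P / Q) (h1 : κ < x)
    (h2 : x < κ + 1) : ∃ (P' : ℤ) (q : ℕ), 2 ≤ q ∧ IsCoprime P' (q : ℤ) ∧ x = P' / q := by
  set r : ℚ := (P : ℚ) / Q with hr
  have hxr : x = (r : ℝ) := by rw [hx, hr]; push_cast; ring
  have hx2 : x = (r.num : ℝ) / (r.den : ℝ) := by
    rw [hxr]; exact_mod_cast (Rat.num_div_den r).symm
  have hd : 0 < r.den := r.den_pos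
  refine ⟨r.num, r.den, ?_, ?_, hx2⟩
  · by_contra hcon
    have h3 : r.den = 1 := by omega
    rw [h3] at hx2
    simp only [Nat.cast_one, div_one] at hx2
    rw [hx2] at h1 h2
    have h4 : κ < r.num := by exact_mod_cast h1
    have h5 : r.num < κ + 1 := by exact_mod_cast h2
    omega
  · exact Int.isCoprime_iff_gcd_eq_one.2 r.reduced

/-- the arc (limb) of a component through a periodic angle inside its label interval -/
theorem exists_arc_at {N : ℕ} (hN : 0 < N) {w : ℕ → ℤ} (hw : Word N w) {κ : ℤ} {θ : ℝ} {P : ℤ}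
    {Q : ℕ} (hθ : nu w N θ = P / Q) (h1 : κ < nu w N θ) (h2 : nu w N θ < κ + 1) :
    ∃ i₀ < N, ∃ (s t : ℝ) (P : ℤ) (q : ℕ), CA N q (fun j => w (i₀ + j)) s t ∧
      IsCoprime P (q : ℤ) ∧ nu w N θ = P / q ∧ ∀ θ', nu w N θ' = P / q ↔ s ≤ θ' ∧ θ' ≤ t := by
  obtain ⟨P', q, hq, hcop, he⟩ := lowest_terms hθ h1 h2
  obtain ⟨i₀, hi₀, s, t, hCA, hpl⟩ := exists_arc hN hq hw hcop
  refine ⟨i₀, hi₀, s, t, P', q, hCA, hcop, he, fun θ' => ?_⟩
  rw [← hpl θ', nu_shift_word w N hw.2.1]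

theorem nu_at_periodic {N : ℕ} (w : ℕ → ℤ) {θ : ℝ} {n : ℕ} (hn : 0 < n)
    (h : ∃ a : ℤ, 2 ^ n * θ - θ = a) : ∃ (P : ℤ) (Q : ℕ), nu w N θ = P / Q := by
  obtain ⟨Q, P, -, -, h3⟩ := weak_gap w N n hn h
  exact ⟨P, Q, h3⟩

/-- the same word up to a shift -/
def SameWord (N N' : ℕ) (w w' : ℕ → ℤ) : Prop := N = N' ∧ ∃ i < N, ∀ j, w' j = w (i + j)

theorem SameWord.symm {N N' : ℕ} {w w' : ℕ → ℤ} (hN : 0 < N) (hw : ∀ i, w (i + N) = w i)
    (h : SameWord N N' w w') : SameWord N' N w' w := by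
  obtain ⟨rfl, i, hi, h⟩ := h
  rcases Nat.eq_zero_or_pos i with h0 | h0
  · subst h0
    exact ⟨rfl, 0, hN, fun j => by rw [h, Nat.zero_add, Nat.zero_add]⟩
  · refine ⟨rfl, N - i, by omega, fun j => ?_⟩
    rw [h, show i + (N - i + j) = j + N by omega, hw]

theorem sameWord_of_shift {N N' : ℕ} {w w' : ℕ → ℤ} {i i' : ℕ} (hN : 0 < N) (hN' : 0 < N')
    (hi' : i' < N') (hw : Word N w) (hw' : Word N' w')
    (h : (fun j => w (i + j)) = fun j => w' (i' + j)) : SameWord N N' w w' := by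
  have e : ∀ j, w (i + j) = w' (i' + j) := fun j => congrFun h j
  -- periods agree
  have hNN : N = N' := by
    have h1 : Word N (fun j => w (i + j)) := by
      refine ⟨fun j => hw.1 _, fun j => ?_, fun d hd hdN => ?_⟩
      · show w (i + (j + N)) = w (i + j)
        rw [← add_assoc, hw.2.1]
      · by_contra hcon
        push Not at hcon
        obtain ⟨l, hl⟩ := hw.2.2 d hd hdN
        apply hl
        have h2 := hcon (l + N * i - i)
        have h3 : i ≤ N * i := Nat.le_mul_of_pos_left i hN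
        have e1 : i + (l + N * i - i + d) = (l + d) + N * i := by omega
        have e2 : i + (l + N * i - i) = l + N * i := by omega
        rw [e1, e2, word_mod hw.2.1, word_mod hw.2.1] at h2
        exact h2
    have h1' : Word N' (fun j => w' (i' + j)) := by
      refine ⟨fun j => hw'.1 _, fun j => ?_, fun d hd hdN => ?_⟩
      · show w' (i' + (j + N')) = w' (i' + j)
        rw [← add_assoc, hw'.2.1]
      · by_contra hcon
        push Not at hcon
        obtain ⟨l, hl⟩ := hw'.2.2 d hd hdN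
        apply hl
        have h2 := hcon (l + N' * i' - i')
        have h3 : i' ≤ N' * i' := Nat.le_mul_of_pos_left i' hN'
        have e1 : i' + (l + N' * i' - i' + d) = (l + d) + N' * i' := by omega
        have e2 : i' + (l + N' * i' - i') = l + N' * i' := by omega
        rw [e1, e2, word_mod hw'.2.1, word_mod hw'.2.1] at h2
        exact h2
    rw [h] at h1
    exact word_period_unique hN hN' h1 h1'
  subst hNN
  refine ⟨rfl, (i + (N - i')) % N, Nat.mod_lt _ hN, fun j => ?_⟩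
  have h2 := e (N - i' + j)
  rw [show i' + (N - i' + j) = j + N by omega, hw'.2.1] at h2
  rw [← h2]
  have h3 := word_mod hw.2.1 ((i + (N - i')) % N + j) ((i + (N - i')) / N)
  have h4 := Nat.mod_add_div (i + (N - i')) N
  rw [← h3]
  congr 1
  omega

theorem SameWord.nu_eq {N N' : ℕ} {w w' : ℕ → ℤ} (hw : ∀ i, w (i + N) = w i)
    (h : SameWord N N' w w') (θ : ℝ) : nu w' N' θ = nu w N θ := by
  obtain ⟨rfl, i, -, h⟩ := h
  have e : w' = fun j => w (i + j) := funext h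
  rw [e, nu_shift_word w N hw]

/-- the key step of `nest`: the left end of the intersection belongs to the interval of `w` -/
theorem nest_aux {N N' : ℕ} (hN : 0 < N) (hN' : 0 < N') {w w' : ℕ → ℤ} (hw : Word N w)
    (hw' : Word N' w') {κ κ' : ℤ} {a θ₀ : ℝ} (ha : nu w N a = κ)
    (h1 : κ < nu w N θ₀) (h2 : nu w N θ₀ < κ + 1)
    (h3 : ∀ θ, a < θ → θ ≤ θ₀ → κ' < nu w' N' θ) (h4 : nu w' N' θ₀ < κ' + 1) :
    SameWord N N' w w' ∨ ∃ (P : ℤ) (q : ℕ), 2 ≤ q ∧ IsCoprime P (q : ℤ) ∧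
      (κ' : ℝ) < P / q ∧ (P : ℝ) / q < κ' + 1 ∧
      ∀ θ, κ < nu w N θ → nu w N θ < κ + 1 → nu w' N' θ = P / q := by
  obtain ⟨r, hr1, hr2⟩ := exists_rat_btwn h1
  have hrr : (r : ℝ) = (r.num : ℝ) / (r.den : ℝ) := by exact_mod_cast (Rat.num_div_den r).symm
  -- the limb of this value
  obtain ⟨P, q, hq, hcop, he⟩ := lowest_terms hrr hr1 (hr2.trans h2)
  rw [he] at hr1 hr2
  obtain ⟨i₀, hi₀, s, t, hCA, hpl⟩ := exists_arc hN hq hw hcop
  have hpl' : ∀ θ', nu w N θ' = P / q ↔ s ≤ θ' ∧ θ' ≤ t := fun θ' => by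
    rw [← hpl θ', nu_shift_word w N hw.2.1]
  have hst := hCA.lt
  have hs : nu w N s = P / q := (hpl' s).2 ⟨le_rfl, hst.le⟩
  have ht : nu w N t = P / q := (hpl' t).2 ⟨hst.le, le_rfl⟩
  have has : a < s := by
    by_contra hcon
    have := nu_mono w N (not_lt.1 hcon)
    rw [ha, hs] at this
    linarith
  have htθ : t < θ₀ := by
    by_contra hcon
    have := nu_mono w N (not_lt.1 hcon)
    rw [ht] at this
    linarith
  -- the limb of `w'` which contains `s`
  obtain ⟨P₁, Q₁, hw's⟩ := nu_at_periodic (N := N') w' hCA.npos hCA.per_s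
  have hs1 : κ' < nu w' N' s := h3 s has (hst.trans htθ).le
  have hs2 : nu w' N' s < κ' + 1 := (nu_mono w' N' (hst.trans htθ).le).trans_lt h4
  obtain ⟨i₁, hi₁, s', t', P', q', hCA', hcop', hs', hpl''⟩ := exists_arc_at hN' hw' hw's hs1 hs2
  have hss : s' ≤ s ∧ s ≤ t' := (hpl'' s).1 hs'
  have htt := hCA.cross hCA' hss.1 hss.2
  by_cases hend : (κ < nu w N s' ∧ nu w N s' < κ + 1) ∨ (κ < nu w N t' ∧ nu w N t' < κ + 1)
  · -- the arcs agree
    left
    have key : s = s' ∧ t = t' := by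
      rcases hend with ⟨g1, g2⟩ | ⟨g1, g2⟩
      · obtain ⟨P₂, Q₂, hws⟩ := nu_at_periodic (N := N) w hCA'.npos hCA'.per_s
        obtain ⟨i₂, hi₂, s₂, t₂, P₂', q₂, hCA₂, hcop₂, hs₂, hpl₂⟩ := exists_arc_at hN hw hws g1 g2
        have hss₂ := (hpl₂ s').1 hs₂
        have htt₂ := hCA'.cross hCA₂ hss₂.1 hss₂.2
        have hval : nu w N s = P₂' / q₂ := (hpl₂ s).2 ⟨hss₂.1.trans hss.1,
          (hst.le.trans htt).trans htt₂⟩
        rw [hs] at hval
        have e1 := (hpl' s₂).1 (by rw [hval]; exact (hpl₂ s₂).2 ⟨le_rfl, hCA₂.lt.le⟩)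
        have e2 := (hpl' t₂).1 (by rw [hval]; exact (hpl₂ t₂).2 ⟨hCA₂.lt.le, le_rfl⟩)
        exact ⟨le_antisymm (e1.1.trans hss₂.1) hss.1, le_antisymm htt (htt₂.trans e2.2)⟩
      · obtain ⟨P₂, Q₂, hws⟩ := nu_at_periodic (N := N) w hCA'.npos hCA'.per_t
        obtain ⟨i₂, hi₂, s₂, t₂, P₂', q₂, hCA₂, hcop₂, hs₂, hpl₂⟩ := exists_arc_at hN hw hws g1 g2
        have hss₂ := (hpl₂ t').1 hs₂
        have htt₂ := hCA'.cross' hCA₂ hss₂.1 hss₂.2
        have hval : nu w N s = P₂' / q₂ := (hpl₂ s).2 ⟨htt₂.trans hss.1,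
          (hst.le.trans htt).trans hss₂.2⟩
        rw [hs] at hval
        have e1 := (hpl' s₂).1 (by rw [hval]; exact (hpl₂ s₂).2 ⟨le_rfl, hCA₂.lt.le⟩)
        have e2 := (hpl' t₂).1 (by rw [hval]; exact (hpl₂ t₂).2 ⟨hCA₂.lt.le, le_rfl⟩)
        exact ⟨le_antisymm (e1.1.trans htt₂) hss.1, le_antisymm htt (hss₂.2.trans e2.2)⟩
    obtain ⟨rfl, rfl⟩ := key
    exact sameWord_of_shift hN hN' hi₁ hw hw' (hCA.word_eq_of_eq hCA')
  · right
    push Not at hend
    obtain ⟨g1, g2⟩ := hend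
    have hsA1 : κ < nu w N s := by rw [hs]; exact hr1
    have hsA2 : nu w N s < κ + 1 := by rw [hs]; exact hr2.trans h2
    have htA1 : κ < nu w N t := by rw [ht]; exact hr1
    have htA2 : nu w N t < κ + 1 := by rw [ht]; exact hr2.trans h2
    rw [hs'] at hs1 hs2
    refine ⟨P', q', hCA'.two, hcop', hs1, hs2, fun θ hθ1 hθ2 => (hpl'' θ).2 ⟨?_, ?_⟩⟩
    · by_contra hcon
      push Not at hcon
      have e1 : κ < nu w N s' := hθ1.trans_le (nu_mono w N hcon.le)
      have e2 : nu w N s' < κ + 1 := (nu_mono w N hss.1).trans_lt hsA2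
      exact absurd e2 (not_lt.2 (g1 e1))
    · by_contra hcon
      push Not at hcon
      have e1 : κ < nu w N t' := htA1.trans_le (nu_mono w N htt)
      have e2 : nu w N t' < κ + 1 := (nu_mono w N hcon.le).trans_lt hθ2
      exact absurd e2 (not_lt.2 (g2 e1))

/-- the left end of a label interval -/
theorem exists_left_end (w : ℕ → ℤ) {N : ℕ} (hN : 0 < N) {κ : ℤ} {θ₀ : ℝ} (h : κ < nu w N θ₀) :
    ∃ a < θ₀, nu w N a = κ ∧ ∀ θ, a < θ → κ < nu w N θ := by
  obtain ⟨m, hm⟩ : ∃ m : ℕ, nu w N θ₀ - m * N ≤ κ := by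
    obtain ⟨m, hm⟩ := exists_nat_gt (nu w N θ₀ - κ)
    refine ⟨m, ?_⟩
    have h1 : (1 : ℝ) ≤ N := by exact_mod_cast hN
    nlinarith [(Nat.cast_nonneg m : (0 : ℝ) ≤ m)]
  have hlow : ∀ m : ℕ, nu w N (θ₀ - 2 * m) = nu w N θ₀ - m * N := by
    intro m
    induction m with
    | zero => simp
    | succ m ih =>
      have h1 := nu_add_two w (θ₀ - 2 * ((m + 1 : ℕ) : ℝ)) N
      rw [show θ₀ - 2 * ((m + 1 : ℕ) : ℝ) + 2 = θ₀ - 2 * m by push_cast; ring, ih] at h1
      push_cast at h1 ⊢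
      linarith
  set S : Set ℝ := {θ | nu w N θ ≤ κ} with hS
  have hne : S.Nonempty := ⟨θ₀ - 2 * m, by rw [hS]; show nu w N (θ₀ - 2 * m) ≤ κ; rw [hlow]; exact hm⟩
  have hbd : BddAbove S := ⟨θ₀, fun θ hθ => by
    by_contra hcon
    exact absurd (h.trans_le (nu_mono w N (not_le.1 hcon).le)) (not_lt.2 hθ)⟩
  have hcl : IsClosed S := isClosed_le (nu_continuous w N) continuous_const
  have hmem : sSup S ∈ S := hcl.csSup_mem hne hbd
  have hgt : ∀ θ, sSup S < θ → κ < nu w N θ := fun θ hθ => by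
    by_contra hcon
    exact absurd (le_csSup hbd (not_lt.1 hcon : θ ∈ S)) (not_le.2 hθ)
  have hval : nu w N (sSup S) = κ := by
    refine le_antisymm hmem ?_
    have h1 : Tendsto (nu w N) (𝓝[>] sSup S) (𝓝 (nu w N (sSup S))) :=
      (nu_continuous w N).continuousAt.tendsto.mono_left nhdsWithin_le_nhds
    exact ge_of_tendsto h1 (eventually_nhdsWithin_of_forall fun θ hθ => (hgt θ hθ).le)
  refine ⟨sSup S, ?_, hval, hgt⟩
  by_contra hcon
  have := nu_mono w N (not_lt.1 hcon)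
  rw [hval] at this
  linarith

/-- **nesting**: the label intervals of two different components are disjoint, or one of them lies
in a limb of the other -/
theorem nest {N N' : ℕ} (hN : 0 < N) (hN' : 0 < N') {w w' : ℕ → ℤ} (hw : Word N w)
    (hw' : Word N' w') {κ κ' : ℤ} {θ₀ : ℝ} (h1 : κ < nu w N θ₀) (h2 : nu w N θ₀ < κ + 1)
    (h3 : κ' < nu w' N' θ₀) (h4 : nu w' N' θ₀ < κ' + 1) :
    (SameWord N N' w w' ∧ κ = κ') ∨
    (∃ (P : ℤ) (q : ℕ), 2 ≤ q ∧ IsCoprime P (q : ℤ) ∧ (κ' : ℝ) < P / q ∧ (P : ℝ) / q < κ' + 1 ∧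
      ∀ θ, κ < nu w N θ → nu w N θ < κ + 1 → nu w' N' θ = P / q) ∨
    (∃ (P : ℤ) (q : ℕ), 2 ≤ q ∧ IsCoprime P (q : ℤ) ∧ (κ : ℝ) < P / q ∧ (P : ℝ) / q < κ + 1 ∧
      ∀ θ, κ' < nu w' N' θ → nu w' N' θ < κ' + 1 → nu w N θ = P / q) := by
  obtain ⟨a, haθ, ha, hgt⟩ := exists_left_end w hN h1
  obtain ⟨a', haθ', ha', hgt'⟩ := exists_left_end w' hN' h3
  have hκ : SameWord N N' w w' → κ = κ' := fun hS => by
    have := hS.nu_eq hw.2.1 θ₀
    rw [this] at h3 h4
    have e1 : (κ : ℝ) < κ' + 1 := h1.trans h4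
    have e2 : (κ' : ℝ) < κ + 1 := h3.trans h2
    have e3 : κ < κ' + 1 := by exact_mod_cast e1
    have e4 : κ' < κ + 1 := by exact_mod_cast e2
    omega
  rcases le_total a' a with hle | hle
  · rcases nest_aux hN hN' hw hw' ha h1 h2 (fun θ h5 _ => hgt' θ (hle.trans_lt h5)) h4 with h | h
    · exact Or.inl ⟨h, hκ h⟩
    · exact Or.inr (Or.inl h)
  · rcases nest_aux hN' hN hw' hw ha' h3 h4 (fun θ h5 _ => hgt θ (hle.trans_lt h5)) h2 with h | h
    · exact Or.inl ⟨h.symm hN' hw'.2.1, hκ (h.symm hN' hw'.2.1)⟩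
    · exact Or.inr (Or.inr h)

/-- **LEMMA CROSS**: if the label interval of `(w', κ')` meets the limb `P / q` of another component
`(w, κ)`, then it lies in this limb, or the rotation number of `w'` is constant on the whole
interval of `(w, κ)` (in particular on the limb) -/
theorem limb_cross {N N' : ℕ} (hN : 0 < N) (hN' : 0 < N') {w w' : ℕ → ℤ} (hw : Word N w)
    (hw' : Word N' w') {κ κ' : ℤ} {θ₀ : ℝ} {x : ℝ} (hx : nu w N θ₀ = x) (h1 : κ < x)
    (h2 : x < κ + 1) (h3 : κ' < nu w' N' θ₀) (h4 : nu w' N' θ₀ < κ' + 1)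
    (hne : ¬ (SameWord N N' w w' ∧ κ = κ')) :
    (∀ θ, κ' < nu w' N' θ → nu w' N' θ < κ' + 1 → nu w N θ = x) ∨
    (∃ (P : ℤ) (q : ℕ), 2 ≤ q ∧ IsCoprime P (q : ℤ) ∧ (κ' : ℝ) < P / q ∧ (P : ℝ) / q < κ' + 1 ∧
      ∀ θ, κ < nu w N θ → nu w N θ < κ + 1 → nu w' N' θ = P / q) := by
  rcases nest hN hN' hw hw' (by rw [hx]; exact h1) (by rw [hx]; exact h2) h3 h4 with h | h | h
  · exact absurd h hne
  · exact Or.inr h
  · obtain ⟨P, q, -, -, -, -, h⟩ := h
    left
    intro θ h5 h6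
    rw [h θ h5 h6, ← h θ₀ h3 h4, hx]

end Pool.Agent.Work.MLC
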