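import Mathlib

/-!
# Local normal form and the degree of proper holomorphic maps
-/

set_option autoImplicit false

open Set Topology Filter Metric

namespace MLC34

/-- The multiplicity of `f` at `z` (order of `f - f z` at `z`). -/
noncomputable def mult (f : ℂ → ℂ) (z : ℂ) : ℕ := analyticOrderNatAt (fun u => f u - f z) z

theorem mult_pos {f : ℂ → ℂ} {z : ℂ} (hf : AnalyticAt ℂ f z)
    (hnc : ¬ ∀ᶠ u in 𝓝 z, f u = f z) : 0 < mult f z := by
  have h1 : AnalyticAt ℂ (fun u => f u - f z) z := hf.sub analyticAt_const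
  have h2 : analyticOrderAt (fun u => f u - f z) z ≠ ⊤ := by
    rw [Ne, analyticOrderAt_eq_top]
    intro h
    exact hnc (h.mono fun u hu => sub_eq_zero.1 hu)
  have h3 : analyticOrderAt (fun u => f u - f z) z ≠ 0 := by
    rw [h1.analyticOrderAt_ne_zero]; simp
  rw [mult, Nat.pos_iff_ne_zero]
  intro h0
  apply h3
  rw [← Nat.cast_analyticOrderNatAt h2, h0]; simp

theorem mult_eq_one {f : ℂ → ℂ} {z : ℂ} (hf : AnalyticAt ℂ f z) (hd : deriv f z ≠ 0) :
    mult f z = 1 := by
  have h := hf.analyticOrderAt_sub_eq_one_of_deriv_ne_zero hd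
  rw [mult, analyticOrderNatAt, h]
  rfl

/-- multiplicity one forces a nonzero derivative -/
theorem deriv_ne_zero_of_mult {f : ℂ → ℂ} {z : ℂ} (hf : AnalyticAt ℂ f z) (h : mult f z = 1) :
    deriv f z ≠ 0 := by
  intro hd
  have h1 : AnalyticAt ℂ (fun u => f u - f z) z := hf.sub analyticAt_const
  have h2 : analyticOrderAt (fun u => f u - f z) z ≠ ⊤ := by
    intro h'
    rw [mult, analyticOrderNatAt, h'] at h
    simp at h
  have h3 : analyticOrderAt (fun u => f u - f z) z = 1 := by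
    rw [← Nat.cast_analyticOrderNatAt h2]
    rw [mult] at h
    rw [h]; rfl
  have h4 := (h1.analyticOrderAt_eq_natCast (n := 1)).1 (by rw [h3]; rfl)
  obtain ⟨g, hg, hg0, hge⟩ := h4
  have h5 : HasDerivAt (fun u => (u - z) ^ 1 • g u) (g z) z := by
    have h6 : HasDerivAt (fun u : ℂ => (u - z) * g u) (1 * g z + (z - z) * deriv g z) z :=
      ((hasDerivAt_id z).sub_const z).mul hg.differentiableAt.hasDerivAt
    simpa using h6
  have h7 : HasDerivAt (fun u => f u - f z) (g z) z :=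
    h5.congr_of_eventuallyEq (hge.mono fun u hu => hu)
  have h8 : HasDerivAt (fun u => f u - f z) (deriv f z) z :=
    hf.differentiableAt.hasDerivAt.sub_const _
  exact hg0 (h7.unique h8 |>.trans hd)

/-- Local normal form: near `z`, `f = f z + φ ^ m` with `φ` a local coordinate. -/
theorem exists_normal_form {f : ℂ → ℂ} {z : ℂ} (hf : AnalyticAt ℂ f z)
    (hnc : ¬ ∀ᶠ u in 𝓝 z, f u = f z) :
    ∃ φ : ℂ → ℂ, AnalyticAt ℂ φ z ∧ φ z = 0 ∧ deriv φ z ≠ 0 ∧
      ∀ᶠ u in 𝓝 z, f u = f z + φ u ^ mult f z := by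
  have h1 : AnalyticAt ℂ (fun u => f u - f z) z := hf.sub analyticAt_const
  have h2 : analyticOrderAt (fun u => f u - f z) z ≠ ⊤ := by
    rw [Ne, analyticOrderAt_eq_top]
    intro h
    exact hnc (h.mono fun u hu => sub_eq_zero.1 hu)
  set m := mult f z with hm
  have hm0 : 0 < m := mult_pos hf hnc
  obtain ⟨g, hg, hg0, hge⟩ := (h1.analyticOrderAt_eq_natCast (n := m)).1
    (by rw [hm, mult, Nat.cast_analyticOrderNatAt h2])
  obtain ⟨c0, hc0⟩ := IsAlgClosed.exists_pow_nat_eq (g z) hm0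
  set h : ℂ → ℂ := fun u => c0 * Complex.exp (Complex.log (g u / g z) / m) with hh
  have hlog : AnalyticAt ℂ (fun u => Complex.log (g u / g z)) z := by
    refine AnalyticAt.clog (hg.div analyticAt_const hg0) ?_
    rw [div_self hg0]; exact Complex.one_mem_slitPlane
  have hhan : AnalyticAt ℂ h z :=
    analyticAt_const.mul (hlog.div analyticAt_const (by exact_mod_cast hm0.ne')).cexp
  have hhz : h z = c0 := by simp [hh, div_self hg0]
  have hc0ne : c0 ≠ 0 := by
    rintro rfl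
    rw [zero_pow hm0.ne'] at hc0
    exact hg0 hc0.symm
  refine ⟨fun u => (u - z) * h u, (analyticAt_id.sub analyticAt_const).mul hhan, by simp, ?_, ?_⟩
  · have h6 : HasDerivAt (fun u : ℂ => (u - z) * h u) (1 * h z + (z - z) * deriv h z) z :=
      ((hasDerivAt_id z).sub_const z).mul hhan.differentiableAt.hasDerivAt
    rw [h6.deriv, hhz]; simpa using hc0ne
  · have hgne : ∀ᶠ u in 𝓝 z, g u ≠ 0 := hg.continuousAt.eventually_ne hg0
    filter_upwards [hge, hgne] with u hu hgu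
    have h7 : h u ^ m = g u := by
      rw [hh]
      simp only
      rw [mul_pow, hc0, ← Complex.exp_nat_mul]
      have : (m : ℂ) * (Complex.log (g u / g z) / m) = Complex.log (g u / g z) := by
        rw [mul_div_assoc']
        exact mul_div_cancel_left₀ _ (by exact_mod_cast hm0.ne')
      rw [this, Complex.exp_log (div_ne_zero hgu hg0)]
      field_simp
    rw [mul_pow, h7, ← smul_eq_mul ((u - z) ^ m), ← hu]
    ring

/-- For `w ≠ 0` the equation `ζ ^ m = w` has exactly `m` solutions. -/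
theorem exists_roots {m : ℕ} (hm : 0 < m) {w : ℂ} (hw : w ≠ 0) :
    ∃ S : Finset ℂ, S.card = m ∧ ∀ ζ : ℂ, ζ ∈ S ↔ ζ ^ m = w := by
  have : NeZero m := ⟨hm.ne'⟩
  have hp : IsPrimitiveRoot (Complex.exp (2 * Real.pi * Complex.I / m)) m :=
    Complex.isPrimitiveRoot_exp m hm.ne'
  have hnd := hp.nthRoots_nodup (a := w) hw
  refine ⟨⟨Polynomial.nthRoots m w, hnd⟩, ?_, fun ζ => ?_⟩
  · rw [Finset.card_mk, hp.card_nthRoots, if_pos (IsAlgClosed.exists_pow_nat_eq w hm)]
  · rw [Finset.mem_mk, Polynomial.mem_nthRoots hm]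

/-- Local count: near a point of multiplicity `m` every value close to `f z` is taken exactly
`m` times. -/
theorem local_count {f : ℂ → ℂ} {z : ℂ} (hf : AnalyticAt ℂ f z)
    (hnc : ¬ ∀ᶠ u in 𝓝 z, f u = f z) {N : Set ℂ} (hN : N ∈ 𝓝 z) :
    ∃ U : Set ℂ, IsOpen U ∧ z ∈ U ∧ U ⊆ N ∧ ∃ W ∈ 𝓝 (f z), ∀ w ∈ W,
      ∃ S : Finset ℂ, (∀ u, u ∈ S ↔ u ∈ U ∧ f u = w) ∧ ∑ u ∈ S, mult f u = mult f z := by
  obtain ⟨φ, hφ, hφ0, hφ', hφe⟩ := exists_normal_form hf hnc
  set m := mult f z with hm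
  have hm0 : 0 < m := mult_pos hf hnc
  -- good neighbourhood
  have hgood : ∀ᶠ u in 𝓝 z, u ∈ N ∧ AnalyticAt ℂ f u ∧ AnalyticAt ℂ φ u ∧ deriv φ u ≠ 0 ∧
      ∀ᶠ v in 𝓝 u, f v = f z + φ v ^ m := by
    have h1 := hf.eventually_analyticAt
    have h2 := hφ.eventually_analyticAt
    have h3 : ∀ᶠ u in 𝓝 z, deriv φ u ≠ 0 := hφ.deriv.continuousAt.eventually_ne hφ'
    have h4 := hφe.eventually_nhds
    filter_upwards [hN, h1, h2, h3, h4] with u a1 a2 a3 a4 a5
    exact ⟨a1, a2, a3, a4, a5⟩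
  have hstrict : HasStrictDerivAt φ (deriv φ z) z := hφ.hasStrictDerivAt
  set e := (hstrict.hasStrictFDerivAt_equiv hφ').toOpenPartialHomeomorph φ with he
  have hez : z ∈ e.source :=
    (hstrict.hasStrictFDerivAt_equiv hφ').mem_toOpenPartialHomeomorph_source
  have heφ : ∀ u, e u = φ u := fun u => rfl
  have het : (0 : ℂ) ∈ e.target := by
    have := e.map_source hez
    rwa [heφ, hφ0] at this
  have hsymm0 : e.symm 0 = z := by
    have := e.left_inv hez
    rwa [heφ, hφ0] at this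
  have hpre : ∀ᶠ ζ in 𝓝 (0 : ℂ), ζ ∈ e.target ∧ (e.symm ζ ∈ N ∧ AnalyticAt ℂ f (e.symm ζ) ∧
      AnalyticAt ℂ φ (e.symm ζ) ∧ deriv φ (e.symm ζ) ≠ 0 ∧
      ∀ᶠ v in 𝓝 (e.symm ζ), f v = f z + φ v ^ m) := by
    have hc : ContinuousAt e.symm 0 := e.continuousAt_symm het
    rw [ContinuousAt, hsymm0] at hc
    exact Filter.Eventually.and (e.open_target.mem_nhds het) (hc.eventually hgood)
  obtain ⟨r, hr, hball⟩ := Metric.eventually_nhds_iff_ball.1 hpre
  set U : Set ℂ := e.source ∩ e ⁻¹' ball 0 r with hU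
  have hUo : IsOpen U := e.isOpen_inter_preimage isOpen_ball
  have hUmem : ∀ u ∈ U, u ∈ N ∧ AnalyticAt ℂ f u ∧ AnalyticAt ℂ φ u ∧ deriv φ u ≠ 0 ∧
      ∀ᶠ v in 𝓝 u, f v = f z + φ v ^ m := by
    intro u hu
    have := (hball (e u) hu.2).2
    rwa [e.left_inv hu.1] at this
  have hzU : z ∈ U := ⟨hez, by rw [mem_preimage, heφ, hφ0]; exact mem_ball_self hr⟩
  have hfU : ∀ u ∈ U, f u = f z + φ u ^ m := fun u hu => (hUmem u hu).2.2.2.2.self_of_nhds
  refine ⟨U, hUo, hzU, fun u hu => (hUmem u hu).1, ball (f z) (r ^ m),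
    ball_mem_nhds _ (pow_pos hr m), fun w hw => ?_⟩
  rcases eq_or_ne w (f z) with rfl | hne
  · refine ⟨{z}, fun u => ?_, by simp [hm]⟩
    rw [Finset.mem_singleton]
    constructor
    · rintro rfl; exact ⟨hzU, rfl⟩
    · rintro ⟨hu, hfu⟩
      have h1 := hfU u hu
      rw [hfu] at h1
      have h2 : φ u ^ m = 0 := by
        have := add_eq_left.1 h1.symm
        exact this
      have h3 : φ u = 0 := pow_eq_zero_iff hm0.ne' |>.1 h2
      have h4 : e u = e z := by rw [heφ, heφ, h3, hφ0]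
      exact e.injOn hu.1 hez h4
  · obtain ⟨S, hScard, hS⟩ := exists_roots hm0 (sub_ne_zero.2 hne)
    have hSball : ∀ ζ ∈ S, ζ ∈ ball (0 : ℂ) r := by
      intro ζ hζ
      rw [mem_ball_zero_iff]
      have h1 : ‖ζ‖ ^ m < r ^ m := by
        rw [← norm_pow, (hS ζ).1 hζ, ← dist_eq_norm]
        exact mem_ball.1 hw
      exact lt_of_pow_lt_pow_left₀ m hr.le h1
    have hinj : Set.InjOn e.symm (S : Set ℂ) := by
      intro a ha b hb hab
      exact e.symm.injOn (hball a (hSball a ha)).1 (hball b (hSball b hb)).1 hab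
    refine ⟨S.image e.symm, fun u => ?_, ?_⟩
    · rw [Finset.mem_image]
      constructor
      · rintro ⟨ζ, hζ, rfl⟩
        have ht := (hball ζ (hSball ζ hζ)).1
        have hu : e.symm ζ ∈ U := by
          refine ⟨e.map_target ht, ?_⟩
          rw [mem_preimage, e.right_inv ht]; exact hSball ζ hζ
        refine ⟨hu, ?_⟩
        have h1 : φ (e.symm ζ) = ζ := by rw [← heφ]; exact e.right_inv ht
        rw [hfU _ hu, h1, (hS ζ).1 hζ]; ring
      · rintro ⟨hu, hfu⟩
        refine ⟨e u, (hS _).2 ?_, e.left_inv hu.1⟩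
        have h1 := hfU u hu
        rw [heφ, ← hfu, h1]; ring
    · rw [Finset.sum_image hinj]
      have h1 : ∀ ζ ∈ S, mult f (e.symm ζ) = 1 := by
        intro ζ hζ
        obtain ⟨ht, -, hfa, hφa, hd, hev⟩ := hball ζ (hSball ζ hζ)
        refine mult_eq_one hfa ?_
        have h2 : deriv f (e.symm ζ) = deriv (fun v => f z + φ v ^ m) (e.symm ζ) :=
          Filter.EventuallyEq.deriv_eq hev
        have h3 : HasDerivAt (fun v => f z + φ v ^ m)
            ((m : ℂ) * φ (e.symm ζ) ^ (m - 1) * deriv φ (e.symm ζ)) (e.symm ζ) :=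
          (hφa.differentiableAt.hasDerivAt.pow m).const_add _
        rw [h2, h3.deriv]
        have h4 : φ (e.symm ζ) = ζ := by rw [← heφ]; exact e.right_inv ht
        rw [h4]
        have hζ0 : ζ ≠ 0 := by
          rintro rfl
          have := (hS 0).1 hζ
          rw [zero_pow hm0.ne'] at this
          exact (sub_ne_zero.2 hne) this.symm
        exact mul_ne_zero (mul_ne_zero (by exact_mod_cast hm0.ne') (pow_ne_zero _ hζ0)) hd
      rw [Finset.sum_congr rfl h1]
      simp [hScard]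

/-- Proper holomorphic maps between open subsets of the plane. -/
structure ProperHol (f : ℂ → ℂ) (X V : Set ℂ) : Prop where
  open_dom : IsOpen X
  open_cod : IsOpen V
  diff : DifferentiableOn ℂ f X
  mapsTo : MapsTo f X V
  proper : ∀ K ⊆ V, IsCompact K → IsCompact (X ∩ f ⁻¹' K)

variable {f : ℂ → ℂ} {X V : Set ℂ}

theorem ProperHol.analyticAt (h : ProperHol f X V) {z : ℂ} (hz : z ∈ X) : AnalyticAt ℂ f z :=
  h.diff.analyticAt (h.open_dom.mem_nhds hz)

/-- A proper holomorphic map is nowhere locally constant. -/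
theorem ProperHol.not_const (h : ProperHol f X V) {z : ℂ} (hz : z ∈ X) :
    ¬ ∀ᶠ u in 𝓝 z, f u = f z := by
  intro hc
  -- `f` is constant on the component of `z` in `X`
  set C := connectedComponentIn X z with hC
  have hCX : C ⊆ X := connectedComponentIn_subset _ _
  have hCo : IsOpen C := h.open_dom.connectedComponentIn
  have hzC : z ∈ C := mem_connectedComponentIn hz
  have hCpre : IsPreconnected C := isPreconnected_connectedComponentIn
  have han : AnalyticOnNhd ℂ f C := fun u hu => h.analyticAt (hCX hu)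
  have hconst : ∀ u ∈ C, f u = f z :=
    han.eqOn_of_preconnected_of_eventuallyEq (g := fun _ => f z)
      (fun u _ => analyticAt_const) hCpre hzC hc
  have hK := h.proper {f z} (singleton_subset_iff.2 (h.mapsTo hz)) isCompact_singleton
  have hCK : C ⊆ X ∩ f ⁻¹' {f z} := fun u hu => ⟨hCX hu, hconst u hu⟩
  have hclK : closure C ⊆ X ∩ f ⁻¹' {f z} := closure_minimal hCK hK.isClosed
  have hcl : closure C = C := by
    refine (subset_closure).antisymm' ?_
    exact (hCpre.closure).subset_connectedComponentIn (subset_closure hzC)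
      (fun u hu => (hclK hu).1)
  have hclopen : IsClopen C := ⟨by rw [← hcl]; exact isClosed_closure, hCo⟩
  have huniv : C = univ := hclopen.eq_univ ⟨z, hzC⟩
  have hcompact : IsCompact (univ : Set ℂ) := by
    have := hK.of_isClosed_subset (isClosed_closure (s := C)) hclK
    rwa [hcl, huniv] at this
  exact (noncompact_univ ℂ) hcompact

/-- The fibres of a proper holomorphic map are finite. -/
theorem ProperHol.finite_fibre (h : ProperHol f X V) {w : ℂ} (hw : w ∈ V) :
    (X ∩ f ⁻¹' {w}).Finite := by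
  have hK := h.proper {w} (singleton_subset_iff.2 hw) isCompact_singleton
  by_contra hinf
  obtain ⟨z, hzK, hz⟩ := (Set.not_finite.1 hinf |>.exists_accPt_of_subset_isCompact hK subset_rfl)
  have hzX : z ∈ X := hzK.1
  have hfz : f z = w := hzK.2
  have h1 : ∃ᶠ u in 𝓝[≠] z, f u = f z := by
    rw [accPt_iff_frequently] at hz
    rw [frequently_nhdsWithin_iff]
    refine hz.mono fun u hu => ?_
    obtain ⟨h1, -, h2⟩ := hu
    exact ⟨by rw [hfz]; exact h2, h1⟩
  exact h.not_const hzX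
    (((h.analyticAt hzX).frequently_eq_iff_eventually_eq analyticAt_const).1 h1)

/-- Number of preimages with multiplicity. -/
noncomputable def cnt (f : ℂ → ℂ) (X : Set ℂ) (w : ℂ) : ℕ :=
  ∑ᶠ z ∈ X ∩ f ⁻¹' {w}, mult f z

theorem cnt_eq_sum {S : Finset ℂ} {w : ℂ} (hS : ∀ u, u ∈ S ↔ u ∈ X ∧ f u = w) :
    cnt f X w = ∑ u ∈ S, mult f u := by
  have h1 : X ∩ f ⁻¹' {w} = (S : Set ℂ) := by
    ext u
    simp only [mem_inter_iff, mem_preimage, mem_singleton_iff, Finset.mem_coe, hS]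
  rw [cnt, h1, finsum_mem_coe_finset]

/-- The number of preimages with multiplicity is locally constant. -/
theorem ProperHol.cnt_eventually_eq (h : ProperHol f X V) {w : ℂ} (hw : w ∈ V) :
    ∀ᶠ w' in 𝓝 w, cnt f X w' = cnt f X w := by
  classical
  obtain ⟨S, hS⟩ : ∃ S : Finset ℂ, ∀ u, u ∈ S ↔ u ∈ X ∧ f u = w :=
    ⟨(h.finite_fibre hw).toFinset, fun u => by
      rw [Set.Finite.mem_toFinset]; rfl⟩
  -- disjoint neighbourhoods
  obtain ⟨N, hN, hNd⟩ := S.finite_toSet.t2_separation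
  have hloc : ∀ z ∈ S, ∃ U : Set ℂ, IsOpen U ∧ z ∈ U ∧ U ⊆ N z ∩ X ∧ ∃ W ∈ 𝓝 (f z), ∀ w ∈ W,
      ∃ S : Finset ℂ, (∀ u, u ∈ S ↔ u ∈ U ∧ f u = w) ∧ ∑ u ∈ S, mult f u = mult f z := by
    intro z hz
    have hzX := ((hS z).1 hz).1
    exact local_count (h.analyticAt hzX) (h.not_const hzX)
      (inter_mem ((hN z).2.mem_nhds (hN z).1) (h.open_dom.mem_nhds hzX))
  choose! U hUo hzU hUN W hW hcount using hloc
  -- a compact neighbourhood of `w`
  obtain ⟨K, hKc, hwK, hKV⟩ := exists_compact_subset h.open_cod hw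
  have hKpre := h.proper K hKV hKc
  have hUopen : IsOpen (⋃ z ∈ S, U z) := isOpen_biUnion fun z hz => hUo z hz
  have hrest : IsCompact ((X ∩ f ⁻¹' K) \ ⋃ z ∈ S, U z) := hKpre.diff hUopen
  have himg : IsCompact (f '' ((X ∩ f ⁻¹' K) \ ⋃ z ∈ S, U z)) :=
    hrest.image_of_continuousOn (h.diff.continuousOn.mono fun u hu => hu.1.1)
  have hwimg : w ∉ f '' ((X ∩ f ⁻¹' K) \ ⋃ z ∈ S, U z) := by
    rintro ⟨u, ⟨⟨huX, -⟩, hu⟩, rfl⟩
    exact hu (mem_iUnion₂.2 ⟨u, (hS u).2 ⟨huX, rfl⟩, hzU u ((hS u).2 ⟨huX, rfl⟩)⟩)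
  have hev1 : ∀ᶠ w' in 𝓝 w, w' ∉ f '' ((X ∩ f ⁻¹' K) \ ⋃ z ∈ S, U z) :=
    himg.isClosed.isOpen_compl.mem_nhds hwimg
  have hev2 : ∀ᶠ w' in 𝓝 w, w' ∈ K := mem_interior_iff_mem_nhds.1 hwK
  have hev3 : ∀ᶠ w' in 𝓝 w, ∀ z ∈ S, w' ∈ W z := by
    rw [Finset.eventually_all]
    intro z hz
    have := hW z hz
    rw [((hS z).1 hz).2] at this
    exact this
  filter_upwards [hev1, hev2, hev3] with w' h1 h2 h3
  have hT : ∀ z ∈ S, ∃ T : Finset ℂ, (∀ u, u ∈ T ↔ u ∈ U z ∧ f u = w') ∧
      ∑ u ∈ T, mult f u = mult f z := fun z hz => hcount z hz w' (h3 z hz)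
  choose! T hTmem hTsum using hT
  have hdisj : (S : Set ℂ).PairwiseDisjoint T := by
    intro a ha b hb hab
    rw [Function.onFun, Finset.disjoint_left]
    intro u hu hu'
    have h5 := hNd ha hb hab
    exact (disjoint_left.1 h5) (hUN a ha ((hTmem a ha u).1 hu).1).1
      (hUN b hb ((hTmem b hb u).1 hu').1).1
  rw [cnt_eq_sum hS, cnt_eq_sum (S := S.biUnion T), Finset.sum_biUnion hdisj]
  · exact Finset.sum_congr rfl fun z hz => hTsum z hz
  · intro u
    rw [Finset.mem_biUnion]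
    constructor
    · rintro ⟨z, hz, hu⟩
      exact ⟨(hUN z hz ((hTmem z hz u).1 hu).1).2, ((hTmem z hz u).1 hu).2⟩
    · rintro ⟨huX, hu⟩
      by_cases hcase : u ∈ ⋃ z ∈ S, U z
      · obtain ⟨z, hz, huz⟩ := mem_iUnion₂.1 hcase
        exact ⟨z, hz, (hTmem z hz u).2 ⟨huz, hu⟩⟩
      · exact absurd ⟨u, ⟨⟨huX, by rw [mem_preimage, hu]; exact h2⟩, hcase⟩, hu⟩ h1

/-- The degree is constant. -/
theorem ProperHol.cnt_eq (h : ProperHol f X V) (hV : IsPreconnected V) {w w' : ℂ} (hw : w ∈ V)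
    (hw' : w' ∈ V) : cnt f X w = cnt f X w' := by
  refine hV.constant (f := cnt f X) ?_ hw hw'
  intro u hu
  refine ContinuousAt.continuousWithinAt ?_
  exact tendsto_nhds_of_eventually_eq (h.cnt_eventually_eq hu)

theorem ProperHol.cnt_pos (h : ProperHol f X V) {z : ℂ} (hz : z ∈ X) : 0 < cnt f X (f z) := by
  obtain ⟨S, hS⟩ : ∃ S : Finset ℂ, ∀ u, u ∈ S ↔ u ∈ X ∧ f u = f z :=
    ⟨(h.finite_fibre (h.mapsTo hz)).toFinset, fun u => by
      rw [Set.Finite.mem_toFinset]; rfl⟩
  rw [cnt_eq_sum hS]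
  exact lt_of_lt_of_le (mult_pos (h.analyticAt hz) (h.not_const hz))
    (Finset.single_le_sum (f := fun u => mult f u) (fun _ _ => Nat.zero_le _)
      ((hS z).2 ⟨hz, rfl⟩))

/-- Proper holomorphic maps onto connected sets are surjective. -/
theorem ProperHol.surjOn (h : ProperHol f X V) (hV : IsPreconnected V) (hX : X.Nonempty) :
    SurjOn f X V := by
  intro w hw
  obtain ⟨z, hz⟩ := hX
  have h1 : 0 < cnt f X w := by
    rw [← h.cnt_eq hV (h.mapsTo hz) hw]; exact h.cnt_pos hz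
  by_contra hcon
  have : cnt f X w = 0 := by
    rw [cnt_eq_sum (S := ∅)]
    · simp
    · intro u
      simp only [Finset.notMem_empty, false_iff, not_and]
      intro hu hfu
      exact hcon ⟨u, hu, hfu⟩
  omega

/-- If one value is taken exactly once (with multiplicity) then `f` is a biholomorphism. -/
theorem ProperHol.bij_of_cnt_one (h : ProperHol f X V) (hV : IsPreconnected V) {w : ℂ}
    (hw : w ∈ V) (h1 : cnt f X w = 1) :
    BijOn f X V ∧ (∀ z ∈ X, deriv f z ≠ 0) := by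
  have hall : ∀ w' ∈ V, cnt f X w' = 1 := fun w' hw' => by rw [← h.cnt_eq hV hw hw', h1]
  have key : ∀ z ∈ X, ∀ z' ∈ X, f z = f z' → z = z' ∧ mult f z = 1 := by
    classical
    intro z hz z' hz' hzz
    obtain ⟨S, hS⟩ : ∃ S : Finset ℂ, ∀ u, u ∈ S ↔ u ∈ X ∧ f u = f z :=
      ⟨(h.finite_fibre (h.mapsTo hz)).toFinset, fun u => by
        rw [Set.Finite.mem_toFinset]; rfl⟩
    have hc := hall (f z) (h.mapsTo hz)
    rw [cnt_eq_sum hS] at hc
    have hzS : z ∈ S := (hS z).2 ⟨hz, rfl⟩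
    have hz'S : z' ∈ S := (hS z').2 ⟨hz', hzz.symm⟩
    have hp : ∀ u ∈ S, 1 ≤ mult f u := fun u hu =>
      mult_pos (h.analyticAt ((hS u).1 hu).1) (h.not_const ((hS u).1 hu).1)
    constructor
    · by_contra hne
      have h2 : ∑ u ∈ ({z, z'} : Finset ℂ), mult f u ≤ ∑ u ∈ S, mult f u :=
        Finset.sum_le_sum_of_subset (by
          intro u hu
          rw [Finset.mem_insert, Finset.mem_singleton] at hu
          rcases hu with rfl | rfl
          · exact hzS
          · exact hz'S)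
      rw [Finset.sum_pair hne] at h2
      have := hp z hzS
      have := hp z' hz'S
      omega
    · have h2 : mult f z ≤ ∑ u ∈ S, mult f u :=
        Finset.single_le_sum (f := fun u => mult f u) (fun _ _ => Nat.zero_le _) hzS
      have := hp z hzS
      omega
  have hne : X.Nonempty := by
    by_contra hcon
    rw [not_nonempty_iff_eq_empty] at hcon
    rw [cnt_eq_sum (S := ∅)] at h1
    · simp at h1
    · intro u; simp [hcon]
  exact ⟨⟨h.mapsTo, fun z hz z' hz' hzz => (key z hz z' hz' hzz).1, h.surjOn hV hne⟩,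
    fun z hz => deriv_ne_zero_of_mult (h.analyticAt hz) (key z hz z hz rfl).2⟩

/-- A way to recognise proper maps: the boundary of `X` is not mapped into the target. -/
theorem ProperHol.of_frontier {Ω : Set ℂ} (hf : ContinuousOn f Ω) (hfX : DifferentiableOn ℂ f X)
    (hV : IsOpen V) (hX : IsOpen X) (hXV : MapsTo f X V) (hcl : IsCompact (closure X))
    (hclΩ : closure X ⊆ Ω) (hb : ∀ z ∈ frontier X, f z ∉ V) : ProperHol f X V := by
  refine ⟨hX, hV, hfX, hXV, fun K hKV hK => ?_⟩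
  have h1 : X ∩ f ⁻¹' K = closure X ∩ f ⁻¹' K := by
    ext z
    constructor
    · rintro ⟨h1, h2⟩; exact ⟨subset_closure h1, h2⟩
    · rintro ⟨h1, h2⟩
      refine ⟨?_, h2⟩
      by_contra hz
      exact hb z (by rw [hX.frontier_eq]; exact ⟨h1, hz⟩) (hKV h2)
  rw [h1]
  have hc : ContinuousOn f (closure X) := hf.mono hclΩ
  have h2 : IsClosed (closure X ∩ f ⁻¹' K) :=
    hc.preimage_isClosed_of_isClosed isClosed_closure hK.isClosed
  exact hcl.of_isClosed_subset h2 inter_subset_left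

/-- Components of preimages which are relatively compact in the domain are mapped properly. -/
theorem ProperHol.of_component {Ω : Set ℂ} (hΩ : IsOpen Ω) (hf : DifferentiableOn ℂ f Ω)
    (hV : IsOpen V) {z : ℂ} (hcl : IsCompact (closure (connectedComponentIn (Ω ∩ f ⁻¹' V) z)))
    (hclΩ : closure (connectedComponentIn (Ω ∩ f ⁻¹' V) z) ⊆ Ω) :
    ProperHol f (connectedComponentIn (Ω ∩ f ⁻¹' V) z) V := by
  set F := Ω ∩ f ⁻¹' V with hF
  have hFo : IsOpen F := hf.continuousOn.isOpen_inter_preimage hΩ hV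
  have hXF : connectedComponentIn F z ⊆ F := connectedComponentIn_subset _ _
  refine ProperHol.of_frontier hf.continuousOn (hf.mono (hXF.trans inter_subset_left)) hV
    hFo.connectedComponentIn (fun u hu => (hXF hu).2) hcl hclΩ ?_
  intro u hu huV
  rw [hFo.connectedComponentIn.frontier_eq] at hu
  by_cases hz : z ∈ F
  · have h2 : IsPreconnected (insert u (connectedComponentIn F z)) :=
      isPreconnected_connectedComponentIn.subset_closure (subset_insert _ _)
        (insert_subset hu.1 subset_closure)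
    have huF : u ∈ F := ⟨hclΩ hu.1, huV⟩
    exact hu.2 (h2.subset_connectedComponentIn (mem_insert_of_mem _ (mem_connectedComponentIn hz))
      (insert_subset huF hXF) (mem_insert _ _))
  · rw [connectedComponentIn_eq_empty hz] at hu
    simp at hu

/-- The inverse of a holomorphic bijection is holomorphic. -/
theorem differentiableOn_inv (hX : IsOpen X) (hf : DifferentiableOn ℂ f X) (hb : BijOn f X V)
    (hd : ∀ z ∈ X, deriv f z ≠ 0) :
    ∃ g : ℂ → ℂ, DifferentiableOn ℂ g V ∧ MapsTo g V X ∧ (∀ z ∈ X, g (f z) = z) ∧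
      ∀ w ∈ V, f (g w) = w := by
  have hl : ∀ z ∈ X, (Function.invFunOn f X) (f z) = z := fun z hz => hb.injOn.leftInvOn_invFunOn hz
  have hr : ∀ w ∈ V, f ((Function.invFunOn f X) w) = w := fun w hw => by
    obtain ⟨z, hz, rfl⟩ := hb.surjOn hw
    rw [hl z hz]
  have hm : MapsTo (Function.invFunOn f X) V X := fun w hw => by
    obtain ⟨z, hz, rfl⟩ := hb.surjOn hw
    rw [hl z hz]; exact hz
  refine ⟨Function.invFunOn f X, ?_, hm, hl, hr⟩
  intro w hw
  obtain ⟨z, hz, rfl⟩ := hb.surjOn hw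
  have han : AnalyticAt ℂ f z := hf.analyticAt (hX.mem_nhds hz)
  have hs : HasStrictDerivAt f (deriv f z) z := han.hasStrictDerivAt
  have hg : ∀ᶠ u in 𝓝 z, (Function.invFunOn f X) (f u) = u := by
    filter_upwards [hX.mem_nhds hz] with u hu using hl u hu
  exact (hs.to_local_left_inverse (hd z hz) hg).hasDerivAt.differentiableAt.differentiableWithinAt

end MLC34
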