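import Mathlib

set_option autoImplicit false

/-! # Transversality of non-repelling cycles of `z ^ 2 + c`  (helper60)

`B z = ∑ (1 / (z - b i) ^ 2 + g i / (z - b i))` with `g (i+1) = (g i - 1 / b i) / (2 b i)`
satisfies `B - f_* B = κ / (z - c)` with `κ = ∑ g i = ρ' / ρ`; if `κ = 0` and `|ρ| ≤ 1` a mass
argument gives a contradiction.
-/

namespace Pool.Agent.Work.MLC.Trans

open Filter Topology Metric Set MeasureTheory

/-! ### change of variables -/

lemma det_mul (a : ℂ) :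
    ((ContinuousLinearMap.toSpanSingleton ℂ a).restrictScalars ℝ : ℂ →L[ℝ] ℂ).det = ‖a‖ ^ 2 := by
  have h : (((ContinuousLinearMap.toSpanSingleton ℂ a).restrictScalars ℝ : ℂ →L[ℝ] ℂ) : ℂ →ₗ[ℝ] ℂ)
      = Algebra.lmul ℝ ℂ a := by
    ext
    simp [mul_comm]
  rw [ContinuousLinearMap.det, h, ← Algebra.norm_apply, Algebra.norm_complex_apply,
    Complex.normSq_eq_norm_sq]

lemma null_slit (c : ℂ) : volume {z : ℂ | z.im = c.im} = 0 := by
  have h1 : {z : ℂ | z.im = c.im} = Complex.measurableEquivRealProd ⁻¹' (univ ×ˢ {c.im}) := by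
    ext z
    simp [Complex.measurableEquivRealProd]
  rw [h1, (Complex.volume_preserving_equiv_real_prod).measure_preimage
    (MeasurableSet.univ.prod (measurableSet_singleton _)).nullMeasurableSet]
  rw [Measure.volume_eq_prod, Measure.prod_prod]
  simp

lemma exists_sqrt {u : ℂ} (hu : u.im ≠ 0) : ∃ w : ℂ, 0 < w.re ∧ w ^ 2 = u := by
  obtain ⟨w, hw⟩ := IsSquare.exists_sq u (by
    exact ⟨u ^ (1 / 2 : ℂ), by
      rw [← sq, ← Complex.cpow_nat_mul]
      simp⟩)
  have hre : w.re ≠ 0 := by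
    intro h
    apply hu
    rw [hw, sq, Complex.mul_im, h]
    ring
  rcases lt_or_gt_of_ne hre with h | h
  · exact ⟨-w, by simpa using h, by rw [neg_sq, hw]⟩
  · exact ⟨w, h, hw.symm⟩

/-- the push-forward inequality -/
lemma mass_le {c : ℂ} {h : ℂ → ℂ} {N : Set ℂ} (hN : volume N = 0)
    (hfun : ∀ w, w ∉ N → 4 * w ^ 2 * h (w ^ 2 + c) = h w + h (-w)) {Q : Set ℂ}
    (hQ : MeasurableSet Q) (hm : Measurable h) :
    ∫⁻ z in Q, ‖h z‖ₑ ≤ ∫⁻ w in (fun w : ℂ => w ^ 2 + c) ⁻¹' Q, ‖h w‖ₑ := by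
  set f : ℂ → ℂ := fun w => w ^ 2 + c with hf
  have hfc : Continuous f := by fun_prop
  set s : Set ℂ := {w | 0 < w.re} ∩ f ⁻¹' Q with hs
  have hre : MeasurableSet {w : ℂ | 0 < w.re} := (isOpen_lt continuous_const Complex.continuous_re).measurableSet
  have hsm : MeasurableSet s := hre.inter (hfc.measurable hQ)
  have hder : ∀ w ∈ s, HasFDerivWithinAt f
      ((ContinuousLinearMap.toSpanSingleton ℂ (2 * w)).restrictScalars ℝ : ℂ →L[ℝ] ℂ) s w := by
    intro w _
    have h1 : HasDerivAt f (2 * w) w := by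
      have := ((hasDerivAt_id w).pow 2).add_const c
      simpa [hf] using this
    exact (h1.hasFDerivAt.restrictScalars ℝ).hasFDerivWithinAt
  have hinj : InjOn f s := by
    intro a ha b hb hab
    have h1 : a ^ 2 = b ^ 2 := by simpa [hf] using hab
    rcases sq_eq_sq_iff_eq_or_eq_neg.1 h1 with h2 | h2
    · exact h2
    · exfalso
      have h3 : (0 : ℝ) < a.re := ha.1
      have h4 : (0 : ℝ) < b.re := hb.1
      rw [h2, Complex.neg_re] at h3
      linarith
  have hchg := lintegral_image_eq_lintegral_abs_det_fderiv_mul volume hsm hder hinj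
    (fun z => ‖h z‖ₑ)
  have hsub : f '' s ⊆ Q := by
    rintro _ ⟨w, hw, rfl⟩
    exact hw.2
  have hQle : ∫⁻ z in Q, ‖h z‖ₑ ≤ ∫⁻ z in f '' s, ‖h z‖ₑ := by
    have h1 : Q ⊆ f '' s ∪ {z : ℂ | z.im = c.im} := by
      intro z hz
      by_cases him : z.im = c.im
      · exact Or.inr him
      · left
        obtain ⟨w, hw1, hw2⟩ := exists_sqrt (u := z - c) (by
          rw [Complex.sub_im]
          exact sub_ne_zero.2 him)
        have hfw : f w = z := by
          simp only [hf, hw2]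
          ring
        exact ⟨w, ⟨hw1, by rw [mem_preimage, hfw]; exact hz⟩, hfw⟩
    calc ∫⁻ z in Q, ‖h z‖ₑ ≤ ∫⁻ z in f '' s ∪ {z : ℂ | z.im = c.im}, ‖h z‖ₑ :=
          lintegral_mono_set h1
      _ ≤ (∫⁻ z in f '' s, ‖h z‖ₑ) + ∫⁻ z in {z : ℂ | z.im = c.im}, ‖h z‖ₑ :=
          lintegral_union_le _ _ _
      _ = ∫⁻ z in f '' s, ‖h z‖ₑ := by
          rw [setLIntegral_measure_zero _ _ (null_slit c), add_zero]
  have hNs : ∀ᵐ w ∂(volume.restrict s), ENNReal.ofReal
      |((ContinuousLinearMap.toSpanSingleton ℂ (2 * w)).restrictScalars ℝ : ℂ →L[ℝ] ℂ).det|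
        * ‖h (f w)‖ₑ ≤ ‖h w‖ₑ + ‖h (-w)‖ₑ := by
    have h1 : ∀ᵐ w ∂(volume : Measure ℂ), w ∉ N := by
      rw [ae_iff]
      simpa using hN
    refine (ae_restrict_of_ae h1).mono fun w hw => ?_
    rw [det_mul]
    have h2 := hfun w hw
    have h3 : ENNReal.ofReal |‖(2 * w : ℂ)‖ ^ 2| = ‖(4 * w ^ 2 : ℂ)‖ₑ := by
      rw [abs_of_nonneg (by positivity), ← norm_pow, ← ofReal_norm]
      congr 2
      ring
    rw [h3, ← enorm_mul]
    change ‖4 * w ^ 2 * h (w ^ 2 + c)‖ₑ ≤ _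
    rw [h2]
    exact enorm_add_le _ _
  have hneg : ∫⁻ w in s, ‖h (-w)‖ₑ = ∫⁻ w in (fun w : ℂ => -w) ⁻¹' s, ‖h w‖ₑ := by
    have hmp : MeasurePreserving (fun w : ℂ => -w) volume volume :=
      Measure.measurePreserving_neg volume
    have h1 := hmp.setLIntegral_comp_preimage hsm (f := fun w => ‖h (-w)‖ₑ) (by
      exact (hm.comp measurable_neg).enorm)
    simp only [neg_neg] at h1
    exact h1.symm
  have hdisj : Disjoint s ((fun w : ℂ => -w) ⁻¹' s) := by
    rw [Set.disjoint_left]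
    intro w hw hw'
    have h3 : (0 : ℝ) < w.re := hw.1
    have h4 : (0 : ℝ) < (-w).re := hw'.1
    rw [Complex.neg_re] at h4
    linarith
  have hunion : s ∪ ((fun w : ℂ => -w) ⁻¹' s) ⊆ f ⁻¹' Q := by
    rintro w (hw | hw)
    · exact hw.2
    · have h5 : f (-w) ∈ Q := hw.2
      have h6 : f (-w) = f w := by simp [hf]
      rw [mem_preimage, ← h6]
      exact h5
  calc ∫⁻ z in Q, ‖h z‖ₑ ≤ ∫⁻ z in f '' s, ‖h z‖ₑ := hQle
    _ = ∫⁻ w in s, ENNReal.ofReal
      |((ContinuousLinearMap.toSpanSingleton ℂ (2 * w)).restrictScalars ℝ : ℂ →L[ℝ] ℂ).det|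
        * ‖h (f w)‖ₑ := hchg
    _ ≤ ∫⁻ w in s, (‖h w‖ₑ + ‖h (-w)‖ₑ) := lintegral_mono_ae hNs
    _ = (∫⁻ w in s, ‖h w‖ₑ) + ∫⁻ w in s, ‖h (-w)‖ₑ := lintegral_add_left hm.enorm _
    _ = (∫⁻ w in s, ‖h w‖ₑ) + ∫⁻ w in (fun w : ℂ => -w) ⁻¹' s, ‖h w‖ₑ := by rw [hneg]
    _ = ∫⁻ w in s ∪ ((fun w : ℂ => -w) ⁻¹' s), ‖h w‖ₑ := by
        rw [lintegral_union (measurable_neg hsm) hdisj]
    _ ≤ ∫⁻ w in f ⁻¹' Q, ‖h w‖ₑ := lintegral_mono_set hunion

/-! ### the quadratic differential -/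

/-- the meromorphic function `B` -/
noncomputable def Bq (n : ℕ) (z g : ℕ → ℂ) (w : ℂ) : ℂ :=
  ∑ i ∈ Finset.range n, (1 / (w - z i) ^ 2 + g i / (w - z i))

lemma measurable_Bq (n : ℕ) (z g : ℕ → ℂ) : Measurable (Bq n z g) := by
  unfold Bq
  refine Finset.measurable_sum _ fun i _ => ?_
  fun_prop

lemma sum_shift {M : Type*} [AddCommGroup M] (n : ℕ) (F : ℕ → M) (h : F n = F 0) :
    ∑ i ∈ Finset.range n, F i = ∑ i ∈ Finset.range n, F (i + 1) := by
  have h1 := Finset.sum_range_succ F n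
  have h2 := Finset.sum_range_succ' F n
  rw [h1] at h2
  rw [h] at h2
  exact add_right_cancel h2

lemma Bq_fun {c : ℂ} {n : ℕ} {z g : ℕ → ℂ} (hz : ∀ i, z (i + 1) = z i ^ 2 + c)
    (hzn : z n = z 0) (hg : ∀ i, g (i + 1) = (g i - 1 / z i) / (2 * z i)) (hgn : g n = g 0)
    (h0 : ∀ i, z i ≠ 0) (hk : ∑ i ∈ Finset.range n, g i = 0) {w : ℂ}
    (hw1 : ∀ i ∈ Finset.range n, w ≠ z i) (hw2 : ∀ i ∈ Finset.range n, w ≠ -z i) :
    4 * w ^ 2 * Bq n z g (w ^ 2 + c) = Bq n z g w + Bq n z g (-w) := by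
  have h1 : Bq n z g (w ^ 2 + c) = ∑ i ∈ Finset.range n,
      (1 / (w ^ 2 + c - z (i + 1)) ^ 2 + g (i + 1) / (w ^ 2 + c - z (i + 1))) := by
    unfold Bq
    exact sum_shift n (fun i => 1 / (w ^ 2 + c - z i) ^ 2 + g i / (w ^ 2 + c - z i))
      (by simp only [hzn, hgn])
  have h2 : ∑ i ∈ Finset.range n, g (i + 1) = 0 := by
    rw [← sum_shift n g hgn, hk]
  rw [h1]
  unfold Bq
  rw [← Finset.sum_add_distrib, Finset.mul_sum]
  have h3 : ∑ i ∈ Finset.range n, 4 * w ^ 2 *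
      (1 / (w ^ 2 + c - z (i + 1)) ^ 2 + g (i + 1) / (w ^ 2 + c - z (i + 1)))
      = ∑ i ∈ Finset.range n, ((1 / (w - z i) ^ 2 + g i / (w - z i) +
        (1 / (-w - z i) ^ 2 + g i / (-w - z i))) + 4 * g (i + 1)) := by
    refine Finset.sum_congr rfl fun i hi => ?_
    have e1 : w - z i ≠ 0 := sub_ne_zero.2 (hw1 i hi)
    have e2 : w + z i ≠ 0 := by
      intro h
      exact hw2 i hi (eq_neg_of_add_eq_zero_left h)
    have e3 : -w - z i = -(w + z i) := by ring
    have e4 : w ^ 2 + c - z (i + 1) = (w - z i) * (w + z i) := by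
      rw [hz i]
      ring
    rw [e3, e4, hg i]
    have e5 := h0 i
    field_simp
    ring
  rw [h3, Finset.sum_add_distrib, ← Finset.mul_sum, h2, mul_zero, add_zero]

lemma Bq_norm_le {n : ℕ} {z g : ℕ → ℂ} {d : ℕ → ℝ} (hd : ∀ i ∈ Finset.range n, 0 < d i) {w : ℂ}
    (hw : ∀ i ∈ Finset.range n, d i ≤ ‖w - z i‖) :
    ‖Bq n z g w‖ ≤ ∑ i ∈ Finset.range n, (1 / d i ^ 2 + ‖g i‖ / d i) := by
  unfold Bq
  refine (norm_sum_le _ _).trans (Finset.sum_le_sum fun i hi => ?_)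
  refine (norm_add_le _ _).trans (add_le_add ?_ ?_)
  · rw [norm_div, norm_one, norm_pow]
    exact one_div_le_one_div_of_le (pow_pos (hd i hi) 2)
      (pow_le_pow_left₀ (hd i hi).le (hw i hi) 2)
  · rw [norm_div]
    exact div_le_div_of_nonneg_left (norm_nonneg _) (hd i hi) (hw i hi)

/-- the poles -/
def Po (n : ℕ) (z : ℕ → ℂ) : Set ℂ := z '' (Finset.range n : Set ℕ)

lemma Po_finite (n : ℕ) (z : ℕ → ℂ) : (Po n z).Finite :=
  (Finset.range n).finite_toSet.image z

lemma Bq_analytic (n : ℕ) (z g : ℕ → ℂ) : AnalyticOnNhd ℂ (Bq n z g) (Po n z)ᶜ := by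
  have ho : IsOpen (Po n z)ᶜ := (Po_finite n z).isClosed.isOpen_compl
  refine DifferentiableOn.analyticOnNhd ?_ ho
  intro w hw
  unfold Bq
  refine DifferentiableWithinAt.fun_sum fun i hi => ?_
  have h1 : w - z i ≠ 0 := by
    intro h
    apply hw
    exact ⟨i, by simpa using hi, (sub_eq_zero.1 h).symm⟩
  refine DifferentiableAt.differentiableWithinAt ?_
  refine DifferentiableAt.add ?_ ?_
  · refine (differentiableAt_const _).div (by fun_prop) (pow_ne_zero 2 h1)
  · refine (differentiableAt_const _).div (by fun_prop) h1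

/-- `B` does not vanish on a nonempty open set -/
lemma Bq_not_zero {n : ℕ} (hn : 0 < n) (z g : ℕ → ℂ) {O : Set ℂ} (hO : IsOpen O)
    (hOn : O.Nonempty) (hOP : O ⊆ (Po n z)ᶜ) (h : EqOn (Bq n z g) 0 O) : False := by
  obtain ⟨w0, hw0⟩ := hOn
  have hpre : IsPreconnected (Po n z)ᶜ := by
    refine ((Po_finite n z).countable.isConnected_compl_of_one_lt_rank ?_).isPreconnected
    rw [Complex.rank_real_complex]
    exact Nat.one_lt_ofNat
  have h0 : EqOn (Bq n z g) 0 (Po n z)ᶜ :=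
    (Bq_analytic n z g).eqOn_zero_of_preconnected_of_eventuallyEq_zero hpre (hOP hw0)
      (Filter.eventuallyEq_of_mem (hO.mem_nhds hw0) h)
  -- behaviour at `z 0`
  have hlim : ∀ i ∈ Finset.range n, Tendsto (fun w : ℂ => (w - z 0) ^ 2 *
      (1 / (w - z i) ^ 2 + g i / (w - z i))) (𝓝[≠] (z 0)) (𝓝 (if z i = z 0 then 1 else 0)) := by
    intro i _
    by_cases hi : z i = z 0
    · rw [if_pos hi, hi]
      have h1 : Tendsto (fun w : ℂ => 1 + g i * (w - z 0)) (𝓝[≠] (z 0)) (𝓝 1) := by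
        have h2 : Tendsto (fun w : ℂ => 1 + g i * (w - z 0)) (𝓝 (z 0)) (𝓝 (1 + g i * (z 0 - z 0))) := by
          apply Continuous.tendsto
          fun_prop
        rw [sub_self, mul_zero, add_zero] at h2
        exact h2.mono_left nhdsWithin_le_nhds
      refine h1.congr' ?_
      filter_upwards [self_mem_nhdsWithin] with w hw
      have h3 : w - z 0 ≠ 0 := sub_ne_zero.2 hw
      field_simp
    · rw [if_neg hi]
      have h3 : z 0 - z i ≠ 0 := sub_ne_zero.2 (Ne.symm hi)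
      have h1 : ContinuousAt (fun w : ℂ => (w - z 0) ^ 2 *
          (1 / (w - z i) ^ 2 + g i / (w - z i))) (z 0) := by
        refine ContinuousAt.mul (by fun_prop) (ContinuousAt.add ?_ ?_)
        · exact continuousAt_const.div (by fun_prop) (pow_ne_zero 2 h3)
        · exact continuousAt_const.div (by fun_prop) h3
      have h2 := h1.tendsto
      simp only [sub_self, ne_eq, OfNat.ofNat_ne_zero, not_false_eq_true, zero_pow, zero_mul] at h2
      exact h2.mono_left nhdsWithin_le_nhds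
  have hsum := tendsto_finsetSum _ hlim
  have hz : Tendsto (fun w : ℂ => ∑ i ∈ Finset.range n, (w - z 0) ^ 2 *
      (1 / (w - z i) ^ 2 + g i / (w - z i))) (𝓝[≠] (z 0)) (𝓝 0) := by
    refine tendsto_const_nhds.congr' ?_
    have h1 : ∀ᶠ w in 𝓝[≠] (z 0), w ∈ (Po n z)ᶜ := by
      have h2 : ((Po n z) \ {z 0})ᶜ ∈ 𝓝 (z 0) := by
        refine ((Po_finite n z).subset sdiff_subset).isClosed.isOpen_compl.mem_nhds ?_
        simp
      filter_upwards [mem_nhdsWithin_of_mem_nhds h2, self_mem_nhdsWithin] with w hw hw'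
      intro h3
      exact hw ⟨h3, hw'⟩
    filter_upwards [h1] with w hw
    have h3 := h0 hw
    rw [← Finset.mul_sum]
    change 0 = (w - z 0) ^ 2 * Bq n z g w
    rw [h3]
    simp
  have h4 := tendsto_nhds_unique hz hsum
  rw [Finset.sum_ite, Finset.sum_const_zero, add_zero, Finset.sum_const, nsmul_eq_mul, mul_one]
    at h4
  have h5 : 0 < (Finset.filter (fun i => z i = z 0) (Finset.range n)).card :=
    Finset.card_pos.2 ⟨0, by simp [hn]⟩
  have h6 : ((Finset.filter (fun i => z i = z 0) (Finset.range n)).card : ℂ) ≠ 0 := by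
    exact_mod_cast h5.ne'
  exact h6 h4.symm

/-! ### the mass argument -/

lemma vol_annulus (z0 : ℂ) {r r' : ℝ} (hr : 0 ≤ r) (hrr : r ≤ r') :
    volume (ball z0 r' \ ball z0 r) = ENNReal.ofReal (Real.pi * (r' ^ 2 - r ^ 2)) := by
  rw [measure_sdiff (ball_subset_ball hrr) measurableSet_ball.nullMeasurableSet
    measure_ball_lt_top.ne, Complex.volume_ball, Complex.volume_ball]
  have h1 : (NNReal.pi : ENNReal) = ENNReal.ofReal Real.pi := by
    rw [← NNReal.coe_real_pi, ENNReal.ofReal_coe_nnreal]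
  rw [h1, ← ENNReal.ofReal_pow hr, ← ENNReal.ofReal_pow (hr.trans hrr),
    ← ENNReal.ofReal_mul (by positivity), ← ENNReal.ofReal_mul (by positivity),
    ← ENNReal.ofReal_sub _ (by positivity)]
  congr 1
  ring

theorem mass_contra {c : ℂ} {n : ℕ} (hn : 0 < n) {z g : ℕ → ℂ}
    (hz : ∀ i, z (i + 1) = z i ^ 2 + c)
    (hzn : z n = z 0) (hg : ∀ i, g (i + 1) = (g i - 1 / z i) / (2 * z i)) (hgn : g n = g 0)
    (h0 : ∀ i, z i ≠ 0) (hk : ∑ i ∈ Finset.range n, g i = 0)
    (hρ : ∏ j ∈ Finset.range n, (2 * ‖z j‖) ≤ 1) : False := by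
  classical
  set a : ℕ → ℝ := fun i => ∏ j ∈ Finset.range i, (2 * ‖z j‖) with ha
  have a_pos : ∀ i, 0 < a i := fun i =>
    Finset.prod_pos fun j _ => mul_pos two_pos (norm_pos_iff.2 (h0 j))
  have a_succ : ∀ i, a (i + 1) = a i * (2 * ‖z i‖) := fun i => Finset.prod_range_succ _ _
  have a_zero : a 0 = 1 := Finset.prod_range_zero _
  have a_n : a n ≤ 1 := hρ
  set M0 : ℝ := ∑ i ∈ Finset.range n, ‖z i‖ with hM0
  set A : ℝ := ∑ i ∈ Finset.range n, a i with hA
  set C : ℝ := ∑ i ∈ Finset.range n, (a i ^ 2 / a (i + 1) + a i ^ 2) with hC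
  set K1 : ℝ := ∑ i ∈ Finset.range n, (1 / a i ^ 2 + ‖g i‖ / a i) with hK1
  have M0_le : ∀ i ∈ Finset.range n, ‖z i‖ ≤ M0 := fun i hi =>
    Finset.single_le_sum (f := fun i => ‖z i‖) (fun _ _ => norm_nonneg _) hi
  have M0_nn : 0 ≤ M0 := Finset.sum_nonneg fun _ _ => norm_nonneg _
  have A_le : ∀ i ∈ Finset.range n, a i ≤ A := fun i hi =>
    Finset.single_le_sum (f := a) (fun j _ => (a_pos j).le) hi
  have A_nn : 0 ≤ A := Finset.sum_nonneg fun j _ => (a_pos j).le
  have Ct_nn : ∀ i, 0 ≤ a i ^ 2 / a (i + 1) + a i ^ 2 := fun i =>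
    add_nonneg (div_nonneg (sq_nonneg _) (a_pos _).le) (sq_nonneg _)
  have C_nn : 0 ≤ C := Finset.sum_nonneg fun i _ => Ct_nn i
  have C_le : ∀ i ∈ Finset.range n, a i ^ 2 / a (i + 1) + a i ^ 2 ≤ C := fun i hi =>
    Finset.single_le_sum (f := fun i => a i ^ 2 / a (i + 1) + a i ^ 2) (fun j _ => Ct_nn j) hi
  have C1 : ∀ i ∈ Finset.range n, a i ^ 2 ≤ C * a (i + 1) := by
    intro i hi
    have h1 := C_le i hi
    have h2 : a i ^ 2 / a (i + 1) ≤ C := by
      have := sq_nonneg (a i)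
      linarith
    rwa [div_le_iff₀ (a_pos _)] at h2
  have C2 : ∀ i ∈ Finset.range n, a i ^ 2 ≤ C := by
    intro i hi
    have h1 := C_le i hi
    have : 0 ≤ a i ^ 2 / a (i + 1) := div_nonneg (sq_nonneg _) (a_pos _).le
    linarith
  have K1_nn : 0 ≤ K1 := Finset.sum_nonneg fun i _ =>
    add_nonneg (by positivity) (div_nonneg (norm_nonneg _) (a_pos _).le)
  set f : ℂ → ℂ := fun w => w ^ 2 + c with hf
  have hfc : Continuous f := by fun_prop
  let U : ℝ → Set ℂ := fun e => ⋃ i ∈ Finset.range n, ball (z i) (e * a i)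
  let U' : ℝ → Set ℂ := fun e => ⋃ i ∈ Finset.range n, ball (z i) (e * a i * (1 + C * e))
  have U_meas : ∀ e, MeasurableSet (U e) := fun e =>
    (isOpen_biUnion fun i _ => isOpen_ball).measurableSet
  have U'_meas : ∀ e, MeasurableSet (U' e) := fun e =>
    (isOpen_biUnion fun i _ => isOpen_ball).measurableSet
  have memU : ∀ e w, w ∈ U e ↔ ∃ i ∈ Finset.range n, ‖w - z i‖ < e * a i := by
    intro e w
    simp only [U, mem_iUnion, mem_ball, dist_eq_norm, exists_prop]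
  have memU' : ∀ e w, w ∈ U' e ↔ ∃ i ∈ Finset.range n, ‖w - z i‖ < e * a i * (1 + C * e) := by
    intro e w
    simp only [U', mem_iUnion, mem_ball, dist_eq_norm, exists_prop]
  have U_maps : ∀ e, 0 < e → ∀ w ∈ U e, f w ∈ U' e := by
    intro e he w hw
    obtain ⟨i, hi, hwi⟩ := (memU e w).1 hw
    have hi' : i < n := Finset.mem_range.1 hi
    have h1 : f w - z (i + 1) = (w - z i) * (w + z i) := by
      rw [hz i, hf]
      ring
    have h2 : ‖w + z i‖ < e * a i + 2 * ‖z i‖ := by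
      calc ‖w + z i‖ = ‖(w - z i) + (2 : ℂ) * z i‖ := by ring_nf
        _ ≤ ‖w - z i‖ + ‖(2 : ℂ) * z i‖ := norm_add_le _ _
        _ = ‖w - z i‖ + 2 * ‖z i‖ := by rw [norm_mul]; norm_num
        _ < e * a i + 2 * ‖z i‖ := by linarith
    have hea : 0 < e * a i := mul_pos he (a_pos i)
    have h3 : ‖f w - z (i + 1)‖ < e * a i * (e * a i + 2 * ‖z i‖) := by
      rw [h1, norm_mul]
      have h5 : 0 < e * a i + 2 * ‖z i‖ := by
        have := norm_nonneg (z i)
        linarith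
      calc ‖w - z i‖ * ‖w + z i‖ ≤ ‖w - z i‖ * (e * a i + 2 * ‖z i‖) :=
            mul_le_mul_of_nonneg_left h2.le (norm_nonneg _)
        _ < e * a i * (e * a i + 2 * ‖z i‖) := mul_lt_mul_of_pos_right hwi h5
    have h4 : e * a i * (e * a i + 2 * ‖z i‖) = e * a (i + 1) + e ^ 2 * a i ^ 2 := by
      rw [a_succ]
      ring
    rw [h4] at h3
    rw [memU']
    by_cases hin : i + 1 < n
    · refine ⟨i + 1, Finset.mem_range.2 hin, lt_of_lt_of_le h3 ?_⟩
      have h5 := mul_le_mul_of_nonneg_left (C1 i hi) (sq_nonneg e)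
      nlinarith
    · have hin' : i + 1 = n := by omega
      refine ⟨0, Finset.mem_range.2 hn, ?_⟩
      rw [← hzn, a_zero, ← hin']
      rw [← hin'] at a_n
      refine lt_of_lt_of_le h3 ?_
      have h5 := mul_le_mul_of_nonneg_left (C2 i hi) (sq_nonneg e)
      have h6 := mul_le_mul_of_nonneg_left a_n he.le
      nlinarith
  set R : ℝ := M0 + ‖c‖ + A * (1 + C) + 4 with hR
  have hAC : 0 ≤ A * (1 + C) := by positivity
  have hcn := norm_nonneg c
  have hR4 : 4 ≤ R := by linarith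
  set V : Set ℂ := ball 0 R with hV
  have memV : ∀ w, w ∈ V ↔ ‖w‖ < R := fun w => by rw [hV, mem_ball, dist_zero_right]
  have hFV : f ⁻¹' V ⊆ V := by
    intro w hw
    rw [mem_preimage, memV] at hw
    rw [memV]
    by_contra hcon
    push Not at hcon
    have h1 : ‖w‖ ^ 2 ≤ ‖f w‖ + ‖c‖ := by
      calc ‖w‖ ^ 2 = ‖f w - c‖ := by rw [← norm_pow, hf]; congr 1; ring
        _ ≤ ‖f w‖ + ‖c‖ := norm_sub_le _ _
    nlinarith
  set A0 : Set ℂ := {w | R - 1 / 2 < ‖w‖ ∧ ‖w‖ < R} with hA0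
  have A0_open : IsOpen A0 :=
    (isOpen_lt continuous_const continuous_norm).inter (isOpen_lt continuous_norm continuous_const)
  have A0_nonempty : A0.Nonempty := by
    refine ⟨((R - 1 / 4 : ℝ) : ℂ), ?_⟩
    rw [hA0, Set.mem_ofPred_eq, Complex.norm_real, Real.norm_of_nonneg (by linarith)]
    constructor <;> linarith
  have A0_Po : A0 ⊆ (Po n z)ᶜ := by
    rintro w hw ⟨i, hi, rfl⟩
    have h1 := M0_le i (by simpa using hi)
    have h2 := hw.1
    linarith
  have A0_FV : ∀ w ∈ A0, w ∉ f ⁻¹' V := by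
    intro w hw hw'
    rw [mem_preimage, memV] at hw'
    have h1 : ‖w‖ ^ 2 ≤ ‖f w‖ + ‖c‖ := by
      calc ‖w‖ ^ 2 = ‖f w - c‖ := by rw [← norm_pow, hf]; congr 1; ring
        _ ≤ ‖f w‖ + ‖c‖ := norm_sub_le _ _
    have h2 := hw.1
    nlinarith
  have A0_V : A0 ⊆ V := fun w hw => (memV w).2 hw.2
  set B : ℂ → ℂ := Bq n z g with hB
  have hBm : Measurable B := measurable_Bq n z g
  set N : Set ℂ := {0} ∪ Po n z ∪ (fun w : ℂ => -w) ⁻¹' (Po n z) with hN
  have hN0 : volume N = 0 := by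
    refine ((Set.finite_singleton _).union (Po_finite n z) |>.union ?_).measure_zero _
    exact (Po_finite n z).preimage neg_injective.injOn
  have hfun : ∀ w, w ∉ N → 4 * w ^ 2 * B (w ^ 2 + c) = B w + B (-w) := by
    intro w hw
    refine Bq_fun hz hzn hg hgn h0 hk (fun i hi h => hw ?_) (fun i hi h => hw ?_)
    · exact Or.inl (Or.inr ⟨i, by simpa using hi, h.symm⟩)
    · refine Or.inr ⟨i, by simpa using hi, ?_⟩
      change z i = -w
      rw [h, neg_neg]
  -- the key inequality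
  have key : ∀ e : ℝ, 0 < e → e ≤ 1 → ∫⁻ w in A0, ‖B w‖ₑ ≤
      ENNReal.ofReal (K1 * (Real.pi * (∑ i ∈ Finset.range n, a i ^ 2) * (2 * C + C ^ 2)) * e) := by
    intro e he he1
    have hCe : 0 ≤ C * e := mul_nonneg C_nn he.le
    have hQm : MeasurableSet (V \ U' e) := measurableSet_ball.diff (U'_meas e)
    have hFm : MeasurableSet (f ⁻¹' V \ U' e) :=
      (hfc.measurable measurableSet_ball).diff (U'_meas e)
    have h1 := mass_le hN0 hfun hQm hBm
    have h2 : f ⁻¹' (V \ U' e) ⊆ (f ⁻¹' V \ U' e) ∪ (U' e \ U e) := by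
      intro w hw
      have hwU : w ∉ U e := fun h => hw.2 (U_maps e he w h)
      by_cases h : w ∈ U' e
      · exact Or.inr ⟨h, hwU⟩
      · exact Or.inl ⟨hw.1, h⟩
    have h3 : ∫⁻ w in f ⁻¹' (V \ U' e), ‖B w‖ₑ ≤
        (∫⁻ w in f ⁻¹' V \ U' e, ‖B w‖ₑ) + ∫⁻ w in U' e \ U e, ‖B w‖ₑ :=
      (lintegral_mono_set h2).trans (lintegral_union_le _ _ _)
    have hA0U : Disjoint (f ⁻¹' V \ U' e) A0 := by
      rw [Set.disjoint_left]
      intro w hw hw'
      exact A0_FV w hw' hw.1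
    have h4 : (∫⁻ w in f ⁻¹' V \ U' e, ‖B w‖ₑ) + ∫⁻ w in A0, ‖B w‖ₑ ≤
        ∫⁻ w in V \ U' e, ‖B w‖ₑ := by
      rw [← lintegral_union A0_open.measurableSet hA0U]
      refine lintegral_mono_set ?_
      rintro w (hw | hw)
      · exact ⟨hFV hw.1, hw.2⟩
      · refine ⟨A0_V hw, fun h => ?_⟩
        obtain ⟨i, hi, hwi⟩ := (memU' e w).1 h
        have h5 := hw.1
        have h6 := M0_le i hi
        have h7 := A_le i hi
        have h8 : ‖w‖ ≤ ‖w - z i‖ + ‖z i‖ := by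
          calc ‖w‖ = ‖(w - z i) + z i‖ := by ring_nf
            _ ≤ _ := norm_add_le _ _
        have h9 : e * a i * (1 + C * e) ≤ A * (1 + C) := by
          have h10 : e * a i ≤ A := by
            calc e * a i ≤ 1 * a i := mul_le_mul_of_nonneg_right he1 (a_pos i).le
              _ ≤ A := by linarith
          have h11 : 1 + C * e ≤ 1 + C := by nlinarith
          exact mul_le_mul h10 h11 (by linarith) A_nn
        linarith
    have hfin : ∫⁻ w in f ⁻¹' V \ U' e, ‖B w‖ₑ ≠ ⊤ := by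
      have hb : ∀ w ∈ f ⁻¹' V \ U' e, ‖B w‖ₑ ≤ ENNReal.ofReal (∑ i ∈ Finset.range n,
          (1 / (e * a i * (1 + C * e)) ^ 2 + ‖g i‖ / (e * a i * (1 + C * e)))) := by
        intro w hw
        rw [← ofReal_norm]
        refine ENNReal.ofReal_le_ofReal (Bq_norm_le (fun i _ => ?_) fun i hi => ?_)
        · have := a_pos i
          positivity
        · by_contra hcon
          push Not at hcon
          exact hw.2 ((memU' e w).2 ⟨i, hi, hcon⟩)
      have h5 : ∫⁻ w in f ⁻¹' V \ U' e, ‖B w‖ₑ ≤ ∫⁻ _w in f ⁻¹' V \ U' e, ENNReal.ofReal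
          (∑ i ∈ Finset.range n,
          (1 / (e * a i * (1 + C * e)) ^ 2 + ‖g i‖ / (e * a i * (1 + C * e)))) :=
        setLIntegral_mono' hFm hb
      refine ne_top_of_le_ne_top ?_ h5
      rw [setLIntegral_const]
      refine ENNReal.mul_ne_top ENNReal.ofReal_ne_top ?_
      refine ne_top_of_le_ne_top (measure_ball_lt_top (x := (0 : ℂ)) (r := R)).ne
        (measure_mono ?_)
      intro w hw
      exact hFV hw.1
    have h5 : ∫⁻ w in A0, ‖B w‖ₑ ≤ ∫⁻ w in U' e \ U e, ‖B w‖ₑ :=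
      (ENNReal.add_le_add_iff_left hfin).1 (h4.trans (h1.trans h3))
    refine h5.trans ?_
    have h6 : ∀ w ∈ U' e \ U e, ‖B w‖ₑ ≤ ENNReal.ofReal (K1 / e ^ 2) := by
      intro w hw
      rw [← ofReal_norm]
      refine ENNReal.ofReal_le_ofReal ?_
      refine (Bq_norm_le (d := fun i => e * a i) (fun i _ => mul_pos he (a_pos i))
        fun i hi => ?_).trans ?_
      · by_contra hcon
        push Not at hcon
        exact hw.2 ((memU e w).2 ⟨i, hi, hcon⟩)
      · rw [hK1, Finset.sum_div]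
        refine Finset.sum_le_sum fun i _ => ?_
        have hai := a_pos i
        have h7 : ‖g i‖ / (e * a i) ≤ ‖g i‖ / a i / e ^ 2 := by
          rw [div_div]
          refine div_le_div_of_nonneg_left (norm_nonneg _) (by positivity) ?_
          have h71 : e ^ 2 ≤ e := by nlinarith
          nlinarith [mul_le_mul_of_nonneg_left h71 hai.le]
        have h8 : 1 / (e * a i) ^ 2 = 1 / a i ^ 2 / e ^ 2 := by
          rw [div_div]
          congr 1
          ring
        rw [h8, add_div]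
        linarith
    have h7 : volume (U' e \ U e) ≤ ENNReal.ofReal
        (Real.pi * (∑ i ∈ Finset.range n, a i ^ 2) * (2 * C + C ^ 2) * e ^ 3) := by
      have h8 : U' e \ U e ⊆ ⋃ i ∈ Finset.range n,
          (ball (z i) (e * a i * (1 + C * e)) \ ball (z i) (e * a i)) := by
        intro w hw
        obtain ⟨i, hi, hwi⟩ := (memU' e w).1 hw.1
        simp only [mem_iUnion]
        refine ⟨i, hi, ?_, fun h => hw.2 ?_⟩
        · rwa [mem_ball, dist_eq_norm]
        · rw [mem_ball, dist_eq_norm] at h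
          exact (memU e w).2 ⟨i, hi, h⟩
      refine (measure_mono h8).trans ((measure_biUnion_finset_le _ _).trans ?_)
      have h9 : Real.pi * (∑ i ∈ Finset.range n, a i ^ 2) * (2 * C + C ^ 2) * e ^ 3
          = ∑ i ∈ Finset.range n, Real.pi * a i ^ 2 * (2 * C + C ^ 2) * e ^ 3 := by
        rw [Finset.mul_sum, Finset.sum_mul, Finset.sum_mul]
      rw [h9, ENNReal.ofReal_sum_of_nonneg (fun i _ => by positivity)]
      refine Finset.sum_le_sum fun i _ => ?_
      have hea : 0 < e * a i := mul_pos he (a_pos i)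
      rw [vol_annulus (z i) hea.le (by nlinarith)]
      refine ENNReal.ofReal_le_ofReal ?_
      have h10 : (e * a i * (1 + C * e)) ^ 2 - (e * a i) ^ 2
          = a i ^ 2 * e ^ 3 * (2 * C + C ^ 2 * e) := by ring
      rw [h10]
      have h11 : a i ^ 2 * e ^ 3 * (2 * C + C ^ 2 * e) ≤ a i ^ 2 * e ^ 3 * (2 * C + C ^ 2) := by
        refine mul_le_mul_of_nonneg_left ?_ (by positivity)
        have := sq_nonneg C
        nlinarith
      calc Real.pi * (a i ^ 2 * e ^ 3 * (2 * C + C ^ 2 * e))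
          ≤ Real.pi * (a i ^ 2 * e ^ 3 * (2 * C + C ^ 2)) :=
            mul_le_mul_of_nonneg_left h11 Real.pi_pos.le
        _ = Real.pi * a i ^ 2 * (2 * C + C ^ 2) * e ^ 3 := by ring
    calc ∫⁻ w in U' e \ U e, ‖B w‖ₑ ≤ ∫⁻ _w in U' e \ U e, ENNReal.ofReal (K1 / e ^ 2) :=
          setLIntegral_mono' ((U'_meas e).diff (U_meas e)) h6
      _ = ENNReal.ofReal (K1 / e ^ 2) * volume (U' e \ U e) := setLIntegral_const _ _
      _ ≤ ENNReal.ofReal (K1 / e ^ 2) * ENNReal.ofReal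
        (Real.pi * (∑ i ∈ Finset.range n, a i ^ 2) * (2 * C + C ^ 2) * e ^ 3) := by gcongr
      _ = ENNReal.ofReal
        (K1 * (Real.pi * (∑ i ∈ Finset.range n, a i ^ 2) * (2 * C + C ^ 2)) * e) := by
        rw [← ENNReal.ofReal_mul (by positivity)]
        congr 1
        field_simp
  have hzero : ∫⁻ w in A0, ‖B w‖ₑ = 0 := by
    set K2 : ℝ := K1 * (Real.pi * (∑ i ∈ Finset.range n, a i ^ 2) * (2 * C + C ^ 2)) with hK2
    have hlim : Tendsto (fun e : ℝ => ENNReal.ofReal (K2 * e)) (𝓝[>] 0) (𝓝 0) := by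
      have h1 : Tendsto (fun e : ℝ => ENNReal.ofReal (K2 * e)) (𝓝 0)
          (𝓝 (ENNReal.ofReal (K2 * 0))) := by
        apply Continuous.tendsto
        exact ENNReal.continuous_ofReal.comp (continuous_const.mul continuous_id)
      rw [mul_zero, ENNReal.ofReal_zero] at h1
      exact h1.mono_left nhdsWithin_le_nhds
    refine le_antisymm (ge_of_tendsto hlim ?_) bot_le
    have h2 : ∀ᶠ e : ℝ in 𝓝[>] 0, e < 1 :=
      mem_nhdsWithin_of_mem_nhds (Iio_mem_nhds zero_lt_one)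
    filter_upwards [self_mem_nhdsWithin, h2] with e he he1
    exact key e he he1.le
  have hae : B =ᵐ[volume.restrict A0] (fun _ => (0 : ℂ)) := by
    rw [lintegral_eq_zero_iff hBm.enorm] at hzero
    filter_upwards [hzero] with w hw
    simpa using hw
  have heq : EqOn B (fun _ => (0 : ℂ)) A0 :=
    Measure.eqOn_open_of_ae_eq hae A0_open
      ((Bq_analytic n z g).continuousOn.mono A0_Po) continuousOn_const
  exact Bq_not_zero hn z g A0_open A0_nonempty A0_Po heq

/-! ### algebra -/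

/-- the recursion for the residues -/
noncomputable def Gr (z : ℕ → ℂ) (x : ℂ) : ℕ → ℂ
  | 0 => x
  | i + 1 => (Gr z x i - 1 / z i) / (2 * z i)

lemma Gr_eq {z : ℕ → ℂ} (h0 : ∀ i, z i ≠ 0) (x : ℂ) (i : ℕ) :
    Gr z x i = x / (∏ j ∈ Finset.range i, 2 * z j) + Gr z 0 i := by
  induction i with
  | zero => simp [Gr]
  | succ i ih =>
    have h1 := h0 i
    have h2 : (∏ j ∈ Finset.range i, 2 * z j) ≠ 0 :=
      Finset.prod_ne_zero_iff.2 fun j _ => mul_ne_zero two_ne_zero (h0 j)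
    rw [Finset.prod_range_succ]
    change (Gr z x i - 1 / z i) / (2 * z i) = _ + (Gr z 0 i - 1 / z i) / (2 * z i)
    rw [ih]
    field_simp
    ring

lemma exists_g {z : ℕ → ℂ} (h0 : ∀ i, z i ≠ 0) {n : ℕ}
    (hρ : ∏ j ∈ Finset.range n, 2 * z j ≠ 1) :
    ∃ g : ℕ → ℂ, (∀ i, g (i + 1) = (g i - 1 / z i) / (2 * z i)) ∧ g n = g 0 := by
  have h2 : (∏ j ∈ Finset.range n, 2 * z j) ≠ 0 :=
    Finset.prod_ne_zero_iff.2 fun j _ => mul_ne_zero two_ne_zero (h0 j)
  set P := ∏ j ∈ Finset.range n, 2 * z j with hP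
  refine ⟨Gr z (Gr z 0 n / (1 - 1 / P)), fun i => rfl, ?_⟩
  rw [Gr_eq h0 _ n, ← hP]
  change _ = Gr z 0 n / (1 - 1 / P)
  have h3 : P - 1 ≠ 0 := sub_ne_zero.2 hρ
  have h4 : 1 - 1 / P ≠ 0 := by
    have : 1 - 1 / P = (P - 1) / P := by field_simp
    rw [this]
    exact div_ne_zero h3 h2
  field_simp
  ring

lemma sum_g_eq {z g v : ℕ → ℂ} {n : ℕ} (h0 : ∀ i, z i ≠ 0)
    (hg : ∀ i, g (i + 1) = (g i - 1 / z i) / (2 * z i)) (hgn : g n = g 0)
    (hv : ∀ i, v (i + 1) = 2 * z i * v i + 1) (hvn : v n = v 0) :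
    ∑ i ∈ Finset.range n, g i = ∑ i ∈ Finset.range n, v i / z i := by
  have h1 : ∑ i ∈ Finset.range n, g i * v i = ∑ i ∈ Finset.range n, g (i + 1) * v (i + 1) :=
    sum_shift n (fun i => g i * v i) (by simp only [hgn, hvn])
  have h2 : ∑ i ∈ Finset.range n, g i = ∑ i ∈ Finset.range n, g (i + 1) := sum_shift n g hgn
  have h3 : ∀ i, g (i + 1) * v (i + 1) = g i * v i - v i / z i + g (i + 1) := by
    intro i
    have h4 := h0 i
    rw [hv, hg]
    field_simp
  simp only [h3, Finset.sum_add_distrib, Finset.sum_sub_distrib] at h1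
  rw [← h2] at h1
  linear_combination -h1

/-- **Transversality**, abstract form: `ζ i` is the orbit of a point of period `n` as a function of
the parameter; the multiplier has a nonzero derivative as soon as it is a number
`≠ 0, 1` of modulus at most one. -/
theorem transversality' {n : ℕ} (hn : 0 < n) {c₀ : ℂ} {ζ : ℕ → ℂ → ℂ} {v : ℕ → ℂ}
    (hζ : ∀ i, HasDerivAt (ζ i) (v i) c₀)
    (hrec : ∀ i, ∀ᶠ c in 𝓝 c₀, ζ (i + 1) c = ζ i c ^ 2 + c)
    (hper : ∀ᶠ c in 𝓝 c₀, ζ n c = ζ 0 c)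
    (hne : ∏ i ∈ Finset.range n, 2 * ζ i c₀ ≠ 0) (h1 : ∏ i ∈ Finset.range n, 2 * ζ i c₀ ≠ 1)
    (hle : ‖∏ i ∈ Finset.range n, 2 * ζ i c₀‖ ≤ 1)
    (hd : HasDerivAt (fun c => ∏ i ∈ Finset.range n, 2 * ζ i c) 0 c₀) : False := by
  set z : ℕ → ℂ := fun i => ζ i c₀ with hzdef
  have hz : ∀ i, z (i + 1) = z i ^ 2 + c₀ := fun i => (hrec i).self_of_nhds
  have hzn : z n = z 0 := hper.self_of_nhds
  have hzper : ∀ i, z (n + i) = z i := by
    intro i
    induction i with
    | zero => exact hzn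
    | succ i ih => rw [← add_assoc, hz, hz, ih]
  have h0' : ∀ i ∈ Finset.range n, z i ≠ 0 := by
    intro i hi h
    apply hne
    refine Finset.prod_eq_zero hi ?_
    change 2 * z i = 0
    rw [h, mul_zero]
  have h0 : ∀ i, z i ≠ 0 := by
    intro i
    induction i using Nat.strong_induction_on with
    | _ i ih =>
      by_cases hi : i < n
      · exact h0' i (Finset.mem_range.2 hi)
      · have h2 : i = n + (i - n) := by omega
        rw [h2, hzper]
        exact ih (i - n) (by omega)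
  have hv : ∀ i, v (i + 1) = 2 * z i * v i + 1 := by
    intro i
    have h2 : HasDerivAt (fun c => ζ i c ^ 2 + c) (2 * z i * v i + 1) c₀ := by
      have h3 := ((hζ i).pow 2).add (hasDerivAt_id c₀)
      refine (h3.congr_deriv ?_)
      simp [hzdef]
    exact ((hζ (i + 1)).congr_of_eventuallyEq ((hrec i).mono fun c hc => hc.symm)).unique h2
  have hvn : v n = v 0 := by
    exact ((hζ n).congr_of_eventuallyEq (hper.mono fun c hc => hc.symm)).unique (hζ 0)
  obtain ⟨g, hg, hgn⟩ := exists_g h0 (n := n) h1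
  have hsum := sum_g_eq h0 hg hgn hv hvn
  -- the derivative of the product
  have hprod : HasDerivAt (fun c => ∏ i ∈ Finset.range n, 2 * ζ i c)
      ((∏ i ∈ Finset.range n, 2 * z i) * ∑ i ∈ Finset.range n, v i / z i) c₀ := by
    have h2 : ∀ m ≤ n, HasDerivAt (fun c => ∏ i ∈ Finset.range m, 2 * ζ i c)
        ((∏ i ∈ Finset.range m, 2 * z i) * ∑ i ∈ Finset.range m, v i / z i) c₀ := by
      intro m
      induction m with
      | zero => intro _; simpa using hasDerivAt_const c₀ (1 : ℂ)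
      | succ m ih =>
        intro hm
        have h3 := (ih (by omega)).mul ((hζ m).const_mul 2)
        simp only [Finset.prod_range_succ, Finset.sum_range_succ]
        refine h3.congr_deriv ?_
        have h4 : ζ m c₀ ≠ 0 := h0 m
        change (∏ i ∈ Finset.range m, 2 * ζ i c₀) * (∑ i ∈ Finset.range m, v i / ζ i c₀) *
          (2 * ζ m c₀) + (∏ i ∈ Finset.range m, 2 * ζ i c₀) * (2 * v m) =
          (∏ i ∈ Finset.range m, 2 * ζ i c₀) * (2 * ζ m c₀) *
          ((∑ i ∈ Finset.range m, v i / ζ i c₀) + v m / ζ m c₀)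
        field_simp
    exact h2 n le_rfl
  have hzero : (∏ i ∈ Finset.range n, 2 * z i) * ∑ i ∈ Finset.range n, v i / z i = 0 :=
    hprod.unique hd
  have hzero' : ∑ i ∈ Finset.range n, v i / z i = 0 :=
    (mul_eq_zero.1 hzero).resolve_left hne
  refine mass_contra hn hz hzn hg hgn h0 (hsum.trans hzero') ?_
  have h5 : ∏ j ∈ Finset.range n, (2 * ‖z j‖) = ‖∏ i ∈ Finset.range n, 2 * ζ i c₀‖ := by
    rw [norm_prod]
    refine Finset.prod_congr rfl fun i _ => ?_
    rw [norm_mul]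
    norm_num [hzdef]
  rw [h5]
  exact hle

/-- **Transversality**: if `b c` is a fixed point of the `n`-th iterate of `z ^ 2 + c`, depending
differentiably on `c`, and its multiplier at `c₀` is `≠ 0, 1` and of modulus at most one, then the
derivative of the multiplier with respect to the parameter is not zero. -/
theorem transversality {n : ℕ} (hn : 0 < n) {c₀ : ℂ} {b : ℂ → ℂ} (hb : DifferentiableAt ℂ b c₀)
    (hfix : ∀ᶠ c in 𝓝 c₀, (fun w : ℂ => w ^ 2 + c)^[n] (b c) = b c)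
    (hne : ∏ i ∈ Finset.range n, 2 * (fun w : ℂ => w ^ 2 + c₀)^[i] (b c₀) ≠ 0)
    (h1 : ∏ i ∈ Finset.range n, 2 * (fun w : ℂ => w ^ 2 + c₀)^[i] (b c₀) ≠ 1)
    (hle : ‖∏ i ∈ Finset.range n, 2 * (fun w : ℂ => w ^ 2 + c₀)^[i] (b c₀)‖ ≤ 1) :
    deriv (fun c => ∏ i ∈ Finset.range n, 2 * (fun w : ℂ => w ^ 2 + c)^[i] (b c)) c₀ ≠ 0 := by
  intro hderiv
  set ζ : ℕ → ℂ → ℂ := fun i c => (fun w : ℂ => w ^ 2 + c)^[i] (b c) with hζdef
  have hrec : ∀ i c, ζ (i + 1) c = ζ i c ^ 2 + c := fun i c =>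
    Function.iterate_succ_apply' _ _ _
  have hdiff : ∀ i, DifferentiableAt ℂ (ζ i) c₀ := by
    intro i
    induction i with
    | zero => exact hb
    | succ i ih =>
      have h2 : ζ (i + 1) = fun c => ζ i c ^ 2 + c := funext fun c => hrec i c
      rw [h2]
      exact (ih.pow 2).add differentiableAt_id
  have hd : DifferentiableAt ℂ (fun c => ∏ i ∈ Finset.range n, 2 * ζ i c) c₀ := by
    refine DifferentiableAt.fun_finsetProd fun i _ => ?_
    exact (hdiff i).const_mul 2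
  have hd' : HasDerivAt (fun c => ∏ i ∈ Finset.range n, 2 * ζ i c) 0 c₀ := by
    have h2 := hd.hasDerivAt
    rwa [hderiv] at h2
  exact transversality' hn (fun i => (hdiff i).hasDerivAt)
    (fun i => Filter.Eventually.of_forall fun c => hrec i c) hfix hne h1 hle hd'

end Pool.Agent.Work.MLC.Trans
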