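import Pool.Agent.Work.MLC.Green
import Pool.Agent.Work.MLC.Deg34
import Pool.Agent.Work.MLC.Trans

set_option autoImplicit false

/-! # The curve of points of period dividing `n`: charts, properness, non-constancy of the
multiplier, openness (helper57) -/

namespace Pool.Agent.Work.MLC

open Filter Topology Metric Set
open scoped ContDiff

/-- the points of period dividing `n` -/
def Per (n : ℕ) : Set (ℂ × ℂ) := {x | it x.1 n x.2 = x.2}

/-- the multiplier `(f_c ^ n)'(b)` at `x = (c, b)` -/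
noncomputable def mul (n : ℕ) (x : ℂ × ℂ) : ℂ := ∏ i ∈ Finset.range n, 2 * it x.1 i x.2

lemma isClosed_Per (n : ℕ) : IsClosed (Per n) :=
  isClosed_eq (continuous_it n) continuous_snd

@[fun_prop] lemma continuous_mul' (n : ℕ) : Continuous (mul n) := by
  unfold mul
  exact continuous_finsetProd _ fun i _ => continuous_const.mul (continuous_it i)

lemma hasDerivAt_it (c : ℂ) (n : ℕ) (z : ℂ) : HasDerivAt (it c n) (mul n (c, z)) z := by
  induction n with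
  | zero =>
    have h : it c 0 = fun z => z := rfl
    rw [h]
    simpa only [mul, Finset.range_zero, Finset.prod_empty] using hasDerivAt_id' z
  | succ n ih =>
    have h1 : it c (n + 1) = fun z => (it c n z) ^ 2 + c := by
      funext z; rw [it_succ]; rfl
    rw [h1, mul, Finset.prod_range_succ]
    refine ((ih.pow 2).add_const c).congr_deriv ?_
    simp only [mul]
    push_cast
    ring

lemma contDiff_it (n : ℕ) : ContDiff ℂ ω fun p : ℂ × ℂ => it p.1 n p.2 := by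
  induction n with
  | zero => exact contDiff_snd
  | succ n ih =>
    have : (fun p : ℂ × ℂ => it p.1 (n + 1) p.2) = fun p => (it p.1 n p.2) ^ 2 + p.1 := by
      funext p; rw [it_succ]; rfl
    rw [this]
    exact (ih.pow 2).add contDiff_fst

lemma contDiff_mul (n : ℕ) : ContDiff ℂ ω (mul n) := by
  unfold mul
  exact contDiff_prod fun i _ => contDiff_const.mul (contDiff_it i)

/-- local parametrisation of the curve by the parameter -/
theorem chart {n : ℕ} {x₀ : ℂ × ℂ} (hx : x₀ ∈ Per n) (hρ : mul n x₀ ≠ 1) :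
    ∃ β : ℂ → ℂ, AnalyticAt ℂ β x₀.1 ∧ β x₀.1 = x₀.2 ∧
      ∀ᶠ x in 𝓝 x₀, x ∈ Per n ↔ β x.1 = x.2 := by
  set F : ℂ × ℂ → ℂ := fun p => it p.1 n p.2 - p.2 with hF
  have hFc : ContDiff ℂ ω F := (contDiff_it n).sub contDiff_snd
  have hcd : ContDiffAt ℂ ω F x₀ := hFc.contDiffAt
  have hω : (ω : ℕ∞ω) ≠ 0 := by simp
  have hd : HasFDerivAt F (fderiv ℂ F x₀) x₀ :=
    (hFc.differentiable (by simp)).differentiableAt.hasFDerivAt
  have h1 : HasDerivAt (fun z => F (x₀.1, z)) (mul n x₀ - 1) x₀.2 := by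
    exact (hasDerivAt_it x₀.1 n x₀.2).sub (hasDerivAt_id' x₀.2)
  have h2 : HasFDerivAt (fun z => F (x₀.1, z))
      ((fderiv ℂ F x₀) ∘L (.inr ℂ ℂ ℂ)) x₀.2 := by
    have h3 : HasFDerivAt (fun z : ℂ => ((x₀.1, z) : ℂ × ℂ)) (.inr ℂ ℂ ℂ) x₀.2 :=
      hasFDerivAt_prodMk_right x₀.1 x₀.2
    exact HasFDerivAt.comp x₀.2 (f := fun z : ℂ => ((x₀.1, z) : ℂ × ℂ)) hd h3
  have hne : mul n x₀ - 1 ≠ 0 := sub_ne_zero.2 hρ
  have h4 : (fderiv ℂ F x₀) ∘L (.inr ℂ ℂ ℂ) =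
      ((ContinuousLinearEquiv.unitsEquivAut ℂ (Units.mk0 _ hne) : ℂ ≃L[ℂ] ℂ) : ℂ →L[ℂ] ℂ) := by
    rw [h2.unique h1.hasFDerivAt]
    ext
    simp [ContinuousLinearEquiv.unitsEquivAut]
  have hinv : ((fderiv ℂ F x₀) ∘L (.inr ℂ ℂ ℂ)).IsInvertible := ⟨_, h4.symm⟩
  have hF0 : F x₀ = 0 := sub_eq_zero.2 hx
  refine ⟨hcd.implicitFunction hω hinv, ?_, hcd.implicitFunction_apply_self hω hinv, ?_⟩
  · exact (hcd.contDiffAt_implicitFunction hω hinv).analyticAt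
  · filter_upwards [hcd.eventually_apply_eq_iff_implicitFunction hω hinv] with v hv
    rw [← hv, hF0]
    simp only [hF, sub_eq_zero]
    rfl

/-! ### boundedness -/

lemma Per_orbit {n : ℕ} {x : ℂ × ℂ} (hx : x ∈ Per n) (i : ℕ) :
    it x.1 (i + n) x.2 = it x.1 i x.2 := by
  rw [it_add, hx]

lemma Per_bdd {n : ℕ} (hn : 0 < n) {x : ℂ × ℂ} (hx : x ∈ Per n) (hm : ‖mul n x‖ < 23 / 10) :
    ‖x.1‖ ≤ 4 ∧ ‖x.2‖ ≤ 3 := by
  obtain ⟨j, hj, hmax⟩ := Finset.exists_max_image (Finset.range n) (fun i => ‖it x.1 i x.2‖)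
    ⟨0, Finset.mem_range.2 hn⟩
  set m : ℝ := ‖it x.1 j x.2‖ with hmdef
  set C : ℝ := ‖x.1‖ with hC
  have hm0 : 0 ≤ m := norm_nonneg _
  have hle : ∀ i ≤ n, ‖it x.1 i x.2‖ ≤ m := by
    intro i hi
    rcases hi.lt_or_eq with h | h
    · exact hmax i (Finset.mem_range.2 h)
    · have h1 : it x.1 i x.2 = it x.1 0 x.2 := by rw [h, it_zero]; exact hx
      rw [h1]
      exact hmax 0 (Finset.mem_range.2 hn)
  have hrec : ∀ i, it x.1 (i + 1) x.2 = it x.1 i x.2 ^ 2 + x.1 := fun i => by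
    rw [it_succ]; rfl
  have h1 : m ^ 2 ≤ m + C := by
    have h2 : it x.1 j x.2 ^ 2 = it x.1 (j + 1) x.2 - x.1 := by rw [hrec]; ring
    have h3 : m ^ 2 = ‖it x.1 (j + 1) x.2 - x.1‖ := by rw [← h2, norm_pow]
    rw [h3]
    have h4 := hle (j + 1) (by have := Finset.mem_range.1 hj; omega)
    exact (norm_sub_le _ _).trans (by linarith)
  have hC4 : C ≤ 4 := by
    by_contra hcon
    push Not at hcon
    have h2 : (14 : ℝ) / 10 ≤ C - m := by
      by_contra h3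
      push Not at h3
      nlinarith
    have h3 : ∀ i ∈ Finset.range n, (23 : ℝ) / 10 ≤ ‖2 * it x.1 i x.2‖ := by
      intro i hi
      have h4 : x.1 = it x.1 (i + 1) x.2 - it x.1 i x.2 ^ 2 := by rw [hrec]; ring
      have h5 : C ≤ ‖it x.1 (i + 1) x.2‖ + ‖it x.1 i x.2‖ ^ 2 := by
        rw [hC]
        calc ‖x.1‖ = ‖it x.1 (i + 1) x.2 - it x.1 i x.2 ^ 2‖ := by rw [← h4]
          _ ≤ _ := by rw [← norm_pow]; exact norm_sub_le _ _
      have h6 := hle (i + 1) (by have := Finset.mem_range.1 hi; omega)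
      rw [norm_mul]
      have h7 : ‖(2 : ℂ)‖ = 2 := by simp
      rw [h7]
      have h8 : (14 : ℝ) / 10 ≤ ‖it x.1 i x.2‖ ^ 2 := by linarith
      have h9 := norm_nonneg (it x.1 i x.2)
      nlinarith
    have h4 : (23 : ℝ) / 10 ≤ ‖mul n x‖ := by
      unfold mul
      rw [norm_prod]
      calc (23 : ℝ) / 10 ≤ ((23 : ℝ) / 10) ^ n := by
            calc (23 : ℝ) / 10 = ((23 : ℝ) / 10) ^ 1 := by norm_num
              _ ≤ _ := pow_le_pow_right₀ (by norm_num) hn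
        _ = ∏ i ∈ Finset.range n, (23 : ℝ) / 10 := by rw [Finset.prod_const, Finset.card_range]
        _ ≤ _ := Finset.prod_le_prod (fun _ _ => by norm_num) h3
    linarith
  refine ⟨hC4, ?_⟩
  have h2 : ‖x.2‖ ≤ m := by simpa using hle 0 (by omega)
  have h3 : m ≤ 3 := by nlinarith
  linarith

/-- the part of the curve with `‖multiplier‖ ≤ s < 2.3` is compact -/
lemma isCompact_Per {n : ℕ} (hn : 0 < n) {K : Set ℂ} (hK : IsClosed K)
    (hK' : ∀ l ∈ K, ‖l‖ < 23 / 10) : IsCompact (Per n ∩ mul n ⁻¹' K) := by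
  refine Metric.isCompact_of_isClosed_isBounded
    ((isClosed_Per n).inter (hK.preimage (continuous_mul' n))) ?_
  refine (Metric.isBounded_closedBall (x := (0 : ℂ × ℂ)) (r := 4)).subset ?_
  rintro x ⟨hx, hx'⟩
  obtain ⟨h1, h2⟩ := Per_bdd hn hx (hK' _ hx')
  rw [mem_closedBall, dist_zero_right, Prod.norm_def]
  exact max_le h1 (by linarith)

/-! ### the multiplier is not locally constant -/

/-- the multiplier in a chart -/
lemma chart_mul {n : ℕ} {x₀ : ℂ × ℂ} {β : ℂ → ℂ} (hβ : AnalyticAt ℂ β x₀.1) :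
    AnalyticAt ℂ (fun c => mul n (c, β c)) x₀.1 := by
  have h1 : AnalyticAt ℂ (mul n) (x₀.1, β x₀.1) := (contDiff_mul n).contDiffAt.analyticAt
  exact h1.comp₂ analyticAt_id hβ

lemma chart_tendsto {x₀ : ℂ × ℂ} {β : ℂ → ℂ} (hβ : AnalyticAt ℂ β x₀.1) (h0 : β x₀.1 = x₀.2) :
    Tendsto (fun c => ((c, β c) : ℂ × ℂ)) (𝓝 x₀.1) (𝓝 x₀) := by
  have h1 : ContinuousAt (fun c => ((c, β c) : ℂ × ℂ)) x₀.1 :=
    continuousAt_id.prodMk hβ.continuousAt
  have h2 : x₀ = (x₀.1, β x₀.1) := by rw [h0]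
  rw [ContinuousAt] at h1
  rwa [← h2] at h1

theorem mul_not_locally_const {n : ℕ} (hn : 0 < n) {x₀ : ℂ × ℂ} (hx₀ : x₀ ∈ Per n)
    (h1 : mul n x₀ ≠ 1) (h2 : ‖mul n x₀‖ < 23 / 10) :
    ¬ ∀ᶠ x in 𝓝 x₀, x ∈ Per n → mul n x = mul n x₀ := by
  intro hconst
  set l : ℂ := mul n x₀ with hl
  set A : Set (ℂ × ℂ) := {x | x ∈ Per n ∧ ∀ᶠ y in 𝓝 x, y ∈ Per n → mul n y = l} with hA
  have hAl : ∀ x ∈ A, mul n x = l := fun x hx => hx.2.self_of_nhds hx.1
  have hAcl : IsClosed A := by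
    rw [← closure_subset_iff_isClosed]
    intro x hx
    by_contra hxA
    have hxP : x ∈ Per n := by
      have : x ∈ closure (Per n) := closure_mono (fun y hy => hy.1) hx
      rwa [(isClosed_Per n).closure_eq] at this
    have hxl : mul n x = l := by
      have h3 : closure A ⊆ {y | mul n y = l} :=
        closure_minimal hAl (isClosed_eq (continuous_mul' n) continuous_const)
      exact h3 hx
    obtain ⟨β, hβ, hβ0, hβe⟩ := chart hxP (by rw [hxl]; exact h1)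
    have hg := chart_mul (n := n) (x₀ := x) hβ
    have hfreq : ∃ᶠ c in 𝓝[≠] x.1, mul n (c, β c) = l := by
      rw [frequently_nhdsWithin_iff, frequently_iff]
      intro U hU
      have h3 : ∀ᶠ y in 𝓝 x, y.1 ∈ U ∧ (y ∈ Per n ↔ β y.1 = y.2) :=
        (continuous_fst.continuousAt.eventually hU).and hβe
      obtain ⟨y, hy, hyA⟩ := mem_closure_iff_nhds.1 hx _ h3
      refine ⟨y.1, hy.1, ?_, ?_⟩
      · have h4 := hy.2.1 hyA.1
        have h5 : ((y.1, β y.1) : ℂ × ℂ) = y := by rw [h4]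
        rw [h5]
        exact hAl y hyA
      · intro hyx
        have h4 := hy.2.1 hyA.1
        have h5 : y = x := by
          have h6 : y.1 = x.1 := hyx
          ext1
          · exact h6
          · rw [← h4, h6, hβ0]
        exact hxA (h5 ▸ hyA)
    have h3 : ∀ᶠ c in 𝓝 x.1, mul n (c, β c) = l := by
      have h4 := (hg.frequently_eq_iff_eventually_eq analyticAt_const).1 hfreq
      exact h4
    refine hxA ⟨hxP, ?_⟩
    filter_upwards [continuous_fst.continuousAt.eventually h3, hβe] with y hy1 hy2 hy3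
    have h4 := hy2.1 hy3
    have h5 : ((y.1, β y.1) : ℂ × ℂ) = y := by rw [h4]
    rw [h5] at hy1
    exact hy1
  have hAc : IsCompact A := by
    refine (isCompact_Per hn (K := {l}) isClosed_singleton (by
      intro l' hl'; rw [mem_singleton_iff] at hl'; rw [hl']; exact h2)).of_isClosed_subset hAcl ?_
    intro x hx
    exact ⟨hx.1, hAl x hx⟩
  have hAne : A.Nonempty := ⟨x₀, hx₀, hconst⟩
  obtain ⟨x, hx, hmax⟩ := hAc.exists_isMaxOn hAne
    (Complex.continuous_re.comp continuous_fst).continuousOn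
  obtain ⟨β, hβ, hβ0, hβe⟩ := chart hx.1 (by rw [hAl x hx]; exact h1)
  have h3 : ∀ᶠ c in 𝓝 x.1, ((c, β c) : ℂ × ℂ) ∈ A := by
    have ht := chart_tendsto hβ hβ0
    have h4 : ∀ᶠ y in 𝓝 x, (y ∈ Per n ↔ β y.1 = y.2) ∧
        ∀ᶠ z in 𝓝 y, z ∈ Per n → mul n z = l := hβe.and hx.2.eventually_nhds
    filter_upwards [ht.eventually h4] with c hc
    exact ⟨hc.1.2 rfl, hc.2⟩
  have h4 : ∃ᶠ c in 𝓝 x.1, x.1.re < c.re := by
    rw [frequently_iff]
    intro U hU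
    obtain ⟨ε, hε, hεU⟩ := Metric.mem_nhds_iff.1 hU
    refine ⟨x.1 + (ε / 2 : ℝ), hεU ?_, ?_⟩
    · rw [mem_ball, dist_eq_norm, add_sub_cancel_left, Complex.norm_real, Real.norm_eq_abs,
        abs_of_pos (by linarith)]
      linarith
    · simp only [Complex.add_re, Complex.ofReal_re]
      linarith
  obtain ⟨c, hc1, hc2⟩ := (h4.and_eventually h3).exists
  have h5 := hmax hc2
  simp only [mem_ofPred_eq, Function.comp_apply] at h5
  linarith

/-! ### openness and the alternative at critical points -/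

/-- the multiplier is locally injective on the curve at `x` -/
def LocInj (n : ℕ) (x : ℂ × ℂ) : Prop := ∃ N ∈ 𝓝 x, InjOn (mul n) (N ∩ Per n)

lemma LocInj.eventually {n : ℕ} {x : ℂ × ℂ} (h : LocInj n x) : ∀ᶠ y in 𝓝 x, LocInj n y := by
  obtain ⟨N, hN, hi⟩ := h
  filter_upwards [eventually_eventually_nhds.2 hN] with y hy
  exact ⟨N, hy, hi⟩

lemma deriv_alt {g : ℂ → ℂ} {z : ℂ} (hg : AnalyticAt ℂ g z) (hnc : ¬ ∀ᶠ u in 𝓝 z, g u = g z) :
    ∀ᶠ u in 𝓝[≠] z, deriv g u ≠ 0 := by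
  rcases hg.deriv.eventually_eq_zero_or_eventually_ne_zero with h | h
  · exfalso
    apply hnc
    obtain ⟨ε, hε, hε'⟩ := Metric.eventually_nhds_iff_ball.1 (h.and hg.eventually_analyticAt)
    filter_upwards [Metric.ball_mem_nhds z hε] with u hu
    refine (convex_ball z ε).is_const_of_fderivWithin_eq_zero (𝕜 := ℂ) (f := g)
      (fun w hw => (hε' w hw).2.differentiableAt.differentiableWithinAt) ?_ hu
      (mem_ball_self hε)
    intro w hw
    rw [fderivWithin_of_isOpen isOpen_ball hw]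
    ext
    simp [(hε' w hw).1]
  · exact h

lemma local_alt {g : ℂ → ℂ} {z : ℂ} (hg : AnalyticAt ℂ g z)
    (hnc : ¬ ∀ᶠ u in 𝓝 z, g u = g z) :
    (∃ N ∈ 𝓝 z, InjOn g N) ∨
      ∀ N ∈ 𝓝 z, ∀ᶠ w in 𝓝[≠] (g z), ∃ a ∈ N, ∃ b ∈ N, a ≠ b ∧ g a = w ∧ g b = w := by
  by_cases hm : MLC34.mult g z = 1
  · left
    have hd := MLC34.deriv_ne_zero_of_mult hg hm
    have hs := hg.hasStrictDerivAt.hasStrictFDerivAt_equiv hd
    refine ⟨(hs.toOpenPartialHomeomorph g).source,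
      (hs.toOpenPartialHomeomorph g).open_source.mem_nhds hs.mem_toOpenPartialHomeomorph_source, ?_⟩
    have := (hs.toOpenPartialHomeomorph g).injOn
    rwa [HasStrictFDerivAt.toOpenPartialHomeomorph_coe] at this
  · right
    intro N hN
    have hm0 := MLC34.mult_pos hg hnc
    have hd := deriv_alt hg hnc
    have hN' : N ∩ {u | AnalyticAt ℂ g u ∧ (u ≠ z → deriv g u ≠ 0)} ∈ 𝓝 z := by
      refine inter_mem hN ?_
      rw [eventually_nhdsWithin_iff] at hd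
      filter_upwards [hd, hg.eventually_analyticAt] with u h1 h2
      exact ⟨h2, h1⟩
    obtain ⟨U, hU, hzU, hUN, W, hW, hS⟩ := MLC34.local_count hg hnc hN'
    filter_upwards [mem_nhdsWithin_of_mem_nhds hW, self_mem_nhdsWithin] with w hw hwz
    obtain ⟨S, hS1, hS2⟩ := hS w hw
    have h1 : ∀ u ∈ S, MLC34.mult g u = 1 := by
      intro u hu
      have h2 := (hS1 u).1 hu
      have h3 := (hUN h2.1).2
      refine MLC34.mult_eq_one h3.1 (h3.2 ?_)
      rintro rfl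
      exact hwz h2.2.symm
    have h2 : S.card = MLC34.mult g z := by
      rw [← hS2, Finset.sum_congr rfl h1]
      simp
    have h3 : 1 < S.card := by omega
    obtain ⟨a, ha, b, hb, hab⟩ := Finset.one_lt_card.1 h3
    have ha' := (hS1 a).1 ha
    have hb' := (hS1 b).1 hb
    exact ⟨a, (hUN ha'.1).1, b, (hUN hb'.1).1, hab, ha'.2, hb'.2⟩

/-- a good chart: the multiplier in the chart is analytic and not locally constant -/
theorem good_chart {n : ℕ} (hn : 0 < n) {x₀ : ℂ × ℂ} (hx : x₀ ∈ Per n) (h1 : mul n x₀ ≠ 1)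
    (h2 : ‖mul n x₀‖ < 23 / 10) :
    ∃ β : ℂ → ℂ, AnalyticAt ℂ β x₀.1 ∧ β x₀.1 = x₀.2 ∧
      (∀ᶠ x in 𝓝 x₀, x ∈ Per n ↔ β x.1 = x.2) ∧
      AnalyticAt ℂ (fun c => mul n (c, β c)) x₀.1 ∧
      ¬ ∀ᶠ c in 𝓝 x₀.1, mul n (c, β c) = mul n (x₀.1, β x₀.1) := by
  obtain ⟨β, hβ, hβ0, hβe⟩ := chart hx h1
  refine ⟨β, hβ, hβ0, hβe, chart_mul hβ, fun hcon => ?_⟩
  refine mul_not_locally_const hn hx h1 h2 ?_
  have h3 : x₀ = (x₀.1, β x₀.1) := by rw [hβ0]
  filter_upwards [continuous_fst.continuousAt.eventually hcon, hβe] with x h4 h5 h6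
  have h7 : ((x.1, β x.1) : ℂ × ℂ) = x := by rw [h5.1 h6]
  rw [h7, ← h3] at h4
  exact h4

/-- the multiplier is open on the curve -/
theorem mul_open {n : ℕ} (hn : 0 < n) {x₀ : ℂ × ℂ} (hx : x₀ ∈ Per n) (h1 : mul n x₀ ≠ 1)
    (h2 : ‖mul n x₀‖ < 23 / 10) {N : Set (ℂ × ℂ)} (hN : N ∈ 𝓝 x₀) :
    ∀ᶠ w in 𝓝 (mul n x₀), ∃ x ∈ N ∩ Per n, mul n x = w := by
  obtain ⟨β, hβ, hβ0, hβe, hg, hnc⟩ := good_chart hn hx h1 h2
  have h3 : ((x₀.1, β x₀.1) : ℂ × ℂ) = x₀ := by rw [hβ0]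
  have ht := chart_tendsto hβ hβ0
  have h4 : {c | (c, β c) ∈ N ∩ Per n} ∈ 𝓝 x₀.1 := by
    filter_upwards [ht.eventually hN, ht.eventually hβe] with c h5 h6
    exact ⟨h5, h6.2 rfl⟩
  rcases hg.eventually_constant_or_nhds_le_map_nhds with h5 | h5
  · exact absurd h5 hnc
  · simp only [h3] at h5
    have h6 := h5 (image_mem_map h4)
    filter_upwards [h6] with w hw
    obtain ⟨c, hc, rfl⟩ := hw
    exact ⟨_, hc, rfl⟩

/-- the alternative for the multiplier on the curve -/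
theorem mul_alt {n : ℕ} (hn : 0 < n) {x₀ : ℂ × ℂ} (hx : x₀ ∈ Per n) (h1 : mul n x₀ ≠ 1)
    (h2 : ‖mul n x₀‖ < 23 / 10) :
    LocInj n x₀ ∨ ∀ N ∈ 𝓝 x₀, ∀ᶠ w in 𝓝[≠] (mul n x₀), ∃ a ∈ N ∩ Per n, ∃ b ∈ N ∩ Per n,
      a ≠ b ∧ mul n a = w ∧ mul n b = w := by
  obtain ⟨β, hβ, hβ0, hβe, hg, hnc⟩ := good_chart hn hx h1 h2
  have h3 : ((x₀.1, β x₀.1) : ℂ × ℂ) = x₀ := by rw [hβ0]
  have ht := chart_tendsto hβ hβ0
  rcases local_alt hg hnc with ⟨N, hN, hi⟩ | h4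
  · left
    refine ⟨{x | x.1 ∈ N ∧ (x ∈ Per n ↔ β x.1 = x.2)},
      (continuous_fst.continuousAt.eventually hN).and hβe, ?_⟩
    rintro a ⟨⟨ha1, ha2⟩, ha3⟩ b ⟨⟨hb1, hb2⟩, hb3⟩ hab
    have ha : ((a.1, β a.1) : ℂ × ℂ) = a := by rw [ha2.1 ha3]
    have hb : ((b.1, β b.1) : ℂ × ℂ) = b := by rw [hb2.1 hb3]
    have h5 : a.1 = b.1 := hi ha1 hb1 (by simp only [ha, hb]; exact hab)
    rw [← ha, ← hb, h5]
  · right
    intro N hN
    have h5 : {c | (c, β c) ∈ N ∩ Per n} ∈ 𝓝 x₀.1 := by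
      filter_upwards [ht.eventually hN, ht.eventually hβe] with c h5 h6
      exact ⟨h5, h6.2 rfl⟩
    have h6 := h4 _ h5
    simp only [h3] at h6
    filter_upwards [h6] with w hw
    obtain ⟨a, ha, b, hb, hab, h7, h8⟩ := hw
    exact ⟨_, ha, _, hb, fun h => hab (congrArg Prod.fst h), h7, h8⟩

/-- in a chart at a point of local injectivity the derivative of the multiplier is not zero -/
theorem LocInj.chart {n : ℕ} (hn : 0 < n) {x₀ : ℂ × ℂ} (hx : x₀ ∈ Per n) (h1 : mul n x₀ ≠ 1)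
    (h2 : ‖mul n x₀‖ < 23 / 10) (hi : LocInj n x₀) :
    ∃ β : ℂ → ℂ, AnalyticAt ℂ β x₀.1 ∧ β x₀.1 = x₀.2 ∧
      (∀ᶠ x in 𝓝 x₀, x ∈ Per n ↔ β x.1 = x.2) ∧
      AnalyticAt ℂ (fun c => mul n (c, β c)) x₀.1 ∧
      deriv (fun c => mul n (c, β c)) x₀.1 ≠ 0 := by
  obtain ⟨β, hβ, hβ0, hβe, hg, hnc⟩ := good_chart hn hx h1 h2
  refine ⟨β, hβ, hβ0, hβe, hg, ?_⟩
  have h3 : ((x₀.1, β x₀.1) : ℂ × ℂ) = x₀ := by rw [hβ0]
  have ht := chart_tendsto hβ hβ0
  refine MLC34.deriv_ne_zero_of_mult hg ?_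
  obtain ⟨N, hN, hinj⟩ := hi
  have h5 : {c | (c, β c) ∈ N ∩ Per n} ∈ 𝓝 x₀.1 := by
    filter_upwards [ht.eventually hN, ht.eventually hβe] with c h5 h6
    exact ⟨h5, h6.2 rfl⟩
  by_contra hm
  have hm0 := MLC34.mult_pos hg hnc
  have hd := deriv_alt hg hnc
  have hN' : {c | (c, β c) ∈ N ∩ Per n} ∩ {u | AnalyticAt ℂ (fun c => mul n (c, β c)) u ∧
      (u ≠ x₀.1 → deriv (fun c => mul n (c, β c)) u ≠ 0)} ∈ 𝓝 x₀.1 := by
    refine inter_mem h5 ?_
    rw [eventually_nhdsWithin_iff] at hd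
    filter_upwards [hd, hg.eventually_analyticAt] with u h1 h2
    exact ⟨h2, h1⟩
  obtain ⟨U, hU, hzU, hUN, W, hW, hS⟩ := MLC34.local_count hg hnc hN'
  have hne : ∃ᶠ w in 𝓝 (mul n (x₀.1, β x₀.1)), w ≠ mul n (x₀.1, β x₀.1) := by
    have h6 : ∃ᶠ w in 𝓝[≠] (mul n (x₀.1, β x₀.1)), True := by
      rw [frequently_true_iff_neBot]; infer_instance
    rw [frequently_nhdsWithin_iff] at h6
    exact h6.mono fun w hw => hw.2
  obtain ⟨w, hw1, hw2⟩ := (hne.and_eventually hW).exists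
  obtain ⟨S, hS1, hS2⟩ := hS w hw2
  have h6 : ∀ u ∈ S, MLC34.mult (fun c => mul n (c, β c)) u = 1 := by
    intro u hu
    have h7 := (hS1 u).1 hu
    have h8 := (hUN h7.1).2
    refine MLC34.mult_eq_one h8.1 (h8.2 ?_)
    rintro rfl
    exact hw1 h7.2.symm
  have h7 : S.card = MLC34.mult (fun c => mul n (c, β c)) x₀.1 := by
    rw [← hS2, Finset.sum_congr rfl h6]
    simp
  have h8 : 1 < S.card := by omega
  obtain ⟨a, ha, b, hb, hab⟩ := Finset.one_lt_card.1 h8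
  have ha' := (hS1 a).1 ha
  have hb' := (hS1 b).1 hb
  exact hab (congrArg Prod.fst (hinj (hUN ha'.1).1 (hUN hb'.1).1 (ha'.2.trans hb'.2.symm)))

theorem LocInj.of_deriv {n : ℕ} {x₀ : ℂ × ℂ} {β : ℂ → ℂ}
    (hβe : ∀ᶠ x in 𝓝 x₀, x ∈ Per n ↔ β x.1 = x.2)
    (hg : AnalyticAt ℂ (fun c => mul n (c, β c)) x₀.1)
    (hd : deriv (fun c => mul n (c, β c)) x₀.1 ≠ 0) : LocInj n x₀ := by
  have hs := hg.hasStrictDerivAt.hasStrictFDerivAt_equiv hd
  set N : Set ℂ := (hs.toOpenPartialHomeomorph _).source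
  have hN : N ∈ 𝓝 x₀.1 :=
    (hs.toOpenPartialHomeomorph _).open_source.mem_nhds hs.mem_toOpenPartialHomeomorph_source
  have hi : InjOn (fun c => mul n (c, β c)) N := by
    have := (hs.toOpenPartialHomeomorph _).injOn
    rwa [HasStrictFDerivAt.toOpenPartialHomeomorph_coe] at this
  refine ⟨{x | x.1 ∈ N ∧ (x ∈ Per n ↔ β x.1 = x.2)},
    (continuous_fst.continuousAt.eventually hN).and hβe, ?_⟩
  rintro a ⟨⟨ha1, ha2⟩, ha3⟩ b ⟨⟨hb1, hb2⟩, hb3⟩ hab
  have ha : ((a.1, β a.1) : ℂ × ℂ) = a := by rw [ha2.1 ha3]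
  have hb : ((b.1, β b.1) : ℂ × ℂ) = b := by rw [hb2.1 hb3]
  have h5 : a.1 = b.1 := hi ha1 hb1 (by simp only [ha, hb]; exact hab)
  rw [← ha, ← hb, h5]

/-- transversality: local injectivity at non-repelling points -/
theorem locInj_of_le {n : ℕ} (hn : 0 < n) {x₀ : ℂ × ℂ} (hx : x₀ ∈ Per n) (h1 : mul n x₀ ≠ 1)
    (h0 : mul n x₀ ≠ 0) (h2 : ‖mul n x₀‖ ≤ 1) : LocInj n x₀ := by
  have h23 : ‖mul n x₀‖ < 23 / 10 := by linarith
  obtain ⟨β, hβ, hβ0, hβe, hg, hnc⟩ := good_chart hn hx h1 h23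
  have h3 : ((x₀.1, β x₀.1) : ℂ × ℂ) = x₀ := by rw [hβ0]
  have ht := chart_tendsto hβ hβ0
  have hit : ∀ c z i, (fun w : ℂ => w ^ 2 + c)^[i] z = it c i z := fun c z i => rfl
  have hmul : ∀ c, ∏ i ∈ Finset.range n, 2 * (fun w : ℂ => w ^ 2 + c)^[i] (β c) =
      mul n (c, β c) := fun c => rfl
  have h4 := Trans.transversality hn hβ.differentiableAt
    (by
      filter_upwards [ht.eventually hβe] with c hc
      exact hc.2 rfl)
    (by rw [hmul, h3]; exact h0) (by rw [hmul, h3]; exact h1) (by rw [hmul, h3]; exact h2)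
  have h5 : deriv (fun c => mul n (c, β c)) x₀.1 ≠ 0 := h4
  exact LocInj.of_deriv hβe hg h5

end Pool.Agent.Work.MLC
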