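import Pool.Agent.Work.MLC.Circle

/-!
THEOREM CUT (helper73): a primitive component of period `n` with the wake `(a, b)` lies in the
`1/2`-limb of a component of period `N = n j + P` whose wake is contained in
`(a - 2^-n, b + 2^-n)`.  Everything is a statement about the monotone degree one maps `gw`.
-/

set_option autoImplicit false
set_option linter.unusedSectionVars false

namespace Pool.Agent.Work.MLC.Circ

open Set Filter Topology CircleDeg1Lift

/-! ### Generalities -/

theorem tdbl_cases (s x : ℝ) :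
    (∃ k : ℤ, s / 2 + k ≤ x ∧ x ≤ s / 2 + k + 1 / 2 ∧ tdbl s x = 2 * x - k) ∨
    (∃ k : ℤ, s / 2 + k + 1 / 2 < x ∧ x < s / 2 + k + 1 ∧ tdbl s x = s + k + 1) := by
  have h1 := Int.floor_le (x - s / 2)
  have h2 := Int.lt_floor_add_one (x - s / 2)
  rcases le_or_gt x (s / 2 + ⌊x - s / 2⌋ + 1 / 2) with h | h
  · exact Or.inl ⟨⌊x - s / 2⌋, by linarith, h, tdbl_lin _ (by linarith) h⟩
  · exact Or.inr ⟨⌊x - s / 2⌋, h, by linarith, tdbl_flat _ h.le (by linarith)⟩

/-- the orbit of `t` under doubling, modulo the integers -/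
def Orb (t x : ℝ) : Prop := ∃ (i : ℕ) (z : ℤ), x = 2 ^ i * t + z

theorem Orb.add_int {t x : ℝ} (h : Orb t x) (m : ℤ) : Orb t (x + m) := by
  obtain ⟨i, z, rfl⟩ := h
  exact ⟨i, z + m, by push_cast; ring⟩

theorem Orb.tdbl {t x : ℝ} (h : Orb t x) (m : ℤ) : Orb t (tdbl (t + m) x) := by
  rcases tdbl_cases (t + m) x with ⟨k, -, -, e⟩ | ⟨k, -, -, e⟩
  · obtain ⟨i, z, rfl⟩ := h
    exact ⟨i + 1, 2 * z - k, by rw [e]; push_cast; ring⟩
  · exact ⟨0, m + k + 1, by rw [e]; push_cast; ring⟩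

theorem Orb.gw {t x : ℝ} (h : Orb t x) (w : ℕ → ℤ) (i : ℕ) : Orb t (gw w t i x) := by
  induction i with
  | zero => exact h
  | succ i ih => rw [gw_succ_apply]; exact ih.tdbl _

/-- all letters linear: the value is `2 ^ i x` modulo integers -/
theorem gw_int_of_lin {w : ℕ → ℤ} {θ x : ℝ} {n : ℕ}
    (h : ∀ i < n, InHalf (θ + w i) (gw w θ i x)) (i : ℕ) (hi : i ≤ n) :
    ∃ z : ℤ, gw w θ i x = 2 ^ i * x + z := by
  induction i with
  | zero => exact ⟨0, by simp⟩
  | succ i ih =>
    obtain ⟨z, hz⟩ := ih (by omega)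
    obtain ⟨k, hk, hk'⟩ := h i (by omega)
    refine ⟨2 * z - k, ?_⟩
    rw [gw_succ_apply, tdbl_lin k hk hk', hz]
    push_cast; ring

theorem gw_eq_of_eq {w : ℕ → ℤ} {θ x y : ℝ} {i : ℕ} (h : gw w θ i x = gw w θ i y) (j : ℕ)
    (hj : i ≤ j) : gw w θ j x = gw w θ j y := by
  obtain ⟨d, rfl⟩ := Nat.exists_eq_add_of_le hj
  rw [gw_add, mul_apply, mul_apply, h]

/-- iterates of a monotone map in a finite set reach a fixed point after `card` steps -/
theorem iter_fix {g : ℝ → ℝ} (hg : Monotone g) (T : Finset ℝ) {n : ℕ} (hT : T.card ≤ n) {x : ℝ}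
    (hx : ∀ i, g^[i] x ∈ T) : g (g^[n] x) = g^[n] x := by
  by_contra hne
  have hstep : ∀ i ≤ n, g^[i] x ≠ g^[i + 1] x := by
    intro i hi he
    have hc : ∀ d, g^[i + d] x = g^[i] x := by
      intro d
      induction d with
      | zero => rfl
      | succ d ih => rw [← add_assoc, Function.iterate_succ_apply', ih,
          ← Function.iterate_succ_apply' g i x, ← he]
    obtain ⟨d, rfl⟩ := Nat.exists_eq_add_of_le hi
    apply hne
    rw [← Function.iterate_succ_apply' g, show (i + d).succ = i + (d + 1) by omega, hc, hc]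
  have hinj : Set.InjOn (fun i => g^[i] x) (Finset.range (n + 1) : Set ℕ) := by
    rcases le_total x (g x) with h | h
    · have hm : ∀ i, g^[i] x ≤ g^[i + 1] x := by
        intro i
        rw [Function.iterate_succ_apply]
        exact hg.iterate i h
      have hlt : ∀ i d, i + d ≤ n → g^[i] x < g^[i + d + 1] x := by
        intro i d
        induction d with
        | zero => intro hi; exact lt_of_le_of_ne (hm i) (hstep i hi)
        | succ d ih =>
          intro hi
          exact (ih (by omega)).trans_le (hm _)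
      intro i hi j hj hij
      simp only [Finset.coe_range, Set.mem_Iio] at hi hj
      by_contra hne'
      rcases Nat.lt_or_gt_of_ne hne' with h1 | h1
      · obtain ⟨d, rfl⟩ := Nat.exists_eq_add_of_lt h1
        exact absurd hij (hlt i d (by omega)).ne
      · obtain ⟨d, rfl⟩ := Nat.exists_eq_add_of_lt h1
        exact absurd hij.symm (hlt j d (by omega)).ne
    · have hm : ∀ i, g^[i + 1] x ≤ g^[i] x := by
        intro i
        rw [Function.iterate_succ_apply]
        exact hg.iterate i h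
      have hlt : ∀ i d, i + d ≤ n → g^[i + d + 1] x < g^[i] x := by
        intro i d
        induction d with
        | zero => intro hi; exact lt_of_le_of_ne (hm i) (hstep i hi).symm
        | succ d ih =>
          intro hi
          exact (hm _).trans_lt (ih (by omega))
      intro i hi j hj hij
      simp only [Finset.coe_range, Set.mem_Iio] at hi hj
      by_contra hne'
      rcases Nat.lt_or_gt_of_ne hne' with h1 | h1
      · obtain ⟨d, rfl⟩ := Nat.exists_eq_add_of_lt h1
        exact absurd hij.symm (hlt i d (by omega)).ne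
      · obtain ⟨d, rfl⟩ := Nat.exists_eq_add_of_lt h1
        exact absurd hij (hlt j d (by omega)).ne
  have h1 : (Finset.image (fun i => g^[i] x) (Finset.range (n + 1))).card = n + 1 := by
    rw [Finset.card_image_of_injOn hinj, Finset.card_range]
  have h2 : Finset.image (fun i => g^[i] x) (Finset.range (n + 1)) ⊆ T := by
    intro y hy
    obtain ⟨i, -, rfl⟩ := Finset.mem_image.1 hy
    exact hx i
  have := Finset.card_le_card h2
  omega

/-- no transition from `g y < y` to `g y > y` if all fixed points in between are attracting from the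
left -/
theorem no_up {g : ℝ → ℝ} (hg : Continuous g) {x y₁ ε : ℝ} (hxy : x < y₁) (hε : 0 < ε)
    (h1 : ∀ y, x < y → y < x + ε → g y < y) (h2 : y₁ < g y₁)
    (h3 : ∀ z, x < z → z < y₁ → g z = z → ∃ δ > 0, ∀ y, z - δ < y → y < z → z ≤ g y) : False := by
  set A : Set ℝ := {y | x < y ∧ y ≤ y₁ ∧ y ≤ g y} with hA
  have hy₁A : y₁ ∈ A := ⟨hxy, le_rfl, h2.le⟩
  have hbdd : BddBelow A := ⟨x, fun y hy => hy.1.le⟩
  set z := sInf A with hz
  have hzle : z ≤ y₁ := csInf_le hbdd hy₁A
  have hzge : x + ε ≤ z ∨ z = y₁ := by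
    by_cases hc : x + ε ≤ y₁
    · left
      refine le_csInf ⟨y₁, hy₁A⟩ fun y hy => ?_
      by_contra hlt
      push Not at hlt
      exact absurd hy.2.2 (not_le.2 (h1 y hy.1 hlt))
    · exfalso
      push Not at hc
      exact absurd (h1 y₁ hxy hc) (not_lt.2 h2.le)
  have hxz : x < z := by rcases hzge with h | h <;> linarith
  have hlow : ∀ y, x < y → y < z → g y < y := by
    intro y hy hyz
    by_contra hc
    push Not at hc
    have : z ≤ y := csInf_le hbdd ⟨hy, hyz.le.trans hzle, hc⟩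
    linarith
  have hzg : z ≤ g z := by
    have hcl : IsClosed {y : ℝ | y ≤ g y} := isClosed_le continuous_id hg
    have : z ∈ closure A := csInf_mem_closure ⟨y₁, hy₁A⟩ hbdd
    exact closure_minimal (fun y hy => hy.2.2) hcl this
  have hgz : g z ≤ z := by
    have hcl : IsClosed {y : ℝ | g y ≤ y} := isClosed_le hg continuous_id
    have hmem : z ∈ closure (Ioo x z) := by
      rw [closure_Ioo hxz.ne]; exact right_mem_Icc.2 hxz.le
    exact closure_minimal (fun y hy => (hlow y hy.1 hy.2).le) hcl hmem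
  have hzz : g z = z := le_antisymm hgz hzg
  have hzlt : z < y₁ := by
    rcases hzle.lt_or_eq with h | h
    · exact h
    · rw [h] at hzz; linarith
  obtain ⟨δ, hδ, h⟩ := h3 z hxz hzlt hzz
  have hm : max x (z - δ) < z := max_lt hxz (by linarith)
  obtain ⟨y, hy1, hy2⟩ := exists_between hm
  have h5 := h y ((le_max_right _ _).trans_lt hy1) hy2
  have h6 := hlow y ((le_max_left _ _).trans_lt hy1) hy2
  linarith

/-- a periodic point of a degree one map with the rotation number `k` is a fixed point -/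
theorem fix_of_pow {f : CircleDeg1Lift} {k : ℤ} {c : ℕ} (hc : 0 < c) {x : ℝ}
    (h : (f ^ c) x = x + c * k) : f x = x + k := by
  have hup : x + k < f x → ∀ i : ℕ, x + (i + 1) * k < (f ^ (i + 1)) x := by
    intro h0 i
    induction i with
    | zero => simpa using h0
    | succ i ih =>
      have h1 : f (x + ((i + 1 : ℕ) * k : ℤ)) ≤ f ((f ^ (i + 1)) x) :=
        f.monotone (by push_cast; exact ih.le)
      rw [map_add_int] at h1
      have h2 : (f ^ (i + 1 + 1)) x = f ((f ^ (i + 1)) x) := by rw [pow_succ' f (i + 1)]; rfl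
      rw [h2]
      push_cast at h1 ⊢
      linarith
  have hdn : f x < x + k → ∀ i : ℕ, (f ^ (i + 1)) x < x + (i + 1) * k := by
    intro h0 i
    induction i with
    | zero => simpa using h0
    | succ i ih =>
      have h1 : f ((f ^ (i + 1)) x) ≤ f (x + ((i + 1 : ℕ) * k : ℤ)) :=
        f.monotone (by push_cast; exact ih.le)
      rw [map_add_int] at h1
      have h2 : (f ^ (i + 1 + 1)) x = f ((f ^ (i + 1)) x) := by rw [pow_succ' f (i + 1)]; rfl
      rw [h2]
      push_cast at h1 ⊢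
      linarith
  obtain ⟨i, rfl⟩ : ∃ i, c = i + 1 := ⟨c - 1, by omega⟩
  push_cast at h
  rcases lt_trichotomy (f x) (x + k) with h0 | h0 | h0
  · have := hdn h0 i; linarith
  · exact h0
  · have := hup h0 i; linarith

theorem pow_of_fix {f : CircleDeg1Lift} {k : ℤ} {x : ℝ} (h : f x = x + k) (c : ℕ) :
    (f ^ c) x = x + c * k := by
  induction c with
  | zero => simp
  | succ c ih =>
    rw [pow_succ']
    show f ((f ^ c) x) = _
    have h1 : x + (c : ℝ) * k = x + ((c * k : ℤ) : ℝ) := by push_cast; ring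
    rw [ih, h1, map_add_int, h]
    push_cast; ring

/-! ### Phases -/

/-- `p` is followed by `q`: the first mismatch of the word read from `p` with the word is at
`q - 1` -/
def Step (w : ℕ → ℤ) (n p q : ℕ) : Prop :=
  ∃ r, q = p + r + 1 ∧ r + 1 < n ∧ (∀ i < r, w (p + i) = w i) ∧ w (p + r) ≠ w r

theorem Step.lt {w : ℕ → ℤ} {n p q : ℕ} (h : Step w n p q) : p < q := by
  obtain ⟨r, rfl, -⟩ := h; omega

theorem transGen_lt {w : ℕ → ℤ} {n p q : ℕ} (h : Relation.TransGen (Step w n) p q) : p < q := by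
  induction h with
  | single h => exact h.lt
  | tail _ h ih => exact ih.trans h.lt

theorem per_mul {w : ℕ → ℤ} {n : ℕ} (hw : ∀ i, w (i + n) = w i) (l i : ℕ) :
    w (i + n * l) = w i := by
  induction l with
  | zero => simp
  | succ l ih => rw [Nat.mul_succ, ← add_assoc, hw, ih]

theorem per_mod {w : ℕ → ℤ} {n : ℕ} (hw : ∀ i, w (i + n) = w i) (p i : ℕ) :
    w (p + i) = w (p % n + i) := by
  have h := per_mul hw (p / n) (p % n + i)
  rw [← h]
  congr 1
  have := Nat.mod_add_div p n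
  omega

theorem InHalf.add_int {s x : ℝ} (h : InHalf s x) (z : ℤ) : InHalf s (x + z) := by
  obtain ⟨k, h1, h2⟩ := h
  exact ⟨k + z, by push_cast; linarith, by push_cast; linarith⟩

/-! ### The left hand structure -/

/-- data of a primitive component at the parameter `a` (left end of the wake) -/
structure LH (w : ℕ → ℤ) (n : ℕ) (a b : ℝ) (k : ℤ) : Prop where
  hn : 2 ≤ n
  per : ∀ i, w (i + n) = w i
  bit : ∃ c, ∀ i, w i = c ∨ w i = c + 1
  lt : a < b
  lt1 : b < a + 1
  fixa : gw w a n a = a + k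
  fixb : gw w a n b = b + k
  lina : ∀ i < n, InHalf (a + w i) (gw w a i a)
  linb : ∀ i < n, InHalf (a + w i) (gw w a i b)
  avoida : ∀ (i : ℕ) (z : ℤ), 0 < i → i < n → ¬ (a ≤ 2 ^ i * a + z ∧ 2 ^ i * a + z ≤ b)
  avoidb : ∀ (i : ℕ) (z : ℤ), 0 < i → i < n → ¬ (a ≤ 2 ^ i * b + z ∧ 2 ^ i * b + z ≤ b)
  right : ∃ m : ℤ, gw w a (n - 1) a = (a + w (n - 1)) / 2 + m + 1 / 2
  uniq : ∀ x, (∀ i < n, InHalf (a + w i) (gw w a i x)) → gw w a n x = x + k →
    ∃ z : ℤ, x = a + z ∨ x = b + z

variable {w : ℕ → ℤ} {n : ℕ} {a b : ℝ} {k : ℤ}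

namespace LH

variable (D : LH w n a b k)

include D

theorem int_a (i : ℕ) (hi : i ≤ n) : ∃ z : ℤ, gw w a i a = 2 ^ i * a + z :=
  gw_int_of_lin D.lina i hi

theorem int_b (i : ℕ) (hi : i ≤ n) : ∃ z : ℤ, gw w a i b = 2 ^ i * b + z :=
  gw_int_of_lin D.linb i hi

theorem pera : ∃ z : ℤ, 2 ^ n * a = a + z := by
  obtain ⟨z, hz⟩ := D.int_a n le_rfl
  exact ⟨k - z, by rw [D.fixa] at hz; push_cast; linarith⟩

theorem perb : ∃ z : ℤ, 2 ^ n * b = b + z := by
  obtain ⟨z, hz⟩ := D.int_b n le_rfl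
  exact ⟨k - z, by rw [D.fixb] at hz; push_cast; linarith⟩

/-- the point `a` is never at the left end of its half circle -/
theorem not_left (i : ℕ) (hi : i < n) (m : ℤ) : gw w a i a ≠ (a + w i) / 2 + m := by
  intro h
  rcases Nat.lt_or_ge (i + 1) n with h1 | h1
  · obtain ⟨z, hz⟩ := D.int_a (i + 1) h1.le
    have h2 : gw w a (i + 1) a = a + w i + m := by
      rw [gw_succ_apply, h, tdbl_lin m (by linarith) (by linarith)]; ring
    apply D.avoida (i + 1) (z - w i - m) (by omega) h1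
    have h3 : (2 : ℝ) ^ (i + 1) * a + ((z - w i - m : ℤ) : ℝ) = a := by
      push_cast; linarith
    rw [h3]
    exact ⟨le_rfl, D.lt.le⟩
  · obtain rfl : i = n - 1 := by omega
    obtain ⟨m', hm'⟩ := D.right
    rw [h] at hm'
    have h2 : (m : ℝ) = m' + 1 / 2 := by linarith
    have h3 : (2 * m : ℝ) = ((2 * m' + 1 : ℤ) : ℝ) := by push_cast; linarith
    have h4 : 2 * m = 2 * m' + 1 := by exact_mod_cast h3
    omega

/-- the point `a` is not at the right end of its half circle before the last step -/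
theorem not_right (i : ℕ) (hi : i + 1 < n) (m : ℤ) : gw w a i a ≠ (a + w i) / 2 + m + 1 / 2 := by
  intro h
  obtain ⟨z, hz⟩ := D.int_a (i + 1) hi.le
  have h2 : gw w a (i + 1) a = a + w i + m + 1 := by
    rw [gw_succ_apply, h, tdbl_lin m (by linarith) (by linarith)]; ring
  apply D.avoida (i + 1) (z - w i - m - 1) (by omega) hi
  have h3 : (2 : ℝ) ^ (i + 1) * a + ((z - w i - m - 1 : ℤ) : ℝ) = a := by
    push_cast; linarith
  rw [h3]
  exact ⟨le_rfl, D.lt.le⟩

/-- strict monotonicity on the left of `a` -/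
theorem strict {x : ℝ} (hx : x < a) (i : ℕ) (hi : i ≤ n) : gw w a i x < gw w a i a := by
  induction i with
  | zero => exact hx
  | succ i ih =>
    have h := ih (by omega)
    obtain ⟨m, hm, hm'⟩ := D.lina i (by omega)
    rw [gw_succ_apply, gw_succ_apply, tdbl_lin m hm hm']
    have hne := D.not_left i (by omega) m
    have hlt : (a + w i) / 2 + m < gw w a i a := lt_of_le_of_ne hm hne.symm
    rcases le_or_gt ((a + w i) / 2 + m) (gw w a i x) with h1 | h1
    · rw [tdbl_lin m h1 (by linarith)]; linarith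
    · have h2 := (tdbl (a + w i)).monotone h1.le
      rw [tdbl_lin m le_rfl (by linarith)] at h2
      linarith

theorem red_orb {x : ℝ} (h : Orb a x) : ∃ i < n, ∃ z : ℤ, x = 2 ^ i * a + z := by
  obtain ⟨i, z, rfl⟩ := h
  obtain ⟨p, hp⟩ := D.pera
  have hn := D.hn
  induction i using Nat.strong_induction_on generalizing z with
  | _ i ih =>
    rcases Nat.lt_or_ge i n with h1 | h1
    · exact ⟨i, h1, z, rfl⟩
    · obtain ⟨j, hj, z', hz'⟩ := ih (i - n) (by omega) (2 ^ (i - n) * p + z)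
      refine ⟨j, hj, z', ?_⟩
      rw [← hz']
      have : (2 : ℝ) ^ i = 2 ^ (i - n) * 2 ^ n := by rw [← pow_add]; congr 1; omega
      rw [this, mul_assoc, hp]
      push_cast; ring

theorem orb_mem {x : ℝ} (h : Orb a x) (h1 : a ≤ x) (h2 : x ≤ b) : x = a := by
  obtain ⟨i, hi, z, rfl⟩ := D.red_orb h
  rcases Nat.eq_zero_or_pos i with rfl | h0
  · simp only [pow_zero, one_mul] at h1 h2 ⊢
    have h3 : (0 : ℝ) ≤ z := by linarith
    have h4 : (z : ℝ) < 1 := by have := D.lt1; linarith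
    have h5 : 0 ≤ z := by exact_mod_cast h3
    have h6 : z < 1 := by exact_mod_cast h4
    have : z = 0 := by omega
    rw [this]; simp
  · exact absurd ⟨h1, h2⟩ (D.avoida i z h0 hi)

theorem not_orb_b (m : ℤ) : ¬ Orb a (b + m) := by
  intro h
  have := D.orb_mem (x := b) (by simpa using h.add_int (-m)) D.lt.le le_rfl
  exact absurd this D.lt.ne'


/-- a fixed point which is not `a`, `b` modulo one is super-attracting -/
theorem lc {x : ℝ} (hx : gw w a n x = x + k) (ha : ∀ z : ℤ, x ≠ a + z) (hb : ∀ z : ℤ, x ≠ b + z) :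
    ∃ δ > 0, ∀ y, |y - x| < δ → gw w a n y = x + k := by
  have h : ¬ ∀ i < n, InHalf (a + w i) (gw w a i x) := by
    intro h
    obtain ⟨z, hz | hz⟩ := D.uniq x h hx
    · exact ha z hz
    · exact hb z hz
  push Not at h
  obtain ⟨i, hi, hni⟩ := h
  rcases tdbl_cases (a + w i) (gw w a i x) with ⟨m, h1, h2, -⟩ | ⟨m, h1, h2, e⟩
  · exact absurd ⟨m, h1, h2⟩ hni
  · have hopen : IsOpen {y : ℝ | (a + w i) / 2 + m + 1 / 2 < gw w a i y ∧
        gw w a i y < (a + w i) / 2 + m + 1} :=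
      (isOpen_lt continuous_const (gw_continuous' w a i)).inter
        (isOpen_lt (gw_continuous' w a i) continuous_const)
    obtain ⟨δ, hδ, hb⟩ := Metric.isOpen_iff.1 hopen x ⟨h1, h2⟩
    refine ⟨δ, hδ, fun y hy => ?_⟩
    obtain ⟨h3, h4⟩ := hb (show y ∈ Metric.ball x δ by rwa [Metric.mem_ball, Real.dist_eq])
    rw [← hx]
    refine gw_eq_of_eq (i := i + 1) ?_ n (by omega)
    rw [gw_succ_apply, gw_succ_apply, e, tdbl_flat m h3.le h4.le]

theorem ne_a_of_mem {x : ℝ} (h : x ∈ Ioo (b - 1) a) (z : ℤ) : x ≠ a + z := by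
  intro he
  have := D.lt
  have h1 : (-1 : ℝ) < z := by linarith [h.1]
  have h2 : (z : ℝ) < 0 := by linarith [h.2]
  have h3 : -1 < z := by exact_mod_cast h1
  have h4 : z < 0 := by exact_mod_cast h2
  omega

theorem ne_b_of_mem {x : ℝ} (h : x ∈ Ioo (b - 1) a) (z : ℤ) : x ≠ b + z := by
  intro he
  have := D.lt
  have h1 : (-1 : ℝ) < z := by linarith [h.1]
  have h2 : (z : ℝ) < 0 := by linarith [h.2]
  have h3 : -1 < z := by exact_mod_cast h1
  have h4 : z < 0 := by exact_mod_cast h2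
  omega

theorem ne_a_of_mem' {x : ℝ} (h : x ∈ Ioo a b) (z : ℤ) : x ≠ a + z := by
  intro he
  have := D.lt1
  have h1 : (0 : ℝ) < z := by linarith [h.1]
  have h2 : (z : ℝ) < 1 := by linarith [h.2]
  have h3 : 0 < z := by exact_mod_cast h1
  have h4 : z < 1 := by exact_mod_cast h2
  omega

theorem ne_b_of_mem' {x : ℝ} (h : x ∈ Ioo a b) (z : ℤ) : x ≠ b + z := by
  intro he
  have := D.lt1
  have h1 : (-1 : ℝ) < z := by linarith [h.1]
  have h2 : (z : ℝ) < 0 := by linarith [h.2]
  have h3 : -1 < z := by exact_mod_cast h1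
  have h4 : z < 0 := by exact_mod_cast h2
  omega

theorem cont_g : Continuous fun x => gw w a n x - k :=
  (gw_continuous' w a n).sub continuous_const

/-- uniqueness of the outer fixed point -/
theorem uniqO_aux {x x' : ℝ} (h : x ∈ Ioo (b - 1) a) (h' : x' ∈ Ioo (b - 1) a)
    (hx : gw w a n x = x + k) (hx' : gw w a n x' = x' + k) (hlt : x < x') : False := by
  obtain ⟨δ, hδ, h1⟩ := D.lc hx (D.ne_a_of_mem h) (D.ne_b_of_mem h)
  obtain ⟨δ', hδ', h2⟩ := D.lc hx' (D.ne_a_of_mem h') (D.ne_b_of_mem h')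
  have hm : max x (x' - δ') < x' := max_lt hlt (by linarith)
  obtain ⟨y₁, hy1, hy2⟩ := exists_between hm
  have hy3 : x < y₁ := (le_max_left _ _).trans_lt hy1
  have hy4 : x' - δ' < y₁ := (le_max_right _ _).trans_lt hy1
  refine no_up D.cont_g hy3 hδ (fun y hy hy' => ?_) ?_ (fun z hz hz' hfz => ?_)
  · rw [h1 y (by rw [abs_lt]; constructor <;> linarith)]; linarith
  · rw [h2 y₁ (by rw [abs_lt]; constructor <;> linarith)]; linarith
  · have hzm : z ∈ Ioo (b - 1) a := ⟨h.1.trans hz, (hz'.trans hy2).trans h'.2⟩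
    obtain ⟨ε, hε, h3⟩ := D.lc (x := z) (by linarith) (D.ne_a_of_mem hzm) (D.ne_b_of_mem hzm)
    refine ⟨ε, hε, fun y hy hyz => ?_⟩
    rw [h3 y (by rw [abs_lt]; constructor <;> linarith)]; linarith

theorem uniqO {x x' : ℝ} (h : x ∈ Ioo (b - 1) a) (h' : x' ∈ Ioo (b - 1) a)
    (hx : gw w a n x = x + k) (hx' : gw w a n x' = x' + k) : x = x' := by
  rcases lt_trichotomy x x' with h0 | h0 | h0
  · exact (D.uniqO_aux h h' hx hx' h0).elim
  · exact h0
  · exact (D.uniqO_aux h' h hx' hx h0).elim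

/-- flat on the right of `a` -/
theorem flat_right : ∃ δ > 0, ∀ y, a < y → y < a + δ → gw w a n y = a + k := by
  obtain ⟨m, hm⟩ := D.right
  have hn := D.hn
  have hopen : IsOpen {y : ℝ | gw w a (n - 1) y < (a + w (n - 1)) / 2 + m + 1} :=
    isOpen_lt (gw_continuous' w a (n - 1)) continuous_const
  obtain ⟨δ, hδ, hb⟩ := Metric.isOpen_iff.1 hopen a (by
    show gw w a (n - 1) a < (a + w (n - 1)) / 2 + m + 1
    rw [hm]; linarith)
  refine ⟨δ, hδ, fun y hy hy' => ?_⟩
  have h1 : gw w a (n - 1) y < (a + w (n - 1)) / 2 + m + 1 :=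
    hb (show y ∈ Metric.ball a δ by rw [Metric.mem_ball, Real.dist_eq, abs_lt]; constructor <;> linarith)
  have h2 : gw w a (n - 1) a ≤ gw w a (n - 1) y := (gw w a (n - 1)).monotone hy.le
  have hn1 : n = n - 1 + 1 := by omega
  have h3 : gw w a n y = gw w a n a := by
    rw [hn1, gw_succ_apply, gw_succ_apply, tdbl_flat m (by linarith) h1.le,
      tdbl_flat m (by linarith) (by linarith)]
  rw [h3, D.fixa]

/-- no fixed point inside the wake -/
theorem no_inner {x : ℝ} (h : x ∈ Ioo a b) (hx : gw w a n x = x + k) : False := by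
  obtain ⟨δ, hδ, h1⟩ := D.flat_right
  obtain ⟨δ', hδ', h2⟩ := D.lc hx (D.ne_a_of_mem' h) (D.ne_b_of_mem' h)
  have hm : max a (x - δ') < x := max_lt h.1 (by linarith)
  obtain ⟨y₁, hy1, hy2⟩ := exists_between hm
  have hy3 : a < y₁ := (le_max_left _ _).trans_lt hy1
  have hy4 : x - δ' < y₁ := (le_max_right _ _).trans_lt hy1
  refine no_up D.cont_g hy3 hδ (fun y hy hy' => ?_) ?_ (fun z hz hz' hfz => ?_)
  · rw [h1 y hy hy']; linarith
  · rw [h2 y₁ (by rw [abs_lt]; constructor <;> linarith)]; linarith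
  · have hzm : z ∈ Ioo a b := ⟨hz, (hz'.trans hy2).trans h.2⟩
    obtain ⟨ε, hε, h3⟩ := D.lc (x := z) (by linarith) (D.ne_a_of_mem' hzm) (D.ne_b_of_mem' hzm)
    refine ⟨ε, hε, fun y hy hyz => ?_⟩
    rw [h3 y (by rw [abs_lt]; constructor <;> linarith)]; linarith

/-- the finite set `orb(a)` in the outer arc -/
theorem exists_T : ∃ T : Finset ℝ, T.card ≤ n ∧ ∀ x, Orb a x → x ∈ Ioo (b - 1) a → x ∈ T := by
  refine ⟨(Finset.range n).image fun i => a - 1 + Int.fract ((2 : ℝ) ^ i * a - a),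
    Finset.card_image_le.trans (by simp), fun x hx hm => ?_⟩
  obtain ⟨i, hi, z, rfl⟩ := D.red_orb hx
  refine Finset.mem_image.2 ⟨i, Finset.mem_range.2 hi, ?_⟩
  have h1 := D.lt
  have : Int.fract ((2 : ℝ) ^ i * a - a) = 2 ^ i * a + z - (a - 1) := by
    rw [Int.fract_eq_iff]
    refine ⟨by linarith [hm.1], by linarith [hm.2], -z - 1, by push_cast; ring⟩
  rw [this]; ring

theorem g_mem {x : ℝ} (h : x ∈ Ioo (b - 1) a) (ho : Orb a x) :
    gw w a n x - k ∈ Ioo (b - 1) a ∧ Orb a (gw w a n x - k) := by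
  have h1 : Orb a (gw w a n x - k) := by
    have := (ho.gw w n).add_int (-k)
    push_cast at this
    exact this
  refine ⟨⟨?_, ?_⟩, h1⟩
  · have h2 : gw w a n (b - 1) ≤ gw w a n x := (gw w a n).monotone h.1.le
    rw [show b - 1 = b + ((-1 : ℤ) : ℝ) by push_cast; ring, map_add_int, D.fixb] at h2
    push_cast at h2
    refine lt_of_le_of_ne (by linarith) fun he => ?_
    rw [← he] at h1
    exact D.not_orb_b (-1) (by push_cast; exact h1)
  · have := D.strict h.2 n le_rfl
    rw [D.fixa] at this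
    linarith

theorem g_iter {x : ℝ} (h : x ∈ Ioo (b - 1) a) (ho : Orb a x) (i : ℕ) :
    (fun x => gw w a n x - k)^[i] x ∈ Ioo (b - 1) a ∧ Orb a ((fun x => gw w a n x - k)^[i] x) := by
  induction i with
  | zero => exact ⟨h, ho⟩
  | succ i ih =>
    rw [Function.iterate_succ_apply']
    exact D.g_mem ih.1 ih.2

theorem pow_eq_iter (x : ℝ) (i : ℕ) :
    (gw w a n ^ i) x = (fun x => gw w a n x - k)^[i] x + i * k := by
  induction i with
  | zero => simp
  | succ i ih =>
    have h1 : (gw w a n ^ (i + 1)) x = gw w a n ((gw w a n ^ i) x) := by rw [pow_succ']; rfl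
    have h2 : (fun x => gw w a n x - k)^[i] x + (i : ℝ) * k =
      (fun x => gw w a n x - k)^[i] x + ((i * k : ℤ) : ℝ) := by push_cast; ring
    rw [h1, ih, h2, map_add_int, Function.iterate_succ_apply']
    push_cast; ring

theorem exO (i : ℕ) (hi : 0 < i) (hi' : i < n) : ∃ z : ℤ, 2 ^ i * a + z ∈ Ioo (b - 1) a := by
  have h1 := Int.floor_le ((2 : ℝ) ^ i * a - a)
  have h2 := Int.lt_floor_add_one ((2 : ℝ) ^ i * a - a)
  refine ⟨-⌊(2 : ℝ) ^ i * a - a⌋ - 1, ?_, by push_cast; linarith⟩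
  have h3 := D.avoida i (-⌊(2 : ℝ) ^ i * a - a⌋) hi hi'
  push Not at h3
  have h4 := h3 (by push_cast; linarith)
  push_cast at h4 ⊢
  linarith

/-- the outer attractor -/
theorem exists_xi : ∃ ξ, ξ ∈ Ioo (b - 1) a ∧ Orb a ξ ∧ gw w a n ξ = ξ + k ∧
    (∀ x ∈ Ioo (b - 1) a, gw w a n x = x + k → x = ξ) ∧
    ∀ x ∈ Ioo (b - 1) a, Orb a x → ∀ j, n ≤ j → (gw w a n ^ j) x = ξ + j * k := by
  have hn := D.hn
  obtain ⟨T, hT, hT'⟩ := D.exists_T
  have hmono : Monotone fun x => gw w a n x - k := fun x y hxy => by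
    have := (gw w a n).monotone hxy
    show gw w a n x - k ≤ gw w a n y - k
    linarith
  have key : ∀ x ∈ Ioo (b - 1) a, Orb a x →
      gw w a n ((fun x => gw w a n x - k)^[n] x) = (fun x => gw w a n x - k)^[n] x + k := by
    intro x hx ho
    have := iter_fix hmono T hT (x := x) fun i => hT' _ (D.g_iter hx ho i).2 (D.g_iter hx ho i).1
    have h2 : gw w a n ((fun x => gw w a n x - k)^[n] x) - k = (fun x => gw w a n x - k)^[n] x := this
    linarith
  obtain ⟨z, hz⟩ := D.exO 1 one_pos (by omega)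
  have ho : Orb a (2 ^ 1 * a + z) := ⟨1, z, rfl⟩
  have hfix := key _ hz ho
  have hmem := D.g_iter hz ho n
  refine ⟨_, hmem.1, hmem.2, hfix, fun x hx hx' => D.uniqO hx hmem.1 hx' hfix, ?_⟩
  intro x hx hox j hj
  have h1 := D.g_iter hx hox n
  have h2 := D.uniqO h1.1 hmem.1 (key x hx hox) hfix
  obtain ⟨d, rfl⟩ := Nat.exists_eq_add_of_le hj
  have h3 : (gw w a n ^ (n + d)) x = (gw w a n ^ d) ((gw w a n ^ n) x) := by
    rw [add_comm n d, pow_add]; rfl
  have h4 : (gw w a n ^ n) x = (fun x => gw w a n x - k)^[n] x + ((n * k : ℤ) : ℝ) := by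
    rw [D.pow_eq_iter x n]; push_cast; ring
  rw [h3, h4, map_add_int, h2, pow_of_fix hfix d]
  push_cast; ring


/-! ### Phases of the outer attractor -/

theorem lin_ext (i : ℕ) : InHalf (a + w i) (gw w a i a) := by
  have hn := D.hn
  induction i using Nat.strong_induction_on with
  | _ i ih =>
    rcases Nat.lt_or_ge i n with h1 | h1
    · exact D.lina i h1
    · obtain ⟨d, rfl⟩ := Nat.exists_eq_add_of_le h1
      have h2 : gw w a (n + d) a = gw w a d a + k := by
        rw [gw_add, mul_apply, D.fixa, map_add_int]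
        congr 2
        exact gw_congr a d fun i _ => by rw [add_comm n i, D.per]
      rw [h2, add_comm n d, D.per]
      exact (ih d (by omega)).add_int k

theorem pow_a (m : ℕ) : ∃ z : ℤ, gw w a m a = 2 ^ m * a + z :=
  gw_int_of_lin (fun i _ => D.lin_ext i) m le_rfl

theorem mod_a (m : ℕ) : ∃ z : ℤ, (2 : ℝ) ^ m * a = 2 ^ (m % n) * a + z := by
  obtain ⟨p, hp⟩ := D.pera
  have hn := D.hn
  induction m using Nat.strong_induction_on with
  | _ m ih =>
    rcases Nat.lt_or_ge m n with h1 | h1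
    · exact ⟨0, by rw [Nat.mod_eq_of_lt h1]; simp⟩
    · obtain ⟨z, hz⟩ := ih (m - n) (by omega)
      have h2 : (m - n) % n = m % n := by
        conv_rhs => rw [← Nat.sub_add_cancel h1]
        rw [Nat.add_mod_right]
      refine ⟨2 ^ (m - n) * p + z, ?_⟩
      have h3 : (2 : ℝ) ^ m = 2 ^ (m - n) * 2 ^ n := by rw [← pow_add]; congr 1; omega
      rw [h3, mul_assoc, hp, mul_add, hz, h2]
      push_cast; ring

/-- every phase not divisible by `n` has a successor -/
theorem next (m : ℕ) (hm : ¬ n ∣ m) : ∃ q, Step w n m q := by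
  have hn := D.hn
  by_contra hcon
  push Not at hcon
  have h1 : ∀ r, r + 1 < n → w (m + r) = w r := by
    intro r
    induction r using Nat.strong_induction_on with
    | _ r ih =>
      intro hr
      by_contra hne
      exact hcon (m + r + 1) ⟨r, rfl, hr, fun i hi => ih i hi (by omega), hne⟩
  have hsum : ∀ m, ∑ i ∈ Finset.range n, w (m + i) = ∑ i ∈ Finset.range n, w i := by
    intro m
    induction m with
    | zero => simp
    | succ m ih =>
      have e : ∑ i ∈ Finset.range n, w (m + 1 + i) = ∑ i ∈ Finset.range n, w (m + (i + 1)) :=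
        Finset.sum_congr rfl fun i _ => by congr 1; omega
      have h2 := Finset.sum_range_succ' (fun i => w (m + i)) n
      have h3 := Finset.sum_range_succ (fun i => w (m + i)) n
      rw [D.per] at h3
      simp only [add_zero] at h2
      rw [e]
      linarith
  have h2 : w (m + (n - 1)) = w (n - 1) := by
    have h3 := hsum m
    have hn1 : n = (n - 1) + 1 := by omega
    rw [hn1, Finset.sum_range_succ, Finset.sum_range_succ] at h3
    have h4 : ∑ i ∈ Finset.range (n - 1), w (m + i) = ∑ i ∈ Finset.range (n - 1), w i :=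
      Finset.sum_congr rfl fun i hi => h1 i (by have := Finset.mem_range.1 hi; omega)
    omega
  have h3 : ∀ i < n, w (m + i) = w i := by
    intro i hi
    rcases Nat.lt_or_ge (i + 1) n with h | h
    · exact h1 i h
    · obtain rfl : i = n - 1 := by omega
      exact h2
  obtain ⟨z, hz⟩ := D.pow_a m
  obtain ⟨z', hz'⟩ := D.mod_a m
  have hmod : 0 < m % n := Nat.pos_of_ne_zero fun h => hm (Nat.dvd_of_mod_eq_zero h)
  have hmod' : m % n < n := Nat.mod_lt _ (by omega)
  have h4 : ∀ i ≤ n, gw w a i (gw w a m a) = gw w a (m + i) a := by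
    intro i hi
    rw [gw_add, mul_apply]
    congr 1
    exact gw_congr a i fun j hj => (h3 j (by omega)).symm
  obtain ⟨z₀, h5 | h5⟩ := D.uniq (gw w a m a) (fun i hi => by
      rw [h4 i hi.le, ← h3 i hi]; exact D.lin_ext _) (by
      rw [h4 n le_rfl, add_comm m n, gw_add, mul_apply, D.fixa, map_add_int]
      congr 2
      exact gw_congr a m fun i _ => by rw [add_comm n i, D.per])
  · apply D.avoida (m % n) (z' + z - z₀) hmod hmod'
    have h6 : (2 : ℝ) ^ (m % n) * a + ((z' + z - z₀ : ℤ) : ℝ) = a := by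
      push_cast; linarith
    rw [h6]
    exact ⟨le_rfl, D.lt.le⟩
  · exact D.not_orb_b z₀ ⟨m, z, by rw [← h5, hz]⟩

theorem step_dyn {p q : ℕ} (h : Step w n p q) :
    ∃ z : ℤ, gw (fun i => w (p + i)) a (q - p) a = a + z := by
  obtain ⟨r, rfl, hr, h1, h2⟩ := h
  have e : p + r + 1 - p = r + 1 := by omega
  rw [e, gw_succ_apply, gw_congr a r h1]
  obtain ⟨m, hm, hm'⟩ := D.lina r (by omega)
  have hl := lt_of_le_of_ne hm (D.not_left r (by omega) m).symm
  have hr' := lt_of_le_of_ne hm' (D.not_right r hr m)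
  obtain ⟨c, hc⟩ := D.bit
  rcases hc r with hc1 | hc1 <;> rcases hc (p + r) with hc2 | hc2
  · exact absurd (hc2.trans hc1.symm) h2
  · refine ⟨c + 1 + m, ?_⟩
    rw [hc1] at hl hr' hm hm'
    rw [hc2, tdbl_flat (m - 1) (by push_cast; linarith) (by push_cast; linarith)]
    push_cast; ring
  · refine ⟨c + m + 1, ?_⟩
    rw [hc1] at hl hr' hm hm'
    rw [hc2, tdbl_flat m (by push_cast at hl ⊢; linarith) (by push_cast at hr' ⊢; linarith)]
    push_cast; ring
  · exact absurd (hc2.trans hc1.symm) h2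

theorem chain_dyn {p q : ℕ} (h : Relation.TransGen (Step w n) p q) :
    ∃ z : ℤ, gw (fun i => w (p + i)) a (q - p) a = a + z := by
  induction h with
  | single h => exact D.step_dyn h
  | @tail q q' h1 h2 ih =>
    obtain ⟨z, hz⟩ := ih
    obtain ⟨z', hz'⟩ := D.step_dyn h2
    have hlt := transGen_lt h1
    have hlt' := h2.lt
    refine ⟨z' + z, ?_⟩
    have e : q' - p = (q - p) + (q' - q) := by omega
    have e2 : (fun i => w (p + (q - p + i))) = fun i => w (q + i) := by
      funext i; congr 1; omega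
    rw [e, gw_add, mul_apply, hz, map_add_int, e2, hz']
    push_cast; ring

/-- existence of a cycle of phases -/
theorem exists_chain : ∃ p c, 0 < c ∧ ¬ n ∣ p ∧ Relation.TransGen (Step w n) p (p + c * n) := by
  have hn := D.hn
  obtain ⟨ξ, hξ, ho, hfix, hu, hconv⟩ := D.exists_xi
  let Inv : ℕ → Prop := fun m => ∃ z : ℤ, gw w a m ξ = a + z
  have hInv : ∀ m, Inv m → ¬ n ∣ m := by
    rintro m ⟨z, hz⟩ ⟨l, rfl⟩
    rw [gw_mul w a n l D.per, pow_of_fix hfix l] at hz
    exact D.ne_a_of_mem hξ (z - l * k) (by push_cast; linarith)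
  have hnext : ∀ m, Inv m → ∃ q, Step w n m q ∧ Inv q := by
    intro m hm
    obtain ⟨q, hq⟩ := D.next m (hInv m hm)
    obtain ⟨z, hz⟩ := hm
    obtain ⟨z', hz'⟩ := D.step_dyn hq
    refine ⟨q, hq, z' + z, ?_⟩
    have e : q = m + (q - m) := by have := hq.lt; omega
    rw [e, gw_add, mul_apply, hz, map_add_int, hz']
    push_cast; ring
  have h0 : ∃ m, Inv m := by
    have h : ¬ ∀ i < n, InHalf (a + w i) (gw w a i ξ) := by
      intro h
      obtain ⟨z, hz | hz⟩ := D.uniq ξ h hfix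
      · exact D.ne_a_of_mem hξ z hz
      · exact D.ne_b_of_mem hξ z hz
    push Not at h
    obtain ⟨i, hi, hni⟩ := h
    rcases tdbl_cases (a + w i) (gw w a i ξ) with ⟨m, h1, h2, -⟩ | ⟨m, h1, h2, e⟩
    · exact absurd ⟨m, h1, h2⟩ hni
    · exact ⟨i + 1, w i + m + 1, by rw [gw_succ_apply, e]; push_cast; ring⟩
  obtain ⟨m₀, hm₀⟩ := h0
  choose! f hf1 hf2 using hnext
  have hs : ∀ i, Inv (f^[i] m₀) := by
    intro i
    induction i with
    | zero => exact hm₀
    | succ i ih => rw [Function.iterate_succ_apply']; exact hf2 _ ih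
  have hst : ∀ i, Step w n (f^[i] m₀) (f^[i + 1] m₀) := by
    intro i
    rw [Function.iterate_succ_apply']
    exact hf1 _ (hs i)
  have htr : ∀ i d, Relation.TransGen (Step w n) (f^[i] m₀) (f^[i + d + 1] m₀) := by
    intro i d
    induction d with
    | zero => exact .single (hst i)
    | succ d ih => exact .tail ih (hst _)
  obtain ⟨i, j, hij, he⟩ := Finite.exists_ne_map_eq_of_infinite
    (fun i : ℕ => (⟨f^[i] m₀ % n, Nat.mod_lt _ (by omega)⟩ : Fin n))
  have he' : f^[i] m₀ % n = f^[j] m₀ % n := by simpa using he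
  have main : ∀ i j, i < j → f^[i] m₀ % n = f^[j] m₀ % n →
      ∃ p c, 0 < c ∧ ¬ n ∣ p ∧ Relation.TransGen (Step w n) p (p + c * n) := by
    intro i j hij he
    obtain ⟨d, rfl⟩ := Nat.exists_eq_add_of_lt hij
    have h1 := htr i d
    have h2 := transGen_lt h1
    have h3 : n ∣ f^[i + d + 1] m₀ - f^[i] m₀ := (Nat.modEq_iff_dvd' h2.le).1 he
    obtain ⟨c, hc⟩ := h3
    refine ⟨f^[i] m₀, c, ?_, hInv _ (hs i), ?_⟩
    · rcases Nat.eq_zero_or_pos c with rfl | h
      · rw [Nat.mul_zero] at hc; omega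
      · exact h
    · have : f^[i] m₀ + c * n = f^[i + d + 1] m₀ := by rw [mul_comm c n]; omega
      rw [this]; exact h1
  rcases Nat.lt_or_gt_of_ne hij with h | h
  · exact main i j h he'
  · exact main j i h he'.symm


/-- the phases of a cycle are phases of the outer attractor -/
theorem phase_of_chain {p c : ℕ} (hc : 0 < c) (hp : ¬ n ∣ p)
    (h : Relation.TransGen (Step w n) p (p + c * n)) {ξ : ℝ}
    (hu : ∀ x ∈ Ioo (b - 1) a, gw w a n x = x + k → x = ξ) :
    ∃ z : ℤ, gw w a (p % n) ξ = a + z := by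
  have hn := D.hn
  obtain ⟨z, hz⟩ := D.chain_dyn h
  set P := p % n with hP
  have hP0 : 0 < P := Nat.pos_of_ne_zero fun h => hp (Nat.dvd_of_mod_eq_zero h)
  have hPn : P < n := Nat.mod_lt _ (by omega)
  set u : ℕ → ℤ := fun i => w (P + i) with hu_def
  have hup : ∀ i, u (i + n) = u i := fun i => by
    show w (P + (i + n)) = w (P + i)
    rw [← add_assoc, D.per]
  have e1 : (fun i => w (p + i)) = u := by funext i; exact per_mod D.per p i
  have e2 : p + c * n - p = n * c := by rw [Nat.add_sub_cancel_left, mul_comm]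
  rw [e1, e2, gw_mul u a n c hup] at hz
  -- words
  have w1 : (fun i => u (n - P + i)) = w := by
    funext i
    show w (P + (n - P + i)) = w i
    have : P + (n - P + i) = i + n := by omega
    rw [this, D.per]
  have w2 : (fun i => u (n * c + i)) = u := by
    funext i; rw [add_comm]; exact per_mul hup c i
  have w3 : (fun i => w (n + i)) = w := by funext i; rw [add_comm]; exact D.per i
  -- conjugations
  have c1 : (gw w a n ^ c) (gw u a (n - P) a) = gw u a (n - P) ((gw u a n ^ c) a) := by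
    have h1 : gw u a ((n - P) + n * c) a = gw u a (n * c + (n - P)) a := by rw [add_comm]
    rw [gw_add, gw_add u a (n * c), w1, w2, gw_mul w a n c D.per, gw_mul u a n c hup] at h1
    exact h1
  have c2 : ∀ x, gw u a n (gw w a P x) = gw w a P (gw w a n x) := by
    intro x
    have h1 : gw w a (P + n) x = gw w a (n + P) x := by rw [add_comm]
    rw [gw_add, gw_add w a n, w3] at h1
    exact h1
  have c3 : gw w a P (gw u a (n - P) a) = gw u a n a := by
    have h1 : gw u a ((n - P) + P) a = gw u a n a := by congr 2; omega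
    rw [gw_add, w1] at h1
    exact h1
  set x := gw u a (n - P) a with hx
  rw [hz, map_add_int, ← hx] at c1
  have hzc : z = c * k := by
    have h1 := translationNumber_of_eq_add_int _ c1
    have h2 : (gw w a n ^ c) a = a + ((c * k : ℤ) : ℝ) := by
      rw [pow_of_fix D.fixa c]; push_cast; ring
    have h3 := translationNumber_of_eq_add_int _ h2
    rw [h1] at h3
    exact_mod_cast h3
  have hfix : gw w a n x = x + k := fix_of_pow hc (by rw [c1, hzc]; push_cast; ring)
  have hy : gw u a n (gw w a P x) = gw w a P x + k := by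
    rw [c2, hfix, map_add_int]
  have hya : gw w a P x = a + k := by
    obtain ⟨c', rfl⟩ : ∃ c', c = c' + 1 := ⟨c - 1, by omega⟩
    have h1 : (gw u a n ^ (c' + 1)) a = (gw u a n ^ c') (gw u a n a) := by
      rw [pow_succ]; rfl
    rw [hz, ← c3, pow_of_fix hy c', hzc] at h1
    push_cast at h1
    linarith
  -- normalisation
  obtain ⟨z₁, hz₁⟩ := D.pow_a P
  obtain ⟨z₂, hz₂⟩ := D.int_b P hPn.le
  have hf1 := Int.lt_floor_add_one (x - b)
  have hf2 := Int.floor_le (x - b)
  obtain ⟨m, hm1, hm2⟩ : ∃ m : ℤ, b - 1 < x + m ∧ x + m ≤ b := by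
    have hc1 := Int.le_ceil (x - b)
    have hc2 := Int.ceil_lt_add_one (x - b)
    exact ⟨-⌈x - b⌉, by push_cast; linarith, by push_cast; linarith⟩
  have hfm : gw w a n (x + m) = x + m + k := by rw [map_add_int, hfix]; ring
  have hPm : gw w a P (x + m) = a + ((k + m : ℤ) : ℝ) := by
    rw [map_add_int, hya]; push_cast; ring
  rcases lt_trichotomy (x + m) a with h1 | h1 | h1
  · rw [← hu _ ⟨hm1, h1⟩ hfm]
    exact ⟨_, hPm⟩
  · exfalso
    rw [h1, hz₁] at hPm
    apply D.avoida P (z₁ - (k + m)) hP0 hPn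
    have h2 : (2 : ℝ) ^ P * a + ((z₁ - (k + m) : ℤ) : ℝ) = a := by
      push_cast at hPm ⊢; linarith
    rw [h2]
    exact ⟨le_rfl, D.lt.le⟩
  · exfalso
    rcases hm2.lt_or_eq with h2 | h2
    · exact D.no_inner ⟨h1, h2⟩ hfm
    · rw [h2, hz₂] at hPm
      apply D.avoidb P (z₂ - (k + m)) hP0 hPn
      have h3 : (2 : ℝ) ^ P * b + ((z₂ - (k + m) : ℤ) : ℝ) = a := by
        push_cast at hPm ⊢; linarith
      rw [h3]
      exact ⟨le_rfl, D.lt.le⟩

/-- the images of `a` and `b` under the first `P` letters -/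
theorem h_bounds {P : ℕ} (hP : 0 < P) (hPn : P < n) {ξ : ℝ} (hξ : ξ ∈ Ioo (b - 1) a) {κ : ℤ}
    (hκ : gw w a P ξ = a + κ) :
    (b + κ < gw w a P a ∧ gw w a P a < a + 1 + κ) ∧
      (b + κ < gw w a P b ∧ gw w a P b < a + 1 + κ) := by
  obtain ⟨z₁, hz₁⟩ := D.pow_a P
  obtain ⟨z₂, hz₂⟩ := D.int_b P hPn.le
  have h1 := D.strict hξ.2 P hPn.le
  have hξ1 : gw w a P (ξ + 1) = a + κ + 1 := by rw [CircleDeg1Lift.map_add_one, hκ]
  have h2 : gw w a P b ≤ gw w a P (ξ + 1) := (gw w a P).monotone (by linarith [hξ.1])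
  have h3 : gw w a P a ≤ gw w a P b := (gw w a P).monotone D.lt.le
  have h4 : b + κ < gw w a P a := by
    by_contra hc
    push Not at hc
    apply D.avoida P (z₁ - κ) hP hPn
    constructor <;> push_cast <;> linarith
  have hl := D.lt
  have h5 : gw w a P a ≠ a + 1 + κ := by
    intro h
    apply D.avoida P (z₁ - κ - 1) hP hPn
    constructor <;> push_cast <;> linarith
  have h6 : gw w a P b ≠ a + 1 + κ := by
    intro h
    apply D.avoidb P (z₂ - κ - 1) hP hPn
    constructor <;> push_cast <;> linarith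
  exact ⟨⟨h4, lt_of_le_of_ne (by linarith) h5⟩, by linarith, lt_of_le_of_ne (by linarith) h6⟩

/-- splitting of the long word -/
theorem gw_long (θ : ℝ) (j P : ℕ) (x : ℝ) :
    gw w θ (n * j + P) x = gw w θ P ((gw w θ n ^ j) x) := by
  rw [gw_add, gw_mul w θ n j D.per, mul_apply]
  congr 1
  exact gw_congr θ P fun i _ => by rw [add_comm]; exact per_mul D.per j i

/-- rotation number `K + 1/2` at the left end -/
theorem half {P : ℕ} (hP : 0 < P) (hPn : P < n) {ξ : ℝ} (hξ : ξ ∈ Ioo (b - 1) a) {κ : ℤ}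
    (hκ : gw w a P ξ = a + κ)
    (hconv : ∀ x ∈ Ioo (b - 1) a, Orb a x → ∀ j, n ≤ j → (gw w a n ^ j) x = ξ + j * k)
    {j : ℕ} (hj : n ≤ j) :
    gw w a (n * j + P) (gw w a (n * j + P) a) = a + (2 * (j * k + κ) + 1) := by
  obtain ⟨⟨h1, h2⟩, -⟩ := D.h_bounds hP hPn hξ hκ
  have hoa : Orb a a := ⟨0, 0, by simp⟩
  have e1 : gw w a (n * j + P) a = gw w a P a + ((j * k : ℤ) : ℝ) := by
    rw [D.gw_long, pow_of_fix D.fixa j, ← map_add_int]; push_cast; rfl
  have hmem : gw w a P a + ((-κ - 1 : ℤ) : ℝ) ∈ Ioo (b - 1) a :=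
    ⟨by push_cast; linarith, by push_cast; linarith⟩
  have e2 := hconv _ hmem ((hoa.gw w P).add_int _) j hj
  rw [map_add_int] at e2
  have e3 : (gw w a n ^ j) (gw w a P a) = ξ + ((j * k + κ + 1 : ℤ) : ℝ) := by
    push_cast at e2 ⊢; linarith
  rw [e1, map_add_int, D.gw_long, e3, map_add_int, hκ]
  push_cast; ring

/-- the left neighbourhood of `a` contains a point which is mapped into the orbit of `a` -/
theorem exists_y : ∃ y, a - (1 / 2) ^ n ≤ y ∧ y < a ∧ gw w a n y - k ∈ Ioo (b - 1) a ∧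
    Orb a (gw w a n y - k) := by
  have hn := D.hn
  set t₁ := a - (1 / 2 : ℝ) ^ n with ht₁
  have hpos : (0 : ℝ) < (1 / 2) ^ n := by positivity
  have hpow : (2 : ℝ) ^ n * (1 / 2) ^ n = 1 := by rw [← mul_pow]; norm_num
  have hstep : ∀ i ≤ n, gw w a i t₁ = gw w a i a - 2 ^ i * (1 / 2) ^ n ∨
      ∃ y, t₁ ≤ y ∧ y < a ∧ Orb a (gw w a i y) := by
    intro i
    induction i with
    | zero => intro _; left; simp [ht₁]
    | succ i ih =>
      intro hi
      rcases ih (by omega) with h | ⟨y, hy1, hy2, hy3⟩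
      · obtain ⟨m, hm, hm'⟩ := D.lina i (by omega)
        have hne := D.not_left i (by omega) m
        rcases le_or_gt ((a + w i) / 2 + m) (gw w a i t₁) with h1 | h1
        · left
          have hlt := D.strict (show t₁ < a by linarith) i (by omega)
          rw [gw_succ_apply, gw_succ_apply, tdbl_lin m h1 (by linarith), tdbl_lin m hm hm', h]
          rw [pow_succ]; ring
        · right
          have hcont : ContinuousOn (gw w a i) (Icc t₁ a) := (gw_continuous' w a i).continuousOn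
          obtain ⟨y, hy, hye⟩ := intermediate_value_Icc (by linarith) hcont
            (show (a + w i) / 2 + m ∈ Icc (gw w a i t₁) (gw w a i a) from ⟨h1.le, hm⟩)
          refine ⟨y, hy.1, lt_of_le_of_ne hy.2 fun he => hne (by rw [he] at hye; exact hye), 0, w i + m, ?_⟩
          rw [gw_succ_apply, hye, tdbl_lin m le_rfl (by linarith)]
          push_cast; ring
      · right
        refine ⟨y, hy1, hy2, ?_⟩
        rw [gw_succ_apply]; exact hy3.tdbl _
  -- the outer arc is long
  have hlong : b - 1 < t₁ := by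
    obtain ⟨p, hp⟩ := D.pera
    obtain ⟨q, hq⟩ := D.perb
    have hl := D.lt
    have hl1 := D.lt1
    have h2n : (4 : ℝ) ≤ 2 ^ n := by
      calc (4 : ℝ) = 2 ^ 2 := by norm_num
        _ ≤ 2 ^ n := pow_le_pow_right₀ (by norm_num) hn
    have h1 : (2 ^ n - 1) * (b - a) = ((q - p : ℤ) : ℝ) := by push_cast; linarith
    have h2 : ((q - p : ℤ) : ℝ) < ((2 ^ n - 1 : ℤ) : ℝ) := by
      rw [← h1]; push_cast
      nlinarith
    have h3 : q - p ≤ 2 ^ n - 2 := by
      have : q - p < 2 ^ n - 1 := by exact_mod_cast h2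
      omega
    have h4 : ((q - p : ℤ) : ℝ) ≤ 2 ^ n - 2 := by exact_mod_cast h3
    have h5 : (2 ^ n - 1) * (b - a) ≤ (2 : ℝ) ^ n - 2 := by rw [h1]; exact h4
    have h6 : (2 : ℝ) ^ n * (b - a) < 2 ^ n - 1 := by linarith
    have h7 : (2 : ℝ) ^ n * (b - 1 - t₁) < 0 := by
      rw [ht₁]
      have : (2 : ℝ) ^ n * (b - 1 - (a - (1 / 2) ^ n)) =
        2 ^ n * (b - a) - 2 ^ n + 2 ^ n * (1 / 2) ^ n := by ring
      rw [this, hpow]; linarith
    by_contra hc
    push Not at hc
    have : 0 ≤ (2 : ℝ) ^ n * (b - 1 - t₁) := by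
      apply mul_nonneg (by positivity); linarith
    linarith
  have hb1 : gw w a n (b - 1) = b - 1 + k := by
    rw [show b - 1 = b + ((-1 : ℤ) : ℝ) by push_cast; ring, map_add_int, D.fixb]
    ring
  rcases hstep n le_rfl with h | ⟨y, hy1, hy2, hy3⟩
  · exfalso
    rw [hpow, D.fixa] at h
    have h1 : gw w a n (b - 1) ≤ gw w a n t₁ := (gw w a n).monotone hlong.le
    rw [hb1, h] at h1
    linarith [D.lt]
  · have ho : Orb a (gw w a n y - k) := by
      have := hy3.add_int (-k)
      push_cast at this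
      exact this
    refine ⟨y, hy1, hy2, ⟨?_, ?_⟩, ho⟩
    · have h1 : gw w a n (b - 1) ≤ gw w a n y := (gw w a n).monotone (by linarith)
      rw [hb1] at h1
      refine lt_of_le_of_ne (by linarith) fun he => ?_
      rw [← he] at ho
      exact D.not_orb_b (-1) (by push_cast; exact ho)
    · have h1 := D.strict hy2 n le_rfl
      rw [D.fixa] at h1
      linarith

/-- outside: at the parameter `a - 2^-n` the rotation number is at most `K` -/
theorem outside {P : ℕ} {ξ : ℝ} {κ : ℤ} (hκ : gw w a P ξ = a + κ)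
    (hconv : ∀ x ∈ Ioo (b - 1) a, Orb a x → ∀ j, n ≤ j → (gw w a n ^ j) x = ξ + j * k)
    {j : ℕ} (hj : n + 2 ≤ j) :
    gw w (a - (1 / 2) ^ n) (n * j + P) a ≤ a + (j * k + κ) := by
  have hn := D.hn
  set t₁ := a - (1 / 2 : ℝ) ^ n with ht₁
  have hpos : (0 : ℝ) < (1 / 2) ^ n := by positivity
  have hhalf : (1 / 2 : ℝ) ^ n ≤ 1 / 2 := by
    calc (1 / 2 : ℝ) ^ n ≤ (1 / 2) ^ 1 := pow_le_pow_of_le_one (by norm_num) (by norm_num) (by omega)
      _ = 1 / 2 := by norm_num
  have hlt : t₁ ≤ a := by linarith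
  -- one round at the parameter `t₁`
  have h1 : gw w t₁ n a ≤ t₁ + k := by
    obtain ⟨m, hm⟩ := D.right
    have e1 : gw w t₁ (n - 1) a ≤ (a + w (n - 1)) / 2 + m + 1 / 2 := by
      rw [← hm]; exact gw_mono w hlt (n - 1) a
    have e2 : gw w t₁ n a = tdbl (t₁ + w (n - 1)) (gw w t₁ (n - 1) a) := by
      have hn1 : n = n - 1 + 1 := by omega
      conv_lhs => rw [hn1]
      rw [gw_succ_apply]
    have e3 : gw w a n a = tdbl (a + w (n - 1)) (gw w a (n - 1) a) := by
      have hn1 : n = n - 1 + 1 := by omega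
      conv_lhs => rw [hn1]
      rw [gw_succ_apply]
    rw [D.fixa, hm, tdbl_flat m le_rfl (by linarith)] at e3
    have e4 := (tdbl (t₁ + w (n - 1))).monotone e1
    have e5 : tdbl (t₁ + w (n - 1)) ((a + w (n - 1)) / 2 + m + 1 / 2) = t₁ + w (n - 1) + m + 1 :=
      tdbl_flat m (by linarith) (by linarith)
    rw [e2]
    linarith
  obtain ⟨y, hy1, hy2, hy3, hy4⟩ := D.exists_y
  obtain ⟨i, rfl⟩ : ∃ i, j = i + 2 := ⟨j - 2, by omega⟩
  have h2 : (gw w t₁ n ^ (i + 2)) a ≤ (gw w a n ^ (i + 1)) t₁ + k := by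
    have e : (gw w t₁ n ^ (i + 2)) a = (gw w t₁ n ^ (i + 1)) (gw w t₁ n a) := by
      rw [pow_succ]; rfl
    rw [e]
    calc (gw w t₁ n ^ (i + 1)) (gw w t₁ n a) ≤ (gw w t₁ n ^ (i + 1)) (t₁ + k) :=
          (gw w t₁ n ^ (i + 1)).monotone h1
      _ = (gw w t₁ n ^ (i + 1)) t₁ + k := map_add_int _ _ _
      _ ≤ (gw w a n ^ (i + 1)) t₁ + k := by
          have := gw_mono w hlt (n * (i + 1)) t₁
          rw [gw_mul w t₁ n (i + 1) D.per, gw_mul w a n (i + 1) D.per] at this
          linarith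
  have h3 : (gw w a n ^ (i + 1)) t₁ ≤ ξ + ((i + 1) * k : ℝ) := by
    have e : (gw w a n ^ (i + 1)) t₁ = (gw w a n ^ i) (gw w a n t₁) := by rw [pow_succ]; rfl
    have e1 : gw w a n t₁ ≤ (gw w a n y - k) + k := by
      have := (gw w a n).monotone hy1
      linarith
    rw [e]
    calc (gw w a n ^ i) (gw w a n t₁) ≤ (gw w a n ^ i) ((gw w a n y - k) + k) :=
          (gw w a n ^ i).monotone e1
      _ = (gw w a n ^ i) (gw w a n y - k) + k := map_add_int _ _ _
      _ = ξ + ((i + 1) * k : ℝ) := by rw [hconv _ hy3 hy4 i (by omega)]; ring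
  have h4 : (gw w t₁ n ^ (i + 2)) a ≤ ξ + (((i + 2 : ℕ) * k : ℤ) : ℝ) := by
    push_cast; linarith
  rw [D.gw_long]
  calc gw w t₁ P ((gw w t₁ n ^ (i + 2)) a) ≤ gw w t₁ P (ξ + (((i + 2 : ℕ) * k : ℤ) : ℝ)) :=
        (gw w t₁ P).monotone h4
    _ = gw w t₁ P ξ + (((i + 2 : ℕ) * k : ℤ) : ℝ) := map_add_int _ _ _
    _ ≤ gw w a P ξ + (((i + 2 : ℕ) * k : ℤ) : ℝ) := by
        have := gw_mono w hlt P ξ
        linarith
    _ = a + (((i + 2 : ℕ) : ℝ) * k + κ) := by rw [hκ]; push_cast; ring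

end LH

/-! ### Reflection and the theorem -/

theorem phi_refl (u : ℝ) : phi (1 / 2 - u) = 1 - phi u := by
  have h0 := Int.floor_le u
  have h1 := Int.lt_floor_add_one u
  rcases le_or_gt u (⌊u⌋ + 1 / 2) with h | h
  · rw [phi_of_lin (x := u) ⌊u⌋ h0 h, phi_of_lin (x := 1 / 2 - u) (-⌊u⌋) (by push_cast; linarith)
      (by push_cast; linarith)]
    push_cast; ring
  · rw [phi_of_flat (x := u) ⌊u⌋ h.le h1.le, phi_of_flat (x := 1 / 2 - u) (-⌊u⌋ - 1)
      (by push_cast; linarith) (by push_cast; linarith)]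
    push_cast; ring

theorem tdbl_refl (s x : ℝ) : tdbl (-s - 1) (-x) = -tdbl s x := by
  rw [tdbl_apply, tdbl_apply]
  have : -x - (-s - 1) / 2 = 1 / 2 - (x - s / 2) := by ring
  rw [this, phi_refl]; ring

theorem gw_refl (w : ℕ → ℤ) (θ : ℝ) (n : ℕ) (x : ℝ) :
    gw (fun i => -1 - w i) (-θ) n (-x) = -gw w θ n x := by
  induction n with
  | zero => rfl
  | succ n ih =>
    rw [gw_succ_apply, ih, gw_succ_apply]
    have : -θ + ((-1 - w n : ℤ) : ℝ) = -(θ + w n) - 1 := by push_cast; ring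
    rw [this, tdbl_refl]

theorem step_refl {w : ℕ → ℤ} {n p q : ℕ} (h : Step w n p q) : Step (fun i => -1 - w i) n p q := by
  obtain ⟨r, h1, h2, h3, h4⟩ := h
  exact ⟨r, h1, h2, fun i hi => by show -1 - w (p + i) = -1 - w i; rw [h3 i hi],
    fun he => h4 (by have : -1 - w (p + r) = -1 - w r := he; omega)⟩

theorem transGen_refl {w : ℕ → ℤ} {n p q : ℕ} (h : Relation.TransGen (Step w n) p q) :
    Relation.TransGen (Step (fun i => -1 - w i) n) p q := by
  induction h with
  | single h => exact .single (step_refl h)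
  | tail _ h ih => exact .tail ih (step_refl h)

/-- **THEOREM CUT.** The primitive component with the wake `(a, b)` lies in the `1/2`-limb of a
component (word `w`, length `n j + P`, strip `K`) whose wake is contained in
`(a - 2^-n, b + 2^-n)`. -/
theorem cut {w : ℕ → ℤ} {n : ℕ} {a b : ℝ} {k : ℤ} (hL : LH w n a b k)
    (hR : LH (fun i => -1 - w i) n (-b) (-a) (-k))
    (la : ∀ i < n, gw w b i a = gw w a i a) :
    ∃ P, 0 < P ∧ P < n ∧ ∃ κ : ℤ, ∀ j : ℕ, n + 2 ≤ j →
      nu w (n * j + P) (a - (1 / 2) ^ n) ≤ ((j * k + κ : ℤ) : ℝ) ∧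
      nu w (n * j + P) a = ((j * k + κ : ℤ) : ℝ) + 1 / 2 ∧
      nu w (n * j + P) b = ((j * k + κ : ℤ) : ℝ) + 1 / 2 ∧
      ((j * k + κ : ℤ) : ℝ) + 1 ≤ nu w (n * j + P) (b + (1 / 2) ^ n) := by
  have hn := hL.hn
  obtain ⟨p, c, hc, hp, hch⟩ := hL.exists_chain
  obtain ⟨ξ, hξ, -, -, hu, hconv⟩ := hL.exists_xi
  obtain ⟨ξ', hξ', -, -, hu', hconv'⟩ := hR.exists_xi
  obtain ⟨κ, hκ⟩ := hL.phase_of_chain hc hp hch hu
  obtain ⟨κ', hκ'⟩ := hR.phase_of_chain hc hp (transGen_refl hch) hu'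
  set P := p % n with hP
  have hP0 : 0 < P := Nat.pos_of_ne_zero fun h => hp (Nat.dvd_of_mod_eq_zero h)
  have hPn : P < n := Nat.mod_lt _ (by omega)
  obtain ⟨⟨h1, h2⟩, -⟩ := hL.h_bounds hP0 hPn hξ hκ
  obtain ⟨-, h3, h4⟩ := hR.h_bounds hP0 hPn hξ' hκ'
  rw [gw_refl, la P hPn] at h3 h4
  have hlt := hL.lt
  have hlt1 := hL.lt1
  have hk : κ' = -1 - κ := by
    have e1 : ((κ + κ' : ℤ) : ℝ) < 0 := by push_cast; linarith
    have e2 : (-2 : ℝ) < ((κ + κ' : ℤ) : ℝ) := by push_cast; linarith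
    have e3 : κ + κ' < 0 := by exact_mod_cast e1
    have e4 : -2 < κ + κ' := by exact_mod_cast e2
    omega
  refine ⟨P, hP0, hPn, κ, fun j hj => ⟨?_, ?_, ?_, ?_⟩⟩
  · refine translationNumber_le_of_le_add_int (x := a) _ ?_
    have := hL.outside hκ hconv hj
    push_cast; linarith
  · have h := hL.half hP0 hPn hξ hκ hconv (j := j) (by omega)
    have h5 : (gw w a (n * j + P) ^ 2) a = a + ((2 * (j * k + κ) + 1 : ℤ) : ℝ) := by
      rw [pow_two]
      show gw w a (n * j + P) (gw w a (n * j + P) a) = _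
      rw [h]; push_cast; ring
    have h6 := translationNumber_of_map_pow_eq_add_int _ h5 (by norm_num)
    unfold nu
    rw [h6]; push_cast; ring
  · have h := hR.half hP0 hPn hξ' hκ' hconv' (j := j) (by omega)
    rw [gw_refl, gw_refl] at h
    have h5 : (gw w b (n * j + P) ^ 2) b = b + ((2 * (j * k + κ) + 1 : ℤ) : ℝ) := by
      rw [pow_two]
      show gw w b (n * j + P) (gw w b (n * j + P) b) = _
      rw [hk] at h
      push_cast at h ⊢; linarith
    have h6 := translationNumber_of_map_pow_eq_add_int _ h5 (by norm_num)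
    unfold nu
    rw [h6]; push_cast; ring
  · have h := hR.outside hκ' hconv' hj
    have e : -b - (1 / 2 : ℝ) ^ n = -(b + (1 / 2) ^ n) := by ring
    rw [e, gw_refl, hk] at h
    have h5 : b + ((j * k + κ + 1 : ℤ) : ℝ) ≤ gw w (b + (1 / 2) ^ n) (n * j + P) b := by
      push_cast at h ⊢; linarith
    have h6 := le_translationNumber_of_add_int_le _ h5
    unfold nu
    push_cast at h6 ⊢
    exact h6

end Pool.Agent.Work.MLC.Circ
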