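import Pool.Agent.Work.MLC.NV3

set_option autoImplicit false

/-! # The limb at a root, canonical form (helper6)

The limb of `M` at `r` is `MS \ connectedComponentIn (MS \ {r}) 0`: everything that `r` separates
from `0` in `M`, and `r` itself. -/

namespace Pool.Agent.Work.MLC

open Filter Topology Metric Set

/-- `z ^ 2` has only cycles with multiplier `0` or of modulus `2 ^ n` -/
theorem mul_zero_norm {n : ℕ} (hn : 0 < n) {b : ℂ} (hb : ((0 : ℂ), b) ∈ Per n) :
    mul n ((0 : ℂ), b) = 0 ∨ ‖mul n ((0 : ℂ), b)‖ = 2 ^ n := by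
  have hit : ∀ k, it 0 k b = b ^ 2 ^ k := by
    intro k
    induction k with
    | zero => simp
    | succ k ih => rw [it_succ, f_apply, ih, add_zero, ← pow_mul, pow_succ]
  have h1 : b ^ 2 ^ n = b := by
    have := hb
    simp only [Per, mem_ofPred_eq] at this
    rwa [hit] at this
  have h2 : ‖b‖ ^ 2 ^ n = ‖b‖ := by rw [← norm_pow, h1]
  have h3 : ‖b‖ = 0 ∨ ‖b‖ = 1 := by
    by_cases h0 : ‖b‖ = 0
    · exact Or.inl h0
    · right
      have h4 : ‖b‖ ^ (2 ^ n - 1) = 1 := by
        have h5 : ‖b‖ ^ (2 ^ n - 1) * ‖b‖ = 1 * ‖b‖ := by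
          rw [← pow_succ, Nat.sub_add_cancel Nat.one_le_two_pow, h2, one_mul]
        exact mul_right_cancel₀ h0 h5
      have h6 : 2 ^ n - 1 ≠ 0 := by
        have : 2 ≤ 2 ^ n := by
          calc 2 = 2 ^ 1 := by norm_num
            _ ≤ 2 ^ n := Nat.pow_le_pow_right (by norm_num) hn
        omega
      exact (pow_eq_one_iff_of_nonneg (norm_nonneg _) h6).1 h4
  have h7 : ‖mul n ((0 : ℂ), b)‖ = ∏ i ∈ Finset.range n, 2 * ‖b‖ ^ 2 ^ i := by
    unfold mul
    rw [norm_prod]
    refine Finset.prod_congr rfl fun i _ => ?_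
    simp only [hit, norm_mul, norm_pow]
    simp
  rcases h3 with h3 | h3
  · left
    rw [← norm_eq_zero, h7, h3]
    exact Finset.prod_eq_zero (Finset.mem_range.2 hn) (by simp)
  · right
    rw [h7, h3]
    simp only [one_pow, mul_one, Finset.prod_const, Finset.card_range]

/-- **the limb at a root** (main case) -/
theorem limb_canon {κ : ℝ} (hI : Inputs κ) {n p q : ℕ} {r b : ℂ}
    (hn : 0 < n) (hp : 0 < p) (hpq : p < q) (hcop : Nat.Coprime p q) (hb : it r n b = b)
    (hm : mul n (r, b) = Complex.exp (2 * Real.pi * (p / q) * Complex.I)) (hq3 : 3 ≤ q)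
    (hsm : 2 * Real.log 2 * (n : ℝ) ^ 2 * q < κ * (min (p : ℝ) (q - p)) ^ 2) :
    IsCompact (MS \ connectedComponentIn (MS \ {r}) 0) ∧
    IsConnected (MS \ connectedComponentIn (MS \ {r}) 0) ∧
    (∀ z ∈ MS \ connectedComponentIn (MS \ {r}) 0, z ≠ r →
      (MS \ connectedComponentIn (MS \ {r}) 0) \ {r} ∈ 𝓝[MS] z) ∧
    r ∈ closure ((MS \ connectedComponentIn (MS \ {r}) 0) ∩ interior MS) ∧
    MS \ connectedComponentIn (MS \ {r}) 0 ⊆
      closedBall r (18 * Real.log 2 / κ * (n ^ 2 * q / (min (p : ℝ) (q - p)) ^ 2)) := by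
  have hκ := hI.κ_pos
  have hlog : 0 < Real.log 2 := Real.log_pos (by norm_num)
  obtain ⟨x, σ, T, hden, hR0, hG, hσ, hσ', hσ0, hL⟩ := limb_piece hI hn hp hpq hcop hb hm
  have hq : 0 < q := hp.trans hpq
  have hq' : (0 : ℝ) < q := by exact_mod_cast hq
  have hn' : (0 : ℝ) < n := by exact_mod_cast hn
  have hp' : (0 : ℝ) < p := by exact_mod_cast hp
  have hpq' : (p : ℝ) < q := by exact_mod_cast hpq
  set m : ℝ := min (p : ℝ) (q - p) with hmdef
  have hm0 : 0 < m := lt_min hp' (by linarith)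
  set R : ℝ := κ * m ^ 2 / (q ^ 2 * n) with hR
  have hAR : 2 * n * Real.log 2 / x.den < R := by
    rw [hden, hR, div_lt_div_iff₀ hq' (by positivity)]
    have : 2 * n * Real.log 2 * (q ^ 2 * n) = (2 * Real.log 2 * n ^ 2 * q) * q := by ring
    rw [this]
    gcongr
  have hadm : LimbData.Adm x R (2 * n * Real.log 2) x := by
    unfold LimbData.Adm
    rw [sub_self, abs_zero, mul_zero, add_zero]
    exact hAR
  have hr1 : (σ (axisPt x)).1 = r := by rw [hσ0]
  have hcen : axisPt x ∈ ball (axisPt x) R := mem_ball_self hR0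
  set K := LimbData.K (fun L => (σ L).1) T x with hK
  have hKM : K ⊆ MS := hL.K_sub hadm
  have hKc : IsCompact K := hL.isCompact_K hI.cpt.isClosed hadm
  have hKp : IsPreconnected K := hL.K_conn hI.cpt.isClosed hI.conn hadm
  have hrK : r ∈ K := Or.inl hr1.symm
  have hKo : ∀ z ∈ K, z ≠ r → K \ {r} ∈ 𝓝[MS] z := by
    intro z hz hzr
    have h1 := hL.K_open hadm hz (by rw [hr1]; exact hzr)
    rwa [hr1] at h1
  have hKs : K ⊆ closedBall r (9 * (2 * n * Real.log 2 / x.den) / R) := by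
    have h1 := limb_size hG hσ hσ' hL hAR
    rwa [hr1] at h1
  obtain ⟨W, ⟨v, hv⟩, hW⟩ := hL.main hI.cpt hI.conn hadm
  rw [hr1] at hW
  have h0M : (0 : ℂ) ∈ MS := ball_sub_MS (mem_ball_self (by norm_num))
  -- `0 ∉ K`
  have h0K : (0 : ℂ) ∉ K := by
    intro h0
    rw [hK, LimbData.K_eq] at h0
    obtain ⟨L, hLP, hL0⟩ := h0
    have hLb : L ∈ ball (axisPt x) R :=
      closedBall_subset_ball hAR (hL.P_sub x hLP)
    have hre : 0 ≤ L.re := by
      rcases hLP with h1 | h1
      · rw [h1, LimbData.axisPt_re]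
      · exact (hL.T_dom L x h1).1.le
    have hre2 : L.re ≤ 2 * n * Real.log 2 / q := by
      have h1 := hL.P_sub x hLP
      rw [mem_closedBall, dist_eq_norm, hden] at h1
      have h2 := (Complex.re_le_norm (L - axisPt x)).trans h1
      rwa [Complex.sub_re, LimbData.axisPt_re, sub_zero] at h2
    obtain ⟨h3, h4⟩ := hσ' L hLb
    have h5 : σ L = (0, (σ L).2) := Prod.ext hL0 rfl
    have h6 : ((0 : ℂ), (σ L).2) ∈ Per n := by rw [← h5]; exact h3
    have h7 := mul_zero_norm hn h6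
    rw [← h5, h4] at h7
    rcases h7 with h7 | h7
    · exact Complex.exp_ne_zero _ h7
    · rw [Complex.norm_exp] at h7
      have h8 : L.re = n * Real.log 2 := by
        have := congrArg Real.log h7
        rwa [Real.log_exp, Real.log_pow] at this
      rw [h8, le_div_iff₀ hq'] at hre2
      have h9 : (3 : ℝ) ≤ q := by exact_mod_cast hq3
      have h10 : 0 < n * Real.log 2 := by positivity
      nlinarith
  have h0r : (0 : ℂ) ∈ MS \ {r} := by
    refine ⟨h0M, fun h3 => h0K ?_⟩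
    have h4 : (0 : ℂ) = r := h3
    rw [h4]; exact hrK
  -- the component of `0` is `M \ K`
  have hcompK : ∀ z ∈ connectedComponentIn (MS \ {r}) 0, z ∉ K := by
    intro z hz hzK
    exact h0K (NV.conn_sub hI.cpt.isClosed hKc.isClosed hKo isPreconnected_connectedComponentIn
      (connectedComponentIn_subset _ _) ⟨z, hz, hzK⟩ (mem_connectedComponentIn h0r))
  have hMK : ∀ z ∈ MS, z ∉ K → z ∈ connectedComponentIn (MS \ {r}) 0 := by
    intro z hz hzK
    have hzr : z ∈ MS \ {r} := ⟨hz, fun h1 => hzK (by rw [mem_singleton_iff.1 h1]; exact hrK)⟩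
    have h1 := connectedComponentIn_eq (hW z hz hzK hv)
    have h2 := connectedComponentIn_eq (hW 0 h0M h0K hv)
    rw [h2, ← h1]
    exact mem_connectedComponentIn hzr
  have hEq : MS \ connectedComponentIn (MS \ {r}) 0 = K := by
    ext z
    constructor
    · rintro ⟨h1, h2⟩
      by_contra h3
      exact h2 (hMK z h1 h3)
    · intro h1
      exact ⟨hKM h1, fun h2 => hcompK z h2 h1⟩
  rw [hEq]
  refine ⟨hKc, ⟨⟨r, hrK⟩, hKp⟩, hKo, ?_, ?_⟩
  · -- attracting parameters near `r`
    obtain ⟨t₀, ht₀, ht₀R, hattr⟩ := NV.attr_near hden hR0 hG hσ hσ' hL.inj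
    have hnq : 0 < n * q := Nat.mul_pos hn hq
    have hint : ∀ t : ℝ, 0 < t → t < t₀ → (σ (axisPt x + t)).1 ∈ interior MS := by
      intro t h1 h2
      obtain ⟨b', hb'⟩ := hattr t h1 h2
      exact NV.attr_interior hI hnq hb'
    have htype := NV.type_segment hL ht₀ ht₀R.le (fun t h1 h2 => interior_subset (hint t h1 h2))
    have hc : ContinuousAt (fun L => (σ L).1) (axisPt x) :=
      continuous_fst.continuousAt.comp (hσ.continuousAt (isOpen_ball.mem_nhds hcen))
    rw [mem_closure_iff_nhds]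
    intro N hN
    have h1 : (fun L => (σ L).1) ⁻¹' N ∈ 𝓝 (axisPt x) := by
      refine hc.preimage_mem_nhds ?_
      show N ∈ 𝓝 (σ (axisPt x)).1
      rw [hr1]; exact hN
    obtain ⟨δ, hδ, hδN⟩ := Metric.mem_nhds_iff.1 h1
    set t : ℝ := min (t₀ / 2) (δ / 2) with ht
    have ht0 : 0 < t := lt_min (by positivity) (by positivity)
    have htt : t < t₀ := (min_le_left _ _).trans_lt (by linarith)
    have htδ : t < δ := (min_le_right _ _).trans_lt (by linarith)
    refine ⟨(σ (axisPt x + t)).1, hδN ?_, Or.inr ⟨_, htype t ht0 htt, rfl⟩, hint t ht0 htt⟩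
    rw [mem_ball, dist_eq_norm, add_sub_cancel_left, Complex.norm_real, Real.norm_eq_abs,
      abs_of_pos ht0]
    exact htδ
  · refine hKs.trans (closedBall_subset_closedBall ?_)
    rw [hden, hR]
    apply le_of_eq
    field_simp
    ring

/-- **the size of a limb**: everything that `r` separates from `0` in `M` is within
`50 n² q / min (p, q - p)²` of `r` -/
theorem limb_dist (hI : Inputs (1 / 4)) {n p q : ℕ} {r b : ℂ}
    (hn : 0 < n) (hp : 0 < p) (hpq : p < q) (hcop : Nat.Coprime p q) (hb : it r n b = b)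
    (hm : mul n (r, b) = Complex.exp (2 * Real.pi * (p / q) * Complex.I)) :
    ∀ z ∈ MS \ connectedComponentIn (MS \ {r}) 0,
      dist z r ≤ 50 * (n ^ 2 * q / (min (p : ℝ) (q - p)) ^ 2) := by
  have hlog : 0 < Real.log 2 := Real.log_pos (by norm_num)
  have hlog2 : Real.log 2 < 0.6931471808 := Real.log_two_lt_d9
  have hq : 0 < q := hp.trans hpq
  have hq' : (0 : ℝ) < q := by exact_mod_cast hq
  have hn' : (0 : ℝ) < n := by exact_mod_cast hn
  have hn1 : (1 : ℝ) ≤ n := by exact_mod_cast hn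
  have hp' : (0 : ℝ) < p := by exact_mod_cast hp
  have hpq' : (p : ℝ) < q := by exact_mod_cast hpq
  have hm0 : 0 < min (p : ℝ) (q - p) := lt_min hp' (by linarith)
  have hrM : r ∈ MS := by
    by_contra h0
    have h1 := hI.rep n hn (r, b) hb h0
    rw [hm, Complex.norm_exp] at h1
    have h2 : (2 * (Real.pi : ℂ) * (p / q) * Complex.I).re = 0 := by
      have : (2 * (Real.pi : ℂ) * (p / q) * Complex.I) =
        ((2 * Real.pi * (p / q) : ℝ) : ℂ) * Complex.I := by push_cast; ring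
      rw [this, Complex.re_ofReal_mul, Complex.I_re, mul_zero]
    rw [h2, Real.exp_zero] at h1
    exact lt_irrefl _ h1
  intro z hz
  by_cases hsm : 3 ≤ q ∧ 2 * Real.log 2 * (n : ℝ) ^ 2 * q < 1 / 4 * (min (p : ℝ) (q - p)) ^ 2
  · obtain ⟨-, -, -, -, h⟩ := limb_canon hI hn hp hpq hcop hb hm hsm.1 hsm.2
    have h1 := h hz
    rw [mem_closedBall] at h1
    refine h1.trans ?_
    gcongr
    linarith
  · -- the trivial case
    have hbd : ∀ c ∈ MS, ‖c‖ ≤ 4 := by
      intro c hc
      have h1 := norm_it_le_of_G_zero (mem_M_iff.1 hc) 2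
      have h2 : it c 2 0 = c ^ 2 + c := by
        rw [it_succ, it_one, f_apply, f_apply]; ring
      rw [h2] at h1
      have h3 : ‖c‖ ^ 2 ≤ ‖c ^ 2 + c‖ + ‖c‖ := by
        rw [← norm_pow]
        calc ‖c ^ 2‖ = ‖(c ^ 2 + c) - c‖ := by ring_nf
          _ ≤ _ := norm_sub_le _ _
      nlinarith [norm_nonneg c]
    have h8 : dist z r ≤ 8 := by
      rw [dist_eq_norm]
      calc ‖z - r‖ ≤ ‖z‖ + ‖r‖ := norm_sub_le _ _
        _ ≤ 4 + 4 := add_le_add (hbd z hz.1) (hbd r hrM)
        _ = 8 := by norm_num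
    refine h8.trans ?_
    rw [← mul_div_assoc, le_div_iff₀ (by positivity)]
    rcases not_and_or.1 hsm with h | h
    · have hq2 : q ≤ 2 := by omega
      have hm1 : min (p : ℝ) (q - p) ≤ 1 := by
        have hq2' : (q : ℝ) ≤ 2 := by exact_mod_cast hq2
        have h1 := min_le_left (p : ℝ) (q - p)
        have h2 := min_le_right (p : ℝ) (q - p)
        linarith
      have hm2 : (min (p : ℝ) (q - p)) ^ 2 ≤ 1 := pow_le_one₀ hm0.le hm1
      have hq1 : (1 : ℝ) ≤ q := by exact_mod_cast hq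
      have h3 : (1 : ℝ) ≤ n ^ 2 * q := by nlinarith
      linarith
    · push Not at h
      nlinarith
end Pool.Agent.Work.MLC
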