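import Pool.Agent.Work.MLC.NV4
import Pool.Agent.Work.MLC.Final6c
import Pool.Agent.Work.MLC.Sat7
import Pool.Agent.Work.MLC.Inputs34
import Pool.Agent.Work.MP_c6f924_an.Dense2

set_option autoImplicit false

/-! # The parameters of the main theorem are dense in the boundary of `M` (helper6) -/

namespace Pool.Agent.Work.MLC.Dens

open Filter Topology Metric Set NV

/-- near every boundary point of `M` there is a parameter with a neutral cycle -/
theorem exists_neutral {U : Set ℂ} (hU : IsOpen U) {c : ℂ} (hc : c ∈ frontier MS) (hcU : c ∈ U) :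
    ∃ (n : ℕ) (x₀ : ℂ × ℂ), 0 < n ∧ x₀ ∈ Per n ∧ x₀.1 ∈ U ∧ ‖mul n x₀‖ = 1 := by
  obtain ⟨ε, hε, hεU⟩ := Metric.isOpen_iff.1 hU c hcU
  obtain ⟨n, hn, a, ha, had⟩ := Pool.Agent.Work.MP_c6f924_an.centers_dense hc hε
  have hn0 : 0 < n := hn
  have hc2 : c ∈ closure (MS)ᶜ := by
    have h3 : c ∈ frontier (MS)ᶜ := by rw [frontier_compl]; exact hc
    exact frontier_subset_closure h3
  obtain ⟨c₂, hc₂, hc₂d⟩ := Metric.mem_closure_iff.1 hc2 ε hε
  set γ : ℝ → ℂ := fun t => AffineMap.lineMap a c₂ t with hγ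
  have hγc : Continuous γ := by simp only [hγ]; exact AffineMap.lineMap_continuous
  have hγU : ∀ t ∈ Icc (0 : ℝ) 1, γ t ∈ U := by
    intro t ht
    apply hεU
    have h1 : a ∈ ball c ε := had
    have h2 : c₂ ∈ ball c ε := by rw [mem_ball, dist_comm]; exact hc₂d
    exact (convex_ball c ε).lineMap_mem h1 h2 ht
  have hK := isCompact_Per hn0 (K := closedBall 0 1) isClosed_closedBall (by
    intro z hz
    rw [mem_closedBall_zero_iff] at hz
    linarith)
  set A : Set ℝ := Icc 0 1 ∩ γ ⁻¹' (Prod.fst '' {x : ℂ × ℂ | x ∈ Per n ∧ mul n x ∈ closedBall 0 1})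
    with hA
  have hAc : IsCompact A := isCompact_Icc.inter_right ((hK.image continuous_fst).isClosed.preimage hγc)
  have h0 : (0 : ℝ) ∈ A := by
    refine ⟨⟨le_rfl, zero_le_one⟩, (a, 0), ⟨?_, ?_⟩, ?_⟩
    · exact ha
    · rw [mem_closedBall_zero_iff]
      have : mul n ((a, 0) : ℂ × ℂ) = 0 := by
        unfold mul
        exact Finset.prod_eq_zero (Finset.mem_range.2 hn0) (by simp)
      rw [this]; simp
    · simp [hγ]
  obtain ⟨t, htA, htmax⟩ := hAc.exists_isMaxOn ⟨0, h0⟩ continuousOn_id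
  obtain ⟨ht01, x, ⟨hxP, hxm⟩, hxt⟩ := htA
  rw [mem_closedBall_zero_iff] at hxm
  have hx1 : x.1 = γ t := hxt
  refine ⟨n, x, hn0, hxP, by rw [hx1]; exact hγU t ht01, ?_⟩
  by_contra hne
  have hlt : ‖mul n x‖ < 1 := lt_of_le_of_ne hxm hne
  have ht1 : t < 1 := by
    refine lt_of_le_of_ne ht01.2 fun h1 => hc₂ ?_
    rw [h1] at hx1
    have h2 : γ 1 = c₂ := by simp [hγ]
    rw [h2] at hx1
    by_contra h3
    have h4 := inputs34.rep n hn0 x hxP (by rw [hx1]; exact h3)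
    linarith
  have hm1 : mul n x ≠ 1 := by
    intro h1
    rw [h1, norm_one] at hlt
    exact lt_irrefl _ hlt
  obtain ⟨β, hβ, hβ0, hβe⟩ := chart hxP hm1
  have ht := chart_tendsto hβ hβ0
  have h2 : ∀ᶠ y in 𝓝 x, ‖mul n y‖ < 1 :=
    (continuous_mul' n).norm.continuousAt.eventually (gt_mem_nhds hlt)
  have h3 : ∀ᶠ c' in 𝓝 x.1, ‖mul n (c', β c')‖ < 1 ∧ (c', β c') ∈ Per n := by
    filter_upwards [ht.eventually h2, ht.eventually hβe] with c' h3 h4
    exact ⟨h3, h4.2 rfl⟩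
  rw [hx1] at h3
  have h4 : ∀ᶠ s in 𝓝 t, ‖mul n (γ s, β (γ s))‖ < 1 ∧ (γ s, β (γ s)) ∈ Per n :=
    hγc.continuousAt.eventually h3
  obtain ⟨δ, hδ, hδs⟩ := Metric.eventually_nhds_iff.1 h4
  set s : ℝ := min (t + δ / 2) 1 with hs
  have hst : t < s := lt_min (by linarith) ht1
  have hs1 : s ≤ 1 := min_le_right _ _
  have hsd : dist s t < δ := by
    rw [Real.dist_eq, abs_of_pos (by linarith)]
    have := min_le_left (t + δ / 2) 1
    linarith
  obtain ⟨h5, h6⟩ := hδs hsd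
  have hsA : s ∈ A := by
    refine ⟨⟨ht01.1.trans hst.le, hs1⟩, _, ⟨h6, ?_⟩, rfl⟩
    rw [mem_closedBall_zero_iff]; exact h5.le
  have := htmax hsA
  simp only [id_eq, mem_ofPred_eq] at this
  linarith

/-- near every boundary point of `M` there are parameters with cycles of multiplier
`exp (2 π i ψ)`, for all `ψ` in an interval -/
theorem exists_interval {U : Set ℂ} (hU : IsOpen U) {c : ℂ} (hc : c ∈ frontier MS) (hcU : c ∈ U) :
    ∃ (n : ℕ) (φ δ : ℝ), 0 < n ∧ 0 < δ ∧ 0 < φ ∧ φ < 1 ∧ ∀ ψ, |ψ - φ| < δ → ∃ x ∈ Per n,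
      x.1 ∈ U ∧ mul n x = Complex.exp ((2 * Real.pi * ψ : ℝ) * Complex.I) := by
  obtain ⟨n, x₀, hn, hx₀, hxU, hm⟩ := exists_neutral hU hc hcU
  have hcont : Continuous fun ψ : ℝ => Complex.exp ((2 * Real.pi * ψ : ℝ) * Complex.I) := by
    fun_prop
  by_cases h1 : mul n x₀ = 1
  · -- the parabolic case
    have h2 := One49.near_parabolic hn (c := x₀.1) (y := x₀.2) hx₀ h1 (hU.mem_nhds hxU)
    have h3 : ∀ᶠ ψ : ℝ in 𝓝 0, ∃ c' ∈ U, ∃ b, it c' n b = b ∧
        mult n c' b = Complex.exp ((2 * Real.pi * ψ : ℝ) * Complex.I) := by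
      have h4 : Tendsto (fun ψ : ℝ => Complex.exp ((2 * Real.pi * ψ : ℝ) * Complex.I)) (𝓝 0)
          (𝓝 1) := by
        have := hcont.tendsto 0
        simpa using this
      exact h4.eventually h2
    obtain ⟨δ, hδ, hδs⟩ := Metric.eventually_nhds_iff.1 h3
    set φ : ℝ := min (δ / 2) (1 / 2) with hφ
    have hφ0 : 0 < φ := lt_min (by positivity) (by norm_num)
    have hφ1 : φ ≤ 1 / 2 := min_le_right _ _
    have hφδ : φ ≤ δ / 2 := min_le_left _ _
    refine ⟨n, φ, δ / 2, hn, by positivity, hφ0, by linarith, fun ψ hψ => ?_⟩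
    obtain ⟨c', hc', b, hb, hbm⟩ := hδs (y := ψ) (by
      rw [Real.dist_eq, sub_zero]
      calc |ψ| = |(ψ - φ) + φ| := by ring_nf
        _ ≤ |ψ - φ| + |φ| := abs_add_le _ _
        _ < δ := by rw [abs_of_pos hφ0]; linarith)
    exact ⟨(c', b), hb, hc', hbm⟩
  · -- the other case
    have h2 : ‖mul n x₀‖ < 23 / 10 := by rw [hm]; norm_num
    have hN : {x : ℂ × ℂ | x.1 ∈ U} ∈ 𝓝 x₀ :=
      continuous_fst.continuousAt.preimage_mem_nhds (hU.mem_nhds hxU)
    have h3 := mul_open hn hx₀ h1 h2 hN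
    obtain ⟨θ, hθ⟩ : ∃ θ : ℝ, mul n x₀ = Complex.exp (θ * Complex.I) := by
      refine ⟨Complex.arg (mul n x₀), ?_⟩
      have := Complex.norm_mul_exp_arg_mul_I (mul n x₀)
      rw [hm, Complex.ofReal_one, one_mul] at this
      exact this.symm
    set φ : ℝ := Int.fract (θ / (2 * Real.pi)) with hφ
    have hpi := Real.pi_pos
    have hθφ : Complex.exp ((2 * Real.pi * φ : ℝ) * Complex.I) = mul n x₀ := by
      rw [hθ, Complex.exp_eq_exp_iff_exists_int]
      refine ⟨-⌊θ / (2 * Real.pi)⌋, ?_⟩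
      have h4 : φ = θ / (2 * Real.pi) - ⌊θ / (2 * Real.pi)⌋ := rfl
      rw [h4]
      push_cast
      have h5 : (Real.pi : ℂ) ≠ 0 := by exact_mod_cast hpi.ne'
      field_simp
      ring
    have hφ0 : 0 < φ := by
      refine lt_of_le_of_ne (Int.fract_nonneg _) fun h4 => h1 ?_
      rw [← hθφ, ← h4]; simp
    have hφ1 : φ < 1 := Int.fract_lt_one _
    have h4 : ∀ᶠ ψ : ℝ in 𝓝 φ, ∃ x ∈ {x : ℂ × ℂ | x.1 ∈ U} ∩ Per n,
        mul n x = Complex.exp ((2 * Real.pi * ψ : ℝ) * Complex.I) := by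
      have h5 := hcont.tendsto φ
      rw [hθφ] at h5
      exact h5.eventually h3
    obtain ⟨δ, hδ, hδs⟩ := Metric.eventually_nhds_iff.1 h4
    refine ⟨n, φ, δ, hn, hδ, hφ0, hφ1, fun ψ hψ => ?_⟩
    obtain ⟨x, ⟨hx1, hx2⟩, hx3⟩ := hδs (y := ψ) (by rw [Real.dist_eq]; exact hψ)
    exact ⟨x, hx2, hx1, hx3⟩

/-- good rational numbers in an interval -/
theorem exists_rat {φ δ B : ℝ} (hφ0 : 0 < φ) (hφ1 : φ < 1) (hδ : 0 < δ) (hB : 0 < B) :
    ∃ p q : ℕ, 0 < p ∧ p < q ∧ Nat.Coprime p q ∧ |(p : ℝ) / q - φ| < δ ∧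
      B * q ≤ (min (p : ℝ) (q - p)) ^ 2 := by
  set d : ℝ := min δ (min φ (1 - φ)) / 2 with hd
  have hd0 : 0 < d := by
    have : 0 < min δ (min φ (1 - φ)) := lt_min hδ (lt_min hφ0 (by linarith))
    positivity
  have hdδ : d < δ := by
    have h1 := min_le_left δ (min φ (1 - φ))
    have : 0 < min δ (min φ (1 - φ)) := lt_min hδ (lt_min hφ0 (by linarith))
    linarith
  have hdφ : 2 * d ≤ φ := by
    have h1 := (min_le_right δ (min φ (1 - φ))).trans (min_le_left φ (1 - φ))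
    linarith
  have hdφ1 : 2 * d ≤ 1 - φ := by
    have h1 := (min_le_right δ (min φ (1 - φ))).trans (min_le_right φ (1 - φ))
    linarith
  obtain ⟨N, hN⟩ := exists_nat_gt (max (1 / d) (B / d ^ 2))
  obtain ⟨q, hqN, hqp⟩ := Nat.exists_infinite_primes (N + 1)
  have hqN' : (N : ℝ) + 1 ≤ q := by exact_mod_cast hqN
  have hq0 : (0 : ℝ) < q := by exact_mod_cast hqp.pos
  have hq1 : 1 / d < q := (le_max_left _ _).trans_lt (hN.trans (by linarith))
  have hq2 : B / d ^ 2 < q := (le_max_right _ _).trans_lt (hN.trans (by linarith))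
  rw [div_lt_iff₀ hd0] at hq1
  rw [div_lt_iff₀ (by positivity)] at hq2
  set p : ℕ := ⌊φ * q⌋₊ with hp
  have hp1 : (p : ℝ) ≤ φ * q := Nat.floor_le (by positivity)
  have hp2 : φ * q < p + 1 := Nat.lt_floor_add_one _
  have hpd : d * q ≤ p := by
    have h1 : 2 * d * q ≤ φ * q := by gcongr
    nlinarith
  have hp0 : 0 < p := by
    have : (0 : ℝ) < p := lt_of_lt_of_le (by positivity) hpd
    exact_mod_cast this
  have hqpd : d * q ≤ q - p := by
    have h1 : 2 * d * q ≤ (1 - φ) * q := by gcongr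
    nlinarith
  have hpq : p < q := by
    have : (p : ℝ) < q := by
      have : 0 < d * q := by positivity
      linarith
    exact_mod_cast this
  refine ⟨p, q, hp0, hpq, ?_, ?_, ?_⟩
  · exact (hqp.coprime_iff_not_dvd.2 (Nat.not_dvd_of_pos_of_lt hp0 hpq)).symm
  · rw [abs_sub_lt_iff]
    constructor
    · rw [sub_lt_iff_lt_add, div_lt_iff₀ hq0]
      nlinarith
    · rw [sub_lt_comm, lt_div_iff₀ hq0]
      nlinarith
  · have h1 : d * q ≤ min (p : ℝ) (q - p) := le_min hpd hqpd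
    calc B * q ≤ q * d ^ 2 * q := by gcongr
      _ = (d * q) ^ 2 := by ring
      _ ≤ _ := by gcongr

/-- a stage inside a given neighbourhood of a boundary point -/
theorem stage_local {U : Set ℂ} (hU : IsOpen U) {c : ℂ} (hc : c ∈ frontier MS) (hcU : c ∈ U) :
    ∃ (n : ℕ) (K : Set ℂ) (r : ℂ), Stage (1 / 4) n K r ∧ K ⊆ U := by
  have hlog : 0 < Real.log 2 := Real.log_pos (by norm_num)
  obtain ⟨ε, hε, hεU⟩ := Metric.isOpen_iff.1 hU c hcU
  obtain ⟨n, φ, δ, hn, hδ, hφ0, hφ1, hψ⟩ := exists_interval (U := ball c (ε / 2)) isOpen_ball hc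
    (mem_ball_self (by positivity))
  have hn' : (0 : ℝ) < n := by exact_mod_cast hn
  set B : ℝ := max (288 * Real.log 2 / (1 / 4) * n ^ 2) (50 * n ^ 2 / (ε / 4)) with hB
  have hB0 : 0 < B := lt_max_of_lt_left (by positivity)
  obtain ⟨p, q, hp, hpq, hcop, hd, hBq⟩ := exists_rat hφ0 hφ1 hδ hB0
  have hq : 0 < q := hp.trans hpq
  have hq' : (0 : ℝ) < q := by exact_mod_cast hq
  have hp' : (0 : ℝ) < p := by exact_mod_cast hp
  have hpq' : (p : ℝ) < q := by exact_mod_cast hpq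
  obtain ⟨y, hyP, hyU, hym⟩ := hψ _ hd
  set x : ℚ := (p : ℚ) / q with hx
  have hxr : (x : ℝ) = p / q := by rw [hx]; push_cast; rfl
  have hx0 : 0 < x := by
    have h1 : (0 : ℚ) < p := by exact_mod_cast hp
    have h2 : (0 : ℚ) < q := by exact_mod_cast hq
    exact div_pos h1 h2
  have hx1 : x < 1 := by
    have h2 : (0 : ℚ) < q := by exact_mod_cast hq
    rw [hx, div_lt_one h2]
    exact_mod_cast hpq
  have hden : x.den = q := by
    have h1 := Rat.den_div_eq_of_coprime (a := (p : ℤ)) (b := (q : ℤ)) (by omega)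
      (by simpa using hcop)
    have h2 : (((p : ℤ) : ℚ) / ((q : ℤ) : ℚ)) = x := by rw [hx]; push_cast; rfl
    rw [h2] at h1
    exact_mod_cast h1
  have hG := inputs34.good n hn x hx0 hx1
  set R : ℝ := 1 / 4 * (min (x : ℝ) (1 - x)) ^ 2 / n with hR
  have hR0 : 0 < R := by
    have h1 : (0 : ℝ) < x := by exact_mod_cast hx0
    have h2 : (x : ℝ) < 1 := by exact_mod_cast hx1
    have h3 : 0 < min (x : ℝ) (1 - x) := lt_min h1 (by linarith)
    positivity
  have hax : axisPt x = ((2 * Real.pi * ((p : ℝ) / q) : ℝ) : ℂ) * Complex.I := by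
    unfold axisPt
    rw [hxr]
  obtain ⟨σ, hσ, hσ', hσ0⟩ := exists_section hG (convex_ball _ _) hyP (mem_ball_self hR0)
    (by rw [hym, hax])
  have hBB : 288 * Real.log 2 / (1 / 4) * (n : ℝ) ^ 2 * q ≤ (min (p : ℝ) (q - p)) ^ 2 := by
    refine le_trans ?_ hBq
    gcongr
    exact le_max_left _ _
  obtain ⟨K, hK, -⟩ := mk_stage inputs34 hn hp hpq hcop hxr hden hBB hσ hσ'
  have hr : (σ (axisPt x)).1 = y.1 := by rw [hσ0]
  rw [hr] at hK
  refine ⟨n, K, y.1, hK, fun z hz => ?_⟩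
  -- size of `K`
  have hmy : mul n (y.1, y.2) = Complex.exp (2 * Real.pi * (p / q) * Complex.I) := by
    show mul n y = _
    rw [hym]
    congr 1
    push_cast
    ring
  have hyP' : it y.1 n y.2 = y.2 := hyP
  have h1 : z ∉ connectedComponentIn (MS \ {y.1}) 0 := by
    intro h0
    have h1 : connectedComponentIn (MS \ {y.1}) 0 ⊆ K :=
      conn_sub inputs34.cpt.isClosed hK.cpt.isClosed hK.opn isPreconnected_connectedComponentIn
        (connectedComponentIn_subset _ _) ⟨z, h0, hz⟩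
    have h0M : (0 : ℂ) ∈ MS := ball_sub_MS (mem_ball_self (by norm_num))
    have h2 : (0 : ℂ) ∈ MS \ {y.1} := by
      refine ⟨h0M, fun h3 => hK.zero ?_⟩
      have h4 : (0 : ℂ) = y.1 := h3
      rw [h4]; exact hK.root
    exact hK.zero (h1 (mem_connectedComponentIn h2))
  have h2 := limb_dist inputs34 hn hp hpq hcop hyP' hmy z ⟨hK.sub hz, h1⟩
  have h3 : 50 * ((n : ℝ) ^ 2 * q / (min (p : ℝ) (q - p)) ^ 2) ≤ ε / 4 := by
    have hm0 : 0 < min (p : ℝ) (q - p) := lt_min hp' (by linarith)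
    rw [← mul_div_assoc, div_le_iff₀ (by positivity)]
    have h4 : 50 * (n : ℝ) ^ 2 / (ε / 4) * q ≤ (min (p : ℝ) (q - p)) ^ 2 := by
      refine le_trans ?_ hBq
      gcongr
      exact le_max_right _ _
    have h5 := mul_le_mul_of_nonneg_left h4 (by positivity : (0 : ℝ) ≤ ε / 4)
    have h6 : ε / 4 * (50 * (n : ℝ) ^ 2 / (ε / 4) * q) = 50 * (n ^ 2 * q) := by
      field_simp
    linarith
  apply hεU
  rw [mem_ball] at hyU ⊢
  calc dist z c ≤ dist z y.1 + dist y.1 c := dist_triangle _ _ _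
    _ < ε := by linarith

/-- **uncountably many** parameters with the property in every open set which meets the boundary
of `M` -/
theorem uncountable_local {U : Set ℂ} (hU : IsOpen U) (hne : (U ∩ frontier MS).Nonempty) :
    ¬ {c₀ ∈ MS ∩ U | Prop6 (1 / 4) c₀}.Countable := by
  classical
  intro hcount
  obtain ⟨c, hcU, hc⟩ := hne
  let X := {s : ℕ × Set ℂ × ℂ // Stage (1 / 4) s.1 s.2.1 s.2.2}
  have hstep : ∀ (s : X) (w : ℂ), ∃ s' : X, s.1.1 < s'.1.1 ∧ s'.1.2.1 ⊆ s.1.2.1 \ {s.1.2.2} ∧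
      w ∉ s'.1.2.1 := by
    rintro ⟨⟨n, K, r⟩, hs⟩ w
    obtain ⟨n', K₁, r₁, K₂, r₂, h1, h2, h3, h4, h5, h6⟩ := stage_two inputs34 hs
    by_cases hw : w ∈ K₁
    · exact ⟨⟨⟨n', K₂, r₂⟩, h3⟩, h1, h5, fun h7 => disjoint_left.1 h6 hw h7⟩
    · exact ⟨⟨⟨n', K₁, r₁⟩, h2⟩, h1, h4, hw⟩
  choose F hF1 hF2 hF3 using hstep
  obtain ⟨n₀, K₀, r₀, h₀, hK₀⟩ := stage_local hU hc hcU
  -- the tower along a sequence of points to avoid
  have tower : ∀ e : ℕ → ℂ, ∃ c₀ ∈ MS ∩ U, Prop6 (1 / 4) c₀ ∧ ∀ m, c₀ ≠ e m := by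
    intro e
    let s : ℕ → X := fun m => Nat.rec (⟨⟨n₀, K₀, r₀⟩, h₀⟩ : X) (fun k s => F s (e k)) m
    have hs : ∀ m, s (m + 1) = F (s m) (e m) := fun m => rfl
    obtain ⟨c₀, hc₀M, hc₀K, hc₀⟩ := param_of_tower inputs34 (n := fun m => (s m).1.1)
      (K := fun m => (s m).1.2.1) (r := fun m => (s m).1.2.2) (fun m => (s m).2)
      (fun m => by simp only [hs]; exact hF1 _ _) (fun m => by simp only [hs]; exact hF2 _ _)
    refine ⟨c₀, ⟨hc₀M, hK₀ (hc₀K 0)⟩, hc₀, fun m hm => ?_⟩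
    have h2 := hc₀K (m + 1)
    simp only [hs] at h2
    rw [hm] at h2
    exact hF3 _ _ h2
  have hne : {c₀ ∈ MS ∩ U | Prop6 (1 / 4) c₀}.Nonempty := by
    obtain ⟨c₀, h1, h2, -⟩ := tower fun _ => 0
    exact ⟨c₀, h1, h2⟩
  obtain ⟨e, he⟩ := hcount.exists_eq_range hne
  obtain ⟨c₀, h1, h2, h3⟩ := tower e
  have h4 : c₀ ∈ range e := by rw [← he]; exact ⟨h1, h2⟩
  obtain ⟨m, hm⟩ := h4
  exact h3 m hm.symm

end Pool.Agent.Work.MLC.Dens
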