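import Pool.Agent.Work.MLC.SatV6
import Pool.Agent.Work.MLC.Dens6

set_option autoImplicit false

/-! # The statement about local connectivity, with density (helper6) -/

namespace Pool.Agent.Work.MLC.Sat

open N62a1eb23 Set Filter Topology Metric

theorem res_localConn_dense (hSP : SatPiece) : ∃ S : Set ℂ,
    (∀ c₀ : ℂ, c₀ ∈ S ↔ c₀ ∈ mandelbrotSet ∧ ∀ N : ℕ, ∃ (n p q : ℕ) (r b : ℂ), N ≤ n ∧
      0 < n ∧ 0 < p ∧ p < q ∧ Nat.Coprime p q ∧ (fun z : ℂ => z ^ 2 + r)^[n] b = b ∧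
      deriv ((fun z : ℂ => z ^ 2 + r)^[n]) b = Complex.exp (2 * Real.pi * (p / q) * Complex.I) ∧
      c₀ ≠ r ∧ c₀ ∉ connectedComponentIn (mandelbrotSet \ {r}) 0 ∧
      (16 * Real.log 2 * (n : ℝ) ^ 2 * q ≤ (min (p : ℝ) (q - p)) ^ 2 ∨
        (10 ^ 15 * n ^ 12 ≤ q ∧ ∃ (m p₀ q₀ : ℕ) (r₀ b₀ : ℂ) (W : Set (ℂ × ℂ)),
          n = m * q₀ ∧ 0 < p₀ ∧ p₀ < q₀ ∧ Nat.Coprime p₀ q₀ ∧
          Function.minimalPeriod (fun z : ℂ => z ^ 2 + r₀) b₀ = m ∧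
          deriv ((fun z : ℂ => z ^ 2 + r₀)^[m]) b₀ =
            Complex.exp (2 * Real.pi * (p₀ / q₀) * Complex.I) ∧
          Function.minimalPeriod (fun z : ℂ => z ^ 2 + r) b = n ∧ IsPreconnected W ∧
          (∀ x ∈ W, Function.minimalPeriod (fun z : ℂ => z ^ 2 + x.1) x.2 = n ∧
            ‖deriv ((fun z : ℂ => z ^ 2 + x.1)^[n]) x.2‖ < 1) ∧
          (r₀, b₀) ∈ closure W ∧ (r, b) ∈ closure W))) ∧
    (∀ U : Set ℂ, IsOpen U → (U ∩ frontier mandelbrotSet).Nonempty → ¬ (S ∩ U).Countable) ∧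
    ∀ c₀ ∈ S, ∀ U ∈ 𝓝 c₀, ∃ V ⊆ U, V ⊆ mandelbrotSet ∧ IsCompact V ∧ IsConnected V ∧
      V ∈ 𝓝[mandelbrotSet] c₀ := by
  have hlog : 0 < Real.log 2 := Real.log_pos (by norm_num)
  have hmul : ∀ (n : ℕ) (r b : ℂ), deriv ((fun z : ℂ => z ^ 2 + r)^[n]) b =
      Pool.Agent.Work.MLC.mul n (r, b) :=
    fun n r b => (Pool.Agent.Work.MLC.hasDerivAt_it r n b).deriv
  refine ⟨{c₀ | _}, fun c₀ => Iff.rfl, fun U hU hne hS => ?_, ?_⟩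
  · refine Dens.uncountable_local hU hne (hS.mono ?_)
    rintro c₀ ⟨⟨h1, hcU⟩, h2⟩
    refine ⟨⟨h1, fun N => ?_⟩, hcU⟩
    obtain ⟨n, p, q, r, b, h3, h4, h5, h6, h7, h8, h9, h10, h11, h12⟩ := h2 N
    exact ⟨n, p, q, r, b, h3, h4, h5, h6, h7, h8, (hmul n r b).trans h9,
      h11.symm, h12, Or.inl (by linarith)⟩
  · rintro c₀ ⟨h1, h2⟩
    refine lc_main hSP h1 fun N => ?_
    obtain ⟨n, p, q, r, b, h3, h4, h5, h6, h7, h8, h9, h10, h11, h12⟩ := h2 N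
    refine ⟨n, p, q, r, b, h3, h4, h5, h6, h7, h8, (hmul n r b).symm.trans h9,
      h10.symm, fun h13 => h11 ?_, ?_⟩
    · rw [← h13]
      exact mem_connectedComponentIn ⟨h1, h10⟩
    · rcases h12 with h12 | ⟨h12, m, p₀, q₀, r₀, b₀, W, k1, k2, k3, k4, k5, k6, k7, k8, k9, k10,
        k11⟩
      · exact Or.inl h12
      · right
        obtain ⟨W', hW1, hW2⟩ := sat_of_conn h4 k1 k2 k3 k4 k5 k6 h5 h6 h7 k7 h9 k8 k9 k10 k11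
        refine ⟨?_, m, p₀, q₀, r₀, b₀, W', k1, hW1, hW2⟩
        have : (((10 : ℕ) ^ 15 * n ^ 12 : ℕ) : ℝ) ≤ q := by exact_mod_cast h12
        push_cast at this
        linarith

end Pool.Agent.Work.MLC.Sat
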