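import Pool.Agent.Work.MLC.Dens6
import Mathlib.Topology.GDelta.Basic
import Mathlib.Topology.Baire.Lemmas

set_option autoImplicit false

/-! # The parameters of the main theorem are residual in the boundary of `M` (helper6) -/

namespace Pool.Agent.Work.MLC.Dens

open Filter Topology Metric Set NV

/-- stages of arbitrarily large period below a stage -/
theorem stage_deep {n : ℕ} {K : Set ℂ} {r : ℂ} (h : Stage (1 / 4) n K r) (N : ℕ) :
    ∃ (n' : ℕ) (K' : Set ℂ) (r' : ℂ), N ≤ n' ∧ Stage (1 / 4) n' K' r' ∧ K' ⊆ K := by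
  induction N with
  | zero => exact ⟨n, K, r, Nat.zero_le _, h, subset_rfl⟩
  | succ N ih =>
    obtain ⟨n', K', r', h1, h2, h3⟩ := ih
    obtain ⟨n'', K₁, r₁, K₂, r₂, h4, h5, h6, h7, h8, h9⟩ := stage_two inputs34 h2
    exact ⟨n'', K₁, r₁, by omega, h5, h7.trans (sdiff_subset.trans h3)⟩

/-- the points of a stage other than the root are not in the component of `0` -/
theorem not_mem_component {n : ℕ} {K : Set ℂ} {r c : ℂ} (hst : Stage (1 / 4) n K r) (hc : c ∈ K) :
    c ∉ connectedComponentIn (MS \ {r}) 0 := by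
  intro h0
  have h1 : connectedComponentIn (MS \ {r}) 0 ⊆ K :=
    conn_sub inputs34.cpt.isClosed hst.cpt.isClosed hst.opn isPreconnected_connectedComponentIn
      (connectedComponentIn_subset _ _) ⟨c, h0, hc⟩
  have h0M : (0 : ℂ) ∈ MS := ball_sub_MS (mem_ball_self (by norm_num))
  have h2 : (0 : ℂ) ∈ MS \ {r} := by
    refine ⟨h0M, fun h3 => hst.zero ?_⟩
    have h4 : (0 : ℂ) = r := h3
    rw [h4]; exact hst.root
  exact hst.zero (h1 (mem_connectedComponentIn h2))

/-- the points in stages of period at least `N` -/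
def OS (N : ℕ) : Set (frontier MS) :=
  {c | ∃ (n : ℕ) (K : Set ℂ) (r : ℂ), N ≤ n ∧ Stage (1 / 4) n K r ∧ c.1 ∈ K ∧ c.1 ≠ r}

theorem isOpen_OS (N : ℕ) : IsOpen (OS N) := by
  rw [isOpen_iff_mem_nhds]
  rintro c ⟨n, K, r, h1, h2, h3, h4⟩
  have h5 : K \ {r} ∈ 𝓝[frontier MS] c.1 :=
    nhdsWithin_mono _ inputs34.cpt.isClosed.frontier_subset (h2.opn c.1 h3 h4)
  have h6 : (Subtype.val : frontier MS → ℂ) ⁻¹' (K \ {r}) ∈ 𝓝 c := by
    rw [nhds_subtype_eq_comap_nhdsWithin]
    exact preimage_mem_comap h5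
  filter_upwards [h6] with d hd
  exact ⟨n, K, r, h1, h2, hd.1, fun h7 => hd.2 h7⟩

theorem dense_OS (N : ℕ) : Dense (OS N) := by
  rw [dense_iff_inter_open]
  rintro V hV ⟨c, hc⟩
  obtain ⟨U, hU, rfl⟩ := isOpen_induced_iff.1 hV
  obtain ⟨n, K, r, h1, h2⟩ := stage_local hU c.2 hc
  obtain ⟨n', K', r', h3, h4, h5⟩ := stage_deep h1 N
  obtain ⟨n'', K₁, r₁, K₂, r₂, h6, h7, h8, h9, h10, h11⟩ := stage_two inputs34 h4
  have hr₁ : r₁ ∈ K' \ {r'} := h9 h7.root
  exact ⟨⟨r₁, h7.front⟩, h2 (h5 hr₁.1), n', K', r', h3, h4, hr₁.1, fun h12 => hr₁.2 h12⟩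

theorem prop6_of_OS {c : frontier MS} (h : ∀ N, c ∈ OS N) : Prop6 (1 / 4) c.1 := by
  intro N
  obtain ⟨n, K, r, h1, h2, h3, h4⟩ := h N
  obtain ⟨p, q, b, hp, hpq, hcop, hb, hm, hr⟩ := h2.data
  exact ⟨n, p, q, r, b, h1, h2.npos, hp, hpq, hcop, hb, hm, hr, fun h0 => h4 h0.symm,
    not_mem_component h2 h3⟩

/-- **residual**: the parameters with the property contain a countable intersection of dense open
subsets of the boundary of `M` -/
theorem residual_prop6 : {c : frontier MS | Prop6 (1 / 4) c.1} ∈ residual (frontier MS) := by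
  have h1 : (⋂ N, OS N) ∈ residual (frontier MS) :=
    countable_iInter_mem.2 fun N => residual_of_dense_open (isOpen_OS N) (dense_OS N)
  refine mem_of_superset h1 fun c hc => prop6_of_OS fun N => ?_
  exact mem_iInter.1 hc N

/-- the same, in terms of subsets of the plane -/
theorem exists_gdelta_prop6 : ∃ G : Set ℂ, IsGδ G ∧ G ⊆ frontier MS ∧ frontier MS ⊆ closure G ∧
    ∀ c ∈ G, Prop6 (1 / 4) c := by
  have hO : ∀ N, ∃ U : Set ℂ, IsOpen U ∧ (Subtype.val : frontier MS → ℂ) ⁻¹' U = OS N :=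
    fun N => isOpen_induced_iff.1 (isOpen_OS N)
  choose U hU hUO using hO
  refine ⟨frontier MS ∩ ⋂ N, U N, ?_, inter_subset_left, ?_, ?_⟩
  · exact isClosed_frontier.isGδ.inter (IsGδ.iInter fun N => (hU N).isGδ)
  · have : CompleteSpace (frontier MS) := isClosed_frontier.isComplete.completeSpace_coe
    have h1 : Dense (⋂ N, OS N) := dense_iInter_of_isOpen isOpen_OS dense_OS
    intro c hc
    have h2 : (⟨c, hc⟩ : frontier MS) ∈ closure (⋂ N, OS N) := h1 _
    rw [closure_subtype] at h2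
    refine closure_mono ?_ h2
    rintro _ ⟨d, hd, rfl⟩
    refine ⟨d.2, mem_iInter.2 fun N => ?_⟩
    have h3 : d ∈ OS N := mem_iInter.1 hd N
    rw [← hUO N] at h3
    exact h3
  · rintro c ⟨hc, h1⟩
    refine prop6_of_OS (c := ⟨c, hc⟩) fun N => ?_
    rw [← hUO N]
    exact mem_iInter.1 h1 N

end Pool.Agent.Work.MLC.Dens
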