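import Pool.Agent.Work.MLC.Eta
import Pool.Agent.Work.MLC.Tract51

/-!
# Tracts of the linearizer for `c` in the Mandelbrot set (helper51)

`Lin c b ρ n Λ`: `Λ` entire, `Λ 0 = b`, `Λ' 0 ≠ 0`, `Λ (ρ x) = f_c^n (Λ x)`, `1 < |ρ|`.
For `c` with `G c 0 = 0` (the Mandelbrot set), `RH = {0 < re z}`:

* `exists_lift`: `eta c : RH → A(∞)` lifts through `Λ` with prescribed value, the lift is injective;
* `lift_unique`, `lift_meet`: two lifts whose values meet differ by `z ↦ z + 2 π i m`;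
* `exists_tract`: every `x` with `0 < G c (Λ x)` is in the image of a periodic tract
  `Tract c b ρ n Λ ψ q a`: `ψ (2 ^ (n q) z + 2 π i a) = ρ ^ q ψ z`, `ψ(RH)` disjoint from
  `ρ ^ k ψ(RH)`, `0 < k < q`;
* `Tract.ply`: `|q L + 2 π i N|² ≤ 2 n q log 2 · re L`;
* `Tract.landing`: the ray `s ↦ eta c (cen + s)`, `cen = - 2 π i a / (2 ^ (n q) - 1)`, lands at `b`;
* `exists_pos`: there is a point with `0 < G c (Λ x)`.
-/

set_option autoImplicit false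

open Complex Filter Topology Set Metric

namespace Pool.Agent.Work.MLC.Tr

/-! ### A Harnack inequality -/

theorem harnack_center {g : ℂ → ℂ} {a : ℂ} {R t : ℝ} (hR : 0 < R)
    (hg : DifferentiableOn ℂ g (ball a R)) (hpos : ∀ z ∈ ball a R, 0 < (g z).re)
    (ht0 : 0 ≤ t) (ht : t < 1) {z : ℂ} (hz : dist z a ≤ t * R) :
    (1 - t ^ 2) / 4 * (g a).re ≤ (g z).re ∧ (1 - t ^ 2) / 4 * (g z).re ≤ (g a).re := by
  have haR : a ∈ ball a R := mem_ball_self hR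
  have hzR : z ∈ ball a R := by
    rw [mem_ball]; refine hz.trans_lt ?_; nlinarith
  have hA : 0 < (g a).re := hpos a haR
  have hden : ∀ w ∈ ball a R, g w + (starRingEnd ℂ) (g a) ≠ 0 := by
    intro w hw h0
    have := congrArg Complex.re h0
    simp only [add_re, conj_re, zero_re] at this
    linarith [hpos w hw]
  have hid : ∀ w, ‖g w + (starRingEnd ℂ) (g a)‖ ^ 2
      = ‖g w - g a‖ ^ 2 + 4 * (g w).re * (g a).re := by
    intro w
    rw [← normSq_eq_norm_sq, ← normSq_eq_norm_sq, normSq_apply, normSq_apply]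
    simp only [add_re, conj_re, add_im, conj_im, sub_re, sub_im]
    ring
  set φ : ℂ → ℂ := fun w => (g w - g a) / (g w + (starRingEnd ℂ) (g a)) with hφ
  have hφd : DifferentiableOn ℂ φ (ball a R) := by
    intro w hw
    exact ((hg w hw).sub_const _).div ((hg w hw).add_const _) (hden w hw)
  have hφa : φ a = 0 := by simp [hφ]
  have hmaps : MapsTo φ (ball a R) (closedBall (φ a) 1) := by
    intro w hw
    rw [hφa, mem_closedBall, dist_zero_right, hφ]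
    simp only [norm_div]
    rw [div_le_one (norm_pos_iff.2 (hden w hw))]
    apply le_of_sq_le_sq _ (norm_nonneg _)
    rw [hid w]
    nlinarith [mul_pos (hpos w hw) hA]
  have h1 := Complex.dist_le_div_mul_dist_of_mapsTo_ball hφd hmaps hzR
  rw [hφa, dist_zero_right] at h1
  have h2 : ‖φ z‖ ≤ t := by
    calc ‖φ z‖ ≤ 1 / R * dist z a := h1
      _ ≤ 1 / R * (t * R) := by gcongr
      _ = t := by field_simp
  rw [hφ] at h2
  simp only [norm_div] at h2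
  rw [div_le_iff₀ (norm_pos_iff.2 (hden z hzR))] at h2
  have h3 : ‖g z - g a‖ ^ 2 ≤ t ^ 2 * (‖g z - g a‖ ^ 2 + 4 * (g z).re * (g a).re) := by
    rw [← hid z, ← mul_pow]
    exact pow_le_pow_left₀ (norm_nonneg _) h2 2
  have h4 : ((g z).re - (g a).re) ^ 2 ≤ ‖g z - g a‖ ^ 2 := by
    rw [← normSq_eq_norm_sq, normSq_apply]
    simp only [sub_re, sub_im]
    nlinarith [sq_nonneg ((g z).im - (g a).im)]
  have hZ : 0 < (g z).re := hpos z hzR
  have ht2 : t ^ 2 < 1 := by nlinarith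
  have h5 : (1 - t ^ 2) * ((g z).re - (g a).re) ^ 2 ≤ 4 * t ^ 2 * (g z).re * (g a).re := by
    nlinarith
  have h6 : (1 - t ^ 2) * ((g z).re ^ 2 + (g a).re ^ 2)
      ≤ 2 * (1 + t ^ 2) * ((g z).re * (g a).re) := by nlinarith
  have h7 : 2 * (1 + t ^ 2) * ((g z).re * (g a).re) ≤ 4 * ((g z).re * (g a).re) := by
    nlinarith [mul_pos hZ hA]
  constructor
  · have : (1 - t ^ 2) * (g a).re ^ 2 ≤ 4 * ((g z).re * (g a).re) := by nlinarith
    have h8 : (g a).re * ((1 - t ^ 2) * (g a).re) ≤ (g a).re * (4 * (g z).re) := by nlinarith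
    have h9 := le_of_mul_le_mul_left h8 hA
    linarith
  · have : (1 - t ^ 2) * (g z).re ^ 2 ≤ 4 * ((g z).re * (g a).re) := by nlinarith
    have h8 : (g z).re * ((1 - t ^ 2) * (g z).re) ≤ (g z).re * (4 * (g a).re) := by nlinarith
    have h9 := le_of_mul_le_mul_left h8 hZ
    linarith

/-- Harnack's inequality for `log (B / |h|)`, `h` without zeros. -/
theorem harnack_log {h : ℂ → ℂ} {a : ℂ} {R t B : ℝ} (hR : 0 < R) (hB : 0 < B)
    (hd : DifferentiableOn ℂ h (ball a R)) (h0 : ∀ z ∈ ball a R, h z ≠ 0)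
    (hlt : ∀ z ∈ ball a R, ‖h z‖ < B) (ht0 : 0 ≤ t) (ht : t < 1) {z w : ℂ}
    (hz : dist z a ≤ t * R) (hw : dist w a ≤ t * R) :
    ((1 - t ^ 2) / 4) ^ 2 * Real.log (B / ‖h w‖) ≤ Real.log (B / ‖h z‖) := by
  obtain ⟨F, hF, hFe⟩ := exists_hol_log isOpen_ball (convex_ball a R) ⟨a, mem_ball_self hR⟩ hd h0
  have hre : ∀ z ∈ ball a R, ((Real.log B : ℂ) - F z).re = Real.log (B / ‖h z‖) := by
    intro z hz
    rw [sub_re, ofReal_re, Real.log_div hB.ne' (norm_ne_zero_iff.2 (h0 z hz)), ← hFe z hz,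
      norm_exp, Real.log_exp]
  have hpos : ∀ z ∈ ball a R, 0 < ((Real.log B : ℂ) - F z).re := by
    intro z hz
    rw [hre z hz]
    apply Real.log_pos
    rw [one_lt_div (norm_pos_iff.2 (h0 z hz))]
    exact hlt z hz
  have hg : DifferentiableOn ℂ (fun z => (Real.log B : ℂ) - F z) (ball a R) :=
    (differentiableOn_const _).sub hF
  have hzR : z ∈ ball a R := by
    rw [mem_ball]; refine hz.trans_lt ?_; nlinarith
  have hwR : w ∈ ball a R := by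
    rw [mem_ball]; refine hw.trans_lt ?_; nlinarith
  have h1 := (harnack_center hR hg hpos ht0 ht hz).1
  have h2 := (harnack_center hR hg hpos ht0 ht hw).2
  rw [← hre z hzR, ← hre w hwR]
  have ht2 : t ^ 2 < 1 := by nlinarith
  have hc : 0 < (1 - t ^ 2) / 4 := by linarith
  calc ((1 - t ^ 2) / 4) ^ 2 * ((Real.log B : ℂ) - F w).re
      = (1 - t ^ 2) / 4 * ((1 - t ^ 2) / 4 * ((Real.log B : ℂ) - F w).re) := by ring
    _ ≤ (1 - t ^ 2) / 4 * ((Real.log B : ℂ) - F a).re := by gcongr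
    _ ≤ _ := h1

theorem squeeze {B t δ : ℝ} (hB : 0 < B) (ht0 : 0 ≤ t) (ht : t < 1) (hδ : 0 < δ) :
    ∃ ε : ℝ, 0 < ε ∧ ∀ (h : ℂ → ℂ) (a : ℂ) (R : ℝ), 0 < R → DifferentiableOn ℂ h (ball a R) →
      (∀ z ∈ ball a R, h z ≠ 0) → (∀ z ∈ ball a R, ‖h z‖ < B) → ∀ z w : ℂ,
      dist z a ≤ t * R → dist w a ≤ t * R → ‖h w‖ < ε → ‖h z‖ < δ := by
  have ht2 : t ^ 2 < 1 := by nlinarith
  have hc : 0 < ((1 - t ^ 2) / 4) ^ 2 := by
    have : 0 < (1 - t ^ 2) / 4 := by linarith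
    positivity
  set K := ((1 - t ^ 2) / 4) ^ 2 with hK
  refine ⟨B * Real.exp (-(Real.log (B / δ)) / K), by positivity, ?_⟩
  intro h a R hR hd h0 hlt z w hz hw hsmall
  have hzR : z ∈ ball a R := by
    rw [mem_ball]; refine hz.trans_lt ?_; nlinarith
  have hwR : w ∈ ball a R := by
    rw [mem_ball]; refine hw.trans_lt ?_; nlinarith
  have h1 := harnack_log hR hB hd h0 hlt ht0 ht hz hw
  rw [← hK] at h1
  have hw0 : 0 < ‖h w‖ := norm_pos_iff.2 (h0 w hwR)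
  have hz0 : 0 < ‖h z‖ := norm_pos_iff.2 (h0 z hzR)
  have h2 : Real.log (B / δ) / K < Real.log (B / ‖h w‖) := by
    have h3 : ‖h w‖ / B < Real.exp (-(Real.log (B / δ)) / K) := by
      rw [div_lt_iff₀ hB]; linarith
    have h4 := Real.log_lt_log (by positivity) h3
    rw [Real.log_exp] at h4
    have h5 : Real.log (B / ‖h w‖) = - Real.log (‖h w‖ / B) := by
      rw [← Real.log_inv, inv_div]
    rw [h5]
    have h6 : -(Real.log (B / δ)) / K = - (Real.log (B / δ) / K) := by ring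
    linarith
  have h3 : Real.log (B / δ) < Real.log (B / ‖h z‖) := by
    refine lt_of_lt_of_le ?_ h1
    rw [div_lt_iff₀ hc] at h2
    linarith
  have h4 := (Real.log_lt_log_iff (by positivity) (by positivity)).1 h3
  rwa [div_lt_div_iff_of_pos_left hB hδ hz0] at h4

/-- a compact part of the right half plane lies well inside a disc tangent to the imaginary
axis -/
theorem disc_cover {m M : ℝ} (hm : 0 < m) (hM : 0 < M) :
    ∃ X t : ℝ, 0 < X ∧ 0 ≤ t ∧ t < 1 ∧ ∀ z : ℂ, m ≤ z.re → ‖z‖ ≤ M → dist z (X : ℂ) ≤ t * X := by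
  set X : ℝ := M ^ 2 / m + m with hX
  have hX0 : 0 < X := by positivity
  have hmX : m < X := by
    have : 0 < M ^ 2 / m := by positivity
    linarith
  have hXm : M ^ 2 ≤ X * m := by
    rw [hX, add_mul, div_mul_cancel₀ _ hm.ne']
    nlinarith
  have h01 : 0 ≤ 1 - m / X := by
    have : m / X < 1 := (div_lt_one hX0).2 hmX
    linarith
  refine ⟨X, Real.sqrt (1 - m / X), hX0, Real.sqrt_nonneg _, ?_, ?_⟩
  · rw [Real.sqrt_lt' one_pos]
    have : 0 < m / X := by positivity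
    linarith
  · intro z hz1 hz2
    apply le_of_sq_le_sq _ (by positivity)
    rw [mul_pow, Real.sq_sqrt h01]
    have h1 : dist z (X : ℂ) ^ 2 = ‖z‖ ^ 2 - 2 * X * z.re + X ^ 2 := by
      rw [dist_eq_norm, ← normSq_eq_norm_sq, ← normSq_eq_norm_sq, normSq_apply, normSq_apply]
      simp
      ring
    rw [h1]
    have h2 : (1 - m / X) * X ^ 2 = X ^ 2 - m * X := by field_simp
    rw [h2]
    have h3 : ‖z‖ ^ 2 ≤ M ^ 2 := pow_le_pow_left₀ (norm_nonneg _) hz2 2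
    nlinarith

theorem ball_subset_RH {X : ℝ} {z : ℂ} (hz : z ∈ ball (X : ℂ) X) : 0 < z.re := by
  rw [mem_ball, dist_eq_norm] at hz
  have h1 : |(z - X).re| ≤ ‖z - X‖ := abs_re_le_norm _
  rw [sub_re, ofReal_re] at h1
  have := abs_le.1 h1
  linarith [this.1]

/-! ### The linearizer -/

/-- `Λ` is a linearizer of `f_c^n` at the repelling point `b` of multiplier `ρ`. -/
structure Lin (c b ρ : ℂ) (n : ℕ) (Λ : ℂ → ℂ) : Prop where
  hn : 0 < n
  diff : Differentiable ℂ Λ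
  zero : Λ 0 = b
  der : deriv Λ 0 ≠ 0
  eqn : ∀ x, Λ (ρ * x) = it c n (Λ x)
  rho : 1 < ‖ρ‖

theorem exists_oph {Λ : ℂ → ℂ} (hd : Differentiable ℂ Λ) {x : ℂ} (hx : deriv Λ x ≠ 0) :
    ∃ e : OpenPartialHomeomorph ℂ ℂ, x ∈ e.source ∧ (e : ℂ → ℂ) = Λ := by
  have h1 : HasStrictDerivAt Λ (deriv Λ x) x := (hd.analyticAt x).hasStrictDerivAt
  have h2 := h1.hasStrictFDerivAt_equiv hx
  exact ⟨h2.toOpenPartialHomeomorph Λ, h2.mem_toOpenPartialHomeomorph_source,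
    h2.toOpenPartialHomeomorph_coe⟩

namespace Lin

variable {c b ρ : ℂ} {n : ℕ} {Λ : ℂ → ℂ}

theorem rho_ne (h : Lin c b ρ n Λ) : ρ ≠ 0 := by
  have := h.rho
  rintro rfl; simp at this; linarith

theorem it_b (h : Lin c b ρ n Λ) : it c n b = b := by
  have := h.eqn 0
  rw [mul_zero, h.zero] at this
  exact this.symm

theorem eqn_pow (h : Lin c b ρ n Λ) (k : ℕ) (x : ℂ) : Λ (ρ ^ k * x) = it c (n * k) (Λ x) := by
  induction k with
  | zero => simp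
  | succ k ih =>
    rw [pow_succ', mul_assoc, h.eqn, ih, ← it_add]
    congr 1
    ring

theorem G_b (h : Lin c b ρ n Λ) : G c b = 0 := by
  have h1 := G_it c b n
  rw [h.it_b] at h1
  have h2 : (1 : ℝ) < 2 ^ n := one_lt_pow₀ (by norm_num) h.hn.ne'
  nlinarith [G_nonneg c b]

theorem u_rho (h : Lin c b ρ n Λ) (x : ℂ) : G c (Λ (ρ * x)) = 2 ^ n * G c (Λ x) := by
  rw [h.eqn, G_it]

theorem u_pow (h : Lin c b ρ n Λ) (k : ℕ) (x : ℂ) :
    G c (Λ (ρ ^ k * x)) = 2 ^ (n * k) * G c (Λ x) := by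
  rw [h.eqn_pow, G_it]

theorem u_zpow (h : Lin c b ρ n Λ) (k : ℤ) (x : ℂ) :
    G c (Λ (ρ ^ k * x)) = ((2 : ℝ) ^ n) ^ k * G c (Λ x) := by
  rcases le_or_gt 0 k with hk | hk
  · obtain ⟨k', rfl⟩ := Int.eq_ofNat_of_zero_le hk
    rw [zpow_natCast, h.u_pow, zpow_natCast, pow_mul]
  · obtain ⟨k', hk'⟩ := Int.eq_ofNat_of_zero_le (show 0 ≤ -k by omega)
    have hk2 : k = -(k' : ℤ) := by omega
    subst hk2
    have h1 := h.u_pow k' (ρ ^ (-(k' : ℤ)) * x)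
    rw [← mul_assoc, zpow_neg, zpow_natCast, mul_inv_cancel₀ (pow_ne_zero _ h.rho_ne),
      one_mul] at h1
    rw [h1, zpow_neg, zpow_natCast, zpow_neg, zpow_natCast, pow_mul, ← mul_assoc,
      inv_mul_cancel₀ (by positivity), one_mul]

theorem continuous_u (h : Lin c b ρ n Λ) : Continuous fun x => G c (Λ x) :=
  (continuous_G_right c).comp h.diff.continuous

/-- growth of `u` -/
theorem growth (h : Lin c b ρ n Λ) : ∃ κ C : ℝ, 0 < κ ∧ 0 < C ∧
    ∀ x : ℂ, x ≠ 0 → G c (Λ x) ≤ C * ‖x‖ ^ κ := by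
  have hρ0 : 0 < ‖ρ‖ := by linarith [h.rho]
  have hlogρ : 0 < Real.log ‖ρ‖ := Real.log_pos h.rho
  have hlog2 : 0 < Real.log 2 := Real.log_pos (by norm_num)
  have hn : (0 : ℝ) < n := by exact_mod_cast h.hn
  obtain ⟨C, hC⟩ : ∃ C : ℝ, ∀ x ∈ closedBall (0 : ℂ) ‖ρ‖, G c (Λ x) ≤ C := by
    obtain ⟨C, hC⟩ := ((isCompact_closedBall (0 : ℂ) ‖ρ‖).image h.continuous_u).bddAbove
    exact ⟨C, fun x hx => hC ⟨x, hx, rfl⟩⟩
  have hC0 : 0 ≤ C := (G_nonneg c (Λ 0)).trans (hC 0 (by simp))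
  refine ⟨n * Real.log 2 / Real.log ‖ρ‖, C + 1, by positivity, by linarith, ?_⟩
  intro x hx
  set κ := n * Real.log 2 / Real.log ‖ρ‖ with hκ
  have hκ0 : 0 < κ := by positivity
  have hρκ : ‖ρ‖ ^ κ = 2 ^ n := by
    rw [Real.rpow_def_of_pos hρ0, hκ]
    have : Real.log ‖ρ‖ * (n * Real.log 2 / Real.log ‖ρ‖) = n * Real.log 2 := by field_simp
    rw [this, mul_comm, Real.exp_mul, Real.exp_log (by norm_num)]
    exact_mod_cast rfl
  obtain ⟨k, hk1, hk2⟩ := exists_mem_Ico_zpow (norm_pos_iff.2 hx) h.rho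
  have hy : ρ ^ k * (ρ ^ (-k) * x) = x := by
    rw [← mul_assoc, ← zpow_add₀ h.rho_ne]; simp
  have h1 := h.u_zpow k (ρ ^ (-k) * x)
  rw [hy] at h1
  have hnorm : ‖ρ ^ (-k) * x‖ ≤ ‖ρ‖ := by
    rw [norm_mul, norm_zpow]
    calc ‖ρ‖ ^ (-k) * ‖x‖ ≤ ‖ρ‖ ^ (-k) * ‖ρ‖ ^ (k + 1) := by gcongr
      _ = ‖ρ‖ := by rw [← zpow_add₀ hρ0.ne']; simp
  have h2 := hC (ρ ^ (-k) * x) (by simpa using hnorm)
  calc G c (Λ x) = ((2 : ℝ) ^ n) ^ k * G c (Λ (ρ ^ (-k) * x)) := h1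
    _ ≤ ((2 : ℝ) ^ n) ^ k * (C + 1) := by gcongr; linarith
    _ = (‖ρ‖ ^ k) ^ κ * (C + 1) := by
        rw [← hρκ, ← Real.rpow_intCast, ← Real.rpow_intCast, ← Real.rpow_mul hρ0.le,
          ← Real.rpow_mul hρ0.le, mul_comm κ]
    _ ≤ ‖x‖ ^ κ * (C + 1) := by gcongr
    _ = _ := mul_comm _ _

/-- the local inverse of the linearizer -/
theorem exists_local_inverse (h : Lin c b ρ n Λ) :
    ∃ (g : ℂ → ℂ) (δ r : ℝ), 0 < δ ∧ 0 < r ∧ DifferentiableOn ℂ g (ball b δ) ∧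
      (∀ z ∈ ball b δ, Λ (g z) = z) ∧
      (∀ z ∈ ball b δ, it c n z ∈ ball b δ → g (it c n z) = ρ * g z) ∧
      (∀ x ∈ ball (0 : ℂ) r, Λ x ∈ ball b δ ∧ g (Λ x) = x) := by
  obtain ⟨e, he0, he⟩ := exists_oph h.diff h.der
  have hb : b ∈ e.target := by
    have := e.map_source he0
    rwa [he, h.zero] at this
  have hgb : e.symm b = 0 := by
    have := e.left_inv he0
    rwa [he, h.zero] at this
  have hgc : ContinuousAt e.symm b := e.symm.continuousAt hb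
  have h1 : ∀ᶠ z in 𝓝 b, z ∈ e.target := e.open_target.mem_nhds hb
  have h2 : ∀ᶠ z in 𝓝 b, deriv Λ (e.symm z) ≠ 0 := by
    have hc : ContinuousAt (fun z => deriv Λ (e.symm z)) b :=
      ContinuousAt.comp (h.diff.contDiff (n := 1)).continuous_deriv_one.continuousAt hgc
    have h3 : deriv Λ (e.symm b) ≠ 0 := by rw [hgb]; exact h.der
    exact hc.eventually_ne h3
  have h3 : ∀ᶠ z in 𝓝 b, ρ * e.symm z ∈ e.source := by
    have hc : ContinuousAt (fun z => ρ * e.symm z) b := hgc.const_mul ρ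
    apply hc.eventually_mem
    apply e.open_source.mem_nhds
    rw [hgb, mul_zero]; exact he0
  obtain ⟨δ, hδ, hball⟩ := Metric.eventually_nhds_iff_ball.1 (h1.and (h2.and h3))
  have h4 : ∀ᶠ x in 𝓝 (0 : ℂ), x ∈ e.source ∧ Λ x ∈ ball b δ := by
    apply (e.open_source.eventually_mem he0).and
    apply h.diff.continuous.continuousAt.eventually_mem
    rw [h.zero]; exact ball_mem_nhds b hδ
  obtain ⟨r, hr, hball2⟩ := Metric.eventually_nhds_iff_ball.1 h4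
  have hright : ∀ z ∈ ball b δ, Λ (e.symm z) = z := by
    intro z hz
    have := e.right_inv (hball z hz).1
    rwa [he] at this
  refine ⟨e.symm, δ, r, hδ, hr, ?_, hright, ?_, ?_⟩
  · intro z hz
    have hd : HasDerivAt e (deriv Λ (e.symm z)) (e.symm z) := by
      rw [he]; exact (h.diff _).hasDerivAt
    exact (e.hasDerivAt_symm (hball z hz).1 (hball z hz).2.1 hd).differentiableAt.differentiableWithinAt
  · intro z hz hz2
    have h5 : it c n z = Λ (ρ * e.symm z) := by rw [h.eqn, hright z hz]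
    have h6 := e.left_inv (hball z hz).2.2
    rw [he, ← h5] at h6
    exact h6
  · intro x hx
    refine ⟨(hball2 x hx).2, ?_⟩
    have := e.left_inv (hball2 x hx).1
    rwa [he] at this

end Lin

/-! ### Lifts -/

/-- `ψ` is a lift of `eta c` through the linearizer. -/
def IsLift (c : ℂ) (Λ ψ : ℂ → ℂ) : Prop :=
  ContinuousOn ψ {z : ℂ | 0 < z.re} ∧ ∀ z : ℂ, 0 < z.re → Λ (ψ z) = eta c z

theorem it_eta {c : ℂ} (hc : G c 0 = 0) {z : ℂ} (hz : 0 < z.re) (k : ℕ) :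
    it c k (eta c z) = eta c (2 ^ k * z) := by
  induction k with
  | zero => simp
  | succ k ih =>
    rw [it_succ, ih, f_eta]
    · congr 1; ring
    · rw [hc]
      have h1 : ((2 : ℂ) ^ k) = ((2 ^ k : ℝ) : ℂ) := by push_cast; rfl
      rw [h1, re_ofReal_mul]; positivity

theorem re_pow_mul (k : ℕ) (z : ℂ) : (2 ^ k * z).re = 2 ^ k * z.re := by
  have h1 : ((2 : ℂ) ^ k) = ((2 ^ k : ℝ) : ℂ) := by push_cast; rfl
  rw [h1, re_ofReal_mul]

theorem re_div_pow (k : ℕ) (z : ℂ) : (z / 2 ^ k).re = z.re / 2 ^ k := by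
  have h1 : ((2 : ℂ) ^ k) = ((2 ^ k : ℝ) : ℂ) := by push_cast; rfl
  rw [h1, div_ofReal_re]

theorem eta_period {c : ℂ} (hc : G c 0 = 0) {z : ℂ} (hz : 0 < z.re) (k : ℤ) :
    eta c (z + 2 * Real.pi * I * k) = eta c z := by
  have hre : (z + 2 * Real.pi * I * k).re = z.re := by
    simp [mul_comm]
  exact ((eta_eq_iff (by rw [hc]; exact hz) (by rw [hc, hre]; exact hz)).2 ⟨k, rfl⟩).symm

theorem exists_lift {c b ρ : ℂ} {n : ℕ} {Λ : ℂ → ℂ} (h : Lin c b ρ n Λ) (hc : G c 0 = 0)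
    {x0 ζ0 : ℂ} (hζ0 : 0 < ζ0.re) (hx0 : eta c ζ0 = Λ x0) :
    ∃ ψ : ℂ → ℂ, DifferentiableOn ℂ ψ {z : ℂ | 0 < z.re} ∧
      (∀ z : ℂ, 0 < z.re → Λ (ψ z) = eta c z) ∧ ψ ζ0 = x0 ∧
      (∀ z w : ℂ, 0 < z.re → 0 < w.re → ψ z = ψ w → z = w) := by
  obtain ⟨g, δ, r, hδ, hr, hgd, hg1, hg2, hg3⟩ := h.exists_local_inverse
  have hρ0 := h.rho_ne
  have hGx0 : G c (Λ x0) = ζ0.re := by rw [← hx0]; exact G_eta (by rw [hc]; exact hζ0)
  -- points `ρ^{-k} x0`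
  have hxk : ∀ k : ℕ, G c (Λ (ρ⁻¹ ^ k * x0)) = ζ0.re / 2 ^ (n * k) := by
    intro k
    have h1 := h.u_pow k (ρ⁻¹ ^ k * x0)
    rw [← mul_assoc, ← mul_pow, mul_inv_cancel₀ hρ0, one_pow, one_mul, hGx0] at h1
    rw [h1]; field_simp
  have hex : ∀ k : ℕ, ∃ z : ℂ, z.re = ζ0.re / 2 ^ (n * k) ∧ eta c z = Λ (ρ⁻¹ ^ k * x0) := by
    intro k
    obtain ⟨z, hz1, hz2⟩ := eta_surj (c := c) (z := Λ (ρ⁻¹ ^ k * x0)) (by
      rw [hc, hxk]; positivity)
    exact ⟨z, by rw [hz1, hxk], hz2⟩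
  choose ζ hζre hζ using hex
  set H : ℕ → ℂ → ℂ := fun k z => eta c (ζ k + (z - ζ0) / 2 ^ (n * k)) with hH
  have hre : ∀ k z, (ζ k + (z - ζ0) / 2 ^ (n * k)).re = z.re / 2 ^ (n * k) := by
    intro k z
    rw [add_re, hζre, re_div_pow, sub_re]; ring
  have hpos : ∀ (k : ℕ) (z : ℂ), 0 < z.re → 0 < (ζ k + (z - ζ0) / 2 ^ (n * k)).re := by
    intro k z hz
    rw [hre]; positivity
  -- P1
  have hHd : ∀ k, DifferentiableOn ℂ (H k) {z : ℂ | 0 < z.re} := by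
    intro k
    apply (differentiableOn_eta_right c).comp
    · fun_prop
    · intro z hz
      show G c 0 < _
      rw [hc]; exact hpos k z hz
  -- P2
  have hHζ0 : ∀ k, H k ζ0 = Λ (ρ⁻¹ ^ k * x0) := by
    intro k; simp [hH, hζ]
  have hxk0 : Tendsto (fun k : ℕ => ρ⁻¹ ^ k * x0) atTop (𝓝 0) := by
    have h1 : Tendsto (fun k : ℕ => ρ⁻¹ ^ k) atTop (𝓝 0) := by
      apply tendsto_pow_atTop_nhds_zero_of_norm_lt_one
      rw [norm_inv]
      exact inv_lt_one_of_one_lt₀ h.rho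
    simpa using h1.mul_const x0
  have hHb : Tendsto (fun k => H k ζ0) atTop (𝓝 b) := by
    simp_rw [hHζ0]
    have := (h.diff.continuous.tendsto 0).comp hxk0
    rwa [h.zero] at this
  -- P3
  have hP3 : ∀ k z, 0 < z.re → it c n (H (k + 1) z) = H k z := by
    intro k z hz
    have h1 : it c n (Λ (ρ⁻¹ ^ (k + 1) * x0)) = Λ (ρ⁻¹ ^ k * x0) := by
      rw [← h.eqn, pow_succ']
      congr 1
      rw [← mul_assoc, ← mul_assoc, mul_inv_cancel₀ hρ0, one_mul]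
    have h2 : eta c (2 ^ n * ζ (k + 1)) = eta c (ζ k) := by
      rw [← it_eta hc (by rw [hζre]; positivity), hζ, h1, hζ]
    have h3 : 0 < (ζ k).re := by rw [hζre]; positivity
    have h4 : 0 < (2 ^ n * ζ (k + 1)).re := by rw [re_pow_mul, hζre]; positivity
    obtain ⟨m, hm⟩ := (eta_eq_iff (by rw [hc]; exact h4) (by rw [hc]; exact h3)).1 h2
    show it c n (eta c _) = eta c _
    rw [it_eta hc (hpos (k + 1) z hz)]
    rw [← eta_period hc (z := 2 ^ n * (ζ (k + 1) + (z - ζ0) / 2 ^ (n * (k + 1))))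
      (by rw [re_pow_mul, hre]; positivity) m]
    congr 1
    rw [hm, mul_add, mul_add n k 1, mul_one, pow_add]
    field_simp
    ring
  -- P7
  have hP7 : ∀ k z, 0 < z.re → it c (n * k) (H k z) = eta c z := by
    intro k z hz
    have h1 : it c (n * k) (Λ (ρ⁻¹ ^ k * x0)) = Λ x0 := by
      rw [← h.eqn_pow, ← mul_assoc, ← mul_pow, mul_inv_cancel₀ hρ0, one_pow, one_mul]
    have h2 : eta c (2 ^ (n * k) * ζ k) = eta c ζ0 := by
      rw [← it_eta hc (by rw [hζre]; positivity), hζ, h1, hx0]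
    have h4 : 0 < (2 ^ (n * k) * ζ k).re := by rw [re_pow_mul, hζre]; positivity
    obtain ⟨m, hm⟩ := (eta_eq_iff (by rw [hc]; exact h4) (by rw [hc]; exact hζ0)).1 h2
    show it c (n * k) (eta c _) = eta c _
    rw [it_eta hc (hpos k z hz)]
    rw [← eta_period hc (z := 2 ^ (n * k) * (ζ k + (z - ζ0) / 2 ^ (n * k)))
      (by rw [re_pow_mul, hre]; positivity) m]
    congr 1
    rw [mul_add, mul_div_cancel₀ _ (pow_ne_zero _ two_ne_zero)]
    linear_combination (-1 : ℂ) * hm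
  have hGH : ∀ k z, 0 < z.re → G c (H k z) = z.re / 2 ^ (n * k) := by
    intro k z hz
    rw [← hre k z]
    exact G_eta (by rw [hc]; exact hpos k z hz)
  have hHne : ∀ k z, 0 < z.re → H k z - b ≠ 0 := by
    intro k z hz h0
    have h1 := hGH k z hz
    rw [sub_eq_zero.1 h0, h.G_b] at h1
    have : 0 < z.re / 2 ^ (n * k) := by positivity
    linarith
  -- uniform convergence
  have hconv : ∀ m M : ℝ, 0 < m → 0 < M → ∃ k0, ∀ k ≥ k0, ∀ z : ℂ, m ≤ z.re → ‖z‖ ≤ M →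
      H k z ∈ ball b δ := by
    intro m M hm hM
    obtain ⟨X, t, hX, ht0, ht1, hcov⟩ := disc_cover (m := min m ζ0.re) (M := max M ‖ζ0‖)
      (lt_min hm hζ0) (lt_max_of_lt_left hM)
    obtain ⟨B, hB⟩ : ∃ B : ℝ, ∀ z ∈ {z | G c z ≤ 2 * X}, ‖z - b‖ ≤ B := by
      obtain ⟨B, hB⟩ := ((isCompact_G_le c (2 * X)).image
        (continuous_id.sub continuous_const).norm).bddAbove
      exact ⟨B, fun z hz => hB ⟨z, hz, rfl⟩⟩
    have hB0 : 0 ≤ B := (norm_nonneg _).trans (hB b (by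
      show G c b ≤ 2 * X
      rw [h.G_b]; positivity))
    obtain ⟨ε, hε, hsq⟩ := squeeze (B := B + 1) (t := t) (δ := δ) (by linarith) ht0 ht1 hδ
    have h1 : ∀ᶠ k in atTop, ‖H k ζ0 - b‖ < ε := by
      have := (hHb.sub_const b).norm
      simp only [sub_self, norm_zero] at this
      exact this.eventually (gt_mem_nhds hε)
    obtain ⟨k0, hk0⟩ := eventually_atTop.1 h1
    refine ⟨k0, fun k hk z hz1 hz2 => ?_⟩
    rw [mem_ball, dist_eq_norm]
    refine hsq (fun z => H k z - b) (X : ℂ) X hX ?_ ?_ ?_ z ζ0 ?_ ?_ (hk0 k hk)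
    · exact ((hHd k).mono (fun z hz => ball_subset_RH hz)).sub_const b
    · exact fun z hz => hHne k z (ball_subset_RH hz)
    · intro w hw
      have h2 : ‖H k w - b‖ ≤ B := by
        apply hB
        show G c (H k w) ≤ 2 * X
        rw [hGH k w (ball_subset_RH hw)]
        have h3 : w.re ≤ 2 * X := by
          rw [mem_ball, dist_eq_norm] at hw
          have h4 := abs_le.1 ((abs_re_le_norm (w - X)).trans hw.le)
          rw [sub_re, ofReal_re] at h4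
          linarith [h4.2]
        have h5 : w.re / 2 ^ (n * k) ≤ w.re :=
          div_le_self (ball_subset_RH hw).le (one_le_pow₀ (by norm_num))
        linarith
      linarith
    · exact hcov z ((min_le_left _ _).trans hz1) (hz2.trans (le_max_left _ _))
    · exact hcov ζ0 (min_le_right _ _) (le_max_right _ _)
  have hK : ∀ z : ℂ, 0 < z.re → ∃ k0, ∀ k ≥ k0, H k z ∈ ball b δ := by
    intro z hz
    obtain ⟨k0, hk0⟩ := hconv z.re (‖z‖ + 1) hz (by positivity)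
    exact ⟨k0, fun k hk => hk0 k hk z le_rfl (by linarith)⟩
  classical
  set ψ : ℂ → ℂ := fun z => if hz : 0 < z.re then
    ρ ^ (hK z hz).choose * g (H (hK z hz).choose z) else 0 with hψ
  have hstep : ∀ z, 0 < z.re → ∀ k0, (∀ k ≥ k0, H k z ∈ ball b δ) →
      ∀ k ≥ k0, ρ ^ k * g (H k z) = ρ ^ k0 * g (H k0 z) := by
    intro z hz k0 hk0 k hk
    induction k, hk using Nat.le_induction with
    | base => rfl
    | succ k hk ih =>
      rw [← ih]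
      have h1 := hg2 (H (k + 1) z) (hk0 _ (by omega)) (by
        rw [hP3 k z hz]; exact hk0 k hk)
      rw [hP3 k z hz] at h1
      rw [h1]; ring
  have hψk : ∀ z, 0 < z.re → ∀ k0, (∀ k ≥ k0, H k z ∈ ball b δ) → ψ z = ρ ^ k0 * g (H k0 z) := by
    intro z hz k0 hk0
    have h1 := (hK z hz).choose_spec
    have h2 := hstep z hz _ h1 (max k0 (hK z hz).choose) (le_max_right _ _)
    have h3 := hstep z hz _ hk0 (max k0 (hK z hz).choose) (le_max_left _ _)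
    simp only [hψ, dif_pos hz]
    rw [← h2, h3]
  refine ⟨ψ, ?_, ?_, ?_, ?_⟩
  · intro z hz
    have hz' : 0 < z.re := hz
    apply DifferentiableAt.differentiableWithinAt
    obtain ⟨k0, hk0⟩ := hconv (z.re / 2) (‖z‖ + 1) (by positivity) (by positivity)
    have hnb : ∀ᶠ w in 𝓝 z, z.re / 2 < w.re ∧ ‖w‖ < ‖z‖ + 1 := by
      apply Filter.Eventually.and
      · exact continuous_re.continuousAt.eventually (lt_mem_nhds (by linarith))
      · exact continuous_norm.continuousAt.eventually (gt_mem_nhds (by linarith))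
    have heq : ψ =ᶠ[𝓝 z] fun w => ρ ^ k0 * g (H k0 w) := by
      filter_upwards [hnb] with w hw
      exact hψk w (by linarith [hw.1]) k0 (fun k hk => hk0 k hk w hw.1.le hw.2.le)
    apply DifferentiableAt.congr_of_eventuallyEq _ heq
    apply DifferentiableAt.const_mul
    have h1 : DifferentiableAt ℂ (H k0) z :=
      (hHd k0).differentiableAt ((isOpen_lt continuous_const continuous_re).mem_nhds hz)
    have h2 : DifferentiableAt ℂ g (H k0 z) :=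
      hgd.differentiableAt (isOpen_ball.mem_nhds (hk0 k0 le_rfl z (by linarith) (by linarith)))
    exact h2.comp z h1
  · intro z hz
    obtain ⟨k0, hk0⟩ := hK z hz
    rw [hψk z hz k0 hk0, h.eqn_pow, hg1 _ (hk0 k0 le_rfl), hP7 k0 z hz]
  · obtain ⟨k0, hk0⟩ := hK ζ0 hζ0
    have h1 : ∀ᶠ k : ℕ in atTop, ρ⁻¹ ^ k * x0 ∈ ball (0 : ℂ) r :=
      hxk0.eventually (ball_mem_nhds 0 hr)
    obtain ⟨k1, hk1⟩ := eventually_atTop.1 h1
    rw [hψk ζ0 hζ0 (max k0 k1) (fun k hk => hk0 k ((le_max_left _ _).trans hk)), hHζ0,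
      (hg3 _ (hk1 _ (le_max_right _ _))).2, ← mul_assoc, ← mul_pow, mul_inv_cancel₀ hρ0, one_pow,
      one_mul]
  · intro z w hz hw hzw
    obtain ⟨k0, hk0⟩ := hK z hz
    obtain ⟨k1, hk1⟩ := hK w hw
    obtain ⟨k2, hk2⟩ : ∃ k2 : ℕ, ‖w - z‖ < 2 ^ (n * k2) := by
      obtain ⟨k2, hk2⟩ := pow_unbounded_of_one_lt ‖w - z‖ (show (1 : ℝ) < 2 by norm_num)
      refine ⟨k2, hk2.trans_le (pow_le_pow_right₀ (by norm_num) ?_)⟩
      exact Nat.le_mul_of_pos_left _ h.hn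
    set k := max k2 (max k0 k1) with hk
    have e1 := hψk z hz k (fun j hj => hk0 j (by omega))
    have e2 := hψk w hw k (fun j hj => hk1 j (by omega))
    rw [e1, e2] at hzw
    have e3 := mul_left_cancel₀ (pow_ne_zero _ hρ0) hzw
    have e4 : H k z = H k w := by
      rw [← hg1 (H k z) (hk0 k (by omega)), e3, hg1 (H k w) (hk1 k (by omega))]
    obtain ⟨m, hm⟩ := (eta_eq_iff (by rw [hc]; exact hpos k z hz)
      (by rw [hc]; exact hpos k w hw)).1 e4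
    have e5 : (w - z) = 2 ^ (n * k) * (2 * Real.pi * I * m) := by
      have h2k : (2 : ℂ) ^ (n * k) ≠ 0 := pow_ne_zero _ two_ne_zero
      have : (w - z) / 2 ^ (n * k) = 2 * Real.pi * I * m := by
        linear_combination hm
      rw [← this]; field_simp
    have e6 : ‖w - z‖ < 2 ^ (n * k) := hk2.trans_le (pow_le_pow_right₀ (by norm_num)
      (Nat.mul_le_mul_left _ (le_max_left _ _)))
    rw [e5, norm_mul, norm_pow] at e6
    simp only [norm_mul, Complex.norm_ofNat, norm_real, norm_I, mul_one, norm_intCast] at e6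
    have e7 : (2 * ‖Real.pi‖ * |(m : ℝ)|) < 1 := by
      have : (2 : ℝ) ^ (n * k) * (2 * ‖Real.pi‖ * |(m : ℝ)|) < 2 ^ (n * k) * 1 := by linarith
      exact lt_of_mul_lt_mul_left this (by positivity)
    have e8 : m = 0 := by
      by_contra hne
      have h1 : (1 : ℝ) ≤ |(m : ℝ)| := by
        have : (1 : ℤ) ≤ |m| := Int.one_le_abs hne
        exact_mod_cast this
      rw [Real.norm_of_nonneg Real.pi_pos.le] at e7
      nlinarith [Real.pi_gt_three]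
    rw [e8] at e5
    simp at e5
    exact (sub_eq_zero.1 e5).symm

/-- the derivative of the linearizer does not vanish over the basin of infinity -/
theorem deriv_ne_zero_of_pos {c b ρ : ℂ} {n : ℕ} {Λ : ℂ → ℂ} (h : Lin c b ρ n Λ) (hc : G c 0 = 0)
    {x : ℂ} (hx : 0 < G c (Λ x)) : deriv Λ x ≠ 0 := by
  obtain ⟨ζ, hζ1, hζ2⟩ := eta_surj (c := c) (z := Λ x) (by rw [hc]; exact hx)
  have hζ0 : 0 < ζ.re := by rw [hζ1]; exact hx
  obtain ⟨ψ, hψd, hψ1, hψ2, -⟩ := exists_lift h hc hζ0 hζ2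
  have hnb : {z : ℂ | 0 < z.re} ∈ 𝓝 ζ := (isOpen_lt continuous_const continuous_re).mem_nhds hζ0
  have h1 : HasDerivAt ψ (deriv ψ ζ) ζ := (hψd.differentiableAt hnb).hasDerivAt
  have h2 : HasDerivAt Λ (deriv Λ (ψ ζ)) (ψ ζ) := (h.diff _).hasDerivAt
  have h3 : HasDerivAt (Λ ∘ ψ) (deriv Λ (ψ ζ) * deriv ψ ζ) ζ := h2.comp ζ h1
  have h4 : (Λ ∘ ψ) =ᶠ[𝓝 ζ] eta c := by
    filter_upwards [hnb] with z hz
    exact hψ1 z hz
  have h5 : deriv (eta c) ζ = deriv Λ (ψ ζ) * deriv ψ ζ := by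
    rw [← h4.deriv_eq]; exact h3.deriv
  have h6 : deriv (eta c) ζ ≠ 0 := deriv_eta_ne_zero (by rw [hc]; exact hζ0)
  rw [hψ2] at h5
  intro h0
  rw [h0, zero_mul] at h5
  exact h6 h5

/-- uniqueness of lifts -/
theorem lift_unique {c b ρ : ℂ} {n : ℕ} {Λ : ℂ → ℂ} (h : Lin c b ρ n Λ) (hc : G c 0 = 0)
    {ψ₁ ψ₂ : ℂ → ℂ} (h₁ : IsLift c Λ ψ₁) (h₂ : IsLift c Λ ψ₂) {ζ : ℂ} (hζ : 0 < ζ.re)
    (heq : ψ₁ ζ = ψ₂ ζ) : ∀ z : ℂ, 0 < z.re → ψ₁ z = ψ₂ z := by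
  have hRo : IsOpen {z : ℂ | 0 < z.re} := isOpen_lt continuous_const continuous_re
  have hconn : IsPreconnected {z : ℂ | 0 < z.re} :=
    ((convex_Ioi (0 : ℝ)).linear_preimage Complex.reLm).isPreconnected
  -- the set of agreement is open
  set U : Set ℂ := {z | 0 < z.re ∧ ∀ᶠ w in 𝓝 z, ψ₁ w = ψ₂ w} with hU
  set V : Set ℂ := {z | 0 < z.re ∧ ψ₁ z ≠ ψ₂ z} with hV
  have hUo : IsOpen U := by
    rw [isOpen_iff_mem_nhds]
    rintro z ⟨hz1, hz2⟩
    filter_upwards [hRo.mem_nhds hz1, hz2.eventually_nhds] with w hw1 hw2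
    exact ⟨hw1, hw2⟩
  have hVo : IsOpen V := by
    have h1 : ContinuousOn (fun z => ψ₁ z - ψ₂ z) {z : ℂ | 0 < z.re} := h₁.1.sub h₂.1
    have h2 := h1.isOpen_inter_preimage hRo (isOpen_compl_singleton (x := (0 : ℂ)))
    have h3 : V = {z : ℂ | 0 < z.re} ∩ (fun z => ψ₁ z - ψ₂ z) ⁻¹' {0}ᶜ := by
      ext z
      simp [hV, sub_eq_zero]
    rw [h3]; exact h2
  have hloc : ∀ z : ℂ, 0 < z.re → ψ₁ z = ψ₂ z → z ∈ U := by
    intro z hz hzz
    refine ⟨hz, ?_⟩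
    have hpos : 0 < G c (Λ (ψ₁ z)) := by
      rw [h₁.2 z hz, G_eta (by rw [hc]; exact hz)]; exact hz
    obtain ⟨e, he0, he⟩ := exists_oph h.diff (deriv_ne_zero_of_pos h hc hpos)
    have hc1 : ContinuousAt ψ₁ z := h₁.1.continuousAt (hRo.mem_nhds hz)
    have hc2 : ContinuousAt ψ₂ z := h₂.1.continuousAt (hRo.mem_nhds hz)
    have hs1 : ∀ᶠ w in 𝓝 z, ψ₁ w ∈ e.source := hc1.eventually_mem (e.open_source.mem_nhds he0)
    have hs2 : ∀ᶠ w in 𝓝 z, ψ₂ w ∈ e.source :=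
      hc2.eventually_mem (e.open_source.mem_nhds (hzz ▸ he0))
    filter_upwards [hs1, hs2, hRo.mem_nhds hz] with w hw1 hw2 hw3
    apply e.injOn hw1 hw2
    rw [he, h₁.2 w hw3, h₂.2 w hw3]
  have hsub : {z : ℂ | 0 < z.re} ⊆ U ∪ V := by
    intro z hz
    by_cases hzz : ψ₁ z = ψ₂ z
    · exact Or.inl (hloc z hz hzz)
    · exact Or.inr ⟨hz, hzz⟩
  intro z hz
  by_contra hne
  obtain ⟨w, hw1, hw2, hw3⟩ := hconn U V hUo hVo hsub ⟨ζ, hζ, hloc ζ hζ heq⟩ ⟨z, hz, hz, hne⟩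
  exact hw3.2 hw2.2.self_of_nhds

/-- two lifts whose values meet differ by a translation by `2 π i m` -/
theorem lift_meet {c b ρ : ℂ} {n : ℕ} {Λ : ℂ → ℂ} (h : Lin c b ρ n Λ) (hc : G c 0 = 0)
    {ψ₁ ψ₂ : ℂ → ℂ} (h₁ : IsLift c Λ ψ₁) (h₂ : IsLift c Λ ψ₂) {ζ₁ ζ₂ : ℂ} (hζ₁ : 0 < ζ₁.re)
    (hζ₂ : 0 < ζ₂.re) (heq : ψ₁ ζ₁ = ψ₂ ζ₂) :
    ∃ m : ℤ, ζ₂ = ζ₁ + 2 * Real.pi * I * m ∧
      ∀ z : ℂ, 0 < z.re → ψ₁ z = ψ₂ (z + 2 * Real.pi * I * m) := by
  have h1 : eta c ζ₁ = eta c ζ₂ := by rw [← h₁.2 _ hζ₁, ← h₂.2 _ hζ₂, heq]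
  obtain ⟨m, hm⟩ := (eta_eq_iff (by rw [hc]; exact hζ₁) (by rw [hc]; exact hζ₂)).1 h1
  refine ⟨m, hm, ?_⟩
  have hre : ∀ z : ℂ, (z + 2 * Real.pi * I * m).re = z.re := by
    intro z; simp [mul_comm]
  have h3 : IsLift c Λ (fun z => ψ₂ (z + 2 * Real.pi * I * m)) := by
    constructor
    · apply h₂.1.comp (by fun_prop)
      intro z hz
      show 0 < (z + 2 * Real.pi * I * m).re
      rw [hre]; exact hz
    · intro z hz
      rw [h₂.2 _ (by rw [hre]; exact hz), eta_period hc hz]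
  apply lift_unique h hc h₁ h3 hζ₁
  rw [heq, hm]

/-! ### The structure of a tract -/

/-- The data of a periodic tract. -/
structure Tract (c b ρ : ℂ) (n : ℕ) (Λ ψ : ℂ → ℂ) (q : ℕ) (a : ℤ) : Prop where
  hq : 0 < q
  diff : DifferentiableOn ℂ ψ {z : ℂ | 0 < z.re}
  lift : ∀ z : ℂ, 0 < z.re → Λ (ψ z) = eta c z
  inj : ∀ z w : ℂ, 0 < z.re → 0 < w.re → ψ z = ψ w → z = w
  ne : ∀ z : ℂ, 0 < z.re → ψ z ≠ 0
  per : ∀ z : ℂ, 0 < z.re → ψ (2 ^ (n * q) * z + 2 * Real.pi * I * a) = ρ ^ q * ψ z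
  disj : ∀ k : ℕ, 0 < k → k < q → ∀ z w : ℂ, 0 < z.re → 0 < w.re → ψ z ≠ ρ ^ k * ψ w

theorem Tract.isLift {c b ρ : ℂ} {n : ℕ} {Λ ψ : ℂ → ℂ} {q : ℕ} {a : ℤ}
    (T : Tract c b ρ n Λ ψ q a) : IsLift c Λ ψ := ⟨T.diff.continuousOn, T.lift⟩

/-- **Every point of `{u > 0}` lies in a periodic tract** (`c` in the Mandelbrot set). -/
theorem exists_tract {c b ρ : ℂ} {n : ℕ} {Λ : ℂ → ℂ} (h : Lin c b ρ n Λ) (hc : G c 0 = 0)
    {x0 : ℂ} (hx0 : 0 < G c (Λ x0)) :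
    ∃ (ψ : ℂ → ℂ) (q : ℕ) (a : ℤ), Tract c b ρ n Λ ψ q a ∧ ∃ ζ : ℂ, 0 < ζ.re ∧ ψ ζ = x0 := by
  classical
  obtain ⟨ζ, hζ1, hζ2⟩ := eta_surj (c := c) (z := Λ x0) (by rw [hc]; exact hx0)
  have hζ0 : 0 < ζ.re := by rw [hζ1]; exact hx0
  obtain ⟨ψ, hψd, hψ1, hψ2, hψinj⟩ := exists_lift h hc hζ0 hζ2
  have hu : ∀ z : ℂ, 0 < z.re → G c (Λ (ψ z)) = z.re := by
    intro z hz
    rw [hψ1 z hz, G_eta (by rw [hc]; exact hz)]
  have hne : ∀ z : ℂ, 0 < z.re → ψ z ≠ 0 := by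
    intro z hz h0
    have h1 := hu z hz
    rw [h0, h.zero, h.G_b] at h1
    linarith
  obtain ⟨κ, C, hκ, hC, hgr⟩ := h.growth
  have hret := exists_return hψd hne hψinj h.rho hκ hC (fun z hz => by
    rw [← hu z hz]; exact hgr _ (hne z hz))
  set q := Nat.find hret with hq
  obtain ⟨hq0, z, w, hz, hw, hzw⟩ := Nat.find_spec hret
  -- the other lift
  have hρ0 := h.rho_ne
  have hlift2 : IsLift c Λ (fun z => ρ ^ q * ψ (z / 2 ^ (n * q))) := by
    constructor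
    · apply ContinuousOn.mul continuousOn_const
      apply hψd.continuousOn.comp (by fun_prop)
      intro z hz
      show 0 < (z / 2 ^ (n * q)).re
      rw [re_div_pow]
      have : 0 < z.re := hz
      positivity
    · intro z hz
      have h1 : 0 < (z / 2 ^ (n * q)).re := by
        rw [re_div_pow]; positivity
      rw [h.eqn_pow, hψ1 _ h1, it_eta hc h1, mul_div_cancel₀ _ (pow_ne_zero _ two_ne_zero)]
  have hw2 : 0 < (2 ^ (n * q) * w).re := by rw [re_pow_mul]; positivity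
  obtain ⟨m, hm1, hm2⟩ := lift_meet h hc hlift2 ⟨hψd.continuousOn, hψ1⟩ hw2 hz (by
    rw [mul_div_cancel_left₀ _ (pow_ne_zero _ two_ne_zero), hzw])
  refine ⟨ψ, q, m, ⟨hq0, hψd, hψ1, hψinj, hne, ?_, ?_⟩, ζ, hζ0, hψ2⟩
  · intro z hz
    have h1 : 0 < (2 ^ (n * q) * z).re := by rw [re_pow_mul]; positivity
    have h2 := hm2 _ h1
    rw [mul_div_cancel_left₀ _ (pow_ne_zero _ two_ne_zero)] at h2
    exact h2.symm
  · intro k hk hkq z w hz hw hzw
    exact Nat.find_min hret hkq ⟨hk, z, w, hz, hw, hzw⟩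

/-- There is a point with `u > 0`. -/
theorem exists_pos {c b ρ : ℂ} {n : ℕ} {Λ : ℂ → ℂ} (h : Lin c b ρ n Λ) :
    ∃ x0 : ℂ, 0 < G c (Λ x0) := by
  by_contra hcon
  push Not at hcon
  have h1 : ∀ x, G c (Λ x) = 0 := fun x => le_antisymm (hcon x) (G_nonneg _ _)
  have h2 : ∀ x, ‖Λ x‖ ≤ 1 + ‖c‖ := fun x => norm_le_of_G_zero (h1 x)
  have h3 : ∀ x, Λ x = Λ 0 := by
    intro x
    apply h.diff.apply_eq_apply_of_bounded
    rw [isBounded_iff_forall_norm_le]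
    exact ⟨1 + ‖c‖, by rintro _ ⟨x, rfl⟩; exact h2 x⟩
  apply h.der
  have h4 : Λ = fun _ => Λ 0 := funext h3
  rw [h4]; simp

/-- **PLY** for a tract, with the translation number `N`. -/
theorem Tract.ply {c b ρ : ℂ} {n : ℕ} {Λ ψ : ℂ → ℂ} {q : ℕ} {a : ℤ} (h : Lin c b ρ n Λ)
    (T : Tract c b ρ n Λ ψ q a) {L : ℂ} (hL : exp L = ρ) :
    ∃ (F : ℂ → ℂ) (N : ℤ), DifferentiableOn ℂ F {z : ℂ | 0 < z.re} ∧
      (∀ z : ℂ, 0 < z.re → exp (F z) = ψ z) ∧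
      (∀ z : ℂ, 0 < z.re → F (2 ^ (n * q) * z + 2 * Real.pi * I * a)
        = F z + (q * L + N * (2 * Real.pi * I))) ∧
      ‖q * L + N * (2 * Real.pi * I)‖ ^ 2 ≤ 2 * (n * q) * Real.log 2 * L.re := by
  obtain ⟨F, hF, hFe⟩ := exists_log_RH T.diff T.ne
  have hs : (2 * Real.pi * I * a : ℂ).re = 0 := by simp
  obtain ⟨N, hN⟩ := exists_shift hF.continuousOn hFe hL hs T.per
  refine ⟨F, N, hF, hFe, hN, ?_⟩
  have h1 := ply_RH hF hFe T.inj h.rho hL T.hq (Nat.mul_pos h.hn T.hq) hs T.per T.disj hN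
  push_cast at h1
  exact h1

/-- the fixed point of `z ↦ 2^{nq} z + 2 π i a` -/
noncomputable def cen (m : ℕ) (a : ℤ) : ℂ := -(2 * Real.pi * I * a) / (2 ^ m - 1)

theorem cen_re (m : ℕ) (a : ℤ) : (cen m a).re = 0 := by
  have h1 : ((2 : ℂ) ^ m - 1) = ((2 ^ m - 1 : ℝ) : ℂ) := by push_cast; rfl
  rw [cen, h1, div_ofReal_re]; simp

theorem cen_eq {m : ℕ} (hm : 0 < m) (a : ℤ) : 2 ^ m * cen m a + 2 * Real.pi * I * a = cen m a := by
  have h2m : (1 : ℝ) < 2 ^ m := one_lt_pow₀ (by norm_num) hm.ne'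
  have h2m' : ((2 : ℂ) ^ m - 1) ≠ 0 := by
    have h1 : ((2 : ℂ) ^ m - 1) = ((2 ^ m - 1 : ℝ) : ℂ) := by push_cast; rfl
    rw [h1]
    exact_mod_cast (by linarith : (2 ^ m - 1 : ℝ) ≠ 0)
  have : (2 ^ m - 1) * cen m a = -(2 * Real.pi * I * a) := by rw [cen]; field_simp
  linear_combination this

theorem Tract.ray_step {c b ρ : ℂ} {n : ℕ} {Λ ψ : ℂ → ℂ} {q : ℕ} {a : ℤ} (h : Lin c b ρ n Λ)
    (T : Tract c b ρ n Λ ψ q a) (j : ℕ) {s : ℝ} (hs : 0 < s) :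
    ψ (cen (n * q) a + s) = ρ ^ (q * j) * ψ (cen (n * q) a + ((s / 2 ^ (n * q * j) : ℝ) : ℂ)) := by
  have hm : 0 < n * q := Nat.mul_pos h.hn T.hq
  induction j with
  | zero => simp
  | succ j ih =>
    rw [ih]
    have hs2 : 0 < s / 2 ^ (n * q * (j + 1)) := by positivity
    have h1 := T.per (cen (n * q) a + ((s / 2 ^ (n * q * (j + 1)) : ℝ) : ℂ)) (by
      rw [add_re, cen_re, zero_add, ofReal_re]; exact hs2)
    have h2 : 2 ^ (n * q) * (cen (n * q) a + ((s / 2 ^ (n * q * (j + 1)) : ℝ) : ℂ))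
        + 2 * Real.pi * I * a = cen (n * q) a + ((s / 2 ^ (n * q * j) : ℝ) : ℂ) := by
      have h3 := cen_eq hm a
      have h4 : (2 : ℂ) ^ (n * q) * ((s / 2 ^ (n * q * (j + 1)) : ℝ) : ℂ)
          = ((s / 2 ^ (n * q * j) : ℝ) : ℂ) := by
        push_cast
        rw [mul_add (n * q) j 1, mul_one, pow_add]
        have : (2 : ℂ) ^ (n * q) ≠ 0 := pow_ne_zero _ two_ne_zero
        have : (2 : ℂ) ^ (n * q * j) ≠ 0 := pow_ne_zero _ two_ne_zero
        field_simp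
      linear_combination h3 + h4
    rw [h2] at h1
    rw [h1, mul_add, mul_one, pow_add]
    ring

/-- **Landing.** The ray of the tract tends to `0` in the plane of the linearizer. -/
theorem Tract.tendsto_zero {c b ρ : ℂ} {n : ℕ} {Λ ψ : ℂ → ℂ} {q : ℕ} {a : ℤ} (h : Lin c b ρ n Λ)
    (T : Tract c b ρ n Λ ψ q a) :
    Tendsto (fun s : ℝ => ψ (cen (n * q) a + s)) (𝓝[>] 0) (𝓝 0) := by
  have hm : 0 < n * q := Nat.mul_pos h.hn T.hq
  set m := n * q with hmdef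
  have h2m : (1 : ℝ) < 2 ^ m := one_lt_pow₀ (by norm_num) hm.ne'
  have hρq : 1 < ‖ρ‖ ^ q := one_lt_pow₀ h.rho T.hq.ne'
  obtain ⟨K, hK⟩ : ∃ K : ℝ, ∀ s ∈ Icc (1 : ℝ) (2 ^ m), ‖ψ (cen m a + s)‖ ≤ K := by
    have hc : ContinuousOn (fun s : ℝ => ‖ψ (cen m a + s)‖) (Icc (1 : ℝ) (2 ^ m)) := by
      apply ContinuousOn.norm
      apply T.diff.continuousOn.comp (by fun_prop)
      intro s hs
      show 0 < (cen m a + (s : ℂ)).re
      rw [add_re, cen_re, zero_add, ofReal_re]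
      linarith [hs.1]
    obtain ⟨K, hK⟩ := (isCompact_Icc.image_of_continuousOn hc).bddAbove
    exact ⟨K, fun s hs => hK ⟨s, hs, rfl⟩⟩
  have hK0 : 0 ≤ K := (norm_nonneg _).trans (hK 1 ⟨le_rfl, h2m.le⟩)
  rw [Metric.tendsto_nhds]
  intro ε hε
  obtain ⟨J, hJ⟩ := pow_unbounded_of_one_lt (K / ε) hρq
  have hJ2 : K < ε * (‖ρ‖ ^ q) ^ J := by
    rw [div_lt_iff₀ hε] at hJ; linarith
  have hnb : Ioo (0 : ℝ) ((1 / 2 ^ m) ^ J) ∈ 𝓝[>] (0 : ℝ) := by
    apply Ioo_mem_nhdsGT; positivity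
  filter_upwards [hnb] with s hs
  have hs0 : 0 < s := hs.1
  have hs1 : s ≤ 1 := hs.2.le.trans (pow_le_one₀ (by positivity) (by
    rw [div_le_one (by positivity)]; exact h2m.le))
  obtain ⟨i, hi1, hi2⟩ := exists_nat_pow_near (x := 1 / s) (y := (2 : ℝ) ^ m) (by
    rw [le_div_iff₀ hs0]; linarith) h2m
  set j := i + 1 with hj
  have e1 : 1 ≤ s * 2 ^ (m * j) := by
    rw [div_lt_iff₀ hs0] at hi2
    rw [pow_mul]; linarith
  have e2 : s * 2 ^ (m * j) ≤ 2 ^ m := by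
    rw [le_div_iff₀ hs0] at hi1
    rw [pow_mul, hj, pow_succ]
    nlinarith
  have hJj : J ≤ j := by
    by_contra hlt
    push Not at hlt
    have h3 : s * 2 ^ (m * j) < 1 := by
      calc s * 2 ^ (m * j) < (1 / 2 ^ m) ^ J * 2 ^ (m * j) := by
            apply mul_lt_mul_of_pos_right hs.2 (by positivity)
        _ ≤ (1 / 2 ^ m) ^ J * 2 ^ (m * J) := by
            gcongr
            norm_num
        _ = 1 := by
            rw [pow_mul (2 : ℝ) m J, ← mul_pow, one_div, inv_mul_cancel₀ (by positivity), one_pow]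
    linarith
  have h1 := T.ray_step h j (s := s * 2 ^ (m * j)) (by positivity)
  rw [← hmdef, mul_div_cancel_right₀ _ (by positivity)] at h1
  have h2 := hK _ ⟨e1, e2⟩
  rw [h1, norm_mul, norm_pow, pow_mul] at h2
  rw [dist_zero_right]
  have h3 : (‖ρ‖ ^ q) ^ J ≤ (‖ρ‖ ^ q) ^ j := pow_le_pow_right₀ hρq.le hJj
  have h4 : (‖ρ‖ ^ q) ^ j * ‖ψ (cen m a + s)‖ < ε * (‖ρ‖ ^ q) ^ j := by
    calc _ ≤ K := h2
      _ < ε * (‖ρ‖ ^ q) ^ J := hJ2
      _ ≤ _ := by gcongr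
  have h5 : 0 < (‖ρ‖ ^ q) ^ j := by positivity
  nlinarith

theorem Tract.landing {c b ρ : ℂ} {n : ℕ} {Λ ψ : ℂ → ℂ} {q : ℕ} {a : ℤ} (h : Lin c b ρ n Λ)
    (T : Tract c b ρ n Λ ψ q a) :
    Tendsto (fun s : ℝ => eta c (cen (n * q) a + s)) (𝓝[>] 0) (𝓝 b) := by
  have h1 := (h.diff.continuous.tendsto 0).comp (T.tendsto_zero h)
  rw [h.zero] at h1
  apply h1.congr'
  filter_upwards [self_mem_nhdsWithin] with s hs
  apply T.lift
  rw [add_re, cen_re, zero_add, ofReal_re]; exact hs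

end Pool.Agent.Work.MLC.Tr
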