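import Mathlib

set_option autoImplicit false

/-! # The EP lemma (helper70's note 1953, Lean by helper15)

`K 0, K 1, ..., K (L - 1)` any word, `K L` different from all of them.  A parse has a state `x` at
time `y`; the next state is `x + 1` if `K x = K y`, else `0`.  `side K L x y` is the symbol of the
state at time `L` of the parse with state `x` at time `y`.  Then `side x 0 = side 0 1` for
`1 ≤ x ≤ L`. -/

namespace Pool.Agent.Work.MLC.EP

variable {α : Type*} [DecidableEq α]

/-- one step of the parse -/
def stp (K : ℕ → α) (x y : ℕ) : ℕ := if K x = K y then x + 1 else 0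

/-- the state at time `y + i` of the parse started with state `x` at time `y` -/
def st (K : ℕ → α) (x y : ℕ) : ℕ → ℕ
  | 0 => x
  | i + 1 => stp K (st K x y i) (y + i)

/-- the symbol of the final state (time `L`) -/
def side (K : ℕ → α) (L x y : ℕ) : α := K (st K x y (L - y))

variable {K : ℕ → α} {L : ℕ}

theorem st_zero (x y : ℕ) : st K x y 0 = x := rfl

theorem st_succ (x y i : ℕ) : st K x y (i + 1) = stp K (st K x y i) (y + i) := rfl

theorem st_add (x y i j : ℕ) : st K x y (i + j) = st K (st K x y i) (y + i) j := by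
  induction j with
  | zero => rfl
  | succ j ih => rw [← add_assoc, st_succ, st_succ, ih, add_assoc]

theorem stp_of_eq {x y : ℕ} (h : K x = K y) : stp K x y = x + 1 := if_pos h

theorem stp_of_ne {x y : ℕ} (h : K x ≠ K y) : stp K x y = 0 := if_neg h

theorem side_of_st {x y i : ℕ} (h : y + i ≤ L) : side K L x y = side K L (st K x y i) (y + i) := by
  unfold side
  rw [← st_add]
  congr 2
  omega

/-- the recursion used in the note -/
theorem side_succ {x y : ℕ} (h : y < L) : side K L x y = side K L (stp K x y) (y + 1) :=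
  side_of_st (i := 1) h

theorem side_self (x : ℕ) : side K L x L = K x := by unfold side; rw [Nat.sub_self]; rfl

/-- same symbols ahead: same states -/
theorem st_congr {y y' d : ℕ} (h : ∀ i < d, K (y + i) = K (y' + i)) (z : ℕ) :
    st K z y d = st K z y' d := by
  induction d with
  | zero => rfl
  | succ d ih =>
    rw [st_succ, st_succ, ih fun i hi => h i (by omega)]
    unfold stp
    rw [h d (by omega)]

theorem st_self {y y' d : ℕ} (h : ∀ i < d, K (y + i) = K (y' + i)) : st K y' y d = y' + d := by
  induction d with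
  | zero => rfl
  | succ d ih =>
    rw [st_succ, ih fun i hi => h i (by omega), stp_of_eq (h d (by omega)).symm]
    omega

theorem side_reset {x y d : ℕ} (hd : y + d < L) (h : K (st K x y d) ≠ K (y + d)) :
    side K L x y = side K L 0 (y + d + 1) := by
  rw [side_of_st (i := d + 1) (by omega), st_succ, stp_of_ne h]
  rfl

theorem side_end {x y d : ℕ} (hd : y + d = L) : side K L x y = K (st K x y d) := by
  rw [side_of_st (i := d) hd.le, hd, side_self]

/-- the first difference -/
theorem exists_diff (hK : ∀ x < L, K x ≠ K L) {y y' : ℕ} (hy : y ≤ L) (hy' : y' ≤ L) (hne : y ≠ y') :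
    ∃ d, y + d ≤ L ∧ y' + d ≤ L ∧ K (y + d) ≠ K (y' + d) ∧ ∀ i < d, K (y + i) = K (y' + i) := by
  have key : ∀ a b : ℕ, a < b → b ≤ L → ∃ d, a + d ≤ L ∧ b + d ≤ L ∧ K (a + d) ≠ K (b + d) ∧
      ∀ i < d, K (a + i) = K (b + i) := by
    intro a b hab hb
    have hex : ∃ d, K (a + d) ≠ K (b + d) := by
      refine ⟨L - b, ?_⟩
      rw [Nat.add_sub_cancel' hb]
      exact hK _ (by omega)
    have hle : Nat.find hex ≤ L - b := by
      refine Nat.find_min' hex ?_
      rw [Nat.add_sub_cancel' hb]
      exact hK _ (by omega)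
    refine ⟨Nat.find hex, by omega, by omega, Nat.find_spec hex, fun i hi => ?_⟩
    have := Nat.find_min hex hi
    push Not at this
    exact this
  rcases Nat.lt_or_gt_of_ne hne with h | h
  · exact key y y' h hy'
  · obtain ⟨d, h1, h2, h3, h4⟩ := key y' y h hy
    exact ⟨d, h2, h1, fun he => h3 he.symm, fun i hi => (h4 i hi).symm⟩

/-- the relation of the note -/
def R (K : ℕ → α) (L y z : ℕ) : Prop := side K L 0 y ≠ side K L z y

theorem R_ne_zero {y z : ℕ} (h : R K L y z) : z ≠ 0 := by
  rintro rfl; exact h rfl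

/-- what `R y y'` means at the first difference -/
theorem R_diff {y y' d : ℕ} (h1 : y + d ≤ L) (h3 : K (y + d) ≠ K (y' + d))
    (h4 : ∀ i < d, K (y + i) = K (y' + i)) (hR : R K L y y') :
    (y + d < L → K (st K 0 y d) = K (y + d)) ∧ K (st K 0 y d) ≠ K (y' + d) := by
  have hself := st_self h4
  rcases h1.lt_or_eq with h5 | h5
  · have h6 : K (st K 0 y d) = K (y + d) := by
      by_contra hcon
      apply hR
      rw [side_reset h5 hcon, side_reset (x := y') h5 (by rw [hself]; exact fun he => h3 he.symm)]
    exact ⟨fun _ => h6, by rw [h6]; exact h3⟩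
  · refine ⟨fun h => absurd h (by omega), fun hcon => hR ?_⟩
    rw [side_end h5, side_end (x := y') h5, hself, hcon]

theorem AS (hK : ∀ x < L, K x ≠ K L) {y y' : ℕ} (hy : y ≤ L) (hy' : y' ≤ L) (hne : y ≠ y')
    (hR : R K L y y') : ¬ R K L y' y := by
  obtain ⟨d, h1, h2, h3, h4⟩ := exists_diff hK hy hy' hne
  obtain ⟨h5, h6⟩ := R_diff h1 h3 h4 hR
  intro hR'
  obtain ⟨h7, h8⟩ := R_diff h2 (fun he => h3 he.symm) (fun i hi => (h4 i hi).symm) hR'
  rw [← st_congr h4] at h7 h8
  rcases h1.lt_or_eq with h9 | h9
  · exact h8 (h5 h9)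
  · exact h6 (h7 (by omega))

theorem TR (hK : ∀ x < L, K x ≠ K L) {y y' z : ℕ} (hy : y ≤ L) (hy' : y' ≤ L) (hne : y ≠ y')
    (hR : R K L y y') (hR' : R K L y' z) : R K L y z := by
  obtain ⟨d, h1, h2, h3, h4⟩ := exists_diff hK hy hy' hne
  obtain ⟨h5, h6⟩ := R_diff h1 h3 h4 hR
  have hself := st_self h4
  have hu := st_congr h4 0
  have hv := st_congr h4 z
  -- the state of `z` at the first difference
  have hz : (y' + d < L → K (st K z y d) = K (y' + d)) ∧
      (y' + d = L → K (st K 0 y d) ≠ K (st K z y d)) := by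
    constructor
    · intro h7
      by_contra hcon
      apply hR'
      rw [side_reset h7 (by rw [← hu]; exact h6), side_reset (x := z) h7 (by rw [← hv]; exact hcon)]
    · intro h7 h8
      apply hR'
      rw [side_end h7, side_end (x := z) h7, ← hu, ← hv, h8]
  unfold R
  rcases h1.lt_or_eq with h7 | h7
  · have h8 : K (st K z y d) ≠ K (y + d) := by
      rcases h2.lt_or_eq with h9 | h9
      · rw [hz.1 h9]; exact fun he => h3 he.symm
      · rw [← h5 h7]; exact fun he => hz.2 h9 he.symm
    rw [side_reset (x := z) h7 h8,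
      ← side_reset (x := y') h7 (by rw [hself]; exact fun he => h3 he.symm)]
    exact hR
  · rw [side_end (x := z) h7, hz.1 (by omega), ← hself, ← side_end (K := K) (x := y') h7]
    exact hR

theorem st_le (hK : ∀ x < L, K x ≠ K L) {x y i : ℕ} (hx : x ≤ L) (hi : y + i ≤ L) :
    st K x y i ≤ L := by
  induction i with
  | zero => exact hx
  | succ i ih =>
    have h1 := ih (by omega)
    rw [st_succ]
    unfold stp
    split_ifs with h
    · rcases h1.lt_or_eq with h2 | h2
      · omega
      · rw [h2] at h
        exact absurd h.symm (hK _ (by omega))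
    · exact Nat.zero_le _

theorem st_le_self (y i : ℕ) : st K 0 y i ≤ i := by
  induction i with
  | zero => exact le_rfl
  | succ i ih =>
    rw [st_succ]; unfold stp
    split_ifs <;> omega

theorem st_or (x i : ℕ) : st K x 0 i = x + i ∨ st K x 0 i < i := by
  induction i with
  | zero => left; rfl
  | succ i ih =>
    rw [st_succ]; unfold stp
    split_ifs <;> omega

/-- **EP lemma** -/
theorem ep (hK : ∀ x < L, K x ≠ K L) {x : ℕ} (hx : 1 ≤ x) (hxL : x ≤ L) :
    side K L x 0 = side K L 0 1 := by
  by_contra hcon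
  have hex : ∀ y, 1 ≤ y → y ≤ L → ∃ z, z ≠ y ∧ 1 ≤ z ∧ z ≤ L ∧ R K L y z := by
    intro y hy1 hyL
    have hp : side K L x 0 = side K L (st K x 0 y) y := by
      have := side_of_st (K := K) (x := x) (y := 0) (i := y) (L := L) (by omega)
      rwa [Nat.zero_add] at this
    have hq : side K L 0 1 = side K L (st K 0 1 (y - 1)) y := by
      have := side_of_st (K := K) (x := 0) (y := 1) (i := y - 1) (L := L) (by omega)
      rwa [show 1 + (y - 1) = y by omega] at this
    by_cases h : side K L 0 y = side K L (st K x 0 y) y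
    · have hR : R K L y (st K 0 1 (y - 1)) := by
        intro he
        apply hcon
        rw [hp, hq, ← he, h]
      have h1 := R_ne_zero hR
      have h2 := st_le_self (K := K) 1 (y - 1)
      exact ⟨_, by omega, by omega, by omega, hR⟩
    · have hR : R K L y (st K x 0 y) := h
      have h1 := R_ne_zero hR
      have h2 := st_or (K := K) x y
      have h3 := st_le hK (x := x) (y := 0) (i := y) hxL (by omega)
      exact ⟨_, by omega, by omega, h3, hR⟩
  choose! f hf1 hf2 hf3 hf4 using hex
  have hmem : ∀ m y, 1 ≤ y → y ≤ L → 1 ≤ f^[m] y ∧ f^[m] y ≤ L := by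
    intro m
    induction m with
    | zero => intro y h1 h2; exact ⟨h1, h2⟩
    | succ m ih =>
      intro y h1 h2
      rw [Function.iterate_succ_apply]
      exact ih _ (hf2 y h1 h2) (hf3 y h1 h2)
  have hchain : ∀ m y, 1 ≤ y → y ≤ L → R K L y (f^[m + 1] y) := by
    intro m
    induction m with
    | zero => intro y h1 h2; exact hf4 y h1 h2
    | succ m ih =>
      intro y h1 h2
      rw [Function.iterate_succ_apply]
      exact TR hK h2 (hf3 y h1 h2) (Ne.symm (hf1 y h1 h2)) (hf4 y h1 h2)
        (ih _ (hf2 y h1 h2) (hf3 y h1 h2))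
  -- pigeonhole
  have hni : ¬ Function.Injective (fun m : ℕ => (⟨f^[m] x, by
      have := hmem m x hx hxL; omega⟩ : Fin (L + 1))) := not_injective_infinite_finite _
  rw [Function.not_injective_iff] at hni
  obtain ⟨a, b, hab, hne⟩ := hni
  simp only [Fin.mk.injEq] at hab
  have key : ∀ a b : ℕ, a < b → f^[a] x = f^[b] x → False := by
    intro a b hlt he
    obtain ⟨h1, h2⟩ := hmem a x hx hxL
    set y := f^[a] x with hy
    obtain ⟨m, rfl⟩ : ∃ m, b = a + 1 + m := ⟨b - (a + 1), by omega⟩
    have he' : f^[m + 1] y = y := by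
      rw [hy, ← Function.iterate_add_apply, show m + 1 + a = a + 1 + m by omega, ← he]
    cases m with
    | zero => exact hf1 y h1 h2 he'
    | succ m =>
      rw [Function.iterate_succ_apply] at he'
      have h3 := hchain m (f y) (hf2 y h1 h2) (hf3 y h1 h2)
      rw [he'] at h3
      exact AS hK h2 (hf3 y h1 h2) (Ne.symm (hf1 y h1 h2)) (hf4 y h1 h2) h3
  rcases Nat.lt_or_gt_of_ne hne with h | h
  · exact key a b h hab
  · exact key b a h hab.symm

end Pool.Agent.Work.MLC.EP
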