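import Pool.Agent.Work.MLC.EtaA

set_option autoImplicit false

/-! # The inverse Boettcher coordinate on `{G c z > G c 0}`  (helper56)

`psi c w` is defined for `Real.exp (G c 0) < ‖w‖`, `eta c L = psi c (exp L)` for `G c 0 < re L`. -/

namespace Pool.Agent.Work.MLC

open Filter Topology Metric Set

/-- the inverse Boettcher coordinate -/
noncomputable def psi (c w : ℂ) : ℂ := w * Ef (c, w⁻¹)

/-- the inverse Boettcher coordinate in the logarithmic coordinate -/
noncomputable def eta (c L : ℂ) : ℂ := psi c (Complex.exp L)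

/-! ### the coordinate `w` -/

section psi

variable {c w : ℂ}

lemma ne_zero_of_dom (h : Real.exp (G c 0) < ‖w‖) : w ≠ 0 := by
  intro h0; rw [h0, norm_zero] at h; linarith [Real.exp_pos (G c 0)]

lemma mem_Om_of_dom (h : Real.exp (G c 0) < ‖w‖) : (c, w⁻¹) ∈ Om := by
  show ‖w⁻¹‖ * Real.exp (G c 0) < 1
  have h0 : 0 < ‖w‖ := norm_pos_iff.2 (ne_zero_of_dom h)
  rw [norm_inv, inv_mul_lt_iff₀ h0, mul_one]
  exact h

lemma one_lt_of_dom (h : Real.exp (G c 0) < ‖w‖) : 1 < ‖w‖ :=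
  (Real.one_le_exp (G_nonneg c 0)).trans_lt h

lemma dom_sq (h : Real.exp (G c 0) < ‖w‖) : Real.exp (G c 0) < ‖w ^ 2‖ := by
  rw [norm_pow]; nlinarith [one_lt_of_dom h]

lemma dom_pow (h : Real.exp (G c 0) < ‖w‖) (n : ℕ) : Real.exp (G c 0) < ‖w ^ 2 ^ n‖ := by
  rw [norm_pow]
  exact h.trans_le (le_self_pow₀ (one_lt_of_dom h).le (by positivity))

theorem G_psi (h : Real.exp (G c 0) < ‖w‖) : G c (psi c w) = Real.log ‖w‖ := by
  have h0 := ne_zero_of_dom h
  have h1 := G_Ef (mem_Om_of_dom h) (inv_ne_zero h0)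
  have h2 : psi c w = Ef (c, w⁻¹) / w⁻¹ := by
    unfold psi; field_simp
  rw [h2, h1, norm_inv, Real.log_inv, neg_neg]

theorem f_psi (h : Real.exp (G c 0) < ‖w‖) : f c (psi c w) = psi c (w ^ 2) := by
  have h0 := ne_zero_of_dom h
  have h1 := Ef_sq (mem_Om_of_dom h)
  unfold f psi
  rw [mul_pow, h1, inv_pow]
  field_simp
  ring

theorem it_psi (h : Real.exp (G c 0) < ‖w‖) (n : ℕ) :
    it c n (psi c w) = psi c (w ^ 2 ^ n) := by
  induction n with
  | zero => simp
  | succ n ih => rw [it_succ, ih, f_psi (dom_pow h n), ← pow_mul, ← pow_succ]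

theorem psi_neg (h : Real.exp (G c 0) < ‖w‖) : psi c (-w) = - psi c w := by
  unfold psi
  rw [inv_neg, Ef_neg (mem_Om_of_dom h)]; ring

lemma psi_ne_zero (h : Real.exp (G c 0) < ‖w‖) : psi c w ≠ 0 :=
  mul_ne_zero (ne_zero_of_dom h) (Ef_ne_zero (mem_Om_of_dom h))

lemma psi_near (h : Near c w⁻¹) : psi c w = w * Eb c w⁻¹ := by
  unfold psi; rw [Ef_near h]

/-- the powers `w ^ 2 ^ n` reach the region near infinity -/
lemma eventually_near_pow (h : Real.exp (G c 0) < ‖w‖) : ∀ᶠ n : ℕ in atTop,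
    Near c (w ^ 2 ^ n)⁻¹ := by
  obtain ⟨n, hn⟩ := exists_mem_An (mem_Om_of_dom h)
  filter_upwards [eventually_ge_atTop n] with m hm
  have := (An_mono hm hn).2
  rwa [inv_pow] at this

lemma bo_it_psi (h : Real.exp (G c 0) < ‖w‖) {n : ℕ} (hn : Near c (w ^ 2 ^ n)⁻¹) :
    bo c (it c n (psi c w)) = w ^ 2 ^ n := by
  rw [it_psi h, psi_near hn, bo_psib hn (pow_ne_zero _ (ne_zero_of_dom h))]

theorem psi_inj {w' : ℂ} (h : Real.exp (G c 0) < ‖w‖) (h' : Real.exp (G c 0) < ‖w'‖)
    (he : psi c w = psi c w') : w = w' := by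
  have key : ∀ n : ℕ, ∀ w w' : ℂ, Real.exp (G c 0) < ‖w‖ → Real.exp (G c 0) < ‖w'‖ →
      psi c w = psi c w' → w ^ 2 ^ n = w' ^ 2 ^ n → w = w' := by
    intro n
    induction n with
    | zero => intro w w' _ _ _ h; simpa using h
    | succ n ih =>
      intro w w' h h' he hp
      have h1 : psi c (w ^ 2) = psi c (w' ^ 2) := by rw [← f_psi h, ← f_psi h', he]
      have h2 : (w ^ 2) ^ 2 ^ n = (w' ^ 2) ^ 2 ^ n := by
        rw [← pow_mul, ← pow_mul, ← pow_succ']; exact hp
      have h3 := ih _ _ (dom_sq h) (dom_sq h') h1 h2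
      rcases sq_eq_sq_iff_eq_or_eq_neg.1 h3 with h4 | h4
      · exact h4
      · exfalso
        rw [h4, psi_neg h'] at he
        have : psi c w' = 0 := by
          have h5 : psi c w' + psi c w' = 0 := by nth_rewrite 1 [← he]; ring
          have h6 : (2 : ℂ) * psi c w' = 0 := by rw [two_mul]; exact h5
          simpa using h6
        exact psi_ne_zero h' this
  obtain ⟨n, hn, hn'⟩ := ((eventually_near_pow h).and (eventually_near_pow h')).exists
  refine key n w w' h h' he ?_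
  rw [← bo_it_psi h hn, ← bo_it_psi h' hn', he]

theorem psi_surj {z : ℂ} (h : G c 0 < G c z) :
    ∃ w : ℂ, ‖w‖ = Real.exp (G c z) ∧ psi c w = z := by
  have key : ∀ n : ℕ, ∀ z : ℂ, G c 0 < G c z →
      (∃ w : ℂ, ‖w‖ = Real.exp (2 ^ n * G c z) ∧ psi c w = it c n z) →
      ∃ w : ℂ, ‖w‖ = Real.exp (G c z) ∧ psi c w = z := by
    intro n
    induction n with
    | zero => intro z _ h; simpa using h
    | succ n ih =>
      intro z hz hw
      have h1 : G c 0 < G c (f c z) := by rw [G_f]; linarith [G_nonneg c z]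
      obtain ⟨w', hw', hw'2⟩ := ih (f c z) h1 (by
        obtain ⟨w, hw1, hw2⟩ := hw
        refine ⟨w, ?_, ?_⟩
        · rw [hw1, G_f, pow_succ]; ring_nf
        · rw [hw2, it_succ'])
      rw [G_f] at hw'
      obtain ⟨w, hw⟩ : ∃ w : ℂ, w ^ 2 = w' := IsAlgClosed.exists_pow_nat_eq w' (by norm_num)
      have hn : ‖w‖ = Real.exp (G c z) := by
        have h2 : ‖w‖ ^ 2 = Real.exp (G c z) ^ 2 := by
          rw [← norm_pow, hw, hw', ← Real.exp_nat_mul]; push_cast; rfl
        exact (pow_left_inj₀ (norm_nonneg _) (Real.exp_pos _).le two_ne_zero).1 h2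
      have hd : Real.exp (G c 0) < ‖w‖ := by rw [hn]; exact Real.exp_lt_exp.2 hz
      have h3 := f_psi hd
      rw [hw, hw'2] at h3
      unfold f at h3
      have h4 : psi c w ^ 2 = z ^ 2 := add_right_cancel h3
      rcases sq_eq_sq_iff_eq_or_eq_neg.1 h4 with h5 | h5
      · exact ⟨w, hn, h5⟩
      · refine ⟨-w, by rw [norm_neg, hn], ?_⟩
        rw [psi_neg hd, h5, neg_neg]
  have hpos : 0 < G c z := (G_nonneg c 0).trans_lt h
  obtain ⟨n, hn⟩ := ((tendsto_it_of_G_pos hpos).eventually_gt_atTop (8 * (‖c‖ + 2))).exists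
  refine key n z h ⟨bo c (it c n z), ?_, ?_⟩
  · have hF : Far c (it c n z) := by unfold Far; linarith [norm_nonneg c]
    rw [norm_bo hF, G_it]
  · have hF : Far c (it c n z) := by unfold Far; linarith [norm_nonneg c]
    have h1 := le_norm_bo hF
    have h0 := bo_ne_zero hF
    have hN : Near c (bo c (it c n z))⁻¹ := by
      unfold Near
      rw [norm_inv, inv_mul_lt_iff₀ (norm_pos_iff.2 h0), mul_one]
      linarith [norm_nonneg c]
    rw [psi_near hN, psib_bo hn]

end psi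

lemma isOpen_dom : IsOpen {p : ℂ × ℂ | Real.exp (G p.1 0) < ‖p.2‖} := by
  have h1 : Continuous fun p : ℂ × ℂ => G p.1 0 := by
    have h2 : Continuous fun p : ℂ × ℂ => ((p.1, 0) : ℂ × ℂ) := by fun_prop
    have h3 : Continuous ((fun p : ℂ × ℂ => G p.1 p.2) ∘ fun p : ℂ × ℂ => ((p.1, 0) : ℂ × ℂ)) :=
      Continuous.comp continuous_G h2
    exact h3
  exact isOpen_lt (by fun_prop) (by fun_prop)

lemma continuous_G_zero : Continuous fun c : ℂ => G c 0 := by
  have h2 : Continuous fun c : ℂ => ((c, 0) : ℂ × ℂ) := by fun_prop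
  have h3 : Continuous ((fun p : ℂ × ℂ => G p.1 p.2) ∘ fun c : ℂ => ((c, 0) : ℂ × ℂ)) :=
    Continuous.comp continuous_G h2
  exact h3

theorem continuousOn_psi :
    ContinuousOn (fun p : ℂ × ℂ => psi p.1 p.2) {p | Real.exp (G p.1 0) < ‖p.2‖} := by
  unfold psi
  have h1 : ContinuousOn (fun p : ℂ × ℂ => ((p.1, p.2⁻¹) : ℂ × ℂ))
      {p | Real.exp (G p.1 0) < ‖p.2‖} :=
    continuousOn_fst.prodMk (continuousOn_snd.inv₀ fun p hp => ne_zero_of_dom hp)
  exact continuousOn_snd.mul (continuousOn_Ef.comp h1 fun p hp => mem_Om_of_dom hp)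

/-- a continuous square root of a holomorphic function without zeros is holomorphic -/
lemma differentiableAt_of_sq {h : ℂ → ℂ} {t₀ : ℂ} (hc : ContinuousAt h t₀) (h0 : h t₀ ≠ 0)
    (hd : DifferentiableAt ℂ (fun t => h t ^ 2) t₀) : DifferentiableAt ℂ h t₀ := by
  have h1 := hd.hasDerivAt
  rw [hasDerivAt_iff_tendsto_slope] at h1
  have h2 : Tendsto (fun t => h t + h t₀) (𝓝[≠] t₀) (𝓝 (h t₀ + h t₀)) :=
    (hc.tendsto.add_const _).mono_left nhdsWithin_le_nhds
  have h3 : h t₀ + h t₀ ≠ 0 := by rw [← two_mul]; exact mul_ne_zero two_ne_zero h0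
  have h4 := h1.div h2 h3
  have h5 : HasDerivAt h (deriv (fun t => h t ^ 2) t₀ / (h t₀ + h t₀)) t₀ := by
    rw [hasDerivAt_iff_tendsto_slope]
    refine h4.congr' ?_
    filter_upwards [h2.eventually_ne h3, self_mem_nhdsWithin] with t ht ht'
    have ht'' : t - t₀ ≠ 0 := sub_ne_zero.2 ht'
    simp only [Pi.div_apply, slope_def_field]
    field_simp
    ring
  exact h5.differentiableAt

lemma differentiableOn_of_sq {h : ℂ → ℂ} {U : Set ℂ} (hU : IsOpen U) (hc : ContinuousOn h U)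
    (h0 : ∀ t ∈ U, h t ≠ 0) (hd : DifferentiableOn ℂ (fun t => h t ^ 2) U) :
    DifferentiableOn ℂ h U := fun t ht =>
  (differentiableAt_of_sq (hc.continuousAt (hU.mem_nhds ht)) (h0 t ht)
    (hd.differentiableAt (hU.mem_nhds ht))).differentiableWithinAt

lemma differentiableOn_of_pow {h : ℂ → ℂ} {U : Set ℂ} (hU : IsOpen U) (hc : ContinuousOn h U)
    (h0 : ∀ t ∈ U, h t ≠ 0) (n : ℕ) (hd : DifferentiableOn ℂ (fun t => h t ^ 2 ^ n) U) :
    DifferentiableOn ℂ h U := by
  induction n with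
  | zero => simpa using hd
  | succ n ih =>
    refine ih (differentiableOn_of_sq hU (hc.pow _) (fun t ht => pow_ne_zero _ (h0 t ht)) ?_)
    refine hd.congr fun t _ => ?_
    show (h t ^ 2 ^ n) ^ 2 = h t ^ 2 ^ (n + 1)
    rw [← pow_mul, pow_succ]

/-- `Ef` is holomorphic along holomorphic curves -/
theorem differentiableOn_Ef {U : Set ℂ} (hU : IsOpen U) {γ δ : ℂ → ℂ}
    (hγ : DifferentiableOn ℂ γ U) (hδ : DifferentiableOn ℂ δ U)
    (h : ∀ t ∈ U, (γ t, δ t) ∈ Om) : DifferentiableOn ℂ (fun t => Ef (γ t, δ t)) U := by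
  have key : ∀ n : ℕ, ∀ (U : Set ℂ) (γ δ : ℂ → ℂ), IsOpen U → DifferentiableOn ℂ γ U →
      DifferentiableOn ℂ δ U → (∀ t ∈ U, (γ t, δ t) ∈ An n) →
      DifferentiableOn ℂ (fun t => Ef (γ t, δ t)) U := by
    intro n
    induction n with
    | zero =>
      intro U γ δ hU hγ hδ h
      refine (differentiableOn_Eb hU hγ hδ fun t ht => mem_An_zero.1 (h t ht)).congr
        fun t ht => ?_
      exact Ef_near (mem_An_zero.1 (h t ht))
    | succ n ih =>
      intro U γ δ hU hγ hδ h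
      have h1 : ContinuousOn (fun t => ((γ t, δ t) : ℂ × ℂ)) U :=
        hγ.continuousOn.prodMk hδ.continuousOn
      have h2 : ContinuousOn (fun t => Ef (γ t, δ t)) U :=
        continuousOn_Ef.comp h1 fun t ht => (h t ht).1
      refine differentiableOn_of_sq hU h2 (fun t ht => Ef_ne_zero (h t ht).1) ?_
      have h3 := (ih U γ (fun t => δ t ^ 2) hU hγ (hδ.pow 2) fun t ht => An_sq (h t ht)).sub
        (hγ.mul (hδ.pow 2))
      exact h3.congr fun t ht => Ef_sq (h t ht).1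
  intro t₀ ht₀
  obtain ⟨n, hn⟩ := exists_mem_An (h t₀ ht₀)
  have h1 : ContinuousOn (fun t => ((γ t, δ t) : ℂ × ℂ)) U :=
    hγ.continuousOn.prodMk hδ.continuousOn
  have hV : IsOpen (U ∩ (fun t => ((γ t, δ t) : ℂ × ℂ)) ⁻¹' An n) :=
    h1.isOpen_inter_preimage hU (isOpen_An n)
  have h2 := key n _ γ δ hV (hγ.mono inter_subset_left) (hδ.mono inter_subset_left)
    fun t ht => ht.2
  exact (h2.differentiableAt (hV.mem_nhds ⟨ht₀, hn⟩)).differentiableWithinAt

/-- `psi` is holomorphic along holomorphic curves -/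
theorem differentiableOn_psi {U : Set ℂ} (hU : IsOpen U) {γ δ : ℂ → ℂ}
    (hγ : DifferentiableOn ℂ γ U) (hδ : DifferentiableOn ℂ δ U)
    (h : ∀ t ∈ U, Real.exp (G (γ t) 0) < ‖δ t‖) :
    DifferentiableOn ℂ (fun t => psi (γ t) (δ t)) U := by
  unfold psi
  have h1 : DifferentiableOn ℂ (fun t => (δ t)⁻¹) U := hδ.inv fun t ht => ne_zero_of_dom (h t ht)
  exact hδ.mul (differentiableOn_Ef hU hγ h1 fun t ht => mem_Om_of_dom (h t ht))

/-! ### the coordinate `L` -/

lemma dom_exp {c L : ℂ} (h : G c 0 < L.re) : Real.exp (G c 0) < ‖Complex.exp L‖ := by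
  rw [Complex.norm_exp]; exact Real.exp_lt_exp.2 h

theorem G_eta {c L : ℂ} (h : G c 0 < L.re) : G c (eta c L) = L.re := by
  unfold eta
  rw [G_psi (dom_exp h), Complex.norm_exp, Real.log_exp]

theorem f_eta {c L : ℂ} (h : G c 0 < L.re) : f c (eta c L) = eta c (2 * L) := by
  unfold eta
  rw [f_psi (dom_exp h), ← Complex.exp_nat_mul]
  push_cast; rfl

theorem it_eta {c L : ℂ} (h : G c 0 < L.re) (n : ℕ) : it c n (eta c L) = eta c (2 ^ n * L) := by
  unfold eta
  rw [it_psi (dom_exp h), ← Complex.exp_nat_mul]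
  push_cast; rfl

theorem eta_add_two_pi (c L : ℂ) : eta c (L + 2 * Real.pi * Complex.I) = eta c L := by
  unfold eta
  have := Complex.exp_periodic L
  rw [this]

theorem eta_add_int (c L : ℂ) (k : ℤ) : eta c (L + 2 * Real.pi * Complex.I * k) = eta c L := by
  unfold eta
  congr 1
  rw [Complex.exp_eq_exp_iff_exists_int]
  exact ⟨k, by ring⟩

theorem eta_add_pi {c L : ℂ} (h : G c 0 < L.re) :
    eta c (L + Real.pi * Complex.I) = - eta c L := by
  unfold eta
  have : Complex.exp (L + Real.pi * Complex.I) = - Complex.exp L := by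
    rw [Complex.exp_add, Complex.exp_pi_mul_I]; ring
  rw [this, psi_neg (dom_exp h)]

theorem eta_ne_zero {c L : ℂ} (h : G c 0 < L.re) : eta c L ≠ 0 := psi_ne_zero (dom_exp h)

theorem eta_eq_iff {c L L' : ℂ} (h : G c 0 < L.re) (h' : G c 0 < L'.re) :
    eta c L = eta c L' ↔ ∃ k : ℤ, L' = L + 2 * Real.pi * Complex.I * k := by
  constructor
  · intro he
    have h1 := psi_inj (dom_exp h) (dom_exp h') he
    obtain ⟨k, hk⟩ := Complex.exp_eq_exp_iff_exists_int.1 h1.symm
    exact ⟨k, by rw [hk]; ring⟩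
  · rintro ⟨k, rfl⟩
    exact (eta_add_int c L k).symm

theorem eta_surj {c z : ℂ} (h : G c 0 < G c z) : ∃ L : ℂ, L.re = G c z ∧ eta c L = z := by
  obtain ⟨w, hw, hw2⟩ := psi_surj h
  have hw0 : w ≠ 0 := by
    intro h0; rw [h0, norm_zero] at hw; linarith [Real.exp_pos (G c z)]
  refine ⟨Complex.log w, ?_, ?_⟩
  · rw [Complex.log_re, hw, Real.log_exp]
  · unfold eta; rw [Complex.exp_log hw0, hw2]

lemma isOpen_dom_re : IsOpen {p : ℂ × ℂ | G p.1 0 < p.2.re} := by
  have h1 : Continuous fun p : ℂ × ℂ => G p.1 0 := continuous_G_zero.comp continuous_fst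
  exact isOpen_lt h1 (Complex.continuous_re.comp continuous_snd)

theorem continuousOn_eta :
    ContinuousOn (fun p : ℂ × ℂ => eta p.1 p.2) {p | G p.1 0 < p.2.re} := by
  unfold eta
  have h1 : ContinuousOn (fun p : ℂ × ℂ => ((p.1, Complex.exp p.2) : ℂ × ℂ))
      {p | G p.1 0 < p.2.re} := by fun_prop
  exact continuousOn_psi.comp h1 fun p hp => dom_exp hp

/-- holomorphic along holomorphic curves in parameter x coordinate space -/
theorem differentiableOn_eta {U : Set ℂ} (hU : IsOpen U) {γ δ : ℂ → ℂ}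
    (hγ : DifferentiableOn ℂ γ U) (hδ : DifferentiableOn ℂ δ U)
    (h : ∀ t ∈ U, G (γ t) 0 < (δ t).re) : DifferentiableOn ℂ (fun t => eta (γ t) (δ t)) U :=
  differentiableOn_psi hU hγ hδ.cexp fun t ht => dom_exp (h t ht)

theorem differentiableOn_eta_right (c : ℂ) :
    DifferentiableOn ℂ (eta c) {L | G c 0 < L.re} :=
  differentiableOn_eta (γ := fun _ => c) (δ := fun L => L)
    (isOpen_lt continuous_const Complex.continuous_re)
    (differentiableOn_const c) differentiableOn_id fun _ h => h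

lemma differentiableAt_eta {c L : ℂ} (h : G c 0 < L.re) : DifferentiableAt ℂ (eta c) L :=
  (differentiableOn_eta_right c).differentiableAt
    ((isOpen_lt continuous_const Complex.continuous_re).mem_nhds h)

theorem deriv_eta_ne_zero {c L : ℂ} (h : G c 0 < L.re) : deriv (eta c) L ≠ 0 := by
  have key : ∀ n : ℕ, ∀ L : ℂ, G c 0 < L.re → Near c (Complex.exp (2 ^ n * L))⁻¹ →
      deriv (eta c) L ≠ 0 := by
    intro n
    induction n with
    | zero =>
      intro L hL hN h0
      rw [pow_zero, one_mul] at hN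
      -- `bo c (eta c L) = exp L` near `L`
      have hopen : ∀ᶠ x in 𝓝 L, Near c (Complex.exp x)⁻¹ := by
        have h1 : Continuous fun x : ℂ => (c, (Complex.exp x)⁻¹) := by
          refine continuous_const.prodMk (Complex.continuous_exp.inv₀ Complex.exp_ne_zero)
        exact h1.continuousAt.eventually (isOpen_Near.mem_nhds hN)
      have h2 : (fun x => bo c (eta c x)) =ᶠ[𝓝 L] Complex.exp := by
        filter_upwards [hopen] with x hx
        unfold eta
        rw [psi_near hx, bo_psib hx (Complex.exp_ne_zero _)]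
      have hF : Far c (eta c L) := by
        unfold eta
        rw [psi_near hN]
        exact Far_psib hN (Complex.exp_ne_zero _)
      have hFo : IsOpen {z | Far c z} := by
        unfold Far; exact isOpen_lt continuous_const continuous_norm
      have h3 : DifferentiableAt ℂ (bo c) (eta c L) :=
        (differentiableOn_bo (γ := fun _ => c) (δ := fun z => z) hFo (differentiableOn_const c)
          differentiableOn_id fun _ h => h).differentiableAt (hFo.mem_nhds hF)
      have h4 : HasDerivAt (fun x => bo c (eta c x)) (deriv (bo c) (eta c L) * deriv (eta c) L) L :=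
        h3.hasDerivAt.comp L (differentiableAt_eta hL).hasDerivAt
      have h5 := h4.unique ((Complex.hasDerivAt_exp L).congr_of_eventuallyEq h2)
      rw [h0, mul_zero] at h5
      exact Complex.exp_ne_zero L h5.symm
    | succ n ih =>
      intro L hL hN h0
      have hL2 : G c 0 < (2 * L).re := by
        have : (2 * L).re = 2 * L.re := by simp
        rw [this]; linarith [G_nonneg c 0]
      have e : (2 : ℂ) ^ n * (2 * L) = 2 ^ (n + 1) * L := by rw [pow_succ]; ring
      have h1 := ih (2 * L) hL2 (by rw [e]; exact hN)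
      have hev : (fun x => eta c (2 * x)) =ᶠ[𝓝 L] fun x => f c (eta c x) := by
        have : ∀ᶠ x : ℂ in 𝓝 L, G c 0 < x.re :=
          (isOpen_lt continuous_const Complex.continuous_re).mem_nhds hL
        filter_upwards [this] with x hx
        exact (f_eta hx).symm
      have h2 : HasDerivAt (fun x => eta c (2 * x)) (deriv (eta c) (2 * L) * (2 * 1)) L :=
        (differentiableAt_eta hL2).hasDerivAt.comp L ((hasDerivAt_id L).const_mul 2)
      have h3 : HasDerivAt (fun x => f c (eta c x))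
          (((2 : ℕ) : ℂ) * eta c L ^ (2 - 1) * deriv (eta c) L) L := by
        unfold f
        exact ((differentiableAt_eta hL).hasDerivAt.pow 2).add_const c
      have h4 := h2.unique (h3.congr_of_eventuallyEq hev)
      rw [h0, mul_zero] at h4
      apply h1
      have h5 : deriv (eta c) (2 * L) * 2 = 0 := by rw [← h4]; ring
      simpa using h5
  obtain ⟨n, hn⟩ := (eventually_near_pow (dom_exp h)).exists
  refine key n L h ?_
  rw [← Complex.exp_nat_mul] at hn
  push_cast at hn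
  exact hn

lemma near_of_re {c L : ℂ} (h : Real.log (4 * (‖c‖ + 2)) < L.re) : Near c (Complex.exp L)⁻¹ := by
  unfold Near
  have h0 : 0 < 4 * (‖c‖ + 2) := by positivity
  rw [norm_inv, inv_mul_lt_iff₀ (norm_pos_iff.2 (Complex.exp_ne_zero L)), mul_one,
    Complex.norm_exp, ← Real.log_lt_iff_lt_exp h0]
  exact h

lemma eta_div_exp (c L : ℂ) : eta c L / Complex.exp L = Ef (c, Complex.exp (-L)) := by
  unfold eta psi
  rw [Complex.exp_neg]
  field_simp [Complex.exp_ne_zero L]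

/-- `eta c L / exp L → 1` as `re L → ∞`, with an explicit rate -/
theorem norm_eta_div_exp_sub_one {c L : ℂ} (h : Real.log (4 * (‖c‖ + 2)) < L.re) :
    ‖eta c L / Complex.exp L - 1‖ ≤ 1 / 16 := by
  rw [eta_div_exp, Complex.exp_neg, Ef_near (near_of_re h)]
  exact Eb_bound (near_of_re h)

theorem tendsto_eta_div_exp (c : ℂ) (ε : ℝ) (hε : 0 < ε) :
    ∃ R : ℝ, ∀ L : ℂ, R < L.re → ‖eta c L / Complex.exp L - 1‖ < ε := by
  have h0 : (c, (0 : ℂ)) ∈ Om := by show ‖(0 : ℂ)‖ * _ < 1; simp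
  have h1 : ContinuousAt (fun u : ℂ => Ef (c, u)) 0 := by
    have h2 : ContinuousAt Ef ((fun u : ℂ => ((c, u) : ℂ × ℂ)) 0) :=
      continuousOn_Ef.continuousAt (isOpen_Om.mem_nhds h0)
    have h3 : Continuous (fun u : ℂ => ((c, u) : ℂ × ℂ)) := by fun_prop
    exact ContinuousAt.comp h2 h3.continuousAt
  rw [Metric.continuousAt_iff] at h1
  obtain ⟨δ, hδ, h2⟩ := h1 ε hε
  refine ⟨- Real.log δ, fun L hL => ?_⟩
  rw [eta_div_exp]
  have h3 := h2 (x := Complex.exp (-L)) (by
    rw [dist_zero_right, Complex.norm_exp, ← Real.lt_log_iff_exp_lt hδ, Complex.neg_re]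
    linarith)
  rwa [Ef_at_zero, dist_eq_norm] at h3

/-! ### the inverse function -/

open Classical in
/-- the Boettcher coordinate on `{G c 0 < G c z}` -/
noncomputable def phi (c z : ℂ) : ℂ := if h : G c 0 < G c z then (psi_surj h).choose else 0

lemma norm_phi {c z : ℂ} (h : G c 0 < G c z) : ‖phi c z‖ = Real.exp (G c z) := by
  unfold phi; rw [dif_pos h]; exact (psi_surj h).choose_spec.1

theorem psi_phi {c z : ℂ} (h : G c 0 < G c z) : psi c (phi c z) = z := by
  unfold phi; rw [dif_pos h]; exact (psi_surj h).choose_spec.2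

lemma dom_phi {c z : ℂ} (h : G c 0 < G c z) : Real.exp (G c 0) < ‖phi c z‖ := by
  rw [norm_phi h]; exact Real.exp_lt_exp.2 h

theorem phi_psi {c w : ℂ} (h : Real.exp (G c 0) < ‖w‖) : phi c (psi c w) = w := by
  have h1 : G c 0 < G c (psi c w) := by
    rw [G_psi h, ← Real.exp_lt_exp, Real.exp_log (norm_pos_iff.2 (ne_zero_of_dom h))]
    exact h
  exact psi_inj (dom_phi h1) h (psi_phi h1)

theorem phi_eta {c L : ℂ} (h : G c 0 < L.re) : phi c (eta c L) = Complex.exp L :=
  phi_psi (dom_exp h)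

theorem phi_f {c z : ℂ} (h : G c 0 < G c z) : phi c (f c z) = phi c z ^ 2 := by
  have h1 := f_psi (dom_phi h)
  rw [psi_phi h] at h1
  rw [h1, phi_psi (dom_sq (dom_phi h))]

theorem phi_it {c z : ℂ} (h : G c 0 < G c z) (n : ℕ) : phi c (it c n z) = phi c z ^ 2 ^ n := by
  have h1 := it_psi (dom_phi h) n
  rw [psi_phi h] at h1
  rw [h1, phi_psi (dom_pow (dom_phi h) n)]

theorem phi_neg {c z : ℂ} (h : G c 0 < G c z) : phi c (-z) = - phi c z := by
  have h1 := psi_neg (dom_phi h)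
  rw [psi_phi h] at h1
  rw [← h1, phi_psi (by rw [norm_neg]; exact dom_phi h)]

lemma phi_ne_zero {c z : ℂ} (h : G c 0 < G c z) : phi c z ≠ 0 := ne_zero_of_dom (dom_phi h)

lemma isOpen_dom_phi : IsOpen {p : ℂ × ℂ | G p.1 0 < G p.1 p.2} := by
  have h1 : Continuous fun p : ℂ × ℂ => G p.1 0 := continuous_G_zero.comp continuous_fst
  exact isOpen_lt h1 continuous_G

theorem continuousOn_phi :
    ContinuousOn (fun p : ℂ × ℂ => phi p.1 p.2) {p | G p.1 0 < G p.1 p.2} := by
  intro p₀ hp₀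
  have hp₀' : G p₀.1 0 < G p₀.1 p₀.2 := hp₀
  set D : Set (ℂ × ℂ) := {p | G p.1 0 < G p.1 p.2} with hD
  have hnorm : Tendsto (fun p : ℂ × ℂ => ‖phi p.1 p.2‖) (𝓝[D] p₀)
      (𝓝 (Real.exp (G p₀.1 p₀.2))) := by
    have h1 : Tendsto (fun p : ℂ × ℂ => Real.exp (G p.1 p.2)) (𝓝[D] p₀)
        (𝓝 (Real.exp (G p₀.1 p₀.2))) :=
      ((Real.continuous_exp.comp continuous_G).tendsto p₀).mono_left nhdsWithin_le_nhds
    refine h1.congr' ?_
    filter_upwards [self_mem_nhdsWithin] with p hp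
    exact (norm_phi hp).symm
  have hcpt : IsCompact (closedBall (0 : ℂ) (Real.exp (G p₀.1 p₀.2) + 1)) :=
    isCompact_closedBall _ _
  refine hcpt.tendsto_nhds_of_unique_mapClusterPt ?_ ?_
  · filter_upwards [hnorm.eventually (gt_mem_nhds (lt_add_one _))] with p hp
    rw [mem_closedBall_zero_iff]; exact hp.le
  · intro y _ hy
    rw [mapClusterPt_iff_ultrafilter] at hy
    obtain ⟨F, hF, hFy⟩ := hy
    have h1 : ‖y‖ = Real.exp (G p₀.1 p₀.2) :=
      tendsto_nhds_unique hFy.norm (hnorm.mono_left hF)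
    have hyd : Real.exp (G p₀.1 0) < ‖y‖ := by rw [h1]; exact Real.exp_lt_exp.2 hp₀'
    have h2 : ContinuousAt (fun p : ℂ × ℂ => psi p.1 p.2) (p₀.1, y) :=
      continuousOn_psi.continuousAt (isOpen_dom.mem_nhds hyd)
    have hF1 : Tendsto (fun p : ℂ × ℂ => p.1) F (𝓝 p₀.1) :=
      (continuous_fst.tendsto p₀).mono_left (hF.trans nhdsWithin_le_nhds)
    have hF2 : Tendsto (fun p : ℂ × ℂ => p.2) F (𝓝 p₀.2) :=
      (continuous_snd.tendsto p₀).mono_left (hF.trans nhdsWithin_le_nhds)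
    have h3 : Tendsto (fun p : ℂ × ℂ => (p.1, phi p.1 p.2)) F (𝓝 (p₀.1, y)) :=
      hF1.prodMk_nhds hFy
    have h4 : Tendsto (fun p : ℂ × ℂ => psi p.1 (phi p.1 p.2)) F (𝓝 (psi p₀.1 y)) :=
      h2.tendsto.comp h3
    have h5 : Tendsto (fun p : ℂ × ℂ => psi p.1 (phi p.1 p.2)) F (𝓝 p₀.2) := by
      refine hF2.congr' ?_
      have : D ∈ (F : Filter (ℂ × ℂ)) := hF self_mem_nhdsWithin
      filter_upwards [this] with p hp
      exact (psi_phi hp).symm
    have h6 := tendsto_nhds_unique h4 h5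
    apply psi_inj hyd (dom_phi hp₀')
    rw [h6, psi_phi hp₀']

theorem differentiableOn_phi {U : Set ℂ} (hU : IsOpen U) {γ δ : ℂ → ℂ}
    (hγ : DifferentiableOn ℂ γ U) (hδ : DifferentiableOn ℂ δ U)
    (h : ∀ t ∈ U, G (γ t) 0 < G (γ t) (δ t)) :
    DifferentiableOn ℂ (fun t => phi (γ t) (δ t)) U := by
  have h1 : ContinuousOn (fun t => ((γ t, δ t) : ℂ × ℂ)) U :=
    hγ.continuousOn.prodMk hδ.continuousOn
  have h2' : ContinuousOn ((fun p : ℂ × ℂ => phi p.1 p.2) ∘ fun t => ((γ t, δ t) : ℂ × ℂ)) U :=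
    ContinuousOn.comp continuousOn_phi h1 fun t ht => h t ht
  have h2 : ContinuousOn (fun t => phi (γ t) (δ t)) U := h2'
  clear h2'
  intro t₀ ht₀
  obtain ⟨n, hn⟩ := (eventually_near_pow (dom_phi (h t₀ ht₀))).exists
  -- the same on a neighbourhood
  have h3 : ContinuousOn (fun t => ((γ t, ((phi (γ t) (δ t)) ^ 2 ^ n)⁻¹) : ℂ × ℂ)) U :=
    hγ.continuousOn.prodMk ((h2.pow _).inv₀ fun t ht => pow_ne_zero _ (phi_ne_zero (h t ht)))
  have hV := h3.isOpen_inter_preimage hU isOpen_Near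
  set V := U ∩ (fun t => ((γ t, ((phi (γ t) (δ t)) ^ 2 ^ n)⁻¹) : ℂ × ℂ)) ⁻¹'
    {p : ℂ × ℂ | Near p.1 p.2} with hVdef
  have hVU : V ⊆ U := inter_subset_left
  have hb : ∀ t ∈ V, bo (γ t) (it (γ t) n (δ t)) = phi (γ t) (δ t) ^ 2 ^ n := by
    intro t ht
    have := bo_it_psi (dom_phi (h t ht.1)) ht.2
    rwa [psi_phi (h t ht.1)] at this
  have hfar : ∀ t ∈ V, Far (γ t) (it (γ t) n (δ t)) := by
    intro t ht
    have h4 := it_psi (dom_phi (h t ht.1)) n
    rw [psi_phi (h t ht.1), psi_near ht.2] at h4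
    rw [h4]
    exact Far_psib ht.2 (pow_ne_zero _ (phi_ne_zero (h t ht.1)))
  have hit : DifferentiableOn ℂ (fun t => it (γ t) n (δ t)) V :=
    (differentiable_it n).comp_differentiableOn ((hγ.mono hVU).prodMk (hδ.mono hVU))
  have h5 : DifferentiableOn ℂ (fun t => phi (γ t) (δ t)) V := by
    refine differentiableOn_of_pow hV (h2.mono hVU)
      (fun t ht => phi_ne_zero (h t (hVU ht))) n ?_
    exact (differentiableOn_bo hV (hγ.mono hVU) hit hfar).congr fun t ht => (hb t ht).symm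
  exact (h5.differentiableAt (hV.mem_nhds ⟨ht₀, hn⟩)).differentiableWithinAt

/-- the coordinate of a point: continuity of the inverse (in exponential form) -/
theorem exists_phi : ∃ phi : ℂ → ℂ → ℂ,
    (∀ c z, G c 0 < G c z → ‖phi c z‖ = Real.exp (G c z) ∧ psi c (phi c z) = z) ∧
    (∀ c L, G c 0 < L.re → phi c (eta c L) = Complex.exp L) ∧
    ContinuousOn (fun p : ℂ × ℂ => phi p.1 p.2) {p | G p.1 0 < G p.1 p.2} ∧
    (∀ (U : Set ℂ) (γ δ : ℂ → ℂ), IsOpen U → DifferentiableOn ℂ γ U → DifferentiableOn ℂ δ U →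
      (∀ t ∈ U, G (γ t) 0 < G (γ t) (δ t)) →
      DifferentiableOn ℂ (fun t => phi (γ t) (δ t)) U) :=
  ⟨phi, fun _ _ h => ⟨norm_phi h, psi_phi h⟩, fun _ _ h => phi_eta h, continuousOn_phi,
    fun _ _ _ hU hγ hδ h => differentiableOn_phi hU hγ hδ h⟩

end Pool.Agent.Work.MLC
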