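import Pool.Agent.Work.MLC.PsiA

set_option autoImplicit false

/-! # Extension of the inverse Boettcher function to `{‖u‖ * exp (G c 0) < 1}`  (helper56) -/

namespace Pool.Agent.Work.MLC

open Filter Topology Metric Set unitInterval

/-- the region of definition in the coordinate `u = 1 / w` -/
def Om : Set (ℂ × ℂ) := {p | ‖p.2‖ * Real.exp (G p.1 0) < 1}

lemma isOpen_Om : IsOpen Om := by
  have h1 : Continuous fun p : ℂ × ℂ => G p.1 0 := by
    have h2 : Continuous fun p : ℂ × ℂ => ((p.1, 0) : ℂ × ℂ) := by fun_prop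
    have h3 : Continuous ((fun p : ℂ × ℂ => G p.1 p.2) ∘ fun p : ℂ × ℂ => ((p.1, 0) : ℂ × ℂ)) :=
      Continuous.comp continuous_G h2
    exact h3
  exact isOpen_lt (by fun_prop) continuous_const

lemma Om_smaller {c u v : ℂ} (h : (c, u) ∈ Om) (hv : ‖v‖ ≤ ‖u‖) : (c, v) ∈ Om := by
  have h' : ‖u‖ * Real.exp (G c 0) < 1 := h
  show ‖v‖ * Real.exp (G c 0) < 1
  have := Real.exp_pos (G c 0)
  nlinarith

lemma norm_lt_one_of_Om {c u : ℂ} (h : (c, u) ∈ Om) : ‖u‖ < 1 := by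
  have h' : ‖u‖ * Real.exp (G c 0) < 1 := h
  have h1 : (1 : ℝ) ≤ Real.exp (G c 0) := Real.one_le_exp (G_nonneg c 0)
  nlinarith [norm_nonneg u]

lemma Om_sq {c u : ℂ} (h : (c, u) ∈ Om) : (c, u ^ 2) ∈ Om := by
  apply Om_smaller h
  rw [norm_pow]
  nlinarith [norm_nonneg u, norm_lt_one_of_Om h]

lemma G_zero_le (c : ℂ) : G c 0 ≤ Real.log (1 + ‖c‖) := by
  have := (abs_le.1 (abs_G_sub_posLog c 0)).2
  simpa using this

lemma Near.mem_Om {c u : ℂ} (h : Near c u) : (c, u) ∈ Om := by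
  show ‖u‖ * Real.exp (G c 0) < 1
  have h1 : Real.exp (G c 0) ≤ 1 + ‖c‖ := by
    have := Real.exp_le_exp.2 (G_zero_le c)
    rwa [Real.exp_log (by linarith [norm_nonneg c])] at this
  unfold Near at h
  nlinarith [norm_nonneg c, norm_nonneg u]

/-- the regions exhausting `Om` -/
def An (n : ℕ) : Set (ℂ × ℂ) := {p | p ∈ Om ∧ Near p.1 (p.2 ^ 2 ^ n)}

lemma isOpen_An (n : ℕ) : IsOpen (An n) := by
  have h1 : Continuous fun p : ℂ × ℂ => ((p.1, p.2 ^ 2 ^ n) : ℂ × ℂ) := by fun_prop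
  exact isOpen_Om.inter (isOpen_Near.preimage h1)

lemma mem_An_zero {c u : ℂ} : (c, u) ∈ An 0 ↔ Near c u := by
  constructor
  · intro h; have := h.2; simpa using this
  · intro h; exact ⟨h.mem_Om, by simpa using h⟩

lemma An_smaller {n : ℕ} {c u v : ℂ} (h : (c, u) ∈ An n) (hv : ‖v‖ ≤ ‖u‖) : (c, v) ∈ An n := by
  refine ⟨Om_smaller h.1 hv, Near.mono h.2 ?_⟩
  simp only [norm_pow]
  gcongr

lemma An_sq {n : ℕ} {c u : ℂ} (h : (c, u) ∈ An (n + 1)) : (c, u ^ 2) ∈ An n := by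
  refine ⟨Om_sq h.1, ?_⟩
  have h2 : Near c (u ^ 2 ^ (n + 1)) := h.2
  have e : (u ^ 2) ^ 2 ^ n = u ^ 2 ^ (n + 1) := by rw [← pow_mul, pow_succ]; ring_nf
  show Near c ((u ^ 2) ^ 2 ^ n)
  rwa [e]

lemma An_sq' {n : ℕ} {c u : ℂ} (h : (c, u) ∈ An n) : (c, u ^ 2) ∈ An n := by
  apply An_smaller h
  rw [norm_pow]
  nlinarith [norm_nonneg u, norm_lt_one_of_Om h.1]

lemma An_succ {n : ℕ} {p : ℂ × ℂ} (h : p ∈ An n) : p ∈ An (n + 1) := by
  refine ⟨h.1, ?_⟩
  have h2 := Near.sq h.2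
  rwa [← pow_mul, ← pow_succ] at h2

lemma An_mono {n m : ℕ} (hnm : n ≤ m) {p : ℂ × ℂ} (h : p ∈ An n) : p ∈ An m := by
  induction m, hnm using Nat.le_induction with
  | base => exact h
  | succ m _ ih => exact An_succ ih

lemma exists_mem_An {p : ℂ × ℂ} (h : p ∈ Om) : ∃ n, p ∈ An n := by
  have h1 : ‖p.2‖ < 1 := norm_lt_one_of_Om (c := p.1) (u := p.2) h
  have h2 : Tendsto (fun n : ℕ => ‖p.2‖ ^ 2 ^ n * (4 * (‖p.1‖ + 2))) atTop (𝓝 0) := by
    have h3 : Tendsto (fun n : ℕ => ‖p.2‖ ^ 2 ^ n) atTop (𝓝 0) :=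
      (tendsto_pow_atTop_nhds_zero_of_lt_one (norm_nonneg _) h1).comp
        (tendsto_pow_atTop_atTop_of_one_lt (by norm_num : (1 : ℕ) < 2))
    simpa using h3.mul_const (4 * (‖p.1‖ + 2))
  obtain ⟨n, hn⟩ := (h2.eventually (gt_mem_nhds one_pos)).exists
  refine ⟨n, h, ?_⟩
  unfold Near
  rwa [norm_pow]

/-- a solution of the functional equation on `An n` -/
structure Good (n : ℕ) (E : ℂ × ℂ → ℂ) : Prop where
  cont : ContinuousOn E (An n)
  eqn : ∀ c u : ℂ, (c, u) ∈ An n → E (c, u) ^ 2 = E (c, u ^ 2) - c * u ^ 2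
  base : ∀ c u : ℂ, Near c u → E (c, u) = Eb c u

namespace Good

variable {n : ℕ} {E : ℂ × ℂ → ℂ}

lemma mono {m : ℕ} (h : Good n E) (hm : m ≤ n) : Good m E :=
  ⟨h.cont.mono fun _ hp => An_mono hm hp, fun c u hu => h.eqn c u (An_mono hm hu), h.base⟩

lemma at_zero (h : Good n E) (c : ℂ) : E (c, 0) = 1 := by
  rw [h.base c 0 (by unfold Near; simp), Eb_at_zero]

lemma G_eq (h : Good n E) : ∀ m ≤ n, ∀ c u : ℂ, (c, u) ∈ An m → u ≠ 0 →
    G c (E (c, u) / u) = - Real.log ‖u‖ := by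
  intro m
  induction m with
  | zero =>
    intro _ c u hu h0
    rw [mem_An_zero] at hu
    have h1 := G_psib (c := c) (w := u⁻¹) (by rwa [inv_inv]) (inv_ne_zero h0)
    rw [inv_inv, norm_inv, Real.log_inv] at h1
    rw [h.base c u hu, div_eq_inv_mul, h1]
  | succ m ih =>
    intro hm c u hu h0
    have h1 := ih (by omega) c (u ^ 2) (An_sq hu) (pow_ne_zero 2 h0)
    have h2 := h.eqn c u (An_mono hm hu)
    have h3 : f c (E (c, u) / u) = E (c, u ^ 2) / u ^ 2 := by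
      unfold f; rw [div_pow, h2]; field_simp; ring
    have h4 := G_f c (E (c, u) / u)
    rw [h3, h1, norm_pow, Real.log_pow] at h4
    push_cast at h4
    linarith

lemma G_eq' (h : Good n E) {c u : ℂ} (hu : (c, u) ∈ An n) (h0 : u ≠ 0) :
    G c (E (c, u) / u) = - Real.log ‖u‖ := h.G_eq n le_rfl c u hu h0

/-- the right side of the functional equation does not vanish -/
lemma rhs_ne (h : Good n E) {c v : ℂ} (hv : (c, v) ∈ Om) (hv2 : (c, v ^ 2) ∈ An n) :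
    E (c, v ^ 2) - c * v ^ 2 ≠ 0 := by
  intro h0
  by_cases hv0 : v = 0
  · rw [hv0] at h0
    norm_num [h.at_zero] at h0
  · have h1 := h.G_eq' hv2 (pow_ne_zero 2 hv0)
    have h2 : E (c, v ^ 2) / v ^ 2 = c := by
      rw [sub_eq_zero.1 h0]; field_simp
    have h3 := G_f c 0
    have h4 : f c 0 = c := by simp [f]
    rw [h4] at h3
    rw [h2, h3, norm_pow, Real.log_pow] at h1
    push_cast at h1
    have h5 : ‖v‖ * Real.exp (G c 0) < 1 := hv
    have h6 : G c 0 = - Real.log ‖v‖ := by linarith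
    rw [h6, Real.exp_neg, Real.exp_log (norm_pos_iff.2 hv0),
      mul_inv_cancel₀ (norm_ne_zero_iff.2 hv0)] at h5
    exact lt_irrefl _ h5

lemma ne_zero (h : Good n E) {c u : ℂ} (hu : (c, u) ∈ An n) : E (c, u) ≠ 0 := by
  intro h0
  have h1 := h.eqn c u hu
  rw [h0] at h1
  exact h.rhs_ne hu.1 (An_sq' hu) (by rw [← h1]; norm_num)

end Good

/-- lifting a homotopy through the squaring map -/
lemma sqrt_lift {A : Type*} [TopologicalSpace A] (q : C(I × A, {z : ℂ // z ≠ 0}))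
    (r : C(A, {z : ℂ // z ≠ 0})) (h0 : ∀ a, (q (0, a) : ℂ) = (r a : ℂ) ^ 2) :
    ∃ x : C(I × A, {z : ℂ // z ≠ 0}), (∀ p, (x p : ℂ) ^ 2 = q p) ∧ ∀ a, x (0, a) = r a := by
  have cov := isCoveringMap_npow (𝕜 := ℂ) 2 (by norm_num)
  have H0 : ∀ a, q (0, a) = (fun x : {x : ℂ // x ≠ 0} ↦
      (⟨x ^ 2, pow_ne_zero 2 x.2⟩ : {x : ℂ // x ≠ 0})) (r a) := by
    intro a
    apply Subtype.ext
    exact h0 a
  refine ⟨cov.liftHomotopy q r H0, fun p => ?_, fun a => cov.liftHomotopy_zero q r H0 a⟩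
  have := congr_fun (cov.liftHomotopy_lifts q r H0) p
  exact congr_arg Subtype.val this

lemma norm_ofReal_mul_le {s : ℝ} (hs : s ∈ I) (u : ℂ) : ‖(s : ℂ) * u‖ ≤ ‖u‖ := by
  rw [norm_mul, Complex.norm_real, Real.norm_of_nonneg hs.1]
  nlinarith [norm_nonneg u, hs.2]

/-- comparison of two continuous square roots along rays -/
lemma eq_of_ray {g₁ g₂ : ℝ → ℂ} (h1 : ContinuousOn g₁ (Icc 0 1)) (h2 : ContinuousOn g₂ (Icc 0 1))
    (hsq : ∀ s ∈ Icc (0 : ℝ) 1, g₁ s ^ 2 = g₂ s ^ 2) (hne : ∀ s ∈ Icc (0 : ℝ) 1, g₂ s ≠ 0)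
    (h0 : g₁ 0 = g₂ 0) : g₁ 1 = g₂ 1 := by
  have h3 : IsPreconnected (Icc (0 : ℝ) 1) := isPreconnected_Icc
  exact h3.eq_of_sq_eq h1 h2 (fun s hs => hsq s hs) (fun {s} hs => hne s hs)
    (y := 0) (by simp) h0 (by simp)

lemma continuousOn_ray {E : ℂ × ℂ → ℂ} {n : ℕ} (hE : ContinuousOn E (An n)) {c u : ℂ}
    (hu : (c, u) ∈ An n) : ContinuousOn (fun s : ℝ => E (c, (s : ℂ) * u)) (Icc 0 1) := by
  have h1 : ContinuousOn (fun s : ℝ => ((c, (s : ℂ) * u) : ℂ × ℂ)) (Icc 0 1) := by fun_prop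
  exact hE.comp h1 fun s hs => An_smaller hu (norm_ofReal_mul_le hs u)

theorem Good.step {n : ℕ} {E : ℂ × ℂ → ℂ} (h : Good n E) : ∃ E', Good (n + 1) E' := by
  classical
  have hmem : ∀ (s : I) (p : An (n + 1)), (p.1.1, ((s : ℝ) : ℂ) * p.1.2) ∈ An (n + 1) :=
    fun s p => An_smaller (u := p.1.2) p.2 (norm_ofReal_mul_le s.2 _)
  have hmem2 : ∀ (s : I) (p : An (n + 1)), (p.1.1, (((s : ℝ) : ℂ) * p.1.2) ^ 2) ∈ An n :=
    fun s p => An_sq (hmem s p)
  have hne : ∀ q : I × An (n + 1), E (q.2.1.1, (((q.1 : ℝ) : ℂ) * q.2.1.2) ^ 2) -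
      q.2.1.1 * (((q.1 : ℝ) : ℂ) * q.2.1.2) ^ 2 ≠ 0 := fun q =>
    h.rhs_ne (hmem q.1 q.2).1 (hmem2 q.1 q.2)
  have hcont : Continuous fun q : I × An (n + 1) =>
      E (q.2.1.1, (((q.1 : ℝ) : ℂ) * q.2.1.2) ^ 2) := by
    have h1 : Continuous fun q : I × An (n + 1) =>
      ((q.2.1.1, (((q.1 : ℝ) : ℂ) * q.2.1.2) ^ 2) : ℂ × ℂ) := by fun_prop
    exact h.cont.comp_continuous h1 fun q => hmem2 q.1 q.2
  obtain ⟨x, hx, hx0⟩ := sqrt_lift (A := An (n + 1))
    (⟨fun q => ⟨_, hne q⟩, by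
      apply Continuous.subtype_mk
      exact hcont.sub (by fun_prop)⟩ : C(I × (An (n + 1)), {z : ℂ // z ≠ 0}))
    (⟨fun _ => ⟨1, one_ne_zero⟩, continuous_const⟩ : C(An (n + 1), {z : ℂ // z ≠ 0}))
    (by
      intro a
      simp only [ContinuousMap.coe_mk, Icc.coe_zero, Complex.ofReal_zero, zero_mul]
      norm_num [h.at_zero])
  set E' : ℂ × ℂ → ℂ := fun p => if hp : p ∈ An (n + 1) then (x (1, ⟨p, hp⟩) : ℂ) else 0 with hE'
  have hE'1 : ∀ p (hp : p ∈ An (n + 1)), E' p = x (1, ⟨p, hp⟩) := by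
    intro p hp; simp only [hE', hp, dif_pos]
  -- agreement with `E` on `An n`
  have hag : ∀ c u : ℂ, (c, u) ∈ An n → E' (c, u) = E (c, u) := by
    intro c u hu
    have hu' := An_succ hu
    rw [hE'1 _ hu']
    have hg1 : ContinuousOn (fun s : ℝ => (x (projIcc 0 1 zero_le_one s, ⟨(c, u), hu'⟩) : ℂ))
        (Icc 0 1) := by
      apply Continuous.continuousOn
      fun_prop
    have hg2 := continuousOn_ray h.cont hu
    have key := eq_of_ray hg1 hg2 ?_ ?_ ?_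
    · simpa using key
    · intro s hs
      have e1 : (projIcc (0 : ℝ) 1 zero_le_one s : ℝ) = s := by
        rw [projIcc_of_mem zero_le_one hs]
      have e2 := hx (projIcc 0 1 zero_le_one s, ⟨(c, u), hu'⟩)
      simp only [ContinuousMap.coe_mk, e1] at e2
      rw [e2, h.eqn c _ (An_smaller hu (norm_ofReal_mul_le hs u))]
    · intro s hs
      exact h.ne_zero (An_smaller hu (norm_ofReal_mul_le hs u))
    · have e3 : projIcc (0 : ℝ) 1 zero_le_one 0 = 0 := by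
        rw [projIcc_of_mem zero_le_one (by simp)]; rfl
      simp only [e3]
      rw [hx0]
      simp [h.at_zero]
  refine ⟨E', ⟨?_, ?_, ?_⟩⟩
  · rw [continuousOn_iff_continuous_domRestrict]
    have : (An (n + 1)).domRestrict E' = fun p : An (n + 1) => (x (1, p) : ℂ) := by
      funext p
      rw [Set.domRestrict_apply, hE'1 _ p.2]
    rw [this]
    fun_prop
  · intro c u hu
    rw [hE'1 _ hu, hag c (u ^ 2) (An_sq hu)]
    have e2 := hx (1, ⟨(c, u), hu⟩)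
    simp only [ContinuousMap.coe_mk, Icc.coe_one, Complex.ofReal_one, one_mul] at e2
    exact e2
  · intro c u hu
    have hu0 : (c, u) ∈ An n := An_mono (Nat.zero_le n) (mem_An_zero.2 hu)
    rw [hag c u hu0, h.base c u hu]

lemma good_zero : Good 0 (fun p => Eb p.1 p.2) := by
  refine ⟨?_, ?_, fun c u _ => rfl⟩
  · exact continuousOn_Eb.mono fun p hp => mem_An_zero.1 hp
  · intro c u hu
    exact Eb_sq (mem_An_zero.1 hu)

lemma exists_good (n : ℕ) : ∃ E, Good n E := by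
  induction n with
  | zero => exact ⟨_, good_zero⟩
  | succ n ih => obtain ⟨E, hE⟩ := ih; exact hE.step

lemma Good.unique {n : ℕ} {E E' : ℂ × ℂ → ℂ} (h : Good n E) (h' : Good n E') :
    ∀ m ≤ n, ∀ c u : ℂ, (c, u) ∈ An m → E (c, u) = E' (c, u) := by
  intro m
  induction m with
  | zero =>
    intro _ c u hu
    rw [mem_An_zero] at hu
    rw [h.base c u hu, h'.base c u hu]
  | succ m ih =>
    intro hm c u hu
    have hu' := An_mono hm hu
    have key := eq_of_ray (continuousOn_ray h.cont hu') (continuousOn_ray h'.cont hu') ?_ ?_ ?_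
    · simpa using key
    · intro s hs
      have h1 := An_smaller hu (norm_ofReal_mul_le hs u)
      rw [h.eqn _ _ (An_mono hm h1), h'.eqn _ _ (An_mono hm h1), ih (by omega) c _ (An_sq h1)]
    · intro s hs
      exact h'.ne_zero (An_smaller hu' (norm_ofReal_mul_le hs u))
    · simp [h.at_zero, h'.at_zero]

/-- existence of the continuous function `E` on `Om` with `psi c w = w * E (c, 1 / w)` -/
theorem exists_E : ∃ E : ℂ × ℂ → ℂ, ∀ n, Good n E := by
  classical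
  choose Es hEs using exists_good
  set E : ℂ × ℂ → ℂ := fun p => if hp : p ∈ Om then Es (Nat.find (exists_mem_An hp)) p else 0
    with hE
  have hEn : ∀ n p, p ∈ An n → E p = Es n p := by
    intro n p hp
    have hOm : p ∈ Om := hp.1
    have h1 : E p = Es (Nat.find (exists_mem_An hOm)) p := by simp only [hE, hOm, dif_pos]
    rw [h1]
    have h2 := Nat.find_spec (exists_mem_An hOm)
    have h3 : Nat.find (exists_mem_An hOm) ≤ n := Nat.find_min' _ hp
    exact (hEs _).unique ((hEs n).mono h3) _ le_rfl p.1 p.2 h2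
  refine ⟨E, fun n => ⟨?_, ?_, ?_⟩⟩
  · exact (hEs n).cont.congr fun p hp => hEn n p hp
  · intro c u hu
    rw [hEn n _ hu, hEn n _ (An_sq' hu)]
    exact (hEs n).eqn c u hu
  · intro c u hu
    rw [hEn 0 _ (mem_An_zero.2 hu)]
    exact (hEs 0).base c u hu

/-- the function `E` -/
noncomputable def Ef : ℂ × ℂ → ℂ := exists_E.choose

lemma good_Ef (n : ℕ) : Good n Ef := exists_E.choose_spec n

lemma continuousOn_Ef : ContinuousOn Ef Om := by
  intro p hp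
  obtain ⟨n, hn⟩ := exists_mem_An hp
  exact ((good_Ef n).cont.continuousAt ((isOpen_An n).mem_nhds hn)).continuousWithinAt

lemma Ef_ne_zero {c u : ℂ} (h : (c, u) ∈ Om) : Ef (c, u) ≠ 0 := by
  obtain ⟨n, hn⟩ := exists_mem_An h
  exact (good_Ef n).ne_zero hn

lemma Ef_sq {c u : ℂ} (h : (c, u) ∈ Om) : Ef (c, u) ^ 2 = Ef (c, u ^ 2) - c * u ^ 2 := by
  obtain ⟨n, hn⟩ := exists_mem_An h
  exact (good_Ef n).eqn c u hn

lemma Ef_near {c u : ℂ} (h : Near c u) : Ef (c, u) = Eb c u := (good_Ef 0).base c u h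

@[simp] lemma Ef_at_zero (c : ℂ) : Ef (c, 0) = 1 := (good_Ef 0).at_zero c

lemma G_Ef {c u : ℂ} (h : (c, u) ∈ Om) (h0 : u ≠ 0) : G c (Ef (c, u) / u) = - Real.log ‖u‖ := by
  obtain ⟨n, hn⟩ := exists_mem_An h
  exact (good_Ef n).G_eq' hn h0

lemma Ef_neg {c u : ℂ} (h : (c, u) ∈ Om) : Ef (c, -u) = Ef (c, u) := by
  obtain ⟨n, hn⟩ := exists_mem_An h
  have hn' : (c, -u) ∈ An n := An_smaller hn (by rw [norm_neg])
  have key := eq_of_ray (continuousOn_ray (good_Ef n).cont hn')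
    (continuousOn_ray (good_Ef n).cont hn) ?_ ?_ ?_
  · simpa using key
  · intro s hs
    rw [(good_Ef n).eqn _ _ (An_smaller hn' (norm_ofReal_mul_le hs _)),
      (good_Ef n).eqn _ _ (An_smaller hn (norm_ofReal_mul_le hs _)), mul_neg, neg_sq]
  · intro s hs
    exact (good_Ef n).ne_zero (An_smaller hn (norm_ofReal_mul_le hs u))
  · simp

end Pool.Agent.Work.MLC
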