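import Pool.Agent.Work.MLC.RotXa13

set_option autoImplicit false

/-! # The rotation number of a repelling point over the Mandelbrot set is given by the rays
(helper13)

`rotX`: if a ray of combinatorial rotation number `x` lands at `b` and the logarithm `L` of the
multiplier is near `2 π i x`, then `RotT n c b L x`. -/

namespace Pool.Agent.Work.MLC

open Filter Topology Metric Set Complex Pool.Agent.Work.MLC.Sat

theorem rotX {n : ℕ} (hn : 0 < n) {x : ℚ} (hx0 : 0 < x) (hx1 : x < 1)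
    (hQ : 2 * (2 * n * Real.log 2 / x.den) < gR n x / 2)
    (hQ2 : 81 * n * (2 * (2 * n * Real.log 2 / x.den)) ≤ 1) {c b L : ℂ} (hper : (c, b) ∈ Per n)
    (hM : c ∈ MM) (hL : L ∈ ball (axisPt x) (gR n x / 2)) (hre : 0 < L.re)
    (hmul : mul n (c, b) = exp L) (hE : Ex n x c b) : Tr.RotT n c b L x := by
  have hn1 : (1 : ℝ) ≤ n := by exact_mod_cast hn
  have hx : 2 ≤ x.den := by
    by_contra hcon
    have h1 : x.den = 1 := by have := x.pos; omega
    have h2 : x = x.num := by rw [Rat.den_eq_one_iff] at h1; exact h1.symm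
    have h3 : (0 : ℚ) < x.num := by rw [← h2]; exact hx0
    have h4 : (x.num : ℚ) < 1 := by rw [← h2]; exact hx1
    have h5 : (0 : ℤ) < x.num := by exact_mod_cast h3
    have h6 : x.num < (1 : ℤ) := by exact_mod_cast h4
    omega
  have hlog0 : 0 < Real.log 2 := Real.log_pos (by norm_num)
  have hR := Tr.rotData hn
  have hx0' : (0 : ℝ) < x := by exact_mod_cast hx0
  have hx1' : (x : ℝ) < 1 := by exact_mod_cast hx1
  have hmin0 : 0 < min (x : ℝ) (1 - x) := lt_min hx0' (by linarith)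
  have hmin1 : min (x : ℝ) (1 - x) ≤ 1 / 2 := by
    rcases le_total (x : ℝ) (1 / 2) with h | h
    · exact (min_le_left _ _).trans h
    · exact (min_le_right _ _).trans (by linarith)
  have hgR0 : 0 < gR n x := by unfold gR; positivity
  have hgR1 : n * gR n x ≤ 1 / 16 := by
    unfold gR
    have : (n : ℝ) * (1 / 4 * min (x : ℝ) (1 - x) ^ 2 / n) = 1 / 4 * min (x : ℝ) (1 - x) ^ 2 := by
      field_simp
    rw [this]
    linarith [(pow_le_pow_left₀ hmin0.le hmin1 2).trans (by norm_num : (1 / 2 : ℝ) ^ 2 ≤ 1 / 4)]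
  have hgR2 : gR n x ≤ 1 / 16 := by linarith [mul_le_mul_of_nonneg_right hn1 hgR0.le]
  set r : ℝ := 2 * n * Real.log 2 / x.den with hr
  have hq0 : (0 : ℝ) < x.den := by exact_mod_cast x.pos
  have hr0 : 0 < r := by rw [hr]; positivity
  -- the good disc and the section
  have hG : GoodDom n (ball (axisPt x) (gR n x)) := goodDom34 hn hx0 hx1
  have hLB : L ∈ ball (axisPt x) (gR n x) := ball_subset_ball (by linarith) hL
  obtain ⟨σ, hσ, hσ', hσ0⟩ := exists_section hG (convex_ball _ _) hper hLB hmul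
  set B := ball (axisPt x) (gR n x) with hB
  have hBo : IsOpen B := isOpen_ball
  have hσc : ∀ z ∈ B, ContinuousAt σ z := fun z hz => hσ.continuousAt (hBo.mem_nhds hz)
  have hlt : ∀ z ∈ B, ‖mul n (σ z)‖ < 23 / 10 := fun z hz => by
    rw [(hσ' z hz).2]; exact hG.lt z hz
  have hρ : ∀ z ∈ B, 0 < z.re → 1 < ‖mult n (σ z).1 (σ z).2‖ := fun z hz h0 => by
    have : mult n (σ z).1 (σ z).2 = mul n (σ z) := rfl
    rw [this, (hσ' z hz).2, norm_exp]; exact Real.one_lt_exp_iff.2 h0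
  -- the rotation number
  obtain ⟨y, hy⟩ := hR.ex c b L hper hmul hre hM
  by_cases hxy : x = y
  · rw [hxy]; exact hy
  exfalso
  set Y : ℂ := axisPt y with hY
  have hYre : Y.re = 0 := axisPt_re13 y
  have ha0 : (axisPt x).re = 0 := axisPt_re13 x
  set V : Set ℂ := {z | z ∈ B ∧ 0 < z.re ∧ (σ z).1 ∈ MM ∧ Tr.RotT n (σ z).1 (σ z).2 z y ∧
    Ex n x (σ z).1 (σ z).2} with hV
  have hLV : L ∈ V := ⟨hLB, hre, by rw [hσ0]; exact hM, by rw [hσ0]; exact hy,
    by rw [hσ0]; exact hE⟩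
  have hVply : ∀ z ∈ V, ‖z - Y‖ ^ 2 ≤ r * z.re := by
    rintro z ⟨h1, h2, h3, h4, h5⟩
    obtain ⟨p, h6, h7⟩ := h5.ply hn hx h3 (hσ' z h1).1 (hσ' z h1).2 h2
    rw [hR.uniq _ _ _ _ _ h6 h4] at h7
    exact h7
  have hclK : ∀ z ∈ closure V, ‖z - Y‖ ^ 2 ≤ r * z.re := by
    intro z hz
    have hcl : IsClosed {z : ℂ | ‖z - Y‖ ^ 2 ≤ r * z.re} :=
      isClosed_le (by fun_prop) (by fun_prop)
    exact closure_minimal (show V ⊆ {z : ℂ | ‖z - Y‖ ^ 2 ≤ r * z.re} from hVply) hcl hz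
  have hK : ∀ z : ℂ, ‖z - Y‖ ^ 2 ≤ r * z.re → ‖z - Y‖ ≤ r := by
    intro z hz
    have h1 : z.re ≤ ‖z - Y‖ := by
      have := Complex.re_le_norm (z - Y)
      rw [Complex.sub_re, hYre] at this
      linarith
    by_contra hcon
    push Not at hcon
    have h2 : r * z.re ≤ r * ‖z - Y‖ := mul_le_mul_of_nonneg_left h1 hr0.le
    have h3 : 0 < ‖z - Y‖ := hr0.trans hcon
    have h4 := mul_lt_mul_of_pos_right hcon h3
    rw [← sq] at h4
    linarith
  have hLY' : ‖L - Y‖ ≤ r := hK L (hVply L hLV)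
  have hKB : ∀ z : ℂ, ‖z - Y‖ ^ 2 ≤ r * z.re → z ∈ B := by
    intro z hz
    have h1 := hK z hz
    have h3 : ‖L - axisPt x‖ < gR n x / 2 := by
      rw [← dist_eq_norm]; exact hL
    have h4 : ‖z - axisPt x‖ ≤ ‖z - Y‖ + ‖L - Y‖ + ‖L - axisPt x‖ := by
      have : z - axisPt x = (z - Y) - (L - Y) + (L - axisPt x) := by ring
      rw [this]
      refine (norm_add_le _ _).trans ?_
      gcongr
      exact norm_sub_le _ _
    rw [hB, mem_ball, dist_eq_norm]
    linarith
  have hKre : ∀ z : ℂ, ‖z - Y‖ ^ 2 ≤ r * z.re → z.re ≤ r := by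
    intro z hz
    have := Complex.re_le_norm (z - Y)
    rw [Complex.sub_re, hYre] at this
    linarith [hK z hz]
  -- the closure of `V`
  have hcl : ∀ z ∈ closure V, z ≠ Y → z ∈ V := by
    intro z hz hzY
    have h1 := hclK z hz
    have hzB := hKB z h1
    have hzre : 0 < z.re := by
      have h2 : 0 < ‖z - Y‖ ^ 2 := pow_pos (norm_pos_iff.2 (sub_ne_zero.2 hzY)) 2
      by_contra hcon
      push Not at hcon
      have : r * z.re ≤ 0 := mul_nonpos_of_nonneg_of_nonpos hr0.le hcon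
      linarith
    have hfreq : ∃ᶠ z' in 𝓝 z, z' ∈ V := mem_closure_iff_frequently.1 hz
    have hzM : (σ z).1 ∈ MM := by
      by_contra hcon
      have h3 : ∀ᶠ z' in 𝓝 z, (σ z').1 ∉ MM :=
        ((hσc z hzB).fst).eventually (isOpen_compl_MM.mem_nhds hcon)
      obtain ⟨z', a1, a2⟩ := (hfreq.and_eventually h3).exists
      exact a2 a1.2.2.1
    obtain ⟨y', hy'⟩ := hR.ex (σ z).1 (σ z).2 z (hσ' z hzB).1 (hσ' z hzB).2 hzre hzM
    have hyy : y' = y := by
      have h1 := hR.opn _ _ _ _ hy'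
      have h2 : Tendsto (fun z' => (((σ z').1, (σ z').2, z') : ℂ × ℂ × ℂ)) (𝓝 z)
          (𝓝 ((σ z).1, (σ z).2, z)) :=
        ((hσc z hzB).fst).prodMk (((hσc z hzB).snd).prodMk continuousAt_id)
      obtain ⟨z', a1, a2⟩ := (hfreq.and_eventually (h2.eventually h1)).exists
      exact hR.uniq _ _ _ _ _ (a2 a1.2.2.1 (hσ' z' a1.1).1 (hσ' z' a1.1).2) a1.2.2.2.1
    rw [hyy] at hy'
    refine ⟨hzB, hzre, hzM, hy', ?_⟩
    refine ex_closed hn hx (mem_M_iff.1 hzM) (hσ' z hzB).1 (hρ z hzB hzre) ?_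
    have h2 : ∃ᶠ z' in 𝓝 z, (σ z') ∈ Per n ∧ G (σ z').1 0 = 0 ∧ Ex n x (σ z').1 (σ z').2 :=
      hfreq.mono fun z' a => ⟨(hσ' z' a.1).1, mem_M_iff.1 a.2.2.1, a.2.2.2.2⟩
    exact (hσc z hzB).tendsto.frequently h2
  -- neighbourhoods of the points of `V`
  have hVn : ∀ z ∈ V, ∀ᶠ z' in 𝓝 z, (z' ∈ B ∧ 0 < z'.re ∧ ((σ z').1 ∈ MM → z' ∈ V) ∧
      ∀ θ w, ExtP n (σ z').1 (σ z').2 θ w → ∃ k : ℤ, Circ.nu w n θ = x + k) := by
    rintro z ⟨h1, h2, h3, h4, h5⟩
    have e1 := (hσc z h1).tendsto.eventually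
      (h5.nhds hn (mem_M_iff.1 h3) (hσ' z h1).1 (hρ z h1 h2))
    have e2 : Tendsto (fun z' => (((σ z').1, (σ z').2, z') : ℂ × ℂ × ℂ)) (𝓝 z)
        (𝓝 ((σ z).1, (σ z).2, z)) :=
      ((hσc z h1).fst).prodMk (((hσc z h1).snd).prodMk continuousAt_id)
    filter_upwards [hBo.mem_nhds h1,
      (Complex.continuous_re.continuousAt (x := z)).eventually_const_lt h2, e1,
      e2.eventually (hR.opn _ _ _ _ h4)] with z' a1 a2 a3 a4
    have a5 := a3 (hσ' z' a1).1
    exact ⟨a1, a2, fun hM' => ⟨a1, a2, hM', a4 hM' (hσ' z' a1).1 (hσ' z' a1).2,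
      a5.1 (mem_M_iff.1 hM')⟩, a5.2⟩
  -- the PLY inequality at limits of exterior parameters
  have hn0 : (0 : ℝ) < n := by linarith
  have hnr : 81 * n * (2 * r) ≤ 1 := hQ2
  have hlimP : ∀ z ∈ V, (∃ᶠ z' in 𝓝 z, (σ z').1 ∉ MM) → ‖z - axisPt x‖ ^ 2 ≤ 81 * n * z.re := by
    intro z hz hf
    have hz1 := hVply z hz
    have hrez : z.re < 2 * r := by linarith [hKre z hz1]
    have h2 : ∃ᶠ z' in 𝓝 z, ‖z' - axisPt x‖ ^ 2 - 81 * n * z'.re ≤ 0 := by
      refine (hf.and_eventually ((hVn z hz).and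
        ((Complex.continuous_re.continuousAt (x := z)).eventually_lt_const hrez))).mono ?_
      rintro z' ⟨a1, ⟨a2, a3, -, a4⟩, a5⟩
      have hg : 0 < G (σ z').1 (σ z').1 := not_mem_MM_iff.1 a1
      obtain ⟨θ, hθ⟩ := exists_ang hg
      obtain ⟨w, hw⟩ := exists_extP_word hn hθ (hσ' z' a2).1
      obtain ⟨k, hk⟩ := a4 θ w hw
      have h3 : ‖z' - axisPt x‖ ≤ 1 := by
        rw [← dist_eq_norm]
        have : dist z' (axisPt x) < gR n x := a2
        linarith
      have h4 : 81 * n * z'.re ≤ 1 := by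
        have : 81 * (n : ℝ) * z'.re ≤ 81 * n * (2 * r) := by gcongr
        linarith
      have := ply_of_ext hn (y := σ z') hw hk (hσ' z' a2).2 (hlt z' a2) h3 h4
      linarith
    by_contra hcon
    push Not at hcon
    have hc : ContinuousAt (fun z : ℂ => ‖z - axisPt x‖ ^ 2 - 81 * n * z.re) z := by fun_prop
    obtain ⟨z', a1, a2⟩ := (h2.and_eventually (hc.eventually_const_lt (sub_pos.2 hcon))).exists
    linarith
  have hxY : axisPt x ≠ Y := by
    intro h
    have h3 : 2 * Real.pi * |(x : ℝ) - y| = 0 := by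
      rw [← norm_axisPt_sub, ← hY, h, sub_self, norm_zero]
    have h4 : |(x : ℝ) - y| = 0 := by
      rcases mul_eq_zero.1 h3 with h5 | h5
      · have := Real.pi_pos
        linarith
      · exact h5
    exact hxy (by exact_mod_cast sub_eq_zero.1 (abs_eq_zero.1 h4))
  have hacl : axisPt x ∉ closure V := by
    intro h
    have h1 := hclK _ h
    rw [ha0, mul_zero] at h1
    have h2 : ‖axisPt x - Y‖ = 0 := by
      have := sq_nonneg ‖axisPt x - Y‖
      exact pow_eq_zero_iff two_ne_zero |>.1 (le_antisymm h1 this)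
    exact hxY (sub_eq_zero.1 (norm_eq_zero.1 h2))
  have h81 : (0 : ℝ) < 81 * n := by positivity
  have hr1 : r ≤ 1 := by nlinarith
  have hVall : ∀ z ∈ V, ‖z - axisPt x‖ ^ 2 ≤ 81 * n * z.re := by
    intro z hz
    by_cases hf : ∃ᶠ z' in 𝓝 z, (σ z').1 ∉ MM
    · exact hlimP z hz hf
    rw [not_frequently] at hf
    set W := interior V with hW
    have hWV : W ⊆ V := interior_subset
    have hmem : ∀ z ∈ V, (∀ᶠ z' in 𝓝 z, (σ z').1 ∈ MM) → z ∈ W := by
      intro z hz hf
      rw [hW, mem_interior_iff_mem_nhds]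
      filter_upwards [hVn z hz, hf] with z' a1 a2
      exact a1.2.2.1 a2
    have hzW : z ∈ W := hmem z hz (hf.mono fun _ h => not_not.1 h)
    have hclW : closure W ⊆ closure V := closure_mono hWV
    have hfr : ∀ z ∈ frontier W, z ≠ Y → 1 / (81 * (n : ℝ)) ≤ ((z - axisPt x)⁻¹).re := by
      intro z' hz' hzY
      have h1 := hclW (frontier_subset_closure hz')
      have h2 := hcl z' h1 hzY
      have h3 : ‖z' - axisPt x‖ ^ 2 ≤ 81 * n * z'.re := by
        by_cases hf' : ∃ᶠ z'' in 𝓝 z', (σ z'').1 ∉ MM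
        · exact hlimP z' h2 hf'
        · exfalso
          rw [not_frequently] at hf'
          have h4 := hmem z' h2 (hf'.mono fun _ h => not_not.1 h)
          rw [frontier, (isOpen_interior : IsOpen W).interior_eq] at hz'
          exact hz'.2 h4
      refine inv_re_of_ply h81 ha0 ?_ h3
      rintro rfl
      exact hacl h1
    have hza : z ≠ axisPt x := by
      rintro rfl
      exact hacl (subset_closure hz)
    have hzY : z ≠ Y := by
      intro h
      have := hz.2.1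
      rw [h, hYre] at this
      exact lt_irrefl _ this
    have hbd : ∀ z ∈ closure W, ‖z - Y‖ ≤ 1 := fun z hz => (hK z (hclK z (hclW hz))).trans hr1
    have hbb : Bornology.IsBounded W := by
      refine (Metric.isBounded_closedBall (x := Y) (r := 1)).subset fun z hz => ?_
      rw [mem_closedBall, dist_eq_norm]
      exact hbd z (subset_closure hz)
    exact ply_of_inv_re h81 ha0 hza (min_principle hbb (fun h => hacl (hclW h)) hbd hfr hzW hzY)
  -- `Y` is not a limit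
  have hYcl : Y ∉ closure V := by
    intro h
    have hcl' : IsClosed {z : ℂ | ‖z - axisPt x‖ ^ 2 ≤ 81 * n * z.re} :=
      isClosed_le (by fun_prop) (by fun_prop)
    have h1 : ‖Y - axisPt x‖ ^ 2 ≤ 81 * n * Y.re :=
      closure_minimal (show V ⊆ {z : ℂ | ‖z - axisPt x‖ ^ 2 ≤ 81 * n * z.re} from hVall) hcl' h
    rw [hYre, mul_zero] at h1
    have h2 : ‖Y - axisPt x‖ = 0 := by
      have := sq_nonneg ‖Y - axisPt x‖
      exact pow_eq_zero_iff two_ne_zero |>.1 (le_antisymm h1 this)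
    exact hxY (sub_eq_zero.1 (norm_eq_zero.1 h2)).symm
  have hVcl : IsClosed V := by
    refine isClosed_of_closure_subset fun z hz => hcl z hz ?_
    rintro rfl; exact hYcl hz
  have hVc : IsCompact V := by
    refine (isCompact_closedBall Y r).of_isClosed_subset hVcl fun z hz => ?_
    rw [mem_closedBall, dist_eq_norm]
    exact hK z (hVply z hz)
  -- the image is open and closed in `MM`
  set T : Set ℂ := (fun z => (σ z).1) '' V with hT
  have hVB : V ⊆ B := fun z hz => hz.1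
  have hTc : IsCompact T := hVc.image_of_continuousOn
    (continuous_fst.comp_continuousOn (hσ.mono hVB))
  have hopen : ∀ z ∈ B, map (fun L => (σ L).1) (𝓝 z) = 𝓝 (σ z).1 := fun z hz =>
    (section_strict hG hσ hσ' hz).map_nhds_eq (section_deriv_ne_zero hG hσ hσ' hz)
  have hsub : MM ⊆ T := by
    -- `T` is relatively open
    have hrel : ∀ t ∈ T, ∀ᶠ c' in 𝓝 t, c' ∈ MM → c' ∈ T := by
      rintro _ ⟨z, hz, rfl⟩
      have h1 : ∀ᶠ c' in map (fun L => (σ L).1) (𝓝 z), c' ∈ MM → c' ∈ T := by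
        rw [eventually_map]
        filter_upwards [hVn z hz] with z' a1 a2
        exact ⟨z', a1.2.2.1 a2, rfl⟩
      rwa [hopen z hz.1] at h1
    set O : Set ℂ := interior {c' | c' ∈ MM → c' ∈ T} with hO
    have hTO : T ⊆ O := fun t ht => mem_interior_iff_mem_nhds.2 (hrel t ht)
    have hOM : ∀ c' ∈ MM, c' ∈ O → c' ∈ T := fun c' h1 h2 => interior_subset h2 h1
    intro c' hc'
    by_contra hcon
    have h1 := isPreconnected_MM O Tᶜ isOpen_interior hTc.isClosed.isOpen_compl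
      (fun c'' h => by
        by_cases h' : c'' ∈ T
        · exact Or.inl (hTO h')
        · exact Or.inr h')
      ⟨(σ L).1, by rw [hσ0]; exact hM, hTO ⟨L, hLV, rfl⟩⟩ ⟨c', hc', hcon⟩
    obtain ⟨c'', a1, a2, a3⟩ := h1
    exact a3 (hOM c'' a1 a2)
  obtain ⟨z, hz, hz0⟩ := hsub zero_mem_MM
  have hz0' : (σ z).1 = 0 := hz0
  have h1 := (hσ' z hz.1).1
  have h2 := hρ z hz.1 hz.2.1
  have e : σ z = (0, (σ z).2) := by rw [← hz0']
  rw [e] at h1
  have h3 := zero_mult hn (b := (σ z).2) h1 (by rw [← e]; exact h2)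
  rw [← e, (hσ' z hz.1).2, norm_exp] at h3
  have h4 : z.re ≤ 1 / 16 := by
    have h5 := Complex.re_le_norm (z - axisPt x)
    rw [Complex.sub_re, ha0] at h5
    have h6 : ‖z - axisPt x‖ < gR n x := by rw [← dist_eq_norm]; exact hz.1
    linarith
  have h5 : Real.exp z.re ≤ Real.exp (1 / 16) := Real.exp_le_exp.2 h4
  have h6 : Real.exp (1 / 16) < 2 := by
    have := Real.exp_bound_div_one_sub_of_interval (x := 1 / 16) (by norm_num) (by norm_num)
    linarith
  linarith

end Pool.Agent.Work.MLC
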