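import Pool.Agent.Work.MLC.PriBarM59
import Pool.Agent.Work.MLC.RotX13b

set_option autoImplicit false

/-! # Combinatorial and analytic rotation numbers agree over `MM` (helper59)

`ex_exact`: if a ray of combinatorial rotation number `x` lands at the repelling point `b` over `MM`
and `100 n ^ 2 ≤ x.den * min (x, 1 - x) ^ 2`, then, after a shift by a multiple of `2 π i`, the
logarithm of the multiplier has (analytic) rotation number `x`, so it is in the PLY disc of `x`. -/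

namespace Pool.Agent.Work.MLC

open Filter Topology Metric Set Complex Pool.Agent.Work.MLC.Sat

namespace BarM

/-- the main step: `L` near `2 π i x` -/
theorem exact_aux {n : ℕ} (hn : 0 < n) {x : ℚ} (hx0 : 0 < x) (hx1 : x < 1)
    (hQ : 100 * (n : ℝ) ^ 2 ≤ x.den * (min (x : ℝ) (1 - x)) ^ 2) {c b L : ℂ} (hM : c ∈ MM)
    (hper : (c, b) ∈ Per n) (hmul : mul n (c, b) = exp L) (hre : 0 < L.re) (hE : Ex n x c b)
    (hLx : ‖L - axisPt x‖ ≤ 2 * (2 * n * Real.log 2 / x.den) +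
      10 * Real.sqrt (n * (2 * n * Real.log 2 / x.den))) : Tr.RotT n c b L x := by
  have hn1 : (1 : ℝ) ≤ n := by exact_mod_cast hn
  have hn0 : (0 : ℝ) < n := by linarith
  have hlog0 : 0 < Real.log 2 := Real.log_pos (by norm_num)
  have hlog : Real.log 2 < 0.7 := by linarith [Real.log_two_lt_d9]
  have hR := Tr.rotData hn
  have hx0' : (0 : ℝ) < x := by exact_mod_cast hx0
  have hx1' : (x : ℝ) < 1 := by exact_mod_cast hx1
  have hq0 : (0 : ℝ) < x.den := by exact_mod_cast x.pos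
  have hpi3 := Real.pi_gt_three
  set μ : ℝ := min (x : ℝ) (1 - x) with hμ
  have hμ0 : 0 < μ := lt_min hx0' (by linarith)
  have hμ1 : μ ≤ 1 / 2 := by
    rcases le_total (x : ℝ) (1 / 2) with h | h
    · exact (min_le_left _ _).trans h
    · exact (min_le_right _ _).trans (by linarith)
  set r : ℝ := 2 * n * Real.log 2 / x.den with hr
  have hr0 : 0 < r := by rw [hr]; positivity
  -- the size of `r`
  have hnr : n * r ≤ 0.014 * μ ^ 2 := by
    rw [hr, ← mul_div_assoc, div_le_iff₀ hq0]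
    have h1 : (n : ℝ) * (2 * n * Real.log 2) = (2 * Real.log 2) * n ^ 2 := by ring
    rw [h1]
    have h2 : (2 * Real.log 2) * (n : ℝ) ^ 2 ≤ 1.4 * n ^ 2 :=
      mul_le_mul_of_nonneg_right (by linarith) (by positivity)
    linarith
  have hμ2 : μ ^ 2 ≤ 1 / 2 * μ := by rw [sq]; exact mul_le_mul_of_nonneg_right hμ1 hμ0.le
  have hrμ : r ≤ 0.007 * μ := by
    have h1 : r ≤ n * r := le_mul_of_one_le_left hr0.le hn1
    linarith
  have hsq : Real.sqrt (n * r) ≤ 0.12 * μ := by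
    rw [Real.sqrt_le_left (by positivity)]
    have h1 : (0.12 * μ) ^ 2 = 0.0144 * μ ^ 2 := by ring
    rw [h1]
    linarith [sq_nonneg μ]
  have hLx' : ‖L - axisPt x‖ ≤ 1.25 * μ := by linarith
  -- the rotation number
  obtain ⟨p, hy, -⟩ := hE.ply' hn hM hper hmul hre
  set y : ℚ := (p : ℚ) / (x.den : ℚ) with hydef
  set Y : ℂ := axisPt y with hY
  have hYre : Y.re = 0 := axisPt_re13 y
  have ha0 : (axisPt x).re = 0 := axisPt_re13 x
  have hK : ∀ z : ℂ, ‖z - Y‖ ^ 2 ≤ r * z.re → ‖z - Y‖ ≤ r := fun z hz =>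
    (mem_disc hYre hr0.le hz).1
  have hKre : ∀ z : ℂ, ‖z - Y‖ ^ 2 ≤ r * z.re → z.re ≤ r := fun z hz =>
    (mem_disc hYre hr0.le hz).2
  have hply : ∀ z c' b' : ℂ, c' ∈ MM → (c', b') ∈ Per n → mul n (c', b') = exp z → 0 < z.re →
      Tr.RotT n c' b' z y → Ex n x c' b' → ‖z - Y‖ ^ 2 ≤ r * z.re := by
    intro z c' b' h1 h2 h3 h4 h5 h6
    obtain ⟨p', h7, h8⟩ := h6.ply' hn h1 h2 h3 h4
    rw [hR.uniq _ _ _ _ _ h7 h5] at h8
    exact h8
  have hLY := hply L c b hM hper hmul hre hy hE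
  have hLY' : ‖L - Y‖ ≤ r := hK L hLY
  have hxY : ‖axisPt x - Y‖ ≤ 1.26 * μ := by
    have h1 : axisPt x - Y = (L - Y) - (L - axisPt x) := by ring
    rw [h1]
    refine (norm_sub_le _ _).trans ?_
    linarith
  have hxy : |(x : ℝ) - y| ≤ μ / 4 := by
    rw [hY, norm_axisPt_sub] at hxY
    have h1 : 6 * |(x : ℝ) - y| ≤ 2 * Real.pi * |(x : ℝ) - y| :=
      mul_le_mul_of_nonneg_right (by linarith) (abs_nonneg _)
    linarith
  have hxy' := abs_le.1 hxy
  have hμx : μ ≤ x := min_le_left _ _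
  have hμx' : μ ≤ 1 - x := min_le_right _ _
  have hy0 : 0 < y := by
    have : (0 : ℝ) < y := by linarith
    exact_mod_cast this
  have hy1 : y < 1 := by
    have : (y : ℝ) < 1 := by linarith
    exact_mod_cast this
  have hν : 3 / 4 * μ ≤ min (y : ℝ) (1 - y) := le_min (by linarith) (by linarith)
  have hν0 : 0 < min (y : ℝ) (1 - y) := by linarith
  have hν1 : min (y : ℝ) (1 - y) ≤ 1 / 2 := by
    rcases le_total (y : ℝ) (1 / 2) with h | h
    · exact (min_le_left _ _).trans h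
    · exact (min_le_right _ _).trans (by linarith)
  have hgR0 : 0 < gR n y := by unfold gR; positivity
  have hngR : n * gR n y = 1 / 4 * min (y : ℝ) (1 - y) ^ 2 := by
    unfold gR; field_simp
  have hgRr : 2 * r < gR n y := by
    have h1 : n * (2 * r) < n * gR n y := by
      rw [hngR]
      have h2 : (3 / 4 * μ) ^ 2 ≤ min (y : ℝ) (1 - y) ^ 2 :=
        pow_le_pow_left₀ (by positivity) hν 2
      have h3 : (3 / 4 * μ) ^ 2 = 9 / 16 * μ ^ 2 := by ring
      have h4 := pow_pos hμ0 2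
      linarith
    exact lt_of_mul_lt_mul_left h1 hn0.le
  have hgR1 : n * gR n y ≤ 1 / 16 := by
    rw [hngR]
    have h1 := pow_le_pow_left₀ hν0.le hν1 2
    norm_num at h1 ⊢
    linarith
  have hgR2 : gR n y ≤ 1 / 16 := (le_mul_of_one_le_left hgR0.le hn1).trans hgR1
  -- the good disc and the section
  have hG : GoodDom n (ball (axisPt y) (gR n y)) := goodDom34 hn hy0 hy1
  have hLB : L ∈ ball (axisPt y) (gR n y) := by
    rw [mem_ball, dist_eq_norm]; linarith
  obtain ⟨σ, hσ, hσ', hσ0⟩ := exists_section hG (convex_ball _ _) hper hLB hmul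
  set B := ball (axisPt y) (gR n y) with hB
  have hBo : IsOpen B := isOpen_ball
  have hσc : ∀ z ∈ B, ContinuousAt σ z := fun z hz => hσ.continuousAt (hBo.mem_nhds hz)
  have hlt : ∀ z ∈ B, ‖mul n (σ z)‖ < 23 / 10 := fun z hz => by
    rw [(hσ' z hz).2]; exact hG.lt z hz
  have hρ : ∀ z ∈ B, 0 < z.re → 1 < ‖mult n (σ z).1 (σ z).2‖ := fun z hz h0 => by
    have : mult n (σ z).1 (σ z).2 = mul n (σ z) := rfl
    rw [this, (hσ' z hz).2, norm_exp]; exact Real.one_lt_exp_iff.2 h0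
  set V : Set ℂ := {z | z ∈ B ∧ 0 < z.re ∧ (σ z).1 ∈ MM ∧ Tr.RotT n (σ z).1 (σ z).2 z y ∧
    Ex n x (σ z).1 (σ z).2} with hV
  have hLV : L ∈ V := ⟨hLB, hre, by rw [hσ0]; exact hM, by rw [hσ0]; exact hy,
    by rw [hσ0]; exact hE⟩
  have hVply : ∀ z ∈ V, ‖z - Y‖ ^ 2 ≤ r * z.re := by
    rintro z ⟨h1, h2, h3, h4, h5⟩
    exact hply z _ _ h3 (hσ' z h1).1 (hσ' z h1).2 h2 h4 h5
  have hclK : ∀ z ∈ closure V, ‖z - Y‖ ^ 2 ≤ r * z.re := by
    intro z hz
    have hcl : IsClosed {z : ℂ | ‖z - Y‖ ^ 2 ≤ r * z.re} :=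
      isClosed_le (by fun_prop) (by fun_prop)
    exact closure_minimal (show V ⊆ {z : ℂ | ‖z - Y‖ ^ 2 ≤ r * z.re} from hVply) hcl hz
  have hKB : ∀ z : ℂ, ‖z - Y‖ ^ 2 ≤ r * z.re → z ∈ B := by
    intro z hz
    have h1 := hK z hz
    rw [hB, mem_ball, dist_eq_norm]
    show ‖z - Y‖ < _
    linarith
  -- the closure of `V`
  have hcl : ∀ z ∈ closure V, z ≠ Y → z ∈ V := by
    intro z hz hzY
    have h1 := hclK z hz
    have hzB := hKB z h1
    have hzre : 0 < z.re := by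
      have h2 : 0 < ‖z - Y‖ ^ 2 := pow_pos (norm_pos_iff.2 (sub_ne_zero.2 hzY)) 2
      by_contra hcon
      push Not at hcon
      have : r * z.re ≤ 0 := mul_nonpos_of_nonneg_of_nonpos hr0.le hcon
      linarith
    have hfreq : ∃ᶠ z' in 𝓝 z, z' ∈ V := mem_closure_iff_frequently.1 hz
    have hzM : (σ z).1 ∈ MM := by
      by_contra hcon
      have h3 : ∀ᶠ z' in 𝓝 z, (σ z').1 ∉ MM :=
        ((hσc z hzB).fst).eventually (isOpen_compl_MM.mem_nhds hcon)
      obtain ⟨z', a1, a2⟩ := (hfreq.and_eventually h3).exists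
      exact a2 a1.2.2.1
    obtain ⟨y', hy'⟩ := hR.ex (σ z).1 (σ z).2 z (hσ' z hzB).1 (hσ' z hzB).2 hzre hzM
    have hyy : y' = y := by
      have h1 := hR.opn _ _ _ _ hy'
      have h2 : Tendsto (fun z' => (((σ z').1, (σ z').2, z') : ℂ × ℂ × ℂ)) (𝓝 z)
          (𝓝 ((σ z).1, (σ z).2, z)) :=
        ((hσc z hzB).fst).prodMk (((hσc z hzB).snd).prodMk continuousAt_id)
      obtain ⟨z', a1, a2⟩ := (hfreq.and_eventually (h2.eventually h1)).exists
      exact hR.uniq _ _ _ _ _ (a2 a1.2.2.1 (hσ' z' a1.1).1 (hσ' z' a1.1).2) a1.2.2.2.1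
    rw [hyy] at hy'
    refine ⟨hzB, hzre, hzM, hy', ?_⟩
    refine ex_closed' hn (mem_M_iff.1 hzM) (hσ' z hzB).1 (hρ z hzB hzre) ?_
    have h2 : ∃ᶠ z' in 𝓝 z, (σ z') ∈ Per n ∧ G (σ z').1 0 = 0 ∧ Ex n x (σ z').1 (σ z').2 :=
      hfreq.mono fun z' a => ⟨(hσ' z' a.1).1, mem_M_iff.1 a.2.2.1, a.2.2.2.2⟩
    exact (hσc z hzB).tendsto.frequently h2
  -- neighbourhoods of the points of `V`
  have hVn : ∀ z ∈ V, ∀ᶠ z' in 𝓝 z, (z' ∈ B ∧ 0 < z'.re ∧ ((σ z').1 ∈ MM → z' ∈ V) ∧
      ∀ θ w, ExtP n (σ z').1 (σ z').2 θ w → ∃ k : ℤ, Circ.nu w n θ = x + k) := by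
    rintro z ⟨h1, h2, h3, h4, h5⟩
    have e1 := (hσc z h1).tendsto.eventually
      (h5.nhds hn (mem_M_iff.1 h3) (hσ' z h1).1 (hρ z h1 h2))
    have e2 : Tendsto (fun z' => (((σ z').1, (σ z').2, z') : ℂ × ℂ × ℂ)) (𝓝 z)
        (𝓝 ((σ z).1, (σ z).2, z)) :=
      ((hσc z h1).fst).prodMk (((hσc z h1).snd).prodMk continuousAt_id)
    filter_upwards [hBo.mem_nhds h1,
      (Complex.continuous_re.continuousAt (x := z)).eventually_const_lt h2, e1,
      e2.eventually (hR.opn _ _ _ _ h4)] with z' a1 a2 a3 a4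
    have a5 := a3 (hσ' z' a1).1
    exact ⟨a1, a2, fun hM' => ⟨a1, a2, hM', a4 hM' (hσ' z' a1).1 (hσ' z' a1).2,
      a5.1 (mem_M_iff.1 hM')⟩, a5.2⟩
  -- the PLY inequality at limits of exterior parameters
  have hnr81 : 81 * n * (2 * r) ≤ 1 := by
    have : 81 * (n : ℝ) * (2 * r) = 162 * (n * r) := by ring
    rw [this]; linarith
  have hlimP : ∀ z ∈ V, (∃ᶠ z' in 𝓝 z, (σ z').1 ∉ MM) → ‖z - axisPt x‖ ^ 2 ≤ 81 * n * z.re := by
    intro z hz hf
    have hz1 := hVply z hz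
    have hrez : z.re < 2 * r := by linarith [hKre z hz1]
    have h2 : ∃ᶠ z' in 𝓝 z, ‖z' - axisPt x‖ ^ 2 - 81 * n * z'.re ≤ 0 := by
      refine (hf.and_eventually ((hVn z hz).and
        ((Complex.continuous_re.continuousAt (x := z)).eventually_lt_const hrez))).mono ?_
      rintro z' ⟨a1, ⟨a2, a3, -, a4⟩, a5⟩
      have hg : 0 < G (σ z').1 (σ z').1 := not_mem_MM_iff.1 a1
      obtain ⟨θ, hθ⟩ := exists_ang hg
      obtain ⟨w, hw⟩ := exists_extP_word hn hθ (hσ' z' a2).1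
      obtain ⟨k, hk⟩ := a4 θ w hw
      have h3 : ‖z' - axisPt x‖ ≤ 1 := by
        have h4 : ‖z' - Y‖ < gR n y := by
          rw [← dist_eq_norm]; exact a2
        have h5 : z' - axisPt x = (z' - Y) - (axisPt x - Y) := by ring
        rw [h5]
        refine (norm_sub_le _ _).trans ?_
        linarith
      have h4 : 81 * n * z'.re ≤ 1 := by
        have : 81 * (n : ℝ) * z'.re ≤ 81 * n * (2 * r) := by gcongr
        linarith
      have := ply_of_ext hn (y := σ z') hw hk (hσ' z' a2).2 (hlt z' a2) h3 h4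
      linarith
    by_contra hcon
    push Not at hcon
    have hc : ContinuousAt (fun z : ℂ => ‖z - axisPt x‖ ^ 2 - 81 * n * z.re) z := by fun_prop
    obtain ⟨z', a1, a2⟩ := (h2.and_eventually (hc.eventually_const_lt (sub_pos.2 hcon))).exists
    linarith
  -- if `Y` is a limit of `V` then `x = y`
  have hYcl : Y ∈ closure V → x = y := by
    intro hYV
    -- points near `Y` which are limits of exterior pairs
    have hnear : ∀ δ > 0, ∃ z ∈ V, ‖z - Y‖ < δ ∧ ∃ᶠ z' in 𝓝 z, (σ z').1 ∉ MM := by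
      intro δ hδ
      by_contra hcon
      push Not at hcon
      set H : Set ℂ := {z | z ∈ ball Y δ ∧ 0 < z.re} with hH
      have hHc : Convex ℝ H := by
        have h1 : H = ball Y δ ∩ {z | 0 < z.re} := rfl
        rw [h1]
        exact (convex_ball _ _).inter (convex_halfSpace_re_gt 0)
      set V' : Set ℂ := interior V with hV'
      have hV'H : (H ∩ V').Nonempty := by
        obtain ⟨z, hz, hzd⟩ := Metric.mem_closure_iff.1 hYV δ hδ
        rw [dist_comm, dist_eq_norm] at hzd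
        have h1 : ∀ᶠ z' in 𝓝 z, (σ z').1 ∈ MM := hcon z hz hzd
        refine ⟨z, ⟨by rw [mem_ball, dist_eq_norm]; exact hzd, hz.2.1⟩, ?_⟩
        rw [hV', mem_interior_iff_mem_nhds]
        filter_upwards [hVn z hz, h1] with z' a1 a2
        exact a1.2.2.1 a2
      have hsub : H ⊆ V' := by
        have h3 : closure V' ∩ H ⊆ V' := by
          rintro z ⟨hz, hzH⟩
          have h4 : z ∈ closure V := closure_mono interior_subset hz
          have h5 : z ≠ Y := by
            rintro rfl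
            have := hzH.2
            rw [hYre] at this
            exact lt_irrefl _ this
          have h6 := hcl z h4 h5
          have h7 : ‖z - Y‖ < δ := by rw [← dist_eq_norm]; exact hzH.1
          have h1 : ∀ᶠ z' in 𝓝 z, (σ z').1 ∈ MM := hcon z h6 h7
          rw [hV', mem_interior_iff_mem_nhds]
          filter_upwards [hVn z h6, h1] with z' a1 a2
          exact a1.2.2.1 a2
        exact hHc.isPreconnected.subset_of_closure_inter_subset isOpen_interior hV'H h3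
      -- a point of `H` outside the disc
      set t : ℝ := min (δ / 4) (δ ^ 2 / (8 * r)) with ht
      have ht0 : 0 < t := by rw [ht]; positivity
      have ht1 : t ≤ δ / 4 := min_le_left _ _
      have ht2 : r * t ≤ δ ^ 2 / 8 := by
        have h1 : t ≤ δ ^ 2 / (8 * r) := min_le_right _ _
        have h2 : r * (δ ^ 2 / (8 * r)) = δ ^ 2 / 8 := by field_simp
        rw [← h2]; gcongr
      set z : ℂ := Y + ((t : ℂ) + ((δ / 2 : ℝ) : ℂ) * I) with hz
      have hzY : z - Y = (t : ℂ) + ((δ / 2 : ℝ) : ℂ) * I := by rw [hz]; ring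
      have hzre : z.re = t := by rw [hz, Complex.add_re, hYre]; simp
      have hnsq : ‖z - Y‖ ^ 2 = t ^ 2 + (δ / 2) ^ 2 := by
        rw [hzY, ← Complex.normSq_eq_norm_sq, Complex.normSq_add_mul_I]
      have hzH : z ∈ H := by
        refine ⟨?_, by rw [hzre]; exact ht0⟩
        rw [mem_ball, dist_eq_norm]
        apply lt_of_pow_lt_pow_left₀ 2 hδ.le
        rw [hnsq]
        have g1 := pow_le_pow_left₀ ht0.le ht1 2
        have g2 : (δ / 4) ^ 2 = δ ^ 2 / 16 := by ring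
        have g3 : (δ / 2) ^ 2 = δ ^ 2 / 4 := by ring
        have g4 := pow_pos hδ 2
        linarith
      have h1 := hVply z (interior_subset (hsub hzH))
      rw [hnsq, hzre] at h1
      have g3 : (δ / 2) ^ 2 = δ ^ 2 / 4 := by ring
      have g4 := pow_pos hδ 2
      have g5 := sq_nonneg t
      linarith
    have hle : ∀ δ > 0, ‖axisPt x - Y‖ ≤ δ + Real.sqrt (81 * n * δ) := by
      intro δ hδ
      obtain ⟨z, hz, hzδ, hf⟩ := hnear δ hδ
      have h1 := hlimP z hz hf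
      have h2 : z.re ≤ δ := by
        have h3 := Complex.re_le_norm (z - Y)
        rw [Complex.sub_re, hYre] at h3
        linarith
      have h3 : ‖z - axisPt x‖ ≤ Real.sqrt (81 * n * δ) := by
        apply Real.le_sqrt_of_sq_le
        refine h1.trans ?_
        gcongr
      have h4 : axisPt x - Y = (z - Y) - (z - axisPt x) := by ring
      rw [h4]
      exact (norm_sub_le _ _).trans (by linarith)
    have hlim : Tendsto (fun δ : ℝ => δ + Real.sqrt (81 * n * δ)) (𝓝[>] 0) (𝓝 0) := by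
      have hc : Continuous fun δ : ℝ => δ + Real.sqrt (81 * n * δ) := by fun_prop
      have h1 := hc.tendsto 0
      simp only [mul_zero, Real.sqrt_zero, add_zero] at h1
      exact h1.mono_left nhdsWithin_le_nhds
    have h0 : ‖axisPt x - Y‖ ≤ 0 :=
      ge_of_tendsto hlim (by filter_upwards [self_mem_nhdsWithin] with δ hδ using hle δ hδ)
    have h1 : ‖axisPt x - Y‖ = 0 := le_antisymm h0 (norm_nonneg _)
    rw [hY, norm_axisPt_sub] at h1
    have h4 : |(x : ℝ) - y| = 0 := by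
      rcases mul_eq_zero.1 h1 with h5 | h5
      · have := Real.pi_pos
        linarith
      · exact h5
    exact_mod_cast sub_eq_zero.1 (abs_eq_zero.1 h4)
  by_cases hYV : Y ∈ closure V
  · rw [hYcl hYV]; exact hy
  exfalso
  have hVcl : IsClosed V := by
    refine isClosed_of_closure_subset fun z hz => hcl z hz ?_
    rintro rfl; exact hYV hz
  have hVc : IsCompact V := by
    refine (isCompact_closedBall Y r).of_isClosed_subset hVcl fun z hz => ?_
    rw [mem_closedBall, dist_eq_norm]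
    exact hK z (hVply z hz)
  -- the image is open and closed in `MM`
  set T : Set ℂ := (fun z => (σ z).1) '' V with hT
  have hVB : V ⊆ B := fun z hz => hz.1
  have hTc : IsCompact T := hVc.image_of_continuousOn
    (continuous_fst.comp_continuousOn (hσ.mono hVB))
  have hopen : ∀ z ∈ B, map (fun L => (σ L).1) (𝓝 z) = 𝓝 (σ z).1 := fun z hz =>
    (section_strict hG hσ hσ' hz).map_nhds_eq (section_deriv_ne_zero hG hσ hσ' hz)
  have hsub : MM ⊆ T := by
    -- `T` is relatively open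
    have hrel : ∀ t ∈ T, ∀ᶠ c' in 𝓝 t, c' ∈ MM → c' ∈ T := by
      rintro _ ⟨z, hz, rfl⟩
      have h1 : ∀ᶠ c' in map (fun L => (σ L).1) (𝓝 z), c' ∈ MM → c' ∈ T := by
        rw [eventually_map]
        filter_upwards [hVn z hz] with z' a1 a2
        exact ⟨z', a1.2.2.1 a2, rfl⟩
      rwa [hopen z hz.1] at h1
    set O : Set ℂ := interior {c' | c' ∈ MM → c' ∈ T} with hO
    have hTO : T ⊆ O := fun t ht => mem_interior_iff_mem_nhds.2 (hrel t ht)
    have hOM : ∀ c' ∈ MM, c' ∈ O → c' ∈ T := fun c' h1 h2 => interior_subset h2 h1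
    intro c' hc'
    by_contra hcon
    have h1 := isPreconnected_MM O Tᶜ isOpen_interior hTc.isClosed.isOpen_compl
      (fun c'' h => by
        by_cases h' : c'' ∈ T
        · exact Or.inl (hTO h')
        · exact Or.inr h')
      ⟨(σ L).1, by rw [hσ0]; exact hM, hTO ⟨L, hLV, rfl⟩⟩ ⟨c', hc', hcon⟩
    obtain ⟨c'', a1, a2, a3⟩ := h1
    exact a3 (hOM c'' a1 a2)
  obtain ⟨z, hz, hz0⟩ := hsub zero_mem_MM
  have hz0' : (σ z).1 = 0 := hz0
  have h1 := (hσ' z hz.1).1
  have h2 := hρ z hz.1 hz.2.1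
  have e : σ z = (0, (σ z).2) := by rw [← hz0']
  rw [e] at h1
  have h3 := zero_mult hn (b := (σ z).2) h1 (by rw [← e]; exact h2)
  rw [← e, (hσ' z hz.1).2, norm_exp] at h3
  have h4 : z.re ≤ 1 / 16 := by
    have h5 := hKre z (hVply z hz)
    linarith
  have h5 : Real.exp z.re ≤ Real.exp (1 / 16) := Real.exp_le_exp.2 h4
  have h6 : Real.exp (1 / 16) < 2 := by
    have := Real.exp_bound_div_one_sub_of_interval (x := 1 / 16) (by norm_num) (by norm_num)
    linarith
  linarith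

/-- **the two rotation numbers agree**: a ray of combinatorial rotation number `x` lands at `b`
over `MM`; then the logarithm of the multiplier has rotation number `x` after an integer shift -/
theorem ex_exact {n : ℕ} (hn : 0 < n) {x : ℚ} (hx0 : 0 < x) (hx1 : x < 1)
    (hQ : 100 * (n : ℝ) ^ 2 ≤ x.den * (min (x : ℝ) (1 - x)) ^ 2) {c b L : ℂ} (hM : c ∈ MM)
    (hfix : (c, b) ∈ Per n) (hL : mul n (c, b) = exp L) (hre : 0 < L.re) (hE : Ex n x c b) :
    ∃ j : ℤ, Tr.RotT n c b (L - 2 * Real.pi * j * I) x ∧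
      ‖L - axisPt x - 2 * Real.pi * j * I‖ ^ 2 ≤ 2 * n * Real.log 2 / x.den * L.re := by
  have hn1 : (1 : ℝ) ≤ n := by exact_mod_cast hn
  have hx0' : (0 : ℝ) < x := by exact_mod_cast hx0
  have hx1' : (x : ℝ) < 1 := by exact_mod_cast hx1
  have hq0 : (0 : ℝ) < x.den := by exact_mod_cast x.pos
  have hlog : Real.log 2 < 0.7 := by linarith [Real.log_two_lt_d9]
  have hr : 2 * n * Real.log 2 / x.den ≤ 1 / 2 := by
    rw [div_le_iff₀ hq0]
    set μ : ℝ := min (x : ℝ) (1 - x) with hμ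
    have hμ0 : 0 < μ := lt_min hx0' (by linarith)
    have hμ1 : μ ≤ 1 := (min_le_left _ _).trans hx1'.le
    have h1 : μ ^ 2 ≤ 1 := pow_le_one₀ hμ0.le hμ1
    have h2 : 100 * (n : ℝ) ^ 2 ≤ x.den :=
      hQ.trans (mul_le_of_le_one_right hq0.le h1)
    have h3 : 2 * (n : ℝ) * Real.log 2 ≤ 1.4 * n := by
      have h4 := mul_le_mul_of_nonneg_left hlog.le (show (0 : ℝ) ≤ 2 * n by linarith)
      linarith
    have h5 : (n : ℝ) ≤ n ^ 2 := le_self_pow₀ hn1 (by norm_num)
    linarith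
  obtain ⟨-, j, hj⟩ := ex_near hn hr hM hfix hL hre hE
  have e1 : L - 2 * Real.pi * j * I - axisPt x = L - axisPt x - 2 * Real.pi * j * I := by ring
  have hre' : (L - 2 * Real.pi * j * I).re = L.re := by simp
  have hrot : Tr.RotT n c b (L - 2 * Real.pi * j * I) x := by
    refine exact_aux hn hx0 hx1 hQ hM hfix ?_ (by rw [hre']; exact hre) hE (by rw [e1]; exact hj)
    rw [hL, Complex.exp_sub]
    have h5 : 2 * Real.pi * (j : ℂ) * I = j * (2 * Real.pi * I) := by ring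
    rw [h5, Complex.exp_int_mul_two_pi_mul_I, div_one]
  refine ⟨j, hrot, ?_⟩
  have h := (Tr.rotData hn).ply _ _ _ _ hrot
  rw [e1, hre'] at h
  exact h

/-- the version for a logarithm near `2 π i x` -/
theorem rotX' {n : ℕ} (hn : 0 < n) {x : ℚ} (hx0 : 0 < x) (hx1 : x < 1)
    (hQ : 100 * (n : ℝ) ^ 2 ≤ x.den * (min (x : ℝ) (1 - x)) ^ 2) {c b L : ℂ} (hM : c ∈ MM)
    (hfix : (c, b) ∈ Per n) (hL : mul n (c, b) = exp L) (hre : 0 < L.re) (hE : Ex n x c b)
    (hLx : ‖L - axisPt x‖ ≤ 3) : Tr.RotT n c b L x := by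
  have hn1 : (1 : ℝ) ≤ n := by exact_mod_cast hn
  have hx0' : (0 : ℝ) < x := by exact_mod_cast hx0
  have hx1' : (x : ℝ) < 1 := by exact_mod_cast hx1
  have hq0 : (0 : ℝ) < x.den := by exact_mod_cast x.pos
  have hpi3 := Real.pi_gt_three
  have hlog : Real.log 2 < 0.7 := by linarith [Real.log_two_lt_d9]
  have hlog0 : 0 < Real.log 2 := Real.log_pos (by norm_num)
  obtain ⟨j, h1, h2⟩ := ex_exact hn hx0 hx1 hQ hM hfix hL hre hE
  suffices hj : j = 0 by
    rw [hj] at h1; simpa using h1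
  set r : ℝ := 2 * n * Real.log 2 / x.den with hrdef
  have hr0 : 0 < r := by rw [hrdef]; positivity
  have hr : r ≤ 1 / 2 := by
    rw [hrdef, div_le_iff₀ hq0]
    set μ : ℝ := min (x : ℝ) (1 - x) with hμ
    have hμ0 : 0 < μ := lt_min hx0' (by linarith)
    have hμ1 : μ ≤ 1 := (min_le_left _ _).trans hx1'.le
    have h1 : μ ^ 2 ≤ 1 := pow_le_one₀ hμ0.le hμ1
    have h2 : 100 * (n : ℝ) ^ 2 ≤ x.den :=
      hQ.trans (mul_le_of_le_one_right hq0.le h1)
    have h3 : 2 * (n : ℝ) * Real.log 2 ≤ 1.4 * n := by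
      have h4 := mul_le_mul_of_nonneg_left hlog.le (show (0 : ℝ) ≤ 2 * n by linarith)
      linarith
    have h5 : (n : ℝ) ≤ n ^ 2 := le_self_pow₀ hn1 (by norm_num)
    linarith
  have h3 : ‖L - axisPt x - 2 * Real.pi * j * I‖ ≤ r := by
    have e1 : (L - 2 * Real.pi * j * I) - axisPt x = L - axisPt x - 2 * Real.pi * j * I := by ring
    have hre' : (L - 2 * Real.pi * j * I).re = L.re := by simp
    have := (mem_disc (z := L - 2 * Real.pi * j * I) (Y := axisPt x) (r := r)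
      (axisPt_re13 x) hr0.le (by rw [e1, hre']; exact h2)).1
    rwa [e1] at this
  have h4 : ‖((2 * Real.pi * j : ℝ) : ℂ) * I‖ ≤ 3.5 := by
    have e : ((2 * Real.pi * j : ℝ) : ℂ) * I
        = (L - axisPt x) - (L - axisPt x - 2 * Real.pi * j * I) := by push_cast; ring
    rw [e]
    exact (norm_sub_le _ _).trans (by linarith)
  rw [norm_mul, Complex.norm_I, mul_one, Complex.norm_real, Real.norm_eq_abs, abs_mul,
      abs_of_pos (by positivity : (0 : ℝ) < 2 * Real.pi)] at h4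
  have h7 : |(j : ℝ)| < 1 := by
    by_contra hcon
    push Not at hcon
    have h8 : 6 * 1 ≤ 2 * Real.pi * |(j : ℝ)| :=
      mul_le_mul (by linarith) hcon zero_le_one (by linarith)
    linarith
  have h8 : |j| < 1 := by exact_mod_cast h7
  exact Int.abs_lt_one_iff.1 h8

/-- **(M), exact form**: a pair over `MM` of label `J` and combinatorial rotation number `x` of
large denominator is the point of any section of label `J` over the right half of a disc about
`2 π i x`, and it is in the PLY disc -/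
theorem barM_exact {n : ℕ} (hn : 0 < n) {x : ℚ} (hx0 : 0 < x) (hx1 : x < 1)
    (hQ : 100 * (n : ℝ) ^ 2 ≤ x.den * (min (x : ℝ) (1 - x)) ^ 2) {ρ : ℝ}
    (hρ : 2 * n * Real.log 2 / x.den < ρ)
    (hρ' : ρ ≤ Sat.gR n x) {J : Lab n} {τ : ℂ → ℂ × ℂ}
    (hτ : ∀ L ∈ ball (axisPt x) ρ, 0 < L.re → τ L ∈ Per n ∧ mul n (τ L) = exp L ∧
      FF n (τ L) = J) {c a : ℂ} (hM : c ∈ MM) (hJ : (c, a) ∈ Sat.NJ n J)
    (hRt : Sat.Rt n (c, a) x) :
    ∃ L ∈ ball (axisPt x) ρ, 0 < L.re ∧ τ L = (c, a) ∧ Tr.RotT n c a L x ∧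
      ‖L - axisPt x‖ ^ 2 ≤ 2 * n * Real.log 2 / x.den * L.re ∧
      ‖L - axisPt x‖ ≤ 2 * n * Real.log 2 / x.den := by
  obtain ⟨hPer, hmul, hNI, hFF⟩ := hJ
  have hρ1 : 1 < ‖mult n c a‖ := hmul
  have hlog0 : 0 < Real.log 2 := Real.log_pos (by norm_num)
  have hn0 : (0 : ℝ) < n := by exact_mod_cast hn
  have hq0 : (0 : ℝ) < x.den := by exact_mod_cast x.pos
  have hr0 : 0 < 2 * n * Real.log 2 / x.den := by positivity
  have hL : mul n (c, a) = exp (Complex.log (mul n (c, a))) :=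
    (Complex.exp_log (repelling_ne_zero hρ1)).symm
  have hre : 0 < (Complex.log (mul n (c, a))).re := by
    rw [Complex.log_re]; exact Real.log_pos hmul
  obtain ⟨j, hrot, hj⟩ := ex_exact hn hx0 hx1 hQ hM hPer hL hre (ex_of_rt hM hRt)
  set L : ℂ := Complex.log (mul n (c, a)) - 2 * Real.pi * j * I with hLdef
  have h1 : L - axisPt x = Complex.log (mul n (c, a)) - axisPt x - 2 * Real.pi * j * I := by
    rw [hLdef]; ring
  have hLre : L.re = (Complex.log (mul n (c, a))).re := by rw [hLdef]; simp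
  rw [← h1, ← hLre] at hj
  have hj' := (mem_disc (axisPt_re13 x) hr0.le hj).1
  have hLe : exp L = mul n (c, a) := by
    rw [hLdef, Complex.exp_sub, ← hL]
    have h5 : 2 * Real.pi * (j : ℂ) * I = j * (2 * Real.pi * I) := by ring
    rw [h5, Complex.exp_int_mul_two_pi_mul_I, div_one]
  have hLB : L ∈ ball (axisPt x) ρ := by
    rw [mem_ball, dist_eq_norm]; exact lt_of_le_of_lt hj' hρ
  have hL0 : 0 < L.re := by rw [hLre]; exact hre
  obtain ⟨h2, h3, h4⟩ := hτ L hLB hL0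
  refine ⟨L, hLB, hL0, ?_, hrot, hj, hj'⟩
  exact Sat.s4_unique n x L (τ L) (c, a) hn hx0 hx1 (ball_subset_ball hρ' hLB) hL0 h2 hPer h3
    hLe.symm (h4.trans hFF.symm)

end BarM

end Pool.Agent.Work.MLC
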