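import Pool.Agent.Work.MLC.ExtP57
import Pool.Agent.Work.MLC.Defs

set_option autoImplicit false

/-! # The exterior pairs are stable: word locally constant, angle continuous (helper57) -/

namespace Pool.Agent.Work.MLC

open Filter Topology Metric Set Complex

theorem extP_iff {n : ℕ} (hn : 0 < n) {c b : ℂ} {θ : ℝ} {w : ℕ → ℤ} :
    ExtP n c b θ w ↔ Ext n c b θ w :=
  ⟨fun h => ⟨h.1, h.2.1, ⟨hn, h.2.2.1⟩, h.2.2.2.1.bit, h.2.2.2.1.per, h.2.2.2.2⟩,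
    fun h => ⟨h.1, h.2.1, h.2.2.1.2, ⟨h.2.2.2.1, h.2.2.2.2.1⟩, h.2.2.2.2.2⟩⟩

/-- pairs `(c, z)` with `f c z` off the ray above the critical value -/
def OffRay : Set (ℂ × ℂ) :=
  {p | G p.1 (f p.1 p.2) < G p.1 p.1} ∪
    ({p | 0 < G p.1 p.1 ∧ G p.1 0 < G p.1 (f p.1 p.2)} ∩
      (fun p : ℂ × ℂ => phi p.1 (f p.1 p.2) / phi p.1 p.1) ⁻¹' {t : ℂ | ¬ (t.im = 0 ∧ 0 ≤ t.re)})

lemma continuous_G_crit : Continuous fun p : ℂ × ℂ => G p.1 (f p.1 p.2) := by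
  have h1 : Continuous (fun p : ℂ × ℂ => ((p.1, f p.1 p.2) : ℂ × ℂ)) :=
    continuous_fst.prodMk continuous_f
  have h2 : Continuous ((fun p : ℂ × ℂ => G p.1 p.2) ∘
      fun p : ℂ × ℂ => ((p.1, f p.1 p.2) : ℂ × ℂ)) := Continuous.comp continuous_G h1
  exact h2

lemma continuous_G_diag' : Continuous fun p : ℂ × ℂ => G p.1 p.1 := by
  have h1 : Continuous (fun p : ℂ × ℂ => ((p.1, p.1) : ℂ × ℂ)) :=
    continuous_fst.prodMk continuous_fst
  have h2 : Continuous ((fun p : ℂ × ℂ => G p.1 p.2) ∘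
      fun p : ℂ × ℂ => ((p.1, p.1) : ℂ × ℂ)) := Continuous.comp continuous_G h1
  exact h2

lemma continuous_G_zero' : Continuous fun p : ℂ × ℂ => G p.1 0 := by
  have h1 : Continuous (fun p : ℂ × ℂ => ((p.1, 0) : ℂ × ℂ)) :=
    continuous_fst.prodMk continuous_const
  have h2 : Continuous ((fun p : ℂ × ℂ => G p.1 p.2) ∘
      fun p : ℂ × ℂ => ((p.1, 0) : ℂ × ℂ)) := Continuous.comp continuous_G h1
  exact h2

lemma isOpen_OffRay : IsOpen OffRay := by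
  refine (isOpen_lt continuous_G_crit continuous_G_diag').union ?_
  have hU : IsOpen {p : ℂ × ℂ | 0 < G p.1 p.1 ∧ G p.1 0 < G p.1 (f p.1 p.2)} :=
    (isOpen_lt continuous_const continuous_G_diag').inter
      (isOpen_lt continuous_G_zero' continuous_G_crit)
  have hV : IsOpen {t : ℂ | ¬ (t.im = 0 ∧ 0 ≤ t.re)} := by
    have h1 : IsClosed {t : ℂ | t.im = 0 ∧ 0 ≤ t.re} :=
      (isClosed_eq continuous_im continuous_const).inter
        (isClosed_le continuous_const continuous_re)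
    exact h1.isOpen_compl
  refine ContinuousOn.isOpen_inter_preimage ?_ hU hV
  have h1 : ContinuousOn (fun p : ℂ × ℂ => phi p.1 (f p.1 p.2))
      {p : ℂ × ℂ | 0 < G p.1 p.1 ∧ G p.1 0 < G p.1 (f p.1 p.2)} := by
    have h2 : ContinuousOn (fun p : ℂ × ℂ => ((p.1, f p.1 p.2) : ℂ × ℂ))
        {p : ℂ × ℂ | 0 < G p.1 p.1 ∧ G p.1 0 < G p.1 (f p.1 p.2)} :=
      (continuous_fst.prodMk continuous_f).continuousOn
    exact continuousOn_phi.comp h2 fun p hp => hp.2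
  have h3 : ContinuousOn (fun p : ℂ × ℂ => phi p.1 p.1)
      {p : ℂ × ℂ | 0 < G p.1 p.1 ∧ G p.1 0 < G p.1 (f p.1 p.2)} := by
    have h2 : ContinuousOn (fun p : ℂ × ℂ => ((p.1, p.1) : ℂ × ℂ))
        {p : ℂ × ℂ | 0 < G p.1 p.1 ∧ G p.1 0 < G p.1 (f p.1 p.2)} :=
      (continuous_fst.prodMk continuous_fst).continuousOn
    refine continuousOn_phi.comp h2 fun p hp => ?_
    have := hp.1
    show G p.1 0 < G p.1 p.1
    rw [G_zero_eq]; linarith
  refine h1.div h3 fun p hp => ?_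
  have h4 : G p.1 0 < G p.1 p.1 := by
    have := hp.1
    rw [G_zero_eq]; linarith
  rw [← norm_pos_iff, norm_phi h4]
  exact Real.exp_pos _

lemma offRay_iff {c : ℂ} {θ : ℝ} (h : Ang c θ) {z : ℂ} :
    (c, z) ∈ OffRay ↔ f c z ∉ ray (eta c) (G c c) (2 * Real.pi * θ) := by
  have hG := h.1
  have hB := h.BD
  have h0 : G c 0 < G c c := by rw [G_zero_eq]; linarith
  have hphic : phi c c = Complex.exp ((G c c : ℂ) + 2 * Real.pi * θ * I) := by
    have h1 : G c 0 < ((G c c : ℂ) + 2 * Real.pi * θ * I).re := by simpa using h0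
    have h2 := phi_eta h1
    rwa [h.2] at h2
  constructor
  · rintro (h1 | ⟨⟨h1, h2⟩, h3⟩)
    · intro hr
      have := hB.G_ray hr
      have h1' : G c (f c z) < G c c := h1
      linarith
    · rintro ⟨r, hr, hrE⟩
      apply h3
      simp only
      have h4 : G c 0 < (((r : ℝ) : ℂ) + ((2 * Real.pi * θ : ℝ) : ℂ) * I).re := by
        simp; linarith
      have h5 : phi c (f c z) = Complex.exp (((r : ℝ) : ℂ) + ((2 * Real.pi * θ : ℝ) : ℂ) * I) := by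
        rw [hrE]; exact phi_eta h4
      have h6 : phi c (f c z) / phi c c = ((Real.exp (r - G c c) : ℝ) : ℂ) := by
        rw [h5, hphic, ← Complex.exp_sub]
        push_cast
        congr 1
        ring
      rw [h6]
      exact ⟨Complex.ofReal_im _, by rw [Complex.ofReal_re]; exact (Real.exp_pos _).le⟩
  · intro hnr
    by_cases h1 : G c (f c z) < G c c
    · exact Or.inl h1
    · right
      push Not at h1
      have h2 : G c 0 < G c (f c z) := lt_of_lt_of_le h0 h1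
      refine ⟨⟨hG, h2⟩, ?_⟩
      rintro ⟨him, hre⟩
      simp only at him hre
      apply hnr
      refine ⟨G c (f c z), h1, ?_⟩
      set t := phi c (f c z) / phi c c with ht
      have hphi0 : phi c c ≠ 0 := by rw [hphic]; exact Complex.exp_ne_zero _
      have h3 : t = ((‖t‖ : ℝ) : ℂ) := by
        have h4 : t = ((t.re : ℝ) : ℂ) := by
          apply Complex.ext
          · simp
          · simp [him]
        have h5 : ‖t‖ = t.re := by
          rw [h4, Complex.norm_real, Real.norm_of_nonneg hre, Complex.ofReal_re]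
        rw [h5]; exact h4
      have h4 : ‖t‖ = Real.exp (G c (f c z) - G c c) := by
        rw [ht, norm_div, norm_phi h2, norm_phi h0, Real.exp_sub]
      have h5 : phi c (f c z) = Complex.exp (((G c (f c z) : ℝ) : ℂ) +
          ((2 * Real.pi * θ : ℝ) : ℂ) * I) := by
        have h6 : phi c (f c z) = t * phi c c := by rw [ht, div_mul_cancel₀ _ hphi0]
        rw [h6, h3, h4, hphic, Complex.ofReal_exp, ← Complex.exp_add]
        push_cast
        congr 1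
        ring
      rw [eta, ← h5, psi_phi h2]

/-- **stability of the side** -/
theorem side_nhds {c₀ z₀ : ℂ} {θ₀ : ℝ} (h₀ : Ang c₀ θ₀) {e : ℤ} (hz₀ : Side c₀ (θ₀ + e) z₀) :
    ∃ δ > 0, ∀ᶠ p in 𝓝 (c₀, z₀), ∀ θ : ℝ, |θ - θ₀| < δ → Ang p.1 θ → Side p.1 (θ + e) p.2 := by
  have hpi := Real.pi_pos
  have hB := h₀.BD
  have hg := h₀.1
  obtain ⟨sq, hS⟩ := exists_SQ hB
  obtain ⟨hz1, hz2⟩ := (side_iff hB hS).1 hz₀
  set g : ℝ := G c₀ c₀ with hgdef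
  -- the end of the path
  set L₁ : ℂ := ((3 * g / 4 : ℝ) : ℂ) + ((Real.pi * (θ₀ + e) + Real.pi / 2 : ℝ) : ℂ) * I with hL₁
  have hL₁re : L₁.re = 3 * g / 4 := by simp [hL₁]
  have hL₁im : L₁.im = Real.pi * (θ₀ + e) + Real.pi / 2 := by simp [hL₁]
  set y₀ : ℂ := eta c₀ L₁ with hy₀
  -- the connected compact set
  set v₀ : ℂ := f c₀ z₀ with hv₀
  set I₁ : ℂ := ((Real.pi * (2 * (θ₀ + e)) + Real.pi : ℝ) : ℂ) * I with hI₁
  set v₁ : ℂ := eta c₀ (((3 * g / 4 : ℝ) : ℂ) + I₁) with hv₁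
  have hv₁U : v₁ ∈ Ug c₀ g := hB.E_mem (by simp [hI₁]; linarith) (by simp [hI₁]; linarith)
  have hv₀U : v₀ ∈ Ug c₀ g := hz1
  obtain ⟨γ, hγ⟩ := (isPathConnected_Ug hB).joinedIn v₀ hv₀U v₁ hv₁U
  set V : Set ℂ := range γ ∪ (fun r : ℝ => eta c₀ ((r : ℂ) + I₁)) '' Icc (3 * g / 4) (3 * g / 2)
    with hV
  have hVray : ∀ v ∈ V, v ∉ ray (eta c₀) g (2 * Real.pi * θ₀) := by
    rintro v (⟨t, rfl⟩ | ⟨r, hr, rfl⟩)
    · exact hB.Ug_ray (hγ t)
    · refine hB.E_ne_ray (by simp [hI₁]; linarith [hr.1]) fun k hk => ?_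
      have h1 : (((r : ℂ) + I₁)).im = Real.pi * (2 * (θ₀ + e)) + Real.pi := by simp [hI₁]
      rw [h1] at hk
      have h2 : Real.pi * (2 * (e : ℝ) + 1 - 2 * k) = 0 := by linarith
      rcases mul_eq_zero.1 h2 with h3 | h3
      · linarith
      · have h4 : (2 * e + 1 - 2 * k : ℤ) = 0 := by exact_mod_cast h3
        omega
  have hcη : ContinuousOn (fun r : ℝ => eta c₀ ((r : ℂ) + I₁)) (Icc (3 * g / 4) (3 * g / 2)) := by
    refine ContinuousOn.comp (t := {L : ℂ | g / 2 < L.re}) hB.hol.continuousOn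
      (f := fun r : ℝ => (r : ℂ) + I₁) (by fun_prop) fun r hr => ?_
    show g / 2 < ((r : ℂ) + I₁).re
    simp [hI₁]; linarith [hr.1]
  have hVc : IsCompact V := (isCompact_range γ.continuous).union (isCompact_Icc.image_of_continuousOn hcη)
  have hVp : IsPreconnected V := by
    refine IsPreconnected.union v₁ ⟨1, γ.target⟩ ⟨3 * g / 4, ⟨le_rfl, by linarith⟩, rfl⟩
      (isPreconnected_range γ.continuous) (isPreconnected_Icc.image _ hcη)
  have hVcont : ContinuousOn (sb sq e) V :=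
    (hS.differentiableOn_sb e).continuousOn.mono fun v hv => hVray v hv
  set S₀ : Set ℂ := sb sq e '' V with hS₀
  have hS₀c : IsCompact S₀ := hVc.image_of_continuousOn hVcont
  have hS₀p : IsPreconnected S₀ := hVp.image _ hVcont
  have hz₀S : z₀ ∈ S₀ := ⟨v₀, Or.inl ⟨0, γ.source⟩, hz2.symm⟩
  have hy₀S : y₀ ∈ S₀ := by
    refine ⟨eta c₀ (((3 * g / 2 : ℝ) : ℂ) + I₁), Or.inr ⟨3 * g / 2, ⟨by linarith, le_rfl⟩, rfl⟩, ?_⟩
    have h1 : ((3 * g / 2 : ℝ) : ℂ) + I₁ = 2 * L₁ := by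
      rw [hI₁, hL₁]; push_cast; ring
    rw [h1]
    exact SQ.sb_E hB hS (by rw [hL₁re]; linarith) e 0 (by rw [hL₁im]; simp; linarith)
      (by rw [hL₁im]; simp; linarith)
  have hS₀off : ({c₀} : Set ℂ) ×ˢ S₀ ⊆ OffRay := by
    rintro ⟨c, z⟩ ⟨hc, v, hv, rfl⟩
    rw [mem_singleton_iff] at hc
    simp only at hc
    subst hc
    rw [offRay_iff h₀, hS.f_sb (hVray v hv)]
    exact hVray v hv
  obtain ⟨u, U, hu, hU, hcu, hSU, huU⟩ := generalized_tube_lemma isCompact_singleton hS₀c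
    isOpen_OffRay hS₀off
  have hc₀u : c₀ ∈ u := hcu rfl
  obtain ⟨r₁, hr₁, hr₁U⟩ := Metric.isOpen_iff.1 hU z₀ (hSU hz₀S)
  obtain ⟨r₂, hr₂, hr₂U⟩ := Metric.isOpen_iff.1 hU y₀ (hSU hy₀S)
  set S : Set ℂ := (S₀ ∪ ball z₀ r₁) ∪ ball y₀ r₂ with hSdef
  have hSp : IsPreconnected S := by
    refine IsPreconnected.union y₀ (Or.inl hy₀S) (mem_ball_self hr₂) ?_
      (convex_ball y₀ r₂).isPreconnected
    exact IsPreconnected.union z₀ hz₀S (mem_ball_self hr₁) hS₀p (convex_ball z₀ r₁).isPreconnected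
  have hSsub : S ⊆ U := by
    rintro z ((hz | hz) | hz)
    · exact hSU hz
    · exact hr₁U hz
    · exact hr₂U hz
  -- eventual conditions
  have hevG : ∀ᶠ c in 𝓝 c₀, G c c / 2 < 3 * g / 4 := by
    have h1 : ContinuousAt (fun c : ℂ => G c c / 2) c₀ := (continuous_G_diag.div_const 2).continuousAt
    refine h1.eventually (gt_mem_nhds ?_)
    show G c₀ c₀ / 2 < 3 * g / 4
    rw [← hgdef]; linarith
  have hevη : ∀ᶠ c in 𝓝 c₀, eta c L₁ ∈ ball y₀ r₂ := by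
    have hopen : IsOpen {p : ℂ × ℂ | G p.1 0 < p.2.re} :=
      isOpen_lt continuous_G_zero' (continuous_re.comp continuous_snd)
    have hmem : ((c₀, L₁) : ℂ × ℂ) ∈ {p : ℂ × ℂ | G p.1 0 < p.2.re} := by
      show G c₀ 0 < L₁.re
      rw [G_zero_eq, hL₁re, ← hgdef]; linarith
    have h1 : ContinuousAt (fun p : ℂ × ℂ => eta p.1 p.2) (c₀, L₁) :=
      continuousOn_eta.continuousAt (hopen.mem_nhds hmem)
    have h2 : ContinuousAt (fun c : ℂ => ((c, L₁) : ℂ × ℂ)) c₀ := by fun_prop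
    have h3 : ContinuousAt (fun c : ℂ => eta c L₁) c₀ :=
      ContinuousAt.comp (f := fun c : ℂ => ((c, L₁) : ℂ × ℂ)) (x := c₀) h1 h2
    exact h3.eventually (ball_mem_nhds y₀ hr₂)
  have hev1 : ∀ᶠ p : ℂ × ℂ in 𝓝 (c₀, z₀), G p.1 (f p.1 p.2) < G p.1 p.1 :=
    (isOpen_lt continuous_G_crit continuous_G_diag').mem_nhds hz1
  have hev2 : ∀ᶠ p : ℂ × ℂ in 𝓝 (c₀, z₀), p.1 ∈ u ∧ G p.1 p.1 / 2 < 3 * g / 4 ∧
      eta p.1 L₁ ∈ ball y₀ r₂ := by
    have h1 : ∀ᶠ c in 𝓝 c₀, c ∈ u := hu.mem_nhds hc₀u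
    exact (continuous_fst.tendsto (c₀, z₀)).eventually (h1.and (hevG.and hevη))
  have hev3 : ∀ᶠ p : ℂ × ℂ in 𝓝 (c₀, z₀), p.2 ∈ ball z₀ r₁ :=
    (continuous_snd.tendsto (c₀, z₀)).eventually (ball_mem_nhds z₀ hr₁)
  refine ⟨1 / 4, by norm_num, ?_⟩
  filter_upwards [hev1, hev2, hev3] with p hp1 hp2 hp3 θ hθ hang
  obtain ⟨hpu, hpG, hpη⟩ := hp2
  have hBp := hang.BD
  obtain ⟨s', hS'⟩ := exists_SQ hBp
  rw [side_iff hBp hS']
  refine ⟨hp1, ?_⟩
  have hoff : ∀ z ∈ S, f p.1 z ∉ ray (eta p.1) (G p.1 p.1) (2 * Real.pi * θ) := by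
    intro z hz
    rw [← offRay_iff hang]
    exact huU ⟨hpu, hSsub hz⟩
  have hyside : OnSide p.1 s' e (eta p.1 L₁) := by
    have h1 := abs_lt.1 hθ
    refine onSide_E hBp hS' (by rw [hL₁re]; exact hpG) e 0 ?_ ?_
    · rw [hL₁im]; simp
      nlinarith
    · rw [hL₁im]; simp
      nlinarith
  exact onSide_const hS' hSp hoff (Or.inr hpη) (Or.inl (Or.inr hp3)) hyside

/-- **the angle is continuous** -/
theorem ang_nhds {c₀ : ℂ} {θ₀ : ℝ} (h₀ : Ang c₀ θ₀) {ε : ℝ} (hε : 0 < ε) :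
    ∀ᶠ c in 𝓝 c₀, ∃ θ : ℝ, |θ - θ₀| < ε ∧ Ang c θ := by
  have hpi := Real.pi_pos
  set L₀ : ℂ := (G c₀ c₀ : ℂ) + 2 * Real.pi * θ₀ * I with hL₀
  have hre : L₀.re = G c₀ c₀ := by simp [hL₀]
  have him : L₀.im = 2 * Real.pi * θ₀ := by simp [hL₀]
  have hL₀pos : 0 < L₀.re := by rw [hre]; exact h₀.1
  have hc₀ : cOf L₀ = c₀ := by
    refine cOf_unique ?_ ?_ h₀.2
    · have h1 : c₀ ∈ Mc := h₀.1
      exact mem_Mc_iff.1 h1
    · rw [hre, G_zero_eq]; linarith [h₀.1]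
  have hopen : IsOpen {L : ℂ | 0 < L.re} := isOpen_lt continuous_const continuous_re
  have hs : HasStrictDerivAt cOf (deriv cOf L₀) L₀ :=
    (differentiableOn_cOf.analyticAt (hopen.mem_nhds hL₀pos)).hasStrictDerivAt
  have hmap := hs.map_nhds_eq (deriv_cOf_ne_zero hL₀pos)
  rw [hc₀] at hmap
  have h1 : {L : ℂ | 0 < L.re ∧ |L.im - L₀.im| < 2 * Real.pi * ε} ∈ 𝓝 L₀ := by
    refine IsOpen.mem_nhds ?_ ⟨hL₀pos, ?_⟩
    · exact hopen.inter (isOpen_lt ((continuous_im.sub continuous_const).abs) continuous_const)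
    · simp; positivity
  have h2 := image_mem_map (m := cOf) h1
  rw [hmap] at h2
  filter_upwards [h2] with c hc
  obtain ⟨L, ⟨hL1, hL2⟩, rfl⟩ := hc
  have h3 := G_cOf hL1
  refine ⟨L.im / (2 * Real.pi), ?_, ?_⟩
  · rw [him] at hL2
    have h4 : L.im / (2 * Real.pi) - θ₀ = (L.im - 2 * Real.pi * θ₀) / (2 * Real.pi) := by
      field_simp
    rw [h4, abs_div, abs_of_pos (show 0 < 2 * Real.pi by positivity), div_lt_iff₀ (by positivity)]
    linarith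
  · refine ⟨by rw [h3]; exact hL1, ?_⟩
    rw [h3]
    have h4 : ((L.re : ℝ) : ℂ) + 2 * Real.pi * ((L.im / (2 * Real.pi) : ℝ) : ℂ) * I = L := by
      have h5 : (Real.pi : ℂ) ≠ 0 := by exact_mod_cast hpi.ne'
      push_cast
      have h6 : (2 : ℂ) * Real.pi * (L.im / (2 * Real.pi)) = L.im := by field_simp
      rw [h6]; exact re_add_im L
    rw [h4]
    exact eta_cOf hL1

/-- **stability of exterior pairs** -/
theorem extP_nhds {n : ℕ} (hn : 0 < n) {c₀ b₀ : ℂ} {θ₀ : ℝ} {w : ℕ → ℤ} (h : ExtP n c₀ b₀ θ₀ w)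
    {ε : ℝ} (hε : 0 < ε) : ∀ᶠ x in 𝓝 (c₀, b₀), it x.1 n x.2 = x.2 →
      ∃ θ : ℝ, |θ - θ₀| < ε ∧ ExtP n x.1 x.2 θ w := by
  have hside : ∀ i, ∃ δ > 0, ∀ᶠ p in 𝓝 (c₀, it c₀ i b₀), ∀ θ : ℝ, |θ - θ₀| < δ → Ang p.1 θ →
      Side p.1 (θ + w i) p.2 := fun i => side_nhds h.ang (h.2.2.2.2 i)
  choose δ hδ hev using hside
  obtain ⟨d, hd, hdle⟩ : ∃ d > 0, ∀ i < n, d ≤ δ i := by
    have hne : (Finset.range n).Nonempty := ⟨0, Finset.mem_range.2 hn⟩
    obtain ⟨j, hj, hmin⟩ := Finset.exists_min_image (Finset.range n) δ hne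
    exact ⟨δ j, hδ j, fun i hi => hmin i (Finset.mem_range.2 hi)⟩
  have hev' : ∀ᶠ x : ℂ × ℂ in 𝓝 (c₀, b₀), ∀ i ∈ Finset.range n, ∀ θ : ℝ, |θ - θ₀| < δ i →
      Ang x.1 θ → Side x.1 (θ + w i) (it x.1 i x.2) := by
    rw [Filter.eventually_all_finset]
    intro i _
    have hc : Continuous fun x : ℂ × ℂ => ((x.1, it x.1 i x.2) : ℂ × ℂ) :=
      continuous_fst.prodMk (continuous_it i)
    have ht : Tendsto (fun x : ℂ × ℂ => ((x.1, it x.1 i x.2) : ℂ × ℂ)) (𝓝 (c₀, b₀))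
        (𝓝 (c₀, it c₀ i b₀)) := hc.tendsto' _ _ rfl
    exact ht.eventually (hev i)
  have hang : ∀ᶠ x : ℂ × ℂ in 𝓝 (c₀, b₀), ∃ θ : ℝ, |θ - θ₀| < min ε d ∧ Ang x.1 θ :=
    (continuous_fst.tendsto (c₀, b₀)).eventually (ang_nhds h.ang (lt_min hε hd))
  filter_upwards [hev', hang] with x hx1 hx2 hx3
  obtain ⟨θ, hθ, hA⟩ := hx2
  refine ⟨θ, lt_of_lt_of_le hθ (min_le_left _ _), hA.1, hA.2, hx3, h.2.2.2.1, fun i => ?_⟩
  have h1 : ∀ m : ℕ, ∀ i : ℕ, it x.1 (i + n * m) x.2 = it x.1 i x.2 ∧ w (i + n * m) = w i := by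
    intro m i
    induction m with
    | zero => exact ⟨by simp, by simp⟩
    | succ m ih =>
      have h2 : i + n * (m + 1) = (i + n * m) + n := by ring
      rw [h2, Cnt.it_periodic hx3, h.2.2.2.1.per]
      exact ih
  have h2 : i = i % n + n * (i / n) := (Nat.mod_add_div i n).symm
  have h3 : i % n < n := Nat.mod_lt _ hn
  obtain ⟨h4, h5⟩ := h1 (i / n) (i % n)
  rw [h2, h4, h5]
  exact hx1 (i % n) (Finset.mem_range.2 h3) θ
    (lt_of_lt_of_le hθ ((min_le_right _ _).trans (hdle _ h3))) hA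

/-- **the label of exterior pairs is locally constant** where the rotation number is not an
integer -/
theorem extP_lab_nhds {n : ℕ} (hn : 0 < n) {c₀ b₀ : ℂ} {θ₀ : ℝ} {w : ℕ → ℤ}
    (h : ExtP n c₀ b₀ θ₀ w) (hν : ∀ k : ℤ, Circ.nu w n θ₀ ≠ k) :
    ∀ᶠ x in 𝓝 (c₀, b₀), ∀ (θ : ℝ) (w' : ℕ → ℤ), ExtP n x.1 x.2 θ w' →
      lab n θ w' = lab n θ₀ w := by
  set k := ⌊Circ.nu w n θ₀⌋ with hk
  have h1 : (k : ℝ) < Circ.nu w n θ₀ :=
    lt_of_le_of_ne (Int.floor_le _) fun h => hν k h.symm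
  have h2 : Circ.nu w n θ₀ < k + 1 := Int.lt_floor_add_one _
  have hc : ∀ᶠ θ in 𝓝 θ₀, (k : ℝ) < Circ.nu w n θ ∧ Circ.nu w n θ < k + 1 :=
    ((Circ.nu_continuous w n).tendsto θ₀).eventually (Ioo_mem_nhds h1 h2)
  obtain ⟨ε, hε, hε'⟩ := Metric.eventually_nhds_iff_ball.1 hc
  filter_upwards [extP_nhds hn h hε] with x hx θ' w' hx'
  obtain ⟨θ, hθ, hE⟩ := hx hx'.2.2.1
  rw [extP_lab_unique hE hx']
  refine lab_of_strip h.2.2.2.1 fun θ'' hθ'' j hj => ?_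
  have h3 : θ'' ∈ ball θ₀ ε := by
    rw [mem_ball, Real.dist_eq]
    have h4 := abs_lt.1 hθ
    rcases mem_uIcc.1 hθ'' with ⟨h5, h6⟩ | ⟨h5, h6⟩
    · rw [abs_lt]; constructor <;> linarith [h4.1, h4.2]
    · rw [abs_lt]; constructor <;> linarith [h4.1, h4.2]
  obtain ⟨h4, h5⟩ := hε' θ'' h3
  rw [hj] at h4 h5
  have h6 : k < j := by exact_mod_cast h4
  have h7 : j < k + 1 := by exact_mod_cast h5
  omega

end Pool.Agent.Work.MLC
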