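import Pool.Agent.Work.MLC.Final6

set_option autoImplicit false

/-! # Final assembly, threshold version (helper6; idea of the compactness argument: helper78)

There is an absolute constant `κ'` such that `M` is locally connected at `c₀` as soon as there are
arbitrarily large `n` and points `r` separating `c₀` from `0` in `M`, with a point of period
(dividing) `n` and multiplier `exp (2 π i p / q)`, and `n² q ≤ κ' min(p, q - p)²`. -/

namespace Pool.Agent.Work.MLC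

open Filter Topology Metric Set

/-- the root of a limb is in the boundary of `M` -/
theorem LimbData.root_frontier {M : Set ℂ} {x₀ : ℚ} {R A : ℝ} {c : ℂ → ℂ} {T : ℂ → ℚ → Prop}
    (h : LimbData M x₀ R A c T) (hM : IsClosed M) : c (axisPt x₀) ∈ frontier M := by
  have hcenR : axisPt x₀ ∈ ball (axisPt x₀) R := mem_ball_self h.R_pos
  have hrM : c (axisPt x₀) ∈ M := h.left _ hcenR (by rw [axisPt_re])
  rw [hM.frontier_eq]
  refine ⟨hrM, fun hint => ?_⟩
  -- a small disc is mapped into `M`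
  have h1 : c ⁻¹' M ∈ 𝓝 (axisPt x₀) :=
    (h.cont.continuousAt (isOpen_ball.mem_nhds hcenR)).preimage_mem_nhds
      (mem_interior_iff_mem_nhds.1 hint)
  obtain ⟨δ, hδ, hδs⟩ := Metric.mem_nhds_iff.1
    (inter_mem h1 (isOpen_ball.mem_nhds hcenR : ball (axisPt x₀) R ∈ 𝓝 (axisPt x₀)))
  set S : Set ℂ := ball (axisPt x₀) δ ∩ {L | 0 < L.re} with hS
  have hSconv : Convex ℝ S := (convex_ball _ _).inter (convex_halfSpace_re_gt 0)
  have hex : ∀ L ∈ S, ∃ x, T L x := fun L hL =>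
    h.T_ex L (hδs hL.1).2 hL.2 (hδs hL.1).1
  classical
  set X : ℂ → ℤ × ℕ := fun L => if hx : ∃ x, T L x then (hx.choose.num, hx.choose.den) else (0, 0)
    with hX
  have hXT : ∀ L x, T L x → X L = (x.num, x.den) := by
    intro L x hx
    have hx' : ∃ x, T L x := ⟨x, hx⟩
    have h2 : hx'.choose = x := h.T_uniq L _ _ hx'.choose_spec hx
    simp only [hX, dif_pos hx', h2]
  have hcont : ContinuousOn X S := by
    intro L hL
    obtain ⟨x, hx⟩ := hex L hL
    have h2 := h.T_open L (hδs hL.1).2 x hx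
    have h3 : ∀ᶠ L' in 𝓝[S] L, X L' = X L := by
      filter_upwards [mem_nhdsWithin_of_mem_nhds h2, self_mem_nhdsWithin] with L' h3 h4
      have h5 := h3 (hδs h4.1).1
      rw [hXT L x hx, hXT L' x h5]
    exact (continuousWithinAt_const (b := X L)).congr_of_eventuallyEq h3 rfl
  have hconst : ∀ L ∈ S, ∀ L' ∈ S, X L = X L' := fun L hL L' hL' =>
    hSconv.isPreconnected.constant hcont hL hL'
  -- points close to the imaginary axis
  have hpt : ∀ s t : ℝ, |s| < δ / 2 → 0 < t → t < δ / 2 →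
      axisPt x₀ + (s : ℂ) * Complex.I + (t : ℂ) ∈ S := by
    intro s t hs ht0 ht
    refine ⟨?_, ?_⟩
    · rw [mem_ball, dist_eq_norm]
      have h2 : axisPt x₀ + (s : ℂ) * Complex.I + (t : ℂ) - axisPt x₀ =
        (s : ℂ) * Complex.I + (t : ℂ) := by ring
      rw [h2]
      calc ‖(s : ℂ) * Complex.I + (t : ℂ)‖ ≤ ‖(s : ℂ) * Complex.I‖ + ‖(t : ℂ)‖ := norm_add_le _ _
        _ = |s| + |t| := by
            rw [norm_mul, Complex.norm_I, mul_one, Complex.norm_real, Complex.norm_real,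
              Real.norm_eq_abs, Real.norm_eq_abs]
        _ < δ := by rw [abs_of_pos ht0]; linarith
    · simp [axisPt_re, ht0]
  obtain ⟨x₁, hx₁⟩ := hex _ (hpt 0 (δ / 4) (by simpa using hδ) (by positivity) (by linarith))
  have hall : ∀ L ∈ S, T L x₁ := by
    intro L hL
    obtain ⟨x, hx⟩ := hex L hL
    have h2 := hconst _ hL _ (hpt 0 (δ / 4) (by simpa using hδ) (by positivity) (by linarith))
    rw [hXT _ _ hx, hXT _ _ hx₁, Prod.mk.injEq] at h2
    have h3 : x = x₁ := Rat.ext h2.1 h2.2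
    rw [← h3]; exact hx
  have hlim : ∀ s : ℝ, |s| < δ / 2 → axisPt x₀ + (s : ℂ) * Complex.I = axisPt x₁ := by
    intro s hs
    have h2 : ∀ᶠ t : ℝ in 𝓝[>] 0,
        ‖axisPt x₀ + (s : ℂ) * Complex.I + (t : ℂ) - axisPt x₁‖ ^ 2 ≤ A / x₁.den * t := by
      have h3 : ∀ᶠ t : ℝ in 𝓝[>] 0, t < δ / 2 :=
        mem_nhdsWithin_of_mem_nhds (gt_mem_nhds (by positivity : (0:ℝ) < δ / 2))
      filter_upwards [h3, self_mem_nhdsWithin] with t h4 h5
      have h6 := h.ply _ _ (hall _ (hpt s t hs h5 h4))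
      have h7 : (axisPt x₀ + (s : ℂ) * Complex.I + (t : ℂ)).re = t := by simp [axisPt_re]
      rwa [h7] at h6
    have h3 : Tendsto (fun t : ℝ => ‖axisPt x₀ + (s : ℂ) * Complex.I + (t : ℂ) - axisPt x₁‖ ^ 2)
        (𝓝[>] 0) (𝓝 (‖axisPt x₀ + (s : ℂ) * Complex.I + ((0 : ℝ) : ℂ) - axisPt x₁‖ ^ 2)) := by
      have : Continuous fun t : ℝ =>
        ‖axisPt x₀ + (s : ℂ) * Complex.I + (t : ℂ) - axisPt x₁‖ ^ 2 := by fun_prop
      exact this.continuousAt.tendsto.mono_left nhdsWithin_le_nhds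
    have h4 : Tendsto (fun t : ℝ => A / x₁.den * t) (𝓝[>] 0) (𝓝 (A / x₁.den * 0)) := by
      have : Continuous fun t : ℝ => A / x₁.den * t := by fun_prop
      exact this.continuousAt.tendsto.mono_left nhdsWithin_le_nhds
    have h5 := le_of_tendsto_of_tendsto h3 h4 h2
    rw [mul_zero] at h5
    have h6 : ‖axisPt x₀ + (s : ℂ) * Complex.I + ((0 : ℝ) : ℂ) - axisPt x₁‖ = 0 := by
      have := norm_nonneg (axisPt x₀ + (s : ℂ) * Complex.I + ((0 : ℝ) : ℂ) - axisPt x₁)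
      nlinarith
    have h7 := norm_eq_zero.1 h6
    push_cast at h7
    linear_combination h7
  have h2 := hlim 0 (by simpa using hδ)
  have h3 := hlim (δ / 4) (by rw [abs_of_pos (by positivity)]; linarith)
  rw [← h2] at h3
  have h4 : ((δ / 4 : ℝ) : ℂ) * Complex.I = 0 := by
    have : ((0 : ℝ) : ℂ) = 0 := rfl
    rw [this] at h3
    linear_combination h3
  have h5 := congrArg Complex.im h4
  simp at h5
  exact hδ.ne' h5

/-- the section and the limb data at a root -/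
theorem limb_piece {κ : ℝ} (hI : Inputs κ) {n p q : ℕ} {r b : ℂ}
    (hn : 0 < n) (hp : 0 < p) (hpq : p < q) (hcop : Nat.Coprime p q) (hb : it r n b = b)
    (hm : mul n (r, b) = Complex.exp (2 * Real.pi * (p / q) * Complex.I)) :
    ∃ (x : ℚ) (σ : ℂ → ℂ × ℂ) (T : ℂ → ℚ → Prop), x.den = q ∧ 
      0 < κ * (min (p : ℝ) (q - p)) ^ 2 / (q ^ 2 * n) ∧
      GoodDom n (ball (axisPt x) (κ * (min (p : ℝ) (q - p)) ^ 2 / (q ^ 2 * n))) ∧
      ContinuousOn σ (ball (axisPt x) (κ * (min (p : ℝ) (q - p)) ^ 2 / (q ^ 2 * n))) ∧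
      (∀ L ∈ ball (axisPt x) (κ * (min (p : ℝ) (q - p)) ^ 2 / (q ^ 2 * n)),
        σ L ∈ Per n ∧ mul n (σ L) = Complex.exp L) ∧
      σ (axisPt x) = (r, b) ∧
      LimbData MS x (κ * (min (p : ℝ) (q - p)) ^ 2 / (q ^ 2 * n)) (2 * n * Real.log 2)
        (fun L => (σ L).1) T := by
  have hκ := hI.κ_pos
  have hlog : 0 < Real.log 2 := Real.log_pos (by norm_num)
  have hq : 0 < q := hp.trans hpq
  have hq' : (0 : ℝ) < q := by exact_mod_cast hq
  have hn' : (0 : ℝ) < n := by exact_mod_cast hn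
  have hp' : (0 : ℝ) < p := by exact_mod_cast hp
  have hpq' : (p : ℝ) < q := by exact_mod_cast hpq
  set x : ℚ := (p : ℚ) / q with hx
  have hxr : (x : ℝ) = p / q := by rw [hx]; push_cast; rfl
  have hx0 : 0 < x := by
    have h1 : (0 : ℚ) < p := by exact_mod_cast hp
    have h2 : (0 : ℚ) < q := by exact_mod_cast hq
    exact div_pos h1 h2
  have hx1 : x < 1 := by
    have h2 : (0 : ℚ) < q := by exact_mod_cast hq
    rw [hx, div_lt_one h2]
    exact_mod_cast hpq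
  have hden : x.den = q := by
    have h1 := Rat.den_div_eq_of_coprime (a := (p : ℤ)) (b := (q : ℤ)) (by omega)
      (by simpa using hcop)
    have h2 : (((p : ℤ) : ℚ) / ((q : ℤ) : ℚ)) = x := by rw [hx]; push_cast; rfl
    rw [h2] at h1
    exact_mod_cast h1
  set m : ℝ := min (p : ℝ) (q - p) with hmdef
  have hm0 : 0 < m := lt_min hp' (by linarith)
  have hmin : min (x : ℝ) (1 - x) = m / q := by
    have h1 : 1 - (p : ℝ) / q = (q - p) / q := by field_simp
    rw [hxr, hmdef, h1, min_div_div_right hq'.le]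
  have hR0 : 0 < κ * m ^ 2 / (q ^ 2 * n) := by positivity
  have hRe : κ * (min (x : ℝ) (1 - x)) ^ 2 / n = κ * m ^ 2 / (q ^ 2 * n) := by
    rw [hmin]; field_simp
  have hG := hI.good n hn x hx0 hx1
  rw [hRe] at hG
  obtain ⟨T, hT⟩ := hI.rot n hn
  have hax : axisPt x = 2 * Real.pi * (p / q) * Complex.I := by
    unfold axisPt
    rw [hxr]; push_cast; ring
  have hPer : ((r, b) : ℂ × ℂ) ∈ Per n := hb
  obtain ⟨σ, hσ, hσ', hσ0⟩ := exists_section hG (convex_ball _ _) hPer (mem_ball_self hR0)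
    (by rw [hm, hax])
  have hA : 0 < 2 * n * Real.log 2 := by positivity
  have hL := limbData_of_section hR0 hA hG hσ hσ' hT (fun x hx hxM => hI.rep n hn x hx hxM)
  exact ⟨x, σ, _, hden, hR0, hG, hσ, hσ', hσ0, hL⟩

/-- local connectivity from small pieces -/
theorem lc_of_pieces (hconn : IsPreconnected MS) {c₀ : ℂ} (hc₀ : c₀ ∈ MS)
    (h : ∀ ε > 0, ∃ (n : ℕ) (r b : ℂ) (K : Set ℂ), 0 < n ∧ it r n b = b ∧ ‖mul n (r, b)‖ = 1 ∧
      K ⊆ MS ∧ IsCompact K ∧ IsPreconnected K ∧ r ∈ K ∧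
      (∀ z ∈ K, z ≠ r → K \ {r} ∈ 𝓝[MS] z) ∧ K ⊆ closedBall r ε ∧
      (∃ W : Set ℂ, W.Nonempty ∧ ∀ z ∈ MS, z ∉ K → W ⊆ connectedComponentIn (MS \ {r}) z) ∧
      r ≠ c₀ ∧ connectedComponentIn (MS \ {r}) c₀ ≠ connectedComponentIn (MS \ {r}) 0) :
    ∀ U ∈ 𝓝 c₀, ∃ V ⊆ U, V ⊆ MS ∧ IsCompact V ∧ IsConnected V ∧ V ∈ 𝓝[MS] c₀ := by
  intro U hU
  obtain ⟨δ, hδ, hδU⟩ := Metric.mem_nhds_iff.1 hU
  obtain ⟨n, r, b, K, hn, hb, hm, hKM, hKc, hKp, hrK, hKo, hKs, ⟨W, ⟨v, hv⟩, hW⟩, hrc, hne⟩ :=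
    h (min (δ / 4) (1 / 16)) (lt_min (by positivity) (by positivity))
  have h0M : (0 : ℂ) ∈ MS := ball_sub_MS (mem_ball_self (by norm_num))
  have hor : c₀ ∈ K ∨ (0 : ℂ) ∈ K := by
    by_contra hcon
    push Not at hcon
    exact hne ((connectedComponentIn_eq (hW c₀ hc₀ hcon.1 hv)).trans
      (connectedComponentIn_eq (hW 0 h0M hcon.2 hv)).symm)
  have hd1 := min_le_left (δ / 4) (1 / 16)
  have hd2 := min_le_right (δ / 4) (1 / 16)
  rcases hor with hcK | h0K
  · refine ⟨K, ?_, hKM, hKc, ⟨⟨r, hrK⟩, hKp⟩, ?_⟩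
    · intro z hz
      apply hδU
      have h1 := hKs hz
      have h2 := hKs hcK
      rw [mem_closedBall] at h1 h2
      rw [mem_ball]
      calc dist z c₀ ≤ dist z r + dist c₀ r := dist_triangle_right _ _ _
        _ < δ := by linarith
    · exact mem_of_superset (hKo c₀ hcK hrc.symm) sdiff_subset
  · exfalso
    have h1 := hKs h0K
    rw [mem_closedBall, dist_zero_left] at h1
    have hr8 : ball r (1 / 8) ⊆ MS := by
      intro z hz
      apply ball_sub_MS
      rw [mem_ball] at hz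
      rw [mem_ball_zero_iff]
      have h2 : ‖z‖ ≤ ‖z - r‖ + ‖r‖ := by
        have : z = (z - r) + r := by ring
        calc ‖z‖ = ‖(z - r) + r‖ := by rw [← this]
          _ ≤ _ := norm_add_le _ _
      rw [dist_eq_norm] at hz
      linarith
    have hpre := preconn_diff_interior hconn (by norm_num : (0 : ℝ) < 1 / 8) hr8
    have hr0 : r ≠ 0 := by
      rintro rfl
      exact mul_zero_norm_ne hn (b := b) hb hm
    have h3 : (0 : ℂ) ∈ MS \ {r} := ⟨h0M, fun h => hr0 h.symm⟩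
    have h4 : c₀ ∈ MS \ {r} := ⟨hc₀, fun h => hrc h.symm⟩
    apply hne
    have h5 : c₀ ∈ connectedComponentIn (MS \ {r}) 0 :=
      hpre.subset_connectedComponentIn h3 le_rfl h4
    exact (connectedComponentIn_eq h5).symm

/-- compactness input (helper78) -/
def T1Hyp : Prop := ∀ d > 0, ∃ e > 0, ∀ g : ℂ → ℂ, DifferentiableOn ℂ g (ball 0 1) →
  (∀ z ∈ ball (0 : ℂ) 1, ‖g z‖ ≤ 4) → (∀ z ∈ ball (0 : ℂ) 1, G (g z) (g z) ≤ e) →
  g 0 ∈ frontier MS → ∀ z : ℂ, ‖z‖ ≤ 1 / 2 → dist (g z) (g 0) ≤ d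

/-- **threshold version** -/
theorem mlc_threshold {κ : ℝ} (hI : Inputs κ) (hT1 : T1Hyp)
    (hK0 : ∀ c b : ℂ, ∀ n : ℕ, 0 < G c c → 0 < n → it c n b = b →
      n * G c c / 2 ≤ Real.log ‖mul n (c, b)‖) {c₀ : ℂ} (hc₀ : c₀ ∈ MS)
    (h : ∀ N : ℕ, ∃ (n p q : ℕ) (r b : ℂ), N ≤ n ∧ 0 < n ∧ 0 < p ∧ p < q ∧ Nat.Coprime p q ∧
      it r n b = b ∧ mul n (r, b) = Complex.exp (2 * Real.pi * (p / q) * Complex.I) ∧
      4 * Real.log 2 * (n : ℝ) ^ 2 * q ≤ κ * (min (p : ℝ) (q - p)) ^ 2 ∧ r ≠ c₀ ∧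
      connectedComponentIn (MS \ {r}) c₀ ≠ connectedComponentIn (MS \ {r}) 0) :
    ∀ U ∈ 𝓝 c₀, ∃ V ⊆ U, V ⊆ MS ∧ IsCompact V ∧ IsConnected V ∧ V ∈ 𝓝[MS] c₀ := by
  have hκ := hI.κ_pos
  have hlog : 0 < Real.log 2 := Real.log_pos (by norm_num)
  refine lc_of_pieces hI.conn hc₀ fun ε hε => ?_
  obtain ⟨e, he, hT⟩ := hT1 ε hε
  obtain ⟨N, hN⟩ := exists_nat_gt (κ / e)
  obtain ⟨n, p, q, r, b, hNn, hn, hp, hpq, hcop, hb, hm, hsm, hrc, hne⟩ := h N
  obtain ⟨x, σ, T, hden, hR0, hG, hσ, hσ', hσ0, hL⟩ := limb_piece hI hn hp hpq hcop hb hm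
  have hq : 0 < q := hp.trans hpq
  have hq' : (0 : ℝ) < q := by exact_mod_cast hq
  have hn' : (0 : ℝ) < n := by exact_mod_cast hn
  have hn1 : (1 : ℝ) ≤ n := by exact_mod_cast hn
  have hp' : (0 : ℝ) < p := by exact_mod_cast hp
  have hpq' : (p : ℝ) < q := by exact_mod_cast hpq
  set m : ℝ := min (p : ℝ) (q - p) with hmdef
  have hm0 : 0 < m := lt_min hp' (by linarith)
  have hmq : m ≤ q := (min_le_right _ _).trans (by linarith)
  set R : ℝ := κ * m ^ 2 / (q ^ 2 * n) with hR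
  have hAR : 2 * (2 * n * Real.log 2 / x.den) ≤ R := by
    rw [hden, hR, ← mul_div_assoc, div_le_div_iff₀ hq' (by positivity)]
    have : 2 * (2 * n * Real.log 2) * (q ^ 2 * n) = (4 * Real.log 2 * n ^ 2 * q) * q := by ring
    rw [this]
    gcongr
  have hA0 : 0 < 2 * n * Real.log 2 / x.den := by rw [hden]; positivity
  have hadm : LimbData.Adm x R (2 * n * Real.log 2) x := by
    unfold LimbData.Adm
    rw [sub_self, abs_zero, mul_zero, add_zero]
    linarith
  have hr1 : (σ (axisPt x)).1 = r := by rw [hσ0]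
  have hRn : 2 * R / n ≤ e := by
    have h1 : κ / e < n := hN.trans_le (by exact_mod_cast hNn)
    have h2 : κ < n * e := by rwa [div_lt_iff₀ he] at h1
    have h3 : m ≤ q / 2 := by
      have h4 := min_le_left (p : ℝ) (q - p)
      have h5 := min_le_right (p : ℝ) (q - p)
      linarith
    have h4 : m ^ 2 ≤ (q : ℝ) ^ 2 / 4 := by
      calc m ^ 2 ≤ ((q : ℝ) / 2) ^ 2 := by gcongr
        _ = (q : ℝ) ^ 2 / 4 := by ring
    have h5 : R ≤ κ / (4 * n) := by
      rw [hR, div_le_div_iff₀ (by positivity) (by positivity)]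
      nlinarith [mul_pos hκ hn']
    rw [div_le_iff₀ hn']
    have h6 : κ / (4 * n) ≤ κ / 4 := by
      apply div_le_div_of_nonneg_left hκ.le (by norm_num)
      linarith
    nlinarith
  refine ⟨n, r, b, _, hn, hb, ?_, hL.K_sub hadm, hL.isCompact_K hI.cpt.isClosed hadm,
    hL.K_conn hI.cpt.isClosed hI.conn hadm, Or.inl hr1.symm, ?_, ?_, ?_, hrc, hne⟩
  · rw [hm, Complex.norm_exp]
    simp
  · intro z hz hzr
    have h1 := hL.K_open hadm hz (by rw [hr1]; exact hzr)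
    rwa [hr1] at h1
  · -- the size of `K`
    set g : ℂ → ℂ := fun w => (σ (axisPt x + R * w)).1 with hg
    have hmapsD : ∀ w ∈ ball (0 : ℂ) 1, axisPt x + R * w ∈ ball (axisPt x) R := by
      intro w hw
      rw [mem_ball_zero_iff] at hw
      rw [mem_ball, dist_eq_norm, add_sub_cancel_left, norm_mul, Complex.norm_real,
        Real.norm_eq_abs, abs_of_pos hR0]
      nlinarith
    have hgd : DifferentiableOn ℂ g (ball 0 1) := by
      have h1 : DifferentiableOn ℂ (fun L => (σ L).1) (ball (axisPt x) R) :=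
        section_differentiableOn hG hσ hσ'
      exact h1.comp (by fun_prop) hmapsD
    have hg4 : ∀ w ∈ ball (0 : ℂ) 1, ‖g w‖ ≤ 4 := by
      intro w hw
      obtain ⟨h3, h4⟩ := hσ' _ (hmapsD w hw)
      exact (Per_bdd hn h3 (by rw [h4]; exact hG.lt _ (hmapsD w hw))).1
    have hge : ∀ w ∈ ball (0 : ℂ) 1, G (g w) (g w) ≤ e := by
      intro w hw
      obtain ⟨h3, h4⟩ := hσ' _ (hmapsD w hw)
      rcases (G_nonneg (g w) (g w)).eq_or_lt with h5 | h5
      · rw [← h5]; exact he.le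
      · have h6 := hK0 (g w) (σ (axisPt x + R * w)).2 n h5 hn h3
        have h7 : mul n (g w, (σ (axisPt x + R * w)).2) = Complex.exp (axisPt x + R * w) := h4
        rw [h7, Complex.norm_exp, Real.log_exp] at h6
        have h8 : (axisPt x + (R : ℂ) * w).re ≤ R := by
          have h9 := hmapsD w hw
          rw [mem_ball, dist_eq_norm] at h9
          have h10 := (Complex.re_le_norm (axisPt x + (R : ℂ) * w - axisPt x)).trans h9.le
          rwa [Complex.sub_re, LimbData.axisPt_re, sub_zero] at h10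
        calc G (g w) (g w) = 2 * (n * G (g w) (g w) / 2) / n := by field_simp
          _ ≤ 2 * R / n := by gcongr; exact h6.trans h8
          _ ≤ e := hRn
    have hg0 : g 0 = r := by simp only [hg, mul_zero, add_zero]; exact hr1
    have hfr : g 0 ∈ frontier MS := by
      have h1 := hL.root_frontier hI.cpt.isClosed
      rw [hg0, ← hr1]; exact h1
    have hfin := hT g hgd hg4 hge hfr
    rw [LimbData.K_eq]
    rintro _ ⟨L, hLP, rfl⟩
    have h1 := hL.P_sub x hLP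
    rw [mem_closedBall, dist_eq_norm] at h1
    have h2 : ‖(L - axisPt x) / R‖ ≤ 1 / 2 := by
      rw [norm_div, Complex.norm_real, Real.norm_eq_abs, abs_of_pos hR0, div_le_iff₀ hR0]
      linarith
    have h3 := hfin _ h2
    have h4 : g ((L - axisPt x) / R) = (σ L).1 := by
      simp only [hg]
      have hRc : (R : ℂ) ≠ 0 := by exact_mod_cast hR0.ne'
      rw [mul_div_cancel₀ _ hRc, add_sub_cancel]
    rw [h4, hg0] at h3
    exact h3
  · have h1 := hL.main hI.cpt hI.conn hadm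
    rwa [hr1] at h1

end Pool.Agent.Work.MLC
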