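import Pool.Agent.Work.MLC.Curve57

set_option autoImplicit false

/-! # Simplicity of the centers (Gleason) and local injectivity of the multiplier at the centers
(helper51) -/

namespace Pool.Agent.Work.MLC.Hyp

open Filter Topology Metric Set Polynomial

/-- the polynomial `f_c^n (0)` in `c` over the integers -/
noncomputable def gp : ℕ → ℤ[X]
  | 0 => 0
  | n + 1 => gp n ^ 2 + X

lemma gp_succ (n : ℕ) : gp (n + 1) = gp n ^ 2 + X := rfl

lemma aeval_gp (c : ℂ) (n : ℕ) : aeval c (gp n) = it c n 0 := by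
  induction n with
  | zero => simp [gp]
  | succ n ih => rw [gp_succ, map_add, map_pow, ih, aeval_X, it_succ]; rfl

lemma aeval_der_succ (c : ℂ) (k : ℕ) : aeval c (derivative (gp (k + 1))) =
    2 * (aeval c (gp k) * aeval c (derivative (gp k))) + 1 := by
  rw [gp_succ, sq, derivative_add, derivative_mul, derivative_X]
  simp only [map_add, map_mul, map_one]
  ring

lemma integral_aeval {c : ℂ} (hc : IsIntegral ℤ c) (p : ℤ[X]) : IsIntegral ℤ (aeval c p) := by
  have h := (aeval (⟨c, hc⟩ : integralClosure ℤ ℂ) p).2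
  rw [mem_integralClosure_iff] at h
  have e : ((aeval (⟨c, hc⟩ : integralClosure ℤ ℂ) p : integralClosure ℤ ℂ) : ℂ) = aeval c p :=
    (Subalgebra.aeval_coe _ _ _).symm
  rw [← e]
  exact h

lemma gp_monic (n : ℕ) : (gp (n + 1)).Monic ∧ (gp (n + 1)).natDegree = 2 ^ n := by
  induction n with
  | zero =>
    have h : gp 1 = X := by simp [gp]
    rw [h]
    exact ⟨monic_X, by simp⟩
  | succ n ih =>
    have h1 : (gp (n + 1) ^ 2).Monic := ih.1.pow 2
    have h2 : (gp (n + 1) ^ 2).natDegree = 2 ^ (n + 1) := by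
      rw [ih.1.natDegree_pow, ih.2]; ring
    have h3 : (X : ℤ[X]).degree < (gp (n + 1) ^ 2).degree := by
      rw [degree_eq_natDegree h1.ne_zero, h2, degree_X]
      have : 1 < 2 ^ (n + 1) := Nat.one_lt_two_pow (by omega)
      exact_mod_cast this
    refine ⟨?_, ?_⟩
    · rw [gp_succ]; exact h1.add_of_left h3
    · rw [gp_succ, natDegree_add_eq_left_of_degree_lt h3, h2]

lemma not_integral_half : ¬ IsIntegral ℤ (2⁻¹ : ℂ) := by
  intro h
  have e : (2⁻¹ : ℂ) = algebraMap ℚ ℂ 2⁻¹ := by simp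
  rw [e, isIntegral_algebraMap_iff (algebraMap ℚ ℂ).injective] at h
  obtain ⟨y, hy⟩ := (IsIntegrallyClosed.isIntegral_iff (R := ℤ) (K := ℚ)).1 h
  have h1 : (y : ℚ) = 2⁻¹ := by simpa using hy
  have h2 : (2 : ℚ) * y = 1 := by rw [h1]; norm_num
  have h3 : 2 * y = 1 := by exact_mod_cast h2
  omega

/-- **Gleason**: the zeros of `c ↦ f_c^n (0)` are simple -/
theorem gleason {n : ℕ} (hn : 0 < n) {c : ℂ} (h : it c n 0 = 0) :
    aeval c (derivative (gp n)) ≠ 0 := by
  obtain ⟨m, rfl⟩ : ∃ m, n = m + 1 := ⟨n - 1, by omega⟩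
  intro h0
  have hc : IsIntegral ℤ c := by
    refine ⟨gp (m + 1), (gp_monic m).1, ?_⟩
    have := aeval_gp c (m + 1)
    rw [h] at this
    exact this
  rw [aeval_der_succ] at h0
  have h2 : (2⁻¹ : ℂ) = - (aeval c (gp m) * aeval c (derivative (gp m))) := by
    have h3 : (2 : ℂ) * (aeval c (gp m) * aeval c (derivative (gp m))) = -1 := by linear_combination h0
    have h4 : aeval c (gp m) * aeval c (derivative (gp m)) = -1 / 2 := by
      rw [eq_div_iff (by norm_num)]
      linear_combination h3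
    rw [h4]; norm_num
  apply not_integral_half
  rw [h2]
  exact ((integral_aeval hc _).mul (integral_aeval hc _)).neg

/-- derivative along a curve through the critical point -/
lemma deriv_branch {γ : ℂ → ℂ} {g' c₀ : ℂ} (hγ : HasDerivAt γ g' c₀) (h0 : γ c₀ = 0) (k : ℕ) :
    HasDerivAt (fun c => it c k (γ c))
      (aeval c₀ (derivative (gp k)) + (∏ j ∈ Finset.range k, 2 * it c₀ j 0) * g') c₀ := by
  induction k with
  | zero => simpa [gp] using hγ
  | succ k ih =>
    have h1 : HasDerivAt (fun c => (it c k (γ c)) ^ 2 + c)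
        (2 * it c₀ k (γ c₀) * (aeval c₀ (derivative (gp k)) +
          (∏ j ∈ Finset.range k, 2 * it c₀ j 0) * g') + 1) c₀ := by
      have := (ih.fun_pow 2).fun_add (hasDerivAt_id' c₀)
      simpa using this
    have h2 : (fun c => it c (k + 1) (γ c)) = fun c => (it c k (γ c)) ^ 2 + c := by
      funext c; rw [it_succ]; rfl
    rw [h2]
    convert h1 using 1
    rw [aeval_der_succ, Finset.prod_range_succ, h0, ← aeval_gp c₀ k]
    ring

/-- the derivative of the periodic point which is critical at a center is not zero -/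
lemma branch_deriv_ne {n : ℕ} (hn : 0 < n) {γ : ℂ → ℂ} {g' c₀ : ℂ} (hγ : HasDerivAt γ g' c₀)
    (h0 : γ c₀ = 0) (he : ∀ᶠ c in 𝓝 c₀, it c n (γ c) = γ c) : g' ≠ 0 := by
  have h1 := deriv_branch hγ h0 n
  have hz : (∏ j ∈ Finset.range n, 2 * it c₀ j 0) = 0 :=
    Finset.prod_eq_zero (Finset.mem_range.2 hn) (by simp)
  rw [hz, zero_mul, add_zero] at h1
  have h2 := (h1.congr_of_eventuallyEq (he.mono fun c hc => hc.symm)).unique hγ
  rw [← h2]
  refine gleason hn ?_
  have := he.self_of_nhds
  rw [h0] at this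
  exact this

/-- **local injectivity of the multiplier at the centers** -/
theorem locInj_center {n : ℕ} (hn : 0 < n) {x₀ : ℂ × ℂ} (hx : x₀ ∈ Per n)
    (hp : ∀ d, 0 < d → d < n → it x₀.1 d x₀.2 ≠ x₀.2) (h0 : mul n x₀ = 0) : LocInj n x₀ := by
  have h1 : mul n x₀ ≠ 1 := by rw [h0]; exact zero_ne_one
  have h23 : ‖mul n x₀‖ < 23 / 10 := by rw [h0]; norm_num
  obtain ⟨β, hβ, hβ0, hβe, hg, hnc⟩ := good_chart hn hx h1 h23
  have ht := chart_tendsto hβ hβ0
  -- the critical index
  have h2 : ∃ i ∈ Finset.range n, 2 * it x₀.1 i x₀.2 = 0 := by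
    unfold mul at h0
    exact Finset.prod_eq_zero_iff.1 h0
  obtain ⟨i, hi, hi0⟩ := h2
  have hi1 : it x₀.1 i x₀.2 = 0 := by simpa using hi0
  rw [Finset.mem_range] at hi
  have huniq : ∀ j, j < n → j ≠ i → it x₀.1 j x₀.2 ≠ 0 := by
    have key : ∀ a b : ℕ, a < b → b < n → it x₀.1 a x₀.2 = 0 → it x₀.1 b x₀.2 = 0 → False := by
      intro a b hab hb ha0 hb0
      -- period `b - a`
      have e1 : it x₀.1 (b - a) 0 = 0 := by
        rw [← ha0, ← it_add]
        have : b - a + a = b := by omega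
        rw [this, hb0, ha0]
      have e2 : it x₀.1 (n - a) 0 = x₀.2 := by
        rw [← ha0, ← it_add]
        have : n - a + a = n := by omega
        rw [this]
        exact hx
      refine hp (b - a) (by omega) (by omega) ?_
      rw [← e2, ← it_add, add_comm, it_add, e1]
    intro j hj hji hj0
    rcases lt_or_gt_of_ne hji with h | h
    · exact key j i h hi hj0 hi1
    · exact key i j h hj hi1 hj0
  -- derivatives of the factors
  have hdiff : ∀ j, DifferentiableAt ℂ (fun c => it c j (β c)) x₀.1 := by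
    intro j
    have h3 : Differentiable ℂ fun p : ℂ × ℂ => it p.1 j p.2 :=
      (contDiff_it j).differentiable (by simp)
    exact DifferentiableAt.comp (g := fun p : ℂ × ℂ => it p.1 j p.2) x₀.1
      h3.differentiableAt (differentiableAt_id.prodMk hβ.differentiableAt)
  have hfac : ∀ j ∈ Finset.range n, HasDerivAt (fun c => 2 * it c j (β c))
      (2 * deriv (fun c => it c j (β c)) x₀.1) x₀.1 := fun j _ =>
    ((hdiff j).hasDerivAt).const_mul 2
  have hprod := HasDerivAt.fun_finsetProd hfac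
  have hi' : deriv (fun c => it c i (β c)) x₀.1 ≠ 0 := by
    refine branch_deriv_ne hn (hdiff i).hasDerivAt (by rw [hβ0]; exact hi1) ?_
    filter_upwards [ht.eventually hβe] with c hc
    have h4 : it c n (β c) = β c := hc.2 rfl
    rw [← it_add, add_comm, it_add, h4]
  have hsum : (∑ j ∈ Finset.range n, (∏ k ∈ (Finset.range n).erase j, 2 * it x₀.1 k (β x₀.1)) •
      (2 * deriv (fun c => it c j (β c)) x₀.1)) ≠ 0 := by
    rw [Finset.sum_eq_single i]
    · rw [smul_eq_mul]
      refine mul_ne_zero ?_ (mul_ne_zero two_ne_zero hi')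
      rw [Finset.prod_ne_zero_iff]
      intro k hk
      rw [Finset.mem_erase, Finset.mem_range] at hk
      rw [hβ0]
      exact mul_ne_zero two_ne_zero (huniq k hk.2 hk.1)
    · intro j hj hji
      have : (∏ k ∈ (Finset.range n).erase j, 2 * it x₀.1 k (β x₀.1)) = 0 := by
        refine Finset.prod_eq_zero (Finset.mem_erase.2 ⟨hji.symm, Finset.mem_range.2 hi⟩) ?_
        rw [hβ0, hi1, mul_zero]
      rw [this, zero_smul]
    · intro h; exact absurd (Finset.mem_range.2 hi) h
  refine LocInj.of_deriv hβe hg ?_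
  have h5 : (fun c => mul n (c, β c)) = fun c => ∏ j ∈ Finset.range n, 2 * it c j (β c) := rfl
  rw [h5, hprod.deriv]
  exact hsum

end Pool.Agent.Work.MLC.Hyp
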