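import Pool.Agent.Work.MLC.Stab4b
import Pool.Agent.Work.MLC.Lin

set_option autoImplicit false

/-! # Stability of landing angles near a repelling point of a parameter in the Mandelbrot set
(helper4), in terms of the common definitions. -/

namespace Pool.Agent.Work.MLC

open Filter Topology Metric Set

/-- all doublings of a landing angle lie in the open half circles of the itinerary; no exact
period is needed -/
theorem compat_of_lands' {c b : ℂ} {θ β : ℝ} {w : ℕ → ℤ} (hc : 0 < G c c)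
    (hθ : eta c ((G c c : ℂ) + 2 * Real.pi * θ * Complex.I) = c)
    (hS : ∀ i, Side c (θ + w i) (it c i b)) (hL : Lands c β b) : Compat β θ w := by
  obtain ⟨R, hR⟩ := hL
  intro i
  exact half_of_side (hR.push_it i) hc hθ rfl (hS i)

/-- (5e') half circles, per point -/
theorem inHalfO_of_side {c z : ℂ} {θ a : ℝ} {e : ℤ} (hc : 0 < G c c)
    (hθ : eta c ((G c c : ℂ) + 2 * Real.pi * θ * Complex.I) = c)
    (hS : Side c (θ + e) z) (hL : Lands c a z) : Circ.InHalfO (θ + e) a := by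
  obtain ⟨R, hR⟩ := hL
  exact half_of_side hR hc hθ rfl hS

lemma eR_eq (c : ℂ) (β x : ℝ) : eta c ((x : ℂ) + 2 * Real.pi * β * Complex.I) = eR c β x := by
  unfold eR
  congr 1
  ring

theorem PerAngle.exists_pow {n q : ℕ} {β : ℝ} (h : PerAngle n q β) :
    ∃ m : ℤ, 2 ^ (n * q) * β = β + m := by
  obtain ⟨-, ⟨k, hk⟩, -⟩ := h
  exact ⟨k, by linarith⟩

/-- `Land` (for `c ∈ MM`) gives an extended ray -/
theorem Land.lands {n q : ℕ} {c b : ℂ} {β : ℝ} (hM : G c 0 = 0) (h : Land n c b β q) :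
    Lands c β b := by
  obtain ⟨-, h2⟩ := h
  simp only [eR_eq] at h2
  exact ⟨_, Ray.of_mem hM h2⟩

theorem land_of_lands {n q : ℕ} {c b : ℂ} {β : ℝ} (hM : G c 0 = 0) (hq : PerAngle n q β)
    (h : Lands c β b) : Land n c b β q := by
  refine ⟨hq, ?_⟩
  simp only [eR_eq]
  obtain ⟨R, hR⟩ := h
  refine hR.lands.congr' ?_
  filter_upwards [self_mem_nhdsWithin] with t ht
  exact hR.far (by rw [hM]; exact ht)

/-- **Stability (5e)**: a periodic ray landing at a repelling point of period `n` of a parameter of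
the Mandelbrot set lands at the continuation of the point for all nearby parameters, in or out of
the Mandelbrot set. -/
theorem lands_nhds {n q : ℕ} (hn : 0 < n) {c₀ b₀ : ℂ} {β : ℝ} (hM : G c₀ 0 = 0)
    (hfix : it c₀ n b₀ = b₀) (hρ : 1 < ‖mult n c₀ b₀‖) (hL : Land n c₀ b₀ β q) :
    ∀ᶠ x : ℂ × ℂ in 𝓝 (c₀, b₀), it x.1 n x.2 = x.2 → Lands x.1 β x.2 := by
  obtain ⟨m, hm⟩ := hL.1.exists_pow
  have hq : 0 < q := hL.1.1
  have hmul : ∀ j : ℕ, deriv (it c₀ (n * j)) b₀ = mult n c₀ b₀ ^ j := by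
    intro j
    induction j with
    | zero =>
      have : it c₀ (n * 0) = id := by funext x; rfl
      rw [this]; simp
    | succ j ih =>
      have hfixj : it c₀ (n * j) b₀ = b₀ := by
        rw [it_mul]
        exact Function.iterate_fixed hfix j
      have h1 : it c₀ (n * (j + 1)) = fun z => it c₀ n (it c₀ (n * j) z) := by
        funext z
        have : n * (j + 1) = n + n * j := by ring
        rw [this, it_add]
      have h2 : HasDerivAt (it c₀ (n * j)) (mult n c₀ b₀ ^ j) b₀ := by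
        rw [← ih]; exact (differentiable_it_right c₀ _ _).hasDerivAt
      have h3 : HasDerivAt (it c₀ n) (mult n c₀ b₀) (it c₀ (n * j) b₀) := by
        rw [hfixj]; exact hasDerivAt_it_mult c₀ n b₀
      have h4 := h3.comp b₀ h2
      rw [h1]
      have h5 : HasDerivAt (fun z => it c₀ n (it c₀ (n * j) z))
          (mult n c₀ b₀ * mult n c₀ b₀ ^ j) b₀ := h4
      rw [h5.deriv, pow_succ]; ring
  have hρ' : 1 < ‖deriv (it c₀ (n * q)) b₀‖ := by
    rw [hmul q, norm_pow]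
    exact one_lt_pow₀ hρ hq.ne'
  obtain ⟨r₀, hr₀, hst⟩ := ray_stable (Nat.mul_pos hn hq) hm hM (hL.lands hM) hρ'
  obtain ⟨δ, hδ, hst'⟩ := hst r₀ hr₀ le_rfl
  have h1 : ∀ᶠ x : ℂ × ℂ in 𝓝 (c₀, b₀), x.1 ∈ ball c₀ δ ∧ x.2 ∈ closedBall b₀ r₀ := by
    have e1 : ∀ᶠ x : ℂ × ℂ in 𝓝 (c₀, b₀), x.1 ∈ ball c₀ δ :=
      continuous_fst.continuousAt.eventually (ball_mem_nhds c₀ hδ)
    have e2 : ∀ᶠ x : ℂ × ℂ in 𝓝 (c₀, b₀), x.2 ∈ closedBall b₀ r₀ :=
      continuous_snd.continuousAt.eventually (closedBall_mem_nhds b₀ hr₀)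
    exact e1.and e2
  filter_upwards [h1] with x hx hxn
  refine (hst' x.1 hx.1).2 x.2 hx.2 ?_
  rw [it_mul]
  exact Function.iterate_fixed hxn q

/-- (5e) in the form used for the strip map -/
theorem land_nhds {n q : ℕ} (hn : 0 < n) {c₀ b₀ : ℂ} {β : ℝ} (hM : G c₀ 0 = 0)
    (hfix : it c₀ n b₀ = b₀) (hρ : 1 < ‖mult n c₀ b₀‖) (hL : Land n c₀ b₀ β q) :
    ∀ᶠ x : ℂ × ℂ in 𝓝 (c₀, b₀), it x.1 n x.2 = x.2 →
      (G x.1 0 = 0 → Land n x.1 x.2 β q) ∧
      ∀ (θ : ℝ) (w : ℕ → ℤ), 0 < G x.1 x.1 →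
        eta x.1 ((G x.1 x.1 : ℂ) + 2 * Real.pi * θ * Complex.I) = x.1 →
        (∀ i, Side x.1 (θ + w i) (it x.1 i x.2)) → Compat β θ w := by
  filter_upwards [lands_nhds hn hM hfix hρ hL] with x hx hxn
  exact ⟨fun hM' => land_of_lands hM' hL.1 (hx hxn),
    fun θ w h1 h2 h3 => compat_of_lands' h1 h2 h3 (hx hxn)⟩

end Pool.Agent.Work.MLC
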