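import Pool.Agent.Work.MLC.Defs

set_option autoImplicit false

/-! # Strips: rotation number of compatible angles, the relation `SameStrip`  (helper54) -/

namespace Pool.Agent.Work.MLC

open Set

/-! ### (a) compatible angles -/

/-- a compatible periodic angle determines the rotation number, in lowest terms -/
theorem nu_of_compat {n q : ℕ} {β θ : ℝ} {w : ℕ → ℤ} (hβ : PerAngle n q β)
    (hw : ∀ i, w (i + n) = w i) (h : Compat β θ w) :
    ∃ P : ℤ, IsCoprime P (q : ℤ) ∧ Circ.nu w n θ = P / q := by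
  obtain ⟨hq, hk, hex⟩ := hβ
  obtain ⟨p, hp, _, hp2⟩ := Circ.nu_of_compat_coprime w θ β n q hq hw h hk
    (fun j h0 hj m hm => hex j h0 hj ⟨m, hm⟩)
  exact ⟨p, hp, hp2⟩

/-- the return map of a compatible periodic angle -/
theorem gw_of_compat {n q : ℕ} {β θ : ℝ} {w : ℕ → ℤ} (hβ : PerAngle n q β)
    (hw : ∀ i, w (i + n) = w i) (h : Compat β θ w) :
    ∃ P : ℤ, IsCoprime P (q : ℤ) ∧ (Circ.gw w θ n ^ q) β = β + P ∧ Circ.nu w n θ = P / q := by
  obtain ⟨hq, hk, hex⟩ := hβ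
  exact Circ.nu_of_compat_coprime w θ β n q hq hw h hk (fun j h0 hj m hm => hex j h0 hj ⟨m, hm⟩)

theorem nu_ne_int_of_compat {n q : ℕ} (hq : 2 ≤ q) {β θ : ℝ} {w : ℕ → ℤ} (hβ : PerAngle n q β)
    (hw : ∀ i, w (i + n) = w i) (h : Compat β θ w) (k : ℤ) : Circ.nu w n θ ≠ k := by
  obtain ⟨_, hk, hex⟩ := hβ
  exact Circ.nu_not_int_of_compat w θ β n q hq hw h hk
    (fun j h0 hj m hm => hex j h0 hj ⟨m, hm⟩) k

/-! ### (c) translation -/

theorem nu_parity {w w' : ℕ → ℤ} {m : ℤ} (h : ∀ i, Even (w' i - w i - m)) (n : ℕ) :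
    ∃ k : ℤ, ∀ θ : ℝ, Circ.nu w' n θ = Circ.nu w n (θ + m) + k := by
  choose u hu using h
  refine ⟨∑ i ∈ Finset.range n, u i, fun θ => ?_⟩
  have e : w' = fun i => (w i + m) + 2 * u i := by
    funext i; have := hu i; omega
  have h1 := Circ.nu_shift (fun i => w i + m) u θ n
  rw [e, h1, Circ.nu_add_theta]
  push_cast; ring

/-- the words agree and the angle is translated by an even integer -/
theorem nu_add_even (w : ℕ → ℤ) (n : ℕ) (m : ℤ) (θ : ℝ) :
    Circ.nu w n (θ + 2 * m) = Circ.nu w n θ + n * m := by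
  have h1 := Circ.nu_shift w (fun _ => m) θ n
  have h2 := Circ.nu_add_theta w θ (2 * m) n
  push_cast at h2
  rw [h2, h1]
  simp

/-! ### (b) the relation -/

/-- between two real numbers with non integer rotation numbers in the same interval `(k, k + 1)` the
rotation number is in `(k, k + 1)` -/
theorem nu_uIcc_iff (w : ℕ → ℤ) (n : ℕ) (x y : ℝ) :
    (∀ t ∈ uIcc x y, ∀ k : ℤ, Circ.nu w n t ≠ k) ↔
      ∃ k : ℤ, (k : ℝ) < Circ.nu w n x ∧ Circ.nu w n x < k + 1 ∧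
        (k : ℝ) < Circ.nu w n y ∧ Circ.nu w n y < k + 1 := by
  constructor
  · intro h
    set k := ⌊Circ.nu w n x⌋ with hk
    have hx1 : (k : ℝ) < Circ.nu w n x :=
      lt_of_le_of_ne (Int.floor_le _) fun h' => h x left_mem_uIcc k h'.symm
    have hx2 : Circ.nu w n x < k + 1 := Int.lt_floor_add_one _
    refine ⟨k, hx1, hx2, ?_, ?_⟩
    · by_contra hcon
      push Not at hcon
      have hm : (k : ℝ) ∈ uIcc (Circ.nu w n x) (Circ.nu w n y) :=
        mem_uIcc.2 (Or.inr ⟨hcon, hx1.le⟩)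
      obtain ⟨t, ht, ht'⟩ := intermediate_value_uIcc
        ((Circ.nu_continuous w n).continuousOn (s := uIcc x y)) hm
      exact h t ht k ht'
    · by_contra hcon
      push Not at hcon
      have hm : ((k + 1 : ℤ) : ℝ) ∈ uIcc (Circ.nu w n x) (Circ.nu w n y) :=
        mem_uIcc.2 (Or.inl ⟨by push_cast; exact hx2.le, by push_cast; exact hcon⟩)
      obtain ⟨t, ht, ht'⟩ := intermediate_value_uIcc
        ((Circ.nu_continuous w n).continuousOn (s := uIcc x y)) hm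
      exact h t ht (k + 1) ht'
  · rintro ⟨k, h1, h2, h3, h4⟩ t ht j hj
    have hmono := Circ.nu_mono w n
    have hk : (k : ℝ) < Circ.nu w n t ∧ Circ.nu w n t < k + 1 := by
      rcases mem_uIcc.1 ht with h | h
      · exact ⟨h1.trans_le (hmono h.1), (hmono h.2).trans_lt h4⟩
      · exact ⟨h3.trans_le (hmono h.1), (hmono h.2).trans_lt h2⟩
    rw [hj] at hk
    have a : k < j := by exact_mod_cast hk.1
    have b : j < k + 1 := by exact_mod_cast hk.2
    omega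

theorem sameStrip_iff {n : ℕ} {θ θ' : ℝ} {w w' : ℕ → ℤ} :
    SameStrip n θ w θ' w' ↔ ∃ m k : ℤ, (∀ i, Even (w' i - w i - m)) ∧
      (k : ℝ) < Circ.nu w n θ ∧ Circ.nu w n θ < k + 1 ∧
      (k : ℝ) < Circ.nu w n (θ' + m) ∧ Circ.nu w n (θ' + m) < k + 1 := by
  unfold SameStrip
  constructor
  · rintro ⟨m, h1, h2⟩
    obtain ⟨k, hk⟩ := (nu_uIcc_iff w n θ (θ' + m)).1 h2
    exact ⟨m, k, h1, hk⟩
  · rintro ⟨m, k, h1, h2⟩
    exact ⟨m, h1, (nu_uIcc_iff w n θ (θ' + m)).2 ⟨k, h2⟩⟩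

theorem SameStrip.left {n : ℕ} {θ θ' : ℝ} {w w' : ℕ → ℤ} (h : SameStrip n θ w θ' w') (k : ℤ) :
    Circ.nu w n θ ≠ k := by
  obtain ⟨m, _, h2⟩ := h
  exact h2 θ left_mem_uIcc k

theorem SameStrip.right {n : ℕ} {θ θ' : ℝ} {w w' : ℕ → ℤ} (h : SameStrip n θ w θ' w') (k : ℤ) :
    Circ.nu w' n θ' ≠ k := by
  obtain ⟨m, h1, h2⟩ := h
  obtain ⟨j, hj⟩ := nu_parity h1 n
  intro h0
  refine h2 (θ' + m) right_mem_uIcc (k - j) ?_
  have := hj θ'
  push_cast
  linarith

theorem sameStrip_refl {n : ℕ} {θ : ℝ} {w : ℕ → ℤ} (h : ∀ k : ℤ, Circ.nu w n θ ≠ k) :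
    SameStrip n θ w θ w := by
  refine ⟨0, fun i => by simp, ?_⟩
  intro t ht k
  have : t = θ := by simpa using ht
  rw [this]
  exact h k

theorem SameStrip.symm {n : ℕ} {θ θ' : ℝ} {w w' : ℕ → ℤ} (h : SameStrip n θ w θ' w') :
    SameStrip n θ' w' θ w := by
  obtain ⟨m, h1, h2⟩ := h
  obtain ⟨j, hj⟩ := nu_parity h1 n
  refine ⟨-m, fun i => ?_, ?_⟩
  · obtain ⟨a, ha⟩ := h1 i
    exact ⟨-a, by omega⟩
  · intro t ht k hk
    have ht' : t + m ∈ uIcc θ (θ' + m) := by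
      push_cast at ht
      rcases mem_uIcc.1 ht with h | h
      · exact mem_uIcc.2 (Or.inr ⟨by linarith, by linarith⟩)
      · exact mem_uIcc.2 (Or.inl ⟨by linarith, by linarith⟩)
    refine h2 (t + m) ht' (k - j) ?_
    have := hj t
    push_cast
    linarith

theorem SameStrip.trans {n : ℕ} {θ θ' θ'' : ℝ} {w w' w'' : ℕ → ℤ} (h : SameStrip n θ w θ' w')
    (h' : SameStrip n θ' w' θ'' w'') : SameStrip n θ w θ'' w'' := by
  obtain ⟨m, h1, h2⟩ := h
  obtain ⟨m', h1', h2'⟩ := h'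
  obtain ⟨j, hj⟩ := nu_parity h1 n
  refine ⟨m + m', fun i => ?_, ?_⟩
  · obtain ⟨a, ha⟩ := h1 i
    obtain ⟨b, hb⟩ := h1' i
    exact ⟨a + b, by omega⟩
  · intro t ht k hk
    have ht2 : t ∈ uIcc θ (θ' + m) ∪ uIcc (θ' + m) (θ'' + ((m + m' : ℤ) : ℝ)) :=
      uIcc_subset_uIcc_union_uIcc ht
    rcases ht2 with h | h
    · exact h2 t h k hk
    · have h3 : t - m ∈ uIcc θ' (θ'' + m') := by
        push_cast at h
        rcases mem_uIcc.1 h with h | h
        · exact mem_uIcc.2 (Or.inl ⟨by linarith, by linarith⟩)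
        · exact mem_uIcc.2 (Or.inr ⟨by linarith, by linarith⟩)
      refine h2' (t - m) h3 (k + j) ?_
      have := hj (t - m)
      rw [sub_add_cancel] at this
      rw [this, hk]
      push_cast; ring

theorem sameStrip_symm {n : ℕ} {θ θ' : ℝ} {w w' : ℕ → ℤ} (h : SameStrip n θ w θ' w') :
    SameStrip n θ' w' θ w := h.symm

theorem sameStrip_trans {n : ℕ} {θ θ' θ'' : ℝ} {w w' w'' : ℕ → ℤ} (h : SameStrip n θ w θ' w')
    (h' : SameStrip n θ' w' θ'' w'') : SameStrip n θ w θ'' w'' := h.trans h'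

/-- nearby angles are in the same strip -/
theorem sameStrip_nhds {n : ℕ} {θ : ℝ} {w : ℕ → ℤ} (h : ∀ k : ℤ, Circ.nu w n θ ≠ k) :
    ∀ᶠ θ' in nhds θ, SameStrip n θ w θ' w := by
  have h0 := (nu_uIcc_iff w n θ θ).1 (fun t ht k => by
    have : t = θ := by simpa using ht
    rw [this]; exact h k)
  obtain ⟨k, h1, h2, _, _⟩ := h0
  have hc := (Circ.nu_continuous w n).tendsto θ
  filter_upwards [hc.eventually (lt_mem_nhds h1), hc.eventually (gt_mem_nhds h2)] with t ht1 ht2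
  refine sameStrip_iff.2 ⟨0, k, fun i => by simp, h1, h2, ?_, ?_⟩ <;> simpa

/-- same word, same angle up to an even integer -/
theorem sameStrip_add_even {n : ℕ} {θ : ℝ} {w : ℕ → ℤ} (h : ∀ k : ℤ, Circ.nu w n θ ≠ k) (m : ℤ) :
    SameStrip n θ w (θ + 2 * m) w := by
  refine ⟨-(2 * m), fun i => ⟨m, by ring⟩, ?_⟩
  intro t ht k
  have : t = θ := by
    have e : θ + 2 * m + ((-(2 * m) : ℤ) : ℝ) = θ := by push_cast; ring
    rw [e] at ht
    simpa using ht
  rw [this]; exact h k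

/-- flipping the word and adding one to the angle -/
theorem sameStrip_flip {n : ℕ} {θ : ℝ} {w : ℕ → ℤ} (h : ∀ k : ℤ, Circ.nu w n θ ≠ k) :
    SameStrip n θ w (θ + 1) (fun i => 1 - w i) := by
  refine ⟨-1, fun i => ⟨1 - w i, by ring⟩, ?_⟩
  intro t ht k
  have : t = θ := by
    have e : θ + 1 + ((-1 : ℤ) : ℝ) = θ := by push_cast; ring
    rw [e] at ht
    simpa using ht
  rw [this]; exact h k

/-- the return map of the same point read in two equivalent descriptions -/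
theorem compat_parity {β θ : ℝ} {w w' : ℕ → ℤ} {m : ℤ} (h : ∀ i, Even (w' i - w i - m)) :
    Compat β θ w' ↔ Compat β (θ + m) w := by
  unfold Compat
  refine forall_congr' fun i => ?_
  obtain ⟨u, hu⟩ := h i
  have e : (w' i : ℝ) = w i + m + 2 * u := by
    have : w' i = w i + m + 2 * u := by omega
    rw [this]; push_cast; ring
  constructor
  · rintro ⟨k, h1, h2⟩
    refine ⟨k + u, ?_, ?_⟩ <;> push_cast <;> rw [e] at h1 h2 <;> linarith
  · rintro ⟨k, h1, h2⟩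
    refine ⟨k - u, ?_, ?_⟩ <;> push_cast <;> rw [e] <;> linarith

end Pool.Agent.Work.MLC
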