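import Pool.Agent.Work.MLC.ExtOpen57
import Pool.Agent.Work.MLC.Stab4c
import Pool.Agent.Work.MLC.Land51
import Pool.Agent.Work.MLC.Strip0

set_option autoImplicit false

/-! # Every label occurs near every point of the imaginary axis (helper57) -/

namespace Pool.Agent.Work.MLC

open Filter Topology Metric Set Complex

/-- the linearizer of a repelling point (bridge `Lin.lean` - `Dyn51.lean`) -/
theorem lin_of_rep57 {n : ℕ} (hn : 0 < n) {c b : ℂ} (h : (c, b) ∈ Rep n) :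
    Tr.Lin c b (mult n c b) n (Lz n c b) where
  hn := hn
  diff := differentiable_Lz h
  zero := Lz_zero h
  der := by rw [(hasDerivAt_Lz_zero h).deriv]; exact one_ne_zero
  eqn := fun x => Lz_mul h x
  rho := h.2

lemma mult_ne_zero57 {n : ℕ} {c b : ℂ} (h : 1 < ‖mult n c b‖) : mult n c b ≠ 0 := by
  intro h0
  rw [h0, norm_zero] at h
  linarith

/-- near a repelling point of a parameter in the Mandelbrot set the rotation numbers of exterior
pairs are constant modulo one over an integer -/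
theorem rational_nhds {n : ℕ} (hn : 0 < n) {c₀ b₀ : ℂ} (hM : G c₀ 0 = 0)
    (hfix : it c₀ n b₀ = b₀) (hρ : 1 < ‖mult n c₀ b₀‖) :
    ∃ q : ℕ, 0 < q ∧ ∀ᶠ x : ℂ × ℂ in 𝓝 (c₀, b₀), ∀ (θ : ℝ) (w : ℕ → ℤ),
      ExtP n x.1 x.2 θ w → ∃ P : ℤ, Circ.nu w n θ = P / q := by
  have hL : Complex.exp (Complex.log (mult n c₀ b₀)) = mult n c₀ b₀ :=
    Complex.exp_log (mult_ne_zero57 hρ)
  obtain ⟨β, q, p, hq, hland, -⟩ := Tr.exists_land_rot (lin_of_rep57 hn ⟨hfix, hρ⟩) hM hL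
  refine ⟨q, hq, ?_⟩
  filter_upwards [land_nhds hn hM hfix hρ hland] with x hx θ w hE
  obtain ⟨P, -, hP⟩ := nu_of_compat hland.1 hE.2.2.2.1.per ((hx hE.2.2.1).2 θ w hE.1 hE.2.1
    hE.2.2.2.2)
  exact ⟨P, hP⟩

lemma occur_limit {n : ℕ} {cc bb : ℕ → ℂ} {s : ℕ → ℝ} {R δ : ℝ}
    (hcR : ∀ k, ‖cc k‖ ≤ R) (hbR : ∀ k, ‖bb k‖ ≤ 1 + R) (hst : Tendsto s atTop (𝓝 0))
    (hG : ∀ k, G (cc k) (cc k) = s k) (hfix : ∀ k, it (cc k) n (bb k) = bb k) (hδ : 1 < δ)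
    (hmδ : ∀ k, δ ≤ ‖mult n (cc k) (bb k)‖) :
    ∃ (c₀ b₀ : ℂ) (φ : ℕ → ℕ), Tendsto (fun k => (cc (φ k), bb (φ k))) atTop (𝓝 (c₀, b₀)) ∧
      G c₀ c₀ = 0 ∧ it c₀ n b₀ = b₀ ∧ 1 < ‖mult n c₀ b₀‖ := by
  have hK : IsCompact (closedBall (0 : ℂ) R ×ˢ closedBall (0 : ℂ) (1 + R)) :=
    (isCompact_closedBall _ _).prod (isCompact_closedBall _ _)
  obtain ⟨⟨c₀, b₀⟩, -, φ, hφ, hφt⟩ := hK.tendsto_subseq (x := fun k => (cc k, bb k)) fun k =>
    ⟨by simpa using hcR k, by simpa using hbR k⟩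
  have hφt' : Tendsto (fun k => (cc (φ k), bb (φ k))) atTop (𝓝 (c₀, b₀)) := hφt
  have hG0 : G c₀ c₀ = 0 := by
    have h2 := (continuous_G_diag'.tendsto (c₀, b₀)).comp hφt'
    simp only [Function.comp_def] at h2
    have h3 : Tendsto (fun k => G (cc (φ k)) (cc (φ k))) atTop (𝓝 0) :=
      (hst.comp hφ.tendsto_atTop).congr fun k => (hG (φ k)).symm
    exact tendsto_nhds_unique h2 h3
  have hfix' : it c₀ n b₀ = b₀ := by
    have h2 := ((continuous_it n).tendsto (c₀, b₀)).comp hφt'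
    simp only [Function.comp_def] at h2
    have h3 := (continuous_snd.tendsto (c₀, b₀)).comp hφt'
    simp only [Function.comp_def] at h3
    have h3 := h3.congr fun k => (hfix (φ k)).symm
    exact tendsto_nhds_unique h2 h3
  have hρ : 1 < ‖mult n c₀ b₀‖ := by
    have h2 := ((continuous_mult n).norm.tendsto (c₀, b₀)).comp hφt'
    simp only [Function.comp_def] at h2
    exact lt_of_lt_of_le hδ (ge_of_tendsto' h2 fun k => hmδ (φ k))
  exact ⟨c₀, b₀, φ, hφt', hG0, hfix', hρ⟩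

/-- **every label occurs near every point of the imaginary axis** -/
theorem occur {n : ℕ} (hn : 0 < n) {τ : ℝ} (h0 : 0 < τ) (h1 : τ < 1) (hirr : Irrational τ)
    (j : Lab n) {ε : ℝ} (hε : 0 < ε) :
    ∃ (c b : ℂ) (θ : ℝ) (w : ℕ → ℤ) (L : ℂ), ExtP n c b θ w ∧ lab n θ w = j ∧
      Complex.exp L = mult n c b ∧ 0 < L.re ∧ ‖L - 2 * Real.pi * τ * I‖ < ε := by
  obtain ⟨θ, w, hw, hj, hfr⟩ := lab_surj hn j h0 h1
  set ν := Circ.nu w n θ with hν
  have hνirr : Irrational ν := by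
    have h2 : ν = τ + (⌊ν⌋ : ℤ) := by rw [← hfr]; exact (Int.fract_add_floor ν).symm
    rw [h2]
    exact hirr.add_intCast _
  set s : ℕ → ℝ := fun k => 1 / ((k : ℝ) + 1) with hs
  have hspos : ∀ k, 0 < s k := fun k => by simp only [hs]; positivity
  have hs1 : ∀ k, s k ≤ 1 := fun k => by
    simp only [hs]
    rw [div_le_one (by positivity)]
    linarith [(Nat.cast_nonneg k : (0 : ℝ) ≤ k)]
  have hst : Tendsto s atTop (𝓝 0) := tendsto_one_div_add_atTop_nhds_zero_nat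
  set cc : ℕ → ℂ := fun k => cOf ((s k : ℂ) + 2 * Real.pi * θ * I) with hcc
  have hang : ∀ k, Ang (cc k) θ ∧ G (cc k) (cc k) = s k := fun k => ang_cOf (hspos k)
  have hbex : ∀ k, ∃ b, ExtP n (cc k) b θ w := fun k => exists_extP hn (hang k).1 hw
  choose bb hbb using hbex
  have hply : ∀ k, 1 < ‖mult n (cc k) (bb k)‖ ∧ ∃ ℓ : ℂ, Complex.exp ℓ = mult n (cc k) (bb k) ∧
      ‖ℓ - 2 * Real.pi * (ν : ℝ) * I‖ ^ 2 ≤ 81 * n * ℓ.re := fun k =>
    extP_ply hn (hbb k) (by rw [(hang k).2]; linarith [hs1 k])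
  have hmul := fun k => (hply k).1
  have hply2 := fun k => (hply k).2
  choose ℓ hℓe hℓ using hply2
  have hre : ∀ k, 0 < (ℓ k).re := by
    intro k
    have h2 : ‖mult n (cc k) (bb k)‖ = Real.exp (ℓ k).re := by rw [← hℓe k, norm_exp]
    have h3 := hmul k
    rw [h2] at h3
    exact Real.one_lt_exp_iff.1 h3
  have hnpos : (0 : ℝ) < n := by exact_mod_cast hn
  -- some `ℓ k` is close to `2 π i ν`
  have hmain : ∃ k, ‖ℓ k - 2 * Real.pi * (ν : ℝ) * I‖ < ε := by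
    by_contra hcon
    push Not at hcon
    set δ : ℝ := ε ^ 2 / (81 * n) with hδ
    have hδpos : 0 < δ := by positivity
    have hreδ : ∀ k, δ ≤ (ℓ k).re := by
      intro k
      rw [hδ, div_le_iff₀ (by positivity)]
      have h2 := hℓ k
      have h3 : ε ^ 2 ≤ ‖ℓ k - 2 * Real.pi * (ν : ℝ) * I‖ ^ 2 :=
        pow_le_pow_left₀ hε.le (hcon k) 2
      nlinarith
    have hmδ : ∀ k, Real.exp δ ≤ ‖mult n (cc k) (bb k)‖ := by
      intro k
      rw [← hℓe k, norm_exp]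
      exact Real.exp_le_exp.2 (hreδ k)
    -- boundedness
    set R : ℝ := 2 * Real.exp 1 + 101 with hR
    have hcR : ∀ k, ‖cc k‖ ≤ R := fun k => by
      have h2 := norm_le_of_G_le (c := cc k) (b := 1) (by rw [(hang k).2]; exact hs1 k)
      rw [hR]; linarith
    have hbR : ∀ k, ‖bb k‖ ≤ 1 + R := fun k => by
      have h2 := norm_le_of_G_zero (G_zero_of_per hn (hbb k).2.2.1)
      linarith [hcR k]
    obtain ⟨c₀, b₀, φ, hφt, hG0, hfix, hρ⟩ := occur_limit (cc := cc) (bb := bb) hcR hbR hst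
      (fun k => (hang k).2) (fun k => (hbb k).2.2.1) (Real.one_lt_exp_iff.2 hδpos) hmδ
    have hM : G c₀ 0 = 0 := by
      have h2 := G_c_eq c₀
      linarith
    obtain ⟨q, hq, hev⟩ := rational_nhds hn hM hfix hρ
    obtain ⟨k, hk⟩ := (hφt.eventually hev).exists
    obtain ⟨P, hP⟩ := hk θ w (hbb (φ k))
    refine hνirr ⟨(P : ℚ) / q, ?_⟩
    rw [hν, hP]; push_cast; rfl
  obtain ⟨k, hk⟩ := hmain
  refine ⟨cc k, bb k, θ, w, ℓ k - (⌊ν⌋ : ℤ) * (2 * Real.pi * I), hbb k, hj, ?_, ?_, ?_⟩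
  · have h2 : Complex.exp ((⌊ν⌋ : ℤ) * (2 * Real.pi * I)) = 1 :=
      Complex.exp_int_mul_two_pi_mul_I _
    rw [Complex.exp_sub, h2, div_one]
    exact hℓe k
  · simpa using hre k
  · have h2 : ℓ k - (⌊ν⌋ : ℤ) * (2 * Real.pi * I) - 2 * Real.pi * τ * I
        = ℓ k - 2 * Real.pi * (ν : ℝ) * I := by
      have h3 : ν = τ + (⌊ν⌋ : ℤ) := by rw [← hfr]; exact (Int.fract_add_floor ν).symm
      have h4 : (ν : ℂ) = τ + (⌊ν⌋ : ℤ) := by exact_mod_cast congrArg (fun x : ℝ => (x : ℂ)) h3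
      rw [h4]; ring
    rw [h2]; exact hk

/-- every label occurs over every half disc around a point of the imaginary axis -/
theorem occur_ball {n : ℕ} (hn : 0 < n) {x₀ : ℝ} (h0 : 0 < x₀) (h1 : x₀ < 1) {R : ℝ} (hR : 0 < R)
    (j : Lab n) :
    ∃ (c b : ℂ) (θ : ℝ) (w : ℕ → ℤ) (L : ℂ), ExtP n c b θ w ∧ lab n θ w = j ∧
      Complex.exp L = mult n c b ∧ 0 < L.re ∧ L ∈ ball (2 * Real.pi * x₀ * I : ℂ) R := by
  have hpi := Real.pi_pos
  have h2 : x₀ < min 1 (x₀ + R / (4 * Real.pi)) :=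
    lt_min h1 (by have : 0 < R / (4 * Real.pi) := by positivity
                  linarith)
  obtain ⟨τ, hirr, hτ1, hτ2⟩ := exists_irrational_btwn h2
  obtain ⟨c, b, θ, w, L, hE, hj, hL, hre, hd⟩ := occur hn (h0.trans hτ1)
    (lt_of_lt_of_le hτ2 (min_le_left _ _)) hirr j (half_pos hR)
  refine ⟨c, b, θ, w, L, hE, hj, hL, hre, ?_⟩
  rw [mem_ball, dist_eq_norm]
  have h3 : L - 2 * Real.pi * x₀ * I
      = (L - 2 * Real.pi * τ * I) + ((2 * Real.pi * (τ - x₀) : ℝ) : ℂ) * I := by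
    push_cast; ring
  have h4 : ‖((2 * Real.pi * (τ - x₀) : ℝ) : ℂ) * I‖ ≤ R / 2 := by
    rw [norm_mul, norm_I, mul_one, norm_real, Real.norm_eq_abs, abs_of_pos (by
      have : 0 < τ - x₀ := by linarith
      positivity)]
    have h5 : τ - x₀ < R / (4 * Real.pi) := by
      have := lt_of_lt_of_le hτ2 (min_le_right _ _)
      linarith
    rw [lt_div_iff₀ (by positivity)] at h5
    linarith
  rw [h3]
  calc _ ≤ ‖L - 2 * Real.pi * τ * I‖ + ‖((2 * Real.pi * (τ - x₀) : ℝ) : ℂ) * I‖ := norm_add_le _ _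
    _ < R / 2 + R / 2 := by linarith
    _ = R := by ring

end Pool.Agent.Work.MLC
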