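import Pool.Agent.Work.MLC.GoodDom
import Pool.Agent.Work.MLC.Occur57

set_option autoImplicit false

/-! # The good discs, final form (helper34) -/

namespace Pool.Agent.Work.MLC

open Filter Topology Metric Set Complex

/-- the disc of radius `min(x, 1 - x)² / (4 n)` about `2 π i x` is a good domain -/
theorem goodDom34 {n : ℕ} (hn : 0 < n) {x : ℚ} (h0 : 0 < x) (h1 : x < 1) :
    GoodDom n (ball (axisPt x) (1 / 4 * (min (x : ℝ) (1 - x)) ^ 2 / n)) := by
  refine goodDom_of_hall hn h0 h1 fun j => ?_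
  have hx0 : (0 : ℝ) < x := by exact_mod_cast h0
  have hx1 : (x : ℝ) < 1 := by exact_mod_cast h1
  have hn' : (0 : ℝ) < n := by exact_mod_cast hn
  have hm : 0 < min (x : ℝ) (1 - x) := lt_min hx0 (by linarith)
  have hR : 0 < 1 / 4 * (min (x : ℝ) (1 - x)) ^ 2 / n := by positivity
  obtain ⟨c, b, θ, w, L, hE, hj, hL, hre, hmem⟩ := occur_ball hn hx0 hx1 hR j
  have hax : (2 * Real.pi * ((x : ℝ) : ℂ) * I : ℂ) = axisPt x := by
    unfold axisPt
    push_cast
    ring
  rw [hax] at hmem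
  exact ⟨(c, b), hE.2.2.1, L, hmem, hre, hL.symm, (FF_ext (x := (c, b)) hE).trans hj⟩

end Pool.Agent.Work.MLC
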