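import Pool.Agent.Work.MLC.Rot51
import Pool.Agent.Work.MLC.Mconn
import Pool.Agent.Work.MLC.Rep13

set_option autoImplicit false

/-! # The main cardioid and its limbs (period 1): unconditional limb data (helper24) -/

namespace Pool.Agent.Work.MLC.H24

open Filter Topology Metric Set
open Pool.Agent.Work.MLC Pool.Agent.Work.MLC.Tr

/-- the parameter for which `z ^ 2 + c` has a fixed point of multiplier `l` -/
noncomputable def cl (l : ℂ) : ℂ := l / 2 - l ^ 2 / 4

/-- the same with the logarithm of the multiplier -/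
noncomputable def cc (L : ℂ) : ℂ := cl (Complex.exp L)

/-- the closed main cardioid -/
def heart : Set ℂ := cl '' closedBall 0 1

lemma per_cc (L : ℂ) : ((cc L, Complex.exp L / 2) : ℂ × ℂ) ∈ Per 1 := by
  show it (cc L) 1 (Complex.exp L / 2) = Complex.exp L / 2
  have h : it (cc L) 1 (Complex.exp L / 2) = (Complex.exp L / 2) ^ 2 + cc L := rfl
  rw [h, cc, cl]; ring

lemma per_cl (l : ℂ) : ((cl l, l / 2) : ℂ × ℂ) ∈ Per 1 := by
  show it (cl l) 1 (l / 2) = l / 2
  have h : it (cl l) 1 (l / 2) = (l / 2) ^ 2 + cl l := rfl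
  rw [h, cl]; ring

lemma mul_cl (l : ℂ) : mul 1 (cl l, l / 2) = l := by
  have h : mul 1 (cl l, l / 2) = ∏ i ∈ Finset.range 1, 2 * it (cl l) i (l / 2) := rfl
  rw [h, Finset.prod_range_one]
  have h2 : it (cl l) 0 (l / 2) = l / 2 := rfl
  rw [h2]; ring

lemma mul_cc (L : ℂ) : mul 1 (cc L, Complex.exp L / 2) = Complex.exp L := mul_cl _

lemma cl_mem {l : ℂ} (hl : ‖l‖ ≤ 1) : cl l ∈ MS := by
  by_contra hM
  have h := rep13 one_pos (per_cl l) hM
  rw [mul_cl] at h
  linarith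

lemma heart_sub : heart ⊆ MS := by
  rintro z ⟨l, hl, rfl⟩
  rw [mem_closedBall_zero_iff] at hl
  exact cl_mem hl

lemma differentiable_cc : Differentiable ℂ cc := by
  unfold cc cl
  fun_prop

lemma hasDerivAt_cc (L : ℂ) :
    HasDerivAt cc (Complex.exp L * (1 - Complex.exp L) / 2) L := by
  have h1 := Complex.hasDerivAt_exp L
  have h2 := (h1.div_const 2).sub ((h1.pow 2).div_const 4)
  refine h2.congr_deriv ?_
  push_cast
  ring

lemma deriv_cc (L : ℂ) : deriv cc L = Complex.exp L * (1 - Complex.exp L) / 2 :=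
  (hasDerivAt_cc L).deriv

lemma cc_open (L : ℂ) {U : Set ℂ} (hU : U ∈ 𝓝 L) : cc '' U ∈ 𝓝 (cc L) := by
  have han : AnalyticAt ℂ cc L := differentiable_cc.analyticAt L
  rcases han.eventually_constant_or_nhds_le_map_nhds with h | h
  · exfalso
    have h1 : ∀ᶠ z in 𝓝 L, deriv cc z = 0 := by
      filter_upwards [h.eventually_nhds] with z hz
      have : cc =ᶠ[𝓝 z] fun _ => cc L := hz
      rw [this.deriv_eq]
      simp
    have h2 : ∀ᶠ z in 𝓝 L, Complex.exp z = 1 := by
      filter_upwards [h1] with z hz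
      rw [deriv_cc] at hz
      have h3 : Complex.exp z * (1 - Complex.exp z) = 0 := by
        have := congrArg (fun t => 2 * t) hz
        simp only [mul_zero] at this
        rw [← this]; ring
      rcases mul_eq_zero.1 h3 with h4 | h4
      · exact absurd h4 (Complex.exp_ne_zero z)
      · exact (sub_eq_zero.1 h4).symm
    have h3 : deriv Complex.exp L = 0 := by
      have : Complex.exp =ᶠ[𝓝 L] fun _ => 1 := h2
      rw [this.deriv_eq]; simp
    rw [Complex.deriv_exp] at h3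
    exact Complex.exp_ne_zero _ h3
  · exact h (image_mem_map hU)

/-- constant of the Pommerenke-Levin-Yoccoz inequality for fixed points -/
noncomputable def A1 : ℝ := 2 * (1 : ℕ) * Real.log 2

lemma A1_pos : 0 < A1 := by
  have : 0 < Real.log 2 := Real.log_pos (by norm_num)
  unfold A1; positivity

lemma A1_lt : A1 < 1.3864 := by
  have := Real.log_two_lt_d9
  unfold A1; push_cast; linarith

lemma A1_gt : 1.38 < A1 := by
  have := Real.log_two_gt_d9
  unfold A1; push_cast; linarith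

/-- rotation numbers of the fixed point `exp L / 2` -/
def T1 (L : ℂ) (x : ℚ) : Prop := RotT 1 (cc L) (Complex.exp L / 2) L x

lemma T1_ply {L : ℂ} {x : ℚ} (h : T1 L x) : ‖L - axisPt x‖ ^ 2 ≤ A1 / x.den * L.re :=
  (rotData one_pos).ply _ _ _ _ h

lemma exp_axisPt_ne {x : ℚ} (hx : x.den ≠ 1) : Complex.exp (axisPt x) ≠ 1 := by
  intro h
  rw [Complex.exp_eq_one_iff] at h
  obtain ⟨n, hn⟩ := h
  apply hx
  have h1 := congrArg Complex.im hn
  rw [LimbData.axisPt_im] at h1
  have h2 : ((n : ℂ) * (2 * Real.pi * Complex.I)).im = n * (2 * Real.pi) := by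
    have : (n : ℂ) * (2 * Real.pi * Complex.I) = ((n * (2 * Real.pi) : ℝ) : ℂ) * Complex.I := by
      push_cast; ring
    rw [this]
    simp
  rw [h2] at h1
  have h3 : (x : ℝ) = n := by
    have hp : (0 : ℝ) < 2 * Real.pi := by positivity
    have : 2 * Real.pi * (x : ℝ) = 2 * Real.pi * n := by rw [h1]; ring
    exact mul_left_cancel₀ hp.ne' this
  have h4 : x = (n : ℚ) := by exact_mod_cast h3
  rw [h4]; simp

/-- limb data of the main cardioid, on discs of any size -/
theorem limbData1 {x₀ : ℚ} (hx₀ : x₀.den ≠ 1) {R : ℝ} (hR : 0 < R) :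
    LimbData MS x₀ R A1 cc T1 := by
  have hrd := rotData (n := 1) one_pos
  refine ⟨hR, A1_pos, differentiable_cc.continuous.continuousOn, ?_, ?_, ?_, ?_, ?_, ?_, ?_, ?_⟩
  · intro L _ hre
    apply cl_mem
    rw [Complex.norm_exp]
    exact Real.exp_le_one_iff.2 hre
  · have h1 : HasStrictDerivAt cc (Complex.exp (axisPt x₀) * (1 - Complex.exp (axisPt x₀)) / 2)
        (axisPt x₀) := by
      have := (differentiable_cc.analyticAt (axisPt x₀)).hasStrictDerivAt
      rwa [deriv_cc] at this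
    have h2 : Complex.exp (axisPt x₀) * (1 - Complex.exp (axisPt x₀)) / 2 ≠ 0 := by
      have h3 := exp_axisPt_ne hx₀
      have h4 : (1 : ℂ) - Complex.exp (axisPt x₀) ≠ 0 := sub_ne_zero.2 h3.symm
      have h5 := Complex.exp_ne_zero (axisPt x₀)
      exact div_ne_zero (mul_ne_zero h5 h4) two_ne_zero
    have hs := h1.hasStrictFDerivAt_equiv h2
    have hN : (hs.toOpenPartialHomeomorph _).source ∈ 𝓝 (axisPt x₀) :=
      (hs.toOpenPartialHomeomorph _).open_source.mem_nhds hs.mem_toOpenPartialHomeomorph_source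
    have hi : InjOn cc (hs.toOpenPartialHomeomorph _).source := by
      have := (hs.toOpenPartialHomeomorph _).injOn
      rwa [HasStrictFDerivAt.toOpenPartialHomeomorph_coe] at this
    obtain ⟨δ, hδ, hδ2⟩ := Metric.mem_nhds_iff.1 hN
    exact ⟨δ, hδ, hi.mono hδ2⟩
  · intro L _ U hU
    exact cc_open L hU
  · intro L x h
    exact hrd.dom _ _ _ _ h
  · intro L _ hre hM
    exact hrd.ex (cc L) (Complex.exp L / 2) L (per_cc L) (mul_cc L) hre hM
  · intro L x x' h h'
    exact hrd.uniq _ _ _ _ _ h h'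
  · intro L _ x hx
    have h1 := hrd.opn _ _ _ _ hx
    have hc : ContinuousAt (fun L => (cc L, Complex.exp L / 2, L)) L := by
      have := differentiable_cc.continuous
      fun_prop
    filter_upwards [hc.eventually h1] with L' h2 h3
    exact h2 h3 (per_cc L') (mul_cc L')
  · intro L x hx
    exact T1_ply hx

/-- real parameters larger than `1 / 4` are not in the Mandelbrot set -/
lemma real_notMem {t : ℝ} (ht : 1 / 4 < t) : ((t : ℝ) : ℂ) ∉ MS := by
  have key : ∀ k : ℕ, ∃ x : ℝ, k * (t - 1 / 4) ≤ x ∧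
      (fun z : ℂ => z ^ 2 + (t : ℂ))^[k] 0 = (x : ℂ) := by
    intro k
    induction k with
    | zero => exact ⟨0, by simp, by simp⟩
    | succ k ih =>
      obtain ⟨x, hx, hx2⟩ := ih
      refine ⟨x ^ 2 + t, ?_, ?_⟩
      · push_cast
        nlinarith [sq_nonneg (x - 1 / 2)]
      · rw [Function.iterate_succ_apply', hx2]
        push_cast; rfl
  show ¬ ¬ Tendsto _ _ _
  rw [not_not, ← tendsto_norm_atTop_iff_cobounded]
  refine tendsto_atTop_mono (f := fun k : ℕ => (k : ℝ) * (t - 1 / 4)) ?_ ?_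
  · intro k
    obtain ⟨x, hx, hx2⟩ := key k
    rw [hx2, Complex.norm_real, Real.norm_eq_abs]
    exact hx.trans (le_abs_self x)
  · exact Tendsto.atTop_mul_const (by linarith) tendsto_natCast_atTop_atTop

/-- the fixed point of multiplier `exp L`, `Re (exp L) < 1`, has no integer rotation number -/
lemma no_int {L : ℂ} (hre : 0 < L.re) (h1 : (Complex.exp L).re < 1) (k : ℤ)
    (h : ‖L - axisPt k‖ ^ 2 ≤ A1 * L.re) : False := by
  set s := L.re with hs
  set y := L.im - 2 * Real.pi * k with hy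
  have h2 : ‖L - axisPt k‖ ^ 2 = s ^ 2 + y ^ 2 := by
    rw [← Complex.normSq_eq_norm_sq, Complex.normSq_apply]
    have e1 : (L - axisPt k).re = s := by simp [LimbData.axisPt_re, hs]
    have e2 : (L - axisPt k).im = y := by
      rw [Complex.sub_im, LimbData.axisPt_im, hy]; push_cast; ring
    rw [e1, e2]; ring
  rw [h2] at h
  have hA := A1_lt
  have h3 : s ^ 2 + y ^ 2 ≤ 1.3864 * s := h.trans (by nlinarith)
  have h4 : (Complex.exp L).re = Real.exp s * Real.cos y := by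
    rw [Complex.exp_re, hy, ← hs]
    congr 1
    have : L.im = (L.im - 2 * Real.pi * k) + k * (2 * Real.pi) := by ring
    conv_lhs => rw [this, Real.cos_add_int_mul_two_pi]
  rw [h4] at h1
  have h5 : 1 - y ^ 2 / 2 ≤ Real.cos y := Real.one_sub_sq_div_two_le_cos
  have h6 : s + 1 ≤ Real.exp s := Real.add_one_le_exp s
  have h7 : 0 < 1 - y ^ 2 / 2 := by nlinarith [sq_nonneg (s - 0.6932)]
  have h8 : (s + 1) * (1 - y ^ 2 / 2) ≤ Real.exp s * Real.cos y :=
    mul_le_mul h6 h5 h7.le (Real.exp_pos s).le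
  have h9 : (s + 1) * (1 - (1.3864 * s - s ^ 2) / 2) ≤ (s + 1) * (1 - y ^ 2 / 2) := by
    apply mul_le_mul_of_nonneg_left _ (by linarith)
    linarith
  have h10 : 1 < (s + 1) * (1 - (1.3864 * s - s ^ 2) / 2) := by
    have : (s + 1) * (1 - (1.3864 * s - s ^ 2) / 2) = 1 + s * (0.3068 - 0.1932 * s + 0.5 * s ^ 2) := by
      ring
    rw [this]
    have : 0 < 0.3068 - 0.1932 * s + 0.5 * s ^ 2 := by nlinarith [sq_nonneg (s - 0.1932)]
    nlinarith [mul_pos hre this]
  linarith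

/-- every parameter outside of the closed main cardioid is in a limb -/
theorem cover {c : ℂ} (hc : c ∈ MS) (hh : c ∉ heart) :
    ∃ (L : ℂ) (x : ℚ), c = cc L ∧ 0 < L.re ∧ (Complex.exp L).re < 1 ∧ T1 L x ∧
      0 < x ∧ x < 1 := by
  -- the multiplier of the fixed point alpha
  obtain ⟨w, hw, hw0⟩ : ∃ w : ℂ, w ^ 2 = 1 - 4 * c ∧ 0 ≤ w.re := by
    obtain ⟨w, hw⟩ := IsAlgClosed.exists_pow_nat_eq (1 - 4 * c) two_pos
    rcases le_total 0 w.re with h | h
    · exact ⟨w, hw, h⟩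
    · exact ⟨-w, by rw [neg_sq, hw], by simpa using h⟩
  set l : ℂ := 1 - w with hl
  have hcl : cl l = c := by
    have : cl l = (1 - w ^ 2) / 4 := by rw [cl, hl]; ring
    rw [this, hw]; ring
  have hl1 : 1 < ‖l‖ := by
    by_contra h
    push Not at h
    exact hh ⟨l, by rwa [mem_closedBall_zero_iff], hcl⟩
  have hlre : l.re < 1 := by
    rcases hw0.eq_or_lt with h | h
    · exfalso
      have h1 : w = ((w.im : ℝ) : ℂ) * Complex.I := by
        apply Complex.ext
        · simp [← h]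
        · simp
      have h2 : c = (((1 + w.im ^ 2) / 4 : ℝ) : ℂ) := by
        have h3 : w ^ 2 = -((w.im : ℝ) : ℂ) ^ 2 := by
          conv_lhs => rw [h1]
          rw [mul_pow, Complex.I_sq]; ring
        have h4 : 4 * c = 1 - w ^ 2 := by rw [hw]; ring
        push_cast
        rw [eq_div_iff (by norm_num : (4 : ℂ) ≠ 0), mul_comm, h4, h3]; ring
      by_cases h3 : w.im = 0
      · have : l = 1 := by rw [hl, h1, h3]; simp
        rw [this] at hl1
        simp at hl1
      · rw [h2] at hc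
        refine real_notMem ?_ hc
        have : 0 < w.im ^ 2 := by positivity
        linarith
    · rw [hl, Complex.sub_re, Complex.one_re]; linarith
  have hl0 : l ≠ 0 := by rintro h; rw [h] at hl1; simp at hl1; linarith
  -- a logarithm with imaginary part in `[0, 2 π)`
  obtain ⟨L, hL, hLim, hLim2⟩ : ∃ L : ℂ, Complex.exp L = l ∧ 0 ≤ L.im ∧ L.im < 2 * Real.pi := by
    have h1 := Complex.neg_pi_lt_log_im l
    have h2 := Complex.log_im_le_pi l
    have hpi := Real.pi_pos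
    rcases le_total 0 (Complex.log l).im with h | h
    · exact ⟨Complex.log l, Complex.exp_log hl0, h, by linarith⟩
    · rcases h.eq_or_lt with h0 | h0
      · exact ⟨Complex.log l, Complex.exp_log hl0, h0.ge, by linarith⟩
      · refine ⟨Complex.log l + 2 * Real.pi * Complex.I, ?_, ?_, ?_⟩
        · rw [Complex.exp_add, Complex.exp_two_pi_mul_I, mul_one, Complex.exp_log hl0]
        · simp; linarith
        · simp; linarith
  have hLre : 0 < L.re := by
    have h1 : ‖l‖ = Real.exp L.re := by rw [← hL, Complex.norm_exp]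
    rw [h1] at hl1
    exact Real.one_lt_exp_iff.1 hl1
  have hLc : c = cc L := by rw [cc, hL, hcl]
  obtain ⟨x, hx⟩ := (rotData (n := 1) one_pos).ex (cc L) (Complex.exp L / 2) L (per_cc L)
    (mul_cc L) hLre (hLc ▸ hc)
  have hx' : T1 L x := hx
  have hply := T1_ply hx'
  have hA := A1_lt
  have hA0 := A1_pos
  have hLre1 : (Complex.exp L).re < 1 := by rw [hL]; exact hlre
  have hden : x.den ≠ 1 := by
    intro hd
    have h1 : x = (x.num : ℚ) := by
      conv_lhs => rw [← Rat.num_div_den x, hd]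
      simp
    rw [hd, h1] at hply
    refine no_int hLre hLre1 x.num ?_
    simpa using hply
  have hq2 : 2 ≤ x.den := by
    have := x.pos
    omega
  have hq : (0 : ℝ) < x.den := by exact_mod_cast x.pos
  have hnl : ‖L - axisPt x‖ ≤ A1 / x.den :=
    (limbData1 hden (R := 1) one_pos).norm_le hx'
  have him : |L.im - 2 * Real.pi * x| ≤ A1 / x.den := by
    have h1 := Complex.abs_im_le_norm (L - axisPt x)
    rw [Complex.sub_im, LimbData.axisPt_im] at h1
    exact h1.trans hnl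
  have hxr : (x : ℝ) = x.num / x.den := by exact_mod_cast (Rat.num_div_den x).symm
  have hpi3 : 3 < Real.pi := Real.pi_gt_three
  rw [abs_le] at him
  have hx0 : -1 < (x.num : ℝ) := by
    have h1 : -(A1 / x.den) ≤ 2 * Real.pi * (x.num / x.den) := by rw [← hxr]; linarith
    have h2 : -A1 ≤ 2 * Real.pi * x.num := by
      have := mul_le_mul_of_nonneg_right h1 hq.le
      have e1 : -(A1 / x.den) * x.den = -A1 := by field_simp
      have e2 : 2 * Real.pi * ((x.num : ℝ) / x.den) * x.den = 2 * Real.pi * x.num := by field_simp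
      rwa [e1, e2] at this
    by_contra h3
    push Not at h3
    nlinarith
  have hx1 : (x.num : ℝ) < x.den + 1 := by
    have h1 : 2 * Real.pi * (x.num / x.den) - A1 / x.den < 2 * Real.pi := by rw [← hxr]; linarith
    have h2 : 2 * Real.pi * x.num - A1 < 2 * Real.pi * x.den := by
      have := mul_lt_mul_of_pos_right h1 hq
      have e2 : (2 * Real.pi * ((x.num : ℝ) / x.den) - A1 / x.den) * x.den =
        2 * Real.pi * x.num - A1 := by field_simp
      rwa [e2] at this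
    by_contra h3
    push Not at h3
    nlinarith
  have hn0 : 0 ≤ x.num := by
    have : (-1 : ℤ) < x.num := by exact_mod_cast hx0
    omega
  have hn1 : x.num ≤ x.den := by
    have : x.num < (x.den : ℤ) + 1 := by exact_mod_cast hx1
    omega
  have hcop := x.reduced
  have hn0' : x.num ≠ 0 := by
    intro h0
    rw [h0] at hcop
    simp at hcop
    exact hden hcop
  have hn1' : x.num ≠ x.den := by
    intro h0
    rw [h0] at hcop
    simp at hcop
    exact hden hcop
  refine ⟨L, x, hLc, hLre, hLre1, hx', ?_, ?_⟩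
  · rw [← Rat.num_pos]; omega
  · rw [← Rat.num_div_den x, div_lt_one (by exact_mod_cast x.pos)]
    exact_mod_cast lt_of_le_of_ne hn1 hn1'

end Pool.Agent.Work.MLC.H24

/-! # Geometry of the main cardioid and assembly of the Hoelder theorem (helper24) -/

namespace Pool.Agent.Work.MLC.H24

open Filter Topology Metric Set
open Pool.Agent.Work.MLC Pool.Agent.Work.MLC.Tr

lemma cl_sub (l l' : ℂ) : cl l - cl l' = (l - l') * (2 - l - l') / 4 := by
  unfold cl; ring

/-- distance of a point outside of the cardioid to the points of the closed cardioid -/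
lemma cl_dist {l l' : ℂ} (h1 : l.re < 1) (h2 : 1 ≤ ‖l‖) (h3 : ‖l'‖ ≤ 1) :
    (‖l‖ - 1) ^ 2 / 4 ≤ ‖cl l - cl l'‖ := by
  rw [cl_sub, norm_div, norm_mul]
  have h4 : ‖(4 : ℂ)‖ = 4 := by simp
  rw [h4]
  have h5 : ‖l‖ - 1 ≤ ‖l - l'‖ := by
    have := norm_sub_norm_le l l'
    linarith
  have h6 : ‖l‖ ≤ ‖2 - l‖ := by
    have e1 : ‖l‖ ^ 2 = l.re ^ 2 + l.im ^ 2 := by
      rw [← Complex.normSq_eq_norm_sq, Complex.normSq_apply]; ring
    have e2 : ‖2 - l‖ ^ 2 = (2 - l.re) ^ 2 + l.im ^ 2 := by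
      rw [← Complex.normSq_eq_norm_sq, Complex.normSq_apply]
      have a1 : (2 - l).re = 2 - l.re := by simp
      have a2 : (2 - l).im = - l.im := by simp
      rw [a1, a2]; ring
    have e3 : ‖l‖ ^ 2 ≤ ‖2 - l‖ ^ 2 := by rw [e1, e2]; nlinarith
    exact le_of_sq_le_sq e3 (norm_nonneg _)
  have h7 : ‖l‖ - 1 ≤ ‖2 - l - l'‖ := by
    have := norm_sub_norm_le (2 - l) l'
    linarith
  have h8 : (‖l‖ - 1) ^ 2 ≤ ‖l - l'‖ * ‖2 - l - l'‖ := by
    rw [sq]
    exact mul_le_mul h5 h7 (by linarith) (norm_nonneg _)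
  linarith

/-- inside of the closed disc `cl` is `1`-Lipschitz -/
lemma cl_lip {l l' : ℂ} (h : ‖l‖ ≤ 1) (h' : ‖l'‖ ≤ 1) : ‖cl l - cl l'‖ ≤ ‖l - l'‖ := by
  rw [cl_sub, norm_div, norm_mul]
  have h4 : ‖(4 : ℂ)‖ = 4 := by simp
  rw [h4]
  have h5 : ‖2 - l - l'‖ ≤ 4 := by
    calc ‖2 - l - l'‖ ≤ ‖(2 : ℂ) - l‖ + ‖l'‖ := norm_sub_le _ _
      _ ≤ ‖(2 : ℂ)‖ + ‖l‖ + ‖l'‖ := by gcongr; exact norm_sub_le _ _
      _ ≤ 2 + 1 + 1 := by gcongr; simp
      _ = 4 := by norm_num
  have := mul_le_mul_of_nonneg_left h5 (norm_nonneg (l - l'))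
  linarith

/-- inverse estimate in the closed disc -/
lemma cl_cube {l l' : ℂ} (h : ‖l‖ ≤ 1) (h' : ‖l'‖ ≤ 1) :
    ‖l - l'‖ ^ 3 ≤ 16 * ‖cl l - cl l'‖ := by
  rw [cl_sub, norm_div, norm_mul]
  have h4 : ‖(4 : ℂ)‖ = 4 := by simp
  rw [h4]
  have key : ∀ z : ℂ, ‖z‖ ≤ 1 → ‖1 - z‖ ^ 2 ≤ 2 * (1 - z.re) := by
    intro z hz
    have e1 : ‖1 - z‖ ^ 2 = (1 - z.re) ^ 2 + z.im ^ 2 := by
      rw [← Complex.normSq_eq_norm_sq, Complex.normSq_apply]
      have a1 : (1 - z).re = 1 - z.re := by simp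
      have a2 : (1 - z).im = - z.im := by simp
      rw [a1, a2]; ring
    have e2 : ‖z‖ ^ 2 = z.re ^ 2 + z.im ^ 2 := by
      rw [← Complex.normSq_eq_norm_sq, Complex.normSq_apply]; ring
    have e3 : ‖z‖ ^ 2 ≤ 1 := by nlinarith [norm_nonneg z]
    rw [e1]; nlinarith
  have k1 := key l h
  have k2 := key l' h'
  have h5 : (1 - l.re) + (1 - l'.re) ≤ ‖2 - l - l'‖ := by
    have := Complex.re_le_norm (2 - l - l')
    have e : (2 - l - l').re = (1 - l.re) + (1 - l'.re) := by simp; ring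
    rw [e] at this; exact this
  have h6 : ‖l - l'‖ ≤ ‖1 - l‖ + ‖1 - l'‖ := by
    have : l - l' = (1 - l') - (1 - l) := by ring
    rw [this, add_comm]; exact norm_sub_le _ _
  have h7 : ‖l - l'‖ ^ 2 ≤ 2 * (‖1 - l‖ ^ 2 + ‖1 - l'‖ ^ 2) := by
    have h8 : ‖l - l'‖ ^ 2 ≤ (‖1 - l‖ + ‖1 - l'‖) ^ 2 := by gcongr
    nlinarith [sq_nonneg (‖1 - l‖ - ‖1 - l'‖)]
  have h8 : ‖l - l'‖ ^ 2 ≤ 4 * ‖2 - l - l'‖ := by linarith
  have h9 := mul_le_mul_of_nonneg_left h8 (norm_nonneg (l - l'))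
  calc ‖l - l'‖ ^ 3 = ‖l - l'‖ * ‖l - l'‖ ^ 2 := by ring
    _ ≤ ‖l - l'‖ * (4 * ‖2 - l - l'‖) := h9
    _ = _ := by ring

/-- paths inside of the closed main cardioid -/
theorem heart_path {z w : ℂ} (hz : z ∈ heart) (hw : w ∈ heart) :
    ∃ K ⊆ heart, IsCompact K ∧ IsPreconnected K ∧ z ∈ K ∧ w ∈ K ∧
      ∀ u ∈ K, ‖u - w‖ ^ 3 ≤ 16 * ‖z - w‖ := by
  obtain ⟨l, hl, rfl⟩ := hz
  obtain ⟨l', hl', rfl⟩ := hw
  have hcl : Continuous cl := by unfold cl; fun_prop
  have hseg : segment ℝ l l' ⊆ closedBall 0 1 := (convex_closedBall 0 1).segment_subset hl hl'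
  refine ⟨cl '' segment ℝ l l', image_mono hseg, ?_, ?_, ?_, ?_, ?_⟩
  · rw [← Path.range_segment]
    exact (isCompact_range (by fun_prop)).image hcl
  · exact (convex_segment l l').isPreconnected.image _ hcl.continuousOn
  · exact mem_image_of_mem _ (left_mem_segment ℝ l l')
  · exact mem_image_of_mem _ (right_mem_segment ℝ l l')
  · rintro _ ⟨m, hm, rfl⟩
    have hl2 := mem_closedBall_zero_iff.1 hl
    have hl2' := mem_closedBall_zero_iff.1 hl'
    have hm2 := mem_closedBall_zero_iff.1 (hseg hm)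
    have h1 : ‖m - l'‖ ≤ ‖l - l'‖ := by
      rw [segment_symm] at hm
      exact norm_sub_le_of_mem_segment hm
    calc ‖cl m - cl l'‖ ^ 3 ≤ ‖m - l'‖ ^ 3 := by gcongr; exact cl_lip hm2 hl2'
      _ ≤ ‖l - l'‖ ^ 3 := by gcongr
      _ ≤ _ := cl_cube hl2 hl2'

lemma adm1 {x : ℚ} : LimbData.Adm x (A1 + 1) A1 x := by
  unfold LimbData.Adm
  have hq : (1 : ℝ) ≤ x.den := by exact_mod_cast x.pos
  have h1 : A1 / x.den ≤ A1 := div_le_self A1_pos.le hq
  simp only [sub_self, abs_zero, mul_zero, add_zero]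
  linarith

/-- the limb of rotation number `x` of the main cardioid -/
def limb (x : ℚ) : Set ℂ := LimbData.K cc T1 x

lemma A1p : 0 < A1 + 1 := by linarith [A1_pos]

lemma limb_compact {x : ℚ} (hx : x.den ≠ 1) : IsCompact (limb x) :=
  (limbData1 hx A1p).isCompact_K isCompact_MM.isClosed adm1

lemma limb_preconn {x : ℚ} (hx : x.den ≠ 1) : IsPreconnected (limb x) :=
  (limbData1 hx A1p).K_conn isCompact_MM.isClosed isPreconnected_MM adm1

lemma limb_sub {x : ℚ} (hx : x.den ≠ 1) : limb x ⊆ MS :=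
  (limbData1 hx A1p).K_sub adm1

lemma root_mem_limb (x : ℚ) : cc (axisPt x) ∈ limb x := Or.inl rfl

lemma mem_limb {x : ℚ} {L : ℂ} (h : T1 L x) : cc L ∈ limb x := Or.inr ⟨L, h, rfl⟩

lemma root_mem_heart (x : ℚ) : cc (axisPt x) ∈ heart := by
  refine ⟨Complex.exp (axisPt x), ?_, rfl⟩
  rw [mem_closedBall_zero_iff, Complex.norm_exp, LimbData.axisPt_re, Real.exp_zero]

/-- Lipschitz bound near the boundary of the cardioid -/
lemma cc_lip {x : ℚ} {L L' : ℂ} (h : ‖L - axisPt x‖ ≤ 0.7) (h' : ‖L' - axisPt x‖ ≤ 0.7) :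
    ‖cc L - cc L'‖ ≤ 4 * ‖L - L'‖ := by
  refine (convex_closedBall (axisPt x) 0.7).norm_image_sub_le_of_norm_deriv_le (f := cc)
    (fun z _ => differentiable_cc z) ?_ ?_ ?_
  · intro z hz
    rw [mem_closedBall, dist_eq_norm] at hz
    rw [deriv_cc, norm_div, norm_mul]
    have h1 : ‖Complex.exp z‖ ≤ 2.1 := by
      rw [Complex.norm_exp]
      have h2 : z.re ≤ 0.7 := by
        have := (Complex.re_le_norm (z - axisPt x)).trans hz
        simpa [LimbData.axisPt_re] using this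
      have h3 : Real.exp z.re ≤ Real.exp 0.7 := Real.exp_le_exp.2 h2
      have h4 : Real.exp 0.7 ≤ 2.1 := by
        have h5 : Real.exp 0.7 = Real.exp 1 ^ (0.7 : ℝ) := by
          rw [← Real.exp_mul]; norm_num
        have h6 := Real.exp_bound' (x := 0.7) (by norm_num) (by norm_num) (n := 5) (by norm_num)
        norm_num [Finset.sum_range_succ, Nat.factorial] at h6
        linarith
      linarith
    have h2 : ‖1 - Complex.exp z‖ ≤ 3.1 := by
      calc ‖1 - Complex.exp z‖ ≤ ‖(1 : ℂ)‖ + ‖Complex.exp z‖ := norm_sub_le _ _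
        _ ≤ 1 + 2.1 := by gcongr; simp
        _ = 3.1 := by norm_num
    have h3 : ‖(2 : ℂ)‖ = 2 := by simp
    rw [h3]
    calc ‖Complex.exp z‖ * ‖1 - Complex.exp z‖ / 2 ≤ 2.1 * 3.1 / 2 := by gcongr
      _ ≤ 4 := by norm_num
  · rwa [mem_closedBall, dist_eq_norm]
  · rwa [mem_closedBall, dist_eq_norm]

lemma two_le_den {x : ℚ} (hx : x.den ≠ 1) : (2 : ℝ) ≤ x.den := by
  have := x.pos
  exact_mod_cast (by omega : 2 ≤ x.den)

lemma limb_size1 {x : ℚ} (hx : x.den ≠ 1) {u : ℂ} (hu : u ∈ limb x) :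
    ‖u - cc (axisPt x)‖ ≤ 6 / x.den := by
  have hq := two_le_den hx
  rw [limb, LimbData.K_eq] at hu
  obtain ⟨L, hL, rfl⟩ := hu
  have h1 := (limbData1 hx A1p).P_sub x hL
  rw [mem_closedBall, dist_eq_norm] at h1
  have hA := A1_lt
  have h2 : A1 / x.den ≤ 0.7 := by
    rw [div_le_iff₀ (by linarith)]; linarith
  have h3 := cc_lip (h1.trans h2) (L' := axisPt x) (by simp; norm_num)
  refine h3.trans ?_
  have h4 : A1 / x.den ≤ 1.3864 / x.den := by gcongr
  have h5 : (6 : ℝ) / x.den = 4 * (1.5 / x.den) := by ring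
  rw [h5]
  have h6 : (1.3864 : ℝ) / x.den ≤ 1.5 / x.den := by gcongr; norm_num
  linarith

end Pool.Agent.Work.MLC.H24

/-! # Assembly of the Hoelder theorem from the statement near the roots (helper24) -/

namespace Pool.Agent.Work.MLC.H24

open Filter Topology Metric Set
open Pool.Agent.Work.MLC Pool.Agent.Work.MLC.Tr

lemma MS_norm {c : ℂ} (hc : c ∈ MS) : ‖c‖ ≤ 4 := by
  have h1 := norm_it_le_of_G_zero (mem_M_iff.1 hc) 2
  have h2 : it c 2 0 = c ^ 2 + c := by
    rw [it_succ, it_one, f_apply, f_apply]; ring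
  rw [h2] at h1
  have h3 : ‖c‖ ^ 2 ≤ ‖c ^ 2 + c‖ + ‖c‖ := by
    rw [← norm_pow]
    calc ‖c ^ 2‖ = ‖(c ^ 2 + c) - c‖ := by ring_nf
      _ ≤ _ := norm_sub_le _ _
  nlinarith [norm_nonneg c]

end Pool.Agent.Work.MLC.H24

/-! # The statement near the roots from the data of the satellite component (helper24) -/

namespace Pool.Agent.Work.MLC.H24

open Filter Topology Metric Set
open Pool.Agent.Work.MLC Pool.Agent.Work.MLC.Tr

/-- the data of the satellite of the main cardioid at the root of the limb `x`, in the coordinate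
`L` = logarithm of the multiplier of the satellite cycle, near the root (`L = 0`): `g L` is the
shift of the logarithm of the multiplier of the parent, `T` the rotation numbers of the satellite
cycle -/
structure ChildRoot (x : ℚ) (R : ℝ) (g : ℂ → ℂ) (T : ℂ → ℚ → Prop) : Prop where
  R_pos : 0 < R
  R_le : R ≤ 1
  diff : DifferentiableOn ℂ g (ball 0 R)
  der : ∀ L ∈ ball (0 : ℂ) R, deriv g L ≠ 0
  zero : g 0 = 0
  bd : ∀ L ∈ ball (0 : ℂ) R, ‖g L‖ ≤ 2 / (x.den : ℝ) ^ 2 * ‖L‖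
  surj : ∀ e : ℂ, ‖e‖ ≤ R / (4 * (x.den : ℝ) ^ 2) → ∃ L ∈ ball (0 : ℂ) R, g L = e ∧
    ‖L‖ ≤ 2 * (x.den : ℝ) ^ 2 * ‖e‖
  left : ∀ L ∈ ball (0 : ℂ) R, L.re ≤ 0 → cc (axisPt x + g L) ∈ MS
  T_dom : ∀ L y, T L y → 0 < L.re ∧ cc (axisPt x + g L) ∈ MS
  T_ex : ∀ L ∈ ball (0 : ℂ) R, 0 < L.re → cc (axisPt x + g L) ∈ MS → ∃ y, T L y
  T_uniq : ∀ L y y', T L y → T L y' → y = y'
  T_open : ∀ L ∈ ball (0 : ℂ) R, ∀ y, T L y → ∀ᶠ L' in 𝓝 L, cc (axisPt x + g L') ∈ MS → T L' y
  ply : ∀ L y, T L y → ‖L - axisPt y‖ ^ 2 ≤ 2 * x.den * Real.log 2 / y.den * L.re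
  nonint : ∀ L ∈ ball (0 : ℂ) R, ∀ y, T1 (axisPt x + g L) x → T L y → y.den ≠ 1

lemma norm_axisPt (y : ℚ) : ‖axisPt y‖ = 2 * Real.pi * |(y : ℝ)| := by
  have := LimbData.axisPt_sub y 0
  simpa [axisPt] using this

/-- `exp` is not `1` near the root -/
lemma exp_near_ne {x : ℚ} (hx : x.den ≠ 1) {e : ℂ} (he : ‖e‖ < 2 * Real.pi / x.den) :
    Complex.exp (axisPt x + e) ≠ 1 := by
  intro h
  rw [Complex.exp_eq_one_iff] at h
  obtain ⟨n, hn⟩ := h
  have h1 : axisPt (x - n) = - e := by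
    have h2 : e = axisPt n - axisPt x := by
      have h3 : axisPt (n : ℚ) = n * (2 * Real.pi * Complex.I) := by
        simp only [axisPt]; push_cast; ring
      rw [h3, ← hn]; ring
    rw [h2]; simp only [axisPt]; push_cast; ring
  have h2 := norm_axisPt (x - n)
  rw [h1, norm_neg] at h2
  have h3 : x ≠ (n : ℚ) := by
    intro h; apply hx; rw [h]; simp
  have h4 := LimbData.rat_apart h3
  have h5 : (((n : ℚ)).den : ℝ) = 1 := by simp
  rw [h5, mul_one] at h4
  rw [h2] at he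
  have hpi : (0 : ℝ) < 2 * Real.pi := by positivity
  have h6 : (2 * Real.pi) * (1 / (x.den : ℝ)) ≤ 2 * Real.pi * |((x - n : ℚ) : ℝ)| := by
    apply mul_le_mul_of_nonneg_left _ hpi.le
    push_cast
    push_cast at h4
    exact h4
  have h7 : (2 * Real.pi) * (1 / (x.den : ℝ)) = 2 * Real.pi / x.den := by ring
  linarith

variable {x : ℚ} {R : ℝ} {g : ℂ → ℂ} {T : ℂ → ℚ → Prop}

lemma ChildRoot.g_small (h : ChildRoot x R g T) (hx : x.den ≠ 1) {L : ℂ} (hL : L ∈ ball (0 : ℂ) R) :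
    ‖g L‖ ≤ 0.5 ∧ ‖g L‖ < 2 * Real.pi / x.den := by
  have hq := two_le_den hx
  have hq0 : (0 : ℝ) < x.den := by linarith
  have h1 := h.bd L hL
  rw [mem_ball_zero_iff] at hL
  have h2 : ‖L‖ < 1 := hL.trans_le h.R_le
  have h3 : 2 / (x.den : ℝ) ^ 2 ≤ 1 / x.den := by
    rw [div_le_div_iff₀ (by positivity) hq0]
    nlinarith
  have h4 : 2 / (x.den : ℝ) ^ 2 * ‖L‖ ≤ 1 / x.den * 1 := by gcongr
  have h5 : ‖g L‖ ≤ 1 / x.den := by linarith
  have h6 : (1 : ℝ) / x.den ≤ 1 / 2 := by gcongr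
  refine ⟨by linarith, lt_of_le_of_lt h5 ?_⟩
  have := Real.pi_gt_three
  gcongr
  linarith

/-- limb data for the satellite branch -/
theorem ChildRoot.limbData (h : ChildRoot x R g T) (hx : x.den ≠ 1) {y : ℚ} {R' : ℝ} (hR' : 0 < R')
    (hsub : ball (axisPt y) R' ⊆ ball 0 R) :
    LimbData MS y R' (2 * x.den * Real.log 2) (fun L => cc (axisPt x + g L)) T := by
  have hlog : 0 < Real.log 2 := Real.log_pos (by norm_num)
  have hq : (0 : ℝ) < x.den := by exact_mod_cast x.pos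
  have hcont : ContinuousOn (fun L => cc (axisPt x + g L)) (ball 0 R) :=
    differentiable_cc.continuous.comp_continuousOn (continuousOn_const.add h.diff.continuousOn)
  have hstrict : ∀ L ∈ ball (0 : ℂ) R, ∃ d : ℂ, d ≠ 0 ∧
      HasStrictDerivAt (fun L => cc (axisPt x + g L)) d L := by
    intro L hL
    have han : AnalyticAt ℂ g L := h.diff.analyticAt (isOpen_ball.mem_nhds hL)
    have h1 := han.hasStrictDerivAt
    have hg0 : deriv g L ≠ 0 := h.der L hL
    have h2 : HasStrictDerivAt cc (Complex.exp (axisPt x + g L) *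
        (1 - Complex.exp (axisPt x + g L)) / 2) (axisPt x + g L) := by
      have := (differentiable_cc.analyticAt (axisPt x + g L)).hasStrictDerivAt
      rwa [deriv_cc] at this
    have h5 : HasStrictDerivAt (fun L => axisPt x + g L) (deriv g L) L := h1.const_add (axisPt x)
    refine ⟨_, ?_, HasStrictDerivAt.comp (h₂ := cc) (h := fun L => axisPt x + g L) L h2 h5⟩
    have h3 := exp_near_ne hx (h.g_small hx hL).2
    have h4 : (1 : ℂ) - Complex.exp (axisPt x + g L) ≠ 0 := sub_ne_zero.2 h3.symm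
    exact mul_ne_zero (div_ne_zero (mul_ne_zero (Complex.exp_ne_zero _) h4) two_ne_zero) hg0
  refine ⟨hR', by positivity, hcont.mono hsub, fun L hL => h.left L (hsub hL), ?_, ?_, h.T_dom,
    fun L hL => h.T_ex L (hsub hL), h.T_uniq, fun L hL => h.T_open L (hsub hL), h.ply⟩
  · obtain ⟨d, hd, h1⟩ := hstrict _ (hsub (mem_ball_self hR'))
    have hs := h1.hasStrictFDerivAt_equiv hd
    have hN : (hs.toOpenPartialHomeomorph _).source ∈ 𝓝 (axisPt y) :=
      (hs.toOpenPartialHomeomorph _).open_source.mem_nhds hs.mem_toOpenPartialHomeomorph_source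
    have hi : InjOn (fun L => cc (axisPt x + g L)) (hs.toOpenPartialHomeomorph _).source := by
      have := (hs.toOpenPartialHomeomorph _).injOn
      rwa [HasStrictFDerivAt.toOpenPartialHomeomorph_coe] at this
    obtain ⟨δ, hδ, hδ2⟩ := Metric.mem_nhds_iff.1 hN
    exact ⟨δ, hδ, hi.mono hδ2⟩
  · intro L hL U hU
    obtain ⟨d, hd, h1⟩ := hstrict _ (hsub hL)
    rw [← h1.map_nhds_eq hd]
    exact image_mem_map hU

/-- sizes -/
lemma ply_sizes {n : ℝ} (hn : 2 ≤ n) {L : ℂ} {y : ℚ} (hy : y.den ≠ 1)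
    (h : ‖L - axisPt y‖ ^ 2 ≤ 2 * n * Real.log 2 / y.den * L.re) :
    ‖axisPt y‖ + 2 * n * Real.log 2 / y.den ≤ n ^ 2 * ‖L‖ := by
  have hq2 := two_le_den hy
  have hq : (0 : ℝ) < y.den := by linarith
  have hlog := Real.log_two_lt_d9
  have hlog0 : 0 < Real.log 2 := Real.log_pos (by norm_num)
  set A := 2 * n * Real.log 2 with hA
  have hA0 : 0 < A := by positivity
  have hA1 : A ≤ 1.3864 * n := by rw [hA]; nlinarith
  -- `1 / q ≤ |y|`
  have hyq : 1 / (y.den : ℝ) ≤ |(y : ℝ)| := by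
    have hne : y ≠ (0 : ℚ) := by
      intro h0; apply hy; rw [h0]; simp
    have := LimbData.rat_apart hne
    simpa using this
  set Y := ‖axisPt y‖ with hY
  have hYn : Y = 2 * Real.pi * |(y : ℝ)| := norm_axisPt y
  have hpi : 3.14 < Real.pi := Real.pi_gt_d2
  have hYq : 6.28 * (1 / (y.den : ℝ)) ≤ Y := by
    rw [hYn]
    have h1 : (6.28 : ℝ) ≤ 2 * Real.pi := by linarith
    have h0 : (0 : ℝ) ≤ 1 / y.den := by positivity
    calc 6.28 * (1 / (y.den : ℝ)) ≤ 2 * Real.pi * (1 / y.den) := by gcongr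
      _ ≤ _ := by gcongr
  have hY0 : 0 ≤ Y := norm_nonneg _
  set t := ‖L - axisPt y‖ with ht
  have ht0 : 0 ≤ t := norm_nonneg _
  set l := ‖L‖ with hl
  have hl0 : 0 ≤ l := norm_nonneg _
  have hre : L.re ≤ l := Complex.re_le_norm L
  have hYt : Y ≤ l + t := by
    have : axisPt y = L - (L - axisPt y) := by ring
    calc Y = ‖L - (L - axisPt y)‖ := by rw [hY, ← this]
      _ ≤ l + t := norm_sub_le _ _
  have hAq : A / y.den ≤ 0.2208 * n * Y := by
    have h1 : A / y.den = A * (1 / y.den) := by ring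
    rw [h1]
    calc A * (1 / (y.den : ℝ)) ≤ (1.3864 * n) * (Y / 6.28) := by
          apply mul_le_mul hA1 _ (by positivity) (by positivity)
          rw [le_div_iff₀ (by norm_num)]; linarith
      _ = 1.3864 / 6.28 * (n * Y) := by ring
      _ ≤ 0.2208 * (n * Y) := by
          apply mul_le_mul_of_nonneg_right _ (mul_nonneg (by linarith) hY0)
          norm_num
      _ = 0.2208 * n * Y := by ring
  have ht2 : t ^ 2 ≤ (0.2208 * n * l) * Y := by
    calc t ^ 2 ≤ A / y.den * L.re := h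
      _ ≤ A / y.den * l := by gcongr
      _ ≤ (0.2208 * n * Y) * l := by gcongr
      _ = _ := by ring
  have ht3 : t ≤ (0.2208 * n * l + Y) / 2 := by
    apply le_of_sq_le_sq _ (by positivity)
    nlinarith [sq_nonneg (0.2208 * n * l - Y)]
  have hY2 : Y ≤ 2 * l + 0.2208 * n * l := by linarith
  have hY3 : Y ≤ 1.2208 * n * l := by nlinarith
  have hnl : 0 ≤ n * l := by positivity
  calc Y + A / y.den ≤ 1.2208 * n * l + 0.2208 * n * (1.2208 * n * l) := by
        gcongr
        exact hAq.trans (by gcongr)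
    _ ≤ n ^ 2 * l := by nlinarith

theorem ChildRoot.near (h : ChildRoot x R g T) (hx : x.den ≠ 1) {L₁ : ℂ} (hT : T1 L₁ x)
    (hL₁ : ‖L₁ - axisPt x‖ ≤ R / (4 * (x.den : ℝ) ^ 4)) :
    ∃ K ⊆ MS, IsCompact K ∧ IsPreconnected K ∧ cc L₁ ∈ K ∧ cc (axisPt x) ∈ K ∧
      ∀ u ∈ K, ‖u - cc (axisPt x)‖ ≤ 16 * (x.den : ℝ) ^ 2 * ‖L₁ - axisPt x‖ := by
  have hq := two_le_den hx
  have hq0 : (0 : ℝ) < x.den := by linarith
  set n : ℝ := (x.den : ℝ) with hn
  set e := L₁ - axisPt x with he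
  have hRpos := h.R_pos
  have h42 : R / (4 * n ^ 4) ≤ R / (4 * n ^ 2) := by
    have : n ^ 2 ≤ n ^ 4 := pow_le_pow_right₀ (by linarith) (by norm_num)
    gcongr
  obtain ⟨ℓ, hℓ, hgℓ, hℓn⟩ := h.surj e (hL₁.trans h42)
  have hc : cc (axisPt x + g ℓ) = cc L₁ := by rw [hgℓ, he]; ring_nf
  have hc0 : cc (axisPt x + g 0) = cc (axisPt x) := by rw [h.zero, add_zero]
  have h0 : (0 : ℂ) ∈ ball (0 : ℂ) R := mem_ball_self hRpos
  have hcont : ContinuousOn (fun L => cc (axisPt x + g L)) (ball 0 R) :=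
    differentiable_cc.continuous.comp_continuousOn (continuousOn_const.add h.diff.continuousOn)
  -- size of images
  have hsize : ∀ L ∈ ball (0 : ℂ) R, ‖L‖ ≤ n ^ 2 * ‖ℓ‖ →
      ‖cc (axisPt x + g L) - cc (axisPt x)‖ ≤ 16 * n ^ 2 * ‖e‖ := by
    intro L hL hL2
    have h1 := (h.g_small hx hL).1
    have h2 := cc_lip (x := x) (L := axisPt x + g L) (L' := axisPt x)
      (by rw [add_sub_cancel_left]; linarith) (by simp; norm_num)
    rw [add_sub_cancel_left] at h2
    have h3 := h.bd L hL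
    calc ‖cc (axisPt x + g L) - cc (axisPt x)‖ ≤ 4 * ‖g L‖ := h2
      _ ≤ 4 * (2 / n ^ 2 * ‖L‖) := by gcongr
      _ ≤ 4 * (2 / n ^ 2 * (n ^ 2 * ‖ℓ‖)) := by gcongr
      _ = 8 * ‖ℓ‖ := by field_simp; ring
      _ ≤ 8 * (2 * n ^ 2 * ‖e‖) := by gcongr
      _ = _ := by ring
  have hnR : n ^ 2 * ‖ℓ‖ < R := by
    calc n ^ 2 * ‖ℓ‖ ≤ n ^ 2 * (2 * n ^ 2 * ‖e‖) := by gcongr
      _ = 2 * n ^ 4 * ‖e‖ := by ring
      _ ≤ 2 * n ^ 4 * (R / (4 * n ^ 4)) := by gcongr
      _ = R / 2 := by field_simp; norm_num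
      _ < R := by linarith
  have h1n : ‖ℓ‖ ≤ n ^ 2 * ‖ℓ‖ := by
    have : (1 : ℝ) ≤ n ^ 2 := by nlinarith
    nlinarith [norm_nonneg ℓ]
  rcases le_or_gt ℓ.re 0 with hre | hre
  · -- in the closed satellite component
    have hsegb : segment ℝ ℓ 0 ⊆ ball 0 R := (convex_ball 0 R).segment_subset hℓ h0
    have hsegre : ∀ z ∈ segment ℝ ℓ 0, z.re ≤ 0 := by
      have hcv : Convex ℝ {z : ℂ | z.re ≤ 0} := convex_halfSpace_re_le 0
      exact fun z hz => hcv.segment_subset hre (by simp) hz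
    have hsegn : ∀ z ∈ segment ℝ ℓ 0, ‖z‖ ≤ ‖ℓ‖ := by
      intro z hz
      have : segment ℝ ℓ 0 ⊆ closedBall (0 : ℂ) ‖ℓ‖ :=
        (convex_closedBall 0 _).segment_subset (by simp) (by simp)
      simpa using this hz
    refine ⟨(fun L => cc (axisPt x + g L)) '' segment ℝ ℓ 0, ?_, ?_, ?_, ?_, ?_, ?_⟩
    · rintro _ ⟨z, hz, rfl⟩
      exact h.left z (hsegb hz) (hsegre z hz)
    · have : IsCompact (segment ℝ ℓ (0 : ℂ)) := by
        rw [← Path.range_segment]; exact isCompact_range (by fun_prop)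
      exact this.image_of_continuousOn (hcont.mono hsegb)
    · exact (convex_segment ℓ 0).isPreconnected.image _ (hcont.mono hsegb)
    · exact ⟨ℓ, left_mem_segment ℝ ℓ 0, hc⟩
    · exact ⟨0, right_mem_segment ℝ ℓ 0, hc0⟩
    · rintro _ ⟨z, hz, rfl⟩
      exact hsize z (hsegb hz) ((hsegn z hz).trans h1n)
  · -- in a limb of the satellite component
    have hcM : cc (axisPt x + g ℓ) ∈ MS := by
      rw [hc]; exact ((rotData one_pos).dom _ _ _ _ hT).2
    obtain ⟨y, hy⟩ := h.T_ex ℓ hℓ hre hcM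
    have hT' : T1 (axisPt x + g ℓ) x := by
      have : axisPt x + g ℓ = L₁ := by rw [hgℓ, he]; ring
      rw [this]; exact hT
    have hyd := h.nonint ℓ hℓ y hT' hy
    have hply := h.ply ℓ y hy
    have hs := ply_sizes hq hyd hply
    set An := 2 * n * Real.log 2 with hAn
    have hlog : 0 < Real.log 2 := Real.log_pos (by norm_num)
    have hAn0 : 0 < An := by positivity
    have hyq : (0 : ℝ) < y.den := by exact_mod_cast y.pos
    have hAy : 0 < An / y.den := by positivity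
    set R' := R - ‖axisPt y‖ with hR'
    have hAR : An / y.den < R' := by rw [hR']; linarith
    have hR'0 : 0 < R' := hAy.trans hAR
    have hsub : ball (axisPt y) R' ⊆ ball 0 R := by
      intro z hz
      rw [mem_ball, dist_eq_norm] at hz
      rw [mem_ball_zero_iff]
      calc ‖z‖ = ‖(z - axisPt y) + axisPt y‖ := by ring_nf
        _ ≤ ‖z - axisPt y‖ + ‖axisPt y‖ := norm_add_le _ _
        _ < R' + ‖axisPt y‖ := by gcongr
        _ = R := by rw [hR']; ring
    have hLD := h.limbData hx hR'0 hsub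
    have hadm : LimbData.Adm y R' An y := by
      unfold LimbData.Adm
      simp only [sub_self, abs_zero, mul_zero, add_zero]
      exact hAR
    have hP := hLD.P_sub y
    set c' := fun L => cc (axisPt x + g L) with hc'
    have hyb : axisPt y ∈ ball (0 : ℂ) R := by
      rw [mem_ball_zero_iff]; linarith
    have hsegb : segment ℝ (axisPt y) 0 ⊆ ball 0 R := (convex_ball 0 R).segment_subset hyb h0
    have hsegre : ∀ z ∈ segment ℝ (axisPt y) 0, z.re ≤ 0 := by
      have hcv : Convex ℝ {z : ℂ | z.re ≤ 0} := convex_halfSpace_re_le 0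
      exact fun z hz => hcv.segment_subset (by simp [LimbData.axisPt_re]) (by simp) hz
    have hsegn : ∀ z ∈ segment ℝ (axisPt y) 0, ‖z‖ ≤ ‖axisPt y‖ := by
      intro z hz
      have : segment ℝ (axisPt y) 0 ⊆ closedBall (0 : ℂ) ‖axisPt y‖ :=
        (convex_closedBall 0 _).segment_subset (by simp) (by simp)
      simpa using this hz
    refine ⟨LimbData.K c' T y ∪ c' '' segment ℝ (axisPt y) 0, ?_, ?_, ?_, ?_, ?_, ?_⟩
    · apply union_subset (hLD.K_sub hadm)
      rintro _ ⟨z, hz, rfl⟩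
      exact h.left z (hsegb hz) (hsegre z hz)
    · apply (hLD.isCompact_K isCompact_MM.isClosed hadm).union
      have : IsCompact (segment ℝ (axisPt y) (0 : ℂ)) := by
        rw [← Path.range_segment]; exact isCompact_range (by fun_prop)
      exact this.image_of_continuousOn (hcont.mono hsegb)
    · exact (hLD.K_conn isCompact_MM.isClosed isPreconnected_MM hadm).union (c' (axisPt y))
        (Or.inl rfl) (mem_image_of_mem c' (left_mem_segment ℝ (axisPt y) 0))
        ((convex_segment (axisPt y) 0).isPreconnected.image _ (hcont.mono hsegb))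
    · exact Or.inl (Or.inr ⟨ℓ, hy, hc⟩)
    · exact Or.inr ⟨0, right_mem_segment ℝ _ _, hc0⟩
    · rintro u (hu | ⟨z, hz, rfl⟩)
      · rw [LimbData.K_eq] at hu
        obtain ⟨z, hz, rfl⟩ := hu
        have h1 := hP hz
        rw [mem_closedBall, dist_eq_norm] at h1
        have h2 : ‖z‖ ≤ n ^ 2 * ‖ℓ‖ := by
          calc ‖z‖ = ‖(z - axisPt y) + axisPt y‖ := by ring_nf
            _ ≤ ‖z - axisPt y‖ + ‖axisPt y‖ := norm_add_le _ _
            _ ≤ An / y.den + ‖axisPt y‖ := by gcongr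
            _ ≤ _ := by linarith
        exact hsize z (by rw [mem_ball_zero_iff]; linarith) h2
      · refine hsize z (hsegb hz) ((hsegn z hz).trans ?_)
        linarith

end Pool.Agent.Work.MLC.H24
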