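import Pool.Agent.Work.MLC.H24P

set_option autoImplicit false

/-! # Theorem H with explicit constants (helper24) -/

namespace Pool.Agent.Work.MLC.H24

open Filter Topology Metric Set
open Pool.Agent.Work.MLC Pool.Agent.Work.MLC.Tr

/-- paths inside of the closed main cardioid, exponent `2 / 3` -/
theorem heart_path2 {z w : ℂ} (hz : z ∈ heart) (hw : w ∈ heart) :
    ∃ K ⊆ heart, IsCompact K ∧ IsPreconnected K ∧ z ∈ K ∧ w ∈ K ∧
      ∀ u ∈ K, ∃ t : ℝ, 0 ≤ t ∧ t ^ 3 ≤ 4 * ‖z - w‖ ^ 2 ∧ ‖u - w‖ ≤ ‖z - w‖ + t := by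
  obtain ⟨l, hl, rfl⟩ := hz
  obtain ⟨l', hl', rfl⟩ := hw
  have hcl : Continuous cl := by unfold cl; fun_prop
  have hseg : segment ℝ l l' ⊆ closedBall 0 1 := (convex_closedBall 0 1).segment_subset hl hl'
  refine ⟨cl '' segment ℝ l l', image_mono hseg, ?_, ?_, ?_, ?_, ?_⟩
  · rw [← Path.range_segment]
    exact (isCompact_range (by fun_prop)).image hcl
  · exact (convex_segment l l').isPreconnected.image _ hcl.continuousOn
  · exact ⟨l, left_mem_segment ℝ l l', rfl⟩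
  · exact ⟨l', right_mem_segment ℝ l l', rfl⟩
  · rintro _ ⟨y, hy, rfl⟩
    rw [mem_closedBall_zero_iff] at hl hl'
    have hcube := cl_cube hl hl'
    set r := ‖l - l'‖ with hr
    have hr0 : 0 ≤ r := norm_nonneg _
    have hyl : ‖y - l'‖ ≤ r := by
      have h1 : segment ℝ l l' ⊆ closedBall l' r :=
        (convex_closedBall l' r).segment_subset (by rw [mem_closedBall, dist_eq_norm])
          (mem_closedBall_self hr0)
      have h2 := h1 hy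
      rwa [mem_closedBall, dist_eq_norm] at h2
    have hyl2 : ‖l - y‖ ≤ r := by
      have h1 : segment ℝ l l' ⊆ closedBall l r :=
        (convex_closedBall l r).segment_subset (mem_closedBall_self hr0)
          (by rw [mem_closedBall, dist_comm, dist_eq_norm])
      have h2 := h1 hy
      rwa [mem_closedBall, dist_comm, dist_eq_norm] at h2
    refine ⟨r ^ 2 / 4, by positivity, ?_, ?_⟩
    · have h1 : (r ^ 2 / 4) ^ 3 = (r ^ 3) ^ 2 / 64 := by ring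
      rw [h1]
      have h2 : (r ^ 3) ^ 2 ≤ (16 * ‖cl l - cl l'‖) ^ 2 := by gcongr
      nlinarith
    · have h4 : ‖(4 : ℂ)‖ = 4 := by simp
      have e1 : ‖cl l - cl l'‖ = r * ‖2 - l - l'‖ / 4 := by
        rw [cl_sub, norm_div, norm_mul, h4]
      have h5 : ‖2 - y - l'‖ ≤ ‖2 - l - l'‖ + r := by
        calc ‖2 - y - l'‖ = ‖(2 - l - l') + (l - y)‖ := by ring_nf
          _ ≤ ‖2 - l - l'‖ + ‖l - y‖ := norm_add_le _ _
          _ ≤ _ := by gcongr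
      calc ‖cl y - cl l'‖ = ‖y - l'‖ * ‖2 - y - l'‖ / 4 := by
            rw [cl_sub, norm_div, norm_mul, h4]
        _ ≤ r * (‖2 - l - l'‖ + r) / 4 := by gcongr
        _ = ‖cl l - cl l'‖ + r ^ 2 / 4 := by rw [e1]; ring

lemma cube_le2 {t m d b : ℝ} (hm : 1 ≤ m) (hd : 0 < d) (h : t ^ 3 ≤ 4 * (m * d ^ b) ^ 2) :
    t ≤ 1.6 * m * d ^ (2 * b / 3) := by
  by_contra hcon
  push Not at hcon
  have hm0 : 0 < m := by linarith
  have h1 : (1.6 * m * d ^ (2 * b / 3)) ^ 3 < t ^ 3 := by gcongr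
  have h2 : (1.6 * m * d ^ (2 * b / 3)) ^ 3 = 4.096 * m ^ 3 * (d ^ b) ^ 2 := by
    rw [mul_pow, ← Real.rpow_natCast (d ^ (2 * b / 3)) 3, ← Real.rpow_mul hd.le,
      ← Real.rpow_natCast (d ^ b) 2, ← Real.rpow_mul hd.le, mul_pow]
    have e : 2 * b / 3 * ((3 : ℕ) : ℝ) = b * ((2 : ℕ) : ℝ) := by push_cast; ring
    rw [e]; norm_num
  rw [h2] at h1
  rw [mul_pow] at h
  have h3 : 0 < (d ^ b) ^ 2 := by positivity
  have h4 : m ^ 2 ≤ m ^ 3 := pow_le_pow_right₀ hm (by norm_num)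
  have h5 : m ^ 2 * (d ^ b) ^ 2 ≤ m ^ 3 * (d ^ b) ^ 2 := mul_le_mul_of_nonneg_right h4 h3.le
  have h6 : 0 < m ^ 3 * (d ^ b) ^ 2 := by positivity
  nlinarith

/-- going on from the root `r` to a point of the cardioid -/
lemma step2 {c₀ c₁ r : ℂ} {ρ M b δ : ℝ} {K₁ : Set ℂ} (hc₀ : c₀ ∈ heart) (hr : r ∈ heart)
    (hM : 0 ≤ M) (hδ : 0 < δ) (hδ1 : δ ≤ 1) (hb : 0 < b) (hb1 : b ≤ 1) (hd : ‖c₁ - c₀‖ = δ)
    (hK₁ : K₁ ⊆ MS) (hKc : IsCompact K₁) (hKp : IsPreconnected K₁) (h1 : c₁ ∈ K₁) (h2 : r ∈ K₁)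
    (hρ : ∀ u ∈ K₁, ‖u - r‖ ≤ ρ) (hρM : ρ ≤ M * δ ^ b) :
    ∃ K ⊆ MS, IsCompact K ∧ IsPreconnected K ∧ c₀ ∈ K ∧ c₁ ∈ K ∧
      K ⊆ closedBall c₀ (2.6 * (M + 1) * δ ^ (2 * b / 3)) := by
  have hδb : δ ≤ δ ^ b := by
    calc δ = δ ^ (1 : ℝ) := (Real.rpow_one δ).symm
      _ ≤ δ ^ b := Real.rpow_le_rpow_of_exponent_ge hδ hδ1 hb1
  have hδb3 : δ ^ b ≤ δ ^ (2 * b / 3) := Real.rpow_le_rpow_of_exponent_ge hδ hδ1 (by linarith)
  have hδ0 : 0 < δ ^ b := by positivity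
  have hδ3 : 0 < δ ^ (2 * b / 3) := by positivity
  have hrc : ‖r - c₀‖ ≤ (M + 1) * δ ^ b := by
    have e : r - c₀ = (c₁ - c₀) - (c₁ - r) := by ring
    calc ‖r - c₀‖ = ‖(c₁ - c₀) - (c₁ - r)‖ := by rw [e]
      _ ≤ ‖c₁ - c₀‖ + ‖c₁ - r‖ := norm_sub_le _ _
      _ ≤ δ + ρ := by rw [hd]; gcongr; exact hρ _ h1
      _ ≤ _ := by linarith
  have hmd : (M + 1) * δ ^ b ≤ (M + 1) * δ ^ (2 * b / 3) := by gcongr
  obtain ⟨K₂, hK₂, hK₂c, hK₂p, hr2, hc2, hK₂s⟩ := heart_path2 hr hc₀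
  refine ⟨K₁ ∪ K₂, union_subset hK₁ (hK₂.trans heart_sub), hKc.union hK₂c,
    hKp.union r h2 hr2 hK₂p, Or.inr hc2, Or.inl h1, ?_⟩
  rintro u (hu | hu)
  · rw [mem_closedBall, dist_eq_norm]
    have e : u - c₀ = (u - r) + (r - c₀) := by ring
    calc ‖u - c₀‖ = ‖(u - r) + (r - c₀)‖ := by rw [e]
      _ ≤ ‖u - r‖ + ‖r - c₀‖ := norm_add_le _ _
      _ ≤ M * δ ^ b + (M + 1) * δ ^ b := by gcongr; exact (hρ u hu).trans hρM
      _ ≤ 2.6 * (M + 1) * δ ^ (2 * b / 3) := by nlinarith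
  · rw [mem_closedBall, dist_eq_norm]
    obtain ⟨t, ht0, ht, hut⟩ := hK₂s u hu
    have h3 : t ≤ 1.6 * (M + 1) * δ ^ (2 * b / 3) := by
      apply cube_le2 (by linarith) hδ
      calc t ^ 3 ≤ 4 * ‖r - c₀‖ ^ 2 := ht
        _ ≤ 4 * ((M + 1) * δ ^ b) ^ 2 := by gcongr
    calc ‖u - c₀‖ ≤ ‖r - c₀‖ + t := hut
      _ ≤ (M + 1) * δ ^ (2 * b / 3) + 1.6 * (M + 1) * δ ^ (2 * b / 3) := by
          gcongr; exact hrc.trans hmd
      _ = _ := by ring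

/-- **Theorem H**, explicit -/
theorem hoelder_explicit (hcr : ∀ x : ℚ, 0 < x → x < 1 → x.den ≠ 1 →
    ∃ g T, ChildRoot x (1 / 14400000 / (x.den : ℝ) ^ 7) g T)
    {c₀ c₁ : ℂ} (hc₀ : c₀ ∈ heart) (hc₁ : c₁ ∈ MS) :
    ∃ K ⊆ MS, IsCompact K ∧ IsPreconnected K ∧
      c₀ ∈ K ∧ c₁ ∈ K ∧ K ⊆ closedBall c₀ (90 * ‖c₁ - c₀‖ ^ (1 / 66 : ℝ)) := by
  have hc₀M := heart_sub hc₀
  rcases eq_or_ne c₁ c₀ with hne | hne
  · subst hne
    refine ⟨{c₁}, by simpa using hc₁, isCompact_singleton, isPreconnected_singleton, rfl, rfl, ?_⟩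
    intro u hu
    rw [mem_singleton_iff] at hu
    rw [hu]
    exact mem_closedBall_self (by positivity)
  set δ := ‖c₁ - c₀‖ with hδdef
  have hδ : 0 < δ := norm_pos_iff.2 (sub_ne_zero.2 hne)
  by_cases hδ1 : 1 ≤ δ
  · refine ⟨MS, Subset.rfl, isCompact_MM, isPreconnected_MM, hc₀M, hc₁, ?_⟩
    intro u hu
    rw [mem_closedBall, dist_eq_norm]
    have h1 : 1 ≤ δ ^ (1 / 66 : ℝ) := Real.one_le_rpow hδ1 (by norm_num)
    calc ‖u - c₀‖ ≤ ‖u‖ + ‖c₀‖ := norm_sub_le _ _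
      _ ≤ 4 + 4 := add_le_add (MS_norm hu) (MS_norm hc₀M)
      _ ≤ 90 * δ ^ (1 / 66 : ℝ) := by linarith
  push Not at hδ1
  set v := δ ^ (1 / 44 : ℝ) with hv
  have hv0 : 0 < v := by positivity
  have hv1 : v ≤ 1 := Real.rpow_le_one hδ.le hδ1.le (by norm_num)
  have h66 : δ ^ (2 * (1 / 44 : ℝ) / 3) = δ ^ (1 / 66 : ℝ) := by norm_num
  have hfin : ∀ M : ℝ, 0 ≤ M → M ≤ 32 → ∀ u : ℂ,
      u ∈ closedBall c₀ (2.6 * (M + 1) * δ ^ (2 * (1 / 44 : ℝ) / 3)) →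
      u ∈ closedBall c₀ (90 * δ ^ (1 / 66 : ℝ)) := by
    intro M hM0 hM u hu
    refine closedBall_subset_closedBall ?_ hu
    rw [h66]
    have h2 : (0 : ℝ) ≤ δ ^ (1 / 66 : ℝ) := by positivity
    nlinarith
  by_cases hh : c₁ ∈ heart
  · obtain ⟨K, hK, hKc, hKp, h1, h2, h3⟩ := heart_path2 hh hc₀
    refine ⟨K, hK.trans heart_sub, hKc, hKp, h2, h1, ?_⟩
    intro u hu
    refine hfin 0 le_rfl (by norm_num) u ?_
    rw [mem_closedBall, dist_eq_norm]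
    obtain ⟨t, ht0, ht, hut⟩ := h3 u hu
    have h4 : t ≤ 1.6 * 1 * δ ^ (2 * (1 : ℝ) / 3) := by
      apply cube_le2 le_rfl hδ
      rw [Real.rpow_one, one_mul]
      exact ht
    have h5 : δ ^ (2 * (1 : ℝ) / 3) ≤ δ ^ (2 * (1 / 44 : ℝ) / 3) :=
      Real.rpow_le_rpow_of_exponent_ge hδ hδ1.le (by norm_num)
    have h6 : δ ≤ δ ^ (2 * (1 / 44 : ℝ) / 3) := by
      calc δ = δ ^ (1 : ℝ) := (Real.rpow_one δ).symm
        _ ≤ _ := Real.rpow_le_rpow_of_exponent_ge hδ hδ1.le (by norm_num)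
    rw [← hδdef] at hut
    linarith
  obtain ⟨L, x, hL, hLre, hL1, hT, hx0, hx1⟩ := cover hc₁ hh
  have hden : x.den ≠ 1 := by
    intro hd
    have h1 : x = (x.num : ℚ) := by
      conv_lhs => rw [← Rat.num_div_den x, hd]
      simp
    rw [h1] at hx0 hx1
    have h2 : (0 : ℤ) < x.num := by exact_mod_cast hx0
    have h3 : x.num < (1 : ℤ) := by exact_mod_cast hx1
    omega
  have hq := two_le_den hden
  set q : ℝ := (x.den : ℝ) with hqdef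
  have hq0 : (0 : ℝ) < q := by linarith
  -- the real part
  have hs : L.re ^ 2 ≤ 4 * δ := by
    obtain ⟨l', hl', hl'2⟩ := hc₀
    rw [mem_closedBall_zero_iff] at hl'
    have h1 : 1 + L.re ≤ ‖Complex.exp L‖ := by
      rw [Complex.norm_exp, add_comm]; exact Real.add_one_le_exp _
    have h2 := cl_dist hL1 (by linarith) hl'
    have h3 : cl (Complex.exp L) = c₁ := hL.symm
    rw [h3, hl'2, ← hδdef] at h2
    have h4 : L.re ^ 2 ≤ (‖Complex.exp L‖ - 1) ^ 2 := by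
      apply pow_le_pow_left₀ hLre.le; linarith
    linarith
  -- powers of `v`
  have hv44 : v ^ 44 = δ := by
    rw [hv, ← Real.rpow_natCast, ← Real.rpow_mul hδ.le]; norm_num
  have hs2 : L.re ≤ 2 * v ^ 22 := by
    have : L.re ^ 2 ≤ (2 * v ^ 22) ^ 2 := by
      have : (2 * v ^ 22) ^ 2 = 4 * v ^ 44 := by ring
      rw [this, hv44]; linarith
    exact le_of_sq_le_sq this (by positivity)
  have hLx : ‖L - axisPt x‖ ≤ 1.2 * v ^ 11 := by
    have h1 := T1_ply hT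
    have hA := A1_lt
    have h2 : A1 / x.den ≤ 0.7 := by
      rw [div_le_iff₀ hq0]; linarith
    have h3 : ‖L - axisPt x‖ ^ 2 ≤ (1.2 * v ^ 11) ^ 2 := by
      calc ‖L - axisPt x‖ ^ 2 ≤ A1 / x.den * L.re := h1
        _ ≤ 0.7 * (2 * v ^ 22) := by gcongr
        _ ≤ (1.2 * v ^ 11) ^ 2 := by
            have : (1.2 * v ^ 11) ^ 2 = 1.44 * v ^ 22 := by ring
            rw [this]; have : 0 ≤ v ^ 22 := by positivity
            linarith
    exact le_of_sq_le_sq h3 (by positivity)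
  by_cases hcase : v * q ≤ 0.193
  · -- near the root
    obtain ⟨g, T, hc⟩ := hcr x hx0 hx1 hden
    have hvq0 : 0 < v * q := by positivity
    have h11 : (v * q) ^ 11 ≤ 0.193 ^ 11 := by gcongr
    have h1 : ‖L - axisPt x‖ ≤ 1 / 14400000 / q ^ 7 / (4 * q ^ 4) := by
      refine hLx.trans ?_
      have e1 : (1 : ℝ) / 14400000 / q ^ 7 / (4 * q ^ 4) = 1 / 57600000 / q ^ 11 := by
        field_simp; norm_num
      rw [e1, le_div_iff₀ (by positivity)]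
      calc 1.2 * v ^ 11 * q ^ 11 = 1.2 * (v * q) ^ 11 := by ring
        _ ≤ 1.2 * 0.193 ^ 11 := by gcongr
        _ ≤ 1 / 57600000 := by norm_num
    obtain ⟨K, hK, hKc, hKp, hk1, hk2, hk3⟩ := hc.near hden hT h1
    rw [← hL] at hk1
    obtain ⟨K', h3, h4, h5, h6, h7, h8⟩ := step2 (ρ := 16 * q ^ 2 * ‖L - axisPt x‖) (M := 1)
      (b := 1 / 44) hc₀ (root_mem_heart x) zero_le_one hδ hδ1.le (by norm_num) (by norm_num) rfl
      hK hKc hKp hk1 hk2 hk3 (by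
        have h9 : (v * q) ^ 2 ≤ 0.193 ^ 2 := by gcongr
        have h10 : v ^ 9 ≤ v := by
          calc v ^ 9 ≤ v ^ 1 := pow_le_pow_of_le_one hv0.le hv1 (by norm_num)
            _ = v := pow_one v
        calc 16 * q ^ 2 * ‖L - axisPt x‖ ≤ 16 * q ^ 2 * (1.2 * v ^ 11) := by gcongr
          _ = 19.2 * ((v * q) ^ 2 * v ^ 9) := by ring
          _ ≤ 19.2 * (0.193 ^ 2 * v) := by gcongr
          _ ≤ 1 * v := by
              norm_num
              linarith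
          _ = 1 * δ ^ (1 / 44 : ℝ) := by rw [hv])
    exact ⟨K', h3, h4, h5, h6, h7, fun u hu => hfin 1 zero_le_one (by norm_num) u (h8 hu)⟩
  · -- large denominator
    push Not at hcase
    have h2 : 6 / q ≤ 32 * δ ^ (1 / 44 : ℝ) := by
      rw [div_le_iff₀ hq0, ← hv]
      nlinarith
    obtain ⟨K', h3, h4, h5, h6, h7, h8⟩ := step2 (ρ := 6 / x.den) (M := 32) (b := 1 / 44)
      (c₁ := c₁) hc₀ (root_mem_heart x) (by norm_num) hδ hδ1.le (by norm_num) (by norm_num) rfl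
      (limb_sub hden) (limb_compact hden) (limb_preconn hden) (by rw [hL]; exact mem_limb hT)
      (root_mem_limb x) (fun u hu => limb_size1 hden hu) h2
    exact ⟨K', h3, h4, h5, h6, h7, fun u hu => hfin 32 (by norm_num) le_rfl u (h8 hu)⟩

end Pool.Agent.Work.MLC.H24
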