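import Pool.Agent.Work.MLC.Rep13
import Pool.Agent.Work.MP_c6f924_an.HornB

set_option autoImplicit false

/-! # The exponent in Theorem H is at most one half (helper24) -/

namespace Pool.Agent.Work.MLC.H24

open Filter Topology Metric Set
open Pool.Agent.Work.MLC

lemma disc_mem_aux {c z m : ℂ} (hm : ‖m‖ ≤ 1) (hc : c = -1 + m / 4)
    (hz : z ^ 2 + z + m / 4 = 0) : c ∈ MS := by
  by_contra hM
  have h1 : it c 1 z = -1 - z := by
    rw [it_one, f_apply, hc]; linear_combination hz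
  have h2 : it c 2 z = z := by
    rw [it_succ, h1, f_apply, hc]; linear_combination hz
  have hP : (c, z) ∈ Per 2 := h2
  have h3 : mul 2 (c, z) = m := by
    unfold mul
    rw [Finset.prod_range_succ, Finset.prod_range_one]
    show 2 * it c 0 z * (2 * it c 1 z) = m
    rw [h1, it_zero]
    linear_combination -4 * hz
  have h4 := rep13 two_pos hP hM
  rw [h3] at h4
  linarith

lemma disc_mem {m : ℂ} (hm : ‖m‖ ≤ 1) : -1 + m / 4 ∈ MS := by
  obtain ⟨w, hw⟩ := IsAlgClosed.exists_pow_nat_eq (1 - m) two_pos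
  exact disc_mem_aux (z := (w - 1) / 2) hm rfl (by linear_combination hw / 4)

/-- the points used for the lower bound -/
lemma left_right {h : ℝ} (h0 : 0 < h) (h1 : h ≤ 1 / 4) :
    ‖(-1 + (h ^ 2 + h * Complex.I) : ℂ)‖ ≤ 1 ∧ ‖(1 + (-16 * h ^ 2 + 4 * h * Complex.I) : ℂ)‖ ≤ 1 := by
  have key : ∀ z : ℂ, z.re ^ 2 + z.im ^ 2 ≤ 1 → ‖z‖ ≤ 1 := by
    intro z hz
    have h2 : ‖z‖ ^ 2 = z.re ^ 2 + z.im ^ 2 := by
      rw [← Complex.normSq_eq_norm_sq, Complex.normSq_apply]; ring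
    nlinarith [norm_nonneg z]
  constructor
  · apply key
    have e1 : (-1 + (h ^ 2 + h * Complex.I) : ℂ).re = -1 + h ^ 2 := by
      simp [← Complex.ofReal_pow]
    have e2 : (-1 + (h ^ 2 + h * Complex.I) : ℂ).im = h := by
      simp [← Complex.ofReal_pow]
    rw [e1, e2]
    have h3 : 0 ≤ h ^ 2 * (1 - h ^ 2) := mul_nonneg (sq_nonneg h) (by nlinarith)
    nlinarith
  · apply key
    have e1 : (1 + (-16 * h ^ 2 + 4 * h * Complex.I) : ℂ).re = 1 - 16 * h ^ 2 := by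
      simp [← Complex.ofReal_pow]; ring
    have e2 : (1 + (-16 * h ^ 2 + 4 * h * Complex.I) : ℂ).im = 4 * h := by
      simp [← Complex.ofReal_pow]
    rw [e1, e2]
    have h3 : 0 ≤ h ^ 2 * (1 - 16 * h ^ 2) := mul_nonneg (sq_nonneg h) (by nlinarith)
    nlinarith

lemma re_mk' (x y : ℝ) : ((x : ℂ) + (y : ℂ) * Complex.I).re = x := by simp

lemma im_mk' (x y : ℝ) : ((x : ℂ) + (y : ℂ) * Complex.I).im = y := by simp

theorem exponent_le_half {C a : ℝ}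
    (H : ∀ l : ℂ, ‖l‖ ≤ 1 → ∀ c₁ ∈ MS, ∃ K ⊆ MS, IsPreconnected K ∧ l / 2 - l ^ 2 / 4 ∈ K ∧
      c₁ ∈ K ∧ ∀ u ∈ K, ‖u - (l / 2 - l ^ 2 / 4)‖ ≤ C * ‖c₁ - (l / 2 - l ^ 2 / 4)‖ ^ a) :
    a ≤ 1 / 2 := by
  by_contra ha
  push Not at ha
  obtain ⟨h₀, hh₀, hhorn⟩ := MPc6f924.hornB
  -- choice of `h`
  have htend : Tendsto (fun h : ℝ => |C| * 6 ^ a * h ^ (2 * a - 1)) (𝓝[>] 0) (𝓝 0) := by
    have h1 : Tendsto (fun h : ℝ => h ^ (2 * a - 1)) (𝓝[>] 0) (𝓝 0) := by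
      have h2 : Tendsto (fun h : ℝ => h ^ (2 * a - 1)) (𝓝 0) (𝓝 ((0 : ℝ) ^ (2 * a - 1))) :=
        (Real.continuousAt_rpow_const 0 (2 * a - 1) (Or.inr (by linarith))).tendsto
      rw [Real.zero_rpow (by linarith)] at h2
      exact h2.mono_left nhdsWithin_le_nhds
    have h3 := h1.const_mul (|C| * 6 ^ a)
    rwa [mul_zero] at h3
  have hev := htend.eventually (gt_mem_nhds (show (0 : ℝ) < 1 / 4 by norm_num))
  have hsm : ∀ᶠ h : ℝ in 𝓝[>] 0, h < min (1 / 4) (h₀ / 4) :=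
    nhdsWithin_le_nhds (gt_mem_nhds (by positivity))
  obtain ⟨h, ⟨hlt, hsmall⟩, hpos⟩ := ((hev.and hsm).and self_mem_nhdsWithin).exists
  have hh4 : h ≤ 1 / 4 := hsmall.le.trans (min_le_left _ _)
  have hhh : h < h₀ / 4 := hsmall.trans_le (min_le_right _ _)
  obtain ⟨hl, hm⟩ := left_right hpos hh4
  set l : ℂ := -1 + (h ^ 2 + h * Complex.I) with hldef
  have hc₁ := disc_mem hm
  set c₁ : ℂ := -1 + (1 + (-16 * h ^ 2 + 4 * h * Complex.I)) / 4 with hc₁def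
  set c₀ : ℂ := l / 2 - l ^ 2 / 4 with hc₀def
  obtain ⟨K, hKM, hKp, hK0, hK1, hK⟩ := H l hl c₁ hc₁
  have hI2 : Complex.I ^ 2 = -1 := Complex.I_sq
  have e0 : c₀ = ((-3 / 4 + 5 / 4 * h ^ 2 - h ^ 4 / 4 : ℝ) : ℂ) +
      ((h - h ^ 3 / 2 : ℝ) : ℂ) * Complex.I := by
    rw [hc₀def, hldef]
    push_cast
    linear_combination (-(h : ℂ) ^ 2 / 4) * hI2
  have e1 : c₁ = ((-3 / 4 - 4 * h ^ 2 : ℝ) : ℂ) + ((h : ℝ) : ℂ) * Complex.I := by
    rw [hc₁def]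
    push_cast
    ring
  have r0 : c₀.re = -3 / 4 + 5 / 4 * h ^ 2 - h ^ 4 / 4 := by rw [e0]; exact re_mk' _ _
  have i0 : c₀.im = h - h ^ 3 / 2 := by rw [e0]; exact im_mk' _ _
  have r1 : c₁.re = -3 / 4 - 4 * h ^ 2 := by rw [e1]; exact re_mk' _ _
  have i1 : c₁.im = h := by rw [e1]; exact im_mk' _ _
  have hh2 : h ^ 2 ≤ 1 / 16 := by nlinarith
  have hh2p : 0 < h ^ 2 := by positivity
  have hnorm : ‖c₁ - c₀‖ ≤ 6 * h ^ 2 := by
    have h1 := Complex.norm_le_abs_re_add_abs_im (c₁ - c₀)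
    rw [Complex.sub_re, Complex.sub_im, r0, r1, i0, i1] at h1
    have h2 : |(-3 / 4 - 4 * h ^ 2) - (-3 / 4 + 5 / 4 * h ^ 2 - h ^ 4 / 4)| ≤ 5.25 * h ^ 2 := by
      rw [abs_le]; constructor <;> nlinarith [mul_pos hh2p hh2p]
    have h3 : |h - (h - h ^ 3 / 2)| ≤ 0.125 * h ^ 2 := by
      rw [abs_le]; constructor <;> nlinarith [mul_pos hh2p hpos]
    linarith
  -- a point of `K` on the vertical line
  have hcross : ∃ u ∈ K, u.re = -3 / 4 := by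
    have h1 : IsPreconnected (Complex.re '' K) := hKp.image _ Complex.continuous_re.continuousOn
    have h2 : c₁.re ≤ -3 / 4 := by rw [r1]; linarith
    have h3 : -3 / 4 ≤ c₀.re := by rw [r0]; nlinarith
    obtain ⟨u, hu, hu2⟩ := h1.Icc_subset ⟨c₁, hK1, rfl⟩ ⟨c₀, hK0, rfl⟩ ⟨h2, h3⟩
    exact ⟨u, hu, hu2⟩
  obtain ⟨u, hu, hure⟩ := hcross
  have hud : ‖u - c₀‖ ≤ h / 4 := by
    have h1 := hK u hu
    have h2 : ‖c₁ - c₀‖ ^ a ≤ (6 * h ^ 2) ^ a :=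
      Real.rpow_le_rpow (norm_nonneg _) hnorm (by linarith)
    have h3 : (6 * h ^ 2 : ℝ) ^ a = 6 ^ a * h ^ (2 * a - 1) * h := by
      rw [Real.mul_rpow (by norm_num) (by positivity), ← Real.rpow_natCast h 2,
        ← Real.rpow_mul hpos.le, mul_assoc]
      congr 1
      have e : h ^ (2 * a - 1) * h = h ^ (2 * a - 1) * h ^ (1 : ℝ) := by rw [Real.rpow_one]
      rw [e, ← Real.rpow_add hpos]
      congr 1
      push_cast; ring
    calc ‖u - c₀‖ ≤ C * ‖c₁ - c₀‖ ^ a := h1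
      _ ≤ |C| * ‖c₁ - c₀‖ ^ a := by gcongr; exact le_abs_self C
      _ ≤ |C| * (6 * h ^ 2) ^ a := by gcongr
      _ = |C| * 6 ^ a * h ^ (2 * a - 1) * h := by rw [h3]; ring
      _ ≤ 1 / 4 * h := by gcongr
      _ = h / 4 := by ring
  have him : |u.im - c₀.im| ≤ h / 4 := by
    have := Complex.abs_im_le_norm (u - c₀)
    rw [Complex.sub_im] at this
    exact this.trans hud
  rw [abs_le, i0] at him
  have hh3 : h ^ 3 / 2 ≤ h / 4 := by nlinarith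
  have hup : u.im < h₀ := by nlinarith [mul_pos hh2p hpos]
  have hlow : 0 < u.im := by nlinarith [mul_pos hh2p hpos]
  have h5 := hhorn u (hKM hu) (by rw [abs_of_pos hlow]; exact hup) (by rw [hure]; nlinarith)
    (by rw [hure]; norm_num)
  rw [h5] at hlow
  simp at hlow

end Pool.Agent.Work.MLC.H24
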