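import Pool.Agent.Work.MLC.H24R

set_option autoImplicit false

/-! # Connection to a satellite root, parent of any period (helper24) -/

namespace Pool.Agent.Work.MLC.H24

open Filter Topology Metric Set Complex
open Pool.Agent.Work.MLC Pool.Agent.Work.MLC.Tr Pool.Agent.Work.MLC.Sat

variable {D : Dat} {Z : ℂ → Set ℂ}

lemma den_ge_two (hP : D.Par) : (2 : ℝ) ≤ D.x.den := by
  apply two_le_den
  intro hd
  have h1 : D.x = (D.x.num : ℚ) := by
    conv_lhs => rw [← Rat.num_div_den D.x, hd]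
    simp
  have hx0 := hP.x_pos
  have hx1 := hP.x_lt
  rw [h1] at hx0 hx1
  have h2 : (0 : ℤ) < D.x.num := by exact_mod_cast hx0
  have h3 : D.x.num < (1 : ℤ) := by exact_mod_cast hx1
  omega

/-- a parameter of the limb of the parent near the root is connected to the root in a small
neighbourhood (in the coordinate of the parent) -/
theorem near_root (h : SAll) {e : ℂ → ℂ} (hP : D.Par) (hC : D.Cir) (hR : Regions D)
    (hG : Glued D Z) (he : Child D Z e) {L₁ : ℂ} (hT : RotT D.m (D.c L₁) (D.b L₁) L₁ D.x)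
    (hL₁ : ‖L₁ - D.a‖ ≤ 1 / (57600000 * (D.n : ℝ) ^ 11)) :
    ∃ K ⊆ MS, IsCompact K ∧ IsPreconnected K ∧ D.c L₁ ∈ K ∧ D.c D.a ∈ K ∧
      K ⊆ D.c '' closedBall D.a (4 * (D.n : ℝ) ^ 2 * ‖L₁ - D.a‖) := by
  have hn := Par_n_pos hP
  obtain ⟨K₀, hK1, hK2, hK3⟩ := exists_K h.s10 hP hC hR hG
  obtain ⟨hder, hder0⟩ := child_deriv h.s11 hP hC hR hG he hK1 hK2 hK3
  have hq2 := den_ge_two hP
  set q : ℝ := (D.x.den : ℝ) with hq
  set n : ℝ := (D.n : ℝ) with hndef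
  have hqn : q ≤ n := by
    have h1 : (1 : ℝ) ≤ D.m := by exact_mod_cast hP.m_pos
    have h2 : n = D.m * q := by
      rw [hndef, hq]; unfold Dat.n; push_cast; ring
    rw [h2]; nlinarith
  have hq0 : 0 < q := by linarith
  have hn0 : 0 < n := by linarith
  have hn2 : 2 ≤ n := by linarith
  set r : ℝ := cR D.n with hr
  have hrv : r = 1 / (600000 * n ^ 5) := rfl
  have hr0 : 0 < r := by rw [hrv]; positivity
  have hq4 : 4 ≤ q ^ 2 := by nlinarith
  have hRr : r / (24 * q ^ 2) ≤ r / 96 := by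
    apply div_le_div_of_nonneg_left hr0.le (by norm_num)
    linarith
  have hRpos : 0 < r / (24 * q ^ 2) := by positivity
  have h0r : (0 : ℂ) ∈ ball (0 : ℂ) r := mem_ball_self hr0
  have hsub : ball (0 : ℂ) (r / (24 * q ^ 2)) ⊆ ball 0 r := ball_subset_ball (by linarith)
  have hlin : ∀ ℓ : ℂ, ‖ℓ‖ < r / (24 * q ^ 2) → 3 / (4 * q ^ 2) * ‖ℓ‖ ≤ ‖e ℓ - D.a‖ ∧
      ‖e ℓ - D.a‖ ≤ 5 / (4 * q ^ 2) * ‖ℓ‖ := by
    intro ℓ hℓ
    have := near_linear hr0 he.diff (fun ℓ hℓ => by rw [he.zero]; exact (he.maps ℓ hℓ).2)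
      (by linarith) (by rw [hder0, hq]; push_cast; rfl) hℓ
    rwa [he.zero] at this
  have heB : ∀ ℓ ∈ ball (0 : ℂ) r, e ℓ ∈ D.B := fun ℓ hℓ =>
    ball_subset_ball (sR_le_gR hP) (he.maps ℓ hℓ).1
  have heU : ∀ ℓ ∈ ball (0 : ℂ) r, ℓ ≠ 0 → e ℓ ∈ D.U := by
    intro ℓ hℓ h2
    refine ⟨(he.maps ℓ hℓ).1, fun h4 => h2 ?_⟩
    exact he.inj hℓ h0r (by rw [he.zero]; exact h4)
  have hcont : ContinuousOn (fun ℓ => D.c (e ℓ)) (ball 0 r) := by
    intro ℓ hℓ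
    have h1 : ContinuousAt e ℓ := (he.diff.differentiableAt (isOpen_ball.mem_nhds hℓ)).continuousAt
    exact (ContinuousAt.comp (g := D.c) (f := e) (x := ℓ) (c_contAt hP (heB ℓ hℓ))
      h1).continuousWithinAt
  have hleft : ∀ ℓ ∈ ball (0 : ℂ) r, ℓ.re ≤ 0 → D.c (e ℓ) ∈ MS := by
    intro ℓ hℓ hre
    by_cases h0 : ℓ = 0
    · rw [h0, he.zero]
      by_contra hM
      have h1 := rep13 hP.m_pos (hP.sec D.a (a_mem_B hP)).1 hM
      rw [(hP.sec D.a (a_mem_B hP)).2, norm_exp, show (D.a).re = 0 from LimbData.axisPt_re D.x,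
        Real.exp_zero] at h1
      exact lt_irrefl _ h1
    by_contra hM
    obtain ⟨z, hz⟩ := hG.fam.ne _ (heU ℓ hℓ h0)
    have h1 := rep13 hn (hG.fam.fix _ (heU ℓ hℓ h0) z hz).1 hM
    rw [he.mul_eq ℓ hℓ h0 z hz, norm_exp] at h1
    exact absurd h1 (not_lt.2 (Real.exp_le_one_iff.2 hre))
  -- the point in the coordinate of the child
  set w := L₁ - D.a with hw
  have hn6 : q ^ 2 * (q ^ 2 * 1) ≤ n ^ 6 := by
    have h1 : q ^ 2 * (q ^ 2 * 1) = q ^ 4 := by ring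
    rw [h1]
    calc q ^ 4 ≤ n ^ 4 := by gcongr
      _ ≤ n ^ 6 := pow_le_pow_right₀ (by linarith) (by norm_num)
  have hw1 : ‖w‖ * (96 * n ^ 6) ≤ r := by
    calc ‖w‖ * (96 * n ^ 6) ≤ 1 / (57600000 * n ^ 11) * (96 * n ^ 6) := by gcongr
      _ = r := by rw [hrv]; field_simp; norm_num
  obtain ⟨ℓ, hℓ, heℓ, hℓn⟩ : ∃ ℓ ∈ ball (0 : ℂ) (r / (24 * q ^ 2)), e ℓ = L₁ ∧
      ‖ℓ‖ ≤ 2 * q ^ 2 * ‖w‖ := by
    by_cases hwz : w = 0
    · refine ⟨0, mem_ball_self hRpos, ?_, ?_⟩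
      · rw [he.zero]; rw [hw, sub_eq_zero] at hwz; exact hwz.symm
      · rw [hwz]; simp
    have hwn : 0 < ‖w‖ := norm_pos_iff.2 hwz
    set ρ : ℝ := 3 * q ^ 2 * ‖w‖ with hρ
    have hρ0 : 0 < ρ := by positivity
    have hρR : ρ < r / (24 * q ^ 2) := by
      rw [lt_div_iff₀ (by positivity)]
      calc ρ * (24 * q ^ 2) = ‖w‖ * (72 * (q ^ 2 * (q ^ 2 * 1))) := by rw [hρ]; ring
        _ ≤ ‖w‖ * (72 * n ^ 6) := by gcongr
        _ < ‖w‖ * (96 * n ^ 6) := by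
            apply mul_lt_mul_of_pos_left _ hwn
            have : 0 < n ^ 6 := by positivity
            linarith
        _ ≤ r := hw1
    have hcl : closedBall (0 : ℂ) ρ ⊆ ball 0 r := by
      refine (closedBall_subset_ball hρR).trans hsub
    have hdc : DiffContOnCl ℂ e (ball 0 ρ) := by
      apply DifferentiableOn.diffContOnCl
      rw [closure_ball (0 : ℂ) hρ0.ne']
      exact he.diff.mono hcl
    have hsph : ∀ z ∈ sphere (0 : ℂ) ρ, 9 / 4 * ‖w‖ ≤ ‖e z - e 0‖ := by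
      intro z hz
      rw [mem_sphere_zero_iff_norm] at hz
      rw [he.zero]
      refine le_trans (le_of_eq ?_) (hlin z (by rw [hz]; exact hρR)).1
      rw [hz, hρ]; field_simp; norm_num
    have hfr : ∃ᶠ z in 𝓝 (0 : ℂ), e z ≠ e 0 := by
      have h1 : ∃ᶠ z in 𝓝 (0 : ℂ), z ≠ 0 := by
        have : (𝓝[≠] (0 : ℂ)).NeBot := inferInstance
        exact (frequently_mem_iff_neBot (l := 𝓝 (0 : ℂ)) (s := {0}ᶜ)).2 this
      refine (h1.and_eventually (isOpen_ball.mem_nhds h0r)).mono ?_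
      rintro z ⟨h2, h3⟩ h4
      exact h2 (he.inj h3 h0r h4)
    have h1 := hdc.ball_subset_image_closedBall hρ0 hsph hfr
    obtain ⟨ℓ, h2, h3⟩ := h1 (show L₁ ∈ ball (e 0) (9 / 4 * ‖w‖ / 2) by
      rw [he.zero, mem_ball, dist_eq_norm, ← hw]; linarith)
    rw [mem_closedBall_zero_iff] at h2
    refine ⟨ℓ, by rw [mem_ball_zero_iff]; linarith, h3, ?_⟩
    have h5 := (hlin ℓ (by linarith)).1
    rw [h3, ← hw] at h5
    rw [div_mul_eq_mul_div, div_le_iff₀ (by positivity)] at h5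
    nlinarith
  have hℓr := hsub hℓ
  have hnl : n ^ 2 * ‖ℓ‖ < r / (24 * q ^ 2) := by
    rw [lt_div_iff₀ (by positivity)]
    have h1 : n ^ 2 * ‖ℓ‖ * (24 * q ^ 2) ≤ 48 * (‖w‖ * n ^ 6) := by
      calc n ^ 2 * ‖ℓ‖ * (24 * q ^ 2) ≤ n ^ 2 * (2 * q ^ 2 * ‖w‖) * (24 * q ^ 2) := by gcongr
        _ = 48 * (‖w‖ * (n ^ 2 * q ^ 4)) := by ring
        _ ≤ 48 * (‖w‖ * (n ^ 2 * n ^ 4)) := by gcongr
        _ = _ := by ring
    have h2 : 48 * (‖w‖ * n ^ 6) ≤ r / 2 := by linarith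
    linarith
  have h1n : ‖ℓ‖ ≤ n ^ 2 * ‖ℓ‖ := by
    have : (1 : ℝ) ≤ n ^ 2 := by nlinarith
    nlinarith [norm_nonneg ℓ]
  have hrad : 5 / (4 * q ^ 2) * (n ^ 2 * ‖ℓ‖) ≤ 4 * n ^ 2 * ‖w‖ := by
    calc 5 / (4 * q ^ 2) * (n ^ 2 * ‖ℓ‖) ≤ 5 / (4 * q ^ 2) * (n ^ 2 * (2 * q ^ 2 * ‖w‖)) := by
          gcongr
      _ = 5 / 2 * n ^ 2 * ‖w‖ := by field_simp; ring
      _ ≤ 4 * n ^ 2 * ‖w‖ := by
          apply mul_le_mul_of_nonneg_right _ (norm_nonneg _)
          have : 0 ≤ n ^ 2 := by positivity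
          linarith
  -- size of images
  have hsize : ∀ z : ℂ, ‖z‖ ≤ n ^ 2 * ‖ℓ‖ →
      D.c (e z) ∈ D.c '' closedBall D.a (4 * n ^ 2 * ‖w‖) := by
    intro z hz
    refine ⟨e z, ?_, rfl⟩
    rw [mem_closedBall, dist_eq_norm]
    calc ‖e z - D.a‖ ≤ 5 / (4 * q ^ 2) * ‖z‖ := (hlin z (by linarith)).2
      _ ≤ 5 / (4 * q ^ 2) * (n ^ 2 * ‖ℓ‖) := by gcongr
      _ ≤ _ := hrad
  rcases le_or_gt ℓ.re 0 with hre | hre
  · have hsegb : segment ℝ ℓ 0 ⊆ ball 0 r := (convex_ball 0 r).segment_subset hℓr h0r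
    have hsegre : ∀ z ∈ segment ℝ ℓ 0, z.re ≤ 0 := by
      have hcv : Convex ℝ {z : ℂ | z.re ≤ 0} := convex_halfSpace_re_le 0
      exact fun z hz => hcv.segment_subset hre (by simp) hz
    have hsegn : ∀ z ∈ segment ℝ ℓ 0, ‖z‖ ≤ ‖ℓ‖ := by
      intro z hz
      have : segment ℝ ℓ 0 ⊆ closedBall (0 : ℂ) ‖ℓ‖ :=
        (convex_closedBall 0 _).segment_subset (by simp) (by simp)
      simpa using this hz
    refine ⟨(fun L => D.c (e L)) '' segment ℝ ℓ 0, ?_, ?_, ?_, ?_, ?_, ?_⟩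
    · rintro _ ⟨z, hz, rfl⟩
      exact hleft z (hsegb hz) (hsegre z hz)
    · have : IsCompact (segment ℝ ℓ (0 : ℂ)) := by
        rw [← Path.range_segment]; exact isCompact_range (by fun_prop)
      exact this.image_of_continuousOn (hcont.mono hsegb)
    · exact (convex_segment ℓ 0).isPreconnected.image _ (hcont.mono hsegb)
    · exact ⟨ℓ, left_mem_segment ℝ ℓ 0, by simp only [heℓ]⟩
    · exact ⟨0, right_mem_segment ℝ ℓ 0, by simp only [he.zero]⟩
    · rintro _ ⟨z, hz, rfl⟩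
      exact hsize z ((hsegn z hz).trans h1n)
  · -- in a limb of the child
    have hℓ0 : ℓ ≠ 0 := by rintro rfl; simp at hre
    have hU := heU ℓ hℓr hℓ0
    obtain ⟨z₁, hz₁⟩ := hG.fam.ne _ hU
    have hcM : D.c (e ℓ) ∈ MS := by rw [heℓ]; exact hT.2.1
    obtain ⟨y, hy⟩ := (rotData hn).ex (D.c (e ℓ)) z₁ ℓ (hG.fam.fix _ hU z₁ hz₁).1
      (he.mul_eq ℓ hℓr hℓ0 z₁ hz₁) hre hcM
    have hT' : RotT D.m (D.c (e ℓ)) (D.b (e ℓ)) (e ℓ) D.x := by rw [heℓ]; exact hT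
    have hyd := child_nonint h.s2 h.s3 h.s3' h.s5 h.s7 h.s7' h.s8 hP hC hR hG hU hT' hz₁ hy
    have hply : ‖ℓ - axisPt y‖ ^ 2 ≤ 2 * n * Real.log 2 / y.den * ℓ.re := (rotData hn).ply _ _ _ _ hy
    have hs := ply_sizes hn2 hyd hply
    set An := 2 * n * Real.log 2 with hAn
    have hlog : 0 < Real.log 2 := Real.log_pos (by norm_num)
    have hAn0 : 0 < An := by positivity
    have hyq : (0 : ℝ) < y.den := by exact_mod_cast y.pos
    have hAy : 0 < An / y.den := by positivity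
    have hyn : ‖axisPt y‖ < r / 96 := by linarith
    have hAr : An / y.den < r / 2 := by
      have := norm_nonneg (axisPt y)
      linarith
    have hyne : y ≠ 0 := by rintro rfl; simp at hyd
    have hLD := h.s17 D Z e hP hC hR hG he y hyne (by
      rw [← norm_axisPt]
      change ‖axisPt y‖ ≤ r / 2
      linarith)
    set T : ℂ → ℚ → Prop := fun ℓ y' => ℓ ∈ ball (axisPt y) (cR D.n / 2) ∧
      ∃ z ∈ Z (e ℓ), Tr.RotT D.n (D.c (e ℓ)) z ℓ y' with hTdef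
    have hadm : LimbData.Adm y (cR D.n / 2) (2 * D.n * Real.log 2) y := by
      unfold LimbData.Adm
      simp only [sub_self, abs_zero, mul_zero, add_zero]
      exact hAr
    have hTy : T ℓ y := by
      refine ⟨?_, z₁, hz₁, hy⟩
      rw [mem_ball_zero_iff] at hℓ
      rw [mem_ball, dist_eq_norm]
      change ‖ℓ - axisPt y‖ < r / 2
      calc ‖ℓ - axisPt y‖ ≤ ‖ℓ‖ + ‖axisPt y‖ := norm_sub_le _ _
        _ < r / 2 := by linarith
    have hyb : axisPt y ∈ ball (0 : ℂ) r := by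
      rw [mem_ball_zero_iff]; linarith
    have hsegb : segment ℝ (axisPt y) 0 ⊆ ball 0 r := (convex_ball 0 r).segment_subset hyb h0r
    have hsegre : ∀ z ∈ segment ℝ (axisPt y) 0, z.re ≤ 0 := by
      have hcv : Convex ℝ {z : ℂ | z.re ≤ 0} := convex_halfSpace_re_le 0
      exact fun z hz => hcv.segment_subset (by simp [LimbData.axisPt_re]) (by simp) hz
    have hsegn : ∀ z ∈ segment ℝ (axisPt y) 0, ‖z‖ ≤ ‖axisPt y‖ := by
      intro z hz
      have : segment ℝ (axisPt y) 0 ⊆ closedBall (0 : ℂ) ‖axisPt y‖ :=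
        (convex_closedBall 0 _).segment_subset (by simp) (by simp)
      simpa using this hz
    refine ⟨LimbData.K (fun ℓ => D.c (e ℓ)) T y ∪ (fun ℓ => D.c (e ℓ)) '' segment ℝ (axisPt y) 0,
      ?_, ?_, ?_, ?_, ?_, ?_⟩
    · apply union_subset (hLD.K_sub hadm)
      rintro _ ⟨z, hz, rfl⟩
      exact hleft z (hsegb hz) (hsegre z hz)
    · apply (hLD.isCompact_K isCompact_MM.isClosed hadm).union
      have : IsCompact (segment ℝ (axisPt y) (0 : ℂ)) := by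
        rw [← Path.range_segment]; exact isCompact_range (by fun_prop)
      exact this.image_of_continuousOn (hcont.mono hsegb)
    · exact (hLD.K_conn isCompact_MM.isClosed isPreconnected_MM hadm).union (D.c (e (axisPt y)))
        (Or.inl rfl) (mem_image_of_mem (fun ℓ => D.c (e ℓ)) (left_mem_segment ℝ (axisPt y) 0))
        ((convex_segment (axisPt y) 0).isPreconnected.image _ (hcont.mono hsegb))
    · exact Or.inl (Or.inr ⟨ℓ, hTy, by simp only [heℓ]⟩)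
    · exact Or.inr ⟨0, right_mem_segment ℝ _ _, by simp only [he.zero]⟩
    · rintro u (hu | ⟨z, hz, rfl⟩)
      · rw [LimbData.K_eq] at hu
        obtain ⟨z, hz, rfl⟩ := hu
        have h1 := hLD.P_sub y hz
        rw [mem_closedBall, dist_eq_norm] at h1
        have h2 : ‖z‖ ≤ n ^ 2 * ‖ℓ‖ := by
          calc ‖z‖ = ‖(z - axisPt y) + axisPt y‖ := by ring_nf
            _ ≤ ‖z - axisPt y‖ + ‖axisPt y‖ := norm_add_le _ _
            _ ≤ An / y.den + ‖axisPt y‖ := by gcongr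
            _ ≤ _ := by linarith
        exact hsize z h2
      · refine hsize z ((hsegn z hz).trans ?_)
        linarith

end Pool.Agent.Work.MLC.H24
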