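import Pool.Agent.Work.MLC.H24U

set_option autoImplicit false

/-! # Connecting sets near a neutral parameter, in the coordinate of the multiplier (helper24) -/

namespace Pool.Agent.Work.MLC.H24

open Filter Topology Metric Set Complex
open Pool.Agent.Work.MLC Pool.Agent.Work.MLC.Tr Pool.Agent.Work.MLC.Sat

/-- `near_root` for a section over a convex good domain -/
theorem near_root_section (h : SAll) {n : ℕ} {B : Set ℂ} (hBc : Convex ℝ B)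
    {σ : ℂ → ℂ × ℂ} (hσ : ContinuousOn σ B)
    (hσ' : ∀ L ∈ B, σ L ∈ Per n ∧ mul n (σ L) = exp L) {y : ℚ} (hn : 0 < n) (hy0 : 0 < y)
    (hy1 : y < 1) (hyB : axisPt y ∈ B)
    (hprim : ∀ d, 0 < d → d < n → it (σ (axisPt y)).1 d (σ (axisPt y)).2 ≠ (σ (axisPt y)).2)
    {L₁ : ℂ} (hL₁B : L₁ ∈ B) (hT : RotT n (σ L₁).1 (σ L₁).2 L₁ y)
    (hL₁ : ‖L₁ - axisPt y‖ ≤ 1 / (57600000 * ((n : ℝ) * y.den) ^ 11))
    (hball : closedBall (axisPt y) (4 * ((n : ℝ) * y.den) ^ 2 * ‖L₁ - axisPt y‖) ⊆ B) :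
    ∃ K ⊆ MS, IsCompact K ∧ IsPreconnected K ∧ (σ L₁).1 ∈ K ∧ (σ (axisPt y)).1 ∈ K ∧
      K ⊆ (fun L => (σ L).1) '' closedBall (axisPt y)
        (4 * ((n : ℝ) * y.den) ^ 2 * ‖L₁ - axisPt y‖) := by
  obtain ⟨D₀, rfl, rfl, hσ₀, hP₀⟩ := h.s0 n y (σ (axisPt y)).1 (σ (axisPt y)).2 hn hy0 hy1
    (hσ' _ hyB).1 hprim (hσ' _ hyB).2
  obtain ⟨i₀, u, k, tm, tp, -, hC₀⟩ := h.s1 D₀.m D₀.x D₀.w D₀.k₀ hn hy0 hy1 hP₀.bits hP₀.wprim
  have hP := h.s0' D₀ i₀ u k tm tp hP₀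
  have hC := hC₀ (fun L => ((D₀.σ L).1, it (D₀.σ L).1 i₀ (D₀.σ L).2))
  set D : Dat := ⟨D₀.m, D₀.x, fun L => ((D₀.σ L).1, it (D₀.σ L).1 i₀ (D₀.σ L).2),
    fun i => D₀.w (i + i₀), D₀.k₀, u, k, tm, tp⟩ with hD
  have hR := h.s5' D hP hC
  obtain ⟨Z, hG⟩ := h.s9 D hP hC hR
  obtain ⟨e, he⟩ := h.s13 D Z hP hC hR hG
  have hNn : (D.n : ℝ) = (D₀.m : ℝ) * D₀.x.den := by
    show ((D₀.m * D₀.x.den : ℕ) : ℝ) = _
    push_cast; ring
  -- the two sections agree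
  have hagree : ∀ L ∈ D₀.B ∩ B, σ L = D₀.σ L := by
    have hconv : IsPreconnected (D₀.B ∩ B) :=
      ((convex_ball _ _).inter hBc).isPreconnected
    exact section_unique (goodB hP₀) hP₀.cont hP₀.sec hconv (g := σ) (l := fun L => L)
      (hσ.mono inter_subset_right) continuousOn_id
      (fun L hL => ⟨(hσ' L hL.2).1, hL.1, (hσ' L hL.2).2⟩) (a₀ := axisPt D₀.x)
      ⟨a_mem_B hP₀, hyB⟩ (by rw [hσ₀])
  have hm1 : (1 : ℝ) ≤ D₀.m := by exact_mod_cast hn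
  have hq2 := den_ge_two hP₀
  set q : ℝ := (D₀.x.den : ℝ) with hq
  set N : ℝ := (D₀.m : ℝ) * q with hN
  have hN2 : 2 ≤ N := by rw [hN]; nlinarith
  have hgR := gR_ge hP₀
  have hgR' : 1 / (14400000 * N ^ 9) < gR D₀.m D₀.x := by
    refine lt_of_lt_of_le ?_ hgR
    rw [← hq]
    apply one_div_lt_one_div_of_lt (by positivity)
    have h1 : (D₀.m : ℝ) * q ^ 2 ≤ N ^ 2 := by rw [hN, mul_pow]; gcongr; nlinarith
    have h2 : N ^ 2 ≤ N ^ 9 := pow_le_pow_right₀ (by linarith) (by norm_num)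
    have h3 : 0 < N ^ 9 := by positivity
    linarith
  have hradius : 4 * N ^ 2 * ‖L₁ - axisPt D₀.x‖ ≤ 1 / (14400000 * N ^ 9) := by
    calc 4 * N ^ 2 * ‖L₁ - axisPt D₀.x‖ ≤ 4 * N ^ 2 * (1 / (57600000 * N ^ 11)) := by gcongr
      _ = 1 / (14400000 * N ^ 9) := by field_simp; norm_num
  have hcbB : closedBall (axisPt D₀.x) (4 * N ^ 2 * ‖L₁ - axisPt D₀.x‖) ⊆ D₀.B :=
    closedBall_subset_ball (hradius.trans_lt hgR')
  have hL₁0 : L₁ ∈ D₀.B := by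
    apply hcbB
    rw [mem_closedBall, dist_eq_norm]
    have h1 : (1 : ℝ) ≤ 4 * N ^ 2 := by nlinarith
    nlinarith [norm_nonneg (L₁ - axisPt D₀.x)]
  have hT' : RotT D.m (D.c L₁) (D.b L₁) L₁ D.x := by
    show RotT D₀.m (D₀.σ L₁).1 (it (D₀.σ L₁).1 i₀ (D₀.σ L₁).2) L₁ D₀.x
    rw [← hagree L₁ ⟨hL₁0, hL₁B⟩]
    exact s16_rot _ _ _ _ _ i₀ hn hT
  obtain ⟨K, h1, h2, h3, h4, h5, h6⟩ := near_root h hP hC hR hG he hT' (by
    rw [hNn]; exact hL₁)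
  rw [hNn] at h6
  have h4' : (σ L₁).1 ∈ K := by
    rw [hagree L₁ ⟨hL₁0, hL₁B⟩]; exact h4
  have h5' : (σ (axisPt D₀.x)).1 ∈ K := by
    rw [hagree (axisPt D₀.x) ⟨a_mem_B hP₀, hyB⟩]; exact h5
  refine ⟨K, h1, h2, h3, h4', h5', ?_⟩
  intro u hu
  obtain ⟨L, hL, rfl⟩ := h6 hu
  refine ⟨L, hL, ?_⟩
  show (σ L).1 = (D₀.σ L).1
  rw [hagree L ⟨hcbB hL, hball hL⟩]

lemma GoodDom.mono' {n : ℕ} {B B' : Set ℂ} (h : GoodDom n B) (hB : B' ⊆ B) (ho : IsOpen B') :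
    GoodDom n B' :=
  ⟨h.pos, ho, fun L hL => h.ne_one L (hB hL), fun L hL => h.lt L (hB hL),
    fun x hx L hL => h.inj x hx L (hB hL)⟩

/-- a section near a neutral parameter -/
structure Nbd (n : ℕ) (σ : ℂ → ℂ × ℂ) (L₀ : ℂ) (R : ℝ) : Prop where
  n_pos : 0 < n
  R_pos : 0 < R
  re : L₀.re = 0
  im : R ≤ L₀.im
  im' : L₀.im ≤ 2 * Real.pi - R
  good : GoodDom n (ball L₀ (2 * R))
  cont : ContinuousOn σ (ball L₀ (2 * R))
  sec : ∀ L ∈ ball L₀ (2 * R), σ L ∈ Per n ∧ mul n (σ L) = exp L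
  prim : ∀ L ∈ ball L₀ (2 * R), ∀ d, 0 < d → d < n → it (σ L).1 d (σ L).2 ≠ (σ L).2

/-- connecting set for the parameter over `L₁` and the parameter over `L₀` -/
def Conn (σ : ℂ → ℂ × ℂ) (L₀ L₁ : ℂ) (ρ : ℝ) : Prop :=
  ∃ K ⊆ MS, IsCompact K ∧ IsPreconnected K ∧ (σ L₁).1 ∈ K ∧ (σ L₀).1 ∈ K ∧
    K ⊆ (fun L => (σ L).1) '' closedBall L₀ ρ

variable {n : ℕ} {σ : ℂ → ℂ × ℂ} {L₀ L₁ : ℂ} {R : ℝ}

lemma Conn.mono {ρ ρ' : ℝ} (h : Conn σ L₀ L₁ ρ) (hρ : ρ ≤ ρ') : Conn σ L₀ L₁ ρ' := by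
  obtain ⟨K, h1, h2, h3, h4, h5, h6⟩ := h
  exact ⟨K, h1, h2, h3, h4, h5, h6.trans (image_mono (closedBall_subset_closedBall hρ))⟩

namespace Nbd

lemma left (h : Nbd n σ L₀ R) {L : ℂ} (hL : L ∈ ball L₀ (2 * R)) (hre : L.re ≤ 0) :
    (σ L).1 ∈ MS := by
  by_contra hM
  have h1 := rep13 h.n_pos (h.sec L hL).1 hM
  rw [(h.sec L hL).2, norm_exp] at h1
  exact absurd h1 (not_lt.2 (Real.exp_le_one_iff.2 hre))

lemma cσ_cont (h : Nbd n σ L₀ R) : ContinuousOn (fun L => (σ L).1) (ball L₀ (2 * R)) :=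
  continuous_fst.comp_continuousOn h.cont

lemma seg (h : Nbd n σ L₀ R) {L : ℂ} (hL : L ∈ ball L₀ (2 * R)) (hre : L.re ≤ 0) :
    (fun L => (σ L).1) '' segment ℝ L L₀ ⊆ MS ∧ IsCompact ((fun L => (σ L).1) '' segment ℝ L L₀) ∧
    IsPreconnected ((fun L => (σ L).1) '' segment ℝ L L₀) ∧
    (fun L => (σ L).1) '' segment ℝ L L₀ ⊆ (fun L => (σ L).1) '' closedBall L₀ ‖L - L₀‖ := by
  have h0 : L₀ ∈ ball L₀ (2 * R) := mem_ball_self (by linarith [h.R_pos])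
  have hsegb : segment ℝ L L₀ ⊆ ball L₀ (2 * R) := (convex_ball _ _).segment_subset hL h0
  have hsegre : ∀ z ∈ segment ℝ L L₀, z.re ≤ 0 := by
    have hcv : Convex ℝ {z : ℂ | z.re ≤ 0} := convex_halfSpace_re_le 0
    exact fun z hz => hcv.segment_subset hre (by simp [h.re]) hz
  refine ⟨?_, ?_, ?_, ?_⟩
  · rintro _ ⟨z, hz, rfl⟩
    exact h.left (hsegb hz) (hsegre z hz)
  · have : IsCompact (segment ℝ L L₀) := by
      rw [← Path.range_segment]; exact isCompact_range (by fun_prop)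
    exact this.image_of_continuousOn (h.cσ_cont.mono hsegb)
  · exact (convex_segment L L₀).isPreconnected.image _ (h.cσ_cont.mono hsegb)
  · apply image_mono
    exact (convex_closedBall _ _).segment_subset (by rw [mem_closedBall, dist_eq_norm])
      (mem_closedBall_self (norm_nonneg _))

lemma conn_left (h : Nbd n σ L₀ R) (hL : L₁ ∈ ball L₀ (2 * R)) (hre : L₁.re ≤ 0) :
    Conn σ L₀ L₁ ‖L₁ - L₀‖ := by
  obtain ⟨h1, h2, h3, h4⟩ := h.seg hL hre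
  exact ⟨_, h1, h2, h3, ⟨L₁, left_mem_segment ℝ _ _, rfl⟩, ⟨L₀, right_mem_segment ℝ _ _, rfl⟩, h4⟩

lemma limbData (h : Nbd n σ L₀ R) {y : ℚ} (hy : ‖axisPt y - L₀‖ < R) :
    LimbData MS y R (2 * n * Real.log 2) (fun L => (σ L).1)
      (fun L x => L ∈ ball (axisPt y) R ∧ RotT n (σ L).1 (σ L).2 L x) := by
  have hsub : ball (axisPt y) R ⊆ ball L₀ (2 * R) := by
    apply ball_subset_ball'
    rw [dist_eq_norm]; linarith
  have hlog : 0 < Real.log 2 := Real.log_pos (by norm_num)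
  have hn : (0 : ℝ) < n := by exact_mod_cast h.n_pos
  exact limbData_of_section h.R_pos (by positivity) (GoodDom.mono' h.good hsub isOpen_ball)
    (h.cont.mono hsub) (fun L hL => h.sec L (hsub hL)) (rotData h.n_pos)
    (fun x hx hM => rep13 h.n_pos hx hM)

lemma conn_far (h : Nbd n σ L₀ R) {y : ℚ} (hy : ‖axisPt y - L₀‖ < R)
    (hT : RotT n (σ L₁).1 (σ L₁).2 L₁ y) (hA : 2 * n * Real.log 2 / y.den < R) :
    Conn σ L₀ L₁ (‖axisPt y - L₀‖ + 2 * n * Real.log 2 / y.den) := by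
  have hLD := h.limbData hy
  set T : ℂ → ℚ → Prop := fun L x => L ∈ ball (axisPt y) R ∧ RotT n (σ L).1 (σ L).2 L x with hTd
  have hadm : LimbData.Adm y R (2 * n * Real.log 2) y := by
    unfold LimbData.Adm
    simp only [sub_self, abs_zero, mul_zero, add_zero]
    exact hA
  have hyb : axisPt y ∈ ball L₀ (2 * R) := by
    rw [mem_ball, dist_eq_norm]; linarith [h.R_pos]
  obtain ⟨g1, g2, g3, g4⟩ := h.seg hyb (by rw [LimbData.axisPt_re])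
  have hlog : 0 < Real.log 2 := Real.log_pos (by norm_num)
  have hAy : 0 ≤ 2 * n * Real.log 2 / (y.den : ℝ) := by positivity
  have hL₁ : L₁ ∈ ball (axisPt y) R := by
    -- the inequality of Pommerenke, Levin and Yoccoz
    have h1 := (rotData h.n_pos).ply _ _ _ _ hT
    have h2 : L₁.re ≤ ‖L₁ - axisPt y‖ := by
      have := re_le_norm (L₁ - axisPt y)
      simpa [LimbData.axisPt_re] using this
    rw [mem_ball, dist_eq_norm]
    refine lt_of_le_of_lt ?_ hA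
    by_contra hcon
    push Not at hcon
    have h3 : 0 < ‖L₁ - axisPt y‖ := lt_of_le_of_lt hAy hcon
    have h4 : ‖L₁ - axisPt y‖ ^ 2 ≤ 2 * n * Real.log 2 / y.den * ‖L₁ - axisPt y‖ :=
      h1.trans (by gcongr)
    nlinarith
  refine ⟨LimbData.K (fun L => (σ L).1) T y ∪ (fun L => (σ L).1) '' segment ℝ (axisPt y) L₀,
    union_subset (hLD.K_sub hadm) g1, (hLD.isCompact_K isCompact_MM.isClosed hadm).union g2, ?_,
    Or.inl (Or.inr ⟨L₁, ⟨hL₁, hT⟩, rfl⟩), Or.inr ⟨L₀, right_mem_segment ℝ _ _, rfl⟩, ?_⟩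
  · exact (hLD.K_conn isCompact_MM.isClosed isPreconnected_MM hadm).union ((σ (axisPt y)).1)
      (Or.inl rfl) ⟨axisPt y, left_mem_segment ℝ _ _, rfl⟩ g3
  · apply union_subset
    · rw [LimbData.K_eq]
      apply image_mono
      refine (hLD.P_sub y).trans ?_
      apply closedBall_subset_closedBall'
      rw [dist_eq_norm, add_comm]
    · refine g4.trans (image_mono (closedBall_subset_closedBall (by linarith)))

lemma rat_of_near (h : Nbd n σ L₀ R) {y : ℚ} (hy : ‖axisPt y - L₀‖ < R) : 0 < y ∧ y < 1 := by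
  have h1 := (abs_im_le_norm (axisPt y - L₀)).trans_lt hy
  rw [sub_im, LimbData.axisPt_im, abs_lt] at h1
  have h2 := h.im
  have h3 := h.im'
  have hpi := Real.pi_pos
  constructor
  · have h4 : 0 < 2 * Real.pi * (y : ℝ) := by linarith
    have h5 : (0 : ℝ) < y := by
      by_contra hcon
      push Not at hcon
      nlinarith
    exact_mod_cast h5
  · have h4 : 2 * Real.pi * (y : ℝ) < 2 * Real.pi := by linarith
    have h5 : (y : ℝ) < 1 := by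
      by_contra hcon
      push Not at hcon
      nlinarith
    exact_mod_cast h5

lemma conn_near (hS : SAll) (h : Nbd n σ L₀ R) {y : ℚ} (hL₁ : L₁ ∈ ball L₀ (2 * R))
    (hT : RotT n (σ L₁).1 (σ L₁).2 L₁ y)
    (hs : ‖L₁ - axisPt y‖ ≤ 1 / (57600000 * ((n : ℝ) * y.den) ^ 11))
    (hr : ‖axisPt y - L₀‖ + 4 * ((n : ℝ) * y.den) ^ 2 * ‖L₁ - axisPt y‖ < R) :
    Conn σ L₀ L₁ (‖axisPt y - L₀‖ + 4 * ((n : ℝ) * y.den) ^ 2 * ‖L₁ - axisPt y‖) := by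
  have h0 : 0 ≤ 4 * ((n : ℝ) * y.den) ^ 2 * ‖L₁ - axisPt y‖ := by positivity
  have hy : ‖axisPt y - L₀‖ < R := by linarith
  obtain ⟨hy0, hy1⟩ := h.rat_of_near hy
  have hyb : axisPt y ∈ ball L₀ (2 * R) := by
    rw [mem_ball, dist_eq_norm]; linarith [h.R_pos]
  obtain ⟨g1, g2, g3, g4⟩ := h.seg hyb (by rw [LimbData.axisPt_re])
  have hcb : closedBall (axisPt y) (4 * ((n : ℝ) * y.den) ^ 2 * ‖L₁ - axisPt y‖) ⊆
      closedBall L₀ (‖axisPt y - L₀‖ + 4 * ((n : ℝ) * y.den) ^ 2 * ‖L₁ - axisPt y‖) := by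
    apply closedBall_subset_closedBall'
    rw [dist_eq_norm, add_comm]
  obtain ⟨K, k1, k2, k3, k4, k5, k6⟩ := near_root_section hS (convex_ball L₀ (2 * R)) h.cont h.sec
    h.n_pos hy0 hy1 hyb (h.prim _ hyb) hL₁ hT hs
    (hcb.trans (closedBall_subset_ball (by linarith [h.R_pos])))
  refine ⟨K ∪ (fun L => (σ L).1) '' segment ℝ (axisPt y) L₀, union_subset k1 g1, k2.union g2, ?_,
    Or.inl k4, Or.inr ⟨L₀, right_mem_segment ℝ _ _, rfl⟩, ?_⟩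
  · exact k3.union ((σ (axisPt y)).1) k5 ⟨axisPt y, left_mem_segment ℝ _ _, rfl⟩ g3
  · apply union_subset (k6.trans (image_mono hcb))
    exact g4.trans (image_mono (closedBall_subset_closedBall (by linarith)))

/-- the rotation number of a parameter of `MM` over `Re L > 0`, and its distance -/
lemma exists_rot (h : Nbd n σ L₀ R) (hL₁ : L₁ ∈ ball L₀ (2 * R)) (hre : 0 < L₁.re)
    (hM : (σ L₁).1 ∈ MS) : ∃ y : ℚ, RotT n (σ L₁).1 (σ L₁).2 L₁ y ∧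
      ‖L₁ - axisPt y‖ ^ 2 ≤ 2 * n * Real.log 2 / y.den * ‖L₁ - L₀‖ := by
  obtain ⟨y, hy⟩ := (rotData h.n_pos).ex _ _ _ (h.sec L₁ hL₁).1 (h.sec L₁ hL₁).2 hre hM
  refine ⟨y, hy, ((rotData h.n_pos).ply _ _ _ _ hy).trans ?_⟩
  have h1 : L₁.re ≤ ‖L₁ - L₀‖ := by
    have := re_le_norm (L₁ - L₀)
    simpa [h.re] using this
  have hlog : 0 < Real.log 2 := Real.log_pos (by norm_num)
  gcongr

end Nbd

end Pool.Agent.Work.MLC.H24
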