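import Pool.Agent.Work.MLC.H24V

set_option autoImplicit false

/-! # Hoelder local connectivity at all neutral parameters of multiplier different from one
(helper24) -/

namespace Pool.Agent.Work.MLC.H24

open Filter Topology Metric Set Complex
open Pool.Agent.Work.MLC Pool.Agent.Work.MLC.Tr Pool.Agent.Work.MLC.Sat

variable {n : ℕ} {σ : ℂ → ℂ × ℂ} {L₀ L₁ : ℂ} {R : ℝ}

/-- the exponent `1 / 22` -/
theorem Nbd.conn_all (hS : SAll) (h : Nbd n σ L₀ R) : ∃ δ > 0, ∃ C : ℝ, ∀ L₁ ∈ ball L₀ δ,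
    (σ L₁).1 ∈ MS → Conn σ L₀ L₁ (C * ‖L₁ - L₀‖ ^ (1 / 22 : ℝ)) := by
  have hn1 : (1 : ℝ) ≤ n := by exact_mod_cast h.n_pos
  have hn0 : (0 : ℝ) < n := by linarith
  have hlog : 0 < Real.log 2 := Real.log_pos (by norm_num)
  set A : ℝ := 2 * n * Real.log 2 with hA
  have hA0 : 0 < A := by positivity
  set sA : ℝ := A + 1 with hsA
  have hsA2 : A ≤ sA ^ 2 := by rw [hsA]; nlinarith
  have hsA1 : 1 ≤ sA := by rw [hsA]; linarith
  -- threshold
  set κ : ℝ := 1 / (57600000 * (n : ℝ) ^ 11 * sA) with hκ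
  have hκ0 : 0 < κ := by positivity
  have hκ1 : κ ≤ 1 := by
    rw [hκ, div_le_one (by positivity)]
    have h1 : (1 : ℝ) ≤ (n : ℝ) ^ 11 := one_le_pow₀ hn1
    nlinarith
  set C : ℝ := 1 + sA + 4 * (n : ℝ) ^ 2 * sA + A / κ with hC
  have hC1 : 1 ≤ C := by
    have h1 : 0 ≤ 4 * (n : ℝ) ^ 2 * sA := by positivity
    have h2 : 0 ≤ A / κ := by positivity
    rw [hC]; linarith
  have hC0 : 0 < C := by linarith
  have hR := h.R_pos
  set δ : ℝ := min 1 ((R / (2 * C)) ^ 22) with hδ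
  have hδ0 : 0 < δ := by positivity
  refine ⟨min δ R, lt_min hδ0 hR, C, ?_⟩
  intro L₁ hL₁ hM
  rw [mem_ball, dist_eq_norm] at hL₁
  set d := ‖L₁ - L₀‖ with hd
  have hd0 : 0 ≤ d := norm_nonneg _
  have hdδ : d < δ := hL₁.trans_le (min_le_left _ _)
  have hdR : d < R := hL₁.trans_le (min_le_right _ _)
  have hd1 : d ≤ 1 := hdδ.le.trans (min_le_left _ _)
  have hLb : L₁ ∈ ball L₀ (2 * R) := by
    rw [mem_ball, dist_eq_norm]; linarith
  set u : ℝ := d ^ (1 / 22 : ℝ) with hu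
  have hu0 : 0 ≤ u := by positivity
  have hu22 : u ^ 22 = d := by
    rw [hu, ← Real.rpow_natCast, ← Real.rpow_mul hd0]; norm_num
  have hu1 : u ≤ 1 := by
    by_contra hcon
    push Not at hcon
    have : 1 < u ^ 22 := one_lt_pow₀ hcon (by norm_num)
    linarith
  have huR : C * u < R / 2 + R / 1000 := by
    have h1 : u ^ 22 < (R / (2 * C)) ^ 22 := by
      rw [hu22]; exact hdδ.trans_le (min_le_right _ _)
    have h2 : u < R / (2 * C) := lt_of_pow_lt_pow_left₀ 22 (by positivity) h1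
    rw [lt_div_iff₀ (by positivity)] at h2
    linarith
  have hCuR : C * u < R := by linarith
  have hpow : ∀ k : ℕ, 1 ≤ k → u ^ k ≤ u := by
    intro k hk
    calc u ^ k ≤ u ^ 1 := pow_le_pow_of_le_one hu0 hu1 hk
      _ = u := pow_one u
  have hdu : d ≤ u := by rw [← hu22]; exact hpow 22 (by norm_num)
  have hCe : C * u = u + sA * u + 4 * (n : ℝ) ^ 2 * sA * u + A / κ * u := by rw [hC]; ring
  have p1 : 0 ≤ sA * u := by positivity
  have p2 : 0 ≤ 4 * (n : ℝ) ^ 2 * sA * u := by positivity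
  have p3 : 0 ≤ A / κ * u := by positivity
  rcases le_or_gt L₁.re 0 with hre | hre
  · refine (h.conn_left hLb hre).mono ?_
    calc d ≤ u := hdu
      _ ≤ C * u := by linarith
  obtain ⟨y, hT, hply⟩ := h.exists_rot hLb hre hM
  set q : ℝ := (y.den : ℝ) with hq
  have hq1 : (1 : ℝ) ≤ q := by
    rw [hq]; exact_mod_cast y.pos
  have hq0 : 0 < q := by linarith
  set s := ‖L₁ - axisPt y‖ with hs
  have hs0 : 0 ≤ s := norm_nonneg _
  have hsu : s ≤ sA * u ^ 11 := by
    have h1 : s ^ 2 ≤ (sA * u ^ 11) ^ 2 := by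
      calc s ^ 2 ≤ A / q * d := hply
        _ ≤ A * d := by
            apply mul_le_mul_of_nonneg_right _ hd0
            exact div_le_self hA0.le hq1
        _ ≤ sA ^ 2 * d := by gcongr
        _ = (sA * u ^ 11) ^ 2 := by rw [← hu22]; ring
    exact le_of_sq_le_sq h1 (by positivity)
  have hay : ‖axisPt y - L₀‖ ≤ u + sA * u := by
    calc ‖axisPt y - L₀‖ = ‖(L₁ - L₀) - (L₁ - axisPt y)‖ := by ring_nf
      _ ≤ d + s := norm_sub_le _ _
      _ ≤ u + sA * u := by
          gcongr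
          exact hsu.trans (by gcongr; exact hpow 11 (by norm_num))
  have hCu : u + sA * u ≤ C * u := by linarith
  rcases le_or_gt (q * u) κ with hcase | hcase
  · -- near the root
    have hqu0 : 0 ≤ q * u := by positivity
    have hqu1 : q * u ≤ 1 := hcase.trans hκ1
    have hrad : 4 * ((n : ℝ) * q) ^ 2 * s ≤ 4 * (n : ℝ) ^ 2 * sA * u := by
      calc 4 * ((n : ℝ) * q) ^ 2 * s ≤ 4 * ((n : ℝ) * q) ^ 2 * (sA * u ^ 11) := by gcongr
        _ = 4 * (n : ℝ) ^ 2 * sA * ((q * u) ^ 2 * u ^ 9) := by ring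
        _ ≤ 4 * (n : ℝ) ^ 2 * sA * (1 * u) := by
            gcongr
            · exact pow_le_one₀ hqu0 hqu1
            · exact hpow 9 (by norm_num)
        _ = _ := by ring
    have htot : ‖axisPt y - L₀‖ + 4 * ((n : ℝ) * q) ^ 2 * s ≤ C * u := by
      linarith
    refine (h.conn_near hS hLb hT ?_ (by rw [← hq]; linarith)).mono htot
    rw [le_div_iff₀ (by positivity)]
    calc s * (57600000 * ((n : ℝ) * q) ^ 11) ≤ (sA * u ^ 11) * (57600000 * ((n : ℝ) * q) ^ 11) := by
          gcongr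
      _ = 57600000 * (n : ℝ) ^ 11 * sA * (q * u) ^ 11 := by ring
      _ ≤ 57600000 * (n : ℝ) ^ 11 * sA * κ := by
          gcongr
          calc (q * u) ^ 11 ≤ (q * u) ^ 1 := pow_le_pow_of_le_one hqu0 hqu1 (by norm_num)
            _ = q * u := pow_one _
            _ ≤ κ := hcase
      _ = 1 := by rw [hκ]; field_simp
  · -- large denominator
    have hAq : A / q ≤ A / κ * u := by
      rw [div_le_iff₀ hq0, div_mul_eq_mul_div, div_mul_eq_mul_div, le_div_iff₀ hκ0]
      have : A * κ ≤ A * (q * u) := by gcongr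
      linarith
    have htot : ‖axisPt y - L₀‖ + A / q ≤ C * u := by
      linarith
    have hAq0 : 0 ≤ A / q := by positivity
    exact (h.conn_far (by linarith) hT (by
      change A / q < R
      have := norm_nonneg (axisPt y - L₀)
      linarith)).mono htot

/-- the exponent of Diophantine angles -/
theorem Nbd.conn_dioph (hS : SAll) (h : Nbd n σ L₀ R) {κ τ : ℝ} (hκ : 0 < κ) (hτ : 1 ≤ τ)
    (hD : ∀ y : ℚ, axisPt y ≠ L₀ → κ / (y.den : ℝ) ^ τ ≤ ‖axisPt y - L₀‖) :
    ∃ δ > 0, ∃ C : ℝ, ∀ L₁ ∈ ball L₀ δ,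
      (σ L₁).1 ∈ MS → Conn σ L₀ L₁ (C * ‖L₁ - L₀‖ ^ (1 / (2 * τ - 1) : ℝ)) := by
  have hn1 : (1 : ℝ) ≤ n := by exact_mod_cast h.n_pos
  have hn0 : (0 : ℝ) < n := by linarith
  have hlog : 0 < Real.log 2 := Real.log_pos (by norm_num)
  set A : ℝ := 2 * n * Real.log 2 with hA
  have hA0 : 0 < A := by positivity
  have hR := h.R_pos
  set β : ℝ := 1 / (2 * τ - 1) with hβ
  have h2τ : 1 ≤ 2 * τ - 1 := by linarith
  have hβ0 : 0 < β := by positivity
  have hβ1 : β ≤ 1 := by rw [hβ, div_le_one (by linarith)]; exact h2τ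
  -- the denominator of `L₀`, if it is rational
  obtain ⟨N, hN0, hN⟩ : ∃ N : ℝ, 0 < N ∧ ∀ y : ℚ, axisPt y = L₀ → (n : ℝ) * y.den ≤ N := by
    by_cases hex : ∃ y : ℚ, axisPt y = L₀
    · obtain ⟨y₀, hy₀⟩ := hex
      refine ⟨(n : ℝ) * y₀.den, ?_, ?_⟩
      · have : (0 : ℝ) < y₀.den := by exact_mod_cast y₀.pos
        positivity
      · intro y hy
        have h1 := congrArg Complex.im (hy.trans hy₀.symm)
        rw [LimbData.axisPt_im, LimbData.axisPt_im] at h1
        have h2 : (y : ℝ) = y₀ := by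
          have := Real.pi_pos
          exact mul_left_cancel₀ (by positivity) h1
        have h3 : y = y₀ := by exact_mod_cast h2
        rw [h3]
    · push Not at hex
      exact ⟨1, one_pos, fun y hy => absurd hy (hex y)⟩
  set C₂ : ℝ := 2 / κ + 4 * A / κ ^ 2 + 1 with hC₂
  have hC₂1 : 1 ≤ C₂ := by
    have h1 : 0 ≤ 2 / κ + 4 * A / κ ^ 2 := by positivity
    rw [hC₂]; linarith
  have hC₂0 : 0 < C₂ := by linarith
  have hC₂a : 1 / C₂ ≤ κ / 2 := by
    rw [div_le_iff₀ hC₂0]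
    have h1 : κ / 2 * C₂ = 1 + (2 * A / κ + κ / 2) := by rw [hC₂]; field_simp; ring
    rw [h1]
    have : 0 ≤ 2 * A / κ + κ / 2 := by positivity
    linarith
  have hC₂b : A / C₂ ≤ (κ / 2) ^ 2 := by
    rw [div_le_iff₀ hC₂0]
    have h1 : (κ / 2) ^ 2 * C₂ = A + (κ / 2 + κ ^ 2 / 4) := by rw [hC₂]; field_simp; ring
    rw [h1]
    have : 0 ≤ κ / 2 + κ ^ 2 / 4 := by positivity
    linarith
  set C : ℝ := 2 + 4 * N ^ 2 + 2 * A * C₂ with hC
  have hC1 : 1 ≤ C := by
    have h1 : 0 ≤ 4 * N ^ 2 := by positivity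
    have h2 : 0 ≤ 2 * A * C₂ := by positivity
    rw [hC]; linarith
  have hC0 : 0 < C := by linarith
  set δ : ℝ := min (min 1 (1 / (57600000 * N ^ 11))) ((R / (2 * C)) ^ (2 * τ - 1)) with hδ
  have hδ0 : 0 < δ := by positivity
  refine ⟨min δ R, lt_min hδ0 hR, C, ?_⟩
  intro L₁ hL₁ hM
  rw [mem_ball, dist_eq_norm] at hL₁
  set d := ‖L₁ - L₀‖ with hd
  have hd0 : 0 ≤ d := norm_nonneg _
  have hdδ : d < δ := hL₁.trans_le (min_le_left _ _)
  have hdR : d < R := hL₁.trans_le (min_le_right _ _)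
  have hd1 : d ≤ 1 := hdδ.le.trans ((min_le_left _ _).trans (min_le_left _ _))
  have hdN : d ≤ 1 / (57600000 * N ^ 11) :=
    hdδ.le.trans ((min_le_left _ _).trans (min_le_right _ _))
  have hLb : L₁ ∈ ball L₀ (2 * R) := by
    rw [mem_ball, dist_eq_norm]; linarith
  set t : ℝ := d ^ β with ht
  have ht0 : 0 ≤ t := by positivity
  have htd : t ^ (2 * τ - 1) = d := by
    rw [ht, ← Real.rpow_mul hd0, hβ, one_div, inv_mul_cancel₀ (by linarith), Real.rpow_one]
  have hdt : d ≤ t := by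
    rcases hd0.eq_or_lt with h0 | h0
    · rw [← h0]; exact ht0
    · calc d = d ^ (1 : ℝ) := (Real.rpow_one d).symm
        _ ≤ d ^ β := Real.rpow_le_rpow_of_exponent_ge h0 hd1 hβ1
  have htR : t < R / (2 * C) := by
    by_contra hcon
    push Not at hcon
    have h1 : (R / (2 * C)) ^ (2 * τ - 1) ≤ t ^ (2 * τ - 1) :=
      Real.rpow_le_rpow (by positivity) hcon (by linarith)
    rw [htd] at h1
    exact absurd (hdδ.trans_le (min_le_right _ _)) (not_lt.2 h1)
  have hCtR : C * t < R := by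
    rw [lt_div_iff₀ (by positivity)] at htR
    linarith
  rcases le_or_gt L₁.re 0 with hre | hre
  · refine (h.conn_left hLb hre).mono ?_
    calc d ≤ 1 * t := by rw [one_mul]; exact hdt
      _ ≤ C * t := mul_le_mul_of_nonneg_right hC1 ht0
  obtain ⟨y, hT, hply⟩ := h.exists_rot hLb hre hM
  by_cases hy : axisPt y = L₀
  · -- the satellite root itself
    have hNy := hN y hy
    have hy0 : (0 : ℝ) < y.den := by exact_mod_cast y.pos
    have hny : 0 < (n : ℝ) * y.den := by positivity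
    have e1 : ‖L₁ - axisPt y‖ = d := by rw [hy]
    have e2 : ‖axisPt y - L₀‖ = 0 := by rw [hy, sub_self, norm_zero]
    have hrad : ‖axisPt y - L₀‖ + 4 * ((n : ℝ) * y.den) ^ 2 * ‖L₁ - axisPt y‖ ≤ C * t := by
      rw [e1, e2, zero_add]
      calc 4 * ((n : ℝ) * y.den) ^ 2 * d ≤ 4 * N ^ 2 * t := by gcongr
        _ ≤ C * t := by
            apply mul_le_mul_of_nonneg_right _ ht0
            have h2 : 0 ≤ 2 * A * C₂ := by positivity
            rw [hC]; linarith
    refine (h.conn_near hS hLb hT ?_ (by linarith)).mono hrad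
    rw [e1]
    refine hdN.trans ?_
    apply one_div_le_one_div_of_le (by positivity)
    gcongr
  · have hDy := hD y hy
    set q : ℝ := (y.den : ℝ) with hq
    have hq1 : (1 : ℝ) ≤ q := by
      rw [hq]; exact_mod_cast y.pos
    have hq0 : 0 < q := by linarith
    set s := ‖L₁ - axisPt y‖ with hs
    have hs0 : 0 ≤ s := norm_nonneg _
    set v : ℝ := 1 / q with hv
    have hv0 : 0 < v := by positivity
    have hv1 : v ≤ 1 := by rw [hv, div_le_one hq0]; exact hq1
    have hs2 : s ^ 2 ≤ A * v * d := by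
      calc s ^ 2 ≤ A / q * d := hply
        _ = A * v * d := by rw [hv]; ring
    have hay : ‖axisPt y - L₀‖ ≤ d + s := by
      calc ‖axisPt y - L₀‖ = ‖(L₁ - L₀) - (L₁ - axisPt y)‖ := by ring_nf
        _ ≤ d + s := norm_sub_le _ _
    have hDv : κ * v ^ τ ≤ ‖axisPt y - L₀‖ := by
      have h1 : κ / q ^ τ = κ * v ^ τ := by
        rw [hv, Real.div_rpow zero_le_one hq0.le, Real.one_rpow]; ring
      rw [← h1]; exact hDy
    have hvt : v ≤ C₂ * t := by
      by_contra hcon
      push Not at hcon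
      have h1 : t < v / C₂ := by rw [lt_div_iff₀ hC₂0]; linarith
      have h2 : d ≤ v ^ (2 * τ - 1) / C₂ := by
        calc d = t ^ (2 * τ - 1) := htd.symm
          _ ≤ (v / C₂) ^ (2 * τ - 1) := Real.rpow_le_rpow ht0 h1.le (by linarith)
          _ = v ^ (2 * τ - 1) / C₂ ^ (2 * τ - 1) := Real.div_rpow hv0.le hC₂0.le _
          _ ≤ v ^ (2 * τ - 1) / C₂ := by
              gcongr
              calc C₂ = C₂ ^ (1 : ℝ) := (Real.rpow_one _).symm
                _ ≤ C₂ ^ (2 * τ - 1) := Real.rpow_le_rpow_of_exponent_le hC₂1 h2τ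
      have h3 : v ^ (2 * τ - 1) ≤ v ^ τ :=
        Real.rpow_le_rpow_of_exponent_ge hv0 hv1 (by linarith)
      have h4 : v ^ (2 * τ - 1) * v = (v ^ τ) ^ 2 := by
        rw [← Real.rpow_natCast (v ^ τ) 2, ← Real.rpow_mul hv0.le]
        have e : v ^ (2 * τ - 1) * v = v ^ (2 * τ - 1) * v ^ (1 : ℝ) := by rw [Real.rpow_one]
        rw [e, ← Real.rpow_add hv0]
        congr 1
        push_cast; ring
      have hvτ : 0 < v ^ τ := by positivity
      have h5 : d ≤ κ / 2 * v ^ τ := by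
        calc d ≤ v ^ (2 * τ - 1) / C₂ := h2
          _ ≤ v ^ τ / C₂ := by gcongr
          _ = 1 / C₂ * v ^ τ := by ring
          _ ≤ κ / 2 * v ^ τ := by gcongr
      have h6 : s < κ / 2 * v ^ τ := by
        have h7 : s ^ 2 ≤ (κ / 2 * v ^ τ) ^ 2 := by
          calc s ^ 2 ≤ A * v * d := hs2
            _ ≤ A * v * (v ^ (2 * τ - 1) / C₂) := by gcongr
            _ = A / C₂ * (v ^ (2 * τ - 1) * v) := by ring
            _ = A / C₂ * (v ^ τ) ^ 2 := by rw [h4]
            _ ≤ (κ / 2) ^ 2 * (v ^ τ) ^ 2 := by gcongr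
            _ = _ := by ring
        have h8 : s ≤ κ / 2 * v ^ τ := le_of_sq_le_sq h7 (by positivity)
        refine lt_of_le_of_ne h8 fun h9 => ?_
        -- equality is impossible
        have h10 : A * v * d < (κ / 2 * v ^ τ) ^ 2 := by
          have h11 : d < v ^ (2 * τ - 1) / C₂ := by
            calc d = t ^ (2 * τ - 1) := htd.symm
              _ < (v / C₂) ^ (2 * τ - 1) := Real.rpow_lt_rpow ht0 h1 (by linarith)
              _ = v ^ (2 * τ - 1) / C₂ ^ (2 * τ - 1) := Real.div_rpow hv0.le hC₂0.le _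
              _ ≤ v ^ (2 * τ - 1) / C₂ := by
                  gcongr
                  calc C₂ = C₂ ^ (1 : ℝ) := (Real.rpow_one _).symm
                    _ ≤ C₂ ^ (2 * τ - 1) := Real.rpow_le_rpow_of_exponent_le hC₂1 h2τ
          calc A * v * d < A * v * (v ^ (2 * τ - 1) / C₂) := by gcongr
            _ = A / C₂ * (v ^ (2 * τ - 1) * v) := by ring
            _ = A / C₂ * (v ^ τ) ^ 2 := by rw [h4]
            _ ≤ (κ / 2) ^ 2 * (v ^ τ) ^ 2 := by gcongr
            _ = _ := by ring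
        rw [h9] at hs2
        linarith
      linarith
    have hsv : s ≤ A * v + d := by
      have h1 : s ^ 2 ≤ (A * v + d) ^ 2 := by
        have h2 : 0 ≤ A * v * d := by positivity
        have h3 : (A * v + d) ^ 2 = (A * v) ^ 2 + 2 * (A * v * d) + d ^ 2 := by ring
        have h4 := sq_nonneg (A * v)
        have h5 := sq_nonneg d
        rw [h3]; linarith
      exact le_of_sq_le_sq h1 (by positivity)
    have hAq : A / q = A * v := by rw [hv]; ring
    have htot : ‖axisPt y - L₀‖ + A / q ≤ C * t := by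
      rw [hAq]
      have h1 : A * v ≤ A * (C₂ * t) := by gcongr
      have h2 : 0 ≤ 4 * N ^ 2 * t := by positivity
      calc ‖axisPt y - L₀‖ + A * v ≤ (d + (A * v + d)) + A * v := by linarith
        _ ≤ (t + (A * (C₂ * t) + t)) + A * (C₂ * t) := by linarith
        _ ≤ C * t := by rw [hC]; linarith
    have hAq0 : 0 ≤ A / q := by positivity
    exact (h.conn_far (by linarith) hT (by
      change A / q < R
      have := norm_nonneg (axisPt y - L₀)
      linarith)).mono htot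

end Pool.Agent.Work.MLC.H24
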