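import Pool.Agent.Work.MLC.H24W

set_option autoImplicit false

/-! # Hoelder local connectivity at neutral parameters, in the plane (helper24) -/

namespace Pool.Agent.Work.MLC.H24

open Filter Topology Metric Set Complex
open Pool.Agent.Work.MLC Pool.Agent.Work.MLC.Tr Pool.Agent.Work.MLC.Sat

/-- neutral parameters are centres of neighbourhoods with sections -/
theorem exists_nbd {n : ℕ} (hn : 0 < n) {c₀ b₀ : ℂ} {θ : ℝ} (h0 : 0 < θ) (h1 : θ < 1)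
    (hP : (c₀, b₀) ∈ Per n) (hprim : ∀ d, 0 < d → d < n → it c₀ d b₀ ≠ b₀)
    (hm : mul n (c₀, b₀) = exp ((2 * Real.pi * θ : ℝ) * I)) :
    ∃ σ R, Nbd n σ ((2 * Real.pi * θ : ℝ) * I) R ∧ σ ((2 * Real.pi * θ : ℝ) * I) = (c₀, b₀) := by
  set L₀ : ℂ := (2 * Real.pi * θ : ℝ) * I with hL₀
  have hre : L₀.re = 0 := by rw [hL₀]; simp
  have him : L₀.im = 2 * Real.pi * θ := by rw [hL₀]; simp
  have hn1 : (1 : ℝ) ≤ n := by exact_mod_cast hn
  have hpi := Real.pi_pos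
  have hpi3 := Real.pi_gt_three
  have hpi4 := Real.pi_lt_four
  set μ : ℝ := min θ (1 - θ) with hμ
  have hμ0 : 0 < μ := lt_min h0 (by linarith)
  have hμθ : μ ≤ θ := min_le_left _ _
  have hμθ' : μ ≤ 1 - θ := min_le_right _ _
  have hμ1 : μ ≤ 1 := by linarith
  set g : ℝ := 1 / 4 * μ ^ 2 / n with hg
  have hg0 : 0 < g := by positivity
  have hgμ : g ≤ 1 / 4 * μ := by
    rw [hg, div_le_iff₀ (by linarith)]
    nlinarith
  obtain ⟨x, hx1, hx2⟩ := exists_rat_btwn (show θ < θ + g / 64 by linarith)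
  have hxθ : |(x : ℝ) - θ| < g / 64 := by rw [abs_of_pos (by linarith)]; linarith
  have hx0 : (0 : ℝ) < x := by linarith
  have hxlt : (x : ℝ) < 1 := by nlinarith
  have hmin : μ / 2 ≤ min (x : ℝ) (1 - x) := by
    refine le_min ?_ ?_ <;> nlinarith
  have hgR : g / 4 ≤ gR n x := by
    unfold gR
    have h2 : (μ / 2) ^ 2 ≤ (min (x : ℝ) (1 - x)) ^ 2 := by gcongr
    rw [hg, div_div, div_le_div_iff₀ (by positivity) (by positivity)]
    nlinarith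
  have hdist : ‖L₀ - axisPt x‖ < g / 8 := by
    have e : L₀ - axisPt x = ((2 * Real.pi * (θ - x) : ℝ) : ℂ) * I := by
      rw [hL₀]; simp only [axisPt]; push_cast; ring
    rw [e, norm_mul, norm_I, mul_one, norm_real, Real.norm_eq_abs, abs_mul,
      abs_of_pos (by positivity : (0 : ℝ) < 2 * Real.pi), abs_sub_comm]
    nlinarith [abs_nonneg ((x : ℝ) - θ)]
  have hG : GoodDom n (ball (axisPt x) (gR n x)) :=
    goodDom34 hn (by exact_mod_cast hx0) (by exact_mod_cast hxlt)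
  have hL₀B : L₀ ∈ ball (axisPt x) (gR n x) := by
    rw [mem_ball, dist_eq_norm]; linarith
  obtain ⟨σ, hσ, hσ', hσ0⟩ := exists_section hG (convex_ball _ _) hP hL₀B hm
  have hsub : ball L₀ (2 * (g / 16)) ⊆ ball (axisPt x) (gR n x) := by
    apply ball_subset_ball'
    rw [dist_eq_norm]; linarith
  refine ⟨σ, g / 16, ⟨hn, by positivity, hre, ?_, ?_, GoodDom.mono' hG hsub isOpen_ball,
    hσ.mono hsub, fun L hL => hσ' L (hsub hL), fun L hL => ?_⟩, hσ0⟩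
  · rw [him]; nlinarith
  · rw [him]; nlinarith
  · exact prim_section (convex_ball _ _).isPreconnected isOpen_ball hG.ne_one hσ hσ' hL₀B
      (by rw [hσ0]; exact hprim) L (hsub hL)

/-- from the coordinate of the multiplier to the plane -/
theorem Nbd.transfer {n : ℕ} {σ : ℂ → ℂ × ℂ} {L₀ : ℂ} {R : ℝ} (h : Nbd n σ L₀ R) {a : ℝ}
    (ha : 0 < a) (H : ∃ δ > 0, ∃ C : ℝ, ∀ L₁ ∈ ball L₀ δ,
      (σ L₁).1 ∈ MS → Conn σ L₀ L₁ (C * ‖L₁ - L₀‖ ^ a)) :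
    ∃ C' : ℝ, ∀ c ∈ MS, ∃ K ⊆ MS, IsCompact K ∧ IsPreconnected K ∧ (σ L₀).1 ∈ K ∧ c ∈ K ∧
      ∀ u ∈ K, ‖u - (σ L₀).1‖ ≤ C' * ‖c - (σ L₀).1‖ ^ a := by
  obtain ⟨δ, hδ, C, hC⟩ := H
  set f : ℂ → ℂ := fun L => (σ L).1 with hf
  have hR := h.R_pos
  have h0B : L₀ ∈ ball L₀ (2 * R) := mem_ball_self (by linarith)
  have hst := section_strict h.good h.cont h.sec h0B
  have hne := section_deriv_ne_zero h.good h.cont h.sec h0B
  set m : ℝ := ‖deriv f L₀‖ with hm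
  have hm0 : 0 < m := norm_pos_iff.2 hne
  have hM0 : f L₀ ∈ MS := h.left h0B h.re.le
  -- two sided bound
  have hd : ∀ᶠ L in 𝓝 L₀, ‖f L - f L₀ - (L - L₀) • deriv f L₀‖ ≤ m / 2 * ‖L - L₀‖ := by
    have h1 := (hasDerivAt_iff_isLittleO.1 hst.hasDerivAt)
    exact h1.def (by positivity)
  obtain ⟨δ₁, hδ₁, hδ₁'⟩ := Metric.eventually_nhds_iff_ball.1 hd
  have hup : ∀ L ∈ ball L₀ δ₁, ‖f L - f L₀‖ ≤ 3 / 2 * m * ‖L - L₀‖ := by
    intro L hL
    have h1 := hδ₁' L hL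
    have h2 : ‖(L - L₀) • deriv f L₀‖ = m * ‖L - L₀‖ := by rw [norm_smul, hm, mul_comm]
    calc ‖f L - f L₀‖ = ‖(f L - f L₀ - (L - L₀) • deriv f L₀) + (L - L₀) • deriv f L₀‖ := by
          rw [sub_add_cancel]
      _ ≤ m / 2 * ‖L - L₀‖ + m * ‖L - L₀‖ := by
          refine (norm_add_le _ _).trans ?_
          rw [h2]; gcongr
      _ = _ := by ring
  have hlow : ∀ L ∈ ball L₀ δ₁, m / 2 * ‖L - L₀‖ ≤ ‖f L - f L₀‖ := by
    intro L hL
    have h1 := hδ₁' L hL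
    have h2 : ‖(L - L₀) • deriv f L₀‖ = m * ‖L - L₀‖ := by rw [norm_smul, hm, mul_comm]
    have h3 : ‖(L - L₀) • deriv f L₀‖ ≤ ‖f L - f L₀‖ + ‖f L - f L₀ - (L - L₀) • deriv f L₀‖ := by
      calc ‖(L - L₀) • deriv f L₀‖ = ‖(f L - f L₀) - (f L - f L₀ - (L - L₀) • deriv f L₀)‖ := by
            rw [sub_sub_cancel]
        _ ≤ _ := norm_sub_le _ _
    rw [h2] at h3
    linarith
  -- choice of the radius
  set C₁ : ℝ := |C| + 1 with hC₁
  have hC₁0 : 0 < C₁ := by positivity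
  have hCC : C ≤ C₁ := by rw [hC₁]; linarith [le_abs_self C]
  set δ₂ : ℝ := min (min δ δ₁) ((δ₁ / (2 * C₁)) ^ (1 / a)) with hδ₂
  have hδ₂0 : 0 < δ₂ := by positivity
  have himg : f '' ball L₀ δ₂ ∈ 𝓝 (f L₀) := by
    rw [← hst.map_nhds_eq hne]
    exact image_mem_map (ball_mem_nhds _ hδ₂0)
  obtain ⟨η, hη, hη'⟩ := Metric.mem_nhds_iff.1 himg
  refine ⟨8 / η ^ a + 3 / 2 * m * (C₁ * (2 / m) ^ a), ?_⟩
  intro c hc
  have hk0 : 0 ≤ 3 / 2 * m * (C₁ * (2 / m) ^ a) := by positivity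
  have hk1 : 0 ≤ 8 / η ^ a := by positivity
  by_cases hcη : ‖c - f L₀‖ < η
  · obtain ⟨L₁, hL₁, hfL⟩ := hη' (show c ∈ ball (f L₀) η by rwa [mem_ball, dist_eq_norm])
    have hL₁' := hL₁
    rw [mem_ball, dist_eq_norm] at hL₁
    have hL₁δ : L₁ ∈ ball L₀ δ := by
      rw [mem_ball, dist_eq_norm]
      exact hL₁.trans_le ((min_le_left _ _).trans (min_le_left _ _))
    have hL₁δ₁ : L₁ ∈ ball L₀ δ₁ := by
      rw [mem_ball, dist_eq_norm]
      exact hL₁.trans_le ((min_le_left _ _).trans (min_le_right _ _))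
    obtain ⟨K, k1, k2, k3, k4, k5, k6⟩ := hC L₁ hL₁δ (by
      show f L₁ ∈ MS
      rw [hfL]; exact hc)
    set d := ‖L₁ - L₀‖ with hdd
    have hd0 : 0 ≤ d := norm_nonneg _
    have hda : C₁ * d ^ a < δ₁ := by
      have h1 : d ^ a < δ₁ / (2 * C₁) := by
        have h2 : d < (δ₁ / (2 * C₁)) ^ (1 / a) := hL₁.trans_le (min_le_right _ _)
        calc d ^ a < ((δ₁ / (2 * C₁)) ^ (1 / a)) ^ a := Real.rpow_lt_rpow hd0 h2 ha
          _ = δ₁ / (2 * C₁) := by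
              rw [← Real.rpow_mul (by positivity), one_div, inv_mul_cancel₀ ha.ne', Real.rpow_one]
      rw [lt_div_iff₀ (by positivity)] at h1
      linarith
    refine ⟨K, k1, k2, k3, k5, by rw [← hfL]; exact k4, ?_⟩
    intro u hu
    obtain ⟨L, hL, rfl⟩ := k6 hu
    rw [mem_closedBall, dist_eq_norm] at hL
    have hLC : ‖L - L₀‖ ≤ C₁ * d ^ a := hL.trans (by gcongr)
    have hLb : L ∈ ball L₀ δ₁ := by
      rw [mem_ball, dist_eq_norm]; linarith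
    have hdc : d ≤ 2 / m * ‖c - f L₀‖ := by
      have h1 := hlow L₁ hL₁δ₁
      rw [hfL] at h1
      rw [div_mul_eq_mul_div, le_div_iff₀ hm0]
      linarith
    calc ‖f L - f L₀‖ ≤ 3 / 2 * m * ‖L - L₀‖ := hup L hLb
      _ ≤ 3 / 2 * m * (C₁ * d ^ a) := by gcongr
      _ ≤ 3 / 2 * m * (C₁ * (2 / m * ‖c - f L₀‖) ^ a) := by gcongr
      _ = 3 / 2 * m * (C₁ * (2 / m) ^ a) * ‖c - f L₀‖ ^ a := by
          rw [Real.mul_rpow (by positivity) (norm_nonneg _)]; ring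
      _ ≤ (8 / η ^ a + 3 / 2 * m * (C₁ * (2 / m) ^ a)) * ‖c - f L₀‖ ^ a := by
          gcongr; linarith
  · push Not at hcη
    refine ⟨MS, Subset.rfl, isCompact_MM, isPreconnected_MM, hM0, hc, ?_⟩
    intro u hu
    have h1 : η ^ a ≤ ‖c - f L₀‖ ^ a := Real.rpow_le_rpow hη.le hcη ha.le
    have h2 : 0 < η ^ a := by positivity
    calc ‖u - f L₀‖ ≤ ‖u‖ + ‖f L₀‖ := norm_sub_le _ _
      _ ≤ 4 + 4 := add_le_add (MS_norm hu) (MS_norm hM0)
      _ = 8 / η ^ a * η ^ a := by field_simp; norm_num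
      _ ≤ 8 / η ^ a * ‖c - f L₀‖ ^ a := by gcongr
      _ ≤ (8 / η ^ a + 3 / 2 * m * (C₁ * (2 / m) ^ a)) * ‖c - f L₀‖ ^ a := by
          gcongr; linarith

/-- **Hoelder local connectivity at every parameter with a neutral cycle of multiplier `≠ 1`** -/
theorem pointwise {n : ℕ} {c₀ b₀ : ℂ} {θ : ℝ} (hn : 0 < n)
    (hper : Function.minimalPeriod (fun z : ℂ => z ^ 2 + c₀) b₀ = n)
    (hm : deriv ((fun z : ℂ => z ^ 2 + c₀)^[n]) b₀ = exp (2 * Real.pi * θ * I))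
    (hθ : ∀ k : ℤ, θ ≠ k) :
    (∃ C : ℝ, ∀ c ∈ MS, ∃ K ⊆ MS, IsCompact K ∧ IsPreconnected K ∧ c₀ ∈ K ∧ c ∈ K ∧
      ∀ u ∈ K, ‖u - c₀‖ ≤ C * ‖c - c₀‖ ^ (1 / 22 : ℝ)) ∧
    ∀ κ τ : ℝ, 0 < κ → 1 ≤ τ →
      (∀ (p : ℤ) (q : ℕ), 0 < q → θ ≠ p / q → κ / (q : ℝ) ^ τ ≤ |θ - p / q|) →
      ∃ C : ℝ, ∀ c ∈ MS, ∃ K ⊆ MS, IsCompact K ∧ IsPreconnected K ∧ c₀ ∈ K ∧ c ∈ K ∧
        ∀ u ∈ K, ‖u - c₀‖ ≤ C * ‖c - c₀‖ ^ (1 / (2 * τ - 1) : ℝ) := by
  have hfun : ∀ k, (fun z : ℂ => z ^ 2 + c₀)^[k] = it c₀ k := fun k => rfl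
  have hP : (c₀, b₀) ∈ Per n := by
    have h1 := Function.isPeriodicPt_minimalPeriod (fun z : ℂ => z ^ 2 + c₀) b₀
    rw [hper] at h1
    exact h1
  have hprim : ∀ d, 0 < d → d < n → it c₀ d b₀ ≠ b₀ := by
    intro d hd hdn h1
    have h2 : Function.IsPeriodicPt (fun z : ℂ => z ^ 2 + c₀) d b₀ := h1
    have h3 := h2.minimalPeriod_le hd
    omega
  set θ' : ℝ := Int.fract θ with hθ'
  have h0 : 0 < θ' := by
    rcases (Int.fract_nonneg θ).eq_or_lt with h | h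
    · exfalso
      apply hθ ⌊θ⌋
      have := Int.floor_add_fract θ
      rw [← h, add_zero] at this
      exact this.symm
    · exact h
  have h1 : θ' < 1 := Int.fract_lt_one θ
  have hmul : mul n (c₀, b₀) = exp ((2 * Real.pi * θ' : ℝ) * I) := by
    have h2 : mul n (c₀, b₀) = deriv ((fun z : ℂ => z ^ 2 + c₀)^[n]) b₀ :=
      (hasDerivAt_it c₀ n b₀).deriv.symm
    rw [h2, hm, Complex.exp_eq_exp_iff_exists_int]
    refine ⟨⌊θ⌋, ?_⟩
    have h3 : (θ : ℂ) = ((⌊θ⌋ : ℝ) : ℂ) + ((Int.fract θ : ℝ) : ℂ) := by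
      rw [← ofReal_add, Int.floor_add_fract]
    rw [h3, hθ']
    push_cast
    ring
  obtain ⟨σ, R, hN, hσ⟩ := exists_nbd hn h0 h1 hP hprim hmul
  set L₀ : ℂ := (2 * Real.pi * θ' : ℝ) * I with hL₀
  have hc : (σ L₀).1 = c₀ := by rw [hσ]
  constructor
  · have h2 := hN.transfer (a := 1 / 22) (by norm_num) (hN.conn_all sAll)
    rw [hc] at h2
    exact h2
  · intro κ τ hκ hτ hD
    have h3 : ∀ y : ℚ, axisPt y ≠ L₀ → κ / (y.den : ℝ) ^ τ ≤ ‖axisPt y - L₀‖ := by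
      intro y hy
      have e : axisPt y - L₀ = ((2 * Real.pi * (y - θ') : ℝ) : ℂ) * I := by
        rw [hL₀]; simp only [axisPt]; push_cast; ring
      have hyθ : (y : ℝ) ≠ θ' := by
        intro h; apply hy; rw [hL₀, ← h]; rfl
      rw [e, norm_mul, norm_I, mul_one, norm_real, Real.norm_eq_abs, abs_mul,
        abs_of_pos (by positivity : (0 : ℝ) < 2 * Real.pi)]
      have hq : (0 : ℝ) < y.den := by exact_mod_cast y.pos
      have hyr : (y : ℝ) = y.num / y.den := by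
        have := Rat.num_div_den y
        exact_mod_cast this.symm
      have hfl : θ = ⌊θ⌋ + θ' := (Int.floor_add_fract θ).symm
      have e2 : θ - ((y.num + ⌊θ⌋ * y.den : ℤ) : ℝ) / (y.den : ℝ) = θ' - y := by
        rw [hyr]
        push_cast
        field_simp
        rw [hfl]
        simp only [Int.floor_intCast_add]
        have : ⌊θ'⌋ = 0 := by
          rw [Int.floor_eq_zero_iff]; exact ⟨h0.le, h1⟩
        rw [this]
        push_cast
        ring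
      have h4 := hD (y.num + ⌊θ⌋ * y.den) y.den y.pos (by
        intro h5
        apply hyθ
        have h6 : θ' - y = 0 := by rw [← e2, sub_eq_zero]; exact h5
        linarith)
      rw [e2, abs_sub_comm] at h4
      have hpi := Real.pi_gt_three
      nlinarith [abs_nonneg ((y : ℝ) - θ')]
    have h2 := hN.transfer (a := 1 / (2 * τ - 1)) (by
      have : 0 < 2 * τ - 1 := by linarith
      positivity) (hN.conn_dioph sAll hκ hτ h3)
    rw [hc] at h2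
    exact h2

end Pool.Agent.Work.MLC.H24
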