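import Pool.Agent.Work.MLC.ShpC24
import Pool.Agent.Work.MLC.CapW6

set_option autoImplicit false

/-! # Theorem CAP: the infinitely renormalizable angles are not a null set (helper24)

The angles of `nonnull_chain` (helper57) are in all arcs of a chain of satellites; these angles are
infinitely renormalizable (`infRen_of_chain`). -/

namespace Pool.Agent.Work.MLC.Shp

open Filter Topology Metric Set
open Pool.Agent.Work.MLC.Sat Pool.Agent.Work.MLC.Cnt Pool.Agent.Work.MLC.Cap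
open Pool.Agent.Work.MLC.Cap.V57

lemma nu_of_US {j : ℕ} {W : OW} {t : ℝ} {i : ℕ} (hi : i ∈ Finset.Ico 1 (Q j))
    (h : t ∈ US 0 (j + 1) (ch W (xx j i))) : W.1.nu t = xx j i := by
  rw [mem_US_zero] at h
  obtain ⟨i', hi', h1, h2⟩ := h
  have h3 := ch_in W (xx_pos hi) (xx_lt hi) (xx_pos hi') (xx_lt hi')
  exact (WS.plateau W.2 (xx_pos hi) (xx_lt hi) t).2 ⟨by linarith [h3.1], by linarith [h3.2]⟩

/-- a point of all levels is in a branch -/
lemma exists_branch {j : ℕ} {W : OW} {t : ℝ} (h : ∀ k, t ∈ US k j W) :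
    ∃ i ∈ Finset.Ico 1 (Q j), ∀ k, t ∈ US k (j + 1) (ch W (xx j i)) := by
  obtain ⟨i, hi, h1⟩ := mem_US_succ.1 (h 1)
  refine ⟨i, hi, fun k => ?_⟩
  obtain ⟨i', hi', h2⟩ := mem_US_succ.1 (h (k + 1))
  have h3 : t ∈ US 0 (j + 1) (ch W (xx j i')) :=
    (antitone_nat_of_succ_le (f := fun k => US k (j + 1) (ch W (xx j i')))
      (fun k => US_anti k (j + 1) _)) (Nat.zero_le k) h2
  have h4 : (xx j i : ℝ) = xx j i' := by rw [← nu_of_US hi h1, ← nu_of_US hi' h3]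
  have h5 : xx j i = xx j i' := by exact_mod_cast h4
  rw [h5]
  exact h2

lemma flw_shift (n : ℕ) (w : ℕ → ℤ) (l : ℤ) (j : ℕ) :
    (flw n w j + l) % 2 = flw n (fun i => (w i + l) % 2) j := by
  unfold flw
  split_ifs
  · show _ = 1 - (w j + l) % 2
    omega
  · rfl

/-- **the angles in all levels are infinitely renormalizable** -/
theorem infRen_of_US {W : OW} {t : ℝ} (h : ∀ k, t ∈ US k 0 W) : InfRen (Int.fract t) := by
  classical
  -- the chain
  have hnext : ∀ p : {p : ℕ × OW // ∀ k, t ∈ US k p.1 p.2},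
      ∃ p' : {p : ℕ × OW // ∀ k, t ∈ US k p.1 p.2}, ∃ i ∈ Finset.Ico 1 (Q p.1.1),
        p'.1 = (p.1.1 + 1, ch p.1.2 (xx p.1.1 i)) := by
    rintro ⟨⟨j, V⟩, hp⟩
    obtain ⟨i, hi, h1⟩ := exists_branch hp
    exact ⟨⟨(j + 1, ch V (xx j i)), h1⟩, i, hi, rfl⟩
  choose nx ix hix hnx using hnext
  set F : ℕ → {p : ℕ × OW // ∀ k, t ∈ US k p.1 p.2} := fun n => nx^[n] ⟨(0, W), h⟩ with hF
  have hFs : ∀ n, F (n + 1) = nx (F n) := fun n => Function.iterate_succ_apply' nx n _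
  set V : ℕ → OW := fun n => (F n).1.2 with hV
  set x : ℕ → ℚ := fun n => xx (F n).1.1 (ix (F n)) with hx
  have hx0 : ∀ n, 0 < x n := fun n => xx_pos (hix (F n))
  have hx1 : ∀ n, x n < 1 := fun n => xx_lt (hix (F n))
  have hx3 : ∀ n, 3 ≤ (x n).den := fun n => by
    show 3 ≤ (xx (F n).1.1 (ix (F n))).den
    rw [xx_den (hix (F n))]
    have := Q_ge4 (F n).1.1
    omega
  have hVs : ∀ n, V (n + 1) = ch (V n) (x n) := fun n => by
    show (F (n + 1)).1.2 = ch (F n).1.2 (xx (F n).1.1 (ix (F n)))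
    rw [hFs, hnx]
  -- `t` is in the arc
  have hin : ∀ n, ((V n).1.dat (x n)).tm ≤ t ∧ t ≤ ((V n).1.dat (x n)).tp := by
    intro n
    have h1 : t ∈ US 0 ((F n).1.1 + 1) (ch (V n) (x n)) := by
      have h2 := (F (n + 1)).2 0
      rw [hFs, hnx] at h2
      exact h2
    exact (WS.plateau (V n).2 (hx0 n) (hx1 n) t).1 (nu_of_US (hix (F n)) h1)
  set l : ℤ := ⌊t⌋ with hl
  have hca : ∀ n, CA (V n).1.m (x n).den ((V n).1.dat (x n)).w ((V n).1.dat (x n)).tm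
      ((V n).1.dat (x n)).tp := by
    intro n
    have h1 := ca_of (WS.dat_par (V n).2 (hx0 n) (hx1 n)) (WS.dat_cir (V n).2 (hx0 n) (hx1 n))
    rwa [WS.dat_m (V n).2 (hx0 n) (hx1 n), WS.dat_x (V n).2 (hx0 n) (hx1 n)] at h1
  have hfl : ∀ n, (l : ℝ) ≤ ((V n).1.dat (x n)).tm ∧ ((V n).1.dat (x n)).tp ≤ l + 1 := by
    intro n
    have h1 := (hca n).floor_eq (hin n).1 (hin n).2
    have h2 := (hca n).floor_eq (hca n).lt.le le_rfl
    have h3 := Int.floor_le ((V n).1.dat (x n)).tm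
    have h4 := (Int.lt_floor_add_one ((V n).1.dat (x n)).tp).le
    rw [h2, ← h1] at h4
    rw [← h1] at h3
    exact ⟨h3, h4⟩
  have hsh := fun n => (hca n).shift (-l)
  refine infRen_of_chain (N := fun n => (V n).1.m) (q := fun n => (x n).den)
    (w := fun n i => (((V n).1.dat (x n)).w i + -l) % 2)
    (s := fun n => ((V n).1.dat (x n)).tm + ((-l : ℤ) : ℝ))
    (t := fun n => ((V n).1.dat (x n)).tp + ((-l : ℤ) : ℝ)) hsh hx3 (fun n => ?_) (fun n => ?_)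
    (fun n => ?_) (fun n => ?_) (fun n => ?_) (fun n => ?_) (fun n => ?_)
  · show (V (n + 1)).1.m = (V n).1.m * (x n).den
    rw [hVs]
    exact ch_m _ (hx0 n) (hx1 n)
  · obtain ⟨i₀, -, h1, -⟩ :=
      (WS.dat_choose (V (n + 1)).2 (hx0 (n + 1)) (hx1 (n + 1))).2.2.2.2.2.1
    refine ⟨i₀, fun j => ?_⟩
    show (((V (n + 1)).1.dat (x (n + 1))).w j + -l) % 2 =
      flw ((V n).1.m * (x n).den) (fun i => (((V n).1.dat (x n)).w i + -l) % 2) (j + i₀)
    rw [h1, ← flw_shift]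
    have h2 : (V (n + 1)).1.w = ((V n).1.dat (x n)).u := by
      rw [hVs]
      exact ch_w _ (hx0 n) (hx1 n)
    have hC := WS.dat_cir (V n).2 (hx0 n) (hx1 n)
    have h3 := hC.flip (j + i₀)
    have h4 : ((V n).1.dat (x n)).n = (V n).1.m * (x n).den := by
      show ((V n).1.dat (x n)).m * ((V n).1.dat (x n)).x.den = _
      rw [WS.dat_m (V n).2 (hx0 n) (hx1 n), WS.dat_x (V n).2 (hx0 n) (hx1 n)]
    rw [h4] at h3
    show ((V (n + 1)).1.w (j + i₀) + -l) % 2 = _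
    rw [h2, h3]
    unfold flw
    by_cases hd : (V n).1.m * (x n).den ∣ j + i₀ + 1
    · rw [if_pos hd, if_pos (Nat.dvd_iff_mod_eq_zero.1 hd)]
    · rw [if_neg hd, if_neg fun h0 => hd (Nat.dvd_iff_mod_eq_zero.2 h0)]
  · have h1 := (ch_in (V n) (hx0 n) (hx1 n) (hx0 (n + 1)) (hx1 (n + 1))).1
    rw [← hVs] at h1
    show ((V n).1.dat (x n)).tm + _ < ((V (n + 1)).1.dat (x (n + 1))).tm + _
    linarith
  · have h1 := (ch_in (V n) (hx0 n) (hx1 n) (hx0 (n + 1)) (hx1 (n + 1))).2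
    rw [← hVs] at h1
    show ((V (n + 1)).1.dat (x (n + 1))).tp + _ < ((V n).1.dat (x n)).tp + _
    linarith
  · show 0 ≤ ((V n).1.dat (x n)).tm + ((-l : ℤ) : ℝ)
    have := (hfl n).1
    push_cast
    linarith
  · show ((V n).1.dat (x n)).tp + ((-l : ℤ) : ℝ) ≤ 1
    have := (hfl n).2
    push_cast
    linarith
  · show ((V n).1.dat (x n)).tm + ((-l : ℤ) : ℝ) ≤ Int.fract t ∧
      Int.fract t ≤ ((V n).1.dat (x n)).tp + ((-l : ℤ) : ℝ)
    have h1 : Int.fract t = t - l := rfl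
    have h2 := hin n
    rw [h1]
    push_cast
    constructor <;> linarith

/-- **the infinitely renormalizable angles are not a null set** for the gauge `1 / log (1 / t)` -/
theorem not_null_infRen : ¬ Cap.Null {θ | θ ∈ Ico (0 : ℝ) 1 ∧ InfRen θ} := by
  intro h
  obtain ⟨δ, hδ, h1⟩ := nonnull_chain
  obtain ⟨a, l, h2, h3, h4, h5⟩ := h δ hδ
  obtain ⟨W, t, -, ht, hi⟩ := h1 a l h2 h4 h5
  obtain ⟨i, hi'⟩ := mem_iUnion.1
    (h3 ⟨⟨Int.fract_nonneg t, Int.fract_lt_one t⟩, infRen_of_US ht⟩)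
  exact hi i hi'

end Pool.Agent.Work.MLC.Shp
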