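import Mathlib
import Pool.Agent.Work.MLC.PlyArea

set_option autoImplicit false

/-! # A weak Koebe distortion theorem  (helper54)

`koebe_circle`: for an injective holomorphic map of a disc the distances of the image of the concentric
circle of radius `R / e` to the image of the centre are comparable.
`koebe_rel`: the displacement of the centre, relative to the diameter of the image of a half disc. -/

namespace Pool.Agent.Work.MLC

open Filter Topology Metric Set Complex MeasureTheory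

lemma exp_lt_one_aux {x : ℝ} (h : x < 0) : Real.exp x < 1 := by
  rw [← Real.exp_zero]; exact Real.exp_lt_exp.2 h

/-- oscillation of `log |V|` over the strip `|Re + 1| ≤ s` -/
def Osc (V : ℂ → ℂ) (s φ : ℝ) : Prop :=
  ∀ x y : ℂ, |x.re + 1| ≤ s → |y.re + 1| ≤ s → Real.log ‖V x‖ - Real.log ‖V y‖ ≤ φ

lemma Osc.mono {V : ℂ → ℂ} {s s' φ φ' : ℝ} (h : Osc V s φ) (hs : s' ≤ s) (hφ : φ ≤ φ') :
    Osc V s' φ' := fun x y hx hy => (h x y (hx.trans hs) (hy.trans hs)).trans hφ

/-- the area of an annulus -/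
lemma mu_annulus {a φ : ℝ} (hφ : 0 ≤ φ) :
    mu {w : ℂ | Real.exp a ≤ ‖w‖ ∧ ‖w‖ ≤ Real.exp (a + φ)} ≤
      ENNReal.ofReal (2 * Real.pi * (φ + 1)) := by
  have hρ : ‖((Real.exp (φ + 1) : ℝ) : ℂ)‖ = Real.exp (φ + 1) := by
    rw [Complex.norm_real, Real.norm_of_nonneg (Real.exp_pos _).le]
  have h1 : 1 < ‖((Real.exp (φ + 1) : ℝ) : ℂ)‖ := by
    rw [hρ]; exact Real.one_lt_exp_iff.2 (by linarith)
  have hm : MeasurableSet {w : ℂ | Real.exp a ≤ ‖w‖ ∧ ‖w‖ ≤ Real.exp (a + φ)} := by
    apply IsClosed.measurableSet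
    exact (isClosed_le continuous_const continuous_norm).inter
      (isClosed_le continuous_norm continuous_const)
  have h := torus_lemma h1 hm ?_
  · rw [hρ, Real.log_exp] at h
    exact h
  · rintro z ⟨hz1, hz2⟩ w ⟨hw1, hw2⟩ j hj
    by_contra hj0
    have hn : ‖z‖ = Real.exp ((φ + 1) * j) * ‖w‖ := by
      have hpow : ‖(((Real.exp (φ + 1) : ℝ) : ℂ)) ^ j‖ = Real.exp ((φ + 1) * j) := by
        rw [norm_zpow, hρ, Real.exp_mul, Real.rpow_intCast]
      rw [hj, norm_mul, hpow]
    have hcase : ∀ x y : ℝ, Real.exp a ≤ x → x ≤ Real.exp (a + φ) → Real.exp a ≤ y →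
        y ≤ Real.exp (a + φ) → x = Real.exp ((φ + 1) * j) * y → False := by
      intro x y hx1 hx2 hy1 hy2 hxy
      rcases lt_or_gt_of_ne hj0 with h | h
      · have hj1 : (j : ℝ) ≤ -1 := by exact_mod_cast (by omega : j ≤ -1)
        have : Real.exp ((φ + 1) * j) ≤ Real.exp (-(φ + 1)) :=
          Real.exp_le_exp.2 (by nlinarith)
        have h2 : x ≤ Real.exp (-(φ + 1)) * Real.exp (a + φ) := by
          rw [hxy]
          exact mul_le_mul this hy2 ((Real.exp_pos _).le.trans hy1) (Real.exp_pos _).le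
        rw [← Real.exp_add] at h2
        have h3 : Real.exp (-(φ + 1) + (a + φ)) < Real.exp a := Real.exp_lt_exp.2 (by linarith)
        linarith
      · have hj1 : (1 : ℝ) ≤ j := by exact_mod_cast (by omega : 1 ≤ j)
        have : Real.exp (φ + 1) ≤ Real.exp ((φ + 1) * j) :=
          Real.exp_le_exp.2 (by nlinarith)
        have h2 : Real.exp (φ + 1) * Real.exp a ≤ x := by
          rw [hxy]
          exact mul_le_mul this hy1 (Real.exp_pos _).le (Real.exp_pos _).le
        rw [← Real.exp_add] at h2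
        have h3 : Real.exp (a + φ) < Real.exp (φ + 1 + a) := Real.exp_lt_exp.2 (by linarith)
        linarith
    exact hcase _ _ hz1 hz2 hw1 hw2 hn

/-- data of an injective function in the logarithmic coordinate -/
structure LogInj (V : ℂ → ℂ) : Prop where
  diff : DifferentiableOn ℂ V {z | z.re < 0}
  ne : ∀ z : ℂ, z.re < 0 → V z ≠ 0
  per : ∀ z : ℂ, V (z + 2 * Real.pi * I) = V z
  inj : ∀ z w : ℂ, z.re < 0 → w.re < 0 → V z = V w → ∃ k : ℤ, z = w + k * (2 * Real.pi * I)

lemma LogInj.per_int {V : ℂ → ℂ} (h : LogInj V) (z : ℂ) (k : ℤ) :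
    V (z + k * (2 * Real.pi * I)) = V z := by
  induction k using Int.induction_on with
  | zero => simp
  | succ k ih =>
    rw [← ih, ← h.per (z + (k : ℤ) * (2 * Real.pi * I))]
    congr 1
    push_cast; ring
  | pred k ih =>
    rw [← ih, ← h.per (z + ((-(k : ℤ) - 1 : ℤ) : ℂ) * (2 * Real.pi * I))]
    congr 1
    push_cast; ring

lemma osc_step {V : ℂ → ℂ} (hV : LogInj V) {s δ φ : ℝ} (hδ : 0 < δ)
    (hsδ : s + δ ≤ 1 / 2) (hφ : 1 ≤ φ) (h : Osc V (s + δ) φ) :
    Osc V s (10 / δ * Real.sqrt φ) := by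
  intro x y hx hy
  have hpi := Real.pi_pos
  have hpi4 := Real.pi_lt_four
  have hs0 : 0 ≤ s := (abs_nonneg _).trans hx
  set Ω : Set ℂ := {z | -1 - (s + δ) < z.re ∧ z.re < -1 + (s + δ)} with hΩ
  have hΩneg : ∀ z ∈ Ω, z.re < 0 := fun z hz => by
    have := hz.2
    linarith
  have hΩo : IsOpen Ω :=
    (isOpen_lt continuous_const continuous_re).inter (isOpen_lt continuous_re continuous_const)
  have hΩc : Convex ℝ Ω := (convex_halfSpace_re_gt _).inter (convex_halfSpace_re_lt _)
  have hΩs : ∀ z ∈ Ω, |z.re + 1| ≤ s + δ := fun z hz => abs_le.2 ⟨by linarith [hz.1], by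
    linarith [hz.2]⟩
  have hx' := abs_le.1 hx
  have hy' := abs_le.1 hy
  have hxΩ : x ∈ Ω := ⟨by linarith [hx'.1], by linarith [hx'.2]⟩
  -- translate `y`
  obtain ⟨k, hk⟩ : ∃ k : ℤ, |(y + k * (2 * Real.pi * I)).im - x.im| ≤ Real.pi := by
    refine ⟨round ((x.im - y.im) / (2 * Real.pi)), ?_⟩
    have h1 := abs_sub_round ((x.im - y.im) / (2 * Real.pi))
    have h2 : (y + (round ((x.im - y.im) / (2 * Real.pi)) : ℂ) * (2 * Real.pi * I)).im - x.im
        = -(2 * Real.pi) * ((x.im - y.im) / (2 * Real.pi) -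
          round ((x.im - y.im) / (2 * Real.pi))) := by
      simp
      field_simp
      ring
    rw [h2, abs_mul, abs_neg, abs_of_pos (by linarith : 0 < 2 * Real.pi)]
    nlinarith
  set y' : ℂ := y + k * (2 * Real.pi * I) with hy'def
  have hy're : y'.re = y.re := by rw [hy'def]; simp
  have hVy : V y = V y' := (hV.per_int y k).symm
  have hy'Ω : y' ∈ Ω := ⟨by rw [hy're]; linarith [hy'.1], by rw [hy're]; linarith [hy'.2]⟩
  -- the logarithm
  have hVd : DifferentiableOn ℂ V Ω := hV.diff.mono hΩneg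
  obtain ⟨F, hFd, hFV⟩ := Tr.exists_hol_log hΩo hΩc ⟨x, hxΩ⟩ hVd
    (fun z hz => hV.ne z (hΩneg z hz))
  have hre : ∀ w ∈ Ω, Real.log ‖V w‖ = (F w).re := fun w hw => by
    rw [← hFV w hw, Complex.norm_exp, Real.log_exp]
  -- the image
  set a : ℝ := sInf ((fun z => Real.log ‖V z‖) '' Ω) with ha
  have hbdd : BddBelow ((fun z => Real.log ‖V z‖) '' Ω) := by
    refine ⟨Real.log ‖V x‖ - φ, ?_⟩
    rintro _ ⟨z, hz, rfl⟩
    have := h x z (hΩs x hxΩ) (hΩs z hz)
    simp only
    linarith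
  have ha1 : ∀ z ∈ Ω, a ≤ Real.log ‖V z‖ := fun z hz => csInf_le hbdd ⟨z, hz, rfl⟩
  have ha2 : ∀ z ∈ Ω, Real.log ‖V z‖ ≤ a + φ := fun z hz => by
    have : Real.log ‖V z‖ - φ ≤ a := by
      refine le_csInf ⟨_, x, hxΩ, rfl⟩ ?_
      rintro _ ⟨w, hw, rfl⟩
      have := h z w (hΩs z hz) (hΩs w hw)
      simp only
      linarith
    linarith
  have hW : ∀ z ∈ Ω, V z ∈ {w : ℂ | Real.exp a ≤ ‖w‖ ∧ ‖w‖ ≤ Real.exp (a + φ)} := by
    intro z hz
    have hpos : 0 < ‖V z‖ := norm_pos_iff.2 (hV.ne z (hΩneg z hz))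
    exact ⟨(Real.le_log_iff_exp_le hpos).1 (ha1 z hz), (Real.log_le_iff_le_exp hpos).1 (ha2 z hz)⟩
  have hmu := mu_annulus (a := a) (φ := φ) (by linarith)
  have hseg : ∀ z ∈ segment ℝ y' x, |z.re + 1| ≤ s := by
    intro z hz
    have hconv : Convex ℝ {z : ℂ | -1 - s ≤ z.re ∧ z.re ≤ -1 + s} :=
      (convex_halfSpace_re_ge _).inter (convex_halfSpace_re_le _)
    have h1 := hconv.segment_subset (x := y') (y := x)
      ⟨by rw [hy're]; linarith [hy'.1], by rw [hy're]; linarith [hy'.2]⟩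
      ⟨by linarith [hx'.1], by linarith [hx'.2]⟩ hz
    exact abs_le.2 ⟨by linarith [h1.1], by linarith [h1.2]⟩
  have hkey := norm_log_sub_le (Ω := Ω) (V := V) (F := F) hVd hFd hFV (x := y') (y := x) (r := δ)
    hδ ?_ ?_ hW (by positivity : (0 : ℝ) ≤ 2 * Real.pi * (φ + 1)) hmu
  · have h1 : Real.log ‖V x‖ - Real.log ‖V y‖ ≤ ‖F x - F y'‖ := by
      rw [hVy, hre x hxΩ, hre y' hy'Ω, ← sub_re]
      exact Complex.re_le_norm _
    have h2 : ‖x - y'‖ ≤ 5 := by
      have h3 := Complex.norm_le_abs_re_add_abs_im (x - y')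
      have h4 : |(x - y').re| ≤ 1 := by
        rw [sub_re, hy're, abs_le]
        constructor <;> linarith [hx'.1, hx'.2, hy'.1, hy'.2]
      have h5 : |(x - y').im| ≤ 4 := by
        rw [sub_im, abs_sub_comm]
        exact hk.trans hpi4.le
      linarith
    have h3 : Real.sqrt (2 * Real.pi * (φ + 1) / (Real.pi * δ ^ 2)) ≤ 2 / δ * Real.sqrt φ := by
      apply Real.sqrt_le_iff.2
      refine ⟨by positivity, ?_⟩
      rw [mul_pow, Real.sq_sqrt (by linarith), div_pow]
      rw [div_le_iff₀ (by positivity)]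
      have : 2 ^ 2 / δ ^ 2 * φ * (Real.pi * δ ^ 2) = 4 * Real.pi * φ := by
        field_simp
        norm_num
      rw [this]
      nlinarith
    calc Real.log ‖V x‖ - Real.log ‖V y‖ ≤ ‖F x - F y'‖ := h1
      _ ≤ Real.sqrt (2 * Real.pi * (φ + 1) / (Real.pi * δ ^ 2)) * ‖x - y'‖ := hkey
      _ ≤ (2 / δ * Real.sqrt φ) * 5 := mul_le_mul h3 h2 (norm_nonneg _) (by positivity)
      _ = 10 / δ * Real.sqrt φ := by ring
  · intro z hz w hw
    have h1 := abs_le.1 (hseg z hz)
    have h2 : |w.re - z.re| < δ := by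
      rw [← sub_re]
      exact (Complex.abs_re_le_norm _).trans_lt (by rwa [mem_ball, dist_eq_norm] at hw)
    rw [abs_lt] at h2
    exact ⟨by linarith [h1.1, h2.1], by linarith [h1.2, h2.2]⟩
  · intro z hz u hu v hv huv
    have h1 := abs_le.1 (hseg z hz)
    have hneg : ∀ w ∈ ball z δ, w.re < 0 := by
      intro w hw
      have h2 : |w.re - z.re| < δ := by
        rw [← sub_re]
        exact (Complex.abs_re_le_norm _).trans_lt (by rwa [mem_ball, dist_eq_norm] at hw)
      rw [abs_lt] at h2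
      linarith [h1.2, h2.2]
    obtain ⟨j, hj⟩ := hV.inj u v (hneg u hu) (hneg v hv) huv
    have h3 : ‖u - v‖ < 1 := by
      rw [mem_ball] at hu hv
      have := dist_triangle_right u v z
      rw [← dist_eq_norm]
      linarith
    have h4 : (u - v).im = j * (2 * Real.pi) := by rw [hj]; simp
    have h5 : |(j : ℝ) * (2 * Real.pi)| < 1 := by
      rw [← h4]; exact (Complex.abs_im_le_norm _).trans_lt h3
    have hj0 : j = 0 := by
      by_contra hj0
      have h6 : (1 : ℝ) ≤ |(j : ℝ)| := by exact_mod_cast Int.one_le_abs hj0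
      rw [abs_mul, abs_of_pos (by linarith : 0 < 2 * Real.pi)] at h5
      nlinarith [Real.pi_gt_three]
    rw [hj, hj0]; simp

/-- the constant of `osc_zero` -/
noncomputable def BK : ℝ := 6400

lemma osc_iter {V : ℂ → ℂ} (hV : LogInj V) (K : ℕ) : ∀ x : ℝ, 1 ≤ x →
    Osc V (1 / 2 - 1 / 2 * (1 / 2) ^ K) (BK * 4 ^ K * x) → Osc V 0 (BK * x ^ ((1 / 2 : ℝ) ^ K)) := by
  induction K with
  | zero => intro x _ h; simpa using h
  | succ K ih =>
    intro x hx h
    have h1 : (1 : ℝ) ≤ BK * 4 ^ (K + 1) * x := by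
      have : (1 : ℝ) ≤ 4 ^ (K + 1) := one_le_pow₀ (by norm_num)
      unfold BK
      nlinarith
    have h2 := osc_step hV (s := 1 / 2 - 1 / 2 * (1 / 2) ^ K) (δ := 1 / 4 * (1 / 2) ^ K)
      (φ := BK * 4 ^ (K + 1) * x) (by positivity) (by
        have : (0 : ℝ) < (1 / 2) ^ K := by positivity
        nlinarith) h1 (by
        refine h.mono (le_of_eq ?_) le_rfl
        rw [pow_succ]; ring)
    have hsx : 1 ≤ Real.sqrt x := Real.one_le_sqrt.2 hx
    have h3 := ih (Real.sqrt x) hsx (h2.mono le_rfl (le_of_eq ?_))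
    · refine h3.mono le_rfl (le_of_eq ?_)
      rw [Real.sqrt_eq_rpow, ← Real.rpow_mul (by linarith), pow_succ]
      congr 2
      ring
    · have h4 : BK * 4 ^ (K + 1) * x = (80 * 2 ^ (K + 1)) ^ 2 * x := by
        unfold BK
        rw [mul_pow, ← pow_mul, mul_comm (K + 1) 2, pow_mul]
        norm_num
      rw [h4, Real.sqrt_mul (by positivity), Real.sqrt_sq (by positivity)]
      have h5 : (4 : ℝ) ^ K = 2 ^ K * 2 ^ K := by
        rw [← mul_pow]; norm_num
      unfold BK
      rw [h5, pow_succ, one_div_pow]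
      field_simp
      ring

lemma osc_zero {V : ℂ → ℂ} (hV : LogInj V) {Φ : ℝ} (h : Osc V (1 / 2) Φ) : Osc V 0 BK := by
  set x : ℝ := max 1 Φ with hx
  have hx1 : 1 ≤ x := le_max_left _ _
  have hxΦ : Φ ≤ x := le_max_right _ _
  have key : ∀ K : ℕ, Osc V 0 (BK * x ^ ((1 / 2 : ℝ) ^ K)) := by
    intro K
    refine osc_iter hV K x hx1 (h.mono ?_ ?_)
    · have : (0 : ℝ) < (1 / 2) ^ K := by positivity
      linarith
    · have : (1 : ℝ) ≤ 4 ^ K := one_le_pow₀ (by norm_num)
      have h2 : (1 : ℝ) ≤ BK * 4 ^ K := by unfold BK; nlinarith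
      nlinarith
  intro u v hu hv
  have hlim : Tendsto (fun K : ℕ => BK * x ^ ((1 / 2 : ℝ) ^ K)) atTop (𝓝 (BK * x ^ (0 : ℝ))) := by
    apply Tendsto.const_mul
    have h1 : Tendsto (fun K : ℕ => ((1 / 2 : ℝ)) ^ K) atTop (𝓝 0) :=
      tendsto_pow_atTop_nhds_zero_of_lt_one (by norm_num) (by norm_num)
    have h2 : Continuous fun t : ℝ => x ^ t := Real.continuous_const_rpow (by linarith)
    exact (h2.tendsto 0).comp h1
  rw [Real.rpow_zero, mul_one] at hlim
  exact ge_of_tendsto' hlim fun K => key K u v hu hv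

/-- the logarithmic coordinate of an injective map of a disc -/
lemma logInj_of_ball {f : ℂ → ℂ} {z0 : ℂ} {R : ℝ} (hR : 0 < R)
    (hf : DifferentiableOn ℂ f (ball z0 R)) (hi : InjOn f (ball z0 R)) :
    LogInj fun ζ => f (z0 + R * Complex.exp ζ) - f z0 := by
  have hmem : ∀ ζ : ℂ, ζ.re < 0 → z0 + R * Complex.exp ζ ∈ ball z0 R := by
    intro ζ hζ
    rw [mem_ball, dist_eq_norm, add_sub_cancel_left, norm_mul, Complex.norm_real,
      Real.norm_of_nonneg hR.le, Complex.norm_exp]
    have : Real.exp ζ.re < 1 := exp_lt_one_aux hζ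
    nlinarith
  have hRc : (R : ℂ) ≠ 0 := by exact_mod_cast hR.ne'
  refine ⟨?_, ?_, ?_, ?_⟩
  · refine DifferentiableOn.sub_const ?_ _
    exact hf.comp (by fun_prop) fun ζ hζ => hmem ζ hζ
  · intro ζ hζ h0
    have h1 := hi (hmem ζ hζ) (mem_ball_self hR) (sub_eq_zero.1 h0)
    have h2 : (R : ℂ) * Complex.exp ζ = 0 := by linear_combination h1
    exact (mul_ne_zero hRc (Complex.exp_ne_zero ζ)) h2
  · intro ζ
    rw [Complex.exp_add, Complex.exp_two_pi_mul_I, mul_one]
  · intro z w hz hw h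
    have h1 := hi (hmem z hz) (hmem w hw) (by linear_combination h)
    have h2 : Complex.exp z = Complex.exp w := by
      have : (R : ℂ) * Complex.exp z = R * Complex.exp w := by linear_combination h1
      exact mul_left_cancel₀ hRc this
    exact Complex.exp_eq_exp_iff_exists_int.1 h2

/-- **weak Koebe distortion**: two points of the circle of radius `R / e` -/
theorem koebe_circle {f : ℂ → ℂ} {z0 : ℂ} {R : ℝ} (hR : 0 < R)
    (hf : DifferentiableOn ℂ f (ball z0 R)) (hi : InjOn f (ball z0 R)) {u v : ℂ}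
    (hu : dist u z0 = R * Real.exp (-1)) (hv : dist v z0 = R * Real.exp (-1)) :
    dist (f u) (f z0) ≤ Real.exp BK * dist (f v) (f z0) := by
  set V : ℂ → ℂ := fun ζ => f (z0 + R * Complex.exp ζ) - f z0 with hV
  have hL : LogInj V := logInj_of_ball hR hf hi
  have hRc : (R : ℂ) ≠ 0 := by exact_mod_cast hR.ne'
  -- a first bound, by compactness
  obtain ⟨Φ, hΦ⟩ : ∃ Φ, Osc V (1 / 2) Φ := by
    set Kc : Set ℂ := {z | R * Real.exp (-(3 / 2)) ≤ dist z z0 ∧ dist z z0 ≤ R * Real.exp (-(1 / 2))}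
      with hK
    have hKc : IsCompact Kc := by
      refine (isCompact_closedBall z0 (R * Real.exp (-(1 / 2)))).of_isClosed_subset ?_
        fun z hz => hz.2
      exact (isClosed_le continuous_const (continuous_id.dist continuous_const)).inter
        (isClosed_le (continuous_id.dist continuous_const) continuous_const)
    have hsub : Kc ⊆ ball z0 R := by
      intro z hz
      rw [mem_ball]
      refine hz.2.trans_lt ?_
      have : Real.exp (-(1 / 2)) < 1 := exp_lt_one_aux (by norm_num)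
      nlinarith
    have hne : ∀ z ∈ Kc, f z - f z0 ≠ 0 := by
      intro z hz h0
      have h1 := hi (hsub hz) (mem_ball_self hR) (sub_eq_zero.1 h0)
      have h2 := hz.1
      rw [h1, dist_self] at h2
      have : 0 < R * Real.exp (-(3 / 2)) := by positivity
      linarith
    have hcont : ContinuousOn (fun z => Real.log ‖f z - f z0‖) Kc := by
      refine ContinuousOn.log ?_ fun z hz => norm_ne_zero_iff.2 (hne z hz)
      exact ((hf.continuousOn.mono hsub).sub continuousOn_const).norm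
    obtain ⟨A, hA⟩ := (hKc.image_of_continuousOn hcont).isBounded.subset_closedBall 0
    have hmem : ∀ ζ : ℂ, |ζ.re + 1| ≤ 1 / 2 → z0 + R * Complex.exp ζ ∈ Kc := by
      intro ζ hζ
      have h1 := abs_le.1 hζ
      have h2 : dist (z0 + R * Complex.exp ζ) z0 = R * Real.exp ζ.re := by
        rw [dist_eq_norm, add_sub_cancel_left, norm_mul, Complex.norm_real,
          Real.norm_of_nonneg hR.le, Complex.norm_exp]
      refine ⟨?_, ?_⟩
      · rw [h2]
        exact mul_le_mul_of_nonneg_left (Real.exp_le_exp.2 (by linarith [h1.1])) hR.le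
      · rw [h2]
        exact mul_le_mul_of_nonneg_left (Real.exp_le_exp.2 (by linarith [h1.2])) hR.le
    refine ⟨2 * A, fun x y hx hy => ?_⟩
    have h1 := hA ⟨_, hmem x hx, rfl⟩
    have h2 := hA ⟨_, hmem y hy, rfl⟩
    rw [mem_closedBall_zero_iff, Real.norm_eq_abs, abs_le] at h1 h2
    show Real.log ‖f (z0 + R * Complex.exp x) - f z0‖ -
      Real.log ‖f (z0 + R * Complex.exp y) - f z0‖ ≤ 2 * A
    linarith [h1.2, h2.1]
  have h0 := osc_zero hL hΦ
  -- logarithms of the points
  have hlog : ∀ u : ℂ, dist u z0 = R * Real.exp (-1) → ∃ ζ : ℂ, ζ.re = -1 ∧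
      z0 + R * Complex.exp ζ = u := by
    intro u hu
    have hne : (u - z0) / R ≠ 0 := by
      refine div_ne_zero ?_ hRc
      rw [← norm_ne_zero_iff, ← dist_eq_norm, hu]
      positivity
    refine ⟨Complex.log ((u - z0) / R), ?_, ?_⟩
    · rw [Complex.log_re, norm_div, Complex.norm_real, Real.norm_of_nonneg hR.le, ← dist_eq_norm,
        hu, mul_div_cancel_left₀ _ hR.ne', Real.log_exp]
    · rw [Complex.exp_log hne]
      field_simp
      ring
  obtain ⟨x, hx, hxu⟩ := hlog u hu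
  obtain ⟨y, hy, hyv⟩ := hlog v hv
  have h1 := h0 x y (by rw [hx]; norm_num) (by rw [hy]; norm_num)
  have h2 : V x = f u - f z0 := by simp only [hV]; rw [hxu]
  have h3 : V y = f v - f z0 := by simp only [hV]; rw [hyv]
  have hpx : 0 < ‖V x‖ := norm_pos_iff.2 (hL.ne x (by rw [hx]; norm_num))
  have hpy : 0 < ‖V y‖ := norm_pos_iff.2 (hL.ne y (by rw [hy]; norm_num))
  rw [dist_eq_norm, dist_eq_norm, ← h2, ← h3]
  rw [← Real.log_div hpx.ne' hpy.ne', Real.log_le_iff_le_exp (by positivity),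
    div_le_iff₀ hpy] at h1
  exact h1

/-- the displacement of the centre in terms of one point of the circle of radius `R / e` -/
theorem koebe_one {f : ℂ → ℂ} {z0 : ℂ} {R : ℝ} (hR : 0 < R)
    (hf : DifferentiableOn ℂ f (ball z0 R)) (hi : InjOn f (ball z0 R)) {z v : ℂ}
    (hz : dist z z0 < R * Real.exp (-1)) (hv : dist v z0 = R * Real.exp (-1)) :
    dist (f z) (f z0) ≤ Real.exp (BK + 1) * (dist z z0 / R) * dist (f v) (f z0) := by
  set r : ℝ := R * Real.exp (-1) with hr
  have hr0 : 0 < r := by positivity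
  have hrR : r < R := by
    have : Real.exp (-1) < 1 := exp_lt_one_aux (by norm_num)
    rw [hr]; nlinarith
  set M : ℝ := Real.exp BK * dist (f v) (f z0) with hM
  have hsub : closedBall z0 r ⊆ ball z0 R := closedBall_subset_ball hrR
  -- the maximum principle
  have hmax : ∀ w ∈ closedBall z0 r, ‖f w - f z0‖ ≤ M := by
    intro w hw
    have hd : DiffContOnCl ℂ (fun w => f w - f z0) (ball z0 r) := by
      apply DifferentiableOn.diffContOnCl
      rw [closure_ball z0 hr0.ne']
      exact (hf.mono hsub).sub_const _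
    refine Complex.norm_le_of_forall_mem_frontier_norm_le isBounded_ball hd (fun x hx => ?_)
      (by rw [closure_ball z0 hr0.ne']; exact hw)
    rw [frontier_ball z0 hr0.ne', mem_sphere] at hx
    rw [← dist_eq_norm]
    exact koebe_circle hR hf hi hx hv
  have hmaps : MapsTo f (ball z0 r) (closedBall (f z0) M) := by
    intro w hw
    rw [mem_closedBall, dist_eq_norm]
    exact hmax w (ball_subset_closedBall hw)
  have h := Complex.dist_le_div_mul_dist_of_mapsTo_ball
    (hf.mono (ball_subset_closedBall.trans hsub)) hmaps (mem_ball.2 hz)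
  refine h.trans (le_of_eq ?_)
  rw [hM, hr, Real.exp_add, Real.exp_neg]
  field_simp

/-- **relative displacement of the centre of a disc**: `S` is a bounded set which contains the
image of the left half disc -/
theorem koebe_rel : ∃ C : ℝ, 0 < C ∧ ∀ (f : ℂ → ℂ) (z0 : ℂ) (R : ℝ) (S : Set ℂ), 0 < R →
    DifferentiableOn ℂ f (ball z0 R) → InjOn f (ball z0 R) → Bornology.IsBounded S →
    (∀ z ∈ ball z0 R, z.re < z0.re → f z ∈ S) → ∀ z : ℂ, dist z z0 < R / 3 →
    dist (f z) (f z0) ≤ C * (dist z z0 / R) * diam S := by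
  refine ⟨Real.exp (BK + 1), Real.exp_pos _, ?_⟩
  intro f z0 R S hR hf hi hS hleft z hz
  have he : 1 / 3 < Real.exp (-1) := by
    rw [Real.exp_neg, lt_inv_comm₀ (by norm_num) (Real.exp_pos _)]
    have := Real.exp_one_lt_d9
    norm_num at this ⊢
    linarith
  set r : ℝ := R * Real.exp (-1) with hr
  have hr0 : 0 < r := by positivity
  have hrR : r < R := by
    have : Real.exp (-1) < 1 := exp_lt_one_aux (by norm_num)
    rw [hr]; nlinarith
  have hz' : dist z z0 < r := by
    rw [hr]; nlinarith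
  have hv : dist (z0 - r) z0 = r := by
    rw [dist_eq_norm]
    have : z0 - (r : ℂ) - z0 = -(r : ℂ) := by ring
    rw [this, norm_neg, Complex.norm_real, Real.norm_of_nonneg hr0.le]
  have h1 := koebe_one hR hf hi hz' hv
  refine h1.trans ?_
  have h2 : f (z0 - r) ∈ S := hleft _ (by rw [mem_ball, hv]; exact hrR) (by simp; exact hr0)
  -- the centre is in the closure
  have h3 : f z0 ∈ closure S := by
    have hc : ContinuousAt f z0 :=
      (hf.differentiableAt (isOpen_ball.mem_nhds (mem_ball_self hR))).continuousAt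
    have ht : Tendsto (fun t : ℝ => z0 - (t : ℂ)) (𝓝[>] 0) (𝓝 z0) := by
      have h4 : Continuous fun t : ℝ => z0 - (t : ℂ) := by fun_prop
      have h5 := h4.tendsto 0
      simp only [ofReal_zero, sub_zero] at h5
      exact h5.mono_left nhdsWithin_le_nhds
    refine mem_closure_of_tendsto (hc.tendsto.comp ht) ?_
    filter_upwards [Ioo_mem_nhdsGT hR] with t ht
    refine hleft _ ?_ ?_
    · rw [mem_ball, dist_eq_norm]
      have : z0 - (t : ℂ) - z0 = -(t : ℂ) := by ring
      rw [this, norm_neg, Complex.norm_real, Real.norm_of_nonneg ht.1.le]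
      exact ht.2
    · simp; exact ht.1
  have h4 : dist (f (z0 - r)) (f z0) ≤ diam S := by
    rw [← diam_closure]
    exact dist_le_diam_of_mem hS.closure (subset_closure h2) h3
  gcongr

end Pool.Agent.Work.MLC
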