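import Pool.Agent.Work.MLC.Lab54a

set_option autoImplicit false

/-! # The shortest chord and the characteristic pair of a primitive component (helper54) -/

namespace Pool.Agent.Work.MLC

open Set Circ CircleDeg1Lift Filter Topology

theorem compat_shift {w : ℕ → ℤ} {θ x : ℝ} (h : Compat x θ w) (d : ℕ) :
    Compat (2 ^ d * x) θ (fun j => w (d + j)) := by
  intro j
  obtain ⟨k, h1, h2⟩ := h (d + j)
  refine ⟨k, ?_, ?_⟩
  · show (θ + w (d + j)) / 2 + k < 2 ^ j * (2 ^ d * x)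
    rw [← mul_assoc, ← pow_add, add_comm j d]; exact h1
  · show 2 ^ j * (2 ^ d * x) < (θ + w (d + j)) / 2 + k + 1 / 2
    rw [← mul_assoc, ← pow_add, add_comm j d]; exact h2

theorem compat_add_int {w : ℕ → ℤ} {θ x : ℝ} (h : Compat x θ w) (l : ℤ) : Compat (x + l) θ w := by
  intro j
  obtain ⟨k, h1, h2⟩ := h j
  refine ⟨k + 2 ^ j * l, ?_, ?_⟩ <;> push_cast <;> linarith

theorem compat_word_eq {w w' : ℕ → ℤ} (hw : ∀ i, w i = 0 ∨ w i = 1)
    (hw' : ∀ i, w' i = 0 ∨ w' i = 1) {θ x : ℝ} (h : Compat x θ w) (h' : Compat x θ w') : w = w' :=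
  linked_pairs hw hw' le_rfl le_rfl le_rfl (by linarith) h h' h h'

/-- doublings of an `n`-periodic angle, modulo one -/
theorem pow_mod_per {n : ℕ} {x : ℝ} (hx : ∃ a : ℤ, 2 ^ n * x - x = a) (i j : ℕ)
    (h : n ∣ j) : ∃ l : ℤ, (2 : ℝ) ^ (i + j) * x = 2 ^ i * x + l := by
  obtain ⟨a, ha⟩ := hx
  obtain ⟨c, rfl⟩ := h
  obtain ⟨b, hb⟩ := pow_per_mul ha c
  refine ⟨2 ^ i * b, ?_⟩
  rw [pow_add, mul_assoc, hb]
  push_cast; ring

/-- one direction of the shortest chord -/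
def Sh (θ a b : ℝ) : Prop := ∃ (s : ℕ) (l m : ℤ), 2 ^ s * a + l < θ ∧ θ < 2 ^ s * b + m ∧
  2 ^ s * b + m - (2 ^ s * a + l) ≤ 1 / 3 ∧
  ∀ (s' : ℕ) (l' : ℤ), 2 ^ s * b + m - (2 ^ s * a + l) ≤ |2 ^ s' * (b - a) - l'|

/-- **the shortest chord**: its short arc contains the parameter -/
theorem short_chord {n : ℕ} (hn : 0 < n) {v : ℕ → ℤ} {θ a b : ℝ} (ha : Compat a θ v)
    (hb : Compat b θ v) (hpa : ∃ l : ℤ, 2 ^ n * a - a = l) (hpb : ∃ l : ℤ, 2 ^ n * b - b = l)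
    (hab : ∀ l : ℤ, b - a ≠ l) : Sh θ a b ∨ Sh θ b a := by
  have hpd : ∃ l : ℤ, 2 ^ n * (b - a) - (b - a) = l := by
    obtain ⟨l, hl⟩ := hpa
    obtain ⟨m, hm⟩ := hpb
    exact ⟨m - l, by push_cast; linarith⟩
  -- the minimum
  obtain ⟨s, hs, hmin⟩ := Finset.exists_min_image (Finset.range n)
    (fun s => |(2 : ℝ) ^ s * (b - a) - round ((2 : ℝ) ^ s * (b - a))|) ⟨0, Finset.mem_range.2 hn⟩
  set g : ℝ := |(2 : ℝ) ^ s * (b - a) - round ((2 : ℝ) ^ s * (b - a))| with hg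
  have hgmin : ∀ (s' : ℕ) (l' : ℤ), g ≤ |2 ^ s' * (b - a) - l'| := by
    intro s' l'
    obtain ⟨c, hc⟩ := pow_mod_per hpd (s' % n) (n * (s' / n)) ⟨_, rfl⟩
    rw [Nat.mod_add_div] at hc
    rw [hc]
    refine (hmin (s' % n) (Finset.mem_range.2 (Nat.mod_lt _ hn))).trans ?_
    refine (round_le _ (l' - c)).trans (le_of_eq ?_)
    congr 1
    push_cast; ring
  -- the predecessor
  set s₁ := s + n - 1 with hs₁
  have hs₁1 : s₁ + 1 = s + n := by omega
  obtain ⟨k, a1, a2⟩ := ha s₁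
  obtain ⟨m, b1, b2⟩ := hb s₁
  obtain ⟨c, hc⟩ := pow_mod_per hpd s n dvd_rfl
  rw [← hs₁1, pow_succ] at hc
  -- `x = u' - u`
  set u := (2 : ℝ) ^ s₁ * a - ((θ + v s₁) / 2 + k) with hu
  set u' := (2 : ℝ) ^ s₁ * b - ((θ + v s₁) / 2 + m) with hu'
  have hu0 : 0 < u := by linarith
  have hu1 : u < 1 / 2 := by linarith
  have hu0' : 0 < u' := by linarith
  have hu1' : u' < 1 / 2 := by linarith
  have hx : (2 : ℝ) ^ s₁ * (b - a) = (u' - u) + ((m - k : ℤ) : ℝ) := by push_cast; rw [hu, hu']; ring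
  have hx0 : u' - u ≠ 0 := by
    intro h0
    rw [h0, zero_add] at hx
    obtain ⟨d, hd⟩ := pow_mod_per hpd 0 (n * s₁) ⟨_, rfl⟩
    rw [Nat.zero_add, pow_zero, one_mul] at hd
    have e1 : n * s₁ = s₁ + (n * s₁ - s₁) := by
      have : s₁ ≤ n * s₁ := Nat.le_mul_of_pos_left _ hn
      omega
    rw [e1, add_comm, pow_add, mul_assoc, hx] at hd
    refine hab (2 ^ (n * s₁ - s₁) * (m - k) - d) ?_
    push_cast
    push_cast at hd
    linarith
  -- the value `g`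
  have hgx : ∀ l : ℤ, g ≤ |2 * (u' - u) - l| := by
    intro l
    have := hgmin (s₁ + 1) (l + 2 * (m - k))
    rw [pow_succ, mul_right_comm, hx] at this
    refine this.trans (le_of_eq ?_)
    congr 1
    push_cast; ring
  have hgeq : ∃ l : ℤ, g = |2 * (u' - u) - l| := by
    refine ⟨round ((2 : ℝ) ^ s * (b - a)) + c - 2 * (m - k), ?_⟩
    rw [hg]
    congr 1
    push_cast
    push_cast at hx
    linarith
  have hgx1 : g ≤ |u' - u| := by
    have := hgmin s₁ (m - k)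
    rwa [hx, add_sub_cancel_right] at this
  obtain ⟨l, hl⟩ := hgeq
  rcases lt_or_gt_of_ne hx0 with hneg | hpos
  · -- `u' < u`
    have hlow : 1 / 2 < -(2 * (u' - u)) := by
      by_contra hcon
      push Not at hcon
      have h1 : |2 * (u' - u)| ≤ |2 * (u' - u) - l| := by
        rcases eq_or_ne l 0 with h0 | h0
        · rw [h0]; simp
        · have h2 : (1 : ℝ) ≤ |(l : ℝ)| := by exact_mod_cast Int.one_le_abs h0
          have h3 : |2 * (u' - u)| ≤ 1 / 2 := by rw [abs_le]; constructor <;> linarith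
          have h4 := abs_sub_abs_le_abs_sub (l : ℝ) (2 * (u' - u))
          rw [abs_sub_comm (l : ℝ)] at h4
          linarith
      rw [← hl, abs_mul, abs_of_pos (by norm_num : (0 : ℝ) < 2)] at h1
      have h5 : 0 < |u' - u| := abs_pos.2 hx0
      linarith
    have hg1 : g = 1 + 2 * (u' - u) := by
      refine le_antisymm ?_ ?_
      · refine (hgx (-1)).trans (le_of_eq ?_)
        push_cast
        rw [abs_of_nonneg (by linarith)]; ring
      · rw [hl]
        rcases lt_trichotomy l (-1) with h0 | h0 | h0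
        · have h2 : (l : ℝ) ≤ -2 := by exact_mod_cast (show l ≤ -2 by omega)
          exact (by linarith : 1 + 2 * (u' - u) ≤ 2 * (u' - u) - l).trans (le_abs_self _)
        · rw [h0]; push_cast
          exact (by linarith : 1 + 2 * (u' - u) ≤ 2 * (u' - u) - -1).trans (le_abs_self _)
        · have h2 : (0 : ℝ) ≤ l := by exact_mod_cast (show 0 ≤ l by omega)
          exact (by linarith : 1 + 2 * (u' - u) ≤ -(2 * (u' - u) - l)).trans (neg_le_abs _)
    rw [abs_of_neg hneg] at hgx1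
    left
    have e1 : (2 : ℝ) ^ (s₁ + 1) * a = θ + v s₁ + 2 * k + 2 * u := by rw [pow_succ, hu]; ring
    have e2 : (2 : ℝ) ^ (s₁ + 1) * b = θ + v s₁ + 2 * m + 2 * u' := by rw [pow_succ, hu']; ring
    refine ⟨s₁ + 1, -v s₁ - 2 * k - 1, -v s₁ - 2 * m, ?_, ?_, ?_, ?_⟩
    · rw [e1]; push_cast; linarith
    · rw [e2]; push_cast; linarith
    · rw [e1, e2]; push_cast; linarith
    · intro s' l'
      refine le_trans (le_of_eq ?_) (hgmin s' l')
      rw [e1, e2, hg1]; push_cast; ring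
  · -- `u < u'`
    have hlow : 1 / 2 < 2 * (u' - u) := by
      by_contra hcon
      push Not at hcon
      have h1 : |2 * (u' - u)| ≤ |2 * (u' - u) - l| := by
        rcases eq_or_ne l 0 with h0 | h0
        · rw [h0]; simp
        · have h2 : (1 : ℝ) ≤ |(l : ℝ)| := by exact_mod_cast Int.one_le_abs h0
          have h3 : |2 * (u' - u)| ≤ 1 / 2 := by rw [abs_le]; constructor <;> linarith
          have h4 := abs_sub_abs_le_abs_sub (l : ℝ) (2 * (u' - u))
          rw [abs_sub_comm (l : ℝ)] at h4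
          linarith
      rw [← hl, abs_mul, abs_of_pos (by norm_num : (0 : ℝ) < 2)] at h1
      have h5 : 0 < |u' - u| := abs_pos.2 hx0
      linarith
    have hg1 : g = 1 - 2 * (u' - u) := by
      refine le_antisymm ?_ ?_
      · refine (hgx 1).trans (le_of_eq ?_)
        push_cast
        rw [abs_sub_comm, abs_of_nonneg (by linarith)]
      · rw [hl]
        rcases lt_trichotomy l 1 with h0 | h0 | h0
        · have h2 : (l : ℝ) ≤ 0 := by exact_mod_cast (show l ≤ 0 by omega)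
          exact (by linarith : 1 - 2 * (u' - u) ≤ 2 * (u' - u) - l).trans (le_abs_self _)
        · rw [h0]; push_cast
          exact (by linarith : 1 - 2 * (u' - u) ≤ -(2 * (u' - u) - 1)).trans (neg_le_abs _)
        · have h2 : (2 : ℝ) ≤ l := by exact_mod_cast (show 2 ≤ l by omega)
          exact (by linarith : 1 - 2 * (u' - u) ≤ -(2 * (u' - u) - l)).trans (neg_le_abs _)
    rw [abs_of_pos hpos] at hgx1
    right
    have e1 : (2 : ℝ) ^ (s₁ + 1) * a = θ + v s₁ + 2 * k + 2 * u := by rw [pow_succ, hu]; ring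
    have e2 : (2 : ℝ) ^ (s₁ + 1) * b = θ + v s₁ + 2 * m + 2 * u' := by rw [pow_succ, hu']; ring
    refine ⟨s₁ + 1, -v s₁ - 2 * m - 1, -v s₁ - 2 * k, ?_, ?_, ?_, ?_⟩
    · rw [e2]; push_cast; linarith
    · rw [e1]; push_cast; linarith
    · rw [e1, e2]; push_cast; linarith
    · intro s' l'
      have e3 : |2 ^ s' * (a - b) - l'| = |2 ^ s' * (b - a) - ((-l' : ℤ) : ℝ)| := by
        rw [← abs_neg]; congr 1; push_cast; ring
      rw [e3]
      refine le_trans (le_of_eq ?_) (hgmin s' (-l'))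
      rw [e1, e2, hg1]; push_cast; ring

/-- **the characteristic pair of a primitive component** -/
structure CP (n : ℕ) (v : ℕ → ℤ) (s t : ℝ) : Prop where
  two : 2 ≤ n
  bit : ∃ c : ℤ, ∀ i, v i = c ∨ v i = c + 1
  perw : ∀ i, v (i + n) = v i
  prim : ∀ d, 0 < d → d < n → ∃ i, v (i + d) ≠ v i
  lt : s < t
  short : t ≤ s + 1 / 3
  per_s : ∃ a : ℤ, 2 ^ n * s - s = a
  per_t : ∃ a : ℤ, 2 ^ n * t - t = a
  pos_s : ∀ j, ∃ k : ℤ, (t + v j) / 2 + k ≤ 2 ^ j * s ∧ 2 ^ j * s ≤ (s + v j) / 2 + k + 1 / 2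
  pos_t : ∀ j, ∃ k : ℤ, (t + v j) / 2 + k ≤ 2 ^ j * t ∧ 2 ^ j * t ≤ (s + v j) / 2 + k + 1 / 2
  sep_s : ∀ (j : ℕ) (l : ℤ), 0 < j → j < n → ¬ (s ≤ 2 ^ j * s + l ∧ 2 ^ j * s + l ≤ t)
  sep_t : ∀ (j : ℕ) (l : ℤ), 0 < j → j < n → ¬ (s ≤ 2 ^ j * t + l ∧ 2 ^ j * t + l ≤ t)
  uniq : ∀ θ, s < θ → θ < t → ∀ x : ℝ, (∃ a : ℤ, 2 ^ n * x - x = a) → Compat x θ v →
    ∃ z : ℤ, x = s + z ∨ x = t + z

end Pool.Agent.Work.MLC
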