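import Pool.Agent.Work.MLC.Lab54c
import Pool.Agent.Work.MLC.Cut73

set_option autoImplicit false

/-! # The characteristic pair: existence, reflection, data for `Circ.cut` (helper54) -/

namespace Pool.Agent.Work.MLC

open Set Circ CircleDeg1Lift Filter Topology

section

variable {n : ℕ} {v : ℕ → ℤ} {t t' θ : ℝ}

/-- the phase of a short chord is `0` -/
theorem phase_zero (hn : 0 < n) (hv : Word n v) (hct : Compat t θ v) (hct' : Compat t' θ v)
    (h0 : t < θ) (h0' : θ < t') (hsh : t' ≤ t + 1 / 3)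
    (hno : ∀ s, ¬ n ∣ s → (∀ l : ℤ, ¬ (t ≤ 2 ^ s * t + l ∧ 2 ^ s * t + l ≤ t')) ∧
      ∀ l : ℤ, ¬ (t ≤ 2 ^ s * t' + l ∧ 2 ^ s * t' + l ≤ t'))
    {x y : ℝ} (hy : y = t ∨ y = t') (hcx : Compat x θ v) {s : ℕ} {α β : ℝ}
    (hα : Compat α θ (fun j => v (s + j))) (hβ : Compat β θ (fun j => v (s + j)))
    (hαβ : (∃ l : ℤ, α = 2 ^ s * y + l) ∨ ∃ l : ℤ, β = 2 ^ s * y + l)
    (h1 : α < θ) (h2 : θ < β) (h3 : β - α ≤ 1 / 3) (h4 : ∀ l' : ℤ, β - α ≤ |(x - y) - l'|) :
    n ∣ s := by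
  by_contra hs
  have hne := shift_ne hn hv hs
  have hb' : ∀ i, (fun j => v (s + j)) i = 0 ∨ (fun j => v (s + j)) i = 1 := fun i => hv.1 _
  obtain ⟨n1, n2⟩ := hno s hs
  have hout : ∀ p : ℝ, (∃ l : ℤ, p = 2 ^ s * y + l) → ¬ (t ≤ p ∧ p ≤ t') := by
    rintro p ⟨l, rfl⟩
    rcases hy with rfl | rfl
    · exact n1 l
    · exact n2 l
  have hmain : α < t ∧ t' < β := by
    rcases hαβ with hα' | hβ'
    · have h5 : α < t := by
        by_contra hcon
        push Not at hcon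
        exact hout α hα' ⟨hcon, by linarith⟩
      refine ⟨h5, ?_⟩
      by_contra hcon
      push Not at hcon
      exact hne (linked_pairs hb' hv.1 h5.le (by linarith) hcon (by linarith) hα hct hβ hct')
    · have h5 : t' < β := by
        by_contra hcon
        push Not at hcon
        exact hout β hβ' ⟨by linarith, hcon⟩
      refine ⟨?_, h5⟩
      by_contra hcon
      push Not at hcon
      exact hne (linked_pairs hv.1 hb' hcon (by linarith) h5.le (by linarith) hct hα hct' hβ).symm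
  have hyin : α < y ∧ y < β := by
    rcases hy with rfl | rfl
    · exact ⟨hmain.1, by linarith⟩
    · exact ⟨by linarith, hmain.2⟩
  -- the lift of `x` in `[α, α + 1)`
  set l : ℤ := -⌊x - α⌋ with hl
  have h5 : α ≤ x + l := by
    have := Int.floor_le (x - α); rw [hl]; push_cast; linarith
  have h6 : x + l < α + 1 := by
    have := Int.lt_floor_add_one (x - α); rw [hl]; push_cast; linarith
  rcases le_or_gt (x + l) β with h7 | h7
  · have h8 := h4 (-l)
    have h9 : |(x - y) - ((-l : ℤ) : ℝ)| < β - α := by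
      rw [abs_lt]; push_cast; constructor <;> linarith
    linarith
  · exact hne (linked_pairs hb' hv.1 hmain.1.le (by linarith) h7.le h6.le hα hct hβ
      (compat_add_int hcx l))

/-- at most two compatible rays -/
theorem uniq_third (hn : 0 < n) (hv : Word n v) (hct : Compat t θ v) (hct' : Compat t' θ v)
    (h0 : t < θ) (h0' : θ < t') (hsh : t' ≤ t + 1 / 3) (hp : ∃ a : ℤ, 2 ^ n * t - t = a)
    (hp' : ∃ a : ℤ, 2 ^ n * t' - t' = a)
    (hno : ∀ s, ¬ n ∣ s → (∀ l : ℤ, ¬ (t ≤ 2 ^ s * t + l ∧ 2 ^ s * t + l ≤ t')) ∧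
      ∀ l : ℤ, ¬ (t ≤ 2 ^ s * t' + l ∧ 2 ^ s * t' + l ≤ t'))
    {x : ℝ} (hpx : ∃ a : ℤ, 2 ^ n * x - x = a) (hcx : Compat x θ v) :
    ∃ z : ℤ, x = t + z ∨ x = t' + z := by
  by_contra hcon
  push Not at hcon
  have hdvd : ∀ {s : ℕ}, n ∣ s → ∀ x : ℝ, (∃ a : ℤ, 2 ^ n * x - x = a) →
      ∃ l : ℤ, (2 : ℝ) ^ s * x = x + l := by
    intro s hs x hx
    obtain ⟨l, hl⟩ := pow_mod_per hx 0 s hs
    rw [Nat.zero_add, pow_zero, one_mul] at hl
    exact ⟨l, hl⟩
  -- the pair `t, x`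
  have hA : ∃ m : ℤ, θ < x + m ∧ x + m ≤ t + 1 / 3 := by
    rcases short_chord hn hct hcx hp hpx (fun l hl => (hcon l).1 (by linarith)) with
      ⟨s, l, m, h1, h2, h3, h4⟩ | ⟨s, l, m, h1, h2, h3, h4⟩
    · have hs := phase_zero hn hv hct hct' h0 h0' hsh hno (Or.inl rfl) hcx
        (compat_add_int (compat_shift hct s) l) (compat_add_int (compat_shift hcx s) m)
        (Or.inl ⟨l, rfl⟩) h1 h2 h3 fun l' => by
          have := h4 0 l'; rwa [pow_zero, one_mul] at this
      obtain ⟨a, ha⟩ := hdvd hs t hp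
      obtain ⟨b, hb⟩ := hdvd hs x hpx
      rw [ha] at h1 h3
      rw [hb] at h2 h3
      have f1 : ((-1 : ℤ) : ℝ) < ((a + l : ℤ) : ℝ) := by push_cast; linarith
      have f2 : ((a + l : ℤ) : ℝ) < ((1 : ℤ) : ℝ) := by push_cast; linarith
      have f3 : -1 < a + l := by exact_mod_cast f1
      have f4 : a + l < 1 := by exact_mod_cast f2
      have f5 : a + l = 0 := by omega
      have f6 : (a : ℝ) + l = 0 := by exact_mod_cast f5
      exact ⟨b + m, by push_cast; linarith, by push_cast; linarith⟩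
    · exfalso
      have hs := phase_zero hn hv hct hct' h0 h0' hsh hno (Or.inl rfl) hcx
        (compat_add_int (compat_shift hcx s) l) (compat_add_int (compat_shift hct s) m)
        (Or.inr ⟨m, rfl⟩) h1 h2 h3 fun l' => by
          have := h4 0 (-l')
          rw [pow_zero, one_mul] at this
          refine this.trans (le_of_eq ?_)
          rw [← abs_neg]; congr 1; push_cast; ring
      obtain ⟨a, ha⟩ := hdvd hs t hp
      rw [ha] at h2 h3
      have f1 : ((0 : ℤ) : ℝ) < ((a + m : ℤ) : ℝ) := by push_cast; linarith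
      have f2 : 0 < a + m := by exact_mod_cast f1
      have f3 : ((1 : ℤ) : ℝ) ≤ ((a + m : ℤ) : ℝ) := by exact_mod_cast f2
      push_cast at f3
      linarith
  -- the pair `t', x`
  have hB : ∃ m : ℤ, x + m < θ ∧ t' - 1 / 3 ≤ x + m := by
    rcases short_chord hn hct' hcx hp' hpx (fun l hl => (hcon l).2 (by linarith)) with
      ⟨s, l, m, h1, h2, h3, h4⟩ | ⟨s, l, m, h1, h2, h3, h4⟩
    · exfalso
      have hs := phase_zero hn hv hct hct' h0 h0' hsh hno (Or.inr rfl) hcx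
        (compat_add_int (compat_shift hct' s) l) (compat_add_int (compat_shift hcx s) m)
        (Or.inl ⟨l, rfl⟩) h1 h2 h3 fun l' => by
          have := h4 0 l'; rwa [pow_zero, one_mul] at this
      obtain ⟨a, ha⟩ := hdvd hs t' hp'
      rw [ha] at h1 h3
      have f1 : ((a + l : ℤ) : ℝ) < ((0 : ℤ) : ℝ) := by push_cast; linarith
      have f2 : a + l < 0 := by exact_mod_cast f1
      have f3 : ((a + l : ℤ) : ℝ) ≤ ((-1 : ℤ) : ℝ) := by exact_mod_cast (show a + l ≤ -1 by omega)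
      push_cast at f3
      linarith
    · have hs := phase_zero hn hv hct hct' h0 h0' hsh hno (Or.inr rfl) hcx
        (compat_add_int (compat_shift hcx s) l) (compat_add_int (compat_shift hct' s) m)
        (Or.inr ⟨m, rfl⟩) h1 h2 h3 fun l' => by
          have := h4 0 (-l')
          rw [pow_zero, one_mul] at this
          refine this.trans (le_of_eq ?_)
          rw [← abs_neg]; congr 1; push_cast; ring
      obtain ⟨a, ha⟩ := hdvd hs t' hp'
      obtain ⟨b, hb⟩ := hdvd hs x hpx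
      rw [ha] at h2 h3
      rw [hb] at h1 h3
      have f1 : ((-1 : ℤ) : ℝ) < ((a + m : ℤ) : ℝ) := by push_cast; linarith
      have f2 : ((a + m : ℤ) : ℝ) < ((1 : ℤ) : ℝ) := by push_cast; linarith
      have f3 : -1 < a + m := by exact_mod_cast f1
      have f4 : a + m < 1 := by exact_mod_cast f2
      have f5 : a + m = 0 := by omega
      have f6 : (a : ℝ) + m = 0 := by exact_mod_cast f5
      exact ⟨b + l, by push_cast; linarith, by push_cast; linarith⟩
  obtain ⟨m₁, h1, h2⟩ := hA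
  obtain ⟨m₂, h3, h4⟩ := hB
  have f1 : ((0 : ℤ) : ℝ) < ((m₁ - m₂ : ℤ) : ℝ) := by push_cast; linarith
  have f2 : ((m₁ - m₂ : ℤ) : ℝ) < ((1 : ℤ) : ℝ) := by push_cast; linarith
  have f3 : 0 < m₁ - m₂ := by exact_mod_cast f1
  have f4 : m₁ - m₂ < 1 := by exact_mod_cast f2
  omega

end

namespace CP

variable {n : ℕ} {v : ℕ → ℤ} {s t : ℝ}

theorem compat_s (h : CP n v s t) {θ : ℝ} (h1 : s < θ) (h2 : θ < t) : Compat s θ v := by
  intro j
  obtain ⟨k, h3, h4⟩ := h.pos_s j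
  exact ⟨k, by linarith, by linarith⟩

theorem compat_t (h : CP n v s t) {θ : ℝ} (h1 : s < θ) (h2 : θ < t) : Compat t θ v := by
  intro j
  obtain ⟨k, h3, h4⟩ := h.pos_t j
  exact ⟨k, by linarith, by linarith⟩

end CP

/-- **existence of the characteristic pair** -/
theorem exists_CP {n : ℕ} {w : ℕ → ℤ} {t : ℝ} {k : ℤ} (h : LE n w t k) (hn2 : 2 ≤ n)
    (hex : Word n (flw n w)) {M : ℤ} (hfix : gw (flw n w) t n t = t + M)
    (hnb : ∃ x, t < x ∧ x < t + 1 ∧ x + M ≤ gw (flw n w) t n x) : ∃ t', CP n (flw n w) t t' := by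
  have hn := h.pos
  set v := flw n w with hv
  obtain ⟨t', htt, htt1, hp', hcl'⟩ := h.exists_second hfix hnb
  have hp := h.per
  -- an angle slightly to the right of `t`
  have hlt1 : ∀ᶠ θ in 𝓝[>] t, θ < t' := mem_nhdsWithin_of_mem_nhds (gt_mem_nhds htt)
  obtain ⟨θ₀, ⟨⟨h1, h2⟩, h3⟩, h4⟩ := ((((eventually_noPt hn hp t).and
    (eventually_noPt hn hp' t)).and hlt1).and self_mem_nhdsWithin).exists
  have h4' : t < θ₀ := h4
  have hct : Compat t θ₀ v := h.compat h4' (by linarith) h1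
  have hct' : Compat t' θ₀ v := compat_of_closed hcl' h4' h2
  obtain ⟨hsh, hmin⟩ := short_self hn hex hct hct' htt htt1 h4' h3 hp hp' h1 h2
  have hno : ∀ s, ¬ n ∣ s → (∀ l : ℤ, ¬ (t ≤ 2 ^ s * t + l ∧ 2 ^ s * t + l ≤ t')) ∧
      ∀ l : ℤ, ¬ (t ≤ 2 ^ s * t' + l ∧ 2 ^ s * t' + l ≤ t') := fun s hs =>
    no_inside hn hex hct hct' htt htt1 hmin hs
  have hnot : ∀ (j : ℕ) (l : ℤ), ¬ (t < 2 ^ j * t + l ∧ 2 ^ j * t + l < t') := by
    rintro j l ⟨h5, h6⟩
    by_cases hj : n ∣ j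
    · obtain ⟨a, ha⟩ := pow_mod_per hp 0 j hj
      rw [Nat.zero_add, pow_zero, one_mul] at ha
      rw [ha] at h5 h6
      have f1 : ((0 : ℤ) : ℝ) < ((a + l : ℤ) : ℝ) := by push_cast; linarith
      have f2 : ((a + l : ℤ) : ℝ) < ((1 : ℤ) : ℝ) := by push_cast; linarith
      have f3 : 0 < a + l := by exact_mod_cast f1
      have f4 : a + l < 1 := by exact_mod_cast f2
      omega
    · exact (hno j hj).1 l ⟨h5.le, h6.le⟩
  have hnot' : ∀ (j : ℕ) (l : ℤ), ¬ (t < 2 ^ j * t' + l ∧ 2 ^ j * t' + l < t') := by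
    rintro j l ⟨h5, h6⟩
    by_cases hj : n ∣ j
    · obtain ⟨a, ha⟩ := pow_mod_per hp' 0 j hj
      rw [Nat.zero_add, pow_zero, one_mul] at ha
      rw [ha] at h5 h6
      have f1 : ((-1 : ℤ) : ℝ) < ((a + l : ℤ) : ℝ) := by push_cast; linarith
      have f2 : ((a + l : ℤ) : ℝ) < ((0 : ℤ) : ℝ) := by push_cast; linarith
      have f3 : -1 < a + l := by exact_mod_cast f1
      have f4 : a + l < 0 := by exact_mod_cast f2
      omega
    · exact (hno j hj).2 l ⟨h5.le, h6.le⟩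
  have hpos := pos_of_compat hp h4' h3 hct hnot
  have hpos' := pos_of_compat hp' h4' h3 hct' hnot'
  refine ⟨t', hn2, ⟨0, fun i => ?_⟩, hex.2.1, hex.2.2, htt, hsh, hp, hp', hpos, hpos', ?_, ?_, ?_⟩
  · rcases hex.1 i with h5 | h5
    · exact Or.inl h5
    · exact Or.inr (by rw [h5]; norm_num)
  · intro j l hj hjn
    exact (hno j fun hd => absurd (Nat.le_of_dvd hj hd) (by omega)).1 l
  · intro j l hj hjn
    exact (hno j fun hd => absurd (Nat.le_of_dvd hj hd) (by omega)).2 l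
  · intro θ h5 h6 x hx hcx
    have c1 : Compat t θ v := fun j => by
      obtain ⟨k, h7, h8⟩ := hpos j
      exact ⟨k, by linarith, by linarith⟩
    have c2 : Compat t' θ v := fun j => by
      obtain ⟨k, h7, h8⟩ := hpos' j
      exact ⟨k, by linarith, by linarith⟩
    exact uniq_third hn hex c1 c2 h5 h6 hsh hp hp' hno hx hcx

end Pool.Agent.Work.MLC
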