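import Pool.Agent.Work.MLC.Lab54d

set_option autoImplicit false

/-! # From the characteristic pair to the data of `Circ.cut` (helper54) -/

namespace Pool.Agent.Work.MLC

open Set Circ CircleDeg1Lift Filter Topology

namespace CP

variable {n : ℕ} {v : ℕ → ℤ} {s t : ℝ}

/-- reflection -/
theorem neg (h : CP n v s t) : CP n (fun i => -1 - v i) (-t) (-s) where
  two := h.two
  bit := by
    obtain ⟨c, hc⟩ := h.bit
    refine ⟨-2 - c, fun i => ?_⟩
    show -1 - v i = -2 - c ∨ -1 - v i = -2 - c + 1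
    rcases hc i with h1 | h1 <;> rw [h1] <;> omega
  perw i := by show -1 - v (i + n) = -1 - v i; rw [h.perw]
  prim d hd hdn := by
    obtain ⟨i, hi⟩ := h.prim d hd hdn
    refine ⟨i, fun he => hi ?_⟩
    have : -1 - v (i + d) = -1 - v i := he
    omega
  lt := by have := h.lt; linarith
  short := by have := h.short; linarith
  per_s := by
    obtain ⟨a, ha⟩ := h.per_t
    exact ⟨-a, by push_cast; linarith⟩
  per_t := by
    obtain ⟨a, ha⟩ := h.per_s
    exact ⟨-a, by push_cast; linarith⟩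
  pos_s j := by
    obtain ⟨k, h1, h2⟩ := h.pos_t j
    exact ⟨-k, by push_cast; linarith, by push_cast; linarith⟩
  pos_t j := by
    obtain ⟨k, h1, h2⟩ := h.pos_s j
    exact ⟨-k, by push_cast; linarith, by push_cast; linarith⟩
  sep_s j l hj hjn := by
    rintro ⟨h1, h2⟩
    refine h.sep_t j (-l) hj hjn ⟨?_, ?_⟩ <;> push_cast <;> linarith
  sep_t j l hj hjn := by
    rintro ⟨h1, h2⟩
    refine h.sep_s j (-l) hj hjn ⟨?_, ?_⟩ <;> push_cast <;> linarith
  uniq θ h1 h2 x hx hc := by
    have hc' : Compat (-x) (-θ) v := by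
      intro j
      obtain ⟨k, h3, h4⟩ := hc j
      push_cast at h3 h4
      exact ⟨-k, by push_cast; linarith, by push_cast; linarith⟩
    obtain ⟨a, ha⟩ := hx
    obtain ⟨z, hz⟩ := h.uniq (-θ) (by linarith) (by linarith) (-x) ⟨-a, by push_cast; linarith⟩ hc'
    refine ⟨-z, ?_⟩
    rcases hz with hz | hz
    · right; push_cast; linarith
    · left; push_cast; linarith

/-- the orbit does not depend on the parameter in `[s, t]` -/
theorem lin {x : ℝ}
    (hpos : ∀ j, ∃ k : ℤ, (t + v j) / 2 + k ≤ 2 ^ j * x ∧ 2 ^ j * x ≤ (s + v j) / 2 + k + 1 / 2)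
    (i : ℕ) : ∃ m : ℤ, ∀ θ, s ≤ θ → θ ≤ t → gw v θ i x = 2 ^ i * x + m := by
  induction i with
  | zero => exact ⟨0, fun θ _ _ => by simp⟩
  | succ i ih =>
    obtain ⟨m, hm⟩ := ih
    obtain ⟨k, h1, h2⟩ := hpos i
    refine ⟨m - k, fun θ h3 h4 => ?_⟩
    rw [gw_succ_apply, hm θ h3 h4, tdbl_lin (k + m) (by push_cast; linarith)
      (by push_cast; linarith), pow_succ]
    push_cast; ring

theorem closed {x : ℝ}
    (hpos : ∀ j, ∃ k : ℤ, (t + v j) / 2 + k ≤ 2 ^ j * x ∧ 2 ^ j * x ≤ (s + v j) / 2 + k + 1 / 2)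
    {θ : ℝ} (h1 : s ≤ θ) (h2 : θ ≤ t) (i : ℕ) : Circ.InHalf (θ + v i) (gw v θ i x) := by
  obtain ⟨m, hm⟩ := lin hpos i
  obtain ⟨k, h3, h4⟩ := hpos i
  rw [hm θ h1 h2]
  refine ⟨k + m, ?_, ?_⟩ <;> push_cast <;> linarith

/-- `s` has exact period `n` -/
theorem dvd_s (h : CP n v s t) {d : ℕ} {l : ℤ} (hd : 2 ^ d * s + l = s) : n ∣ d := by
  have hn : 0 < n := by have := h.two; omega
  by_contra hnd
  have hr : 0 < d % n := Nat.pos_of_ne_zero fun h0 => hnd (Nat.dvd_of_mod_eq_zero h0)
  obtain ⟨a, ha⟩ := pow_mod_per h.per_s (d % n) (n * (d / n)) ⟨_, rfl⟩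
  rw [Nat.mod_add_div] at ha
  rw [ha] at hd
  have hst := h.lt
  exact h.sep_s (d % n) (a + l) hr (Nat.mod_lt _ hn) ⟨by push_cast; linarith, by push_cast; linarith⟩

/-- closed-compatible fixed points at the parameter `s` -/
theorem uniq_closed (h : CP n v s t) {x : ℝ} (hx : ∃ a : ℤ, 2 ^ n * x - x = a)
    (hc : ∀ j, ∃ k : ℤ, (s + v j) / 2 + k ≤ 2 ^ j * x ∧ 2 ^ j * x ≤ (s + v j) / 2 + k + 1 / 2) :
    ∃ z : ℤ, x = s + z ∨ x = t + z := by
  have hn : 0 < n := by have := h.two; omega
  have hst := h.lt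
  by_cases hA : ∃ (j : ℕ) (l : ℤ), 2 ^ j * x + l = s
  · obtain ⟨j, l, hjl⟩ := hA
    -- `x` is in the orbit of `s`
    obtain ⟨e, l', hel⟩ : ∃ (e : ℕ) (l' : ℤ), x = 2 ^ e * s + l' := by
      obtain ⟨c, hc⟩ := pow_mod_per hx 0 (n * j) ⟨_, rfl⟩
      rw [Nat.zero_add, pow_zero, one_mul] at hc
      have e1 : n * j = (n * j - j) + j := by
        have : j ≤ n * j := Nat.le_mul_of_pos_left _ hn
        omega
      rw [e1, pow_add, mul_assoc] at hc
      refine ⟨n * j - j, -(2 ^ (n * j - j) * l) - c, ?_⟩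
      have e2 : (2 : ℝ) ^ j * x = s - l := by linarith
      rw [e2] at hc
      push_cast
      linarith
    by_cases hne : n ∣ e
    · obtain ⟨a, ha⟩ := pow_mod_per h.per_s 0 e hne
      rw [Nat.zero_add, pow_zero, one_mul] at ha
      exact ⟨a + l', Or.inl (by rw [hel, ha]; push_cast; ring)⟩
    · exfalso
      obtain ⟨c, hbit⟩ := h.bit
      -- letters agree away from one phase
      have hlet : ∀ i, ¬ n ∣ i + 1 + e → v (e + i) = v i := by
        intro i hi
        obtain ⟨k, h1, h2⟩ := hc i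
        obtain ⟨m, h3, h4⟩ := h.pos_s (e + i)
        have e1 : (2 : ℝ) ^ i * x = 2 ^ (e + i) * s + ((2 ^ i * l' : ℤ) : ℝ) := by
          rw [hel, pow_add]; push_cast; ring
        rw [e1] at h1 h2
        have h5 : (s + v i) / 2 + k ≠ 2 ^ (e + i) * s + ((2 ^ i * l' : ℤ) : ℝ) := by
          intro he
          refine hi (h.dvd_s (d := i + 1 + e) (l := 2 * (2 ^ i * l') - v i - 2 * k) ?_)
          rw [show i + 1 + e = (e + i) + 1 by ring, pow_succ]
          push_cast
          push_cast at he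
          linarith
        have h6 : 2 ^ (e + i) * s + ((2 ^ i * l' : ℤ) : ℝ) ≠ (s + v i) / 2 + k + 1 / 2 := by
          intro he
          refine hi (h.dvd_s (d := i + 1 + e) (l := 2 * (2 ^ i * l') - v i - 2 * k - 1) ?_)
          rw [show i + 1 + e = (e + i) + 1 by ring, pow_succ]
          push_cast
          push_cast at he
          linarith
        have h1' := lt_of_le_of_ne h1 h5
        have h2' := lt_of_le_of_ne h2 h6
        have f1 : ((v i + 2 * k - 2 * (2 ^ i * l') : ℤ) : ℝ) < ((v (e + i) + 2 * m + 1 : ℤ) : ℝ) := by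
          push_cast; push_cast at h1'; linarith
        have f2 : ((v (e + i) + 2 * m : ℤ) : ℝ) < ((v i + 2 * k - 2 * (2 ^ i * l') + 1 : ℤ) : ℝ) := by
          push_cast; push_cast at h2'; linarith
        have f3 : v i + 2 * k - 2 * (2 ^ i * l') < v (e + i) + 2 * m + 1 := by exact_mod_cast f1
        have f4 : v (e + i) + 2 * m < v i + 2 * k - 2 * (2 ^ i * l') + 1 := by exact_mod_cast f2
        have g1 := hbit i
        have g2 := hbit (e + i)
        set r := (2 : ℤ) ^ i * l' with hr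
        omega
      -- the exceptional phase
      have hall : ∀ i, v (e + i) = v i := by
        intro i
        by_cases hi : n ∣ i + 1 + e
        swap
        · exact hlet i hi
        classical
        have hex : ∃ m, 0 < m ∧ n ∣ m * e := ⟨n, hn, dvd_mul_right _ _⟩
        set m := Nat.find hex with hm
        obtain ⟨hm0, hme⟩ := Nat.find_spec hex
        have hmin : ∀ m', 0 < m' → m' < m → ¬ n ∣ m' * e := fun m' h1 h2 h3 =>
          Nat.find_min hex h2 ⟨h1, h3⟩
        have hchain : ∀ i', 1 ≤ i' → i' ≤ m → v (i + i' * e) = v (e + i) := by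
          intro i' h1
          induction i', h1 using Nat.le_induction with
          | base => intro _; rw [one_mul, add_comm]
          | succ i' h1 ih =>
            intro h2
            rw [← ih (by omega)]
            have h3 : ¬ n ∣ (i + i' * e) + 1 + e := by
              rw [show (i + i' * e) + 1 + e = (i + 1 + e) + i' * e by ring]
              intro h4
              exact hmin i' (by omega) (by omega) ((Nat.dvd_add_right hi).1 h4)
            have h4 := hlet _ h3
            rw [show i + (i' + 1) * e = e + (i + i' * e) by ring, h4]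
        rw [← hchain m hm0 le_rfl]
        obtain ⟨q, hq⟩ := hme
        rw [hq]
        exact word_mod h.perw _ _
      have hr : 0 < e % n := Nat.pos_of_ne_zero fun h0 => hne (Nat.dvd_of_mod_eq_zero h0)
      obtain ⟨i, hi⟩ := h.prim (e % n) hr (Nat.mod_lt _ hn)
      apply hi
      rw [← hall i]
      have e1 : e + i = (i + e % n) + n * (e / n) := by
        conv_lhs => rw [← Nat.mod_add_div e n]
        ring
      rw [e1, word_mod h.perw]
  · -- the orbit avoids `s`
    push Not at hA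
    have hopen : ∀ j, ∃ m : ℤ, (s + v j) / 2 + m < 2 ^ j * x ∧
        2 ^ j * x ≤ (s + v j) / 2 + m + 1 / 2 := by
      intro j
      obtain ⟨k, h1, h2⟩ := hc j
      refine ⟨k, lt_of_le_of_ne h1 fun he => ?_, h2⟩
      refine hA (j + 1) (-v j - 2 * k) ?_
      rw [pow_succ]
      push_cast
      linarith
    have hlt1 : ∀ᶠ θ in 𝓝[>] s, θ < t := mem_nhdsWithin_of_mem_nhds (gt_mem_nhds hst)
    obtain ⟨θ, ⟨h1, h2⟩, h3⟩ := (((eventually_noPt hn hx s).and hlt1).and self_mem_nhdsWithin).exists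
    exact h.uniq θ h3 h2 x hx (compat_of_closed hopen h3 h1)

/-- the data at the left end -/
theorem lh (h : CP n v s t) : ∃ k : ℤ, LH v n s t k := by
  have hn2 := h.two
  have hst := h.lt
  have hsh := h.short
  obtain ⟨a, ha⟩ := h.per_s
  obtain ⟨b, hb⟩ := h.per_t
  obtain ⟨m, hm⟩ := lin h.pos_s n
  obtain ⟨m', hm'⟩ := lin h.pos_t n
  have hm := hm s le_rfl hst.le
  have hm' := hm' s le_rfl hst.le
  have e1 : gw v s n s = s + ((a + m : ℤ) : ℝ) := by rw [hm]; push_cast; linarith
  have e2 : gw v s n t = t + ((b + m' : ℤ) : ℝ) := by rw [hm']; push_cast; linarith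
  have hk : b + m' = a + m := by
    have g1 : gw v s n s ≤ gw v s n t := (gw v s n).monotone hst.le
    have g2 : gw v s n t ≤ gw v s n s + 1 := by
      rw [← map_add_one]; exact (gw v s n).monotone (by linarith)
    rw [e1, e2] at g1 g2
    have f1 : ((a + m - 1 : ℤ) : ℝ) < ((b + m' : ℤ) : ℝ) := by push_cast; push_cast at g1; linarith
    have f2 : ((b + m' : ℤ) : ℝ) < ((a + m + 1 : ℤ) : ℝ) := by push_cast; push_cast at g2; linarith
    have f3 : a + m - 1 < b + m' := by exact_mod_cast f1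
    have f4 : b + m' < a + m + 1 := by exact_mod_cast f2
    omega
  refine ⟨a + m, hn2, h.perw, h.bit, hst, by linarith, e1, by rw [e2, hk],
    fun i _ => closed h.pos_s le_rfl hst.le i, fun i _ => closed h.pos_t le_rfl hst.le i,
    fun i z h0 hi => h.sep_s i z h0 hi, fun i z h0 hi => h.sep_t i z h0 hi, ?_, ?_⟩
  · obtain ⟨c, hc⟩ := lin h.pos_s (n - 1)
    obtain ⟨k, h1, h2⟩ := h.pos_s (n - 1)
    have e3 : (2 : ℝ) * (2 ^ (n - 1) * s) = s + a := by
      rw [← mul_assoc, ← pow_succ', Nat.sub_add_cancel (by omega)]; linarith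
    have f1 : ((0 : ℤ) : ℝ) < ((a - v (n - 1) - 2 * k : ℤ) : ℝ) := by push_cast; linarith
    have f2 : ((a - v (n - 1) - 2 * k : ℤ) : ℝ) < ((2 : ℤ) : ℝ) := by push_cast; linarith
    have f3 : 0 < a - v (n - 1) - 2 * k := by exact_mod_cast f1
    have f4 : a - v (n - 1) - 2 * k < 2 := by exact_mod_cast f2
    have f5 : a = 1 + v (n - 1) + 2 * k := by omega
    have f6 : (a : ℝ) = 1 + v (n - 1) + 2 * k := by rw [f5]; push_cast; ring
    refine ⟨k + c, ?_⟩
    rw [hc s le_rfl hst.le]
    push_cast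
    linarith
  · intro x hx hfix
    have hlin := gw_of_cl (w := v) (θ := s) (x := x) (m := n) fun i hi => by
      obtain ⟨k, h1, h2⟩ := hx i hi
      exact ⟨k, h1, h2⟩
    have hper : ∃ c : ℤ, 2 ^ n * x - x = c := by
      obtain ⟨c, hc⟩ := hlin n le_rfl
      exact ⟨a + m - c, by push_cast; push_cast at hfix; linarith⟩
    refine h.uniq_closed hper fun j => ?_
    obtain ⟨c, hc⟩ := hper
    obtain ⟨d, hd⟩ := pow_per_mul hc (j / n)
    have hjn : j % n < n := Nat.mod_lt _ (by omega)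
    obtain ⟨k, h1, h2⟩ := hx (j % n) hjn
    obtain ⟨e, he⟩ := hlin (j % n) hjn.le
    have e1 : (2 : ℝ) ^ j * x = 2 ^ (j % n) * x + ((2 ^ (j % n) * d : ℤ) : ℝ) := by
      conv_lhs => rw [← Nat.mod_add_div j n]
      rw [pow_add, mul_assoc, hd]
      push_cast; ring
    have e2 : v j = v (j % n) := by
      conv_lhs => rw [← Nat.mod_add_div j n]
      exact word_mod h.perw _ _
    rw [he] at h1 h2
    rw [e1, e2]
    refine ⟨k - e + 2 ^ (j % n) * d, ?_, ?_⟩ <;> push_cast <;> linarith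

/-- the hypotheses of `Circ.cut` -/
theorem lh_data (h : CP n v s t) : ∃ k : ℤ, LH v n s t k ∧
    LH (fun i => -1 - v i) n (-t) (-s) (-k) ∧ ∀ i < n, gw v t i s = gw v s i s := by
  obtain ⟨k, hk⟩ := h.lh
  obtain ⟨k', hk'⟩ := h.neg.lh
  have hst := h.lt
  have e : k' = -k := by
    have h1 := hk'.fixa
    have h2 := gw_neg v t n t
    have h3 : (fun i => -v i - 1) = fun i => -1 - v i := by funext i; ring
    rw [h3] at h2
    rw [h2] at h1
    obtain ⟨m, hm⟩ := lin h.pos_t n
    have h4 := hm t hst.le le_rfl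
    have h5 := hm s le_rfl hst.le
    have h6 := hk.fixb
    rw [h5] at h6
    rw [h4] at h1
    have h7 : ((k' : ℤ) : ℝ) = ((-k : ℤ) : ℝ) := by push_cast; linarith
    exact_mod_cast h7
  subst e
  refine ⟨k, hk, hk', fun i _ => ?_⟩
  obtain ⟨m, hm⟩ := lin h.pos_s i
  rw [hm t hst.le le_rfl, hm s le_rfl hst.le]

end CP

end Pool.Agent.Work.MLC
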