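import Pool.Agent.Work.MLC.Sat0
import Pool.Agent.Work.MLC.Limb6

set_option autoImplicit false

/-! # The root disc of radius `δ n`, definition (helper6) -/

namespace Pool.Agent.Work.MLC

open Filter Topology Metric Set

/-- root disc of radius `δ n`: at every boundary point of every component of period `n` with
multiplier `exp (2 π i p / q)` close to `1` there is a limb piece with radius `δ n` -/
def RootPiece (δ : ℕ → ℝ) : Prop := ∀ (n p q : ℕ) (r b : ℂ),
    PerN n r b → 0 < p → p < q → Nat.Coprime p q →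
    mult n r b = Complex.exp (2 * Real.pi * (p / q : ℂ) * Complex.I) →
    2 * Real.pi * (min (p : ℝ) (q - p) / q) ≤ δ n →
    ∃ (x : ℚ) (g : ℂ → ℂ) (T : ℂ → ℚ → Prop), x ≠ 0 ∧ x.den = q ∧
      LimbData MS x (δ n) (2 * n * Real.log 2) g T ∧ g (axisPt x) = r ∧
      DifferentiableOn ℂ g (ball (axisPt x) (δ n)) ∧
      (∀ ℓ ∈ ball (axisPt x) (δ n), ‖g ℓ‖ ≤ 4) ∧
      (∀ ℓ ∈ ball (axisPt x) (δ n), ℓ ≠ 0 →
        ∃ z, (g ℓ, z) ∈ Per n ∧ mul n (g ℓ, z) = Complex.exp ℓ)

end Pool.Agent.Work.MLC
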