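import Pool.Agent.Work.MLC.Sat0
import Pool.Agent.Work.MLC.RootDef6

set_option autoImplicit false

/-! # All components (satellite and primitive): the barrier theorem, interface (manager: helper50)

Language: a component of period `m` is an exact word `w` of period `m` and a strip
`k < ν_w < k + 1`. `VD m w k δ σ`: the section `σ` of the component over the rectangle `rect m δ`
(a restriction of helper45's `Wide`). `x₁ < x₂` are rationals next to `x = P/Q`, `θ₁ < θ₂` angles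
with `ν_w (θ_j) = k + x_j`. The barrier `Bar` consists of the parameter rays of angles `θ₁`, `θ₂`,
the limbs of rotation numbers `x₁`, `x₂` and three sides of a rectangle inside the component;
`In` is the side of the `P/Q`-limb. -/

namespace Pool.Agent.Work.MLC

open Filter Topology Metric Set Complex

namespace Pri

/-! ## definitions -/

/-- `θ` lies in the strip `(w, k)` -/
def InS (n : ℕ) (w : ℕ → ℤ) (k : ℤ) (θ : ℝ) : Prop :=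
  (k : ℝ) < Circ.nu w n θ ∧ Circ.nu w n θ < k + 1

/-- exact period `n` -/
def Exa (n : ℕ) (z : ℂ × ℂ) : Prop := ∀ d, 0 < d → d < n → it z.1 d z.2 ≠ z.2

/-- `P` is locally constant along the pairs of exact period `n` with multiplier `exp L`,
`0 < ‖L‖ < η` -/
def LC (n : ℕ) (η : ℝ) (P : ℂ → Prop) : Prop :=
  ∀ z ∈ Per n, Exa n z → ∀ L : ℂ, mul n z = exp L → L ≠ 0 → ‖L‖ < η →
    ∀ᶠ c in 𝓝 z.1, (P c ↔ P z.1)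

/-- the good rectangle -/
def rect (m : ℕ) (δ : ℝ) : Set ℂ :=
  {L | L.re < δ ^ 2 / (8 * m) ∧ 2 * Real.pi * δ < L.im ∧ L.im < 2 * Real.pi * (1 - δ)}

/-- the section of the component `(w, k)` -/
structure VD (m : ℕ) (w : ℕ → ℤ) (k : ℤ) (δ : ℝ) (σ : ℂ → ℂ × ℂ) : Prop where
  pos : 0 < m
  word : Word m w
  δ_pos : 0 < δ
  δ_lt : δ < 1 / 2
  good : GoodDom m (rect m δ)
  conv : Convex ℝ (rect m δ)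
  cont : ContinuousOn σ (rect m δ)
  sec : ∀ L ∈ rect m δ, σ L ∈ Per m ∧ mul m (σ L) = exp L
  prim : ∀ L ∈ rect m δ, Exa m (σ L)
  ang : ∀ L ∈ rect m δ, (σ L).1 ∉ MM → ∃ θ, ExtP m (σ L).1 (σ L).2 θ w ∧ InS m w k θ
  ply : ∀ L ∈ rect m δ, ∀ θ, ExtP m (σ L).1 (σ L).2 θ w → InS m w k θ →
    ‖L - 2 * Real.pi * ((Circ.nu w m θ - k : ℝ) : ℂ) * I‖ ^ 2 ≤ 81 * m * L.re
  lab : ∀ L ∈ rect m δ, 0 < L.re → ∀ θ, InS m w k θ → σ L ∈ Sat.NJ m (lab m θ w)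
  uniq : ∀ L ∈ rect m δ, 0 < L.re → ∀ y ∈ Per m, mul m y = exp L → ∀ θ, InS m w k θ →
    FF m y = MLC.lab m θ w → y = σ L

/-- the sides of the barrier inside the component (depth `h`) -/
def Side3 (x₁ x₂ : ℚ) (h : ℝ) : Set ℂ :=
  {L | -h ≤ L.re ∧ L.re ≤ 0 ∧ 2 * Real.pi * x₁ ≤ L.im ∧ L.im ≤ 2 * Real.pi * x₂ ∧
    (L.re = -h ∨ L.im = 2 * Real.pi * x₁ ∨ L.im = 2 * Real.pi * x₂)}

/-- the barrier (parameters) -/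
def Bar (m : ℕ) (w : ℕ → ℤ) (k : ℤ) (σ : ℂ → ℂ × ℂ) (x₁ x₂ : ℚ) (θ₁ θ₂ h : ℝ) : Set ℂ :=
  {c | Ang c θ₁ ∨ Ang c θ₂ ∨
    (c ∈ MM ∧ ∃ a L, (∀ θ, InS m w k θ → (c, a) ∈ Sat.NJ m (lab m θ w)) ∧
      (Tr.RotT m c a L x₁ ∨ Tr.RotT m c a L x₂)) ∨
    ∃ L ∈ Side3 x₁ x₂ h, (σ L).1 = c}

/-- the side of the `P/Q`-limb (parameters) -/
def In (m : ℕ) (w : ℕ → ℤ) (k : ℤ) (σ : ℂ → ℂ × ℂ) (x₁ x₂ : ℚ) (θ₁ θ₂ h : ℝ) : Set ℂ :=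
  {c | (∃ θ, θ₁ < θ ∧ θ < θ₂ ∧ Ang c θ) ∨
    (c ∈ MM ∧ ∃ a L x, (∀ θ, InS m w k θ → (c, a) ∈ Sat.NJ m (lab m θ w)) ∧
      Tr.RotT m c a L x ∧ x₁ < x ∧ x < x₂) ∨
    ∃ L, -h < L.re ∧ L.re ≤ 0 ∧ 2 * Real.pi * x₁ < L.im ∧ L.im < 2 * Real.pi * x₂ ∧
      (σ L).1 = c}

/-! ## The modules: statements -/

/-- Q0 (helper45, from `Wide`): existence of the section -/
def Q0_section : Prop := ∀ (m : ℕ) (w : ℕ → ℤ) (k : ℤ) (δ : ℝ), 0 < m → Word m w → 0 < δ →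
  δ < 1 / 2 → ∃ σ, VD m w k δ σ

/-- Q6 (helper49, from helper65, 59, 51): for every `x = P/Q` there are a barrier close to `x`
(`x₁, x₂` at distance between `1/(4N²)` and `3/(4N²)` from `x`) and a lower bound for `|mul - 1|`,
for all cycles of exact period `n ≤ N` over the barrier -/
def Q6_bar : Prop := ∃ (C : ℝ) (j : ℕ), 2 ≤ C ∧ ∀ (N m : ℕ) (w : ℕ → ℤ) (k : ℤ) (σ : ℂ → ℂ × ℂ)
  (x : ℚ), 2 ≤ N → m ≤ N → 0 < x → x < 1 → x.den ≤ N → VD m w k (1 / (8 * N)) σ →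
  ∃ (x₁ x₂ : ℚ) (θ₁ θ₂ h : ℝ), 0 < h ∧
    (x : ℝ) - 3 / (4 * N ^ 2) ≤ x₁ ∧ (x₁ : ℝ) ≤ x - 1 / (4 * N ^ 2) ∧
    (x : ℝ) + 1 / (4 * N ^ 2) ≤ x₂ ∧ (x₂ : ℝ) ≤ x + 3 / (4 * N ^ 2) ∧
    Circ.nu w m θ₁ = k + x₁ ∧ Circ.nu w m θ₂ = k + x₂ ∧
    ∀ c ∈ Bar m w k σ x₁ x₂ θ₁ θ₂ h, ∀ n b, 0 < n → n ≤ N → (c, b) ∈ Per n → Exa n (c, b) →
      1 / (C * N ^ j) ≤ ‖mul n (c, b) - 1‖

/-- Q7a (helper57): `In` is open off the barrier -/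
def Q7_open : Prop := ∀ (m : ℕ) (w : ℕ → ℤ) (k : ℤ) (δ : ℝ) (σ : ℂ → ℂ × ℂ) (x₁ x₂ : ℚ)
  (θ₁ θ₂ h : ℝ), VD m w k δ σ → δ < x₁ → x₁ < x₂ → (x₂ : ℝ) < 1 - δ → 0 < h →
  Circ.nu w m θ₁ = k + x₁ → Circ.nu w m θ₂ = k + x₂ →
  ∀ c ∈ In m w k σ x₁ x₂ θ₁ θ₂ h, ∀ᶠ c' in 𝓝 c, c' ∈ In m w k σ x₁ x₂ θ₁ θ₂ h

/-- Q7b (helper59): the closure of `In` is contained in `In` and the barrier -/
def Q7_closed : Prop := ∀ (m : ℕ) (w : ℕ → ℤ) (k : ℤ) (δ : ℝ) (σ : ℂ → ℂ × ℂ) (x₁ x₂ : ℚ)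
  (θ₁ θ₂ h : ℝ), VD m w k δ σ → δ < x₁ → x₁ < x₂ → (x₂ : ℝ) < 1 - δ → 0 < h →
  Circ.nu w m θ₁ = k + x₁ → Circ.nu w m θ₂ = k + x₂ →
  closure (In m w k σ x₁ x₂ θ₁ θ₂ h) ⊆
    In m w k σ x₁ x₂ θ₁ θ₂ h ∪ Bar m w k σ x₁ x₂ θ₁ θ₂ h

/-- Q8: **barrier theorem** (helper50, from Q0, Q6, Q7) -/
def BT : Prop := ∃ (C : ℝ) (j : ℕ), 2 ≤ C ∧ ∀ (N m : ℕ) (w : ℕ → ℤ) (k : ℤ) (x : ℚ), 2 ≤ N →
  0 < m → m ≤ N → Word m w → 0 < x → x < 1 → x.den ≤ N → ∃ P : ℂ → Prop,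
    (∀ n, 0 < n → n ≤ N → LC n (1 / (C * N ^ j)) P) ∧
    (∀ c θ, Ang c θ → |Circ.nu w m θ - (k + x)| < 1 / (4 * N ^ 2) → P c) ∧
    ∀ c θ, Ang c θ → (∀ l : ℤ, 3 / (4 * (N : ℝ) ^ 2) < |Circ.nu w m (θ + l) - (k + x)|) → ¬ P c

end Pri

end Pool.Agent.Work.MLC
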