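import Pool.Agent.Work.MLC.PriG4
import Pool.Agent.Work.MLC.SatS17_6
import Pool.Agent.Work.MLC.SatS749
import Pool.Agent.Work.MLC.Sat2_51
import Pool.Agent.Work.MLC.RootDef6

set_option autoImplicit false

/-! # The component of a cycle over the punctured disc; limb data (helper4) -/

namespace Pool.Agent.Work.MLC.Pri

open Filter Topology Metric Set Complex
open Pool.Agent.Work.MLC.Sat (Per_it mul_it' it_comp it_back it_mul_per)

lemma perN_itH4 {n : ℕ} {c b : ℂ} (h : PerN n c b) : it c n b = b := by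
  have h1 := Function.iterate_minimalPeriod (f := f c) (x := b)
  rw [h.2] at h1
  exact h1

theorem norm_MSH4 {c : ℂ} (hc : c ∈ MS) : ‖c‖ ≤ 4 := by
  have h1 := norm_it_le_of_G_zero (mem_M_iff.1 hc) 2
  have h2 : it c 2 0 = c ^ 2 + c := by
    rw [it_succ, it_one, f_apply, f_apply]; ring
  rw [h2] at h1
  have h3 : ‖c‖ ^ 2 ≤ ‖c ^ 2 + c‖ + ‖c‖ := by
    rw [← norm_pow]
    calc ‖c ^ 2‖ = ‖(c ^ 2 + c) - c‖ := by ring_nf
      _ ≤ _ := norm_sub_le _ _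
  nlinarith [norm_nonneg c]

variable {n : ℕ} {ε : ℝ} {Q : Set (ℂ × ℂ)}

/-- the curve over the punctured disc -/
def SA (n : ℕ) (ε : ℝ) : Set (ℂ × ℂ) := {x | x ∈ Per n ∧ ∃ L ∈ Ann ε, mul n x = exp L}

lemma isOpen_expAnn (ε : ℝ) : IsOpen (exp '' Ann ε) := by
  rw [isOpen_iff_mem_nhds]
  rintro _ ⟨L, hL, rfl⟩
  rw [← (hasStrictDerivAt_exp L).map_nhds_eq (exp_ne_zero _)]
  exact image_mem_map ((isOpen_Ann ε).mem_nhds hL)

lemma mem_SA_iff {x : ℂ × ℂ} : x ∈ SA n ε ↔ x ∈ Per n ∧ mul n x ∈ exp '' Ann ε := by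
  constructor
  · rintro ⟨h1, L, hL, h2⟩; exact ⟨h1, L, hL, h2.symm⟩
  · rintro ⟨h1, L, hL, h2⟩; exact ⟨h1, L, hL, h2.symm⟩

lemma SA_ne_one (hε : ε ≤ 1 / 2) {x : ℂ × ℂ} (hx : x ∈ SA n ε) : mul n x ≠ 1 := by
  obtain ⟨-, L, hL, he⟩ := hx
  rw [he]
  exact exp_ne_one_of_small hL.1 (by linarith [hL.2])

/-- connected neighbourhoods -/
lemma SA_conn (hε : ε ≤ 1 / 2) {x : ℂ × ℂ} (hx : x ∈ SA n ε) :
    ∃ C ⊆ SA n ε, IsPreconnected C ∧ x ∈ C ∧ ∀ᶠ y in 𝓝 x, y ∈ Per n → y ∈ C := by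
  obtain ⟨β, hβ, hβ0, hβe⟩ := chart hx.1 (SA_ne_one hε hx)
  have ht := chart_tendsto hβ hβ0
  have h1 : ∀ᶠ c in 𝓝 x.1, (c, β c) ∈ SA n ε ∧ AnalyticAt ℂ β c := by
    have h2 : ∀ᶠ y in 𝓝 x, mul n y ∈ exp '' Ann ε :=
      ((continuous_mul' n).tendsto x).eventually ((isOpen_expAnn ε).mem_nhds (mem_SA_iff.1 hx).2)
    filter_upwards [ht.eventually hβe, ht.eventually h2, hβ.eventually_analyticAt] with c h3 h4 h5
    exact ⟨mem_SA_iff.2 ⟨h3.2 rfl, h4⟩, h5⟩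
  obtain ⟨r, hr, hball⟩ := Metric.eventually_nhds_iff_ball.1 h1
  refine ⟨(fun c => ((c, β c) : ℂ × ℂ)) '' ball x.1 r, ?_, ?_, ?_, ?_⟩
  · rintro _ ⟨c, hc, rfl⟩
    exact (hball c hc).1
  · refine (convex_ball x.1 r).isPreconnected.image _ ?_
    intro c hc
    exact (continuousAt_id.prodMk (hball c hc).2.continuousAt).continuousWithinAt
  · exact ⟨x.1, mem_ball_self hr, Prod.ext rfl hβ0⟩
  · filter_upwards [hβe, continuous_fst.continuousAt.eventually (ball_mem_nhds x.1 hr)]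
      with y h2 h3 hyP
    exact ⟨y.1, h3, Prod.ext rfl (h2.1 hyP)⟩

/-- the union of the components of the points of a cycle -/
def QC (n : ℕ) (ε : ℝ) (x₀ : ℂ × ℂ) : Set (ℂ × ℂ) :=
  ⋃ i : ℕ, connectedComponentIn (SA n ε) (x₀.1, it x₀.1 i x₀.2)

lemma SA_it {x : ℂ × ℂ} (hx : x ∈ SA n ε) (i : ℕ) : (x.1, it x.1 i x.2) ∈ SA n ε := by
  obtain ⟨h1, L, hL, h2⟩ := hx
  refine ⟨Per_it h1 i, L, hL, ?_⟩
  rw [mul_it' h1 i]; exact h2

lemma QC_sub {x₀ : ℂ × ℂ} : QC n ε x₀ ⊆ SA n ε :=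
  iUnion_subset fun _ => connectedComponentIn_subset _ _

lemma mem_QC {x₀ : ℂ × ℂ} (h : x₀ ∈ SA n ε) : x₀ ∈ QC n ε x₀ := by
  refine mem_iUnion.2 ⟨0, ?_⟩
  rw [it_zero]
  exact mem_connectedComponentIn h

theorem clo_QC (hε : ε ≤ 1 / 2) (x₀ : ℂ × ℂ) : Clo n ε (QC n ε x₀) where
  sub := fun x hx => QC_sub hx
  opn := by
    intro x hx
    obtain ⟨i, hi⟩ := mem_iUnion.1 hx
    obtain ⟨C, hC1, hC2, hC3, hC4⟩ := SA_conn hε (QC_sub hx)
    filter_upwards [hC4] with y hy hyP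
    refine mem_iUnion.2 ⟨i, ?_⟩
    rw [connectedComponentIn_eq hi]
    exact hC2.subset_connectedComponentIn hC3 hC1 (hy hyP)
  cls := by
    intro x hx hL hcl
    have hxS : x ∈ SA n ε := ⟨hx, hL⟩
    obtain ⟨C, hC1, hC2, hC3, hC4⟩ := SA_conn hε hxS
    obtain ⟨y, hyQ, hy⟩ := ((mem_closure_iff_frequently.1 hcl).and_eventually hC4).exists
    obtain ⟨i, hi⟩ := mem_iUnion.1 hyQ
    refine mem_iUnion.2 ⟨i, ?_⟩
    rw [connectedComponentIn_eq hi]
    exact hC2.subset_connectedComponentIn (hy (QC_sub hyQ).1) hC1 hC3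

theorem QC_it {x₀ : ℂ × ℂ} {x : ℂ × ℂ} (hx : x ∈ QC n ε x₀) (j : ℕ) :
    (x.1, it x.1 j x.2) ∈ QC n ε x₀ := by
  obtain ⟨i, hi⟩ := mem_iUnion.1 hx
  refine mem_iUnion.2 ⟨j + i, ?_⟩
  set T : ℂ × ℂ → ℂ × ℂ := fun y => (y.1, it y.1 j y.2) with hT
  have hTc : Continuous T := continuous_fst.prodMk (continuous_it j)
  have hmap : T '' connectedComponentIn (SA n ε) (x₀.1, it x₀.1 i x₀.2) ⊆
      connectedComponentIn (SA n ε) (T (x₀.1, it x₀.1 i x₀.2)) := by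
    have h0 : (x₀.1, it x₀.1 i x₀.2) ∈ SA n ε := connectedComponentIn_nonempty_iff.1 ⟨_, hi⟩
    refine (isPreconnected_connectedComponentIn.image T hTc.continuousOn).subset_connectedComponentIn
      ⟨_, mem_connectedComponentIn h0, rfl⟩ ?_
    rintro _ ⟨y, hy, rfl⟩
    exact SA_it (connectedComponentIn_subset _ _ hy) j
  have h1 : T (x₀.1, it x₀.1 i x₀.2) = (x₀.1, it x₀.1 (j + i) x₀.2) := by
    simp only [hT, it_comp]
  rw [← h1]
  exact hmap ⟨x, hi, rfl⟩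

/-! ### fibres are single cycles -/

/-- the hypothesis at attracting multipliers -/
def OneC (n : ℕ) (Q : Set (ℂ × ℂ)) : Prop :=
  ∀ x ∈ Q, ∀ y ∈ Q, ‖mul n x‖ < 1 → mul n x = mul n y → x.1 = y.1

lemma it_mod {c z : ℂ} (hn : 0 < n) (h : it c n z = z) (i : ℕ) :
    ∃ j < n, it c i z = it c j z := by
  refine ⟨i % n, Nat.mod_lt _ hn, ?_⟩
  have h1 := it_mul_per h (i % n) (i / n)
  rw [Nat.mod_add_div] at h1
  exact h1

theorem cyc_rel (h : Clo n ε Q) (hn : 0 < n) (hε0 : 0 < ε) (hε : ε ≤ 1 / 2) (hne : Q.Nonempty)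
    (hW : OneC n Q) : ∀ x ∈ Q, ∀ y ∈ Q, mul n x = mul n y → ∃ i, y = (x.1, it x.1 i x.2) := by
  obtain ⟨g, hg, hg1, hloc⟩ := graph h hn hε0 hε hne hW
  set E : Set ℂ := {L | ∀ x ∈ Q, ∀ y ∈ Q, mul n x = exp L → mul n y = exp L →
    ∃ i < n, y.2 = it x.1 i x.2} with hE
  set V : Set ℂ := Ann ε ∩ interior E with hV
  have hVo : IsOpen V := (isOpen_Ann ε).inter isOpen_interior
  have hgc : ∀ L ∈ Ann ε, ContinuousAt g L := fun L hL =>
    (hg.differentiableAt (isOpen_ball.mem_nhds (by simpa using hL.2))).continuousAt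
  have hall : Ann ε ⊆ V := by
    refine (isPreconnected_Ann hε0).subset_of_closure_inter_subset hVo ?_ ?_
    · refine ⟨((-(ε / 2) : ℝ) : ℂ), ?_, ?_, ?_⟩
      · refine ⟨by simpa using hε0.ne', ?_⟩
        rw [Complex.norm_real, Real.norm_eq_abs, abs_neg, abs_of_pos (by linarith)]; linarith
      · refine ⟨by simpa using hε0.ne', ?_⟩
        rw [Complex.norm_real, Real.norm_eq_abs, abs_neg, abs_of_pos (by linarith)]; linarith
      · rw [mem_interior_iff_mem_nhds]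
        have h1 : {L : ℂ | L.re < 0} ∈ 𝓝 (((-(ε / 2) : ℝ) : ℂ)) :=
          (isOpen_lt Complex.continuous_re continuous_const).mem_nhds (by
            show (((-(ε / 2) : ℝ) : ℂ)).re < 0
            rw [Complex.ofReal_re]; linarith)
        filter_upwards [h1] with L hL x hx y hy hxL hyL
        have h2 : ‖exp L‖ < 1 := by
          rw [Complex.norm_exp, Real.exp_lt_one_iff]; exact hL
        have h3 := hW x hx y hy (by rw [hxL]; exact h2) (by rw [hxL, hyL])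
        have hxP : it x.1 n x.2 = x.2 := (h.sub x hx).1
        have hyP : it y.1 n y.2 = y.2 := (h.sub y hy).1
        rw [← h3] at hyP
        obtain ⟨i, hi⟩ := s7_fatou x.1 x.2 y.2 n n hn hn hxP (by rw [hxL]; exact h2) hyP
          (by rw [h3]; show ‖mul n y‖ < 1; rw [hyL]; exact h2)
        obtain ⟨j, hj, hij⟩ := it_mod hn hxP i
        exact ⟨j, hj, by rw [hi, hij]⟩
    · rintro L₀ ⟨hcl, hL₀⟩
      refine ⟨hL₀, mem_interior_iff_mem_nhds.2 ?_⟩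
      obtain ⟨x₀, hx₀, hxL₀⟩ := h.nonempty hn hε0 hε hne hL₀
      obtain ⟨a1, a2⟩ := h.facts hε hx₀
      have hx₀P := (h.sub x₀ hx₀).1
      have hx₀g := hg1 x₀ hx₀ L₀ hL₀ hxL₀
      obtain ⟨β, hβ, hβ0, hβe⟩ := chart hx₀P a1
      rw [hx₀g] at hβ hβ0
      -- near `L₀` the points `(g L, β (g L))` are in `Q` with multiplier `exp L`
      have hbr : ∀ (x : ℂ × ℂ), x ∈ Q → mul n x = exp L₀ → ∀ β : ℂ → ℂ, ContinuousAt β (g L₀) →
          β (g L₀) = x.2 → (∀ᶠ y in 𝓝 x, y ∈ Per n ↔ β y.1 = y.2) →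
          ∀ᶠ L in 𝓝 L₀, (g L, β (g L)) ∈ Q ∧ mul n (g L, β (g L)) = exp L := by
        intro x hx hxL β hβ hβ0 hβe
        obtain ⟨b1, b2⟩ := h.facts hε hx
        have h1 := mul_open hn (h.sub x hx).1 b1 b2 (inter_mem (h.opn x hx) hβe)
        rw [hxL] at h1
        filter_upwards [(continuous_exp.continuousAt (x := L₀)).eventually h1,
          (isOpen_Ann ε).mem_nhds hL₀] with L h2 h3
        obtain ⟨y, ⟨⟨hy1, hy2⟩, hyP⟩, hyL⟩ := h2
        have hyQ := hy1 hyP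
        have h4 := hg1 y hyQ L h3 hyL
        have h5 : (g L, β (g L)) = y := by
          rw [← h4, hy2.1 hyP]
        rw [h5]
        exact ⟨hyQ, hyL⟩
      have hbr₀ := hbr x₀ hx₀ hxL₀ β hβ.continuousAt hβ0 hβe
      -- all points of the fibre are in the cycle of `x₀`
      have hA : ∀ x ∈ Q, mul n x = exp L₀ → ∃ i < n, x.2 = it x₀.1 i x₀.2 := by
        intro x hx hxL
        obtain ⟨b1, b2⟩ := h.facts hε hx
        obtain ⟨β', hβ', hβ'0, hβ'e⟩ := chart (h.sub x hx).1 b1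
        have hxg := hg1 x hx L₀ hL₀ hxL
        rw [hxg] at hβ' hβ'0
        have hbr' := hbr x hx hxL β' hβ'.continuousAt hβ'0 hβ'e
        set P : ℂ → ℂ := fun L => ∏ i ∈ Finset.range n, (β' (g L) - it (g L) i (β (g L))) with hP
        have hPc : ContinuousAt P L₀ := by
          have e1 : ContinuousAt (fun L => β' (g L)) L₀ :=
            ContinuousAt.comp (g := β') hβ'.continuousAt (hgc L₀ hL₀)
          have e2 : ContinuousAt (fun L => β (g L)) L₀ :=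
            ContinuousAt.comp (g := β) hβ.continuousAt (hgc L₀ hL₀)
          refine tendsto_finsetProd _ fun i _ => ?_
          refine e1.sub ?_
          exact ContinuousAt.comp (g := fun q : ℂ × ℂ => it q.1 i q.2)
            (f := fun L => ((g L, β (g L)) : ℂ × ℂ)) (continuous_it i).continuousAt
            ((hgc L₀ hL₀).prodMk e2)
        have hfreq : ∃ᶠ L in 𝓝 L₀, P L = 0 := by
          refine ((mem_closure_iff_frequently.1 hcl).and_eventually (hbr₀.and hbr')).mono ?_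
          rintro L ⟨hLV, ⟨h1, h2⟩, h3, h4⟩
          obtain ⟨i, hi, h5⟩ := (interior_subset hLV.2) _ h1 _ h3 h2 h4
          exact Finset.prod_eq_zero (Finset.mem_range.2 hi) (sub_eq_zero.2 h5)
        have hP0 : P L₀ = 0 := by
          by_contra hcon
          exact hfreq (hPc.eventually_ne hcon)
        obtain ⟨i, hi, h6⟩ := Finset.prod_eq_zero_iff.1 hP0
        refine ⟨i, Finset.mem_range.1 hi, ?_⟩
        have h7 := sub_eq_zero.1 h6
        rw [hβ'0, hβ0, ← hx₀g] at h7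
        exact h7
      -- nearby points are in the cycle of `β`
      set O : Set (ℂ × ℂ) := {y | y ∈ Per n → ∃ i, y.2 = it y.1 i (β y.1)} with hO
      have hOn : ∀ x ∈ Q, mul n x = exp L₀ → O ∈ 𝓝 x := by
        intro x hx hxL
        obtain ⟨i, -, hi⟩ := hA x hx hxL
        obtain ⟨b1, b2⟩ := h.facts hε hx
        obtain ⟨β', hβ', hβ'0, hβ'e⟩ := chart (h.sub x hx).1 b1
        have hxg := hg1 x hx L₀ hL₀ hxL
        have hx1 : x.1 = g L₀ := hxg
        -- the pair `(c, it c i (β c))` is near `x`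
        have e0 : Tendsto (fun c => ((c, β c) : ℂ × ℂ)) (𝓝 (g L₀)) (𝓝 x₀) := by
          have h1 : ContinuousAt (fun c => ((c, β c) : ℂ × ℂ)) (g L₀) :=
            continuousAt_id.prodMk hβ.continuousAt
          have h2 : ((g L₀, β (g L₀)) : ℂ × ℂ) = x₀ := Prod.ext hx₀g.symm hβ0
          rw [ContinuousAt, h2] at h1
          exact h1
        have e1 : Tendsto (fun c => ((c, it c i (β c)) : ℂ × ℂ)) (𝓝 (g L₀)) (𝓝 x) := by
          have h1 : Continuous fun q : ℂ × ℂ => ((q.1, it q.1 i q.2) : ℂ × ℂ) :=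
            continuous_fst.prodMk (continuous_it i)
          have h2 := (h1.tendsto x₀).comp e0
          have h3 : ((x₀.1, it x₀.1 i x₀.2) : ℂ × ℂ) = x := by
            rw [← hi]; exact Prod.ext (by rw [hx₀g, hx1]) rfl
          rw [h3] at h2
          exact h2
        have e2 : ∀ᶠ c in 𝓝 x.1, β' c = it c i (β c) := by
          rw [hx1]
          filter_upwards [e1.eventually hβ'e, e0.eventually hβe] with c h1 h2
          exact h1.1 (Per_it (h2.2 rfl) i)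
        filter_upwards [hβ'e, continuous_fst.continuousAt.eventually e2] with y h1 h2 hyP
        exact ⟨i, by rw [← h2, h1.1 hyP]⟩
      filter_upwards [h.proper hn hε hL₀ hOn, hbr₀, (isOpen_Ann ε).mem_nhds hL₀]
        with L h1 h2 h3 x hx y hy hxL hyL
      obtain ⟨i, hi⟩ := h1 x hx hxL (h.sub x hx).1
      obtain ⟨j, hj⟩ := h1 y hy hyL (h.sub y hy).1
      have hxg := hg1 x hx L h3 hxL
      have hyg := hg1 y hy L h3 hyL
      have hbP : it (g L) n (β (g L)) = β (g L) := (h.sub _ h2.1).1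
      have hxP : it x.1 n x.2 = x.2 := (h.sub x hx).1
      rw [hxg] at hi
      rw [hyg] at hj
      have h4 : y.2 = it x.1 (j + (n * i - i)) x.2 := by
        rw [hxg, hi, it_add, it_back hn hbP i, hj]
      obtain ⟨k, hk, hk2⟩ := it_mod hn hxP (j + (n * i - i))
      exact ⟨k, hk, by rw [h4, hk2]⟩
  intro x hx y hy hxy
  obtain ⟨-, L, hL, hxL⟩ := h.sub x hx
  obtain ⟨i, -, hi⟩ := (interior_subset (hall hL).2) x hx y hy hxL (by rw [← hxy, hxL])
  refine ⟨i, Prod.ext ?_ hi⟩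
  have h1 := hg1 x hx L hL hxL
  have h2 := hg1 y hy L hL (by rw [← hxy, hxL])
  rw [h1, h2]

/-! ### exact periods -/

/-- the exact period is constant on the components -/
theorem QC_exact (hε : ε ≤ 1 / 2) {x₀ : ℂ × ℂ} (hx₀ : x₀ ∈ SA n ε) {d : ℕ}
    (hd : it x₀.1 d x₀.2 ≠ x₀.2) : ∀ x ∈ QC n ε x₀, it x.1 d x.2 ≠ x.2 := by
  intro x hx
  obtain ⟨i, hi⟩ := mem_iUnion.1 hx
  have hn : 0 < n := by
    rcases Nat.eq_zero_or_pos n with h | h
    · subst h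
      exact absurd (by simp [mul]) (SA_ne_one hε hx₀)
    · exact h
  set A : Set (ℂ × ℂ) := {y | it y.1 d y.2 = y.2} with hA
  have hAc : IsClosed A := isClosed_eq (continuous_it d) continuous_snd
  set S := connectedComponentIn (SA n ε) (x₀.1, it x₀.1 i x₀.2) with hS
  set u : Set (ℂ × ℂ) := interior {y | y ∈ S → y ∈ A} with hu
  have h1 : S ⊆ u ∪ Aᶜ := by
    intro y hy
    by_cases hyA : y ∈ A
    · left
      rw [hu, mem_interior_iff_mem_nhds]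
      have hyS := connectedComponentIn_subset _ _ hy
      obtain ⟨β, hβ, hβ0, hβe⟩ := chart hyS.1 (SA_ne_one hε hyS)
      have ht := chart_tendsto hβ hβ0
      have h2 : Tendsto (fun c => ((c, it c d (β c)) : ℂ × ℂ)) (𝓝 y.1) (𝓝 y) := by
        have h3 : Continuous fun q : ℂ × ℂ => ((q.1, it q.1 d q.2) : ℂ × ℂ) :=
          continuous_fst.prodMk (continuous_it d)
        have h4 := (h3.tendsto y).comp ht
        have h5 : ((y.1, it y.1 d y.2) : ℂ × ℂ) = y := Prod.ext rfl hyA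
        rw [h5] at h4
        exact h4
      have h3 : ∀ᶠ c in 𝓝 y.1, β c = it c d (β c) := by
        filter_upwards [h2.eventually hβe, ht.eventually hβe] with c h4 h5
        exact h4.1 (Per_it (h5.2 rfl) d)
      filter_upwards [hβe, continuous_fst.continuousAt.eventually h3] with z h4 h5 hzS
      have h6 := h4.1 (connectedComponentIn_subset _ _ hzS).1
      rw [h6] at h5
      exact h5.symm
    · right; exact hyA
  intro hxA
  have h0S : (x₀.1, it x₀.1 i x₀.2) ∈ S := mem_connectedComponentIn (SA_it hx₀ i)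
  have h0A : (x₀.1, it x₀.1 i x₀.2) ∉ A := by
    intro h
    apply hd
    have h2 : it x₀.1 d (it x₀.1 i x₀.2) = it x₀.1 i x₀.2 := h
    have h3 := congrArg (it x₀.1 (n * i - i)) h2
    rw [← it_add, ← it_add] at h3
    have h4 : it x₀.1 (n * i - i + i) x₀.2 = x₀.2 := by
      rw [it_add]; exact it_back hn hx₀.1 i
    have h5 : n * i - i + d + i = d + (n * i - i + i) := by omega
    rw [← it_add, h5, it_add, h4] at h3
    exact h3
  have hxu : x ∈ u := by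
    rcases h1 hi with h | h
    · exact h
    · exact absurd hxA h
  obtain ⟨z, hz, hzu, hzA⟩ := isPreconnected_connectedComponentIn u Aᶜ isOpen_interior
    hAc.isOpen_compl h1 ⟨x, hi, hxu⟩ ⟨_, h0S, h0A⟩
  exact hzA (interior_subset hzu hz)

/-! ### limb data -/

/-- the branch through a point of `Q` -/
theorem branch (h : Clo n ε Q) (hn : 0 < n) (hε : ε ≤ 1 / 2) {g : ℂ → ℂ}
    (hg : ∀ x ∈ Q, ∀ L ∈ Ann ε, mul n x = exp L → x.1 = g L) {x : ℂ × ℂ} (hx : x ∈ Q) {L₀ : ℂ}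
    (hL₀ : L₀ ∈ Ann ε) (hxL : mul n x = exp L₀) :
    ∃ β : ℂ → ℂ, AnalyticAt ℂ β (g L₀) ∧ β (g L₀) = x.2 ∧
      ∀ᶠ L in 𝓝 L₀, (g L, β (g L)) ∈ Q ∧ mul n (g L, β (g L)) = exp L := by
  obtain ⟨b1, b2⟩ := h.facts hε hx
  obtain ⟨β, hβ, hβ0, hβe⟩ := chart (h.sub x hx).1 b1
  rw [hg x hx L₀ hL₀ hxL] at hβ hβ0
  refine ⟨β, hβ, hβ0, ?_⟩
  have h1 := mul_open hn (h.sub x hx).1 b1 b2 (inter_mem (h.opn x hx) hβe)
  rw [hxL] at h1
  filter_upwards [(continuous_exp.continuousAt (x := L₀)).eventually h1,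
    (isOpen_Ann ε).mem_nhds hL₀] with L h2 h3
  obtain ⟨y, ⟨⟨hy1, hy2⟩, hyP⟩, hyL⟩ := h2
  have hyQ := hy1 hyP
  have h4 := hg y hyQ L h3 hyL
  have h5 : (g L, β (g L)) = y := by
    rw [← h4, hy2.1 hyP]
  rw [h5]
  exact ⟨hyQ, hyL⟩

/-- the parameter is locally injective -/
theorem graph_inj (h : Clo n ε Q) (hn : 0 < n) (hε0 : 0 < ε) (hε : ε ≤ 1 / 2) (hne : Q.Nonempty)
    {g : ℂ → ℂ} (hg : ∀ x ∈ Q, ∀ L ∈ Ann ε, mul n x = exp L → x.1 = g L) {L₀ : ℂ}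
    (hL₀ : L₀ ∈ Ann ε) : ∃ N ∈ 𝓝 L₀, InjOn g N := by
  obtain ⟨x, hx, hxL⟩ := h.nonempty hn hε0 hε hne hL₀
  obtain ⟨β, -, -, hb⟩ := branch h hn hε hg hx hL₀ hxL
  refine ⟨_, inter_mem hb ((isOpen_Ann ε).mem_nhds hL₀), ?_⟩
  rintro L ⟨hL, hL2⟩ L' ⟨hL', hL'2⟩ hLL
  have h1 := hL.2
  have h2 := hL'.2
  rw [hLL] at h1
  exact exp_inj_small (by linarith [hL2.2]) (by linarith [hL'2.2]) (h1.symm.trans h2)

theorem graph_nonconst (h : Clo n ε Q) (hn : 0 < n) (hε0 : 0 < ε) (hε : ε ≤ 1 / 2)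
    (hne : Q.Nonempty) {g : ℂ → ℂ} (hg : ∀ x ∈ Q, ∀ L ∈ Ann ε, mul n x = exp L → x.1 = g L)
    {L₀ : ℂ} (hL₀ : L₀ ∈ ball (0 : ℂ) ε) : ¬ ∀ᶠ L in 𝓝 L₀, g L = g L₀ := by
  intro hc
  -- a point `L₁ ≠ 0` where `g` is locally constant
  obtain ⟨L₁, hL₁, hc₁⟩ : ∃ L₁ ∈ Ann ε, ∀ᶠ L in 𝓝 L₁, g L = g L₀ := by
    have h1 := hc.eventually_nhds
    have h2 : ∃ᶠ L in 𝓝 L₀, L ≠ 0 := by
      by_cases h0 : L₀ = 0
      · have h3 : ∃ᶠ w in 𝓝[≠] L₀, True := by
          rw [frequently_true_iff_neBot]; infer_instance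
        rw [frequently_nhdsWithin_iff] at h3
        refine h3.mono fun w hw => ?_
        have := hw.2
        rw [h0] at this
        exact this
      · have h3 : ∀ᶠ L in 𝓝 L₀, L ≠ 0 := isOpen_ne.mem_nhds h0
        exact h3.frequently
    obtain ⟨L₁, h3, h4, h5⟩ := (h2.and_eventually (h1.and (isOpen_ball.mem_nhds hL₀))).exists
    exact ⟨L₁, ⟨h3, by simpa using h5⟩, h4⟩
  obtain ⟨N, hN, hi⟩ := graph_inj h hn hε0 hε hne hg hL₁
  have h3 : ∃ᶠ w in 𝓝 L₁, w ≠ L₁ := by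
    have h3 : ∃ᶠ w in 𝓝[≠] L₁, True := by
      rw [frequently_true_iff_neBot]; infer_instance
    rw [frequently_nhdsWithin_iff] at h3
    exact h3.mono fun w hw => hw.2
  obtain ⟨w, h4, h5, h6⟩ := (h3.and_eventually (hc₁.and hN)).exists
  exact h4 (hi h6 (mem_of_mem_nhds hN) (h5.trans hc₁.self_of_nhds.symm))

/-- **limb data from a clopen part of the curve with one parameter over the attracting
multipliers** -/
theorem limb_of_clo (h : Clo n ε Q) (hn : 0 < n) (hε0 : 0 < ε) (hε : ε ≤ 1 / 2)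
    (hW : OneC n Q) {r b : ℂ} {x : ℚ}
    (hx : 2 * Real.pi * |(x : ℝ)| ≤ ε / 2) (hrb : (r, b) ∈ Q)
    (hm : mul n (r, b) = exp (axisPt x)) :
    ∃ (g : ℂ → ℂ) (T : ℂ → ℚ → Prop), x ≠ 0 ∧
      LimbData MS x (ε / 2) (2 * n * Real.log 2) g T ∧ g (axisPt x) = r ∧
      DifferentiableOn ℂ g (ball (axisPt x) (ε / 2)) ∧
      (∀ ℓ ∈ ball (axisPt x) (ε / 2), ‖g ℓ‖ ≤ 4) ∧
      (∀ ℓ ∈ ball (axisPt x) (ε / 2), ℓ ≠ 0 →
        ∃ z, (g ℓ, z) ∈ Per n ∧ mul n (g ℓ, z) = exp ℓ) := by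
  have hne : Q.Nonempty := ⟨_, hrb⟩
  obtain ⟨g, hg, hg1, hloc⟩ := graph h hn hε0 hε hne hW
  have hn' : (0 : ℝ) < n := by exact_mod_cast hn
  have hx0 : x ≠ 0 := by
    rintro rfl
    have h1 := (h.facts hε hrb).1
    apply h1
    rw [hm]
    simp [axisPt]
  have hnx : ‖axisPt x‖ = 2 * Real.pi * |(x : ℝ)| := by
    have h := LimbData.axisPt_sub x 0
    have h0 : axisPt 0 = 0 := by simp [axisPt]
    rw [h0, sub_zero] at h
    simpa using h
  have hax : axisPt x ∈ Ann ε := by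
    refine ⟨?_, by rw [hnx]; linarith⟩
    rw [← norm_pos_iff, hnx]
    have : (x : ℝ) ≠ 0 := by exact_mod_cast hx0
    have := Real.pi_pos
    positivity
  have hsub : ball (axisPt x) (ε / 2) ⊆ ball (0 : ℂ) ε := by
    intro ℓ hℓ
    rw [mem_ball, dist_eq_norm] at hℓ
    rw [mem_ball_zero_iff]
    calc ‖ℓ‖ = ‖(ℓ - axisPt x) + axisPt x‖ := by rw [sub_add_cancel]
      _ ≤ ‖ℓ - axisPt x‖ + ‖axisPt x‖ := norm_add_le _ _
      _ < ε := by rw [hnx]; linarith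
  have hA : ∀ ℓ ∈ ball (axisPt x) (ε / 2), ℓ ≠ 0 → ℓ ∈ Ann ε := fun ℓ hℓ h0 =>
    ⟨h0, by simpa using hsub hℓ⟩
  have hgan : ∀ ℓ ∈ ball (0 : ℂ) ε, AnalyticAt ℂ g ℓ := fun ℓ hℓ =>
    hg.analyticAt (isOpen_ball.mem_nhds hℓ)
  have hT := Tr.rotData hn
  have hcen : axisPt x ∈ ball (axisPt x) (ε / 2) := mem_ball_self (by linarith)
  -- points of `Q` over a multiplier
  have hz : ∀ ℓ ∈ Ann ε, ∃ z, (g ℓ, z) ∈ Q ∧ mul n (g ℓ, z) = exp ℓ := by
    intro ℓ hℓ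
    obtain ⟨y, hy, hyL⟩ := h.nonempty hn hε0 hε hne hℓ
    have h1 := hg1 y hy ℓ hℓ hyL
    refine ⟨y.2, ?_, ?_⟩
    · rw [← h1]; exact hy
    · rw [← h1]; exact hyL
  have hM : ∀ ℓ ∈ Ann ε, ℓ.re ≤ 0 → g ℓ ∈ MS := by
    intro ℓ hℓ hre
    by_contra hM
    obtain ⟨z, hz1, hz2⟩ := hz ℓ hℓ
    have h1 := rep13 hn (h.sub _ hz1).1 hM
    rw [hz2, Complex.norm_exp, Real.one_lt_exp_iff] at h1
    linarith
  have hM0 : g 0 ∈ MS := by
    have h1 : IsClosed MS := isCompact_MM.isClosed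
    have h2 : ContinuousAt g 0 := (hgan 0 (mem_ball_self hε0)).continuousAt
    have h3 : Tendsto (fun t : ℝ => ((-t : ℝ) : ℂ)) (𝓝[>] 0) (𝓝 0) := by
      have : Continuous fun t : ℝ => ((-t : ℝ) : ℂ) := by fun_prop
      have h4 := this.tendsto 0
      simp only [neg_zero, Complex.ofReal_zero] at h4
      exact h4.mono_left nhdsWithin_le_nhds
    have h4 : Tendsto (fun t : ℝ => g ((-t : ℝ) : ℂ)) (𝓝[>] 0) (𝓝 (g 0)) := h2.tendsto.comp h3
    refine h1.mem_of_tendsto h4 ?_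
    have h5 : ∀ᶠ t : ℝ in 𝓝[>] 0, t < ε := mem_nhdsWithin_of_mem_nhds (Iio_mem_nhds hε0)
    filter_upwards [h5, self_mem_nhdsWithin] with t ht ht0
    have ht0' : (0 : ℝ) < t := ht0
    refine hM _ ⟨?_, ?_⟩ ?_
    · simpa using ht0'.ne'
    · rw [Complex.norm_real, Real.norm_eq_abs, abs_neg, abs_of_pos ht0']; exact ht
    · rw [Complex.ofReal_re]; linarith
  refine ⟨g, fun ℓ y => ℓ ∈ ball (axisPt x) (ε / 2) ∧ ∃ z, (g ℓ, z) ∈ Q ∧
    mul n (g ℓ, z) = exp ℓ ∧ Tr.RotT n (g ℓ) z ℓ y, hx0, ?_,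
    (hg1 _ hrb _ hax hm).symm, hg.mono hsub, ?_, ?_⟩
  · refine ⟨by linarith, ?_, ?_, ?_, ?_, ?_, ?_, ?_, ?_, ?_, ?_⟩
    · have := Real.log_pos (by norm_num : (1 : ℝ) < 2)
      positivity
    · exact hg.continuousOn.mono hsub
    · intro ℓ hℓ hre
      by_cases h0 : ℓ = 0
      · rw [h0]; exact hM0
      · exact hM ℓ (hA ℓ hℓ h0) hre
    · obtain ⟨N, hN, hi⟩ := graph_inj h hn hε0 hε hne hg1 hax
      obtain ⟨δ, hδ, hδ2⟩ := Metric.mem_nhds_iff.1 hN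
      exact ⟨δ, hδ, hi.mono hδ2⟩
    · intro ℓ hℓ U hU
      have h1 := (hgan ℓ (hsub hℓ)).eventually_constant_or_nhds_le_map_nhds
      rcases h1 with h1 | h1
      · exact absurd h1 (graph_nonconst h hn hε0 hε hne hg1 (hsub hℓ))
      · exact h1 (image_mem_map hU)
    · rintro ℓ y ⟨hℓ, z, hz1, hz2, hzT⟩
      exact hT.dom _ _ _ _ hzT
    · intro ℓ hℓ hre hMM
      have h0 : ℓ ≠ 0 := by rintro rfl; simp at hre
      obtain ⟨z, hz1, hz2⟩ := hz ℓ (hA ℓ hℓ h0)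
      obtain ⟨y, hy⟩ := hT.ex _ _ ℓ (h.sub _ hz1).1 hz2 hre hMM
      exact ⟨y, hℓ, z, hz1, hz2, hy⟩
    · rintro ℓ y y' ⟨hℓ, z, hz1, hz2, h1⟩ ⟨-, z', hz1', hz2', h2⟩
      obtain ⟨i, hi⟩ := cyc_rel h hn hε0 hε hne hW _ hz1 _ hz1' (hz2.trans hz2'.symm)
      have h3 : z' = it (g ℓ) i z := congrArg Prod.snd hi
      subst h3
      exact Tr.rotT_unique hn (Sat.s16_rot _ _ _ _ _ i hn h1) h2
    · rintro ℓ hℓ y ⟨-, z, hz1, hz2, h1⟩
      have hre := (hT.dom _ _ _ _ h1).1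
      have h0 : ℓ ≠ 0 := by rintro rfl; simp at hre
      obtain ⟨β, hβ, hβ0, hb⟩ := branch h hn hε hg1 hz1 (hA ℓ hℓ h0) hz2
      have hce : ContinuousAt g ℓ := (hgan ℓ (hsub hℓ)).continuousAt
      have hβc : ContinuousAt (fun ℓ => β (g ℓ)) ℓ :=
        ContinuousAt.comp (g := β) (f := g) hβ.continuousAt hce
      have h7 : ∀ᶠ ℓ' in 𝓝 ℓ, g ℓ' ∈ MS → (g ℓ', β (g ℓ')) ∈ Per n →
          mul n (g ℓ', β (g ℓ')) = exp ℓ' → Tr.RotT n (g ℓ') (β (g ℓ')) ℓ' y := by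
        have h3 : Tendsto (fun ℓ' => ((g ℓ', β (g ℓ'), ℓ') : ℂ × ℂ × ℂ)) (𝓝 ℓ)
            (𝓝 (g ℓ, z, ℓ)) := by
          have := hce.tendsto.prodMk_nhds (hβc.tendsto.prodMk_nhds (tendsto_id (x := 𝓝 ℓ)))
          rwa [hβ0] at this
        exact h3.eventually (hT.opn _ _ _ _ h1)
      filter_upwards [hb, h7, isOpen_ball.mem_nhds hℓ] with ℓ' h8 h9 h10 h11
      exact ⟨h10, _, h8.1, h8.2, h9 h11 (h.sub _ h8.1).1 h8.2⟩
    · rintro ℓ y ⟨hℓ, z, hz1, hz2, h1⟩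
      exact hT.ply _ _ _ _ h1
  · intro ℓ hℓ
    by_cases h0 : ℓ = 0
    · subst h0
      exact norm_MSH4 hM0
    · obtain ⟨z, hz1, hz2⟩ := hz ℓ (hA ℓ hℓ h0)
      exact (Per_bdd hn (h.sub _ hz1).1 (h.facts hε hz1).2).1
  · intro ℓ hℓ h0
    obtain ⟨z, hz1, hz2⟩ := hz ℓ (hA ℓ hℓ h0)
    exact ⟨z, (h.sub _ hz1).1, hz2⟩

/-- the remaining input: every boundary point close to the root is in a clopen part of the curve
over the punctured disc with only one parameter over each attracting multiplier -/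
def CloAll (δ : ℕ → ℝ) : Prop := ∀ (n : ℕ) (r b : ℂ) (x : ℚ), PerN n r b → x ≠ 0 →
  mul n (r, b) = exp (axisPt x) → 2 * Real.pi * |(x : ℝ)| ≤ δ n →
  ∃ Q : Set (ℂ × ℂ), Clo n (2 * δ n) Q ∧ OneC n Q ∧ (r, b) ∈ Q

/-- **reduction of the limb pieces to `CloAll`** -/
theorem rootPiece_of_clo {δ : ℕ → ℝ} (hδ : ∀ n, 0 < n → 0 < δ n ∧ δ n ≤ 1 / 4)
    (h1 : CloAll δ) : RootPiece δ := by
  intro n p q r b hper hp hpq hcop hmul hle
  obtain ⟨hδ0, hδ1⟩ := hδ n hper.1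
  have hb : it r n b = b := perN_itH4 hper
  have hp' : (0 : ℝ) < p := by exact_mod_cast hp
  have hq' : (0 : ℝ) < q := by exact_mod_cast hp.trans hpq
  have hpq' : (p : ℝ) < q := by exact_mod_cast hpq
  -- the rational number
  obtain ⟨x, hx0, hden, hexp, habs⟩ : ∃ x : ℚ, x ≠ 0 ∧ x.den = q ∧
      mul n (r, b) = exp (axisPt x) ∧ |(x : ℝ)| = min (p : ℝ) (q - p) / q := by
    have hq0 : (q : ℤ) ≠ 0 := by omega
    rcases le_total (p : ℝ) (q - p) with hc | hc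
    · refine ⟨(p : ℚ) / q, ?_, ?_, ?_, ?_⟩
      · have h2 : (0 : ℚ) < p := by exact_mod_cast hp
        have h3 : (0 : ℚ) < q := by exact_mod_cast hp.trans hpq
        exact (div_pos h2 h3).ne'
      · have := Rat.den_div_eq_of_coprime (a := (p : ℤ)) (b := (q : ℤ)) (by omega)
          (by simpa using hcop)
        have h2 : (((p : ℤ) : ℚ) / ((q : ℤ) : ℚ)).den = q := by exact_mod_cast this
        simpa using h2
      · show mult n r b = _
        rw [hmul]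
        congr 1
        simp only [axisPt]
        push_cast
        ring
      · rw [min_eq_left hc]
        push_cast
        exact abs_of_pos (div_pos hp' hq')
    · refine ⟨-(((q - p : ℕ) : ℚ) / q), ?_, ?_, ?_, ?_⟩
      · have h2 : (0 : ℚ) < ((q - p : ℕ) : ℚ) := by
          have : 0 < q - p := by omega
          exact_mod_cast this
        have h3 : (0 : ℚ) < q := by exact_mod_cast hp.trans hpq
        have h4 : 0 < ((q - p : ℕ) : ℚ) / q := div_pos h2 h3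
        exact neg_ne_zero.2 h4.ne'
      · have hcop2 : Nat.Coprime (q - p) q := by
          rw [Nat.coprime_self_sub_left hpq.le]
          exact hcop
        have := Rat.den_div_eq_of_coprime (a := ((q - p : ℕ) : ℤ)) (b := (q : ℤ)) (by omega)
          (by simpa using hcop2)
        rw [Rat.den_neg_eq_den]
        have h2 : ((((q - p : ℕ) : ℤ) : ℚ) / ((q : ℤ) : ℚ)).den = q := by exact_mod_cast this
        simpa using h2
      · show mult n r b = _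
        rw [hmul]
        rw [Complex.exp_eq_exp_iff_exists_int]
        refine ⟨1, ?_⟩
        simp only [axisPt]
        push_cast [Nat.cast_sub hpq.le]
        have h3 : (q : ℂ) ≠ 0 := by exact_mod_cast (hp.trans hpq).ne'
        field_simp
        ring
      · rw [min_eq_right hc]
        push_cast [Nat.cast_sub hpq.le]
        rw [abs_neg, abs_of_pos (div_pos (by linarith) hq')]
  have hx2 : 2 * Real.pi * |(x : ℝ)| ≤ δ n := by rw [habs]; exact hle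
  obtain ⟨Q, hClo, hOne, hmem⟩ := h1 n r b x hper hx0 hexp hx2
  obtain ⟨g, T, -, h2, h3, h4, h5, h6⟩ := limb_of_clo hClo hper.1 (by linarith) (by linarith)
    hOne (by linarith) hmem hexp
  have he : 2 * δ n / 2 = δ n := by ring
  rw [he] at h2 h4 h5 h6
  exact ⟨x, g, T, hx0, hden, h2, h3, h4, h5, h6⟩

/-- the same for the components of the cycle -/
theorem cloAll_of_oneC {δ : ℕ → ℝ} (hδ : ∀ n, 0 < n → 0 < δ n ∧ δ n ≤ 1 / 4)
    (h1 : ∀ (n : ℕ) (r b : ℂ) (x : ℚ), PerN n r b → x ≠ 0 →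
      mul n (r, b) = exp (axisPt x) → 2 * Real.pi * |(x : ℝ)| ≤ δ n →
      OneC n (QC n (2 * δ n) (r, b))) : CloAll δ := by
  intro n r b x hper hx0 hexp hx2
  obtain ⟨hδ0, hδ1⟩ := hδ n hper.1
  have hb : it r n b = b := perN_itH4 hper
  have hnx : ‖axisPt x‖ = 2 * Real.pi * |(x : ℝ)| := by
    have h := LimbData.axisPt_sub x 0
    have h0 : axisPt 0 = 0 := by simp [axisPt]
    rw [h0, sub_zero] at h
    simpa using h
  have hSA : (r, b) ∈ SA n (2 * δ n) := by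
    refine ⟨hb, axisPt x, ⟨?_, ?_⟩, hexp⟩
    · rw [← norm_pos_iff, hnx]
      have : (x : ℝ) ≠ 0 := by exact_mod_cast hx0
      have := Real.pi_pos
      positivity
    · rw [hnx]; linarith
  exact ⟨_, clo_QC (by linarith) _, h1 n r b x hper hx0 hexp hx2, mem_QC hSA⟩

end Pool.Agent.Work.MLC.Pri
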