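import Pool.Agent.Work.MLC.SatCircA
import Pool.Agent.Work.MLC.ExtP57
import Pool.Agent.Work.MLC.Strip0
import Pool.Agent.Work.MLC.SatInj51
import Pool.Agent.Work.MLC.PriH4
import Pool.Agent.Work.MLC.Pri0

set_option autoImplicit false

/-! # The final glue of the theorem on all components (helper26)

Inputs as propositions: the barrier theorem `BTG`, the separation of labels `SEP`, the
identification `ID`. Output: two attracting points that are not distinguished by the locally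
constant predicates and have the same multiplier have the same parameter. -/

namespace Pool.Agent.Work.MLC.Pri

open Filter Topology Metric Set Complex

/-- `t` is the left end of the strip `k` of `w` -/
def LeftEnd (n : ℕ) (w : ℕ → ℤ) (k : ℤ) (t : ℝ) : Prop :=
  Circ.nu w n t = k ∧ ∀ θ, t < θ → (k : ℝ) < Circ.nu w n θ

/-- the labels belong to the same cycle -/
def SameCyc (w : ℕ → ℤ) (t : ℝ) (w' : ℕ → ℤ) (t' : ℝ) : Prop :=
  ∃ (i : ℕ) (m : ℤ), (∀ j, Even (w' j - w (i + j) - m)) ∧ t = t' + m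

/-- `t` (modulo one) is in the plateau `κ + x` of `v` -/
def InPl (d : ℕ) (v : ℕ → ℤ) (κ : ℤ) (x : ℚ) (t : ℝ) : Prop :=
  ∃ m : ℤ, Circ.nu v d (t + m) = κ + x

/-- **the barrier theorem** -/
def BTG (C₀ : ℝ) (k : ℕ) : Prop :=
  ∀ (N d : ℕ) (v : ℕ → ℤ) (κ : ℤ) (x : ℚ), 0 < N → 0 < d → d ≤ N → Word d v → 0 < x → x < 1 →
    x.den ≤ N → ∃ In : ℂ → Prop,
      (∀ n, 0 < n → n ≤ N → LC n (1 / (C₀ * N ^ k)) In) ∧
      ∀ c θ, Ang c θ →
        (|Circ.nu v d θ - (κ + x)| < 1 / (8 * N ^ 2) → In c) ∧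
        ((∀ m : ℤ, 7 / (8 * N ^ 2) < |Circ.nu v d (θ + m) - (κ + x)|) → ¬ In c)

/-- **separation of the labels** (with barriers of periods up to `D n`) -/
def SEP (D : ℕ → ℕ) : Prop :=
  ∀ (n : ℕ) (w w' : ℕ → ℤ) (k k' : ℤ) (t t' : ℝ), 0 < n → Word n w → Word n w' →
    LeftEnd n w k t → LeftEnd n w' k' t' →
    SameCyc w t w' t' ∨ ∃ (d : ℕ) (v : ℕ → ℤ) (κ : ℤ) (x : ℚ), 0 < d ∧ d ≤ D n ∧ Word d v ∧
      0 < x ∧ x < 1 ∧ x.den ≤ D n ∧ Xor (InPl d v κ x t) (InPl d v κ x t')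

/-- the left end of a strip is `n`-periodic -/
def LEP : Prop := ∀ (n : ℕ) (w : ℕ → ℤ) (k : ℤ) (t : ℝ), 0 < n → Word n w → LeftEnd n w k t →
  ∃ a : ℤ, (2 : ℝ) ^ n * t - t = a

/-- **identification** of the attracting points -/
structure ID (n : ℕ) (η : ℝ) (Lbl : ℂ × ℂ → ℂ → (ℕ → ℤ) → ℤ → Prop) : Prop where
  ex : ∀ x L, x ∈ Per n → Exa n x → mul n x = exp L → L.re < 0 → ‖L‖ < η →
    ∃ w k, Word n w ∧ Lbl x L w k ∧ ∀ P : ℂ → Prop, LC n η P → ∀ t, LeftEnd n w k t → ∀ δ > 0,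
      ∃ c θ, Ang c θ ∧ t < θ ∧ θ < t + δ ∧ (P x.1 ↔ P c)
  same : ∀ x y L w k w' k' t t', Lbl x L w k → Lbl y L w' k' → LeftEnd n w k t →
    LeftEnd n w' k' t' → SameCyc w t w' t' → x.1 = y.1

/-- the left end of a strip exists -/
theorem exists_leftEnd {n : ℕ} (hn : 0 < n) (w : ℕ → ℤ) (k : ℤ) : ∃ t, LeftEnd n w k t := by
  have hc := Circ.nu_continuous w n
  have hmono := Circ.nu_mono w n
  have hn' : (1 : ℝ) ≤ n := by exact_mod_cast hn
  have hshift : ∀ (m : ℤ) (θ : ℝ), Circ.nu w n (θ + 2 * m) = Circ.nu w n θ + n * m :=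
    fun m θ => nu_add_even w n m θ
  -- the set where `nu ≤ k`
  set S : Set ℝ := {θ | Circ.nu w n θ ≤ k} with hS
  obtain ⟨m, hm⟩ := exists_int_lt ((k : ℝ) - |Circ.nu w n 0| - |(k : ℝ)|)
  have habs := le_abs_self (Circ.nu w n 0)
  have hSne : S.Nonempty := by
    obtain ⟨m, hm⟩ := exists_nat_gt (Circ.nu w n 0 - k)
    refine ⟨0 + 2 * ((-m : ℤ) : ℝ), ?_⟩
    have h1 : (m : ℝ) ≤ n * m := by nlinarith [(Nat.cast_nonneg m : (0 : ℝ) ≤ m)]
    show Circ.nu w n _ ≤ k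
    rw [hshift]
    push_cast
    linarith
  have hSb : BddAbove S := by
    obtain ⟨m, hm⟩ := exists_nat_gt ((k : ℝ) - Circ.nu w n 0)
    refine ⟨0 + 2 * ((m : ℤ) : ℝ), fun θ hθ => ?_⟩
    by_contra hcon
    push Not at hcon
    have h1 := hmono hcon.le
    rw [hshift] at h1
    have h2 : (m : ℝ) ≤ n * m := by nlinarith [(Nat.cast_nonneg m : (0 : ℝ) ≤ m)]
    have h3 : Circ.nu w n θ ≤ k := hθ
    push_cast at h1
    linarith
  have hScl : IsClosed S := isClosed_le hc continuous_const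
  have hmem : sSup S ∈ S := hScl.csSup_mem hSne hSb
  have hgt : ∀ θ, sSup S < θ → (k : ℝ) < Circ.nu w n θ := by
    intro θ hθ
    by_contra hcon
    push Not at hcon
    exact absurd (le_csSup hSb (show θ ∈ S from hcon)) (not_le.2 hθ)
  refine ⟨sSup S, le_antisymm hmem ?_, hgt⟩
  have h1 : Tendsto (Circ.nu w n) (𝓝[>] (sSup S)) (𝓝 (Circ.nu w n (sSup S))) :=
    (hc.tendsto _).mono_left nhdsWithin_le_nhds
  refine ge_of_tendsto h1 ?_
  filter_upwards [self_mem_nhdsWithin] with θ hθ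
  exact (hgt θ hθ).le

/-- uniform control of all translates -/
lemma exists_delta (d : ℕ) (v : ℕ → ℤ) (t : ℝ) {ε : ℝ} (hε : 0 < ε) :
    ∃ δ > 0, ∀ θ, |θ - t| < δ → ∀ m : ℤ, |Circ.nu v d (θ + m) - Circ.nu v d (t + m)| < ε := by
  have hc := Circ.nu_continuous v d
  have h0 := Metric.continuousAt_iff.1 (hc.continuousAt (x := t)) ε hε
  have h1 := Metric.continuousAt_iff.1 (hc.continuousAt (x := t + 1)) ε hε
  obtain ⟨δ₀, hδ₀, h0⟩ := h0
  obtain ⟨δ₁, hδ₁, h1⟩ := h1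
  refine ⟨min δ₀ δ₁, lt_min hδ₀ hδ₁, fun θ hθ m => ?_⟩
  rcases Int.even_or_odd' m with ⟨j, hj | hj⟩
  · have e1 : θ + m = θ + 2 * (j : ℤ) := by rw [hj]; push_cast; ring
    have e2 : t + m = t + 2 * (j : ℤ) := by rw [hj]; push_cast; ring
    rw [e1, e2, nu_add_even, nu_add_even]
    have h2 := h0 (x := θ) (by rw [Real.dist_eq]; exact hθ.trans_le (min_le_left _ _))
    rw [Real.dist_eq] at h2
    rwa [show Circ.nu v d θ + d * j - (Circ.nu v d t + d * j) = Circ.nu v d θ - Circ.nu v d t by ring]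
  · have e1 : θ + m = (θ + 1) + 2 * (j : ℤ) := by rw [hj]; push_cast; ring
    have e2 : t + m = (t + 1) + 2 * (j : ℤ) := by rw [hj]; push_cast; ring
    rw [e1, e2, nu_add_even, nu_add_even]
    have h2 := h1 (x := θ + 1) (by
      rw [Real.dist_eq]
      have : θ + 1 - (t + 1) = θ - t := by ring
      rw [this]; exact hθ.trans_le (min_le_right _ _))
    rw [Real.dist_eq] at h2
    rwa [show Circ.nu v d (θ + 1) + d * j - (Circ.nu v d (t + 1) + d * j) =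
      Circ.nu v d (θ + 1) - Circ.nu v d (t + 1) by ring]

/-- the distance of a periodic angle to a plateau in which it is not -/
lemma gap_notInPl {n d N : ℕ} (hn : 0 < n) (hnN : n ≤ N) {v : ℕ → ℤ} {κ : ℤ} {x : ℚ}
    (hx : x.den ≤ N) {t : ℝ} (ht : ∃ a : ℤ, (2 : ℝ) ^ n * t - t = a) (h : ¬ InPl d v κ x t)
    (m : ℤ) : 1 / (N : ℝ) ^ 2 ≤ |Circ.nu v d (t + m) - (κ + x)| := by
  by_contra hcon
  push Not at hcon
  obtain ⟨a, ha⟩ := ht
  have hden : (0 : ℝ) < x.den := by exact_mod_cast x.pos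
  have hn' : (0 : ℝ) < n := by exact_mod_cast hn
  have hN' : (0 : ℝ) < N := hn'.trans_le (by exact_mod_cast hnN)
  have hx' : ((κ : ℝ) + x) = ((κ * x.den + x.num : ℤ) : ℝ) / x.den := by
    have : (x : ℝ) = (x.num : ℝ) / x.den := by exact_mod_cast (Rat.num_div_den x).symm
    rw [this]; push_cast; field_simp
  refine h ⟨m, ?_⟩
  rw [hx']
  refine Circ.gap_of_near v d n x.den hn x.pos ⟨a + (2 ^ n - 1) * m, ?_⟩ ?_
  · push_cast; rw [← ha]; ring
  · rw [← hx']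
    refine hcon.trans_le ?_
    rw [sq]
    apply one_div_le_one_div_of_le (by positivity)
    gcongr

/-- **the glue**: attracting points with the same multiplier that are not distinguished by
locally constant predicates have the same parameter -/
theorem same_of_LC {C₀ : ℝ} {k : ℕ} {D : ℕ → ℕ} (hBT : BTG C₀ k) (hSEP : SEP D) (hLEP : LEP)
    {n N : ℕ} (hn : 0 < n) (hnN : n ≤ N) (hDN : D n ≤ N) {η : ℝ} (hη : η ≤ 1 / (C₀ * N ^ k))
    {Lbl : ℂ × ℂ → ℂ → (ℕ → ℤ) → ℤ → Prop} (hID : ID n η Lbl) {x y : ℂ × ℂ} {L : ℂ}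
    (hxP : x ∈ Per n) (hyP : y ∈ Per n) (hx : Exa n x) (hy : Exa n y) (hxL : mul n x = exp L) (hyL : mul n y = exp L)
    (hre : L.re < 0) (hL : ‖L‖ < η)
    (hP : ∀ P : ℂ → Prop, LC n η P → (P x.1 ↔ P y.1)) : x.1 = y.1 := by
  obtain ⟨w, κ₁, hw, hl, hext⟩ := hID.ex x L hxP hx hxL hre hL
  obtain ⟨w', κ₂, hw', hl', hext'⟩ := hID.ex y L hyP hy hyL hre hL
  obtain ⟨t, ht⟩ := exists_leftEnd hn w κ₁
  obtain ⟨t', ht'⟩ := exists_leftEnd hn w' κ₂
  rcases hSEP n w w' κ₁ κ₂ t t' hn hw hw' ht ht' with hs | ⟨d, v, κ, r, hd, hdD, hv, hr0, hr1,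
    hrD, hX⟩
  · exact hID.same _ _ _ _ _ _ _ _ _ hl hl' ht ht' hs
  · exfalso
    have hN : 0 < N := hn.trans_le hnN
    have hN' : (0 : ℝ) < N := by exact_mod_cast hN
    obtain ⟨In, hLC, hIn⟩ := hBT N d v κ r hN hd (hdD.trans hDN) hv hr0 hr1 (hrD.trans hDN)
    have hLC' : LC n η In := fun z h0 h1 L h2 h3 h4 => hLC n hn hnN z h0 h1 L h2 h3 (h4.trans_le hη)
    have key : ∀ (x : ℂ × ℂ) (w : ℕ → ℤ) (κ₁ : ℤ) (t : ℝ), Word n w → LeftEnd n w κ₁ t →
        (∀ P : ℂ → Prop, LC n η P → ∀ t, LeftEnd n w κ₁ t → ∀ δ > 0,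
          ∃ c θ, Ang c θ ∧ t < θ ∧ θ < t + δ ∧ (P x.1 ↔ P c)) →
        (InPl d v κ r t ↔ In x.1) := by
      intro x w κ₁ t hw ht hext
      obtain ⟨δ, hδ, hδ'⟩ := exists_delta d v t (show (0 : ℝ) < 1 / (8 * N ^ 2) by positivity)
      obtain ⟨c, θ, hA, h1, h2, h3⟩ := hext In hLC' t ht δ hδ
      have h4 : |θ - t| < δ := by rw [abs_of_pos (by linarith)]; linarith
      rw [h3]
      constructor
      · rintro ⟨m, hm⟩
        refine (hIn c (θ + m) (hA.add_int m)).1 ?_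
        have := hδ' θ h4 m
        rwa [hm] at this
      · intro h5
        by_contra h6
        refine (hIn c θ hA).2 (fun m => ?_) h5
        have h7 := gap_notInPl hn hnN (hrD.trans hDN) (hLEP n w κ₁ t hn hw ht) h6 m
        have h8 := hδ' θ h4 m
        have h9 := abs_sub_abs_le_abs_sub (Circ.nu v d (t + m) - (κ + r))
          (Circ.nu v d (θ + m) - (κ + r))
        rw [show Circ.nu v d (t + m) - (κ + r) - (Circ.nu v d (θ + m) - (κ + r)) =
          -(Circ.nu v d (θ + m) - Circ.nu v d (t + m)) by ring, abs_neg] at h9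
        have h10 : (7 : ℝ) / (8 * N ^ 2) + 1 / (8 * N ^ 2) = 1 / N ^ 2 := by field_simp; norm_num
        linarith
    have h1 := key x w κ₁ t hw ht hext
    have h2 := key y w' κ₂ t' hw' ht' hext'
    have h3 := hP In hLC'
    rcases hX with ⟨h4, h5⟩ | ⟨h4, h5⟩
    · exact h5 (h2.2 (h3.1 (h1.1 h4)))
    · exact h5 (h1.2 (h3.2 (h2.1 h4)))

/-- a locally constant predicate is constant on the components of the curve -/
theorem LC.const {n : ℕ} {ε : ℝ} (hε : ε ≤ 1 / 2) {P : ℂ → Prop} (hP : LC n ε P) {x₀ : ℂ × ℂ}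
    (hx₀ : x₀ ∈ SA n ε) (hex : Exa n x₀) : ∀ x ∈ QC n ε x₀, (P x.1 ↔ P x₀.1) := by
  have hexQ : ∀ x ∈ QC n ε x₀, Exa n x := fun x hx d hd hdn =>
    QC_exact hε hx₀ (hex d hd hdn) x hx
  have hloc : ∀ x ∈ QC n ε x₀, ∀ᶠ y : ℂ × ℂ in 𝓝 x, (P y.1 ↔ P x.1) := by
    intro x hx
    obtain ⟨-, L, hL, he⟩ := QC_sub hx
    exact continuous_fst.continuousAt.eventually (hP x (QC_sub hx).1 (hexQ x hx) L he hL.1 hL.2)
  intro x hx
  obtain ⟨i, hi⟩ := mem_iUnion.1 hx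
  set S := connectedComponentIn (SA n ε) (x₀.1, it x₀.1 i x₀.2) with hS
  have hSQ : S ⊆ QC n ε x₀ := fun y hy => mem_iUnion.2 ⟨i, hy⟩
  have h0S : (x₀.1, it x₀.1 i x₀.2) ∈ S := mem_connectedComponentIn (SA_it hx₀ i)
  by_contra hcon
  set u : Set (ℂ × ℂ) := interior {y | P y.1} with hu
  set v : Set (ℂ × ℂ) := interior {y | ¬ P y.1} with hv
  have hcov : S ⊆ u ∪ v := by
    intro y hy
    by_cases h : P y.1
    · left
      rw [hu, mem_interior_iff_mem_nhds]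
      filter_upwards [hloc y (hSQ hy)] with z hz
      exact hz.2 h
    · right
      rw [hv, mem_interior_iff_mem_nhds]
      filter_upwards [hloc y (hSQ hy)] with z hz
      exact fun h' => h (hz.1 h')
  have key : ∀ a ∈ S, ∀ b ∈ S, P a.1 → ¬ P b.1 → False := by
    intro a ha b hb hPa hPb
    have hau : a ∈ u := by
      rcases hcov ha with h | h
      · exact h
      · exact absurd hPa (interior_subset h)
    have hbv : b ∈ v := by
      rcases hcov hb with h | h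
      · exact absurd (interior_subset h) hPb
      · exact h
    obtain ⟨z, -, hzu, hzv⟩ := isPreconnected_connectedComponentIn u v isOpen_interior
      isOpen_interior hcov ⟨a, ha, hau⟩ ⟨b, hb, hbv⟩
    have e1 : P z.1 := interior_subset (s := {y : ℂ × ℂ | P y.1}) hzu
    have e2 : ¬ P z.1 := interior_subset (s := {y : ℂ × ℂ | ¬ P y.1}) hzv
    exact e2 e1
  by_cases h1 : P x.1
  · by_cases h2 : P x₀.1
    · exact hcon ⟨fun _ => h2, fun _ => h1⟩
    · exact key x hi _ h0S h1 h2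
  · by_cases h2 : P x₀.1
    · exact key _ h0S x hi h2 h1
    · exact hcon ⟨fun h => absurd h h1, fun h => absurd h h2⟩

/-- **one parameter over each attracting multiplier** -/
theorem oneC_QC {C₀ : ℝ} {k : ℕ} {D : ℕ → ℕ} (hBT : BTG C₀ k) (hSEP : SEP D) (hLEP : LEP)
    {n N : ℕ} (hn : 0 < n) (hnN : n ≤ N) (hDN : D n ≤ N) {η : ℝ} (hη : η ≤ 1 / (C₀ * N ^ k))
    (hη2 : η ≤ 1 / 2) {Lbl : ℂ × ℂ → ℂ → (ℕ → ℤ) → ℤ → Prop} (hID : ID n η Lbl) {x₀ : ℂ × ℂ}
    (hx₀ : x₀ ∈ SA n η) (hex : Exa n x₀) : OneC n (QC n η x₀) := by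
  have hexQ : ∀ x ∈ QC n η x₀, Exa n x := fun x hx d hd hdn =>
    QC_exact hη2 hx₀ (hex d hd hdn) x hx
  intro x hx y hy h1 hxy
  obtain ⟨-, L, hL, he⟩ := QC_sub hx
  have hre : L.re < 0 := by
    rwa [he, Complex.norm_exp, Real.exp_lt_one_iff] at h1
  exact same_of_LC hBT hSEP hLEP hn hnN hDN hη hID (QC_sub hx).1 (QC_sub hy).1 (hexQ x hx)
    (hexQ y hy) he
    (by rw [← hxy, he]) hre hL.2
    (fun P hP => (hP.const hη2 hx₀ hex x hx).trans (hP.const hη2 hx₀ hex y hy).symm)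

/-- **the theorem on all components**, from the barrier theorem, the separation and the
identification -/
theorem rootPiece_glue {C₀ : ℝ} (hC₀ : 1 ≤ C₀) {k : ℕ} {D : ℕ → ℕ} (hBT : BTG C₀ k)
    (hSEP : SEP D) (hLEP : LEP) (hD : ∀ n, 0 < n → D n ≤ 5 * n ^ 2)
    (hID : ∀ n η, 0 < n → 0 < η → η ≤ 1 → ∃ Lbl, ID n η Lbl) :
    RootPiece fun n => 1 / ((4 * C₀ * 5 ^ k) * n ^ (2 * k)) := by
  have hδ : ∀ n : ℕ, 0 < n → 0 < 1 / ((4 * C₀ * 5 ^ k) * (n : ℝ) ^ (2 * k)) ∧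
      1 / ((4 * C₀ * 5 ^ k) * (n : ℝ) ^ (2 * k)) ≤ 1 / 4 := by
    intro n hn
    have hn' : (1 : ℝ) ≤ n := by exact_mod_cast hn
    have h1 : (1 : ℝ) ≤ n ^ (2 * k) := one_le_pow₀ hn'
    have h2 : (1 : ℝ) ≤ 5 ^ k := one_le_pow₀ (by norm_num)
    refine ⟨by positivity, one_div_le_one_div_of_le (by norm_num) ?_⟩
    nlinarith [mul_le_mul hC₀ h2 (by norm_num) (by linarith),
      mul_le_mul (mul_le_mul hC₀ h2 (by norm_num) (by linarith)) h1 (by norm_num) (by positivity)]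
  refine rootPiece_of_clo hδ (cloAll_of_oneC hδ ?_)
  intro n r b x hper hx0 hexp hx2
  have hn : 0 < n := hper.1
  have hn' : (1 : ℝ) ≤ n := by exact_mod_cast hn
  obtain ⟨hδ0, hδ1⟩ := hδ n hn
  have hb : it r n b = b := perN_itH4 hper
  have hnx : ‖axisPt x‖ = 2 * Real.pi * |(x : ℝ)| := by
    have h := LimbData.axisPt_sub x 0
    have h0 : axisPt 0 = 0 := by simp [axisPt]
    rw [h0, sub_zero] at h
    simpa using h
  set η : ℝ := 2 * (1 / ((4 * C₀ * 5 ^ k) * (n : ℝ) ^ (2 * k))) with hη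
  have hη0 : 0 < η := by positivity
  have hη2 : η ≤ 1 / 2 := by linarith
  have hSA : (r, b) ∈ SA n η := by
    refine ⟨hb, axisPt x, ⟨?_, ?_⟩, hexp⟩
    · rw [← norm_pos_iff, hnx]
      have : (x : ℝ) ≠ 0 := by exact_mod_cast hx0
      have := Real.pi_pos
      positivity
    · rw [hnx]; linarith
  have hex : Exa n (r, b) := by
    intro d hd hdn h
    have h1 : Function.IsPeriodicPt (f r) d b := h
    have h2 := h1.minimalPeriod_le hd
    rw [hper.2] at h2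
    omega
  obtain ⟨Lbl, hL⟩ := hID n η hn hη0 (by linarith)
  refine oneC_QC (N := 5 * n ^ 2) hBT hSEP hLEP hn ?_ (hD n hn) ?_ hη2 hL hSA hex
  · nlinarith
  · have h1 : (((5 * n ^ 2 : ℕ) : ℝ)) ^ k = 5 ^ k * n ^ (2 * k) := by
      push_cast; rw [mul_pow, ← pow_mul]
    rw [h1, hη, mul_one_div]
    rw [div_le_div_iff₀ (by positivity) (by positivity)]
    have : 0 < C₀ * (5 ^ k * (n : ℝ) ^ (2 * k)) := by positivity
    nlinarith

end Pool.Agent.Work.MLC.Pri
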