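import Pool.Agent.Work.MLC.Lab54e
import Pool.Agent.Work.MLC.PriGlue26

set_option autoImplicit false

/-! # One-ended separation of the labels (helper54)

Input `NB` (NotBoth73): a left end of an exact label with exact lower word, `n ≥ 2`, is not a right
end of the lower word. Output: `Pri.SEP (fun n => 5 * n ^ 2)`, `Pri.LEP`. -/

namespace Pool.Agent.Work.MLC

open Set Circ CircleDeg1Lift Filter Topology

/-- the statement of `NotBoth73` used here -/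
def NB : Prop := ∀ (n : ℕ) (w : ℕ → ℤ) (t : ℝ) (k M : ℤ), LE n w t k → 2 ≤ n →
  Word n (flw n w) → gw (flw n w) t n t = t + M →
  ∃ x, t < x ∧ x < t + 1 ∧ x + M ≤ gw (flw n w) t n x

/-- the characteristic arc is short -/
theorem CA.short {N q : ℕ} {w : ℕ → ℤ} {s t : ℝ} (h : CA N q w s t) : t ≤ s + 1 / 3 := by
  have hst := h.lt
  have hts := h.lt'
  have h1 : s < (s + t) / 2 := by linarith
  have h2 : (s + t) / 2 < t := by linarith
  have hn := h.npos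
  have hw : ∀ i, w (i + N * q) = w i := fun i => word_mod h.word.2.1 i q
  have hint : ∀ l : ℤ, t - s ≠ l := by
    intro l hl
    have f1 : ((0 : ℤ) : ℝ) < l := by rw [← hl]; push_cast; linarith
    have f2 : (l : ℝ) < ((1 : ℤ) : ℝ) := by rw [← hl]; push_cast; linarith
    have f3 : 0 < l := by exact_mod_cast f1
    have f4 : l < 1 := by exact_mod_cast f2
    omega
  have hmem_s : ∀ (a : ℕ) (l : ℤ), 2 ^ a * s + l ∈ AA N s a := fun a l => AA_shift (mem_AA N s a) l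
  have hmem_t : ∀ (a : ℕ) (l : ℤ), 2 ^ a * t + l ∈ AA N s a := fun a l => by
    rw [← h.AA_t]; exact AA_shift (mem_AA N t a) l
  have key : ∀ (a : ℕ) (α β : ℝ), α ∈ AA N s a → β ∈ AA N s a → α < (s + t) / 2 →
      (s + t) / 2 < β → β - α ≤ 1 / 3 → t ≤ s + 1 / 3 := by
    intro a α β hα hβ h3 h4 h5
    have h6 : α ≤ s := by
      by_contra hcon
      push Not at hcon
      exact h.nopt a α hα hcon (by linarith)
    have h7 : t ≤ β := by
      by_contra hcon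
      push Not at hcon
      exact h.nopt a β hβ (by linarith) hcon
    linarith
  rcases short_chord hn (h.compat _ h1 h2) (h.compat_t h1 h2) h.per_s h.per_t hint with
    ⟨a, l, m, h3, h4, h5, -⟩ | ⟨a, l, m, h3, h4, h5, -⟩
  · exact key a _ _ (hmem_s a l) (hmem_t a m) h3 h4 h5
  · exact key a _ _ (hmem_t a l) (hmem_s a m) h3 h4 h5

/-- integer part and fractional part of a rational number -/
theorem frac_data {n Q : ℕ} {r : ℝ} {P : ℤ} (hQ : 0 < Q) (hQn : Q ≤ n) (hr : r = P / Q)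
    (hni : ∀ k : ℤ, r ≠ k) : ∃ (κ : ℤ) (x : ℚ), 0 < x ∧ x < 1 ∧ x.den ≤ n ∧ r = κ + x := by
  set y : ℚ := (P : ℚ) / (Q : ℚ) with hy
  have hyr : r = (y : ℝ) := by rw [hr, hy]; push_cast; ring
  refine ⟨⌊y⌋, Int.fract y, ?_, Int.fract_lt_one y, ?_, ?_⟩
  · rcases (Int.fract_nonneg y).lt_or_eq with h | h
    · exact h
    · exfalso
      refine hni ⌊y⌋ ?_
      rw [hyr]
      have h1 := Int.floor_add_fract y
      rw [← h, add_zero] at h1
      exact_mod_cast h1.symm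
  · have hQ' : (Q : ℚ) ≠ 0 := by exact_mod_cast hQ.ne'
    have e : Int.fract y = ((P - ⌊y⌋ * Q : ℤ) : ℚ) / ((Q : ℤ) : ℚ) := by
      unfold Int.fract
      rw [hy]
      push_cast
      field_simp
    have h1 : ((Int.fract y).den : ℤ) ∣ (Q : ℤ) := by
      rw [e, ← Rat.divInt_eq_div]; exact Rat.den_dvd _ _
    have h2 : (Int.fract y).den ∣ Q := by exact_mod_cast h1
    exact (Nat.le_of_dvd hQ h2).trans hQn
  · rw [hyr]
    have h1 := Int.floor_add_fract y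
    have h2 : ((⌊y⌋ : ℚ) + Int.fract y : ℚ) = y := h1
    calc (y : ℝ) = (((⌊y⌋ : ℚ) + Int.fract y : ℚ) : ℝ) := by rw [h2]
      _ = (⌊y⌋ : ℝ) + (Int.fract y : ℚ) := by push_cast; ring

/-- spacing of periodic angles -/
theorem spacing {n : ℕ} (hn : 0 < n) {x y : ℝ} (hx : ∃ a : ℤ, 2 ^ n * x - x = a)
    (hy : ∃ a : ℤ, 2 ^ n * y - y = a) (h : y - (1 / 2) ^ n < x) : y ≤ x := by
  by_contra hcon
  push Not at hcon
  obtain ⟨a, ha⟩ := hx
  obtain ⟨b, hb⟩ := hy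
  have hpow : (2 : ℝ) ≤ 2 ^ n := by
    calc (2 : ℝ) = 2 ^ 1 := by norm_num
      _ ≤ 2 ^ n := pow_le_pow_right₀ (by norm_num) hn
  have h1 : ((2 : ℝ) ^ n - 1) * (y - x) = ((b - a : ℤ) : ℝ) := by push_cast; linarith
  have h2 : (1 / 2 : ℝ) ^ n * 2 ^ n = 1 := by rw [← mul_pow]; norm_num
  have h3 : ((2 : ℝ) ^ n - 1) * (y - x) < 1 := by
    have h4 : ((2 : ℝ) ^ n - 1) * (y - x) ≤ 2 ^ n * (y - x) := by nlinarith
    have h5 : (2 : ℝ) ^ n * (y - x) < 2 ^ n * (1 / 2) ^ n :=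
      mul_lt_mul_of_pos_left (by linarith) (by linarith)
    linarith
  have h6 : (0 : ℝ) < ((2 : ℝ) ^ n - 1) * (y - x) := mul_pos (by linarith) (by linarith)
  rw [h1] at h3 h6
  have f1 : b - a < 1 := by exact_mod_cast h3
  have f2 : 0 < b - a := by exact_mod_cast h6
  omega

/-- rotation numbers of powers of a word -/
theorem nu_pow {d Q : ℕ} {v : ℕ → ℤ} (hv : ∀ i, v (i + d) = v i) (θ : ℝ) :
    nu v (d * Q) θ = Q * nu v d θ := by
  unfold nu
  rw [gw_mul v θ d Q hv]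
  exact translationNumber_pow _ _

/-- **the barrier of a left end** -/
theorem barrier_left (hNB : NB) {n : ℕ} {w : ℕ → ℤ} {t : ℝ} {k : ℤ} (h : LE n w t k)
    (hn2 : 2 ≤ n) : ∃ (d : ℕ) (v : ℕ → ℤ) (κ : ℤ) (x : ℚ), 0 < d ∧ d ≤ 5 * n ^ 2 ∧ Word d v ∧
      0 < x ∧ x < 1 ∧ x.den ≤ n ∧ nu v d t = κ + x ∧
      ∀ θ : ℝ, (∃ a : ℤ, 2 ^ n * θ - θ = a) → nu v d θ = κ + x → t ≤ θ ∧ θ ≤ t + 1 / 3 := by
  have hn := h.pos
  -- reduction to a word of any length
  have main : ∀ (N' : ℕ) (v : ℕ → ℤ), 0 < N' → N' ≤ 5 * n ^ 2 → (∀ i, v i = 0 ∨ v i = 1) →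
      (∀ i, v (i + N') = v i) → (∀ (Q : ℕ) (k : ℤ), 0 < Q → nu v N' t ≠ Q * k) →
      (∀ θ : ℝ, (∃ a : ℤ, 2 ^ n * θ - θ = a) → nu v N' θ = nu v N' t → t ≤ θ ∧ θ ≤ t + 1 / 3) →
      ∃ (d : ℕ) (v : ℕ → ℤ) (κ : ℤ) (x : ℚ), 0 < d ∧ d ≤ 5 * n ^ 2 ∧ Word d v ∧
      0 < x ∧ x < 1 ∧ x.den ≤ n ∧ nu v d t = κ + x ∧
      ∀ θ : ℝ, (∃ a : ℤ, 2 ^ n * θ - θ = a) → nu v d θ = κ + x → t ≤ θ ∧ θ ≤ t + 1 / 3 := by
    intro N' v hN0 hN5 hb hv hni hall
    obtain ⟨d, Q, hdQ, hd0, hQ0, hW⟩ := exists_min_word hN0 hb hv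
    have hnu : ∀ θ, nu v N' θ = Q * nu v d θ := fun θ => by rw [← hdQ]; exact nu_pow hW.2.1 θ
    obtain ⟨Q', P', hQ'0, hQ'n, hP'⟩ := weak_gap v d n hn h.per
    obtain ⟨κ, x, hx0, hx1, hxd, hx⟩ := frac_data hQ'0 hQ'n hP' fun k hk => hni Q k hQ0 (by
      rw [hnu, hk])
    have hdN : d ≤ N' := by rw [← hdQ]; exact Nat.le_mul_of_pos_right _ hQ0
    refine ⟨d, v, κ, x, hd0, hdN.trans hN5, hW, hx0, hx1, hxd, hx, fun θ hθ hθx => ?_⟩
    refine hall θ hθ ?_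
    rw [hnu, hnu, hθx, hx]
  rcases h.cases with hex | ⟨d, Q, t', hdQ, hCA⟩
  · -- primitive
    obtain ⟨M, hM⟩ : ∃ M : ℤ, gw (flw n w) t n t = t + M := by
      obtain ⟨m, hm⟩ := gw_lin (flw n w) t t n fun i _ => by
        obtain ⟨m, h1, h2⟩ := h.closed i
        exact ⟨m, h1.le, h2⟩
      obtain ⟨a, ha⟩ := h.per
      exact ⟨a - m, by rw [hm]; push_cast; linarith⟩
    obtain ⟨t', hCP⟩ := exists_CP h hn2 hex hM (hNB n w t k M h hn2 hex hM)
    obtain ⟨c, hL, hR, la⟩ := hCP.lh_data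
    obtain ⟨P, hP0, hPn, κ, hcut⟩ := cut hL hR la
    obtain ⟨c1, c2, -, c4⟩ := hcut (n + 2) le_rfl
    set K : ℤ := ((n + 2 : ℕ) : ℤ) * c + κ with hK
    set N' := n * (n + 2) + P with hN'
    have hN0 : 0 < N' := by omega
    set v : ℕ → ℤ := flw n w with hv
    have hbit := hex.1
    have hnu' : ∀ θ, nu (fun i => v (i % N')) N' θ = nu v N' θ := fun θ => by
      unfold nu
      rw [gw_congr (w := fun i => v (i % N')) (w' := v) θ N' fun i hi => by
        show v (i % N') = v i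
        rw [Nat.mod_eq_of_lt hi]]
    refine main N' (fun i => v (i % N')) hN0 ?_ (fun i => hbit _) (fun i => ?_) ?_ ?_
    · rw [hN']; nlinarith
    · show v ((i + N') % N') = v (i % N')
      rw [Nat.add_mod_right]
    · intro Q k hQ he
      rw [hnu', c2] at he
      have h1 : ((2 * K + 1 : ℤ) : ℝ) = ((2 * (Q * k) : ℤ) : ℝ) := by
        push_cast
        linarith
      have h2 : 2 * K + 1 = 2 * (Q * k) := by exact_mod_cast h1
      omega
    · intro θ hθ he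
      rw [hnu', hnu', c2] at he
      have h1 : t - (1 / 2) ^ n < θ := by
        by_contra hcon
        push Not at hcon
        have := (nu_mono v N' hcon).trans c1
        rw [he] at this
        linarith
      have h2 : θ < t' + (1 / 2) ^ n := by
        by_contra hcon
        push Not at hcon
        have := c4.trans (nu_mono v N' hcon)
        rw [he] at this
        linarith
      refine ⟨spacing hn hθ h.per h1, ?_⟩
      have h3 : θ ≤ t' := spacing hn hCP.per_t hθ (by linarith)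
      exact h3.trans hCP.short
  · -- satellite
    obtain ⟨P, hcop, hP⟩ := hCA.nu_w
    have hst := hCA.lt
    have hd0 := hCA.pos
    have hQ2 := hCA.two
    have hdn : d ≤ n := by rw [← hdQ]; exact Nat.le_mul_of_pos_right _ (by omega)
    refine main d (flw n w) hd0 ?_ hCA.word.1 hCA.word.2.1 ?_ ?_
    · nlinarith
    · intro Q' k' _ he
      refine hCA.nu_ne_int le_rfl hst.le (Q' * k') ?_
      rw [he]; push_cast; ring
    · intro θ _ he
      rw [hP t le_rfl hst.le] at he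
      obtain ⟨h1, h2⟩ := (hCA.plateau hcop hP θ).1 he
      exact ⟨h1, h2.trans hCA.short⟩

/-- left ends that are equal modulo one belong to the same cycle -/
theorem sameCyc_of_eq {n : ℕ} {w w' : ℕ → ℤ} {t t' : ℝ} {k k' : ℤ} (hn : 0 < n)
    (hw' : ∀ i, w' (i + n) = w' i) {i₀ i₀' : ℕ}
    (h : LE n (fun j => w (i₀ + j)) t k) (h' : LE n (fun j => w' (i₀' + j)) t' k') {m : ℤ}
    (ht : t = t' + m) : Pri.SameCyc w t w' t' := by
  refine ⟨i₀ + (n * i₀' - i₀'), m, fun j => ?_, ht⟩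
  set j' := (n * i₀' - i₀') + j with hj'
  have hle : i₀' ≤ n * i₀' := Nat.le_mul_of_pos_left _ hn
  have e1 : w' j = w' (i₀' + j') := by
    rw [show i₀' + j' = j + n * i₀' by omega, word_mod hw']
  have e2 : w (i₀ + (n * i₀' - i₀') + j) = w (i₀ + j') := by
    rw [hj', ← add_assoc]
  rw [e1, e2]
  obtain ⟨a, h1, h2⟩ := h.ho j'
  obtain ⟨b, h3, h4⟩ := h'.ho j'
  rw [ht] at h1 h2
  set r : ℤ := 2 ^ j' * m with hr
  have hr' : (2 : ℝ) ^ j' * (t' + m) = 2 ^ j' * t' + (r : ℝ) := by rw [hr]; push_cast; ring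
  rw [hr'] at h1 h2
  have f1 : ((m + w (i₀ + j') + 2 * a - 2 * r : ℤ) : ℝ) < ((w' (i₀' + j') + 2 * b + 1 : ℤ) : ℝ) := by
    push_cast; linarith
  have f2 : ((w' (i₀' + j') + 2 * b : ℤ) : ℝ) <
      ((m + w (i₀ + j') + 2 * a - 2 * r + 1 : ℤ) : ℝ) := by
    push_cast; linarith
  have f3 : m + w (i₀ + j') + 2 * a - 2 * r < w' (i₀' + j') + 2 * b + 1 := by exact_mod_cast f1
  have f4 : w' (i₀' + j') + 2 * b < m + w (i₀ + j') + 2 * a - 2 * r + 1 := by exact_mod_cast f2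
  refine ⟨a - r - b, ?_⟩
  omega

/-- **LEP** -/
theorem lep54 : Pri.LEP := by
  intro n w k t hn hw ht
  obtain ⟨i₀, -, h⟩ := exists_LE hn hw ht.1 ht.2
  exact h.per

/-- **SEP** from `NB` -/
theorem sep_of_NB (hNB : NB) : Pri.SEP (fun n => 5 * n ^ 2) := by
  intro n w w' k k' t t' hn hw hw' ht ht'
  obtain ⟨i₀, -, h⟩ := exists_LE hn hw ht.1 ht.2
  obtain ⟨i₀', -, h'⟩ := exists_LE hn hw' ht'.1 ht'.2
  rcases Nat.lt_or_ge n 2 with hn2 | hn2
  · left
    have hn1 : n = 1 := by omega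
    subst hn1
    obtain ⟨a, ha⟩ := h.per
    obtain ⟨b, hb⟩ := h'.per
    exact sameCyc_of_eq hn hw'.2.1 h h' (m := a - b) (by push_cast; linarith)
  obtain ⟨d, v, κ, x, hd0, hd5, hW, hx0, hx1, hxd, hx, hall⟩ := barrier_left hNB h hn2
  obtain ⟨d', v', κ', x', hd0', hd5', hW', hx0', hx1', hxd', hx', hall'⟩ := barrier_left hNB h' hn2
  have hn5 : n ≤ 5 * n ^ 2 := by nlinarith
  have hin : Pri.InPl d v κ x t := ⟨0, by rw [Int.cast_zero, add_zero]; exact hx⟩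
  have hin' : Pri.InPl d' v' κ' x' t' := ⟨0, by rw [Int.cast_zero, add_zero]; exact hx'⟩
  have hshift : ∀ {y : ℝ} (m : ℤ), (∃ a : ℤ, 2 ^ n * y - y = a) →
      ∃ a : ℤ, 2 ^ n * (y + m) - (y + m) = a := by
    rintro y m ⟨a, ha⟩
    exact ⟨a + 2 ^ n * m - m, by push_cast; linarith⟩
  by_cases h1 : Pri.InPl d v κ x t'
  swap
  · right
    exact ⟨d, v, κ, x, hd0, hd5, hW, hx0, hx1, hxd.trans hn5, Or.inl ⟨hin, h1⟩⟩
  by_cases h2 : Pri.InPl d' v' κ' x' t
  swap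
  · right
    exact ⟨d', v', κ', x', hd0', hd5', hW', hx0', hx1', hxd'.trans hn5, Or.inr ⟨hin', h2⟩⟩
  left
  obtain ⟨m, hm⟩ := h1
  obtain ⟨m', hm'⟩ := h2
  obtain ⟨a1, a2⟩ := hall (t' + m) (hshift m h'.per) hm
  obtain ⟨b1, b2⟩ := hall' (t + m') (hshift m' h.per) hm'
  have f1 : ((-1 : ℤ) : ℝ) < ((m + m' : ℤ) : ℝ) := by push_cast; linarith
  have f2 : ((m + m' : ℤ) : ℝ) < ((1 : ℤ) : ℝ) := by push_cast; linarith
  have f3 : -1 < m + m' := by exact_mod_cast f1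
  have f4 : m + m' < 1 := by exact_mod_cast f2
  have f5 : m + m' = 0 := by omega
  have f6 : (m : ℝ) + m' = 0 := by exact_mod_cast f5
  exact sameCyc_of_eq hn hw'.2.1 h h' (m := m) (by linarith)

end Pool.Agent.Work.MLC
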