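import Pool.Agent.Work.MLC.Cut73

/-!
NOT BOTH (proof of helper54, formalised by helper73).  `t` is periodic of period `n ≥ 2` under
doubling, `v 0, …, v (n-2)` are the letters of `t` and the last point `y` of its itinerary is the
common end of the two half circles.  Then the two return maps (with the two possible last letters)
can not satisfy `R₊ x > x` and `R₋ x < x` on the whole interval `(t, t+1)`.
-/

set_option autoImplicit false

namespace Pool.Agent.Work.MLC.Circ

open Set Filter Topology CircleDeg1Lift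

namespace NB

theorem tdbl_lt_of_open {s x x' : ℝ} (h : InHalfO s x) (hx : x < x') : tdbl s x < tdbl s x' := by
  obtain ⟨k, h1, h2⟩ := h
  rcases le_total x' (s / 2 + k + 1 / 2) with h3 | h3
  · rw [tdbl_lin k h1.le h2.le, tdbl_lin k (by linarith) h3]; linarith
  · have h4 := (tdbl s).monotone h3
    rw [tdbl_lin k (by linarith) le_rfl] at h4
    rw [tdbl_lin k h1.le h2.le]; linarith

theorem tdbl_gt_of_open {s x x' : ℝ} (h : InHalfO s x) (hx : x' < x) : tdbl s x' < tdbl s x := by
  obtain ⟨k, h1, h2⟩ := h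
  rcases le_total (s / 2 + k) x' with h3 | h3
  · rw [tdbl_lin k h1.le h2.le, tdbl_lin k h3 (by linarith)]; linarith
  · have h4 := (tdbl s).monotone h3
    rw [tdbl_lin k le_rfl (by linarith)] at h4
    rw [tdbl_lin k h1.le h2.le]; linarith

theorem gw_lt_of_open {v : ℕ → ℤ} {t x x' : ℝ} {i : ℕ}
    (h : ∀ j < i, InHalfO (t + v j) (gw v t j x)) (hx : x < x') : gw v t i x < gw v t i x' := by
  induction i with
  | zero => exact hx
  | succ i ih =>
    rw [gw_succ_apply, gw_succ_apply]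
    exact tdbl_lt_of_open (h i (by omega)) (ih fun j hj => h j (by omega))

theorem gw_gt_of_open {v : ℕ → ℤ} {t x x' : ℝ} {i : ℕ}
    (h : ∀ j < i, InHalfO (t + v j) (gw v t j x)) (hx : x' < x) : gw v t i x' < gw v t i x := by
  induction i with
  | zero => exact hx
  | succ i ih =>
    rw [gw_succ_apply, gw_succ_apply]
    exact tdbl_gt_of_open (h i (by omega)) (ih fun j hj => h j (by omega))

/-- two points in the closed half circle of a letter and two points in the open half circle of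
the other letter are not linked -/
theorem parity {s m : ℤ} {σ T E X Y : ℝ} {c : ℤ} (hT : InHalf (σ + s) T) (hE : InHalf (σ + s) E)
    (hX : InHalfO (σ + m) X) (hY : InHalfO (σ + m) Y)
    (h1 : X < T + c) (h2 : T + c < Y) (h3 : Y < E + c) (h4 : E + c < X + 1) :
    ∃ u : ℤ, m = s + 2 * u := by
  rcases Int.even_or_odd' (m - s) with ⟨u, hu | hu⟩
  · exact ⟨u, by omega⟩
  exfalso
  obtain rfl : m = s + 2 * u + 1 := by omega
  obtain ⟨a, ha, ha'⟩ := hT
  obtain ⟨b, hb, hb'⟩ := hE
  obtain ⟨k, hk, hk'⟩ := hX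
  obtain ⟨l, hl, hl'⟩ := hY
  push_cast at hk hk' hl hl'
  have e1 : ((u + k : ℤ) : ℝ) < ((a + c : ℤ) : ℝ) := by push_cast; linarith
  have e2 : ((a + c : ℤ) : ℝ) < ((u + l + 1 : ℤ) : ℝ) := by push_cast; linarith
  have e3 : ((u + l : ℤ) : ℝ) < ((b + c : ℤ) : ℝ) := by push_cast; linarith
  have e4 : ((b + c : ℤ) : ℝ) < ((u + k + 2 : ℤ) : ℝ) := by push_cast; linarith
  have f1 := Int.cast_lt.1 e1
  have f2 := Int.cast_lt.1 e2
  have f3 := Int.cast_lt.1 e3
  have f4 := Int.cast_lt.1 e4
  omega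

/-- the nearest crossing fixed point on the left -/
theorem cross_left {G : ℝ → ℝ} (hG : Continuous G) {t z δ : ℝ} (htz : t < z) (ht : G t ≤ t)
    (hδ : 0 < δ) (hz : ∀ x, z - δ < x → x ≤ z → G x = z) :
    ∃ a, t ≤ a ∧ a < z ∧ G a = a ∧ ∀ x, a < x → x < z → x < G x := by
  set A : Set ℝ := Icc t z ∩ {x | G x ≤ x} ∩ {x | x ≤ z - δ} with hA
  have htA : t ∈ A := by
    refine ⟨⟨⟨le_rfl, htz.le⟩, ht⟩, ?_⟩
    by_contra hc
    simp only [mem_ofPred_eq, not_le] at hc
    have := hz t hc htz.le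
    linarith
  have hcomp : IsCompact A :=
    (isCompact_Icc.inter_right (isClosed_le hG continuous_id)).inter_right
      (isClosed_le continuous_id continuous_const)
  obtain ⟨a, haA, hmax⟩ := hcomp.exists_isGreatest ⟨t, htA⟩
  have hgt : ∀ x, a < x → x < z → x < G x := by
    intro x hx hxz
    rcases le_or_gt x (z - δ) with h | h
    · by_contra hc
      push Not at hc
      have : x ≤ a := hmax ⟨⟨⟨haA.1.1.1.trans hx.le, hxz.le⟩, hc⟩, h⟩
      linarith
    · rw [hz x h hxz.le]; exact hxz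
  have haz : a < z := by have := haA.2; simp only [mem_ofPred_eq] at this; linarith
  refine ⟨a, haA.1.1.1, haz, le_antisymm haA.1.2 ?_, hgt⟩
  have hcl : IsClosed {y : ℝ | y ≤ G y} := isClosed_le continuous_id hG
  have hmem : a ∈ closure (Ioo a z) := by
    rw [closure_Ioo haz.ne]; exact left_mem_Icc.2 haz.le
  exact closure_minimal (fun y hy => (hgt y hy.1 hy.2).le) hcl hmem

/-- the nearest crossing fixed point on the right -/
theorem cross_right {G : ℝ → ℝ} (hG : Continuous G) {t z δ : ℝ} (htz : z < t) (ht : t ≤ G t)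
    (hδ : 0 < δ) (hz : ∀ x, z ≤ x → x < z + δ → G x = z) :
    ∃ b, b ≤ t ∧ z < b ∧ G b = b ∧ ∀ x, z < x → x < b → G x < x := by
  obtain ⟨a, h1, h2, h3, h4⟩ := cross_left (G := fun x => - G (-x)) (t := -t) (z := -z) (δ := δ)
    (hG.comp continuous_neg).neg (by linarith) (by simpa using ht) hδ
    (fun x hx hx' => by rw [hz (-x) (by linarith) (by linarith)])
  refine ⟨-a, by linarith, by linarith, by linarith, fun x hx hx' => ?_⟩
  have := h4 (-x) (by linarith) (by linarith)
  rw [neg_neg] at this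
  linarith

theorem per_ext {P : ℕ → Prop} {M : ℕ} (hM : 0 < M) (h : ∀ i < M, P i)
    (hs : ∀ i, P i → P (i + M)) (i : ℕ) : P i := by
  induction i using Nat.strong_induction_on with
  | _ i ih =>
    rcases Nat.lt_or_ge i M with h1 | h1
    · exact h i h1
    · obtain ⟨d, rfl⟩ := Nat.exists_eq_add_of_le' h1
      exact hs d (ih d (by omega))

/-- the configuration -/
structure NBH (v : ℕ → ℤ) (n : ℕ) (t : ℝ) (e : ℤ) : Prop where
  hn : 2 ≤ n
  per : ∃ z : ℤ, 2 ^ n * t = t + z
  op : ∀ i, i + 1 < n → InHalfO (t + v i) (gw v t i t)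
  bd : 2 * gw v t (n - 1) t = t + e
  plus : ∀ x, t < x → x < t + 1 → x < tdbl (t + ((-e : ℤ) : ℝ)) (gw v t (n - 1) x)
  minus : ∀ x, t < x → x < t + 1 → tdbl (t + ((-e - 1 : ℤ) : ℝ)) (gw v t (n - 1) x) < x

/-- the doubling map after `n - 1` letters -/
noncomputable def RR (v : ℕ → ℤ) (n : ℕ) (t : ℝ) (e : ℤ) (x : ℝ) : ℝ := by
  classical
  exact if gw v t (n - 1) x < gw v t (n - 1) t + 1 / 2 then
    tdbl (t + ((-e : ℤ) : ℝ)) (gw v t (n - 1) x)
  else tdbl (t + ((-e - 1 : ℤ) : ℝ)) (gw v t (n - 1) x)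

theorem RR_pos {v : ℕ → ℤ} {n : ℕ} {t : ℝ} {e : ℤ} {x : ℝ}
    (h : gw v t (n - 1) x < gw v t (n - 1) t + 1 / 2) :
    RR v n t e x = tdbl (t + ((-e : ℤ) : ℝ)) (gw v t (n - 1) x) := by
  unfold RR; exact if_pos h

theorem RR_neg {v : ℕ → ℤ} {n : ℕ} {t : ℝ} {e : ℤ} {x : ℝ}
    (h : gw v t (n - 1) t + 1 / 2 ≤ gw v t (n - 1) x) :
    RR v n t e x = tdbl (t + ((-e - 1 : ℤ) : ℝ)) (gw v t (n - 1) x) := by
  unfold RR; exact if_neg (not_lt.2 h)

/-- the word of the cycle -/
noncomputable def om (v : ℕ → ℤ) (n : ℕ) (t : ℝ) (e : ℤ) (z : ℝ) (i : ℕ) : ℤ := by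
  classical
  exact if i % n = n - 1 then
    (if gw v t (n - 1) ((RR v n t e)^[i / n] z) < gw v t (n - 1) t + 1 / 2 then -e else -e - 1)
  else v (i % n)

namespace NBH

variable {v : ℕ → ℤ} {n : ℕ} {t : ℝ} {e : ℤ} (D : NBH v n t e)

include D

theorem h_gt {x : ℝ} (hx : t < x) : gw v t (n - 1) t < gw v t (n - 1) x :=
  gw_lt_of_open (fun j hj => D.op j (by omega)) hx

theorem h_lt {x : ℝ} (hx : x < t + 1) : gw v t (n - 1) x < gw v t (n - 1) t + 1 := by
  have h : gw v t (n - 1) (x - 1) < gw v t (n - 1) t :=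
    gw_gt_of_open (fun j hj => D.op j (by omega)) (by linarith)
  have h1 : gw v t (n - 1) (x - 1) = gw v t (n - 1) x - 1 := by
    have := (gw v t (n - 1)).map_sub_int x 1
    simpa using this
  linarith

theorem Rp_eq {x : ℝ} (h1 : gw v t (n - 1) t ≤ gw v t (n - 1) x)
    (h2 : gw v t (n - 1) x ≤ gw v t (n - 1) t + 1 / 2) :
    tdbl (t + ((-e : ℤ) : ℝ)) (gw v t (n - 1) x) = 2 * gw v t (n - 1) x - e := by
  have := D.bd
  rw [tdbl_lin e (by push_cast; linarith) (by push_cast; linarith)]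

theorem Rm_eq {x : ℝ} (h1 : gw v t (n - 1) t + 1 / 2 ≤ gw v t (n - 1) x)
    (h2 : gw v t (n - 1) x ≤ gw v t (n - 1) t + 1) :
    tdbl (t + ((-e - 1 : ℤ) : ℝ)) (gw v t (n - 1) x) = 2 * gw v t (n - 1) x - (e + 1) := by
  have := D.bd
  rw [tdbl_lin (e + 1) (by push_cast; linarith) (by push_cast; linarith)]
  push_cast; ring

theorem orb_per {x : ℝ} (h : Orb t x) : ∃ z : ℤ, 2 ^ n * x = x + z := by
  obtain ⟨i, m, rfl⟩ := h
  obtain ⟨z, hz⟩ := D.per
  refine ⟨2 ^ i * z + 2 ^ n * m - m, ?_⟩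
  have : (2 : ℝ) ^ n * (2 ^ i * t + m) = 2 ^ i * (2 ^ n * t) + 2 ^ n * m := by ring
  rw [this, hz]; push_cast; ring

theorem h_ne_half {x : ℝ} (h : Orb t x) : gw v t (n - 1) x ≠ gw v t (n - 1) t + 1 / 2 := by
  intro he
  have h1 : Orb t (gw v t (n - 1) x) := h.gw v (n - 1)
  have h2 : Orb t (gw v t (n - 1) t) := Orb.gw ⟨0, 0, by simp⟩ v (n - 1)
  obtain ⟨z1, hz1⟩ := D.orb_per h1
  obtain ⟨z2, hz2⟩ := D.orb_per h2
  have h3 : (2 : ℝ) ^ n * (1 / 2) = 2 ^ (n - 1) := by
    obtain ⟨m, rfl⟩ : ∃ m, n = m + 1 := ⟨n - 1, by have := D.hn; omega⟩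
    rw [pow_succ, Nat.add_sub_cancel]; ring
  rw [he, mul_add, hz2, h3] at hz1
  have h4 : ((2 * (z2 + 2 ^ (n - 1) - z1) : ℤ) : ℝ) = ((1 : ℤ) : ℝ) := by push_cast; linarith
  have h5 := Int.cast_injective h4
  omega

/-- one step of the return map on the orbit of `t` -/
theorem step {x : ℝ} (ho : Orb t x) (h1 : t < x) (h2 : x < t + 1) :
    Orb t (RR v n t e x) ∧ t < RR v n t e x ∧ RR v n t e x < t + 1 := by
  have h3 := D.h_gt h1
  have h4 := D.h_lt h2
  have hb := D.bd
  have h5 : Orb t (RR v n t e x) := by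
    unfold RR
    split_ifs
    · exact (ho.gw v (n - 1)).tdbl _
    · exact (ho.gw v (n - 1)).tdbl _
  refine ⟨h5, ?_⟩
  unfold RR
  split_ifs with hc
  · rw [D.Rp_eq h3.le hc.le]
    constructor <;> linarith
  · push Not at hc
    have h6 := lt_of_le_of_ne hc (D.h_ne_half ho).symm
    rw [D.Rm_eq hc h4.le]
    constructor <;> linarith

/-- a point of the orbit of `t` is flat before the end -/
theorem flat {x : ℝ} (ho : Orb t x) (h1 : t < x) (h2 : x < t + 1) :
    ∃ i, i + 1 < n ∧ ¬ InHalf (t + v i) (gw v t i x) := by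
  by_contra hc
  push Not at hc
  have h3 := D.h_gt h1
  have h4 := D.h_lt h2
  have hb := D.bd
  obtain ⟨z, hz⟩ := gw_int_of_lin (fun i (hi : i < n - 1) => hc i (by omega)) (n - 1) le_rfl
  obtain ⟨z', hz'⟩ := D.orb_per ho
  have h5 : 2 * gw v t (n - 1) x = x + ((z' + 2 * z : ℤ) : ℝ) := by
    have : (2 : ℝ) * 2 ^ (n - 1) = 2 ^ n := by
      obtain ⟨m, rfl⟩ : ∃ m, n = m + 1 := ⟨n - 1, by have := D.hn; omega⟩
      rw [pow_succ, Nat.add_sub_cancel]; ring
    rw [hz]; push_cast; linear_combination hz' + x * this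
  obtain ⟨-, h6, h7⟩ := D.step ho h1 h2
  have h8 : ∃ m : ℤ, RR v n t e x = x + m := by
    unfold RR
    split_ifs with hc'
    · exact ⟨z' + 2 * z - e, by rw [D.Rp_eq h3.le hc'.le, h5]; push_cast; ring⟩
    · exact ⟨z' + 2 * z - (e + 1), by
        rw [D.Rm_eq (by linarith) h4.le, h5]; push_cast; ring⟩
  obtain ⟨m, hm⟩ := h8
  rw [hm] at h6 h7
  have h9 : ((-1 : ℤ) : ℝ) < m := by push_cast; linarith
  have h10 : (m : ℝ) < ((1 : ℤ) : ℝ) := by push_cast; linarith
  have h11 := Int.cast_lt.1 h9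
  have h12 := Int.cast_lt.1 h10
  obtain rfl : m = 0 := by omega
  have h13 : RR v n t e x = x := by rw [hm]; simp
  unfold RR at h13
  split_ifs at h13
  · have := D.plus x h1 h2; linarith
  · have := D.minus x h1 h2; linarith

theorem mem_T {x : ℝ} (ho : Orb t x) (h1 : t < x) (h2 : x < t + 1) :
    x ∈ (Finset.range n).image fun i : ℕ => t + Int.fract (2 ^ i * t - t) := by
  have h3 : ∃ i < n, ∃ z : ℤ, x = 2 ^ i * t + z := by
    obtain ⟨i, z, rfl⟩ := ho
    obtain ⟨p, hp⟩ := D.per
    have hn := D.hn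
    clear h1 h2
    induction i using Nat.strong_induction_on generalizing z with
    | _ i ih =>
      rcases Nat.lt_or_ge i n with h1 | h1
      · exact ⟨i, h1, z, rfl⟩
      · obtain ⟨j, hj, z', hz'⟩ := ih (i - n) (by omega) (2 ^ (i - n) * p + z)
        refine ⟨j, hj, z', ?_⟩
        rw [← hz']
        have : (2 : ℝ) ^ i = 2 ^ (i - n) * 2 ^ n := by rw [← pow_add]; congr 1; omega
        rw [this, mul_assoc, hp]
        push_cast; ring
  obtain ⟨i, hi, z, rfl⟩ := h3
  refine Finset.mem_image.2 ⟨i, Finset.mem_range.2 hi, ?_⟩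
  have h4 : Int.fract (2 ^ i * t - t) = 2 ^ i * t - t + z := by
    rw [Int.fract_eq_iff]
    exact ⟨by linarith, by linarith, -z, by push_cast; ring⟩
  rw [h4]; ring

/-- a cycle of the return map -/
theorem exists_cycle : ∃ (z : ℝ) (p : ℕ), 0 < p ∧ (RR v n t e)^[p] z = z ∧
    ∀ l, Orb t ((RR v n t e)^[l] z) ∧ t < (RR v n t e)^[l] z ∧ (RR v n t e)^[l] z < t + 1 := by
  have hn := D.hn
  have h0 : Orb t (t + Int.fract t) := by
    refine ⟨1, -⌊t⌋, ?_⟩
    have := Int.floor_add_fract t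
    push_cast; linarith
  have h1 : 0 < Int.fract t := by
    refine lt_of_le_of_ne (Int.fract_nonneg t) fun h => ?_
    obtain ⟨k, hk1, hk2⟩ := D.op 0 (by omega)
    have h2 := Int.floor_add_fract t
    rw [← h] at h2
    simp only [gw_zero, coe_one, id] at hk1 hk2
    have h3 : ((v 0 + 2 * k : ℤ) : ℝ) < ((⌊t⌋ : ℤ) : ℝ) := by push_cast; linarith
    have h4 : ((⌊t⌋ : ℤ) : ℝ) < ((v 0 + 2 * k + 1 : ℤ) : ℝ) := by push_cast; linarith
    have h5 := Int.cast_lt.1 h3
    have h6 := Int.cast_lt.1 h4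
    omega
  have h2 : Int.fract t < 1 := Int.fract_lt_one t
  have hall : ∀ l, Orb t ((RR v n t e)^[l] (t + Int.fract t)) ∧
      t < (RR v n t e)^[l] (t + Int.fract t) ∧
      (RR v n t e)^[l] (t + Int.fract t) < t + 1 := by
    intro l
    induction l with
    | zero => exact ⟨h0, by simpa using h1, by simpa using h2⟩
    | succ l ih =>
      rw [Function.iterate_succ_apply']
      exact D.step ih.1 ih.2.1 ih.2.2
  obtain ⟨i, j, hij, he⟩ := Set.Finite.exists_lt_map_eq_of_forall_mem
    (f := fun l : ℕ => (RR v n t e)^[l] (t + Int.fract t))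
    (fun l => D.mem_T (hall l).1 (hall l).2.1 (hall l).2.2) (Finset.finite_toSet _)
  refine ⟨(RR v n t e)^[i] (t + Int.fract t), j - i, by omega, ?_, fun l => ?_⟩
  · rw [← Function.iterate_add_apply, show j - i + i = j by omega]
    exact he.symm
  · rw [← Function.iterate_add_apply]
    exact hall _

end NBH

/-! ### The word of the cycle -/

theorem om_last {v : ℕ → ℤ} {n : ℕ} {t : ℝ} {e : ℤ} {z : ℝ} (hn : 0 < n) (l : ℕ) :
    (gw v t (n - 1) ((RR v n t e)^[l] z) < gw v t (n - 1) t + 1 / 2 ∧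
      om v n t e z (n * l + (n - 1)) = -e) ∨
    (gw v t (n - 1) t + 1 / 2 ≤ gw v t (n - 1) ((RR v n t e)^[l] z) ∧
      om v n t e z (n * l + (n - 1)) = -e - 1) := by
  have h1 : (n * l + (n - 1)) % n = n - 1 := by
    rw [Nat.mul_add_mod, Nat.mod_eq_of_lt (by omega)]
  have h2 : (n * l + (n - 1)) / n = l := by
    rw [Nat.mul_add_div hn, Nat.div_eq_of_lt (by omega)]; rfl
  unfold om
  rw [h1, h2, if_pos rfl]
  split_ifs with h
  · exact Or.inl ⟨h, rfl⟩
  · exact Or.inr ⟨not_lt.1 h, rfl⟩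

theorem om_lt {v : ℕ → ℤ} {n : ℕ} {t : ℝ} {e : ℤ} {z : ℝ} (l : ℕ) {j : ℕ} (hj : j + 1 < n) :
    om v n t e z (n * l + j) = v j := by
  have h1 : (n * l + j) % n = j := by
    rw [Nat.mul_add_mod, Nat.mod_eq_of_lt (by omega)]
  unfold om
  rw [h1, if_neg (by omega)]

theorem om_per {v : ℕ → ℤ} {n : ℕ} {t : ℝ} {e : ℤ} {z : ℝ} {p : ℕ} (hn : 0 < n)
    (hp : (RR v n t e)^[p] z = z) (i : ℕ) : om v n t e z (i + n * p) = om v n t e z i := by
  unfold om
  rw [Nat.add_mul_mod_self_left, Nat.add_mul_div_left _ _ hn, Function.iterate_add_apply, hp]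

theorem block {v : ℕ → ℤ} {n : ℕ} {t : ℝ} {e : ℤ} {z : ℝ} (l i : ℕ) (hi : i + 1 ≤ n) :
    gw (fun j => om v n t e z (n * l + j)) t i = gw v t i :=
  gw_congr t i fun j hj => om_lt l (by omega)

theorem gw_block {v : ℕ → ℤ} {n : ℕ} {t : ℝ} {e : ℤ} {z : ℝ} (l i : ℕ) (hi : i + 1 ≤ n)
    (x : ℝ) : gw (om v n t e z) t (n * l + i) x = gw v t i (gw (om v n t e z) t (n * l) x) := by
  rw [gw_add, mul_apply, block l i hi]

theorem gw_block_succ {v : ℕ → ℤ} {n : ℕ} {t : ℝ} {e : ℤ} {z : ℝ} (hn : 0 < n) (l : ℕ)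
    (x : ℝ) : gw (om v n t e z) t (n * (l + 1)) x =
      tdbl (t + om v n t e z (n * l + (n - 1)))
        (gw v t (n - 1) (gw (om v n t e z) t (n * l) x)) := by
  rw [← gw_block l (n - 1) (by omega), ← gw_succ_apply]
  congr 2
  rw [Nat.mul_succ]; omega

/-- the situation with a word and a cycle -/
structure Cyc (v : ℕ → ℤ) (n : ℕ) (t : ℝ) (e : ℤ) (z : ℝ) (p : ℕ) : Prop where
  D : NBH v n t e
  p0 : 0 < p
  cyc : (RR v n t e)^[p] z = z
  orb : ∀ l, Orb t ((RR v n t e)^[l] z)
  gt : ∀ l, t < (RR v n t e)^[l] z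
  lt : ∀ l, (RR v n t e)^[l] z < t + 1

namespace Cyc

variable {v : ℕ → ℤ} {n : ℕ} {t : ℝ} {e : ℤ} {z : ℝ} {p : ℕ} (C : Cyc v n t e z p)

include C

theorem n0 : 0 < n := by have := C.D.hn; omega

theorem np0 : 0 < n * p := Nat.mul_pos C.n0 C.p0

theorem gw_z (l : ℕ) : gw (om v n t e z) t (n * l) z = (RR v n t e)^[l] z := by
  induction l with
  | zero => simp
  | succ l ih =>
    rw [gw_block_succ C.n0, ih, Function.iterate_succ_apply']
    rcases om_last (v := v) (t := t) (e := e) (z := z) C.n0 l with ⟨h1, h2⟩ | ⟨h1, h2⟩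
    · rw [h2, RR_pos h1]
    · rw [h2, RR_neg h1]

theorem gw_t (l : ℕ) : gw (om v n t e z) t (n * l) t = t := by
  induction l with
  | zero => simp
  | succ l ih =>
    have hb := C.D.bd
    rw [gw_block_succ C.n0, ih]
    rcases om_last (v := v) (t := t) (e := e) (z := z) C.n0 l with ⟨h1, h2⟩ | ⟨h1, h2⟩
    · rw [h2, C.D.Rp_eq le_rfl (by linarith)]; linarith
    · rw [h2, tdbl_lin e (by push_cast; linarith) (by push_cast; linarith)]; linarith

/-- both letters occur -/
theorem both : (∃ l < p, om v n t e z (n * l + (n - 1)) = -e) ∧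
    ∃ l < p, om v n t e z (n * l + (n - 1)) = -e - 1 := by
  constructor
  · by_contra hc
    push Not at hc
    have hstep : ∀ l, l + 1 ≤ p → (RR v n t e)^[l + 1] z < (RR v n t e)^[l] z := by
      intro l hl
      rcases om_last (v := v) (t := t) (e := e) (z := z) C.n0 l with ⟨-, h2⟩ | ⟨h1, -⟩
      · exact absurd h2 (hc l (by omega))
      · rw [Function.iterate_succ_apply', RR_neg h1]
        exact C.D.minus _ (C.gt l) (C.lt l)
    have h : ∀ l, l + 1 ≤ p → (RR v n t e)^[l + 1] z < z := by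
      intro l
      induction l with
      | zero => intro hl; simpa using hstep 0 hl
      | succ l ih => intro hl; exact (hstep _ hl).trans (ih (by omega))
    have h1 := h (p - 1) (by have := C.p0; omega)
    rw [show p - 1 + 1 = p by have := C.p0; omega, C.cyc] at h1
    exact lt_irrefl _ h1
  · by_contra hc
    push Not at hc
    have hstep : ∀ l, l + 1 ≤ p → (RR v n t e)^[l] z < (RR v n t e)^[l + 1] z := by
      intro l hl
      rcases om_last (v := v) (t := t) (e := e) (z := z) C.n0 l with ⟨h1, -⟩ | ⟨-, h2⟩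
      · rw [Function.iterate_succ_apply', RR_pos h1]
        exact C.D.plus _ (C.gt l) (C.lt l)
      · exact absurd h2 (hc l (by omega))
    have h : ∀ l, l + 1 ≤ p → z < (RR v n t e)^[l + 1] z := by
      intro l
      induction l with
      | zero => intro hl; simpa using hstep 0 hl
      | succ l ih => intro hl; exact (ih (by omega)).trans (hstep _ hl)
    have h1 := h (p - 1) (by have := C.p0; omega)
    rw [show p - 1 + 1 = p by have := C.p0; omega, C.cyc] at h1
    exact lt_irrefl _ h1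

theorem gw_shift_np {x : ℝ} (hx : gw (om v n t e z) t (n * p) x = x) (i : ℕ) :
    gw (om v n t e z) t (i + n * p) x = gw (om v n t e z) t i x := by
  rw [add_comm, gw_add, mul_apply, hx]
  congr 2
  funext j
  rw [add_comm, om_per C.n0 C.cyc]

/-- `t` is compatible with the word -/
theorem compat_t (i : ℕ) : InHalf (t + om v n t e z i) (gw (om v n t e z) t i t) := by
  have hn := C.n0
  have hi := Nat.div_add_mod i n
  have hm := Nat.mod_lt i hn
  set l := i / n
  set j := i % n
  rw [← hi, gw_block l j (by omega), C.gw_t]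
  rcases Nat.lt_or_ge (j + 1) n with h | h
  · rw [om_lt l h]; exact (C.D.op j h).inHalf
  · have hj : j = n - 1 := by omega
    rw [hj]
    have hb := C.D.bd
    rcases om_last (v := v) (t := t) (e := e) (z := z) C.n0 l with ⟨-, h2⟩ | ⟨-, h2⟩
    · rw [h2]; exact ⟨e, by push_cast; linarith, by push_cast; linarith⟩
    · rw [h2]; exact ⟨e, by push_cast; linarith, by push_cast; linarith⟩

/-- near `z` the return map is constant -/
theorem flat_z : ∃ δ > 0, ∀ y, |y - z| < δ → gw (om v n t e z) t (n * p) y = z := by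
  have h0 := C.orb 0
  have h1 := C.gt 0
  have h2 := C.lt 0
  simp only [Function.iterate_zero, id] at h0 h1 h2
  obtain ⟨i, hi, hni⟩ := C.D.flat h0 h1 h2
  rcases tdbl_cases (t + v i) (gw v t i z) with ⟨m, h3, h4, -⟩ | ⟨m, h3, h4, e4⟩
  · exact absurd ⟨m, h3, h4⟩ hni
  · have hopen : IsOpen {y : ℝ | (t + v i) / 2 + m + 1 / 2 < gw v t i y ∧
        gw v t i y < (t + v i) / 2 + m + 1} :=
      (isOpen_lt continuous_const (gw_continuous' v t i)).inter
        (isOpen_lt (gw_continuous' v t i) continuous_const)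
    obtain ⟨δ, hδ, hb⟩ := Metric.isOpen_iff.1 hopen z ⟨h3, h4⟩
    refine ⟨δ, hδ, fun y hy => ?_⟩
    obtain ⟨h5, h6⟩ := hb (show y ∈ Metric.ball z δ by rwa [Metric.mem_ball, Real.dist_eq])
    have h7 : gw v t (i + 1) y = gw v t (i + 1) z := by
      rw [gw_succ_apply, gw_succ_apply, e4, tdbl_flat m h5.le h6.le]
    have h8 : ∀ x, gw (om v n t e z) t (i + 1) x = gw v t (i + 1) x := by
      intro x
      have := gw_block (v := v) (n := n) (t := t) (e := e) (z := z) 0 (i + 1) (by omega) x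
      simpa using this
    have h9 : gw (om v n t e z) t (n * p) z = z := by rw [C.gw_z, C.cyc]
    have h10 : i + 1 ≤ n * p := by
      have := Nat.mul_le_mul_left n C.p0
      omega
    have h11 := gw_eq_of_eq (w := om v n t e z) (θ := t) (x := y) (y := z) (i := i + 1)
      (by rw [h8, h8, h7]) (n * p) h10
    rw [h11, h9]

/-- a compatible fixed point in `(t, t + 1)` is open compatible and its orbit avoids `t` -/
theorem good {a : ℝ} (h1 : t < a) (h2 : a < t + 1) (hf : gw (om v n t e z) t (n * p) a = a)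
    (hc : ∀ i < n * p, InHalf (t + om v n t e z i) (gw (om v n t e z) t i a)) :
    ∀ i, InHalfO (t + om v n t e z i) (gw (om v n t e z) t i a) := by
  have hn := C.n0
  have hnp := C.np0
  have hle : n ≤ n * p := Nat.le_mul_of_pos_right n C.p0
  have hno : ¬ Orb t a := by
    intro ho
    obtain ⟨i, hi, hni⟩ := C.D.flat ho h1 h2
    apply hni
    have h3 := hc i (by omega)
    have h4 := gw_block (v := v) (n := n) (t := t) (e := e) (z := z) 0 i (by omega) a
    have h5 := om_lt (v := v) (n := n) (t := t) (e := e) (z := z) 0 hi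
    simp only [mul_zero, zero_add, gw_zero, coe_one, id] at h4 h5
    rwa [h4, h5] at h3
  have hav : ∀ i ≤ n * p, ∀ m : ℤ, gw (om v n t e z) t i a ≠ t + m := by
    intro i hi m he
    obtain ⟨z1, hz1⟩ := gw_int_of_lin hc i hi
    obtain ⟨z2, hz2⟩ := gw_int_of_lin hc (n * p) le_rfl
    rw [he] at hz1
    rw [hf] at hz2
    apply hno
    refine ⟨n * p - i, 2 ^ (n * p - i) * (m - z1) + z2, ?_⟩
    have h3 : (2 : ℝ) ^ (n * p) = 2 ^ (n * p - i) * 2 ^ i := by rw [← pow_add]; congr 1; omega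
    rw [h3] at hz2
    push_cast
    linear_combination hz2 - 2 ^ (n * p - i) * hz1
  refine per_ext hnp ?_ ?_
  · intro i hi
    obtain ⟨k, hk, hk'⟩ := hc i hi
    have h3 := hav (i + 1) (by omega)
    have h4 : gw (om v n t e z) t (i + 1) a = 2 * gw (om v n t e z) t i a - k := by
      rw [gw_succ_apply, tdbl_lin k hk hk']
    refine ⟨k, lt_of_le_of_ne hk fun h => h3 (om v n t e z i + k) ?_,
      lt_of_le_of_ne hk' fun h => h3 (om v n t e z i + k + 1) ?_⟩
    · rw [h4, ← h]; push_cast; ring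
    · rw [h4, h]; push_cast; ring
  · intro i hi
    rw [C.gw_shift_np hf, om_per C.n0 C.cyc]
    exact hi

/-- the crossing fixed point on the left of `z` -/
theorem exists_a : ∃ a, t < a ∧ a < z ∧ gw (om v n t e z) t (n * p) a = a ∧
    ∀ i, InHalfO (t + om v n t e z i) (gw (om v n t e z) t i a) := by
  obtain ⟨δ, hδ, hz⟩ := C.flat_z
  have h1 := C.gt 0
  have h2 := C.lt 0
  simp only [Function.iterate_zero, id] at h1 h2
  obtain ⟨a, ha1, ha2, ha3, ha4⟩ := cross_left (G := gw (om v n t e z) t (n * p))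
    (gw_continuous' _ _ _) h1 (C.gw_t p).le hδ
    (fun x hx hx' => hz x (by rw [abs_lt]; constructor <;> linarith))
  have hc : ∀ i < n * p, ∃ k : ℤ, (t + om v n t e z i) / 2 + k ≤ gw (om v n t e z) t i a ∧
      gw (om v n t e z) t i a < (t + om v n t e z i) / 2 + k + 1 / 2 := by
    intro i hi
    have h3 := Int.floor_le (gw (om v n t e z) t i a - (t + om v n t e z i) / 2)
    have h4 := Int.lt_floor_add_one (gw (om v n t e z) t i a - (t + om v n t e z i) / 2)
    set k := ⌊gw (om v n t e z) t i a - (t + om v n t e z i) / 2⌋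
    refine ⟨k, by linarith, ?_⟩
    by_contra hcon
    push Not at hcon
    have hopen : IsOpen {y : ℝ | gw (om v n t e z) t i y < (t + om v n t e z i) / 2 + k + 1} :=
      isOpen_lt (gw_continuous' _ t i) continuous_const
    obtain ⟨ε, hε, hb⟩ := Metric.isOpen_iff.1 hopen a (by
      show gw (om v n t e z) t i a < _
      linarith)
    obtain ⟨x, hx1, hx2⟩ := exists_between (show a < min z (a + ε) from
      lt_min ha2 (by linarith))
    have hxz : x < z := hx2.trans_le (min_le_left _ _)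
    have hxe : x < a + ε := hx2.trans_le (min_le_right _ _)
    have h5 := hb (show x ∈ Metric.ball a ε by
      rw [Metric.mem_ball, Real.dist_eq, abs_lt]; constructor <;> linarith)
    have h5' : gw (om v n t e z) t i x < (t + om v n t e z i) / 2 + k + 1 := h5
    have h6 := (gw (om v n t e z) t i).monotone hx1.le
    have h7 : gw (om v n t e z) t (n * p) a = gw (om v n t e z) t (n * p) x := by
      refine gw_eq_of_eq (i := i + 1) ?_ (n * p) (by omega)
      rw [gw_succ_apply, gw_succ_apply, tdbl_flat k hcon (by linarith),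
        tdbl_flat k (by linarith) h5'.le]
    have h8 := ha4 x hx1 hxz
    rw [← h7, ha3] at h8
    linarith
  have hat : t < a := by
    refine lt_of_le_of_ne ha1 fun h => ?_
    subst h
    obtain ⟨-, l, hl, hle⟩ := C.both
    have hlp : n * l + (n - 1) < n * p := by
      have := Nat.mul_le_mul_left n (show l + 1 ≤ p by omega)
      rw [Nat.mul_succ] at this
      have := C.n0
      omega
    obtain ⟨k, hk, hk'⟩ := hc _ hlp
    rw [hle, gw_block l (n - 1) (by have := C.n0; omega), C.gw_t] at hk hk'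
    have hb := C.D.bd
    push_cast at hk hk'
    have e1 : ((2 * k : ℤ) : ℝ) ≤ ((2 * e + 1 : ℤ) : ℝ) := by push_cast; linarith
    have e2 : ((2 * e + 1 : ℤ) : ℝ) < ((2 * k + 1 : ℤ) : ℝ) := by push_cast; linarith
    have f1 := Int.cast_le.1 e1
    have f2 := Int.cast_lt.1 e2
    omega
  exact ⟨a, hat, ha2, ha3, C.good hat (ha2.trans h2) ha3 fun i hi => by
    obtain ⟨k, h3, h4⟩ := hc i hi
    exact ⟨k, h3, h4.le⟩⟩

/-- the crossing fixed point on the right of `z` -/
theorem exists_b : ∃ b, z < b ∧ b < t + 1 ∧ gw (om v n t e z) t (n * p) b = b ∧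
    ∀ i, InHalfO (t + om v n t e z i) (gw (om v n t e z) t i b) := by
  obtain ⟨δ, hδ, hz⟩ := C.flat_z
  have h1 := C.gt 0
  have h2 := C.lt 0
  simp only [Function.iterate_zero, id] at h1 h2
  have ht1 : ∀ l, gw (om v n t e z) t (n * l) (t + 1) = t + 1 := by
    intro l
    rw [CircleDeg1Lift.map_add_one, C.gw_t]
  obtain ⟨b, hb1, hb2, hb3, hb4⟩ := cross_right (G := gw (om v n t e z) t (n * p))
    (gw_continuous' _ _ _) h2 (ht1 p).ge hδ
    (fun x hx hx' => hz x (by rw [abs_lt]; constructor <;> linarith))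
  have hc : ∀ i < n * p, ∃ k : ℤ, (t + om v n t e z i) / 2 + k < gw (om v n t e z) t i b ∧
      gw (om v n t e z) t i b ≤ (t + om v n t e z i) / 2 + k + 1 / 2 := by
    intro i hi
    have h3 := Int.ceil_lt_add_one (gw (om v n t e z) t i b - (t + om v n t e z i) / 2)
    have h4 := Int.le_ceil (gw (om v n t e z) t i b - (t + om v n t e z i) / 2)
    obtain ⟨k, hk⟩ : ∃ k : ℤ, ⌈gw (om v n t e z) t i b - (t + om v n t e z i) / 2⌉ = k + 1 :=
      ⟨_, (sub_add_cancel _ 1).symm⟩
    rw [hk] at h3 h4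
    push_cast at h3 h4
    refine ⟨k, by linarith, ?_⟩
    by_contra hcon
    push Not at hcon
    have hopen : IsOpen {y : ℝ | (t + om v n t e z i) / 2 + k + 1 / 2 <
        gw (om v n t e z) t i y} := isOpen_lt continuous_const (gw_continuous' _ t i)
    obtain ⟨ε, hε, hb⟩ := Metric.isOpen_iff.1 hopen b hcon
    obtain ⟨x, hx1, hx2⟩ := exists_between (show max z (b - ε) < b from
      max_lt hb2 (by linarith))
    have hxz : z < x := (le_max_left _ _).trans_lt hx1
    have hxe : b - ε < x := (le_max_right _ _).trans_lt hx1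
    have h5 := hb (show x ∈ Metric.ball b ε by
      rw [Metric.mem_ball, Real.dist_eq, abs_lt]; constructor <;> linarith)
    have h5' : (t + om v n t e z i) / 2 + k + 1 / 2 < gw (om v n t e z) t i x := h5
    have h6 := (gw (om v n t e z) t i).monotone hx2.le
    have h7 : gw (om v n t e z) t (n * p) b = gw (om v n t e z) t (n * p) x := by
      refine gw_eq_of_eq (i := i + 1) ?_ (n * p) (by omega)
      rw [gw_succ_apply, gw_succ_apply, tdbl_flat k hcon.le (by linarith),
        tdbl_flat k h5'.le (by linarith)]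
    have h8 := hb4 x hxz hx2
    rw [← h7, hb3] at h8
    linarith
  have hbt : b < t + 1 := by
    refine lt_of_le_of_ne hb1 fun h => ?_
    subst h
    obtain ⟨⟨l, hl, hle⟩, -⟩ := C.both
    have hlp : n * l + (n - 1) < n * p := by
      have := Nat.mul_le_mul_left n (show l + 1 ≤ p by omega)
      rw [Nat.mul_succ] at this
      have := C.n0
      omega
    obtain ⟨k, hk, hk'⟩ := hc _ hlp
    rw [hle, gw_block l (n - 1) (by have := C.n0; omega), ht1,
      CircleDeg1Lift.map_add_one] at hk hk'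
    have hb := C.D.bd
    push_cast at hk hk'
    have e1 : ((2 * k : ℤ) : ℝ) < ((2 * e + 2 : ℤ) : ℝ) := by push_cast; linarith
    have e2 : ((2 * e + 2 : ℤ) : ℝ) ≤ ((2 * k + 1 : ℤ) : ℝ) := by push_cast; linarith
    have f1 := Int.cast_lt.1 e1
    have f2 := Int.cast_le.1 e2
    omega
  exact ⟨b, hb2, hbt, hb3, C.good (h1.trans hb2) hbt hb3 fun i hi => by
    obtain ⟨k, h3, h4⟩ := hc i hi
    exact ⟨k, h3.le, h4⟩⟩

/-- block boundaries stay in `(t, t + 1)` -/
theorem mem_blk {a : ℝ} (h1 : t < a) (h2 : a < t + 1)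
    (ha : ∀ i, InHalfO (t + om v n t e z i) (gw (om v n t e z) t i a)) (l : ℕ) :
    t < gw (om v n t e z) t (n * l) a ∧ gw (om v n t e z) t (n * l) a < t + 1 := by
  have h3 := gw_gt_of_open (i := n * l) (fun j _ => ha j) h1
  have h4 := gw_lt_of_open (i := n * l) (fun j _ => ha j) h2
  rw [C.gw_t] at h3
  rw [CircleDeg1Lift.map_add_one, C.gw_t] at h4
  exact ⟨h3, h4⟩

/-- the chord `{t, E}` is not linked with an image chord of `{a, b}` whose phase is not zero -/
theorem unlinked {a b E : ℝ}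
    (ha : ∀ i, InHalfO (t + om v n t e z i) (gw (om v n t e z) t i a))
    (hb : ∀ i, InHalfO (t + om v n t e z i) (gw (om v n t e z) t i b))
    (hE : ∀ i, InHalfO (t + om v n t e z i) (gw (om v n t e z) t i E)) (q D l : ℕ) (c : ℤ)
    (hD : 0 < D) (hD' : D < n)
    (h1 : gw (om v n t e z) t (n * q + D) a < t + c)
    (h2 : t + c < gw (om v n t e z) t (n * q + D) b)
    (h3 : gw (om v n t e z) t (n * q + D) b < gw (om v n t e z) t (n * l) E + c)
    (h4 : gw (om v n t e z) t (n * l) E + c < gw (om v n t e z) t (n * q + D) a + 1) :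
    False := by
  set W := om v n t e z with hW
  have key : ∀ j, (∃ c' : ℤ, gw W t (n * q + D + j) a < gw W t (n * l + j) t + c' ∧
      gw W t (n * l + j) t + c' < gw W t (n * q + D + j) b ∧
      gw W t (n * q + D + j) b < gw W t (n * l + j) E + c' ∧
      gw W t (n * l + j) E + c' < gw W t (n * q + D + j) a + 1) ∧
      ∃ u : ℤ, W (n * q + D + j) = W (n * l + j) + 2 * u := by
    intro j
    have hpar : (∃ c' : ℤ, gw W t (n * q + D + j) a < gw W t (n * l + j) t + c' ∧
      gw W t (n * l + j) t + c' < gw W t (n * q + D + j) b ∧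
      gw W t (n * q + D + j) b < gw W t (n * l + j) E + c' ∧
      gw W t (n * l + j) E + c' < gw W t (n * q + D + j) a + 1) →
      ∃ u : ℤ, W (n * q + D + j) = W (n * l + j) + 2 * u := by
      rintro ⟨c', e1, e2, e3, e4⟩
      exact parity (C.compat_t (n * l + j)) (hE (n * l + j)).inHalf (ha (n * q + D + j))
        (hb (n * q + D + j)) e1 e2 e3 e4
    suffices h : ∃ c' : ℤ, gw W t (n * q + D + j) a < gw W t (n * l + j) t + c' ∧
      gw W t (n * l + j) t + c' < gw W t (n * q + D + j) b ∧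
      gw W t (n * q + D + j) b < gw W t (n * l + j) E + c' ∧
      gw W t (n * l + j) E + c' < gw W t (n * q + D + j) a + 1 from ⟨h, hpar h⟩
    clear hpar
    induction j with
    | zero =>
      have h0 := C.gw_t l
      rw [← hW] at h0
      refine ⟨c, ?_, ?_, h3, h4⟩
      · rw [add_zero, add_zero, h0]; exact h1
      · rw [add_zero, add_zero, h0]; exact h2
    | succ j ih =>
      obtain ⟨c', e1, e2, e3, e4⟩ := ih
      obtain ⟨u, hu⟩ := parity (C.compat_t (n * l + j)) (hE (n * l + j)).inHalf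
        (ha (n * q + D + j)) (hb (n * q + D + j)) e1 e2 e3 e4
      rw [← hW] at hu
      have hgen : ∀ x : ℝ, tdbl (t + W (n * q + D + j)) (gw W t (n * l + j) x + c') =
          gw W t (n * l + (j + 1)) x + ((c' + u : ℤ) : ℝ) := by
        intro x
        rw [CircleDeg1Lift.map_add_int, hu]
        have h5 : t + ((W (n * l + j) + 2 * u : ℤ) : ℝ) = t + W (n * l + j) + 2 * (u : ℤ) := by
          push_cast; ring
        rw [h5, tdbl_add_two_mul, ← add_assoc (n * l) j 1, gw_succ_apply]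
        push_cast; ring
      refine ⟨c' + u, ?_, ?_, ?_, ?_⟩
      · rw [← hgen, ← add_assoc (n * q + D) j 1, gw_succ_apply]
        exact tdbl_lt_of_open (ha _) e1
      · rw [← hgen, ← add_assoc (n * q + D) j 1, gw_succ_apply]
        exact tdbl_gt_of_open (hb _) e2
      · rw [← hgen, ← add_assoc (n * q + D) j 1, gw_succ_apply]
        exact tdbl_lt_of_open (hb _) e3
      · rw [← hgen, ← add_assoc (n * q + D) j 1, gw_succ_apply, ← CircleDeg1Lift.map_add_one]
        refine tdbl_gt_of_open ?_ e4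
        obtain ⟨k, hk, hk'⟩ := ha (n * q + D + j)
        exact ⟨k + 1, by push_cast; linarith, by push_cast; linarith⟩
  -- all last letters have the parity of `v (n - 1 - D)`
  have h5 : ∀ m, ∃ u : ℤ, W (n * (q + m) + (n - 1)) = v (n - 1 - D) + 2 * u := by
    intro m
    obtain ⟨-, u, hu⟩ := key (n * m + (n - 1 - D))
    refine ⟨u, ?_⟩
    have e1 : n * q + D + (n * m + (n - 1 - D)) = n * (q + m) + (n - 1) := by
      rw [Nat.mul_add]; omega
    have e2 : n * l + (n * m + (n - 1 - D)) = n * (l + m) + (n - 1 - D) := by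
      rw [Nat.mul_add]; omega
    rw [e1, e2] at hu
    rw [hu, hW, om_lt (l + m) (by omega)]
  have h6 : ∀ r, ∃ u : ℤ, W (n * r + (n - 1)) = v (n - 1 - D) + 2 * u := by
    intro r
    have hp := C.p0
    obtain ⟨u, hu⟩ := h5 (r + q * p - q)
    refine ⟨u, ?_⟩
    have h7 : q ≤ q * p := Nat.le_mul_of_pos_right q hp
    have h8 : q + (r + q * p - q) = r + q * p := by omega
    rw [h8] at hu
    rw [← hu]
    have h9 : ∀ s : ℕ, W (n * (r + s * p) + (n - 1)) = W (n * r + (n - 1)) := by
      intro s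
      induction s with
      | zero => simp
      | succ s ih =>
        rw [← ih]
        have := om_per (v := v) (t := t) (e := e) C.n0 C.cyc (n * (r + s * p) + (n - 1))
        rw [hW, ← this]
        congr 1
        ring
    rw [h9]
  obtain ⟨⟨l1, -, e1⟩, l2, -, e2⟩ := C.both
  obtain ⟨u1, hu1⟩ := h6 l1
  obtain ⟨u2, hu2⟩ := h6 l2
  rw [← hW] at e1 e2
  omega

theorem false : False := by
  obtain ⟨a, ha1, ha2, ha3, ha⟩ := C.exists_a
  obtain ⟨b, hb1, hb2, hb3, hb⟩ := C.exists_b
  have hz1 := C.gt 0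
  have hz2 := C.lt 0
  simp only [Function.iterate_zero, id] at hz1 hz2
  have hab : a < b := ha2.trans hb1
  have hba : b < a + 1 := by linarith
  have hnp := C.np0
  set W := om v n t e z with hW
  have hlt : ∀ i, gw W t i a < gw W t i b := fun i => gw_lt_of_open (fun j _ => ha j) hab
  have hlt1 : ∀ i, gw W t i b < gw W t i a + 1 := by
    intro i
    rw [← CircleDeg1Lift.map_add_one]
    exact gw_lt_of_open (fun j _ => hb j) hba
  -- the shortest image
  obtain ⟨i0, -, hmin⟩ := Finset.exists_min_image (Finset.range (n * p))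
    (fun i => gw W t i b - gw W t i a) ⟨0, Finset.mem_range.2 hnp⟩
  have hmin' : ∀ i, gw W t i0 b - gw W t i0 a ≤ gw W t i b - gw W t i a := by
    refine per_ext hnp (fun i hi => hmin i (Finset.mem_range.2 hi)) fun i hi => ?_
    rw [C.gw_shift_np ha3, C.gw_shift_np hb3]
    exact hi
  obtain ⟨s, hs⟩ : ∃ s, s + 1 = i0 + n * p := ⟨i0 + n * p - 1, by omega⟩
  have hmin2 : ∀ i, gw W t (s + 1) b - gw W t (s + 1) a ≤ gw W t i b - gw W t i a := by
    intro i
    rw [hs, C.gw_shift_np ha3, C.gw_shift_np hb3]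
    exact hmin' i
  -- its short arc contains `t`
  obtain ⟨c, hc1, hc2⟩ : ∃ c : ℤ, gw W t (s + 1) a < t + c ∧ t + c < gw W t (s + 1) b := by
    obtain ⟨k, hk, hk'⟩ := ha s
    obtain ⟨k', hl, hl'⟩ := hb s
    have e1 : gw W t (s + 1) a = 2 * gw W t s a - k := by
      rw [gw_succ_apply, tdbl_lin k hk.le hk'.le]
    have e2 : gw W t (s + 1) b = 2 * gw W t s b - k' := by
      rw [gw_succ_apply, tdbl_lin k' hl.le hl'.le]
    have h1 := hlt s
    have h2 := hlt1 s
    have h3 := hmin2 s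
    have h4 : (k : ℝ) < ((k' + 1 : ℤ) : ℝ) := by push_cast; linarith
    have h5 : (k' : ℝ) < ((k + 2 : ℤ) : ℝ) := by push_cast; linarith
    have h6 := Int.cast_lt.1 h4
    have h7 := Int.cast_lt.1 h5
    have h8 : k' = k + 1 := by
      rcases (show k' = k ∨ k' = k + 1 by omega) with h | h
      · exfalso
        rw [e1, e2, h] at h3
        linarith
      · exact h
    refine ⟨om v n t e z s + k + 1, ?_, ?_⟩
    · rw [e1]; push_cast; linarith
    · rw [e2, h8]; rw [h8] at hl; push_cast at hl ⊢; linarith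
  -- its phase is not zero
  have hn := C.n0
  have hi := Nat.div_add_mod (s + 1) n
  have hm := Nat.mod_lt (s + 1) hn
  set q := (s + 1) / n
  set d := (s + 1) % n
  have hd : 0 < d := by
    rcases Nat.eq_zero_or_pos d with h | h
    · exfalso
      rw [h, add_zero] at hi
      rw [← hi] at hc1 hc2
      have h1 := (C.mem_blk ha1 (ha2.trans hz2) ha q).1
      have h2 := (C.mem_blk (hz1.trans hb1) hb2 hb q).2
      have h3 : ((0 : ℤ) : ℝ) < c := by push_cast; rw [← hW] at h1; linarith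
      have h4 : (c : ℝ) < ((1 : ℤ) : ℝ) := by push_cast; rw [← hW] at h2; linarith
      have h5 := Int.cast_lt.1 h3
      have h6 := Int.cast_lt.1 h4
      omega
    · exact h
  rw [← hi] at hc1 hc2 hmin2
  have hL := hlt (n * q + d)
  have hL1 := hlt1 (n * q + d)
  -- all blocks contain the complement
  have hX : ∀ l, gw W t (n * l) a + c ≤ gw W t (n * q + d) b := by
    intro l
    by_contra hcon
    push Not at hcon
    have h1 := (C.mem_blk ha1 (ha2.trans hz2) ha l).1
    have h2 := (C.mem_blk (hz1.trans hb1) hb2 hb l).2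
    rw [← hW] at h1 h2
    rcases lt_or_ge (gw W t (n * l) a + c) (gw W t (n * q + d) a + 1) with h3 | h3
    · exact C.unlinked ha hb ha q d l c hd hm hc1 hc2 hcon h3
    · have := hmin2 (n * l)
      linarith
  have hY : ∀ l, gw W t (n * q + d) a + 1 ≤ gw W t (n * l) b + c := by
    intro l
    by_contra hcon
    push Not at hcon
    have h1 := (C.mem_blk ha1 (ha2.trans hz2) ha l).1
    have h2 := (C.mem_blk (hz1.trans hb1) hb2 hb l).2
    rw [← hW] at h1 h2
    rcases lt_or_ge (gw W t (n * q + d) b) (gw W t (n * l) b + c) with h3 | h3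
    · exact C.unlinked ha hb hb q d l c hd hm hc1 hc2 h3 hcon
    · have := hmin2 (n * l)
      linarith
  -- the common point
  have hpt : ∀ l, gw W t (n * l) a ≤ gw W t (n * q + d) b - c ∧
      gw W t (n * q + d) b - c ≤ gw W t (n * l) b := by
    intro l
    have h1 := hX l
    have h2 := hY l
    constructor <;> linarith
  have hbd := C.D.bd
  have hend : ∀ (E : ℝ), t < E → E < t + 1 →
      (∀ i, InHalfO (t + om v n t e z i) (gw (om v n t e z) t i E)) → ∀ l,
      (om v n t e z (n * l + (n - 1)) = -e → gw v t (n - 1) (gw W t (n * l) E) <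
        gw v t (n - 1) t + 1 / 2) ∧
      (om v n t e z (n * l + (n - 1)) = -e - 1 → gw v t (n - 1) t + 1 / 2 <
        gw v t (n - 1) (gw W t (n * l) E)) := by
    intro E hE1 hE2 hE l
    obtain ⟨h1, h2⟩ := C.mem_blk hE1 hE2 hE l
    have h3 := C.D.h_gt h1
    have h4 := C.D.h_lt h2
    obtain ⟨k, hk, hk'⟩ := hE (n * l + (n - 1))
    rw [gw_block l (n - 1) (by omega)] at hk hk'
    rw [hW]
    constructor
    · intro he
      rw [he] at hk hk'
      push_cast at hk hk'
      have e1 : ((e : ℤ) : ℝ) < ((k + 1 : ℤ) : ℝ) := by push_cast; linarith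
      have e2 : ((k : ℤ) : ℝ) < ((e + 1 : ℤ) : ℝ) := by push_cast; linarith
      have f1 := Int.cast_lt.1 e1
      have f2 := Int.cast_lt.1 e2
      obtain rfl : k = e := by omega
      linarith
    · intro he
      rw [he] at hk hk'
      push_cast at hk hk'
      have e1 : ((e : ℤ) : ℝ) < ((k : ℤ) : ℝ) := by push_cast; linarith
      have e2 : ((k : ℤ) : ℝ) < ((e + 2 : ℤ) : ℝ) := by push_cast; linarith
      have f1 := Int.cast_lt.1 e1
      have f2 := Int.cast_lt.1 e2
      obtain rfl : k = e + 1 := by omega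
      push_cast at hk
      linarith
  obtain ⟨⟨l1, -, e1⟩, l2, -, e2⟩ := C.both
  have h1 := (hend b (hz1.trans hb1) hb2 hb l1).1 e1
  have h2 := (hend a ha1 (ha2.trans hz2) ha l2).2 e2
  have h3 := (gw v t (n - 1)).monotone (hpt l1).2
  have h4 := (gw v t (n - 1)).monotone (hpt l2).1
  linarith

end Cyc

theorem NBH.false {v : ℕ → ℤ} {n : ℕ} {t : ℝ} {e : ℤ} (D : NBH v n t e) : False := by
  obtain ⟨z, p, hp, hc, h⟩ := D.exists_cycle
  exact Cyc.false ⟨D, hp, hc, fun l => (h l).1, fun l => (h l).2.1, fun l => (h l).2.2⟩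

end NB

/-- **NOT BOTH.**  `t` is `n`-periodic, `v` and `w` are two words which agree before the last
letter and whose last letters have different parity, `t` is open compatible with the letters
`v 0, …, v (n - 2)`.  If the map of `v` is above the identity on `(t, t + 1)` then the map of
`w` is not below the identity on `(t, t + 1)`. -/
theorem not_both {v w : ℕ → ℤ} {n : ℕ} {t : ℝ} {N N' : ℤ} (hn : 2 ≤ n)
    (hper : ∃ z : ℤ, 2 ^ n * t = t + z)
    (hop : ∀ i, i + 1 < n → InHalfO (t + v i) (gw v t i t))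
    (hvw : ∀ i, i + 1 < n → w i = v i) (hodd : Odd (w (n - 1) - v (n - 1)))
    (hN : gw v t n t = t + N) (hN' : gw w t n t = t + N')
    (hv : ∀ x, t < x → x < t + 1 → x + N < gw v t n x) :
    ∃ x, t < x ∧ x < t + 1 ∧ x + N' ≤ gw w t n x := by
  by_contra hc
  push Not at hc
  obtain ⟨m, rfl⟩ : ∃ m, n = m + 1 := ⟨n - 1, by omega⟩
  rw [Nat.add_sub_cancel] at hodd
  have hop' : ∀ i < m, InHalfO (t + v i) (gw v t i t) := fun i hi => hop i (by omega)
  have hgw : ∀ x, gw w t m x = gw v t m x := fun x => by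
    rw [gw_congr t m fun i hi => hvw i (by omega)]
  obtain ⟨e, hbd⟩ : ∃ e : ℤ, 2 * gw v t m t = t + e := by
    obtain ⟨z, hz⟩ := hper
    obtain ⟨z', hz'⟩ := gw_int_of_lin (fun i (hi : i < m) => (hop' i hi).inHalf) m le_rfl
    refine ⟨z + 2 * z', ?_⟩
    rw [hz']
    push_cast
    rw [pow_succ] at hz
    linarith
  -- the parity of the last letter of `v`
  have hpar : ∃ u : ℤ, v m = -e + 2 * u := by
    rcases Int.even_or_odd' (v m + e) with ⟨u, hu | hu⟩
    · exact ⟨u, by omega⟩
    exfalso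
    have h1 : v m = -e - 1 + 2 * (u + 1) := by omega
    -- the map is flat on the right of `t`
    have h2 : ∀ x, t ≤ x → gw v t m x ≤ gw v t m t + 1 / 2 → gw v t (m + 1) x = t + (u + 1) := by
      intro x hx hx'
      have h3 := (gw v t m).monotone hx
      have h4 : t + (v m : ℝ) = t + ((-e - 1 : ℤ) : ℝ) + 2 * ((u + 1 : ℤ) : ℝ) := by
        rw [h1]; push_cast; ring
      rw [gw_succ_apply, h4, tdbl_add_two_mul, tdbl_flat e (by push_cast; linarith)
        (by push_cast; linarith)]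
      push_cast; ring
    have h3 := h2 t le_rfl (by linarith)
    rw [hN] at h3
    have h4 : (N : ℝ) = u + 1 := by linarith
    have hopen : IsOpen {x : ℝ | gw v t m x < gw v t m t + 1 / 2} :=
      isOpen_lt (gw_continuous' _ t m) continuous_const
    obtain ⟨ε, hε, hb⟩ := Metric.isOpen_iff.1 hopen t (by
      show gw v t m t < gw v t m t + 1 / 2
      linarith)
    obtain ⟨x, hx1, hx2⟩ := exists_between (show t < min (t + 1) (t + ε) from
      lt_min (by linarith) (by linarith))
    have hx3 : x < t + 1 := hx2.trans_le (min_le_left _ _)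
    have hx4 : x < t + ε := hx2.trans_le (min_le_right _ _)
    have h5 := hb (show x ∈ Metric.ball t ε by
      rw [Metric.mem_ball, Real.dist_eq, abs_lt]; constructor <;> linarith)
    have h5' : gw v t m x < gw v t m t + 1 / 2 := h5
    have h6 := hv x hx1 hx3
    rw [h2 x hx1.le h5'.le] at h6
    linarith
  obtain ⟨u, hu⟩ := hpar
  obtain ⟨r, hr⟩ := hodd
  obtain ⟨u', hu'⟩ : ∃ u' : ℤ, w m = -e - 1 + 2 * u' := ⟨r + u + 1, by omega⟩
  have hRp : ∀ x, gw v t (m + 1) x = tdbl (t + ((-e : ℤ) : ℝ)) (gw v t m x) + u := by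
    intro x
    have h4 : t + (v m : ℝ) = t + ((-e : ℤ) : ℝ) + 2 * (u : ℝ) := by
      rw [hu]; push_cast; ring
    rw [gw_succ_apply, h4, tdbl_add_two_mul]
  have hRm : ∀ x, gw w t (m + 1) x = tdbl (t + ((-e - 1 : ℤ) : ℝ)) (gw v t m x) + u' := by
    intro x
    have h4 : t + (w m : ℝ) = t + ((-e - 1 : ℤ) : ℝ) + 2 * (u' : ℝ) := by
      rw [hu']; push_cast; ring
    rw [gw_succ_apply, hgw, h4, tdbl_add_two_mul]
  have e1 : (N : ℝ) = u := by
    rw [hRp, tdbl_lin e (by push_cast; linarith) (by push_cast; linarith)] at hN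
    linarith
  have e2 : (N' : ℝ) = u' := by
    rw [hRm, tdbl_lin e (by push_cast; linarith) (by push_cast; linarith)] at hN'
    linarith
  refine NB.NBH.false (v := v) (n := m + 1) (t := t) (e := e)
    ⟨hn, hper, hop, by simpa using hbd, fun x h1 h2 => ?_, fun x h1 h2 => ?_⟩
  · have := hv x h1 h2
    rw [hRp, e1] at this
    rw [Nat.add_sub_cancel]
    linarith
  · have := hc x h1 h2
    rw [hRm, e2] at this
    rw [Nat.add_sub_cancel]
    linarith

end Pool.Agent.Work.MLC.Circ
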