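import Pool.Agent.Work.MLC.Lab54f
import Pool.Agent.Work.MLC.NotBoth73

set_option autoImplicit false

/-! # One-ended separation, unconditional (helper54) -/

namespace Pool.Agent.Work.MLC

open Set Circ CircleDeg1Lift Filter Topology

/-- `NB` from `Circ.not_both` -/
theorem nb : NB := by
  intro n w t k M h hn2 _ hM
  have hn := h.pos
  refine not_both (v := w) (w := flw n w) (N := k) hn2 ?_ ?_ ?_ ?_ h.fix hM ?_
  · obtain ⟨a, ha⟩ := h.per
    exact ⟨a, by linarith⟩
  · intro i hi
    obtain ⟨m, hm⟩ := gw_lin w t t i fun j _ => by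
      obtain ⟨l, h1, h2⟩ := h.ho j
      exact ⟨l, h1, h2.le⟩
    obtain ⟨l, h1, h2⟩ := h.ho i
    have h3 := lt_of_le_of_ne h1 (Ne.symm (h.not_start (by
      rw [Nat.mod_eq_of_lt hi]; omega) l))
    rw [hm]
    refine ⟨l - m, ?_, ?_⟩ <;> push_cast <;> linarith
  · intro i hi
    exact flw_of_lt w hi
  · rw [flw_last w (show n - 1 + 1 = n by omega)]
    exact ⟨-w (n - 1), by ring⟩
  · intro x h1 h2
    refine lt_of_le_of_ne (h.above x) fun he => ?_
    obtain ⟨z, hz⟩ := h.uniq x he.symm
    have f1 : ((0 : ℤ) : ℝ) < z := by push_cast; linarith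
    have f2 : (z : ℝ) < ((1 : ℤ) : ℝ) := by push_cast; linarith
    have f3 : 0 < z := by exact_mod_cast f1
    have f4 : z < 1 := by exact_mod_cast f2
    omega

/-- **the separation of the labels** -/
theorem sep54 : Pri.SEP (fun n => 5 * n ^ 2) := sep_of_NB nb

end Pool.Agent.Work.MLC
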