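import Pool.Agent.Work.MLC.Sec57

set_option autoImplicit false

/-! # Labels fill the half disc, and the count (helper57, count argument of helper59)

`B` is a preconnected open set in the logarithmic plane, `F` a locally constant map on the part of the
curve `Per n` over `exp '' B` with values in a finite set of labels. If every label occurs, then
every label occurs over every point of `B`; if the number of labels is the maximal number of points
of the curve over one multiplier, then the multiplier is locally injective over `B`. -/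

namespace Pool.Agent.Work.MLC

open Filter Topology Metric Set

/-- every label occurs over every point -/
theorem labels_fill {n : ℕ} (hn : 0 < n) {B : Set ℂ} (hB : IsOpen B) (hBc : IsPreconnected B)
    (h1 : ∀ L ∈ B, Complex.exp L ≠ 1) (h2 : ∀ L ∈ B, ‖Complex.exp L‖ < 23 / 10)
    {Lab : Type*} (F : ℂ × ℂ → Lab)
    (hF : ∀ x ∈ Per n, ∀ L ∈ B, mul n x = Complex.exp L → ∀ᶠ x' in 𝓝 x, x' ∈ Per n → F x' = F x)
    {j : Lab} {x₀ : ℂ × ℂ} (hx₀ : x₀ ∈ Per n) {L₀ : ℂ} (hL₀ : L₀ ∈ B)
    (hm₀ : mul n x₀ = Complex.exp L₀) (hj : F x₀ = j) :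
    ∀ L ∈ B, ∃ x ∈ Per n, mul n x = Complex.exp L ∧ F x = j := by
  set S : Set ℂ := {L | ∃ x ∈ Per n, mul n x = Complex.exp L ∧ F x = j} with hS
  -- interior
  have hopen : ∀ L ∈ B, L ∈ S → ∀ᶠ L' in 𝓝 L, L' ∈ S := by
    rintro L hL ⟨x, hx, hm, hFx⟩
    have h3 := mul_open hn hx (by rw [hm]; exact h1 L hL) (by rw [hm]; exact h2 L hL)
      (hF x hx L hL hm)
    rw [hm] at h3
    filter_upwards [Complex.continuous_exp.continuousAt.eventually h3] with L' hL'
    obtain ⟨x', ⟨hx'1, hx'2⟩, hx'3⟩ := hL'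
    exact ⟨x', hx'2, hx'3, (hx'1 hx'2).trans hFx⟩
  -- closedness
  have hclosed : ∀ L ∈ B, L ∈ closure S → L ∈ S := by
    intro L hL hcl
    obtain ⟨r, hr, hrB⟩ := Metric.mem_nhds_iff.1 (hB.mem_nhds hL)
    obtain ⟨u, hu, hut⟩ := mem_closure_iff_seq_limit.1 hcl
    choose x hx hm hFx using hu
    have hev : ∀ᶠ k in atTop, u k ∈ closedBall L (r / 2) :=
      hut.eventually (Metric.closedBall_mem_nhds L (by linarith))
    have hKB : closedBall L (r / 2) ⊆ B := fun z hz => hrB (by
      rw [mem_closedBall] at hz; rw [mem_ball]; linarith)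
    have hK : IsCompact (Per n ∩ mul n ⁻¹' (Complex.exp '' closedBall L (r / 2))) := by
      refine isCompact_Per hn (((isCompact_closedBall L (r / 2)).image
        Complex.continuous_exp).isClosed) ?_
      rintro _ ⟨L', hL', rfl⟩
      exact h2 L' (hKB hL')
    obtain ⟨N, hN⟩ := eventually_atTop.1 hev
    obtain ⟨a, ha, φ, hφ, hφt⟩ := hK.tendsto_subseq (x := fun k => x (k + N)) fun k =>
      ⟨hx _, by
        refine ⟨u (k + N), hN _ (by omega), ?_⟩
        exact (hm _).symm⟩
    have hut' : Tendsto (fun k => u (φ k + N)) atTop (𝓝 L) :=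
      hut.comp ((tendsto_add_atTop_nat N).comp hφ.tendsto_atTop)
    have hma : mul n a = Complex.exp L := by
      have h3 : Tendsto (fun k => mul n (x (φ k + N))) atTop (𝓝 (mul n a)) :=
        ((continuous_mul' n).tendsto a).comp hφt
      have h4 : Tendsto (fun k => Complex.exp (u (φ k + N))) atTop (𝓝 (Complex.exp L)) :=
        (Complex.continuous_exp.tendsto L).comp hut'
      refine tendsto_nhds_unique h3 (h4.congr fun k => (hm _).symm)
    have h5 := hF a ha.1 L hL hma
    obtain ⟨k, hk⟩ := (hφt.eventually h5).exists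
    exact ⟨a, ha.1, hma, (hk (hx _)).symm.trans (hFx _)⟩
  intro L hL
  by_contra hcon
  have hpre := hBc (interior S) (closure S)ᶜ isOpen_interior isClosed_closure.isOpen_compl
    (by
      intro L' hL'
      by_cases h : L' ∈ closure S
      · left
        exact mem_interior_iff_mem_nhds.2 (hopen L' hL' (hclosed L' hL' h))
      · exact Or.inr h)
    ⟨L₀, hL₀, mem_interior_iff_mem_nhds.2 (hopen L₀ hL₀ ⟨x₀, hx₀, hm₀, hj⟩)⟩
    ⟨L, hL, fun h => hcon (hclosed L hL h)⟩
  obtain ⟨z, -, hz1, hz2⟩ := hpre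
  exact hz2 (subset_closure (interior_subset hz1))

/-- **the count**: if all labels occur and the number of labels is the maximal number of points over
one multiplier then the multiplier is locally injective over `B` -/
theorem locInj_of_labels {n : ℕ} (hn : 0 < n) {B : Set ℂ} (hB : IsOpen B)
    (hBc : IsPreconnected B) (h1 : ∀ L ∈ B, Complex.exp L ≠ 1)
    (h2 : ∀ L ∈ B, ‖Complex.exp L‖ < 23 / 10) {Lab : Type*} [Fintype Lab] (F : ℂ × ℂ → Lab)
    (hF : ∀ x ∈ Per n, ∀ L ∈ B, mul n x = Complex.exp L → ∀ᶠ x' in 𝓝 x, x' ∈ Per n → F x' = F x)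
    (hall : ∀ j : Lab, ∃ x ∈ Per n, ∃ L ∈ B, mul n x = Complex.exp L ∧ F x = j)
    (hcount : ∀ (S : Finset (ℂ × ℂ)) (l : ℂ), l ≠ 1 → (∀ x ∈ S, x ∈ Per n ∧ mul n x = l) →
      S.card ≤ Fintype.card Lab ∧ (S.card = Fintype.card Lab → ∀ x ∈ S, LocInj n x)) :
    ∀ x ∈ Per n, ∀ L ∈ B, mul n x = Complex.exp L → LocInj n x := by
  classical
  intro x hx L hL hm
  have h3 : ∀ j : Lab, ∃ x ∈ Per n, mul n x = Complex.exp L ∧ F x = j := by
    intro j
    obtain ⟨x₀, hx₀, L₀, hL₀, hm₀, hj⟩ := hall j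
    exact labels_fill hn hB hBc h1 h2 F hF hx₀ hL₀ hm₀ hj L hL
  choose g hg1 hg2 hg3 using h3
  have hginj : Function.Injective g := fun i j hij => by rw [← hg3 i, ← hg3 j, hij]
  set S : Finset (ℂ × ℂ) := Finset.univ.image g with hS
  have hScard : S.card = Fintype.card Lab := by
    rw [hS, Finset.card_image_of_injective _ hginj, Finset.card_univ]
  have hSmem : ∀ z ∈ S, z ∈ Per n ∧ mul n z = Complex.exp L := by
    intro z hz
    obtain ⟨j, -, rfl⟩ := Finset.mem_image.1 hz
    exact ⟨hg1 j, hg2 j⟩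
  have hxS : x ∈ S := by
    by_contra hcon
    have h4 := (hcount (insert x S) (Complex.exp L) (h1 L hL) (by
      intro z hz
      rcases Finset.mem_insert.1 hz with rfl | hz
      · exact ⟨hx, hm⟩
      · exact hSmem z hz)).1
    rw [Finset.card_insert_of_notMem hcon, hScard] at h4
    omega
  exact (hcount S (Complex.exp L) (h1 L hL) hSmem).2 hScard x hxS

end Pool.Agent.Work.MLC
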