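import Pool.Agent.Work.MLC.PortDefs
import Pool.Agent.Work.MLC.Stab4c
import Pool.Agent.Work.MLC.Strip0
import Pool.Agent.Work.MLC.Label57
import Pool.Agent.Work.MLC.Curve57

set_option autoImplicit false

/-! # (5a) The label at parameters of the Mandelbrot set (helper59)

`labM n c b` = label of the arc of angles fitting the portrait of landing rays of `b`. It is well
defined (union of two portraits) and locally constant, and near `(c₀, b₀)` it is the label of every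
exterior pair. -/

namespace Pool.Agent.Work.MLC

open Filter Topology Metric Set Complex
open Pool.Agent.MLC (InHalf Portrait Linked)

/-- `(θ, w)` fits the portrait generated by `B` -/
def Fits (c b : ℂ) (B : Set ℝ) (θ : ℝ) (w : ℕ → ℤ) : Prop :=
  ∀ i, Pool.Agent.MLC.InHalf (port c b B i) θ (w i)

lemma Lands.push59 {c β b} (h : Lands c β b) (j : ℕ) : Lands c (2 ^ j * β) (it c j b) := by
  obtain ⟨R, hR⟩ := h
  exact ⟨_, hR.push_it j⟩

lemma Lands.add59 {c β b} (h : Lands c β b) (m : ℤ) : Lands c (β + m) b := by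
  obtain ⟨R, hR⟩ := h
  exact ⟨_, hR.add_int m⟩

lemma Lands.uniq59 {c β b b'} (h : Lands c β b) (h' : Lands c β b') : b = b' := by
  obtain ⟨R, hR⟩ := h
  obtain ⟨R', hR'⟩ := h'
  exact hR.b_unique hR'

lemma pow_mem_port {c b : ℂ} {B : Set ℝ} {β : ℝ} (hβ : β ∈ B) (h : Lands c β b) (i : ℕ) :
    2 ^ i * β ∈ port c b B i :=
  ⟨⟨β, hβ, i, 0, by simp⟩, h.push59 i⟩

lemma port_mono {c b : ℂ} {B B' : Set ℝ} (h : B ⊆ B') (i : ℕ) : port c b B i ⊆ port c b B' i := by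
  rintro a ⟨⟨β, hβ, j, k, hk⟩, hl⟩
  exact ⟨⟨β, h hβ, j, k, hk⟩, hl⟩

lemma Fits.mono {c b : ℂ} {B B' : Set ℝ} (h : B ⊆ B') {θ : ℝ} {w : ℕ → ℤ} (hf : Fits c b B' θ w) :
    Fits c b B θ w := fun i a ha => hf i a (port_mono h i ha)

lemma Fits.compat {c b : ℂ} {B : Set ℝ} {θ : ℝ} {w : ℕ → ℤ} (hf : Fits c b B θ w) {β : ℝ}
    (hβ : β ∈ B) (h : Lands c β b) : Compat β θ w := by
  intro i
  obtain ⟨k, h1, h2⟩ := hf i _ (pow_mem_port hβ h i)
  refine ⟨-k, ?_, ?_⟩ <;> push_cast <;> linarith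

lemma Fam.union {n : ℕ} {c b : ℂ} {B B' : Set ℝ} (h : Fam n c b B) (h' : Fam n c b B') :
    Fam n c b (B ∪ B') where
  fin := h.fin.union h'.fin
  per := by
    rintro β (hβ | hβ)
    · exact h.per β hβ
    · exact h'.per β hβ
  land := by
    rintro β (hβ | hβ)
    · exact h.land β hβ
    · exact h'.land β hβ
  two := by
    obtain ⟨β, hβ, h2⟩ := h.two
    exact ⟨β, Or.inl hβ, h2⟩

lemma bits_eq_of_even {x y : ℤ} (hx : x = 0 ∨ x = 1) (hy : y = 0 ∨ y = 1) {j : ℤ}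
    (h : y = x + 2 * j) : y = x := by omega

lemma port_nonempty {n : ℕ} {c b : ℂ} {B : Set ℝ} (hF : Fam n c b B) (i : ℕ) :
    (port c b B i).Nonempty := by
  obtain ⟨β, hβ, -⟩ := hF.two
  exact ⟨_, pow_mem_port hβ (hF.land β hβ) i⟩

/-- the word of the arc is periodic -/
lemma bits_of_inHalf {n : ℕ} {c b : ℂ} {B : Set ℝ} (hF : Fam n c b B)
    (hP : Portrait n (port c b B)) {v : ℕ → ℤ} (hv : ∀ i, v i = 0 ∨ v i = 1) {θ : ℝ}
    (h : Fits c b B θ v) : Bits n v where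
  bit := hv
  per := by
    intro i
    have h1 := h i
    have h2 := h (i + n)
    rw [hP.per i] at h2
    obtain ⟨j, hj⟩ := InHalf.unique (port_nonempty hF i) h1 h2
    exact bits_eq_of_even (hv i) (hv (i + n)) hj

theorem exists_fits {n : ℕ} (hn : 0 < n) {c b : ℂ} {B : Set ℝ} (hF : Fam n c b B)
    (hP : Portrait n (port c b B)) : ∃ θ v, Bits n v ∧ Fits c b B θ v := by
  obtain ⟨s, t, hst, -, -, ⟨v, hv, hvI⟩, -⟩ := hP.arc_word hn
  have h : Fits c b B ((s + t) / 2) v := fun i => hvI i _ ⟨by linarith, by linarith⟩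
  exact ⟨_, v, bits_of_inHalf hF hP hv h, h⟩

/-- all fitting angles and words of one portrait have the same label -/
theorem lab_wd {n : ℕ} (hn : 0 < n) {c b : ℂ} {B : Set ℝ} (hF : Fam n c b B)
    (hP : Portrait n (port c b B)) {θ θ' : ℝ} {w w' : ℕ → ℤ} (hw : Bits n w) (hw' : Bits n w')
    (h : Fits c b B θ w) (h' : Fits c b B θ' w') : lab n θ w = lab n θ' w' := by
  obtain ⟨s, t, hst, -, -, ⟨v, hv, hvI⟩, hall⟩ := hP.arc_word hn
  have hvB : Bits n v := by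
    have h : Fits c b B ((s + t) / 2) v := fun i => hvI i _ ⟨by linarith, by linarith⟩
    exact bits_of_inHalf hF hP hv h
  have key : ∀ (θ : ℝ) (w : ℕ → ℤ), Bits n w → Fits c b B θ w →
      ∃ k : ℤ, θ + k ∈ Ioo s t ∧ lab n (θ + k) v = lab n θ w := by
    intro θ w hw h
    obtain ⟨k, hk1, hk2⟩ := hall θ fun i => ⟨w i, h i⟩
    refine ⟨k, ⟨hk1, hk2⟩, lab_congr hw hvB k rfl fun i => ?_⟩
    have h1 := (h i).shift k
    have h2 := hvI i (θ + k) ⟨hk1, hk2⟩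
    obtain ⟨j, hj⟩ := InHalf.unique (port_nonempty hF i) h1 h2
    exact ⟨j - k, by omega⟩
  obtain ⟨k, hk, hk2⟩ := key θ w hw h
  obtain ⟨k', hk', hk2'⟩ := key θ' w' hw' h'
  rw [← hk2, ← hk2']
  refine (lab_of_strip hvB ?_).symm
  intro x hx m
  have hx' : x ∈ Ioo s t := by
    rcases mem_uIcc.1 hx with h | h
    · exact ⟨hk.1.trans_le h.1, h.2.trans_lt hk'.2⟩
    · exact ⟨hk'.1.trans_le h.1, h.2.trans_lt hk.2⟩
  obtain ⟨β, hβ, q, hq, hpq⟩ := hF.two
  have hfx : Fits c b B x v := fun i => hvI i x hx'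
  exact nu_ne_int_of_compat hq hpq hvB.per (hfx.compat hβ (hF.land β hβ)) m

/-- two families give the same label -/
theorem lab_wd2 {n : ℕ} (hn : 0 < n) {c b : ℂ} {B B' : Set ℝ} (hF : Fam n c b B)
    (hF' : Fam n c b B') (hport : ∀ B, Fam n c b B → Portrait n (port c b B)) {θ θ' : ℝ}
    {w w' : ℕ → ℤ} (hw : Bits n w) (hw' : Bits n w')
    (h : Fits c b B θ w) (h' : Fits c b B' θ' w') : lab n θ w = lab n θ' w' := by
  obtain ⟨φ, v, hv, hφ⟩ := exists_fits hn (hF.union hF') (hport _ (hF.union hF'))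
  have h1 := lab_wd hn hF (hport _ hF) hw hv h (hφ.mono subset_union_left)
  have h2 := lab_wd hn hF' (hport _ hF') hw' hv h' (hφ.mono subset_union_right)
  rw [h1, h2]

instance (n : ℕ) : Nonempty (Lab n) := ⟨⟨⟨fun _ => false, fun _ _ => rfl⟩, 0⟩⟩

/-- the label at a parameter of the Mandelbrot set -/
noncomputable def labM (n : ℕ) (c b : ℂ) : Lab n :=
  Classical.epsilon fun l => ∃ B θ w, Fam n c b B ∧ Bits n w ∧ Fits c b B θ w ∧ l = lab n θ w

theorem labM_eq {n : ℕ} (hn : 0 < n) {c b : ℂ} {B : Set ℝ} (hF : Fam n c b B)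
    (hport : ∀ B, Fam n c b B → Portrait n (port c b B)) {θ : ℝ} {w : ℕ → ℤ} (hw : Bits n w)
    (h : Fits c b B θ w) : labM n c b = lab n θ w := by
  have h1 := Classical.epsilon_spec
    (p := fun l => ∃ B θ w, Fam n c b B ∧ Bits n w ∧ Fits c b B θ w ∧ l = lab n θ w)
    ⟨_, B, θ, w, hF, hw, h, rfl⟩
  obtain ⟨B', θ', w', hF', hw', h', he⟩ := h1
  have h2 : labM n c b = lab n θ' w' := he
  rw [h2]
  exact lab_wd2 hn hF' hF hport hw' hw h' h

/-! ### neighbouring points of the curve -/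

lemma it_add_periodic {c b : ℂ} {n : ℕ} (h : it c n b = b) (i : ℕ) : it c (i + n) b = it c i b := by
  rw [it_add, h]

lemma it_mod_periodic {c b : ℂ} {n : ℕ} (h : it c n b = b) (i : ℕ) :
    it c i b = it c (i % n) b := by
  conv_lhs => rw [← Nat.mod_add_div i n]
  generalize i / n = k
  induction k with
  | zero => simp
  | succ k ih => rw [Nat.mul_succ, ← add_assoc, it_add_periodic h, ih]

lemma it_it_periodic {c b : ℂ} {n : ℕ} (h : it c n b = b) (i : ℕ) :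
    it c n (it c i b) = it c i b := by
  rw [← it_add, add_comm n i, it_add, h]

/-- the multiplier is the same at all points of the cycle -/
lemma mult_it {c b : ℂ} {n : ℕ} (hn : 0 < n) (h : it c n b = b) (hm : mult n c b ≠ 0) (i : ℕ) :
    mult n c (it c i b) = mult n c b := by
  induction i with
  | zero => simp
  | succ i ih =>
    set z := it c i b with hz
    have hzn : it c n z = z := it_it_periodic h i
    have hz0 : z ≠ 0 := by
      intro h0
      apply hm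
      rw [← ih]
      unfold mult
      exact Finset.prod_eq_zero (Finset.mem_range.2 hn) (by simp [h0])
    rw [it_succ, ← hz, ← ih]
    unfold mult
    have h1 : ∀ j, it c j (f c z) = it c (j + 1) z := by
      intro j
      rw [it_add]; rfl
    simp only [h1]
    have h2 := Finset.prod_range_succ (fun j => 2 * it c j z) n
    have h3 := Finset.prod_range_succ' (fun j => 2 * it c j z) n
    rw [h2, hzn] at h3
    simp only [it_zero] at h3
    exact (mul_right_cancel₀ (mul_ne_zero two_ne_zero hz0) h3).symm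

/-- near a repelling periodic point the coincidences in the cycle do not change -/
theorem coinc_nhds {n : ℕ} (hn : 0 < n) {c₀ b₀ : ℂ} (hfix : it c₀ n b₀ = b₀)
    (hρ : 1 < ‖mult n c₀ b₀‖) : ∀ᶠ x : ℂ × ℂ in 𝓝 (c₀, b₀), it x.1 n x.2 = x.2 →
      ∀ i j, (it x.1 i x.2 = it x.1 j x.2 ↔ it c₀ i b₀ = it c₀ j b₀) := by
  have hm0 : mult n c₀ b₀ ≠ 0 := by
    intro h; rw [h, norm_zero] at hρ; linarith
  have hcont : ∀ i, ContinuousAt (fun x : ℂ × ℂ => it x.1 i x.2) (c₀, b₀) := fun i =>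
    (continuous_it i).continuousAt
  have h1 : ∀ i j, ∀ᶠ x : ℂ × ℂ in 𝓝 (c₀, b₀), it x.1 n x.2 = x.2 →
      (it x.1 i x.2 = it x.1 j x.2 ↔ it c₀ i b₀ = it c₀ j b₀) := by
    intro i j
    by_cases hij : it c₀ i b₀ = it c₀ j b₀
    · -- chart at the common point
      set z₀ := it c₀ i b₀ with hz₀
      have hz₀n : ((c₀, z₀) : ℂ × ℂ) ∈ Per n := it_it_periodic hfix i
      have hz₀m : mul n (c₀, z₀) ≠ 1 := by
        have h2 : mul n (c₀, z₀) = mult n c₀ b₀ := mult_it hn hfix hm0 i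
        rw [h2]
        intro h; rw [h, norm_one] at hρ; exact lt_irrefl _ hρ
      obtain ⟨β, -, -, hβ⟩ := chart hz₀n hz₀m
      have hti : Tendsto (fun x : ℂ × ℂ => ((x.1, it x.1 i x.2) : ℂ × ℂ)) (𝓝 (c₀, b₀))
          (𝓝 (c₀, z₀)) := by
        have := (continuous_fst.continuousAt (x := ((c₀, b₀) : ℂ × ℂ))).prodMk (hcont i)
        exact this
      have htj : Tendsto (fun x : ℂ × ℂ => ((x.1, it x.1 j x.2) : ℂ × ℂ)) (𝓝 (c₀, b₀))
          (𝓝 (c₀, z₀)) := by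
        have := (continuous_fst.continuousAt (x := ((c₀, b₀) : ℂ × ℂ))).prodMk (hcont j)
        rw [hij]
        exact this
      filter_upwards [hti.eventually hβ, htj.eventually hβ] with x hxi hxj hx
      refine iff_of_true ?_ hij
      have h2 := hxi.1 (it_it_periodic hx i)
      have h3 := hxj.1 (it_it_periodic hx j)
      exact h2.symm.trans h3
    · have h2 : ∀ᶠ x : ℂ × ℂ in 𝓝 (c₀, b₀), it x.1 i x.2 - it x.1 j x.2 ≠ 0 :=
        ((hcont i).sub (hcont j)).eventually_ne (sub_ne_zero.mpr hij)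
      filter_upwards [h2] with x hx _
      exact iff_of_false (sub_ne_zero.mp hx) hij
  have h2 : ∀ᶠ x : ℂ × ℂ in 𝓝 (c₀, b₀), ∀ i ∈ Finset.range n, ∀ j ∈ Finset.range n,
      it x.1 n x.2 = x.2 → (it x.1 i x.2 = it x.1 j x.2 ↔ it c₀ i b₀ = it c₀ j b₀) := by
    rw [Finset.eventually_all]
    intro i _
    rw [Finset.eventually_all]
    intro j _
    exact h1 i j
  filter_upwards [h2] with x hx hxn i j
  rw [it_mod_periodic hxn i, it_mod_periodic hxn j, it_mod_periodic hfix i, it_mod_periodic hfix j]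
  exact hx _ (Finset.mem_range.2 (Nat.mod_lt _ hn)) _ (Finset.mem_range.2 (Nat.mod_lt _ hn)) hxn

/-- the portrait does not change near a repelling point of a parameter of the Mandelbrot set -/
theorem port_nhds {n : ℕ} (hn : 0 < n) {c₀ b₀ : ℂ} {B : Set ℝ} (hM : G c₀ 0 = 0)
    (hfix : it c₀ n b₀ = b₀) (hρ : 1 < ‖mult n c₀ b₀‖) (hF : Fam n c₀ b₀ B) :
    ∀ᶠ x : ℂ × ℂ in 𝓝 (c₀, b₀), it x.1 n x.2 = x.2 →
      Fam n x.1 x.2 B ∧ ∀ i, port x.1 x.2 B i = port c₀ b₀ B i := by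
  have h1 : ∀ᶠ x : ℂ × ℂ in 𝓝 (c₀, b₀), ∀ β ∈ B, it x.1 n x.2 = x.2 → Lands x.1 β x.2 := by
    rw [hF.fin.eventually_all]
    intro β hβ
    obtain ⟨q, hq⟩ := hF.per β hβ
    exact lands_nhds hn hM hfix hρ (land_of_lands hM hq (hF.land β hβ))
  filter_upwards [h1, coinc_nhds hn hfix hρ] with x hx hxc hxn
  refine ⟨⟨hF.fin, hF.per, fun β hβ => hx β hβ hxn, hF.two⟩, fun i => ?_⟩
  ext a
  constructor
  · rintro ⟨⟨β, hβ, j, k, rfl⟩, hl⟩
    refine ⟨⟨β, hβ, j, k, rfl⟩, ?_⟩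
    have h2 := ((hx β hβ hxn).push59 j).add59 k
    have h3 := (hxc hxn j i).1 (h2.uniq59 hl)
    rw [← h3]
    exact ((hF.land β hβ).push59 j).add59 k
  · rintro ⟨⟨β, hβ, j, k, rfl⟩, hl⟩
    refine ⟨⟨β, hβ, j, k, rfl⟩, ?_⟩
    have h2 := ((hF.land β hβ).push59 j).add59 k
    have h3 := (hxc hxn j i).2 (h2.uniq59 hl)
    rw [← h3]
    exact ((hx β hβ hxn).push59 j).add59 k

/-- hypothesis (5c) -/
def PortHyp (n : ℕ) : Prop := ∀ (c b : ℂ) (B : Set ℝ), G c 0 = 0 → it c n b = b →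
  1 < ‖mult n c b‖ → Fam n c b B → Portrait n (port c b B)

/-- **(5a), inside `MM`**: the label is locally constant on the repelling points over `MM` -/
theorem labM_nhds {n : ℕ} (hn : 0 < n) (hPH : PortHyp n) {c₀ b₀ : ℂ} {B : Set ℝ}
    (hM : G c₀ 0 = 0) (hfix : it c₀ n b₀ = b₀) (hρ : 1 < ‖mult n c₀ b₀‖) (hF : Fam n c₀ b₀ B) :
    ∀ᶠ x : ℂ × ℂ in 𝓝 (c₀, b₀), it x.1 n x.2 = x.2 → G x.1 0 = 0 →
      labM n x.1 x.2 = labM n c₀ b₀ := by
  have hm : ∀ᶠ x : ℂ × ℂ in 𝓝 (c₀, b₀), 1 < ‖mult n x.1 x.2‖ :=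
    ((contDiff_mul n).continuous.norm.continuousAt (x := ((c₀, b₀) : ℂ × ℂ))).eventually_const_lt hρ
  obtain ⟨θ, w, hw, hfit⟩ := exists_fits hn hF (hPH _ _ _ hM hfix hρ hF)
  filter_upwards [port_nhds hn hM hfix hρ hF, hm] with x hx hxm hxn hxM
  obtain ⟨hFx, hpx⟩ := hx hxn
  have hfx : Fits x.1 x.2 B θ w := by
    intro i; rw [hpx i]; exact hfit i
  rw [labM_eq hn hFx (fun B hB => hPH _ _ _ hxM hxn hxm hB) hw hfx,
    labM_eq hn hF (fun B hB => hPH _ _ _ hM hfix hρ hB) hw hfit]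

/-- **(5a), outside `MM`**: near a repelling point over `MM` every exterior pair has its label -/
theorem lab_ext_nhds {n : ℕ} (hn : 0 < n) (hPH : PortHyp n) {c₀ b₀ : ℂ} {B : Set ℝ}
    (hM : G c₀ 0 = 0) (hfix : it c₀ n b₀ = b₀) (hρ : 1 < ‖mult n c₀ b₀‖) (hF : Fam n c₀ b₀ B) :
    ∀ᶠ x : ℂ × ℂ in 𝓝 (c₀, b₀), it x.1 n x.2 = x.2 → ∀ (θ : ℝ) (w : ℕ → ℤ), 0 < G x.1 x.1 →
      eta x.1 ((G x.1 x.1 : ℂ) + 2 * Real.pi * θ * I) = x.1 → Bits n w →
      (∀ i, Side x.1 (θ + w i) (it x.1 i x.2)) → lab n θ w = labM n c₀ b₀ := by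
  filter_upwards [port_nhds hn hM hfix hρ hF] with x hx hxn θ w hG hθ hw hS
  obtain ⟨hFx, hpx⟩ := hx hxn
  refine (labM_eq hn hF (fun B hB => hPH _ _ _ hM hfix hρ hB) hw ?_).symm
  intro i a ha
  rw [← hpx i] at ha
  obtain ⟨k, h1, h2⟩ := inHalfO_of_side hG hθ (hS i) ha.2
  refine ⟨-k, ?_, ?_⟩ <;> push_cast <;> linarith

end Pool.Agent.Work.MLC
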