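import Pool.Agent.Work.MLC.Curve57
import Pool.Agent.Work.MLC.Defs

set_option autoImplicit false

/-! # Bounded multiplier gives bounded potential of the parameter  (helper13) -/

namespace Pool.Agent.Work.MLC

theorem G_le_four_of_norm_le {c : ℂ} (hc : ‖c‖ ≤ 4) : G c c ≤ 4 := by
  have h1 := abs_le.1 (abs_G_sub_posLog c c)
  have h2 : Real.posLog ‖c‖ ≤ Real.log 4 := by
    unfold Real.posLog
    rcases eq_or_lt_of_le (norm_nonneg c) with h | h
    · rw [← h]; simp; exact Real.log_nonneg (by norm_num)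
    · exact max_le (Real.log_nonneg (by norm_num)) (Real.log_le_log h hc)
  have h3 : Real.log (1 + ‖c‖) ≤ Real.log 5 := by
    refine Real.log_le_log (by positivity) (by linarith)
  have h4 : Real.log 4 + Real.log 5 ≤ 4 := by
    rw [← Real.log_mul (by norm_num) (by norm_num)]
    have h5 : Real.log (4 * 5 : ℝ) ≤ Real.log (Real.exp 4) := by
      refine Real.log_le_log (by norm_num) ?_
      have h6 : (2.7 : ℝ) ≤ Real.exp 1 := by
        have := Real.exp_one_gt_d9; linarith
      calc (4 * 5 : ℝ) ≤ 2.7 ^ 4 := by norm_num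
        _ ≤ Real.exp 1 ^ 4 := by gcongr
        _ = Real.exp 4 := by rw [← Real.exp_nat_mul]; norm_num
    rwa [Real.log_exp] at h5
  linarith [h1.2]

theorem G_le_four_of_mul_lt {n : ℕ} (hn : 0 < n) {c b : ℂ} (hb : it c n b = b)
    (hm : ‖mul n (c, b)‖ < 23 / 10) : G c c ≤ 4 :=
  G_le_four_of_norm_le (Per_bdd hn (x := (c, b)) hb hm).1

/-- `‖mult n c b‖ < 2` (even `< 2.3`) at a point of period dividing `n` gives `G c c ≤ 4` -/
theorem G_le_four_of_mult_lt {n : ℕ} (hn : 0 < n) {c b : ℂ} (hb : it c n b = b)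
    (hm : ‖mult n c b‖ < 23 / 10) : G c c ≤ 4 :=
  G_le_four_of_mul_lt hn hb hm

end Pool.Agent.Work.MLC
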