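import Pool.Agent.Work.MLC.Eta

set_option autoImplicit false

/-! # Stability of landing rays (helper4)

Abstract part: extension of a curve along the backward orbits of an expanding map. -/

namespace Pool.Agent.Work.MLC

open Filter Topology Metric Set

/-- Extension of a curve `e`, defined for large parameters and conjugating `F` to `t ↦ a * t`, by
pulling back inside a set `D` on which `F` is expanding and which is covered by its image. -/
theorem ray_ext {F : ℂ → ℂ} {D : Set ℂ} {lam M : ℝ} (hlam : 1 < lam)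
    (hexp : ∀ z ∈ D, ∀ w ∈ D, lam * ‖z - w‖ ≤ ‖F z - F w‖)
    (hsurj : ∀ w ∈ D, ∃ z ∈ D, F z = w) (hM : ∀ z ∈ D, ∀ w ∈ D, ‖z - w‖ ≤ M)
    {a t₁ : ℝ} (ha : 1 < a) (ht₁ : 0 < t₁) {e : ℝ → ℂ} (hec : ContinuousOn e (Ioi t₁))
    (hconj : ∀ t, t₁ ≤ t → F (e t) = e (a * t)) (hmem : ∀ t ∈ Icc t₁ (a ^ 2 * t₁), e t ∈ D) :
    ∃ R : ℝ → ℂ, ContinuousOn R (Ioi 0) ∧ (∀ t, t₁ ≤ t → R t = e t) ∧
      (∀ t, 0 < t → F (R t) = R (a * t)) ∧ (∀ t, 0 < t → t ≤ a ^ 2 * t₁ → R t ∈ D) ∧
      (∀ b ∈ D, F b = b → Tendsto R (𝓝[>] 0) (𝓝 b)) := by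
  have ha0 : 0 < a := by linarith
  choose! g hgD hFg using hsurj
  have hgF : ∀ z ∈ D, F z ∈ D → g (F z) = z := by
    intro z hz hFz
    have h1 := hexp (g (F z)) (hgD _ hFz) z hz
    rw [hFg _ hFz, sub_self, norm_zero] at h1
    have h2 : ‖g (F z) - z‖ ≤ 0 := by nlinarith [norm_nonneg (g (F z) - z)]
    exact sub_eq_zero.1 (norm_le_zero_iff.1 h2)
  have hglip : ∀ z ∈ D, ∀ w ∈ D, lam * ‖g z - g w‖ ≤ ‖z - w‖ := by
    intro z hz w hw
    have h1 := hexp (g z) (hgD _ hz) (g w) (hgD _ hw)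
    rwa [hFg _ hz, hFg _ hw] at h1
  have hgc : ContinuousOn g D := by
    refine LipschitzOnWith.continuousOn (K := 1) (LipschitzOnWith.of_dist_le_mul ?_)
    intro z hz w hw
    rw [dist_eq_norm, dist_eq_norm]
    have h1 := hglip z hz w hw
    have : (0 : ℝ) ≤ ‖g z - g w‖ := norm_nonneg _
    push_cast
    nlinarith
  -- the hitting time
  have hex : ∀ t : ℝ, 0 < t → ∃ j : ℕ, t₁ ≤ a ^ j * t := by
    intro t ht
    obtain ⟨j, hj⟩ := pow_unbounded_of_one_lt (t₁ / t) ha
    exact ⟨j, by rw [div_lt_iff₀ ht] at hj; exact hj.le⟩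
  classical
  let J : ℝ → ℕ := fun t => if h : 0 < t then Nat.find (hex t h) else 0
  have hJspec : ∀ t, 0 < t → t₁ ≤ a ^ J t * t := by
    intro t ht
    have := Nat.find_spec (hex t ht)
    simpa [J, ht] using this
  have hJmin : ∀ t, 0 < t → ∀ j, t₁ ≤ a ^ j * t → J t ≤ j := by
    intro t ht j hj
    have := Nat.find_min' (hex t ht) hj
    simpa [J, ht] using this
  have hJ0 : ∀ t, 0 < t → t₁ ≤ t → J t = 0 := by
    intro t ht h
    exact Nat.le_zero.1 (hJmin t ht 0 (by simpa using h))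
  have hJ1 : ∀ t, 0 < t → t < t₁ → J t = J (a * t) + 1 := by
    intro t ht h
    have hat : 0 < a * t := by positivity
    apply le_antisymm
    · apply hJmin t ht
      have := hJspec (a * t) hat
      rw [pow_succ, mul_assoc]; exact this
    · have h1 := hJspec t ht
      have h2 : J t ≠ 0 := by
        intro h0
        rw [h0, pow_zero, one_mul] at h1
        linarith
      obtain ⟨m, hm⟩ := Nat.exists_eq_succ_of_ne_zero h2
      rw [hm, Nat.succ_eq_add_one]
      have h3 : J (a * t) ≤ m := by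
        apply hJmin _ hat
        rw [hm, Nat.succ_eq_add_one, pow_succ, mul_assoc] at h1
        exact h1
      omega
  let R : ℝ → ℂ := fun t => g^[J t] (e (a ^ J t * t))
  have hR0 : ∀ t, t₁ ≤ t → R t = e t := by
    intro t ht
    simp only [R]
    rw [hJ0 t (by linarith) ht]; simp
  have hR1 : ∀ t, 0 < t → t < t₁ → R t = g (R (a * t)) := by
    intro t ht h
    simp only [R]
    rw [hJ1 t ht h, Function.iterate_succ_apply', pow_succ]
    ring_nf
  -- membership
  have hRD : ∀ j : ℕ, ∀ t, t₁ ≤ a ^ j * t → t ≤ a ^ 2 * t₁ → 0 < t → R t ∈ D := by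
    intro j
    induction j with
    | zero =>
      intro t h1 h2 h3
      rw [pow_zero, one_mul] at h1
      rw [hR0 t h1]
      exact hmem t ⟨h1, h2⟩
    | succ j ih =>
      intro t h1 h2 h3
      by_cases h4 : t₁ ≤ t
      · rw [hR0 t h4]; exact hmem t ⟨h4, h2⟩
      · push Not at h4
        rw [hR1 t h3 h4]
        apply hgD
        apply ih
        · rw [← mul_assoc, ← pow_succ]; exact h1
        · nlinarith
        · positivity
  have hRD' : ∀ t, 0 < t → t ≤ a ^ 2 * t₁ → R t ∈ D := by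
    intro t ht h
    exact hRD (J t) t (hJspec t ht) h ht
  have hF : ∀ t, 0 < t → F (R t) = R (a * t) := by
    intro t ht
    by_cases h4 : t₁ ≤ t
    · rw [hR0 t h4, hR0 (a * t) (by nlinarith), hconj t h4]
    · push Not at h4
      rw [hR1 t ht h4, hFg]
      apply hRD' _ (by positivity)
      nlinarith [mul_pos ha0 ht₁]
  have hRg : ∀ t, 0 < t → t ≤ a * t₁ → R t = g (R (a * t)) := by
    intro t ht h
    rw [← hF t ht, hgF]
    · apply hRD' t ht; nlinarith
    · rw [hF t ht]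
      apply hRD' _ (by positivity)
      nlinarith
  have hcont : ∀ j : ℕ, ∀ t, t₁ < a ^ j * t → 0 < t → ContinuousAt R t := by
    intro j
    induction j with
    | zero =>
      intro t h1 _
      rw [pow_zero, one_mul] at h1
      have h2 : ContinuousAt e t := hec.continuousAt (Ioi_mem_nhds h1)
      refine h2.congr ?_
      filter_upwards [Ioi_mem_nhds h1] with s hs
      rw [hR0 s (le_of_lt hs)]
    | succ j ih =>
      intro t h1 h3
      by_cases h4 : t₁ < t
      · have h2 : ContinuousAt e t := hec.continuousAt (Ioi_mem_nhds h4)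
        refine h2.congr ?_
        filter_upwards [Ioi_mem_nhds h4] with s hs
        rw [hR0 s (le_of_lt hs)]
      · push Not at h4
        have h5 : t < a * t₁ := by nlinarith
        have h6 : ContinuousAt R (a * t) := by
          apply ih
          · rw [← mul_assoc, ← pow_succ]; exact h1
          · positivity
        have h7 : ContinuousAt (fun s => R (a * s)) t :=
          ContinuousAt.comp (f := fun s => a * s) (g := R) h6 (by fun_prop)
        have h8 : ∀ᶠ s in 𝓝 t, R (a * s) ∈ D := by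
          filter_upwards [Ioo_mem_nhds h3 h5] with s hs
          apply hRD' _ (by have := hs.1; positivity)
          have := hs.2
          nlinarith
        have h9 : ContinuousAt (fun s => g (R (a * s))) t := by
          have h10 : ContinuousWithinAt g D (R (a * t)) := hgc _ (h8.self_of_nhds)
          have h11 : Tendsto (fun s => R (a * s)) (𝓝 t) (𝓝[D] (R (a * t))) :=
            tendsto_nhdsWithin_iff.2 ⟨h7, h8⟩
          exact h10.tendsto.comp h11
        refine h9.congr ?_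
        filter_upwards [Ioo_mem_nhds h3 h5] with s hs
        rw [← hRg s hs.1 hs.2.le]
  refine ⟨R, ?_, hR0, hF, hRD', ?_⟩
  · intro t ht
    have ht' : 0 < t := ht
    obtain ⟨j, hj⟩ := hex (t / 2) (by positivity)
    refine (hcont j t ?_ ht').continuousWithinAt
    have : a ^ j * (t / 2) < a ^ j * t := by
      have : 0 < a ^ j := by positivity
      nlinarith
    linarith
  · intro b hb hFb
    have hgb : g b = b := by
      have := hgF b hb (by rw [hFb]; exact hb)
      rwa [hFb] at this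
    have hM0 : 0 ≤ M := (norm_nonneg _).trans (hM b hb b hb)
    have key : ∀ m : ℕ, ∀ t, 0 < t → a ^ m * t ≤ a ^ 2 * t₁ → lam ^ m * ‖R t - b‖ ≤ M := by
      intro m
      induction m with
      | zero =>
        intro t ht h
        rw [pow_zero, one_mul] at h ⊢
        exact hM _ (hRD' t ht h) _ hb
      | succ m ih =>
        intro t ht h
        have hat : 0 < a * t := by positivity
        have h1 := ih (a * t) hat (by rw [← mul_assoc, ← pow_succ]; exact h)
        have h1' : 1 ≤ a ^ m := one_le_pow₀ ha.le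
        have h2 : t ≤ a * t₁ := by
          have h3 : a * (a ^ m * t) ≤ a * (a * t₁) := by
            have : a ^ (m + 1) * t = a * (a ^ m * t) := by ring
            rw [← this]
            have h4 : a ^ 2 * t₁ = a * (a * t₁) := by ring
            rw [← h4]; exact h
          have h5 : a ^ m * t ≤ a * t₁ := le_of_mul_le_mul_left h3 ha0
          nlinarith
        have h3 : R (a * t) ∈ D := hRD' _ hat (by nlinarith)
        have h4 := hglip (R (a * t)) h3 b hb
        rw [← hRg t ht h2, hgb] at h4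
        have h5 : (0 : ℝ) < lam ^ m := by positivity
        calc lam ^ (m + 1) * ‖R t - b‖ = lam ^ m * (lam * ‖R t - b‖) := by ring
          _ ≤ lam ^ m * ‖R (a * t) - b‖ := by gcongr
          _ ≤ M := h1
    rw [Metric.tendsto_nhds]
    intro ε hε
    obtain ⟨m, hm⟩ := pow_unbounded_of_one_lt (M / ε) hlam
    have h1 : (0 : ℝ) < a ^ 2 * t₁ / a ^ m := by positivity
    filter_upwards [Ioo_mem_nhdsGT h1] with t ht
    have h2 := key m t ht.1 (by
      have := ht.2.le
      rw [le_div_iff₀ (by positivity)] at this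
      linarith)
    rw [dist_eq_norm]
    rw [div_lt_iff₀ hε] at hm
    have h3 : (0 : ℝ) < lam ^ m := by positivity
    have h4 : lam ^ m * ‖R t - b‖ < lam ^ m * ε := lt_of_le_of_lt h2 hm
    exact lt_of_mul_lt_mul_left h4 h3.le

lemma contDiff_it4 (n : ℕ) : ContDiff ℂ 1 fun p : ℂ × ℂ => it p.1 n p.2 := by
  induction n with
  | zero => exact contDiff_snd
  | succ n ih =>
    have : (fun p : ℂ × ℂ => it p.1 (n + 1) p.2) = fun p => (it p.1 n p.2) ^ 2 + p.1 := by
      funext p; rw [it_succ]; rfl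
    rw [this]
    exact (ih.pow 2).add contDiff_fst

/-- Uniform expansion and covering near a repelling fixed point of the `k`-th iterate. -/
theorem local_expand {c₀ b₀ : ℂ} {k : ℕ} (hb : it c₀ k b₀ = b₀)
    (hρ : 1 < ‖deriv (it c₀ k) b₀‖) :
    ∃ lam r₀ : ℝ, 1 < lam ∧ 0 < r₀ ∧ ∀ r, 0 < r → r ≤ r₀ → ∃ δ > 0, ∀ c ∈ ball c₀ δ,
      (∀ z ∈ closedBall b₀ r, ∀ w ∈ closedBall b₀ r,
        lam * ‖z - w‖ ≤ ‖it c k z - it c k w‖) ∧
      (∀ w ∈ closedBall b₀ r, ∃ z ∈ closedBall b₀ r, it c k z = w) := by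
  set ρ := deriv (it c₀ k) b₀ with hρdef
  have hρ0 : ρ ≠ 0 := by
    intro h
    rw [h, norm_zero] at hρ; linarith
  set ε : ℝ := (‖ρ‖ - 1) / 4 with hε
  have hεpos : 0 < ε := by rw [hε]; linarith
  -- strict differentiability of the joint map
  have hstrict := (contDiff_it4 k).contDiffAt.hasStrictFDerivAt (x := (c₀, b₀)) (by norm_num)
  set A := fderiv ℂ (fun p : ℂ × ℂ => it p.1 k p.2) (c₀, b₀) with hA
  have hA2 : ∀ v : ℂ, A (0, v) = ρ * v := by
    intro v
    have h1 : HasFDerivAt (fun p : ℂ × ℂ => it p.1 k p.2) A (c₀, b₀) := hstrict.hasFDerivAt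
    have h2 : HasFDerivAt (fun z : ℂ => ((c₀, z) : ℂ × ℂ)) (ContinuousLinearMap.inr ℂ ℂ ℂ) b₀ :=
      hasFDerivAt_prodMk_right c₀ b₀
    have h3 := h1.comp b₀ h2
    have h4 : HasDerivAt (it c₀ k) ρ b₀ :=
      ((differentiable_it_right c₀ k) b₀).hasDerivAt
    have h5 := h3.unique h4.hasFDerivAt
    have h6 := congrArg (fun T : ℂ →L[ℂ] ℂ => T v) h5
    simpa [mul_comm] using h6
  have hbound := (Asymptotics.isLittleO_iff.1 hstrict.isLittleO) hεpos
  obtain ⟨r₁, hr₁, hball⟩ := Metric.eventually_nhds_iff_ball.1 hbound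
  have hest : ∀ c ∈ ball c₀ r₁, ∀ z ∈ ball b₀ r₁, ∀ w ∈ ball b₀ r₁,
      ‖it c k z - it c k w - ρ * (z - w)‖ ≤ ε * ‖z - w‖ := by
    intro c hc z hz w hw
    have h1 : (((c, z), (c, w)) : (ℂ × ℂ) × (ℂ × ℂ)) ∈ ball ((c₀, b₀), (c₀, b₀)) r₁ := by
      rw [mem_ball, Prod.dist_eq, Prod.dist_eq, Prod.dist_eq]
      simp only [max_lt_iff]
      exact ⟨⟨hc, hz⟩, hc, hw⟩
    have h2 := hball _ h1
    simp only [Prod.mk_sub_mk, sub_self] at h2
    rw [hA2] at h2
    have h3 : ‖((0 : ℂ), z - w)‖ = ‖z - w‖ := by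
      rw [Prod.norm_def]; simp
    rwa [h3] at h2
  refine ⟨‖ρ‖ - ε, r₁ / 2, by rw [hε]; linarith, by positivity, ?_⟩
  intro r hr hr0
  have hsub : closedBall b₀ r ⊆ ball b₀ r₁ := closedBall_subset_ball (by linarith)
  -- continuity in `c` of the value at `b₀`
  have hcont : ContinuousAt (fun c : ℂ => it c k b₀) c₀ := by
    have : Continuous (fun c : ℂ => it c k b₀) :=
      (continuous_it k).comp (by fun_prop : Continuous fun c : ℂ => ((c, b₀) : ℂ × ℂ))
    exact this.continuousAt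
  obtain ⟨δ₁, hδ₁, hδ₁'⟩ := Metric.continuousAt_iff.1 hcont (ε * r) (by positivity)
  refine ⟨min δ₁ r₁, lt_min hδ₁ hr₁, ?_⟩
  intro c hc
  have hc1 : c ∈ ball c₀ r₁ := ball_subset_ball (min_le_right _ _) hc
  have hc2 : ‖it c k b₀ - b₀‖ < ε * r := by
    have := hδ₁' (x := c) (lt_of_lt_of_le hc (min_le_left _ _))
    rw [hb, dist_eq_norm] at this
    exact this
  refine ⟨?_, ?_⟩
  · intro z hz w hw
    have h1 := hest c hc1 z (hsub hz) w (hsub hw)
    have h2 : ‖ρ * (z - w)‖ ≤ ‖it c k z - it c k w‖ + ε * ‖z - w‖ := by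
      have h3 : ρ * (z - w) = (it c k z - it c k w) - (it c k z - it c k w - ρ * (z - w)) := by
        ring
      calc ‖ρ * (z - w)‖ = ‖(it c k z - it c k w) - (it c k z - it c k w - ρ * (z - w))‖ := by
            rw [← h3]
        _ ≤ ‖it c k z - it c k w‖ + ‖it c k z - it c k w - ρ * (z - w)‖ := norm_sub_le _ _
        _ ≤ _ := by linarith
    rw [norm_mul] at h2
    linarith
  · intro w hw
    -- contraction
    let T : ℂ → ℂ := fun z => z - (it c k z - w) / ρ
    have hρpos : 0 < ‖ρ‖ := norm_pos_iff.2 hρ0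
    have hTlip : ∀ z ∈ closedBall b₀ r, ∀ z' ∈ closedBall b₀ r,
        ‖T z - T z'‖ ≤ (ε / ‖ρ‖) * ‖z - z'‖ := by
      intro z hz z' hz'
      have h1 := hest c hc1 z (hsub hz) z' (hsub hz')
      have h2 : T z - T z' = -((it c k z - it c k z' - ρ * (z - z')) / ρ) := by
        simp only [T]; field_simp; ring
      rw [h2, norm_neg, norm_div, div_mul_eq_mul_div]
      gcongr
    have hTmaps : MapsTo T (closedBall b₀ r) (closedBall b₀ r) := by
      intro z hz
      have hb0 : b₀ ∈ closedBall b₀ r := mem_closedBall_self hr.le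
      have h1 := hTlip z hz b₀ hb0
      have h2 : T b₀ - b₀ = -((it c k b₀ - b₀) + (b₀ - w)) / ρ := by
        simp only [T]; field_simp; ring
      have h3 : ‖T b₀ - b₀‖ ≤ (ε * r + r) / ‖ρ‖ := by
        rw [h2, norm_div, norm_neg]
        gcongr
        refine (norm_add_le _ _).trans ?_
        have : ‖b₀ - w‖ ≤ r := by
          rw [← dist_eq_norm, dist_comm]; exact hw
        linarith
      have hz' : ‖z - b₀‖ ≤ r := by rw [← dist_eq_norm]; exact hz
      rw [mem_closedBall, dist_eq_norm]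
      calc ‖T z - b₀‖ = ‖(T z - T b₀) + (T b₀ - b₀)‖ := by ring_nf
        _ ≤ ‖T z - T b₀‖ + ‖T b₀ - b₀‖ := norm_add_le _ _
        _ ≤ ε / ‖ρ‖ * r + (ε * r + r) / ‖ρ‖ := by
            have : ε / ‖ρ‖ * ‖z - b₀‖ ≤ ε / ‖ρ‖ * r := by gcongr
            linarith
        _ = (2 * ε + 1) * r / ‖ρ‖ := by field_simp; ring
        _ ≤ r := by
            rw [div_le_iff₀ hρpos]
            have : 2 * ε + 1 ≤ ‖ρ‖ := by rw [hε]; linarith
            nlinarith
    have hK0 : 0 ≤ ε / ‖ρ‖ := by positivity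
    have hK1 : ε / ‖ρ‖ < 1 := by
      rw [div_lt_one hρpos, hε]; linarith
    have hcontr : ContractingWith ⟨ε / ‖ρ‖, hK0⟩ (hTmaps.restrict T _ _) := by
      refine ⟨by exact_mod_cast hK1, ?_⟩
      refine LipschitzWith.of_dist_le_mul ?_
      intro x y
      rw [Subtype.dist_eq, Subtype.dist_eq, dist_eq_norm, dist_eq_norm]
      exact hTlip x x.2 y y.2
    obtain ⟨y, hy, hfix, -⟩ := ContractingWith.exists_fixedPoint' (isClosed_closedBall.isComplete)
      hTmaps hcontr (mem_closedBall_self hr.le) (edist_ne_top _ _)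
    refine ⟨y, hy, ?_⟩
    have h1 : y - (it c k y - w) / ρ = y := hfix
    have h2 : (it c k y - w) / ρ = 0 := by
      have : y - (it c k y - w) / ρ - y = 0 := by rw [h1]; ring
      have h3 : (it c k y - w) / ρ = -(y - (it c k y - w) / ρ - y) := by ring
      rw [h3, this, neg_zero]
    rw [div_eq_zero_iff] at h2
    exact sub_eq_zero.1 (h2.resolve_right hρ0)

/-! ## external rays -/

/-- The point of the ray of angle `β` (in turns) at potential `t`. -/
noncomputable def eR (c : ℂ) (β t : ℝ) : ℂ := eta c ((t : ℂ) + 2 * Real.pi * Complex.I * (β : ℂ))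

lemma eR_re (t β : ℝ) : ((t : ℂ) + 2 * Real.pi * Complex.I * (β : ℂ)).re = t := by
  simp

lemma f_eR {c : ℂ} {β t : ℝ} (h : G c 0 < t) : f c (eR c β t) = eR c (2 * β) (2 * t) := by
  unfold eR
  rw [f_eta (by rw [eR_re]; exact h)]
  congr 1
  push_cast; ring

lemma it_eR {c : ℂ} {β t : ℝ} (h : G c 0 < t) (j : ℕ) :
    it c j (eR c β t) = eR c (2 ^ j * β) (2 ^ j * t) := by
  induction j with
  | zero => simp
  | succ j ih =>
    have h0 := G_nonneg c 0
    have h1 : G c 0 < 2 ^ j * t := by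
      have : (1 : ℝ) ≤ 2 ^ j := one_le_pow₀ (by norm_num)
      nlinarith
    rw [it_succ, ih, f_eR h1]
    congr 1 <;> ring

lemma eR_add_int (c : ℂ) (β t : ℝ) (m : ℤ) : eR c (β + m) t = eR c β t := by
  have key : ∀ (k : ℕ) (L : ℂ), eta c (L + 2 * Real.pi * Complex.I * k) = eta c L := by
    intro k
    induction k with
    | zero => intro L; simp
    | succ k ih =>
      intro L
      have : L + 2 * Real.pi * Complex.I * ((k + 1 : ℕ) : ℂ) =
        (L + 2 * Real.pi * Complex.I * k) + 2 * Real.pi * Complex.I := by push_cast; ring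
      rw [this, eta_add_two_pi, ih]
  unfold eR
  rcases Int.eq_nat_or_neg m with ⟨k, hk | hk⟩
  · rw [hk, ← key k ((t : ℂ) + 2 * Real.pi * Complex.I * (β : ℂ))]
    congr 1; push_cast; ring
  · rw [hk, ← key k ((t : ℂ) + 2 * Real.pi * Complex.I * ((β + ((-(k : ℤ) : ℤ) : ℝ) : ℝ) : ℂ))]
    congr 1; push_cast; ring

lemma G_eR {c : ℂ} {β t : ℝ} (h : G c 0 < t) : G c (eR c β t) = t := by
  unfold eR
  rw [G_eta (by rw [eR_re]; exact h), eR_re]

lemma continuousOn_eR (β : ℝ) :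
    ContinuousOn (fun p : ℂ × ℝ => eR p.1 β p.2) {p | G p.1 0 < p.2} := by
  have h1 : Continuous (fun p : ℂ × ℝ =>
      ((p.1, (p.2 : ℂ) + 2 * Real.pi * Complex.I * (β : ℂ)) : ℂ × ℂ)) := by fun_prop
  refine continuousOn_eta.comp h1.continuousOn ?_
  intro p hp
  show G p.1 0 < ((p.2 : ℂ) + 2 * Real.pi * Complex.I * (β : ℂ)).re
  rw [eR_re]; exact hp

lemma continuousOn_eR_right (c : ℂ) (β : ℝ) : ContinuousOn (eR c β) (Ioi (G c 0)) := by
  refine (continuousOn_eR β).comp (f := fun t : ℝ => ((c, t) : ℂ × ℝ)) (by fun_prop) ?_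
  intro t ht; exact ht

lemma hasDerivAt_it4 (c : ℂ) (k : ℕ) (z : ℂ) :
    HasDerivAt (it c k) (∏ i ∈ Finset.range k, (2 * it c i z)) z := by
  induction k with
  | zero =>
    have : it c 0 = id := rfl
    rw [this]
    simpa using hasDerivAt_id z
  | succ k ih =>
    have h1 : (it c (k + 1)) = fun z => (it c k z) ^ 2 + c := by
      funext z; rw [it_succ]; rfl
    rw [h1, Finset.prod_range_succ]
    have h2 := (ih.pow 2).add_const c
    refine h2.congr_deriv ?_
    push_cast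
    rw [pow_one]
    ring

lemma deriv_it_ne {c : ℂ} {k : ℕ} {z : ℂ} (h : ∀ i < k, it c i z ≠ 0) : deriv (it c k) z ≠ 0 := by
  rw [(hasDerivAt_it4 c k z).deriv]
  exact Finset.prod_ne_zero_iff.2 fun i hi =>
    mul_ne_zero two_ne_zero (h i (Finset.mem_range.1 hi))

lemma ne_of_deriv_it_ne {c : ℂ} {k : ℕ} {z : ℂ} (h : deriv (it c k) z ≠ 0) :
    ∀ i < k, it c i z ≠ 0 := by
  rw [(hasDerivAt_it4 c k z).deriv] at h
  intro i hi h0
  exact h (Finset.prod_eq_zero (Finset.mem_range.2 hi) (by rw [h0, mul_zero]))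

/-- local injectivity -/
lemma eventually_inj4 {F : ℂ → ℂ} {z : ℂ} (hF : AnalyticAt ℂ F z) (h : deriv F z ≠ 0) :
    ∃ U ∈ 𝓝 z, InjOn F U := by
  have h1 : HasStrictDerivAt F (deriv F z) z := hF.hasStrictDerivAt
  have h2 := (Asymptotics.isLittleO_iff.1 h1.isLittleO) (half_pos (norm_pos_iff.2 h))
  obtain ⟨r, hr, hball⟩ := Metric.eventually_nhds_iff_ball.1 h2
  refine ⟨ball z r, ball_mem_nhds z hr, ?_⟩
  intro x hx y hy hxy
  have h3 : ((x, y) : ℂ × ℂ) ∈ ball (z, z) r := by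
    rw [mem_ball, Prod.dist_eq]; exact max_lt hx hy
  have h4 := hball _ h3
  simp only [hxy, sub_self, zero_sub, norm_neg, ContinuousLinearMap.toSpanSingleton_apply] at h4
  rw [norm_smul] at h4
  by_contra hne
  have h5 : 0 < ‖x - y‖ := norm_pos_iff.2 (sub_ne_zero.2 hne)
  have h6 : 0 < ‖deriv F z‖ := norm_pos_iff.2 h
  nlinarith

/-- uniqueness of lifts under iterates, `i` may depend on the point -/
lemma unique_lift {c : ℂ} {I : Set ℝ} (hI : IsPreconnected I) {Y Z : ℝ → ℂ} {a : ℝ} (ha : a ∈ I)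
    (h0 : Y a = Z a) (hY : ContinuousOn Y I) (hZ : ContinuousOn Z I)
    (hloc : ∀ t ∈ I, ∃ i : ℕ, (∀ᶠ s in 𝓝[I] t, it c i (Y s) = it c i (Z s)) ∧
      deriv (it c i) (Z t) ≠ 0) : EqOn Y Z I := by
  have hpre : PreconnectedSpace I := isPreconnected_iff_preconnectedSpace.1 hI
  let S : Set I := {x | Y x = Z x}
  have hYc : Continuous (fun x : I => Y x) := continuousOn_iff_continuous_domRestrict.1 hY
  have hZc : Continuous (fun x : I => Z x) := continuousOn_iff_continuous_domRestrict.1 hZ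
  have hclosed : IsClosed S := isClosed_eq hYc hZc
  have hopen : IsOpen S := by
    rw [isOpen_iff_mem_nhds]
    intro x hx
    obtain ⟨i, hi, hd⟩ := hloc x x.2
    obtain ⟨U, hU, hinj⟩ := eventually_inj4
      ((differentiable_it_right c i).analyticAt (Z x)) hd
    have h1 : ∀ᶠ y : I in 𝓝 x, Z y ∈ U := hZc.continuousAt hU
    have h2 : ∀ᶠ y : I in 𝓝 x, Y y ∈ U := by
      have : U ∈ 𝓝 (Y x) := by
        have hx' : Y x = Z x := hx
        rw [hx']; exact hU
      exact hYc.continuousAt this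
    have h3 : ∀ᶠ y : I in 𝓝 x, it c i (Y y) = it c i (Z y) := by
      have : Tendsto (fun y : I => (y : ℝ)) (𝓝 x) (𝓝[I] (x : ℝ)) :=
        tendsto_nhdsWithin_iff.2 ⟨continuous_subtype_val.continuousAt,
          Eventually.of_forall fun y => y.2⟩
      exact this.eventually hi
    filter_upwards [h1, h2, h3] with y hy1 hy2 hy3
    exact hinj hy2 hy1 hy3
  have huniv : S = univ := (IsClopen.eq_univ ⟨hclosed, hopen⟩ ⟨⟨a, ha⟩, h0⟩)
  intro t ht
  have : (⟨t, ht⟩ : I) ∈ S := by rw [huniv]; trivial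
  exact this

/-- `R` is the (extended) external ray of angle `β` (in turns) of `z ^ 2 + c`, parametrised by
potential; it does not meet the backward orbit of the critical point, and it lands at `b`. -/
structure Ray (c : ℂ) (β : ℝ) (b : ℂ) (R : ℝ → ℂ) : Prop where
  cont : ContinuousOn R (Ioi 0)
  conj : ∀ t, 0 < t → ∀ j : ℕ, G c 0 < 2 ^ j * t → it c j (R t) = eR c (2 ^ j * β) (2 ^ j * t)
  ne : ∀ t, 0 < t → ∀ j : ℕ, it c j (R t) ≠ 0
  lands : Tendsto R (𝓝[>] 0) (𝓝 b)

/-- the ray of angle `β` lands at `b` -/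
def Lands (c : ℂ) (β : ℝ) (b : ℂ) : Prop := ∃ R, Ray c β b R

lemma exists_pow_gt (x : ℝ) {t : ℝ} (ht : 0 < t) : ∃ j : ℕ, x < 2 ^ j * t := by
  obtain ⟨j, hj⟩ := pow_unbounded_of_one_lt (x / t) (by norm_num : (1 : ℝ) < 2)
  exact ⟨j, by rwa [div_lt_iff₀ ht] at hj⟩

namespace Ray

variable {c b : ℂ} {β : ℝ} {R : ℝ → ℂ}

lemma green (h : Ray c β b R) {t : ℝ} (ht : 0 < t) : G c (R t) = t := by
  obtain ⟨j, hj⟩ := exists_pow_gt (G c 0) ht
  have h1 := congrArg (G c) (h.conj t ht j hj)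
  rw [G_it, G_eR hj] at h1
  have h2 : (0 : ℝ) < 2 ^ j := by positivity
  exact mul_left_cancel₀ h2.ne' h1

lemma far (h : Ray c β b R) {t : ℝ} (ht : G c 0 < t) : R t = eR c β t := by
  have := h.conj t (lt_of_le_of_lt (G_nonneg c 0) ht) 0 (by simpa using ht)
  simpa using this

lemma G_b (h : Ray c β b R) : G c b = 0 := by
  have h1 : Tendsto (fun t => G c (R t)) (𝓝[>] 0) (𝓝 (G c b)) :=
    ((continuous_G_right c).tendsto b).comp h.lands
  have h2 : Tendsto (fun t : ℝ => t) (𝓝[>] 0) (𝓝 (0 : ℝ)) := tendsto_nhdsWithin_of_tendsto_nhds tendsto_id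
  have h3 : Tendsto (fun t => G c (R t)) (𝓝[>] 0) (𝓝 0) := by
    refine h2.congr' ?_
    filter_upwards [self_mem_nhdsWithin] with t ht
    rw [h.green ht]
  exact tendsto_nhds_unique h1 h3

lemma push (h : Ray c β b R) : Ray c (2 * β) (f c b) (fun t => f c (R (t / 2))) where
  cont := by
    have h1 : Continuous (f c) := by
      have := continuous_it_right c 1
      exact this
    refine h1.comp_continuousOn (h.cont.comp (by fun_prop) ?_)
    intro t ht
    have ht' : (0 : ℝ) < t := ht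
    show (0 : ℝ) < t / 2
    linarith
  conj := by
    intro t ht j hj
    have h1 := h.conj (t / 2) (by linarith) (j + 1) (by rw [pow_succ]; linarith)
    rw [← it_succ', h1]
    congr 1 <;> (rw [pow_succ]; ring)
  ne := by
    intro t ht j
    rw [← it_succ']
    exact h.ne (t / 2) (by linarith) (j + 1)
  lands := by
    have h1 : Continuous (f c) := by
      have := continuous_it_right c 1
      exact this
    have h2 : Tendsto (fun t : ℝ => t / 2) (𝓝[>] 0) (𝓝[>] 0) := by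
      refine tendsto_nhdsWithin_iff.2 ⟨?_, ?_⟩
      · have : Tendsto (fun t : ℝ => t / 2) (𝓝 0) (𝓝 (0 / 2)) := by
          exact (continuous_id.div_const 2).tendsto 0
        rw [zero_div] at this
        exact tendsto_nhdsWithin_of_tendsto_nhds this
      · filter_upwards [self_mem_nhdsWithin] with t ht
        have ht' : (0 : ℝ) < t := ht
        show (0 : ℝ) < t / 2
        linarith
    exact (h1.tendsto b).comp (h.lands.comp h2)

lemma push_it (h : Ray c β b R) (j : ℕ) :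
    Ray c (2 ^ j * β) (it c j b) (fun t => it c j (R (t / 2 ^ j))) := by
  induction j with
  | zero => simpa using h
  | succ j ih =>
    have h1 := ih.push
    have h2 : 2 * (2 ^ j * β) = 2 ^ (j + 1) * β := by ring
    rw [h2, ← it_succ] at h1
    convert h1 using 2 with t
    rw [it_succ]
    congr 3
    rw [pow_succ]; field_simp

/-- on the Mandelbrot set -/
lemma of_mem (hM : G c 0 = 0) (h : Tendsto (eR c β) (𝓝[>] 0) (𝓝 b)) : Ray c β b (eR c β) where
  cont := by have := continuousOn_eR_right c β; rwa [hM] at this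
  conj := by
    intro t ht j _
    exact it_eR (by rw [hM]; exact ht) j
  ne := by
    intro t ht j h0
    rw [it_eR (by rw [hM]; exact ht) j] at h0
    have h1 : G c 0 < 2 ^ j * t := by rw [hM]; positivity
    have h2 := G_eR (β := 2 ^ j * β) h1
    rw [h0] at h2
    linarith
  lands := h

/-- uniqueness of the extended ray -/
lemma unique {b' : ℂ} {R' : ℝ → ℂ} (h : Ray c β b R) (h' : Ray c β b' R') :
    EqOn R R' (Ioi 0) := by
  have h0 := G_nonneg c 0
  refine unique_lift (c := c) isPreconnected_Ioi (a := G c 0 + 1) (show (0 : ℝ) < _ by linarith)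
    ?_ h.cont h'.cont ?_
  · rw [h.far (by linarith), h'.far (by linarith)]
  · intro t ht
    have ht' : (0 : ℝ) < t := ht
    obtain ⟨j, hj⟩ := exists_pow_gt (G c 0) ht'
    refine ⟨j, ?_, deriv_it_ne fun i _ => h'.ne t ht i⟩
    have h1 : ∀ᶠ s in 𝓝 t, G c 0 < 2 ^ j * s := by
      have : Continuous fun s : ℝ => 2 ^ j * s := by fun_prop
      exact this.tendsto t (Ioi_mem_nhds hj)
    filter_upwards [mem_nhdsWithin_of_mem_nhds h1, self_mem_nhdsWithin] with s hs hs'
    rw [h.conj s hs' j hs, h'.conj s hs' j hs]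

lemma b_unique {b' : ℂ} {R' : ℝ → ℂ} (h : Ray c β b R) (h' : Ray c β b' R') : b = b' := by
  have h1 := h.unique h'
  have h2 : Tendsto R (𝓝[>] 0) (𝓝 b') := by
    refine h'.lands.congr' ?_
    filter_upwards [self_mem_nhdsWithin] with t ht
    exact (h1 ht).symm
  exact tendsto_nhds_unique h.lands h2

lemma add_int (h : Ray c β b R) (m : ℤ) : Ray c (β + m) b R where
  cont := h.cont
  conj := by
    intro t ht j hj
    rw [h.conj t ht j hj]
    have : (2 : ℝ) ^ j * (β + m) = 2 ^ j * β + ((2 ^ j * m : ℤ) : ℝ) := by push_cast; ring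
    rw [this, eR_add_int]
  ne := h.ne
  lands := h.lands

/-- periodic angles -/
lemma periodic (h : Ray c β b R) {k : ℕ} {m : ℤ} (hk : 2 ^ k * β = β + m) :
    it c k b = b ∧ ∀ t, 0 < t → it c k (R t) = R (2 ^ k * t) := by
  have h1 := h.push_it k
  rw [hk] at h1
  have h2 := h.add_int m
  refine ⟨h1.b_unique h2, ?_⟩
  intro t ht
  have h3 := h1.unique h2 (show (0 : ℝ) < 2 ^ k * t by positivity)
  simp only at h3
  rw [← h3]
  congr 2
  field_simp

end Ray

lemma deriv_ne_of_expand {F : ℂ → ℂ} {z : ℂ} {r lam : ℝ} (hlam : 0 < lam) (hr : 0 < r)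
    (hF : DifferentiableAt ℂ F z)
    (h : ∀ w ∈ ball z r, lam * ‖w - z‖ ≤ ‖F w - F z‖) : deriv F z ≠ 0 := by
  intro h0
  have h1 : HasDerivAt F 0 z := by rw [← h0]; exact hF.hasDerivAt
  have h2 := (Asymptotics.isLittleO_iff.1 h1.isLittleO) (half_pos hlam)
  have h3 : ∀ᶠ w in 𝓝 z, w = z := by
    filter_upwards [h2, ball_mem_nhds z hr] with w hw hw'
    simp only [smul_zero, sub_zero] at hw
    have h4 := h w hw'
    by_contra hne
    have h5 : 0 < ‖w - z‖ := norm_pos_iff.2 (sub_ne_zero.2 hne)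
    nlinarith
  have h4 : ∀ᶠ w in 𝓝[≠] z, w = z := nhdsWithin_le_nhds h3
  have h5 : ∀ᶠ w in 𝓝[≠] z, w ≠ z := self_mem_nhdsWithin
  obtain ⟨w, hw, hw'⟩ := (h4.and h5).exists
  exact hw' hw

lemma isOpen_Gt : IsOpen {p : ℂ × ℝ | G p.1 0 < p.2} := by
  refine isOpen_lt ?_ continuous_snd
  exact continuous_G.comp (g := fun p : ℂ × ℂ => G p.1 p.2)
    (f := fun p : ℂ × ℝ => ((p.1, 0) : ℂ × ℂ)) (by fun_prop)

lemma tube_aux {c₀ : ℂ} {t₁ T : ℝ} {W : Set (ℂ × ℝ)}
    (hN : IsOpen W) (hsub : ∀ t ∈ Icc t₁ T, (c₀, t) ∈ W) :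
    ∃ δ > 0, ∀ c ∈ ball c₀ δ, ∀ t ∈ Icc t₁ T, (c, t) ∈ W := by
  have hsub' : ({c₀} : Set ℂ) ×ˢ (Icc t₁ T) ⊆ W := by
    intro p hp
    obtain ⟨hc, ht⟩ := mem_prod.1 hp
    have hc' : p.1 = c₀ := hc
    have h1 := hsub p.2 ht
    rw [← hc'] at h1
    exact h1
  obtain ⟨U, V, hU, hV, hcU, hIV, hUV⟩ := generalized_tube_lemma isCompact_singleton isCompact_Icc
    hN hsub'
  obtain ⟨δ, hδ, hδ'⟩ := Metric.isOpen_iff.1 hU c₀ (hcU (mem_singleton c₀))
  exact ⟨δ, hδ, fun c hc t ht => hUV (mk_mem_prod (hδ' hc) (hIV ht))⟩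

lemma ray_tube {c₀ b₀ : ℂ} {β r t₁ T : ℝ}
    (h : ∀ t ∈ Icc t₁ T, G c₀ 0 < t ∧ eR c₀ β t ∈ ball b₀ r) :
    ∃ δ > 0, ∀ c ∈ ball c₀ δ, ∀ t ∈ Icc t₁ T, G c 0 < t ∧ eR c β t ∈ ball b₀ r :=
  tube_aux ((continuousOn_eR β).isOpen_inter_preimage isOpen_Gt isOpen_ball) h

/-- **Stability of landing rays.** -/
theorem ray_stable {c₀ b₀ : ℂ} {β : ℝ} {k : ℕ} (hk : 0 < k) {m : ℤ}
    (hβ : 2 ^ k * β = β + m) (hM : G c₀ 0 = 0) (hL : Lands c₀ β b₀)
    (hρ : 1 < ‖deriv (it c₀ k) b₀‖) :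
    ∃ r₀ > 0, ∀ r, 0 < r → r ≤ r₀ → ∃ δ > 0, ∀ c ∈ ball c₀ δ,
      (∃ b ∈ closedBall b₀ r, it c k b = b) ∧
      ∀ b ∈ closedBall b₀ r, it c k b = b → Lands c β b := by
  obtain ⟨R₀, hR₀⟩ := hL
  have hfix := (hR₀.periodic hβ).1
  obtain ⟨lam, r₁, hlam, hr₁, hloc⟩ := local_expand hfix hρ
  refine ⟨r₁ / 2, by positivity, ?_⟩
  intro r hr hrr
  obtain ⟨δ₁, hδ₁, hexp₁⟩ := hloc r₁ hr₁ le_rfl
  obtain ⟨δ₂, hδ₂, hexp₂⟩ := hloc r hr (by linarith)
  set a : ℝ := 2 ^ k with ha
  have ha1 : 1 < a := one_lt_pow₀ (by norm_num) hk.ne'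
  have ha0 : 0 < a := by linarith
  -- the segment of the ray
  have h1 : ∀ᶠ t in 𝓝[>] (0 : ℝ), R₀ t ∈ ball b₀ r := hR₀.lands (ball_mem_nhds b₀ hr)
  obtain ⟨t₂, ht₂, ht₂'⟩ := (mem_nhdsGT_iff_exists_Ioo_subset).1 h1
  have ht₂0 : (0 : ℝ) < t₂ := ht₂
  set t₁ : ℝ := t₂ / (2 * a ^ 2) with ht₁
  have ht₁0 : 0 < t₁ := by positivity
  have hlt : a ^ 2 * t₁ < t₂ := by
    rw [ht₁]; field_simp; linarith
  obtain ⟨δ₃, hδ₃, htube⟩ := ray_tube (c₀ := c₀) (b₀ := b₀) (β := β) (r := r) (t₁ := t₁)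
    (T := a ^ 2 * t₁) (fun t ht => by
      have ht0 : 0 < t := lt_of_lt_of_le ht₁0 ht.1
      have h2 : G c₀ 0 < t := by rw [hM]; exact ht0
      refine ⟨h2, ?_⟩
      have h3 : R₀ t ∈ ball b₀ r := ht₂' ⟨ht0, lt_of_le_of_lt ht.2 hlt⟩
      rwa [hR₀.far h2] at h3)
  refine ⟨min δ₁ (min δ₂ δ₃), lt_min hδ₁ (lt_min hδ₂ hδ₃), ?_⟩
  intro c hc
  have hc1 : c ∈ ball c₀ δ₁ := ball_subset_ball (min_le_left _ _) hc
  have hc2 : c ∈ ball c₀ δ₂ := ball_subset_ball ((min_le_right _ _).trans (min_le_left _ _)) hc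
  have hc3 : c ∈ ball c₀ δ₃ := ball_subset_ball ((min_le_right _ _).trans (min_le_right _ _)) hc
  obtain ⟨hexp, -⟩ := hexp₁ c hc1
  obtain ⟨hexp', hsurj⟩ := hexp₂ c hc2
  have hseg : ∀ t ∈ Icc t₁ (a ^ 2 * t₁), G c 0 < t ∧ eR c β t ∈ ball b₀ r := htube c hc3
  have hsq : 1 < a ^ 2 := one_lt_pow₀ ha1 (by norm_num)
  have hG : G c 0 < t₁ := (hseg t₁ ⟨le_rfl, by nlinarith⟩).1
  have hG0 := G_nonneg c 0
  have hconj : ∀ t, t₁ ≤ t → it c k (eR c β t) = eR c β (a * t) := by
    intro t ht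
    rw [it_eR (lt_of_lt_of_le hG ht), hβ, eR_add_int]
  have hdiam : ∀ z ∈ closedBall b₀ r, ∀ w ∈ closedBall b₀ r, ‖z - w‖ ≤ 2 * r := by
    intro z hz w hw
    rw [mem_closedBall, dist_eq_norm] at hz hw
    calc ‖z - w‖ = ‖(z - b₀) - (w - b₀)‖ := by ring_nf
      _ ≤ ‖z - b₀‖ + ‖w - b₀‖ := norm_sub_le _ _
      _ ≤ _ := by linarith
  obtain ⟨R, hRc, hRe, hRF, hRD, hRl⟩ := ray_ext hlam hexp' hsurj hdiam ha1 ht₁0
    ((continuousOn_eR_right c β).mono (fun t ht => lt_trans hG ht)) hconj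
    (fun t ht => ball_subset_closedBall (hseg t ht).2)
  have hRFm : ∀ (j : ℕ) t, 0 < t → it c (k * j) (R t) = R (a ^ j * t) := by
    intro j
    induction j with
    | zero => intro t _; simp
    | succ j ih =>
      intro t ht
      have : k * (j + 1) = k + k * j := by ring
      rw [this, it_add, ih t ht, hRF _ (by positivity)]
      congr 1; ring
  have hβm : ∀ j : ℕ, ∃ m' : ℤ, a ^ j * β = β + m' := by
    intro j
    induction j with
    | zero => exact ⟨0, by simp⟩
    | succ j ih =>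
      obtain ⟨m', hm'⟩ := ih
      refine ⟨m + 2 ^ k * m', ?_⟩
      have : a ^ (j + 1) * β = a * (a ^ j * β) := by ring
      rw [this, hm', mul_add, hβ, ha]
      push_cast; ring
  -- derivative
  have hderiv : ∀ t, 0 < t → t ≤ a ^ 2 * t₁ → deriv (it c k) (R t) ≠ 0 := by
    intro t ht ht'
    have h2 := hRD t ht ht'
    refine deriv_ne_of_expand (r := r₁ / 2) (by linarith : 0 < lam) (by positivity)
      (differentiable_it_right c k _) ?_
    intro w hw
    apply hexp
    · rw [mem_closedBall, dist_eq_norm] at h2 ⊢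
      rw [mem_ball, dist_eq_norm] at hw
      calc ‖w - b₀‖ = ‖(w - R t) + (R t - b₀)‖ := by ring_nf
        _ ≤ ‖w - R t‖ + ‖R t - b₀‖ := norm_add_le _ _
        _ ≤ r₁ := by linarith
    · exact closedBall_subset_closedBall (by linarith) h2
  have hfar : ∀ t, 0 < t → ∀ j : ℕ, G c 0 < 2 ^ j * t →
      it c j (R t) = eR c (2 ^ j * β) (2 ^ j * t) := by
    intro t ht j hj
    have h2j : (0 : ℝ) < 2 ^ j := by positivity
    have hI : IsPreconnected (Ioi (G c 0 / 2 ^ j)) := isPreconnected_Ioi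
    have hIm : ∀ s ∈ Ioi (G c 0 / 2 ^ j), 0 < s ∧ G c 0 < 2 ^ j * s := by
      intro s hs
      have hs' : G c 0 / 2 ^ j < s := hs
      refine ⟨lt_of_le_of_lt (by positivity) hs', ?_⟩
      rw [div_lt_iff₀ h2j] at hs'
      linarith
    have h1j : (1 : ℝ) ≤ 2 ^ j := one_le_pow₀ (by norm_num)
    have hmain : EqOn (fun s => it c j (R s)) (fun s => eR c (2 ^ j * β) (2 ^ j * s))
        (Ioi (G c 0 / 2 ^ j)) := by
      refine unique_lift (c := c) hI (a := t₁) ?_ ?_ ?_ ?_ ?_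
      · show G c 0 / 2 ^ j < t₁
        rw [div_lt_iff₀ h2j]; nlinarith
      · show it c j (R t₁) = eR c (2 ^ j * β) (2 ^ j * t₁)
        rw [hRe t₁ le_rfl, it_eR hG]
      · exact (continuous_it_right c j).comp_continuousOn
          (hRc.mono fun s hs => (hIm s hs).1)
      · refine (continuousOn_eR_right c (2 ^ j * β)).comp (f := fun s : ℝ => 2 ^ j * s)
          (by fun_prop) ?_
        intro s hs
        exact (hIm s hs).2
      · intro s hs
        obtain ⟨hs0, hs1⟩ := hIm s hs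
        obtain ⟨i₁, hi₁⟩ := pow_unbounded_of_one_lt (t₁ / s) ha1
        rw [div_lt_iff₀ hs0] at hi₁
        -- choose a large multiple of `k`
        have hkj : j ≤ k * (i₁ + j) := by nlinarith
        refine ⟨k * (i₁ + j) - j, ?_, ?_⟩
        · have h3 : ∀ᶠ s' in 𝓝 s, t₁ < a ^ i₁ * s' := by
            have : Continuous fun s : ℝ => a ^ i₁ * s := by fun_prop
            exact this.tendsto s (Ioi_mem_nhds hi₁)
          filter_upwards [mem_nhdsWithin_of_mem_nhds h3, self_mem_nhdsWithin] with s' hs' hs''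
          obtain ⟨hs0', hs1'⟩ := hIm s' hs''
          rw [← it_add, Nat.sub_add_cancel hkj, hRFm _ _ hs0', it_eR hs1']
          have h4 : t₁ ≤ a ^ (i₁ + j) * s' := by
            rw [pow_add]
            have : (1 : ℝ) ≤ a ^ j := one_le_pow₀ ha1.le
            have h5 : 0 < a ^ i₁ * s' := by positivity
            nlinarith
          rw [hRe _ h4]
          obtain ⟨m', hm'⟩ := hβm (i₁ + j)
          have h5 : (2 : ℝ) ^ (k * (i₁ + j) - j) * 2 ^ j = a ^ (i₁ + j) := by
            rw [← pow_add, Nat.sub_add_cancel hkj, ha, ← pow_mul]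
          rw [← mul_assoc, h5, ← mul_assoc, h5, hm', eR_add_int]
        · apply deriv_it_ne
          intro l _ h0
          rw [it_eR hs1] at h0
          have h6 : G c 0 < 2 ^ l * (2 ^ j * s) := by
            have : (1 : ℝ) ≤ 2 ^ l := one_le_pow₀ (by norm_num)
            have h7 : (0 : ℝ) < 2 ^ j * s := by positivity
            nlinarith
          have h7 := G_eR (β := 2 ^ l * (2 ^ j * β)) h6
          rw [h0] at h7
          linarith
    exact hmain (show G c 0 / 2 ^ j < t by rw [div_lt_iff₀ h2j]; linarith)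
  have hgreen : ∀ t, 0 < t → G c (R t) = t := by
    intro t ht
    obtain ⟨j, hj⟩ := exists_pow_gt (G c 0) ht
    have h1 := congrArg (G c) (hfar t ht j hj)
    rw [G_it, G_eR hj] at h1
    have h2 : (0 : ℝ) < 2 ^ j := by positivity
    exact mul_left_cancel₀ h2.ne' h1
  have hne : ∀ t, 0 < t → ∀ j : ℕ, it c j (R t) ≠ 0 := by
    intro t ht j h0
    -- reduce to `j < k`
    have h1 : it c (j % k) (R (a ^ (j / k) * t)) = 0 := by
      rw [← hRFm _ _ ht, ← it_add, Nat.mod_add_div]; exact h0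
    set s := a ^ (j / k) * t with hs
    have hs0 : 0 < s := by positivity
    have h2 := congrArg (G c) h1
    rw [G_it, hgreen s hs0] at h2
    have h3 : s ≤ a ^ 2 * t₁ := by
      have h4 : (1 : ℝ) ≤ 2 ^ (j % k) := one_le_pow₀ (by norm_num)
      have h5 : (1 : ℝ) ≤ a ^ 2 := one_le_pow₀ ha1.le
      nlinarith
    exact ne_of_deriv_it_ne (hderiv s hs0 h3) (j % k) (Nat.mod_lt _ hk) h1
  refine ⟨?_, ?_⟩
  · -- the fixed point: limit of the ray, by the contraction
    have hcompl : ∃ b ∈ closedBall b₀ r, it c k b = b := by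
      choose! g hgD hFg using hsurj
      have hglip : ∀ z ∈ closedBall b₀ r, ∀ w ∈ closedBall b₀ r,
          ‖g z - g w‖ ≤ lam⁻¹ * ‖z - w‖ := by
        intro z hz w hw
        have h2 := hexp' (g z) (hgD _ hz) (g w) (hgD _ hw)
        rw [hFg _ hz, hFg _ hw] at h2
        rw [inv_mul_eq_div, le_div_iff₀ (by linarith : (0 : ℝ) < lam)]
        linarith
      have hmaps : MapsTo g (closedBall b₀ r) (closedBall b₀ r) := fun z hz => hgD z hz
      have hK0 : 0 ≤ lam⁻¹ := inv_nonneg.2 (by linarith)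
      have hcontr : ContractingWith ⟨lam⁻¹, hK0⟩ (hmaps.restrict g _ _) := by
        refine ⟨?_, ?_⟩
        · have : lam⁻¹ < 1 := inv_lt_one_of_one_lt₀ hlam
          exact_mod_cast this
        · refine LipschitzWith.of_dist_le_mul ?_
          intro x y
          rw [Subtype.dist_eq, Subtype.dist_eq, dist_eq_norm, dist_eq_norm]
          exact hglip x x.2 y y.2
      obtain ⟨y, hy, hfix', -⟩ := ContractingWith.exists_fixedPoint'
        (isClosed_closedBall.isComplete) hmaps hcontr (mem_closedBall_self hr.le) (edist_ne_top _ _)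
      refine ⟨y, hy, ?_⟩
      have h2 : g y = y := hfix'
      have h3 := hFg y hy
      rwa [h2] at h3
    exact hcompl
  · intro b hb hFb
    exact ⟨R, hRc, hfar, hne, hRl b hb hFb⟩

end Pool.Agent.Work.MLC
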