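import Pool.Agent.Work.MLC.Defs
import Pool.Agent.Work.MLC.Cross25
import Pool.Agent.Work.MLC.Stab4

set_option autoImplicit false

/-! # Rays landing at different points are unlinked (helper67) -/

namespace Pool.Agent.Work.MLC

open Filter Topology Metric Set Complex

namespace Unl

/-- `arg (1 - exp (2 π i x)) = π x - π / 2` for `0 < x < 1`. -/
theorem arg_one_sub_pos {x : ℝ} (h0 : 0 < x) (h1 : x < 1) :
    (1 - exp (2 * Real.pi * x * I)).arg = Real.pi * x - Real.pi / 2 := by
  have hpi := Real.pi_pos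
  have e : 1 - exp (2 * Real.pi * x * I) =
      ((2 * Real.sin (Real.pi * x) : ℝ) : ℂ) *
        exp (((Real.pi * x - Real.pi / 2 : ℝ) : ℂ) * I) := by
    have h2 : exp (2 * Real.pi * x * I) = exp (((Real.pi * x : ℝ) : ℂ) * I) ^ 2 := by
      rw [← Complex.exp_nat_mul]; push_cast; ring_nf
    have h3 : exp (((Real.pi * x - Real.pi / 2 : ℝ) : ℂ) * I) =
        exp (((Real.pi * x : ℝ) : ℂ) * I) * (-I) := by
      have : ((Real.pi * x - Real.pi / 2 : ℝ) : ℂ) * I =
          ((Real.pi * x : ℝ) : ℂ) * I + (-(Real.pi / 2 * I)) := by push_cast; ring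
      rw [this, Complex.exp_add, Complex.exp_neg, Complex.exp_pi_div_two_mul_I, Complex.inv_I]
    rw [h2, h3, Complex.exp_mul_I, ← Complex.ofReal_cos, ← Complex.ofReal_sin, Complex.ofReal_mul,
      Complex.ofReal_ofNat]
    have h4 : ((Real.cos (Real.pi * x) : ℝ) : ℂ) ^ 2 + ((Real.sin (Real.pi * x) : ℝ) : ℂ) ^ 2 = 1 := by
      rw [← Complex.ofReal_pow, ← Complex.ofReal_pow, ← Complex.ofReal_add,
        Real.cos_sq_add_sin_sq, Complex.ofReal_one]
    linear_combination (-1 : ℂ) * h4 + ((Real.sin (Real.pi * x) : ℝ) : ℂ) ^ 2 * Complex.I_sq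
  rw [e]
  have h5 : 0 < 2 * Real.sin (Real.pi * x) := by
    have : 0 < Real.sin (Real.pi * x) := Real.sin_pos_of_pos_of_lt_pi (by positivity) (by nlinarith)
    linarith
  rw [Complex.arg_real_mul _ h5, Complex.arg_exp_mul_I]
  rw [toIocMod_eq_iff]
  refine ⟨⟨by nlinarith, by nlinarith⟩, 0, by simp⟩

theorem arg_one_sub_neg {x : ℝ} (h0 : -1 < x) (h1 : x < 0) :
    (1 - exp (2 * Real.pi * x * I)).arg = Real.pi * x + Real.pi / 2 := by
  have h := arg_one_sub_pos (x := x + 1) (by linarith) (by linarith)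
  have e : exp (2 * Real.pi * ((x + 1 : ℝ) : ℂ) * I) = exp (2 * Real.pi * x * I) := by
    have : 2 * Real.pi * ((x + 1 : ℝ) : ℂ) * I = 2 * Real.pi * x * I + 2 * Real.pi * I := by
      push_cast; ring
    rw [this, Complex.exp_periodic]
  rw [e] at h
  rw [h]; ring

/-- `1 - exp (2 π i x)` has positive real part if `x` is not an integer -/
theorem re_one_sub_pos {x : ℝ} (h : ∀ k : ℤ, x ≠ k) : 0 < (1 - exp (2 * Real.pi * x * I)).re := by
  have e : (2 : ℂ) * Real.pi * x * I = ((2 * Real.pi * x : ℝ) : ℂ) * I := by push_cast; ring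
  rw [e, Complex.sub_re, Complex.one_re, Complex.exp_ofReal_mul_I_re]
  rcases (Real.cos_le_one (2 * Real.pi * x)).lt_or_eq with h1 | h1
  · linarith
  · exfalso
    rw [Real.cos_eq_one_iff] at h1
    obtain ⟨k, hk⟩ := h1
    apply h k
    have h2 : (2 * Real.pi) ≠ 0 := by positivity
    have h3 : (2 * Real.pi) * x = (2 * Real.pi) * k := by linarith
    exact mul_left_cancel₀ h2 h3

/-- the curve `g`, scaled by `exp (-|s|)`, stays strictly inside a half plane -/
theorem side_bound {g : ℝ → ℂ} (hg : Continuous g) {u v w : ℂ}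
    (hu : Tendsto (fun s : ℝ => g (-s) * Real.exp (-s)) atTop (𝓝 u))
    (hv : Tendsto (fun s : ℝ => g s * Real.exp (-s)) atTop (𝓝 v))
    (hwu : (u * w).re < 1) (hwv : (v * w).re < 1) :
    ∃ δ : ℝ, 0 < δ ∧ ∀ᶠ R : ℝ in atTop, ∀ s ∈ Icc (-R) R, (g s * w).re ≤ (1 - δ) * Real.exp R := by
  obtain ⟨δ, hδ, hδ1, hδu, hδv⟩ : ∃ δ : ℝ, 0 < δ ∧ δ < 1 ∧ (u * w).re < 1 - δ ∧
      (v * w).re < 1 - δ := by
    refine ⟨min (1 / 2) (min ((1 - (u * w).re) / 2) ((1 - (v * w).re) / 2)), ?_, ?_, ?_, ?_⟩
    · refine lt_min (by norm_num) (lt_min (by linarith) (by linarith))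
    · exact (min_le_left _ _).trans_lt (by norm_num)
    · have : min (1 / 2) (min ((1 - (u * w).re) / 2) ((1 - (v * w).re) / 2)) ≤
        (1 - (u * w).re) / 2 := (min_le_right _ _).trans (min_le_left _ _)
      linarith
    · have : min (1 / 2) (min ((1 - (u * w).re) / 2) ((1 - (v * w).re) / 2)) ≤
        (1 - (v * w).re) / 2 := (min_le_right _ _).trans (min_le_right _ _)
      linarith
  refine ⟨δ, hδ, ?_⟩
  have h1 : ∀ᶠ s : ℝ in atTop, (g (-s) * w).re < (1 - δ) * Real.exp s := by
    have h2 : Tendsto (fun s : ℝ => (g (-s) * Real.exp (-s) * w).re) atTop (𝓝 (u * w).re) :=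
      (Complex.continuous_re.tendsto _).comp (hu.mul_const w)
    filter_upwards [h2.eventually (gt_mem_nhds hδu)] with s hs
    have e : g (-s) * (Real.exp (-s) : ℂ) * w = (Real.exp (-s) : ℝ) * (g (-s) * w) := by ring
    rw [e, Complex.re_ofReal_mul, Real.exp_neg] at hs
    have hp := Real.exp_pos s
    rw [inv_mul_lt_iff₀ hp] at hs
    linarith
  have h2 : ∀ᶠ s : ℝ in atTop, (g s * w).re < (1 - δ) * Real.exp s := by
    have h2 : Tendsto (fun s : ℝ => (g s * Real.exp (-s) * w).re) atTop (𝓝 (v * w).re) :=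
      (Complex.continuous_re.tendsto _).comp (hv.mul_const w)
    filter_upwards [h2.eventually (gt_mem_nhds hδv)] with s hs
    have e : g s * (Real.exp (-s) : ℂ) * w = (Real.exp (-s) : ℝ) * (g s * w) := by ring
    rw [e, Complex.re_ofReal_mul, Real.exp_neg] at hs
    have hp := Real.exp_pos s
    rw [inv_mul_lt_iff₀ hp] at hs
    linarith
  obtain ⟨S, hS⟩ := (eventually_atTop.1 (h1.and h2))
  obtain ⟨C, hC⟩ := (isCompact_Icc (a := -S) (b := S)).exists_bound_of_continuousOn
    (f := fun s => g s * w) (by fun_prop)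
  have h3 : ∀ᶠ R : ℝ in atTop, C ≤ (1 - δ) * Real.exp R := by
    have : Tendsto (fun R : ℝ => (1 - δ) * Real.exp R) atTop atTop :=
      Real.tendsto_exp_atTop.const_mul_atTop (by linarith)
    exact this.eventually_ge_atTop C
  filter_upwards [h3] with R hR s hs
  rcases le_or_gt s (-S) with h4 | h4
  · have h5 := (hS (-s) (by linarith)).1
    rw [neg_neg] at h5
    have h6 : Real.exp (-s) ≤ Real.exp R := Real.exp_le_exp.2 (by linarith [hs.1])
    nlinarith
  · rcases le_or_gt S s with h5 | h5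
    · have h6 := (hS s h5).2
      have h7 : Real.exp s ≤ Real.exp R := Real.exp_le_exp.2 hs.2
      nlinarith
    · have h6 := hC s ⟨h4.le, h5.le⟩
      exact ((le_abs_self _).trans (Complex.abs_re_le_norm _)).trans (h6.trans hR)

/-- one side of the square: the difference stays in an open half plane -/
theorem side_pos {g h : ℝ → ℂ} (hg : Continuous g) {u v w : ℂ}
    (hu : Tendsto (fun s : ℝ => g (-s) * Real.exp (-s)) atTop (𝓝 u))
    (hv : Tendsto (fun s : ℝ => g s * Real.exp (-s)) atTop (𝓝 v))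
    (hwu : (u * w).re < 1) (hwv : (v * w).re < 1)
    (hh : Tendsto (fun R : ℝ => h R * Real.exp (-R) * w) atTop (𝓝 1)) :
    ∀ᶠ R : ℝ in atTop, ∀ s ∈ Icc (-R) R, 0 < ((h R - g s) * w).re := by
  obtain ⟨δ, hδ, hb⟩ := side_bound hg hu hv hwu hwv
  have h1 : Tendsto (fun R : ℝ => (h R * Real.exp (-R) * w).re) atTop (𝓝 (1 : ℂ).re) :=
    (Complex.continuous_re.tendsto _).comp hh
  filter_upwards [hb, h1.eventually (lt_mem_nhds (show 1 - δ < (1 : ℂ).re by simp [hδ]))]
    with R hR hR2 s hs
  have h2 := hR s hs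
  have e : h R * (Real.exp (-R) : ℂ) * w = (Real.exp (-R) : ℝ) * (h R * w) := by ring
  rw [e, Complex.re_ofReal_mul, Real.exp_neg, lt_inv_mul_iff₀ (Real.exp_pos R)] at hR2
  rw [sub_mul, Complex.sub_re]
  linarith

/-- along a segment on which `k` stays in the right half plane, the continuous logarithm changes
like the principal one -/
theorem side_log {l k : ℝ → ℂ} (hl : Continuous l) (hk : Continuous k) {κ : ℂ} {x y : ℝ}
    (hxy : x ≤ y) (hexp : ∀ s, exp (l s) = κ * k s) (hpos : ∀ s ∈ Icc x y, 0 < (k s).re) :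
    (l y).im - (l x).im = (k y).arg - (k x).arg := by
  have hcont : ContinuousOn (fun s => (l s - log (k s)).im) (Icc x y) := by
    have h1 : ContinuousOn (fun s => log (k s)) (Icc x y) := by
      intro s hs
      have h2 : ContinuousAt log (k s) := continuousAt_clog (Or.inl (hpos s hs))
      exact (ContinuousAt.comp (f := k) h2 hk.continuousAt).continuousWithinAt
    exact Complex.continuous_im.comp_continuousOn (hl.continuousOn.sub h1)
  have hne : ∀ s ∈ Icc x y, k s ≠ 0 := by
    intro s hs h0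
    have := hpos s hs
    rw [h0] at this; simp at this
  have hex : ∀ s ∈ Icc x y, exp (l s - log (k s)) = κ := by
    intro s hs
    rw [Complex.exp_sub, hexp, Complex.exp_log (hne s hs), mul_div_assoc, div_self (hne s hs),
      mul_one]
  -- differences are multiples of `2 π`
  have hdiff : ∀ s ∈ Icc x y, ∃ m : ℤ, (l s - log (k s)).im - (l x - log (k x)).im =
      m * (2 * Real.pi) := by
    intro s hs
    have h1 : exp (l s - log (k s)) = exp (l x - log (k x)) := by
      rw [hex s hs, hex x ⟨le_rfl, hxy⟩]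
    obtain ⟨m, hm⟩ := Complex.exp_eq_exp_iff_exists_int.1 h1
    refine ⟨m, ?_⟩
    rw [hm]
    simp [Complex.add_im, Complex.mul_im]
  have hmain : (l y - log (k y)).im = (l x - log (k x)).im := by
    by_contra hcon
    obtain ⟨m, hm⟩ := hdiff y ⟨hxy, le_rfl⟩
    have hm0 : m ≠ 0 := by
      rintro rfl
      apply hcon
      rw [Int.cast_zero, zero_mul] at hm
      linarith
    set F : ℝ → ℝ := fun s => (l s - log (k s)).im with hF
    have hpi := Real.pi_pos
    rcases lt_or_gt_of_ne hm0 with h | h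
    · have h' : (m : ℝ) ≤ -1 := by exact_mod_cast (by omega : m ≤ -1)
      have hIVT : F x - Real.pi ∈ F '' Icc x y := by
        apply intermediate_value_Icc' hxy hcont
        constructor
        · have : F y - F x = m * (2 * Real.pi) := hm
          nlinarith
        · linarith
      obtain ⟨s, hs, hsF⟩ := hIVT
      obtain ⟨j, hj⟩ := hdiff s hs
      have h1 : F s - F x = j * (2 * Real.pi) := hj
      have h2 : (j : ℝ) * 2 = -1 := by
        have : (j * 2 : ℝ) * Real.pi = -1 * Real.pi := by linarith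
        exact mul_right_cancel₀ hpi.ne' this
      have h3 : j * 2 = -1 := by exact_mod_cast h2
      omega
    · have h' : (1 : ℝ) ≤ m := by exact_mod_cast (by omega : 1 ≤ m)
      have hIVT : F x + Real.pi ∈ F '' Icc x y := by
        apply intermediate_value_Icc hxy hcont
        constructor
        · linarith
        · have : F y - F x = m * (2 * Real.pi) := hm
          nlinarith
      obtain ⟨s, hs, hsF⟩ := hIVT
      obtain ⟨j, hj⟩ := hdiff s hs
      have h1 : F s - F x = j * (2 * Real.pi) := hj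
      have h2 : (j : ℝ) * 2 = 1 := by
        have : (j * 2 : ℝ) * Real.pi = 1 * Real.pi := by linarith
        exact mul_right_cancel₀ hpi.ne' this
      have h3 : j * 2 = 1 := by exact_mod_cast h2
      omega
  simp only [Complex.sub_im, Complex.log_im] at hmain
  linarith

/-- the argument of the scaled difference at a corner -/
theorem corner {h g : ℝ → ℂ} {x y : ℝ}
    (hh : Tendsto (fun R : ℝ => h R * Real.exp (-R)) atTop (𝓝 (exp (2 * Real.pi * x * I))))
    (hg : Tendsto (fun R : ℝ => g R * Real.exp (-R)) atTop (𝓝 (exp (2 * Real.pi * y * I))))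
    (hxy : ∀ k : ℤ, y - x ≠ k) :
    Tendsto (fun R : ℝ => ((h R - g R) * exp (-(2 * Real.pi * x * I))).arg) atTop
      (𝓝 (1 - exp (2 * Real.pi * ((y - x : ℝ) : ℂ) * I)).arg) := by
  have hlim : Tendsto (fun R : ℝ => ((Real.exp (-R) : ℝ) : ℂ) *
      ((h R - g R) * exp (-(2 * Real.pi * x * I)))) atTop
      (𝓝 (1 - exp (2 * Real.pi * ((y - x : ℝ) : ℂ) * I))) := by
    have h1 := (hh.sub hg).mul_const (exp (-(2 * Real.pi * x * I)))
    have e1 : (exp (2 * Real.pi * x * I) - exp (2 * Real.pi * y * I)) *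
        exp (-(2 * Real.pi * x * I)) = 1 - exp (2 * Real.pi * ((y - x : ℝ) : ℂ) * I) := by
      rw [sub_mul, ← Complex.exp_add, ← Complex.exp_add]
      simp only [add_neg_cancel, Complex.exp_zero]
      congr 2
      push_cast; ring
    rw [e1] at h1
    refine h1.congr fun R => ?_
    ring
  have hpos := re_one_sub_pos hxy
  have h2 : Tendsto (fun R : ℝ => (((Real.exp (-R) : ℝ) : ℂ) *
      ((h R - g R) * exp (-(2 * Real.pi * x * I)))).arg) atTop
      (𝓝 (1 - exp (2 * Real.pi * ((y - x : ℝ) : ℂ) * I)).arg) :=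
    (Complex.continuousAt_arg (Or.inl hpos)).tendsto.comp hlim
  refine h2.congr fun R => ?_
  exact Complex.arg_real_mul _ (Real.exp_pos _)

/-- **abstract unlinking lemma**: two curves whose four ends go to infinity in interlaced
directions meet. -/
theorem meet {g g' : ℝ → ℂ} (hg : Continuous g) (hg' : Continuous g') {a b a' d : ℝ}
    (h1 : a < b) (h2 : b < a') (h3 : a' < d) (h4 : d < a + 1)
    (ga : Tendsto (fun s : ℝ => g (-s) * Real.exp (-s)) atTop (𝓝 (exp (2 * Real.pi * a * I))))
    (ga' : Tendsto (fun s : ℝ => g s * Real.exp (-s)) atTop (𝓝 (exp (2 * Real.pi * a' * I))))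
    (gb : Tendsto (fun s : ℝ => g' (-s) * Real.exp (-s)) atTop (𝓝 (exp (2 * Real.pi * b * I))))
    (gd : Tendsto (fun s : ℝ => g' s * Real.exp (-s)) atTop (𝓝 (exp (2 * Real.pi * d * I)))) :
    ∃ s t, g s = g' t := by
  by_contra hcon
  push Not at hcon
  obtain ⟨l, hl, hle⟩ := exists_log_plane (D := fun p => g p.1 - g' p.2)
    (by fun_prop) (fun p => sub_ne_zero.2 (hcon _ _))
  have nint : ∀ x : ℝ, (0 < x ∧ x < 1) ∨ (-1 < x ∧ x < 0) → ∀ k : ℤ, x ≠ k := by
    rintro x (⟨hx0, hx1⟩ | ⟨hx0, hx1⟩) k rfl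
    · have e1 : 0 < k := by exact_mod_cast hx0
      have e2 : k < 1 := by exact_mod_cast hx1
      omega
    · have e1 : -1 < k := by exact_mod_cast hx0
      have e2 : k < 0 := by exact_mod_cast hx1
      omega
  have hre : ∀ x y : ℝ, ((0 < y - x ∧ y - x < 1) ∨ (-1 < y - x ∧ y - x < 0)) →
      (exp (2 * Real.pi * y * I) * exp (-(2 * Real.pi * x * I))).re < 1 := by
    intro x y hxy
    have := re_one_sub_pos (nint _ hxy)
    rw [Complex.sub_re, Complex.one_re] at this
    rw [← Complex.exp_add]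
    have e : 2 * Real.pi * (y : ℂ) * I + -(2 * Real.pi * x * I) =
        2 * Real.pi * ((y - x : ℝ) : ℂ) * I := by push_cast; ring
    rw [e]; linarith
  have hone : ∀ {h : ℝ → ℂ} {x : ℝ},
      Tendsto (fun R : ℝ => h R * Real.exp (-R)) atTop (𝓝 (exp (2 * Real.pi * x * I))) →
      Tendsto (fun R : ℝ => h R * Real.exp (-R) * exp (-(2 * Real.pi * x * I))) atTop (𝓝 1) := by
    intro h x hh
    have := hh.mul_const (exp (-(2 * Real.pi * x * I)))
    rwa [← Complex.exp_add, add_neg_cancel, Complex.exp_zero] at this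
  have hS1 := side_pos (h := fun R => g' (-R)) hg ga ga' (hre b a (Or.inr ⟨by linarith, by linarith⟩))
    (hre b a' (Or.inl ⟨by linarith, by linarith⟩)) (hone gb)
  have hS2 := side_pos (h := fun R => g R) hg' gb gd (hre a' b (Or.inr ⟨by linarith, by linarith⟩))
    (hre a' d (Or.inl ⟨by linarith, by linarith⟩)) (hone ga')
  have hS3 := side_pos (h := fun R => g' R) hg ga ga' (hre d a (Or.inr ⟨by linarith, by linarith⟩))
    (hre d a' (Or.inr ⟨by linarith, by linarith⟩)) (hone gd)
  have hS4 := side_pos (h := fun R => g (-R)) hg' gb gd (hre a b (Or.inl ⟨by linarith, by linarith⟩))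
    (hre a d (Or.inl ⟨by linarith, by linarith⟩)) (hone ga)
  -- the eight corner arguments
  have c1 := corner (h := fun R => g' (-R)) (g := g) gb ga' (nint _ (Or.inl ⟨by linarith, by linarith⟩))
  have c2 := corner (h := fun R => g' (-R)) (g := fun R => g (-R)) gb ga
    (nint _ (Or.inr ⟨by linarith, by linarith⟩))
  have c3 := corner (h := g) (g := g') ga' gd (nint _ (Or.inl ⟨by linarith, by linarith⟩))
  have c4 := corner (h := g) (g := fun R => g' (-R)) ga' gb
    (nint _ (Or.inr ⟨by linarith, by linarith⟩))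
  have c5 := corner (h := g') (g := g) gd ga' (nint _ (Or.inr ⟨by linarith, by linarith⟩))
  have c6 := corner (h := g') (g := fun R => g (-R)) gd ga (nint _ (Or.inr ⟨by linarith, by linarith⟩))
  have c7 := corner (h := fun R => g (-R)) (g := g') ga gd (nint _ (Or.inl ⟨by linarith, by linarith⟩))
  have c8 := corner (h := fun R => g (-R)) (g := fun R => g' (-R)) ga gb
    (nint _ (Or.inl ⟨by linarith, by linarith⟩))
  rw [arg_one_sub_pos (by linarith) (by linarith)] at c1 c3 c7 c8
  rw [arg_one_sub_neg (by linarith) (by linarith)] at c2 c4 c5 c6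
  have hsum := (((c1.sub c2).add (c3.sub c4)).sub (c5.sub c6)).sub (c7.sub c8)
  have hzero : ∀ᶠ R : ℝ in atTop,
      (((g' (-R) - g R) * exp (-(2 * Real.pi * b * I))).arg -
        ((g' (-R) - g (-R)) * exp (-(2 * Real.pi * b * I))).arg +
      (((g R - g' R) * exp (-(2 * Real.pi * a' * I))).arg -
        ((g R - g' (-R)) * exp (-(2 * Real.pi * a' * I))).arg) -
      (((g' R - g R) * exp (-(2 * Real.pi * d * I))).arg -
        ((g' R - g (-R)) * exp (-(2 * Real.pi * d * I))).arg) -
      (((g (-R) - g' R) * exp (-(2 * Real.pi * a * I))).arg -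
        ((g (-R) - g' (-R)) * exp (-(2 * Real.pi * a * I))).arg)) = 0 := by
    filter_upwards [hS1, hS2, hS3, hS4, eventually_ge_atTop 0] with R k1 k2 k3 k4 hR
    have hRR : -R ≤ R := by linarith
    have q1 := side_log (l := fun s => l (s, -R))
      (k := fun s => (g' (-R) - g s) * exp (-(2 * Real.pi * b * I)))
      (κ := -exp (2 * Real.pi * b * I)) (by fun_prop) (by fun_prop) hRR
      (by
        intro s
        rw [hle]
        have : exp (2 * Real.pi * b * I) * exp (-(2 * Real.pi * b * I)) = 1 := by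
          rw [← Complex.exp_add, add_neg_cancel, Complex.exp_zero]
        linear_combination (-(g s - g' (-R))) * this) k1
    have q2 := side_log (l := fun t => l (R, t))
      (k := fun t => (g R - g' t) * exp (-(2 * Real.pi * a' * I)))
      (κ := exp (2 * Real.pi * a' * I)) (by fun_prop) (by fun_prop) hRR
      (by
        intro s
        rw [hle]
        have : exp (2 * Real.pi * a' * I) * exp (-(2 * Real.pi * a' * I)) = 1 := by
          rw [← Complex.exp_add, add_neg_cancel, Complex.exp_zero]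
        linear_combination (-(g R - g' s)) * this) k2
    have q3 := side_log (l := fun s => l (s, R))
      (k := fun s => (g' R - g s) * exp (-(2 * Real.pi * d * I)))
      (κ := -exp (2 * Real.pi * d * I)) (by fun_prop) (by fun_prop) hRR
      (by
        intro s
        rw [hle]
        have : exp (2 * Real.pi * d * I) * exp (-(2 * Real.pi * d * I)) = 1 := by
          rw [← Complex.exp_add, add_neg_cancel, Complex.exp_zero]
        linear_combination (-(g s - g' R)) * this) k3
    have q4 := side_log (l := fun t => l (-R, t))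
      (k := fun t => (g (-R) - g' t) * exp (-(2 * Real.pi * a * I)))
      (κ := exp (2 * Real.pi * a * I)) (by fun_prop) (by fun_prop) hRR
      (by
        intro s
        rw [hle]
        have : exp (2 * Real.pi * a * I) * exp (-(2 * Real.pi * a * I)) = 1 := by
          rw [← Complex.exp_add, add_neg_cancel, Complex.exp_zero]
        linear_combination (-(g (-R) - g' s)) * this) k4
    rw [← q1, ← q2, ← q3, ← q4]
    ring
  have hlim0 := tendsto_nhds_unique (hsum.congr' hzero) tendsto_const_nhds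
  have hpi := Real.pi_pos
  have : -(2 * Real.pi) = 0 := by
    rw [← hlim0]; ring
  linarith

/-- the two rays of angles `a`, `a'` joined at their landing point -/
noncomputable def join (c : ℂ) (a a' : ℝ) (z : ℂ) (s : ℝ) : ℂ :=
  if s < 0 then eta c ((-s : ℝ) + 2 * Real.pi * a * I)
  else if 0 < s then eta c ((s : ℝ) + 2 * Real.pi * a' * I) else z

theorem join_neg {c : ℂ} {a a' : ℝ} {z : ℂ} {s : ℝ} (h : s < 0) :
    join c a a' z s = eta c ((-s : ℝ) + 2 * Real.pi * a * I) := by
  unfold join; rw [if_pos h]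

theorem join_pos {c : ℂ} {a a' : ℝ} {z : ℂ} {s : ℝ} (h : 0 < s) :
    join c a a' z s = eta c ((s : ℝ) + 2 * Real.pi * a' * I) := by
  unfold join; rw [if_neg (not_lt.2 h.le), if_pos h]

theorem join_zero {c : ℂ} {a a' : ℝ} {z : ℂ} : join c a a' z 0 = z := by
  unfold join; simp

theorem ray_re (x a : ℝ) : ((x : ℂ) + 2 * Real.pi * a * I).re = x := by
  simp

theorem continuousAt_ray {c : ℂ} (hc : G c 0 = 0) (a : ℝ) {x : ℝ} (hx : 0 < x) :
    ContinuousAt (fun x : ℝ => eta c ((x : ℂ) + 2 * Real.pi * a * I)) x := by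
  have h1 : ContinuousAt (eta c) ((x : ℂ) + 2 * Real.pi * a * I) :=
    (differentiableAt_eta (by rw [hc, ray_re]; exact hx)).continuousAt
  have h2 : Continuous (fun x : ℝ => (x : ℂ) + 2 * Real.pi * a * I) := by fun_prop
  exact ContinuousAt.comp (f := fun x : ℝ => (x : ℂ) + 2 * Real.pi * a * I) h1 h2.continuousAt

theorem continuous_join {c : ℂ} (hc : G c 0 = 0) {a a' : ℝ} {z : ℂ}
    (ha : Tendsto (fun x : ℝ => eta c ((x : ℂ) + 2 * Real.pi * a * I)) (𝓝[>] 0) (𝓝 z))
    (ha' : Tendsto (fun x : ℝ => eta c ((x : ℂ) + 2 * Real.pi * a' * I)) (𝓝[>] 0) (𝓝 z)) :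
    Continuous (join c a a' z) := by
  rw [continuous_iff_continuousAt]
  intro s
  rcases lt_trichotomy s 0 with h | h | h
  · have h1 := continuousAt_ray hc a (x := -s) (by linarith)
    have h2 : ContinuousAt (fun s : ℝ => eta c ((-s : ℝ) + 2 * Real.pi * a * I)) s :=
      ContinuousAt.comp (f := fun s : ℝ => -s) h1 continuous_neg.continuousAt
    refine h2.congr ?_
    filter_upwards [gt_mem_nhds h] with t ht
    exact (join_neg ht).symm
  · subst h
    rw [continuousAt_iff_continuous_left'_right']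
    constructor
    · unfold ContinuousWithinAt
      rw [join_zero]
      have h1 : Tendsto (fun s : ℝ => -s) (𝓝[<] 0) (𝓝[>] 0) := by
        have := tendsto_neg_nhdsLT (a := (0 : ℝ))
        simpa using this
      refine (ha.comp h1).congr' ?_
      filter_upwards [self_mem_nhdsWithin] with t ht
      exact (join_neg ht).symm
    · unfold ContinuousWithinAt
      rw [join_zero]
      refine ha'.congr' ?_
      filter_upwards [self_mem_nhdsWithin] with t ht
      exact (join_pos ht).symm
  · refine (continuousAt_ray hc a' h).congr ?_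
    filter_upwards [lt_mem_nhds h] with t ht
    exact (join_pos ht).symm

/-- rays are asymptotic to straight rays -/
theorem ray_asymp (c : ℂ) (a : ℝ) :
    Tendsto (fun x : ℝ => eta c ((x : ℂ) + 2 * Real.pi * a * I) * Real.exp (-x)) atTop
      (𝓝 (exp (2 * Real.pi * a * I))) := by
  have h1 : Tendsto (fun x : ℝ => eta c ((x : ℂ) + 2 * Real.pi * a * I) /
      exp ((x : ℂ) + 2 * Real.pi * a * I)) atTop (𝓝 1) := by
    rw [Metric.tendsto_atTop]
    intro ε hε
    obtain ⟨R, hR⟩ := tendsto_eta_div_exp c ε hε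
    refine ⟨R + 1, fun x hx => ?_⟩
    rw [dist_eq_norm]
    apply hR
    rw [ray_re]; linarith
  have h2 := h1.mul_const (exp (2 * Real.pi * a * I))
  rw [one_mul] at h2
  refine h2.congr fun x => ?_
  rw [Complex.exp_add, Complex.ofReal_exp, Complex.ofReal_neg, Complex.exp_neg]
  have e1 := Complex.exp_ne_zero (x : ℂ)
  have e2 := Complex.exp_ne_zero (2 * Real.pi * a * I)
  field_simp

/-- the landing point of a ray has potential `0` -/
theorem G_land {c : ℂ} (hc : G c 0 = 0) {a : ℝ} {z : ℂ}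
    (ha : Tendsto (fun x : ℝ => eta c ((x : ℂ) + 2 * Real.pi * a * I)) (𝓝[>] 0) (𝓝 z)) :
    G c z = 0 := by
  have h1 : Tendsto (fun x : ℝ => G c (eta c ((x : ℂ) + 2 * Real.pi * a * I))) (𝓝[>] 0)
      (𝓝 (G c z)) := ((continuous_G_right c).tendsto z).comp ha
  have h2 : Tendsto (fun x : ℝ => G c (eta c ((x : ℂ) + 2 * Real.pi * a * I))) (𝓝[>] 0)
      (𝓝 0) := by
    have h3 : Tendsto (fun x : ℝ => x) (𝓝[>] (0 : ℝ)) (𝓝 0) := nhdsWithin_le_nhds
    refine h3.congr' ?_
    filter_upwards [self_mem_nhdsWithin] with x hx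
    have hx' : 0 < x := hx
    rw [G_eta (by rw [hc, ray_re]; exact hx'), ray_re]
  exact tendsto_nhds_unique h1 h2

end Unl

/-- `x ↦ eta c (x + 2 π i a)` lands at `z` -/
def ULands (c : ℂ) (a : ℝ) (z : ℂ) : Prop :=
  Tendsto (fun x : ℝ => eta c ((x : ℂ) + 2 * Real.pi * a * I)) (𝓝[>] 0) (𝓝 z)

theorem ULands.G_eq_zero {c : ℂ} (hc : c ∈ MM) {a : ℝ} {z : ℂ} (h : ULands c a z) : G c z = 0 :=
  Unl.G_land (mem_M_iff.1 hc) h

theorem ULands.unique {c : ℂ} {a : ℝ} {z z' : ℂ} (h : ULands c a z) (h' : ULands c a z') : z = z' :=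
  tendsto_nhds_unique h h'

/-- **Unlinking**: interlaced rays that land in pairs land at the same point. -/
theorem unlink {c : ℂ} (hc : c ∈ MM) {a b a' d : ℝ} (h1 : a < b) (h2 : b < a') (h3 : a' < d)
    (h4 : d < a + 1) {z z' : ℂ} (ha : ULands c a z) (ha' : ULands c a' z)
    (hb : ULands c b z') (hd : ULands c d z') : z = z' := by
  by_contra hne
  have hc0 : G c 0 = 0 := mem_M_iff.1 hc
  have ga : Tendsto (fun s : ℝ => Unl.join c a a' z (-s) * Real.exp (-s)) atTop
      (𝓝 (exp (2 * Real.pi * a * I))) := by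
    refine (Unl.ray_asymp c a).congr' ?_
    filter_upwards [eventually_gt_atTop 0] with s hs
    rw [Unl.join_neg (by linarith), neg_neg]
  have ga' : Tendsto (fun s : ℝ => Unl.join c a a' z s * Real.exp (-s)) atTop
      (𝓝 (exp (2 * Real.pi * a' * I))) := by
    refine (Unl.ray_asymp c a').congr' ?_
    filter_upwards [eventually_gt_atTop 0] with s hs
    rw [Unl.join_pos hs]
  have gb : Tendsto (fun s : ℝ => Unl.join c b d z' (-s) * Real.exp (-s)) atTop
      (𝓝 (exp (2 * Real.pi * b * I))) := by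
    refine (Unl.ray_asymp c b).congr' ?_
    filter_upwards [eventually_gt_atTop 0] with s hs
    rw [Unl.join_neg (by linarith), neg_neg]
  have gd : Tendsto (fun s : ℝ => Unl.join c b d z' s * Real.exp (-s)) atTop
      (𝓝 (exp (2 * Real.pi * d * I))) := by
    refine (Unl.ray_asymp c d).congr' ?_
    filter_upwards [eventually_gt_atTop 0] with s hs
    rw [Unl.join_pos hs]
  obtain ⟨s, t, hst⟩ := Unl.meet (Unl.continuous_join hc0 ha ha') (Unl.continuous_join hc0 hb hd)
    h1 h2 h3 h4 ga ga' gb gd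
  have hGz := ha.G_eq_zero hc
  have hGz' := hb.G_eq_zero hc
  -- every nonzero parameter gives a point `eta c (x + 2 π i α)`
  have hform : ∀ (α β : ℝ) (w : ℂ) (s : ℝ), s ≠ 0 → ∃ x : ℝ, ∃ γ : ℝ, 0 < x ∧ (γ = α ∨ γ = β) ∧
      Unl.join c α β w s = eta c ((x : ℂ) + 2 * Real.pi * γ * I) := by
    intro α β w s hs
    rcases lt_or_gt_of_ne hs with h | h
    · exact ⟨-s, α, by linarith, Or.inl rfl, Unl.join_neg h⟩
    · exact ⟨s, β, h, Or.inr rfl, Unl.join_pos h⟩
  have hGform : ∀ (x γ : ℝ), 0 < x → G c (eta c ((x : ℂ) + 2 * Real.pi * γ * I)) = x := by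
    intro x γ hx
    rw [G_eta (by rw [hc0, Unl.ray_re]; exact hx), Unl.ray_re]
  by_cases hs : s = 0
  · by_cases ht : t = 0
    · rw [hs, ht, Unl.join_zero, Unl.join_zero] at hst
      exact hne hst
    · obtain ⟨x, γ, hx, -, he⟩ := hform b d z' t ht
      rw [hs, Unl.join_zero, he] at hst
      have := hGform x γ hx
      rw [← hst, hGz] at this
      linarith
  · obtain ⟨x, γ, hx, hγ, he⟩ := hform a a' z s hs
    by_cases ht : t = 0
    · rw [ht, Unl.join_zero, he] at hst
      have := hGform x γ hx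
      rw [hst, hGz'] at this
      linarith
    · obtain ⟨y, γ', hy, hγ', he'⟩ := hform b d z' t ht
      rw [he, he'] at hst
      rw [eta_eq_iff (by rw [hc0, Unl.ray_re]; exact hx) (by rw [hc0, Unl.ray_re]; exact hy)] at hst
      obtain ⟨k, hk⟩ := hst
      have him := congrArg Complex.im hk
      simp only [Complex.add_im, Complex.ofReal_im, Complex.mul_im, Complex.mul_re, Complex.re_ofNat,
        Complex.ofReal_re, Complex.im_ofNat, Complex.I_im, Complex.I_re, Complex.intCast_re,
        Complex.intCast_im, mul_zero, mul_one, zero_mul, sub_zero, add_zero, zero_add] at him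
      have hpi := Real.pi_pos
      have h5 : γ' = γ + k := by
        have : (2 * Real.pi) * γ' = (2 * Real.pi) * (γ + k) := by linarith
        exact mul_left_cancel₀ (by positivity) this
      have h6 : ((k : ℤ) : ℝ) = γ' - γ := by linarith
      have h7 : ((0 : ℝ) < k ∧ (k : ℝ) < 1) ∨ ((-1 : ℝ) < k ∧ (k : ℝ) < 0) := by
        rw [h6]
        rcases hγ with rfl | rfl <;> rcases hγ' with rfl | rfl
        · left; constructor <;> linarith
        · left; constructor <;> linarith
        · right; constructor <;> linarith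
        · left; constructor <;> linarith
      rcases h7 with ⟨h8, h9⟩ | ⟨h8, h9⟩
      · have e1 : 0 < k := by exact_mod_cast h8
        have e2 : k < 1 := by exact_mod_cast h9
        omega
      · have e1 : -1 < k := by exact_mod_cast h8
        have e2 : k < 0 := by exact_mod_cast h9
        omega

theorem ULands.add_int {c : ℂ} {a : ℝ} {z : ℂ} (h : ULands c a z) (k : ℤ) : ULands c (a + k) z := by
  unfold ULands at h ⊢
  refine h.congr fun x => ?_
  have e : (x : ℂ) + 2 * Real.pi * ((a + k : ℝ) : ℂ) * I =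
      ((x : ℂ) + 2 * Real.pi * a * I) + 2 * Real.pi * I * k := by push_cast; ring
  rw [e, eta_add_int]

theorem ULands.half {c : ℂ} (hc : c ∈ MM) {a : ℝ} {z : ℂ} (h : ULands c a z) :
    ULands c (a + 1 / 2) (-z) := by
  unfold ULands at h ⊢
  refine h.neg.congr' ?_
  filter_upwards [self_mem_nhdsWithin] with x hx
  have hx' : 0 < x := hx
  have e : (x : ℂ) + 2 * Real.pi * ((a + 1 / 2 : ℝ) : ℂ) * I =
      ((x : ℂ) + 2 * Real.pi * a * I) + Real.pi * I := by push_cast; ring
  rw [e, eta_add_pi (by rw [mem_M_iff.1 hc, Unl.ray_re]; exact hx')]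

theorem ULands.double {c : ℂ} (hc : c ∈ MM) {a : ℝ} {z : ℂ} (h : ULands c a z) :
    ULands c (2 * a) (f c z) := by
  unfold ULands at h ⊢
  have hf : Continuous (f c) := by unfold f; fun_prop
  have h1 : Tendsto (fun x : ℝ => f c (eta c (((x / 2 : ℝ) : ℂ) + 2 * Real.pi * a * I))) (𝓝[>] 0)
      (𝓝 (f c z)) := by
    have h2 : Tendsto (fun x : ℝ => x / 2) (𝓝[>] 0) (𝓝[>] 0) := by
      apply tendsto_nhdsWithin_of_tendsto_nhds_of_eventually_within
      · have : Tendsto (fun x : ℝ => x / 2) (𝓝 0) (𝓝 (0 / 2)) := tendsto_id.div_const 2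
        rw [zero_div] at this
        exact this.mono_left nhdsWithin_le_nhds
      · filter_upwards [self_mem_nhdsWithin] with x hx
        have hx' : 0 < x := hx
        exact half_pos hx'
    exact ((hf.tendsto z).comp h).comp h2
  refine h1.congr' ?_
  filter_upwards [self_mem_nhdsWithin] with x hx
  have hx' : 0 < x := hx
  rw [f_eta (by rw [mem_M_iff.1 hc, Unl.ray_re]; exact half_pos hx')]
  congr 1
  push_cast; ring

theorem ULands.pow_two {c : ℂ} (hc : c ∈ MM) {a : ℝ} {z : ℂ} (h : ULands c a z) (i : ℕ) :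
    ULands c (2 ^ i * a) (it c i z) := by
  induction i with
  | zero => simpa using h
  | succ i ih =>
    have := ih.double hc
    rw [it_succ]
    have e : (2 : ℝ) ^ (i + 1) * a = 2 * (2 ^ i * a) := by rw [pow_succ]; ring
    rwa [e]

/-- the notion of landing of `Stab4` (valid in and out of `MM`) agrees with `ULands` on `MM` -/
theorem Lands.uLands {c : ℂ} (hc : c ∈ MM) {a : ℝ} {z : ℂ} (h : Lands c a z) : ULands c a z := by
  obtain ⟨R, hR⟩ := h
  refine hR.lands.congr' ?_
  filter_upwards [self_mem_nhdsWithin] with x hx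
  have hx' : 0 < x := hx
  rw [hR.far (by rw [mem_M_iff.1 hc]; exact hx')]
  unfold eR
  congr 1
  ring

theorem ULands.lands {c : ℂ} (hc : c ∈ MM) {a : ℝ} {z : ℂ} (h : ULands c a z) : Lands c a z := by
  refine ⟨eR c a, Ray.of_mem (mem_M_iff.1 hc) ?_⟩
  refine h.congr fun x => ?_
  unfold eR
  congr 1
  ring

theorem Lands.uniq {c : ℂ} {a : ℝ} {z z' : ℂ} (h : Lands c a z) (h' : Lands c a z') : z = z' := by
  obtain ⟨R, hR⟩ := h
  obtain ⟨R', hR'⟩ := h'
  exact hR.b_unique hR'

theorem Lands.shift {c : ℂ} {a : ℝ} {z : ℂ} (h : Lands c a z) (k : ℤ) : Lands c (a + k) z := by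
  obtain ⟨R, hR⟩ := h
  exact ⟨R, hR.add_int k⟩

theorem Lands.push {c : ℂ} {a : ℝ} {z : ℂ} (h : Lands c a z) : Lands c (2 * a) (f c z) := by
  obtain ⟨R, hR⟩ := h
  exact ⟨_, hR.push⟩

theorem Lands.half {c : ℂ} (hc : c ∈ MM) {a : ℝ} {z : ℂ} (h : Lands c a z) :
    Lands c (a + 1 / 2) (-z) := ((h.uLands hc).half hc).lands hc

/-- **Unlinking**, weak form (as in `Pool.Agent.MLC.Linked`). -/
theorem unlink_lands {c : ℂ} (hc : c ∈ MM) {a b a' d : ℝ} (h1 : a ≤ b) (h2 : b ≤ a')
    (h3 : a' ≤ d) (h4 : d ≤ a + 1) {z z' : ℂ} (ha : Lands c a z) (hb : Lands c b z')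
    (ha' : Lands c a' z) (hd : Lands c d z') : z = z' := by
  rcases h1.eq_or_lt with h1 | h1
  · subst h1; exact ha.uniq hb
  rcases h2.eq_or_lt with h2 | h2
  · subst h2; exact ha'.uniq hb
  rcases h3.eq_or_lt with h3 | h3
  · subst h3; exact ha'.uniq hd
  rcases h4.eq_or_lt with h4 | h4
  · subst h4
    have := ha.shift 1
    rw [Int.cast_one] at this
    exact this.uniq hd
  · exact unlink hc h1 h2 h3 h4 (ha.uLands hc) (ha'.uLands hc) (hb.uLands hc) (hd.uLands hc)

end Pool.Agent.Work.MLC
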