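import Pool.Agent.Work.MLC.PortDefs
import Pool.Agent.Work.MLC.Unlink67

set_option autoImplicit false

/-! # From unlinked landing patterns to portraits (helper5)

`RL c a z`: the ray of angle `a` (in turns) lands at `z`; `UnlP c`: two pairs of rays landing at two
different points are not linked.  For a finite set `S` of periodic angles, invariant under doubling,
the sets `A i` of the angles of `S` whose ray lands at the `i`-th point of a cycle form a
`Portrait`. -/

namespace Pool.Agent.Work.MLC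

open Filter Topology Metric Set Complex Pool.Agent.MLC

/-- the ray of angle `a` lands at `z` -/
def RL (c : ℂ) (a : ℝ) (z : ℂ) : Prop :=
  Tendsto (fun x : ℝ => eta c ((x : ℂ) + 2 * Real.pi * a * I)) (𝓝[>] 0) (𝓝 z)

variable {c z z' : ℂ} {a : ℝ}

theorem RL.unique (h : RL c a z) (h' : RL c a z') : z = z' := tendsto_nhds_unique h h'

theorem RL.add_int (h : RL c a z) (k : ℤ) : RL c (a + k) z := by
  have e : (fun x : ℝ => eta c ((x : ℂ) + 2 * Real.pi * ((a + k : ℝ) : ℂ) * I))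
      = fun x : ℝ => eta c ((x : ℂ) + 2 * Real.pi * a * I) := by
    funext x
    rw [← eta_add_int c ((x : ℂ) + 2 * Real.pi * a * I) k]
    congr 1
    push_cast
    ring
  unfold RL
  rw [e]
  exact h

theorem RL.dbl (hc : G c 0 = 0) (h : RL c a z) : RL c (2 * a) (f c z) := by
  have hf : Continuous (f c) := by
    unfold f
    fun_prop
  have h1 : Tendsto (fun x : ℝ => f c (eta c ((x : ℂ) + 2 * Real.pi * a * I))) (𝓝[>] 0)
      (𝓝 (f c z)) := (hf.tendsto z).comp h
  have h2 : Tendsto (fun x : ℝ => x / 2) (𝓝[>] 0) (𝓝[>] 0) := by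
    apply tendsto_nhdsWithin_iff.2
    constructor
    · have h2 : Tendsto (fun s : ℝ => s / 2) (𝓝 0) (𝓝 (0 / 2)) :=
        (continuous_id.div_const 2).tendsto 0
      rw [zero_div] at h2
      exact h2.mono_left nhdsWithin_le_nhds
    · filter_upwards [self_mem_nhdsWithin] with s hs
      have : (0 : ℝ) < s := hs
      show (0 : ℝ) < _
      positivity
  refine (h1.comp h2).congr' ?_
  filter_upwards [self_mem_nhdsWithin] with x hx
  have hx0 : (0 : ℝ) < x := hx
  simp only [Function.comp_apply]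
  rw [f_eta (by simp [hc]; linarith)]
  congr 1
  push_cast
  ring

theorem RL.iter (hc : G c 0 = 0) (h : RL c a z) (j : ℕ) : RL c (2 ^ j * a) (it c j z) := by
  induction j with
  | zero => simpa [it] using h
  | succ j ih =>
    have := ih.dbl hc
    rw [← it_succ] at this
    have e : 2 * (2 ^ j * a) = 2 ^ (j + 1) * a := by ring
    rwa [e] at this

theorem RL.half (hc : G c 0 = 0) (h : RL c a z) : RL c (a + 1 / 2) (-z) := by
  have h1 : Tendsto (fun x : ℝ => - eta c ((x : ℂ) + 2 * Real.pi * a * I)) (𝓝[>] 0) (𝓝 (-z)) :=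
    Filter.Tendsto.neg h
  refine h1.congr' ?_
  filter_upwards [self_mem_nhdsWithin] with x hx
  have hx0 : (0 : ℝ) < x := hx
  rw [← eta_add_pi (by simp [hc]; linarith)]
  congr 1
  push_cast
  ring

/-- two pairs of rays landing at different points are not linked -/
def UnlP (c : ℂ) : Prop :=
  ∀ (a b a' b' : ℝ) (z z' : ℂ), a < b → b < a' → a' < b' → b' < a + 1 →
    RL c a z → RL c a' z → RL c b z' → RL c b' z' → z = z'

/-- circle lemma: `A` not linked with and disjoint from its translate by a half turn lies in an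
open half circle -/
theorem half_of_unlinked {A : Set ℝ} (hne : A.Nonempty) (hsh : ∀ a ∈ A, ∀ k : ℤ, a + k ∈ A)
    (hfin : (A ∩ Set.Ico 0 1).Finite) (hdis : ∀ a ∈ A, a + 1 / 2 ∉ A)
    (hunl : ∀ a ∈ A, ∀ b ∈ A, ∀ x ∈ A, ∀ y ∈ A, a < x + 1 / 2 → x + 1 / 2 < b → b < y + 1 / 2 →
      y + 1 / 2 < a + 1 → False) :
    ∃ s : ℝ, ∀ a ∈ A, ∃ k : ℤ, s < a + k ∧ a + k < s + 1 / 2 := by
  classical
  obtain ⟨a₀, ha₀⟩ := hne
  -- finiteness of the part in any interval of length at most 2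
  have hfinI : ∀ u v : ℝ, (A ∩ Set.Icc u v).Finite := by
    intro u v
    have h1 : A ∩ Set.Icc u v ⊆ ⋃ k ∈ Finset.Icc (⌊u⌋) (⌊v⌋),
        (fun x : ℝ => x + (k : ℤ)) '' (A ∩ Set.Ico 0 1) := by
      rintro x ⟨hx, hxu, hxv⟩
      simp only [Set.mem_iUnion, Finset.mem_Icc]
      refine ⟨⌊x⌋, ⟨Int.floor_le_floor hxu, Int.floor_le_floor hxv⟩, x - ⌊x⌋, ⟨?_, ?_, ?_⟩, by ring⟩
      · have := hsh x hx (-⌊x⌋)
        simpa [sub_eq_add_neg] using this
      · linarith [Int.floor_le x]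
      · linarith [Int.lt_floor_add_one x]
    refine Set.Finite.subset ?_ h1
    exact Set.Finite.biUnion (Finset.finite_toSet _) (fun k _ => hfin.image _)
  set p : ℝ := a₀ + 1 / 2 with hp
  have hpA : p ∉ A := hdis a₀ ha₀
  have ha₁ : a₀ + 1 ∈ A := by simpa using hsh a₀ ha₀ 1
  -- `x` = last point before `p`
  obtain ⟨x, hx⟩ := (hfinI a₀ p).exists_maximal ⟨a₀, ha₀, le_rfl, by rw [hp]; linarith⟩
  obtain ⟨y, hy⟩ := (hfinI p (a₀ + 1)).exists_minimal ⟨a₀ + 1, ha₁, by rw [hp]; linarith, le_rfl⟩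
  have hxA : x ∈ A := hx.1.1
  have hyA : y ∈ A := hy.1.1
  have hxa : a₀ ≤ x := hx.1.2.1
  have hya : y ≤ a₀ + 1 := hy.1.2.2
  have hxp : x < p := lt_of_le_of_ne hx.1.2.2 (fun h => hpA (h ▸ hxA))
  have hpy : p < y := lt_of_le_of_ne hy.1.2.1 (fun h => hpA (h ▸ hyA))
  have hxmax : ∀ u ∈ A, u < p → u ≤ x := by
    intro u hu hup
    by_contra hcon
    push Not at hcon
    have h1 : u ∈ A ∩ Set.Icc a₀ p := ⟨hu, by linarith, hup.le⟩
    have := hx.2 h1 hcon.le
    linarith
  have hymin : ∀ u ∈ A, p < u → y ≤ u := by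
    intro u hu hup
    by_contra hcon
    push Not at hcon
    have h1 : u ∈ A ∩ Set.Icc p (a₀ + 1) := ⟨hu, hup.le, by linarith⟩
    have := hy.2 h1 hcon.le
    linarith
  have hgap : x + 1 / 2 < y := by
    by_contra hcon
    push Not at hcon
    have h1 : y < x + 1 / 2 := lt_of_le_of_ne hcon (fun h => hdis x hxA (h ▸ hyA))
    exact hunl x hxA y hyA a₀ ha₀ x hxA hxp hpy h1 (by linarith)
  refine ⟨(x + 1 / 2 + y) / 2, fun a ha => ?_⟩
  -- translate `a` into `(p, p + 1]`
  set k : ℤ := ⌊p - a⌋ + 1 with hk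
  have h1 : p < a + k := by
    have := Int.lt_floor_add_one (p - a)
    rw [hk]; push_cast; linarith
  have h2 : a + k ≤ p + 1 := by
    have := Int.floor_le (p - a)
    rw [hk]; push_cast; linarith
  have h3 : y ≤ a + k := hymin _ (hsh a ha k) h1
  have h4 : a + k - 1 ∈ A := by
    have := hsh a ha (k - 1)
    push_cast at this
    rwa [← add_sub_assoc] at this
  have h5 : a + k - 1 < p := lt_of_le_of_ne (by linarith) (fun h => hpA (h ▸ h4))
  have h6 : a + k - 1 ≤ x := hxmax _ h4 h5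
  exact ⟨k, by linarith, by linarith⟩

/-- a finite (mod 1) set of periodic angles which is invariant under doubling -/
structure AngSet (S : Set ℝ) : Prop where
  shift : ∀ a ∈ S, ∀ k : ℤ, a + k ∈ S
  fin : (S ∩ Set.Ico 0 1).Finite
  dbl : ∀ a ∈ S, 2 * a ∈ S
  per : ∀ a ∈ S, ∃ m : ℕ, 0 < m ∧ ∃ k : ℤ, 2 ^ m * a = a + k

theorem AngSet.union {S T : Set ℝ} (hS : AngSet S) (hT : AngSet T) : AngSet (S ∪ T) where
  shift := fun a ha k => ha.imp (fun h => hS.shift a h k) (fun h => hT.shift a h k)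
  fin := by
    rw [Set.union_inter_distrib_right]
    exact hS.fin.union hT.fin
  dbl := fun a ha => ha.imp (hS.dbl a) (hT.dbl a)
  per := fun a ha => ha.elim (hS.per a) (hT.per a)

theorem AngSet.iter {S : Set ℝ} (hS : AngSet S) {a : ℝ} (ha : a ∈ S) (j : ℕ) : 2 ^ j * a ∈ S := by
  induction j with
  | zero => simpa using ha
  | succ j ih =>
    have := hS.dbl _ ih
    have e : 2 * (2 ^ j * a) = 2 ^ (j + 1) * a := by ring
    rwa [e] at this

lemma pow_per {a : ℝ} {m : ℕ} {k : ℤ} (h : 2 ^ m * a = a + k) (t : ℕ) :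
    ∃ l : ℤ, 2 ^ (m * t) * a = a + l := by
  induction t with
  | zero => exact ⟨0, by simp⟩
  | succ t ih =>
    obtain ⟨l, hl⟩ := ih
    refine ⟨k + 2 ^ m * l, ?_⟩
    have e : (2 : ℝ) ^ (m * (t + 1)) * a = 2 ^ m * (2 ^ (m * t) * a) := by
      rw [Nat.mul_succ, pow_add]; ring
    rw [e, hl, mul_add, h]
    push_cast
    ring

/-- the orbit of an angle -/
def orb (β : ℝ) : Set ℝ := {a | ∃ j : ℕ, ∃ k : ℤ, a = 2 ^ j * β + k}

theorem mem_orb (β : ℝ) : β ∈ orb β := ⟨0, 0, by simp⟩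

theorem angSet_orb {β : ℝ} {m : ℕ} (hm : 0 < m) {l : ℤ} (h : 2 ^ m * β = β + l) :
    AngSet (orb β) where
  shift := by
    rintro a ⟨j, k, rfl⟩ k'
    exact ⟨j, k + k', by push_cast; ring⟩
  fin := by
    have h1 : orb β ∩ Set.Ico 0 1 ⊆ (fun j : ℕ => Int.fract (2 ^ j * β)) '' (Set.Iio m) := by
      rintro a ⟨⟨j, k, rfl⟩, h0, h1⟩
      obtain ⟨l', hl'⟩ := pow_per h (j / m)
      refine ⟨j % m, Nat.mod_lt _ hm, ?_⟩
      have h2 : (2 : ℝ) ^ j * β = 2 ^ (j % m) * β + ((2 ^ (j % m) * l' : ℤ) : ℝ) := by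
        conv_lhs => rw [← Nat.div_add_mod j m, pow_add]
        have e : (2 : ℝ) ^ (m * (j / m)) * 2 ^ (j % m) * β = 2 ^ (j % m) * (2 ^ (m * (j / m)) * β) := by
          ring
        rw [e, hl']
        push_cast
        ring
      show Int.fract (2 ^ (j % m) * β) = 2 ^ j * β + k
      rw [Int.fract_eq_iff]
      refine ⟨h0, h1, -(2 ^ (j % m) * l' + k), ?_⟩
      rw [h2]
      push_cast
      ring
    exact ((Set.finite_Iio m).image _).subset h1
  dbl := by
    rintro a ⟨j, k, rfl⟩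
    exact ⟨j + 1, 2 * k, by push_cast; ring⟩
  per := by
    rintro a ⟨j, k, rfl⟩
    refine ⟨m, hm, 2 ^ j * l + 2 ^ m * k - k, ?_⟩
    have e : (2 : ℝ) ^ m * (2 ^ j * β + k) = 2 ^ j * (2 ^ m * β) + 2 ^ m * k := by ring
    rw [e, h]
    push_cast
    ring

theorem angSet_orb_of_perAngle {n q : ℕ} (hn : 0 < n) {β : ℝ} (h : PerAngle n q β) :
    AngSet (orb β) := by
  obtain ⟨hq, ⟨k, hk⟩, -⟩ := h
  exact angSet_orb (m := n * q) (l := k) (Nat.mul_pos hn hq) (by linarith)

theorem not_int_of_perAngle {n q : ℕ} {β : ℝ} (h : PerAngle n q β) (hq : 2 ≤ q) :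
    ∀ k : ℤ, (2 : ℝ) ^ n * β - β ≠ k := by
  intro k hk
  exact h.2.2 1 one_pos (by omega) ⟨k, by simpa using hk⟩

/-- the angles of `S` whose ray lands at the `i`-th point of the cycle of `b` -/
def AngP (S : Set ℝ) (c b : ℂ) (i : ℕ) : Set ℝ := {a | a ∈ S ∧ RL c a (it c i b)}

theorem AngP_mono {S T : Set ℝ} (h : S ⊆ T) (c b : ℂ) (i : ℕ) : AngP S c b i ⊆ AngP T c b i :=
  fun _ ha => ⟨h ha.1, ha.2⟩

theorem it_add_mul {n : ℕ} {b : ℂ} (hb : it c n b = b) (i t : ℕ) : it c (i + n * t) b = it c i b := by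
  induction t with
  | zero => simp
  | succ t ih =>
    have e : i + n * (t + 1) = (i + n * t) + n := by ring
    rw [e, it_add, hb, ih]

/-- **the portrait** -/
theorem portrait {n : ℕ} {b : ℂ} {S : Set ℝ} (hc : G c 0 = 0) (hU : UnlP c) (hn : 0 < n)
    (hb : it c n b = b) (h0 : ∀ i, it c i b ≠ 0) (hS : AngSet S) {β : ℝ} (hβ : β ∈ S)
    (hl : RL c β b) (hq : ∀ k : ℤ, (2 : ℝ) ^ n * β - β ≠ k) : Portrait n (AngP S c b) := by
  have hshift : ∀ i, ∀ a ∈ AngP S c b i, ∀ k : ℤ, a + k ∈ AngP S c b i := fun i a ha k =>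
    ⟨hS.shift a ha.1 k, ha.2.add_int k⟩
  have hfin : ∀ i, (AngP S c b i ∩ Set.Ico 0 1).Finite := fun i =>
    hS.fin.subset (fun x hx => ⟨hx.1.1, hx.2⟩)
  have hmem : ∀ i, 2 ^ i * β ∈ AngP S c b i := fun i => ⟨hS.iter hβ i, hl.iter hc i⟩
  refine ⟨fun i => ?_, hshift, hfin, fun i a ha => ⟨hS.dbl a ha.1, ?_⟩, ?_, ?_, ?_, ?_⟩
  · unfold AngP
    have := it_add_mul hb i 1
    rw [mul_one] at this
    rw [this]
  · rw [it_succ]; exact ha.2.dbl hc
  · rintro i a ⟨haS, haL⟩
    obtain ⟨m, hm, k, hk⟩ := hS.per a haS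
    obtain ⟨l, hl'⟩ := pow_per hk n
    have hmn : 0 < m * n := Nat.mul_pos hm hn
    refine ⟨2 ^ (m * n - 1) * a, ⟨hS.iter haS _, ?_⟩, l, ?_⟩
    · have h1 := haL.iter hc (m * n - 1)
      rw [← it_add] at h1
      have e : m * n - 1 + (i + 1) = i + n * m := by
        rw [Nat.mul_comm n m]; omega
      rw [e, it_add_mul hb] at h1
      exact h1
    · have e : (2 : ℝ) * (2 ^ (m * n - 1) * a) = 2 ^ (m * n) * a := by
        rw [← mul_assoc, ← pow_succ', Nat.sub_add_cancel hmn]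
      rw [e, hl']
  · intro i
    have h1 := hmem i
    have h2 : 2 ^ (i + n) * β ∈ AngP S c b i := by
      have := hmem (i + n)
      unfold AngP at this ⊢
      have h3 := it_add_mul hb i 1
      rw [mul_one] at h3
      rwa [h3] at this
    set u : ℝ := 2 ^ i * β with hu
    set v : ℝ := 2 ^ (i + n) * β with hv
    set k : ℤ := -⌊v - u⌋ with hk
    have h3 : v + k ∈ AngP S c b i := hshift i v h2 k
    refine ⟨u, h1, v + k, h3, ?_, ?_⟩
    · have h4 : u ≤ v + k := by
        have := Int.floor_le (v - u)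
        rw [hk]; push_cast; linarith
      refine lt_of_le_of_ne h4 (fun h => ?_)
      -- then `2 ^ n β - β` is an integer
      obtain ⟨m, hm, l, hml⟩ := hS.per β hβ
      obtain ⟨l', hl'⟩ := pow_per hml (i + 1)
      have hle : i ≤ m * (i + 1) := by nlinarith
      have e1 : v - u = ((-k : ℤ) : ℝ) := by push_cast; linarith
      have e2 : (2 : ℝ) ^ (m * (i + 1)) * (2 ^ n * β - β) = 2 ^ (m * (i + 1) - i) * (v - u) := by
        have e3 : (2 : ℝ) ^ (m * (i + 1)) = 2 ^ (m * (i + 1) - i) * 2 ^ i := by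
          rw [← pow_add, Nat.sub_add_cancel hle]
        rw [e3, hu, hv, pow_add]
        ring
      have e4 : (2 : ℝ) ^ (m * (i + 1)) * (2 ^ n * β - β) = 2 ^ n * (β + l') - (β + l') := by
        rw [← hl']; ring
      have e5 : (2 : ℝ) ^ n * β - β
          = ((2 ^ (m * (i + 1) - i) * (-k) - 2 ^ n * l' + l' : ℤ) : ℝ) := by
        push_cast
        rw [e1] at e2
        push_cast at e2
        linarith
      exact hq _ e5
    · have := Int.lt_floor_add_one (v - u)
      rw [hk]; push_cast; linarith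
  · intro i
    have hzz : it c i b ≠ - it c i b := by
      intro h
      have : (2 : ℂ) * it c i b = 0 := by linear_combination h
      rcases mul_eq_zero.1 this with h | h
      · norm_num at h
      · exact h0 i h
    refine half_of_unlinked ⟨_, hmem i⟩ (hshift i) (hfin i) ?_ ?_
    · intro a ha ha'
      exact hzz (ha'.2.unique (ha.2.half hc))
    · intro a ha a' ha' x hx y hy h1 h2 h3 h4
      exact hzz (hU a (x + 1 / 2) a' (y + 1 / 2) _ _ h1 h2 h3 h4 ha.2 ha'.2 (hx.2.half hc)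
        (hy.2.half hc))
  · intro i j
    by_cases hij : it c i b = it c j b
    · left
      unfold AngP
      rw [hij]
    · right
      rintro ⟨a, ha, d, hd, a', ha', d', hd', h1, h2, h3, h4⟩
      have n1 : a ≠ d := fun h => hij (ha.2.unique (by rw [h]; exact hd.2))
      have n2 : d ≠ a' := fun h => hij (ha'.2.unique (by rw [← h]; exact hd.2))
      have n3 : a' ≠ d' := fun h => hij (ha'.2.unique (by rw [h]; exact hd'.2))
      have n4 : d' ≠ a + 1 := fun h => hij (by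
        have h5 := ha.2.add_int 1
        rw [Int.cast_one, ← h] at h5
        exact h5.unique hd'.2)
      exact hij (hU a d a' d' _ _ (lt_of_le_of_ne h1 n1) (lt_of_le_of_ne h2 n2)
        (lt_of_le_of_ne h3 n3) (lt_of_le_of_ne h4 n4) ha.2 ha'.2 hd.2 hd'.2)

theorem AngSet.biUnion {B : Set ℝ} (hB : B.Finite) {S : ℝ → Set ℝ} (h : ∀ β ∈ B, AngSet (S β)) :
    AngSet (⋃ β ∈ B, S β) where
  shift := by
    intro a ha k
    simp only [Set.mem_iUnion] at ha ⊢
    obtain ⟨β, hβ, h1⟩ := ha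
    exact ⟨β, hβ, (h β hβ).shift a h1 k⟩
  fin := by
    have e : (⋃ β ∈ B, S β) ∩ Set.Ico 0 1 = ⋃ β ∈ B, (S β ∩ Set.Ico 0 1) := by
      ext x
      simp only [Set.mem_inter_iff, Set.mem_iUnion]
      tauto
    rw [e]
    exact hB.biUnion (fun β hβ => (h β hβ).fin)
  dbl := by
    intro a ha
    simp only [Set.mem_iUnion] at ha ⊢
    obtain ⟨β, hβ, h1⟩ := ha
    exact ⟨β, hβ, (h β hβ).dbl a h1⟩
  per := by
    intro a ha
    simp only [Set.mem_iUnion] at ha
    obtain ⟨β, hβ, h1⟩ := ha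
    exact (h β hβ).per a h1

theorem p5_eR_eq (c : ℂ) (a t : ℝ) : eR c a t = eta c ((t : ℂ) + 2 * Real.pi * a * I) := by
  unfold eR
  congr 1
  ring

/-- on the Mandelbrot set the two notions of landing agree -/
theorem lands_iff_RL (hc : G c 0 = 0) : Lands c a z ↔ RL c a z := by
  constructor
  · rintro ⟨R, hR⟩
    refine hR.lands.congr' ?_
    filter_upwards [self_mem_nhdsWithin] with t ht
    have ht' : (0 : ℝ) < t := ht
    rw [hR.far (by rw [hc]; exact ht'), p5_eR_eq]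
  · intro h
    refine ⟨eR c a, Ray.of_mem hc ?_⟩
    have e : eR c a = fun x : ℝ => eta c ((x : ℂ) + 2 * Real.pi * a * I) := by
      funext t; exact p5_eR_eq c a t
    rw [e]
    exact h

theorem port_eq (hc : G c 0 = 0) (b : ℂ) (B : Set ℝ) :
    port c b B = AngP (⋃ β ∈ B, orb β) c b := by
  funext i
  ext a
  unfold port AngP orb
  simp only [Set.mem_ofPred_eq, Set.mem_iUnion, lands_iff_RL hc, exists_prop]

/-- **the portrait of a finite family of landing rays** -/
theorem portrait_of_fam' {n : ℕ} {b : ℂ} {B : Set ℝ} (hn : 0 < n) (hc : G c 0 = 0) (hU : UnlP c)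
    (hb : it c n b = b) (h0 : ∀ i, it c i b ≠ 0) (hB : Fam n c b B) :
    Portrait n (port c b B) := by
  rw [port_eq hc]
  obtain ⟨β, hβ, q, hq, hper⟩ := hB.two
  refine portrait hc hU hn hb h0 (AngSet.biUnion hB.fin fun β hβ => ?_)
    (Set.mem_biUnion hβ (mem_orb β)) ((lands_iff_RL hc).1 (hB.land β hβ))
    (not_int_of_perAngle hper hq)
  obtain ⟨q', hq'⟩ := hB.per β hβ
  exact angSet_orb_of_perAngle hn hq'

/-- unlinking (helper67) -/
theorem unlP_of_mem (hc : c ∈ MM) : UnlP c :=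
  fun _ _ _ _ _ _ h1 h2 h3 h4 ha ha' hb hb' => unlink hc h1 h2 h3 h4 ha ha' hb hb'

theorem G_zero_of_mem (hc : c ∈ MM) : G c 0 = 0 := mem_M_iff.1 hc

/-- **the portrait of a finite family of landing rays** -/
theorem portrait_of_fam {n : ℕ} {b : ℂ} {B : Set ℝ} (hn : 0 < n) (hc : c ∈ MM)
    (hb : it c n b = b) (h0 : ∀ i, it c i b ≠ 0) (hB : Fam n c b B) :
    Portrait n (port c b B) :=
  portrait_of_fam' hn (G_zero_of_mem hc) (unlP_of_mem hc) hb h0 hB

/-- the multiplier does not vanish: no point of the cycle is critical -/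
theorem it_ne_zero_of_mult {n : ℕ} {b : ℂ} (hn : 0 < n) (hb : it c n b = b)
    (h : mult n c b ≠ 0) (i : ℕ) : it c i b ≠ 0 := by
  have h1 : it c i b = it c (i % n) b := by
    conv_lhs => rw [← Nat.mod_add_div i n]
    exact it_add_mul hb _ _
  rw [h1]
  intro h0
  apply h
  unfold mult
  exact Finset.prod_eq_zero (Finset.mem_range.2 (Nat.mod_lt i hn)) (by rw [h0, mul_zero])

end Pool.Agent.Work.MLC
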