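import Pool.Agent.Work.MLC.LabF
import Pool.Agent.Work.MLC.Portr5
import Pool.Agent.Work.MLC.Land51
import Pool.Agent.Work.MLC.Lin
import Pool.Agent.Work.MLC.ExtOpen57
import Pool.Agent.Work.MLC.PlyBound
import Pool.Agent.Work.MLC.Lab57
import Pool.Agent.Work.MLC.Count

set_option autoImplicit false

/-! # (5) The map F on the curve over the good half disc (helper59) -/

namespace Pool.Agent.Work.MLC

open Filter Topology Metric Set Complex
open Pool.Agent.MLC (InHalf Portrait Linked)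

lemma repelling_ne_zero {n : ℕ} {c b : ℂ} (h : 1 < ‖mult n c b‖) : mult n c b ≠ 0 := by
  intro h0; rw [h0, norm_zero] at h; linarith

/-- hypothesis (5c) holds -/
theorem portHyp {n : ℕ} (hn : 0 < n) : PortHyp n := by
  intro c b B hc hb hρ hF
  exact portrait_of_fam hn (mem_M_iff.2 hc) hb
    (it_ne_zero_of_mult hn hb (repelling_ne_zero hρ)) hF

/-- helper56's linearizer satisfies helper51's structure -/
theorem lin_Lz {n : ℕ} (hn : 0 < n) {c b : ℂ} (hb : it c n b = b) (hρ : 1 < ‖mult n c b‖) :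
    Tr.Lin c b (mult n c b) n (Lz n c b) where
  hn := hn
  diff := differentiable_Lz ⟨hb, hρ⟩
  zero := Lz_zero ⟨hb, hρ⟩
  der := by rw [(hasDerivAt_Lz_zero ⟨hb, hρ⟩).deriv]; exact one_ne_zero
  eqn := Lz_mul ⟨hb, hρ⟩
  rho := hρ

/-- `x` is outside all integer PLY discs -/
def NoInt (n : ℕ) (x : ℂ × ℂ) : Prop :=
  ∀ L : ℂ, exp L = mul n x → ∀ k : ℤ, 81 * n * L.re < ‖L - 2 * Real.pi * k * I‖ ^ 2

/-- a repelling point over `MM` outside the integer discs has a good family of landing rays -/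
theorem exists_fam {n : ℕ} (hn : 0 < n) {c b : ℂ} (hc : G c 0 = 0) (hb : it c n b = b)
    (hρ : 1 < ‖mult n c b‖) (hI : NoInt n (c, b)) : ∃ B, Fam n c b B := by
  have hlin := lin_Lz hn hb hρ
  have hm0 := repelling_ne_zero hρ
  have hL : exp (Complex.log (mult n c b)) = mult n c b := Complex.exp_log hm0
  obtain ⟨β, q, p, hq, hland, -, -, hply⟩ := Tr.exists_land_rot hlin hc hL
  set L := Complex.log (mult n c b) with hLdef
  have hre : 0 < L.re := by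
    rw [hLdef, Complex.log_re]; exact Real.log_pos hρ
  have hq2 : 2 ≤ q := by
    by_contra hcon
    have hq1 : q = 1 := by omega
    subst hq1
    have h1 := hI L hL p
    have h2 : (2 * Real.pi * ((p : ℂ) / ((1 : ℕ) : ℂ)) * I) = 2 * Real.pi * p * I := by
      simp
    rw [h2] at hply
    have h3 : 2 * (n : ℝ) * Real.log 2 / ((1 : ℕ) : ℝ) * L.re ≤ 81 * n * L.re := by
      have h4 : Real.log 2 < 1 := by
        have := Real.log_two_lt_d9; linarith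
      have h5 : (0 : ℝ) < n := by exact_mod_cast hn
      have h6 : 2 * (n : ℝ) * Real.log 2 / ((1 : ℕ) : ℝ) = 2 * n * Real.log 2 := by simp
      rw [h6]
      have h7 : 2 * (n : ℝ) * Real.log 2 ≤ 81 * n := by nlinarith
      exact mul_le_mul_of_nonneg_right h7 hre.le
    linarith
  refine ⟨{β}, ⟨Set.finite_singleton β, ?_, ?_, ?_⟩⟩
  · rintro β' rfl; exact ⟨q, hland.1⟩
  · rintro β' rfl; exact hland.lands hc
  · exact ⟨β, rfl, q, hq2, hland.1⟩

/-- label of an exterior pair -/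
noncomputable def extLab (n : ℕ) (x : ℂ × ℂ) : Lab n :=
  Classical.epsilon fun l => ∃ θ w, ExtP n x.1 x.2 θ w ∧ l = lab n θ w

theorem extLab_eq {n : ℕ} {x : ℂ × ℂ} {θ : ℝ} {w : ℕ → ℤ} (h : ExtP n x.1 x.2 θ w) :
    extLab n x = lab n θ w := by
  obtain ⟨θ', w', h', he⟩ := Classical.epsilon_spec
    (p := fun l => ∃ θ w, ExtP n x.1 x.2 θ w ∧ l = lab n θ w) ⟨_, θ, w, h, rfl⟩
  have h2 : extLab n x = lab n θ' w' := he
  rw [h2]
  exact (extP_lab_unique h' h).symm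

open Classical in
/-- **the map F** -/
noncomputable def FF (n : ℕ) (x : ℂ × ℂ) : Lab n :=
  if G x.1 0 = 0 then labM n x.1 x.2 else extLab n x

lemma FF_ext {n : ℕ} {x : ℂ × ℂ} {θ : ℝ} {w : ℕ → ℤ} (h : ExtP n x.1 x.2 θ w) :
    FF n x = lab n θ w := by
  have h1 : G x.1 0 ≠ 0 := by
    have h2 := h.1
    rw [G_c_eq] at h2
    intro h3; rw [h3] at h2; simp at h2
  rw [FF, if_neg h1, extLab_eq h]

/-- `F` is locally constant at the points over `MM` -/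
theorem FF_nhds_MM {n : ℕ} (hn : 0 < n) {x₀ : ℂ × ℂ} (hx₀ : x₀ ∈ Per n) (hM : G x₀.1 0 = 0)
    (hρ : 1 < ‖mul n x₀‖) (hI : NoInt n x₀) :
    ∀ᶠ x in 𝓝 x₀, x ∈ Per n → FF n x = FF n x₀ := by
  obtain ⟨c₀, b₀⟩ := x₀
  obtain ⟨B, hF⟩ := exists_fam hn hM hx₀ hρ hI
  have h0 : FF n (c₀, b₀) = labM n c₀ b₀ := by rw [FF, if_pos hM]
  filter_upwards [labM_nhds hn (portHyp hn) hM hx₀ hρ hF, lab_ext_nhds hn (portHyp hn) hM hx₀ hρ hF]
    with x h1 h2 hx
  rw [h0]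
  by_cases hG : G x.1 0 = 0
  · rw [FF, if_pos hG]; exact h1 hx hG
  · have hc : 0 < G x.1 x.1 := by
      rw [G_c_eq]
      have := lt_of_le_of_ne (G_nonneg x.1 0) (Ne.symm hG)
      linarith
    obtain ⟨θ, hθ⟩ := exists_ang hc
    obtain ⟨w, hw⟩ := exists_extP_word hn hθ hx
    rw [FF_ext hw]
    exact h2 hx θ w hc hw.2.1 hw.2.2.2.1 hw.2.2.2.2

/-- outside the integer discs the rotation number of an exterior pair is not an integer -/
theorem nu_ne_int_ext {n : ℕ} (hn : 0 < n) {x : ℂ × ℂ} (h23 : ‖mul n x‖ < 23 / 10)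
    (hI : NoInt n x) {θ : ℝ} {w : ℕ → ℤ} (h : ExtP n x.1 x.2 θ w) (k : ℤ) :
    Circ.nu w n θ ≠ k := by
  intro hk
  have hG : G x.1 x.1 ≤ 4 := G_le_four_of_mul_lt hn h.2.2.1 h23
  obtain ⟨-, L, hL, hply⟩ := extP_ply hn h hG
  have h1 := hI L hL k
  rw [hk] at hply
  have h2 : (2 * Real.pi * (((k : ℤ) : ℝ) : ℂ) * I) = 2 * Real.pi * k * I := by push_cast; ring
  rw [h2] at hply
  linarith

/-- `F` is locally constant at exterior points -/
theorem FF_nhds_ext {n : ℕ} (hn : 0 < n) {x₀ : ℂ × ℂ} (hx₀ : x₀ ∈ Per n) (hM : G x₀.1 0 ≠ 0)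
    (h23 : ‖mul n x₀‖ < 23 / 10) (hI : NoInt n x₀) :
    ∀ᶠ x in 𝓝 x₀, x ∈ Per n → FF n x = FF n x₀ := by
  obtain ⟨c₀, b₀⟩ := x₀
  have hc : 0 < G c₀ c₀ := by
    rw [G_c_eq]
    have := lt_of_le_of_ne (G_nonneg c₀ 0) (Ne.symm hM)
    linarith
  obtain ⟨θ₀, hθ₀⟩ := exists_ang hc
  obtain ⟨w, hw⟩ := exists_extP_word hn hθ₀ hx₀
  have hG : ∀ᶠ x : ℂ × ℂ in 𝓝 (c₀, b₀), 0 < G x.1 x.1 := by
    have h1 : Continuous fun x : ℂ × ℂ => G x.1 x.1 :=
      continuous_G.comp (g := fun p : ℂ × ℂ => G p.1 p.2)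
        (f := fun x : ℂ × ℂ => ((x.1, x.1) : ℂ × ℂ)) (by fun_prop)
    exact h1.continuousAt.eventually_const_lt (by exact hc)
  filter_upwards [extP_lab_nhds hn hw (nu_ne_int_ext hn h23 hI hw), hG] with x h1 h2 hx
  obtain ⟨θ, hθ⟩ := exists_ang h2
  obtain ⟨w', hw'⟩ := exists_extP_word hn hθ hx
  rw [FF_ext hw', FF_ext (x := (c₀, b₀)) hw]
  exact h1 θ w' hw'

/-- **(5)** the map `F` is locally constant on the repelling part of the curve outside the integer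
discs -/
theorem FF_nhds {n : ℕ} (hn : 0 < n) {x₀ : ℂ × ℂ} (hx₀ : x₀ ∈ Per n) (hρ : 1 < ‖mul n x₀‖)
    (h23 : ‖mul n x₀‖ < 23 / 10) (hI : NoInt n x₀) :
    ∀ᶠ x in 𝓝 x₀, x ∈ Per n → FF n x = FF n x₀ := by
  by_cases hM : G x₀.1 0 = 0
  · exact FF_nhds_MM hn hx₀ hM hρ hI
  · exact FF_nhds_ext hn hx₀ hM h23 hI

/-- near a repelling point over `MM` all exterior pairs have rational rotation number -/
theorem nu_rat_nhds {n : ℕ} (hn : 0 < n) {x₀ : ℂ × ℂ} (hx₀ : x₀ ∈ Per n) (hM : x₀.1 ∈ MM)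
    (hρ : 1 < ‖mul n x₀‖) : ∃ q : ℕ, 0 < q ∧ ∀ᶠ x in 𝓝 x₀, x ∈ Per n →
      ∀ θ w, ExtP n x.1 x.2 θ w → ∃ P : ℤ, Circ.nu w n θ = P / q := by
  obtain ⟨c₀, b₀⟩ := x₀
  have hM0 : G c₀ 0 = 0 := mem_M_iff.1 hM
  have hlin := lin_Lz hn hx₀ hρ
  obtain ⟨β, q, p, hq, hland, -, -, -⟩ := Tr.exists_land_rot hlin hM0
    (Complex.exp_log (repelling_ne_zero hρ))
  refine ⟨q, hq, ?_⟩
  filter_upwards [land_nhds hn hM0 hx₀ hρ hland] with x h1 hx θ w hw
  have h2 := (h1 hx).2 θ w hw.1 hw.2.1 hw.2.2.2.2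
  obtain ⟨P, -, hP⟩ := nu_of_compat hland.1 hw.2.2.2.1.per h2
  exact ⟨P, hP⟩

/-- a good half disc: convex and open, to the right of the imaginary axis, outside the integer
discs, `|exp L| < 2.3` -/
structure GoodB (n : ℕ) (B : Set ℂ) : Prop where
  isOpen : IsOpen B
  conn : IsPreconnected B
  pos : ∀ L ∈ B, 0 < L.re
  lt : ∀ L ∈ B, ‖exp L‖ < 23 / 10
  noInt : ∀ L ∈ B, ∀ k : ℤ, 81 * n * L.re < ‖L - 2 * Real.pi * k * I‖ ^ 2

lemma GoodB.noInt' {n : ℕ} {B : Set ℂ} (h : GoodB n B) {x : ℂ × ℂ} {L : ℂ} (hL : L ∈ B)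
    (hm : mul n x = exp L) : NoInt n x := by
  intro L' hL' k
  rw [hm, Complex.exp_eq_exp_iff_exists_int] at hL'
  obtain ⟨m, hm⟩ := hL'
  have h1 := h.noInt L hL (k - m)
  have h2 : L'.re = L.re := by
    rw [hm]; simp
  have h3 : L' - 2 * Real.pi * k * I = L - 2 * Real.pi * ((k - m : ℤ) : ℂ) * I := by
    rw [hm]; push_cast; ring
  rw [h2, h3]
  exact h1

/-- **local injectivity over a good half disc**, from the occurrence of all labels -/
theorem locInj_of_goodB {n : ℕ} (hn : 0 < n) {B : Set ℂ} (hB : GoodB n B)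
    (hall : ∀ j : Lab n, ∃ x ∈ Per n, ∃ L ∈ B, mul n x = exp L ∧ FF n x = j) :
    ∀ x ∈ Per n, ∀ L ∈ B, mul n x = exp L → LocInj n x := by
  have : NeZero n := ⟨hn.ne'⟩
  have hexp : ∀ L ∈ B, 1 < ‖exp L‖ := by
    intro L hL
    rw [Complex.norm_exp]
    exact Real.one_lt_exp_iff.2 (hB.pos L hL)
  refine locInj_of_labels hn hB.isOpen hB.conn ?_ hB.lt (FF n) ?_ hall ?_
  · intro L hL h1
    have := hexp L hL
    rw [h1, norm_one] at this
    exact lt_irrefl _ this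
  · intro x hx L hL hm
    exact FF_nhds hn hx (by rw [hm]; exact hexp L hL) (by rw [hm]; exact hB.lt L hL)
      (hB.noInt' hL hm)
  · intro S l hl hS
    rw [card_Lab]
    refine ⟨Cnt.card_le hn hl S hS, fun hcard x hx => ?_⟩
    exact Cnt.locInj_of_card hn hl S hS hcard.ge (hS x hx).1 (hS x hx).2

end Pool.Agent.Work.MLC
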