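import Pool.Agent.Work.MLC.LabG
import Pool.Agent.Work.MLC.Strip0

set_option autoImplicit false

/-! # The map F near all pairs of non-integer rotation, without the Pommerenke-Levin-Yoccoz
inequality (helper59)

`NonInt n x`: the pair `x = (c, b)` has non-integer rotation number: over `MM` a periodic ray of
period at least two (for the return map) lands at `b`; outside `MM` the rotation number
`nu w n θ` is not an integer. -/

namespace Pool.Agent.Work.MLC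

open Filter Topology Metric Set Complex
open Pool.Agent.MLC (InHalf Portrait Linked)

/-- non-integer rotation -/
def NonInt (n : ℕ) (x : ℂ × ℂ) : Prop :=
  (G x.1 0 = 0 → ∃ β q, 2 ≤ q ∧ Land n x.1 x.2 β q) ∧
    ∀ θ w, ExtP n x.1 x.2 θ w → ∀ k : ℤ, Circ.nu w n θ ≠ k

/-- integer rotation over `MM`: a ray fixed by the return map lands -/
def IntRot (n : ℕ) (x : ℂ × ℂ) : Prop :=
  G x.1 0 = 0 ∧ ∃ β, Land n x.1 x.2 β 1

lemma Land.fam {n q : ℕ} {c b : ℂ} {β : ℝ} (hc : G c 0 = 0) (hq : 2 ≤ q)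
    (h : Land n c b β q) : Fam n c b {β} := by
  refine ⟨Set.finite_singleton β, ?_, ?_, ⟨β, rfl, q, hq, h.1⟩⟩
  · rintro β' rfl; exact ⟨q, h.1⟩
  · rintro β' rfl; exact h.lands hc

/-- the rotation number of an exterior pair is an integer for one pair of coordinates iff it is for
all -/
lemma nonInt_ext {n : ℕ} {c b : ℂ} {θ : ℝ} {w : ℕ → ℤ} (h : ExtP n c b θ w)
    (hν : ∀ k : ℤ, Circ.nu w n θ ≠ k) : NonInt n (c, b) := by
  refine ⟨fun h0 => ?_, fun θ' w' h' k hk => ?_⟩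
  · have h2 := h.1
    rw [G_c_eq] at h2
    simp only at h0
    rw [h0] at h2; simp at h2
  · obtain ⟨m, h1, h2⟩ := extP_unique h h'
    obtain ⟨j, hj⟩ := nu_parity h2 n
    have h3 := hj θ'
    have h4 : θ' + m = θ + 2 * m := by rw [h1]; ring
    rw [h4, nu_add_even] at h3
    rw [h3] at hk
    exact hν (k - j - n * m) (by push_cast; linarith)

/-- over `MM` a repelling pair is of non-integer rotation or of integer rotation -/
theorem nonInt_or_intRot {n : ℕ} (hn : 0 < n) {x : ℂ × ℂ} (hx : x ∈ Per n)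
    (hM : G x.1 0 = 0) (hρ : 1 < ‖mul n x‖) : NonInt n x ∨ IntRot n x := by
  obtain ⟨c, b⟩ := x
  obtain ⟨β, q, p, hq, hland, -, -, -⟩ := Tr.exists_land_rot (lin_Lz hn hx hρ) hM
    (Complex.exp_log (repelling_ne_zero hρ))
  rcases Nat.lt_or_ge q 2 with h | h
  · have : q = 1 := by omega
    subst this
    exact Or.inr ⟨hM, β, hland⟩
  · refine Or.inl ⟨fun _ => ⟨β, q, h, hland⟩, fun θ w h' => ?_⟩
    exfalso
    have h2 := h'.1
    rw [G_c_eq] at h2
    simp only at hM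
    rw [hM] at h2; simp at h2

/-- **`F` and the property of non-integer rotation are locally constant** on the repelling pairs -/
theorem FF_nhds_gen {n : ℕ} (hn : 0 < n) {x₀ : ℂ × ℂ} (hx₀ : x₀ ∈ Per n)
    (hρ : 1 < ‖mul n x₀‖) (hI : NonInt n x₀) :
    ∀ᶠ x in 𝓝 x₀, x ∈ Per n → FF n x = FF n x₀ ∧ NonInt n x := by
  obtain ⟨c₀, b₀⟩ := x₀
  by_cases hM : G c₀ 0 = 0
  · obtain ⟨β, q, hq, hland⟩ := hI.1 hM
    have hF := hland.fam hM hq
    have h0 : FF n (c₀, b₀) = labM n c₀ b₀ := by rw [FF, if_pos hM]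
    filter_upwards [labM_nhds hn (portHyp hn) hM hx₀ hρ hF,
      lab_ext_nhds hn (portHyp hn) hM hx₀ hρ hF, land_nhds hn hM hx₀ hρ hland]
      with x h1 h2 h3 hx
    rw [h0]
    refine ⟨?_, fun hG => ⟨β, q, hq, (h3 hx).1 hG⟩, fun θ w hw => ?_⟩
    · by_cases hG : G x.1 0 = 0
      · rw [FF, if_pos hG]; exact h1 hx hG
      · have hc : 0 < G x.1 x.1 := by
          rw [G_c_eq]
          have := lt_of_le_of_ne (G_nonneg x.1 0) (Ne.symm hG)
          linarith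
        obtain ⟨θ, hθ⟩ := exists_ang hc
        obtain ⟨w, hw⟩ := exists_extP_word hn hθ hx
        rw [FF_ext hw]
        exact h2 hx θ w hc hw.2.1 hw.2.2.2.1 hw.2.2.2.2
    · exact nu_ne_int_of_compat hq hland.1 hw.2.2.2.1.per
        ((h3 hx).2 θ w hw.1 hw.2.1 hw.2.2.2.2)
  · have hc : 0 < G c₀ c₀ := by
      rw [G_c_eq]
      have := lt_of_le_of_ne (G_nonneg c₀ 0) (Ne.symm hM)
      linarith
    obtain ⟨θ₀, hθ₀⟩ := exists_ang hc
    obtain ⟨w, hw⟩ := exists_extP_word hn hθ₀ hx₀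
    have hν := hI.2 θ₀ w hw
    have hG : ∀ᶠ x : ℂ × ℂ in 𝓝 (c₀, b₀), 0 < G x.1 x.1 :=
      continuous_G_diag'.continuousAt.eventually_const_lt (by exact hc)
    set k := ⌊Circ.nu w n θ₀⌋ with hk
    have h1 : (k : ℝ) < Circ.nu w n θ₀ :=
      lt_of_le_of_ne (Int.floor_le _) fun h => hν k h.symm
    have h2 : Circ.nu w n θ₀ < k + 1 := Int.lt_floor_add_one _
    have hcc : ∀ᶠ θ in 𝓝 θ₀, (k : ℝ) < Circ.nu w n θ ∧ Circ.nu w n θ < k + 1 :=
      ((Circ.nu_continuous w n).tendsto θ₀).eventually (Ioo_mem_nhds h1 h2)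
    obtain ⟨ε, hε, hε'⟩ := Metric.eventually_nhds_iff_ball.1 hcc
    filter_upwards [extP_lab_nhds hn hw hν, hG, extP_nhds hn hw hε] with x h1 h2 h3 hx
    obtain ⟨θ, hθ, hE⟩ := h3 hx
    refine ⟨?_, ?_⟩
    · rw [FF_ext hE, FF_ext (x := (c₀, b₀)) hw]
      exact h1 θ w hE
    · obtain ⟨h4, h5⟩ := hε' θ (by rw [mem_ball, Real.dist_eq]; exact hθ)
      refine nonInt_ext (c := x.1) (b := x.2) hE fun j hj => ?_
      rw [hj] at h4 h5
      have h6 : k < j := by exact_mod_cast h4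
      have h7 : j < k + 1 := by exact_mod_cast h5
      omega

/-- the pairs of integer rotation over `MM` are stable: nearby over `MM` the same ray lands, and
nearby exterior pairs have an integer rotation number -/
theorem intRot_nhds {n : ℕ} (hn : 0 < n) {x₀ : ℂ × ℂ} (hx₀ : x₀ ∈ Per n)
    (hρ : 1 < ‖mul n x₀‖) (hI : IntRot n x₀) : ∃ β, Land n x₀.1 x₀.2 β 1 ∧
    ∀ᶠ x in 𝓝 x₀, x ∈ Per n →
      (G x.1 0 = 0 → Land n x.1 x.2 β 1) ∧
      ∀ θ w, ExtP n x.1 x.2 θ w → Compat β θ w ∧ ∃ k : ℤ, Circ.nu w n θ = k := by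
  obtain ⟨c₀, b₀⟩ := x₀
  obtain ⟨hM, β, hland⟩ := hI
  refine ⟨β, hland, ?_⟩
  filter_upwards [land_nhds hn hM hx₀ hρ hland] with x h hx
  refine ⟨(h hx).1, fun θ w hw => ?_⟩
  have h1 := (h hx).2 θ w hw.1 hw.2.1 hw.2.2.2.2
  refine ⟨h1, ?_⟩
  obtain ⟨P, -, hP⟩ := nu_of_compat hland.1 hw.2.2.2.1.per h1
  exact ⟨P, by simpa using hP⟩

/-- the two types over `MM` exclude each other -/
theorem not_nonInt_of_intRot {n : ℕ} (hn : 0 < n) {x : ℂ × ℂ} (hx : x ∈ Per n)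
    (hρ : 1 < ‖mul n x‖) (hI : IntRot n x) (hN : NonInt n x)
    (hclose : ∃ᶠ y in 𝓝 x, y ∈ Per n ∧ 0 < G y.1 y.1) : False := by
  obtain ⟨β, -, h⟩ := intRot_nhds hn hx hρ hI
  obtain ⟨y, ⟨⟨hy, hGy⟩, h1⟩, h2⟩ := ((hclose.and_eventually h).and_eventually
    (FF_nhds_gen hn hx hρ hN)).exists
  obtain ⟨θ, hθ⟩ := exists_ang hGy
  obtain ⟨w, hw⟩ := exists_extP_word hn hθ hy
  obtain ⟨k, hk⟩ := ((h1 hy).2 θ w hw).2
  exact (h2 hy).2.2 θ w hw k hk

end Pool.Agent.Work.MLC
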