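import Pool.Agent.Work.MLC.NV3
import Pool.Agent.Work.MLC.Final6b

set_option autoImplicit false

/-! # Neighbourhood bases consisting of limbs (helper6) -/

namespace Pool.Agent.Work.MLC

open Filter Topology Metric Set NV

/-- a small piece which contains `c₀`, as the complement of the component of `0` -/
theorem piece_of_lvl (hMc : IsClosed MS) (hconn : IsPreconnected MS) {c₀ : ℂ} (hc₀ : c₀ ∈ MS)
    {ε : ℝ} (hε : ε ≤ 1 / 16)
    (h : ∃ (n : ℕ) (r b : ℂ) (K : Set ℂ), 0 < n ∧ it r n b = b ∧ ‖mul n (r, b)‖ = 1 ∧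
      K ⊆ MS ∧ IsCompact K ∧ IsPreconnected K ∧ r ∈ K ∧
      (∀ z ∈ K, z ≠ r → K \ {r} ∈ 𝓝[MS] z) ∧ K ⊆ closedBall r ε ∧
      (∃ W : Set ℂ, W.Nonempty ∧ ∀ z ∈ MS, z ∉ K → W ⊆ connectedComponentIn (MS \ {r}) z) ∧
      r ≠ c₀ ∧ connectedComponentIn (MS \ {r}) c₀ ≠ connectedComponentIn (MS \ {r}) 0) :
    ∃ (r : ℂ) (K : Set ℂ), K = MS \ connectedComponentIn (MS \ {r}) 0 ∧ IsCompact K ∧
      IsConnected K ∧ r ∈ K ∧ (∀ z ∈ K, z ≠ r → K \ {r} ∈ 𝓝[MS] z) ∧ K ⊆ closedBall r ε ∧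
      c₀ ∈ K ∧ r ≠ c₀ := by
  obtain ⟨n, r, b, K, hn, hb, hm, hKM, hKc, hKp, hrK, hKo, hKs, ⟨W, ⟨v, hv⟩, hW⟩, hrc, hne⟩ := h
  have h0M : (0 : ℂ) ∈ MS := ball_sub_MS (mem_ball_self (by norm_num))
  have h0K : (0 : ℂ) ∉ K := by
    intro h0K
    have h1 := hKs h0K
    rw [mem_closedBall, dist_zero_left] at h1
    have hr8 : ball r (1 / 8) ⊆ MS := by
      intro z hz
      apply ball_sub_MS
      rw [mem_ball] at hz
      rw [mem_ball_zero_iff]
      have h2 : ‖z‖ ≤ ‖z - r‖ + ‖r‖ := by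
        have : z = (z - r) + r := by ring
        calc ‖z‖ = ‖(z - r) + r‖ := by rw [← this]
          _ ≤ _ := norm_add_le _ _
      rw [dist_eq_norm] at hz
      linarith
    have hpre := preconn_diff_interior hconn (by norm_num : (0 : ℝ) < 1 / 8) hr8
    have hr0 : r ≠ 0 := by
      rintro rfl
      exact mul_zero_norm_ne hn (b := b) hb hm
    have h3 : (0 : ℂ) ∈ MS \ {r} := ⟨h0M, fun h => hr0 h.symm⟩
    have h4 : c₀ ∈ MS \ {r} := ⟨hc₀, fun h => hrc h.symm⟩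
    apply hne
    have h5 : c₀ ∈ connectedComponentIn (MS \ {r}) 0 :=
      hpre.subset_connectedComponentIn h3 le_rfl h4
    exact (connectedComponentIn_eq h5).symm
  have hcK : c₀ ∈ K := by
    by_contra hcon
    exact hne ((connectedComponentIn_eq (hW c₀ hc₀ hcon hv)).trans
      (connectedComponentIn_eq (hW 0 h0M h0K hv)).symm)
  have h0r : (0 : ℂ) ∈ MS \ {r} := by
    refine ⟨h0M, fun h3 => h0K ?_⟩
    have h4 : (0 : ℂ) = r := h3
    rw [h4]; exact hrK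
  refine ⟨r, K, ?_, hKc, ⟨⟨r, hrK⟩, hKp⟩, hrK, hKo, hKs, hcK, hrc⟩
  ext z
  constructor
  · intro hz
    refine ⟨hKM hz, fun hz0 => h0K ?_⟩
    exact conn_sub hMc hKc.isClosed hKo isPreconnected_connectedComponentIn
      (connectedComponentIn_subset _ _) ⟨z, hz0, hz⟩ (mem_connectedComponentIn h0r)
  · rintro ⟨hzM, hz⟩
    by_contra hzK
    apply hz
    have h1 := connectedComponentIn_eq (hW z hzM hzK hv)
    have h2 := connectedComponentIn_eq (hW 0 h0M h0K hv)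
    rw [h2, ← h1]
    exact mem_connectedComponentIn ⟨hzM, fun h3 => hzK (by rw [mem_singleton_iff.1 h3]; exact hrK)⟩

/-- **a neighbourhood basis of limbs**, and `c₀` is in the boundary of `M` -/
theorem basis_of_pieces (hMc : IsClosed MS) (hconn : IsPreconnected MS) {c₀ : ℂ} (hc₀ : c₀ ∈ MS)
    (h : ∀ ε > 0, ∃ (n : ℕ) (r b : ℂ) (K : Set ℂ), 0 < n ∧ it r n b = b ∧ ‖mul n (r, b)‖ = 1 ∧
      K ⊆ MS ∧ IsCompact K ∧ IsPreconnected K ∧ r ∈ K ∧
      (∀ z ∈ K, z ≠ r → K \ {r} ∈ 𝓝[MS] z) ∧ K ⊆ closedBall r ε ∧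
      (∃ W : Set ℂ, W.Nonempty ∧ ∀ z ∈ MS, z ∉ K → W ⊆ connectedComponentIn (MS \ {r}) z) ∧
      r ≠ c₀ ∧ connectedComponentIn (MS \ {r}) c₀ ≠ connectedComponentIn (MS \ {r}) 0) :
    c₀ ∈ frontier MS ∧ ∀ U ∈ 𝓝 c₀, ∃ r : ℂ, ∃ V ⊆ U,
      V = MS \ connectedComponentIn (MS \ {r}) 0 ∧ IsCompact V ∧ IsConnected V ∧
      V ∈ 𝓝[MS] c₀ := by
  refine ⟨?_, fun U hU => ?_⟩
  · rw [hMc.frontier_eq]
    refine ⟨hc₀, fun hint => ?_⟩
    obtain ⟨δ, hδ, hδM⟩ := Metric.isOpen_iff.1 isOpen_interior c₀ hint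
    obtain ⟨r, K, -, hKc, -, hrK, hKo, hKs, hcK, hrc⟩ := piece_of_lvl hMc hconn hc₀
      (min_le_right (δ / 4) (1 / 16)) (h _ (lt_min (by positivity) (by positivity)))
    have hd1 := min_le_left (δ / 4) (1 / 16)
    set u : ℂ := c₀ - r with hu
    have hu0 : u ≠ 0 := fun h0 => hrc (sub_eq_zero.1 h0).symm
    have hun : 0 < ‖u‖ := norm_pos_iff.2 hu0
    set γ : ℝ → ℂ := fun t => c₀ + ((t / ‖u‖ : ℝ) : ℂ) * u with hγ
    have hγc : Continuous γ := by fun_prop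
    have hpre : IsPreconnected (γ '' Icc 0 (δ / 2)) :=
      isPreconnected_Icc.image _ hγc.continuousOn
    have hγ0 : γ 0 = c₀ := by simp [hγ]
    have hγr : ∀ t, γ t - r = ((1 + t / ‖u‖ : ℝ) : ℂ) * u := by
      intro t
      simp only [hγ, hu]
      push_cast
      ring
    have hγn : ∀ t, 0 ≤ t → ‖γ t - r‖ = ‖u‖ + t := by
      intro t ht
      have h1 : 0 ≤ 1 + t / ‖u‖ := by positivity
      rw [hγr, norm_mul, Complex.norm_real, Real.norm_eq_abs, abs_of_nonneg h1]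
      field_simp
    have hγd : ∀ t, 0 ≤ t → dist (γ t) c₀ = t := by
      intro t ht
      rw [dist_eq_norm]
      simp only [hγ]
      rw [add_sub_cancel_left, norm_mul, Complex.norm_real, Real.norm_eq_abs,
        abs_of_nonneg (by positivity)]
      field_simp
    have hsub : γ '' Icc 0 (δ / 2) ⊆ MS \ {r} := by
      rintro _ ⟨t, ht, rfl⟩
      refine ⟨interior_subset (hδM ?_), fun h0 => ?_⟩
      · rw [mem_ball, hγd t ht.1]
        linarith [ht.2]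
      · have h1 := hγn t ht.1
        rw [mem_singleton_iff.1 h0, sub_self, norm_zero] at h1
        linarith [ht.1]
    have hK := conn_sub hMc hKc.isClosed hKo hpre hsub
      ⟨c₀, ⟨0, ⟨le_rfl, by positivity⟩, hγ0⟩, hcK⟩
    have h1 := hKs (hK ⟨δ / 2, ⟨by positivity, le_rfl⟩, rfl⟩)
    rw [mem_closedBall, dist_eq_norm, hγn _ (by positivity)] at h1
    linarith
  · obtain ⟨δ, hδ, hδU⟩ := Metric.mem_nhds_iff.1 hU
    obtain ⟨r, K, hKe, hKc, hKn, hrK, hKo, hKs, hcK, hrc⟩ := piece_of_lvl hMc hconn hc₀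
      (min_le_right (δ / 4) (1 / 16)) (h _ (lt_min (by positivity) (by positivity)))
    have hd1 := min_le_left (δ / 4) (1 / 16)
    refine ⟨r, K, ?_, hKe, hKc, hKn, mem_of_superset (hKo c₀ hcK hrc.symm) sdiff_subset⟩
    intro z hz
    apply hδU
    have h1 := hKs hz
    have h2 := hKs hcK
    rw [mem_closedBall] at h1 h2
    rw [mem_ball]
    calc dist z c₀ ≤ dist z r + dist c₀ r := dist_triangle_right _ _ _
      _ < δ := by linarith

end Pool.Agent.Work.MLC
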