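import Pool.Agent.Work.MLC.SatV6
import Pool.Agent.Work.MLC.LcS6
import Pool.Agent.Work.MLC.Dens6c

set_option autoImplicit false

/-! # The statement about local connectivity, with limbs and residuality (helper6) -/

namespace Pool.Agent.Work.MLC.Sat

open Filter Topology Metric Set

/-- **limbs are a neighbourhood basis**, levels of type (A) or (B) -/
theorem basis_main (hSP : SatPiece) {c₀ : ℂ} (hc₀ : c₀ ∈ MS)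
    (h : ∀ N : ℕ, ∃ (n p q : ℕ) (r b : ℂ), N ≤ n ∧ 0 < n ∧ 0 < p ∧ p < q ∧ Nat.Coprime p q ∧
      it r n b = b ∧ mul n (r, b) = Complex.exp (2 * Real.pi * (p / q) * Complex.I) ∧
      r ≠ c₀ ∧ connectedComponentIn (MS \ {r}) c₀ ≠ connectedComponentIn (MS \ {r}) 0 ∧
      (16 * Real.log 2 * (n : ℝ) ^ 2 * q ≤ (min (p : ℝ) (q - p)) ^ 2 ∨
        (1000000000000000 * (n : ℝ) ^ 12 ≤ q ∧ ∃ (m p₀ q₀ : ℕ) (r₀ b₀ : ℂ) (W : Set ℂ),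
          n = m * q₀ ∧ SatOf m p₀ q₀ r₀ b₀ W ∧ Satellite (m * q₀) W r b p q))) :
    c₀ ∈ frontier MS ∧ ∀ U ∈ 𝓝 c₀, ∃ r : ℂ, ∃ V ⊆ U,
      V = MS \ connectedComponentIn (MS \ {r}) 0 ∧ IsCompact V ∧ IsConnected V ∧
      V ∈ 𝓝[MS] c₀ := by
  refine basis_of_pieces inputs34.cpt.isClosed inputs34.conn hc₀ fun ε hε => ?_
  obtain ⟨N₁, hN₁⟩ := small_A hε
  obtain ⟨N₂, hN₂⟩ := small_B hSP hε
  obtain ⟨n, p, q, r, b, hN, hn, hp, hpq, hcop, hb, hm, hrc, hne, hor⟩ := h (max N₁ N₂)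
  have hP : Piece r ε := by
    rcases hor with h1 | ⟨h1, m, p₀, q₀, r₀, b₀, W, hnm, hS, hR⟩
    · exact hN₁ n p q r b ((le_max_left _ _).trans hN) hn hp hpq hcop hb hm h1
    · exact hN₂ m p₀ q₀ r₀ b₀ W n p q r b ((le_max_right _ _).trans hN) hnm hS hR h1
  obtain ⟨K, h1, h2, h3, h4, h5, h6, h7⟩ := hP
  refine ⟨n, r, b, K, hn, hb, ?_, h1, h2, h3, h4, h5, h6, h7, hrc, hne⟩
  rw [hm, Complex.norm_exp]
  simp

open N62a1eb23 in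
theorem res_localConn_res (hSP : SatPiece) : ∃ S ⊆ frontier mandelbrotSet,
    (∀ c₀ : ℂ, c₀ ∈ S ↔ c₀ ∈ mandelbrotSet ∧ ∀ N : ℕ, ∃ (n p q : ℕ) (r b : ℂ), N ≤ n ∧
      0 < n ∧ 0 < p ∧ p < q ∧ Nat.Coprime p q ∧ (fun z : ℂ => z ^ 2 + r)^[n] b = b ∧
      deriv ((fun z : ℂ => z ^ 2 + r)^[n]) b = Complex.exp (2 * Real.pi * (p / q) * Complex.I) ∧
      c₀ ≠ r ∧ c₀ ∉ connectedComponentIn (mandelbrotSet \ {r}) 0 ∧
      (16 * Real.log 2 * (n : ℝ) ^ 2 * q ≤ (min (p : ℝ) (q - p)) ^ 2 ∨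
        (10 ^ 15 * n ^ 12 ≤ q ∧ ∃ (m p₀ q₀ : ℕ) (r₀ b₀ : ℂ) (W : Set (ℂ × ℂ)),
          n = m * q₀ ∧ 0 < p₀ ∧ p₀ < q₀ ∧ Nat.Coprime p₀ q₀ ∧
          Function.minimalPeriod (fun z : ℂ => z ^ 2 + r₀) b₀ = m ∧
          deriv ((fun z : ℂ => z ^ 2 + r₀)^[m]) b₀ =
            Complex.exp (2 * Real.pi * (p₀ / q₀) * Complex.I) ∧
          Function.minimalPeriod (fun z : ℂ => z ^ 2 + r) b = n ∧ IsPreconnected W ∧
          (∀ x ∈ W, Function.minimalPeriod (fun z : ℂ => z ^ 2 + x.1) x.2 = n ∧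
            ‖deriv ((fun z : ℂ => z ^ 2 + x.1)^[n]) x.2‖ < 1) ∧
          (r₀, b₀) ∈ closure W ∧ (r, b) ∈ closure W))) ∧
    (∃ G ⊆ S, IsGδ G ∧ frontier mandelbrotSet ⊆ closure G) ∧
    (∀ U : Set ℂ, IsOpen U → (U ∩ frontier mandelbrotSet).Nonempty → ¬ (S ∩ U).Countable) ∧
    ∀ c₀ ∈ S, ∀ U ∈ 𝓝 c₀, ∃ r : ℂ, ∃ V ⊆ U,
      V = mandelbrotSet \ connectedComponentIn (mandelbrotSet \ {r}) 0 ∧ IsCompact V ∧
      IsConnected V ∧ V ∈ 𝓝[mandelbrotSet] c₀ := by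
  have hlog : 0 < Real.log 2 := Real.log_pos (by norm_num)
  have hmul : ∀ (n : ℕ) (r b : ℂ), deriv ((fun z : ℂ => z ^ 2 + r)^[n]) b =
      Pool.Agent.Work.MLC.mul n (r, b) :=
    fun n r b => (Pool.Agent.Work.MLC.hasDerivAt_it r n b).deriv
  let S : Set ℂ := {c₀ | c₀ ∈ mandelbrotSet ∧ ∀ N : ℕ, ∃ (n p q : ℕ) (r b : ℂ), N ≤ n ∧
      0 < n ∧ 0 < p ∧ p < q ∧ Nat.Coprime p q ∧ (fun z : ℂ => z ^ 2 + r)^[n] b = b ∧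
      deriv ((fun z : ℂ => z ^ 2 + r)^[n]) b = Complex.exp (2 * Real.pi * (p / q) * Complex.I) ∧
      c₀ ≠ r ∧ c₀ ∉ connectedComponentIn (mandelbrotSet \ {r}) 0 ∧
      (16 * Real.log 2 * (n : ℝ) ^ 2 * q ≤ (min (p : ℝ) (q - p)) ^ 2 ∨
        (10 ^ 15 * n ^ 12 ≤ q ∧ ∃ (m p₀ q₀ : ℕ) (r₀ b₀ : ℂ) (W : Set (ℂ × ℂ)),
          n = m * q₀ ∧ 0 < p₀ ∧ p₀ < q₀ ∧ Nat.Coprime p₀ q₀ ∧
          Function.minimalPeriod (fun z : ℂ => z ^ 2 + r₀) b₀ = m ∧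
          deriv ((fun z : ℂ => z ^ 2 + r₀)^[m]) b₀ =
            Complex.exp (2 * Real.pi * (p₀ / q₀) * Complex.I) ∧
          Function.minimalPeriod (fun z : ℂ => z ^ 2 + r) b = n ∧ IsPreconnected W ∧
          (∀ x ∈ W, Function.minimalPeriod (fun z : ℂ => z ^ 2 + x.1) x.2 = n ∧
            ‖deriv ((fun z : ℂ => z ^ 2 + x.1)^[n]) x.2‖ < 1) ∧
          (r₀, b₀) ∈ closure W ∧ (r, b) ∈ closure W))}
  have hP6 : ∀ c₀ ∈ mandelbrotSet, NV.Prop6 (1 / 4) c₀ → c₀ ∈ S := by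
    intro c₀ h1 h2
    refine ⟨h1, fun N => ?_⟩
    obtain ⟨n, p, q, r, b, h3, h4, h5, h6, h7, h8, h9, h10, h11, h12⟩ := h2 N
    exact ⟨n, p, q, r, b, h3, h4, h5, h6, h7, h8, (hmul n r b).trans h9,
      h11.symm, h12, Or.inl (by linarith)⟩
  have hbasis : ∀ c₀ ∈ S, c₀ ∈ frontier mandelbrotSet ∧ ∀ U ∈ 𝓝 c₀, ∃ r : ℂ, ∃ V ⊆ U,
      V = mandelbrotSet \ connectedComponentIn (mandelbrotSet \ {r}) 0 ∧ IsCompact V ∧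
      IsConnected V ∧ V ∈ 𝓝[mandelbrotSet] c₀ := by
    rintro c₀ ⟨h1, h2⟩
    refine basis_main hSP h1 fun N => ?_
    obtain ⟨n, p, q, r, b, h3, h4, h5, h6, h7, h8, h9, h10, h11, h12⟩ := h2 N
    refine ⟨n, p, q, r, b, h3, h4, h5, h6, h7, h8, (hmul n r b).symm.trans h9,
      h10.symm, fun h13 => h11 ?_, ?_⟩
    · rw [← h13]
      exact mem_connectedComponentIn ⟨h1, h10⟩
    · rcases h12 with h12 | ⟨h12, m, p₀, q₀, r₀, b₀, W, k1, k2, k3, k4, k5, k6, k7, k8, k9, k10,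
        k11⟩
      · exact Or.inl h12
      · right
        obtain ⟨W', hW1, hW2⟩ := sat_of_conn h4 k1 k2 k3 k4 k5 k6 h5 h6 h7 k7 h9 k8 k9 k10 k11
        refine ⟨?_, m, p₀, q₀, r₀, b₀, W', k1, hW1, hW2⟩
        have : (((10 : ℕ) ^ 15 * n ^ 12 : ℕ) : ℝ) ≤ q := by exact_mod_cast h12
        push_cast at this
        linarith
  refine ⟨S, fun c₀ hc₀ => (hbasis c₀ hc₀).1, fun c₀ => Iff.rfl, ?_, fun U hU hne hS => ?_,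
    fun c₀ hc₀ => (hbasis c₀ hc₀).2⟩
  · obtain ⟨G, hG, hGf, hGc, hGp⟩ := Dens.exists_gdelta_prop6
    exact ⟨G, fun c hc => hP6 c (inputs34.cpt.isClosed.frontier_subset (hGf hc)) (hGp c hc),
      hG, hGc⟩
  · refine Dens.uncountable_local hU hne (hS.mono ?_)
    rintro c₀ ⟨⟨h1, hcU⟩, h2⟩
    exact ⟨hP6 c₀ h1 h2, hcU⟩

end Pool.Agent.Work.MLC.Sat
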