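import Pool.Agent.Work.MLC.Sat3

set_option autoImplicit false

/-! # Exterior parameters of low potential over the middle of a plateau: tools (helper13) -/

namespace Pool.Agent.Work.MLC

open Filter Topology Metric Set Complex Pool.Agent.Work.MLC.Sat

/-! ### a maximum principle -/

theorem max_limsup {U : Set ℂ} (hU : IsOpen U) (hb : Bornology.IsBounded U) {f : ℂ → ℂ}
    (hf : DifferentiableOn ℂ f U) {C : ℝ}
    (h : ∀ z ∈ frontier U, ∀ ε > 0, ∀ᶠ w in 𝓝[U] z, ‖f w‖ < C + ε) {z : ℂ} (hz : z ∈ U) :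
    ‖f z‖ ≤ C := by
  by_contra hcon
  push Not at hcon
  set ε : ℝ := (‖f z‖ - C) / 2 with hε
  have hε0 : 0 < ε := by rw [hε]; linarith
  have hfc : ContinuousOn f U := hf.continuousOn
  set V : Set ℂ := {w ∈ U | C + ε < ‖f w‖} with hV
  have hVo : IsOpen V := by
    have h1 := hfc.norm.isOpen_inter_preimage hU (isOpen_Ioi (a := C + ε))
    have h2 : V = U ∩ (fun x => ‖f x‖) ⁻¹' Ioi (C + ε) := rfl
    rw [h2]; exact h1
  have hzV : z ∈ V := ⟨hz, by rw [hε]; linarith⟩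
  have hcl : closure V ⊆ U := by
    intro w hw
    by_contra hwU
    have h1 : w ∈ frontier U := by
      rw [hU.frontier_eq]
      exact ⟨closure_mono (fun _ h => h.1) hw, hwU⟩
    have h2 := h w h1 ε hε0
    rw [eventually_nhdsWithin_iff] at h2
    obtain ⟨w', a1, a2⟩ := ((mem_closure_iff_frequently.1 hw).and_eventually h2).exists
    exact lt_irrefl _ ((a2 a1.1).trans a1.2)
  have hd : DiffContOnCl ℂ f V := (hf.mono hcl).diffContOnCl
  have hfr : ∀ w ∈ frontier V, ‖f w‖ ≤ C + ε := by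
    intro w hw
    rw [hVo.frontier_eq] at hw
    by_contra hcon2
    push Not at hcon2
    exact hw.2 ⟨hcl hw.1, hcon2⟩
  have h3 := Complex.norm_le_of_forall_mem_frontier_norm_le (hb.subset fun _ h => h.1) hd hfr
    (subset_closure hzV)
  linarith [hzV.2]

/-! ### the multiplier as a function of the external coordinate -/

section

variable {n : ℕ} {w : ℕ → ℤ}

open Classical in
/-- the point with the word `w` -/
noncomputable def bw (n : ℕ) (w : ℕ → ℤ) (z : ℂ) : ℂ :=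
  if h : ∃ b, ExtP n (cOf z) b (z.im / (2 * Real.pi)) w then h.choose else 0

/-- its multiplier -/
noncomputable def rw' (n : ℕ) (w : ℕ → ℤ) (z : ℂ) : ℂ := mul n (cOf z, bw n w z)

lemma ang_cOf' {z : ℂ} (hz : 0 < z.re) : Ang (cOf z) (z.im / (2 * Real.pi)) ∧
    G (cOf z) (cOf z) = z.re := by
  have h := ang_cOf (g := z.re) (θ := z.im / (2 * Real.pi)) hz
  have e : ((z.re : ℂ) + 2 * Real.pi * ((z.im / (2 * Real.pi) : ℝ) : ℂ) * I) = z := by
    have hpi : (Real.pi : ℂ) ≠ 0 := by exact_mod_cast Real.pi_ne_zero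
    push_cast
    have : (2 : ℂ) * Real.pi * (z.im / (2 * Real.pi)) = z.im := by field_simp
    rw [this]; exact re_add_im z
  rwa [e] at h

lemma bw_spec (hn : 0 < n) (hw : Bits n w) {z : ℂ} (hz : 0 < z.re) :
    ExtP n (cOf z) (bw n w z) (z.im / (2 * Real.pi)) w := by
  have h := exists_extP hn (ang_cOf' hz).1 hw
  unfold bw
  rw [dif_pos h]
  exact h.choose_spec

lemma bw_eq (hn : 0 < n) (hw : Bits n w) {z b : ℂ} (hz : 0 < z.re)
    (h : ExtP n (cOf z) b (z.im / (2 * Real.pi)) w) : bw n w z = b :=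
  extP_inj hn (bw_spec hn hw hz) h

lemma one_lt_rw (hn : 0 < n) (hw : Bits n w) {z : ℂ} (hz : 0 < z.re) : 1 < ‖rw' n w z‖ := by
  have h := bw_spec hn hw hz
  exact one_lt_norm_mult_of_ext hn h.1 h.2.2.1

lemma differentiableAt_rw (hn : 0 < n) (hw : Bits n w) {z₀ : ℂ} (hz₀ : 0 < z₀.re) :
    DifferentiableAt ℂ (rw' n w) z₀ := by
  have h0 := bw_spec hn hw hz₀
  have h1 := one_lt_rw hn hw hz₀
  obtain ⟨β, hβ⟩ := Cnt.exists_branch (n := n) (c₀ := cOf z₀) (b := bw n w z₀) h0.2.2.1 (by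
    intro h
    unfold rw' at h1
    rw [h, norm_one] at h1
    exact lt_irrefl _ h1)
  have hopen : IsOpen {z : ℂ | 0 < z.re} := isOpen_lt continuous_const Complex.continuous_re
  have hc : DifferentiableAt ℂ cOf z₀ := differentiableOn_cOf.differentiableAt (hopen.mem_nhds hz₀)
  have hβc : Tendsto (fun z => ((cOf z, β (cOf z)) : ℂ × ℂ)) (𝓝 z₀) (𝓝 (cOf z₀, bw n w z₀)) := by
    have h2 : ContinuousAt (fun z => β (cOf z)) z₀ :=
      ContinuousAt.comp (f := cOf) (g := β) hβ.an.continuousAt hc.continuousAt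
    have h3 : ContinuousAt (fun z => ((cOf z, β (cOf z)) : ℂ × ℂ)) z₀ :=
      hc.continuousAt.prodMk h2
    have h4 := h3.tendsto
    simp only [hβ.val] at h4
    exact h4
  have hev := hβc.eventually (extP_nhds hn h0 (ε := 1 / 2) (by norm_num))
  have him : ∀ᶠ z : ℂ in 𝓝 z₀, |z.im / (2 * Real.pi) - z₀.im / (2 * Real.pi)| < 1 / 2 := by
    have h2 : ContinuousAt (fun z : ℂ => |z.im / (2 * Real.pi) - z₀.im / (2 * Real.pi)|) z₀ := by
      fun_prop
    have h3 := h2.tendsto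
    simp only [sub_self, abs_zero] at h3
    exact h3.eventually (gt_mem_nhds (by norm_num))
  have heq : rw' n w =ᶠ[𝓝 z₀] fun z => mul n (cOf z, β (cOf z)) := by
    filter_upwards [hev, hopen.mem_nhds hz₀, hc.continuousAt.eventually hβ.eqn, him]
      with z a1 a2 a3 a4
    obtain ⟨θ, b1, b2⟩ := a1 a3
    obtain ⟨m, hm⟩ := (ang_cOf' a2).1.unique b2.ang
    have hm0 : m = 0 := by
      have h5 : |(m : ℝ)| < 1 := by
        have h6 : (m : ℝ) = (θ - z₀.im / (2 * Real.pi))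
            - (z.im / (2 * Real.pi) - z₀.im / (2 * Real.pi)) := by rw [hm]; ring
        rw [h6]
        exact (abs_sub _ _).trans_lt (by linarith)
      have h7 : |m| < 1 := by exact_mod_cast h5
      exact Int.abs_lt_one_iff.1 h7
    have hθ : θ = z.im / (2 * Real.pi) := by rw [hm, hm0]; simp
    rw [hθ] at b2
    unfold rw'
    rw [bw_eq hn hw a2 b2]
  refine DifferentiableAt.congr_of_eventuallyEq ?_ heq
  have h2 := (Cnt.analyticAt_mul_branch hβ).differentiableAt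
  exact DifferentiableAt.comp (g := fun c => mul n (c, β c)) z₀ h2 hc

/-- boundedness -/
lemma rw_bound (hn : 0 < n) (hw : Bits n w) (h₁ : ℝ) : ∃ C : ℝ, ∀ z : ℂ, 0 < z.re → z.re ≤ h₁ →
    ‖rw' n w z‖ ≤ C ∧ ‖cOf z‖ ≤ 2 * Real.exp h₁ + 100 ∧
    ‖bw n w z‖ ≤ 1 + (2 * Real.exp h₁ + 100) := by
  set R : ℝ := 2 * Real.exp h₁ + 100 with hR
  refine ⟨∏ _i ∈ Finset.range n, (2 * (1 + R)), fun z hz hz1 => ?_⟩
  have h := bw_spec hn hw hz
  have hc : ‖cOf z‖ ≤ R := norm_le_of_G_le (by rw [(ang_cOf' hz).2]; exact hz1)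
  have hb : ∀ i, ‖it (cOf z) i (bw n w z)‖ ≤ 1 + R := fun i => by
    have := norm_it_le_of_G_zero (G_zero_of_per hn h.2.2.1) i
    linarith
  refine ⟨?_, hc, by simpa using hb 0⟩
  unfold rw' mul
  rw [norm_prod]
  refine Finset.prod_le_prod (fun _ _ => norm_nonneg _) fun i _ => ?_
  rw [norm_mul]
  have := hb i
  simp only [Complex.norm_ofNat]
  linarith

end

/-! ### elementary estimates -/

lemma re_inv_exp {v : ℂ} {r : ℝ} (hr : 0 < r) (hr1 : r ≤ 1 / 10) (hv : v ≠ 0)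
    (h : ‖v‖ ^ 2 ≤ r * v.re) : 7 / 10 / r ≤ ((exp v - 1)⁻¹).re := by
  have hv0 : 0 < ‖v‖ := norm_pos_iff.2 hv
  have h1 : ‖v‖ ≤ r := by
    have h2 : v.re ≤ ‖v‖ := Complex.re_le_norm v
    by_contra hcon
    push Not at hcon
    have : r * v.re ≤ r * ‖v‖ := mul_le_mul_of_nonneg_left h2 hr.le
    have h3 := mul_lt_mul_of_pos_right hcon hv0
    rw [← sq] at h3
    linarith
  have h2 := Complex.norm_exp_sub_one_sub_id_le (x := v) (by linarith)
  have h3 : |(exp v - 1 - v).re| ≤ ‖v‖ ^ 2 := (Complex.abs_re_le_norm _).trans h2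
  have h4 : ‖v‖ ^ 2 / r ≤ v.re := by rw [div_le_iff₀ hr]; linarith
  have h5 : ‖v‖ ^ 2 * (9 / 10 / r) ≤ (exp v - 1).re := by
    have h6 := (abs_le.1 h3).1
    simp only [Complex.sub_re] at h6 ⊢
    have h7 : ‖v‖ ^ 2 * (9 / 10 / r) ≤ ‖v‖ ^ 2 / r - ‖v‖ ^ 2 := by
      have h8 : 1 ≤ 1 / 10 / r := by rw [le_div_iff₀ hr]; linarith
      have h9 : ‖v‖ ^ 2 / r = ‖v‖ ^ 2 * (9 / 10 / r) + ‖v‖ ^ 2 * (1 / 10 / r) := by
        field_simp; ring
      linarith [mul_le_mul_of_nonneg_left h8 (sq_nonneg ‖v‖)]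
    linarith
  have h6 : ‖exp v - 1‖ ≤ 11 / 10 * ‖v‖ := by
    have : exp v - 1 = (exp v - 1 - v) + v := by ring
    rw [this]
    refine (norm_add_le _ _).trans ?_
    have h7 := mul_le_mul_of_nonneg_right (h1.trans hr1) hv0.le
    rw [← sq] at h7
    linarith
  have hw : exp v - 1 ≠ 0 := by
    intro h0
    rw [h0] at h5
    have : 0 < ‖v‖ ^ 2 * (9 / 10 / r) := by positivity
    simp only [Complex.zero_re] at h5
    linarith
  have h7 : 0 < Complex.normSq (exp v - 1) := Complex.normSq_pos.2 hw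
  rw [Complex.inv_re, le_div_iff₀ h7, Complex.normSq_eq_norm_sq]
  have h8 : ‖exp v - 1‖ ^ 2 ≤ (11 / 10 * ‖v‖) ^ 2 := pow_le_pow_left₀ (norm_nonneg _) h6 2
  have h9 : 7 / 10 / r * ‖exp v - 1‖ ^ 2 ≤ 7 / 10 / r * (11 / 10 * ‖v‖) ^ 2 :=
    mul_le_mul_of_nonneg_left h8 (by positivity)
  have h10 : 7 / 10 / r * (11 / 10 * ‖v‖) ^ 2 ≤ ‖v‖ ^ 2 * (9 / 10 / r) := by
    have : 7 / 10 / r * (11 / 10 * ‖v‖) ^ 2 = ‖v‖ ^ 2 * (847 / 1000 / r) := by
      field_simp; ring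
    rw [this]
    have h11 : (847 / 1000 / r : ℝ) ≤ 9 / 10 / r := div_le_div_of_nonneg_right (by norm_num) hr.le
    exact mul_le_mul_of_nonneg_left h11 (sq_nonneg _)
  linarith

lemma re_inv_gt {u : ℂ} (hu : 1 < ‖u‖) : 0 < ((u - 1)⁻¹).re + 1 / 2 := by
  have hne : u - 1 ≠ 0 := by
    intro h
    rw [sub_eq_zero.1 h, norm_one] at hu
    exact lt_irrefl _ hu
  have h7 : 0 < Complex.normSq (u - 1) := Complex.normSq_pos.2 hne
  rw [Complex.inv_re, ← sub_neg_eq_add, sub_pos, lt_div_iff₀ h7]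
  have h1 : Complex.normSq u = ‖u‖ ^ 2 := Complex.normSq_eq_norm_sq u
  have h2 : 1 < Complex.normSq u := by rw [h1]; exact one_lt_pow₀ hu two_ne_zero
  rw [Complex.normSq_apply] at h2 ⊢
  simp only [Complex.sub_re, Complex.sub_im, Complex.one_re, Complex.one_im, sub_zero]
  linarith

end Pool.Agent.Work.MLC
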