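import Pool.Agent.Work.MLC.Occur57
import Pool.Agent.Work.MLC.Curve57

set_option autoImplicit false

/-! # Low potential over a plateau (helper34)

If the rotation number of the word `w` is the fraction `P / q` (lowest terms, `q` large) on
`[θ - l, θ + l]`, and the exterior parameter `c` has angle `θ` and potential at most
`π l / (82 n + log q)`, then the multiplier of the point with the word `w` is close to
`exp (2 π i P / q)`: maximum modulus in a rectangle over the plateau. Near the bottom the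
Pommerenke-Levin-Yoccoz inequality of parameters in the Mandelbrot set is used. -/

namespace Pool.Agent.Work.MLC

open Filter Topology Metric Set Complex

namespace LowPot

lemma ang_of_re {ζ : ℂ} (hζ : 0 < ζ.re) : Ang (cOf ζ) (ζ.im / (2 * Real.pi)) ∧
    G (cOf ζ) (cOf ζ) = ζ.re := by
  have h := ang_cOf (g := ζ.re) (θ := ζ.im / (2 * Real.pi)) hζ
  have e : ((ζ.re : ℝ) : ℂ) + 2 * Real.pi * ((ζ.im / (2 * Real.pi) : ℝ) : ℂ) * I = ζ := by
    have h5 : (Real.pi : ℂ) ≠ 0 := by exact_mod_cast Real.pi_ne_zero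
    push_cast
    have h6 : (2 : ℂ) * Real.pi * (ζ.im / (2 * Real.pi)) = ζ.im := by field_simp
    rw [h6]; exact re_add_im ζ
  rwa [e] at h

lemma eq_cOf {c : ℂ} {θ : ℝ} (h : Ang c θ) : c = cOf ((G c c : ℂ) + 2 * Real.pi * θ * I) := by
  have hre : ((G c c : ℂ) + 2 * Real.pi * θ * I).re = G c c := by simp
  symm
  refine cOf_unique ?_ ?_ h.2
  · have h1 : c ∈ Mc := h.1
    exact mem_Mc_iff.1 h1
  · rw [hre, G_zero_eq]; linarith [h.1]

/-- the point with the word `w` over `cOf ζ` -/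
noncomputable def bE (n : ℕ) (w : ℕ → ℤ) (ζ : ℂ) : ℂ :=
  Classical.epsilon fun b => ExtP n (cOf ζ) b (ζ.im / (2 * Real.pi)) w

lemma bE_spec {n : ℕ} (hn : 0 < n) {w : ℕ → ℤ} (hw : Bits n w) {ζ : ℂ} (hζ : 0 < ζ.re) :
    ExtP n (cOf ζ) (bE n w ζ) (ζ.im / (2 * Real.pi)) w :=
  Classical.epsilon_spec (exists_extP hn (ang_of_re hζ).1 hw)

lemma bE_diff {n : ℕ} (hn : 0 < n) {w : ℕ → ℤ} (hw : Bits n w) {ζ : ℂ} (hζ : 0 < ζ.re) :
    DifferentiableAt ℂ (bE n w) ζ := by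
  have h0 := bE_spec hn hw hζ
  have hne : mul n (cOf ζ, bE n w ζ) ≠ 1 := by
    intro h1
    have h2 := one_lt_norm_mult_of_ext hn h0.1 h0.2.2.1
    rw [mult_eq_mul, h1] at h2
    simp at h2
  obtain ⟨β, hβ, hβ0, hβe⟩ := chart (n := n) (x₀ := (cOf ζ, bE n w ζ)) h0.2.2.1 hne
  simp only at hβ hβ0
  have hcd : DifferentiableAt ℂ cOf ζ := differentiableOn_cOf.differentiableAt
    ((isOpen_lt continuous_const continuous_re).mem_nhds hζ)
  have hβc : ContinuousAt (fun z => β (cOf z)) ζ :=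
    ContinuousAt.comp (f := cOf) (g := β) hβ.continuousAt hcd.continuousAt
  have ht : Tendsto (fun z => ((cOf z, β (cOf z)) : ℂ × ℂ)) (𝓝 ζ) (𝓝 (cOf ζ, bE n w ζ)) := by
    have := (hcd.continuousAt.prodMk hβc).tendsto
    rwa [hβ0] at this
  have him : ∀ᶠ z : ℂ in 𝓝 ζ, |z.im / (2 * Real.pi) - ζ.im / (2 * Real.pi)| < 1 / 4 := by
    have h1 : ContinuousAt (fun z : ℂ => |z.im / (2 * Real.pi) - ζ.im / (2 * Real.pi)|) ζ := by
      fun_prop
    exact h1.eventually (gt_mem_nhds (by simp))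
  have hre : ∀ᶠ z : ℂ in 𝓝 ζ, 0 < z.re := continuous_re.continuousAt.eventually (lt_mem_nhds hζ)
  have heq : ∀ᶠ z in 𝓝 ζ, bE n w z = β (cOf z) := by
    filter_upwards [ht.eventually hβe, ht.eventually (extP_nhds hn h0 (by norm_num : (0:ℝ) < 1/4)),
      him, hre] with z h1 h2 h3 h4
    have h5 : it (cOf z) n (β (cOf z)) = β (cOf z) := h1.2 rfl
    obtain ⟨θ, hθ, hE⟩ := h2 h5
    have hE' := bE_spec hn hw h4
    obtain ⟨m, hm⟩ := hE.ang.unique hE'.ang
    have hm0 : m = 0 := by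
      have h6 : |(m : ℝ)| < 1 := by
        have h7 : (m : ℝ) = (z.im / (2 * Real.pi) - ζ.im / (2 * Real.pi)) -
            (θ - ζ.im / (2 * Real.pi)) := by rw [hm]; ring
        rw [h7]
        refine (abs_sub _ _).trans_lt ?_
        linarith
      have h8 : |m| < 1 := by exact_mod_cast h6
      exact Int.abs_lt_one_iff.1 h8
    rw [hm0] at hm
    simp only [Int.cast_zero, add_zero] at hm
    rw [hm] at hE'
    exact extP_inj hn hE' hE
  exact (DifferentiableAt.comp ζ (f := cOf) (g := β) hβ.differentiableAt hcd).congr_of_eventuallyEq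
    heq

/-- the multiplier as a function of the logarithmic coordinate of the parameter -/
noncomputable def mE (n : ℕ) (w : ℕ → ℤ) (ζ : ℂ) : ℂ := mul n (cOf ζ, bE n w ζ)

lemma mE_diff {n : ℕ} (hn : 0 < n) {w : ℕ → ℤ} (hw : Bits n w) {ζ : ℂ} (hζ : 0 < ζ.re) :
    DifferentiableAt ℂ (mE n w) ζ := by
  have h7 : DifferentiableAt ℂ (mul n) (cOf ζ, bE n w ζ) :=
    ((contDiff_mul n).differentiable (by simp)).differentiableAt
  have hcd : DifferentiableAt ℂ cOf ζ := differentiableOn_cOf.differentiableAt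
    ((isOpen_lt continuous_const continuous_re).mem_nhds hζ)
  exact DifferentiableAt.comp ζ (g := mul n) (f := fun z => ((cOf z, bE n w z) : ℂ × ℂ)) h7
    (hcd.prodMk (bE_diff hn hw hζ))

/-- the limit of the logarithms at the bottom -/
lemma log_limit {n : ℕ} (hn : 0 < n) {w : ℕ → ℤ} {P : ℤ} {q : ℕ} (hq : 0 < q)
    (hcop : IsCoprime P (q : ℤ)) {cc bb : ℕ → ℂ} {θ : ℕ → ℝ} {c₀ b₀ ℓ₀ : ℂ}
    (hE : ∀ k, ExtP n (cc k) (bb k) (θ k) w) (hν : ∀ k, Circ.nu w n (θ k) = P / q)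
    (hcb : Tendsto (fun k => ((cc k, bb k) : ℂ × ℂ)) atTop (𝓝 (c₀, b₀))) (hG : G c₀ c₀ = 0)
    (hfix : it c₀ n b₀ = b₀) (hℓ : exp ℓ₀ = mult n c₀ b₀)
    (hply : ‖ℓ₀ - 2 * Real.pi * ((P / q : ℝ) : ℂ) * I‖ ^ 2 ≤ 81 * n * ℓ₀.re) :
    ‖ℓ₀ - 2 * Real.pi * ((P / q : ℝ) : ℂ) * I‖ ≤ 11 * n / Real.sqrt q := by
  have hn' : (1 : ℝ) ≤ n := by exact_mod_cast hn
  have hq' : (0 : ℝ) < q := by exact_mod_cast hq
  have hsq : 0 < Real.sqrt q := Real.sqrt_pos.2 hq'
  have hmain : ‖ℓ₀ - 2 * Real.pi * ((P / q : ℝ) : ℂ) * I‖ ^ 2 ≤ (11 * n / Real.sqrt q) ^ 2 := by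
    rcases le_or_gt ℓ₀.re 0 with h0 | h0
    · refine hply.trans ?_
      have h1 : 81 * n * ℓ₀.re ≤ 0 := by nlinarith
      exact h1.trans (by positivity)
    · have hρ : 1 < ‖mult n c₀ b₀‖ := by
        rw [← hℓ, norm_exp]
        exact Real.one_lt_exp_iff.2 h0
      have hM : G c₀ 0 = 0 := by
        rw [G_zero_eq, hG]; simp
      obtain ⟨β, q', p, hq'', hland, -, -, hp⟩ := Tr.exists_land_rot
        (lin_of_rep57 hn ⟨hfix, hρ⟩) hM hℓ
      obtain ⟨k, hk⟩ := (hcb.eventually (land_nhds hn hM hfix hρ hland)).exists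
      have hc := (hk (hE k).2.2.1).2 (θ k) w (hE k).1 (hE k).2.1 (hE k).2.2.2.2
      have hbits := (hE k).2.2.2.1
      obtain ⟨P', hP1, -, hP2⟩ := Circ.nu_of_compat_coprime w (θ k) β n q' hq'' hbits.per hc
        (by
          obtain ⟨j, hj⟩ := hland.1.2.1
          exact ⟨j, hj⟩)
        (by
          intro j h1 h2 m hm
          exact hland.1.2.2 j h1 h2 ⟨m, hm⟩)
      have hqq : q' = q := by
        rw [hν k] at hP2
        have h1 : (q' : ℝ) ≠ 0 := by exact_mod_cast hq''.ne'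
        have h2 : (P : ℝ) * q' = P' * q := by
          field_simp at hP2
          linarith
        have h3 : P * (q' : ℤ) = P' * (q : ℤ) := by exact_mod_cast h2
        have h4 : (q : ℤ) ∣ (q' : ℤ) := by
          refine hcop.symm.dvd_of_dvd_mul_left ?_
          exact ⟨P', by linarith⟩
        have h5 : (q' : ℤ) ∣ (q : ℤ) := by
          refine hP1.symm.dvd_of_dvd_mul_left ?_
          exact ⟨P, by linarith⟩
        exact Nat.dvd_antisymm (by exact_mod_cast h5) (by exact_mod_cast h4)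
      rw [hqq] at hp
      have hlog : Real.log 2 < 0.6931471808 := Real.log_two_lt_d9
      have hlog0 : 0 < Real.log 2 := Real.log_pos (by norm_num)
      have h6 : ℓ₀.re ≤ 2 * n * Real.log 2 / q := by
        have h7 : ℓ₀.re ^ 2 ≤ ‖ℓ₀ - 2 * Real.pi * (p / q : ℂ) * I‖ ^ 2 := by
          have h8 : (ℓ₀ - 2 * Real.pi * (p / q : ℂ) * I).re = ℓ₀.re := by
            have : (2 * Real.pi * (p / q : ℂ) * I) = ((2 * Real.pi * (p / q) : ℝ) : ℂ) * I := by
              push_cast; ring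
            rw [this]; simp
          have h9 := abs_re_le_norm (ℓ₀ - 2 * Real.pi * (p / q : ℂ) * I)
          rw [h8] at h9
          rw [← sq_abs]
          exact pow_le_pow_left₀ (abs_nonneg _) h9 2
        have h10 := h7.trans hp
        rw [sq] at h10
        exact le_of_mul_le_mul_right h10 h0
      have h11 : (11 * n / Real.sqrt q) ^ 2 = 121 * n ^ 2 / q := by
        rw [div_pow, Real.sq_sqrt hq'.le]; ring
      rw [h11]
      refine hply.trans ?_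
      calc 81 * n * ℓ₀.re ≤ 81 * n * (2 * n * Real.log 2 / q) := by gcongr
        _ = (162 * Real.log 2) * n ^ 2 / q := by ring
        _ ≤ 121 * n ^ 2 / q := by
          gcongr
          linarith
  exact (sq_le_sq₀ (norm_nonneg _) (by positivity)).1 hmain

/-- near the bottom the multiplier is close to the root of unity -/
lemma bottom {n : ℕ} (hn : 0 < n) {w : ℕ → ℤ} (hw : Bits n w) {P : ℤ} {q : ℕ} (hq : 0 < q)
    (hcop : IsCoprime P (q : ℤ)) (hbig : 121 * (n : ℝ) ^ 2 ≤ q) {θ₀ l : ℝ}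
    (hpl : ∀ t, |t - θ₀| ≤ l → Circ.nu w n t = P / q) {ε : ℝ} (hε : 22 * n / Real.sqrt q < ε) :
    ∃ δ > 0, ∀ ζ : ℂ, 0 < ζ.re → ζ.re ≤ δ → |ζ.im / (2 * Real.pi) - θ₀| ≤ l →
      ‖mE n w ζ * exp (-(2 * Real.pi * ((P / q : ℝ) : ℂ) * I)) - 1‖ ≤ ε := by
  by_contra hcon
  push Not at hcon
  have hn' : (1 : ℝ) ≤ n := by exact_mod_cast hn
  have hq' : (0 : ℝ) < q := by exact_mod_cast hq
  have hsq : 0 < Real.sqrt q := Real.sqrt_pos.2 hq'
  set s : ℕ → ℝ := fun k => 1 / ((k : ℝ) + 1) with hs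
  have hspos : ∀ k, 0 < s k := fun k => by simp only [hs]; positivity
  have hs1 : ∀ k, s k ≤ 1 := fun k => by
    simp only [hs]
    rw [div_le_one (by positivity)]
    linarith [(Nat.cast_nonneg k : (0 : ℝ) ≤ k)]
  have hst : Tendsto s atTop (𝓝 0) := tendsto_one_div_add_atTop_nhds_zero_nat
  have hex : ∀ k, ∃ ζ : ℂ, 0 < ζ.re ∧ ζ.re ≤ s k ∧ |ζ.im / (2 * Real.pi) - θ₀| ≤ l ∧
      ε < ‖mE n w ζ * exp (-(2 * Real.pi * ((P / q : ℝ) : ℂ) * I)) - 1‖ := by
    intro k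
    obtain ⟨ζ, h1, h2, h3, h4⟩ := hcon (s k) (hspos k)
    exact ⟨ζ, h1, h2, h3, h4⟩
  choose ζ hζ1 hζ2 hζ3 hζ4 using hex
  set cc : ℕ → ℂ := fun k => cOf (ζ k) with hcc
  set bb : ℕ → ℂ := fun k => bE n w (ζ k) with hbb
  have hE : ∀ k, ExtP n (cc k) (bb k) ((ζ k).im / (2 * Real.pi)) w := fun k => bE_spec hn hw (hζ1 k)
  have hν : ∀ k, Circ.nu w n ((ζ k).im / (2 * Real.pi)) = P / q := fun k => hpl _ (hζ3 k)
  have hGk : ∀ k, G (cc k) (cc k) = (ζ k).re := fun k => (ang_of_re (hζ1 k)).2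
  have hply : ∀ k, ∃ ℓ : ℂ, Complex.exp ℓ = mult n (cc k) (bb k) ∧
      ‖ℓ - 2 * Real.pi * ((P / q : ℝ) : ℂ) * I‖ ^ 2 ≤ 81 * n * ℓ.re := by
    intro k
    obtain ⟨-, ℓ, h1, h2⟩ := extP_ply hn (hE k) (by rw [hGk]; linarith [hζ2 k, hs1 k])
    rw [hν k] at h2
    exact ⟨ℓ, h1, h2⟩
  choose ll hl1 hl2 using hply
  have hlb : ∀ k, ‖ll k - 2 * Real.pi * ((P / q : ℝ) : ℂ) * I‖ ≤ 81 * n := by
    intro k
    set z := ll k - 2 * Real.pi * ((P / q : ℝ) : ℂ) * I with hz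
    have h1 : (ll k).re ≤ ‖z‖ := by
      have h2 : z.re = (ll k).re := by
        have : (2 * Real.pi * ((P / q : ℝ) : ℂ) * I) = ((2 * Real.pi * (P / q) : ℝ) : ℂ) * I := by
          push_cast; ring
        rw [hz, this]; simp
      rw [← h2]
      exact (le_abs_self _).trans (abs_re_le_norm z)
    have h3 := hl2 k
    rw [← hz] at h3
    by_contra h4
    push Not at h4
    nlinarith [norm_nonneg z]
  -- compactness
  set R : ℝ := 2 * Real.exp 1 + 101 with hR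
  have hcR : ∀ k, ‖cc k‖ ≤ R := fun k => by
    have h2 := norm_le_of_G_le (c := cc k) (b := 1) (by rw [hGk]; linarith [hζ2 k, hs1 k])
    rw [hR]; linarith
  have hbR : ∀ k, ‖bb k‖ ≤ 1 + R := fun k => by
    have h2 := norm_le_of_G_zero (G_zero_of_per hn (hE k).2.2.1)
    linarith [hcR k]
  have hK : IsCompact ((closedBall (0 : ℂ) R ×ˢ closedBall (0 : ℂ) (1 + R)) ×ˢ
      closedBall (2 * Real.pi * ((P / q : ℝ) : ℂ) * I) (81 * n)) :=
    ((isCompact_closedBall _ _).prod (isCompact_closedBall _ _)).prod (isCompact_closedBall _ _)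
  obtain ⟨⟨⟨c₀, b₀⟩, ℓ₀⟩, -, φ, hφ, hφt⟩ := hK.tendsto_subseq
    (x := fun k => (((cc k, bb k), ll k) : (ℂ × ℂ) × ℂ)) fun k =>
      ⟨⟨by simpa using hcR k, by simpa using hbR k⟩, by
        rw [mem_closedBall, dist_eq_norm]; exact hlb k⟩
  have hcb : Tendsto (fun k => ((cc (φ k), bb (φ k)) : ℂ × ℂ)) atTop (𝓝 (c₀, b₀)) :=
    (continuous_fst.tendsto _).comp hφt
  have hlt : Tendsto (fun k => ll (φ k)) atTop (𝓝 ℓ₀) := (continuous_snd.tendsto _).comp hφt
  have hG0 : G c₀ c₀ = 0 := by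
    have h2 := (continuous_G_diag'.tendsto (c₀, b₀)).comp hcb
    simp only [Function.comp_def] at h2
    have h3 : Tendsto (fun k => G (cc (φ k)) (cc (φ k))) atTop (𝓝 0) := by
      refine squeeze_zero (fun k => ?_) (fun k => ?_) (hst.comp hφ.tendsto_atTop)
      · rw [hGk]; exact (hζ1 _).le
      · rw [hGk]; exact hζ2 _
    exact tendsto_nhds_unique h2 h3
  have hfix : it c₀ n b₀ = b₀ := by
    have h2 := ((continuous_it n).tendsto (c₀, b₀)).comp hcb
    simp only [Function.comp_def] at h2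
    have h3 := (continuous_snd.tendsto (c₀, b₀)).comp hcb
    simp only [Function.comp_def] at h3
    have h3 := h3.congr fun k => (hE (φ k)).2.2.1.symm
    exact tendsto_nhds_unique h2 h3
  have hmt : Tendsto (fun k => mult n (cc (φ k)) (bb (φ k))) atTop (𝓝 (mult n c₀ b₀)) := by
    have h2 := ((continuous_mult n).tendsto (c₀, b₀)).comp hcb
    exact h2
  have hℓ0 : exp ℓ₀ = mult n c₀ b₀ := by
    have h1 : Tendsto (fun k => exp (ll (φ k))) atTop (𝓝 (exp ℓ₀)) :=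
      (continuous_exp.tendsto _).comp hlt
    have h2 := h1.congr fun k => hl1 (φ k)
    exact tendsto_nhds_unique h2 hmt
  have hply0 : ‖ℓ₀ - 2 * Real.pi * ((P / q : ℝ) : ℂ) * I‖ ^ 2 ≤ 81 * n * ℓ₀.re := by
    have h1 : Tendsto (fun k => ‖ll (φ k) - 2 * Real.pi * ((P / q : ℝ) : ℂ) * I‖ ^ 2) atTop
        (𝓝 (‖ℓ₀ - 2 * Real.pi * ((P / q : ℝ) : ℂ) * I‖ ^ 2)) := ((hlt.sub_const _).norm).pow 2
    have h2 : Tendsto (fun k => 81 * (n : ℝ) * (ll (φ k)).re) atTop (𝓝 (81 * n * ℓ₀.re)) :=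
      ((continuous_re.tendsto _).comp hlt).const_mul _
    exact le_of_tendsto_of_tendsto' h1 h2 fun k => hl2 (φ k)
  have hz := log_limit hn hq hcop (fun k => hE (φ k)) (fun k => hν (φ k)) hcb hG0 hfix hℓ0 hply0
  set z : ℂ := ℓ₀ - 2 * Real.pi * ((P / q : ℝ) : ℂ) * I with hzdef
  have hz1 : ‖z‖ ≤ 1 := by
    refine hz.trans ?_
    rw [div_le_one hsq]
    refine Real.le_sqrt_of_sq_le ?_
    nlinarith
  have hlim : ‖mult n c₀ b₀ * exp (-(2 * Real.pi * ((P / q : ℝ) : ℂ) * I)) - 1‖ ≤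
      22 * n / Real.sqrt q := by
    rw [← hℓ0, ← Complex.exp_add, ← sub_eq_add_neg, ← hzdef]
    refine (Complex.norm_exp_sub_one_le hz1).trans ?_
    have : 2 * (11 * n / Real.sqrt q) = 22 * n / Real.sqrt q := by ring
    linarith
  have hge : ε ≤ ‖mult n c₀ b₀ * exp (-(2 * Real.pi * ((P / q : ℝ) : ℂ) * I)) - 1‖ := by
    have h1 : Tendsto (fun k => ‖mult n (cc (φ k)) (bb (φ k)) *
        exp (-(2 * Real.pi * ((P / q : ℝ) : ℂ) * I)) - 1‖) atTop
        (𝓝 ‖mult n c₀ b₀ * exp (-(2 * Real.pi * ((P / q : ℝ) : ℂ) * I)) - 1‖) :=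
      ((hmt.mul_const _).sub_const _).norm
    exact ge_of_tendsto' h1 fun k => (hζ4 (φ k)).le
  linarith

/-- the bound in the whole half strip over the plateau -/
lemma mE_le {n : ℕ} (hn : 0 < n) {w : ℕ → ℤ} (hw : Bits n w) {r : ℝ} {ζ : ℂ} (hζ : 0 < ζ.re)
    (hζ4 : ζ.re ≤ 4) (hν : Circ.nu w n (ζ.im / (2 * Real.pi)) = r) :
    ‖mE n w ζ * exp (-(2 * Real.pi * (r : ℂ) * I)) - 1‖ ≤ Real.exp (81 * n) + 1 := by
  obtain ⟨-, ℓ, h1, h2⟩ := extP_ply hn (bE_spec hn hw hζ) (by rw [(ang_of_re hζ).2]; exact hζ4)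
  rw [hν] at h2
  set z := ℓ - 2 * Real.pi * (r : ℂ) * I with hz
  have h3 : z.re = ℓ.re := by
    have : (2 * Real.pi * (r : ℂ) * I) = ((2 * Real.pi * r : ℝ) : ℂ) * I := by push_cast; ring
    rw [hz, this]; simp
  have h4 : ℓ.re ≤ ‖z‖ := by
    rw [← h3]; exact (le_abs_self _).trans (abs_re_le_norm z)
  have h5 : ℓ.re ≤ 81 * n := by
    by_contra h6
    push Not at h6
    nlinarith [norm_nonneg z]
  have h6 : ‖mE n w ζ * exp (-(2 * Real.pi * (r : ℂ) * I))‖ = Real.exp ℓ.re := by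
    have h7 : mE n w ζ = exp ℓ := h1.symm
    rw [h7, ← Complex.exp_add, ← sub_eq_add_neg, ← hz, norm_exp, h3]
  calc _ ≤ ‖mE n w ζ * exp (-(2 * Real.pi * (r : ℂ) * I))‖ + ‖(1 : ℂ)‖ := norm_sub_le _ _
    _ ≤ Real.exp (81 * n) + 1 := by
      rw [h6, norm_one]
      linarith [Real.exp_le_exp.2 h5]

/-- maximum modulus in the rectangle over the plateau -/
lemma rect {n : ℕ} (hn : 0 < n) {w : ℕ → ℤ} (hw : Bits n w) {P : ℤ} {q : ℕ} (hq : 0 < q)
    (hcop : IsCoprime P (q : ℤ)) (hbig : 121 * (n : ℝ) ^ 2 ≤ q) {θ₀ l : ℝ} (hl : 0 < l)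
    (hl1 : l ≤ 1 / 2) (hpl : ∀ t, |t - θ₀| ≤ l → Circ.nu w n t = P / q) {ε Λ : ℝ}
    (hε : 22 * n / Real.sqrt q < ε) (hΛ0 : 0 ≤ Λ) (hΛ : Real.exp (81 * n) + 1 ≤ ε * Real.exp Λ)
    {x : ℝ} (hx : 0 < x) (hx1 : x * Λ ≤ Real.pi * l) (hx2 : x < 2 * Real.pi * l) :
    ‖mE n w ((x : ℂ) + 2 * Real.pi * θ₀ * I) * exp (-(2 * Real.pi * ((P / q : ℝ) : ℂ) * I)) - 1‖ ≤
      ε * Real.exp 1 := by
  have hpi := Real.pi_pos
  have hpi4 := Real.pi_le_four
  obtain ⟨δ, hδ, hbot⟩ := bottom hn hw hq hcop hbig hpl hε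
  set r : ℝ := 2 * Real.pi * l with hr
  have hr0 : 0 < r := by positivity
  set δ₁ : ℝ := min δ (x / 2) with hδ₁
  have hδ₁0 : 0 < δ₁ := lt_min hδ (by linarith)
  have hδ₁x : δ₁ < x := lt_of_le_of_lt (min_le_right _ _) (by linarith)
  have hε0 : 0 < ε := lt_of_le_of_lt (by positivity) hε
  set e : ℂ := exp (-(2 * Real.pi * ((P / q : ℝ) : ℂ) * I)) with he
  set z₀ : ℂ := 2 * Real.pi * θ₀ * I with hz₀
  have hz₀re : z₀.re = 0 := by simp [hz₀]
  have hz₀im : z₀.im = 2 * Real.pi * θ₀ := by simp [hz₀]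
  set g : ℂ → ℂ := fun ζ => (mE n w ζ * e - 1) *
    exp (-(Λ / r ^ 2 : ℝ) * (2 * r * (ζ - z₀) - (ζ - z₀) ^ 2)) with hg
  set U : Set ℂ := {ζ : ℂ | δ₁ < ζ.re ∧ ζ.re < r ∧ |ζ.im - 2 * Real.pi * θ₀| < r} with hU
  have hUo : IsOpen U := by
    refine (isOpen_lt continuous_const continuous_re).inter
      ((isOpen_lt continuous_re continuous_const).inter
        (isOpen_lt ((continuous_im.sub continuous_const).abs) continuous_const))
  have hclos : closure U ⊆ {ζ : ℂ | δ₁ ≤ ζ.re ∧ ζ.re ≤ r ∧ |ζ.im - 2 * Real.pi * θ₀| ≤ r} := by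
    refine closure_minimal (fun ζ hζ => ⟨hζ.1.le, hζ.2.1.le, hζ.2.2.le⟩) ?_
    exact (isClosed_le continuous_const continuous_re).inter
      ((isClosed_le continuous_re continuous_const).inter
        (isClosed_le ((continuous_im.sub continuous_const).abs) continuous_const))
  have hUb : Bornology.IsBounded U := by
    refine (isBounded_iff_forall_norm_le).2 ⟨r + (2 * Real.pi * |θ₀| + r), fun ζ hζ => ?_⟩
    refine (norm_le_abs_re_add_abs_im ζ).trans (add_le_add ?_ ?_)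
    · rw [abs_of_pos (hδ₁0.trans hζ.1)]; exact hζ.2.1.le
    · have h1 : |ζ.im| ≤ |ζ.im - 2 * Real.pi * θ₀| + |2 * Real.pi * θ₀| := by
        have := abs_add_le (ζ.im - 2 * Real.pi * θ₀) (2 * Real.pi * θ₀)
        simpa using this
      have h2 : |2 * Real.pi * θ₀| = 2 * Real.pi * |θ₀| := by
        rw [abs_mul, abs_of_pos (by positivity)]
      have h3 := hζ.2.2
      linarith
  have hdiff : ∀ ζ : ℂ, 0 < ζ.re → DifferentiableAt ℂ g ζ := by
    intro ζ hζ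
    have h1 := mE_diff hn hw hζ
    exact ((h1.mul_const e).sub_const 1).mul (by fun_prop)
  have hd : DiffContOnCl ℂ g U := by
    refine ⟨fun ζ hζ => (hdiff ζ (hδ₁0.trans hζ.1)).differentiableWithinAt, fun ζ hζ => ?_⟩
    exact (hdiff ζ (lt_of_lt_of_le hδ₁0 (hclos hζ).1)).continuousAt.continuousWithinAt
  have hnorm : ∀ ζ : ℂ, ‖exp (-(Λ / r ^ 2 : ℝ) * (2 * r * (ζ - z₀) - (ζ - z₀) ^ 2))‖ =
      Real.exp (-(Λ / r ^ 2) * (2 * r * ζ.re - ζ.re ^ 2 + (ζ.im - 2 * Real.pi * θ₀) ^ 2)) := by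
    intro ζ
    rw [norm_exp]
    congr 1
    have h1 : (ζ - z₀).re = ζ.re := by rw [sub_re, hz₀re, sub_zero]
    have h2 : (ζ - z₀).im = ζ.im - 2 * Real.pi * θ₀ := by rw [sub_im, hz₀im]
    have h3 : (-(Λ / r ^ 2 : ℝ) * (2 * r * (ζ - z₀) - (ζ - z₀) ^ 2) : ℂ) =
        ((-(Λ / r ^ 2) : ℝ) : ℂ) * (((2 * r : ℝ) : ℂ) * (ζ - z₀) - (ζ - z₀) ^ 2) := by
      push_cast; ring
    have h4 : ((ζ - z₀) ^ 2).re = ζ.re ^ 2 - (ζ.im - 2 * Real.pi * θ₀) ^ 2 := by
      rw [pow_two (ζ - z₀), mul_re, h1, h2]; ring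
    rw [h3, re_ofReal_mul, sub_re, re_ofReal_mul, h4, h1]
    ring
  have hfr : ∀ ζ ∈ frontier U, ‖g ζ‖ ≤ ε := by
    intro ζ hζ
    have h1 := hclos (frontier_subset_closure hζ)
    have h2 : ζ ∉ U := by
      rw [hUo.frontier_eq] at hζ
      exact hζ.2
    have hre : 0 < ζ.re := lt_of_lt_of_le hδ₁0 h1.1
    have hang : |ζ.im / (2 * Real.pi) - θ₀| ≤ l := by
      have h3 : ζ.im / (2 * Real.pi) - θ₀ = (ζ.im - 2 * Real.pi * θ₀) / (2 * Real.pi) := by
        field_simp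
      rw [h3, abs_div, abs_of_pos (by positivity : (0 : ℝ) < 2 * Real.pi), div_le_iff₀ (by positivity)]
      have := h1.2.2
      rw [hr] at this
      linarith
    have hA : ‖g ζ‖ = ‖mE n w ζ * e - 1‖ *
        Real.exp (-(Λ / r ^ 2) * (2 * r * ζ.re - ζ.re ^ 2 + (ζ.im - 2 * Real.pi * θ₀) ^ 2)) := by
      rw [hg]
      simp only
      rw [norm_mul, hnorm]
    have hbase : 0 ≤ 2 * r * ζ.re - ζ.re ^ 2 := by nlinarith [h1.2.1]
    rw [hA]
    by_cases hlow : ζ.re ≤ δ₁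
    · have h3 := hbot ζ hre (hlow.trans (min_le_left _ _)) hang
      have h4 : Real.exp (-(Λ / r ^ 2) * (2 * r * ζ.re - ζ.re ^ 2 +
          (ζ.im - 2 * Real.pi * θ₀) ^ 2)) ≤ 1 := by
        rw [Real.exp_le_one_iff]
        have h5 : 0 ≤ Λ / r ^ 2 := by positivity
        have h6 : 0 ≤ 2 * r * ζ.re - ζ.re ^ 2 + (ζ.im - 2 * Real.pi * θ₀) ^ 2 := by positivity
        nlinarith [mul_nonneg h5 h6]
      calc _ ≤ ε * 1 := mul_le_mul h3 h4 (Real.exp_pos _).le hε0.le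
        _ = ε := mul_one _
    · push Not at hlow
      have hs : r ^ 2 ≤ 2 * r * ζ.re - ζ.re ^ 2 + (ζ.im - 2 * Real.pi * θ₀) ^ 2 := by
        by_cases hre2 : ζ.re < r
        · have h3 : r ≤ |ζ.im - 2 * Real.pi * θ₀| := by
            by_contra h4
            push Not at h4
            exact h2 ⟨hlow, hre2, h4⟩
          have h4 : r ^ 2 ≤ (ζ.im - 2 * Real.pi * θ₀) ^ 2 := by
            rw [← sq_abs (ζ.im - 2 * Real.pi * θ₀)]
            exact pow_le_pow_left₀ hr0.le h3 2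
          linarith
        · push Not at hre2
          have h3 : ζ.re = r := le_antisymm h1.2.1 hre2
          rw [h3]
          nlinarith [sq_nonneg (ζ.im - 2 * Real.pi * θ₀)]
      have h4 : Real.exp (-(Λ / r ^ 2) * (2 * r * ζ.re - ζ.re ^ 2 +
          (ζ.im - 2 * Real.pi * θ₀) ^ 2)) ≤ Real.exp (-Λ) := by
        rw [Real.exp_le_exp]
        have h5 : 0 ≤ Λ / r ^ 2 := by positivity
        have h6 : Λ / r ^ 2 * r ^ 2 = Λ := by field_simp
        nlinarith [mul_le_mul_of_nonneg_left hs h5]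
      have h7 := mE_le hn hw (r := (P / q : ℝ)) hre (by
        refine h1.2.1.trans ?_
        rw [hr]; nlinarith) (hpl _ hang)
      have h8 : ‖mE n w ζ * e - 1‖ ≤ ε * Real.exp Λ := h7.trans hΛ
      calc _ ≤ ε * Real.exp Λ * Real.exp (-Λ) :=
            mul_le_mul h8 h4 (Real.exp_pos _).le (by positivity)
        _ = ε := by rw [mul_assoc, ← Real.exp_add]; simp
  set ζ : ℂ := (x : ℂ) + 2 * Real.pi * θ₀ * I with hζ
  have hζre : ζ.re = x := by simp [hζ]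
  have hζim : ζ.im = 2 * Real.pi * θ₀ := by simp [hζ]
  have hζU : ζ ∈ U := by
    refine ⟨by rw [hζre]; exact hδ₁x, by rw [hζre]; exact hx2, ?_⟩
    rw [hζim, sub_self, abs_zero]; exact hr0
  have hmax := Complex.norm_le_of_forall_mem_frontier_norm_le hUb hd hfr (subset_closure hζU)
  have hA : ‖g ζ‖ = ‖mE n w ζ * e - 1‖ * Real.exp (-(Λ / r ^ 2) * (2 * r * x - x ^ 2)) := by
    rw [hg]
    simp only
    rw [norm_mul, hnorm, hζre, hζim, sub_self]
    simp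
  rw [hA] at hmax
  have h9 : Real.exp (-1) ≤ Real.exp (-(Λ / r ^ 2) * (2 * r * x - x ^ 2)) := by
    rw [Real.exp_le_exp]
    have h10 : Λ / r ^ 2 * (2 * r * x - x ^ 2) ≤ 1 := by
      have h11 : Λ / r ^ 2 * (2 * r * x - x ^ 2) ≤ Λ / r ^ 2 * (2 * r * x) := by
        have : 0 ≤ Λ / r ^ 2 := by positivity
        nlinarith [sq_nonneg x]
      have h12 : Λ / r ^ 2 * (2 * r * x) = 2 * (x * Λ) / r := by field_simp
      rw [h12] at h11
      refine h11.trans ?_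
      rw [div_le_one hr0, hr]
      linarith
    linarith
  have h13 : ‖mE n w ζ * e - 1‖ * Real.exp (-1) ≤ ε :=
    (mul_le_mul_of_nonneg_left h9 (norm_nonneg _)).trans hmax
  rw [Real.exp_neg, ← div_eq_mul_inv, div_le_iff₀ (Real.exp_pos _)] at h13
  exact h13

end LowPot

/-- **Low potential over a plateau.** -/
theorem low_pot {n : ℕ} (hn : 0 < n) {w : ℕ → ℤ} {P : ℤ} {q : ℕ} (hq : 0 < q)
    (hcop : IsCoprime P (q : ℤ)) (hbig : 121 * (n : ℝ) ^ 2 ≤ q) {θ l : ℝ} (hl : 0 < l)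
    (hl1 : l ≤ 1 / 2) (hpl : ∀ t, |t - θ| ≤ l → Circ.nu w n t = P / q) {c b : ℂ}
    (h : ExtP n c b θ w) (hG : G c c * (82 * n + Real.log q) ≤ Real.pi * l) :
    ‖mult n c b * exp (-(2 * Real.pi * ((P / q : ℝ) : ℂ) * I)) - 1‖ ≤ 60 * n / Real.sqrt q := by
  have hw := h.2.2.2.1
  have hn' : (1 : ℝ) ≤ n := by exact_mod_cast hn
  have hq' : (0 : ℝ) < q := by exact_mod_cast hq
  have hq1 : (1 : ℝ) ≤ q := by exact_mod_cast hq
  have hsq : 0 < Real.sqrt q := Real.sqrt_pos.2 hq'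
  have hpi := Real.pi_pos
  have hlogq : 0 ≤ Real.log q := Real.log_nonneg hq1
  have hGpos := h.1
  set Λ : ℝ := 82 * n + Real.log q with hΛ
  have hΛ0 : 0 ≤ Λ := by positivity
  have hE1 : Real.exp 1 < 2.7182818286 := Real.exp_one_lt_d9
  set ε : ℝ := 60 * n / Real.sqrt q / Real.exp 1 with hε
  have hεb : 22 * n / Real.sqrt q < ε := by
    rw [hε, lt_div_iff₀ (Real.exp_pos _), div_mul_eq_mul_div]
    refine div_lt_div_of_pos_right ?_ hsq
    nlinarith
  have hexp : Real.exp (81 * n) + 1 ≤ ε * Real.exp Λ := by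
    have h1 : Real.exp Λ = Real.exp (81 * n) * Real.exp n * q := by
      rw [hΛ, show (82 : ℝ) * n + Real.log q = 81 * n + n + Real.log q by ring, Real.exp_add,
        Real.exp_add, Real.exp_log hq']
    have h2 : (1 : ℝ) ≤ Real.exp (81 * n) := Real.one_le_exp (by positivity)
    have h3 : (1 : ℝ) ≤ Real.exp n := Real.one_le_exp (by positivity)
    have h4 : 2 ≤ ε * q := by
      have h5 : ε * q = 60 * n * Real.sqrt q / Real.exp 1 := by
        rw [hε]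
        field_simp
        rw [Real.sq_sqrt hq'.le]
      rw [h5, le_div_iff₀ (Real.exp_pos _)]
      have h6 : (1 : ℝ) ≤ Real.sqrt q := by
        rw [Real.one_le_sqrt]; exact hq1
      nlinarith
    rw [h1]
    have h7 : ε * (Real.exp (81 * n) * Real.exp n * q) =
        (ε * q) * (Real.exp (81 * n) * Real.exp n) := by ring
    rw [h7]
    have h8 : Real.exp (81 * n) ≤ Real.exp (81 * n) * Real.exp n := by nlinarith
    nlinarith
  have hx2 : G c c < 2 * Real.pi * l := by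
    have h1 : G c c * 82 ≤ G c c * Λ := by
      refine mul_le_mul_of_nonneg_left ?_ hGpos.le
      rw [hΛ]; linarith
    nlinarith
  have hmain := LowPot.rect hn hw hq hcop hbig hl hl1 hpl hεb hΛ0 hexp hGpos hG hx2
  have hcc := LowPot.eq_cOf h.ang
  have hb : LowPot.bE n w ((G c c : ℂ) + 2 * Real.pi * θ * I) = b := by
    have hre : 0 < ((G c c : ℂ) + 2 * Real.pi * θ * I).re := by simpa using hGpos
    have h1 := LowPot.bE_spec hn hw hre
    rw [← hcc] at h1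
    have h2 : ((G c c : ℂ) + 2 * Real.pi * θ * I).im / (2 * Real.pi) = θ := by
      simp
    rw [h2] at h1
    exact extP_inj hn h1 h
  have hm : LowPot.mE n w ((G c c : ℂ) + 2 * Real.pi * θ * I) = mult n c b := by
    rw [LowPot.mE, hb, ← hcc]; rfl
  rw [hm] at hmain
  refine hmain.trans (le_of_eq ?_)
  rw [hε]
  field_simp

end Pool.Agent.Work.MLC
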