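import Pool.Agent.Work.MLC.RotX13
import Pool.Agent.Work.MLC.MidRay59
import Pool.Agent.Work.MLC.LowA13

set_option autoImplicit false

/-! # The mid ray of a rational plateau: the exact limb disc, mild hypothesis (helper13)

Everything is deduced from the statement `ExExact n x`: the limb disc inequality with the
combinatorial rotation number `x`. -/

namespace Pool.Agent.Work.MLC

open Filter Topology Metric Set Complex Pool.Agent.Work.MLC.Sat

/-- the limb disc inequality with the combinatorial rotation number -/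
def ExExact (n : ℕ) (x : ℚ) : Prop := ∀ c b L : ℂ, c ∈ MM → (c, b) ∈ Per n →
  mul n (c, b) = exp L → 0 < L.re → Ex n x c b → ∃ j : ℤ,
    ‖L - axisPt x - 2 * Real.pi * j * I‖ ^ 2 ≤ 2 * n * Real.log 2 / x.den * L.re

/-- a limit of exterior pairs with `nu = x + k` and potential tending to `0`: the multiplier is
`exp (2 π i x)` or it is in the PLY disc of `x` -/
theorem bottom_of {n : ℕ} (hn : 0 < n) {x : ℚ} (hx0 : 0 < x) (hx1 : x < 1)
    (hQ : 400 * (n : ℝ) ^ 2 ≤ x.den) (hEx : ExExact n x) {k : ℤ}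
    {y : ℕ → ℂ × ℂ} {θ : ℕ → ℝ} {w : ℕ → ℤ} (hE : ∀ j, ExtP n (y j).1 (y j).2 (θ j) w)
    (hν : ∀ j, Circ.nu w n (θ j) = x + k) {y₀ : ℂ × ℂ} (hy : Tendsto y atTop (𝓝 y₀))
    (hG : Tendsto (fun j => G (y j).1 (y j).1) atTop (𝓝 0)) :
    (mul n y₀ = exp (axisPt x)) ∨
      ∃ v : ℂ, v ≠ 0 ∧ mul n y₀ = exp (v + axisPt x) ∧
        ‖v‖ ^ 2 ≤ 2 * n * Real.log 2 / x.den * v.re := by
  obtain ⟨c₀, b₀⟩ := y₀
  have hn1 : (1 : ℝ) ≤ n := by exact_mod_cast hn
  have hn0 : (0 : ℝ) < n := by linarith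
  have hq0 : (0 : ℝ) < x.den := by exact_mod_cast x.pos
  -- the limit pair
  have hper : (c₀, b₀) ∈ Per n := (isClosed_Per n).mem_of_tendsto hy
    (Eventually.of_forall fun j => (hE j).2.2.1)
  have hG0 : G c₀ c₀ = 0 := tendsto_nhds_unique ((continuous_G_diag'.tendsto (c₀, b₀)).comp hy) hG
  have hM : c₀ ∈ MM := mem_M_iff'.2 hG0
  have hM0 : G c₀ 0 = 0 := mem_M_iff.1 hM
  have hmt : Tendsto (fun j => mul n (y j)) atTop (𝓝 (mul n (c₀, b₀))) :=
    ((continuous_mul' n).tendsto _).comp hy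
  have h1j : ∀ j, 1 < ‖mul n (y j)‖ := fun j =>
    one_lt_norm_mult_of_ext hn (hE j).1 (hE j).2.2.1
  have h1 : 1 ≤ ‖mul n (c₀, b₀)‖ := ge_of_tendsto' hmt.norm fun j => (h1j j).le
  have hm0 : mul n (c₀, b₀) ≠ 0 := by
    intro h
    rw [h, norm_zero] at h1
    linarith
  rcases h1.eq_or_lt with h | h
  · -- neutral
    left
    set S : Set ℂ := {v | ‖v‖ ≤ 1 ∧ ‖v‖ ^ 2 ≤ 81 * n * v.re} with hS
    have hSc : IsCompact S := by
      refine (isCompact_closedBall (0 : ℂ) 1).of_isClosed_subset ?_ fun v hv => by simpa using hv.1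
      have h2 : IsClosed {v : ℂ | ‖v‖ ≤ 1} := isClosed_le (by fun_prop) (by fun_prop)
      have h3 : IsClosed {v : ℂ | ‖v‖ ^ 2 ≤ 81 * n * v.re} := isClosed_le (by fun_prop) (by fun_prop)
      exact h2.inter h3
    have hS2 : IsClosed ((fun v => exp (v + axisPt x)) '' S) :=
      (hSc.image (by fun_prop)).isClosed
    have hlogt : Tendsto (fun j => Real.log ‖mul n (y j)‖) atTop (𝓝 0) := by
      have h2 := (Real.continuousAt_log (by linarith : ‖mul n (c₀, b₀)‖ ≠ 0)).tendsto.comp hmt.norm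
      rw [← h, Real.log_one] at h2
      exact h2
    have hev1 : ∀ᶠ j in atTop, Real.log ‖mul n (y j)‖ < 1 / (81 * n) :=
      hlogt.eventually (gt_mem_nhds (by positivity))
    have hev2 : ∀ᶠ j in atTop, G (y j).1 (y j).1 ≤ 4 :=
      (hG.eventually (gt_mem_nhds (by norm_num : (0 : ℝ) < 4))).mono fun _ h => h.le
    have hmem : mul n (c₀, b₀) ∈ (fun v => exp (v + axisPt x)) '' S := by
      refine hS2.mem_of_tendsto hmt ?_
      filter_upwards [hev1, hev2] with j a1 a2
      obtain ⟨-, ℓ, hℓ, hply⟩ := extP_ply hn (hE j) a2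
      have hre : ℓ.re = Real.log ‖mul n (y j)‖ := by
        have : mul n (y j) = exp ℓ := hℓ.symm
        rw [this, norm_exp, Real.log_exp]
      rw [hν j] at hply
      refine ⟨ℓ - 2 * Real.pi * ((x + k : ℝ) : ℂ) * I, ⟨?_, ?_⟩, ?_⟩
      · apply le_of_sq_le_sq _ (by norm_num)
        refine hply.trans ?_
        rw [hre]
        have h3 : 81 * (n : ℝ) * Real.log ‖mul n (y j)‖ ≤ 81 * n * (1 / (81 * n)) := by gcongr
        have h4 : 81 * (n : ℝ) * (1 / (81 * n)) = 1 := by field_simp
        rw [one_pow]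
        linarith
      · have : (ℓ - 2 * Real.pi * ((x + k : ℝ) : ℂ) * I).re = ℓ.re := by simp
        rw [this]; exact hply
      · show exp (ℓ - 2 * Real.pi * ((x + k : ℝ) : ℂ) * I + axisPt x) = mul n (y j)
        have e : ℓ - 2 * Real.pi * ((x + k : ℝ) : ℂ) * I + axisPt x
            = ℓ - ((k : ℤ) : ℂ) * (2 * Real.pi * I) := by unfold axisPt; push_cast; ring
        rw [e, exp_sub, Complex.exp_int_mul_two_pi_mul_I, div_one]
        exact hℓ
    obtain ⟨v, ⟨-, hv2⟩, hv3⟩ := hmem
    have hv3' : mul n (c₀, b₀) = exp (v + axisPt x) := hv3.symm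
    have hvre : v.re = 0 := by
      have h2 : ‖mul n (c₀, b₀)‖ = Real.exp v.re := by
        rw [hv3', norm_exp, Complex.add_re, axisPt_re13, add_zero]
      rw [← h] at h2
      exact Real.exp_eq_one_iff _ |>.1 h2.symm
    rw [hvre, mul_zero] at hv2
    have hv0 : v = 0 := by
      have h2 : ‖v‖ ^ 2 = 0 := le_antisymm hv2 (by positivity)
      have h3 : ‖v‖ = 0 := by simpa using h2
      exact norm_eq_zero.1 h3
    rw [hv3', hv0, zero_add]
  · -- repelling
    right
    have hre : 0 < (Complex.log (mul n (c₀, b₀))).re := by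
      rw [Complex.log_re]; exact Real.log_pos h
    have hex : Ex n x c₀ b₀ := by
      refine ex_of_ext hn hM0 hper h ?_
      refine hy.frequently (Eventually.frequently (Eventually.of_forall fun j => ?_))
      exact ⟨(hE j).2.2.1, θ j, w, hE j, k, hν j⟩
    obtain ⟨j, hj⟩ := hEx c₀ b₀ _ hM hper (Complex.exp_log hm0).symm hre hex
    set L : ℂ := Complex.log (mul n (c₀, b₀)) with hL
    have hvre : (L - axisPt x - 2 * Real.pi * j * I).re = L.re := by
      rw [Complex.sub_re, Complex.sub_re, axisPt_re13]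
      simp
    refine ⟨L - axisPt x - 2 * Real.pi * j * I, ?_, ?_, ?_⟩
    · intro h0
      rw [h0, Complex.zero_re] at hvre
      linarith
    · have e : L - axisPt x - 2 * Real.pi * j * I + axisPt x = L - (j : ℂ) * (2 * Real.pi * I) := by
        ring
      rw [e, exp_sub, Complex.exp_int_mul_two_pi_mul_I, div_one, hL, Complex.exp_log hm0]
    · rw [hvre]; exact hj

/-- **LOW** from the exact limb disc inequality -/
theorem low_of {n : ℕ} (hn : 0 < n) {x : ℚ} (hx0 : 0 < x) (hx1 : x < 1)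
    (hQ : 400 * (n : ℝ) ^ 2 ≤ x.den) (hEx : ExExact n x) {k : ℤ}
    {w : ℕ → ℤ} (hw : Bits n w) {tm tp : ℝ} (hlt : tm < tp) (htp : tp ≤ tm + 1)
    (hν : ∀ θ, tm < θ → θ < tp → Circ.nu w n θ = x + k) {c b : ℂ} {θ : ℝ}
    (hE : ExtP n c b θ w) (hθ : |θ - (tm + tp) / 2| ≤ (tp - tm) / 4)
    (hG : G c c ≤ (tp - tm) / 5) :
    ∃ ℓ : ℂ, exp ℓ = mul n (c, b) ∧ 0 < ℓ.re ∧ ‖ℓ - axisPt x‖ ≤ 7 * n / x.den := by
  have hn1 : (1 : ℝ) ≤ n := by exact_mod_cast hn
  have hn0 : (0 : ℝ) < n := by linarith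
  have hlog : Real.log 2 < 0.7 := by linarith [Real.log_two_lt_d9]
  have hlog0 : 0 < Real.log 2 := Real.log_pos (by norm_num)
  have hx0' : (0 : ℝ) < x := by exact_mod_cast hx0
  have hx1' : (x : ℝ) < 1 := by exact_mod_cast hx1
  have hq0 : (0 : ℝ) < x.den := by exact_mod_cast x.pos
  have hpi := Real.pi_gt_three
  set r : ℝ := 2 * n * Real.log 2 / x.den with hr
  have hr0 : 0 < r := by rw [hr]; positivity
  have hr1 : r ≤ 1 / 100 := by
    have hn4 : (n : ℝ) ≤ n ^ 2 := by
      calc (n : ℝ) = n ^ 1 := (pow_one _).symm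
        _ ≤ n ^ 2 := pow_le_pow_right₀ hn1 (by norm_num)
    rw [hr, div_le_iff₀ hq0]
    linarith [mul_le_mul_of_nonneg_left hlog.le hn0.le]
  set T : ℝ := 7 / 10 / r with hT
  have hT0 : 0 < T := by rw [hT]; positivity
  set W : ℝ := 2 * Real.pi * (tp - tm) with hW
  have hW0 : 0 < W := by rw [hW]; have := sub_pos.2 hlt; positivity
  set y0 : ℝ := 2 * Real.pi * tm with hy0
  set e0 : ℂ := exp (-axisPt x) with he0
  have he0n : ‖e0‖ = 1 := by rw [he0, norm_exp, Complex.neg_re, axisPt_re13]; simp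
  -- the rectangle
  set U : Set ℂ := Ioo 0 W ×ℂ Ioo y0 (y0 + W) with hU
  have hUo : IsOpen U := isOpen_Ioo.reProdIm isOpen_Ioo
  have hUb : Bornology.IsBounded U := (Metric.isBounded_Ioo _ _).reProdIm (Metric.isBounded_Ioo _ _)
  have hUm : ∀ z, z ∈ U ↔ (0 < z.re ∧ z.re < W) ∧ (y0 < z.im ∧ z.im < y0 + W) := fun z => by
    rw [hU, Complex.mem_reProdIm, mem_Ioo, mem_Ioo]
  have hUre : ∀ z ∈ U, 0 < z.re := fun z hz => ((hUm z).1 hz).1.1
  have hUν : ∀ z ∈ U, Circ.nu w n (z.im / (2 * Real.pi)) = x + k := fun z hz => by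
    obtain ⟨-, h1, h2⟩ := (hUm z).1 hz
    refine hν _ ?_ ?_
    · rw [lt_div_iff₀ (by positivity)]; rw [hy0] at h1; linarith
    · rw [div_lt_iff₀ (by positivity)]; rw [hy0, hW] at h2; linarith
  obtain ⟨C, hC⟩ := rw_bound hn hw W
  have hUC : ∀ z ∈ U, ‖rw' n w z‖ ≤ C := fun z hz =>
    (hC z (hUre z hz) ((hUm z).1 hz).1.2.le).1
  set u : ℂ → ℂ := fun z => rw' n w z * e0 with hu
  have hu1 : ∀ z, 0 < z.re → 1 < ‖u z‖ := fun z hz => by
    rw [hu]; simp only [norm_mul, he0n, mul_one]; exact one_lt_rw hn hw hz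
  have hune : ∀ z, 0 < z.re → u z - 1 ≠ 0 := fun z hz h => by
    have := hu1 z hz
    rw [sub_eq_zero.1 h, norm_one] at this
    exact lt_irrefl _ this
  have huC : ∀ z ∈ U, ‖u z - 1‖ ≤ C + 1 := fun z hz => by
    refine (norm_sub_le _ _).trans ?_
    rw [norm_one, hu]; simp only [norm_mul, he0n, mul_one]
    linarith [hUC z hz]
  have hud : ∀ z, 0 < z.re → DifferentiableAt ℂ u z := fun z hz =>
    (differentiableAt_rw hn hw hz).mul_const _
  -- the comparison function
  set κ : ℂ := -(Real.pi / W : ℝ) with hκ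
  set H : ℂ → ℂ := fun z => I * exp (κ * (z - y0 * I)) - (Real.exp (-Real.pi) : ℝ) with hH
  have hHre : ∀ z : ℂ, (H z).re = Real.exp (-(Real.pi / W) * z.re)
      * Real.sin (Real.pi / W * (z.im - y0)) - Real.exp (-Real.pi) := by
    intro z
    have h1 : (κ * (z - y0 * I)).re = -(Real.pi / W) * z.re := by rw [hκ]; simp
    have h2 : (κ * (z - y0 * I)).im = -(Real.pi / W * (z.im - y0)) := by rw [hκ]; simp
    have h3 : H z = I * exp (κ * (z - y0 * I)) - (Real.exp (-Real.pi) : ℝ) := rfl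
    rw [h3, Complex.sub_re, Complex.ofReal_re, Complex.mul_re, Complex.I_re, Complex.I_im,
      Complex.exp_im, h1, h2, Real.sin_neg]
    ring
  have hHc : Continuous fun z : ℂ => (H z).re := by
    simp only [hHre]; fun_prop
  have hH1 : ∀ z : ℂ, 0 ≤ z.re → (H z).re ≤ 1 - Real.exp (-Real.pi) := by
    intro z hz
    rw [hHre]
    have h1 : Real.exp (-(Real.pi / W) * z.re) ≤ 1 := by
      rw [Real.exp_le_one_iff]
      have : 0 ≤ Real.pi / W * z.re := by positivity
      linarith
    have h2 := Real.sin_le_one (Real.pi / W * (z.im - y0))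
    have h3 := Real.exp_pos (-(Real.pi / W) * z.re)
    linarith [mul_le_mul_of_nonneg_left h2 h3.le]
  -- the functions
  have key : ∀ N : ℕ, ∀ z ∈ U,
      ‖exp (-(N * ((u z - 1)⁻¹ + 1 / 2)) + N * (T * H z)) * (u z - 1)‖ ≤ C + 1 := by
    intro N
    set f : ℂ → ℂ := fun z => exp (-(N * ((u z - 1)⁻¹ + 1 / 2)) + N * (T * H z)) * (u z - 1) with hf
    have hfn : ∀ z, ‖f z‖ = Real.exp (-(N * (((u z - 1)⁻¹).re + 1 / 2)) + N * (T * (H z).re))
        * ‖u z - 1‖ := by
      intro z
      rw [hf]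
      simp only [norm_mul, norm_exp]
      congr 2
      have h1 : ((N : ℂ) * ((u z - 1)⁻¹ + 1 / 2)).re = N * (((u z - 1)⁻¹).re + 1 / 2) := by
        have := Complex.re_ofReal_mul (N : ℝ) ((u z - 1)⁻¹ + 1 / 2)
        simp only [Complex.ofReal_natCast] at this
        rw [this, Complex.add_re]
        norm_num
      have h2 : ((N : ℂ) * (T * H z)).re = N * (T * (H z).re) := by
        have := Complex.re_ofReal_mul (N : ℝ) (T * H z)
        simp only [Complex.ofReal_natCast] at this
        rw [this, Complex.re_ofReal_mul]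
      rw [Complex.add_re, Complex.neg_re, h1, h2]
    have hfd : DifferentiableOn ℂ f U := by
      intro z hz
      have h0 := hud z (hUre z hz)
      have h1 : DifferentiableAt ℂ (fun z => (u z - 1)⁻¹) z :=
        (h0.sub_const 1).inv (hune z (hUre z hz))
      have h2 : DifferentiableAt ℂ H z := by rw [hH]; fun_prop
      refine DifferentiableAt.differentiableWithinAt ?_
      refine DifferentiableAt.mul (DifferentiableAt.cexp ?_) (h0.sub_const 1)
      exact ((h1.add_const _).const_mul _).neg.add ((h2.const_mul _).const_mul _)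
    intro z hz
    refine max_limsup hUo hUb hfd ?_ hz
    intro ζ hζ ε hε
    have hζcl : ζ ∈ closure U := frontier_subset_closure hζ
    have hζU : ζ ∉ U := by
      rw [hUo.frontier_eq] at hζ; exact hζ.2
    have hcl : closure U ⊆ Icc 0 W ×ℂ Icc y0 (y0 + W) := by
      rw [hU, Complex.closure_reProdIm, closure_Ioo hW0.ne, closure_Ioo (by linarith)]
    have hζ2 := hcl hζcl
    rw [Complex.mem_reProdIm, mem_Icc, mem_Icc] at hζ2
    obtain ⟨⟨hζ0, hζW⟩, hζy, hζy'⟩ := hζ2
    rcases hζ0.eq_or_lt with hζre | hζre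
    · -- the bottom
      by_contra hcon
      rw [not_eventually] at hcon
      have hcon' : ∃ᶠ z in 𝓝[U] ζ, C + 1 + ε ≤ ‖f z‖ ∧ z ∈ U :=
        (hcon.mono fun z h => not_lt.1 h).and_eventually self_mem_nhdsWithin
      obtain ⟨s, hs, hs2⟩ := exists_seq_forall_of_frequently hcon'
      have hst : Tendsto s atTop (𝓝 ζ) := hs.mono_right nhdsWithin_le_nhds
      have hsU : ∀ j, s j ∈ U := fun j => (hs2 j).2
      -- a convergent subsequence of the pairs
      have hKc : IsCompact (closedBall (0 : ℂ) (2 * Real.exp W + 100) ×ˢ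
          closedBall (0 : ℂ) (1 + (2 * Real.exp W + 100))) :=
        (isCompact_closedBall _ _).prod (isCompact_closedBall _ _)
      obtain ⟨y₀, -, φ, hφ, hφt⟩ := hKc.tendsto_subseq (x := fun j => (cOf (s j), bw n w (s j)))
        fun j => by
          have := hC (s j) (hUre _ (hsU j)) ((hUm _).1 (hsU j)).1.2.le
          exact ⟨by simpa using this.2.1, by simpa using this.2.2⟩
      have hsφ : Tendsto (fun j => s (φ j)) atTop (𝓝 ζ) := hst.comp hφ.tendsto_atTop
      have hbot := bottom_of hn hx0 hx1 hQ hEx (k := k) (y := fun j => (cOf (s (φ j)), bw n w (s (φ j))))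
        (θ := fun j => (s (φ j)).im / (2 * Real.pi)) (w := w)
        (fun j => bw_spec hn hw (hUre _ (hsU _))) (fun j => hUν _ (hsU _)) hφt (by
          have h1 : Tendsto (fun j => (s (φ j)).re) atTop (𝓝 0) := by
            have := (Complex.continuous_re.tendsto ζ).comp hsφ
            rw [← hζre] at this
            exact this
          refine h1.congr fun j => ?_
          exact (ang_cOf' (hUre _ (hsU _))).2.symm)
      have hmt : Tendsto (fun j => u (s (φ j))) atTop (𝓝 (mul n y₀ * e0)) := by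
        have h1 := (((continuous_mul' n).tendsto y₀).comp hφt).mul_const e0
        exact h1
      have hge : ∀ j, C + 1 + ε ≤ ‖f (s (φ j))‖ := fun j => (hs2 (φ j)).1
      have hexpx : exp (axisPt x) * e0 = 1 := by rw [he0, ← exp_add, add_neg_cancel, exp_zero]
      rcases hbot with hb | ⟨v, hv0, hv, hvp⟩
      · -- the multiplier tends to the root of unity
        rw [hb, hexpx] at hmt
        have h1 : Tendsto (fun j => Real.exp (N * T) * ‖u (s (φ j)) - 1‖) atTop (𝓝 0) := by
          have h2 : Tendsto (fun j => ‖u (s (φ j)) - 1‖) atTop (𝓝 ‖(1 : ℂ) - 1‖) :=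
            (hmt.sub_const 1).norm
          rw [sub_self, norm_zero] at h2
          simpa using h2.const_mul (Real.exp (N * T))
        have hC0 : 0 ≤ C := (norm_nonneg _).trans (hUC _ (hsU 0))
        obtain ⟨j, hj⟩ := (h1.eventually (gt_mem_nhds (by linarith : (0 : ℝ) < C + 1 + ε))).exists
        have h2 := hge j
        rw [hfn] at h2
        have h3 : Real.exp (-(N * (((u (s (φ j)) - 1)⁻¹).re + 1 / 2)) + N * (T * (H (s (φ j))).re))
            ≤ Real.exp (N * T) := by
          apply Real.exp_le_exp.2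
          have h4 := (re_inv_gt (hu1 _ (hUre _ (hsU (φ j))))).le
          have h5 := hH1 (s (φ j)) (hUre _ (hsU (φ j))).le
          have h6 : T * (H (s (φ j))).re ≤ T * 1 := by
            apply mul_le_mul_of_nonneg_left _ hT0.le
            linarith [Real.exp_pos (-Real.pi)]
          have h7 : (0 : ℝ) ≤ N := Nat.cast_nonneg N
          linarith [mul_le_mul_of_nonneg_left h6 h7, mul_nonneg h7 h4]
        have h4 := mul_le_mul_of_nonneg_right h3 (norm_nonneg (u (s (φ j)) - 1))
        linarith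
      · -- the multiplier is in the PLY disc
        have e1 : mul n y₀ * e0 = exp v := by rw [hv, exp_add, mul_assoc, hexpx, mul_one]
        rw [e1] at hmt
        have h2 := re_inv_exp hr0 (by linarith) hv0 hvp
        have hvne : exp v - 1 ≠ 0 := by
          intro h
          rw [h, inv_zero, Complex.zero_re] at h2
          linarith [hT0]
        have hinv : Tendsto (fun j => ((u (s (φ j)) - 1)⁻¹).re) atTop (𝓝 ((exp v - 1)⁻¹).re) :=
          (Complex.continuous_re.tendsto _).comp ((hmt.sub_const 1).inv₀ hvne)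
        have hHt : Tendsto (fun j => (H (s (φ j))).re) atTop (𝓝 (H ζ).re) :=
          (hHc.tendsto ζ).comp hsφ
        have h3 : Tendsto (fun j => ‖f (s (φ j))‖) atTop
            (𝓝 (Real.exp (-(N * (((exp v - 1)⁻¹).re + 1 / 2)) + N * (T * (H ζ).re))
              * ‖exp v - 1‖)) := by
          have h4 : Tendsto (fun j => -(N * (((u (s (φ j)) - 1)⁻¹).re + 1 / 2))
              + N * (T * (H (s (φ j))).re)) atTop
              (𝓝 (-(N * (((exp v - 1)⁻¹).re + 1 / 2)) + N * (T * (H ζ).re))) :=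
            ((hinv.add_const _).const_mul _).neg.add ((hHt.const_mul _).const_mul _)
          have h5 := ((Real.continuous_exp.tendsto _).comp h4).mul (hmt.sub_const 1).norm
          refine h5.congr fun j => ?_
          rw [hfn]; rfl
        have h6 : C + 1 + ε ≤ Real.exp (-(N * (((exp v - 1)⁻¹).re + 1 / 2)) + N * (T * (H ζ).re))
              * ‖exp v - 1‖ := ge_of_tendsto' h3 hge
        have h7 : ‖exp v - 1‖ ≤ C + 1 :=
          le_of_tendsto' (hmt.sub_const 1).norm fun j => huC _ (hsU _)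
        have h8 : Real.exp (-(N * (((exp v - 1)⁻¹).re + 1 / 2)) + N * (T * (H ζ).re)) ≤ 1 := by
          rw [Real.exp_le_one_iff]
          have h9 := hH1 ζ hζ0
          have h10 : T * (H ζ).re ≤ T * 1 := by
            apply mul_le_mul_of_nonneg_left _ hT0.le
            linarith [Real.exp_pos (-Real.pi)]
          have h11 : (0 : ℝ) ≤ N := Nat.cast_nonneg N
          have h12 : T * (H ζ).re ≤ ((exp v - 1)⁻¹).re + 1 / 2 := by
            rw [← hT] at h2; linarith
          linarith [mul_le_mul_of_nonneg_left h12 h11]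
        have h9 := mul_le_mul h8 h7 (norm_nonneg _) zero_le_one
        linarith
    · -- the other sides
      have hHζ : (H ζ).re ≤ 0 := by
        rw [hHre, sub_nonpos]
        by_cases hW' : ζ.re = W
        · have h1 : Real.exp (-(Real.pi / W) * ζ.re) = Real.exp (-Real.pi) := by
            rw [hW']; congr 1; field_simp
          rw [h1]
          have h2 := Real.sin_le_one (Real.pi / W * (ζ.im - y0))
          linarith [mul_le_mul_of_nonneg_left h2 (Real.exp_pos (-Real.pi)).le]
        · have h3 : ζ.im = y0 ∨ ζ.im = y0 + W := by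
            by_contra hcon
            push Not at hcon
            exact hζU ((hUm ζ).2 ⟨⟨hζre, lt_of_le_of_ne hζW hW'⟩,
              lt_of_le_of_ne hζy (Ne.symm hcon.1), lt_of_le_of_ne hζy' hcon.2⟩)
          have h4 : Real.sin (Real.pi / W * (ζ.im - y0)) = 0 := by
            rcases h3 with h3 | h3
            · rw [h3]; simp
            · rw [h3]
              have : Real.pi / W * (y0 + W - y0) = Real.pi := by field_simp; ring
              rw [this, Real.sin_pi]
          rw [h4, mul_zero]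
          exact (Real.exp_pos _).le
      have hC0 : 0 ≤ C := by
        obtain ⟨z', hz'⟩ := (mem_closure_iff_frequently.1 hζcl).exists
        exact (norm_nonneg _).trans (hUC _ hz')
      have h1 : Tendsto (fun z => Real.exp (N * (T * (H z).re)) * (C + 1)) (𝓝 ζ)
          (𝓝 (Real.exp (N * (T * (H ζ).re)) * (C + 1))) := by
        have : Continuous fun z => Real.exp (N * (T * (H z).re)) * (C + 1) := by fun_prop
        exact this.tendsto ζ
      have h2 : Real.exp (N * (T * (H ζ).re)) * (C + 1) < C + 1 + ε := by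
        have h3 : Real.exp (N * (T * (H ζ).re)) ≤ 1 := by
          rw [Real.exp_le_one_iff]
          exact mul_nonpos_of_nonneg_of_nonpos (Nat.cast_nonneg N)
            (mul_nonpos_of_nonneg_of_nonpos hT0.le hHζ)
        linarith [mul_le_mul_of_nonneg_right h3 (by linarith : (0 : ℝ) ≤ C + 1)]
      filter_upwards [mem_nhdsWithin_of_mem_nhds (h1.eventually (gt_mem_nhds h2)),
        self_mem_nhdsWithin] with z' a1 a2
      rw [hfn]
      refine lt_of_le_of_lt ?_ a1
      have h4 := (re_inv_gt (hu1 _ (hUre _ a2))).le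
      have h5 : Real.exp (-(N * (((u z' - 1)⁻¹).re + 1 / 2)) + N * (T * (H z').re))
          ≤ Real.exp (N * (T * (H z').re)) := by
        apply Real.exp_le_exp.2
        have : (0 : ℝ) ≤ N * (((u z' - 1)⁻¹).re + 1 / 2) := by positivity
        linarith
      exact mul_le_mul h5 (huC _ a2) (norm_nonneg _) (Real.exp_pos _).le
  -- the point
  set z : ℂ := (G c c : ℂ) + 2 * Real.pi * θ * I with hz
  have hzre : z.re = G c c := by rw [hz]; simp
  have hzim : z.im = 2 * Real.pi * θ := by rw [hz]; simp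
  have hGpos : 0 < G c c := hE.1
  have hzc : cOf z = c := by
    refine cOf_unique (fun h => ?_) ?_ hE.2.1
    · have := mem_M_iff'.1 h; linarith
    · rw [hzre]; have := G_c_eq c; linarith
  have hzθ : z.im / (2 * Real.pi) = θ := by rw [hzim]; field_simp
  have hab := abs_le.1 hθ
  have hzU : z ∈ U := by
    rw [hUm, hzre, hzim]
    refine ⟨⟨hGpos, ?_⟩, ?_, ?_⟩
    · rw [hW]; linarith [sub_pos.2 hlt, mul_lt_mul_of_pos_right hpi (sub_pos.2 hlt)]
    · rw [hy0]
      have : tm < θ := by linarith [sub_pos.2 hlt]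
      linarith [mul_lt_mul_of_pos_left this Real.pi_pos]
    · rw [hy0, hW]
      have : θ < tp := by linarith [sub_pos.2 hlt]
      linarith [mul_lt_mul_of_pos_left this Real.pi_pos]
  have hbz : bw n w z = b := bw_eq hn hw (hUre z hzU) (by rw [hzc, hzθ]; exact hE)
  have hrz : rw' n w z = mul n (c, b) := by unfold rw'; rw [hzc, hbz]
  -- the comparison function at the point
  have hHz : 1 / 2 ≤ (H z).re := by
    rw [hHre, hzre, hzim, hW, hy0]
    have hl : 0 < tp - tm := sub_pos.2 hlt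
    have h1 : 0.9 ≤ Real.exp (-(Real.pi / (2 * Real.pi * (tp - tm))) * G c c) := by
      have h2 : -(Real.pi / (2 * Real.pi * (tp - tm))) * G c c ≥ -0.1 := by
        have h3 : Real.pi / (2 * Real.pi * (tp - tm)) = 1 / (2 * (tp - tm)) := by field_simp
        rw [h3]
        have h4 : 1 / (2 * (tp - tm)) * G c c ≤ 0.1 := by
          rw [div_mul_eq_mul_div, div_le_iff₀ (by positivity)]; linarith
        linarith
      have h3 := Real.add_one_le_exp (-(Real.pi / (2 * Real.pi * (tp - tm))) * G c c)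
      linarith
    have h2 : Real.pi / (2 * Real.pi * (tp - tm)) * (2 * Real.pi * θ - 2 * Real.pi * tm)
        = Real.pi * ((θ - tm) / (tp - tm)) := by field_simp
    rw [h2]
    set s : ℝ := (θ - tm) / (tp - tm) with hs
    have hs1 : 1 / 4 ≤ s := by rw [hs, le_div_iff₀ hl]; linarith
    have hs2 : s ≤ 3 / 4 := by rw [hs, div_le_iff₀ hl]; linarith
    have h3 : 0.7 ≤ Real.sin (Real.pi * s) := by
      have h4 : Real.sin (Real.pi / 4) ≤ Real.sin (Real.pi * s) := by
        rcases le_total s (1 / 2) with h5 | h5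
        · apply Real.sin_le_sin_of_le_of_le_pi_div_two <;> linarith [mul_le_mul_of_nonneg_left h5 Real.pi_pos.le,
              mul_le_mul_of_nonneg_left hs1 Real.pi_pos.le, mul_le_mul_of_nonneg_left hs2 Real.pi_pos.le]
        · rw [← Real.sin_pi_sub (Real.pi * s)]
          apply Real.sin_le_sin_of_le_of_le_pi_div_two <;> linarith [mul_le_mul_of_nonneg_left h5 Real.pi_pos.le,
              mul_le_mul_of_nonneg_left hs1 Real.pi_pos.le, mul_le_mul_of_nonneg_left hs2 Real.pi_pos.le]
      rw [Real.sin_pi_div_four] at h4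
      have h5 : (1.4 : ℝ) ≤ Real.sqrt 2 := Real.le_sqrt_of_sq_le (by norm_num)
      linarith
    have h4 : Real.exp (-Real.pi) ≤ 0.1 := by
      have h5 : Real.exp (-Real.pi) ≤ Real.exp (-3) := Real.exp_le_exp.2 (by linarith)
      have h6 : (10 : ℝ) ≤ Real.exp 3 := by
        have h7 : Real.exp 3 = Real.exp 1 ^ 3 := by rw [← Real.exp_nat_mul]; norm_num
        have h8 := Real.exp_one_gt_d9
        rw [h7]
        calc (10 : ℝ) ≤ 2.7 ^ 3 := by norm_num
          _ ≤ Real.exp 1 ^ 3 := by gcongr; linarith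
      have h7 : Real.exp (-3) ≤ 0.1 := by
        rw [Real.exp_neg]
        rw [inv_le_comm₀ (Real.exp_pos _) (by norm_num)]
        norm_num
        linarith
      linarith
    have h5 : 0.9 * 0.7 ≤ Real.exp (-(Real.pi / (2 * Real.pi * (tp - tm))) * G c c)
        * Real.sin (Real.pi * s) := mul_le_mul h1 h3 (by norm_num) (Real.exp_pos _).le
    linarith
  -- the conclusion
  have hmain : T / 2 ≤ ((u z - 1)⁻¹).re + 1 / 2 := by
    by_contra hcon
    push Not at hcon
    set δ : ℝ := T / 2 - (((u z - 1)⁻¹).re + 1 / 2) with hδ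
    have hδ0 : 0 < δ := by rw [hδ]; linarith
    have hp : 0 < ‖u z - 1‖ := norm_pos_iff.2 (hune z (hUre z hzU))
    have h1 : Tendsto (fun N : ℕ => (N : ℝ) * δ) atTop atTop :=
      tendsto_natCast_atTop_atTop.atTop_mul_const hδ0
    have h2 := Real.tendsto_exp_atTop.comp h1
    obtain ⟨N, hN⟩ := (h2.eventually_gt_atTop ((C + 1) / ‖u z - 1‖)).exists
    have h3 := key N z hzU
    rw [norm_mul, norm_exp] at h3
    have h4 : Real.exp (N * δ) ≤ Real.exp ((-(N * ((u z - 1)⁻¹ + 1 / 2)) + N * (T * H z) : ℂ).re) := by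
      apply Real.exp_le_exp.2
      have h5 : (-(N * ((u z - 1)⁻¹ + 1 / 2)) + N * (T * H z) : ℂ).re
          = -(N * (((u z - 1)⁻¹).re + 1 / 2)) + N * (T * (H z).re) := by
        have h6 : ((N : ℂ) * ((u z - 1)⁻¹ + 1 / 2)).re = N * (((u z - 1)⁻¹).re + 1 / 2) := by
          have := Complex.re_ofReal_mul (N : ℝ) ((u z - 1)⁻¹ + 1 / 2)
          simp only [Complex.ofReal_natCast] at this
          rw [this, Complex.add_re]
          norm_num
        have h7 : ((N : ℂ) * (T * H z)).re = N * (T * (H z).re) := by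
          have := Complex.re_ofReal_mul (N : ℝ) (T * H z)
          simp only [Complex.ofReal_natCast] at this
          rw [this, Complex.re_ofReal_mul]
        rw [Complex.add_re, Complex.neg_re, h6, h7]
      rw [h5, hδ]
      have h8 : T / 2 ≤ T * (H z).re := by linarith [mul_le_mul_of_nonneg_left hHz hT0.le]
      have h9 : (0 : ℝ) ≤ N := Nat.cast_nonneg N
      linarith [mul_le_mul_of_nonneg_left h8 h9]
    have h5 : C + 1 < Real.exp (N * δ) * ‖u z - 1‖ := by
      rw [div_lt_iff₀ hp] at hN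
      exact hN
    have h6 := mul_le_mul_of_nonneg_right h4 hp.le
    linarith
  have hsmall : ‖u z - 1‖ ≤ 10 / 3 * r := by
    have h1 : 3 / 10 / r ≤ ‖(u z - 1)⁻¹‖ := by
      have h2 := Complex.re_le_norm ((u z - 1)⁻¹)
      have h3 : T / 2 = 3 / 10 / r + 1 / 20 / r := by rw [hT]; field_simp; norm_num
      have h4 : 1 / 2 ≤ 1 / 20 / r := by rw [le_div_iff₀ hr0]; linarith
      linarith
    have hp : 0 < ‖u z - 1‖ := norm_pos_iff.2 (hune z (hUre z hzU))
    rw [norm_inv, div_div] at h1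
    rw [div_le_iff₀ (by positivity), inv_mul_eq_div, le_div_iff₀ hp] at h1
    linarith
  have hl1 := Complex.norm_log_one_add_half_le_self (z := u z - 1) (by linarith)
  rw [add_sub_cancel] at hl1
  refine ⟨Complex.log (u z) + axisPt x, ?_, ?_, ?_⟩
  · have hu0 : u z ≠ 0 := by
      intro h
      have := hu1 z (hUre z hzU)
      rw [h, norm_zero] at this
      linarith
    rw [exp_add, Complex.exp_log hu0, hu]
    simp only
    rw [mul_assoc, he0, ← exp_add, neg_add_cancel, exp_zero, mul_one, hrz]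
  · rw [Complex.add_re, axisPt_re13, add_zero, Complex.log_re]
    exact Real.log_pos (hu1 z (hUre z hzU))
  · rw [add_sub_cancel_right]
    refine hl1.trans ?_
    have h1 : 3 / 2 * ‖u z - 1‖ ≤ 5 * r := by linarith
    refine h1.trans ?_
    rw [hr, ← mul_div_assoc]
    apply div_le_div_of_nonneg_right _ hq0.le
    linarith [mul_le_mul_of_nonneg_left hlog.le hn0.le]


namespace Sat

open MidRay in
/-- the exterior parameters of angle `(tm + tp) / 2` of low potential are in the image of the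
section of the parent, at distance at most `7 m / q` from the root -/
theorem mid_of (D : Dat) (hP : D.Par) (hC : D.Cir)
    (hQ : 100 * (D.m : ℝ) ^ 2 ≤ D.x.den * (min (D.x : ℝ) (1 - D.x)) ^ 2)
    (hEx : ExExact D.m D.x) {c : ℂ}
    (hA : Ang c ((D.tm + D.tp) / 2)) (hG : G c c ≤ (D.tp - D.tm) / 5) :
    ∃ L ∈ D.B, D.c L = c ∧ D.Th L ((D.tm + D.tp) / 2) ∧ 0 < L.re ∧
      ‖L - D.a‖ ≤ 7 * D.m / D.x.den := by
  have hm := hP.m_pos
  have hmr : (1 : ℝ) ≤ D.m := by exact_mod_cast hm
  have hQ1 : (1 : ℝ) ≤ D.x.den := by exact_mod_cast D.x.pos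
  have hl : 0 < D.tp - D.tm := sub_pos.2 hC.lt
  have hx0 : (0 : ℝ) < D.x := by exact_mod_cast hP.x_pos
  have hx1 : (D.x : ℝ) < 1 := by exact_mod_cast hP.x_lt
  obtain ⟨b, hb⟩ := exists_extP hm hA hP.bits
  have hν : ∀ θ, D.tm < θ → θ < D.tp → Circ.nu D.w D.m θ = D.x + D.k₀ := fun θ h1 h2 => by
    rw [(hC.plateau _).2 ⟨h1.le, h2.le⟩]; ring
  set μ : ℝ := min (D.x : ℝ) (1 - D.x) with hμ
  have hμ0 : 0 < μ := lt_min hx0 (by linarith)
  have hμ1 : μ ≤ 1 / 2 := by
    rcases le_total (D.x : ℝ) (1 / 2) with h | h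
    · exact (min_le_left _ _).trans h
    · exact (min_le_right _ _).trans (by linarith)
  have hQ' : 400 * (D.m : ℝ) ^ 2 ≤ D.x.den := by
    have h1 : μ ^ 2 ≤ 1 / 4 := (pow_le_pow_left₀ hμ0.le hμ1 2).trans (by norm_num)
    have h2 : (D.x.den : ℝ) * μ ^ 2 ≤ D.x.den * (1 / 4) := mul_le_mul_of_nonneg_left h1 (by linarith)
    linarith
  obtain ⟨L, hLe, hLre, hLn⟩ := low_of hm hP.x_pos hP.x_lt hQ' hEx (k := D.k₀) (w := D.w) hP.bits
    hC.lt hC.lt_one.le hν hb (by rw [sub_self, abs_zero]; linarith) hG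
  have hLB : L ∈ D.B := by
    show L ∈ ball D.a (gR D.m D.x)
    rw [mem_ball, dist_eq_norm]
    refine lt_of_le_of_lt hLn ?_
    have hgR : gR D.m D.x = μ ^ 2 / (4 * D.m) := by unfold gR; rw [← hμ]; field_simp
    rw [hgR, div_lt_div_iff₀ (by linarith) (by positivity)]
    have hm2 : (0 : ℝ) < (D.m : ℝ) ^ 2 := by positivity
    linarith
  have hνm : Circ.nu D.w D.m ((D.tm + D.tp) / 2) = D.k₀ + D.x :=
    (hC.plateau _).2 ⟨by linarith, by linarith⟩
  have hn1 : (D.k₀ : ℝ) < Circ.nu D.w D.m ((D.tm + D.tp) / 2) := by rw [hνm]; linarith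
  have hn2 : Circ.nu D.w D.m ((D.tm + D.tp) / 2) < D.k₀ + 1 := by rw [hνm]; linarith
  have hFF : FF D.m (D.σ L) = FF D.m (c, b) := by
    rw [(hP.lab L hLB hLre).2 _ hn1 hn2]
    exact (FF_ext (x := (c, b)) hb).symm
  have hsec := hP.sec L hLB
  have heq := s4_unique D.m D.x L (D.σ L) (c, b) hm hP.x_pos hP.x_lt hLB
    hLre hsec.1 hb.2.2.1 hsec.2 hLe.symm hFF
  have hc : D.c L = c := congrArg Prod.fst heq
  have hbL : D.b L = b := congrArg Prod.snd heq
  refine ⟨L, hLB, hc, ⟨?_, hn1, hn2⟩, hLre, hLn⟩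
  rw [hc, hbL]; exact hb

end Sat

end Pool.Agent.Work.MLC
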