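import Pool.Agent.Work.MLC.MidExact13
import Pool.Agent.Work.MLC.ExEx59

set_option autoImplicit false

/-! # The mid ray of a rational plateau, unconditional form (helper13)

`exExact`: the limb disc inequality with the combinatorial rotation number, from `ex_exact` of
helper59; `Sat.mid_exact13`: the mid ray and the bound `7 m / q`, hypothesis
`100 m ^ 2 ≤ q * min (x, 1 - x) ^ 2`. -/

namespace Pool.Agent.Work.MLC

open Filter Topology Metric Set Complex Pool.Agent.Work.MLC.Sat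

/-- the limb disc inequality with the combinatorial rotation number -/
theorem exExact13 {n : ℕ} (hn : 0 < n) {x : ℚ} (hx0 : 0 < x) (hx1 : x < 1)
    (hQ : 100 * (n : ℝ) ^ 2 ≤ x.den * (min (x : ℝ) (1 - x)) ^ 2) : ExExact n x := by
  intro c b L hM hfix hL hre hE
  obtain ⟨j, -, h⟩ := BarM.ex_exact hn hx0 hx1 hQ hM hfix hL hre hE
  exact ⟨j, h⟩

/-- **LOW**, unconditional form -/
theorem low_exact13 {n : ℕ} (hn : 0 < n) {x : ℚ} (hx0 : 0 < x) (hx1 : x < 1)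
    (hQ : 100 * (n : ℝ) ^ 2 ≤ x.den * (min (x : ℝ) (1 - x)) ^ 2) {k : ℤ}
    {w : ℕ → ℤ} (hw : Bits n w) {tm tp : ℝ} (hlt : tm < tp) (htp : tp ≤ tm + 1)
    (hν : ∀ θ, tm < θ → θ < tp → Circ.nu w n θ = x + k) {c b : ℂ} {θ : ℝ}
    (hE : ExtP n c b θ w) (hθ : |θ - (tm + tp) / 2| ≤ (tp - tm) / 4)
    (hG : G c c ≤ (tp - tm) / 5) :
    ∃ ℓ : ℂ, exp ℓ = mul n (c, b) ∧ 0 < ℓ.re ∧ ‖ℓ - axisPt x‖ ≤ 7 * n / x.den := by
  refine low_of hn hx0 hx1 ?_ (exExact13 hn hx0 hx1 hQ) hw hlt htp hν hE hθ hG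
  have hx0' : (0 : ℝ) < x := by exact_mod_cast hx0
  have hx1' : (x : ℝ) < 1 := by exact_mod_cast hx1
  have hq0 : (0 : ℝ) < x.den := by exact_mod_cast x.pos
  set μ : ℝ := min (x : ℝ) (1 - x) with hμ
  have hμ0 : 0 < μ := lt_min hx0' (by linarith)
  have hμ1 : μ ≤ 1 / 2 := by
    rcases le_total (x : ℝ) (1 / 2) with h | h
    · exact (min_le_left _ _).trans h
    · exact (min_le_right _ _).trans (by linarith)
  have h1 : μ ^ 2 ≤ 1 / 4 := by nlinarith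
  have h2 : (x.den : ℝ) * μ ^ 2 ≤ x.den * (1 / 4) := mul_le_mul_of_nonneg_left h1 hq0.le
  linarith

namespace Sat

/-- **MID RAY**, exact exponent: the mid ray of the plateau of `x = p / q` is in the chart, at
distance at most `7 m / q` from `2 π i p / q` -/
theorem mid_exact13 (D : Dat) (hP : D.Par) (hC : D.Cir)
    (hQ : 100 * (D.m : ℝ) ^ 2 ≤ D.x.den * (min (D.x : ℝ) (1 - D.x)) ^ 2) {c : ℂ}
    (hA : Ang c ((D.tm + D.tp) / 2)) (hG : G c c ≤ (D.tp - D.tm) / 5) :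
    ∃ L ∈ D.B, D.c L = c ∧ D.Th L ((D.tm + D.tp) / 2) ∧ 0 < L.re ∧
      ‖L - D.a‖ ≤ 7 * D.m / D.x.den :=
  mid_of D hP hC hQ (exExact13 hP.m_pos hP.x_pos hP.x_lt hQ) hA hG

end Sat

end Pool.Agent.Work.MLC
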