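import Pool.Agent.Work.MLC.MidRay59
import Pool.Agent.Work.MLC.Low13

set_option autoImplicit false

/-! # The mid ray of a rational plateau, with the exact size of the limb disc (helper13) -/

namespace Pool.Agent.Work.MLC

open Filter Topology Metric Set Complex

namespace Sat

open MidRay in
/-- the exterior parameters of angle `(tm + tp) / 2` of low potential are in the image of the
section of the parent, at distance at most `7 m / q` from the root -/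
theorem mid_low13 (D : Dat) (hP : D.Par) (hC : D.Cir)
    (hQ : 7300 * (D.m : ℝ) ^ 4 ≤ D.x.den * (min (D.x : ℝ) (1 - D.x)) ^ 4) {c : ℂ}
    (hA : Ang c ((D.tm + D.tp) / 2)) (hG : G c c ≤ (D.tp - D.tm) / 5) :
    ∃ L ∈ D.B, D.c L = c ∧ D.Th L ((D.tm + D.tp) / 2) ∧ 0 < L.re ∧
      ‖L - D.a‖ ≤ 7 * D.m / D.x.den := by
  have hm := hP.m_pos
  have hmr : (1 : ℝ) ≤ D.m := by exact_mod_cast hm
  have hQ1 : (1 : ℝ) ≤ D.x.den := by exact_mod_cast D.x.pos
  have hl : 0 < D.tp - D.tm := sub_pos.2 hC.lt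
  have hx0 : (0 : ℝ) < D.x := by exact_mod_cast hP.x_pos
  have hx1 : (D.x : ℝ) < 1 := by exact_mod_cast hP.x_lt
  obtain ⟨b, hb⟩ := exists_extP hm hA hP.bits
  have hν : ∀ θ, D.tm < θ → θ < D.tp → Circ.nu D.w D.m θ = D.x + D.k₀ := fun θ h1 h2 => by
    rw [(hC.plateau _).2 ⟨h1.le, h2.le⟩]; ring
  obtain ⟨L, hLe, hLre, hLn⟩ := low hm hP.x_pos hP.x_lt hQ (k := D.k₀) (w := D.w) hP.bits hC.lt
    hC.lt_one.le hν hb (by rw [sub_self, abs_zero]; linarith) hG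
  have hLB : L ∈ D.B := by
    show L ∈ ball D.a (gR D.m D.x)
    rw [mem_ball, dist_eq_norm]
    refine lt_of_le_of_lt hLn ?_
    set μ : ℝ := min (D.x : ℝ) (1 - D.x) with hμ
    have hμ0 : 0 < μ := lt_min hx0 (by linarith)
    have hμ1 : μ ≤ 1 := (min_le_left _ _).trans hx1.le
    have hgR : gR D.m D.x = μ ^ 2 / (4 * D.m) := by unfold gR; rw [← hμ]; field_simp
    rw [hgR, div_lt_div_iff₀ (by linarith) (by positivity)]
    have h1 : (D.m : ℝ) * D.m ≤ D.m ^ 4 := by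
      calc (D.m : ℝ) * D.m = D.m ^ 2 := by ring
        _ ≤ D.m ^ 4 := pow_le_pow_right₀ hmr (by norm_num)
    have h2 : μ ^ 4 ≤ μ ^ 2 := pow_le_pow_of_le_one hμ0.le hμ1 (by norm_num)
    have h3 : (D.x.den : ℝ) * μ ^ 4 ≤ D.x.den * μ ^ 2 := mul_le_mul_of_nonneg_left h2 (by linarith)
    nlinarith
  have hνm : Circ.nu D.w D.m ((D.tm + D.tp) / 2) = D.k₀ + D.x :=
    (hC.plateau _).2 ⟨by linarith, by linarith⟩
  have hn1 : (D.k₀ : ℝ) < Circ.nu D.w D.m ((D.tm + D.tp) / 2) := by rw [hνm]; linarith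
  have hn2 : Circ.nu D.w D.m ((D.tm + D.tp) / 2) < D.k₀ + 1 := by rw [hνm]; linarith
  have hFF : FF D.m (D.σ L) = FF D.m (c, b) := by
    rw [(hP.lab L hLB hLre).2 _ hn1 hn2]
    exact (FF_ext (x := (c, b)) hb).symm
  have hsec := hP.sec L hLB
  have heq := s4_unique D.m D.x L (D.σ L) (c, b) hm hP.x_pos hP.x_lt hLB
    hLre hsec.1 hb.2.2.1 hsec.2 hLe.symm hFF
  have hc : D.c L = c := congrArg Prod.fst heq
  have hbL : D.b L = b := congrArg Prod.snd heq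
  refine ⟨L, hLB, hc, ⟨?_, hn1, hn2⟩, hLre, hLn⟩
  rw [hc, hbL]; exact hb

end Sat

end Pool.Agent.Work.MLC
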