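import Pool.Agent.Work.MLC.NVDefs
import Pool.Agent.Work.MLC.Count

set_option autoImplicit false

/-! # From an attracting point to another root (helper13) -/

namespace Pool.Agent.Work.MLC

open Filter Topology Metric Set

/-- attracting parameters are in the interior of `M` -/
theorem Attr.interior {κ : ℝ} (hI : Inputs κ) {n : ℕ} (hn : 0 < n) {c b : ℂ}
    (h : Attr n c b) : c ∈ interior MS := by
  obtain ⟨hx, hm⟩ := h
  have h1 : mul n (c, b) ≠ 1 := by
    intro h0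
    rw [h0, norm_one] at hm
    exact lt_irrefl _ hm
  obtain ⟨β, hβ, hβ0, hβe⟩ := chart hx h1
  have ht := chart_tendsto hβ hβ0
  rw [mem_interior_iff_mem_nhds]
  have h2 : ∀ᶠ x in 𝓝 ((c, b) : ℂ × ℂ), ‖mul n x‖ < 1 :=
    (continuous_mul' n).norm.continuousAt.eventually (gt_mem_nhds hm)
  filter_upwards [ht.eventually h2, ht.eventually hβe] with c' h3 h4
  by_contra hM
  have h5 := hI.rep n hn _ (h4.2 rfl) hM
  exact absurd h3 (not_lt.2 h5.le)

/-- move to an attracting point with non-zero multiplier -/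
theorem Attr.move {κ : ℝ} (hI : Inputs κ) {n : ℕ} (hn : 0 < n) {c b : ℂ}
    (h : Attr n c b) : ∃ (c' b' : ℂ) (W : Set ℂ), Attr n c' b' ∧ mul n (c', b') ≠ 0 ∧
      IsPreconnected W ∧ c ∈ W ∧ c' ∈ W ∧ W ⊆ _root_.interior MS := by
  have hin := h.interior hI hn
  obtain ⟨hx, hm⟩ := h
  have h1 : mul n (c, b) ≠ 1 := by
    intro h0
    rw [h0, norm_one] at hm
    exact lt_irrefl _ hm
  obtain ⟨ε, hε, hεs⟩ := Metric.mem_nhds_iff.1 (isOpen_interior.mem_nhds hin)
  have hN : {x : ℂ × ℂ | x.1 ∈ ball c ε} ∈ 𝓝 ((c, b) : ℂ × ℂ) :=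
    continuous_fst.continuousAt.preimage_mem_nhds (isOpen_ball.mem_nhds (mem_ball_self hε))
  have h2 := mul_open hn hx h1 (by linarith) hN
  have h3 : ∀ᶠ w in 𝓝 (mul n (c, b)), ‖w‖ < 1 :=
    continuous_norm.continuousAt.eventually (gt_mem_nhds hm)
  have h4 : ∃ᶠ w in 𝓝 (mul n (c, b)), w ≠ 0 := by
    have h6 : ∃ᶠ w in 𝓝[≠] (mul n (c, b)), w ≠ 0 := by
      by_cases h0 : mul n (c, b) = 0
      · rw [h0]
        exact (eventually_mem_nhdsWithin (s := {(0 : ℂ)}ᶜ)).frequently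
      · have : ∀ᶠ w in 𝓝 (mul n (c, b)), w ≠ 0 := isOpen_ne.mem_nhds h0
        have h7 : ∀ᶠ w in 𝓝[≠] (mul n (c, b)), w ≠ 0 := this.filter_mono nhdsWithin_le_nhds
        exact h7.frequently
    exact h6.filter_mono nhdsWithin_le_nhds
  obtain ⟨w, hw0, hw1, ⟨x, ⟨hxN, hxP⟩, hxw⟩⟩ := (h4.and_eventually (h3.and h2)).exists
  refine ⟨x.1, x.2, ball c ε, ⟨hxP, ?_⟩, ?_, (convex_ball _ _).isPreconnected,
    mem_ball_self hε, hxN, hεs⟩
  · show ‖mul n x‖ < 1
    rw [hxw]; exact hw1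
  · show mul n x ≠ 0
    rw [hxw]; exact hw0

/-- the left half plane -/
theorem goodDom_left {n : ℕ} (hn : 0 < n) : GoodDom n {L : ℂ | L.re < 0} := by
  have hlt : ∀ L : ℂ, L.re < 0 → ‖Complex.exp L‖ < 1 := by
    intro L hL
    rw [Complex.norm_exp]
    exact Real.exp_lt_one_iff.2 hL
  refine ⟨hn, isOpen_lt Complex.continuous_re continuous_const, ?_, ?_, ?_⟩
  · intro L hL h0
    have h1 := hlt L hL
    rw [h0, norm_one] at h1
    exact lt_irrefl _ h1
  · intro L hL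
    have := hlt L hL
    linarith
  · intro x hx L hL hm
    have h1 := hlt L hL
    refine locInj_of_le hn hx ?_ ?_ ?_
    · rw [hm]
      intro h0
      rw [h0, norm_one] at h1
      exact lt_irrefl _ h1
    · rw [hm]; exact Complex.exp_ne_zero _
    · rw [hm]; exact h1.le

/-- the multipliers at the parameter `r` are finitely many -/
theorem finite_mults {n : ℕ} (hn : 0 < n) (r : ℂ) :
    {w : ℂ | ∃ b, it r n b = b ∧ mul n (r, b) = w}.Finite := by
  have h1 : ((fun b => mul n (r, b)) '' {b | b ∈ (Cnt.fx r n).roots}).Finite := by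
    refine Set.Finite.image _ ?_
    exact Multiset.finite_toSet _
  refine h1.subset ?_
  rintro w ⟨b, hb, rfl⟩
  exact ⟨b, (Cnt.mem_roots_fx hn).2 hb, rfl⟩

theorem exp_axisPt_inj {x y : ℚ} (hx0 : 0 < x) (hx1 : x < 1) (hy0 : 0 < y) (hy1 : y < 1)
    (h : Complex.exp (axisPt x) = Complex.exp (axisPt y)) : x = y := by
  rw [Complex.exp_eq_exp_iff_exists_int] at h
  obtain ⟨k, hk⟩ := h
  have h1 := congrArg Complex.im hk
  have h2 : ((k : ℂ) * (2 * Real.pi * Complex.I)).im = k * (2 * Real.pi) := by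
    simp
  rw [Complex.add_im, LimbData.axisPt_im, LimbData.axisPt_im, h2] at h1
  have hpi := Real.pi_pos
  have h3 : (x : ℝ) = y + k := by
    have : (2 * Real.pi) * ((x : ℝ)) = (2 * Real.pi) * (y + k) := by linarith
    exact mul_left_cancel₀ (by positivity) this
  have h4 : x = y + k := by exact_mod_cast h3
  have h5 : (k : ℚ) < 1 := by linarith
  have h6 : (-1 : ℚ) < k := by linarith
  have h7 : k < 1 := by exact_mod_cast h5
  have h8 : -1 < k := by exact_mod_cast h6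
  have h9 : k = 0 := by omega
  rw [h4, h9]; simp

theorem next_root13 {κ : ℝ} (hI : Inputs κ) {n : ℕ} (hn : 0 < n) {c₁ b₁ : ℂ} (h : Attr n c₁ b₁)
    (r : ℂ) {B : ℝ} (hB : 0 < B) :
    ∃ (p q : ℕ) (x : ℚ) (σ : ℂ → ℂ × ℂ) (V : Set ℂ), 0 < p ∧ p < q ∧ Nat.Coprime p q ∧
      (x : ℝ) = p / q ∧ x.den = q ∧
      B * (n : ℝ) ^ 2 * q ≤ (min (p : ℝ) (q - p)) ^ 2 ∧
      ContinuousOn σ (ball (axisPt x) (κ * (min (x : ℝ) (1 - x)) ^ 2 / n)) ∧
      (∀ L ∈ ball (axisPt x) (κ * (min (x : ℝ) (1 - x)) ^ 2 / n),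
        σ L ∈ Per n ∧ mul n (σ L) = Complex.exp L) ∧
      (σ (axisPt x)).1 ≠ r ∧
      IsPreconnected V ∧ c₁ ∈ V ∧ V ⊆ interior MS ∧
      (∀ L ∈ ball (axisPt x) (κ * (min (x : ℝ) (1 - x)) ^ 2 / n), L.re < 0 → (σ L).1 ∈ V) := by
  have hκ := hI.κ_pos
  have hn' : (0 : ℝ) < n := by exact_mod_cast hn
  obtain ⟨c₂, b₂, W, hA2, hne0, hWc, hc1W, hc2W, hWM⟩ := h.move hI hn
  have hGL := goodDom_left hn
  have hLconv : Convex ℝ {L : ℂ | L.re < 0} := convex_halfSpace_re_lt 0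
  have hlogre : (Complex.log (mul n (c₂, b₂))).re < 0 := by
    rw [Complex.log_re]
    exact Real.log_neg (norm_pos_iff.2 hne0) hA2.2
  obtain ⟨σ₁, hσ₁, hσ₁', hσ₁0⟩ := exists_section hGL hLconv hA2.1 hlogre
    (Complex.exp_log hne0).symm
  -- the rational numbers
  set x : ℕ → ℚ := fun p => (p : ℚ) / (2 * p + 1) with hx
  set R : ℕ → ℝ := fun p => κ * (min (x p : ℝ) (1 - x p)) ^ 2 / n with hR
  have hx0 : ∀ p, 0 < p → 0 < x p := by
    intro p hp
    have h1 : (0 : ℚ) < p := by exact_mod_cast hp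
    simp only [hx]; positivity
  have hx1 : ∀ p, x p < 1 := by
    intro p
    simp only [hx]
    have h1 : (0 : ℚ) ≤ p := by positivity
    rw [div_lt_one (by positivity)]
    linarith
  have hR0 : ∀ p, 0 < p → 0 < R p := by
    intro p hp
    have h1 : (0 : ℝ) < x p := by exact_mod_cast hx0 p hp
    have h2 : (x p : ℝ) < 1 := by exact_mod_cast hx1 p
    have h3 : 0 < min (x p : ℝ) (1 - x p) := lt_min h1 (by linarith)
    simp only [hR]
    positivity
  have key : ∀ p, 0 < p → ∃ σ : ℂ → ℂ × ℂ, ContinuousOn σ (ball (axisPt (x p)) (R p)) ∧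
      (∀ L ∈ ball (axisPt (x p)) (R p), σ L ∈ Per n ∧ mul n (σ L) = Complex.exp L) ∧
      (∀ L ∈ ball (axisPt (x p)) (R p), L.re < 0 → σ₁ L = σ L) := by
    intro p hp
    have hG : GoodDom n (ball (axisPt (x p)) (R p)) := hI.good n hn (x p) (hx0 p hp) (hx1 p)
    have hRp := hR0 p hp
    set L₂ : ℂ := axisPt (x p) - ((R p / 2 : ℝ) : ℂ) with hL₂
    have hL₂D : L₂ ∈ ball (axisPt (x p)) (R p) := by
      rw [mem_ball, dist_eq_norm, hL₂, sub_sub_cancel_left, norm_neg, Complex.norm_real,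
        Real.norm_eq_abs, abs_of_pos (by positivity)]
      linarith
    have hL₂re : L₂.re < 0 := by
      rw [hL₂, Complex.sub_re, LimbData.axisPt_re, Complex.ofReal_re]
      linarith
    obtain ⟨σ, hσ, hσ', hσ0⟩ := exists_section hG (convex_ball _ _) (hσ₁' L₂ hL₂re).1 hL₂D
      (hσ₁' L₂ hL₂re).2
    refine ⟨σ, hσ, hσ', fun L hL hre => ?_⟩
    have hs : IsPreconnected (ball (axisPt (x p)) (R p) ∩ {L : ℂ | L.re < 0}) :=
      ((convex_ball _ _).inter hLconv).isPreconnected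
    exact section_unique hG hσ hσ' hs (g := σ₁) (l := fun L => L)
      (hσ₁.mono inter_subset_right) continuousOn_id
      (fun a ha => ⟨(hσ₁' a ha.2).1, ha.1, (hσ₁' a ha.2).2⟩) (a₀ := L₂) ⟨hL₂D, hL₂re⟩
      hσ0.symm L ⟨hL, hre⟩
  choose! σ hσ hσ' hσe using key
  -- a good index
  obtain ⟨P, hP⟩ := exists_nat_gt (3 * B * (n : ℝ) ^ 2)
  have hP0 : 0 < P := by
    have : (0 : ℝ) < P := lt_of_le_of_lt (by positivity) hP
    exact_mod_cast this
  obtain ⟨p, hpP, hpr⟩ : ∃ p, P ≤ p ∧ (σ p (axisPt (x p))).1 ≠ r := by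
    by_contra hcon
    push Not at hcon
    have hinf : (Set.Ici P).Infinite := Set.Ici_infinite P
    refine hinf ?_
    refine Set.Finite.of_finite_image (f := fun p => Complex.exp (axisPt (x p))) ?_ ?_
    · refine (finite_mults hn r).subset ?_
      rintro _ ⟨p, hp, rfl⟩
      have hp0 : 0 < p := lt_of_lt_of_le hP0 hp
      have h1 := hσ' p hp0 (axisPt (x p)) (mem_ball_self (hR0 p hp0))
      have h2 := hcon p hp
      refine ⟨(σ p (axisPt (x p))).2, ?_, ?_⟩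
      · have := h1.1
        rw [← h2]
        exact this
      · rw [← h2]
        exact h1.2
    · intro p hp p' hp' heq
      have hp0 : 0 < p := lt_of_lt_of_le hP0 hp
      have hp0' : 0 < p' := lt_of_lt_of_le hP0 hp'
      have h1 := exp_axisPt_inj (hx0 p hp0) (hx1 p) (hx0 p' hp0') (hx1 p') heq
      simp only [hx] at h1
      rw [div_eq_div_iff (by positivity) (by positivity)] at h1
      have h2 : (p : ℚ) = p' := by linarith
      exact_mod_cast h2
  have hp0 : 0 < p := lt_of_lt_of_le hP0 hpP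
  have hp' : (0 : ℝ) < p := by exact_mod_cast hp0
  have hcop : Nat.Coprime p (2 * p + 1) := by
    rw [Nat.coprime_iff_gcd_eq_one]
    simp
  refine ⟨p, 2 * p + 1, x p, σ p, W ∪ (fun L => (σ₁ L).1) '' {L : ℂ | L.re < 0}, hp0, by omega,
    hcop, ?_, ?_, ?_, hσ p hp0, hσ' p hp0, hpr, ?_, Or.inl hc1W, ?_, ?_⟩
  · simp only [hx]; push_cast; rfl
  · have h1 := Rat.den_div_eq_of_coprime (a := (p : ℤ)) (b := ((2 * p + 1 : ℕ) : ℤ)) (by omega)
      (by rw [Int.natAbs_natCast, Int.natAbs_natCast]; exact hcop)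
    have h2 : (((p : ℤ) : ℚ) / (((2 * p + 1 : ℕ) : ℤ) : ℚ)) = x p := by
      simp only [hx]; push_cast; rfl
    rw [h2] at h1
    exact_mod_cast h1
  · have h1 : min (p : ℝ) (((2 * p + 1 : ℕ) : ℝ) - p) = p := by
      apply min_eq_left
      push_cast
      linarith
    rw [h1]
    have h2 : 3 * B * (n : ℝ) ^ 2 ≤ p := hP.le.trans (by exact_mod_cast hpP)
    have h3 : (1 : ℝ) ≤ p := by exact_mod_cast hp0
    push_cast
    have h4 : 0 < B * (n : ℝ) ^ 2 := by positivity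
    calc B * (n : ℝ) ^ 2 * (2 * p + 1) ≤ B * (n : ℝ) ^ 2 * (3 * p) := by
          gcongr; linarith
      _ = (3 * B * (n : ℝ) ^ 2) * p := by ring
      _ ≤ p * p := by gcongr
      _ = (p : ℝ) ^ 2 := by ring
  · refine IsPreconnected.union c₂ hc2W ⟨_, hlogre, ?_⟩ hWc ?_
    · show (σ₁ _).1 = c₂
      rw [hσ₁0]
    · exact hLconv.isPreconnected.image _ (continuous_fst.comp_continuousOn hσ₁)
  · rintro z (hz | ⟨L, hL, rfl⟩)
    · exact hWM hz
    · have h1 := hσ₁' L hL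
      have h2 : Attr n (σ₁ L).1 (σ₁ L).2 := by
        refine ⟨h1.1, ?_⟩
        show ‖mul n (σ₁ L)‖ < 1
        rw [h1.2, Complex.norm_exp]
        exact Real.exp_lt_one_iff.2 hL
      exact h2.interior hI hn
  · intro L hL hre
    right
    refine ⟨L, hre, ?_⟩
    show (σ₁ L).1 = (σ p L).1
    rw [hσe p hp0 L hL hre]

end Pool.Agent.Work.MLC
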