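import Pool.Agent.Work.MLC.NV1
import Pool.Agent.Work.MLC.NV2

set_option autoImplicit false

/-! # Existence of parameters which satisfy the hypothesis of the main theorem (helper6) -/

namespace Pool.Agent.Work.MLC

open Filter Topology Metric Set

namespace NV

/-- a connected set in `M \ {r}` which meets `K` is contained in `K` -/
lemma conn_sub {M K U : Set ℂ} {r : ℂ} (hM : IsClosed M) (hK : IsClosed K)
    (hKo : ∀ z ∈ K, z ≠ r → K \ {r} ∈ 𝓝[M] z) (hU : IsPreconnected U) (hUM : U ⊆ M \ {r})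
    (hne : (U ∩ K).Nonempty) : U ⊆ K := by
  have hcompl : IsClosed (M \ (K \ {r})) := by
    refine isClosed_of_closure_subset fun v hv => ?_
    have hvM : v ∈ M := closure_minimal sdiff_subset hM hv
    refine ⟨hvM, fun hvK => ?_⟩
    have h3 := hKo v hvK.1 hvK.2
    rw [mem_nhdsWithin_iff_eventually] at h3
    obtain ⟨u, hu, hu2⟩ := ((mem_closure_iff_frequently.1 hv).and_eventually h3).exists
    exact hu.2 (hu2 hu.1)
  by_contra hcon
  obtain ⟨w, hwU, hwK⟩ := not_subset.1 hcon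
  have h4 := isPreconnected_closed_iff.1 hU _ _ hK hcompl
    (fun v hv => by
      by_cases hvK : v ∈ K
      · exact Or.inl hvK
      · exact Or.inr ⟨(hUM hv).1, fun h0 => hvK h0.1⟩)
    hne ⟨w, hwU, (hUM hwU).1, fun h0 => hwK h0.1⟩
  obtain ⟨v, hvU, hv1, hv2⟩ := h4
  exact hv2.2 ⟨hv1, (hUM hvU).2⟩

/-- attracting parameters are interior points of `M` -/
lemma attr_interior {κ : ℝ} (hI : Inputs κ) {n : ℕ} (hn : 0 < n) {c b : ℂ} (h : Attr n c b) :
    c ∈ interior MS := by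
  have h1 : mul n (c, b) ≠ 1 := by
    intro h0
    have := h.2
    rw [h0, norm_one] at this
    exact lt_irrefl _ this
  obtain ⟨β, hβ, hβ0, hβe⟩ := chart h.1 h1
  have ht : Tendsto (fun c' => ((c', β c') : ℂ × ℂ)) (𝓝 c) (𝓝 (c, b)) := chart_tendsto hβ hβ0
  rw [mem_interior_iff_mem_nhds]
  have h2 : ∀ᶠ x : ℂ × ℂ in 𝓝 (c, b), ‖mul n x‖ < 1 :=
    (continuous_mul' n).norm.continuousAt.eventually (gt_mem_nhds h.2)
  filter_upwards [ht.eventually h2, ht.eventually hβe] with c' h3 h4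
  by_contra h5
  have h6 := hI.rep n hn (c', β c') (h4.2 rfl) h5
  linarith

/-- constant type along the segment -/
lemma type_segment {M : Set ℂ} {x₀ : ℚ} {R A : ℝ} {c : ℂ → ℂ} {T : ℂ → ℚ → Prop}
    (h : LimbData M x₀ R A c T) {t₀ : ℝ} (ht₀ : 0 < t₀) (htR : t₀ ≤ R)
    (hM : ∀ t : ℝ, 0 < t → t < t₀ → c (axisPt x₀ + t) ∈ M) :
    ∀ t : ℝ, 0 < t → t < t₀ → T (axisPt x₀ + t) x₀ := by
  set γ : ℝ → ℂ := fun t => axisPt x₀ + t with hγ
  have hγc : Continuous γ := by fun_prop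
  have hγD : ∀ t ∈ Ioo 0 t₀, γ t ∈ ball (axisPt x₀) R := by
    intro t ht
    rw [mem_ball, dist_eq_norm]
    simp only [hγ, add_sub_cancel_left]
    rw [Complex.norm_real, Real.norm_eq_abs, abs_of_pos ht.1]
    exact ht.2.trans_le htR
  have hre : ∀ t, (γ t).re = t := fun t => by simp [hγ, LimbData.axisPt_re]
  have hex : ∀ t ∈ Ioo 0 t₀, ∃ x, T (γ t) x := fun t ht =>
    h.T_ex _ (hγD t ht) (by rw [hre]; exact ht.1) (hM t ht.1 ht.2)
  classical
  set X : ℝ → ℤ × ℕ := fun t =>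
    if hx : ∃ x, T (γ t) x then (hx.choose.num, hx.choose.den) else (0, 0) with hX
  have hXT : ∀ t x, T (γ t) x → X t = (x.num, x.den) := by
    intro t x hx
    have hx' : ∃ x, T (γ t) x := ⟨x, hx⟩
    have h2 : hx'.choose = x := h.T_uniq _ _ _ hx'.choose_spec hx
    simp only [hX, dif_pos hx', h2]
  have hcont : ContinuousOn X (Ioo 0 t₀) := by
    intro t ht
    obtain ⟨x, hx⟩ := hex t ht
    have h2 := h.T_open _ (hγD t ht) x hx
    have h3 : ∀ᶠ t' in 𝓝[Ioo 0 t₀] t, X t' = X t := by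
      filter_upwards [mem_nhdsWithin_of_mem_nhds (hγc.continuousAt.eventually h2),
        self_mem_nhdsWithin] with t' h3 h4
      have h5 := h3 (hM t' h4.1 h4.2)
      rw [hXT t x hx, hXT t' x h5]
    exact (continuousWithinAt_const (b := X t)).congr_of_eventuallyEq h3 rfl
  have hmid : t₀ / 2 ∈ Ioo 0 t₀ := ⟨by positivity, by linarith⟩
  obtain ⟨x₁, hx₁⟩ := hex _ hmid
  have hall : ∀ t ∈ Ioo 0 t₀, T (γ t) x₁ := by
    intro t ht
    obtain ⟨x, hx⟩ := hex t ht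
    have h2 := isPreconnected_Ioo.constant hcont ht hmid
    rw [hXT _ _ hx, hXT _ _ hx₁, Prod.mk.injEq] at h2
    rw [← Rat.ext h2.1 h2.2]; exact hx
  have hlim : axisPt x₀ = axisPt x₁ := by
    have h2 : ∀ᶠ t : ℝ in 𝓝[>] 0, ‖γ t - axisPt x₁‖ ^ 2 ≤ A / x₁.den * t := by
      have h3 : ∀ᶠ t : ℝ in 𝓝[>] 0, t < t₀ :=
        mem_nhdsWithin_of_mem_nhds (gt_mem_nhds ht₀)
      filter_upwards [h3, self_mem_nhdsWithin] with t h4 h5
      have h6 := h.ply _ _ (hall t ⟨h5, h4⟩)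
      rwa [hre] at h6
    have h3 : Tendsto (fun t : ℝ => ‖γ t - axisPt x₁‖ ^ 2) (𝓝[>] 0)
        (𝓝 (‖γ 0 - axisPt x₁‖ ^ 2)) := by
      have : Continuous fun t : ℝ => ‖γ t - axisPt x₁‖ ^ 2 := by fun_prop
      exact this.continuousAt.tendsto.mono_left nhdsWithin_le_nhds
    have h4 : Tendsto (fun t : ℝ => A / x₁.den * t) (𝓝[>] 0) (𝓝 (A / x₁.den * 0)) := by
      have : Continuous fun t : ℝ => A / x₁.den * t := by fun_prop
      exact this.continuousAt.tendsto.mono_left nhdsWithin_le_nhds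
    have h5 := le_of_tendsto_of_tendsto h3 h4 h2
    rw [mul_zero] at h5
    have h6 : ‖γ 0 - axisPt x₁‖ = 0 := by
      have := norm_nonneg (γ 0 - axisPt x₁)
      nlinarith
    have h7 := norm_eq_zero.1 h6
    simp only [hγ, Complex.ofReal_zero, add_zero] at h7
    exact sub_eq_zero.1 h7
  have hxx : x₀ = x₁ := by
    have h3 : ‖axisPt x₀ - axisPt x₁‖ = 0 := by rw [hlim, sub_self, norm_zero]
    rw [LimbData.axisPt_sub] at h3
    have h4 : |(x₀ : ℝ) - x₁| = 0 := by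
      rcases mul_eq_zero.1 h3 with h5 | h5
      · exact absurd h5 (by positivity)
      · exact h5
    have h5 : (x₀ : ℝ) = x₁ := by linarith [abs_eq_zero.1 h4]
    exact_mod_cast h5
  intro t h1 h2
  have h3 := hall t ⟨h1, h2⟩
  rw [← hxx] at h3
  exact h3

/-- one stage of the tower -/
structure Stage (κ : ℝ) (n : ℕ) (K : Set ℂ) (r : ℂ) : Prop where
  npos : 0 < n
  data : ∃ (p q : ℕ) (b : ℂ), 0 < p ∧ p < q ∧ Nat.Coprime p q ∧ it r n b = b ∧
    mul n (r, b) = Complex.exp (2 * Real.pi * (p / q) * Complex.I) ∧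
    4 * Real.log 2 * (n : ℝ) ^ 2 * q ≤ κ * (min (p : ℝ) (q - p)) ^ 2
  sub : K ⊆ MS
  cpt : IsCompact K
  conn : IsPreconnected K
  root : r ∈ K
  opn : ∀ z ∈ K, z ≠ r → K \ {r} ∈ 𝓝[MS] z
  zero : (0 : ℂ) ∉ K
  front : r ∈ frontier MS
  next : ∃ (n₁ : ℕ) (c₁ b₁ : ℂ) (S : Set ℂ), n < n₁ ∧ Attr n₁ c₁ b₁ ∧ IsPreconnected S ∧ r ∈ S ∧
    c₁ ∈ S ∧ c₁ ∈ K ∧ S ⊆ insert r (interior MS)

theorem mk_stage {κ : ℝ} (hI : Inputs κ) {n p q : ℕ} {x : ℚ} {σ : ℂ → ℂ × ℂ} (hn : 0 < n)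
    (hp : 0 < p) (hpq : p < q) (hcop : Nat.Coprime p q) (hx : (x : ℝ) = p / q) (hxd : x.den = q)
    (hB : 288 * Real.log 2 / κ * (n : ℝ) ^ 2 * q ≤ (min (p : ℝ) (q - p)) ^ 2)
    (hσ : ContinuousOn σ (ball (axisPt x) (κ * (min (x : ℝ) (1 - x)) ^ 2 / n)))
    (hσ' : ∀ L ∈ ball (axisPt x) (κ * (min (x : ℝ) (1 - x)) ^ 2 / n),
      σ L ∈ Per n ∧ mul n (σ L) = Complex.exp L) :
    ∃ K : Set ℂ, Stage κ n K (σ (axisPt x)).1 ∧
      ∀ U : Set ℂ, IsPreconnected U → U ⊆ MS \ {(σ (axisPt x)).1} →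
        (∀ L ∈ ball (axisPt x) (κ * (min (x : ℝ) (1 - x)) ^ 2 / n), L.re < 0 → (σ L).1 ∈ U) →
        ∀ z ∈ U, z ∉ K := by
  have hκ := hI.κ_pos
  have hlog : 0 < Real.log 2 := Real.log_pos (by norm_num)
  have hq : 0 < q := hp.trans hpq
  have hq' : (0 : ℝ) < q := by exact_mod_cast hq
  have hn' : (0 : ℝ) < n := by exact_mod_cast hn
  have hp' : (0 : ℝ) < p := by exact_mod_cast hp
  have hpq' : (p : ℝ) < q := by exact_mod_cast hpq
  have hx0 : 0 < x := by
    have : (0 : ℝ) < x := by rw [hx]; positivity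
    exact_mod_cast this
  have hx1 : x < 1 := by
    have : (x : ℝ) < 1 := by rw [hx, div_lt_one hq']; exact hpq'
    exact_mod_cast this
  set m : ℝ := min (p : ℝ) (q - p) with hmdef
  have hm0 : 0 < m := lt_min hp' (by linarith)
  have hmin : min (x : ℝ) (1 - x) = m / q := by
    have h1 : 1 - (p : ℝ) / q = (q - p) / q := by field_simp
    rw [hx, hmdef, h1, min_div_div_right hq'.le]
  set R : ℝ := κ * (min (x : ℝ) (1 - x)) ^ 2 / n with hR
  have hRe : R = κ * m ^ 2 / (q ^ 2 * n) := by rw [hR, hmin]; field_simp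
  have hR0 : 0 < R := by rw [hRe]; positivity
  have hG := hI.good n hn x hx0 hx1
  obtain ⟨T, hT⟩ := hI.rot n hn
  have hA : 0 < 2 * n * Real.log 2 := by positivity
  have hL := limbData_of_section hR0 hA hG hσ hσ' hT (fun x hx hxM => hI.rep n hn x hx hxM)
  have hB' : 288 * Real.log 2 * (n : ℝ) ^ 2 * q ≤ κ * m ^ 2 := by
    have h1 : 288 * Real.log 2 / κ * (n : ℝ) ^ 2 * q = (288 * Real.log 2 * n ^ 2 * q) / κ := by
      ring
    rw [h1, div_le_iff₀ hκ] at hB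
    linarith
  have hAR : 9 * (2 * n * Real.log 2 / x.den) / R ≤ 1 / 16 := by
    rw [hxd, hRe]
    have h1 : 9 * (2 * n * Real.log 2 / q) / (κ * m ^ 2 / (q ^ 2 * n)) =
        18 * Real.log 2 * n ^ 2 * q / (κ * m ^ 2) := by
      field_simp
      ring
    rw [h1, div_le_div_iff₀ (by positivity) (by norm_num)]
    linarith
  have hA1 : 0 < 2 * n * Real.log 2 / x.den := by rw [hxd]; positivity
  have hAR2 : 2 * n * Real.log 2 / x.den < R := by
    rw [div_le_iff₀ hR0] at hAR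
    linarith
  have hadm : LimbData.Adm x R (2 * n * Real.log 2) x := by
    unfold LimbData.Adm
    rw [sub_self, abs_zero, mul_zero, add_zero]
    exact hAR2
  set r := (σ (axisPt x)).1 with hr
  have hcen : axisPt x ∈ ball (axisPt x) R := mem_ball_self hR0
  have hfr : r ∈ frontier MS := hL.root_frontier hI.cpt.isClosed
  have hsize := limb_size hG hσ hσ' hL hAR2
  have hKcl : IsClosed (LimbData.K (fun L => (σ L).1)
      (fun L x_1 => L ∈ ball (axisPt x) R ∧ T (σ L).1 (σ L).2 L x_1) x) :=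
    (hL.isCompact_K hI.cpt.isClosed hadm).isClosed
  set K := LimbData.K (fun L => (σ L).1)
      (fun L x_1 => L ∈ ball (axisPt x) R ∧ T (σ L).1 (σ L).2 L x_1) x with hKdef
  have hKo : ∀ z ∈ K, z ≠ r → K \ {r} ∈ 𝓝[MS] z := fun z hz hzr => hL.K_open hadm hz hzr
  have h0M : (0 : ℂ) ∈ MS := ball_sub_MS (mem_ball_self (by norm_num))
  have h0K : (0 : ℂ) ∉ K := by
    intro h0
    have h1 := hsize h0
    rw [mem_closedBall, dist_zero_left] at h1
    have h2 : r ∈ interior MS := by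
      rw [mem_interior]
      refine ⟨ball 0 (1 / 4), ball_sub_MS, isOpen_ball, ?_⟩
      rw [mem_ball_zero_iff]
      have h3 : ‖(σ (axisPt x)).1‖ ≤ 1 / 16 := h1.trans hAR
      have h4 : ‖r‖ ≤ 1 / 16 := h3
      linarith
    exact hfr.2 h2
  have hb := hσ' _ hcen
  have hax : axisPt x = 2 * Real.pi * (p / q) * Complex.I := by
    unfold axisPt
    rw [hx]; push_cast; ring
  -- attracting parameters near `r`
  obtain ⟨t₀, ht₀, ht₀R, hattr⟩ := attr_near hxd hR0 hG hσ hσ' hL.inj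
  have hnq : 0 < n * q := Nat.mul_pos hn hq
  have hint : ∀ t : ℝ, 0 < t → t < t₀ → (σ (axisPt x + t)).1 ∈ interior MS := by
    intro t h1 h2
    obtain ⟨b', hb'⟩ := hattr t h1 h2
    exact attr_interior hI hnq hb'
  have htype := type_segment hL ht₀ ht₀R.le (fun t h1 h2 => interior_subset (hint t h1 h2))
  refine ⟨K, ⟨hn, ⟨p, q, (σ (axisPt x)).2, hp, hpq, hcop, hb.1, ?_, ?_⟩, hL.K_sub hadm,
    hL.isCompact_K hI.cpt.isClosed hadm, hL.K_conn hI.cpt.isClosed hI.conn hadm, Or.inl rfl, hKo,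
    h0K, hfr, ?_⟩, ?_⟩
  · rw [← hax]; exact hb.2
  · have : 0 ≤ Real.log 2 * (n : ℝ) ^ 2 * q := by positivity
    linarith
  · -- the next period
    obtain ⟨b', hb'⟩ := hattr (t₀ / 2) (by positivity) (by linarith)
    refine ⟨n * q, (σ (axisPt x + ((t₀ / 2 : ℝ) : ℂ))).1, b',
      (fun t : ℝ => (σ (axisPt x + t)).1) '' Icc 0 (t₀ / 2), ?_, hb', ?_, ?_, ?_, ?_, ?_⟩
    · have : 1 < q := by omega
      nlinarith
    · refine isPreconnected_Icc.image _ ?_
      have h1 : ContinuousOn (fun L => (σ L).1) (ball (axisPt x) R) :=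
        continuous_fst.comp_continuousOn hσ
      refine h1.comp (by fun_prop) ?_
      intro t ht
      rw [mem_ball, dist_eq_norm, add_sub_cancel_left, Complex.norm_real, Real.norm_eq_abs,
        abs_of_nonneg ht.1]
      linarith [ht.2]
    · exact ⟨0, ⟨le_rfl, by positivity⟩, by simp [hr]⟩
    · exact ⟨t₀ / 2, ⟨by positivity, le_rfl⟩, rfl⟩
    · exact Or.inr ⟨_, htype (t₀ / 2) (by positivity) (by linarith), rfl⟩
    · rintro _ ⟨t, ht, rfl⟩
      rcases ht.1.eq_or_lt with h1 | h1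
      · left
        rw [← h1]; simp [hr]
      · right
        exact hint t h1 (by linarith [ht.2])
  · intro U hU hUM hUL z hzU hzK
    obtain ⟨δ, hδ, hδR, hmain⟩ := hL.main' hI.cpt hI.conn hadm
    obtain ⟨L, hLb, hLre⟩ := LimbData.left_nonempty x hδ
    have h1 := hmain 0 h0M h0K ⟨L, ⟨hLb, hLre⟩, rfl⟩
    have hLU : (σ L).1 ∈ U := hUL L (ball_subset_ball hδR hLb) hLre
    -- `U ⊆ K` because `z ∈ U ∩ K`
    have h2 : U ⊆ K := conn_sub hI.cpt.isClosed hKcl hKo hU hUM ⟨z, hzU, hzK⟩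
    have h3 : (σ L).1 ∈ K := h2 hLU
    have h4 : connectedComponentIn (MS \ {r}) 0 ⊆ K :=
      conn_sub hI.cpt.isClosed hKcl hKo isPreconnected_connectedComponentIn
        (connectedComponentIn_subset _ _) ⟨_, h1, h3⟩
    have h5 : (0 : ℂ) ∈ MS \ {r} := by
      refine ⟨h0M, fun h6 => h0K ?_⟩
      have h7 : (0 : ℂ) = r := h6
      rw [h7]; exact Or.inl rfl
    exact h0K (h4 (mem_connectedComponentIn h5))

/-- the step of the construction -/
theorem stage_step {κ : ℝ} (hI : Inputs κ) {n : ℕ} {K : Set ℂ} {r : ℂ} (h : Stage κ n K r) :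
    ∃ (n' : ℕ) (K' : Set ℂ) (r' : ℂ), n < n' ∧ Stage κ n' K' r' ∧ K' ⊆ K \ {r} := by
  have hκ := hI.κ_pos
  have hlog : 0 < Real.log 2 := Real.log_pos (by norm_num)
  obtain ⟨n₁, c₁, b₁, S, hnn, hA, hS, hrS, hcS, hcK, hSi⟩ := h.next
  have hn₁ : 0 < n₁ := h.npos.trans hnn
  obtain ⟨p, q, x, σ, V, hp, hpq, hcop, hx, hxd, hB, hσ, hσ', hne, hV, hcV, hVi, hVL⟩ :=
    next_root13 hI hn₁ hA r (B := 288 * Real.log 2 / κ) (by positivity)
  obtain ⟨K', hK', hK'2⟩ := mk_stage hI hn₁ hp hpq hcop hx hxd hB hσ hσ'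
  set r' := (σ (axisPt x)).1 with hr'
  refine ⟨n₁, K', r', hnn, hK', ?_⟩
  have hrM : r ∈ MS := h.sub h.root
  have hr'i : r' ∉ interior MS := hK'.front.2
  have hri : r ∉ interior MS := h.front.2
  -- `r ∉ K'`
  have hrK' : r ∉ K' := by
    refine hK'2 (V ∪ S) (IsPreconnected.union c₁ hcV hcS hV hS) ?_ ?_ r (Or.inr hrS)
    · rintro z (hz | hz)
      · refine ⟨interior_subset (hVi hz), fun h0 => hr'i ?_⟩
        rw [← mem_singleton_iff.1 h0]; exact hVi hz
      · rcases hSi hz with h0 | h0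
        · rw [h0]
          exact ⟨hrM, fun h1 => hne (mem_singleton_iff.1 h1).symm⟩
        · refine ⟨interior_subset h0, fun h1 => hr'i ?_⟩
          rw [← mem_singleton_iff.1 h1]; exact h0
    · intro L hL hre
      exact Or.inl (hVL L hL hre)
  -- `r' ∈ closure V`
  set R : ℝ := κ * (min (x : ℝ) (1 - x)) ^ 2 / n₁ with hR
  have hq : 0 < q := hp.trans hpq
  have hq' : (0 : ℝ) < q := by exact_mod_cast hq
  have hp' : (0 : ℝ) < p := by exact_mod_cast hp
  have hpq' : (p : ℝ) < q := by exact_mod_cast hpq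
  have hR0 : 0 < R := by
    have h1 : (0 : ℝ) < x := by rw [hx]; positivity
    have h2 : (x : ℝ) < 1 := by rw [hx, div_lt_one hq']; exact hpq'
    have h3 : 0 < min (x : ℝ) (1 - x) := lt_min h1 (by linarith)
    have h4 : (0 : ℝ) < n₁ := by exact_mod_cast hn₁
    positivity
  have hcen : axisPt x ∈ ball (axisPt x) R := mem_ball_self hR0
  have hr'V : r' ∈ closure V := by
    have hc : ContinuousAt (fun L => (σ L).1) (axisPt x) :=
      continuous_fst.continuousAt.comp (hσ.continuousAt (isOpen_ball.mem_nhds hcen))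
    rw [mem_closure_iff_nhds]
    intro N hN
    have h1 := hc.preimage_mem_nhds hN
    obtain ⟨δ, hδ, hδN⟩ := Metric.mem_nhds_iff.1
      (inter_mem h1 (isOpen_ball.mem_nhds hcen : ball (axisPt x) R ∈ 𝓝 (axisPt x)))
    obtain ⟨L, hLb, hLre⟩ := LimbData.left_nonempty x hδ
    exact ⟨(σ L).1, (hδN hLb).1, hVL L (hδN hLb).2 hLre⟩
  have hVr : IsPreconnected (insert r' V) :=
    hV.subset_closure (subset_insert _ _) (insert_subset hr'V subset_closure)
  have hcr : c₁ ≠ r := fun h0 => hri (h0 ▸ hVi hcV)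
  have h1 : insert r' V ⊆ K := by
    refine conn_sub hI.cpt.isClosed h.cpt.isClosed h.opn hVr ?_ ⟨c₁, Or.inr hcV, hcK⟩
    rintro z (hz | hz)
    · rw [hz]
      exact ⟨hK'.sub hK'.root, fun h0 => hne (mem_singleton_iff.1 h0)⟩
    · refine ⟨interior_subset (hVi hz), fun h0 => hri ?_⟩
      rw [← mem_singleton_iff.1 h0]; exact hVi hz
  have h2 : K' ⊆ K := by
    refine conn_sub hI.cpt.isClosed h.cpt.isClosed h.opn hK'.conn ?_
      ⟨r', hK'.root, h1 (Or.inl rfl)⟩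
    intro z hz
    exact ⟨hK'.sub hz, fun h0 => hrK' (by rw [← mem_singleton_iff.1 h0]; exact hz)⟩
  exact fun z hz => ⟨h2 hz, fun h0 => hrK' (by rw [← mem_singleton_iff.1 h0]; exact hz)⟩

/-- the first stage: a root on the main cardioid -/
theorem stage_zero {κ : ℝ} (hI : Inputs κ) : ∃ (n : ℕ) (K : Set ℂ) (r : ℂ), Stage κ n K r := by
  have hκ := hI.κ_pos
  have hlog : 0 < Real.log 2 := Real.log_pos (by norm_num)
  obtain ⟨P, hP⟩ := exists_nat_gt (288 * Real.log 2 / κ * 3)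
  have hP0 : (0 : ℝ) < P := lt_of_le_of_lt (by positivity) hP
  have hPn : 0 < P := by exact_mod_cast hP0
  set p : ℕ := P with hp
  set q : ℕ := 2 * P + 1 with hq
  have hpq : p < q := by omega
  have hq0 : 0 < q := by omega
  have hcop : Nat.Coprime p q := by
    rw [hp, hq]
    have : Nat.Coprime P (P * 2 + 1) := by simp
    rwa [mul_comm] at this
  set x : ℚ := (p : ℚ) / q with hx
  have hxr : (x : ℝ) = p / q := by rw [hx]; push_cast; rfl
  have hden : x.den = q := by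
    have h1 := Rat.den_div_eq_of_coprime (a := (p : ℤ)) (b := (q : ℤ)) (by omega)
      (by simpa using hcop)
    have h2 : (((p : ℤ) : ℚ) / ((q : ℤ) : ℚ)) = x := by rw [hx]; push_cast; rfl
    rw [h2] at h1
    exact_mod_cast h1
  have hx0 : 0 < x := by
    have h1 : (0 : ℚ) < p := by exact_mod_cast hPn
    have h2 : (0 : ℚ) < q := by exact_mod_cast hq0
    exact div_pos h1 h2
  have hx1 : x < 1 := by
    have h2 : (0 : ℚ) < q := by exact_mod_cast hq0
    rw [hx, div_lt_one h2]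
    exact_mod_cast hpq
  have hG := hI.good 1 one_pos x hx0 hx1
  set R : ℝ := κ * (min (x : ℝ) (1 - x)) ^ 2 / (1 : ℕ) with hR
  have hR0 : 0 < R := by
    have h1 : (0 : ℝ) < x := by exact_mod_cast hx0
    have h2 : (x : ℝ) < 1 := by exact_mod_cast hx1
    have h3 : 0 < min (x : ℝ) (1 - x) := lt_min h1 (by linarith)
    rw [hR]; push_cast; positivity
  set b : ℂ := Complex.exp (axisPt x) / 2 with hb
  have hPer : ((b - b ^ 2, b) : ℂ × ℂ) ∈ Per 1 := by
    have h1 : it (b - b ^ 2) 1 b = b := by rw [it_one, f_apply]; ring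
    exact h1
  have hm : mul 1 ((b - b ^ 2, b) : ℂ × ℂ) = Complex.exp (axisPt x) := by
    simp only [mul, Finset.prod_range_one, it_zero, hb]
    ring
  obtain ⟨σ, hσ, hσ', hσ0⟩ := exists_section hG (convex_ball _ _) hPer (mem_ball_self hR0) hm
  have hBB : 288 * Real.log 2 / κ * ((1 : ℕ) : ℝ) ^ 2 * q ≤ (min (p : ℝ) (q - p)) ^ 2 := by
    have h1 : min (p : ℝ) (q - p) = P := by
      rw [hp, hq]; push_cast
      exact min_eq_left (by linarith)
    rw [h1, hq]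
    push_cast
    have h2 : 288 * Real.log 2 / κ * 3 * P ≤ P * P :=
      mul_le_mul_of_nonneg_right hP.le hP0.le
    have h3 : (1 : ℝ) ≤ P := by exact_mod_cast hPn
    have h4 : 0 < 288 * Real.log 2 / κ := by positivity
    nlinarith
  obtain ⟨K, hK, -⟩ := mk_stage hI one_pos hPn hpq hcop hxr hden hBB hσ hσ'
  exact ⟨1, K, _, hK⟩

/-- **existence** of parameters with the property -/
theorem exists_param {κ : ℝ} (hI : Inputs κ) : ∃ c₀ ∈ MS,
    ∀ N : ℕ, ∃ (n p q : ℕ) (r b : ℂ), N ≤ n ∧ 0 < n ∧ 0 < p ∧ p < q ∧ Nat.Coprime p q ∧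
      it r n b = b ∧ mul n (r, b) = Complex.exp (2 * Real.pi * (p / q) * Complex.I) ∧
      4 * Real.log 2 * (n : ℝ) ^ 2 * q ≤ κ * (min (p : ℝ) (q - p)) ^ 2 ∧ r ≠ c₀ ∧
      connectedComponentIn (MS \ {r}) c₀ ≠ connectedComponentIn (MS \ {r}) 0 := by
  classical
  let X := {s : ℕ × Set ℂ × ℂ // Stage κ s.1 s.2.1 s.2.2}
  have hstep : ∀ s : X, ∃ s' : X, s.1.1 < s'.1.1 ∧ s'.1.2.1 ⊆ s.1.2.1 \ {s.1.2.2} := by
    rintro ⟨⟨n, K, r⟩, hs⟩
    obtain ⟨n', K', r', h1, h2, h3⟩ := stage_step hI hs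
    exact ⟨⟨⟨n', K', r'⟩, h2⟩, h1, h3⟩
  choose F hF1 hF2 using hstep
  obtain ⟨n₀, K₀, r₀, h₀⟩ := stage_zero hI
  let s : ℕ → X := fun m => F^[m] ⟨⟨n₀, K₀, r₀⟩, h₀⟩
  have hs : ∀ m, s (m + 1) = F (s m) := fun m => Function.iterate_succ_apply' F m _
  have hn : ∀ m, m ≤ (s m).1.1 := by
    intro m
    induction m with
    | zero => exact Nat.zero_le _
    | succ m ih =>
      have := hF1 (s m)
      rw [hs]; omega
  have hK : ∀ m, (s (m + 1)).1.2.1 ⊆ (s m).1.2.1 \ {(s m).1.2.2} := by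
    intro m; rw [hs]; exact hF2 (s m)
  have hne : (⋂ m, (s m).1.2.1).Nonempty := by
    refine IsCompact.nonempty_iInter_of_sequence_nonempty_isCompact_isClosed _ ?_ ?_ ?_ ?_
    · intro m; exact (hK m).trans sdiff_subset
    · intro m; exact ⟨_, (s m).2.root⟩
    · exact (s 0).2.cpt
    · intro m; exact (s m).2.cpt.isClosed
  obtain ⟨c₀, hc₀⟩ := hne
  rw [mem_iInter] at hc₀
  refine ⟨c₀, (s 0).2.sub (hc₀ 0), fun N => ?_⟩
  have hst := (s N).2
  obtain ⟨p, q, b, hp, hpq, hcop, hb, hm, hr⟩ := hst.data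
  have hcr : c₀ ∈ (s N).1.2.1 \ {(s N).1.2.2} := hK N (hc₀ (N + 1))
  refine ⟨(s N).1.1, p, q, (s N).1.2.2, b, hn N, hst.npos, hp, hpq, hcop, hb, hm, hr,
    fun h0 => hcr.2 h0.symm, fun h0 => ?_⟩
  have h1 : connectedComponentIn (MS \ {(s N).1.2.2}) c₀ ⊆ (s N).1.2.1 := by
    refine conn_sub hI.cpt.isClosed hst.cpt.isClosed hst.opn isPreconnected_connectedComponentIn
      (connectedComponentIn_subset _ _) ⟨c₀, mem_connectedComponentIn ⟨hst.sub hcr.1, hcr.2⟩, hcr.1⟩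
  have h0M : (0 : ℂ) ∈ MS := ball_sub_MS (mem_ball_self (by norm_num))
  have h2 : (0 : ℂ) ∈ MS \ {(s N).1.2.2} := by
    refine ⟨h0M, fun h3 => hst.zero ?_⟩
    have h4 : (0 : ℂ) = (s N).1.2.2 := h3
    rw [h4]; exact hst.root
  rw [h0] at h1
  exact hst.zero (h1 (mem_connectedComponentIn h2))

end NV

end Pool.Agent.Work.MLC
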