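import Pool.Agent.Work.MLC.Final6b

set_option autoImplicit false

/-! # Existence of parameters satisfying the hypothesis of the main theorem: definitions (helper6)

Plan. (NV1, helper6) near a root `r` (multiplier `exp (2 π i p / q)`, section `σ`) the parameters
`(σ (axisPt x + t)).1`, `0 < t < t₀`, have an attracting point of period `n q`.
(NV2) from an attracting point of period `n` one reaches a root `r'` of period `n` with multiplier
`exp (2 π i p' / q')`, `q'` large, through a connected set of attracting parameters.
(NV3, helper6) tower of nested limb pieces; a point of the intersection satisfies the hypothesis. -/

namespace Pool.Agent.Work.MLC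

open Filter Topology Metric Set

/-- attracting point of period dividing `n` -/
def Attr (n : ℕ) (c b : ℂ) : Prop := (c, b) ∈ Per n ∧ ‖mul n (c, b)‖ < 1

end Pool.Agent.Work.MLC
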