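import Pool.Agent.Work.MLC.Type51

/-!
# Rotation types are open (helper51)
-/

set_option autoImplicit false

open Complex Filter Topology Set Metric

namespace Pool.Agent.Work.MLC.Tr

/-- the value of `u` along a periodic curve at translated parameters -/
theorem u_translate {c b L : ℂ} {n : ℕ} {Λ : ℂ → ℂ} (h : Lin c b (exp L) n Λ) {g : ℝ → ℂ} {q : ℕ}
    {N : ℤ} (hper : ∀ s, g (s + 1) = g s + (q * L + N * (2 * Real.pi * I))) (s : ℝ) (k : ℤ) :
    G c (Λ (exp (g (s + k)))) = ((2 : ℝ) ^ n) ^ (q * k) * G c (Λ (exp (g s))) := by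
  have h1 : ∀ k : ℕ, ∀ s : ℝ, g (s + k) = g s + k * (q * L + N * (2 * Real.pi * I)) := by
    intro k
    induction k with
    | zero => intro s; simp
    | succ k ih =>
      intro s
      push_cast
      rw [← add_assoc, hper, ih]; ring
  have h2 : g (s + k) = g s + k * (q * L + N * (2 * Real.pi * I)) := by
    rcases le_or_gt 0 k with hk | hk
    · obtain ⟨k', rfl⟩ := Int.eq_ofNat_of_zero_le hk
      exact_mod_cast h1 k' s
    · obtain ⟨k', hk'⟩ := Int.eq_ofNat_of_zero_le (show 0 ≤ -k by omega)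
      have hk2 : k = -(k' : ℤ) := by omega
      subst hk2
      have := h1 k' (s + ((-(k' : ℤ) : ℤ) : ℝ))
      push_cast at this ⊢
      rw [neg_add_cancel_right] at this
      rw [this]; ring
  have h3 : exp (g (s + k)) = exp L ^ ((q : ℤ) * k) * exp (g s) := by
    rw [h2, exp_add, mul_comm (exp (g s))]
    congr 1
    have h4 : (k : ℂ) * (q * L + N * (2 * Real.pi * I))
        = ((q * k : ℤ) : ℂ) * L + ((k * N : ℤ) : ℂ) * (2 * Real.pi * I) := by
      push_cast; ring
    rw [h4, exp_add, exp_int_mul_two_pi_mul_I, mul_one, exp_int_mul]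
  rw [h3, h.u_zpow]

theorem continuous_G_comp {X : Type*} [TopologicalSpace X] {c w : X → ℂ} (hc : Continuous c)
    (hw : Continuous w) : Continuous fun x => G (c x) (w x) := by
  have h1 : Continuous fun x => (c x, w x) := hc.prodMk hw
  have h2 := continuous_G
  generalize hg : (fun p : ℂ × ℂ => G p.1 p.2) = F at h2
  have h3 : (fun x => G (c x) (w x)) = fun x => F (c x, w x) := by
    funext x
    rw [← hg]
  rw [h3]
  exact h2.comp h1

/-- **(R3)** rotation types are open. `P` is any space of parameters. -/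
theorem isOpen_type {P : Type*} [TopologicalSpace P] {n : ℕ} {c b L : P → ℂ} {Λ : P → ℂ → ℂ}
    (hc : Continuous c) (hL : Continuous L) (hΛ : Continuous fun x : P × ℂ => Λ x.1 x.2)
    (hlin : ∀ p, Lin (c p) (b p) (exp (L p)) n (Λ p)) (q : ℕ) (N : ℤ) :
    IsOpen {p | TypeL (c p) (Λ p) (L p) q N} := by
  rw [isOpen_iff_mem_nhds]
  rintro p0 ⟨g, hg, hpos, hper⟩
  set γ : P → ℝ → ℂ := fun p s => g s + s * (q * (L p - L p0)) with hγ
  have hu : Continuous fun x : P × ℝ => G (c x.1) (Λ x.1 (exp (γ x.1 x.2))) := by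
    have h1 : Continuous fun x : P × ℝ => γ x.1 x.2 := by
      have h1a : Continuous fun x : P × ℝ => L x.1 := hL.comp continuous_fst
      have h1b : Continuous fun x : P × ℝ => (x.2 : ℂ) := continuous_ofReal.comp continuous_snd
      exact (hg.comp continuous_snd).add
        (h1b.mul (continuous_const.mul (h1a.sub continuous_const)))
    have h2 : Continuous fun x : P × ℝ => (x.1, exp (γ x.1 x.2)) :=
      continuous_fst.prodMk (continuous_exp.comp h1)
    have h2b : Continuous fun x : P × ℝ => Λ x.1 (exp (γ x.1 x.2)) :=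
      Continuous.comp (g := fun x : P × ℂ => Λ x.1 x.2) hΛ h2
    have h2c : Continuous fun x : P × ℝ => c x.1 := hc.comp continuous_fst
    exact continuous_G_comp h2c h2b
  have hopen : IsOpen {x : P × ℝ | 0 < G (c x.1) (Λ x.1 (exp (γ x.1 x.2)))} :=
    isOpen_lt continuous_const hu
  have hsub : ({p0} : Set P) ×ˢ (Icc (0 : ℝ) 1)
      ⊆ {x : P × ℝ | 0 < G (c x.1) (Λ x.1 (exp (γ x.1 x.2)))} := by
    rintro ⟨p, s⟩ ⟨hp, -⟩
    rw [mem_singleton_iff] at hp
    subst hp
    show 0 < G (c p) (Λ p (exp (γ p s)))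
    have : γ p s = g s := by simp [hγ]
    rw [this]; exact hpos s
  obtain ⟨U, V, hU, -, hpU, hV, hUV⟩ := generalized_tube_lemma isCompact_singleton isCompact_Icc
    hopen hsub
  filter_upwards [hU.mem_nhds (hpU rfl)] with p hp
  have hperγ : ∀ s, γ p (s + 1) = γ p s + (q * L p + N * (2 * Real.pi * I)) := by
    intro s
    simp only [hγ]
    rw [hper s]; push_cast; ring
  refine ⟨γ p, ?_, ?_, hperγ⟩
  · simp only [hγ]; fun_prop
  · intro s
    have h1 : s = Int.fract s + (⌊s⌋ : ℤ) := (Int.fract_add_floor s).symm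
    rw [h1, u_translate (hlin p) hperγ]
    have h2 : 0 < G (c p) (Λ p (exp (γ p (Int.fract s)))) := by
      have h3 : ((p, Int.fract s) : P × ℝ) ∈ U ×ˢ V :=
        ⟨hp, hV ⟨Int.fract_nonneg s, (Int.fract_lt_one s).le⟩⟩
      have h4 := hUV h3
      simp only [mem_ofPred_eq] at h4
      exact h4
    positivity

end Pool.Agent.Work.MLC.Tr
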