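import Pool.Agent.Work.MLC.Eta
import Pool.Agent.Work.MLC.PlyBase

set_option autoImplicit false

/-! # `BD` from `Eta`; itineraries  (helper54) -/

namespace Pool.Agent.Work.MLC

open Filter Topology Metric Set Complex

lemma f_zero_right (c : ℂ) : f c 0 = c := by rw [f_apply]; ring

lemma G_zero_eq (c : ℂ) : G c 0 = G c c / 2 := by
  have h := G_f c 0
  rw [f_zero_right] at h
  linarith

/-- block (0): the inverse Boettcher map of a parameter outside the Mandelbrot set -/
theorem BD_eta {c : ℂ} {th : ℝ} (hc : 0 < G c c) (hth : eta c (G c c + th * I) = c) :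
    BD c (G c c) th (eta c) := by
  have h0 := G_zero_eq c
  refine ⟨hc, rfl, ?_, ?_, ?_, ?_, ?_, ?_, ?_, hth, ?_⟩
  · have := differentiableOn_eta_right c
    rwa [h0] at this
  · intro z hz
    rw [f_eta (by rw [h0]; exact hz)]
  · intro z _
    exact eta_add_two_pi c z
  · intro z hz
    exact eta_add_pi (by rw [h0]; exact hz)
  · intro z z' hz hz' h
    obtain ⟨k, hk⟩ := (eta_eq_iff (by rw [h0]; exact hz') (by rw [h0]; exact hz)).1 h.symm
    exact ⟨k, by rw [hk]; ring⟩
  · intro z hz
    exact G_eta (by rw [h0]; exact hz)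
  · intro y hy
    exact eta_surj (by rw [h0]; exact hy)
  · rw [Metric.tendsto_nhds]
    intro ε hε
    obtain ⟨R, hR⟩ := tendsto_eta_div_exp c ε hε
    refine (tendsto_comap.eventually (eventually_gt_atTop R)).mono fun z hz => ?_
    rw [dist_eq_norm]
    exact hR z hz

theorem exists_BD {c : ℂ} (hc : 0 < G c c) : ∃ th : ℝ, BD c (G c c) th (eta c) := by
  obtain ⟨L, hL, hLc⟩ := eta_surj (c := c) (z := c) (by rw [G_zero_eq]; linarith)
  refine ⟨L.im, BD_eta hc ?_⟩
  rw [← hL, Complex.re_add_im]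
  exact hLc

variable {c : ℂ} {g th : ℝ} {E s : ℂ → ℂ}

lemma sq_eq_one_iff_of_side' {w : ℂ} (h : w ^ 2 = 1) : w = 1 ∨ w = -1 := by
  have : (w - 1) * (w + 1) = 0 := by linear_combination h
  rcases mul_eq_zero.1 this with h | h
  · exact Or.inl (by linear_combination h)
  · exact Or.inr (by linear_combination h)

/-- a point is on the side of the branch `e` -/
def OnSide (c : ℂ) (s : ℂ → ℂ) (e : ℤ) (z : ℂ) : Prop := z = sb s e (f c z)

lemma onSide_sb (hS : SQ c g th E s) {z : ℂ} (hz : z ∉ ray E g th) (e : ℤ) :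
    OnSide c s e (sb s e z) := by
  unfold OnSide
  rw [hS.f_sb hz e]

lemma onSide_or (hS : SQ c g th E s) {z : ℂ} (hz : f c z ∉ ray E g th) :
    OnSide c s 0 z ∨ OnSide c s 1 z := hS.eq_sb hz

lemma onSide_unique (hS : SQ c g th E s) {z : ℂ} (hz : f c z ∉ ray E g th) {e e' : ℤ}
    (h : OnSide c s e z) (h' : OnSide c s e' z) : Even (e - e') :=
  (hS.sb_disj hz hz (h.symm.trans h')).2

lemma onSide_parity {e e' : ℤ} (h : Even (e - e')) {z : ℂ} : OnSide c s e z ↔ OnSide c s e' z := by
  obtain ⟨k, hk⟩ := h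
  have he : e = e' + 2 * k := by omega
  unfold OnSide
  rw [he, sb_add_two]

/-- sides are constant along connected sets which avoid the preimage of the critical value ray -/
lemma onSide_const (hS : SQ c g th E s) {S : Set ℂ} (hSc : IsPreconnected S)
    (hr : ∀ z ∈ S, f c z ∉ ray E g th) {e : ℤ} {x y : ℂ} (hx : x ∈ S) (hy : y ∈ S)
    (hxe : OnSide c s e x) : OnSide c s e y := by
  have hne : ∀ z ∈ S, sb s e (f c z) ≠ 0 := fun z hz => hS.sb_ne_zero (hr z hz) e
  have hcont : ContinuousOn (fun z => z / sb s e (f c z)) S := by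
    refine continuousOn_id.div ?_ hne
    have hf : ContinuousOn (fun z => f c z) S := by
      have : Continuous fun z => f c z := by unfold f; fun_prop
      exact this.continuousOn
    exact ((hS.differentiableOn_sb e).continuousOn).comp hf fun z hz => hr z hz
  have hmaps : MapsTo (fun z => z / sb s e (f c z)) S ({1, -1} : Set ℂ) := by
    intro z hz
    have h1 : (z / sb s e (f c z)) ^ 2 = 1 := by
      rw [div_pow, sb_sq, hS.sq _ (hr z hz), f_apply]
      have : z ^ 2 + c - c = z ^ 2 := by ring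
      rw [this, div_self]
      intro h0
      apply hne z hz
      have h2 : sb s e (f c z) ^ 2 = 0 := by
        rw [sb_sq, hS.sq _ (hr z hz), f_apply, this, h0]
      exact pow_eq_zero_iff (two_ne_zero) |>.1 h2
    rcases sq_eq_one_iff_of_side' h1 with h | h <;> simp [h]
  have := hSc.constant_of_mapsTo (Set.toFinite _).isDiscrete hcont hmaps hx hy
  unfold OnSide at hxe ⊢
  have hx1 : x / sb s e (f c x) = 1 := by
    rw [div_eq_one_iff_eq (hne x hx)]; exact hxe
  rw [hx1] at this
  exact ((div_eq_one_iff_eq (hne y hy)).1 this.symm)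

/-- points on external rays: the side is the half circle of the angle -/
lemma onSide_E (hB : BD c g th E) (hS : SQ c g th E s) {z : ℂ} (hz : g / 2 < z.re) (e k : ℤ)
    (h1 : th / 2 + e * Real.pi + k * (2 * Real.pi) < z.im)
    (h2 : z.im < th / 2 + (e + 1) * Real.pi + k * (2 * Real.pi)) :
    OnSide c s e (E z) := by
  unfold OnSide
  rw [← hB.dbl z hz]
  exact (SQ.sb_E hB hS hz e k h1 h2).symm

/-- the letter (a bit) of a point -/
noncomputable def letter (c : ℂ) (s : ℂ → ℂ) (z : ℂ) : ℤ := by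
  classical exact if OnSide c s 0 z then 0 else 1

lemma letter_bit (c : ℂ) (s : ℂ → ℂ) (z : ℂ) : letter c s z = 0 ∨ letter c s z = 1 := by
  unfold letter
  split_ifs
  · exact Or.inl rfl
  · exact Or.inr rfl

lemma onSide_letter (hS : SQ c g th E s) {z : ℂ} (hz : f c z ∉ ray E g th) :
    OnSide c s (letter c s z) z := by
  unfold letter
  split_ifs with h
  · exact h
  · exact (onSide_or hS hz).resolve_left h

/-- the itinerary (a sequence of bits) of a point -/
noncomputable def itin (c : ℂ) (s : ℂ → ℂ) (b : ℂ) (m : ℕ) : ℤ := letter c s (it c m b)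

lemma itin_bit (c : ℂ) (s : ℂ → ℂ) (b : ℂ) (m : ℕ) : itin c s b m = 0 ∨ itin c s b m = 1 :=
  letter_bit _ _ _

lemma G_it_zero {b : ℂ} (hb : G c b = 0) (m : ℕ) : G c (it c m b) = 0 := by
  induction m with
  | zero => exact hb
  | succ m ih => rw [it_succ, G_f, ih, mul_zero]

lemma notMem_ray_of_G_zero (hB : BD c g th E) {z : ℂ} (hz : G c z = 0) : z ∉ ray E g th :=
  fun h => absurd (hB.G_ray h) (by rw [hz]; exact not_le.2 hB.pos)

lemma itin_spec (hB : BD c g th E) (hS : SQ c g th E s) {b : ℂ} (hb : G c b = 0) (m : ℕ) :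
    it c m b = sb s (itin c s b m) (it c (m + 1) b) := by
  have h : f c (it c m b) ∉ ray E g th := by
    rw [← it_succ]; exact notMem_ray_of_G_zero hB (G_it_zero hb _)
  have := onSide_letter hS h
  unfold OnSide at this
  rw [← it_succ] at this
  exact this

lemma itin_unique (hB : BD c g th E) (hS : SQ c g th E s) {b : ℂ} (hb : G c b = 0) {w : ℕ → ℤ}
    (hw : ∀ m, w m = 0 ∨ w m = 1) (h : ∀ m, it c m b = sb s (w m) (it c (m + 1) b)) (m : ℕ) :
    w m = itin c s b m := by
  have h0 : it c (m + 1) b ∉ ray E g th := notMem_ray_of_G_zero hB (G_it_zero hb _)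
  obtain ⟨k, hk⟩ := (hS.sb_disj h0 h0 ((h m).symm.trans (itin_spec hB hS hb m))).2
  rcases hw m with h1 | h1 <;> rcases itin_bit c s b m with h2 | h2 <;> omega

lemma itin_shift {b : ℂ} (m k : ℕ) : itin c s b (m + k) = itin c s (it c k b) m := by
  unfold itin; rw [it_add]

lemma itin_per {n : ℕ} {b : ℂ} (hn : it c n b = b) (m : ℕ) :
    itin c s b (m + n) = itin c s b m := by
  rw [itin_shift, hn]

/-- `g_m (b_m) = b` along the itinerary -/
lemma gc_itin {b : ℂ} {w : ℕ → ℤ}
    (h : ∀ m, it c m b = sb s (w m) (it c (m + 1) b)) (m : ℕ) : gc s w m (it c m b) = b := by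
  induction m with
  | zero => rfl
  | succ m ih => rw [gc_succ, ← h m, ih]

/-- bounded orbits have `G = 0` -/
lemma G_zero_of_per {n : ℕ} (hn : 0 < n) {b : ℂ} (h : it c n b = b) : G c b = 0 := by
  have h1 : G c (it c n b) = 2 ^ n * G c b := by
    clear h hn
    induction n with
    | zero => simp
    | succ n ih => rw [it_succ, G_f, ih, pow_succ]; ring
  rw [h] at h1
  have h2 : (2 : ℝ) ≤ 2 ^ n := by
    calc (2 : ℝ) = 2 ^ 1 := by norm_num
      _ ≤ 2 ^ n := pow_le_pow_right₀ (by norm_num) hn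
  have h3 := G_nonneg c b
  nlinarith

/-- **the itinerary of a periodic point** -/
theorem exists_word (hB : BD c g th E) (hS : SQ c g th E s) {n : ℕ} (hn : 0 < n) {b : ℂ}
    (h : it c n b = b) : ∃ w : ℕ → ℤ, (∀ i, w i = 0 ∨ w i = 1) ∧ (∀ i, w (i + n) = w i) ∧
      b ∈ Ug c g ∧ gc s w n b = b ∧ (∀ m, it c m b = sb s (w m) (it c (m + 1) b)) := by
  have hb := G_zero_of_per hn h
  refine ⟨itin c s b, itin_bit c s b, itin_per h, ?_, ?_, itin_spec hB hS hb⟩
  · show G c b < g
    rw [hb]; exact hB.pos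
  · have := gc_itin (itin_spec hB hS hb) n
    rwa [h] at this

/-- conversely a fixed point of `g_n` is a periodic point with this itinerary -/
theorem it_of_gc_fix (hB : BD c g th E) (hS : SQ c g th E s) {n : ℕ} {w : ℕ → ℤ} {b : ℂ}
    (hb : b ∈ Ug c g) (h : gc s w n b = b) : it c n b = b := by
  have := it_gc hB hS w n hb
  rwa [h] at this

end Pool.Agent.Work.MLC
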