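import Mathlib
import Pool.Agent.Work.MLC.Circle

/-!
MLC project, exterior PLY, block (4): clamping an orbit of the truncated doubling maps.
Angles are in turns.
-/

set_option autoImplicit false

namespace Pool.Agent.Work.MLC.Circ

open Set CircleDeg1Lift

/-- Displacement of the iterates of a degree one circle map. -/
theorem pow_sub_mul_translationNumber (f : CircleDeg1Lift) (J : ℕ) (x : ℝ) :
    |(f ^ J) x - x - J * translationNumber f| ≤ 2 := by
  have h0 := dist_pow_map_zero_mul_translationNumber_le f J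
  rw [Real.dist_eq] at h0
  have h1 : (f ^ J) x = (f ^ J) (Int.fract x) + ⌊x⌋ := by
    rw [← map_add_int, Int.fract_add_floor]
  have h2 : (f ^ J) 0 ≤ (f ^ J) (Int.fract x) := (f ^ J).monotone (Int.fract_nonneg x)
  have h3 : (f ^ J) (Int.fract x) ≤ (f ^ J) 0 + 1 := by
    have h4 : (f ^ J) (Int.fract x) ≤ (f ^ J) (0 + 1) :=
      (f ^ J).monotone (by rw [zero_add]; exact (Int.fract_lt_one x).le)
    rwa [(f ^ J).map_add_one] at h4
  have h5 := Int.fract_nonneg x
  have h6 := (Int.fract_lt_one x).le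
  have h7 := Int.floor_add_fract x
  rw [abs_le] at h0 ⊢
  constructor <;> linarith [h0.1, h0.2]

/-- **Clamp.** For every `N`, `y` and `0 < δ ≤ 1/2` there are angles `T m`, `X m` with `X m` in the
open half circle of the letter `w m`, `T (m+1) = 2 X m - k m` at distance `≥ δ` from `θ + ℤ`,
`|X m - T m| ≤ 3 δ / 2`; `T 0` is the starting point of the backward orbit of `y` and
`|T N - y| ≤ δ`. -/
theorem ply_clamp (w : ℕ → ℤ) (θ : ℝ) (N : ℕ) (y δ : ℝ) (hδ : 0 < δ) (hδ' : δ ≤ 1 / 2) :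
    ∃ (T X : ℕ → ℝ) (k : ℕ → ℤ),
      (∀ m < N, (θ + w m) / 2 + k m < X m ∧ X m < (θ + w m) / 2 + k m + 1 / 2) ∧
      (∀ m < N, T (m + 1) = 2 * X m - k m) ∧
      (∀ m < N, θ + w m + k m + δ ≤ T (m + 1) ∧ T (m + 1) ≤ θ + w m + k m + 1 - δ) ∧
      (∀ m < N, |X m - T m| ≤ 3 * δ / 2) ∧
      T 0 = hw w θ N y ∧ |T N - y| ≤ δ := by
  have hmem := fun i (hi : i < N) => gw_hw_mem w θ N y i hi
  choose! k hk1 hk2 hk3 using hmem
  set x : ℕ → ℝ := fun m => gw w θ m (hw w θ N y) with hx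
  have hxN : x N = y := gw_hw w θ N y
  have hx0 : x 0 = hw w θ N y := rfl
  -- the clamped point, with index shifted
  set C : ℕ → ℝ := fun m => max (θ + w m + k m + δ) (min (x (m + 1)) (θ + w m + k m + 1 - δ))
    with hC
  set T : ℕ → ℝ := fun m => if m = 0 then x 0 else C (m - 1) with hT
  have hT0 : T 0 = x 0 := by simp [hT]
  have hTs : ∀ m, T (m + 1) = C m := by intro m; simp [hT]
  have hrange : ∀ m < N, θ + w m + k m ≤ x (m + 1) ∧ x (m + 1) ≤ θ + w m + k m + 1 := by
    intro m hm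
    have h1 := hk1 m hm
    have h2 := hk2 m hm
    have h3 := hk3 m hm
    simp only [hx]
    constructor <;> linarith
  have hCx : ∀ m < N, |C m - x (m + 1)| ≤ δ := by
    intro m hm
    obtain ⟨h1, h2⟩ := hrange m hm
    simp only [hC]
    rw [abs_le]
    rcases le_total (x (m + 1)) (θ + w m + k m + 1 - δ) with h3 | h3
    · rw [min_eq_left h3]
      rcases le_total (θ + w m + k m + δ) (x (m + 1)) with h4 | h4
      · rw [max_eq_right h4]; constructor <;> linarith
      · rw [max_eq_left h4]; constructor <;> linarith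
    · rw [min_eq_right h3, max_eq_right (by linarith)]
      constructor <;> linarith
  have hCr : ∀ m, θ + w m + k m + δ ≤ C m ∧ C m ≤ θ + w m + k m + 1 - δ := by
    intro m
    simp only [hC]
    refine ⟨le_max_left _ _, max_le (by linarith) (min_le_right _ _)⟩
  refine ⟨T, fun m => (T (m + 1) + k m) / 2, k, ?_, ?_, ?_, ?_, ?_, ?_⟩
  · intro m _
    obtain ⟨h1, h2⟩ := hCr m
    simp only
    rw [hTs]
    constructor <;> linarith
  · intro m _
    ring
  · intro m _
    rw [hTs]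
    exact hCr m
  · intro m hm
    have h1 := hCx m hm
    have h2 : x m = (x (m + 1) + k m) / 2 := by
      have := hk3 m hm
      simp only [hx]
      linarith
    have h3 : |x m - T m| ≤ δ := by
      cases m with
      | zero => rw [hT0]; simpa using hδ.le
      | succ m =>
        rw [hTs, abs_sub_comm]
        exact hCx m (by omega)
    simp only
    rw [hTs]
    rw [abs_le] at h1 h3 ⊢
    constructor <;> linarith [h1.1, h1.2, h3.1, h3.2]
  · rw [hT0, hx0]
  · rcases Nat.eq_zero_or_pos N with h0 | h0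
    · subst h0
      rw [hT0, hxN]
      simpa using hδ.le
    · obtain ⟨M, rfl⟩ : ∃ M, N = M + 1 := ⟨N - 1, by omega⟩
      rw [hTs, ← hxN]
      exact hCx M (by omega)

/-- Clamp over `J` periods: the total displacement is `J ν` up to a bounded error. -/
theorem ply_clamp_period (w : ℕ → ℤ) (θ : ℝ) (n : ℕ) (hw' : ∀ i, w (i + n) = w i) (J : ℕ)
    (δ : ℝ) (hδ : 0 < δ) (hδ' : δ ≤ 1 / 2) :
    ∃ (T X : ℕ → ℝ) (k : ℕ → ℤ),
      (∀ m < n * J, (θ + w m) / 2 + k m < X m ∧ X m < (θ + w m) / 2 + k m + 1 / 2) ∧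
      (∀ m < n * J, T (m + 1) = 2 * X m - k m) ∧
      (∀ m < n * J, θ + w m + k m + δ ≤ T (m + 1) ∧ T (m + 1) ≤ θ + w m + k m + 1 - δ) ∧
      (∀ m < n * J, |X m - T m| ≤ 3 * δ / 2) ∧
      |T (n * J) - T 0 - J * nu w n θ| ≤ 3 := by
  obtain ⟨T, X, k, h1, h2, h3, h4, h5, h6⟩ := ply_clamp w θ (n * J) 0 δ hδ hδ'
  refine ⟨T, X, k, h1, h2, h3, h4, ?_⟩
  have h7 := gw_hw w θ (n * J) 0
  rw [gw_mul w θ n J hw', ← h5] at h7
  have h8 := pow_sub_mul_translationNumber (gw w θ n) J (T 0)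
  rw [h7] at h8
  unfold nu
  rw [abs_le] at h6 h8 ⊢
  constructor <;> linarith [h6.1, h6.2, h8.1, h8.2]

/-- The same with `T 0` in `[0, 1)` replaced by any bounded interval is not needed: only the
difference `T (n J) - T 0` enters. In radians: -/
theorem ply_clamp_rad (w : ℕ → ℤ) (θ : ℝ) (n : ℕ) (hw' : ∀ i, w (i + n) = w i) (J : ℕ)
    (d : ℝ) (hd : 0 < d) (hd' : d ≤ 1) :
    ∃ (T X : ℕ → ℝ) (k : ℕ → ℤ),
      (∀ m < n * J, Real.pi * (θ + w m) + 2 * Real.pi * k m < X m ∧
        X m < Real.pi * (θ + w m) + 2 * Real.pi * k m + Real.pi) ∧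
      (∀ m < n * J, T (m + 1) = 2 * X m - 2 * Real.pi * k m) ∧
      (∀ m < n * J, 2 * Real.pi * (θ + w m + k m) + d ≤ T (m + 1) ∧
        T (m + 1) ≤ 2 * Real.pi * (θ + w m + k m + 1) - d) ∧
      (∀ m < n * J, |X m - T m| ≤ 3 * d / 2) ∧
      |T (n * J) - T 0 - J * (2 * Real.pi * nu w n θ)| ≤ 6 * Real.pi := by
  have hpi := Real.pi_pos
  have hpi3 := Real.pi_gt_three
  obtain ⟨T, X, k, h1, h2, h3, h4, h5⟩ := ply_clamp_period w θ n hw' J (d / (2 * Real.pi))
    (by positivity) (by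
      rw [div_le_iff₀ (by positivity)]
      nlinarith)
  have hd2 : 2 * Real.pi * (d / (2 * Real.pi)) = d := by field_simp
  refine ⟨fun m => 2 * Real.pi * T m, fun m => 2 * Real.pi * X m, k, ?_, ?_, ?_, ?_, ?_⟩
  · intro m hm
    obtain ⟨ha, hb⟩ := h1 m hm
    constructor <;> nlinarith
  · intro m hm
    simp only
    rw [h2 m hm]; ring
  · intro m hm
    obtain ⟨ha, hb⟩ := h3 m hm
    constructor
    · have := mul_le_mul_of_nonneg_left ha (by positivity : 0 ≤ 2 * Real.pi)
      simp only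
      linarith
    · have := mul_le_mul_of_nonneg_left hb (by positivity : 0 ≤ 2 * Real.pi)
      simp only
      linarith
  · intro m hm
    have ha := mul_le_mul_of_nonneg_left (h4 m hm) (by positivity : 0 ≤ 2 * Real.pi)
    simp only
    rw [← mul_sub, abs_mul, abs_of_pos (by positivity : 0 < 2 * Real.pi)]
    linarith
  · have ha := mul_le_mul_of_nonneg_left h5 (by positivity : 0 ≤ 2 * Real.pi)
    simp only
    have e : 2 * Real.pi * T (n * J) - 2 * Real.pi * T 0 - J * (2 * Real.pi * nu w n θ) =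
        2 * Real.pi * (T (n * J) - T 0 - J * nu w n θ) := by ring
    rw [e, abs_mul, abs_of_pos (by positivity : 0 < 2 * Real.pi)]
    linarith

end Pool.Agent.Work.MLC.Circ
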