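import Mathlib

/-! # The limit lemma of the exterior PLY inequality (module P7a)  (helper13) -/

set_option autoImplicit false

namespace Pool.Agent.Work.MLC

open Filter Topology Finset

/-- sums of a periodic sequence over `J` periods -/
theorem sum_range_mul_periodic {n : ℕ} {a : ℕ → ℝ} (hper : ∀ m, a (m + n) = a m) (J : ℕ) :
    ∑ m ∈ range (n * J), a m = J * ∑ m ∈ range n, a m := by
  induction J with
  | zero => simp
  | succ J ih =>
    have h1 : ∀ x, a (n * J + x) = a x := by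
      intro x
      clear ih
      induction J with
      | zero => simp
      | succ J ih2 => rw [← ih2, ← hper (n * J + x)]; congr 1; ring
    rw [Nat.mul_succ, sum_range_add, ih, sum_congr rfl fun x _ => h1 x]
    push_cast; ring

theorem sum_range_shift_periodic {n : ℕ} {a : ℕ → ℝ} (hper : ∀ m, a (m + n) = a m) :
    ∑ m ∈ range n, a (m + 1) = ∑ m ∈ range n, a m := by
  have h1 := sum_range_succ' a n
  have h2 := sum_range_succ a n
  have h3 : a n = a 0 := by simpa using hper 0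
  rw [h2, h3] at h1
  linarith

/-- the Cauchy-Schwarz step -/
theorem lim_sum_sqrt_le {n : ℕ} {a : ℕ → ℝ} (ha : ∀ m, 0 ≤ a m) (hper : ∀ m, a (m + n) = a m)
    {B : ℝ} (hB : ∑ m ∈ range n, a m ≤ B) (J : ℕ) :
    ∑ m ∈ range (n * J), √(a m + a (m + 1)) ≤ J * √(2 * n * B) := by
  have hB0 : 0 ≤ B := (sum_nonneg fun m _ => ha m).trans hB
  have h1 : (∑ m ∈ range (n * J), √(a m + a (m + 1))) ^ 2
      ≤ (range (n * J)).card * ∑ m ∈ range (n * J), √(a m + a (m + 1)) ^ 2 :=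
    sq_sum_le_card_mul_sum_sq
  have h2 : ∑ m ∈ range (n * J), √(a m + a (m + 1)) ^ 2 = J * (2 * ∑ m ∈ range n, a m) := by
    have h3 : ∀ m ∈ range (n * J), √(a m + a (m + 1)) ^ 2 = a m + a (m + 1) := fun m _ =>
      Real.sq_sqrt (add_nonneg (ha _) (ha _))
    rw [sum_congr rfl h3, sum_add_distrib, sum_range_mul_periodic hper J,
      sum_range_mul_periodic (a := fun m => a (m + 1)) (fun m => by
        show a (m + n + 1) = a (m + 1)
        rw [add_right_comm, hper]) J, sum_range_shift_periodic hper]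
    ring
  rw [h2, card_range] at h1
  have h4 : (∑ m ∈ range (n * J), √(a m + a (m + 1))) ^ 2 ≤ (J * √(2 * n * B)) ^ 2 := by
    rw [mul_pow, Real.sq_sqrt (by positivity)]
    refine h1.trans ?_
    push_cast
    have h5 : (0 : ℝ) ≤ n * J * J := by positivity
    nlinarith [mul_le_mul_of_nonneg_left hB h5]
  exact (abs_le_of_sq_le_sq' h4 (by positivity)).2

/-- `‖J z‖ ≤ K + J C` for all `J` gives `‖z‖ ≤ C` -/
theorem norm_le_of_mul_le {z : ℂ} {K C : ℝ} (h : ∀ J : ℕ, ‖(J : ℂ) * z‖ ≤ K + J * C) :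
    ‖z‖ ≤ C := by
  have h1 : Tendsto (fun J : ℕ => K / (J : ℝ) + C) atTop (𝓝 (0 + C)) :=
    (tendsto_const_div_atTop_nhds_zero_nat K).add tendsto_const_nhds
  rw [zero_add] at h1
  refine ge_of_tendsto h1 ?_
  filter_upwards [eventually_gt_atTop 0] with J hJ
  have hJ' : (0 : ℝ) < J := by exact_mod_cast hJ
  have h2 := h J
  rw [norm_mul, Complex.norm_natCast] at h2
  have h3 : ‖z‖ = (J * ‖z‖) / J := by field_simp
  rw [h3, div_add' _ _ _ hJ'.ne']
  gcongr
  linarith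

/-- limit lemma -/
theorem ply_lim {L : ℂ} {ν K₀ : ℝ} {n : ℕ} {a : ℕ → ℝ} (ha : ∀ m, 0 ≤ a m)
    (hper : ∀ m, a (m + n) = a m) (hsum : ∑ m ∈ range n, a m ≤ 2 * Real.pi * L.re)
    (h : ∀ J : ℕ, ∃ D : ℝ, |D| ≤ 6 * Real.pi ∧
      ‖(J : ℂ) * L - Complex.I * ((J : ℂ) * (2 * Real.pi * ν) + D)‖ ≤
        K₀ + 9 / (2 * √Real.pi) * ∑ m ∈ range (n * J), √(a m + a (m + 1))) :
    ‖L - 2 * Real.pi * Complex.I * ν‖ ^ 2 ≤ 81 * n * L.re := by
  have hπ : 0 < Real.pi := Real.pi_pos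
  have hL0 : 0 ≤ L.re := by
    have h1 : 0 ≤ 2 * Real.pi * L.re := (sum_nonneg fun m _ => ha m).trans hsum
    by_contra hcon
    push Not at hcon
    nlinarith
  have key : ‖L - 2 * Real.pi * Complex.I * ν‖ ≤
      9 / (2 * √Real.pi) * √(2 * n * (2 * Real.pi * L.re)) := by
    refine norm_le_of_mul_le (K := K₀ + 6 * Real.pi) fun J => ?_
    obtain ⟨D, hD, hJ⟩ := h J
    have h2 : (J : ℂ) * (L - 2 * Real.pi * Complex.I * ν) =
        ((J : ℂ) * L - Complex.I * ((J : ℂ) * (2 * Real.pi * ν) + D)) + Complex.I * D := by ring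
    rw [h2]
    have h3 : ‖Complex.I * (D : ℂ)‖ ≤ 6 * Real.pi := by
      rw [norm_mul, Complex.norm_I, one_mul, Complex.norm_real]; exact hD
    have h4 := lim_sum_sqrt_le ha hper hsum J
    have h5 : 9 / (2 * √Real.pi) * ∑ m ∈ range (n * J), √(a m + a (m + 1)) ≤
        9 / (2 * √Real.pi) * (J * √(2 * n * (2 * Real.pi * L.re))) := by gcongr
    refine (norm_add_le _ _).trans ?_
    linarith
  have h6 : ‖L - 2 * Real.pi * Complex.I * ν‖ ^ 2 ≤
      (9 / (2 * √Real.pi) * √(2 * n * (2 * Real.pi * L.re))) ^ 2 := by gcongr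
  refine h6.trans (le_of_eq ?_)
  rw [mul_pow, div_pow, mul_pow, Real.sq_sqrt hπ.le, Real.sq_sqrt (by positivity)]
  field_simp
  ring

end Pool.Agent.Work.MLC
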