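import Mathlib
import Pool.Agent.Work.MLC.PlyBase
import Pool.Agent.Work.MLC.PlyWind

set_option autoImplicit false

/-! # The winding number of `h ∘ g_m` along the equipotential `{G = r}`, `g / 2 < r < g`  (helper14) -/

namespace Pool.Agent.Work.MLC

open Filter Topology Metric Set Complex

variable {c : ℂ} {g th : ℝ} {E s : ℂ → ℂ}

/-- the loop `x ↦ E (r + i x)` -/
noncomputable def lp (E : ℂ → ℂ) (r x : ℝ) : ℂ := E (r + x * I)

namespace BD

lemma continuousOn_E (hB : BD c g th E) : ContinuousOn E {z | g / 2 < z.re} :=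
  hB.hol.continuousOn

lemma continuous_lp2 (hB : BD c g th E) {r : ℝ} (hr : g / 2 < r) :
    Continuous fun p : ℝ × ℝ => lp E (r + |p.1|) p.2 := by
  unfold lp
  refine hB.continuousOn_E.comp_continuous (by fun_prop) (fun p => ?_)
  have := abs_nonneg p.1
  simp only [mem_ofPred_eq, add_re, ofReal_re, mul_re, ofReal_im, I_re, I_im, mul_zero, zero_mul,
    sub_zero, add_zero]
  linarith

lemma continuous_lp (hB : BD c g th E) {r : ℝ} (hr : g / 2 < r) :
    Continuous fun x : ℝ => lp E r x := by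
  have := (hB.continuous_lp2 hr).comp (f := fun x : ℝ => ((0 : ℝ), x)) (by fun_prop)
  simpa [Function.comp_def] using this

lemma lp_per (hB : BD c g th E) {r : ℝ} (hr : g / 2 < r) (x : ℝ) :
    lp E r (x + 2 * Real.pi) = lp E r x := by
  unfold lp
  have := hB.per (r + x * I) (by simpa using hr)
  rw [← this]
  congr 1
  push_cast; ring

lemma lp_mem (hB : BD c g th E) {r : ℝ} (hr : g / 2 < r) {g' : ℝ} (hr' : r < g') (x : ℝ) :
    lp E r x ∈ Ug c g' :=
  hB.E_mem (by simpa using hr) (by simpa using hr')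

lemma G_lp (hB : BD c g th E) {r : ℝ} (hr : g / 2 < r) (x : ℝ) : G c (lp E r x) = r := by
  unfold lp
  rw [hB.G_E _ (by simpa using hr)]
  simp

/-- block (i): the equipotential winds once around every point of `{G < r}` -/
lemma wd_sub (hB : BD c g th E) {r : ℝ} (hr : g / 2 < r) {w : ℂ} (hw : G c w < r) :
    Wd (fun x => lp E r x - w) 1 := by
  -- far away
  have hfar : ∃ t : ℝ, 0 ≤ t ∧ ∀ x : ℝ,
      ‖(lp E (r + t) x - w) / Complex.exp ((r + t : ℝ) + x * I) - 1‖ < 1 := by
    have h1 := hB.asym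
    have h2 : Tendsto (fun z : ℂ => w / Complex.exp z) (comap Complex.re atTop) (𝓝 0) := by
      rw [tendsto_zero_iff_norm_tendsto_zero]
      have : (fun z : ℂ => ‖w / Complex.exp z‖) = (fun t : ℝ => ‖w‖ / Real.exp t) ∘ Complex.re := by
        funext z
        simp [Complex.norm_exp]
      rw [this]
      exact (Tendsto.div_atTop tendsto_const_nhds Real.tendsto_exp_atTop).comp tendsto_comap
    have h3 := h1.sub h2
    rw [sub_zero] at h3
    have h4 := h3.eventually (Metric.ball_mem_nhds (1 : ℂ) one_pos)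
    rw [eventually_comap] at h4
    obtain ⟨T, hT⟩ := h4.exists_forall_of_atTop
    refine ⟨max 0 (T - r), le_max_left _ _, fun x => ?_⟩
    have h5 := hT (r + max 0 (T - r)) (by have := le_max_right 0 (T - r); linarith)
      (((r + max 0 (T - r) : ℝ) : ℂ) + x * I) (by simp)
    have h6 : E (((r + max 0 (T - r) : ℝ) : ℂ) + x * I) /
        Complex.exp (((r + max 0 (T - r) : ℝ) : ℂ) + x * I)
        - w / Complex.exp (((r + max 0 (T - r) : ℝ) : ℂ) + x * I) ∈ ball (1 : ℂ) 1 := h5
    rw [mem_ball, dist_eq_norm] at h6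
    rw [sub_div]
    exact h6
  obtain ⟨t, ht, hfar⟩ := hfar
  have hrt : g / 2 < r + t := by linarith
  have hex : Wd (fun x : ℝ => Complex.exp ((r + t : ℝ) + x * I)) 1 :=
    ⟨fun x => ((r + t : ℝ) : ℂ) + x * I, by fun_prop, fun x => rfl, fun x => by push_cast; ring⟩
  have hq : Wd (fun x : ℝ => (lp E (r + t) x - w) / Complex.exp ((r + t : ℝ) + x * I)) 0 := by
    refine wd_near_one ?_ ?_ hfar
    · exact ((hB.continuous_lp hrt).sub continuous_const).div (by fun_prop)
        (fun x => Complex.exp_ne_zero _)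
    · intro x
      rw [hB.lp_per hrt]
      congr 1
      have : ((r + t : ℝ) : ℂ) + ((x + 2 * Real.pi : ℝ) : ℂ) * I
          = ((r + t : ℝ) : ℂ) + x * I + 2 * Real.pi * I := by push_cast; ring
      rw [this, Complex.exp_add, Complex.exp_two_pi_mul_I, mul_one]
  have hT : Wd (fun x => lp E (r + t) x - w) 1 := by
    have := hq.mul hex
    rw [zero_add] at this
    refine this.congr (fun x => ?_)
    exact div_mul_cancel₀ _ (Complex.exp_ne_zero _)
  -- homotopy
  have := wd_homotopy (H := fun τ x => lp E (r + |τ|) x - w) (a := t) (k := 1)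
    ((hB.continuous_lp2 hr).sub continuous_const) (fun τ x h => ?_) (fun τ x => ?_) ?_ 0
  · simpa using this
  · have h1 : lp E (r + |τ|) x = w := sub_eq_zero.1 h
    have h2 := hB.G_lp (r := r + |τ|) (by have := abs_nonneg τ; linarith) x
    rw [h1] at h2
    have := abs_nonneg τ
    linarith
  · rw [hB.lp_per (by have := abs_nonneg τ; linarith)]
  · simp only [abs_of_nonneg ht]
    exact hT

end BD

/-- block (iii), (iv) -/
lemma wd_add (hB : BD c g th E) (hS : SQ c g th E s) (hU : IsPathConnected (Ug c g)) {r : ℝ}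
    (hr : g / 2 < r) (hr' : r < g) {φ : ℂ → ℂ} (hφ : ContinuousOn φ (Ug c g))
    (hφU : MapsTo φ (Ug c g) (Ug c g)) (e : ℤ) {w : ℂ} (hw : w ∈ Ug c g) :
    Wd (fun x => sb s e (φ (lp E r x)) + sb s e (φ w)) 0 := by
  obtain ⟨l, hl, hls⟩ := hS.log
  have hmem : ∀ x, lp E r x ∈ Ug c g := fun x => hB.lp_mem hr hr' x
  have hsb : ContinuousOn (sb s e) (Ug c g) := (hS.differentiableOn_sb' hB e).continuousOn
  have hcont : ContinuousOn (fun z => sb s e (φ z)) (Ug c g) := hsb.comp hφ hφU
  have hlp := hB.continuous_lp hr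
  have hcl : Continuous fun x => sb s e (φ (lp E r x)) := hcont.comp_continuous hlp hmem
  have hne : ∀ z ∈ Ug c g, ∀ z' ∈ Ug c g, sb s e (φ z) + sb s e (φ z') ≠ 0 := fun z hz z' hz' =>
    hS.sb_add_ne (hB.Ug_ray (hφU hz)) (hB.Ug_ray (hφU hz')) e
  -- the diagonal
  have hdiag : Wd (fun x => sb s e (φ (lp E r x)) + sb s e (φ (lp E r x))) 0 := by
    have h1 : Wd (fun x => Complex.exp (l (φ (lp E r x)))) 0 := by
      refine wd_of_periodic_log ?_ (fun x => by rw [hB.lp_per hr])
      exact (hl.comp hφ (fun z hz => hB.Ug_ray (hφU hz))).comp_continuous hlp hmem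
    rcases sb_eq s e with h | h
    · refine ((wd_const (a := 2) (by norm_num)).mul h1).congr (fun x => ?_)
      rw [h, hls _ (hB.Ug_ray (hφU (hmem x)))]; ring
    · refine ((wd_const (a := -2) (by norm_num)).mul h1).congr (fun x => ?_)
      rw [h, hls _ (hB.Ug_ray (hφU (hmem x)))]; ring
  have hsym := wd_symm (S := fun x y => sb s e (φ (lp E r x)) + sb s e (φ (lp E r y)))
    ((hcl.comp continuous_fst).add (hcl.comp continuous_snd))
    (fun x y => hne _ (hmem x) _ (hmem y)) (fun x y => add_comm _ _)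
    (fun x y => by rw [hB.lp_per hr]) hdiag 0
  refine wd_pathConnected hU (H := fun w x => sb s e (φ (lp E r x)) + sb s e (φ w)) ?_
    (fun w hw x => hne _ (hmem x) _ hw) (fun w hw x => by rw [hB.lp_per hr])
    (hmem 0) hw hsym
  refine ContinuousOn.add ?_ ?_
  · exact (hcl.comp continuous_snd).continuousOn
  · exact hcont.comp continuousOn_fst (fun p hp => hp.1)

/-- block (iii): induction over the length of the word -/
lemma wd_gc_sub (hB : BD c g th E) (hS : SQ c g th E s) (hU : IsPathConnected (Ug c g)) {r : ℝ}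
    (hr : g / 2 < r) (hr' : r < g) (M : ℕ) (w : ℕ → ℤ) {y : ℂ} (hy : G c y < r) :
    Wd (fun x => gc s w M (lp E r x) - gc s w M y) 1 := by
  have hyU : y ∈ Ug c g := lt_trans hy hr'
  induction M generalizing w with
  | zero => exact hB.wd_sub hr hy
  | succ M ih =>
    have h1 := ih (fun i => w (i + 1))
    have h2 := wd_add hB hS hU hr hr' (φ := gc s (fun i => w (i + 1)) M)
      (differentiableOn_gc hB hS _ _).continuousOn (gc_mapsTo hB hS _ _) (w 0) hyU
    have h3 : Wd (fun x => gc s w (M + 1) (lp E r x) - gc s w (M + 1) y) (1 - 0) := by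
      refine Wd.of_mul (w := fun x => sb s (w 0) (gc s (fun i => w (i + 1)) M (lp E r x))
        + sb s (w 0) (gc s (fun i => w (i + 1)) M y)) (h1.congr (fun x => ?_)) h2
      rw [gc_succ', gc_succ']
      have ha := hS.sq _ (hB.Ug_ray (gc_mem hB hS (fun i => w (i + 1)) M (hB.lp_mem hr hr' x)))
      have hb := hS.sq _ (hB.Ug_ray (gc_mem hB hS (fun i => w (i + 1)) M hyU))
      have ha' := sb_sq s (w 0) (gc s (fun i => w (i + 1)) M (lp E r x))
      have hb' := sb_sq s (w 0) (gc s (fun i => w (i + 1)) M y)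
      linear_combination (-1 : ℂ) * ha + hb - ha' + hb'
    simpa using h3

/-- **the winding number of `V_m = h ∘ g_m ∘ E` is one** -/
theorem wd_V (hB : BD c g th E) (hS : SQ c g th E s) (hU : IsPathConnected (Ug c g))
    {w : ℕ → ℤ} {n : ℕ} (hn : 1 ≤ n) (hw : ∀ i, w (i + n) = w i) {b ρ : ℂ} {h : ℂ → ℂ}
    (hK : KD c g s w n b ρ h) {r : ℝ} (hr : g / 2 < r) (hr' : r < g) (m : ℕ) :
    Wd (fun x => h (gc s w m (lp E r x))) 1 := by
  obtain ⟨k, q, hq, hq1, hform⟩ := hK.form
  obtain ⟨b', hb'U, hb'0, hb'⟩ := exists_pre hB hS hn hw hK.b_mem hK.fix (n * k + m)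
  have hlp := hB.continuous_lp hr
  have hmem : ∀ x, lp E r x ∈ Ug c g := fun x => hB.lp_mem hr hr' x
  have h1 := wd_gc_sub hB hS hU hr hr' (n * k + m) w (y := b')
    (by rw [hb'0]; linarith [hB.pos])
  rw [hb'] at h1
  have h2 : Wd (fun x => q (gc s w m (lp E r x))) 0 := by
    refine wd_near_one ?_ (fun x => by rw [hB.lp_per hr]) (fun x => hq1 _ (gc_mem hB hS w m (hmem x)))
    exact (hq.comp (differentiableOn_gc hB hS w m).continuousOn
      (gc_mapsTo hB hS w m)).comp_continuous hlp hmem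
  have hρ : ρ ≠ 0 := by
    intro h0
    have := hK.one_lt
    rw [h0, norm_zero] at this
    linarith
  have h3 := ((wd_const (pow_ne_zero k hρ)).mul h1).mul h2
  simp only [zero_add, add_zero] at h3
  refine h3.congr (fun x => ?_)
  rw [hform _ (gc_mem hB hS w m (hmem x)), gc_per hw]

end Pool.Agent.Work.MLC
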