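import Mathlib
import Pool.Agent.Work.MLC.PlyWindV
import Pool.Agent.Work.MLC.Tract51

set_option autoImplicit false

/-! # Logarithms of `V_m = h ∘ g_m ∘ E` and their links  (helper14) -/

namespace Pool.Agent.Work.MLC

open Filter Topology Metric Set Complex

variable {c : ℂ} {g th : ℝ} {E s h : ℂ → ℂ} {w : ℕ → ℤ} {n : ℕ} {b ρ : ℂ}

/-- the strip `g / 2 < Re < g` -/
def Rs (g : ℝ) : Set ℂ := {z | g / 2 < z.re ∧ z.re < g}

/-- the sheets of the slit annulus -/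
def Qs (g th : ℝ) (j : ℤ) : Set ℂ :=
  {z | g / 2 < z.re ∧ z.re < 2 * g ∧ th + j * (2 * Real.pi) < z.im ∧
    z.im < th + (j + 1) * (2 * Real.pi)}

/-- the half strips of the branch `e` -/
def Hs (g th : ℝ) (e k : ℤ) : Set ℂ :=
  {z | g / 2 < z.re ∧ z.re < g ∧ th / 2 + e * Real.pi + k * (2 * Real.pi) < z.im ∧
    z.im < th / 2 + (e + 1) * Real.pi + k * (2 * Real.pi)}

/-- the function `V_m` -/
noncomputable def Vf (E s h : ℂ → ℂ) (w : ℕ → ℤ) (m : ℕ) (z : ℂ) : ℂ := h (gc s w m (E z))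

lemma isOpen_Rs (g : ℝ) : IsOpen (Rs g) :=
  (isOpen_lt continuous_const Complex.continuous_re).inter
    (isOpen_lt Complex.continuous_re continuous_const)

lemma convex_Rs (g : ℝ) : Convex ℝ (Rs g) :=
  (convex_halfSpace_re_gt _).inter (convex_halfSpace_re_lt _)

lemma isOpen_Qs (g th : ℝ) (j : ℤ) : IsOpen (Qs g th j) :=
  (isOpen_lt continuous_const Complex.continuous_re).inter
    ((isOpen_lt Complex.continuous_re continuous_const).inter
      ((isOpen_lt continuous_const Complex.continuous_im).inter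
        (isOpen_lt Complex.continuous_im continuous_const)))

lemma convex_Qs (g th : ℝ) (j : ℤ) : Convex ℝ (Qs g th j) :=
  (convex_halfSpace_re_gt _).inter ((convex_halfSpace_re_lt _).inter
    ((convex_halfSpace_im_gt _).inter (convex_halfSpace_im_lt _)))

lemma convex_Hs (g th : ℝ) (e k : ℤ) : Convex ℝ (Hs g th e k) :=
  (convex_halfSpace_re_gt _).inter ((convex_halfSpace_re_lt _).inter
    ((convex_halfSpace_im_gt _).inter (convex_halfSpace_im_lt _)))

lemma Hs_sub (g th : ℝ) (e k : ℤ) : Hs g th e k ⊆ Rs g := fun _ hz => ⟨hz.1, hz.2.1⟩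

lemma Hs_to_Qs {e k : ℤ} {z : ℂ} (hg : 0 < g) (hz : z ∈ Hs g th e k) :
    2 * z - k * (2 * Real.pi * I) ∈ Qs g th (e + k) := by
  obtain ⟨h1, h2, h3, h4⟩ := hz
  refine ⟨?_, ?_, ?_, ?_⟩
  · simp; linarith
  · simp; linarith
  · simp; linarith
  · simp; linarith

lemma Hs_shift {e k : ℤ} {z : ℂ} (hz : z ∈ Hs g th e k) (j : ℤ) :
    z + j * (2 * Real.pi * I) ∈ Hs g th e (k + j) := by
  obtain ⟨h1, h2, h3, h4⟩ := hz
  refine ⟨?_, ?_, ?_, ?_⟩
  · simpa using h1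
  · simpa using h2
  · simp; linarith
  · simp; linarith

lemma Rs_shift {z : ℂ} (hz : z ∈ Rs g) (j : ℤ) : z + j * (2 * Real.pi * I) ∈ Rs g := by
  obtain ⟨h1, h2⟩ := hz
  exact ⟨by simpa using h1, by simpa using h2⟩

lemma Qs_shift {z : ℂ} {i : ℤ} (hz : z ∈ Qs g th i) (j : ℤ) :
    z + j * (2 * Real.pi * I) ∈ Qs g th (i + j) := by
  obtain ⟨h1, h2, h3, h4⟩ := hz
  refine ⟨?_, ?_, ?_, ?_⟩
  · simpa using h1
  · simpa using h2
  · simp; linarith
  · simp; linarith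

lemma Qs_notMem_ray (hB : BD c g th E) {j : ℤ} {z : ℂ} (hz : z ∈ Qs g th j) :
    E z ∉ ray E g th := by
  refine hB.E_ne_ray hz.1 (fun k hk => ?_)
  obtain ⟨_, _, h3, h4⟩ := hz
  rw [hk] at h3 h4
  have hpi : (0 : ℝ) < 2 * Real.pi := by positivity
  have h5 : (j : ℝ) < k := by
    by_contra hcon
    have : (k : ℝ) ≤ j := not_lt.1 hcon
    nlinarith
  have h6 : (k : ℝ) < j + 1 := by
    by_contra hcon
    have : (j : ℝ) + 1 ≤ k := not_lt.1 hcon
    nlinarith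
  have h7 : j < k := by exact_mod_cast h5
  have h8 : k < j + 1 := by exact_mod_cast h6
  omega

lemma E_mem_of_Rs (hB : BD c g th E) {z : ℂ} (hz : z ∈ Rs g) : E z ∈ Ug c g :=
  hB.E_mem hz.1 hz.2

lemma sb_E_mem_of_Qs (hB : BD c g th E) (hS : SQ c g th E s) {j : ℤ} {z : ℂ}
    (hz : z ∈ Qs g th j) (e : ℤ) : sb s e (E z) ∈ Ug c g :=
  hS.sb_mem' (Qs_notMem_ray hB hz) (by rw [hB.G_E z hz.1]; exact hz.2.1) e

lemma h_ne_zero (hK : KD c g s w n b ρ h) (hB : BD c g th E) (hS : SQ c g th E s) (hn : 1 ≤ n)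
    {z : ℂ} (hz : z ∈ Ug c g) (hG : 0 < G c z) : h z ≠ 0 := by
  intro h0
  have h1 : z = b := hK.inj hz hK.b_mem (by rw [h0, hK.zero])
  rw [h1, G_fix hB hS hn hK.b_mem hK.fix] at hG
  exact lt_irrefl _ hG

lemma Vf_ne_zero_Rs (hB : BD c g th E) (hS : SQ c g th E s) (hK : KD c g s w n b ρ h)
    (hn : 1 ≤ n) (m : ℕ) {z : ℂ} (hz : z ∈ Rs g) : Vf E s h w m z ≠ 0 := by
  refine h_ne_zero hK hB hS hn (gc_mem hB hS w m (E_mem_of_Rs hB hz)) ?_
  rw [G_gc hB hS w m (E_mem_of_Rs hB hz), hB.G_E z hz.1]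
  have h1 := hB.pos
  have h2 := hz.1
  have h3 : 0 < z.re := by linarith
  positivity

lemma Vf_ne_zero_Qs (hB : BD c g th E) (hS : SQ c g th E s) (hK : KD c g s w n b ρ h)
    (hn : 1 ≤ n) (m : ℕ) {j : ℤ} {z : ℂ} (hz : z ∈ Qs g th j) : Vf E s h w (m + 1) z ≠ 0 := by
  have hmem := sb_E_mem_of_Qs hB hS hz (w m)
  refine h_ne_zero hK hB hS hn (z := gc s w m (sb s (w m) (E z))) (gc_mem hB hS w m hmem) ?_
  rw [G_gc hB hS w m hmem, hS.G_sb (Qs_notMem_ray hB hz), hB.G_E z hz.1]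
  have h1 := hB.pos
  have h2 := hz.1
  have h3 : 0 < z.re := by linarith
  positivity

lemma differentiableOn_Vf_Rs (hB : BD c g th E) (hS : SQ c g th E s) (hK : KD c g s w n b ρ h)
    (m : ℕ) : DifferentiableOn ℂ (Vf E s h w m) (Rs g) := by
  refine hK.hol.comp (t := Ug c g) ?_ (fun z hz => gc_mem hB hS w m (E_mem_of_Rs hB hz))
  exact (differentiableOn_gc hB hS w m).comp (hB.hol.mono (fun z hz => hz.1))
    (fun z hz => E_mem_of_Rs hB hz)

lemma differentiableOn_Vf_Qs (hB : BD c g th E) (hS : SQ c g th E s) (hK : KD c g s w n b ρ h)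
    (m : ℕ) (j : ℤ) : DifferentiableOn ℂ (Vf E s h w (m + 1)) (Qs g th j) := by
  refine hK.hol.comp (t := Ug c g) (f := fun z => gc s w m (sb s (w m) (E z))) ?_
    (fun z hz => gc_mem hB hS w m (sb_E_mem_of_Qs hB hS hz _))
  refine (differentiableOn_gc hB hS w m).comp (t := Ug c g) (f := fun z => sb s (w m) (E z)) ?_
    (fun z hz => sb_E_mem_of_Qs hB hS hz _)
  exact (hS.differentiableOn_sb (w m)).comp (hB.hol.mono (fun z hz => hz.1))
    (fun z hz => Qs_notMem_ray hB hz)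

/-- block (S) for `V`: `V_m z = V_{m+1} (2 z - 2 π i k)` -/
lemma Vf_link (hB : BD c g th E) (hS : SQ c g th E s) (m : ℕ) {k : ℤ} {z : ℂ}
    (hz : z ∈ Hs g th (w m) k) :
    Vf E s h w (m + 1) (2 * z - k * (2 * Real.pi * I)) = Vf E s h w m z := by
  unfold Vf
  have h1 : E (2 * z - k * (2 * Real.pi * I)) = E (2 * z) := by
    have hp := hB.pos
    have := hB.per_int (z := 2 * z) (by have := hz.1; simp; linarith) (-k)
    rw [← this]
    congr 1
    push_cast; ring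
  rw [h1, gc_succ]
  rw [SQ.sb_E hB hS hz.1 (w m) k hz.2.2.1 hz.2.2.2]

/-- `F` is a continuous logarithm of `V` on the strip `R`, increasing by `2 π i` over a period. -/
structure LogR (g : ℝ) (V F : ℂ → ℂ) : Prop where
  cont : ContinuousOn F (Rs g)
  exp : ∀ z ∈ Rs g, Complex.exp (F z) = V z
  per : ∀ z ∈ Rs g, ∀ k : ℤ, F (z + k * (2 * Real.pi * I)) = F z + k * (2 * Real.pi * I)

/-- `F` (logarithm of `V_m`) is linked to `F'` (logarithm of `V_{m+1} = V'`) through the branch `e`. -/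
def Link (g th : ℝ) (V' : ℂ → ℂ) (e : ℤ) (F F' : ℂ → ℂ) : Prop :=
  ∀ k : ℤ, ∃ Φ : ℂ → ℂ, ContinuousOn Φ (Qs g th (e + k)) ∧
    (∀ z ∈ Qs g th (e + k), Complex.exp (Φ z) = V' z) ∧
    (∀ z ∈ Qs g th (e + k), z ∈ Rs g → Φ z = F' z) ∧
    ∀ z ∈ Hs g th e k, Φ (2 * z - k * (2 * Real.pi * I)) = F z

lemma exists_LogR (hB : BD c g th E) (hS : SQ c g th E s) (hU : IsPathConnected (Ug c g))
    (hn : 1 ≤ n) (hw : ∀ i, w (i + n) = w i) (hK : KD c g s w n b ρ h) (m : ℕ) :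
    ∃ F, LogR g (Vf E s h w m) F := by
  have hp := hB.pos
  obtain ⟨F, hF, hF'⟩ := exists_log_on (convex_Rs g) (isOpen_Rs g)
    (differentiableOn_Vf_Rs hB hS hK m).continuousOn (fun z hz => Vf_ne_zero_Rs hB hS hK hn m hz)
  refine ⟨F, hF, hF', ?_⟩
  -- the increment is constant
  obtain ⟨j, hj⟩ := const_of_exp_eq_one_on (convex_Rs g).isPreconnected
    (D := fun z => F (z + 2 * Real.pi * I) - F z)
    ((hF.comp (by fun_prop) (fun z hz => by simpa using Rs_shift hz 1)).sub hF) (fun z hz => by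
      have h1 : z + 2 * Real.pi * I ∈ Rs g := by simpa using Rs_shift hz 1
      rw [Complex.exp_sub, hF' _ h1, hF' z hz]
      unfold Vf
      rw [hB.per z hz.1]
      exact div_self (Vf_ne_zero_Rs hB hS hK hn m hz))
  have hr : g / 2 < 3 * g / 4 := by linarith
  have hr' : 3 * g / 4 < g := by linarith
  have hmem : ∀ x : ℝ, (((3 * g / 4 : ℝ) : ℂ) + x * I) ∈ Rs g := fun x => by
    constructor
    · simpa using hr
    · simpa using hr'
  have hwd := wd_V hB hS hU hn hw hK hr hr' m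
  have h1 : Wd (fun x => h (gc s w m (lp E (3 * g / 4) x))) j := by
    refine ⟨fun x => F (((3 * g / 4 : ℝ) : ℂ) + x * I), ?_, fun x => hF' _ (hmem x), fun x => ?_⟩
    · exact hF.comp_continuous (by fun_prop) hmem
    · have h2 := hj _ (hmem x)
      rw [← h2]
      have h3 : (((3 * g / 4 : ℝ) : ℂ) + ((x + 2 * Real.pi : ℝ) : ℂ) * I)
        = (((3 * g / 4 : ℝ) : ℂ) + x * I) + 2 * Real.pi * I := by push_cast; ring
      show F (((3 * g / 4 : ℝ) : ℂ) + ((x + 2 * Real.pi : ℝ) : ℂ) * I) = F (((3 * g / 4 : ℝ) : ℂ) + x * I) + _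
      rw [h3]; ring
  have hj1 : j = 1 := wd_unique h1 hwd
  subst hj1
  have h1 : ∀ z ∈ Rs g, F (z + 2 * Real.pi * I) = F z + 2 * Real.pi * I := fun z hz => by
    have := hj z hz
    simp only [Int.cast_one, one_mul] at this
    linear_combination this
  intro z hz k
  induction k using Int.induction_on with
  | zero => simp
  | succ k ih =>
    have h2 := h1 _ (Rs_shift hz (k : ℤ))
    rw [ih] at h2
    have h3 : z + ((k : ℤ) : ℂ) * (2 * Real.pi * I) + 2 * Real.pi * I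
      = z + (((k : ℤ) + 1 : ℤ) : ℂ) * (2 * Real.pi * I) := by push_cast; ring
    rw [← h3, h2]; push_cast; ring
  | pred k ih =>
    have h2 := h1 _ (Rs_shift hz (-(k : ℤ) - 1))
    have h3 : z + ((-(k : ℤ) - 1 : ℤ) : ℂ) * (2 * Real.pi * I) + 2 * Real.pi * I
      = z + ((-(k : ℤ) : ℤ) : ℂ) * (2 * Real.pi * I) := by push_cast; ring
    rw [h3, ih] at h2
    have h4 : F (z + ((-(k : ℤ) - 1 : ℤ) : ℂ) * (2 * Real.pi * I))
      = F z + ((-(k : ℤ) : ℤ) : ℂ) * (2 * Real.pi * I) - 2 * Real.pi * I := by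
      rw [h2]; ring
    rw [h4]; push_cast; ring

lemma LogR.add_const {V F : ℂ → ℂ} (hF : LogR g V F) (j : ℤ) :
    LogR g V (fun z => F z + j * (2 * Real.pi * I)) := by
  refine ⟨hF.cont.add continuousOn_const, fun z hz => ?_, fun z hz k => ?_⟩
  · rw [Complex.exp_add, hF.exp z hz, Complex.exp_int_mul_two_pi_mul_I, mul_one]
  · rw [hF.per z hz k]; ring

lemma nonempty_Hs (hg : 0 < g) (e k : ℤ) :
    (((3 * g / 4 : ℝ) : ℂ) + ((th / 2 + e * Real.pi + k * (2 * Real.pi) + Real.pi / 2 : ℝ) : ℂ) * I)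
      ∈ Hs g th e k := by
  have hpi := Real.pi_pos
  refine ⟨?_, ?_, ?_, ?_⟩
  · simp; linarith
  · simp; linarith
  · simp; linarith
  · simp; linarith

/-- existence of the linked logarithm -/
lemma exists_Link (hB : BD c g th E) (hS : SQ c g th E s) (hU : IsPathConnected (Ug c g))
    (hn : 1 ≤ n) (hw : ∀ i, w (i + n) = w i) (hK : KD c g s w n b ρ h) (m : ℕ) {F : ℂ → ℂ}
    (hF : LogR g (Vf E s h w m) F) :
    ∃ F', LogR g (Vf E s h w (m + 1)) F' ∧ Link g th (Vf E s h w (m + 1)) (w m) F F' := by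
  have hp := hB.pos
  obtain ⟨F₁, hF₁⟩ := exists_LogR hB hS hU hn hw hK (m + 1)
  -- continuation of `F₁` to the sheets
  have hcont : ∀ j : ℤ, ∃ Φ : ℂ → ℂ, ContinuousOn Φ (Qs g th j) ∧
      (∀ z ∈ Qs g th j, Complex.exp (Φ z) = Vf E s h w (m + 1) z) ∧
      ∀ z ∈ Qs g th j, z ∈ Rs g → Φ z = F₁ z := by
    intro j
    obtain ⟨Φ, h1, h2⟩ := exists_log_on (convex_Qs g th j) (isOpen_Qs g th j)
      (differentiableOn_Vf_Qs hB hS hK m j).continuousOn
      (fun z hz => Vf_ne_zero_Qs hB hS hK hn m hz)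
    obtain ⟨a, ha⟩ := log_unique_on ((convex_Qs g th j).inter (convex_Rs g)).isPreconnected
      (hF₁.cont.mono inter_subset_right) (h1.mono inter_subset_left)
      (fun z hz => by rw [hF₁.exp z hz.2, h2 z hz.1])
    refine ⟨fun z => Φ z + a * (2 * Real.pi * I), h1.add continuousOn_const, fun z hz => ?_,
      fun z hz hz' => (ha z ⟨hz, hz'⟩).symm⟩
    rw [Complex.exp_add, h2 z hz, Complex.exp_int_mul_two_pi_mul_I, mul_one]
  choose Φ hΦ1 hΦ2 hΦ3 using hcont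
  -- periodicity of the continuations
  have hΦper : ∀ i j : ℤ, ∀ z ∈ Qs g th i, Φ (i + j) (z + j * (2 * Real.pi * I)) =
      Φ i z + j * (2 * Real.pi * I) := by
    intro i j
    obtain ⟨a, ha⟩ := log_unique_on (convex_Qs g th i).isPreconnected
      (F := fun z => Φ (i + j) (z + j * (2 * Real.pi * I)))
      (F' := fun z => Φ i z + j * (2 * Real.pi * I))
      ((hΦ1 (i + j)).comp (by fun_prop) (fun z hz => Qs_shift hz j))
      ((hΦ1 i).add continuousOn_const) (fun z hz => by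
        rw [hΦ2 _ _ (Qs_shift hz j), Complex.exp_add, hΦ2 _ _ hz,
          Complex.exp_int_mul_two_pi_mul_I, mul_one]
        unfold Vf
        rw [hB.per_int hz.1])
    -- evaluate at a point of the strip
    have hpi := Real.pi_pos
    set z₀ : ℂ := ((3 * g / 4 : ℝ) : ℂ) + ((th + i * (2 * Real.pi) + Real.pi : ℝ) : ℂ) * I with hz₀
    have hz₀Q : z₀ ∈ Qs g th i := by
      refine ⟨?_, ?_, ?_, ?_⟩
      · rw [hz₀]; simp; linarith
      · rw [hz₀]; simp; linarith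
      · rw [hz₀]; simp; linarith
      · rw [hz₀]; simp; linarith
    have hz₀R : z₀ ∈ Rs g := by
      refine ⟨?_, ?_⟩
      · rw [hz₀]; simp; linarith
      · rw [hz₀]; simp; linarith
    have h1 := ha z₀ hz₀Q
    rw [hΦ3 _ _ (Qs_shift hz₀Q j) (Rs_shift hz₀R j), hF₁.per _ hz₀R, hΦ3 _ _ hz₀Q hz₀R] at h1
    have h2 : (a : ℂ) * (2 * Real.pi * I) = 0 := by linear_combination -h1
    intro z hz
    have h3 := ha z hz
    rw [h3, h2, add_zero]
  -- the constant for `k = 0`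
  have hdiff : ∀ k : ℤ, ∃ a : ℤ, ∀ z ∈ Hs g th (w m) k,
      F z = Φ (w m + k) (2 * z - k * (2 * Real.pi * I)) + a * (2 * Real.pi * I) := by
    intro k
    exact log_unique_on (convex_Hs g th (w m) k).isPreconnected
      (hF.cont.mono (Hs_sub _ _ _ _))
      ((hΦ1 (w m + k)).comp (by fun_prop) (fun z hz => Hs_to_Qs hp hz)) (fun z hz => by
        rw [hF.exp z (Hs_sub _ _ _ _ hz), hΦ2 _ _ (Hs_to_Qs hp hz), Vf_link hB hS m hz])
  choose a ha using hdiff
  have haconst : ∀ k : ℤ, (a k : ℂ) * (2 * Real.pi * I) = a 0 * (2 * Real.pi * I) := by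
    intro k
    have hz := nonempty_Hs (th := th) hp (w m) 0
    set z : ℂ := (((3 * g / 4 : ℝ) : ℂ) +
      ((th / 2 + (w m) * Real.pi + (0 : ℤ) * (2 * Real.pi) + Real.pi / 2 : ℝ) : ℂ) * I) with hzdef
    have h1 := ha 0 z hz
    have h2 := ha k (z + k * (2 * Real.pi * I)) (by simpa using Hs_shift hz k)
    rw [hF.per z (Hs_sub _ _ _ _ hz)] at h2
    have h3 : 2 * (z + k * (2 * Real.pi * I)) - k * (2 * Real.pi * I)
      = (2 * z - (0 : ℤ) * (2 * Real.pi * I)) + k * (2 * Real.pi * I) := by push_cast; ring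
    have h4 : 2 * z - (0 : ℤ) * (2 * Real.pi * I) ∈ Qs g th (w m) := by
      simpa using Hs_to_Qs hp hz
    rw [h3, hΦper (w m) k _ h4] at h2
    rw [add_zero] at h1
    linear_combination h1 - h2
  refine ⟨fun z => F₁ z + a 0 * (2 * Real.pi * I), hF₁.add_const (a 0), fun k => ?_⟩
  refine ⟨fun z => Φ (w m + k) z + a 0 * (2 * Real.pi * I), (hΦ1 _).add continuousOn_const,
    fun z hz => ?_, fun z hz hz' => ?_, fun z hz => ?_⟩
  · rw [Complex.exp_add, hΦ2 _ z hz, Complex.exp_int_mul_two_pi_mul_I, mul_one]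
  · simp only [hΦ3 _ z hz hz']
  · rw [ha k z hz, haconst k]

/-- uniqueness of the linked logarithm -/
lemma Link.unique (hg : 0 < g) {V' : ℂ → ℂ} {e : ℤ} {F F₁ F₂ : ℂ → ℂ}
    (h1 : Link g th V' e F F₁) (h2 : Link g th V' e F F₂) (hl1 : LogR g V' F₁)
    (hl2 : LogR g V' F₂) : ∀ z ∈ Rs g, F₁ z = F₂ z := by
  have hpi := Real.pi_pos
  obtain ⟨Φ₁, a1, a2, a3, a4⟩ := h1 0
  obtain ⟨Φ₂, b1, b2, b3, b4⟩ := h2 0
  obtain ⟨i, hi⟩ := log_unique_on (convex_Qs g th (e + 0)).isPreconnected a1 b1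
    (fun z hz => by rw [a2 z hz, b2 z hz])
  have hz := nonempty_Hs (th := th) hg e 0
  have h3 := hi _ (Hs_to_Qs hg hz)
  rw [a4 _ hz, b4 _ hz] at h3
  have h4 : (i : ℂ) * (2 * Real.pi * I) = 0 := by linear_combination -h3
  obtain ⟨j, hj⟩ := log_unique_on (convex_Rs g).isPreconnected hl1.cont hl2.cont
    (fun z hz => by rw [hl1.exp z hz, hl2.exp z hz])
  set z₀ : ℂ := ((3 * g / 4 : ℝ) : ℂ) + ((th + e * (2 * Real.pi) + Real.pi : ℝ) : ℂ) * I with hz₀
  have hz₀Q : z₀ ∈ Qs g th (e + 0) := by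
    rw [add_zero]
    refine ⟨?_, ?_, ?_, ?_⟩
    · rw [hz₀]; simp; linarith
    · rw [hz₀]; simp; linarith
    · rw [hz₀]; simp; linarith
    · rw [hz₀]; simp; linarith
  have hz₀R : z₀ ∈ Rs g := by
    refine ⟨?_, ?_⟩
    · rw [hz₀]; simp; linarith
    · rw [hz₀]; simp; linarith
  have h5 := hi _ hz₀Q
  rw [a3 _ hz₀Q hz₀R, b3 _ hz₀Q hz₀R, h4, add_zero] at h5
  have h6 := hj _ hz₀R
  rw [h5] at h6
  have h7 : (j : ℂ) * (2 * Real.pi * I) = 0 := by linear_combination -h6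
  intro z hz
  rw [hj z hz, h7, add_zero]

end Pool.Agent.Work.MLC
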