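import Mathlib
import Pool.Agent.Work.MLC.PlyLog
import Pool.Agent.Work.MLC.PlyKoe

set_option autoImplicit false

/-! # One step of the chain  (helper14) -/

namespace Pool.Agent.Work.MLC

open Filter Topology Metric Set Complex MeasureTheory

variable {c : ℂ} {g th : ℝ} {E s h : ℂ → ℂ} {w : ℕ → ℤ} {n : ℕ} {b ρ : ℂ}

/-- the derivative bound of `PlyArea` as a property of the measure -/
def DerBd (μ : Measure ℂ) : Prop :=
  ∀ (V F : ℂ → ℂ) (z : ℂ) (r : ℝ), 0 < r → DifferentiableOn ℂ V (ball z r) →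
    InjOn V (ball z r) → (∀ x ∈ ball z r, V x ≠ 0) → ContinuousOn F (ball z r) →
    (∀ x ∈ ball z r, Complex.exp (F x) = V x) →
    ENNReal.ofReal (‖deriv F z‖ ^ 2 * (Real.pi * r ^ 2)) ≤ μ (V '' ball z r)

lemma DerBd.le {μ : Measure ℂ} (hμ : DerBd μ) {V F : ℂ → ℂ} {z : ℂ} {r A : ℝ} (hr : 0 < r)
    (hV : DifferentiableOn ℂ V (ball z r)) (hinj : InjOn V (ball z r))
    (h0 : ∀ x ∈ ball z r, V x ≠ 0) (hF : ContinuousOn F (ball z r))
    (hexp : ∀ x ∈ ball z r, Complex.exp (F x) = V x) (hA : 0 ≤ A)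
    (hA' : μ (V '' ball z r) ≤ ENNReal.ofReal A) :
    ‖deriv F z‖ ≤ Real.sqrt (A / Real.pi) / r := by
  have h1 := (hμ V F z r hr hV hinj h0 hF hexp).trans hA'
  rw [ENNReal.ofReal_le_ofReal_iff hA] at h1
  have hpi := Real.pi_pos
  rw [le_div_iff₀ hr]
  apply Real.le_sqrt_of_sq_le
  rw [le_div_iff₀ hpi]
  nlinarith

lemma seg_bound {F : ℂ → ℂ} {p q : ℂ} {M : ℝ}
    (hd : ∀ x ∈ segment ℝ p q, DifferentiableAt ℂ F x)
    (hb : ∀ x ∈ segment ℝ p q, ‖deriv F x‖ ≤ M) : ‖F q - F p‖ ≤ M * ‖q - p‖ :=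
  (convex_segment p q).norm_image_sub_le_of_norm_deriv_le hd hb (left_mem_segment ℝ p q)
    (right_mem_segment ℝ p q)

/-- injectivity on small balls -/
lemma eq_of_E_eq (hB : BD c g th E) (hg4 : g ≤ 4) {z₀ z z' : ℂ} (hz : z ∈ ball z₀ (g / 4))
    (hz' : z' ∈ ball z₀ (g / 4)) (h1 : g / 2 < z.re) (h2 : g / 2 < z'.re) (hE : E z = E z') :
    z = z' := by
  obtain ⟨k, hk⟩ := hB.inj z z' h1 h2 hE
  have hd : ‖z - z'‖ < 2 := by
    have := dist_triangle_right z z' z₀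
    rw [mem_ball] at hz hz'
    rw [← dist_eq_norm]
    linarith
  have h3 : ‖z - z'‖ = |(k : ℝ)| * (2 * Real.pi) := by
    rw [hk, add_sub_cancel_left]
    simp [abs_of_pos Real.pi_pos]
  have h4 : k = 0 := by
    by_contra hk0
    have h5 : (1 : ℝ) ≤ |(k : ℝ)| := by exact_mod_cast Int.one_le_abs hk0
    have h6 := Real.pi_gt_three
    nlinarith
  rw [hk, h4]; simp

lemma Vf_inj_Rs (hB : BD c g th E) (hS : SQ c g th E s) (hK : KD c g s w n b ρ h) (m : ℕ)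
    {z z' : ℂ} (hz : z ∈ Rs g) (hz' : z' ∈ Rs g) (hV : Vf E s h w m z = Vf E s h w m z') :
    E z = E z' := by
  have h1 := E_mem_of_Rs hB hz
  have h2 := E_mem_of_Rs hB hz'
  exact gc_injOn hB hS w m h1 h2 (hK.inj (gc_mem hB hS w m h1) (gc_mem hB hS w m h2) hV)

lemma Vf_inj_Qs (hB : BD c g th E) (hS : SQ c g th E s) (hK : KD c g s w n b ρ h) (m : ℕ)
    {j : ℤ} {z z' : ℂ} (hz : z ∈ Qs g th j) (hz' : z' ∈ Qs g th j)
    (hV : Vf E s h w (m + 1) z = Vf E s h w (m + 1) z') : E z = E z' := by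
  have h1 := sb_E_mem_of_Qs hB hS hz (w m)
  have h2 := sb_E_mem_of_Qs hB hS hz' (w m)
  have h3 := gc_injOn hB hS w m h1 h2 (hK.inj (gc_mem hB hS w m h1) (gc_mem hB hS w m h2) hV)
  exact hS.sb_inj (Qs_notMem_ray hB hz) (Qs_notMem_ray hB hz') h3

lemma Vf_mem_Rs (hB : BD c g th E) (m : ℕ) {z : ℂ} (hz : z ∈ Rs g) :
    Vf E s h w m z ∈ Akd c g s w h m :=
  ⟨E z, ⟨by rw [hB.G_E z hz.1]; exact hz.1.le, by rw [hB.G_E z hz.1]; exact hz.2⟩, rfl⟩

lemma Vf_mem_Qs (hB : BD c g th E) (hS : SQ c g th E s) (m : ℕ) {j : ℤ} {z : ℂ}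
    (hz : z ∈ Qs g th j) :
    Vf E s h w (m + 1) z ∈ Akd c g s w h (m + 1) ∪ Akd c g s w h m := by
  rcases lt_or_ge z.re g with h1 | h1
  · left; exact Vf_mem_Rs hB (m + 1) ⟨hz.1, h1⟩
  · right
    refine ⟨sb s (w m) (E z), ⟨?_, ?_⟩, rfl⟩
    · rw [hS.G_sb (Qs_notMem_ray hB hz), hB.G_E z hz.1]; linarith
    · rw [hS.G_sb (Qs_notMem_ray hB hz), hB.G_E z hz.1]; have := hz.2.1; linarith

lemma ball_sub_Rs {z : ℂ} (hz : z.re = 3 * g / 4) : ball z (g / 4) ⊆ Rs g := by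
  intro x hx
  rw [mem_ball, dist_eq_norm] at hx
  have h1 := (abs_re_le_norm (x - z)).trans_lt hx
  rw [sub_re, abs_lt, hz] at h1
  exact ⟨by linarith [h1.1], by linarith [h1.2]⟩

lemma ball_sub_Qs {z : ℂ} {j : ℤ} (h1 : 3 * g / 4 ≤ z.re) (h2 : z.re ≤ 3 * g / 2)
    (h3 : th + j * (2 * Real.pi) + g / 4 ≤ z.im)
    (h4 : z.im ≤ th + (j + 1) * (2 * Real.pi) - g / 4) (hg : 0 < g) :
    ball z (g / 4) ⊆ Qs g th j := by
  intro x hx
  rw [mem_ball, dist_eq_norm] at hx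
  have h5 := (abs_re_le_norm (x - z)).trans_lt hx
  have h6 := (abs_im_le_norm (x - z)).trans_lt hx
  rw [sub_re, abs_lt] at h5
  rw [sub_im, abs_lt] at h6
  exact ⟨by linarith [h5.1], by linarith [h5.2], by linarith [h6.1], by linarith [h6.2]⟩

/-- **one step of the chain** -/
theorem one_step {μ : Measure ℂ} (hμ : DerBd μ) (hB : BD c g th E) (hS : SQ c g th E s)
    (hK : KD c g s w n b ρ h) (hn : 1 ≤ n) (hg4 : g ≤ 4) {a : ℕ → ℝ} (ha0 : ∀ m, 0 ≤ a m)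
    (ha : ∀ m, μ (Akd c g s w h m) ≤ ENNReal.ofReal (a m)) (m : ℕ) {F F' : ℂ → ℂ}
    (hF : LogR g (Vf E s h w m) F)
    (hL : Link g th (Vf E s h w (m + 1)) (w m) F F') {T X T' : ℝ} {k : ℤ}
    (hX1 : th / 2 + w m * Real.pi + k * (2 * Real.pi) < X)
    (hX2 : X < th / 2 + (w m + 1) * Real.pi + k * (2 * Real.pi))
    (hT' : T' = 2 * X - k * (2 * Real.pi))
    (h1 : th + (w m + k) * (2 * Real.pi) + g / 4 ≤ T')
    (h2 : T' ≤ th + (w m + k + 1) * (2 * Real.pi) - g / 4)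
    (hXT : |X - T| ≤ 3 * (g / 4) / 2) :
    ‖F' ((3 * g / 4 : ℝ) + T' * I) - F ((3 * g / 4 : ℝ) + T * I)‖ ≤
      9 / (2 * Real.sqrt Real.pi) * Real.sqrt (a (m + 1) + a m) := by
  have hp := hB.pos
  have hpi := Real.pi_pos
  obtain ⟨Φ, c1, c2, c3, c4⟩ := hL k
  -- differentiability
  have hFd : DifferentiableOn ℂ F (Rs g) :=
    Tr.differentiableOn_of_exp (isOpen_Rs g) (differentiableOn_Vf_Rs hB hS hK m) hF.cont hF.exp
  have hΦd : DifferentiableOn ℂ Φ (Qs g th (w m + k)) :=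
    Tr.differentiableOn_of_exp (isOpen_Qs g th _) (differentiableOn_Vf_Qs hB hS hK m _) c1 c2
  -- horizontal move
  have hA : ‖F ((3 * g / 4 : ℝ) + X * I) - F ((3 * g / 4 : ℝ) + T * I)‖ ≤
      Real.sqrt (a m / Real.pi) / (g / 4) * ‖(((3 * g / 4 : ℝ) : ℂ) + X * I)
        - (((3 * g / 4 : ℝ) : ℂ) + T * I)‖ := by
    have hre : ∀ x ∈ segment ℝ (((3 * g / 4 : ℝ) : ℂ) + T * I) (((3 * g / 4 : ℝ) : ℂ) + X * I),
        x.re = 3 * g / 4 := by
      intro x hx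
      have hc : Convex ℝ {z : ℂ | z.re = 3 * g / 4} := by
        have := (convex_halfSpace_re_le (3 * g / 4)).inter (convex_halfSpace_re_ge (3 * g / 4))
        convert this using 1
        ext z
        simp only [mem_ofPred_eq, mem_inter_iff]
        exact ⟨fun h => ⟨h.le, h.ge⟩, fun h => le_antisymm h.1 h.2⟩
      exact hc.segment_subset (by simp) (by simp) hx
    refine seg_bound (fun x hx => ?_) (fun x hx => ?_)
    · have hsub := ball_sub_Rs (hre x hx)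
      exact (hFd x (hsub (mem_ball_self (by linarith)))).differentiableAt
        ((isOpen_Rs g).mem_nhds (hsub (mem_ball_self (by linarith))))
    · have hsub := ball_sub_Rs (hre x hx)
      refine hμ.le (V := Vf E s h w m) (by linarith) ((differentiableOn_Vf_Rs hB hS hK m).mono hsub)
        (fun z hz z' hz' hV => ?_) (fun z hz => Vf_ne_zero_Rs hB hS hK hn m (hsub hz))
        (hF.cont.mono hsub) (fun z hz => hF.exp z (hsub hz)) (ha0 m) ?_
      · exact eq_of_E_eq hB hg4 hz hz' (hsub hz).1 (hsub hz').1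
          (Vf_inj_Rs hB hS hK m (hsub hz) (hsub hz') hV)
      · refine (measure_mono ?_).trans (ha m)
        rintro _ ⟨z, hz, rfl⟩
        exact Vf_mem_Rs hB m (hsub hz)
  -- vertical move
  have hC : ‖Φ ((3 * g / 2 : ℝ) + T' * I) - Φ ((3 * g / 4 : ℝ) + T' * I)‖ ≤
      Real.sqrt ((a (m + 1) + a m) / Real.pi) / (g / 4) * ‖(((3 * g / 2 : ℝ) : ℂ) + T' * I)
        - (((3 * g / 4 : ℝ) : ℂ) + T' * I)‖ := by
    have hre : ∀ x ∈ segment ℝ (((3 * g / 4 : ℝ) : ℂ) + T' * I) (((3 * g / 2 : ℝ) : ℂ) + T' * I),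
        (3 * g / 4 ≤ x.re ∧ x.re ≤ 3 * g / 2) ∧ x.im = T' := by
      intro x hx
      have hc : Convex ℝ {z : ℂ | (3 * g / 4 ≤ z.re ∧ z.re ≤ 3 * g / 2) ∧ z.im = T'} := by
        have := ((convex_halfSpace_re_ge (3 * g / 4)).inter (convex_halfSpace_re_le (3 * g / 2))).inter
          ((convex_halfSpace_im_le T').inter (convex_halfSpace_im_ge T'))
        convert this using 1
        ext z
        simp only [mem_ofPred_eq, mem_inter_iff]
        exact ⟨fun h => ⟨h.1, h.2.le, h.2.ge⟩, fun h => ⟨h.1, le_antisymm h.2.1 h.2.2⟩⟩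
      refine hc.segment_subset ?_ ?_ hx
      · simp; linarith
      · simp; linarith
    have hball : ∀ x ∈ segment ℝ (((3 * g / 4 : ℝ) : ℂ) + T' * I) (((3 * g / 2 : ℝ) : ℂ) + T' * I),
        ball x (g / 4) ⊆ Qs g th (w m + k) := by
      intro x hx
      obtain ⟨⟨e1, e2⟩, e3⟩ := hre x hx
      exact ball_sub_Qs e1 e2 (by rw [e3]; push_cast; exact h1) (by rw [e3]; push_cast; exact h2) hp
    refine seg_bound (fun x hx => ?_) (fun x hx => ?_)
    · have hsub := hball x hx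
      exact (hΦd x (hsub (mem_ball_self (by linarith)))).differentiableAt
        ((isOpen_Qs g th _).mem_nhds (hsub (mem_ball_self (by linarith))))
    · have hsub := hball x hx
      refine hμ.le (V := Vf E s h w (m + 1)) (by linarith)
        ((differentiableOn_Vf_Qs hB hS hK m _).mono hsub)
        (fun z hz z' hz' hV => ?_) (fun z hz => Vf_ne_zero_Qs hB hS hK hn m (hsub hz))
        (c1.mono hsub) (fun z hz => c2 z (hsub hz)) (add_nonneg (ha0 _) (ha0 _)) ?_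
      · exact eq_of_E_eq hB hg4 hz hz' (hsub hz).1 (hsub hz').1
          (Vf_inj_Qs hB hS hK m (hsub hz) (hsub hz') hV)
      · rw [ENNReal.ofReal_add (ha0 _) (ha0 _)]
        refine (measure_mono ?_).trans ((measure_union_le _ _).trans (add_le_add (ha _) (ha _)))
        rintro _ ⟨z, hz, rfl⟩
        exact Vf_mem_Qs hB hS m (hsub hz)
  -- the endpoints
  have hXH : (((3 * g / 4 : ℝ) : ℂ) + X * I) ∈ Hs g th (w m) k := by
    refine ⟨?_, ?_, ?_, ?_⟩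
    · simp; linarith
    · simp; linarith
    · simpa using hX1
    · simpa using hX2
  have e1 : Φ (((3 * g / 2 : ℝ) : ℂ) + T' * I) = F (((3 * g / 4 : ℝ) : ℂ) + X * I) := by
    rw [← c4 _ hXH]
    congr 1
    rw [hT']; push_cast; ring
  have e2 : Φ (((3 * g / 4 : ℝ) : ℂ) + T' * I) = F' (((3 * g / 4 : ℝ) : ℂ) + T' * I) := by
    apply c3
    · have := ball_sub_Qs (z := ((3 * g / 4 : ℝ) : ℂ) + T' * I) (g := g) (th := th) (j := w m + k)
        (by simp) (by simp; linarith) (by simp; linarith) (by simp; linarith) hp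
      exact this (mem_ball_self (by linarith))
    · exact ⟨by simp; linarith, by simp; linarith⟩
  rw [e1, e2] at hC
  have n1 : ‖(((3 * g / 4 : ℝ) : ℂ) + X * I) - (((3 * g / 4 : ℝ) : ℂ) + T * I)‖ = |X - T| := by
    have : (((3 * g / 4 : ℝ) : ℂ) + X * I) - (((3 * g / 4 : ℝ) : ℂ) + T * I)
      = ((X - T : ℝ) : ℂ) * I := by push_cast; ring
    rw [this, norm_mul, norm_I, mul_one, norm_real, Real.norm_eq_abs]
  have n2 : ‖(((3 * g / 2 : ℝ) : ℂ) + T' * I) - (((3 * g / 4 : ℝ) : ℂ) + T' * I)‖ = 3 * g / 4 := by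
    have : (((3 * g / 2 : ℝ) : ℂ) + T' * I) - (((3 * g / 4 : ℝ) : ℂ) + T' * I)
      = ((3 * g / 4 : ℝ) : ℂ) := by push_cast; ring
    rw [this, norm_real, Real.norm_eq_abs, abs_of_pos (by linarith)]
  rw [n1] at hA
  rw [n2] at hC
  have s1 : Real.sqrt (a m / Real.pi) ≤ Real.sqrt ((a (m + 1) + a m) / Real.pi) :=
    Real.sqrt_le_sqrt (by gcongr; linarith [ha0 (m + 1)])
  have s2 : Real.sqrt ((a (m + 1) + a m) / Real.pi) =
      Real.sqrt (a (m + 1) + a m) / Real.sqrt Real.pi := Real.sqrt_div' _ hpi.le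
  set Sq := Real.sqrt ((a (m + 1) + a m) / Real.pi) with hSq
  have hSq0 : 0 ≤ Sq := Real.sqrt_nonneg _
  have hA' : ‖F ((3 * g / 4 : ℝ) + X * I) - F ((3 * g / 4 : ℝ) + T * I)‖ ≤ 3 / 2 * Sq := by
    refine hA.trans ?_
    calc Real.sqrt (a m / Real.pi) / (g / 4) * |X - T| ≤ Sq / (g / 4) * (3 * (g / 4) / 2) := by
          gcongr
      _ = 3 / 2 * Sq := by field_simp
  have hC' : ‖F ((3 * g / 4 : ℝ) + X * I) - F' ((3 * g / 4 : ℝ) + T' * I)‖ ≤ 3 * Sq := by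
    refine hC.trans (le_of_eq ?_)
    field_simp
  have hfin : 9 / (2 * Real.sqrt Real.pi) * Real.sqrt (a (m + 1) + a m) = 9 / 2 * Sq := by
    rw [s2]
    have : Real.sqrt Real.pi ≠ 0 := (Real.sqrt_pos.2 hpi).ne'
    field_simp
  rw [hfin]
  calc ‖F' ((3 * g / 4 : ℝ) + T' * I) - F ((3 * g / 4 : ℝ) + T * I)‖
      = ‖(F ((3 * g / 4 : ℝ) + X * I) - F ((3 * g / 4 : ℝ) + T * I)) -
        (F ((3 * g / 4 : ℝ) + X * I) - F' ((3 * g / 4 : ℝ) + T' * I))‖ := by congr 1; ring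
    _ ≤ _ := norm_sub_le _ _
    _ ≤ 3 / 2 * Sq + 3 * Sq := add_le_add hA' hC'
    _ = 9 / 2 * Sq := by ring

end Pool.Agent.Work.MLC
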