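import Mathlib
import Pool.Agent.Work.MLC.PlyStep
import Pool.Agent.Work.MLC.PlyArea
import Pool.Agent.Work.MLC.PlyClamp
import Pool.Agent.Work.MLC.PlyLim

set_option autoImplicit false

/-! # End of the proof of the exterior PLY inequality  (helper14) -/

namespace Pool.Agent.Work.MLC

open Filter Topology Metric Set Complex MeasureTheory

variable {c : ℂ} {g th : ℝ} {E s h : ℂ → ℂ} {w : ℕ → ℤ} {n : ℕ} {b ρ : ℂ}

theorem derBd_mu : DerBd mu := by
  intro V F z r hr hV hinj h0 hF hexp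
  have hFd := Tr.differentiableOn_of_exp isOpen_ball hV hF hexp
  have := norm_deriv_le_mu hr hV hFd hexp hinj
  convert this using 2
  ring

lemma Vf_add_Rs (hB : BD c g th E) (hS : SQ c g th E s) (hK : KD c g s w n b ρ h)
    (hw : ∀ i, w (i + n) = w i) (m : ℕ) {z : ℂ} (hz : z ∈ Rs g) :
    Vf E s h w (m + n) z = Vf E s h w m z / ρ := by
  unfold Vf
  rw [← hK.koe _ (gc_mem hB hS w m (E_mem_of_Rs hB hz))]
  congr 1
  have := gc_per (s := s) hw 1 m (E z)
  rw [mul_one] at this
  rw [add_comm m n, this]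

lemma Vf_add_Qs (hB : BD c g th E) (hS : SQ c g th E s) (hK : KD c g s w n b ρ h)
    (hw : ∀ i, w (i + n) = w i) (m : ℕ) {j : ℤ} {z : ℂ} (hz : z ∈ Qs g th j) :
    Vf E s h w (m + n + 1) z = Vf E s h w (m + 1) z / ρ := by
  unfold Vf
  rw [gc_succ, gc_succ, hw m, ← hK.koe _ (gc_mem hB hS w m (sb_E_mem_of_Qs hB hS hz _))]
  congr 1
  have := gc_per (s := s) hw 1 m (sb s (w m) (E z))
  rw [mul_one] at this
  rw [add_comm m n, this]

lemma KD.rho_ne (hK : KD c g s w n b ρ h) : ρ ≠ 0 := by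
  intro h0
  have := hK.one_lt
  rw [h0, norm_zero] at this
  linarith

/-- the sequence of linked logarithms and the logarithm `L` of the multiplier -/
theorem exists_chain (hB : BD c g th E) (hS : SQ c g th E s) (hU : IsPathConnected (Ug c g))
    (hn : 1 ≤ n) (hw : ∀ i, w (i + n) = w i) (hK : KD c g s w n b ρ h) :
    ∃ (F : ℕ → ℂ → ℂ) (L : ℂ), (∀ m, LogR g (Vf E s h w m) (F m)) ∧
      (∀ m, Link g th (Vf E s h w (m + 1)) (w m) (F m) (F (m + 1))) ∧
      Complex.exp L = ρ ∧ ∀ m, ∀ z ∈ Rs g, F (m + n) z = F m z - L := by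
  have hp := hB.pos
  obtain ⟨F₀, hF₀⟩ := exists_LogR hB hS hU hn hw hK 0
  choose! nx hnx1 hnx2 using fun (m : ℕ) (F : ℂ → ℂ) (hF : LogR g (Vf E s h w m) F) =>
    exists_Link hB hS hU hn hw hK m hF
  let F : ℕ → ℂ → ℂ := fun m => Nat.rec (motive := fun _ => ℂ → ℂ) F₀ (fun m F => nx m F) m
  have hFs : ∀ m, F (m + 1) = nx m (F m) := fun m => rfl
  have hFl : ∀ m, LogR g (Vf E s h w m) (F m) := by
    intro m
    induction m with
    | zero => exact hF₀
    | succ m ih => rw [hFs]; exact hnx1 m _ ih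
  have hFk : ∀ m, Link g th (Vf E s h w (m + 1)) (w m) (F m) (F (m + 1)) := by
    intro m
    rw [hFs]; exact hnx2 m _ (hFl m)
  have hρ := hK.rho_ne
  -- the constant `L`
  have hconv := convex_Rs g
  set z₀ : ℂ := ((3 * g / 4 : ℝ) : ℂ) with hz₀
  have hz₀R : z₀ ∈ Rs g := ⟨by rw [hz₀, ofReal_re]; linarith, by rw [hz₀, ofReal_re]; linarith⟩
  set L : ℂ := F 0 z₀ - F n z₀ with hL
  have hV : ∀ z ∈ Rs g, Complex.exp (F 0 z - F n z) = ρ := by
    intro z hz
    rw [Complex.exp_sub, (hFl 0).exp z hz, (hFl n).exp z hz]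
    have := Vf_add_Rs hB hS hK hw 0 hz
    rw [zero_add] at this
    rw [this]
    have h0 := Vf_ne_zero_Rs hB hS hK hn 0 hz
    field_simp
  have hexpL : Complex.exp L = ρ := hV z₀ hz₀R
  have h0 : ∀ z ∈ Rs g, F n z = F 0 z - L := by
    obtain ⟨k, hk⟩ := log_unique_on hconv.isPreconnected (F := fun z => F 0 z - F n z)
      (F' := fun _ => L) ((hFl 0).cont.sub (hFl n).cont) continuousOn_const
      (fun z hz => by rw [hV z hz, hexpL])
    have h1 := hk z₀ hz₀R
    have h2 : (k : ℂ) * (2 * Real.pi * I) = 0 := by linear_combination -h1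
    intro z hz
    have h3 := hk z hz
    rw [h2] at h3
    linear_combination -h3
  refine ⟨F, L, hFl, hFk, hexpL, fun m => ?_⟩
  induction m with
  | zero => simpa using h0
  | succ m ih =>
    -- two linked logarithms of `V_{m+1}`
    have hl1 : LogR g (Vf E s h w (m + 1)) (fun z => F (m + 1 + n) z + L) := by
      refine ⟨(hFl _).cont.add continuousOn_const, fun z hz => ?_, fun z hz k => ?_⟩
      · rw [Complex.exp_add, (hFl _).exp z hz, hexpL, Vf_add_Rs hB hS hK hw _ hz]
        field_simp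
      · rw [(hFl _).per z hz k]; ring
    have hk1 : Link g th (Vf E s h w (m + 1)) (w m) (F m) (fun z => F (m + 1 + n) z + L) := by
      intro k
      have h1 := hFk (m + n) k
      rw [hw m] at h1
      obtain ⟨Φ, a1, a2, a3, a4⟩ := h1
      refine ⟨fun z => Φ z + L, a1.add continuousOn_const, fun z hz => ?_, fun z hz hz' => ?_,
        fun z hz => ?_⟩
      · rw [Complex.exp_add, a2 z hz, hexpL, Vf_add_Qs hB hS hK hw _ hz]
        field_simp
      · simp only
        rw [a3 z hz hz']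
        have : m + n + 1 = m + 1 + n := by ring
        rw [this]
      · simp only
        rw [a4 z hz, ih z (Hs_sub _ _ _ _ hz)]; ring
    intro z hz
    have := Link.unique hp hk1 (hFk m) hl1 (hFl (m + 1)) z hz
    rw [← this]; ring

/-- **the exterior PLY inequality**, abstract form -/
theorem ply_end (hB : BD c g th E) (hS : SQ c g th E s) (hn : 1 ≤ n)
    (hw : ∀ i, w (i + n) = w i) (hK : KD c g s w n b ρ h) (hg4 : g ≤ 4) {θ : ℝ}
    (hth : th = 2 * Real.pi * θ) :
    ∃ L : ℂ, Complex.exp L = ρ ∧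
      ‖L - 2 * Real.pi * I * (Circ.nu w n θ : ℝ)‖ ^ 2 ≤ 81 * n * L.re := by
  have hp := hB.pos
  have hpi := Real.pi_pos
  have hU := isPathConnected_Ug hB
  obtain ⟨F, L, hFl, hFk, hexpL, hFn⟩ := exists_chain hB hS hU hn hw hK
  have hρ := hK.rho_ne
  have hre : L.re = Real.log ‖ρ‖ := by
    rw [← hexpL, Complex.norm_exp, Real.log_exp]
  -- the areas
  obtain ⟨a, ha0, ha, haper, hasum⟩ := exists_area hK.one_lt (n := n) (by omega)
    (W := fun m => Akd c g s w h m) (fun m => Akd_measurable hB hS hK m)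
    (fun m => by
      have := Akd_add (n := n) hw hB hS hK m 1
      simpa using this)
    (fun m hm m' hm' z hz z' hz' j hj => by
      have h1 : ¬ ((m' : ℤ) - n * j ≠ m) := by
        intro hne
        have := Set.disjoint_left.1 (Akd_zpow_disjoint hw hB hS hK hne) ⟨z', hz', rfl⟩
        exact this (by simp only; rw [← hj]; exact hz)
      push Not at h1
      have h2 : (n : ℤ) * j = m' - m := by linarith
      have h3 : j = 0 := by
        by_contra hj0
        have h4 := Int.one_le_abs hj0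
        have h5 : |(n : ℤ) * j| < n := by
          rw [h2, abs_lt]
          constructor <;> omega
        rw [abs_mul, Nat.abs_cast] at h5
        nlinarith [Int.natCast_nonneg n]
      rw [h3, mul_zero] at h2
      exact ⟨by omega, h3⟩)
  refine ⟨L, hexpL, ?_⟩
  -- boundedness of `F 0 (3 g / 4 + i x) - i x`
  have hmem : ∀ x : ℝ, (((3 * g / 4 : ℝ) : ℂ) + x * I) ∈ Rs g := fun x => by
    constructor
    · simp; linarith
    · simp; linarith
  have hPc : Continuous fun x : ℝ => F 0 (((3 * g / 4 : ℝ) : ℂ) + x * I) - x * I :=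
    ((hFl 0).cont.comp_continuous (by fun_prop) hmem).sub (by fun_prop)
  have hPp : Function.Periodic (fun x : ℝ => F 0 (((3 * g / 4 : ℝ) : ℂ) + x * I) - x * I)
      (2 * Real.pi) := by
    intro x
    have h1 := (hFl 0).per _ (hmem x) 1
    have h2 : (((3 * g / 4 : ℝ) : ℂ) + x * I) + ((1 : ℤ) : ℂ) * (2 * Real.pi * I)
      = ((3 * g / 4 : ℝ) : ℂ) + ((x + 2 * Real.pi : ℝ) : ℂ) * I := by push_cast; ring
    rw [h2] at h1
    simp only
    rw [h1]; push_cast; ring
  obtain ⟨K, hK'⟩ : ∃ K : ℝ, ∀ x : ℝ, ‖F 0 (((3 * g / 4 : ℝ) : ℂ) + x * I) - x * I‖ ≤ K := by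
    obtain ⟨K, hK'⟩ := (isCompact_Icc (a := (0 : ℝ)) (b := 2 * Real.pi)).exists_bound_of_continuousOn
      hPc.continuousOn
    refine ⟨K, fun x => ?_⟩
    obtain ⟨y, hy, hxy⟩ := hPp.exists_mem_Ico₀ (by positivity) x
    have hxy' : F 0 (((3 * g / 4 : ℝ) : ℂ) + x * I) - x * I
      = F 0 (((3 * g / 4 : ℝ) : ℂ) + y * I) - y * I := hxy
    rw [hxy']
    exact hK' y ⟨hy.1, hy.2.le⟩
  refine ply_lim (K₀ := 2 * K) ha0 haper ?_ ?_
  · have := hasum 1
    rw [mul_one] at this
    rw [hre]
    simpa using this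
  · intro J
    obtain ⟨T, X, k, c1, c2, c3, c4, c5⟩ := Circ.ply_clamp_rad w θ n hw J (g / 4) (by linarith)
      (by linarith)
    have hFJ : ∀ J : ℕ, ∀ z ∈ Rs g, F (n * J) z = F 0 z - J * L := by
      intro J
      induction J with
      | zero => intro z _; simp
      | succ J ih =>
        intro z hz
        have h1 := hFn (n * J) z hz
        have h2 : n * (J + 1) = n * J + n := by ring
        rw [h2, h1, ih z hz]; push_cast; ring
    -- the telescoping sum
    have htel : ∀ N ≤ n * J, ‖F N (((3 * g / 4 : ℝ) : ℂ) + T N * I)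
        - F 0 (((3 * g / 4 : ℝ) : ℂ) + T 0 * I)‖
        ≤ ∑ m ∈ Finset.range N, 9 / (2 * Real.sqrt Real.pi) * Real.sqrt (a m + a (m + 1)) := by
      intro N hN
      induction N with
      | zero => simp
      | succ N ih =>
        rw [Finset.sum_range_succ]
        have hN' : N < n * J := hN
        have hstep := one_step derBd_mu hB hS hK hn hg4 ha0 ha N (hFl N) (hFk N)
          (T := T N) (X := X N) (T' := T (N + 1)) (k := k N)
          (by have := (c1 N hN').1; rw [hth]; linarith)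
          (by have := (c1 N hN').2; rw [hth]; linarith)
          (by rw [c2 N hN']; ring)
          (by have := (c3 N hN').1; rw [hth]; linarith)
          (by have := (c3 N hN').2; rw [hth]; linarith)
          (c4 N hN')
        have h1 := ih hN'.le
        have h2 : F (N + 1) (((3 * g / 4 : ℝ) : ℂ) + T (N + 1) * I)
            - F 0 (((3 * g / 4 : ℝ) : ℂ) + T 0 * I)
            = (F N (((3 * g / 4 : ℝ) : ℂ) + T N * I) - F 0 (((3 * g / 4 : ℝ) : ℂ) + T 0 * I))
            + (F (N + 1) (((3 * g / 4 : ℝ) : ℂ) + T (N + 1) * I)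
            - F N (((3 * g / 4 : ℝ) : ℂ) + T N * I)) := by ring
        rw [h2]
        refine (norm_add_le _ _).trans (add_le_add h1 ?_)
        rw [add_comm (a N)]
        exact hstep
    refine ⟨T (n * J) - T 0 - J * (2 * Real.pi * Circ.nu w n θ), c5, ?_⟩
    have h1 := htel (n * J) le_rfl
    rw [hFJ J _ (hmem _), ← Finset.mul_sum] at h1
    set A : ℂ := F 0 (((3 * g / 4 : ℝ) : ℂ) + T (n * J) * I) with hA
    set B : ℂ := F 0 (((3 * g / 4 : ℝ) : ℂ) + T 0 * I) with hBdef
    have h2 : (J : ℂ) * L - I * ((J : ℂ) * (2 * Real.pi * (Circ.nu w n θ : ℝ)) +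
        ((T (n * J) - T 0 - J * (2 * Real.pi * Circ.nu w n θ) : ℝ) : ℂ))
        = ((A - T (n * J) * I) - (B - T 0 * I)) - ((A - J * L) - B) := by
      push_cast; ring
    have h3 := hK' (T (n * J))
    have h4 := hK' (T 0)
    calc _ = ‖((A - T (n * J) * I) - (B - T 0 * I)) - ((A - J * L) - B)‖ := by rw [← h2]
      _ ≤ ‖(A - T (n * J) * I) - (B - T 0 * I)‖ + ‖(A - J * L) - B‖ := norm_sub_le _ _
      _ ≤ (‖A - T (n * J) * I‖ + ‖B - T 0 * I‖) + ‖(A - J * L) - B‖ := by
          gcongr; exact norm_sub_le _ _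
      _ ≤ _ := by linarith

end Pool.Agent.Work.MLC
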