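import Mathlib
import Pool.Agent.Work.MLC.PlyDefs

set_option autoImplicit false

/-! # The inverse branch of `z ^ 2 + c` off the ray above the critical value  (helper5)

Main result: `exists_SQ`. The consequences are in `PlyBase.lean`. -/

namespace Pool.Agent.Work.MLC

open Filter Topology Metric Set Complex

/-- Lifting of a homotopy starting at the constant `1` through the exponential. -/
theorem q_exists_log_of_homotopy {A : Type*} [TopologicalSpace A]
    (H : C(unitInterval × A, ℂ)) (hne : ∀ p, H p ≠ 0) (h0 : ∀ a, H (0, a) = 1) :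
    ∃ l : C(A, ℂ), ∀ a, Complex.exp (l a) = H (1, a) := by
  have cov := Complex.isCoveringMap_exp
  let H' : C(unitInterval × A, {z : ℂ // z ≠ 0}) :=
    ⟨fun p => ⟨H p, hne p⟩, H.continuous.subtype_mk _⟩
  have H_0 : ∀ a, H' (0, a) = (fun z : ℂ ↦ (⟨_, z.exp_ne_zero⟩ : {z : ℂ // z ≠ 0}))
      ((ContinuousMap.const A (0 : ℂ)) a) := by
    intro a
    apply Subtype.ext
    simp [H', h0 a]
  refine ⟨⟨fun a => cov.liftHomotopy H' (ContinuousMap.const A (0 : ℂ)) H_0 (1, a), by
    fun_prop⟩, fun a => ?_⟩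
  have h1 := congrFun (cov.liftHomotopy_lifts H' (ContinuousMap.const A (0 : ℂ)) H_0) (1, a)
  have h2 := congrArg Subtype.val h1
  exact h2

variable {c : ℂ} {g th : ℝ} {E : ℂ → ℂ}

namespace BD

lemma q_G_zero (h : BD c g th E) : G c 0 = g / 2 := by
  have h1 := G_f c 0
  have h2 : f c 0 = c := by simp [f]
  rw [h2, h.G_c] at h1
  linarith

lemma q_continuousAt (h : BD c g th E) {z : ℂ} (hz : g / 2 < z.re) : ContinuousAt E z := by
  have ho : IsOpen {z : ℂ | g / 2 < z.re} := isOpen_lt continuous_const Complex.continuous_re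
  exact (h.hol.differentiableAt (ho.mem_nhds hz)).continuousAt

lemma q_ne_zero (h : BD c g th E) {z : ℂ} (hz : g / 2 < z.re) : E z ≠ 0 := by
  intro h0
  have h1 := h.G_E z hz
  rw [h0, h.q_G_zero] at h1
  linarith

lemma q_exists_R (h : BD c g th E) : ∃ R : ℝ, ∀ z : ℂ, R < z.re → ‖E z / Complex.exp z - 1‖ < 1 / 2 := by
  have h1 := h.asym
  rw [Metric.tendsto_nhds] at h1
  have h2 := h1 (1 / 2) (by norm_num)
  rw [Filter.eventually_comap] at h2
  obtain ⟨R, hR⟩ := (Filter.eventually_atTop.1 h2)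
  exact ⟨R, fun z hz => by
    have := hR z.re hz.le z rfl
    rwa [dist_eq_norm] at this⟩

/-- `‖E z‖ ≥ re z / 2` for large `re z` -/
lemma q_exists_norm_ge (h : BD c g th E) : ∃ R : ℝ, 0 < R ∧ ∀ z : ℂ, R < z.re → z.re / 2 ≤ ‖E z‖ := by
  obtain ⟨R, hR⟩ := h.q_exists_R
  refine ⟨max R 1, by positivity, fun z hz => ?_⟩
  have h1 := hR z (lt_of_le_of_lt (le_max_left _ _) hz)
  have h2 : (0 : ℝ) < z.re := lt_of_lt_of_le (by norm_num) ((le_max_right R 1).trans hz.le)
  have h3 : 1 / 2 ≤ ‖E z / Complex.exp z‖ := by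
    have := norm_sub_norm_le (1 : ℂ) (1 - E z / Complex.exp z)
    rw [norm_sub_rev] at h1
    simp only [norm_one, sub_sub_cancel] at this
    linarith
  rw [norm_div, Complex.norm_exp, le_div_iff₀ (Real.exp_pos _)] at h3
  have h4 : z.re ≤ Real.exp z.re := by linarith [Real.add_one_le_exp z.re]
  linarith

end BD

lemma q_re_ray (r th : ℝ) : ((r : ℂ) + th * I).re = r := by simp

lemma q_im_ray (r th : ℝ) : ((r : ℂ) + th * I).im = th := by simp

lemma q_mem_ray_iff (h : BD c g th E) {z : ℂ} :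
    z ∈ ray E g th ↔ g ≤ G c z ∧ z = E ((G c z : ℝ) + th * I) := by
  constructor
  · rintro ⟨r, hr, rfl⟩
    have hr' : g / 2 < ((r : ℂ) + th * I).re := by
      rw [q_re_ray]; have := h.pos; linarith
    rw [h.G_E _ hr', q_re_ray]
    exact ⟨hr, rfl⟩
  · rintro ⟨h1, h2⟩
    exact ⟨_, h1, h2⟩

lemma q_isClosed_ray (h : BD c g th E) : IsClosed (ray E g th) := by
  rw [isClosed_iff_clusterPt]
  intro z hz
  have hGc : Continuous (G c) := continuous_G_right c
  have h1 : g ≤ G c z := by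
    have hcl : IsClosed {z | g ≤ G c z} := isClosed_le continuous_const hGc
    have hsub : ray E g th ⊆ {z | g ≤ G c z} := fun y hy => ((q_mem_ray_iff h).1 hy).1
    exact hcl.closure_subset_iff.2 hsub (mem_closure_iff_clusterPt.2 hz)
  rw [q_mem_ray_iff h]
  refine ⟨h1, ?_⟩
  have hlt : g / 2 < ((G c z : ℝ) + th * I : ℂ).re := by
    rw [q_re_ray]; have := h.pos; linarith
  have hF : ContinuousAt (fun y => E ((G c y : ℝ) + th * I)) z := by
    have h2 : ContinuousAt (fun y : ℂ => ((G c y : ℝ) : ℂ) + th * I) z := by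
      have := hGc.continuousAt (x := z)
      fun_prop
    exact ContinuousAt.comp (f := fun y : ℂ => ((G c y : ℝ) : ℂ) + th * I) (g := E)
      (h.q_continuousAt hlt) h2
  have hcl : ∃ᶠ y in 𝓝 z, y - E ((G c y : ℝ) + th * I) = 0 := by
    have h3 : ∃ᶠ y in 𝓝 z, y ∈ ray E g th := mem_closure_iff_frequently.1
      (mem_closure_iff_clusterPt.2 hz)
    exact h3.mono fun y hy => sub_eq_zero.2 ((q_mem_ray_iff h).1 hy).2
  have hF2 : ContinuousAt (fun y => y - E ((G c y : ℝ) + th * I)) z := continuousAt_id.sub hF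
  by_contra hne
  have hne' : z - E ((G c z : ℝ) + th * I) ≠ 0 := sub_ne_zero.2 hne
  have h4 := hF2.eventually_ne hne'
  exact hcl (h4.mono fun y hy => hy)

lemma q_crit_mem_ray (h : BD c g th E) : c ∈ ray E g th := ⟨g, le_rfl, h.crit.symm⟩

lemma q_not_mem_ray_of_mem_Ug (h : BD c g th E) {z : ℂ} (hz : z ∈ Ug c g) : z ∉ ray E g th :=
  fun hr => absurd ((q_mem_ray_iff h).1 hr).1 (not_le.2 hz)

/-- the point `1 / E (g / t + i th)`, `0` for `t = 0` -/
noncomputable def q_invE (E : ℂ → ℂ) (g th : ℝ) (t : ℝ) : ℂ :=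
  if t = 0 then 0 else (E (((g / t : ℝ) : ℂ) + th * I))⁻¹

lemma q_continuousOn_invE (h : BD c g th E) : ContinuousOn (q_invE E g th) (Set.Icc 0 1) := by
  intro t ht
  rcases eq_or_lt_of_le ht.1 with h0 | h0
  · -- t = 0
    subst h0
    obtain ⟨R, hR0, hR⟩ := h.q_exists_norm_ge
    have hg := h.pos
    have hval : q_invE E g th 0 = 0 := by simp [q_invE]
    rw [ContinuousWithinAt, hval, tendsto_zero_iff_norm_tendsto_zero]
    have hlin : Tendsto (fun t : ℝ => 2 * t / g) (𝓝[Icc 0 1] 0) (𝓝 0) := by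
      have : Tendsto (fun t : ℝ => 2 * t / g) (𝓝 0) (𝓝 (2 * 0 / g)) := by
        have : Continuous fun t : ℝ => 2 * t / g := by fun_prop
        exact this.tendsto 0
      simp only [mul_zero, zero_div] at this
      exact this.mono_left nhdsWithin_le_nhds
    refine squeeze_zero' (Eventually.of_forall fun t => norm_nonneg _) ?_ hlin
    have hev : ∀ᶠ t in 𝓝[Icc 0 1] (0 : ℝ), t < g / R :=
      nhdsWithin_le_nhds (Iio_mem_nhds (by positivity))
    filter_upwards [hev, self_mem_nhdsWithin] with t ht1 ht2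
    rcases eq_or_lt_of_le ht2.1 with h1 | h1
    · rw [← h1]; simp [q_invE]
    · have hre : ((((g / t : ℝ) : ℂ)) + th * I).re = g / t := q_re_ray _ _
      have hRt : R < g / t := by
        rw [lt_div_iff₀ h1]
        rw [lt_div_iff₀ hR0] at ht1
        linarith
      have h2 := hR _ (by rw [hre]; exact hRt)
      rw [hre] at h2
      rw [q_invE, if_neg h1.ne', norm_inv]
      have h3 : 0 < g / t := by positivity
      calc ‖E (((g / t : ℝ) : ℂ) + th * I)‖⁻¹ ≤ (g / t / 2)⁻¹ := by
            apply inv_anti₀ (by positivity) h2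
        _ = 2 * t / g := by field_simp
  · apply ContinuousAt.continuousWithinAt
    have hre : g / 2 < ((((g / t : ℝ) : ℂ)) + th * I).re := by
      rw [q_re_ray]
      have hg := h.pos
      have : g ≤ g / t := by
        rw [le_div_iff₀ h0]; nlinarith [ht.2]
      linarith
    have h1 : ContinuousAt (fun t : ℝ => (E (((g / t : ℝ) : ℂ) + th * I))⁻¹) t := by
      refine ContinuousAt.inv₀ ?_ (h.q_ne_zero hre)
      have h2 : ContinuousAt (fun t : ℝ => (((g / t : ℝ) : ℂ)) + th * I) t := by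
        have h3 : ContinuousAt (fun t : ℝ => g / t) t := continuousAt_const.div continuousAt_id h0.ne'
        fun_prop
      exact ContinuousAt.comp (f := fun t : ℝ => (((g / t : ℝ) : ℂ)) + th * I) (g := E)
        (h.q_continuousAt hre) h2
    refine h1.congr ?_
    filter_upwards [Ioi_mem_nhds h0] with s hs
    rw [q_invE, if_neg (ne_of_gt hs)]

lemma q_invE_spec (h : BD c g th E) {t : ℝ} (ht : t ∈ Set.Icc (0 : ℝ) 1) {z : ℂ}
    (hz : z ∉ ray E g th) : 1 - z * q_invE E g th t ≠ 0 := by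
  rcases eq_or_lt_of_le ht.1 with h0 | h0
  · rw [← h0]; simp [q_invE]
  · intro hcon
    have hg := h.pos
    have hle : g ≤ g / t := by
      rw [le_div_iff₀ h0]; nlinarith [ht.2]
    have hre : g / 2 < ((((g / t : ℝ) : ℂ)) + th * I).re := by
      rw [q_re_ray]; linarith
    have hne := h.q_ne_zero hre
    rw [q_invE, if_neg h0.ne'] at hcon
    apply hz
    refine ⟨g / t, hle, ?_⟩
    have : z * (E (((g / t : ℝ) : ℂ) + th * I))⁻¹ = 1 := by linear_combination -hcon
    field_simp at this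
    exact this

/-- a continuous square root of `z - c` off the ray, with a continuous logarithm -/
theorem q_exists_pre (h : BD c g th E) : ∃ l : ℂ → ℂ, ContinuousOn l (ray E g th)ᶜ ∧
    ∀ z ∉ ray E g th, Complex.exp (l z) ^ 2 = z - c := by
  classical
  set X : Set ℂ := (ray E g th)ᶜ with hX
  have hcont : Continuous fun p : unitInterval × X =>
      1 - (p.2 : ℂ) * q_invE E g th (p.1 : ℝ) := by
    have h1 : Continuous fun t : unitInterval => q_invE E g th (t : ℝ) :=
      (q_continuousOn_invE h).comp_continuous continuous_subtype_val (fun t => t.2)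
    have h2 : Continuous fun p : unitInterval × X => q_invE E g th (p.1 : ℝ) :=
      h1.comp continuous_fst
    have h3 : Continuous fun p : unitInterval × X => (p.2 : ℂ) :=
      continuous_subtype_val.comp continuous_snd
    exact continuous_const.sub (h3.mul h2)
  obtain ⟨l, hl⟩ := q_exists_log_of_homotopy (A := X) ⟨_, hcont⟩
    (fun p => q_invE_spec h p.1.2 p.2.2) (fun a => by simp [q_invE])
  have hc0 : c ≠ 0 := by
    rw [← h.crit]
    refine h.q_ne_zero ?_
    rw [q_re_ray]; have := h.pos; linarith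
  obtain ⟨k, hk⟩ : ∃ k : ℂ, Complex.exp k = -c :=
    ⟨Complex.log (-c), Complex.exp_log (neg_ne_zero.2 hc0)⟩
  refine ⟨fun z => if hz : z ∈ X then (l ⟨z, hz⟩ + k) / 2 else 0, ?_, fun z hz => ?_⟩
  · rw [continuousOn_iff_continuous_domRestrict]
    have : (X.domRestrict fun z => if hz : z ∈ X then (l ⟨z, hz⟩ + k) / 2 else 0) =
        fun z : X => (l z + k) / 2 := by
      funext z
      simp [Set.domRestrict]
    rw [this]
    fun_prop
  · have hz' : z ∈ X := hz
    simp only [hz', dif_pos]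
    rw [← Complex.exp_nat_mul]
    have h1 : ((2 : ℕ) : ℂ) * ((l ⟨z, hz'⟩ + k) / 2) = l ⟨z, hz'⟩ + k := by push_cast; ring
    rw [h1, Complex.exp_add, hl, hk]
    have h2 : q_invE E g th ((1 : unitInterval) : ℝ) = c⁻¹ := by
      simp only [Set.Icc.coe_one, q_invE, one_ne_zero, if_false, div_one, h.crit]
    simp only [ContinuousMap.coe_mk]
    rw [h2]
    field_simp
    ring

/-- a continuous square root is holomorphic -/
lemma q_hasDerivAt_of_sq {s : ℂ → ℂ} {X : Set ℂ} (hX : IsOpen X) (hs : ContinuousOn s X)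
    (hsq : ∀ z ∈ X, s z ^ 2 = z - c) (hne : ∀ z ∈ X, s z ≠ 0) {z : ℂ} (hz : z ∈ X) :
    HasDerivAt s (1 / (2 * s z)) z := by
  have hc : ContinuousAt s z := hs.continuousAt (hX.mem_nhds hz)
  have h2 : s z + s z ≠ 0 := by
    have := hne z hz
    rw [← two_mul]
    exact mul_ne_zero two_ne_zero this
  have hc2 : ContinuousAt (fun y => s y + s z) z := hc.add continuousAt_const
  rw [hasDerivAt_iff_tendsto_slope]
  have h3 : Tendsto (fun y => 1 / (s y + s z)) (𝓝[≠] z) (𝓝 (1 / (2 * s z))) := by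
    have h4 : ContinuousAt (fun y => 1 / (s y + s z)) z := continuousAt_const.div hc2 h2
    have h5 := h4.tendsto
    rw [← two_mul] at h5
    exact h5.mono_left nhdsWithin_le_nhds
  refine h3.congr' ?_
  have h6 : ∀ᶠ y in 𝓝[≠] z, s y + s z ≠ 0 := nhdsWithin_le_nhds (hc2.eventually_ne h2)
  have h7 : ∀ᶠ y in 𝓝[≠] z, y ∈ X := nhdsWithin_le_nhds (hX.mem_nhds hz)
  filter_upwards [h6, h7, self_mem_nhdsWithin] with y h8 h9 h10
  rw [slope_def_field]
  have h11 : (s y + s z) * (s y - s z) = y - z := by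
    have e1 := hsq y h9
    have e2 := hsq z hz
    linear_combination e1 - e2
  have h12 : y - z ≠ 0 := sub_ne_zero.2 h10
  rw [eq_div_iff h12, ← h11]
  field_simp

/-- the half planes region `Q₀` is mapped off the ray -/
lemma q_E_not_mem_ray (h : BD c g th E) {z : ℂ} (hz : g / 2 < z.re) (j : ℤ)
    (h1 : th + 2 * Real.pi * j < z.im) (h2 : z.im < th + 2 * Real.pi * (j + 1)) :
    E z ∉ ray E g th := by
  rintro ⟨r, hr, hE⟩
  have hg := h.pos
  obtain ⟨k, hk⟩ := h.inj z (r + th * I) hz (by rw [q_re_ray]; linarith) hE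
  have h3 := congrArg Complex.im hk
  have h4 : ((r : ℂ) + th * I + k * (2 * Real.pi * I)).im = th + 2 * Real.pi * k := by
    simp; ring
  rw [h4] at h3
  have hpi : 0 < 2 * Real.pi := by positivity
  have h5 : (j : ℝ) < k := by
    by_contra hcon
    have := mul_le_mul_of_nonneg_left (not_lt.1 hcon) hpi.le
    linarith
  have h6 : (k : ℝ) < j + 1 := by
    by_contra hcon
    have := mul_le_mul_of_nonneg_left (not_lt.1 hcon) hpi.le
    linarith
  have h7 : j < k := by exact_mod_cast h5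
  have h8 : k < j + 1 := by exact_mod_cast h6
  omega

/-- on a preconnected set of logarithmic coordinates the root is `± E (z / 2)` -/
lemma q_sq_root_E (h : BD c g th E) {s : ℂ → ℂ} (hs : ContinuousOn s (ray E g th)ᶜ)
    (hsq : ∀ z ∉ ray E g th, s z ^ 2 = z - c) {Q : Set ℂ} (hQ : IsPreconnected Q)
    (hre : ∀ z ∈ Q, g < z.re) (hray : ∀ z ∈ Q, E z ∉ ray E g th) :
    (∀ z ∈ Q, s (E z) = E (z / 2)) ∨ (∀ z ∈ Q, s (E z) = - E (z / 2)) := by
  have hg := h.pos
  have hre2 : ∀ z ∈ Q, g / 2 < (z / 2).re := by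
    intro z hz
    have h1 : (z / 2).re = z.re / 2 := by simp
    rw [h1]; have := hre z hz; linarith
  have hc1 : ContinuousOn (fun z => s (E z)) Q := by
    refine hs.comp (fun z hz => (h.q_continuousAt ?_).continuousWithinAt) fun z hz => hray z hz
    have := hre z hz; linarith
  have hc2 : ContinuousOn (fun z => E (z / 2)) Q := by
    intro z hz
    have h1 : ContinuousAt (fun z : ℂ => z / 2) z := by fun_prop
    exact (ContinuousAt.comp (f := fun z : ℂ => z / 2) (g := E)
      (h.q_continuousAt (hre2 z hz)) h1).continuousWithinAt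
  have hsq' : EqOn ((fun z => s (E z)) ^ 2) ((fun z => E (z / 2)) ^ 2) Q := by
    intro z hz
    simp only [Pi.pow_apply]
    have h1 := h.dbl (z / 2) (hre2 z hz)
    rw [mul_div_cancel₀ z (two_ne_zero' ℂ), f_apply] at h1
    rw [hsq _ (hray z hz), h1]
    ring
  rcases hQ.eq_or_eq_neg_of_sq_eq hc1 hc2 hsq' (fun {z} hz => h.q_ne_zero (hre2 z hz)) with h1 | h1
  · exact Or.inl fun z hz => h1 hz
  · exact Or.inr fun z hz => by simpa using h1 hz

/-- the strip `Q_j` -/
lemma q_isPreconnected_strip (a b d : ℝ) :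
    IsPreconnected {z : ℂ | a < z.re ∧ b < z.im ∧ z.im < d} := by
  have h1 : Convex ℝ {z : ℂ | a < z.re ∧ b < z.im ∧ z.im < d} := by
    have e : {z : ℂ | a < z.re ∧ b < z.im ∧ z.im < d} =
        {z : ℂ | a < z.re} ∩ ({z : ℂ | b < z.im} ∩ {z : ℂ | z.im < d}) := by
      ext z; simp
    rw [e]
    exact (convex_halfSpace_re_gt a).inter
      ((convex_halfSpace_im_gt b).inter (convex_halfSpace_im_lt d))
  exact h1.isPreconnected

theorem exists_SQ (h : BD c g th E) : ∃ s : ℂ → ℂ, SQ c g th E s := by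
  obtain ⟨l, hl, hsq⟩ := q_exists_pre h
  have hopen : IsOpen (ray E g th)ᶜ := (q_isClosed_ray h).isOpen_compl
  set s : ℂ → ℂ := fun z => Complex.exp (l z) with hs
  have hsc : ContinuousOn s (ray E g th)ᶜ := Complex.continuous_exp.comp_continuousOn hl
  have hholo : ∀ (s : ℂ → ℂ), ContinuousOn s (ray E g th)ᶜ → (∀ z ∉ ray E g th, s z ^ 2 = z - c) →
      (∀ z, z ∉ ray E g th → s z ≠ 0) → DifferentiableOn ℂ s (ray E g th)ᶜ :=
    fun s h1 h2 h3 z hz =>
      (q_hasDerivAt_of_sq hopen h1 h2 h3 hz).differentiableAt.differentiableWithinAt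
  have hQ := q_isPreconnected_strip g th (th + 2 * Real.pi)
  rcases q_sq_root_E h hsc hsq hQ (fun z hz => hz.1) (fun z hz => by
      refine q_E_not_mem_ray h ?_ 0 (by simpa using hz.2.1) (by simpa using hz.2.2)
      have := h.pos; have := hz.1; linarith) with h1 | h1
  · exact ⟨s, hholo s hsc hsq (fun z _ => Complex.exp_ne_zero _), hsq,
      ⟨l, hl, fun z _ => rfl⟩, fun z h2 h3 h4 => h1 z ⟨h2, h3, h4⟩⟩
  · have hsc' : ContinuousOn (fun z => - s z) (ray E g th)ᶜ := hsc.neg
    have hsq' : ∀ z ∉ ray E g th, (- s z) ^ 2 = z - c := fun z hz => by rw [neg_sq]; exact hsq z hz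
    refine ⟨fun z => - s z, hholo _ hsc' hsq' (fun z _ => neg_ne_zero.2 (Complex.exp_ne_zero _)),
      hsq', ⟨fun z => l z + Real.pi * I, hl.add continuousOn_const, fun z _ => ?_⟩,
      fun z h2 h3 h4 => ?_⟩
    · rw [Complex.exp_add, Complex.exp_pi_mul_I]
      simp [hs]
    · have := h1 z ⟨h2, h3, h4⟩
      simp only [this, neg_neg]

end Pool.Agent.Work.MLC
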