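import Pool.Agent.Work.MLC.Defs
import Pool.Agent.Work.MLC.PlyBD
import Pool.Agent.Work.MLC.PlySqrt
import Pool.Agent.Work.MLC.PlyEnd
import Pool.Agent.Work.MLC.PlyBound

set_option autoImplicit false

/-! # The exterior PLY inequality for the pairs `Ext n c b θ w`  (helper14) -/

namespace Pool.Agent.Work.MLC

open Filter Topology Metric Set Complex

variable {c : ℂ} {θ : ℝ} {sq : ℂ → ℂ}

lemma ext_hasDerivAt_f (c z : ℂ) : HasDerivAt (f c) (2 * z) z := by
  have h : HasDerivAt (fun z : ℂ => z ^ 2 + c) (2 * z) z := by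
    simpa using (hasDerivAt_pow 2 z).add_const c
  exact h

lemma ext_hasDerivAt_it (n : ℕ) (c z : ℂ) : HasDerivAt (it c n) (mult n c z) z := by
  induction n with
  | zero =>
    have h1 : it c 0 = id := rfl
    have h2 : mult 0 c z = 1 := by simp [mult]
    rw [h1, h2]
    exact hasDerivAt_id z
  | succ n ih =>
    have h1 : it c (n + 1) = fun z => f c (it c n z) := by
      funext z; exact it_succ c n z
    have h2 := (ext_hasDerivAt_f c (it c n z)).comp z ih
    rw [h1]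
    have h3 : mult (n + 1) c z = 2 * it c n z * mult n c z := by
      unfold mult
      rw [Finset.prod_range_succ, mul_comm]
    rw [h3]
    exact h2

lemma ext_deriv_it (n : ℕ) (c z : ℂ) : deriv (it c n) z = mult n c z := (ext_hasDerivAt_it n c z).deriv

lemma half_notMem_ray (hB : BD c (G c c) (2 * Real.pi * θ) (eta c)) {e : ℤ} {L : ℂ}
    (h1 : G c c / 4 < L.re) (h2 : Real.pi * (θ + e) < L.im)
    (h3 : L.im < Real.pi * (θ + e + 1)) :
    eta c (2 * L) ∉ ray (eta c) (G c c) (2 * Real.pi * θ) := by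
  refine hB.E_ne_ray (by simp; linarith) (fun k hk => ?_)
  have hpi := Real.pi_pos
  have him : (2 * L).im = 2 * L.im := by simp
  rw [him] at hk
  have h5 : (e : ℝ) < k := by
    by_contra hcon
    have := not_lt.1 hcon
    nlinarith
  have h6 : (k : ℝ) < e + 1 := by
    by_contra hcon
    have := not_lt.1 hcon
    nlinarith
  have h7 : e < k := by exact_mod_cast h5
  have h8 : k < e + 1 := by exact_mod_cast h6
  omega

lemma isHalf_eq (hB : BD c (G c c) (2 * Real.pi * θ) (eta c))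
    (hS : SQ c (G c c) (2 * Real.pi * θ) (eta c) sq) {e : ℤ} {h : ℂ → ℂ}
    (hh : IsHalf c (θ + e) h) {L : ℂ} (h1 : G c c / 4 < L.re) (h2 : Real.pi * (θ + e) < L.im)
    (h3 : L.im < Real.pi * (θ + e + 1)) : h L = sb sq e (eta c (2 * L)) := by
  have hp := hB.pos
  have hpi := Real.pi_pos
  obtain ⟨a1, a2, a3⟩ := hh
  set S : Set ℂ := {L | G c c / 4 < L.re ∧ Real.pi * (θ + e) < L.im ∧ L.im < Real.pi * (θ + e + 1)}
    with hSdef
  have hray : ∀ L ∈ S, eta c (2 * L) ∉ ray (eta c) (G c c) (2 * Real.pi * θ) :=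
    fun L hL => half_notMem_ray hB hL.1 hL.2.1 hL.2.2
  have hconv : IsPreconnected S := ((convex_halfSpace_re_gt _).inter
    ((convex_halfSpace_im_gt _).inter (convex_halfSpace_im_lt _))).isPreconnected
  have hcont : ContinuousOn (fun L => sb sq e (eta c (2 * L))) S := by
    refine ((hS.differentiableOn_sb e).continuousOn).comp (t := (ray (eta c) (G c c) (2 * Real.pi * θ))ᶜ)
      (f := fun L => eta c (2 * L)) ?_ hray
    exact hB.continuousOn_E.comp (f := fun L : ℂ => 2 * L) (by fun_prop) (fun L hL => by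
      have := hL.1
      simp only [mem_ofPred_eq, mul_re, re_ofNat, im_ofNat, zero_mul, sub_zero]
      linarith)
  -- the base point
  set L₀ : ℂ := ((G c c : ℝ) : ℂ) + ((Real.pi * (θ + e) + Real.pi / 2 : ℝ) : ℂ) * I with hL₀
  have hre : L₀.re = G c c := by rw [hL₀]; simp
  have him : L₀.im = Real.pi * (θ + e) + Real.pi / 2 := by rw [hL₀]; simp
  have hL₀S : L₀ ∈ S := ⟨by rw [hre]; linarith, by rw [him]; linarith, by rw [him]; linarith⟩
  have hbase : h L₀ = sb sq e (eta c (2 * L₀)) := by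
    rw [a3 L₀ (by rw [hre]; linarith) hL₀S.2.1 hL₀S.2.2]
    exact (SQ.sb_E hB hS (by rw [hre]; linarith) e 0 (by rw [him]; simp; linarith)
      (by rw [him]; simp; linarith)).symm
  have := hconv.eq_of_sq_eq (f := h) (g := fun L => sb sq e (eta c (2 * L))) a1.continuousOn hcont
    (fun L hL => by
      simp only [Pi.pow_apply]
      rw [sb_sq, hS.sq _ (hray L hL), ← a2 L hL.1 hL.2.1 hL.2.2, f_apply]; ring)
    (fun {L} hL => hS.sb_ne_zero (hray L hL) e) hL₀S hbase
  exact this ⟨h1, h2, h3⟩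

lemma isInv_eq (hB : BD c (G c c) (2 * Real.pi * θ) (eta c))
    (hS : SQ c (G c c) (2 * Real.pi * θ) (eta c) sq) {e : ℤ} {ψ : ℂ → ℂ}
    (hψ : IsInv c (θ + e) ψ) {v : ℂ} (hv : G c v < G c c) : ψ v = sb sq e v := by
  have hp := hB.pos
  have hpi := Real.pi_pos
  obtain ⟨a1, a2, h, hh, a3⟩ := hψ
  set L₀ : ℂ := ((3 * G c c / 8 : ℝ) : ℂ) + ((Real.pi * (θ + e) + Real.pi / 2 : ℝ) : ℂ) * I
    with hL₀
  have hre : L₀.re = 3 * G c c / 8 := by rw [hL₀]; simp
  have him : L₀.im = Real.pi * (θ + e) + Real.pi / 2 := by rw [hL₀]; simp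
  have hmem : eta c (2 * L₀) ∈ Ug c (G c c) := by
    refine hB.E_mem ?_ ?_
    · simp [hre]; linarith
    · simp [hre]; linarith
  have hbase : ψ (eta c (2 * L₀)) = sb sq e (eta c (2 * L₀)) := by
    rw [a3 L₀ (by rw [hre]; linarith) (by rw [hre]; linarith) (by rw [him]; linarith)
      (by rw [him]; linarith)]
    exact isHalf_eq hB hS hh (by rw [hre]; linarith) (by rw [him]; linarith)
      (by rw [him]; linarith)
  have := (isPreconnected_Ug hB).eq_of_sq_eq (f := ψ) (g := sb sq e) a1.continuousOn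
    (hS.differentiableOn_sb' hB e).continuousOn (fun z hz => by
      simp only [Pi.pow_apply]
      have h2 := a2 z hz
      rw [f_apply] at h2
      rw [sb_sq, hS.sq _ (hB.Ug_ray hz)]
      linear_combination h2)
    (fun {z} hz => hS.sb_ne_zero (hB.Ug_ray hz) e) hmem hbase
  exact this hv

/-- `Side` in terms of the branch `sb sq e` -/
lemma side_iff (hB : BD c (G c c) (2 * Real.pi * θ) (eta c))
    (hS : SQ c (G c c) (2 * Real.pi * θ) (eta c) sq) {e : ℤ} {z : ℂ} :
    Side c (θ + e) z ↔ G c (f c z) < G c c ∧ z = sb sq e (f c z) := by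
  have hp := hB.pos
  constructor
  · rintro ⟨h1, ψ, hψ, h2⟩
    exact ⟨h1, by rw [← isInv_eq hB hS hψ h1, h2]⟩
  · rintro ⟨h1, h2⟩
    refine ⟨h1, sb sq e, ⟨hS.differentiableOn_sb' hB e, fun v hv => hS.f_sb (hB.Ug_ray hv) e,
      fun L => sb sq e (eta c (2 * L)), ⟨?_, ?_, ?_⟩, fun L _ _ _ _ => rfl⟩, h2.symm⟩
    · refine (hS.differentiableOn_sb e).comp (t := (ray (eta c) (G c c) (2 * Real.pi * θ))ᶜ)
        (f := fun L => eta c (2 * L)) ?_ (fun L hL => half_notMem_ray hB hL.1 hL.2.1 hL.2.2)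
      exact hB.hol.comp (f := fun L : ℂ => 2 * L) (by fun_prop) (fun L hL => by
        have := hL.1
        simp only [mem_ofPred_eq, mul_re, re_ofNat, im_ofNat, zero_mul, sub_zero]
        linarith)
    · intro L h3 h4 h5
      exact hS.f_sb (half_notMem_ray hB h3 h4 h5) e
    · intro L h3 h4 h5
      refine SQ.sb_E hB hS h3 e 0 ?_ ?_
      · simp only [Int.cast_zero, zero_mul, add_zero]; linarith
      · simp only [Int.cast_zero, zero_mul, add_zero]; linarith

/-- **the exterior PLY inequality** -/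
theorem ext_ply {n : ℕ} {c b : ℂ} {θ : ℝ} {w : ℕ → ℤ} (h : Ext n c b θ w) (hc : G c c ≤ 4) :
    ∃ ℓ : ℂ, Complex.exp ℓ = mult n c b ∧
      ‖ℓ - 2 * Real.pi * (Circ.nu w n θ : ℝ) * I‖ ^ 2 ≤ 81 * n * ℓ.re := by
  obtain ⟨hG, heta, hper, hw01, hw, hside⟩ := h
  have hB : BD c (G c c) (2 * Real.pi * θ) (eta c) := BD_eta hG (by
    have h1 : ((G c c : ℝ) : ℂ) + ((2 * Real.pi * θ : ℝ) : ℂ) * I
        = (G c c : ℂ) + 2 * Real.pi * θ * I := by push_cast; ring
    rw [h1]; exact heta)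
  obtain ⟨sq, hS⟩ := exists_SQ hB
  have hn : 1 ≤ n := hper.1
  have hfix : it c n b = b := hper.2
  have hbs : ∀ m, it c m b = sb sq (w m) (it c (m + 1) b) := by
    intro m
    have := ((side_iff hB hS).1 (hside m)).2
    rw [← it_succ] at this
    exact this
  have hgc : gc sq w n b = b := by
    have := gc_itin hbs n
    rwa [hfix] at this
  have hbU : b ∈ Ug c (G c c) := by
    show G c b < G c c
    rw [G_zero_of_per hn hfix]; exact hG
  obtain ⟨hk, hK⟩ := exists_KD hB hS hn hw hbU hgc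
  obtain ⟨L, hL1, hL2⟩ := ply_end hB hS hn hw hK hc rfl
  refine ⟨L, by rw [hL1, ext_deriv_it], ?_⟩
  have : (2 * Real.pi * (Circ.nu w n θ : ℝ) * I : ℂ) = 2 * Real.pi * I * (Circ.nu w n θ : ℝ) := by
    ring
  rw [this]
  exact hL2

/-- the exterior PLY inequality for multipliers of modulus `< 23 / 10` -/
theorem ext_ply_of_mult_lt {n : ℕ} {c b : ℂ} {θ : ℝ} {w : ℕ → ℤ} (h : Ext n c b θ w)
    (hm : ‖mult n c b‖ < 23 / 10) :
    ∃ ℓ : ℂ, Complex.exp ℓ = mult n c b ∧
      ‖ℓ - 2 * Real.pi * (Circ.nu w n θ : ℝ) * I‖ ^ 2 ≤ 81 * n * ℓ.re := by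
  exact ext_ply h (G_le_four_of_mult_lt h.2.2.1.1 h.2.2.1.2 hm)

end Pool.Agent.Work.MLC
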