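import Pool.Agent.Work.MLC.PlyKoe

/-! # The sum of the areas of the annuli (glue for the exterior PLY)  (helper13) -/

set_option autoImplicit false

namespace Pool.Agent.Work.MLC

open Metric Filter Topology Set MeasureTheory

variable {c : ℂ} {g th : ℝ} {E s h : ℂ → ℂ} {w : ℕ → ℤ} {n : ℕ} {b ρ : ℂ}

/-- the union of one period of annuli is disjoint from its images under `ρ ^ j`, `j ≠ 0` -/
theorem iUnion_Akd_disjoint (hw : ∀ i, w (i + n) = w i) (hB : BD c g th E)
    (hS : SQ c g th E s) (hK : KD c g s w n b ρ h) {j : ℤ} (hj : j ≠ 0) :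
    Disjoint ((fun z => ρ ^ j * z) '' ⋃ m ∈ Finset.range n, Akd c g s w h m)
      (⋃ m ∈ Finset.range n, Akd c g s w h m) := by
  rw [Set.disjoint_left]
  rintro _ ⟨x, hx, rfl⟩ hx'
  simp only [mem_iUnion, Finset.mem_range, exists_prop] at hx hx'
  obtain ⟨m, hm, hx⟩ := hx
  obtain ⟨m', hm', hx'⟩ := hx'
  have h1 : (m : ℤ) - n * j ≠ m' := by
    intro h
    have h2 : (n : ℤ) * j = m - m' := by linarith
    have h3 : |(n : ℤ) * j| < n := by rw [h2, abs_lt]; constructor <;> linarith [Int.natCast_nonneg m, Int.natCast_nonneg m', Int.ofNat_lt.2 hm, Int.ofNat_lt.2 hm']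
    rw [abs_mul, Nat.abs_cast] at h3
    have h4 : 1 ≤ |j| := Int.one_le_abs hj
    nlinarith [Int.natCast_nonneg n]
  exact Set.disjoint_left.1 (Akd_zpow_disjoint hw hB hS hK h1) ⟨x, hx, rfl⟩ hx'

/-- the torus lemma gives the bound for the sum over one period -/
theorem sum_Akd_le (μ : Measure ℂ) {B : ENNReal} (hw : ∀ i, w (i + n) = w i) (hB : BD c g th E)
    (hS : SQ c g th E s) (hK : KD c g s w n b ρ h)
    (htorus : ∀ W : Set ℂ, MeasurableSet W →
      (∀ j : ℤ, j ≠ 0 → Disjoint ((fun z => ρ ^ j * z) '' W) W) → μ W ≤ B) :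
    ∑ m ∈ Finset.range n, μ (Akd c g s w h m) ≤ B := by
  rw [← measure_biUnion_finset (fun m _ m' _ hm => Akd_disjoint hB hS hK hm)
    (fun m _ => Akd_measurable hB hS hK m)]
  refine htorus _ (Finset.measurableSet_biUnion _ fun m _ => Akd_measurable hB hS hK m)
    fun j hj => iUnion_Akd_disjoint hw hB hS hK hj

/-- invariance under `z ↦ a z` gives periodicity of the areas -/
theorem measure_Akd_add (μ : Measure ℂ) (hμ : ∀ (a : ℂ) (W : Set ℂ), a ≠ 0 →
    μ ((fun z => a * z) '' W) = μ W) (hw : ∀ i, w (i + n) = w i) (hB : BD c g th E)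
    (hS : SQ c g th E s) (hK : KD c g s w n b ρ h) (m k : ℕ) :
    μ (Akd c g s w h (m + n * k)) = μ (Akd c g s w h m) := by
  have hρ0 : ρ ≠ 0 := by
    intro h0
    have := hK.one_lt
    rw [h0, norm_zero] at this
    linarith
  rw [Akd_add hw hB hS hK, hμ _ _ (zpow_ne_zero _ hρ0)]

/-- the sum over `J` periods -/
theorem sum_Akd_mul_le (μ : Measure ℂ) {B : ENNReal} (hw : ∀ i, w (i + n) = w i)
    (hB : BD c g th E) (hS : SQ c g th E s) (hK : KD c g s w n b ρ h)
    (hμ : ∀ (a : ℂ) (W : Set ℂ), a ≠ 0 → μ ((fun z => a * z) '' W) = μ W)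
    (htorus : ∀ W : Set ℂ, MeasurableSet W →
      (∀ j : ℤ, j ≠ 0 → Disjoint ((fun z => ρ ^ j * z) '' W) W) → μ W ≤ B) (J : ℕ) :
    ∑ m ∈ Finset.range (J * n), μ (Akd c g s w h m) ≤ J * B := by
  induction J with
  | zero => simp
  | succ J ih =>
    rw [Nat.succ_mul, Finset.sum_range_add]
    have h1 : ∑ x ∈ Finset.range n, μ (Akd c g s w h (J * n + x)) =
        ∑ m ∈ Finset.range n, μ (Akd c g s w h m) := by
      refine Finset.sum_congr rfl fun x _ => ?_
      rw [← measure_Akd_add μ hμ hw hB hS hK x J]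
      congr 2; ring
    rw [h1]
    push_cast
    rw [add_mul, one_mul]
    exact add_le_add ih (sum_Akd_le μ hw hB hS hK htorus)

end Pool.Agent.Work.MLC
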