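import Pool.Agent.Work.MLC.PlyExt
import Pool.Agent.Work.MLC.PlySum

set_option autoImplicit false

/-! # The multiplier grows with the potential: `n G_M(c) / 2 ≤ log |mult|`  (helper13) -/

namespace Pool.Agent.Work.MLC

open Filter Topology Metric Set Complex MeasureTheory

variable {c : ℂ} {g th : ℝ} {E s h : ℂ → ℂ} {w : ℕ → ℤ} {n : ℕ} {b ρ : ℂ}

/-- every annulus has area at least `π g` -/
theorem le_mu_Akd (hB : BD c g th E) (hS : SQ c g th E s) (hn : 1 ≤ n)
    (hw : ∀ i, w (i + n) = w i) (hK : KD c g s w n b ρ h) (m : ℕ) :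
    ENNReal.ofReal (Real.pi * g) ≤ mu (Akd c g s w h m) := by
  have hp := hB.pos
  have hpi := Real.pi_pos
  obtain ⟨F, hF⟩ := exists_LogR hB hS (isPathConnected_Ug hB) hn hw hK m
  have hVd := differentiableOn_Vf_Rs hB hS hK m (E := E) (w := w)
  have hFd : DifferentiableOn ℂ F (Rs g) :=
    Tr.differentiableOn_of_exp (isOpen_Rs g) hVd hF.cont hF.exp
  -- the rotated functions
  set U : Set ℂ := (fun z : ℂ => I * z) ⁻¹' Rs g with hU
  have hUo : IsOpen U := (isOpen_Rs g).preimage (by fun_prop)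
  have hmaps : MapsTo (fun z : ℂ => I * z) U (Rs g) := fun z hz => hz
  have hId : Differentiable ℂ (fun z : ℂ => I * z) := by fun_prop
  set V : ℂ → ℂ := fun z => Vf E s h w m (I * z) with hV
  set H : ℂ → ℂ := fun z => F (I * z) with hH
  have hVdU : DifferentiableOn ℂ V U := hVd.comp hId.differentiableOn hmaps
  have hHdU : DifferentiableOn ℂ H U := hFd.comp hId.differentiableOn hmaps
  have hexp : ∀ z ∈ U, Complex.exp (H z) = V z := fun z hz => hF.exp _ hz
  have hmemU : ∀ x y : ℝ, y ∈ Ioo (-g) (-(g / 2)) → ((x : ℂ) + y * I) ∈ U := by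
    intro x y hy
    have h1 : I * ((x : ℂ) + y * I) = ((-y : ℝ) : ℂ) + (x : ℂ) * I := by
      push_cast
      linear_combination (y : ℂ) * Complex.I_mul_I
    show I * ((x : ℂ) + y * I) ∈ Rs g
    rw [h1]
    constructor
    · simp; linarith [hy.2]
    · simp; linarith [hy.1]
  have hla := Tr.length_area hUo hHdU (K := 2 * Real.pi) (a := -g) (b := -(g / 2))
    (by positivity) (fun x _ y hy => hmemU x y hy) (d := 2 * Real.pi) (by positivity) (by
      intro y hy
      have h1 := hF.per (I * ((0 : ℝ) + (y : ℂ) * I)) (hmemU 0 y hy) 1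
      have h2 : I * ((0 : ℝ) + (y : ℂ) * I) + ((1 : ℤ) : ℂ) * (2 * Real.pi * I) =
          I * (((2 * Real.pi : ℝ) : ℂ) + y * I) := by push_cast; ring
      rw [h2] at h1
      have h3 : H (((2 * Real.pi : ℝ) : ℂ) + y * I) - H (y * I) = 2 * Real.pi * I := by
        simp only [hH]
        rw [h1]
        simp
      rw [h3]
      simp [abs_of_pos hpi])
  set S : Set ℂ := Ioo 0 (2 * Real.pi) ×ℂ Ioo (-g) (-(g / 2)) with hSdef
  have hSU : S ⊆ U := by
    intro z hz
    have h1 := hmemU z.re z.im hz.2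
    rwa [Complex.re_add_im] at h1
  have hSm : MeasurableSet S :=
    (measurable_re measurableSet_Ioo).inter (measurable_im measurableSet_Ioo)
  have hinj : InjOn V S := by
    intro z hz z' hz' hzz
    have h1 := Vf_inj_Rs hB hS hK m (hSU hz) (hSU hz') hzz
    obtain ⟨k, hk⟩ := hB.inj _ _ (hSU hz).1 (hSU hz').1 h1
    have h2 : z.re = z'.re + k * (2 * Real.pi) := by
      have := congrArg Complex.im hk
      simpa using this
    have h3 := hz.1
    have h4 := hz'.1
    have h5 : k = 0 := by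
      by_contra hk0
      rcases lt_or_gt_of_ne hk0 with h6 | h6
      · have h7 : (k : ℝ) ≤ -1 := by exact_mod_cast Int.le_sub_one_of_lt h6
        have h8 : 0 < z.re := h3.1
        have h9 : z'.re < 2 * Real.pi := h4.2
        nlinarith
      · have h7 : (1 : ℝ) ≤ k := by exact_mod_cast h6
        have h8 : z.re < 2 * Real.pi := h3.2
        have h9 : 0 < z'.re := h4.1
        nlinarith
    rw [h5] at hk
    have h6 : I * z = I * z' := by simpa using hk
    exact mul_left_cancel₀ I_ne_zero h6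
  have himg := mu_image hUo hVdU hSU hSm hinj
  have hsub : V '' S ⊆ Akd c g s w h m := by
    rintro _ ⟨z, hz, rfl⟩
    exact Vf_mem_Rs hB m (hSU hz)
  have hder : ∀ z ∈ S, ENNReal.ofReal (‖deriv H z‖ ^ 2) =
      ENNReal.ofReal (‖deriv V z‖ ^ 2 / ‖V z‖ ^ 2) := by
    intro z hz
    have hzU : U ∈ 𝓝 z := hUo.mem_nhds (hSU hz)
    have h1 : HasDerivAt H (deriv H z) z := (hHdU.differentiableAt hzU).hasDerivAt
    have h2 : HasDerivAt V (V z * deriv H z) z := by
      have h3 := h1.cexp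
      rw [hexp z (hSU hz)] at h3
      refine h3.congr_of_eventuallyEq ?_
      filter_upwards [hzU] with x hx
      exact (hexp x hx).symm
    have h4 : V z ≠ 0 := by rw [← hexp z (hSU hz)]; exact Complex.exp_ne_zero _
    have h5 : ‖V z‖ ≠ 0 := norm_ne_zero_iff.2 h4
    rw [h2.deriv, norm_mul]
    congr 1
    field_simp
  have hint : ∫⁻ z in S, ENNReal.ofReal (‖deriv H z‖ ^ 2) =
      ∫⁻ z in S, ENNReal.ofReal (‖deriv V z‖ ^ 2 / ‖V z‖ ^ 2) :=
    setLIntegral_congr_fun hSm hder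
  rw [hint, ← himg] at hla
  have hle : mu (V '' S) ≤ mu (Akd c g s w h m) := measure_mono hsub
  have h6 : ENNReal.ofReal ((-(g / 2) - -g) * (2 * Real.pi) ^ 2) =
      ENNReal.ofReal (2 * Real.pi) * ENNReal.ofReal (Real.pi * g) := by
    rw [← ENNReal.ofReal_mul (by positivity)]
    congr 1; ring
  rw [h6] at hla
  have h7 : ENNReal.ofReal (Real.pi * g) ≤ mu (V '' S) :=
    (ENNReal.mul_le_mul_iff_right (by simpa using by positivity) ENNReal.ofReal_ne_top).1 hla
  exact h7.trans hle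

/-- abstract form: `n g / 2 ≤ log |ρ|` -/
theorem K0_abs (hB : BD c g th E) (hS : SQ c g th E s) (hn : 1 ≤ n)
    (hw : ∀ i, w (i + n) = w i) (hK : KD c g s w n b ρ h) :
    n * g / 2 ≤ Real.log ‖ρ‖ := by
  have hp := hB.pos
  have hpi := Real.pi_pos
  have h1 := sum_Akd_le mu (B := ENNReal.ofReal (2 * Real.pi * Real.log ‖ρ‖)) hw hB hS hK
    (fun W hW hd => torus_lemma' hK.one_lt hW hd)
  have h2 : ∑ m ∈ Finset.range n, ENNReal.ofReal (Real.pi * g) ≤
      ∑ m ∈ Finset.range n, mu (Akd c g s w h m) :=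
    Finset.sum_le_sum fun m _ => le_mu_Akd hB hS hn hw hK m
  have h3 := h2.trans h1
  rw [Finset.sum_const, Finset.card_range, nsmul_eq_mul, ← ENNReal.ofReal_natCast,
    ← ENNReal.ofReal_mul (by positivity)] at h3
  have hlog : 0 ≤ 2 * Real.pi * Real.log ‖ρ‖ := by
    have := Real.log_pos hK.one_lt
    positivity
  have h4 := (ENNReal.ofReal_le_ofReal_iff hlog).1 h3
  have h5 : Real.pi * (n * g) ≤ Real.pi * (2 * Real.log ‖ρ‖) := by linarith
  have h6 := le_of_mul_le_mul_left h5 hpi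
  linarith

/-- **(K0)** `c ∉ M`, `b` of period dividing `n`: `n G_M(c) / 2 ≤ log |(f_c ^ n)'(b)|` -/
theorem K0 (hc : 0 < G c c) (hn : 0 < n) (hb : it c n b = b) :
    n * G c c / 2 ≤ Real.log ‖mult n c b‖ := by
  obtain ⟨th, hB⟩ := exists_BD hc
  obtain ⟨sq, hS⟩ := exists_SQ hB
  obtain ⟨w, -, hw, hbU, hgc, -⟩ := exists_word hB hS hn hb
  obtain ⟨hk, hK⟩ := exists_KD hB hS hn hw hbU hgc
  have := K0_abs hB hS hn hw hK
  rwa [ext_deriv_it] at this

end Pool.Agent.Work.MLC
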