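import Pool.Agent.Work.MLC.Stab4
import Pool.Agent.Work.MLC.Defs
import Pool.Agent.Work.MLC.Comb

set_option autoImplicit false

/-! # Portraits of landing rays: definitions (helper59) -/

namespace Pool.Agent.Work.MLC

open Filter Topology Metric Set Complex

/-- the angles of the doubling orbits (mod 1) of `B` whose rays land at the point `it c i b` -/
def port (c b : ℂ) (B : Set ℝ) (i : ℕ) : Set ℝ :=
  {a | (∃ β ∈ B, ∃ j : ℕ, ∃ k : ℤ, a = 2 ^ j * β + k) ∧ Lands c a (it c i b)}

/-- a finite family of periodic angles landing at `b`, at least one of them not fixed by `2 ^ n` -/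
structure Fam (n : ℕ) (c b : ℂ) (B : Set ℝ) : Prop where
  fin : B.Finite
  per : ∀ β ∈ B, ∃ q, PerAngle n q β
  land : ∀ β ∈ B, Lands c β b
  two : ∃ β ∈ B, ∃ q, 2 ≤ q ∧ PerAngle n q β

end Pool.Agent.Work.MLC
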