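import Mathlib
import Pool.Agent.Work.MLC.PriC65A
import Pool.Agent.Work.MLC.PlyEnd
import Pool.Agent.Work.MLC.PlyExt
import Pool.Agent.Work.MLC.ExtP57

set_option autoImplicit false

/-! # Lower bound for the multiplier at exterior parameters  (helper65, Lemma C) -/

namespace Pool.Agent.Work.MLC.C65

open Filter Topology Metric Set Complex MeasureTheory

variable {c : ℂ} {g th : ℝ} {E s h : ℂ → ℂ} {w : ℕ → ℤ} {n : ℕ} {b ρ : ℂ}

/-- the plane minus all forward images of the ray above the critical value -/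
def Y (E : ℂ → ℂ) (g th : ℝ) : Set ℂ :=
  {z | ∀ (i : ℕ) (r : ℝ), g ≤ r → z ≠ E (2 ^ i * (r + th * I))}

lemma Y_ray {z : ℂ} (hz : z ∈ Y E g th) : z ∉ ray E g th := by
  rintro ⟨r, hr, h⟩
  exact hz 0 r hr (by simpa using h)

lemma Y_sb (hB : BD c g th E) (hS : SQ c g th E s) {z : ℂ} (hz : z ∈ Y E g th) (e : ℤ) :
    sb s e z ∈ Y E g th := by
  intro i r hr h
  have hp := hB.pos
  have h1 := hS.f_sb (Y_ray hz) e
  apply hz (i + 1) r hr
  rw [← h1, h, ← hB.dbl]
  · congr 1
    rw [pow_succ]; ring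
  · have h2 : ((2 : ℂ) ^ i * (r + th * I)).re = 2 ^ i * r := by
      have : (2 : ℂ) ^ i = ((2 ^ i : ℝ) : ℂ) := by push_cast; rfl
      rw [this, re_ofReal_mul]
      simp
    rw [h2]
    have : (1 : ℝ) ≤ 2 ^ i := one_le_pow₀ (by norm_num)
    nlinarith

lemma gc_memY (hB : BD c g th E) (hS : SQ c g th E s) (w : ℕ → ℤ) (m : ℕ) {z : ℂ}
    (hz : z ∈ Y E g th) : gc s w m z ∈ Y E g th := by
  induction m generalizing z with
  | zero => exact hz
  | succ m ih => rw [gc_succ]; exact ih (Y_sb hB hS hz _)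

lemma G_gcY (hB : BD c g th E) (hS : SQ c g th E s) (w : ℕ → ℤ) (m : ℕ) {z : ℂ}
    (hz : z ∈ Y E g th) : G c (gc s w m z) = G c z / 2 ^ m := by
  induction m generalizing z with
  | zero => simp [gc_zero]
  | succ m ih =>
    rw [gc_succ, ih (Y_sb hB hS hz _), hS.G_sb (Y_ray hz), pow_succ]
    field_simp

lemma it_gcY (hB : BD c g th E) (hS : SQ c g th E s) (w : ℕ → ℤ) (m : ℕ) {z : ℂ}
    (hz : z ∈ Y E g th) : it c m (gc s w m z) = z := by
  induction m generalizing z with
  | zero => rfl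
  | succ m ih =>
    rw [gc_succ, it_succ, ih (Y_sb hB hS hz _), hS.f_sb (Y_ray hz)]

lemma gc_injOnY (hB : BD c g th E) (hS : SQ c g th E s) (w : ℕ → ℤ) (m : ℕ) :
    InjOn (gc s w m) (Y E g th) := fun z hz z' hz' h => by
  rw [← it_gcY hB hS w m hz, h, it_gcY hB hS w m hz']

lemma differentiableOn_gcY (hB : BD c g th E) (hS : SQ c g th E s) (w : ℕ → ℤ) (m : ℕ) :
    DifferentiableOn ℂ (gc s w m) (Y E g th) := by
  induction m with
  | zero => exact differentiableOn_id
  | succ m ih =>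
    exact ih.comp ((hS.differentiableOn_sb _).mono fun z hz => Y_ray hz)
      (fun z hz => Y_sb hB hS hz _)

/-- the part of the right half plane below the slits -/
def R (E : ℂ → ℂ) (g th : ℝ) : Set ℂ := {z | g / 2 < z.re ∧ z.re < 4 ∧ E z ∈ Y E g th}

lemma R_mem (hB : BD c g th E) {z : ℂ} (h1 : g / 2 < z.re) (h2 : z.re < 4)
    (h3 : ∀ (i : ℕ) (k : ℤ), z.im = 2 ^ i * th + k * (2 * Real.pi) → z.re < 2 ^ i * g) :
    z ∈ R E g th := by
  refine ⟨h1, h2, fun i r hr h => ?_⟩
  have hp := hB.pos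
  have hre : ((2 : ℂ) ^ i * (r + th * I)) = ((2 ^ i * r : ℝ) : ℂ) + ((2 ^ i * th : ℝ) : ℂ) * I := by
    push_cast; ring
  have h1i : (1 : ℝ) ≤ 2 ^ i := one_le_pow₀ (by norm_num)
  rw [hre] at h
  have hre2 : (((2 ^ i * r : ℝ) : ℂ) + ((2 ^ i * th : ℝ) : ℂ) * I).re = 2 ^ i * r := by
    rw [add_re, ofReal_re, re_ofReal_mul, I_re]; ring
  obtain ⟨k, hk⟩ := hB.inj z _ h1 (by rw [hre2]; nlinarith) h
  have e1 := congrArg Complex.re hk
  have e2 := congrArg Complex.im hk
  simp only [add_re, add_im, ofReal_re, ofReal_im, mul_re, mul_im, I_re, I_im, intCast_re,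
    intCast_im, re_ofNat, im_ofNat, mul_zero, mul_one, zero_mul, sub_zero, add_zero, zero_add] at e1 e2
  have := h3 i k e2
  nlinarith

/-- points below the profile, and near it -/
lemma R_of_lt (hB : BD c g th E) (hg4 : g ≤ 4) {N : ℕ} (hN : 4 ≤ 2 ^ N * g) {z : ℂ} {x : ℝ}
    (h1 : g / 2 < z.re) (h2 : z.re < 13 / 16 * P g th N x) (h3 : |z.im - x| < P g th N x / 16) :
    z ∈ R E g th := by
  have hp := hB.pos
  have h4 := P_le_four (g := g) (th := th) N x
  have h5 := P_pos (th := th) hp hg4 N x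
  refine R_mem hB h1 (by linarith) fun i k hk => ?_
  by_contra hcon
  push Not at hcon
  rcases lt_or_ge i N with hi | hi
  · have h6 := P_le_q (g := g) (th := th) hi x
    have h7 := q_slit (th := th) i x k
    rw [← hk, abs_sub_comm] at h7
    have h8 : q g th i x = 2 ^ i * g := by
      unfold q
      apply max_eq_left
      by_contra h9
      push Not at h9
      have h10 : q g th i x = ‖((x - 2 ^ i * th : ℝ) : AddCircle (2 * Real.pi))‖ := by
        unfold q; exact max_eq_right h9.le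
      linarith
    linarith
  · have h6 : (2 : ℝ) ^ N ≤ 2 ^ i := pow_le_pow_right₀ (by norm_num) hi
    nlinarith

section V

variable (hB : BD c g th E) (hS : SQ c g th E s) (hK : KD c g s w n b ρ h) (hg4 : g ≤ 4)
  {N m : ℕ} (hm : 4 ≤ 2 ^ m * g)

include hB hS hm in
lemma mapsTo_Ug : MapsTo (fun z => gc s w m (E z)) (R E g th) (Ug c g) := by
  intro z hz
  show G c (gc s w m (E z)) < g
  rw [G_gcY hB hS w m hz.2.2, hB.G_E z hz.1, div_lt_iff₀ (by positivity)]
  have := hz.2.1
  linarith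

include hB hS hK hm in
lemma differentiableOn_V : DifferentiableOn ℂ (Vf E s h w m) (R E g th) := by
  have h1 : DifferentiableOn ℂ (fun z => gc s w m (E z)) (R E g th) :=
    (differentiableOn_gcY hB hS w m).comp (hB.hol.mono fun z hz => hz.1) (fun z hz => hz.2.2)
  exact hK.hol.comp h1 (mapsTo_Ug hB hS hm)

include hB hS hK hm in
lemma V_ne_zero (hn : 1 ≤ n) {z : ℂ} (hz : z ∈ R E g th) : Vf E s h w m z ≠ 0 := by
  refine h_ne_zero hK hB hS hn (mapsTo_Ug hB hS hm hz) ?_
  rw [G_gcY hB hS w m hz.2.2, hB.G_E z hz.1]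
  have := hB.pos
  have := hz.1
  exact div_pos (by linarith) (by positivity)

include hB hS hK hm in
/-- `V` is injective modulo powers of `ρ` on sets of points with ratio of levels `< 2` -/
lemma V_eq (hw : ∀ i, w (i + n) = w i) (hn : 1 ≤ n) {z z' : ℂ}
    (hz : z ∈ R E g th) (hz' : z' ∈ R E g th) {j : ℤ}
    (h1 : z.re < 2 * z'.re) (h2 : z'.re < 2 * z.re)
    (hV : Vf E s h w m z = ρ ^ j * Vf E s h w m z') : j = 0 ∧ E z = E z' := by
  have hρ := hK.rho_ne
  have hp := hB.pos
  -- a one sided statement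
  have key : ∀ (z z' : ℂ), z ∈ R E g th → z' ∈ R E g th → ∀ j : ℕ,
      Vf E s h w m z = ρ ^ j * Vf E s h w m z' → z.re = 2 ^ (n * j) * z'.re ∧
        gc s w (n * j) (gc s w m (E z)) = gc s w m (E z') := by
    intro z z' hz hz' j hV
    have h3 := mapsTo_Ug (w := w) hB hS hm hz
    have h4 := mapsTo_Ug (w := w) hB hS hm hz'
    simp only at h3 h4
    have h5 : ∀ j : ℕ, h (gc s w (n * j) (gc s w m (E z))) = Vf E s h w m z / ρ ^ j := by
      intro j
      induction j with
      | zero => simp [Vf, gc_zero]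
      | succ j ih =>
        have h6 : n * (j + 1) = n * 1 + n * j := by ring
        rw [h6, gc_per hw, mul_one, hK.koe _ (gc_mem hB hS w _ h3), ih, pow_succ]
        field_simp
    have h7 : h (gc s w (n * j) (gc s w m (E z))) = h (gc s w m (E z')) := by
      rw [h5, hV]
      show _ = Vf E s h w m z'
      field_simp
    have h8 := hK.inj (gc_mem hB hS w _ h3) h4 h7
    refine ⟨?_, h8⟩
    have h9 := congrArg (G c) h8
    rw [G_gc hB hS w _ h3, G_gcY hB hS w m hz.2.2, G_gcY hB hS w m hz'.2.2, hB.G_E z hz.1,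
      hB.G_E z' hz'.1] at h9
    field_simp at h9
    linarith
  have hpow : ∀ j : ℕ, 1 ≤ j → (2 : ℝ) ≤ 2 ^ (n * j) := fun j hj => by
    calc (2 : ℝ) = 2 ^ 1 := by norm_num
      _ ≤ 2 ^ (n * j) := pow_le_pow_right₀ (by norm_num) (Nat.one_le_iff_ne_zero.2 (by
        have : 1 ≤ n * j := Nat.mul_pos hn hj
        omega))
  have hzre : 0 < z.re := by have := hz.1; linarith
  have hzre' : 0 < z'.re := by have := hz'.1; linarith
  obtain ⟨i, rfl | rfl⟩ := Int.eq_nat_or_neg j
  · rw [zpow_natCast] at hV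
    obtain ⟨h3, h4⟩ := key z z' hz hz' i hV
    have hi : i = 0 := by
      by_contra hi
      have := hpow i (Nat.one_le_iff_ne_zero.2 hi)
      nlinarith
    subst hi
    refine ⟨rfl, gc_injOnY hB hS w m hz.2.2 hz'.2.2 ?_⟩
    simpa [gc_zero] using h4
  · rw [zpow_neg, zpow_natCast] at hV
    have hV' : Vf E s h w m z' = ρ ^ i * Vf E s h w m z := by
      rw [hV, ← mul_assoc, mul_inv_cancel₀ (pow_ne_zero _ hρ), one_mul]
    obtain ⟨h3, h4⟩ := key z' z hz' hz i hV'
    have hi : i = 0 := by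
      by_contra hi
      have := hpow i (Nat.one_le_iff_ne_zero.2 hi)
      nlinarith
    subst hi
    refine ⟨rfl, gc_injOnY hB hS w m hz.2.2 hz'.2.2 ?_⟩
    simpa [gc_zero] using h4.symm

/-- the point over `x` on the profile -/
noncomputable def pt (g th : ℝ) (N : ℕ) (x : ℝ) : ℂ := ((3 / 4 * P g th N x : ℝ) : ℂ) + x * I

lemma pt_re (N : ℕ) (x : ℝ) : (pt g th N x).re = 3 / 4 * P g th N x := by
  unfold pt; rw [add_re, ofReal_re, re_ofReal_mul, I_re]; ring

lemma pt_im (N : ℕ) (x : ℝ) : (pt g th N x).im = x := by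
  unfold pt; rw [add_im, ofReal_im, im_ofReal_mul, I_im]; ring

lemma continuous_pt (N : ℕ) : Continuous (pt g th N) := by
  have := continuous_P (g := g) (th := th) N
  unfold pt
  fun_prop

include hB hg4 in
lemma ball_sub (hN : 4 ≤ 2 ^ N * g) (x : ℝ) : ball (pt g th N x) (P g th N x / 16) ⊆ R E g th := by
  intro z hz
  have hp := hB.pos
  have h5 := le_P (th := th) hp hg4 N x
  rw [mem_ball, dist_eq_norm] at hz
  have h6 := (abs_re_le_norm _).trans_lt hz
  have h7 := (abs_im_le_norm _).trans_lt hz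
  rw [sub_re, pt_re, abs_lt] at h6
  rw [sub_im, pt_im] at h7
  exact R_of_lt hB hg4 hN (by linarith [h6.1]) (by linarith [h6.2]) h7

include hB hS hK hg4 hm in
/-- the derivative of a logarithm of `V` at the profile -/
lemma deriv_log_le (hw : ∀ i, w (i + n) = w i) (hn : 1 ≤ n) (hN : 4 ≤ 2 ^ N * g) (x : ℝ)
    {Φ : ℂ → ℂ} (hΦ : ContinuousOn Φ (ball (pt g th N x) (P g th N x / 16)))
    (hΦ' : ∀ z ∈ ball (pt g th N x) (P g th N x / 16), Complex.exp (Φ z) = Vf E s h w m z) :
    ‖deriv Φ (pt g th N x)‖ ≤ 16 * Real.sqrt (2 * Real.log ‖ρ‖) / P g th N x := by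
  have hp := hB.pos
  have hpi := Real.pi_pos
  have hP := P_pos (th := th) hp hg4 N x
  have hP4 := P_le_four (g := g) (th := th) N x
  have hgP := le_P (th := th) hp hg4 N x
  have hsub := ball_sub (th := th) hB hg4 hN x
  set B := ball (pt g th N x) (P g th N x / 16) with hBdef
  have hlog : 0 ≤ Real.log ‖ρ‖ := Real.log_nonneg hK.one_lt.le
  have hVd : DifferentiableOn ℂ (Vf E s h w m) B := (differentiableOn_V hB hS hK hm).mono hsub
  have hre : ∀ z ∈ B, 11 / 16 * P g th N x < z.re ∧ z.re < 13 / 16 * P g th N x := by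
    intro z hz
    rw [hBdef, mem_ball, dist_eq_norm] at hz
    have h6 := (abs_re_le_norm _).trans_lt hz
    rw [sub_re, pt_re, abs_lt] at h6
    exact ⟨by linarith [h6.1], by linarith [h6.2]⟩
  have hinj : InjOn (Vf E s h w m) B := by
    intro z hz z' hz' hV
    have h1 := hre z hz
    have h2 := hre z' hz'
    obtain ⟨-, h3⟩ := V_eq hB hS hK hm hw hn (hsub hz) (hsub hz') (j := 0)
      (by linarith [h1.2, h2.1]) (by linarith [h1.1, h2.2]) (by simpa using hV)
    obtain ⟨k, hk⟩ := hB.inj z z' (hsub hz).1 (hsub hz').1 h3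
    have hd : ‖z - z'‖ < 2 := by
      have h4 := dist_triangle_right z z' (pt g th N x)
      rw [hBdef, mem_ball] at hz hz'
      rw [← dist_eq_norm]
      linarith
    have h5 : ‖z - z'‖ = |(k : ℝ)| * (2 * Real.pi) := by
      rw [hk, add_sub_cancel_left]
      simp [abs_of_pos Real.pi_pos]
    have h6 : k = 0 := by
      by_contra hk0
      have h7 : (1 : ℝ) ≤ |(k : ℝ)| := by exact_mod_cast Int.one_le_abs hk0
      have h8 := Real.pi_gt_three
      nlinarith
    rw [hk, h6]; simp
  have hmeas : mu (Vf E s h w m '' B) ≤ ENNReal.ofReal (2 * Real.pi * Real.log ‖ρ‖) := by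
    refine torus_lemma hK.one_lt (measurableSet_image (U := B) hVd subset_rfl
      (by rw [hBdef]; exact isOpen_ball.measurableSet) hinj) ?_
    rintro _ ⟨z, hz, rfl⟩ _ ⟨z', hz', rfl⟩ j hj
    have h1 := hre z hz
    have h2 := hre z' hz'
    exact (V_eq hB hS hK hm hw hn (hsub hz) (hsub hz') (by linarith [h1.2, h2.1])
      (by linarith [h1.1, h2.2]) hj).1
  have h1 := derBd_mu.le (r := P g th N x / 16) (by positivity) hVd hinj
    (fun z hz => V_ne_zero hB hS hK hm hn (hsub hz)) hΦ hΦ' (by positivity) hmeas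
  refine h1.trans (le_of_eq ?_)
  have h2 : 2 * Real.pi * Real.log ‖ρ‖ / Real.pi = 2 * Real.log ‖ρ‖ := by field_simp
  rw [h2]
  field_simp

include hB hS hK hg4 hm in
/-- the winding number along the profile -/
lemma wd_profile (hw : ∀ i, w (i + n) = w i) (hn : 1 ≤ n) (hN : 4 ≤ 2 ^ N * g) :
    Wd (fun x => Vf E s h w m (pt g th N x)) 1 := by
  have hp := hB.pos
  have hU := isPathConnected_Ug hB
  have h0 := wd_V hB hS hU hn hw hK (r := 3 * g / 4) (by linarith) (by linarith) m
  -- the homotopy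
  set τ : ℝ → ℝ := fun t => max 0 (min t 1) with hτ
  have hτ0 : ∀ t, 0 ≤ τ t := fun t => le_max_left _ _
  have hτ1 : ∀ t, τ t ≤ 1 := fun t => max_le zero_le_one (min_le_right _ _)
  have hτc : Continuous τ := by fun_prop
  set ℓ : ℝ → ℝ → ℝ := fun t x => 3 / 4 * (g + τ t * (P g th N x - g)) with hℓ
  set H : ℝ → ℝ → ℂ := fun t x => Vf E s h w m ((ℓ t x : ℂ) + x * I) with hH
  have hmem : ∀ t x, ((ℓ t x : ℂ) + x * I) ∈ R E g th := by
    intro t x
    have h1 := le_P (th := th) hp hg4 N x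
    have h2 := hτ0 t
    have h3 := hτ1 t
    have h4 := P_pos (th := th) hp hg4 N x
    have hre : ((ℓ t x : ℂ) + x * I).re = ℓ t x := by
      rw [add_re, ofReal_re, re_ofReal_mul, I_re]; ring
    have him : ((ℓ t x : ℂ) + x * I).im = x := by
      rw [add_im, ofReal_im, im_ofReal_mul, I_im]; ring
    have h5 : 0 ≤ τ t * (P g th N x - g) := mul_nonneg h2 (by linarith)
    have h6 : τ t * (P g th N x - g) ≤ P g th N x - g := mul_le_of_le_one_left (by linarith) h3
    refine R_of_lt hB hg4 hN (x := x) ?_ ?_ ?_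
    · rw [hre, hℓ]; simp only; linarith
    · rw [hre, hℓ]; simp only; linarith
    · rw [him, sub_self, abs_zero]; positivity
  have hHc : Continuous fun p : ℝ × ℝ => H p.1 p.2 := by
    have hP := continuous_P (g := g) (th := th) N
    refine (differentiableOn_V hB hS hK hm).continuousOn.comp_continuous
      (f := fun p : ℝ × ℝ => ((ℓ p.1 p.2 : ℂ) + p.2 * I)) ?_ (fun p => hmem _ _)
    simp only [hℓ]
    fun_prop
  have h1 : Wd (H 0) 1 := by
    refine h0.congr fun x => ?_
    have h2 : τ 0 = 0 := by simp [hτ]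
    have h3 : ℓ 0 x = 3 * g / 4 := by rw [hℓ]; simp only; rw [h2]; ring
    rw [hH]
    simp only [h3]
    rfl
  have h2 := wd_homotopy hHc (fun t x => V_ne_zero hB hS hK hm hn (hmem t x)) (fun t x => ?_) h1 1
  · refine h2.congr fun x => ?_
    have h3 : τ 1 = 1 := by simp [hτ]
    have h4 : ℓ 1 x = 3 / 4 * P g th N x := by rw [hℓ]; simp only; rw [h3]; ring
    rw [hH]
    simp only [h4]
    rfl
  · rw [hH]
    simp only
    unfold Vf
    congr 2
    have h5 : ℓ t (x + 2 * Real.pi) = ℓ t x := by rw [hℓ]; simp only; rw [P_per]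
    rw [h5, ← hB.per _ (hmem t x).1]
    congr 1
    push_cast; ring

include hB hS hK hg4 hm in
/-- the main inequality -/
theorem two_pi_le (hw : ∀ i, w (i + n) = w i) (hn : 1 ≤ n) (hN : 4 ≤ 2 ^ N * g) :
    2 * Real.pi ≤ 32 * Real.sqrt (2 * Real.log ‖ρ‖) *
      (Real.pi / 2 + 4 * N * Real.log (1 + Real.pi / g)) := by
  have hp := hB.pos
  have hpi := Real.pi_pos
  obtain ⟨F, hF, hFV, hFp⟩ := wd_profile (th := th) hB hS hK hg4 hm hw hn hN
  set K : ℝ := 32 * Real.sqrt (2 * Real.log ‖ρ‖) with hKdef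
  have hK0 : 0 ≤ K := by positivity
  have hcP : Continuous fun x => 1 / P g th N x :=
    continuous_const.div (continuous_P N) (fun x => (P_pos hp hg4 N x).ne')
  have hcB : Continuous fun x => K / P g th N x :=
    continuous_const.div (continuous_P N) (fun x => (P_pos hp hg4 N x).ne')
  have hmain := image_le_of_liminf_slope_right_le_deriv_boundary (f := fun x => ‖F x - F 0‖)
    (a := 0) (b := 2 * Real.pi) (B := fun x => ∫ t in (0 : ℝ)..x, K / P g th N t)
    (B' := fun x => K / P g th N x) (by fun_prop) (by simp)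
    (fun x _ => (hcB.integral_hasStrictDerivAt 0 x).hasDerivAt.continuousAt.continuousWithinAt)
    (fun x _ => (hcB.integral_hasStrictDerivAt 0 x).hasDerivAt.hasDerivWithinAt)
    (fun x hx r hr => ?_) (right_mem_Icc.2 (by positivity))
  · have h1 := hFp 0
    rw [zero_add] at h1
    simp only [h1, Int.cast_one, one_mul, add_sub_cancel_left] at hmain
    have h2 : ‖(2 * (Real.pi : ℂ) * I)‖ = 2 * Real.pi := by
      simp [abs_of_pos hpi]
    rw [h2] at hmain
    refine hmain.trans ?_
    have h3 : ∫ t in (0 : ℝ)..(2 * Real.pi), K / P g th N t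
        = K * ∫ t in (0 : ℝ)..(2 * Real.pi), 1 / P g th N t := by
      rw [← intervalIntegral.integral_const_mul]
      congr 1
      funext t
      ring
    rw [h3]
    exact mul_le_mul_of_nonneg_left (integral_inv_P_le hp hg4 N) hK0
  · -- the slope
    have hP := P_pos (th := th) hp hg4 N x
    have hsub := ball_sub (th := th) hB hg4 hN x
    set B := ball (pt g th N x) (P g th N x / 16) with hBdef
    have hVd : DifferentiableOn ℂ (Vf E s h w m) B := (differentiableOn_V hB hS hK hm).mono hsub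
    obtain ⟨Φ, hΦ, hΦV⟩ := exists_log_on (convex_ball (pt g th N x) (P g th N x / 16)) isOpen_ball
      hVd.continuousOn (fun z hz => V_ne_zero hB hS hK hm hn (hsub hz))
    have hΦd := Tr.differentiableOn_of_exp isOpen_ball hVd hΦ hΦV
    have hder := deriv_log_le hB hS hK hg4 hm hw hn hN x hΦ hΦV
    have hself : pt g th N x ∈ B := mem_ball_self (by positivity)
    have hΦx : HasDerivAt Φ (deriv Φ (pt g th N x)) (pt g th N x) :=
      (hΦd.differentiableAt (isOpen_ball.mem_nhds hself)).hasDerivAt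
    have hptc := continuous_pt (g := g) (th := th) N
    -- an interval around `x`
    obtain ⟨δ, hδ, hδB⟩ := Metric.continuousAt_iff.1 (hptc.continuousAt (x := x)) (P g th N x / 16)
      (by positivity)
    have hint : ∀ y ∈ ball x δ, pt g th N y ∈ B := fun y hy => hδB hy
    obtain ⟨k, hk⟩ := log_unique_on (X := ℝ) (s := ball x δ)
      (convex_ball x δ).isPreconnected (F := F) (F' := fun y => Φ (pt g th N y)) hF.continuousOn
      (hΦ.comp hptc.continuousOn hint) (fun y hy => by rw [hFV, hΦV _ (hint y hy)])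
    have hdiff : ∀ y ∈ ball x δ, F y - F x = Φ (pt g th N y) - Φ (pt g th N x) := by
      intro y hy
      rw [hk y hy, hk x (mem_ball_self hδ)]; ring
    set d := ‖deriv Φ (pt g th N x)‖ with hd
    have hd0 : 0 ≤ d := norm_nonneg _
    have hdr : 2 * d < r := by
      refine lt_of_le_of_lt ?_ hr
      rw [hKdef]
      calc 2 * d ≤ 2 * (16 * Real.sqrt (2 * Real.log ‖ρ‖) / P g th N x) := by gcongr
        _ = 32 * Real.sqrt (2 * Real.log ‖ρ‖) / P g th N x := by ring
    set ε := (r - 2 * d) / 4 with hε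
    have hε0 : 0 < ε := by rw [hε]; linarith
    have hlo := hΦx.isLittleO.def hε0
    have hev : ∀ᶠ y in 𝓝 x, ‖Φ (pt g th N y) - Φ (pt g th N x)‖ ≤ (d + ε) * ‖pt g th N y - pt g th N x‖ := by
      filter_upwards [hptc.continuousAt.eventually hlo] with y hy
      have h1 : Φ (pt g th N y) - Φ (pt g th N x) = (Φ (pt g th N y) - Φ (pt g th N x)
        - (pt g th N y - pt g th N x) • deriv Φ (pt g th N x))
        + (pt g th N y - pt g th N x) • deriv Φ (pt g th N x) := by ring
      rw [h1]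
      refine (norm_add_le _ _).trans ?_
      rw [norm_smul]
      have h2 : (d + ε) * ‖pt g th N y - pt g th N x‖ = ε * ‖pt g th N y - pt g th N x‖
        + ‖pt g th N y - pt g th N x‖ * d := by ring
      rw [h2]
      gcongr
    have hev2 : ∀ᶠ y in 𝓝[>] x, slope (fun x => ‖F x - F 0‖) x y < r := by
      have h1 : ∀ᶠ y in 𝓝[>] x, y ∈ ball x δ := nhdsWithin_le_nhds (ball_mem_nhds x hδ)
      filter_upwards [h1, nhdsWithin_le_nhds hev, self_mem_nhdsWithin] with y hy1 hy2 hy3
      have hxy : 0 < y - x := sub_pos.2 hy3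
      rw [slope_def_field, div_lt_iff₀ hxy]
      have h2 : ‖F y - F 0‖ - ‖F x - F 0‖ ≤ ‖F y - F x‖ := by
        have := norm_sub_norm_le (F y - F 0) (F x - F 0)
        have h3 : F y - F 0 - (F x - F 0) = F y - F x := by ring
        rwa [h3] at this
      have h4 : ‖pt g th N y - pt g th N x‖ ≤ 2 * (y - x) := by
        have h5 : pt g th N y - pt g th N x
            = ((3 / 4 * (P g th N y - P g th N x) : ℝ) : ℂ) + ((y - x : ℝ) : ℂ) * I := by
          unfold pt; push_cast; ring
        rw [h5]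
        refine (norm_add_le _ _).trans ?_
        rw [norm_mul, norm_I, mul_one, norm_real, norm_real, Real.norm_eq_abs, Real.norm_eq_abs,
          abs_mul, abs_of_pos hxy]
        have h6 := P_lip (g := g) (th := th) N y x
        rw [abs_of_pos hxy] at h6
        have h7 : |(3 / 4 : ℝ)| = 3 / 4 := by norm_num
        rw [h7]
        linarith
      have h8 : ‖F y - F x‖ ≤ (d + ε) * (2 * (y - x)) := by
        rw [hdiff y hy1]
        exact hy2.trans (mul_le_mul_of_nonneg_left h4 (by positivity))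
      have h9 : (d + ε) * (2 * (y - x)) < r * (y - x) := by
        have : 2 * (d + ε) < r := by rw [hε]; linarith
        nlinarith
      linarith
    exact hev2.frequently

end V

end Pool.Agent.Work.MLC.C65
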