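import Mathlib
import Pool.Agent.Work.MLC.PriC65B

set_option autoImplicit false

/-! # Lower bound for multipliers at exterior parameters: Lemma C (helper65)

For `0 < G c c ≤ 4` and every `n ≥ 1` and every point `b` with `it c n b = b`:
`log |mult n c b| ≥ 1 / (2000 (1 + log (4 / G c c)) ^ 4)`, uniformly in `n`. -/

namespace Pool.Agent.Work.MLC.C65

open Filter Topology Metric Set Complex MeasureTheory

lemma num_le {g : ℝ} (hg : 0 < g) (hg4 : g ≤ 4) : ∃ N : ℕ, 4 ≤ 2 ^ N * g ∧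
    Real.pi / 2 + 4 * N * Real.log (1 + Real.pi / g) ≤ 6 * (1 + Real.log (4 / g)) ^ 2 := by
  have hpi := Real.pi_pos
  have hpi4 := Real.pi_lt_d2
  have hl2 := Real.log_two_gt_d9
  have hl2' := Real.log_two_lt_d9
  set M := Real.log (4 / g) with hM
  have h1 : 1 ≤ 4 / g := by rw [le_div_iff₀ hg]; linarith
  have hM0 : 0 ≤ M := Real.log_nonneg h1
  refine ⟨⌈M / Real.log 2⌉₊, ?_, ?_⟩
  · have h2 : M / Real.log 2 ≤ ⌈M / Real.log 2⌉₊ := Nat.le_ceil _
    rw [div_le_iff₀ (by linarith)] at h2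
    have h3 : Real.log (4 / g) ≤ Real.log (2 ^ ⌈M / Real.log 2⌉₊) := by
      rw [Real.log_pow]; exact h2
    have h4 := (Real.log_le_log_iff (by positivity) (by positivity)).1 h3
    rwa [div_le_iff₀ hg] at h4
  · have h2 : (⌈M / Real.log 2⌉₊ : ℝ) ≤ M / Real.log 2 + 1 :=
      (Nat.ceil_lt_add_one (by positivity)).le
    have h3 : Real.log (1 + Real.pi / g) ≤ M + Real.log 2 := by
      rw [hM, ← Real.log_mul (by positivity) (by norm_num)]
      refine Real.log_le_log (by positivity) ?_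
      have : 1 + Real.pi / g = (g + Real.pi) / g := by field_simp
      rw [this, div_mul_eq_mul_div]
      gcongr
      linarith
    have h4 : 0 ≤ Real.log (1 + Real.pi / g) := Real.log_nonneg (by
      have : 0 < Real.pi / g := by positivity
      linarith)
    have h5 : M / Real.log 2 ≤ 3 / 2 * M := by
      rw [div_le_iff₀ (by linarith)]
      nlinarith
    have h7 : 4 * (⌈M / Real.log 2⌉₊ : ℝ) * Real.log (1 + Real.pi / g)
        ≤ 4 * (M / Real.log 2 + 1) * (M + Real.log 2) := by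
      gcongr
    have h8 : 4 * (M / Real.log 2 + 1) * (M + Real.log 2)
        = 4 * (M / Real.log 2) * M + 8 * M + 4 * Real.log 2 := by
      have : Real.log 2 ≠ 0 := by linarith
      field_simp
      ring
    have h9 : 4 * (M / Real.log 2) * M ≤ 4 * (3 / 2 * M) * M := by gcongr
    nlinarith

/-- **Lemma C.**  Multipliers of exterior cycles are bounded away from the unit circle,
uniformly in the period, by an inverse power of `1 + log (1 / g)`. -/
theorem log_mult_ge {n : ℕ} (hn : 0 < n) {c b : ℂ} (hc : 0 < G c c) (hc4 : G c c ≤ 4)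
    (hb : it c n b = b) :
    1 / (2000 * (1 + Real.log (4 / G c c)) ^ 4) ≤ Real.log ‖mult n c b‖ := by
  obtain ⟨θ, hθ⟩ := exists_ang hc
  obtain ⟨w, h⟩ := exists_extP_word hn hθ hb
  have hB := h.ang.BD
  obtain ⟨sq, hS⟩ := exists_SQ hB
  obtain ⟨hgc, hbU⟩ := h.data hn hS
  obtain ⟨hk, hK⟩ := exists_KD hB hS hn h.2.2.2.1.per hbU hgc
  obtain ⟨N, hN, hnum⟩ := num_le hc hc4
  have hmain := two_pi_le hB hS hK hc4 hN h.2.2.2.1.per hn hN
  rw [ext_deriv_it] at hmain
  have h1 : 0 ≤ Real.log (4 / G c c) := Real.log_nonneg (by rw [le_div_iff₀ hc]; linarith)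
  set M := Real.log (4 / G c c) with hM
  set lam := Real.log ‖mult n c b‖ with hlam
  have hlam0 : 0 ≤ lam := Real.log_nonneg (one_lt_norm_mult_of_ext hn hc hb).le
  have h2 : 2 * Real.pi ≤ 192 * (1 + M) ^ 2 * Real.sqrt (2 * lam) := by
    refine hmain.trans ?_
    have h3 : 0 ≤ Real.sqrt (2 * lam) := Real.sqrt_nonneg _
    nlinarith
  have hpi := Real.pi_gt_d2
  have h3 : (2 * Real.pi) ^ 2 ≤ (192 * (1 + M) ^ 2 * Real.sqrt (2 * lam)) ^ 2 := by gcongr
  have h4 : (192 * (1 + M) ^ 2 * Real.sqrt (2 * lam)) ^ 2 = 73728 * (lam * (1 + M) ^ 4) := by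
    rw [mul_pow, Real.sq_sqrt (by positivity)]; ring
  rw [h4] at h3
  rw [div_le_iff₀ (by positivity)]
  nlinarith

theorem norm_mult_sub_one_ge {n : ℕ} (hn : 0 < n) {c b : ℂ} (hc : 0 < G c c) (hc4 : G c c ≤ 4)
    (hb : it c n b = b) :
    1 / (2000 * (1 + Real.log (4 / G c c)) ^ 4) ≤ ‖mult n c b - 1‖ := by
  refine (log_mult_ge hn hc hc4 hb).trans ?_
  have h1 := one_lt_norm_mult_of_ext hn hc hb
  have h2 := Real.log_le_sub_one_of_pos (x := ‖mult n c b‖) (by linarith)
  have h3 := norm_sub_norm_le (mult n c b) 1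
  rw [norm_one] at h3
  linarith

/-- the form used by the Harnack argument -/
theorem norm_inv_le {n : ℕ} (hn : 0 < n) {c b : ℂ} (hc : 0 < G c c) (hc4 : G c c ≤ 4)
    (hb : it c n b = b) :
    ‖1 / (mul n (c, b) - 1)‖ ≤ 2000 * (1 + Real.log (4 / G c c)) ^ 4 := by
  have h1 : 0 ≤ Real.log (4 / G c c) := Real.log_nonneg (by rw [le_div_iff₀ hc]; linarith)
  have h2 := norm_mult_sub_one_ge hn hc hc4 hb
  rw [mult_eq_mul] at h2
  have h3 : 0 < 1 / (2000 * (1 + Real.log (4 / G c c)) ^ 4) := by positivity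
  rw [norm_div, norm_one, div_le_iff₀ (h3.trans_le h2)]
  rw [div_le_iff₀ (by positivity)] at h2
  linarith

/-- the same with `|log g|` -/
theorem norm_inv_le' {n : ℕ} (hn : 0 < n) {c b : ℂ} (hc : 0 < G c c) (hc4 : G c c ≤ 4)
    (hb : it c n b = b) :
    ‖1 / (mul n (c, b) - 1)‖ ≤ 70000 * (1 + |Real.log (G c c)|) ^ 4 := by
  refine (norm_inv_le hn hc hc4 hb).trans ?_
  have h1 : 0 ≤ Real.log (4 / G c c) := Real.log_nonneg (by rw [le_div_iff₀ hc]; linarith)
  have h2 : Real.log (4 / G c c) = Real.log 4 - Real.log (G c c) :=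
    Real.log_div (by norm_num) hc.ne'
  have h3 : Real.log 4 = 2 * Real.log 2 := by
    rw [show (4 : ℝ) = 2 ^ 2 by norm_num, Real.log_pow]; norm_num
  have h4 := Real.log_two_lt_d9
  have h5 := neg_abs_le (Real.log (G c c))
  have h6 : 1 + Real.log (4 / G c c) ≤ 12 / 5 * (1 + |Real.log (G c c)|) := by
    have := abs_nonneg (Real.log (G c c))
    rw [h2, h3]; linarith
  calc 2000 * (1 + Real.log (4 / G c c)) ^ 4
      ≤ 2000 * (12 / 5 * (1 + |Real.log (G c c)|)) ^ 4 := by gcongr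
    _ ≤ 70000 * (1 + |Real.log (G c c)|) ^ 4 := by
        rw [mul_pow]
        have : 0 ≤ (1 + |Real.log (G c c)|) ^ 4 := by positivity
        nlinarith

end Pool.Agent.Work.MLC.C65
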