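import Mathlib

/-!
Arithmetic of the cut values for the all-component theorem: next to a fraction P/Q with Q at most N
there are dyadic rationals of exact denominator 2^k on both sides, at distance at least 1/(4 N^2)
from every fraction of denominator at most N.
-/

namespace Pool.Agent.Work.MLC.Pri

/-- two different fractions of denominators at most N differ by at least 1/N^2 -/
theorem frac_gap49 {N : ℕ} {P P' : ℤ} {Q Q' : ℕ} (hQ : 0 < Q) (hQ' : 0 < Q') (hQN : Q ≤ N)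
    (hQN' : Q' ≤ N) (hne : (P : ℝ) / Q ≠ (P' : ℝ) / Q') :
    1 / (N : ℝ) ^ 2 ≤ |(P : ℝ) / Q - (P' : ℝ) / Q'| := by
  have hQr : (0 : ℝ) < Q := by exact_mod_cast hQ
  have hQr' : (0 : ℝ) < Q' := by exact_mod_cast hQ'
  have hN : (0 : ℝ) < N := lt_of_lt_of_le hQr (by exact_mod_cast hQN)
  have e : (P : ℝ) / Q - (P' : ℝ) / Q' = ((P * Q' - P' * Q : ℤ) : ℝ) / (Q * Q') := by
    push_cast
    field_simp
  have hz : (P * Q' - P' * Q : ℤ) ≠ 0 := by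
    intro h
    apply hne
    have : (P : ℝ) / Q - (P' : ℝ) / Q' = 0 := by rw [e, h]; simp
    linarith
  have h1 : (1 : ℝ) ≤ |((P * Q' - P' * Q : ℤ) : ℝ)| := by
    exact_mod_cast Int.one_le_abs hz
  rw [e, abs_div, abs_of_pos (mul_pos hQr hQr')]
  have h2 : (Q : ℝ) * Q' ≤ (N : ℝ) ^ 2 := by
    rw [sq]
    exact mul_le_mul (by exact_mod_cast hQN) (by exact_mod_cast hQN') hQr'.le hN.le
  rw [div_le_div_iff₀ (by positivity) (by positivity)]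
  nlinarith

/-- an odd numerator over 2^k in every interval of length 2/2^k -/
theorem exists_odd49 (k : ℕ) {a : ℝ} : ∃ m : ℤ, Odd m ∧ a < (m : ℝ) / 2 ^ k ∧
    (m : ℝ) / 2 ^ k ≤ a + 2 / 2 ^ k := by
  have h2 : (0 : ℝ) < 2 ^ k := by positivity
  obtain ⟨j, hj1, hj2⟩ : ∃ j : ℤ, a * 2 ^ k < 2 * (j : ℝ) + 1 ∧ 2 * (j : ℝ) + 1 ≤ a * 2 ^ k + 2 := by
    refine ⟨⌊(a * 2 ^ k - 1) / 2⌋ + 1, ?_, ?_⟩
    · push_cast
      have := Int.lt_floor_add_one ((a * 2 ^ k - 1) / 2)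
      linarith
    · push_cast
      have := Int.floor_le ((a * 2 ^ k - 1) / 2)
      linarith
  refine ⟨2 * j + 1, ⟨j, rfl⟩, ?_, ?_⟩
  · rw [lt_div_iff₀ h2]; push_cast; linarith
  · rw [div_le_iff₀ h2]; push_cast
    have : (a + 2 / 2 ^ k) * 2 ^ k = a * 2 ^ k + 2 := by field_simp
    linarith

/-- cut values on both sides of P/Q -/
theorem exists_cut49 {N : ℕ} {P : ℤ} {Q : ℕ} (hQ : 0 < Q) (hQN : Q ≤ N) {k : ℕ}
    (hk : 4 * N ^ 2 ≤ 2 ^ k) :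
    ∃ a b : ℤ, Odd a ∧ Odd b ∧
      (P : ℝ) / Q - 3 / (4 * (N : ℝ) ^ 2) ≤ (a : ℝ) / 2 ^ k ∧
      (a : ℝ) / 2 ^ k ≤ (P : ℝ) / Q - 1 / (4 * (N : ℝ) ^ 2) ∧
      (P : ℝ) / Q + 1 / (4 * (N : ℝ) ^ 2) ≤ (b : ℝ) / 2 ^ k ∧
      (b : ℝ) / 2 ^ k ≤ (P : ℝ) / Q + 3 / (4 * (N : ℝ) ^ 2) ∧
      ∀ (P' : ℤ) (Q' : ℕ), 0 < Q' → Q' ≤ N →
        1 / (4 * (N : ℝ) ^ 2) ≤ |(P' : ℝ) / Q' - (a : ℝ) / 2 ^ k| ∧
        1 / (4 * (N : ℝ) ^ 2) ≤ |(P' : ℝ) / Q' - (b : ℝ) / 2 ^ k| := by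
  have hN : (0 : ℝ) < N := by exact_mod_cast lt_of_lt_of_le hQ hQN
  have hN2 : (0 : ℝ) < (N : ℝ) ^ 2 := by positivity
  have h2 : (0 : ℝ) < 2 ^ k := by positivity
  have hk' : 4 * (N : ℝ) ^ 2 ≤ 2 ^ k := by exact_mod_cast hk
  have hs : 2 / (2 : ℝ) ^ k ≤ 1 / (2 * (N : ℝ) ^ 2) := by
    rw [div_le_div_iff₀ h2 (by positivity)]
    linarith
  obtain ⟨a, ha, ha1, ha2⟩ := exists_odd49 k (a := (P : ℝ) / Q - 3 / (4 * (N : ℝ) ^ 2))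
  obtain ⟨b, hb, hb1, hb2⟩ := exists_odd49 k (a := (P : ℝ) / Q + 1 / (4 * (N : ℝ) ^ 2))
  have e1 : 1 / (2 * (N : ℝ) ^ 2) = 2 * (1 / (4 * (N : ℝ) ^ 2)) := by field_simp; norm_num
  have e3 : 3 / (4 * (N : ℝ) ^ 2) = 3 * (1 / (4 * (N : ℝ) ^ 2)) := by ring
  have e4 : 1 / (N : ℝ) ^ 2 = 4 * (1 / (4 * (N : ℝ) ^ 2)) := by field_simp
  set u : ℝ := 1 / (4 * (N : ℝ) ^ 2) with hu
  have hu0 : 0 < u := by positivity
  rw [e3] at ha1 ha2 ⊢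
  rw [e1] at hs
  have A2 : (a : ℝ) / 2 ^ k ≤ (P : ℝ) / Q - u := by linarith
  have B2 : (b : ℝ) / 2 ^ k ≤ (P : ℝ) / Q + 3 * u := by linarith
  refine ⟨a, b, ha, hb, ha1.le, A2, hb1.le, B2, ?_⟩
  intro P' Q' hQ' hQN'
  by_cases he : (P' : ℝ) / Q' = (P : ℝ) / Q
  · rw [he]
    constructor
    · rw [le_abs]; left; linarith
    · rw [le_abs]; right; linarith
  · have hg := frac_gap49 (P := P') (P' := P) hQ' hQ hQN' hQN he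
    rw [e4, le_abs] at hg
    rcases hg with hg | hg
    · constructor
      · rw [le_abs]; left; linarith
      · rw [le_abs]; left; linarith
    · constructor
      · rw [le_abs]; right; linarith
      · rw [le_abs]; right; linarith

/-- cut values on both sides of P/Q, strict outer bounds -/
theorem exists_cut49s {N : ℕ} {P : ℤ} {Q : ℕ} (hQ : 0 < Q) (hQN : Q ≤ N) {k : ℕ}
    (hk : 4 * N ^ 2 < 2 ^ k) :
    ∃ a b : ℤ, Odd a ∧ Odd b ∧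
      (P : ℝ) / Q - 3 / (4 * (N : ℝ) ^ 2) < (a : ℝ) / 2 ^ k ∧
      (a : ℝ) / 2 ^ k ≤ (P : ℝ) / Q - 1 / (4 * (N : ℝ) ^ 2) ∧
      (P : ℝ) / Q + 1 / (4 * (N : ℝ) ^ 2) ≤ (b : ℝ) / 2 ^ k ∧
      (b : ℝ) / 2 ^ k < (P : ℝ) / Q + 3 / (4 * (N : ℝ) ^ 2) ∧
      ∀ (P' : ℤ) (Q' : ℕ), 0 < Q' → Q' ≤ N →
        1 / (4 * (N : ℝ) ^ 2) ≤ |(P' : ℝ) / Q' - (a : ℝ) / 2 ^ k| ∧
        1 / (4 * (N : ℝ) ^ 2) ≤ |(P' : ℝ) / Q' - (b : ℝ) / 2 ^ k| := by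
  have hN : (0 : ℝ) < N := by exact_mod_cast lt_of_lt_of_le hQ hQN
  have hN2 : (0 : ℝ) < (N : ℝ) ^ 2 := by positivity
  have h2 : (0 : ℝ) < 2 ^ k := by positivity
  have hk' : 4 * (N : ℝ) ^ 2 < 2 ^ k := by exact_mod_cast hk
  have hs : 2 / (2 : ℝ) ^ k < 1 / (2 * (N : ℝ) ^ 2) := by
    rw [div_lt_div_iff₀ h2 (by positivity)]
    linarith
  obtain ⟨a, ha, ha1, ha2⟩ := exists_odd49 k (a := (P : ℝ) / Q - 3 / (4 * (N : ℝ) ^ 2))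
  obtain ⟨b, hb, hb1, hb2⟩ := exists_odd49 k (a := (P : ℝ) / Q + 1 / (4 * (N : ℝ) ^ 2))
  have e1 : 1 / (2 * (N : ℝ) ^ 2) = 2 * (1 / (4 * (N : ℝ) ^ 2)) := by field_simp; norm_num
  have e3 : 3 / (4 * (N : ℝ) ^ 2) = 3 * (1 / (4 * (N : ℝ) ^ 2)) := by ring
  have e4 : 1 / (N : ℝ) ^ 2 = 4 * (1 / (4 * (N : ℝ) ^ 2)) := by field_simp
  set u : ℝ := 1 / (4 * (N : ℝ) ^ 2) with hu
  have hu0 : 0 < u := by positivity
  rw [e3] at ha1 ha2 ⊢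
  rw [e1] at hs
  have A2 : (a : ℝ) / 2 ^ k ≤ (P : ℝ) / Q - u := by linarith
  have B2 : (b : ℝ) / 2 ^ k < (P : ℝ) / Q + 3 * u := by linarith
  refine ⟨a, b, ha, hb, ha1, A2, hb1.le, B2, ?_⟩
  intro P' Q' hQ' hQN'
  by_cases he : (P' : ℝ) / Q' = (P : ℝ) / Q
  · rw [he]
    constructor
    · rw [le_abs]; left; linarith
    · rw [le_abs]; right; linarith
  · have hg := frac_gap49 (P := P') (P' := P) hQ' hQ hQN' hQN he
    rw [e4, le_abs] at hg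
    rcases hg with hg | hg
    · constructor
      · rw [le_abs]; left; linarith
      · rw [le_abs]; left; linarith
    · constructor
      · rw [le_abs]; right; linarith
      · rw [le_abs]; right; linarith

end Pool.Agent.Work.MLC.Pri
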