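import Pool.Agent.Work.MLC.Hyp51
import Pool.Agent.Work.MLC.SatE26

set_option autoImplicit false

/-! # Problem P: continuation of all cycles over convex sets and Harnack (helper51) -/

namespace Pool.Agent.Work.MLC.PriHar

open Filter Topology Metric Set

/-! ### continuation of periodic points -/

/-- pairs (place, periodic point) -/
def FE (n : ℕ) (c : ℂ → ℂ) (D : Set ℂ) : Set (ℂ × ℂ) := {p | p.1 ∈ D ∧ (c p.1, p.2) ∈ Per n}

section

variable {n : ℕ} {c : ℂ → ℂ} {D : Set ℂ}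

/-- the projection -/
noncomputable def fpr (n : ℕ) (c : ℂ → ℂ) (D : Set ℂ) (p : FE n c D) : D := ⟨p.1.1, p.2.1⟩

lemma continuous_fpr : Continuous (fpr n c D) :=
  (continuous_fst.comp continuous_subtype_val).subtype_mk _

/-- the local branch -/
lemma exists_branch (hD : IsOpen D) (hc : ContinuousOn c D) {p : ℂ × ℂ} (hp : p ∈ FE n c D)
    (h1 : mul n (c p.1, p.2) ≠ 1) : ∃ γ : ℂ → ℂ, ContinuousAt γ p.1 ∧ γ p.1 = p.2 ∧
      (∀ᶠ L in 𝓝 p.1, (L, γ L) ∈ FE n c D) ∧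
      ∀ᶠ q : ℂ × ℂ in 𝓝 p, q ∈ FE n c D → γ q.1 = q.2 := by
  obtain ⟨β, hβ, hβ0, hβe⟩ := chart hp.2 h1
  simp only at hβ hβ0
  have hDn : D ∈ 𝓝 p.1 := hD.mem_nhds hp.1
  have hcc : ContinuousAt c p.1 := hc.continuousAt hDn
  have h2 : ContinuousAt (fun L => β (c L)) p.1 :=
    ContinuousAt.comp (g := β) (f := c) hβ.continuousAt hcc
  have ht : Tendsto (fun L => ((c L, β (c L)) : ℂ × ℂ)) (𝓝 p.1) (𝓝 (c p.1, p.2)) := by
    have h3 : Tendsto (fun L => β (c L)) (𝓝 p.1) (𝓝 p.2) := by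
      have := h2.tendsto
      rwa [hβ0] at this
    exact hcc.tendsto.prodMk_nhds h3
  refine ⟨fun L => β (c L), h2, hβ0, ?_, ?_⟩
  · filter_upwards [hDn, ht.eventually hβe] with L h3 h4
    exact ⟨h3, h4.2 rfl⟩
  · have ht2 : Tendsto (fun q : ℂ × ℂ => ((c q.1, q.2) : ℂ × ℂ)) (𝓝 p) (𝓝 (c p.1, p.2)) :=
      (hcc.tendsto.comp continuousAt_fst).prodMk_nhds continuousAt_snd
    filter_upwards [ht2.eventually hβe] with q h3 h4
    exact h3.1 h4.2

lemma fpr_isOpenMap (hD : IsOpen D) (hc : ContinuousOn c D)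
    (h1 : ∀ p ∈ FE n c D, mul n (c p.1, p.2) ≠ 1) : IsOpenMap (fpr n c D) := by
  rw [isOpenMap_iff_nhds_le]
  intro p U hU
  rw [mem_map] at hU
  have hU' := hU
  rw [nhds_subtype_eq_comap, mem_comap] at hU'
  obtain ⟨V, hV, hVU⟩ := hU'
  obtain ⟨p₀, hp₀⟩ := p
  simp only at hV
  obtain ⟨γ, hγc, hγ0, hγ1, -⟩ := exists_branch hD hc hp₀ (h1 p₀ hp₀)
  have ht : Tendsto (fun L : ℂ => ((L, γ L) : ℂ × ℂ)) (𝓝 p₀.1) (𝓝 p₀) := by
    have h3 : Tendsto γ (𝓝 p₀.1) (𝓝 p₀.2) := by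
      have := hγc.tendsto
      rwa [hγ0] at this
    exact tendsto_id.prodMk_nhds h3
  have ht2 : Tendsto (fun L : D => (L : ℂ)) (𝓝 (fpr n c D ⟨p₀, hp₀⟩)) (𝓝 p₀.1) :=
    continuous_subtype_val.tendsto' _ _ rfl
  filter_upwards [ht2.eventually (ht hV), ht2.eventually hγ1] with L h3 h4
  have h5 : (⟨((L : ℂ), γ L), h4⟩ : FE n c D) ∈ (fpr n c D) ⁻¹' U := hVU h3
  exact h5

lemma fpr_locInj (hD : IsOpen D) (hc : ContinuousOn c D)
    (h1 : ∀ p ∈ FE n c D, mul n (c p.1, p.2) ≠ 1) (p : FE n c D) :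
    ∃ U ∈ 𝓝 p, IsOpen U ∧ InjOn (fpr n c D) U := by
  obtain ⟨p₀, hp₀⟩ := p
  obtain ⟨γ, hγc, hγ0, -, hγ2⟩ := exists_branch hD hc hp₀ (h1 p₀ hp₀)
  obtain ⟨N', hN', hN'o, hx₀N⟩ := _root_.mem_nhds_iff.1 hγ2
  have hcv : Continuous fun q : FE n c D => q.1 := continuous_subtype_val
  refine ⟨{q | q.1 ∈ N'}, (hN'o.preimage hcv).mem_nhds hx₀N, hN'o.preimage hcv, ?_⟩
  rintro ⟨q, hq⟩ hqN ⟨q', hq'⟩ hqN' heq
  simp only [fpr, Subtype.mk.injEq] at heq
  have h3 : γ q.1 = q.2 := hN' hqN hq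
  have h4 : γ q'.1 = q'.2 := hN' hqN' hq'
  refine Subtype.ext (Prod.ext heq ?_)
  show q.2 = q'.2
  rw [← h3, ← h4, heq]

lemma fpr_isLocalHomeomorph (hD : IsOpen D) (hc : ContinuousOn c D)
    (h1 : ∀ p ∈ FE n c D, mul n (c p.1, p.2) ≠ 1) : IsLocalHomeomorph (fpr n c D) := by
  rw [isLocalHomeomorph_iff_isOpenEmbedding_restrict]
  intro p
  obtain ⟨U, hU, hUo, hi⟩ := fpr_locInj hD hc h1 p
  refine ⟨U, hU, ?_⟩
  refine Topology.IsOpenEmbedding.of_continuous_injective_isOpenMap ?_ hi.injective ?_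
  · exact continuous_fpr.comp continuous_subtype_val
  · exact (fpr_isOpenMap hD hc h1).domRestrict hUo

lemma fpr_isProperMap (hn : 0 < n) (hD : IsOpen D) (hc : ContinuousOn c D) :
    IsProperMap (fpr n c D) := by
  have : LocallyCompactSpace D := hD.locallyCompactSpace
  rw [isProperMap_iff_isCompact_preimage]
  refine ⟨continuous_fpr, fun K hK => ?_⟩
  rw [Topology.IsEmbedding.subtypeVal.isCompact_iff]
  set K' : Set ℂ := (fun L : D => (L : ℂ)) '' K with hK'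
  have hKc : IsCompact K' := hK.image continuous_subtype_val
  have hKD : K' ⊆ D := by rintro _ ⟨L, -, rfl⟩; exact L.2
  have hcK : ContinuousOn c K' := hc.mono hKD
  obtain ⟨R, hR⟩ := (hKc.image_of_continuousOn hcK).isBounded.exists_norm_le
  have h2 : Subtype.val '' (fpr n c D ⁻¹' K) =
      (K' ×ˢ closedBall (0 : ℂ) (1 + R)) ∩ {p | it (c p.1) n p.2 = p.2} := by
    ext p
    constructor
    · rintro ⟨⟨q, hq⟩, hqK, rfl⟩
      have h3 : q.1 ∈ K' := ⟨⟨q.1, hq.1⟩, hqK, rfl⟩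
      refine ⟨⟨h3, ?_⟩, hq.2⟩
      rw [mem_closedBall_zero_iff]
      have h4 := norm_le_of_G_zero (G_zero_of_per hn hq.2)
      have h5 := hR (c q.1) ⟨q.1, h3, rfl⟩
      linarith
    · rintro ⟨⟨⟨L, hL, hLp⟩, -⟩, h4⟩
      have h5 : p ∈ FE n c D := ⟨by rw [← hLp]; exact L.2, h4⟩
      refine ⟨⟨p, h5⟩, ?_, rfl⟩
      have h6 : fpr n c D ⟨p, h5⟩ = L := Subtype.ext hLp.symm
      rw [mem_preimage, h6]
      exact hL
  rw [h2]
  have h3 : IsCompact (K' ×ˢ closedBall (0 : ℂ) (1 + R)) := hKc.prod (isCompact_closedBall _ _)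
  have hcont : ContinuousOn (fun p : ℂ × ℂ => it (c p.1) n p.2)
      (K' ×ˢ closedBall (0 : ℂ) (1 + R)) := by
    have h4 : ContinuousOn (fun p : ℂ × ℂ => ((c p.1, p.2) : ℂ × ℂ))
        (K' ×ˢ closedBall (0 : ℂ) (1 + R)) :=
      (hcK.comp continuousOn_fst fun p hp => hp.1).prodMk continuousOn_snd
    exact (continuous_it n).comp_continuousOn h4
  have h5 : IsClosed ((K' ×ˢ closedBall (0 : ℂ) (1 + R)) ∩ {p | it (c p.1) n p.2 = p.2}) := by
    have h6 := (hcont.sub continuousOn_snd).preimage_isClosed_of_isClosed h3.isClosed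
      (isClosed_singleton (x := (0 : ℂ)))
    convert h6 using 1
    ext p
    simp [sub_eq_zero]
  exact h3.of_isClosed_subset h5 inter_subset_left

theorem fpr_isCoveringMap (hn : 0 < n) (hD : IsOpen D) (hc : ContinuousOn c D)
    (h1 : ∀ p ∈ FE n c D, mul n (c p.1, p.2) ≠ 1) : IsCoveringMap (fpr n c D) := by
  rw [isCoveringMap_iff_isCoveringMapOn_univ]
  have hl := fpr_isLocalHomeomorph hD hc h1
  have hp := fpr_isProperMap hn hD hc
  refine IsClosedMap.isCoveringMapOn_of_isLocalHomeomorphOn hp.isClosedMap ?_ ?_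
  · intro L _
    have hc : IsCompact (fpr n c D ⁻¹' {L}) := hp.isCompact_preimage isCompact_singleton
    refine hc.finite (.of_openPartialHomeomorph (fpr n c D) subset_rfl fun e _ => ?_)
    obtain ⟨φ, h1, h2⟩ := hl e
    exact ⟨φ, h1, h2.symm⟩
  · rw [preimage_univ, ← isLocalHomeomorph_iff_isLocalHomeomorphOn_univ]
    exact hl

/-- **continuation of a periodic point over a convex set** -/
theorem exists_cont (hn : 0 < n) (hD : IsOpen D) (hconv : Convex ℝ D) (hc : ContinuousOn c D)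
    (h1 : ∀ L ∈ D, ∀ b, (c L, b) ∈ Per n → mul n (c L, b) ≠ 1) {L₀ b₀ : ℂ} (hL₀ : L₀ ∈ D)
    (hb₀ : (c L₀, b₀) ∈ Per n) : ∃ β : ℂ → ℂ, ContinuousOn β D ∧
      (∀ L ∈ D, (c L, β L) ∈ Per n) ∧ β L₀ = b₀ := by
  have h1' : ∀ p ∈ FE n c D, mul n (c p.1, p.2) ≠ 1 := fun p hp => h1 p.1 hp.1 p.2 hp.2
  have : ContractibleSpace D := hconv.contractibleSpace ⟨L₀, hL₀⟩
  have : LocallyPathConnectedSpace D := hD.locallyPathConnectedSpace
  obtain ⟨F, ⟨hF0, hF⟩, -⟩ := (fpr_isCoveringMap hn hD hc h1').existsUnique_continuousMap_lifts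
    (ContinuousMap.id D) ⟨L₀, hL₀⟩ ⟨(L₀, b₀), hL₀, hb₀⟩ rfl
  classical
  refine ⟨fun L => if hL : L ∈ D then (F ⟨L, hL⟩).1.2 else b₀, ?_, ?_, ?_⟩
  · rw [continuousOn_iff_continuous_domRestrict]
    have h2 : D.domRestrict (fun L => if hL : L ∈ D then (F ⟨L, hL⟩).1.2 else b₀) =
        fun L : D => (F L).1.2 := by
      funext L
      simp [domRestrict, L.2]
    rw [h2]
    exact continuous_snd.comp (continuous_subtype_val.comp F.continuous)
  · intro L hL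
    have h2 : fpr n c D (F ⟨L, hL⟩) = ⟨L, hL⟩ := congrFun hF ⟨L, hL⟩
    have h3 : (F ⟨L, hL⟩).1.1 = L := congrArg Subtype.val h2
    have h4 := (F ⟨L, hL⟩).2.2
    rw [h3] at h4
    simp only [hL, dif_pos]
    exact h4
  · simp only [hL₀, dif_pos, hF0]

/-- two continuations agree everywhere or nowhere -/
theorem cont_ne (hD : IsOpen D) (hpre : IsPreconnected D) (hc : ContinuousOn c D)
    {β β' : ℂ → ℂ} (hβ : ContinuousOn β D) (hβ' : ContinuousOn β' D)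
    (h : ∀ L ∈ D, (c L, β L) ∈ Per n) (h' : ∀ L ∈ D, (c L, β' L) ∈ Per n)
    (h1 : ∀ L ∈ D, ∀ b, (c L, b) ∈ Per n → mul n (c L, b) ≠ 1) {L₁ L₂ : ℂ} (hL₁ : L₁ ∈ D)
    (hL₂ : L₂ ∈ D) (he : β L₁ = β' L₁) : β L₂ = β' L₂ := by
  have h2 : D ⊆ {L | L ∈ D ∧ β L = β' L} := by
    refine hpre.subset_of_closure_inter_subset ?_ ⟨L₁, hL₁, hL₁, he⟩ ?_
    · rw [isOpen_iff_mem_nhds]
      rintro L ⟨hL, hLe⟩
      obtain ⟨γ, hγc, hγ0, -, hγ2⟩ := exists_branch (p := (L, β L)) hD hc ⟨hL, h L hL⟩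
        (h1 L hL _ (h L hL))
      have hDn : D ∈ 𝓝 L := hD.mem_nhds hL
      have ht : Tendsto (fun L' => ((L', β L') : ℂ × ℂ)) (𝓝 L) (𝓝 (L, β L)) :=
        tendsto_id.prodMk_nhds (hβ.continuousAt hDn).tendsto
      have ht' : Tendsto (fun L' => ((L', β' L') : ℂ × ℂ)) (𝓝 L) (𝓝 (L, β L)) := by
        rw [hLe]; exact tendsto_id.prodMk_nhds (hβ'.continuousAt hDn).tendsto
      filter_upwards [ht.eventually hγ2, ht'.eventually hγ2, hDn] with L' h3 h4 h5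
      exact ⟨h5, (h3 ⟨h5, h L' h5⟩).symm.trans (h4 ⟨h5, h' L' h5⟩)⟩
    · rintro L ⟨hLc, hL⟩
      refine ⟨hL, ?_⟩
      have hDn : D ∈ 𝓝 L := hD.mem_nhds hL
      by_contra hne
      have h3 : ∀ᶠ L' in 𝓝 L, β L' ≠ β' L' :=
        ((hβ.continuousAt hDn).prodMk (hβ'.continuousAt hDn)).eventually
          ((isOpen_ne_fun continuous_fst continuous_snd).mem_nhds hne)
      obtain ⟨L', h4, h5⟩ := mem_closure_iff_nhds.1 hLc _ h3
      exact h4 h5.2
  exact (h2 hL₂).2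

/-- exactness along a continuation -/
theorem cont_exact (hD : IsOpen D) (hpre : IsPreconnected D) (hc : ContinuousOn c D)
    {β : ℂ → ℂ} (hβ : ContinuousOn β D) (h : ∀ L ∈ D, (c L, β L) ∈ Per n)
    (h1 : ∀ L ∈ D, ∀ b, (c L, b) ∈ Per n → mul n (c L, b) ≠ 1) {L₁ L₂ : ℂ} (hL₁ : L₁ ∈ D)
    (hL₂ : L₂ ∈ D) (he : ∀ d, 0 < d → d < n → it (c L₁) d (β L₁) ≠ β L₁) :
    ∀ d, 0 < d → d < n → it (c L₂) d (β L₂) ≠ β L₂ := by
  have hev : ∀ L ∈ D, ∀ᶠ L' in 𝓝 L, ((∀ d, 0 < d → d < n → it (c L') d (β L') ≠ β L') ↔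
      ∀ d, 0 < d → d < n → it (c L) d (β L) ≠ β L) := by
    intro L hL
    have hDn : D ∈ 𝓝 L := hD.mem_nhds hL
    have ht : Tendsto (fun L' => ((c L', β L') : ℂ × ℂ)) (𝓝 L) (𝓝 (c L, β L)) :=
      (hc.continuousAt hDn).tendsto.prodMk_nhds (hβ.continuousAt hDn).tendsto
    filter_upwards [ht.eventually (Hyp.exact_nhds (h L hL) (h1 L hL _ (h L hL))), hDn]
      with L' h3 h4
    exact h3 (h L' h4)
  have h2 : D ⊆ {L | L ∈ D ∧ ∀ d, 0 < d → d < n → it (c L) d (β L) ≠ β L} := by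
    refine hpre.subset_of_closure_inter_subset ?_ ⟨L₁, hL₁, hL₁, he⟩ ?_
    · rw [isOpen_iff_mem_nhds]
      rintro L ⟨hL, hLe⟩
      filter_upwards [hev L hL, hD.mem_nhds hL] with L' h3 h4
      exact ⟨h4, h3.2 hLe⟩
    · rintro L ⟨hLc, hL⟩
      obtain ⟨L', h4, h5⟩ := mem_closure_iff_nhds.1 hLc _ (hev L hL)
      exact ⟨hL, h4.1 h5.2⟩
  exact (h2 hL₂).2

/-- the multiplier along a continuation is holomorphic -/
theorem cont_mul (hD : IsOpen D) (hc : DifferentiableOn ℂ c D) {β : ℂ → ℂ}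
    (hβ : ContinuousOn β D) (h : ∀ L ∈ D, (c L, β L) ∈ Per n)
    (h1 : ∀ L ∈ D, mul n (c L, β L) ≠ 1) :
    DifferentiableOn ℂ (fun L => mul n (c L, β L)) D := by
  intro L hL
  have hDn : D ∈ 𝓝 L := hD.mem_nhds hL
  obtain ⟨γ, hγ, hγ0, hγe⟩ := chart (h L hL) (h1 L hL)
  simp only at hγ hγ0
  have ht : Tendsto (fun L' => ((c L', β L') : ℂ × ℂ)) (𝓝 L) (𝓝 (c L, β L)) :=
    (hc.continuousOn.continuousAt hDn).tendsto.prodMk_nhds (hβ.continuousAt hDn).tendsto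
  have h2 : (fun L' => mul n (c L', β L')) =ᶠ[𝓝 L] fun L' => mul n (c L', γ (c L')) := by
    filter_upwards [ht.eventually hγe, hDn] with L' h3 h4
    rw [h3.1 (h L' h4)]
  have h3 : AnalyticAt ℂ (fun c' => mul n (c', γ c')) (c L) :=
    chart_mul (x₀ := (c L, β L)) hγ
  have h4 : DifferentiableAt ℂ (fun L' => mul n (c L', γ (c L'))) L :=
    DifferentiableAt.comp (g := fun c' => mul n (c', γ c')) L h3.differentiableAt
      (hc.differentiableAt hDn)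
  exact (h4.congr_of_eventuallyEq h2).differentiableWithinAt

end

/-! ### Harnack -/

/-- Harnack at the centre of a ball -/
theorem harnack_center {m : ℂ → ℂ} {a : ℂ} {r : ℝ} (hm : DifferentiableOn ℂ m (ball a r))
    (hre : ∀ z ∈ ball a r, 0 < (m z).re) {z : ℂ} (hz : z ∈ ball a r) :
    ‖m z‖ * (r - dist z a) ≤ ‖m a‖ * (r + dist z a) := by
  have hr : 0 < r := (dist_nonneg).trans_lt (mem_ball.1 hz)
  have ha : a ∈ ball a r := mem_ball_self hr
  set A : ℂ := m a with hA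
  have hA0 : 0 < A.re := hre a ha
  set B : ℂ := (starRingEnd ℂ) A with hB
  have hBre : B.re = A.re := by simp [hB]
  have hBim : B.im = -A.im := by simp [hB]
  have hden : ∀ y ∈ ball a r, m y + B ≠ 0 := by
    intro y hy h0
    have h1 := congrArg Complex.re h0
    rw [Complex.add_re, hBre, Complex.zero_re] at h1
    have := hre y hy
    linarith
  set w : ℂ → ℂ := fun y => (m y - A) / (m y + B) with hw
  have hwd : DifferentiableOn ℂ w (ball a r) :=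
    (hm.sub_const _).div (hm.add_const _) hden
  have hwa : w a = 0 := by simp [hw, hA]
  have hmaps : MapsTo w (ball a r) (closedBall (w a) 1) := by
    intro y hy
    rw [hwa, mem_closedBall_zero_iff]
    simp only [hw]
    refine le_of_lt ?_
    rw [norm_div, div_lt_one (norm_pos_iff.2 (hden y hy))]
    refine lt_of_pow_lt_pow_left₀ 2 (norm_nonneg _) ?_
    rw [← Complex.normSq_eq_norm_sq, ← Complex.normSq_eq_norm_sq, Complex.normSq_apply,
      Complex.normSq_apply]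
    simp only [Complex.sub_re, Complex.sub_im, Complex.add_re, Complex.add_im, hBre, hBim]
    have := hre y hy
    nlinarith
  have hS := Complex.dist_le_div_mul_dist_of_mapsTo_ball hwd hmaps hz
  rw [hwa, dist_zero_right] at hS
  have h1 : m z * (1 - w z) = A + w z * B := by
    have h2 : w z * (m z + B) = m z - A := by
      simp only [hw]
      exact div_mul_cancel₀ _ (hden z hz)
    linear_combination -h2
  have hBn : ‖B‖ = ‖A‖ := by rw [hB]; exact Complex.norm_conj A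
  have h3 : ‖m z‖ * (1 - ‖w z‖) ≤ ‖A‖ * (1 + ‖w z‖) := by
    calc ‖m z‖ * (1 - ‖w z‖) ≤ ‖m z‖ * ‖1 - w z‖ := by
          refine mul_le_mul_of_nonneg_left ?_ (norm_nonneg _)
          calc 1 - ‖w z‖ = ‖(1 : ℂ)‖ - ‖w z‖ := by rw [norm_one]
            _ ≤ ‖1 - w z‖ := norm_sub_norm_le _ _
      _ = ‖A + w z * B‖ := by rw [← norm_mul, h1]
      _ ≤ ‖A‖ + ‖w z * B‖ := norm_add_le _ _
      _ = ‖A‖ * (1 + ‖w z‖) := by rw [norm_mul, hBn]; ring
  have h4 : ‖w z‖ * r ≤ dist z a := by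
    have h5 : 1 / r * dist z a * r = dist z a := by field_simp
    calc ‖w z‖ * r ≤ 1 / r * dist z a * r := by gcongr
      _ = dist z a := h5
  have h5 : ‖m z‖ * (r - dist z a) ≤ ‖m z‖ * (1 - ‖w z‖) * r := by
    have : r - dist z a ≤ (1 - ‖w z‖) * r := by nlinarith
    calc ‖m z‖ * (r - dist z a) ≤ ‖m z‖ * ((1 - ‖w z‖) * r) :=
          mul_le_mul_of_nonneg_left this (norm_nonneg _)
      _ = _ := by ring
  have h6 : ‖A‖ * (1 + ‖w z‖) * r ≤ ‖A‖ * (r + dist z a) := by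
    have : (1 + ‖w z‖) * r ≤ r + dist z a := by nlinarith
    calc ‖A‖ * (1 + ‖w z‖) * r = ‖A‖ * ((1 + ‖w z‖) * r) := by ring
      _ ≤ _ := mul_le_mul_of_nonneg_left this (norm_nonneg _)
  calc ‖m z‖ * (r - dist z a) ≤ ‖m z‖ * (1 - ‖w z‖) * r := h5
    _ ≤ ‖A‖ * (1 + ‖w z‖) * r := mul_le_mul_of_nonneg_right h3 hr.le
    _ ≤ _ := h6

lemma inv_re_pos {z : ℂ} (h : 0 < z.re) : 0 < (z⁻¹).re := by
  have hz : z ≠ 0 := by rintro rfl; simp at h
  rw [Complex.inv_re]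
  exact div_pos h (Complex.normSq_pos.2 hz)

/-- Harnack at the centre of a ball, lower bound -/
theorem harnack_center' {m : ℂ → ℂ} {a : ℂ} {r : ℝ} (hm : DifferentiableOn ℂ m (ball a r))
    (hre : ∀ z ∈ ball a r, 0 < (m z).re) {z : ℂ} (hz : z ∈ ball a r) :
    ‖m a‖ * (r - dist z a) ≤ ‖m z‖ * (r + dist z a) := by
  have hne : ∀ y ∈ ball a r, m y ≠ 0 := by
    intro y hy h0
    have := hre y hy
    rw [h0] at this
    simp at this
  have hr : 0 < r := (dist_nonneg).trans_lt (mem_ball.1 hz)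
  have ha : a ∈ ball a r := mem_ball_self hr
  have h1 := harnack_center (m := fun y => (m y)⁻¹) (hm.inv hne)
    (fun y hy => inv_re_pos (hre y hy)) hz
  simp only [norm_inv] at h1
  have h2 : 0 < ‖m z‖ := norm_pos_iff.2 (hne z hz)
  have h3 : 0 < ‖m a‖ := norm_pos_iff.2 (hne a ha)
  have h4 := mul_le_mul_of_nonneg_left h1 (mul_pos h2 h3).le
  have h5 : ‖m z‖ * ‖m a‖ * (‖m z‖⁻¹ * (r - dist z a)) = ‖m a‖ * (r - dist z a) := by
    field_simp
  have h6 : ‖m z‖ * ‖m a‖ * (‖m a‖⁻¹ * (r + dist z a)) = ‖m z‖ * (r + dist z a) := by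
    field_simp
  rwa [h5, h6] at h4

/-- Harnack between two points of the half ball -/
theorem harnack_ball {m : ℂ → ℂ} {a : ℂ} {r : ℝ} (hm : DifferentiableOn ℂ m (ball a r))
    (hre : ∀ z ∈ ball a r, 0 < (m z).re) {z z' : ℂ} (hr : 0 < r) (hz : dist z a ≤ r / 2)
    (hz' : dist z' a ≤ r / 2) : ‖m z‖ ≤ 9 * ‖m z'‖ := by
  have h1 := harnack_center hm hre (mem_ball.2 (by linarith : dist z a < r))
  have h2 := harnack_center' hm hre (mem_ball.2 (by linarith : dist z' a < r))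
  have h3 : ‖m z‖ ≤ 3 * ‖m a‖ := by
    have h4 : ‖m z‖ * (r / 2) ≤ ‖m a‖ * (3 / 2 * r) := by
      calc ‖m z‖ * (r / 2) ≤ ‖m z‖ * (r - dist z a) := by gcongr; linarith
        _ ≤ ‖m a‖ * (r + dist z a) := h1
        _ ≤ _ := by gcongr; linarith
    nlinarith
  have h5 : ‖m a‖ ≤ 3 * ‖m z'‖ := by
    have h4 : ‖m a‖ * (r / 2) ≤ ‖m z'‖ * (3 / 2 * r) := by
      calc ‖m a‖ * (r / 2) ≤ ‖m a‖ * (r - dist z' a) := by gcongr; linarith
        _ ≤ ‖m z'‖ * (r + dist z' a) := h2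
        _ ≤ _ := by gcongr; linarith
    nlinarith
  linarith

/-- Harnack on the left half plane -/
theorem harnack_half {m : ℂ → ℂ} (hm : DifferentiableOn ℂ m {L | L.re < 0})
    (hre : ∀ z : ℂ, z.re < 0 → 0 < (m z).re) {L L' : ℂ} (hL : L.re < 0) (hL' : L'.re < 0) :
    ‖m L‖ * (L.re * L'.re) ≤ ‖m L'‖ * ‖L + (starRingEnd ℂ) L'‖ ^ 2 := by
  set B : ℂ := (starRingEnd ℂ) L' with hB
  have hBre : B.re = L'.re := by simp [hB]
  have hBim : B.im = -L'.im := by simp [hB]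
  set T : ℂ → ℂ := fun w => (L' + w * B) / (1 - w) with hT
  have hne : ∀ w ∈ ball (0 : ℂ) 1, (1 : ℂ) - w ≠ 0 := by
    intro w hw h0
    rw [mem_ball_zero_iff] at hw
    have : w = 1 := by linear_combination -h0
    rw [this, norm_one] at hw
    exact lt_irrefl _ hw
  have hTre : ∀ w ∈ ball (0 : ℂ) 1, (T w).re < 0 := by
    intro w hw
    have hw1 := hne w hw
    have h1 : T w = L'.re * ((1 + w) / (1 - w)) + L'.im * Complex.I := by
      simp only [hT]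
      have h2 : L' = L'.re + L'.im * Complex.I := (Complex.re_add_im L').symm
      have h3 : B = L'.re - L'.im * Complex.I := by
        apply Complex.ext <;> simp [hBre, hBim]
      rw [h3]
      field_simp
      nth_rewrite 1 [h2]
      ring
    rw [h1]
    have h4 : 0 < ((1 + w) / (1 - w)).re := by
      rw [Complex.div_re, ← add_div]
      refine div_pos ?_ (Complex.normSq_pos.2 hw1)
      simp only [Complex.add_re, Complex.one_re, Complex.sub_re, Complex.add_im, Complex.one_im,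
        Complex.sub_im, zero_add, zero_sub]
      rw [mem_ball_zero_iff] at hw
      have h5 : ‖w‖ ^ 2 < 1 := by
        have := norm_nonneg w
        nlinarith
      rw [← Complex.normSq_eq_norm_sq, Complex.normSq_apply] at h5
      nlinarith
    simp only [Complex.add_re, Complex.mul_re, Complex.ofReal_re, Complex.ofReal_im, zero_mul,
      sub_zero, Complex.I_re, mul_zero, Complex.I_im, mul_one]
    nlinarith
  have hTd : DifferentiableOn ℂ T (ball 0 1) := by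
    refine DifferentiableOn.div (by fun_prop) (by fun_prop) hne
  have hmT : DifferentiableOn ℂ (fun w => m (T w)) (ball 0 1) :=
    hm.comp hTd fun w hw => hTre w hw
  have hLB : L + B ≠ 0 := by
    intro h0
    have h1 := congrArg Complex.re h0
    rw [Complex.add_re, hBre, Complex.zero_re] at h1
    linarith
  set w₀ : ℂ := (L - L') / (L + B) with hw₀
  have hw₀n : ‖w₀‖ * ‖L + B‖ = ‖L - L'‖ := by
    rw [← norm_mul, hw₀, div_mul_cancel₀ _ hLB]
  have hsq : ‖L + B‖ ^ 2 - ‖L - L'‖ ^ 2 = 4 * (L.re * L'.re) := by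
    rw [← Complex.normSq_eq_norm_sq, ← Complex.normSq_eq_norm_sq, Complex.normSq_apply,
      Complex.normSq_apply]
    simp only [Complex.sub_re, Complex.sub_im, Complex.add_re, Complex.add_im, hBre, hBim]
    ring
  have hpos : 0 < L.re * L'.re := mul_pos_of_neg_of_neg hL hL'
  have hLBpos : 0 < ‖L + B‖ := norm_pos_iff.2 hLB
  have hw₀1 : ‖w₀‖ < 1 := by
    have h1 : ‖L - L'‖ < ‖L + B‖ := by
      refine lt_of_pow_lt_pow_left₀ 2 (norm_nonneg _) ?_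
      linarith
    rw [hw₀, norm_div, div_lt_one hLBpos]
    exact h1
  have hTw₀ : T w₀ = L := by
    have h1 : (1 : ℂ) - w₀ ≠ 0 := hne w₀ (mem_ball_zero_iff.2 hw₀1)
    have h2 : w₀ * (L + B) = L - L' := by rw [hw₀]; exact div_mul_cancel₀ _ hLB
    simp only [hT]
    rw [div_eq_iff h1]
    linear_combination h2
  have hT0 : T 0 = L' := by simp [hT]
  have hH := harnack_center (m := fun w => m (T w)) hmT (fun w hw => hre _ (hTre w hw))
    (mem_ball_zero_iff.2 hw₀1)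
  simp only [hTw₀, hT0, dist_zero_right] at hH
  -- multiply by `(1 + δ) |L + B|²`
  have h1 : ‖m L‖ * ((1 - ‖w₀‖) * (1 + ‖w₀‖) * ‖L + B‖ ^ 2) ≤
      ‖m L'‖ * ((1 + ‖w₀‖) ^ 2 * ‖L + B‖ ^ 2) := by
    have h2 : 0 ≤ (1 + ‖w₀‖) * ‖L + B‖ ^ 2 := by positivity
    calc ‖m L‖ * ((1 - ‖w₀‖) * (1 + ‖w₀‖) * ‖L + B‖ ^ 2)
        = (‖m L‖ * (1 - ‖w₀‖)) * ((1 + ‖w₀‖) * ‖L + B‖ ^ 2) := by ring
      _ ≤ (‖m L'‖ * (1 + ‖w₀‖)) * ((1 + ‖w₀‖) * ‖L + B‖ ^ 2) :=
          mul_le_mul_of_nonneg_right hH h2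
      _ = _ := by ring
  have h3 : (1 - ‖w₀‖) * (1 + ‖w₀‖) * ‖L + B‖ ^ 2 = 4 * (L.re * L'.re) := by
    calc (1 - ‖w₀‖) * (1 + ‖w₀‖) * ‖L + B‖ ^ 2
        = ‖L + B‖ ^ 2 - (‖w₀‖ * ‖L + B‖) ^ 2 := by ring
      _ = _ := by rw [hw₀n, hsq]
  have h4 : (1 + ‖w₀‖) ^ 2 ≤ 4 := by
    have := norm_nonneg w₀
    nlinarith
  rw [h3] at h1
  have h5 : ‖m L'‖ * ((1 + ‖w₀‖) ^ 2 * ‖L + B‖ ^ 2) ≤ ‖m L'‖ * (4 * ‖L + B‖ ^ 2) := by
    gcongr
  nlinarith

/-! ### transfer of lower bounds for `|ρ - 1|` -/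

/-- `b` is a point of exact period `n` over `c`, not on the cycle of `v` -/
def Oth (n : ℕ) (c v b : ℂ) : Prop :=
  (c, b) ∈ Per n ∧ (∀ d, 0 < d → d < n → it c d b ≠ b) ∧ ∀ i, b ≠ it c i v

lemma kappa_re {ρ : ℂ} (h : 1 < ‖ρ‖) : 0 < (1 / (ρ - 1) + 1 / 2).re := by
  have h0 : ρ - 1 ≠ 0 := by
    intro h1
    have : ρ = 1 := by linear_combination h1
    rw [this, norm_one] at h
    exact lt_irrefl _ h
  have h1 : 1 / (ρ - 1) + 1 / 2 = (ρ + 1) / (2 * (ρ - 1)) := by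
    field_simp
    ring
  rw [h1, Complex.div_re, ← add_div]
  refine div_pos ?_ (Complex.normSq_pos.2 (mul_ne_zero two_ne_zero h0))
  have h2 : 1 < ‖ρ‖ ^ 2 := by nlinarith
  rw [← Complex.normSq_eq_norm_sq, Complex.normSq_apply] at h2
  simp
  nlinarith

/-- **transfer**: `C` is a Harnack constant for the pair `L, L'` in the convex open set `D` -/
theorem transfer {n d : ℕ} (hn : 0 < n) (hd : 0 < d) {D : Set ℂ} (hD : IsOpen D)
    (hconv : Convex ℝ D) {c v : ℂ → ℂ} (hc : DifferentiableOn ℂ c D) (hv : ContinuousOn v D)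
    (hvp : ∀ L ∈ D, (c L, v L) ∈ Per d) (hve : ∀ L ∈ D, ∀ k, 0 < k → k < d → it (c L) k (v L) ≠ v L)
    (h1 : ∀ L ∈ D, ∀ b, (c L, b) ∈ Per n → mul n (c L, b) ≠ 1)
    (h2 : ∀ L ∈ D, ∀ b, Oth n (c L) (v L) b → 1 < ‖mul n (c L, b)‖) {L L' : ℂ} (hL : L ∈ D)
    (hL' : L' ∈ D) {C : ℝ} (hC : 0 ≤ C)
    (hH : ∀ m : ℂ → ℂ, DifferentiableOn ℂ m D → (∀ z ∈ D, 0 < (m z).re) → ‖m L‖ ≤ C * ‖m L'‖)
    {K : ℝ} (hK : ∀ b, Oth n (c L') (v L') b → ‖1 / (mul n (c L', b) - 1)‖ ≤ K) {b : ℂ}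
    (hb : Oth n (c L) (v L) b) : ‖1 / (mul n (c L, b) - 1)‖ ≤ C * (K + 1 / 2) + 1 / 2 := by
  have hpre := hconv.isPreconnected
  obtain ⟨β, hβ, hβp, hβ0⟩ := exists_cont hn hD hconv hc.continuousOn h1 hL hb.1
  have hO : ∀ z ∈ D, Oth n (c z) (v z) (β z) := by
    intro z hz
    refine ⟨hβp z hz, ?_, ?_⟩
    · exact cont_exact hD hpre hc.continuousOn hβ hβp h1 hL hz (by rw [hβ0]; exact hb.2.1)
    · intro i hi
      -- the period of `v` divides `n`
      have hdn : d ∣ n := by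
        have h3 : Function.IsPeriodicPt (f (c z)) d (v z) := hvp z hz
        have h4 : Function.minimalPeriod (f (c z)) (v z) = d := by
          have h5 := h3.minimalPeriod_le hd
          rcases h5.lt_or_eq with h | h
          · exfalso
            exact hve z hz _ (h3.minimalPeriod_pos hd) h
              (Function.isPeriodicPt_minimalPeriod (f (c z)) (v z))
          · exact h
        have h5 : (c z, it (c z) i (v z)) ∈ Per n := by rw [← hi]; exact hβp z hz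
        have h6 : (c z, v z) ∈ Per n := by
          have h7 := Sat.Per_it h5 (d * i - i)
          rwa [Sat.it_back hd (hvp z hz) i] at h7
        have h7 : Function.IsPeriodicPt (f (c z)) n (v z) := h6
        rw [← h4]
        exact h7.minimalPeriod_dvd
      obtain ⟨k, rfl⟩ := hdn
      have hvn : ∀ y ∈ D, (c y, it (c y) i (v y)) ∈ Per (d * k) := by
        intro y hy
        have h3 : Function.IsPeriodicPt (f (c y)) d (v y) := hvp y hy
        have h4 : (c y, v y) ∈ Per (d * k) := h3.trans_dvd ⟨k, rfl⟩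
        exact Sat.Per_it h4 i
      have hvc : ContinuousOn (fun y => it (c y) i (v y)) D :=
        (continuous_it i).comp_continuousOn (hc.continuousOn.prodMk hv)
      have h3 := cont_ne hD hpre hc.continuousOn hβ hvc hβp hvn h1 hz hL hi
      rw [hβ0] at h3
      exact hb.2.2 i h3
  have hrep : ∀ z ∈ D, 1 < ‖mul n (c z, β z)‖ := fun z hz => h2 z hz _ (hO z hz)
  have hne : ∀ z ∈ D, mul n (c z, β z) ≠ 1 := fun z hz => h1 z hz _ (hβp z hz)
  have hne' : ∀ z ∈ D, mul n (c z, β z) - 1 ≠ 0 := fun z hz h => hne z hz (by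
    linear_combination h)
  have hρ := cont_mul hD hc hβ hβp hne
  have hm := hH (fun z => 1 / (mul n (c z, β z) - 1) + 1 / 2)
    (((differentiableOn_const _).div (hρ.sub_const _) hne').add_const _)
    (fun z hz => kappa_re (hrep z hz))
  simp only [hβ0] at hm
  have h3 := hK (β L') (hO L' hL')
  have h4 : ‖1 / (mul n (c L', β L') - 1) + 1 / 2‖ ≤ K + 1 / 2 := by
    calc _ ≤ ‖1 / (mul n (c L', β L') - 1)‖ + ‖(1 / 2 : ℂ)‖ := norm_add_le _ _
      _ ≤ K + 1 / 2 := by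
        have : ‖(1 / 2 : ℂ)‖ = 1 / 2 := by norm_num
        rw [this]; linarith
  have h5 : ‖1 / (mul n (c L, b) - 1)‖ ≤ ‖1 / (mul n (c L, b) - 1) + 1 / 2‖ + 1 / 2 := by
    have h6 : 1 / (mul n (c L, b) - 1) = (1 / (mul n (c L, b) - 1) + 1 / 2) - 1 / 2 := by ring
    calc ‖1 / (mul n (c L, b) - 1)‖ = ‖(1 / (mul n (c L, b) - 1) + 1 / 2) - 1 / 2‖ := by
          rw [← h6]
      _ ≤ ‖1 / (mul n (c L, b) - 1) + 1 / 2‖ + ‖(1 / 2 : ℂ)‖ := norm_sub_le _ _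
      _ = _ := by norm_num
  calc ‖1 / (mul n (c L, b) - 1)‖ ≤ ‖1 / (mul n (c L, b) - 1) + 1 / 2‖ + 1 / 2 := h5
    _ ≤ C * ‖1 / (mul n (c L', β L') - 1) + 1 / 2‖ + 1 / 2 := by linarith
    _ ≤ C * (K + 1 / 2) + 1 / 2 := by
        have := mul_le_mul_of_nonneg_left h4 hC
        linarith

/-- transfer inside a ball -/
theorem transfer_ball {n d : ℕ} (hn : 0 < n) (hd : 0 < d) {a : ℂ} {r : ℝ} (hr : 0 < r)
    {c v : ℂ → ℂ} (hc : DifferentiableOn ℂ c (ball a r)) (hv : ContinuousOn v (ball a r))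
    (hvp : ∀ L ∈ ball a r, (c L, v L) ∈ Per d)
    (hve : ∀ L ∈ ball a r, ∀ k, 0 < k → k < d → it (c L) k (v L) ≠ v L)
    (h1 : ∀ L ∈ ball a r, ∀ b, (c L, b) ∈ Per n → mul n (c L, b) ≠ 1)
    (h2 : ∀ L ∈ ball a r, ∀ b, Oth n (c L) (v L) b → 1 < ‖mul n (c L, b)‖) {L L' : ℂ}
    (hL : dist L a ≤ r / 2) (hL' : dist L' a ≤ r / 2)
    {K : ℝ} (hK : ∀ b, Oth n (c L') (v L') b → ‖1 / (mul n (c L', b) - 1)‖ ≤ K) {b : ℂ}
    (hb : Oth n (c L) (v L) b) : ‖1 / (mul n (c L, b) - 1)‖ ≤ 9 * (K + 1 / 2) + 1 / 2 :=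
  transfer hn hd isOpen_ball (convex_ball a r) hc hv hvp hve h1 h2
    (mem_ball.2 (by linarith)) (mem_ball.2 (by linarith)) (by norm_num)
    (fun m hm hre => harnack_ball hm hre hr hL hL') hK hb

/-- transfer inside the left half plane -/
theorem transfer_half {n d : ℕ} (hn : 0 < n) (hd : 0 < d)
    {c v : ℂ → ℂ} (hc : DifferentiableOn ℂ c {L | L.re < 0}) (hv : ContinuousOn v {L | L.re < 0})
    (hvp : ∀ L : ℂ, L.re < 0 → (c L, v L) ∈ Per d)
    (hve : ∀ L : ℂ, L.re < 0 → ∀ k, 0 < k → k < d → it (c L) k (v L) ≠ v L)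
    (h1 : ∀ L : ℂ, L.re < 0 → ∀ b, (c L, b) ∈ Per n → mul n (c L, b) ≠ 1)
    (h2 : ∀ L : ℂ, L.re < 0 → ∀ b, Oth n (c L) (v L) b → 1 < ‖mul n (c L, b)‖) {L L' : ℂ}
    (hL : L.re < 0) (hL' : L'.re < 0)
    {K : ℝ} (hK : ∀ b, Oth n (c L') (v L') b → ‖1 / (mul n (c L', b) - 1)‖ ≤ K) {b : ℂ}
    (hb : Oth n (c L) (v L) b) : ‖1 / (mul n (c L, b) - 1)‖ ≤
      ‖L + (starRingEnd ℂ) L'‖ ^ 2 / (L.re * L'.re) * (K + 1 / 2) + 1 / 2 := by
  have hpos : 0 < L.re * L'.re := mul_pos_of_neg_of_neg hL hL'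
  refine transfer hn hd (isOpen_lt Complex.continuous_re continuous_const)
    (convex_halfSpace_re_lt 0) hc hv hvp hve h1 h2 hL hL' (by positivity) (fun m hm hre => ?_) hK hb
  have h3 := harnack_half hm hre hL hL'
  rw [div_mul_eq_mul_div, le_div_iff₀ hpos]
  linarith

end Pool.Agent.Work.MLC.PriHar
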