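import Pool.Agent.Work.MLC.Sat0
import Pool.Agent.Work.MLC.Sat7

set_option autoImplicit false

/-! # S7': a limit of attracting pairs with multiplier `1` lies over the frontier of `MM`
(helper40) -/

namespace Pool.Agent.Work.MLC

open Filter Topology Metric Set Complex

namespace Sat

/-- near a pair with multiplier `1` there are exterior parameters (only the last part of `S3_neutral`
is used) -/
theorem s7_parab_of (h3 : ∀ (n : ℕ) (x : ℂ × ℂ) (φ : ℝ), 0 < n → x ∈ Per n → 0 < φ → φ < 1 →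
    mul n x = exp (2 * Real.pi * φ * I) → ∃ᶠ c in 𝓝 x.1, c ∉ MM) (n : ℕ) (y : ℂ × ℂ) (hn : 0 < n)
    (hy : y ∈ Per n) (h1 : mul n y = 1) : ∃ᶠ c in 𝓝 y.1, c ∉ MM := by
  rw [frequently_iff]
  intro V hV
  obtain ⟨W, hWV, hWo, hyW⟩ := _root_.mem_nhds_iff.1 hV
  have hy' : it y.1 n y.2 = y.2 := hy
  have h2 := One49.near_parabolic hn hy' (by rw [← One49.mul_eq_mult]; exact h1)
    (hWo.mem_nhds hyW)
  have hcont : Continuous fun φ : ℝ => exp (2 * Real.pi * φ * I) := by fun_prop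
  have h4 : Tendsto (fun φ : ℝ => exp (2 * Real.pi * φ * I)) (𝓝[>] 0) (𝓝 1) := by
    have h5 := hcont.tendsto 0
    simp only [ofReal_zero, mul_zero, zero_mul, exp_zero] at h5
    exact h5.mono_left nhdsWithin_le_nhds
  have h6 : ∀ᶠ φ : ℝ in 𝓝[>] 0, φ ∈ Ioo (0 : ℝ) 1 := Ioo_mem_nhdsGT one_pos
  obtain ⟨φ, ⟨c', hc', b, hb, hbw⟩, hφ⟩ := ((h4.eventually h2).and h6).exists
  have h7 := h3 n (c', b) φ hn hb hφ.1 hφ.2 (by rw [One49.mul_eq_mult]; exact hbw)
  obtain ⟨c, hcM, hcW⟩ := (h7.and_eventually (hWo.mem_nhds hc')).exists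
  exact ⟨c, hWV hcW, hcM⟩

theorem s7_parab_of_s3 (h3 : S3_neutral) : S7_parab := fun n y hn hy h1 _ =>
  s7_parab_of (fun n x φ hn hx h0 h1 h => (h3 n x φ hn hx h0 h1 h).2.2) n y hn hy h1

end Sat

end Pool.Agent.Work.MLC
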