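import Pool.Agent.Work.MLC.MidRay59
import Pool.Agent.Work.MLC.PriHar51
import Pool.Agent.Work.MLC.PriFarey49
import Pool.Agent.Work.MLC.SatS749
import Pool.Agent.Work.MLC.Sat7p40
import Pool.Agent.Work.MLC.SatPar39
import Pool.Agent.Work.MLC.NV2

set_option autoImplicit false

/-! # The barrier: lower bounds for `|mul - 1|` of all cycles of period at most `N` (helper49)

`V` is given by a `Dat` (the parent data of Theorem S) at the cut value `x`. -/

namespace Pool.Agent.Work.MLC.Pri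

open Filter Topology Metric Set Complex
open PriHar (Oth)

/-- **LEMMA C** (exterior parameters) -/
def LemC (C : ℝ) (e : ℕ) : Prop := ∀ (n : ℕ) (c b : ℂ), 0 < n → 0 < G c c → G c c ≤ 4 →
  (c, b) ∈ Per n → ‖1 / (mul n (c, b) - 1)‖ ≤ C * (1 + |Real.log (G c c)|) ^ e

/-- `b` has exact period `n` over `c` -/
def Ex (n : ℕ) (c b : ℂ) : Prop := (c, b) ∈ Per n ∧ ∀ d, 0 < d → d < n → it c d b ≠ b

/-- over `D` all cycles of period at most `N`, except the cycle of `v`, are repelling -/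
def RepOn (N : ℕ) (D : Set ℂ) (c v : ℂ → ℂ) : Prop :=
  ∀ L ∈ D, ∀ m, 0 < m → m ≤ N → ∀ b, Oth m (c L) (v L) b → 1 < ‖mul m (c L, b)‖

/-! ### over a hyperbolic component all other cycles are repelling -/

/-- no exterior parameters near an attracting pair -/
lemma att_mem_MM {d : ℕ} (hd : 0 < d) {c₀ v₀ : ℂ} (hv : (c₀, v₀) ∈ Per d)
    (hv1 : ‖mul d (c₀, v₀)‖ < 1) : ∀ᶠ c in 𝓝 c₀, c ∈ MM := by
  have hne : mul d (c₀, v₀) ≠ 1 := by
    intro h; rw [h, norm_one] at hv1; exact lt_irrefl _ hv1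
  obtain ⟨β, hβ, hβ0, hβe⟩ := chart hv hne
  have ht := chart_tendsto (x₀ := (c₀, v₀)) hβ hβ0
  have h1 : ∀ᶠ x : ℂ × ℂ in 𝓝 (c₀, v₀), ‖mul d x‖ < 1 :=
    ((continuous_mul' d).norm.continuousAt).eventually (gt_mem_nhds hv1)
  filter_upwards [ht.eventually h1, ht.eventually hβe] with c h2 h3
  by_contra hc
  have h4 := one_lt_norm_mult_of_ext hd (Sat.not_mem_MM_iff.1 hc) (h3.2 rfl)
  rw [mult_eq_mul] at h4
  exact lt_asymm h2 h4

/-- near a pair with neutral multiplier there are exterior parameters -/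
lemma neutral_ext {m : ℕ} (hm : 0 < m) {x : ℂ × ℂ} (hx : x ∈ Per m) (h1 : ‖mul m x‖ = 1) :
    ∃ᶠ c in 𝓝 x.1, c ∉ MM := by
  have h3 : ∀ (n : ℕ) (x : ℂ × ℂ) (φ : ℝ), 0 < n → x ∈ Per n → 0 < φ → φ < 1 →
    mul n x = exp (2 * Real.pi * φ * I) → ∃ᶠ c in 𝓝 x.1, c ∉ MM :=
    fun n x φ hn hx h0 h1 h => (Sat.s3_neutral n x φ hn hx h0 h1 h).2.2
  by_cases h : mul m x = 1
  · exact Sat.s7_parab_of h3 m x hm hx h
  · have h2 : mul m x = exp (arg (mul m x) * I) := by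
      have h4 := Complex.norm_mul_exp_arg_mul_I (mul m x)
      rw [h1, ofReal_one, one_mul] at h4
      exact h4.symm
    set φ : ℝ := Int.fract (arg (mul m x) / (2 * Real.pi)) with hφ
    have hpi := Real.pi_pos
    have h5 : mul m x = exp (2 * Real.pi * φ * I) := by
      rw [h2, Complex.exp_eq_exp_iff_exists_int]
      refine ⟨⌊arg (mul m x) / (2 * Real.pi)⌋, ?_⟩
      have h6 : (φ : ℂ) = arg (mul m x) / (2 * Real.pi) - (⌊arg (mul m x) / (2 * Real.pi)⌋ : ℂ) := by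
        have h7 : φ = arg (mul m x) / (2 * Real.pi) - (⌊arg (mul m x) / (2 * Real.pi)⌋ : ℝ) := by
          rw [hφ, Int.fract]
        rw [h7]; push_cast; ring
      rw [h6]
      have h7 : (Real.pi : ℂ) ≠ 0 := by exact_mod_cast hpi.ne'
      field_simp
      ring
    refine h3 m x φ hm hx ?_ (Int.fract_lt_one _) h5
    refine lt_of_le_of_ne (Int.fract_nonneg _) fun h0 => h ?_
    rw [h5, ← h0]
    simp

/-- over a parameter with an attracting cycle all other cycles are repelling -/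
theorem rep_of_att {d m : ℕ} (hd : 0 < d) (hm : 0 < m) {c v b : ℂ} (hv : (c, v) ∈ Per d)
    (hv1 : ‖mul d (c, v)‖ < 1) (hb : (c, b) ∈ Per m) (hne : ∀ i, b ≠ it c i v) :
    1 < ‖mul m (c, b)‖ := by
  rcases lt_trichotomy 1 ‖mul m (c, b)‖ with h | h | h
  · exact h
  · exfalso
    obtain ⟨c', h1, h2⟩ := ((neutral_ext hm hb h.symm).and_eventually
      (att_mem_MM hd hv hv1)).exists
    exact h1 h2
  · exfalso
    obtain ⟨i, hi⟩ := s7_fatou c v b d m hd hm hv hv1 hb h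
    exact hne i hi

/-- period constraint over a half plane -/
theorem repOn_left {d N : ℕ} (hd : 0 < d) {D : Set ℂ} {τ : ℂ → ℂ × ℂ}
    (hτ : ∀ L ∈ D, τ L ∈ Per d ∧ mul d (τ L) = exp L) (hD : ∀ L ∈ D, L.re < 0) :
    RepOn N D (fun L => (τ L).1) (fun L => (τ L).2) := by
  intro L hL m hm _ b hb
  refine rep_of_att hd hm (hτ L hL).1 ?_ hb.1 hb.2.2
  have h1 : mul d ((τ L).1, (τ L).2) = exp L := (hτ L hL).2
  rw [h1, norm_exp]
  exact Real.exp_lt_one_iff.2 (hD L hL)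

/-! ### no collisions -/

/-- the exact period -/
lemma exists_exact {n : ℕ} (hn : 0 < n) {c b : ℂ} (h : (c, b) ∈ Per n) :
    ∃ m, 0 < m ∧ m ≤ n ∧ m ∣ n ∧ Ex m c b := by
  have h3 : Function.IsPeriodicPt (f c) n b := h
  refine ⟨Function.minimalPeriod (f c) b, h3.minimalPeriod_pos hn, h3.minimalPeriod_le hn,
    h3.minimalPeriod_dvd, Function.isPeriodicPt_minimalPeriod (f c) b, ?_⟩
  intro d hd hdn he
  exact absurd (Function.IsPeriodicPt.minimalPeriod_le (f := f c) hd he) (not_le.2 hdn)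

/-- exact periods are unique -/
lemma ex_unique {n m : ℕ} (hn : 0 < n) (hm : 0 < m) {c b : ℂ} (h : Ex n c b) (h' : Ex m c b) :
    n = m := by
  rcases lt_trichotomy n m with h1 | h1 | h1
  · exact absurd h.1 (h'.2 n hn h1)
  · exact h1
  · exact absurd h'.1 (h.2 m hm h1)

/-- all points of a cycle have the same exact period -/
lemma ex_it {d : ℕ} (hd : 0 < d) {c v : ℂ} (hv : Ex d c v) (i : ℕ) : Ex d c (it c i v) := by
  refine ⟨Sat.Per_it hv.1 i, fun j hj hjd he => hv.2 j hj hjd ?_⟩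
  have h2 : it c (d * i - i) (it c j (it c i v)) = it c (d * i - i) (it c i v) := by rw [he]
  have hper : it c d v = v := hv.1
  rw [Sat.it_back hd hper i, Sat.it_comp, Sat.it_comp] at h2
  have h3 : d * i - i + j + i = j + d * i := by
    have : i ≤ d * i := Nat.le_mul_of_pos_left i hd
    omega
  rw [h3, Sat.it_mul_per hper] at h2
  exact h2

/-- `(H1)` of the transfer from the period constraint -/
theorem ne_one_of_rep {N n d : ℕ} (hn : 0 < n) (hnN : n ≤ N) (hd : 0 < d) {D : Set ℂ}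
    {σ : ℂ → ℂ × ℂ} (hσ : ∀ L ∈ D, σ L ∈ Per d ∧ mul d (σ L) = exp L)
    (hex : ∀ L ∈ D, ∀ k, 0 < k → k < d → it (σ L).1 k (σ L).2 ≠ (σ L).2)
    (hR : RepOn N D (fun L => (σ L).1) (fun L => (σ L).2))
    (hE : ∀ L ∈ D, ∀ k : ℕ, 0 < k → k ≤ N → exp (k * L) ≠ 1) :
    ∀ L ∈ D, ∀ b, ((σ L).1, b) ∈ Per n → mul n ((σ L).1, b) ≠ 1 := by
  intro L hL b hb
  obtain ⟨m, hm, hmn, ⟨k, rfl⟩, hEx⟩ := exists_exact hn hb
  have hk : 0 < k := Nat.pos_of_mul_pos_left hn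
  have hkN : k ≤ N := (Nat.le_mul_of_pos_left k hm).trans hnN
  rw [Hyp.mul_mul hEx.1]
  by_cases ho : ∀ i, b ≠ it (σ L).1 i (σ L).2
  · have h1 := hR L hL m hm (hmn.trans hnN) b ⟨hEx.1, hEx.2, ho⟩
    simp only at h1
    intro h2
    have h3 : ‖mul m ((σ L).1, b)‖ ^ k = 1 := by rw [← norm_pow, h2, norm_one]
    have h4 := one_lt_pow₀ h1 hk.ne'
    linarith
  · obtain ⟨i, hi⟩ := not_forall_not.1 ho
    have h1 : Ex d (σ L).1 (it (σ L).1 i (σ L).2) :=
      ex_it hd ⟨(hσ L hL).1, hex L hL⟩ i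
    rw [hi] at hEx ⊢
    have h2 := ex_unique hm hd hEx h1
    subst h2
    rw [Sat.mul_it' (hσ L hL).1]
    have h3 : mul m ((σ L).1, (σ L).2) = exp L := (hσ L hL).2
    rw [h3, ← Complex.exp_nat_mul]
    exact hE L hL k hk hkN

/-! ### the own cycle -/

/-- the multiplier `exp L` away from the points `2 π i m` -/
lemma own_bound {L : ℂ} {δ : ℝ} (hδ : 0 < δ) (hδ1 : δ ≤ 1)
    (h : ∀ m : ℤ, δ ≤ ‖L - 2 * Real.pi * m * I‖) : ‖1 / (exp L - 1)‖ ≤ 2 / δ := by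
  have h1 : δ / 2 ≤ ‖exp L - 1‖ := by
    by_contra hcon
    push Not at hcon
    have h2 : ‖exp L - 1‖ ≤ 1 / 2 := by linarith
    have h3 : ‖Complex.log (1 + (exp L - 1))‖ ≤ 3 / 2 * ‖exp L - 1‖ :=
      Complex.norm_log_one_add_half_le_self h2
    have h4 : (1 : ℂ) + (exp L - 1) = exp L := by ring
    rw [h4] at h3
    have h5 : exp (Complex.log (exp L)) = exp L := Complex.exp_log (Complex.exp_ne_zero _)
    rw [Complex.exp_eq_exp_iff_exists_int] at h5
    obtain ⟨k, hk⟩ := h5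
    have h6 := h (-k)
    have h7 : L - 2 * Real.pi * ((-k : ℤ) : ℂ) * I = Complex.log (exp L) := by
      rw [hk]; push_cast; ring
    rw [h7] at h6
    linarith
  rw [norm_div, norm_one, div_le_div_iff₀ (by linarith) hδ]
  linarith

/-- the radius -/
noncomputable def rr (N d : ℕ) : ℝ := 1 / (64 * d * (N : ℝ) ^ 4)

/-- far from the fractions of small denominator -/
def Far (N : ℕ) (x : ℝ) : Prop := ∀ (P : ℤ) (Q : ℕ), 0 < Q → Q ≤ N →
  1 / (4 * (N : ℝ) ^ 2) ≤ |(P : ℝ) / Q - x|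

section

variable {N d : ℕ} {x : ℚ}

lemma rr_pos (hN : 0 < N) (hd : 0 < d) : 0 < rr N d := by
  unfold rr
  have h1 : (0 : ℝ) < N := by exact_mod_cast hN
  have h2 : (0 : ℝ) < d := by exact_mod_cast hd
  positivity

lemma rr_le (hN : 0 < N) (hd : 0 < d) : rr N d ≤ 1 / (64 * (N : ℝ) ^ 2) := by
  unfold rr
  have h1 : (1 : ℝ) ≤ N := by exact_mod_cast hN
  have h2 : (1 : ℝ) ≤ d := by exact_mod_cast hd
  have h3 : (N : ℝ) ^ 2 ≤ (N : ℝ) ^ 4 := pow_le_pow_right₀ h1 (by norm_num)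
  have h4 : (N : ℝ) ^ 4 ≤ d * (N : ℝ) ^ 4 := le_mul_of_one_le_left (by positivity) h2
  exact one_div_le_one_div_of_le (by positivity) (by linarith only [h3, h4])

lemma rr_le_gR (hN : 0 < N) (hd : 0 < d) (hF : Far N x) (h0 : 0 < x) (h1 : x < 1) :
    rr N d ≤ Sat.gR d x := by
  have hN1 : (1 : ℝ) ≤ N := by exact_mod_cast hN
  have hd1 : (0 : ℝ) < d := by exact_mod_cast hd
  have hx0 : (0 : ℝ) < x := by exact_mod_cast h0
  have hx1 : (x : ℝ) < 1 := by exact_mod_cast h1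
  have h2 := hF 0 1 one_pos hN
  have h3 := hF 1 1 one_pos hN
  simp only [Int.cast_zero, Nat.cast_one, div_one, zero_sub, abs_neg, Int.cast_one] at h2 h3
  rw [abs_of_pos hx0] at h2
  rw [abs_of_pos (by linarith)] at h3
  have h4 : 1 / (4 * (N : ℝ) ^ 2) ≤ min (x : ℝ) (1 - x) := le_min h2 h3
  have h5 : (1 / (4 * (N : ℝ) ^ 2)) ^ 2 ≤ (min (x : ℝ) (1 - x)) ^ 2 :=
    pow_le_pow_left₀ (by positivity) h4 2
  have h6 : rr N d = 1 / 4 * (1 / (4 * (N : ℝ) ^ 2)) ^ 2 / d := by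
    unfold rr
    field_simp
    norm_num
  rw [h6]
  unfold Sat.gR
  gcongr

/-- distance from the integer multiples of `2 π i / k` -/
lemma far_dist (hN : 0 < N) (hd : 0 < d) (hF : Far N x) {L : ℂ} (hL : dist L (axisPt x) < rr N d)
    {P : ℤ} {Q : ℕ} (hQ : 0 < Q) (hQN : Q ≤ N) :
    1 / (N : ℝ) ^ 2 ≤ ‖L - 2 * Real.pi * ((P : ℝ) / Q : ℝ) * I‖ := by
  have hN1 : (1 : ℝ) ≤ N := by exact_mod_cast hN
  have h1 := hF P Q hQ hQN
  have h2 := rr_le hN hd
  rw [dist_eq_norm] at hL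
  have h3 : L - 2 * Real.pi * ((P : ℝ) / Q : ℝ) * I = (L - axisPt x) +
      ((2 * Real.pi * (x - (P : ℝ) / Q) : ℝ) : ℂ) * I := by
    unfold axisPt; push_cast; ring
  have h4 : ‖((2 * Real.pi * (x - (P : ℝ) / Q) : ℝ) : ℂ) * I‖ =
      2 * Real.pi * |(P : ℝ) / Q - x| := by
    rw [norm_mul, norm_I, mul_one, norm_real, Real.norm_eq_abs, abs_mul,
      abs_of_pos (by positivity : (0 : ℝ) < 2 * Real.pi), abs_sub_comm]
  have h5 := norm_sub_le (L - 2 * Real.pi * ((P : ℝ) / Q : ℝ) * I) (L - axisPt x)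
  rw [h3, add_sub_cancel_left, h4, ← h3] at h5
  have h6 : 2 * 3.14 * (1 / (4 * (N : ℝ) ^ 2)) ≤ 2 * Real.pi * |(P : ℝ) / Q - x| :=
    mul_le_mul (mul_le_mul_of_nonneg_left Real.pi_gt_d2.le (by norm_num)) h1 (by positivity)
      (by positivity)
  have h7 : 2 * 3.14 * (1 / (4 * (N : ℝ) ^ 2)) = 1.57 * (1 / (N : ℝ) ^ 2) := by
    field_simp; norm_num
  have h8 : 1 / (64 * (N : ℝ) ^ 2) = 1 / 64 * (1 / (N : ℝ) ^ 2) := by field_simp
  have h9 : (0 : ℝ) < 1 / (N : ℝ) ^ 2 := by positivity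
  rw [h7] at h6
  rw [h8] at h2
  linarith only [h2, h5, h6, h9, hL]

lemma exp_ne_one (hN : 0 < N) (hd : 0 < d) (hF : Far N x) {L : ℂ}
    (hL : dist L (axisPt x) < rr N d) {k : ℕ} (hk : 0 < k) (hkN : k ≤ N) : exp (k * L) ≠ 1 := by
  intro h
  rw [exp_eq_one_iff] at h
  obtain ⟨m, hm⟩ := h
  have h1 := far_dist hN hd hF hL (P := m) hk hkN
  have hN1 : (1 : ℝ) ≤ N := by exact_mod_cast hN
  have hk0 : (k : ℂ) ≠ 0 := by exact_mod_cast hk.ne'
  have h2 : L - 2 * Real.pi * ((m : ℝ) / k : ℝ) * I = 0 := by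
    have h3 : L = m * (2 * Real.pi * I) / k := by
      field_simp
      linear_combination hm
    rw [h3]; push_cast; ring
  rw [h2, norm_zero] at h1
  have : (0 : ℝ) < 1 / (N : ℝ) ^ 2 := by positivity
  exact (not_le.2 this) h1

end

/-! ### the cut at `x` -/

/-- all the data of the cut of `V` at the value `x` -/
structure Cut (N : ℕ) (D : Sat.Dat) : Prop where
  par : D.Par
  cir : D.Cir
  le : D.m ≤ N
  far : Far N D.x
  den : 4 * 10 ^ 6 * N ^ 12 ≤ D.x.den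
  rep : RepOn N (ball D.a (rr N D.m)) D.c D.b

section

variable {N : ℕ} {D : Sat.Dat}

lemma Cut.N_pos (h : Cut N D) : 0 < N := h.par.m_pos.trans_le h.le

lemma Cut.rr_pos (h : Cut N D) : 0 < rr N D.m := Pri.rr_pos h.N_pos h.par.m_pos

lemma Cut.rr_le_gR (h : Cut N D) : rr N D.m ≤ Sat.gR D.m D.x :=
  Pri.rr_le_gR h.N_pos h.par.m_pos h.far h.par.x_pos h.par.x_lt

lemma Cut.ball_sub (h : Cut N D) : ball D.a (rr N D.m) ⊆ D.B := ball_subset_ball h.rr_le_gR

/-- transfer inside the ball, all pairs of exact period `n` -/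
theorem Cut.ball_bound (h : Cut N D) {K : ℝ} (hK : 0 ≤ K) {L₀ : ℂ}
    (hL₀ : dist L₀ D.a ≤ rr N D.m / 2)
    (hK₀ : ∀ n, 0 < n → n ≤ N → ∀ b, Ex n (D.c L₀) b → ‖1 / (mul n (D.c L₀, b) - 1)‖ ≤ K)
    {n : ℕ} (hn : 0 < n) (hnN : n ≤ N) {L b : ℂ} (hL : dist L D.a ≤ rr N D.m / 2)
    (hb : Ex n (D.c L) b) : ‖1 / (mul n (D.c L, b) - 1)‖ ≤ 9 * K + 5 + 2 * (N : ℝ) ^ 2 := by
  have hr := h.rr_pos
  have hN1 : (1 : ℝ) ≤ N := by exact_mod_cast h.N_pos
  have hsub := h.ball_sub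
  have hN2 : (1 : ℝ) ≤ (N : ℝ) ^ 2 := one_le_pow₀ hN1
  by_cases ho : ∀ i, b ≠ it (D.c L) i (D.b L)
  · have hG : GoodDom D.m D.B := Sat.goodB h.par
    have hc : DifferentiableOn ℂ D.c (ball D.a (rr N D.m)) :=
      (section_differentiableOn hG h.par.cont h.par.sec).mono hsub
    have hv : ContinuousOn D.b (ball D.a (rr N D.m)) :=
      (continuous_snd.comp_continuousOn h.par.cont).mono hsub
    have hσ : ∀ L ∈ ball D.a (rr N D.m), D.σ L ∈ Per D.m ∧ mul D.m (D.σ L) = exp L :=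
      fun L hL => h.par.sec L (hsub hL)
    have h1 := ne_one_of_rep hn hnN h.par.m_pos (D := ball D.a (rr N D.m)) (σ := D.σ) hσ
      (fun L hL k hk hkd => h.par.prim L (hsub hL) k hk hkd) h.rep
      (fun L hL k hk hkN => exp_ne_one h.N_pos h.par.m_pos h.far (mem_ball.1 hL) hk hkN)
    have h2 := PriHar.transfer_ball hn h.par.m_pos hr hc hv (fun L hL => (hσ L hL).1)
      (fun L hL k hk hkd => h.par.prim L (hsub hL) k hk hkd) h1
      (fun L hL b hb => h.rep L hL n hn hnN b hb) hL hL₀ (K := K)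
      (fun b hb => hK₀ n hn hnN b ⟨hb.1, hb.2.1⟩) ⟨hb.1, hb.2, ho⟩
    linarith
  · obtain ⟨i, hi⟩ := not_forall_not.1 ho
    have hLB : L ∈ D.B := hsub (mem_ball.2 (by linarith))
    have h1 : Ex D.m (D.c L) b := by
      rw [hi]
      exact ex_it h.par.m_pos ⟨(h.par.sec L hLB).1, h.par.prim L hLB⟩ i
    have h2 := ex_unique hn h.par.m_pos hb h1
    subst h2
    have h3 : mul D.m (D.c L, b) = exp L := by
      rw [hi]
      exact (Sat.mul_it' (h.par.sec L hLB).1 i).trans (h.par.sec L hLB).2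
    rw [h3]
    have h4 := own_bound (L := L) (δ := 1 / (N : ℝ) ^ 2) (by positivity)
      (by rw [div_le_one (by positivity)]; exact hN2) (fun m => by
        have h5 := far_dist h.N_pos h.par.m_pos h.far (L := L)
          (show dist L (axisPt D.x) < rr N D.m by
            have : dist L (axisPt D.x) ≤ rr N D.m / 2 := hL
            linarith) (P := m) one_pos h.N_pos
        simpa using h5)
    have h5 : 2 / (1 / (N : ℝ) ^ 2) = 2 * (N : ℝ) ^ 2 := by field_simp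
    rw [h5] at h4
    linarith

/-! ### the reference point -/

/-- the length of the plateau -/
lemma plateau_len (hP : D.Par) (hC : D.Cir) : 1 / (2 : ℝ) ^ (D.m * D.x.den) ≤ D.tp - D.tm := by
  obtain ⟨hq, ⟨k, hk⟩, -⟩ := hC.per
  obtain ⟨j, l, hj⟩ := hC.orb
  set M : ℝ := (2 : ℝ) ^ (D.m * D.x.den) with hM
  have hM1 : 1 < M := one_lt_pow₀ (by norm_num) (Nat.mul_pos hP.m_pos D.x.pos).ne'
  obtain ⟨z, hz⟩ : ∃ z : ℤ, (M - 1) * (D.tp - D.tm) = z := by
    refine ⟨2 ^ (D.m * j) * k + (2 ^ (D.m * D.x.den) - 1) * l - k, ?_⟩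
    push_cast
    rw [← hM, ← hk, hj]
    ring
  have hl : 0 < D.tp - D.tm := sub_pos.2 hC.lt
  have h3 : (1 : ℝ) ≤ z := by
    have h4 : (0 : ℝ) < z := by
      rw [← hz]
      exact mul_pos (by linarith) hl
    exact_mod_cast (by exact_mod_cast h4 : (0 : ℤ) < z)
  rw [div_le_iff₀ (zero_lt_one.trans hM1)]
  linarith only [h3, hz, hl]

/-- the mid angle -/
noncomputable def th (D : Sat.Dat) : ℝ := (D.tm + D.tp) / 2

/-- the reference potential -/
noncomputable def g₀ (D : Sat.Dat) : ℝ := (D.tp - D.tm) / (200 * D.x.den)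

lemma den_pos' : (1 : ℝ) ≤ D.x.den := by exact_mod_cast D.x.pos

lemma g₀_pos (hC : D.Cir) : 0 < g₀ D := by
  have := den_pos' (D := D)
  exact div_pos (sub_pos.2 hC.lt) (by linarith)

lemma g₀_lt (hC : D.Cir) : g₀ D < 1 := by
  have h1 := den_pos' (D := D)
  unfold g₀
  rw [div_lt_one (by linarith)]
  have := hC.lt_one
  linarith

/-- the size of the logarithm of the reference potential -/
lemma log_g₀ (hP : D.Par) (hC : D.Cir) (hd : 10 ≤ D.x.den) :
    3 + |Real.log (g₀ D)| ≤ 10 * D.m * D.x.den := by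
  have h1 := den_pos' (D := D)
  have hm : (1 : ℝ) ≤ D.m := by exact_mod_cast hP.m_pos
  have hd' : (10 : ℝ) ≤ D.x.den := by exact_mod_cast hd
  have hg := g₀_pos hC
  rw [abs_of_neg (Real.log_neg hg (g₀_lt hC))]
  have h2 : 1 / ((2 : ℝ) ^ (D.m * D.x.den) * (200 * D.x.den)) ≤ g₀ D := by
    unfold g₀
    rw [← div_div]
    exact div_le_div_of_nonneg_right (plateau_len hP hC) (by positivity)
  have h3 := Real.log_le_log (by positivity) h2
  rw [one_div, Real.log_inv, Real.log_mul (by positivity) (by positivity), Real.log_pow,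
    Real.log_mul (by norm_num) (by positivity)] at h3
  have h4 : Real.log 200 ≤ 6 := by
    have h5 : (200 : ℝ) ≤ 2 ^ 8 := by norm_num
    have h6 := Real.log_le_log (by norm_num) h5
    rw [Real.log_pow] at h6
    have := Real.log_two_lt_d9
    push_cast at h6
    linarith only [h6, this]
  have h5 : Real.log D.x.den ≤ D.x.den :=
    (Real.log_le_sub_one_of_pos (zero_lt_one.trans_le h1)).trans (sub_le_self _ zero_le_one)
  have h6 : ((D.m * D.x.den : ℕ) : ℝ) * Real.log 2 ≤ D.m * D.x.den := by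
    push_cast
    exact mul_le_of_le_one_right (by positivity) (by linarith only [Real.log_two_lt_d9])
  have h7 : (D.x.den : ℝ) ≤ D.m * D.x.den := le_mul_of_one_le_left (zero_le_one.trans h1) hm
  linarith only [h3, h4, h5, h6, h7, hd']

/-- the bound at the reference point -/
noncomputable def K₀ (C : ℝ) (e N : ℕ) (D : Sat.Dat) : ℝ := C * (10 * N * D.x.den) ^ e

lemma Cut.den' (h : Cut N D) : 4 * 10 ^ 6 * (N : ℝ) ^ 12 ≤ D.x.den := by exact_mod_cast h.den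

lemma Cut.ten_le (h : Cut N D) : 10 ≤ D.x.den := by
  have h1 : 1 ≤ N ^ 12 := Nat.one_le_pow _ _ h.N_pos
  have := h.den
  omega

/-- LEMMA C at potential at least `g₀` -/
lemma Cut.lemC (h : Cut N D) {C : ℝ} {e : ℕ} (hC0 : 0 ≤ C) (hC : LemC C e) {n : ℕ} (hn : 0 < n)
    {c b : ℂ} (hg : g₀ D ≤ G c c) (hg4 : G c c ≤ 4) (hb : (c, b) ∈ Per n) :
    ‖1 / (mul n (c, b) - 1)‖ ≤ K₀ C e N D := by
  have h0 := g₀_pos h.cir
  have hgp : 0 < G c c := h0.trans_le hg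
  refine (hC n c b hn hgp hg4 hb).trans ?_
  unfold K₀
  have h1 := log_g₀ h.par h.cir h.ten_le
  have h2 : |Real.log (G c c)| ≤ 2 + |Real.log (g₀ D)| := by
    rw [abs_of_neg (Real.log_neg h0 (g₀_lt h.cir))]
    have h3 := Real.log_le_log h0 hg
    have h4 := Real.log_le_log hgp hg4
    have h5 : Real.log 4 ≤ 2 := by
      have h6 : (4 : ℝ) = 2 ^ 2 := by norm_num
      rw [h6, Real.log_pow]
      have := Real.log_two_lt_d9
      push_cast; linarith
    have h6 := Real.log_neg h0 (g₀_lt h.cir)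
    rw [abs_le]
    constructor <;> linarith only [h3, h4, h5, h6]
  have h3 : 1 + |Real.log (G c c)| ≤ 10 * N * D.x.den := by
    have h4 : (D.m : ℝ) ≤ N := by exact_mod_cast h.le
    have h5 : 10 * (D.m : ℝ) * D.x.den ≤ 10 * N * D.x.den :=
      mul_le_mul_of_nonneg_right (mul_le_mul_of_nonneg_left h4 (by norm_num)) (Nat.cast_nonneg _)
    linarith only [h1, h2, h5]
  have h4 : 0 ≤ 1 + |Real.log (G c c)| := by positivity
  exact mul_le_mul_of_nonneg_left (pow_le_pow_left₀ h4 h3 e) hC0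

lemma Cut.near (h : Cut N D) : 15 * D.m / Real.sqrt D.x.den ≤ rr N D.m / 2 := by
  have hN1 : (1 : ℝ) ≤ N := by exact_mod_cast h.N_pos
  have hm : (1 : ℝ) ≤ D.m := by exact_mod_cast h.par.m_pos
  have hmN : (D.m : ℝ) ≤ N := by exact_mod_cast h.le
  have h1 := h.den'
  have h2 : 1920 * (D.m : ℝ) ^ 2 * N ^ 4 ≤ Real.sqrt D.x.den := by
    refine Real.le_sqrt_of_sq_le ?_
    calc (1920 * (D.m : ℝ) ^ 2 * N ^ 4) ^ 2 = 3686400 * (D.m : ℝ) ^ 4 * N ^ 8 := by ring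
      _ ≤ 3686400 * (N : ℝ) ^ 4 * N ^ 8 :=
        mul_le_mul_of_nonneg_right (mul_le_mul_of_nonneg_left
          (pow_le_pow_left₀ (Nat.cast_nonneg _) hmN 4) (by norm_num)) (by positivity)
      _ = 3686400 * (N : ℝ) ^ 12 := by ring
      _ ≤ 4 * 10 ^ 6 * (N : ℝ) ^ 12 :=
        mul_le_mul_of_nonneg_right (by norm_num) (by positivity)
      _ ≤ _ := h1
  have h3 : 0 < 1920 * (D.m : ℝ) ^ 2 * N ^ 4 := by positivity
  unfold rr
  rw [div_div, div_le_div_iff₀ (h3.trans_le h2) (by positivity)]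
  linarith only [h2]

lemma Cut.near' (h : Cut N D) : 15 * D.m / Real.sqrt D.x.den < Sat.gR D.m D.x := by
  have h1 := h.near
  have h2 := h.rr_pos
  have h3 := h.rr_le_gR
  linarith

/-- **(b)** over the half ball -/
theorem Cut.disc_bound (h : Cut N D) {C : ℝ} {e : ℕ} (hC0 : 0 ≤ C) (hC : LemC C e) {n : ℕ}
    (hn : 0 < n) (hnN : n ≤ N) {L b : ℂ} (hL : dist L D.a ≤ rr N D.m / 2) (hb : Ex n (D.c L) b) :
    ‖1 / (mul n (D.c L, b) - 1)‖ ≤ 9 * K₀ C e N D + 5 + 2 * (N : ℝ) ^ 2 := by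
  have h0 := g₀_pos h.cir
  obtain ⟨h1, h2⟩ := ang_cOf (g := g₀ D) (θ := th D) h0
  set c₀ : ℂ := cOf ((g₀ D : ℂ) + 2 * Real.pi * th D * I) with hc₀
  obtain ⟨L₀, h3, h4, h5, h6, h7⟩ := Sat.mid_ray D h.par h.cir h.near' h1 h2.le
  refine h.ball_bound (K := K₀ C e N D) ?_ (L₀ := L₀) ?_ ?_ hn hnN hL hb
  · unfold K₀; positivity
  · rw [dist_eq_norm]; exact h7.trans h.near
  · intro n' hn' _ b' hb'
    have h8 := g₀_lt h.cir
    refine h.lemC hC0 hC hn' (by rw [h4, h2]) (by rw [h4, h2]; linarith) hb'.1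

/-- **(a)** on the ray of the mid angle, at all potentials -/
theorem Cut.ray_bound (h : Cut N D) {C : ℝ} {e : ℕ} (hC0 : 0 ≤ C) (hC : LemC C e) {n : ℕ}
    (hn : 0 < n) (hnN : n ≤ N) {c b : ℂ} (hA : Ang c (th D)) (hb : Ex n c b) :
    ‖1 / (mul n (c, b) - 1)‖ ≤ 9 * K₀ C e N D + 5 + 2 * (N : ℝ) ^ 2 := by
  have hK : 0 ≤ K₀ C e N D := by unfold K₀; positivity
  have hN2 : (0 : ℝ) ≤ (N : ℝ) ^ 2 := by positivity
  rcases le_or_gt (G c c) (g₀ D) with hg | hg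
  · obtain ⟨L₀, h3, h4, h5, h6, h7⟩ := Sat.mid_ray D h.par h.cir h.near' hA hg
    rw [← h4] at hb ⊢
    exact h.disc_bound hC0 hC hn hnN (by rw [dist_eq_norm]; exact h7.trans h.near) hb
  · rcases le_or_gt (G c c) 4 with hg4 | hg4
    · have := h.lemC hC0 hC hn hg.le hg4 hb.1
      linarith
    · have h1 : 23 / 10 ≤ ‖mul n (c, b)‖ := by
        by_contra hcon
        push Not at hcon
        exact absurd (G_le_four_of_mul_lt hn hb.1 hcon) (not_le.2 hg4)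
      have h2 : 1 ≤ ‖mul n (c, b) - 1‖ := by
        have := norm_sub_norm_le (mul n (c, b)) 1
        rw [norm_one] at this
        linarith
      have h3 : ‖1 / (mul n (c, b) - 1)‖ ≤ 1 := by
        rw [norm_div, norm_one]
        exact (div_le_one (by linarith)).2 h2
      linarith

/-! ### over the component -/

/-- the exact period along a section -/
lemma prim_on {m : ℕ} {B : Set ℂ} (hB : IsPreconnected B) (hBo : IsOpen B)
    (hne : ∀ L ∈ B, exp L ≠ 1) {σ : ℂ → ℂ × ℂ} (hσ : ContinuousOn σ B)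
    (hσ' : ∀ L ∈ B, σ L ∈ Per m ∧ mul m (σ L) = exp L) {a : ℂ} (ha : a ∈ B)
    (hprim : Ex m (σ a).1 (σ a).2) : ∀ L ∈ B, Ex m (σ L).1 (σ L).2 := fun L hL =>
  ⟨(hσ' L hL).1, Sat.prim_section hB hBo hne hσ hσ' ha hprim.2 L hL⟩

/-- the left half plane -/
def Lft : Set ℂ := {L : ℂ | L.re < 0}

/-- the left reference point -/
noncomputable def Lp (N : ℕ) (D : Sat.Dat) : ℂ := D.a - ((rr N D.m / 4 : ℝ) : ℂ)

lemma a_re : (D.a).re = 0 := by simp [Sat.Dat.a, axisPt]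

lemma Lp_re : (Lp N D).re = -(rr N D.m / 4) := by simp [Lp, a_re]

lemma Lp_dist (h : Cut N D) : dist (Lp N D) D.a = rr N D.m / 4 := by
  have := h.rr_pos
  rw [dist_eq_norm, Lp, sub_sub_cancel_left, norm_neg, norm_real, Real.norm_eq_abs,
    abs_of_pos (by linarith)]

/-- the section over the left half plane -/
theorem Cut.exists_left (h : Cut N D) : ∃ τ : ℂ → ℂ × ℂ, ContinuousOn τ Lft ∧
    (∀ L ∈ Lft, τ L ∈ Per D.m ∧ mul D.m (τ L) = exp L) ∧
    ∀ L ∈ D.B, L.re < 0 → τ L = D.σ L := by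
  have hr := h.rr_pos
  have hG : GoodDom D.m Lft := goodDom_left h.par.m_pos
  have hcv : Convex ℝ Lft := convex_halfSpace_re_lt 0
  have hp : Lp N D ∈ Lft := by
    show (Lp N D).re < 0
    rw [Lp_re]; linarith
  have hpB : Lp N D ∈ D.B := h.ball_sub (by rw [mem_ball, Lp_dist h]; linarith)
  obtain ⟨h1, h2⟩ := h.par.sec _ hpB
  obtain ⟨τ, hτ, hτ', hτ0⟩ := exists_section hG hcv h1 hp h2
  refine ⟨τ, hτ, hτ', fun L hL hre => ?_⟩
  have hS : IsPreconnected (D.B ∩ Lft) := ((convex_ball _ _).inter hcv).isPreconnected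
  have h3 := section_unique hG hτ hτ' hS (g := D.σ) (l := fun L => L)
    (h.par.cont.mono inter_subset_left) continuousOn_id
    (fun L hL => ⟨(h.par.sec L hL.1).1, hL.2, (h.par.sec L hL.1).2⟩)
    (a₀ := Lp N D) ⟨hpB, hp⟩ hτ0.symm
  exact (h3 L ⟨hL, hre⟩).symm

/-- the final constant -/
noncomputable def KB (C : ℝ) (e N : ℕ) (D : Sat.Dat) : ℝ := 10 ^ 9 * N ^ 12 * (K₀ C e N D + 1)

lemma KB_ge (h : Cut N D) {C : ℝ} {e : ℕ} (hC0 : 0 ≤ C) :
    9 * K₀ C e N D + 5 + 2 * (N : ℝ) ^ 2 ≤ KB C e N D := by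
  have hN1 : (1 : ℝ) ≤ N := by exact_mod_cast h.N_pos
  have hK : 0 ≤ K₀ C e N D := by unfold K₀; positivity
  have h2 : (N : ℝ) ^ 2 ≤ N ^ 12 := pow_le_pow_right₀ hN1 (by norm_num)
  have h1 : (1 : ℝ) ≤ (N : ℝ) ^ 12 := one_le_pow₀ hN1
  unfold KB
  linarith only [mul_le_mul_of_nonneg_right h1 hK, h1, h2, hK]

/-- the numbers of `left_bound` -/
lemma left_num {N r K : ℝ} (hN1 : 1 ≤ N) (hK : 0 ≤ K) (hr : 0 < r) (hrN : 1 / r ≤ 64 * N ^ 5)
    {A B : ℝ} (hA0 : 0 ≤ A) (hA : A ≤ 18) (hB : (r / 4) ^ 2 ≤ B) :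
    A ^ 2 / B * (9 * K + 5 + 2 * N ^ 2 + 1 / 2) + 1 / 2 ≤ 10 ^ 9 * N ^ 12 * (K + 1) := by
  have h5 : A ^ 2 / B ≤ 324 * (16 * (64 * N ^ 5) ^ 2) := by
    calc A ^ 2 / B ≤ 18 ^ 2 / (r / 4) ^ 2 :=
          div_le_div₀ (by norm_num) (pow_le_pow_left₀ hA0 hA 2) (by positivity) hB
      _ = 324 * (16 * (1 / r) ^ 2) := by field_simp; norm_num
      _ ≤ _ := mul_le_mul_of_nonneg_left (mul_le_mul_of_nonneg_left
        (pow_le_pow_left₀ (by positivity) hrN 2) (by norm_num)) (by norm_num)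
  have h6 : 0 ≤ 9 * K + 5 + 2 * N ^ 2 + 1 / 2 := by positivity
  have h8 : 1 ≤ N ^ 2 := one_le_pow₀ hN1
  have h9 : 9 * K + 5 + 2 * N ^ 2 + 1 / 2 ≤ N ^ 2 * (9 * K + 15 / 2) := by
    linarith only [mul_le_mul_of_nonneg_right h8 hK, h8]
  have h10 : 1 ≤ N ^ 12 := one_le_pow₀ hN1
  calc A ^ 2 / B * (9 * K + 5 + 2 * N ^ 2 + 1 / 2) + 1 / 2
      ≤ 324 * (16 * (64 * N ^ 5) ^ 2) * (N ^ 2 * (9 * K + 15 / 2)) + 1 / 2 :=
        add_le_add (mul_le_mul h5 h9 h6 (by positivity)) le_rfl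
    _ = 21233664 * (N ^ 12 * (9 * K + 15 / 2)) + 1 / 2 := by ring
    _ ≤ _ := by linarith only [mul_le_mul_of_nonneg_right h10 hK, h10, hK]

/-- the own cycle -/
lemma left_num' {N r K : ℝ} (hN1 : 1 ≤ N) (hK : 0 ≤ K) (hr : 0 < r)
    (hrN : 1 / r ≤ 64 * N ^ 5) : 2 / (r / 4) ≤ 10 ^ 9 * N ^ 12 * (K + 1) := by
  have h5 : 2 / (r / 4) = 8 * (1 / r) := by field_simp; norm_num
  rw [h5]
  have h6 : N ^ 5 ≤ N ^ 12 := pow_le_pow_right₀ hN1 (by norm_num)
  have h7 : 1 ≤ N ^ 12 := one_le_pow₀ hN1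
  linarith only [mul_le_mul_of_nonneg_right h7 hK, h6, h7, hrN, hK]

lemma Cut.norm_Lp_le (h : Cut N D) : ‖Lp N D‖ ≤ 8 := by
  have hN1 : (1 : ℝ) ≤ N := by exact_mod_cast h.N_pos
  have h5 : ‖D.a‖ ≤ 2 * Real.pi := by
    have h6 : D.a = ((2 * Real.pi * D.x : ℝ) : ℂ) * I := by
      simp [Sat.Dat.a, axisPt]
    have hx0 : (0 : ℝ) < D.x := by exact_mod_cast h.par.x_pos
    have hx1 : (D.x : ℝ) < 1 := by exact_mod_cast h.par.x_lt
    rw [h6, norm_mul, norm_I, mul_one, norm_real, Real.norm_eq_abs,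
      abs_of_pos (by positivity)]
    exact mul_le_of_le_one_right (by positivity) hx1.le
  have h6 := rr_le h.N_pos h.par.m_pos
  have h7 : 1 / (64 * (N : ℝ) ^ 2) ≤ 1 / 64 := by
    have : (1 : ℝ) ≤ (N : ℝ) ^ 2 := one_le_pow₀ hN1
    exact one_div_le_one_div_of_le (by norm_num) (by linarith only [this])
  have h8 : ‖Lp N D‖ ≤ ‖D.a‖ + ‖Lp N D - D.a‖ := by
    have := norm_add_le D.a (Lp N D - D.a)
    rwa [add_sub_cancel] at this
  rw [← dist_eq_norm, Lp_dist h] at h8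
  linarith only [h5, h6, h7, h8, Real.pi_lt_d2]

/-- **(c)** over the left half plane -/
theorem Cut.left_bound (h : Cut N D) {C : ℝ} {e : ℕ} (hC0 : 0 ≤ C) (hC : LemC C e)
    {τ : ℂ → ℂ × ℂ} (hτ : ContinuousOn τ Lft)
    (hτ' : ∀ L ∈ Lft, τ L ∈ Per D.m ∧ mul D.m (τ L) = exp L)
    (hτσ : τ (Lp N D) = D.σ (Lp N D)) {n : ℕ} (hn : 0 < n) (hnN : n ≤ N) {L b : ℂ}
    (hL : L.re ≤ -(rr N D.m / 4)) (hL10 : ‖L‖ ≤ 10) (hb : Ex n (τ L).1 b) :
    ‖1 / (mul n ((τ L).1, b) - 1)‖ ≤ KB C e N D := by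
  have hr := h.rr_pos
  have hN1 : (1 : ℝ) ≤ N := by exact_mod_cast h.N_pos
  have hm1 : (1 : ℝ) ≤ D.m := by exact_mod_cast h.par.m_pos
  have hmN : (D.m : ℝ) ≤ N := by exact_mod_cast h.le
  have hK : 0 ≤ K₀ C e N D := by unfold K₀; positivity
  have hG : GoodDom D.m Lft := goodDom_left h.par.m_pos
  have hcv : Convex ℝ Lft := convex_halfSpace_re_lt 0
  have hLl : L ∈ Lft := by show L.re < 0; linarith
  have hp : Lp N D ∈ Lft := by
    show (Lp N D).re < 0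
    rw [Lp_re]; linarith
  have hpB : Lp N D ∈ D.B := h.ball_sub (by rw [mem_ball, Lp_dist h]; linarith)
  have hex : ∀ L ∈ Lft, Ex D.m (τ L).1 (τ L).2 := by
    refine prim_on hcv.isPreconnected hG.isOpen hG.ne_one hτ hτ' hp ?_
    rw [hτσ]
    exact ⟨(h.par.sec _ hpB).1, h.par.prim _ hpB⟩
  have hrN : 1 / rr N D.m ≤ 64 * (N : ℝ) ^ 5 := by
    unfold rr
    rw [one_div_one_div]
    have : (D.m : ℝ) * N ^ 4 ≤ N * N ^ 4 := mul_le_mul_of_nonneg_right hmN (by positivity)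
    have h2 : (N : ℝ) * N ^ 4 = N ^ 5 := by ring
    rw [h2] at this
    linarith only [this]
  by_cases ho : ∀ i, b ≠ it (τ L).1 i (τ L).2
  · have hR := repOn_left (N := N) h.par.m_pos hτ' (fun L hL => hL)
    have h1 := ne_one_of_rep hn hnN h.par.m_pos hτ' (fun L hL => (hex L hL).2) hR
      (fun L hL k hk hkN => by
        intro h0
        have h2 : ‖exp (k * L)‖ < 1 := by
          rw [norm_exp]
          refine Real.exp_lt_one_iff.2 ?_
          have h3 : ((k : ℂ) * L).re = k * L.re := by simp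
          rw [h3]
          exact mul_neg_of_pos_of_neg (by exact_mod_cast hk) hL
        rw [h0, norm_one] at h2
        exact lt_irrefl _ h2)
    have hc : DifferentiableOn ℂ (fun L => (τ L).1) {L : ℂ | L.re < 0} :=
      section_differentiableOn hG hτ hτ'
    have hv : ContinuousOn (fun L => (τ L).2) {L : ℂ | L.re < 0} :=
      continuous_snd.comp_continuousOn hτ
    have h2 := PriHar.transfer_half hn h.par.m_pos hc hv (fun L hL => (hτ' L hL).1)
      (fun L hL k hk hkd => (hex L hL).2 k hk hkd) h1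
      (fun L hL b hb => hR L hL n hn hnN b hb) (L := L) (L' := Lp N D) hLl hp
      (K := 9 * K₀ C e N D + 5 + 2 * (N : ℝ) ^ 2)
      (fun b hb => by
        have h3 : (τ (Lp N D)).1 = D.c (Lp N D) := by rw [hτσ]; rfl
        simp only [h3] at hb ⊢
        exact h.disc_bound hC0 hC hn hnN (by rw [Lp_dist h]; linarith) ⟨hb.1, hb.2.1⟩)
      (b := b) ⟨hb.1, hb.2, ho⟩
    refine h2.trans ?_
    have h3 : ‖L + (starRingEnd ℂ) (Lp N D)‖ ≤ 18 := by
      have h4 := norm_add_le L ((starRingEnd ℂ) (Lp N D))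
      rw [Complex.norm_conj] at h4
      linarith only [h4, hL10, h.norm_Lp_le]
    have h4 : (rr N D.m / 4) ^ 2 ≤ L.re * (Lp N D).re := by
      rw [Lp_re, mul_neg, ← neg_mul, sq]
      exact mul_le_mul_of_nonneg_right (by linarith only [hL]) (by linarith only [hr])
    exact left_num hN1 hK hr hrN (norm_nonneg _) h3 h4
  · obtain ⟨i, hi⟩ := not_forall_not.1 ho
    have h1 : Ex D.m (τ L).1 b := by
      rw [hi]; exact ex_it h.par.m_pos (hex L hLl) i
    have h2 := ex_unique hn h.par.m_pos hb h1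
    subst h2
    have h3 : mul D.m ((τ L).1, b) = exp L := by
      rw [hi]
      exact (Sat.mul_it' (hτ' L hLl).1 i).trans (hτ' L hLl).2
    rw [h3]
    have h4 := own_bound (L := L) (δ := rr N D.m / 4) (by positivity)
      (by
        have h6 := rr_le h.N_pos h.par.m_pos
        have h7 : 1 / (64 * (N : ℝ) ^ 2) ≤ 1 / 64 := by
          have : (1 : ℝ) ≤ (N : ℝ) ^ 2 := one_le_pow₀ hN1
          exact one_div_le_one_div_of_le (by norm_num) (by linarith)
        linarith) (fun m => by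
        have h5 := abs_re_le_norm (L - 2 * Real.pi * m * I)
        have h6 : (L - 2 * Real.pi * m * I).re = L.re := by simp
        rw [h6, abs_of_neg hLl] at h5
        linarith)
    exact h4.trans (left_num' hN1 hK hr hrN)

end

end Pool.Agent.Work.MLC.Pri
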