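import Pool.Agent.Work.MLC.PriPer51
import Pool.Agent.Work.MLC.PriC65C
import Pool.Agent.Work.MLC.PriCut49
import Pool.Agent.Work.MLC.PriId45

set_option autoImplicit false

/-! # Existence of the two cuts and lower bounds for `|mul - 1|` over them (helper49) -/

namespace Pool.Agent.Work.MLC.Pri

open Filter Topology Metric Set Complex
open PriHar (Oth)

/-- LEMMA C holds (helper65) -/
theorem lemC : LemC 70000 4 := fun _ _ _ hn hc hc4 hb => C65.norm_inv_le' hn hc hc4 hb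

/-- the no-disc condition -/
lemma far51 {N d : ℕ} {x : ℚ} (hN : 0 < N) (hd : 0 < d) (hF : Far N x) :
    PriPer.Far d N (ball (axisPt x) (rr N d)) := by
  intro y hy L hL hcon
  have hN1 : (1 : ℝ) ≤ N := by exact_mod_cast hN
  have hd1 : (1 : ℝ) ≤ d := by exact_mod_cast hd
  have h1 := far_dist hN hd hF (mem_ball.1 hL) (P := y.num) y.pos hy
  have e : axisPt y = 2 * Real.pi * (((y.num : ℤ) : ℝ) / ((y.den : ℕ) : ℝ) : ℝ) * I := by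
    unfold axisPt
    have : (y : ℝ) = ((y.num : ℝ) / (y.den : ℝ)) := Rat.cast_def y
    rw [this]; push_cast; ring
  rw [← e] at h1
  have h2 : L.re < rr N d := by
    have h3 := (abs_re_le_norm (L - axisPt x)).trans_lt (by rw [← dist_eq_norm]; exact hL)
    have h4 : (L - axisPt x).re = L.re := by simp [axisPt]
    rw [h4] at h3
    exact (le_abs_self _).trans_lt h3
  have hr := rr_pos hN hd
  have h3 : (1 / (N : ℝ) ^ 2) ^ 2 ≤ ‖L - axisPt y‖ ^ 2 :=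
    pow_le_pow_left₀ (by positivity) h1 2
  have hy1 : (1 : ℝ) ≤ y.den := by exact_mod_cast y.pos
  have h4 : 2 * (d : ℝ) * Real.log 2 / y.den ≤ 2 * d := by
    rw [div_le_iff₀ (by linarith)]
    have := Real.log_two_lt_d9
    nlinarith
  have h5 : 2 * (d : ℝ) * Real.log 2 / y.den * L.re < 2 * d * rr N d := by
    have h6 : 0 < 2 * (d : ℝ) * Real.log 2 / y.den := by
      have := Real.log_pos (by norm_num : (1 : ℝ) < 2)
      positivity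
    calc _ < 2 * (d : ℝ) * Real.log 2 / y.den * rr N d := mul_lt_mul_of_pos_left h2 h6
      _ ≤ _ := mul_le_mul_of_nonneg_right h4 hr.le
  have h6 : 2 * (d : ℝ) * rr N d = 1 / 32 * (1 / (N : ℝ) ^ 2) ^ 2 := by
    unfold rr; field_simp; norm_num
  have h7 : 0 < (1 / (N : ℝ) ^ 2) ^ 2 := by positivity
  linarith

/-- shift along the cycle -/
noncomputable def shf (i₀ : ℕ) (s : ℂ × ℂ) : ℂ × ℂ := (s.1, it s.1 i₀ s.2)

lemma continuous_shf (i₀ : ℕ) : Continuous (shf i₀) := continuous_fst.prodMk (continuous_it i₀)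

lemma shf_sec {m : ℕ} {s : ℂ × ℂ} {L : ℂ} (i₀ : ℕ) (h : s ∈ Per m ∧ mul m s = exp L) :
    shf i₀ s ∈ Per m ∧ mul m (shf i₀ s) = exp L :=
  ⟨Sat.Per_it (c := s.1) (z := s.2) h.1 i₀, (Sat.mul_it' (c := s.1) (z := s.2) h.1 i₀).trans h.2⟩

/-- **the cut at `x`** -/
theorem exists_cut {N m : ℕ} {w : ℕ → ℤ} {k : ℤ} {σ : ℂ → ℂ × ℂ} (hV : Wide m w k σ)
    (hex : ∀ L ∈ D0 m, Exa m (σ L)) (hN : 0 < N) (hmN : m ≤ N) {x : ℚ} (h0 : 0 < x) (h1 : x < 1)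
    (hF : Far N x) (hden : 4 * 10 ^ 6 * N ^ 12 ≤ x.den) :
    ∃ D : Sat.Dat, Cut N D ∧ D.m = m ∧ D.x = x ∧ Circ.nu w m (th D) = k + x ∧
      (∀ L, D.c L = (σ L).1) ∧
      ∃ τ : ℂ → ℂ × ℂ, ContinuousOn τ Lft ∧ (∀ L ∈ Lft, τ L ∈ Per D.m ∧ mul D.m (τ L) = exp L) ∧
        τ (Lp N D) = D.σ (Lp N D) ∧ ∀ L ∈ D0 m, L.re < 0 → (σ L).1 = (τ L).1 := by
  have hm := hV.pos
  have hwd : Word m w := hV.word hex
  have hpi := Real.pi_pos
  have hm1 : (1 : ℝ) ≤ m := by exact_mod_cast hm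
  set B : Set ℂ := ball (axisPt x) (Sat.gR m x) with hB
  have hBD : B ⊆ D0 m := ball_subset_D0 hm h0 h1
  have hrg : rr N m ≤ Sat.gR m x := rr_le_gR hN hm hF h0 h1
  have hrr : 0 < rr N m := rr_pos hN hm
  have haB : axisPt x ∈ B := mem_ball_self (hrr.trans_le hrg)
  -- the parent data
  have hP₀ : (⟨m, x, σ, w, k, w, 0, 0, 0⟩ : Sat.Dat).Par := by
    refine Sat.par_of _ hm h0 h1 (hV.cont.mono hBD) (fun L hL => hV.sec L (hBD hL)) ?_ hV.bits ?_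
    · exact fun L hL => hex L (hBD hL)
    · intro L hL hM
      obtain ⟨θ, h2, h3, h4⟩ := hV.ang L (hBD hL) hM
      exact ⟨θ, h2, h3, h4⟩
  obtain ⟨i₀, u, kk, tm, tp, -, hcir⟩ := Sat.s1_circle m x w k hm h0 h1 hV.bits hwd.2.2
  have hP := Sat.s0_shift _ i₀ u kk tm tp hP₀
  set D : Sat.Dat := ⟨m, x, fun L => ((σ L).1, it (σ L).1 i₀ (σ L).2), fun i => w (i + i₀), k,
    u, kk, tm, tp⟩ with hD
  have hC : D.Cir := hcir _
  have hPD : D.Par := hP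
  have hDa : D.a = axisPt x := rfl
  have hDσ : ∀ L, D.σ L = shf i₀ (σ L) := fun L => rfl
  have hcut : Cut N D := by
    refine ⟨hPD, hC, hmN, hF, hden, ?_⟩
    intro L hL n hn hnN b hb
    exact PriPer.repelling_over hPD isOpen_ball (ball_subset_ball hrg) (far51 hN hm hF) hL hn hnN
      hb.1 hb.2.2
  refine ⟨D, hcut, rfl, rfl, ?_, fun L => rfl, ?_⟩
  · have h2 : Circ.nu D.w D.m (th D) = D.k₀ + D.x := by
      refine (hC.plateau _).2 ?_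
      have := hC.lt
      unfold th
      constructor <;> linarith
    have h3 := Sat.s1_rot m w i₀ (th D) hV.bits
    rw [← h3]
    exact h2
  · obtain ⟨τ, hτ, hτ', hτσ⟩ := hcut.exists_left
    have hrD : rr N D.m = rr N m := rfl
    have hpr := Lp_dist hcut
    have hpre := Lp_re (N := N) (D := D)
    rw [hrD] at hpr hpre
    have hpB : Lp N D ∈ D.B := hcut.ball_sub (by
      rw [mem_ball, hpr, hrD]; linarith)
    have hpl : (Lp N D).re < 0 := by rw [hpre]; linarith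
    have hpH : Lp N D ∈ HS := by
      have h4 := hBD hpB
      exact ⟨h4.1, h4.2.1, hpl⟩
    have hHD : HS ⊆ D0 m := fun L hL => ⟨hL.1, hL.2.1, hL.2.2.trans_le (hgt_nonneg m _)⟩
    refine ⟨τ, hτ, hτ', hτσ _ hpB hpl, ?_⟩
    intro L hL hre
    have hG2 : GoodDom m Lft := goodDom_left hm
    have h5 := section_unique hG2 hτ hτ' convex_HS.isPreconnected (g := fun L => shf i₀ (σ L))
      (l := fun L => L)
      ((continuous_shf i₀).comp_continuousOn (hV.cont.mono hHD)) continuousOn_id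
      (fun L hL => ⟨(shf_sec i₀ (hV.sec L (hHD hL))).1, hL.2.2,
        (shf_sec i₀ (hV.sec L (hHD hL))).2⟩)
      (a₀ := Lp N D) hpH (by rw [hτσ _ hpB hpl, hDσ])
    have h6 := h5 L ⟨hL.1, hL.2.1, hre⟩
    have h7 := congrArg Prod.fst h6
    exact h7

/-! ### the constants -/

lemma KB_le {N : ℕ} (hN : 0 < N) {D : Sat.Dat} (hd : D.x.den ≤ 8 * 10 ^ 6 * N ^ 12) :
    KB 70000 4 N D ≤ 10 ^ 46 * (N : ℝ) ^ 64 := by
  have hN1 : (1 : ℝ) ≤ N := by exact_mod_cast hN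
  have hd' : (D.x.den : ℝ) ≤ 8 * 10 ^ 6 * (N : ℝ) ^ 12 := by exact_mod_cast hd
  have h1 : 10 * (N : ℝ) * D.x.den ≤ 8 * 10 ^ 7 * (N : ℝ) ^ 13 := by
    calc 10 * (N : ℝ) * D.x.den ≤ 10 * (N : ℝ) * (8 * 10 ^ 6 * (N : ℝ) ^ 12) := by gcongr
      _ = _ := by ring
  have h2 : K₀ 70000 4 N D ≤ 3 * 10 ^ 36 * (N : ℝ) ^ 52 := by
    unfold K₀
    calc 70000 * (10 * (N : ℝ) * D.x.den) ^ 4 ≤ 70000 * (8 * 10 ^ 7 * (N : ℝ) ^ 13) ^ 4 := by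
          gcongr
      _ = 70000 * (8 * 10 ^ 7) ^ 4 * (N : ℝ) ^ 52 := by ring
      _ ≤ _ := by
        have : (0 : ℝ) ≤ (N : ℝ) ^ 52 := by positivity
        apply mul_le_mul_of_nonneg_right _ this
        norm_num
  unfold KB
  have h3 : (1 : ℝ) ≤ (N : ℝ) ^ 52 := one_le_pow₀ hN1
  calc 10 ^ 9 * (N : ℝ) ^ 12 * (K₀ 70000 4 N D + 1)
      ≤ 10 ^ 9 * (N : ℝ) ^ 12 * (3 * 10 ^ 36 * (N : ℝ) ^ 52 + (N : ℝ) ^ 52) := by gcongr
    _ = (3 * 10 ^ 45 + 10 ^ 9) * (N : ℝ) ^ 64 := by ring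
    _ ≤ _ := by
      have : (0 : ℝ) ≤ (N : ℝ) ^ 64 := by positivity
      apply mul_le_mul_of_nonneg_right _ this
      norm_num

/-- the denominator -/
lemma exists_kappa (M : ℕ) (hM : 0 < M) : ∃ κ : ℕ, M ≤ 2 ^ κ ∧ 2 ^ κ ≤ 2 * M := by
  refine ⟨Nat.clog 2 M, Nat.le_pow_clog (by norm_num) _, ?_⟩
  rcases Nat.lt_or_ge 1 M with h | h
  · have h1 : 0 < Nat.clog 2 M := Nat.clog_pos (by norm_num) h
    have h2 := Nat.pow_pred_clog_lt_self (b := 2) (by norm_num) h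
    have h3 : 2 ^ Nat.clog 2 M = 2 * 2 ^ (Nat.clog 2 M).pred := by
      rw [← pow_succ']
      congr 1
      exact (Nat.succ_pred_eq_of_pos h1).symm
    omega
  · have : M = 1 := by omega
    subst this
    simp

lemma den_odd (a : ℤ) (κ : ℕ) (ha : Odd a) : ((a : ℚ) / ((2 ^ κ : ℕ) : ℚ)).den = 2 ^ κ := by
  have h1 : Nat.Coprime a.natAbs (2 ^ κ : ℕ) := by
    refine Nat.Coprime.pow_right _ ?_
    rw [Nat.coprime_comm, Nat.Prime.coprime_iff_not_dvd Nat.prime_two]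
    intro h
    have h2 := Int.natAbs_odd.2 ha
    rw [← Nat.not_even_iff_odd] at h2
    exact h2 (even_iff_two_dvd.2 h)
  have h2 := Rat.den_div_eq_of_coprime (a := a) (b := ((2 ^ κ : ℕ) : ℤ)) (by positivity)
    (by simpa using h1)
  have h3 : ((((a : ℚ) / (((2 ^ κ : ℕ) : ℤ) : ℚ)).den : ℕ) : ℤ) = ((2 ^ κ : ℕ) : ℤ) := h2
  have h4 : (((2 ^ κ : ℕ) : ℤ) : ℚ) = ((2 ^ κ : ℕ) : ℚ) := by norm_cast
  rw [h4] at h3
  exact_mod_cast h3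

/-- **the cut values** -/
theorem exists_values {N : ℕ} (hN : 0 < N) {x : ℚ} (h0 : 0 < x) (h1 : x < 1) (hx : x.den ≤ N) :
    ∃ x₁ x₂ : ℚ, 0 < x₁ ∧ x₂ < 1 ∧
      (x : ℝ) - 3 / (4 * (N : ℝ) ^ 2) < x₁ ∧ (x₁ : ℝ) ≤ x - 1 / (4 * (N : ℝ) ^ 2) ∧
      (x : ℝ) + 1 / (4 * (N : ℝ) ^ 2) ≤ x₂ ∧ (x₂ : ℝ) < x + 3 / (4 * (N : ℝ) ^ 2) ∧
      Far N x₁ ∧ Far N x₂ ∧
      4 * 10 ^ 6 * N ^ 12 ≤ x₁.den ∧ x₁.den ≤ 8 * 10 ^ 6 * N ^ 12 ∧
      4 * 10 ^ 6 * N ^ 12 ≤ x₂.den ∧ x₂.den ≤ 8 * 10 ^ 6 * N ^ 12 := by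
  have hN1 : (1 : ℝ) ≤ N := by exact_mod_cast hN
  obtain ⟨κ, hκ1, hκ2⟩ := exists_kappa (4 * 10 ^ 6 * N ^ 12) (by positivity)
  have h12 : N ^ 2 ≤ N ^ 12 := Nat.pow_le_pow_right hN (by norm_num)
  have h2 : 0 < N ^ 2 := by positivity
  obtain ⟨a, b, ha, hb, ha1, ha2, hb1, hb2, hfar⟩ := exists_cut49s (N := N) (P := x.num)
    (Q := x.den) x.pos hx (k := κ) (by omega)
  have hxe : (x : ℝ) = (x.num : ℝ) / (x.den : ℝ) := Rat.cast_def x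
  have e1 : (((a : ℚ) / ((2 ^ κ : ℕ) : ℚ) : ℚ) : ℝ) = (a : ℝ) / 2 ^ κ := by push_cast; rfl
  have e2 : (((b : ℚ) / ((2 ^ κ : ℕ) : ℚ) : ℚ) : ℝ) = (b : ℝ) / 2 ^ κ := by push_cast; rfl
  rw [← hxe] at ha1 ha2 hb1 hb2
  have hQ : (x.den : ℝ) ≤ N := by exact_mod_cast hx
  have hQ0 : (0 : ℝ) < x.den := by exact_mod_cast x.pos
  have hN2 : (N : ℝ) ≤ (N : ℝ) ^ 2 := by nlinarith
  have hsm : 3 / (4 * (N : ℝ) ^ 2) < 1 / N := by
    rw [div_lt_div_iff₀ (by positivity) (by linarith)]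
    nlinarith
  have hx0 : 1 / (N : ℝ) ≤ x := by
    have h3 : (1 : ℝ) ≤ x.num := by exact_mod_cast Rat.num_pos.2 h0
    rw [hxe, div_le_div_iff₀ (by linarith) hQ0]
    nlinarith
  have hx1 : (x : ℝ) ≤ 1 - 1 / N := by
    have h3 : x.num + 1 ≤ (x.den : ℤ) := by
      have h4 : x.num < x.den := by
        have h5 := Rat.lt_iff x 1
        have h6 := h5.1 h1
        simpa using h6
      omega
    have h4 : (x.num : ℝ) + 1 ≤ x.den := by exact_mod_cast h3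
    have h5 : 1 / (N : ℝ) ≤ 1 / x.den := one_div_le_one_div_of_le hQ0 hQ
    have h6 : (x.num : ℝ) / x.den ≤ 1 - 1 / x.den := by
      rw [div_le_iff₀ hQ0, sub_mul, one_div_mul_cancel hQ0.ne']
      linarith
    rw [hxe]; linarith
  refine ⟨(a : ℚ) / ((2 ^ κ : ℕ) : ℚ), (b : ℚ) / ((2 ^ κ : ℕ) : ℚ), ?_, ?_, ?_, ?_, ?_, ?_, ?_, ?_,
    ?_, ?_, ?_, ?_⟩
  · have h3 : (0 : ℝ) < (((a : ℚ) / ((2 ^ κ : ℕ) : ℚ) : ℚ) : ℝ) := by rw [e1]; linarith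
    exact_mod_cast h3
  · have h3 : (((b : ℚ) / ((2 ^ κ : ℕ) : ℚ) : ℚ) : ℝ) < 1 := by rw [e2]; linarith
    exact_mod_cast h3
  · rw [e1]; exact ha1
  · rw [e1]; exact ha2
  · rw [e2]; exact hb1
  · rw [e2]; exact hb2
  · intro P Q hQ hQN
    rw [e1]; exact (hfar P Q hQ hQN).1
  · intro P Q hQ hQN
    rw [e2]; exact (hfar P Q hQ hQN).2
  · rw [den_odd a κ ha]; exact hκ1
  · rw [den_odd a κ ha]; omega
  · rw [den_odd b κ hb]; exact hκ1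
  · rw [den_odd b κ hb]; omega

/-- `b` over `c`: the multiplier is not close to `1` -/
def Bd (N : ℕ) (c : ℂ) : Prop := ∀ n b, 0 < n → n ≤ N → (c, b) ∈ Per n → Exa n (c, b) →
  mul n (c, b) ≠ 1 ∧ ‖1 / (mul n (c, b) - 1)‖ ≤ 10 ^ 46 * (N : ℝ) ^ 64

lemma Bd.le {N : ℕ} (hN : 0 < N) {c : ℂ} (h : Bd N c) {n : ℕ} {b : ℂ} (hn : 0 < n) (hnN : n ≤ N)
    (hb : (c, b) ∈ Per n) (hx : Exa n (c, b)) :
    1 / (10 ^ 46 * (N : ℝ) ^ 64) ≤ ‖mul n (c, b) - 1‖ := by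
  obtain ⟨h1, h2⟩ := h n b hn hnN hb hx
  have hN1 : (1 : ℝ) ≤ N := by exact_mod_cast hN
  have h3 : 0 < ‖mul n (c, b) - 1‖ := norm_pos_iff.2 (sub_ne_zero.2 h1)
  rw [norm_div, norm_one, div_le_iff₀ h3] at h2
  rw [div_le_iff₀ (by positivity)]
  linarith

/-- **one cut** -/
theorem one_cut {N m : ℕ} {w : ℕ → ℤ} {k : ℤ} {σ : ℂ → ℂ × ℂ} (hV : Wide m w k σ)
    (hex : ∀ L ∈ D0 m, Exa m (σ L)) (hN : 0 < N) (hmN : m ≤ N) {x : ℚ} (h0 : 0 < x) (h1 : x < 1)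
    (hF : Far N x) (hden : 4 * 10 ^ 6 * N ^ 12 ≤ x.den) (hden' : x.den ≤ 8 * 10 ^ 6 * N ^ 12) :
    ∃ θ : ℝ, Circ.nu w m θ = k + x ∧ (∀ c, Ang c θ → Bd N c) ∧
      (∀ L, dist L (axisPt x) ≤ rr N m / 2 → L ∈ D0 m ∧ Bd N (σ L).1) ∧
      ∀ L ∈ D0 m, L.re ≤ -(rr N m / 4) → ‖L‖ ≤ 10 → Bd N (σ L).1 := by
  obtain ⟨D, hc, rfl, rfl, hnu, hσ, τ, hτ, hτ', hτσ, hστ⟩ := exists_cut hV hex hN hmN h0 h1 hF hden
  have hN1 : (1 : ℝ) ≤ N := by exact_mod_cast hN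
  have hr := hc.rr_pos
  have hKB := KB_le hN hden'
  have hge := KB_ge hc (C := 70000) (e := 4) (by norm_num)
  refine ⟨th D, hnu, ?_, ?_, ?_⟩
  · intro c hA n b hn hnN hb hx
    refine ⟨?_, ?_⟩
    · have h3 := one_lt_norm_mult_of_ext hn hA.1 hb
      rw [mult_eq_mul] at h3
      intro h4
      rw [h4, norm_one] at h3
      exact lt_irrefl _ h3
    · exact ((hc.ray_bound (by norm_num) lemC hn hnN hA ⟨hb, hx⟩).trans hge).trans hKB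
  · intro L hL
    have hLb : L ∈ ball D.a (rr N D.m) := mem_ball.2 (by
      have : dist L D.a ≤ rr N D.m / 2 := hL
      linarith)
    have hLB : L ∈ D.B := hc.ball_sub hLb
    refine ⟨ball_subset_D0 hc.par.m_pos h0 h1 hLB, ?_⟩
    intro n b hn hnN hb hx
    rw [← hσ L] at hb hx ⊢
    refine ⟨?_, ?_⟩
    · exact ne_one_of_rep hn hnN hc.par.m_pos (D := ball D.a (rr N D.m)) (σ := D.σ)
        (fun L hL => hc.par.sec L (hc.ball_sub hL))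
        (fun L hL k hk hkd => hc.par.prim L (hc.ball_sub hL) k hk hkd) hc.rep
        (fun L hL k hk hkN => exp_ne_one hc.N_pos hc.par.m_pos hc.far (mem_ball.1 hL) hk hkN)
        L hLb b hb
    · exact ((hc.disc_bound (by norm_num) lemC hn hnN hL ⟨hb, hx⟩).trans hge).trans hKB
  · intro L hL hre hL10 n b hn hnN hb hx
    have hLl : L.re < 0 := by linarith
    rw [hστ L hL hLl] at hb hx ⊢
    refine ⟨?_, (hc.left_bound (by norm_num) lemC hτ hτ' hτσ hn hnN hre hL10 ⟨hb, hx⟩).trans hKB⟩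
    have hG : GoodDom D.m Lft := goodDom_left hc.par.m_pos
    have hcv : Convex ℝ Lft := convex_halfSpace_re_lt 0
    have hp : Lp N D ∈ Lft := by
      show (Lp N D).re < 0
      rw [Lp_re]; linarith
    have hpB : Lp N D ∈ D.B := hc.ball_sub (by rw [mem_ball, Lp_dist hc]; linarith)
    have hexτ : ∀ L ∈ Lft, Ex D.m (τ L).1 (τ L).2 := by
      refine prim_on hcv.isPreconnected hG.isOpen hG.ne_one hτ hτ' hp ?_
      rw [hτσ]
      exact ⟨(hc.par.sec _ hpB).1, hc.par.prim _ hpB⟩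
    exact ne_one_of_rep hn hnN hc.par.m_pos hτ' (fun L hL => (hexτ L hL).2)
      (repOn_left (N := N) hc.par.m_pos hτ' (fun L hL => hL))
      (fun L hL k hk hkN => by
        intro h0
        have h2 : ‖exp (k * L)‖ < 1 := by
          rw [norm_exp]
          refine Real.exp_lt_one_iff.2 ?_
          have h3 : ((k : ℂ) * L).re = k * L.re := by simp
          rw [h3]
          exact mul_neg_of_pos_of_neg (by exact_mod_cast hk) hL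
        rw [h0, norm_one] at h2
        exact lt_irrefl _ h2) L hLl b hb

/-- **the two cuts** -/
theorem cuts {N m : ℕ} {w : ℕ → ℤ} {k : ℤ} {σ : ℂ → ℂ × ℂ} (hV : Wide m w k σ)
    (hex : ∀ L ∈ D0 m, Exa m (σ L)) (hN : 0 < N) (hmN : m ≤ N) {x : ℚ} (h0 : 0 < x) (h1 : x < 1)
    (hx : x.den ≤ N) : ∃ (x₁ x₂ : ℚ) (θ₁ θ₂ : ℝ), 0 < x₁ ∧ x₂ < 1 ∧
      (x : ℝ) - 3 / (4 * (N : ℝ) ^ 2) < x₁ ∧ (x₁ : ℝ) ≤ x - 1 / (4 * (N : ℝ) ^ 2) ∧
      (x : ℝ) + 1 / (4 * (N : ℝ) ^ 2) ≤ x₂ ∧ (x₂ : ℝ) < x + 3 / (4 * (N : ℝ) ^ 2) ∧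
      4 * 10 ^ 6 * N ^ 12 ≤ x₁.den ∧ 4 * 10 ^ 6 * N ^ 12 ≤ x₂.den ∧
      Circ.nu w m θ₁ = k + x₁ ∧ Circ.nu w m θ₂ = k + x₂ ∧
      (∀ c, Ang c θ₁ ∨ Ang c θ₂ → Bd N c) ∧
      (∀ L, dist L (axisPt x₁) ≤ rr N m / 2 ∨ dist L (axisPt x₂) ≤ rr N m / 2 →
        L ∈ D0 m ∧ Bd N (σ L).1) ∧
      ∀ L ∈ D0 m, L.re ≤ -(rr N m / 4) → ‖L‖ ≤ 10 → Bd N (σ L).1 := by
  obtain ⟨x₁, x₂, a1, a2, a3, a4, a5, a6, a7, a8, a9, a10, a11, a12⟩ := exists_values hN h0 h1 hx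
  have hN1 : (1 : ℝ) ≤ N := by exact_mod_cast hN
  have hu : (0 : ℝ) < 1 / (4 * (N : ℝ) ^ 2) := by positivity
  have hx1 : x₁ < 1 := by
    have h3 : (x₁ : ℝ) < 1 := by
      have h4 : (x : ℝ) < 1 := by exact_mod_cast h1
      linarith
    exact_mod_cast h3
  have hx2 : 0 < x₂ := by
    have h3 : (0 : ℝ) < x₂ := by
      have h4 : (0 : ℝ) < x := by exact_mod_cast h0
      linarith
    exact_mod_cast h3
  obtain ⟨θ₁, b1, b2, b3, b4⟩ := one_cut hV hex hN hmN a1 hx1 a7 a9 a10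
  obtain ⟨θ₂, c1, c2, c3, c4⟩ := one_cut hV hex hN hmN hx2 a2 a8 a11 a12
  refine ⟨x₁, x₂, θ₁, θ₂, a1, a2, a3, a4, a5, a6, a9, a11, b1, c1, ?_, ?_, b4⟩
  · rintro c (h | h)
    · exact b2 c h
    · exact c2 c h
  · rintro L (h | h)
    · exact b3 L h
    · exact c3 L h

end Pool.Agent.Work.MLC.Pri
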