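import Pool.Agent.Work.MLC.RotX13c
import Pool.Agent.Work.MLC.Sat8_69
import Pool.Agent.Work.MLC.Sat4_57

set_option autoImplicit false

/-! # Points over `MM` of large combinatorial rotation denominator are near the axis (helper59)

`ex_near`: if a ray of combinatorial rotation number `x` lands at the repelling point `b` over `MM`
then the logarithms of the multiplier are, modulo `2 π i`, close to `2 π i x` (no label, no
smallness of the disc). `barM`: such a pair of label `J` is the point of any section of label `J`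
over the half disc about `2 π i x`. -/

namespace Pool.Agent.Work.MLC

open Filter Topology Metric Set Complex

namespace BarM

lemma axisPt_re (x : ℚ) : (axisPt x).re = 0 := by unfold axisPt; simp

lemma mem_disc {z Y : ℂ} {r : ℝ} (hY : Y.re = 0) (hr : 0 ≤ r) (h : ‖z - Y‖ ^ 2 ≤ r * z.re) :
    ‖z - Y‖ ≤ r ∧ z.re ≤ r := by
  have h1 : z.re ≤ ‖z - Y‖ := by
    have := Complex.re_le_norm (z - Y)
    rw [Complex.sub_re, hY] at this
    linarith
  have h3 : ‖z - Y‖ ≤ r := by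
    by_contra hcon
    push Not at hcon
    have h2 : r * z.re ≤ r * ‖z - Y‖ := mul_le_mul_of_nonneg_left h1 hr
    nlinarith
  exact ⟨h3, h1.trans h3⟩

lemma norm_MM_le {c : ℂ} (h : c ∈ MM) : ‖c‖ ≤ 2 * Real.exp 1 + 100 := by
  refine norm_le_of_G_le ?_
  have h1 : G c 0 = 0 := mem_M_iff.1 h
  rw [G_c_eq, h1]; norm_num

/-- the logarithm of the multiplier at the limits of exterior pairs -/
lemma near_of_frequently {n : ℕ} (hn : 0 < n) {x : ℚ} {c b z : ℂ} (hM : c ∈ MM)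
    (hfix : (c, b) ∈ Per n) (hz : mul n (c, b) = exp z) (hre : 0 < z.re) (hE : Ex n x c b)
    (hf : ∃ᶠ y : ℂ × ℂ in 𝓝 (c, b), y ∈ Per n ∧ y.1 ∉ MM) {ε : ℝ} (hε : 0 < ε) :
    ∃ j : ℤ, ‖z - axisPt x - 2 * Real.pi * j * I‖ ≤ ε + 9 * Real.sqrt (n * (z.re + ε)) := by
  have hM0 : G c 0 = 0 := mem_M_iff.1 hM
  have hρ : 1 < ‖mult n c b‖ := by
    have : mult n c b = mul n (c, b) := rfl
    rw [this, hz, norm_exp]; exact Real.one_lt_exp_iff.2 hre
  have hm0 : mul n (c, b) ≠ 0 := by rw [hz]; exact exp_ne_zero _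
  -- the local logarithm
  set ℓ : ℂ × ℂ → ℂ := fun y => Complex.log (mul n y / mul n (c, b)) + z with hℓ
  have hℓc : ContinuousAt ℓ (c, b) := by
    have h2 : ContinuousAt (fun y => mul n y / mul n (c, b)) (c, b) := by
      have := (continuous_mul' n).continuousAt (x := (c, b))
      exact this.div_const _
    have h3 : ContinuousAt (fun y => Complex.log (mul n y / mul n (c, b))) (c, b) :=
      h2.clog (by simp only [div_self hm0]; exact one_mem_slitPlane)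
    exact h3.add continuousAt_const
  have hℓx : ℓ (c, b) = z := by simp [hℓ, div_self hm0]
  have h1 : ∀ᶠ y in 𝓝 (c, b), dist (ℓ y) z < ε := by
    have := hℓc.eventually (Metric.ball_mem_nhds _ hε)
    filter_upwards [this] with y hy
    have h2 : dist (ℓ y) (ℓ (c, b)) < ε := hy
    rwa [hℓx] at h2
  have h2 : ∀ᶠ y in 𝓝 (c, b), mul n y ≠ 0 :=
    (continuous_mul' n).continuousAt.eventually_ne hm0
  have h4 : ∀ᶠ y : ℂ × ℂ in 𝓝 (c, b), G y.1 y.1 < 4 := by
    have := (continuous_G_diag'.tendsto (c, b))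
    refine this.eventually (gt_mem_nhds ?_)
    show G c c < 4
    rw [G_c_eq, hM0]; norm_num
  obtain ⟨y, ⟨hy, hyM⟩, h5, h6, h7, h8⟩ := (hf.and_eventually
    (h1.and (h2.and (h4.and (hE.nhds hn hM0 hfix hρ))))).exists
  have hG : 0 < G y.1 y.1 := Sat.not_mem_MM_iff.1 hyM
  obtain ⟨θ, hθ⟩ := exists_ang hG
  obtain ⟨w, hw⟩ := exists_extP_word hn hθ hy
  obtain ⟨k, hk⟩ := (h8 hy).2 θ w hw
  obtain ⟨-, l, hl1, hl2⟩ := extP_ply hn hw h7.le
  rw [hk] at hl2
  have h9 : exp l = exp (ℓ y) := by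
    rw [hl1, hℓ]
    show mul n y = _
    rw [Complex.exp_add, Complex.exp_log (div_ne_zero h6 hm0), ← hz]
    field_simp
  rw [Complex.exp_eq_exp_iff_exists_int] at h9
  obtain ⟨i, hi⟩ := h9
  have hlre : l.re = (ℓ y).re := by rw [hi]; simp
  have hd : ‖ℓ y - z‖ < ε := by rw [← dist_eq_norm]; exact h5
  have hre2 : l.re ≤ z.re + ε := by
    have h10 := Complex.re_le_norm (ℓ y - z)
    rw [Complex.sub_re] at h10
    linarith
  refine ⟨k - i, ?_⟩
  have e1 : z - axisPt x - 2 * Real.pi * ((k - i : ℤ) : ℂ) * I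
      = (z - ℓ y) + (l - 2 * Real.pi * ((x + k : ℝ) : ℂ) * I) := by
    rw [hi]; unfold axisPt; push_cast; ring
  rw [e1]
  refine (norm_add_le _ _).trans ?_
  have h11 : ‖z - ℓ y‖ ≤ ε := by rw [norm_sub_rev]; exact hd.le
  have h12 : ‖l - 2 * Real.pi * ((x + k : ℝ) : ℂ) * I‖ ≤ 9 * Real.sqrt (n * (z.re + ε)) := by
    have hn1 : (0 : ℝ) < n := by exact_mod_cast hn
    apply le_of_sq_le_sq _ (by positivity)
    refine hl2.trans ?_
    rw [mul_pow, Real.sq_sqrt (by positivity)]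
    nlinarith
  linarith

/-- **combinatorial rotation number and multiplier over `MM`** -/
theorem ex_near {n : ℕ} (hn : 0 < n) {x : ℚ} (hr : 2 * n * Real.log 2 / x.den ≤ 1 / 2)
    {c b L : ℂ} (hM : c ∈ MM) (hfix : (c, b) ∈ Per n) (hL : mul n (c, b) = exp L)
    (hre : 0 < L.re) (hE : Ex n x c b) :
    L.re ≤ 2 * n * Real.log 2 / x.den ∧ ∃ j : ℤ, ‖L - axisPt x - 2 * Real.pi * j * I‖ ≤
      2 * (2 * n * Real.log 2 / x.den) + 10 * Real.sqrt (n * (2 * n * Real.log 2 / x.den)) := by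
  have hn0 : (0 : ℝ) < n := by exact_mod_cast hn
  have hlog0 : 0 < Real.log 2 := Real.log_pos (by norm_num)
  have hq0 : (0 : ℝ) < x.den := by exact_mod_cast x.pos
  set r : ℝ := 2 * n * Real.log 2 / x.den with hrdef
  have hr0 : 0 < r := by rw [hrdef]; positivity
  have hR := Tr.rotData hn
  obtain ⟨p, hT, -⟩ := hE.ply' hn hM hfix hL hre
  set y : ℚ := (p : ℚ) / (x.den : ℚ) with hy
  set Y : ℂ := axisPt y with hY
  have hYre : Y.re = 0 := axisPt_re y
  set T : Set (ℂ × ℂ × ℂ) := {t | t.1 ∈ MM ∧ (t.1, t.2.1) ∈ Per n ∧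
    mul n (t.1, t.2.1) = exp t.2.2 ∧ Tr.RotT n t.1 t.2.1 t.2.2 y ∧ Ex n x t.1 t.2.1} with hTdef
  have hT0 : ((c, b, L) : ℂ × ℂ × ℂ) ∈ T := ⟨hM, hfix, hL, hT, hE⟩
  have hre' : ∀ t ∈ T, 0 < t.2.2.re := fun t ht => (hR.dom _ _ _ _ ht.2.2.2.1).1
  have hply : ∀ t ∈ T, ‖t.2.2 - Y‖ ^ 2 ≤ r * t.2.2.re := by
    intro t ht
    obtain ⟨h1, h2, h3, h4, h5⟩ := ht
    obtain ⟨p', h6, h7⟩ := h5.ply' hn h1 h2 h3 (hR.dom _ _ _ _ h4).1
    rw [hR.uniq _ _ _ _ _ h6 h4] at h7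
    exact h7
  have hdisc : ∀ t ∈ T, ‖t.2.2 - Y‖ ≤ r ∧ t.2.2.re ≤ r := fun t ht =>
    mem_disc hYre hr0.le (hply t ht)
  have hrho : ∀ t ∈ T, 1 < ‖mult n t.1 t.2.1‖ := by
    intro t ht
    have h1 : mult n t.1 t.2.1 = mul n (t.1, t.2.1) := rfl
    rw [h1, ht.2.2.1, norm_exp]; exact Real.one_lt_exp_iff.2 (hre' t ht)
  refine ⟨(hdisc _ hT0).2, ?_⟩
  -- a point of `T` is a limit of exterior pairs
  have hex : ∃ t ∈ T, ∃ᶠ s : ℂ × ℂ in 𝓝 (t.1, t.2.1), s ∈ Per n ∧ s.1 ∉ MM := by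
    by_contra hcon
    push Not at hcon
    have hcon' : ∀ t ∈ T, ∀ᶠ s : ℂ × ℂ in 𝓝 (t.1, t.2.1), s ∈ Per n → s.1 ∈ MM := hcon
    set Z : Set ℂ := (fun t : ℂ × ℂ × ℂ => t.2.2) '' T with hZ
    have hZY : ∀ z ∈ Z, ‖z - Y‖ ≤ r := by
      rintro _ ⟨t, ht, rfl⟩; exact (hdisc t ht).1
    -- open
    have hZo : IsOpen Z := by
      rw [isOpen_iff_mem_nhds]
      rintro _ ⟨t, ht, rfl⟩
      obtain ⟨c₁, b₁, z₁⟩ := t
      obtain ⟨h1, h2, h3, h4, h5⟩ := ht
      simp only at h1 h2 h3 h4 h5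
      have htT : ((c₁, b₁, z₁) : ℂ × ℂ × ℂ) ∈ T := ⟨h1, h2, h3, h4, h5⟩
      have hM0 : G c₁ 0 = 0 := mem_M_iff.1 h1
      have hρ₁ : 1 < ‖mult n c₁ b₁‖ := hrho (c₁, b₁, z₁) htT
      have hne : mul n (c₁, b₁) ≠ 1 := by
        intro h; rw [← mult_eq_mul] at h; rw [h, norm_one] at hρ₁; exact lt_irrefl _ hρ₁
      have h23 : ‖mul n (c₁, b₁)‖ < 23 / 10 := by
        rw [h3, norm_exp]
        have h6 : z₁.re ≤ 1 / 2 := (hdisc (c₁, b₁, z₁) htT).2.trans hr
        have h7 : Real.exp z₁.re ≤ Real.exp (1 / 2) := Real.exp_le_exp.2 h6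
        have h8 : Real.exp (1 / 2) < 23 / 10 := by
          have h9 : Real.exp (1 / 2) ^ 2 < (23 / 10) ^ 2 := by
            rw [← Real.exp_nat_mul]
            norm_num
            linarith [Real.exp_one_lt_d9]
          exact lt_of_pow_lt_pow_left₀ 2 (by norm_num) h9
        linarith
      -- a neighbourhood in the space of triples
      have hopn := hR.opn c₁ b₁ z₁ y h4
      have hexn := h5.nhds hn hM0 h2 hρ₁
      have hMn := hcon' (c₁, b₁, z₁) htT
      have hall : ∀ᶠ t : ℂ × ℂ × ℂ in 𝓝 (c₁, b₁, z₁), (t.1, t.2.1) ∈ Per n →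
          mul n (t.1, t.2.1) = exp t.2.2 → t ∈ T := by
        have hc : Tendsto (fun t : ℂ × ℂ × ℂ => ((t.1, t.2.1) : ℂ × ℂ)) (𝓝 (c₁, b₁, z₁))
            (𝓝 (c₁, b₁)) := by
          have : Continuous fun t : ℂ × ℂ × ℂ => ((t.1, t.2.1) : ℂ × ℂ) := by fun_prop
          exact this.tendsto _
        filter_upwards [hopn, hc.eventually hexn, hc.eventually hMn] with t a1 a2 a3 a4 a5
        have hm := a3 a4
        exact ⟨hm, a4, a5, a1 hm a4 a5, (a2 a4).1 (mem_M_iff.1 hm)⟩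
      -- split as a product neighbourhood
      have hall' : ∀ᶠ q : (ℂ × ℂ) × ℂ in 𝓝 ((c₁, b₁), z₁), (q.1.1, q.1.2) ∈ Per n →
          mul n (q.1.1, q.1.2) = exp q.2 → ((q.1.1, q.1.2, q.2) : ℂ × ℂ × ℂ) ∈ T := by
        have hc : Tendsto (fun q : (ℂ × ℂ) × ℂ => ((q.1.1, q.1.2, q.2) : ℂ × ℂ × ℂ))
            (𝓝 ((c₁, b₁), z₁)) (𝓝 (c₁, b₁, z₁)) := by
          have : Continuous fun q : (ℂ × ℂ) × ℂ => ((q.1.1, q.1.2, q.2) : ℂ × ℂ × ℂ) := by fun_prop
          exact this.tendsto _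
        exact hc.eventually hall
      rw [nhds_prod_eq] at hall'
      obtain ⟨P1, hP1, P2, hP2, hPP⟩ := Filter.eventually_prod_iff.1 hall'
      have hop := mul_open hn h2 hne h23 (N := {s | P1 s}) hP1
      rw [h3] at hop
      have hexp : Tendsto exp (𝓝 z₁) (𝓝 (exp z₁)) := continuous_exp.tendsto _
      filter_upwards [hexp.eventually hop, hP2] with z' h6 h7
      obtain ⟨s, ⟨h8, h9⟩, h10⟩ := h6
      exact ⟨(s.1, s.2, z'), hPP h8 h7 h9 h10, rfl⟩
    -- closed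
    have hZc : closure Z ∩ {Y}ᶜ ⊆ Z := by
      rintro z ⟨hz, hzY⟩
      obtain ⟨u, hu, hulim⟩ := mem_closure_iff_seq_limit.1 hz
      choose t ht htu using hu
      have hb1 : ∀ j, ‖(t j).1‖ ≤ 2 * Real.exp 1 + 100 := fun j => norm_MM_le (ht j).1
      have hb2 : ∀ j, ‖(t j).2.1‖ ≤ 1 + (2 * Real.exp 1 + 100) := by
        intro j
        have h3 : G (t j).1 (t j).2.1 = 0 := G_zero_of_per hn (ht j).2.1
        have h4 := norm_le_of_G_zero h3
        linarith [hb1 j]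
      have hmem : ∀ j, ((t j).1, (t j).2.1) ∈ closedBall (0 : ℂ) (2 * Real.exp 1 + 100) ×ˢ
          closedBall (0 : ℂ) (1 + (2 * Real.exp 1 + 100)) := fun j =>
        ⟨mem_closedBall_zero_iff.2 (hb1 j), mem_closedBall_zero_iff.2 (hb2 j)⟩
      obtain ⟨s, -, φ, hφ, hlim⟩ := ((isCompact_closedBall (0 : ℂ) (2 * Real.exp 1 + 100)).prod
        (isCompact_closedBall (0 : ℂ) (1 + (2 * Real.exp 1 + 100)))).tendsto_subseq hmem
      obtain ⟨c₁, b₁⟩ := s
      have hul : Tendsto (fun j => (t (φ j)).2.2) atTop (𝓝 z) := by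
        have h1 : (fun j => (t (φ j)).2.2) = u ∘ φ := funext fun j => htu (φ j)
        rw [h1]; exact hulim.comp hφ.tendsto_atTop
      have hsP : (c₁, b₁) ∈ Per n :=
        (isClosed_Per n).mem_of_tendsto hlim (Eventually.of_forall fun j => (ht (φ j)).2.1)
      have hc1 : Tendsto (fun j => (t (φ j)).1) atTop (𝓝 c₁) :=
        (continuous_fst.tendsto (c₁, b₁)).comp hlim
      have hsM : c₁ ∈ MM := by
        by_contra hM'
        rw [Sat.not_mem_MM_iff] at hM'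
        have h3 : Tendsto (fun j => G (t (φ j)).1 (t (φ j)).1) atTop (𝓝 (G c₁ c₁)) :=
          (continuous_G_diag.tendsto c₁).comp hc1
        have h4 : Tendsto (fun j => G (t (φ j)).1 (t (φ j)).1) atTop (𝓝 0) := by
          have h5 : (fun j => G (t (φ j)).1 (t (φ j)).1) = fun _ => 0 := funext fun j => by
            have h6 : G (t (φ j)).1 0 = 0 := mem_M_iff.1 (ht (φ j)).1
            rw [G_c_eq, h6, mul_zero]
          rw [h5]; exact tendsto_const_nhds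
        rw [tendsto_nhds_unique h3 h4] at hM'
        exact lt_irrefl _ hM'
      have hsm : mul n (c₁, b₁) = exp z := by
        have h3 : Tendsto (fun j => mul n ((t (φ j)).1, (t (φ j)).2.1)) atTop
            (𝓝 (mul n (c₁, b₁))) := ((continuous_mul' n).tendsto _).comp hlim
        have h4 : Tendsto (fun j => exp (t (φ j)).2.2) atTop (𝓝 (exp z)) :=
          (continuous_exp.tendsto _).comp hul
        have h5 : (fun j => mul n ((t (φ j)).1, (t (φ j)).2.1)) = fun j => exp (t (φ j)).2.2 :=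
          funext fun j => (ht (φ j)).2.2.1
        rw [h5] at h3
        exact tendsto_nhds_unique h3 h4
      have hzp : ‖z - Y‖ ^ 2 ≤ r * z.re := by
        have h3 : Tendsto (fun j => ‖(t (φ j)).2.2 - Y‖ ^ 2) atTop (𝓝 (‖z - Y‖ ^ 2)) :=
          ((hul.sub_const Y).norm).pow 2
        have h4 : Tendsto (fun j => r * (t (φ j)).2.2.re) atTop (𝓝 (r * z.re)) :=
          ((continuous_re.tendsto _).comp hul).const_mul r
        exact le_of_tendsto_of_tendsto' h3 h4 fun j => hply _ (ht (φ j))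
      have hzre : 0 < z.re := by
        have h3 : 0 < ‖z - Y‖ := norm_pos_iff.2 (sub_ne_zero.2 hzY)
        have h4 : 0 < r * z.re := lt_of_lt_of_le (by positivity) hzp
        exact (mul_pos_iff_of_pos_left hr0).1 h4
      obtain ⟨y', hy'⟩ := hR.ex c₁ b₁ z hsP hsm hzre hsM
      have htl : Tendsto (fun j => (((t (φ j)).1, (t (φ j)).2.1, (t (φ j)).2.2) : ℂ × ℂ × ℂ)) atTop
          (𝓝 (c₁, b₁, z)) := by
        have hb1' : Tendsto (fun j => (t (φ j)).2.1) atTop (𝓝 b₁) :=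
          (continuous_snd.tendsto (c₁, b₁)).comp hlim
        exact hc1.prodMk_nhds (hb1'.prodMk_nhds hul)
      obtain ⟨j, hj⟩ := (htl.eventually (hR.opn c₁ b₁ z y' hy')).exists
      have hyy : y' = y := hR.uniq _ _ _ _ _ (hj (ht (φ j)).1 (ht (φ j)).2.1 (ht (φ j)).2.2.1)
        (ht (φ j)).2.2.2.1
      have hρ₁ : 1 < ‖mult n c₁ b₁‖ := by
        rw [mult_eq_mul, hsm, norm_exp]; exact Real.one_lt_exp_iff.2 hzre
      have hE₁ : Ex n x c₁ b₁ := by
        have hfr : ∃ᶠ y : ℂ × ℂ in 𝓝 (c₁, b₁), y ∈ Per n ∧ G y.1 0 = 0 ∧ Ex n x y.1 y.2 := by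
          refine hlim.frequently (Eventually.frequently (Eventually.of_forall fun j => ?_))
          exact ⟨(ht (φ j)).2.1, mem_M_iff.1 (ht (φ j)).1, (ht (φ j)).2.2.2.2⟩
        exact ex_closed' hn (mem_M_iff.1 hsM) hsP hρ₁ hfr
      exact ⟨(c₁, b₁, z), ⟨hsM, hsP, hsm, hyy ▸ hy', hE₁⟩, rfl⟩
    have hpc : IsPreconnected ({Y}ᶜ : Set ℂ) := by
      refine (isConnected_compl_singleton_of_one_lt_rank ?_ Y).isPreconnected
      simp
    have hLZ : L ∈ Z := ⟨_, hT0, rfl⟩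
    have hLY : L ≠ Y := by
      intro h; rw [h, hYre] at hre; exact lt_irrefl _ hre
    have hsub := hpc.subset_of_closure_inter_subset hZo ⟨L, hLY, hLZ⟩ hZc
    have h1 : Y + ((r + 1 : ℝ) : ℂ) ∈ Z := by
      apply hsub
      intro h
      have h2 : ((r + 1 : ℝ) : ℂ) = 0 := by
        have h3 : Y + ((r + 1 : ℝ) : ℂ) = Y := h
        simpa using h3
      have h3 : (r + 1 : ℝ) = 0 := by exact_mod_cast h2
      linarith
    have h2 := hZY _ h1
    have h3 : Y + ((r + 1 : ℝ) : ℂ) - Y = ((r + 1 : ℝ) : ℂ) := by ring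
    rw [h3, Complex.norm_real, Real.norm_eq_abs, abs_of_pos (by linarith)] at h2
    linarith
  obtain ⟨t, ht, hf⟩ := hex
  -- conclusion
  have hs0 : 0 < Real.sqrt (n * r) := Real.sqrt_pos.2 (by positivity)
  obtain ⟨ε, hε0, hε⟩ : ∃ ε > 0, ε + 9 * Real.sqrt (n * (r + ε)) ≤ 10 * Real.sqrt (n * r) := by
    have hc : ContinuousAt (fun ε : ℝ => ε + 9 * Real.sqrt (n * (r + ε))) 0 := by fun_prop
    have h1 : (0 : ℝ) + 9 * Real.sqrt (n * (r + 0)) < 10 * Real.sqrt (n * r) := by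
      rw [add_zero, zero_add]; linarith
    have h2 := hc.eventually (gt_mem_nhds h1)
    obtain ⟨δ, hδ, hδ2⟩ := Metric.eventually_nhds_iff.1 h2
    refine ⟨δ / 2, by positivity, (hδ2 ?_).le⟩
    rw [Real.dist_eq, sub_zero, abs_of_pos (by positivity)]
    linarith
  obtain ⟨j, hj⟩ := near_of_frequently hn ht.1 ht.2.1 ht.2.2.1 (hre' t ht) ht.2.2.2.2 hf hε0
  refine ⟨j, ?_⟩
  have h1 := (hdisc t ht).2
  have h2 : ε + 9 * Real.sqrt (n * (t.2.2.re + ε)) ≤ 10 * Real.sqrt (n * r) := by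
    refine le_trans ?_ hε
    gcongr
  have e1 : L - axisPt x - 2 * Real.pi * j * I
      = (L - Y) - (t.2.2 - Y) + (t.2.2 - axisPt x - 2 * Real.pi * j * I) := by ring
  rw [e1]
  refine (norm_add_le _ _).trans ?_
  have h3 : ‖(L - Y) - (t.2.2 - Y)‖ ≤ r + r :=
    (norm_sub_le _ _).trans (add_le_add (hdisc _ hT0).1 (hdisc t ht).1)
  linarith

/-- `Rt` over `MM` gives `Ex` -/
lemma ex_of_rt {n : ℕ} {x : ℚ} {c a : ℂ} (hM : c ∈ MM)
    (h : Sat.Rt n (c, a) x) : Ex n x c a := by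
  have hM0 : G c 0 = 0 := mem_M_iff.1 hM
  rcases h with ⟨θ, w, hE, -⟩ | ⟨-, B, θ, w, hF, hw, hfit, hfr⟩
  · exact absurd hM0 (Sat.extP_G_ne hE)
  · obtain ⟨β, hβ, q, hq, hpq⟩ := hF.two
    have hcomp : Compat β θ w := hfit.compat hβ (hF.land β hβ)
    obtain ⟨P, hP1, hP2⟩ := nu_of_compat hpq hw.per hcomp
    have h1 : Circ.nu w n θ = x + (⌊Circ.nu w n θ⌋ : ℤ) := by
      have := Int.self_sub_floor (Circ.nu w n θ)
      rw [hfr] at this
      linarith
    have hqx : q = x.den := den_of_eq hpq.1 hP1 (hP2.symm.trans h1)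
    exact ⟨β, hqx ▸ land_of_lands hM0 hpq (hF.land β hβ), θ, w, hw.per, hcomp, _, h1⟩

/-- **(M)**: a pair over `MM` of label `J` and combinatorial rotation number `x` of large
denominator is the point of any section of label `J` over the right half of a disc about
`2 π i x` -/
theorem barM {n : ℕ} (hn : 0 < n) {x : ℚ} (hx0 : 0 < x) (hx1 : x < 1)
    (hr : 2 * n * Real.log 2 / x.den ≤ 1 / 2) {ρ : ℝ}
    (hρ : 2 * (2 * n * Real.log 2 / x.den) + 10 * Real.sqrt (n * (2 * n * Real.log 2 / x.den)) < ρ)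
    (hρ' : ρ ≤ Sat.gR n x) {J : Lab n} {τ : ℂ → ℂ × ℂ}
    (hτ : ∀ L ∈ ball (axisPt x) ρ, 0 < L.re → τ L ∈ Per n ∧ mul n (τ L) = exp L ∧
      FF n (τ L) = J) {c a : ℂ} (hM : c ∈ MM) (hJ : (c, a) ∈ Sat.NJ n J)
    (hRt : Sat.Rt n (c, a) x) :
    ∃ L ∈ ball (axisPt x) ρ, 0 < L.re ∧ τ L = (c, a) ∧
      ‖L - axisPt x‖ ≤ 2 * (2 * n * Real.log 2 / x.den) +
        10 * Real.sqrt (n * (2 * n * Real.log 2 / x.den)) := by
  obtain ⟨hPer, hmul, hNI, hFF⟩ := hJ
  have hρ1 : 1 < ‖mult n c a‖ := hmul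
  have hL : mul n (c, a) = exp (Complex.log (mul n (c, a))) :=
    (Complex.exp_log (repelling_ne_zero hρ1)).symm
  have hre : 0 < (Complex.log (mul n (c, a))).re := by
    rw [Complex.log_re]; exact Real.log_pos hmul
  obtain ⟨-, j, hj⟩ := ex_near hn hr hM hPer hL hre (ex_of_rt hM hRt)
  set L : ℂ := Complex.log (mul n (c, a)) - 2 * Real.pi * j * I with hLdef
  have h1 : L - axisPt x = Complex.log (mul n (c, a)) - axisPt x - 2 * Real.pi * j * I := by
    rw [hLdef]; ring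
  rw [← h1] at hj
  have hLre : L.re = (Complex.log (mul n (c, a))).re := by rw [hLdef]; simp
  have hLe : exp L = mul n (c, a) := by
    rw [hLdef, Complex.exp_sub, ← hL]
    have h5 : 2 * Real.pi * (j : ℂ) * I = j * (2 * Real.pi * I) := by ring
    rw [h5, Complex.exp_int_mul_two_pi_mul_I, div_one]
  have hLB : L ∈ ball (axisPt x) ρ := by
    rw [mem_ball, dist_eq_norm]; exact lt_of_le_of_lt hj hρ
  have hL0 : 0 < L.re := by rw [hLre]; exact hre
  obtain ⟨h2, h3, h4⟩ := hτ L hLB hL0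
  refine ⟨L, hLB, hL0, ?_, hj⟩
  exact Sat.s4_unique n x L (τ L) (c, a) hn hx0 hx1 (ball_subset_ball hρ' hLB) hL0 h2 hPer h3
    hLe.symm (h4.trans hFF.symm)

end BarM

end Pool.Agent.Work.MLC
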