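import Pool.Agent.Work.MLC.SatCircF

set_option autoImplicit false

/-! # Module K: arithmetic of the plateaus used for the barriers (helper15) -/

namespace Pool.Agent.Work.MLC.PriK

open Set Filter Topology

/-- `[s, t]` is the plateau `nu v d = κ + y` -/
structure Plat (d : ℕ) (v : ℕ → ℤ) (κ : ℤ) (y : ℚ) (s t : ℝ) : Prop where
  lt : s < t
  lt' : t < s + 1
  len : 1 ≤ (2 ^ (d * y.den) - 1) * (t - s)
  per_s : ∃ a : ℤ, (2 : ℝ) ^ (d * y.den) * s - s = a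
  per_t : ∃ a : ℤ, (2 : ℝ) ^ (d * y.den) * t - t = a
  iff : ∀ θ, Circ.nu v d θ = κ + y ↔ s ≤ θ ∧ θ ≤ t

/-- **(K1)** every rational rotation number in `(κ, κ + 1)` has a plateau -/
theorem exists_plat {d : ℕ} (hd : 0 < d) {v : ℕ → ℤ} (hv : Word d v) (κ : ℤ) {y : ℚ} (h0 : 0 < y)
    (h1 : y < 1) : ∃ s t : ℝ, Plat d v κ y s t := by
  have hq := two_le_den h0 h1
  obtain ⟨i₀, hi₀, s, t, h, hplat⟩ := exists_arc hd hq hv (isCoprime_aux y κ)
  have hper_s := h.per_s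
  have hper_t := h.per_t
  refine ⟨s, t, h.lt, h.lt', ?_, hper_s, hper_t, fun θ => ?_⟩
  · obtain ⟨a, ha⟩ := hper_s
    obtain ⟨b, hb⟩ := hper_t
    have e : (2 ^ (d * y.den) - 1) * (t - s) = ((b - a : ℤ) : ℝ) := by
      push_cast; linarith
    have hpos : 0 < (2 ^ (d * y.den) - 1 : ℝ) * (t - s) := by
      have h2 : 0 < d * y.den := Nat.mul_pos hd (by omega)
      have h3 : (1 : ℝ) < 2 ^ (d * y.den) := one_lt_pow₀ (by norm_num) h2.ne'
      have h4 := h.lt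
      exact mul_pos (by linarith) (by linarith)
    rw [e] at hpos ⊢
    have h5 : 0 < b - a := by exact_mod_cast hpos
    exact_mod_cast h5
  · rw [← hplat θ, Circ.nu_shift_word v d hv.2.1, cast_aux]

namespace Plat

variable {d : ℕ} {v : ℕ → ℤ} {κ : ℤ} {y : ℚ} {s t : ℝ}

theorem nu_s (h : Plat d v κ y s t) : Circ.nu v d s = κ + y := (h.iff s).2 ⟨le_rfl, h.lt.le⟩

theorem nu_t (h : Plat d v κ y s t) : Circ.nu v d t = κ + y := (h.iff t).2 ⟨h.lt.le, le_rfl⟩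

theorem nu_mid (h : Plat d v κ y s t) : Circ.nu v d ((s + t) / 2) = κ + y :=
  (h.iff _).2 ⟨by linarith [h.lt], by linarith [h.lt]⟩

/-- lower bound for the length -/
theorem len_ge (h : Plat d v κ y s t) : 1 / (2 : ℝ) ^ (d * y.den) ≤ t - s := by
  have h1 := h.len
  have h2 := h.lt
  rw [div_le_iff₀ (by positivity)]
  nlinarith

theorem lt_iff (h : Plat d v κ y s t) (θ : ℝ) : Circ.nu v d θ < κ + y ↔ θ < s := by
  constructor
  · intro h1
    by_contra hcon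
    push Not at hcon
    have := Circ.nu_mono v d hcon
    rw [h.nu_s] at this
    linarith
  · intro h1
    refine lt_of_le_of_ne ?_ fun he => ?_
    · rw [← h.nu_s]; exact Circ.nu_mono v d h1.le
    · exact absurd ((h.iff θ).1 he).1 (not_le.2 h1)

theorem gt_iff (h : Plat d v κ y s t) (θ : ℝ) : κ + y < Circ.nu v d θ ↔ t < θ := by
  constructor
  · intro h1
    by_contra hcon
    push Not at hcon
    have := Circ.nu_mono v d hcon
    rw [h.nu_t] at this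
    linarith
  · intro h1
    refine lt_of_le_of_ne ?_ fun he => ?_
    · rw [← h.nu_t]; exact Circ.nu_mono v d h1.le
    · exact absurd ((h.iff θ).1 he.symm).2 (not_le.2 h1)

end Plat

/-- a point of the plateau, for rationals: strict monotonicity -/
theorem lt_of_nu_lt {v : ℕ → ℤ} {d : ℕ} {θ θ' : ℝ} (h : Circ.nu v d θ < Circ.nu v d θ') : θ < θ' := by
  by_contra hcon
  push Not at hcon
  exact absurd (Circ.nu_mono v d hcon) (not_le.2 h)

/-- the data of a barrier: `θ₁ < θ₂` have rotation numbers `κ + x₁ < κ + x < κ + x₂`, at distance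
between `ε` and `ε'` from `κ + x` -/
structure Cut (d : ℕ) (v : ℕ → ℤ) (κ : ℤ) (x x₁ x₂ θ₁ θ₂ ε ε' : ℝ) : Prop where
  nu₁ : Circ.nu v d θ₁ = κ + x₁
  nu₂ : Circ.nu v d θ₂ = κ + x₂
  le₁ : ε ≤ x - x₁
  le₂ : ε ≤ x₂ - x
  lt₁ : x - x₁ < ε'
  lt₂ : x₂ - x < ε'
  pos : 0 < ε

namespace Cut

variable {d : ℕ} {v : ℕ → ℤ} {κ : ℤ} {x x₁ x₂ θ₁ θ₂ ε ε' : ℝ}

theorem lt (h : Cut d v κ x x₁ x₂ θ₁ θ₂ ε ε') : θ₁ < θ₂ := by
  refine lt_of_nu_lt (v := v) (d := d) ?_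
  rw [h.nu₁, h.nu₂]
  linarith [h.le₁, h.le₂, h.pos]

/-- **(K2)** -/
theorem inside (h : Cut d v κ x x₁ x₂ θ₁ θ₂ ε ε') {θ : ℝ}
    (hθ : |Circ.nu v d θ - (κ + x)| < ε) : θ₁ < θ ∧ θ < θ₂ := by
  rw [abs_lt] at hθ
  constructor
  · refine lt_of_nu_lt (v := v) (d := d) ?_
    rw [h.nu₁]; linarith [h.le₁, hθ.1]
  · refine lt_of_nu_lt (v := v) (d := d) ?_
    rw [h.nu₂]; linarith [h.le₂, hθ.2]

/-- on the interval the rotation number is near `κ + x` -/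
theorem near (h : Cut d v κ x x₁ x₂ θ₁ θ₂ ε ε') {θ : ℝ} (h1 : θ₁ ≤ θ) (h2 : θ ≤ θ₂) :
    |Circ.nu v d θ - (κ + x)| < ε' := by
  have h3 := Circ.nu_mono v d h1
  have h4 := Circ.nu_mono v d h2
  rw [h.nu₁] at h3
  rw [h.nu₂] at h4
  rw [abs_lt]
  constructor <;> linarith [h.lt₁, h.lt₂]

/-- **(K3)** -/
theorem outside (h : Cut d v κ x x₁ x₂ θ₁ θ₂ ε ε') {θ : ℝ}
    (hθ : ∀ m : ℤ, ε' ≤ |Circ.nu v d (θ + m) - (κ + x)|) (m : ℤ) : ¬ (θ₁ < θ + m ∧ θ + m < θ₂) := by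
  rintro ⟨h1, h2⟩
  exact absurd (h.near h1.le h2.le) (not_lt.2 (hθ m))

end Cut

/-- two plateaus give a cut, with the mid points as angles -/
theorem cut_of_plat {d : ℕ} {v : ℕ → ℤ} {κ : ℤ} {x x₁ x₂ : ℚ} {s₁ t₁ s₂ t₂ ε ε' : ℝ}
    (h₁ : Plat d v κ x₁ s₁ t₁) (h₂ : Plat d v κ x₂ s₂ t₂) (hε : 0 < ε)
    (a₁ : ε ≤ (x : ℝ) - x₁) (b₁ : (x : ℝ) - x₁ < ε') (a₂ : ε ≤ (x₂ : ℝ) - x)
    (b₂ : (x₂ : ℝ) - x < ε') : Cut d v κ x x₁ x₂ ((s₁ + t₁) / 2) ((s₂ + t₂) / 2) ε ε' :=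
  ⟨h₁.nu_mid, h₂.nu_mid, a₁, a₂, b₁, b₂, hε⟩

/-! ### periodic angles -/

/-- **(K4)** a periodic angle has rotation number `κ + x` or is far from it -/
theorem gap {d n N : ℕ} {v : ℕ → ℤ} {κ : ℤ} {x : ℚ} (hn : 0 < n) (hnN : n ≤ N) (hx : x.den ≤ N)
    {θ : ℝ} (hθ : ∃ a : ℤ, (2 : ℝ) ^ n * θ - θ = a) (hne : Circ.nu v d θ ≠ κ + x) :
    1 / (N : ℝ) ^ 2 ≤ |Circ.nu v d θ - (κ + x)| := by
  by_contra hcon
  push Not at hcon
  have hN : (0 : ℝ) < N := by exact_mod_cast hn.trans_le hnN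
  have hn' : (0 : ℝ) < n := by exact_mod_cast hn
  have hd' : (0 : ℝ) < x.den := by exact_mod_cast x.den_pos
  have h1 := cast_aux x κ
  have h2 : Circ.nu v d θ = ((κ * x.den + x.num : ℤ) : ℝ) / (x.den : ℕ) := by
    refine Circ.gap_of_near v d n x.den hn x.den_pos hθ ?_
    rw [h1]
    refine lt_of_lt_of_le hcon ?_
    rw [sq]
    refine one_div_le_one_div_of_le (by positivity) ?_
    have h3 : (n : ℝ) ≤ N := by exact_mod_cast hnN
    have h4 : (x.den : ℝ) ≤ N := by exact_mod_cast hx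
    gcongr
  rw [h1] at h2
  exact hne h2

theorem per_add_int {n : ℕ} {θ : ℝ} (hθ : ∃ a : ℤ, (2 : ℝ) ^ n * θ - θ = a) (m : ℤ) :
    ∃ a : ℤ, (2 : ℝ) ^ n * (θ + m) - (θ + m) = a := by
  obtain ⟨a, ha⟩ := hθ
  refine ⟨a + (2 ^ n * m - m), ?_⟩
  push_cast
  linarith

/-- the rotation number at all integer translates, in terms of two of them -/
theorem nu_add_int_sub (v : ℕ → ℤ) (d : ℕ) (θ θ' : ℝ) (m : ℤ) :
    Circ.nu v d (θ' + m) - Circ.nu v d (θ + m) = Circ.nu v d θ' - Circ.nu v d θ ∨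
    Circ.nu v d (θ' + m) - Circ.nu v d (θ + m) = Circ.nu v d (θ' + 1) - Circ.nu v d (θ + 1) := by
  rcases Int.even_or_odd' m with ⟨k, hk | hk⟩
  · left
    rw [hk]
    push_cast
    rw [nu_add_even, nu_add_even]
    ring
  · right
    rw [hk]
    push_cast
    have e : ∀ θ : ℝ, θ + (2 * (k : ℝ) + 1) = (θ + 1) + 2 * k := fun θ => by ring
    rw [e, e, nu_add_even, nu_add_even]
    ring

/-- continuity, uniformly over the integer translates -/
theorem eventually_near (v : ℕ → ℤ) (d : ℕ) (t : ℝ) {δ : ℝ} (hδ : 0 < δ) :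
    ∀ᶠ θ in 𝓝 t, ∀ m : ℤ, |Circ.nu v d (θ + m) - Circ.nu v d (t + m)| < δ := by
  have h0 : ∀ᶠ θ in 𝓝 t, |Circ.nu v d θ - Circ.nu v d t| < δ := by
    have hc : Continuous fun θ => |Circ.nu v d θ - Circ.nu v d t| :=
      ((Circ.nu_continuous v d).sub continuous_const).abs
    exact hc.continuousAt.eventually_lt_const (by simpa using hδ)
  have h1 : ∀ᶠ θ in 𝓝 t, |Circ.nu v d (θ + 1) - Circ.nu v d (t + 1)| < δ := by
    have hc : Continuous fun θ => |Circ.nu v d (θ + 1) - Circ.nu v d (t + 1)| :=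
      (((Circ.nu_continuous v d).comp (continuous_id.add continuous_const)).sub
        continuous_const).abs
    exact hc.continuousAt.eventually_lt_const (by simpa using hδ)
  filter_upwards [h0, h1] with θ h2 h3 m
  rcases nu_add_int_sub v d t θ m with h | h <;> rw [h] <;> assumption

/-- **(K5)** near a periodic angle `t` (all integer translates at once): if one translate of `t` has
rotation number `κ + x`, then the same translate of `θ` is near `κ + x`; if none has, then all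
translates of `θ` are far from `κ + x` -/
theorem persist {d n N : ℕ} {v : ℕ → ℤ} {κ : ℤ} {x : ℚ} (hn : 0 < n) (hnN : n ≤ N)
    (hx : x.den ≤ N) {t : ℝ} (ht : ∃ a : ℤ, (2 : ℝ) ^ n * t - t = a) {ε ε' : ℝ} (hε : 0 < ε)
    (hε' : ε' < 1 / (N : ℝ) ^ 2) :
    ∀ᶠ θ in 𝓝 t,
      (∀ m : ℤ, Circ.nu v d (t + m) = κ + x → |Circ.nu v d (θ + m) - (κ + x)| < ε) ∧
      ((∀ m : ℤ, Circ.nu v d (t + m) ≠ κ + x) → ∀ m : ℤ, ε' ≤ |Circ.nu v d (θ + m) - (κ + x)|) := by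
  filter_upwards [eventually_near v d t hε, eventually_near v d t (sub_pos.2 hε')] with θ h1 h2
  refine ⟨fun m hm => by rw [← hm]; exact h1 m, fun hall m => ?_⟩
  have h3 := gap (κ := κ) (v := v) (d := d) hn hnN hx (per_add_int ht m) (hall m)
  have h4 := h2 m
  have h5 : |Circ.nu v d (t + m) - (κ + x)| ≤ |Circ.nu v d (θ + m) - (κ + x)| +
      |Circ.nu v d (θ + m) - Circ.nu v d (t + m)| := by
    have e : Circ.nu v d (t + m) - (κ + x) = (Circ.nu v d (θ + m) - (κ + x)) -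
        (Circ.nu v d (θ + m) - Circ.nu v d (t + m)) := by ring
    rw [e]
    exact abs_sub _ _
  linarith

/-- **(K5)**, in terms of the cut: near a periodic angle `t` the angle `θ` has an integer translate in
`(θ₁, θ₂)` iff a translate of `t` has rotation number `κ + x` -/
theorem persist_cut {d n N : ℕ} {v : ℕ → ℤ} {κ : ℤ} {x : ℚ} {x₁ x₂ θ₁ θ₂ ε ε' : ℝ} (hn : 0 < n)
    (hnN : n ≤ N) (hx : x.den ≤ N) {t : ℝ} (ht : ∃ a : ℤ, (2 : ℝ) ^ n * t - t = a)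
    (h : Cut d v κ x x₁ x₂ θ₁ θ₂ ε ε') (hε' : ε' < 1 / (N : ℝ) ^ 2) :
    ∀ᶠ θ in 𝓝 t, (∃ m : ℤ, θ₁ < θ + m ∧ θ + m < θ₂) ↔ ∃ m : ℤ, Circ.nu v d (t + m) = κ + x := by
  filter_upwards [persist (v := v) (d := d) (κ := κ) hn hnN hx ht h.pos hε'] with θ h1
  constructor
  · rintro ⟨m, hm⟩
    by_contra hcon
    push Not at hcon
    exact h.outside (h1.2 hcon) m hm
  · rintro ⟨m, hm⟩
    exact ⟨m, h.inside (h1.1 m hm)⟩

end Pool.Agent.Work.MLC.PriK
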