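import Pool.Agent.Work.MLC.PriBT57
import Pool.Agent.Work.MLC.PriId45
import Pool.Agent.Work.MLC.PriGlue26
import Pool.Agent.Work.MLC.PriK15
import Pool.Agent.Work.MLC.PriBar49
import Pool.Agent.Work.MLC.PriBarM59

set_option autoImplicit false

/-! # The barrier theorem: assembly (helper57)

Inputs: the lower bound for `|mul - 1|` on the rays, discs and rectangles (helper49), and the
position of the pairs with rotation number exactly `x_j` over `MM` (helper59). -/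

namespace Pool.Agent.Work.MLC.Pri

open Filter Topology Metric Set Complex

/-- every label has a wide section -/
theorem exists_wide_word {m : ℕ} (hm : 0 < m) {w : ℕ → ℤ} (hw : Word m w) (k : ℤ) :
    ∃ σ, Wide m w k σ ∧ ∀ L ∈ D0 m, Exa m (σ L) := by
  have hbits : Bits m w := ⟨hw.1, hw.2.1⟩
  -- an angle of the strip
  obtain ⟨s, t, hst⟩ := PriK.exists_plat hm hw k (y := 1 / 2) (by norm_num) (by norm_num)
  have hs := hst.nu_s
  have h1 : (k : ℝ) < Circ.nu w m s := by rw [hs]; push_cast; linarith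
  have h2 : Circ.nu w m s < k + 1 := by rw [hs]; push_cast; linarith
  obtain ⟨z, hz, L, hL, hmul, hF⟩ := hall_RB hm (lab m s w)
  obtain ⟨σ, v, κ, hW, hσ⟩ := exists_wide hm hz hL.1 hmul
  obtain ⟨L₁, hL₁, hre, hL₁M⟩ := (hW.exists_ext (y := 1) one_pos
    (by linarith [Real.pi_gt_three])).exists
  obtain ⟨θ₁, hE, hk1, hk2⟩ := hW.ang L₁ hL₁ hL₁M
  have hl : lab m θ₁ v = lab m s w := by
    rw [← (hW.lab L hL.1 hL.2).2 θ₁ hk1 hk2, hσ, hF]
  have hν : ∀ j : ℤ, Circ.nu v m θ₁ ≠ j := (hW.lab L₁ hL₁ hre).1.2 θ₁ v hE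
  obtain ⟨M, hM1, hM2, hM3⟩ := Sat.exists_shift_of_lab hm hW.bits hbits h1 h2 hν hl
  have hp : ∀ i, Even (w i - v i - M) := fun i => by
    have h1 := hM1 i
    rw [Int.even_iff] at h1 ⊢
    omega
  obtain ⟨j, hj⟩ := nu_parity hp m
  have hshift : ∀ θ : ℝ, Circ.nu w m (θ + M) = Circ.nu v m θ + ((m * M + j : ℤ) : ℝ) := by
    intro θ
    have e1 := hj (θ + M)
    have e2 : θ + M + M = θ + 2 * (M : ℤ) := by ring
    rw [e2, nu_add_two_mul] at e1
    push_cast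
    linarith
  have hk : k = κ + (m * M + j) := by
    have e1 := hshift θ₁
    rw [e1] at hM2 hM3
    have e2 : (k : ℝ) < κ + 1 + ((m * M + j : ℤ) : ℝ) := by linarith
    have e3 : (κ : ℝ) + ((m * M + j : ℤ) : ℝ) < k + 1 := by linarith
    have e4 : k < κ + 1 + (m * M + j) := by exact_mod_cast e2
    have e5 : κ + (m * M + j) < k + 1 := by exact_mod_cast e3
    omega
  have hW' : Wide m w k σ := hW.move hbits M hp fun θ => by
    rw [hshift θ, hk]; push_cast; ring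
  refine ⟨σ, hW', ?_⟩
  -- exact period
  have hex₁ : ∀ d, 0 < d → d < m → it (σ L₁).1 d (σ L₁).2 ≠ (σ L₁).2 := by
    intro d hd hdm hfix
    obtain ⟨θ, hE', -, -⟩ := hW'.ang L₁ hL₁ hL₁M
    set g := Nat.gcd d m with hg
    have hg0 : 0 < g := Nat.gcd_pos_of_pos_left _ hd
    have hgm : g < m := (Nat.gcd_le_left _ hd).trans_lt hdm
    have hfg : it (σ L₁).1 g (σ L₁).2 = (σ L₁).2 := Sat.it_gcd_fix hfix hE'.2.2.1
    obtain ⟨u, hu⟩ := exists_extP_word hg0 hE'.ang hfg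
    obtain ⟨q, hq⟩ : g ∣ m := Nat.gcd_dvd_right _ _
    have hum : ∀ j i, u (i + g * j) = u i := by
      intro j
      induction j with
      | zero => intro i; simp
      | succ j ih =>
        intro i
        rw [show i + g * (j + 1) = (i + g * j) + g by ring, hu.2.2.2.1.per, ih]
    have hum' : ExtP m (σ L₁).1 (σ L₁).2 θ u := by
      refine ⟨hu.1, hu.2.1, hE'.2.2.1, ⟨hu.2.2.2.1.bit, fun i => ?_⟩, hu.2.2.2.2⟩
      have := hum q i
      rwa [← hq] at this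
    obtain ⟨a, ha, hpar⟩ := extP_unique hE' hum'
    have ha0 : a = 0 := by
      have : (a : ℝ) = 0 := by linarith
      exact_mod_cast this
    have huw : ∀ i, u i = w i := by
      intro i
      have h1 := hpar i
      rw [ha0, Int.even_iff] at h1
      rcases hw.1 i with a | a <;> rcases hu.2.2.2.1.bit i with b | b <;> rw [a, b] at h1 ⊢ <;>
        norm_num at h1
    obtain ⟨i, hi⟩ := hw.2.2 g hg0 hgm
    apply hi
    rw [← huw, ← huw]
    exact hu.2.2.2.1.per i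
  have hprim := Sat.prim_section (isPreconnected_D0 m) (isOpen_D0 m) (fun L hL => ne_one_D0 hL)
    hW'.cont hW'.sec hL₁ hex₁
  exact fun L hL => hprim L hL

/-- the position of the pairs of label `(w, k)` with rotation number exactly `x`, over `MM`
(helper59) -/
def QMW : Prop := ∀ (N m : ℕ) (w : ℕ → ℤ) (k : ℤ) (σ : ℂ → ℂ × ℂ) (x : ℚ), 0 < N → m ≤ N →
  Wide m w k σ → 1 / (4 * (N : ℝ) ^ 2) ≤ x → (x : ℝ) ≤ 1 - 1 / (4 * (N : ℝ) ^ 2) →
  4 * 10 ^ 6 * N ^ 12 ≤ x.den → ∀ θ : ℝ, (k : ℝ) < Circ.nu w m θ → Circ.nu w m θ < k + 1 →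
  ∀ c a, c ∈ MM → (c, a) ∈ Sat.NJ m (lab m θ w) → Sat.Rt m (c, a) x →
  ∃ L, dist L (axisPt x) ≤ rr N m / 2 ∧ (σ L).1 = c

/-- the sector data of a wide section -/
def vdat (m : ℕ) (w : ℕ → ℤ) (k : ℤ) (σ : ℂ → ℂ × ℂ) (x₁ x₂ θ₁ θ₂ : ℝ) : Sat.VDat :=
  ⟨m, w, k, σ, D0 m, x₁, x₂, θ₁, θ₂, 1⟩

lemma strip_mem_D0 {m : ℕ} (hm : 0 < m) {L : ℂ} (h1 : L.re ≤ 0) (h2 : 0 < L.im)
    (h3 : L.im < 2 * Real.pi) : L ∈ D0 m := by
  refine ⟨h2, h3, lt_of_le_of_lt h1 ?_⟩
  have h4 := mu_pos h2 h3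
  have hm' : (0 : ℝ) < m := by exact_mod_cast hm
  unfold hgt
  positivity

lemma vdat_ok {m : ℕ} {w : ℕ → ℤ} {k : ℤ} {σ : ℂ → ℂ × ℂ} (hV : Wide m w k σ)
    {x₁ x₂ θ₁ θ₂ : ℝ} (h0 : 0 < x₁) (h12 : x₁ < x₂) (h1 : x₂ < 1)
    (hn₁ : Circ.nu w m θ₁ = k + x₁) (hn₂ : Circ.nu w m θ₂ = k + x₂) :
    (vdat m w k σ x₁ x₂ θ₁ θ₂).Ok where
  m_pos := hV.pos
  bits := hV.bits
  x₁_pos := h0
  lt := h12
  x₂_lt := h1
  δ_pos := one_pos
  nu₁ := hn₁
  nu₂ := hn₂
  good := goodDom_D0 hV.pos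
  rect := by
    intro L _ h3 h4 h5
    have hpi := Real.pi_pos
    have h4' : 2 * Real.pi * x₁ ≤ L.im := h4
    have h5' : L.im ≤ 2 * Real.pi * x₂ := h5
    have : 2 * Real.pi * x₂ < 2 * Real.pi * 1 := mul_lt_mul_of_pos_left h1 (by positivity)
    exact strip_mem_D0 hV.pos h3 (lt_of_lt_of_le (by positivity) h4') (by linarith)
  cont := hV.cont
  sec := hV.sec
  lab := by
    intro L hL hre
    exact (hV.lab L hL hre).2 θ₁ (by rw [hn₁]; linarith) (by rw [hn₁]; linarith)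

/-- **the barrier theorem** -/
theorem btg (hM : QMW) : BTG (2 * 10 ^ 46) 64 := by
  intro N d v κ x hN hd hdN hv h0 h1 hx
  obtain ⟨σ, hV, hex⟩ := exists_wide_word hd hv κ
  obtain ⟨x₁, x₂, θ₁, θ₂, a1, a2, a3, a4, a5, a6, a7, a8, a9, a10, hE, hD, hLf⟩ :=
    cuts hV hex hN hdN h0 h1 hx
  have hpi := Real.pi_gt_three
  have hN1 : (1 : ℝ) ≤ N := by exact_mod_cast hN
  have hN2 : (1 : ℝ) ≤ (N : ℝ) ^ 2 := one_le_pow₀ hN1
  have hu : (0 : ℝ) < 1 / (4 * (N : ℝ) ^ 2) := by positivity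
  have b1 : (0 : ℝ) < x₁ := by exact_mod_cast a1
  have b2 : (x₂ : ℝ) < 1 := by exact_mod_cast a2
  have b12 : (x₁ : ℝ) < x₂ := by linarith
  have hd1 : (1 : ℝ) ≤ d := by exact_mod_cast hd
  have hrr : 0 < rr N d := rr_pos hN hd
  have hrr1 : rr N d ≤ 1 / 64 := by
    refine (rr_le hN hd).trans ?_
    exact one_div_le_one_div_of_le (by norm_num) (by linarith)
  -- the distance of `x` from the integers
  have hxN : 1 / (N : ℝ) ^ 2 ≤ x ∧ 1 / (N : ℝ) ^ 2 ≤ 1 - x := by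
    have hq : (0 : ℝ) < x.den := by exact_mod_cast x.pos
    have hqN : (x.den : ℝ) ≤ N := by exact_mod_cast hx
    have h5 : (x : ℝ) = x.num / x.den := by exact_mod_cast (Rat.num_div_den x).symm
    have h6 : (1 : ℤ) ≤ x.num := Rat.num_pos.2 h0
    have h7 : x.num + 1 ≤ (x.den : ℤ) := by
      have h8 : x.num < x.den := Rat.num_lt_denom_iff.2 h1
      omega
    have h8 : (1 : ℝ) ≤ x.num := by exact_mod_cast h6
    have h9 : (x.num : ℝ) + 1 ≤ x.den := by exact_mod_cast h7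
    have h10 : 1 / (N : ℝ) ^ 2 ≤ 1 / x.den := by
      apply one_div_le_one_div_of_le hq
      nlinarith
    constructor
    · rw [h5]
      exact h10.trans (div_le_div_of_nonneg_right h8 hq.le)
    · rw [h5]
      refine h10.trans ?_
      rw [le_sub_iff_add_le, ← add_div, div_le_one hq]
      linarith
  have e4 : 1 / (N : ℝ) ^ 2 = 4 * (1 / (4 * (N : ℝ) ^ 2)) := by field_simp
  have e3 : 3 / (4 * (N : ℝ) ^ 2) = 3 * (1 / (4 * (N : ℝ) ^ 2)) := by ring
  have e7 : 7 / (8 * (N : ℝ) ^ 2) = 7 / 2 * (1 / (4 * (N : ℝ) ^ 2)) := by field_simp; norm_num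
  have e1 : 1 / (8 * (N : ℝ) ^ 2) = 1 / 2 * (1 / (4 * (N : ℝ) ^ 2)) := by field_simp; norm_num
  rw [e4] at hxN
  rw [e3] at a3 a6
  set V := vdat d v κ σ x₁ x₂ θ₁ θ₂ with hVd
  have hOk : V.Ok := vdat_ok hV b1 b12 b2 a9 a10
  -- the bound on the barrier
  have hbar : ∀ c ∈ V.BarV, Bd N c := by
    rintro c ((h | h) | h)
    · exact hE c h
    · obtain ⟨L, c1, c2, c3, c4, c5, rfl⟩ := h
      have c1' : -1 ≤ L.re := c1
      have c3' : 2 * Real.pi * x₁ ≤ L.im := c3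
      have c4' : L.im ≤ 2 * Real.pi * x₂ := c4
      have hLΩ : L ∈ D0 d := hOk.rect L c1 c2 c3 c4
      have him : |L.im| ≤ 2 * Real.pi := by
        rw [abs_of_pos hLΩ.1]; exact hLΩ.2.1.le
      have hL10 : ‖L‖ ≤ 10 := by
        have g1 := Complex.norm_le_abs_re_add_abs_im L
        have g2 : |L.re| ≤ 1 := abs_le.2 ⟨c1', c2.trans one_pos.le⟩
        have := Real.pi_lt_d2
        linarith
      by_cases hl : L.re ≤ -(rr N d / 4)
      · exact hLf L hLΩ hl hL10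
      · push Not at hl
        have hax : ∀ y : ℚ, L.im = 2 * Real.pi * y → dist L (axisPt y) ≤ rr N d / 2 := by
          intro y hy
          rw [dist_eq_norm]
          have g1 : L - axisPt y = (L.re : ℂ) := by
            apply Complex.ext
            · simp [axisPt]
            · simp [axisPt, hy]
          rw [g1, Complex.norm_real, Real.norm_eq_abs, abs_of_nonpos c2]
          linarith
        rcases c5 with c5 | c5 | c5
        · have : L.re = -1 := c5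
          linarith
        · exact (hD L (Or.inl (hax x₁ c5))).2
        · exact (hD L (Or.inr (hax x₂ c5))).2
    · obtain ⟨hMM, a, hNJ, hR | hR⟩ := h
      · obtain ⟨L, hL, rfl⟩ := hM N d v κ σ x₁ hN hdN hV (by linarith) (by linarith) a7 θ₁
          (by rw [a9]; linarith) (by rw [a9]; linarith) c a hMM hNJ hR
        exact (hD L (Or.inl hL)).2
      · obtain ⟨L, hL, rfl⟩ := hM N d v κ σ x₂ hN hdN hV (by linarith) (by linarith) a8 θ₁
          (by rw [a9]; linarith) (by rw [a9]; linarith) c a hMM hNJ hR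
        exact (hD L (Or.inr hL)).2
  refine ⟨fun c => c ∈ V.InV, ?_, ?_⟩
  · intro n hn hnN z hz hzE L hm hL0 hLη
    refine hOk.clopen fun hc => ?_
    obtain ⟨h2, h3⟩ := hbar z.1 hc n z.2 hn hnN hz hzE
    have hm' : mul n (z.1, z.2) = exp L := hm
    rw [hm'] at h2 h3
    have hK : (0 : ℝ) < 10 ^ 46 * (N : ℝ) ^ 64 := by positivity
    have hL1 : ‖L‖ ≤ 1 := by
      refine hLη.le.trans ?_
      rw [div_le_one (by positivity)]
      have : (1 : ℝ) ≤ (N : ℝ) ^ 64 := one_le_pow₀ hN1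
      nlinarith
    have h4 : ‖exp L - 1‖ ≤ 2 * ‖L‖ := Complex.norm_exp_sub_one_le hL1
    have h5 : 0 < ‖exp L - 1‖ := norm_pos_iff.2 (sub_ne_zero.2 h2)
    rw [norm_div, norm_one, div_le_iff₀ h5] at h3
    have h6 : ‖L‖ * (2 * 10 ^ 46 * (N : ℝ) ^ 64) < 1 := by
      rwa [lt_div_iff₀ (by positivity)] at hLη
    nlinarith
  · intro c θ hθ
    refine ⟨fun h2 => ?_, fun h2 h3 => ?_⟩
    · rw [e1, abs_lt] at h2
      refine hOk.mem_of_nu hθ ?_ ?_
      · show (κ : ℝ) + x₁ < Circ.nu v d θ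
        linarith
      · show Circ.nu v d θ < κ + x₂
        linarith
    · obtain ⟨m, h4, h5⟩ := hOk.nu_of_mem hθ h3
      have h4' : (κ : ℝ) + x₁ ≤ Circ.nu v d (θ + m) := h4
      have h5' : Circ.nu v d (θ + m) ≤ κ + x₂ := h5
      have h6 := h2 m
      rw [e7] at h6
      have h7 : |Circ.nu v d (θ + m) - (κ + x)| ≤ 3 * (1 / (4 * (N : ℝ) ^ 2)) := by
        rw [abs_le]; constructor <;> linarith
      linarith

theorem qmw : QMW := by
  intro N m w k σ x hN hmN hV hx0 hx1 hden θ h1 h2 c a hM hJ hR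
  have hN1 : (1 : ℝ) ≤ N := by exact_mod_cast hN
  have hm1 : (1 : ℝ) ≤ m := by exact_mod_cast hV.pos
  have hmN' : (m : ℝ) ≤ N := by exact_mod_cast hmN
  have hden' : 4 * 10 ^ 6 * (N : ℝ) ^ 12 ≤ x.den := by exact_mod_cast hden
  have hu : (0 : ℝ) < 1 / (4 * (N : ℝ) ^ 2) := by positivity
  have hx0' : (0 : ℝ) < x := hu.trans_le hx0
  have hx1' : (x : ℝ) < 1 := by linarith
  have hlog := Real.log_two_lt_d9
  have hlog0 := Real.log_pos (by norm_num : (1 : ℝ) < 2)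
  set y : ℝ := (N : ℝ) with hy
  set u : ℝ := (m : ℝ) with hu'
  have hy4 : (1 : ℝ) ≤ y ^ 4 := one_le_pow₀ hN1
  have hy6 : (1 : ℝ) ≤ y ^ 6 := one_le_pow₀ hN1
  have hy8 : (1 : ℝ) ≤ y ^ 8 := one_le_pow₀ hN1
  have hy12 : (1 : ℝ) ≤ y ^ 12 := one_le_pow₀ hN1
  have hq : (0 : ℝ) < x.den := by positivity
  have hu2 : u ^ 2 ≤ y ^ 2 := pow_le_pow_left₀ (by linarith) hmN' 2
  -- the radius of the horodisc
  have hr : 2 * u * Real.log 2 / x.den ≤ 7 / (2 * 10 ^ 7) * (u / y ^ 12) := by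
    have g1 : 2 * u * Real.log 2 / x.den ≤ 2 * u * Real.log 2 / (4 * 10 ^ 6 * y ^ 12) :=
      div_le_div_of_nonneg_left (by positivity) (by positivity) hden'
    refine g1.trans ?_
    rw [mul_div_assoc', div_le_div_iff₀ (by positivity) (by positivity)]
    have g2 : 0 < u * y ^ 12 := by positivity
    nlinarith
  have hA : u / y ^ 12 ≤ 1 / (u * y ^ 4) := by
    rw [div_le_div_iff₀ (by positivity) (by positivity)]
    have g1 : u * (u * y ^ 4) = u ^ 2 * y ^ 4 := by ring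
    rw [g1, one_mul]
    calc u ^ 2 * y ^ 4 ≤ y ^ 2 * y ^ 4 := by gcongr
      _ = y ^ 6 := by ring
      _ ≤ y ^ 12 := pow_le_pow_right₀ hN1 (by norm_num)
  have hB : u / y ^ 6 ≤ 1 / (u * y ^ 4) := by
    rw [div_le_div_iff₀ (by positivity) (by positivity)]
    have g1 : u * (u * y ^ 4) = u ^ 2 * y ^ 4 := by ring
    rw [g1, one_mul]
    calc u ^ 2 * y ^ 4 ≤ y ^ 2 * y ^ 4 := by gcongr
      _ = y ^ 6 := by ring
  have hC : 1 / (u * y ^ 4) ≤ 1 := by
    rw [div_le_one (by positivity)]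
    nlinarith
  have hC0 : 0 < 1 / (u * y ^ 4) := by positivity
  have hsq : Real.sqrt (u * (2 * u * Real.log 2 / x.den)) ≤ 1 / 1600 * (u / y ^ 6) := by
    refine Real.sqrt_le_iff.2 ⟨by positivity, ?_⟩
    calc u * (2 * u * Real.log 2 / x.den) ≤ u * (7 / (2 * 10 ^ 7) * (u / y ^ 12)) := by gcongr
      _ = 7 / (2 * 10 ^ 7) * (u ^ 2 / y ^ 12) := by ring
      _ ≤ 1 / 1600 ^ 2 * (u ^ 2 / y ^ 12) := by
        have : 0 ≤ u ^ 2 / y ^ 12 := by positivity
        nlinarith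
      _ = (1 / 1600 * (u / y ^ 6)) ^ 2 := by ring
  have hrr : rr N m / 2 = 1 / 128 * (1 / (u * y ^ 4)) := by
    unfold rr
    rw [← hy, ← hu']
    field_simp
    norm_num
  have hsub : rr N m / 2 ≤ Sat.gR m x := by
    unfold Sat.gR
    have g1 : 1 / (4 * y ^ 2) ≤ min (x : ℝ) (1 - x) := le_min hx0 (by linarith)
    have g2 : (1 / (4 * y ^ 2)) ^ 2 ≤ (min (x : ℝ) (1 - x)) ^ 2 :=
      pow_le_pow_left₀ (by positivity) g1 2
    calc rr N m / 2 = 1 / 128 * (1 / (u * y ^ 4)) := hrr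
      _ ≤ 1 / 4 * (1 / (4 * y ^ 2)) ^ 2 / u := by
        have g3 : 1 / 4 * (1 / (4 * y ^ 2)) ^ 2 / u = 1 / 64 * (1 / (u * y ^ 4)) := by
          field_simp
          norm_num
        rw [g3]
        linarith
      _ ≤ _ := by rw [← hu']; gcongr
  have hx0q : 0 < x := by exact_mod_cast hx0'
  have hx1q : x < 1 := by exact_mod_cast hx1'
  have hΩ : ball (axisPt x) (rr N m / 2) ⊆ D0 m :=
    (ball_subset_ball hsub).trans (ball_subset_D0 hV.pos hx0q hx1q)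
  obtain ⟨L, hL, -, hσ, -⟩ := BarM.barM hV.pos hx0q hx1q (by
      rw [← hu']
      linarith) (ρ := rr N m / 2) (by
      rw [hrr, ← hu']
      linarith) hsub (J := lab m θ w) (τ := σ)
    (fun L hL hre => ⟨(hV.sec L (hΩ hL)).1, (hV.sec L (hΩ hL)).2,
      (hV.lab L (hΩ hL) hre).2 θ h1 h2⟩) hM hJ hR
  exact ⟨L, (mem_ball.1 hL).le, by rw [hσ]⟩

/-- **the barrier theorem, unconditional** -/
theorem btg_all : BTG (2 * 10 ^ 46) 64 := btg qmw

end Pool.Agent.Work.MLC.Pri
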