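import Pool.Agent.Work.MLC.PriId45
import Pool.Agent.Work.MLC.PriGlue26

set_option autoImplicit false

/-! # The identification in the form of the final glue (helper34) -/

namespace Pool.Agent.Work.MLC.Pri

open Filter Topology Metric Set Complex

/-- the labels given by the identification -/
def LblI (n : ℕ) (η : ℝ) (x : ℂ × ℂ) (L : ℂ) (w : ℕ → ℤ) (k : ℤ) : Prop :=
  L ∈ HD η ∧ ∃ σ τ, Ident n η w k σ τ L x

/-- two descriptions of labels of the same cycle -/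
theorem sameCyc45_of {n : ℕ} {w w' : ℕ → ℤ} {k k' : ℤ} {t t' : ℝ} (hw : Bits n w)
    (ht : LeftEnd n w k t) (ht' : LeftEnd n w' k' t') (h : SameCyc w t w' t') :
    ∃ i₀, SameCyc45 n w k w' k' i₀ := by
  obtain ⟨i, m, h1, h2⟩ := h
  have h1' : ∀ j, Even (w' j - (fun j => w (j + i)) j - m) := by
    intro j
    have := h1 j
    rwa [add_comm i j] at this
  obtain ⟨K, hK⟩ := nu_parity h1' n
  have hK2 : ∀ θ, Circ.nu w' n (θ + ((-m : ℤ) : ℝ)) = Circ.nu w n θ + K := by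
    intro θ
    rw [hK, Sat.s1_rot n w i _ hw]
    congr 2
    push_cast; ring
  have hkk : (k' : ℝ) = k + K := by
    rw [← ht'.1, ← ht.1, ← hK2 t]
    congr 1
    rw [h2]; push_cast; ring
  refine ⟨i, -m, fun j => ?_, fun θ => ?_⟩
  · obtain ⟨u, hu⟩ := h1' j
    simp only at hu
    exact ⟨u + m, by omega⟩
  · rw [hK2, hkk]; ring

/-- **the identification** -/
theorem exists_ID (n : ℕ) (η : ℝ) (hn : 0 < n) (hη : 0 < η) (hη1 : η ≤ 1) :
    ∃ Lbl, ID n η Lbl := by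
  refine ⟨LblI n η, ?_, ?_⟩
  · intro x L hx hex hm hre hL
    obtain ⟨w, k, σ, τ, hI⟩ := exists_ident hn hη hη1 hx hex hm ⟨hre, hL⟩
    refine ⟨w, k, hI.wide.word hI.exa, ⟨⟨hre, hL⟩, σ, τ, hI⟩, ?_⟩
    intro P hP t ht δ hδ
    obtain ⟨y, θ, -, h2, h3, h4⟩ := hI.reach hη hη1 ⟨hre, hL⟩ hP (s := t + δ)
      (ht.2 _ (by linarith))
    refine ⟨y.1, θ, h2.1.ang, ?_, h3, h4⟩
    by_contra hcon
    push Not at hcon
    have h5 := Circ.nu_mono w n hcon
    rw [ht.1] at h5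
    exact absurd h2.2.1 (not_lt.2 h5)
  · intro x y L w k w' k' t t' hl hl' ht ht' hs
    obtain ⟨hL, σ, τ, hI⟩ := hl
    obtain ⟨-, σ', τ', hI'⟩ := hl'
    obtain ⟨i₀, hc⟩ := sameCyc45_of hI.wide.bits ht ht' hs
    have h1 := Ident.same_param hη hη1 hI hI' hc L hL
    rw [hI'.eq, hI.eq] at h1
    exact (congrArg Prod.fst h1).symm

end Pool.Agent.Work.MLC.Pri
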