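import Pool.Agent.Work.MLC.PriSepA26
import Pool.Agent.Work.MLC.PriIDG34
import Pool.Agent.Work.MLC.Sep70C
import Pool.Agent.Work.MLC.PriBT57b

set_option autoImplicit false

/-! # All components: assembly (helper26)

`rootPiece_of_BTG`: the barrier theorem gives the limb pieces of all components. -/

namespace Pool.Agent.Work.MLC.Pri

open Filter Topology Metric Set Complex

/-- the separation theorem of helper70 in the form of the adapter -/
theorem sep70_26 : Sep70 := by
  intro n w w' k k' t t' hn hw hw' ht ht' h0 h1 h0' h1' H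
  exact (Sep.sep (by omega) hw hw' h0 h1 h0' h1' ht.1 ht.2 ht'.1 ht'.2
    (fun S hS hSn u hu hor => H S hS hSn u hu hor)).1

theorem sepAll : SEP (fun n => n) := sep_of_70 sep70_26

/-- **all components**, from the barrier theorem -/
theorem rootPiece_of_BTG {C₀ : ℝ} (hC₀ : 1 ≤ C₀) {k : ℕ} (hBT : BTG C₀ k) :
    RootPiece fun n => 1 / ((4 * C₀) * n ^ k) := by
  have hδ : ∀ n : ℕ, 0 < n → 0 < 1 / ((4 * C₀) * (n : ℝ) ^ k) ∧
      1 / ((4 * C₀) * (n : ℝ) ^ k) ≤ 1 / 4 := by
    intro n hn
    have hn' : (1 : ℝ) ≤ n := by exact_mod_cast hn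
    have h1 : (1 : ℝ) ≤ n ^ k := one_le_pow₀ hn'
    refine ⟨by positivity, one_div_le_one_div_of_le (by norm_num) ?_⟩
    nlinarith [mul_le_mul hC₀ h1 (by norm_num) (by linarith)]
  refine rootPiece_of_clo hδ (cloAll_of_oneC hδ ?_)
  intro n r b x hper hx0 hexp hx2
  have hn : 0 < n := hper.1
  have hn' : (1 : ℝ) ≤ n := by exact_mod_cast hn
  obtain ⟨hδ0, hδ1⟩ := hδ n hn
  have hb : it r n b = b := perN_itH4 hper
  have hnx : ‖axisPt x‖ = 2 * Real.pi * |(x : ℝ)| := by
    have h := LimbData.axisPt_sub x 0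
    have h0 : axisPt 0 = 0 := by simp [axisPt]
    rw [h0, sub_zero] at h
    simpa using h
  set η : ℝ := 2 * (1 / ((4 * C₀) * (n : ℝ) ^ k)) with hη
  have hη0 : 0 < η := by positivity
  have hη2 : η ≤ 1 / 2 := by linarith
  have hSA : (r, b) ∈ SA n η := by
    refine ⟨hb, axisPt x, ⟨?_, ?_⟩, hexp⟩
    · rw [← norm_pos_iff, hnx]
      have : (x : ℝ) ≠ 0 := by exact_mod_cast hx0
      have := Real.pi_pos
      positivity
    · rw [hnx]; linarith
  have hex : Exa n (r, b) := by
    intro d hd hdn h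
    have h1 : Function.IsPeriodicPt (f r) d b := h
    have h2 := h1.minimalPeriod_le hd
    rw [hper.2] at h2
    omega
  obtain ⟨Lbl, hL⟩ := exists_ID n η hn hη0 (by linarith)
  refine oneC_QC (N := n) hBT sepAll lep hn le_rfl le_rfl ?_ hη2 hL hSA hex
  rw [hη, mul_one_div, div_le_div_iff₀ (by positivity) (by positivity)]
  have : 0 < C₀ * (n : ℝ) ^ k := by positivity
  nlinarith

/-- **limb pieces for all components, satellite or primitive** -/
theorem rootPiece_all : RootPiece fun n => 1 / ((4 * (2 * 10 ^ 46)) * (n : ℝ) ^ 64) :=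
  rootPiece_of_BTG (by norm_num) btg_all

end Pool.Agent.Work.MLC.Pri
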