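import Pool.Agent.Work.MLC.Pri0

set_option autoImplicit false

/-! # The barrier theorem from its parts (helper50) -/

namespace Pool.Agent.Work.MLC

open Filter Topology Metric Set Complex

namespace Pri

lemma Ang.notMem_MM {c : ℂ} {θ : ℝ} (h : Ang c θ) : c ∉ MM := by
  intro hc
  have h1 := h.1
  rw [G_c_eq, mem_M_iff.1 hc] at h1
  simp at h1

theorem mem_MM_of_le {n : ℕ} (hn : 0 < n) {z : ℂ × ℂ} (hz : z ∈ Per n) (hm : ‖mul n z‖ ≤ 1) :
    z.1 ∈ MM := by
  by_contra h0
  exact absurd (inputs34.rep n hn z hz h0) (not_lt.2 hm)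

theorem bt_of (h0 : Q0_section) (h6 : Q6_bar) (h7 : Q7_open) (h7' : Q7_closed) : BT := by
  obtain ⟨C, j, hC, H⟩ := h6
  refine ⟨2 * C, j, by linarith, ?_⟩
  intro N m w k x hN hm hmN hw hx0 hx1 hden
  have hN0 : (2 : ℝ) ≤ N := by exact_mod_cast hN
  have hδ0 : 0 < 1 / (8 * (N : ℝ)) := by positivity
  have hδ1 : 1 / (8 * (N : ℝ)) < 1 / 2 := by
    rw [div_lt_div_iff₀ (by positivity) (by norm_num)]
    linarith
  obtain ⟨σ, hσ⟩ := h0 m w k (1 / (8 * N)) hm hw hδ0 hδ1
  obtain ⟨x₁, x₂, θ₁, θ₂, h, hh, g1, g2, g3, g4, g5, g6, hbar⟩ :=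
    H N m w k σ x hN hmN hx0 hx1 hden hσ
  -- bounds of `x`
  have hxl : 1 / (N : ℝ) ≤ x := by
    have h1 : (1 : ℝ) / x.den ≤ x := by
      have h2 : (x : ℝ) = x.num / x.den := by exact_mod_cast (Rat.num_div_den x).symm
      have h3 : (1 : ℝ) ≤ x.num := by exact_mod_cast Rat.num_pos.2 hx0
      rw [h2]
      gcongr
    refine le_trans ?_ h1
    have h2 : (0 : ℝ) < x.den := by exact_mod_cast x.den_pos
    have h3 : (x.den : ℝ) ≤ N := by exact_mod_cast hden
    gcongr
  have hxr : (x : ℝ) ≤ 1 - 1 / N := by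
    have h1 : (1 : ℝ) / x.den ≤ 1 - x := by
      have h2 : (x : ℝ) = x.num / x.den := by exact_mod_cast (Rat.num_div_den x).symm
      have h4 : (0 : ℝ) < x.den := by exact_mod_cast x.den_pos
      have h3 : x.num < x.den := by
        have h5 : (x.num : ℝ) < x.den := by
          have h6 : (x : ℝ) < 1 := by exact_mod_cast hx1
          rw [h2, div_lt_one h4] at h6
          exact h6
        exact_mod_cast h5
      have h5 : (x.num : ℝ) + 1 ≤ x.den := by exact_mod_cast h3
      rw [h2, eq_sub_of_add_eq (show (1 : ℝ) / x.den + x.num / x.den = (x.num + 1) / x.den by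
        ring)]
      have h6 : ((x.num : ℝ) + 1) / x.den ≤ 1 := by
        rw [div_le_one h4]
        exact h5
      linarith
    have h2 : (0 : ℝ) < x.den := by exact_mod_cast x.den_pos
    have h3 : (x.den : ℝ) ≤ N := by exact_mod_cast hden
    have h4 : (1 : ℝ) / N ≤ 1 / x.den := by gcongr
    linarith
  have hsq : 3 / (4 * (N : ℝ) ^ 2) ≤ 3 / 8 * (1 / N) := by
    rw [div_le_iff₀ (by positivity)]
    have : 3 / 8 * (1 / (N : ℝ)) * (4 * N ^ 2) = 3 / 2 * N := by
      field_simp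
      ring
    rw [this]
    linarith
  have h8 : 1 / (8 * (N : ℝ)) = 1 / 8 * (1 / N) := by
    field_simp
  have hN1 : 0 < 1 / (N : ℝ) := by positivity
  have hδx : 1 / (8 * (N : ℝ)) < x₁ := by linarith
  have hxδ : (x₂ : ℝ) < 1 - 1 / (8 * (N : ℝ)) := by linarith
  have hq : 0 < 1 / (4 * (N : ℝ) ^ 2) := by positivity
  have hxx : x₁ < x₂ := by
    have : (x₁ : ℝ) < x₂ := by linarith
    exact_mod_cast this
  have hopen := h7 m w k _ σ x₁ x₂ θ₁ θ₂ h hσ hδx hxx hxδ hh g5 g6
  have hclos := h7' m w k _ σ x₁ x₂ θ₁ θ₂ h hσ hδx hxx hxδ hh g5 g6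
  refine ⟨fun c => c ∈ In m w k σ x₁ x₂ θ₁ θ₂ h, ?_, ?_, ?_⟩
  · intro n hn hnN z hz hex L hL hL0 hLη
    have hnb : z.1 ∉ Bar m w k σ x₁ x₂ θ₁ θ₂ h := by
      intro hb
      have h1 := hbar z.1 hb n z.2 hn hnN hz hex
      rw [show ((z.1, z.2) : ℂ × ℂ) = z from rfl, hL] at h1
      have h2 : 1 / (2 * C * (N : ℝ) ^ j) ≤ 1 := by
        rw [div_le_one (by positivity)]
        have : (1 : ℝ) ≤ N ^ j := one_le_pow₀ (by linarith)
        nlinarith
      have h3 := Complex.norm_exp_sub_one_le (x := L) (hLη.le.trans h2)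
      have h4 : 2 * ‖L‖ < 1 / (C * (N : ℝ) ^ j) := by
        have h5 : 1 / (C * (N : ℝ) ^ j) = 2 * (1 / (2 * C * (N : ℝ) ^ j)) := by
          field_simp
        rw [h5]
        linarith
      linarith
    by_cases hin : z.1 ∈ In m w k σ x₁ x₂ θ₁ θ₂ h
    · filter_upwards [hopen z.1 hin] with c hc
      exact iff_of_true hc hin
    · have hnc : z.1 ∉ closure (In m w k σ x₁ x₂ θ₁ θ₂ h) := fun h9 =>
        (hclos h9).elim hin hnb
      filter_upwards [isClosed_closure.isOpen_compl.mem_nhds hnc] with c hc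
      exact iff_of_false (fun h9 => hc (subset_closure h9)) hin
  · intro c θ hA hnu
    rw [abs_lt] at hnu
    refine Or.inl ⟨θ, ?_, ?_, hA⟩
    · by_contra hcon
      have := Circ.nu_mono w m (not_lt.1 hcon)
      linarith
    · by_contra hcon
      have := Circ.nu_mono w m (not_lt.1 hcon)
      linarith
  · intro c θ hA hnu hin
    have hcM : c ∉ MM := Ang.notMem_MM hA
    rcases hin with ⟨θ', h1, h2, h3⟩ | ⟨h1, -⟩ | ⟨L, h1, h2, h3, h4, h5⟩
    · obtain ⟨l, hl⟩ := Ang.unique hA h3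
      have h4 := hnu l
      rw [← hl] at h4
      have h5 := Circ.nu_mono w m h1.le
      have h6 := Circ.nu_mono w m h2.le
      rw [g5] at h5
      rw [g6] at h6
      have h7 : |Circ.nu w m θ' - (k + x)| ≤ 3 / (4 * (N : ℝ) ^ 2) := by
        rw [abs_le]
        constructor <;> linarith
      linarith
    · exact hcM h1
    · apply hcM
      have hpi := Real.pi_pos
      have hLr : L ∈ rect m (1 / (8 * N)) := by
        refine ⟨h2.trans_lt ?_, ?_, ?_⟩
        · have : (0 : ℝ) < m := by exact_mod_cast hm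
          positivity
        · refine lt_of_le_of_lt ?_ h3
          gcongr
        · refine lt_of_lt_of_le h4 ?_
          gcongr
      rw [← h5]
      refine mem_MM_of_le hm (hσ.sec L hLr).1 ?_
      rw [(hσ.sec L hLr).2, Complex.norm_exp]
      exact Real.exp_le_one_iff.2 h2

end Pri

end Pool.Agent.Work.MLC
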