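import Pool.Agent.Work.MLC.Sat8_69
import Pool.Agent.Work.MLC.SatIn26
import Pool.Agent.Work.MLC.Mconn

set_option autoImplicit false

/-! # Limits of the pairs of one label with rotation number in a compact interval (helper69)

If pairs of `NJ m J` with rotation number in `[x₁, x₂]`, `0 < x₁`, `x₂ < 1`, exist over parameters
tending to `c₀ ∈ MM`, then over `c₀` there is such a pair, or a neutral pair in the closure with
rotation number in `[x₁, x₂]`. -/

namespace Pool.Agent.Work.MLC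

open Filter Topology Metric Set Complex

namespace Sat

/-- PLY: exterior pairs with multiplier close to `1` have rotation number close to an integer -/
theorem ext_near_one {n : ℕ} (hn : 0 < n) {α : ℝ} (hα : 0 < α) :
    ∃ η > 0, ∀ (y : ℂ × ℂ) (L : ℂ) (θ : ℝ) (w : ℕ → ℤ), ExtP n y.1 y.2 θ w → mul n y = exp L →
      ‖L‖ < η → ¬ (α ≤ Int.fract (Circ.nu w n θ) ∧ Int.fract (Circ.nu w n θ) ≤ 1 - α) := by
  have hn' : (1 : ℝ) ≤ n := by exact_mod_cast hn
  obtain ⟨ε, hε, hεb⟩ : ∃ ε : ℝ, 0 < ε ∧ ∀ L : ℂ, ‖L‖ < ε → ‖exp L‖ < 23 / 10 := by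
    have h1 : ∀ᶠ L in 𝓝 (0 : ℂ), ‖exp L‖ < 23 / 10 := by
      have h3 : Continuous fun L : ℂ => ‖exp L‖ := by fun_prop
      refine h3.continuousAt.eventually (gt_mem_nhds ?_)
      simp; norm_num
    obtain ⟨ε, hε, hb⟩ := Metric.eventually_nhds_iff_ball.1 h1
    exact ⟨ε, hε, fun L hL => hb L (by rwa [mem_ball_zero_iff])⟩
  refine ⟨min ε (min α (α ^ 2 / (81 * n))), by positivity, ?_⟩
  intro y L θ w hE hmL hL ⟨hα1, hα2⟩
  have hL1 : ‖L‖ < ε := hL.trans_le (min_le_left _ _)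
  have hL2 : ‖L‖ < α := hL.trans_le ((min_le_right _ _).trans (min_le_left _ _))
  have hL3 : ‖L‖ < α ^ 2 / (81 * n) := hL.trans_le ((min_le_right _ _).trans (min_le_right _ _))
  have h23 : ‖mul n y‖ < 23 / 10 := by rw [hmL]; exact hεb L hL1
  obtain ⟨-, l, hl, hply⟩ := extP_ply hn hE (G_le_four_of_mul_lt hn hE.2.2.1 h23)
  set ν := Circ.nu w n θ with hν
  have h6 : exp l = exp L := by rw [hl, ← hmL]; rfl
  rw [Complex.exp_eq_exp_iff_exists_int] at h6
  obtain ⟨m, hm'⟩ := h6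
  have h7 : l.re = L.re := by rw [hm']; simp
  have h8 : l.im = L.im + 2 * Real.pi * m := by rw [hm']; simp; ring
  have hLre : L.re ≤ α ^ 2 / (81 * n) := (re_le_norm L).trans hL3.le
  have hLim : |L.im| < α := (abs_im_le_norm L).trans_lt hL2
  have h9 : |l.im - 2 * Real.pi * ν| ≤ α := by
    have h10 := abs_im_le_norm (l - 2 * Real.pi * (ν : ℂ) * I)
    have h11 : (l - 2 * Real.pi * (ν : ℂ) * I).im = l.im - 2 * Real.pi * ν := by simp
    rw [h11] at h10
    refine h10.trans ?_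
    refine le_of_sq_le_sq ?_ hα.le
    refine hply.trans ?_
    rw [h7]
    calc 81 * (n : ℝ) * L.re ≤ 81 * n * (α ^ 2 / (81 * n)) := by gcongr
      _ = α ^ 2 := by field_simp
  have h12 : ν = ⌊ν⌋ + Int.fract ν := (Int.floor_add_fract ν).symm
  set f := Int.fract ν with hf
  have h13 : |(⌊ν⌋ : ℝ) + f - m| < α := by
    have h14 : 2 * Real.pi * ((⌊ν⌋ : ℝ) + f - m) =
        L.im - (l.im - 2 * Real.pi * ν) := by rw [h8, ← h12]; ring
    have h15 : 2 * Real.pi * |(⌊ν⌋ : ℝ) + f - m| ≤ |L.im| + |l.im - 2 * Real.pi * ν| := by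
      have h16 := congrArg abs h14
      rw [abs_mul, abs_of_pos (by positivity)] at h16
      rw [h16]
      exact abs_sub _ _
    have := Real.pi_gt_three
    nlinarith [abs_nonneg ((⌊ν⌋ : ℝ) + f - m)]
  have h14 := abs_lt.1 h13
  have h15 : (m : ℝ) < ⌊ν⌋ + 1 := by linarith
  have h16 : (⌊ν⌋ : ℝ) < m := by linarith
  have h17 : m < ⌊ν⌋ + 1 := by exact_mod_cast h15
  have h18 : ⌊ν⌋ < m := by exact_mod_cast h16
  omega

/-- no limit with multiplier `1` -/
theorem no_limit_one {m : ℕ} (hm : 0 < m) {J : Lab m} {x₁ x₂ : ℝ} (h1 : 0 < x₁) (h2 : x₂ < 1)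
    {y₀ : ℂ × ℂ} (hy₀ : mul m y₀ = 1) :
    ¬ ∃ᶠ y in 𝓝 y₀, y ∈ NJ m J ∧ ∃ r, Rt m y r ∧ x₁ ≤ r ∧ r ≤ x₂ := by
  intro hfreq
  set α : ℝ := min (x₁ / 2) ((1 - x₂) / 2) with hα
  have hα0 : 0 < α := lt_min (by linarith) (by linarith)
  have hα1 : α ≤ x₁ / 2 := min_le_left _ _
  have hα2 : α ≤ (1 - x₂) / 2 := min_le_right _ _
  obtain ⟨η, hη, hext⟩ := ext_near_one hm hα0
  obtain ⟨ε, hε, hε1, hεη, hεb⟩ : ∃ ε : ℝ, 0 < ε ∧ ε ≤ 1 ∧ ε ≤ η ∧
      ∀ L : ℂ, ‖L‖ < ε → ‖exp L‖ < 23 / 10 := by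
    have h1 : ∀ᶠ L in 𝓝 (0 : ℂ), ‖exp L‖ < 23 / 10 := by
      have h3 : Continuous fun L : ℂ => ‖exp L‖ := by fun_prop
      refine h3.continuousAt.eventually (gt_mem_nhds ?_)
      simp; norm_num
    obtain ⟨ε, hε, hb⟩ := Metric.eventually_nhds_iff_ball.1 h1
    refine ⟨min ε (min 1 η), by positivity, (min_le_right _ _).trans (min_le_left _ _),
      (min_le_right _ _).trans (min_le_right _ _), fun L hL => hb L ?_⟩
    rw [mem_ball_zero_iff]
    exact hL.trans_le (min_le_left _ _)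
  set B : Set ℂ := ball 0 ε ∩ {L : ℂ | 0 < L.re} with hB
  have hBc : IsPreconnected B :=
    ((convex_ball _ _).inter (convex_halfSpace_re_gt 0)).isPreconnected
  have hBo : IsOpen B := isOpen_ball.inter (isOpen_lt continuous_const continuous_re)
  have hBn : ∀ L ∈ B, ‖L‖ < ε := fun L hL => mem_ball_zero_iff.1 hL.1
  have hBe : ∀ L ∈ B, 1 < ‖exp L‖ := by
    intro L hL
    rw [norm_exp]; exact Real.one_lt_exp_iff.2 hL.2
  -- no exterior pairs
  have hnoext : ∀ (y : ℂ × ℂ) (L : ℂ), L ∈ B → mul m y = exp L → ∀ r, Rt m y r → α ≤ r →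
      r ≤ 1 - α → y.1 ∈ MM := by
    intro y L hL hmL r hr h3 h4
    rcases hr with ⟨θ, w, hE, rfl⟩ | ⟨hM, -⟩
    · exact (hext y L θ w hE hmL ((hBn L hL).trans_le hεη) ⟨h3, h4⟩).elim
    · exact mem_M_iff.2 hM
  -- the logarithm
  have hlog : Tendsto (fun y => Complex.log (mul m y)) (𝓝 y₀) (𝓝 0) := by
    have h3 : ContinuousAt (fun y => Complex.log (mul m y)) y₀ :=
      (continuous_mul' m).continuousAt.clog (by rw [hy₀]; exact one_mem_slitPlane)
    have h4 := h3.tendsto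
    rwa [hy₀, log_one] at h4
  set A : Set (ℂ × ℂ) := {y | y ∈ NJ m J ∧ y.1 ∈ MM ∧ ∃ r, Rt m y r ∧ x₁ / 2 < r ∧
    r < (1 + x₂) / 2} with hA
  have hAP : A ⊆ Per m := fun y hy => hy.1.1
  have hAb : Bornology.IsBounded A := by
    obtain ⟨R, hR⟩ := isCompact_MM.isBounded.exists_norm_le
    refine isBounded_iff_forall_norm_le.2 ⟨max R (1 + R), fun y hy => ?_⟩
    rw [Prod.norm_def]
    refine max_le_max (hR _ hy.2.1) ?_
    exact (norm_le_of_per hm (show (y.1, y.2) ∈ Per m from hy.1.1)).trans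
      (by have := hR _ hy.2.1; linarith)
  have hlogB : ∀ᶠ y in 𝓝 y₀, 1 < ‖mul m y‖ → Complex.log (mul m y) ∈ B ∧
      mul m y = exp (Complex.log (mul m y)) := by
    filter_upwards [hlog.eventually (ball_mem_nhds (0 : ℂ) hε)] with y h3 h4
    have h6 : mul m y ≠ 0 := by
      intro h6
      rw [h6, norm_zero] at h4
      linarith
    refine ⟨⟨h3, ?_⟩, (exp_log h6).symm⟩
    show 0 < (Complex.log (mul m y)).re
    rw [Complex.log_re]
    exact Real.log_pos h4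
  -- a first point
  obtain ⟨y, ⟨hy1, r, hr, hr1, hr2⟩, hy2⟩ := (hfreq.and_eventually hlogB).exists
  obtain ⟨hy3, hy4⟩ := hy2 hy1.2.1
  have hyM : y.1 ∈ MM := hnoext y _ hy3 hy4 r hr (by linarith) (by linarith)
  have hyA : y ∈ A := ⟨hy1, hyM, r, hr, by linarith, by linarith⟩
  have hopen : ∀ y ∈ A, ∀ L ∈ B, mul m y = exp L → ∀ᶠ y' in 𝓝 y, y' ∈ Per m → y' ∈ A := by
    rintro y ⟨hy1, hy2, r, hr, hr1, hr2⟩ L hL hmL
    have hG : G y.1 0 = 0 := mem_M_iff.1 hy2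
    have hexpB : ∀ᶠ y' in 𝓝 y, ∃ L' ∈ B, mul m y' = exp L' := by
      have h3 : ∀ᶠ z in 𝓝 (exp L), ∃ L' ∈ B, z = exp L' := by
        have h4 : exp '' B ∈ 𝓝 (exp L) := by
          have h5 : IsOpenMap (Complex.exp) := Complex.isOpenMap_exp
          exact (h5 B hBo).mem_nhds ⟨L, hL, rfl⟩
        filter_upwards [h4] with z hz
        obtain ⟨L', h6, h7⟩ := hz
        exact ⟨L', h6, h7.symm⟩
      rw [← hmL] at h3
      exact (continuous_mul' m).continuousAt.eventually h3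
    filter_upwards [FF_nhds_gen hm hy1.1 hy1.2.1 hy1.2.2.1, hexpB,
      Rt_nhds hm hy1.1 hy1.2.1 hy1.2.2.1 hr one_pos] with y' h3 h4 h5 h6
    obtain ⟨L', h7, h8⟩ := h4
    obtain ⟨r', -, h9, h10⟩ := h5 h6
    have h11 := h10 hG
    subst h11
    have h12 : 1 < ‖mul m y'‖ := by rw [h8]; exact hBe _ h7
    exact ⟨⟨h6, h12, (h3 h6).2, by rw [(h3 h6).1]; exact hy1.2.2.2⟩,
      hnoext y' L' h7 h8 r' h9 (by linarith) (by linarith), r', h9, hr1, hr2⟩
  have hclM : ∀ y ∈ closure A, y.1 ∈ MM := by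
    intro y hy
    have h3 : IsClosed {y : ℂ × ℂ | y.1 ∈ MM} := isCompact_MM.isClosed.preimage continuous_fst
    exact closure_minimal (fun z hz => hz.2.1) h3 hy
  have hclosed : ∀ y ∈ closure A, ∀ L ∈ B, mul m y = exp L → y ∈ A := by
    intro y hy L hL hmL
    have hP : y ∈ Per m := closure_minimal hAP (isClosed_Per m) hy
    have hρ : 1 < ‖mul m y‖ := by rw [hmL]; exact hBe _ hL
    have hyJ : y ∈ NJ m J := s3_closed m J y hm hP hρ (hclM y hy)
      (closure_mono (fun z hz => hz.1) hy)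
    obtain ⟨r, hr⟩ := exists_Rt hm hyJ.1 hyJ.2.1 hyJ.2.2.1
    have hG : G y.1 0 = 0 := mem_M_iff.1 (hclM y hy)
    rw [mem_closure_iff_frequently] at hy
    obtain ⟨y', h4, h5⟩ := (hy.and_eventually
      (Rt_nhds hm hyJ.1 hyJ.2.1 hyJ.2.2.1 hr one_pos)).exists
    obtain ⟨r', -, h6, h7⟩ := h5 h4.1.1
    obtain ⟨r'', h8, h9, h10⟩ := h4.2.2
    have h11 := h6.unique hm h4.1.1 h4.1.2.1 h8
    refine ⟨hyJ, mem_M_iff.2 hG, r'', ?_, h9, h10⟩
    rw [← h11, h7 hG]; exact hr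
  have hfill := fill hm hBc (fun L hL h => by
    have := hBe L hL
    rw [h, norm_one] at this
    exact lt_irrefl _ this) (fun L hL => hεb L (hBn L hL)) hAP hAb hopen hclosed hyA hy3 hy4
  -- a neutral limit
  have hpi := Real.pi_gt_three
  set φ : ℝ := min (x₁ / 4) (min (ε / (4 * Real.pi)) (1 / 2)) with hφ
  have hφ0 : 0 < φ := by positivity
  have hφ1 : φ < 1 := (min_le_right _ _).trans_lt ((min_le_right _ _).trans_lt (by norm_num))
  have hφ2 : 2 * Real.pi * φ < ε := by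
    have h3 : φ ≤ ε / (4 * Real.pi) := (min_le_right _ _).trans (min_le_left _ _)
    calc 2 * Real.pi * φ ≤ 2 * Real.pi * (ε / (4 * Real.pi)) := by gcongr
      _ = ε / 2 := by field_simp; ring
      _ < ε := by linarith
  have hφ3 : φ < x₁ / 2 := (min_le_left _ _).trans_lt (by linarith)
  obtain ⟨z, hz, hmz⟩ : ∃ y ∈ closure A, mul m y = exp (2 * Real.pi * φ * I) := by
    have hK : IsCompact (closure A) := hAb.isCompact_closure
    have hKm : IsClosed (mul m '' closure A) := (hK.image (continuous_mul' m)).isClosed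
    set t : ℂ := 2 * Real.pi * φ * I with ht
    have htn : ‖t‖ < ε := by
      rw [ht, norm_mul, norm_I, mul_one]
      have : (2 * Real.pi * φ : ℂ) = ((2 * Real.pi * φ : ℝ) : ℂ) := by push_cast; ring
      rw [this, norm_real, Real.norm_of_nonneg (by positivity)]
      exact hφ2
    have htre : t.re = 0 := by simp [ht]
    have h1 : t ∈ closure B := by
      rw [mem_closure_iff_frequently]
      have h2 : Tendsto (fun u : ℝ => (t + u : ℂ)) (𝓝[>] 0) (𝓝 t) := by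
        have h3 : ContinuousAt (fun u : ℝ => (t + u : ℂ)) 0 := by fun_prop
        have h4 := h3.tendsto
        simp only [ofReal_zero, add_zero] at h4
        exact h4.mono_left nhdsWithin_le_nhds
      have h3 : ∀ᶠ u : ℝ in 𝓝[>] 0, (t + u : ℂ) ∈ B := by
        have h4 : t ∈ ball (0 : ℂ) ε := by rwa [mem_ball_zero_iff]
        filter_upwards [h2.eventually (isOpen_ball.mem_nhds h4), self_mem_nhdsWithin] with u h5 h6
        refine ⟨h5, ?_⟩
        show 0 < (t + u : ℂ).re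
        rw [add_re, htre, ofReal_re, zero_add]; exact h6
      exact h2.frequently h3.frequently
    have h2 : exp t ∈ closure (exp '' B) :=
      image_closure_subset_closure_image continuous_exp ⟨_, h1, rfl⟩
    have h3 : exp '' B ⊆ mul m '' closure A := by
      rintro _ ⟨L, hL, rfl⟩
      obtain ⟨y, hy, hmy⟩ := hfill L hL
      exact ⟨y, subset_closure hy, hmy⟩
    exact (closure_minimal h3 hKm) h2
  have hzP : z ∈ Per m := closure_minimal hAP (isClosed_Per m) hz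
  rw [mem_closure_iff_frequently] at hz
  obtain ⟨z', h3, h4⟩ := (hz.and_eventually
    (Rt_neutral hm hzP hφ0 hφ1 hmz (isOpen_Iio (a := x₁ / 2)) hφ3)).exists
  obtain ⟨r, hr, h5⟩ := h4 h3.1.1 h3.1.2.1
  obtain ⟨r', h6, h7, -⟩ := h3.2.2
  rw [h5.unique hm h3.1.1 h3.1.2.1 h6] at hr
  have : r' < x₁ / 2 := hr
  linarith

/-- **limits**: pairs of the label `J` with rotation number in `[x₁, x₂]` over parameters tending
to a point of `MM` have a limit which is a repelling pair of the same kind or a neutral pair with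
rotation number in `[x₁, x₂]` -/
theorem limit_pair {m : ℕ} (hm : 0 < m) {J : Lab m} {x₁ x₂ : ℝ} (h1 : 0 < x₁) (h2 : x₂ < 1)
    {c₀ : ℂ} (hM : c₀ ∈ MM)
    (h : ∃ᶠ c in 𝓝 c₀, ∃ a r, (c, a) ∈ NJ m J ∧ Rt m (c, a) r ∧ x₁ ≤ r ∧ r ≤ x₂) :
    (∃ a r, (c₀, a) ∈ NJ m J ∧ Rt m (c₀, a) r ∧ x₁ ≤ r ∧ r ≤ x₂) ∨
    (∃ (a : ℂ) (φ : ℝ), (c₀, a) ∈ Per m ∧ (c₀, a) ∈ closure (NJ m J) ∧ x₁ ≤ φ ∧ φ ≤ x₂ ∧
      mul m (c₀, a) = exp (2 * Real.pi * φ * I)) := by
  have hG : G c₀ 0 = 0 := mem_M_iff.1 hM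
  set S : Set (ℂ × ℂ) := {y | y.1 ∈ closedBall c₀ 1 ∧ y ∈ NJ m J ∧ ∃ r, Rt m y r ∧ x₁ ≤ r ∧
    r ≤ x₂} with hS
  have hSb : Bornology.IsBounded S := by
    refine isBounded_iff_forall_norm_le.2 ⟨max (‖c₀‖ + 1) (1 + (‖c₀‖ + 1)), fun y hy => ?_⟩
    have h3 : ‖y.1‖ ≤ ‖c₀‖ + 1 := by
      have h4 := hy.1
      rw [mem_closedBall, dist_eq_norm] at h4
      calc ‖y.1‖ = ‖c₀ + (y.1 - c₀)‖ := by ring_nf
        _ ≤ ‖c₀‖ + ‖y.1 - c₀‖ := norm_add_le _ _
        _ ≤ ‖c₀‖ + 1 := by linarith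
    rw [Prod.norm_def]
    refine max_le_max h3 ?_
    exact (norm_le_of_per hm (show (y.1, y.2) ∈ Per m from hy.2.1.1)).trans (by linarith)
  have hK : IsCompact (closure S) := hSb.isCompact_closure
  have hKc : IsClosed (Prod.fst '' closure S) := (hK.image continuous_fst).isClosed
  have hcl : c₀ ∈ closure (Prod.fst '' closure S) := by
    rw [mem_closure_iff_frequently]
    refine (h.and_eventually (closedBall_mem_nhds c₀ one_pos)).mono ?_
    rintro c ⟨⟨a, r, h3, h4⟩, h5⟩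
    exact ⟨(c, a), subset_closure ⟨h5, h3, r, h4⟩, rfl⟩
  rw [hKc.closure_eq] at hcl
  obtain ⟨⟨c, a⟩, hy, hc⟩ := hcl
  simp only at hc
  subst hc
  have hP : (c, a) ∈ Per m := closure_minimal (fun y hy => hy.2.1.1) (isClosed_Per m) hy
  have hJcl : (c, a) ∈ closure (NJ m J) := closure_mono (fun y hy => hy.2.1) hy
  have hfr := mem_closure_iff_frequently.1 hy
  have hρ : 1 ≤ ‖mul m (c, a)‖ := by
    have h3 : IsClosed {y : ℂ × ℂ | 1 ≤ ‖mul m y‖} :=
      isClosed_le continuous_const (continuous_mul' m).norm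
    exact closure_minimal (fun y hy => hy.2.1.2.1.le) h3 hy
  rcases hρ.lt_or_eq with hρ | hρ
  · left
    have hyJ : (c, a) ∈ NJ m J := s3_closed m J _ hm hP hρ hM hJcl
    obtain ⟨r, hr⟩ := exists_Rt hm hyJ.1 hyJ.2.1 hyJ.2.2.1
    obtain ⟨y', h4, h5⟩ := (hfr.and_eventually
      (Rt_nhds hm hyJ.1 hyJ.2.1 hyJ.2.2.1 hr one_pos)).exists
    obtain ⟨r', -, h6, h7⟩ := h5 h4.2.1.1
    obtain ⟨r'', h8, h9, h10⟩ := h4.2.2
    have h11 := h6.unique hm h4.2.1.1 h4.2.1.2.1 h8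
    rw [h7 hG] at h11
    rw [← h11] at h9 h10
    exact ⟨a, r, hyJ, hr, h9, h10⟩
  · right
    -- the argument
    obtain ⟨φ, h0, hφ1, hφ⟩ : ∃ φ : ℝ, 0 ≤ φ ∧ φ < 1 ∧ mul m (c, a) = exp (2 * Real.pi * φ * I) := by
      refine ⟨Int.fract (arg (mul m (c, a)) / (2 * Real.pi)), Int.fract_nonneg _,
        Int.fract_lt_one _, ?_⟩
      have h3 : mul m (c, a) = exp (arg (mul m (c, a)) * I) := by
        conv_lhs => rw [← norm_mul_exp_arg_mul_I (mul m (c, a))]
        rw [← hρ]; simp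
      set t := arg (mul m (c, a)) with ht
      rw [h3, Complex.exp_eq_exp_iff_exists_int]
      refine ⟨⌊t / (2 * Real.pi)⌋, ?_⟩
      have h4 := Int.floor_add_fract (t / (2 * Real.pi))
      have h5 : t = 2 * Real.pi * (⌊t / (2 * Real.pi)⌋ + Int.fract (t / (2 * Real.pi))) := by
        rw [h4]; field_simp
      have h6 : (t : ℂ) = 2 * Real.pi * (⌊t / (2 * Real.pi)⌋ +
          ((Int.fract (t / (2 * Real.pi)) : ℝ) : ℂ)) := by
        exact_mod_cast congrArg (fun z : ℝ => (z : ℂ)) h5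
      linear_combination I * h6
    rcases h0.lt_or_eq with h0 | h0
    · have hmem : φ ∈ Icc x₁ x₂ := by
        by_contra hcon
        have hU : IsOpen (Icc x₁ x₂)ᶜ := isClosed_Icc.isOpen_compl
        obtain ⟨y', h4, h5⟩ := (hfr.and_eventually
          (Rt_neutral hm hP h0 hφ1 hφ hU hcon)).exists
        obtain ⟨r, hr, h6⟩ := h5 h4.2.1.1 h4.2.1.2.1
        obtain ⟨r', h8, h9, h10⟩ := h4.2.2
        rw [h6.unique hm h4.2.1.1 h4.2.1.2.1 h8] at hr
        exact hr ⟨h9, h10⟩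
      exact ⟨a, φ, hP, hJcl, hmem.1, hmem.2, hφ⟩
    · exfalso
      have h3 : mul m (c, a) = 1 := by rw [hφ, ← h0]; simp
      exact no_limit_one hm h1 h2 h3 (hfr.mono fun y hy => ⟨hy.2.1, hy.2.2⟩)

end Sat

end Pool.Agent.Work.MLC
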