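import Pool.Agent.Work.MLC.PriIn57
import Pool.Agent.Work.MLC.PriLim69

set_option autoImplicit false

/-! # The barrier theorem: glue (helper57) -/

namespace Pool.Agent.Work.MLC

open Filter Topology Metric Set Complex

namespace Sat

namespace VDat

theorem limitPair : LimitPair := fun _ hm _ _ _ h1 h2 _ hM h => limit_pair hm h1 h2 hM h

variable {V : VDat}

/-- **off the barrier membership in `InV` is locally constant** -/
theorem Ok.clopen (hV : V.Ok) {c₀ : ℂ} (h : c₀ ∉ V.BarV) :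
    ∀ᶠ c in 𝓝 c₀, (c ∈ V.InV ↔ c₀ ∈ V.InV) := inV_clopen limitPair hV h

/-- exterior parameters with rotation number close to `k₀ + x` are in `InV` -/
lemma Ok.mem_of_nu (hV : V.Ok) {c : ℂ} {θ : ℝ} (h : Ang c θ)
    (h1 : (V.k₀ : ℝ) + V.x₁ < Circ.nu V.w V.m θ) (h2 : Circ.nu V.w V.m θ < V.k₀ + V.x₂) :
    c ∈ V.InV := by
  refine Or.inl (Or.inl ⟨θ, h, ?_, ?_⟩)
  · by_contra hcon
    have := Circ.nu_mono V.w V.m (not_lt.1 hcon)
    rw [hV.nu₁] at this
    linarith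
  · by_contra hcon
    have := Circ.nu_mono V.w V.m (not_lt.1 hcon)
    rw [hV.nu₂] at this
    linarith

/-- exterior parameters of `InV` have a lift with rotation number in `[k₀ + x₁, k₀ + x₂]` -/
lemma Ok.nu_of_mem (hV : V.Ok) {c : ℂ} {θ : ℝ} (h : Ang c θ) (hc : c ∈ V.InV) :
    ∃ m : ℤ, (V.k₀ : ℝ) + V.x₁ ≤ Circ.nu V.w V.m (θ + m) ∧
      Circ.nu V.w V.m (θ + m) ≤ V.k₀ + V.x₂ := by
  have hM : c ∉ MM := not_mem_MM_iff.2 h.1
  rcases hc with (⟨θ', h1, h2, h3⟩ | hc) | hc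
  · obtain ⟨m, hm⟩ := h.unique h1
    have g1 := Circ.nu_mono V.w V.m h2.le
    have g2 := Circ.nu_mono V.w V.m h3.le
    rw [hV.nu₁] at g1
    rw [hV.nu₂] at g2
    refine ⟨m, ?_, ?_⟩
    · rw [← hm]; exact g1
    · rw [← hm]; exact g2
  · exact absurd (InS_sub_MM hV hc) hM
  · exact absurd hc.1 hM

end VDat

end Sat

end Pool.Agent.Work.MLC
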