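import Pool.Agent.Work.MLC.Lab54a
import Pool.Agent.Work.MLC.PriGlue26
import Pool.Agent.Work.MLC.Sat2_51

set_option autoImplicit false

/-! # Adapters for the separation of labels (helper26) -/

namespace Pool.Agent.Work.MLC.Pri

open Filter Topology Metric Set

/-- **left ends are periodic** -/
theorem lep : LEP := by
  intro n w k t hn hw ht
  obtain ⟨i₀, -, h⟩ := exists_LE hn hw ht.1 ht.2
  exact h.per

/-- labels with the same left end modulo one belong to the same cycle -/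
theorem sameCyc_of_mod {n : ℕ} (hn : 0 < n) {w w' : ℕ → ℤ} (hw : Word n w) (hw' : Word n w')
    {k k' : ℤ} {t t' : ℝ} (ht : LeftEnd n w k t) (ht' : LeftEnd n w' k' t') {m : ℤ}
    (h : t = t' + m) : SameCyc w t w' t' := by
  obtain ⟨i₀, hi₀, h1⟩ := exists_LE hn hw ht.1 ht.2
  obtain ⟨i₁, hi₁, h2⟩ := exists_LE hn hw' ht'.1 ht'.2
  -- the parity shift of `v'`
  have hu : ∀ j, ∃ u e : ℤ, (u = 0 ∨ u = 1) ∧ u = w' (i₁ + j) - m + 2 * e := by
    intro j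
    rcases Int.even_or_odd' (w' (i₁ + j) - m) with ⟨a, ha | ha⟩
    · exact ⟨0, -a, Or.inl rfl, by omega⟩
    · exact ⟨1, -a, Or.inr rfl, by omega⟩
  choose u e hu1 hu2 using hu
  have hHO : HO u t t := by
    intro j
    obtain ⟨a, h3, h4⟩ := h2.ho j
    refine ⟨a - e j + 2 ^ j * m, ?_, ?_⟩
    · rw [hu2 j, h]; push_cast; linarith
    · rw [hu2 j, h]; push_cast; linarith
  have h5 := HO.word_eq hu1 h1.word.1 hHO h1.ho
  refine ⟨i₀ + (n - i₁), m, fun j => ?_, h⟩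
  have h6 : ∀ j, Even (w' (i₁ + j) - w (i₀ + j) - m) := by
    intro j
    have h7 := congrFun h5 j
    have h8 := hu2 j
    refine ⟨-e j, ?_⟩
    omega
  have h9 := h6 (n - i₁ + j)
  have h10 : w' (i₁ + (n - i₁ + j)) = w' j := by
    rw [show i₁ + (n - i₁ + j) = j + n by omega]; exact hw'.2.1 j
  rw [h10] at h9
  rw [show i₀ + (n - i₁) + j = i₀ + (n - i₁ + j) by ring]
  exact h9

/-- translation of a label by an integer -/
theorem LeftEnd.trans {n : ℕ} {w : ℕ → ℤ} (hw : Word n w) {k : ℤ} {t : ℝ}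
    (ht : LeftEnd n w k t) (m : ℤ) : ∃ w' k', Word n w' ∧ LeftEnd n w' k' (t - m) := by
  have hpar : ∀ i, Even ((w i + m) % 2 - w i - m) := fun i => ⟨-((w i + m) / 2), by omega⟩
  obtain ⟨K, hK⟩ := nu_parity hpar n
  refine ⟨fun i => (w i + m) % 2, k + K, ⟨fun i => by show (w i + m) % 2 = 0 ∨ (w i + m) % 2 = 1; omega, fun i => ?_, fun d hd hdn => ?_⟩,
    ?_, fun θ hθ => ?_⟩
  · simp only [hw.2.1 i]
  · obtain ⟨i, hi⟩ := hw.2.2 d hd hdn
    refine ⟨i, fun h => hi ?_⟩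
    have h1 := hw.1 i
    have h2 := hw.1 (i + d)
    simp only at h
    omega
  · rw [hK, sub_add_cancel, ht.1]; push_cast; ring
  · rw [hK]
    have := ht.2 (θ + m) (by linarith)
    push_cast
    linarith

lemma InPl.add_int_iff {d : ℕ} {v : ℕ → ℤ} {κ : ℤ} {x : ℚ} {t : ℝ} (m : ℤ) :
    InPl d v κ x (t + m) ↔ InPl d v κ x t := by
  constructor
  · rintro ⟨l, hl⟩
    exact ⟨m + l, by push_cast; rw [← add_assoc]; exact hl⟩
  · rintro ⟨l, hl⟩
    refine ⟨l - m, ?_⟩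
    rw [← hl]; congr 1; push_cast; ring

/-- the core of the separation: normalised left ends, `n ≥ 2` -/
def SEPc (D : ℕ → ℕ) : Prop :=
  ∀ (n : ℕ) (w w' : ℕ → ℤ) (k k' : ℤ) (t t' : ℝ), 2 ≤ n → Word n w → Word n w' →
    LeftEnd n w k t → LeftEnd n w' k' t' → 0 < t → t < 1 → 0 < t' → t' < 1 → t ≠ t' →
    ∃ (d : ℕ) (v : ℕ → ℤ) (κ : ℤ) (x : ℚ), 0 < d ∧ d ≤ D n ∧ Word d v ∧
      0 < x ∧ x < 1 ∧ x.den ≤ D n ∧ Xor (InPl d v κ x t) (InPl d v κ x t')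

/-- a left end of period at least two is not an integer -/
lemma leftEnd_not_int {n : ℕ} (hn : 2 ≤ n) {w : ℕ → ℤ} (hw : Word n w) {k : ℤ} {t : ℝ}
    (ht : LeftEnd n w k t) (m : ℤ) : t ≠ m := by
  intro h
  obtain ⟨i₀, -, h1⟩ := exists_LE (by omega) hw ht.1 ht.2
  have h2 := h1.dvd (d := 1) ⟨m, by rw [h]; ring⟩
  have := Nat.le_of_dvd one_pos h2
  omega

theorem sep_of_core {D : ℕ → ℕ} (h : SEPc D) : SEP D := by
  intro n w w' k k' t t' hn hw hw' ht ht'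
  rcases Nat.lt_or_ge n 2 with h2 | h2
  · -- period one
    left
    have h1 : n = 1 := by omega
    subst h1
    obtain ⟨a, ha⟩ := lep 1 w k t hn hw ht
    obtain ⟨a', ha'⟩ := lep 1 w' k' t' hn hw' ht'
    refine sameCyc_of_mod hn hw hw' ht ht' (m := a - a') ?_
    push_cast
    linarith
  · by_cases hmod : ∃ m : ℤ, t = t' + m
    · obtain ⟨m, hm⟩ := hmod
      exact Or.inl (sameCyc_of_mod hn hw hw' ht ht' hm)
    · right
      obtain ⟨w₁, k₁, hw₁, ht₁⟩ := ht.trans hw ⌊t⌋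
      obtain ⟨w₁', k₁', hw₁', ht₁'⟩ := ht'.trans hw' ⌊t'⌋
      have e1 := Int.floor_le t
      have e2 := Int.lt_floor_add_one t
      have e3 := Int.floor_le t'
      have e4 := Int.lt_floor_add_one t'
      have e5 : t ≠ ⌊t⌋ := leftEnd_not_int h2 hw ht _
      have e6 : t' ≠ ⌊t'⌋ := leftEnd_not_int h2 hw' ht' _
      obtain ⟨d, v, κ, x, h3, h4, h5, h6, h7, h8, h9⟩ := h n w₁ w₁' k₁ k₁' _ _ h2 hw₁ hw₁' ht₁ ht₁'
        (sub_pos.2 (lt_of_le_of_ne e1 e5.symm)) (by linarith)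
        (sub_pos.2 (lt_of_le_of_ne e3 e6.symm)) (by linarith)
        (fun hcon => hmod ⟨⌊t⌋ - ⌊t'⌋, by push_cast; linarith⟩)
      refine ⟨d, v, κ, x, h3, h4, h5, h6, h7, h8, ?_⟩
      have f1 : InPl d v κ x (t - ⌊t⌋) ↔ InPl d v κ x t := by
        rw [← InPl.add_int_iff (t := t - ⌊t⌋) ⌊t⌋, sub_add_cancel]
      have f2 : InPl d v κ x (t' - ⌊t'⌋) ↔ InPl d v κ x t' := by
        rw [← InPl.add_int_iff (t := t' - ⌊t'⌋) ⌊t'⌋, sub_add_cancel]
      rw [f1, f2] at h9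
      exact h9

/-- **the form of helper70** -/
def Sep70 : Prop :=
  ∀ (n : ℕ) (w w' : ℕ → ℤ) (k k' : ℤ) (t t' : ℝ), 2 ≤ n → Word n w → Word n w' →
    LeftEnd n w k t → LeftEnd n w' k' t' → 0 < t → t < 1 → 0 < t' → t' < 1 →
    (∀ S, 0 < S → S < n → ∀ u, Word S u →
      ((∀ a : ℤ, Circ.nu u S t ≠ a) ∨ (∀ a : ℤ, Circ.nu u S t' ≠ a)) →
      Circ.nu u S t = Circ.nu u S t') → t = t'

/-- two angles in `(0, 1)` with an integer translate of one in the strip of the other -/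
lemma no_trans {d : ℕ} {v : ℕ → ℤ} {κ : ℤ} {t s : ℝ} (ht : 0 < t) (ht1 : t < 1) (hs : 0 < s)
    (hs1 : s < 1) (h1 : (κ : ℝ) < Circ.nu v d t) (h2 : Circ.nu v d t < κ + 1) {m : ℤ}
    (h3 : (κ : ℝ) < Circ.nu v d (s + m)) (h4 : Circ.nu v d (s + m) < κ + 1) : m = 0 := by
  have hmono := Circ.nu_mono v d
  by_contra hm
  rcases lt_or_gt_of_ne hm with h | h
  · -- `s + m ≤ 0 < t`
    obtain ⟨a, ha⟩ := nu_intAngle v d 0
    have h5 : (m : ℝ) ≤ -1 := by exact_mod_cast (by omega : m ≤ -1)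
    have h6 := hmono (show s + m ≤ ((0 : ℤ) : ℝ) by push_cast; linarith)
    have h7 := hmono (show ((0 : ℤ) : ℝ) ≤ t by push_cast; linarith)
    rw [ha] at h6 h7
    have h8 : κ < a := by exact_mod_cast h3.trans_le h6
    have h9 : a < κ + 1 := by exact_mod_cast h7.trans_lt h2
    omega
  · obtain ⟨a, ha⟩ := nu_intAngle v d 1
    have h5 : (1 : ℝ) ≤ m := by exact_mod_cast (by omega : (1 : ℤ) ≤ m)
    have h6 := hmono (show t ≤ ((1 : ℤ) : ℝ) by push_cast; linarith)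
    have h7 := hmono (show ((1 : ℤ) : ℝ) ≤ s + m by push_cast; linarith)
    rw [ha] at h6 h7
    have h8 : κ < a := by exact_mod_cast h1.trans_le h6
    have h9 : a < κ + 1 := by exact_mod_cast h7.trans_lt h4
    omega

/-- a separating component of smaller period gives a barrier -/
lemma sep_of_ne {n S : ℕ} (hn : 0 < n) {u : ℕ → ℤ}
    {t t' : ℝ} (hper : ∃ a : ℤ, (2 : ℝ) ^ n * t - t = a) (ht : 0 < t) (ht1 : t < 1)
    (ht' : 0 < t') (ht1' : t' < 1) (hni : ∀ a : ℤ, Circ.nu u S t ≠ a)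
    (hne : Circ.nu u S t ≠ Circ.nu u S t') :
    ∃ (κ : ℤ) (x : ℚ), 0 < x ∧ x < 1 ∧ x.den ≤ n ∧ InPl S u κ x t ∧ ¬ InPl S u κ x t' := by
  obtain ⟨Q, P, hQ, hQn, hP⟩ := Circ.weak_gap u S n hn hper
  set κ := ⌊Circ.nu u S t⌋ with hκ
  have h1 : (κ : ℝ) < Circ.nu u S t := lt_of_le_of_ne (Int.floor_le _) fun h => hni κ h.symm
  have h2 : Circ.nu u S t < κ + 1 := Int.lt_floor_add_one _
  have hQ' : (0 : ℝ) < Q := by exact_mod_cast hQ
  set x : ℚ := (P : ℚ) / Q - κ with hx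
  have hxr : (x : ℝ) = Circ.nu u S t - κ := by rw [hx, hP]; push_cast; ring
  have hx' : x = ((P - κ * Q : ℤ) : ℚ) / ((Q : ℤ) : ℚ) := by
    have : (Q : ℚ) ≠ 0 := by exact_mod_cast hQ.ne'
    rw [hx]; push_cast; field_simp
  refine ⟨κ, x, ?_, ?_, ?_, ⟨0, ?_⟩, ?_⟩
  · have : (0 : ℝ) < x := by rw [hxr]; linarith
    exact_mod_cast this
  · have : (x : ℝ) < 1 := by rw [hxr]; linarith
    exact_mod_cast this
  · have h3 : (x.den : ℤ) ∣ Q := by
      rw [hx', ← Rat.divInt_eq_div]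
      exact Rat.den_dvd _ _
    exact (Nat.le_of_dvd hQ (by exact_mod_cast h3)).trans hQn
  · rw [hxr]; simp
  · rintro ⟨m, hm⟩
    rw [hxr] at hm
    have h3 : Circ.nu u S (t' + m) = Circ.nu u S t := by rw [hm]; ring
    have h4 := no_trans ht ht1 ht' ht1' h1 h2 (m := m) (by rw [h3]; exact h1) (by rw [h3]; exact h2)
    rw [h4] at h3
    simp only [Int.cast_zero, add_zero] at h3
    exact hne h3.symm

theorem sepc_of_70 (h : Sep70) : SEPc (fun n => n) := by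
  intro n w w' k k' t t' hn hw hw' ht ht' h0 h1 h0' h1' hne
  by_contra hcon
  apply hne
  have hn0 : 0 < n := by omega
  refine h n w w' k k' t t' hn hw hw' ht ht' h0 h1 h0' h1' fun S hS hSn u hu hor => ?_
  by_contra hneq
  rcases hor with h2 | h2
  · obtain ⟨κ, x, h3, h4, h5, h6, h7⟩ := sep_of_ne hn0 (lep n w k t hn0 hw ht) h0 h1
      h0' h1' h2 hneq
    exact hcon ⟨S, u, κ, x, hS, hSn.le, hu, h3, h4, h5, Or.inl ⟨h6, h7⟩⟩
  · obtain ⟨κ, x, h3, h4, h5, h6, h7⟩ := sep_of_ne hn0 (lep n w' k' t' hn0 hw' ht')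
      h0' h1' h0 h1 h2 (Ne.symm hneq)
    exact hcon ⟨S, u, κ, x, hS, hSn.le, hu, h3, h4, h5, Or.inr ⟨h6, h7⟩⟩

/-- **adapter**: the separation from helper70's form -/
theorem sep_of_70 (h : Sep70) : SEP (fun n => n) := sep_of_core (sepc_of_70 h)

end Pool.Agent.Work.MLC.Pri
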