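import Pool.Agent.Work.MLC.PriBT57b
import Pool.Agent.Work.MLC.PriSepA26
import Pool.Agent.Work.MLC.PriIDG34
import Pool.Agent.Work.MLC.Sep70C

set_option autoImplicit false

/-! # The barrier theorem without windows, and its glue (helper57)

`BTGP`: the predicate `In` is described only next to the periodic angles. `rootPiece_of_BTGP`: it
gives the limb pieces of all components. `btgp_of_cuts`: it follows from the period lemma and a
bound on the barrier. -/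

namespace Pool.Agent.Work.MLC.Pri

open Filter Topology Metric Set Complex

/-- bound for all cycles of exact period at most `N` -/
def BdK (N : ℕ) (K : ℝ) (c : ℂ) : Prop := ∀ n b, 0 < n → n ≤ N → (c, b) ∈ Per n →
  Exa n (c, b) → mul n (c, b) ≠ 1 ∧ ‖1 / (mul n (c, b) - 1)‖ ≤ K

/-- the sector data of a wide section, depth `h` -/
def vdath (m : ℕ) (w : ℕ → ℤ) (k : ℤ) (σ : ℂ → ℂ × ℂ) (x₁ x₂ θ₁ θ₂ h : ℝ) : Sat.VDat :=
  ⟨m, w, k, σ, D0 m, x₁, x₂, θ₁, θ₂, h⟩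

lemma vdath_ok {m : ℕ} {w : ℕ → ℤ} {k : ℤ} {σ : ℂ → ℂ × ℂ} (hV : Wide m w k σ)
    {x₁ x₂ θ₁ θ₂ h : ℝ} (h0 : 0 < x₁) (h12 : x₁ < x₂) (h1 : x₂ < 1) (hh : 0 < h)
    (hn₁ : Circ.nu w m θ₁ = k + x₁) (hn₂ : Circ.nu w m θ₂ = k + x₂) :
    (vdath m w k σ x₁ x₂ θ₁ θ₂ h).Ok where
  m_pos := hV.pos
  bits := hV.bits
  x₁_pos := h0
  lt := h12
  x₂_lt := h1
  δ_pos := hh
  nu₁ := hn₁
  nu₂ := hn₂
  good := goodDom_D0 hV.pos
  rect := by
    intro L _ h3 h4 h5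
    have hpi := Real.pi_pos
    have h4' : 2 * Real.pi * x₁ ≤ L.im := h4
    have h5' : L.im ≤ 2 * Real.pi * x₂ := h5
    have : 2 * Real.pi * x₂ < 2 * Real.pi * 1 := mul_lt_mul_of_pos_left h1 (by positivity)
    exact strip_mem_D0 hV.pos h3 (lt_of_lt_of_le (by positivity) h4') (by linarith)
  cont := hV.cont
  sec := hV.sec
  lab := by
    intro L hL hre
    exact (hV.lab L hL hre).2 θ₁ (by rw [hn₁]; linarith) (by rw [hn₁]; linarith)

/-- a predicate that is locally constant off a set of bounded parameters -/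
theorem lc_of_bd {N : ℕ} {K : ℝ} (hK : 1 / 2 ≤ K) {P : ℂ → Prop} {B : Set ℂ}
    (hP : ∀ c, c ∉ B → ∀ᶠ c' in 𝓝 c, (P c' ↔ P c)) (hB : ∀ c ∈ B, BdK N K c) {n : ℕ}
    (hn : 0 < n) (hnN : n ≤ N) : LC n (1 / (2 * K)) P := by
  intro z hz hzE L hm hL0 hLη
  refine hP z.1 fun hc => ?_
  obtain ⟨h2, h3⟩ := hB z.1 hc n z.2 hn hnN hz hzE
  have hm' : mul n (z.1, z.2) = exp L := hm
  rw [hm'] at h2 h3
  have hK0 : 0 < K := by linarith
  have hL1 : ‖L‖ ≤ 1 := by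
    refine hLη.le.trans ?_
    rw [div_le_one (by positivity)]
    linarith
  have h4 : ‖exp L - 1‖ ≤ 2 * ‖L‖ := Complex.norm_exp_sub_one_le hL1
  have h5 : 0 < ‖exp L - 1‖ := norm_pos_iff.2 (sub_ne_zero.2 h2)
  rw [norm_div, norm_one, div_le_iff₀ h5] at h3
  have h6 : ‖L‖ * (2 * K) < 1 := by
    rwa [lt_div_iff₀ (by positivity)] at hLη
  nlinarith

/-- a fraction with denominator at most `n` is equal to `κ + y` or far from it -/
lemma gap_frac {n : ℕ} {Q : ℕ} {R : ℤ} (hQ : 0 < Q) (hQn : Q ≤ n) (κ : ℤ) (y : ℚ)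
    (hne : (R : ℝ) / Q ≠ κ + y) : 1 / ((n : ℝ) * y.den) ≤ |(R : ℝ) / Q - (κ + y)| := by
  have hQ' : (0 : ℝ) < Q := by exact_mod_cast hQ
  have hq' : (0 : ℝ) < y.den := by exact_mod_cast y.pos
  have hQn' : (Q : ℝ) ≤ n := by exact_mod_cast hQn
  have hy : (y : ℝ) = (y.num : ℝ) / y.den := by exact_mod_cast (Rat.num_div_den y).symm
  have e : (R : ℝ) / Q - (κ + y) =
      ((R * y.den - (κ * y.den + y.num) * Q : ℤ) : ℝ) / (Q * y.den) := by
    rw [hy]; push_cast; field_simp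
  have hne' : R * y.den - (κ * y.den + y.num) * Q ≠ 0 := by
    intro h0
    apply hne
    have h1 : (R : ℝ) / Q - (κ + y) = 0 := by rw [e, h0]; simp
    linarith
  have h1 : (1 : ℝ) ≤ |((R * y.den - (κ * y.den + y.num) * Q : ℤ) : ℝ)| := by
    exact_mod_cast Int.one_le_abs hne'
  rw [e, abs_div, abs_of_pos (mul_pos hQ' hq')]
  rw [div_le_div_iff₀ (mul_pos (by linarith) hq') (by positivity), one_mul]
  calc (Q : ℝ) * y.den ≤ n * y.den := by gcongr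
    _ ≤ |((R * y.den - (κ * y.den + y.num) * Q : ℤ) : ℝ)| * (n * y.den) := by
      refine le_mul_of_one_le_left ?_ h1
      exact mul_nonneg (by linarith) hq'.le

/-- integer translates of periodic angles -/
lemma per_add_int' {n : ℕ} {t : ℝ} (ht : ∃ a : ℤ, (2 : ℝ) ^ n * t - t = a) (m : ℤ) :
    ∃ a : ℤ, (2 : ℝ) ^ n * (t + m) - (t + m) = a := by
  obtain ⟨a, ha⟩ := ht
  exact ⟨a + (2 ^ n - 1) * m, by push_cast; rw [← ha]; ring⟩

/-- the predicate `In` next to the periodic angles -/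
theorem in_near {N d : ℕ} {v : ℕ → ℤ} {κ : ℤ} {V : Sat.VDat} (hOk : V.Ok) (hVm : V.m = d)
    (hVw : V.w = v) (hVk : V.k₀ = κ) {x x₁ x₂ : ℚ} (hx₁ : V.x₁ = x₁) (hx₂ : V.x₂ = x₂)
    (h1 : x₁ < x) (h2 : x < x₂)
    (hfar : ∀ n t, 0 < n → n ≤ N → (∃ a : ℤ, (2 : ℝ) ^ n * t - t = a) →
      (κ : ℝ) + x₁ ≤ Circ.nu v d t → Circ.nu v d t ≤ κ + x₂ → Circ.nu v d t = κ + x)
    {n : ℕ} (hn : 0 < n) (hnN : n ≤ N) {t : ℝ} (ht : ∃ a : ℤ, (2 : ℝ) ^ n * t - t = a) :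
    ∃ ε > 0, ∀ θ c, t < θ → θ < t + ε → Ang c θ → (c ∈ V.InV ↔ InPl d v κ x t) := by
  have b1 : (x₁ : ℝ) < x := by exact_mod_cast h1
  have b2 : (x : ℝ) < x₂ := by exact_mod_cast h2
  by_cases hI : InPl d v κ x t
  · obtain ⟨m, hm⟩ := hI
    obtain ⟨δ, hδ, hδ'⟩ := exists_delta d v t
      (show (0 : ℝ) < min ((x : ℝ) - x₁) ((x₂ : ℝ) - x) from lt_min (sub_pos.2 b1) (sub_pos.2 b2))
    refine ⟨δ, hδ, fun θ c g1 g2 hA => ⟨fun _ => ⟨m, hm⟩, fun _ => ?_⟩⟩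
    have g3 := hδ' θ (by rw [abs_of_pos (by linarith)]; linarith) m
    rw [hm, abs_lt] at g3
    have g4 := min_le_left ((x : ℝ) - x₁) (x₂ - x)
    have g5 := min_le_right ((x : ℝ) - x₁) (x₂ - x)
    refine hOk.mem_of_nu (hA.add_int m) ?_ ?_
    · rw [hVm, hVw, hVk, hx₁]; linarith
    · rw [hVm, hVw, hVk, hx₂]; linarith
  · set D : ℕ := max x₁.den x₂.den with hD
    have hn' : (0 : ℝ) < n := by exact_mod_cast hn
    have hD0 : (0 : ℝ) < D := by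
      have : 0 < D := lt_of_lt_of_le x₁.pos (le_max_left _ _)
      exact_mod_cast this
    have hg : (0 : ℝ) < 1 / (n * D) := by positivity
    have hgap : ∀ y : ℚ, y.den ≤ D → ∀ m : ℤ, Circ.nu v d (t + m) ≠ κ + y →
        1 / ((n : ℝ) * D) ≤ |Circ.nu v d (t + m) - (κ + y)| := by
      intro y hy m hne
      obtain ⟨Q, R, hQ, hQn, hR⟩ := Circ.weak_gap v d n hn (per_add_int' ht m)
      rw [hR] at hne ⊢
      refine le_trans ?_ (gap_frac hQ hQn κ y hne)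
      have hy0 : (0 : ℝ) < y.den := by exact_mod_cast y.pos
      have hy1 : (y.den : ℝ) ≤ D := by exact_mod_cast hy
      gcongr
    have hout : ∀ m : ℤ, Circ.nu v d (t + m) ≤ κ + x₁ - 1 / (n * D) ∨
        κ + x₂ + 1 / (n * D) ≤ Circ.nu v d (t + m) := by
      intro m
      have hx : Circ.nu v d (t + m) ≠ κ + x := fun h => hI ⟨m, h⟩
      rcases lt_or_ge (Circ.nu v d (t + m)) (κ + x₁) with g | g
      · left
        have := hgap x₁ (le_max_left _ _) m g.ne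
        rw [abs_of_neg (by linarith)] at this
        linarith
      · rcases lt_or_ge (κ + (x₂ : ℝ)) (Circ.nu v d (t + m)) with g' | g'
        · right
          have := hgap x₂ (le_max_right _ _) m g'.ne'
          rw [abs_of_pos (by linarith)] at this
          linarith
        · exact absurd (hfar n _ hn hnN (per_add_int' ht m) g g') hx
    obtain ⟨δ, hδ, hδ'⟩ := exists_delta d v t hg
    refine ⟨δ, hδ, fun θ c g1 g2 hA => ⟨fun hc => ?_, fun h => absurd h hI⟩⟩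
    exfalso
    obtain ⟨m, g3, g4⟩ := hOk.nu_of_mem hA hc
    rw [hVm, hVw, hVk, hx₁] at g3
    rw [hVm, hVw, hVk, hx₂] at g4
    have g5 := hδ' θ (by rw [abs_of_pos (by linarith)]; linarith) m
    rw [abs_lt] at g5
    rcases hout m with g6 | g6 <;> linarith

/-- **the barrier theorem without windows** -/
def BTGP (C₀ : ℝ) (k : ℕ) : Prop :=
  ∀ (N d : ℕ) (v : ℕ → ℤ) (κ : ℤ) (x : ℚ), 0 < N → 0 < d → d ≤ N → Word d v → 0 < x → x < 1 →
    ∃ In : ℂ → Prop, (∀ n, 0 < n → n ≤ N → LC n (1 / (C₀ * N ^ k)) In) ∧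
      ∀ n t, 0 < n → n ≤ N → (∃ a : ℤ, (2 : ℝ) ^ n * t - t = a) →
        ∃ ε > 0, ∀ θ c, t < θ → θ < t + ε → Ang c θ → (In c ↔ InPl d v κ x t)

/-- **the period lemma** (helper54): a periodic angle of rotation number `P/Q` under a component
of period `m` has period more than `(Q - 2) m` -/
def PerL : Prop := ∀ (m n : ℕ) (v : ℕ → ℤ) (κ : ℤ) (y : ℚ) (t : ℝ), 0 < m → Word m v →
  0 < y → y < 1 → 0 < n → (∃ a : ℤ, (2 : ℝ) ^ n * t - t = a) → Circ.nu v m t = κ + y →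
  (y.den - 2) * m < n

/-- **the barrier near `x` with its bound** -/
def CutsK (K : ℕ → ℝ) : Prop := ∀ (N m : ℕ) (w : ℕ → ℤ) (k : ℤ) (σ : ℂ → ℂ × ℂ) (x : ℚ),
  Wide m w k σ → (∀ L ∈ D0 m, Exa m (σ L)) → 0 < N → m ≤ N → 0 < x → x < 1 →
  (x.den - 2) * m < N → ∃ (x₁ x₂ : ℚ) (θ₁ θ₂ h : ℝ), 0 < x₁ ∧ x₁ < x ∧ x < x₂ ∧ x₂ < 1 ∧ 0 < h ∧
    (∀ y : ℚ, x₁ ≤ y → y ≤ x₂ → (y.den - 2) * m < N → y = x) ∧
    Circ.nu w m θ₁ = k + x₁ ∧ Circ.nu w m θ₂ = k + x₂ ∧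
    ∀ c ∈ (vdath m w k σ x₁ x₂ θ₁ θ₂ h).BarV, BdK N (K N) c

/-- **the barrier theorem**, from the period lemma and the bound on the barrier -/
theorem btgp_of_cuts (hP : PerL) {C₀ : ℝ} {k : ℕ} (hC : 1 ≤ C₀)
    (hK : CutsK fun N => C₀ / 2 * (N : ℝ) ^ k) : BTGP C₀ k := by
  intro N d v κ x hN hd hdN hv h0 h1
  have hN1 : (1 : ℝ) ≤ N := by exact_mod_cast hN
  have hNk : (1 : ℝ) ≤ (N : ℝ) ^ k := one_le_pow₀ hN1
  by_cases hx : (x.den - 2) * d < N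
  · obtain ⟨σ, hV, hex⟩ := exists_wide_word hd hv κ
    obtain ⟨x₁, x₂, θ₁, θ₂, h, a1, a2, a3, a4, a5, a6, a7, a8, a9⟩ :=
      hK N d v κ σ x hV hex hN hdN h0 h1 hx
    have b1 : (0 : ℝ) < x₁ := by exact_mod_cast a1
    have b2 : (x₂ : ℝ) < 1 := by exact_mod_cast a4
    have b12 : (x₁ : ℝ) < x₂ := by exact_mod_cast a2.trans a3
    have hOk := vdath_ok hV b1 b12 b2 a5 a7 a8
    refine ⟨fun c => c ∈ (vdath d v κ σ x₁ x₂ θ₁ θ₂ h).InV, fun n hn hnN => ?_,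
      fun n t hn hnN ht => in_near (N := N) (d := d) (v := v) (κ := κ) hOk rfl rfl rfl rfl rfl a2 a3 ?_ hn hnN ht⟩
    · have h2 := lc_of_bd (K := C₀ / 2 * (N : ℝ) ^ k) (by nlinarith)
        (fun c hc => hOk.clopen hc) a9 hn hnN
      have e : 2 * (C₀ / 2 * (N : ℝ) ^ k) = C₀ * N ^ k := by ring
      rwa [e] at h2
    · intro n t hn hnN ht g1 g2
      obtain ⟨Q, R, hQ, -, hR⟩ := Circ.weak_gap v d n hn ht
      set y : ℚ := (R : ℚ) / Q - κ with hy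
      have hy' : Circ.nu v d t = κ + y := by
        rw [hR, hy]; push_cast; ring
      rw [hy'] at g1 g2 ⊢
      have g3 : x₁ ≤ y := by
        have : (x₁ : ℝ) ≤ y := by linarith
        exact_mod_cast this
      have g4 : y ≤ x₂ := by
        have : (y : ℝ) ≤ x₂ := by linarith
        exact_mod_cast this
      have g5 := hP d n v κ y t hd hv (a1.trans_le g3) (g4.trans_lt a4) hn ht hy'
      rw [a6 y g3 g4 (g5.trans_le hnN)]
  · refine ⟨fun _ => False, fun n _ _ z _ _ L _ _ _ => Eventually.of_forall fun _ => Iff.rfl,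
      fun n t hn hnN ht => ⟨1, one_pos, fun θ c _ _ _ => ⟨False.elim, ?_⟩⟩⟩
    rintro ⟨m, hm⟩
    exact hx ((hP d n v κ x (t + m) hd hv h0 h1 hn (per_add_int' ht m) hm).trans_le hnN)

/-! ### the glue -/

/-- **the glue**: attracting points with the same multiplier that are not distinguished by
locally constant predicates have the same parameter -/
theorem same_of_BTGP {C₀ : ℝ} {k : ℕ} {D : ℕ → ℕ} (hBT : BTGP C₀ k) (hSEP : SEP D) (hLEP : LEP)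
    {n N : ℕ} (hn : 0 < n) (hnN : n ≤ N) (hDN : D n ≤ N) {η : ℝ} (hη : η ≤ 1 / (C₀ * N ^ k))
    {Lbl : ℂ × ℂ → ℂ → (ℕ → ℤ) → ℤ → Prop} (hID : ID n η Lbl) {x y : ℂ × ℂ} {L : ℂ}
    (hxP : x ∈ Per n) (hyP : y ∈ Per n) (hx : Exa n x) (hy : Exa n y) (hxL : mul n x = exp L)
    (hyL : mul n y = exp L) (hre : L.re < 0) (hL : ‖L‖ < η)
    (hP : ∀ P : ℂ → Prop, LC n η P → (P x.1 ↔ P y.1)) : x.1 = y.1 := by
  obtain ⟨w, κ₁, hw, hl, hext⟩ := hID.ex x L hxP hx hxL hre hL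
  obtain ⟨w', κ₂, hw', hl', hext'⟩ := hID.ex y L hyP hy hyL hre hL
  obtain ⟨t, ht⟩ := exists_leftEnd hn w κ₁
  obtain ⟨t', ht'⟩ := exists_leftEnd hn w' κ₂
  rcases hSEP n w w' κ₁ κ₂ t t' hn hw hw' ht ht' with hs | ⟨d, v, κ, r, hd, hdD, hv, hr0, hr1,
    -, hX⟩
  · exact hID.same _ _ _ _ _ _ _ _ _ hl hl' ht ht' hs
  · exfalso
    have hN : 0 < N := hn.trans_le hnN
    obtain ⟨In, hLC, hIn⟩ := hBT N d v κ r hN hd (hdD.trans hDN) hv hr0 hr1
    have hLC' : LC n η In := fun z h0 h1 L h2 h3 h4 => hLC n hn hnN z h0 h1 L h2 h3 (h4.trans_le hη)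
    have key : ∀ (x : ℂ × ℂ) (w : ℕ → ℤ) (κ₁ : ℤ) (t : ℝ), Word n w → LeftEnd n w κ₁ t →
        (∀ P : ℂ → Prop, LC n η P → ∀ t, LeftEnd n w κ₁ t → ∀ δ > 0,
          ∃ c θ, Ang c θ ∧ t < θ ∧ θ < t + δ ∧ (P x.1 ↔ P c)) →
        (InPl d v κ r t ↔ In x.1) := by
      intro x w κ₁ t hw ht hext
      obtain ⟨ε, hε, hε'⟩ := hIn n t hn hnN (hLEP n w κ₁ t hn hw ht)
      obtain ⟨c, θ, hA, h1, h2, h3⟩ := hext In hLC' t ht ε hε
      rw [h3]
      exact (hε' θ c h1 h2 hA).symm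
    have h1 := key x w κ₁ t hw ht hext
    have h2 := key y w' κ₂ t' hw' ht' hext'
    have h3 := hP In hLC'
    rcases hX with ⟨h4, h5⟩ | ⟨h4, h5⟩
    · exact h5 (h2.2 (h3.1 (h1.1 h4)))
    · exact h5 (h1.2 (h3.2 (h2.1 h4)))

/-- **one parameter over each attracting multiplier** -/
theorem oneC_of_BTGP {C₀ : ℝ} {k : ℕ} {D : ℕ → ℕ} (hBT : BTGP C₀ k) (hSEP : SEP D) (hLEP : LEP)
    {n N : ℕ} (hn : 0 < n) (hnN : n ≤ N) (hDN : D n ≤ N) {η : ℝ} (hη : η ≤ 1 / (C₀ * N ^ k))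
    (hη2 : η ≤ 1 / 2) {Lbl : ℂ × ℂ → ℂ → (ℕ → ℤ) → ℤ → Prop} (hID : ID n η Lbl) {x₀ : ℂ × ℂ}
    (hx₀ : x₀ ∈ SA n η) (hex : Exa n x₀) : OneC n (QC n η x₀) := by
  have hexQ : ∀ x ∈ QC n η x₀, Exa n x := fun x hx d hd hdn =>
    QC_exact hη2 hx₀ (hex d hd hdn) x hx
  intro x hx y hy h1 hxy
  obtain ⟨-, L, hL, he⟩ := QC_sub hx
  have hre : L.re < 0 := by
    rwa [he, Complex.norm_exp, Real.exp_lt_one_iff] at h1
  exact same_of_BTGP hBT hSEP hLEP hn hnN hDN hη hID (QC_sub hx).1 (QC_sub hy).1 (hexQ x hx)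
    (hexQ y hy) he
    (by rw [← hxy, he]) hre hL.2
    (fun P hP => (hP.const hη2 hx₀ hex x hx).trans (hP.const hη2 hx₀ hex y hy).symm)

/-- the separation theorem of helper70 in the form of the adapter -/
theorem sep70_57 : Sep70 := by
  intro n w w' k k' t t' hn hw hw' ht ht' h0 h1 h0' h1' H
  exact (Sep.sep (by omega) hw hw' h0 h1 h0' h1' ht.1 ht.2 ht'.1 ht'.2
    (fun S hS hSn u hu hor => H S hS hSn u hu hor)).1

/-- **all components**, from the barrier theorem without windows -/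
theorem rootPiece_of_BTGP {C₀ : ℝ} (hC₀ : 1 ≤ C₀) {k : ℕ} (hBT : BTGP C₀ k) :
    RootPiece fun n => 1 / ((4 * C₀) * n ^ k) := by
  have hδ : ∀ n : ℕ, 0 < n → 0 < 1 / ((4 * C₀) * (n : ℝ) ^ k) ∧
      1 / ((4 * C₀) * (n : ℝ) ^ k) ≤ 1 / 4 := by
    intro n hn
    have hn' : (1 : ℝ) ≤ n := by exact_mod_cast hn
    have h1 : (1 : ℝ) ≤ n ^ k := one_le_pow₀ hn'
    refine ⟨by positivity, one_div_le_one_div_of_le (by norm_num) ?_⟩
    nlinarith [mul_le_mul hC₀ h1 (by norm_num) (by linarith)]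
  refine rootPiece_of_clo hδ (cloAll_of_oneC hδ ?_)
  intro n r b x hper hx0 hexp hx2
  have hn : 0 < n := hper.1
  have hn' : (1 : ℝ) ≤ n := by exact_mod_cast hn
  obtain ⟨hδ0, hδ1⟩ := hδ n hn
  have hb : it r n b = b := perN_itH4 hper
  have hnx : ‖axisPt x‖ = 2 * Real.pi * |(x : ℝ)| := by
    have h := LimbData.axisPt_sub x 0
    have h0 : axisPt 0 = 0 := by simp [axisPt]
    rw [h0, sub_zero] at h
    simpa using h
  set η : ℝ := 2 * (1 / ((4 * C₀) * (n : ℝ) ^ k)) with hη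
  have hη0 : 0 < η := by positivity
  have hη2 : η ≤ 1 / 2 := by linarith
  have hSA : (r, b) ∈ SA n η := by
    refine ⟨hb, axisPt x, ⟨?_, ?_⟩, hexp⟩
    · rw [← norm_pos_iff, hnx]
      have : (x : ℝ) ≠ 0 := by exact_mod_cast hx0
      have := Real.pi_pos
      positivity
    · rw [hnx]; linarith
  have hex : Exa n (r, b) := by
    intro d hd hdn h
    have h1 : Function.IsPeriodicPt (f r) d b := h
    have h2 := h1.minimalPeriod_le hd
    rw [hper.2] at h2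
    omega
  obtain ⟨Lbl, hL⟩ := exists_ID n η hn hη0 (by linarith)
  refine oneC_of_BTGP (N := n) hBT (sep_of_70 sep70_57) lep hn le_rfl le_rfl ?_ hη2 hL hSA hex
  rw [hη, mul_one_div, div_le_div_iff₀ (by positivity) (by positivity)]
  have : 0 < C₀ * (n : ℝ) ^ k := by positivity
  nlinarith

end Pool.Agent.Work.MLC.Pri
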