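import Mathlib
import Pool.Agent.Work.MLC.PriC65A
import Pool.Agent.Work.MLC.PlyEnd

set_option autoImplicit false

/-! # A smooth profile and a Landau type bound  (helper65, Lemma C, second version) -/

namespace Pool.Agent.Work.MLC.C65

open Filter Topology Metric Set Complex MeasureTheory

/-! ### the Landau type bound -/

/-- the logarithmic derivative of a zero free injective function on a ball -/
theorem norm_deriv_le_of_zero_free {F : ℂ → ℂ} {z : ℂ} {R : ℝ} (hR : 0 < R)
    (hF : DifferentiableOn ℂ F (ball z R)) (hinj : InjOn F (ball z R))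
    (h0 : ∀ x ∈ ball z R, F x ≠ 0) : ‖deriv F z‖ ≤ 16 * ‖F z‖ / R := by
  have hpi := Real.pi_pos
  have hz0 : 0 < ‖F z‖ := norm_pos_iff.2 (h0 z (mem_ball_self hR))
  set D : ℂ → ℂ := fun x => deriv F x / F x with hD
  have hDc : ContinuousOn D (ball z R) :=
    (hF.deriv isOpen_ball).continuousOn.div hF.continuousOn h0
  -- the bound on smaller balls
  have key : ∀ R', 0 < R' → R' < R → R' * ‖D z‖ ≤ 16 := by
    intro R' hR' hRR
    have hsub : closedBall z R' ⊆ ball z R := closedBall_subset_ball hRR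
    obtain ⟨y, hy, hmax⟩ := (isCompact_closedBall z R').exists_isMaxOn
      ⟨z, mem_closedBall_self hR'.le⟩ (f := fun x => (R' - ‖x - z‖) * ‖D x‖)
      ((by fun_prop : Continuous fun x : ℂ => R' - ‖x - z‖).continuousOn.mul (hDc.mono hsub).norm)
    set m : ℝ := (R' - ‖y - z‖) * ‖D y‖ with hm
    have hmz : R' * ‖D z‖ ≤ m := by
      have := hmax (mem_closedBall_self (x := z) hR'.le)
      simpa using this
    have hle : ∀ x ∈ closedBall z R', (R' - ‖x - z‖) * ‖D x‖ ≤ m := fun x hx => hmax hx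
    rcases le_or_gt m 0 with hm0 | hm0
    · linarith
    refine hmz.trans ?_
    have hyR : 0 < R' - ‖y - z‖ := by
      rw [mem_closedBall, dist_eq_norm] at hy
      refine lt_of_le_of_ne (by linarith) fun h => ?_
      rw [hm, ← h, zero_mul] at hm0
      exact lt_irrefl _ hm0
    set s : ℝ := (R' - ‖y - z‖) / 2 with hs
    have hs0 : 0 < s := by positivity
    have hin : ∀ x ∈ ball y s, x ∈ closedBall z R' ∧ s ≤ R' - ‖x - z‖ := by
      intro x hx
      rw [mem_ball, dist_eq_norm] at hx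
      have h1 : ‖x - z‖ ≤ ‖x - y‖ + ‖y - z‖ := norm_sub_le_norm_sub_add_norm_sub x y z
      rw [mem_closedBall, dist_eq_norm]
      constructor <;> linarith
    have hsubB : ball y s ⊆ ball z R := fun x hx => hsub (hin x hx).1
    have hFB : DifferentiableOn ℂ F (ball y s) := hF.mono hsubB
    have hinjB : InjOn F (ball y s) := hinj.mono hsubB
    have h0B : ∀ x ∈ ball y s, F x ≠ 0 := fun x hx => h0 x (hsubB hx)
    obtain ⟨Φ, hΦ, hΦF⟩ := exists_log_on (convex_ball y s) isOpen_ball hFB.continuousOn h0B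
    have hΦd := Tr.differentiableOn_of_exp isOpen_ball hFB hΦ hΦF
    have hΦ' : ∀ x ∈ ball y s, deriv Φ x = D x := by
      intro x hx
      have h1 : HasDerivAt Φ (deriv Φ x) x :=
        (hΦd.differentiableAt (isOpen_ball.mem_nhds hx)).hasDerivAt
      have h2 : HasDerivAt F (Complex.exp (Φ x) * deriv Φ x) x := by
        refine (h1.cexp).congr_of_eventuallyEq ?_
        filter_upwards [isOpen_ball.mem_nhds hx] with t ht
        exact (hΦF t ht).symm
      rw [hD]
      simp only
      rw [h2.deriv, hΦF x hx, mul_div_assoc, mul_comm, div_mul_cancel₀]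
      exact h0B x hx
    have hosc : ∀ x ∈ ball y s, ∀ x' ∈ ball y s, ‖Φ x - Φ x'‖ < 2 * m := by
      intro x hx x' hx'
      have h1 := (convex_ball y s).norm_image_sub_le_of_norm_deriv_le (f := Φ) (C := m / s)
        (fun t ht => hΦd.differentiableAt (isOpen_ball.mem_nhds ht)) (fun t ht => by
          rw [hΦ' t ht, le_div_iff₀ hs0, mul_comm]
          obtain ⟨h2, h3⟩ := hin t ht
          exact (mul_le_mul_of_nonneg_right h3 (norm_nonneg _)).trans (hle t h2)) hx' hx
      refine h1.trans_lt ?_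
      have h2 : ‖x - x'‖ < 2 * s := by
        rw [mem_ball] at hx hx'
        have := dist_triangle_right x x' y
        rw [← dist_eq_norm]
        linarith
      calc m / s * ‖x - x'‖ < m / s * (2 * s) := by
            apply mul_lt_mul_of_pos_left h2 (by positivity)
        _ = 2 * m := by field_simp
    have hρ : ‖((Real.exp (2 * m) : ℝ) : ℂ)‖ = Real.exp (2 * m) := by
      rw [Complex.norm_real, Real.norm_of_nonneg (Real.exp_pos _).le]
    have h1 : 1 < ‖((Real.exp (2 * m) : ℝ) : ℂ)‖ := by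
      rw [hρ]; exact Real.one_lt_exp_iff.2 (by linarith)
    have hlog : ∀ x ∈ ball y s, Real.log ‖F x‖ = (Φ x).re := fun x hx => by
      rw [← hΦF x hx, Complex.norm_exp, Real.log_exp]
    have hmu : mu (F '' ball y s) ≤ ENNReal.ofReal (2 * Real.pi * (2 * m)) := by
      have h2 := torus_lemma h1 (measurableSet_image (U := ball y s) hFB subset_rfl
        isOpen_ball.measurableSet hinjB) ?_
      · rwa [hρ, Real.log_exp] at h2
      · rintro _ ⟨x, hx, rfl⟩ _ ⟨x', hx', rfl⟩ j hj
        have h3 : ‖F x‖ = Real.exp (2 * m * j) * ‖F x'‖ := by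
          rw [hj, norm_mul, norm_zpow, hρ, ← Real.rpow_intCast, ← Real.exp_mul]
        have h4 : Real.log ‖F x‖ = 2 * m * j + Real.log ‖F x'‖ := by
          rw [h3, Real.log_mul (Real.exp_ne_zero _) (norm_ne_zero_iff.2 (h0B x' hx')), Real.log_exp]
        rw [hlog x hx, hlog x' hx'] at h4
        have h5 : |2 * m * j| < 2 * m := by
          have h6 : 2 * m * j = (Φ x - Φ x').re := by rw [sub_re]; linarith
          rw [h6]
          exact (abs_re_le_norm _).trans_lt (hosc x hx x' hx')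
        rw [abs_mul, abs_of_pos (by linarith : 0 < 2 * m)] at h5
        have h7 : |(j : ℝ)| < 1 := by nlinarith
        have h8 : |j| < 1 := by exact_mod_cast h7
        exact Int.abs_lt_one_iff.1 h8
    have h2 := derBd_mu.le hs0 hFB hinjB h0B hΦ hΦF (by positivity) hmu
    rw [hΦ' y (mem_ball_self hs0), le_div_iff₀ hs0] at h2
    have h3 : ‖D y‖ * s = m / 2 := by rw [hm, hs]; ring
    have h4 : 2 * Real.pi * (2 * m) / Real.pi = 4 * m := by field_simp; ring
    rw [h3, h4] at h2
    have h5 : (m / 2) ^ 2 ≤ 4 * m := by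
      calc (m / 2) ^ 2 ≤ (Real.sqrt (4 * m)) ^ 2 := by gcongr
        _ = 4 * m := Real.sq_sqrt (by linarith)
    nlinarith
  have hDz : R * ‖D z‖ ≤ 16 := by
    by_contra hcon
    push Not at hcon
    have hDpos : 0 < ‖D z‖ := by
      by_contra h
      have : ‖D z‖ = 0 := le_antisymm (not_lt.1 h) (norm_nonneg _)
      rw [this] at hcon
      linarith
    have h1 : 16 / ‖D z‖ < R := by rw [div_lt_iff₀ hDpos]; exact hcon
    have h2 := key ((16 / ‖D z‖ + R) / 2) (by positivity) (by linarith)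
    have h3 : (16 / ‖D z‖ + R) / 2 * ‖D z‖ = (16 + R * ‖D z‖) / 2 := by field_simp
    rw [h3] at h2
    linarith
  rw [hD] at hDz
  simp only at hDz
  rw [norm_div] at hDz
  rw [le_div_iff₀ hR]
  have h1 : R * (‖deriv F z‖ / ‖F z‖) = (R * ‖deriv F z‖) / ‖F z‖ := by ring
  rw [h1, div_le_iff₀ hz0] at hDz
  linarith

/-! ### the smooth profile -/

/-- smooth distance to the `i`-th slit angle -/
noncomputable def q2 (g th : ℝ) (i : ℕ) (x : ℝ) : ℝ :=
  Real.sqrt ((2 ^ i * (g / 2)) ^ 2 + (2 - 2 * Real.cos (x - 2 ^ i * th)))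

variable {g th : ℝ}

lemma q2_arg_pos (hg : 0 < g) (i : ℕ) (x : ℝ) :
    0 < (2 ^ i * (g / 2)) ^ 2 + (2 - 2 * Real.cos (x - 2 ^ i * th)) := by
  have h1 := Real.cos_le_one (x - 2 ^ i * th)
  have : 0 < (2 ^ i * (g / 2)) ^ 2 := by positivity
  linarith

lemma q2_pos (hg : 0 < g) (i : ℕ) (x : ℝ) : 0 < q2 g th i x := Real.sqrt_pos.2 (q2_arg_pos hg i x)

lemma q2_sq (hg : 0 < g) (i : ℕ) (x : ℝ) :
    q2 g th i x ^ 2 = (2 ^ i * (g / 2)) ^ 2 + (2 - 2 * Real.cos (x - 2 ^ i * th)) :=
  Real.sq_sqrt (q2_arg_pos hg i x).le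

lemma q2_per (i : ℕ) (x : ℝ) : q2 g th i (x + 2 * Real.pi) = q2 g th i x := by
  unfold q2
  have : x + 2 * Real.pi - 2 ^ i * th = x - 2 ^ i * th + 2 * Real.pi := by ring
  rw [this, Real.cos_add_two_pi]

lemma hasDerivAt_q2 (hg : 0 < g) (i : ℕ) (x : ℝ) :
    HasDerivAt (q2 g th i) (Real.sin (x - 2 ^ i * th) / q2 g th i x) x := by
  have h1 : HasDerivAt (fun x : ℝ => x - 2 ^ i * th) 1 x := (hasDerivAt_id x).sub_const _
  have h2 := (((h1.cos).const_mul 2).const_sub 2).const_add ((2 ^ i * (g / 2)) ^ 2)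
  have h3 := h2.sqrt (q2_arg_pos (th := th) hg i x).ne'
  refine h3.congr_deriv ?_
  unfold q2
  ring

lemma sin_sq_le (u : ℝ) : Real.sin u ^ 2 ≤ 2 - 2 * Real.cos u := by
  have h1 := Real.sin_sq_add_cos_sq u
  nlinarith [sq_nonneg (1 - Real.cos u)]

lemma q2_deriv_le (hg : 0 < g) (i : ℕ) (x : ℝ) :
    |Real.sin (x - 2 ^ i * th) / q2 g th i x| ≤ 1 := by
  have hq := q2_pos (th := th) hg i x
  rw [abs_div, abs_of_pos hq, div_le_one hq]
  apply abs_le_of_sq_le_sq _ hq.le
  rw [q2_sq hg]
  have := sin_sq_le (x - 2 ^ i * th)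
  have h2 : 0 ≤ (2 ^ i * (g / 2)) ^ 2 := by positivity
  linarith

lemma continuous_q2 (i : ℕ) : Continuous (q2 g th i) := by
  unfold q2
  fun_prop

/-- comparison with the profile of the first version -/
lemma q_le_q2 (hg : 0 < g) (i : ℕ) (x : ℝ) : 2 / Real.pi * q (g / 2) th i x ≤ q2 g th i x := by
  have hpi := Real.pi_pos
  have hpi3 := Real.pi_gt_three
  unfold q
  have hA : 0 ≤ 2 ^ i * (g / 2) := by positivity
  have h1 : 2 / Real.pi * (2 ^ i * (g / 2)) ≤ q2 g th i x := by
    apply Real.le_sqrt_of_sq_le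
    have h2 := Real.cos_le_one (x - 2 ^ i * th)
    have h3 : 2 / Real.pi ≤ 1 := by rw [div_le_one hpi]; linarith
    have h4 : 2 / Real.pi * (2 ^ i * (g / 2)) ≤ 2 ^ i * (g / 2) := mul_le_of_le_one_left hA h3
    have h5 : (2 / Real.pi * (2 ^ i * (g / 2))) ^ 2 ≤ (2 ^ i * (g / 2)) ^ 2 :=
      pow_le_pow_left₀ (by positivity) h4 2
    linarith
  have h2 : 2 / Real.pi * ‖((x - 2 ^ i * th : ℝ) : AddCircle (2 * Real.pi))‖ ≤ q2 g th i x := by
    apply Real.le_sqrt_of_sq_le
    set t : ℝ := x - 2 ^ i * th with ht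
    set k : ℤ := round ((2 * Real.pi)⁻¹ * t) with hk
    set u : ℝ := t - k * (2 * Real.pi) with hu
    have h3 : ‖(t : AddCircle (2 * Real.pi))‖ = |u| := by
      rw [AddCircle.norm_eq, hu, hk]
    have h4 : Real.cos t = Real.cos u := by
      rw [hu, Real.cos_sub_int_mul_two_pi]
    have h5 : |u| ≤ Real.pi := by
      rw [← h3]
      have := AddCircle.norm_le_half_period (2 * Real.pi) (by positivity) (x := (t : AddCircle (2 * Real.pi)))
      rw [abs_of_pos (by positivity)] at this
      linarith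
    have h6 := Real.cos_le_one_sub_mul_cos_sq h5
    rw [h3, mul_pow, sq_abs, h4]
    have h7 : (2 / Real.pi) ^ 2 * u ^ 2 = 2 * (2 / Real.pi ^ 2 * u ^ 2) := by ring
    have h8 : 0 ≤ (2 ^ i * (g / 2)) ^ 2 := by positivity
    rw [h7]
    linarith
  rw [mul_max_of_nonneg _ _ (by positivity)]
  exact max_le h1 h2

/-- the cost of one slit -/
lemma integral_inv_q2_le (hg : 0 < g) (i : ℕ) :
    ∫ x in (0 : ℝ)..(2 * Real.pi), 1 / q2 g th i x ≤
      2 * Real.pi * Real.log (1 + 2 * Real.pi / g) := by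
  have hpi := Real.pi_pos
  have h1 := integral_inv_q_le (g := g / 2) (th := th) (by positivity) i
  have hcq : Continuous fun x => 1 / q (g / 2) th i x :=
    continuous_const.div (continuous_q i) (fun x => (q_pos (by positivity) i x).ne')
  have hcq2 : Continuous fun x => 1 / q2 g th i x :=
    continuous_const.div (continuous_q2 i) (fun x => (q2_pos hg i x).ne')
  have h2 : ∫ x in (0 : ℝ)..(2 * Real.pi), 1 / q2 g th i x ≤
      ∫ x in (0 : ℝ)..(2 * Real.pi), Real.pi / 2 * (1 / q (g / 2) th i x) := by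
    refine intervalIntegral.integral_mono_on (by positivity) (hcq2.intervalIntegrable _ _)
      ((continuous_const.mul hcq).intervalIntegrable _ _) (fun x _ => ?_)
    have h3 := q_pos (g := g / 2) (th := th) (by positivity) i x
    have h4 := q_le_q2 (th := th) hg i x
    have h5 := q2_pos (th := th) hg i x
    have h6 : Real.pi / 2 * (1 / q (g / 2) th i x) = 1 / (2 / Real.pi * q (g / 2) th i x) := by
      field_simp
    rw [h6]
    exact one_div_le_one_div_of_le (by positivity) h4
  rw [intervalIntegral.integral_const_mul] at h2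
  have h7 : Real.pi / (g / 2) = 2 * Real.pi / g := by field_simp
  rw [h7] at h1
  calc _ ≤ Real.pi / 2 * ∫ x in (0 : ℝ)..(2 * Real.pi), 1 / q (g / 2) th i x := h2
    _ ≤ Real.pi / 2 * (4 * Real.log (1 + 2 * Real.pi / g)) := by gcongr
    _ = _ := by ring

/-- the inverse of the smooth profile -/
noncomputable def S (g th : ℝ) (n : ℕ) (x : ℝ) : ℝ :=
  1 / 4 + ∑ i ∈ Finset.range n, 1 / q2 g th i x

/-- the smooth profile -/
noncomputable def rp (g th : ℝ) (n : ℕ) (x : ℝ) : ℝ := 1 / S g th n x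

lemma S_ge (hg : 0 < g) (n : ℕ) (x : ℝ) : 1 / 4 ≤ S g th n x := by
  unfold S
  have : 0 ≤ ∑ i ∈ Finset.range n, 1 / q2 g th i x :=
    Finset.sum_nonneg fun i _ => (by have := q2_pos (th := th) hg i x; positivity)
  linarith

lemma S_pos (hg : 0 < g) (n : ℕ) (x : ℝ) : 0 < S g th n x := by
  have := S_ge (th := th) hg n x
  linarith

lemma rp_pos (hg : 0 < g) (n : ℕ) (x : ℝ) : 0 < rp g th n x := by
  unfold rp
  have := S_pos (th := th) hg n x
  positivity

lemma rp_le (hg : 0 < g) (n : ℕ) (x : ℝ) : rp g th n x ≤ 4 := by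
  unfold rp
  have h1 := S_ge (th := th) hg n x
  have h2 := S_pos (th := th) hg n x
  rw [div_le_iff₀ h2]
  linarith

lemma rp_per (n : ℕ) (x : ℝ) : rp g th n (x + 2 * Real.pi) = rp g th n x := by
  unfold rp S
  simp only [q2_per]

lemma rp_lt_q2 (hg : 0 < g) {n i : ℕ} (hi : i < n) (x : ℝ) : rp g th n x < q2 g th i x := by
  unfold rp
  have h2 := S_pos (th := th) hg n x
  have hq := q2_pos (th := th) hg i x
  have h3 : 1 / q2 g th i x < S g th n x := by
    unfold S
    have := Finset.single_le_sum (f := fun i => 1 / q2 g th i x)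
      (fun j _ => (by have := q2_pos (th := th) hg j x; positivity)) (Finset.mem_range.2 hi)
    linarith
  rw [div_lt_iff₀ h2]
  rw [div_lt_iff₀ hq] at h3
  linarith

/-- at the slits -/
lemma rp_lt_slit (hg : 0 < g) {n i : ℕ} (hi : i < n) {x : ℝ} {k : ℤ}
    (hx : x = 2 ^ i * th + k * (2 * Real.pi)) : rp g th n x < 2 ^ i * (g / 2) := by
  refine (rp_lt_q2 hg hi x).trans_le ?_
  unfold q2
  have h1 : Real.cos (x - 2 ^ i * th) = 1 := by
    have : x - 2 ^ i * th = k * (2 * Real.pi) := by rw [hx]; ring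
    rw [this, Real.cos_int_mul_two_pi]
  rw [h1]
  have h2 : (2 ^ i * (g / 2)) ^ 2 + (2 - 2 * 1) = (2 ^ i * (g / 2)) ^ 2 := by ring
  rw [h2, Real.sqrt_sq (by positivity)]

/-- the derivative of the profile -/
noncomputable def rp' (g th : ℝ) (n : ℕ) (x : ℝ) : ℝ :=
  (∑ i ∈ Finset.range n, (Real.sin (x - 2 ^ i * th) / q2 g th i x) / q2 g th i x ^ 2)
    / S g th n x ^ 2

lemma hasDerivAt_rp (hg : 0 < g) (n : ℕ) (x : ℝ) : HasDerivAt (rp g th n) (rp' g th n x) x := by
  have h1 : HasDerivAt (S g th n)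
      (∑ i ∈ Finset.range n, -((Real.sin (x - 2 ^ i * th) / q2 g th i x) / q2 g th i x ^ 2)) x := by
    have h2 : HasDerivAt (fun x => ∑ i ∈ Finset.range n, 1 / q2 g th i x)
        (∑ i ∈ Finset.range n, -((Real.sin (x - 2 ^ i * th) / q2 g th i x) / q2 g th i x ^ 2)) x := by
      refine HasDerivAt.fun_sum fun i _ => ?_
      have h3 := (hasDerivAt_q2 (th := th) hg i x).inv (q2_pos hg i x).ne'
      have h4 : (fun x => 1 / q2 g th i x) = fun x => (q2 g th i x)⁻¹ := by
        funext x; rw [one_div]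
      rw [h4]
      exact h3.congr_deriv (by ring)
    exact h2.const_add (1 / 4)
  have h2 := h1.inv (S_pos (th := th) hg n x).ne'
  have h3 : rp g th n = fun x => (S g th n x)⁻¹ := by
    funext x; unfold rp; rw [one_div]
  rw [h3]
  refine h2.congr_deriv ?_
  unfold rp'
  rw [Finset.sum_neg_distrib, neg_neg]

lemma abs_rp'_le (hg : 0 < g) (n : ℕ) (x : ℝ) : |rp' g th n x| ≤ 1 := by
  have hS := S_pos (th := th) hg n x
  unfold rp'
  rw [abs_div, abs_of_pos (by positivity : 0 < S g th n x ^ 2), div_le_one (by positivity)]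
  refine (Finset.abs_sum_le_sum_abs _ _).trans ?_
  have h1 : ∀ i ∈ Finset.range n,
      |(Real.sin (x - 2 ^ i * th) / q2 g th i x) / q2 g th i x ^ 2| ≤ (1 / q2 g th i x) ^ 2 := by
    intro i _
    have hq := q2_pos (th := th) hg i x
    rw [abs_div, abs_of_pos (by positivity : 0 < q2 g th i x ^ 2), one_div, inv_pow, ← one_div]
    exact div_le_div_of_nonneg_right (q2_deriv_le hg i x) (by positivity)
  refine (Finset.sum_le_sum h1).trans ?_
  have h2 : ∀ i ∈ Finset.range n, 0 ≤ 1 / q2 g th i x := fun i _ => by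
    have := q2_pos (th := th) hg i x
    positivity
  refine (Finset.sum_sq_le_sq_sum_of_nonneg h2).trans ?_
  apply pow_le_pow_left₀ (Finset.sum_nonneg h2)
  unfold S
  linarith

lemma continuous_S (hg : 0 < g) (n : ℕ) : Continuous (S g th n) := by
  unfold S
  exact continuous_const.add (continuous_finsetSum _ fun i _ =>
    continuous_const.div (continuous_q2 i) fun x => (q2_pos hg i x).ne')

lemma continuous_rp' (hg : 0 < g) (n : ℕ) : Continuous (rp' g th n) := by
  unfold rp'
  refine Continuous.div (continuous_finsetSum _ fun i _ => ?_) ((continuous_S hg n).pow 2)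
    fun x => (pow_pos (S_pos hg n x) 2).ne'
  refine Continuous.div (Continuous.div ?_ (continuous_q2 i) fun x => (q2_pos hg i x).ne')
    ((continuous_q2 i).pow 2) fun x => (pow_pos (q2_pos hg i x) 2).ne'
  fun_prop

lemma continuous_rp (hg : 0 < g) (n : ℕ) : Continuous (rp g th n) := by
  unfold rp
  exact continuous_const.div (continuous_S hg n) fun x => (S_pos hg n x).ne'

/-- the total cost -/
theorem integral_inv_rp_le (hg : 0 < g) (n : ℕ) :
    ∫ x in (0 : ℝ)..(2 * Real.pi), 1 / rp g th n x ≤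
      Real.pi / 2 + n * (2 * Real.pi * Real.log (1 + 2 * Real.pi / g)) := by
  have hpi := Real.pi_pos
  have hcq : ∀ i, Continuous fun x => 1 / q2 g th i x := fun i =>
    continuous_const.div (continuous_q2 i) (fun x => (q2_pos hg i x).ne')
  have h1 : ∀ x, 1 / rp g th n x = 1 / 4 + ∑ i ∈ Finset.range n, 1 / q2 g th i x := fun x => by
    unfold rp
    rw [one_div_one_div]
    rfl
  simp_rw [h1]
  rw [intervalIntegral.integral_add (by simp)
    ((continuous_finsetSum _ fun i _ => hcq i).intervalIntegrable _ _),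
    intervalIntegral.integral_finsetSum fun i _ => (hcq i).intervalIntegrable _ _]
  have h2 : ∑ i ∈ Finset.range n, ∫ x in (0 : ℝ)..(2 * Real.pi), 1 / q2 g th i x
      ≤ ∑ i ∈ Finset.range n, 2 * Real.pi * Real.log (1 + 2 * Real.pi / g) :=
    Finset.sum_le_sum fun i _ => integral_inv_q2_le hg i
  rw [Finset.sum_const, Finset.card_range, nsmul_eq_mul] at h2
  simp only [intervalIntegral.integral_const, sub_zero, smul_eq_mul]
  linarith

end Pool.Agent.Work.MLC.C65
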