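import Mathlib
import Pool.Agent.Work.MLC.PriC65C
import Pool.Agent.Work.MLC.PriC65D
import Pool.Agent.Work.MLC.PriC65E

set_option autoImplicit false

/-! # Lemma C with a linear bound  (helper65)

`|1 / (mul n (c, b) - 1)| ≤ 128 n (1 + |log G c c|)` for `0 < G c c ≤ 4`. -/

namespace Pool.Agent.Work.MLC.C65

open Filter Topology Metric Set Complex MeasureTheory

variable {c : ℂ} {g th : ℝ} {E s h : ℂ → ℂ} {w : ℕ → ℤ} {n : ℕ} {b ρ : ℂ}

/-- the plane minus the first `n` forward images of the ray above the critical value -/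
def Yn (E : ℂ → ℂ) (g th : ℝ) (n : ℕ) : Set ℂ :=
  {z | ∀ i < n, ∀ r : ℝ, g ≤ r → z ≠ E (2 ^ i * (r + th * I))}

lemma Yn_ray {z : ℂ} (hz : z ∈ Yn E g th (n + 1)) : z ∉ ray E g th := by
  rintro ⟨r, hr, h⟩
  exact hz 0 (Nat.succ_pos n) r hr (by simpa using h)

lemma two_pow_re (i : ℕ) (r th : ℝ) : ((2 : ℂ) ^ i * (r + th * I)) =
    ((2 ^ i * r : ℝ) : ℂ) + ((2 ^ i * th : ℝ) : ℂ) * I := by
  push_cast; ring

lemma slit_re (hg : 0 < g) {i : ℕ} {r : ℝ} (hr : g ≤ r) :
    g / 2 < ((2 : ℂ) ^ i * (r + th * I)).re := by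
  rw [two_pow_re, add_re, ofReal_re, re_ofReal_mul, I_re]
  have : (1 : ℝ) ≤ 2 ^ i := one_le_pow₀ (by norm_num)
  nlinarith

lemma Yn_sb (hB : BD c g th E) (hS : SQ c g th E s) {z : ℂ} (hz : z ∈ Yn E g th (n + 1)) (e : ℤ) :
    sb s e z ∈ Yn E g th n := by
  intro i hi r hr h
  have h1 := hS.f_sb (Yn_ray hz) e
  apply hz (i + 1) (by omega) r hr
  rw [← h1, h, ← hB.dbl _ (slit_re hB.pos hr)]
  congr 1
  rw [pow_succ]; ring

lemma G_gcYn (hB : BD c g th E) (hS : SQ c g th E s) (w : ℕ → ℤ) (m : ℕ) {z : ℂ}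
    (hz : z ∈ Yn E g th m) : G c (gc s w m z) = G c z / 2 ^ m := by
  induction m generalizing z with
  | zero => simp [gc_zero]
  | succ m ih =>
    rw [gc_succ, ih (Yn_sb hB hS hz _), hS.G_sb (Yn_ray hz), pow_succ]
    field_simp

lemma it_gcYn (hB : BD c g th E) (hS : SQ c g th E s) (w : ℕ → ℤ) (m : ℕ) {z : ℂ}
    (hz : z ∈ Yn E g th m) : it c m (gc s w m z) = z := by
  induction m generalizing z with
  | zero => rfl
  | succ m ih =>
    rw [gc_succ, it_succ, ih (Yn_sb hB hS hz _), hS.f_sb (Yn_ray hz)]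

lemma differentiableOn_gcYn (hB : BD c g th E) (hS : SQ c g th E s) (w : ℕ → ℤ) (m : ℕ) :
    DifferentiableOn ℂ (gc s w m) (Yn E g th m) := by
  induction m with
  | zero => exact differentiableOn_id
  | succ m ih =>
    exact ih.comp ((hS.differentiableOn_sb _).mono fun z hz => Yn_ray hz)
      (fun z hz => Yn_sb hB hS hz _)

lemma isOpen_Yn (hB : BD c g th E) (n : ℕ) : IsOpen (Yn E g th n) := by
  have hp := hB.pos
  have hGc : Continuous (G c) := continuous_G_right c
  have h1 : Yn E g th n = ⋂ i ∈ Finset.range n,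
      ({z : ℂ | 2 ^ i * g ≤ G c z} ∩ {z | z = E ((G c z : ℝ) + ((2 ^ i * th : ℝ) : ℂ) * I)})ᶜ := by
    ext z
    simp only [Yn, mem_iInter, Finset.mem_range, mem_compl_iff, mem_inter_iff, mem_ofPred_eq,
      not_and]
    constructor
    · intro h i hi h2 h3
      refine h i hi (G c z / 2 ^ i) ?_ ?_
      · rw [le_div_iff₀ (by positivity)]; linarith
      · rw [two_pow_re, mul_div_cancel₀ _ (by positivity)]
        exact h3
    · intro h i hi r hr h2
      have h3 : G c z = 2 ^ i * r := by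
        rw [h2, hB.G_E _ (slit_re hp hr), two_pow_re, add_re, ofReal_re, re_ofReal_mul, I_re]
        ring
      have h4 : (0 : ℝ) < 2 ^ i := by positivity
      refine h i hi (by rw [h3]; nlinarith) ?_
      rw [h3, ← two_pow_re]
      exact h2
  rw [h1]
  refine isOpen_biInter_finset fun i _ => IsClosed.isOpen_compl (self := ?_)
  have hcl : IsClosed {z : ℂ | 2 ^ i * g ≤ G c z} := isClosed_le continuous_const hGc
  have hre : ∀ z ∈ {z : ℂ | 2 ^ i * g ≤ G c z},
      g / 2 < (((G c z : ℝ) : ℂ) + ((2 ^ i * th : ℝ) : ℂ) * I).re := by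
    intro z hz
    rw [add_re, ofReal_re, re_ofReal_mul, I_re]
    have h4 : (1 : ℝ) ≤ 2 ^ i := one_le_pow₀ (by norm_num)
    have h5 : 2 ^ i * g ≤ G c z := hz
    nlinarith
  have hcont : ContinuousOn (fun z : ℂ => z - E ((G c z : ℝ) + ((2 ^ i * th : ℝ) : ℂ) * I))
      {z : ℂ | 2 ^ i * g ≤ G c z} := by
    refine continuousOn_id.sub (hB.continuousOn_E.comp ?_ hre)
    fun_prop
  have h2 := hcont.preimage_isClosed_of_isClosed hcl (isClosed_singleton (x := (0 : ℂ)))
  convert h2 using 1
  ext z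
  simp only [mem_inter_iff, mem_preimage, mem_singleton_iff, mem_ofPred_eq, sub_eq_zero]

lemma Ug_Yn (hB : BD c g th E) (n : ℕ) : Ug c g ⊆ Yn E g th n := by
  intro z hz i hi r hr h
  have h1 : G c z < g := hz
  rw [h, hB.G_E _ (slit_re hB.pos hr), two_pow_re, add_re, ofReal_re, re_ofReal_mul, I_re] at h1
  have h2 : (1 : ℝ) ≤ 2 ^ i := one_le_pow₀ (by norm_num)
  have := hB.pos
  nlinarith

/-- the displacement of the inverse branch -/
noncomputable def Df (s : ℂ → ℂ) (w : ℕ → ℤ) (n : ℕ) (z : ℂ) : ℂ := z - gc s w n z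

lemma Df_ne_zero (hB : BD c g th E) (hS : SQ c g th E s) (hK : KD c g s w n b ρ h) (hn : 1 ≤ n)
    {z : ℂ} (hz : z ∈ Yn E g th n) (hzb : z ≠ b) : Df s w n z ≠ 0 := by
  intro h0
  have h1 : gc s w n z = z := (sub_eq_zero.1 h0).symm
  have h2 := G_gcYn hB hS w n hz
  rw [h1, eq_div_iff (by positivity)] at h2
  have h3 : (2 : ℝ) ≤ 2 ^ n := by
    calc (2 : ℝ) = 2 ^ 1 := by norm_num
      _ ≤ 2 ^ n := pow_le_pow_right₀ (by norm_num) hn
  have h4 := G_nonneg c z
  have h5 : G c z = 0 := by nlinarith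
  have hzU : z ∈ Ug c g := by
    show G c z < g
    rw [h5]; exact hB.pos
  have h6 := hK.koe z hzU
  rw [h1] at h6
  have hρ := hK.rho_ne
  have hρ1 : ρ ≠ 1 := by
    intro h7
    have := hK.one_lt
    rw [h7, norm_one] at this
    exact lt_irrefl _ this
  have h8 : h z * (ρ - 1) = 0 := by
    field_simp at h6
    linear_combination h6
  have h9 : h z = 0 := (mul_eq_zero.1 h8).resolve_right (sub_ne_zero.2 hρ1)
  exact hzb (hK.inj hzU hK.b_mem (h9.trans hK.zero.symm))

lemma hasDerivAt_gc_b (hB : BD c g th E) (hS : SQ c g th E s) (hK : KD c g s w n b ρ h) :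
    HasDerivAt (gc s w n) (1 / ρ) b := by
  have hY := isOpen_Yn (th := th) hB n
  have hb : b ∈ Yn E g th n := Ug_Yn hB n hK.b_mem
  have h1 : HasDerivAt (gc s w n) (deriv (gc s w n) b) b :=
    ((differentiableOn_gcYn hB hS w n).differentiableAt (hY.mem_nhds hb)).hasDerivAt
  have h2 : HasDerivAt (it c n) ρ (gc s w n b) := by
    rw [hK.fix, hK.rho, ext_deriv_it]
    exact ext_hasDerivAt_it n c b
  have h3 := h2.comp b h1
  have h4 : HasDerivAt (fun z : ℂ => z) (ρ * deriv (gc s w n) b) b := by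
    refine h3.congr_of_eventuallyEq ?_
    filter_upwards [hY.mem_nhds hb] with z hz
    exact (it_gcYn hB hS w n hz).symm
  have h5 : ρ * deriv (gc s w n) b = 1 := h4.unique (hasDerivAt_id b)
  have h6 : deriv (gc s w n) b = 1 / ρ := by
    rw [eq_div_iff hK.rho_ne, mul_comm]; exact h5
  rwa [h6] at h1

lemma differentiableOn_Df (hB : BD c g th E) (hS : SQ c g th E s) :
    DifferentiableOn ℂ (Df s w n) (Yn E g th n) :=
  differentiableOn_id.sub (differentiableOn_gcYn hB hS w n)

lemma deriv_Df (hB : BD c g th E) (hS : SQ c g th E s) (hK : KD c g s w n b ρ h) :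
    deriv (Df s w n) b = 1 - 1 / ρ :=
  ((hasDerivAt_id b).sub (hasDerivAt_gc_b hB hS hK)).deriv

lemma one_sub_inv_ne (hK : KD c g s w n b ρ h) : 1 - 1 / ρ ≠ 0 := by
  have hρ := hK.rho_ne
  intro h0
  have h1 : ρ = 1 := by
    field_simp at h0
    linear_combination h0
  have := hK.one_lt
  rw [h1, norm_one] at this
  exact lt_irrefl _ this

/-! ### the curve -/

/-- the profile point -/
noncomputable def zt (g th : ℝ) (n : ℕ) (x : ℝ) : ℂ := ((g / 2 + rp g th n x : ℝ) : ℂ) + x * I

lemma zt_re (x : ℝ) : (zt g th n x).re = g / 2 + rp g th n x := by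
  unfold zt; rw [add_re, ofReal_re, re_ofReal_mul, I_re]; ring

lemma zt_im (x : ℝ) : (zt g th n x).im = x := by
  unfold zt; rw [add_im, ofReal_im, im_ofReal_mul, I_im]; ring

lemma zt_mem (hg : 0 < g) (x : ℝ) : g / 2 < (zt g th n x).re := by
  rw [zt_re]
  have := rp_pos (th := th) hg n x
  linarith

lemma hasDerivAt_zt (hg : 0 < g) (x : ℝ) :
    HasDerivAt (zt g th n) ((rp' g th n x : ℂ) + I) x := by
  have h1 := ((hasDerivAt_rp (th := th) hg n x).const_add (g / 2)).ofReal_comp
  have h2 := ((hasDerivAt_id x).ofReal_comp).mul_const I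
  have h3 := h1.add h2
  refine (h3.congr_deriv (by simp)).congr_of_eventuallyEq (Eventually.of_forall fun y => ?_)
  simp [zt]

lemma zt_per (x : ℝ) : zt g th n (x + 2 * Real.pi) = zt g th n x + 2 * Real.pi * I := by
  unfold zt
  rw [rp_per]
  push_cast; ring

section Curve

variable (hB : BD c g th E) (hS : SQ c g th E s) (hK : KD c g s w n b ρ h)

include hB in
lemma curve_mem (x : ℝ) : E (zt g th n x) ∈ Yn E g th n := by
  intro i hi r hr h
  have hp := hB.pos
  obtain ⟨k, hk⟩ := hB.inj _ _ (zt_mem hp x) (slit_re hp hr) h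
  have e1 := congrArg Complex.re hk
  have e2 := congrArg Complex.im hk
  rw [two_pow_re, zt_re] at e1
  rw [two_pow_re, zt_im] at e2
  simp only [add_re, add_im, ofReal_re, ofReal_im, mul_re, mul_im, I_re, I_im, intCast_re,
    intCast_im, re_ofNat, im_ofNat, mul_zero, mul_one, zero_mul, sub_zero, add_zero, zero_add] at e1 e2
  have h1 := rp_lt_slit (th := th) hp hi e2
  have h2 : (1 : ℝ) ≤ 2 ^ i := one_le_pow₀ (by norm_num)
  nlinarith

include hB in
lemma hasDerivAt_curve (x : ℝ) : HasDerivAt (fun x => E (zt g th n x))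
    (deriv E (zt g th n x) * ((rp' g th n x : ℂ) + I)) x := by
  have ho : IsOpen {z : ℂ | g / 2 < z.re} := isOpen_lt continuous_const continuous_re
  have h1 : HasDerivAt E (deriv E (zt g th n x)) (zt g th n x) :=
    (hB.hol.differentiableAt (ho.mem_nhds (zt_mem hB.pos x))).hasDerivAt
  exact HasDerivAt.comp x h1 (hasDerivAt_zt hB.pos x)

include hB in
lemma continuous_zt : Continuous (zt g th n) :=
  continuous_iff_continuousAt.2 fun x => (hasDerivAt_zt hB.pos x).continuousAt

include hB in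
lemma continuous_curve' : Continuous fun x =>
    deriv E (zt g th n x) * ((rp' g th n x : ℂ) + I) := by
  have ho : IsOpen {z : ℂ | g / 2 < z.re} := isOpen_lt continuous_const continuous_re
  refine Continuous.mul ?_ ?_
  · exact (hB.hol.deriv ho).continuousOn.comp_continuous (continuous_zt hB)
      (fun x => zt_mem hB.pos x)
  · exact (continuous_ofReal.comp (continuous_rp' hB.pos n)).add continuous_const

include hB in
lemma curve_per (x : ℝ) : E (zt g th n (x + 2 * Real.pi)) = E (zt g th n x) := by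
  rw [zt_per, hB.per _ (zt_mem hB.pos x)]

include hB in
lemma continuous_curve : Continuous fun x => E (zt g th n x) :=
  continuous_iff_continuousAt.2 fun x => (hasDerivAt_curve hB x).continuousAt

include hB hS in
/-- the displacement is at least comparable to the derivative times the profile -/
lemma deriv_le_Df (hn : 1 ≤ n) (x : ℝ) :
    ‖deriv E (zt g th n x)‖ ≤ 32 * ‖Df s w n (E (zt g th n x))‖ / rp g th n x := by
  have hp := hB.pos
  have hr := rp_pos (th := th) hp n x
  have hr4 := rp_le (th := th) hp n x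
  have ho : IsOpen {z : ℂ | g / 2 < z.re} := isOpen_lt continuous_const continuous_re
  set ζ := zt g th n x with hζ
  set r := rp g th n x with hrdef
  have hre : ζ.re = g / 2 + r := zt_re x
  set v : ℂ := gc s w n (E ζ) with hv
  have hball : ∀ z ∈ ball ζ (r / 2), g / 2 + r / 2 < z.re := by
    intro z hz
    rw [mem_ball, dist_eq_norm] at hz
    have h1 := (abs_re_le_norm _).trans_lt hz
    rw [sub_re, hre, abs_lt] at h1
    linarith [h1.1]
  have hsub : ball ζ (r / 2) ⊆ {z : ℂ | g / 2 < z.re} := fun z hz => by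
    have := hball z hz
    show g / 2 < z.re
    linarith
  have hG : G c v ≤ (g / 2 + r) / 2 := by
    rw [hv, G_gcYn hB hS w n (curve_mem hB x), hB.G_E _ (zt_mem hp x), ← hζ, hre]
    have h3 : (2 : ℝ) ≤ 2 ^ n := by
      calc (2 : ℝ) = 2 ^ 1 := by norm_num
        _ ≤ 2 ^ n := pow_le_pow_right₀ (by norm_num) hn
    exact div_le_div_of_nonneg_left (by positivity) (by norm_num) h3
  have h1 := norm_deriv_le_of_zero_free (F := fun z => E z - v) (z := ζ) (R := r / 2)
    (by positivity) ((hB.hol.mono hsub).sub_const v) ?_ ?_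
  · have h2 : deriv (fun z => E z - v) ζ = deriv E ζ := by
      rw [deriv_sub_const]
    rw [h2] at h1
    refine h1.trans (le_of_eq ?_)
    unfold Df
    rw [← hv]
    field_simp
    ring
  · intro z hz z' hz' he
    have he' : E z = E z' := sub_left_injective he
    obtain ⟨k, hk⟩ := hB.inj z z' (hsub hz) (hsub hz') he'
    have hd : ‖z - z'‖ < 4 := by
      have h4 := dist_triangle_right z z' ζ
      rw [mem_ball] at hz hz'
      rw [← dist_eq_norm]
      linarith
    have h5 : ‖z - z'‖ = |(k : ℝ)| * (2 * Real.pi) := by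
      rw [hk, add_sub_cancel_left]
      simp [abs_of_pos Real.pi_pos]
    have h6 : k = 0 := by
      by_contra hk0
      have h7 : (1 : ℝ) ≤ |(k : ℝ)| := by exact_mod_cast Int.one_le_abs hk0
      have h8 := Real.pi_gt_three
      nlinarith
    rw [hk, h6]; simp
  · intro z hz h0
    have h2 : E z = v := sub_eq_zero.1 h0
    have h3 := hB.G_E z (hsub hz)
    rw [h2] at h3
    have h4 := hball z hz
    linarith

include hB in
/-- winding number zero about the slits -/
lemma wd_out {y : ℂ} (hy : y ∉ Yn E g th n) : Wd (fun x => E (zt g th n x) - y) 0 := by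
  have hp := hB.pos
  have hcc := continuous_curve (th := th) (n := n) hB
  obtain ⟨i, hi, r, hr, rfl⟩ : ∃ i < n, ∃ r : ℝ, g ≤ r ∧ y = E (2 ^ i * (r + th * I)) := by
    unfold Yn at hy
    simp only [mem_ofPred_eq, not_forall, not_not] at hy
    obtain ⟨i, hi, r, hr, h⟩ := hy
    exact ⟨i, hi, r, hr, h⟩
  obtain ⟨M, hM⟩ : ∃ M : ℝ, ∀ x, ‖E (zt g th n x)‖ ≤ M := by
    obtain ⟨M, hM⟩ := (isCompact_Icc (a := (0 : ℝ)) (b := 2 * Real.pi)).exists_bound_of_continuousOn
      hcc.continuousOn
    refine ⟨M, fun x => ?_⟩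
    have hper : Function.Periodic (fun x => E (zt g th n x)) (2 * Real.pi) := curve_per hB
    obtain ⟨y, hy, hxy⟩ := hper.exists_mem_Ico₀ (by positivity) x
    rw [hxy]
    exact hM y (Ico_subset_Icc_self hy)
  -- a point of the ray far away
  obtain ⟨A, hA⟩ := (isCompact_closedBall (0 : ℂ) M).exists_bound_of_continuousOn
    (f := G c) (continuous_G_right c).continuousOn
  set T : ℝ := |A| + 1 with hT
  have hT0 : 0 < T := by positivity
  have h1i : (1 : ℝ) ≤ 2 ^ i := one_le_pow₀ (by norm_num)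
  have hfar : M < ‖E (2 ^ i * (((r + |T| : ℝ) : ℂ) + th * I))‖ := by
    by_contra hcon
    push Not at hcon
    have h1 := hA _ (mem_closedBall_zero_iff.2 hcon)
    rw [hB.G_E _ (slit_re hp (by rw [abs_of_pos hT0]; linarith)), two_pow_re, add_re, ofReal_re,
      re_ofReal_mul, I_re, abs_of_pos hT0, Real.norm_eq_abs] at h1
    have h2 := le_abs_self A
    have h3 := le_abs_self (2 ^ i * (r + T) + 2 ^ i * th * 0)
    nlinarith
  have hst := wd_far hcc (curve_per hB) hM hfar
  have := wd_homotopy (H := fun t x => E (zt g th n x) -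
    E (2 ^ i * (((r + |t| : ℝ) : ℂ) + th * I))) (a := T) (k := 0) ?_ ?_ ?_ hst 0
  · simpa using this
  · refine (hcc.comp continuous_snd).sub ?_
    refine hB.continuousOn_E.comp_continuous (by fun_prop) (fun p => slit_re hp ?_)
    have := abs_nonneg p.1
    linarith
  · intro t x
    exact sub_ne_zero.2 (curve_mem hB x i hi _ (by have := abs_nonneg t; linarith))
  · intro t x
    simp only [curve_per hB]

include hB in
/-- winding number one about the points of potential zero -/
lemma wd_in {y : ℂ} (hy : G c y = 0) : Wd (fun x => E (zt g th n x) - y) 1 := by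
  have hp := hB.pos
  have h0 := hB.wd_sub (r := g) (by linarith) (w := y) (by rw [hy]; exact hp)
  set τ : ℝ → ℝ := fun t => max 0 (min t 1) with hτ
  have hτ0 : ∀ t, 0 ≤ τ t := fun t => le_max_left _ _
  have hτ1 : ∀ t, τ t ≤ 1 := fun t => max_le zero_le_one (min_le_right _ _)
  have hτc : Continuous τ := by fun_prop
  set ℓ : ℝ → ℝ → ℝ := fun t x => g / 2 + ((1 - τ t) * (g / 2) + τ t * rp g th n x) with hℓ
  have hpos : ∀ t x, 0 < (1 - τ t) * (g / 2) + τ t * rp g th n x := by
    intro t x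
    have h1 := rp_pos (th := th) hp n x
    rcases (hτ0 t).eq_or_lt with h2 | h2
    · rw [← h2]; linarith
    · have h3 : 0 ≤ (1 - τ t) * (g / 2) := mul_nonneg (by linarith [hτ1 t]) (by linarith)
      have h4 : 0 < τ t * rp g th n x := mul_pos h2 h1
      linarith
  have hre : ∀ t x, g / 2 < ((ℓ t x : ℂ) + x * I).re := by
    intro t x
    rw [add_re, ofReal_re, re_ofReal_mul, I_re, hℓ]
    simp only
    linarith [hpos t x]
  have hrc := continuous_rp (th := th) hp n
  have h1 := wd_homotopy (H := fun t x => E ((ℓ t x : ℂ) + x * I) - y) (a := 0) (k := 1) ?_ ?_ ?_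
    ?_ 1
  · refine h1.congr fun x => ?_
    have h2 : τ 1 = 1 := by simp [hτ]
    have h3 : ((ℓ 1 x : ℂ) + x * I) = zt g th n x := by
      rw [hℓ]
      simp only
      rw [h2]
      unfold zt
      push_cast; ring
    rw [h3]
  · refine Continuous.sub ?_ continuous_const
    refine hB.continuousOn_E.comp_continuous ?_ (fun p => hre _ _)
    simp only [hℓ]
    fun_prop
  · intro t x h2
    have h3 := hB.G_E _ (hre t x)
    rw [sub_eq_zero.1 h2, hy] at h3
    have := hre t x
    linarith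
  · intro t x
    have h2 : ℓ t (x + 2 * Real.pi) = ℓ t x := by rw [hℓ]; simp only; rw [rp_per]
    simp only [h2]
    congr 1
    rw [← hB.per _ (hre t x)]
    congr 1
    push_cast; ring
  · refine h0.congr fun x => ?_
    have h2 : τ 0 = 0 := by simp [hτ]
    have h3 : ℓ 0 x = g := by rw [hℓ]; simp only; rw [h2]; ring
    simp only [h3]
    rfl

include hB hS hK in
/-- **the residue** -/
theorem norm_residue_le (hn : 1 ≤ n) (hb : G c b = 0) :
    ‖1 / (1 - 1 / ρ)‖ ≤ 12 + 48 * n * Real.log (1 + 2 * Real.pi / g) := by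
  have hp := hB.pos
  have hpi := Real.pi_pos
  have hY := isOpen_Yn (th := th) hB n
  have hbY : b ∈ Yn E g th n := Ug_Yn hB n hK.b_mem
  have hDd : DifferentiableOn ℂ (Df s w n) (Yn E g th n) := differentiableOn_Df hB hS
  have hDb : Df s w n b = 0 := by unfold Df; rw [hK.fix, sub_self]
  have hne : ∀ z ∈ Yn E g th n, dslope (Df s w n) b z ≠ 0 := by
    intro z hz
    by_cases hzb : z = b
    · rw [hzb, dslope_same, deriv_Df hB hS hK]
      exact one_sub_inv_ne hK
    · rw [dslope_of_ne _ hzb, slope_def_field, hDb, sub_zero]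
      exact div_ne_zero (Df_ne_zero hB hS hK hn hz hzb) (sub_ne_zero.2 hzb)
  have hq : DifferentiableOn ℂ (fun z => (dslope (Df s w n) b z)⁻¹) (Yn E g th n) :=
    ((differentiableOn_dslope (hY.mem_nhds hbY)).2 hDd).inv hne
  have hmain := dixon hY (γ := fun x => E (zt g th n x)) (hasDerivAt_curve hB)
    (continuous_curve' hB) (curve_per hB) (curve_mem hB) (fun y hy => wd_out hB hy) hq hbY
    (wd_in hB hb)
  simp only [dslope_same, deriv_Df hB hS hK] at hmain
  have hγb : ∀ x, E (zt g th n x) ≠ b := fun x => sub_ne_zero.1 ((wd_in hB hb).ne_zero x)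
  have hbound : ∀ x, ‖(dslope (Df s w n) b (E (zt g th n x)))⁻¹ / (E (zt g th n x) - b) *
      (deriv E (zt g th n x) * ((rp' g th n x : ℂ) + I))‖ ≤ 48 * (1 / rp g th n x) := by
    intro x
    have h1 := sub_ne_zero.2 (hγb x)
    have h2 := Df_ne_zero hB hS hK hn (curve_mem hB x) (hγb x)
    have h3 : (dslope (Df s w n) b (E (zt g th n x)))⁻¹ / (E (zt g th n x) - b)
        = 1 / Df s w n (E (zt g th n x)) := by
      rw [dslope_of_ne _ (hγb x), slope_def_field, hDb, sub_zero]
      field_simp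
    rw [h3, norm_mul, norm_mul, norm_div, norm_one]
    have hr := rp_pos (th := th) hp n x
    have h4 := deriv_le_Df (w := w) hB hS hn x
    have h5 : 0 < ‖Df s w n (E (zt g th n x))‖ := norm_pos_iff.2 h2
    have h6 : ‖((rp' g th n x : ℂ) + I)‖ ≤ 3 / 2 := by
      have h7 := abs_rp'_le (th := th) hp n x
      apply le_of_sq_le_sq _ (by norm_num)
      rw [Complex.sq_norm, normSq_apply]
      simp only [add_re, ofReal_re, I_re, add_zero, add_im, ofReal_im, I_im, zero_add]
      rw [abs_le] at h7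
      nlinarith
    calc 1 / ‖Df s w n (E (zt g th n x))‖ * (‖deriv E (zt g th n x)‖ * ‖((rp' g th n x : ℂ) + I)‖)
        ≤ 1 / ‖Df s w n (E (zt g th n x))‖ *
          ((32 * ‖Df s w n (E (zt g th n x))‖ / rp g th n x) * (3 / 2)) := by
          gcongr
      _ = 48 * (1 / rp g th n x) := by field_simp; norm_num
  have hcr : Continuous fun x => 48 * (1 / rp g th n x) :=
    continuous_const.mul (continuous_const.div (continuous_rp hp n)
      fun x => (rp_pos hp n x).ne')
  have h1 : ‖2 * (Real.pi : ℂ) * I * (1 - 1 / ρ)⁻¹‖ ≤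
      ∫ x in (0 : ℝ)..(2 * Real.pi), 48 * (1 / rp g th n x) := by
    rw [← hmain]
    exact intervalIntegral.norm_integral_le_of_norm_le (by positivity)
      (Eventually.of_forall fun x _ => hbound x) (hcr.intervalIntegrable _ _)
  rw [intervalIntegral.integral_const_mul] at h1
  have h2 := integral_inv_rp_le (th := th) hp n
  have h3 : ‖2 * (Real.pi : ℂ) * I * (1 - 1 / ρ)⁻¹‖ = 2 * Real.pi * ‖1 / (1 - 1 / ρ)‖ := by
    rw [norm_mul, norm_mul, norm_mul, norm_I, mul_one, one_div (1 - 1 / ρ), Complex.norm_ofNat, norm_real,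
      Real.norm_eq_abs, abs_of_pos hpi]
  rw [h3] at h1
  have h4 : 2 * Real.pi * ‖1 / (1 - 1 / ρ)‖ ≤
      2 * Real.pi * (12 + 48 * n * Real.log (1 + 2 * Real.pi / g)) := by
    calc _ ≤ 48 * ∫ x in (0 : ℝ)..(2 * Real.pi), 1 / rp g th n x := h1
      _ ≤ 48 * (Real.pi / 2 + n * (2 * Real.pi * Real.log (1 + 2 * Real.pi / g))) := by gcongr
      _ = _ := by ring
  exact le_of_mul_le_mul_left h4 (by positivity)

end Curve

lemma log_le_of {g : ℝ} (hg : 0 < g) (hg4 : g ≤ 4) :
    Real.log (1 + 2 * Real.pi / g) ≤ 19 / 8 + |Real.log g| := by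
  have hpi := Real.pi_pos
  have h1 : 1 + 2 * Real.pi / g = (g + 2 * Real.pi) / g := by field_simp
  rw [h1, Real.log_div (by positivity) hg.ne']
  have h2 : g + 2 * Real.pi ≤ 2 ^ 3 * (9 / 7) := by
    have := Real.pi_lt_d4
    norm_num
    linarith
  have h3 := Real.log_le_log (by positivity) h2
  rw [Real.log_mul (by norm_num) (by norm_num), Real.log_pow] at h3
  have h4 := Real.log_two_lt_d9
  have h5 := Real.log_le_sub_one_of_pos (x := 9 / 7) (by norm_num)
  have h6 := neg_abs_le (Real.log g)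
  norm_num at h3 h5 ⊢
  linarith

/-- **Lemma C, linear form.**  Also with any divisor of the period in the place of `n`. -/
theorem norm_inv_le_lin {n : ℕ} (hn : 0 < n) {c b : ℂ} (hc : 0 < G c c) (hc4 : G c c ≤ 4)
    (hb : it c n b = b) :
    ‖1 / (mul n (c, b) - 1)‖ ≤ 128 * n * (1 + |Real.log (G c c)|) := by
  obtain ⟨θ, hθ⟩ := exists_ang hc
  obtain ⟨w, h⟩ := exists_extP_word hn hθ hb
  have hB := h.ang.BD
  obtain ⟨sq, hS⟩ := exists_SQ hB
  obtain ⟨hgc, hbU⟩ := h.data hn hS
  obtain ⟨hk, hK⟩ := exists_KD hB hS hn h.2.2.2.1.per hbU hgc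
  have h1 := norm_residue_le hB hS hK hn (G_zero_of_per hn hb)
  rw [ext_deriv_it] at h1
  have h2 := one_lt_norm_mult_of_ext hn hc hb
  have hρ0 : mult n c b ≠ 0 := by
    intro h3
    rw [h3, norm_zero] at h2
    linarith
  have hρ1 : mult n c b - 1 ≠ 0 := by
    intro h3
    rw [sub_eq_zero.1 h3, norm_one] at h2
    exact lt_irrefl _ h2
  have h3 : 1 / (mul n (c, b) - 1) = 1 / (1 - 1 / mult n c b) - 1 := by
    rw [← mult_eq_mul]
    have h4 : 1 - 1 / mult n c b = (mult n c b - 1) / mult n c b := by field_simp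
    rw [h4]
    field_simp
    ring
  have h4 : ‖1 / (mul n (c, b) - 1)‖ ≤ 13 + 48 * n * Real.log (1 + 2 * Real.pi / G c c) := by
    rw [h3]
    refine (norm_sub_le _ _).trans ?_
    rw [norm_one]
    linarith
  refine h4.trans ?_
  have h5 := log_le_of hc hc4
  have hn1 : (1 : ℝ) ≤ n := by exact_mod_cast hn
  have h6 : 48 * (n : ℝ) * Real.log (1 + 2 * Real.pi / G c c) ≤
      48 * n * (19 / 8 + |Real.log (G c c)|) := by gcongr
  have h7 := abs_nonneg (Real.log (G c c))
  nlinarith [mul_nonneg (by linarith : (0 : ℝ) ≤ n) h7]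

end Pool.Agent.Work.MLC.C65
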