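import Pool.Agent.Work.MLC.PriBarE49c
import Pool.Agent.Work.MLC.PriC65F

set_option autoImplicit false

/-! # The two cuts with small exponents, part 4: the constants (helper49) -/

namespace Pool.Agent.Work.MLC.Pri

open Filter Topology Metric Set Complex

/-- the reference bound (helper65, E1) -/
theorem refAll {N : ℕ} (hN : 0 < N) : RefAll N (2 * 10 ^ 6 * (N : ℝ) ^ 4) := by
  intro g hg hg4 hlog n c b hn hnN hc hc4 hb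
  have hN1 : (1 : ℝ) ≤ N := by exact_mod_cast hN
  have hn1 : (1 : ℝ) ≤ n := by exact_mod_cast hn
  have hnN' : (n : ℝ) ≤ N := by exact_mod_cast hnN
  have hG : 0 < G c c := hg.trans_le hc
  refine (C65.norm_inv_le_lin hn hG hc4 hb).trans ?_
  have h4 : Real.log 4 ≤ 2 := by
    rw [Real.log_le_iff_le_exp (by norm_num)]
    have h5 : Real.exp 2 = Real.exp 1 * Real.exp 1 := by rw [← Real.exp_add]; norm_num
    have h6 := Real.exp_one_gt_d9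
    rw [h5]; nlinarith
  have h1 : |Real.log (G c c)| ≤ 14000 * (N : ℝ) ^ 3 + 2 := by
    rw [abs_le] at hlog ⊢
    constructor
    · have := Real.log_le_log hg hc
      linarith [hlog.1]
    · have h5 := Real.log_le_log hG hc4
      have : (0 : ℝ) ≤ (N : ℝ) ^ 3 := by positivity
      linarith
  have h3 : (1 : ℝ) ≤ (N : ℝ) ^ 3 := one_le_pow₀ hN1
  calc 128 * (n : ℝ) * (1 + |Real.log (G c c)|) ≤ 128 * N * (1 + (14000 * (N : ℝ) ^ 3 + 2)) := by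
        gcongr
    _ ≤ 128 * N * (14003 * (N : ℝ) ^ 3) := by gcongr; linarith
    _ = 1792384 * (N : ℝ) ^ 4 := by ring
    _ ≤ _ := by
      have : (0 : ℝ) ≤ (N : ℝ) ^ 4 := by positivity
      linarith

/-- the constant of the barrier -/
lemma KE_le {N : ℕ} (hN : 0 < N) : KE N (2 * 10 ^ 6 * (N : ℝ) ^ 4) ≤ 10 ^ 11 * (N : ℝ) ^ 5 := by
  have hN1 : (1 : ℝ) ≤ N := by exact_mod_cast hN
  have h3 : (N : ℝ) ^ 3 ≤ (N : ℝ) ^ 4 := pow_le_pow_right₀ hN1 (by norm_num)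
  have h4 : (1 : ℝ) ≤ (N : ℝ) ^ 4 := one_le_pow₀ hN1
  have h6 : (1 : ℝ) ≤ (N : ℝ) ^ 5 := one_le_pow₀ hN1
  have h36 : (N : ℝ) ^ 3 ≤ (N : ℝ) ^ 5 := pow_le_pow_right₀ hN1 (by norm_num)
  unfold KE
  calc 4224 * (N : ℝ) * (9 * (2 * 10 ^ 6 * (N : ℝ) ^ 4) + 6 + 432 * (N : ℝ) ^ 3) + 1 +
        1728 * (N : ℝ) ^ 3
      ≤ 4224 * (N : ℝ) * (9 * (2 * 10 ^ 6 * (N : ℝ) ^ 4) + 6 * (N : ℝ) ^ 4 +
        432 * (N : ℝ) ^ 4) + (N : ℝ) ^ 5 + 1728 * (N : ℝ) ^ 5 := by gcongr; linarith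
    _ = (4224 * (18 * 10 ^ 6 + 438) + 1729) * (N : ℝ) ^ 5 := by ring
    _ ≤ _ := by
      have : (0 : ℝ) ≤ (N : ℝ) ^ 5 := by positivity
      gcongr
      norm_num

lemma den_le_MM' {N m : ℕ} (hm : 0 < m) {q : ℕ} (h : (q - 2) * m < N) : q ≤ MM' N m := by
  have h1 : q - 2 ≤ N / m := (Nat.le_div_iff_mul_le hm).2 h.le
  unfold MM'; omega

/-- **the two cuts, final form** -/
theorem cutsE {N m : ℕ} {w : ℕ → ℤ} {k : ℤ} {σ : ℂ → ℂ × ℂ} (hV : Wide m w k σ)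
    (hex : ∀ L ∈ D0 m, Exa m (σ L)) (hE3 : RepE N) (hN : 0 < N) (hmN : m ≤ N) {x : ℚ}
    (h0 : 0 < x) (h1 : x < 1) (hx : (x.den - 2) * m < N) :
    ∃ (x₁ x₂ : ℚ) (θ₁ θ₂ h : ℝ), 0 < x₁ ∧ x₁ < x ∧ x < x₂ ∧ x₂ < 1 ∧ 0 < h ∧
      (∀ y : ℚ, x₁ ≤ y → y ≤ x₂ → (y.den - 2) * m < N → y = x) ∧
      Circ.nu w m θ₁ = k + x₁ ∧ Circ.nu w m θ₂ = k + x₂ ∧
      ∀ c ∈ (vdatE m w k σ x₁ x₂ θ₁ θ₂ h).BarV, BdE N (10 ^ 11 * (N : ℝ) ^ 5) c := by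
  have hm := hV.pos
  obtain ⟨x₁, x₂, θ₁, θ₂, a1, a2, a3, a4, a5, a6, a7, a8, a9, a10⟩ :=
    barE hV hex hE3 (by positivity) (refAll hN) hmN h0 h1 (den_le_MM' hm hx)
  have hM : (0 : ℝ) < ((MM' N m : ℕ) : ℝ) := by
    have := two_le_MM' N m
    exact_mod_cast (by omega : 0 < MM' N m)
  have hQ : (0 : ℝ) < x.den := by exact_mod_cast x.pos
  refine ⟨x₁, x₂, θ₁, θ₂, 1 / ((x.den : ℝ) * ((MM' N m : ℕ) : ℝ)), a1, a2, a3, a4, by positivity,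
    ?_, a8, a9, ?_⟩
  · intro y hy1 hy2 hy
    exact a7 y (den_le_MM' hm hy) (by exact_mod_cast hy1) (by exact_mod_cast hy2)
  · intro c hc n b hn hnN hb hex
    obtain ⟨h5, h6⟩ := a10 c hc n b hn hnN hb hex
    exact ⟨h5, h6.trans (KE_le hN)⟩

end Pool.Agent.Work.MLC.Pri
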