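import Pool.Agent.Work.MLC.PriBT57c
import Pool.Agent.Work.MLC.PriBarE49d
import Pool.Agent.Work.MLC.PerL54

set_option autoImplicit false

/-! # The limb pieces with small exponents: the assembly (helper57) -/

namespace Pool.Agent.Work.MLC.Pri

open Filter Topology Metric Set Complex

theorem perL_all : PerL := fun _ _ _ _ _ _ h1 h2 h3 h4 h5 h6 h7 => perL54 h1 h2 h3 h4 h5 h6 h7

theorem cutsK_of_repE (hE3 : ∀ N, 0 < N → RepE N) :
    CutsK fun N => 2 * 10 ^ 11 / 2 * (N : ℝ) ^ 5 := by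
  intro N m w k σ x hV hex hN hmN h0 h1 hx
  obtain ⟨x₁, x₂, θ₁, θ₂, h, a1, a2, a3, a4, a5, a6, a7, a8, a9⟩ :=
    cutsE hV hex (hE3 N hN) hN hmN h0 h1 hx
  refine ⟨x₁, x₂, θ₁, θ₂, h, a1, a2, a3, a4, a5, a6, a7, a8, fun c hc => ?_⟩
  have h2 := a9 c hc
  have e : (2 * 10 ^ 11 / 2 * (N : ℝ) ^ 5) = 10 ^ 11 * (N : ℝ) ^ 5 := by ring
  show BdK N (2 * 10 ^ 11 / 2 * (N : ℝ) ^ 5) c
  rw [e]
  exact h2

theorem btgp_of_repE (hE3 : ∀ N, 0 < N → RepE N) : BTGP (2 * 10 ^ 11) 5 :=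
  btgp_of_cuts perL_all (by norm_num) (cutsK_of_repE hE3)

/-- **all components**, exponent five -/
theorem rootPieceE_of_repE (hE3 : ∀ N, 0 < N → RepE N) :
    RootPiece fun n => 1 / ((8 * 10 ^ 11) * n ^ 5) := by
  have h := rootPiece_of_BTGP (by norm_num) (btgp_of_repE hE3)
  have e : (4 * (2 * 10 ^ 11) : ℝ) = 8 * 10 ^ 11 := by norm_num
  rwa [e] at h

end Pool.Agent.Work.MLC.Pri
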