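import Pool.Agent.Work.MLC.PriHar51
import Pool.Agent.Work.MLC.SatCircA
import Pool.Agent.Work.MLC.Sat3
import Pool.Agent.Work.MLC.NV2
import Pool.Agent.Work.MLC.NV1
import Pool.Agent.Work.MLC.Rot51
import Pool.Agent.Work.MLC.RotX13c
import Pool.Agent.Work.MLC.Sat7
import Pool.Agent.Work.MLC.SatInj51

set_option autoImplicit false

/-! # Problem P: the period constraint (helper51)

If `c` has an attracting cycle of exact period `n`, then the rotation number of every repelling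
periodic point has denominator at most `n`. -/

namespace Pool.Agent.Work.MLC.PriPer

open Filter Topology Metric Set Complex

/-! ### circle part -/

/-- an orbit in the open half circles is stable -/
theorem op_stable {w : ℕ → ℤ} {θ x : ℝ} {n : ℕ} (h : ∀ i < n, Circ.Op w θ x i) :
    ∀ i ≤ n, ∀ᶠ θ' in 𝓝 θ, Circ.gw w θ' i x = Circ.gw w θ i x := by
  intro i
  induction i with
  | zero => intro _; exact Eventually.of_forall fun θ' => by simp
  | succ i ih =>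
    intro hi
    obtain ⟨k, hk1, hk2⟩ := h i (by omega)
    have h1 : ∀ᶠ θ' in 𝓝 θ, (θ' + w i) / 2 + k < Circ.gw w θ i x := by
      have hc : Continuous fun θ' : ℝ => (θ' + w i) / 2 + k := by fun_prop
      exact (hc.tendsto θ).eventually (gt_mem_nhds hk1)
    have h2 : ∀ᶠ θ' in 𝓝 θ, Circ.gw w θ i x < (θ' + w i) / 2 + k + 1 / 2 := by
      have hc : Continuous fun θ' : ℝ => (θ' + w i) / 2 + k + 1 / 2 := by fun_prop
      exact (hc.tendsto θ).eventually (lt_mem_nhds hk2)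
    filter_upwards [ih (by omega), h1, h2] with θ' h3 h4 h5
    rw [Circ.gw_succ_apply, Circ.gw_succ_apply, h3, Circ.tdbl_lin k h4.le h5.le,
      Circ.tdbl_lin k hk1.le hk2.le]

/-- an end of an integer plateau is periodic -/
theorem end_periodic {w : ℕ → ℤ} {θ : ℝ} {n : ℕ} (hn : 0 < n) {k : ℤ}
    (hk : Circ.nu w n θ = k) (hfr : ∃ᶠ θ' in 𝓝 θ, Circ.nu w n θ' ≠ k) :
    ∃ a : ℤ, (2 : ℝ) ^ n * θ - θ = a := by
  have h1 : ∃ x, (Circ.gw w θ n ^ 1) x = x + k :=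
    (Circ.nu_eq_rat_iff w n θ 1 one_pos k).1 (by rw [hk]; simp)
  rw [pow_one] at h1
  obtain ⟨x, hx, -, h2 | h2⟩ := Circ.exists_cl hn h1
  · exfalso
    have h3 := op_stable h2 n le_rfl
    obtain ⟨θ', h4, h5⟩ := (hfr.and_eventually h3).exists
    apply h4
    have h6 : ∃ x, (Circ.gw w θ' n ^ 1) x = x + k := ⟨x, by rw [pow_one, h5, hx]⟩
    have h7 := (Circ.nu_eq_rat_iff w n θ' 1 one_pos k).2 h6
    rw [h7]; simp
  · exact h2

lemma finite_bits {n : ℕ} (hn : 0 < n) : {w : ℕ → ℤ | Bits n w}.Finite := by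
  refine (Set.finite_range fun v : Fin n → Bool =>
    fun i : ℕ => if v ⟨i % n, Nat.mod_lt _ hn⟩ then (1 : ℤ) else 0).subset ?_
  intro w hw
  refine ⟨fun i => decide (w i = 1), ?_⟩
  funext i
  have h1 : ∀ k j : ℕ, w (j + n * k) = w j := by
    intro k
    induction k with
    | zero => intro j; simp
    | succ k ih => intro j; rw [Nat.mul_succ, ← add_assoc, hw.per, ih]
  have h2 : w (i % n) = w i := by
    conv_rhs => rw [← Nat.mod_add_div i n]
    exact (h1 _ _).symm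
  simp only [h2]
  rcases hw.bit i with h | h <;> simp [h]

/-- pigeonhole for sequences -/
lemma pigeon {α : Type*} {S : Set α} (hS : S.Finite) {f : ℕ → α} (hf : ∀ j, f j ∈ S) :
    ∃ y ∈ S, ∃ᶠ j in atTop, f j = y := by
  by_contra hno
  have h1 : ∀ᶠ j in atTop, ∀ y ∈ S, f j ≠ y := by
    rw [hS.eventually_all]
    intro y hy
    exact not_frequently.1 fun h => hno ⟨y, hy, h⟩
  obtain ⟨j, hj⟩ := h1.exists
  exact hj _ (hf j) rfl

/-- a convergent sequence of integers shifted by convergent numbers -/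
lemma int_limit {a : ℕ → ℤ} {e : ℕ → ℝ} {A E : ℝ} (h1 : Tendsto (fun j => (a j : ℝ) + e j) atTop (𝓝 A))
    (h2 : Tendsto e atTop (𝓝 E)) : ∃ k : ℤ, A = k + E ∧ ∀ᶠ j in atTop, a j = k := by
  have h3 : Tendsto (fun j => (a j : ℝ)) atTop (𝓝 (A - E)) := by
    have := h1.sub h2
    simpa using this
  have hcl : A - E ∈ range ((↑) : ℤ → ℝ) :=
    Int.isClosedEmbedding_coe_real.isClosed_range.mem_of_tendsto h3
      (Eventually.of_forall fun j => ⟨a j, rfl⟩)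
  obtain ⟨k, hk⟩ := hcl
  refine ⟨k, by linarith, ?_⟩
  have h4 : ∀ᶠ j in atTop, |(a j : ℝ) - (A - E)| < 1 := by
    have := h3.eventually (Metric.ball_mem_nhds _ one_pos)
    filter_upwards [this] with j hj
    have h5 : dist ((a j : ℝ)) (A - E) < 1 := hj
    rwa [Real.dist_eq] at h5
  filter_upwards [h4] with j hj
  rw [← hk] at hj
  have h5 : |a j - k| < 1 := by exact_mod_cast hj
  have := Int.abs_lt_one_iff.1 h5
  omega

/-- **circle part of the period constraint** -/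
theorem circle_den {n d : ℕ} (hn : 0 < n) (hd : 0 < d) {y : ℚ}
    (h : ∀ δ > 0, ∃ φ : ℝ, 0 < φ ∧ φ < δ ∧ ∀ ε > 0, ∃ (θ : ℝ) (w w' : ℕ → ℤ), 0 ≤ θ ∧ θ ≤ 1 ∧
      Bits n w ∧ Bits d w' ∧ |Int.fract (Circ.nu w n θ) - φ| < ε ∧
      ∃ k : ℤ, Circ.nu w' d θ = y + k) : y.den ≤ n := by
  have hex : ∀ j : ℕ, ∃ (θ : ℝ) (p : (ℕ → ℤ) × (ℕ → ℤ)), θ ∈ Icc (0 : ℝ) 1 ∧
      p ∈ {w | Bits n w} ×ˢ {w | Bits d w} ∧ 0 < Int.fract (Circ.nu p.1 n θ) ∧
      Int.fract (Circ.nu p.1 n θ) < 2 * (1 / ((j : ℝ) + 1)) ∧ ∃ k : ℤ, Circ.nu p.2 d θ = y + k := by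
    intro j
    obtain ⟨φ, h1, h2, h3⟩ := h (1 / ((j : ℝ) + 1)) (by positivity)
    obtain ⟨θ, w, w', h4, h5, h6, h7, h8, h9⟩ := h3 (φ / 2) (by linarith)
    rw [abs_lt] at h8
    exact ⟨θ, (w, w'), ⟨h4, h5⟩, ⟨h6, h7⟩, by simp only; linarith, by simp only; linarith, h9⟩
  choose θ p hθ hp hf1 hf2 hk using hex
  obtain ⟨⟨w, w'⟩, hww, hfr⟩ := pigeon ((finite_bits hn).prod (finite_bits hd)) hp
  obtain ⟨φ₁, hφ₁, hφ₁'⟩ := extraction_of_frequently_atTop hfr
  obtain ⟨θ₀, -, φ₂, hφ₂, hlim⟩ := isCompact_Icc.tendsto_subseq (fun j => hθ (φ₁ j))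
  set ψ : ℕ → ℕ := fun j => φ₁ (φ₂ j) with hψ
  have hψm : StrictMono ψ := hφ₁.comp hφ₂
  have hlim' : Tendsto (fun j => θ (ψ j)) atTop (𝓝 θ₀) := hlim
  have hpe : ∀ j, p (ψ j) = (w, w') := fun j => hφ₁' (φ₂ j)
  -- the attracting word
  have hfz : Tendsto (fun j => Int.fract (Circ.nu w n (θ (ψ j)))) atTop (𝓝 0) := by
    have h1 : Tendsto (fun j : ℕ => 2 * (1 / ((ψ j : ℝ) + 1))) atTop (𝓝 0) := by
      have := (tendsto_one_div_add_atTop_nhds_zero_nat (𝕜 := ℝ)).comp hψm.tendsto_atTop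
      simpa using this.const_mul 2
    refine squeeze_zero (fun j => Int.fract_nonneg _) (fun j => ?_) h1
    have h2 := hf2 (ψ j)
    rw [hpe j] at h2
    exact h2.le
  have hnu : Tendsto (fun j => Circ.nu w n (θ (ψ j))) atTop (𝓝 (Circ.nu w n θ₀)) :=
    ((Circ.nu_continuous w n).tendsto θ₀).comp hlim'
  have hnu' : Tendsto (fun j => ((⌊Circ.nu w n (θ (ψ j))⌋ : ℤ) : ℝ) +
      Int.fract (Circ.nu w n (θ (ψ j)))) atTop (𝓝 (Circ.nu w n θ₀)) := by
    refine hnu.congr fun j => ?_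
    rw [Int.floor_add_fract]
  obtain ⟨k, hk1, hk2⟩ := int_limit hnu' hfz
  rw [add_zero] at hk1
  have hper : ∃ a : ℤ, (2 : ℝ) ^ n * θ₀ - θ₀ = a := by
    refine end_periodic hn hk1 ?_
    refine hlim'.frequently (Eventually.frequently (Eventually.of_forall fun j => ?_))
    intro h1
    have h2 := hf1 (ψ j)
    rw [hpe j, h1] at h2
    simp at h2
  -- the repelling word
  obtain ⟨Q, P, hQ, hQn, hPQ⟩ := Circ.weak_gap w' d n hn hper
  choose κ hκ using hk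
  have hnu2 : Tendsto (fun j => Circ.nu w' d (θ (ψ j))) atTop (𝓝 (Circ.nu w' d θ₀)) :=
    ((Circ.nu_continuous w' d).tendsto θ₀).comp hlim'
  have hnu2' : Tendsto (fun j => ((κ (ψ j) : ℤ) : ℝ) + (y : ℝ)) atTop (𝓝 (Circ.nu w' d θ₀)) := by
    refine hnu2.congr fun j => ?_
    have h1 := hκ (ψ j)
    rw [hpe j] at h1
    rw [h1]; ring
  obtain ⟨k', hk', -⟩ := int_limit hnu2' tendsto_const_nhds
  have h1 : (y : ℝ) = (((P : ℤ) : ℚ) / (Q : ℚ) - k' : ℚ) := by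
    rw [hk'] at hPQ
    push_cast
    linarith
  have h2 : y = ((P - k' * Q : ℤ) : ℚ) / (Q : ℚ) := by
    have h3 : y = ((P : ℤ) : ℚ) / (Q : ℚ) - k' := by exact_mod_cast h1
    have hQ0 : (Q : ℚ) ≠ 0 := by exact_mod_cast hQ.ne'
    rw [h3]
    field_simp
    push_cast
    ring
  have h3 : y.den ∣ Q := by
    have h6 := Rat.den_dvd (P - k' * Q) (Q : ℤ)
    rw [Rat.divInt_eq_div] at h6
    have h7 : y = ((P - k' * Q : ℤ) : ℚ) / ((Q : ℤ) : ℚ) := by rw [h2]; push_cast; rfl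
    rw [h7]
    exact_mod_cast h6
  exact (Nat.le_of_dvd hQ h3).trans hQn

/-! ### the analytic part -/

/-- a repelling pair over `MM` with combinatorial rotation number `x` -/
def RX (d : ℕ) (x : ℚ) (c v : ℂ) : Prop :=
  c ∈ MM ∧ (c, v) ∈ Per d ∧ 1 < ‖mul d (c, v)‖ ∧ Ex d x c v

/-- exact period in terms of the minimal period -/
lemma minimalPeriod_eq {d : ℕ} (hd : 0 < d) {c v : ℂ} (h : (c, v) ∈ Per d)
    (he : ∀ k, 0 < k → k < d → it c k v ≠ v) : Function.minimalPeriod (f c) v = d := by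
  have h3 : Function.IsPeriodicPt (f c) d v := h
  have h5 := h3.minimalPeriod_le hd
  rcases h5.lt_or_eq with h | h
  · exfalso
    exact he _ (h3.minimalPeriod_pos hd) h (Function.isPeriodicPt_minimalPeriod (f c) v)
  · exact h

/-- a point of the cycle of `v` fixed by the `n`-th iterate: the period divides `n` -/
lemma dvd_of_orbit {n d : ℕ} (hd : 0 < d) {c v b : ℂ} (h : (c, v) ∈ Per d)
    (he : ∀ k, 0 < k → k < d → it c k v ≠ v) {i : ℕ} (hb : b = it c i v) (hbn : (c, b) ∈ Per n) :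
    d ∣ n := by
  have h6 : (c, v) ∈ Per n := by
    have h7 := Sat.Per_it hbn (d * i - i)
    rwa [hb, Sat.it_back hd h i] at h7
  have h7 : Function.IsPeriodicPt (f c) n v := h6
  rw [← minimalPeriod_eq hd h he]
  exact h7.minimalPeriod_dvd

/-- a continuation meets the cycle of another continuation everywhere or nowhere -/
theorem orbit_const {n d : ℕ} (hd : 0 < d) {D : Set ℂ} (hD : IsOpen D)
    (hpre : IsPreconnected D) {c v β : ℂ → ℂ} (hc : ContinuousOn c D) (hv : ContinuousOn v D)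
    (hvp : ∀ L ∈ D, (c L, v L) ∈ Per d) (hve : ∀ L ∈ D, ∀ k, 0 < k → k < d → it (c L) k (v L) ≠ v L)
    (hβ : ContinuousOn β D) (hβp : ∀ L ∈ D, (c L, β L) ∈ Per n)
    (h1 : ∀ L ∈ D, ∀ b, (c L, b) ∈ Per n → mul n (c L, b) ≠ 1) {L L' : ℂ} (hL : L ∈ D)
    (hL' : L' ∈ D) {i : ℕ} (hi : β L = it (c L) i (v L)) : β L' = it (c L') i (v L') := by
  obtain ⟨k, rfl⟩ := dvd_of_orbit hd (hvp L hL) (hve L hL) hi (hβp L hL)
  have hvn : ∀ y ∈ D, (c y, it (c y) i (v y)) ∈ Per (d * k) := by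
    intro y hy
    have h3 : Function.IsPeriodicPt (f (c y)) d (v y) := hvp y hy
    have h4 : (c y, v y) ∈ Per (d * k) := h3.trans_dvd ⟨k, rfl⟩
    exact Sat.Per_it h4 i
  have hvc : ContinuousOn (fun y => it (c y) i (v y)) D :=
    (continuous_it i).comp_continuousOn (hc.prodMk hv)
  exact PriHar.cont_ne hD hpre hc hβ hvc hβp hvn h1 hL hL' hi

lemma mem_MM_of_att {n : ℕ} (hn : 0 < n) {x : ℂ × ℂ} (hx : x ∈ Per n) (hm : ‖mul n x‖ < 1) :
    x.1 ∈ MM := by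
  by_contra h
  have := rep13 hn hx h
  linarith

/-- a repelling pair is not on an attracting cycle -/
lemma not_on_cycle {n d : ℕ} (hn : 0 < n) {c b v : ℂ}
    (hA : (c, b) ∈ Hyp.Att n) (hv : (c, v) ∈ Per d) (hm : 1 < ‖mul d (c, v)‖) (i : ℕ) :
    v ≠ it c i b := by
  intro h1
  obtain ⟨k, rfl⟩ := dvd_of_orbit hn hA.1 hA.2.1 h1 hv
  have h2 : mul (n * k) (c, v) = mul n (c, b) ^ k := by
    have h3 : (c, b) ∈ Per (n * k) := by
      have h4 : Function.IsPeriodicPt (f c) n b := hA.1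
      exact h4.trans_dvd ⟨k, rfl⟩
    rw [h1, Sat.mul_it' h3 i, Hyp.mul_mul hA.1]
  have h3 : ‖mul (n * k) (c, v)‖ ≤ 1 := by
    rw [h2, norm_pow]
    exact pow_le_one₀ (norm_nonneg _) hA.2.2.le
  linarith

/-- the rotation number is constant along the attracting component: data over the unit disc -/
theorem disc_data {n d : ℕ} (hn : 0 < n) (hd : 0 < d) {c b v : ℂ} {x : ℚ} (hx : 2 ≤ x.den)
    (hA : (c, b) ∈ Hyp.Att n) (hR : RX d x c v) :
    ∃ (s : ℂ → ℂ × ℂ) (v' : ℂ → ℂ), (∀ z ∈ ball (0 : ℂ) 1, s z ∈ Hyp.Att n ∧ mul n (s z) = z) ∧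
      ∀ z ∈ ball (0 : ℂ) 1, RX d x (s z).1 (v' z) := by
  obtain ⟨s, hs, hs', hs0⟩ := Hyp.exists_sec hn hA
  set z₀ := mul n (c, b) with hz₀
  have hz₀b : z₀ ∈ ball (0 : ℂ) 1 := mem_ball_zero_iff.2 hA.2.2
  obtain ⟨hcM, hvP, hvm, hE⟩ := hR
  have hc1 : ContinuousOn (fun z => (s z).1) (ball 0 1) := continuous_fst.comp_continuousOn hs
  have hb1 : ContinuousOn (fun z => (s z).2) (ball 0 1) := continuous_snd.comp_continuousOn hs
  have hsA : ∀ z ∈ ball (0 : ℂ) 1, ((s z).1, (s z).2) ∈ Hyp.Att n := fun z hz => (hs' z hz).1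
  have hH1 : ∀ z ∈ ball (0 : ℂ) 1, ∀ b', ((s z).1, b') ∈ Per d → mul d ((s z).1, b') ≠ 1 := by
    intro z hz b' hb'
    exact One49.no_parabolic hn hd (hsA z hz).1 (hsA z hz).2.2 hb'
  have hs01 : (s z₀).1 = c := by rw [hs0]
  have hs02 : (s z₀).2 = b := by rw [hs0]
  obtain ⟨v', hv', hv'p, hv'0⟩ := PriHar.exists_cont (c := fun z => (s z).1) hd isOpen_ball
    (convex_ball (0 : ℂ) 1) hc1 hH1 hz₀b (b₀ := v) (by simp only [hs01]; exact hvP)
  have hrep : ∀ z ∈ ball (0 : ℂ) 1, 1 < ‖mul d ((s z).1, v' z)‖ := by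
    intro z hz
    refine One49.other_repelling hn hd (hsA z hz).1 (hsA z hz).2.2 (hv'p z hz) fun i hi => ?_
    have h1 := orbit_const (c := fun z => (s z).1) (v := fun z => (s z).2) hn isOpen_ball
      (convex_ball (0 : ℂ) 1).isPreconnected hc1 hb1 (fun z hz => (hsA z hz).1)
      (fun z hz => (hsA z hz).2.1) hv' hv'p hH1 hz hz₀b (i := i) hi.symm
    simp only [hs01, hs02, hv'0] at h1
    exact not_on_cycle hn hA hvP hvm i h1
  have hMM : ∀ z ∈ ball (0 : ℂ) 1, (s z).1 ∈ MM := fun z hz =>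
    mem_MM_of_att hn (hsA z hz).1 (hsA z hz).2.2
  have ht : ∀ z ∈ ball (0 : ℂ) 1, Tendsto (fun z' => (((s z').1, v' z') : ℂ × ℂ)) (𝓝 z)
      (𝓝 ((s z).1, v' z)) := by
    intro z hz
    have hn' : ball (0 : ℂ) 1 ∈ 𝓝 z := isOpen_ball.mem_nhds hz
    exact (hc1.continuousAt hn').tendsto.prodMk_nhds (hv'.continuousAt hn').tendsto
  have hsub : ball (0 : ℂ) 1 ⊆ {z | z ∈ ball (0 : ℂ) 1 ∧ Ex d x (s z).1 (v' z)} := by
    refine (convex_ball (0 : ℂ) 1).isPreconnected.subset_of_closure_inter_subset ?_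
      ⟨z₀, hz₀b, hz₀b, by rw [hs01, hv'0]; exact hE⟩ ?_
    · rw [isOpen_iff_mem_nhds]
      rintro z ⟨hz, h1⟩
      filter_upwards [(ht z hz).eventually (h1.nhds hd (mem_M_iff.1 (hMM z hz)) (hv'p z hz)
        (hrep z hz)), isOpen_ball.mem_nhds hz] with z' h2 h3
      exact ⟨h3, (h2 (hv'p z' h3)).1 (mem_M_iff.1 (hMM z' h3))⟩
    · rintro z ⟨hzc, hz⟩
      refine ⟨hz, ex_closed hd hx (mem_M_iff.1 (hMM z hz)) (hv'p z hz) (hrep z hz) ?_⟩
      refine (ht z hz).frequently ?_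
      refine (mem_closure_iff_frequently.1 hzc).mono ?_
      rintro z' ⟨h2, h3⟩
      exact ⟨hv'p z' h2, mem_M_iff.1 (hMM z' h2), h3⟩
  exact ⟨s, v', hs', fun z hz => ⟨hMM z hz, hv'p z hz, hrep z hz, (hsub hz).2⟩⟩

/-- the finitely many multipliers to avoid -/
lemma finite_bad {n m : ℕ} (hn : 0 < n) (hm : 0 < m) :
    {w : ℂ | ∃ c b v, (c, v) ∈ Per m ∧ mul m (c, v) = 1 ∧ (c, b) ∈ Per n ∧
      mul n (c, b) = w}.Finite := by
  refine ((NV.finite_par hm).biUnion fun c _ => finite_mults hn c).subset ?_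
  rintro w ⟨c, b, v, h1, h2, h3, h4⟩
  exact mem_biUnion (x := c) ⟨v, h1, h2⟩ ⟨b, h3, h4⟩

lemma exp_two_pi_inj {φ φ' : ℝ} (h0 : φ ∈ Ioo (0 : ℝ) 1) (h0' : φ' ∈ Ioo (0 : ℝ) 1)
    (h : exp (2 * Real.pi * φ * I) = exp (2 * Real.pi * φ' * I)) : φ = φ' := by
  rw [Complex.exp_eq_exp_iff_exists_int] at h
  obtain ⟨k, hk⟩ := h
  have h1 := congrArg Complex.im hk
  simp at h1
  have hpi := Real.pi_pos
  have h2 : φ = φ' + k := by
    have : (2 * Real.pi) * φ = (2 * Real.pi) * (φ' + k) := by linarith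
    exact mul_left_cancel₀ (by positivity) this
  have h3 : (k : ℝ) < 1 := by linarith [h0.2, h0'.1]
  have h4 : (-1 : ℝ) < k := by linarith [h0.1, h0'.2]
  have h5 : k < 1 := by exact_mod_cast h3
  have h6 : -1 < k := by exact_mod_cast h4
  have h7 : k = 0 := by omega
  rw [h2, h7]; simp

/-- `exp (q * 2 π i p / q) = 1` -/
lemma exp_den_mul {q : ℕ} (hq : 0 < q) (p : ℤ) :
    exp ((q : ℂ) * axisPt ((p : ℚ) / (q : ℚ))) = 1 := by
  rw [Complex.exp_eq_one_iff]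
  refine ⟨p, ?_⟩
  have hqc : (q : ℂ) ≠ 0 := by exact_mod_cast hq.ne'
  unfold axisPt
  push_cast
  field_simp

/-- the boundary point of internal angle `φ` -/
theorem boundary_point {n d : ℕ} (hn : 0 < n) (hd : 0 < d) {x : ℚ} (hx : 2 ≤ x.den)
    {s : ℂ → ℂ × ℂ} {v : ℂ → ℂ}
    (hs' : ∀ z ∈ ball (0 : ℂ) 1, s z ∈ Hyp.Att n ∧ mul n (s z) = z)
    (hR : ∀ z ∈ ball (0 : ℂ) 1, RX d x (s z).1 (v z)) {φ : ℝ}
    (hφ : exp (2 * Real.pi * φ * I) ∉ {w : ℂ | ∃ c b v, (c, v) ∈ Per (d * x.den) ∧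
      mul (d * x.den) (c, v) = 1 ∧ (c, b) ∈ Per n ∧ mul n (c, b) = w}) :
    ∃ c b v', (c, b) ∈ Per n ∧ mul n (c, b) = exp (2 * Real.pi * φ * I) ∧ RX d x c v' := by
  set ζ : ℂ := exp (2 * Real.pi * φ * I) with hζ
  have hζ1 : ‖ζ‖ = 1 := by
    rw [hζ, Complex.norm_exp]
    simp
  set t : ℕ → ℂ := fun j => ((1 - 1 / ((j : ℝ) + 2) : ℝ) : ℂ) * ζ with ht
  have ht1 : ∀ j, t j ∈ ball (0 : ℂ) 1 := by
    intro j
    rw [mem_ball_zero_iff, ht]
    simp only
    have h1 : (0 : ℝ) < 1 / ((j : ℝ) + 2) := by positivity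
    have h2 : (1 : ℝ) / ((j : ℝ) + 2) ≤ 1 := by
      rw [div_le_one (by positivity)]; linarith [(Nat.cast_nonneg j : (0 : ℝ) ≤ j)]
    rw [norm_mul, hζ1, mul_one, Complex.norm_real, Real.norm_eq_abs, abs_of_nonneg (by linarith)]
    linarith
  have htl : Tendsto t atTop (𝓝 ζ) := by
    have h1 : Tendsto (fun j : ℕ => (1 - 1 / ((j : ℝ) + 2) : ℝ)) atTop (𝓝 1) := by
      have h2 := (tendsto_one_div_add_atTop_nhds_zero_nat (𝕜 := ℝ)).comp (tendsto_add_atTop_nat 1)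
      have h3 : Tendsto (fun j : ℕ => 1 / ((j : ℝ) + 2)) atTop (𝓝 0) := by
        refine h2.congr fun j => ?_
        simp only [Function.comp_apply]
        push_cast
        ring
      simpa using h3.const_sub 1
    have h2 : Tendsto (fun j : ℕ => ((1 - 1 / ((j : ℝ) + 2) : ℝ) : ℂ)) atTop (𝓝 ((1 : ℝ) : ℂ)) :=
      (Complex.continuous_ofReal.tendsto 1).comp h1
    have h3 := h2.mul_const ζ
    simpa [ht] using h3
  have hmem : ∀ j, ((s (t j)), v (t j)) ∈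
      (closedBall (0 : ℂ) 4 ×ˢ closedBall (0 : ℂ) 3) ×ˢ closedBall (0 : ℂ) 5 := by
    intro j
    obtain ⟨h1, h2⟩ := hs' _ (ht1 j)
    obtain ⟨h3, h4⟩ := Per_bdd hn h1.1 (by have := h1.2.2; linarith)
    refine ⟨⟨mem_closedBall_zero_iff.2 h3, mem_closedBall_zero_iff.2 h4⟩, ?_⟩
    rw [mem_closedBall_zero_iff]
    have h5 : ((s (t j)).1, v (t j)) ∈ Per d := (hR _ (ht1 j)).2.1
    have h6 := norm_le_of_G_zero (G_zero_of_per hd h5)
    linarith
  obtain ⟨⟨y, v₀⟩, -, ψ, hψ, hlim⟩ := (((isCompact_closedBall (0 : ℂ) 4).prod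
    (isCompact_closedBall (0 : ℂ) 3)).prod (isCompact_closedBall (0 : ℂ) 5)).tendsto_subseq hmem
  have hl1 : Tendsto (fun j => s (t (ψ j))) atTop (𝓝 y) := (continuous_fst.tendsto _).comp hlim
  have hl2 : Tendsto (fun j => v (t (ψ j))) atTop (𝓝 v₀) := (continuous_snd.tendsto _).comp hlim
  have hl4 : Tendsto (fun j => t (ψ j)) atTop (𝓝 ζ) := htl.comp hψ.tendsto_atTop
  have hl5 : Tendsto (fun j => (((s (t (ψ j))).1, v (t (ψ j))) : ℂ × ℂ)) atTop (𝓝 (y.1, v₀)) :=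
    ((continuous_fst.tendsto y).comp hl1).prodMk_nhds hl2
  have hyP : y ∈ Per n := (isClosed_Per n).mem_of_tendsto hl1
    (Eventually.of_forall fun j => (hs' _ (ht1 (ψ j))).1.1)
  have hym : mul n y = ζ := by
    have h1 : Tendsto (fun j => mul n (s (t (ψ j)))) atTop (𝓝 (mul n y)) :=
      ((continuous_mul' n).tendsto y).comp hl1
    have h2 : (fun j => mul n (s (t (ψ j)))) = fun j => t (ψ j) :=
      funext fun j => (hs' _ (ht1 (ψ j))).2
    rw [h2] at h1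
    exact tendsto_nhds_unique h1 hl4
  have hvP : (y.1, v₀) ∈ Per d := (isClosed_Per d).mem_of_tendsto hl5
    (Eventually.of_forall fun j => (hR _ (ht1 (ψ j))).2.1)
  have hyM : y.1 ∈ MM := by
    have h1 : Tendsto (fun j => (s (t (ψ j))).1) atTop (𝓝 y.1) := (continuous_fst.tendsto y).comp hl1
    exact isCompact_MM.isClosed.mem_of_tendsto h1
      (Eventually.of_forall fun j => (hR _ (ht1 (ψ j))).1)
  have hmt : Tendsto (fun j => mul d ((s (t (ψ j))).1, v (t (ψ j)))) atTop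
      (𝓝 (mul d (y.1, v₀))) := ((continuous_mul' d).tendsto _).comp hl5
  have hre0 : 1 < ‖mul d (y.1, v₀)‖ := by
    by_contra hcon
    push Not at hcon
    have hge : 1 ≤ ‖mul d (y.1, v₀)‖ :=
      ge_of_tendsto' hmt.norm fun j => (hR _ (ht1 (ψ j))).2.2.1.le
    have h1 : ‖mul d (y.1, v₀)‖ = 1 := le_antisymm hcon hge
    -- logarithms
    set l : ℕ → ℂ := fun j => Complex.log (mul d ((s (t (ψ j))).1, v (t (ψ j)))) with hl
    have hne : ∀ j, mul d ((s (t (ψ j))).1, v (t (ψ j))) ≠ 0 := by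
      intro j h0
      have := (hR _ (ht1 (ψ j))).2.2.1
      rw [h0, norm_zero] at this
      linarith
    have hle : ∀ j, exp (l j) = mul d ((s (t (ψ j))).1, v (t (ψ j))) := fun j =>
      Complex.exp_log (hne j)
    have hlre : ∀ j, (l j).re = Real.log ‖mul d ((s (t (ψ j))).1, v (t (ψ j)))‖ := fun j =>
      Complex.log_re _
    have hlpos : ∀ j, 0 < (l j).re := fun j => by
      rw [hlre j]; exact Real.log_pos (hR _ (ht1 (ψ j))).2.2.1
    have hlz : Tendsto (fun j => (l j).re) atTop (𝓝 0) := by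
      have h2 : Tendsto (fun j => Real.log ‖mul d ((s (t (ψ j))).1, v (t (ψ j)))‖) atTop
          (𝓝 (Real.log 1)) := by
        rw [← h1]
        exact hmt.norm.log (by rw [h1]; exact one_ne_zero)
      rw [Real.log_one] at h2
      exact h2.congr fun j => (hlre j).symm
    have hpl : ∀ j, ∃ p : ℤ, ‖l j - axisPt ((p : ℚ) / (x.den : ℚ))‖ ^ 2 ≤
        2 * d * Real.log 2 / x.den * (l j).re := by
      intro j
      obtain ⟨h3, h4, h5, h6⟩ := hR _ (ht1 (ψ j))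
      obtain ⟨p, -, hp⟩ := h6.ply hd hx h3 h4 (hle j).symm (hlpos j)
      exact ⟨p, hp⟩
    choose p hp using hpl
    have hz : Tendsto (fun j => l j - axisPt ((p j : ℚ) / (x.den : ℚ))) atTop (𝓝 0) := by
      rw [tendsto_zero_iff_norm_tendsto_zero]
      have h2 : Tendsto (fun j => Real.sqrt (2 * d * Real.log 2 / x.den * (l j).re)) atTop
          (𝓝 0) := by
        have h3 : Tendsto (fun j => 2 * (d : ℝ) * Real.log 2 / x.den * (l j).re) atTop
            (𝓝 (2 * d * Real.log 2 / x.den * 0)) := hlz.const_mul _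
        rw [mul_zero] at h3
        have h4 := (Real.continuous_sqrt.tendsto 0).comp h3
        rw [Real.sqrt_zero] at h4
        exact h4
      exact squeeze_zero (fun j => norm_nonneg _) (fun j => Real.le_sqrt_of_sq_le (hp j)) h2
    have hpow : Tendsto (fun j => mul d ((s (t (ψ j))).1, v (t (ψ j))) ^ x.den) atTop (𝓝 1) := by
      have h2 : Tendsto (fun j => exp ((x.den : ℂ) * (l j - axisPt ((p j : ℚ) / (x.den : ℚ)))))
          atTop (𝓝 (exp ((x.den : ℂ) * 0))) :=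
        (Complex.continuous_exp.tendsto _).comp (hz.const_mul _)
      rw [mul_zero, Complex.exp_zero] at h2
      refine h2.congr fun j => ?_
      rw [mul_sub, Complex.exp_sub, exp_den_mul x.pos, div_one, Complex.exp_nat_mul, hle j]
    have hone : mul d (y.1, v₀) ^ x.den = 1 := tendsto_nhds_unique (hmt.pow _) hpow
    apply hφ
    refine ⟨y.1, y.2, v₀, ?_, ?_, hyP, hym⟩
    · have h4 : Function.IsPeriodicPt (f y.1) d v₀ := hvP
      exact h4.trans_dvd ⟨x.den, rfl⟩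
    · rw [Hyp.mul_mul hvP, hone]
  refine ⟨y.1, y.2, v₀, hyP, hym, hyM, hvP, hre0, ?_⟩
  refine ex_closed hd hx (mem_M_iff.1 hyM) hvP hre0 ?_
  refine hl5.frequently (Eventually.frequently (Eventually.of_forall fun j => ?_))
  obtain ⟨h3, h4, h5, h6⟩ := hR _ (ht1 (ψ j))
  exact ⟨h4, mem_M_iff.1 h3, h6⟩

/-- exterior parameters near a boundary point -/
theorem exterior_near {n d : ℕ} (hn : 0 < n) (hd : 0 < d) {c b v : ℂ} {x : ℚ}
    {φ : ℝ} (h0 : 0 < φ) (h1 : φ < 1) (hb : (c, b) ∈ Per n)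
    (hbm : mul n (c, b) = exp (2 * Real.pi * φ * I)) (hR : RX d x c v) {ε : ℝ}
    (hε : 0 < ε) : ∃ (θ : ℝ) (w w' : ℕ → ℤ), 0 ≤ θ ∧ θ ≤ 1 ∧
      Bits n w ∧ Bits d w' ∧ |Int.fract (Circ.nu w n θ) - φ| < ε ∧
      ∃ k : ℤ, Circ.nu w' d θ = x + k := by
  obtain ⟨-, h3, h4⟩ := Sat.s3_neutral n (c, b) φ hn hb h0 h1 hbm
  have hbne : mul n (c, b) ≠ 1 := by
    rw [hbm]
    intro h5
    rw [Complex.exp_eq_one_iff] at h5
    obtain ⟨k, hk⟩ := h5
    have h6 := congrArg Complex.im hk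
    simp at h6
    have hpi := Real.pi_pos
    have h7 : φ = k := by
      have : (2 * Real.pi) * φ = (2 * Real.pi) * k := by linarith
      exact mul_left_cancel₀ (by positivity) this
    rw [h7] at h0 h1
    have h8 : 0 < k := by exact_mod_cast h0
    have h9 : k < 1 := by exact_mod_cast h1
    omega
  obtain ⟨hcM, hvP, hvm, hE⟩ := hR
  have hvne : mul d (c, v) ≠ 1 := by
    intro h5
    rw [h5, norm_one] at hvm
    exact lt_irrefl _ hvm
  obtain ⟨β, hβ, hβ0, hβe⟩ := chart hb hbne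
  obtain ⟨γ, hγ, hγ0, hγe⟩ := chart hvP hvne
  have htβ := chart_tendsto (x₀ := (c, b)) hβ hβ0
  have htγ := chart_tendsto (x₀ := (c, v)) hγ hγ0
  have h5 := hE.nhds hd (mem_M_iff.1 hcM) hvP hvm
  obtain ⟨c', hc', g1, g2, g3, g4⟩ := (h4.and_eventually ((htβ.eventually hβe).and
    ((htγ.eventually hγe).and ((htβ.eventually (h3 ε hε)).and (htγ.eventually h5))))).exists
  have hβP : (c', β c') ∈ Per n := g1.2 rfl
  have hγP : (c', γ c') ∈ Per d := g2.2 rfl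
  obtain ⟨θ, hθ⟩ := exists_ang (Sat.not_mem_MM_iff.1 hc')
  have hθ' : Ang c' (Int.fract θ) := by
    have h6 := hθ.add_int (-⌊θ⌋)
    have h7 : θ + ((-⌊θ⌋ : ℤ) : ℝ) = Int.fract θ := by
      push_cast; unfold Int.fract; ring
    rwa [h7] at h6
  obtain ⟨w, hw⟩ := exists_extP_word hn hθ' hβP
  obtain ⟨w', hw'⟩ := exists_extP_word hd hθ' hγP
  exact ⟨Int.fract θ, w, w', Int.fract_nonneg _, (Int.fract_lt_one _).le, hw.2.2.2.1,
    hw'.2.2.2.1, g3 _ _ hw, (g4 hγP).2 _ _ hw'⟩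

/-- **the period constraint**: if `c` has an attracting cycle of exact period `n`, then every
rotation number of a repelling periodic point has denominator at most `n` -/
theorem den_le {n d : ℕ} (hn : 0 < n) (hd : 0 < d) {c b v : ℂ} {x : ℚ} (hx : 2 ≤ x.den)
    (hA : (c, b) ∈ Hyp.Att n) (hR : RX d x c v) : x.den ≤ n := by
  obtain ⟨s, v', hs', hR'⟩ := disc_data hn hd hx hA hR
  refine circle_den hn hd fun δ hδ => ?_
  have hbad := finite_bad hn (Nat.mul_pos hd x.pos) (m := d * x.den)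
  set Bad := {w : ℂ | ∃ c b v, (c, v) ∈ Per (d * x.den) ∧ mul (d * x.den) (c, v) = 1 ∧
    (c, b) ∈ Per n ∧ mul n (c, b) = w} with hBad
  have hinf : (Ioo (0 : ℝ) (min δ 1)).Infinite := Ioo_infinite (lt_min hδ one_pos)
  have hfin : (Ioo (0 : ℝ) (min δ 1) ∩ {φ : ℝ | exp (2 * Real.pi * φ * I) ∈ Bad}).Finite := by
    refine Set.Finite.of_finite_image (f := fun φ : ℝ => exp (2 * Real.pi * φ * I))
      (hbad.subset ?_) ?_
    · rintro _ ⟨φ, ⟨-, h⟩, rfl⟩; exact h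
    · rintro φ ⟨h, -⟩ φ' ⟨h', -⟩ he
      exact exp_two_pi_inj ⟨h.1, h.2.trans_le (min_le_right _ _)⟩
        ⟨h'.1, h'.2.trans_le (min_le_right _ _)⟩ he
  obtain ⟨φ, hφ, hφ'⟩ := (hinf.sdiff hfin).nonempty
  have hgood : exp (2 * Real.pi * φ * I) ∉ Bad := fun h => hφ' ⟨hφ, h⟩
  obtain ⟨c', b', v₁, h1, h2, h3⟩ := boundary_point hn hd hx hs' hR' hgood
  refine ⟨φ, hφ.1, hφ.2.trans_le (min_le_left _ _), fun ε hε => ?_⟩
  exact exterior_near hn hd hφ.1 (hφ.2.trans_le (min_le_right _ _)) h1 h2 h3 hε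

/-! ### all other cycles are repelling over a ball far from the small denominators -/

/-- no horodisc of denominator at most `N` meets `U` -/
def Far (d N : ℕ) (U : Set ℂ) : Prop := ∀ y : ℚ, y.den ≤ N → ∀ L ∈ U,
  ¬ (‖L - axisPt y‖ ^ 2 ≤ 2 * d * Real.log 2 / y.den * L.re)

section

variable {D : Sat.Dat}

/-- no resonance of the cycle of `V` -/
lemma exp_ne_one_of_far {d N : ℕ} {U : Set ℂ} (hF : Far d N U) {L : ℂ} (hL : L ∈ U) {k : ℕ}
    (hk : 0 < k) (hkN : k ≤ N) : exp ((k : ℂ) * L) ≠ 1 := by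
  intro h
  rw [Complex.exp_eq_one_iff] at h
  obtain ⟨z, hz⟩ := h
  have hkc : (k : ℂ) ≠ 0 := by exact_mod_cast hk.ne'
  have hLe : L = axisPt ((z : ℚ) / (k : ℚ)) := by
    unfold axisPt
    push_cast
    field_simp
    linear_combination hz
  have hden : ((z : ℚ) / (k : ℚ)).den ≤ k := by
    have h6 := Rat.den_dvd z (k : ℤ)
    rw [Rat.divInt_eq_div] at h6
    have h7 : ((z : ℚ) / (k : ℚ)) = (z : ℚ) / ((k : ℤ) : ℚ) := by push_cast; rfl
    rw [h7]
    exact Nat.le_of_dvd hk (by exact_mod_cast h6)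
  refine hF _ (hden.trans hkN) L hL ?_
  rw [hLe, sub_self, norm_zero, LimbData.axisPt_re]
  simp

/-- an attracting cycle over the ball is the cycle of `V` -/
theorem no_attracting (hP : D.Par) {N : ℕ} {U : Set ℂ} (hU : U ⊆ D.B) (hF : Far D.m N U) {L : ℂ}
    (hL : L ∈ U) {n : ℕ} (hn : 0 < n) (hnN : n ≤ N) {b : ℂ} (hb : (D.c L, b) ∈ Per n)
    (hm : ‖mul n (D.c L, b)‖ < 1) : ∃ i, b = it (D.c L) i (D.b L) := by
  by_contra hnb
  push Not at hnb
  have hb' : Function.IsPeriodicPt (f (D.c L)) n b := hb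
  set n₂ := Function.minimalPeriod (f (D.c L)) b with hn₂
  have hn₂0 : 0 < n₂ := hb'.minimalPeriod_pos hn
  obtain ⟨k, hk⟩ := hb'.minimalPeriod_dvd
  have hn₂n : n₂ ≤ n := hb'.minimalPeriod_le hn
  have hb₂ : (D.c L, b) ∈ Per n₂ := Function.isPeriodicPt_minimalPeriod (f (D.c L)) b
  have hA : (D.c L, b) ∈ Hyp.Att n₂ := by
    refine ⟨hb₂, fun e he hen h => ?_, ?_⟩
    · have h1 : Function.IsPeriodicPt (f (D.c L)) e b := h
      have := h1.minimalPeriod_le he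
      omega
    · by_contra hge
      push Not at hge
      have h1 : mul n (D.c L, b) = mul n₂ (D.c L, b) ^ k := by
        conv_lhs => rw [hk]
        exact Hyp.mul_mul hb₂
      rw [h1, norm_pow] at hm
      exact absurd hm (not_lt.2 (one_le_pow₀ hge))
  obtain ⟨h1, h2⟩ := hP.sec L (hU hL)
  have h1' : (D.c L, D.b L) ∈ Per D.m := h1
  have h2' : mul D.m (D.c L, D.b L) = exp L := h2
  have hrep : 1 < ‖mul D.m (D.c L, D.b L)‖ := by
    refine One49.other_repelling hn₂0 hP.m_pos hA.1 hA.2.2 h1' fun i hi => ?_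
    refine hnb (n₂ * i - i) ?_
    have hi' : it (D.c L) i b = D.b L := hi
    rw [← hi']
    exact (Sat.it_back hn₂0 hb₂ i).symm
  have hre : 0 < L.re := by
    rw [h2', Complex.norm_exp] at hrep
    exact Real.one_lt_exp_iff.1 hrep
  have hM : D.c L ∈ MM := mem_MM_of_att (x := (D.c L, b)) hn₂0 hA.1 hA.2.2
  obtain ⟨x, hx⟩ := exists_ex hP.m_pos (mem_M_iff.1 hM) h1' hrep
  have hxn : x.den ≤ n₂ := by
    rcases Nat.lt_or_ge x.den 2 with h | h
    · omega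
    · exact den_le hn₂0 hP.m_pos h hA ⟨hM, h1', hrep, hx⟩
  obtain ⟨p, -, hp⟩ := hx.ply' hP.m_pos hM h1' h2' hre
  have hden : ((p : ℚ) / (x.den : ℚ)).den ≤ x.den := by
    have h6 := Rat.den_dvd p (x.den : ℤ)
    rw [Rat.divInt_eq_div] at h6
    have h7 : ((p : ℚ) / (x.den : ℚ)) = (p : ℚ) / ((x.den : ℤ) : ℚ) := by push_cast; rfl
    rw [h7]
    exact Nat.le_of_dvd x.pos (by exact_mod_cast h6)
  refine hF _ (by omega) L hL (hp.trans ?_)
  have hy0 : (0 : ℝ) < ((p : ℚ) / (x.den : ℚ)).den := by exact_mod_cast Rat.pos _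
  have hlog : 0 ≤ Real.log 2 := Real.log_nonneg (by norm_num)
  have h8 : (((p : ℚ) / (x.den : ℚ)).den : ℝ) ≤ x.den := by exact_mod_cast hden
  gcongr

lemma nonV_nhds (hP : D.Par) {L b : ℂ} (hL : L ∈ D.B) (hnb : ∀ i, b ≠ it (D.c L) i (D.b L)) :
    ∀ᶠ p : ℂ × ℂ in 𝓝 (L, b), p.1 ∈ D.B → ∀ i, p.2 ≠ it (D.c p.1) i (D.b p.1) := by
  have hcont : ∀ i, ContinuousAt (fun p : ℂ × ℂ => it (D.c p.1) i (D.b p.1)) (L, b) := by
    intro i
    have h1 : ContinuousAt (fun L => it (D.c L) i (D.b L)) L :=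
      ContinuousAt.comp (g := fun q : ℂ × ℂ => it q.1 i q.2) (f := fun L => (D.c L, D.b L))
        (continuous_it i).continuousAt ((Sat.c_contAt hP hL).prodMk (Sat.b_contAt hP hL))
    exact ContinuousAt.comp (g := fun L => it (D.c L) i (D.b L)) (f := Prod.fst) h1 continuousAt_fst
  have h1 : ∀ᶠ p : ℂ × ℂ in 𝓝 (L, b), ∀ i ∈ Finset.range D.m,
      p.2 ≠ it (D.c p.1) i (D.b p.1) := by
    rw [Filter.eventually_all_finset]
    intro i _
    exact (continuousAt_snd.prodMk (hcont i)).eventually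
      ((isOpen_ne_fun continuous_fst continuous_snd).mem_nhds (hnb i))
  filter_upwards [h1] with p hp hpB i
  have h2 : (D.c p.1, D.b p.1) ∈ Per D.m := (hP.sec p.1 hpB).1
  have h3 : it (D.c p.1) i (D.b p.1) = it (D.c p.1) (i % D.m) (D.b p.1) := by
    conv_lhs => rw [← Nat.mod_add_div i D.m]
    exact Sat.it_mul_per h2 _ _
  rw [h3]
  exact hp _ (Finset.mem_range.2 (Nat.mod_lt _ hP.m_pos))

/-- **over a ball far from the small denominators all cycles of small period other than the cycle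
of `V` are repelling** -/
theorem repelling_over (hP : D.Par) {N : ℕ} {U : Set ℂ} (hUo : IsOpen U) (hU : U ⊆ D.B)
    (hF : Far D.m N U) {L : ℂ} (hL : L ∈ U) {n : ℕ} (hn : 0 < n) (hnN : n ≤ N) {b : ℂ}
    (hb : (D.c L, b) ∈ Per n) (hnb : ∀ i, b ≠ it (D.c L) i (D.b L)) :
    1 < ‖mul n (D.c L, b)‖ := by
  by_contra hle
  push Not at hle
  obtain ⟨V₁, hV₁, V₂, hV₂, hV⟩ := mem_nhds_prod_iff.1 (nonV_nhds hP (hU hL) hnb)
  by_cases h1 : mul n (D.c L, b) = 1
  · -- parabolic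
    obtain ⟨A, hA, hAL, B, hB, hB1, hres⟩ : ∃ A : Set ℂ, IsOpen A ∧ L ∈ A ∧ ∃ B : Set ℂ, IsOpen B ∧
        (1 : ℂ) ∈ B ∧ ∀ L' ∈ A, ∀ k, n = D.m * k → exp ((k : ℂ) * L') ∉ B := by
      by_cases hdiv : D.m ∣ n
      · obtain ⟨k, hk⟩ := hdiv
        have hk0 : 0 < k := Nat.pos_of_ne_zero (by rintro rfl; rw [mul_zero] at hk; omega)
        have hkN : k ≤ N := by
          have := hP.m_pos
          calc k ≤ D.m * k := Nat.le_mul_of_pos_left k this
            _ = n := hk.symm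
            _ ≤ N := hnN
        obtain ⟨A', B', hA', hB', hA1, hB1, hAB⟩ := t2_separation
          (exp_ne_one_of_far hF hL hk0 hkN)
        refine ⟨{L' | exp ((k : ℂ) * L') ∈ A'}, hA'.preimage (by fun_prop), hA1, B', hB', hB1,
          fun L' hL' k' hk' hB'' => ?_⟩
        have hkk : k' = k := by
          have h3 : D.m * k' = D.m * k := by rw [← hk', ← hk]
          exact Nat.eq_of_mul_eq_mul_left hP.m_pos h3
        rw [hkk] at hB''
        exact Set.disjoint_left.1 hAB hL' hB''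
      · exact ⟨univ, isOpen_univ, mem_univ _, univ, isOpen_univ, mem_univ _,
          fun L' _ k hk => absurd ⟨k, hk⟩ hdiv⟩
    have hW : D.c '' (A ∩ U) ∈ 𝓝 (D.c L) := by
      rw [← Sat.c_map_nhds hP (hU hL)]
      exact image_mem_map (inter_mem (hA.mem_nhds hAL) (hUo.mem_nhds hL))
    have h2 := One49.near_parabolic hn hb h1 hW
    have h3 : ∃ᶠ w in 𝓝 (1 : ℂ), w ∈ ball (0 : ℂ) 1 := by
      refine mem_closure_iff_frequently.1 ?_
      rw [closure_ball (0 : ℂ) one_ne_zero, mem_closedBall_zero_iff, norm_one]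
    obtain ⟨w, hw, ⟨c', ⟨L', ⟨hL'A, hL'U⟩, rfl⟩, b', hb', hbw⟩, hwB⟩ :=
      (h3.and_eventually (h2.and (hB.mem_nhds hB1))).exists
    rw [mem_ball_zero_iff] at hw
    have hbw' : mul n (D.c L', b') = w := hbw
    have hbP' : (D.c L', b') ∈ Per n := hb'
    obtain ⟨i, hi⟩ := no_attracting hP hU hF hL'U hn hnN hbP' (by rw [hbw']; exact hw)
    obtain ⟨hs1, hs2⟩ := hP.sec L' (hU hL'U)
    have hs1' : (D.c L', D.b L') ∈ Per D.m := hs1
    have hs2' : mul D.m (D.c L', D.b L') = exp L' := hs2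
    obtain ⟨k, hk⟩ := dvd_of_orbit hP.m_pos hs1' (hP.prim L' (hU hL'U)) hi hbP'
    apply hres L' hL'A k hk
    have h5 : (D.c L', D.b L') ∈ Per (D.m * k) := by
      have h4 : Function.IsPeriodicPt (f (D.c L')) D.m (D.b L') := hs1'
      exact h4.trans_dvd ⟨k, rfl⟩
    have h6 : mul n (D.c L', b') = exp ((k : ℂ) * L') := by
      rw [hk, hi, Sat.mul_it' h5 i, Hyp.mul_mul hs1', hs2', ← Complex.exp_nat_mul]
    rw [← h6, hbw']
    exact hwB
  · -- open mapping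
    have hW : (D.c '' (V₁ ∩ U)) ×ˢ V₂ ∈ 𝓝 (D.c L, b) := by
      refine prod_mem_nhds ?_ hV₂
      rw [← Sat.c_map_nhds hP (hU hL)]
      exact image_mem_map (inter_mem hV₁ (hUo.mem_nhds hL))
    have h2 := mul_open hn hb h1 (by linarith) hW
    have h3 : ∃ᶠ w in 𝓝 (mul n (D.c L, b)), w ∈ ball (0 : ℂ) 1 := by
      refine mem_closure_iff_frequently.1 ?_
      rw [closure_ball (0 : ℂ) one_ne_zero, mem_closedBall_zero_iff]
      exact hle
    obtain ⟨w, hw, ⟨c', b'⟩, ⟨⟨⟨L', ⟨hL'V, hL'U⟩, hL'c⟩, hb'V⟩, hb'P⟩, hbw⟩ :=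
      (h3.and_eventually h2).exists
    rw [mem_ball_zero_iff] at hw
    simp only at hL'c hb'V
    subst hL'c
    obtain ⟨i, hi⟩ := no_attracting hP hU hF hL'U hn hnN hb'P (by rw [hbw]; exact hw)
    exact hV (show (L', b') ∈ V₁ ×ˢ V₂ from ⟨hL'V, hb'V⟩) (hU hL'U) i hi

/-- no multiplier `1` over the ball -/
theorem ne_one_over (hP : D.Par) {N : ℕ} {U : Set ℂ} (hUo : IsOpen U) (hU : U ⊆ D.B)
    (hF : Far D.m N U) {L : ℂ} (hL : L ∈ U) {n : ℕ} (hn : 0 < n) (hnN : n ≤ N) {b : ℂ}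
    (hb : (D.c L, b) ∈ Per n) : mul n (D.c L, b) ≠ 1 := by
  by_cases hnb : ∃ i, b = it (D.c L) i (D.b L)
  · obtain ⟨i, hi⟩ := hnb
    obtain ⟨hs1, hs2⟩ := hP.sec L (hU hL)
    have hs1' : (D.c L, D.b L) ∈ Per D.m := hs1
    have hs2' : mul D.m (D.c L, D.b L) = exp L := hs2
    obtain ⟨k, hk⟩ := dvd_of_orbit hP.m_pos hs1' (hP.prim L (hU hL)) hi hb
    have hk0 : 0 < k := Nat.pos_of_ne_zero (by rintro rfl; rw [mul_zero] at hk; omega)
    have hkN : k ≤ N := by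
      have := hP.m_pos
      calc k ≤ D.m * k := Nat.le_mul_of_pos_left k this
        _ = n := hk.symm
        _ ≤ N := hnN
    have h5 : (D.c L, D.b L) ∈ Per (D.m * k) := by
      have h4 : Function.IsPeriodicPt (f (D.c L)) D.m (D.b L) := hs1'
      exact h4.trans_dvd ⟨k, rfl⟩
    have h6 : mul n (D.c L, b) = exp ((k : ℂ) * L) := by
      rw [hk, hi, Sat.mul_it' h5 i, Hyp.mul_mul hs1', hs2', ← Complex.exp_nat_mul]
    rw [h6]
    exact exp_ne_one_of_far hF hL hk0 hkN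
  · push Not at hnb
    have := repelling_over hP hUo hU hF hL hn hnN hb hnb
    intro h
    rw [h, norm_one] at this
    exact lt_irrefl _ this

/-- over the left half plane: all other cycles are repelling -/
theorem repelling_half {n d : ℕ} (hn : 0 < n) (hd : 0 < d) {c v b : ℂ} (hv : (c, v) ∈ Per d)
    (hvm : ‖mul d (c, v)‖ < 1) (hb : (c, b) ∈ Per n) (hnb : ∀ i, b ≠ it c i v) :
    1 < ‖mul n (c, b)‖ :=
  One49.other_repelling hd hn hv hvm hb fun i hi => hnb i hi.symm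

/-- over the left half plane: no multiplier `1` -/
theorem ne_one_half {n d : ℕ} (hn : 0 < n) (hd : 0 < d) {c v b : ℂ} (hv : (c, v) ∈ Per d)
    (hvm : ‖mul d (c, v)‖ < 1) (hb : (c, b) ∈ Per n) : mul n (c, b) ≠ 1 :=
  One49.no_parabolic hd hn hv hvm hb

end

end Pool.Agent.Work.MLC.PriPer
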