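import Pool.Agent.Work.MLC.PriBarE49b
import Pool.Agent.Work.MLC.PriPer51
import Pool.Agent.Work.MLC.PerL54
import Pool.Agent.Work.MLC.ExtP57

set_option autoImplicit false

/-! # E3: repelling cycles over balls far from the fractions of denominator at most `N / m + 2`

The period constraint of PriPer51 with the bound `(q - 2) m < n` of PerL54 (exact period `m`). -/

namespace Pool.Agent.Work.MLC.PriPer

open Filter Topology Metric Set Complex
open Pri (Exa MM' two_le_MM' RepE)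

lemma finite_word54 {n : ℕ} (hn : 0 < n) : {w : ℕ → ℤ | Word n w}.Finite :=
  (finite_bits hn).subset fun _ hw => ⟨hw.1, hw.2.1⟩

/-- exact period is an open condition -/
lemma exa_nhds54 {d : ℕ} {x₀ : ℂ × ℂ} (h : Exa d x₀) : ∀ᶠ x in 𝓝 x₀, Exa d x := by
  have h1 : ∀ᶠ x in 𝓝 x₀, ∀ k ∈ Finset.range d, 0 < k → it x.1 k x.2 ≠ x.2 := by
    rw [Filter.eventually_all_finset]
    intro k hk
    rcases Nat.eq_zero_or_pos k with h0 | h0
    · exact Eventually.of_forall fun x hx => absurd hx (by omega)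
    · have h2 : Continuous fun x : ℂ × ℂ => it x.1 k x.2 := continuous_it k
      filter_upwards [(isOpen_ne_fun h2 continuous_snd).mem_nhds
        (h k h0 (Finset.mem_range.1 hk))] with x hx _
      exact hx
  filter_upwards [h1] with x hx k hk hkd
  exact hx k (Finset.mem_range.2 hkd) hk

/-- the word of a point of exact period `d` has exact period `d` -/
lemma word54 {d : ℕ} (hd : 0 < d) {c b : ℂ} {θ : ℝ} {w : ℕ → ℤ} (h : ExtP d c b θ w)
    (hex : Exa d (c, b)) : Word d w := by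
  refine ⟨h.2.2.2.1.bit, h.2.2.2.1.per, ?_⟩
  intro k hk hkd
  by_contra hcon
  push Not at hcon
  have h2 : ExtP d c (it c k b) θ w := by
    obtain ⟨a1, a2, a3, a4, a5⟩ := h
    refine ⟨a1, a2, ?_, a4, fun i => ?_⟩
    · rw [Sat.it_comp, add_comm, ← Sat.it_comp, a3]
    · rw [Sat.it_comp, ← hcon i]
      exact a5 (i + k)
  exact hex k hk hkd (extP_inj hd h h2).symm

/-- **circle part of the period constraint** -/
theorem circle_den54 {n d : ℕ} (hn : 0 < n) (hd : 0 < d) {y : ℚ} (hy : 2 ≤ y.den)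
    (h : ∀ δ > 0, ∃ φ : ℝ, 0 < φ ∧ φ < δ ∧ ∀ ε > 0, ∃ (θ : ℝ) (w w' : ℕ → ℤ), 0 ≤ θ ∧ θ ≤ 1 ∧
      Bits n w ∧ Word d w' ∧ |Int.fract (Circ.nu w n θ) - φ| < ε ∧
      ∃ k : ℤ, Circ.nu w' d θ = y + k) : (y.den - 2) * d < n := by
  have hex : ∀ j : ℕ, ∃ (θ : ℝ) (p : (ℕ → ℤ) × (ℕ → ℤ)), θ ∈ Icc (0 : ℝ) 1 ∧
      p ∈ {w | Bits n w} ×ˢ {w | Word d w} ∧ 0 < Int.fract (Circ.nu p.1 n θ) ∧
      Int.fract (Circ.nu p.1 n θ) < 2 * (1 / ((j : ℝ) + 1)) ∧ ∃ k : ℤ, Circ.nu p.2 d θ = y + k := by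
    intro j
    obtain ⟨φ, h1, h2, h3⟩ := h (1 / ((j : ℝ) + 1)) (by positivity)
    obtain ⟨θ, w, w', h4, h5, h6, h7, h8, h9⟩ := h3 (φ / 2) (by linarith)
    rw [abs_lt] at h8
    exact ⟨θ, (w, w'), ⟨h4, h5⟩, ⟨h6, h7⟩, by simp only; linarith, by simp only; linarith, h9⟩
  choose θ p hθ hp hf1 hf2 hk using hex
  obtain ⟨⟨w, w'⟩, hww, hfr⟩ := pigeon ((finite_bits hn).prod (finite_word54 hd)) hp
  obtain ⟨φ₁, hφ₁, hφ₁'⟩ := extraction_of_frequently_atTop hfr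
  obtain ⟨θ₀, -, φ₂, hφ₂, hlim⟩ := isCompact_Icc.tendsto_subseq (fun j => hθ (φ₁ j))
  set ψ : ℕ → ℕ := fun j => φ₁ (φ₂ j) with hψ
  have hψm : StrictMono ψ := hφ₁.comp hφ₂
  have hlim' : Tendsto (fun j => θ (ψ j)) atTop (𝓝 θ₀) := hlim
  have hpe : ∀ j, p (ψ j) = (w, w') := fun j => hφ₁' (φ₂ j)
  -- the attracting word
  have hfz : Tendsto (fun j => Int.fract (Circ.nu w n (θ (ψ j)))) atTop (𝓝 0) := by
    have h1 : Tendsto (fun j : ℕ => 2 * (1 / ((ψ j : ℝ) + 1))) atTop (𝓝 0) := by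
      have := (tendsto_one_div_add_atTop_nhds_zero_nat (𝕜 := ℝ)).comp hψm.tendsto_atTop
      simpa using this.const_mul 2
    refine squeeze_zero (fun j => Int.fract_nonneg _) (fun j => ?_) h1
    have h2 := hf2 (ψ j)
    rw [hpe j] at h2
    exact h2.le
  have hnu : Tendsto (fun j => Circ.nu w n (θ (ψ j))) atTop (𝓝 (Circ.nu w n θ₀)) :=
    ((Circ.nu_continuous w n).tendsto θ₀).comp hlim'
  have hnu' : Tendsto (fun j => ((⌊Circ.nu w n (θ (ψ j))⌋ : ℤ) : ℝ) +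
      Int.fract (Circ.nu w n (θ (ψ j)))) atTop (𝓝 (Circ.nu w n θ₀)) := by
    refine hnu.congr fun j => ?_
    rw [Int.floor_add_fract]
  obtain ⟨k, hk1, hk2⟩ := int_limit hnu' hfz
  rw [add_zero] at hk1
  have hper : ∃ a : ℤ, (2 : ℝ) ^ n * θ₀ - θ₀ = a := by
    refine end_periodic hn hk1 ?_
    refine hlim'.frequently (Eventually.frequently (Eventually.of_forall fun j => ?_))
    intro h1
    have h2 := hf1 (ψ j)
    rw [hpe j, h1] at h2
    simp at h2
  -- the repelling word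
  choose κ hκ using hk
  have hnu2 : Tendsto (fun j => Circ.nu w' d (θ (ψ j))) atTop (𝓝 (Circ.nu w' d θ₀)) :=
    ((Circ.nu_continuous w' d).tendsto θ₀).comp hlim'
  have hnu2' : Tendsto (fun j => ((κ (ψ j) : ℤ) : ℝ) + (y : ℝ)) atTop (𝓝 (Circ.nu w' d θ₀)) := by
    refine hnu2.congr fun j => ?_
    have h1 := hκ (ψ j)
    rw [hpe j] at h1
    rw [h1]; ring
  obtain ⟨k', hk', -⟩ := int_limit hnu2' tendsto_const_nhds
  have hw'W : Word d w' := hww.2
  have hden : (y - (⌊y⌋ : ℤ)).den = y.den := Rat.sub_intCast_den y ⌊y⌋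
  have hfr0 : 0 < y - (⌊y⌋ : ℤ) := by
    rcases (Int.fract_nonneg y).lt_or_eq with h | h
    · exact h
    · exfalso
      have h2 : y - (⌊y⌋ : ℤ) = 0 := h.symm
      rw [h2] at hden
      simp at hden
      omega
  have hfr1 : y - (⌊y⌋ : ℤ) < 1 := Int.fract_lt_one y
  have := perL54 (κ := k' + ⌊y⌋) hd hw'W hfr0 hfr1 hn hper (by
    rw [hk']; push_cast; ring)
  rwa [hden] at this

/-- the rotation number is constant along the attracting component: data over the unit disc -/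
theorem disc_data54 {n d : ℕ} (hn : 0 < n) (hd : 0 < d) {c b v : ℂ} {x : ℚ} (hx : 2 ≤ x.den)
    (hA : (c, b) ∈ Hyp.Att n) (hR : RX d x c v) (hex : Exa d (c, v)) :
    ∃ (s : ℂ → ℂ × ℂ) (v' : ℂ → ℂ), (∀ z ∈ ball (0 : ℂ) 1, s z ∈ Hyp.Att n ∧ mul n (s z) = z) ∧
      ∀ z ∈ ball (0 : ℂ) 1, RX d x (s z).1 (v' z) ∧ Exa d ((s z).1, v' z) := by
  obtain ⟨s, hs, hs', hs0⟩ := Hyp.exists_sec hn hA
  set z₀ := mul n (c, b) with hz₀
  have hz₀b : z₀ ∈ ball (0 : ℂ) 1 := mem_ball_zero_iff.2 hA.2.2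
  obtain ⟨hcM, hvP, hvm, hE⟩ := hR
  have hc1 : ContinuousOn (fun z => (s z).1) (ball 0 1) := continuous_fst.comp_continuousOn hs
  have hb1 : ContinuousOn (fun z => (s z).2) (ball 0 1) := continuous_snd.comp_continuousOn hs
  have hsA : ∀ z ∈ ball (0 : ℂ) 1, ((s z).1, (s z).2) ∈ Hyp.Att n := fun z hz => (hs' z hz).1
  have hH1 : ∀ z ∈ ball (0 : ℂ) 1, ∀ b', ((s z).1, b') ∈ Per d → mul d ((s z).1, b') ≠ 1 := by
    intro z hz b' hb'
    exact One49.no_parabolic hn hd (hsA z hz).1 (hsA z hz).2.2 hb'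
  have hs01 : (s z₀).1 = c := by rw [hs0]
  have hs02 : (s z₀).2 = b := by rw [hs0]
  obtain ⟨v', hv', hv'p, hv'0⟩ := PriHar.exists_cont (c := fun z => (s z).1) hd isOpen_ball
    (convex_ball (0 : ℂ) 1) hc1 hH1 hz₀b (b₀ := v) (by simp only [hs01]; exact hvP)
  have hrep : ∀ z ∈ ball (0 : ℂ) 1, 1 < ‖mul d ((s z).1, v' z)‖ := by
    intro z hz
    refine One49.other_repelling hn hd (hsA z hz).1 (hsA z hz).2.2 (hv'p z hz) fun i hi => ?_
    have h1 := orbit_const (c := fun z => (s z).1) (v := fun z => (s z).2) hn isOpen_ball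
      (convex_ball (0 : ℂ) 1).isPreconnected hc1 hb1 (fun z hz => (hsA z hz).1)
      (fun z hz => (hsA z hz).2.1) hv' hv'p hH1 hz hz₀b (i := i) hi.symm
    simp only [hs01, hs02, hv'0] at h1
    exact not_on_cycle hn hA hvP hvm i h1
  have hMM : ∀ z ∈ ball (0 : ℂ) 1, (s z).1 ∈ MM := fun z hz =>
    mem_MM_of_att hn (hsA z hz).1 (hsA z hz).2.2
  have ht : ∀ z ∈ ball (0 : ℂ) 1, Tendsto (fun z' => (((s z').1, v' z') : ℂ × ℂ)) (𝓝 z)
      (𝓝 ((s z).1, v' z)) := by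
    intro z hz
    have hn' : ball (0 : ℂ) 1 ∈ 𝓝 z := isOpen_ball.mem_nhds hz
    exact (hc1.continuousAt hn').tendsto.prodMk_nhds (hv'.continuousAt hn').tendsto
  have hsub : ball (0 : ℂ) 1 ⊆ {z | z ∈ ball (0 : ℂ) 1 ∧ Ex d x (s z).1 (v' z)} := by
    refine (convex_ball (0 : ℂ) 1).isPreconnected.subset_of_closure_inter_subset ?_
      ⟨z₀, hz₀b, hz₀b, by rw [hs01, hv'0]; exact hE⟩ ?_
    · rw [isOpen_iff_mem_nhds]
      rintro z ⟨hz, h1⟩
      filter_upwards [(ht z hz).eventually (h1.nhds hd (mem_M_iff.1 (hMM z hz)) (hv'p z hz)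
        (hrep z hz)), isOpen_ball.mem_nhds hz] with z' h2 h3
      exact ⟨h3, (h2 (hv'p z' h3)).1 (mem_M_iff.1 (hMM z' h3))⟩
    · rintro z ⟨hzc, hz⟩
      refine ⟨hz, ex_closed hd hx (mem_M_iff.1 (hMM z hz)) (hv'p z hz) (hrep z hz) ?_⟩
      refine (ht z hz).frequently ?_
      refine (mem_closure_iff_frequently.1 hzc).mono ?_
      rintro z' ⟨h2, h3⟩
      exact ⟨hv'p z' h2, mem_M_iff.1 (hMM z' h2), h3⟩
  refine ⟨s, v', hs', fun z hz => ⟨⟨hMM z hz, hv'p z hz, hrep z hz, (hsub hz).2⟩, ?_⟩⟩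
  intro k hk hkd he
  refine hex k hk hkd ?_
  have hvk : ContinuousOn (fun y => it ((s y).1) k (v' y)) (ball (0 : ℂ) 1) :=
    (continuous_it k).comp_continuousOn (hc1.prodMk hv')
  have h2 := PriHar.cont_ne (c := fun z => (s z).1) isOpen_ball
    (convex_ball (0 : ℂ) 1).isPreconnected hc1 hvk hv'
    (fun y hy => Sat.Per_it (hv'p y hy) k) hv'p hH1 hz hz₀b he
  simp only [hs01, hv'0] at h2
  exact h2

/-- the boundary point of internal angle `φ` -/
theorem boundary_point54 {n d : ℕ} (hn : 0 < n) (hd : 0 < d) {x : ℚ} (hx : 2 ≤ x.den)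
    {s : ℂ → ℂ × ℂ} {v : ℂ → ℂ}
    (hs' : ∀ z ∈ ball (0 : ℂ) 1, s z ∈ Hyp.Att n ∧ mul n (s z) = z)
    (hR : ∀ z ∈ ball (0 : ℂ) 1, RX d x (s z).1 (v z))
    (hEx : ∀ z ∈ ball (0 : ℂ) 1, Exa d ((s z).1, v z)) {φ : ℝ}
    (hφ : exp (2 * Real.pi * φ * I) ∉ {w : ℂ | ∃ c b v, (c, v) ∈ Per (d * x.den) ∧
      mul (d * x.den) (c, v) = 1 ∧ (c, b) ∈ Per n ∧ mul n (c, b) = w}) :
    ∃ c b v', (c, b) ∈ Per n ∧ mul n (c, b) = exp (2 * Real.pi * φ * I) ∧ RX d x c v' ∧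
      Exa d (c, v') := by
  set ζ : ℂ := exp (2 * Real.pi * φ * I) with hζ
  have hζ1 : ‖ζ‖ = 1 := by
    rw [hζ, Complex.norm_exp]
    simp
  set t : ℕ → ℂ := fun j => ((1 - 1 / ((j : ℝ) + 2) : ℝ) : ℂ) * ζ with ht
  have ht1 : ∀ j, t j ∈ ball (0 : ℂ) 1 := by
    intro j
    rw [mem_ball_zero_iff, ht]
    simp only
    have h1 : (0 : ℝ) < 1 / ((j : ℝ) + 2) := by positivity
    have h2 : (1 : ℝ) / ((j : ℝ) + 2) ≤ 1 := by
      rw [div_le_one (by positivity)]; linarith [(Nat.cast_nonneg j : (0 : ℝ) ≤ j)]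
    rw [norm_mul, hζ1, mul_one, Complex.norm_real, Real.norm_eq_abs, abs_of_nonneg (by linarith)]
    linarith
  have htl : Tendsto t atTop (𝓝 ζ) := by
    have h1 : Tendsto (fun j : ℕ => (1 - 1 / ((j : ℝ) + 2) : ℝ)) atTop (𝓝 1) := by
      have h2 := (tendsto_one_div_add_atTop_nhds_zero_nat (𝕜 := ℝ)).comp (tendsto_add_atTop_nat 1)
      have h3 : Tendsto (fun j : ℕ => 1 / ((j : ℝ) + 2)) atTop (𝓝 0) := by
        refine h2.congr fun j => ?_
        simp only [Function.comp_apply]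
        push_cast
        ring
      simpa using h3.const_sub 1
    have h2 : Tendsto (fun j : ℕ => ((1 - 1 / ((j : ℝ) + 2) : ℝ) : ℂ)) atTop (𝓝 ((1 : ℝ) : ℂ)) :=
      (Complex.continuous_ofReal.tendsto 1).comp h1
    have h3 := h2.mul_const ζ
    simpa [ht] using h3
  have hmem : ∀ j, ((s (t j)), v (t j)) ∈
      (closedBall (0 : ℂ) 4 ×ˢ closedBall (0 : ℂ) 3) ×ˢ closedBall (0 : ℂ) 5 := by
    intro j
    obtain ⟨h1, h2⟩ := hs' _ (ht1 j)
    obtain ⟨h3, h4⟩ := Per_bdd hn h1.1 (by have := h1.2.2; linarith)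
    refine ⟨⟨mem_closedBall_zero_iff.2 h3, mem_closedBall_zero_iff.2 h4⟩, ?_⟩
    rw [mem_closedBall_zero_iff]
    have h5 : ((s (t j)).1, v (t j)) ∈ Per d := (hR _ (ht1 j)).2.1
    have h6 := norm_le_of_G_zero (G_zero_of_per hd h5)
    linarith
  obtain ⟨⟨y, v₀⟩, -, ψ, hψ, hlim⟩ := (((isCompact_closedBall (0 : ℂ) 4).prod
    (isCompact_closedBall (0 : ℂ) 3)).prod (isCompact_closedBall (0 : ℂ) 5)).tendsto_subseq hmem
  have hl1 : Tendsto (fun j => s (t (ψ j))) atTop (𝓝 y) := (continuous_fst.tendsto _).comp hlim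
  have hl2 : Tendsto (fun j => v (t (ψ j))) atTop (𝓝 v₀) := (continuous_snd.tendsto _).comp hlim
  have hl4 : Tendsto (fun j => t (ψ j)) atTop (𝓝 ζ) := htl.comp hψ.tendsto_atTop
  have hl5 : Tendsto (fun j => (((s (t (ψ j))).1, v (t (ψ j))) : ℂ × ℂ)) atTop (𝓝 (y.1, v₀)) :=
    ((continuous_fst.tendsto y).comp hl1).prodMk_nhds hl2
  have hyP : y ∈ Per n := (isClosed_Per n).mem_of_tendsto hl1
    (Eventually.of_forall fun j => (hs' _ (ht1 (ψ j))).1.1)
  have hym : mul n y = ζ := by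
    have h1 : Tendsto (fun j => mul n (s (t (ψ j)))) atTop (𝓝 (mul n y)) :=
      ((continuous_mul' n).tendsto y).comp hl1
    have h2 : (fun j => mul n (s (t (ψ j)))) = fun j => t (ψ j) :=
      funext fun j => (hs' _ (ht1 (ψ j))).2
    rw [h2] at h1
    exact tendsto_nhds_unique h1 hl4
  have hvP : (y.1, v₀) ∈ Per d := (isClosed_Per d).mem_of_tendsto hl5
    (Eventually.of_forall fun j => (hR _ (ht1 (ψ j))).2.1)
  have hyM : y.1 ∈ MM := by
    have h1 : Tendsto (fun j => (s (t (ψ j))).1) atTop (𝓝 y.1) := (continuous_fst.tendsto y).comp hl1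
    exact isCompact_MM.isClosed.mem_of_tendsto h1
      (Eventually.of_forall fun j => (hR _ (ht1 (ψ j))).1)
  have hmt : Tendsto (fun j => mul d ((s (t (ψ j))).1, v (t (ψ j)))) atTop
      (𝓝 (mul d (y.1, v₀))) := ((continuous_mul' d).tendsto _).comp hl5
  have hre0 : 1 < ‖mul d (y.1, v₀)‖ := by
    by_contra hcon
    push Not at hcon
    have hge : 1 ≤ ‖mul d (y.1, v₀)‖ :=
      ge_of_tendsto' hmt.norm fun j => (hR _ (ht1 (ψ j))).2.2.1.le
    have h1 : ‖mul d (y.1, v₀)‖ = 1 := le_antisymm hcon hge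
    -- logarithms
    set l : ℕ → ℂ := fun j => Complex.log (mul d ((s (t (ψ j))).1, v (t (ψ j)))) with hl
    have hne : ∀ j, mul d ((s (t (ψ j))).1, v (t (ψ j))) ≠ 0 := by
      intro j h0
      have := (hR _ (ht1 (ψ j))).2.2.1
      rw [h0, norm_zero] at this
      linarith
    have hle : ∀ j, exp (l j) = mul d ((s (t (ψ j))).1, v (t (ψ j))) := fun j =>
      Complex.exp_log (hne j)
    have hlre : ∀ j, (l j).re = Real.log ‖mul d ((s (t (ψ j))).1, v (t (ψ j)))‖ := fun j =>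
      Complex.log_re _
    have hlpos : ∀ j, 0 < (l j).re := fun j => by
      rw [hlre j]; exact Real.log_pos (hR _ (ht1 (ψ j))).2.2.1
    have hlz : Tendsto (fun j => (l j).re) atTop (𝓝 0) := by
      have h2 : Tendsto (fun j => Real.log ‖mul d ((s (t (ψ j))).1, v (t (ψ j)))‖) atTop
          (𝓝 (Real.log 1)) := by
        rw [← h1]
        exact hmt.norm.log (by rw [h1]; exact one_ne_zero)
      rw [Real.log_one] at h2
      exact h2.congr fun j => (hlre j).symm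
    have hpl : ∀ j, ∃ p : ℤ, ‖l j - axisPt ((p : ℚ) / (x.den : ℚ))‖ ^ 2 ≤
        2 * d * Real.log 2 / x.den * (l j).re := by
      intro j
      obtain ⟨h3, h4, h5, h6⟩ := hR _ (ht1 (ψ j))
      obtain ⟨p, -, hp⟩ := h6.ply hd hx h3 h4 (hle j).symm (hlpos j)
      exact ⟨p, hp⟩
    choose p hp using hpl
    have hz : Tendsto (fun j => l j - axisPt ((p j : ℚ) / (x.den : ℚ))) atTop (𝓝 0) := by
      rw [tendsto_zero_iff_norm_tendsto_zero]
      have h2 : Tendsto (fun j => Real.sqrt (2 * d * Real.log 2 / x.den * (l j).re)) atTop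
          (𝓝 0) := by
        have h3 : Tendsto (fun j => 2 * (d : ℝ) * Real.log 2 / x.den * (l j).re) atTop
            (𝓝 (2 * d * Real.log 2 / x.den * 0)) := hlz.const_mul _
        rw [mul_zero] at h3
        have h4 := (Real.continuous_sqrt.tendsto 0).comp h3
        rw [Real.sqrt_zero] at h4
        exact h4
      exact squeeze_zero (fun j => norm_nonneg _) (fun j => Real.le_sqrt_of_sq_le (hp j)) h2
    have hpow : Tendsto (fun j => mul d ((s (t (ψ j))).1, v (t (ψ j))) ^ x.den) atTop (𝓝 1) := by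
      have h2 : Tendsto (fun j => exp ((x.den : ℂ) * (l j - axisPt ((p j : ℚ) / (x.den : ℚ)))))
          atTop (𝓝 (exp ((x.den : ℂ) * 0))) :=
        (Complex.continuous_exp.tendsto _).comp (hz.const_mul _)
      rw [mul_zero, Complex.exp_zero] at h2
      refine h2.congr fun j => ?_
      rw [mul_sub, Complex.exp_sub, exp_den_mul x.pos, div_one, Complex.exp_nat_mul, hle j]
    have hone : mul d (y.1, v₀) ^ x.den = 1 := tendsto_nhds_unique (hmt.pow _) hpow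
    apply hφ
    refine ⟨y.1, y.2, v₀, ?_, ?_, hyP, hym⟩
    · have h4 : Function.IsPeriodicPt (f y.1) d v₀ := hvP
      exact h4.trans_dvd ⟨x.den, rfl⟩
    · rw [Hyp.mul_mul hvP, hone]
  refine ⟨y.1, y.2, v₀, hyP, hym, ⟨hyM, hvP, hre0, ?_⟩, ?_⟩
  swap
  · intro k hk hkd he
    have hne : mul d (y.1, v₀) ≠ 1 := by
      intro h5
      rw [h5, norm_one] at hre0
      exact lt_irrefl _ hre0
    obtain ⟨β, -, -, hβe⟩ := chart hvP hne
    have hik : Tendsto (fun j => (((s (t (ψ j))).1, it (s (t (ψ j))).1 k (v (t (ψ j)))) : ℂ × ℂ))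
        atTop (𝓝 (y.1, v₀)) := by
      have h6 : Tendsto (fun p : ℂ × ℂ => ((p.1, it p.1 k p.2) : ℂ × ℂ)) (𝓝 (y.1, v₀))
          (𝓝 (y.1, it y.1 k v₀)) :=
        (continuous_fst.prodMk (continuous_it k)).tendsto (y.1, v₀)
      have h7 : it y.1 k v₀ = v₀ := he
      rw [h7] at h6
      exact h6.comp hl5
    obtain ⟨j, h8, h9⟩ := ((hl5.eventually hβe).and (hik.eventually hβe)).exists
    have hPj := (hR _ (ht1 (ψ j))).2.1
    have h10 := h8.1 hPj
    have h11 := h9.1 (Sat.Per_it hPj k)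
    exact hEx _ (ht1 (ψ j)) k hk hkd (h11.symm.trans h10)
  refine ex_closed hd hx (mem_M_iff.1 hyM) hvP hre0 ?_
  refine hl5.frequently (Eventually.frequently (Eventually.of_forall fun j => ?_))
  obtain ⟨h3, h4, h5, h6⟩ := hR _ (ht1 (ψ j))
  exact ⟨h4, mem_M_iff.1 h3, h6⟩

/-- exterior parameters near a boundary point -/
theorem exterior_near54 {n d : ℕ} (hn : 0 < n) (hd : 0 < d) {c b v : ℂ} {x : ℚ}
    {φ : ℝ} (h0 : 0 < φ) (h1 : φ < 1) (hb : (c, b) ∈ Per n)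
    (hbm : mul n (c, b) = exp (2 * Real.pi * φ * I)) (hR : RX d x c v) (hex : Exa d (c, v)) {ε : ℝ}
    (hε : 0 < ε) : ∃ (θ : ℝ) (w w' : ℕ → ℤ), 0 ≤ θ ∧ θ ≤ 1 ∧
      Bits n w ∧ Word d w' ∧ |Int.fract (Circ.nu w n θ) - φ| < ε ∧
      ∃ k : ℤ, Circ.nu w' d θ = x + k := by
  obtain ⟨-, h3, h4⟩ := Sat.s3_neutral n (c, b) φ hn hb h0 h1 hbm
  have hbne : mul n (c, b) ≠ 1 := by
    rw [hbm]
    intro h5
    rw [Complex.exp_eq_one_iff] at h5
    obtain ⟨k, hk⟩ := h5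
    have h6 := congrArg Complex.im hk
    simp at h6
    have hpi := Real.pi_pos
    have h7 : φ = k := by
      have : (2 * Real.pi) * φ = (2 * Real.pi) * k := by linarith
      exact mul_left_cancel₀ (by positivity) this
    rw [h7] at h0 h1
    have h8 : 0 < k := by exact_mod_cast h0
    have h9 : k < 1 := by exact_mod_cast h1
    omega
  obtain ⟨hcM, hvP, hvm, hE⟩ := hR
  have hvne : mul d (c, v) ≠ 1 := by
    intro h5
    rw [h5, norm_one] at hvm
    exact lt_irrefl _ hvm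
  obtain ⟨β, hβ, hβ0, hβe⟩ := chart hb hbne
  obtain ⟨γ, hγ, hγ0, hγe⟩ := chart hvP hvne
  have htβ := chart_tendsto (x₀ := (c, b)) hβ hβ0
  have htγ := chart_tendsto (x₀ := (c, v)) hγ hγ0
  have h5 := hE.nhds hd (mem_M_iff.1 hcM) hvP hvm
  obtain ⟨c', hc', g1, g2, g3, g4, g5⟩ := (h4.and_eventually ((htβ.eventually hβe).and
    ((htγ.eventually hγe).and ((htβ.eventually (h3 ε hε)).and ((htγ.eventually h5).and
      (htγ.eventually (exa_nhds54 hex))))))).exists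
  have hβP : (c', β c') ∈ Per n := g1.2 rfl
  have hγP : (c', γ c') ∈ Per d := g2.2 rfl
  obtain ⟨θ, hθ⟩ := exists_ang (Sat.not_mem_MM_iff.1 hc')
  have hθ' : Ang c' (Int.fract θ) := by
    have h6 := hθ.add_int (-⌊θ⌋)
    have h7 : θ + ((-⌊θ⌋ : ℤ) : ℝ) = Int.fract θ := by
      push_cast; unfold Int.fract; ring
    rwa [h7] at h6
  obtain ⟨w, hw⟩ := exists_extP_word hn hθ' hβP
  obtain ⟨w', hw'⟩ := exists_extP_word hd hθ' hγP
  exact ⟨Int.fract θ, w, w', Int.fract_nonneg _, (Int.fract_lt_one _).le, hw.2.2.2.1,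
    word54 hd hw' g5, g3 _ _ hw, (g4 hγP).2 _ _ hw'⟩

/-- **the period constraint**: if `c` has an attracting cycle of exact period `n`, then every
rotation number of a repelling periodic point has denominator at most `n` -/
theorem den_le54 {n d : ℕ} (hn : 0 < n) (hd : 0 < d) {c b v : ℂ} {x : ℚ} (hx : 2 ≤ x.den)
    (hA : (c, b) ∈ Hyp.Att n) (hR : RX d x c v) (hex : Exa d (c, v)) :
    (x.den - 2) * d < n := by
  obtain ⟨s, v', hs', hRE'⟩ := disc_data54 hn hd hx hA hR hex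
  have hR' := fun z hz => (hRE' z hz).1
  have hE' := fun z hz => (hRE' z hz).2
  refine circle_den54 hn hd hx fun δ hδ => ?_
  have hbad := finite_bad hn (Nat.mul_pos hd x.pos) (m := d * x.den)
  set Bad := {w : ℂ | ∃ c b v, (c, v) ∈ Per (d * x.den) ∧ mul (d * x.den) (c, v) = 1 ∧
    (c, b) ∈ Per n ∧ mul n (c, b) = w} with hBad
  have hinf : (Ioo (0 : ℝ) (min δ 1)).Infinite := Ioo_infinite (lt_min hδ one_pos)
  have hfin : (Ioo (0 : ℝ) (min δ 1) ∩ {φ : ℝ | exp (2 * Real.pi * φ * I) ∈ Bad}).Finite := by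
    refine Set.Finite.of_finite_image (f := fun φ : ℝ => exp (2 * Real.pi * φ * I))
      (hbad.subset ?_) ?_
    · rintro _ ⟨φ, ⟨-, h⟩, rfl⟩; exact h
    · rintro φ ⟨h, -⟩ φ' ⟨h', -⟩ he
      exact exp_two_pi_inj ⟨h.1, h.2.trans_le (min_le_right _ _)⟩
        ⟨h'.1, h'.2.trans_le (min_le_right _ _)⟩ he
  obtain ⟨φ, hφ, hφ'⟩ := (hinf.sdiff hfin).nonempty
  have hgood : exp (2 * Real.pi * φ * I) ∉ Bad := fun h => hφ' ⟨hφ, h⟩
  obtain ⟨c', b', v₁, h1, h2, h3, h4⟩ := boundary_point54 hn hd hx hs' hR' hE' hgood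
  refine ⟨φ, hφ.1, hφ.2.trans_le (min_le_left _ _), fun ε hε => ?_⟩
  exact exterior_near54 hn hd hφ.1 (hφ.2.trans_le (min_le_right _ _)) h1 h2 h3 h4 hε

section

variable {D : Sat.Dat}

/-- an attracting cycle over the ball is the cycle of `V` -/
theorem no_attracting54 (hP : D.Par) {N : ℕ} {U : Set ℂ} (hU : U ⊆ D.B)
    (hF : Far D.m (MM' N D.m) U) {L : ℂ}
    (hL : L ∈ U) {n : ℕ} (hn : 0 < n) (hnN : n ≤ N) {b : ℂ} (hb : (D.c L, b) ∈ Per n)
    (hm : ‖mul n (D.c L, b)‖ < 1) : ∃ i, b = it (D.c L) i (D.b L) := by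
  by_contra hnb
  push Not at hnb
  have hb' : Function.IsPeriodicPt (f (D.c L)) n b := hb
  set n₂ := Function.minimalPeriod (f (D.c L)) b with hn₂
  have hn₂0 : 0 < n₂ := hb'.minimalPeriod_pos hn
  obtain ⟨k, hk⟩ := hb'.minimalPeriod_dvd
  have hn₂n : n₂ ≤ n := hb'.minimalPeriod_le hn
  have hb₂ : (D.c L, b) ∈ Per n₂ := Function.isPeriodicPt_minimalPeriod (f (D.c L)) b
  have hA : (D.c L, b) ∈ Hyp.Att n₂ := by
    refine ⟨hb₂, fun e he hen h => ?_, ?_⟩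
    · have h1 : Function.IsPeriodicPt (f (D.c L)) e b := h
      have := h1.minimalPeriod_le he
      omega
    · by_contra hge
      push Not at hge
      have h1 : mul n (D.c L, b) = mul n₂ (D.c L, b) ^ k := by
        conv_lhs => rw [hk]
        exact Hyp.mul_mul hb₂
      rw [h1, norm_pow] at hm
      exact absurd hm (not_lt.2 (one_le_pow₀ hge))
  obtain ⟨h1, h2⟩ := hP.sec L (hU hL)
  have h1' : (D.c L, D.b L) ∈ Per D.m := h1
  have h2' : mul D.m (D.c L, D.b L) = exp L := h2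
  have hrep : 1 < ‖mul D.m (D.c L, D.b L)‖ := by
    refine One49.other_repelling hn₂0 hP.m_pos hA.1 hA.2.2 h1' fun i hi => ?_
    refine hnb (n₂ * i - i) ?_
    have hi' : it (D.c L) i b = D.b L := hi
    rw [← hi']
    exact (Sat.it_back hn₂0 hb₂ i).symm
  have hre : 0 < L.re := by
    rw [h2', Complex.norm_exp] at hrep
    exact Real.one_lt_exp_iff.1 hrep
  have hM : D.c L ∈ MM := mem_MM_of_att (x := (D.c L, b)) hn₂0 hA.1 hA.2.2
  obtain ⟨x, hx⟩ := exists_ex hP.m_pos (mem_M_iff.1 hM) h1' hrep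
  have hxn : x.den ≤ MM' N D.m := by
    rcases Nat.lt_or_ge x.den 2 with h | h
    · have := two_le_MM' N D.m
      omega
    · have h6 := den_le54 hn₂0 hP.m_pos h hA ⟨hM, h1', hrep, hx⟩
        (fun k hk hkd => hP.prim L (hU hL) k hk hkd)
      have h7 : x.den - 2 ≤ N / D.m := by
        rw [Nat.le_div_iff_mul_le hP.m_pos]
        omega
      unfold MM'
      omega
  obtain ⟨p, -, hp⟩ := hx.ply' hP.m_pos hM h1' h2' hre
  have hden : ((p : ℚ) / (x.den : ℚ)).den ≤ x.den := by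
    have h6 := Rat.den_dvd p (x.den : ℤ)
    rw [Rat.divInt_eq_div] at h6
    have h7 : ((p : ℚ) / (x.den : ℚ)) = (p : ℚ) / ((x.den : ℤ) : ℚ) := by push_cast; rfl
    rw [h7]
    exact Nat.le_of_dvd x.pos (by exact_mod_cast h6)
  refine hF _ (by omega) L hL (hp.trans ?_)
  have hy0 : (0 : ℝ) < ((p : ℚ) / (x.den : ℚ)).den := by exact_mod_cast Rat.pos _
  have hlog : 0 ≤ Real.log 2 := Real.log_nonneg (by norm_num)
  have h8 : (((p : ℚ) / (x.den : ℚ)).den : ℝ) ≤ x.den := by exact_mod_cast hden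
  gcongr

/-- **over a ball far from the small denominators all cycles of small period other than the cycle
of `V` are repelling** -/
theorem repelling_over54 (hP : D.Par) {N : ℕ} {U : Set ℂ} (hUo : IsOpen U) (hU : U ⊆ D.B)
    (hF : Far D.m (MM' N D.m) U) {L : ℂ} (hL : L ∈ U) {n : ℕ} (hn : 0 < n) (hnN : n ≤ N) {b : ℂ}
    (hb : (D.c L, b) ∈ Per n) (hnb : ∀ i, b ≠ it (D.c L) i (D.b L)) :
    1 < ‖mul n (D.c L, b)‖ := by
  by_contra hle
  push Not at hle
  obtain ⟨V₁, hV₁, V₂, hV₂, hV⟩ := mem_nhds_prod_iff.1 (nonV_nhds hP (hU hL) hnb)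
  by_cases h1 : mul n (D.c L, b) = 1
  · -- parabolic
    obtain ⟨A, hA, hAL, B, hB, hB1, hres⟩ : ∃ A : Set ℂ, IsOpen A ∧ L ∈ A ∧ ∃ B : Set ℂ, IsOpen B ∧
        (1 : ℂ) ∈ B ∧ ∀ L' ∈ A, ∀ k, n = D.m * k → exp ((k : ℂ) * L') ∉ B := by
      by_cases hdiv : D.m ∣ n
      · obtain ⟨k, hk⟩ := hdiv
        have hk0 : 0 < k := Nat.pos_of_ne_zero (by rintro rfl; rw [mul_zero] at hk; omega)
        have hkN : k ≤ MM' N D.m := by
          have h6 : k ≤ N / D.m := by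
            rw [Nat.le_div_iff_mul_le hP.m_pos, mul_comm, ← hk]
            exact hnN
          unfold MM'
          omega
        obtain ⟨A', B', hA', hB', hA1, hB1, hAB⟩ := t2_separation
          (exp_ne_one_of_far hF hL hk0 hkN)
        refine ⟨{L' | exp ((k : ℂ) * L') ∈ A'}, hA'.preimage (by fun_prop), hA1, B', hB', hB1,
          fun L' hL' k' hk' hB'' => ?_⟩
        have hkk : k' = k := by
          have h3 : D.m * k' = D.m * k := by rw [← hk', ← hk]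
          exact Nat.eq_of_mul_eq_mul_left hP.m_pos h3
        rw [hkk] at hB''
        exact Set.disjoint_left.1 hAB hL' hB''
      · exact ⟨univ, isOpen_univ, mem_univ _, univ, isOpen_univ, mem_univ _,
          fun L' _ k hk => absurd ⟨k, hk⟩ hdiv⟩
    have hW : D.c '' (A ∩ U) ∈ 𝓝 (D.c L) := by
      rw [← Sat.c_map_nhds hP (hU hL)]
      exact image_mem_map (inter_mem (hA.mem_nhds hAL) (hUo.mem_nhds hL))
    have h2 := One49.near_parabolic hn hb h1 hW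
    have h3 : ∃ᶠ w in 𝓝 (1 : ℂ), w ∈ ball (0 : ℂ) 1 := by
      refine mem_closure_iff_frequently.1 ?_
      rw [closure_ball (0 : ℂ) one_ne_zero, mem_closedBall_zero_iff, norm_one]
    obtain ⟨w, hw, ⟨c', ⟨L', ⟨hL'A, hL'U⟩, rfl⟩, b', hb', hbw⟩, hwB⟩ :=
      (h3.and_eventually (h2.and (hB.mem_nhds hB1))).exists
    rw [mem_ball_zero_iff] at hw
    have hbw' : mul n (D.c L', b') = w := hbw
    have hbP' : (D.c L', b') ∈ Per n := hb'
    obtain ⟨i, hi⟩ := no_attracting54 hP hU hF hL'U hn hnN hbP' (by rw [hbw']; exact hw)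
    obtain ⟨hs1, hs2⟩ := hP.sec L' (hU hL'U)
    have hs1' : (D.c L', D.b L') ∈ Per D.m := hs1
    have hs2' : mul D.m (D.c L', D.b L') = exp L' := hs2
    obtain ⟨k, hk⟩ := dvd_of_orbit hP.m_pos hs1' (hP.prim L' (hU hL'U)) hi hbP'
    apply hres L' hL'A k hk
    have h5 : (D.c L', D.b L') ∈ Per (D.m * k) := by
      have h4 : Function.IsPeriodicPt (f (D.c L')) D.m (D.b L') := hs1'
      exact h4.trans_dvd ⟨k, rfl⟩
    have h6 : mul n (D.c L', b') = exp ((k : ℂ) * L') := by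
      rw [hk, hi, Sat.mul_it' h5 i, Hyp.mul_mul hs1', hs2', ← Complex.exp_nat_mul]
    rw [← h6, hbw']
    exact hwB
  · -- open mapping
    have hW : (D.c '' (V₁ ∩ U)) ×ˢ V₂ ∈ 𝓝 (D.c L, b) := by
      refine prod_mem_nhds ?_ hV₂
      rw [← Sat.c_map_nhds hP (hU hL)]
      exact image_mem_map (inter_mem hV₁ (hUo.mem_nhds hL))
    have h2 := mul_open hn hb h1 (by linarith) hW
    have h3 : ∃ᶠ w in 𝓝 (mul n (D.c L, b)), w ∈ ball (0 : ℂ) 1 := by
      refine mem_closure_iff_frequently.1 ?_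
      rw [closure_ball (0 : ℂ) one_ne_zero, mem_closedBall_zero_iff]
      exact hle
    obtain ⟨w, hw, ⟨c', b'⟩, ⟨⟨⟨L', ⟨hL'V, hL'U⟩, hL'c⟩, hb'V⟩, hb'P⟩, hbw⟩ :=
      (h3.and_eventually h2).exists
    rw [mem_ball_zero_iff] at hw
    simp only at hL'c hb'V
    subst hL'c
    obtain ⟨i, hi⟩ := no_attracting54 hP hU hF hL'U hn hnN hb'P (by rw [hbw]; exact hw)
    exact hV (show (L', b') ∈ V₁ ×ˢ V₂ from ⟨hL'V, hb'V⟩) (hU hL'U) i hi


end

/-- **E3** -/
theorem repE54 (N : ℕ) : RepE N := by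
  intro D U hP _ hUo hU hF L hL m hm hmN b hb
  exact repelling_over54 hP hUo hU hF hL hm hmN hb.1 hb.2.2

end Pool.Agent.Work.MLC.PriPer
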