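import Pool.Agent.Work.MLC.PriBT57d
import Pool.Agent.Work.MLC.RepE54

set_option autoImplicit false

/-! # The limb pieces of all components with exponent five (helper57) -/

namespace Pool.Agent.Work.MLC.Pri

/-- **all components**, exponent five -/
theorem rootPieceE_all : RootPiece fun n => 1 / ((8 * 10 ^ 11) * n ^ 5) :=
  rootPieceE_of_repE fun N _ => PriPer.repE54 N

end Pool.Agent.Work.MLC.Pri
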