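import Pool.Agent.Work.MLC.PriCutE49
import Pool.Agent.Work.MLC.PriBar49

set_option autoImplicit false

/-! # The two cuts with small exponents (helper49)

`V` has period `m`, the cycles have period `n ≤ N`, `M = N / m + 2`, `Q` is the denominator of `x`;
only fractions of denominator at most `M` are avoided; `r = 1 / (8 m Q M ^ 2)`, the denominators of
the cut values are of size `m ^ 2 Q M ^ 2`, the depth of the rectangle is `1 / (Q M)`. -/

namespace Pool.Agent.Work.MLC.Pri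

open Filter Topology Metric Set Complex
open PriHar (Oth)

/-- the order of the fractions to be avoided -/
def MM' (N m : ℕ) : ℕ := N / m + 2

lemma two_le_MM' (N m : ℕ) : 2 ≤ MM' N m := Nat.le_add_left 2 _

lemma mul_MM'_le {N m : ℕ} (hmN : m ≤ N) : m * MM' N m ≤ 3 * N := by
  have h1 : m * (N / m) ≤ N := Nat.mul_div_le N m
  unfold MM'
  rw [mul_add]
  omega

lemma MM'_le (N m : ℕ) : MM' N m ≤ N + 2 := by
  unfold MM'
  have := Nat.div_le_self N m
  omega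

/-- the radius -/
noncomputable def rE (m Q M : ℕ) : ℝ := 1 / (8 * m * (Q * (M : ℝ) ^ 2))

/-- far from the fractions of small denominator, weighted -/
def FarE (q M : ℕ) (x : ℝ) : Prop := ∀ (P : ℤ) (Q : ℕ), 0 < Q → Q ≤ M →
  1 / (16 * (q * (M : ℝ) ^ 2)) ≤ ((P : ℝ) / Q - x) ^ 2 * Q

/-- **the cut values** (arithmetic) -/
theorem exists_valuesE {M m : ℕ} (hM : 2 ≤ M) (hm : 0 < m) {x : ℚ} (h0 : 0 < x) (h1 : x < 1)
    (hx : x.den ≤ M) :
    ∃ x₁ x₂ : ℚ, 1 / (2 * (x.den : ℝ)) ≤ x₁ ∧ (x₁ : ℝ) < x ∧ (x : ℝ) < x₂ ∧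
      (x₂ : ℝ) ≤ 1 - 1 / (2 * (x.den : ℝ)) ∧
      1 / (4 * (x.den : ℝ) * M) < x - x₁ ∧ (x : ℝ) - x₁ < 1 / (2 * (x.den : ℝ) * M) ∧
      1 / (4 * (x.den : ℝ) * M) < x₂ - x ∧ (x₂ : ℝ) - x < 1 / (2 * (x.den : ℝ) * M) ∧
      FarE x.den M x₁ ∧ FarE x.den M x₂ ∧
      2 ^ 8 * (m ^ 2 * (x.den * M ^ 2)) ≤ x₁.den ∧ x₁.den ≤ 2 ^ 9 * (m ^ 2 * (x.den * M ^ 2)) ∧
      2 ^ 8 * (m ^ 2 * (x.den * M ^ 2)) ≤ x₂.den ∧
      x₂.den ≤ 2 ^ 9 * (m ^ 2 * (x.den * M ^ 2)) := by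
  have hMr : (2 : ℝ) ≤ M := by exact_mod_cast hM
  have hm1 : (1 : ℝ) ≤ m := by exact_mod_cast hm
  have hQ0 : (0 : ℝ) < x.den := by exact_mod_cast x.pos
  have hQ1 : (1 : ℝ) ≤ x.den := by exact_mod_cast x.pos
  have hQM : (x.den : ℝ) ≤ M := by exact_mod_cast hx
  obtain ⟨κ, hκ1, hκ2⟩ := exists_kappa (2 ^ 8 * (m ^ 2 * (x.den * M ^ 2)))
    (by have := x.pos; positivity)
  have hκr : 2 ^ 8 * ((m : ℝ) ^ 2 * (x.den * (M : ℝ) ^ 2)) ≤ 2 ^ κ := by exact_mod_cast hκ1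
  have h2κ : (0 : ℝ) < 2 ^ κ := by positivity
  -- the spacing
  have hsp : 2 / (2 : ℝ) ^ κ < 1 / (4 * (x.den : ℝ) * M) := by
    rw [div_lt_div_iff₀ h2κ (by positivity)]
    have e1 : (x.den : ℝ) * M ≤ x.den * (M : ℝ) ^ 2 := by
      have : (M : ℝ) ≤ (M : ℝ) ^ 2 := le_self_pow₀ (by linarith only [hMr]) two_ne_zero
      exact mul_le_mul_of_nonneg_left this hQ0.le
    have e2 : x.den * (M : ℝ) ^ 2 ≤ (m : ℝ) ^ 2 * (x.den * (M : ℝ) ^ 2) :=
      le_mul_of_one_le_left (by positivity) (one_le_pow₀ hm1)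
    have e3 : (0 : ℝ) < x.den * (M : ℝ) ^ 2 := by positivity
    linarith only [hκr, e1, e2, e3]
  set u : ℝ := 1 / (4 * (x.den : ℝ) * M) with hu
  have hu0 : 0 < u := by positivity
  have hu2 : 1 / (2 * (x.den : ℝ) * M) = 2 * u := by rw [hu]; field_simp; norm_num
  obtain ⟨a, ha, ha1, ha2⟩ := exists_odd49 κ (a := (x : ℝ) - 2 * u)
  obtain ⟨b, hb, hb1, hb2⟩ := exists_odd49 κ (a := (x : ℝ) + u)
  have e1 : (((a : ℚ) / ((2 ^ κ : ℕ) : ℚ) : ℚ) : ℝ) = (a : ℝ) / 2 ^ κ := by push_cast; rfl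
  have e2 : (((b : ℚ) / ((2 ^ κ : ℕ) : ℚ) : ℚ) : ℝ) = (b : ℝ) / 2 ^ κ := by push_cast; rfl
  have hxe : (x : ℝ) = (x.num : ℝ) / (x.den : ℝ) := Rat.cast_def x
  have hx0 : 1 / (x.den : ℝ) ≤ x := by
    have h3 : (1 : ℝ) ≤ x.num := by exact_mod_cast Rat.num_pos.2 h0
    rw [hxe]; gcongr
  have hx1 : (x : ℝ) ≤ 1 - 1 / x.den := by
    have h3 : x.num + 1 ≤ (x.den : ℤ) := by
      have h4 : x.num < x.den := by
        have h6 := (Rat.lt_iff x 1).1 h1
        simpa using h6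
      omega
    have h4 : (x.num : ℝ) + 1 ≤ x.den := by exact_mod_cast h3
    rw [hxe, div_le_iff₀ hQ0, sub_mul, one_div_mul_cancel hQ0.ne']
    linarith only [h4]
  have hinv : 2 * u ≤ 1 / (2 * x.den) := by
    rw [← hu2]
    exact one_div_le_one_div_of_le (by positivity)
      (le_mul_of_one_le_right (by positivity) (by linarith only [hMr]))
  have hinv2 : 1 / (x.den : ℝ) = 2 * (1 / (2 * x.den)) := by field_simp
  -- the general distance estimate
  have hfar : ∀ z : ℝ, u < |x - z| → |x - z| < 2 * u → FarE x.den M z := by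
    intro z hz1 hz2 P Q hQ hQM'
    have hQr : (0 : ℝ) < Q := by exact_mod_cast hQ
    have hQMr : (Q : ℝ) ≤ M := by exact_mod_cast hQM'
    by_cases he : (P : ℝ) / Q = (x : ℝ)
    · have hQx : x.den ≤ Q := by
        have h3 : x = (P : ℚ) / (Q : ℚ) := by
          have : ((x : ℚ) : ℝ) = (((P : ℚ) / (Q : ℚ) : ℚ) : ℝ) := by push_cast; exact he.symm
          exact_mod_cast this
        have h4 : (x.den : ℤ) ∣ (Q : ℤ) := by
          have h5 := Rat.den_dvd P Q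
          rw [Rat.divInt_eq_div] at h5
          rw [h3]; exact_mod_cast h5
        exact Nat.le_of_dvd hQ (by exact_mod_cast h4)
      have hQx' : (x.den : ℝ) ≤ Q := by exact_mod_cast hQx
      rw [he]
      have h5 : u ^ 2 ≤ ((x : ℝ) - z) ^ 2 := by
        rw [← sq_abs ((x : ℝ) - z)]
        exact pow_le_pow_left₀ hu0.le hz1.le 2
      calc 1 / (16 * (x.den * (M : ℝ) ^ 2)) = u ^ 2 * x.den := by
            rw [hu]; field_simp; norm_num
        _ ≤ ((x : ℝ) - z) ^ 2 * Q := mul_le_mul h5 hQx' hQ0.le (sq_nonneg _)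
    · -- different fractions
      have h3 : 1 / ((x.den : ℝ) * Q) ≤ |(P : ℝ) / Q - x| := by
        rw [hxe]
        have e3 : (P : ℝ) / Q - (x.num : ℝ) / x.den = ((P * x.den - x.num * Q : ℤ) : ℝ) / (Q * x.den) := by
          push_cast
          field_simp
        have hz : (P * x.den - x.num * Q : ℤ) ≠ 0 := by
          intro h
          apply he
          rw [hxe]
          have : (P : ℝ) / Q - (x.num : ℝ) / x.den = 0 := by rw [e3, h]; simp
          exact sub_eq_zero.1 this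
        have h4 : (1 : ℝ) ≤ |((P * x.den - x.num * Q : ℤ) : ℝ)| := by
          exact_mod_cast Int.one_le_abs hz
        rw [e3, abs_div, abs_of_pos (mul_pos hQr hQ0), mul_comm (x.den : ℝ)]
        gcongr
      have h4 : 2 * (2 * u) ≤ 1 / ((x.den : ℝ) * Q) := by
        have : 2 * (2 * u) = 1 / ((x.den : ℝ) * M) := by rw [hu]; field_simp; norm_num
        rw [this]
        exact one_div_le_one_div_of_le (by positivity) (mul_le_mul_of_nonneg_left hQMr hQ0.le)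
      have h5 : 1 / (2 * ((x.den : ℝ) * Q)) ≤ |(P : ℝ) / Q - z| := by
        have h6 : |(P : ℝ) / Q - x| ≤ |(P : ℝ) / Q - z| + |x - z| := by
          have := abs_sub_le ((P : ℝ) / Q) z x
          rwa [abs_sub_comm z x] at this
        have h7 : 1 / (2 * ((x.den : ℝ) * Q)) = 1 / ((x.den : ℝ) * Q) / 2 := by field_simp
        rw [h7]
        linarith only [h3, h4, h6, hz2]
      calc 1 / (16 * (x.den * (M : ℝ) ^ 2)) ≤ (1 / (2 * ((x.den : ℝ) * Q))) ^ 2 * Q := by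
            rw [div_pow, one_pow, div_mul_eq_mul_div, one_mul,
              div_le_div_iff₀ (by positivity) (by positivity)]
            have e3 : (2 * ((x.den : ℝ) * Q)) ^ 2 = 4 * (x.den * (x.den * Q)) * Q := by ring
            rw [e3, one_mul]
            have e4 : x.den * ((x.den : ℝ) * Q) ≤ x.den * (M * M) :=
              mul_le_mul_of_nonneg_left (mul_le_mul hQM hQMr hQr.le (by linarith only [hMr])) hQ0.le
            have e5 : 4 * (x.den * ((x.den : ℝ) * Q)) * Q ≤ 4 * (x.den * (M * M)) * Q :=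
              mul_le_mul_of_nonneg_right (mul_le_mul_of_nonneg_left e4 (by norm_num)) hQr.le
            have e6 : (0 : ℝ) ≤ (x.den * (M * M)) * Q := by positivity
            linarith only [e5, e6]
        _ ≤ |(P : ℝ) / Q - z| ^ 2 * Q :=
          mul_le_mul_of_nonneg_right (pow_le_pow_left₀ (by positivity) h5 2) hQr.le
        _ = _ := by rw [sq_abs]
  have A1 : u < (x : ℝ) - (a : ℝ) / 2 ^ κ := by linarith only [ha1, ha2, hsp]
  have A2 : (x : ℝ) - (a : ℝ) / 2 ^ κ < 2 * u := by linarith only [ha1, ha2, hsp]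
  have B1 : u < (b : ℝ) / 2 ^ κ - x := by linarith only [hb1, hb2, hsp]
  have B2 : (b : ℝ) / 2 ^ κ - x < 2 * u := by linarith only [hb1, hb2, hsp]
  refine ⟨(a : ℚ) / ((2 ^ κ : ℕ) : ℚ), (b : ℚ) / ((2 ^ κ : ℕ) : ℚ), ?_, ?_, ?_, ?_, ?_, ?_, ?_, ?_,
    ?_, ?_, ?_, ?_, ?_, ?_⟩
  · rw [e1]; linarith only [A2, hx0, hinv, hinv2]
  · rw [e1]; linarith only [A1, hu0]
  · rw [e2]; linarith only [B1, hu0]
  · rw [e2]; linarith only [B2, hx1, hinv, hinv2]
  · rw [e1]; exact A1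
  · rw [e1, hu2]; exact A2
  · rw [e2]; exact B1
  · rw [e2, hu2]; exact B2
  · rw [e1]
    have A3 := abs_of_pos (hu0.trans A1)
    exact hfar _ (A1.trans_eq A3.symm) (A3.trans_lt A2)
  · rw [e2]
    have B3 : |(x : ℝ) - (b : ℝ) / 2 ^ κ| = (b : ℝ) / 2 ^ κ - x := by
      rw [abs_sub_comm]; exact abs_of_pos (hu0.trans B1)
    exact hfar _ (B1.trans_eq B3.symm) (B3.trans_lt B2)
  · rw [den_odd a κ ha]; exact hκ1
  · rw [den_odd a κ ha]
    calc 2 ^ κ ≤ 2 * (2 ^ 8 * (m ^ 2 * (x.den * M ^ 2))) := hκ2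
      _ = _ := by ring
  · rw [den_odd b κ hb]; exact hκ1
  · rw [den_odd b κ hb]
    calc 2 ^ κ ≤ 2 * (2 ^ 8 * (m ^ 2 * (x.den * M ^ 2))) := hκ2
      _ = _ := by ring

end Pool.Agent.Work.MLC.Pri
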