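import Pool.Agent.Work.MLC.PriBarE49
import Pool.Agent.Work.MLC.ExEx59
import Pool.Agent.Work.MLC.MidExact13

set_option autoImplicit false

/-! # The two cuts with small exponents, part 2 (helper49) -/

namespace Pool.Agent.Work.MLC.Pri

open Filter Topology Metric Set Complex
open PriHar (Oth)

/-- the limb disc inequality with the combinatorial rotation number (helper59) -/
lemma exExact {n : ℕ} (hn : 0 < n) {x : ℚ} (hx0 : 0 < x) (hx1 : x < 1)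
    (hQ : 100 * (n : ℝ) ^ 2 ≤ x.den * (min (x : ℝ) (1 - x)) ^ 2) : ExExact n x := by
  intro c b L hM hb hL hre hE
  obtain ⟨j, -, h⟩ := BarM.ex_exact hn hx0 hx1 hQ hM hb hL hre hE
  exact ⟨j, h⟩

section

variable {m Q M : ℕ}

lemma rE_pos (hm : 0 < m) (hQ : 0 < Q) (hM : 2 ≤ M) : 0 < rE m Q M := by
  have h1 : (0 : ℝ) < m := by exact_mod_cast hm
  have h2 : (2 : ℝ) ≤ M := by exact_mod_cast hM
  have h3 : (0 : ℝ) < Q := by exact_mod_cast hQ
  unfold rE; positivity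

/-- the no-disc condition -/
lemma farE (hm : 0 < m) (hQ : 0 < Q) (hQM : Q ≤ M) (hM : 2 ≤ M) {x : ℚ} (hF : FarE Q M x) :
    PriPer.Far m M (ball (axisPt x) (rE m Q M)) := by
  intro y hy L hL hcon
  have hm1 : (1 : ℝ) ≤ m := by exact_mod_cast hm
  have hM2 : (2 : ℝ) ≤ M := by exact_mod_cast hM
  have hQ1 : (1 : ℝ) ≤ Q := by exact_mod_cast hQ
  have hQMr : (Q : ℝ) ≤ M := by exact_mod_cast hQM
  have hr := rE_pos hm hQ hM
  have hy1 : (1 : ℝ) ≤ y.den := by exact_mod_cast y.pos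
  have hyM : (y.den : ℝ) ≤ M := by exact_mod_cast hy
  have h1 := hF y.num y.den y.pos hy
  have hye : (y : ℝ) = ((y.num : ℝ) / (y.den : ℝ)) := Rat.cast_def y
  rw [← hye] at h1
  set d : ℝ := |(y : ℝ) - x| with hd
  have hd0 : 0 ≤ d := abs_nonneg _
  have h1' : 1 / (16 * (Q * (M : ℝ) ^ 2)) ≤ d ^ 2 * y.den := by rw [hd, sq_abs]; exact h1
  -- the distance is at least `1 / (4 M ^ 2)`
  have hd1 : 1 / (4 * (M : ℝ) ^ 2) ≤ d := by
    refine abs_le_of_sq_le_sq' ?_ hd0 |>.2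
    have h2 : d ^ 2 * y.den ≤ d ^ 2 * M := mul_le_mul_of_nonneg_left hyM (sq_nonneg _)
    have h3 : 1 / (16 * (Q * (M : ℝ) ^ 2)) ≤ d ^ 2 * M := h1'.trans h2
    have h4 : (1 / (4 * (M : ℝ) ^ 2)) ^ 2 * M ≤ 1 / (16 * (Q * (M : ℝ) ^ 2)) := by
      have h5 : (1 / (4 * (M : ℝ) ^ 2)) ^ 2 * M = 1 / (16 * (M * (M : ℝ) ^ 2)) := by
        field_simp; norm_num
      rw [h5]
      exact one_div_le_one_div_of_le (by positivity)
        (mul_le_mul_of_nonneg_left (mul_le_mul_of_nonneg_right hQMr (sq_nonneg _)) (by norm_num))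
    exact le_of_mul_le_mul_right (h4.trans h3) (by linarith only [hM2])
  have hr1 : rE m Q M ≤ d := by
    refine le_trans ?_ hd1
    unfold rE
    refine one_div_le_one_div_of_le (by positivity) ?_
    have h2 : (0 : ℝ) ≤ (M : ℝ) ^ 2 := sq_nonneg _
    have h3 : (M : ℝ) ^ 2 ≤ Q * (M : ℝ) ^ 2 := le_mul_of_one_le_left h2 hQ1
    have h4 : 4 * (Q * (M : ℝ) ^ 2) ≤ 8 * m * (Q * (M : ℝ) ^ 2) :=
      mul_le_mul_of_nonneg_right (by linarith only [hm1]) (h2.trans h3)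
    linarith only [h3, h4]
  have hLn : ‖L - axisPt x‖ < rE m Q M := by rw [← dist_eq_norm]; exact hL
  have h4 : ‖axisPt x - axisPt y‖ = 2 * Real.pi * d := by
    have e : axisPt x - axisPt y = ((2 * Real.pi * ((x : ℝ) - y) : ℝ) : ℂ) * I := by
      unfold axisPt; push_cast; ring
    rw [e, norm_mul, norm_I, mul_one, norm_real, Real.norm_eq_abs, abs_mul,
      abs_of_pos (by positivity : (0 : ℝ) < 2 * Real.pi), hd, abs_sub_comm]
  have h5 : 5 * d ≤ ‖L - axisPt y‖ := by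
    have h6 := norm_sub_le (L - axisPt y) (L - axisPt x)
    have e : L - axisPt y - (L - axisPt x) = axisPt x - axisPt y := by ring
    rw [e, h4] at h6
    have h7 : 6 * d ≤ 2 * Real.pi * d :=
      mul_le_mul_of_nonneg_right (by linarith only [Real.pi_gt_three]) hd0
    linarith only [h6, h7, hLn, hr1]
  have h6 : L.re < rE m Q M := by
    have h3 := (abs_re_le_norm (L - axisPt x)).trans_lt hLn
    have h4 : (L - axisPt x).re = L.re := by simp [axisPt]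
    rw [h4] at h3
    exact (le_abs_self _).trans_lt h3
  have h7 : (5 * d) ^ 2 ≤ ‖L - axisPt y‖ ^ 2 := pow_le_pow_left₀ (by positivity) h5 2
  have h8 : 2 * (m : ℝ) * Real.log 2 / y.den * L.re ≤ 2 * m * 1 / y.den * rE m Q M := by
    have h9 : 0 ≤ 2 * (m : ℝ) * Real.log 2 / y.den := by
      have := Real.log_pos (by norm_num : (1 : ℝ) < 2)
      positivity
    have h10 : 2 * (m : ℝ) * Real.log 2 / y.den ≤ 2 * m * 1 / y.den := by
      have h11 : Real.log 2 ≤ 1 := by linarith only [Real.log_two_lt_d9]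
      exact div_le_div_of_nonneg_right (mul_le_mul_of_nonneg_left h11 (by positivity))
        (by positivity)
    calc _ ≤ 2 * (m : ℝ) * Real.log 2 / y.den * rE m Q M := mul_le_mul_of_nonneg_left h6.le h9
      _ ≤ _ := mul_le_mul_of_nonneg_right h10 hr.le
  have h9 : 2 * (m : ℝ) * 1 / y.den * rE m Q M =
      4 * (1 / (16 * (Q * (M : ℝ) ^ 2))) / y.den := by
    unfold rE; field_simp; norm_num
  have h10 : 4 * (1 / (16 * (Q * (M : ℝ) ^ 2))) / y.den ≤ 4 * d ^ 2 := by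
    rw [div_le_iff₀ (zero_lt_one.trans_le hy1)]
    linarith only [h1']
  have h11 : 25 * d ^ 2 ≤ 4 * d ^ 2 := by
    calc 25 * d ^ 2 = (5 * d) ^ 2 := by ring
      _ ≤ _ := h7.trans (hcon.trans (h8.trans (h9.le.trans h10)))
  have h12 : 0 < d := lt_of_lt_of_le (by positivity) hd1
  have h13 : 0 < d ^ 2 := pow_pos h12 2
  linarith only [h11, h13]

/-- resonances -/
lemma exp_ne_one_rE (hm : 0 < m) (hQ : 0 < Q) (hQM : Q ≤ M) (hM : 2 ≤ M) {x : ℚ}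
    (hF : FarE Q M x) {L : ℂ} (hL : L ∈ ball (axisPt x) (rE m Q M)) {k : ℕ} (hk : 0 < k)
    (hkM : k ≤ M) : exp ((k : ℂ) * L) ≠ 1 :=
  PriPer.exp_ne_one_of_far (farE hm hQ hQM hM hF) hL hk hkM

lemma rE_le_gR (hm : 0 < m) (hQ : 0 < Q) (hQM : Q ≤ M) (hM : 2 ≤ M) {x : ℚ}
    (h0 : 1 / (2 * (Q : ℝ)) ≤ x) (h1 : (x : ℝ) ≤ 1 - 1 / (2 * (Q : ℝ))) :
    rE m Q M ≤ Sat.gR m x := by
  have hm1 : (1 : ℝ) ≤ m := by exact_mod_cast hm
  have hM2 : (2 : ℝ) ≤ M := by exact_mod_cast hM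
  have hQ1 : (1 : ℝ) ≤ Q := by exact_mod_cast hQ
  have hQMr : (Q : ℝ) ≤ M := by exact_mod_cast hQM
  have h4 : 1 / (2 * (Q : ℝ)) ≤ min (x : ℝ) (1 - x) := le_min h0 (by linarith only [h1])
  have h5 : (1 / (2 * (Q : ℝ))) ^ 2 ≤ (min (x : ℝ) (1 - x)) ^ 2 :=
    pow_le_pow_left₀ (by positivity) h4 2
  have h6 : rE m Q M ≤ 1 / 4 * (1 / (2 * (Q : ℝ))) ^ 2 / m := by
    have h7 : 1 / 4 * (1 / (2 * (Q : ℝ))) ^ 2 / m = 1 / (16 * m * (Q : ℝ) ^ 2) := by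
      field_simp; norm_num
    rw [h7]
    unfold rE
    refine one_div_le_one_div_of_le (by positivity) ?_
    calc 16 * (m : ℝ) * (Q : ℝ) ^ 2 = 8 * m * (Q * (2 * Q)) := by ring
      _ ≤ 8 * m * (Q * (M * M)) :=
        mul_le_mul_of_nonneg_left (mul_le_mul_of_nonneg_left
          (mul_le_mul hM2 hQMr (by linarith only [hQ1]) (by linarith only [hM2]))
          (by linarith only [hQ1])) (by linarith only [hm1])
      _ = _ := by ring
  refine h6.trans ?_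
  unfold Sat.gR
  gcongr

lemma exact_hyp (hm : 0 < m) (hQ : 0 < Q) (hQM : Q ≤ M) (hM : 2 ≤ M) {x : ℚ}
    (h0 : 1 / (2 * (Q : ℝ)) ≤ x) (h1 : (x : ℝ) ≤ 1 - 1 / (2 * (Q : ℝ)))
    (hq : 2 ^ 8 * (m ^ 2 * (Q * M ^ 2)) ≤ x.den) :
    100 * (m : ℝ) ^ 2 ≤ x.den * (min (x : ℝ) (1 - x)) ^ 2 := by
  have hm1 : (1 : ℝ) ≤ m := by exact_mod_cast hm
  have hM2 : (2 : ℝ) ≤ M := by exact_mod_cast hM
  have hQ1 : (1 : ℝ) ≤ Q := by exact_mod_cast hQ
  have hQMr : (Q : ℝ) ≤ M := by exact_mod_cast hQM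
  have h4 : 1 / (2 * (Q : ℝ)) ≤ min (x : ℝ) (1 - x) := le_min h0 (by linarith only [h1])
  have h5 : (1 / (2 * (Q : ℝ))) ^ 2 ≤ (min (x : ℝ) (1 - x)) ^ 2 :=
    pow_le_pow_left₀ (by positivity) h4 2
  have hqr : 2 ^ 8 * ((m : ℝ) ^ 2 * (Q * (M : ℝ) ^ 2)) ≤ x.den := by exact_mod_cast hq
  have h6 : 0 < (m : ℝ) ^ 2 := by positivity
  have h7 : (2 : ℝ) * Q ≤ (M : ℝ) ^ 2 := by
    calc (2 : ℝ) * Q ≤ M * M :=
          mul_le_mul hM2 hQMr (by linarith only [hQ1]) (by linarith only [hM2])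
      _ = _ := by ring
  calc 100 * (m : ℝ) ^ 2 ≤ 64 * (m : ℝ) ^ 2 * ((2 * Q) / Q) := by
        rw [mul_div_assoc, div_self (by positivity)]; linarith only [h6]
    _ ≤ 64 * (m : ℝ) ^ 2 * ((M : ℝ) ^ 2 / Q) := by gcongr
    _ = 2 ^ 8 * ((m : ℝ) ^ 2 * (Q * (M : ℝ) ^ 2)) * (1 / (2 * (Q : ℝ))) ^ 2 := by
        field_simp; norm_num
    _ ≤ _ := by gcongr

lemma seven_le (hm : 0 < m) (hQ : 0 < Q) (hM : 2 ≤ M) {x : ℚ}
    (hq : 2 ^ 8 * (m ^ 2 * (Q * M ^ 2)) ≤ x.den) :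
    7 * (m : ℝ) / x.den ≤ rE m Q M / 2 := by
  have hm1 : (1 : ℝ) ≤ m := by exact_mod_cast hm
  have hM2 : (2 : ℝ) ≤ M := by exact_mod_cast hM
  have hQ1 : (1 : ℝ) ≤ Q := by exact_mod_cast hQ
  have hqr : 2 ^ 8 * ((m : ℝ) ^ 2 * (Q * (M : ℝ) ^ 2)) ≤ x.den := by exact_mod_cast hq
  have h1 : rE m Q M / 2 = 16 * m / (2 ^ 8 * ((m : ℝ) ^ 2 * (Q * (M : ℝ) ^ 2))) := by
    unfold rE; field_simp; norm_num
  rw [h1]
  calc 7 * (m : ℝ) / x.den ≤ 7 * m / (2 ^ 8 * ((m : ℝ) ^ 2 * (Q * (M : ℝ) ^ 2))) := by gcongr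
    _ ≤ _ := by gcongr; norm_num

end

/-- E3: over a set far from the fractions of denominator at most `N / m + 2` all other cycles of
period at most `N` are repelling -/
def RepE (N : ℕ) : Prop := ∀ (D : Sat.Dat) (U : Set ℂ), D.Par → D.m ≤ N → IsOpen U → U ⊆ D.B →
  PriPer.Far D.m (MM' N D.m) U → RepOn N U D.c D.b

/-- the reference potential -/
noncomputable def gE (D : Sat.Dat) : ℝ := (D.tp - D.tm) / 5

lemma gE_pos {D : Sat.Dat} (hC : D.Cir) : 0 < gE D := div_pos (sub_pos.2 hC.lt) (by norm_num)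

lemma gE_lt {D : Sat.Dat} (hC : D.Cir) : gE D < 1 := by
  have := hC.lt_one
  unfold gE
  linarith

lemma log_gE {D : Sat.Dat} (hP : D.Par) (hC : D.Cir) :
    |Real.log (gE D)| ≤ D.m * D.x.den + 2 := by
  have hg := gE_pos hC
  rw [abs_of_neg (Real.log_neg hg (gE_lt hC))]
  have h2 : 1 / ((2 : ℝ) ^ (D.m * D.x.den) * 5) ≤ gE D := by
    unfold gE
    rw [← div_div]
    exact div_le_div_of_nonneg_right (plateau_len hP hC) (by positivity)
  have h3 := Real.log_le_log (by positivity) h2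
  rw [one_div, Real.log_inv, Real.log_mul (by positivity) (by positivity), Real.log_pow] at h3
  have h4 : Real.log 5 ≤ 2 := by
    rw [Real.log_le_iff_le_exp (by norm_num)]
    have h5 : Real.exp 2 = Real.exp 1 * Real.exp 1 := by rw [← Real.exp_add]; norm_num
    have h6 := Real.exp_one_gt_d9
    have h7 : (2.7 : ℝ) * 2.7 ≤ Real.exp 1 * Real.exp 1 :=
      mul_le_mul (by linarith only [h6]) (by linarith only [h6]) (by norm_num) (Real.exp_pos 1).le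
    rw [h5]; linarith only [h7]
  have h6 : ((D.m * D.x.den : ℕ) : ℝ) * Real.log 2 ≤ D.m * D.x.den := by
    push_cast
    exact mul_le_of_le_one_right (by positivity) (by linarith only [Real.log_two_lt_d9])
  linarith only [h3, h4, h6]

/-- **the cut at `x`** -/
theorem exists_cutE {N m : ℕ} {w : ℕ → ℤ} {k : ℤ} {σ : ℂ → ℂ × ℂ} (hV : Wide m w k σ)
    (hex : ∀ L ∈ D0 m, Exa m (σ L)) (hE3 : RepE N) (hmN : m ≤ N) {Q : ℕ} (hQ : 0 < Q)
    (hQM : Q ≤ MM' N m) {x : ℚ}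
    (h0 : 1 / (2 * (Q : ℝ)) ≤ x) (h1 : (x : ℝ) ≤ 1 - 1 / (2 * (Q : ℝ)))
    (hF : FarE Q (MM' N m) x) (hden : 2 ^ 8 * (m ^ 2 * (Q * MM' N m ^ 2)) ≤ x.den) :
    ∃ D : Sat.Dat, D.Cir ∧ CutE N (rE m Q (MM' N m)) (gE D) D ∧ D.m = m ∧ D.x = x ∧
      Circ.nu w m (th D) = k + x ∧
      (∀ L, D.c L = (σ L).1) ∧
      ∃ τ : ℂ → ℂ × ℂ, ContinuousOn τ Lft ∧ (∀ L ∈ Lft, τ L ∈ Per D.m ∧ mul D.m (τ L) = exp L) ∧
        τ (LpE (rE m Q (MM' N m)) D) = D.σ (LpE (rE m Q (MM' N m)) D) ∧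
        ∀ L ∈ D0 m, L.re < 0 → (σ L).1 = (τ L).1 := by
  have hm := hV.pos
  set M := MM' N m with hMdef
  have hM : 2 ≤ M := two_le_MM' N m
  have hM2 : (2 : ℝ) ≤ M := by exact_mod_cast hM
  have hwd : Word m w := hV.word hex
  have hpi := Real.pi_pos
  have hm1 : (1 : ℝ) ≤ m := by exact_mod_cast hm
  have hQ1 : (1 : ℝ) ≤ Q := by exact_mod_cast hQ
  have hx0r : (0 : ℝ) < x := lt_of_lt_of_le (by positivity) h0
  have hx1r : (x : ℝ) < 1 := by
    have : (0 : ℝ) < 1 / (2 * (Q : ℝ)) := by positivity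
    linarith only [this, h1]
  have hx0 : 0 < x := by exact_mod_cast hx0r
  have hx1 : x < 1 := by exact_mod_cast hx1r
  set B : Set ℂ := ball (axisPt x) (Sat.gR m x) with hB
  have hBD : B ⊆ D0 m := ball_subset_D0 hm hx0 hx1
  have hrg : rE m Q M ≤ Sat.gR m x := rE_le_gR hm hQ hQM hM h0 h1
  have hrr : 0 < rE m Q M := rE_pos hm hQ hM
  have hP₀ : (⟨m, x, σ, w, k, w, 0, 0, 0⟩ : Sat.Dat).Par := by
    refine Sat.par_of _ hm hx0 hx1 (hV.cont.mono hBD) (fun L hL => hV.sec L (hBD hL)) ?_ hV.bits ?_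
    · exact fun L hL => hex L (hBD hL)
    · intro L hL hM
      obtain ⟨θ, h2, h3, h4⟩ := hV.ang L (hBD hL) hM
      exact ⟨θ, h2, h3, h4⟩
  obtain ⟨i₀, u, kk, tm, tp, -, hcir⟩ := Sat.s1_circle m x w k hm hx0 hx1 hV.bits hwd.2.2
  have hP := Sat.s0_shift _ i₀ u kk tm tp hP₀
  set D : Sat.Dat := ⟨m, x, fun L => ((σ L).1, it (σ L).1 i₀ (σ L).2), fun i => w (i + i₀), k,
    u, kk, tm, tp⟩ with hD
  have hC : D.Cir := hcir _
  have hPD : D.Par := hP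
  have hDσ : ∀ L, D.σ L = shf i₀ (σ L) := fun L => rfl
  have hcut : CutE N (rE m Q M) (gE D) D := by
    refine ⟨hPD, hmN, hrr, hrg, ?_, ?_, gE_pos hC, by linarith [gE_lt hC], ?_⟩
    · intro L hL j hj hjN
      refine exp_ne_one_rE hm hQ hQM hM hF hL hj ?_
      have h3 : j ≤ N / m := (Nat.le_div_iff_mul_le hm).2 (by rw [mul_comm]; exact hjN)
      rw [hMdef]; unfold MM'; omega
    · exact hE3 D _ hPD hmN isOpen_ball (ball_subset_ball hrg) (farE hm hQ hQM hM hF)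
    · intro c hA hG
      obtain ⟨L, -, h2, -, -, h5⟩ := Sat.mid_of D hPD hC (exact_hyp hm hQ hQM hM h0 h1 hden)
        (exExact hm hx0 hx1 (exact_hyp hm hQ hQM hM h0 h1 hden)) hA hG
      refine ⟨L, h2, ?_⟩
      rw [dist_eq_norm]
      exact h5.trans (seven_le hm hQ hM hden)
  refine ⟨D, hC, hcut, rfl, rfl, ?_, fun L => rfl, ?_⟩
  · have h2 : Circ.nu D.w D.m (th D) = D.k₀ + D.x := by
      refine (hC.plateau _).2 ?_
      have := hC.lt
      unfold th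
      constructor <;> linarith
    have h3 := Sat.s1_rot m w i₀ (th D) hV.bits
    rw [← h3]
    exact h2
  · obtain ⟨τ, hτ, hτ', hτσ⟩ := hcut.exists_left
    have hpB := hcut.Lp_mem
    have hpl : (LpE (rE m Q M) D).re < 0 := hpB.2
    have hpH : LpE (rE m Q M) D ∈ HS := by
      have h4 := hBD hpB.1
      exact ⟨h4.1, h4.2.1, hpl⟩
    have hHD : HS ⊆ D0 m := fun L hL => ⟨hL.1, hL.2.1, hL.2.2.trans_le (hgt_nonneg m _)⟩
    refine ⟨τ, hτ, hτ', hτσ _ hpB.1 hpl, ?_⟩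
    intro L hL hre
    have hG2 : GoodDom m Lft := goodDom_left hm
    have h5 := section_unique hG2 hτ hτ' convex_HS.isPreconnected (g := fun L => shf i₀ (σ L))
      (l := fun L => L)
      ((continuous_shf i₀).comp_continuousOn (hV.cont.mono hHD)) continuousOn_id
      (fun L hL => ⟨(shf_sec i₀ (hV.sec L (hHD hL))).1, hL.2.2,
        (shf_sec i₀ (hV.sec L (hHD hL))).2⟩)
      (a₀ := LpE (rE m Q M) D) hpH (by rw [hτσ _ hpB.1 hpl, hDσ])
    have h6 := h5 L ⟨hL.1, hL.2.1, hre⟩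
    have h7 := congrArg Prod.fst h6
    exact h7

end Pool.Agent.Work.MLC.Pri
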