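import Pool.Agent.Work.MLC.PriBarE49b
import Pool.Agent.Work.MLC.PriBT57b

set_option autoImplicit false

/-! # The two cuts with small exponents, part 3: the bound on the barrier (helper49) -/

namespace Pool.Agent.Work.MLC.Pri

open Filter Topology Metric Set Complex
open PriHar (Oth)

/-- the multipliers over `c` are not close to `1` -/
def BdE (N : ℕ) (K : ℝ) (c : ℂ) : Prop := ∀ n b, 0 < n → n ≤ N → (c, b) ∈ Per n → Exa n (c, b) →
  mul n (c, b) ≠ 1 ∧ ‖1 / (mul n (c, b) - 1)‖ ≤ K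

/-- the reference bound at all potentials of size `exp (- O (N ^ 3))` -/
def RefAll (N : ℕ) (K₀ : ℝ) : Prop := ∀ g : ℝ, 0 < g → g ≤ 4 →
  |Real.log g| ≤ 14000 * (N : ℝ) ^ 3 → RefB N g K₀

/-- the constant of the barrier -/
noncomputable def KE (N : ℕ) (K₀ : ℝ) : ℝ :=
  4224 * (N : ℝ) * (9 * K₀ + 6 + 432 * (N : ℝ) ^ 3) + 1 + 1728 * (N : ℝ) ^ 3

/-- the sector data of a wide section, depth `δ` -/
def vdatE (m : ℕ) (w : ℕ → ℤ) (k : ℤ) (σ : ℂ → ℂ × ℂ) (x₁ x₂ θ₁ θ₂ δ : ℝ) : Sat.VDat :=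
  ⟨m, w, k, σ, D0 m, x₁, x₂, θ₁, θ₂, δ⟩

lemma vdatE_ok {m : ℕ} {w : ℕ → ℤ} {k : ℤ} {σ : ℂ → ℂ × ℂ} (hV : Wide m w k σ)
    {x₁ x₂ θ₁ θ₂ δ : ℝ} (hδ : 0 < δ) (h0 : 0 < x₁) (h12 : x₁ < x₂) (h1 : x₂ < 1)
    (hn₁ : Circ.nu w m θ₁ = k + x₁) (hn₂ : Circ.nu w m θ₂ = k + x₂) :
    (vdatE m w k σ x₁ x₂ θ₁ θ₂ δ).Ok where
  m_pos := hV.pos
  bits := hV.bits
  x₁_pos := h0
  lt := h12
  x₂_lt := h1
  δ_pos := hδ
  nu₁ := hn₁
  nu₂ := hn₂
  good := goodDom_D0 hV.pos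
  rect := by
    intro L _ h3 h4 h5
    have hpi := Real.pi_pos
    have h4' : 2 * Real.pi * x₁ ≤ L.im := h4
    have h5' : L.im ≤ 2 * Real.pi * x₂ := h5
    have : 2 * Real.pi * x₂ < 2 * Real.pi * 1 := mul_lt_mul_of_pos_left h1 (by positivity)
    exact strip_mem_D0 hV.pos h3 (lt_of_lt_of_le (by positivity) h4') (by linarith)
  cont := hV.cont
  sec := hV.sec
  lab := by
    intro L hL hre
    exact (hV.lab L hL hre).2 θ₁ (by rw [hn₁]; linarith) (by rw [hn₁]; linarith)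

/-! ### the constants -/

section

variable {N m Q : ℕ}

lemma MM'_le3 (hm : 0 < m) (hmN : m ≤ N) : ((MM' N m : ℕ) : ℝ) ≤ 3 * N := by
  have h1 := MM'_le N m
  have : MM' N m ≤ 3 * N := by omega
  exact_mod_cast this

lemma mMM'_le3 (hmN : m ≤ N) : (m : ℝ) * ((MM' N m : ℕ) : ℝ) ≤ 3 * N := by
  exact_mod_cast mul_MM'_le hmN

/-- the constants fit together -/
lemma const_le (hm : 0 < m) (hmN : m ≤ N) (hQ : 0 < Q) (hQM : Q ≤ MM' N m) {K₀ : ℝ}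
    (hK : 0 ≤ K₀) :
    1408 * (m : ℝ) * ((MM' N m : ℕ) : ℝ) * (9 * K₀ + 6 + 2 / rE m Q (MM' N m)) + 1 +
      8 / rE m Q (MM' N m) ≤ KE N K₀ := by
  have hM := two_le_MM' N m
  set M := MM' N m with hMd
  have hM2 : (2 : ℝ) ≤ M := by exact_mod_cast hM
  have hm1 : (1 : ℝ) ≤ m := by exact_mod_cast hm
  have hN1 : (1 : ℝ) ≤ N := by exact_mod_cast hm.trans_le hmN
  have hQ1 : (1 : ℝ) ≤ Q := by exact_mod_cast hQ
  have hQMr : (Q : ℝ) ≤ M := by exact_mod_cast hQM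
  have h1 : (m : ℝ) * M ≤ 3 * N := mMM'_le3 hmN
  have h2 : (M : ℝ) ≤ 3 * N := MM'_le3 hm hmN
  have h3 : 2 / rE m Q M = 16 * m * (Q * (M : ℝ) ^ 2) := by unfold rE; field_simp; norm_num
  have h4 : 8 / rE m Q M = 64 * m * (Q * (M : ℝ) ^ 2) := by unfold rE; field_simp; norm_num
  have h6 : (m : ℝ) * (Q * (M : ℝ) ^ 2) ≤ 27 * (N : ℝ) ^ 3 := by
    calc (m : ℝ) * (Q * (M : ℝ) ^ 2) ≤ (m : ℝ) * ((M : ℝ) * (M : ℝ) ^ 2) := by gcongr
      _ = ((m : ℝ) * M) * M * M := by ring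
      _ ≤ (3 * (N : ℝ)) * (3 * N) * (3 * N) := by gcongr
      _ = _ := by ring
  have h7 : 2 / rE m Q M ≤ 432 * (N : ℝ) ^ 3 := by rw [h3]; linarith
  have h8 : 8 / rE m Q M ≤ 1728 * (N : ℝ) ^ 3 := by rw [h4]; linarith
  have h9 : 1408 * (m : ℝ) * M ≤ 4224 * (N : ℝ) := by linarith
  have h10 : 0 < 2 / rE m Q M := div_pos two_pos (rE_pos hm hQ hM)
  unfold KE
  gcongr

lemma KE_ge (hm : 0 < m) (hmN : m ≤ N) (hQ : 0 < Q) (hQM : Q ≤ MM' N m) {K₀ : ℝ}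
    (hK : 0 ≤ K₀) : 9 * K₀ + 5 + 2 / rE m Q (MM' N m) ≤ KE N K₀ := by
  refine le_trans ?_ (const_le hm hmN hQ hQM hK)
  have hM := two_le_MM' N m
  set M := MM' N m with hMd
  have hM2 : (2 : ℝ) ≤ M := by exact_mod_cast hM
  have hm1 : (1 : ℝ) ≤ m := by exact_mod_cast hm
  have h1 : 1 ≤ 1408 * (m : ℝ) * M := by
    have := mul_le_mul hm1 hM2 (by norm_num) (by linarith : (0 : ℝ) ≤ m)
    linarith
  have h2 : 0 < 2 / rE m Q M := div_pos two_pos (rE_pos hm hQ hM)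
  have h3 : 0 < 8 / rE m Q M := div_pos (by norm_num) (rE_pos hm hQ hM)
  have h4 : 0 ≤ 9 * K₀ + 6 + 2 / rE m Q M := by positivity
  have h5 := mul_le_mul_of_nonneg_right h1 h4
  linarith

/-- the reference bound applies -/
lemma ref_ok (hm : 0 < m) (hmN : m ≤ N) (hQM : Q ≤ MM' N m) {K₀ : ℝ} (hK : RefAll N K₀)
    {D : Sat.Dat} (hP : D.Par)
    (hC : D.Cir) (hDm : D.m = m) (hden : D.x.den ≤ 2 ^ 9 * (m ^ 2 * (Q * MM' N m ^ 2))) :
    RefB N (gE D) K₀ := by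
  refine hK _ (gE_pos hC) (by linarith [gE_lt hC]) ((log_gE hP hC).trans ?_)
  have hN1 : (1 : ℝ) ≤ N := by exact_mod_cast hm.trans_le hmN
  have h1 : (m : ℝ) * ((MM' N m : ℕ) : ℝ) ≤ 3 * N := mMM'_le3 hmN
  have hQMr : (Q : ℝ) ≤ ((MM' N m : ℕ) : ℝ) := by exact_mod_cast hQM
  have hd : (D.x.den : ℝ) ≤ 2 ^ 9 * ((m : ℝ) ^ 2 * (Q * ((MM' N m : ℕ) : ℝ) ^ 2)) := by
    exact_mod_cast hden
  have hN3 : (1 : ℝ) ≤ (N : ℝ) ^ 3 := one_le_pow₀ hN1
  rw [hDm]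
  calc (m : ℝ) * D.x.den + 2 ≤ m * (2 ^ 9 * ((m : ℝ) ^ 2 * (Q * ((MM' N m : ℕ) : ℝ) ^ 2))) + 2 := by
        gcongr
    _ ≤ m * (2 ^ 9 * ((m : ℝ) ^ 2 * (((MM' N m : ℕ) : ℝ) * ((MM' N m : ℕ) : ℝ) ^ 2))) + 2 := by
        gcongr
    _ = 2 ^ 9 * ((m : ℝ) * ((MM' N m : ℕ) : ℝ)) ^ 3 + 2 := by ring
    _ ≤ 2 ^ 9 * (3 * (N : ℝ)) ^ 3 + 2 := by gcongr
    _ ≤ _ := by
        have e : (3 * (N : ℝ)) ^ 3 = 27 * N ^ 3 := by ring
        rw [e]
        linarith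

end

/-- **one cut** -/
theorem one_cutE {N m : ℕ} {w : ℕ → ℤ} {k : ℤ} {σ : ℂ → ℂ × ℂ} (hV : Wide m w k σ)
    (hex : ∀ L ∈ D0 m, Exa m (σ L)) (hE3 : RepE N) {K₀ : ℝ} (hK0 : 0 ≤ K₀) (hK : RefAll N K₀)
    (hmN : m ≤ N) {Q : ℕ} (hQ : 0 < Q) (hQM : Q ≤ MM' N m) {x : ℚ}
    (h0 : 1 / (2 * (Q : ℝ)) ≤ x) (h1 : (x : ℝ) ≤ 1 - 1 / (2 * (Q : ℝ)))
    (hF : FarE Q (MM' N m) x) (hden : 2 ^ 8 * (m ^ 2 * (Q * MM' N m ^ 2)) ≤ x.den)
    (hden' : x.den ≤ 2 ^ 9 * (m ^ 2 * (Q * MM' N m ^ 2))) :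
    ∃ θ : ℝ, Circ.nu w m θ = k + x ∧ (∀ c, Ang c θ → BdE N (KE N K₀) c) ∧
      (∀ L, dist L (axisPt x) ≤ rE m Q (MM' N m) / 2 → L ∈ D0 m ∧ BdE N (KE N K₀) (σ L).1) ∧
      ∀ L ∈ D0 m, L.re ≤ -(rE m Q (MM' N m) / 4) →
        -(1 / ((Q : ℝ) * ((MM' N m : ℕ) : ℝ))) ≤ L.re →
        (L.im = 2 * Real.pi * x ∨ (L.re = -(1 / ((Q : ℝ) * ((MM' N m : ℕ) : ℝ))) ∧
          |L.im - 2 * Real.pi * x| ≤ 2 * Real.pi / ((Q : ℝ) * ((MM' N m : ℕ) : ℝ)))) →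
        BdE N (KE N K₀) (σ L).1 := by
  have hm := hV.pos
  obtain ⟨D, hC, hc, rfl, rfl, hnu, hσ, τ, hτ, hτ', hτσ, hστ⟩ :=
    exists_cutE hV hex hE3 hmN hQ hQM h0 h1 hF hden
  set M := MM' N D.m with hMd
  have hM : 2 ≤ M := two_le_MM' N D.m
  have hM2 : (2 : ℝ) ≤ M := by exact_mod_cast hM
  have hQ1 : (1 : ℝ) ≤ Q := by exact_mod_cast hQ
  have hm1 : (1 : ℝ) ≤ D.m := by exact_mod_cast hm
  have hr : 0 < rE D.m Q M := rE_pos hm hQ hM
  have hRef : RefB N (gE D) K₀ := ref_ok hm hmN hQM hK hc.par hC rfl hden'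
  have hge : 9 * K₀ + 5 + 2 / rE D.m Q M ≤ KE N K₀ := KE_ge hm hmN hQ hQM hK0
  refine ⟨th D, hnu, ?_, ?_, ?_⟩
  · intro c hA n b hn hnN hb hx
    refine ⟨?_, (hc.ray_bound hK0 hRef hn hnN hA ⟨hb, hx⟩).trans hge⟩
    have h3 := one_lt_norm_mult_of_ext hn hA.1 hb
    rw [mult_eq_mul] at h3
    intro h4
    rw [h4, norm_one] at h3
    exact lt_irrefl _ h3
  · intro L hL
    have hLb : L ∈ ball D.a (rE D.m Q M) := mem_ball.2 (by
      have : dist L D.a ≤ rE D.m Q M / 2 := hL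
      linarith)
    have hLB : L ∈ D.B := hc.ball_sub hLb
    refine ⟨ball_subset_D0 hc.par.m_pos hc.par.x_pos hc.par.x_lt hLB, ?_⟩
    intro n b hn hnN hb hx
    rw [← hσ L] at hb hx ⊢
    exact ⟨hc.disc_ne hn hnN hLb hb, (hc.disc_bound hK0 hRef hn hnN hL ⟨hb, hx⟩).trans hge⟩
  · intro L hL hre hreM him n b hn hnN hb hx
    have hLl : L.re < 0 := by linarith
    rw [hστ L hL hLl] at hb hx ⊢
    refine ⟨hc.left_ne hτ hτ' hτσ hn hnN hLl hb, ?_⟩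
    refine (hc.left_bound hK0 hRef hτ hτ' hτσ hn hnN (F := 1408 * (D.m : ℝ) * (M : ℝ)) hre
      (by positivity) ?_ ⟨hb, hx⟩).trans (const_le hm hmN hQ hQM hK0)
    -- the Harnack factor
    have e0 : (L + (starRingEnd ℂ) (LpE (rE D.m Q M) D)).re = -(-L.re + rE D.m Q M / 4) := by
      rw [Complex.add_re, Complex.conj_re, LpE_re]; ring
    have e1 : (L + (starRingEnd ℂ) (LpE (rE D.m Q M) D)).im = L.im - 2 * Real.pi * D.x := by
      rw [Complex.add_im, Complex.conj_im, LpE_im]; ring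
    have e2 : ‖L + (starRingEnd ℂ) (LpE (rE D.m Q M) D)‖ ^ 2 =
        (-L.re + rE D.m Q M / 4) ^ 2 + (L.im - 2 * Real.pi * D.x) ^ 2 := by
      rw [← Complex.normSq_eq_norm_sq, Complex.normSq_apply, e0, e1]; ring
    rw [e2]
    set h : ℝ := 1 / ((Q : ℝ) * (M : ℝ)) with hh
    have hh0 : 0 < h := by positivity
    have hs : rE D.m Q M / 4 ≤ -L.re := by linarith
    have hF1 : 1408 * (D.m : ℝ) * (M : ℝ) * rE D.m Q M = 176 * h := by
      rw [hh]; unfold rE; field_simp; norm_num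
    have hR : 1408 * (D.m : ℝ) * (M : ℝ) * (-L.re * (rE D.m Q M / 4)) = 44 * h * -L.re := by
      calc _ = (1408 * (D.m : ℝ) * (M : ℝ) * rE D.m Q M) * (-L.re / 4) := by ring
        _ = _ := by rw [hF1]; ring
    rw [hR]
    have hs0 : 0 < -L.re := by linarith
    have hsM : -L.re ≤ h := by linarith
    have h2 : (-L.re + rE D.m Q M / 4) ^ 2 ≤ 4 * h * -L.re := by
      have h3 : -L.re + rE D.m Q M / 4 ≤ 2 * -L.re := by linarith
      have h4 : 0 ≤ -L.re + rE D.m Q M / 4 := by linarith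
      calc (-L.re + rE D.m Q M / 4) ^ 2 ≤ (2 * -L.re) ^ 2 := pow_le_pow_left₀ h4 h3 2
        _ = 4 * -L.re * -L.re := by ring
        _ ≤ 4 * h * -L.re := by gcongr
    have h14 : 44 * h * -L.re = 4 * h * -L.re + 40 * h * -L.re := by ring
    rw [h14]
    refine add_le_add h2 ?_
    rcases him with g | ⟨g, g'⟩
    · rw [g, sub_self, zero_pow two_ne_zero]
      exact mul_nonneg (by positivity) hs0.le
    · rw [g, neg_neg, ← sq_abs]
      have hpi : Real.pi ^ 2 ≤ 10 := by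
        have := Real.pi_lt_d2
        have := Real.pi_pos
        calc Real.pi ^ 2 ≤ 3.15 ^ 2 := pow_le_pow_left₀ Real.pi_pos.le (by linarith) 2
          _ ≤ 10 := by norm_num
      have e5 : 2 * Real.pi / ((Q : ℝ) * (M : ℝ)) = 2 * Real.pi * h := by rw [hh]; ring
      rw [e5] at g'
      calc |L.im - 2 * Real.pi * D.x| ^ 2 ≤ (2 * Real.pi * h) ^ 2 :=
            pow_le_pow_left₀ (abs_nonneg _) g' 2
        _ = 4 * Real.pi ^ 2 * h * h := by ring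
        _ ≤ 4 * 10 * h * h := by gcongr
        _ = _ := by ring

/-- **the two cuts: the bound on the barrier** -/
theorem barE {N m : ℕ} {w : ℕ → ℤ} {k : ℤ} {σ : ℂ → ℂ × ℂ} (hV : Wide m w k σ)
    (hex : ∀ L ∈ D0 m, Exa m (σ L)) (hE3 : RepE N) {K₀ : ℝ} (hK0 : 0 ≤ K₀) (hK : RefAll N K₀)
    (hmN : m ≤ N) {x : ℚ} (h0 : 0 < x) (h1 : x < 1) (hx : x.den ≤ MM' N m) :
    ∃ (x₁ x₂ : ℚ) (θ₁ θ₂ : ℝ), 0 < x₁ ∧ x₁ < x ∧ x < x₂ ∧ x₂ < 1 ∧
      (x : ℝ) - x₁ < 1 / (2 * (x.den : ℝ) * ((MM' N m : ℕ) : ℝ)) ∧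
      (x₂ : ℝ) - x < 1 / (2 * (x.den : ℝ) * ((MM' N m : ℕ) : ℝ)) ∧
      (∀ y : ℚ, y.den ≤ MM' N m → (x₁ : ℝ) ≤ y → (y : ℝ) ≤ x₂ → y = x) ∧
      Circ.nu w m θ₁ = k + x₁ ∧ Circ.nu w m θ₂ = k + x₂ ∧
      ∀ c ∈ (vdatE m w k σ x₁ x₂ θ₁ θ₂ (1 / ((x.den : ℝ) * ((MM' N m : ℕ) : ℝ)))).BarV,
        BdE N (KE N K₀) c := by
  have hm := hV.pos
  have hM : 2 ≤ MM' N m := two_le_MM' N m
  obtain ⟨x₁, x₂, a1, a2, a3, a4, a5, a6, a7, a8, a9, a10, a11, a12, a13, a14⟩ :=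
    exists_valuesE hM hm h0 h1 hx
  have hQ : 0 < x.den := x.pos
  have hM2 : (2 : ℝ) ≤ ((MM' N m : ℕ) : ℝ) := by exact_mod_cast hM
  have hm1 : (1 : ℝ) ≤ m := by exact_mod_cast hm
  have hQ1 : (1 : ℝ) ≤ x.den := by exact_mod_cast hQ
  have hQMr : (x.den : ℝ) ≤ ((MM' N m : ℕ) : ℝ) := by exact_mod_cast hx
  have hpi := Real.pi_gt_three
  have hMi : (0 : ℝ) < 1 / (2 * (x.den : ℝ)) := by positivity
  have b1 : (0 : ℝ) < x₁ := lt_of_lt_of_le hMi a1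
  have b2 : (x₂ : ℝ) < 1 := by linarith
  have c1 : 1 / (2 * (x.den : ℝ)) ≤ x₂ := by linarith
  have c2 : (x₁ : ℝ) ≤ 1 - 1 / (2 * (x.den : ℝ)) := by linarith
  obtain ⟨θ₁, d1, d2, d3, d4⟩ := one_cutE hV hex hE3 hK0 hK hmN hQ hx a1 c2 a9 a11 a12
  obtain ⟨θ₂, e1, e2, e3, e4⟩ := one_cutE hV hex hE3 hK0 hK hmN hQ hx c1 a4 a10 a13 a14
  set h : ℝ := 1 / ((x.den : ℝ) * ((MM' N m : ℕ) : ℝ)) with hh
  have hh0 : 0 < h := by positivity
  have e6 : 2 * (1 / (2 * (x.den : ℝ) * ((MM' N m : ℕ) : ℝ))) = h := by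
    rw [hh]; field_simp
  have hgap : (x₂ : ℝ) - x₁ ≤ h := by linarith
  have b12 : (x₁ : ℝ) < x₂ := by linarith
  refine ⟨x₁, x₂, θ₁, θ₂, by exact_mod_cast b1, by exact_mod_cast a2, by exact_mod_cast a3,
    by exact_mod_cast b2, a6, a8, ?_, d1, e1, ?_⟩
  · intro y hy hy1 hy2
    by_contra hne
    have hy0 : (0 : ℝ) < y.den := by exact_mod_cast y.pos
    have hyM : (y.den : ℝ) ≤ ((MM' N m : ℕ) : ℝ) := by exact_mod_cast hy
    have hx0 : (0 : ℝ) < x.den := by linarith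
    have h5 : 1 / ((x.den : ℝ) * y.den) ≤ |(y : ℝ) - x| := by
      have e3 : (y : ℝ) - x = ((y.num * x.den - x.num * y.den : ℤ) : ℝ) / (y.den * x.den) := by
        rw [Rat.cast_def y, Rat.cast_def x]
        push_cast
        field_simp
      have hz : (y.num * x.den - x.num * y.den : ℤ) ≠ 0 := by
        intro h
        apply hne
        have : (y : ℝ) - x = 0 := by rw [e3, h]; simp
        have h7 : (y : ℝ) = x := by linarith
        exact_mod_cast h7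
      have h4 : (1 : ℝ) ≤ |((y.num * x.den - x.num * y.den : ℤ) : ℝ)| := by
        exact_mod_cast Int.one_le_abs hz
      rw [e3, abs_div, abs_of_pos (mul_pos hy0 hx0), mul_comm (x.den : ℝ)]
      gcongr
    have h6 : h ≤ 1 / ((x.den : ℝ) * y.den) :=
      one_div_le_one_div_of_le (by positivity) (by gcongr)
    have h8 : 0 < 1 / (2 * (x.den : ℝ) * ((MM' N m : ℕ) : ℝ)) := by positivity
    have h9 : |(y : ℝ) - x| < 1 / (2 * (x.den : ℝ) * ((MM' N m : ℕ) : ℝ)) :=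
      abs_lt.2 ⟨by linarith, by linarith⟩
    linarith
  · have hOk := vdatE_ok hV hh0 b1 b12 b2 d1 e1
    rintro c ((g | g) | g)
    · rcases g with g | g
      · exact d2 c g
      · exact e2 c g
    · obtain ⟨L, f1, f2, f3, f4, f5, rfl⟩ := g
      have f1' : -h ≤ L.re := f1
      have f3' : 2 * Real.pi * x₁ ≤ L.im := f3
      have f4' : L.im ≤ 2 * Real.pi * x₂ := f4
      have hLΩ : L ∈ D0 m := hOk.rect L f1 f2 f3 f4
      show BdE N (KE N K₀) (σ L).1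
      by_cases hl : L.re ≤ -(rE m x.den (MM' N m) / 4)
      · rcases f5 with f5 | f5 | f5
        · refine d4 L hLΩ hl f1' (Or.inr ⟨f5, ?_⟩)
          rw [abs_of_nonneg (by linarith)]
          have h6 : 2 * Real.pi / ((x.den : ℝ) * ((MM' N m : ℕ) : ℝ)) = 2 * Real.pi * h := by
            rw [hh]; ring
          rw [h6]
          have h7 : 2 * Real.pi * ((x₂ : ℝ) - x₁) ≤ 2 * Real.pi * h := by gcongr
          linarith
        · exact d4 L hLΩ hl f1' (Or.inl f5)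
        · exact e4 L hLΩ hl f1' (Or.inl f5)
      · push Not at hl
        have hax : ∀ y : ℚ, L.im = 2 * Real.pi * y →
            dist L (axisPt y) ≤ rE m x.den (MM' N m) / 2 := by
          intro y hy
          rw [dist_eq_norm]
          have g1 : L - axisPt y = (L.re : ℂ) := by
            apply Complex.ext
            · simp [axisPt]
            · simp [axisPt, hy]
          rw [g1, Complex.norm_real, Real.norm_eq_abs, abs_of_nonpos f2]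
          have := rE_pos hm hQ hM
          linarith
        rcases f5 with f5 | f5 | f5
        · exfalso
          have h5 : L.re = -h := f5
          have h6 : rE m x.den (MM' N m) ≤ h := by
            rw [hh]
            unfold rE
            refine one_div_le_one_div_of_le (by positivity) ?_
            calc (x.den : ℝ) * ((MM' N m : ℕ) : ℝ) = 1 * 1 * (x.den * (1 * ((MM' N m : ℕ) : ℝ))) := by
                  ring
              _ ≤ 8 * m * (x.den * (((MM' N m : ℕ) : ℝ) * ((MM' N m : ℕ) : ℝ))) := by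
                  gcongr
                  · norm_num
                  · linarith
              _ = _ := by ring
          linarith
        · exact (d3 L (hax x₁ f5)).2
        · exact (e3 L (hax x₂ f5)).2
    · obtain ⟨hMM, a, hNJ, hR⟩ := g
      have key : ∀ y : ℚ, 1 / (2 * (x.den : ℝ)) ≤ y →
          (y : ℝ) ≤ 1 - 1 / (2 * (x.den : ℝ)) →
          2 ^ 8 * (m ^ 2 * (x.den * MM' N m ^ 2)) ≤ y.den → Sat.Rt m (c, a) y →
          ∃ L, dist L (axisPt y) ≤ rE m x.den (MM' N m) / 2 ∧ (σ L).1 = c := by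
        intro y g0 g1 gd gR
        have g0' : (0 : ℝ) < y := lt_of_lt_of_le hMi g0
        have g1' : (y : ℝ) < 1 := by linarith
        have g0q : 0 < y := by exact_mod_cast g0'
        have g1q : y < 1 := by exact_mod_cast g1'
        have hr := rE_pos hm hQ hM
        have hgR : rE m x.den (MM' N m) / 2 ≤ Sat.gR m y := by
          have := rE_le_gR hm hQ hx hM g0 g1
          linarith
        have hΩ : ball (axisPt y) (rE m x.den (MM' N m) / 2) ⊆ D0 m :=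
          (ball_subset_ball hgR).trans (ball_subset_D0 hm g0q g1q)
        have hρ : 2 * (m : ℝ) * Real.log 2 / y.den < rE m x.den (MM' N m) / 2 := by
          refine lt_of_lt_of_le ?_ (seven_le hm hQ hM gd)
          have hy0 : (0 : ℝ) < y.den := by exact_mod_cast y.pos
          have := Real.log_two_lt_d9
          refine div_lt_div_of_pos_right ?_ hy0
          have hm0 : (0 : ℝ) < m := by exact_mod_cast hm
          have h9 := mul_lt_mul_of_pos_left this (show (0 : ℝ) < 2 * m by positivity)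
          linarith only [h9, hm0]
        obtain ⟨L, hL, -, hσ, -⟩ := BarM.barM_exact hm g0q g1q (exact_hyp hm hQ hx hM g0 g1 gd)
          hρ hgR (J := lab m θ₁ w) (τ := σ)
          (fun L hL hre => ⟨(hV.sec L (hΩ hL)).1, (hV.sec L (hΩ hL)).2,
            (hV.lab L (hΩ hL) hre).2 θ₁ (by rw [d1]; linarith) (by rw [d1]; linarith)⟩) hMM hNJ gR
        exact ⟨L, (mem_ball.1 hL).le, by rw [hσ]⟩
      rcases hR with hR | hR
      · obtain ⟨L, hL, rfl⟩ := key x₁ a1 c2 a11 hR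
        exact (d3 L hL).2
      · obtain ⟨L, hL, rfl⟩ := key x₂ c1 a4 a13 hR
        exact (e3 L hL).2

end Pool.Agent.Work.MLC.Pri
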