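import Pool.Agent.Work.MLC.PriCut49

set_option autoImplicit false

/-! # The barrier with free parameters (radius `r`, reference potential `g`) (helper49)

Same as PriCut49 with the radius, the reference potential and the mid ray property as parameters,
and a better use of the Harnack inequality. -/

namespace Pool.Agent.Work.MLC.Pri

open Filter Topology Metric Set Complex
open PriHar (Oth)

/-- `(H1)` of the transfer from the period constraint, resonances only -/
theorem ne_one_of_rep' {N n d : ℕ} (hn : 0 < n) (hnN : n ≤ N) (hd : 0 < d) {D : Set ℂ}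
    {σ : ℂ → ℂ × ℂ} (hσ : ∀ L ∈ D, σ L ∈ Per d ∧ mul d (σ L) = exp L)
    (hex : ∀ L ∈ D, ∀ k, 0 < k → k < d → it (σ L).1 k (σ L).2 ≠ (σ L).2)
    (hR : RepOn N D (fun L => (σ L).1) (fun L => (σ L).2))
    (hE : ∀ L ∈ D, ∀ k : ℕ, 0 < k → d * k ≤ N → exp (k * L) ≠ 1) :
    ∀ L ∈ D, ∀ b, ((σ L).1, b) ∈ Per n → mul n ((σ L).1, b) ≠ 1 := by
  intro L hL b hb
  obtain ⟨m, hm, hmn, ⟨k, rfl⟩, hEx⟩ := exists_exact hn hb
  have hk : 0 < k := Nat.pos_of_mul_pos_left hn
  rw [Hyp.mul_mul hEx.1]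
  by_cases ho : ∀ i, b ≠ it (σ L).1 i (σ L).2
  · have h1 := hR L hL m hm (hmn.trans hnN) b ⟨hEx.1, hEx.2, ho⟩
    simp only at h1
    intro h2
    have h3 : ‖mul m ((σ L).1, b)‖ ^ k = 1 := by rw [← norm_pow, h2, norm_one]
    have h4 := one_lt_pow₀ h1 hk.ne'
    linarith
  · obtain ⟨i, hi⟩ := not_forall_not.1 ho
    have h1 : Ex d (σ L).1 (it (σ L).1 i (σ L).2) :=
      ex_it hd ⟨(hσ L hL).1, hex L hL⟩ i
    rw [hi] at hEx ⊢
    have h2 := ex_unique hm hd hEx h1
    subst h2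
    rw [Sat.mul_it' (hσ L hL).1]
    have h3 : mul m ((σ L).1, (σ L).2) = exp L := (hσ L hL).2
    rw [h3, ← Complex.exp_nat_mul]
    exact hE L hL k hk hnN

/-- all the data of the cut of `V` at the value `x`, radius `r`, reference potential `g` -/
structure CutE (N : ℕ) (r g : ℝ) (D : Sat.Dat) : Prop where
  par : D.Par
  le : D.m ≤ N
  r_pos : 0 < r
  r_le : r ≤ Sat.gR D.m D.x
  res : ∀ L ∈ ball D.a r, ∀ k : ℕ, 0 < k → D.m * k ≤ N → exp (k * L) ≠ 1
  rep : RepOn N (ball D.a r) D.c D.b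
  g_pos : 0 < g
  g_le : g ≤ 4
  mid : ∀ c, Ang c (th D) → G c c ≤ g → ∃ L, D.c L = c ∧ dist L D.a ≤ r / 2

section

variable {N : ℕ} {r g : ℝ} {D : Sat.Dat}

lemma CutE.N_pos (h : CutE N r g D) : 0 < N := h.par.m_pos.trans_le h.le

lemma CutE.ball_sub (h : CutE N r g D) : ball D.a r ⊆ D.B := ball_subset_ball h.r_le

/-- the good discs are far from the integer points -/
lemma far_int {m : ℕ} (hm : 0 < m) {x : ℚ} (h0 : 0 < x) (h1 : x < 1) (hr : 0 < r)
    (hrg : r ≤ Sat.gR m x) {L : ℂ} (hL : dist L (axisPt x) ≤ r / 2) (j : ℤ) :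
    r ≤ ‖L - 2 * Real.pi * j * I‖ := by
  have hm1 : (1 : ℝ) ≤ m := by exact_mod_cast hm
  have hx0 : (0 : ℝ) < x := by exact_mod_cast h0
  have hx1 : (x : ℝ) < 1 := by exact_mod_cast h1
  set μ : ℝ := min (x : ℝ) (1 - x) with hμ
  have hμ0 : 0 < μ := lt_min hx0 (by linarith)
  have hμx : μ ≤ x := min_le_left _ _
  have hμx' : μ ≤ 1 - x := min_le_right _ _
  have hg : Sat.gR m x ≤ μ / 8 := by
    unfold Sat.gR
    rw [← hμ, div_le_iff₀ (by linarith)]
    nlinarith
  have hkx : μ ≤ |(x : ℝ) - j| := by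
    rcases le_or_gt j 0 with hk | hk
    · have h2 : (j : ℝ) ≤ 0 := by exact_mod_cast hk
      rw [abs_of_nonneg (by linarith)]
      linarith
    · have h2 : (1 : ℝ) ≤ j := by exact_mod_cast hk
      rw [abs_of_nonpos (by linarith)]
      linarith
  have h3 : axisPt x - 2 * Real.pi * j * I = ((2 * Real.pi * (x - j) : ℝ) : ℂ) * I := by
    unfold axisPt; push_cast; ring
  have h4 : ‖axisPt x - 2 * Real.pi * j * I‖ = 2 * Real.pi * |(x : ℝ) - j| := by
    rw [h3, norm_mul, norm_I, mul_one, norm_real, Real.norm_eq_abs, abs_mul,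
      abs_of_pos (by positivity : (0 : ℝ) < 2 * Real.pi)]
  rw [dist_eq_norm] at hL
  have h5 := norm_sub_le (L - 2 * Real.pi * j * I) (L - axisPt x)
  have h6 : L - 2 * Real.pi * j * I - (L - axisPt x) = axisPt x - 2 * Real.pi * j * I := by ring
  rw [h6, h4] at h5
  have hpi := Real.pi_gt_three
  have h7 : 6 * μ ≤ 2 * Real.pi * |(x : ℝ) - j| := by
    calc 6 * μ ≤ 2 * Real.pi * μ := by nlinarith
      _ ≤ _ := by gcongr
  linarith

lemma CutE.r_lt (h : CutE N r g D) : r ≤ 1 / 16 := by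
  have hm1 : (1 : ℝ) ≤ D.m := by exact_mod_cast h.par.m_pos
  have hx0 : (0 : ℝ) < D.x := by exact_mod_cast h.par.x_pos
  have hx1 : (D.x : ℝ) < 1 := by exact_mod_cast h.par.x_lt
  have h1 := h.r_le
  unfold Sat.gR at h1
  have hμ0 : 0 < min (D.x : ℝ) (1 - D.x) := lt_min hx0 (by linarith)
  have hμ : min (D.x : ℝ) (1 - D.x) ≤ 1 / 2 := by
    rcases le_total (D.x : ℝ) (1 / 2) with h | h
    · exact (min_le_left _ _).trans h
    · exact (min_le_right _ _).trans (by linarith)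
  refine h1.trans ?_
  rw [div_le_iff₀ (by linarith)]
  nlinarith

/-- no multiplier `1` over the ball -/
theorem CutE.disc_ne (h : CutE N r g D) {n : ℕ} (hn : 0 < n) (hnN : n ≤ N) {L b : ℂ}
    (hL : L ∈ ball D.a r) (hb : (D.c L, b) ∈ Per n) : mul n (D.c L, b) ≠ 1 :=
  ne_one_of_rep' hn hnN h.par.m_pos (D := ball D.a r) (σ := D.σ)
    (fun L hL => h.par.sec L (h.ball_sub hL))
    (fun L hL k hk hkd => h.par.prim L (h.ball_sub hL) k hk hkd) h.rep h.res L hL b hb

/-- transfer inside the ball, all pairs of exact period `n` -/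
theorem CutE.ball_bound (h : CutE N r g D) {K : ℝ} (hK : 0 ≤ K) {L₀ : ℂ}
    (hL₀ : dist L₀ D.a ≤ r / 2)
    (hK₀ : ∀ n, 0 < n → n ≤ N → ∀ b, Ex n (D.c L₀) b → ‖1 / (mul n (D.c L₀, b) - 1)‖ ≤ K)
    {n : ℕ} (hn : 0 < n) (hnN : n ≤ N) {L b : ℂ} (hL : dist L D.a ≤ r / 2)
    (hb : Ex n (D.c L) b) : ‖1 / (mul n (D.c L, b) - 1)‖ ≤ 9 * K + 5 + 2 / r := by
  have hr := h.r_pos
  have hsub := h.ball_sub
  have hLr : L ∈ ball D.a r := mem_ball.2 (by linarith)
  have h2r : 0 < 2 / r := by positivity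
  by_cases ho : ∀ i, b ≠ it (D.c L) i (D.b L)
  · have hG : GoodDom D.m D.B := Sat.goodB h.par
    have hc : DifferentiableOn ℂ D.c (ball D.a r) :=
      (section_differentiableOn hG h.par.cont h.par.sec).mono hsub
    have hv : ContinuousOn D.b (ball D.a r) :=
      (continuous_snd.comp_continuousOn h.par.cont).mono hsub
    have h2 := PriHar.transfer_ball hn h.par.m_pos hr hc hv
      (fun L hL => (h.par.sec L (hsub hL)).1)
      (fun L hL k hk hkd => h.par.prim L (hsub hL) k hk hkd)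
      (fun L hL b hb => h.disc_ne hn hnN hL hb)
      (fun L hL b hb => h.rep L hL n hn hnN b hb) hL hL₀ (K := K)
      (fun b hb => hK₀ n hn hnN b ⟨hb.1, hb.2.1⟩) ⟨hb.1, hb.2, ho⟩
    linarith
  · obtain ⟨i, hi⟩ := not_forall_not.1 ho
    have hLB : L ∈ D.B := hsub hLr
    have h1 : Ex D.m (D.c L) b := by
      rw [hi]
      exact ex_it h.par.m_pos ⟨(h.par.sec L hLB).1, h.par.prim L hLB⟩ i
    have h2 := ex_unique hn h.par.m_pos hb h1
    subst h2
    have h3 : mul D.m (D.c L, b) = exp L := by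
      rw [hi]
      exact (Sat.mul_it' (h.par.sec L hLB).1 i).trans (h.par.sec L hLB).2
    rw [h3]
    have h4 := own_bound (L := L) hr (by linarith [h.r_lt]) (fun m =>
      far_int h.par.m_pos h.par.x_pos h.par.x_lt hr h.r_le (L := L) hL m)
    linarith

/-- the bound at exterior parameters of potential at least `g` -/
def RefB (N : ℕ) (g K : ℝ) : Prop := ∀ n c b, 0 < n → n ≤ N → g ≤ G c c → G c c ≤ 4 →
  (c, b) ∈ Per n → ‖1 / (mul n (c, b) - 1)‖ ≤ K

/-- **(b)** over the half ball -/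
theorem CutE.disc_bound (h : CutE N r g D) {K : ℝ} (hK : 0 ≤ K) (hC : RefB N g K) {n : ℕ}
    (hn : 0 < n) (hnN : n ≤ N) {L b : ℂ} (hL : dist L D.a ≤ r / 2) (hb : Ex n (D.c L) b) :
    ‖1 / (mul n (D.c L, b) - 1)‖ ≤ 9 * K + 5 + 2 / r := by
  obtain ⟨h1, h2⟩ := ang_cOf (g := g) (θ := th D) h.g_pos
  set c₀ : ℂ := cOf ((g : ℂ) + 2 * Real.pi * th D * I) with hc₀
  obtain ⟨L₀, h3, h4⟩ := h.mid c₀ h1 h2.le
  refine h.ball_bound hK h4 ?_ hn hnN hL hb
  intro n' hn' hnN' b' hb'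
  exact hC n' (D.c L₀) b' hn' hnN' (by rw [h3, h2]) (by rw [h3, h2]; exact h.g_le) hb'.1

/-- **(a)** on the ray of the mid angle, at all potentials -/
theorem CutE.ray_bound (h : CutE N r g D) {K : ℝ} (hK : 0 ≤ K) (hC : RefB N g K) {n : ℕ}
    (hn : 0 < n) (hnN : n ≤ N) {c b : ℂ} (hA : Ang c (th D)) (hb : Ex n c b) :
    ‖1 / (mul n (c, b) - 1)‖ ≤ 9 * K + 5 + 2 / r := by
  have h2r : 0 < 2 / r := by have := h.r_pos; positivity
  rcases le_or_gt (G c c) g with hg | hg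
  · obtain ⟨L₀, h3, h4⟩ := h.mid c hA hg
    rw [← h3] at hb ⊢
    exact h.disc_bound hK hC hn hnN h4 hb
  · rcases le_or_gt (G c c) 4 with hg4 | hg4
    · have := hC n c b hn hnN hg.le hg4 hb.1
      linarith
    · have h1 : 23 / 10 ≤ ‖mul n (c, b)‖ := by
        by_contra hcon
        push Not at hcon
        exact absurd (G_le_four_of_mul_lt hn hb.1 hcon) (not_le.2 hg4)
      have h2 : 1 ≤ ‖mul n (c, b) - 1‖ := by
        have := norm_sub_norm_le (mul n (c, b)) 1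
        rw [norm_one] at this
        linarith
      have h3 : ‖1 / (mul n (c, b) - 1)‖ ≤ 1 := by
        rw [norm_div, norm_one]
        exact (div_le_one (by linarith)).2 h2
      linarith

/-! ### over the component -/

/-- the left reference point -/
noncomputable def LpE (r : ℝ) (D : Sat.Dat) : ℂ := D.a - ((r / 4 : ℝ) : ℂ)

lemma LpE_re : (LpE r D).re = -(r / 4) := by simp [LpE, a_re]

lemma LpE_im : (LpE r D).im = 2 * Real.pi * D.x := by
  have : (D.a).im = 2 * Real.pi * D.x := LimbData.axisPt_im D.x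
  rw [LpE, Complex.sub_im, Complex.ofReal_im, sub_zero, this]

lemma LpE_dist (hr : 0 < r) : dist (LpE r D) D.a = r / 4 := by
  rw [dist_eq_norm, LpE, sub_sub_cancel_left, norm_neg, norm_real, Real.norm_eq_abs,
    abs_of_pos (by linarith)]

lemma CutE.Lp_mem (h : CutE N r g D) : LpE r D ∈ D.B ∩ Lft := by
  have hr := h.r_pos
  refine ⟨h.ball_sub (by rw [mem_ball, LpE_dist hr]; linarith), ?_⟩
  show (LpE r D).re < 0
  rw [LpE_re]; linarith

/-- the section over the left half plane -/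
theorem CutE.exists_left (h : CutE N r g D) : ∃ τ : ℂ → ℂ × ℂ, ContinuousOn τ Lft ∧
    (∀ L ∈ Lft, τ L ∈ Per D.m ∧ mul D.m (τ L) = exp L) ∧
    ∀ L ∈ D.B, L.re < 0 → τ L = D.σ L := by
  have hG : GoodDom D.m Lft := goodDom_left h.par.m_pos
  have hcv : Convex ℝ Lft := convex_halfSpace_re_lt 0
  have hp := h.Lp_mem
  obtain ⟨h1, h2⟩ := h.par.sec _ hp.1
  obtain ⟨τ, hτ, hτ', hτ0⟩ := exists_section hG hcv h1 hp.2 h2
  refine ⟨τ, hτ, hτ', fun L hL hre => ?_⟩
  have hS : IsPreconnected (D.B ∩ Lft) := ((convex_ball _ _).inter hcv).isPreconnected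
  have h3 := section_unique hG hτ hτ' hS (g := D.σ) (l := fun L => L)
    (h.par.cont.mono inter_subset_left) continuousOn_id
    (fun L hL => ⟨(h.par.sec L hL.1).1, hL.2, (h.par.sec L hL.1).2⟩)
    (a₀ := LpE r D) hp hτ0.symm
  exact (h3 L ⟨hL, hre⟩).symm

section left

variable {τ : ℂ → ℂ × ℂ}

lemma CutE.exact_left (h : CutE N r g D) (hτ : ContinuousOn τ Lft)
    (hτ' : ∀ L ∈ Lft, τ L ∈ Per D.m ∧ mul D.m (τ L) = exp L)
    (hτσ : τ (LpE r D) = D.σ (LpE r D)) : ∀ L ∈ Lft, Ex D.m (τ L).1 (τ L).2 := by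
  have hG : GoodDom D.m Lft := goodDom_left h.par.m_pos
  have hcv : Convex ℝ Lft := convex_halfSpace_re_lt 0
  have hp := h.Lp_mem
  refine prim_on hcv.isPreconnected hG.isOpen hG.ne_one hτ hτ' hp.2 ?_
  rw [hτσ]
  exact ⟨(h.par.sec _ hp.1).1, h.par.prim _ hp.1⟩

/-- no multiplier `1` over the component -/
theorem CutE.left_ne (h : CutE N r g D) (hτ : ContinuousOn τ Lft)
    (hτ' : ∀ L ∈ Lft, τ L ∈ Per D.m ∧ mul D.m (τ L) = exp L)
    (hτσ : τ (LpE r D) = D.σ (LpE r D)) {n : ℕ} (hn : 0 < n) (hnN : n ≤ N) {L b : ℂ}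
    (hL : L ∈ Lft) (hb : ((τ L).1, b) ∈ Per n) : mul n ((τ L).1, b) ≠ 1 := by
  have hexτ := h.exact_left hτ hτ' hτσ
  exact ne_one_of_rep' hn hnN h.par.m_pos hτ' (fun L hL => (hexτ L hL).2)
    (repOn_left (N := N) h.par.m_pos hτ' (fun L hL => hL))
    (fun L hL k hk hkN => by
      intro h0
      have h2 : ‖exp (k * L)‖ < 1 := by
        rw [norm_exp]
        refine Real.exp_lt_one_iff.2 ?_
        have h3 : ((k : ℂ) * L).re = k * L.re := by simp
        rw [h3]
        exact mul_neg_of_pos_of_neg (by exact_mod_cast hk) hL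
      rw [h0, norm_one] at h2
      exact lt_irrefl _ h2) L hL b hb

/-- **(c)** over the left half plane, `F` = Harnack constant between `L` and the reference point -/
theorem CutE.left_bound (h : CutE N r g D) {K : ℝ} (hK : 0 ≤ K) (hC : RefB N g K)
    (hτ : ContinuousOn τ Lft)
    (hτ' : ∀ L ∈ Lft, τ L ∈ Per D.m ∧ mul D.m (τ L) = exp L)
    (hτσ : τ (LpE r D) = D.σ (LpE r D)) {n : ℕ} (hn : 0 < n) (hnN : n ≤ N) {L b : ℂ} {F : ℝ}
    (hL : L.re ≤ -(r / 4)) (hF0 : 0 ≤ F)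
    (hF : ‖L + (starRingEnd ℂ) (LpE r D)‖ ^ 2 ≤ F * (-L.re * (r / 4))) (hb : Ex n (τ L).1 b) :
    ‖1 / (mul n ((τ L).1, b) - 1)‖ ≤ F * (9 * K + 6 + 2 / r) + 1 + 8 / r := by
  have hr := h.r_pos
  have hLl : L ∈ Lft := by show L.re < 0; linarith
  have hp := h.Lp_mem
  have hex := h.exact_left hτ hτ' hτσ
  by_cases ho : ∀ i, b ≠ it (τ L).1 i (τ L).2
  · have hc : DifferentiableOn ℂ (fun L => (τ L).1) {L : ℂ | L.re < 0} :=
      section_differentiableOn (goodDom_left h.par.m_pos) hτ hτ'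
    have hv : ContinuousOn (fun L => (τ L).2) {L : ℂ | L.re < 0} :=
      continuous_snd.comp_continuousOn hτ
    have hR := repOn_left (N := N) h.par.m_pos hτ' (fun L hL => hL)
    have h2 := PriHar.transfer_half hn h.par.m_pos hc hv (fun L hL => (hτ' L hL).1)
      (fun L hL k hk hkd => (hex L hL).2 k hk hkd)
      (fun L hL b hb => h.left_ne hτ hτ' hτσ hn hnN hL hb)
      (fun L hL b hb => hR L hL n hn hnN b hb) (L := L) (L' := LpE r D) hLl hp.2
      (K := 9 * K + 5 + 2 / r)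
      (fun b hb => by
        have h3 : (τ (LpE r D)).1 = D.c (LpE r D) := by rw [hτσ]; rfl
        simp only [h3] at hb ⊢
        exact h.disc_bound hK hC hn hnN (by rw [LpE_dist hr]; linarith) ⟨hb.1, hb.2.1⟩)
      (b := b) ⟨hb.1, hb.2, ho⟩
    refine h2.trans ?_
    have h4 : L.re * (LpE r D).re = -L.re * (r / 4) := by rw [LpE_re]; ring
    have h5 : ‖L + (starRingEnd ℂ) (LpE r D)‖ ^ 2 / (L.re * (LpE r D).re) ≤ F := by
      rw [h4, div_le_iff₀ (mul_pos (by linarith) (by linarith))]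
      exact hF
    have h6 : 0 ≤ 9 * K + 5 + 2 / r + 1 / 2 := by positivity
    have h7 := mul_le_mul_of_nonneg_right h5 h6
    have h8 : 0 < 8 / r := by positivity
    nlinarith
  · obtain ⟨i, hi⟩ := not_forall_not.1 ho
    have h1 : Ex D.m (τ L).1 b := by
      rw [hi]; exact ex_it h.par.m_pos (hex L hLl) i
    have h2 := ex_unique hn h.par.m_pos hb h1
    subst h2
    have h3 : mul D.m ((τ L).1, b) = exp L := by
      rw [hi]
      exact (Sat.mul_it' (hτ' L hLl).1 i).trans (hτ' L hLl).2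
    rw [h3]
    have h4 := own_bound (L := L) (δ := r / 4) (by positivity) (by linarith [h.r_lt])
      (fun m => by
        have h5 := abs_re_le_norm (L - 2 * Real.pi * m * I)
        have h6 : (L - 2 * Real.pi * m * I).re = L.re := by simp
        rw [h6, abs_of_neg hLl] at h5
        linarith)
    have h5 : 2 / (r / 4) = 8 / r := by field_simp; norm_num
    rw [h5] at h4
    have h6 : 0 ≤ F * (9 * K + 6 + 2 / r) := by positivity
    linarith

end left

end

end Pool.Agent.Work.MLC.Pri
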