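import Pool.Agent.Work.MLC.PriBT57c
import Pool.Agent.Work.MLC.PriBarE49d
import Pool.Agent.Work.MLC.PerL54

set_option autoImplicit false

/-! # All components, exponent 5 (helper49) -/

namespace Pool.Agent.Work.MLC.Pri

open Filter Topology Metric Set Complex

theorem cutsK_E (hE3 : ∀ N, RepE N) : CutsK fun N => 2 * 10 ^ 11 / 2 * (N : ℝ) ^ 5 := by
  intro N m w k σ x hV hex hN hmN h0 h1 hx
  obtain ⟨x₁, x₂, θ₁, θ₂, h, a1, a2, a3, a4, a5, a6, a7, a8, a9⟩ :=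
    cutsE hV hex (hE3 N) hN hmN h0 h1 hx
  refine ⟨x₁, x₂, θ₁, θ₂, h, a1, a2, a3, a4, a5, a6, a7, a8, ?_⟩
  intro c hc n b hn hnN hb hex
  have h5 := a9 c hc n b hn hnN hb hex
  refine ⟨h5.1, h5.2.trans (le_of_eq ?_)⟩
  ring

/-- **all components**, from E3 -/
theorem rootPieceE (hE3 : ∀ N, RepE N) :
    RootPiece fun n => 1 / ((4 * (2 * 10 ^ 11)) * (n : ℝ) ^ 5) :=
  rootPiece_of_BTGP (by norm_num) (btgp_of_cuts
    (fun _ _ _ _ _ _ h1 h2 h3 h4 h5 h6 h7 => perL54 h1 h2 h3 h4 h5 h6 h7) (by norm_num)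
    (cutsK_E hE3))

end Pool.Agent.Work.MLC.Pri
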