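import Pool.Agent.Work.MLC.Curve57

set_option autoImplicit false

/-! # The graph lemma (helper4)

`Q` is a relatively clopen subset of the curve of the points of period dividing `n` whose multiplier
is `exp L`, `0 < |L| < ε`. If over the attracting multipliers `Q` has only one parameter, then the
parameter is a holomorphic function of `L` on the full disc. -/

namespace Pool.Agent.Work.MLC.Pri

open Filter Topology Metric Set Complex

/-- the punctured disc -/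
def Ann (ε : ℝ) : Set ℂ := {L | L ≠ 0 ∧ ‖L‖ < ε}

lemma isOpen_Ann (ε : ℝ) : IsOpen (Ann ε) :=
  isOpen_ne.inter (isOpen_lt continuous_norm continuous_const)

lemma isPreconnected_Ann {ε : ℝ} (hε : 0 < ε) : IsPreconnected (Ann ε) := by
  have h1 : Ann ε = exp '' {z : ℂ | z.re < Real.log ε} := by
    ext L
    constructor
    · rintro ⟨h1, h2⟩
      refine ⟨Complex.log L, ?_, Complex.exp_log h1⟩
      show (Complex.log L).re < _
      rw [Complex.log_re]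
      exact Real.log_lt_log (norm_pos_iff.2 h1) h2
    · rintro ⟨z, hz, rfl⟩
      refine ⟨exp_ne_zero z, ?_⟩
      rw [Complex.norm_exp]
      exact (Real.lt_log_iff_exp_lt hε).1 hz
  rw [h1]
  refine IsPreconnected.image ?_ _ (by fun_prop)
  exact (convex_halfSpace_re_lt _).isPreconnected

lemma exp_ne_one_of_small {L : ℂ} (h0 : L ≠ 0) (h : ‖L‖ < 1) : exp L ≠ 1 := by
  intro h1
  obtain ⟨k, hk⟩ := Complex.exp_eq_one_iff.1 h1
  have h2 : k ≠ 0 := by rintro rfl; apply h0; rw [hk]; simp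
  have h3 : (1 : ℝ) ≤ |(k : ℝ)| := by exact_mod_cast Int.one_le_abs h2
  have h4 : ‖L‖ = |(k : ℝ)| * (2 * Real.pi) := by
    rw [hk]
    simp [abs_of_pos Real.pi_pos]
  have h5 := Real.pi_gt_three
  nlinarith

lemma exp_inj_small {L L' : ℂ} (h : ‖L‖ < 1) (h' : ‖L'‖ < 1) (he : exp L = exp L') : L = L' := by
  obtain ⟨k, hk⟩ := Complex.exp_eq_exp_iff_exists_int.1 he
  by_contra hne
  have h2 : k ≠ 0 := by rintro rfl; apply hne; rw [hk]; simp
  have h3 : (1 : ℝ) ≤ |(k : ℝ)| := by exact_mod_cast Int.one_le_abs h2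
  have h4 : ‖L - L'‖ = |(k : ℝ)| * (2 * Real.pi) := by
    rw [hk, add_sub_cancel_left]
    simp [abs_of_pos Real.pi_pos]
  have h5 := Real.pi_gt_three
  have h6 := norm_sub_le L L'
  nlinarith

lemma norm_exp_small {L : ℂ} {ε : ℝ} (hε : ε ≤ 1 / 2) (h : ‖L‖ < ε) : ‖exp L‖ < 23 / 10 := by
  have h1 : L.re ≤ ‖L‖ := Complex.re_le_norm L
  rw [Complex.norm_exp]
  have h2 : Real.exp L.re < Real.exp (1 / 2) := Real.exp_lt_exp.2 (by linarith)
  have h3 : Real.exp (1 / 2) ≤ 23 / 10 := by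
    have h4 := Real.exp_one_lt_d9
    have h5 : Real.exp (1 / 2) ≤ Real.exp (1 : ℝ) := Real.exp_le_exp.2 (by norm_num)
    have h6 : Real.exp (1 / 2) * Real.exp (1 / 2) = Real.exp (1 : ℝ) := by
      rw [← Real.exp_add]; norm_num
    nlinarith [Real.exp_pos (1 / 2 : ℝ)]
  linarith

/-- local inverse of the multiplier on the curve -/
lemma local_param {n : ℕ} (hn : 0 < n) {x₀ : ℂ × ℂ} (hx : x₀ ∈ Per n) (h1 : mul n x₀ ≠ 1)
    (h2 : ‖mul n x₀‖ < 23 / 10) (hi : LocInj n x₀) :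
    ∃ γ : ℂ → ℂ, AnalyticAt ℂ γ (mul n x₀) ∧ γ (mul n x₀) = x₀.1 ∧
      (∀ᶠ y in 𝓝 x₀, y ∈ Per n → y.1 = γ (mul n y)) ∧
      ∀ N ∈ 𝓝 x₀, ∀ᶠ w in 𝓝 (mul n x₀), ∃ y ∈ N ∩ Per n, mul n y = w ∧ y.1 = γ w := by
  obtain ⟨β, hβ, hβ0, hβe, hg, hd⟩ := hi.chart hn hx h1 h2
  set g : ℂ → ℂ := fun c => mul n (c, β c) with hgd
  have hx0 : ((x₀.1, β x₀.1) : ℂ × ℂ) = x₀ := by rw [hβ0]
  have hgx : g x₀.1 = mul n x₀ := by rw [hgd]; simp only [hx0]
  set γ : ℂ → ℂ := hg.hasStrictDerivAt.localInverse g (deriv g x₀.1) x₀.1 hd with hγ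
  have hγa : AnalyticAt ℂ γ (g x₀.1) := hg.analyticAt_localInverse hd
  have hγl : ∀ᶠ c in 𝓝 x₀.1, γ (g c) = c :=
    HasStrictFDerivAt.eventually_left_inverse (hg.hasStrictDerivAt.hasStrictFDerivAt_equiv hd)
  have h3 : ∀ᶠ y in 𝓝 x₀, y ∈ Per n → y.1 = γ (mul n y) := by
    filter_upwards [hβe, continuous_fst.continuousAt.eventually hγl] with y hy hy' hyP
    have h4 : β y.1 = y.2 := hy.1 hyP
    have h5 : g y.1 = mul n y := by rw [hgd]; simp only [h4]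
    rw [← h5, hy']
  refine ⟨γ, by rwa [hgx] at hγa, ?_, h3, ?_⟩
  · rw [← hgx]; exact hγl.self_of_nhds
  · intro N hN
    filter_upwards [mul_open hn hx h1 h2 (inter_mem hN h3)] with w hw
    obtain ⟨y, ⟨⟨hyN, hy⟩, hyP⟩, hyw⟩ := hw
    exact ⟨y, ⟨hyN, hyP⟩, hyw, by rw [← hyw]; exact hy hyP⟩

/-- relatively clopen sets of the curve over the punctured disc of logarithms of multipliers -/
structure Clo (n : ℕ) (ε : ℝ) (Q : Set (ℂ × ℂ)) : Prop where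
  sub : ∀ x ∈ Q, x ∈ Per n ∧ ∃ L ∈ Ann ε, mul n x = exp L
  opn : ∀ x ∈ Q, ∀ᶠ y in 𝓝 x, y ∈ Per n → y ∈ Q
  cls : ∀ x ∈ Per n, (∃ L ∈ Ann ε, mul n x = exp L) → x ∈ closure Q → x ∈ Q

variable {n : ℕ} {ε : ℝ} {Q : Set (ℂ × ℂ)}

namespace Clo

/-- properness -/
lemma proper (h : Clo n ε Q) (hn : 0 < n) (hε : ε ≤ 1 / 2) {L₀ : ℂ} (hL₀ : L₀ ∈ Ann ε)
    {O : Set (ℂ × ℂ)} (hO : ∀ x ∈ Q, mul n x = exp L₀ → O ∈ 𝓝 x) :
    ∀ᶠ L in 𝓝 L₀, ∀ y ∈ Q, mul n y = exp L → y ∈ O := by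
  obtain ⟨δ, hδ, hδA⟩ := Metric.nhds_basis_closedBall.mem_iff.1 ((isOpen_Ann ε).mem_nhds hL₀)
  set K : Set ℂ := exp '' closedBall L₀ δ with hK
  have hKc : IsCompact K := (isCompact_closedBall L₀ δ).image (by fun_prop)
  have hK2 : ∀ l ∈ K, ‖l‖ < 23 / 10 := by
    rintro _ ⟨L, hL, rfl⟩
    exact norm_exp_small hε (hδA hL).2
  set C : Set (ℂ × ℂ) := (Per n ∩ mul n ⁻¹' K) ∩ (closure Q \ interior O) with hC
  have hCc : IsCompact C := (isCompact_Per hn hKc.isClosed hK2).inter_right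
    (isClosed_closure.sdiff isOpen_interior)
  have hmC : IsClosed (mul n '' C) := (hCc.image (continuous_mul' n)).isClosed
  have hnot : exp L₀ ∉ mul n '' C := by
    rintro ⟨y, ⟨⟨hyP, -⟩, hyc, hyO⟩, hy⟩
    have h1 := h.cls y hyP ⟨L₀, hL₀, hy⟩ hyc
    exact hyO (mem_interior_iff_mem_nhds.2 (hO y h1 hy))
  have h2 : ∀ᶠ L in 𝓝 L₀, exp L ∉ mul n '' C :=
    (continuous_exp.continuousAt (x := L₀)).eventually (hmC.isOpen_compl.mem_nhds hnot)
  filter_upwards [h2, closedBall_mem_nhds L₀ hδ] with L h3 h4 y hy hyL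
  by_contra hcon
  apply h3
  refine ⟨y, ⟨⟨(h.sub y hy).1, ?_⟩, subset_closure hy, fun h5 => hcon (interior_subset h5)⟩, hyL⟩
  rw [mem_preimage, hyL]
  exact ⟨L, h4, rfl⟩

lemma facts (h : Clo n ε Q) (hε : ε ≤ 1 / 2) {x : ℂ × ℂ} (hx : x ∈ Q) :
    mul n x ≠ 1 ∧ ‖mul n x‖ < 23 / 10 := by
  obtain ⟨-, L, hL, he⟩ := h.sub x hx
  rw [he]
  exact ⟨exp_ne_one_of_small hL.1 (by linarith [hL.2]), norm_exp_small hε hL.2⟩

/-- all fibres are nonempty -/
theorem nonempty (h : Clo n ε Q) (hn : 0 < n) (hε0 : 0 < ε) (hε : ε ≤ 1 / 2) (hne : Q.Nonempty)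
    {L : ℂ} (hL : L ∈ Ann ε) : ∃ x ∈ Q, mul n x = exp L := by
  set F : Set ℂ := {L ∈ Ann ε | ∃ x ∈ Q, mul n x = exp L} with hF
  have hFo : IsOpen F := by
    rw [isOpen_iff_mem_nhds]
    rintro L₀ ⟨hL₀, x, hx, hxL⟩
    obtain ⟨h1, h2⟩ := h.facts hε hx
    have h3 := mul_open hn (h.sub x hx).1 h1 h2 (h.opn x hx)
    rw [hxL] at h3
    filter_upwards [(continuous_exp.continuousAt (x := L₀)).eventually h3,
      (isOpen_Ann ε).mem_nhds hL₀] with L' h4 h5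
    obtain ⟨y, ⟨hy1, hy2⟩, hy3⟩ := h4
    exact ⟨h5, y, hy1 hy2, hy3⟩
  have hsub : Ann ε ⊆ F := by
    refine (isPreconnected_Ann hε0).subset_of_closure_inter_subset hFo ?_ ?_
    · obtain ⟨x, hx⟩ := hne
      obtain ⟨-, L', hL', he⟩ := h.sub x hx
      exact ⟨L', hL', hL', x, hx, he⟩
    · rintro L₀ ⟨hc, hL₀⟩
      refine ⟨hL₀, ?_⟩
      by_contra hcon
      push Not at hcon
      have h1 := h.proper hn hε hL₀ (O := ∅) (fun x hx hxL => absurd hxL (hcon x hx))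
      obtain ⟨L', ⟨-, x, hx, hxL⟩, h2⟩ := ((mem_closure_iff_frequently.1 hc).and_eventually h1).exists
      exact h2 x hx hxL
  exact (hsub hL).2

end Clo

/-- **The graph lemma.** -/
theorem graph (h : Clo n ε Q) (hn : 0 < n) (hε0 : 0 < ε) (hε : ε ≤ 1 / 2) (hne : Q.Nonempty)
    (hW : ∀ x ∈ Q, ∀ y ∈ Q, ‖mul n x‖ < 1 → mul n x = mul n y → x.1 = y.1) :
    ∃ g : ℂ → ℂ, DifferentiableOn ℂ g (ball 0 ε) ∧
      (∀ x ∈ Q, ∀ L ∈ Ann ε, mul n x = exp L → x.1 = g L) ∧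
      (∀ x ∈ Q, LocInj n x) := by
  set E : Set ℂ := {L | ∀ x ∈ Q, ∀ y ∈ Q, mul n x = exp L → mul n y = exp L → x.1 = y.1} with hE
  set V : Set ℂ := Ann ε ∩ interior E with hV
  have hVo : IsOpen V := (isOpen_Ann ε).inter isOpen_interior
  -- local injectivity over points of the closure
  have hloc : ∀ L₀ ∈ Ann ε, L₀ ∈ closure V → ∀ x ∈ Q, mul n x = exp L₀ → LocInj n x := by
    intro L₀ hL₀ hcl x hx hxL
    obtain ⟨h1, h2⟩ := h.facts hε hx
    have hxP := (h.sub x hx).1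
    rcases mul_alt hn hxP h1 h2 with h3 | h3
    · exact h3
    · exfalso
      obtain ⟨β, hβ, hβ0, hβe⟩ := chart hxP h1
      have h4 := h3 _ (inter_mem (h.opn x hx) hβe)
      rw [hxL] at h4
      -- points of `V` different from `L₀`
      have h5 : ∃ᶠ L in 𝓝[≠] L₀, L ∈ V := by
        rw [frequently_iff]
        intro U hU
        obtain ⟨U', hU'o, hLU', hsub⟩ := mem_nhdsWithin.1 hU
        obtain ⟨L₁, hL₁U, hL₁V⟩ := mem_closure_iff.1 hcl U' hU'o hLU'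
        by_cases h6 : L₁ = L₀
        · subst h6
          have h7 : U' ∩ V ∈ 𝓝 L₁ := (hU'o.inter hVo).mem_nhds ⟨hLU', hL₁V⟩
          have h8 : (𝓝[≠] L₁).NeBot := inferInstance
          obtain ⟨L₂, h9, h10⟩ := (mem_nhdsWithin_of_mem_nhds h7 |> fun t =>
            (Filter.inter_mem t self_mem_nhdsWithin : U' ∩ V ∩ {L₁}ᶜ ∈ 𝓝[≠] L₁)) |>
              h8.nonempty_of_mem
          exact ⟨L₂, hsub ⟨h9.1, h10⟩, h9.2⟩
        · exact ⟨L₁, hsub ⟨hL₁U, h6⟩, hL₁V⟩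
      have h6 : Tendsto exp (𝓝[≠] L₀) (𝓝[≠] (exp L₀)) := by
        refine tendsto_nhdsWithin_iff.2 ⟨(continuous_exp.continuousAt).mono_left
          nhdsWithin_le_nhds, ?_⟩
        filter_upwards [self_mem_nhdsWithin,
          mem_nhdsWithin_of_mem_nhds ((isOpen_Ann ε).mem_nhds hL₀)] with L hL hLA hee
        exact hL (exp_inj_small (by linarith [hLA.2]) (by linarith [hL₀.2]) hee)
      obtain ⟨L, hLV, a, ⟨⟨ha1, ha2⟩, haP⟩, b, ⟨⟨hb1, hb2⟩, hbP⟩, hab, hma, hmb⟩ :=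
        (h5.and_eventually (h6.eventually h4)).exists
      have hc : a.1 = b.1 := (interior_subset hLV.2) a (ha1 haP) b (hb1 hbP) hma hmb
      apply hab
      refine Prod.ext hc ?_
      rw [← ha2.1 haP, ← hb2.1 hbP, hc]
  -- `V` is closed
  have key : ∀ L₀ ∈ Ann ε, L₀ ∈ closure V → ∀ x₀ ∈ Q, mul n x₀ = exp L₀ →
      ∃ γ : ℂ → ℂ, AnalyticAt ℂ γ (exp L₀) ∧
        ∀ᶠ L in 𝓝 L₀, ∀ y ∈ Q, mul n y = exp L → y.1 = γ (exp L) := by
    intro L₀ hL₀ hcl x₀ hx₀ hxL₀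
    obtain ⟨a1, a2⟩ := h.facts hε hx₀
    obtain ⟨γ, hγ, -, hγ1, hγ2⟩ := local_param hn (h.sub x₀ hx₀).1 a1 a2 (hloc L₀ hL₀ hcl x₀ hx₀ hxL₀)
    rw [hxL₀] at hγ hγ2
    refine ⟨γ, hγ, ?_⟩
    set O : Set (ℂ × ℂ) := {y | y ∈ Per n → y.1 = γ (mul n y)} with hO
    have hOn : ∀ x ∈ Q, mul n x = exp L₀ → O ∈ 𝓝 x := by
      intro x hx hxL
      obtain ⟨b1, b2⟩ := h.facts hε hx
      obtain ⟨γ', hγ', -, hγ'1, hγ'2⟩ := local_param hn (h.sub x hx).1 b1 b2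
        (hloc L₀ hL₀ hcl x hx hxL)
      rw [hxL] at hγ' hγ'2
      -- the two functions agree
      have h3 : ∀ᶠ L in 𝓝 L₀, L ∈ V → γ (exp L) = γ' (exp L) := by
        filter_upwards [(continuous_exp.continuousAt (x := L₀)).eventually (hγ2 _ (h.opn x₀ hx₀)),
          (continuous_exp.continuousAt (x := L₀)).eventually (hγ'2 _ (h.opn x hx))] with L h4 h5 hLV
        obtain ⟨y, ⟨hy1, hy2⟩, hy3, hy4⟩ := h4
        obtain ⟨z, ⟨hz1, hz2⟩, hz3, hz4⟩ := h5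
        rw [← hy4, ← hz4]
        exact (interior_subset hLV.2) y (hy1 hy2) z (hz1 hz2) hy3 hz3
      have hA1 : AnalyticAt ℂ (fun L => γ (exp L)) L₀ := hγ.comp (analyticAt_cexp)
      have hA2 : AnalyticAt ℂ (fun L => γ' (exp L)) L₀ := hγ'.comp (analyticAt_cexp)
      have h5 : ∀ᶠ L in 𝓝 L₀, γ (exp L) = γ' (exp L) := by
        obtain ⟨r, hr, hrA⟩ := Metric.eventually_nhds_iff_ball.1
          (h3.and (hA1.eventually_analyticAt.and hA2.eventually_analyticAt))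
        obtain ⟨L₁, hL₁V, hL₁⟩ := Metric.mem_closure_iff.1 hcl r hr
        have hL₁b : L₁ ∈ ball L₀ r := by rw [mem_ball, dist_comm]; exact hL₁
        have h6 : EqOn (fun L => γ (exp L)) (fun L => γ' (exp L)) (ball L₀ r) := by
          refine AnalyticOnNhd.eqOn_of_preconnected_of_eventuallyEq (fun L hL => (hrA L hL).2.1)
            (fun L hL => (hrA L hL).2.2) (convex_ball _ _).isPreconnected hL₁b ?_
          filter_upwards [hVo.mem_nhds hL₁V, isOpen_ball.mem_nhds hL₁b] with L h7 h8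
          exact (hrA L h8).1 h7
        filter_upwards [ball_mem_nhds L₀ hr] with L hL using h6 hL
      have h6 : ∀ᶠ w in 𝓝 (exp L₀), γ w = γ' w := by
        have h7 : map exp (𝓝 L₀) = 𝓝 (exp L₀) :=
          (hasStrictDerivAt_exp L₀).map_nhds_eq (exp_ne_zero _)
        rw [← h7]
        exact h5
      have h7 : ∀ᶠ y in 𝓝 x, γ (mul n y) = γ' (mul n y) := by
        have h8 : Tendsto (mul n) (𝓝 x) (𝓝 (exp L₀)) := by
          have := (continuous_mul' n).tendsto x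
          rwa [hxL] at this
        exact h8.eventually h6
      filter_upwards [h7, hγ'1] with y h8 h9 hyP
      rw [h9 hyP, h8]
    filter_upwards [h.proper hn hε hL₀ hOn] with L h3 y hy hyL
    have h4 := h3 y hy hyL (h.sub y hy).1
    rwa [hyL] at h4
  have hall : Ann ε ⊆ V := by
    refine (isPreconnected_Ann hε0).subset_of_closure_inter_subset hVo ?_ ?_
    · refine ⟨((-(ε / 2) : ℝ) : ℂ), ?_, ?_, ?_⟩
      · refine ⟨by simpa using hε0.ne', ?_⟩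
        rw [Complex.norm_real, Real.norm_eq_abs, abs_neg, abs_of_pos (by linarith)]; linarith
      · refine ⟨by simpa using hε0.ne', ?_⟩
        rw [Complex.norm_real, Real.norm_eq_abs, abs_neg, abs_of_pos (by linarith)]; linarith
      · rw [mem_interior_iff_mem_nhds]
        have h1 : {L : ℂ | L.re < 0} ∈ 𝓝 (((-(ε / 2) : ℝ) : ℂ)) :=
          (isOpen_lt Complex.continuous_re continuous_const).mem_nhds (by
            show (((-(ε / 2) : ℝ) : ℂ)).re < 0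
            rw [Complex.ofReal_re]; linarith)
        filter_upwards [h1] with L hL x hx y hy hxL hyL
        refine hW x hx y hy ?_ (by rw [hxL, hyL])
        rw [hxL, Complex.norm_exp, Real.exp_lt_one_iff]
        exact hL
    · rintro L₀ ⟨hcl, hL₀⟩
      refine ⟨hL₀, mem_interior_iff_mem_nhds.2 ?_⟩
      by_cases hx : ∃ x₀ ∈ Q, mul n x₀ = exp L₀
      · obtain ⟨x₀, hx₀, hxL₀⟩ := hx
        obtain ⟨γ, -, h1⟩ := key L₀ hL₀ hcl x₀ hx₀ hxL₀
        filter_upwards [h1] with L h2 x hx y hy hxL hyL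
        rw [h2 x hx hxL, h2 y hy hyL]
      · push Not at hx
        filter_upwards [h.proper hn hε hL₀ (O := ∅) (fun x hxQ hxL => absurd hxL (hx x hxQ))]
          with L h2 x hxQ y hy hxL hyL
        exact absurd (h2 x hxQ hxL) (notMem_empty _)
  -- the function
  have hex : ∀ L, ∃ c : ℂ, L ∈ Ann ε → ∀ x ∈ Q, mul n x = exp L → x.1 = c := by
    intro L
    by_cases hL : L ∈ Ann ε
    · obtain ⟨x, hx, hxL⟩ := h.nonempty hn hε0 hε hne hL
      exact ⟨x.1, fun _ y hy hyL => (interior_subset (hall hL).2) y hy x hx hyL hxL⟩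
    · exact ⟨0, fun h => absurd h hL⟩
  choose g₀ hg₀ using hex
  have hdiff : DifferentiableOn ℂ g₀ (ball 0 ε \ {0}) := by
    rintro L₀ ⟨hL1, hL2⟩
    have hL₀ : L₀ ∈ Ann ε := ⟨hL2, by simpa using hL1⟩
    obtain ⟨x₀, hx₀, hxL₀⟩ := h.nonempty hn hε0 hε hne hL₀
    obtain ⟨γ, hγ, h1⟩ := key L₀ hL₀ (subset_closure (hall hL₀)) x₀ hx₀ hxL₀
    have h2 : g₀ =ᶠ[𝓝 L₀] fun L => γ (exp L) := by
      filter_upwards [h1, (isOpen_Ann ε).mem_nhds hL₀] with L h3 h4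
      obtain ⟨x, hx, hxL⟩ := h.nonempty hn hε0 hε hne h4
      rw [← hg₀ L h4 x hx hxL, h3 x hx hxL]
    have h3 : DifferentiableAt ℂ (fun L => γ (exp L)) L₀ :=
      (hγ.comp (analyticAt_cexp)).differentiableAt
    exact (h3.congr_of_eventuallyEq h2).differentiableWithinAt
  have hbd : BddAbove (norm ∘ g₀ '' (ball 0 ε \ {0})) := by
    refine ⟨4, ?_⟩
    rintro _ ⟨L, ⟨hL1, hL2⟩, rfl⟩
    have hL : L ∈ Ann ε := ⟨hL2, by simpa using hL1⟩
    obtain ⟨x, hx, hxL⟩ := h.nonempty hn hε0 hε hne hL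
    show ‖g₀ L‖ ≤ 4
    rw [← hg₀ L hL x hx hxL]
    exact (Per_bdd hn (h.sub x hx).1 (h.facts hε hx).2).1
  refine ⟨_, Complex.differentiableOn_update_limUnder_of_bddAbove (ball_mem_nhds 0 hε0) hdiff hbd,
    ?_, ?_⟩
  · intro x hx L hL hxL
    rw [Function.update_of_ne hL.1]
    exact hg₀ L hL x hx hxL
  · intro x hx
    obtain ⟨-, L, hL, hxL⟩ := h.sub x hx
    exact hloc L hL (subset_closure (hall hL)) x hx hxL

end Pool.Agent.Work.MLC.Pri
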