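import Pool.Agent.Work.MLC.Sat8_69
import Pool.Agent.Work.MLC.Sat4_57
import Pool.Agent.Work.MLC.SatLand60
import Pool.Agent.Work.MLC.SatRoot51

set_option autoImplicit false

/-! # The sector of a component `V`: definitions and openness (helper57)

`V` is a component of period `m`, given by the word `w` and the strip `k₀`. Its section `τ` is
defined on `Ω`, which contains the closed rectangle `-δ ≤ Re L ≤ 0`, `2 π x₁ ≤ Im L ≤ 2 π x₂`.
`InV` is the set of the parameters between the rotation numbers `x₁` and `x₂`, `BarV` is the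
barrier around it. The main result is that membership in `InV` is locally constant off `BarV`. -/

namespace Pool.Agent.Work.MLC

open Filter Topology Metric Set Complex

namespace Sat

/-- data of the sector of a component -/
structure VDat where
  /-- period -/
  m : ℕ
  /-- word -/
  w : ℕ → ℤ
  /-- strip -/
  k₀ : ℤ
  /-- section -/
  τ : ℂ → ℂ × ℂ
  /-- domain of the section -/
  Ω : Set ℂ
  /-- lower rotation number -/
  x₁ : ℝ
  /-- upper rotation number -/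
  x₂ : ℝ
  /-- lower angle -/
  θ₁ : ℝ
  /-- upper angle -/
  θ₂ : ℝ
  /-- depth of the rectangle -/
  δ : ℝ

namespace VDat

variable (V : VDat)

/-- the label -/
noncomputable def J : Lab V.m := lab V.m V.θ₁ V.w

/-- the hypotheses -/
structure Ok : Prop where
  m_pos : 0 < V.m
  bits : Bits V.m V.w
  x₁_pos : 0 < V.x₁
  lt : V.x₁ < V.x₂
  x₂_lt : V.x₂ < 1
  δ_pos : 0 < V.δ
  nu₁ : Circ.nu V.w V.m V.θ₁ = V.k₀ + V.x₁
  nu₂ : Circ.nu V.w V.m V.θ₂ = V.k₀ + V.x₂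
  good : GoodDom V.m V.Ω
  rect : ∀ L : ℂ, -V.δ ≤ L.re → L.re ≤ 0 → 2 * Real.pi * V.x₁ ≤ L.im →
    L.im ≤ 2 * Real.pi * V.x₂ → L ∈ V.Ω
  cont : ContinuousOn V.τ V.Ω
  sec : ∀ L ∈ V.Ω, V.τ L ∈ Per V.m ∧ mul V.m (V.τ L) = exp L
  lab : ∀ L ∈ V.Ω, 0 < L.re → FF V.m (V.τ L) = V.J

/-- the exterior part -/
def InE : Set ℂ := {c | ∃ θ, Ang c θ ∧ V.θ₁ < θ ∧ θ < V.θ₂}

/-- the part in the closure of `V` -/
def InS : Set ℂ := {c | ∃ L : ℂ, -V.δ < L.re ∧ L.re ≤ 0 ∧ 2 * Real.pi * V.x₁ < L.im ∧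
  L.im < 2 * Real.pi * V.x₂ ∧ (V.τ L).1 = c}

/-- the part in the limbs of `V` -/
def InM : Set ℂ := {c | c ∈ MM ∧ ∃ a r, (c, a) ∈ NJ V.m V.J ∧ Rt V.m (c, a) r ∧
  V.x₁ < r ∧ r < V.x₂}

/-- the parameters between `x₁` and `x₂` -/
def InV : Set ℂ := V.InE ∪ V.InS ∪ V.InM

/-- the barrier: the exterior part -/
def BarE : Set ℂ := {c | Ang c V.θ₁ ∨ Ang c V.θ₂}

/-- the barrier: the part in the closure of `V` -/
def BarS : Set ℂ := {c | ∃ L : ℂ, -V.δ ≤ L.re ∧ L.re ≤ 0 ∧ 2 * Real.pi * V.x₁ ≤ L.im ∧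
  L.im ≤ 2 * Real.pi * V.x₂ ∧ (L.re = -V.δ ∨ L.im = 2 * Real.pi * V.x₁ ∨
    L.im = 2 * Real.pi * V.x₂) ∧ (V.τ L).1 = c}

/-- the barrier: the part in the limbs -/
def BarM : Set ℂ := {c | c ∈ MM ∧ ∃ a, (c, a) ∈ NJ V.m V.J ∧
  (Rt V.m (c, a) V.x₁ ∨ Rt V.m (c, a) V.x₂)}

/-- the barrier -/
def BarV : Set ℂ := V.BarE ∪ V.BarS ∪ V.BarM

variable {V}

/-- angles of the strip have the label `J` -/
lemma lab_strip (hV : V.Ok) {θ : ℝ} (h1 : (V.k₀ : ℝ) < Circ.nu V.w V.m θ)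
    (h2 : Circ.nu V.w V.m θ < V.k₀ + 1) : Pool.Agent.Work.MLC.lab V.m θ V.w = V.J := by
  have hx0 := hV.x₁_pos
  have hx1 := hV.lt
  have hx2 := hV.x₂_lt
  have g1 := hV.nu₁
  refine lab_of_strip hV.bits fun θ'' hθ'' k hk => ?_
  have h3 : (V.k₀ : ℝ) < Circ.nu V.w V.m θ'' ∧ Circ.nu V.w V.m θ'' < V.k₀ + 1 := by
    rcases le_total V.θ₁ θ with h | h
    · rw [uIcc_of_le h] at hθ''
      have a1 := Circ.nu_mono V.w V.m hθ''.1
      have a2 := Circ.nu_mono V.w V.m hθ''.2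
      constructor <;> linarith
    · rw [uIcc_of_ge h] at hθ''
      have a1 := Circ.nu_mono V.w V.m hθ''.1
      have a2 := Circ.nu_mono V.w V.m hθ''.2
      constructor <;> linarith
  rw [hk] at h3
  have h4 : V.k₀ < k := by exact_mod_cast h3.1
  have h5 : k < V.k₀ + 1 := by exact_mod_cast h3.2
  omega

/-- the exterior pair with an angle of the strip -/
lemma exists_NJ (hV : V.Ok) {c : ℂ} {θ : ℝ} (h : Ang c θ) (h1 : (V.k₀ : ℝ) < Circ.nu V.w V.m θ)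
    (h2 : Circ.nu V.w V.m θ < V.k₀ + 1) : ∃ a, ExtP V.m c a θ V.w ∧ (c, a) ∈ NJ V.m V.J := by
  obtain ⟨a, ha⟩ := exists_extP hV.m_pos h hV.bits
  have hN : NonInt V.m (c, a) := nonInt_ext ha fun k hk => by
    rw [hk] at h1 h2
    have h4 : V.k₀ < k := by exact_mod_cast h1
    have h5 : k < V.k₀ + 1 := by exact_mod_cast h2
    omega
  refine ⟨a, ha, ha.2.2.1, one_lt_norm_mult_of_ext hV.m_pos ha.1 ha.2.2.1, hN, ?_⟩
  rw [FF_ext (x := (c, a)) ha, lab_strip hV h1 h2]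

/-- the angle of an exterior pair of label `J` -/
lemma exists_th (hV : V.Ok) {c a : ℂ} (h : (c, a) ∈ NJ V.m V.J) (hM : c ∉ MM) :
    ∃ θ, ExtP V.m c a θ V.w ∧ (V.k₀ : ℝ) < Circ.nu V.w V.m θ ∧
      Circ.nu V.w V.m θ < V.k₀ + 1 := by
  have hx0 := hV.x₁_pos
  have hx1 := hV.lt
  have hx2 := hV.x₂_lt
  have g1 := hV.nu₁
  obtain ⟨hper, hρ, hN, hF⟩ := h
  obtain ⟨θ', hθ'⟩ := exists_ang (not_mem_MM_iff.1 hM)
  obtain ⟨v, hv⟩ := exists_extP_word hV.m_pos hθ' hper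
  have hl : Pool.Agent.Work.MLC.lab V.m θ' v = Pool.Agent.Work.MLC.lab V.m V.θ₁ V.w := by
    rw [← FF_ext (x := (c, a)) hv, hF]; rfl
  obtain ⟨M, hM1, hM2, hM3⟩ := exists_shift_of_lab hV.m_pos hv.2.2.2.1 hV.bits (k₀ := V.k₀)
    (by linarith) (by linarith) (hN.2 θ' v hv) hl
  refine ⟨θ' + M, hv.move hV.m_pos hV.bits M fun i => ?_, hM2, hM3⟩
  have h1 := hM1 i
  rw [Int.even_iff] at h1 ⊢
  omega

/-- the fractional part of the rotation number, exterior pairs -/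
lemma fract_of {ν : ℝ} {k : ℤ} (h1 : (k : ℝ) < ν) (h2 : ν < k + 1) : Int.fract ν = ν - k := by
  have : ⌊ν⌋ = k := by
    rw [Int.floor_eq_iff]
    exact ⟨h1.le, h2⟩
  rw [Int.fract, this]

/-- pairs of label `J` with rotation number in `(x₁, x₂)` are over `InV` -/
lemma mem_of_Rt (hV : V.Ok) {c a : ℂ} {r : ℝ} (h : (c, a) ∈ NJ V.m V.J) (hr : Rt V.m (c, a) r)
    (h1 : V.x₁ < r) (h2 : r < V.x₂) : c ∈ V.InV := by
  by_cases hM : c ∈ MM
  · exact Or.inr ⟨hM, a, r, h, hr, h1, h2⟩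
  · obtain ⟨θ, hE, h3, h4⟩ := exists_th hV h hM
    have h5 : r = Circ.nu V.w V.m θ - V.k₀ := by
      have h6 : Rt V.m (c, a) (Int.fract (Circ.nu V.w V.m θ)) := Or.inl ⟨θ, V.w, hE, rfl⟩
      rw [hr.unique hV.m_pos h.1 h.2.1 h6, fract_of h3 h4]
    refine Or.inl (Or.inl ⟨θ, hE.ang, ?_, ?_⟩)
    · by_contra hcon
      rw [not_lt] at hcon
      have := Circ.nu_mono V.w V.m hcon
      rw [hV.nu₁] at this
      linarith
    · by_contra hcon
      rw [not_lt] at hcon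
      have := Circ.nu_mono V.w V.m hcon
      rw [hV.nu₂] at this
      linarith

/-- all periodic pairs near a point of the section are on the section -/
lemma near_section (hV : V.Ok) {L : ℂ} (hL : L ∈ V.Ω) {U : Set ℂ} (hU : U ∈ 𝓝 L) :
    ∀ᶠ c in 𝓝 (V.τ L).1, ∃ L' ∈ U ∩ V.Ω, (V.τ L').1 = c := by
  have h1 : map (fun L => (V.τ L).1) (𝓝 L) = 𝓝 (V.τ L).1 :=
    (section_strict hV.good hV.cont hV.sec hL).map_nhds_eq
      (section_deriv_ne_zero hV.good hV.cont hV.sec hL)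
  have h2 : (fun L => (V.τ L).1) '' (U ∩ V.Ω) ∈ 𝓝 (V.τ L).1 := by
    rw [← h1]
    exact image_mem_map (inter_mem hU (hV.good.isOpen.mem_nhds hL))
  filter_upwards [h2] with c hc
  obtain ⟨L', hL', rfl⟩ := hc
  exact ⟨L', hL', rfl⟩

lemma exp_axis (φ : ℝ) : ‖exp (2 * Real.pi * φ * I)‖ = 1 := by
  rw [Complex.norm_exp]; simp

/-- openness at the repelling pairs -/
lemma open_M (hV : V.Ok) {c₀ : ℂ} (h : c₀ ∈ V.InM) : ∀ᶠ c in 𝓝 c₀, c ∈ V.InV := by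
  obtain ⟨hM, a, r, hNJ, hr, h1, h2⟩ := h
  have hM0 : G c₀ 0 = 0 := mem_M_iff.1 hM
  obtain ⟨hper, hρ, hN, hF⟩ := hNJ
  have hne : mul V.m (c₀, a) ≠ 1 := by
    intro h; rw [h, norm_one] at hρ; exact lt_irrefl _ hρ
  obtain ⟨β, hβ, hβ0, hβe⟩ := chart hper hne
  have ht := chart_tendsto (x₀ := (c₀, a)) hβ hβ0
  have e1 := FF_nhds_gen hV.m_pos hper hρ hN
  have e2 := Rt_nhds hV.m_pos hper hρ hN hr one_pos
  have e3 : ∀ᶠ x in 𝓝 (c₀, a), 1 < ‖mul V.m x‖ :=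
    (continuous_mul' V.m).norm.continuousAt.eventually (lt_mem_nhds hρ)
  filter_upwards [ht.eventually hβe, ht.eventually e1, ht.eventually e2, ht.eventually e3]
    with c b1 b2 b3 b4
  have hp : (c, β c) ∈ Per V.m := b1.2 rfl
  obtain ⟨r', -, hr', hrr⟩ := b3 hp
  have hb2 := b2 hp
  refine mem_of_Rt hV (a := β c) (r := r') ⟨hp, b4, hb2.2, ?_⟩ hr' ?_ ?_
  · rw [hb2.1, hF]
  · rw [hrr hM0]; exact h1
  · rw [hrr hM0]; exact h2

/-- a rational good disc around a point of the axis -/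
lemma exists_disc {m : ℕ} (hm : 0 < m) {φ : ℝ} (h0 : 0 < φ) (h1 : φ < 1) :
    ∃ x : ℚ, 0 < x ∧ x < 1 ∧ (2 * Real.pi * φ * I : ℂ) ∈ ball (axisPt x) (gR m x) := by
  have hm' : (0 : ℝ) < m := by exact_mod_cast hm
  have hc : Continuous fun x : ℝ => 1 / 4 * (min x (1 - x)) ^ 2 / m - 2 * Real.pi * |φ - x| := by
    fun_prop
  have h2 : ∀ᶠ x in 𝓝 φ, 0 < 1 / 4 * (min x (1 - x)) ^ 2 / m - 2 * Real.pi * |φ - x| := by
    refine hc.continuousAt.eventually_const_lt ?_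
    show 0 < 1 / 4 * (min φ (1 - φ)) ^ 2 / m - 2 * Real.pi * |φ - φ|
    rw [sub_self, abs_zero, mul_zero, sub_zero]
    have : 0 < min φ (1 - φ) := lt_min h0 (by linarith)
    positivity
  obtain ⟨ε, hε, h3⟩ := Metric.eventually_nhds_iff.1
    (h2.and ((lt_mem_nhds h0).and (gt_mem_nhds h1)))
  obtain ⟨x, hx1, hx2⟩ := exists_rat_btwn (show φ < φ + ε by linarith)
  have h4 := h3 (y := (x : ℝ)) (by rw [Real.dist_eq, abs_lt]; constructor <;> linarith)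
  refine ⟨x, by exact_mod_cast h4.2.1, by exact_mod_cast h4.2.2, ?_⟩
  rw [mem_ball, dist_eq_norm]
  have h5 : (2 * Real.pi * φ * I : ℂ) - axisPt x = ((2 * Real.pi * (φ - x) : ℝ) : ℂ) * I := by
    unfold axisPt; push_cast; ring
  rw [h5, norm_mul, Complex.norm_I, mul_one, Complex.norm_real, Real.norm_eq_abs, abs_mul,
    abs_of_pos (by positivity : (0 : ℝ) < 2 * Real.pi)]
  unfold gR
  linarith [h4.1]

lemma axis_mem (hV : V.Ok) {φ : ℝ} (h1 : V.x₁ ≤ φ) (h2 : φ ≤ V.x₂) :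
    (2 * Real.pi * φ * I : ℂ) ∈ V.Ω := by
  have hpi := Real.pi_pos
  refine hV.rect _ ?_ ?_ ?_ ?_
  · simp [hV.δ_pos.le]
  · simp
  · have : (2 * Real.pi * φ * I : ℂ).im = 2 * Real.pi * φ := by simp
    rw [this]; exact mul_le_mul_of_nonneg_left h1 (by positivity)
  · have : (2 * Real.pi * φ * I : ℂ).im = 2 * Real.pi * φ := by simp
    rw [this]; exact mul_le_mul_of_nonneg_left h2 (by positivity)

lemma freq_re_pos {L₀ : ℂ} (h : L₀.re = 0) : ∃ᶠ L in 𝓝 L₀, 0 < L.re := by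
  have hcl : L₀ ∈ closure {L : ℂ | 0 < L.re} := by
    rw [Complex.closure_setOfPred_lt_re]
    show (0 : ℝ) ≤ L₀.re
    rw [h]
  exact mem_closure_iff_frequently.1 hcl

/-- near a neutral point of the section all repelling pairs have the label `J` -/
lemma axis_NJ (hV : V.Ok) {φ : ℝ} (h1 : V.x₁ ≤ φ) (h2 : φ ≤ V.x₂) :
    ∀ᶠ y in 𝓝 (V.τ (2 * Real.pi * φ * I)), y ∈ Per V.m → 1 < ‖mul V.m y‖ → y ∈ NJ V.m V.J := by
  have hx0 := hV.x₁_pos
  have hx1 := hV.x₂_lt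
  set L₀ : ℂ := 2 * Real.pi * φ * I with hL₀
  have hL₀Ω : L₀ ∈ V.Ω := axis_mem hV h1 h2
  obtain ⟨hper, hmul⟩ := hV.sec L₀ hL₀Ω
  obtain ⟨⟨J', hJ'⟩, -, -⟩ := s3_neutral V.m (V.τ L₀) φ hV.m_pos hper (by linarith) (by linarith)
    hmul
  have hΩ : V.Ω ∈ 𝓝 L₀ := hV.good.isOpen.mem_nhds hL₀Ω
  have hτ : ContinuousAt V.τ L₀ := hV.cont.continuousAt hΩ
  obtain ⟨L, a1, a2, a3⟩ := ((freq_re_pos (L₀ := L₀) (by simp [hL₀])).and_eventually
    ((hτ.eventually hJ').and hΩ)).exists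
  obtain ⟨b1, b2⟩ := hV.sec L a3
  have h3 := a2 b1 (by rw [b2, Complex.norm_exp]; exact Real.one_lt_exp_iff.2 a1)
  have h4 : J' = V.J := by
    rw [← hV.lab L a3 a1]; exact h3.2.2.2.symm
  rw [h4] at hJ'
  exact hJ'

/-- a neutral limit of pairs of label `J` is a point of the section -/
lemma neutral_eq (hV : V.Ok) {y : ℂ × ℂ} {φ : ℝ} (h1 : V.x₁ ≤ φ) (h2 : φ ≤ V.x₂)
    (hcl : y ∈ closure (NJ V.m V.J))
    (hm : mul V.m y = exp (2 * Real.pi * φ * I)) : V.τ (2 * Real.pi * φ * I) = y := by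
  have hx0 := hV.x₁_pos
  have hx1 := hV.x₂_lt
  set L₀ : ℂ := 2 * Real.pi * φ * I with hL₀
  have hL₀Ω : L₀ ∈ V.Ω := axis_mem hV h1 h2
  have hΩ : V.Ω ∈ 𝓝 L₀ := hV.good.isOpen.mem_nhds hL₀Ω
  have hτ : ContinuousAt V.τ L₀ := hV.cont.continuousAt hΩ
  obtain ⟨x, hx0', hx1', hxb⟩ := exists_disc hV.m_pos (φ := φ) (by linarith) (by linarith)
  by_contra hne
  obtain ⟨A, B, hA, hB, hA', hB', hAB⟩ := t2_separation hne
  -- the logarithm
  set ℓ : ℂ × ℂ → ℂ := fun z => L₀ + Complex.log (mul V.m z / exp L₀) with hℓ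
  have hℓy : ℓ y = L₀ := by
    simp only [hℓ]
    rw [hm, div_self (exp_ne_zero _), Complex.log_one, add_zero]
  have hℓc : ContinuousAt ℓ y := by
    have h3 : mul V.m y / exp L₀ = 1 := by rw [hm, div_self (exp_ne_zero _)]
    refine continuousAt_const.add (ContinuousAt.clog ?_ ?_)
    · exact (continuous_mul' V.m).continuousAt.div_const _
    · rw [h3]; exact Complex.one_mem_slitPlane
  have hℓt : Tendsto ℓ (𝓝 y) (𝓝 L₀) := by
    have := hℓc.tendsto; rwa [hℓy] at this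
  have hev : ∀ᶠ z in 𝓝 y, z ∈ B ∧ V.τ (ℓ z) ∈ A ∧ ℓ z ∈ V.Ω ∧ ℓ z ∈ ball (axisPt x) (gR V.m x) ∧
      mul V.m z ≠ 0 := by
    refine (show ∀ᶠ z in 𝓝 y, z ∈ B from hB.mem_nhds hB').and ((hℓt.eventually (hτ.eventually (hA.mem_nhds hA'))).and
      ((hℓt.eventually hΩ).and ((hℓt.eventually (isOpen_ball.mem_nhds hxb)).and ?_)))
    refine (continuous_mul' V.m).continuousAt.eventually_ne ?_
    rw [hm]; exact exp_ne_zero _
  rw [mem_closure_iff_frequently] at hcl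
  obtain ⟨z, hz, a1, a2, a3, a4, a5⟩ := (hcl.and_eventually hev).exists
  have hexp : exp (ℓ z) = mul V.m z := by
    simp only [hℓ]
    rw [Complex.exp_add, Complex.exp_log (div_ne_zero a5 (exp_ne_zero _))]
    field_simp
  have hre : 0 < (ℓ z).re := by
    have h3 := hz.2.1
    rw [← hexp, Complex.norm_exp] at h3
    exact Real.one_lt_exp_iff.1 h3
  obtain ⟨b1, b2⟩ := hV.sec (ℓ z) a3
  have h4 : z = V.τ (ℓ z) := s4_unique V.m x (ℓ z) z (V.τ (ℓ z)) hV.m_pos hx0' hx1' a4 hre hz.1 b1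
    hexp.symm b2 (by rw [hz.2.2.2, hV.lab _ a3 hre])
  rw [← h4] at a2
  exact Set.disjoint_left.1 hAB a2 a1

/-- openness at the points of the section -/
lemma open_S (hV : V.Ok) {c₀ : ℂ} (h : c₀ ∈ V.InS) : ∀ᶠ c in 𝓝 c₀, c ∈ V.InV := by
  have hx0 := hV.x₁_pos
  have hx1 := hV.x₂_lt
  have hpi := Real.pi_pos
  obtain ⟨L₀, h1, h2, h3, h4, rfl⟩ := h
  have hL₀Ω : L₀ ∈ V.Ω := hV.rect L₀ h1.le h2 h3.le h4.le
  have hΩ : V.Ω ∈ 𝓝 L₀ := hV.good.isOpen.mem_nhds hL₀Ω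
  have hτ : ContinuousAt V.τ L₀ := hV.cont.continuousAt hΩ
  have e1 : ∀ᶠ L in 𝓝 L₀, -V.δ < L.re ∧ 2 * Real.pi * V.x₁ < L.im ∧ L.im < 2 * Real.pi * V.x₂ :=
    (Complex.continuous_re.continuousAt.eventually_const_lt h1).and
      ((Complex.continuous_im.continuousAt.eventually_const_lt h3).and
        (Complex.continuous_im.continuousAt.eventually_lt_const h4))
  have e2 : ∀ᶠ L in 𝓝 L₀, L ∈ V.Ω → 0 < L.re → V.τ L ∈ NJ V.m V.J ∧
      ∃ r, Rt V.m (V.τ L) r ∧ V.x₁ < r ∧ r < V.x₂ := by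
    rcases h2.eq_or_lt with h0 | h0
    · set φ : ℝ := L₀.im / (2 * Real.pi) with hφ
      have hφL : L₀ = 2 * Real.pi * φ * I := by
        apply Complex.ext
        · simp [h0]
        · have : (2 * Real.pi * φ * I : ℂ).im = 2 * Real.pi * φ := by simp
          rw [this, hφ]; field_simp
      have hφ1 : V.x₁ < φ := by rw [hφ, lt_div_iff₀ (by positivity)]; linarith
      have hφ2 : φ < V.x₂ := by rw [hφ, div_lt_iff₀ (by positivity)]; linarith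
      have f1 := axis_NJ hV hφ1.le hφ2.le
      have f2 := Rt_neutral hV.m_pos (x := V.τ (2 * Real.pi * φ * I)) (φ := φ)
        (by rw [← hφL]; exact (hV.sec L₀ hL₀Ω).1) (by linarith) (by linarith)
        (by rw [← hφL]; exact (hV.sec L₀ hL₀Ω).2) (isOpen_Ioo (a := V.x₁) (b := V.x₂)) ⟨hφ1, hφ2⟩
      rw [← hφL] at f1 f2
      filter_upwards [hτ.eventually f1, hτ.eventually f2] with L g1 g2 g3 g4
      obtain ⟨b1, b2⟩ := hV.sec L g3
      have hρ : 1 < ‖mul V.m (V.τ L)‖ := by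
        rw [b2, Complex.norm_exp]; exact Real.one_lt_exp_iff.2 g4
      obtain ⟨r, hr, hR⟩ := g2 b1 hρ
      exact ⟨g1 b1 hρ, r, hR, hr.1, hr.2⟩
    · filter_upwards [Complex.continuous_re.continuousAt.eventually_lt_const h0] with L g1 _ g2
      exact absurd g1 (not_lt.2 g2.le)
  filter_upwards [near_section hV hL₀Ω (e1.and e2)] with c hc
  obtain ⟨L, ⟨⟨⟨a1, a2, a3⟩, a4⟩, a5⟩, rfl⟩ := hc
  rcases le_or_gt L.re 0 with h0 | h0
  · exact Or.inl (Or.inr ⟨L, a1, h0, a2, a3, rfl⟩)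
  · obtain ⟨b1, r, b2, b3, b4⟩ := a4 a5 h0
    exact mem_of_Rt hV (a := (V.τ L).2) b1 b2 b3 b4

/-- openness at the exterior points -/
lemma open_E {c₀ : ℂ} (h : c₀ ∈ V.InE) : ∀ᶠ c in 𝓝 c₀, c ∈ V.InV := by
  obtain ⟨θ, h1, h2, h3⟩ := h
  filter_upwards [ang_nhds h1 (lt_min (sub_pos.2 h2) (sub_pos.2 h3))] with c hc
  obtain ⟨θ', h4, h5⟩ := hc
  have h6 := abs_lt.1 h4
  have h7 := min_le_left (θ - V.θ₁) (V.θ₂ - θ)
  have h8 := min_le_right (θ - V.θ₁) (V.θ₂ - θ)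
  exact Or.inl (Or.inl ⟨θ', h5, by linarith, by linarith⟩)

/-- **`InV` is open** -/
theorem isOpen_InV (hV : V.Ok) : IsOpen V.InV := by
  rw [isOpen_iff_mem_nhds]
  rintro c ((h | h) | h)
  · exact open_E h
  · exact open_S hV h
  · exact open_M hV h

/-! ### closedness -/

/-- exterior limits of `InE` -/
lemma closed_E {c₀ : ℂ} (hM : c₀ ∉ MM) (h : c₀ ∈ closure V.InE) :
    c₀ ∈ V.InE ∨ c₀ ∈ V.BarE := by
  obtain ⟨θ₀, hθ₀⟩ := exists_ang (not_mem_MM_iff.1 hM)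
  set e : ℝ → ℂ := fun θ => exp (2 * Real.pi * I * θ) with he
  have hec : Continuous e := by fun_prop
  set K : Set ℂ := e '' Icc V.θ₁ V.θ₂ with hK
  have hKc : IsClosed K := (isCompact_Icc.image hec).isClosed
  have hmem : e θ₀ ∈ K := by
    by_contra hcon
    have h1 : ∀ᶠ θ in 𝓝 θ₀, e θ ∉ K := hec.continuousAt.eventually (hKc.isOpen_compl.mem_nhds hcon)
    obtain ⟨ε, hε, h2⟩ := Metric.eventually_nhds_iff.1 h1
    rw [mem_closure_iff_frequently] at h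
    obtain ⟨c, ⟨θ, a1, a2, a3⟩, θ', a4, a5⟩ := (h.and_eventually (ang_nhds hθ₀ hε)).exists
    obtain ⟨k, hk⟩ := a1.unique a5
    refine h2 (y := θ') (by rw [Real.dist_eq]; exact a4) ⟨θ, ⟨a2.le, a3.le⟩, ?_⟩
    simp only [he]
    rw [hk, Complex.exp_eq_exp_iff_exists_int]
    exact ⟨-k, by push_cast; ring⟩
  obtain ⟨θ, hθ, hθe⟩ := hmem
  simp only [he] at hθe
  rw [Complex.exp_eq_exp_iff_exists_int] at hθe
  obtain ⟨k, hk⟩ := hθe
  have h3 : θ = θ₀ + k := by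
    have hpi : (2 * Real.pi * I : ℂ) ≠ 0 := by
      simp [Real.pi_ne_zero]
    have h4 : (2 * Real.pi * I : ℂ) * θ = 2 * Real.pi * I * (θ₀ + k) := by rw [hk]; ring
    have h5 := mul_left_cancel₀ hpi h4
    exact_mod_cast h5
  have h4 : Ang c₀ θ := by rw [h3]; exact hθ₀.add_int k
  rcases hθ.1.eq_or_lt with h5 | h5
  · exact Or.inr (Or.inl (by rw [h5]; exact h4))
  rcases hθ.2.eq_or_lt with h6 | h6
  · exact Or.inr (Or.inr (by rw [← h6]; exact h4))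
  exact Or.inl ⟨θ, h4, h5, h6⟩

lemma InS_sub_MM (hV : V.Ok) : V.InS ⊆ MM := by
  rintro c ⟨L, h1, h2, h3, h4, rfl⟩
  by_contra hM
  have hL := hV.rect L h1.le h2 h3.le h4.le
  obtain ⟨b1, b2⟩ := hV.sec L hL
  have h5 := rep13 hV.m_pos b1 hM
  rw [b2, Complex.norm_exp] at h5
  have := Real.one_lt_exp_iff.1 h5
  linarith

/-- limits of the points of the section -/
lemma closed_S (hV : V.Ok) {c₀ : ℂ} (h : c₀ ∈ closure V.InS) : c₀ ∈ V.InS ∨ c₀ ∈ V.BarS := by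
  set K : Set ℂ := Icc (-V.δ) 0 ×ℂ Icc (2 * Real.pi * V.x₁) (2 * Real.pi * V.x₂) with hK
  have hKc : IsCompact K := isCompact_Icc.reProdIm isCompact_Icc
  have hKΩ : K ⊆ V.Ω := by
    intro L hL
    rw [hK, Complex.mem_reProdIm] at hL
    exact hV.rect L hL.1.1 hL.1.2 hL.2.1 hL.2.2
  have h1 : IsClosed ((fun L => (V.τ L).1) '' K) :=
    (hKc.image_of_continuousOn (continuous_fst.comp_continuousOn (hV.cont.mono hKΩ))).isClosed
  have h2 : V.InS ⊆ (fun L => (V.τ L).1) '' K := by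
    rintro c ⟨L, a1, a2, a3, a4, rfl⟩
    exact ⟨L, by rw [hK, Complex.mem_reProdIm]; exact ⟨⟨a1.le, a2⟩, a3.le, a4.le⟩, rfl⟩
  obtain ⟨L, hL, rfl⟩ := closure_minimal h2 h1 h
  rw [hK, Complex.mem_reProdIm] at hL
  obtain ⟨⟨a1, a2⟩, a3, a4⟩ := hL
  rcases a1.eq_or_lt with b1 | b1
  · exact Or.inr ⟨L, a1, a2, a3, a4, Or.inl b1.symm, rfl⟩
  rcases a3.eq_or_lt with b2 | b2
  · exact Or.inr ⟨L, a1, a2, a3, a4, Or.inr (Or.inl b2.symm), rfl⟩
  rcases a4.eq_or_lt with b3 | b3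
  · exact Or.inr ⟨L, a1, a2, a3, a4, Or.inr (Or.inr b3), rfl⟩
  exact Or.inl ⟨L, b1, a2, b2, b3, rfl⟩

/-- every point of `InE` and `InM` has a pair of label `J` with rotation number in `[x₁, x₂]` -/
lemma pair_of_mem (hV : V.Ok) {c : ℂ} (h : c ∈ V.InE ∪ V.InM) :
    ∃ a r, (c, a) ∈ NJ V.m V.J ∧ Rt V.m (c, a) r ∧ V.x₁ ≤ r ∧ r ≤ V.x₂ := by
  have hx0 := hV.x₁_pos
  have hx1 := hV.lt
  have hx2 := hV.x₂_lt
  rcases h with ⟨θ, h1, h2, h3⟩ | ⟨-, a, r, h1, h2, h3, h4⟩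
  · have g1 := Circ.nu_mono V.w V.m h2.le
    have g2 := Circ.nu_mono V.w V.m h3.le
    rw [hV.nu₁] at g1
    rw [hV.nu₂] at g2
    obtain ⟨a, ha, hJ⟩ := exists_NJ hV h1 (by linarith) (by linarith)
    refine ⟨a, _, hJ, Or.inl ⟨θ, V.w, ha, rfl⟩, ?_, ?_⟩
    · rw [fract_of (k := V.k₀) (by linarith) (by linarith)]; linarith
    · rw [fract_of (k := V.k₀) (by linarith) (by linarith)]; linarith
  · exact ⟨a, r, h1, h2, h3.le, h4.le⟩

/-- the statement of `limit_pair` (helper69) -/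
def LimitPair : Prop := ∀ (m : ℕ), 0 < m → ∀ (J : Lab m) (x₁ x₂ : ℝ), 0 < x₁ → x₂ < 1 →
  ∀ c₀ ∈ MM, (∃ᶠ c in 𝓝 c₀, ∃ a r, (c, a) ∈ NJ m J ∧ Rt m (c, a) r ∧ x₁ ≤ r ∧ r ≤ x₂) →
  (∃ a r, (c₀, a) ∈ NJ m J ∧ Rt m (c₀, a) r ∧ x₁ ≤ r ∧ r ≤ x₂) ∨
  (∃ (a : ℂ) (φ : ℝ), (c₀, a) ∈ Per m ∧ (c₀, a) ∈ closure (NJ m J) ∧ x₁ ≤ φ ∧ φ ≤ x₂ ∧
    mul m (c₀, a) = exp (2 * Real.pi * φ * I))

/-- **the frontier of `InV` is on the barrier** -/
theorem closure_InV (hLP : LimitPair) (hV : V.Ok) {c₀ : ℂ} (h : c₀ ∈ closure V.InV) :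
    c₀ ∈ V.InV ∨ c₀ ∈ V.BarV := by
  unfold InV at h
  rw [closure_union, closure_union] at h
  by_cases hM : c₀ ∈ MM
  · by_cases hS : c₀ ∈ closure V.InS
    · rcases closed_S hV hS with h1 | h1
      · exact Or.inl (Or.inl (Or.inr h1))
      · exact Or.inr (Or.inl (Or.inr h1))
    · have h1 : c₀ ∈ closure (V.InE ∪ V.InM) := by
        rw [closure_union]
        rcases h with (h | h) | h
        · exact Or.inl h
        · exact absurd h hS
        · exact Or.inr h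
      rw [mem_closure_iff_frequently] at h1
      have h2 := hLP V.m hV.m_pos V.J V.x₁ V.x₂ hV.x₁_pos hV.x₂_lt c₀ hM
        (h1.mono fun c hc => pair_of_mem hV hc)
      rcases h2 with ⟨a, r, b1, b2, b3, b4⟩ | ⟨a, φ, b1, b2, b3, b4, b5⟩
      · rcases b3.eq_or_lt with g1 | g1
        · rw [← g1] at b2
          exact Or.inr (Or.inr ⟨hM, a, b1, Or.inl b2⟩)
        rcases b4.eq_or_lt with g2 | g2
        · rw [g2] at b2
          exact Or.inr (Or.inr ⟨hM, a, b1, Or.inr b2⟩)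
        exact Or.inl (Or.inr ⟨hM, a, r, b1, b2, g1, g2⟩)
      · have h3 := neutral_eq hV b3 b4 b2 b5
        have hpi := Real.pi_pos
        have e1 : (2 * Real.pi * φ * I : ℂ).re = 0 := by simp
        have e2 : (2 * Real.pi * φ * I : ℂ).im = 2 * Real.pi * φ := by simp
        have e3 : (V.τ (2 * Real.pi * φ * I)).1 = c₀ := by rw [h3]
        have e4 := hV.δ_pos
        rcases b3.eq_or_lt with g1 | g1
        · refine Or.inr (Or.inl (Or.inr ⟨_, by rw [e1]; linarith, e1.le, ?_, ?_,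
            Or.inr (Or.inl ?_), e3⟩))
          · rw [e2]; exact mul_le_mul_of_nonneg_left b3 (by positivity)
          · rw [e2]; exact mul_le_mul_of_nonneg_left b4 (by positivity)
          · rw [e2, g1]
        rcases b4.eq_or_lt with g2 | g2
        · refine Or.inr (Or.inl (Or.inr ⟨_, by rw [e1]; linarith, e1.le, ?_, ?_,
            Or.inr (Or.inr ?_), e3⟩))
          · rw [e2]; exact mul_le_mul_of_nonneg_left b3 (by positivity)
          · rw [e2]; exact mul_le_mul_of_nonneg_left b4 (by positivity)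
          · rw [e2, g2]
        refine Or.inl (Or.inl (Or.inr ⟨_, by rw [e1]; linarith, e1.le, ?_, ?_, e3⟩))
        · rw [e2]; exact mul_lt_mul_of_pos_left g1 (by positivity)
        · rw [e2]; exact mul_lt_mul_of_pos_left g2 (by positivity)
  · have hcl : ∀ S ⊆ MM, c₀ ∉ closure S := fun S hS hc =>
      hM (closure_minimal hS isClosed_MM hc)
    rcases h with (h | h) | h
    · rcases closed_E hM h with h1 | h1
      · exact Or.inl (Or.inl (Or.inl h1))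
      · exact Or.inr (Or.inl (Or.inl h1))
    · exact absurd h (hcl _ (InS_sub_MM hV))
    · exact absurd h (hcl _ fun c hc => hc.1)

/-- **off the barrier membership in `InV` is locally constant** -/
theorem inV_clopen (hLP : LimitPair) (hV : V.Ok) {c₀ : ℂ} (h : c₀ ∉ V.BarV) :
    ∀ᶠ c in 𝓝 c₀, (c ∈ V.InV ↔ c₀ ∈ V.InV) := by
  by_cases h0 : c₀ ∈ V.InV
  · filter_upwards [(isOpen_InV hV).mem_nhds h0] with c hc
    exact ⟨fun _ => h0, fun _ => hc⟩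
  · have h1 : c₀ ∉ closure V.InV := fun h2 => by
      rcases closure_InV hLP hV h2 with h3 | h3
      · exact h0 h3
      · exact h h3
    filter_upwards [isClosed_closure.isOpen_compl.mem_nhds h1] with c hc
    exact ⟨fun h2 => absurd (subset_closure h2) hc, fun h2 => absurd h2 h0⟩

end VDat

end Sat

end Pool.Agent.Work.MLC
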