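import Pool.Agent.Work.MLC.Pri0
import Pool.Agent.Work.MLC.PriK15
import Pool.Agent.Work.MLC.SatE26

set_option autoImplicit false

/-! # Module K, second part: exterior parameters and the set `In` (helper15) -/

namespace Pool.Agent.Work.MLC.PriK

open Set Filter Topology Complex Pri

theorem ang_notMem {c : ℂ} {θ : ℝ} (h : Ang c θ) : c ∉ MM := Sat.not_mem_MM_iff.2 h.1

/-- an exterior parameter is in `In` iff one of its angles lies in `(θ₁, θ₂)` -/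
theorem mem_In_iff {m : ℕ} {w : ℕ → ℤ} {k : ℤ} {δ : ℝ} {σ : ℂ → ℂ × ℂ} {x₁ x₂ : ℚ} {θ₁ θ₂ h : ℝ}
    (hV : VD m w k δ σ) (h1 : δ ≤ x₁) (h2 : (x₂ : ℝ) ≤ 1 - δ) {c : ℂ} {θ : ℝ} (hc : Ang c θ) :
    c ∈ In m w k σ x₁ x₂ θ₁ θ₂ h ↔ ∃ l : ℤ, θ₁ < θ + l ∧ θ + l < θ₂ := by
  have hpi := Real.pi_pos
  constructor
  · rintro (⟨θ', h3, h4, h5⟩ | ⟨h3, -⟩ | ⟨L, -, h4, h5, h6, h7⟩)
    · obtain ⟨l, hl⟩ := hc.unique h5
      exact ⟨l, by rw [← hl]; exact ⟨h3, h4⟩⟩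
    · exact absurd h3 (ang_notMem hc)
    · exfalso
      have hL : L ∈ rect m δ := by
        refine ⟨lt_of_le_of_lt h4 ?_, ?_, ?_⟩
        · have := hV.pos
          have h8 : (0 : ℝ) < m := by exact_mod_cast this
          have h9 := hV.δ_pos
          positivity
        · refine lt_of_le_of_lt ?_ h5
          gcongr
        · refine lt_of_lt_of_le h6 ?_
          gcongr
      obtain ⟨h8, h9⟩ := hV.sec L hL
      have h10 : 1 < ‖mult m (σ L).1 (σ L).2‖ := by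
        refine one_lt_norm_mult_of_ext hV.pos ?_ h8
        rw [h7]; exact hc.1
      have h11 : ‖mult m (σ L).1 (σ L).2‖ ≤ 1 := by
        have h12 : mult m (σ L).1 (σ L).2 = exp L := h9
        rw [h12, Complex.norm_exp, Real.exp_le_one_iff]
        exact h4
      linarith
  · rintro ⟨l, h3, h4⟩
    left
    refine ⟨θ + l, h3, h4, hc.1, ?_⟩
    have h5 := hc.2
    have e : (G c c : ℂ) + 2 * Real.pi * ((θ + l : ℝ) : ℂ) * I =
        ((G c c : ℂ) + 2 * Real.pi * θ * I) + 2 * Real.pi * l * I := by push_cast; ring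
    rw [e, ← h5]
    have h0 : G c 0 < G c c := by
      have := hc.1
      rw [G_self] at this ⊢
      linarith
    conv_rhs => rw [h5]
    have h6 : eta c (((G c c : ℂ) + 2 * Real.pi * θ * I) + 2 * Real.pi * l * I) =
        eta c ((G c c : ℂ) + 2 * Real.pi * θ * I) := by
      rw [eta_eq_iff]
      · refine ⟨-l, ?_⟩
        push_cast; ring
      · have e1 : (((G c c : ℂ) + 2 * Real.pi * θ * I) + 2 * Real.pi * l * I).re = G c c := by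
          have : (((G c c : ℂ) + 2 * Real.pi * θ * I) + 2 * Real.pi * l * I) =
            ((G c c : ℝ) : ℂ) + ((2 * Real.pi * (θ + l) : ℝ) : ℂ) * I := by push_cast; ring
          rw [this, add_re, ofReal_re, re_ofReal_mul, I_re]; ring
        rw [e1]; exact h0
      · have e1 : ((G c c : ℂ) + 2 * Real.pi * θ * I).re = G c c := by
          have : ((G c c : ℂ) + 2 * Real.pi * θ * I) =
            ((G c c : ℝ) : ℂ) + ((2 * Real.pi * θ : ℝ) : ℂ) * I := by push_cast; ring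
          rw [this, add_re, ofReal_re, re_ofReal_mul, I_re]; ring
        rw [e1]; exact h0
    rw [h5] at h6
    convert h6 using 2
    rw [h5]

/-- clause 2 of `BT` -/
theorem mem_In_of_near {m : ℕ} {w : ℕ → ℤ} {k : ℤ} {δ : ℝ} {σ : ℂ → ℂ × ℂ} {x x₁ x₂ : ℚ}
    {θ₁ θ₂ h ε ε' : ℝ} (hV : VD m w k δ σ) (h1 : δ ≤ x₁) (h2 : (x₂ : ℝ) ≤ 1 - δ)
    (hC : Cut m w k x x₁ x₂ θ₁ θ₂ ε ε') {c : ℂ} {θ : ℝ} (hc : Ang c θ)
    (hθ : |Circ.nu w m θ - (k + x)| < ε) : c ∈ In m w k σ x₁ x₂ θ₁ θ₂ h :=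
  (mem_In_iff hV h1 h2 hc).2 ⟨0, by simpa using hC.inside hθ⟩

/-- clause 3 of `BT` -/
theorem notMem_In_of_far {m : ℕ} {w : ℕ → ℤ} {k : ℤ} {δ : ℝ} {σ : ℂ → ℂ × ℂ} {x x₁ x₂ : ℚ}
    {θ₁ θ₂ h ε ε' : ℝ} (hV : VD m w k δ σ) (h1 : δ ≤ x₁) (h2 : (x₂ : ℝ) ≤ 1 - δ)
    (hC : Cut m w k x x₁ x₂ θ₁ θ₂ ε ε') {c : ℂ} {θ : ℝ} (hc : Ang c θ)
    (hθ : ∀ l : ℤ, ε' ≤ |Circ.nu w m (θ + l) - (k + x)|) : c ∉ In m w k σ x₁ x₂ θ₁ θ₂ h := by
  intro hcon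
  obtain ⟨l, hl⟩ := (mem_In_iff hV h1 h2 hc).1 hcon
  exact hC.outside hθ l hl

/-- both clauses with the constants of `BT`; the upper bounds for `x₁`, `x₂` are strict -/
theorem cut_const {N m : ℕ} {w : ℕ → ℤ} {k : ℤ} {x x₁ x₂ : ℚ} {θ₁ θ₂ : ℝ} (hN : 0 < N)
    (a₁ : (x : ℝ) - 3 / (4 * N ^ 2) < x₁) (b₁ : (x₁ : ℝ) ≤ x - 1 / (4 * N ^ 2))
    (a₂ : (x : ℝ) + 1 / (4 * N ^ 2) ≤ x₂) (b₂ : (x₂ : ℝ) < x + 3 / (4 * N ^ 2))
    (h1 : Circ.nu w m θ₁ = k + x₁) (h2 : Circ.nu w m θ₂ = k + x₂) :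
    Cut m w k x x₁ x₂ θ₁ θ₂ (1 / (4 * N ^ 2)) (3 / (4 * N ^ 2)) := by
  have : (0 : ℝ) < N := by exact_mod_cast hN
  exact ⟨h1, h2, by linarith, by linarith, by linarith, by linarith, by positivity⟩

end Pool.Agent.Work.MLC.PriK
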