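import Pool.Agent.Work.MLC.Koebe
import Pool.Agent.Work.MLC.SatS17_6

set_option autoImplicit false

/-! # Distortion: function theory (helper4)

Growth of the derivative of an injective analytic function, and a Harnack inequality for
nonvanishing functions of bounded ratio (Borel-Carathéodory). -/

namespace Pool.Agent.Work.MLC.Rel

open Filter Topology Metric Set Complex

lemma exp_neg_one_gt : 11 / 30 < Real.exp (-1) := by
  rw [Real.exp_neg, lt_inv_comm₀ (by norm_num) (Real.exp_pos _)]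
  have := Real.exp_one_lt_d9
  norm_num at this ⊢
  linarith

lemma exp_neg_one_lt : Real.exp (-1) < 2 / 5 := by
  rw [Real.exp_neg, inv_lt_comm₀ (Real.exp_pos _) (by norm_num)]
  have := Real.exp_one_gt_d9
  norm_num at this ⊢
  linarith

/-- values on the circle of radius `R / e` in terms of the derivative -/
lemma circle_le_deriv {f : ℂ → ℂ} {z0 : ℂ} {R : ℝ} (hR : 0 < R)
    (hf : DifferentiableOn ℂ f (ball z0 R)) (hi : InjOn f (ball z0 R)) {u : ℂ}
    (hu : dist u z0 = R * Real.exp (-1)) :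
    dist (f u) (f z0) ≤ Real.exp BK * (R * Real.exp (-1)) * ‖deriv f z0‖ := by
  set r : ℝ := R * Real.exp (-1) with hr
  have he := exp_neg_one_lt
  have he0 := Real.exp_pos (-1)
  have hr0 : 0 < r := by positivity
  have hrR : r < R := by rw [hr]; nlinarith
  have hsub : closedBall z0 r ⊆ ball z0 R := closedBall_subset_ball hrR
  have hcen : z0 ∈ ball z0 R := mem_ball_self hR
  have hd0 : deriv f z0 ≠ 0 := Sat.deriv_ne_zero_of_injOn
    (hf.analyticAt (isOpen_ball.mem_nhds hcen)) (isOpen_ball.mem_nhds hcen) hi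
  have hds : DifferentiableOn ℂ (dslope f z0) (ball z0 R) :=
    (Complex.differentiableOn_dslope (isOpen_ball.mem_nhds hcen)).2 hf
  have hne : ∀ z ∈ ball z0 R, dslope f z0 z ≠ 0 := by
    intro z hz
    by_cases h : z = z0
    · subst h; rw [dslope_same]; exact hd0
    · rw [dslope_of_ne _ h, slope_def_field]
      exact div_ne_zero (fun h1 => h (hi hz hcen (sub_eq_zero.1 h1))) (sub_ne_zero.2 h)
  have hfu : 0 < dist (f u) (f z0) := by
    refine dist_pos.2 fun h => ?_
    have huB : u ∈ ball z0 R := hsub (mem_closedBall.2 hu.le)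
    have := hi huB hcen h
    rw [this, dist_self] at hu
    exact hr0.ne hu
  have hmax : ‖(dslope f z0 z0)⁻¹‖ ≤ r * Real.exp BK / dist (f u) (f z0) := by
    have hd : DiffContOnCl ℂ (fun z => (dslope f z0 z)⁻¹) (ball z0 r) := by
      apply DifferentiableOn.diffContOnCl
      rw [closure_ball z0 hr0.ne']
      exact (hds.mono hsub).inv fun z hz => hne z (hsub hz)
    refine Complex.norm_le_of_forall_mem_frontier_norm_le isBounded_ball hd (fun v hv => ?_)
      (by rw [closure_ball z0 hr0.ne']; exact mem_closedBall_self hr0.le)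
    rw [frontier_ball z0 hr0.ne', mem_sphere] at hv
    have hvne : v ≠ z0 := by rintro rfl; rw [dist_self] at hv; exact hr0.ne hv
    rw [dslope_of_ne _ hvne, slope_def_field, norm_inv, norm_div, inv_div, ← dist_eq_norm,
      ← dist_eq_norm, hv]
    have h1 := koebe_circle hR hf hi hu hv
    have hfv : 0 < dist (f v) (f z0) := by
      refine dist_pos.2 fun h => hvne ?_
      exact hi (hsub (mem_closedBall.2 hv.le)) hcen h
    rw [div_le_div_iff₀ hfv hfu]
    nlinarith
  rw [dslope_same, norm_inv, inv_le_comm₀ (norm_pos_iff.2 hd0) (by positivity), inv_div,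
    div_le_iff₀ (by positivity)] at hmax
  nlinarith

/-- the constant of the Harnack inequality for the derivative -/
noncomputable def KK : ℝ := 2 * Real.exp BK

lemma one_le_KK : 1 ≤ KK := by
  unfold KK BK
  have := Real.add_one_le_exp (6400 : ℝ)
  linarith

/-- **Harnack inequality for the derivative of an injective function** -/
theorem deriv_le {f : ℂ → ℂ} {z0 : ℂ} {R : ℝ} (hR : 0 < R)
    (hf : DifferentiableOn ℂ f (ball z0 R)) (hi : InjOn f (ball z0 R)) {w : ℂ}
    (hw : dist w z0 ≤ R / 6) : ‖deriv f w‖ ≤ KK * ‖deriv f z0‖ := by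
  set r : ℝ := R * Real.exp (-1) with hr
  have he := exp_neg_one_lt
  have he1 := exp_neg_one_gt
  have he0 := Real.exp_pos (-1)
  have hr0 : 0 < r := by positivity
  have hrR : r < R := by rw [hr]; nlinarith
  have hsub : closedBall z0 r ⊆ ball z0 R := closedBall_subset_ball hrR
  set M : ℝ := Real.exp BK * (R * Real.exp (-1)) * ‖deriv f z0‖ with hM
  have hmax : ∀ w ∈ closedBall z0 r, ‖f w - f z0‖ ≤ M := by
    intro w hw
    have hd : DiffContOnCl ℂ (fun w => f w - f z0) (ball z0 r) := by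
      apply DifferentiableOn.diffContOnCl
      rw [closure_ball z0 hr0.ne']
      exact (hf.mono hsub).sub_const _
    refine Complex.norm_le_of_forall_mem_frontier_norm_le isBounded_ball hd (fun x hx => ?_)
      (by rw [closure_ball z0 hr0.ne']; exact hw)
    rw [frontier_ball z0 hr0.ne', mem_sphere] at hx
    rw [← dist_eq_norm]
    exact circle_le_deriv hR hf hi hx
  have hcb : closedBall w (R / 5) ⊆ closedBall z0 r := by
    intro v hv
    rw [mem_closedBall] at hv ⊢
    have := dist_triangle v w z0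
    rw [hr]
    nlinarith
  have hd : DiffContOnCl ℂ (fun w => f w - f z0) (ball w (R / 5)) := by
    apply DifferentiableOn.diffContOnCl
    rw [closure_ball w (by positivity)]
    exact (hf.mono (hcb.trans hsub)).sub_const _
  have h1 := Complex.norm_deriv_le_of_forall_mem_sphere_norm_le (by positivity : 0 < R / 5) hd
    fun v hv => hmax v (hcb (sphere_subset_closedBall hv))
  have h2 : deriv (fun w => f w - f z0) w = deriv f w := by
    rw [deriv_sub_const]
  rw [h2] at h1
  refine h1.trans ?_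
  rw [div_le_iff₀ (by positivity), hM]
  unfold KK
  have h3 : 0 ≤ Real.exp BK * ‖deriv f z0‖ * R := by positivity
  nlinarith

/-- growth of the derivative towards the boundary, in steps -/
lemma deriv_growth {f : ℂ → ℂ} (hf : DifferentiableOn ℂ f (ball 0 1))
    (hi : InjOn f (ball 0 1)) (j : ℕ) : ∀ l ∈ ball (0 : ℂ) 1, (5 / 6 : ℝ) ^ j ≤ 1 - ‖l‖ →
    ‖deriv f l‖ ≤ KK ^ j * ‖deriv f 0‖ := by
  have hK := one_le_KK
  induction j with
  | zero =>
    intro l hl h
    have h1 : ‖l‖ ≤ 0 := by linarith [h, pow_zero (5 / 6 : ℝ)]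
    rw [norm_le_zero_iff.1 h1]
    simp
  | succ j ih =>
    intro l hl h
    have h0 : 0 ≤ KK ^ j * ‖deriv f 0‖ := by positivity
    have hK0 : 0 ≤ KK := by linarith
    rcases le_or_gt ((5 / 6 : ℝ) ^ j) (1 - ‖l‖) with h1 | h1
    · refine (ih l hl h1).trans ?_
      rw [pow_succ]
      nlinarith
    · have hp : 0 < (5 / 6 : ℝ) ^ j := by positivity
      have hp1 : (5 / 6 : ℝ) ^ j ≤ 1 := pow_le_one₀ (by norm_num) (by norm_num)
      have hl0 : 0 < ‖l‖ := by linarith
      set t : ℝ := 1 - (5 / 6 : ℝ) ^ j with ht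
      have ht0 : 0 ≤ t := by linarith
      set l' : ℂ := ((t / ‖l‖ : ℝ) : ℂ) * l with hl'
      have hn : ‖l'‖ = t := by
        rw [hl', norm_mul, Complex.norm_real, Real.norm_of_nonneg (by positivity),
          div_mul_cancel₀ _ hl0.ne']
      have hd : dist l l' = ‖l‖ - t := by
        have h2 : l - l' = ((1 - t / ‖l‖ : ℝ) : ℂ) * l := by
          rw [hl']; push_cast; ring
        have h3 : 0 ≤ 1 - t / ‖l‖ := by
          rw [sub_nonneg, div_le_one hl0]; linarith
        rw [dist_eq_norm, h2, norm_mul, Complex.norm_real, Real.norm_of_nonneg h3]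
        field_simp
      have hR : 0 < (5 / 6 : ℝ) ^ j := hp
      have hb : ball l' ((5 / 6 : ℝ) ^ j) ⊆ ball 0 1 := by
        intro v hv
        rw [mem_ball_zero_iff]
        rw [mem_ball, dist_eq_norm] at hv
        calc ‖v‖ = ‖(v - l') + l'‖ := by rw [sub_add_cancel]
          _ ≤ ‖v - l'‖ + ‖l'‖ := norm_add_le _ _
          _ < 1 := by rw [hn]; linarith
      have hl'b : l' ∈ ball (0 : ℂ) 1 := by rw [mem_ball_zero_iff, hn]; linarith
      have h4 := deriv_le hR (hf.mono hb) (hi.mono hb) (w := l) (by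
        rw [hd]
        rw [pow_succ] at h
        linarith)
      have h5 := ih l' hl'b (by rw [hn]; linarith)
      calc ‖deriv f l‖ ≤ KK * ‖deriv f l'‖ := h4
        _ ≤ KK * (KK ^ j * ‖deriv f 0‖) := by gcongr
        _ = KK ^ (j + 1) * ‖deriv f 0‖ := by ring

/-- **polynomial growth of the derivative** -/
theorem growth : ∃ A : ℕ, ∀ f : ℂ → ℂ, DifferentiableOn ℂ f (ball 0 1) → InjOn f (ball 0 1) →
    ∀ ρ : ℝ, 0 < ρ → ρ ≤ 1 → ∀ l : ℂ, ‖l‖ ≤ 1 - ρ →
    ‖deriv f l‖ ≤ (2 / ρ) ^ A * ‖deriv f 0‖ := by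
  obtain ⟨A, hA⟩ := pow_unbounded_of_one_lt KK (by norm_num : (1 : ℝ) < 6 / 5)
  refine ⟨A, fun f hf hi ρ hρ hρ1 l hl => ?_⟩
  have hl1 : l ∈ ball (0 : ℂ) 1 := by rw [mem_ball_zero_iff]; linarith
  have hex : ∃ j : ℕ, (5 / 6 : ℝ) ^ j ≤ ρ := by
    obtain ⟨j, hj⟩ := exists_pow_lt_of_lt_one hρ (by norm_num : (5 / 6 : ℝ) < 1)
    exact ⟨j, hj.le⟩
  classical
  set j := Nat.find hex with hj
  have hj1 : (5 / 6 : ℝ) ^ j ≤ ρ := Nat.find_spec hex
  have h1 := deriv_growth hf hi j l hl1 (by linarith)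
  refine h1.trans ?_
  gcongr
  have h2 : (6 / 5 : ℝ) ^ j ≤ 2 / ρ := by
    rcases Nat.eq_zero_or_pos j with h0 | h0
    · rw [h0, pow_zero, le_div_iff₀ hρ]; linarith
    · have h3 : ρ < (5 / 6 : ℝ) ^ (j - 1) := by
        have := Nat.find_min hex (m := j - 1) (by omega)
        push Not at this
        exact this
      have h4 : (5 / 6 : ℝ) ^ (j - 1) * (6 / 5 : ℝ) ^ (j - 1) = 1 := by
        rw [← mul_pow]; norm_num
      have h5 : (6 / 5 : ℝ) ^ j = (6 / 5 : ℝ) ^ (j - 1) * (6 / 5) := by
        rw [← pow_succ]; congr 1; omega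
      rw [h5, le_div_iff₀ hρ]
      have h6 : 0 < (6 / 5 : ℝ) ^ (j - 1) := by positivity
      nlinarith
  calc KK ^ j ≤ ((6 / 5 : ℝ) ^ A) ^ j := by
        gcongr
        linarith [one_le_KK]
    _ = ((6 / 5 : ℝ) ^ j) ^ A := by rw [← pow_mul, ← pow_mul, mul_comm]
    _ ≤ (2 / ρ) ^ A := by gcongr

/-- the image contains a disc of radius comparable to the derivative -/
theorem inradius {f : ℂ → ℂ} (hf : DifferentiableOn ℂ f (ball 0 1)) (hi : InjOn f (ball 0 1)) :
    ball (f 0) (‖deriv f 0‖ / (4 * KK)) ⊆ f '' ball 0 1 := by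
  set r : ℝ := 1 * Real.exp (-1) with hr
  have he := exp_neg_one_lt
  have he1 := exp_neg_one_gt
  have he0 := Real.exp_pos (-1)
  have hr0 : 0 < r := by positivity
  have hrR : r < 1 := by rw [hr]; nlinarith
  have hsub : closedBall (0 : ℂ) r ⊆ ball 0 1 := closedBall_subset_ball hrR
  have hcen : (0 : ℂ) ∈ ball (0 : ℂ) 1 := mem_ball_self one_pos
  have hd : DiffContOnCl ℂ f (ball 0 r) := by
    apply DifferentiableOn.diffContOnCl
    rw [closure_ball (0 : ℂ) hr0.ne']
    exact hf.mono hsub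
  have hlow : ∀ v ∈ sphere (0 : ℂ) r, Real.exp (-BK) * (11 / 30) * ‖deriv f 0‖ ≤
      ‖f v - f 0‖ := by
    intro v hv
    rw [mem_sphere] at hv
    have hd1 : DiffContOnCl ℂ (fun w => f w - f 0) (ball 0 r) := hd.sub_const _
    have h1 := Complex.norm_deriv_le_of_forall_mem_sphere_norm_le hr0 hd1
      (C := Real.exp BK * dist (f v) (f 0)) fun u hu => by
        rw [mem_sphere] at hu
        rw [← dist_eq_norm]
        exact koebe_circle one_pos hf hi hu hv
    rw [deriv_sub_const, le_div_iff₀ hr0, dist_eq_norm] at h1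
    have h2 : Real.exp (-BK) * Real.exp BK = 1 := by rw [← Real.exp_add]; simp
    have h3 : 0 < Real.exp (-BK) := Real.exp_pos _
    have h4 : ‖deriv f 0‖ * (11 / 30) ≤ ‖deriv f 0‖ * r := by
      gcongr; rw [hr]; linarith
    calc Real.exp (-BK) * (11 / 30) * ‖deriv f 0‖
        = Real.exp (-BK) * (‖deriv f 0‖ * (11 / 30)) := by ring
      _ ≤ Real.exp (-BK) * (Real.exp BK * ‖f v - f 0‖) :=
          mul_le_mul_of_nonneg_left (h4.trans h1) h3.le
      _ = ‖f v - f 0‖ := by rw [← mul_assoc, h2, one_mul]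
  have hfr : ∃ᶠ z in 𝓝 (0 : ℂ), f z ≠ f 0 := by
    have h3 : ∃ᶠ w in 𝓝 (0 : ℂ), w ≠ 0 := by
      have h3 : ∃ᶠ w in 𝓝[≠] (0 : ℂ), True := by
        rw [frequently_true_iff_neBot]; infer_instance
      rw [frequently_nhdsWithin_iff] at h3
      exact h3.mono fun w hw => hw.2
    refine (h3.and_eventually (isOpen_ball.mem_nhds hcen)).mono ?_
    rintro w ⟨h4, h5⟩ h6
    exact h4 (hi h5 hcen h6)
  have h5 := hd.ball_subset_image_closedBall hr0 hlow hfr
  refine (ball_subset_ball ?_).trans (h5.trans (image_mono hsub))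
  have h6 : ‖deriv f 0‖ / (4 * KK) = Real.exp (-BK) * (1 / 8) * ‖deriv f 0‖ := by
    unfold KK
    rw [Real.exp_neg]
    field_simp
    ring
  rw [h6]
  have h7 : 0 ≤ Real.exp (-BK) * ‖deriv f 0‖ := by positivity
  nlinarith

/-- **Harnack inequality for nonvanishing functions of bounded ratio** -/
theorem harn {h : ℂ → ℂ} {z1 : ℂ} {R Λ : ℝ} (hR : 0 < R) (hΛ : 0 < Λ)
    (hh : DifferentiableOn ℂ h (ball z1 R)) (hne : ∀ z ∈ ball z1 R, h z ≠ 0)
    (hb : ∀ z ∈ ball z1 R, ‖h z‖ ≤ Real.exp Λ * ‖h z1‖) {z w : ℂ}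
    (hz : z ∈ closedBall z1 (3 * R / 4)) (hw : w ∈ closedBall z1 (3 * R / 4)) :
    ‖h z‖ ≤ Real.exp (112 * Λ * ‖z - w‖ / R) * ‖h w‖ := by
  have hcen : z1 ∈ ball z1 R := mem_ball_self hR
  have hda : ∀ z ∈ ball z1 R, HasDerivAt h (deriv h z) z := fun z hz =>
    (hh.differentiableAt (isOpen_ball.mem_nhds hz)).hasDerivAt
  have hld : DifferentiableOn ℂ (fun z => deriv h z / h z) (ball z1 R) :=
    (hh.deriv isOpen_ball).div hh hne
  obtain ⟨H₀, hH₀⟩ := hld.isExactOn_ball
  set H : ℂ → ℂ := fun z => H₀ z - H₀ z1 with hHd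
  have hH : ∀ z ∈ ball z1 R, HasDerivAt H (deriv h z / h z) z := fun z hz =>
    (hH₀ z hz).sub_const _
  have hH1 : H z1 = 0 := by simp [hHd]
  -- `h = h z1 * exp H`
  have hexp : ∀ z ∈ ball z1 R, h z = h z1 * exp (H z) := by
    have h1 : ∀ z ∈ ball z1 R, HasDerivAt (fun z => h z * exp (-H z)) 0 z := by
      intro z hz
      have h2 := (hda z hz).mul ((hH z hz).neg.cexp)
      have h0 := hne z hz
      have h3 : h z * (exp (-H z) * -(deriv h z / h z)) = -(deriv h z * exp (-H z)) := by
        field_simp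
      have h4 : deriv h z * exp (-H z) + h z * (exp (-H z) * -(deriv h z / h z)) = 0 := by
        rw [h3]; ring
      rw [← h4]
      exact h2
    have h2 : ∀ z ∈ ball z1 R, h z * exp (-H z) = h z1 := by
      intro z hz
      have h3 := (convex_ball z1 R).is_const_of_fderivWithin_eq_zero (𝕜 := ℂ)
        (f := fun z => h z * exp (-H z))
        (fun z hz => (h1 z hz).differentiableAt.differentiableWithinAt)
        (fun z hz => by
          rw [fderivWithin_of_isOpen isOpen_ball hz]
          ext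
          simp [(h1 z hz).hasFDerivAt.fderiv]) hz hcen
      rw [h3, hH1]; simp
    intro z hz
    rw [← h2 z hz, mul_assoc, ← exp_add]; simp
  have hre : ∀ z ∈ ball z1 R, (H z).re ≤ Λ := by
    intro z hz
    have h1 := hb z hz
    rw [hexp z hz, norm_mul, Complex.norm_exp, mul_comm] at h1
    have h2 : 0 < ‖h z1‖ := norm_pos_iff.2 (hne z1 hcen)
    exact Real.exp_le_exp.1 (le_of_mul_le_mul_right h1 h2)
  -- Borel-Carathéodory
  have hbc : ∀ z ∈ closedBall z1 (7 * R / 8), ‖H z‖ ≤ 14 * Λ := by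
    intro z hz
    have hzn : ‖z - z1‖ ≤ 7 * R / 8 := by rwa [mem_closedBall, dist_eq_norm] at hz
    have h1 : DifferentiableOn ℂ (fun u => H (z1 + u)) (ball 0 R) := by
      intro u hu
      have hu' : z1 + u ∈ ball z1 R := by
        rw [mem_ball, dist_eq_norm, add_sub_cancel_left]; simpa using hu
      exact ((hH _ hu').differentiableAt.comp u
        (differentiableAt_id.const_add z1)).differentiableWithinAt
    have h2 := Complex.borelCaratheodory_zero hΛ h1 (fun u hu => by
      have hu' : z1 + u ∈ ball z1 R := by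
        rw [mem_ball, dist_eq_norm, add_sub_cancel_left]; simpa using hu
      exact hre _ hu') hR (z := z - z1) (by rw [mem_ball_zero_iff]; linarith) (by simp [hH1])
    simp only [add_sub_cancel] at h2
    refine h2.trans ?_
    rw [div_le_iff₀ (by linarith)]
    nlinarith [norm_nonneg (z - z1)]
  -- the derivative
  have hder : ∀ z ∈ closedBall z1 (3 * R / 4), ‖deriv H z‖ ≤ 112 * Λ / R := by
    intro z hz
    have hcb : closedBall z (R / 8) ⊆ closedBall z1 (7 * R / 8) := by
      intro v hv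
      rw [mem_closedBall] at hv hz ⊢
      have := dist_triangle v z z1
      linarith
    have hsub : closedBall z1 (7 * R / 8) ⊆ ball z1 R := closedBall_subset_ball (by linarith)
    have hd : DiffContOnCl ℂ H (ball z (R / 8)) := by
      apply DifferentiableOn.diffContOnCl
      rw [closure_ball z (by positivity)]
      exact fun v hv => (hH v (hsub (hcb hv))).differentiableAt.differentiableWithinAt
    have h1 := Complex.norm_deriv_le_of_forall_mem_sphere_norm_le (by positivity : 0 < R / 8) hd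
      fun v hv => hbc v (hcb (sphere_subset_closedBall hv))
    refine h1.trans (le_of_eq ?_)
    field_simp
    ring
  have hsub2 : closedBall z1 (3 * R / 4) ⊆ ball z1 R := closedBall_subset_ball (by linarith)
  have hlip : ‖H z - H w‖ ≤ 112 * Λ / R * ‖z - w‖ :=
    (convex_closedBall z1 (3 * R / 4)).norm_image_sub_le_of_norm_deriv_le
      (fun v hv => (hH v (hsub2 hv)).differentiableAt) hder hw hz
  rw [hexp z (hsub2 hz), hexp w (hsub2 hw), norm_mul, norm_mul, Complex.norm_exp,
    Complex.norm_exp]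
  have h3 : (H z).re ≤ 112 * Λ * ‖z - w‖ / R + (H w).re := by
    have h4 : (H z - H w).re ≤ ‖H z - H w‖ := Complex.re_le_norm _
    rw [Complex.sub_re] at h4
    have h5 : 112 * Λ / R * ‖z - w‖ = 112 * Λ * ‖z - w‖ / R := by ring
    linarith
  have h4 := Real.exp_le_exp.2 h3
  rw [Real.exp_add] at h4
  calc ‖h z1‖ * Real.exp (H z).re
      ≤ ‖h z1‖ * (Real.exp (112 * Λ * ‖z - w‖ / R) * Real.exp (H w).re) := by gcongr
    _ = _ := by ring

end Pool.Agent.Work.MLC.Rel
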