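import Pool.Agent.Work.MLC.PriH4

set_option autoImplicit false

/-! # Distortion: an exponential lower bound for the derivative of the parameter (helper4) -/

namespace Pool.Agent.Work.MLC.Rel

open Filter Topology Metric Set Complex
open Pool.Agent.Work.MLC.Pri (Ann)

variable {n : ℕ} {c z : ℂ → ℂ} {L p q : ℂ}

/-- the derivative of the iterates along a curve -/
lemma it_deriv (hc : HasDerivAt c p L) (hz : HasDerivAt z q L)
    (hbd : ∀ i, ‖it (c L) i (z L)‖ ≤ 3) (i : ℕ) : ∃ b : ℂ, ‖b‖ ≤ ((6 : ℝ) ^ i - 1) / 5 ∧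
      HasDerivAt (fun L' => it (c L') i (z L')) (mul i (c L, z L) * q + b * p) L := by
  induction i with
  | zero =>
    refine ⟨0, by simp, ?_⟩
    simpa [mul] using hz
  | succ i ih =>
    obtain ⟨b, hb, hd⟩ := ih
    refine ⟨2 * it (c L) i (z L) * b + 1, ?_, ?_⟩
    · calc ‖2 * it (c L) i (z L) * b + 1‖ ≤ ‖2 * it (c L) i (z L) * b‖ + ‖(1 : ℂ)‖ := norm_add_le _ _
        _ = 2 * ‖it (c L) i (z L)‖ * ‖b‖ + 1 := by simp
        _ ≤ 2 * 3 * (((6 : ℝ) ^ i - 1) / 5) + 1 := by gcongr; exact hbd i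
        _ = _ := by rw [pow_succ]; ring
    · have h1 : (fun L' => it (c L') (i + 1) (z L')) = fun L' => it (c L') i (z L') ^ 2 + c L' := by
        funext L'; rw [it_succ]; rfl
      rw [h1]
      have h2 := (hd.pow 2).add hc
      have h3 : mul (i + 1) (c L, z L) = mul i (c L, z L) * (2 * it (c L) i (z L)) := by
        unfold mul; rw [Finset.prod_range_succ]
      rw [h3]
      refine h2.congr_deriv ?_
      push_cast
      ring

lemma norm_mul_le (hbd : ∀ i, ‖it (c L) i (z L)‖ ≤ 3) (i : ℕ) :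
    ‖mul i (c L, z L)‖ ≤ 6 ^ i := by
  unfold mul
  rw [norm_prod]
  calc ∏ j ∈ Finset.range i, ‖2 * it (c L) j (z L)‖ ≤ ∏ j ∈ Finset.range i, (6 : ℝ) := by
        refine Finset.prod_le_prod (fun _ _ => norm_nonneg _) fun j _ => ?_
        rw [norm_mul]
        have := hbd j
        norm_num
        linarith
    _ = 6 ^ i := by simp

/-- the derivative of the multiplier along a curve -/
lemma mul_deriv (hc : HasDerivAt c p L) (hz : HasDerivAt z q L)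
    (hbd : ∀ i, ‖it (c L) i (z L)‖ ≤ 3) (i : ℕ) : ∃ d : ℂ, ‖d‖ ≤ (36 : ℝ) ^ i * (‖q‖ + ‖p‖) ∧
      HasDerivAt (fun L' => mul i (c L', z L')) d L := by
  induction i with
  | zero =>
    refine ⟨0, by simp; positivity, ?_⟩
    simpa [mul] using hasDerivAt_const L (1 : ℂ)
  | succ i ih =>
    obtain ⟨d, hd, hdd⟩ := ih
    obtain ⟨b, hb, hbd'⟩ := it_deriv hc hz hbd i
    set D : ℂ := mul i (c L, z L) * q + b * p with hD
    have hDn : ‖D‖ ≤ 6 ^ i * (‖q‖ + ‖p‖) := by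
      have h1 : ‖b‖ ≤ 6 ^ i := by
        have : (0 : ℝ) < 6 ^ i := by positivity
        linarith
      calc ‖D‖ ≤ ‖mul i (c L, z L) * q‖ + ‖b * p‖ := norm_add_le _ _
        _ = ‖mul i (c L, z L)‖ * ‖q‖ + ‖b‖ * ‖p‖ := by rw [norm_mul, norm_mul]
        _ ≤ 6 ^ i * ‖q‖ + 6 ^ i * ‖p‖ := by gcongr; exact norm_mul_le hbd i
        _ = _ := by ring
    refine ⟨d * (2 * it (c L) i (z L)) + mul i (c L, z L) * (2 * D), ?_, ?_⟩
    · have h1 := hbd i
      have h2 := norm_mul_le hbd i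
      calc ‖d * (2 * it (c L) i (z L)) + mul i (c L, z L) * (2 * D)‖
          ≤ ‖d * (2 * it (c L) i (z L))‖ + ‖mul i (c L, z L) * (2 * D)‖ := norm_add_le _ _
        _ = ‖d‖ * (2 * ‖it (c L) i (z L)‖) + ‖mul i (c L, z L)‖ * (2 * ‖D‖) := by
            simp [norm_mul]
        _ ≤ (36 : ℝ) ^ i * (‖q‖ + ‖p‖) * (2 * 3) + 6 ^ i * (2 * (6 ^ i * (‖q‖ + ‖p‖))) := by
            gcongr
        _ = 8 * (36 : ℝ) ^ i * (‖q‖ + ‖p‖) := by
            have : (6 : ℝ) ^ i * 6 ^ i = 36 ^ i := by rw [← mul_pow]; norm_num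
            rw [← this]; ring
        _ ≤ (36 : ℝ) ^ (i + 1) * (‖q‖ + ‖p‖) := by
            rw [pow_succ]
            have : 0 ≤ (36 : ℝ) ^ i * (‖q‖ + ‖p‖) := by positivity
            nlinarith
    · have h1 : (fun L' => mul (i + 1) (c L', z L')) =
          fun L' => mul i (c L', z L') * (2 * it (c L') i (z L')) := by
        funext L'; unfold mul; rw [Finset.prod_range_succ]
      rw [h1]
      exact hdd.mul (hbd'.const_mul 2)

/-- **exponential lower bound for the derivative of the parameter** -/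
theorem deriv_lower (hn : 0 < n) (hc : HasDerivAt c p L) (hz : HasDerivAt z q L)
    (hper : ∀ᶠ L' in 𝓝 L, (c L', z L') ∈ Per n)
    (hmul : ∀ᶠ L' in 𝓝 L, mul n (c L', z L') = exp L') (hlt : ‖exp L‖ < 23 / 10) :
    ‖exp L‖ * ‖1 - exp L‖ ≤ 2 * 216 ^ n * ‖p‖ := by
  have hP : (c L, z L) ∈ Per n := hper.self_of_nhds
  have hM : mul n (c L, z L) = exp L := hmul.self_of_nhds
  have hbd : ∀ i, ‖it (c L) i (z L)‖ ≤ 3 := fun i =>
    (Per_bdd hn (Sat.Per_it hP i) (by rw [Sat.mul_it' hP i, hM]; exact hlt)).2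
  obtain ⟨b, hb, hd⟩ := it_deriv hc hz hbd n
  obtain ⟨d, hd1, hd2⟩ := mul_deriv hc hz hbd n
  -- derivative of the periodicity
  have h1 : (fun L' => it (c L') n (z L')) =ᶠ[𝓝 L] z := by
    filter_upwards [hper] with L' h
    exact h
  have h2 : mul n (c L, z L) * q + b * p = q := (hd.congr_of_eventuallyEq h1.symm).unique hz
  have h3 : d = exp L := hd2.unique ((Complex.hasDerivAt_exp L).congr_of_eventuallyEq hmul)
  rw [hM] at h2
  have h4 : (1 - exp L) * q = b * p := by linear_combination -h2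
  have hb6 : ‖b‖ ≤ 6 ^ n := by
    have : (0 : ℝ) < 6 ^ n := by positivity
    linarith
  have h5 : ‖1 - exp L‖ * ‖q‖ ≤ 6 ^ n * ‖p‖ := by
    rw [← norm_mul, h4, norm_mul]; gcongr
  have h6 : ‖1 - exp L‖ ≤ 6 ^ n := by
    have h7 : ‖1 - exp L‖ ≤ 1 + ‖exp L‖ := by simpa using norm_sub_le (1 : ℂ) (exp L)
    have h8 : (6 : ℝ) ^ 1 ≤ 6 ^ n := pow_le_pow_right₀ (by norm_num) hn
    norm_num at h8
    linarith
  rw [← h3]
  have h9 : (36 : ℝ) ^ n * 6 ^ n = 216 ^ n := by rw [← mul_pow]; norm_num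
  calc ‖d‖ * ‖1 - d‖ ≤ (36 : ℝ) ^ n * (‖q‖ + ‖p‖) * ‖1 - d‖ := by gcongr
    _ = (36 : ℝ) ^ n * (‖1 - exp L‖ * ‖q‖ + ‖1 - exp L‖ * ‖p‖) := by rw [h3]; ring
    _ ≤ (36 : ℝ) ^ n * (6 ^ n * ‖p‖ + 6 ^ n * ‖p‖) := by gcongr
    _ = 2 * 216 ^ n * ‖p‖ := by rw [← h9]; ring

/-- the bound at a point `z₀ - R / 4`, `z₀` on the imaginary axis -/
theorem deriv_lower_axis (hn : 0 < n) {z₀ : ℂ} (hz₀ : z₀.re = 0) {R : ℝ} (hR : 0 < R)
    (hR1 : R ≤ 1) (hL : L = z₀ - ((R / 4 : ℝ) : ℂ)) (hc : HasDerivAt c p L)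
    (hz : HasDerivAt z q L) (hper : ∀ᶠ L' in 𝓝 L, (c L', z L') ∈ Per n)
    (hmul : ∀ᶠ L' in 𝓝 L, mul n (c L', z L') = exp L') : R / (32 * 216 ^ n) ≤ ‖p‖ := by
  have hre : L.re = -(R / 4) := by rw [hL]; simp [hz₀]
  have hexp : ‖exp L‖ = Real.exp (-(R / 4)) := by rw [Complex.norm_exp, hre]
  have h1 : Real.exp (-(R / 4)) ≤ 1 - R / 8 := by
    have h2 : 1 / 2 ≤ Real.exp (-(R / 4)) := by
      have := Real.add_one_le_exp (-(R / 4))
      linarith
    have h3 : 1 + R / 4 ≤ Real.exp (R / 4) := by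
      have := Real.add_one_le_exp (R / 4); linarith
    have h4 : Real.exp (R / 4) * Real.exp (-(R / 4)) = 1 := by
      rw [← Real.exp_add]; simp
    nlinarith [Real.exp_pos (-(R / 4))]
  have h2 : 1 / 2 ≤ Real.exp (-(R / 4)) := by
    have := Real.add_one_le_exp (-(R / 4))
    linarith
  have h3 : R / 8 ≤ ‖1 - exp L‖ := by
    have h4 : 1 - ‖exp L‖ ≤ ‖1 - exp L‖ := by
      have := norm_sub_norm_le (1 : ℂ) (exp L)
      simpa using this
    rw [hexp] at h4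
    linarith
  have h4 := deriv_lower hn hc hz hper hmul (by rw [hexp]; linarith)
  rw [div_le_iff₀ (by positivity)]
  rw [hexp] at h4
  have h5 : 1 / 2 * (R / 8) ≤ Real.exp (-(R / 4)) * ‖1 - exp L‖ := by gcongr
  nlinarith

/-- for sections -/
theorem section_lower {D : Set ℂ} (hD : GoodDom n D) {σ : ℂ → ℂ × ℂ} (hσ : ContinuousOn σ D)
    (hσ' : ∀ L ∈ D, σ L ∈ Per n ∧ mul n (σ L) = exp L) {z₀ : ℂ} (hz₀ : z₀.re = 0) {R : ℝ}
    (hR : 0 < R) (hR1 : R ≤ 1) (hL : z₀ - ((R / 4 : ℝ) : ℂ) ∈ D) :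
    R / (32 * 216 ^ n) ≤ ‖deriv (fun L => (σ L).1) (z₀ - ((R / 4 : ℝ) : ℂ))‖ := by
  set L : ℂ := z₀ - ((R / 4 : ℝ) : ℂ) with hLd
  have hc : HasDerivAt (fun L => (σ L).1) (deriv (fun L => (σ L).1) L) L :=
    (section_strict hD hσ hσ' hL).hasDerivAt
  have hDn : D ∈ 𝓝 L := hD.isOpen.mem_nhds hL
  obtain ⟨β, hβ, hβ0, hβe⟩ := chart (hσ' L hL).1 (by rw [(hσ' L hL).2]; exact hD.ne_one L hL)
  have hσc : ContinuousAt σ L := (hσ L hL).continuousAt hDn
  have hz2 : (fun L' => (σ L').2) =ᶠ[𝓝 L] fun L' => β (σ L').1 := by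
    filter_upwards [hσc.eventually hβe, hDn] with L' h1 h2
    exact (h1.1 (hσ' L' h2).1).symm
  have hz : HasDerivAt (fun L' => (σ L').2) (deriv β (σ L).1 * deriv (fun L => (σ L).1) L) L := by
    have h1 : HasDerivAt β (deriv β (σ L).1) ((fun L => (σ L).1) L) :=
      hβ.differentiableAt.hasDerivAt
    exact (h1.comp L hc).congr_of_eventuallyEq hz2
  refine deriv_lower_axis (z := fun L' => (σ L').2) hD.pos hz₀ hR hR1 hLd hc hz ?_ ?_
  · filter_upwards [hDn] with L' h2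
    exact (hσ' L' h2).1
  · filter_upwards [hDn] with L' h2
    exact (hσ' L' h2).2

/-- for the graph over the punctured disc -/
theorem graph_lower {Q : Set (ℂ × ℂ)} {ε : ℝ} (h : Pri.Clo n ε Q) (hn : 0 < n) (hε0 : 0 < ε)
    (hε : ε ≤ 1 / 2) (hne : Q.Nonempty) {g : ℂ → ℂ} (hgd : DifferentiableOn ℂ g (ball 0 ε))
    (hg : ∀ x ∈ Q, ∀ L ∈ Ann ε, mul n x = exp L → x.1 = g L) {z₀ : ℂ} (hz₀ : z₀.re = 0) {R : ℝ}
    (hR : 0 < R) (hR1 : R ≤ 1) (hL : z₀ - ((R / 4 : ℝ) : ℂ) ∈ Ann ε) :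
    R / (32 * 216 ^ n) ≤ ‖deriv g (z₀ - ((R / 4 : ℝ) : ℂ))‖ := by
  set L : ℂ := z₀ - ((R / 4 : ℝ) : ℂ) with hLd
  obtain ⟨x, hx, hxL⟩ := h.nonempty hn hε0 hε hne hL
  obtain ⟨β, hβ, hβ0, hb⟩ := Pri.branch h hn hε hg hx hL hxL
  have hc : HasDerivAt g (deriv g L) L :=
    (hgd.differentiableAt (isOpen_ball.mem_nhds (by simpa using hL.2))).hasDerivAt
  have hz : HasDerivAt (fun L' => β (g L')) (deriv β (g L) * deriv g L) L :=
    (hβ.differentiableAt.hasDerivAt).comp L hc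
  refine deriv_lower_axis (z := fun L' => β (g L')) hn hz₀ hR hR1 hLd hc hz ?_ ?_
  · filter_upwards [hb] with L' h2
    exact (h.sub _ h2.1).1
  · filter_upwards [hb] with L' h2
    exact h2.2

end Pool.Agent.Work.MLC.Rel
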