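import Pool.Agent.Work.MLC.Rel4a
import Pool.Agent.Work.MLC.Rel4b

set_option autoImplicit false

/-! # Distortion near a boundary point (helper4) -/

namespace Pool.Agent.Work.MLC.Rel

open Filter Topology Metric Set Complex

/-- **Harnack inequality near a boundary point**: an exponential lower bound at one point gives a
bounded ratio on a disc of radius `R / (896 Λ)` -/
theorem near_bdry {g h : ℂ → ℂ} {m n : ℕ} {z₀ : ℂ} {R Λ : ℝ} (hR : 0 < R)
    (hg : DifferentiableOn ℂ g (ball z₀ R)) (hg4 : ∀ z ∈ ball z₀ R, ‖g z‖ ≤ 4)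
    (hh : DifferentiableOn ℂ h (ball z₀ R)) (hhne : ∀ z ∈ ball z₀ R, h z ≠ 0)
    (hgh : ∀ z ∈ ball z₀ R, deriv g z = (z - z₀) ^ m * h z)
    (hlow : R / (32 * 216 ^ n) ≤ ‖deriv g (z₀ - ((R / 4 : ℝ) : ℂ))‖)
    (hΛ1 : 1 ≤ Λ) (hΛ : 1024 * 216 ^ n / R ^ 2 ≤ Real.exp Λ) :
    ∀ z ∈ closedBall z₀ (R / (896 * Λ)),
      ‖deriv g z‖ ≤ Real.exp 1 * ‖deriv g (z₀ - ((R / (896 * Λ) : ℝ) : ℂ))‖ := by
  have hΛ0 : 0 < Λ := by linarith
  set z1 : ℂ := z₀ - ((R / 4 : ℝ) : ℂ) with hz1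
  have hd1 : ‖z1 - z₀‖ = R / 4 := by
    rw [hz1, sub_sub_cancel_left, norm_neg, Complex.norm_real, Real.norm_of_nonneg (by positivity)]
  have hz1b : z1 ∈ ball z₀ R := by rw [mem_ball, dist_eq_norm, hd1]; linarith
  have hsub2 : closedBall z₀ (3 * R / 4) ⊆ ball z₀ R := closedBall_subset_ball (by linarith)
  have hsub1 : ball z1 (R / 2) ⊆ closedBall z₀ (3 * R / 4) := by
    intro z hz
    rw [mem_ball, dist_eq_norm] at hz
    rw [mem_closedBall, dist_eq_norm]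
    calc ‖z - z₀‖ = ‖(z - z1) + (z1 - z₀)‖ := by rw [sub_add_sub_cancel]
      _ ≤ ‖z - z1‖ + ‖z1 - z₀‖ := norm_add_le _ _
      _ ≤ 3 * R / 4 := by rw [hd1]; linarith
  -- upper bound for the derivative
  have hup : ∀ z ∈ closedBall z₀ (3 * R / 4), ‖deriv g z‖ ≤ 32 / R := by
    intro z hz
    have hcb : closedBall z (R / 8) ⊆ ball z₀ R := by
      intro v hv
      rw [mem_closedBall] at hv hz
      rw [mem_ball]
      have := dist_triangle v z z₀
      linarith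
    have hd : DiffContOnCl ℂ g (ball z (R / 8)) := by
      apply DifferentiableOn.diffContOnCl
      rw [closure_ball z (by positivity)]
      exact hg.mono hcb
    have h1 := Complex.norm_deriv_le_of_forall_mem_sphere_norm_le (by positivity : 0 < R / 8) hd
      fun v hv => hg4 v (hcb (sphere_subset_closedBall hv))
    refine h1.trans (le_of_eq ?_)
    field_simp
    norm_num
  have h3R : (0 : ℝ) < 3 * R / 4 := by positivity
  have huph : ∀ z ∈ closedBall z₀ (3 * R / 4), ‖h z‖ ≤ 32 / R / (3 * R / 4) ^ m := by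
    intro z hz
    have hd : DiffContOnCl ℂ h (ball z₀ (3 * R / 4)) := by
      apply DifferentiableOn.diffContOnCl
      rw [closure_ball z₀ h3R.ne']
      exact hh.mono hsub2
    refine Complex.norm_le_of_forall_mem_frontier_norm_le isBounded_ball hd (fun v hv => ?_)
      (by rw [closure_ball z₀ h3R.ne']; exact hz)
    rw [frontier_ball z₀ h3R.ne', mem_sphere, dist_eq_norm] at hv
    have hvc : v ∈ closedBall z₀ (3 * R / 4) := by rw [mem_closedBall, dist_eq_norm, hv]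
    have h1 := hup v hvc
    rw [hgh v (hsub2 hvc), norm_mul, norm_pow, hv] at h1
    rw [le_div_iff₀ (by positivity), mul_comm]
    exact h1
  -- lower bound at `z1`
  have hlowh : R / (32 * 216 ^ n) / (R / 4) ^ m ≤ ‖h z1‖ := by
    rw [div_le_iff₀ (by positivity)]
    have h1 := hlow
    rw [hgh z1 hz1b, norm_mul, norm_pow, hd1] at h1
    linarith
  have hratio : ∀ z ∈ ball z1 (R / 2), ‖h z‖ ≤ Real.exp Λ * ‖h z1‖ := by
    intro z hz
    have h1 := huph z (hsub1 hz)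
    refine h1.trans ?_
    have h2 : 32 / R / (3 * R / 4) ^ m ≤ 32 / R / (R / 4) ^ m := by
      gcongr
      linarith
    have h3 : 32 / R / (R / 4) ^ m = 1024 * 216 ^ n / R ^ 2 * (R / (32 * 216 ^ n) / (R / 4) ^ m) := by
      field_simp
      norm_num
    rw [h3] at h2
    refine h2.trans ?_
    gcongr
  have hharn := fun {z w : ℂ} => harn (h := h) (z1 := z1) (R := R / 2) (Λ := Λ) (z := z) (w := w)
    (by positivity) hΛ0 (hh.mono (hsub1.trans hsub2)) (fun z hz => hhne z (hsub2 (hsub1 hz))) hratio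
  set s : ℝ := R / (896 * Λ) with hs
  have hs0 : 0 < s := by positivity
  have hs1 : s ≤ R / 8 := by
    rw [hs]
    gcongr
    linarith
  have hcl : closedBall z₀ s ⊆ closedBall z1 (3 * (R / 2) / 4) := by
    intro z hz
    rw [mem_closedBall, dist_eq_norm] at hz ⊢
    calc ‖z - z1‖ = ‖(z - z₀) + (z₀ - z1)‖ := by rw [sub_add_sub_cancel]
      _ ≤ ‖z - z₀‖ + ‖z₀ - z1‖ := norm_add_le _ _
      _ ≤ 3 * (R / 2) / 4 := by rw [norm_sub_rev z₀ z1, hd1]; linarith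
  set w : ℂ := z₀ - (s : ℂ) with hw
  have hdw : ‖w - z₀‖ = s := by
    rw [hw, sub_sub_cancel_left, norm_neg, Complex.norm_real, Real.norm_of_nonneg hs0.le]
  have hwc : w ∈ closedBall z₀ s := by rw [mem_closedBall, dist_eq_norm, hdw]
  intro z hz
  have hzn : ‖z - z₀‖ ≤ s := by rwa [mem_closedBall, dist_eq_norm] at hz
  have hzb : z ∈ ball z₀ R := by rw [mem_ball, dist_eq_norm]; linarith
  have hwb : w ∈ ball z₀ R := by rw [mem_ball, dist_eq_norm, hdw]; linarith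
  have h1 := hharn (hcl hz) (hcl hwc)
  have h2 : ‖z - w‖ ≤ 2 * s := by
    calc ‖z - w‖ = ‖(z - z₀) + (z₀ - w)‖ := by rw [sub_add_sub_cancel]
      _ ≤ ‖z - z₀‖ + ‖z₀ - w‖ := norm_add_le _ _
      _ ≤ 2 * s := by rw [norm_sub_rev z₀ w, hdw]; linarith
  have h3 : 112 * Λ * ‖z - w‖ / (R / 2) ≤ 1 := by
    rw [div_le_one (by positivity)]
    calc 112 * Λ * ‖z - w‖ ≤ 112 * Λ * (2 * s) := by gcongr
      _ ≤ R / 2 := by
        rw [hs]
        have : 112 * Λ * (2 * (R / (896 * Λ))) = R / 4 := by field_simp; norm_num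
        rw [this]; linarith
  have h4 : Real.exp (112 * Λ * ‖z - w‖ / (R / 2)) ≤ Real.exp 1 := Real.exp_le_exp.2 h3
  rw [hgh z hzb, hgh w hwb, norm_mul, norm_mul, norm_pow, norm_pow, hdw]
  calc ‖z - z₀‖ ^ m * ‖h z‖ ≤ s ^ m * (Real.exp 1 * ‖h w‖) := by
        gcongr
        exact h1.trans (by gcongr)
    _ = _ := by ring

/-- the case without a critical point -/
theorem near_bdry_axis {g : ℂ → ℂ} {n : ℕ} {z₀ : ℂ} {R Λ : ℝ} (hR : 0 < R)
    (hg : DifferentiableOn ℂ g (ball z₀ R)) (hg4 : ∀ z ∈ ball z₀ R, ‖g z‖ ≤ 4)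
    (hne : ∀ z ∈ ball z₀ R, deriv g z ≠ 0)
    (hlow : R / (32 * 216 ^ n) ≤ ‖deriv g (z₀ - ((R / 4 : ℝ) : ℂ))‖)
    (hΛ1 : 1 ≤ Λ) (hΛ : 1024 * 216 ^ n / R ^ 2 ≤ Real.exp Λ) :
    ∀ z ∈ closedBall z₀ (R / (896 * Λ)),
      ‖deriv g z‖ ≤ Real.exp 1 * ‖deriv g (z₀ - ((R / (896 * Λ) : ℝ) : ℂ))‖ :=
  near_bdry (m := 0) (h := deriv g) hR hg hg4 (hg.deriv isOpen_ball) hne (fun z _ => by simp)
    hlow hΛ1 hΛ

/-- factorization at a critical point -/
lemma exists_factor {u : ℂ → ℂ} {z₀ : ℂ} {R : ℝ} (hR : 0 < R)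
    (hu : DifferentiableOn ℂ u (ball z₀ R)) (hne : ∀ z ∈ ball z₀ R, z ≠ z₀ → u z ≠ 0) :
    ∃ (m : ℕ) (h : ℂ → ℂ), DifferentiableOn ℂ h (ball z₀ R) ∧ (∀ z ∈ ball z₀ R, h z ≠ 0) ∧
      ∀ z ∈ ball z₀ R, u z = (z - z₀) ^ m * h z := by
  have hcen : z₀ ∈ ball z₀ R := mem_ball_self hR
  have han : AnalyticAt ℂ u z₀ := hu.analyticAt (isOpen_ball.mem_nhds hcen)
  have hnz : ¬ ∀ᶠ z in 𝓝 z₀, u z = 0 := by
    intro hcon
    have h3 : ∃ᶠ w in 𝓝 z₀, w ≠ z₀ := by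
      have h3 : ∃ᶠ w in 𝓝[≠] z₀, True := by
        rw [frequently_true_iff_neBot]; infer_instance
      rw [frequently_nhdsWithin_iff] at h3
      exact h3.mono fun w hw => hw.2
    obtain ⟨w, h4, h5, h6⟩ := (h3.and_eventually (hcon.and (isOpen_ball.mem_nhds hcen))).exists
    exact hne w h6 h4 h5
  obtain ⟨m, h₀, hh₀, hh₀0, hev⟩ := han.exists_eventuallyEq_pow_smul_nonzero_iff.2 hnz
  classical
  set h : ℂ → ℂ := fun z => if z = z₀ then h₀ z₀ else u z / (z - z₀) ^ m with hh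
  have heq : h =ᶠ[𝓝 z₀] h₀ := by
    filter_upwards [hev] with z hz
    by_cases hzz : z = z₀
    · subst hzz; simp [hh]
    · simp only [hh, if_neg hzz]
      rw [hz, smul_eq_mul, mul_div_cancel_left₀]
      exact pow_ne_zero _ (sub_ne_zero.2 hzz)
  refine ⟨m, h, ?_, ?_, ?_⟩
  · intro z hz
    by_cases hzz : z = z₀
    · subst hzz
      exact (hh₀.differentiableAt.congr_of_eventuallyEq heq).differentiableWithinAt
    · have h1 : h =ᶠ[𝓝 z] fun z => u z / (z - z₀) ^ m := by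
        filter_upwards [isOpen_ne.mem_nhds hzz] with v hv
        simp only [hh, if_neg hv]
      have h2 : DifferentiableAt ℂ (fun z => u z / (z - z₀) ^ m) z :=
        (hu.differentiableAt (isOpen_ball.mem_nhds hz)).div (by fun_prop)
          (pow_ne_zero _ (sub_ne_zero.2 hzz))
      exact (h2.congr_of_eventuallyEq h1).differentiableWithinAt
  · intro z hz
    by_cases hzz : z = z₀
    · subst hzz; simp only [hh, if_true]; exact hh₀0
    · simp only [hh, if_neg hzz]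
      exact div_ne_zero (hne z hz hzz) (pow_ne_zero _ (sub_ne_zero.2 hzz))
  · intro z hz
    by_cases hzz : z = z₀
    · subst hzz
      have h1 := hev.self_of_nhds
      simp only [hh, if_true]
      rw [h1, smul_eq_mul]
    · simp only [hh, if_neg hzz]
      rw [mul_div_cancel₀]
      exact pow_ne_zero _ (sub_ne_zero.2 hzz)

/-- the case of a root -/
theorem near_bdry_root {g : ℂ → ℂ} {n : ℕ} {z₀ : ℂ} {R Λ : ℝ} (hR : 0 < R)
    (hg : DifferentiableOn ℂ g (ball z₀ R)) (hg4 : ∀ z ∈ ball z₀ R, ‖g z‖ ≤ 4)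
    (hne : ∀ z ∈ ball z₀ R, z ≠ z₀ → deriv g z ≠ 0)
    (hlow : R / (32 * 216 ^ n) ≤ ‖deriv g (z₀ - ((R / 4 : ℝ) : ℂ))‖)
    (hΛ1 : 1 ≤ Λ) (hΛ : 1024 * 216 ^ n / R ^ 2 ≤ Real.exp Λ) :
    ∀ z ∈ closedBall z₀ (R / (896 * Λ)),
      ‖deriv g z‖ ≤ Real.exp 1 * ‖deriv g (z₀ - ((R / (896 * Λ) : ℝ) : ℂ))‖ := by
  obtain ⟨m, h, hh1, hh2, hh3⟩ := exists_factor hR (hg.deriv isOpen_ball) hne
  exact near_bdry hR hg hg4 hh1 hh2 hh3 hlow hΛ1 hΛ

end Pool.Agent.Work.MLC.Rel
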