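import Pool.Agent.Work.MLC.Rel4c
import Pool.Agent.Work.MLC.PriId45
import Pool.Agent.Work.MLC.Hyp51

set_option autoImplicit false

/-! # Distortion of the uniformization of a hyperbolic component (helper4) -/

namespace Pool.Agent.Work.MLC.Rel

open Filter Topology Metric Set Complex
open Pool.Agent.Work.MLC.Pri (Ann Clo OneC QC SA Exa D0)

/-- the inverse of the multiplier map of the component `W` -/
structure Unif (n : ℕ) (W : Set ℂ) (s : ℂ → ℂ × ℂ) : Prop where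
  pos : 0 < n
  cont : ContinuousOn s (ball 0 1)
  att : ∀ l ∈ ball (0 : ℂ) 1, s l ∈ Hyp.Att n ∧ mul n (s l) = l ∧ (s l).1 ∈ W
  surj : ∀ c ∈ W, ∃ l ∈ ball (0 : ℂ) 1, (s l).1 = c

theorem exists_unif {n : ℕ} (hn : 0 < n) {W : Set ℂ} (hW : HypComp n W) :
    ∃ s, Unif n W s := by
  have hsub : ∀ c ∈ W, ∃ b, (c, b) ∈ Hyp.Att n := by
    obtain ⟨c₁, hc₁, rfl⟩ := hW
    intro c hc
    obtain ⟨b, hb⟩ := connectedComponentIn_subset _ _ hc
    exact ⟨b, (Hyp.mem_Att_iff hn).2 hb⟩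
  have hne : W.Nonempty := by
    obtain ⟨c₁, hc₁, rfl⟩ := hW
    exact ⟨c₁, mem_connectedComponentIn hc₁⟩
  obtain ⟨c₁, hc₁⟩ := hne
  obtain ⟨b₁, hb₁⟩ := hsub c₁ hc₁
  obtain ⟨s, hs, hs', -, hs''⟩ := Hyp.hyp_section s7_fatou hn hW hb₁ hc₁
  refine ⟨s, hn, hs, hs', fun c hc => ?_⟩
  obtain ⟨b, hb⟩ := hsub c hc
  exact ⟨mul n (c, b), mem_ball_zero_iff.2 hb.2.2, (hs'' _ hb hc).symm⟩

section

variable {n : ℕ} {W : Set ℂ} {s : ℂ → ℂ × ℂ}

theorem Unif.diff (h : Unif n W s) : DifferentiableOn ℂ (fun l => (s l).1) (ball 0 1) := by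
  intro l hl
  obtain ⟨h1, h2, -⟩ := h.att l hl
  obtain ⟨γ, hγ, -, hγ2, -⟩ := Pri.local_param h.pos h1.1 (Hyp.Att.ne_one h1) (Hyp.Att.lt h1)
    (Hyp.Att.locInj h.pos h1)
  rw [h2] at hγ
  have hsc : ContinuousAt s l := (h.cont l hl).continuousAt (isOpen_ball.mem_nhds hl)
  have h3 : (fun l => (s l).1) =ᶠ[𝓝 l] γ := by
    filter_upwards [hsc.eventually hγ2, isOpen_ball.mem_nhds hl] with l' h4 h5
    obtain ⟨h6, h7, -⟩ := h.att l' h5
    rw [h4 h6.1, h7]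
  exact (hγ.differentiableAt.congr_of_eventuallyEq h3).differentiableWithinAt

theorem Unif.inj (h : Unif n W s) : InjOn (fun l => (s l).1) (ball 0 1) := by
  intro l hl l' hl' heq
  obtain ⟨h1, h2, -⟩ := h.att l hl
  obtain ⟨h1', h2', -⟩ := h.att l' hl'
  have h3 : ((s l).1, (s l').2) ∈ Hyp.Att n := by
    have : ((s l).1, (s l').2) = s l' := Prod.ext heq rfl
    rw [this]; exact h1'
  have h4 := Hyp.att_same s7_fatou h.pos (c := (s l).1) (b := (s l).2) (b' := (s l').2) h1 h3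
  have h5 : ((s l).1, (s l').2) = s l' := Prod.ext heq rfl
  rw [h5] at h4
  have h6 : ((s l).1, (s l).2) = s l := rfl
  rw [h6, h2, h2'] at h4
  exact h4.symm

lemma exp_mem_ball {L : ℂ} (hL : L.re < 0) : exp L ∈ ball (0 : ℂ) 1 := by
  rw [mem_ball_zero_iff, Complex.norm_exp]
  exact Real.exp_lt_one_iff.2 hL

/-- the pairs over the left half plane -/
lemma Unif.sec (h : Unif n W s) {L : ℂ} (hL : L.re < 0) :
    s (exp L) ∈ Per n ∧ mul n (s (exp L)) = exp L :=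
  ⟨(h.att _ (exp_mem_ball hL)).1.1, (h.att _ (exp_mem_ball hL)).2.1⟩

lemma Unif.exa (h : Unif n W s) {L : ℂ} (hL : L.re < 0) : Exa n (s (exp L)) :=
  (h.att _ (exp_mem_ball hL)).1.2.1

lemma Unif.contL (h : Unif n W s) : ContinuousOn (fun L => s (exp L)) {L : ℂ | L.re < 0} :=
  h.cont.comp continuous_exp.continuousOn fun _ hL => exp_mem_ball hL

/-- the extension to the wide domain -/
theorem Unif.ext_D0 (h : Unif n W s) : ∃ σ : ℂ → ℂ × ℂ, ContinuousOn σ (D0 n) ∧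
    (∀ L ∈ D0 n, σ L ∈ Per n ∧ mul n (σ L) = exp L) ∧
    ∀ L ∈ D0 n, L.re < 0 → σ L = s (exp L) := by
  have hpi := Real.pi_pos
  set L₀ : ℂ := ((-1 : ℝ) : ℂ) + (Real.pi : ℂ) * I with hL₀
  have hre : L₀.re = -1 := by simp [hL₀]
  have him : L₀.im = Real.pi := by simp [hL₀]
  have hD : L₀ ∈ D0 n := Pri.half_mem_D0 h.pos (by rw [him]; exact hpi)
    (by rw [him]; linarith) (by rw [hre]; norm_num)
  have hre0 : L₀.re < 0 := by rw [hre]; norm_num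
  obtain ⟨σ, hσ, hσ', hσ0⟩ := Pri.exists_section_D0 h.pos (h.sec hre0).1 hD (h.sec hre0).2
  refine ⟨σ, hσ, hσ', ?_⟩
  intro L hL hLre
  have hS : IsPreconnected Pri.HS := Pri.convex_HS.isPreconnected
  have hsub : Pri.HS ⊆ D0 n := fun L hL => Pri.half_mem_D0 h.pos hL.1 hL.2.1 hL.2.2.le
  exact (section_unique (Pri.goodDom_D0 h.pos) hσ hσ' hS
    (h.contL.mono fun L hL => hL.2.2) continuousOn_id
    (fun L hL => ⟨(h.sec hL.2.2).1, hsub hL, (h.sec hL.2.2).2⟩)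
    (show L₀ ∈ Pri.HS from ⟨by rw [him]; exact hpi, by rw [him]; linarith, hre0⟩) hσ0.symm
    L ⟨hL.1, hL.2.1, hLre⟩).symm

/-- the extension to the disc about the root -/
theorem Unif.ext_root (h : Unif n W s) {ε : ℝ} (hε0 : 0 < ε) (hε : ε ≤ 1 / 2)
    (hOne : ∀ x₀ ∈ SA n ε, Exa n x₀ → OneC n (QC n ε x₀)) :
    ∃ (Q : Set (ℂ × ℂ)) (g : ℂ → ℂ), Clo n ε Q ∧ OneC n Q ∧ Q.Nonempty ∧
      DifferentiableOn ℂ g (ball 0 ε) ∧
      (∀ x ∈ Q, ∀ L ∈ Ann ε, mul n x = exp L → x.1 = g L) ∧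
      ∀ L ∈ Ann ε, L.re < 0 → s (exp L) ∈ Q ∧ (s (exp L)).1 = g L := by
  set L₀ : ℂ := ((-(ε / 2) : ℝ) : ℂ) with hL₀
  have hre : L₀.re = -(ε / 2) := by rw [hL₀, Complex.ofReal_re]
  have hn0 : ‖L₀‖ = ε / 2 := by
    rw [hL₀, Complex.norm_real, Real.norm_eq_abs, abs_neg, abs_of_pos (by linarith)]
  have hL₀H : L₀ ∈ Pri.HD ε := ⟨by rw [hre]; linarith, by rw [hn0]; linarith⟩
  have hA : ∀ L ∈ Pri.HD ε, L ∈ Ann ε := fun L hL =>
    ⟨by rintro rfl; exact lt_irrefl _ hL.1, hL.2⟩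
  have hSA : ∀ L ∈ Pri.HD ε, s (exp L) ∈ SA n ε := fun L hL =>
    ⟨(h.sec hL.1).1, L, hA L hL, (h.sec hL.1).2⟩
  set x₀ := s (exp L₀) with hx₀
  have hx₀S : x₀ ∈ SA n ε := hSA L₀ hL₀H
  have hClo : Clo n ε (QC n ε x₀) := Pri.clo_QC hε x₀
  have hO : OneC n (QC n ε x₀) := hOne x₀ hx₀S (h.exa hL₀H.1)
  have hne : (QC n ε x₀).Nonempty := ⟨x₀, Pri.mem_QC hx₀S⟩
  obtain ⟨g, hg, hg1, -⟩ := Pri.graph hClo h.pos hε0 hε hne hO
  refine ⟨QC n ε x₀, g, hClo, hO, hne, hg, hg1, fun L hL hLre => ?_⟩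
  have hLH : L ∈ Pri.HD ε := ⟨hLre, hL.2⟩
  have h1 : s (exp L) ∈ connectedComponentIn (SA n ε) x₀ := by
    have h2 : IsPreconnected ((fun L => s (exp L)) '' Pri.HD ε) :=
      (Pri.convex_HD ε).isPreconnected.image _ (h.contL.mono fun L hL => hL.1)
    exact h2.subset_connectedComponentIn ⟨L₀, hL₀H, rfl⟩
      (by rintro _ ⟨L, hL, rfl⟩; exact hSA L hL) ⟨L, hLH, rfl⟩
  have h2 : s (exp L) ∈ QC n ε x₀ := by
    refine mem_iUnion.2 ⟨0, ?_⟩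
    rw [it_zero]
    exact h1
  exact ⟨h2, hg1 _ h2 L hL (h.sec hLre).2⟩

/-- derivative of an extension at an interior point -/
lemma deriv_ext {f G : ℂ → ℂ} (hf : DifferentiableOn ℂ f (ball 0 1)) {L : ℂ} (hL : L.re < 0)
    (hG : G =ᶠ[𝓝 L] fun L => f (exp L)) : ‖deriv G L‖ = ‖deriv f (exp L)‖ * ‖exp L‖ := by
  have h1 : HasDerivAt f (deriv f (exp L)) (exp L) :=
    (hf.differentiableAt (isOpen_ball.mem_nhds (exp_mem_ball hL))).hasDerivAt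
  have h2 : HasDerivAt (fun L => f (exp L)) (deriv f (exp L) * exp L) L :=
    h1.comp L (Complex.hasDerivAt_exp L)
  rw [hG.deriv_eq, h2.deriv, norm_mul]

/-- the scale -/
noncomputable def sz (n : ℕ) (E : ℝ) : ℝ := 1 / (13440 * n * E ^ 2)

lemma sz_pos {n : ℕ} (hn : 0 < n) {E : ℝ} (hE : 2 ≤ E) : 0 < sz n E := by
  have : (0 : ℝ) < n := by exact_mod_cast hn
  unfold sz; positivity

lemma sz_le {n : ℕ} (hn : 0 < n) {E : ℝ} (hE : 2 ≤ E) : sz n E ≤ 1 / E / 8 := by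
  have hn' : (1 : ℝ) ≤ n := by exact_mod_cast hn
  unfold sz
  rw [div_div]
  apply one_div_le_one_div_of_le (by positivity)
  have h1 : E * 2 ≤ E ^ 2 := by nlinarith
  have h2 : (1 : ℝ) * E ^ 2 ≤ n * E ^ 2 := by gcongr
  nlinarith

lemma sz_eq {n : ℕ} (hn : 0 < n) {E : ℝ} (hE : 2 ≤ E) :
    1 / E / (896 * (15 * n * E)) = sz n E := by
  have : (0 : ℝ) < n := by exact_mod_cast hn
  unfold sz
  field_simp
  norm_num

lemma lam_ok {n : ℕ} (hn : 0 < n) {E : ℝ} (hE : 2 ≤ E) :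
    1 ≤ 15 * (n : ℝ) * E ∧ 1024 * 216 ^ n / (1 / E) ^ 2 ≤ Real.exp (15 * n * E) := by
  have hn' : (1 : ℝ) ≤ n := by exact_mod_cast hn
  have hnE : 2 ≤ (n : ℝ) * E := by nlinarith
  refine ⟨by nlinarith, ?_⟩
  have he : (2.7 : ℝ) < Real.exp 1 := by have := Real.exp_one_gt_d9; linarith
  have h1 : (1024 : ℝ) ≤ Real.exp 1 ^ 7 := by
    calc (1024 : ℝ) ≤ 2.7 ^ 7 := by norm_num
      _ ≤ _ := by gcongr
  have h2 : (216 : ℝ) ^ n ≤ Real.exp 1 ^ (6 * n) := by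
    rw [pow_mul]
    gcongr
    calc (216 : ℝ) ≤ 2.7 ^ 6 := by norm_num
      _ ≤ _ := by gcongr
  have h3 : E ^ 2 ≤ Real.exp (2 * E) := by
    have h4 : E ≤ Real.exp E := by have := Real.add_one_le_exp E; linarith
    calc E ^ 2 ≤ Real.exp E ^ 2 := by gcongr
      _ = _ := by rw [← Real.exp_nat_mul]; norm_num
  have h4 : 1024 * 216 ^ n / (1 / E) ^ 2 = 1024 * 216 ^ n * E ^ 2 := by field_simp
  rw [h4]
  calc 1024 * 216 ^ n * E ^ 2 ≤ Real.exp 1 ^ 7 * Real.exp 1 ^ (6 * n) * Real.exp (2 * E) := by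
        gcongr
    _ = Real.exp (7 + 6 * n + 2 * E) := by
        rw [← Real.exp_nat_mul, ← Real.exp_nat_mul, ← Real.exp_add, ← Real.exp_add]
        congr 1
        push_cast
        ring
    _ ≤ Real.exp (15 * n * E) := by
        apply Real.exp_le_exp.2
        nlinarith

lemma one_sub_exp_ge {t : ℝ} (h0 : 0 < t) (h1 : t ≤ 1) : t / 2 ≤ 1 - Real.exp (-t) := by
  have h3 : 1 + t ≤ Real.exp t := by have := Real.add_one_le_exp t; linarith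
  have h4 : Real.exp t * Real.exp (-t) = 1 := by rw [← Real.exp_add]; simp
  have h5 := Real.exp_pos (-t)
  have h6 : (1 + t) * Real.exp (-t) ≤ Real.exp t * Real.exp (-t) := by gcongr
  nlinarith

/-- the derivative at a reference point near the boundary -/
lemma ref_bound {A : ℕ} (hA : ∀ f : ℂ → ℂ, DifferentiableOn ℂ f (ball 0 1) →
      InjOn f (ball 0 1) → ∀ ρ : ℝ, 0 < ρ → ρ ≤ 1 → ∀ l : ℂ, ‖l‖ ≤ 1 - ρ →
      ‖deriv f l‖ ≤ (2 / ρ) ^ A * ‖deriv f 0‖)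
    {f G : ℂ → ℂ} (hf : DifferentiableOn ℂ f (ball 0 1)) (hi : InjOn f (ball 0 1)) {L : ℂ} {t : ℝ}
    (ht : 0 < t) (ht1 : t ≤ 1) (hL : L.re = -t) (hG : G =ᶠ[𝓝 L] fun L => f (exp L)) :
    ‖deriv G L‖ ≤ (4 / t) ^ A * ‖deriv f 0‖ := by
  have hre : L.re < 0 := by rw [hL]; linarith
  rw [deriv_ext hf hre hG]
  have h1 : ‖exp L‖ = Real.exp (-t) := by rw [Complex.norm_exp, hL]
  have h2 := one_sub_exp_ge ht ht1
  have h3 := hA f hf hi (t / 2) (by positivity) (by linarith) (exp L) (by rw [h1]; linarith)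
  have h4 : 2 / (t / 2) = 4 / t := by field_simp; norm_num
  rw [h4] at h3
  have h5 : ‖exp L‖ ≤ 1 := by rw [h1]; linarith
  calc ‖deriv f (exp L)‖ * ‖exp L‖ ≤ ((4 / t) ^ A * ‖deriv f 0‖) * 1 := by gcongr
    _ = _ := mul_one _

/-- **bound near the root** -/
theorem Unif.root_bound (h : Unif n W s) {A : ℕ} (hA : ∀ f : ℂ → ℂ,
      DifferentiableOn ℂ f (ball 0 1) → InjOn f (ball 0 1) → ∀ ρ : ℝ, 0 < ρ → ρ ≤ 1 →
      ∀ l : ℂ, ‖l‖ ≤ 1 - ρ → ‖deriv f l‖ ≤ (2 / ρ) ^ A * ‖deriv f 0‖) {E : ℝ} (hE : 2 ≤ E)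
    {Q : Set (ℂ × ℂ)} {g : ℂ → ℂ} (hQ : Clo n (1 / E) Q) (hne : Q.Nonempty)
    (hg : DifferentiableOn ℂ g (ball 0 (1 / E)))
    (hg1 : ∀ x ∈ Q, ∀ L ∈ Ann (1 / E), mul n x = exp L → x.1 = g L)
    (hs : ∀ L ∈ Ann (1 / E), L.re < 0 → s (exp L) ∈ Q ∧ (s (exp L)).1 = g L) :
    ∀ z ∈ closedBall (0 : ℂ) (sz n E), ‖deriv g z‖ ≤
      Real.exp 1 * ((4 / sz n E) ^ A * ‖deriv (fun l => (s l).1) 0‖) := by
  have hn := h.pos
  have hE0 : 0 < 1 / E := by positivity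
  have hE2 : 1 / E ≤ 1 / 2 := one_div_le_one_div_of_le (by norm_num) hE
  have hg4 : ∀ z ∈ ball (0 : ℂ) (1 / E), ‖g z‖ ≤ 4 := by
    have h1 : ∀ L ∈ Ann (1 / E), ‖g L‖ ≤ 4 := by
      intro L hL
      obtain ⟨x, hx, hxL⟩ := hQ.nonempty hn hE0 hE2 hne hL
      rw [← hg1 x hx L hL hxL]
      exact (Per_bdd hn (hQ.sub x hx).1 (hQ.facts hE2 hx).2).1
    intro z hz
    by_cases h0 : z = 0
    · subst h0
      have h2 : ContinuousAt g 0 := (hg.differentiableAt (isOpen_ball.mem_nhds hz)).continuousAt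
      have h3 : ∃ᶠ w in 𝓝 (0 : ℂ), w ≠ 0 := by
        have h3 : ∃ᶠ w in 𝓝[≠] (0 : ℂ), True := by
          rw [frequently_true_iff_neBot]; infer_instance
        rw [frequently_nhdsWithin_iff] at h3
        exact h3.mono fun w hw => hw.2
      by_contra hcon
      push Not at hcon
      have h4 : ∀ᶠ w in 𝓝 (0 : ℂ), 4 < ‖g w‖ := h2.norm.eventually (lt_mem_nhds hcon)
      obtain ⟨w, h5, h6, h7⟩ := (h3.and_eventually (h4.and (isOpen_ball.mem_nhds hz))).exists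
      exact absurd (h1 w ⟨h5, by simpa using h7⟩) (not_le.2 h6)
    · exact h1 z ⟨h0, by simpa using hz⟩
  have hdne : ∀ z ∈ ball (0 : ℂ) (1 / E), z ≠ 0 → deriv g z ≠ 0 := by
    intro z hz h0
    obtain ⟨N, hN, hi⟩ := Pri.graph_inj hQ hn hE0 hE2 hne hg1 (L₀ := z) ⟨h0, by simpa using hz⟩
    exact Sat.deriv_ne_zero_of_injOn (hg.analyticAt (isOpen_ball.mem_nhds hz)) hN hi
  have hlow : 1 / E / (32 * 216 ^ n) ≤ ‖deriv g (0 - ((1 / E / 4 : ℝ) : ℂ))‖ := by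
    refine graph_lower hQ hn hE0 hE2 hne hg hg1 (by simp) hE0 (by linarith) ⟨?_, ?_⟩
    · rw [zero_sub, neg_ne_zero, Complex.ofReal_ne_zero]; positivity
    · rw [zero_sub, norm_neg, Complex.norm_real, Real.norm_of_nonneg (by positivity)]; linarith
  obtain ⟨hΛ1, hΛ⟩ := lam_ok hn hE
  have hmain := near_bdry_root hE0 hg hg4 hdne hlow hΛ1 hΛ
  rw [sz_eq hn hE] at hmain
  intro z hz
  refine (hmain z hz).trans ?_
  have hs0 := sz_pos hn hE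
  have hs1 := sz_le hn hE
  gcongr
  set L : ℂ := 0 - ((sz n E : ℝ) : ℂ) with hL
  have hLre : L.re = -(sz n E) := by rw [hL]; simp
  refine ref_bound (L := L) hA h.diff h.inj hs0 (by linarith) hLre ?_
  have hO : IsOpen {L : ℂ | L ∈ Ann (1 / E) ∧ L.re < 0} :=
    (Pri.isOpen_Ann _).inter (isOpen_lt continuous_re continuous_const)
  have hmem : L ∈ {L : ℂ | L ∈ Ann (1 / E) ∧ L.re < 0} := by
    refine ⟨⟨?_, ?_⟩, by rw [hLre]; linarith⟩
    · rw [hL, zero_sub, neg_ne_zero, Complex.ofReal_ne_zero]; exact hs0.ne'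
    · rw [hL, zero_sub, norm_neg, Complex.norm_real, Real.norm_of_nonneg hs0.le]; linarith
  filter_upwards [hO.mem_nhds hmem] with L' hL'
  exact (hs L' hL'.1 hL'.2).2.symm

/-- **bound near the axis** -/
theorem Unif.axis_bound (h : Unif n W s) {A : ℕ} (hA : ∀ f : ℂ → ℂ,
      DifferentiableOn ℂ f (ball 0 1) → InjOn f (ball 0 1) → ∀ ρ : ℝ, 0 < ρ → ρ ≤ 1 →
      ∀ l : ℂ, ‖l‖ ≤ 1 - ρ → ‖deriv f l‖ ≤ (2 / ρ) ^ A * ‖deriv f 0‖) {E : ℝ} (hE : 2 ≤ E)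
    {σ : ℂ → ℂ × ℂ} (hσ : ContinuousOn σ (D0 n))
    (hσ' : ∀ L ∈ D0 n, σ L ∈ Per n ∧ mul n (σ L) = exp L)
    (hs : ∀ L ∈ D0 n, L.re < 0 → σ L = s (exp L)) {z₀ : ℂ} (hz₀ : z₀.re = 0)
    (hsub : ball z₀ (1 / E) ⊆ D0 n) :
    ∀ z ∈ closedBall z₀ (sz n E), ‖deriv (fun L => (σ L).1) z‖ ≤
      Real.exp 1 * ((4 / sz n E) ^ A * ‖deriv (fun l => (s l).1) 0‖) := by
  have hn := h.pos
  have hE0 : 0 < 1 / E := by positivity
  have hE2 : 1 / E ≤ 1 / 2 := one_div_le_one_div_of_le (by norm_num) hE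
  have hG := Pri.goodDom_D0 hn
  have hg : DifferentiableOn ℂ (fun L => (σ L).1) (ball z₀ (1 / E)) :=
    (section_differentiableOn hG hσ hσ').mono hsub
  have hg4 : ∀ z ∈ ball z₀ (1 / E), ‖(fun L => (σ L).1) z‖ ≤ 4 := by
    intro z hz
    obtain ⟨h1, h2⟩ := hσ' z (hsub hz)
    exact (Per_bdd hn h1 (by rw [h2]; exact hG.lt z (hsub hz))).1
  have hmem4 : z₀ - ((1 / E / 4 : ℝ) : ℂ) ∈ D0 n := by
    apply hsub
    rw [mem_ball, dist_eq_norm, sub_sub_cancel_left, norm_neg, Complex.norm_real,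
      Real.norm_of_nonneg (by positivity)]
    linarith
  obtain ⟨hΛ1, hΛ⟩ := lam_ok hn hE
  have hmain := near_bdry_axis (n := n) hE0 hg hg4
    (fun z hz => section_deriv_ne_zero hG hσ hσ' (hsub hz))
    (section_lower hG hσ hσ' hz₀ hE0 (by linarith) hmem4) hΛ1 hΛ
  rw [sz_eq hn hE] at hmain
  intro z hz
  refine (hmain z hz).trans ?_
  have hs0 := sz_pos hn hE
  have hs1 := sz_le hn hE
  gcongr
  set L : ℂ := z₀ - ((sz n E : ℝ) : ℂ) with hL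
  have hLre : L.re = -(sz n E) := by rw [hL]; simp [hz₀]
  refine ref_bound (L := L) hA h.diff h.inj hs0 (by linarith) hLre ?_
  have hO : IsOpen {L : ℂ | L ∈ D0 n ∧ L.re < 0} :=
    (Pri.isOpen_D0 n).inter (isOpen_lt continuous_re continuous_const)
  have hmem : L ∈ {L : ℂ | L ∈ D0 n ∧ L.re < 0} := by
    refine ⟨?_, by rw [hLre]; linarith⟩
    apply hsub
    rw [hL, mem_ball, dist_eq_norm, sub_sub_cancel_left, norm_neg, Complex.norm_real,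
      Real.norm_of_nonneg hs0.le]
    linarith
  filter_upwards [hO.mem_nhds hmem] with L' hL'
  show (σ L').1 = (s (exp L')).1
  rw [hs L' hL'.1 hL'.2]

/-- discs about axis points in the wide domain -/
lemma ball_sub_D0 (hn : 0 < n) {μ : ℝ} (hμ0 : 0 < μ) (hμ1 : μ ≤ 1) {y : ℝ} (h1 : μ ≤ y)
    (h2 : y ≤ 2 * Real.pi - μ) : ball ((y : ℂ) * I) (μ ^ 2 / (400 * n)) ⊆ D0 n := by
  have hn' : (1 : ℝ) ≤ n := by exact_mod_cast hn
  have hr : μ ^ 2 / (400 * n) ≤ μ / 2 := by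
    rw [div_le_iff₀ (by positivity)]
    nlinarith
  intro L hL
  rw [mem_ball, dist_eq_norm] at hL
  have him := (abs_im_le_norm (L - y * I)).trans_lt hL
  have hre := (re_le_norm (L - y * I)).trans_lt hL
  have e1 : (L - y * I).im = L.im - y := by simp
  have e2 : (L - y * I).re = L.re := by simp
  rw [e1, abs_lt] at him
  rw [e2] at hre
  refine ⟨by linarith, by linarith, hre.trans_le ?_⟩
  unfold Pri.hgt
  have h3 : μ / 2 ≤ min L.im (2 * Real.pi - L.im) := le_min (by linarith) (by linarith)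
  have h4 : μ ^ 2 / (400 * n) = (μ / 2) ^ 2 / (100 * n) := by field_simp; ring
  rw [h4]
  gcongr

end

end Pool.Agent.Work.MLC.Rel
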