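import Pool.Agent.Work.MLC.Rel4d

set_option autoImplicit false

/-! # Roundness of the hyperbolic components (helper4) -/

namespace Pool.Agent.Work.MLC.Rel

open Filter Topology Metric Set Complex
open Pool.Agent.Work.MLC.Pri (Ann Clo OneC QC SA Exa D0)

/-- the growth property with exponent `A` -/
def Gr (A : ℕ) : Prop := ∀ f : ℂ → ℂ, DifferentiableOn ℂ f (ball 0 1) → InjOn f (ball 0 1) →
  ∀ ρ : ℝ, 0 < ρ → ρ ≤ 1 → ∀ l : ℂ, ‖l‖ ≤ 1 - ρ → ‖deriv f l‖ ≤ (2 / ρ) ^ A * ‖deriv f 0‖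

/-- the second scale -/
noncomputable def E1 (n : ℕ) (E : ℝ) : ℝ := 400 * n / (sz n E / 2) ^ 2

/-- the final scale -/
noncomputable def s1 (n : ℕ) (E : ℝ) : ℝ := sz n (E1 n E)

section

variable {n : ℕ} {E : ℝ}

lemma sz_lt_one (hn : 0 < n) (hE : 2 ≤ E) : sz n E ≤ 1 / 16 := by
  have h1 := sz_le hn hE
  have h2 : 1 / E ≤ 1 / 2 := one_div_le_one_div_of_le (by norm_num) hE
  linarith

lemma E1_ge (hn : 0 < n) (hE : 2 ≤ E) : E ≤ E1 n E := by
  have hn' : (1 : ℝ) ≤ n := by exact_mod_cast hn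
  have h0 := sz_pos hn hE
  have h1 := sz_le hn hE
  have h3 : sz n E / 2 ≤ 1 / E := by
    have : 0 < 1 / E := by positivity
    linarith
  have h4 : (sz n E / 2) ^ 2 ≤ (1 / E) ^ 2 := by gcongr
  unfold E1
  rw [le_div_iff₀ (by positivity)]
  calc E * (sz n E / 2) ^ 2 ≤ E * (1 / E) ^ 2 := by gcongr
    _ = 1 / E := by field_simp
    _ ≤ 1 / 2 := one_div_le_one_div_of_le (by norm_num) hE
    _ ≤ 400 * n := by linarith

lemma E1_ge_two (hn : 0 < n) (hE : 2 ≤ E) : 2 ≤ E1 n E := hE.trans (E1_ge hn hE)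

lemma sz_anti (hn : 0 < n) {E E' : ℝ} (hE : 2 ≤ E) (h : E ≤ E') : sz n E' ≤ sz n E := by
  have hn' : (0 : ℝ) < n := by exact_mod_cast hn
  unfold sz
  apply one_div_le_one_div_of_le (by positivity)
  gcongr

lemma s1_pos (hn : 0 < n) (hE : 2 ≤ E) : 0 < s1 n E := sz_pos hn (E1_ge_two hn hE)

lemma s1_le (hn : 0 < n) (hE : 2 ≤ E) : s1 n E ≤ sz n E := sz_anti hn hE (E1_ge hn hE)

/-- all data of a component -/
structure Full (n : ℕ) (W : Set ℂ) (E : ℝ) (s : ℂ → ℂ × ℂ) (σ : ℂ → ℂ × ℂ) (Q : Set (ℂ × ℂ))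
    (g : ℂ → ℂ) : Prop where
  unif : Unif n W s
  hE : 2 ≤ E
  cont : ContinuousOn σ (D0 n)
  sec : ∀ L ∈ D0 n, σ L ∈ Per n ∧ mul n (σ L) = exp L
  left : ∀ L ∈ D0 n, L.re < 0 → σ L = s (exp L)
  clo : Clo n (1 / E) Q
  one : OneC n Q
  ne : Q.Nonempty
  diff : DifferentiableOn ℂ g (ball 0 (1 / E))
  graph : ∀ x ∈ Q, ∀ L ∈ Ann (1 / E), mul n x = exp L → x.1 = g L
  root : ∀ L ∈ Ann (1 / E), L.re < 0 → s (exp L) ∈ Q ∧ (s (exp L)).1 = g L

theorem exists_full (hn : 0 < n) {W : Set ℂ} (hW : HypComp n W) (hE : 2 ≤ E)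
    (hOne : ∀ x₀ ∈ SA n (1 / E), Exa n x₀ → OneC n (QC n (1 / E) x₀)) :
    ∃ s σ Q g, Full n W E s σ Q g := by
  obtain ⟨s, hs⟩ := exists_unif hn hW
  obtain ⟨σ, h1, h2, h3⟩ := hs.ext_D0
  obtain ⟨Q, g, h4, h5, h6, h7, h8, h9⟩ := hs.ext_root (by positivity)
    (one_div_le_one_div_of_le (by norm_num) hE) hOne
  exact ⟨s, σ, Q, g, hs, hE, h1, h2, h3, h4, h5, h6, h7, h8, h9⟩

variable {W : Set ℂ} {s σ : ℂ → ℂ × ℂ} {Q : Set (ℂ × ℂ)} {g : ℂ → ℂ} {A : ℕ}

/-- the bound -/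
noncomputable def Bd (n : ℕ) (E : ℝ) (A : ℕ) (s : ℂ → ℂ × ℂ) : ℝ :=
  6 * ((8 / s1 n E) ^ A * ‖deriv (fun l => (s l).1) 0‖)

lemma Full.deriv_ne (_h : Full n W E s σ Q g) : True := trivial

lemma bd_le (hn : 0 < n) (hE : 2 ≤ E) {t : ℝ} (ht : s1 n E ≤ t) :
    Real.exp 1 * ((4 / t) ^ A * ‖deriv (fun l => (s l).1) 0‖) ≤ Bd n E A s / 2 := by
  have h0 := s1_pos hn hE
  have he : Real.exp 1 ≤ 3 := by have := Real.exp_one_lt_d9; linarith
  have h1 : 4 / t ≤ 8 / s1 n E := by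
    rw [div_le_div_iff₀ (h0.trans_le ht) h0]; linarith
  have h2 : 0 < 4 / t := div_pos (by norm_num) (h0.trans_le ht)
  unfold Bd
  calc Real.exp 1 * ((4 / t) ^ A * ‖deriv (fun l => (s l).1) 0‖)
      ≤ 3 * ((8 / s1 n E) ^ A * ‖deriv (fun l => (s l).1) 0‖) := by gcongr
    _ = _ := by ring

/-- the derivative of `g` near the root -/
lemma Full.g_bound (h : Full n W E s σ Q g) (hA : Gr A) {z : ℂ} (hz : ‖z‖ ≤ sz n E) :
    ‖deriv g z‖ ≤ Bd n E A s / 2 :=
  (h.unif.root_bound hA h.hE h.clo h.ne h.diff h.graph h.root z (mem_closedBall_zero_iff.2 hz)).trans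
    (bd_le h.unif.pos h.hE (s1_le h.unif.pos h.hE))

lemma Full.ball_sub (h : Full n W E s σ Q g) {y : ℝ} (h1 : sz n E / 2 ≤ y)
    (h2 : y ≤ 2 * Real.pi - sz n E / 2) : ball ((y : ℂ) * I) (1 / E1 n E) ⊆ D0 n := by
  have hn := h.unif.pos
  have h0 := sz_pos hn h.hE
  have h3 := sz_lt_one hn h.hE
  have h4 : 1 / E1 n E = (sz n E / 2) ^ 2 / (400 * n) := by
    unfold E1; rw [one_div_div]
  rw [h4]
  exact ball_sub_D0 hn (by positivity) (by linarith) h1 h2

/-- the derivative of the section near the axis -/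
lemma Full.σ_bound (h : Full n W E s σ Q g) (hA : Gr A) {y : ℝ} (h1 : sz n E / 2 ≤ y)
    (h2 : y ≤ 2 * Real.pi - sz n E / 2) {z : ℂ} (hz : ‖z - y * I‖ ≤ s1 n E) :
    ‖deriv (fun L => (σ L).1) z‖ ≤ Bd n E A s / 2 := by
  refine (h.unif.axis_bound hA (E1_ge_two h.unif.pos h.hE) h.cont h.sec h.left (z₀ := (y : ℂ) * I)
    (by simp) (h.ball_sub h1 h2) z ?_).trans (bd_le h.unif.pos h.hE le_rfl)
  rw [mem_closedBall, dist_eq_norm]
  exact hz

/-- **the derivative of the uniformization** -/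
theorem Full.deriv_bound (h : Full n W E s σ Q g) (hA : Gr A) {l : ℂ} (hl : l ∈ ball (0 : ℂ) 1) :
    ‖deriv (fun l => (s l).1) l‖ ≤ Bd n E A s := by
  have hn := h.unif.pos
  have hs0 := sz_pos hn h.hE
  have hs1 := sz_lt_one hn h.hE
  have ht0 := s1_pos hn h.hE
  have ht1 := s1_le hn h.hE
  have hpi := Real.pi_gt_three
  set f : ℂ → ℂ := fun l => (s l).1 with hf
  have hfd := h.unif.diff
  have hl1 : ‖l‖ < 1 := mem_ball_zero_iff.1 hl
  have hX : 0 ≤ (8 / s1 n E) ^ A * ‖deriv f 0‖ := by positivity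
  have hBd : Bd n E A s = 6 * ((8 / s1 n E) ^ A * ‖deriv f 0‖) := rfl
  rcases le_or_gt (s1 n E / 4) (1 - ‖l‖) with hc | hc
  · have h1 := hA f hfd h.unif.inj (s1 n E / 4) (by positivity) (by linarith) l (by linarith)
    have h2 : 2 / (s1 n E / 4) = 8 / s1 n E := by field_simp; norm_num
    rw [h2] at h1
    rw [hBd]
    linarith
  · have hl2 : 1 / 2 ≤ ‖l‖ := by linarith
    have hl0 : l ≠ 0 := by rintro rfl; rw [norm_zero] at hl2; norm_num at hl2
    have hlp : 0 < ‖l‖ := by linarith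
    set L : ℂ := Complex.log l with hL
    have hexp : exp L = l := Complex.exp_log hl0
    have hre : L.re = Real.log ‖l‖ := Complex.log_re l
    have hre0 : L.re < 0 := by rw [hre]; exact Real.log_neg hlp hl1
    have hre1 : -(s1 n E / 2) ≤ L.re := by
      rw [hre]
      have h1 := Real.one_sub_inv_le_log_of_pos hlp
      have h2 : ‖l‖⁻¹ ≤ 1 + 2 * (1 - ‖l‖) := by
        rw [inv_le_iff_one_le_mul₀ hlp]
        nlinarith
      linarith
    have him1 : -Real.pi < L.im := Complex.neg_pi_lt_log_im l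
    have him2 : L.im ≤ Real.pi := Complex.log_im_le_pi l
    -- from the derivative of an extension
    have key : ∀ (G : ℂ → ℂ) (L' : ℂ), exp L' = l → L'.re < 0 →
        G =ᶠ[𝓝 L'] (fun L => f (exp L)) → ‖deriv G L'‖ ≤ Bd n E A s / 2 →
        ‖deriv f l‖ ≤ Bd n E A s := by
      intro G L' h1 h2 h3 h4
      have h5 := deriv_ext hfd h2 h3
      rw [h1] at h5
      rw [h5] at h4
      have h6 : 0 ≤ ‖deriv f l‖ := norm_nonneg _
      nlinarith
    have hσL : ∀ L' : ℂ, L' ∈ D0 n → L'.re < 0 →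
        (fun L => (σ L).1) =ᶠ[𝓝 L'] (fun L => f (exp L)) := by
      intro L' h1 h2
      filter_upwards [(Pri.isOpen_D0 n).mem_nhds h1,
        (isOpen_lt continuous_re continuous_const).mem_nhds h2] with L'' h3 h4
      show (σ L'').1 = (s (exp L'')).1
      rw [h.left L'' h3 h4]
    rcases lt_or_ge |L.im| (sz n E / 2) with h1 | h1
    · -- near the root
      have hLn : ‖L‖ ≤ sz n E := by
        have h2 := Complex.norm_le_abs_re_add_abs_im L
        rw [abs_of_neg hre0] at h2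
        linarith
      have hE2 := sz_le hn h.hE
      have hE0 : 0 < 1 / E := by have := h.hE; positivity
      refine key g L hexp hre0 ?_ (h.g_bound hA hLn)
      have hO : IsOpen {L : ℂ | L ∈ Ann (1 / E) ∧ L.re < 0} :=
        (Pri.isOpen_Ann _).inter (isOpen_lt continuous_re continuous_const)
      have hmem : L ∈ {L : ℂ | L ∈ Ann (1 / E) ∧ L.re < 0} :=
        ⟨⟨by rintro h0; rw [h0] at hre0; simp at hre0, by linarith⟩, hre0⟩
      filter_upwards [hO.mem_nhds hmem] with L' hL'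
      exact (h.root L' hL'.1 hL'.2).2.symm
    · rcases le_or_gt 0 L.im with h0 | h0
      · rw [abs_of_nonneg h0] at h1
        have hD : L ∈ D0 n := Pri.half_mem_D0 hn (by linarith) (by linarith) hre0.le
        refine key _ L hexp hre0 (hσL L hD hre0) (h.σ_bound hA (y := L.im) h1 (by linarith) ?_)
        have h2 : L - L.im * I = ((L.re : ℝ) : ℂ) := by
          apply Complex.ext <;> simp
        rw [h2, Complex.norm_real, Real.norm_eq_abs, abs_of_neg hre0]
        linarith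
      · rw [abs_of_neg h0] at h1
        set L' : ℂ := L + 2 * Real.pi * I with hL'
        have e1 : L'.re = L.re := by simp [hL']
        have e2 : L'.im = L.im + 2 * Real.pi := by simp [hL']
        have hexp' : exp L' = l := by rw [hL', Complex.exp_add, Complex.exp_two_pi_mul_I, mul_one, hexp]
        have hre' : L'.re < 0 := by rw [e1]; exact hre0
        have hD : L' ∈ D0 n := Pri.half_mem_D0 hn (by rw [e2]; linarith) (by rw [e2]; linarith)
          hre'.le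
        refine key _ L' hexp' hre' (hσL L' hD hre') (h.σ_bound hA (y := L'.im)
          (by rw [e2]; linarith) (by rw [e2]; linarith) ?_)
        have h2 : L' - L'.im * I = ((L'.re : ℝ) : ℂ) := by
          apply Complex.ext <;> simp
        rw [h2, Complex.norm_real, Real.norm_eq_abs, abs_of_neg hre', e1]
        linarith

/-- **roundness** -/
theorem Full.round (h : Full n W E s σ Q g) (hA : Gr A) :
    0 < ‖deriv (fun l => (s l).1) 0‖ ∧
    ball (s 0).1 (‖deriv (fun l => (s l).1) 0‖ / (4 * KK)) ⊆ W ∧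
    W ⊆ closedBall (s 0).1 (Bd n E A s) := by
  have h0 : (0 : ℂ) ∈ ball (0 : ℂ) 1 := mem_ball_self one_pos
  refine ⟨norm_pos_iff.2 (Sat.deriv_ne_zero_of_injOn (h.unif.diff.analyticAt
    (isOpen_ball.mem_nhds h0)) (isOpen_ball.mem_nhds h0) h.unif.inj), ?_, ?_⟩
  · refine (inradius h.unif.diff h.unif.inj).trans ?_
    rintro _ ⟨l, hl, rfl⟩
    exact (h.unif.att l hl).2.2
  · intro c hc
    obtain ⟨l, hl, rfl⟩ := h.unif.surj c hc
    rw [mem_closedBall, dist_eq_norm]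
    have h1 := (convex_ball (0 : ℂ) 1).norm_image_sub_le_of_norm_deriv_le
      (f := fun l => (s l).1) (C := Bd n E A s)
      (fun v hv => h.unif.diff.differentiableAt (isOpen_ball.mem_nhds hv))
      (fun v hv => h.deriv_bound hA hv) h0 hl
    refine h1.trans ?_
    have h2 : ‖l - 0‖ ≤ 1 := by rw [sub_zero]; exact (mem_ball_zero_iff.1 hl).le
    have h3 : 0 ≤ Bd n E A s := by
      have := s1_pos h.unif.pos h.hE
      unfold Bd; positivity
    nlinarith

end

end Pool.Agent.Work.MLC.Rel
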