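import Pool.Agent.Work.MLC.Green

set_option autoImplicit false

/-! # Threshold lemma for the MLC project (helper78)

A holomorphic map `g` of the unit disc into a small neighbourhood `{G c c ≤ e}` of the Mandelbrot
set with `g 0` on the boundary of the Mandelbrot set is nearly constant on `{|z| ≤ 1/2}`. -/

namespace Pool.Agent.Work.MLC

open Filter Topology Metric Set Complex

namespace Thr

/-- small Montel theorem on a ball -/
theorem montel {E : Type*} [NormedAddCommGroup E] [NormedSpace ℂ E] [FiniteDimensional ℂ E]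
    {F : ℕ → ℂ → E} {z : ℂ} {R M : ℝ} (hR : 0 < R)
    (hd : ∀ n, DifferentiableOn ℂ (F n) (ball z R)) (hb : ∀ n, ∀ y ∈ ball z R, ‖F n y‖ ≤ M) :
    ∃ (φ : ℕ → ℕ) (G : ℂ → E), StrictMono φ ∧ DifferentiableOn ℂ G (ball z R) ∧
      TendstoLocallyUniformlyOn (fun n => F (φ n)) G atTop (ball z R) := by
  have : CompleteSpace E := FiniteDimensional.complete ℂ E
  have : ProperSpace E := FiniteDimensional.proper ℂ E
  have hM : 0 ≤ M := (norm_nonneg _).trans (hb 0 z (mem_ball_self hR))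
  -- Taylor coefficients
  let a : ℕ → ℕ → E := fun n k => ((k.factorial : ℂ)⁻¹) • iteratedDeriv k (F n) z
  have ha : ∀ ρ, 0 < ρ → ρ < R → ∀ n k, ‖a n k‖ ≤ M / ρ ^ k := by
    intro ρ hρ hρR n k
    have hcl : closedBall z ρ ⊆ ball z R := closedBall_subset_ball hρR
    have h1 := Complex.norm_iteratedDeriv_le_of_forall_mem_sphere_norm_le (c := z) (R := ρ)
      (C := M) (f := F n) k hρ ((hd n).diffContOnCl_ball hcl)
      (fun y hy => hb n y (hcl (sphere_subset_closedBall hy)))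
    have h2 : (0 : ℝ) < k.factorial := by exact_mod_cast Nat.factorial_pos k
    simp only [a, norm_smul, norm_inv, Complex.norm_natCast]
    calc ((k.factorial : ℝ))⁻¹ * ‖iteratedDeriv k (F n) z‖
        ≤ ((k.factorial : ℝ))⁻¹ * (k.factorial * M / ρ ^ k) := by gcongr
      _ = M / ρ ^ k := by field_simp
  have hsum : ∀ n, ∀ w ∈ ball z R, HasSum (fun k => (w - z) ^ k • a n k) (F n w) := by
    intro n w hw
    have := Complex.hasSum_taylorSeries_on_ball (hd n) hw
    have e : (fun k => (w - z) ^ k • a n k) =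
        fun k : ℕ => ((k.factorial : ℂ)⁻¹) • (w - z) ^ k • iteratedDeriv k (F n) z := by
      funext k
      simp only [a]
      rw [smul_comm]
    rw [e]
    exact this
  let K : Set (ℕ → E) := Set.pi Set.univ fun k => closedBall (0 : E) (M / (R / 2) ^ k)
  have hK : IsCompact K := isCompact_univ_pi fun k => isCompact_closedBall _ _
  have haK : ∀ n, a n ∈ K := by
    intro n k _
    rw [mem_closedBall_zero_iff]
    exact ha (R / 2) (by positivity) (by linarith) n k
  obtain ⟨b, -, φ, hφ, hlim⟩ := hK.tendsto_subseq haK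
  rw [tendsto_pi_nhds] at hlim
  have hbb : ∀ ρ, 0 < ρ → ρ < R → ∀ k, ‖b k‖ ≤ M / ρ ^ k := by
    intro ρ hρ hρR k
    exact le_of_tendsto (hlim k).norm (Eventually.of_forall fun n => ha ρ hρ hρR (φ n) k)
  have hbs : ∀ w ∈ ball z R, Summable fun k => (w - z) ^ k • b k := by
    intro w hw
    rw [mem_ball, dist_eq_norm] at hw
    obtain ⟨ρ, hρ1, hρ2⟩ := exists_between hw
    have hρ0 : 0 < ρ := lt_of_le_of_lt (norm_nonneg _) hρ1
    refine Summable.of_norm_bounded (g := fun k => M * (‖w - z‖ / ρ) ^ k) ?_ fun k => ?_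
    · exact (summable_geometric_of_lt_one (by positivity) ((div_lt_one hρ0).2 hρ1)).mul_left M
    · rw [norm_smul, norm_pow, div_pow]
      calc ‖w - z‖ ^ k * ‖b k‖ ≤ ‖w - z‖ ^ k * (M / ρ ^ k) := by
            gcongr
            exact hbb ρ hρ0 hρ2 k
        _ = M * (‖w - z‖ ^ k / ρ ^ k) := by ring
  let G : ℂ → E := fun w => ∑' k, (w - z) ^ k • b k
  have hunif : TendstoLocallyUniformlyOn (fun n => F (φ n)) G atTop (ball z R) := by
    rw [Metric.tendstoLocallyUniformlyOn_iff]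
    intro ε hε x hx
    have hx' := hx
    rw [mem_ball] at hx'
    obtain ⟨ρ', hρ'1, hρ'2⟩ := exists_between hx'
    obtain ⟨ρ, hρ1, hρ2⟩ := exists_between hρ'2
    have hρ'0 : 0 < ρ' := lt_of_le_of_lt dist_nonneg hρ'1
    have hρ0 : 0 < ρ := hρ'0.trans hρ1
    have hgeo : Summable fun k : ℕ => (M + M) * (ρ' / ρ) ^ k :=
      (summable_geometric_of_lt_one (by positivity) ((div_lt_one hρ0).2 hρ1)).mul_left _
    have hbd : ∀ n k, ‖a (φ n) k - b k‖ * ρ' ^ k ≤ (M + M) * (ρ' / ρ) ^ k := by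
      intro n k
      rw [div_pow]
      calc ‖a (φ n) k - b k‖ * ρ' ^ k ≤ (M / ρ ^ k + M / ρ ^ k) * ρ' ^ k := by
            gcongr
            exact (norm_sub_le _ _).trans
              (add_le_add (ha ρ hρ0 hρ2 (φ n) k) (hbb ρ hρ0 hρ2 k))
        _ = (M + M) * (ρ' ^ k / ρ ^ k) := by ring
    have hS : Tendsto (fun n => ∑' k, ‖a (φ n) k - b k‖ * ρ' ^ k) atTop
        (𝓝 (∑' _ : ℕ, (0 : ℝ))) := by
      refine tendsto_tsum_of_dominated_convergence hgeo (fun k => ?_) ?_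
      · have h1 : Tendsto (fun n => ‖a (φ n) k - b k‖) atTop (𝓝 0) := by
          have := ((hlim k).sub_const (b k)).norm
          simpa using this
        simpa using h1.mul_const (ρ' ^ k)
      · refine Eventually.of_forall fun n k => ?_
        rw [Real.norm_eq_abs, abs_of_nonneg (by positivity)]
        exact hbd n k
    rw [tsum_zero] at hS
    refine ⟨ball z ρ', mem_nhdsWithin_of_mem_nhds (isOpen_ball.mem_nhds hρ'1), ?_⟩
    filter_upwards [hS.eventually_lt_const hε] with n hn y hy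
    have hyR : y ∈ ball z R := ball_subset_ball hρ'2.le hy
    rw [dist_comm, dist_eq_norm]
    refine lt_of_le_of_lt ?_ hn
    have h1 : HasSum (fun k => (y - z) ^ k • a (φ n) k - (y - z) ^ k • b k)
        (F (φ n) y - G y) := (hsum (φ n) y hyR).sub (hbs y hyR).hasSum
    have h2 : Summable fun k => ‖a (φ n) k - b k‖ * ρ' ^ k :=
      Summable.of_nonneg_of_le (fun k => by positivity) (hbd n) hgeo
    refine h1.norm_le_of_bounded h2.hasSum fun k => ?_
    rw [← smul_sub, norm_smul, norm_pow, mul_comm]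
    rw [mem_ball, dist_eq_norm] at hy
    gcongr
  refine ⟨φ, G, hφ, ?_, hunif⟩
  exact hunif.differentiableOn (Eventually.of_forall fun n => hd (φ n)) isOpen_ball


/-- the Green function of the Mandelbrot set -/
noncomputable def Gd (z : ℂ) : ℝ := G z z

lemma continuous_Gd : Continuous Gd := by
  have h1 : Continuous (fun z : ℂ => ((z, z) : ℂ × ℂ)) := by fun_prop
  have h2 : Continuous ((fun p : ℂ × ℂ => G p.1 p.2) ∘ fun z : ℂ => ((z, z) : ℂ × ℂ)) :=
    Continuous.comp continuous_G h1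
  exact h2

/-- limit form: no sequence of maps into shrinking neighbourhoods of `M` can oscillate -/
theorem seq_small {B d : ℝ} (hd : 0 < d) (g : ℕ → ℂ → ℂ)
    (hg : ∀ k, DifferentiableOn ℂ (g k) (ball 0 1))
    (hb : ∀ k, ∀ z ∈ ball (0 : ℂ) 1, ‖g k z‖ ≤ B)
    (hG : ∀ k, ∀ z ∈ ball (0 : ℂ) 1, G (g k z) (g k z) ≤ 1 / ((k : ℝ) + 1))
    (h0 : ∀ k, g k 0 ∈ closure (N62a1eb23.mandelbrotSet)ᶜ)
    (y : ℕ → ℂ) (hy : ∀ k, ‖y k‖ ≤ 1 / 2) (hosc : ∀ k, d ≤ dist (g k (y k)) (g k 0)) : False := by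
  obtain ⟨φ, g₀, hφ, hg₀, hlim⟩ := montel one_pos hg hb
  -- `g₀` has values in `M`
  have hpt : ∀ z ∈ ball (0 : ℂ) 1, Tendsto (fun k => g (φ k) z) atTop (𝓝 (g₀ z)) := fun z hz =>
    hlim.tendsto_at hz
  have hM : ∀ z ∈ ball (0 : ℂ) 1, G (g₀ z) (g₀ z) = 0 := by
    intro z hz
    have h1 : Tendsto (fun k => Gd (g (φ k) z)) atTop (𝓝 (Gd (g₀ z))) :=
      (continuous_Gd.tendsto (g₀ z)).comp (hpt z hz)
    have h2 : Tendsto (fun k => 1 / (((φ k : ℕ) : ℝ) + 1)) atTop (𝓝 0) :=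
      tendsto_one_div_add_atTop_nhds_zero_nat.comp hφ.tendsto_atTop
    have h3 : Gd (g₀ z) ≤ 0 := le_of_tendsto_of_tendsto' h1 h2 fun k => hG (φ k) z hz
    exact le_antisymm h3 (G_nonneg _ _)
  have h00 : g₀ 0 ∈ closure (N62a1eb23.mandelbrotSet)ᶜ :=
    isClosed_closure.mem_of_tendsto (hpt 0 (mem_ball_self one_pos))
      (Eventually.of_forall fun k => h0 (φ k))
  -- `g₀` is constant
  have hconst : ∀ z ∈ ball (0 : ℂ) 1, g₀ z = g₀ 0 := by
    have han : AnalyticOnNhd ℂ g₀ (ball 0 1) := hg₀.analyticOnNhd isOpen_ball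
    rcases han.is_constant_or_isOpen (convex_ball (0 : ℂ) 1).isPreconnected with ⟨w, hw⟩ | ho
    · intro z hz
      rw [hw z hz, hw 0 (mem_ball_self one_pos)]
    · exfalso
      have h1 : IsOpen (g₀ '' ball 0 1) := ho _ subset_rfl isOpen_ball
      have h2 : g₀ 0 ∈ g₀ '' ball 0 1 := mem_image_of_mem _ (mem_ball_self one_pos)
      obtain ⟨x, hx1, hx2⟩ := mem_closure_iff.1 h00 _ h1 h2
      obtain ⟨z, hz, rfl⟩ := hx1
      exact hx2 (mem_M_iff'.2 (hM z hz))
  -- contradiction with the oscillation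
  have hcomp : IsCompact (closedBall (0 : ℂ) (1 / 2)) := isCompact_closedBall _ _
  have hsub : closedBall (0 : ℂ) (1 / 2) ⊆ ball 0 1 := closedBall_subset_ball (by norm_num)
  have hu : TendstoUniformlyOn (fun k => g (φ k)) g₀ atTop (closedBall 0 (1 / 2)) :=
    (tendstoLocallyUniformlyOn_iff_tendstoUniformlyOn_of_compact hcomp).1 (hlim.mono hsub)
  rw [Metric.tendstoUniformlyOn_iff] at hu
  obtain ⟨k, hk⟩ := (hu (d / 2) (by positivity)).exists
  have hyk : y (φ k) ∈ closedBall (0 : ℂ) (1 / 2) := by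
    rw [mem_closedBall_zero_iff]; exact hy _
  have e1 := hk (y (φ k)) hyk
  have e2 := hk 0 (mem_closedBall_self (by norm_num))
  rw [hconst _ (hsub hyk)] at e1
  have e3 := hosc (φ k)
  have e4 := dist_triangle_left (g (φ k) (y (φ k))) (g (φ k) 0) (g₀ 0)
  linarith

/-- **Threshold lemma.** For every `d > 0` there is `e > 0` such that every holomorphic map `g` of
the unit disc with `|g| ≤ B`, `G (g z) (g z) ≤ e` and `g 0` in the closure of the complement of `M`
satisfies `dist (g z) (g 0) ≤ d` for `|z| ≤ 1/2`. -/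
theorem threshold (B : ℝ) {d : ℝ} (hd : 0 < d) : ∃ e > 0, ∀ g : ℂ → ℂ,
    DifferentiableOn ℂ g (ball 0 1) → (∀ z ∈ ball (0 : ℂ) 1, ‖g z‖ ≤ B) →
    (∀ z ∈ ball (0 : ℂ) 1, G (g z) (g z) ≤ e) →
    g 0 ∈ closure (N62a1eb23.mandelbrotSet)ᶜ →
    ∀ z ∈ closedBall (0 : ℂ) (1 / 2), dist (g z) (g 0) ≤ d := by
  by_contra hcon
  push Not at hcon
  choose g h1 h2 h3 h4 y h5 h6 using fun k : ℕ =>
    hcon (1 / ((k : ℝ) + 1)) (by positivity)
  exact seq_small hd g h1 h2 h3 h4 y (fun k => by simpa using h5 k) fun k => (h6 k).le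

/-- the same on a disc of radius `R` around `a` -/
theorem threshold' (B : ℝ) {d : ℝ} (hd : 0 < d) : ∃ e > 0, ∀ (c : ℂ → ℂ) (a : ℂ) (R : ℝ), 0 < R →
    DifferentiableOn ℂ c (ball a R) → (∀ z ∈ ball a R, ‖c z‖ ≤ B) →
    (∀ z ∈ ball a R, G (c z) (c z) ≤ e) →
    c a ∈ closure (N62a1eb23.mandelbrotSet)ᶜ →
    ∀ z ∈ closedBall a (R / 2), dist (c z) (c a) ≤ d := by
  obtain ⟨e, he, h⟩ := threshold B hd
  refine ⟨e, he, fun c a R hR hc hB hG ha z hz => ?_⟩
  have hm : ∀ w ∈ ball (0 : ℂ) 1, a + R * w ∈ ball a R := by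
    intro w hw
    rw [mem_ball_zero_iff] at hw
    rw [mem_ball, dist_eq_norm, add_sub_cancel_left, norm_mul, Complex.norm_real,
      Real.norm_eq_abs, abs_of_pos hR]
    nlinarith
  have hR' : (R : ℂ) ≠ 0 := by exact_mod_cast hR.ne'
  have := h (fun w => c (a + R * w)) (hc.comp (by fun_prop) hm) (fun w hw => hB _ (hm w hw))
    (fun w hw => hG _ (hm w hw)) (by simpa using ha) ((z - a) / R) ?_
  · simpa [mul_div_cancel₀ _ hR'] using this
  · rw [mem_closedBall, dist_eq_norm] at hz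
    rw [mem_closedBall_zero_iff, norm_div, Complex.norm_real, Real.norm_eq_abs, abs_of_pos hR,
      div_le_iff₀ hR]
    linarith

end Thr

end Pool.Agent.Work.MLC
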