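import Pool.Agent.Work.MLC.SatS18_6
import Pool.Agent.Work.MLC.Final6c
import Pool.Agent.Work.MLC.Thresh78
import Pool.Agent.Work.MLC.PlyK0

set_option autoImplicit false

/-! # Limb pieces from limb data: size, smallness, canonical form (helper6) -/

namespace Pool.Agent.Work.MLC

open Filter Topology Metric Set

theorem norm_MS {c : ℂ} (hc : c ∈ MS) : ‖c‖ ≤ 4 := by
  have h1 := norm_it_le_of_G_zero (mem_M_iff.1 hc) 2
  have h2 : it c 2 0 = c ^ 2 + c := by
    rw [it_succ, it_one, f_apply, f_apply]; ring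
  rw [h2] at h1
  have h3 : ‖c‖ ^ 2 ≤ ‖c ^ 2 + c‖ + ‖c‖ := by
    rw [← norm_pow]
    calc ‖c ^ 2‖ = ‖(c ^ 2 + c) - c‖ := by ring_nf
      _ ≤ _ := norm_sub_le _ _
  nlinarith [norm_nonneg c]

namespace LimbData

variable {x : ℚ} {R A : ℝ} {g : ℂ → ℂ} {T : ℂ → ℚ → Prop}

/-- size of a limb piece -/
theorem size (h : LimbData MS x R A g T) (hadm : A / x.den < R)
    (hd : DifferentiableOn ℂ g (ball (axisPt x) R)) (h4 : ∀ ℓ ∈ ball (axisPt x) R, ‖g ℓ‖ ≤ 4) :
    K g T x ⊆ closedBall (g (axisPt x)) (9 * (A / x.den) / R) := by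
  rw [K_eq]
  rintro _ ⟨L, hLP, rfl⟩
  have h1 := h.P_sub x hLP
  have h2 : L ∈ ball (axisPt x) R := closedBall_subset_ball hadm h1
  have hcen : axisPt x ∈ ball (axisPt x) R := mem_ball_self h.R_pos
  have hmaps : MapsTo g (ball (axisPt x) R) (closedBall (g (axisPt x)) 9) := by
    intro L hL
    rw [mem_closedBall, dist_eq_norm]
    calc ‖g L - g (axisPt x)‖ ≤ ‖g L‖ + ‖g (axisPt x)‖ := norm_sub_le _ _
      _ ≤ 4 + 4 := add_le_add (h4 _ hL) (h4 _ hcen)
      _ ≤ 9 := by norm_num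
  have h3 := Complex.dist_le_div_mul_dist_of_mapsTo_ball hd hmaps h2
  rw [mem_closedBall] at h1 ⊢
  calc dist (g L) (g (axisPt x)) ≤ 9 / R * dist L (axisPt x) := h3
    _ ≤ 9 / R * (A / x.den) := by
        have := h.R_pos
        gcongr
    _ = 9 * (A / x.den) / R := by ring

/-- smallness of a limb piece which fills at most half of the disc, when the whole disc is mapped
close to `M` -/
theorem small (hcpt : IsCompact MS) {ε : ℝ} (hε : 0 < ε) : ∃ e > 0, ∀ (x : ℚ) (R A : ℝ)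
    (g : ℂ → ℂ) (T : ℂ → ℚ → Prop), LimbData MS x R A g T → 2 * (A / x.den) ≤ R →
    DifferentiableOn ℂ g (ball (axisPt x) R) → (∀ ℓ ∈ ball (axisPt x) R, ‖g ℓ‖ ≤ 4) →
    (∀ ℓ ∈ ball (axisPt x) R, G (g ℓ) (g ℓ) ≤ e) → K g T x ⊆ closedBall (g (axisPt x)) ε := by
  obtain ⟨e, he, hT⟩ := Thr.threshold 4 hε
  refine ⟨e, he, fun x R A g T h hAR hd h4 hG => ?_⟩
  have hR0 := h.R_pos
  set u : ℂ → ℂ := fun w => g (axisPt x + R * w) with hu
  have hmapsD : ∀ w ∈ ball (0 : ℂ) 1, axisPt x + R * w ∈ ball (axisPt x) R := by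
    intro w hw
    rw [mem_ball_zero_iff] at hw
    rw [mem_ball, dist_eq_norm, add_sub_cancel_left, norm_mul, Complex.norm_real,
      Real.norm_eq_abs, abs_of_pos hR0]
    nlinarith
  have hud : DifferentiableOn ℂ u (ball 0 1) := hd.comp (by fun_prop) hmapsD
  have hu0 : u 0 = g (axisPt x) := by simp only [hu, mul_zero, add_zero]
  have hfr : u 0 ∈ frontier MS := by
    rw [hu0]; exact h.root_frontier hcpt.isClosed
  have hfr' : u 0 ∈ closure (MS)ᶜ := by
    have h3 : u 0 ∈ frontier (MS)ᶜ := by rw [frontier_compl]; exact hfr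
    exact frontier_subset_closure h3
  have hfin := hT u hud (fun w hw => h4 _ (hmapsD w hw)) (fun w hw => hG _ (hmapsD w hw)) hfr'
  rw [LimbData.K_eq]
  rintro _ ⟨L, hLP, rfl⟩
  have h1 := h.P_sub x hLP
  rw [mem_closedBall, dist_eq_norm] at h1
  have h2 : ‖(L - axisPt x) / R‖ ≤ 1 / 2 := by
    rw [norm_div, Complex.norm_real, Real.norm_eq_abs, abs_of_pos hR0, div_le_iff₀ hR0]
    linarith
  have h3 := hfin _ (mem_closedBall_zero_iff.2 h2)
  have h5 : u ((L - axisPt x) / R) = g L := by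
    simp only [hu]
    have hRc : (R : ℂ) ≠ 0 := by exact_mod_cast hR0.ne'
    rw [mul_div_cancel₀ _ hRc, add_sub_cancel]
  rw [h5, hu0] at h3
  exact h3

/-- canonical form of a limb piece which does not contain `0` -/
theorem canon (h : LimbData MS x R A g T) (hI : Inputs (1 / 4)) (hadm : A / x.den < R)
    (h0K : (0 : ℂ) ∉ K g T x) :
    MS \ connectedComponentIn (MS \ {g (axisPt x)}) 0 = K g T x := by
  have hadm' : Adm x R A x := by
    unfold Adm
    rw [sub_self, abs_zero, mul_zero, add_zero]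
    exact hadm
  set r := g (axisPt x) with hr
  have hKM : K g T x ⊆ MS := h.K_sub hadm'
  have hKc : IsCompact (K g T x) := h.isCompact_K hI.cpt.isClosed hadm'
  have hrK : r ∈ K g T x := Or.inl rfl
  have hKo : ∀ z ∈ K g T x, z ≠ r → K g T x \ {r} ∈ 𝓝[MS] z :=
    fun z hz hzr => h.K_open hadm' hz hzr
  obtain ⟨W, ⟨v, hv⟩, hW⟩ := h.main hI.cpt hI.conn hadm'
  have h0M : (0 : ℂ) ∈ MS := ball_sub_MS (mem_ball_self (by norm_num))
  have h0r : (0 : ℂ) ∈ MS \ {r} := by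
    refine ⟨h0M, fun h3 => h0K ?_⟩
    have h4 : (0 : ℂ) = r := h3
    rw [h4]; exact hrK
  have hcompK : ∀ z ∈ connectedComponentIn (MS \ {r}) 0, z ∉ K g T x := by
    intro z hz hzK
    exact h0K (NV.conn_sub hI.cpt.isClosed hKc.isClosed hKo isPreconnected_connectedComponentIn
      (connectedComponentIn_subset _ _) ⟨z, hz, hzK⟩ (mem_connectedComponentIn h0r))
  have hMK : ∀ z ∈ MS, z ∉ K g T x → z ∈ connectedComponentIn (MS \ {r}) 0 := by
    intro z hz hzK
    have hzr : z ∈ MS \ {r} := ⟨hz, fun h1 => hzK (by rw [mem_singleton_iff.1 h1]; exact hrK)⟩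
    have h1 := connectedComponentIn_eq (hW z hz hzK hv)
    have h2 := connectedComponentIn_eq (hW 0 h0M h0K hv)
    rw [h2, ← h1]
    exact mem_connectedComponentIn hzr
  ext z
  constructor
  · rintro ⟨h1, h2⟩
    by_contra h3
    exact h2 (hMK z h1 h3)
  · intro h1
    exact ⟨hKM h1, fun h2 => hcompK z h2 h1⟩

/-- `0` is not in a limb piece over `Re L < log 2` -/
theorem zero_notMem {n : ℕ} (hn : 0 < n) (h : LimbData MS x R A g T) (hadm : A / x.den < R)
    (hper : ∀ ℓ ∈ ball (axisPt x) R, ℓ ≠ 0 → ∃ z, (g ℓ, z) ∈ Per n ∧ mul n (g ℓ, z) = Complex.exp ℓ)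
    (hx : x ≠ 0) (hre : ∀ ℓ ∈ ball (axisPt x) R, ℓ.re < Real.log 2) : (0 : ℂ) ∉ K g T x := by
  intro h0
  rw [LimbData.K_eq] at h0
  obtain ⟨L, hLP, hL0⟩ := h0
  have hLb : L ∈ ball (axisPt x) R := closedBall_subset_ball hadm (h.P_sub x hLP)
  have hne : L ≠ 0 := by
    rcases hLP with h1 | h1
    · rw [h1]
      unfold axisPt
      have h2 : (2 * Real.pi * (x : ℝ) : ℝ) ≠ 0 := by
        have : (x : ℝ) ≠ 0 := by exact_mod_cast hx
        have := Real.pi_pos
        positivity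
      exact mul_ne_zero (by exact_mod_cast h2) Complex.I_ne_zero
    · rintro rfl
      have := (h.T_dom _ x h1).1
      simp at this
  have hre0 : 0 ≤ L.re := by
    rcases hLP with h1 | h1
    · rw [h1, LimbData.axisPt_re]
    · exact (h.T_dom L x h1).1.le
  obtain ⟨z, h3, h4⟩ := hper L hLb hne
  rw [hL0] at h3 h4
  have h7 := mul_zero_norm hn h3
  rw [h4] at h7
  rcases h7 with h7 | h7
  · exact Complex.exp_ne_zero _ h7
  · rw [Complex.norm_exp] at h7
    have h8 : L.re = n * Real.log 2 := by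
      have := congrArg Real.log h7
      rwa [Real.log_exp, Real.log_pow] at this
    have h9 := hre L hLb
    have h10 : (1 : ℝ) ≤ n := by exact_mod_cast hn
    have h11 : 0 < Real.log 2 := Real.log_pos (by norm_num)
    nlinarith

end LimbData

namespace Sat

open Complex

lemma perN_mul_norm {n p q : ℕ} {W : Set ℂ} {r b : ℂ} (h : Satellite n W r b p q) :
    ‖mul n (r, b)‖ = 1 := by
  have h1 := h.2.2.1
  have h2 : mul n (r, b) = exp (2 * Real.pi * (p / q : ℂ) * I) := h1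
  rw [h2, Complex.norm_exp]
  have h3 : (2 * (Real.pi : ℂ) * (p / q) * I) = ((2 * Real.pi * (p / q) : ℝ) : ℂ) * I := by
    push_cast; ring
  rw [h3, Complex.re_ofReal_mul, Complex.I_re, mul_zero, Real.exp_zero]

lemma cR_le_of_pos {n : ℕ} (hn : 0 < n) : cR n ≤ 1 / 600000 := by
  have h1 : (1 : ℝ) ≤ n := by exact_mod_cast hn
  unfold cR
  apply one_div_le_one_div_of_le (by norm_num)
  have : (1 : ℝ) ≤ n ^ 5 := one_le_pow₀ h1
  linarith

lemma cR_mul {n : ℕ} (hn : 0 < n) : cR n * (600000 * n ^ 5) = 1 := by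
  have h1 : (0 : ℝ) < n := by exact_mod_cast hn
  unfold cR
  field_simp

/-- far from the root -/
lemma far_ineq {n p q : ℕ} (hn : 0 < n) (hp : 0 < p) (hpq : p < q)
    (ht : cR n / 2 < 2 * Real.pi * (min (p : ℝ) (q - p) / q)) :
    (n : ℝ) ^ 2 * q / (min (p : ℝ) (q - p)) ^ 2 ≤ 57600000000000 * (n ^ 12 / q) := by
  have hn' : (0 : ℝ) < n := by exact_mod_cast hn
  have hp' : (0 : ℝ) < p := by exact_mod_cast hp
  have hpq' : (p : ℝ) < q := by exact_mod_cast hpq
  have hq' : (0 : ℝ) < q := hp'.trans hpq'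
  set μ : ℝ := min (p : ℝ) (q - p) with hμ
  have hμ0 : 0 < μ := lt_min hp' (by linarith)
  have hpi : Real.pi < 3.15 := Real.pi_lt_d2
  have hpi0 := Real.pi_pos
  have h1 : 1 < 7560000 * (n ^ 5 : ℝ) * (μ / q) := by
    have h2 := cR_mul hn
    have h3 : (0 : ℝ) < 1200000 * n ^ 5 := by positivity
    have h4 := mul_lt_mul_of_pos_left ht h3
    have h5 : 1200000 * (n : ℝ) ^ 5 * (cR n / 2) = 1 := by rw [← h2]; ring
    rw [h5] at h4
    refine h4.trans ?_
    have h6 : 0 < (n : ℝ) ^ 5 * (μ / q) := by positivity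
    nlinarith
  have h2 : (q : ℝ) < 7560000 * n ^ 5 * μ := by
    rw [← mul_div_assoc, lt_div_iff₀ hq', one_mul] at h1
    exact h1
  rw [div_le_iff₀ (by positivity), mul_div_assoc', div_mul_eq_mul_div, le_div_iff₀ hq']
  have h3 : (q : ℝ) ^ 2 ≤ (7560000 * n ^ 5 * μ) ^ 2 := by gcongr
  calc (n : ℝ) ^ 2 * q * q = n ^ 2 * q ^ 2 := by ring
    _ ≤ n ^ 2 * (7560000 * n ^ 5 * μ) ^ 2 := by gcongr
    _ = 57153600000000 * (n ^ 12 * μ ^ 2) := by ring
    _ ≤ 57600000000000 * (n ^ 12 * μ ^ 2) := by gcongr; norm_num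
    _ = 57600000000000 * n ^ 12 * μ ^ 2 := by ring

end Sat

end Pool.Agent.Work.MLC
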