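import Pool.Agent.Work.MLC.Rel4e
import Pool.Agent.Work.MLC.SatT6

set_option autoImplicit false

/-! # Relative size of the limbs (helper4) -/

namespace Pool.Agent.Work.MLC.Rel

open Filter Topology Metric Set Complex
open Pool.Agent.Work.MLC.Pri (Ann Clo OneC QC SA Exa D0)

lemma re_lt_of_ball {x : ℚ} {R : ℝ} {ℓ : ℂ} (h : ℓ ∈ ball (axisPt x) R) : ℓ.re < R := by
  rw [mem_ball, dist_eq_norm] at h
  have h10 := (Complex.re_le_norm (ℓ - axisPt x)).trans_lt h
  rwa [Complex.sub_re, LimbData.axisPt_re, sub_zero] at h10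

/-- limb data from the graph over the punctured disc (the graph is given) -/
theorem limb_of_graph {n : ℕ} {ε : ℝ} {Q : Set (ℂ × ℂ)} (h : Clo n ε Q) (hn : 0 < n)
    (hε0 : 0 < ε) (hε : ε ≤ 1 / 2) (hne : Q.Nonempty) (hW : OneC n Q) {g : ℂ → ℂ}
    (hg : DifferentiableOn ℂ g (ball 0 ε))
    (hg1 : ∀ x ∈ Q, ∀ L ∈ Ann ε, mul n x = exp L → x.1 = g L) {x : ℚ} (hx0 : x ≠ 0)
    (hx : 2 * Real.pi * |(x : ℝ)| ≤ ε / 2) :
    ∃ T : ℂ → ℚ → Prop, LimbData MS x (ε / 2) (2 * n * Real.log 2) g T ∧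
      ball (axisPt x) (ε / 2) ⊆ ball (0 : ℂ) ε ∧
      (∀ ℓ ∈ ball (axisPt x) (ε / 2), ℓ ≠ 0 →
        ∃ z, (g ℓ, z) ∈ Per n ∧ mul n (g ℓ, z) = exp ℓ) := by
  have hn' : (0 : ℝ) < n := by exact_mod_cast hn
  have hnx : ‖axisPt x‖ = 2 * Real.pi * |(x : ℝ)| := by
    have h := LimbData.axisPt_sub x 0
    have h0 : axisPt 0 = 0 := by simp [axisPt]
    rw [h0, sub_zero] at h
    simpa using h
  have hax : axisPt x ∈ Ann ε := by
    refine ⟨?_, by rw [hnx]; linarith⟩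
    rw [← norm_pos_iff, hnx]
    have : (x : ℝ) ≠ 0 := by exact_mod_cast hx0
    have := Real.pi_pos
    positivity
  have hsub : ball (axisPt x) (ε / 2) ⊆ ball (0 : ℂ) ε := by
    intro ℓ hℓ
    rw [mem_ball, dist_eq_norm] at hℓ
    rw [mem_ball_zero_iff]
    calc ‖ℓ‖ = ‖(ℓ - axisPt x) + axisPt x‖ := by rw [sub_add_cancel]
      _ ≤ ‖ℓ - axisPt x‖ + ‖axisPt x‖ := norm_add_le _ _
      _ < ε := by rw [hnx]; linarith
  have hA : ∀ ℓ ∈ ball (axisPt x) (ε / 2), ℓ ≠ 0 → ℓ ∈ Ann ε := fun ℓ hℓ h0 =>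
    ⟨h0, by simpa using hsub hℓ⟩
  have hgan : ∀ ℓ ∈ ball (0 : ℂ) ε, AnalyticAt ℂ g ℓ := fun ℓ hℓ =>
    hg.analyticAt (isOpen_ball.mem_nhds hℓ)
  have hT := Tr.rotData hn
  have hz : ∀ ℓ ∈ Ann ε, ∃ z, (g ℓ, z) ∈ Q ∧ mul n (g ℓ, z) = exp ℓ := by
    intro ℓ hℓ
    obtain ⟨y, hy, hyL⟩ := h.nonempty hn hε0 hε hne hℓ
    have h1 := hg1 y hy ℓ hℓ hyL
    refine ⟨y.2, ?_, ?_⟩
    · rw [← h1]; exact hy
    · rw [← h1]; exact hyL
  have hM : ∀ ℓ ∈ Ann ε, ℓ.re ≤ 0 → g ℓ ∈ MS := by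
    intro ℓ hℓ hre
    by_contra hM
    obtain ⟨z, hz1, hz2⟩ := hz ℓ hℓ
    have h1 := rep13 hn (h.sub _ hz1).1 hM
    rw [hz2, Complex.norm_exp, Real.one_lt_exp_iff] at h1
    linarith
  have hM0 : g 0 ∈ MS := by
    have h1 : IsClosed MS := isCompact_MM.isClosed
    have h2 : ContinuousAt g 0 := (hgan 0 (mem_ball_self hε0)).continuousAt
    have h3 : Tendsto (fun t : ℝ => ((-t : ℝ) : ℂ)) (𝓝[>] 0) (𝓝 0) := by
      have : Continuous fun t : ℝ => ((-t : ℝ) : ℂ) := by fun_prop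
      have h4 := this.tendsto 0
      simp only [neg_zero, Complex.ofReal_zero] at h4
      exact h4.mono_left nhdsWithin_le_nhds
    have h4 : Tendsto (fun t : ℝ => g ((-t : ℝ) : ℂ)) (𝓝[>] 0) (𝓝 (g 0)) := h2.tendsto.comp h3
    refine h1.mem_of_tendsto h4 ?_
    have h5 : ∀ᶠ t : ℝ in 𝓝[>] 0, t < ε := mem_nhdsWithin_of_mem_nhds (Iio_mem_nhds hε0)
    filter_upwards [h5, self_mem_nhdsWithin] with t ht ht0
    have ht0' : (0 : ℝ) < t := ht0
    refine hM _ ⟨?_, ?_⟩ ?_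
    · simpa using ht0'.ne'
    · rw [Complex.norm_real, Real.norm_eq_abs, abs_neg, abs_of_pos ht0']; exact ht
    · rw [Complex.ofReal_re]; linarith
  refine ⟨fun ℓ y => ℓ ∈ ball (axisPt x) (ε / 2) ∧ ∃ z, (g ℓ, z) ∈ Q ∧
    mul n (g ℓ, z) = exp ℓ ∧ Tr.RotT n (g ℓ) z ℓ y, ?_, hsub, ?_⟩
  · refine ⟨by linarith, ?_, ?_, ?_, ?_, ?_, ?_, ?_, ?_, ?_, ?_⟩
    · have := Real.log_pos (by norm_num : (1 : ℝ) < 2)
      positivity
    · exact hg.continuousOn.mono hsub
    · intro ℓ hℓ hre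
      by_cases h0 : ℓ = 0
      · rw [h0]; exact hM0
      · exact hM ℓ (hA ℓ hℓ h0) hre
    · obtain ⟨N, hN, hi⟩ := Pri.graph_inj h hn hε0 hε hne hg1 hax
      obtain ⟨δ, hδ, hδ2⟩ := Metric.mem_nhds_iff.1 hN
      exact ⟨δ, hδ, hi.mono hδ2⟩
    · intro ℓ hℓ U hU
      have h1 := (hgan ℓ (hsub hℓ)).eventually_constant_or_nhds_le_map_nhds
      rcases h1 with h1 | h1
      · exact absurd h1 (Pri.graph_nonconst h hn hε0 hε hne hg1 (hsub hℓ))
      · exact h1 (image_mem_map hU)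
    · rintro ℓ y ⟨hℓ, z, hz1, hz2, hzT⟩
      exact hT.dom _ _ _ _ hzT
    · intro ℓ hℓ hre hMM
      have h0 : ℓ ≠ 0 := by rintro rfl; simp at hre
      obtain ⟨z, hz1, hz2⟩ := hz ℓ (hA ℓ hℓ h0)
      obtain ⟨y, hy⟩ := hT.ex _ _ ℓ (h.sub _ hz1).1 hz2 hre hMM
      exact ⟨y, hℓ, z, hz1, hz2, hy⟩
    · rintro ℓ y y' ⟨hℓ, z, hz1, hz2, h1⟩ ⟨-, z', hz1', hz2', h2⟩
      obtain ⟨i, hi⟩ := Pri.cyc_rel h hn hε0 hε hne hW _ hz1 _ hz1' (hz2.trans hz2'.symm)
      have h3 : z' = it (g ℓ) i z := congrArg Prod.snd hi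
      subst h3
      exact Tr.rotT_unique hn (Sat.s16_rot _ _ _ _ _ i hn h1) h2
    · rintro ℓ hℓ y ⟨-, z, hz1, hz2, h1⟩
      have hre := (hT.dom _ _ _ _ h1).1
      have h0 : ℓ ≠ 0 := by rintro rfl; simp at hre
      obtain ⟨β, hβ, hβ0, hb⟩ := Pri.branch h hn hε hg1 hz1 (hA ℓ hℓ h0) hz2
      have hce : ContinuousAt g ℓ := (hgan ℓ (hsub hℓ)).continuousAt
      have hβc : ContinuousAt (fun ℓ => β (g ℓ)) ℓ :=
        ContinuousAt.comp (g := β) (f := g) hβ.continuousAt hce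
      have h7 : ∀ᶠ ℓ' in 𝓝 ℓ, g ℓ' ∈ MS → (g ℓ', β (g ℓ')) ∈ Per n →
          mul n (g ℓ', β (g ℓ')) = exp ℓ' → Tr.RotT n (g ℓ') (β (g ℓ')) ℓ' y := by
        have h3 : Tendsto (fun ℓ' => ((g ℓ', β (g ℓ'), ℓ') : ℂ × ℂ × ℂ)) (𝓝 ℓ)
            (𝓝 (g ℓ, z, ℓ)) := by
          have := hce.tendsto.prodMk_nhds (hβc.tendsto.prodMk_nhds (tendsto_id (x := 𝓝 ℓ)))
          rwa [hβ0] at this
        exact h3.eventually (hT.opn _ _ _ _ h1)
      filter_upwards [hb, h7, isOpen_ball.mem_nhds hℓ] with ℓ' h8 h9 h10 h11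
      exact ⟨h10, _, h8.1, h8.2, h9 h11 (h.sub _ h8.1).1 h8.2⟩
    · rintro ℓ y ⟨hℓ, z, hz1, hz2, h1⟩
      exact hT.ply _ _ _ _ h1
  · intro ℓ hℓ h0
    obtain ⟨z, hz1, hz2⟩ := hz ℓ (hA ℓ hℓ h0)
    exact ⟨z, (h.sub _ hz1).1, hz2⟩

/-- the size of a limb from a bound for the derivative -/
theorem size_of_deriv {x : ℚ} {R a B : ℝ} {G : ℂ → ℂ} {T : ℂ → ℚ → Prop}
    (hL : LimbData MS x R a G T) (hd : DifferentiableOn ℂ G (ball (axisPt x) R))
    (hadm : a / x.den < R) (hB : ∀ z ∈ closedBall (axisPt x) (a / x.den), ‖deriv G z‖ ≤ B)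
    (h0 : (0 : ℂ) ∉ LimbData.K G T x) :
    ∀ z ∈ MS \ connectedComponentIn (MS \ {G (axisPt x)}) 0,
      dist z (G (axisPt x)) ≤ B * (a / x.den) := by
  intro z hz
  rw [hL.canon inputs34 hadm h0, LimbData.K_eq] at hz
  obtain ⟨L, hLP, rfl⟩ := hz
  have h1 := hL.P_sub x hLP
  have hq : 0 < a / x.den := div_pos hL.A_pos (LimbData.den_pos x)
  have h2 := (convex_closedBall (axisPt x) (a / x.den)).norm_image_sub_le_of_norm_deriv_le
    (f := G) (C := B) (fun v hv => hd.differentiableAt (isOpen_ball.mem_nhds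
      (closedBall_subset_ball hadm hv))) hB (mem_closedBall_self hq.le) h1
  rw [dist_eq_norm]
  refine h2.trans ?_
  have h3 : ‖L - axisPt x‖ ≤ a / x.den := by rwa [mem_closedBall, dist_eq_norm] at h1
  have h4 : 0 ≤ B := (norm_nonneg _).trans (hB _ (mem_closedBall_self hq.le))
  gcongr

section

variable {n : ℕ} {E : ℝ} {W : Set ℂ} {s σ : ℂ → ℂ × ℂ} {Q : Set (ℂ × ℂ)} {g : ℂ → ℂ} {A : ℕ}

/-- pairs of the component are on the uniformization -/
lemma Unif.param (h : Unif n W s) {x : ℂ × ℂ} (hx : x ∈ Sat.AttW n W) :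
    x.1 = (s (mul n x)).1 ∧ ‖mul n x‖ < 1 := by
  obtain ⟨h1, h2, h3⟩ := hx
  have hA : (x.1, x.2) ∈ Hyp.Att n := (Hyp.mem_Att_iff h.pos).2 ⟨h2, h3⟩
  obtain ⟨l, hl, hl2⟩ := h.surj x.1 h1
  obtain ⟨h4, h5, -⟩ := h.att l hl
  have h6 : ((s l).1, (s l).2) ∈ Hyp.Att n := h4
  rw [hl2] at h6
  have h7 := Hyp.att_same s7_fatou h.pos h6 hA
  have h8 : (x.1, (s l).2) = s l := Prod.ext hl2.symm rfl
  rw [h8, h5] at h7
  have h9 : mul n x = l := h7
  refine ⟨by rw [h9, hl2], h3⟩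

/-- the parameter of a boundary pair -/
theorem Unif.bdry (h : Unif n W s) {r b L₀ : ℂ} (hcl : (r, b) ∈ closure (Sat.AttW n W))
    (hm : mul n (r, b) = exp L₀) {G : ℂ → ℂ} (hG : ContinuousAt G L₀)
    (hGs : ∀ᶠ L in 𝓝 L₀, L.re < 0 → (s (exp L)).1 = G L) : r = G L₀ := by
  set ψ : ℂ × ℂ → ℂ := fun x => L₀ + Complex.log (mul n x / exp L₀) with hψ
  have hexp0 : exp L₀ ≠ 0 := Complex.exp_ne_zero _
  have h1 : ContinuousAt (fun x : ℂ × ℂ => mul n x / exp L₀) (r, b) :=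
    ((continuous_mul' n).continuousAt).div_const _
  have h2 : mul n (r, b) / exp L₀ = 1 := by rw [hm, div_self hexp0]
  have hψc : ContinuousAt ψ (r, b) := by
    refine continuousAt_const.add ?_
    exact ContinuousAt.clog h1 (by rw [h2]; exact one_mem_slitPlane)
  have hψ0 : ψ (r, b) = L₀ := by simp only [hψ, h2, Complex.log_one, add_zero]
  set Φ : ℂ × ℂ → ℂ := fun x => G (ψ x) - x.1 with hΦ
  have hΦc : ContinuousAt Φ (r, b) := by
    refine ContinuousAt.sub ?_ continuous_fst.continuousAt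
    exact ContinuousAt.comp (g := G) (by rw [hψ0]; exact hG) hψc
  have hev : ∀ᶠ x in 𝓝 (r, b), (ψ x).re < 0 → (s (exp (ψ x))).1 = G (ψ x) := by
    have : Tendsto ψ (𝓝 (r, b)) (𝓝 L₀) := by
      have := hψc.tendsto; rwa [hψ0] at this
    exact this.eventually hGs
  have hne : ∀ᶠ x in 𝓝 (r, b), mul n x / exp L₀ ≠ 0 :=
    h1.eventually_ne (by rw [h2]; exact one_ne_zero)
  have hfreq : ∃ᶠ x in 𝓝 (r, b), Φ x = 0 := by
    refine ((mem_closure_iff_frequently.1 hcl).and_eventually (hev.and hne)).mono ?_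
    rintro x ⟨hx, h3, h4⟩
    obtain ⟨h5, h6⟩ := h.param hx
    have h7 : exp (ψ x) = mul n x := by
      simp only [hψ]
      rw [Complex.exp_add, Complex.exp_log h4, mul_div_cancel₀ _ hexp0]
    have h8 : (ψ x).re < 0 := by
      rw [← h7, Complex.norm_exp, Real.exp_lt_one_iff] at h6
      exact h6
    have h9 := h3 h8
    rw [h7, ← h5] at h9
    show G (ψ x) - x.1 = 0
    rw [← h9, sub_self]
  have h10 : Φ (r, b) = 0 := by
    by_contra hcon
    exact hfreq (hΦc.eventually_ne hcon)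
  have h11 : G (ψ (r, b)) - r = 0 := h10
  rw [hψ0] at h11
  exact (sub_eq_zero.1 h11).symm

/-- **relative size of the limbs** -/
theorem Full.limb (h : Full n W E s σ Q g) (hA : Gr A) {p q : ℕ} {r b : ℂ} (hp : 0 < p)
    (hpq : p < q) (hcop : Nat.Coprime p q) (hcl : (r, b) ∈ closure (Sat.AttW n W))
    (hm : mul n (r, b) = exp (2 * Real.pi * (p / q) * I)) (hq : 4 * n / s1 n E ≤ q) :
    ∀ z ∈ MS \ connectedComponentIn (MS \ {r}) 0, dist z r ≤ Bd n E A s * (n / q) := by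
  have hn := h.unif.pos
  have hn' : (1 : ℝ) ≤ n := by exact_mod_cast hn
  have hs0 := sz_pos hn h.hE
  have hs1 := sz_lt_one hn h.hE
  have hs2 := sz_le hn h.hE
  have ht0 := s1_pos hn h.hE
  have ht1 := s1_le hn h.hE
  have hE0 : 0 < 1 / E := by have := h.hE; positivity
  have hE2 : 1 / E ≤ 1 / 2 := one_div_le_one_div_of_le (by norm_num) h.hE
  have hpi := Real.pi_gt_three
  have hpi4 : Real.pi < 3.15 := Real.pi_lt_d2
  have hlog1 : 0.6931471803 < Real.log 2 := Real.log_two_gt_d9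
  have hlog2 : Real.log 2 < 0.6931471808 := Real.log_two_lt_d9
  have hp' : (0 : ℝ) < p := by exact_mod_cast hp
  have hq0 : 0 < q := hp.trans hpq
  have hq' : (0 : ℝ) < q := by exact_mod_cast hq0
  have hpq' : (p : ℝ) < q := by exact_mod_cast hpq
  have hB0 : 0 ≤ Bd n E A s := by unfold Bd; positivity
  -- the size of the ply disc
  have hply : 2 * n * Real.log 2 / q ≤ s1 n E / 2 := by
    rw [div_le_iff₀ ht0] at hq
    rw [div_le_iff₀ hq']
    nlinarith
  have hply0 : 0 < 2 * n * Real.log 2 / (q : ℝ) := by positivity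
  have hfin : Bd n E A s / 2 * (2 * n * Real.log 2 / q) ≤ Bd n E A s * (n / q) := by
    have h1 : Bd n E A s / 2 * (2 * n * Real.log 2 / q) = Bd n E A s * (n / q) * Real.log 2 := by
      field_simp
    rw [h1]
    have h2 : 0 ≤ Bd n E A s * (n / q) := by positivity
    nlinarith
  set y : ℝ := 2 * Real.pi * (p / q) with hy
  have hy0 : 0 < y := by positivity
  have hy1 : y < 2 * Real.pi := by
    have : (p : ℝ) / q < 1 := by rw [div_lt_one hq']; exact hpq'
    rw [hy]; nlinarith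
  -- the case near the root
  have near : ∀ x : ℚ, x ≠ 0 → x.den = q → mul n (r, b) = exp (axisPt x) →
      2 * Real.pi * |(x : ℝ)| < sz n E / 2 →
      ∀ z ∈ MS \ connectedComponentIn (MS \ {r}) 0, dist z r ≤ Bd n E A s * (n / q) := by
    intro x hx0 hden hmx hxs
    have hnx : ‖axisPt x‖ = 2 * Real.pi * |(x : ℝ)| := by
      have h := LimbData.axisPt_sub x 0
      have h0 : axisPt 0 = 0 := by simp [axisPt]
      rw [h0, sub_zero] at h
      simpa using h
    have hax : axisPt x ∈ Ann (1 / E) := by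
      refine ⟨?_, by rw [hnx]; linarith⟩
      rw [← norm_pos_iff, hnx]
      have : (x : ℝ) ≠ 0 := by exact_mod_cast hx0
      positivity
    have hr : r = g (axisPt x) := by
      refine h.unif.bdry hcl hmx (h.diff.differentiableAt (isOpen_ball.mem_nhds
        (by simpa using hax.2))).continuousAt ?_
      filter_upwards [(Pri.isOpen_Ann (1 / E)).mem_nhds hax] with L hL hre
      exact (h.root L hL hre).2
    obtain ⟨T, hL, hsub, hper⟩ := limb_of_graph h.clo hn hE0 hE2 h.ne h.one h.diff h.graph hx0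
      (by linarith)
    have hadm : 2 * n * Real.log 2 / x.den < 1 / E / 2 := by rw [hden]; linarith
    have h0 : (0 : ℂ) ∉ LimbData.K g T x := by
      refine hL.zero_notMem hn hadm hper hx0 fun ℓ hℓ => (re_lt_of_ball hℓ).trans_le ?_
      linarith
    have h1 := size_of_deriv (B := Bd n E A s / 2) hL (h.diff.mono hsub) hadm (fun z hz => ?_) h0
    · rw [← hr, hden] at h1
      intro z hz
      exact (h1 z hz).trans hfin
    · refine h.g_bound hA ?_
      rw [hden, mem_closedBall, dist_eq_norm] at hz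
      calc ‖z‖ = ‖(z - axisPt x) + axisPt x‖ := by rw [sub_add_cancel]
        _ ≤ ‖z - axisPt x‖ + ‖axisPt x‖ := norm_add_le _ _
        _ ≤ sz n E := by rw [hnx]; linarith
  -- the three cases
  rcases lt_or_ge y (sz n E / 2) with hc1 | hc1
  · refine near ((p : ℚ) / q) ?_ ?_ ?_ ?_
    · have h2 : (0 : ℚ) < p := by exact_mod_cast hp
      have h3 : (0 : ℚ) < q := by exact_mod_cast hq0
      exact (div_pos h2 h3).ne'
    · have := Rat.den_div_eq_of_coprime (a := (p : ℤ)) (b := (q : ℤ)) (by omega)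
        (by simpa using hcop)
      have h2 : (((p : ℤ) : ℚ) / ((q : ℤ) : ℚ)).den = q := by exact_mod_cast this
      simpa using h2
    · rw [hm]
      congr 1
      simp only [axisPt]
      push_cast
      ring
    · push_cast
      rw [abs_of_pos (div_pos hp' hq')]
      exact hc1
  rcases lt_or_ge (2 * Real.pi - sz n E / 2) y with hc2 | hc2
  · refine near (-(((q - p : ℕ) : ℚ) / q)) ?_ ?_ ?_ ?_
    · have h2 : (0 : ℚ) < ((q - p : ℕ) : ℚ) := by
        have : 0 < q - p := by omega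
        exact_mod_cast this
      have h3 : (0 : ℚ) < q := by exact_mod_cast hq0
      exact neg_ne_zero.2 (div_pos h2 h3).ne'
    · have hcop2 : Nat.Coprime (q - p) q := by
        rw [Nat.coprime_self_sub_left hpq.le]
        exact hcop
      have := Rat.den_div_eq_of_coprime (a := ((q - p : ℕ) : ℤ)) (b := (q : ℤ)) (by omega)
        (by simpa using hcop2)
      rw [Rat.den_neg_eq_den]
      have h2 : ((((q - p : ℕ) : ℤ) : ℚ) / ((q : ℤ) : ℚ)).den = q := by exact_mod_cast this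
      simpa using h2
    · rw [hm, Complex.exp_eq_exp_iff_exists_int]
      refine ⟨1, ?_⟩
      simp only [axisPt]
      push_cast [Nat.cast_sub hpq.le]
      have h3 : (q : ℂ) ≠ 0 := by exact_mod_cast hq0.ne'
      field_simp
      ring
    · push_cast [Nat.cast_sub hpq.le]
      rw [abs_neg, abs_of_pos (div_pos (by linarith) hq')]
      have h3 : 2 * Real.pi * (((q : ℝ) - p) / q) = 2 * Real.pi - y := by
        rw [hy]; field_simp
      rw [h3]; linarith
  · -- far from the root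
    set x : ℚ := (p : ℚ) / q with hx
    have hden : x.den = q := by
      have := Rat.den_div_eq_of_coprime (a := (p : ℤ)) (b := (q : ℤ)) (by omega)
        (by simpa using hcop)
      have h2 : (((p : ℤ) : ℚ) / ((q : ℤ) : ℚ)).den = q := by exact_mod_cast this
      simpa [hx] using h2
    have hx0 : x ≠ 0 := by
      have h2 : (0 : ℚ) < p := by exact_mod_cast hp
      have h3 : (0 : ℚ) < q := by exact_mod_cast hq0
      exact (div_pos h2 h3).ne'
    have haxy : axisPt x = (y : ℂ) * I := by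
      simp only [axisPt, hx, hy]
      push_cast
      ring
    have hmx : mul n (r, b) = exp (axisPt x) := by
      rw [hm, haxy, hy]
      congr 1
      push_cast
      ring
    have hE1 := E1_ge_two hn h.hE
    have hR0 : 0 < 1 / E1 n E := by positivity
    have hR2 : 1 / E1 n E ≤ 1 / 2 := one_div_le_one_div_of_le (by norm_num) hE1
    have hsub : ball (axisPt x) (1 / E1 n E) ⊆ D0 n := by rw [haxy]; exact h.ball_sub hc1 hc2
    have hD := Pri.goodDom_D0 hn
    have hgd : GoodDom n (ball (axisPt x) (1 / E1 n E)) :=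
      ⟨hn, isOpen_ball, fun L hL => hD.ne_one L (hsub hL), fun L hL => hD.lt L (hsub hL),
        fun z hz L hL => hD.inj z hz L (hsub hL)⟩
    have hcen : axisPt x ∈ ball (axisPt x) (1 / E1 n E) := mem_ball_self hR0
    have hr : r = (fun L => (σ L).1) (axisPt x) := by
      refine h.unif.bdry hcl hmx (G := fun L => (σ L).1) ?_ ?_
      · exact (section_strict hD h.cont h.sec (hsub hcen)).hasDerivAt.continuousAt
      · filter_upwards [(Pri.isOpen_D0 n).mem_nhds (hsub hcen)] with L hL hre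
        rw [h.left L hL hre]
    have hlog : 0 < Real.log 2 := by linarith
    have hL := limbData_of_section (n := n) (σ := σ) hR0 (by positivity : 0 < 2 * n * Real.log 2)
      hgd (h.cont.mono hsub) (fun L hL => h.sec L (hsub hL)) (Tr.rotData hn)
      (fun z hz hzM => rep13 hn hz hzM)
    have hs3 := sz_le hn hE1
    have hs4 : sz n (E1 n E) = s1 n E := rfl
    rw [hs4] at hs3
    have hadm : 2 * n * Real.log 2 / x.den < 1 / E1 n E := by rw [hden]; linarith
    have h0 := hL.zero_notMem hn hadm (fun ℓ hℓ _ => ⟨(σ ℓ).2, (h.sec ℓ (hsub hℓ)).1,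
      (h.sec ℓ (hsub hℓ)).2⟩) hx0 fun ℓ hℓ => (re_lt_of_ball hℓ).trans_le (by linarith)
    have h1 := size_of_deriv (B := Bd n E A s / 2) hL
      ((section_differentiableOn hD h.cont h.sec).mono hsub) hadm (fun z hz => ?_) h0
    · have hr' : r = (σ (axisPt x)).1 := hr
      rw [← hr', hden] at h1
      intro z hz
      exact (h1 z hz).trans hfin
    · refine h.σ_bound hA hc1 hc2 ?_
      rw [hden, mem_closedBall, dist_eq_norm, haxy] at hz
      linarith

end

end Pool.Agent.Work.MLC.Rel
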