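import Pool.Agent.Work.MLC.Rel4f
import Pool.Agent.Work.MLC.PriAll26

set_option autoImplicit false

/-! # Roundness and relative size of the limbs: polynomial constants (helper4) -/

namespace Pool.Agent.Work.MLC.Rel

open Filter Topology Metric Set Complex
open Pool.Agent.Work.MLC.Pri (Ann Clo OneC QC SA Exa D0)

theorem one_of_BTG {C₀ : ℝ} (hC₀ : 2 ≤ C₀) {k : ℕ} (hBT : Pri.BTG C₀ k) {n : ℕ} (hn : 0 < n)
    {x₀ : ℂ × ℂ} (hx₀ : x₀ ∈ SA n (1 / (C₀ * n ^ k))) (hex : Exa n x₀) :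
    OneC n (QC n (1 / (C₀ * n ^ k)) x₀) := by
  have hn' : (1 : ℝ) ≤ n := by exact_mod_cast hn
  have h1 : (1 : ℝ) ≤ n ^ k := one_le_pow₀ hn'
  have h2 : 2 ≤ C₀ * (n : ℝ) ^ k := by nlinarith
  have h3 : 1 / (C₀ * (n : ℝ) ^ k) ≤ 1 / 2 := one_div_le_one_div_of_le (by norm_num) h2
  obtain ⟨Lbl, hL⟩ := Pri.exists_ID n (1 / (C₀ * (n : ℝ) ^ k)) hn (by positivity) (by linarith)
  exact Pri.oneC_QC (N := n) hBT Pri.sepAll Pri.lep hn le_rfl le_rfl le_rfl h3 hL hx₀ hex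

/-- the value of the scale -/
lemma s1_eq {n : ℕ} (hn : 0 < n) {E : ℝ} (hE : 2 ≤ E) :
    8 / s1 n E = 107520 * (400 * 26880 ^ 2) ^ 2 * n ^ 7 * E ^ 8 := by
  have hn' : (0 : ℝ) < n := by exact_mod_cast hn
  unfold s1 E1 sz
  field_simp
  norm_num

/-- the boundary point with multiplier `exp (2 π i p / q)` -/
lemma exists_bdry {n : ℕ} {W : Set ℂ} {s : ℂ → ℂ × ℂ} (h : Unif n W s) {L₀ : ℂ}
    (hL₀ : L₀ ∈ D0 n) (hre : L₀.re = 0) : ∃ r : ℂ, ∀ r' : ℂ,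
      (∃ b, (r', b) ∈ closure (Sat.AttW n W) ∧ mul n (r', b) = exp L₀) ↔ r' = r := by
  obtain ⟨σ, hσ, hσ', hs⟩ := h.ext_D0
  have hD := Pri.goodDom_D0 h.pos
  have hDn : D0 n ∈ 𝓝 L₀ := (Pri.isOpen_D0 n).mem_nhds hL₀
  refine ⟨(σ L₀).1, fun r' => ⟨?_, ?_⟩⟩
  · rintro ⟨b, hcl, hm⟩
    refine h.bdry hcl hm (G := fun L => (σ L).1) ?_ ?_
    · exact (section_strict hD hσ hσ' hL₀).hasDerivAt.continuousAt
    · filter_upwards [hDn] with L hL hre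
      rw [hs L hL hre]
  · rintro rfl
    refine ⟨(σ L₀).2, ?_, (hσ' L₀ hL₀).2⟩
    have hc : ContinuousAt σ L₀ := (hσ L₀ hL₀).continuousAt hDn
    have h1 : ∃ᶠ L in 𝓝 L₀, L.re < 0 := by
      have h2 : L₀ ∈ closure {L : ℂ | L.re < 0} := by
        rw [Complex.closure_setOfPred_re_lt]
        show L₀.re ≤ 0
        rw [hre]
      exact mem_closure_iff_frequently.1 h2
    have h3 : ∃ᶠ L in 𝓝 L₀, σ L ∈ Sat.AttW n W := by
      refine (h1.and_eventually hDn).mono ?_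
      rintro L ⟨h4, h5⟩
      obtain ⟨h6, -, h7⟩ := h.att _ (exp_mem_ball h4)
      obtain ⟨h8, h9⟩ := (Hyp.mem_Att_iff h.pos).1 h6
      rw [hs L h5 h4]
      exact ⟨h7, h8, h9⟩
    exact mem_closure_iff_frequently.2 (hc.tendsto.frequently h3)

/-- **roundness and relative size of the limbs** -/
theorem main {C₀ : ℝ} (hC₀ : 2 ≤ C₀) {k : ℕ} (hBT : Pri.BTG C₀ k) :
    ∃ (C : ℝ) (a : ℕ), 0 < C ∧ ∀ (n : ℕ) (W : Set ℂ), 0 < n → HypComp n W →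
      ∃ (c₀ : ℂ) (ρ : ℝ), 0 < ρ ∧ ball c₀ ρ ⊆ W ∧ W ⊆ closedBall c₀ (C * n ^ a * ρ) ∧
        ∀ (p q : ℕ), 0 < p → p < q → Nat.Coprime p q → ∃ r : ℂ,
          (∀ r' : ℂ, (∃ b, (r', b) ∈ closure (Sat.AttW n W) ∧
            mul n (r', b) = exp (2 * Real.pi * (p / q) * I)) ↔ r' = r) ∧
          (C * n ^ a ≤ q → ∀ z ∈ MS \ connectedComponentIn (MS \ {r}) 0,
            dist z r ≤ C * n ^ a / q * ρ) := by
  obtain ⟨A, hA⟩ := growth
  have hA' : Gr A := hA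
  have hK := one_le_KK
  set c₁ : ℝ := 107520 * (400 * 26880 ^ 2) ^ 2 * C₀ ^ 8 with hc₁
  have hc₁1 : 1 ≤ c₁ := by
    have : (1 : ℝ) ≤ C₀ ^ 8 := one_le_pow₀ (by linarith)
    rw [hc₁]; nlinarith
  refine ⟨24 * KK * c₁ ^ (A + 1), (7 + 8 * k) * (A + 1) + 1, by positivity,
    fun n W hn hW => ?_⟩
  have hn' : (1 : ℝ) ≤ n := by exact_mod_cast hn
  have hnk : (1 : ℝ) ≤ n ^ k := one_le_pow₀ hn'
  set E : ℝ := C₀ * (n : ℝ) ^ k with hEd
  have hE : 2 ≤ E := by rw [hEd]; nlinarith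
  obtain ⟨s, σ, Q, g, h⟩ := exists_full hn hW hE fun x₀ hx₀ hex => one_of_BTG hC₀ hBT hn hx₀ hex
  set Y : ℝ := 8 / s1 n E with hY
  have hYe : Y = c₁ * n ^ (7 + 8 * k) := by
    rw [hY, s1_eq hn hE, hc₁, hEd]
    ring
  have hY1 : 1 ≤ Y := by
    rw [hYe]
    have : (1 : ℝ) ≤ n ^ (7 + 8 * k) := one_le_pow₀ hn'
    nlinarith
  have hCn : 24 * KK * c₁ ^ (A + 1) * (n : ℝ) ^ ((7 + 8 * k) * (A + 1) + 1) =
      24 * KK * (Y ^ (A + 1) * n) := by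
    rw [hYe]; ring
  have hYA : (1 : ℝ) ≤ Y ^ A := one_le_pow₀ hY1
  have hY2 : Y ^ A ≤ Y ^ (A + 1) * n := by
    rw [pow_succ]
    calc Y ^ A = Y ^ A * 1 * 1 := by ring
      _ ≤ Y ^ A * Y * n := by gcongr
  obtain ⟨hd0, hin, hout⟩ := h.round hA'
  set d : ℝ := ‖deriv (fun l => (s l).1) 0‖ with hd
  have hBd : Bd n E A s = 24 * KK * Y ^ A * (d / (4 * KK)) := by
    unfold Bd
    rw [← hY, ← hd]
    field_simp
    norm_num
  have hρ0 : 0 < d / (4 * KK) := by positivity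
  refine ⟨(s 0).1, d / (4 * KK), hρ0, hin, hout.trans (closedBall_subset_closedBall ?_), ?_⟩
  · rw [hBd, hCn]
    gcongr
  · intro p q hp hpq hcop
    have hp' : (0 : ℝ) < p := by exact_mod_cast hp
    have hpq' : (p : ℝ) < q := by exact_mod_cast hpq
    have hq' : (0 : ℝ) < q := by exact_mod_cast hp.trans hpq
    have hpi := Real.pi_pos
    have him : (2 * Real.pi * (p / q) * I : ℂ) = ((2 * Real.pi * (p / q) : ℝ) : ℂ) * I := by
      push_cast; ring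
    have hy1 : 2 * Real.pi * ((p : ℝ) / q) < 2 * Real.pi := by
      have : (p : ℝ) / q < 1 := by rw [div_lt_one hq']; exact hpq'
      nlinarith
    have hL₀ : (2 * Real.pi * (p / q) * I : ℂ) ∈ D0 n := by
      rw [him]
      exact Pri.axis_mem_D0 hn (by positivity) hy1
    obtain ⟨r, hr⟩ := exists_bdry h.unif hL₀ (by rw [him]; simp)
    refine ⟨r, hr, fun hq z hz => ?_⟩
    obtain ⟨b, hcl, hm⟩ := (hr r).2 rfl
    have hqs : 4 * n / s1 n E ≤ q := by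
      refine le_trans ?_ hq
      rw [hCn]
      have h1 : 4 * n / s1 n E = n * Y / 2 := by rw [hY]; ring
      rw [h1, pow_succ]
      have h2 : (n : ℝ) * Y ≤ Y ^ A * Y * n := by
        calc (n : ℝ) * Y = 1 * Y * n := by ring
          _ ≤ Y ^ A * Y * n := by gcongr
      have h3 : 0 < (n : ℝ) * Y := by positivity
      nlinarith
    have h1 := h.limb hA' hp hpq hcop hcl hm hqs z hz
    refine h1.trans ?_
    rw [hBd, hCn]
    have h5 : Y ^ A ≤ Y ^ (A + 1) := pow_le_pow_right₀ hY1 (by omega)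
    have h4 : Y ^ A * n ≤ Y ^ (A + 1) * n := by gcongr
    calc 24 * KK * Y ^ A * (d / (4 * KK)) * (n / q)
        = 24 * KK * (Y ^ A * n) / q * (d / (4 * KK)) := by ring
      _ ≤ 24 * KK * (Y ^ (A + 1) * n) / q * (d / (4 * KK)) := by gcongr

end Pool.Agent.Work.MLC.Rel
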