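import Pool.Agent.Work.MLC.Rel4g

set_option autoImplicit false

/-! # The inverse multiplier map is Lipschitz, relative size of the limbs (helper4) -/

namespace Pool.Agent.Work.MLC.Rel

open Filter Topology Metric Set Complex
open Pool.Agent.Work.MLC.Pri (Ann Clo OneC QC SA Exa D0)

/-- **the inverse multiplier map and the relative size of the limbs** -/
theorem main2 {C₀ : ℝ} (hC₀ : 2 ≤ C₀) {k : ℕ} (hBT : Pri.BTG C₀ k) :
    ∃ (C : ℝ) (a : ℕ), 0 < C ∧ ∀ (n : ℕ) (W : Set ℂ), 0 < n → HypComp n W →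
      ∃ (f : ℂ → ℂ) (ρ : ℝ), 0 < ρ ∧ DifferentiableOn ℂ f (ball 0 1) ∧ InjOn f (ball 0 1) ∧
        f '' ball 0 1 = W ∧
        (∀ l ∈ ball (0 : ℂ) 1, ∃ b, (f l, b) ∈ Sat.AttW n W ∧ mul n (f l, b) = l) ∧
        ball (f 0) ρ ⊆ W ∧ (∀ l ∈ ball (0 : ℂ) 1, ‖deriv f l‖ ≤ C * n ^ a * ρ) ∧
        ∀ (p q : ℕ), 0 < p → p < q → Nat.Coprime p q → ∃ r : ℂ,
          (∀ r' : ℂ, (∃ b, (r', b) ∈ closure (Sat.AttW n W) ∧
            mul n (r', b) = exp (2 * Real.pi * (p / q) * I)) ↔ r' = r) ∧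
          (C * n ^ a ≤ q → ∀ z ∈ MS \ connectedComponentIn (MS \ {r}) 0,
            dist z r ≤ C * n ^ a / q * ρ) := by
  obtain ⟨A, hA⟩ := growth
  have hA' : Gr A := hA
  have hK := one_le_KK
  set c₁ : ℝ := 107520 * (400 * 26880 ^ 2) ^ 2 * C₀ ^ 8 with hc₁
  have hc₁1 : 1 ≤ c₁ := by
    have : (1 : ℝ) ≤ C₀ ^ 8 := one_le_pow₀ (by linarith)
    rw [hc₁]; nlinarith
  refine ⟨24 * KK * c₁ ^ (A + 1), (7 + 8 * k) * (A + 1) + 1, by positivity,
    fun n W hn hW => ?_⟩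
  have hn' : (1 : ℝ) ≤ n := by exact_mod_cast hn
  have hnk : (1 : ℝ) ≤ n ^ k := one_le_pow₀ hn'
  set E : ℝ := C₀ * (n : ℝ) ^ k with hEd
  have hE : 2 ≤ E := by rw [hEd]; nlinarith
  obtain ⟨s, σ, Q, g, h⟩ := exists_full hn hW hE fun x₀ hx₀ hex => one_of_BTG hC₀ hBT hn hx₀ hex
  set Y : ℝ := 8 / s1 n E with hY
  have hYe : Y = c₁ * n ^ (7 + 8 * k) := by
    rw [hY, s1_eq hn hE, hc₁, hEd]
    ring
  have hY1 : 1 ≤ Y := by
    rw [hYe]
    have : (1 : ℝ) ≤ n ^ (7 + 8 * k) := one_le_pow₀ hn'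
    nlinarith
  have hCn : 24 * KK * c₁ ^ (A + 1) * (n : ℝ) ^ ((7 + 8 * k) * (A + 1) + 1) =
      24 * KK * (Y ^ (A + 1) * n) := by
    rw [hYe]; ring
  have hYA : (1 : ℝ) ≤ Y ^ A := one_le_pow₀ hY1
  have hY2 : Y ^ A ≤ Y ^ (A + 1) * n := by
    rw [pow_succ]
    calc Y ^ A = Y ^ A * 1 * 1 := by ring
      _ ≤ Y ^ A * Y * n := by gcongr
  obtain ⟨hd0, hin, -⟩ := h.round hA'
  set d : ℝ := ‖deriv (fun l => (s l).1) 0‖ with hd
  have hBd : Bd n E A s = 24 * KK * Y ^ A * (d / (4 * KK)) := by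
    unfold Bd
    rw [← hY, ← hd]
    field_simp
    norm_num
  have hρ0 : 0 < d / (4 * KK) := by positivity
  refine ⟨fun l => (s l).1, d / (4 * KK), hρ0, h.unif.diff, h.unif.inj, ?_, ?_, hin,
    fun l hl => (h.deriv_bound hA' hl).trans ?_, ?_⟩
  · apply Subset.antisymm
    · rintro _ ⟨l, hl, rfl⟩
      exact (h.unif.att l hl).2.2
    · intro c hc
      obtain ⟨l, hl, hl2⟩ := h.unif.surj c hc
      exact ⟨l, hl, hl2⟩
  · intro l hl
    obtain ⟨h1, h2, h3⟩ := h.unif.att l hl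
    obtain ⟨h4, h5⟩ := (Hyp.mem_Att_iff hn).1 h1
    exact ⟨(s l).2, ⟨h3, h4, h5⟩, h2⟩
  · rw [hBd, hCn]
    gcongr
  · intro p q hp hpq hcop
    have hp' : (0 : ℝ) < p := by exact_mod_cast hp
    have hpq' : (p : ℝ) < q := by exact_mod_cast hpq
    have hq' : (0 : ℝ) < q := by exact_mod_cast hp.trans hpq
    have hpi := Real.pi_pos
    have him : (2 * Real.pi * (p / q) * I : ℂ) = ((2 * Real.pi * (p / q) : ℝ) : ℂ) * I := by
      push_cast; ring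
    have hy1 : 2 * Real.pi * ((p : ℝ) / q) < 2 * Real.pi := by
      have : (p : ℝ) / q < 1 := by rw [div_lt_one hq']; exact hpq'
      nlinarith
    have hL₀ : (2 * Real.pi * (p / q) * I : ℂ) ∈ D0 n := by
      rw [him]
      exact Pri.axis_mem_D0 hn (by positivity) hy1
    obtain ⟨r, hr⟩ := exists_bdry h.unif hL₀ (by rw [him]; simp)
    refine ⟨r, hr, fun hq z hz => ?_⟩
    obtain ⟨b, hcl, hm⟩ := (hr r).2 rfl
    have hqs : 4 * n / s1 n E ≤ q := by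
      refine le_trans ?_ hq
      rw [hCn]
      have h1 : 4 * n / s1 n E = n * Y / 2 := by rw [hY]; ring
      rw [h1, pow_succ]
      have h2 : (n : ℝ) * Y ≤ Y ^ A * Y * n := by
        calc (n : ℝ) * Y = 1 * Y * n := by ring
          _ ≤ Y ^ A * Y * n := by gcongr
      have h3 : 0 < (n : ℝ) * Y := by positivity
      nlinarith
    have h1 := h.limb hA' hp hpq hcop hcl hm hqs z hz
    refine h1.trans ?_
    rw [hBd, hCn]
    have h5 : Y ^ A ≤ Y ^ (A + 1) := pow_le_pow_right₀ hY1 (by omega)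
    have h4 : Y ^ A * n ≤ Y ^ (A + 1) * n := by gcongr
    calc 24 * KK * Y ^ A * (d / (4 * KK)) * (n / q)
        = 24 * KK * (Y ^ A * n) / q * (d / (4 * KK)) := by ring
      _ ≤ 24 * KK * (Y ^ (A + 1) * n) / q * (d / (4 * KK)) := by gcongr

end Pool.Agent.Work.MLC.Rel
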