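import Pool.Agent.Work.MLC.ResG6
import Pool.Agent.Work.MLC.PriBT57e

set_option autoImplicit false

/-! # The final statements, all hyperbolic components, exponent 5 (helper6) -/

namespace Pool.Agent.Work.MLC

open N62a1eb23 Set Filter Topology Metric

theorem rootPiece5 : RootPiece fun n => 1 / ((8 * 10 ^ 11) * n ^ 5) := Pri.rootPieceE_all

theorem res31_limbBound : ∀ (n p q : ℕ) (r b : ℂ), 0 < n → 0 < p → p < q →
    Nat.Coprime p q → (fun z : ℂ => z ^ 2 + r)^[n] b = b →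
    deriv ((fun z : ℂ => z ^ 2 + r)^[n]) b = Complex.exp (2 * Real.pi * (p / q) * Complex.I) →
    (∀ z ∈ mandelbrotSet \ connectedComponentIn (mandelbrotSet \ {r}) 0,
      dist z r ≤ 50 * (n ^ 2 * q / (min (p : ℝ) (q - p)) ^ 2) ∧
      dist z r ≤ 2 * 10 ^ 27 * (n ^ 12 / q)) ∧
    (6 * (n : ℝ) ^ 2 * q ≤ (min (p : ℝ) (q - p)) ^ 2 ∨ 10 ^ 27 * (n : ℝ) ^ 12 ≤ q →
      IsCompact (mandelbrotSet \ connectedComponentIn (mandelbrotSet \ {r}) 0) ∧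
      IsConnected (mandelbrotSet \ connectedComponentIn (mandelbrotSet \ {r}) 0) ∧
      r ∈ closure ((mandelbrotSet \ connectedComponentIn (mandelbrotSet \ {r}) 0) ∩
        interior mandelbrotSet)) :=
  resG_limbBound (k := 5) (A := 12) rfl (by norm_num) (by norm_num) (by norm_num) rootPiece5

theorem res31_localConn : ∃ S ⊆ frontier mandelbrotSet,
    (∀ c₀ : ℂ, c₀ ∈ S ↔ c₀ ∈ mandelbrotSet ∧ ∀ N : ℕ, ∃ (n p q : ℕ) (r b : ℂ), N ≤ n ∧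
      0 < n ∧ 0 < p ∧ p < q ∧ Nat.Coprime p q ∧ (fun z : ℂ => z ^ 2 + r)^[n] b = b ∧
      deriv ((fun z : ℂ => z ^ 2 + r)^[n]) b = Complex.exp (2 * Real.pi * (p / q) * Complex.I) ∧
      c₀ ≠ r ∧ c₀ ∉ connectedComponentIn (mandelbrotSet \ {r}) 0 ∧
      (16 * Real.log 2 * (n : ℝ) ^ 2 * q ≤ (min (p : ℝ) (q - p)) ^ 2 ∨
        10 ^ 27 * (n : ℝ) ^ 12 ≤ q)) ∧
    (∃ G ⊆ S, IsGδ G ∧ frontier mandelbrotSet ⊆ closure G) ∧
    (∀ U : Set ℂ, IsOpen U → (U ∩ frontier mandelbrotSet).Nonempty → ¬ (S ∩ U).Countable) ∧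
    ∀ c₀ ∈ S, ∀ U ∈ 𝓝 c₀, ∃ r : ℂ, ∃ V ⊆ U,
      V = mandelbrotSet \ connectedComponentIn (mandelbrotSet \ {r}) 0 ∧ IsCompact V ∧
      IsConnected V ∧ V ∈ 𝓝[mandelbrotSet] c₀ :=
  resG_localConn (C₁ := 2 * 10 ^ 27) (k := 5) (A := 12) rfl (by norm_num) (by norm_num) (by norm_num) rootPiece5

end Pool.Agent.Work.MLC
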