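import Pool.Agent.Work.MLC.RootV6
import Pool.Agent.Work.MLC.LcS6
import Pool.Agent.Work.MLC.Dens6c

set_option autoImplicit false

/-! # Canonical form of the limbs of all components, and neighbourhood bases (helper6) -/

namespace Pool.Agent.Work.MLC

open Filter Topology Metric Set

/-- attracting parameters near the root of a limb -/
theorem attr_near' {n q : ℕ} {x : ℚ} {R : ℝ} {g : ℂ → ℂ} (hn : 0 < n) (hxq : x.den = q)
    (hR : 0 < R) (hx : x ≠ 0) (hg : ContinuousOn g (ball (axisPt x) R))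
    (hper : ∀ ℓ ∈ ball (axisPt x) R, ℓ ≠ 0 →
      ∃ z, (g ℓ, z) ∈ Per n ∧ mul n (g ℓ, z) = Complex.exp ℓ)
    (hinj : ∃ δ > 0, InjOn g (ball (axisPt x) δ)) :
    ∃ t₀ > 0, t₀ < R ∧ ∀ t : ℝ, 0 < t → t < t₀ → ∃ b', Attr (n * q) (g (axisPt x + t)) b' := by
  have hq : 0 < q := by rw [← hxq]; exact x.pos
  have hnq : 0 < n * q := Nat.mul_pos hn hq
  obtain ⟨δ, hδ, hinj⟩ := hinj
  have hcen : axisPt x ∈ ball (axisPt x) R := mem_ball_self hR
  -- parameters near the root have no multiplier `1`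
  have hfin := NV.finite_par hnq
  set F : Set ℂ := {c : ℂ | ∃ b, it c (n * q) b = b ∧ mul (n * q) (c, b) = 1} with hF
  have h1 : ∀ᶠ c in 𝓝 (g (axisPt x)), c ∉ F \ {g (axisPt x)} := by
    have : IsClosed (F \ {g (axisPt x)}) := (hfin.subset sdiff_subset).isClosed
    exact this.isOpen_compl.mem_nhds (fun h0 => h0.2 rfl)
  have hc : ContinuousAt g (axisPt x) := hg.continuousAt (isOpen_ball.mem_nhds hcen)
  obtain ⟨δ', hδ', hev⟩ := Metric.eventually_nhds_iff_ball.1 (hc.eventually h1)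
  set t₀ : ℝ := min (min δ δ') (min (R / 2) (1 / (q * 2 ^ (n * q)))) with ht₀
  have hq' : (0 : ℝ) < q := by exact_mod_cast hq
  have ht₀0 : 0 < t₀ := by
    refine lt_min (lt_min hδ hδ') (lt_min (by positivity) (by positivity))
  refine ⟨t₀, ht₀0, ?_, fun t ht0 ht => ?_⟩
  · have : t₀ ≤ R / 2 := (min_le_right _ _).trans (min_le_left _ _)
    linarith
  have htδ : t < δ := ht.trans_le ((min_le_left _ _).trans (min_le_left _ _))
  have htδ' : t < δ' := ht.trans_le ((min_le_left _ _).trans (min_le_right _ _))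
  have htR : t < R := by
    have : t₀ ≤ R / 2 := (min_le_right _ _).trans (min_le_left _ _)
    linarith
  have htq : t < 1 / (q * 2 ^ (n * q)) := ht.trans_le ((min_le_right _ _).trans (min_le_right _ _))
  have hmem : ∀ ρ : ℝ, t < ρ → axisPt x + t ∈ ball (axisPt x) ρ := by
    intro ρ hρ
    rw [mem_ball, dist_eq_norm, add_sub_cancel_left, Complex.norm_real, Real.norm_eq_abs,
      abs_of_pos ht0]
    exact hρ
  have hL := hmem R htR
  have hne : axisPt x + t ≠ 0 := by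
    intro h0
    have h2 : (axisPt x + t).re = 0 := by rw [h0]; rfl
    rw [Complex.add_re, LimbData.axisPt_re, zero_add, Complex.ofReal_re] at h2
    exact ht0.ne' h2
  obtain ⟨z, h2, h3⟩ := hper _ hL hne
  set c := g (axisPt x + t) with hcdef
  have hcF : c ∉ F := by
    intro h4
    refine hev _ (hmem δ' htδ') ⟨h4, ?_⟩
    intro h5
    have h6 := hinj (hmem δ htδ) (mem_ball_self hδ) h5
    have h7 : (t : ℂ) = 0 := by linear_combination h6
    have h8 : t = 0 := by exact_mod_cast h7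
    exact ht0.ne' h8
  have hsimple : ∀ b, it c (n * q) b = b → mul (n * q) (c, b) ≠ 1 :=
    fun b hb h4 => hcF ⟨b, hb, h4⟩
  have hbn : it c n z = z := h2
  have hmulq : mul (n * q) (c, z) = Complex.exp ((q * t : ℝ) : ℂ) := by
    rw [NV.mul_mul_period hbn q]
    rw [h3, ← Complex.exp_nat_mul]
    have h5 : (q : ℂ) * (axisPt x + t) = (x.num : ℂ) * (2 * Real.pi * Complex.I) + ((q * t : ℝ) : ℂ) := by
      have h6 : (q : ℂ) * ((x : ℝ) : ℂ) = x.num := by
        have h7 : (x : ℚ) * q = x.num := by rw [← hxq]; exact Rat.mul_den_eq_num x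
        have h8 : ((x : ℝ) : ℂ) = (x : ℂ) := by push_cast; rfl
        rw [h8, mul_comm]
        exact_mod_cast congrArg (fun y : ℚ => (y : ℂ)) h7
      unfold axisPt
      push_cast
      push_cast at h6
      linear_combination (2 * Real.pi * Complex.I) * h6
    rw [h5, Complex.exp_add]
    have h6 : Complex.exp ((x.num : ℂ) * (2 * Real.pi * Complex.I)) = 1 :=
      Complex.exp_int_mul_two_pi_mul_I x.num
    rw [h6, one_mul]
  refine NV.exists_attr hnq hsimple (NV.it_mul_period hbn q) (s := q * t) (by positivity) ?_ hmulq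
  rw [lt_div_iff₀ (by positivity)] at htq
  calc q * t * 2 ^ (n * q) = t * (q * 2 ^ (n * q)) := by ring
    _ < 1 := htq

/-- the canonical form of a limb, from its data -/
theorem canon_of_data {n : ℕ} {x : ℚ} {R : ℝ} {g : ℂ → ℂ} {T : ℂ → ℚ → Prop} (hn : 0 < n)
    (hx : x ≠ 0) (hL : LimbData MS x R (2 * n * Real.log 2) g T)
    (hgd : DifferentiableOn ℂ g (ball (axisPt x) R))
    (hper : ∀ ℓ ∈ ball (axisPt x) R, ℓ ≠ 0 →
      ∃ z, (g ℓ, z) ∈ Per n ∧ mul n (g ℓ, z) = Complex.exp ℓ)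
    (hAR : 2 * n * Real.log 2 / x.den < R) (hR : R ≤ 1 / 2) :
    IsCompact (MS \ connectedComponentIn (MS \ {g (axisPt x)}) 0) ∧
    IsConnected (MS \ connectedComponentIn (MS \ {g (axisPt x)}) 0) ∧
    g (axisPt x) ∈ closure
      ((MS \ connectedComponentIn (MS \ {g (axisPt x)}) 0) ∩ interior MS) := by
  have hlog1 : 0.6931471803 < Real.log 2 := Real.log_two_gt_d9
  have hadm : LimbData.Adm x R (2 * n * Real.log 2) x := by
    unfold LimbData.Adm
    rw [sub_self, abs_zero, mul_zero, add_zero]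
    exact hAR
  have hR0 := hL.R_pos
  have hcen : axisPt x ∈ ball (axisPt x) R := mem_ball_self hR0
  have h0K : (0 : ℂ) ∉ LimbData.K g T x := LimbData.zero_notMem hn hL hAR hper hx (by
    intro ℓ hℓ
    have := re_lt_of_ball hℓ
    linarith)
  rw [hL.canon inputs34 hAR h0K]
  refine ⟨hL.isCompact_K inputs34.cpt.isClosed hadm, ⟨⟨_, Or.inl rfl⟩,
    hL.K_conn inputs34.cpt.isClosed inputs34.conn hadm⟩, ?_⟩
  obtain ⟨t₀, ht₀, ht₀R, hattr⟩ := attr_near' (q := x.den) hn rfl hR0 hx hgd.continuousOn hper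
    hL.inj
  have hnq : 0 < n * x.den := Nat.mul_pos hn x.pos
  have hint : ∀ t : ℝ, 0 < t → t < t₀ → g (axisPt x + t) ∈ interior MS := by
    intro t h1 h2
    obtain ⟨b', hb'⟩ := hattr t h1 h2
    exact NV.attr_interior inputs34 hnq hb'
  have htype := NV.type_segment hL ht₀ ht₀R.le (fun t h1 h2 => interior_subset (hint t h1 h2))
  have hc : ContinuousAt g (axisPt x) := hgd.continuousOn.continuousAt (isOpen_ball.mem_nhds hcen)
  rw [mem_closure_iff_nhds]
  intro N hN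
  obtain ⟨δ, hδ, hδN⟩ := Metric.mem_nhds_iff.1 (hc.preimage_mem_nhds hN)
  set t : ℝ := min (t₀ / 2) (δ / 2) with ht
  have ht0 : 0 < t := lt_min (by positivity) (by positivity)
  have htt : t < t₀ := (min_le_left _ _).trans_lt (by linarith)
  have htδ : t < δ := (min_le_right _ _).trans_lt (by linarith)
  refine ⟨g (axisPt x + t), hδN ?_, Or.inr ⟨_, htype t ht0 htt, rfl⟩, hint t ht0 htt⟩
  rw [mem_ball, dist_eq_norm, add_sub_cancel_left, Complex.norm_real, Real.norm_eq_abs,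
    abs_of_pos ht0]
  exact htδ

section

variable {C₀ : ℝ} {k : ℕ}

/-- **the canonical form of the limbs**, condition without `p` -/
theorem root_canon (hC₀ : 2 ≤ C₀) (hRP : RootPiece fun n => 1 / (C₀ * n ^ k)) {n p q : ℕ}
    {r b : ℂ} (hn : 0 < n) (hp : 0 < p) (hpq : p < q) (hcop : Nat.Coprime p q)
    (hb : it r n b = b)
    (hm : mul n (r, b) = Complex.exp (2 * Real.pi * (p / q) * Complex.I))
    (hsm : 480 * C₀ ^ 2 * (n : ℝ) ^ (2 * k + 2) ≤ q) :
    IsCompact (MS \ connectedComponentIn (MS \ {r}) 0) ∧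
    IsConnected (MS \ connectedComponentIn (MS \ {r}) 0) ∧
    r ∈ closure ((MS \ connectedComponentIn (MS \ {r}) 0) ∩ interior MS) := by
  obtain ⟨m, p', q', hPer, hmn, hp', hpq', hcop', hqq, hmul⟩ := exact_level hn hp hpq hcop hb hm
  have hlog : 0 < Real.log 2 := Real.log_pos (by norm_num)
  have hlog2 : Real.log 2 < 0.6931471808 := Real.log_two_lt_d9
  have hm0 : 0 < m := hPer.1
  have hbm : it r m b = b := Sat.perN_it hPer
  have hmul' : mul m (r, b) = Complex.exp (2 * Real.pi * (p' / q') * Complex.I) := hmul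
  have hq0 : (0 : ℝ) < q := by exact_mod_cast hp.trans hpq
  have hqq' : (q : ℝ) ≤ q' := by exact_mod_cast hqq
  have hmn' : (m : ℝ) ≤ n := by exact_mod_cast hmn
  have hm1 : (1 : ℝ) ≤ m := by exact_mod_cast hm0
  have hmR : (0 : ℝ) < m := by linarith
  have hC0 : 0 < C₀ := by linarith
  have hsm' : 480 * C₀ ^ 2 * (m : ℝ) ^ (2 * k + 2) ≤ q' := by
    calc 480 * C₀ ^ 2 * (m : ℝ) ^ (2 * k + 2) ≤ 480 * C₀ ^ 2 * (n : ℝ) ^ (2 * k + 2) := by gcongr
      _ ≤ (q : ℝ) := hsm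
      _ ≤ (q' : ℝ) := hqq'
  have hq'0 : (0 : ℝ) < q' := hq0.trans_le hqq'
  have hpR : (0 : ℝ) < p' := by exact_mod_cast hp'
  have hpqR : (p' : ℝ) < q' := by exact_mod_cast hpq'
  have hmk : (1 : ℝ) ≤ m ^ k := one_le_pow₀ hm1
  have hδ1 : 1 / (C₀ * (m : ℝ) ^ k) ≤ 1 / 2 := by
    apply one_div_le_one_div_of_le (by norm_num)
    nlinarith
  have hmp : (1 : ℝ) ≤ m ^ (2 * k + 2) := one_le_pow₀ hm1
  rcases lt_or_ge (1 / (C₀ * (m : ℝ) ^ k)) (2 * Real.pi * (min (p' : ℝ) (q' - p') / q')) with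
    ht | ht
  · have h1 := far_ineq' hC0 hm0 hp' hpq' ht
    have hmin : 0 < min (p' : ℝ) (q' - p') := lt_min hpR (by linarith)
    have h2 : 40 * C₀ ^ 2 * ((m : ℝ) ^ (2 * k + 2) / q') ≤ 1 / 12 := by
      rw [← mul_div_assoc, div_le_iff₀ hq'0]
      linarith
    have h3 := h1.trans h2
    rw [div_le_iff₀ (by positivity)] at h3
    have h4 : (0 : ℝ) < (m : ℝ) ^ 2 * q' := by positivity
    have hq3 : 3 ≤ q' := by
      by_contra hcon
      have h5 : q' ≤ 2 := by omega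
      have h6 : (q' : ℝ) ≤ 2 := by exact_mod_cast h5
      nlinarith
    obtain ⟨k1, k2, -, k3, -⟩ := limb_canon inputs34 hm0 hp' hpq' hcop' hbm hmul' hq3 (by nlinarith)
    exact ⟨k1, k2, k3⟩
  · obtain ⟨x, g, T, hx, hden, hL, hgr, hgd, hg4, hgper⟩ :=
      hRP m p' q' r b hPer hp' hpq' hcop' hmul ht
    have hAR : 2 * m * Real.log 2 / x.den < 1 / (C₀ * (m : ℝ) ^ k) := by
      rw [hden, div_lt_div_iff₀ hq'0 (by positivity)]
      have h4 : (m : ℝ) ^ (k + 1) ≤ m ^ (2 * k + 2) := pow_le_pow_right₀ hm1 (by omega)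
      have hC2 : C₀ ≤ C₀ ^ 2 := by nlinarith
      have h0 : (0 : ℝ) < m ^ (2 * k + 2) := by positivity
      calc 2 * m * Real.log 2 * (C₀ * m ^ k) = 2 * Real.log 2 * C₀ * m ^ (k + 1) := by ring
        _ ≤ 2 * 1 * C₀ ^ 2 * m ^ (2 * k + 2) := by gcongr; linarith
        _ < 480 * C₀ ^ 2 * m ^ (2 * k + 2) := by nlinarith [mul_pos (pow_pos hC0 2) h0]
        _ ≤ 1 * q' := by linarith
    have h := canon_of_data hm0 hx hL hgd hgper hAR hδ1
    rw [hgr] at h
    exact h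

/-- **limbs are a neighbourhood basis**: condition (A) or `q` large -/
theorem basis_root (hC₀ : 2 ≤ C₀) (hRP : RootPiece fun n => 1 / (C₀ * n ^ k)) {c₀ : ℂ}
    (hc₀ : c₀ ∈ MS)
    (h : ∀ N : ℕ, ∃ (n p q : ℕ) (r b : ℂ), N ≤ n ∧ 0 < n ∧ 0 < p ∧ p < q ∧ Nat.Coprime p q ∧
      it r n b = b ∧ mul n (r, b) = Complex.exp (2 * Real.pi * (p / q) * Complex.I) ∧
      r ≠ c₀ ∧ connectedComponentIn (MS \ {r}) c₀ ≠ connectedComponentIn (MS \ {r}) 0 ∧
      (16 * Real.log 2 * (n : ℝ) ^ 2 * q ≤ (min (p : ℝ) (q - p)) ^ 2 ∨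
        480 * C₀ ^ 2 * (n : ℝ) ^ (2 * k + 2) ≤ q)) :
    c₀ ∈ frontier MS ∧ ∀ U ∈ 𝓝 c₀, ∃ r : ℂ, ∃ V ⊆ U,
      V = MS \ connectedComponentIn (MS \ {r}) 0 ∧ IsCompact V ∧ IsConnected V ∧
      V ∈ 𝓝[MS] c₀ := by
  refine basis_of_pieces inputs34.cpt.isClosed inputs34.conn hc₀ fun ε hε => ?_
  obtain ⟨N₁, hN₁⟩ := small_A hε
  obtain ⟨N₂, hN₂⟩ := root_small' hC₀ hRP hε
  obtain ⟨n, p, q, r, b, hN, hn, hp, hpq, hcop, hb, hm, hrc, hne, hor⟩ := h (max N₁ N₂)
  have hP : Piece r ε := by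
    rcases hor with h1 | h1
    · exact hN₁ n p q r b ((le_max_left _ _).trans hN) hn hp hpq hcop hb hm h1
    · exact hN₂ n p q r b ((le_max_right _ _).trans hN) hn hp hpq hcop hb hm h1
  obtain ⟨K, h1, h2, h3, h4, h5, h6, h7⟩ := hP
  refine ⟨n, r, b, K, hn, hb, ?_, h1, h2, h3, h4, h5, h6, h7, hrc, hne⟩
  rw [hm, Complex.norm_exp]
  simp

end

end Pool.Agent.Work.MLC
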