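import Pool.Prelude.Def_F_c31e40fa
import Pool.Agent.Work.MLC.RootW6

set_option autoImplicit false

/-! # The final statements, all hyperbolic components, generic constants (helper6) -/

namespace Pool.Agent.Work.MLC

open N62a1eb23 Set Filter Topology Metric

lemma deriv_eq_mulG (n : ℕ) (r b : ℂ) : deriv ((fun z : ℂ => z ^ 2 + r)^[n]) b = mul n (r, b) :=
  (hasDerivAt_it r n b).deriv

theorem resG_limbBound {C₀ C₁ C₂ : ℝ} {k A : ℕ} (hA : A = 2 * k + 2) (hC₀ : 2 ≤ C₀)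
    (hC₁ : 2000 * C₀ ^ 2 ≤ C₁) (hC₂ : 480 * C₀ ^ 2 ≤ C₂)
    (hRP : RootPiece fun n => 1 / (C₀ * n ^ k)) :
    ∀ (n p q : ℕ) (r b : ℂ), 0 < n → 0 < p → p < q →
    Nat.Coprime p q → (fun z : ℂ => z ^ 2 + r)^[n] b = b →
    deriv ((fun z : ℂ => z ^ 2 + r)^[n]) b = Complex.exp (2 * Real.pi * (p / q) * Complex.I) →
    (∀ z ∈ mandelbrotSet \ connectedComponentIn (mandelbrotSet \ {r}) 0,
      dist z r ≤ 50 * (n ^ 2 * q / (min (p : ℝ) (q - p)) ^ 2) ∧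
      dist z r ≤ C₁ * (n ^ A / q)) ∧
    (6 * (n : ℝ) ^ 2 * q ≤ (min (p : ℝ) (q - p)) ^ 2 ∨ C₂ * (n : ℝ) ^ A ≤ q →
      IsCompact (mandelbrotSet \ connectedComponentIn (mandelbrotSet \ {r}) 0) ∧
      IsConnected (mandelbrotSet \ connectedComponentIn (mandelbrotSet \ {r}) 0) ∧
      r ∈ closure ((mandelbrotSet \ connectedComponentIn (mandelbrotSet \ {r}) 0) ∩
        interior mandelbrotSet)) := by
  subst hA
  intro n p q r b hn hp hpq hcop hb hm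
  have hb' : it r n b = b := hb
  have hm' : mul n (r, b) = Complex.exp (2 * Real.pi * (p / q) * Complex.I) := by
    rw [← hm]
    exact (deriv_eq_mulG n r b).symm
  have hq : 0 < q := hp.trans hpq
  have hq' : (0 : ℝ) < q := by exact_mod_cast hq
  refine ⟨fun z hz => ⟨limb_dist inputs34 hn hp hpq hcop hb' hm' z hz, ?_⟩, ?_⟩
  · refine ((root_bound' hC₀ hRP hn hp hpq hcop hb' hm').2 z hz).trans ?_
    exact mul_le_mul_of_nonneg_right hC₁ (by positivity)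
  · rintro (hsm | hsm)
    · have hn1 : (1 : ℝ) ≤ n := by exact_mod_cast hn
      have hp' : (0 : ℝ) < p := by exact_mod_cast hp
      have hpq' : (p : ℝ) < q := by exact_mod_cast hpq
      have hm0 : 0 < min (p : ℝ) (q - p) := lt_min hp' (by linarith)
      have hlog2 : Real.log 2 < 0.6931471808 := Real.log_two_lt_d9
      have hnq : 0 < (n : ℝ) ^ 2 * q := by positivity
      have hq3 : 3 ≤ q := by
        by_contra hcon
        have h1 : q ≤ 2 := by omega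
        have h2 : (q : ℝ) ≤ 2 := by exact_mod_cast h1
        have h3 : min (p : ℝ) (q - p) ≤ 1 := by
          have h1 := min_le_left (p : ℝ) (q - p)
          have h2 := min_le_right (p : ℝ) (q - p)
          linarith
        have h4 : (min (p : ℝ) (q - p)) ^ 2 ≤ 1 := pow_le_one₀ hm0.le h3
        have h5 : (1 : ℝ) ≤ q := by exact_mod_cast hq
        nlinarith
      obtain ⟨h1, h2, -, h3, -⟩ := limb_canon inputs34 hn hp hpq hcop hb' hm' hq3 (by nlinarith)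
      exact ⟨h1, h2, h3⟩
    · refine root_canon hC₀ hRP hn hp hpq hcop hb' hm' ?_
      exact (mul_le_mul_of_nonneg_right hC₂ (by positivity)).trans hsm

theorem resG_localConn {C₀ C₁ C₂ : ℝ} {k A : ℕ} (hA : A = 2 * k + 2) (hC₀ : 2 ≤ C₀)
    (hC₁ : 2000 * C₀ ^ 2 ≤ C₁) (hC₂ : 480 * C₀ ^ 2 ≤ C₂)
    (hRP : RootPiece fun n => 1 / (C₀ * n ^ k)) :
    ∃ S ⊆ frontier mandelbrotSet,
    (∀ c₀ : ℂ, c₀ ∈ S ↔ c₀ ∈ mandelbrotSet ∧ ∀ N : ℕ, ∃ (n p q : ℕ) (r b : ℂ), N ≤ n ∧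
      0 < n ∧ 0 < p ∧ p < q ∧ Nat.Coprime p q ∧ (fun z : ℂ => z ^ 2 + r)^[n] b = b ∧
      deriv ((fun z : ℂ => z ^ 2 + r)^[n]) b = Complex.exp (2 * Real.pi * (p / q) * Complex.I) ∧
      c₀ ≠ r ∧ c₀ ∉ connectedComponentIn (mandelbrotSet \ {r}) 0 ∧
      (16 * Real.log 2 * (n : ℝ) ^ 2 * q ≤ (min (p : ℝ) (q - p)) ^ 2 ∨
        C₂ * (n : ℝ) ^ A ≤ q)) ∧
    (∃ G ⊆ S, IsGδ G ∧ frontier mandelbrotSet ⊆ closure G) ∧
    (∀ U : Set ℂ, IsOpen U → (U ∩ frontier mandelbrotSet).Nonempty → ¬ (S ∩ U).Countable) ∧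
    ∀ c₀ ∈ S, ∀ U ∈ 𝓝 c₀, ∃ r : ℂ, ∃ V ⊆ U,
      V = mandelbrotSet \ connectedComponentIn (mandelbrotSet \ {r}) 0 ∧ IsCompact V ∧
      IsConnected V ∧ V ∈ 𝓝[mandelbrotSet] c₀ := by
  subst hA
  have hlog : 0 < Real.log 2 := Real.log_pos (by norm_num)
  let S : Set ℂ := {c₀ | c₀ ∈ mandelbrotSet ∧ ∀ N : ℕ, ∃ (n p q : ℕ) (r b : ℂ), N ≤ n ∧
      0 < n ∧ 0 < p ∧ p < q ∧ Nat.Coprime p q ∧ (fun z : ℂ => z ^ 2 + r)^[n] b = b ∧
      deriv ((fun z : ℂ => z ^ 2 + r)^[n]) b = Complex.exp (2 * Real.pi * (p / q) * Complex.I) ∧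
      c₀ ≠ r ∧ c₀ ∉ connectedComponentIn (mandelbrotSet \ {r}) 0 ∧
      (16 * Real.log 2 * (n : ℝ) ^ 2 * q ≤ (min (p : ℝ) (q - p)) ^ 2 ∨
        C₂ * (n : ℝ) ^ (2 * k + 2) ≤ q)}
  have hP6 : ∀ c₀ ∈ mandelbrotSet, NV.Prop6 (1 / 4) c₀ → c₀ ∈ S := by
    intro c₀ h1 h2
    refine ⟨h1, fun N => ?_⟩
    obtain ⟨n, p, q, r, b, h3, h4, h5, h6, h7, h8, h9, h10, h11, h12⟩ := h2 N
    exact ⟨n, p, q, r, b, h3, h4, h5, h6, h7, h8, (deriv_eq_mulG n r b).trans h9,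
      h11.symm, h12, Or.inl (by linarith)⟩
  have hbasis : ∀ c₀ ∈ S, c₀ ∈ frontier mandelbrotSet ∧ ∀ U ∈ 𝓝 c₀, ∃ r : ℂ, ∃ V ⊆ U,
      V = mandelbrotSet \ connectedComponentIn (mandelbrotSet \ {r}) 0 ∧ IsCompact V ∧
      IsConnected V ∧ V ∈ 𝓝[mandelbrotSet] c₀ := by
    rintro c₀ ⟨h1, h2⟩
    refine basis_root hC₀ hRP h1 fun N => ?_
    obtain ⟨n, p, q, r, b, h3, h4, h5, h6, h7, h8, h9, h10, h11, h12⟩ := h2 N
    refine ⟨n, p, q, r, b, h3, h4, h5, h6, h7, h8, (deriv_eq_mulG n r b).symm.trans h9,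
      h10.symm, fun h13 => h11 ?_, ?_⟩
    · rw [← h13]
      exact mem_connectedComponentIn ⟨h1, h10⟩
    · rcases h12 with h12 | h12
      · exact Or.inl h12
      · right
        exact (mul_le_mul_of_nonneg_right hC₂ (by positivity)).trans h12
  refine ⟨S, fun c₀ hc₀ => (hbasis c₀ hc₀).1, fun c₀ => Iff.rfl, ?_, fun U hU hne hS => ?_,
    fun c₀ hc₀ => (hbasis c₀ hc₀).2⟩
  · obtain ⟨G, hG, hGf, hGc, hGp⟩ := Dens.exists_gdelta_prop6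
    exact ⟨G, fun c hc => hP6 c (inputs34.cpt.isClosed.frontier_subset (hGf hc)) (hGp c hc),
      hG, hGc⟩
  · refine Dens.uncountable_local hU hne (hS.mono ?_)
    rintro c₀ ⟨⟨h1, hcU⟩, h2⟩
    exact ⟨hP6 c₀ h1 h2, hcU⟩

end Pool.Agent.Work.MLC

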