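import Pool.Agent.Work.MLC.SatAll60

set_option autoImplicit false

/-! # The section of the multiplier over the good disc is univalent (helper60) -/

namespace Pool.Agent.Work.MLC.Sat

open Filter Topology Metric Set Complex

section

variable {n : ℕ} {J : Lab n}

/-- `NJ` is open in the set of periodic pairs -/
lemma nj_nhds (hn : 0 < n) {y : ℂ × ℂ} (hy : y ∈ NJ n J) :
    ∀ᶠ s in 𝓝 y, s ∈ Per n → s ∈ NJ n J := by
  obtain ⟨h1, h2, h3, h4⟩ := hy
  filter_upwards [FF_nhds_gen hn h1 h2 h3,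
    (continuous_mul' n).norm.continuousAt.eventually (lt_mem_nhds h2)] with s h5 h6 h7
  obtain ⟨h8, h9⟩ := h5 h7
  exact ⟨h7, h6, h9, h8.trans h4⟩

/-- near a neutral pair there are exterior parameters -/
lemma ext_of_neutral (hn : 0 < n) {y : ℂ × ℂ} (hy : y ∈ Per n) (h : ‖mul n y‖ = 1) :
    ∃ᶠ c in 𝓝 y.1, c ∉ MM := by
  by_cases h1 : mul n y = 1
  · exact parab_frontier s3_neutral hn hy h1
  · obtain ⟨φ, h2, h3, h4⟩ := exists_phi h h1
    exact (s3_neutral n y φ hn hy h2 h3 h4).2.2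

/-- near a limit of `NJ` over `MM`, with multiplier different from `1`, all repelling pairs are in
`NJ` -/
lemma closure_nj_nhds (hn : 0 < n) {y : ℂ × ℂ} (hM : y.1 ∈ MM) (hcl : y ∈ closure (NJ n J))
    (h1 : mul n y ≠ 1) : ∀ᶠ s in 𝓝 y, s ∈ Per n → 1 < ‖mul n s‖ → s ∈ NJ n J := by
  obtain ⟨h2, h3⟩ := closure_per hcl
  rcases h3.lt_or_eq with h4 | h4
  · have h5 := s3_closed n J y hn h2 h4 hM hcl
    filter_upwards [nj_nhds hn h5] with s h6 h7 _
    exact h6 h7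
  · obtain ⟨φ, h5, h6, h7⟩ := exists_phi h4.symm h1
    obtain ⟨⟨J', hJ'⟩, -, -⟩ := s3_neutral n y φ hn h2 h5 h6 h7
    have hJ : J' = J := by
      obtain ⟨s, h8, h9⟩ := ((mem_closure_iff_frequently.1 hcl).and_eventually hJ').exists
      have h10 := h9 h8.1 h8.2.1
      rw [← h10.2.2.2, h8.2.2.2]
    subst hJ
    exact hJ'

/-- over a limit of exterior parameters at most one pair is a limit of `NJ` -/
lemma closure_unique (hn : 0 < n) {c z z' : ℂ} (hM : c ∈ MM) (hfr : ∃ᶠ c' in 𝓝 c, c' ∉ MM)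
    (h : (c, z) ∈ closure (NJ n J)) (h' : (c, z') ∈ closure (NJ n J)) (h1 : mul n (c, z) ≠ 1)
    (h1' : mul n (c, z') ≠ 1) : z = z' := by
  by_contra hne
  obtain ⟨h2, -⟩ := closure_per h
  obtain ⟨h2', -⟩ := closure_per h'
  obtain ⟨β, hβa, hβ0, hβ⟩ := chart h2 h1
  obtain ⟨β', hβa', hβ0', hβ'⟩ := chart h2' h1'
  simp only at hβ0 hβ0' hβa hβa'
  have t1 : Tendsto (fun c' => ((c', β c') : ℂ × ℂ)) (𝓝 c) (𝓝 (c, z)) := by
    have := hβa.continuousAt.tendsto
    rw [hβ0] at this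
    exact tendsto_id.prodMk_nhds this
  have t1' : Tendsto (fun c' => ((c', β' c') : ℂ × ℂ)) (𝓝 c) (𝓝 (c, z')) := by
    have := hβa'.continuousAt.tendsto
    rw [hβ0'] at this
    exact tendsto_id.prodMk_nhds this
  have e3 : ∀ᶠ c' in 𝓝 c, β c' ≠ β' c' := by
    have g1 : Tendsto β (𝓝 c) (𝓝 z) := by rw [← hβ0]; exact hβa.continuousAt
    have g1' : Tendsto β' (𝓝 c) (𝓝 z') := by rw [← hβ0']; exact hβa'.continuousAt
    filter_upwards [(g1.sub g1').eventually_ne (sub_ne_zero.2 hne)] with c' h9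
    exact sub_ne_zero.1 h9
  obtain ⟨c', k0, k1, k2, k3, k4, k5⟩ := (hfr.and_eventually ((t1.eventually hβ).and
    ((t1'.eventually hβ').and ((t1.eventually (closure_nj_nhds hn hM h h1)).and
      ((t1'.eventually (closure_nj_nhds hn hM h' h1')).and e3))))).exists
  have p1 : (c', β c') ∈ Per n := k1.2 rfl
  have p1' : (c', β' c') ∈ Per n := k2.2 rfl
  have n1 := k3 p1 (rep13 hn p1 k0)
  have n1' := k4 p1' (rep13 hn p1' k0)
  exact k5 (s2_unique n c' _ _ hn k0 p1 p1' n1.2.2.1 n1'.2.2.1 (by rw [n1.2.2.2, n1'.2.2.2]))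

/-- compactness -/
lemma fst_closure {X : Type*} [PseudoMetricSpace X] [ProperSpace X] {T : Set (ℂ × X)}
    (hT : Bornology.IsBounded T) {c : ℂ} (hc : c ∈ closure (Prod.fst '' T)) :
    ∃ x, (c, x) ∈ closure T := by
  have h1 : IsCompact (closure T) := hT.isCompact_closure
  have h2 := (h1.image continuous_fst).isClosed
  have h3 : closure (Prod.fst '' T) ⊆ Prod.fst '' closure T :=
    closure_minimal (image_mono subset_closure) h2
  obtain ⟨⟨c', x⟩, h4, rfl⟩ := h3 hc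
  exact ⟨x, h4⟩

/-- two pairs over one parameter -/
def T2 (n : ℕ) (J : Lab n) (V : Set ℂ) : Set (ℂ × ℂ × ℂ) :=
  {t | t.1 ∈ V ∧ (t.1, t.2.1) ∈ NJ n J ∧ (t.1, t.2.2) ∈ NJ n J ∧ t.2.1 ≠ t.2.2}

/-- one pair -/
def T1 (n : ℕ) (J : Lab n) (V : Set ℂ) : Set (ℂ × ℂ) := {t | t.1 ∈ V ∧ t ∈ NJ n J}

lemma MM_norm {c : ℂ} (hc : c ∈ MM) : c ∈ closedBall (0 : ℂ) 102 := by
  rw [mem_closedBall_zero_iff]
  have h1 := norm_le_of_G_le (mem_MM_iff_le.1 hc)
  rw [Real.exp_zero] at h1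
  linarith

lemma T2_bdd (hn : 0 < n) {V : Set ℂ} (hV : V ⊆ MM) : Bornology.IsBounded (T2 n J V) := by
  refine (((isBounded_closedBall (x := (0 : ℂ)) (r := 102)).prod
    ((isBounded_closedBall (x := (0 : ℂ)) (r := 103)).prod
      (isBounded_closedBall (x := (0 : ℂ)) (r := 103))))).subset ?_
  rintro ⟨c, z, z'⟩ ⟨h1, h2, h3, -⟩
  have h4 := MM_norm (hV h1)
  have h5 := norm_le_of_per hn h2.1
  have h6 := norm_le_of_per hn h3.1
  have h7 := mem_closedBall_zero_iff.1 h4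
  simp only at h5 h6 h7
  exact ⟨h4, mem_closedBall_zero_iff.2 (by simp only; linarith),
    mem_closedBall_zero_iff.2 (by simp only; linarith)⟩

lemma T1_bdd (hn : 0 < n) {V : Set ℂ} (hV : V ⊆ MM) : Bornology.IsBounded (T1 n J V) := by
  refine ((isBounded_closedBall (x := (0 : ℂ)) (r := 102)).prod
    (isBounded_closedBall (x := (0 : ℂ)) (r := 103))).subset ?_
  rintro ⟨c, z⟩ ⟨h1, h2⟩
  have h4 := MM_norm (hV h1)
  have h5 := norm_le_of_per hn h2.1
  have h7 := mem_closedBall_zero_iff.1 h4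
  simp only at h5 h7
  exact ⟨h4, mem_closedBall_zero_iff.2 (by simp only; linarith)⟩

/-- limits of two different pairs are different, unless the multiplier is `1` -/
lemma T2_limit {V : Set ℂ} {c z z' : ℂ} (h : (c, z, z') ∈ closure (T2 n J V)) :
    (c, z) ∈ closure (NJ n J) ∧ (c, z') ∈ closure (NJ n J) ∧
      (mul n (c, z) ≠ 1 → z ≠ z') := by
  have c1 : Continuous fun t : ℂ × ℂ × ℂ => ((t.1, t.2.1) : ℂ × ℂ) := by fun_prop
  have c2 : Continuous fun t : ℂ × ℂ × ℂ => ((t.1, t.2.2) : ℂ × ℂ) := by fun_prop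
  have h1 : (c, z) ∈ closure (NJ n J) :=
    map_mem_closure (f := fun t : ℂ × ℂ × ℂ => ((t.1, t.2.1) : ℂ × ℂ)) c1 h fun t ht => ht.2.1
  have h2 : (c, z') ∈ closure (NJ n J) :=
    map_mem_closure (f := fun t : ℂ × ℂ × ℂ => ((t.1, t.2.2) : ℂ × ℂ)) c2 h fun t ht => ht.2.2.1
  refine ⟨h1, h2, fun h3 h4 => ?_⟩
  subst h4
  obtain ⟨β, -, -, hβ⟩ := chart (closure_per h1).1 h3
  have t1 := c1.tendsto (c, z, z)
  have t2 := c2.tendsto (c, z, z)
  obtain ⟨t, k1, k2, k3⟩ := ((mem_closure_iff_frequently.1 h).and_eventually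
    ((t1.eventually hβ).and (t2.eventually hβ))).exists
  exact k1.2.2.2 ((k2.1 k1.2.1.1).symm.trans (k3.1 k1.2.2.1.1))

lemma nj_of_interior (hn : 0 < n) {y : ℂ × ℂ} {V : Set ℂ} (hV : IsOpen V) (hVM : V ⊆ MM)
    (hy : y.1 ∈ V) (hcl : y ∈ closure (NJ n J)) : y ∈ NJ n J := by
  obtain ⟨h2, h3⟩ := closure_per hcl
  refine s3_closed n J y hn h2 (lt_of_le_of_ne h3 fun h4 => ?_) (hVM hy) hcl
  obtain ⟨c, h5, h6⟩ := ((ext_of_neutral hn h2 h4.symm).and_eventually (hV.mem_nhds hy)).exists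
  exact h5 (hVM h6)

/-- the continuation of a pair in `NJ` -/
lemma nj_cont (hn : 0 < n) {c z : ℂ} (h : (c, z) ∈ NJ n J) :
    ∃ β : ℂ → ℂ, ContinuousAt β c ∧ β c = z ∧ ∀ᶠ c' in 𝓝 c, (c', β c') ∈ NJ n J := by
  have h1 : mul n (c, z) ≠ 1 := by
    intro h0
    have := h.2.1
    rw [h0] at this
    simp at this
  obtain ⟨β, hβa, hβ0, hβ⟩ := chart h.1 h1
  simp only at hβ0 hβa
  have t1 : Tendsto (fun c' => ((c', β c') : ℂ × ℂ)) (𝓝 c) (𝓝 (c, z)) := by
    have := hβa.continuousAt.tendsto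
    rw [hβ0] at this
    exact tendsto_id.prodMk_nhds this
  refine ⟨β, hβa.continuousAt, hβ0, ?_⟩
  filter_upwards [t1.eventually hβ, t1.eventually (nj_nhds hn h)] with c' k1 k2
  exact k2 (k1.2 rfl)

/-- the existence of a pair propagates over open connected subsets of `MM` -/
theorem propagate1 (hn : 0 < n) {V : Set ℂ} (hV : IsOpen V) (hc : IsPreconnected V) (hVM : V ⊆ MM)
    (hne : (T1 n J V).Nonempty) : V ⊆ Prod.fst '' T1 n J V := by
  refine hc.subset_of_closure_inter_subset ?_ ?_ ?_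
  · rw [isOpen_iff_mem_nhds]
    rintro _ ⟨⟨c, z⟩, ⟨h1, h2⟩, rfl⟩
    obtain ⟨β, -, -, h3⟩ := nj_cont hn h2
    filter_upwards [h3, hV.mem_nhds h1] with c' h4 h5
    exact ⟨(c', β c'), ⟨h5, h4⟩, rfl⟩
  · obtain ⟨t, ht⟩ := hne
    exact ⟨t.1, ht.1, t, ht, rfl⟩
  · rintro c ⟨h1, h2⟩
    obtain ⟨z, hz⟩ := fst_closure (T1_bdd hn hVM) h1
    have h3 : (c, z) ∈ closure (NJ n J) := closure_mono (fun t ht => ht.2) hz
    exact ⟨(c, z), ⟨h2, nj_of_interior hn hV hVM h2 h3⟩, rfl⟩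

/-- the existence of two pairs propagates over open connected subsets of `MM` -/
theorem propagate2 (hn : 0 < n) {V : Set ℂ} (hV : IsOpen V) (hc : IsPreconnected V) (hVM : V ⊆ MM)
    (hne : (T2 n J V).Nonempty) : V ⊆ Prod.fst '' T2 n J V := by
  refine hc.subset_of_closure_inter_subset ?_ ?_ ?_
  · rw [isOpen_iff_mem_nhds]
    rintro _ ⟨⟨c, z, z'⟩, ⟨h1, h2, h2', h2''⟩, rfl⟩
    obtain ⟨β, g1, g2, h3⟩ := nj_cont hn h2
    obtain ⟨β', g1', g2', h3'⟩ := nj_cont hn h2'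
    have e3 : ∀ᶠ c' in 𝓝 c, β c' ≠ β' c' := by
      have g3 := g1.tendsto
      have g3' := g1'.tendsto
      rw [g2] at g3
      rw [g2'] at g3'
      filter_upwards [(g3.sub g3').eventually_ne (sub_ne_zero.2 h2'')] with c' h9
      exact sub_ne_zero.1 h9
    filter_upwards [h3, h3', e3, hV.mem_nhds h1] with c' h4 h4' h5 h6
    exact ⟨(c', β c', β' c'), ⟨h6, h4, h4', h5⟩, rfl⟩
  · obtain ⟨t, ht⟩ := hne
    exact ⟨t.1, ht.1, t, ht, rfl⟩
  · rintro c ⟨h1, h2⟩
    obtain ⟨⟨z, z'⟩, hz⟩ := fst_closure (T2_bdd hn hVM) h1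
    obtain ⟨h3, h4, h5⟩ := T2_limit hz
    have h6 := nj_of_interior (y := (c, z)) hn hV hVM h2 h3
    have h7 := nj_of_interior (y := (c, z')) hn hV hVM h2 h4
    refine ⟨(c, z, z'), ⟨h2, h6, h7, h5 fun h0 => ?_⟩, rfl⟩
    have := h6.2.1
    rw [h0] at this
    simp at this

/-- the frontier of a bounded nonempty open set of the plane is infinite -/
lemma frontier_infinite {V : Set ℂ} (hV : IsOpen V) (hne : V.Nonempty)
    (hb : Bornology.IsBounded V) : (frontier V).Infinite := by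
  intro hF
  have h1 : IsConnected (frontier V)ᶜ :=
    hF.countable.isConnected_compl_of_one_lt_rank (by simp)
  have h2 : V ∩ frontier V = ∅ := hV.inter_frontier_eq
  have h3 : (frontier V)ᶜ ⊆ V := by
    refine h1.isPreconnected.subset_of_closure_inter_subset hV ?_ ?_
    · obtain ⟨x, hx⟩ := hne
      refine ⟨x, fun h4 => ?_, hx⟩
      have : x ∈ V ∩ frontier V := ⟨hx, h4⟩
      rw [h2] at this
      exact this
    · rintro x ⟨h4, h5⟩
      by_contra h6
      apply h5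
      rw [hV.frontier_eq]
      exact ⟨h4, h6⟩
  have h4 : (univ : Set ℂ) ⊆ V ∪ frontier V := by
    intro x _
    by_cases h5 : x ∈ frontier V
    · exact Or.inr h5
    · exact Or.inl (h3 h5)
  exact NormedSpace.unbounded_univ ℝ ℂ ((hb.union hF.isBounded).subset h4)

/-- **a label belongs to at most one pair over each parameter** -/
theorem nj_unique (hn : 0 < n) {c z z' : ℂ} (h : (c, z) ∈ NJ n J) (h' : (c, z') ∈ NJ n J) :
    z = z' := by
  by_cases hM : c ∈ MM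
  swap
  · exact s2_unique n c z z' hn hM h.1 h'.1 h.2.2.1 h'.2.2.1 (by rw [h.2.2.2, h'.2.2.2])
  have hne1 : ∀ {c z : ℂ}, (c, z) ∈ NJ n J → mul n (c, z) ≠ 1 := by
    intro c z h h0
    have := h.2.1
    rw [h0] at this
    simp at this
  by_cases hfr : ∃ᶠ c' in 𝓝 c, c' ∉ MM
  · exact closure_unique hn hM hfr (subset_closure h) (subset_closure h') (hne1 h) (hne1 h')
  by_contra hne
  have hint : c ∈ interior MM := by
    rw [mem_interior_iff_mem_nhds]
    rw [not_frequently] at hfr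
    filter_upwards [hfr] with c' h1
    exact not_not.1 h1
  set V := connectedComponentIn (interior MM) c with hV
  have hVo : IsOpen V := isOpen_interior.connectedComponentIn
  have hVc : IsPreconnected V := isPreconnected_connectedComponentIn
  have hVM : V ⊆ MM := (connectedComponentIn_subset _ _).trans interior_subset
  have hcV : c ∈ V := mem_connectedComponentIn hint
  have h1 := propagate2 hn hVo hVc hVM ⟨(c, z, z'), hcV, h, h', hne⟩
  have hVb : Bornology.IsBounded V := (isBounded_closedBall (x := (0 : ℂ)) (r := 102)).subset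
    fun c' hc' => MM_norm (hVM hc')
  obtain ⟨c₁, h2, h3⟩ := (frontier_infinite hVo ⟨c, hcV⟩ hVb).exists_notMem_finite
    (NV.finite_par hn)
  have h4 : c₁ ∈ closure V := frontier_subset_closure h2
  have h5 : c₁ ∈ MM := closure_minimal hVM isClosed_MM h4
  have h6 : c₁ ∉ V := by
    rw [hVo.frontier_eq] at h2
    exact h2.2
  have h7 : c₁ ∉ interior MM := by
    intro h8
    have h9 : IsOpen (connectedComponentIn (interior MM) c₁) :=
      isOpen_interior.connectedComponentIn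
    obtain ⟨c₂, h10, h11⟩ := mem_closure_iff.1 h4 _ h9 (mem_connectedComponentIn h8)
    apply h6
    have h12 := connectedComponentIn_eq h10
    have h13 := connectedComponentIn_eq h11
    rw [hV, h13, ← h12]
    exact mem_connectedComponentIn h8
  have h8 : ∃ᶠ c' in 𝓝 c₁, c' ∉ MM := by
    by_contra h9
    rw [not_frequently] at h9
    apply h7
    rw [mem_interior_iff_mem_nhds]
    filter_upwards [h9] with c' h10
    exact not_not.1 h10
  obtain ⟨⟨w, w'⟩, hw⟩ := fst_closure (T2_bdd hn hVM) (closure_mono h1 h4)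
  obtain ⟨k1, k2, k3⟩ := T2_limit hw
  have k4 : mul n (c₁, w) ≠ 1 := fun h0 => h3 ⟨w, (closure_per k1).1, h0⟩
  have k5 : mul n (c₁, w') ≠ 1 := fun h0 => h3 ⟨w', (closure_per k2).1, h0⟩
  exact k3 k4 (closure_unique hn h5 h8 k1 k2 k4 k5)

end

section

variable {D : Dat}

/-- the label of the parent -/
noncomputable def J0 (D : Dat) : Lab D.m := lab D.m D.tm D.w

lemma σ_mem_NJ (hP : D.Par) (hC : D.Cir) {L : ℂ} (hL : L ∈ D.B) (hre : 0 < L.re) :
    D.σ L ∈ NJ D.m (J0 D) := by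
  obtain ⟨h1, h2⟩ := hP.sec L hL
  obtain ⟨h3, h4⟩ := hP.lab L hL hre
  have h5 : Circ.nu D.w D.m D.tm = D.k₀ + D.x := (hC.plateau D.tm).2 ⟨le_refl _, hC.lt.le⟩
  have hx0 : (0 : ℝ) < D.x := by exact_mod_cast hP.x_pos
  have hx1 : (D.x : ℝ) < 1 := by exact_mod_cast hP.x_lt
  refine ⟨h1, ?_, h3, h4 D.tm (by rw [h5]; linarith) (by rw [h5]; linarith)⟩
  rw [h2, Complex.norm_exp]
  exact Real.one_lt_exp_iff.2 hre

/-- the multiplier determines the point of the good disc -/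
lemma eq_of_exp_eq (hP : D.Par) {L L' : ℂ} (hL : L ∈ D.B) (hL' : L' ∈ D.B)
    (h : exp L = exp L') : L = L' := by
  rw [Complex.exp_eq_exp_iff_exists_int] at h
  obtain ⟨k, hk⟩ := h
  have h1 : ‖L - L'‖ < 2 * Real.pi := by
    have h2 := mem_ball.1 hL
    have h3 := mem_ball.1 hL'
    rw [dist_eq_norm] at h2 h3
    have h4 : gR D.m D.x ≤ 1 / 4 := by
      unfold gR
      have hm : (1 : ℝ) ≤ D.m := by exact_mod_cast hP.m_pos
      have hx0 : (0 : ℝ) < D.x := by exact_mod_cast hP.x_pos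
      have hx1 : (D.x : ℝ) < 1 := by exact_mod_cast hP.x_lt
      have h5 : 0 < min (D.x : ℝ) (1 - D.x) := lt_min hx0 (by linarith)
      have h6 : min (D.x : ℝ) (1 - D.x) ≤ 1 := (min_le_left _ _).trans hx1.le
      have h7 : (min (D.x : ℝ) (1 - D.x)) ^ 2 ≤ 1 := pow_le_one₀ h5.le h6
      rw [div_le_iff₀ (by linarith)]
      nlinarith
    have h5 : ‖L - L'‖ ≤ ‖L - D.a‖ + ‖L' - D.a‖ := by
      have : L - L' = (L - D.a) - (L' - D.a) := by ring
      rw [this]
      exact norm_sub_le _ _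
    linarith [Real.pi_gt_three]
  have h2 : L - L' = k * (2 * Real.pi * I) := by rw [hk]; ring
  rw [h2, norm_mul, norm_mul, norm_mul, Complex.norm_I, mul_one] at h1
  simp only [Complex.norm_intCast, Complex.norm_ofNat, Complex.norm_real, Real.norm_eq_abs,
    abs_of_pos Real.pi_pos] at h1
  have h3 : |(k : ℝ)| < 1 := by
    by_contra h4
    push Not at h4
    nlinarith [Real.pi_pos]
  have h4 : k = 0 := by
    by_contra h5
    have h6 : (1 : ℝ) ≤ |(k : ℝ)| := by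
      have := Int.one_le_abs h5
      exact_mod_cast this
    linarith
  rw [h4] at hk
  simpa using hk

/-- over the attracting half of the good disc no pair has the label of the parent -/
theorem no_nj_left (hP : D.Par) (hC : D.Cir) {L z : ℂ} (hL : L ∈ D.B) (hre : L.re < 0)
    (hz : (D.c L, z) ∈ NJ D.m (J0 D)) : False := by
  have hm := hP.m_pos
  set B' : Set ℂ := {L | L ∈ D.B ∧ L.re < 0} with hB'
  have hB'o : IsOpen B' := isOpen_B.inter (isOpen_lt continuous_re continuous_const)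
  have hB'c : IsPreconnected B' :=
    ((convex_ball _ _).inter (convex_halfSpace_re_lt 0)).isPreconnected
  set V : Set ℂ := D.c '' B' with hV
  have hVo : IsOpen V := by
    rw [isOpen_iff_mem_nhds]
    rintro _ ⟨L', h1, rfl⟩
    rw [← c_map_nhds hP h1.1]
    exact image_mem_map (hB'o.mem_nhds h1)
  have hVc : IsPreconnected V :=
    hB'c.image _ fun L' h1 => (c_contAt hP h1.1).continuousWithinAt
  have hVM : V ⊆ MM := by
    rintro _ ⟨L', h1, rfl⟩
    by_contra h2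
    have := re_pos_of_ext hP h1.1 h2
    linarith [h1.2]
  have hprop := propagate1 (J := J0 D) hm hVo hVc hVM ⟨(D.c L, z), ⟨L, ⟨hL, hre⟩, rfl⟩, hz⟩
  -- a point of the axis
  have hfin := NV.finite_par (m := D.m) hm
  have haB := a_mem_B hP
  have hax : ∃ L₁ ∈ D.B, L₁.re = 0 ∧
      D.c L₁ ∉ {c : ℂ | ∃ b, it c D.m b = b ∧ Pool.Agent.Work.MLC.mul D.m (c, b) = 1} := by
    have h1 : ∀ᶠ L' in 𝓝[≠] D.a, D.c L' ∉
        {c : ℂ | ∃ b, it c D.m b = b ∧ Pool.Agent.Work.MLC.mul D.m (c, b) = 1} := by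
      have h2 : ∀ c₁ ∈ {c : ℂ | ∃ b, it c D.m b = b ∧
          Pool.Agent.Work.MLC.mul D.m (c, b) = 1}, ∀ᶠ L' in 𝓝[≠] D.a, D.c L' ≠ c₁ := by
        intro c₁ _
        exact ((c_diff hP).differentiableAt (isOpen_B.mem_nhds haB)).hasDerivAt.eventually_ne
          (section_deriv_ne_zero (goodB hP) hP.cont hP.sec haB)
      have h3 := (Filter.eventually_all_finite hfin).2 h2
      filter_upwards [h3] with L' h4 h5
      exact h4 _ h5 rfl
    have h2 : Tendsto (fun s : ℝ => D.a + (s : ℂ) * I) (𝓝[≠] 0) (𝓝[≠] D.a) := by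
      refine tendsto_nhdsWithin_of_tendsto_nhds_of_eventually_within _ ?_ ?_
      · have h3 : Continuous fun s : ℝ => D.a + (s : ℂ) * I := by fun_prop
        have h4 := h3.tendsto 0
        simp only [ofReal_zero, zero_mul, add_zero] at h4
        exact h4.mono_left nhdsWithin_le_nhds
      · filter_upwards [self_mem_nhdsWithin] with s hs h3
        have h4 : (s : ℂ) * I = 0 := by
          have h5 : D.a + (s : ℂ) * I = D.a := h3
          linear_combination h5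
        rcases mul_eq_zero.1 h4 with h5 | h5
        · exact hs (by exact_mod_cast h5)
        · exact I_ne_zero h5
    have h3 : ∀ᶠ L' in 𝓝[≠] D.a, L' ∈ D.B :=
      mem_nhdsWithin_of_mem_nhds (isOpen_B.mem_nhds haB)
    obtain ⟨s, h4, h5⟩ := (h2.eventually (h1.and h3)).exists
    refine ⟨_, h5, ?_, h4⟩
    have h6 : D.a.re = 0 := by
      show (axisPt D.x).re = 0
      exact LimbData.axisPt_re D.x
    simp [h6]
  obtain ⟨L₁, h1, h2, h3⟩ := hax
  -- the sequence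
  have h4 : ∀ᶠ s : ℝ in 𝓝[>] 0, L₁ - s ∈ B' := by
    have h5 : Tendsto (fun s : ℝ => L₁ - (s : ℂ)) (𝓝[>] 0) (𝓝 L₁) := by
      have h6 : Continuous fun s : ℝ => L₁ - (s : ℂ) := by fun_prop
      have h7 := h6.tendsto 0
      simp only [ofReal_zero, sub_zero] at h7
      exact h7.mono_left nhdsWithin_le_nhds
    filter_upwards [h5.eventually (isOpen_B.mem_nhds h1), self_mem_nhdsWithin] with s h6 h7
    refine ⟨h6, ?_⟩
    have : (0 : ℝ) < s := h7
    simp [h2, this]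
  obtain ⟨ε, hε, h5⟩ := mem_nhdsGT_iff_exists_Ioo_subset.1 h4
  have hε' : (0 : ℝ) < ε := hε
  set s : ℕ → ℝ := fun k => ε / (k + 2) with hs
  have hs1 : ∀ k, L₁ - (s k : ℂ) ∈ B' := by
    intro k
    apply h5
    have hk : (0 : ℝ) ≤ k := Nat.cast_nonneg k
    refine ⟨by positivity, ?_⟩
    show ε / (k + 2) < ε
    rw [div_lt_iff₀ (by positivity)]
    nlinarith
  have hs2 : Tendsto (fun k => L₁ - (s k : ℂ)) atTop (𝓝 L₁) := by
    have h6 : Tendsto s atTop (𝓝 0) := by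
      have h7 : Tendsto (fun k : ℕ => (k : ℝ) + 2) atTop atTop :=
        tendsto_atTop_add_const_right _ _ tendsto_natCast_atTop_atTop
      exact h7.const_div_atTop ε
    have h7 : Tendsto (fun t : ℝ => L₁ - (t : ℂ)) (𝓝 0) (𝓝 (L₁ - ((0 : ℝ) : ℂ))) :=
      Continuous.tendsto (by fun_prop) 0
    rw [ofReal_zero, sub_zero] at h7
    exact h7.comp h6
  have hz' : ∀ k, ∃ z', (D.c (L₁ - (s k : ℂ)), z') ∈ T1 D.m (J0 D) V := by
    intro k
    obtain ⟨⟨c', z'⟩, h6, h7⟩ := hprop ⟨_, hs1 k, rfl⟩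
    simp only at h7
    subst h7
    exact ⟨z', h6⟩
  choose z' hz' using hz'
  have hcpt : IsCompact (closure (T1 D.m (J0 D) V)) := (T1_bdd hm hVM).isCompact_closure
  obtain ⟨⟨c₁, z₁⟩, h6, φ, h7, h8⟩ := hcpt.tendsto_subseq fun k => subset_closure (hz' k)
  have h9 : c₁ = D.c L₁ := by
    have g1 : Tendsto (fun k => D.c (L₁ - (s (φ k) : ℂ))) atTop (𝓝 (D.c L₁)) :=
      (c_contAt hP h1).tendsto.comp (hs2.comp h7.tendsto_atTop)
    have g2 : Tendsto (fun k => D.c (L₁ - (s (φ k) : ℂ))) atTop (𝓝 c₁) :=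
      (continuous_fst.tendsto _).comp h8
    exact tendsto_nhds_unique g2 g1
  subst h9
  have h10 : (D.c L₁, z₁) ∈ closure (NJ D.m (J0 D)) := closure_mono (fun t ht => ht.2) h6
  have h11 : (D.c L₁, D.b L₁) ∈ closure (NJ D.m (J0 D)) := by
    have g1 : Tendsto (fun t : ℝ => L₁ + (t : ℂ)) (𝓝[>] 0) (𝓝 L₁) := by
      have h6 : Continuous fun s : ℝ => L₁ + (s : ℂ) := by fun_prop
      have h7 := h6.tendsto 0
      simp only [ofReal_zero, add_zero] at h7
      exact h7.mono_left nhdsWithin_le_nhds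
    refine mem_closure_of_tendsto ((σ_contAt hP h1).tendsto.comp g1) ?_
    filter_upwards [g1.eventually (isOpen_B.mem_nhds h1), self_mem_nhdsWithin] with t h6 h7
    refine σ_mem_NJ hP hC h6 ?_
    have : (0 : ℝ) < t := h7
    simp [h2, this]
  have h12 : Pool.Agent.Work.MLC.mul D.m (D.c L₁, z₁) ≠ 1 := fun h0 =>
    h3 ⟨z₁, (closure_per h10).1, h0⟩
  have h13 : Pool.Agent.Work.MLC.mul D.m (D.c L₁, D.b L₁) ≠ 1 := fun h0 =>
    h3 ⟨D.b L₁, (closure_per h11).1, h0⟩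
  have h14 : D.c L₁ ∈ MM := by
    by_contra h0
    have := re_pos_of_ext hP h1 h0
    linarith
  have h15 : ∃ᶠ c' in 𝓝 (D.c L₁), c' ∉ MM := by
    refine ext_of_neutral (y := (D.c L₁, D.b L₁)) hm (hP.sec L₁ h1).1 ?_
    have := (hP.sec L₁ h1).2
    have h16 : Pool.Agent.Work.MLC.mul D.m (D.c L₁, D.b L₁) = exp L₁ := this
    rw [h16, Complex.norm_exp, h2, Real.exp_zero]
  have h16 : z₁ = D.b L₁ := closure_unique hm h14 h15 h10 h11 h12 h13
  subst h16
  -- contradiction: near the root the pairs are the attracting ones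
  obtain ⟨β, -, -, hβ⟩ := chart (closure_per h11).1 h13
  have h17 : Tendsto (fun k => D.σ (L₁ - (s (φ k) : ℂ))) atTop (𝓝 (D.c L₁, D.b L₁)) :=
    (σ_contAt hP h1).tendsto.comp (hs2.comp h7.tendsto_atTop)
  obtain ⟨k, k1, k2⟩ := ((h8.eventually hβ).and (h17.eventually hβ)).exists
  have k3 := k1.1 (hz' (φ k)).2.1
  have hBk := (hs1 (φ k)).1
  have k4 := k2.1 (hP.sec _ hBk).1
  have k5 : z' (φ k) = D.b (L₁ - (s (φ k) : ℂ)) := by
    have g1 : β (D.c (L₁ - (s (φ k) : ℂ))) = z' (φ k) := k3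
    have g2 : β (D.c (L₁ - (s (φ k) : ℂ))) = D.b (L₁ - (s (φ k) : ℂ)) := k4
    exact g1.symm.trans g2
  have k6 := (hz' (φ k)).2.2.1
  rw [k5] at k6
  have k7 : Pool.Agent.Work.MLC.mul D.m (D.c (L₁ - (s (φ k) : ℂ)), D.b (L₁ - (s (φ k) : ℂ))) =
      exp (L₁ - (s (φ k) : ℂ)) := (hP.sec _ hBk).2
  rw [k7, Complex.norm_exp, Real.one_lt_exp_iff] at k6
  exact absurd (hs1 (φ k)).2 (not_lt.2 k6.le)

/-- **the parameter is univalent on the good disc** -/
theorem c_injOn (hP : D.Par) (hC : D.Cir) : InjOn D.c D.B := by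
  have hm := hP.m_pos
  -- off the axis
  have key : ∀ L ∈ D.B, ∀ L' ∈ D.B, L.re ≠ 0 → L'.re ≠ 0 → D.c L = D.c L' → L = L' := by
    intro L hL L' hL' h1 h1' h
    have hs := (hP.sec L hL)
    have hs' := (hP.sec L' hL')
    rcases lt_or_gt_of_ne h1 with h2 | h2 <;> rcases lt_or_gt_of_ne h1' with h2' | h2'
    · have h3 : ‖Pool.Agent.Work.MLC.mul D.m (D.c L, D.b L)‖ < 1 := by
        have : Pool.Agent.Work.MLC.mul D.m (D.c L, D.b L) = exp L := hs.2
        rw [this, Complex.norm_exp]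
        exact Real.exp_lt_one_iff.2 h2
      have h3' : ‖Pool.Agent.Work.MLC.mul D.m (D.c L, D.b L')‖ < 1 := by
        have : Pool.Agent.Work.MLC.mul D.m (D.c L', D.b L') = exp L' := hs'.2
        rw [h, this, Complex.norm_exp]
        exact Real.exp_lt_one_iff.2 h2'
      have h4 : it (D.c L) D.m (D.b L) = D.b L := hs.1
      have h4' : it (D.c L) D.m (D.b L') = D.b L' := by
        rw [h]; exact hs'.1
      obtain ⟨i, hi⟩ := s7_fatou (D.c L) (D.b L) (D.b L') D.m D.m hm hm h4 h3 h4' h3'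
      refine eq_of_exp_eq hP hL hL' ?_
      have h5 : Pool.Agent.Work.MLC.mul D.m (D.c L, D.b L) = exp L := hs.2
      have h6 : Pool.Agent.Work.MLC.mul D.m (D.c L', D.b L') = exp L' := hs'.2
      rw [← h5, ← h6, ← h, hi]
      exact (mul_it' (n := D.m) (c := D.c L) (z := D.b L) h4 i).symm
    · exfalso
      refine no_nj_left hP hC hL h2 (z := D.b L') ?_
      rw [h]
      exact σ_mem_NJ hP hC hL' h2'
    · exfalso
      refine no_nj_left hP hC hL' h2' (z := D.b L) ?_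
      rw [← h]
      exact σ_mem_NJ hP hC hL h2
    · have h3 : (D.c L, D.b L) ∈ NJ D.m (J0 D) := σ_mem_NJ hP hC hL h2
      have h3' : (D.c L, D.b L') ∈ NJ D.m (J0 D) := by
        rw [h]; exact σ_mem_NJ hP hC hL' h2'
      have h4 := nj_unique hm h3 h3'
      refine eq_of_exp_eq hP hL hL' ?_
      have h5 : Pool.Agent.Work.MLC.mul D.m (D.c L, D.b L) = exp L := hs.2
      have h6 : Pool.Agent.Work.MLC.mul D.m (D.c L', D.b L') = exp L' := hs'.2
      rw [← h5, ← h6, ← h, h4]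
  -- perturbation
  have hne : ∀ L : ℂ, ∃ᶠ L' in 𝓝 L, L'.re ≠ 0 := by
    intro L
    have h1 : Tendsto (fun t : ℝ => L + (t : ℂ)) (𝓝[≠] 0) (𝓝 L) := by
      have h6 : Continuous fun s : ℝ => L + (s : ℂ) := by fun_prop
      have h7 := h6.tendsto 0
      simp only [ofReal_zero, add_zero] at h7
      exact h7.mono_left nhdsWithin_le_nhds
    refine h1.frequently (Eventually.frequently ?_)
    by_cases h0 : L.re = 0
    · filter_upwards [self_mem_nhdsWithin] with t ht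
      simpa [h0] using ht
    · have h2 : ∀ᶠ t : ℝ in 𝓝[≠] 0, t ≠ -L.re :=
        mem_nhdsWithin_of_mem_nhds (isOpen_ne.mem_nhds (by
          intro h3
          exact h0 (by linarith)))
      filter_upwards [h2] with t ht h3
      apply ht
      simp at h3
      linarith
  intro L hL L' hL' h
  by_contra hLL
  obtain ⟨N, N', hN, hN', hLN, hLN', hd⟩ := t2_separation hLL
  have o1 : IsOpen (N ∩ D.B) := hN.inter isOpen_B
  have o1' : IsOpen (N' ∩ D.B) := hN'.inter isOpen_B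
  have hne' : IsOpen {L : ℂ | L.re ≠ 0} := isOpen_ne_fun continuous_re continuous_const
  have g1 : D.c '' (N' ∩ D.B) ∈ 𝓝 (D.c L) := by
    rw [h, ← c_map_nhds hP hL']
    exact image_mem_map (o1'.mem_nhds ⟨hLN', hL'⟩)
  have e1 : ∀ᶠ x in 𝓝 L, x ∈ N ∩ D.B := o1.mem_nhds ⟨hLN, hL⟩
  have e2 : ∀ᶠ x in 𝓝 L, D.c x ∈ D.c '' (N' ∩ D.B) := (c_contAt hP hL) g1
  obtain ⟨L₁, a1, a2, a3⟩ := ((hne L).and_eventually (e1.and e2)).exists
  obtain ⟨L₁', a4, a5⟩ := a3
  have g2 : D.c '' ((N ∩ D.B) ∩ {L : ℂ | L.re ≠ 0}) ∈ 𝓝 (D.c L₁') := by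
    rw [a5, ← c_map_nhds hP a2.2]
    exact image_mem_map ((o1.inter hne').mem_nhds ⟨a2, a1⟩)
  have e3 : ∀ᶠ x in 𝓝 L₁', x ∈ N' ∩ D.B := o1'.mem_nhds a4
  have e4 : ∀ᶠ x in 𝓝 L₁', D.c x ∈ D.c '' ((N ∩ D.B) ∩ {L : ℂ | L.re ≠ 0}) :=
    (c_contAt hP a4.2) g2
  obtain ⟨L₂', b1, b2, b3⟩ := ((hne L₁').and_eventually (e3.and e4)).exists
  obtain ⟨L₂, ⟨b4, b5⟩, b6⟩ := b3
  have b7 := key L₂ b4.2 L₂' b2.2 b5 b1 b6
  rw [← b7] at b2
  exact (Set.disjoint_left.1 hd) b4.1 b2.1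

end

end Pool.Agent.Work.MLC.Sat
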