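import Pool.Agent.Work.MLC.RootCo60
import Pool.Agent.Work.MLC.Univ60

set_option autoImplicit false

/-! # The multiplier coordinate of a satellite component about its root: the theorem (helper60) -/

namespace Pool.Agent.Work.MLC.Sat

open Filter Topology Metric Set Complex

lemma perN_of {n : ℕ} {c z : ℂ} (hn : 0 < n) (h1 : it c n z = z)
    (h2 : ∀ d, 0 < d → d < n → it c d z ≠ z) : PerN n c z := by
  refine ⟨hn, ?_⟩
  have h3 : Function.IsPeriodicPt (f c) n z := h1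
  have h4 := h3.minimalPeriod_le hn
  have h5 := h3.minimalPeriod_pos hn
  have h6 : it c (Function.minimalPeriod (f c) z) z = z := Function.iterate_minimalPeriod
  by_contra hne
  exact h2 _ h5 (lt_of_le_of_ne h4 hne) h6

/-- everything about the coordinate -/
structure RootC (m : ℕ) (x : ℚ) (n : ℕ) (r₀ b₀ : ℂ) (V : Set ℂ) (g β e : ℂ → ℂ) : Prop where
  hyp : HypComp n V
  clos : (r₀, b₀) ∈ closure (AttW n V)
  g_diff : DifferentiableOn ℂ g (ball 0 (cR n))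
  β_diff : DifferentiableOn ℂ β (ball 0 (cR n))
  e_diff : DifferentiableOn ℂ e (ball 0 (cR n))
  g_ne : ∀ ℓ ∈ ball (0 : ℂ) (cR n), deriv g ℓ ≠ 0
  g_inj : InjOn g (ball 0 (cR n))
  inj : InjOn e (ball 0 (cR n))
  g_zero : g 0 = r₀
  β_zero : β 0 = b₀
  e_zero : e 0 = axisPt x
  e_deriv : deriv e 0 = -1 / (x.den : ℂ) ^ 2
  parent : ∀ ℓ ∈ ball (0 : ℂ) (cR n), PerN m (g ℓ) (β ℓ) ∧ mult m (g ℓ) (β ℓ) = exp (e ℓ)
  child : ∀ ℓ ∈ ball (0 : ℂ) (cR n), ℓ ≠ 0 → ∃ z, PerN n (g ℓ) z ∧ mult n (g ℓ) z = exp ℓ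
  bifur : ∀ ε > 0, ∀ᶠ ℓ in 𝓝[≠] (0 : ℂ), ∃ z, ‖z - b₀‖ < ε ∧ PerN n (g ℓ) z ∧
    mult n (g ℓ) z = exp ℓ
  near : ∀ᶠ s : ℂ × ℂ in 𝓝 (r₀, b₀), ∀ ℓ ∈ ball (0 : ℂ) (cR n), PerN n s.1 s.2 →
    mult n s.1 s.2 = exp ℓ → s.1 = g ℓ
  mem : ∀ ℓ ∈ ball (0 : ℂ) (cR n), ℓ.re < 0 → g ℓ ∈ V
  comp : ∀ s ∈ closure (AttW n V), ∀ ℓ ∈ ball (0 : ℂ) (cR n), ℓ.re ≤ 0 →
    mult n s.1 s.2 = exp ℓ → s.1 = g ℓ
  conn : ∀ s ∈ AttW n V, ∀ t ∈ connectedComponentIn (SX n (cR n)) s, ∀ ℓ ∈ ball (0 : ℂ) (cR n),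
    mult n t.1 t.2 = exp ℓ → t.1 = g ℓ
  only : ∀ V', HypComp n V' → (r₀, b₀) ∈ closure (AttW n V') → V' = V

theorem rootCo {m : ℕ} {x : ℚ} {r₀ b₀ : ℂ} (hm : 0 < m) (hx0 : 0 < x) (hx1 : x < 1)
    (hper : PerN m r₀ b₀) (hmul : mult m r₀ b₀ = exp (axisPt x)) :
    ∃ (V : Set ℂ) (g β e : ℂ → ℂ), RootC m x (m * x.den) r₀ b₀ V g β e := by
  obtain ⟨D, i₀, Z, e, hDm, hDx, hσ, hP, hC, hR, hG, hCh⟩ := theoremS hm hx0 hx1 (perN_it hper)
    (fun d h1 h2 => perN_ne hper h1 h2) hmul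
  subst hDm hDx
  have hn := Par_n_pos hP
  have hcR := cR_pos hn
  have hDn : D.n = D.m * D.x.den := rfl
  rw [← hDn]
  have hc0 : D.c D.a = r₀ := congrArg Prod.fst hσ
  have hb0 : D.b D.a = it r₀ i₀ b₀ := congrArg Prod.snd hσ
  have h0 : (0 : ℂ) ∈ ball (0 : ℂ) (cR D.n) := mem_ball_self hcR
  set g : ℂ → ℂ := fun ℓ => D.c (e ℓ) with hg
  set j : ℕ := D.m * (i₀ + 1) - i₀ with hj
  have hij : i₀ + j = D.m * (i₀ + 1) := by
    have : i₀ ≤ D.m * (i₀ + 1) := by nlinarith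
    omega
  set β : ℂ → ℂ := fun ℓ => it (g ℓ) j (D.b (e ℓ)) with hβ
  have hback : it r₀ j (D.b D.a) = b₀ := by
    rw [hb0, ← it_add, Nat.add_comm, hij]
    exact One49.it_mul_per (perN_it hper) _
  have hg0 : g 0 = r₀ := by
    show D.c (e 0) = r₀
    rw [hCh.zero, hc0]
  have hgan : ∀ ℓ ∈ ball (0 : ℂ) (cR D.n), AnalyticAt ℂ g ℓ := fun ℓ hℓ =>
    ce_analyticAt hP hCh hℓ
  have hgc : ContinuousAt g 0 := (hgan 0 h0).continuousAt
  -- the child cycle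
  have hchild : ∀ ℓ ∈ ball (0 : ℂ) (cR D.n), ℓ ≠ 0 → ∀ z ∈ Z (e ℓ), PerN D.n (g ℓ) z ∧
      mult D.n (g ℓ) z = exp ℓ := by
    intro ℓ hℓ h1 z hz
    have hU := e_mem_U hP hCh hℓ h1
    exact ⟨perN_of hn (hG.fam.fix _ hU z hz).1 (ex_all hP hC hG hU z hz),
      hCh.mul_eq ℓ hℓ h1 z hz⟩
  have hbif : ∀ ε > 0, ∀ᶠ ℓ in 𝓝[≠] (0 : ℂ), ∃ z, ‖z - b₀‖ < ε ∧ PerN D.n (g ℓ) z ∧
      mult D.n (g ℓ) z = exp ℓ := by
    intro ε hε
    have hcont : ContinuousAt (fun s : ℂ × ℂ => it s.1 j s.2) (r₀, D.b D.a) :=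
      (continuous_it j).continuousAt
    have h1 : ∀ᶠ s : ℂ × ℂ in 𝓝 (r₀, D.b D.a), ‖it s.1 j s.2 - b₀‖ < ε := by
      have h2 : ContinuousAt (fun s : ℂ × ℂ => ‖it s.1 j s.2 - b₀‖) (r₀, D.b D.a) :=
        (hcont.sub continuousAt_const).norm
      refine h2.eventually (gt_mem_nhds ?_)
      simp only
      rw [hback, sub_self, norm_zero]
      exact hε
    obtain ⟨δ, hδ, h3⟩ := Metric.eventually_nhds_iff.1 h1
    have h4 := bifurcates hP hC hR hG hCh hδ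
    have h5 : ∀ᶠ ℓ in 𝓝[≠] (0 : ℂ), ‖g ℓ - r₀‖ < δ := by
      have h6 : ContinuousAt (fun ℓ => ‖g ℓ - r₀‖) 0 := (hgc.sub continuousAt_const).norm
      refine (h6.eventually (gt_mem_nhds ?_)).filter_mono nhdsWithin_le_nhds
      show ‖g 0 - r₀‖ < δ
      rw [hg0, sub_self, norm_zero]
      exact hδ
    filter_upwards [h4, h5, self_mem_nhdsWithin,
      (isOpen_ball.mem_nhds h0 : ball (0 : ℂ) (cR D.n) ∈ 𝓝 0) |> mem_nhdsWithin_of_mem_nhds]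
      with ℓ ⟨z, hz, hzb⟩ h7 h8 h9
    obtain ⟨k1, k2⟩ := hchild ℓ h9 h8 z hz
    refine ⟨it (g ℓ) j z, h3 (y := (g ℓ, z)) ?_, perN_shift k1 j, ?_⟩
    · rw [Prod.dist_eq, dist_eq_norm, dist_eq_norm]
      exact max_lt h7 hzb
    · show mul D.n (g ℓ, it (g ℓ) j z) = _
      rw [mul_it' (perN_it k1) j]; exact k2
  -- the half disc
  set H : Set ℂ := {ℓ | ℓ ∈ ball (0 : ℂ) (cR D.n) ∧ ℓ.re < 0} with hH
  have hHc : IsPreconnected H :=
    ((convex_ball _ _).inter (convex_halfSpace_re_lt 0)).isPreconnected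
  set A : Set ℂ := {c | ∃ b, PerN D.n c b ∧ ‖mult D.n c b‖ < 1} with hA
  have hgA : ∀ ℓ ∈ H, g ℓ ∈ A := by
    rintro ℓ ⟨h1, h2⟩
    have h3 : ℓ ≠ 0 := by rintro rfl; simp at h2
    obtain ⟨z, hz⟩ := hG.fam.ne _ (e_mem_U hP hCh h1 h3)
    obtain ⟨k1, k2⟩ := hchild ℓ h1 h3 z hz
    refine ⟨z, k1, ?_⟩
    rw [k2, Complex.norm_exp]
    exact Real.exp_lt_one_iff.2 h2
  set ℓ₀ : ℂ := -((cR D.n / 2 : ℝ) : ℂ) with hℓ₀
  have hℓ₀H : ℓ₀ ∈ H := by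
    refine ⟨?_, ?_⟩
    · rw [mem_ball_zero_iff, hℓ₀, norm_neg, Complex.norm_real, Real.norm_of_nonneg (by positivity)]
      linarith
    · rw [hℓ₀, Complex.neg_re, Complex.ofReal_re]; linarith
  set V : Set ℂ := connectedComponentIn A (g ℓ₀) with hV
  have hVH : HypComp D.n V := ⟨g ℓ₀, hgA ℓ₀ hℓ₀H, rfl⟩
  have hgcon : ContinuousOn g H := fun ℓ hℓ =>
    (hgan ℓ hℓ.1).continuousAt.continuousWithinAt
  have hgV : ∀ ℓ ∈ H, g ℓ ∈ V := by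
    have h1 : g '' H ⊆ V := (hHc.image g hgcon).subset_connectedComponentIn
      ⟨ℓ₀, hℓ₀H, rfl⟩ (by rintro _ ⟨ℓ, hℓ, rfl⟩; exact hgA ℓ hℓ)
    exact fun ℓ hℓ => h1 ⟨ℓ, hℓ, rfl⟩
  have hclos : (r₀, b₀) ∈ closure (AttW D.n V) := by
    rw [Metric.mem_closure_iff]
    intro ε hε
    have h1 : ∀ᶠ ℓ in 𝓝[≠] (0 : ℂ), ‖g ℓ - r₀‖ < ε := by
      have h6 : ContinuousAt (fun ℓ => ‖g ℓ - r₀‖) 0 := (hgc.sub continuousAt_const).norm
      refine (h6.eventually (gt_mem_nhds ?_)).filter_mono nhdsWithin_le_nhds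
      show ‖g 0 - r₀‖ < ε
      rw [hg0, sub_self, norm_zero]
      exact hε
    have h2 := (hbif ε hε).and h1
    rw [eventually_nhdsWithin_iff, Metric.eventually_nhds_iff] at h2
    obtain ⟨δ, hδ, h3⟩ := h2
    set ℓ : ℂ := -((min δ (cR D.n) / 2 : ℝ) : ℂ) with hℓ
    have hmin : 0 < min δ (cR D.n) := lt_min hδ hcR
    have hnl : ‖ℓ‖ = min δ (cR D.n) / 2 := by
      rw [hℓ, norm_neg, Complex.norm_real, Real.norm_of_nonneg (by positivity)]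
    have hre : ℓ.re < 0 := by
      rw [hℓ, Complex.neg_re, Complex.ofReal_re]; linarith
    have hℓH : ℓ ∈ H := by
      refine ⟨?_, hre⟩
      rw [mem_ball_zero_iff, hnl]
      linarith [min_le_right δ (cR D.n)]
    have hne : ℓ ∈ ({0} : Set ℂ)ᶜ := by
      intro h4
      rw [mem_singleton_iff.1 h4] at hre
      simp at hre
    obtain ⟨⟨z, k1, k2, k3⟩, k4⟩ := h3 (by
      rw [dist_zero_right, hnl]; linarith [min_le_left δ (cR D.n)]) hne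
    refine ⟨(g ℓ, z), ⟨hgV ℓ hℓH, k2, ?_⟩, ?_⟩
    · simp only
      rw [k3, Complex.norm_exp]
      exact Real.exp_lt_one_iff.2 hre
    · rw [dist_comm, Prod.dist_eq, dist_eq_norm, dist_eq_norm]
      exact max_lt k4 k1
  have hshift : ∀ V' : Set ℂ, (r₀, b₀) ∈ closure (AttW D.n V') →
      D.σ D.a ∈ closure (AttW D.n V') := by
    intro V' h1
    rw [hσ]
    exact closure_attW_shift h1 i₀
  refine ⟨V, g, β, e, ⟨hVH, hclos, fun ℓ hℓ => (hgan ℓ hℓ).differentiableAt.differentiableWithinAt,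
    ?_, hCh.diff, fun ℓ hℓ => ce_deriv_ne_zero hP hCh hℓ,
    fun ℓ hℓ ℓ' hℓ' h => hCh.inj hℓ hℓ' (c_injOn hP hC (e_mem_B hP hCh hℓ) (e_mem_B hP hCh hℓ') h),
    hCh.inj, hg0, ?_, hCh.zero,
    (e_deriv hP hC hR hG hCh).deriv, ?_, ?_, hbif, ?_, fun ℓ h1 h2 => hgV ℓ ⟨h1, h2⟩, ?_,
    fun s hs t ht ℓ hℓ hm => W_conn hP hC hR hG hCh hVH (hshift V hclos) hs ht hℓ hm, ?_⟩⟩
  · intro ℓ hℓ
    have hB := e_mem_B hP hCh hℓ
    have h1 : DifferentiableAt ℂ (fun ℓ => D.b (e ℓ)) ℓ :=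
      DifferentiableAt.comp (g := D.b) ℓ (b_diff49 hP hB)
        (hCh.diff.differentiableAt (isOpen_ball.mem_nhds hℓ))
    have h2 : DifferentiableAt ℂ (fun ℓ => (g ℓ, D.b (e ℓ))) ℓ :=
      (hgan ℓ hℓ).differentiableAt.prodMk h1
    exact (DifferentiableAt.comp (g := fun p : ℂ × ℂ => it p.1 j p.2) ℓ
      (differentiable_it j _) h2).differentiableWithinAt
  · show it (g 0) j (D.b (e 0)) = b₀
    rw [hg0, hCh.zero, hback]
  · intro ℓ hℓ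
    have hB := e_mem_B hP hCh hℓ
    obtain ⟨k1, k2⟩ := hP.sec _ hB
    have k3 : PerN D.m (g ℓ) (D.b (e ℓ)) := perN_of hP.m_pos k1 (hP.prim _ hB)
    refine ⟨perN_shift k3 j, ?_⟩
    exact (mul_it' (n := D.m) (c := g ℓ) (z := D.b (e ℓ)) (perN_it k3) j).trans k2
  · intro ℓ hℓ h1
    obtain ⟨z, hz⟩ := hG.fam.ne _ (e_mem_U hP hCh hℓ h1)
    exact ⟨z, hchild ℓ hℓ h1 z hz⟩
  · have h1 := near_root hP hC hR hG hCh
    rw [hσ] at h1
    have h2 : Tendsto (fun s : ℂ × ℂ => ((s.1, it s.1 i₀ s.2) : ℂ × ℂ)) (𝓝 (r₀, b₀))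
        (𝓝 (r₀, it r₀ i₀ b₀)) :=
      (continuous_fst.prodMk (continuous_it i₀)).tendsto (r₀, b₀)
    filter_upwards [h2.eventually h1] with s h3 ℓ hℓ k1 k2
    have k3 := perN_shift k1 i₀
    refine h3 ℓ hℓ (perN_it k3) (fun d hd hdn => perN_ne k3 hd hdn) ?_
    rw [mul_it' (perN_it k1) i₀]
    exact k2
  · rintro ⟨s1, s2⟩ hs ℓ hℓ hre hmu
    simp only at hmu ⊢
    rw [mem_closure_iff_seq_limit] at hs
    obtain ⟨t, ht, htl⟩ := hs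
    have hmc : Tendsto (fun k => mul D.n (t k) / exp ℓ) atTop (𝓝 1) := by
      have h1 : Tendsto (fun k => mul D.n (t k)) atTop (𝓝 (mul D.n (s1, s2))) :=
        ((continuous_mul' D.n).tendsto (s1, s2)).comp htl
      have h2 : mul D.n (s1, s2) = exp ℓ := hmu
      rw [h2] at h1
      have h3 := h1.div_const (exp ℓ)
      rwa [div_self (Complex.exp_ne_zero _)] at h3
    have hlg : Tendsto (fun k => ℓ + Complex.log (mul D.n (t k) / exp ℓ)) atTop (𝓝 ℓ) := by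
      have h1 : Tendsto (fun k => Complex.log (mul D.n (t k) / exp ℓ)) atTop (𝓝 (Complex.log 1)) :=
        (continuousAt_clog (by simp [Complex.slitPlane])).tendsto.comp hmc
      rw [Complex.log_one] at h1
      simpa using h1.const_add ℓ
    have h1 : ∀ᶠ k in atTop, (t k).1 = g (ℓ + Complex.log (mul D.n (t k) / exp ℓ)) := by
      filter_upwards [hlg.eventually (isOpen_ball.mem_nhds hℓ),
        hmc.eventually (isOpen_ne.mem_nhds one_ne_zero)] with k k1 k2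
      have hne : mul D.n (t k) / exp ℓ ≠ 0 := k2
      have k3 : exp (ℓ + Complex.log (mul D.n (t k) / exp ℓ)) = mul D.n (t k) := by
        rw [Complex.exp_add, Complex.exp_log hne]
        field_simp
      refine (W_half hP hC hR hG hCh hVH (hshift V hclos) k1 ?_).2.2 (t k) (ht k) k3.symm
      have k4 : ‖mul D.n (t k)‖ < 1 := (ht k).2.2
      rw [← k3, Complex.norm_exp] at k4
      exact Real.exp_lt_one_iff.1 k4
    have h2 : Tendsto (fun k => (t k).1) atTop (𝓝 s1) :=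
      (continuous_fst.tendsto (s1, s2)).comp htl
    have h3 : Tendsto (fun k => g (ℓ + Complex.log (mul D.n (t k) / exp ℓ))) atTop (𝓝 (g ℓ)) :=
      (hgan ℓ hℓ).continuousAt.tendsto.comp hlg
    exact tendsto_nhds_unique (h2.congr' h1) h3
  · intro V' h1 h2
    have h3 : g ℓ₀ ∈ V' := (W_half hP hC hR hG hCh h1 (hshift V' h2) hℓ₀H.1 hℓ₀H.2).1
    obtain ⟨c, hc, rfl⟩ := h1
    exact connectedComponentIn_eq h3

end Pool.Agent.Work.MLC.Sat
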