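import Pool.Agent.Work.MLC.PriAll26
import Pool.Agent.Work.MLC.RootCoB60

set_option autoImplicit false

/-! # The multiplier coordinate of every hyperbolic component about its root (helper60) -/

namespace Pool.Agent.Work.MLC.Sat

open Filter Topology Metric Set Complex
open Pool.Agent.Work.MLC.Pri (Ann SA QC Exa OneC BTG btg_all sepAll lep exists_ID oneC_QC clo_QC
  mem_QC QC_it QC_sub QC_exact exp_inj_small Clo)

/-- the coordinate of a component about the root -/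
structure RootA (n : ℕ) (η : ℝ) (V : Set ℂ) (g : ℂ → ℂ) : Prop where
  diff : DifferentiableOn ℂ g (ball 0 η)
  mem : ∀ ℓ ∈ ball (0 : ℂ) η, ℓ.re < 0 → g ℓ ∈ V
  ex : ∀ ℓ ∈ ball (0 : ℂ) η, ℓ.re ≤ 0 →
    ∃ z, (g ℓ, z) ∈ closure (AttW n V) ∧ mult n (g ℓ) z = exp ℓ
  comp : ∀ s ∈ closure (AttW n V), ∀ ℓ ∈ ball (0 : ℂ) η, mult n s.1 s.2 = exp ℓ → s.1 = g ℓ
  ne : ∀ ℓ ∈ ball (0 : ℂ) η, ℓ ≠ 0 → deriv g ℓ ≠ 0
  per : ∀ ℓ ∈ ball (0 : ℂ) η, ℓ ≠ 0 → ∃ z, PerN n (g ℓ) z ∧ mult n (g ℓ) z = exp ℓ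
  conn : ∀ s ∈ AttW n V, ∀ t ∈ connectedComponentIn (SX n η) s, ∀ ℓ ∈ ball (0 : ℂ) η,
    mult n t.1 t.2 = exp ℓ → t.1 = g ℓ

section

variable {n : ℕ} {η : ℝ} {V : Set ℂ} {g : ℂ → ℂ}

/-- everything on the closed left half disc follows from the open one -/
lemma closure_facts (hn : 0 < n) (hV : HypComp n V)
    (hg : ContinuousOn g (ball 0 η))
    (hat : ∀ ℓ ∈ ball (0 : ℂ) η, ℓ.re < 0 → ∃ z, (g ℓ, z) ∈ AttW n V ∧ mult n (g ℓ) z = exp ℓ) :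
    (∀ ℓ ∈ ball (0 : ℂ) η, ℓ.re ≤ 0 →
      ∃ z, (g ℓ, z) ∈ closure (AttW n V) ∧ mult n (g ℓ) z = exp ℓ) ∧
    (∀ s ∈ closure (AttW n V), ∀ ℓ ∈ ball (0 : ℂ) η, mult n s.1 s.2 = exp ℓ → s.1 = g ℓ) := by
  have hgc : ∀ ℓ ∈ ball (0 : ℂ) η, ContinuousAt g ℓ := fun ℓ hℓ =>
    hg.continuousAt (isOpen_ball.mem_nhds hℓ)
  constructor
  · intro ℓ hℓ hre
    have hM : ∀ ℓ ∈ ball (0 : ℂ) η, ℓ.re < 0 → g ℓ ∈ MM := by
      intro ℓ hℓ hre
      by_contra hM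
      obtain ⟨z, hz1, hz2⟩ := hat ℓ hℓ hre
      have h1 := rep13 hn (x := (g ℓ, z)) (perN_it hz1.2.1) hM
      have h2 : ‖mult n (g ℓ) z‖ < 1 := hz1.2.2
      exact absurd h1 (not_lt.2 h2.le)
    -- the sequence
    have h4 : ∀ᶠ s : ℝ in 𝓝[>] 0, ℓ - s ∈ ball (0 : ℂ) η ∧ (ℓ - (s : ℂ)).re < 0 := by
      have h5 : Tendsto (fun s : ℝ => ℓ - (s : ℂ)) (𝓝[>] 0) (𝓝 ℓ) := by
        have h6 : Continuous fun s : ℝ => ℓ - (s : ℂ) := by fun_prop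
        have h7 := h6.tendsto 0
        simp only [ofReal_zero, sub_zero] at h7
        exact h7.mono_left nhdsWithin_le_nhds
      filter_upwards [h5.eventually (isOpen_ball.mem_nhds hℓ), self_mem_nhdsWithin] with s h6 h7
      refine ⟨h6, ?_⟩
      have : (0 : ℝ) < s := h7
      simp only [sub_re, ofReal_re]
      linarith
    obtain ⟨ε, hε, h5⟩ := mem_nhdsGT_iff_exists_Ioo_subset.1 h4
    have hε' : (0 : ℝ) < ε := hε
    set s : ℕ → ℝ := fun k => ε / (k + 2) with hs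
    have hs1 : ∀ k, ℓ - (s k : ℂ) ∈ ball (0 : ℂ) η ∧ (ℓ - (s k : ℂ)).re < 0 := by
      intro k
      apply h5
      have hk : (0 : ℝ) ≤ k := Nat.cast_nonneg k
      refine ⟨by positivity, ?_⟩
      show ε / (k + 2) < ε
      rw [div_lt_iff₀ (by positivity)]
      nlinarith
    have hs2 : Tendsto (fun k => ℓ - (s k : ℂ)) atTop (𝓝 ℓ) := by
      have h6 : Tendsto s atTop (𝓝 0) := by
        have h7 : Tendsto (fun k : ℕ => (k : ℝ) + 2) atTop atTop :=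
          tendsto_atTop_add_const_right _ _ tendsto_natCast_atTop_atTop
        exact h7.const_div_atTop ε
      have h7 : Tendsto (fun t : ℝ => ℓ - (t : ℂ)) (𝓝 0) (𝓝 (ℓ - ((0 : ℝ) : ℂ))) :=
        Continuous.tendsto (by fun_prop) 0
      rw [ofReal_zero, sub_zero] at h7
      exact h7.comp h6
    choose z hz using fun k => hat _ (hs1 k).1 (hs1 k).2
    set B : Set (ℂ × ℂ) := closedBall (0 : ℂ) 102 ×ˢ closedBall (0 : ℂ) 103 with hB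
    have hBc : IsCompact B := (isCompact_closedBall _ _).prod (isCompact_closedBall _ _)
    have hzB : ∀ k, ((g (ℓ - (s k : ℂ)), z k) : ℂ × ℂ) ∈ B := by
      intro k
      have k1 := MM_norm (hM _ (hs1 k).1 (hs1 k).2)
      have k2 : (g (ℓ - (s k : ℂ)), z k) ∈ Per n := perN_it (hz k).1.2.1
      have k3 := norm_le_of_per hn k2
      have k4 := mem_closedBall_zero_iff.1 k1
      exact ⟨k1, mem_closedBall_zero_iff.2 (by simp only; linarith)⟩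
    obtain ⟨⟨c₁, z₁⟩, -, φ, h7, h8⟩ := hBc.tendsto_subseq hzB
    have h9 : c₁ = g ℓ := by
      have g1 : Tendsto (fun k => g (ℓ - (s (φ k) : ℂ))) atTop (𝓝 (g ℓ)) :=
        (hgc ℓ hℓ).tendsto.comp (hs2.comp h7.tendsto_atTop)
      have g2 : Tendsto (fun k => g (ℓ - (s (φ k) : ℂ))) atTop (𝓝 c₁) :=
        (continuous_fst.tendsto _).comp h8
      exact tendsto_nhds_unique g2 g1
    subst h9
    refine ⟨z₁, mem_closure_of_tendsto h8 (Eventually.of_forall fun k => (hz (φ k)).1), ?_⟩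
    have h10 : Tendsto (fun k => mul n (g (ℓ - (s (φ k) : ℂ)), z (φ k))) atTop
        (𝓝 (mul n (g ℓ, z₁))) := ((continuous_mul' n).tendsto _).comp h8
    have h11 : Tendsto (fun k => exp (ℓ - (s (φ k) : ℂ))) atTop (𝓝 (exp ℓ)) :=
      (continuous_exp.tendsto ℓ).comp (hs2.comp h7.tendsto_atTop)
    refine tendsto_nhds_unique h10 (h11.congr fun k => ?_)
    exact (hz (φ k)).2.symm
  · rintro ⟨s1, s2⟩ hs ℓ hℓ hmu
    simp only at hmu ⊢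
    rw [mem_closure_iff_seq_limit] at hs
    obtain ⟨t, ht, htl⟩ := hs
    have hmc : Tendsto (fun k => mul n (t k) / exp ℓ) atTop (𝓝 1) := by
      have h1 : Tendsto (fun k => mul n (t k)) atTop (𝓝 (mul n (s1, s2))) :=
        ((continuous_mul' n).tendsto (s1, s2)).comp htl
      have h2 : mul n (s1, s2) = exp ℓ := hmu
      rw [h2] at h1
      have h3 := h1.div_const (exp ℓ)
      rwa [div_self (Complex.exp_ne_zero _)] at h3
    have hlg : Tendsto (fun k => ℓ + Complex.log (mul n (t k) / exp ℓ)) atTop (𝓝 ℓ) := by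
      have h1 : Tendsto (fun k => Complex.log (mul n (t k) / exp ℓ)) atTop (𝓝 (Complex.log 1)) :=
        (continuousAt_clog (by simp [Complex.slitPlane])).tendsto.comp hmc
      rw [Complex.log_one] at h1
      simpa using h1.const_add ℓ
    have h1 : ∀ᶠ k in atTop, (t k).1 = g (ℓ + Complex.log (mul n (t k) / exp ℓ)) := by
      filter_upwards [hlg.eventually (isOpen_ball.mem_nhds hℓ),
        hmc.eventually (isOpen_ne.mem_nhds one_ne_zero)] with k k1 k2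
      have hne : mul n (t k) / exp ℓ ≠ 0 := k2
      have k3 : exp (ℓ + Complex.log (mul n (t k) / exp ℓ)) = mul n (t k) := by
        rw [Complex.exp_add, Complex.exp_log hne]
        field_simp
      have k4 : ‖mul n (t k)‖ < 1 := (ht k).2.2
      rw [← k3, Complex.norm_exp] at k4
      obtain ⟨z, hz1, hz2⟩ := hat _ k1 (Real.exp_lt_one_iff.1 k4)
      exact Hyp.hyp_inj s7_fatou hn hV ((Hyp.mem_Att_iff hn).2 (ht k).2) (ht k).1
        ((Hyp.mem_Att_iff hn).2 hz1.2) hz1.1 (k3.symm.trans hz2.symm)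
    have h2 : Tendsto (fun k => (t k).1) atTop (𝓝 s1) :=
      (continuous_fst.tendsto (s1, s2)).comp htl
    have h3 : Tendsto (fun k => g (ℓ + Complex.log (mul n (t k) / exp ℓ))) atTop (𝓝 (g ℓ)) :=
      (hgc ℓ hℓ).tendsto.comp hlg
    exact tendsto_nhds_unique (h2.congr' h1) h3

end

/-- the radius for all components -/
noncomputable def aR (n : ℕ) : ℝ := 1 / (2 * 10 ^ 46 * n ^ 64)

/-- **all components** -/
theorem rootAll {n : ℕ} (hn : 0 < n) {V : Set ℂ} (hV : HypComp n V) :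
    ∃ g, RootA n (aR n) V g := by
  have hn' : (1 : ℝ) ≤ n := by exact_mod_cast hn
  have hn64 : (1 : ℝ) ≤ n ^ 64 := one_le_pow₀ hn'
  set η := aR n with hη
  have hη0 : 0 < η := by rw [hη]; unfold aR; positivity
  have hη2 : η ≤ 1 / 2 := by
    rw [hη]; unfold aR
    rw [div_le_div_iff₀ (by positivity) (by norm_num)]
    nlinarith
  -- a pair in `V` with multiplier close to one
  obtain ⟨c₁, ⟨b₁, hb₁⟩, hVe⟩ := hV
  have hV : HypComp n V := ⟨c₁, ⟨b₁, hb₁⟩, hVe⟩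
  have hc₁V : c₁ ∈ V := by rw [hVe]; exact mem_connectedComponentIn ⟨b₁, hb₁⟩
  have hx : (c₁, b₁) ∈ Hyp.Att n := (Hyp.mem_Att_iff hn).2 hb₁
  obtain ⟨s, -, hs, -, hs2⟩ := Hyp.hyp_section s7_fatou hn hV hx hc₁V
  -- points of `V` over the half disc
  have hexp : ∀ ℓ : ℂ, ℓ.re < 0 → exp ℓ ∈ ball (0 : ℂ) 1 := by
    intro ℓ hℓ
    rw [mem_ball_zero_iff, Complex.norm_exp]
    exact Real.exp_lt_one_iff.2 hℓ
  set ℓ₀ : ℂ := -((η / 2 : ℝ) : ℂ) with hℓ₀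
  have hℓ₀n : ‖ℓ₀‖ = η / 2 := by
    rw [hℓ₀, norm_neg, Complex.norm_real, Real.norm_of_nonneg (by positivity)]
  have hℓ₀re : ℓ₀.re < 0 := by
    rw [hℓ₀, Complex.neg_re, Complex.ofReal_re]; linarith
  have hℓ₀0 : ℓ₀ ≠ 0 := by
    rw [← norm_pos_iff, hℓ₀n]; linarith
  have hℓ₀A : ℓ₀ ∈ Ann η := ⟨hℓ₀0, by rw [hℓ₀n]; linarith⟩
  obtain ⟨hx₀, hx₀m, hx₀V⟩ := hs (exp ℓ₀) (hexp ℓ₀ hℓ₀re)
  set x₀ := s (exp ℓ₀) with hx₀e
  have hx₀S : x₀ ∈ SA n η := ⟨hx₀.1, ℓ₀, hℓ₀A, hx₀m⟩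
  have hex : Exa n x₀ := fun d hd hdn => hx₀.2.1 d hd hdn
  obtain ⟨Lbl, hL⟩ := exists_ID n η hn hη0 (by linarith)
  have hOne : OneC n (QC n η x₀) := by
    refine oneC_QC (N := n) btg_all sepAll lep hn le_rfl le_rfl ?_ hη2 hL hx₀S hex
    rw [hη]; unfold aR
    exact le_rfl
  set Q := QC n η x₀ with hQ
  have hClo : Clo n η Q := clo_QC hη2 x₀
  have hne : Q.Nonempty := ⟨x₀, mem_QC hx₀S⟩
  have hexQ : ∀ y ∈ Q, PerN n y.1 y.2 := fun y hy =>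
    perN_of hn (QC_sub hy).1 fun d hd hdn => QC_exact hη2 hx₀S (hex d hd hdn) y hy
  obtain ⟨g, hg, hg1, hloc⟩ := Pri.graph hClo hn hη0 hη2 hne hOne
  have hgan : ∀ ℓ ∈ ball (0 : ℂ) η, AnalyticAt ℂ g ℓ := fun ℓ hℓ =>
    hg.analyticAt (isOpen_ball.mem_nhds hℓ)
  have hAnn : ∀ ℓ ∈ ball (0 : ℂ) η, ℓ ≠ 0 → ℓ ∈ Ann η := fun ℓ hℓ h0 =>
    ⟨h0, by simpa using hℓ⟩
  -- points of `Q` over a multiplier
  have hz : ∀ ℓ ∈ ball (0 : ℂ) η, ℓ ≠ 0 → ∃ z, (g ℓ, z) ∈ Q ∧ mul n (g ℓ, z) = exp ℓ := by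
    intro ℓ hℓ h0
    obtain ⟨y, hy, hyL⟩ := hClo.nonempty hn hη0 hη2 hne (hAnn ℓ hℓ h0)
    have h1 := hg1 y hy ℓ (hAnn ℓ hℓ h0) hyL
    refine ⟨y.2, ?_, ?_⟩
    · rw [← h1]; exact hy
    · rw [← h1]; exact hyL
  have hg0 : g ℓ₀ = x₀.1 := (hg1 x₀ (mem_QC hx₀S) ℓ₀ hℓ₀A hx₀m).symm
  -- the half disc
  set H : Set ℂ := {ℓ | ℓ ∈ ball (0 : ℂ) η ∧ ℓ.re < 0} with hH
  have hHne : ∀ ℓ ∈ H, ℓ ≠ 0 := by
    rintro ℓ ⟨-, h⟩ rfl
    simp at h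
  have hHc : IsPreconnected H :=
    ((convex_ball _ _).inter (convex_halfSpace_re_lt 0)).isPreconnected
  have hℓ₀H : ℓ₀ ∈ H := ⟨mem_ball_zero_iff.2 hℓ₀A.2, hℓ₀re⟩
  have hgA : ∀ ℓ ∈ H, g ℓ ∈ {c | ∃ b, PerN n c b ∧ ‖mult n c b‖ < 1} := by
    intro ℓ hℓ
    obtain ⟨z, k1, k2⟩ := hz ℓ hℓ.1 (hHne ℓ hℓ)
    refine ⟨z, hexQ _ k1, ?_⟩
    have k3 : mult n (g ℓ) z = exp ℓ := k2
    rw [k3, Complex.norm_exp]
    exact Real.exp_lt_one_iff.2 hℓ.2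
  have hgV : ∀ ℓ ∈ H, g ℓ ∈ V := by
    have h0 : g ℓ₀ ∈ V := by rw [hg0]; exact hx₀V
    have h1 : g '' H ⊆ connectedComponentIn {c | ∃ b, PerN n c b ∧ ‖mult n c b‖ < 1} (g ℓ₀) := by
      refine (hHc.image g fun ℓ hℓ =>
        (hgan ℓ hℓ.1).continuousAt.continuousWithinAt).subset_connectedComponentIn
        ⟨ℓ₀, hℓ₀H, rfl⟩ ?_
      rintro _ ⟨ℓ, hℓ, rfl⟩; exact hgA ℓ hℓ
    intro ℓ hℓ
    have h2 := h1 ⟨ℓ, hℓ, rfl⟩
    rw [hVe] at h0 ⊢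
    rwa [connectedComponentIn_eq h0]
  have hat : ∀ ℓ ∈ ball (0 : ℂ) η, ℓ.re < 0 → ∃ z, (g ℓ, z) ∈ AttW n V ∧
      mult n (g ℓ) z = exp ℓ := by
    intro ℓ hℓ hre
    obtain ⟨z, k1, k2⟩ := hz ℓ hℓ (hHne ℓ ⟨hℓ, hre⟩)
    have k3 : mult n (g ℓ) z = exp ℓ := k2
    refine ⟨z, ⟨hgV ℓ ⟨hℓ, hre⟩, hexQ _ k1, ?_⟩, k3⟩
    show ‖mult n (g ℓ) z‖ < 1
    rw [k3, Complex.norm_exp]
    exact Real.exp_lt_one_iff.2 hre
  obtain ⟨hex', hcomp⟩ := closure_facts hn hV hg.continuousOn hat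
  refine ⟨g, hg, fun ℓ hℓ hre => hgV ℓ ⟨hℓ, hre⟩, hex', hcomp, ?_, ?_, ?_⟩
  · intro ℓ hℓ h0 hd
    obtain ⟨z, k1, k2⟩ := hz ℓ hℓ h0
    obtain ⟨β, hβ, hβ0, hb⟩ := Pri.branch hClo hn hη2 hg1 k1 (hAnn ℓ hℓ h0) k2
    have e1 : HasDerivAt g 0 ℓ := by
      rw [← hd]; exact (hgan ℓ hℓ).differentiableAt.hasDerivAt
    have e2 : DifferentiableAt ℂ (fun c => mul n (c, β c)) (g ℓ) :=
      (chart_mul (n := n) (x₀ := ((g ℓ, z) : ℂ × ℂ)) hβ).differentiableAt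
    have e3 : HasDerivAt (fun L => mul n (g L, β (g L)))
        (deriv (fun c => mul n (c, β c)) (g ℓ) * 0) ℓ :=
      HasDerivAt.comp (h₂ := fun c => mul n (c, β c)) ℓ e2.hasDerivAt e1
    have e4 : HasDerivAt Complex.exp (deriv (fun c => mul n (c, β c)) (g ℓ) * 0) ℓ := by
      refine e3.congr_of_eventuallyEq ?_
      filter_upwards [hb] with L hL
      exact hL.2.symm
    have e5 := e4.unique (Complex.hasDerivAt_exp ℓ)
    rw [mul_zero] at e5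
    exact Complex.exp_ne_zero ℓ e5.symm
  · intro ℓ hℓ h0
    obtain ⟨z, k1, k2⟩ := hz ℓ hℓ h0
    exact ⟨z, hexQ _ k1, k2⟩
  · intro y hy t ht ℓ hℓ hm
    have hyS : y ∈ SX n η := connectedComponentIn_nonempty_iff.1 ⟨t, ht⟩
    -- `y` is in `Q`
    have hyQ : y ∈ Q := by
      obtain ⟨-, ℓ', k1, k2, k3⟩ := hyS
      have k4 : ℓ'.re < 0 := by
        have k5 : ‖mult n y.1 y.2‖ < 1 := hy.2.2
        rwa [k3, Complex.norm_exp, Real.exp_lt_one_iff] at k5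
      have k2' : ℓ' ∈ ball (0 : ℂ) η := by simpa using k2
      obtain ⟨z, k5, k6⟩ := hz ℓ' k2' k1
      have k7 : y.1 = g ℓ' := hcomp y (subset_closure hy) ℓ' k2' k3
      have k8 : (g ℓ', z) ∈ Per n := (QC_sub k5).1
      have k9 : (y.1, y.2) ∈ Per n := perN_it hy.2.1
      obtain ⟨i, hi⟩ := s7_fatou (g ℓ') z y.2 n n hn hn k8 (by
        rw [k6, Complex.norm_exp]; exact Real.exp_lt_one_iff.2 k4) (by rw [← k7]; exact k9) (by
        rw [← k7]; exact hy.2.2)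
      have k10 := QC_it k5 i
      have k11 : y = (g ℓ', it (g ℓ') i z) := Prod.ext k7 hi
      rw [k11]
      exact k10
    have htQ : t ∈ Q := by
      obtain ⟨i, hi⟩ := mem_iUnion.1 hyQ
      refine mem_iUnion.2 ⟨i, ?_⟩
      rw [connectedComponentIn_eq hi]
      refine connectedComponentIn_mono _ ?_ ht
      rintro u ⟨k1, ℓ', k2, k3, k4⟩
      exact ⟨perN_it k1, ℓ', ⟨k2, k3⟩, k4⟩
    obtain ⟨-, L, hL, he⟩ := QC_sub htQ
    have hℓL : ℓ = L := by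
      refine exp_inj_small ?_ (by linarith [hL.2]) (hm.symm.trans he)
      rw [mem_ball_zero_iff] at hℓ
      linarith
    subst hℓL
    exact hg1 t htQ ℓ hL he

/-- for satellites the radius is that of `rootCo` -/
theorem RootC.rootA {m : ℕ} {x : ℚ} {n : ℕ} {r₀ b₀ : ℂ} {V : Set ℂ} {g β e : ℂ → ℂ} (hn : 0 < n)
    (h : RootC m x n r₀ b₀ V g β e) : RootA n (cR n) V g := by
  have hat : ∀ ℓ ∈ ball (0 : ℂ) (cR n), ℓ.re < 0 → ∃ z, (g ℓ, z) ∈ AttW n V ∧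
      mult n (g ℓ) z = exp ℓ := by
    intro ℓ hℓ hre
    have h0 : ℓ ≠ 0 := by rintro rfl; simp at hre
    obtain ⟨z, k1, k2⟩ := h.child ℓ hℓ h0
    refine ⟨z, ⟨h.mem ℓ hℓ hre, k1, ?_⟩, k2⟩
    show ‖mult n (g ℓ) z‖ < 1
    rw [k2, Complex.norm_exp]
    exact Real.exp_lt_one_iff.2 hre
  obtain ⟨h1, h2⟩ := closure_facts hn h.hyp h.g_diff.continuousOn hat
  exact ⟨h.g_diff, h.mem, h1, h2, fun ℓ hℓ _ => h.g_ne ℓ hℓ, h.child, h.conn⟩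

/-- the coordinate is unique -/
theorem RootA.eqOn {n : ℕ} {η : ℝ} {V : Set ℂ} {g g' : ℂ → ℂ} (hη : 0 < η) (h : RootA n η V g)
    (h' : RootA n η V g') : EqOn g g' (ball 0 η) := by
  have hg : AnalyticOnNhd ℂ g (ball 0 η) := h.diff.analyticOnNhd isOpen_ball
  have hg' : AnalyticOnNhd ℂ g' (ball 0 η) := h'.diff.analyticOnNhd isOpen_ball
  set ℓ₀ : ℂ := -((η / 2 : ℝ) : ℂ) with hℓ₀
  have hℓ₀n : ‖ℓ₀‖ = η / 2 := by
    rw [hℓ₀, norm_neg, Complex.norm_real, Real.norm_of_nonneg (by positivity)]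
  have hℓ₀re : ℓ₀.re < 0 := by
    rw [hℓ₀, Complex.neg_re, Complex.ofReal_re]; linarith
  have h₀ : ℓ₀ ∈ ball (0 : ℂ) η := by
    rw [mem_ball_zero_iff, hℓ₀n]; linarith
  refine hg.eqOn_of_preconnected_of_eventuallyEq hg' (convex_ball _ _).isPreconnected h₀ ?_
  filter_upwards [isOpen_ball.eventually_mem h₀,
    (isOpen_lt Complex.continuous_re continuous_const).eventually_mem
      (show ℓ₀ ∈ {ℓ : ℂ | ℓ.re < 0} from hℓ₀re)] with ℓ h1 h2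
  obtain ⟨z, h3, h4⟩ := h'.ex ℓ h1 (le_of_lt h2)
  exact (h.comp _ h3 ℓ h1 h4).symm

end Pool.Agent.Work.MLC.Sat
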