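import Pool.Agent.Work.MLC.SatAll60

set_option autoImplicit false

/-! # The multiplier coordinate of a satellite component about its root (helper60) -/

namespace Pool.Agent.Work.MLC.Sat

open Filter Topology Metric Set Complex

section

variable {D : Dat} {Z : ℂ → Set ℂ} {e : ℂ → ℂ}

/-- all cycles of the family have exact period `n` -/
theorem ex_all (hP : D.Par) (hC : D.Cir) (hG : Glued D Z) {L : ℂ} (hL : L ∈ D.U) :
    Ex D Z L := by
  obtain ⟨L₀, hL₀, -⟩ := (root_all D hP hC).2.exists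
  have hL₀U : L₀ ∈ D.U := hL₀.1
  have hE : Ex D Z L₀ := (hG.left L₀ hL₀).2
  have h1 : D.U ⊆ {L' | L' ∈ D.U ∧ Ex D Z L'} := by
    refine (isPreconnected_U hP).subset_of_closure_inter_subset ?_ ⟨L₀, hL₀U, hL₀U, hE⟩ ?_
    · rw [isOpen_iff_mem_nhds]
      rintro L' ⟨h2, h3⟩
      filter_upwards [ex_nhds hP hG.fam h2, isOpen_U.mem_nhds h2] with L'' h4 h5
      exact ⟨h5, h4.2 h3⟩
    · rintro L' ⟨h2, h3⟩
      obtain ⟨L'', h4, h5⟩ := mem_closure_iff_nhds.1 h2 _ (ex_nhds hP hG.fam h3)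
      exact ⟨h3, h4.1 h5.2⟩
  exact (h1 hL).2

/-- the derivative of the coordinate at the root -/
theorem e_deriv (hP : D.Par) (hC : D.Cir) (hR : Regions D) (hG : Glued D Z) (hCh : Child D Z e) :
    HasDerivAt e (-1 / (D.x.den : ℂ) ^ 2) 0 := by
  have hn := Par_n_pos hP
  obtain ⟨K, hKa, hK⟩ := exists_K hG.fam
  have hlim := origin_all D Z K hP hC hR hG hK
  have hd := K_diff_ball hP hG.fam hK hKa hlim
  have hdK := s11_deriv D Z K hP hC hR hG hK hd hKa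
  have h0 : (0 : ℂ) ∈ ball (0 : ℂ) (cR D.n) := mem_ball_self (cR_pos hn)
  have h1 : HasDerivAt K (-(D.x.den : ℂ) ^ 2) D.a := by
    rw [← hdK]
    exact (hd.differentiableAt (isOpen_ball.mem_nhds (mem_ball_self (sR_pos hP)))).hasDerivAt
  have h2 : HasDerivAt e (deriv e 0) 0 :=
    (hCh.diff.differentiableAt (isOpen_ball.mem_nhds h0)).hasDerivAt
  have h3 : HasDerivAt (fun ℓ => K (e ℓ)) (-(D.x.den : ℂ) ^ 2 * deriv e 0) 0 := by
    refine HasDerivAt.comp (h₂ := K) 0 ?_ h2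
    rw [hCh.zero]; exact h1
  have h4 : (fun ℓ => K (e ℓ)) =ᶠ[𝓝 0] Complex.exp := by
    filter_upwards [isOpen_ball.mem_nhds h0] with ℓ hℓ
    by_cases h5 : ℓ = 0
    · rw [h5, hCh.zero, hKa, Complex.exp_zero]
    · have hU := e_mem_U hP hCh hℓ h5
      obtain ⟨z, hz⟩ := hG.fam.ne _ hU
      rw [← hK _ hU z hz, hCh.mul_eq ℓ hℓ h5 z hz]
  have h5 : HasDerivAt Complex.exp (-(D.x.den : ℂ) ^ 2 * deriv e 0) 0 :=
    h3.congr_of_eventuallyEq h4.symm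
  have h6 := h5.unique (Complex.hasDerivAt_exp 0)
  rw [Complex.exp_zero] at h6
  have hQ : (D.x.den : ℂ) ≠ 0 := by exact_mod_cast D.x.pos.ne'
  have h7 : deriv e 0 = -1 / (D.x.den : ℂ) ^ 2 := by
    field_simp
    linear_combination -h6
  rwa [h7] at h2

/-- pairs of exact period `n` close to the root pair are on the coordinate -/
theorem near_root (hP : D.Par) (hC : D.Cir) (hR : Regions D) (hG : Glued D Z) (hCh : Child D Z e) :
    ∀ᶠ s : ℂ × ℂ in 𝓝 (D.σ D.a), ∀ ℓ ∈ ball (0 : ℂ) (cR D.n), s ∈ Per D.n →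
      (∀ d, 0 < d → d < D.n → it s.1 d s.2 ≠ s.2) → mul D.n s = exp ℓ → s.1 = D.c (e ℓ) := by
  have hn := Par_n_pos hP
  obtain ⟨K, hKa, hK⟩ := exists_K hG.fam
  have hlim := origin_all D Z K hP hC hR hG hK
  have hd := K_diff_ball hP hG.fam hK hKa hlim
  have hch := s12_all D Z K hP hC hR hG hK hd hKa
  obtain ⟨δ, hδ, huq⟩ := hCh.uniq
  obtain ⟨V₁, hV₁, V₂, hV₂, hV⟩ := mem_nhds_prod_iff.1 hch
  set V : Set ℂ := {L | L ∈ V₁ ∧ L ∈ ball D.a δ ∧ L ∈ D.B} with hVdef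
  have hVn : V ∈ 𝓝 D.a := by
    filter_upwards [hV₁, ball_mem_nhds D.a hδ, isOpen_B.mem_nhds (a_mem_B hP)] with L g1 g2 g3
    exact ⟨g1, g2, g3⟩
  have hcV : D.c '' V ∈ 𝓝 (D.c D.a) := by
    rw [← c_map_nhds hP (a_mem_B hP)]
    exact image_mem_map hVn
  have h5 : ∀ᶠ s : ℂ × ℂ in 𝓝 (D.σ D.a), s.1 ∈ D.c '' V ∧ s.2 ∈ V₂ := by
    have h6 : (D.c '' V) ×ˢ V₂ ∈ 𝓝 (D.σ D.a) := prod_mem_nhds hcV hV₂
    exact h6
  -- fixed points at the root parameter are isolated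
  have h6 : ∀ᶠ s : ℂ × ℂ in 𝓝 (D.σ D.a), it (D.c D.a) D.n s.2 = s.2 → s.2 = D.b D.a := by
    have hfin : {z | it (D.c D.a) D.n z = z}.Finite := by
      refine (Multiset.finite_toSet (Cnt.fx (D.c D.a) D.n).roots).subset ?_
      intro z hz
      exact (Cnt.mem_roots_fx hn).2 hz
    have h7 : ∀ᶠ z in 𝓝 (D.b D.a), z ∉ {z | it (D.c D.a) D.n z = z} \ {D.b D.a} := by
      refine (hfin.subset sdiff_subset).isClosed.isOpen_compl.mem_nhds ?_
      rintro ⟨-, h8⟩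
      exact h8 rfl
    have h8 : ∀ᶠ s : ℂ × ℂ in 𝓝 (D.σ D.a), s.2 ∉ {z | it (D.c D.a) D.n z = z} \ {D.b D.a} :=
      (continuous_snd.tendsto (D.σ D.a)).eventually h7
    filter_upwards [h8] with s hs h9
    by_contra h10
    exact hs ⟨h9, h10⟩
  filter_upwards [h5, h6] with s h7 h8 ℓ hℓ hsP hex hm
  obtain ⟨⟨L, ⟨g1, g2, g3⟩, hLs⟩, hs2⟩ := h7
  obtain ⟨s1, s2⟩ := s
  simp only at hLs hs2 hex h8
  subst hLs
  have hmb : it (D.c L) D.m (D.b L) = D.b L := (hP.sec L g3).1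
  have hsb : s2 ≠ D.b L := by
    rintro rfl
    exact hex D.m hP.m_pos (m_lt_n hP) hmb
  by_cases hLa : L = D.a
  · exfalso
    subst hLa
    exact hsb (h8 hsP)
  · have hsZ : s2 ∈ Z L := hV (show (L, s2) ∈ V₁ ×ˢ V₂ from ⟨g1, hs2⟩) hsP hsb
    have := huq L g2 hLa ℓ hℓ s2 hsZ hm
    show D.c L = _
    rw [← this]

/-- a second fixed point of the `n`-th iterate close to a fixed point with multiplier close to
`1` -/
theorem exists_other {n : ℕ} (hn : 0 < n) {c b : ℂ} (hb : it c n b = b) {ε : ℝ} (hε : 0 < ε)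
    (h : ‖mult n c b - 1‖ < ε ^ (2 ^ n - 1)) (h1 : mult n c b ≠ 1) :
    ∃ z, z ≠ b ∧ ‖z - b‖ < ε ∧ it c n z = z := by
  classical
  set P : Polynomial ℂ := (SatBif4.Q c b n - Polynomial.X).divX with hP
  obtain ⟨hdeg, hmon⟩ := SatBif4.Q_natDegree c b n
  have h2n : 2 ≤ 2 ^ n := by
    calc 2 = 2 ^ 1 := by norm_num
      _ ≤ 2 ^ n := Nat.pow_le_pow_right (by norm_num) hn
  have hXlt : (Polynomial.X : Polynomial ℂ).degree < (SatBif4.Q c b n).degree := by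
    rw [Polynomial.degree_X, Polynomial.degree_eq_natDegree hmon.ne_zero, hdeg]
    exact_mod_cast h2n
  have hmon' : (SatBif4.Q c b n - Polynomial.X).Monic := hmon.sub_of_left hXlt
  have hdeg' : (SatBif4.Q c b n - Polynomial.X).natDegree = 2 ^ n := by
    rw [Polynomial.natDegree_sub_eq_left_of_natDegree_lt, hdeg]
    rw [Polynomial.natDegree_X, hdeg]; omega
  have hPdeg : P.natDegree = 2 ^ n - 1 := by
    rw [hP, Polynomial.natDegree_divX_eq_natDegree_tsub_one, hdeg']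
  have hPmon : P.Monic := by
    unfold Polynomial.Monic Polynomial.leadingCoeff
    rw [hPdeg, hP, Polynomial.coeff_divX, Nat.sub_add_cancel (by omega)]
    have := hmon'.leadingCoeff
    unfold Polynomial.leadingCoeff at this
    rwa [hdeg'] at this
  have hev : ∀ t : ℂ, it c n (b + t) - (b + t) = t * P.eval t := by
    intro t
    have h3 := Polynomial.divX_mul_X_add (SatBif4.Q c b n - Polynomial.X)
    have h4 := congrArg (Polynomial.eval t) h3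
    rw [Polynomial.eval_add, Polynomial.eval_mul, Polynomial.eval_X, Polynomial.eval_C,
      Polynomial.eval_sub, Polynomial.eval_X, SatBif4.Q_eval] at h4
    have h5 : (SatBif4.Q c b n - Polynomial.X).coeff 0 = b := by
      rw [Polynomial.coeff_zero_eq_eval_zero, Polynomial.eval_sub, SatBif4.Q_eval,
        Polynomial.eval_X, add_zero, hb, sub_zero]
    rw [h5] at h4
    rw [hP]
    linear_combination -h4
  have hP0 : P.coeff 0 = mult n c b - 1 := by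
    have h3 := SatBif4.Q_deriv c b n 0
    rw [add_zero, ← Polynomial.coeff_zero_eq_eval_zero, Polynomial.coeff_derivative] at h3
    rw [hP, Polynomial.coeff_divX, Polynomial.coeff_sub, Polynomial.coeff_X_one]
    rw [← h3]
    push_cast; ring
  have hsp : P.Splits := IsAlgClosed.splits P
  have hprod := hsp.coeff_zero_eq_prod_roots_of_monic hPmon
  have hcard := hsp.natDegree_eq_card_roots
  obtain ⟨r, hr, hrε⟩ : ∃ r ∈ P.roots, ‖r‖ < ε := by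
    by_contra hcon
    push Not at hcon
    have h3 : ε ^ P.roots.card ≤ ‖P.roots.prod‖ := by
      have key : ∀ s : Multiset ℂ, (∀ r ∈ s, ε ≤ ‖r‖) → ε ^ s.card ≤ ‖s.prod‖ := by
        intro s
        induction s using Multiset.induction_on with
        | empty => simp
        | cons a s ih =>
          intro h4
          rw [Multiset.card_cons, Multiset.prod_cons, norm_mul, pow_succ']
          exact mul_le_mul (h4 a (Multiset.mem_cons_self a s))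
            (ih fun r hr => h4 r (Multiset.mem_cons_of_mem hr)) (by positivity) (norm_nonneg _)
      exact key _ hcon
    rw [← hcard, hPdeg] at h3
    rw [← hP0, hprod, norm_mul, norm_pow, norm_neg, norm_one, one_pow, one_mul] at h
    exact absurd h (not_lt.2 h3)
  have hr0 : P.eval r = 0 := (Polynomial.mem_roots hPmon.ne_zero).1 hr
  refine ⟨b + r, ?_, by simpa using hrε, ?_⟩
  · intro h3
    have h4 : r = 0 := by linear_combination h3
    rw [h4, ← Polynomial.coeff_zero_eq_eval_zero, hP0] at hr0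
    exact h1 (sub_eq_zero.1 hr0)
  · have h3 := hev r
    rw [hr0, mul_zero] at h3
    exact sub_eq_zero.1 h3

/-- the cycle of exact period `n` comes out of the point of the parent -/
theorem bifurcates (hP : D.Par) (hC : D.Cir) (hR : Regions D) (hG : Glued D Z)
    (hCh : Child D Z e) {ε : ℝ} (hε : 0 < ε) :
    ∀ᶠ ℓ in 𝓝[≠] (0 : ℂ), ∃ z ∈ Z (e ℓ), ‖z - D.b D.a‖ < ε := by
  have hn := Par_n_pos hP
  obtain ⟨K, hKa, hK⟩ := exists_K hG.fam
  have hlim := origin_all D Z K hP hC hR hG hK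
  have hd := K_diff_ball hP hG.fam hK hKa hlim
  have hch := s12_all D Z K hP hC hR hG hK hd hKa
  obtain ⟨V₁, hV₁, V₂, hV₂, hV⟩ := mem_nhds_prod_iff.1 hch
  obtain ⟨ε', hε', hball⟩ := Metric.mem_nhds_iff.1 hV₂
  set η := min ε ε' / 2 with hη
  have hη0 : 0 < η := by positivity
  have hmη := lt_min hε hε'
  have hη1 : 2 * η ≤ ε := by rw [hη]; linarith [min_le_left ε ε']
  have hη2 : 2 * η ≤ ε' := by rw [hη]; linarith [min_le_right ε ε']
  have h0 : (0 : ℂ) ∈ ball (0 : ℂ) (cR D.n) := mem_ball_self (cR_pos hn)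
  have haB := a_mem_B hP
  -- statements about `L` near `a`
  have h1 : ∀ᶠ L in 𝓝 D.a, L ∈ D.B ∧ L ∈ V₁ ∧ ‖D.b L - D.b D.a‖ < η ∧
      ‖exp ((D.x.den : ℂ) * (L - D.a)) - 1‖ < η ^ (2 ^ D.n - 1) := by
    have h2 : ContinuousAt (fun L => ‖D.b L - D.b D.a‖) D.a :=
      ((b_contAt hP haB).sub continuousAt_const).norm
    have h3 : ∀ᶠ L in 𝓝 D.a, ‖D.b L - D.b D.a‖ < η :=
      h2.eventually (gt_mem_nhds (by simpa using hη0))
    have h4 : ContinuousAt (fun L => ‖exp ((D.x.den : ℂ) * (L - D.a)) - 1‖) D.a := by fun_prop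
    have h5 : ∀ᶠ L in 𝓝 D.a, ‖exp ((D.x.den : ℂ) * (L - D.a)) - 1‖ < η ^ (2 ^ D.n - 1) :=
      h4.eventually (gt_mem_nhds (by simpa using pow_pos hη0 _))
    filter_upwards [isOpen_B.mem_nhds haB, hV₁, h3, h5] with L g1 g2 g3 g4
    exact ⟨g1, g2, g3, g4⟩
  have hec : Tendsto e (𝓝 0) (𝓝 D.a) := by
    have := (e_contAt hCh h0).tendsto
    rwa [hCh.zero] at this
  have h2 : ∀ᶠ ℓ in 𝓝[≠] (0 : ℂ), e ℓ ∈ D.B ∧ e ℓ ∈ V₁ ∧ ‖D.b (e ℓ) - D.b D.a‖ < η ∧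
      ‖exp ((D.x.den : ℂ) * (e ℓ - D.a)) - 1‖ < η ^ (2 ^ D.n - 1) :=
    (hec.eventually h1).filter_mono nhdsWithin_le_nhds
  -- the multiplier of the parent is not one
  have h3 : ∀ᶠ ℓ in 𝓝[≠] (0 : ℂ), exp ((D.x.den : ℂ) * (e ℓ - D.a)) ≠ 1 := by
    have hlow := exp_low49 (q := (D.x.den : ℝ)) (by exact_mod_cast D.x.pos)
    have h4 : ∀ᶠ ℓ in 𝓝 (0 : ℂ), ‖e ℓ - D.a‖ / 2 ≤ ‖exp ((D.x.den : ℂ) * (e ℓ - D.a)) - 1‖ := by
      have h5 : Tendsto (fun ℓ => e ℓ - D.a) (𝓝 0) (𝓝 0) := by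
        have := hec.sub_const D.a
        rwa [sub_self] at this
      have h6 := h5.eventually hlow
      filter_upwards [h6] with ℓ h7
      have h8 : ((D.x.den : ℝ) : ℂ) = (D.x.den : ℂ) := by push_cast; rfl
      rwa [h8] at h7
    filter_upwards [h4.filter_mono nhdsWithin_le_nhds, self_mem_nhdsWithin,
      (isOpen_ball.mem_nhds h0 : ball (0 : ℂ) (cR D.n) ∈ 𝓝 0) |> mem_nhdsWithin_of_mem_nhds]
      with ℓ h5 h6 h7 h8
    rw [h8, sub_self, norm_zero] at h5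
    have h9 := norm_nonneg (e ℓ - D.a)
    have h10 : ‖e ℓ - D.a‖ = 0 := by linarith
    exact (e_mem_U hP hCh h7 h6).2 (sub_eq_zero.1 (norm_eq_zero.1 h10))
  filter_upwards [h2, h3, self_mem_nhdsWithin,
    (isOpen_ball.mem_nhds h0 : ball (0 : ℂ) (cR D.n) ∈ 𝓝 0) |> mem_nhdsWithin_of_mem_nhds]
    with ℓ ⟨g1, g2, g3, g4⟩ g5 g6 g7
  obtain ⟨p1, p2⟩ := mul_parent49 hP g1
  rw [← p2] at g4 g5
  obtain ⟨z, z1, z2, z3⟩ := exists_other hn p1 hη0 g4 g5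
  have hz : ‖z - D.b D.a‖ < 2 * η := by
    calc ‖z - D.b D.a‖ = ‖(z - D.b (e ℓ)) + (D.b (e ℓ) - D.b D.a)‖ := by ring_nf
      _ ≤ _ := norm_add_le _ _
      _ < 2 * η := by linarith
  refine ⟨z, hV (show (e ℓ, z) ∈ V₁ ×ˢ V₂ from ⟨g2, hball ?_⟩) z3 z1, by linarith⟩
  rw [mem_ball, dist_eq_norm]; linarith

/-- over the left half disc: the component `W` -/
theorem W_half (hP : D.Par) (hC : D.Cir) (hR : Regions D) (hG : Glued D Z) (hCh : Child D Z e)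
    {W : Set ℂ} (hW : HypComp D.n W) (hcl : D.σ D.a ∈ closure (AttW D.n W)) {ℓ : ℂ}
    (hℓ : ℓ ∈ ball (0 : ℂ) (cR D.n)) (hre : ℓ.re < 0) :
    D.c (e ℓ) ∈ W ∧ (∀ z ∈ Z (e ℓ), (D.c (e ℓ), z) ∈ AttW D.n W) ∧
      ∀ s ∈ AttW D.n W, mul D.n s = exp ℓ → s.1 = D.c (e ℓ) := by
  have hn := Par_n_pos hP
  obtain ⟨ℓ₀, h₀, hE, hcW⟩ := start origin_all s12_all hP hC hR hG hCh hcl
  have hH := half hP hG hCh hW h₀ hE hcW ℓ ⟨hℓ, hre⟩
  refine ⟨hH.1, fun z hz => ?_, fun s hs hm => ?_⟩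
  · exact ⟨hH.1, (Hyp.mem_Att_iff hn).1 (hH.2 z hz)⟩
  · have hU := e_mem_U hP hCh hℓ (HL_ne ⟨hℓ, hre⟩)
    obtain ⟨z, hz⟩ := hG.fam.ne _ hU
    obtain ⟨h4, h5, h6⟩ := hs
    exact Hyp.hyp_inj (x := s) (y := (D.c (e ℓ), z)) s7_fatou hn hW
      ((Hyp.mem_Att_iff hn).2 ⟨h5, h6⟩) h4 (hH.2 z hz) hH.1
      (by rw [hm, hCh.mul_eq ℓ hℓ (HL_ne ⟨hℓ, hre⟩) z hz])

/-- the pairs of exact period `n` with multiplier close to one -/
def SX (n : ℕ) (η : ℝ) : Set (ℂ × ℂ) :=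
  {t | PerN n t.1 t.2 ∧ ∃ ℓ, ℓ ≠ 0 ∧ ‖ℓ‖ < η ∧ mult n t.1 t.2 = exp ℓ}

lemma perN_it' {n : ℕ} {c b : ℂ} (h : PerN n c b) : it c n b = b := by
  have h1 := Function.iterate_minimalPeriod (f := f c) (x := b)
  rw [h.2] at h1
  exact h1

lemma exp_slit {ℓ : ℂ} (h : ‖ℓ‖ < 1 / 2) : exp ℓ ∈ slitPlane := by
  have h1 := Complex.norm_exp_sub_one_le (x := ℓ) (by linarith)
  have h2 : exp ℓ = 1 + (exp ℓ - 1) := by ring
  rw [h2]
  exact mem_slitPlane_of_norm_lt_one (by linarith)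

lemma log_exp_small {ℓ : ℂ} (h : ‖ℓ‖ < 1 / 2) : Complex.log (exp ℓ) = ℓ := by
  have h1 := Complex.abs_im_le_norm ℓ
  have h2 := abs_le.1 h1
  have := Real.pi_gt_three
  exact Complex.log_exp (by linarith [h2.1]) (by linarith [h2.2])

/-- the graph of the child cycle -/
def TG (D' : Dat) (Z' : ℂ → Set ℂ) (e' : ℂ → ℂ) : Set (ℂ × ℂ) :=
  {t | t.1 = D'.c (e' (Complex.log (mul D'.n t))) ∧ t.2 ∈ Z' (e' (Complex.log (mul D'.n t)))}

lemma cR_lt_half {n : ℕ} (hn : 0 < n) : cR n < 1 / 2 := by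
  unfold cR
  have h1 : (1 : ℝ) ≤ n := by exact_mod_cast hn
  have h2 : (1 : ℝ) ≤ n ^ 5 := one_le_pow₀ h1
  rw [div_lt_div_iff₀ (by positivity) (by norm_num)]
  linarith

lemma logmul_tendsto {n : ℕ} {η : ℝ} (hη : η ≤ 1 / 2) {t : ℂ × ℂ} (ht : t ∈ SX n η) :
    Tendsto (fun y : ℂ × ℂ => Complex.log (mul n y)) (𝓝 t) (𝓝 (Complex.log (mul n t))) := by
  obtain ⟨-, ℓ, h1, h2, h3⟩ := ht
  have h4 : mul n t = exp ℓ := h3
  have h5 : mul n t ∈ slitPlane := by rw [h4]; exact exp_slit (by linarith)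
  exact (continuousAt_clog h5).tendsto.comp ((continuous_mul' n).tendsto t)

lemma logmul_mem {n : ℕ} {η : ℝ} (hη : η ≤ 1 / 2) {t : ℂ × ℂ} (ht : t ∈ SX n η) :
    Complex.log (mul n t) ∈ ball (0 : ℂ) η ∧ Complex.log (mul n t) ≠ 0 ∧
      mul n t = exp (Complex.log (mul n t)) := by
  obtain ⟨-, ℓ, h1, h2, h3⟩ := ht
  have h4 : mul n t = exp ℓ := h3
  rw [h4, log_exp_small (by linarith)]
  exact ⟨by simpa using h2, h1, rfl⟩

/-- the graph is open in the curve -/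
lemma TG_open (hP : D.Par) (hG : Glued D Z) (hCh : Child D Z e) {t : ℂ × ℂ}
    (ht : t ∈ SX D.n (cR D.n)) (hT : t ∈ TG D Z e) :
    ∀ᶠ y in 𝓝 t, y ∈ SX D.n (cR D.n) → y ∈ TG D Z e := by
  have hn := Par_n_pos hP
  have hhalf := (cR_lt_half hn).le
  obtain ⟨h1, h2, h3⟩ := logmul_mem hhalf ht
  obtain ⟨ℓ, hℓ⟩ : ∃ ℓ, ℓ = Complex.log (mul D.n t) := ⟨_, rfl⟩
  rw [← hℓ] at h1 h2 h3
  obtain ⟨t1, t2⟩ := t
  obtain ⟨h4, h5⟩ := hT
  simp only at h4 h5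
  rw [← hℓ] at h4 h5
  clear hℓ
  subst h4
  have hU := e_mem_U hP hCh h1 h2
  have hfix := hG.fam.fix _ hU t2 h5
  have hgan := ce_analyticAt hP hCh h1
  have hgne := ce_deriv_ne_zero hP hCh h1
  have hmap : map (fun ℓ => D.c (e ℓ)) (𝓝 ℓ) = 𝓝 (D.c (e ℓ)) :=
    hgan.hasStrictDerivAt.map_nhds_eq hgne
  -- the set of good `ℓ'` and points
  have hcont := hG.fam.cont _ hU t2 h5
  have hec : Tendsto (fun p : ℂ × ℂ => ((e p.1, p.2) : ℂ × ℂ)) (𝓝 (ℓ, t2)) (𝓝 (e ℓ, t2)) := by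
    have g1 : Tendsto (fun p : ℂ × ℂ => e p.1) (𝓝 (ℓ, t2)) (𝓝 (e ℓ)) :=
      (e_contAt hCh h1).tendsto.comp (continuous_fst.tendsto (ℓ, t2))
    exact g1.prodMk_nhds (continuous_snd.tendsto (ℓ, t2))
  have h6 := hec.eventually hcont
  rw [nhds_prod_eq, eventually_prod_iff] at h6
  obtain ⟨pa, hpa, pb, hpb, hab⟩ := h6
  have h7 : ∀ᶠ ℓ' in 𝓝 ℓ, pa ℓ' ∧ ℓ' ∈ ball (0 : ℂ) (cR D.n) ∧ ℓ' ≠ 0 :=
    hpa.and ((isOpen_ball.eventually_mem h1).and (isOpen_ne.eventually_mem h2))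
  have h8 : (fun ℓ => D.c (e ℓ)) '' {ℓ' | pa ℓ' ∧ ℓ' ∈ ball (0 : ℂ) (cR D.n) ∧ ℓ' ≠ 0} ∈
      𝓝 (D.c (e ℓ)) := by
    rw [← hmap]
    exact image_mem_map h7
  have h9 : ∀ᶠ y : ℂ × ℂ in 𝓝 (D.c (e ℓ), t2), y.1 ∈ (fun ℓ => D.c (e ℓ)) ''
      {ℓ' | pa ℓ' ∧ ℓ' ∈ ball (0 : ℂ) (cR D.n) ∧ ℓ' ≠ 0} :=
    (continuous_fst.tendsto (D.c (e ℓ), t2)).eventually h8
  have h10 : ∀ᶠ y : ℂ × ℂ in 𝓝 (D.c (e ℓ), t2), pb y.2 :=
    (continuous_snd.tendsto (D.c (e ℓ), t2)).eventually hpb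
  filter_upwards [h9, h10] with y h11 h12 hy
  obtain ⟨ℓ', ⟨k1, k2, k3⟩, k4⟩ := h11
  obtain ⟨y1, y2⟩ := y
  simp only at k4 h12
  subst k4
  have k5 : (D.c (e ℓ'), y2) ∈ Per D.n := perN_it' hy.1
  have k6 : y2 ∈ Z (e ℓ') := hab k1 h12 k5
  have k7 := hCh.mul_eq ℓ' k2 k3 y2 k6
  have k8 : Complex.log (mul D.n (D.c (e ℓ'), y2)) = ℓ' := by
    rw [k7]
    rw [mem_ball_zero_iff] at k2
    exact log_exp_small (by linarith [cR_lt_half hn])
  refine ⟨?_, ?_⟩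
  · show D.c (e ℓ') = D.c (e (Complex.log (mul D.n (D.c (e ℓ'), y2))))
    rw [k8]
  · show y2 ∈ Z (e (Complex.log (mul D.n (D.c (e ℓ'), y2))))
    rw [k8]; exact k6

/-- the graph is closed in the curve -/
lemma TG_closed (hP : D.Par) (hG : Glued D Z) (hCh : Child D Z e) {t : ℂ × ℂ}
    (ht : t ∈ SX D.n (cR D.n)) (hT : t ∉ TG D Z e) :
    ∀ᶠ y in 𝓝 t, y ∈ SX D.n (cR D.n) → y ∉ TG D Z e := by
  have hn := Par_n_pos hP
  have hhalf := (cR_lt_half hn).le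
  obtain ⟨h1, h2, h3⟩ := logmul_mem hhalf ht
  have hlt := logmul_tendsto hhalf ht
  set ℓ := Complex.log (mul D.n t) with hℓ
  have hgan := ce_analyticAt hP hCh h1
  have hgc : Tendsto (fun y : ℂ × ℂ => D.c (e (Complex.log (mul D.n y)))) (𝓝 t)
      (𝓝 (D.c (e ℓ))) := hgan.continuousAt.tendsto.comp hlt
  by_cases h4 : t.1 = D.c (e ℓ)
  swap
  · have h5 : ∀ᶠ y : ℂ × ℂ in 𝓝 t, y.1 - D.c (e (Complex.log (mul D.n y))) ≠ 0 :=
      ((continuous_fst.tendsto t).sub hgc).eventually_ne (sub_ne_zero.2 h4)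
    filter_upwards [h5] with y h6 _ h7
    exact h6 (sub_eq_zero.2 h7.1)
  · have h5 : t.2 ∉ Z (e ℓ) := fun h => hT ⟨h4, h⟩
    have hU := e_mem_U hP hCh h1 h2
    obtain ⟨z₀, hz₀⟩ := hG.fam.ne _ hU
    have hfix := hG.fam.fix _ hU z₀ hz₀
    obtain ⟨β, hβa, hβ0, hβ⟩ := chart hfix.1 hfix.2
    simp only at hβa hβ0
    have hec : Tendsto (fun y : ℂ × ℂ => e (Complex.log (mul D.n y))) (𝓝 t) (𝓝 (e ℓ)) :=
      (e_contAt hCh h1).tendsto.comp hlt
    have hβc : Tendsto (fun y : ℂ × ℂ => β (D.c (e (Complex.log (mul D.n y))))) (𝓝 t)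
        (𝓝 z₀) := by
      have := hβa.continuousAt.tendsto.comp hgc
      rwa [hβ0] at this
    have h6 : ∀ᶠ y : ℂ × ℂ in 𝓝 t, ((D.c (e (Complex.log (mul D.n y))),
        β (D.c (e (Complex.log (mul D.n y))))) : ℂ × ℂ) ∈ Per D.n := by
      filter_upwards [(hgc.prodMk_nhds hβc).eventually hβ] with y k1
      exact k1.2 rfl
    have h7 : ∀ᶠ y : ℂ × ℂ in 𝓝 t, β (D.c (e (Complex.log (mul D.n y)))) ∈
        Z (e (Complex.log (mul D.n y))) := by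
      filter_upwards [(hec.prodMk_nhds hβc).eventually (hG.fam.cont _ hU z₀ hz₀), h6] with y k1 k2
      exact k1 k2
    -- the points of the cycle stay away
    have h8 : ∀ i ∈ Finset.range D.n, ∀ᶠ y : ℂ × ℂ in 𝓝 t,
        y.2 - it (D.c (e (Complex.log (mul D.n y)))) i
          (β (D.c (e (Complex.log (mul D.n y))))) ≠ 0 := by
      intro i _
      have k1 : Tendsto (fun y : ℂ × ℂ => it (D.c (e (Complex.log (mul D.n y)))) i
          (β (D.c (e (Complex.log (mul D.n y)))))) (𝓝 t) (𝓝 (it (D.c (e ℓ)) i z₀)) := by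
        have k2 := ((continuous_it i).tendsto (D.c (e ℓ), z₀)).comp (hgc.prodMk_nhds hβc)
        exact k2
      refine ((continuous_snd.tendsto t).sub k1).eventually_ne (sub_ne_zero.2 fun k3 => h5 ?_)
      exact (hG.fam.cyc _ hU z₀ hz₀ _).2 ⟨i, k3⟩
    have h9 := (Finset.eventually_all (Finset.range D.n)).2 h8
    filter_upwards [h7, h9, h6, hlt.eventually (isOpen_ball.mem_nhds h1),
      hlt.eventually (isOpen_ne.mem_nhds h2)] with y k1 k2 k3 k4 k5 _ k6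
    obtain ⟨k7, k8⟩ := k6
    obtain ⟨i, hi⟩ := (hG.fam.cyc _ (e_mem_U hP hCh k4 k5) _ k1 _).1 k8
    have k9 := it_mul_per (c := D.c (e (Complex.log (mul D.n y))))
      (z := β (D.c (e (Complex.log (mul D.n y))))) (n := D.n) k3 (i % D.n) (i / D.n)
    rw [Nat.mod_add_div] at k9
    rw [k9] at hi
    exact k2 (i % D.n) (Finset.mem_range.2 (Nat.mod_lt _ hn)) (sub_eq_zero.2 hi)

/-- the component of the curve of a point of the graph is in the graph -/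
theorem TG_conn (hP : D.Par) (hG : Glued D Z) (hCh : Child D Z e) {s : ℂ × ℂ}
    (hs : s ∈ TG D Z e) {t : ℂ × ℂ} (ht : t ∈ connectedComponentIn (SX D.n (cR D.n)) s) :
    t ∈ TG D Z e := by
  have hsS : s ∈ SX D.n (cR D.n) := connectedComponentIn_nonempty_iff.1 ⟨t, ht⟩
  set S := connectedComponentIn (SX D.n (cR D.n)) s with hS
  have hSS : S ⊆ SX D.n (cR D.n) := connectedComponentIn_subset _ _
  set u : Set (ℂ × ℂ) := interior {y | y ∈ SX D.n (cR D.n) → y ∈ TG D Z e} with hu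
  set v : Set (ℂ × ℂ) := interior {y | y ∈ SX D.n (cR D.n) → y ∉ TG D Z e} with hv
  by_contra hcon
  have h1 : S ⊆ u ∪ v := by
    intro y hy
    by_cases h : y ∈ TG D Z e
    · left
      rw [hu, mem_interior_iff_mem_nhds]
      exact TG_open hP hG hCh (hSS hy) h
    · right
      rw [hv, mem_interior_iff_mem_nhds]
      exact TG_closed hP hG hCh (hSS hy) h
  have h2 : s ∈ u := by
    rw [hu, mem_interior_iff_mem_nhds]
    exact TG_open hP hG hCh hsS hs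
  have h3 : t ∈ v := by
    rw [hv, mem_interior_iff_mem_nhds]
    exact TG_closed hP hG hCh (hSS ht) hcon
  obtain ⟨z, hz, hzu, hzv⟩ := isPreconnected_connectedComponentIn u v isOpen_interior
    isOpen_interior h1 ⟨s, mem_connectedComponentIn hsS, h2⟩ ⟨t, ht, h3⟩
  have e1 := interior_subset (s := {y : ℂ × ℂ | y ∈ SX D.n (cR D.n) → y ∈ TG D Z e}) hzu (hSS hz)
  exact interior_subset (s := {y : ℂ × ℂ | y ∈ SX D.n (cR D.n) → y ∉ TG D Z e}) hzv (hSS hz) e1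

/-- on the whole component of the curve of a pair of `W` -/
theorem W_conn (hP : D.Par) (hC : D.Cir) (hR : Regions D) (hG : Glued D Z) (hCh : Child D Z e)
    {W : Set ℂ} (hW : HypComp D.n W) (hcl : D.σ D.a ∈ closure (AttW D.n W)) {s : ℂ × ℂ}
    (hs : s ∈ AttW D.n W) {t : ℂ × ℂ} (ht : t ∈ connectedComponentIn (SX D.n (cR D.n)) s) {ℓ : ℂ}
    (hℓ : ℓ ∈ ball (0 : ℂ) (cR D.n)) (hm : mul D.n t = exp ℓ) : t.1 = D.c (e ℓ) := by
  have hn := Par_n_pos hP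
  have hhalf := (cR_lt_half hn).le
  have hsS : s ∈ SX D.n (cR D.n) := connectedComponentIn_nonempty_iff.1 ⟨t, ht⟩
  have hsT : s ∈ TG D Z e := by
    obtain ⟨k0, ℓ', k1, k2, k3⟩ := hsS
    have k4 : ℓ'.re < 0 := by
      have k5 : ‖mult D.n s.1 s.2‖ < 1 := hs.2.2
      rwa [k3, Complex.norm_exp, Real.exp_lt_one_iff] at k5
    have k2' : ℓ' ∈ ball (0 : ℂ) (cR D.n) := by simpa using k2
    have k7 : s.1 = D.c (e ℓ') := (W_half hP hC hR hG hCh hW hcl k2' k4).2.2 s hs k3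
    have hU := e_mem_U hP hCh k2' k1
    obtain ⟨z, hz⟩ := hG.fam.ne _ hU
    have k8 : (D.c (e ℓ'), z) ∈ Per D.n := (hG.fam.fix _ hU z hz).1
    have k9 : (s.1, s.2) ∈ Per D.n := perN_it k0
    have k10 := hCh.mul_eq ℓ' k2' k1 z hz
    obtain ⟨i, hi⟩ := s7_fatou (D.c (e ℓ')) z s.2 D.n D.n hn hn k8 (by
      rw [k10, Complex.norm_exp]; exact Real.exp_lt_one_iff.2 k4) (by rw [← k7]; exact k9) (by
      rw [← k7]; exact hs.2.2)
    have k11 : s.2 ∈ Z (e ℓ') := (hG.fam.cyc _ hU z hz _).2 ⟨i, hi⟩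
    have k12 : Complex.log (mul D.n s) = ℓ' := by
      have k13 : mul D.n s = exp ℓ' := k3
      rw [k13]
      exact log_exp_small (by linarith)
    refine ⟨?_, ?_⟩
    · rw [k12]; exact k7
    · rw [k12]; exact k11
  have htT := TG_conn hP hG hCh hsT ht
  have h1 := htT.1
  rw [mem_ball_zero_iff] at hℓ
  rwa [hm, log_exp_small (by linarith)] at h1

end

end Pool.Agent.Work.MLC.Sat
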