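import Pool.Agent.Work.MLC.SatU6
import Pool.Agent.Work.MLC.RootDef6

set_option autoImplicit false

/-! # Consequences of a root disc of radius `δ n` for all components (helper6) -/

namespace Pool.Agent.Work.MLC

open Filter Topology Metric Set

/-- far from the root -/
lemma far_ineq' {n p q k : ℕ} {C₀ : ℝ} (hC₀ : 0 < C₀) (hn : 0 < n) (hp : 0 < p) (hpq : p < q)
    (ht : 1 / (C₀ * n ^ k) < 2 * Real.pi * (min (p : ℝ) (q - p) / q)) :
    (n : ℝ) ^ 2 * q / (min (p : ℝ) (q - p)) ^ 2 ≤ 40 * C₀ ^ 2 * (n ^ (2 * k + 2) / q) := by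
  have hn' : (0 : ℝ) < n := by exact_mod_cast hn
  have hp' : (0 : ℝ) < p := by exact_mod_cast hp
  have hpq' : (p : ℝ) < q := by exact_mod_cast hpq
  have hq' : (0 : ℝ) < q := hp'.trans hpq'
  set μ : ℝ := min (p : ℝ) (q - p) with hμ
  have hμ0 : 0 < μ := lt_min hp' (by linarith)
  have hpi : Real.pi < 3.15 := Real.pi_lt_d2
  have hpi0 := Real.pi_pos
  have h1 : (q : ℝ) < 6.3 * (C₀ * n ^ k) * μ := by
    rw [div_lt_iff₀ (by positivity)] at ht
    have h2 : (q : ℝ) < 2 * Real.pi * μ * (C₀ * n ^ k) := by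
      have h3 := mul_lt_mul_of_pos_right ht hq'
      have h4 : 2 * Real.pi * (μ / q) * (C₀ * n ^ k) * q = 2 * Real.pi * μ * (C₀ * n ^ k) := by
        field_simp
      rw [h4] at h3
      linarith
    have h6 : 0 < μ * (C₀ * (n : ℝ) ^ k) := by positivity
    nlinarith
  rw [div_le_iff₀ (by positivity), mul_div_assoc', div_mul_eq_mul_div, le_div_iff₀ hq']
  have h3 : (q : ℝ) ^ 2 ≤ (6.3 * (C₀ * n ^ k) * μ) ^ 2 := by gcongr
  have h4 : (n : ℝ) ^ (2 * k + 2) = (n ^ k) ^ 2 * n ^ 2 := by ring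
  rw [h4]
  calc (n : ℝ) ^ 2 * q * q = n ^ 2 * q ^ 2 := by ring
    _ ≤ n ^ 2 * (6.3 * (C₀ * n ^ k) * μ) ^ 2 := by gcongr
    _ = 39.69 * (C₀ ^ 2 * ((n ^ k) ^ 2 * n ^ 2) * μ ^ 2) := by ring
    _ ≤ 40 * (C₀ ^ 2 * ((n ^ k) ^ 2 * n ^ 2) * μ ^ 2) := by gcongr; norm_num
    _ = 40 * C₀ ^ 2 * ((n ^ k) ^ 2 * n ^ 2) * μ ^ 2 := by ring

section

variable {C₀ : ℝ} {k : ℕ}

lemma re_lt_of_ball {x : ℚ} {R : ℝ} {ℓ : ℂ} (h : ℓ ∈ ball (axisPt x) R) : ℓ.re < R := by
  rw [mem_ball, dist_eq_norm] at h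
  have h10 := (Complex.re_le_norm (ℓ - axisPt x)).trans_lt h
  rwa [Complex.sub_re, LimbData.axisPt_re, sub_zero] at h10

/-- **the limb bound without `p`**, exact period -/
theorem root_bound (hC₀ : 2 ≤ C₀) (hRP : RootPiece fun n => 1 / (C₀ * n ^ k)) {n p q : ℕ}
    {r b : ℂ} (hper : PerN n r b) (hp : 0 < p) (hpq : p < q) (hcop : Nat.Coprime p q)
    (hmul : mult n r b = Complex.exp (2 * Real.pi * (p / q : ℂ) * Complex.I)) :
    Piece r (2000 * C₀ ^ 2 * (n ^ (2 * k + 2) / q)) ∧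
    (∀ z ∈ MS \ connectedComponentIn (MS \ {r}) 0,
      dist z r ≤ 2000 * C₀ ^ 2 * (n ^ (2 * k + 2) / q)) := by
  have hlog : 0 < Real.log 2 := Real.log_pos (by norm_num)
  have hlog1 : 0.6931471803 < Real.log 2 := Real.log_two_gt_d9
  have hlog2 : Real.log 2 < 0.6931471808 := Real.log_two_lt_d9
  have hn : 0 < n := hper.1
  have hb : it r n b = b := Sat.perN_it hper
  have hmul' : mul n (r, b) = Complex.exp (2 * Real.pi * (p / q) * Complex.I) := hmul
  have hnorm : ‖mul n (r, b)‖ = 1 := by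
    rw [hmul', Complex.norm_exp]
    simp
  have hrM := mem_MS_of_norm hn hb hnorm
  have hq : 0 < q := hp.trans hpq
  have hq' : (0 : ℝ) < q := by exact_mod_cast hq
  have hn' : (0 : ℝ) < n := by exact_mod_cast hn
  have hn1 : (1 : ℝ) ≤ n := by exact_mod_cast hn
  have hC0 : 0 < C₀ := by linarith
  have hnk : (1 : ℝ) ≤ n ^ k := one_le_pow₀ hn1
  have hδ0 : 0 < 1 / (C₀ * (n : ℝ) ^ k) := by positivity
  have hδ1 : 1 / (C₀ * (n : ℝ) ^ k) ≤ 1 / 2 := by
    apply one_div_le_one_div_of_le (by norm_num)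
    nlinarith
  have hnn : (n : ℝ) ^ (k + 1) ≤ n ^ (2 * k + 2) := pow_le_pow_right₀ hn1 (by omega)
  have hnn0 : (0 : ℝ) < n ^ (k + 1) := by positivity
  have hC2 : C₀ ≤ C₀ ^ 2 := by nlinarith
  rcases lt_or_ge (1 / (C₀ * (n : ℝ) ^ k)) (2 * Real.pi * (min (p : ℝ) (q - p) / q)) with ht | ht
  · -- far from the root
    have h1 := far_ineq' hC0 hn hp hpq ht
    have hle : 50 * ((n : ℝ) ^ 2 * q / (min (p : ℝ) (q - p)) ^ 2) ≤
        2000 * C₀ ^ 2 * (n ^ (2 * k + 2) / q) := by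
      linarith
    exact ⟨(piece_A hn hp hpq hcop hb hmul').mono hle,
      fun z hz => (limb_dist inputs34 hn hp hpq hcop hb hmul' z hz).trans hle⟩
  · -- close to the root
    obtain ⟨x, g, T, hx, hden, hL, hgr, hgd, hg4, hgper⟩ := hRP n p q r b hper hp hpq hcop hmul ht
    rcases lt_or_ge (2 * n * Real.log 2 / x.den) (1 / (C₀ * (n : ℝ) ^ k)) with hAR | hAR
    · have hK := hL.size hAR hgd hg4
      rw [hgr] at hK
      have hle : 9 * (2 * (n : ℝ) * Real.log 2 / x.den) / (1 / (C₀ * (n : ℝ) ^ k)) ≤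
          2000 * C₀ ^ 2 * (n ^ (2 * k + 2) / q) := by
        rw [hden]
        have h2 : 9 * (2 * (n : ℝ) * Real.log 2 / q) / (1 / (C₀ * (n : ℝ) ^ k)) =
            18 * Real.log 2 * C₀ * (n ^ (k + 1) / q) := by
          field_simp
          ring
        rw [h2]
        have h3 : (n : ℝ) ^ (k + 1) / q ≤ n ^ (2 * k + 2) / q := by gcongr 1
        have h4 : 0 < (n : ℝ) ^ (k + 1) / q := by positivity
        calc 18 * Real.log 2 * C₀ * (n ^ (k + 1) / q) ≤ 2000 * C₀ * (n ^ (k + 1) / q) := by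
              gcongr; linarith
          _ ≤ 2000 * C₀ ^ 2 * (n ^ (2 * k + 2) / q) := by gcongr
      refine ⟨Piece.of_limb hL hAR hgr (hK.trans (closedBall_subset_closedBall hle)), ?_⟩
      have h0 : (0 : ℂ) ∉ LimbData.K g T x := by
        refine hL.zero_notMem hn hAR hgper hx fun ℓ hℓ => (re_lt_of_ball hℓ).trans_le ?_
        linarith
      have hcan := hL.canon inputs34 hAR h0
      rw [hgr] at hcan
      intro z hz
      rw [hcan] at hz
      exact (mem_closedBall.1 (hK hz)).trans hle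
    · -- the trivial case
      have h8 : (8 : ℝ) ≤ 2000 * C₀ ^ 2 * (n ^ (2 * k + 2) / q) := by
        rw [hden, div_le_div_iff₀ (by positivity) hq'] at hAR
        rw [← mul_div_assoc, le_div_iff₀ hq']
        have h1 : (q : ℝ) ≤ 2 * Real.log 2 * C₀ * n ^ (k + 1) := by
          calc (q : ℝ) = 1 * (q : ℝ) := (one_mul _).symm
            _ ≤ _ := hAR
            _ = _ := by ring
        have h2 : (q : ℝ) ≤ 2 * C₀ ^ 2 * n ^ (2 * k + 2) := by
          calc (q : ℝ) ≤ 2 * Real.log 2 * C₀ * n ^ (k + 1) := h1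
            _ ≤ 2 * 1 * C₀ ^ 2 * n ^ (2 * k + 2) := by gcongr; linarith
            _ = _ := by ring
        nlinarith
      refine ⟨Piece.trivial hrM h8, fun z hz => ?_⟩
      refine le_trans ?_ h8
      rw [dist_eq_norm]
      calc ‖z - r‖ ≤ ‖z‖ + ‖r‖ := norm_sub_le _ _
        _ ≤ 4 + 4 := add_le_add (norm_MS hz.1) (norm_MS hrM)
        _ = 8 := by norm_num

end

end Pool.Agent.Work.MLC
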