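import Pool.Agent.Work.MLC.RootU6
import Pool.Agent.Work.MLC.NV4

set_option autoImplicit false

/-! # Reduction to the exact period, and the final statements for all components (helper6) -/

namespace Pool.Agent.Work.MLC

open Filter Topology Metric Set

lemma mul_pow_of_per {g k : ℕ} {x : ℂ × ℂ} (hx : x ∈ Per g) : mul (g * k) x = mul g x ^ k := by
  induction k with
  | zero => simp [mul]
  | succ k ih =>
    have h2 : mul (g * k + g) x = mul (g * k) x * mul g x := by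
      unfold mul
      rw [Finset.prod_range_add]
      congr 1
      refine Finset.prod_congr rfl fun i _ => ?_
      have h3 : it x.1 (g * k + i) x.2 = it x.1 i x.2 := by
        rw [add_comm]
        exact Sat.it_mul_per hx i k
      rw [h3]
    have h1 : g * (k + 1) = g * k + g := by ring
    rw [h1, h2, ih, pow_succ]

/-- reduction to the exact period -/
theorem exact_level {n p q : ℕ} {r b : ℂ} (hn : 0 < n) (hp : 0 < p) (hpq : p < q)
    (hcop : Nat.Coprime p q) (hb : it r n b = b)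
    (hm : mul n (r, b) = Complex.exp (2 * Real.pi * (p / q) * Complex.I)) :
    ∃ m p' q' : ℕ, PerN m r b ∧ m ≤ n ∧ 0 < p' ∧ p' < q' ∧ Nat.Coprime p' q' ∧ q ≤ q' ∧
      mult m r b = Complex.exp (2 * Real.pi * (p' / q' : ℂ) * Complex.I) := by
  have hq : 0 < q := hp.trans hpq
  have hper : Function.IsPeriodicPt (f r) n b := hb
  set m := Function.minimalPeriod (f r) b with hmdef
  have hm0 : 0 < m := hper.minimalPeriod_pos hn
  obtain ⟨k, hk⟩ := hper.minimalPeriod_dvd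
  have hmn : m ≤ n := hper.minimalPeriod_le hn
  have hPer : PerN m r b := ⟨hm0, rfl⟩
  set w : ℂ := mul m (r, b) with hw
  have hwk : w ^ k = Complex.exp (2 * Real.pi * Complex.I * (p / q)) := by
    have h1 := mul_pow_of_per (k := k) (show ((r, b) : ℂ × ℂ) ∈ Per m from Sat.perN_it hPer)
    rw [← hw] at h1
    rw [← h1, ← hk, hm]
    congr 1
    ring
  have hprim := Complex.isPrimitiveRoot_exp_of_coprime p q hq.ne' hcop
  rw [← hwk] at hprim
  have hq2 : 1 < q := by omega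
  have hfin : IsOfFinOrder w := by
    have h1 : w ^ (k * q) = 1 := by rw [pow_mul]; exact hprim.pow_eq_one
    have hk0 : 0 < k := by
      rcases Nat.eq_zero_or_pos k with h | h
      · rw [h] at hk; omega
      · exact h
    exact isOfFinOrder_iff_pow_eq_one.2 ⟨k * q, Nat.mul_pos hk0 hq, h1⟩
  set q' := orderOf w with hq'
  have hq'0 : 0 < q' := hfin.orderOf_pos
  have hdvd : q ∣ q' := by
    rw [hprim.eq_orderOf]
    exact orderOf_pow_dvd k
  have hle : q ≤ q' := Nat.le_of_dvd hq'0 hdvd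
  obtain ⟨i, hi, hco, hexp⟩ := (Complex.isPrimitiveRoot_iff w q' hq'0.ne').1
    (IsPrimitiveRoot.orderOf w)
  have hi0 : 0 < i := by
    rcases Nat.eq_zero_or_pos i with h | h
    · subst h
      rw [Nat.coprime_zero_left] at hco
      omega
    · exact h
  refine ⟨m, i, q', hPer, hmn, hi0, hi, hco, hle, ?_⟩
  show w = _
  rw [← hexp]
  congr 1
  ring

section

variable {C₀ : ℝ} {k : ℕ}

/-- **the limb bound without `p`** -/
theorem root_bound' (hC₀ : 2 ≤ C₀) (hRP : RootPiece fun n => 1 / (C₀ * n ^ k)) {n p q : ℕ}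
    {r b : ℂ} (hn : 0 < n) (hp : 0 < p) (hpq : p < q) (hcop : Nat.Coprime p q)
    (hb : it r n b = b)
    (hm : mul n (r, b) = Complex.exp (2 * Real.pi * (p / q) * Complex.I)) :
    Piece r (2000 * C₀ ^ 2 * (n ^ (2 * k + 2) / q)) ∧
    (∀ z ∈ MS \ connectedComponentIn (MS \ {r}) 0,
      dist z r ≤ 2000 * C₀ ^ 2 * (n ^ (2 * k + 2) / q)) := by
  obtain ⟨m, p', q', hPer, hmn, hp', hpq', hcop', hqq, hmul⟩ := exact_level hn hp hpq hcop hb hm
  have h1 := root_bound hC₀ hRP hPer hp' hpq' hcop' hmul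
  have hq : 0 < q := hp.trans hpq
  have hle : 2000 * C₀ ^ 2 * ((m : ℝ) ^ (2 * k + 2) / q') ≤
      2000 * C₀ ^ 2 * (n ^ (2 * k + 2) / q) := by
    have h2 : (0 : ℝ) < q := by exact_mod_cast hq
    gcongr
  exact ⟨h1.1.mono hle, fun z hz => (h1.2 z hz).trans hle⟩

/-- smallness at large levels, exact period -/
theorem root_small (hC₀ : 2 ≤ C₀) (hRP : RootPiece fun n => 1 / (C₀ * n ^ k)) {ε : ℝ}
    (hε : 0 < ε) : ∃ N : ℕ, ∀ (n p q : ℕ) (r b : ℂ), N ≤ n → PerN n r b → 0 < p → p < q →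
    Nat.Coprime p q → mult n r b = Complex.exp (2 * Real.pi * (p / q : ℂ) * Complex.I) →
    480 * C₀ ^ 2 * (n : ℝ) ^ (2 * k + 2) ≤ q → Piece r ε := by
  obtain ⟨e, he, hT⟩ := LimbData.small inputs34.cpt hε
  obtain ⟨N₁, hN₁⟩ := exists_nat_gt (1 / e)
  obtain ⟨N₂, hN₂⟩ := small_A hε
  refine ⟨max N₁ N₂, fun n p q r b hNn hper hp hpq hcop hmul hsm => ?_⟩
  have hlog : 0 < Real.log 2 := Real.log_pos (by norm_num)
  have hlog2 : Real.log 2 < 0.6931471808 := Real.log_two_lt_d9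
  have hn : 0 < n := hper.1
  have hb : it r n b = b := Sat.perN_it hper
  have hmul' : mul n (r, b) = Complex.exp (2 * Real.pi * (p / q) * Complex.I) := hmul
  have hq : 0 < q := hp.trans hpq
  have hq' : (0 : ℝ) < q := by exact_mod_cast hq
  have hn' : (0 : ℝ) < n := by exact_mod_cast hn
  have hn1 : (1 : ℝ) ≤ n := by exact_mod_cast hn
  have hC0 : 0 < C₀ := by linarith
  have hnk : (1 : ℝ) ≤ n ^ k := one_le_pow₀ hn1
  have hp' : (0 : ℝ) < p := by exact_mod_cast hp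
  have hpq' : (p : ℝ) < q := by exact_mod_cast hpq
  have hδ0 : 0 < 1 / (C₀ * (n : ℝ) ^ k) := by positivity
  have hδ1 : 1 / (C₀ * (n : ℝ) ^ k) ≤ 1 / 2 := by
    apply one_div_le_one_div_of_le (by norm_num)
    nlinarith
  rcases lt_or_ge (1 / (C₀ * (n : ℝ) ^ k)) (2 * Real.pi * (min (p : ℝ) (q - p) / q)) with ht | ht
  · refine hN₂ n p q r b ((le_max_right _ _).trans hNn) hn hp hpq hcop hb hmul' ?_
    have h1 := far_ineq' hC0 hn hp hpq ht
    have hm0 : 0 < min (p : ℝ) (q - p) := lt_min hp' (by linarith)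
    have h2 : 40 * C₀ ^ 2 * ((n : ℝ) ^ (2 * k + 2) / q) ≤ 1 / 12 := by
      rw [← mul_div_assoc, div_le_iff₀ hq']
      linarith
    have h3 := h1.trans h2
    rw [div_le_iff₀ (by positivity)] at h3
    have h4 : (0 : ℝ) ≤ (n : ℝ) ^ 2 * q := by positivity
    have h5 : (0 : ℝ) ≤ (min (p : ℝ) (q - p)) ^ 2 := by positivity
    nlinarith
  · obtain ⟨x, g, T, hx, hden, hL, hgr, hgd, hg4, hgper⟩ := hRP n p q r b hper hp hpq hcop hmul ht
    have hA0 : 0 < 2 * n * Real.log 2 / x.den := by rw [hden]; positivity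
    have hAR : 2 * (2 * n * Real.log 2 / x.den) ≤ 1 / (C₀ * (n : ℝ) ^ k) := by
      rw [hden, ← mul_div_assoc, div_le_div_iff₀ hq' (by positivity)]
      have h4 : (n : ℝ) ^ (k + 1) ≤ n ^ (2 * k + 2) := pow_le_pow_right₀ hn1 (by omega)
      have hC2 : C₀ ≤ C₀ ^ 2 := by nlinarith
      have h0 : (0 : ℝ) < n ^ (2 * k + 2) := by positivity
      calc 2 * (2 * n * Real.log 2) * (C₀ * n ^ k) = 4 * Real.log 2 * C₀ * n ^ (k + 1) := by ring
        _ ≤ 4 * 1 * C₀ ^ 2 * n ^ (2 * k + 2) := by gcongr; linarith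
        _ ≤ 480 * C₀ ^ 2 * n ^ (2 * k + 2) := by nlinarith [mul_pos (pow_pos hC0 2) h0]
        _ ≤ 1 * q := by linarith
    have hRn : 2 * (1 / (C₀ * (n : ℝ) ^ k)) / n ≤ e := by
      have h1 : 1 / e < n := hN₁.trans_le (by exact_mod_cast (le_max_left _ _).trans hNn)
      have h2 : 1 < n * e := by rwa [div_lt_iff₀ he] at h1
      rw [div_le_iff₀ hn']
      linarith
    have hK := hT x _ _ g T hL hAR hgd hg4 (fun ℓ hℓ => by
      by_cases h0 : ℓ = 0
      · have h1 : g ℓ ∈ MS := hL.left ℓ hℓ (by rw [h0]; simp)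
        have h2 : G (g ℓ) (g ℓ) = 0 := by
          rw [G_c_eq, mem_M_iff.1 h1, mul_zero]
        rw [h2]; exact he.le
      · obtain ⟨z, h3, h4⟩ := hgper ℓ hℓ h0
        exact (green_le hn h3 h4 hδ0.le (re_lt_of_ball hℓ).le).trans hRn)
    rw [hgr] at hK
    exact Piece.of_limb hL (by linarith) hgr hK

/-- smallness at large levels -/
theorem root_small' (hC₀ : 2 ≤ C₀) (hRP : RootPiece fun n => 1 / (C₀ * n ^ k)) {ε : ℝ}
    (hε : 0 < ε) : ∃ N : ℕ, ∀ (n p q : ℕ) (r b : ℂ), N ≤ n → 0 < n → 0 < p → p < q →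
    Nat.Coprime p q → it r n b = b →
    mul n (r, b) = Complex.exp (2 * Real.pi * (p / q) * Complex.I) →
    480 * C₀ ^ 2 * (n : ℝ) ^ (2 * k + 2) ≤ q → Piece r ε := by
  obtain ⟨N₁, hN₁⟩ := root_small hC₀ hRP hε
  obtain ⟨N₂, hN₂⟩ := exists_nat_gt (2000 * C₀ ^ 2 * (N₁ : ℝ) ^ (2 * k + 2) / ε)
  refine ⟨N₂, fun n p q r b hNn hn hp hpq hcop hb hm hsm => ?_⟩
  obtain ⟨m, p', q', hPer, hmn, hp', hpq', hcop', hqq, hmul⟩ := exact_level hn hp hpq hcop hb hm
  have hq : 0 < q := hp.trans hpq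
  have hq0 : (0 : ℝ) < q := by exact_mod_cast hq
  have hqq' : (q : ℝ) ≤ q' := by exact_mod_cast hqq
  have hmn' : (m : ℝ) ≤ n := by exact_mod_cast hmn
  have hn1 : (1 : ℝ) ≤ n := by exact_mod_cast hn
  have hC0 : 0 < C₀ := by linarith
  rcases le_or_gt N₁ m with h1 | h1
  · refine hN₁ m p' q' r b h1 hPer hp' hpq' hcop' hmul ?_
    calc 480 * C₀ ^ 2 * (m : ℝ) ^ (2 * k + 2) ≤ 480 * C₀ ^ 2 * (n : ℝ) ^ (2 * k + 2) := by gcongr
      _ ≤ (q : ℝ) := hsm
      _ ≤ (q' : ℝ) := hqq'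
  · refine (root_bound hC₀ hRP hPer hp' hpq' hcop' hmul).1.mono ?_
    have h2 : (m : ℝ) ≤ N₁ := by exact_mod_cast h1.le
    have h3 : (n : ℝ) ≤ q := by
      have h4 : (n : ℝ) ≤ n ^ (2 * k + 2) := by
        calc (n : ℝ) = n ^ 1 := (pow_one _).symm
          _ ≤ n ^ (2 * k + 2) := pow_le_pow_right₀ hn1 (by omega)
      have h5 : (1 : ℝ) ≤ 480 * C₀ ^ 2 := by nlinarith
      have h6 : (0 : ℝ) < (n : ℝ) ^ (2 * k + 2) := by positivity
      nlinarith
    have h4 : (N₂ : ℝ) ≤ n := by exact_mod_cast hNn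
    have h5 : 2000 * C₀ ^ 2 * (N₁ : ℝ) ^ (2 * k + 2) / ε < q' := by linarith
    rw [div_lt_iff₀ hε] at h5
    have hq'0 : (0 : ℝ) < q' := hq0.trans_le hqq'
    rw [← mul_div_assoc, div_le_iff₀ hq'0]
    calc 2000 * C₀ ^ 2 * (m : ℝ) ^ (2 * k + 2) ≤ 2000 * C₀ ^ 2 * (N₁ : ℝ) ^ (2 * k + 2) := by gcongr
      _ ≤ ε * q' := by linarith

/-- **local connectivity**: condition (A) or `q` large -/
theorem lc_root (hC₀ : 2 ≤ C₀) (hRP : RootPiece fun n => 1 / (C₀ * n ^ k)) {c₀ : ℂ}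
    (hc₀ : c₀ ∈ MS)
    (h : ∀ N : ℕ, ∃ (n p q : ℕ) (r b : ℂ), N ≤ n ∧ 0 < n ∧ 0 < p ∧ p < q ∧ Nat.Coprime p q ∧
      it r n b = b ∧ mul n (r, b) = Complex.exp (2 * Real.pi * (p / q) * Complex.I) ∧
      r ≠ c₀ ∧ connectedComponentIn (MS \ {r}) c₀ ≠ connectedComponentIn (MS \ {r}) 0 ∧
      (16 * Real.log 2 * (n : ℝ) ^ 2 * q ≤ (min (p : ℝ) (q - p)) ^ 2 ∨
        480 * C₀ ^ 2 * (n : ℝ) ^ (2 * k + 2) ≤ q)) :
    ∀ U ∈ 𝓝 c₀, ∃ V ⊆ U, V ⊆ MS ∧ IsCompact V ∧ IsConnected V ∧ V ∈ 𝓝[MS] c₀ := by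
  refine lc_of_pieces inputs34.conn hc₀ fun ε hε => ?_
  obtain ⟨N₁, hN₁⟩ := small_A hε
  obtain ⟨N₂, hN₂⟩ := root_small' hC₀ hRP hε
  obtain ⟨n, p, q, r, b, hN, hn, hp, hpq, hcop, hb, hm, hrc, hne, hor⟩ := h (max N₁ N₂)
  have hP : Piece r ε := by
    rcases hor with h1 | h1
    · exact hN₁ n p q r b ((le_max_left _ _).trans hN) hn hp hpq hcop hb hm h1
    · exact hN₂ n p q r b ((le_max_right _ _).trans hN) hn hp hpq hcop hb hm h1
  obtain ⟨K, h1, h2, h3, h4, h5, h6, h7⟩ := hP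
  refine ⟨n, r, b, K, hn, hb, ?_, h1, h2, h3, h4, h5, h6, h7, hrc, hne⟩
  rw [hm, Complex.norm_exp]
  simp

end

end Pool.Agent.Work.MLC
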