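import Pool.Agent.Work.MLC.SatPly13
import Pool.Agent.Work.MLC.Sat3

set_option autoImplicit false

/-! # The rotation number in the parameter plane and the rotation number of the circle map
(helper13)

`numod`: a periodic angle compatible with `(θ, w)` determines `nu w n θ` modulo one.
`Ex n x c b`: a ray with combinatorial rotation number `x` (mod 1) lands at `b`. -/

namespace Pool.Agent.Work.MLC

open Filter Topology Metric Set Complex

/-- iterated doubling of a compatible angle -/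
lemma gw_orbit {n : ℕ} {β θ : ℝ} {w : ℕ → ℤ} (hw : ∀ i, w (i + n) = w i) (h : Compat β θ w)
    (i : ℕ) : ∃ m : ℤ, Circ.gw w θ n (2 ^ (n * i) * β) = 2 ^ n * (2 ^ (n * i) * β) - m := by
  have hwi : ∀ j, w (j + n * i) = w j := by
    intro j
    induction i with
    | zero => simp
    | succ i ih =>
      have : j + n * (i + 1) = (j + n * i) + n := by ring
      rw [this, hw, ih]
  refine Circ.gw_lin w θ _ n fun j _ => ?_
  obtain ⟨k, h1, h2⟩ := h (j + n * i)
  rw [hwi] at h1 h2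
  have e : (2 : ℝ) ^ (j + n * i) * β = 2 ^ j * (2 ^ (n * i) * β) := by rw [pow_add]; ring
  rw [e] at h1 h2
  exact ⟨k, h1.le, h2.le⟩

/-- a compatible periodic angle determines the rotation number modulo one -/
theorem numod {n q : ℕ} {β θ θ' : ℝ} {w w' : ℕ → ℤ} (hβ : PerAngle n q β)
    (hw : ∀ i, w (i + n) = w i) (hw' : ∀ i, w' (i + n) = w' i) (h : Compat β θ w)
    (h' : Compat β θ' w') : ∃ k : ℤ, Circ.nu w' n θ' = Circ.nu w n θ + k := by
  obtain ⟨hq, ⟨K, hK⟩, -⟩ := hβ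
  set g := Circ.gw w θ n with hg
  set g' := Circ.gw w' θ' n with hg'
  set B : ℕ → ℝ := fun i => 2 ^ (n * i) * β with hB
  have hBs : ∀ i, B (i + 1) = 2 ^ n * B i := fun i => by
    simp only [hB]; rw [show n * (i + 1) = n + n * i by ring, pow_add]; ring
  have ho : ∀ i, ∃ m : ℤ, g (B i) = B (i + 1) - m := fun i => by
    obtain ⟨m, hm⟩ := gw_orbit hw h i
    exact ⟨m, by rw [hBs]; exact hm⟩
  have ho' : ∀ i, ∃ m : ℤ, g' (B i) = B (i + 1) - m := fun i => by
    obtain ⟨m, hm⟩ := gw_orbit hw' h' i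
    exact ⟨m, by rw [hBs]; exact hm⟩
  choose m hm using ho
  choose m' hm' using ho'
  -- all points of the orbit are periodic modulo one
  have hper : ∀ i, ∃ k : ℤ, (2 : ℝ) ^ (n * q) * B i - B i = k := fun i => by
    refine ⟨2 ^ (n * i) * K, ?_⟩
    simp only [hB]
    push_cast
    rw [← hK]; ring
  have hgi : ∀ (F : CircleDeg1Lift) (t : ℝ) (k : ℤ), F (t + k) = F t + k := fun F t k =>
    F.map_add_int t k
  -- the shift is the same everywhere
  have hd : ∀ i, m i - m' i = m 0 - m' 0 := by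
    intro i
    set s : ℤ := -⌊B i - B 0⌋ with hs
    set t := B 0 with ht
    set t' := B i + s with ht'
    have h0 : t ≤ t' := by
      have := Int.floor_le (B i - B 0)
      rw [ht', hs]; push_cast; linarith
    have h1 : t' < t + 1 := by
      have := Int.lt_floor_add_one (B i - B 0)
      rw [ht', hs]; push_cast; linarith
    have e1 : g t' = B (i + 1) - m i + s := by rw [ht', hgi, hm]
    have e2 : g' t' = B (i + 1) - m' i + s := by rw [ht', hgi, hm']
    have e3 : g t = B 1 - m 0 := hm 0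
    have e4 : g' t = B 1 - m' 0 := hm' 0
    rcases h0.eq_or_lt with heq | hlt
    · rw [← heq, e3] at e1
      rw [← heq, e4] at e2
      have : ((m i - m' i : ℤ) : ℝ) = ((m 0 - m' 0 : ℤ) : ℝ) := by push_cast; linarith
      exact_mod_cast this
    -- no coincidences
    have hno : ∀ z : ℤ, (2 : ℝ) ^ n * (t' - t) ≠ z := by
      intro z hz
      obtain ⟨k1, hk1⟩ := hper i
      obtain ⟨k0, hk0⟩ := hper 0
      have hq' : q = (q - 1) + 1 := by omega
      have e5 : (2 : ℝ) ^ (n * q) * (t' - t) = ((2 ^ (n * (q - 1)) * z : ℤ) : ℝ) := by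
        push_cast
        rw [← hz]
        have : n * q = n * (q - 1) + n := by
          conv_lhs => rw [hq']
          ring
        rw [this, pow_add]; ring
      have e6 : (2 : ℝ) ^ (n * q) * (t' - t) - (t' - t)
          = ((k1 + (2 ^ (n * q) - 1) * s - k0 : ℤ) : ℝ) := by
        push_cast
        rw [← hk1, ← hk0, ht']; ring
      have e7 : t' - t = ((2 ^ (n * (q - 1)) * z - (k1 + (2 ^ (n * q) - 1) * s - k0) : ℤ) : ℝ) := by
        rw [Int.cast_sub, ← e5, ← e6]; ring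
      have e8 : (0 : ℝ) < ((2 ^ (n * (q - 1)) * z - (k1 + (2 ^ (n * q) - 1) * s - k0) : ℤ) : ℝ) := by
        rw [← e7]; linarith
      have e9 : ((2 ^ (n * (q - 1)) * z - (k1 + (2 ^ (n * q) - 1) * s - k0) : ℤ) : ℝ) < 1 := by
        rw [← e7]; linarith
      have e10 : 0 < (2 ^ (n * (q - 1)) * z - (k1 + (2 ^ (n * q) - 1) * s - k0) : ℤ) := by
        exact_mod_cast e8
      have e11 : (2 ^ (n * (q - 1)) * z - (k1 + (2 ^ (n * q) - 1) * s - k0) : ℤ) < 1 := by
        exact_mod_cast e9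
      omega
    have hdiff : B (i + 1) + 2 ^ n * s - B 1 = 2 ^ n * (t' - t) := by
      rw [hBs, hBs 0]; simp only [ht', ht]; ring
    have hg1 : g t ≤ g t' := g.monotone h0
    have hg2 : g t' ≤ g t + 1 := by
      rw [← g.map_add_one]; exact g.monotone h1.le
    have hg1' : g' t ≤ g' t' := g'.monotone h0
    have hg2' : g' t' ≤ g' t + 1 := by
      rw [← g'.map_add_one]; exact g'.monotone h1.le
    have hne1 : g t ≠ g t' := by
      intro heq
      rw [e1, e3] at heq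
      exact hno (2 ^ n * s + (m i - s - m 0)) (by rw [← hdiff]; push_cast; linarith)
    have hne2 : g t' ≠ g t + 1 := by
      intro heq
      rw [e1, e3] at heq
      exact hno (2 ^ n * s + (m i - s - m 0 + 1)) (by rw [← hdiff]; push_cast; linarith)
    have hg1 := lt_of_le_of_ne hg1 hne1
    have hg2 := lt_of_le_of_ne hg2 hne2
    have f1 : (((m i - m' i) - (m 0 - m' 0) : ℤ) : ℝ) < 1 := by
      push_cast
      rw [e1, e3] at hg1
      rw [e2, e4] at hg2'
      linarith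
    have f2 : (-1 : ℝ) < (((m i - m' i) - (m 0 - m' 0) : ℤ) : ℝ) := by
      push_cast
      rw [e1, e3] at hg2
      rw [e2, e4] at hg1'
      linarith
    have f3 : (m i - m' i) - (m 0 - m' 0) < 1 := by exact_mod_cast f1
    have f4 : -1 < (m i - m' i) - (m 0 - m' 0) := by exact_mod_cast f2
    omega
  set d : ℤ := m 0 - m' 0 with hd0
  -- iterates
  have hit : ∀ k : ℕ, (∃ z : ℤ, (g ^ k) β = B k + z) ∧ (g' ^ k) β = (g ^ k) β + (k * d : ℤ) := by
    intro k
    induction k with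
    | zero => refine ⟨⟨0, by simp [hB]⟩, by simp⟩
    | succ k ih =>
      obtain ⟨⟨z, hz⟩, h2⟩ := ih
      have f1 : (g ^ (k + 1)) β = g ((g ^ k) β) := by rw [pow_succ']; rfl
      have f2 : (g' ^ (k + 1)) β = g' ((g' ^ k) β) := by rw [pow_succ']; rfl
      refine ⟨⟨z - m k, ?_⟩, ?_⟩
      · rw [f1, hz, hgi, hm]; push_cast; ring
      · rw [f1, f2, h2, hgi, hz, hgi, hgi, hm, hm']
        have := hd k
        have h3 : (m' k : ℝ) = m k - d := by
          have : m' k = m k - d := by omega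
          rw [this]; push_cast; ring
        rw [h3]; push_cast; ring
  obtain ⟨⟨z, hz⟩, h2⟩ := hit q
  have hBq : B q = β + K := by
    simp only [hB]
    linarith
  refine ⟨d, ?_⟩
  have f1 : (g ^ q) β = β + ((K + z : ℤ) : ℝ) := by rw [hz, hBq]; push_cast; ring
  have f2 : (g' ^ q) β = β + ((K + z + q * d : ℤ) : ℝ) := by rw [h2, f1]; push_cast; ring
  have f3 := CircleDeg1Lift.translationNumber_of_map_pow_eq_add_int _ f1 hq
  have f4 := CircleDeg1Lift.translationNumber_of_map_pow_eq_add_int _ f2 hq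
  have hq0 : (q : ℝ) ≠ 0 := by exact_mod_cast hq.ne'
  show CircleDeg1Lift.translationNumber g' = CircleDeg1Lift.translationNumber g + d
  rw [f3, f4]
  push_cast
  field_simp

/-- denominators -/
lemma den_of_eq {q : ℕ} {P k : ℤ} {x : ℚ} (hq : 0 < q) (hc : IsCoprime P (q : ℤ))
    (h : (P : ℝ) / q = x + k) : q = x.den := by
  have h1 : (P : ℚ) / (q : ℚ) = x + k := by exact_mod_cast h
  have h2 : ((P : ℚ) / ((q : ℤ) : ℚ)).den = q := by
    have := Rat.den_div_eq_of_coprime (a := P) (b := (q : ℤ)) (by exact_mod_cast hq)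
      (Int.isCoprime_iff_nat_coprime.1 hc)
    exact_mod_cast this
  have h3 : ((P : ℚ) / ((q : ℤ) : ℚ)) = x + k := by rw [← h1]; push_cast; rfl
  rw [h3] at h2
  rw [← h2]
  simp

/-- a ray of combinatorial rotation number `x` lands at `b` -/
def Ex (n : ℕ) (x : ℚ) (c b : ℂ) : Prop :=
  ∃ β, Land n c b β x.den ∧ ∃ θ w, (∀ i, w (i + n) = w i) ∧ Compat β θ w ∧
    ∃ k : ℤ, Circ.nu w n θ = x + k

section

variable {n : ℕ} {x : ℚ} {c b : ℂ}

/-- all rays which land at `b` have this rotation number -/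
lemma Ex.all (h : Ex n x c b) (hn : 0 < n) (hx : 2 ≤ x.den) (hM : G c 0 = 0)
    (hfix : it c n b = b) (hρ : 1 < ‖mult n c b‖) {β : ℝ} {q : ℕ} (hl : Land n c b β q) :
    q = x.den ∧ ∀ (θ : ℝ) (w : ℕ → ℤ), (∀ i, w (i + n) = w i) → Compat β θ w →
      ∃ k : ℤ, Circ.nu w n θ = x + k := by
  obtain ⟨β₀, hl₀, θ₀, w₀, hw₀, hc₀, k₀, hk₀⟩ := h
  have hF : Fam n c b {β, β₀} := by
    refine ⟨(Set.finite_singleton _).insert _, ?_, ?_, ⟨β₀, by simp, _, hx, hl₀.1⟩⟩
    · rintro β' (rfl | rfl)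
      · exact ⟨q, hl.1⟩
      · exact ⟨_, hl₀.1⟩
    · rintro β' (rfl | rfl)
      · exact hl.lands hM
      · exact hl₀.lands hM
  obtain ⟨θ, v, hv, hfit⟩ := exists_fits hn hF (portHyp hn c b _ hM hfix hρ hF)
  have c1 : Compat β θ v := hfit.compat (by simp) (hl.lands hM)
  have c2 : Compat β₀ θ v := hfit.compat (by simp) (hl₀.lands hM)
  obtain ⟨k1, hk1⟩ := numod hl₀.1 hw₀ hv.per hc₀ c2
  have e1 : Circ.nu v n θ = x + ((k₀ + k1 : ℤ) : ℝ) := by rw [hk1, hk₀]; push_cast; ring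
  obtain ⟨P, hP1, hP2⟩ := nu_of_compat hl.1 hv.per c1
  refine ⟨den_of_eq hl.1.1 hP1 (hP2.symm.trans e1), fun θ' w' hw' hc' => ?_⟩
  obtain ⟨k2, hk2⟩ := numod hl.1 hv.per hw' c1 hc'
  exact ⟨k₀ + k1 + k2, by rw [hk2, e1]; push_cast; ring⟩

/-- stability -/
lemma Ex.nhds (h : Ex n x c b) (hn : 0 < n) (hM : G c 0 = 0)
    (hfix : it c n b = b) (hρ : 1 < ‖mult n c b‖) : ∀ᶠ y : ℂ × ℂ in 𝓝 (c, b), y ∈ Per n →
      (G y.1 0 = 0 → Ex n x y.1 y.2) ∧
      ∀ θ w, ExtP n y.1 y.2 θ w → ∃ k : ℤ, Circ.nu w n θ = x + k := by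
  obtain ⟨β, hl, θ, w, hw, hc, k, hk⟩ := h
  filter_upwards [land_nhds hn hM hfix hρ hl] with y hy hp
  refine ⟨fun hG => ⟨β, (hy hp).1 hG, θ, w, hw, hc, k, hk⟩, fun θ' w' hE => ?_⟩
  have h1 := (hy hp).2 θ' w' hE.1 hE.2.1 hE.2.2.2.2
  obtain ⟨k1, hk1⟩ := numod hl.1 hw hE.2.2.2.1.per hc h1
  exact ⟨k + k1, by rw [hk1, hk]; push_cast; ring⟩

/-- limits of exterior pairs with rotation number `x` modulo one -/
lemma ex_of_ext (hn : 0 < n) (hM : G c 0 = 0) (hfix : it c n b = b) (hρ : 1 < ‖mult n c b‖)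
    (h : ∃ᶠ y : ℂ × ℂ in 𝓝 (c, b), y ∈ Per n ∧ ∃ θ w, ExtP n y.1 y.2 θ w ∧
      ∃ k : ℤ, Circ.nu w n θ = x + k) : Ex n x c b := by
  have hL : Complex.exp (Complex.log (mult n c b)) = mult n c b :=
    Complex.exp_log (mult_ne_zero57 hρ)
  obtain ⟨β, q, p, hq, hland, -⟩ := Tr.exists_land_rot (lin_Lz hn hfix hρ) hM hL
  obtain ⟨y, ⟨hy, θ, w, hE, k, hk⟩, hev⟩ := (h.and_eventually (land_nhds hn hM hfix hρ hland)).exists
  have h1 := (hev hy).2 θ w hE.1 hE.2.1 hE.2.2.2.2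
  obtain ⟨P, hP1, hP2⟩ := nu_of_compat hland.1 hE.2.2.2.1.per h1
  have hqx : q = x.den := den_of_eq hq hP1 (hP2.symm.trans hk)
  exact ⟨β, hqx ▸ hland, θ, w, hE.2.2.2.1.per, h1, k, hk⟩

/-- closedness -/
lemma ex_closed (hn : 0 < n) (hx : 2 ≤ x.den) (hM : G c 0 = 0) (hfix : it c n b = b)
    (hρ : 1 < ‖mult n c b‖)
    (h : ∃ᶠ y : ℂ × ℂ in 𝓝 (c, b), y ∈ Per n ∧ G y.1 0 = 0 ∧ Ex n x y.1 y.2) : Ex n x c b := by
  have hL : Complex.exp (Complex.log (mult n c b)) = mult n c b :=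
    Complex.exp_log (mult_ne_zero57 hρ)
  obtain ⟨β, q, p, hq, hland, -⟩ := Tr.exists_land_rot (lin_Lz hn hfix hρ) hM hL
  have hρ' : ∀ᶠ y : ℂ × ℂ in 𝓝 (c, b), 1 < ‖mult n y.1 y.2‖ :=
    ((continuous_mult n).norm.tendsto (c, b)).eventually (lt_mem_nhds hρ)
  obtain ⟨y, ⟨hy, hG, hE⟩, hev, hρy⟩ :=
    (h.and_eventually ((land_nhds hn hM hfix hρ hland).and hρ')).exists
  have hl := (hev hy).1 hG
  obtain ⟨hqx, hall⟩ := hE.all hn hx hG hy hρy hl
  have hF : Fam n c b {β} := by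
    refine ⟨Set.finite_singleton _, ?_, ?_, ⟨β, by simp, q, by rw [hqx]; exact hx, hland.1⟩⟩
    · rintro β' rfl; exact ⟨q, hland.1⟩
    · rintro β' rfl; exact hland.lands hM
  obtain ⟨θ, v, hv, hfit⟩ := exists_fits hn hF (portHyp hn c b _ hM hfix hρ hF)
  have c1 : Compat β θ v := hfit.compat (by simp) (hland.lands hM)
  exact ⟨β, hqx ▸ hland, θ, v, hv.per, c1, hall θ v hv.per c1⟩

/-- the PLY inequality with the denominator `x.den`, and the rotation number -/
lemma Ex.ply (h : Ex n x c b) (hn : 0 < n) (hx : 2 ≤ x.den) (hM : c ∈ MM)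
    (hfix : (c, b) ∈ Per n) {L : ℂ} (hL : mul n (c, b) = exp L) (hre : 0 < L.re) :
    ∃ p : ℤ, Tr.RotT n c b L ((p : ℚ) / (x.den : ℚ)) ∧
      ‖L - axisPt ((p : ℚ) / (x.den : ℚ))‖ ^ 2 ≤ 2 * n * Real.log 2 / x.den * L.re := by
  have hM0 : G c 0 = 0 := mem_M_iff.1 hM
  have hρ : 1 < ‖mult n c b‖ := by
    have : mult n c b = mul n (c, b) := rfl
    rw [this, hL, norm_exp]; exact Real.one_lt_exp_iff.2 hre
  have hL' : exp L = mult n c b := hL.symm
  obtain ⟨β, q, p, hq, hland, -, hT, hply⟩ := Tr.exists_land_rot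
    (Tr.lin_Lz hn (Tr.rep_of hfix hL hre) rfl) hM0 hL'
  obtain ⟨hqx, -⟩ := h.all hn hx hM0 hfix hρ hland
  subst hqx
  refine ⟨p, ⟨hre, hM, hfix, hL, x.den, p, hq, hT, rfl⟩, ?_⟩
  have e : axisPt ((p : ℚ) / (x.den : ℚ)) = 2 * Real.pi * ((p : ℂ) / (x.den : ℂ)) * I := by
    unfold axisPt; push_cast; ring
  rw [e]; exact hply

end

end Pool.Agent.Work.MLC
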