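import Pool.Agent.Work.MLC.RotX13

set_option autoImplicit false

/-! # The exterior PLY inequality for a given logarithm; the centre `0` (helper13) -/

namespace Pool.Agent.Work.MLC

open Filter Topology Metric Set Complex Pool.Agent.Work.MLC.Sat

/-- the exterior PLY inequality for a given logarithm -/
lemma ply_of_ext {n : ℕ} (hn : 0 < n) {x : ℚ} {k : ℤ} {L : ℂ} {y : ℂ × ℂ} {θ : ℝ} {w : ℕ → ℤ}
    (hE : ExtP n y.1 y.2 θ w) (hν : Circ.nu w n θ = x + k) (hL : mul n y = exp L)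
    (h23 : ‖mul n y‖ < 23 / 10) (h1 : ‖L - axisPt x‖ ≤ 1) (h2 : 81 * n * L.re ≤ 1) :
    ‖L - axisPt x‖ ^ 2 ≤ 81 * n * L.re := by
  obtain ⟨-, ℓ, hℓ, hply⟩ := extP_ply hn hE (G_le_four_of_mul_lt hn hE.2.2.1 h23)
  have h3 : exp ℓ = exp L := by rw [hℓ, ← hL]; rfl
  rw [Complex.exp_eq_exp_iff_exists_int] at h3
  obtain ⟨m, hm⟩ := h3
  have hre : ℓ.re = L.re := by rw [hm]; simp
  rw [hre, hν] at hply
  have h4 : ‖ℓ - 2 * Real.pi * ((x + k : ℝ) : ℂ) * I‖ ≤ 1 := by
    apply le_of_sq_le_sq _ (by norm_num)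
    linarith
  have h5 : ℓ - 2 * Real.pi * ((x + k : ℝ) : ℂ) * I = (L - axisPt x) + ((2 * Real.pi * (m - k) : ℝ) : ℂ) * I := by
    rw [hm]; unfold axisPt; push_cast; ring
  have h6 : ‖((2 * Real.pi * (m - k) : ℝ) : ℂ) * I‖ ≤ 2 := by
    have h7 : ((2 * Real.pi * (m - k) : ℝ) : ℂ) * I
        = (ℓ - 2 * Real.pi * ((x + k : ℝ) : ℂ) * I) - (L - axisPt x) := by rw [h5]; ring
    rw [h7]
    exact (norm_sub_le _ _).trans (by linarith)
  have hmk : m = k := by
    rw [norm_mul, Complex.norm_I, mul_one, Complex.norm_real, Real.norm_eq_abs, abs_mul,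
      abs_of_pos (by positivity : (0 : ℝ) < 2 * Real.pi)] at h6
    have hpi := Real.pi_gt_three
    have h7 : |((m - k : ℤ) : ℝ)| < 1 := by
      push_cast
      by_contra hcon
      push Not at hcon
      linarith [mul_le_mul_of_nonneg_left hcon (by positivity : (0 : ℝ) ≤ 2 * Real.pi)]
    have h8 : |(m - k : ℤ)| < 1 := by exact_mod_cast h7
    have h9 := Int.abs_lt_one_iff.1 h8
    omega
  rw [h5, hmk] at hply
  simpa using hply

/-- no point over the centre `0` has a multiplier of modulus in `(1, 2)` -/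
lemma zero_mult {n : ℕ} (hn : 0 < n) {b : ℂ} (hb : it 0 n b = b) (h1 : 1 < ‖mul n (0, b)‖) :
    2 ≤ ‖mul n (0, b)‖ := by
  have hit : ∀ k, it 0 k b = b ^ 2 ^ k := by
    intro k
    induction k with
    | zero => simp [it]
    | succ k ih =>
      rw [it_succ, ih, f_apply, add_zero, ← pow_mul, pow_succ]
  have hmul : ∀ k, ‖mult k 0 b‖ = 2 ^ k * ∏ i ∈ Finset.range k, ‖b‖ ^ 2 ^ i := by
    intro k
    induction k with
    | zero => simp [mult]
    | succ k ih =>
      have : mult (k + 1) 0 b = mult k 0 b * (2 * it 0 k b) := by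
        simp [mult, Finset.prod_range_succ]
      rw [this, norm_mul, ih, hit, Finset.prod_range_succ]
      simp [pow_succ]; ring
  have hmn := hmul n
  have hb0 : b ≠ 0 := by
    rintro rfl
    have : mult n 0 0 = 0 := by
      rw [← norm_eq_zero, hmn]
      have : ∏ i ∈ Finset.range n, ‖(0 : ℂ)‖ ^ 2 ^ i = 0 :=
        Finset.prod_eq_zero (Finset.mem_range.2 hn) (by simp)
      rw [this, mul_zero]
    have h2 : mul n (0, 0) = 0 := this
    rw [h2, norm_zero] at h1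
    linarith
  have hnb : ‖b‖ = 1 := by
    have h2 : ‖b‖ ^ 2 ^ n = ‖b‖ := by rw [← norm_pow, ← hit, hb]
    have h3 : 0 < ‖b‖ := norm_pos_iff.2 hb0
    have h4 : ‖b‖ ^ (2 ^ n - 1) = 1 := by
      have h5 : 2 ^ n = (2 ^ n - 1) + 1 := (Nat.sub_add_cancel Nat.one_le_two_pow).symm
      rw [h5, pow_succ] at h2
      exact mul_right_cancel₀ h3.ne' (by rw [h2, one_mul])
    refine (pow_eq_one_iff_of_nonneg h3.le ?_).1 h4
    have : 2 ^ 1 ≤ 2 ^ n := Nat.pow_le_pow_right (by norm_num) hn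
    omega
  have : ‖mul n (0, b)‖ = 2 ^ n := by
    have : mul n (0, b) = mult n 0 b := rfl
    rw [this, hmn, hnb]; simp
  rw [this]
  calc (2 : ℝ) = 2 ^ 1 := (pow_one _).symm
    _ ≤ 2 ^ n := pow_le_pow_right₀ (by norm_num) hn

end Pool.Agent.Work.MLC
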