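import Pool.Agent.Work.MLC.Hyp51
import Pool.Agent.Work.MLC.SatCh26
import Pool.Agent.Work.MLC.NV2

set_option autoImplicit false

/-! # Theorem S: the boundary of the child component (helper51) -/

namespace Pool.Agent.Work.MLC.Sat

open Filter Topology Metric Set Complex

section

variable {D : Dat} {Z : ℂ → Set ℂ} {e : ℂ → ℂ}

/-- the cycle over `L` has exact period `n` -/
def Ex (D : Dat) (Z : ℂ → Set ℂ) (L : ℂ) : Prop :=
  ∀ z ∈ Z L, ∀ d, 0 < d → d < D.n → it (D.c L) d z ≠ z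

lemma ex_iff (hF : CycFam D.n D.c D.U Z) {L z : ℂ} (hL : L ∈ D.U) (hz : z ∈ Z L) :
    Ex D Z L ↔ ∀ d, 0 < d → d < D.n → it (D.c L) d z ≠ z := by
  refine ⟨fun h => h z hz, fun h z' hz' d hd hdn h1 => h d hd hdn ?_⟩
  obtain ⟨i, hi⟩ := (hF.cyc L hL z' hz' z).1 hz
  rw [hi, it_comp, add_comm, ← it_comp, h1]

lemma branch_mem (hP : D.Par) (hF : CycFam D.n D.c D.U Z) {L z : ℂ} (hL : L ∈ D.U)
    (hz : z ∈ Z L) : ∃ β : ℂ → ℂ, ContinuousAt β (D.c L) ∧ β (D.c L) = z ∧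
      ∀ᶠ L' in 𝓝 L, L' ∈ D.U ∧ (D.c L', β (D.c L')) ∈ Per D.n ∧ β (D.c L') ∈ Z L' := by
  have hB := U_sub_B hP hL
  obtain ⟨h1, h2⟩ := hF.fix L hL z hz
  obtain ⟨β, hβa, hβ0, hβ⟩ := chart h1 h2
  simp only at hβ0 hβa
  have hc := c_contAt hP hB
  have h8 : Tendsto (fun L' => β (D.c L')) (𝓝 L) (𝓝 z) := by
    rw [← hβ0]; exact hβa.continuousAt.tendsto.comp hc.tendsto
  have h9 : Tendsto (fun L' => ((L', β (D.c L')) : ℂ × ℂ)) (𝓝 L) (𝓝 (L, z)) :=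
    tendsto_id.prodMk_nhds h8
  have h10 : Tendsto (fun L' => ((D.c L', β (D.c L')) : ℂ × ℂ)) (𝓝 L) (𝓝 (D.c L, z)) :=
    hc.tendsto.prodMk_nhds h8
  refine ⟨β, hβa.continuousAt, hβ0, ?_⟩
  filter_upwards [h9.eventually (hF.cont L hL z hz), h10.eventually hβ, isOpen_U.mem_nhds hL]
      with L' h12 h13 h14
  exact ⟨h14, h13.2 rfl, h12 (h13.2 rfl)⟩

/-- exactness is locally constant -/
lemma ex_nhds (hP : D.Par) (hF : CycFam D.n D.c D.U Z) {L : ℂ} (hL : L ∈ D.U) :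
    ∀ᶠ L' in 𝓝 L, (Ex D Z L' ↔ Ex D Z L) := by
  obtain ⟨z, hz⟩ := hF.ne L hL
  obtain ⟨h1, h2⟩ := hF.fix L hL z hz
  obtain ⟨β, hβa, hβ0, hβ⟩ := branch_mem hP hF hL hz
  have hc := c_contAt hP (U_sub_B hP hL)
  have h8 : Tendsto (fun L' => β (D.c L')) (𝓝 L) (𝓝 z) := by
    rw [← hβ0]; exact hβa.tendsto.comp hc.tendsto
  have h10 : Tendsto (fun L' => ((D.c L', β (D.c L')) : ℂ × ℂ)) (𝓝 L) (𝓝 (D.c L, z)) :=
    hc.tendsto.prodMk_nhds h8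
  filter_upwards [hβ, h10.eventually (Hyp.exact_nhds h1 h2)] with L' h3 h6
  rw [ex_iff hF h3.1 h3.2.2, ex_iff hF hL hz]
  exact h6 h3.2.1

lemma cR_pos {n : ℕ} (hn : 0 < n) : 0 < cR n := by
  have h1 : (0 : ℝ) < n := by exact_mod_cast hn
  unfold cR; positivity

lemma cR_le_one {n : ℕ} (hn : 0 < n) : cR n ≤ 1 := by
  have h1 : (1 : ℝ) ≤ n := by exact_mod_cast hn
  have h2 : (1 : ℝ) ≤ (n : ℝ) ^ 5 := one_le_pow₀ h1
  unfold cR
  rw [div_le_one (by positivity)]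
  linarith

lemma e_mem_U (hP : D.Par) (hCh : Child D Z e) {ℓ : ℂ} (hℓ : ℓ ∈ ball (0 : ℂ) (cR D.n))
    (h0 : ℓ ≠ 0) : e ℓ ∈ D.U := by
  refine ⟨(hCh.maps ℓ hℓ).1, fun h => h0 ?_⟩
  have h1 : e ℓ = D.a := h
  exact hCh.inj hℓ (mem_ball_self (cR_pos (Par_n_pos hP))) (by rw [h1, hCh.zero])

lemma e_contAt (hCh : Child D Z e) {ℓ : ℂ} (hℓ : ℓ ∈ ball (0 : ℂ) (cR D.n)) :
    ContinuousAt e ℓ :=
  hCh.diff.continuousOn.continuousAt (isOpen_ball.mem_nhds hℓ)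

/-- the left half of the coordinate disc -/
def HL (n : ℕ) : Set ℂ := ball (0 : ℂ) (cR n) ∩ {ℓ | ℓ.re < 0}

lemma HL_convex (n : ℕ) : Convex ℝ (HL n) :=
  (convex_ball _ _).inter (convex_halfSpace_re_lt 0)

lemma isOpen_HL (n : ℕ) : IsOpen (HL n) :=
  isOpen_ball.inter (isOpen_lt Complex.continuous_re continuous_const)

lemma HL_ne {n : ℕ} {ℓ : ℂ} (h : ℓ ∈ HL n) : ℓ ≠ 0 := by
  rintro rfl
  have : (0 : ℂ).re < 0 := h.2
  simp at this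

/-- exactness over the left half disc -/
lemma ex_half (hP : D.Par) (hG : Glued D Z) (hCh : Child D Z e) {ℓ₀ : ℂ} (h₀ : ℓ₀ ∈ HL D.n)
    (hE : Ex D Z (e ℓ₀)) {ℓ : ℂ} (hℓ : ℓ ∈ HL D.n) : Ex D Z (e ℓ) := by
  have hev : ∀ ℓ' ∈ HL D.n, ∀ᶠ ℓ'' in 𝓝 ℓ', (Ex D Z (e ℓ'') ↔ Ex D Z (e ℓ')) := fun ℓ' h' =>
    (e_contAt hCh h'.1).eventually (ex_nhds hP hG.fam (e_mem_U hP hCh h'.1 (HL_ne h')))
  have h1 : HL D.n ⊆ {ℓ' | ℓ' ∈ HL D.n ∧ Ex D Z (e ℓ')} := by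
    refine (HL_convex D.n).isPreconnected.subset_of_closure_inter_subset ?_ ⟨ℓ₀, h₀, h₀, hE⟩ ?_
    · rw [isOpen_iff_mem_nhds]
      rintro ℓ' ⟨h2, h3⟩
      filter_upwards [hev ℓ' h2, (isOpen_HL D.n).mem_nhds h2] with ℓ'' h4 h5
      exact ⟨h5, h4.2 h3⟩
    · rintro ℓ' ⟨h2, h3⟩
      obtain ⟨ℓ'', h4, h5⟩ := mem_closure_iff_nhds.1 h2 _ (hev ℓ' h3)
      exact ⟨h3, h4.1 h5.2⟩
  exact (h1 hℓ).2

/-- the norm of the multiplier at the root -/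
lemma norm_mul_root (hP : D.Par) : ‖mul D.n (D.σ D.a)‖ = 1 := by
  obtain ⟨h1, h2⟩ := hP.sec D.a (a_mem_B hP)
  have h3 : mul D.n (D.σ D.a) = mul D.m (D.σ D.a) ^ D.x.den := Hyp.mul_mul h1
  rw [h3, h2, norm_pow, Complex.norm_exp]
  have h4 : D.a.re = 0 := by unfold Dat.a; exact LimbData.axisPt_re _
  rw [h4, Real.exp_zero, one_pow]

lemma m_lt_n (hP : D.Par) : D.m < D.n := by
  have h1 : 2 ≤ D.x.den := by
    by_contra h
    have h2 : D.x.den = 1 := by have := D.x.pos; omega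
    have h3 : ((D.x.num : ℤ) : ℚ) = D.x := Rat.coe_int_num_of_den_eq_one h2
    have h4 := hP.x_pos
    have h5 := hP.x_lt
    rw [← h3] at h4 h5
    have h6 : 0 < D.x.num := by exact_mod_cast h4
    have h7 : D.x.num < 1 := by exact_mod_cast h5
    omega
  unfold Dat.n
  have := hP.m_pos
  nlinarith

/-- the child component contains one attracting pair of the family -/
lemma start (h10 : S10_origin) (h12 : S12_child) (hP : D.Par) (hC : D.Cir) (hR : Regions D)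
    (hG : Glued D Z) (hCh : Child D Z e) {W : Set ℂ} (hcl : D.σ D.a ∈ closure (AttW D.n W)) :
    ∃ ℓ₀ ∈ HL D.n, Ex D Z (e ℓ₀) ∧ D.c (e ℓ₀) ∈ W := by
  have hn := Par_n_pos hP
  obtain ⟨K, hKa, hK⟩ := exists_K hG.fam
  have hlim := h10 D Z K hP hC hR hG hK
  have hd := K_diff_ball hP hG.fam hK hKa hlim
  have hch := h12 D Z K hP hC hR hG hK hd hKa
  obtain ⟨δ, hδ, huq⟩ := hCh.uniq
  have hKc : ContinuousAt K D.a :=
    hd.continuousOn.continuousAt (isOpen_ball.mem_nhds (mem_ball_self (sR_pos hP)))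
  -- good neighbourhood of the root
  have hlog : ∀ᶠ L in 𝓝 D.a, ‖Complex.log (K L)‖ < cR D.n := by
    have h1 : Tendsto (fun L => ‖Complex.log (K L)‖) (𝓝 D.a) (𝓝 0) := by
      have h2 : ContinuousAt Complex.log (K D.a) := by
        rw [hKa]; exact continuousAt_clog (by simp)
      have h3 : ContinuousAt (fun L => ‖Complex.log (K L)‖) D.a := (h2.comp hKc).norm
      have h4 := h3.tendsto
      simpa [hKa] using h4
    exact h1.eventually (gt_mem_nhds (cR_pos hn))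
  have hK0 : ∀ᶠ L in 𝓝 D.a, K L ≠ 0 := hKc.eventually_ne (by rw [hKa]; exact one_ne_zero)
  obtain ⟨V₁, hV₁, V₂, hV₂, hV⟩ := mem_nhds_prod_iff.1 hch
  set V : Set ℂ := {L | L ∈ V₁ ∧ L ∈ ball D.a δ ∧ L ∈ ball D.a (sR D.m D.x) ∧
    ‖Complex.log (K L)‖ < cR D.n ∧ K L ≠ 0} with hVdef
  have hVn : V ∈ 𝓝 D.a := by
    filter_upwards [hV₁, ball_mem_nhds D.a hδ, ball_mem_nhds D.a (sR_pos hP), hlog, hK0]
      with L g1 g2 g3 g4 g5
    exact ⟨g1, g2, g3, g4, g5⟩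
  have hcV : D.c '' V ∈ 𝓝 (D.c D.a) := by
    rw [← c_map_nhds hP (a_mem_B hP)]
    exact image_mem_map hVn
  have h5 : ∀ᶠ s : ℂ × ℂ in 𝓝 (D.σ D.a), s.1 ∈ D.c '' V ∧ s.2 ∈ V₂ := by
    have h6 : (D.c '' V) ×ˢ V₂ ∈ 𝓝 (D.σ D.a) := prod_mem_nhds hcV hV₂
    exact h6
  -- the multipliers over the root
  have h6 : ∀ᶠ s : ℂ × ℂ in 𝓝 (D.σ D.a), mul D.n s ∉
      ({w : ℂ | ∃ b, it (D.c D.a) D.n b = b ∧ mul D.n (D.c D.a, b) = w} ∩ {w | ‖w‖ < 1}) := by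
    have h7 := (finite_mults hn (D.c D.a)).subset
      (inter_subset_left (t := {w : ℂ | ‖w‖ < 1}))
    have h8 : mul D.n (D.σ D.a) ∈
      ({w : ℂ | ∃ b, it (D.c D.a) D.n b = b ∧ mul D.n (D.c D.a, b) = w} ∩ {w | ‖w‖ < 1})ᶜ := by
      rintro ⟨-, h9⟩
      have h10 : ‖mul D.n (D.σ D.a)‖ < 1 := h9
      rw [norm_mul_root hP] at h10
      exact lt_irrefl _ h10
    exact ((continuous_mul' D.n).tendsto (D.σ D.a)).eventually
      (h7.isClosed.isOpen_compl.mem_nhds h8)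
  obtain ⟨s, hs, ⟨⟨L, ⟨g1, g2, g3, g4, g5⟩, hLs⟩, hs2⟩, hs3⟩ :=
    ((mem_closure_iff_frequently.1 hcl).and_eventually (h5.and h6)).exists
  obtain ⟨s1, s2⟩ := s
  simp only at hLs hs2
  subst hLs
  obtain ⟨hsW, hsP, hsm⟩ := hs
  have hsA : (D.c L, s2) ∈ Hyp.Att D.n := (Hyp.mem_Att_iff hn).2 ⟨hsP, hsm⟩
  have hLa : L ≠ D.a := by
    rintro rfl
    exact hs3 ⟨⟨s2, hsA.1, rfl⟩, hsA.2.2⟩
  have hLU : L ∈ D.U := ⟨g3, hLa⟩
  have hsb : s2 ≠ D.b L := by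
    rintro rfl
    have h7 := (hP.sec L (U_sub_B hP hLU)).1
    exact hsA.2.1 D.m hP.m_pos (m_lt_n hP) h7
  have hsZ : s2 ∈ Z L := hV (show (L, s2) ∈ V₁ ×ˢ V₂ from ⟨g1, hs2⟩) hsA.1 hsb
  have hmK : mul D.n (D.c L, s2) = K L := hK L hLU s2 hsZ
  have hℓb : Complex.log (K L) ∈ ball (0 : ℂ) (cR D.n) := mem_ball_zero_iff.2 g4
  have hexp : exp (Complex.log (K L)) = K L := Complex.exp_log g5
  have hLe : L = e (Complex.log (K L)) :=
    huq L g2 hLa _ hℓb s2 hsZ (by rw [hmK, hexp])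
  have hre : (Complex.log (K L)).re < 0 := by
    rw [Complex.log_re]
    refine Real.log_neg (norm_pos_iff.2 g5) ?_
    rw [← hmK]; exact hsA.2.2
  refine ⟨Complex.log (K L), ⟨hℓb, hre⟩, ?_, ?_⟩
  · rw [← hLe]
    exact (ex_iff hG.fam hLU hsZ).2 hsA.2.1
  · rw [← hLe]; exact hsW

/-- over the left half disc the family is attracting, over the child component -/
lemma half (hP : D.Par) (hG : Glued D Z) (hCh : Child D Z e) {W : Set ℂ} (hW : HypComp D.n W)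
    {ℓ₀ : ℂ} (h₀ : ℓ₀ ∈ HL D.n) (hE : Ex D Z (e ℓ₀)) (hcW : D.c (e ℓ₀) ∈ W) :
    ∀ ℓ ∈ HL D.n, D.c (e ℓ) ∈ W ∧ ∀ z ∈ Z (e ℓ), (D.c (e ℓ), z) ∈ Hyp.Att D.n := by
  have hA : ∀ ℓ ∈ HL D.n, ∀ z ∈ Z (e ℓ), (D.c (e ℓ), z) ∈ Hyp.Att D.n := by
    intro ℓ hℓ z hz
    have hU := e_mem_U hP hCh hℓ.1 (HL_ne hℓ)
    refine ⟨(hG.fam.fix _ hU z hz).1, ex_half hP hG hCh h₀ hE hℓ z hz, ?_⟩
    rw [hCh.mul_eq ℓ hℓ.1 (HL_ne hℓ) z hz, Complex.norm_exp]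
    exact Real.exp_lt_one_iff.2 hℓ.2
  intro ℓ hℓ
  refine ⟨?_, hA ℓ hℓ⟩
  have hc : ContinuousOn (fun ℓ => D.c (e ℓ)) (HL D.n) := by
    intro ℓ' h'
    have hU := e_mem_U hP hCh h'.1 (HL_ne h')
    have h1 : ContinuousAt (fun ℓ => D.c (e ℓ)) ℓ' :=
      ContinuousAt.comp (g := D.c) (c_contAt hP (U_sub_B hP hU)) (e_contAt hCh h'.1)
    exact h1.continuousWithinAt
  have hpre := (HL_convex D.n).isPreconnected.image _ hc
  have hsub : (fun ℓ => D.c (e ℓ)) '' HL D.n ⊆ Hyp.AA D.n := by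
    rintro _ ⟨ℓ', h', rfl⟩
    have hU := e_mem_U hP hCh h'.1 (HL_ne h')
    obtain ⟨z, hz⟩ := hG.fam.ne _ hU
    exact ⟨z, (Hyp.mem_Att_iff (Par_n_pos hP)).1 (hA ℓ' h' z hz)⟩
  obtain ⟨c₁, hc₁, hWe⟩ := hW
  have h2 : connectedComponentIn (Hyp.AA D.n) c₁ =
      connectedComponentIn (Hyp.AA D.n) (D.c (e ℓ₀)) := by
    refine connectedComponentIn_eq ?_
    rw [hWe] at hcW
    exact hcW
  have h3 : W = connectedComponentIn (Hyp.AA D.n) (D.c (e ℓ₀)) := by rw [← h2]; exact hWe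
  rw [h3]
  exact hpre.subset_connectedComponentIn ⟨ℓ₀, h₀, rfl⟩ hsub ⟨ℓ, hℓ, rfl⟩

end

/-- **the boundary of the child component near the root** -/
theorem s15_bdry (h7 : S7_fatou) (h10 : S10_origin) (h12 : S12_child) : S15_bdry := by
  intro D Z e hP hC hR hG hCh W hW hcl y ℓ hy hm hre h0 hℓ
  have hn := Par_n_pos hP
  obtain ⟨ℓ₀, h₀, hE, hcW⟩ := start h10 h12 hP hC hR hG hCh hcl
  have hH := half hP hG hCh hW h₀ hE hcW
  have hU := e_mem_U hP hCh hℓ h0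
  -- the branch over the limit
  obtain ⟨z₀, hz₀⟩ := hG.fam.ne _ hU
  obtain ⟨β, hβc, hβ0, hβ⟩ := branch_mem hP hG.fam hU hz₀
  -- the coordinate of the approximating pairs
  set g : ℂ × ℂ → ℂ := fun s => ℓ + Complex.log (mul D.n s / exp ℓ) with hg
  have hgc : Tendsto g (𝓝 y) (𝓝 ℓ) := by
    have h1 : ContinuousAt (fun s : ℂ × ℂ => mul D.n s / exp ℓ) y :=
      (continuous_mul' D.n).continuousAt.div_const _
    have h2 : ContinuousAt Complex.log (mul D.n y / exp ℓ) := by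
      rw [hm, div_self (exp_ne_zero _)]; exact continuousAt_clog (by simp)
    have h3 : ContinuousAt g y := continuousAt_const.add
      (ContinuousAt.comp (g := Complex.log) (f := fun s : ℂ × ℂ => mul D.n s / exp ℓ) h2 h1)
    have h4 := h3.tendsto
    have h5 : g y = ℓ := by
      simp only [hg, hm, div_self (exp_ne_zero _), Complex.log_one, add_zero]
    rwa [h5] at h4
  have hm0 : ∀ᶠ s : ℂ × ℂ in 𝓝 y, mul D.n s ≠ 0 :=
    (continuous_mul' D.n).continuousAt.eventually_ne (by rw [hm]; exact exp_ne_zero _)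
  have hgexp : ∀ᶠ s : ℂ × ℂ in 𝓝 y, exp (g s) = mul D.n s := by
    filter_upwards [hm0] with s hs
    simp only [hg]
    rw [Complex.exp_add, Complex.exp_log (div_ne_zero hs (exp_ne_zero _)),
      mul_div_cancel₀ _ (exp_ne_zero _)]
  have hgb : ∀ᶠ s : ℂ × ℂ in 𝓝 y, g s ∈ ball (0 : ℂ) (cR D.n) :=
    hgc.eventually (isOpen_ball.mem_nhds hℓ)
  have hge : Tendsto (fun s => e (g s)) (𝓝 y) (𝓝 (e ℓ)) := (e_contAt hCh hℓ).tendsto.comp hgc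
  have hgβ := hge.eventually hβ
  have hcc : Tendsto (fun s => D.c (e (g s))) (𝓝 y) (𝓝 (D.c (e ℓ))) :=
    (c_contAt hP (U_sub_B hP hU)).tendsto.comp hge
  -- attracting pairs near `y`
  have hfr : ∃ᶠ s in 𝓝 y, s.1 = D.c (e (g s)) ∧ ∃ i ∈ Finset.range D.n,
      s.2 = it (D.c (e (g s))) i (β (D.c (e (g s)))) := by
    refine (mem_closure_iff_frequently.1 hy).mp ?_
    filter_upwards [hgexp, hgb, hgβ] with s h1 h2 h3 hs
    obtain ⟨h4, h5, h6⟩ := hs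
    have hsA : s ∈ Hyp.Att D.n := (Hyp.mem_Att_iff hn).2 ⟨h5, h6⟩
    have h7' : g s ∈ HL D.n := by
      refine ⟨h2, ?_⟩
      have h8 : ‖exp (g s)‖ < 1 := by rw [h1]; exact hsA.2.2
      rw [Complex.norm_exp] at h8
      exact Real.exp_lt_one_iff.1 h8
    obtain ⟨h8, h9⟩ := hH _ h7'
    have h10' := h9 _ h3.2.2
    have h11 : mul D.n (D.c (e (g s)), β (D.c (e (g s)))) = exp (g s) :=
      hCh.mul_eq _ h2 (HL_ne h7') _ h3.2.2
    have h12' : s.1 = D.c (e (g s)) :=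
      Hyp.hyp_inj (x := s) (y := (D.c (e (g s)), β (D.c (e (g s))))) h7 hn hW hsA h4 h10' h8
        (by rw [h11, h1])
    refine ⟨h12', ?_⟩
    have hsA' : (D.c (e (g s)), s.2) ∈ Hyp.Att D.n := by rw [← h12']; exact hsA
    obtain ⟨i, hi⟩ := h7 (D.c (e (g s))) (β (D.c (e (g s)))) s.2 D.n D.n hn hn h10'.1 h10'.2.2
      hsA'.1 hsA'.2.2
    refine ⟨i % D.n, Finset.mem_range.2 (Nat.mod_lt _ hn), ?_⟩
    rw [hi]
    conv_lhs => rw [← Nat.mod_add_div i D.n]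
    exact it_mul_per h10'.1 _ _
  have hy1 : y.1 = D.c (e ℓ) := by
    by_contra hne
    obtain ⟨A, B, hA, hB, hyA, hB', hAB⟩ := t2_separation hne
    have h1 : ∀ᶠ s : ℂ × ℂ in 𝓝 y, s.1 ∈ A := continuous_fst.continuousAt.eventually
      (hA.mem_nhds hyA)
    have h2 : ∀ᶠ s : ℂ × ℂ in 𝓝 y, D.c (e (g s)) ∈ B := hcc.eventually (hB.mem_nhds hB')
    obtain ⟨s, ⟨h3, -⟩, h4, h5⟩ := (hfr.and_eventually (h1.and h2)).exists
    rw [← h3] at h5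
    exact Set.disjoint_left.1 hAB h4 h5
  refine ⟨hy1, ?_⟩
  have hfr2 : ∃ i ∈ Finset.range D.n, ∃ᶠ s : ℂ × ℂ in 𝓝 y,
      s.2 = it (D.c (e (g s))) i (β (D.c (e (g s)))) := by
    by_contra hno
    have h1 : ∀ᶠ s : ℂ × ℂ in 𝓝 y, ∀ i ∈ Finset.range D.n,
        ¬ s.2 = it (D.c (e (g s))) i (β (D.c (e (g s)))) := by
      rw [Filter.eventually_all_finset]
      intro i hi
      exact not_frequently.1 fun h => hno ⟨i, hi, h⟩
    obtain ⟨s, ⟨-, i, hi, h2⟩, h3⟩ := (hfr.and_eventually h1).exists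
    exact h3 i hi h2
  obtain ⟨i, -, hi⟩ := hfr2
  have hlim : Tendsto (fun s : ℂ × ℂ => it (D.c (e (g s))) i (β (D.c (e (g s))))) (𝓝 y)
      (𝓝 (it (D.c (e ℓ)) i z₀)) := by
    have h1 : Tendsto (fun s => β (D.c (e (g s)))) (𝓝 y) (𝓝 z₀) := by
      have := hβc.tendsto.comp hcc
      rwa [hβ0] at this
    exact ((continuous_it i).tendsto (D.c (e ℓ), z₀)).comp (hcc.prodMk_nhds h1)
  have hy2 : y.2 = it (D.c (e ℓ)) i z₀ := by
    by_contra hne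
    obtain ⟨A, B, hA, hB, hyA, hB', hAB⟩ := t2_separation hne
    have h1 : ∀ᶠ s : ℂ × ℂ in 𝓝 y, s.2 ∈ A := continuous_snd.continuousAt.eventually
      (hA.mem_nhds hyA)
    have h2 := hlim.eventually (hB.mem_nhds hB')
    obtain ⟨s, h3, h4, h5⟩ := (hi.and_eventually (h1.and h2)).exists
    rw [← h3] at h5
    exact Set.disjoint_left.1 hAB h4 h5
  rw [hy2]
  exact (hG.fam.cyc _ hU z₀ hz₀ _).2 ⟨i, rfl⟩

end Pool.Agent.Work.MLC.Sat
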