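import Pool.Agent.Work.MLC.SatCircA
import Pool.Agent.Work.MLC.Strip0
import Pool.Agent.Work.MLC.Comb

set_option autoImplicit false

/-! # Circle module for satellite components, part B (helper54)

The portrait of a compatible angle, its characteristic arc, and the flipped word. -/

namespace Pool.Agent.Work.MLC

open Set Circ CircleDeg1Lift Filter Topology

/-- the angles of the portrait of `x` in phase `i` -/
def AA (N : ℕ) (x : ℝ) (i : ℕ) : Set ℝ := {a | ∃ (m : ℕ) (k : ℤ), a = 2 ^ (i + N * m) * x + k}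

theorem mem_AA (N : ℕ) (x : ℝ) (i : ℕ) : 2 ^ i * x ∈ AA N x i := ⟨0, 0, by simp⟩

theorem AA_shift {N : ℕ} {x : ℝ} {i : ℕ} {a : ℝ} (h : a ∈ AA N x i) (k : ℤ) : a + k ∈ AA N x i := by
  obtain ⟨m, l, rfl⟩ := h
  exact ⟨m, l + k, by push_cast; ring⟩

theorem AA_dbl {N : ℕ} {x : ℝ} {i : ℕ} {a : ℝ} (h : a ∈ AA N x i) : 2 * a ∈ AA N x (i + 1) := by
  obtain ⟨m, l, rfl⟩ := h
  refine ⟨m, 2 * l, ?_⟩
  rw [show i + 1 + N * m = (i + N * m) + 1 by ring, pow_succ]
  push_cast; ring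

theorem AA_dbl' {N : ℕ} {x : ℝ} {i : ℕ} {a : ℝ} (h : a ∈ AA N x i) (k : ℤ) :
    2 * a - k ∈ AA N x (i + 1) := by
  have := AA_shift (AA_dbl h) (-k)
  push_cast at this
  rwa [← sub_eq_add_neg] at this

theorem AA_sur {N : ℕ} {x : ℝ} {i : ℕ} {b : ℝ} (h : b ∈ AA N x (i + 1)) :
    ∃ a ∈ AA N x i, ∃ k : ℤ, 2 * a = b + k := by
  obtain ⟨m, l, rfl⟩ := h
  refine ⟨2 ^ (i + N * m) * x, ⟨m, 0, by simp⟩, -l, ?_⟩
  rw [show i + 1 + N * m = (i + N * m) + 1 by ring, pow_succ]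
  push_cast; ring

/-- powers of the period -/
theorem pow_per_mul {x : ℝ} {M : ℕ} {a : ℤ} (h : (2 : ℝ) ^ M * x - x = a) (l : ℕ) :
    ∃ b : ℤ, (2 : ℝ) ^ (M * l) * x = x + b := by
  induction l with
  | zero => exact ⟨0, by simp⟩
  | succ l ih =>
    obtain ⟨b, hb⟩ := ih
    refine ⟨a + 2 ^ M * b, ?_⟩
    have e : (2 : ℝ) ^ (M * (l + 1)) * x = 2 ^ M * (2 ^ (M * l) * x) := by
      rw [Nat.mul_succ, pow_add]; ring
    rw [e, hb]
    push_cast
    linear_combination h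

theorem AA_per {N q : ℕ} {x : ℝ} (hx : PerAngle N q x) (i : ℕ) : AA N x (i + N) = AA N x i := by
  obtain ⟨hq, ⟨a, ha⟩, -⟩ := hx
  ext u
  constructor
  · rintro ⟨m, k, rfl⟩
    exact ⟨m + 1, k, by rw [show i + N + N * m = i + N * (m + 1) by ring]⟩
  · rintro ⟨m, k, rfl⟩
    refine ⟨m + q - 1, k - 2 ^ (i + N * m) * a, ?_⟩
    have e : i + N + N * (m + q - 1) = (i + N * m) + N * q := by
      have : m + q - 1 + 1 = m + q := by omega
      calc i + N + N * (m + q - 1) = i + N * (m + q - 1 + 1) := by ring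
        _ = (i + N * m) + N * q := by rw [this]; ring
    have e2 : (2 : ℝ) ^ (i + N * m + N * q) * x = 2 ^ (i + N * m) * (2 ^ (N * q) * x) := by
      rw [pow_add]; ring
    rw [e, e2]
    have h3 : (2 : ℝ) ^ (N * q) * x = x + a := by linarith
    rw [h3]
    push_cast; ring

theorem AA_congr {N q : ℕ} {x : ℝ} (hx : PerAngle N q x) (i m : ℕ) :
    AA N x (i + N * m) = AA N x i := by
  induction m with
  | zero => simp
  | succ m ih => rw [show i + N * (m + 1) = (i + N * m) + N by ring, AA_per hx, ih]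

theorem AA_mod {N q : ℕ} {x : ℝ} (hx : PerAngle N q x) (i : ℕ) : AA N x i = AA N x (i % N) := by
  conv_lhs => rw [← Nat.mod_add_div i N]
  exact AA_congr hx _ _

/-- phases of another point of the orbit -/
theorem AA_of_mem {N q : ℕ} {x s : ℝ} (hx : PerAngle N q x) {i : ℕ} (hs : s ∈ AA N x i) (j : ℕ) :
    AA N s j = AA N x (i + j) := by
  obtain ⟨m₀, k₀, rfl⟩ := hs
  obtain ⟨hq, ⟨a, ha⟩, -⟩ := id hx
  ext u
  constructor
  · rintro ⟨m, k, rfl⟩
    refine ⟨m + m₀, 2 ^ (j + N * m) * k₀ + k, ?_⟩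
    rw [show i + j + N * (m + m₀) = (j + N * m) + (i + N * m₀) by ring, pow_add]
    push_cast; ring
  · intro hu
    rw [← AA_congr hx (i + j) m₀] at hu
    obtain ⟨m, k, rfl⟩ := hu
    refine ⟨m, k - 2 ^ (j + N * m) * k₀, ?_⟩
    rw [show i + j + N * m₀ + N * m = (j + N * m) + (i + N * m₀) by ring, pow_add]
    push_cast; ring

theorem perAngle_of_mem {N q : ℕ} {x s : ℝ} (hx : PerAngle N q x) {i : ℕ} (hs : s ∈ AA N x i) :
    PerAngle N q s := by
  obtain ⟨m₀, k₀, rfl⟩ := hs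
  obtain ⟨hq, ⟨a, ha⟩, hex⟩ := id hx
  set M := i + N * m₀ with hM
  refine ⟨hq, ⟨2 ^ M * a + 2 ^ (N * q) * k₀ - k₀, ?_⟩, ?_⟩
  · push_cast
    linear_combination (2 : ℝ) ^ M * ha
  · rintro j hj hjq ⟨b, hb⟩
    -- go round the cycle
    by_cases hN : N = 0
    · subst hN
      exact hex j hj hjq ⟨0, by simp⟩
    have hle : M ≤ (N * q) * (M + 1) := by
      have : 1 ≤ N * q := Nat.mul_pos (Nat.pos_of_ne_zero hN) hq
      nlinarith
    obtain ⟨d, hd⟩ := pow_per_mul ha (M + 1)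
    set R := (N * q) * (M + 1) - M with hR
    have e1 : (2 : ℝ) ^ ((N * q) * (M + 1)) = 2 ^ R * 2 ^ M := by
      rw [← pow_add, hR, Nat.sub_add_cancel hle]
    refine hex j hj hjq ⟨2 ^ R * (b - 2 ^ (N * j) * k₀ + k₀) - 2 ^ (N * j) * d + d, ?_⟩
    have e2 : (2 : ℝ) ^ R * (2 ^ M * x) = x + d := by rw [← mul_assoc, ← e1, hd]
    have e3 : (2 : ℝ) ^ (N * j) * (2 ^ M * x) - 2 ^ M * x = b - 2 ^ (N * j) * k₀ + k₀ := by
      linear_combination hb
    push_cast
    linear_combination (2 : ℝ) ^ R * e3 - ((2 : ℝ) ^ (N * j) - 1) * e2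

/-! ### compatibility and half circles -/

theorem word_mod {N : ℕ} {w : ℕ → ℤ} (hw : ∀ i, w (i + N) = w i) (i m : ℕ) :
    w (i + N * m) = w i := by
  induction m with
  | zero => simp
  | succ m ih => rw [show i + N * (m + 1) = (i + N * m) + N by ring, hw, ih]

theorem inHalf_of_compat {N : ℕ} {x θ : ℝ} {w : ℕ → ℤ} (hw : ∀ i, w (i + N) = w i)
    (h : Compat x θ w) (i : ℕ) : Pool.Agent.MLC.InHalf (AA N x i) θ (w i) := by
  rintro a ⟨m, l, rfl⟩
  obtain ⟨k, h1, h2⟩ := h (i + N * m)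
  rw [word_mod hw] at h1 h2
  refine ⟨-k - l, ?_, ?_⟩ <;> push_cast <;> linarith

theorem compat_of_inHalf {N : ℕ} {x θ : ℝ} {w : ℕ → ℤ} {i₀ : ℕ} {s : ℝ} (hs : s ∈ AA N x i₀)
    (hw : ∀ i, w (i + N) = w i) (h : ∀ i, Pool.Agent.MLC.InHalf (AA N x i) θ (w i)) :
    Compat s θ (fun j => w (i₀ + j)) := by
  obtain ⟨m₀, k₀, rfl⟩ := hs
  intro j
  obtain ⟨k, h1, h2⟩ := h (i₀ + j) (2 ^ j * (2 ^ (i₀ + N * m₀) * x + k₀)) ⟨m₀, 2 ^ j * k₀, by
    rw [show i₀ + j + N * m₀ = j + (i₀ + N * m₀) by ring, pow_add]; push_cast; ring⟩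
  refine ⟨-k, ?_, ?_⟩ <;> push_cast <;> linarith

/-- images of compatible angles under the truncated doubling -/
theorem tdbl_of_inHalf {A : Set ℝ} {θ : ℝ} {e : ℤ} (h : Pool.Agent.MLC.InHalf A θ e) {a : ℝ}
    (ha : a ∈ A) : ∃ k : ℤ, tdbl (θ + e) a = 2 * a - k ∧ (θ + e) / 2 + k < a ∧
      a < (θ + e) / 2 + k + 1 / 2 := by
  obtain ⟨k, h1, h2⟩ := h a ha
  refine ⟨-k, tdbl_lin (-k) (by push_cast; linarith) (by push_cast; linarith),
    by push_cast; linarith, by push_cast; linarith⟩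

/-- **linking propagates**: two linked phases of compatible angles have the same symbol and linked
images -/
theorem linked_step {N : ℕ} {x y θ : ℝ} {w : ℕ → ℤ} (hb : ∀ i, w i = 0 ∨ w i = 1)
    (hw : ∀ i, w (i + N) = w i) (hx : Compat x θ w) (hy : Compat y θ w) {i j : ℕ}
    (h : Pool.Agent.MLC.Linked (AA N x i) (AA N y j)) :
    w i = w j ∧ Pool.Agent.MLC.Linked (AA N x (i + 1)) (AA N y (j + 1)) := by
  obtain ⟨a, ha, b, hb', c, hc, d, hd, h1, h2, h3, h4⟩ := h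
  have hX := inHalf_of_compat hw hx i
  have hY := inHalf_of_compat hw hy j
  obtain ⟨ka, ea, a1, a2⟩ := tdbl_of_inHalf hX ha
  obtain ⟨kb, eb, b1, b2⟩ := tdbl_of_inHalf hY hb'
  obtain ⟨kc, ec, c1, c2⟩ := tdbl_of_inHalf hX hc
  obtain ⟨kd, ed, d1, d2⟩ := tdbl_of_inHalf hY hd
  have hwij : w i = w j := by
    by_contra hne
    have hcase : (w i = 0 ∧ w j = 1) ∨ (w i = 1 ∧ w j = 0) := by
      rcases hb i with h | h <;> rcases hb j with h' | h'
      · exact absurd (h.trans h'.symm) hne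
      · exact Or.inl ⟨h, h'⟩
      · exact Or.inr ⟨h, h'⟩
      · exact absurd (h.trans h'.symm) hne
    -- compare the numbers of the arcs
    have key : ∀ (u v : ℤ) (p r : ℝ) (ep er : ℤ), (ep = 0 ∨ ep = 1) → (er = 0 ∨ er = 1) →
        (θ + ep) / 2 + u < p → p < (θ + ep) / 2 + u + 1 / 2 → (θ + er) / 2 + v < r →
        r < (θ + er) / 2 + v + 1 / 2 → p ≤ r → ep + 2 * u ≤ er + 2 * v := by
      intro u v p r ep er _ _ h1 h2 h3 h4 h5
      have : ((ep + 2 * u : ℤ) : ℝ) < ((er + 2 * v + 1 : ℤ) : ℝ) := by push_cast; linarith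
      have h6 : ep + 2 * u < er + 2 * v + 1 := by exact_mod_cast this
      omega
    have k1 := key ka kb a b _ _ (hb i) (hb j) a1 a2 b1 b2 h1
    have k2 := key kb kc b c _ _ (hb j) (hb i) b1 b2 c1 c2 h2
    have k3 := key kc kd c d _ _ (hb i) (hb j) c1 c2 d1 d2 h3
    have k4 := key kd (ka + 1) d (a + 1) _ _ (hb j) (hb i) d1 d2 (by push_cast; linarith)
      (by push_cast; linarith) h4
    omega
  refine ⟨hwij, 2 * a - ka, AA_dbl' ha ka, 2 * b - kb, AA_dbl' hb' kb, 2 * c - kc, AA_dbl' hc kc,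
    2 * d - kd, AA_dbl' hd kd, ?_, ?_, ?_, ?_⟩
  · rw [← ea, ← eb, hwij]; exact (tdbl _).monotone h1
  · rw [← eb, ← ec, hwij]; exact (tdbl _).monotone h2
  · rw [← ec, ← ed, hwij]; exact (tdbl _).monotone h3
  · rw [← ed, ← ea, hwij, ← map_add_one]; exact (tdbl _).monotone h4

theorem linked_word {N : ℕ} {x y θ : ℝ} {w : ℕ → ℤ} (hb : ∀ i, w i = 0 ∨ w i = 1)
    (hw : ∀ i, w (i + N) = w i) (hx : Compat x θ w) (hy : Compat y θ w) {i j : ℕ}
    (h : Pool.Agent.MLC.Linked (AA N x i) (AA N y j)) (t : ℕ) : w (i + t) = w (j + t) := by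
  have key : ∀ t, Pool.Agent.MLC.Linked (AA N x (i + t)) (AA N y (j + t)) := by
    intro t
    induction t with
    | zero => exact h
    | succ t ih => exact (linked_step hb hw hx hy ih).2
  exact (linked_step hb hw hx hy (key t)).1

/-- a primitive word has different shifts -/
theorem mod_eq_of_word {N : ℕ} (hN : 0 < N) {w : ℕ → ℤ} (hw : Word N w) {i j : ℕ}
    (h : ∀ t, w (i + t) = w (j + t)) : i % N = j % N := by
  wlog hij : i ≤ j generalizing i j
  · exact (this (fun t => (h t).symm) (by omega)).symm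
  by_contra hne
  set d := (j - i) % N with hd
  have hd0 : 0 < d := by
    rcases Nat.eq_zero_or_pos d with h0 | h0
    · exfalso; apply hne
      obtain ⟨c, hc⟩ := Nat.dvd_of_mod_eq_zero (hd ▸ h0 : (j - i) % N = 0)
      have : j = i + N * c := by omega
      rw [this, Nat.add_mul_mod_self_left]
    · exact h0
  obtain ⟨s, hs⟩ := hw.2.2 d hd0 (Nat.mod_lt _ hN)
  apply hs
  have e1 : w (s + d) = w (s + (j - i)) := by
    have := word_mod hw.2.1 (s + d) ((j - i) / N)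
    rw [← this]
    congr 1
    have := Nat.mod_add_div (j - i) N
    omega
  have e2 : w (s + (j - i)) = w (s + (j - i) + N * i) := (word_mod hw.2.1 _ _).symm
  have hNi : i ≤ N * i := Nat.le_mul_of_pos_left i hN
  have e3 := h (s + N * i - i)
  rw [e1, e2]
  have e4 : j + (s + N * i - i) = s + (j - i) + N * i := by omega
  have e5 : i + (s + N * i - i) = s + N * i := by omega
  rw [e4, e5] at e3
  rw [← e3, word_mod hw.2.1]

theorem not_linked {N : ℕ} (hN : 0 < N) {x y θ : ℝ} {w : ℕ → ℤ} (hw : Word N w)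
    (hx : Compat x θ w) (hy : Compat y θ w) {i j : ℕ} (hij : i % N ≠ j % N) :
    ¬ Pool.Agent.MLC.Linked (AA N x i) (AA N y j) := fun h =>
  hij (mod_eq_of_word hN hw (linked_word hw.1 hw.2.1 hx hy h))

/-- **the portrait of a compatible angle** -/
theorem portrait_AA {N q : ℕ} (hN : 0 < N) (hq : 2 ≤ q) {x θ : ℝ} {w : ℕ → ℤ} (hw : Word N w)
    (hx : PerAngle N q x) (hc : Compat x θ w) : Pool.Agent.MLC.Portrait N (AA N x) where
  per := AA_per hx
  shift := fun i a ha k => AA_shift ha k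
  fin := by
    intro i
    obtain ⟨hq0, ⟨a, ha⟩, -⟩ := id hx
    have h1 : AA N x i ∩ Set.Ico 0 1 ⊆ (fun m : ℕ => Int.fract (2 ^ (i + N * m) * x)) '' (Set.Iio q) := by
      rintro u ⟨⟨m, k, rfl⟩, h0, h1⟩
      obtain ⟨b, hb⟩ := pow_per_mul ha (m / q)
      refine ⟨m % q, Nat.mod_lt _ hq0, ?_⟩
      have h2 : (2 : ℝ) ^ (i + N * m) * x = 2 ^ (i + N * (m % q)) * x +
          ((2 ^ (i + N * (m % q)) * b : ℤ) : ℝ) := by
        have e : i + N * m = (i + N * (m % q)) + N * q * (m / q) := by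
          conv_lhs => rw [← Nat.mod_add_div m q]
          ring
        rw [e, pow_add, mul_assoc, hb]
        push_cast; ring
      show Int.fract (2 ^ (i + N * (m % q)) * x) = 2 ^ (i + N * m) * x + k
      rw [Int.fract_eq_iff]
      refine ⟨h0, h1, -(2 ^ (i + N * (m % q)) * b + k), ?_⟩
      rw [h2]; push_cast; ring
    exact ((Set.finite_Iio q).image _).subset h1
  dbl := fun i a ha => AA_dbl ha
  sur := fun i b hb => AA_sur hb
  two := by
    intro i
    have hs := perAngle_of_mem hx (mem_AA N x i)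
    obtain ⟨-, -, hex⟩ := hs
    set u : ℝ := 2 ^ i * x with hu
    set v : ℝ := 2 ^ N * u with hv
    have hvA : v ∈ AA N x i := ⟨1, 0, by rw [hv, hu, mul_one, pow_add]; push_cast; ring⟩
    refine ⟨u, mem_AA N x i, v + ((-⌊v - u⌋ : ℤ) : ℝ), AA_shift hvA _, ?_, ?_⟩
    · have h1 := Int.floor_le (v - u)
      have h2 : u ≤ v + ((-⌊v - u⌋ : ℤ) : ℝ) := by push_cast; linarith
      refine lt_of_le_of_ne h2 fun h => ?_
      exact hex 1 one_pos (by omega) ⟨⌊v - u⌋, by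
        rw [mul_one]; push_cast at h; linarith⟩
    · have := Int.lt_floor_add_one (v - u)
      push_cast; linarith
  half := by
    intro i
    refine ⟨(θ + w i) / 2, fun a ha => ?_⟩
    exact inHalf_of_compat hw.2.1 hc i a ha
  unl := by
    intro i j
    by_cases h : i % N = j % N
    · left
      rw [AA_mod hx i, AA_mod hx j, h]
    · exact Or.inr (not_linked hN hw hc hc h)

end Pool.Agent.Work.MLC
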