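import Pool.Agent.Work.MLC.SatCircC

set_option autoImplicit false

/-! # Circle module for satellite components, part D (helper54)

Rotation number of the flipped word at the ends of the arc and outside, uniqueness of the compatible
cycle (the arc is the whole plateau), final statement. -/

namespace Pool.Agent.Work.MLC

open Set Circ CircleDeg1Lift Filter Topology

/-- integer valued on an interval means constant -/
theorem nu_const_of_int {w : ℕ → ℤ} {n : ℕ} {a b : ℝ} (hab : a ≤ b)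
    (h : ∀ θ, a ≤ θ → θ ≤ b → ∃ k : ℤ, nu w n θ = k) : nu w n a = nu w n b := by
  obtain ⟨k, hk⟩ := h a le_rfl hab
  obtain ⟨l, hl⟩ := h b hab le_rfl
  have hmono := nu_mono w n hab
  by_contra hne
  have hkl : k < l := by
    have : (k : ℝ) < l := by
      rw [← hk, ← hl]; exact lt_of_le_of_ne hmono hne
    exact_mod_cast this
  have hkl' : (k : ℝ) + 1 ≤ l := by exact_mod_cast hkl
  have hmem : (k : ℝ) + 1 / 2 ∈ Icc (nu w n a) (nu w n b) := by
    rw [hk, hl]; constructor <;> linarith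
  obtain ⟨θ, hθ, he⟩ := intermediate_value_Icc hab (nu_continuous w n).continuousOn hmem
  obtain ⟨m, hm⟩ := h θ hθ.1 hθ.2
  rw [hm] at he
  have e1 : ((2 * m : ℤ) : ℝ) = ((2 * k + 1 : ℤ) : ℝ) := by push_cast; linarith
  have e2 : 2 * m = 2 * k + 1 := by exact_mod_cast e1
  omega

theorem perAngle_one {M : ℕ} {x : ℝ} {a : ℤ} (h : (2 : ℝ) ^ M * x - x = a) : PerAngle M 1 x :=
  ⟨one_pos, ⟨a, by rw [mul_one]; exact h⟩, fun j h0 h1 => by omega⟩

namespace CA

variable {N q : ℕ} {w : ℕ → ℤ} {s t : ℝ}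

/-- the word over `n = N q` letters -/
theorem word_n (h : CA N q w s t) (i m : ℕ) : w (i + N * q * m) = w i := by
  rw [mul_assoc]; exact word_mod h.word.2.1 i (q * m)

theorem flw_mod (h : CA N q w s t) (i : ℕ) :
    flw (N * q) w i = flw (N * q) w (i % (N * q)) := by
  have hp : ∀ i, flw (N * q) w (i + N * q) = flw (N * q) w i :=
    flw_per fun i => word_mod h.word.2.1 i q
  conv_lhs => rw [← Nat.mod_add_div i (N * q)]
  exact word_mod hp _ _

/-- position of the doublings of `s` -/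
theorem s_pos (h : CA N q w s t) (i : ℕ) :
    ∃ k : ℤ, t ≤ 2 ^ (i + 1) * s - w i - 2 * k ∧ 2 ^ (i + 1) * s - w i - 2 * k ≤ s + 1 ∧
      ((i + 1) % (N * q) ≠ 0 → 2 ^ (i + 1) * s - w i - 2 * k ≠ s + 1) ∧
      ((i + 1) % (N * q) = 0 → 2 ^ (i + 1) * s - w i - 2 * k = s + 1) := by
  obtain ⟨k, h1, h2⟩ := h.pos_arc (mem_AA N s i)
  have hst := h.lt
  have hts := h.lt'
  have e : (2 : ℝ) ^ (i + 1) * s = 2 * (2 ^ i * s) := by rw [pow_succ]; ring
  refine ⟨k, by rw [e]; exact h1, by rw [e]; exact h2, fun h0 he => ?_, fun h0 => ?_⟩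
  · apply h0
    refine Nat.mod_eq_zero_of_dvd (h.dvd_of_per (x := s) ⟨0, 0, by simp⟩ (m := 1 + w i + 2 * k) ?_)
    push_cast; linarith
  · obtain ⟨c, hc⟩ := Nat.dvd_of_mod_eq_zero h0
    obtain ⟨a, ha⟩ := h.per_s
    obtain ⟨b, hb⟩ := pow_per_mul ha c
    rw [← hc] at hb
    rw [e] at hb ⊢
    have e1 : 2 * (2 ^ i * s) - w i - 2 * k = s + ((b - w i - 2 * k : ℤ) : ℝ) := by
      push_cast; linarith
    rw [e1] at h1 h2 ⊢
    have f1 : ((0 : ℤ) : ℝ) < ((b - w i - 2 * k : ℤ) : ℝ) := by push_cast at h1 ⊢; linarith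
    have f2 : ((b - w i - 2 * k : ℤ) : ℝ) ≤ ((1 : ℤ) : ℝ) := by push_cast at h2 ⊢; linarith
    have f3 : 0 < b - w i - 2 * k := by exact_mod_cast f1
    have f4 : b - w i - 2 * k ≤ 1 := by exact_mod_cast f2
    have f5 : b - w i - 2 * k = 1 := by omega
    rw [f5]; push_cast; ring

/-- position of the doublings of `t` -/
theorem t_pos (h : CA N q w s t) (i : ℕ) :
    ∃ k : ℤ, t ≤ 2 ^ (i + 1) * t - w i - 2 * k ∧ 2 ^ (i + 1) * t - w i - 2 * k ≤ s + 1 ∧
      ((i + 1) % (N * q) ≠ 0 → 2 ^ (i + 1) * t - w i - 2 * k ≠ t) ∧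
      ((i + 1) % (N * q) = 0 → 2 ^ (i + 1) * t - w i - 2 * k = t) := by
  have hA : 2 ^ i * t ∈ AA N s i := by
    rw [← h.AA_t]; exact mem_AA N t i
  obtain ⟨k, h1, h2⟩ := h.pos_arc hA
  have hst := h.lt
  have hts := h.lt'
  have e : (2 : ℝ) ^ (i + 1) * t = 2 * (2 ^ i * t) := by rw [pow_succ]; ring
  refine ⟨k, by rw [e]; exact h1, by rw [e]; exact h2, fun h0 he => ?_, fun h0 => ?_⟩
  · apply h0
    refine Nat.mod_eq_zero_of_dvd (h.dvd_of_per h.mem (m := w i + 2 * k) ?_)
    push_cast; linarith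
  · obtain ⟨c, hc⟩ := Nat.dvd_of_mod_eq_zero h0
    obtain ⟨a, ha⟩ := h.per_t
    obtain ⟨b, hb⟩ := pow_per_mul ha c
    rw [← hc] at hb
    rw [e] at hb ⊢
    have e1 : 2 * (2 ^ i * t) - w i - 2 * k = t + ((b - w i - 2 * k : ℤ) : ℝ) := by
      push_cast; linarith
    rw [e1] at h1 h2 ⊢
    have f1 : ((-1 : ℤ) : ℝ) < ((b - w i - 2 * k : ℤ) : ℝ) := by push_cast at h1 ⊢; linarith
    have f2 : ((b - w i - 2 * k : ℤ) : ℝ) < ((1 : ℤ) : ℝ) := by push_cast at h2 ⊢; linarith
    have f3 : -1 < b - w i - 2 * k := by exact_mod_cast f1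
    have f4 : b - w i - 2 * k < 1 := by exact_mod_cast f2
    have f5 : b - w i - 2 * k = 0 := by omega
    rw [f5]; push_cast; ring

/-- **itinerary of `s` to the left of the arc** -/
theorem compat_left (h : CA N q w s t) {θ : ℝ} (hθ : θ < s)
    (hno : ∀ j, ∀ a ∈ AA N s j, θ ≤ a → ¬ a < s) : Compat s θ (flw (N * q) w) := by
  have hst := h.lt
  have hθ1 : s - 1 < θ := by
    by_contra hcon
    push Not at hcon
    have := AA_shift (mem_AA N s 0) (-1)
    rw [pow_zero, one_mul] at this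
    push_cast at this
    exact hno 0 _ this (by linarith) (by linarith)
  intro i
  obtain ⟨k, h1, h2, h3, h4⟩ := h.s_pos i
  have e : (2 : ℝ) ^ (i + 1) * s = 2 * (2 ^ i * s) := by rw [pow_succ]; ring
  by_cases h0 : (i + 1) % (N * q) = 0
  · have h5 := h4 h0
    unfold flw
    rw [if_pos h0]
    refine ⟨k + w i, ?_, ?_⟩ <;> push_cast <;> rw [e] at h5 <;> linarith
  · have h5 := lt_of_le_of_ne h2 (h3 h0)
    -- the translate by `-1` is a point of the orbit to the left of `s`
    have hA : 2 * (2 ^ i * s) - ((w i + 2 * k + 1 : ℤ) : ℝ) ∈ AA N s (i + 1) :=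
      AA_dbl' (mem_AA N s i) _
    have h6 : 2 * (2 ^ i * s) - ((w i + 2 * k + 1 : ℤ) : ℝ) < θ := by
      by_contra hcon
      push Not at hcon
      refine hno _ _ hA hcon ?_
      push_cast; rw [e] at h5; linarith
    unfold flw
    rw [if_neg h0]
    push_cast at h6
    rw [e] at h1
    exact ⟨k, by linarith, by linarith⟩

/-- **itinerary of `t` to the right of the arc** -/
theorem compat_right (h : CA N q w s t) {θ : ℝ} (hθ : t < θ)
    (hno : ∀ j, ∀ a ∈ AA N s j, t < a → ¬ a ≤ θ) : Compat t θ (flw (N * q) w) := by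
  have hst := h.lt
  have hts := h.lt'
  have hθ1 : θ < t + 1 := by
    by_contra hcon
    push Not at hcon
    have := AA_shift h.mem 1
    push_cast at this
    exact hno 0 _ this (by linarith) hcon
  intro i
  obtain ⟨k, h1, h2, h3, h4⟩ := h.t_pos i
  have e : (2 : ℝ) ^ (i + 1) * t = 2 * (2 ^ i * t) := by rw [pow_succ]; ring
  have hA0 : 2 ^ i * t ∈ AA N s i := by
    rw [← h.AA_t]; exact mem_AA N t i
  by_cases h0 : (i + 1) % (N * q) = 0
  · have h5 := h4 h0
    unfold flw
    rw [if_pos h0]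
    refine ⟨k + w i - 1, ?_, ?_⟩ <;> push_cast <;> rw [e] at h5 <;> linarith
  · have h5 := lt_of_le_of_ne h1 (h3 h0).symm
    have hA : 2 * (2 ^ i * t) - ((w i + 2 * k : ℤ) : ℝ) ∈ AA N s (i + 1) := AA_dbl' hA0 _
    have h6 : θ < 2 * (2 ^ i * t) - ((w i + 2 * k : ℤ) : ℝ) := by
      by_contra hcon
      push Not at hcon
      refine hno _ _ hA ?_ hcon
      push_cast; rw [e] at h5; linarith
    unfold flw
    rw [if_neg h0]
    push_cast at h6
    rw [e] at h2
    exact ⟨k, by linarith, by linarith⟩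

/-- at the left end the rotation number of the flipped word is an integer -/
theorem nu_s (h : CA N q w s t) : ∃ k : ℤ, nu (flw (N * q) w) (N * q) s = k := by
  have hst := h.lt
  obtain ⟨a, ha⟩ := h.per_s
  obtain ⟨m, hm⟩ := gw_lin (flw (N * q) w) s s (N * q) (fun i _ => by
    obtain ⟨k, h1, h2, h3, h4⟩ := h.s_pos i
    have e : (2 : ℝ) ^ (i + 1) * s = 2 * (2 ^ i * s) := by rw [pow_succ]; ring
    rw [e] at h1 h2 h4
    by_cases h0 : (i + 1) % (N * q) = 0
    · have h5 := h4 h0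
      unfold flw
      rw [if_pos h0]
      refine ⟨k + w i, ?_, ?_⟩ <;> push_cast <;> linarith
    · unfold flw
      rw [if_neg h0]
      exact ⟨k, by linarith, by linarith⟩)
  refine ⟨a - m, ?_⟩
  refine translationNumber_of_eq_add_int (x := s) _ ?_
  rw [hm]; push_cast; linarith

theorem nu_t (h : CA N q w s t) : ∃ k : ℤ, nu (flw (N * q) w) (N * q) t = k := by
  have hst := h.lt
  have hts := h.lt'
  obtain ⟨a, ha⟩ := h.per_t
  obtain ⟨m, hm⟩ := gw_lin (flw (N * q) w) t t (N * q) (fun i _ => by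
    obtain ⟨k, h1, h2, h3, h4⟩ := h.t_pos i
    have e : (2 : ℝ) ^ (i + 1) * t = 2 * (2 ^ i * t) := by rw [pow_succ]; ring
    rw [e] at h1 h2 h4
    by_cases h0 : (i + 1) % (N * q) = 0
    · have h5 := h4 h0
      unfold flw
      rw [if_pos h0]
      refine ⟨k + w i - 1, ?_, ?_⟩ <;> push_cast <;> linarith
    · unfold flw
      rw [if_neg h0]
      exact ⟨k, by linarith, by linarith⟩)
  refine ⟨a - m, ?_⟩
  refine translationNumber_of_eq_add_int (x := t) _ ?_
  rw [hm]; push_cast; linarith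

/-- **the flipped word on the closed arc** -/
theorem flw_arc (h : CA N q w s t) : ∃ k : ℤ, nu (flw (N * q) w) (N * q) s = k ∧
    nu (flw (N * q) w) (N * q) t = k + 1 ∧
    ∀ θ, s < θ → θ < t → (k : ℝ) < nu (flw (N * q) w) (N * q) θ ∧
      nu (flw (N * q) w) (N * q) θ < k + 1 := by
  obtain ⟨k, hk⟩ := h.nu_s
  obtain ⟨l, hl⟩ := h.nu_t
  have hst := h.lt
  have hmono := nu_mono (flw (N * q) w) (N * q)
  have hin : ∀ θ, s < θ → θ < t → (k : ℝ) < nu (flw (N * q) w) (N * q) θ ∧
      nu (flw (N * q) w) (N * q) θ < l := by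
    intro θ h1 h2
    constructor
    · rw [← hk]
      exact lt_of_le_of_ne (hmono h1.le) fun he => h.flw_ne_int h1 h2 k (by rw [← he, hk])
    · rw [← hl]
      exact lt_of_le_of_ne (hmono h2.le) fun he => h.flw_ne_int h1 h2 l (by rw [he, hl])
  have hkl : l = k + 1 := by
    obtain ⟨h1, h2⟩ := hin ((s + t) / 2) (by linarith) (by linarith)
    have h3 : k < l := by exact_mod_cast h1.trans h2
    by_contra hne
    have h4 : k + 1 < l := by omega
    have h5 : ((k + 1 : ℤ) : ℝ) ∈ Icc (nu (flw (N * q) w) (N * q) s)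
        (nu (flw (N * q) w) (N * q) t) := by
      rw [hk, hl]
      constructor
      · push_cast; linarith
      · exact_mod_cast h4.le
    obtain ⟨θ, hθ, he⟩ := intermediate_value_Icc hst.le
      (nu_continuous (flw (N * q) w) (N * q)).continuousOn h5
    have h6 : s < θ := by
      rcases hθ.1.lt_or_eq with h | h
      · exact h
      · exfalso; rw [← h, hk] at he
        have : k = k + 1 := by exact_mod_cast he
        omega
    have h7 : θ < t := by
      rcases hθ.2.lt_or_eq with h | h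
      · exact h
      · exfalso; rw [h, hl] at he
        have : l = k + 1 := by exact_mod_cast he
        omega
    exact h.flw_ne_int h6 h7 _ he
  refine ⟨k, hk, by rw [hl, hkl]; push_cast; ring, fun θ h1 h2 => ?_⟩
  have := hin θ h1 h2
  rw [hkl] at this
  push_cast at this
  exact this

theorem nu_left (h : CA N q w s t) {θ : ℝ} (hθ : θ ≤ s)
    (hno : ∀ j, ∀ a ∈ AA N s j, θ ≤ a → ¬ a < s) :
    nu (flw (N * q) w) (N * q) θ = nu (flw (N * q) w) (N * q) s := by
  refine nu_const_of_int hθ fun θ' h1 h2 => ?_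
  rcases h2.lt_or_eq with h2 | h2
  · obtain ⟨a, ha⟩ := h.per_s
    have hc := h.compat_left h2 fun j a ha h3 h4 => hno j a ha (h1.trans h3) h4
    obtain ⟨P, -, hP⟩ := nu_of_compat (perAngle_one ha)
      (flw_per fun i => word_mod h.word.2.1 i q) hc
    exact ⟨P, by rw [hP]; simp⟩
  · rw [h2]; exact h.nu_s

theorem nu_right (h : CA N q w s t) {θ : ℝ} (hθ : t ≤ θ)
    (hno : ∀ j, ∀ a ∈ AA N s j, t < a → ¬ a ≤ θ) :
    nu (flw (N * q) w) (N * q) θ = nu (flw (N * q) w) (N * q) t := by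
  refine (nu_const_of_int hθ fun θ' h1 h2 => ?_).symm
  rcases h1.lt_or_eq with h1 | h1
  · obtain ⟨a, ha⟩ := h.per_t
    have hc := h.compat_right h1 fun j a ha h3 h4 => hno j a ha h3 (h4.trans h2)
    obtain ⟨P, -, hP⟩ := nu_of_compat (perAngle_one ha)
      (flw_per fun i => word_mod h.word.2.1 i q) hc
    exact ⟨P, by rw [hP]; simp⟩
  · rw [← h1]; exact h.nu_t

/-- rotation number of the word itself is constant on the arc -/
theorem nu_w (h : CA N q w s t) : ∃ P : ℤ, IsCoprime P (q : ℤ) ∧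
    ∀ θ, s ≤ θ → θ ≤ t → nu w N θ = P / q := by
  have hst := h.lt
  have hq : 0 < q := by have := h.two; omega
  have hq' : (0 : ℝ) < q := by exact_mod_cast hq
  set m := (s + t) / 2 with hm
  have hm1 : s < m := by linarith
  have hm2 : m < t := by linarith
  obtain ⟨P, hP, hPm⟩ := nu_of_compat h.per h.word.2.1 (h.compat m hm1 hm2)
  -- `q nu` is an integer on the open arc
  have hopen : ∀ θ, s < θ → θ < t → nu w N θ = P / q := by
    intro θ h1 h2
    obtain ⟨P', -, hP'⟩ := nu_of_compat h.per h.word.2.1 (h.compat θ h1 h2)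
    by_contra hne
    rw [hP'] at hne
    have hPP : P' ≠ P := fun he => hne (by rw [he])
    -- a non rational value in between
    have key : ∀ (a b : ℝ) (A B : ℤ), s < a → b < t → a ≤ b → nu w N a = A / q →
        nu w N b = B / q → A = B := by
      intro a b A B ha hb hab hA hB
      by_contra hAB
      have h3 := nu_mono w N hab
      rw [hA, hB, div_le_div_iff_of_pos_right hq'] at h3
      have h4 : A ≤ B := by exact_mod_cast h3
      have h5 : (A : ℝ) + 1 ≤ B := by exact_mod_cast (by omega : A + 1 ≤ B)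
      have hmem : ((A : ℝ) + 1 / 2) / q ∈ Icc (nu w N a) (nu w N b) := by
        rw [hA, hB]
        constructor
        · gcongr; linarith
        · gcongr; linarith
      obtain ⟨x, hx, he⟩ := intermediate_value_Icc hab (nu_continuous w N).continuousOn hmem
      obtain ⟨R, -, hR⟩ := nu_of_compat h.per h.word.2.1
        (h.compat x (ha.trans_le hx.1) (hx.2.trans_lt hb))
      rw [hR, div_left_inj' hq'.ne'] at he
      have e1 : ((2 * R : ℤ) : ℝ) = ((2 * A + 1 : ℤ) : ℝ) := by push_cast; linarith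
      have e2 : 2 * R = 2 * A + 1 := by exact_mod_cast e1
      omega
    rcases le_total θ m with h3 | h3
    · exact hPP (key θ m P' P h1 hm2 h3 hP' hPm)
    · exact hPP (key m θ P P' hm1 h2 h3 hPm hP').symm
  refine ⟨P, hP, fun θ h1 h2 => ?_⟩
  have hcl : IsClosed {θ | nu w N θ = P / q} := isClosed_eq (nu_continuous w N) continuous_const
  have hsub : Icc s t ⊆ {θ | nu w N θ = P / q} := by
    rw [← closure_Ioo hst.ne]
    exact closure_minimal (fun θ hθ => hopen θ hθ.1 hθ.2) hcl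
  exact hsub ⟨h1, h2⟩

end CA

end Pool.Agent.Work.MLC
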