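import Pool.Agent.Work.MLC.SatCircD

set_option autoImplicit false

/-! # Circle module for satellite components, part E (helper54)

Uniqueness of the compatible cycle of given rotation number; the plateau of the rotation number is
the closure of the characteristic arc. -/

namespace Pool.Agent.Work.MLC

open Set Circ CircleDeg1Lift Filter Topology

/-! ### compatible periodic angles from the rotation number -/

/-- the return map of the compatible angle `a` of phase `i` -/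
theorem gw_phase {N : ℕ} {x θ : ℝ} {w : ℕ → ℤ} (hw : ∀ i, w (i + N) = w i)
    (hc : Compat x θ w) {i : ℕ} {a : ℝ} (ha : a ∈ AA N x i) (M : ℕ) :
    ∃ m : ℤ, gw (fun j => w (i + j)) θ M a = 2 ^ M * a - m := by
  refine gw_lin _ θ a M fun l _ => ?_
  have hA : 2 ^ l * a ∈ AA N x (i + l) := by
    obtain ⟨m, k, rfl⟩ := ha
    refine ⟨m, 2 ^ l * k, ?_⟩
    rw [show i + l + N * m = l + (i + N * m) by ring, pow_add]
    push_cast; ring
  obtain ⟨k, h1, h2⟩ := inHalf_of_compat hw hc (i + l) _ hA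
  exact ⟨-k, by push_cast; linarith, by push_cast; linarith⟩

theorem compat_of_mem {N : ℕ} {x θ : ℝ} {w : ℕ → ℤ} (hw : ∀ i, w (i + N) = w i)
    (hc : Compat x θ w) {i : ℕ} {a : ℝ} (ha : a ∈ AA N x i) : Compat a θ (fun j => w (i + j)) :=
  compat_of_inHalf ha hw fun j => inHalf_of_compat hw hc j

/-- from an orbit in the open half circles to a compatible periodic angle -/
theorem perAngle_of_op {N q : ℕ} (hN : 0 < N) (hq : 0 < q) {w : ℕ → ℤ}
    (hw : ∀ i, w (i + N) = w i) {θ : ℝ} {P : ℤ} (hcop : IsCoprime P (q : ℤ))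
    (hnu : nu w N θ = P / q) {x : ℝ} (hx : gw w θ (N * q) x = x + P)
    (hop : ∀ i < N * q, Op w θ x i) : PerAngle N q x ∧ Compat x θ w := by
  have hlin := gw_of_cl (w := w) (θ := θ) (x := x) (m := N * q) fun i hi => (hop i hi).cl
  obtain ⟨a, ha⟩ := hlin (N * q) le_rfl
  have hper : (2 : ℝ) ^ (N * q) * x - x = ((P - a : ℤ) : ℝ) := by push_cast; linarith
  have hcomp : Compat x θ w := by
    intro i
    have hlt : i % (N * q) < N * q := Nat.mod_lt _ (Nat.mul_pos hN hq)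
    obtain ⟨k, h1, h2⟩ := hop _ hlt
    obtain ⟨b, hb⟩ := hlin _ hlt.le
    obtain ⟨c, hc⟩ := pow_per_mul hper (i / (N * q))
    have ei : i = i % (N * q) + N * q * (i / (N * q)) := (Nat.mod_add_div i (N * q)).symm
    have e1 : (2 : ℝ) ^ i * x = 2 ^ (i % (N * q)) * x + ((2 ^ (i % (N * q)) * c : ℤ) : ℝ) := by
      conv_lhs => rw [ei, pow_add, mul_assoc, hc]
      push_cast; ring
    have e2 : w i = w (i % (N * q)) := by
      conv_lhs => rw [ei, mul_assoc]
      exact word_mod hw _ _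
    rw [e1, e2]
    rw [hb] at h1 h2
    refine ⟨k - b + 2 ^ (i % (N * q)) * c, ?_, ?_⟩ <;> push_cast <;> linarith
  refine ⟨⟨hq, ⟨_, hper⟩, ?_⟩, hcomp⟩
  intro j hj hjq ⟨l, hl⟩
  -- the rotation number has denominator `j`
  classical
  have hex : ∃ j, 0 < j ∧ ∃ l : ℤ, (2 : ℝ) ^ (N * j) * x - x = l := ⟨j, hj, l, hl⟩
  set j₀ := Nat.find hex with hj₀
  obtain ⟨hj₀0, l₀, hl₀⟩ := Nat.find_spec hex
  have hmin : ∀ i, 0 < i → i < j₀ → ¬ ∃ l : ℤ, (2 : ℝ) ^ (N * i) * x - x = l := fun i h0 h1 h2 =>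
    Nat.find_min hex h1 ⟨h0, h2⟩
  have hle : j₀ ≤ j := Nat.find_min' hex ⟨hj, l, hl⟩
  obtain ⟨P', hP', hnu'⟩ := nu_of_compat (n := N) (q := j₀) ⟨hj₀0, ⟨l₀, hl₀⟩, hmin⟩ hw hcomp
  have hj₀' : (j₀ : ℝ) ≠ 0 := Nat.cast_ne_zero.2 (show j₀ ≠ 0 from Nat.pos_iff_ne_zero.1 hj₀0)
  rw [hnu, div_eq_div_iff (by exact_mod_cast hq.ne') hj₀'] at hnu'
  have e : P * j₀ = P' * q := by exact_mod_cast hnu'
  have hdvd : (q : ℤ) ∣ j₀ := by
    have h1 : (q : ℤ) ∣ P * j₀ := ⟨P', by rw [e]; ring⟩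
    exact hcop.symm.dvd_of_dvd_mul_left h1
  have h2 : q ∣ j₀ := by exact_mod_cast hdvd
  have := Nat.le_of_dvd hj₀0 h2
  omega

/-- there are angles in every interval which are not periodic -/
theorem exists_not_per {M : ℕ} (hM : 0 < M) {a b : ℝ} (hab : a < b) :
    ∃ θ, a < θ ∧ θ < b ∧ ∀ l : ℤ, (2 : ℝ) ^ M * θ - θ ≠ l := by
  have hpow : (2 : ℝ) ≤ 2 ^ M := by
    calc (2 : ℝ) = 2 ^ 1 := by norm_num
      _ ≤ 2 ^ M := pow_le_pow_right₀ (by norm_num) hM
  set c : ℝ := 2 ^ M - 1 with hc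
  have hc1 : 1 ≤ c := by linarith
  set θ₁ := (a + b) / 2 with hθ₁
  by_cases h1 : ∀ l : ℤ, (2 : ℝ) ^ M * θ₁ - θ₁ ≠ l
  · exact ⟨θ₁, by linarith, by linarith, h1⟩
  · push Not at h1
    obtain ⟨l, hl⟩ := h1
    set δ : ℝ := min ((b - a) / 4) (1 / (2 * c)) with hδ
    have hδ0 : 0 < δ := lt_min (by linarith) (by positivity)
    have hδ1 : δ ≤ (b - a) / 4 := min_le_left _ _
    have hδ2 : c * δ ≤ 1 / 2 := by
      have := min_le_right ((b - a) / 4) (1 / (2 * c))
      calc c * δ ≤ c * (1 / (2 * c)) := by gcongr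
        _ = 1 / 2 := by field_simp
    refine ⟨θ₁ + δ, by linarith, by linarith, fun l' hl' => ?_⟩
    have e : (l' : ℝ) = l + c * δ := by
      rw [← hl', ← hl, hc]; ring
    have e1 : (l : ℝ) < l' := by rw [e]; nlinarith
    have e2 : (l' : ℝ) < ((l + 1 : ℤ) : ℝ) := by rw [e]; push_cast; linarith
    have e3 : l < l' := by exact_mod_cast e1
    have e4 : l' < l + 1 := by exact_mod_cast e2
    omega

section

variable {N q : ℕ} {w : ℕ → ℤ} {P : ℤ}

/-- zeros of the displacement from the rotation number -/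
theorem exists_zero (hq : 0 < q) (hw : ∀ i, w (i + N) = w i) {θ : ℝ} :
    nu w N θ = P / q ↔ ∃ x, gw w θ (N * q) x = x + P := by
  rw [nu_eq_rat_iff w N θ q hq P, gw_mul w θ N q hw]

theorem exists_neg (hN : 0 < N) (hq : 0 < q) (hw : ∀ i, w (i + N) = w i) {θ θ' : ℝ} (h : θ < θ')
    (h1 : nu w N θ = P / q) (h2 : nu w N θ' = P / q) : ∃ x, gw w θ (N * q) x < x + P := by
  by_contra hcon
  push Not at hcon
  obtain ⟨θ'', h3, h4, h5⟩ := exists_not_per (Nat.mul_pos hN hq) h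
  have h6 : nu w N θ'' = P / q :=
    le_antisymm (by rw [← h2]; exact nu_mono w N h4.le) (by rw [← h1]; exact nu_mono w N h3.le)
  obtain ⟨x, hx⟩ := (exists_zero hq hw).1 h6
  have hnn : ∀ y, y + P ≤ gw w θ'' (N * q) y := fun y =>
    (hcon y).trans (gw_mono w h3.le (N * q) y)
  obtain ⟨x', hx', -, h7 | ⟨a, ha⟩⟩ := exists_cl (Nat.mul_pos hN hq) ⟨x, hx⟩
  · obtain ⟨-, i, hi, k, hk⟩ := tangent_above hnn hx' (Nat.mul_pos hN hq)
    obtain ⟨l, h8, h9⟩ := h7 i hi
    rw [hk] at h8 h9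
    have e1 : ((l : ℤ) : ℝ) < k := by linarith
    have e2 : ((k : ℤ) : ℝ) < ((l + 1 : ℤ) : ℝ) := by push_cast; linarith
    have e3 : l < k := by exact_mod_cast e1
    have e4 : k < l + 1 := by exact_mod_cast e2
    omega
  · exact h5 a ha

theorem exists_pos' (hN : 0 < N) (hq : 0 < q) (hw : ∀ i, w (i + N) = w i) {θ θ' : ℝ} (h : θ' < θ)
    (h1 : nu w N θ = P / q) (h2 : nu w N θ' = P / q) : ∃ x, x + P < gw w θ (N * q) x := by
  by_contra hcon
  push Not at hcon
  obtain ⟨θ'', h3, h4, h5⟩ := exists_not_per (Nat.mul_pos hN hq) h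
  have h6 : nu w N θ'' = P / q :=
    le_antisymm (by rw [← h1]; exact nu_mono w N h4.le) (by rw [← h2]; exact nu_mono w N h3.le)
  obtain ⟨x, hx⟩ := (exists_zero hq hw).1 h6
  have hnp : ∀ y, gw w θ'' (N * q) y ≤ y + P := fun y =>
    (gw_mono w h4.le (N * q) y).trans (hcon y)
  obtain ⟨x', hx', -, h7 | ⟨a, ha⟩⟩ := exists_cl (Nat.mul_pos hN hq) ⟨x, hx⟩
  · obtain ⟨-, i, hi, k, hk⟩ := tangent_below hnp hx' (Nat.mul_pos hN hq)
    obtain ⟨l, h8, h9⟩ := h7 i hi
    rw [hk] at h8 h9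
    have e1 : ((k : ℤ) : ℝ) < l := by linarith
    have e2 : ((l : ℤ) : ℝ) < ((k + 1 : ℤ) : ℝ) := by push_cast; linarith
    have e3 : k < l := by exact_mod_cast e1
    have e4 : l < k + 1 := by exact_mod_cast e2
    omega
  · exact h5 a ha

/-- **strictly inside the plateau there is a compatible periodic angle** -/
theorem exists_compat (hN : 0 < N) (hq : 0 < q) (hw : ∀ i, w (i + N) = w i)
    (hcop : IsCoprime P (q : ℤ)) {θ₁ θ θ₂ : ℝ} (h1 : θ₁ < θ) (h2 : θ < θ₂)
    (hn1 : nu w N θ₁ = P / q) (hn2 : nu w N θ₂ = P / q) :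
    ∃ x, PerAngle N q x ∧ Compat x θ w := by
  have hn : nu w N θ = P / q :=
    le_antisymm (by rw [← hn2]; exact nu_mono w N h2.le) (by rw [← hn1]; exact nu_mono w N h1.le)
  obtain ⟨x, hx, hop⟩ := exists_op (exists_neg hN hq hw h2 hn hn2) (exists_pos' hN hq hw h1 hn hn1)
  exact ⟨x, perAngle_of_op hN hq hw hcop hn hx hop⟩

/-- the plateau is not a point -/
theorem exists_two (hN : 0 < N) (hq : 0 < q) (hw : ∀ i, w (i + N) = w i) :
    ∃ θ₁ θ₂, θ₁ < θ₂ ∧ nu w N θ₁ = P / q ∧ nu w N θ₂ = P / q := by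
  -- one point
  obtain ⟨θ₀, hθ₀⟩ : ∃ θ, nu w N θ = P / q := by
    obtain ⟨u, hu⟩ := exists_nat_ge |(P : ℝ) / q - nu w N 0|
    have hN1 : (1 : ℝ) ≤ N := by exact_mod_cast hN
    have hu0 : (0 : ℝ) ≤ u := Nat.cast_nonneg u
    have hun : (u : ℝ) ≤ N * u := by nlinarith
    have h2 := nu_add_even w N (u : ℤ) 0
    have h3 := nu_add_even w N (-(u : ℤ)) 0
    push_cast at h2 h3
    have h4 := abs_le.1 hu
    have h5 : (P : ℝ) / q ∈ Icc (nu w N (0 + 2 * -(u : ℝ))) (nu w N (0 + 2 * (u : ℝ))) := by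
      rw [h2, h3]
      constructor <;> linarith [h4.1, h4.2]
    obtain ⟨θ, -, hθ⟩ := intermediate_value_Icc (by linarith) (nu_continuous w N).continuousOn h5
    exact ⟨θ, hθ⟩
  obtain ⟨x₀, hx₀⟩ := (exists_zero hq hw).1 hθ₀
  have hcont : ∀ x, Continuous fun θ => gw w θ (N * q) x := fun x =>
    (gw_continuous w (N * q)).comp (by fun_prop : Continuous fun θ : ℝ => (θ, x))
  -- zeros at a neighbouring angle
  have hzero : ∀ θ, (∃ x, gw w θ (N * q) x ≤ x + P) → (∃ y, y + P ≤ gw w θ (N * q) y) →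
      nu w N θ = P / q := by
    rintro θ ⟨x, hx⟩ ⟨y, hy⟩
    rw [exists_zero hq hw]
    have hc : Continuous fun t => gw w θ (N * q) t - t :=
      (gw_continuous' w θ (N * q)).sub continuous_id
    have h1 : (P : ℝ) ∈ uIcc ((fun t => gw w θ (N * q) t - t) x)
        ((fun t => gw w θ (N * q) t - t) y) := by
      refine mem_uIcc.2 (Or.inl ⟨?_, ?_⟩)
      · show gw w θ (N * q) x - x ≤ P
        linarith
      · show (P : ℝ) ≤ gw w θ (N * q) y - y
        linarith
    obtain ⟨t, -, ht⟩ := intermediate_value_uIcc hc.continuousOn h1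
    have ht' : gw w θ (N * q) t - t = P := ht
    exact ⟨t, by linarith⟩
  by_cases h1 : ∃ x, gw w θ₀ (N * q) x < x + P
  · obtain ⟨x, hx⟩ := h1
    have h2 : ∀ᶠ θ in 𝓝[>] θ₀, gw w θ (N * q) x < x + P :=
      (((hcont x).tendsto θ₀).eventually (gt_mem_nhds hx)).filter_mono nhdsWithin_le_nhds
    obtain ⟨θ, h3, h4⟩ := (h2.and self_mem_nhdsWithin).exists
    have h5 : θ₀ < θ := h4
    refine ⟨θ₀, θ, h5, hθ₀, hzero θ ⟨x, h3.le⟩ ⟨x₀, ?_⟩⟩
    rw [← hx₀]; exact gw_mono w h5.le _ x₀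
  · by_cases h2 : ∃ x, x + P < gw w θ₀ (N * q) x
    · obtain ⟨x, hx⟩ := h2
      have h2 : ∀ᶠ θ in 𝓝[<] θ₀, x + P < gw w θ (N * q) x :=
        (((hcont x).tendsto θ₀).eventually (lt_mem_nhds hx)).filter_mono nhdsWithin_le_nhds
      obtain ⟨θ, h3, h4⟩ := (h2.and self_mem_nhdsWithin).exists
      have h5 : θ < θ₀ := h4
      refine ⟨θ, θ₀, h5, hzero θ ⟨x₀, ?_⟩ ⟨x, h3.le⟩, hθ₀⟩
      rw [← hx₀]; exact gw_mono w h5.le _ x₀
    · exfalso
      push Not at h1 h2
      have hm := Nat.mul_pos hN hq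
      -- the displacement vanishes identically: impossible in the flat arc
      set x : ℝ := (θ₀ + w 0) / 2 + 3 / 4 with hx
      have hxe : gw w θ₀ (N * q) x = x + P := le_antisymm (h2 x) (h1 x)
      obtain ⟨h3, -⟩ := tangent_above h1 hxe hm
      obtain ⟨k, h4, h5⟩ := h3 0 hm
      have h4' : (θ₀ + w 0) / 2 + k ≤ x := by simpa using h4
      have h5' : x < (θ₀ + w 0) / 2 + k + 1 / 2 := by simpa using h5
      have e1 : ((0 : ℤ) : ℝ) < k := by push_cast; linarith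
      have e2 : ((k : ℤ) : ℝ) < ((1 : ℤ) : ℝ) := by push_cast; linarith
      have e3 : 0 < k := by exact_mod_cast e1
      have e4 : k < 1 := by exact_mod_cast e2
      omega

/-- a compatible orbit does not contain the angle -/
theorem not_mem_of_compat {N q : ℕ} (hN : 0 < N) {w : ℕ → ℤ} {x θ : ℝ}
    (hw : ∀ i, w (i + N) = w i) (hx : PerAngle N q x) (hc : Compat x θ w) {j : ℕ} :
    θ ∉ AA N x j := by
  intro hθ
  rw [← AA_per hx] at hθ
  have h1 : θ ∈ AA N x ((j + N - 1) + 1) := by rwa [show j + N - 1 + 1 = j + N by omega]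
  obtain ⟨a, ha, m, hm⟩ := AA_sur h1
  obtain ⟨k, h2, h3⟩ := inHalf_of_compat hw hc _ a ha
  have e1 : ((w (j + N - 1) : ℤ) : ℝ) < ((m + 2 * k : ℤ) : ℝ) := by push_cast; linarith
  have e2 : ((m + 2 * k : ℤ) : ℝ) < ((w (j + N - 1) + 1 : ℤ) : ℝ) := by push_cast; linarith
  have e3 : w (j + N - 1) < m + 2 * k := by exact_mod_cast e1
  have e4 : m + 2 * k < w (j + N - 1) + 1 := by exact_mod_cast e2
  omega

/-- **alternation**: two disjoint compatible cycles of the same rotation number alternate -/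
theorem alternate (hN : 0 < N) {w : ℕ → ℤ} (hw : ∀ i, w (i + N) = w i) {x y θ : ℝ}
    (hx : PerAngle N q x) (hy : PerAngle N q y) (hcx : Compat x θ w) (hcy : Compat y θ w)
    (hdis : ∀ i, ∀ a ∈ AA N x i, a ∉ AA N y i) {i : ℕ} {a a' : ℝ} (ha : a ∈ AA N x i)
    (ha' : a' ∈ AA N x i) (haa : a < a') : ∃ b ∈ AA N y i, a < b ∧ b < a' := by
  by_contra hcon
  push Not at hcon
  have hw' : ∀ l, (fun j => w (i + j)) (l + N) = (fun j => w (i + j)) l := fun l => by
    show w (i + (l + N)) = w (i + l)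
    rw [← add_assoc, hw]
  have hq : 0 < q := hx.1
  -- the two displacements agree
  obtain ⟨A, -, hA1, hA2⟩ := gw_of_compat (perAngle_of_mem hx ha) hw' (compat_of_mem hw hcx ha)
  have hBall : ∀ b ∈ AA N y i, (gw (fun j => w (i + j)) θ N ^ q) b = b + A := by
    intro b hb
    obtain ⟨B, -, hB1, hB2⟩ := gw_of_compat (perAngle_of_mem hy hb) hw' (compat_of_mem hw hcy hb)
    rw [hB1]
    rw [hA2, div_left_inj' (by exact_mod_cast hq.ne')] at hB2
    rw [← hB2]
  -- a power of the return map taking `a` to `a'`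
  obtain ⟨j, m, hj⟩ : ∃ (j : ℕ) (m : ℤ), a' = 2 ^ (N * j) * a + m := by
    have h1 : a' ∈ AA N a 0 := by rw [AA_of_mem hx ha]; simpa using ha'
    obtain ⟨j, m, h⟩ := h1
    exact ⟨j, m, by simpa using h⟩
  set g := gw (fun j => w (i + j)) θ N with hg
  have hgj : ∀ l, g ^ l = gw (fun j => w (i + j)) θ (N * l) := fun l => (gw_mul _ θ N l hw').symm
  obtain ⟨m₁, hm₁⟩ := gw_phase hw hcx ha (N * j)
  have hTa : (g ^ j) a + ((m + m₁ : ℤ) : ℝ) = a' := by
    rw [hgj, hm₁, hj]; push_cast; ring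
  set r : ℤ := j * A + (m + m₁) * q with hr
  set T : ℝ → ℝ := fun u => (g ^ j) u + ((m + m₁ : ℤ) : ℝ) with hT
  have hTmono : Monotone T := fun u v huv => by
    show (g ^ j) u + _ ≤ (g ^ j) v + _
    have := (g ^ j).monotone huv
    linarith
  have hTpow : ∀ (l : ℕ) (u : ℝ), T^[l] u = (g ^ (j * l)) u + ((l * (m + m₁) : ℤ) : ℝ) := by
    intro l u
    induction l with
    | zero => simp
    | succ l ih =>
      rw [Function.iterate_succ_apply', ih]
      show (g ^ j) ((g ^ (j * l)) u + ((l * (m + m₁) : ℤ) : ℝ)) + _ = _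
      rw [map_add_int, ← mul_apply, ← pow_add]
      rw [show j + j * l = j * (l + 1) by ring]
      push_cast; ring
  have hgq : ∀ u, (g ^ q) u = u + A → ∀ l : ℕ, (g ^ (q * l)) u = u + ((l * A : ℤ) : ℝ) := by
    intro u hu l
    induction l with
    | zero => simp
    | succ l ih =>
      rw [show q * (l + 1) = q + q * l by ring, pow_add, mul_apply, ih, map_add_int, hu]
      push_cast; ring
  have hTq : ∀ u, (g ^ q) u = u + A → ∀ l : ℕ, T^[q * l] u = u + ((l * r : ℤ) : ℝ) := by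
    intro u hu l
    rw [hTpow, show j * (q * l) = q * (j * l) by ring, hgq u hu]
    rw [hr]; push_cast; ring
  have hTa' : T a = a' := hTa
  -- `r > 0`
  have hr0 : 0 < r := by
    have h1 : ∀ l, a' ≤ T^[l + 1] a := by
      intro l
      induction l with
      | zero => simp [hTa']
      | succ l ih =>
        rw [Function.iterate_succ_apply']
        calc a' = T a := hTa'.symm
          _ ≤ T a' := hTmono haa.le
          _ ≤ _ := hTmono ih
    have h2 := hTq a hA1 1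
    have h3 := h1 (q - 1)
    rw [show q - 1 + 1 = q * 1 by omega, h2, Nat.cast_one, one_mul] at h3
    have : (0 : ℝ) < (r : ℝ) := by linarith
    exact_mod_cast this
  -- a point of the other cycle to the left
  obtain ⟨b, hb, hba⟩ : ∃ b ∈ AA N y i, b < a := by
    obtain ⟨M, hM⟩ := exists_nat_gt (2 ^ i * y - a)
    refine ⟨2 ^ i * y + ((-M : ℤ) : ℝ), AA_shift (mem_AA N y i) _, ?_⟩
    push_cast; linarith
  have hTB : ∀ u ∈ AA N y i, T u ∈ AA N y i := by
    intro u hu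
    obtain ⟨m₂, hm₂⟩ := gw_phase hw hcy hu (N * j)
    have e : T u = 2 ^ (N * j) * u + ((m + m₁ - m₂ : ℤ) : ℝ) := by
      show (g ^ j) u + _ = _
      rw [hgj, hm₂]; push_cast; ring
    rw [e]
    refine AA_shift ?_ _
    obtain ⟨c, k, rfl⟩ := hu
    refine ⟨c + j, 2 ^ (N * j) * k, ?_⟩
    rw [show i + N * (c + j) = N * j + (i + N * c) by ring, pow_add]
    push_cast; ring
  have hstay : ∀ l, T^[l] b ∈ AA N y i ∧ T^[l] b < a := by
    intro l
    induction l with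
    | zero => exact ⟨hb, hba⟩
    | succ l ih =>
      rw [Function.iterate_succ_apply']
      have h1 := hTB _ ih.1
      refine ⟨h1, ?_⟩
      have h2 : T (T^[l] b) ≤ a' := by rw [← hTa']; exact hTmono ih.2.le
      have h3 : T (T^[l] b) ≠ a' := fun h => hdis i a' ha' (h ▸ h1)
      have h4 : T (T^[l] b) ≠ a := fun h => hdis i a ha (h ▸ h1)
      by_contra h5
      push Not at h5
      have h6 := hcon _ h1 (lt_of_le_of_ne h5 h4.symm)
      exact h3 (le_antisymm h2 h6)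
  obtain ⟨l, hl⟩ := exists_nat_gt (a - b)
  have h1 := (hstay (q * l)).2
  rw [hTq b (hBall b hb) l] at h1
  have h2 : (l : ℝ) ≤ ((l * r : ℤ) : ℝ) := by
    have : (l : ℤ) ≤ l * r := by nlinarith
    exact_mod_cast this
  linarith

/-- compatibility is an open condition on the angle -/
theorem compat_nhds {N : ℕ} (hN : 0 < N) (hq : 0 < q) {w : ℕ → ℤ} (hw : ∀ i, w (i + N) = w i)
    {x θ : ℝ} (hx : PerAngle N q x) (hc : Compat x θ w) : ∀ᶠ θ' in 𝓝 θ, Compat x θ' w := by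
  choose k h1 h2 using hc
  have h3 : ∀ᶠ θ' in 𝓝 θ, ∀ i ∈ Finset.range (N * q), (θ' + w i) / 2 + k i < 2 ^ i * x ∧
      2 ^ i * x < (θ' + w i) / 2 + k i + 1 / 2 := by
    rw [Finset.eventually_all]
    intro i _
    have c1 : Continuous fun θ' : ℝ => (θ' + w i) / 2 + k i := by fun_prop
    have c2 : Continuous fun θ' : ℝ => (θ' + w i) / 2 + k i + 1 / 2 := by fun_prop
    exact ((c1.tendsto θ).eventually (gt_mem_nhds (h1 i))).and
      ((c2.tendsto θ).eventually (lt_mem_nhds (h2 i)))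
  filter_upwards [h3] with θ' h i
  obtain ⟨-, ⟨a, ha⟩, -⟩ := id hx
  have hlt : i % (N * q) < N * q := Nat.mod_lt _ (Nat.mul_pos hN hq)
  obtain ⟨c, hc⟩ := pow_per_mul ha (i / (N * q))
  have ei : i = i % (N * q) + N * q * (i / (N * q)) := (Nat.mod_add_div i (N * q)).symm
  have e1 : (2 : ℝ) ^ i * x = 2 ^ (i % (N * q)) * x + ((2 ^ (i % (N * q)) * c : ℤ) : ℝ) := by
    conv_lhs => rw [ei, pow_add, mul_assoc, hc]
    push_cast; ring
  have e2 : w i = w (i % (N * q)) := by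
    conv_lhs => rw [ei, mul_assoc]
    exact word_mod hw _ _
  obtain ⟨h4, h5⟩ := h _ (Finset.mem_range.2 hlt)
  rw [e1, e2]
  refine ⟨k (i % (N * q)) + 2 ^ (i % (N * q)) * c, ?_, ?_⟩ <;> push_cast <;> linarith

end

namespace CA

variable {N q : ℕ} {w : ℕ → ℤ} {s t : ℝ}

/-- **uniqueness of the compatible cycle** -/
theorem unique (h : CA N q w s t) {y θ : ℝ} (hy : PerAngle N q y) (h1 : s ≤ θ) (h2 : θ ≤ t)
    (hcy : Compat y θ w) : s ∈ AA N y 0 := by
  have hst := h.lt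
  have hts := h.lt'
  have hN := h.pos
  have hq : 0 < q := by have := h.two; omega
  -- move the angle inside
  obtain ⟨θ', h3, h4, hcy'⟩ : ∃ θ', s < θ' ∧ θ' < t ∧ Compat y θ' w := by
    have ho := compat_nhds hN hq h.word.2.1 hy hcy
    have hcl : θ ∈ closure (Ioo s t) := by rw [closure_Ioo hst.ne]; exact ⟨h1, h2⟩
    obtain ⟨θ', hθ', hc'⟩ := mem_closure_iff_nhds.1 hcl _ ho
    exact ⟨θ', hc'.1, hc'.2, hθ'⟩
  have hcx := h.compat θ' h3 h4
  by_contra hne
  -- the cycles are disjoint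
  have hdis : ∀ i, ∀ a ∈ AA N s i, a ∉ AA N y i := by
    intro i a ha hb
    -- `s` is in the orbit of `a`
    obtain ⟨m, k, hk⟩ := ha
    obtain ⟨m', k', hk'⟩ := hb
    apply hne
    obtain ⟨b, hb⟩ := h.per_s
    have hpq : 0 < N * q := h.npos
    set M := i + N * m with hM
    have hle : M ≤ N * q * (M + 1) := by nlinarith
    obtain ⟨c, hc⟩ := pow_per_mul hb (M + 1)
    set R := N * q * (M + 1) - M with hR
    have e1 : (2 : ℝ) ^ (N * q * (M + 1)) = 2 ^ R * 2 ^ M := by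
      rw [← pow_add, hR, Nat.sub_add_cancel hle]
    have e2 : (2 : ℝ) ^ R * (2 ^ M * s) = s + c := by rw [← mul_assoc, ← e1, hc]
    have e3 : (2 : ℝ) ^ M * s = 2 ^ (i + N * m') * y + k' - k := by linarith
    have hRmod : N ∣ R + i := by
      have h5 : R + i + N * m = N * q * (M + 1) := by omega
      have h6 : N ∣ R + i + N * m := by rw [h5, mul_assoc]; exact Nat.dvd_mul_right N _
      exact (Nat.dvd_add_left (Nat.dvd_mul_right N m)).1 h6
    obtain ⟨d, hd⟩ := hRmod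
    refine ⟨d + m', 2 ^ R * (k' - k) - c, ?_⟩
    have e4 : (2 : ℝ) ^ R * (2 ^ (i + N * m') * y) = 2 ^ (0 + N * (d + m')) * y := by
      rw [← mul_assoc, ← pow_add]
      congr 2
      calc R + (i + N * m') = (R + i) + N * m' := by ring
        _ = 0 + N * (d + m') := by rw [hd]; ring
    rw [← e4]
    rw [e3] at e2
    push_cast
    linear_combination -e2
  have hdis' : ∀ i, ∀ a ∈ AA N y i, a ∉ AA N s i := fun i a ha hb => hdis i a hb ha
  obtain ⟨j₀, hj₀, s', t', h5, h6, hs', hCA'⟩ := exists_CA hN h.two h.word hy hcy'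
  have hst' := hCA'.lt
  have hts' := hCA'.lt'
  have hs's : AA N s' 0 = AA N y j₀ := AA_of_mem hy hs' 0
  have ht'A : t' ∈ AA N y j₀ := by rw [← hs's]; exact hCA'.mem
  have hsA : s ∈ AA N s 0 := by simpa using mem_AA N s 0
  rcases Nat.eq_zero_or_pos j₀ with hj | hj
  · -- same phase
    subst hj
    have hw0 : (fun j => w (0 + j)) = w := by funext j; rw [Nat.zero_add]
    rw [hw0] at hCA'
    rcases lt_trichotomy s s' with h7 | h7 | h7
    · obtain ⟨k, hk⟩ := hCA'.nu_s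
      exact h.flw_ne_int h7 (by linarith) k hk
    · apply hne; rw [h7]; exact hs'
    · obtain ⟨k, hk⟩ := h.nu_s
      exact hCA'.flw_ne_int h7 (by linarith) k hk
  · -- different phases are not linked
    have hmod : (0 : ℕ) % N ≠ j₀ % N := by
      rw [Nat.zero_mod, Nat.mod_eq_of_lt hj₀]; omega
    have hnl := not_linked hN h.word hcx hcy' hmod
    have hnl' := not_linked hN h.word hcy' hcx hmod.symm
    have hnopt' : ∀ i, ∀ b ∈ AA N y i, s' < b → ¬ b < t' := by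
      intro i b hb
      refine hCA'.nopt (i + (N - j₀)) b ?_
      rw [AA_of_mem hy hs', show j₀ + (i + (N - j₀)) = i + N by omega, AA_per hy]
      exact hb
    have hne1 : s ≠ s' := fun he => by
      have : s ∈ AA N y j₀ := by rw [he]; exact hs'
      exact hnl ⟨s, hsA, s, this, s, hsA, s, this, le_rfl, le_rfl, le_rfl, by linarith⟩
    have hne2 : t ≠ t' := fun he => by
      have : t ∈ AA N y j₀ := by rw [he]; exact ht'A
      exact hnl ⟨t, h.mem, t, this, t, h.mem, t, this, le_rfl, le_rfl, le_rfl, by linarith⟩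
    have hs1 : s' + 1 ∈ AA N y j₀ := by have := AA_shift hs' 1; simpa using this
    have hs2 : s + 1 ∈ AA N s 0 := by have := AA_shift hsA 1; simpa using this
    rcases lt_or_gt_of_ne hne1 with h7 | h7 <;> rcases lt_or_gt_of_ne hne2 with h8 | h8
    · -- `s < s' < t < t'`
      rcases le_or_gt t' (s + 1) with h9 | h9
      · exact hnl ⟨s, hsA, s', hs', t, h.mem, t', ht'A, h7.le, by linarith, h8.le, h9⟩
      · obtain ⟨b, hb, hb1, hb2⟩ := alternate hN h.word.2.1 h.per hy hcx hcy' hdis h.mem hs2 hts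
        exact hnopt' 0 b hb (by linarith) (by linarith)
    · -- `(s', t') ⊂ (s, t)`
      obtain ⟨b, hb, hb1, hb2⟩ := alternate hN h.word.2.1 hy h.per hcy' hcx hdis' hs' ht'A hst'
      exact h.nopt j₀ b hb (by linarith) (by linarith)
    · -- `(s, t) ⊂ (s', t')`
      obtain ⟨b, hb, hb1, hb2⟩ := alternate hN h.word.2.1 h.per hy hcx hcy' hdis hsA h.mem hst
      exact hnopt' 0 b hb (by linarith) (by linarith)
    · -- `s' < s < t' < t`
      rcases le_or_gt t (s' + 1) with h9 | h9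
      · exact hnl' ⟨s', hs', s, hsA, t', ht'A, t, h.mem, h7.le, by linarith, h8.le, h9⟩
      · obtain ⟨b, hb, hb1, hb2⟩ := alternate hN h.word.2.1 hy h.per hcy' hcx hdis' ht'A hs1 hts'
        exact h.nopt j₀ b hb (by linarith) (by linarith)

/-- **the closed arc is the whole plateau** -/
theorem plateau (h : CA N q w s t) {P : ℤ} (hcop : IsCoprime P (q : ℤ))
    (hP : ∀ θ, s ≤ θ → θ ≤ t → nu w N θ = P / q) (θ : ℝ) :
    nu w N θ = P / q ↔ s ≤ θ ∧ θ ≤ t := by
  refine ⟨fun hθ => ?_, fun hθ => hP θ hθ.1 hθ.2⟩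
  have hst := h.lt
  have hq : 0 < q := by have := h.two; omega
  by_contra hcon
  rw [not_and_or] at hcon
  push Not at hcon
  rcases hcon with h1 | h1
  · -- `θ < s`
    obtain ⟨y, hy, hcy⟩ := exists_compat h.pos hq h.word.2.1 hcop h1 hst hθ (hP t hst.le le_rfl)
    exact not_mem_of_compat h.pos h.word.2.1 hy hcy (h.unique hy le_rfl hst.le hcy)
  · -- `t < θ`
    obtain ⟨y, hy, hcy⟩ := exists_compat h.pos hq h.word.2.1 hcop hst h1 (hP s le_rfl hst.le) hθ
    have h2 := h.unique hy hst.le le_rfl hcy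
    refine not_mem_of_compat h.pos h.word.2.1 hy hcy (j := 0) ?_
    have h3 := AA_of_mem hy h2 0
    rw [Nat.zero_add] at h3
    rw [← h3]; exact h.mem

end CA

/-- **existence of the arc with a given rotation number** -/
theorem exists_arc {N q : ℕ} (hN : 0 < N) (hq : 2 ≤ q) {w : ℕ → ℤ} (hw : Word N w) {P : ℤ}
    (hcop : IsCoprime P (q : ℤ)) :
    ∃ i₀ < N, ∃ s t : ℝ, CA N q (fun j => w (i₀ + j)) s t ∧
      ∀ θ, nu (fun j => w (i₀ + j)) N θ = P / q ↔ s ≤ θ ∧ θ ≤ t := by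
  have hq0 : 0 < q := by omega
  obtain ⟨θ₁, θ₂, h12, hn1, hn2⟩ := exists_two (P := P) hN hq0 hw.2.1
  obtain ⟨x, hx, hc⟩ := exists_compat hN hq0 hw.2.1 hcop
    (show θ₁ < (θ₁ + θ₂) / 2 by linarith) (by linarith) hn1 hn2
  obtain ⟨i₀, hi₀, s, t, h1, h2, hs, hCA⟩ := exists_CA hN hq hw hx hc
  refine ⟨i₀, hi₀, s, t, hCA, hCA.plateau hcop ?_⟩
  obtain ⟨P', -, hP'⟩ := hCA.nu_w
  have hm : nu (fun j => w (i₀ + j)) N ((θ₁ + θ₂) / 2) = P / q := by
    rw [nu_shift_word w N hw.2.1]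
    exact le_antisymm (by rw [← hn2]; exact nu_mono w N (by linarith))
      (by rw [← hn1]; exact nu_mono w N (by linarith))
  rw [hP' _ h1.le h2.le] at hm
  intro θ h3 h4
  rw [hP' θ h3 h4, hm]

end Pool.Agent.Work.MLC
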