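import Pool.Agent.Work.MLC.SatS17_6

set_option autoImplicit false

/-! # Theorem S, module S18: the limb bound for satellite components (helper6) -/

namespace Pool.Agent.Work.MLC.Sat

open Filter Topology Metric Set Complex

lemma perN_it {n : ℕ} {c b : ℂ} (h : PerN n c b) : it c n b = b := by
  have h1 := Function.iterate_minimalPeriod (f := f c) (x := b)
  rw [h.2] at h1
  exact h1

lemma perN_ne {n : ℕ} {c b : ℂ} (h : PerN n c b) {d : ℕ} (hd : 0 < d) (hdn : d < n) :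
    it c d b ≠ b := by
  intro h1
  have h2 : Function.IsPeriodicPt (f c) d b := h1
  have h3 := h2.minimalPeriod_le hd
  rw [h.2] at h3
  omega

lemma perN_shift {n : ℕ} {c b : ℂ} (h : PerN n c b) (i : ℕ) : PerN n c (it c i b) := by
  refine ⟨h.1, ?_⟩
  have hb : b ∈ Function.periodicPts (f c) := ⟨n, h.1, perN_it h⟩
  have h1 := Function.minimalPeriod_apply_iterate hb i
  rw [h.2] at h1
  exact h1

lemma mult_eq_mul {n : ℕ} {c b : ℂ} : mult n c b = mul n (c, b) := rfl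

/-- the attracting pairs are closed under iteration -/
lemma attW_shift {n : ℕ} {W : Set ℂ} {s : ℂ × ℂ} (h : s ∈ AttW n W) (i : ℕ) :
    (s.1, it s.1 i s.2) ∈ AttW n W := by
  obtain ⟨h1, h2, h3⟩ := h
  refine ⟨h1, perN_shift h2 i, ?_⟩
  have h4 : ((s.1, s.2) : ℂ × ℂ) ∈ Per n := perN_it h2
  show ‖mul n (s.1, it s.1 i s.2)‖ < 1
  rw [mul_it' h4 i]
  exact h3

lemma closure_attW_shift {n : ℕ} {W : Set ℂ} {s : ℂ × ℂ} (h : s ∈ closure (AttW n W)) (i : ℕ) :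
    (s.1, it s.1 i s.2) ∈ closure (AttW n W) := by
  have hc : Continuous fun s : ℂ × ℂ => ((s.1, it s.1 i s.2) : ℂ × ℂ) :=
    continuous_fst.prodMk (continuous_it i)
  have h1 := map_mem_closure (f := fun s : ℂ × ℂ => ((s.1, it s.1 i s.2) : ℂ × ℂ))
    (t := AttW n W) hc h (fun s hs => attW_shift hs i)
  exact h1

lemma rat_den {p q : ℕ} (hq : 0 < q) (hc : Nat.Coprime p q) : ((p : ℚ) / q).den = q := by
  have h1 := Rat.den_div_eq_of_coprime (a := (p : ℤ)) (b := (q : ℤ)) (by omega)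
    (by simpa using hc)
  have h2 : (((p : ℤ) : ℚ) / ((q : ℤ) : ℚ)) = (p : ℚ) / q := by push_cast; rfl
  rw [h2] at h1
  exact_mod_cast h1

/-- the rational number closest to zero with `exp (2 π i x) = exp (2 π i p / q)` -/
lemma exists_x {p q : ℕ} (hp : 0 < p) (hpq : p < q) (hc : Nat.Coprime p q) :
    ∃ x : ℚ, x ≠ 0 ∧ x.den = q ∧ |(x : ℝ)| = min (p : ℝ) (q - p) / q ∧
      exp (axisPt x) = exp (2 * Real.pi * (p / q : ℂ) * I) := by
  have hq : 0 < q := hp.trans hpq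
  have hq' : (0 : ℝ) < q := by exact_mod_cast hq
  have hp' : (0 : ℝ) < p := by exact_mod_cast hp
  have hpq' : (p : ℝ) < q := by exact_mod_cast hpq
  have hqc : (q : ℂ) ≠ 0 := by exact_mod_cast hq.ne'
  have hqQ : (0 : ℚ) < q := by exact_mod_cast hq
  have hpQ : (0 : ℚ) < p := by exact_mod_cast hp
  by_cases hle : (p : ℝ) ≤ q - p
  · refine ⟨(p : ℚ) / q, (div_pos hpQ hqQ).ne', rat_den hq hc, ?_, ?_⟩
    · rw [min_eq_left hle]
      push_cast
      rw [abs_of_pos (by positivity)]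
    · congr 1
      unfold axisPt
      push_cast
      ring
  · push Not at hle
    refine ⟨(p : ℚ) / q - 1, ?_, ?_, ?_, ?_⟩
    · have h1 : (p : ℚ) / q < 1 := by
        rw [div_lt_one hqQ]; exact_mod_cast hpq
      exact (sub_neg.2 h1).ne
    · have h1 : ((p : ℚ) / q - 1).den = ((p : ℚ) / q).den := by
        have h2 := Rat.sub_intCast_den ((p : ℚ) / q) 1
        simpa using h2
      rw [h1, rat_den hq hc]
    · rw [min_eq_right hle.le]
      push_cast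
      have h1 : (p : ℝ) / q - 1 = -((q - p) / q) := by field_simp; ring
      rw [h1, abs_neg, abs_of_pos (div_pos (by linarith) hq')]
    · rw [Complex.exp_eq_exp_iff_exists_int]
      refine ⟨-1, ?_⟩
      unfold axisPt
      push_cast
      ring

/-- everything that the later statements need from Theorem S: near the root of a satellite
component there is a limb piece at every boundary point -/
def SatPiece : Prop := ∀ (m p₀ q₀ : ℕ) (r₀ b₀ : ℂ) (W : Set ℂ) (n p q : ℕ) (r b : ℂ),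
    n = m * q₀ → SatOf m p₀ q₀ r₀ b₀ W → Satellite (m * q₀) W r b p q →
    2 * Real.pi * (min (p : ℝ) (q - p) / q) ≤ cR n / 2 →
    ∃ (x : ℚ) (g : ℂ → ℂ) (T : ℂ → ℚ → Prop), x ≠ 0 ∧ x.den = q ∧
      LimbData MS x (cR n / 2) (2 * n * Real.log 2) g T ∧ g (axisPt x) = r ∧
      DifferentiableOn ℂ g (ball (axisPt x) (cR n / 2)) ∧
      (∀ ℓ ∈ ball (axisPt x) (cR n / 2), ‖g ℓ‖ ≤ 4) ∧
      (∀ ℓ ∈ ball (axisPt x) (cR n / 2), ℓ ≠ 0 →
        ∃ z, (g ℓ, z) ∈ Per n ∧ mul n (g ℓ, z) = exp ℓ) ∧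
      ∀ ℓ ∈ ball (axisPt x) (cR n / 2), ℓ.re < cR n

/-- everything about a boundary point of a satellite component close to the root -/
theorem satPiece (h0 : S0_parent) (h0' : S0_shift) (h1 : S1_circle) (h5 : S5_regions)
    (h9 : S9_glue) (h13 : S13_child) (h15 : S15_bdry) (h17 : S17_limb) : SatPiece := by
  intro m p₀ q₀ r₀ b₀ W n p q r b hnm hS hR ht
  obtain ⟨hper₀, hmul₀, hp₀, hpq₀, hcop₀, hW, hcl₀⟩ := hS
  obtain ⟨-, hper, hmul, hp, hpq, hcop, hcl⟩ := hR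
  have hm : 0 < m := hper₀.1
  have hq₀ : 0 < q₀ := hp₀.trans hpq₀
  have hqQ : (0 : ℚ) < q₀ := by exact_mod_cast hq₀
  have hpQ : (0 : ℚ) < p₀ := by exact_mod_cast hp₀
  set x₀ : ℚ := (p₀ : ℚ) / q₀ with hx₀
  have hden₀ : x₀.den = q₀ := rat_den hq₀ hcop₀
  have hx0 : 0 < x₀ := div_pos hpQ hqQ
  have hx1 : x₀ < 1 := by rw [hx₀, div_lt_one hqQ]; exact_mod_cast hpq₀
  have hmul₀' : mul m (r₀, b₀) = exp (axisPt x₀) := by
    rw [← mult_eq_mul, hmul₀]
    congr 1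
    unfold axisPt
    rw [hx₀]
    push_cast
    ring
  obtain ⟨⟨m', x', σ, w, k₀, u', k', tm', tp'⟩, hm', hx', hσ, hP⟩ := h0 m x₀ r₀ b₀ hm hx0 hx1
    (perN_it hper₀) (fun d hd hdm => perN_ne hper₀ hd hdm) hmul₀'
  simp only at hm' hx' hσ
  subst hm'
  obtain ⟨i₀, u, k, tm, tp, hi₀, hC⟩ := h1 m' x' w k₀ hm (hx' ▸ hx0) (hx' ▸ hx1) hP.bits hP.wprim
  have hP' := h0' _ i₀ u k tm tp hP
  simp only at hP'
  set σ' : ℂ → ℂ × ℂ := fun L => ((σ L).1, it (σ L).1 i₀ (σ L).2) with hσ'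
  have hC' := hC σ'
  set D : Dat := ⟨m', x', σ', fun i => w (i + i₀), k₀, u, k, tm, tp⟩ with hD
  have hDn : D.n = n := by
    show m' * x'.den = n
    rw [hx', hden₀, hnm]
  have hDa : D.a = axisPt x₀ := by
    show axisPt x' = axisPt x₀
    rw [hx']
  have hReg := h5 D hP' hC'
  obtain ⟨Z, hG⟩ := h9 D hP' hC' hReg
  obtain ⟨e, hch⟩ := h13 D Z hP' hC' hReg hG
  obtain ⟨x, hxne, hxden, hxabs, hxexp⟩ := exists_x hp hpq hcop
  have hn : 0 < D.n := Par_n_pos hP'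
  have hcR := cR_pos hn
  have hxr : 2 * Real.pi * |(x : ℝ)| ≤ cR D.n / 2 := by rw [hxabs, hDn]; exact ht
  have hL := h17 D Z e hP' hC' hReg hG hch x hxne hxr
  have hsub : ball (axisPt x) (cR D.n / 2) ⊆ ball (0 : ℂ) (cR D.n) := ball_sub_cR hxr
  have hcen : axisPt x ∈ ball (axisPt x) (cR D.n / 2) := mem_ball_self (by linarith)
  have hax0 : axisPt x ≠ 0 := by
    unfold axisPt
    have h2 : (2 * Real.pi * (x : ℝ) : ℝ) ≠ 0 := by
      have : (x : ℝ) ≠ 0 := by exact_mod_cast hxne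
      have := Real.pi_pos
      positivity
    exact mul_ne_zero (by exact_mod_cast h2) I_ne_zero
  -- the boundary point is `D.c (e (axisPt x))`
  have hcl₀' : D.σ D.a ∈ closure (AttW D.n W) := by
    rw [hDa, hDn, hnm]
    have h2 : D.σ (axisPt x₀) = (r₀, it r₀ i₀ b₀) := by
      show ((σ (axisPt x₀)).1, it (σ (axisPt x₀)).1 i₀ (σ (axisPt x₀)).2) = (r₀, it r₀ i₀ b₀)
      rw [hσ]
    rw [h2]
    exact closure_attW_shift hcl₀ i₀
  have hbd := h15 D Z e hP' hC' hReg hG hch W (by rw [hDn, hnm]; exact hW) hcl₀' (r, b)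
    (axisPt x) (by rw [hDn, hnm]; exact hcl)
    (by rw [hDn, hnm, hxexp, ← hmul]; rfl) (LimbData.axisPt_re x) hax0 (hsub hcen)
  rw [← hDn]
  refine ⟨x, fun ℓ => D.c (e ℓ), _, hxne, hxden, hL, hbd.1.symm, ?_, ?_, ?_, ?_⟩
  · intro ℓ hℓ
    exact (ce_analyticAt hP' hch (hsub hℓ)).differentiableAt.differentiableWithinAt
  · intro ℓ hℓ
    have hB := e_mem_B hP' hch (hsub hℓ)
    obtain ⟨h2, h3⟩ := hP'.sec _ hB
    exact (Per_bdd hm h2 (by rw [h3]; exact (goodB hP').lt _ hB)).1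
  · intro ℓ hℓ hℓ0
    have hU := e_mem_U hP' hch (hsub hℓ) hℓ0
    obtain ⟨z, hz⟩ := hG.fam.ne _ hU
    exact ⟨z, (hG.fam.fix _ hU z hz).1, hch.mul_eq ℓ (hsub hℓ) hℓ0 z hz⟩
  · intro ℓ hℓ
    have h2 := hsub hℓ
    rw [mem_ball_zero_iff] at h2
    exact (Complex.re_le_norm ℓ).trans_lt h2

end Pool.Agent.Work.MLC.Sat
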