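import Pool.Agent.Work.MLC.Sat2_51
import Pool.Agent.Work.MLC.Sat3
import Pool.Agent.Work.MLC.SatCh26
import Pool.Agent.Work.MLC.SatIn26
import Pool.Agent.Work.MLC.SatOrigin34
import Pool.Agent.Work.MLC.SatPar26
import Pool.Agent.Work.MLC.SatReg60
import Pool.Agent.Work.MLC.SatPly60
import Pool.Agent.Work.MLC.SatS749
import Pool.Agent.Work.MLC.Sat12_49
import Pool.Agent.Work.MLC.Sat4_57
import Pool.Agent.Work.MLC.SatRoot51
import Pool.Agent.Work.MLC.Sat15_51
import Pool.Agent.Work.MLC.SatPar39
import Pool.Agent.Work.MLC.SatCircF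
import Pool.Agent.Work.MLC.SatDer15
import Pool.Agent.Work.MLC.SatS6_4
import Pool.Agent.Work.MLC.Sat8_69
import Pool.Agent.Work.MLC.SatS18_6

set_option autoImplicit false

/-! # Theorem S: all modules together (helper6) -/

namespace Pool.Agent.Work.MLC.Sat

/-- limb pieces near the root of a satellite component -/
theorem satPiece_fin : SatPiece := by
  have h10 : S10_origin := s10_origin s2_width s3_closed s3_neutral (s4_root s4_unique)
  exact satPiece s0_parent s0_shift s1_circle (s5_regions s5_ply60 s3_neutral)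
    (s9_glue s6_outer (s9_inner s2_unique s3_closed s3_neutral s7_fatou (s7_parab s3_neutral)
      s8_side))
    (s13_child h10 s11_deriv) (s15_bdry s7_fatou h10 (s12_child s11_deriv)) (s17_limb s16_rot)

end Pool.Agent.Work.MLC.Sat
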