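import Pool.Agent.Work.MLC.Stab4
import Pool.Agent.Work.MLC.Lin
import Pool.Agent.Work.MLC.Thresh78

set_option autoImplicit false

/-! # Satellites: Vitali's theorem for the rays outside the wake (helper4)

If the (extended) dynamic ray of a periodic angle is unbroken for all parameters of a connected open
set `U`, and lands for the parameters of a nonempty open subset, then it lands for all parameters
of `U`, at a point which depends holomorphically on the parameter and is repelling. -/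

namespace Pool.Agent.Work.MLC

open Filter Topology Metric Set

/-- the extended ray of angle `β`, without the landing condition -/
structure Ray0 (c : ℂ) (β : ℝ) (R : ℝ → ℂ) : Prop where
  cont : ContinuousOn R (Ioi 0)
  conj : ∀ t, 0 < t → ∀ j : ℕ, G c 0 < 2 ^ j * t → it c j (R t) = eR c (2 ^ j * β) (2 ^ j * t)
  ne : ∀ t, 0 < t → ∀ j : ℕ, it c j (R t) ≠ 0

lemma Ray.ray0 {c b : ℂ} {β : ℝ} {R : ℝ → ℂ} (h : Ray c β b R) : Ray0 c β R :=
  ⟨h.cont, h.conj, h.ne⟩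

/-- implicit differentiation for a continuous solution -/
lemma diff_of_implicit4 {F : ℂ × ℂ → ℂ} {F' : ℂ × ℂ →L[ℂ] ℂ} {u : ℂ → ℂ} {c₁ : ℂ}
    (hF : HasFDerivAt F F' (c₁, u c₁)) (hb : F' (0, 1) ≠ 0) (hu : ContinuousAt u c₁)
    (h0 : ∀ᶠ c in 𝓝 c₁, F (c, u c) = F (c₁, u c₁)) : DifferentiableAt ℂ u c₁ := by
  set β := F' (0, 1) with hβ
  set α := F' (1, 0) with hα
  have hlin : ∀ x y : ℂ, F' (x, y) = α * x + β * y := by
    intro x y
    have : ((x, y) : ℂ × ℂ) = x • ((1 : ℂ), (0 : ℂ)) + y • ((0 : ℂ), (1 : ℂ)) := by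
      simp
    rw [this, map_add, map_smul, map_smul, smul_eq_mul, smul_eq_mul]
    ring
  have hpair : Tendsto (fun c => (c, u c)) (𝓝 c₁) (𝓝 (c₁, u c₁)) :=
    continuousAt_id.prodMk hu
  have h1 := hF.isLittleO.comp_tendsto hpair
  have h2 : (fun c => α * (c - c₁) + β * (u c - u c₁)) =o[𝓝 c₁]
      fun c => ((c - c₁, u c - u c₁) : ℂ × ℂ) := by
    have h3 : (fun c => α * (c - c₁) + β * (u c - u c₁)) =ᶠ[𝓝 c₁]
        fun c => -((fun p => F p - F (c₁, u c₁) - F' (p - (c₁, u c₁))) ∘ fun c => (c, u c)) c := by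
      filter_upwards [h0] with c hc
      simp only [Function.comp_apply, hc, sub_self, zero_sub, neg_neg, Prod.mk_sub_mk, hlin]
    exact (h1.neg_left).congr' h3.symm (Eventually.of_forall fun c => rfl)
  have hβ0 : 0 < ‖β‖ := norm_pos_iff.2 hb
  -- `u c - u c₁ = O(c - c₁)`
  have h4 : (fun c => u c - u c₁) =O[𝓝 c₁] fun c => c - c₁ := by
    have h5 := (Asymptotics.isLittleO_iff.1 h2) (half_pos hβ0)
    refine Asymptotics.IsBigO.of_bound ((‖α‖ + ‖β‖ / 2) / (‖β‖ / 2)) ?_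
    filter_upwards [h5] with c hc
    have h6 : ‖((c - c₁, u c - u c₁) : ℂ × ℂ)‖ ≤ ‖c - c₁‖ + ‖u c - u c₁‖ := by
      rw [Prod.norm_def]
      exact max_le (by simp) (by simp)
    have h7 : ‖β * (u c - u c₁)‖ ≤ ‖α * (c - c₁) + β * (u c - u c₁)‖ + ‖α * (c - c₁)‖ := by
      have : β * (u c - u c₁) = (α * (c - c₁) + β * (u c - u c₁)) - α * (c - c₁) := by ring
      calc ‖β * (u c - u c₁)‖ = ‖(α * (c - c₁) + β * (u c - u c₁)) - α * (c - c₁)‖ := by rw [← this]
        _ ≤ _ := norm_sub_le _ _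
    rw [norm_mul, norm_mul] at h7
    rw [div_mul_eq_mul_div, le_div_iff₀ (by positivity)]
    have h8 : ‖β‖ / 2 * ‖((c - c₁, u c - u c₁) : ℂ × ℂ)‖ ≤
        ‖β‖ / 2 * (‖c - c₁‖ + ‖u c - u c₁‖) := by gcongr
    nlinarith
  have h5 : (fun c => ((c - c₁, u c - u c₁) : ℂ × ℂ)) =O[𝓝 c₁] fun c => c - c₁ :=
    (Asymptotics.isBigO_refl _ _).prod_left h4
  have h6 := h2.trans_isBigO h5
  have h7 : HasDerivAt u (-(α / β)) c₁ := by
    rw [hasDerivAt_iff_isLittleO]
    have h8 : (fun c => u c - u c₁ - (c - c₁) • (-(α / β))) =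
        fun c => β⁻¹ * (α * (c - c₁) + β * (u c - u c₁)) := by
      funext c
      rw [smul_eq_mul]
      field_simp
      ring
    rw [h8]
    exact h6.const_mul_left β⁻¹
  exact h7.differentiableAt

namespace Ray0

variable {c : ℂ} {β : ℝ} {R : ℝ → ℂ}

lemma green (h : Ray0 c β R) {t : ℝ} (ht : 0 < t) : G c (R t) = t := by
  obtain ⟨j, hj⟩ := exists_pow_gt (G c 0) ht
  have h1 := congrArg (G c) (h.conj t ht j hj)
  rw [G_it, G_eR hj] at h1
  have h2 : (0 : ℝ) < 2 ^ j := by positivity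
  exact mul_left_cancel₀ h2.ne' h1

lemma far (h : Ray0 c β R) {t : ℝ} (ht : G c 0 < t) : R t = eR c β t := by
  have := h.conj t (lt_of_le_of_lt (G_nonneg c 0) ht) 0 (by simpa using ht)
  simpa using this

/-- bound in terms of the potential -/
lemma norm_le (h : Ray0 c β R) {t : ℝ} (ht : 0 < t) (ht1 : t ≤ 1) :
    ‖R t‖ ≤ Real.exp (1 + Real.log (1 + ‖c‖)) + 1 := by
  have h1 := (abs_le.1 (abs_G_sub_posLog c (R t))).1
  rw [h.green ht] at h1
  by_cases h2 : ‖R t‖ ≤ 1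
  · linarith [Real.exp_pos (1 + Real.log (1 + ‖c‖))]
  · push Not at h2
    rw [Real.posLog_eq_log (by rw [abs_of_nonneg (norm_nonneg _)]; exact h2.le)] at h1
    have h3 : Real.log ‖R t‖ ≤ 1 + Real.log (1 + ‖c‖) := by linarith
    have h4 := Real.exp_le_exp.2 h3
    rw [Real.exp_log (by linarith)] at h4
    linarith

end Ray0

/-- the map `(c, z) ↦ (c, it c j z)` on the set where `it c j` has nonzero derivative -/
noncomputable def Pj (j : ℕ) (p : {p : ℂ × ℂ // deriv (it p.1 j) p.2 ≠ 0}) : ℂ × ℂ := (p.1.1, it p.1.1 j p.1.2)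

lemma contDiff_Pj0 (j : ℕ) : ContDiff ℂ 1 fun p : ℂ × ℂ => (p.1, it p.1 j p.2) :=
  contDiff_fst.prodMk (contDiff_it4 j)

lemma fderiv_it_snd (j : ℕ) (p : ℂ × ℂ) :
    fderiv ℂ (fun p : ℂ × ℂ => it p.1 j p.2) p (0, 1) = deriv (it p.1 j) p.2 := by
  have h1 : HasFDerivAt (fun p : ℂ × ℂ => it p.1 j p.2)
      (fderiv ℂ (fun p : ℂ × ℂ => it p.1 j p.2) p) p :=
    ((contDiff_it4 j).differentiable one_ne_zero p).hasFDerivAt
  have h2 : HasDerivAt (fun z : ℂ => ((p.1, z) : ℂ × ℂ)) ((0 : ℂ), (1 : ℂ)) p.2 :=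
    (hasDerivAt_const _ _).prodMk (hasDerivAt_id _)
  have h3 := h1.comp_hasDerivAt (f := fun z : ℂ => ((p.1, z) : ℂ × ℂ)) p.2 h2
  exact h3.deriv.symm

lemma continuous_deriv_it (j : ℕ) : Continuous fun p : ℂ × ℂ => deriv (it p.1 j) p.2 := by
  have h1 : (fun p : ℂ × ℂ => deriv (it p.1 j) p.2) =
      fun p => fderiv ℂ (fun p : ℂ × ℂ => it p.1 j p.2) p (0, 1) := by
    funext p; rw [fderiv_it_snd]
  rw [h1]
  exact ((contDiff_it4 j).continuous_fderiv one_ne_zero).clm_apply continuous_const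

lemma isOpen_dne (j : ℕ) : IsOpen {p : ℂ × ℂ | deriv (it p.1 j) p.2 ≠ 0} :=
  isOpen_ne.preimage (continuous_deriv_it j)

lemma isLocalHomeomorphOn_Pj (j : ℕ) :
    IsLocalHomeomorphOn (fun p : ℂ × ℂ => (p.1, it p.1 j p.2))
      {p : ℂ × ℂ | deriv (it p.1 j) p.2 ≠ 0} := by
  refine IsLocalHomeomorphOn.mk _ _ fun x hx => ?_
  set F' : ℂ × ℂ →L[ℂ] ℂ := fderiv ℂ (fun p : ℂ × ℂ => it p.1 j p.2) x with hF'
  set β := deriv (it x.1 j) x.2 with hβ
  have hβ0 : β ≠ 0 := hx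
  have h01 : F' (0, 1) = β := fderiv_it_snd j x
  set α := F' (1, 0) with hα
  have hlin : ∀ v w : ℂ, F' (v, w) = α * v + β * w := by
    intro v w
    have : ((v, w) : ℂ × ℂ) = v • ((1 : ℂ), (0 : ℂ)) + w • ((0 : ℂ), (1 : ℂ)) := by simp
    rw [this, map_add, map_smul, map_smul, smul_eq_mul, smul_eq_mul, h01]
    ring
  let A : ℂ × ℂ →L[ℂ] ℂ × ℂ := (ContinuousLinearMap.fst ℂ ℂ ℂ).prod F'
  let B : ℂ × ℂ →L[ℂ] ℂ × ℂ := (ContinuousLinearMap.fst ℂ ℂ ℂ).prod
    (β⁻¹ • (ContinuousLinearMap.snd ℂ ℂ ℂ - α • ContinuousLinearMap.fst ℂ ℂ ℂ))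
  have hBA : Function.LeftInverse B A := by
    rintro ⟨v, w⟩
    simp only [A, B, ContinuousLinearMap.prod_apply, ContinuousLinearMap.coe_fst', hlin,
      smul_apply, sub_apply, ContinuousLinearMap.coe_snd',
      smul_eq_mul, Prod.mk.injEq, true_and]
    field_simp
    ring
  have hAB : Function.RightInverse B A := by
    rintro ⟨v, w⟩
    simp only [A, B, ContinuousLinearMap.prod_apply, ContinuousLinearMap.coe_fst', hlin,
      smul_apply, sub_apply, ContinuousLinearMap.coe_snd',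
      smul_eq_mul, Prod.mk.injEq, true_and]
    field_simp
    ring
  let E : (ℂ × ℂ) ≃L[ℂ] (ℂ × ℂ) := ContinuousLinearEquiv.equivOfInverse A B hBA hAB
  have hstr : HasStrictFDerivAt (fun p : ℂ × ℂ => it p.1 j p.2) F' x :=
    (contDiff_it4 j).contDiffAt.hasStrictFDerivAt one_ne_zero
  have hs : HasStrictFDerivAt (fun p : ℂ × ℂ => (p.1, it p.1 j p.2)) (E : ℂ × ℂ →L[ℂ] ℂ × ℂ) x :=
    (hasStrictFDerivAt_fst).prodMk hstr
  refine ⟨hs.toOpenPartialHomeomorph _, hs.mem_toOpenPartialHomeomorph_source, ?_⟩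
  intro y _
  rw [HasStrictFDerivAt.toOpenPartialHomeomorph_coe]

lemma isLocalHomeomorph_Pj (j : ℕ) : IsLocalHomeomorph (Pj j) := by
  rw [isLocalHomeomorph_iff_isLocalHomeomorphOn_univ]
  have h1 : IsLocalHomeomorph
      (Subtype.val : {p : ℂ × ℂ // deriv (it p.1 j) p.2 ≠ 0} → ℂ × ℂ) :=
    (isOpen_dne j).isOpenEmbedding_subtypeVal.isLocalHomeomorph
  exact (isLocalHomeomorphOn_Pj j).comp (t := {p : ℂ × ℂ | deriv (it p.1 j) p.2 ≠ 0})
    h1.isLocalHomeomorphOn (fun x _ => x.2)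

/-- joint continuity of the extended rays -/
theorem ray0_continuousAt {U : Set ℂ} (hU : IsOpen U) {β : ℝ} {R : ℂ → ℝ → ℂ}
    (hR : ∀ c ∈ U, Ray0 c β (R c)) {c₁ : ℂ} (hc₁ : c₁ ∈ U) {t₁ : ℝ} (ht₁ : 0 < t₁) :
    ContinuousAt (fun c => R c t₁) c₁ := by
  -- a ball with good constants
  obtain ⟨T, hT⟩ : ∃ T, max (G c₁ 0) t₁ < T := exists_gt _
  obtain ⟨j, hj⟩ := exists_pow_gt (G c₁ 0) ht₁
  have hG : Continuous fun c : ℂ => G c 0 :=
    continuous_G.comp (g := fun p : ℂ × ℂ => G p.1 p.2) (f := fun c : ℂ => (c, 0)) (by fun_prop)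
  have hev : ∀ᶠ c in 𝓝 c₁, c ∈ U ∧ G c 0 < T ∧ G c 0 < 2 ^ j * t₁ := by
    have h1 : ∀ᶠ c in 𝓝 c₁, c ∈ U := hU.mem_nhds hc₁
    have h2 : ∀ᶠ c in 𝓝 c₁, G c 0 < T :=
      (hG.tendsto c₁).eventually_lt_const (lt_of_le_of_lt (le_max_left _ _) hT)
    have h3 : ∀ᶠ c in 𝓝 c₁, G c 0 < 2 ^ j * t₁ := (hG.tendsto c₁).eventually_lt_const hj
    exact h1.and (h2.and h3)
  obtain ⟨ε, hε, hball⟩ := Metric.eventually_nhds_iff_ball.1 hev
  have hT1 : t₁ < T := lt_of_le_of_lt (le_max_right _ _) hT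
  have hT0 : 0 < T := ht₁.trans hT1
  let N := ball c₁ ε
  let γ : unitInterval → ℝ := fun s => T + s * (t₁ - T)
  have hγ : ∀ s, t₁ ≤ γ s := by
    intro s
    have h1 := s.2.1; have h2 := s.2.2
    show t₁ ≤ T + s * (t₁ - T)
    nlinarith
  have hγ0 : ∀ s, 0 < γ s := fun s => lt_of_lt_of_le ht₁ (hγ s)
  have hγc : Continuous γ := by fun_prop
  have h2j : (0 : ℝ) < 2 ^ j := by positivity
  have hGγ : ∀ (c : N) (s : unitInterval), G c 0 < 2 ^ j * γ s := fun c s =>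
    lt_of_lt_of_le (hball c c.2).2.2 (mul_le_mul_of_nonneg_left (hγ s) h2j.le)
  let fmap : C(unitInterval × N, ℂ × ℂ) :=
    ⟨fun x => ((x.2 : ℂ), eR x.2 (2 ^ j * β) (2 ^ j * γ x.1)), by
      refine (continuous_subtype_val.comp continuous_snd).prodMk ?_
      have h1 : Continuous fun x : unitInterval × N => ((x.2 : ℂ), 2 ^ j * γ x.1) := by fun_prop
      exact (continuousOn_eR (2 ^ j * β)).comp_continuous h1 fun x => hGγ x.2 x.1⟩
  let gmap : unitInterval × N → {p : ℂ × ℂ // deriv (it p.1 j) p.2 ≠ 0} := fun x =>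
    ⟨((x.2 : ℂ), R x.2 (γ x.1)), deriv_it_ne fun i _ =>
      (hR _ (hball x.2 x.2.2).1).ne _ (hγ0 x.1) i⟩
  have hlift : Pj j ∘ gmap = fmap := by
    funext x
    show ((x.2 : ℂ), it x.2 j (R x.2 (γ x.1))) = ((x.2 : ℂ), eR x.2 (2 ^ j * β) (2 ^ j * γ x.1))
    rw [(hR _ (hball x.2 x.2.2).1).conj _ (hγ0 x.1) j (hGγ x.2 x.1)]
  have hcont : Continuous gmap := by
    refine (isLocalHomeomorph_Pj j).continuous_lift (T2Space.isSeparatedMap _) fmap hlift ?_ ?_
    · refine Continuous.subtype_mk ?_ _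
      have h1 : ∀ c : N, R c (γ 0) = eR c β T := by
        intro c
        have : γ 0 = T := by simp [γ]
        rw [this]
        exact (hR _ (hball c c.2).1).far (hball c c.2).2.1
      simp only [h1]
      refine continuous_subtype_val.prodMk ?_
      have h2 : Continuous fun c : N => ((c : ℂ), T) := by fun_prop
      exact (continuousOn_eR β).comp_continuous h2 fun c => (hball c c.2).2.1
    · intro c
      refine Continuous.subtype_mk ?_ _
      show Continuous fun s : unitInterval => ((c : ℂ), R c (γ s))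
      refine continuous_const.prodMk ?_
      exact (hR _ (hball c c.2).1).cont.comp_continuous hγc fun s => hγ0 s
  have h1 : Continuous fun c : N => R c t₁ := by
    have h2 : Continuous fun c : N => (gmap (1, c)).1.2 :=
      (continuous_snd.comp continuous_subtype_val).comp (hcont.comp (by fun_prop))
    have h3 : ∀ c : N, (gmap (1, c)).1.2 = R c t₁ := by
      intro c
      show R c (γ 1) = R c t₁
      congr 1
      simp [γ]
    simpa only [h3] using h2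
  have h2 : ContinuousOn (fun c => R c t₁) N := continuousOn_iff_continuous_domRestrict.2 h1
  exact h2.continuousAt (ball_mem_nhds c₁ hε)

/-- the points of the extended rays are holomorphic functions of the parameter -/
theorem ray0_differentiableOn {U : Set ℂ} (hU : IsOpen U) {β : ℝ} {R : ℂ → ℝ → ℂ}
    (hR : ∀ c ∈ U, Ray0 c β (R c)) {t₁ : ℝ} (ht₁ : 0 < t₁) :
    DifferentiableOn ℂ (fun c => R c t₁) U := by
  intro c₁ hc₁
  refine DifferentiableAt.differentiableWithinAt ?_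
  obtain ⟨j, hj⟩ := exists_pow_gt (G c₁ 0) ht₁
  have hG : Continuous fun c : ℂ => G c 0 :=
    continuous_G.comp (g := fun p : ℂ × ℂ => G p.1 p.2) (f := fun c : ℂ => (c, 0)) (by fun_prop)
  have hO : IsOpen {c : ℂ | G c 0 < 2 ^ j * t₁} := isOpen_lt hG continuous_const
  set w : ℂ → ℂ := fun c => eR c (2 ^ j * β) (2 ^ j * t₁) with hw
  have hwd : DifferentiableAt ℂ w c₁ := by
    have h1 : DifferentiableOn ℂ (fun c : ℂ => eta c (((2 ^ j * t₁ : ℝ) : ℂ) +
        2 * Real.pi * Complex.I * ((2 ^ j * β : ℝ) : ℂ))) {c : ℂ | G c 0 < 2 ^ j * t₁} := by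
      refine differentiableOn_eta hO (γ := fun c => c)
        (δ := fun _ => ((2 ^ j * t₁ : ℝ) : ℂ) + 2 * Real.pi * Complex.I * ((2 ^ j * β : ℝ) : ℂ))
        differentiableOn_id (differentiableOn_const _) ?_
      intro c hc
      rw [eR_re]; exact hc
    exact h1.differentiableAt (hO.mem_nhds hj)
  have hit : HasFDerivAt (fun p : ℂ × ℂ => it p.1 j p.2)
      (fderiv ℂ (fun p : ℂ × ℂ => it p.1 j p.2) (c₁, R c₁ t₁)) (c₁, R c₁ t₁) :=
    ((contDiff_it4 j).differentiable one_ne_zero _).hasFDerivAt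
  have hw2 : HasFDerivAt (fun p : ℂ × ℂ => w p.1)
      ((ContinuousLinearMap.toSpanSingleton ℂ (deriv w c₁)).comp (ContinuousLinearMap.fst ℂ ℂ ℂ))
      (c₁, R c₁ t₁) := by
    have h1 : HasFDerivAt w (ContinuousLinearMap.toSpanSingleton ℂ (deriv w c₁)) c₁ :=
      hwd.hasDerivAt.hasFDerivAt
    exact HasFDerivAt.comp (g := w) (f := fun p : ℂ × ℂ => p.1) (c₁, R c₁ t₁) h1 hasFDerivAt_fst
  refine diff_of_implicit4 (F := fun p : ℂ × ℂ => it p.1 j p.2 - w p.1) (hit.sub hw2) ?_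
    (ray0_continuousAt hU hR hc₁ ht₁) ?_
  · rw [sub_apply, fderiv_it_snd]
    simp only [ContinuousLinearMap.comp_apply, ContinuousLinearMap.coe_fst', map_zero, sub_zero]
    exact deriv_it_ne fun i _ => (hR c₁ hc₁).ne _ ht₁ i
  · filter_upwards [hU.mem_nhds hc₁, hO.mem_nhds hj] with c hc hc2
    simp only [hw]
    rw [(hR c hc).conj t₁ ht₁ j hc2, (hR c₁ hc₁).conj t₁ ht₁ j hj, sub_self, sub_self]

/-- **Vitali's theorem for rays.** -/
theorem vitali_rays {U : Set ℂ} (hU : IsOpen U) (hUc : IsPreconnected U) {β : ℝ}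
    {R : ℂ → ℝ → ℂ} (hR : ∀ c ∈ U, Ray0 c β (R c)) {V : Set ℂ} (hV : IsOpen V) (hVU : V ⊆ U)
    (hVne : V.Nonempty) (hland : ∀ c ∈ V, ∃ b, Tendsto (R c) (𝓝[>] 0) (𝓝 b)) :
    ∃ g : ℂ → ℂ, DifferentiableOn ℂ g U ∧ ∀ c ∈ U, Tendsto (R c) (𝓝[>] 0) (𝓝 (g c)) := by
  classical
  -- the points where the rays land on a neighbourhood
  set A : Set ℂ := {c | ∃ W ∈ 𝓝 c, ∃ g : ℂ → ℂ, DifferentiableOn ℂ g W ∧
    ∀ c' ∈ W, Tendsto (R c') (𝓝[>] 0) (𝓝 (g c'))} with hA
  -- local step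
  have key : ∀ (c₁ : ℂ) (ρ : ℝ), 0 < ρ → ball c₁ ρ ⊆ U → ∀ W : Set ℂ, IsOpen W → W ⊆ ball c₁ ρ →
      W.Nonempty → (∀ c ∈ W, ∃ b, Tendsto (R c) (𝓝[>] 0) (𝓝 b)) →
      ∃ g : ℂ → ℂ, DifferentiableOn ℂ g (ball c₁ ρ) ∧
        ∀ c ∈ ball c₁ ρ, Tendsto (R c) (𝓝[>] 0) (𝓝 (g c)) := by
    intro c₁ ρ hρ hsub W hW hWsub hWne hWland
    set B : ℝ := Real.exp (1 + Real.log (1 + (‖c₁‖ + ρ))) + 1 with hB
    have hbd : ∀ c ∈ ball c₁ ρ, ∀ t, 0 < t → t ≤ 1 → ‖R c t‖ ≤ B := by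
      intro c hc t ht ht1
      refine ((hR c (hsub hc)).norm_le ht ht1).trans ?_
      rw [hB]
      have h1 : ‖c‖ ≤ ‖c₁‖ + ρ := by
        rw [mem_ball, dist_eq_norm] at hc
        have : ‖c‖ ≤ ‖c - c₁‖ + ‖c₁‖ := by simpa using norm_add_le (c - c₁) c₁
        linarith
      have h2 : Real.log (1 + ‖c‖) ≤ Real.log (1 + (‖c₁‖ + ρ)) :=
        Real.log_le_log (by positivity) (by linarith)
      have h3 := Real.exp_le_exp.2 (add_le_add_right h2 1)
      linarith [Real.exp_le_exp.2 (show 1 + Real.log (1 + ‖c‖) ≤ 1 + Real.log (1 + (‖c₁‖ + ρ)) by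
        linarith)]
    -- subsequences
    have hsubseq : ∀ τ : ℕ → ℝ, (∀ k, 0 < τ k ∧ τ k ≤ 1) → ∃ (φ : ℕ → ℕ) (g : ℂ → ℂ),
        StrictMono φ ∧ DifferentiableOn ℂ g (ball c₁ ρ) ∧
        ∀ c ∈ ball c₁ ρ, Tendsto (fun k => R c (τ (φ k))) atTop (𝓝 (g c)) := by
      intro τ hτ
      obtain ⟨φ, g, hφ, hg, hlim⟩ := Thr.montel (F := fun k c => R c (τ k)) (z := c₁) (R := ρ)
        (M := B) hρ (fun k => (ray0_differentiableOn hU hR (hτ k).1).mono hsub)
        (fun k c hc => hbd c hc _ (hτ k).1 (hτ k).2)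
      exact ⟨φ, g, hφ, hg, fun c hc => hlim.tendsto_at hc⟩
    -- the limit function
    set τ₀ : ℕ → ℝ := fun k => 1 / ((k : ℝ) + 1) with hτ₀
    have hτ₀' : ∀ k, 0 < τ₀ k ∧ τ₀ k ≤ 1 := by
      intro k
      refine ⟨by positivity, ?_⟩
      rw [hτ₀]
      simp only
      rw [div_le_one (by positivity)]
      linarith [(Nat.cast_nonneg k : (0 : ℝ) ≤ k)]
    have hτ₀l : Tendsto τ₀ atTop (𝓝[>] 0) := by
      refine tendsto_nhdsWithin_iff.2 ⟨tendsto_one_div_add_atTop_nhds_zero_nat,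
        Eventually.of_forall fun k => (hτ₀' k).1⟩
    obtain ⟨φ₀, g, hφ₀, hg, hlim₀⟩ := hsubseq τ₀ hτ₀'
    refine ⟨g, hg, ?_⟩
    have hgW : ∀ c ∈ W, Tendsto (R c) (𝓝[>] 0) (𝓝 (g c)) := by
      intro c hc
      obtain ⟨b, hb⟩ := hWland c hc
      have h1 := hlim₀ c (hWsub hc)
      have h2 : Tendsto (fun k => R c (τ₀ (φ₀ k))) atTop (𝓝 b) :=
        hb.comp (hτ₀l.comp hφ₀.tendsto_atTop)
      rwa [tendsto_nhds_unique h1 h2]
    intro c hc
    refine tendsto_of_subseq_tendsto fun τ hτ => ?_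
    -- pass to a tail in `(0, 1]`
    have hev : ∀ᶠ k in atTop, 0 < τ k ∧ τ k ≤ 1 := by
      have h1 : ∀ᶠ t in 𝓝[>] (0 : ℝ), 0 < t ∧ t ≤ 1 := by
        filter_upwards [Ioc_mem_nhdsGT (zero_lt_one' ℝ)] with t ht using ht
      exact hτ.eventually h1
    obtain ⟨k₀, hk₀⟩ := eventually_atTop.1 hev
    obtain ⟨φ, g', hφ, hg', hlim⟩ := hsubseq (fun k => τ (k + k₀))
      (fun k => hk₀ _ (Nat.le_add_left _ _))
    refine ⟨fun k => φ k + k₀, ?_⟩
    have heq : EqOn g' g (ball c₁ ρ) := by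
      have hga : AnalyticOnNhd ℂ g (ball c₁ ρ) := hg.analyticOnNhd isOpen_ball
      have hga' : AnalyticOnNhd ℂ g' (ball c₁ ρ) := hg'.analyticOnNhd isOpen_ball
      obtain ⟨z₀, hz₀⟩ := hWne
      refine hga'.eqOn_of_preconnected_of_eventuallyEq hga
        (convex_ball _ _).isPreconnected (hWsub hz₀) ?_
      filter_upwards [hW.mem_nhds hz₀] with z hz
      have h1 := hlim z (hWsub hz)
      have h2 : Tendsto (fun k => R z (τ (φ k + k₀))) atTop (𝓝 (g z)) :=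
        (hgW z hz).comp (hτ.comp (tendsto_add_atTop_nat k₀ |>.comp hφ.tendsto_atTop))
      exact tendsto_nhds_unique h1 h2
    have h1 := hlim c hc
    rw [heq hc] at h1
    exact h1
  -- `A` contains `U`
  have hAopen : IsOpen A := by
    rw [isOpen_iff_mem_nhds]
    rintro c ⟨W, hW, g, hg, hgl⟩
    obtain ⟨W', hW'W, hW'o, hcW'⟩ := _root_.mem_nhds_iff.1 hW
    filter_upwards [hW'o.mem_nhds hcW'] with c' hc'
    exact ⟨W', hW'o.mem_nhds hc', g, hg.mono hW'W, fun z hz => hgl z (hW'W hz)⟩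
  have hUA : U ⊆ A := by
    have hne : (U ∩ A).Nonempty := by
      obtain ⟨z, hz⟩ := hVne
      obtain ⟨ρ, hρ, hball⟩ := Metric.isOpen_iff.1 hV z hz
      obtain ⟨g, hg, hgl⟩ := key z ρ hρ (hball.trans hVU) (ball z ρ) isOpen_ball subset_rfl
        ⟨z, mem_ball_self hρ⟩ (fun c hc => hland c (hball hc))
      exact ⟨z, hVU hz, ball z ρ, ball_mem_nhds z hρ, g, hg, hgl⟩
    refine hUc.subset_of_closure_inter_subset hAopen hne ?_
    rintro c ⟨hcA, hcU⟩
    obtain ⟨ρ, hρ, hball⟩ := Metric.isOpen_iff.1 hU c hcU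
    obtain ⟨c', hc'A, hc'⟩ := Metric.mem_closure_iff.1 hcA ρ hρ
    have hc'b : c' ∈ ball c ρ := by rw [mem_ball, dist_comm]; exact hc'
    obtain ⟨W, hW, g', hg', hgl'⟩ := hc'A
    obtain ⟨W', hW'W, hW'o, hcW'⟩ := _root_.mem_nhds_iff.1 hW
    obtain ⟨g, hg, hgl⟩ := key c ρ hρ hball (W' ∩ ball c ρ) (hW'o.inter isOpen_ball)
      inter_subset_right ⟨c', hcW', hc'b⟩ (fun z hz => ⟨g' z, hgl' z (hW'W hz.1)⟩)
    exact ⟨ball c ρ, ball_mem_nhds c hρ, g, hg, hgl⟩
  -- glue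
  have hex : ∀ c ∈ U, ∃ b, Tendsto (R c) (𝓝[>] 0) (𝓝 b) := by
    intro c hc
    obtain ⟨W, hW, g, hg, hgl⟩ := hUA hc
    exact ⟨g c, hgl c (mem_of_mem_nhds hW)⟩
  choose! g hg using hex
  refine ⟨g, ?_, hg⟩
  intro c hc
  obtain ⟨W, hW, g', hg', hgl'⟩ := hUA hc
  have h1 : g =ᶠ[𝓝 c] g' := by
    filter_upwards [hW, hU.mem_nhds hc] with z hz hzU
    exact tendsto_nhds_unique (hg z hzU) (hgl' z hz)
  exact ((hg'.differentiableAt hW).congr_of_eventuallyEq h1).differentiableWithinAt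

/-- near an attracting point the orbits are bounded -/
lemma G_zero_near_attr {c b : ℂ} {k : ℕ} (hk : 0 < k) (hb : it c k b = b)
    (hρ : ‖mult k c b‖ < 1) : ∀ᶠ z in 𝓝 b, G c z = 0 := by
  have hd : HasDerivAt (it c k) (mult k c b) b := hasDerivAt_it_mult c k b
  obtain ⟨lam, hlam1, hlam2⟩ := exists_between hρ
  have hlam0 : 0 ≤ lam := (norm_nonneg _).trans hlam1.le
  have h1 := Asymptotics.isLittleO_iff.1 (hasDerivAt_iff_isLittleO.1 hd) (sub_pos.2 hlam1)
  obtain ⟨ρ, hρ0, hball⟩ := Metric.eventually_nhds_iff_ball.1 h1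
  have hstep : ∀ z ∈ ball b ρ, it c k z ∈ ball b ρ := by
    intro z hz
    have h2 := hball z hz
    rw [hb, smul_eq_mul] at h2
    have h3 : ‖it c k z - b‖ ≤ lam * ‖z - b‖ := by
      have h4 : it c k z - b = (it c k z - b - (z - b) * mult k c b) + (z - b) * mult k c b := by
        ring
      rw [h4]
      refine (norm_add_le _ _).trans ?_
      rw [norm_mul]
      nlinarith [norm_nonneg (z - b)]
    rw [mem_ball, dist_eq_norm] at hz ⊢
    nlinarith [norm_nonneg (z - b)]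
  filter_upwards [ball_mem_nhds b hρ0] with z hz
  have hit : ∀ j : ℕ, it c (k * j) z ∈ ball b ρ := by
    intro j
    induction j with
    | zero => simpa using hz
    | succ j ih =>
      have : k * (j + 1) = k + k * j := by ring
      rw [this, it_add]
      exact hstep _ ih
  refine G_zero_of_bdd (B := ‖b‖ + ρ) ?_
  rw [Filter.frequently_atTop]
  intro n
  refine ⟨k * n, Nat.le_mul_of_pos_left n hk, ?_⟩
  have h2 := hit n
  rw [mem_ball, dist_eq_norm] at h2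
  have : ‖it c (k * n) z‖ ≤ ‖it c (k * n) z - b‖ + ‖b‖ := by
    simpa using norm_add_le (it c (k * n) z - b) b
  linarith

/-- the multiplier is a holomorphic function along holomorphic sections -/
lemma differentiableOn_mult {U : Set ℂ} {g : ℂ → ℂ} (hg : DifferentiableOn ℂ g U) (k : ℕ) :
    DifferentiableOn ℂ (fun c => mult k c (g c)) U := by
  unfold mult
  refine DifferentiableOn.fun_finsetProd fun i _ => ?_
  refine DifferentiableOn.const_mul ?_ 2
  have h1 : Differentiable ℂ fun p : ℂ × ℂ => it p.1 i p.2 := (contDiff_it4 i).differentiable one_ne_zero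
  exact h1.comp_differentiableOn (differentiableOn_id.prodMk hg)

/-- **The section outside the wake.** -/
theorem out_section {U : Set ℂ} (hU : IsOpen U) (hUc : IsPreconnected U) {β : ℝ} {k : ℕ}
    (hk : 0 < k) {m : ℤ} (hβ : 2 ^ k * β = β + m) {R : ℂ → ℝ → ℂ}
    (hR : ∀ c ∈ U, Ray0 c β (R c)) {V : Set ℂ} (hV : IsOpen V) (hVU : V ⊆ U) (hVne : V.Nonempty)
    (hland : ∀ c ∈ V, ∃ b, Lands c β b ∧ 1 < ‖mult k c b‖) :
    ∃ g : ℂ → ℂ, DifferentiableOn ℂ g U ∧
      ∀ c ∈ U, Ray c β (g c) (R c) ∧ it c k (g c) = g c ∧ 1 < ‖mult k c (g c)‖ := by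
  -- uniqueness of the extended ray
  have huniq : ∀ c ∈ U, ∀ b, Lands c β b → Ray c β b (R c) := by
    rintro c hc b ⟨R', hR'⟩
    have h0 := G_nonneg c 0
    have h1 : EqOn R' (R c) (Ioi 0) := by
      refine unique_lift (c := c) isPreconnected_Ioi (a := G c 0 + 1)
        (show (0 : ℝ) < _ by linarith) ?_ hR'.cont (hR c hc).cont ?_
      · rw [hR'.far (by linarith), (hR c hc).far (by linarith)]
      · intro t ht
        have ht' : (0 : ℝ) < t := ht
        obtain ⟨j, hj⟩ := exists_pow_gt (G c 0) ht'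
        refine ⟨j, ?_, deriv_it_ne fun i _ => (hR c hc).ne t ht i⟩
        have h1 : ∀ᶠ s in 𝓝 t, G c 0 < 2 ^ j * s := by
          have : Continuous fun s : ℝ => 2 ^ j * s := by fun_prop
          exact this.tendsto t (Ioi_mem_nhds hj)
        filter_upwards [mem_nhdsWithin_of_mem_nhds h1, self_mem_nhdsWithin] with s hs hs'
        rw [hR'.conj s hs' j hs, (hR c hc).conj s hs' j hs]
    refine ⟨(hR c hc).cont, (hR c hc).conj, (hR c hc).ne, ?_⟩
    refine hR'.lands.congr' ?_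
    filter_upwards [self_mem_nhdsWithin] with t ht using h1 ht
  obtain ⟨g, hg, hgl⟩ := vitali_rays hU hUc hR hV hVU hVne (fun c hc => by
    obtain ⟨b, hb, -⟩ := hland c hc
    exact ⟨b, (huniq c (hVU hc) b hb).lands⟩)
  have hray : ∀ c ∈ U, Ray c β (g c) (R c) := fun c hc =>
    ⟨(hR c hc).cont, (hR c hc).conj, (hR c hc).ne, hgl c hc⟩
  have hfix : ∀ c ∈ U, it c k (g c) = g c := fun c hc => ((hray c hc).periodic hβ).1
  have hge : ∀ c ∈ U, 1 ≤ ‖mult k c (g c)‖ := by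
    intro c hc
    by_contra hcon
    push Not at hcon
    have h1 := (hgl c hc).eventually (G_zero_near_attr hk (hfix c hc) hcon)
    have h2 : ∀ᶠ t in 𝓝[>] (0 : ℝ), 0 < t := self_mem_nhdsWithin
    obtain ⟨t, ht, ht'⟩ := (h1.and h2).exists
    rw [(hR c hc).green ht'] at ht
    exact ht'.ne' ht
  refine ⟨g, hg, fun c hc => ⟨hray c hc, hfix c hc, ?_⟩⟩
  have hK := differentiableOn_mult hg k
  have hKa : AnalyticOnNhd ℂ (fun c => mult k c (g c)) U := hK.analyticOnNhd hU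
  rcases hKa.is_constant_or_isOpen hUc with ⟨w, hw⟩ | hopen
  · obtain ⟨z, hz⟩ := hVne
    obtain ⟨b, hb, hb1⟩ := hland z hz
    have h1 := (huniq z (hVU hz) b hb).b_unique (hray z (hVU hz))
    rw [hw c hc, ← hw z (hVU hz)]
    rw [h1] at hb1
    exact hb1
  · -- open mapping
    have h1 := hopen U subset_rfl hU
    have h2 : mult k c (g c) ∈ (fun c => mult k c (g c)) '' U := ⟨c, hc, rfl⟩
    rcases (hge c hc).eq_or_lt with h | h
    · exfalso
      obtain ⟨ε, hε, hball⟩ := Metric.isOpen_iff.1 h1 _ h2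
      set w := mult k c (g c) with hw
      set s : ℝ := min (ε / 2) (1 / 2) with hs
      have hs0 : 0 < s := by positivity
      have hs1 : s ≤ 1 / 2 := min_le_right _ _
      have hmem : ((1 - s : ℝ) : ℂ) * w ∈ ball w ε := by
        rw [mem_ball, dist_eq_norm]
        have : ((1 - s : ℝ) : ℂ) * w - w = -((s : ℝ) : ℂ) * w := by push_cast; ring
        rw [this, norm_mul, norm_neg, Complex.norm_real, Real.norm_eq_abs, abs_of_pos hs0, ← h]
        have : s ≤ ε / 2 := min_le_left _ _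
        linarith
      obtain ⟨c', hc', hc'w⟩ := hball hmem
      have h3 := hge c' hc'
      simp only at hc'w
      rw [hc'w, norm_mul, Complex.norm_real, Real.norm_eq_abs, ← h, abs_of_pos (by linarith)] at h3
      linarith
    · exact h

end Pool.Agent.Work.MLC
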