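import Pool.Agent.Work.MLC.SatLand60
import Pool.Agent.Work.MLC.Rot51

set_option autoImplicit false

/-! # Theorem S, module S5b: the PLY inequality of the parent in the wake (helper13) -/

namespace Pool.Agent.Work.MLC.Sat

open Filter Topology Metric Set Complex

variable {D : Dat}

/-- at exterior parameters -/
lemma ply_ext (hP : D.Par) (hC : D.Cir) {L : ℂ} (hL : L ∈ D.B) {θ : ℝ} (hθ : D.Th L θ)
    (h1 : D.tm ≤ θ) (h2 : θ ≤ D.tp) : ‖L - D.a‖ ^ 2 ≤ 81 * D.m * L.re := by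
  have h3 := (hC.plateau θ).2 ⟨h1, h2⟩
  have h4 := hP.ply L hL θ hθ
  rw [h3] at h4
  have h5 : L - 2 * Real.pi * (((D.k₀ : ℝ) + (D.x : ℝ) - D.k₀ : ℝ) : ℂ) * I = L - D.a := by
    unfold Dat.a axisPt; push_cast; ring
  rwa [h5] at h4

/-- at a limit of exterior parameters -/
lemma ply_lim (hP : D.Par) (hC : D.Cir) {L : ℂ} (hL : L ∈ D.B) (hre : 0 < L.re)
    (hM : D.c L ∈ MM) (hl : Land D.m (D.c L) (D.b L) D.tm D.x.den)
    (hf : ∃ᶠ L' in 𝓝 L, D.c L' ∉ MM) : ‖L - D.a‖ ^ 2 ≤ 81 * D.m * L.re := by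
  have h1 := (s5_land D hP hC L hL hre hM).1 hl
  have h2 : ∃ᶠ L' in 𝓝 L, ‖L' - D.a‖ ^ 2 - 81 * D.m * L'.re ≤ 0 := by
    refine (hf.and_eventually (h1.and (isOpen_B.mem_nhds hL))).mono ?_
    rintro L' ⟨a1, a2, a3⟩
    obtain ⟨θ, hθ⟩ := hP.ang L' a3 a1
    obtain ⟨b1, b2⟩ := a2.2 θ hθ
    linarith [ply_ext hP hC a3 hθ b1.le b2.le]
  by_contra hcon
  push Not at hcon
  have hc : ContinuousAt (fun z : ℂ => ‖z - D.a‖ ^ 2 - 81 * D.m * z.re) L := by fun_prop
  have h3 := hc.eventually_const_lt (sub_pos.2 hcon)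
  obtain ⟨L', a1, a2⟩ := (h2.and_eventually h3).exists
  linarith

/-- the minimum principle for `Re (1 / (z - a))`, one boundary point `y` may be disregarded -/
lemma min_principle {V : Set ℂ} {a y : ℂ} {κ : ℝ} (hV : Bornology.IsBounded V)
    (ha : a ∉ closure V) (hbd : ∀ z ∈ closure V, ‖z - y‖ ≤ 1)
    (hfr : ∀ z ∈ frontier V, z ≠ y → κ ≤ ((z - a)⁻¹).re) {L : ℂ} (hL : L ∈ V) (hLy : L ≠ y) :
    κ ≤ ((L - a)⁻¹).re := by
  have key : ∀ N : ℕ, Real.exp (-(N * ((L - a)⁻¹).re)) * ‖L - y‖ ≤ Real.exp (-(N * κ)) := by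
    intro N
    set f : ℂ → ℂ := fun z => exp (-(N * (z - a)⁻¹)) * (z - y) with hf
    have hnorm : ∀ z, ‖f z‖ = Real.exp (-(N * ((z - a)⁻¹).re)) * ‖z - y‖ := by
      intro z
      rw [hf]
      simp only [norm_mul, Complex.norm_exp, Complex.neg_re]
      congr 3
      have := Complex.re_ofReal_mul (N : ℝ) ((z - a)⁻¹)
      simpa using this
    have hd : DifferentiableOn ℂ f (closure V) := by
      intro z hz
      have hz0 : z - a ≠ 0 := fun h => ha (by rwa [sub_eq_zero.1 h] at hz)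
      have h1 : DifferentiableAt ℂ f z := by
        rw [hf]
        refine DifferentiableAt.mul ?_ (by fun_prop)
        refine DifferentiableAt.cexp ?_
        refine (DifferentiableAt.const_mul ?_ _).neg
        exact (differentiableAt_id.sub_const a).inv hz0
      exact h1.differentiableWithinAt
    have h2 := Complex.norm_le_of_forall_mem_frontier_norm_le hV hd.diffContOnCl
      (C := Real.exp (-(N * κ))) (fun z hz => by
        rw [hnorm]
        by_cases hzy : z = y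
        · rw [hzy, sub_self, norm_zero, mul_zero]
          exact (Real.exp_pos _).le
        · have h3 := hfr z hz hzy
          have h4 := hbd z (frontier_subset_closure hz)
          have h5 : Real.exp (-(N * ((z - a)⁻¹).re)) ≤ Real.exp (-(N * κ)) := by
            apply Real.exp_le_exp.2
            have : (N : ℝ) * κ ≤ N * ((z - a)⁻¹).re := mul_le_mul_of_nonneg_left h3 (by positivity)
            linarith
          calc Real.exp (-(N * ((z - a)⁻¹).re)) * ‖z - y‖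
              ≤ Real.exp (-(N * κ)) * 1 := by gcongr
            _ = _ := mul_one _) (subset_closure hL)
    rw [hnorm] at h2
    exact h2
  by_contra hcon
  push Not at hcon
  have hpos : 0 < ‖L - y‖ := norm_pos_iff.2 (sub_ne_zero.2 hLy)
  have hlt : Real.exp (-(κ - ((L - a)⁻¹).re)) < 1 := by
    rw [Real.exp_lt_one_iff]; linarith
  obtain ⟨N, hN⟩ := exists_pow_lt_of_lt_one hpos hlt
  have h1 := key N
  rw [← Real.exp_nat_mul] at hN
  have h2 : ‖L - y‖ ≤ Real.exp (N * -(κ - ((L - a)⁻¹).re)) := by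
    have h3 : Real.exp (N * -(κ - ((L - a)⁻¹).re))
        = Real.exp (-(N * κ)) * Real.exp (N * ((L - a)⁻¹).re) := by
      rw [← Real.exp_add]; congr 1; ring
    have h4 : ‖L - y‖ = (Real.exp (-(N * ((L - a)⁻¹).re)) * ‖L - y‖)
        * Real.exp (N * ((L - a)⁻¹).re) := by
      rw [mul_comm (Real.exp (-(N * ((L - a)⁻¹).re))), mul_assoc, ← Real.exp_add]
      simp
    rw [h3, h4]
    gcongr
  linarith

lemma inv_re_of_ply {z a : ℂ} {K : ℝ} (hK : 0 < K) (ha : a.re = 0) (hza : z ≠ a)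
    (h : ‖z - a‖ ^ 2 ≤ K * z.re) : 1 / K ≤ ((z - a)⁻¹).re := by
  have h0 : 0 < Complex.normSq (z - a) := Complex.normSq_pos.2 (sub_ne_zero.2 hza)
  rw [Complex.inv_re, Complex.sub_re, ha, sub_zero, le_div_iff₀ h0, div_mul_eq_mul_div,
    div_le_iff₀ hK, one_mul, Complex.normSq_eq_norm_sq]
  linarith

lemma ply_of_inv_re {z a : ℂ} {K : ℝ} (hK : 0 < K) (ha : a.re = 0) (hza : z ≠ a)
    (h : 1 / K ≤ ((z - a)⁻¹).re) : ‖z - a‖ ^ 2 ≤ K * z.re := by
  have h0 : 0 < Complex.normSq (z - a) := Complex.normSq_pos.2 (sub_ne_zero.2 hza)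
  rw [Complex.inv_re, Complex.sub_re, ha, sub_zero, le_div_iff₀ h0, div_mul_eq_mul_div,
    div_le_iff₀ hK, one_mul, Complex.normSq_eq_norm_sq] at h
  linarith

lemma rat_gap {x y : ℚ} (h : x ≠ y) : 1 / ((x.den : ℝ) * y.den) ≤ |(x : ℝ) - y| := by
  have hx0 : (0 : ℝ) < x.den := by exact_mod_cast x.pos
  have hy0 : (0 : ℝ) < y.den := by exact_mod_cast y.pos
  have hx : (x : ℝ) = x.num / x.den := by exact_mod_cast (Rat.num_div_den x).symm
  have hy : (y : ℝ) = y.num / y.den := by exact_mod_cast (Rat.num_div_den y).symm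
  have h1 : (x : ℝ) - y = ((x.num * y.den - y.num * x.den : ℤ) : ℝ) / (x.den * y.den) := by
    rw [hx, hy]; push_cast; field_simp
  have h2 : x.num * y.den - y.num * x.den ≠ 0 := by
    intro h3
    rw [h3, Int.cast_zero, zero_div] at h1
    exact h (by exact_mod_cast sub_eq_zero.1 h1)
  have h3 : (1 : ℝ) ≤ |((x.num * y.den - y.num * x.den : ℤ) : ℝ)| := by
    have := Int.one_le_abs h2
    exact_mod_cast this
  rw [h1, abs_div, abs_of_pos (by positivity : (0 : ℝ) < x.den * y.den)]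
  gcongr

lemma axisPt_re13 (x : ℚ) : (axisPt x).re = 0 := by
  unfold axisPt; simp

lemma norm_axisPt_sub (x y : ℚ) : ‖axisPt x - axisPt y‖ = 2 * Real.pi * |(x : ℝ) - y| := by
  have h1 : axisPt x - axisPt y = ((2 * Real.pi * ((x : ℝ) - y) : ℝ) : ℂ) * I := by
    unfold axisPt; push_cast; ring
  rw [h1, norm_mul, Complex.norm_I, mul_one, Complex.norm_real, Real.norm_eq_abs, abs_mul,
    abs_of_pos (by positivity : (0 : ℝ) < 2 * Real.pi)]

/-- the PLY discs of the other rational points which meet the small disc are tiny -/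
lemma den_large (hP : D.Par) {L : ℂ} (hL : L ∈ D.U) {y : ℚ} (hxy : D.x ≠ y)
    (h : ‖L - axisPt y‖ ^ 2 ≤ 2 * D.m * Real.log 2 / y.den * L.re) :
    50 * (D.m : ℝ) ^ 2 * D.x.den ^ 2 ≤ y.den := by
  have hm : (1 : ℝ) ≤ D.m := by exact_mod_cast hP.m_pos
  have hQ : (1 : ℝ) ≤ D.x.den := by exact_mod_cast D.x.pos
  have hq : (1 : ℝ) ≤ y.den := by exact_mod_cast y.pos
  have h1 := rat_gap hxy
  have h2 := norm_axisPt_sub D.x y
  have h3 : ‖L - D.a‖ < sR D.m D.x := by
    rw [← dist_eq_norm]; exact hL.1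
  have h4 : ‖axisPt D.x - axisPt y‖ ≤ ‖L - D.a‖ + ‖L - axisPt y‖ := by
    have : axisPt D.x - axisPt y = (D.a - L) + (L - axisPt y) := by unfold Dat.a; ring
    rw [this]
    refine (norm_add_le _ _).trans ?_
    rw [norm_sub_rev D.a L]
  have h5 : L.re ≤ ‖L - D.a‖ := by
    have h6 := Complex.re_le_norm (L - D.a)
    rw [Complex.sub_re] at h6
    have : D.a.re = 0 := axisPt_re13 D.x
    rw [this] at h6
    linarith
  by_contra hcon
  push Not at hcon
  have hlog : Real.log 2 < 0.7 := by linarith [Real.log_two_lt_d9]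
  have hlog0 : 0 < Real.log 2 := Real.log_pos (by norm_num)
  generalize hmr : (D.m : ℝ) = m at *
  generalize hQr : (D.x.den : ℝ) = Q at *
  generalize hqr : (y.den : ℝ) = q at *
  set t : ℝ := 1 / (Q * q) with ht
  have ht0 : 0 < t := by rw [ht]; positivity
  have hs : sR D.m D.x = 1 / (16 * m ^ 3 * Q ^ 4) := by
    unfold sR; rw [hmr, hQr]
  have hs1 : sR D.m D.x ≤ 25 / 8 * t := by
    rw [hs, ht, mul_one_div, div_le_div_iff₀ (by positivity) (by positivity)]
    have e1 : q ≤ 50 * m ^ 2 * Q ^ 2 := hcon.le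
    have e2 : 50 * m ^ 2 * Q ^ 2 ≤ 50 * m ^ 3 * Q ^ 3 := by
      have : m ^ 2 * Q ^ 2 * 1 ≤ m ^ 2 * Q ^ 2 * (m * Q) :=
        mul_le_mul_of_nonneg_left (one_le_mul_of_one_le_of_one_le hm hQ) (by positivity)
      linarith
    have e3 : Q * q ≤ Q * (50 * m ^ 3 * Q ^ 3) :=
      mul_le_mul_of_nonneg_left (e1.trans e2) (by linarith)
    linarith
  have hρ : ‖L - axisPt y‖ ≤ 22 / 10 * t := by
    apply le_of_sq_le_sq _ (by positivity)
    refine h.trans ?_
    have e1 : 2 * m * Real.log 2 / q * L.re ≤ 2 * m * 0.7 / q * (1 / (16 * m ^ 3 * Q ^ 4)) := by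
      have e2 : L.re ≤ 1 / (16 * m ^ 3 * Q ^ 4) := by rw [← hs]; linarith
      have e3 : 2 * m * Real.log 2 / q ≤ 2 * m * 0.7 / q := by gcongr
      calc 2 * m * Real.log 2 / q * L.re ≤ 2 * m * Real.log 2 / q * (1 / (16 * m ^ 3 * Q ^ 4)) :=
            mul_le_mul_of_nonneg_left e2 (by positivity)
        _ ≤ _ := mul_le_mul_of_nonneg_right e3 (by positivity)
    refine e1.trans ?_
    have e4 : 2 * m * 0.7 / q * (1 / (16 * m ^ 3 * Q ^ 4)) = 0.0875 / (m ^ 2 * Q ^ 4 * q) := by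
      field_simp; norm_num
    have e5 : (22 / 10 * t) ^ 2 = 4.84 / (Q ^ 2 * q ^ 2) := by
      rw [ht]; field_simp; norm_num
    rw [e4, e5, div_le_div_iff₀ (by positivity) (by positivity)]
    have e6 : Q ^ 2 * q * q ≤ Q ^ 2 * q * (50 * m ^ 2 * Q ^ 2) :=
      mul_le_mul_of_nonneg_left hcon.le (by positivity)
    have e7 : 0 < m ^ 2 * Q ^ 4 * q := by positivity
    linarith
  have hpi := Real.pi_gt_three
  rw [h2] at h4
  have h7 : 2 * Real.pi * t ≤ 2 * Real.pi * |(D.x : ℝ) - y| := by gcongr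
  linarith [mul_lt_mul_of_pos_right hpi ht0]

/-- at the parameters in the interior of the Mandelbrot set -/
lemma ply_int (hP : D.Par) (hC : D.Cir) {L : ℂ} (hL : L ∈ D.U) (hre : 0 < L.re)
    (hM : D.c L ∈ MM) (hl : Land D.m (D.c L) (D.b L) D.tm D.x.den)
    (hi : ∀ᶠ L' in 𝓝 L, D.c L' ∈ MM) : ‖L - D.a‖ ^ 2 ≤ 81 * D.m * L.re := by
  have hm : (1 : ℝ) ≤ D.m := by exact_mod_cast hP.m_pos
  have hQ : (1 : ℝ) ≤ D.x.den := by exact_mod_cast D.x.pos
  have hlog : Real.log 2 < 0.7 := by linarith [Real.log_two_lt_d9]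
  have hlog0 : 0 < Real.log 2 := Real.log_pos (by norm_num)
  have hR := Tr.rotData hP.m_pos
  have hLB := U_sub_B hP hL
  have hsec := hP.sec
  obtain ⟨y, hy⟩ := hR.ex (D.c L) (D.b L) L (hsec L hLB).1 (hsec L hLB).2 hre hM
  have hply := hR.ply _ _ _ _ hy
  by_cases hxy : D.x = y
  · subst hxy
    refine hply.trans ?_
    have e1 : 2 * (D.m : ℝ) * Real.log 2 / D.x.den ≤ 81 * D.m := by
      rw [div_le_iff₀ (by positivity)]
      have f1 := mul_le_mul_of_nonneg_left hlog.le (by linarith : (0 : ℝ) ≤ D.m)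
      have f2 := mul_le_mul_of_nonneg_left hQ (by linarith : (0 : ℝ) ≤ D.m)
      linarith
    exact mul_le_mul_of_nonneg_right e1 hre.le
  -- the other rational points
  have hden := den_large hP hL hxy hply
  set r : ℝ := 2 * D.m * Real.log 2 / y.den with hr
  have hq0 : (0 : ℝ) < y.den := by exact_mod_cast y.pos
  have hr0 : 0 < r := by rw [hr]; positivity
  have hr1 : r ≤ 0.028 / (D.m * D.x.den ^ 2) := by
    rw [hr, div_le_div_iff₀ hq0 (by positivity)]
    have e1 : 0.028 * (50 * (D.m : ℝ) ^ 2 * D.x.den ^ 2) ≤ 0.028 * y.den := by gcongr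
    have e2 : 2 * (D.m : ℝ) * Real.log 2 * (D.m * D.x.den ^ 2)
        ≤ 2 * (D.m : ℝ) * 0.7 * (D.m * D.x.den ^ 2) := by gcongr
    linarith
  set Y : ℂ := axisPt y with hY
  have hYre : Y.re = 0 := axisPt_re13 y
  have ha0 : D.a.re = 0 := axisPt_re13 D.x
  -- the closed disc
  have hK : ∀ z : ℂ, ‖z - Y‖ ^ 2 ≤ r * z.re → ‖z - Y‖ ≤ r := by
    intro z hz
    have h1 : z.re ≤ ‖z - Y‖ := by
      have := Complex.re_le_norm (z - Y)
      rw [Complex.sub_re, hYre] at this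
      linarith
    by_contra hcon
    push Not at hcon
    have h2 : r * z.re ≤ r * ‖z - Y‖ := mul_le_mul_of_nonneg_left h1 hr0.le
    have h3 : 0 < ‖z - Y‖ := hr0.trans hcon
    have h4 := mul_lt_mul_of_pos_right hcon h3
    rw [← sq] at h4
    linarith
  have hmQ : (0 : ℝ) < D.m * D.x.den ^ 2 := by positivity
  have hKB : ∀ z : ℂ, ‖z - Y‖ ^ 2 ≤ r * z.re → z ∈ D.B := by
    intro z hz
    have h1 := hK z hz
    have h2 := hK L hply
    have h3 : ‖L - D.a‖ < sR D.m D.x := by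
      rw [← dist_eq_norm]; exact hL.1
    have h4 : ‖z - D.a‖ ≤ ‖z - Y‖ + ‖L - Y‖ + ‖L - D.a‖ := by
      have : z - D.a = (z - Y) - (L - Y) + (L - D.a) := by ring
      rw [this]
      refine (norm_add_le _ _).trans ?_
      gcongr
      exact norm_sub_le _ _
    have h5 := gR_ge hP
    have h6 : sR D.m D.x ≤ (1 / 16) / (D.m * D.x.den ^ 2) := by
      unfold sR
      rw [div_div, div_le_div_iff₀ (by positivity) (by positivity)]
      have e1 : (D.m : ℝ) ≤ D.m ^ 3 := by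
        calc (D.m : ℝ) = D.m ^ 1 := (pow_one _).symm
          _ ≤ D.m ^ 3 := pow_le_pow_right₀ hm (by norm_num)
      have e2 : (D.x.den : ℝ) ^ 2 ≤ D.x.den ^ 4 := pow_le_pow_right₀ hQ (by norm_num)
      have e3 : (D.m : ℝ) * D.x.den ^ 2 ≤ D.m ^ 3 * D.x.den ^ 4 := by gcongr
      linarith
    have h7 : 1 / (4 * (D.m : ℝ) * D.x.den ^ 2) = 0.25 / (D.m * D.x.den ^ 2) := by
      field_simp; norm_num
    rw [Dat.B, mem_ball, dist_eq_norm]
    have h8 : 0.028 / ((D.m : ℝ) * D.x.den ^ 2) + 0.028 / (D.m * D.x.den ^ 2)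
        + (1 / 16) / (D.m * D.x.den ^ 2) < 0.25 / (D.m * D.x.den ^ 2) := by
      rw [← add_div, ← add_div]
      exact div_lt_div_of_pos_right (by norm_num) hmQ
    linarith
  set S : Set ℂ := {z | z ∈ D.B ∧ 0 < z.re ∧ D.c z ∈ MM ∧ Tr.RotT D.m (D.c z) (D.b z) z y ∧
    Land D.m (D.c z) (D.b z) D.tm D.x.den} with hS
  set V : Set ℂ := interior S with hV
  have hVS : V ⊆ S := interior_subset
  -- the rotation number and the landing are locally constant
  have hrot : ∀ z ∈ D.B, ∀ y' : ℚ, Tr.RotT D.m (D.c z) (D.b z) z y' →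
      ∀ᶠ z' in 𝓝 z, D.c z' ∈ MM → Tr.RotT D.m (D.c z') (D.b z') z' y' := by
    intro z hz y' hy'
    have h1 := hR.opn _ _ _ _ hy'
    have h2 : Tendsto (fun z' => ((D.c z', D.b z', z') : ℂ × ℂ × ℂ)) (𝓝 z)
        (𝓝 (D.c z, D.b z, z)) :=
      (c_contAt hP hz).prodMk ((b_contAt hP hz).prodMk continuousAt_id)
    filter_upwards [h2.eventually h1, isOpen_B.mem_nhds hz] with z' h3 h4 h5
    exact h3 h5 (hsec z' h4).1 (hsec z' h4).2
  have hLV : L ∈ V := by
    rw [hV, mem_interior_iff_mem_nhds]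
    filter_upwards [isOpen_B.mem_nhds hLB, hi,
      (Complex.continuous_re.continuousAt (x := L)).eventually_const_lt hre, hrot L hLB y hy,
      (s5_land D hP hC L hLB hre hM).1 hl] with z a1 a2 a3 a4 a5
    exact ⟨a1, a3, a2, a4 a2, a5.1 a2⟩
  have hclK : ∀ z ∈ closure V, ‖z - Y‖ ^ 2 ≤ r * z.re := by
    intro z hz
    have hcl : IsClosed {z : ℂ | ‖z - Y‖ ^ 2 ≤ r * z.re} :=
      isClosed_le (by fun_prop) (by fun_prop)
    have hsub : V ⊆ {z : ℂ | ‖z - Y‖ ^ 2 ≤ r * z.re} := fun z hz =>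
      hR.ply _ _ _ _ (hVS hz).2.2.2.1
    exact closure_minimal hsub hcl hz
  have hfr : ∀ z ∈ frontier V, z ≠ Y → ‖z - D.a‖ ^ 2 ≤ 81 * D.m * z.re := by
    intro z hz hzY
    have hzc := frontier_subset_closure hz
    have h1 := hclK z hzc
    have hzB := hKB z h1
    have hzre : 0 < z.re := by
      have h2 : 0 < ‖z - Y‖ ^ 2 := pow_pos (norm_pos_iff.2 (sub_ne_zero.2 hzY)) 2
      by_contra hcon
      push Not at hcon
      have : r * z.re ≤ 0 := mul_nonpos_of_nonneg_of_nonpos hr0.le hcon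
      linarith
    have hfreq : ∃ᶠ z' in 𝓝 z, z' ∈ V := mem_closure_iff_frequently.1 hzc
    have hzM : D.c z ∈ MM := by
      by_contra hcon
      have h3 := (c_contAt hP hzB).eventually (isOpen_compl_MM.mem_nhds hcon)
      obtain ⟨z', a1, a2⟩ := (hfreq.and_eventually h3).exists
      exact a2 (hVS a1).2.2.1
    obtain ⟨y', hy'⟩ := hR.ex (D.c z) (D.b z) z (hsec z hzB).1 (hsec z hzB).2 hzre hzM
    have hyy : y' = y := by
      obtain ⟨z', a1, a2⟩ := (hfreq.and_eventually (hrot z hzB y' hy')).exists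
      exact hR.uniq _ _ _ _ _ (a2 (hVS a1).2.2.1) (hVS a1).2.2.2.1
    rw [hyy] at hy'
    have hzl : Land D.m (D.c z) (D.b z) D.tm D.x.den := by
      by_contra hcon
      obtain ⟨z', a1, a2⟩ := (hfreq.and_eventually
        ((s5_land D hP hC z hzB hzre hzM).2 hcon)).exists
      exact a2.1 (hVS a1).2.2.1 (hVS a1).2.2.2.2
    refine ply_lim hP hC hzB hzre hzM hzl ?_
    by_contra hcon
    rw [not_frequently] at hcon
    have hzV : z ∈ V := by
      rw [hV, mem_interior_iff_mem_nhds]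
      filter_upwards [isOpen_B.mem_nhds hzB, hcon,
        (Complex.continuous_re.continuousAt (x := z)).eventually_const_lt hzre,
        hrot z hzB y hy', (s5_land D hP hC z hzB hzre hzM).1 hzl] with z' a1 a2 a3 a4 a5
      have a2' := not_not.1 a2
      exact ⟨a1, a3, a2', a4 a2', a5.1 a2'⟩
    rw [frontier, (isOpen_interior : IsOpen V).interior_eq] at hz
    exact hz.2 hzV
  have hacl : D.a ∉ closure V := by
    intro h
    have h1 := hclK D.a h
    rw [ha0, mul_zero] at h1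
    have h2 : ‖D.a - Y‖ = 0 := by
      have := sq_nonneg ‖D.a - Y‖
      exact pow_eq_zero_iff two_ne_zero |>.1 (le_antisymm h1 this)
    have h3 : 2 * Real.pi * |(D.x : ℝ) - y| = 0 := by rw [← norm_axisPt_sub]; exact h2
    have h4 : |(D.x : ℝ) - y| = 0 := by
      rcases mul_eq_zero.1 h3 with h5 | h5
      · have := Real.pi_pos
        linarith
      · exact h5
    exact hxy (by exact_mod_cast sub_eq_zero.1 (abs_eq_zero.1 h4))
  have h81 : (0 : ℝ) < 81 * D.m := by positivity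
  have hLa : L ≠ D.a := hL.2
  have hLY : L ≠ Y := by
    intro h
    rw [h, hYre] at hre
    exact lt_irrefl _ hre
  have hfra : ∀ z ∈ frontier V, z ≠ Y → 1 / (81 * (D.m : ℝ)) ≤ ((z - D.a)⁻¹).re := by
    intro z hz hzY
    refine inv_re_of_ply h81 ha0 ?_ (hfr z hz hzY)
    rintro rfl
    exact hacl (frontier_subset_closure hz)
  have hbd : ∀ z ∈ closure V, ‖z - Y‖ ≤ 1 := by
    intro z hz
    refine (hK z (hclK z hz)).trans (hr1.trans ?_)
    rw [div_le_one hmQ]
    linarith [one_le_mul_of_one_le_of_one_le hm (one_le_pow₀ hQ (n := 2))]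
  have hbb : Bornology.IsBounded V := by
    refine (Metric.isBounded_closedBall (x := Y) (r := 1)).subset fun z hz => ?_
    rw [mem_closedBall, dist_eq_norm]
    exact hbd z (subset_closure hz)
  exact ply_of_inv_re h81 ha0 hLa (min_principle hbb hacl hbd hfra hLV hLY)

/-- **S5b** -/
theorem s5_ply13 : S5_ply := by
  rintro D hP hC L ⟨hU, hre, ⟨θ, hθ, h1, h2⟩ | ⟨hM, hl⟩⟩
  · exact ply_ext hP hC (U_sub_B hP hU) hθ h1.le h2.le
  · by_cases hi : ∀ᶠ L' in 𝓝 L, D.c L' ∈ MM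
    · exact ply_int hP hC hU hre hM hl hi
    · refine ply_lim hP hC (U_sub_B hP hU) hre hM hl ?_
      intro h
      exact hi (h.mono fun _ h' => not_not.1 h')

end Pool.Agent.Work.MLC.Sat
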