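import Pool.Agent.Work.MLC.SatT6
import Pool.Agent.Work.MLC.Inputs34

set_option autoImplicit false

/-! # The limb bound and local connectivity with satellite components (helper6) -/

namespace Pool.Agent.Work.MLC

open Filter Topology Metric Set

/-- a piece of `M` at `r` of size `ε` -/
def Piece (r : ℂ) (ε : ℝ) : Prop :=
  ∃ K ⊆ MS, IsCompact K ∧ IsPreconnected K ∧ r ∈ K ∧
    (∀ z ∈ K, z ≠ r → K \ {r} ∈ 𝓝[MS] z) ∧ K ⊆ closedBall r ε ∧
    ∃ V : Set ℂ, V.Nonempty ∧ ∀ z ∈ MS, z ∉ K → V ⊆ connectedComponentIn (MS \ {r}) z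

theorem Piece.of_limb {x : ℚ} {R A : ℝ} {g : ℂ → ℂ} {T : ℂ → ℚ → Prop}
    (h : LimbData MS x R A g T) (hadm : A / x.den < R) {r : ℂ} (hr : g (axisPt x) = r) {ε : ℝ}
    (hK : LimbData.K g T x ⊆ closedBall r ε) : Piece r ε := by
  have hadm' : LimbData.Adm x R A x := by
    unfold LimbData.Adm
    rw [sub_self, abs_zero, mul_zero, add_zero]
    exact hadm
  refine ⟨_, h.K_sub hadm', h.isCompact_K inputs34.cpt.isClosed hadm',
    h.K_conn inputs34.cpt.isClosed inputs34.conn hadm', Or.inl hr.symm, ?_, hK, ?_⟩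
  · intro z hz hzr
    have h1 := h.K_open hadm' hz (by rw [hr]; exact hzr)
    rwa [hr] at h1
  · have h1 := h.main inputs34.cpt inputs34.conn hadm'
    rwa [hr] at h1

/-- the trivial piece -/
theorem Piece.trivial {r : ℂ} (hr : r ∈ MS) {ε : ℝ} (hε : 8 ≤ ε) : Piece r ε := by
  refine ⟨MS, le_rfl, inputs34.cpt, inputs34.conn, hr, ?_, ?_, {0}, singleton_nonempty _, ?_⟩
  · intro z _ hzr
    have : MS \ {r} = MS ∩ {r}ᶜ := rfl
    rw [this]
    exact inter_mem self_mem_nhdsWithin (mem_nhdsWithin_of_mem_nhds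
      (isOpen_compl_singleton.mem_nhds hzr))
  · intro z hz
    rw [mem_closedBall, dist_eq_norm]
    calc ‖z - r‖ ≤ ‖z‖ + ‖r‖ := norm_sub_le _ _
      _ ≤ 4 + 4 := add_le_add (norm_MS hz) (norm_MS hr)
      _ ≤ _ := by linarith
  · intro z hz hz2
    exact absurd hz hz2

/-- a parameter with a neutral cycle is in `M` -/
theorem mem_MS_of_norm {n : ℕ} (hn : 0 < n) {r b : ℂ} (hb : it r n b = b)
    (hm : ‖mul n (r, b)‖ = 1) : r ∈ MS := by
  by_contra h0
  have h1 := inputs34.rep n hn (r, b) hb h0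
  rw [hm] at h1
  exact lt_irrefl _ h1

theorem Piece.mono {r : ℂ} {ε ε' : ℝ} (h : Piece r ε) (hε : ε ≤ ε') : Piece r ε' := by
  obtain ⟨K, h1, h2, h3, h4, h5, h6, h7⟩ := h
  exact ⟨K, h1, h2, h3, h4, h5, h6.trans (closedBall_subset_closedBall hε), h7⟩

lemma green_le {n : ℕ} (hn : 0 < n) {c z ℓ : ℂ} (h1 : (c, z) ∈ Per n)
    (h2 : mul n (c, z) = Complex.exp ℓ) {R : ℝ} (hR : 0 ≤ R) (hℓ : ℓ.re ≤ R) :
    G c c ≤ 2 * R / n := by
  have hn' : (0 : ℝ) < n := by exact_mod_cast hn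
  rcases (G_nonneg c c).eq_or_lt with h5 | h5
  · rw [← h5]; positivity
  · have h6 := K0 h5 hn h1
    have h7 : Real.log ‖mult n c z‖ = ℓ.re := by
      have : mult n c z = mul n (c, z) := rfl
      rw [this, h2, Complex.norm_exp, Real.log_exp]
    rw [h7] at h6
    calc G c c = 2 * (n * G c c / 2) / n := by field_simp
      _ ≤ 2 * R / n := by gcongr; exact h6.trans hℓ

/-- pieces are small at large levels, condition (A) -/
theorem small_A {ε : ℝ} (hε : 0 < ε) : ∃ N : ℕ, ∀ (n p q : ℕ) (r b : ℂ), N ≤ n → 0 < n → 0 < p →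
    p < q → Nat.Coprime p q → it r n b = b →
    mul n (r, b) = Complex.exp (2 * Real.pi * (p / q) * Complex.I) →
    16 * Real.log 2 * (n : ℝ) ^ 2 * q ≤ (min (p : ℝ) (q - p)) ^ 2 → Piece r ε := by
  obtain ⟨e, he, hT⟩ := LimbData.small inputs34.cpt hε
  obtain ⟨N, hN⟩ := exists_nat_gt (1 / e)
  refine ⟨N, fun n p q r b hNn hn hp hpq hcop hb hm hsm => ?_⟩
  obtain ⟨x, σ, T, hden, hR0, hG, hσ, hσ', hσ0, hL⟩ := limb_piece inputs34 hn hp hpq hcop hb hm
  have hlog : 0 < Real.log 2 := Real.log_pos (by norm_num)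
  have hq : 0 < q := hp.trans hpq
  have hq' : (0 : ℝ) < q := by exact_mod_cast hq
  have hn' : (0 : ℝ) < n := by exact_mod_cast hn
  have hn1 : (1 : ℝ) ≤ n := by exact_mod_cast hn
  have hp' : (0 : ℝ) < p := by exact_mod_cast hp
  have hpq' : (p : ℝ) < q := by exact_mod_cast hpq
  set m : ℝ := min (p : ℝ) (q - p) with hmdef
  have hm0 : 0 < m := lt_min hp' (by linarith)
  have hmq : m ≤ q := (min_le_right _ _).trans (by linarith)
  set R : ℝ := 1 / 4 * m ^ 2 / (q ^ 2 * n) with hR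
  have hAR : 2 * (2 * n * Real.log 2 / x.den) ≤ R := by
    rw [hden, hR, ← mul_div_assoc, div_le_div_iff₀ hq' (by positivity)]
    have : 2 * (2 * n * Real.log 2) * (q ^ 2 * n) = 1 / 4 * (16 * Real.log 2 * n ^ 2 * q) * q := by
      ring
    rw [this]
    gcongr
  have hA0 : 0 < 2 * n * Real.log 2 / x.den := by rw [hden]; positivity
  have hr1 : (σ (axisPt x)).1 = r := by rw [hσ0]
  have hRn : 2 * R / n ≤ e := by
    have h1 : 1 / e < n := hN.trans_le (by exact_mod_cast hNn)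
    have h2 : 1 < n * e := by rwa [div_lt_iff₀ he] at h1
    have h4 : m ^ 2 ≤ (q : ℝ) ^ 2 := by gcongr
    have h5 : R ≤ 1 / 4 := by
      rw [hR, div_le_div_iff₀ (by positivity) (by norm_num)]
      nlinarith [sq_nonneg (q : ℝ)]
    rw [div_le_iff₀ hn']
    linarith
  have h1 := hT x R _ _ _ hL hAR (section_differentiableOn hG hσ hσ') (fun L hL' => by
    obtain ⟨h3, h4⟩ := hσ' L hL'
    exact (Per_bdd hn h3 (by rw [h4]; exact hG.lt L hL')).1) (fun L hL' => by
    obtain ⟨h3, h4⟩ := hσ' L hL'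
    have h5 : L.re ≤ R := by
      rw [mem_ball, dist_eq_norm] at hL'
      have h10 := (Complex.re_le_norm (L - axisPt x)).trans hL'.le
      rwa [Complex.sub_re, LimbData.axisPt_re, sub_zero] at h10
    exact (green_le hn h3 h4 hR0.le h5).trans hRn)
  refine Piece.of_limb hL ?_ hr1 ?_
  · linarith
  · rw [hr1] at h1
    exact h1

/-- the explicit limb bound, piece version -/
theorem piece_A {n p q : ℕ} {r b : ℂ} (hn : 0 < n) (hp : 0 < p) (hpq : p < q)
    (hcop : Nat.Coprime p q) (hb : it r n b = b)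
    (hm : mul n (r, b) = Complex.exp (2 * Real.pi * (p / q) * Complex.I)) :
    Piece r (50 * ((n : ℝ) ^ 2 * q / (min (p : ℝ) (q - p)) ^ 2)) := by
  have hlog : 0 < Real.log 2 := Real.log_pos (by norm_num)
  have hlog2 : Real.log 2 < 0.6931471808 := Real.log_two_lt_d9
  obtain ⟨x, σ, T, hden, hR0, hG, hσ, hσ', hσ0, hL⟩ := limb_piece inputs34 hn hp hpq hcop hb hm
  have hq : 0 < q := hp.trans hpq
  have hq' : (0 : ℝ) < q := by exact_mod_cast hq
  have hn' : (0 : ℝ) < n := by exact_mod_cast hn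
  have hp' : (0 : ℝ) < p := by exact_mod_cast hp
  have hpq' : (p : ℝ) < q := by exact_mod_cast hpq
  set μ : ℝ := min (p : ℝ) (q - p) with hmdef
  have hm0 : 0 < μ := lt_min hp' (by linarith)
  set R : ℝ := 1 / 4 * μ ^ 2 / (q ^ 2 * n) with hR
  have hr1 : (σ (axisPt x)).1 = r := by rw [hσ0]
  rcases lt_or_ge (2 * n * Real.log 2 / x.den) R with hAR | hAR
  · refine Piece.of_limb hL hAR hr1 ?_
    have h1 := hL.size hAR (section_differentiableOn hG hσ hσ') (fun L hL' => by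
      obtain ⟨h3, h4⟩ := hσ' L hL'
      exact (Per_bdd hn h3 (by rw [h4]; exact hG.lt L hL')).1)
    rw [hr1] at h1
    refine h1.trans (closedBall_subset_closedBall ?_)
    rw [hden, hR]
    have h2 : 9 * (2 * (n : ℝ) * Real.log 2 / q) / (1 / 4 * μ ^ 2 / (q ^ 2 * n)) =
        72 * Real.log 2 * (n ^ 2 * q / μ ^ 2) := by
      field_simp
      ring
    rw [h2]
    have h3 : 0 < (n : ℝ) ^ 2 * q / μ ^ 2 := by positivity
    nlinarith
  · refine Piece.trivial (mem_MS_of_norm hn hb ?_) ?_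
    · rw [hm, Complex.norm_exp]
      simp
    · rw [hden, hR, div_le_div_iff₀ (by positivity) hq'] at hAR
      rw [← mul_div_assoc, le_div_iff₀ (by positivity)]
      have h1 : 1 / 4 * μ ^ 2 * q ≤ (2 * Real.log 2 * n ^ 2 * q) * q := by
        calc 1 / 4 * μ ^ 2 * q ≤ 2 * n * Real.log 2 * (q ^ 2 * n) := hAR
          _ = _ := by ring
      have h2 : 1 / 4 * μ ^ 2 ≤ 2 * Real.log 2 * n ^ 2 * q := le_of_mul_le_mul_right h1 hq'
      have h3 : 0 < (n : ℝ) ^ 2 * q := by positivity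
      nlinarith

namespace Sat

/-- **S18**: the limb bound for satellite components -/
theorem sat_bound (hSP : SatPiece) {m p₀ q₀ : ℕ} {r₀ b₀ : ℂ} {W : Set ℂ} {n p q : ℕ} {r b : ℂ}
    (hnm : n = m * q₀) (hS : SatOf m p₀ q₀ r₀ b₀ W) (hR : Satellite (m * q₀) W r b p q) :
    Piece r (3000000000000000 * (n ^ 12 / q)) ∧
    (∀ z ∈ MS \ connectedComponentIn (MS \ {r}) 0, dist z r ≤ 3000000000000000 * (n ^ 12 / q)) := by
  have hlog : 0 < Real.log 2 := Real.log_pos (by norm_num)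
  have hlog1 : 0.6931471803 < Real.log 2 := Real.log_two_gt_d9
  have hlog2 : Real.log 2 < 0.6931471808 := Real.log_two_lt_d9
  obtain ⟨-, hper, hmul, hp, hpq, hcop, -⟩ := id hR
  have hn : 0 < n := by rw [hnm]; exact hper.1
  have hb : it r n b = b := by rw [hnm]; exact perN_it hper
  have hmul' : mul n (r, b) = Complex.exp (2 * Real.pi * (p / q) * Complex.I) := by
    rw [hnm, ← hmul]; rfl
  have hnorm : ‖mul n (r, b)‖ = 1 := by rw [hnm]; exact perN_mul_norm hR
  have hrM := mem_MS_of_norm hn hb hnorm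
  have hq : 0 < q := hp.trans hpq
  have hq' : (0 : ℝ) < q := by exact_mod_cast hq
  have hn' : (0 : ℝ) < n := by exact_mod_cast hn
  have hn1 : (1 : ℝ) ≤ n := by exact_mod_cast hn
  have hn6 : (1 : ℝ) ≤ n ^ 6 := one_le_pow₀ hn1
  rcases lt_or_ge (cR n / 2) (2 * Real.pi * (min (p : ℝ) (q - p) / q)) with ht | ht
  · -- far from the root
    have h1 := far_ineq hn hp hpq ht
    have hle : 50 * ((n : ℝ) ^ 2 * q / (min (p : ℝ) (q - p)) ^ 2) ≤
        3000000000000000 * (n ^ 12 / q) := by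
      have h2 : (0 : ℝ) ≤ n ^ 12 / q := by positivity
      linarith
    exact ⟨(piece_A hn hp hpq hcop hb hmul').mono hle,
      fun z hz => (limb_dist inputs34 hn hp hpq hcop hb hmul' z hz).trans hle⟩
  · -- close to the root
    obtain ⟨x, g, T, hx, hden, hL, hgr, hgd, hg4, hgper, hre⟩ := hSP m p₀ q₀ r₀ b₀ W n p q r b
      hnm hS hR ht
    have hcR : cR n * (600000 * n ^ 5) = 1 := cR_mul hn
    have hcR0 : 0 < cR n := cR_pos hn
    rcases lt_or_ge (2 * n * Real.log 2 / x.den) (cR n / 2) with hAR | hAR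
    · have hK := hL.size hAR hgd hg4
      rw [hgr] at hK
      have hle : 9 * (2 * (n : ℝ) * Real.log 2 / x.den) / (cR n / 2) ≤
          3000000000000000 * (n ^ 12 / q) := by
        rw [hden]
        have h2 : 9 * (2 * (n : ℝ) * Real.log 2 / q) / (cR n / 2) =
            21600000 * Real.log 2 * (n ^ 6 / q) := by
          unfold cR
          field_simp
          ring
        rw [h2]
        have h3 : (n : ℝ) ^ 6 / q ≤ n ^ 12 / q := by
          gcongr 1
          exact pow_le_pow_right₀ hn1 (by norm_num)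
        have h4 : 0 < (n : ℝ) ^ 6 / q := by positivity
        nlinarith
      refine ⟨Piece.of_limb hL hAR hgr (hK.trans (closedBall_subset_closedBall hle)), ?_⟩
      have h0 : (0 : ℂ) ∉ LimbData.K g T x := by
        refine hL.zero_notMem hn hAR hgper hx fun ℓ hℓ => (hre ℓ hℓ).trans_le ?_
        have := cR_le_of_pos hn
        linarith
      have hcan := hL.canon inputs34 hAR h0
      rw [hgr] at hcan
      intro z hz
      rw [hcan] at hz
      exact (mem_closedBall.1 (hK hz)).trans hle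
    · -- the trivial case
      have h8 : (8 : ℝ) ≤ 3000000000000000 * (n ^ 12 / q) := by
        rw [hden, le_div_iff₀ hq'] at hAR
        rw [← mul_div_assoc, le_div_iff₀ hq']
        have h1 : (q : ℝ) ≤ 2400000 * Real.log 2 * n ^ 6 := by
          have h2 := mul_le_mul_of_nonneg_left hAR (by positivity : (0 : ℝ) ≤ 1200000 * n ^ 5)
          have h3 : 1200000 * (n : ℝ) ^ 5 * (cR n / 2 * (q : ℝ)) = (q : ℝ) := by
            calc 1200000 * (n : ℝ) ^ 5 * (cR n / 2 * (q : ℝ))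
                = (cR n * (600000 * (n : ℝ) ^ 5)) * (q : ℝ) := by ring
              _ = (q : ℝ) := by rw [hcR, one_mul]
          rw [h3] at h2
          calc (q : ℝ) ≤ _ := h2
            _ = _ := by ring
        have h4 : (n : ℝ) ^ 6 ≤ n ^ 12 := pow_le_pow_right₀ hn1 (by norm_num)
        nlinarith
      refine ⟨Piece.trivial hrM h8, fun z hz => ?_⟩
      refine le_trans ?_ h8
      rw [dist_eq_norm]
      calc ‖z - r‖ ≤ ‖z‖ + ‖r‖ := norm_sub_le _ _
        _ ≤ 4 + 4 := add_le_add (norm_MS hz.1) (norm_MS hrM)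
        _ = 8 := by norm_num

theorem s18_bound (hSP : SatPiece) : S18_bound := by
  refine ⟨3000000000000000, by norm_num, fun m p₀ q₀ r₀ b₀ W p q r b hS hR => ?_⟩
  exact (sat_bound hSP rfl hS hR).1

/-- pieces are small at large levels, condition (B) -/
theorem small_B (hSP : SatPiece) {ε : ℝ} (hε : 0 < ε) : ∃ N : ℕ, ∀ (m p₀ q₀ : ℕ) (r₀ b₀ : ℂ)
    (W : Set ℂ) (n p q : ℕ) (r b : ℂ), N ≤ n → n = m * q₀ → SatOf m p₀ q₀ r₀ b₀ W →
    Satellite (m * q₀) W r b p q → 1000000000000000 * (n : ℝ) ^ 12 ≤ q → Piece r ε := by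
  obtain ⟨e, he, hT⟩ := LimbData.small inputs34.cpt hε
  obtain ⟨N₁, hN₁⟩ := exists_nat_gt (1 / e)
  obtain ⟨N₂, hN₂⟩ := small_A hε
  refine ⟨max N₁ N₂, fun m p₀ q₀ r₀ b₀ W n p q r b hNn hnm hS hR hsm => ?_⟩
  have hlog : 0 < Real.log 2 := Real.log_pos (by norm_num)
  have hlog2 : Real.log 2 < 0.6931471808 := Real.log_two_lt_d9
  obtain ⟨-, hper, hmul, hp, hpq, hcop, -⟩ := id hR
  have hn : 0 < n := by rw [hnm]; exact hper.1
  have hb : it r n b = b := by rw [hnm]; exact perN_it hper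
  have hmul' : mul n (r, b) = Complex.exp (2 * Real.pi * (p / q) * Complex.I) := by
    rw [hnm, ← hmul]; rfl
  have hq : 0 < q := hp.trans hpq
  have hq' : (0 : ℝ) < q := by exact_mod_cast hq
  have hn' : (0 : ℝ) < n := by exact_mod_cast hn
  have hn1 : (1 : ℝ) ≤ n := by exact_mod_cast hn
  have hn6 : (1 : ℝ) ≤ n ^ 6 := one_le_pow₀ hn1
  have hp' : (0 : ℝ) < p := by exact_mod_cast hp
  have hpq' : (p : ℝ) < q := by exact_mod_cast hpq
  rcases lt_or_ge (cR n / 2) (2 * Real.pi * (min (p : ℝ) (q - p) / q)) with ht | ht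
  · refine hN₂ n p q r b ((le_max_right _ _).trans hNn) hn hp hpq hcop hb hmul' ?_
    have h1 := far_ineq hn hp hpq ht
    have hm0 : 0 < min (p : ℝ) (q - p) := lt_min hp' (by linarith)
    have h2 : 57600000000000 * ((n : ℝ) ^ 12 / q) ≤ 0.0576 := by
      rw [← mul_div_assoc, div_le_iff₀ hq']
      linarith
    have h3 := h1.trans h2
    rw [div_le_iff₀ (by positivity)] at h3
    have h4 : (0 : ℝ) ≤ (n : ℝ) ^ 2 * q := by positivity
    have h5 : (0 : ℝ) ≤ (min (p : ℝ) (q - p)) ^ 2 := by positivity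
    nlinarith
  · obtain ⟨x, g, T, hx, hden, hL, hgr, hgd, hg4, hgper, hre⟩ := hSP m p₀ q₀ r₀ b₀ W n p q r b
      hnm hS hR ht
    have hcR : cR n * (600000 * n ^ 5) = 1 := cR_mul hn
    have hcR0 : 0 < cR n := cR_pos hn
    have hcR1 := cR_le_of_pos hn
    have hA0 : 0 < 2 * n * Real.log 2 / x.den := by rw [hden]; positivity
    have hAR : 2 * (2 * n * Real.log 2 / x.den) ≤ cR n / 2 := by
      rw [hden, ← mul_div_assoc, div_le_iff₀ hq']
      have h1 : 2 * (2 * (n : ℝ) * Real.log 2) ≤ 4 * n := by nlinarith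
      have h2 : cR n / 2 * (1000000000000000 * n ^ 12) ≤ cR n / 2 * q := by gcongr
      have h3 : cR n / 2 * (1000000000000000 * (n : ℝ) ^ 12) =
          (1000000000000000 / 1200000) * (cR n * (600000 * n ^ 5)) * n ^ 7 := by ring
      rw [h3, hcR] at h2
      have h4 : (n : ℝ) ≤ n ^ 7 := by
        calc (n : ℝ) = n ^ 1 := (pow_one _).symm
          _ ≤ n ^ 7 := pow_le_pow_right₀ hn1 (by norm_num)
      linarith
    have hRn : 2 * cR n / n ≤ e := by
      have h1 : 1 / e < n := hN₁.trans_le (by exact_mod_cast (le_max_left _ _).trans hNn)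
      have h2 : 1 < n * e := by rwa [div_lt_iff₀ he] at h1
      rw [div_le_iff₀ hn']
      linarith
    have hK := hT x (cR n / 2) _ g T hL hAR hgd hg4 (fun ℓ hℓ => by
      by_cases h0 : ℓ = 0
      · have h1 : g ℓ ∈ MS := hL.left ℓ hℓ (by rw [h0]; simp)
        have h2 : G (g ℓ) (g ℓ) = 0 := by
          rw [G_c_eq, mem_M_iff.1 h1, mul_zero]
        rw [h2]; exact he.le
      · obtain ⟨z, h3, h4⟩ := hgper ℓ hℓ h0
        exact (green_le hn h3 h4 hcR0.le (hre ℓ hℓ).le).trans hRn)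
    rw [hgr] at hK
    exact Piece.of_limb hL (by linarith) hgr hK

end Sat

end Pool.Agent.Work.MLC
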