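import Pool.Agent.Work.MLC.SatU6

set_option autoImplicit false

/-! # Local connectivity, condition (A) or (B) (helper6) -/

namespace Pool.Agent.Work.MLC.Sat

open Filter Topology Metric Set

/-- **local connectivity**, levels of type (A) or (B) -/
theorem lc_main (hSP : SatPiece) {c₀ : ℂ} (hc₀ : c₀ ∈ MS)
    (h : ∀ N : ℕ, ∃ (n p q : ℕ) (r b : ℂ), N ≤ n ∧ 0 < n ∧ 0 < p ∧ p < q ∧ Nat.Coprime p q ∧
      it r n b = b ∧ mul n (r, b) = Complex.exp (2 * Real.pi * (p / q) * Complex.I) ∧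
      r ≠ c₀ ∧ connectedComponentIn (MS \ {r}) c₀ ≠ connectedComponentIn (MS \ {r}) 0 ∧
      (16 * Real.log 2 * (n : ℝ) ^ 2 * q ≤ (min (p : ℝ) (q - p)) ^ 2 ∨
        (1000000000000000 * (n : ℝ) ^ 12 ≤ q ∧ ∃ (m p₀ q₀ : ℕ) (r₀ b₀ : ℂ) (W : Set ℂ),
          n = m * q₀ ∧ SatOf m p₀ q₀ r₀ b₀ W ∧ Satellite (m * q₀) W r b p q))) :
    ∀ U ∈ 𝓝 c₀, ∃ V ⊆ U, V ⊆ MS ∧ IsCompact V ∧ IsConnected V ∧ V ∈ 𝓝[MS] c₀ := by
  refine lc_of_pieces inputs34.conn hc₀ fun ε hε => ?_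
  obtain ⟨N₁, hN₁⟩ := small_A hε
  obtain ⟨N₂, hN₂⟩ := small_B hSP hε
  obtain ⟨n, p, q, r, b, hN, hn, hp, hpq, hcop, hb, hm, hrc, hne, hor⟩ := h (max N₁ N₂)
  have hP : Piece r ε := by
    rcases hor with h1 | ⟨h1, m, p₀, q₀, r₀, b₀, W, hnm, hS, hR⟩
    · exact hN₁ n p q r b ((le_max_left _ _).trans hN) hn hp hpq hcop hb hm h1
    · exact hN₂ m p₀ q₀ r₀ b₀ W n p q r b ((le_max_right _ _).trans hN) hnm hS hR h1
  obtain ⟨K, h1, h2, h3, h4, h5, h6, h7⟩ := hP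
  refine ⟨n, r, b, K, hn, hb, ?_, h1, h2, h3, h4, h5, h6, h7, hrc, hne⟩
  rw [hm, Complex.norm_exp]
  simp

lemma itf (c : ℂ) : (fun z : ℂ => z ^ 2 + c) = f c := rfl

/-- the satellite situation, in terms of a connected set of pairs -/
theorem sat_of_conn {n m p₀ q₀ p q : ℕ} {r₀ b₀ r b : ℂ} {W : Set (ℂ × ℂ)} (hn : 0 < n)
    (hnm : n = m * q₀) (hp₀ : 0 < p₀) (hpq₀ : p₀ < q₀) (hcop₀ : Nat.Coprime p₀ q₀)
    (hper₀ : Function.minimalPeriod (fun z : ℂ => z ^ 2 + r₀) b₀ = m)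
    (hm₀ : deriv ((fun z : ℂ => z ^ 2 + r₀)^[m]) b₀ =
      Complex.exp (2 * Real.pi * (p₀ / q₀) * Complex.I))
    (hp : 0 < p) (hpq : p < q) (hcop : Nat.Coprime p q)
    (hper : Function.minimalPeriod (fun z : ℂ => z ^ 2 + r) b = n)
    (hm : deriv ((fun z : ℂ => z ^ 2 + r)^[n]) b = Complex.exp (2 * Real.pi * (p / q) * Complex.I))
    (hWc : IsPreconnected W)
    (hW : ∀ x ∈ W, Function.minimalPeriod (fun z : ℂ => z ^ 2 + x.1) x.2 = n ∧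
      ‖deriv ((fun z : ℂ => z ^ 2 + x.1)^[n]) x.2‖ < 1)
    (hcl₀ : (r₀, b₀) ∈ closure W) (hcl : (r, b) ∈ closure W) :
    ∃ W' : Set ℂ, SatOf m p₀ q₀ r₀ b₀ W' ∧ Satellite (m * q₀) W' r b p q := by
  have hmul : ∀ (n : ℕ) (r b : ℂ), deriv ((fun z : ℂ => z ^ 2 + r)^[n]) b = mult n r b :=
    fun n r b => (hasDerivAt_it r n b).deriv
  have hm0 : 0 < m := by
    rcases Nat.eq_zero_or_pos m with h | h
    · subst h; simp at hnm; omega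
    · exact h
  have hne : W.Nonempty := by
    rw [← closure_nonempty_iff]; exact ⟨_, hcl⟩
  obtain ⟨x₁, hx₁⟩ := hne
  set A : Set ℂ := {c | ∃ b, PerN n c b ∧ ‖mult n c b‖ < 1} with hA
  have hWA : ∀ x ∈ W, PerN n x.1 x.2 ∧ ‖mult n x.1 x.2‖ < 1 := by
    intro x hx
    obtain ⟨h1, h2⟩ := hW x hx
    rw [hmul] at h2
    exact ⟨⟨hn, h1⟩, h2⟩
  have hx₁A : x₁.1 ∈ A := ⟨x₁.2, hWA x₁ hx₁⟩
  set W' := connectedComponentIn A x₁.1 with hW'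
  have hHyp : HypComp n W' := ⟨x₁.1, hx₁A, rfl⟩
  have hsub : Prod.fst '' W ⊆ W' := by
    refine (hWc.image _ continuous_fst.continuousOn).subset_connectedComponentIn
      ⟨x₁, hx₁, rfl⟩ ?_
    rintro _ ⟨x, hx, rfl⟩
    exact ⟨x.2, hWA x hx⟩
  have hWAtt : W ⊆ AttW n W' := fun x hx => ⟨hsub ⟨x, hx, rfl⟩, hWA x hx⟩
  refine ⟨W', ⟨⟨hm0, hper₀⟩, ?_, hp₀, hpq₀, hcop₀, ?_, ?_⟩, ?_, ⟨?_, ?_⟩, ?_, hp, hpq, hcop, ?_⟩
  · rw [← hmul, hm₀]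
  · rw [← hnm]; exact hHyp
  · rw [← hnm]; exact closure_mono hWAtt hcl₀
  · rw [← hnm]; exact hHyp
  · rw [← hnm]; exact hn
  · rw [← hnm]; exact hper
  · rw [← hnm, ← hmul, hm]
  · rw [← hnm]; exact closure_mono hWAtt hcl

end Pool.Agent.Work.MLC.Sat
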