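import Mathlib

set_option autoImplicit false

/-! # Separation of components of the same period, part A (helper70): words

The critical value is an end point of the Hubbard tree, in terms of words (`side_eq`), and its
consequence `run_ne`: if the parse of a word `w` of period `n` which starts at time `1` resets at
time `n`, then no parse started at a time `p ∈ [1, n]` resets at time `p + n`. -/

namespace Pool.Agent.Work.MLC.Sep

/-- one step of a parse: compare the symbols at `x` and `y` -/
def stp (K : ℕ → ℤ) (x y : ℕ) : ℕ := if K x = K y then x + 1 else 0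

/-- follow the parse with state `x` at time `y` for `d` steps, and read off the symbol -/
def side (K : ℕ → ℤ) : ℕ → ℕ → ℕ → ℤ
  | 0, x, _ => K x
  | d + 1, x, y => side K d (stp K x y) (y + 1)

/-- symmetric: two different places can not see each other beyond the base point -/
theorem side_antisymm {K : ℕ → ℤ} {L : ℕ} (hL : ∀ i < L, K L ≠ K i) :
    ∀ (f d d' x y y' : ℕ), d + y = L → d' + y' = L → y ≠ y' → min d d' ≤ f →
      side K d x y ≠ side K d y' y → side K d' x y' ≠ side K d' y y' → False := by
  intro f
  induction f with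
  | zero =>
    intro d d' x y y' h1 h2 hne hm h3 h4
    rcases Nat.eq_zero_or_pos d with hd | hd
    · subst hd
      obtain ⟨e, rfl⟩ : ∃ e, d' = e + 1 := ⟨d' - 1, by omega⟩
      have hy : y = L := by omega
      subst hy
      simp only [side] at h3 h4
      have h5 : K y ≠ K y' := hL y' (by omega)
      apply h4
      rw [stp, stp, if_neg h3, if_neg h5]
    · have hd' : d' = 0 := by omega
      subst hd'
      obtain ⟨e, rfl⟩ : ∃ e, d = e + 1 := ⟨d - 1, by omega⟩
      have hy : y' = L := by omega
      subst hy
      simp only [side] at h3 h4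
      have h5 : K y' ≠ K y := hL y (by omega)
      apply h3
      rw [stp, stp, if_neg h4, if_neg h5]
  | succ f ih =>
    intro d d' x y y' h1 h2 hne hm h3 h4
    rcases Nat.eq_zero_or_pos (min d d') with hz | hz
    · rcases Nat.eq_zero_or_pos d with hd | hd
      · subst hd
        obtain ⟨e, rfl⟩ : ∃ e, d' = e + 1 := ⟨d' - 1, by omega⟩
        have hy : y = L := by omega
        subst hy
        simp only [side] at h3 h4
        have h5 : K y ≠ K y' := hL y' (by omega)
        apply h4
        rw [stp, stp, if_neg h3, if_neg h5]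
      · have hd' : d' = 0 := by omega
        subst hd'
        obtain ⟨e, rfl⟩ : ∃ e, d = e + 1 := ⟨d - 1, by omega⟩
        have hy : y' = L := by omega
        subst hy
        simp only [side] at h3 h4
        have h5 : K y' ≠ K y := hL y (by omega)
        apply h3
        rw [stp, stp, if_neg h4, if_neg h5]
    · obtain ⟨e, rfl⟩ : ∃ e, d = e + 1 := ⟨d - 1, by omega⟩
      obtain ⟨e', rfl⟩ : ∃ e', d' = e' + 1 := ⟨d' - 1, by omega⟩
      simp only [side] at h3 h4
      by_cases hy : K y = K y'
      · refine ih e e' (stp K x y) (y + 1) (y' + 1) (by omega) (by omega) (by omega) (by omega) ?_ ?_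
        · have e1 : stp K y' y = y' + 1 := by rw [stp, if_pos hy.symm]
          rw [e1] at h3; exact h3
        · have e1 : stp K y y' = y + 1 := by rw [stp, if_pos hy]
          have e2 : stp K x y' = stp K x y := by rw [stp, stp, hy]
          rw [e1, e2] at h4; exact h4
      · have e1 : stp K y' y = 0 := by rw [stp, if_neg (Ne.symm hy)]
        have e2 : stp K y y' = 0 := by rw [stp, if_neg hy]
        rw [e1] at h3
        rw [e2] at h4
        have h5 : K x = K y := by
          by_contra hcon
          apply h3
          rw [stp, if_neg hcon]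
        have h6 : K x = K y' := by
          by_contra hcon
          apply h4
          rw [stp, if_neg hcon]
        exact hy (h5.symm.trans h6)

theorem side_trans {K : ℕ → ℤ} {L : ℕ} (hL : ∀ i < L, K L ≠ K i) :
    ∀ (f d d' x y y' z : ℕ), d + y = L → d' + y' = L → y ≠ y' → min d d' ≤ f →
      side K d x y ≠ side K d y' y → side K d' x y' ≠ side K d' z y' →
        side K d z y = side K d y' y := by
  intro f
  induction f with
  | zero =>
    intro d d' x y y' z h1 h2 hne hm h3 h4
    rcases Nat.eq_zero_or_pos d with hd | hd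
    · subst hd
      obtain ⟨e, rfl⟩ : ∃ e, d' = e + 1 := ⟨d' - 1, by omega⟩
      have hy : y = L := by omega
      subst hy
      simp only [side] at h3 h4 ⊢
      by_contra hcon
      apply h4
      rw [stp, stp, if_neg h3, if_neg hcon]
    · have hd' : d' = 0 := by omega
      subst hd'
      obtain ⟨e, rfl⟩ : ∃ e, d = e + 1 := ⟨d - 1, by omega⟩
      have hy : y' = L := by omega
      subst hy
      simp only [side] at h3 h4 ⊢
      have h5 : K y' ≠ K y := hL y (by omega)
      have e1 : stp K y' y = 0 := by rw [stp, if_neg h5]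
      rw [e1] at h3 ⊢
      have h6 : K x = K y := by
        by_contra hcon
        apply h3
        rw [stp, if_neg hcon]
      have h7 : K z ≠ K y := fun h => h4 (h6.trans h.symm)
      rw [stp, if_neg h7]
  | succ f ih =>
    intro d d' x y y' z h1 h2 hne hm h3 h4
    rcases Nat.eq_zero_or_pos (min d d') with hz | hz
    · rcases Nat.eq_zero_or_pos d with hd | hd
      · subst hd
        obtain ⟨e, rfl⟩ : ∃ e, d' = e + 1 := ⟨d' - 1, by omega⟩
        have hy : y = L := by omega
        subst hy
        simp only [side] at h3 h4 ⊢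
        by_contra hcon
        apply h4
        rw [stp, stp, if_neg h3, if_neg hcon]
      · have hd' : d' = 0 := by omega
        subst hd'
        obtain ⟨e, rfl⟩ : ∃ e, d = e + 1 := ⟨d - 1, by omega⟩
        have hy : y' = L := by omega
        subst hy
        simp only [side] at h3 h4 ⊢
        have h5 : K y' ≠ K y := hL y (by omega)
        have e1 : stp K y' y = 0 := by rw [stp, if_neg h5]
        rw [e1] at h3 ⊢
        have h6 : K x = K y := by
          by_contra hcon
          apply h3
          rw [stp, if_neg hcon]
        have h7 : K z ≠ K y := fun h => h4 (h6.trans h.symm)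
        rw [stp, if_neg h7]
    · obtain ⟨e, rfl⟩ : ∃ e, d = e + 1 := ⟨d - 1, by omega⟩
      obtain ⟨e', rfl⟩ : ∃ e', d' = e' + 1 := ⟨d' - 1, by omega⟩
      simp only [side] at h3 h4 ⊢
      by_cases hy : K y = K y'
      · have e1 : stp K y' y = y' + 1 := by rw [stp, if_pos hy.symm]
        have e2 : stp K x y' = stp K x y := by rw [stp, stp, hy]
        have e3 : stp K z y' = stp K z y := by rw [stp, stp, hy]
        rw [e1] at h3 ⊢
        rw [e2, e3] at h4
        exact ih e e' (stp K x y) (y + 1) (y' + 1) (stp K z y) (by omega) (by omega) (by omega)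
          (by omega) h3 h4
      · have e1 : stp K y' y = 0 := by rw [stp, if_neg (Ne.symm hy)]
        rw [e1] at h3 ⊢
        have h5 : K x = K y := by
          by_contra hcon
          apply h3
          rw [stp, if_neg hcon]
        have h6 : K x ≠ K y' := fun h => hy (h5.symm.trans h)
        have h7 : K z = K y' := by
          by_contra hcon
          apply h4
          rw [stp, stp, if_neg h6, if_neg hcon]
        have h8 : K z ≠ K y := fun h => hy (h.symm.trans h7)
        rw [stp, if_neg h8]

/-- an irreflexive and transitive relation on the non empty finite set `[1, L]` has a maximal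
element; in the form needed here -/
theorem no_succ {L : ℕ} (hL : 1 ≤ L) (R : ℕ → ℕ → Prop)
    (has : ∀ y y', y ≠ y' → 1 ≤ y → y ≤ L → 1 ≤ y' → y' ≤ L → R y y' → R y' y → False)
    (htr : ∀ y y' z, y ≠ y' → 1 ≤ y → y ≤ L → 1 ≤ y' → y' ≤ L → R y y' → R y' z → R y z)
    (hs : ∀ y, 1 ≤ y → y ≤ L → ∃ z, 1 ≤ z ∧ z ≤ L ∧ z ≠ y ∧ R y z) : False := by
  choose! g hg1 hg2 hg3 hg4 using hs
  have hgm : ∀ k y, 1 ≤ y → y ≤ L → 1 ≤ g^[k] y ∧ g^[k] y ≤ L := by
    intro k
    induction k with
    | zero => intro y h1 h2; exact ⟨h1, h2⟩
    | succ k ih =>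
      intro y h1 h2
      rw [Function.iterate_succ_apply]
      exact ih _ (hg1 y h1 h2) (hg2 y h1 h2)
  have key : ∀ k y, 1 ≤ y → y ≤ L → g^[k + 1] y ≠ y ∧ R y (g^[k + 1] y) := by
    intro k
    induction k with
    | zero =>
      intro y h1 h2
      exact ⟨hg3 y h1 h2, hg4 y h1 h2⟩
    | succ k ih =>
      intro y h1 h2
      have h3 := ih (g y) (hg1 y h1 h2) (hg2 y h1 h2)
      rw [← Function.iterate_succ_apply] at h3
      have h4 := hg3 y h1 h2
      refine ⟨fun he => ?_, htr y (g y) _ (Ne.symm h4) h1 h2 (hg1 y h1 h2) (hg2 y h1 h2)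
        (hg4 y h1 h2) h3.2⟩
      rw [he] at h3
      exact has y (g y) (Ne.symm h4) h1 h2 (hg1 y h1 h2) (hg2 y h1 h2) (hg4 y h1 h2) h3.2
  -- pigeonhole
  obtain ⟨i, hi, j, hj, hij, he⟩ : ∃ i ∈ Finset.range (L + 1), ∃ j ∈ Finset.range (L + 1),
      i ≠ j ∧ g^[i] 1 = g^[j] 1 := by
    refine Finset.exists_ne_map_eq_of_card_lt_of_maps_to (t := Finset.Icc 1 L) (by simp)
      fun i _ => ?_
    have := hgm i 1 le_rfl hL
    simpa using this
  have hlt : ∀ i j : ℕ, i < j → g^[i] 1 = g^[j] 1 → False := by
    intro i j hij he
    have h1 := hgm i 1 le_rfl hL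
    obtain ⟨k, rfl⟩ : ∃ k, j = (k + 1) + i := ⟨j - i - 1, by omega⟩
    rw [Function.iterate_add_apply] at he
    exact (key k _ h1.1 h1.2).1 he.symm
  rcases lt_or_gt_of_ne hij with h | h
  · exact hlt i j h he
  · exact hlt j i h he.symm

/-- the state at time `y + d` of the parse with state `x` at time `y` -/
def st (K : ℕ → ℤ) (x y : ℕ) : ℕ → ℕ
  | 0 => x
  | d + 1 => stp K (st K x y d) (y + d)

theorem st_succ (K : ℕ → ℤ) (x y d : ℕ) : st K x y (d + 1) = stp K (st K x y d) (y + d) := rfl

theorem st_add (K : ℕ → ℤ) (x y d e : ℕ) : st K x y (d + e) = st K (st K x y d) (y + d) e := by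
  induction e with
  | zero => rfl
  | succ e ih => rw [← add_assoc, st_succ, ih, st_succ, add_assoc]

theorem st_succ' (K : ℕ → ℤ) (x y d : ℕ) : st K x y (d + 1) = st K (stp K x y) (y + 1) d := by
  rw [add_comm, st_add]; rfl

theorem side_eq_st (K : ℕ → ℤ) : ∀ d x y, side K d x y = K (st K x y d) := by
  intro d
  induction d with
  | zero => intro x y; rfl
  | succ d ih => intro x y; rw [side, ih, st_succ']

/-- the symbol read off does not change along the parse -/
theorem side_along (K : ℕ → ℤ) (x y d e : ℕ) :
    side K (d + e) x y = side K e (st K x y d) (y + d) := by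
  rw [side_eq_st, side_eq_st, st_add]

theorem st_le (K : ℕ → ℤ) (x y d : ℕ) : st K x y d ≤ x + d := by
  induction d with
  | zero => exact le_rfl
  | succ d ih =>
    rw [st_succ, stp]
    split_ifs
    · omega
    · omega

/-- **the critical value is an end point**: all parses started at time `0` with a state in `[1, L]`
see the same side -/
theorem side_eq {K : ℕ → ℤ} {L : ℕ} (hK : ∀ i < L, K L ≠ K i) {x : ℕ} (h1 : 1 ≤ x) (h2 : x ≤ L) :
    side K L x 0 = side K (L - 1) 0 1 := by
  by_contra hne
  have hL : 1 ≤ L := h1.trans h2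
  -- states stay at most `L`
  have hb : ∀ m, m ≤ L → st K x 0 m ≤ L := by
    intro m
    induction m with
    | zero => intro _; exact h2
    | succ m ih =>
      intro hm
      have h3 := ih (by omega)
      rw [st_succ, Nat.zero_add, stp]
      split_ifs with h
      · rcases h3.lt_or_eq with h4 | h4
        · omega
        · rw [h4] at h
          exact absurd h (hK m (by omega))
      · omega
  have hne' : ∀ m, m ≤ L → st K x 0 m ≠ m := by
    intro m
    induction m with
    | zero => intro _ h; exact absurd h (by show x ≠ 0; omega)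
    | succ m ih =>
      intro hm h
      rw [st_succ, Nat.zero_add, stp] at h
      split_ifs at h with h3
      exact ih (by omega) (by omega)
  refine no_succ hL (fun y z => side K (L - y) 0 y ≠ side K (L - y) z y) ?_ ?_ ?_
  · intro y y' hyy h3 h4 h5 h6 h7 h8
    exact side_antisymm hK (L - y) (L - y) (L - y') 0 y y' (by omega) (by omega) hyy (by omega)
      h7 h8
  · intro y y' z hyy h3 h4 h5 h6 h7 h8
    have := side_trans hK (L - y) (L - y) (L - y') 0 y y' z (by omega) (by omega) hyy (by omega)
      h7 h8
    show side K (L - y) 0 y ≠ side K (L - y) z y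
    rw [this]; exact h7
  · intro y h3 h4
    -- the two arms
    have e1 : side K (L - y) (st K x 0 y) y = side K L x 0 := by
      have := side_along K x 0 y (L - y)
      rw [Nat.zero_add] at this
      rw [← this]; congr 1; omega
    have e2 : side K (L - y) (st K 0 1 (y - 1)) y = side K (L - 1) 0 1 := by
      have := side_along K 0 1 (y - 1) (L - y)
      rw [show 1 + (y - 1) = y by omega, show y - 1 + (L - y) = L - 1 by omega] at this
      exact this.symm
    by_cases h : side K (L - y) 0 y = side K L x 0
    · -- use the second arm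
      refine ⟨st K 0 1 (y - 1), ?_, ?_, ?_, ?_⟩
      · by_contra h0
        have h0' : st K 0 1 (y - 1) = 0 := by omega
        rw [h0'] at e2
        exact hne (h.symm.trans e2)
      · have := st_le K 0 1 (y - 1); omega
      · have := st_le K 0 1 (y - 1); omega
      · show side K (L - y) 0 y ≠ side K (L - y) _ y
        rw [e2, h]; exact hne
    · refine ⟨st K x 0 y, ?_, hb y h4, hne' y h4, ?_⟩
      · by_contra h0
        have h0' : st K x 0 y = 0 := by omega
        rw [h0'] at e1
        exact h e1
      · show side K (L - y) 0 y ≠ side K (L - y) _ y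
        rw [e1]; exact h

/-- replace the symbol at `L` by a star -/
def star (w : ℕ → ℤ) (L : ℕ) (i : ℕ) : ℤ := if i = L then 2 else w i

theorem star_self (w : ℕ → ℤ) (L : ℕ) : star w L L = 2 := by rw [star, if_pos rfl]

theorem star_of_ne {w : ℕ → ℤ} {L i : ℕ} (h : i ≠ L) : star w L i = w i := by rw [star, if_neg h]

theorem star_ne {w : ℕ → ℤ} (hw : ∀ i, w i = 0 ∨ w i = 1) {L : ℕ} :
    ∀ i < L, star w L L ≠ star w L i := by
  intro i hi h
  rw [star_self, star_of_ne (by omega)] at h
  rcases hw i with h1 | h1 <;> rw [h1] at h <;> norm_num at h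

/-- the parse started at time `1` does not see the star -/
theorem st_star {w : ℕ → ℤ} {L : ℕ} : ∀ d, d + 1 ≤ L → st (star w L) 0 1 d = st w 0 1 d := by
  intro d
  induction d with
  | zero => intro _; rfl
  | succ d ih =>
    intro hd
    have h1 := ih (by omega)
    have h2 := st_le w 0 1 d
    rw [st_succ, st_succ, h1, stp, stp, star_of_ne (by omega), star_of_ne (by omega)]

/-- **no other parse**: if the parse started at time `1` resets at time `n`, then no parse started at
a time `p` resets at time `p + n` -/
theorem run_ne {w : ℕ → ℤ} {n : ℕ} (hn : 1 ≤ n) (hw : ∀ i, w i = 0 ∨ w i = 1)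
    (hper : ∀ i, w (i + n) = w i) (hS : st w 0 1 (n - 1) = 0) {p : ℕ} (hp1 : 1 ≤ p) (hpn : p ≤ n) :
    st w 0 p n ≠ 0 := by
  intro h0
  have hfull : ∀ d, st w 0 n d = d := by
    intro d
    induction d with
    | zero => rfl
    | succ d ih =>
      rw [st_succ, ih, stp, if_pos]
      rw [add_comm, hper]
  rcases hpn.lt_or_eq with hlt | heq
  swap
  · rw [heq, hfull] at h0; omega
  -- the state at time `n`
  set B := st w 0 p (n - p) with hB
  have hB0 : B ≠ 0 := by
    intro hz
    have h1 := st_add w 0 p (n - p) p
    rw [show n - p + p = n by omega, show p + (n - p) = n by omega, ← hB, hz, hfull, h0] at h1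
    omega
  obtain ⟨L, rfl⟩ : ∃ L, n = L + 1 := ⟨n - 1, by omega⟩
  have hBL : B ≤ L := by
    have := st_le w 0 p (L + 1 - p)
    omega
  -- periodicity of the parse
  have hperst : ∀ x y d, st w x (y + (L + 1)) d = st w x y d := by
    intro x y d
    induction d with
    | zero => rfl
    | succ d ih =>
      rw [st_succ, st_succ, ih, stp, stp, show y + (L + 1) + d = (y + d) + (L + 1) by ring, hper]
  have hb : ∀ m, st w B 0 m = st w 0 p (L + 1 - p + m) := by
    intro m
    rw [st_add, ← hB, show p + (L + 1 - p) = 0 + (L + 1) by omega, hperst]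
  have hbn : st w B 0 (L + 1) = B := by
    rw [hb, show L + 1 - p + (L + 1) = (L + 1) + (L + 1 - p) by omega, st_add, h0,
      show p + (L + 1) = p + (L + 1) by rfl, hperst, hB]
  have hble : ∀ m, m ≤ L + 1 → st w B 0 m ≤ L := by
    intro m hm
    rcases lt_trichotomy m p with h | h | h
    · rw [hb]
      have := st_le w 0 p (L + 1 - p + m)
      omega
    · rw [hb, h, show L + 1 - p + p = L + 1 by omega, h0]; omega
    · rw [hb, show L + 1 - p + m = (L + 1) + (m - p) by omega, st_add, h0, hperst]
      have := st_le w 0 p (m - p)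
      omega
  -- the star parse is the same
  have hbs : ∀ m, m ≤ L → st (star w L) B 0 m = st w B 0 m := by
    intro m
    induction m with
    | zero => intro _; rfl
    | succ m ih =>
      intro hm
      have h1 := ih (by omega)
      have h2 := hble m (by omega)
      have h3 := hble (m + 1) (by omega)
      rw [st_succ] at h3
      rw [st_succ, st_succ, h1, Nat.zero_add]
      rw [Nat.zero_add] at h3
      rcases h2.lt_or_eq with h4 | h4
      · rw [stp, stp, star_of_ne (by omega), star_of_ne (by omega)]
      · rw [h4] at h3 ⊢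
        rw [stp] at h3
        split_ifs at h3 with h5
        · omega
        · rw [stp, stp, if_neg h5, if_neg]
          exact star_ne hw m (by omega)
  have hkey := side_eq (star_ne hw (L := L)) (x := B) (by omega) hBL
  rw [side_eq_st, side_eq_st, hbs L le_rfl] at hkey
  have hL1 : 1 ≤ L := by omega
  rw [st_star (L - 1) (by omega)] at hkey
  have hsle := st_le w 0 1 (L - 1)
  rw [star_of_ne (i := st w 0 1 (L - 1)) (by omega)] at hkey
  -- the first parse resets
  have h6 : w (st w 0 1 (L - 1)) ≠ w L := by
    intro h7
    have h8 : st w 0 1 ((L - 1) + 1) = 0 := by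
      rw [show L - 1 + 1 = L + 1 - 1 by omega]; exact hS
    rw [st_succ, stp, show 1 + (L - 1) = L by omega, if_pos h7] at h8
    omega
  have h7 : st w B 0 L ≠ L := by
    intro h8
    rw [h8, star_self] at hkey
    rcases hw (st w 0 1 (L - 1)) with h9 | h9 <;> rw [h9] at hkey <;> norm_num at hkey
  rw [star_of_ne h7] at hkey
  rw [st_succ, Nat.zero_add, stp, if_neg (fun h8 => h6 (hkey.symm.trans h8))] at hbn
  exact hB0 hbn.symm

/-- if the parse started at time `1` resets at time `n` then the word is primitive -/
theorem prim_of_run {w : ℕ → ℤ} {n : ℕ} (hn : 1 ≤ n) (hw : ∀ i, w i = 0 ∨ w i = 1)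
    (hper : ∀ i, w (i + n) = w i) (hS : st w 0 1 (n - 1) = 0) {d : ℕ} (hd1 : 0 < d) (hdn : d < n) :
    ∃ i, w (i + d) ≠ w i := by
  by_contra hcon
  push Not at hcon
  obtain ⟨L, rfl⟩ : ∃ L, n = L + 1 := ⟨n - 1, by omega⟩
  -- the star parse with state `d` at time `0`
  have h1 : ∀ m, m ≤ L - d → st (star w L) d 0 m = d + m := by
    intro m
    induction m with
    | zero => intro _; rfl
    | succ m ih =>
      intro hm
      rw [st_succ, ih (by omega), Nat.zero_add, stp, star_of_ne (by omega), star_of_ne (by omega),
        if_pos]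
      · ring
      · rw [add_comm, hcon]
  have h2 : st (star w L) d 0 (L - d + 1) = 0 := by
    rw [st_succ, h1 _ le_rfl, Nat.zero_add, stp, show d + (L - d) = L by omega, if_neg]
    exact star_ne hw _ (by omega)
  have hmul : ∀ c i, w (i + d * c) = w i := by
    intro c
    induction c with
    | zero => intro i; simp
    | succ c ih => intro i; rw [show i + d * (c + 1) = (i + d * c) + d by ring, hcon, ih]
  -- `w (L + 1 - d + i) = w i`
  have h3 : ∀ i, w (L + 1 - d + i) = w i := by
    intro i
    have e : L + 1 - d + i + d = i + (L + 1) := by omega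
    rw [← hcon (L + 1 - d + i), e, hper]
  have h4 : ∀ m, m ≤ d - 1 → st (star w L) d 0 (L - d + 1 + m) = m := by
    intro m
    induction m with
    | zero => intro _; exact h2
    | succ m ih =>
      intro hm
      rw [← add_assoc, st_succ, ih (by omega), Nat.zero_add, stp, star_of_ne (by omega),
        star_of_ne (by omega), if_pos]
      rw [show L - d + 1 + m = L + 1 - d + m by omega, h3]
  have h5 : st (star w L) d 0 L = d - 1 := by
    have := h4 (d - 1) le_rfl
    rwa [show L - d + 1 + (d - 1) = L by omega] at this
  have hkey := side_eq (star_ne hw (L := L)) (x := d) (by omega) (by omega)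
  rw [side_eq_st, side_eq_st, h5, st_star (L - 1) (by omega)] at hkey
  have hsle := st_le w 0 1 (L - 1)
  rw [star_of_ne (by omega), star_of_ne (by omega)] at hkey
  have h6 : w (st w 0 1 (L - 1)) ≠ w L := by
    intro h7
    have h8 : st w 0 1 ((L - 1) + 1) = 0 := by
      rw [show L - 1 + 1 = L + 1 - 1 by omega]; exact hS
    rw [st_succ, stp, show 1 + (L - 1) = L by omega, if_pos h7] at h8
    omega
  apply h6
  rw [← hkey]
  have := h3 (d - 1)
  rw [show L + 1 - d + (d - 1) = L by omega] at this
  exact this.symm

end Pool.Agent.Work.MLC.Sep
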