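import Pool.Agent.Work.MLC.Sep70A
import Pool.Agent.Work.MLC.SatCircA

set_option autoImplicit false

/-! # Separation of components of the same period, part B (helper70): non integral words

`nu_ne_int`: if the orbit of `θ` is strictly compatible with `w 0, ..., w (n-1)` and the parse of `w`
started at time `1` resets at time `n`, then `nu w n θ` is not an integer. -/

namespace Pool.Agent.Work.MLC.Sep

open Set Filter Topology Pool.Agent.Work.MLC.Circ CircleDeg1Lift

/-- an orbit in the open half circles is expanding on both sides -/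
theorem op_expand {w : ℕ → ℤ} {θ x : ℝ} : ∀ n : ℕ, (∀ i < n, Op w θ x i) →
    ∀ᶠ t in 𝓝 x, gw w θ n t - gw w θ n x = 2 ^ n * (t - x) := by
  intro n
  induction n with
  | zero => intro _; exact Filter.Eventually.of_forall fun t => by simp
  | succ n ih =>
    intro h
    obtain ⟨k, hk1, hk2⟩ := h n (by omega)
    have h3 : ∀ᶠ t in 𝓝 x, (θ + w n) / 2 + k < gw w θ n t :=
      ((gw_continuous' w θ n).tendsto x).eventually (lt_mem_nhds hk1)
    have h4 : ∀ᶠ t in 𝓝 x, gw w θ n t < (θ + w n) / 2 + k + 1 / 2 :=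
      ((gw_continuous' w θ n).tendsto x).eventually (gt_mem_nhds hk2)
    filter_upwards [ih fun i hi => h i (by omega), h3, h4] with t ht1 ht2 ht3
    rw [gw_succ_apply, gw_succ_apply, tdbl_lin k ht2.le ht3.le, tdbl_lin k hk1.le hk2.le, pow_succ]
    linarith

/-- an integral rotation number: some fixed point is not in the open half circles all the time -/
theorem exists_not_op {w : ℕ → ℤ} {θ : ℝ} {n : ℕ} (hn : 0 < n) {m : ℤ}
    (hz : ∃ x, gw w θ n x = x + m) : ∃ x, gw w θ n x = x + m ∧ ∃ i < n, ¬ Op w θ x i := by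
  by_contra hcon
  push Not at hcon
  obtain ⟨x₀, hx₀⟩ := hz
  have hpow : (1 : ℝ) < 2 ^ n := one_lt_pow₀ (by norm_num) (by omega)
  have hcF : Continuous fun t => gw w θ n t - t - m :=
    ((gw_continuous' w θ n).sub continuous_id).sub continuous_const
  have hexp : ∀ x, gw w θ n x = x + m → ∀ᶠ t in 𝓝 x, gw w θ n t - t - m = (2 ^ n - 1) * (t - x) := by
    intro x hx
    filter_upwards [op_expand n (hcon x hx)] with t ht
    rw [hx] at ht
    linarith
  -- the first zero to the right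
  set S : Set ℝ := {t | x₀ < t ∧ t ≤ x₀ + 1 ∧ gw w θ n t - t - m ≤ 0} with hS
  have h1S : x₀ + 1 ∈ S := by
    refine ⟨by linarith, le_rfl, ?_⟩
    have : gw w θ n (x₀ + 1) = gw w θ n x₀ + 1 := map_add_one _ _
    rw [this, hx₀]; linarith
  have hbdd : BddBelow S := ⟨x₀, fun t ht => ht.1.le⟩
  set x₁ := sInf S with hx₁
  have hx1a : x₀ ≤ x₁ := le_csInf ⟨_, h1S⟩ fun t ht => ht.1.le
  have hx1b : x₁ ≤ x₀ + 1 := csInf_le hbdd h1S
  -- `x₀ < x₁`
  have hx1c : x₀ < x₁ := by
    obtain ⟨δ, hδ, hδ2⟩ := Metric.eventually_nhds_iff.1 (hexp x₀ hx₀)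
    refine lt_of_lt_of_le (show x₀ < x₀ + δ by linarith) (le_csInf ⟨_, h1S⟩ fun t ht => ?_)
    by_contra hlt
    push Not at hlt
    have h2 := hδ2 (y := t) (by rw [Real.dist_eq, abs_lt]; constructor <;> linarith [ht.1])
    have h3 := ht.2.2
    have h4 : 0 < (2 ^ n - 1) * (t - x₀) := mul_pos (by linarith) (by linarith [ht.1])
    linarith
  have hpos : ∀ t, x₀ < t → t < x₁ → 0 < gw w θ n t - t - m := by
    intro t h1 h2
    by_contra hle
    push Not at hle
    exact absurd (csInf_le hbdd (show t ∈ S from ⟨h1, by linarith, hle⟩)) (not_le.2 h2)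
  -- `x₁` is a zero
  have hle : gw w θ n x₁ - x₁ - m ≤ 0 := by
    by_contra hgt
    push Not at hgt
    obtain ⟨δ, hδ, hδ2⟩ := Metric.eventually_nhds_iff.1 ((hcF.tendsto x₁).eventually (lt_mem_nhds hgt))
    obtain ⟨t, htS, ht⟩ := exists_lt_of_csInf_lt ⟨_, h1S⟩ (show sInf S < x₁ + δ by rw [← hx₁]; linarith)
    have h1 : x₁ ≤ t := csInf_le hbdd htS
    have h2 := hδ2 (y := t) (by rw [Real.dist_eq, abs_lt]; constructor <;> linarith)
    linarith [htS.2.2]
  have hge : 0 ≤ gw w θ n x₁ - x₁ - m := by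
    by_contra hlt
    push Not at hlt
    obtain ⟨δ, hδ, hδ2⟩ := Metric.eventually_nhds_iff.1 ((hcF.tendsto x₁).eventually (gt_mem_nhds hlt))
    set t := max (x₁ - δ / 2) ((x₀ + x₁) / 2) with ht
    have h1 : x₀ < t := lt_of_lt_of_le (by linarith) (le_max_right _ _)
    have h2 : t < x₁ := max_lt (by linarith) (by linarith)
    have h3 : x₁ - δ / 2 ≤ t := le_max_left _ _
    have h4 := hδ2 (y := t) (by rw [Real.dist_eq, abs_lt]; constructor <;> linarith)
    linarith [hpos t h1 h2]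
  have hzero : gw w θ n x₁ = x₁ + m := by linarith
  obtain ⟨δ, hδ, hδ2⟩ := Metric.eventually_nhds_iff.1 (hexp x₁ hzero)
  set t := max (x₁ - δ / 2) ((x₀ + x₁) / 2) with ht
  have h1 : x₀ < t := lt_of_lt_of_le (by linarith) (le_max_right _ _)
  have h2 : t < x₁ := max_lt (by linarith) (by linarith)
  have h3 : x₁ - δ / 2 ≤ t := le_max_left _ _
  have h4 := hδ2 (y := t) (by rw [Real.dist_eq, abs_lt]; constructor <;> linarith)
  have h5 : (2 ^ n - 1) * (t - x₁) < 0 := mul_neg_of_pos_of_neg (by linarith) (by linarith)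
  linarith [hpos t h1 h2]

/-- an integer translate of a strictly compatible iterate of `θ`: one step with the same symbol -/
theorem tdbl_same {θ y z : ℝ} {e : ℤ} (h : InHalfO (θ + e) z) {c : ℤ} (hy : y = z + c) :
    ∃ c' : ℤ, tdbl (θ + e) y = 2 * z + c' := by
  obtain ⟨k, h1, h2⟩ := h
  refine ⟨c - k, ?_⟩
  rw [hy, tdbl_lin (k + c) (by push_cast; linarith) (by push_cast; linarith)]
  push_cast; ring

/-- one step with the other symbol -/
theorem tdbl_other {θ y z : ℝ} {e e' : ℤ} (he : e = 0 ∨ e = 1) (he' : e' = 0 ∨ e' = 1) (hne : e ≠ e')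
    (h : InHalfO (θ + e) z) {c : ℤ} (hy : y = z + c) :
    ∃ c' : ℤ, tdbl (θ + e') y = θ + c' := by
  obtain ⟨k, h1, h2⟩ := h
  rcases he with he | he <;> rcases he' with he' | he'
  · exact absurd (he.trans he'.symm) hne
  · subst he; subst he'
    refine ⟨1 + k + c, ?_⟩
    rw [hy, tdbl_flat (k + c - 1) (by push_cast at *; linarith) (by push_cast at *; linarith)]
    push_cast; ring
  · subst he; subst he'
    refine ⟨k + c + 1, ?_⟩
    rw [hy, tdbl_flat (k + c) (by push_cast at *; linarith) (by push_cast at *; linarith)]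
    push_cast; ring
  · exact absurd (he.trans he'.symm) hne

/-- strict compatibility excludes small periods -/
theorem not_per_of_strict {θ : ℝ} {e : ℤ} {a : ℕ} (h : InHalfO (θ + e) (2 ^ a * θ)) {c : ℤ}
    (hc : 2 ^ (a + 1) * θ = θ + c) : False := by
  obtain ⟨k, h1, h2⟩ := h
  rw [pow_succ] at hc
  have f1 : ((e + 2 * k : ℤ) : ℝ) < (c : ℝ) := by push_cast; linarith
  have f2 : (c : ℝ) < ((e + 2 * k + 1 : ℤ) : ℝ) := by push_cast; linarith
  have f3 : e + 2 * k < c := by exact_mod_cast f1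
  have f4 : c < e + 2 * k + 1 := by exact_mod_cast f2
  omega

/-- the parse computes the orbit -/
theorem orbit_st {w : ℕ → ℤ} {n : ℕ} {θ : ℝ} (hw : ∀ i, w i = 0 ∨ w i = 1)
    (hθ : ∀ i < n, InHalfO (θ + w i) (2 ^ i * θ)) {p : ℕ} {x : ℝ} {c₀ : ℤ}
    (hx : gw w θ p x = θ + c₀) : ∀ d ≤ n, ∃ c : ℤ, gw w θ (p + d) x = 2 ^ st w 0 p d * θ + c := by
  intro d
  induction d with
  | zero => intro _; exact ⟨c₀, by rw [add_zero, hx]; simp [st]⟩
  | succ d ih =>
    intro hd
    obtain ⟨c, hc⟩ := ih (by omega)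
    have hle := st_le w 0 p d
    rw [← add_assoc, gw_succ_apply, st_succ, stp]
    have hs := hθ (st w 0 p d) (by omega)
    by_cases h : w (st w 0 p d) = w (p + d)
    · rw [if_pos h]
      rw [h] at hs
      obtain ⟨c', hc'⟩ := tdbl_same hs hc
      exact ⟨c', by rw [hc', pow_succ]; ring⟩
    · rw [if_neg h]
      obtain ⟨c', hc'⟩ := tdbl_other (hw _) (hw _) h hs hc
      exact ⟨c', by rw [hc']; ring⟩

/-- **non integrality** -/
theorem nu_ne_int {w : ℕ → ℤ} {n : ℕ} {θ : ℝ} (hn : 1 ≤ n) (hw : ∀ i, w i = 0 ∨ w i = 1)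
    (hper : ∀ i, w (i + n) = w i) (hS : st w 0 1 (n - 1) = 0)
    (hθ : ∀ i < n, InHalfO (θ + w i) (2 ^ i * θ)) (m : ℤ) : nu w n θ ≠ m := by
  intro hm
  obtain ⟨x, hx⟩ : ∃ x, gw w θ n x = x + m := by
    have := (nu_eq_rat_iff w n θ 1 one_pos m).1 (by rw [hm]; simp)
    simpa using this
  obtain ⟨x, hx, i, hi, hop⟩ := exists_not_op (by omega) ⟨x, hx⟩
  -- the orbit passes through `θ`
  obtain ⟨c₀, hc₀⟩ : ∃ c : ℤ, gw w θ (i + 1) x = θ + c := by
    rw [gw_succ_apply]
    rcases arc_cases (θ + w i) (gw w θ i x) with h | ⟨k, hk⟩ | ⟨k, hk1, hk2⟩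
    · exact absurd h hop
    · refine ⟨w i + k, ?_⟩
      rw [tdbl_lin k hk.ge (by linarith), hk]; push_cast; ring
    · refine ⟨w i + k + 1, ?_⟩
      rw [tdbl_flat k hk1 hk2.le]; push_cast; ring
  obtain ⟨c, hc⟩ := orbit_st hw hθ hc₀ n le_rfl
  -- periodicity
  have h1 : gw w θ (i + 1 + n) x = gw w θ (i + 1) x + m := by
    rw [add_comm (i + 1) n, gw_add, mul_apply, hx, map_add_int]
    congr 1
    exact congrArg (fun f : CircleDeg1Lift => f x) (gw_congr θ (i + 1) fun j _ => by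
      show w (n + j) = w j
      rw [add_comm, hper])
  have hne := run_ne hn hw hper hS (p := i + 1) (by omega) (by omega)
  obtain ⟨a, ha⟩ : ∃ a, st w 0 (i + 1) n = a + 1 := ⟨st w 0 (i + 1) n - 1, by omega⟩
  have hle := st_le w 0 (i + 1) n
  rw [ha] at hc hle
  refine not_per_of_strict (hθ a (by omega)) (c := c₀ + m - c) ?_
  push_cast
  linarith

/-- the flipped last symbol gives an integral rotation number -/
theorem nu_int_of_flip {w : ℕ → ℤ} {n : ℕ} {θ : ℝ} (hw : ∀ i, w i = 0 ∨ w i = 1)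
    (hθ : ∀ i < n, InHalfO (θ + w i) (2 ^ i * θ)) {e : ℤ} (he : e = 0 ∨ e = 1) (hne : e ≠ w n)
    (hl : InHalfO (θ + e) (2 ^ n * θ)) : ∃ m : ℤ, nu w (n + 1) θ = m := by
  obtain ⟨c, hc⟩ := gw_lin w θ θ n fun i hi => by
    obtain ⟨k, h1, h2⟩ := hθ i hi
    exact ⟨k, h1.le, h2.le⟩
  obtain ⟨c', hc'⟩ := tdbl_other (y := gw w θ n θ) he (hw n) hne hl (c := -c)
    (by rw [hc]; push_cast; ring)
  refine ⟨c', ?_⟩
  have := (nu_eq_rat_iff w (n + 1) θ 1 one_pos c').2 ⟨θ, by
    rw [pow_one, gw_succ_apply, hc']⟩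
  rw [this]; simp

end Pool.Agent.Work.MLC.Sep
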