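import Pool.Agent.Work.MLC.Circle

/-!
Separation of two components of the same period: the core inequality.
-/

set_option autoImplicit false

namespace Pool.Agent.Work.MLC.Circ

open Set Filter Topology CircleDeg1Lift

/-- `y` lies in the linear part of `tdbl s` -/
def Lin (s y : ℝ) : Prop := ∃ k : ℤ, s / 2 + k ≤ y ∧ y ≤ s / 2 + k + 1 / 2

/-- two fixed rays `α < θ < β` of the return map along `w` (length `n + 1`), both in the linear part
of the last factor: their images under the first `n` factors are more than half a turn apart -/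
theorem fixed_jump {w : ℕ → ℤ} {n : ℕ} {θ α β : ℝ} {m : ℤ} (hα : α < θ) (hβ : θ < β)
    (hy : Lin (θ + w n) (gw w θ n α)) (hy' : Lin (θ + w n) (gw w θ n β))
    (ha : gw w θ (n + 1) α = α + m) (hb : gw w θ (n + 1) β = β + m) :
    1 / 2 + (β - α) / 2 ≤ gw w θ n β - gw w θ n α := by
  obtain ⟨k, hk, hk'⟩ := hy
  obtain ⟨l, hl, hl'⟩ := hy'
  rw [gw_succ_apply, tdbl_lin k hk hk'] at ha
  rw [gw_succ_apply, tdbl_lin l hl hl'] at hb
  have h1 : w n + k < m := by
    have : ((w n + k : ℤ) : ℝ) < m := by push_cast; linarith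
    exact_mod_cast this
  have h2 : k < l := by
    by_contra hc
    push Not at hc
    have h3 : ((w n + l + 1 : ℤ) : ℝ) ≤ m := by
      have : w n + l + 1 ≤ m := by omega
      exact_mod_cast this
    push_cast at h3
    linarith
  have h3 : (k : ℝ) + 1 ≤ l := by exact_mod_cast h2
  linarith

/-- core inequality: two disjoint wakes `(α, β)`, `(α₁, β₁)` of components of period `n + 1` with the
same first `n` symbols, and one outer ray `A` on which the two first `n` factors agree: impossible -/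
theorem sep_core {w w₁ : ℕ → ℤ} {n : ℕ} {θ θ₁ α β α₁ β₁ A : ℝ} {m m₁ : ℤ}
    (hw : ∀ i < n, w i = w₁ i)
    (hα : α < θ) (hβ : θ < β) (hα₁ : α₁ < θ₁) (hβ₁ : θ₁ < β₁) (hd : β ≤ α₁)
    (hy : Lin (θ + w n) (gw w θ n α)) (hy' : Lin (θ + w n) (gw w θ n β))
    (ha : gw w θ (n + 1) α = α + m) (hb : gw w θ (n + 1) β = β + m)
    (hy₁ : Lin (θ₁ + w₁ n) (gw w₁ θ₁ n α₁)) (hy₁' : Lin (θ₁ + w₁ n) (gw w₁ θ₁ n β₁))
    (ha₁ : gw w₁ θ₁ (n + 1) α₁ = α₁ + m₁) (hb₁ : gw w₁ θ₁ (n + 1) β₁ = β₁ + m₁)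
    (hA : A ≤ α) (hA₁ : β₁ ≤ A + 1) (hG : gw w θ₁ n A ≤ gw w θ n A) : False := by
  have j := fixed_jump hα hβ hy hy' ha hb
  have j₁ := fixed_jump hα₁ hβ₁ hy₁ hy₁' ha₁ hb₁
  rw [← gw_congr θ₁ n hw] at j₁
  have h1 : gw w θ₁ n β₁ ≤ gw w θ₁ n A + 1 := by
    rw [← CircleDeg1Lift.map_add_one]
    exact (gw w θ₁ n).monotone hA₁
  have h2 : gw w θ n A ≤ gw w θ n α := (gw w θ n).monotone hA
  have h3 : gw w θ n β ≤ gw w θ n α₁ := (gw w θ n).monotone hd
  have h4 : gw w θ n α₁ ≤ gw w θ₁ n α₁ := gw_mono w (by linarith) n α₁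
  linarith

end Pool.Agent.Work.MLC.Circ
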