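import Pool.Agent.Work.MLC.Shp0
import Pool.Agent.Work.MLC.CapT6
import Pool.Agent.Work.MLC.CapQ13

set_option autoImplicit false

/-! # Theorem CAP: the assembly (helper90)

`cap_assembly`: the sum over the limbs (stage A), the pieces of type II, the choice of the pieces give
**Theorem CAP**: the exceptional set of infinitely renormalizable angles is a null set for the gauge
`1 / log (1 / t)`. -/

namespace Pool.Agent.Work.MLC.Shp

open Filter Topology Metric Set Complex MeasureTheory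
open Pool.Agent.Work.MLC.Sat Pool.Agent.Work.MLC.Cnt
open scoped ENNReal

/-- the conclusion at the angle `θ` -/
def GoodAt (θ : ℝ) : Prop := ∃ c₀ ∈ MM,
  Tendsto Psi (𝓝[{z | 1 < ‖z‖}] (Complex.exp (2 * Real.pi * θ * Complex.I))) (𝓝 c₀) ∧
  LCat MM c₀

/-! ### null sets for the gauge -/

/-- covers by countable families -/
lemma logNull_of {E : Set ℝ} (h : ∀ ε : ℝ, 0 < ε → ∃ (β : Type) (_ : Countable β) (a l : β → ℝ),
    (∀ b, 0 < l b ∧ l b < 1) ∧ E ⊆ (⋃ b, Icc (a b) (a b + l b)) ∧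
    ∑' b, ENNReal.ofReal (1 / Real.log (1 / l b)) < ENNReal.ofReal ε) : LogNull E := by
  intro ε hε
  obtain ⟨β, _, a, l, h1, h2, h3⟩ := h (ε / 2) (by linarith)
  obtain ⟨l₀, h4, h5⟩ := Cap.exists_tiny (ε := ENNReal.ofReal (ε / 2)) (by
    rw [Ne, ENNReal.ofReal_eq_zero, not_le]; linarith)
  have h6 : ∀ b : β ⊕ ℕ, 0 < Sum.elim l l₀ b ∧ Sum.elim l l₀ b < 1 := by
    rintro (b | i)
    · exact h1 b
    · exact h4 i
  have h7 : ∑' b : β ⊕ ℕ, ENNReal.ofReal (1 / Real.log (1 / Sum.elim l l₀ b)) <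
      ENNReal.ofReal ε := by
    rw [ENNReal.summable.tsum_sum ENNReal.summable]
    have h8 : ENNReal.ofReal ε = ENNReal.ofReal (ε / 2) + ENNReal.ofReal (ε / 2) := by
      rw [← ENNReal.ofReal_add (by linarith) (by linarith)]
      congr 1; ring
    rw [h8]
    exact ENNReal.add_lt_add h3 h5
  obtain ⟨a', l', g1, g2, g3, g4⟩ := Cap.to_seq (Sum.elim a fun _ => 0) (Sum.elim l l₀) h6 h7
  refine ⟨a', fun i => a' i + l' i, fun i => ⟨by linarith [(g1 i).1], by linarith [(g1 i).2]⟩,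
    ?_, ?_, ?_⟩
  · intro x hx
    obtain ⟨b, hb⟩ := mem_iUnion.1 (h2 hx)
    obtain ⟨i, hi1, hi2⟩ := g4 (Sum.inl b)
    refine mem_iUnion.2 ⟨i, ?_⟩
    show x ∈ Icc (a' i) (a' i + l' i)
    rw [hi1, hi2]; exact hb
  · simpa only [add_sub_cancel_left] using g2
  · simpa only [add_sub_cancel_left] using g3

lemma LogNull.mono {E E' : Set ℝ} (h : LogNull E) (h' : E' ⊆ E) : LogNull E' := by
  intro ε hε
  obtain ⟨a, b, h1, h2, h3, h4⟩ := h ε hε
  exact ⟨a, b, h1, h'.trans h2, h3, h4⟩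

lemma gauge_nonneg {x : ℝ} (h0 : 0 < x) (h1 : x < 1) : 0 ≤ 1 / Real.log (1 / x) := by
  have h2 : 1 ≤ 1 / x := by rw [le_div_iff₀ h0]; linarith
  have := Real.log_nonneg h2
  positivity

/-- countable unions -/
lemma LogNull.iUnion {E : ℕ → Set ℝ} (h : ∀ n, LogNull (E n)) : LogNull (⋃ n, E n) := by
  refine logNull_of fun ε hε => ?_
  obtain ⟨ε', hε', hsum⟩ := ENNReal.exists_pos_sum_of_countable (ε := ENNReal.ofReal ε)
    (by rw [Ne, ENNReal.ofReal_eq_zero, not_le]; linarith) ℕ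
  have h1 := fun n => h n (ε' n) (by exact_mod_cast hε' n)
  choose a b h1 h2 h3 h4 using h1
  refine ⟨ℕ × ℕ, inferInstance, fun p => a p.1 p.2, fun p => b p.1 p.2 - a p.1 p.2, ?_, ?_, ?_⟩
  · intro p
    constructor <;> linarith [(h1 p.1 p.2).1, (h1 p.1 p.2).2]
  · intro x hx
    obtain ⟨n, hn⟩ := mem_iUnion.1 hx
    obtain ⟨i, hi⟩ := mem_iUnion.1 (h2 n hn)
    refine mem_iUnion.2 ⟨(n, i), ?_⟩
    simpa using hi
  · rw [ENNReal.tsum_prod (f := fun n i => ENNReal.ofReal (1 / Real.log (1 / (b n i - a n i))))]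
    refine lt_of_le_of_lt (ENNReal.tsum_le_tsum fun n => ?_) hsum
    rw [← ENNReal.ofReal_tsum_of_nonneg (fun i => gauge_nonneg (by linarith [(h1 n i).1])
      (by linarith [(h1 n i).2])) (h3 n), ← ENNReal.ofReal_coe_nnreal]
    exact ENNReal.ofReal_le_ofReal (h4 n).le

lemma LogNull.union {E E' : Set ℝ} (h : LogNull E) (h' : LogNull E') : LogNull (E ∪ E') := by
  have h1 := LogNull.iUnion (E := fun n : ℕ => if n = 0 then E else E') (fun n => by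
    by_cases hn : n = 0
    · rw [if_pos hn]; exact h
    · rw [if_neg hn]; exact h')
  refine h1.mono ?_
  rintro x (hx | hx)
  · exact mem_iUnion.2 ⟨0, by simpa using hx⟩
  · exact mem_iUnion.2 ⟨1, by simpa using hx⟩

/-- countable sets -/
lemma LogNull.countable {N : Set ℝ} (hN : N.Countable) : LogNull N := by
  refine logNull_of fun ε hε => ?_
  obtain ⟨l₀, h4, h5⟩ := Cap.exists_tiny (ε := ENNReal.ofReal ε) (by
    rw [Ne, ENNReal.ofReal_eq_zero, not_le]; linarith)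
  obtain ⟨e, he⟩ : ∃ e : ℕ → ℝ, N ⊆ range e := by
    rcases N.eq_empty_or_nonempty with h | h
    · exact ⟨fun _ => 0, by rw [h]; exact empty_subset _⟩
    · obtain ⟨e, he⟩ := hN.exists_eq_range h
      exact ⟨e, he.le⟩
  refine ⟨ℕ, inferInstance, e, l₀, h4, fun x hx => ?_, h5⟩
  obtain ⟨i, hi⟩ := he hx
  exact mem_iUnion.2 ⟨i, hi.le, by rw [← hi]; linarith [(h4 i).1]⟩

/-! ### type I -/

/-- a point of the impression -/
lemma exists_imp (θ : ℝ) : ∃ c ∈ MM, (c, θ) ∈ closure {p : ℂ × ℝ | Ang p.1 p.2} := by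
  obtain ⟨c₀, φ, hφ, hc₀⟩ := exists_limit_cOf
    (u := fun n => ((1 / ((n : ℝ) + 1) : ℝ) : ℂ) + 2 * Real.pi * θ * Complex.I)
    (fun n => by rw [CH.re_pt]; positivity)
    (fun n => by
      rw [CH.re_pt, div_le_one (by positivity)]
      linarith [(Nat.cast_nonneg n : (0 : ℝ) ≤ n)])
  have hg0 : Tendsto (fun n => 1 / ((φ n : ℝ) + 1)) atTop (𝓝 0) :=
    tendsto_one_div_add_atTop_nhds_zero_nat.comp hφ.tendsto_atTop
  refine ⟨c₀, ?_, ?_⟩
  · refine mem_MM_of_tendsto (u := fun n => ((1 / ((φ n : ℝ) + 1) : ℝ) : ℂ) +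
      2 * Real.pi * θ * Complex.I) (fun n => ?_) ?_ hc₀
    · rw [CH.re_pt]; positivity
    · refine hg0.congr fun n => ?_
      exact (CH.re_pt _ _).symm
  · have h1 : Tendsto (fun n => (cOf (((1 / ((φ n : ℝ) + 1) : ℝ) : ℂ) +
        2 * Real.pi * θ * Complex.I), θ)) atTop (𝓝 (c₀, θ)) := hc₀.prodMk_nhds tendsto_const_nhds
    refine mem_closure_of_tendsto h1 (Eventually.of_forall fun n => ?_)
    exact (ang_cOf (by positivity)).1

/-- an angle in the arcs of infinitely many limbs -/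
lemma inf_of_arcs {θ : ℝ} (h : ∀ M : ℕ, ∃ (W : WS) (x : ℚ), W.Ok ∧ M ≤ W.m ∧ 0 < x ∧ x < 1 ∧
    3 ≤ x.den ∧ (W.dat x).tm < θ ∧ θ < (W.dat x).tp) :
    {r | r ∈ Cap.RT ∧ Cap.ImpSep θ r}.Infinite := by
  classical
  obtain ⟨c₀, hc₀M, hc₀⟩ := exists_imp θ
  intro hfin
  have hfin' : (insert c₀ {r | r ∈ Cap.RT ∧ Cap.ImpSep θ r}).Finite := hfin.insert _
  choose W x hW using h
  set R : ℕ → Cap.RD := fun M => ⟨W M, x M, (hW M).1, (hW M).2.2.1, (hW M).2.2.2.1,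
    (hW M).2.2.2.2.1⟩ with hR
  have hmem : ∀ M, rt (R M).D ∈ insert c₀ {r | r ∈ Cap.RT ∧ Cap.ImpSep θ r} := by
    intro M
    by_cases hc : c₀ = rt (R M).D
    · exact Or.inl hc.symm
    · refine Or.inr ⟨⟨R M, rfl⟩, c₀, ?_, hc₀⟩
      rw [Cnt.n6_sep (R M).D (R M).par (R M).cir]
      rcases Cap.imp_in (R M).par (R M).cir hc₀M (k := 0)
        (by push_cast; rw [add_zero]; exact (hW M).2.2.2.2.2.1)
        (by push_cast; rw [add_zero]; exact (hW M).2.2.2.2.2.2) hc₀ with h | h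
      · exact absurd h hc
      · exact h
  have : Finite (insert c₀ {r | r ∈ Cap.RT ∧ Cap.ImpSep θ r} : Set ℂ) := hfin'
  obtain ⟨y, hy⟩ := Finite.exists_infinite_fiber
    (fun M => (⟨rt (R M).D, hmem M⟩ : (insert c₀ {r | r ∈ Cap.RT ∧ Cap.ImpSep θ r} : Set ℂ)))
  have hy' := Set.infinite_coe_iff.1 hy
  obtain ⟨M₁, hM₁⟩ := hy'.nonempty
  obtain ⟨M₂, hM₂, hlt⟩ := hy'.exists_gt ⌈Real.log (1 / (R M₁).len) * 2⌉₊
  have h1 : rt (R M₁).D = rt (R M₂).D := by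
    have e1 : rt (R M₁).D = y := congrArg Subtype.val hM₁
    have e2 : rt (R M₂).D = y := congrArg Subtype.val hM₂
    rw [e1, e2]
  obtain ⟨k, k1, k2⟩ := plateau_unique n2_ray (R M₁).par (R M₁).cir (R M₂).par (R M₂).cir h1
  have h2 : (R M₁).len = (R M₂).len := by
    show (R M₁).D.tp - (R M₁).D.tm = (R M₂).D.tp - (R M₂).D.tm
    rw [k1, k2]; ring
  have h3 := (R M₂).log_len
  have h4 : 1 / (R M₂).wt = (R M₂).W.m * ((R M₂).x.den : ℝ) := by rw [Cap.RD.wt, one_div_one_div]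
  have h5 : Real.log (1 / (R M₁).len) * 2 < M₂ := (Nat.le_ceil _).trans_lt (by exact_mod_cast hlt)
  have h6 : (M₂ : ℝ) ≤ (R M₂).W.m := by exact_mod_cast (hW M₂).2.1
  have h7 : (3 : ℝ) ≤ (R M₂).x.den := by exact_mod_cast (R M₂).q3
  have h8 : (M₂ : ℝ) * 3 ≤ (R M₂).W.m * ((R M₂).x.den : ℝ) :=
    mul_le_mul h6 h7 (by norm_num) (by positivity)
  have h9 : 0.6931471803 < Real.log 2 := Real.log_two_gt_d9
  rw [h4, ← h2] at h3
  have h10 : (0 : ℝ) ≤ M₂ := Nat.cast_nonneg _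
  have h11 : Real.log 2 / 3 * (M₂ * 3) ≤ Real.log 2 / 3 * ((R M₂).W.m * ((R M₂).x.den : ℝ)) := by
    gcongr
  nlinarith

/-- the exceptional set of type I -/
lemma null_A {C : ℝ} (hC : Cap.C_limbsum C) :
    LogNull {θ | θ ∈ Ico (0 : ℝ) 1 ∧ {r | r ∈ Cap.RT ∧ Cap.ImpSep θ r}.Infinite ∧ ¬ GoodAt θ} := by
  intro ε hε
  obtain ⟨a, l, h1, h2, h3, h4⟩ := Cap.cap_final hC hε
  refine ⟨a, fun i => a i + l i, fun i => ⟨by linarith [(h1 i).1], by linarith [(h1 i).2]⟩,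
    ?_, ?_, ?_⟩
  · rintro t ⟨ht, hinf, hg⟩
    by_contra hcon
    exact hg (h4 t ht (fun i hi => hcon (mem_iUnion.2 ⟨i, hi⟩)) hinf)
  · simpa only [add_sub_cancel_left] using h2
  · simpa only [add_sub_cancel_left] using h3

/-! ### type II -/

lemma Pie.Ok.two_eq {P : Pie} (h : P.Ok) (h2 : P.two) : P.U = P.W.dat (1 / 2) := by
  show P.W.dat P.x = _
  rw [h.half h2]

lemma Pie.Ok.nested {P : Pie} (h : P.Ok) (h2 : P.two) :
    0 < P.ℓ ∧ P.V.tm = P.U.tm + P.ℓ ∧ P.U.tp = P.V.tp + P.ℓ := by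
  have hT := h.nest h2
  have hℓ : P.ℓ = P.V.tm - P.U.tm := if_pos h2
  have e := h.two_eq h2
  rw [hℓ]
  refine ⟨hT.pos, by ring, ?_⟩
  have h3 := hT.right
  rw [← e] at h3
  exact h3

lemma Pie.Ok.parU {P : Pie} (h : P.Ok) : P.U.Par := WS.dat_par h.ok h.x_pos h.x_lt

lemma Pie.Ok.cirU {P : Pie} (h : P.Ok) : P.U.Cir := WS.dat_cir h.ok h.x_pos h.x_lt

lemma Pie.Ok.parV {P : Pie} (h : P.Ok) (h2 : P.two) : P.V.Par :=
  WS.dat_par (h.nest h2).ok' (by norm_num) (by norm_num)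

lemma Pie.Ok.cirV {P : Pie} (h : P.Ok) (h2 : P.two) : P.V.Cir :=
  WS.dat_cir (h.nest h2).ok' (by norm_num) (by norm_num)

/-- the piece satisfies the hypotheses of `fin_pieces` -/
lemma Pie.Ok.pk {P : Pie} (h : P.Ok) : Cap.PKok P.U P.V P.two where
  par := h.parU
  cir := h.cirU
  par' := h.parV
  cir' := h.cirV
  nest h2 := by
    obtain ⟨h3, h4, h5⟩ := h.nested h2
    exact Cap.nest_of_arc h.parU h.cirU (h.parV h2) (h.cirV h2) (by linarith) (by linarith)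

lemma lg_eq' (x : ℝ) : lg x = Real.log (1 / x) / Real.log 2 := rfl

lemma Pie.Ok.lg_ge {P : Pie} (h : P.Ok) (h2 : P.two) : 100 ≤ lg P.ℓ := by
  have hT := h.nest h2
  have hℓ : P.ℓ = P.V.tm - P.U.tm := if_pos h2
  rw [hℓ]
  refine le_trans ?_ hT.le
  exact_mod_cast hT.m_le.trans hT.m_le'

lemma lt_one_of_lg {x : ℝ} (h0 : 0 < x) (h : 0 < lg x) : x < 1 := by
  have h2 : 0 < Real.log 2 := Real.log_pos (by norm_num)
  rw [lg_eq'] at h
  have h3 : 0 < Real.log (1 / x) := by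
    have := mul_pos h h2
    rwa [div_mul_cancel₀ _ h2.ne'] at this
  by_contra hcon
  push Not at hcon
  have h5 : Real.log (1 / x) ≤ 0 := Real.log_nonpos (by positivity) ((div_le_one h0).2 hcon)
  linarith

lemma gauge_lg {x : ℝ} (h : 0 < lg x) : 1 / Real.log (1 / x) ≤ 3 / 2 * (1 / lg x) := by
  have h2 : 0.6931471803 < Real.log 2 := Real.log_two_gt_d9
  rw [lg_eq'] at h ⊢
  have h3 : 0 < Real.log (1 / x) := by
    have := mul_pos h (by linarith : 0 < Real.log 2)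
    rwa [div_mul_cancel₀ _ (by linarith)] at this
  rw [one_div_div, ← mul_div_assoc]
  apply div_le_div_of_nonneg_right _ h3.le
  linarith

/-- the exceptional set of type II -/
lemma null_B {P : ℕ × ℕ × ℕ × ℕ → Pie} {G : Set (ℕ × ℕ × ℕ × ℕ)}
    (hP : ∀ i ∈ G, (P i).Ok ∧ (P i).two)
    (hs : Summable (fun i : G => diam (P i).K ^ 2 / lg (P i).ℓ)) :
    LogNull {θ | θ ∈ Ico (0 : ℝ) 1 ∧ (∀ M : ℕ, ∃ i ∈ G, (M : ℝ) ≤ lg (P i).ℓ ∧ θ ∈ (P i).A) ∧
      ¬ GoodAt θ} := by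
  classical
  have hok : ∀ i : G, (P i).Ok ∧ (P i).two := fun i => hP i i.2
  have hlg : ∀ i : G, 100 ≤ lg (P i).ℓ := fun i => (hok i).1.lg_ge (hok i).2
  have hℓ0 : ∀ i : G, 0 < (P i).ℓ := fun i => ((hok i).1.nested (hok i).2).1
  have hℓ1 : ∀ i : G, (P i).ℓ < 1 := fun i => lt_one_of_lg (hℓ0 i) (by linarith [hlg i])
  refine logNull_of fun ε hε => ?_
  obtain ⟨B, hB1, hB2⟩ := Cap.pure_tail (α := G) (d := fun i => diam (P i).K)
    (w := fun i => 1 / lg (P i).ℓ) (fun i => by have := hlg i; positivity)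
    (by simpa only [mul_one_div] using hs) (ε := ENNReal.ofReal (ε / 3))
    (by rw [Ne, ENNReal.ofReal_eq_zero, not_le]; linarith)
  refine ⟨B ⊕ B, inferInstance, Sum.elim (fun i => (P i.1).U.tm - ⌊(P i.1).U.tm⌋)
    (fun i => (P i.1).V.tp - ⌊(P i.1).U.tm⌋), Sum.elim (fun i => (P i.1).ℓ) (fun i => (P i.1).ℓ),
    ?_, ?_, ?_⟩
  · rintro (i | i)
    · exact ⟨hℓ0 i.1, hℓ1 i.1⟩
    · exact ⟨hℓ0 i.1, hℓ1 i.1⟩
  · rintro θ ⟨hθ, hinf, hng⟩
    by_contra hcon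
    have key : ∀ i : G, θ ∈ (P i).A → i ∉ B := by
      rintro i ⟨⟨k, k1, k2⟩, hV⟩ hiB
      obtain ⟨f1, f2⟩ := floor_plateau (hok i).1.parU (hok i).1.cirU
      obtain ⟨n1, n2, n3⟩ := (hok i).1.nested (hok i).2
      have hk : k = ⌊(P i).U.tm⌋ := by
        have e1 : (⌊(P i).U.tm⌋ : ℝ) < k + 1 := by linarith [hθ.2]
        have e2 : (k : ℝ) < ⌊(P i).U.tm⌋ + 1 := by linarith [hθ.1]
        have e3 : ⌊(P i).U.tm⌋ < k + 1 := by exact_mod_cast e1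
        have e4 : k < ⌊(P i).U.tm⌋ + 1 := by exact_mod_cast e2
        omega
      have hV' := hV (hok i).2 k
      rw [hk] at k1 k2 hV'
      by_cases h1 : (P i).V.tm ≤ θ + ⌊(P i).U.tm⌋
      · have h2 : (P i).V.tp < θ + ⌊(P i).U.tm⌋ := by
          by_contra h2
          exact hV' ⟨h1, not_lt.1 h2⟩
        refine hcon (mem_iUnion.2 ⟨Sum.inr ⟨i, hiB⟩, ?_⟩)
        show (P i).V.tp - ⌊(P i).U.tm⌋ ≤ θ ∧ θ ≤ (P i).V.tp - ⌊(P i).U.tm⌋ + (P i).ℓ
        constructor <;> linarith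
      · refine hcon (mem_iUnion.2 ⟨Sum.inl ⟨i, hiB⟩, ?_⟩)
        show (P i).U.tm - ⌊(P i).U.tm⌋ ≤ θ ∧ θ ≤ (P i).U.tm - ⌊(P i).U.tm⌋ + (P i).ℓ
        push Not at h1
        constructor <;> linarith
    have hsmall : ∀ δ : ℝ, 0 < δ → ∃ i : G, θ ∈ (P i).A ∧ diam (P i).K < δ := by
      intro δ hδ
      by_contra hc
      push Not at hc
      obtain ⟨K, hK⟩ := ((hB2 δ hδ).image fun i : G => lg (P i).ℓ).bddAbove
      obtain ⟨i, hi, h1, h2⟩ := hinf (⌈K⌉₊ + 1)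
      have h3 : lg (P i).ℓ ≤ K := hK ⟨⟨i, hi⟩, ⟨key ⟨i, hi⟩ h2, hc ⟨i, hi⟩ h2⟩, rfl⟩
      have h4 := Nat.le_ceil K
      push_cast at h1
      linarith
    choose i hiA hid using hsmall
    refine hng (Cap.fin_pieces (fun n : ℕ => (P (i (1 / ((n : ℝ) + 1)) (by positivity))).U)
      (fun n => (P (i (1 / ((n : ℝ) + 1)) (by positivity))).V)
      (fun n => (P (i (1 / ((n : ℝ) + 1)) (by positivity))).two) (fun n => (hok _).1.pk)
      (fun n => (hiA _ _).1) (fun n => (hiA _ _).2) fun δ hδ => ?_)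
    obtain ⟨n, hn⟩ := exists_nat_one_div_lt hδ
    exact ⟨n, (hid _ (by positivity)).trans hn⟩
  · rw [ENNReal.summable.tsum_sum ENNReal.summable]
    have h1 : ∑' i : B, ENNReal.ofReal (1 / Real.log (1 / (P i.1).ℓ)) ≤
        ENNReal.ofReal (3 / 2) * ∑' i : B, ENNReal.ofReal (1 / lg (P i.1).ℓ) := by
      rw [← ENNReal.tsum_mul_left]
      refine ENNReal.tsum_le_tsum fun i => ?_
      rw [← ENNReal.ofReal_mul (by norm_num)]
      exact ENNReal.ofReal_le_ofReal (gauge_lg (by linarith [hlg i.1]))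
    have h2 : ENNReal.ofReal (3 / 2) * ∑' i : B, ENNReal.ofReal (1 / lg (P i.1).ℓ) <
        ENNReal.ofReal (ε / 2) := by
      have h3 : ENNReal.ofReal (ε / 2) = ENNReal.ofReal (3 / 2) * ENNReal.ofReal (ε / 3) := by
        rw [← ENNReal.ofReal_mul (by norm_num)]
        congr 1; ring
      rw [h3]
      exact ENNReal.mul_lt_mul_right (by
        rw [Ne, ENNReal.ofReal_eq_zero, not_le]; norm_num) ENNReal.ofReal_ne_top hB1
    have h4 : ENNReal.ofReal ε = ENNReal.ofReal (ε / 2) + ENNReal.ofReal (ε / 2) := by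
      rw [← ENNReal.ofReal_add (by linarith) (by linarith)]
      congr 1; ring
    rw [h4]
    exact ENNReal.add_lt_add (h1.trans_lt h2) (h1.trans_lt h2)

/-- the ends -/
lemma countable_ends (P : ℕ × ℕ × ℕ × ℕ → Pie) : {θ : ℝ | ∃ i, (P i).End θ}.Countable := by
  have h1 : {θ : ℝ | ∃ i, (P i).End θ} ⊆ ⋃ (i : ℕ × ℕ × ℕ × ℕ) (k : ℤ),
      {(P i).U.tm - (k : ℝ), (P i).U.tp - (k : ℝ), (P i).V.tm - (k : ℝ), (P i).V.tp - (k : ℝ)} := by
    rintro θ ⟨i, k, h⟩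
    refine mem_iUnion₂.2 ⟨i, k, ?_⟩
    simp only [mem_insert_iff, mem_singleton_iff]
    rcases h with h | h | ⟨-, h | h⟩
    · left; linarith
    · right; left; linarith
    · right; right; left; linarith
    · right; right; right; linarith
  exact (countable_iUnion fun i => countable_iUnion fun k => (Set.toFinite _).countable).mono h1

/-- **the assembly** -/
theorem cap_assembly {C : ℝ} (hC : Cap.C_limbsum C) (hT : T_two) (hTP : T_pieces)
    (hCh : B_choose) : Cap_thm := by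
  classical
  obtain ⟨N, hN, hTP⟩ := hTP
  have hex : ∀ i : ℕ × ℕ × ℕ × ℕ, ∃ P : Pie, Ix i → (P.Ok ∧ P.two ∧
      P.U.tm = sL i.1 (i.2.1 / (2 ^ i.1 - 1)) (i.2.2.1 / (2 ^ i.1 - 1)) i.2.2.2 ∧
      P.U.tp = sR i.1 (i.2.1 / (2 ^ i.1 - 1)) (i.2.2.1 / (2 ^ i.1 - 1)) i.2.2.2 ∧
      P.V.tm = sL i.1 (i.2.1 / (2 ^ i.1 - 1)) (i.2.2.1 / (2 ^ i.1 - 1)) (i.2.2.2 + 1) ∧
      P.V.tp = sR i.1 (i.2.1 / (2 ^ i.1 - 1)) (i.2.2.1 / (2 ^ i.1 - 1)) (i.2.2.2 + 1) ∧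
      ((i.2.2.2 + 1) * i.1 : ℝ) ≤ lg P.ℓ) := by
    intro i
    by_cases hi : Ix i
    · obtain ⟨P, h1, h2, -, -, h3, h4, h5, h6, h7, -⟩ := hT i.1 _ _ i.2.2.2 hi.2.2 hi.1 hi.2.1
      exact ⟨P, fun _ => ⟨h1, h2, h3, h4, h5, h6, h7⟩⟩
    · exact ⟨⟨⟨0, fun _ => 0, 0, fun _ => (0, 0)⟩, 0, ⟨0, fun _ => 0, 0, fun _ => (0, 0)⟩, True⟩,
        fun h => absurd h hi⟩
  choose P hP using hex
  obtain ⟨G, hG1, hG2, hG3⟩ := hCh P fun i hi =>
    ⟨(hP i hi).1, (hP i hi).2.1, (hP i hi).2.2.1, (hP i hi).2.2.2.2.2.2⟩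
  refine ⟨_, ((null_A hC).union (null_B (P := P) (G := G)
    (fun i hi => ⟨(hP i (hG1 i hi)).1, (hP i (hG1 i hi)).2.1⟩) hG2)).union
    (LogNull.countable (hN.union (countable_ends P))), fun θ hθ hR hE => ?_⟩
  simp only [mem_union, not_or] at hE
  obtain ⟨⟨hA, hB⟩, hEN, hEnd⟩ := hE
  by_contra hng
  rcases hTP θ hEN hR with h | h
  · exact hA ⟨hθ, inf_of_arcs h, hng⟩
  refine hB ⟨hθ, hG3 θ (fun i _ hi => hEnd ⟨i, hi⟩) (fun M => ?_), hng⟩
  obtain ⟨m, α, β, n, hm, hW, hn, hθ2⟩ := h (max M 100)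
  have hm1 : M ≤ m := (le_max_left _ _).trans hm
  have hm2 : 100 ≤ m := (le_max_right _ _).trans hm
  have h1 : (1 : ℝ) < 2 ^ m := one_lt_pow₀ (by norm_num) hW.pos.ne'
  have h1' : (0 : ℝ) < 2 ^ m - 1 := by linarith
  obtain ⟨a, ha⟩ := hW.per
  obtain ⟨b, hb⟩ := hW.per'
  have ha0 : 0 ≤ a := by
    have : (0 : ℝ) ≤ a := by rw [← ha]; exact mul_nonneg h1'.le hW.nonneg
    exact_mod_cast this
  have hb0 : 0 ≤ b := by
    have : (0 : ℝ) ≤ b := by rw [← hb]; exact mul_nonneg h1'.le (hW.nonneg.trans hW.lt.le)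
    exact_mod_cast this
  have ea : ((a.toNat : ℕ) : ℝ) / (2 ^ m - 1) = α := by
    have e1 : ((a.toNat : ℕ) : ℝ) = a := by
      have := Int.toNat_of_nonneg ha0
      exact_mod_cast this
    rw [e1, div_eq_iff h1'.ne', ← ha]; ring
  have eb : ((b.toNat : ℕ) : ℝ) / (2 ^ m - 1) = β := by
    have e1 : ((b.toNat : ℕ) : ℝ) = b := by
      have := Int.toNat_of_nonneg hb0
      exact_mod_cast this
    rw [e1, div_eq_iff h1'.ne', ← hb]; ring
  have hIx : Ix (m, a.toNat, b.toNat, n) := by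
    refine ⟨hm2, hn, ?_⟩
    show Wake m (((a.toNat : ℕ) : ℝ) / (2 ^ m - 1)) (((b.toNat : ℕ) : ℝ) / (2 ^ m - 1))
    rw [ea, eb]; exact hW
  refine ⟨_, hIx, hm1, ?_⟩
  obtain ⟨p1, p2, p3, p4, p5, p6, -⟩ := hP _ hIx
  simp only [ea, eb] at p3 p4 p5 p6
  obtain ⟨n1, n2, n3⟩ := p1.nested p2
  have hV := (p1.cirV p2).lt
  set Q := P (m, a.toNat, b.toNat, n) with hQ
  have hlt := hW.lt
  have hx : 0 ≤ (β - α) * 2 ^ (m * n) / (2 ^ m * (2 ^ (m * n) + 1)) := by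
    have : 0 < β - α := by linarith
    positivity
  have hsL : α ≤ sL m α β n := by unfold sL; linarith
  have hsR : sR m α β n ≤ β := by unfold sR; linarith
  have h0 := hW.nonneg
  have h2 := hW.le_one
  have hU1 : Q.U.tm < θ := by
    rcases hθ2 with ⟨h, -⟩ | ⟨h, -⟩
    · rw [p3]; exact h
    · rw [← p6] at h; linarith
  have hU2 : θ < Q.U.tp := by
    rcases hθ2 with ⟨-, h⟩ | ⟨-, h⟩
    · rw [← p5] at h; linarith
    · rw [p4]; exact h
  refine ⟨⟨0, by push_cast; linarith, by push_cast; linarith⟩, fun _ k hk => ?_⟩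
  obtain ⟨k1, k2⟩ := hk
  have hk0 : k = 0 := by
    have e1 : (k : ℝ) < 1 := by linarith
    have e2 : (-1 : ℝ) < k := by linarith
    have e3 : k < 1 := by exact_mod_cast e1
    have e4 : -1 < k := by exact_mod_cast e2
    omega
  rw [hk0] at k1 k2
  push_cast at k1 k2
  rcases hθ2 with ⟨-, h⟩ | ⟨h, -⟩
  · rw [← p5] at h; linarith
  · rw [← p6] at h; linarith

end Pool.Agent.Work.MLC.Shp
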