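import Pool.Agent.Work.MLC.Shp0

set_option autoImplicit false

/-! # Theorem CAP, stage B: the choice of the pieces of type II (helper90)

`b_choose (hB : B_sum) (hS : S_sub) : B_choose`. -/

namespace Pool.Agent.Work.MLC.Shp

open Filter Topology Metric Set Complex MeasureTheory
open Pool.Agent.Work.MLC.Sat Pool.Agent.Work.MLC.Cnt
open scoped ENNReal

/-- finitely many indices of bounded size -/
lemma finite_ix {P : ℕ × ℕ × ℕ × ℕ → Pie}
    (hP : ∀ i, Ix i → ((i.2.2.2 + 1) * i.1 : ℝ) ≤ lg (P i).ℓ) (X : ℝ) :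
    {i | Ix i ∧ lg (P i).ℓ < X}.Finite := by
  set N : ℕ := ⌈X⌉₊ with hN
  refine Set.Finite.subset ((Finset.range (N + 1) ×ˢ Finset.range (2 ^ N + 1) ×ˢ
    Finset.range (2 ^ N + 1) ×ˢ Finset.range (N + 1)).finite_toSet) ?_
  rintro ⟨m, a, b, n⟩ ⟨hi, hX⟩
  have h1 := hP _ hi
  obtain ⟨h2, h3, h4⟩ := hi
  simp only at h1 h2 h3 h4
  have h2' : (100 : ℝ) ≤ m := by exact_mod_cast h2
  have h3' : (1 : ℝ) ≤ n := by exact_mod_cast h3
  have h5 := Nat.le_ceil X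
  have hm : m ≤ N := by
    have h6 : (m : ℝ) ≤ N := by nlinarith
    exact_mod_cast h6
  have hn : n ≤ N := by
    have h6 : (n : ℝ) ≤ N := by nlinarith
    exact_mod_cast h6
  have h7 : (1 : ℝ) < 2 ^ m := one_lt_pow₀ (by norm_num) (by omega)
  have h8 : (2 : ℝ) ^ m ≤ 2 ^ N := pow_le_pow_right₀ (by norm_num) hm
  have hb : (b : ℝ) ≤ 2 ^ N := by
    have h9 := h4.le_one
    rw [div_le_one (by linarith)] at h9
    linarith
  have ha : (a : ℝ) ≤ 2 ^ N := by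
    have h9 := h4.lt
    rw [div_lt_div_iff_of_pos_right (by linarith)] at h9
    linarith
  have hb' : b ≤ 2 ^ N := by exact_mod_cast hb
  have ha' : a ≤ 2 ^ N := by exact_mod_cast ha
  simp only [Finset.coe_product, Finset.coe_range, mem_prod, mem_Iio]
  exact ⟨by omega, by omega, by omega, by omega⟩

/-- **CH: the choice of the pieces of type II** -/
theorem b_choose (hB : B_sum) (hS : S_sub) : B_choose := by
  classical
  intro P hP
  obtain ⟨C, hC⟩ := hB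
  have hlg := fun i (hi : Ix i) => (hP i hi).2.2.2
  -- the classes
  have hfin : ∀ j : ℕ, {i | Ix i ∧ (6 / 5 : ℝ) ^ j ≤ lg (P i).ℓ ∧
      lg (P i).ℓ < (6 / 5 : ℝ) ^ (j + 1)}.Finite := fun j =>
    (finite_ix hlg _).subset fun i hi => ⟨hi.1, hi.2.2⟩
  have hK : ∀ (j : ℕ) i, i ∈ (hfin j).toFinset ↔ Ix i ∧ (6 / 5 : ℝ) ^ j ≤ lg (P i).ℓ ∧
      lg (P i).ℓ < (6 / 5 : ℝ) ^ (j + 1) := fun j i => (hfin j).mem_toFinset
  have hsub := fun j => hS _ (hfin j).toFinset P fun i hi => (hP i ((hK j i).1 hi).1).1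
  choose F hFK hFO hFc using hsub
  have hmem : ∀ {j : ℕ} {i}, i ∈ F j → Ix i ∧ (6 / 5 : ℝ) ^ j ≤ lg (P i).ℓ ∧
      lg (P i).ℓ < (6 / 5 : ℝ) ^ (j + 1) := fun {j i} hi => (hK j i).1 (hFK j hi)
  have hpos : ∀ {i}, Ix i → 0 < lg (P i).ℓ := by
    intro i hi
    have h1 := hlg i hi
    have h2 : (100 : ℝ) ≤ i.1 := by exact_mod_cast hi.1
    have h3 : (0 : ℝ) ≤ i.2.2.2 := Nat.cast_nonneg _
    nlinarith
  -- the sum over the classes of one parity
  have hsum : ∀ (J : ℕ) (p : ℕ → Prop) [DecidablePred p], (∀ j j', p j → p j' → j < j' → j + 2 ≤ j') →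
      ∑ i ∈ ((Finset.range J).filter p).biUnion F, diam (P i).K ^ 2 / lg (P i).ℓ ≤ C := by
    intro J p _ hp
    refine hC _ _ P (fun i hi => ?_) ?_
    · obtain ⟨j, -, hj⟩ := Finset.mem_biUnion.1 hi
      exact ⟨(hP i (hmem hj).1).1, (hP i (hmem hj).1).2.1⟩
    · intro L θ hL hne T hT hTA
      rcases T.eq_empty_or_nonempty with h | ⟨i₀, hi₀⟩
      · rw [h]; simp
      obtain ⟨j₀, hj₀, hi₀'⟩ := Finset.mem_biUnion.1 (hT hi₀)
      refine hFO j₀ θ (fun i hi => hne i (Finset.mem_biUnion.2 ⟨j₀, hj₀, hi⟩)) T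
        (fun i hi => ?_) fun i hi => (hTA i hi).1
      obtain ⟨j, hj, hi'⟩ := Finset.mem_biUnion.1 (hT hi)
      have hj1 := (Finset.mem_filter.1 hj).2
      have hj2 := (Finset.mem_filter.1 hj₀).2
      obtain ⟨-, a1, a2⟩ := hTA i hi
      obtain ⟨-, b1, b2⟩ := hTA i₀ hi₀
      obtain ⟨-, c1, c2⟩ := hmem hi'
      obtain ⟨-, d1, d2⟩ := hmem hi₀'
      rcases lt_trichotomy j j₀ with h | h | h
      · exfalso
        have h1 := hp j j₀ hj1 hj2 h
        have h2 : (6 / 5 : ℝ) ^ (j + 2) ≤ (6 / 5 : ℝ) ^ j₀ := pow_le_pow_right₀ (by norm_num) h1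
        have h3 : (6 / 5 : ℝ) ^ (j + 2) = 6 / 5 * (6 / 5 : ℝ) ^ (j + 1) := by ring
        linarith
      · rwa [h] at hi'
      · exfalso
        have h1 := hp j₀ j hj2 hj1 h
        have h2 : (6 / 5 : ℝ) ^ (j₀ + 2) ≤ (6 / 5 : ℝ) ^ j := pow_le_pow_right₀ (by norm_num) h1
        have h3 : (6 / 5 : ℝ) ^ (j₀ + 2) = 6 / 5 * (6 / 5 : ℝ) ^ (j₀ + 1) := by ring
        linarith
  set G : Set (ℕ × ℕ × ℕ × ℕ) := {i | ∃ j, i ∈ F j} with hG
  have hnn : ∀ i, Ix i → 0 ≤ diam (P i).K ^ 2 / lg (P i).ℓ := fun i hi =>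
    div_nonneg (sq_nonneg _) (hpos hi).le
  refine ⟨G, fun i ⟨j, hj⟩ => (hmem hj).1, ?_, ?_⟩
  · refine summable_of_sum_le (c := C + C) (fun i => ?_) fun s => ?_
    · obtain ⟨j, hj⟩ := i.2
      exact hnn _ (hmem hj).1
    -- the finitely many classes
    obtain ⟨J, hJ⟩ : ∃ J : ℕ, ∀ i ∈ s, ∃ j < J, (i : ℕ × ℕ × ℕ × ℕ) ∈ F j := by
      have h1 : ∀ i : G, ∃ j, (i : ℕ × ℕ × ℕ × ℕ) ∈ F j := fun i => i.2
      choose g hg using h1
      refine ⟨s.sup g + 1, fun i hi => ⟨g i, ?_, hg i⟩⟩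
      exact Nat.lt_succ_of_le (Finset.le_sup (f := g) hi)
    set FE := ((Finset.range J).filter fun j => Even j).biUnion F with hFE
    set FO := ((Finset.range J).filter fun j => Odd j).biUnion F with hFO'
    have hE := hsum J (fun j => Even j) (by
      intro j j' h1 h2 h3
      obtain ⟨a, ha⟩ := h1
      obtain ⟨b, hb⟩ := h2
      omega)
    have hO := hsum J (fun j => Odd j) (by
      intro j j' h1 h2 h3
      obtain ⟨a, ha⟩ := h1
      obtain ⟨b, hb⟩ := h2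
      omega)
    have hsub : s.map (Function.Embedding.subtype _) ⊆ FE ∪ FO := by
      intro i hi
      obtain ⟨i', hi', rfl⟩ := Finset.mem_map.1 hi
      obtain ⟨j, hj, hij⟩ := hJ i' hi'
      rcases Nat.even_or_odd j with h | h
      · exact Finset.mem_union_left _ (Finset.mem_biUnion.2
          ⟨j, Finset.mem_filter.2 ⟨Finset.mem_range.2 hj, h⟩, hij⟩)
      · exact Finset.mem_union_right _ (Finset.mem_biUnion.2
          ⟨j, Finset.mem_filter.2 ⟨Finset.mem_range.2 hj, h⟩, hij⟩)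
    have hix : ∀ i ∈ FE ∪ FO, Ix i := by
      intro i hi
      rcases Finset.mem_union.1 hi with h | h
      · obtain ⟨j, -, hj⟩ := Finset.mem_biUnion.1 h
        exact (hmem hj).1
      · obtain ⟨j, -, hj⟩ := Finset.mem_biUnion.1 h
        exact (hmem hj).1
    calc ∑ i ∈ s, diam (P i).K ^ 2 / lg (P i).ℓ
        = ∑ i ∈ s.map (Function.Embedding.subtype _), diam (P i).K ^ 2 / lg (P i).ℓ := by
          rw [Finset.sum_map]; rfl
      _ ≤ ∑ i ∈ FE ∪ FO, diam (P i).K ^ 2 / lg (P i).ℓ :=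
          Finset.sum_le_sum_of_subset_of_nonneg hsub fun i hi _ => hnn i (hix i hi)
      _ ≤ ∑ i ∈ FE ∪ FO, diam (P i).K ^ 2 / lg (P i).ℓ +
          ∑ i ∈ FE ∩ FO, diam (P i).K ^ 2 / lg (P i).ℓ := by
          refine le_add_of_nonneg_right (Finset.sum_nonneg fun i hi => hnn i (hix i ?_))
          exact Finset.mem_union_left _ (Finset.mem_inter.1 hi).1
      _ = ∑ i ∈ FE, diam (P i).K ^ 2 / lg (P i).ℓ + ∑ i ∈ FO, diam (P i).K ^ 2 / lg (P i).ℓ :=
          Finset.sum_union_inter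
      _ ≤ C + C := add_le_add hE hO
  · intro θ hne hinf M
    obtain ⟨i, hi, hM, hA⟩ := hinf (2 * M + 2)
    have h1 := hlg i hi
    have h2 : (2 * M + 2 : ℝ) ≤ i.1 := by exact_mod_cast hM
    have h3 : (0 : ℝ) ≤ i.2.2.2 := Nat.cast_nonneg _
    have h4 : (2 * M + 2 : ℝ) ≤ lg (P i).ℓ := by
      have : (0 : ℝ) ≤ i.1 := Nat.cast_nonneg _
      nlinarith
    have hM0 : (0 : ℝ) ≤ M := Nat.cast_nonneg _
    obtain ⟨j, hj1, hj2⟩ := exists_nat_pow_near (x := lg (P i).ℓ) (y := (6 / 5 : ℝ))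
      (by linarith) (by norm_num)
    obtain ⟨i', hi', hA'⟩ := hFc j θ (fun i hi => hne i ((hK j i).1 hi).1) i
      ((hK j i).2 ⟨hi, hj1, hj2⟩) hA
    refine ⟨i', ⟨j, hi'⟩, ?_, hA'⟩
    have h5 := (hmem hi').2.1
    have h6 : (6 / 5 : ℝ) ^ (j + 1) = 6 / 5 * (6 / 5 : ℝ) ^ j := by ring
    rw [h6] at hj2
    linarith

end Pool.Agent.Work.MLC.Shp
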