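import Pool.Agent.Work.MLC.Shp0
import Pool.Agent.Work.MLC.CapH78

set_option autoImplicit false

/-! # Theorem CAP, module H_sum: the areas inside the components (helper60; from `Cap.c_half`) -/

namespace Pool.Agent.Work.MLC.Shp

open Filter Topology Metric Set Complex MeasureTheory
open Pool.Agent.Work.MLC.Sat Pool.Agent.Work.MLC.Cnt
open scoped ENNReal

/-- **H** -/
theorem h_sum : H_sum := by
  classical
  refine ⟨10 ^ 6, fun ι F W x hF hne => ?_⟩
  have h := Cap.c_half ι F W x hF fun i hi G hG hG2 => by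
    have h1 : G.card ≤ 1 := by
      rw [Finset.card_le_one]
      intro a ha b hb
      obtain ⟨a1, a2⟩ := hG2 a ha
      obtain ⟨b1, b2⟩ := hG2 b hb
      refine hne a (hG ha) b (hG hb) ⟨a1.1.symm.trans b1.1, fun L hL => ?_⟩ (a2.symm.trans b2)
      have hL' : L ∈ Pri.D0 (W i).m := by rw [a1.1]; exact hL
      rw [← a1.2 L hL', b1.2 L hL']
    omega
  have e : ENNReal.ofReal (10 ^ 6) = 10 ^ 6 := by
    rw [ENNReal.ofReal_pow (by norm_num)]
    norm_num
  rw [e]
  exact h

end Pool.Agent.Work.MLC.Shp
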