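import Pool.Agent.Work.MLC.Shp0
import Pool.Agent.Work.MLC.CapM26
import Pool.Agent.Work.MLC.CapP53
import Pool.Agent.Work.MLC.CapR24

set_option autoImplicit false

/-! # Theorem Cap, stage B, module M: multiplicity with overlap at most three in every class
(helper26) -/

namespace Pool.Agent.Work.MLC.Shp

open Filter Topology Metric Set Complex MeasureTheory
open Pool.Agent.Work.MLC.Sat Pool.Agent.Work.MLC.Cnt
open Pool.Agent.Work.MLC.Cap (lam lam_anti sum_en_le bet_pos block_sum)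
open scoped ENNReal

lemma eq_rpow_lam {l : ℝ} (hl : 0 < l) : l = (2 : ℝ) ^ (-lam l) := by
  unfold lam
  rw [one_div, Real.logb_inv, neg_neg, Real.rpow_logb (by norm_num) (by norm_num) hl]

/-- the family of arcs `(e i, e i + l i)` -/
structure Cls {ι : Type*} (N : Set ℝ) (F : Finset ι) (l e : ι → ℝ) : Prop where
  ct : N.Countable
  pos : ∀ i ∈ F, 0 < l i
  big : ∀ i ∈ F, 90 ≤ lam (l i)
  ov : ∀ L x : ℝ, 0 < L → x ∉ N → ∀ T ⊆ F,
    (∀ i ∈ T, L ≤ lam (l i) ∧ lam (l i) < 6 / 5 * L ∧ e i < x ∧ x < e i + l i) → T.card ≤ 3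

variable {ι : Type*} {N : Set ℝ} {F : Finset ι} {l e : ι → ℝ}

/-- arcs of a class with ends in a window -/
lemma Cls.near (h : Cls N F l e) {L g A B : ℝ} (hL : 0 < L) (hg : 0 < g) (hAB : A ≤ B) {T : Finset ι}
    (hT : T ⊆ F) (h1 : ∀ i ∈ T, L ≤ lam (l i) ∧ lam (l i) < 6 / 5 * L ∧ g / 2 ≤ l i ∧
      A ≤ e i ∧ e i ≤ B) : (T.card : ℝ) * (g / 2) ≤ 3 * (B - A + g / 2) := by
  classical
  have hae : ∀ᵐ x : ℝ, ∑ i ∈ T, (Ioo (e i) (e i + g / 2)).indicator (fun _ => (1 : ℝ≥0∞)) x ≤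
      (Ioo A (B + g / 2)).indicator (fun _ => (3 : ℝ≥0∞)) x := by
    have h0 : ∀ᵐ x : ℝ, x ∉ N := (measure_eq_zero_iff_ae_notMem).1 (h.ct.measure_zero volume)
    filter_upwards [h0] with x hx
    have h2 : ∑ i ∈ T, (Ioo (e i) (e i + g / 2)).indicator (fun _ => (1 : ℝ≥0∞)) x =
        ((T.filter fun i => x ∈ Ioo (e i) (e i + g / 2)).card : ℝ≥0∞) := by
      rw [Finset.card_eq_sum_ones, Nat.cast_sum, Finset.sum_filter]
      refine Finset.sum_congr rfl fun i _ => ?_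
      by_cases hi : x ∈ Ioo (e i) (e i + g / 2)
      · rw [Set.indicator_of_mem hi, if_pos hi, Nat.cast_one]
      · rw [Set.indicator_of_notMem hi, if_neg hi]
    rw [h2]
    by_cases hxw : x ∈ Ioo A (B + g / 2)
    · rw [Set.indicator_of_mem hxw]
      have h3 := h.ov L x hL hx (T.filter fun i => x ∈ Ioo (e i) (e i + g / 2))
        ((Finset.filter_subset _ _).trans hT) (by
          intro i hi
          obtain ⟨hi1, hi2⟩ := Finset.mem_filter.1 hi
          obtain ⟨a1, a2, a3, -, -⟩ := h1 i hi1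
          exact ⟨a1, a2, hi2.1, by linarith [hi2.2]⟩)
      exact_mod_cast h3
    · rw [Set.indicator_of_notMem hxw]
      have h3 : (T.filter fun i => x ∈ Ioo (e i) (e i + g / 2)) = ∅ := by
        rw [Finset.filter_eq_empty_iff]
        intro i hi hx2
        obtain ⟨-, -, -, a4, a5⟩ := h1 i hi
        exact hxw ⟨by linarith [hx2.1], by linarith [hx2.2]⟩
      rw [h3]
      simp
  have h4 := lintegral_mono_ae hae
  rw [lintegral_indicator measurableSet_Ioo, lintegral_finsetSum _ (fun i _ =>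
    (measurable_const.indicator measurableSet_Ioo))] at h4
  have h5 : ∑ i ∈ T, ∫⁻ x, (Ioo (e i) (e i + g / 2)).indicator (fun _ => (1 : ℝ≥0∞)) x =
      ENNReal.ofReal (T.card * (g / 2)) := by
    have : ∀ i ∈ T, ∫⁻ x, (Ioo (e i) (e i + g / 2)).indicator (fun _ => (1 : ℝ≥0∞)) x =
        ENNReal.ofReal (g / 2) := by
      intro i _
      rw [lintegral_indicator measurableSet_Ioo, setLIntegral_one, Real.volume_Ioo]
      congr 1
      ring
    rw [Finset.sum_congr rfl this, Finset.sum_const, nsmul_eq_mul,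
      ENNReal.ofReal_mul (by positivity), ENNReal.ofReal_natCast]
  rw [h5, setLIntegral_const, Real.volume_Ioo, show (3 : ℝ≥0∞) = ENNReal.ofReal 3 by simp,
    ← ENNReal.ofReal_mul (by norm_num)] at h4
  have h6 := (ENNReal.ofReal_le_ofReal_iff (by nlinarith)).1 h4
  linarith

/-- a class of the rays, left ends -/
lemma Cls.cls (h : Cls N F l e) {L g t : ℝ} (hL : 0 < L) (hg : 0 < g) {T : Finset ι} (hT : T ⊆ F)
    (h1 : ∀ i ∈ T, g ≤ 2 * l i ∧ |t - e i| ≤ l i ^ (5 / 4 : ℝ) + 8 * g)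
    (h2 : ∀ i ∈ T, L ≤ lam (l i) ∧ lam (l i) < 6 / 5 * L) : (T.card : ℝ) ≤ 114 := by
  classical
  have hcard := Finset.card_filter_add_card_filter_not (s := T) (fun i => l i ^ (5 / 4 : ℝ) ≤ g)
  have hnear : ((T.filter fun i => l i ^ (5 / 4 : ℝ) ≤ g).card : ℝ) ≤ 111 := by
    have h3 := h.near (T := T.filter fun i => l i ^ (5 / 4 : ℝ) ≤ g) (A := t - 9 * g)
      (B := t + 9 * g) hL hg (by linarith) ((Finset.filter_subset _ _).trans hT) (by
        intro i hi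
        obtain ⟨hi1, hi2⟩ := Finset.mem_filter.1 hi
        have h4 := (h1 i hi1).2
        rw [abs_le] at h4
        exact ⟨(h2 i hi1).1, (h2 i hi1).2, by linarith [(h1 i hi1).1], by linarith, by linarith⟩)
    have h4 : ((T.filter fun i => l i ^ (5 / 4 : ℝ) ≤ g).card : ℝ) * (g / 2) ≤ 111 * (g / 2) := by
      linarith
    exact le_of_mul_le_mul_right h4 (by positivity)
  have hfar : (T.filter fun i => ¬ l i ^ (5 / 4 : ℝ) ≤ g).card ≤ 3 := by
    rcases (T.filter fun i => ¬ l i ^ (5 / 4 : ℝ) ≤ g).eq_empty_or_nonempty with h3 | h3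
    · rw [h3]; simp
    obtain ⟨i₀, hi₀, hmin⟩ := Finset.exists_min_image _ (fun i => lam (l i)) h3
    obtain ⟨hi₀T, -⟩ := Finset.mem_filter.1 hi₀
    obtain ⟨Λ, hΛ⟩ : ∃ Λ, Λ = lam (l i₀) := ⟨_, rfl⟩
    rw [← hΛ] at hmin
    have hΛ90 : 90 ≤ Λ := by rw [hΛ]; exact h.big i₀ (hT hi₀T)
    have hΛL : L ≤ Λ := by rw [hΛ]; exact (h2 i₀ hi₀T).1
    obtain ⟨D, hD⟩ : ∃ D : ℝ, D = (2 : ℝ) ^ (-(5 / 4 * Λ)) := ⟨_, rfl⟩
    obtain ⟨b, hb⟩ : ∃ b : ℝ, b = (2 : ℝ) ^ (-(6 / 5 * Λ)) := ⟨_, rfl⟩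
    have hD0 : 0 < D := by rw [hD]; positivity
    have hDb : 18 * D < b := by
      have e1 : b = D * (2 : ℝ) ^ (Λ / 20) := by
        rw [hb, hD, ← Real.rpow_add (by norm_num)]
        congr 1
        ring
      have e2 : (18 : ℝ) < (2 : ℝ) ^ (Λ / 20) := by
        have e3 : (2 : ℝ) ^ (9 / 2 : ℝ) ≤ (2 : ℝ) ^ (Λ / 20) :=
          Real.rpow_le_rpow_of_exponent_le (by norm_num) (by linarith)
        refine lt_of_lt_of_le ?_ e3
        have e4 : (18 : ℝ) ^ (2 : ℕ) < ((2 : ℝ) ^ (9 / 2 : ℝ)) ^ (2 : ℕ) := by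
          rw [← Real.rpow_natCast ((2 : ℝ) ^ (9 / 2 : ℝ)), ← Real.rpow_mul (by norm_num)]
          norm_num
        exact lt_of_pow_lt_pow_left₀ 2 (by positivity) e4
      rw [e1]
      nlinarith
    have hmem : ∀ i ∈ T.filter (fun i => ¬ l i ^ (5 / 4 : ℝ) ≤ g), l i ^ (5 / 4 : ℝ) ≤ D ∧
        b < l i ∧ |t - e i| ≤ 9 * D := by
      intro i hi
      obtain ⟨hi1, hi2⟩ := Finset.mem_filter.1 hi
      push Not at hi2
      have p1 := h.pos i (hT hi1)
      have q1 := hmin i hi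
      have q2 := (h2 i hi1).2
      have r1 : l i ^ (5 / 4 : ℝ) ≤ D := by
        rw [hD]
        conv_lhs => rw [eq_rpow_lam p1]
        rw [← Real.rpow_mul (by norm_num)]
        exact Real.rpow_le_rpow_of_exponent_le (by norm_num) (by linarith)
      have r2 : b < l i := by
        rw [hb]
        conv_rhs => rw [eq_rpow_lam p1]
        exact Real.rpow_lt_rpow_of_exponent_lt (by norm_num) (by linarith)
      have r3 := (h1 i hi1).2
      exact ⟨r1, r2, by linarith⟩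
    obtain ⟨x, hx1, hx2⟩ : ∃ x ∈ Ioo (t + 9 * D) (t - 9 * D + b), x ∉ N := by
      by_contra hcon
      push Not at hcon
      have h4 : (Ioo (t + 9 * D) (t - 9 * D + b)).Countable := h.ct.mono hcon
      exact (Cardinal.Real.Ioo_countable_iff.not.2 (by linarith)) h4
    refine h.ov Λ x (by linarith) hx2 _ ((Finset.filter_subset _ _).trans hT) ?_
    intro i hi
    obtain ⟨r1, r2, r3⟩ := hmem i hi
    obtain ⟨hi1, -⟩ := Finset.mem_filter.1 hi
    have q2 := (h2 i hi1).2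
    rw [abs_le] at r3
    exact ⟨hmin i hi, by linarith, by linarith [hx1.1], by linarith [hx1.2]⟩
  have hfar' : ((T.filter fun i => ¬ l i ^ (5 / 4 : ℝ) ≤ g).card : ℝ) ≤ 3 := by
    exact_mod_cast hfar
  have hc : (T.card : ℝ) = ((T.filter fun i => l i ^ (5 / 4 : ℝ) ≤ g).card : ℝ) +
      (T.filter fun i => ¬ l i ^ (5 / 4 : ℝ) ≤ g).card := by
    exact_mod_cast hcard.symm
  linarith

/-- a block of the rays, left ends -/
lemma Cls.block (h : Cls N F l e) {g t : ℝ} (hg : 0 < g) {T : Finset ι} (hT : T ⊆ F)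
    (h1 : ∀ i ∈ T, g ≤ 2 * l i ∧ |t - e i| ≤ l i ^ (5 / 4 : ℝ) + 8 * g)
    (h2 : ∀ i ∈ T, ∀ j ∈ T, lam (l i) ≤ 3 / 2 * lam (l j)) : (T.card : ℝ) ≤ 342 := by
  classical
  rcases T.eq_empty_or_nonempty with rfl | h3
  · simp
  obtain ⟨i₀, hi₀, hmin⟩ := Finset.exists_min_image _ (fun i => lam (l i)) h3
  obtain ⟨Λ, hΛ⟩ : ∃ Λ, Λ = lam (l i₀) := ⟨_, rfl⟩
  have hΛ90 : 90 ≤ Λ := by rw [hΛ]; exact h.big i₀ (hT hi₀)
  have key : ∀ L : ℝ, 0 < L →
      ((T.filter fun i => L ≤ lam (l i) ∧ lam (l i) < 6 / 5 * L).card : ℝ) ≤ 114 := by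
    intro L hL
    exact h.cls hL hg ((Finset.filter_subset _ _).trans hT)
      (fun i hi => h1 i (Finset.mem_filter.1 hi).1) (fun i hi => (Finset.mem_filter.1 hi).2)
  have hsub : T ⊆ (T.filter fun i => Λ ≤ lam (l i) ∧ lam (l i) < 6 / 5 * Λ) ∪
      ((T.filter fun i => 6 / 5 * Λ ≤ lam (l i) ∧ lam (l i) < 6 / 5 * (6 / 5 * Λ)) ∪
      (T.filter fun i => 36 / 25 * Λ ≤ lam (l i) ∧ lam (l i) < 6 / 5 * (36 / 25 * Λ))) := by
    intro i hi
    have a1 := hmin i hi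
    have a2 := h2 i hi i₀ hi₀
    rw [← hΛ] at a1 a2
    simp only [Finset.mem_union, Finset.mem_filter]
    rcases lt_or_ge (lam (l i)) (6 / 5 * Λ) with b1 | b1
    · exact Or.inl ⟨hi, a1, b1⟩
    rcases lt_or_ge (lam (l i)) (36 / 25 * Λ) with b2 | b2
    · exact Or.inr (Or.inl ⟨hi, b1, by linarith⟩)
    · exact Or.inr (Or.inr ⟨hi, b2, by linarith⟩)
  have h4 : (T.card : ℝ) ≤ ((T.filter fun i => Λ ≤ lam (l i) ∧ lam (l i) < 6 / 5 * Λ).card : ℝ) +
      (((T.filter fun i => 6 / 5 * Λ ≤ lam (l i) ∧ lam (l i) < 6 / 5 * (6 / 5 * Λ)).card : ℝ) +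
      ((T.filter fun i => 36 / 25 * Λ ≤ lam (l i) ∧ lam (l i) < 6 / 5 * (36 / 25 * Λ)).card : ℝ)) := by
    exact_mod_cast (Finset.card_le_card hsub).trans ((Finset.card_union_le _ _).trans
      (Nat.add_le_add_left (Finset.card_union_le _ _) _))
  have k1 := key Λ (by linarith)
  have k2 := key (6 / 5 * Λ) (by linarith)
  have k3 := key (36 / 25 * Λ) (by linarith)
  linarith

/-- the multiplicity, left ends -/
theorem Cls.mult (h : Cls N F l e) {g t : ℝ} (hg : 0 < g) {S : Finset ι} (hS : S ⊆ F)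
    (h1 : ∀ i ∈ S, g ≤ 2 * l i ∧ |t - e i| ≤ l i ^ (5 / 4 : ℝ) + 8 * g) :
    ∑ i ∈ S, 1 / Cap.bet (16 * lam (l i)) g ≤ 10 ^ 5 := by
  classical
  rcases S.eq_empty_or_nonempty with rfl | ⟨i₁, hi₁⟩
  · rw [Finset.sum_empty]; positivity
  obtain ⟨X, hX⟩ : ∃ X, X = Real.logb 2 (1 / g) + 1 := ⟨_, rfl⟩
  have hle : ∀ i ∈ S, lam (l i) ≤ X := by
    intro i hi
    have h2 := (h1 i hi).1
    have h3 : g / 2 ≤ l i := by linarith
    have h4 := lam_anti (by positivity) h3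
    have h5 : lam (g / 2) = X := by
      unfold lam
      rw [hX, one_div_div, one_div, Real.logb_div (by norm_num) hg.ne', Real.logb_inv,
        Real.logb_self_eq_one (by norm_num)]
      ring
    rw [h5] at h4
    exact h4
  have hXbig : 90 ≤ X := (h.big i₁ (hS hi₁)).trans (hle i₁ hi₁)
  have h2 := block_sum (fun i => lam (l i)) 342 (by norm_num) S.card S le_rfl
    (fun i hi => by have := h.big i (hS hi); linarith)
    (fun T hT hT2 => h.block hg (hT.trans hS) (fun i hi => h1 i (hT hi)) hT2) X hle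
  have h3 : ∑ i ∈ S, 1 / Cap.bet (16 * lam (l i)) g ≤
      ∑ i ∈ S, 2 * (lam (l i) / X) ^ ((1 : ℝ) / 8) := by
    refine Finset.sum_le_sum fun i hi => ?_
    have b1 := h.big i (hS hi)
    have h4 : (X / (256 * lam (l i))) ^ ((1 : ℝ) / 8) ≤ Cap.bet (16 * lam (l i)) g := by
      unfold Cap.bet
      refine Real.rpow_le_rpow (by positivity) ?_ (by norm_num)
      refine le_trans ?_ (le_max_right _ _)
      have e1 : Real.logb 2 (1 / g) = X - 1 := by rw [hX]; ring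
      rw [e1, div_le_div_iff₀ (by positivity) (by positivity)]
      nlinarith
    have h5 : 0 < (X / (256 * lam (l i))) ^ ((1 : ℝ) / 8) := by positivity
    have h6 : 1 / Cap.bet (16 * lam (l i)) g ≤ 1 / (X / (256 * lam (l i))) ^ ((1 : ℝ) / 8) :=
      one_div_le_one_div_of_le h5 h4
    refine h6.trans (le_of_eq ?_)
    rw [one_div, ← Real.inv_rpow (by positivity), inv_div]
    have e2 : 256 * lam (l i) / X = (2 : ℝ) ^ (8 : ℕ) * (lam (l i) / X) := by ring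
    rw [e2, Real.mul_rpow (by positivity) (by positivity), ← Real.rpow_natCast,
      ← Real.rpow_mul (by norm_num)]
    norm_num
  rw [← Finset.mul_sum] at h3
  linarith

/-- the reflected family -/
lemma Cls.refl (h : Cls N F l e) : Cls ((fun x => -x) ⁻¹' N) F l (fun i => -(e i + l i)) where
  ct := by
    have : (fun x : ℝ => -x) ⁻¹' N = (fun x => -x) '' N := by
      ext x
      constructor
      · intro hx
        exact ⟨-x, hx, neg_neg x⟩
      · rintro ⟨y, hy, rfl⟩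
        show -(-y) ∈ N
        rwa [neg_neg]
    rw [this]
    exact h.ct.image _
  pos := h.pos
  big := h.big
  ov := by
    intro L x hL hx T hT hT2
    refine h.ov L (-x) hL hx T hT fun i hi => ?_
    obtain ⟨a1, a2, a3, a4⟩ := hT2 i hi
    exact ⟨a1, a2, by linarith, by linarith⟩

/-- the multiplicity, right ends -/
theorem Cls.mult' (h : Cls N F l e) {g t : ℝ} (hg : 0 < g) {S : Finset ι} (hS : S ⊆ F)
    (h1 : ∀ i ∈ S, g ≤ 2 * l i ∧ |t - (e i + l i)| ≤ l i ^ (5 / 4 : ℝ) + 8 * g) :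
    ∑ i ∈ S, 1 / Cap.bet (16 * lam (l i)) g ≤ 10 ^ 5 := by
  refine h.refl.mult (t := -t) hg hS fun i hi => ⟨(h1 i hi).1, ?_⟩
  have := (h1 i hi).2
  rw [← abs_neg] at this
  refine le_trans (le_of_eq ?_) this
  congr 1
  ring

lemma lg_eq_lam (l : ℝ) : lg l = lam l := rfl

lemma RayE_eq (e l : ℝ) : RayE e l = Cap.rayE (16 * lam l) e (l ^ (5 / 4 : ℝ)) l := rfl

lemma RayE_shift (e l : ℝ) (k : ℤ) : RayE (e + k) l = RayE e l := by
  rw [RayE_eq, RayE_eq]
  exact Cap.rayE_shift _ _ _ _ _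

lemma lam_big {l : ℝ} (h0 : 0 < l) (h1 : l ≤ 1 / 2 ^ 90) : 90 ≤ lam l := by
  have h2 := lam_anti h0 h1
  have h3 : lam (1 / 2 ^ 90) = 90 := by
    unfold lam
    rw [one_div_one_div, Real.logb_pow, Real.logb_self_eq_one (by norm_num)]
    norm_num
  rwa [h3] at h2

/-- **M** -/
theorem m_class : M_class := by
  classical
  refine ⟨10 ^ 11, fun ι F e ℓ hℓ hov => ?_⟩
  obtain ⟨N, hN⟩ : ∃ N : Set ℝ, N = ⋃ i ∈ F, ⋃ k : ℤ, {e i - k, e i + ℓ i - k} := ⟨_, rfl⟩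
  have hNc : N.Countable := by
    rw [hN]
    exact F.countable_toSet.biUnion fun i _ => countable_iUnion fun k =>
      (Set.toFinite _).countable
  -- every choice of shifts
  have hcls : ∀ κ : ι → ℤ, Cls N F ℓ (fun i => e i - κ i) := by
    intro κ
    refine ⟨hNc, fun i hi => (hℓ i hi).1, fun i hi => lam_big (hℓ i hi).1 (hℓ i hi).2, ?_⟩
    intro L x hL hx T hT hT2
    refine hov L x hL ?_ T hT fun i hi => ?_
    · intro i hi k
      constructor
      · intro he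
        refine hx ?_
        rw [hN]
        refine mem_iUnion₂.2 ⟨i, hi, mem_iUnion.2 ⟨k, Or.inl ?_⟩⟩
        linarith
      · intro he
        refine hx ?_
        rw [hN]
        refine mem_iUnion₂.2 ⟨i, hi, mem_iUnion.2 ⟨k, Or.inr ?_⟩⟩
        show x = e i + ℓ i - k
        linarith
    · obtain ⟨a1, a2, a3, a4⟩ := hT2 i hi
      exact ⟨a1, a2, κ i, by linarith, by linarith⟩
  have hsm : ∀ i ∈ F, ℓ i ≤ 1 / 1000 ∧ ℓ i ^ (5 / 4 : ℝ) ≤ 1 / 1000 := by
    intro i hi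
    obtain ⟨h1, h2⟩ := hℓ i hi
    have h3 : ℓ i ≤ 1 / 1000 := h2.trans (by norm_num)
    refine ⟨h3, le_trans ?_ h3⟩
    have := Real.rpow_le_rpow_of_exponent_ge h1 (by linarith) (show (1 : ℝ) ≤ 5 / 4 by norm_num)
    rwa [Real.rpow_one] at this
  have hStrip : ∀ i ∈ F, ∀ f : ℝ, 0 ≤ f → f < 1 → Cap.RS f (ℓ i ^ (5 / 4 : ℝ)) (ℓ i) ⊆ Cap.St := by
    rintro i hi f hf0 hf1 z ⟨h1, h2, h3⟩
    obtain ⟨h4, h5⟩ := hsm i hi
    have h6 := (hℓ i hi).1
    have hpi := Real.pi_gt_three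
    rw [abs_le] at h3
    have h8 : z.im / (2 * Real.pi) < 2 := by linarith
    have h9 : -1 < z.im / (2 * Real.pi) := by linarith
    rw [div_lt_iff₀ (by positivity)] at h8
    rw [lt_div_iff₀ (by positivity)] at h9
    have : Real.pi < 3.15 := Real.pi_lt_d2
    exact ⟨h1, by linarith, by linarith, by linarith⟩
  have hfin : ENNReal.ofReal (10 ^ 5) * Cap.en Cap.St ≤ ENNReal.ofReal (10 ^ 11) := by
    have h1 : Cap.en Cap.St ≤ 10 ^ 6 := Cap.c_energy
    calc ENNReal.ofReal (10 ^ 5) * Cap.en Cap.St ≤ ENNReal.ofReal (10 ^ 5) * 10 ^ 6 :=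
          mul_le_mul' le_rfl h1
      _ = ENNReal.ofReal (10 ^ 5) * ENNReal.ofReal (10 ^ 6) := by norm_num
      _ = ENNReal.ofReal (10 ^ 11) := by
          rw [← ENNReal.ofReal_mul (by norm_num)]
          norm_num
  constructor
  · have hc := hcls fun i => ⌊e i⌋
    have h1 : ∀ i ∈ F, RayE (e i) (ℓ i) = ∫⁻ z in Cap.RS (Int.fract (e i)) (ℓ i ^ (5 / 4 : ℝ)) (ℓ i),
        ENNReal.ofReal (‖deriv cOf z‖ ^ 2 / Cap.bet (16 * lam (ℓ i)) z.re) := by
      intro i _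
      have h2 : e i = Int.fract (e i) + (⌊e i⌋ : ℤ) := (Int.fract_add_floor (e i)).symm
      conv_lhs => rw [h2]
      rw [RayE_shift]
      rfl
    rw [Finset.sum_congr rfl h1]
    refine le_trans (sum_en_le F _ _ (fun i _ => Cap.meas_RS _ _ _) (fun i hi => hStrip i hi _
      (Int.fract_nonneg _) (Int.fract_lt_one _)) (fun i _ z _ => bet_pos _ _) (10 ^ 5) ?_) hfin
    rintro z ⟨hz, -, -, -⟩ T hT hT2
    refine hc.mult (t := z.im / (2 * Real.pi)) hz hT fun i hi => ?_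
    obtain ⟨-, b2, b3⟩ := hT2 i hi
    exact ⟨b2, b3⟩
  · have hc := hcls fun i => ⌊e i + ℓ i⌋
    have h1 : ∀ i ∈ F, RayE (e i + ℓ i) (ℓ i) =
        ∫⁻ z in Cap.RS (Int.fract (e i + ℓ i)) (ℓ i ^ (5 / 4 : ℝ)) (ℓ i),
        ENNReal.ofReal (‖deriv cOf z‖ ^ 2 / Cap.bet (16 * lam (ℓ i)) z.re) := by
      intro i _
      have h2 : e i + ℓ i = Int.fract (e i + ℓ i) + (⌊e i + ℓ i⌋ : ℤ) :=
        (Int.fract_add_floor (e i + ℓ i)).symm
      conv_lhs => rw [h2]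
      rw [RayE_shift]
      rfl
    rw [Finset.sum_congr rfl h1]
    refine le_trans (sum_en_le F _ _ (fun i _ => Cap.meas_RS _ _ _) (fun i hi => hStrip i hi _
      (Int.fract_nonneg _) (Int.fract_lt_one _)) (fun i _ z _ => bet_pos _ _) (10 ^ 5) ?_) hfin
    rintro z ⟨hz, -, -, -⟩ T hT hT2
    refine hc.mult' (t := z.im / (2 * Real.pi)) hz hT fun i hi => ?_
    obtain ⟨-, b2, b3⟩ := hT2 i hi
    refine ⟨b2, ?_⟩
    have e1 : e i - (⌊e i + ℓ i⌋ : ℤ) + ℓ i = Int.fract (e i + ℓ i) := by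
      rw [Int.fract]
      ring
    show |z.im / (2 * Real.pi) - (e i - (⌊e i + ℓ i⌋ : ℤ) + ℓ i)| ≤ _
    rw [e1]
    exact b3

end Pool.Agent.Work.MLC.Shp
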