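import Pool.Agent.Work.MLC.Shp0
import Pool.Agent.Work.MLC.CntL54

set_option autoImplicit false

/-! # Theorem CAP: a subfamily of the pieces with the same angles and overlap at most three
(helper31) -/

namespace Pool.Agent.Work.MLC.Shp

open Filter Topology Metric Set Complex MeasureTheory
open Pool.Agent.Work.MLC.Sat Pool.Agent.Work.MLC.Cnt
open scoped ENNReal

theorem chain_max {ι X : Type} (U : ι → Set X) (T : Finset ι) (hT : T.Nonempty)
    (h : ∀ i ∈ T, ∀ j ∈ T, U i ⊆ U j ∨ U j ⊆ U i) : ∃ a ∈ T, ∀ j ∈ T, U j ⊆ U a := by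
  classical
  induction hT using Finset.Nonempty.cons_induction with
  | singleton a => exact ⟨a, by simp, by simp⟩
  | cons a s ha hs ih =>
    obtain ⟨b, hb, hb'⟩ := ih fun i hi j hj => h i (Finset.mem_cons_of_mem hi) j
      (Finset.mem_cons_of_mem hj)
    rcases h a (Finset.mem_cons_self a s) b (Finset.mem_cons_of_mem hb) with hab | hab
    · refine ⟨b, Finset.mem_cons_of_mem hb, fun j hj => ?_⟩
      rcases Finset.mem_cons.mp hj with rfl | hj
      · exact hab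
      · exact hb' j hj
    · refine ⟨a, Finset.mem_cons_self a s, fun j hj => ?_⟩
      rcases Finset.mem_cons.mp hj with rfl | hj
      · exact subset_rfl
      · exact (hb' j hj).trans hab

theorem chain_min {ι X : Type} (U : ι → Set X) (T : Finset ι) (hT : T.Nonempty)
    (h : ∀ i ∈ T, ∀ j ∈ T, U i ⊆ U j ∨ U j ⊆ U i) : ∃ a ∈ T, ∀ j ∈ T, U a ⊆ U j := by
  obtain ⟨a, ha, h2⟩ := chain_max (fun i => (U i)ᶜ) T hT fun i hi j hj => by
    rcases h i hi j hj with h1 | h1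
    · exact Or.inr (Set.compl_subset_compl.mpr h1)
    · exact Or.inl (Set.compl_subset_compl.mpr h1)
  exact ⟨a, ha, fun j hj => Set.compl_subset_compl.mp (h2 j hj)⟩

/-- three of the pieces through one point cover all of them -/
theorem sub_three {ι X : Type} (T : Finset ι) (U V : ι → Set X)
    (h1 : ∀ i ∈ T, ∀ j ∈ T, U i ⊆ U j ∨ U j ⊆ U i ∨ Disjoint (U i) (U j))
    (h2 : ∀ i ∈ T, ∀ j ∈ T, U i ⊆ V j ∨ V j ⊆ U i ∨ Disjoint (U i) (V j))
    (h3 : ∀ i ∈ T, ∀ j ∈ T, V i ⊆ V j ∨ V j ⊆ V i ∨ Disjoint (V i) (V j))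
    (x : X) (hx : ∀ i ∈ T, x ∈ U i ∧ x ∉ V i) :
    ∃ T0 ⊆ T, T0.card ≤ 3 ∧ ∀ j ∈ T, ∀ y, y ∈ U j → y ∉ V j → ∃ i ∈ T0, y ∈ U i ∧ y ∉ V i := by
  classical
  rcases T.eq_empty_or_nonempty with rfl | hT
  · exact ⟨∅, by simp, by simp, by simp⟩
  obtain ⟨a, ha, hmax⟩ := chain_max U T hT fun i hi j hj => by
    rcases h1 i hi j hj with h | h | h
    · exact Or.inl h
    · exact Or.inr h
    · exact (Set.disjoint_left.mp h (hx i hi).1 (hx j hj).1).elim
  set J := T.filter fun j => ∃ y, y ∈ U j ∧ y ∉ V j ∧ y ∈ V a with hJ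
  have hJT : ∀ j ∈ J, j ∈ T := fun j hj => (Finset.mem_filter.mp hj).1
  have hVU : ∀ j ∈ J, V a ⊆ U j := by
    intro j hj
    obtain ⟨hjT, y, hy1, hy2, hy3⟩ := Finset.mem_filter.mp hj
    rcases h2 j hjT a ha with h | h | h
    · exact ((hx a ha).2 (h (hx j hjT).1)).elim
    · exact h
    · exact (Set.disjoint_left.mp h hy1 hy3).elim
  rcases J.eq_empty_or_nonempty with hJe | hJne
  · refine ⟨{a}, by simpa using ha, by simp, fun j hj y hy1 hy2 => ⟨a, by simp, hmax j hj hy1, ?_⟩⟩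
    intro hy3
    have : j ∈ J := Finset.mem_filter.mpr ⟨hj, y, hy1, hy2, hy3⟩
    rw [hJe] at this
    exact absurd this (Finset.notMem_empty j)
  · by_cases hc : ∃ b ∈ J, ∃ c ∈ J, Disjoint (V b) (V c)
    · obtain ⟨b, hb, c, hc, hbc⟩ := hc
      refine ⟨{a, b, c}, ?_, Finset.card_le_three, fun j hj y hy1 hy2 => ?_⟩
      · intro i hi
        simp only [Finset.mem_insert, Finset.mem_singleton] at hi
        rcases hi with rfl | rfl | rfl
        · exact ha
        · exact hJT _ hb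
        · exact hJT _ hc
      · by_cases hya : y ∈ V a
        · by_cases hyb : y ∈ V b
          · exact ⟨c, by simp, hVU c hc hya, Set.disjoint_left.mp hbc hyb⟩
          · exact ⟨b, by simp, hVU b hb hya, hyb⟩
        · exact ⟨a, by simp, hmax j hj hy1, hya⟩
    · push Not at hc
      obtain ⟨b, hb, hmin⟩ := chain_min V J hJne fun i hi j hj => by
        rcases h3 i (hJT i hi) j (hJT j hj) with h | h | h
        · exact Or.inl h
        · exact Or.inr h
        · exact (hc i hi j hj h).elim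
      refine ⟨{a, b}, ?_, Finset.card_le_two.trans (by norm_num), fun j hj y hy1 hy2 => ?_⟩
      · intro i hi
        simp only [Finset.mem_insert, Finset.mem_singleton] at hi
        rcases hi with rfl | rfl
        · exact ha
        · exact hJT _ hb
      · by_cases hya : y ∈ V a
        · have hjJ : j ∈ J := Finset.mem_filter.mpr ⟨hj, y, hy1, hy2, hya⟩
          exact ⟨b, by simp, hVU b hb hya, fun h => hy2 (hmin j hjJ h)⟩
        · exact ⟨a, by simp, hmax j hj hy1, hya⟩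

/-- a subfamily with the same union and overlap at most three -/
theorem sub_abs {ι X : Type} (F : Finset ι) (U V : ι → Set X)
    (h1 : ∀ i ∈ F, ∀ j ∈ F, U i ⊆ U j ∨ U j ⊆ U i ∨ Disjoint (U i) (U j))
    (h2 : ∀ i ∈ F, ∀ j ∈ F, U i ⊆ V j ∨ V j ⊆ U i ∨ Disjoint (U i) (V j))
    (h3 : ∀ i ∈ F, ∀ j ∈ F, V i ⊆ V j ∨ V j ⊆ V i ∨ Disjoint (V i) (V j)) :
    ∃ F' ⊆ F, (∀ x, ∀ i ∈ F, x ∈ U i → x ∉ V i → ∃ j ∈ F', x ∈ U j ∧ x ∉ V j) ∧
      ∀ x, ∀ T ⊆ F', (∀ i ∈ T, x ∈ U i ∧ x ∉ V i) → T.card ≤ 3 := by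
  classical
  set Q := F.powerset.filter fun G =>
    ∀ x, ∀ i ∈ F, x ∈ U i → x ∉ V i → ∃ j ∈ G, x ∈ U j ∧ x ∉ V j with hQ
  have hQne : Q.Nonempty := ⟨F, Finset.mem_filter.mpr ⟨Finset.mem_powerset_self F,
    fun x i hi h h' => ⟨i, hi, h, h'⟩⟩⟩
  obtain ⟨G, hG, hmin⟩ := Finset.exists_min_image Q Finset.card hQne
  obtain ⟨hGF, hcov⟩ := Finset.mem_filter.mp hG
  rw [Finset.mem_powerset] at hGF
  refine ⟨G, hGF, hcov, fun x T hT hx => ?_⟩
  by_contra hcard
  push Not at hcard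
  have hTF : ∀ i ∈ T, i ∈ F := fun i hi => hGF (hT hi)
  obtain ⟨T0, hT0, hT0c, hT0cov⟩ := sub_three T U V
    (fun i hi j hj => h1 i (hTF i hi) j (hTF j hj))
    (fun i hi j hj => h2 i (hTF i hi) j (hTF j hj))
    (fun i hi j hj => h3 i (hTF i hi) j (hTF j hj)) x hx
  obtain ⟨c, hcT, hcT0⟩ : ∃ c ∈ T, c ∉ T0 := by
    by_contra hcon
    push Not at hcon
    exact absurd ((Finset.card_le_card hcon).trans hT0c) (not_le.mpr hcard)
  have hcG : c ∈ G := hT hcT
  have hmem : G.erase c ∈ Q := by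
    refine Finset.mem_filter.mpr ⟨Finset.mem_powerset.mpr ((Finset.erase_subset c G).trans hGF),
      fun y i hi hy1 hy2 => ?_⟩
    obtain ⟨j, hj, hj1, hj2⟩ := hcov y i hi hy1 hy2
    by_cases hjc : j = c
    · subst hjc
      obtain ⟨k, hk, hk1, hk2⟩ := hT0cov j hcT y hj1 hj2
      exact ⟨k, Finset.mem_erase.mpr ⟨fun h => hcT0 (h ▸ hk), hT (hT0 hk)⟩, hk1, hk2⟩
    · exact ⟨j, Finset.mem_erase.mpr ⟨hjc, hj⟩, hj1, hj2⟩
  have := hmin _ hmem
  rw [Finset.card_erase_of_mem hcG] at this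
  have hpos : 0 < G.card := Finset.card_pos.mpr ⟨c, hcG⟩
  omega

/-- the open arc modulo one -/
theorem isOpen_arc (a b : ℝ) : IsOpen {θ : ℝ | ∃ k : ℤ, a < θ + k ∧ θ + k < b} := by
  have : {θ : ℝ | ∃ k : ℤ, a < θ + k ∧ θ + k < b} =
      ⋃ k : ℤ, (fun θ : ℝ => θ + k) ⁻¹' Set.Ioo a b := by
    ext θ
    simp only [Set.mem_ofPred_eq, Set.mem_iUnion, Set.mem_preimage, Set.mem_Ioo]
  rw [this]
  exact isOpen_iUnion fun k => isOpen_Ioo.preimage (by fun_prop)

/-- the closed arc modulo one -/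
theorem isClosed_arc (a b : ℝ) : IsClosed {θ : ℝ | ∃ k : ℤ, a ≤ θ + k ∧ θ + k ≤ b} := by
  have : {θ : ℝ | ∃ k : ℤ, a ≤ θ + k ∧ θ + k ≤ b} =
      ⋃ k : ℤ, Set.Icc (a - k) (b - k) := by
    ext θ
    simp only [Set.mem_ofPred_eq, Set.mem_iUnion, Set.mem_Icc]
    exact exists_congr fun k => ⟨fun h => ⟨by linarith, by linarith⟩,
      fun h => ⟨by linarith, by linarith⟩⟩
  rw [this]
  refine LocallyFinite.isClosed_iUnion ?_ fun k => isClosed_Icc
  intro x
  refine ⟨Set.Icc (x - 1) (x + 1), Icc_mem_nhds (by linarith) (by linarith), ?_⟩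
  refine (Set.finite_Icc (⌊a - x - 1⌋) (⌈b - x + 1⌉)).subset fun k hk => ?_
  obtain ⟨y, hy1, hy2⟩ := hk
  rw [Set.mem_Icc] at hy1 hy2 ⊢
  constructor
  · rw [Int.floor_le_iff] <;> linarith
  · rw [Int.le_ceil_iff] <;> linarith


/-- the arcs of two roots are nested or disjoint -/
theorem inA_lam {D D' : Dat} (hP : D.Par) (hC : D.Cir) (hP' : D'.Par) (hC' : D'.Cir) :
    (∀ θ, InA D θ → InA D' θ) ∨ (∀ θ, InA D' θ → InA D θ) ∨ ∀ θ, InA D θ → ¬ InA D' θ := by
  by_cases he : rt D = rt D'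
  · obtain ⟨k, h1, h2⟩ := plateau_unique n2_ray hP hC hP' hC' he
    refine Or.inl fun θ => ?_
    rintro ⟨j, g1, g2⟩
    refine ⟨j - k, ?_, ?_⟩ <;> push_cast <;> linarith
  · by_cases hd : ∀ θ, InA D θ → ¬ InA D' θ
    · exact Or.inr (Or.inr hd)
    · push Not at hd
      obtain ⟨θ, ⟨k1, a1, a2⟩, ⟨k2, b1, b2⟩⟩ := hd
      rcases laminar60 hP hC hP' hC' he (k1 - k2) with h | h
      · refine Or.inr (Or.inl fun φ => ?_)
        rintro ⟨j, g1, g2⟩
        refine ⟨j + (k1 - k2), ?_, ?_⟩ <;> push_cast at h ⊢ <;> linarith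
      · refine Or.inl fun φ => ?_
        rintro ⟨j, g1, g2⟩
        push_cast at h
        have e1 : D'.tm + (k1 - k2) < D.tm := by
          rcases h.1 with h | h
          · exact h
          · linarith
        have e2 : D.tp < D'.tp + (k1 - k2) := by
          rcases h.2 with h | h
          · linarith
          · exact h
        refine ⟨j - (k1 - k2), ?_, ?_⟩ <;> push_cast <;> linarith

theorem s_sub : S_sub := by
  intro ι F P hOk
  classical
  set Θ : Set ℝ := {θ | ∀ i ∈ F, ¬ (P i).End θ} with hΘ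
  set U : ι → Set ℝ := fun i => {θ | θ ∈ Θ ∧ InA (P i).U θ} with hU
  set V : ι → Set ℝ := fun i => {θ | θ ∈ Θ ∧ (P i).two ∧ InA (P i).V θ} with hV
  have par : ∀ i ∈ F, (P i).U.Par ∧ (P i).U.Cir := fun i hi =>
    ⟨WS.dat_par (hOk i hi).ok (hOk i hi).x_pos (hOk i hi).x_lt,
      WS.dat_cir (hOk i hi).ok (hOk i hi).x_pos (hOk i hi).x_lt⟩
  have par' : ∀ i ∈ F, (P i).two → (P i).V.Par ∧ (P i).V.Cir := fun i hi h =>
    ⟨WS.dat_par ((hOk i hi).nest h).ok' (by norm_num) (by norm_num),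
      WS.dat_cir ((hOk i hi).nest h).ok' (by norm_num) (by norm_num)⟩
  have hA : ∀ i ∈ F, ∀ θ ∈ Θ, θ ∈ (P i).A ↔ θ ∈ U i ∧ θ ∉ V i := by
    intro i hi θ hθ
    constructor
    · rintro ⟨h1, h2⟩
      refine ⟨⟨hθ, h1⟩, ?_⟩
      rintro ⟨_, h3, k, h4, h5⟩
      exact h2 h3 k ⟨h4.le, h5.le⟩
    · rintro ⟨⟨_, h1⟩, h2⟩
      refine ⟨h1, fun h3 k hk => h2 ⟨hθ, h3, k, ?_, ?_⟩⟩
      · exact lt_of_le_of_ne hk.1 fun h => hθ i hi ⟨k, Or.inr (Or.inr ⟨h3, Or.inl h.symm⟩)⟩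
      · exact lt_of_le_of_ne hk.2 fun h => hθ i hi ⟨k, Or.inr (Or.inr ⟨h3, Or.inr h⟩)⟩
  obtain ⟨F', hF', hcov, hov⟩ := sub_abs F U V
    (by
      intro i hi j hj
      rcases inA_lam (par i hi).1 (par i hi).2 (par j hj).1 (par j hj).2 with h | h | h
      · exact Or.inl fun θ hθ => ⟨hθ.1, h θ hθ.2⟩
      · exact Or.inr (Or.inl fun θ hθ => ⟨hθ.1, h θ hθ.2⟩)
      · exact Or.inr (Or.inr (Set.disjoint_left.mpr fun θ h1 h2 => h θ h1.2 h2.2)))
    (by
      intro i hi j hj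
      by_cases h2 : (P j).two
      · rcases inA_lam (par i hi).1 (par i hi).2 (par' j hj h2).1 (par' j hj h2).2 with h | h | h
        · exact Or.inl fun θ hθ => ⟨hθ.1, h2, h θ hθ.2⟩
        · exact Or.inr (Or.inl fun θ hθ => ⟨hθ.1, h θ hθ.2.2⟩)
        · exact Or.inr (Or.inr (Set.disjoint_left.mpr fun θ h1 h2 => h θ h1.2 h2.2.2))
      · exact Or.inr (Or.inl fun θ hθ => absurd hθ.2.1 h2))
    (by
      intro i hi j hj
      by_cases h1 : (P i).two
      · by_cases h2 : (P j).two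
        · rcases inA_lam (par' i hi h1).1 (par' i hi h1).2 (par' j hj h2).1 (par' j hj h2).2
            with h | h | h
          · exact Or.inl fun θ hθ => ⟨hθ.1, h2, h θ hθ.2.2⟩
          · exact Or.inr (Or.inl fun θ hθ => ⟨hθ.1, h1, h θ hθ.2.2⟩)
          · exact Or.inr (Or.inr (Set.disjoint_left.mpr fun θ h1 h2 => h θ h1.2.2 h2.2.2))
        · exact Or.inr (Or.inl fun θ hθ => absurd hθ.2.1 h2)
      · exact Or.inl fun θ hθ => absurd hθ.2.1 h1)
  refine ⟨F', hF', ?_, ?_⟩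
  · intro θ _ T hT hθT
    have hopen : IsOpen (⋂ i ∈ T, (P i).A) := by
      refine isOpen_biInter_finset fun i _ => ?_
      have e1 : (P i).A = {θ : ℝ | ∃ k : ℤ, (P i).U.tm < θ + k ∧ θ + k < (P i).U.tp} ∩
          {θ : ℝ | (P i).two → ¬ ∃ k : ℤ, (P i).V.tm ≤ θ + k ∧ θ + k ≤ (P i).V.tp} := by
        ext φ
        simp only [Pie.A, InA, Set.mem_inter_iff, Set.mem_ofPred_eq, not_exists]
      rw [e1]
      refine (isOpen_arc _ _).inter ?_
      by_cases h2 : (P i).two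
      · simp only [h2, true_imp_iff]
        exact (isClosed_arc (P i).V.tm (P i).V.tp).isOpen_compl
      · simp only [h2, false_imp_iff]
        exact isOpen_const
    have hcount : Θᶜ.Countable := by
      have : Θᶜ ⊆ ⋃ i ∈ (F : Set ι), ⋃ k : ℤ, ({(P i).U.tm - k, (P i).U.tp - k, (P i).V.tm - k,
          (P i).V.tp - k} : Set ℝ) := by
        intro φ hφ
        rw [Set.mem_compl_iff, hΘ, Set.mem_ofPred_eq] at hφ
        push Not at hφ
        obtain ⟨i, hi, k, hk⟩ := hφ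
        simp only [Set.mem_iUnion]
        refine ⟨i, hi, k, ?_⟩
        simp only [Set.mem_insert_iff, Set.mem_singleton_iff]
        rcases hk with h | h | ⟨_, h | h⟩
        · left; linarith
        · right; left; linarith
        · right; right; left; linarith
        · right; right; right; linarith
      refine Set.Countable.mono this ?_
      refine F.countable_toSet.biUnion fun i _ => Set.countable_iUnion fun k => ?_
      exact (Set.toFinite _).countable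
    have hdense : Dense Θ := by
      have := hcount.dense_compl ℝ
      rwa [compl_compl] at this
    obtain ⟨φ, hφ1, hφ2⟩ := hdense.inter_open_nonempty _ hopen
      ⟨θ, Set.mem_iInter₂.mpr fun i hi => hθT i hi⟩
    refine hov φ T hT fun i hi => ?_
    exact (hA i (hF' (hT hi)) φ hφ2).mp (Set.mem_iInter₂.mp hφ1 i hi)
  · intro θ hθ i hi hθi
    obtain ⟨h1, h2⟩ := (hA i hi θ hθ).mp hθi
    obtain ⟨j, hj, h3, h4⟩ := hcov θ i hi h1 h2
    exact ⟨j, hj, (hA j (hF' hj) θ hθ).mpr ⟨h3, h4⟩⟩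

end Pool.Agent.Work.MLC.Shp
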