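import Pool.Agent.Work.MLC.ShpP60

set_option autoImplicit false

/-! # Theorem CAP, module T_two: the pieces of type II of a wake (helper60) -/

namespace Pool.Agent.Work.MLC.Shp

open Filter Topology Metric Set
open Pool.Agent.Work.MLC.Circ Pool.Agent.Work.MLC.Cnt CircleDeg1Lift

namespace V60

variable {m : ℕ} {α β : ℝ}

/-- the length of the arcs -/
lemma len_eq (m : ℕ) (α β : ℝ) (n : ℕ) : sL m α β (n + 1) - sL m α β n =
    (β - α) / 2 ^ m * ((((2 : ℝ) ^ m) ^ n + 1)⁻¹ - (((2 : ℝ) ^ m) ^ (n + 1) + 1)⁻¹) := by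
  rw [P60.sL_eq, P60.sL_eq]; ring

lemma len_eq' (m : ℕ) (α β : ℝ) (n : ℕ) : sR m α β n - sR m α β (n + 1) =
    sL m α β (n + 1) - sL m α β n := by
  rw [P60.sL_eq, P60.sL_eq, P60.sR_eq, P60.sR_eq]; ring

/-- bounds for the length -/
lemma len_bound (hW : Wake m α β) (hm : 2 ≤ m) {n : ℕ} (hn : 0 < n) :
    1 / 2 ^ ((n + 2) * m + 1) ≤ sL m α β (n + 1) - sL m α β n ∧
    sL m α β (n + 1) - sL m α β n ≤ 1 / 2 ^ ((n + 1) * m) := by
  rw [len_eq]
  obtain ⟨a, ha⟩ := hW.per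
  obtain ⟨b, hb⟩ := hW.per'
  have hab := hW.lt
  have h1 : (4 : ℝ) ≤ 2 ^ m := by
    calc (4 : ℝ) = 2 ^ 2 := by norm_num
      _ ≤ 2 ^ m := pow_le_pow_right₀ (by norm_num) hm
  have h2 : ((2 : ℝ) ^ m) ≤ ((2 : ℝ) ^ m) ^ n := by
    calc ((2 : ℝ) ^ m) = ((2 : ℝ) ^ m) ^ 1 := (pow_one _).symm
      _ ≤ ((2 : ℝ) ^ m) ^ n := pow_le_pow_right₀ (by linarith) hn
  have e1 : (2 : ℝ) ^ ((n + 2) * m + 1) = 2 * (2 ^ m) * (2 ^ m) * ((2 : ℝ) ^ m) ^ n := by
    rw [← pow_mul, show (n + 2) * m + 1 = 1 + m + m + m * n by ring, pow_add, pow_add, pow_add]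
    ring
  have e2 : (2 : ℝ) ^ ((n + 1) * m) = 2 ^ m * ((2 : ℝ) ^ m) ^ n := by
    rw [← pow_mul, show (n + 1) * m = m + m * n by ring, pow_add]
  rw [e1, e2, pow_succ]
  -- the difference
  have hδ : 1 ≤ (2 ^ m - 1) * (β - α) := by
    have f1 : (2 ^ m - 1) * (β - α) = ((b - a : ℤ) : ℝ) := by push_cast; linarith
    have f2 : (0 : ℝ) < ((b - a : ℤ) : ℝ) := by
      rw [← f1]; exact mul_pos (by linarith) (by linarith)
    have f3 : 0 < b - a := by exact_mod_cast f2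
    rw [f1]
    exact_mod_cast f3
  have hδ1 : β - α ≤ 1 := by linarith [hW.nonneg, hW.le_one]
  have hδ0 : 0 < β - α := by linarith
  generalize β - α = δ at hδ hδ1 hδ0
  generalize (2 : ℝ) ^ m = B at h1 h2 hδ
  generalize B ^ n = M at h2
  have hM : 4 ≤ M := h1.trans h2
  have hM1 : 0 < M + 1 := by linarith
  have hMB : 0 < M * B + 1 := by nlinarith
  have e3 : (M + 1)⁻¹ - (M * B + 1)⁻¹ = (B - 1) * M / ((M + 1) * (M * B + 1)) := by
    field_simp; ring
  rw [e3]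
  constructor
  · rw [div_mul_div_comm, div_le_div_iff₀ (by positivity) (by positivity)]
    have f1 : (B * ((M + 1) * (M * B + 1))) ≤ 2 * B * M * ((B - 1) * M) := by
      have : (M + 1) * (M * B + 1) ≤ 2 * M * ((B - 1) * M) := by
        nlinarith [mul_le_mul hM h1 (by norm_num) (by linarith : (0 : ℝ) ≤ M),
          mul_nonneg (by linarith : (0 : ℝ) ≤ M - 4) (by linarith : (0 : ℝ) ≤ B - 4),
          mul_nonneg (mul_nonneg (by linarith : (0 : ℝ) ≤ M - 4) (by linarith : (0 : ℝ) ≤ B - 4))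
            (by linarith : (0 : ℝ) ≤ M)]
      nlinarith
    have f2 : B * ((M + 1) * (M * B + 1)) * (B * δ) ≥ B * ((M + 1) * (M * B + 1)) := by
      have : 1 ≤ B * δ := by nlinarith
      have h9 : 0 < B * ((M + 1) * (M * B + 1)) := by positivity
      nlinarith
    have f3 : 2 * B * M * ((B - 1) * M) * (B * δ) = δ * ((B - 1) * M) * (2 * B * B * M) := by ring
    have f4 : B * ((M + 1) * (M * B + 1)) * (B * δ) ≤ 2 * B * M * ((B - 1) * M) * (B * δ) :=
      mul_le_mul_of_nonneg_right f1 (by positivity)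
    linarith
  · rw [div_mul_div_comm, div_le_div_iff₀ (by positivity) (by positivity)]
    have f1 : δ * ((B - 1) * M) ≤ (B - 1) * M := by
      have : 0 ≤ (B - 1) * M := mul_nonneg (by linarith) (by linarith)
      nlinarith
    have f2 : δ * ((B - 1) * M) * (B * M) ≤ (B - 1) * M * (B * M) :=
      mul_le_mul_of_nonneg_right f1 (by positivity)
    have f3 : (B - 1) * M * (B * M) ≤ 1 * (B * ((M + 1) * (M * B + 1))) := by
      nlinarith [mul_pos (show 0 < B by linarith) (show 0 < M by linarith)]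
    linarith

/-- two descriptions of an interval -/
lemma icc_eq {a b c d : ℝ} (hab : a ≤ b) (h : ∀ θ, (a ≤ θ ∧ θ ≤ b) ↔ (c ≤ θ ∧ θ ≤ d)) :
    c = a ∧ d = b := by
  have h1 := (h a).1 ⟨le_rfl, hab⟩
  have h2 := (h b).1 ⟨hab, le_rfl⟩
  have h3 := (h c).2 ⟨le_rfl, by linarith⟩
  have h4 := (h d).2 ⟨by linarith, le_rfl⟩
  constructor <;> linarith

lemma sL_le_sR (hW : Wake m α β) (hm : 2 ≤ m) (n : ℕ) : sL m α β n ≤ sR m α β n := by
  rw [P60.sL_eq, P60.sR_eq]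
  have h1 : (4 : ℝ) ≤ 2 ^ m := by
    calc (4 : ℝ) = 2 ^ 2 := by norm_num
      _ ≤ 2 ^ m := pow_le_pow_right₀ (by norm_num) hm
  have hab := hW.lt
  have h2 : 0 ≤ (((2 : ℝ) ^ m) ^ n + 1)⁻¹ := by positivity
  have h3 : (β - α) / 2 ^ m ≤ (β - α) / 4 :=
    div_le_div_of_nonneg_left (by linarith) (by norm_num) h1
  have h4 : 0 ≤ (β - α) / 2 ^ m := by
    have : 0 < β - α := by linarith
    positivity
  have h5 : (β - α) / 2 ^ m * (1 - (((2 : ℝ) ^ m) ^ n + 1)⁻¹) ≤ (β - α) / 2 ^ m := by nlinarith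
  linarith

/-- the component of the plateau -/
lemma exists_dat (hH : T_half) (hW : Wake m α β) (hm : 2 ≤ m) {n : ℕ} (hn : 0 < n) :
    ∃ W : WS, W.Ok ∧ W.m = n * m ∧ (W.dat (1 / 2)).tm = sL m α β n ∧
      (W.dat (1 / 2)).tp = sR m α β n := by
  obtain ⟨u, κ, hu, -, hpl⟩ := hH m α β hW hm n hn
  obtain ⟨W, h1, h2, h3, h4⟩ := P60.exists_ws (Nat.mul_pos hn hW.pos) hu κ
  have h5 := WS.plateau h1 (y := 1 / 2) (by norm_num) (by norm_num)
  have h6 : ∀ θ, (sL m α β n ≤ θ ∧ θ ≤ sR m α β n) ↔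
      ((W.dat (1 / 2)).tm ≤ θ ∧ θ ≤ (W.dat (1 / 2)).tp) := by
    intro θ
    rw [← h5 θ, ← hpl θ]
    unfold WS.nu
    rw [h2, h3, h4]
    push_cast
    constructor <;> intro h <;> linarith
  exact ⟨W, h1, h2, icc_eq (sL_le_sR hW hm n) h6⟩

lemma gap_le {ℓ : ℝ} {a c : ℕ} (h : 1 / 2 ^ a ≤ ℓ) (hc : 5 * a + 4 ≤ 4 * c) :
    2 / 2 ^ c ≤ ℓ ^ (5 / 4 : ℝ) := by
  have h1 : ((2 : ℝ) ^ (-(a : ℝ))) ^ (5 / 4 : ℝ) ≤ ℓ ^ (5 / 4 : ℝ) := by
    apply Real.rpow_le_rpow (by positivity) _ (by norm_num)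
    rw [Real.rpow_neg (by norm_num), Real.rpow_natCast, ← one_div]
    exact h
  refine le_trans ?_ h1
  rw [← Real.rpow_mul (by norm_num)]
  have h2 : (2 : ℝ) / 2 ^ c = 2 ^ (1 - (c : ℝ)) := by
    rw [Real.rpow_sub (by norm_num), Real.rpow_one, Real.rpow_natCast]
  rw [h2]
  apply Real.rpow_le_rpow_of_exponent_le (by norm_num)
  have : (5 * (a : ℝ) + 4) ≤ 4 * c := by exact_mod_cast hc
  linarith

lemma lg_le {ℓ : ℝ} {a : ℕ} (h : 1 / 2 ^ a ≤ ℓ) : lg ℓ ≤ a := by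
  have h0 : (0 : ℝ) < 1 / 2 ^ a := by positivity
  have h1 : 0 < ℓ := h0.trans_le h
  unfold lg
  rw [Real.logb_le_iff_le_rpow (by norm_num) (by positivity), Real.rpow_natCast]
  rw [div_le_iff₀ (by positivity)] at h
  rw [div_le_iff₀ h1]
  linarith

lemma le_lg {ℓ : ℝ} {a : ℕ} (h0 : 0 < ℓ) (h : ℓ ≤ 1 / 2 ^ a) : (a : ℝ) ≤ lg ℓ := by
  unfold lg
  rw [Real.le_logb_iff_rpow_le (by norm_num) (by positivity), Real.rpow_natCast]
  rw [le_div_iff₀ (by positivity)] at h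
  rw [le_div_iff₀ h0]
  linarith

end V60

/-- **the pieces of type II** -/
theorem t_two (hH : T_half) : T_two := by
  intro m α β n hW hm hn
  have hm2 : 2 ≤ m := by omega
  obtain ⟨W, a1, a2, a3, a4⟩ := V60.exists_dat hH hW hm2 hn
  obtain ⟨W', b1, b2, b3, b4⟩ := V60.exists_dat hH hW hm2 (n := n + 1) (by omega)
  obtain ⟨c1, c2⟩ := V60.len_bound hW hm2 hn
  have hℓ0 : 0 < sL m α β (n + 1) - sL m α β n := lt_of_lt_of_le (by positivity) c1
  have hnm : m ≤ n * m := Nat.le_mul_of_pos_left m hn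
  have hlg := V60.le_lg hℓ0 c2
  have hlg' := V60.lg_le c1
  have htwo : Two W W' ((W'.dat (1 / 2)).tm - (W.dat (1 / 2)).tm) := by
    rw [a3, b3]
    exact {
      ok := a1
      ok' := b1
      pos := hℓ0
      left := by rw [a3, b3]; ring
      right := by
        rw [a4, b4]
        have := V60.len_eq' m α β n
        linarith
      m_le := by rw [a2]; omega
      m_le' := by rw [a2, b2]; nlinarith
      le := by rw [b2]; exact hlg
      gU := by
        rw [a2]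
        refine V60.gap_le c1 ?_
        nlinarith
      gV := by
        rw [b2]
        refine V60.gap_le c1 ?_
        nlinarith }
  refine ⟨⟨W, 1 / 2, W', True⟩, ?_, trivial, a2, b2, a3, a4, b3, b4, ?_, ?_⟩
  · exact {
      ok := a1
      x_pos := by norm_num
      x_lt := by norm_num
      m_le := by rw [show (Pie.mk W (1 / 2) W' True).W = W from rfl, a2]; omega
      one := fun h => absurd trivial h
      half := fun _ => rfl
      nest := fun _ => htwo }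
  · have : (Pie.mk W (1 / 2) W' True).ℓ = sL m α β (n + 1) - sL m α β n := by
      unfold Pie.ℓ
      rw [if_pos trivial]
      show (W'.dat (1 / 2)).tm - (W.dat (1 / 2)).tm = _
      rw [a3, b3]
    rw [this]
    push_cast at hlg
    linarith
  · have : (Pie.mk W (1 / 2) W' True).ℓ = sL m α β (n + 1) - sL m α β n := by
      unfold Pie.ℓ
      rw [if_pos trivial]
      show (W'.dat (1 / 2)).tm - (W.dat (1 / 2)).tm = _
      rw [a3, b3]
    rw [this]
    push_cast at hlg'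
    linarith

end Pool.Agent.Work.MLC.Shp
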