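import Pool.Agent.Work.MLC.Shp0
import Pool.Agent.Work.MLC.ShpWa24

set_option autoImplicit false

/-! # Theorem CAP, module T2 (helper24) -/

namespace Pool.Agent.Work.MLC.Shp

theorem t_half : T_half := fun _ _ _ h hm _ hn => h.half hm hn

end Pool.Agent.Work.MLC.Shp
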