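import Pool.Agent.Work.MLC.Shp0
import Pool.Agent.Work.MLC.CntL54
import Pool.Agent.Work.MLC.CntR15

set_option autoImplicit false

/-! # Theorem CAP, stage B: the sum over the pieces of type II (helper54)

`B_sum` from the sum of the weighted areas next to the ends (`M_class`), the estimate of one piece
(`E_two`) and the sum of the areas inside the components (`H_sum`). -/

namespace Pool.Agent.Work.MLC.Shp

open Filter Topology Metric Set Complex MeasureTheory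
open Pool.Agent.Work.MLC.Sat Pool.Agent.Work.MLC.Cnt
open scoped ENNReal

namespace Z54

/-! ### pure lemmas -/

/-- geometric sum: classes of at most three elements -/
lemma class_sum {ι : Type} (T : Finset ι) (Λ : ι → ℝ) (a : ℝ) (ha : 0 < a)
    (h1 : ∀ i ∈ T, a ≤ Λ i)
    (h2 : ∀ L : ℝ, 0 < L → ∀ T' ⊆ T, (∀ i ∈ T', L ≤ Λ i ∧ Λ i < 6 / 5 * L) → T'.card ≤ 3) :
    ∑ i ∈ T, a / Λ i ≤ 18 := by
  classical
  have h3 : ∀ i, i ∈ T → ∃ n : ℕ, (6 / 5 : ℝ) ^ n ≤ Λ i / a ∧ Λ i / a < (6 / 5) ^ (n + 1) :=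
    fun i hi => exists_nat_pow_near (by rw [one_le_div ha]; exact h1 i hi) (by norm_num)
  choose! n hn using h3
  have h4 : ∀ i ∈ T, a / Λ i ≤ (5 / 6 : ℝ) ^ n i := by
    intro i hi
    have h5 := (hn i hi).1
    have e : a / Λ i = (Λ i / a)⁻¹ := by rw [inv_div]
    rw [e, show (5 / 6 : ℝ) = (6 / 5)⁻¹ by norm_num, inv_pow]
    exact inv_anti₀ (by positivity) h5
  refine (Finset.sum_le_sum h4).trans ?_
  have h5 : ∀ i ∈ T, n i ∈ Finset.range (T.sup n + 1) := fun i hi =>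
    Finset.mem_range.2 (Nat.lt_succ_of_le (Finset.le_sup hi))
  rw [← Finset.sum_fiberwise_of_maps_to h5]
  have h6 : ∀ j ∈ Finset.range (T.sup n + 1),
      ∑ i ∈ T.filter (fun i => n i = j), (5 / 6 : ℝ) ^ n i ≤ 3 * (5 / 6) ^ j := by
    intro j _
    have h7 : ∑ i ∈ T.filter (fun i => n i = j), (5 / 6 : ℝ) ^ n i =
        (T.filter (fun i => n i = j)).card * (5 / 6 : ℝ) ^ j := by
      rw [Finset.sum_congr rfl (g := fun _ => (5 / 6 : ℝ) ^ j)
        (fun i hi => by rw [(Finset.mem_filter.1 hi).2]), Finset.sum_const, nsmul_eq_mul]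
    rw [h7]
    have h8 : (T.filter (fun i => n i = j)).card ≤ 3 := by
      refine h2 (a * (6 / 5) ^ j) (by positivity) _ (Finset.filter_subset _ _) fun i hi => ?_
      obtain ⟨hiT, hij⟩ := Finset.mem_filter.1 hi
      obtain ⟨b1, b2⟩ := hn i hiT
      rw [hij, le_div_iff₀ ha] at b1
      rw [hij, div_lt_iff₀ ha, pow_succ] at b2
      constructor
      · linarith
      · linarith
    have h9 : ((T.filter (fun i => n i = j)).card : ℝ) ≤ 3 := by exact_mod_cast h8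
    exact mul_le_mul_of_nonneg_right h9 (by positivity)
  refine (Finset.sum_le_sum h6).trans ?_
  rw [← Finset.mul_sum]
  have h10 : ∑ j ∈ Finset.range (T.sup n + 1), (5 / 6 : ℝ) ^ j ≤ 6 := by
    rw [geom_sum_eq (by norm_num)]
    have h11 : 0 < (5 / 6 : ℝ) ^ (T.sup n + 1) := by positivity
    have e : ((5 / 6 : ℝ) ^ (T.sup n + 1) - 1) / (5 / 6 - 1) =
        6 - 6 * (5 / 6 : ℝ) ^ (T.sup n + 1) := by ring
    rw [e]
    linarith
  linarith

/-- representatives of the classes of a relation -/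
lemma reps {ι : Type} (F : Finset ι) (r : ι → ι → Prop) (hr : ∀ i, r i i)
    (hs : ∀ i j, r i j → r j i) (ht : ∀ i j k, r i j → r j k → r i k) :
    ∃ ρ : ι → ι, (∀ i ∈ F, ρ i ∈ F ∧ r i (ρ i)) ∧ ∀ i j, r i j → ρ i = ρ j := by
  classical
  rcases isEmpty_or_nonempty ι with h | h
  · exact ⟨id, fun i _ => (h.false i).elim, fun i => (h.false i).elim⟩
  · refine ⟨fun i => Classical.epsilon (fun j => j ∈ F ∧ r i j), fun i hi => ?_, fun i j hij => ?_⟩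
    · exact Classical.epsilon_spec (p := fun j => j ∈ F ∧ r i j) ⟨i, hi, hr i⟩
    · have e : (fun k => k ∈ F ∧ r i k) = fun k => k ∈ F ∧ r j k := by
        funext k
        exact propext ⟨fun ⟨a, b⟩ => ⟨a, ht _ _ _ (hs _ _ hij) b⟩,
          fun ⟨a, b⟩ => ⟨a, ht _ _ _ hij b⟩⟩
      simp only [e]

lemma exists_delta {ι : Type} (T : Finset ι) (f : ι → ℝ) (h : ∀ i ∈ T, 0 < f i) :
    ∃ δ > 0, ∀ i ∈ T, δ ≤ f i := by
  rcases T.eq_empty_or_nonempty with rfl | hne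
  · exact ⟨1, one_pos, fun i hi => absurd hi (Finset.notMem_empty i)⟩
  · obtain ⟨i, hi, hmin⟩ := T.exists_min_image f hne
    exact ⟨f i, h i hi, hmin⟩

/-! ### the relation of being the same component -/

lemma same_refl (W : WS) : WS.Same W W := ⟨rfl, fun _ _ => rfl⟩

lemma same_symm {W W' : WS} (h : WS.Same W W') : WS.Same W' W :=
  ⟨h.1.symm, fun L hL => (h.2 L (by rw [h.1]; exact hL)).symm⟩

lemma same_trans {W W' W'' : WS} (h : WS.Same W W') (h' : WS.Same W' W'') : WS.Same W W'' :=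
  ⟨h.1.trans h'.1, fun L hL => (h.2 L hL).trans (h'.2 L (by rw [← h.1]; exact hL))⟩

lemma half_pos : (0 : ℚ) < 1 / 2 := by norm_num

lemma half_lt : (1 / 2 : ℚ) < 1 := by norm_num

lemma hgt_nonneg (n : ℕ) (y : ℝ) : 0 ≤ Pri.hgt n y := by
  unfold Pri.hgt
  positivity

lemma hgt_pos {n : ℕ} (hn : 0 < n) {y : ℝ} (h0 : 0 < y) (h1 : y < 2 * Real.pi) :
    0 < Pri.hgt n y := by
  unfold Pri.hgt
  have h2 : 0 < min y (2 * Real.pi - y) := lt_min h0 (by linarith)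
  have h3 : (0 : ℝ) < n := by exact_mod_cast hn
  positivity

lemma same_hd {W W' : WS} (h : WS.Same W W') : Hd W (1 / 2) = Hd W' (1 / 2) := by
  unfold Hd Cap.HH
  rw [← h.1]
  refine image_congr fun L hL => h.2 L ?_
  obtain ⟨-, h2, h3⟩ := hL
  have hpi := Real.pi_pos
  have hd : (((1 / 2 : ℚ)).den : ℝ) = 2 := by norm_num
  rw [hd, abs_lt] at h3
  have hc : (((1 / 2 : ℚ)) : ℝ) = 1 / 2 := by norm_num
  rw [hc] at h3
  obtain ⟨h4, h5⟩ := h3
  have h6 : 1 / 4 < L.im / (2 * Real.pi) := by linarith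
  have h7 : L.im / (2 * Real.pi) < 3 / 4 := by linarith
  rw [lt_div_iff₀ (by positivity)] at h6
  rw [div_lt_iff₀ (by positivity)] at h7
  exact ⟨by nlinarith, by nlinarith, h2.trans_le (hgt_nonneg _ _)⟩

lemma ok_m_pos {W : WS} (h : W.Ok) : 0 < W.m := by
  have h1 := WS.dat_par h half_pos half_lt
  have h2 := h1.m_pos
  rwa [WS.dat_m h half_pos half_lt] at h2

lemma same_rt {W W' : WS} (hW : W.Ok) (hW' : W'.Ok) (h : WS.Same W W') :
    rt (W.dat (1 / 2)) = rt (W'.dat (1 / 2)) := by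
  unfold rt
  rw [WS.dat_c hW half_pos half_lt, WS.dat_c hW' half_pos half_lt,
    WS.dat_a hW half_pos half_lt, WS.dat_a hW' half_pos half_lt]
  refine h.2 _ ?_
  have hpi := Real.pi_pos
  have e1 : (axisPt (1 / 2)).im = Real.pi := by
    unfold axisPt
    simp
    ring
  have e2 : (axisPt (1 / 2)).re = 0 := by
    unfold axisPt
    simp
  refine ⟨by rw [e1]; exact hpi, by rw [e1]; linarith, ?_⟩
  rw [e1, e2]
  exact hgt_pos (ok_m_pos hW) hpi (by linarith)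

/-- the roots at `1 / 2` of the same component have the same angles modulo the integers -/
lemma same_tm {W W' : WS} (hW : W.Ok) (hW' : W'.Ok) (h : WS.Same W W') :
    ∃ k : ℤ, (W.dat (1 / 2)).tm = (W'.dat (1 / 2)).tm + k := by
  obtain ⟨k, hk, -⟩ := plateau_unique n2_ray (WS.dat_par hW half_pos half_lt)
    (WS.dat_cir hW half_pos half_lt) (WS.dat_par hW' half_pos half_lt)
    (WS.dat_cir hW' half_pos half_lt) (same_rt hW hW' h)
  exact ⟨k, hk⟩

/-! ### the sum of the areas with weights -/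

lemma vol_sum {C : ℝ} (hH : ∀ (ι : Type) (F : Finset ι) (W : ι → WS) (x : ι → ℚ),
    (∀ i ∈ F, (W i).Ok ∧ 0 < x i ∧ x i < 1) →
    (∀ i ∈ F, ∀ j ∈ F, WS.Same (W i) (W j) → x i = x j → i = j) →
    ∑ i ∈ F, volume (Hd (W i) (x i)) / (x i).den ≤ ENNReal.ofReal C)
    {ι : Type} (F : Finset ι) (W : ι → WS) (hW : ∀ i ∈ F, (W i).Ok) (Λ a : ι → ℝ)
    (ha : ∀ i ∈ F, 0 < a i) (hΛ : ∀ i ∈ F, a i ≤ Λ i)
    (hsame : ∀ i ∈ F, ∀ j ∈ F, WS.Same (W i) (W j) → a i = a j)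
    (h2 : ∀ i₀ ∈ F, ∀ L : ℝ, 0 < L → ∀ T ⊆ F, (∀ i ∈ T, WS.Same (W i) (W i₀) ∧ L ≤ Λ i ∧
      Λ i < 6 / 5 * L) → T.card ≤ 3) :
    ∑ i ∈ F, ENNReal.ofReal (a i / Λ i) * volume (Hd (W i) (1 / 2)) ≤
      ENNReal.ofReal 18 * (2 * ENNReal.ofReal C) := by
  classical
  obtain ⟨ρ, hρ, hρ'⟩ := reps F (fun i j => WS.Same (W i) (W j)) (fun i => same_refl _)
    (fun i j h => same_symm h) (fun i j k h h' => same_trans h h')
  have hmaps : ∀ i ∈ F, ρ i ∈ F.image ρ := fun i hi => Finset.mem_image_of_mem _ hi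
  rw [← Finset.sum_fiberwise_of_maps_to hmaps]
  have hfib : ∀ j ∈ F.image ρ, ∑ i ∈ F.filter (fun i => ρ i = j),
      ENNReal.ofReal (a i / Λ i) * volume (Hd (W i) (1 / 2)) ≤
        ENNReal.ofReal 18 * volume (Hd (W j) (1 / 2)) := by
    intro j hj
    obtain ⟨i', hi', rfl⟩ := Finset.mem_image.1 hj
    have hjF := (hρ i' hi').1
    have e1 : ∀ i ∈ F.filter (fun i => ρ i = ρ i'),
        ENNReal.ofReal (a i / Λ i) * volume (Hd (W i) (1 / 2)) =
          ENNReal.ofReal (a (ρ i') / Λ i) * volume (Hd (W (ρ i')) (1 / 2)) := by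
      intro i hi
      obtain ⟨hiF, hij⟩ := Finset.mem_filter.1 hi
      have hs : WS.Same (W i) (W (ρ i')) := by rw [← hij]; exact (hρ i hiF).2
      rw [same_hd hs, hsame i hiF _ hjF hs]
    rw [Finset.sum_congr rfl e1, ← Finset.sum_mul]
    refine mul_le_mul_left ?_ _
    rw [← ENNReal.ofReal_sum_of_nonneg]
    · refine ENNReal.ofReal_le_ofReal ?_
      refine class_sum _ Λ (a (ρ i')) (ha _ hjF) ?_ ?_
      · intro i hi
        obtain ⟨hiF, hij⟩ := Finset.mem_filter.1 hi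
        have hs : WS.Same (W i) (W (ρ i')) := by rw [← hij]; exact (hρ i hiF).2
        rw [← hsame i hiF _ hjF hs]
        exact hΛ i hiF
      · intro L hL T' hT' hTL
        refine h2 (ρ i') hjF L hL T' (hT'.trans (Finset.filter_subset _ _)) fun i hi => ?_
        obtain ⟨hiF, hij⟩ := Finset.mem_filter.1 (hT' hi)
        exact ⟨by rw [← hij]; exact (hρ i hiF).2, hTL i hi⟩
    · intro i hi
      obtain ⟨hiF, -⟩ := Finset.mem_filter.1 hi
      have h3 : 0 < Λ i := (ha i hiF).trans_le (hΛ i hiF)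
      have h4 := ha _ hjF
      positivity
  refine (Finset.sum_le_sum hfib).trans ?_
  rw [← Finset.mul_sum]
  refine mul_le_mul_right ?_ _
  have h3 := hH ι (F.image ρ) W (fun _ => 1 / 2) ?_ ?_
  · have hd : (((1 / 2 : ℚ)).den : ℝ≥0∞) = 2 := by norm_num
    simp only [hd] at h3
    have h4 : ∑ i ∈ F.image ρ, volume (Hd (W i) (1 / 2)) =
        2 * ∑ i ∈ F.image ρ, volume (Hd (W i) (1 / 2)) / 2 := by
      rw [Finset.mul_sum]
      refine Finset.sum_congr rfl fun i _ => ?_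
      rw [ENNReal.mul_div_cancel (by norm_num) (by norm_num)]
    rw [h4]
    exact mul_le_mul_right h3 _
  · intro j hj
    obtain ⟨i', hi', rfl⟩ := Finset.mem_image.1 hj
    exact ⟨hW _ (hρ i' hi').1, half_pos, half_lt⟩
  · intro j hj j' hj' hs _
    obtain ⟨i, hi, rfl⟩ := Finset.mem_image.1 hj
    obtain ⟨i', hi', rfl⟩ := Finset.mem_image.1 hj'
    exact hρ' _ _ (same_trans (same_trans (hρ i hi).2 hs) (same_symm (hρ i' hi').2))

/-! ### the overlap of the pieces -/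

section Over

variable {ι : Type} {F : Finset ι} {P : ι → Pie}

lemma pie_two {Q : Pie} (h : Q.Ok) (h2 : Q.two) : Q.x = 1 / 2 ∧ Two Q.W Q.W' Q.ℓ ∧
    Q.U = Q.W.dat (1 / 2) ∧ Q.V = Q.W'.dat (1 / 2) := by
  have e : Q.ℓ = Q.V.tm - Q.U.tm := by unfold Pie.ℓ; rw [if_pos h2]
  refine ⟨h.half h2, ?_, ?_, rfl⟩
  · rw [e]; exact h.nest h2
  · unfold Pie.U; rw [h.half h2]

lemma pie_ends {Q : Pie} (h : Q.Ok) (h2 : Q.two) : 0 < Q.ℓ ∧ Q.V.tm = Q.U.tm + Q.ℓ ∧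
    Q.U.tp = Q.V.tp + Q.ℓ ∧ Q.V.tm < Q.V.tp ∧ Q.U.tp < Q.U.tm + 1 := by
  obtain ⟨-, hT, hU, hV⟩ := pie_two h h2
  refine ⟨hT.pos, ?_, ?_, ?_, ?_⟩
  · rw [hU, hV]; exact hT.left
  · rw [hU, hV]; exact hT.right
  · rw [hV]; exact (WS.dat_cir hT.ok' half_pos half_lt).lt
  · rw [hU]; exact (WS.dat_cir hT.ok half_pos half_lt).lt_one

lemma mem_A {Q : Pie} (h : Q.Ok) (h2 : Q.two) {x : ℝ} {k : ℤ}
    (hx : (Q.U.tm < x + k ∧ x + k < Q.V.tm) ∨ (Q.V.tp < x + k ∧ x + k < Q.U.tp)) : x ∈ Q.A := by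
  obtain ⟨h3, h4, h5, h6, h7⟩ := pie_ends h h2
  have hin : Q.U.tm < x + k ∧ x + k < Q.U.tp := by
    rcases hx with hx | hx
    · exact ⟨hx.1, by linarith [hx.2]⟩
    · exact ⟨by linarith [hx.1], hx.2⟩
  refine ⟨⟨k, hin⟩, fun _ k' hk' => ?_⟩
  have h8 : ((k - k' : ℤ) : ℝ) < 1 := by push_cast; linarith [hin.2, hk'.1]
  have h9 : (-1 : ℝ) < ((k - k' : ℤ) : ℝ) := by push_cast; linarith [hin.1, hk'.2]
  have h10 : k - k' < 1 := by exact_mod_cast h8
  have h11 : -1 < k - k' := by exact_mod_cast h9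
  have h12 : k = k' := by omega
  subst h12
  rcases hx with hx | hx
  · exact absurd hk'.1 (not_le.2 hx.2)
  · exact absurd hk'.2 (not_le.2 hx.1)

lemma ends_countable (F : Finset ι) (P : ι → Pie) : {θ : ℝ | ∃ i ∈ F, (P i).End θ}.Countable := by
  refine Set.Countable.mono (s₂ := ⋃ i ∈ F, ⋃ k : ℤ, ({(P i).U.tm - k, (P i).U.tp - k,
    (P i).V.tm - k, (P i).V.tp - k} : Set ℝ)) ?_ ?_
  · rintro θ ⟨i, hi, k, hk⟩
    simp only [mem_iUnion]
    refine ⟨i, hi, k, ?_⟩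
    simp only [mem_insert_iff, mem_singleton_iff]
    rcases hk with hk | hk | ⟨-, hk | hk⟩
    · left; linarith
    · right; left; linarith
    · right; right; left; linarith
    · right; right; right; linarith
  · refine Set.Countable.biUnion F.countable_toSet fun i _ => countable_iUnion fun k => ?_
    exact (Set.toFinite _).countable

lemma over_le (hP : ∀ i ∈ F, (P i).Ok ∧ (P i).two) (hO : OverC F P) {L : ℝ} (hL : 0 < L)
    {T : Finset ι} (hT : T ⊆ F) (hTL : ∀ i ∈ T, L ≤ lg (P i).ℓ ∧ lg (P i).ℓ < 6 / 5 * L) {x : ℝ}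
    (hx : ∀ i ∈ T, ∃ k : ℤ, ((P i).U.tm < x + k ∧ x + k < (P i).V.tm) ∨
      ((P i).V.tp < x + k ∧ x + k < (P i).U.tp)) : T.card ≤ 3 := by
  choose! k hk using hx
  have hopen : IsOpen (⋂ i ∈ T, {y : ℝ | ((P i).U.tm < y + k i ∧ y + k i < (P i).V.tm) ∨
      ((P i).V.tp < y + k i ∧ y + k i < (P i).U.tp)}) := by
    refine isOpen_biInter_finset fun i _ => ?_
    have hc : Continuous fun y : ℝ => y + (k i : ℝ) := by fun_prop
    have e : {y : ℝ | ((P i).U.tm < y + k i ∧ y + k i < (P i).V.tm) ∨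
        ((P i).V.tp < y + k i ∧ y + k i < (P i).U.tp)} =
        (fun y : ℝ => y + (k i : ℝ)) ⁻¹' (Ioo (P i).U.tm (P i).V.tm ∪
          Ioo (P i).V.tp (P i).U.tp) := rfl
    rw [e]
    exact (isOpen_Ioo.union isOpen_Ioo).preimage hc
  have hne : (⋂ i ∈ T, {y : ℝ | ((P i).U.tm < y + k i ∧ y + k i < (P i).V.tm) ∨
      ((P i).V.tp < y + k i ∧ y + k i < (P i).U.tp)}).Nonempty :=
    ⟨x, by simp only [mem_iInter]; exact fun i hi => hk i hi⟩
  obtain ⟨y, hy1, hy2⟩ := ((ends_countable F P).dense_compl ℝ).inter_open_nonempty _ hopen hne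
  simp only [mem_iInter] at hy1
  refine hO L y hL (fun i hi hE => hy2 ⟨i, hi, hE⟩) T hT fun i hi => ?_
  exact ⟨mem_A (hP i (hT hi)).1 (hP i (hT hi)).2 (hy1 i hi), hTL i hi⟩

end Over

/-! ### the ends of the inner pieces -/

lemma per_V {W : WS} (h : W.Ok) :
    ∃ a : ℤ, (2 : ℝ) ^ (2 * W.m) * (W.dat (1 / 2)).tm - (W.dat (1 / 2)).tm = a := by
  have h1 := (WS.dat_cir h half_pos half_lt).per.2.1
  rw [WS.dat_m h half_pos half_lt, WS.dat_x h half_pos half_lt] at h1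
  have e : W.m * ((1 / 2 : ℚ)).den = 2 * W.m := by
    have : ((1 / 2 : ℚ)).den = 2 := by norm_num
    rw [this, mul_comm]
  rw [e] at h1
  exact h1

lemma child_tm {W W' : WS} {t t' : ℝ} {k : ℤ} (h : W.Ok) (h' : W'.Ok) (hm : W.m = W'.m)
    (ht : t = t' + k) (h1 : (W.dat (1 / 2)).tm < t)
    (h2 : t - (W.dat (1 / 2)).tm ≤ 1 / (2 ^ (2 * W.m) - 1)) (h1' : (W'.dat (1 / 2)).tm < t')
    (h2' : t' - (W'.dat (1 / 2)).tm ≤ 1 / (2 ^ (2 * W'.m) - 1)) :
    (W.dat (1 / 2)).tm = (W'.dat (1 / 2)).tm + k := by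
  obtain ⟨a, ha⟩ := per_V h
  obtain ⟨a', ha'⟩ := per_V h'
  have hm0 := ok_m_pos h
  rw [← hm] at h2' ha'
  have hA : (1 : ℝ) < 2 ^ (2 * W.m) := one_lt_pow₀ (by norm_num) (by omega)
  obtain ⟨A, hAd⟩ : ∃ A : ℝ, A = 2 ^ (2 * W.m) - 1 := ⟨_, rfl⟩
  have hA0 : 0 < A := by linarith
  have hAi : ((2 ^ (2 * W.m) - 1 : ℤ) : ℝ) = A := by rw [hAd]; push_cast; ring
  rw [← hAd, le_div_iff₀ hA0] at h2 h2'
  set u := (W.dat (1 / 2)).tm with hu
  set u' := (W'.dat (1 / 2)).tm with hu'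
  have e1 : A * u = a := by rw [hAd, ← ha]; ring
  have e2 : A * u' = a' := by rw [hAd, ← ha']; ring
  have h3 : |((a - a' - (2 ^ (2 * W.m) - 1) * k : ℤ) : ℝ)| < 1 := by
    have e3 : ((a - a' - (2 ^ (2 * W.m) - 1) * k : ℤ) : ℝ) = A * (u - u' - k) := by
      rw [Int.cast_sub, Int.cast_sub, Int.cast_mul, hAi, ← e1, ← e2]; ring
    rw [e3, abs_lt]
    constructor <;> nlinarith
  have h4 : |(a - a' - (2 ^ (2 * W.m) - 1) * k : ℤ)| < 1 := by exact_mod_cast h3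
  rw [Int.abs_lt_one_iff] at h4
  have h5 : A * (u - u' - k) = 0 := by
    have e3 : ((a - a' - (2 ^ (2 * W.m) - 1) * k : ℤ) : ℝ) = A * (u - u' - k) := by
      rw [Int.cast_sub, Int.cast_sub, Int.cast_mul, hAi, ← e1, ← e2]; ring
    rw [← e3, h4, Int.cast_zero]
  rcases mul_eq_zero.1 h5 with h6 | h6
  · exact absurd h6 hA0.ne'
  · linarith

lemma lg_le {ℓ : ℝ} (h0 : 0 < ℓ) {N : ℕ} (h : (N : ℝ) ≤ lg ℓ) : ℓ ≤ 1 / 2 ^ N := by
  unfold lg at h
  rw [Real.le_logb_iff_rpow_le (by norm_num) (by positivity), Real.rpow_natCast] at h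
  rw [le_div_iff₀ (by positivity)]
  rw [le_div_iff₀ h0] at h
  linarith

end Z54

open Z54

/-- **Z**: the sum over the pieces of type II -/
theorem b_sum (hM : M_class) (hE : E_two) (hH : H_sum) : B_sum := by
  classical
  obtain ⟨C₁, hM⟩ := hM
  obtain ⟨C₀, hC₀, hE⟩ := hE
  obtain ⟨C₂, hH⟩ := hH
  obtain ⟨T, hT⟩ : ∃ T : ℝ≥0∞, T = ENNReal.ofReal C₀ * ((ENNReal.ofReal C₁ + ENNReal.ofReal C₁ +
    ENNReal.ofReal C₁ + ENNReal.ofReal C₁) + (ENNReal.ofReal 18 * (2 * ENNReal.ofReal C₂) +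
      ENNReal.ofReal 18 * (2 * ENNReal.ofReal C₂))) := ⟨_, rfl⟩
  have hTtop : T ≠ ⊤ := by
    rw [hT]
    finiteness
  refine ⟨T.toReal, fun ι F P hP hO => ?_⟩
  -- the children
  have h3 : ∀ i, i ∈ F → ∃ W'' : WS, W''.Ok ∧ W''.m = 2 * (P i).W'.m ∧
      (P i).V.tm < (W''.dat (1 / 2)).tm ∧
      (W''.dat (1 / 2)).tm - (P i).V.tm ≤ 1 / (2 ^ (2 * (P i).W'.m) - 1) ∧
      ENNReal.ofReal (diam (P i).K ^ 2) ≤ ENNReal.ofReal C₀ *
        (ENNReal.ofReal (lg (P i).ℓ) * (RayE (P i).U.tm (P i).ℓ + RayE (P i).V.tm (P i).ℓ +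
          RayE (P i).V.tp (P i).ℓ + RayE (P i).U.tp (P i).ℓ) +
        ((P i).W.m * volume (Hd (P i).W (1 / 2)) + (P i).W'.m * volume (Hd W'' (1 / 2)))) := by
    intro i hi
    obtain ⟨hok, htw⟩ := hP i hi
    obtain ⟨-, h2, hU, hV⟩ := pie_two hok htw
    obtain ⟨W'', a1, a2, a3, a4, a5⟩ := hE _ _ _ h2
    refine ⟨W'', a1, a2, by rw [hV]; exact a3, by rw [hV]; exact a4, ?_⟩
    have hK : (P i).K = {z | z ∈ MM ∧ (z = rt ((P i).W.dat (1 / 2)) ∨
        z ∈ Lm ((P i).W.dat (1 / 2))) ∧ z ∉ Lm ((P i).W'.dat (1 / 2))} := by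
      unfold Pie.K
      rw [hU, hV]
      ext z
      simp only [Set.mem_ofPred_eq, htw, true_implies]
    rw [hK, hU, hV]
    exact a5
  have : Nonempty WS := ⟨⟨0, fun _ => 0, 0, fun _ => (0, 0)⟩⟩
  choose! W'' b1 b2 b3 b4 b5 using h3
  have hlgpos : ∀ i ∈ F, 0 < lg (P i).ℓ := by
    intro i hi
    obtain ⟨-, h2, -, -⟩ := pie_two (hP i hi).1 (hP i hi).2
    have h4 : (100 : ℝ) ≤ (P i).W.m := by exact_mod_cast h2.m_le
    have h5 : ((P i).W.m : ℝ) ≤ (P i).W'.m := by exact_mod_cast h2.m_le'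
    linarith [h2.le]
  -- the ray energies
  have hℓ : ∀ i ∈ F, 0 < (P i).ℓ ∧ (P i).ℓ ≤ 1 / 2 ^ 90 := by
    intro i hi
    obtain ⟨-, h2, -, -⟩ := pie_two (hP i hi).1 (hP i hi).2
    refine ⟨h2.pos, lg_le h2.pos ?_⟩
    have h4 : (100 : ℝ) ≤ (P i).W.m := by exact_mod_cast h2.m_le
    have h5 : ((P i).W.m : ℝ) ≤ (P i).W'.m := by exact_mod_cast h2.m_le'
    push_cast
    linarith [h2.le]
  have hm1 := hM ι F (fun i => (P i).U.tm) (fun i => (P i).ℓ) hℓ (by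
    intro L x hL _ S hS hSL
    refine over_le hP hO hL hS (fun i hi => ⟨(hSL i hi).1, (hSL i hi).2.1⟩) (x := x) fun i hi => ?_
    obtain ⟨-, e1, -, -, -⟩ := pie_ends (hP i (hS hi)).1 (hP i (hS hi)).2
    obtain ⟨-, -, k, k1, k2⟩ := hSL i hi
    exact ⟨k, Or.inl ⟨k1, by rw [e1]; exact k2⟩⟩)
  have hm2 := hM ι F (fun i => (P i).V.tp) (fun i => (P i).ℓ) hℓ (by
    intro L x hL _ S hS hSL
    refine over_le hP hO hL hS (fun i hi => ⟨(hSL i hi).1, (hSL i hi).2.1⟩) (x := x) fun i hi => ?_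
    obtain ⟨-, -, e1, -, -⟩ := pie_ends (hP i (hS hi)).1 (hP i (hS hi)).2
    obtain ⟨-, -, k, k1, k2⟩ := hSL i hi
    exact ⟨k, Or.inr ⟨k1, by rw [e1]; exact k2⟩⟩)
  have hr1 : ∑ i ∈ F, RayE (P i).V.tm (P i).ℓ ≤ ENNReal.ofReal C₁ := by
    refine le_trans (le_of_eq (Finset.sum_congr rfl fun i hi => ?_)) hm1.2
    rw [(pie_ends (hP i hi).1 (hP i hi).2).2.1]
  have hr2 : ∑ i ∈ F, RayE (P i).U.tp (P i).ℓ ≤ ENNReal.ofReal C₁ := by
    refine le_trans (le_of_eq (Finset.sum_congr rfl fun i hi => ?_)) hm2.2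
    rw [(pie_ends (hP i hi).1 (hP i hi).2).2.2.1]
  -- the areas
  have hv1 : ∑ i ∈ F, ENNReal.ofReal ((P i).W.m / lg (P i).ℓ) * volume (Hd (P i).W (1 / 2)) ≤
      ENNReal.ofReal 18 * (2 * ENNReal.ofReal C₂) := by
    refine vol_sum hH F (fun i => (P i).W) (fun i hi => (hP i hi).1.ok) (fun i => lg (P i).ℓ)
      (fun i => ((P i).W.m : ℝ)) ?_ ?_ ?_ ?_
    · intro i hi
      have := ok_m_pos (hP i hi).1.ok
      exact_mod_cast this
    · intro i hi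
      obtain ⟨-, h2, -, -⟩ := pie_two (hP i hi).1 (hP i hi).2
      have h5 : ((P i).W.m : ℝ) ≤ (P i).W'.m := by exact_mod_cast h2.m_le'
      linarith [h2.le]
    · intro i _ j _ hs
      show ((P i).W.m : ℝ) = (P j).W.m
      rw [hs.1]
    · intro i₀ hi₀ L hL S hS hSL
      obtain ⟨δ, hδ, hδ'⟩ := exists_delta S (fun i => (P i).ℓ) fun i hi => (hℓ i (hS hi)).1
      refine over_le hP hO hL hS (fun i hi => (hSL i hi).2)
        (x := (P i₀).U.tm + δ / 2) fun i hi => ?_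
      obtain ⟨-, e1, -, -, -⟩ := pie_ends (hP i (hS hi)).1 (hP i (hS hi)).2
      obtain ⟨-, -, hU, -⟩ := pie_two (hP i (hS hi)).1 (hP i (hS hi)).2
      obtain ⟨-, -, hU₀, -⟩ := pie_two (hP i₀ hi₀).1 (hP i₀ hi₀).2
      obtain ⟨k, hk⟩ := same_tm (hP i (hS hi)).1.ok (hP i₀ hi₀).1.ok (hSL i hi).1
      rw [← hU, ← hU₀] at hk
      have := hδ' i hi
      exact ⟨k, Or.inl ⟨by linarith, by linarith⟩⟩
  have hv2 : ∑ i ∈ F, ENNReal.ofReal ((P i).W'.m / lg (P i).ℓ) * volume (Hd (W'' i) (1 / 2)) ≤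
      ENNReal.ofReal 18 * (2 * ENNReal.ofReal C₂) := by
    refine vol_sum hH F W'' (fun i hi => b1 i hi) (fun i => lg (P i).ℓ)
      (fun i => ((P i).W'.m : ℝ)) ?_ ?_ ?_ ?_
    · intro i hi
      obtain ⟨-, h2, -, -⟩ := pie_two (hP i hi).1 (hP i hi).2
      have := ok_m_pos h2.ok'
      exact_mod_cast this
    · intro i hi
      obtain ⟨-, h2, -, -⟩ := pie_two (hP i hi).1 (hP i hi).2
      exact h2.le
    · intro i hi j hj hs
      have h4 := hs.1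
      rw [b2 i hi, b2 j hj] at h4
      have h5 : (P i).W'.m = (P j).W'.m := by omega
      show ((P i).W'.m : ℝ) = (P j).W'.m
      rw [h5]
    · intro i₀ hi₀ L hL S hS hSL
      obtain ⟨δ, hδ, hδ'⟩ := exists_delta S (fun i => (P i).ℓ) fun i hi => (hℓ i (hS hi)).1
      refine over_le hP hO hL hS (fun i hi => (hSL i hi).2)
        (x := (P i₀).V.tm - δ / 2) fun i hi => ?_
      have hiF := hS hi
      obtain ⟨-, e1, -, -, -⟩ := pie_ends (hP i hiF).1 (hP i hiF).2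
      obtain ⟨-, hT2, -, hV⟩ := pie_two (hP i hiF).1 (hP i hiF).2
      obtain ⟨-, hT2₀, -, hV₀⟩ := pie_two (hP i₀ hi₀).1 (hP i₀ hi₀).2
      obtain ⟨k, hk⟩ := same_tm (b1 i hiF) (b1 i₀ hi₀) (hSL i hi).1
      have h4 := (hSL i hi).1.1
      rw [b2 i hiF, b2 i₀ hi₀] at h4
      have h5 : (P i).W'.m = (P i₀).W'.m := by omega
      have c3 := b3 i hiF
      have c4 := b4 i hiF
      have d3 := b3 i₀ hi₀
      have d4 := b4 i₀ hi₀
      rw [hV] at c3 c4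
      rw [hV₀] at d3 d4
      have hk' := child_tm hT2.ok' hT2₀.ok' h5 hk c3 c4 d3 d4
      rw [← hV, ← hV₀] at hk'
      have := hδ' i hi
      exact ⟨k, Or.inl ⟨by linarith, by linarith⟩⟩
  -- the total
  have hone : ∀ i ∈ F, ENNReal.ofReal (diam (P i).K ^ 2 / lg (P i).ℓ) ≤ ENNReal.ofReal C₀ *
      ((RayE (P i).U.tm (P i).ℓ + RayE (P i).V.tm (P i).ℓ + RayE (P i).V.tp (P i).ℓ +
        RayE (P i).U.tp (P i).ℓ) +
      (ENNReal.ofReal ((P i).W.m / lg (P i).ℓ) * volume (Hd (P i).W (1 / 2)) +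
        ENNReal.ofReal ((P i).W'.m / lg (P i).ℓ) * volume (Hd (W'' i) (1 / 2)))) := by
    intro i hi
    have hl := hlgpos i hi
    have h4 : ENNReal.ofReal (lg (P i).ℓ) * ENNReal.ofReal (1 / lg (P i).ℓ) = 1 := by
      rw [← ENNReal.ofReal_mul hl.le, mul_one_div_cancel hl.ne', ENNReal.ofReal_one]
    have h5 : ∀ m : ℕ, ENNReal.ofReal ((m : ℝ) / lg (P i).ℓ) =
        (m : ℝ≥0∞) * ENNReal.ofReal (1 / lg (P i).ℓ) := by
      intro m
      rw [← ENNReal.ofReal_natCast, ← ENNReal.ofReal_mul (Nat.cast_nonneg m), mul_one_div]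
    rw [h5, h5, ← mul_one_div, ENNReal.ofReal_mul (by positivity)]
    refine (mul_le_mul_left (b5 i hi) _).trans (le_of_eq ?_)
    generalize ENNReal.ofReal (lg (P i).ℓ) = X at h4 ⊢
    generalize ENNReal.ofReal (1 / lg (P i).ℓ) = Y at h4 ⊢
    generalize RayE (P i).U.tm (P i).ℓ + RayE (P i).V.tm (P i).ℓ + RayE (P i).V.tp (P i).ℓ +
        RayE (P i).U.tp (P i).ℓ = R
    calc ENNReal.ofReal C₀ * (X * R + (↑(P i).W.m * volume (Hd (P i).W (1 / 2)) +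
          ↑(P i).W'.m * volume (Hd (W'' i) (1 / 2)))) * Y
        = ENNReal.ofReal C₀ * (X * Y * R + (↑(P i).W.m * Y * volume (Hd (P i).W (1 / 2)) +
          ↑(P i).W'.m * Y * volume (Hd (W'' i) (1 / 2)))) := by ring
      _ = _ := by rw [h4, one_mul]
  have hS : ∑ i ∈ F, ENNReal.ofReal (diam (P i).K ^ 2 / lg (P i).ℓ) ≤ T := by
    refine (Finset.sum_le_sum hone).trans ?_
    rw [← Finset.mul_sum, Finset.sum_add_distrib, Finset.sum_add_distrib, Finset.sum_add_distrib,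
      Finset.sum_add_distrib, Finset.sum_add_distrib, hT]
    gcongr
    · exact hm1.1
    · exact hm2.1
  rw [← ENNReal.ofReal_sum_of_nonneg (fun i hi => div_nonneg (sq_nonneg _) (hlgpos i hi).le)] at hS
  exact (ENNReal.ofReal_le_iff_le_toReal hTtop).1 hS

end Pool.Agent.Work.MLC.Shp
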