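import Pool.Agent.Work.MLC.ShpA90
import Pool.Agent.Work.MLC.ShpF90
import Pool.Agent.Work.MLC.ShpV60
import Pool.Agent.Work.MLC.ShpW24
import Pool.Agent.Work.MLC.ShpS31
import Pool.Agent.Work.MLC.ShpM26
import Pool.Agent.Work.MLC.CapE26
import Pool.Agent.Work.MLC.ShpH60
import Pool.Agent.Work.MLC.ShpZ54
import Pool.Agent.Work.MLC.CapA50

set_option autoImplicit false

/-! # Theorem CAP (helper90)

`cap_thm : Cap_thm`, unconditional: the set of infinitely renormalizable angles at which the limit of
`Psi` or the local connectivity fails is a null set for the gauge `1 / log (1 / t)`. -/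

namespace Pool.Agent.Work.MLC.Shp

/-- **Theorem CAP** -/
theorem cap_thm : Cap_thm := by
  obtain ⟨C, hC⟩ := Cap.limb_all
  exact cap_assembly hC (t_two t_half) (t_pieces t_half)
    (b_choose (b_sum m_class Cap.e_two h_sum) s_sub)

end Pool.Agent.Work.MLC.Shp
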