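import Pool.Agent.Work.MLC.ShpDef

set_option autoImplicit false

/-! # Theorem CAP: the sets of tuned angles (helper24)

* `tuned_iff`: digits are the same thing as bounded orbits.
* `tuned_trans`: a copy inside a copy.
* `isClosed_tuned`. -/

namespace Pool.Agent.Work.MLC.Shp

open Filter Topology Set

/-- digits give a point of the copy -/
theorem tuned_of_orbit {m : ℕ} (hm : 0 < m) {α β C : ℝ} (y : ℕ → ℝ) (hb : ∀ i, |y i| ≤ C)
    (hs : ∀ i, ∃ e, (e = α ∨ e = β) ∧ y (i + 1) = 2 ^ m * y i - (2 ^ m - 1) * e) :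
    y 0 ∈ Tuned m α β := by
  choose e he hy using hs
  refine ⟨e, he, ?_⟩
  have hp : (0 : ℝ) < 2 ^ m := by positivity
  have h1 : (1 : ℝ) < 2 ^ m := one_lt_pow₀ (by norm_num) hm.ne'
  have hC : 0 ≤ C := (abs_nonneg _).trans (hb 0)
  have hsum : ∀ N : ℕ, ∑ i ∈ Finset.range N, (2 ^ m - 1) * e i / 2 ^ (m * (i + 1)) =
      y 0 - y N / 2 ^ (m * N) := by
    intro N
    induction N with
    | zero => simp
    | succ N ih =>
      have h2 : (2 : ℝ) ^ (m * (N + 1)) = 2 ^ (m * N) * 2 ^ m := by rw [Nat.mul_succ, pow_add]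
      have h3 : (0 : ℝ) < 2 ^ (m * N) := by positivity
      rw [Finset.sum_range_succ, ih, hy N, h2]
      field_simp
      ring
  have hsm : Summable fun i => (2 ^ m - 1) * e i / 2 ^ (m * (i + 1)) := by
    set B : ℝ := |α| + |β| with hB
    have hE : ∀ i, |e i| ≤ B := fun i => by
      rcases he i with h | h <;> rw [h, hB]
      · linarith [abs_nonneg β]
      · linarith [abs_nonneg α]
    have hg : Summable fun i : ℕ => (2 ^ m - 1) * B / 2 ^ m * (1 / 2 ^ m : ℝ) ^ i :=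
      (summable_geometric_of_lt_one (by positivity) ((div_lt_one hp).2 h1)).mul_left _
    refine Summable.of_norm_bounded hg fun i => ?_
    rw [Real.norm_eq_abs, abs_div, abs_mul, abs_of_pos (show (0 : ℝ) < 2 ^ m - 1 by linarith),
      abs_of_pos (show (0 : ℝ) < 2 ^ (m * (i + 1)) by positivity)]
    have h2 : (2 : ℝ) ^ (m * (i + 1)) = 2 ^ m * (2 ^ m) ^ i := by
      rw [← pow_mul, ← pow_add, Nat.mul_succ, add_comm]
    have h3 : (2 ^ m - 1) * B / 2 ^ m * (1 / 2 ^ m : ℝ) ^ i = (2 ^ m - 1) * B / 2 ^ (m * (i + 1)) := by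
      rw [h2, div_pow, one_pow, div_mul_div_comm, mul_one]
    rw [h3]
    refine div_le_div_of_nonneg_right ?_ (by positivity)
    exact mul_le_mul_of_nonneg_left (hE i) (by linarith)
  rw [hsm.hasSum_iff_tendsto_nat]
  simp only [hsum]
  have hlim : Tendsto (fun N : ℕ => y N / 2 ^ (m * N)) atTop (𝓝 0) := by
    have h2 : Tendsto (fun N : ℕ => C * (1 / 2 ^ m : ℝ) ^ N) atTop (𝓝 (C * 0)) :=
      (tendsto_pow_atTop_nhds_zero_of_lt_one (by positivity) ((div_lt_one hp).2 h1)).const_mul C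
    rw [mul_zero] at h2
    refine squeeze_zero_norm (fun N => ?_) h2
    have h3 : (0 : ℝ) < 2 ^ (m * N) := by positivity
    rw [Real.norm_eq_abs, abs_div, abs_of_pos h3, div_pow, one_pow, ← pow_mul, ← div_eq_mul_one_div]
    exact div_le_div_of_nonneg_right (hb N) h3.le
  have := hlim.const_sub (y 0)
  rwa [sub_zero] at this

/-- the points of the copy have digits -/
theorem orbit_of_tuned {m : ℕ} (hm : 0 < m) {α β θ : ℝ} (h : θ ∈ Tuned m α β) :
    ∃ (y e : ℕ → ℝ) (C : ℝ), y 0 = θ ∧ (∀ i, |y i| ≤ C) ∧ (∀ i, e i = α ∨ e i = β) ∧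
      ∀ i, y (i + 1) = 2 ^ m * y i - (2 ^ m - 1) * e i := by
  obtain ⟨e, he, hs⟩ := h
  have hp : (0 : ℝ) < 2 ^ m := by positivity
  have h1 : (1 : ℝ) < 2 ^ m := one_lt_pow₀ (by norm_num) hm.ne'
  set B : ℝ := |α| + |β| with hB
  have hE : ∀ i, |e i| ≤ B := fun i => by
    rcases he i with h | h <;> rw [h, hB]
    · linarith [abs_nonneg β]
    · linarith [abs_nonneg α]
  set f : ℕ → ℝ := fun i => (2 ^ m - 1) * e i / 2 ^ (m * (i + 1)) with hf
  refine ⟨fun i => 2 ^ (m * i) * (θ - ∑ j ∈ Finset.range i, f j), e, B, by simp, fun i => ?_, he,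
    fun i => ?_⟩
  · have h2 : HasSum (fun n => f (n + i)) (θ - ∑ j ∈ Finset.range i, f j) :=
      (hasSum_nat_add_iff' i).2 hs
    have h3 : HasSum (fun n : ℕ => (2 ^ m - 1) * B / (2 ^ (m * i) * 2 ^ m) * (1 / 2 ^ m : ℝ) ^ n)
        ((2 ^ m - 1) * B / (2 ^ (m * i) * 2 ^ m) * (1 - 1 / 2 ^ m)⁻¹) :=
      (hasSum_geometric_of_lt_one (by positivity) ((div_lt_one hp).2 h1)).mul_left _
    have h4 := h2.norm_le_of_bounded h3 fun n => ?_
    · have h5 : (2 ^ m - 1) * B / (2 ^ (m * i) * 2 ^ m) * (1 - 1 / 2 ^ m : ℝ)⁻¹ = B / 2 ^ (m * i) := by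
        have h6 : (2 : ℝ) ^ m - 1 ≠ 0 := by linarith
        have h7 : (1 - 1 / 2 ^ m : ℝ) = (2 ^ m - 1) / 2 ^ m := by field_simp
        rw [h7, inv_div]
        field_simp
      rw [h5, Real.norm_eq_abs, le_div_iff₀ (by positivity)] at h4
      show |2 ^ (m * i) * (θ - ∑ j ∈ Finset.range i, f j)| ≤ B
      rw [abs_mul, abs_of_pos (show (0 : ℝ) < 2 ^ (m * i) by positivity)]
      linarith
    · rw [Real.norm_eq_abs]
      show |(2 ^ m - 1) * e (n + i) / 2 ^ (m * (n + i + 1))| ≤ _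
      rw [abs_div, abs_mul, abs_of_pos (show (0 : ℝ) < 2 ^ m - 1 by linarith),
        abs_of_pos (show (0 : ℝ) < 2 ^ (m * (n + i + 1)) by positivity)]
      have h6 : (2 : ℝ) ^ (m * (n + i + 1)) = (2 ^ (m * i) * 2 ^ m) * (2 ^ m) ^ n := by
        rw [← pow_mul, ← pow_add, ← pow_add]; congr 1; ring
      have h7 : (2 ^ m - 1) * B / (2 ^ (m * i) * 2 ^ m) * (1 / 2 ^ m : ℝ) ^ n =
          (2 ^ m - 1) * B / 2 ^ (m * (n + i + 1)) := by
        rw [h6, div_pow, one_pow, div_mul_div_comm, mul_one]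
      rw [h7]
      refine div_le_div_of_nonneg_right ?_ (by positivity)
      exact mul_le_mul_of_nonneg_left (hE _) (by linarith)
  · show 2 ^ (m * (i + 1)) * (θ - ∑ j ∈ Finset.range (i + 1), f j) = _
    rw [Finset.sum_range_succ]
    have h2 : (2 : ℝ) ^ (m * (i + 1)) = 2 ^ (m * i) * 2 ^ m := by rw [Nat.mul_succ, pow_add]
    have h3 : f i = (2 ^ m - 1) * e i / 2 ^ (m * (i + 1)) := rfl
    rw [h3, h2]
    have h4 : (0 : ℝ) < 2 ^ (m * i) := by positivity
    field_simp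
    ring

/-- **a copy inside of a copy** -/
theorem tuned_trans {m q : ℕ} (hm : 0 < m) (hq : 0 < q) {α β α' β' C : ℝ} {ya yb : ℕ → ℝ}
    (a0 : ya 0 = α') (aq : ya q = α') (ab : ∀ i, |ya i| ≤ C)
    (as : ∀ i, ∃ e, (e = α ∨ e = β) ∧ ya (i + 1) = 2 ^ m * ya i - (2 ^ m - 1) * e)
    (b0 : yb 0 = β') (bq : yb q = β') (bb : ∀ i, |yb i| ≤ C)
    (bs : ∀ i, ∃ e, (e = α ∨ e = β) ∧ yb (i + 1) = 2 ^ m * yb i - (2 ^ m - 1) * e) :
    Tuned (m * q) α' β' ⊆ Tuned m α β := by
  intro θ hθ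
  obtain ⟨z, e, D, z0, zb, he, zs⟩ := orbit_of_tuned (Nat.mul_pos hm hq) hθ
  -- the orbit of the digit
  have hY : ∀ i, ∃ Y : ℕ → ℝ, Y 0 = e i ∧ Y q = e i ∧ (∀ j, |Y j| ≤ C) ∧
      ∀ j, ∃ e, (e = α ∨ e = β) ∧ Y (j + 1) = 2 ^ m * Y j - (2 ^ m - 1) * e := by
    intro i
    rcases he i with h | h
    · exact ⟨ya, by rw [a0, h], by rw [aq, h], ab, as⟩
    · exact ⟨yb, by rw [b0, h], by rw [bq, h], bb, bs⟩
  choose Y Y0 Yq Yb Ys using hY
  set Z : ℕ → ℝ := fun n => Y (n / q) (n % q) + 2 ^ (m * (n % q)) * (z (n / q) - e (n / q)) with hZ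
  have hZ0 : Z 0 = θ := by
    simp only [hZ, Nat.zero_div, Nat.zero_mod, Nat.mul_zero, pow_zero, one_mul, Y0, z0]
    ring
  rw [← hZ0]
  refine tuned_of_orbit hm (C := C + 2 ^ (m * q) * (D + C)) Z (fun n => ?_) fun n => ?_
  · have h1 := Nat.mod_lt n hq
    have h2 : (2 : ℝ) ^ (m * (n % q)) ≤ 2 ^ (m * q) :=
      pow_le_pow_right₀ (by norm_num) (Nat.mul_le_mul_left m h1.le)
    have h3 : |e (n / q)| ≤ C := by rw [← Y0]; exact Yb _ 0
    have h4 : |z (n / q) - e (n / q)| ≤ D + C :=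
      (abs_sub _ _).trans (add_le_add (zb _) h3)
    show |Y (n / q) (n % q) + 2 ^ (m * (n % q)) * (z (n / q) - e (n / q))| ≤ _
    refine (abs_add_le _ _).trans (add_le_add (Yb _ _) ?_)
    rw [abs_mul, abs_of_pos (show (0 : ℝ) < 2 ^ (m * (n % q)) by positivity)]
    exact mul_le_mul h2 h4 (abs_nonneg _) (by positivity)
  · obtain ⟨d, hd, hYs⟩ := Ys (n / q) (n % q)
    refine ⟨d, hd, ?_⟩
    have h1 := Nat.mod_lt n hq
    have h2 := Nat.div_add_mod n q
    rcases Nat.lt_or_ge (n % q + 1) q with h3 | h3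
    · have h4 : (n + 1) / q = n / q := by
        conv_lhs => rw [← h2, add_assoc]
        rw [Nat.mul_add_div hq, Nat.div_eq_of_lt h3, add_zero]
      have h5 : (n + 1) % q = n % q + 1 := by
        conv_lhs => rw [← h2, add_assoc]
        rw [Nat.mul_add_mod, Nat.mod_eq_of_lt h3]
      show Y ((n + 1) / q) ((n + 1) % q) +
        2 ^ (m * ((n + 1) % q)) * (z ((n + 1) / q) - e ((n + 1) / q)) =
        2 ^ m * (Y (n / q) (n % q) + 2 ^ (m * (n % q)) * (z (n / q) - e (n / q))) - _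
      rw [h4, h5, hYs, Nat.mul_succ, pow_add]
      ring
    · have h6 : n % q + 1 = q := by omega
      have h4 : (n + 1) / q = n / q + 1 := by
        conv_lhs => rw [← h2, add_assoc, h6]
        rw [← Nat.mul_succ, Nat.mul_div_cancel_left _ hq]
      have h5 : (n + 1) % q = 0 := by
        conv_lhs => rw [← h2, add_assoc, h6]
        rw [← Nat.mul_succ, Nat.mul_mod_right]
      show Y ((n + 1) / q) ((n + 1) % q) +
        2 ^ (m * ((n + 1) % q)) * (z ((n + 1) / q) - e ((n + 1) / q)) =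
        2 ^ m * (Y (n / q) (n % q) + 2 ^ (m * (n % q)) * (z (n / q) - e (n / q))) - _
      have h7 : 2 ^ m * (Y (n / q) (n % q)) - (2 ^ m - 1) * d = e (n / q) := by
        rw [← hYs, h6, Yq]
      have h8 : (2 : ℝ) ^ m * 2 ^ (m * (n % q)) = 2 ^ (m * q) := by
        rw [← pow_add]; congr 1
        conv_rhs => rw [← h6]
        ring
      rw [h4, h5, Nat.mul_zero, pow_zero, one_mul, Y0, zs (n / q)]
      have h9 : 2 ^ m * (Y (n / q) (n % q) + 2 ^ (m * (n % q)) * (z (n / q) - e (n / q))) -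
          (2 ^ m - 1) * d = (2 ^ m * (Y (n / q) (n % q)) - (2 ^ m - 1) * d) +
          2 ^ m * 2 ^ (m * (n % q)) * (z (n / q) - e (n / q)) := by ring
      rw [h9, h7, h8]
      ring

/-- the copy is closed -/
theorem isClosed_tuned {m : ℕ} (hm : 0 < m) (α β : ℝ) : IsClosed (Tuned m α β) := by
  have hp : (0 : ℝ) < 2 ^ m := by positivity
  have h1 : (1 : ℝ) < 2 ^ m := one_lt_pow₀ (by norm_num) hm.ne'
  set B : ℝ := |α| + |β| with hB
  set f : ℕ → (ℕ → Bool) → ℝ := fun i ε =>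
    (2 ^ m - 1) * (if ε i then β else α) / 2 ^ (m * (i + 1)) with hf
  have hg : Summable fun i : ℕ => (2 ^ m - 1) * B / 2 ^ m * (1 / 2 ^ m : ℝ) ^ i :=
    (summable_geometric_of_lt_one (by positivity) ((div_lt_one hp).2 h1)).mul_left _
  have hbd : ∀ i ε, ‖f i ε‖ ≤ (2 ^ m - 1) * B / 2 ^ m * (1 / 2 ^ m : ℝ) ^ i := by
    intro i ε
    show ‖(2 ^ m - 1) * (if ε i then β else α) / 2 ^ (m * (i + 1))‖ ≤ _
    rw [Real.norm_eq_abs, abs_div, abs_mul, abs_of_pos (show (0 : ℝ) < 2 ^ m - 1 by linarith),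
      abs_of_pos (show (0 : ℝ) < 2 ^ (m * (i + 1)) by positivity)]
    have h2 : (2 : ℝ) ^ (m * (i + 1)) = 2 ^ m * (2 ^ m) ^ i := by
      rw [← pow_mul, ← pow_add, Nat.mul_succ, add_comm]
    have h3 : (2 ^ m - 1) * B / 2 ^ m * (1 / 2 ^ m : ℝ) ^ i = (2 ^ m - 1) * B / 2 ^ (m * (i + 1)) := by
      rw [h2, div_pow, one_pow, div_mul_div_comm, mul_one]
    rw [h3]
    refine div_le_div_of_nonneg_right ?_ (by positivity)
    refine mul_le_mul_of_nonneg_left ?_ (by linarith)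
    split_ifs
    · linarith [abs_nonneg α]
    · linarith [abs_nonneg β]
  have hcont : Continuous fun ε : ℕ → Bool => ∑' i, f i ε := by
    refine continuous_tsum (fun i => ?_) hg hbd
    have h2 : Continuous fun b : Bool => (2 ^ m - 1) * (if b then β else α) / 2 ^ (m * (i + 1)) :=
      continuous_of_discreteTopology
    exact h2.comp (continuous_apply i)
  have heq : Tuned m α β = range fun ε : ℕ → Bool => ∑' i, f i ε := by
    ext θ
    constructor
    · rintro ⟨e, he, hs⟩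
      classical
      refine ⟨fun i => decide (e i = β), ?_⟩
      have h2 : (fun i => f i fun i => decide (e i = β)) =
          fun i => (2 ^ m - 1) * e i / 2 ^ (m * (i + 1)) := by
        funext i
        simp only [hf, decide_eq_true_eq]
        rcases he i with h | h
        · by_cases h3 : e i = β
          · rw [if_pos h3, h3]
          · rw [if_neg h3, h]
        · rw [if_pos h, h]
      show ∑' i, f i (fun i => decide (e i = β)) = θ
      rw [h2]
      exact hs.tsum_eq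
    · rintro ⟨ε, rfl⟩
      refine ⟨fun i => if ε i then β else α, fun i => ?_, ?_⟩
      · by_cases h : ε i = true
        · right; simp [h]
        · left; simp [h]
      · exact (Summable.of_norm_bounded hg fun i => hbd i ε).hasSum
  rw [heq]
  exact (isCompact_range hcont).isClosed

end Pool.Agent.Work.MLC.Shp
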