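import Pool.Agent.Work.MLC.ShpO24
import Pool.Agent.Work.MLC.ShpU24

set_option autoImplicit false

/-! # Theorem CAP: chains of satellites (helper24) -/

namespace Pool.Agent.Work.MLC.Shp

open Filter Topology Metric Set
open Pool.Agent.Work.MLC.Circ Pool.Agent.Work.MLC.Cnt CircleDeg1Lift

variable {N q q' : ℕ} {w w' : ℕ → ℤ} {s t s' t' : ℝ}

/-- a characteristic arc is a wake -/
theorem wake_of_ca (h : CA N q w s t) (h0 : 0 ≤ s) (h1 : t ≤ 1) : Wake (N * q) s t where
  pos := h.npos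
  nonneg := h0
  lt := h.lt
  le_one := h1
  per := by
    obtain ⟨a, ha⟩ := h.per_s
    exact ⟨a, by linarith⟩
  per' := by
    obtain ⟨a, ha⟩ := h.per_t
    exact ⟨a, by linarith⟩
  exact := by
    rintro d hd hdn ⟨a, ha⟩
    have := Nat.le_of_dvd hd (h.dvd_of_per (x := s) ⟨0, 0, by simp⟩ (m := a) (by linarith))
    omega
  exact' := by
    rintro d hd hdn ⟨a, ha⟩
    have := Nat.le_of_dvd hd (h.dvd_of_per (x := t) h.mem (m := a) (by linarith))
    omega
  side := by
    intro θ h1 h2 i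
    obtain ⟨k, k1, k2⟩ := h.compat θ h1 h2 i
    obtain ⟨l, l1, l2⟩ := h.compat_t h1 h2 i
    exact ⟨w i, k, l, k1, k2, l1, l2⟩

lemma wR_of_ca (h : CA N q w s t) (j : ℕ) : wR s j = w j := by
  obtain ⟨k, k1, k2⟩ := h.pos_arc (mem_AA N s j)
  have hst := h.lt
  have e : (2 : ℝ) ^ (j + 1) * s = 2 * (2 ^ j * s) := by rw [pow_succ]; ring
  have e1 : ⌈(2 : ℝ) ^ (j + 1) * s - s⌉ = w j + 2 * k + 1 := by
    rw [Int.ceil_eq_iff]
    push_cast
    constructor
    · rw [e]; linarith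
    · rw [e]; linarith
  unfold wR
  rw [e1]
  rcases h.word.1 j with h1 | h1 <;> omega

lemma wL_of_ca (h : CA N q w s t) (h0 : 0 ≤ s) (h1 : t ≤ 1) (j : ℕ) :
    wL s j = flw (N * q) w j := by
  have h2 := (wake_of_ca h h0 h1).wR_spec j
  rw [wR_of_ca h] at h2
  unfold flw
  by_cases hd : N * q ∣ j + 1
  · rw [if_pos hd] at h2
    rw [if_pos (Nat.dvd_iff_mod_eq_zero.1 hd)]
    omega
  · rw [if_neg hd] at h2
    rw [if_neg fun h0 => hd (Nat.dvd_iff_mod_eq_zero.2 h0)]
    exact h2.symm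

/-- **the copy of the child is in the copy of the parent** -/
theorem ca_step (h : CA N q w s t) (h0 : 0 ≤ s) (h1 : t ≤ 1) (h' : CA (N * q) q' w' s' t')
    {i₀ : ℕ} (hw : ∀ j, w' j = flw (N * q) w (j + i₀)) (hs : s < s') (ht : t' < t) :
    Tuned (N * q * q') s' t' ⊆ Tuned (N * q) s t := by
  have hW := wake_of_ca h h0 h1
  have hwL := wL_of_ca h h0 h1
  have hst' := h'.lt
  have hq2 := h.two
  have hq2' := h'.two
  have hm : 2 ≤ N * q := by
    have := h.pos
    nlinarith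
  have hper : ∀ c j, flw (N * q) w (j + N * q * c) = flw (N * q) w j := by
    intro c
    induction c with
    | zero => intro j; simp
    | succ c ih =>
      intro j
      rw [show j + N * q * (c + 1) = j + N * q * c + N * q by ring,
        flw_per (fun i => word_mod h.word.2.1 i q), ih]
  set m : ℕ := N * q with hmdef
  set θ : ℝ := (s' + t') / 2 with hθ
  have hθ1 : s' < θ := by linarith
  have hθ2 : θ < t' := by linarith
  have hp : (0 : ℝ) < 2 ^ m := by positivity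
  have hδm : (t - s) / 2 ^ m * 2 ^ m = t - s := by field_simp
  -- the phase
  have hphase : m ∣ i₀ := by
    by_contra hnd
    have hr0 : 0 < i₀ % m := Nat.pos_of_ne_zero fun h0 => hnd (Nat.dvd_of_mod_eq_zero h0)
    have hrm : i₀ % m < m := Nat.mod_lt _ (by omega)
    set r : ℕ := i₀ % m with hr
    obtain ⟨c, hc⟩ : ∃ c, c + i₀ / m = i₀ := ⟨i₀ - i₀ / m, by
      have := Nat.div_le_self i₀ m
      omega⟩
    obtain ⟨i₁, hi₁⟩ : ∃ i₁, i₁ + i₀ = m * i₀ := ⟨m * i₀ - i₀, by
      have : i₀ ≤ m * i₀ := Nat.le_mul_of_pos_left _ (by omega)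
      omega⟩
    have h2 : i₁ + r = m * c := by
      have h3 := Nat.div_add_mod i₀ m
      have h4 : m * c + m * (i₀ / m) = m * i₀ := by rw [← mul_add, hc]
      omega
    have hx : Circ.Compat (wL s) θ (2 ^ i₁ * s') := by
      intro j
      obtain ⟨k, k1, k2⟩ := h'.compat θ hθ1 hθ2 (j + i₁)
      have e0 : w' (j + i₁) = wL s j := by rw [hw, add_assoc, hi₁, hper, ← hwL]
      rw [e0] at k1 k2
      have e : (2 : ℝ) ^ j * (2 ^ i₁ * s') = 2 ^ (j + i₁) * s' := by rw [pow_add]; ring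
      refine ⟨k, ?_, ?_⟩
      · rw [e]; exact k1
      · rw [e]; exact k2
    obtain ⟨l, l1, l2, l3⟩ := hW.near hm (hs.trans hθ1) (hθ2.trans ht) hx ((q' - 1) * c)
    obtain ⟨A, hA⟩ := h'.per_s
    obtain ⟨b, hb⟩ := pow_per_mul hA c
    have e1 : (2 : ℝ) ^ r * (2 ^ (m * ((q' - 1) * c)) * (2 ^ i₁ * s')) = s' + b := by
      rw [← hb, ← mul_assoc, ← mul_assoc, ← pow_add, ← pow_add]
      congr 2
      obtain ⟨d, hd⟩ : ∃ d, q' = d + 1 := ⟨q' - 1, by omega⟩
      rw [hd, Nat.add_sub_cancel]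
      calc r + m * (d * c) + i₁ = m * (d * c) + (i₁ + r) := by ring
        _ = m * (d + 1) * c := by rw [h2]; ring
    set y : ℝ := 2 ^ (m * ((q' - 1) * c)) * (2 ^ i₁ * s') - l with hy
    have e2 : (2 : ℝ) ^ r * y + ((2 ^ r * l - b : ℤ) : ℝ) = s' := by
      rw [hy, mul_sub, e1]; push_cast; ring
    rcases l3 with l3 | l3
    · refine hW.win hr0 hrm (δ := y - s) (by linarith) ?_ (2 ^ r * l - b) ?_
      · have : (y - s) * 2 ^ m ≤ (t - s) / 2 ^ m * 2 ^ m :=
          mul_le_mul_of_nonneg_right (by linarith) hp.le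
        linarith
      · rw [add_sub_cancel, e2]
        exact ⟨hs, by linarith⟩
    · refine hW.win' hr0 hrm (δ := t - y) (by linarith) ?_ (2 ^ r * l - b) ?_
      · have : (t - y) * 2 ^ m ≤ (t - s) / 2 ^ m * 2 ^ m :=
          mul_le_mul_of_nonneg_right (by linarith) hp.le
        linarith
      · rw [sub_sub_cancel, e2]
        exact ⟨hs, by linarith⟩
  have hw2 : ∀ j, w' j = wL s j := by
    intro j
    obtain ⟨c, rfl⟩ := hphase
    rw [hw, hper, ← hwL]
  have hxs : Circ.Compat (wL s) θ s' := by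
    intro j
    have := h'.compat θ hθ1 hθ2 j
    rw [hw2] at this
    exact this
  have hxt : Circ.Compat (wL s) θ t' := by
    intro j
    have := h'.compat_t hθ1 hθ2 j
    rw [hw2] at this
    exact this
  obtain ⟨ya, a0, aq, ab, as⟩ := hW.digits hm hs (by linarith)
    (fun i => hW.near hm (hs.trans hθ1) (hθ2.trans ht) hxs i) h'.per_s
  obtain ⟨yb, b0, bq, bb, bs⟩ := hW.digits hm (by linarith) ht
    (fun i => hW.near hm (hs.trans hθ1) (hθ2.trans ht) hxt i) h'.per_t
  exact tuned_trans (by omega) (by omega) (C := 1) a0 aq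
    (fun i => abs_le.2 ⟨by linarith [(ab i).1], by linarith [(ab i).2]⟩) as b0 bq
    (fun i => abs_le.2 ⟨by linarith [(bb i).1], by linarith [(bb i).2]⟩) bs

/-- **angles in a chain of arcs of satellites are infinitely renormalizable** -/
theorem infRen_of_chain {N q : ℕ → ℕ} {w : ℕ → ℕ → ℤ} {s t : ℕ → ℝ}
    (h : ∀ k, CA (N k) (q k) (w k) (s k) (t k)) (hq : ∀ k, 3 ≤ q k)
    (hN : ∀ k, N (k + 1) = N k * q k)
    (hw : ∀ k, ∃ i₀, ∀ j, w (k + 1) j = flw (N k * q k) (w k) (j + i₀))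
    (hs : ∀ k, s k < s (k + 1)) (ht : ∀ k, t (k + 1) < t k) (h0 : ∀ k, 0 ≤ s k)
    (h1 : ∀ k, t k ≤ 1) {θ : ℝ} (hθ : ∀ k, s k ≤ θ ∧ θ ≤ t k) : InfRen θ := by
  set T : ℕ → Set ℝ := fun k => Tuned (N k * q k) (s k) (t k) with hT
  have hstep : ∀ k, T (k + 1) ⊆ T k := by
    intro k
    obtain ⟨i₀, hi⟩ := hw k
    have h2 := h (k + 1)
    show Tuned (N (k + 1) * q (k + 1)) (s (k + 1)) (t (k + 1)) ⊆ Tuned (N k * q k) (s k) (t k)
    rw [hN k] at h2 ⊢
    exact ca_step (h k) (h0 k) (h1 k) h2 hi (hs k) (ht k)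
  have hanti : Antitone T := antitone_nat_of_succ_le hstep
  have hpos : ∀ k, 0 < N k * q k := fun k => (h k).npos
  have hself : ∀ k, s k ∈ T k := by
    intro k
    have := tuned_of_orbit (hpos k) (α := s k) (β := t k) (C := |s k|) (fun _ => s k)
      (fun _ => le_rfl) fun _ => ⟨s k, Or.inl rfl, by ring⟩
    exact this
  have hNk : ∀ k, k + 1 ≤ N k := by
    intro k
    induction k with
    | zero => exact (h 0).pos
    | succ k ih =>
      rw [hN k]
      have := hq k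
      nlinarith
  have hlen : ∀ k, t k - s k ≤ (1 / 2 : ℝ) ^ k := by
    intro k
    have h2 := (h k).len
    have h3 := (h k).lt
    have h4 : (2 : ℝ) ^ k ≤ 2 ^ ((q k - 2) * N k) := by
      refine pow_le_pow_right₀ (by norm_num) ?_
      have h5 := hNk k
      have h6 := hq k
      calc k ≤ 1 * N k := by omega
        _ ≤ (q k - 2) * N k := Nat.mul_le_mul_right _ (by omega)
    have h5 : (2 : ℝ) ^ k * (t k - s k) ≤ 1 :=
      (mul_le_mul_of_nonneg_right h4 (by linarith)).trans h2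
    rw [one_div, inv_pow, ← one_div, le_div_iff₀ (by positivity)]
    linarith
  have hlim : Tendsto s atTop (𝓝 θ) := by
    rw [tendsto_iff_dist_tendsto_zero]
    refine squeeze_zero (fun _ => dist_nonneg) (fun k => ?_)
      (tendsto_pow_atTop_nhds_zero_of_lt_one (by norm_num : (0 : ℝ) ≤ 1 / 2) (by norm_num))
    rw [dist_comm, Real.dist_eq, abs_of_nonneg (by linarith [(hθ k).1])]
    linarith [hlen k, (hθ k).2]
  intro M
  refine ⟨N M * q M, ?_, s M, t M, wake_of_ca (h M) (h0 M) (h1 M), ?_⟩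
  · have h2 := hNk M
    have h3 := hq M
    nlinarith
  · refine (isClosed_tuned (hpos M) (s M) (t M)).mem_of_tendsto hlim ?_
    filter_upwards [eventually_ge_atTop M] with k hk
    exact hanti hk (hself k)

end Pool.Agent.Work.MLC.Shp
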