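import Mathlib

set_option autoImplicit false

/-! # Theorem CAP: the definitions of the infinitely renormalizable angles (helper90) -/

namespace Pool.Agent.Work.MLC.Shp

/-- `x` and `y` are in the same component of the circle minus the points `θ / 2`, `(θ + 1) / 2` -/
def SameSide (θ x y : ℝ) : Prop := ∃ w j k : ℤ, (θ + w) / 2 + j < x ∧ x < (θ + w) / 2 + j + 1 / 2 ∧
  (θ + w) / 2 + k < y ∧ y < (θ + w) / 2 + k + 1 / 2

/-- `α`, `β` are the angles of the wake of a hyperbolic component of period `m` -/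
structure Wake (m : ℕ) (α β : ℝ) : Prop where
  pos : 0 < m
  nonneg : 0 ≤ α
  lt : α < β
  le_one : β ≤ 1
  per : ∃ a : ℤ, (2 ^ m - 1) * α = a
  per' : ∃ b : ℤ, (2 ^ m - 1) * β = b
  exact : ∀ d, 0 < d → d < m → ¬ ∃ a : ℤ, (2 ^ d - 1) * α = a
  exact' : ∀ d, 0 < d → d < m → ¬ ∃ b : ℤ, (2 ^ d - 1) * β = b
  side : ∀ θ, α < θ → θ < β → ∀ i : ℕ, SameSide θ (2 ^ i * α) (2 ^ i * β)

/-- the angles of the small copy of the Mandelbrot set: replace the digits `0`, `1` by the periods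
of `α`, `β` -/
def Tuned (m : ℕ) (α β : ℝ) : Set ℝ :=
  {θ | ∃ ε : ℕ → ℝ, (∀ i, ε i = α ∨ ε i = β) ∧ HasSum (fun i => (2 ^ m - 1) * ε i / 2 ^ (m * (i + 1))) θ}

/-- infinitely renormalizable angles -/
def InfRen (θ : ℝ) : Prop := ∀ N : ℕ, ∃ m ≥ N, ∃ α β : ℝ, Wake m α β ∧ θ ∈ Tuned m α β

end Pool.Agent.Work.MLC.Shp
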