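import Mathlib

set_option autoImplicit false

namespace Pool.Agent.Work.MLC.Shp

/-- the children of the Farey interval `(a / b, c / e)` -/
def ch (a b c e : ℕ) : Fin 4 → ℕ × ℕ × ℕ × ℕ
  | 0 => (a, b, 2 * a + c, 2 * b + e)
  | 1 => (2 * a + c, 2 * b + e, a + c, b + e)
  | 2 => (a + c, b + e, a + 2 * c, b + 2 * e)
  | 3 => (a + 2 * c, b + 2 * e, c, e)

lemma ch_det {a b c e : ℕ} (h : c * b = a * e + 1) (i : Fin 4) :
    (ch a b c e i).2.2.1 * (ch a b c e i).2.1 = (ch a b c e i).1 * (ch a b c e i).2.2.2 + 1 := by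
  fin_cases i <;> simp only [ch] <;> nlinarith

lemma ch_pos {a b c e : ℕ} (hb : 0 < b) (he : 0 < e) (i : Fin 4) :
    0 < (ch a b c e i).2.1 ∧ 0 < (ch a b c e i).2.2.2 := by
  fin_cases i <;> simp only [ch] <;> omega

lemma ch_sum {a b c e : ℕ} (hb : 0 < b) (he : 0 < e) (i : Fin 4) :
    b + e + 2 ≤ (ch a b c e i).2.1 + (ch a b c e i).2.2.2 ∧
    (ch a b c e i).2.1 + (ch a b c e i).2.2.2 ≤ 3 * (b + e) := by
  fin_cases i <;> simp only [ch] <;> omega

lemma frac_lt {a b c e : ℕ} (hb : 0 < b) (he : 0 < e) (h : a * e < c * b) :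
    (a : ℚ) / b < (c : ℚ) / e := by
  have hb' : (0 : ℚ) < b := by exact_mod_cast hb
  have he' : (0 : ℚ) < e := by exact_mod_cast he
  rw [div_lt_div_iff₀ hb' he']
  exact_mod_cast h

lemma frac_le {a b c e : ℕ} (hb : 0 < b) (he : 0 < e) (h : a * e ≤ c * b) :
    (a : ℚ) / b ≤ (c : ℚ) / e := by
  have hb' : (0 : ℚ) < b := by exact_mod_cast hb
  have he' : (0 : ℚ) < e := by exact_mod_cast he
  rw [div_le_div_iff₀ hb' he']
  exact_mod_cast h

/-- the left end of a child is at least the left end of the interval -/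
lemma ch_left {a b c e : ℕ} (hb : 0 < b) (he : 0 < e) (h : c * b = a * e + 1) (i : Fin 4) :
    (a : ℚ) / b ≤ ((ch a b c e i).1 : ℚ) / (ch a b c e i).2.1 := by
  refine frac_le hb (ch_pos hb he i).1 ?_
  fin_cases i <;> simp only [ch] <;> nlinarith

lemma ch_right {a b c e : ℕ} (hb : 0 < b) (he : 0 < e) (h : c * b = a * e + 1) (i : Fin 4) :
    ((ch a b c e i).2.2.1 : ℚ) / (ch a b c e i).2.2.2 ≤ (c : ℚ) / e := by
  refine frac_le (ch_pos hb he i).2 he ?_
  fin_cases i <;> simp only [ch] <;> nlinarith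

/-- different children are separated by a fraction of small denominator -/
lemma ch_sep {a b c e : ℕ} (hb : 0 < b) (he : 0 < e) (h : c * b = a * e + 1) {i j : Fin 4}
    (hij : i < j) : ∃ y : ℚ, y.den ≤ 3 * (b + e) ∧
      ((ch a b c e i).2.2.1 : ℚ) / (ch a b c e i).2.2.2 ≤ y ∧
      y ≤ ((ch a b c e j).1 : ℚ) / (ch a b c e j).2.1 := by
  refine ⟨((ch a b c e j).1 : ℚ) / (ch a b c e j).2.1, ?_, ?_, le_rfl⟩
  · have h1 : (((ch a b c e j).1 : ℚ) / (ch a b c e j).2.1).den ∣ (ch a b c e j).2.1 := by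
      have h0 := Rat.den_dvd ((ch a b c e j).1 : ℤ) ((ch a b c e j).2.1 : ℤ)
      rw [Rat.divInt_eq_div] at h0
      push_cast at h0
      exact Int.natCast_dvd_natCast.1 h0
    have h2 := Nat.le_of_dvd (ch_pos hb he j).1 h1
    have h3 := (ch_sum (a := a) (c := c) hb he j).2
    have h4 := (ch_pos (a := a) (c := c) hb he j).2
    omega
  · refine frac_le (ch_pos hb he i).2 (ch_pos hb he j).1 ?_
    fin_cases i <;> fin_cases j <;> first | (exfalso; revert hij; decide) | (simp only [ch]; nlinarith)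


/-- the mediant -/
lemma mediant {a b c e : ℕ} (hb : 0 < b) (he : 0 < e) (h : c * b = a * e + 1) :
    (a : ℚ) / b < ((a + c : ℕ) : ℚ) / ((b + e : ℕ) : ℚ) ∧
    ((a + c : ℕ) : ℚ) / ((b + e : ℕ) : ℚ) < (c : ℚ) / e ∧
    (((a + c : ℕ) : ℚ) / ((b + e : ℕ) : ℚ)).den = b + e := by
  refine ⟨frac_lt hb (by omega) (by nlinarith), frac_lt (by omega) he (by nlinarith), ?_⟩
  have hco : Nat.Coprime (a + c) (b + e) := by
    have h1 : IsCoprime ((a + c : ℕ) : ℤ) ((b + e : ℕ) : ℤ) := by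
      refine ⟨(b : ℤ), -(a : ℤ), ?_⟩
      have h2 : (c : ℤ) * b = a * e + 1 := by exact_mod_cast h
      push_cast
      linarith
    exact Nat.isCoprime_iff_coprime.1 h1
  have h3 : ((a + c : ℕ) : ℚ) / ((b + e : ℕ) : ℚ) = (((a + c : ℕ) : ℤ) : ℚ) / (((b + e : ℕ) : ℤ) : ℚ) := by
    push_cast; rfl
  rw [h3]
  have h4 := Rat.den_div_eq_of_coprime (a := ((a + c : ℕ) : ℤ)) (b := ((b + e : ℕ) : ℤ))
    (by exact_mod_cast (by omega : 0 < b + e)) (by rw [Int.natAbs_natCast, Int.natAbs_natCast]; exact hco)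
  exact_mod_cast h4

/-- the induction -/
lemma tree_ind (n : ℕ) : ∀ a b c e : ℕ, 0 < b → 0 < e → c * b = a * e + 1 →
    ∃ (ι : Type) (_ : Fintype ι) (X : ι → ℚ), Fintype.card ι = 4 ^ n ∧
      (∀ i, (a : ℚ) / b < X i ∧ X i < (c : ℚ) / e) ∧
      (∀ i, b + e + 2 * n ≤ (X i).den ∧ (X i).den ≤ 3 ^ n * (b + e)) ∧
      ∀ (k Z : ℕ) (S : Finset ι), k ≤ n → 3 ^ k * (b + e) ≤ Z →
        (∀ i ∈ S, ∀ j ∈ S, ∀ y : ℚ, X i < y → y < X j → Z < y.den) → S.card * 4 ^ k ≤ 4 ^ n := by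
  induction n with
  | zero =>
    intro a b c e hb he h
    obtain ⟨h1, h2, h3⟩ := mediant hb he h
    refine ⟨Unit, inferInstance, fun _ => ((a + c : ℕ) : ℚ) / ((b + e : ℕ) : ℚ), by simp,
      fun _ => ⟨h1, h2⟩, fun _ => ⟨by rw [h3]; omega, by rw [h3]; omega⟩, ?_⟩
    intro k Z S hk _ _
    have : k = 0 := by omega
    subst this
    have := Finset.card_le_univ S
    simpa using this
  | succ n ih =>
    intro a b c e hb he h
    have key := fun i : Fin 4 => ih (ch a b c e i).1 (ch a b c e i).2.1 (ch a b c e i).2.2.1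
      (ch a b c e i).2.2.2 (ch_pos hb he i).1 (ch_pos hb he i).2 (ch_det h i)
    choose ι fι X hcard hin hden hF using key
    refine ⟨Σ i : Fin 4, ι i, inferInstance, fun p => X p.1 p.2, ?_, ?_, ?_, ?_⟩
    · simp [Fintype.card_sigma, hcard]; ring
    · rintro ⟨i, x⟩
      exact ⟨(ch_left hb he h i).trans_lt (hin i x).1, (hin i x).2.trans_le (ch_right hb he h i)⟩
    · rintro ⟨i, x⟩
      have h1 := ch_sum (a := a) (c := c) hb he i
      have h2 := hden i x
      refine ⟨by dsimp only; omega, h2.2.trans ?_⟩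
      calc 3 ^ n * ((ch a b c e i).2.1 + (ch a b c e i).2.2.2) ≤ 3 ^ n * (3 * (b + e)) :=
            Nat.mul_le_mul_left _ h1.2
        _ = 3 ^ (n + 1) * (b + e) := by ring
    · intro k Z S hk hZ hS
      rcases Nat.eq_zero_or_pos k with hk0 | hk0
      · subst hk0
        have h1 := Finset.card_le_univ S
        have h2 : Fintype.card (Σ i : Fin 4, ι i) = 4 ^ (n + 1) := by
          simp [Fintype.card_sigma, hcard]; ring
        rw [h2] at h1
        simpa using h1
      · obtain ⟨k, rfl⟩ : ∃ k', k = k' + 1 := ⟨k - 1, by omega⟩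
        rcases S.eq_empty_or_nonempty with hSe | ⟨⟨i₀, x₀⟩, h0⟩
        · subst hSe; simp
        -- all the elements are below the same child
        have hZ3 : 3 * (b + e) ≤ Z := by
          refine le_trans ?_ hZ
          calc 3 * (b + e) = 1 * (3 * (b + e)) := by ring
            _ ≤ 3 ^ k * (3 * (b + e)) := Nat.mul_le_mul_right _ (Nat.one_le_pow _ _ (by norm_num))
            _ = 3 ^ (k + 1) * (b + e) := by ring
        have hlt : ∀ p ∈ S, ∀ q ∈ S, ¬ p.1 < q.1 := by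
          intro p hp q hq hpq
          obtain ⟨y, hy1, hy2, hy3⟩ := ch_sep hb he h hpq
          have h4 := hS p hp q hq y ((hin p.1 p.2).2.trans_le hy2) (hy3.trans_lt (hin q.1 q.2).1)
          omega
        have hsame : ∀ p ∈ S, p.1 = i₀ := by
          intro p hp
          rcases lt_trichotomy p.1 i₀ with h5 | h5 | h5
          · exact absurd h5 (hlt p hp _ h0)
          · exact h5
          · exact absurd h5 (hlt _ h0 p hp)
        classical
        set S' : Finset (ι i₀) := Finset.univ.filter fun x => (⟨i₀, x⟩ : Σ i : Fin 4, ι i) ∈ S with hS'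
        have hcardS : S.card ≤ S'.card := by
          have hsub : S ⊆ S'.image (fun x => (⟨i₀, x⟩ : Σ i : Fin 4, ι i)) := by
            rintro ⟨i, x⟩ hp
            have h6 : i = i₀ := hsame _ hp
            subst h6
            exact Finset.mem_image.2 ⟨x, by simp [hS', hp], rfl⟩
          exact (Finset.card_le_card hsub).trans Finset.card_image_le
        have h7 := hF i₀ k Z S' (by omega) ?_ ?_
        · calc S.card * 4 ^ (k + 1) ≤ S'.card * 4 ^ (k + 1) := Nat.mul_le_mul_right _ hcardS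
            _ = (S'.card * 4 ^ k) * 4 := by ring
            _ ≤ 4 ^ n * 4 := Nat.mul_le_mul_right _ h7
            _ = 4 ^ (n + 1) := by ring
        · refine le_trans ?_ hZ
          calc 3 ^ k * ((ch a b c e i₀).2.1 + (ch a b c e i₀).2.2.2) ≤ 3 ^ k * (3 * (b + e)) :=
                Nat.mul_le_mul_left _ (ch_sum (a := a) (c := c) hb he i₀).2
            _ = 3 ^ (k + 1) * (b + e) := by ring
        · intro x hx x' hx' y hy hy'
          simp only [hS', Finset.mem_filter, Finset.mem_univ, true_and] at hx hx'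
          exact hS _ hx _ hx' y hy hy'

/-- L: the leaves of the 4-ary Farey tree -/
theorem l_tree : ∀ a b c e n : ℕ, 0 < b → 0 < e → c * b = a * e + 1 →
  ∃ X : Fin (4 ^ n) → ℚ, (∀ i, (a : ℚ) / b < X i ∧ X i < (c : ℚ) / e) ∧
    (∀ i, 2 * n ≤ (X i).den ∧ (X i).den ≤ 3 ^ n * (b + e)) ∧
    ∀ (k Z : ℕ) (S : Finset (Fin (4 ^ n))), k ≤ n → 3 ^ k * (b + e) ≤ Z →
      (∀ i ∈ S, ∀ j ∈ S, ∀ y : ℚ, X i < y → y < X j → Z < y.den) → S.card * 4 ^ k ≤ 4 ^ n := by
  intro a b c e n hb he h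
  obtain ⟨ι, fι, X, hcard, hin, hden, hF⟩ := tree_ind n a b c e hb he h
  let E : Fin (4 ^ n) ≃ ι := (Fintype.equivFinOfCardEq hcard).symm
  refine ⟨fun i => X (E i), fun i => hin _, fun i => ⟨by have := (hden (E i)).1; dsimp only; omega, (hden _).2⟩, ?_⟩
  intro k Z S hk hZ hS
  have h1 := hF k Z (S.map E.toEmbedding) hk hZ ?_
  · simpa using h1
  · intro i hi j hj y hy hy'
    obtain ⟨i', hi', rfl⟩ := Finset.mem_map.1 hi
    obtain ⟨j', hj', rfl⟩ := Finset.mem_map.1 hj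
    exact hS i' hi' j' hj' y hy hy'

end Pool.Agent.Work.MLC.Shp
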