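import Pool.Agent.Work.MLC.ShpWa24
import Pool.Agent.Work.MLC.CntA54
import Pool.Agent.Work.MLC.Cross60

set_option autoImplicit false

/-! # Theorem CAP: the angles of nested satellites are infinitely renormalizable (helper24)

* `wake_of_ca`: a characteristic arc is a wake.
* `Wake.near`: the itinerary of the wake forces the returns of a point to be next to the ends.
* `ca_step`: the copy of the inner wake is in the copy of the outer wake.
* `infRen_of_chain`: the angles in a chain of arcs of satellites are infinitely renormalizable. -/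

namespace Pool.Agent.Work.MLC.Shp

open Filter Topology Metric Set
open Pool.Agent.Work.MLC.Circ Pool.Agent.Work.MLC.Cnt CircleDeg1Lift

variable {m : ℕ} {α β : ℝ}

/-! ### strict monotonicity at compatible points -/

lemma tdbl_lt {s x : ℝ} {k : ℤ} (h1 : s / 2 + k < x) (h2 : x < s / 2 + k + 1 / 2) (y : ℝ) :
    (x < y → tdbl s x < tdbl s y) ∧ (y < x → tdbl s y < tdbl s x) := by
  have e := tdbl_lin k h1.le h2.le
  constructor
  · intro h
    rcases le_total y (s / 2 + k + 1 / 2) with h3 | h3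
    · rw [e, tdbl_lin k (by linarith) h3]; linarith
    · have := (tdbl s).monotone h3
      rw [tdbl_lin k (by linarith) le_rfl] at this
      rw [e]; linarith
  · intro h
    rcases le_total (s / 2 + k) y with h3 | h3
    · rw [e, tdbl_lin k h3 (by linarith)]; linarith
    · have := (tdbl s).monotone h3
      rw [tdbl_lin k le_rfl (by linarith)] at this
      rw [e]; linarith

lemma gw_lt {w : ℕ → ℤ} {θ x : ℝ} {n : ℕ} (h : ∀ i < n, InHalfO (θ + w i) (2 ^ i * x)) (y : ℝ) :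
    (x < y → gw w θ n x < gw w θ n y) ∧ (y < x → gw w θ n y < gw w θ n x) := by
  induction n with
  | zero => exact ⟨fun h => h, fun h => h⟩
  | succ n ih =>
    obtain ⟨i1, i2⟩ := ih fun i hi => h i (by omega)
    obtain ⟨M, hM⟩ := gw_lin w θ x n fun i hi => by
      obtain ⟨k, k1, k2⟩ := h i (by omega)
      exact ⟨k, k1.le, k2.le⟩
    obtain ⟨k, k1, k2⟩ := h n (by omega)
    rw [gw_succ_apply, gw_succ_apply]
    have h3 := tdbl_lt (s := θ + w n) (x := gw w θ n x) (k := k - M)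
      (by rw [hM]; push_cast; linarith) (by rw [hM]; push_cast; linarith) (gw w θ n y)
    exact ⟨fun hxy => h3.1 (i1 hxy), fun hxy => h3.2 (i2 hxy)⟩

/-! ### the return map of a wake -/

lemma closed_half {w z : ℤ} {θ x : ℝ} (hw : w = z % 2) (h1 : θ + z ≤ 2 * x)
    (h2 : 2 * x ≤ θ + z + 1) :
    (θ + w) / 2 + ((z / 2 : ℤ) : ℝ) ≤ x ∧ x ≤ (θ + w) / 2 + ((z / 2 : ℤ) : ℝ) + 1 / 2 := by
  have e : w + 2 * (z / 2) = z := by omega
  have e' : (w : ℝ) + 2 * ((z / 2 : ℤ) : ℝ) = z := by exact_mod_cast e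
  constructor <;> linarith

/-- the letters before the last one, explicit indices -/
lemma Wake.mid2 (h : Wake m α β) {r : ℕ} (hr : r + 1 < m) : ∃ κ κ' : ℤ, ∀ θ δ : ℝ, α < θ → θ < β →
    0 ≤ δ → δ * 2 ^ m ≤ β - α →
    ((θ + wL α r) / 2 + κ ≤ 2 ^ r * (α + δ) ∧ 2 ^ r * (α + δ) ≤ (θ + wL α r) / 2 + κ + 1 / 2) ∧
    ((θ + wL α r) / 2 + κ' ≤ 2 ^ r * (β - δ) ∧
      2 ^ r * (β - δ) ≤ (θ + wL α r) / 2 + κ' + 1 / 2) := by
  obtain ⟨n, n', e1, e2, e3, e4, l, hl⟩ := h.side_int r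
  have hab := h.lt
  have hne : 2 ^ (r + 1) * α - α ≠ ((n + 1 : ℤ) : ℝ) := fun hcon => by
    have := Nat.le_of_dvd (by omega) (h.dvd.1 ⟨_, hcon⟩)
    omega
  have hfl : ⌊(2 : ℝ) ^ (r + 1) * α - α⌋ = n := by
    rw [Int.floor_eq_iff]
    refine ⟨by linarith, lt_of_le_of_ne e2 fun hcon => hne ?_⟩
    push_cast; exact hcon
  have hw : wL α r = n % 2 := by unfold wL; rw [hfl]
  refine ⟨n / 2, n' / 2, fun θ δ h1 h2 h0 hδm => ?_⟩
  have hδ : 2 ^ (r + 1) * δ ≤ (β - α) / 2 := by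
    have f1 : (2 : ℝ) ^ (r + 1) * 2 ≤ 2 ^ m := by
      rw [← pow_succ]; exact pow_le_pow_right₀ (by norm_num) (by omega)
    nlinarith
  have hpr : ∀ x : ℝ, (2 : ℝ) * (2 ^ r * x) = 2 ^ (r + 1) * x := fun x => by rw [pow_succ]; ring
  have hδ0 : 0 ≤ 2 ^ (r + 1) * δ := by positivity
  constructor
  · have h3 := h.win (j := r + 1) (by omega) (by omega) h0 hδm (-(n + 1))
    rw [not_and_or] at h3
    push_cast at h3
    have e5 : (2 : ℝ) ^ (r + 1) * (α + δ) = 2 ^ (r + 1) * α + 2 ^ (r + 1) * δ := by ring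
    have h4 : (2 : ℝ) ^ (r + 1) * (α + δ) + -((n : ℝ) + 1) ≤ α := by
      rcases h3 with h3 | h3
      · exact not_lt.1 h3
      · exfalso; apply h3; rw [e5]; linarith
    refine closed_half hw ?_ ?_
    · rw [hpr, e5]; linarith
    · rw [hpr]; linarith
  · have h3 := h.win' (j := r + 1) (by omega) (by omega) h0 hδm (-n')
    rw [not_and_or] at h3
    push_cast at h3
    have e5 : (2 : ℝ) ^ (r + 1) * (β - δ) = 2 ^ (r + 1) * β - 2 ^ (r + 1) * δ := by ring
    have h4 : β ≤ (2 : ℝ) ^ (r + 1) * (β - δ) + -(n' : ℝ) := by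
      rcases h3 with h3 | h3
      · exfalso; apply h3; rw [e5]; linarith
      · exact not_lt.1 h3
    refine closed_half (z := n') (by rw [hw, hl]; omega) ?_ ?_
    · rw [hpr]; linarith
    · rw [hpr, e5]; linarith

/-- the values of the return map next to the ends of the wake -/
theorem Wake.values (h : Wake m α β) (hm : 2 ≤ m) {θ : ℝ} (h1 : α < θ) (h2 : θ < β) :
    ∃ κ : ℤ, gw (wL α) θ m α = θ + κ ∧ gw (wL α) θ m (α + (β - α) / 2 ^ m) = β + κ ∧
      gw (wL α) θ m β = θ + κ + 1 ∧ gw (wL α) θ m (β - (β - α) / 2 ^ m) = α + κ + 1 := by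
  have hab := h.lt
  have h0 := h.nonneg
  have hb1 := h.le_one
  obtain ⟨a, ha'⟩ := h.per
  obtain ⟨b, hb'⟩ := h.per'
  have ha : (2 : ℝ) ^ m * α = α + a := by linarith
  have hb : (2 : ℝ) ^ m * β = β + b := by linarith
  have hm1 : m - 1 + 1 = m := by omega
  have hp : (0 : ℝ) < 2 ^ m := by positivity
  have hpm : (2 : ℝ) ^ m = 2 * 2 ^ (m - 1) := by
    conv_lhs => rw [← hm1]
    rw [pow_succ]; ring
  have hkk : ∀ r, ∃ κ κ' : ℤ, r + 1 < m → ∀ θ δ : ℝ, α < θ → θ < β → 0 ≤ δ → δ * 2 ^ m ≤ β - α →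
      ((θ + wL α r) / 2 + κ ≤ 2 ^ r * (α + δ) ∧ 2 ^ r * (α + δ) ≤ (θ + wL α r) / 2 + κ + 1 / 2) ∧
      ((θ + wL α r) / 2 + κ' ≤ 2 ^ r * (β - δ) ∧
        2 ^ r * (β - δ) ≤ (θ + wL α r) / 2 + κ' + 1 / 2) := by
    intro r
    by_cases hr : r + 1 < m
    · obtain ⟨κ, κ', hκ⟩ := h.mid2 hr
      exact ⟨κ, κ', fun _ => hκ⟩
    · exact ⟨0, 0, fun hcon => absurd hcon hr⟩
  choose κ κ' hκ using hkk
  set K : ℤ := ∑ i ∈ Finset.range (m - 1), κ i with hK
  set K' : ℤ := ∑ i ∈ Finset.range (m - 1), κ' i with hK'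
  have hA : ∀ δ : ℝ, 0 ≤ δ → δ * 2 ^ m ≤ β - α →
      gw (wL α) θ (m - 1) (α + δ) = 2 ^ (m - 1) * (α + δ) - (K : ℝ) := fun δ d0 d1 =>
    gw_expl _ θ _ κ (m - 1) fun i hi => (hκ i (by omega) θ δ h1 h2 d0 d1).1
  have hB : ∀ δ : ℝ, 0 ≤ δ → δ * 2 ^ m ≤ β - α →
      gw (wL α) θ (m - 1) (β - δ) = 2 ^ (m - 1) * (β - δ) - (K' : ℝ) := fun δ d0 d1 =>
    gw_expl _ θ _ κ' (m - 1) fun i hi => (hκ i (by omega) θ δ h1 h2 d0 d1).2
  have wa : wL α (m - 1) = a % 2 := by
    unfold wL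
    rw [hm1, show (2 : ℝ) ^ m * α - α = a by linarith, Int.floor_intCast]
  have wb : wL α (m - 1) = (b - 1) % 2 := by
    rw [h.wL_eq]; unfold wR
    rw [hm1, show (2 : ℝ) ^ m * β - β = b by linarith, Int.ceil_intCast]
  have ea : wL α (m - 1) + 2 * (a / 2) = a := by omega
  have eb : wL α (m - 1) + 2 * ((b - 1) / 2) = b - 1 := by omega
  have ea' : (wL α (m - 1) : ℝ) + 2 * ((a / 2 : ℤ) : ℝ) = a := by exact_mod_cast ea
  have eb' : (wL α (m - 1) : ℝ) + 2 * (((b - 1) / 2 : ℤ) : ℝ) = b - 1 := by exact_mod_cast eb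
  have hsucc : ∀ x : ℝ, gw (wL α) θ m x = tdbl (θ + wL α (m - 1)) (gw (wL α) θ (m - 1) x) :=
    fun x => by
      conv_lhs => rw [← hm1]
      rfl
  have hδ0 : 0 ≤ (β - α) / 2 ^ m := div_nonneg (by linarith) hp.le
  have hδ1 : (β - α) / 2 ^ m * 2 ^ m ≤ β - α := by rw [div_mul_cancel₀ _ hp.ne']
  have hδ2 : (2 : ℝ) * 2 ^ (m - 1) * ((β - α) / 2 ^ m) = β - α := by
    rw [← hpm, mul_div_cancel₀ _ hp.ne']
  rw [hpm] at ha hb
  have vA0 : gw (wL α) θ m α = θ + ((a - K - a / 2 : ℤ) : ℝ) := by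
    have h3 := hA 0 le_rfl (by rw [zero_mul]; linarith)
    rw [add_zero] at h3
    rw [hsucc, h3, tdbl_flat (a / 2 - K - 1) (by push_cast; linarith) (by push_cast; linarith)]
    push_cast; linarith
  have vA1 : gw (wL α) θ m (α + (β - α) / 2 ^ m) = β + ((a - K - a / 2 : ℤ) : ℝ) := by
    have e : (2 : ℝ) ^ (m - 1) * (α + (β - α) / 2 ^ m) = (β + a) / 2 := by
      linarith
    rw [hsucc, hA _ hδ0 hδ1, e, tdbl_lin (a / 2 - K) (by push_cast; linarith)
      (by push_cast; linarith)]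
    push_cast; linarith
  have vB0 : gw (wL α) θ m β = θ + ((b - K' - (b - 1) / 2 : ℤ) : ℝ) := by
    have h3 := hB 0 le_rfl (by rw [zero_mul]; linarith)
    rw [sub_zero] at h3
    rw [hsucc, h3, tdbl_flat ((b - 1) / 2 - K') (by push_cast; linarith) (by push_cast; linarith)]
    push_cast; linarith
  have vB1 : gw (wL α) θ m (β - (β - α) / 2 ^ m) = α + ((b - K' - (b - 1) / 2 : ℤ) : ℝ) := by
    have e : (2 : ℝ) ^ (m - 1) * (β - (β - α) / 2 ^ m) = (α + b) / 2 := by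
      linarith
    rw [hsucc, hB _ hδ0 hδ1, e, tdbl_lin ((b - 1) / 2 - K') (by push_cast; linarith)
      (by push_cast; linarith)]
    push_cast; linarith
  obtain ⟨k, -, -, -, hs⟩ := h.strip hm
  obtain ⟨s1, s2⟩ := hs θ h1 h2
  have s2' : nu (wL α) m θ < ((k + 1 : ℤ) : ℝ) := by push_cast; exact s2
  have t1 := lt_map_of_int_lt_translationNumber (f := gw (wL α) θ m) s1 α
  have t2 := map_lt_of_translationNumber_lt_int (f := gw (wL α) θ m) s2' α
  have t3 := lt_map_of_int_lt_translationNumber (f := gw (wL α) θ m) s1 β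
  have t4 := map_lt_of_translationNumber_lt_int (f := gw (wL α) θ m) s2' β
  rw [vA0] at t1 t2
  rw [vB0] at t3 t4
  push_cast at t1 t2 t3 t4
  have f1 : ((a - K - a / 2 : ℤ) : ℝ) < ((k + 1 : ℤ) : ℝ) := by push_cast; linarith
  have f2 : ((k - 1 : ℤ) : ℝ) < ((a - K - a / 2 : ℤ) : ℝ) := by push_cast; linarith
  have f3 : ((b - K' - (b - 1) / 2 : ℤ) : ℝ) < ((k + 2 : ℤ) : ℝ) := by push_cast; linarith
  have f4 : ((k : ℤ) : ℝ) < ((b - K' - (b - 1) / 2 : ℤ) : ℝ) := by push_cast; linarith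
  have g1 := cast_lt_of f1
  have g2 := cast_lt_of f2
  have g3 := cast_lt_of f3
  have g4 := cast_lt_of f4
  have e1 : a - K - a / 2 = k := by omega
  have e2 : b - K' - (b - 1) / 2 = k + 1 := by omega
  rw [e1] at vA0 vA1
  rw [e2] at vB0 vB1
  refine ⟨k, vA0, vA1, ?_, ?_⟩
  · rw [vB0]; push_cast; ring
  · rw [vB1]; push_cast; ring

/-- **the returns of a point with the itinerary of the wake are next to the ends** -/
theorem Wake.near (h : Wake m α β) (hm : 2 ≤ m) {θ x : ℝ} (h1 : α < θ) (h2 : θ < β)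
    (hx : Circ.Compat (wL α) θ x) (i : ℕ) : ∃ l : ℤ, α < 2 ^ (m * i) * x - l ∧
      2 ^ (m * i) * x - l < β ∧ (2 ^ (m * i) * x - l < α + (β - α) / 2 ^ m ∨
        β - (β - α) / 2 ^ m < 2 ^ (m * i) * x - l) := by
  obtain ⟨κ, vA0, vA1, vB0, vB1⟩ := h.values hm h1 h2
  have hab := h.lt
  have hα0 : 0 < α := by
    refine lt_of_le_of_ne h.nonneg fun hcon => ?_
    exact h.exact 1 one_pos (by omega) ⟨0, by rw [← hcon]; simp⟩
  have hb1 := h.le_one
  have hper : ∀ i j, wL α (j + m * i) = wL α j := by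
    intro i
    induction i with
    | zero => intro j; simp
    | succ i ih => intro j; rw [show j + m * (i + 1) = j + m * i + m by ring, h.wL_add, ih]
  -- all points of the orbit are compatible
  have hcomp : ∀ (i : ℕ) (l : ℤ), Circ.Compat (wL α) θ (2 ^ (m * i) * x - l) := by
    intro i l j
    obtain ⟨k, k1, k2⟩ := hx (j + m * i)
    rw [hper] at k1 k2
    have e : (2 : ℝ) ^ j * (2 ^ (m * i) * x - l) = 2 ^ (j + m * i) * x - 2 ^ j * l := by
      rw [pow_add]; ring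
    refine ⟨k - 2 ^ j * l, ?_, ?_⟩
    · rw [e]; push_cast; linarith
    · rw [e]; push_cast; linarith
  -- claim 1
  have claim : ∀ i : ℕ, ∃ l : ℤ, α < 2 ^ (m * i) * x - l ∧ 2 ^ (m * i) * x - l < β := by
    intro i
    set y₀ : ℝ := 2 ^ (m * i) * x with hy₀
    set l : ℤ := ⌊y₀ - (β - 1)⌋ with hl
    have f1 := Int.floor_le (y₀ - (β - 1))
    have f2 := Int.lt_floor_add_one (y₀ - (β - 1))
    rw [← hl] at f1 f2
    refine ⟨l, ?_, by linarith⟩
    by_contra hcon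
    push Not at hcon
    have hc := hcomp i l
    rw [← hy₀] at hc
    have hlt := gw_lt (n := m) (w := wL α) (θ := θ) (x := y₀ - l) fun j _ => hc j
    have hb2 : gw (wL α) θ m (β - 1) = θ + κ := by
      have e := map_add_one (gw (wL α) θ m) (β - 1)
      rw [sub_add_cancel, vB0] at e
      linarith
    have g1 : gw (wL α) θ m (β - 1) ≤ gw (wL α) θ m (y₀ - l) :=
      (gw (wL α) θ m).monotone (by linarith)
    have g2 : gw (wL α) θ m (y₀ - l) ≤ gw (wL α) θ m α := (gw (wL α) θ m).monotone hcon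
    rcases hcon.lt_or_eq with h3 | h3
    · have := (hlt α).1 h3
      linarith
    · have := (hlt (β - 1)).2 (by linarith)
      rw [h3] at this
      linarith
  obtain ⟨l, l1, l2⟩ := claim i
  obtain ⟨l', l3, l4⟩ := claim (i + 1)
  refine ⟨l, l1, l2, ?_⟩
  set y : ℝ := 2 ^ (m * i) * x - l with hy
  obtain ⟨M, hM⟩ := gw_lin (wL α) θ y m fun j _ => by
    obtain ⟨k, k1, k2⟩ := hcomp i l j
    exact ⟨k, k1.le, k2.le⟩
  -- the value is an orbit point
  have e1 : gw (wL α) θ m y = (2 ^ (m * (i + 1)) * x - l') +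
      ((l' - 2 ^ m * l - M : ℤ) : ℝ) := by
    rw [hM, hy, Nat.mul_succ, pow_add]
    push_cast; ring
  set c : ℝ := 2 ^ (m * (i + 1)) * x - l' with hc
  set z : ℤ := l' - 2 ^ m * l - M with hz
  have g1 : gw (wL α) θ m α ≤ gw (wL α) θ m y := (gw (wL α) θ m).monotone l1.le
  have g2 : gw (wL α) θ m y ≤ gw (wL α) θ m β := (gw (wL α) θ m).monotone l2.le
  rw [vA0, e1] at g1
  rw [vB0, e1] at g2
  have f1 : ((κ - 1 : ℤ) : ℝ) < ((z : ℤ) : ℝ) := by push_cast; linarith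
  have f2 : ((z : ℤ) : ℝ) < ((κ + 2 : ℤ) : ℝ) := by push_cast; linarith
  have f3 := cast_lt_of f1
  have f4 := cast_lt_of f2
  rcases (by omega : z = κ ∨ z = κ + 1) with h3 | h3
  · left
    by_contra hcon
    push Not at hcon
    have g3 := (gw (wL α) θ m).monotone hcon
    rw [vA1, e1, h3] at g3
    linarith
  · right
    by_contra hcon
    push Not at hcon
    have g3 := (gw (wL α) θ m).monotone hcon
    rw [vB1, e1, h3] at g3
    push_cast at g3
    linarith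

/-- the digits of a point whose returns are next to the ends -/
theorem Wake.digits (h : Wake m α β) (hm : 2 ≤ m) {x : ℝ} (hx1 : α < x) (hx2 : x < β)
    (hx : ∀ i : ℕ, ∃ l : ℤ, α < 2 ^ (m * i) * x - l ∧
      2 ^ (m * i) * x - l < β ∧ (2 ^ (m * i) * x - l < α + (β - α) / 2 ^ m ∨
        β - (β - α) / 2 ^ m < 2 ^ (m * i) * x - l)) {q : ℕ}
    (hq : ∃ a : ℤ, (2 : ℝ) ^ (m * q) * x - x = a) :
    ∃ y : ℕ → ℝ, y 0 = x ∧ y q = x ∧ (∀ i, α < y i ∧ y i < β) ∧
      ∀ i, ∃ e, (e = α ∨ e = β) ∧ y (i + 1) = 2 ^ m * y i - (2 ^ m - 1) * e := by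
  have hab := h.lt
  have hα0 : 0 < α := by
    refine lt_of_le_of_ne h.nonneg fun hcon => ?_
    exact h.exact 1 one_pos (by omega) ⟨0, by rw [← hcon]; simp⟩
  have hb1 := h.le_one
  obtain ⟨a, ha⟩ := h.per
  obtain ⟨b, hb⟩ := h.per'
  have hp : (0 : ℝ) < 2 ^ m := by positivity
  have hδ : 2 ^ m * ((β - α) / 2 ^ m) = β - α := by field_simp
  choose l l1 l2 l3 using hx
  -- uniqueness of the representative
  have huniq : ∀ u v : ℝ, α < u → u < β → α < v → v < β → ∀ z : ℤ, u = v + z → u = v := by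
    intro u v u1 u2 v1 v2 z huv
    have f1 : ((-1 : ℤ) : ℝ) < ((z : ℤ) : ℝ) := by push_cast; linarith
    have f2 : ((z : ℤ) : ℝ) < ((1 : ℤ) : ℝ) := by push_cast; linarith
    have f3 := cast_lt_of f1
    have f4 := cast_lt_of f2
    have : z = 0 := by omega
    rw [huv, this]; simp
  refine ⟨fun i => 2 ^ (m * i) * x - l i, ?_, ?_, fun i => ⟨l1 i, l2 i⟩, fun i => ?_⟩
  · refine huniq _ _ (l1 0) (l2 0) hx1 hx2 (-l 0) ?_
    push_cast
    rw [Nat.mul_zero, pow_zero]; ring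
  · obtain ⟨A, hA⟩ := hq
    refine huniq _ _ (l1 q) (l2 q) hx1 hx2 (A - l q) ?_
    push_cast
    linarith
  · have e1 : (2 : ℝ) ^ (m * (i + 1)) * x = 2 ^ m * (2 ^ (m * i) * x) := by
      rw [Nat.mul_succ, pow_add]; ring
    rcases l3 i with h3 | h3
    · refine ⟨α, Or.inl rfl, ?_⟩
      show 2 ^ (m * (i + 1)) * x - l (i + 1) = 2 ^ m * (2 ^ (m * i) * x - l i) - (2 ^ m - 1) * α
      have g1 := mul_lt_mul_of_pos_left (l1 i) hp
      have g2 := mul_lt_mul_of_pos_left h3 hp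
      rw [mul_add, hδ] at g2
      refine huniq _ _ (l1 (i + 1)) (l2 (i + 1)) (by linarith) (by linarith)
        (2 ^ m * l i + a - l (i + 1)) ?_
      rw [e1, ha]; push_cast; ring
    · refine ⟨β, Or.inr rfl, ?_⟩
      show 2 ^ (m * (i + 1)) * x - l (i + 1) = 2 ^ m * (2 ^ (m * i) * x - l i) - (2 ^ m - 1) * β
      have g1 := mul_lt_mul_of_pos_left (l2 i) hp
      have g2 := mul_lt_mul_of_pos_left h3 hp
      rw [mul_sub (2 ^ m : ℝ) β, hδ] at g2
      refine huniq _ _ (l1 (i + 1)) (l2 (i + 1)) (by linarith) (by linarith)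
        (2 ^ m * l i + b - l (i + 1)) ?_
      rw [e1, hb]; push_cast; ring

end Pool.Agent.Work.MLC.Shp
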