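import Pool.Agent.Work.MLC.Shp0
import Pool.Agent.Work.MLC.PriBT57b
import Pool.Agent.Work.MLC.PriK15

set_option autoImplicit false

/-! # Theorem CAP, stage B: infinitely renormalizable angles are in infinitely many pieces
(helper90) -/

namespace Pool.Agent.Work.MLC.Shp

open Filter Topology Metric Set
open Pool.Agent.Work.MLC.Sat Pool.Agent.Work.MLC.Cnt Pool.Agent.Work.MLC.Circ

variable {m : ℕ} {α β : ℝ}

/-- the constant sequence of digits -/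
lemma hasSum_digits (hm : 0 < m) (c : ℝ) :
    HasSum (fun i : ℕ => (2 ^ m - 1) * c / 2 ^ (m * (i + 1))) c := by
  have h1 : (1 : ℝ) < 2 ^ m := one_lt_pow₀ (by norm_num) (by omega)
  have h2 := hasSum_geometric_of_lt_one (r := 1 / (2 : ℝ) ^ m) (by positivity)
    (by rw [div_lt_one (by positivity)]; exact h1)
  have h3 := h2.mul_left ((2 ^ m - 1) * c / 2 ^ m)
  have h4 : (2 ^ m - 1) * c / 2 ^ m * (1 - 1 / (2 : ℝ) ^ m)⁻¹ = c := by
    have h5 : (2 : ℝ) ^ m - 1 ≠ 0 := by linarith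
    have h6 : (2 : ℝ) ^ m ≠ 0 := by positivity
    field_simp
  rw [h4] at h3
  refine h3.congr_fun ?_ |> fun h => h
  intro i
  rw [one_div, inv_pow, ← pow_mul, mul_add, mul_one, pow_add]
  field_simp

/-- the tuned angles are in the windows -/
lemma tuned_window (hm : 0 < m) (hab : α < β) {θ : ℝ} (h : θ ∈ Tuned m α β) :
    (α ≤ θ ∧ θ ≤ α + (β - α) / 2 ^ m) ∨ (β - (β - α) / 2 ^ m ≤ θ ∧ θ ≤ β) := by
  obtain ⟨ε, hε, hs⟩ := h
  have hp : (0 : ℝ) < 2 ^ m := by positivity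
  have h1 : (1 : ℝ) < 2 ^ m := one_lt_pow₀ (by norm_num) (by omega)
  have h2 := (hasSum_nat_add_iff' 1).2 hs
  rw [Finset.sum_range_one] at h2
  have h3 := h2.mul_left ((2 : ℝ) ^ m)
  have h4 : (fun i : ℕ => (2 : ℝ) ^ m * ((2 ^ m - 1) * ε (i + 1) / 2 ^ (m * (i + 1 + 1)))) =
      fun i : ℕ => (2 ^ m - 1) * ε (i + 1) / 2 ^ (m * (i + 1)) := by
    funext i
    rw [show m * (i + 1 + 1) = m * (i + 1) + m by ring, pow_add]
    field_simp
  rw [h4] at h3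
  have hlo := hasSum_le (fun i => ?_) (hasSum_digits hm α) h3
  have hhi := hasSum_le (fun i => ?_) h3 (hasSum_digits hm β)
  · simp only [zero_add, mul_one] at hlo hhi
    have e : (2 : ℝ) ^ m * (θ - (2 ^ m - 1) * ε 0 / 2 ^ m) = 2 ^ m * θ - (2 ^ m - 1) * ε 0 := by
      field_simp
    rw [e] at hlo hhi
    rcases hε 0 with h5 | h5
    · left
      rw [h5] at hlo hhi
      constructor
      · nlinarith
      · rw [← sub_le_iff_le_add', le_div_iff₀ hp]; linarith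
    · right
      rw [h5] at hlo hhi
      constructor
      · have : (β - θ) * 2 ^ m ≤ β - α := by linarith
        have := (le_div_iff₀ hp).2 this
        linarith
      · nlinarith
  · have h6 : ε (i + 1) ≤ β := by rcases hε (i + 1) with h | h <;> rw [h]; exact hab.le
    have h7 : (0 : ℝ) ≤ 2 ^ m - 1 := by linarith
    gcongr
  · have h6 : α ≤ ε (i + 1) := by rcases hε (i + 1) with h | h <;> rw [h]; exact hab.le
    have h7 : (0 : ℝ) ≤ 2 ^ m - 1 := by linarith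
    gcongr

/-- the component of a wake -/
lemma Wake.ws (h : Wake m α β) (hm : 2 ≤ m) : ∃ W : WS, W.Ok ∧ W.m = m ∧ W.w = wL α ∧
    ∀ θ, α < θ → θ < β → 0 < W.nu θ ∧ W.nu θ < 1 := by
  obtain ⟨k, hw, -, -, hk⟩ := h.strip hm
  obtain ⟨σ, hσ, hex⟩ := Pri.exists_wide_word h.pos hw k
  refine ⟨⟨m, wL α, k, σ⟩, ⟨hσ, hex⟩, rfl, rfl, fun θ h1 h2 => ?_⟩
  obtain ⟨h3, h4⟩ := hk θ h1 h2
  unfold WS.nu
  constructor <;> simp only <;> linarith

/-- the ends of the plateaus are rational -/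
lemma plateau_rat {W : WS} (hW : W.Ok) {y : ℚ} (h0 : 0 < y) (h1 : y < 1) :
    (∃ r : ℚ, (W.dat y).tm = r) ∧ ∃ r : ℚ, (W.dat y).tp = r := by
  have hm := hW.wide.pos
  have hwd : Word W.m W.w := hW.wide.word hW.ex
  obtain ⟨s, t, hst⟩ := PriK.exists_plat hm hwd W.k h0 h1
  have hiff : ∀ θ, (s ≤ θ ∧ θ ≤ t) ↔ ((W.dat y).tm ≤ θ ∧ θ ≤ (W.dat y).tp) := by
    intro θ
    rw [← hst.iff, ← WS.plateau hW h0 h1]
    unfold WS.nu
    constructor <;> intro h <;> linarith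
  have hlt := hst.lt
  have hlt' := (WS.dat_cir hW h0 h1).lt
  have e1 : (W.dat y).tm = s := le_antisymm ((hiff s).1 ⟨le_rfl, hlt.le⟩).1
    ((hiff _).2 ⟨le_rfl, hlt'.le⟩).1
  have e2 : (W.dat y).tp = t := le_antisymm ((hiff _).2 ⟨hlt'.le, le_rfl⟩).2
    ((hiff t).1 ⟨hlt.le, le_rfl⟩).2
  have hrat : ∀ x : ℝ, (∃ a : ℤ, (2 : ℝ) ^ (W.m * y.den) * x - x = a) → ∃ r : ℚ, x = r := by
    rintro x ⟨a, ha⟩
    have h2 : (1 : ℝ) < 2 ^ (W.m * y.den) := one_lt_pow₀ (by norm_num)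
      (Nat.mul_pos hm y.den_pos).ne'
    refine ⟨a / (2 ^ (W.m * y.den) - 1), ?_⟩
    push_cast
    rw [eq_div_iff (by linarith)]
    linarith
  exact ⟨e1 ▸ hrat s hst.per_s, e2 ▸ hrat t hst.per_t⟩

lemma Wake.rat (h : Wake m α β) : (∃ r : ℚ, α = r) ∧ ∃ r : ℚ, β = r := by
  have h1 : (1 : ℝ) < 2 ^ m := one_lt_pow₀ (by norm_num) h.pos.ne'
  obtain ⟨a, ha⟩ := h.per
  obtain ⟨b, hb⟩ := h.per'
  refine ⟨⟨a / (2 ^ m - 1), ?_⟩, b / (2 ^ m - 1), ?_⟩
  · push_cast; rw [eq_div_iff (by linarith)]; linarith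
  · push_cast; rw [eq_div_iff (by linarith)]; linarith

/-- the left ends increase to the tip -/
lemma exists_sL (hm : 0 < m) {θ : ℝ} (h1 : sL m α β 1 < θ)
    (h2 : θ < α + (β - α) / 2 ^ m) (hne : ∀ n, θ ≠ sL m α β n) :
    ∃ n, 0 < n ∧ sL m α β n < θ ∧ θ < sL m α β (n + 1) := by
  have hp : (0 : ℝ) < 2 ^ m := by positivity
  have htend : Tendsto (fun n => sL m α β n) atTop (𝓝 (α + (β - α) / 2 ^ m)) := by
    have h3 : ∀ n, sL m α β n = α + (β - α) / 2 ^ m - (β - α) / 2 ^ m * (1 / (2 ^ (m * n) + 1)) := by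
      intro n
      unfold sL
      have : (0 : ℝ) < 2 ^ (m * n) + 1 := by positivity
      field_simp
      ring
    have h4 : Tendsto (fun n : ℕ => (1 : ℝ) / (2 ^ (m * n) + 1)) atTop (𝓝 0) := by
      have h5 : Tendsto (fun n : ℕ => (2 : ℝ) ^ (m * n) + 1) atTop atTop := by
        apply Filter.tendsto_atTop_add_const_right
        have h6 : (1 : ℝ) < 2 ^ m := one_lt_pow₀ (by norm_num) (by omega)
        have h7 := tendsto_pow_atTop_atTop_of_one_lt h6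
        refine h7.congr fun n => ?_
        rw [pow_mul]
      simpa using h5.inv_tendsto_atTop.congr fun n => by simp
    have h8 := (h4.const_mul ((β - α) / 2 ^ m)).const_sub (α + (β - α) / 2 ^ m)
    rw [mul_zero, sub_zero] at h8
    exact h8.congr fun n => (h3 n).symm
  have hex : ∃ n, θ < sL m α β (n + 1) := by
    have h3 := (htend.comp (tendsto_add_atTop_nat 1)).eventually (lt_mem_nhds h2)
    exact h3.exists
  classical
  set n := Nat.find hex with hn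
  have hspec : θ < sL m α β (n + 1) := Nat.find_spec hex
  have hn0 : 0 < n := by
    rcases Nat.eq_zero_or_pos n with h | h
    · rw [h, zero_add] at hspec
      exact absurd hspec (not_lt.2 h1.le)
    · exact h
  obtain ⟨l, hl⟩ : ∃ l, n = l + 1 := ⟨n - 1, by omega⟩
  have hmin : ¬ θ < sL m α β (l + 1) := Nat.find_min hex (by omega)
  rw [← hl] at hmin
  exact ⟨n, hn0, lt_of_le_of_ne (not_lt.1 hmin) (hne n).symm, hspec⟩

lemma sR_refl (m : ℕ) (α β : ℝ) (n : ℕ) : sR m α β n = 1 - sL m (1 - β) (1 - α) n := by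
  unfold sR sL
  ring

lemma sL_rat (h : Wake m α β) (n : ℕ) : ∃ r : ℚ, sL m α β n = r := by
  obtain ⟨⟨r, hr⟩, s, hs⟩ := h.rat
  refine ⟨r + (s - r) * 2 ^ (m * n) / (2 ^ m * (2 ^ (m * n) + 1)), ?_⟩
  unfold sL
  rw [hr, hs]
  push_cast
  ring

/-- **Module T3** -/
theorem t_pieces (hH : T_half) (hI : T_irr) : T_pieces := by
  refine ⟨Set.range ((↑) : ℚ → ℝ), Set.countable_range _, fun θ hθ hR => ?_⟩
  have hirr : ∀ r : ℚ, θ ≠ r := fun r h => hθ ⟨r, h.symm⟩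
  -- the wakes
  have hwin : ∀ {m : ℕ} {α β : ℝ}, Wake m α β → θ ∈ Tuned m α β → α < θ ∧ θ < β := by
    intro m α β h ht
    obtain ⟨⟨r, hr⟩, s, hs⟩ := h.rat
    have hab := h.lt
    have h1 : (1 : ℝ) < 2 ^ m := one_lt_pow₀ (by norm_num) h.pos.ne'
    have h2 : (β - α) / 2 ^ m ≤ β - α := div_le_self (by linarith) h1.le
    have h3 : α ≤ θ ∧ θ ≤ β := by
      rcases tuned_window h.pos hab ht with h | h
      · exact ⟨h.1, by linarith [h.2]⟩
      · exact ⟨by linarith [h.1], h.2⟩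
    exact ⟨lt_of_le_of_ne h3.1 fun h4 => hirr r (by rw [← h4, hr]),
      lt_of_le_of_ne h3.2 fun h4 => hirr s (by rw [h4, hs])⟩
  -- a good wake of large period
  have hgood : ∀ M : ℕ, ∃ (m : ℕ) (α β : ℝ) (W : WS) (x : ℚ), M ≤ m ∧ 2 ≤ m ∧ Wake m α β ∧
      θ ∈ Tuned m α β ∧ W.Ok ∧ W.m = m ∧ W.w = wL α ∧ (∀ θ, α < θ → θ < β → 0 < W.nu θ ∧ W.nu θ < 1) ∧
      W.nu θ = x := by
    intro M
    obtain ⟨m₁, hm₁, α₁, β₁, hw₁, ht₁⟩ := hR (max M 2)
    have h2₁ : 2 ≤ m₁ := (le_max_right _ _).trans hm₁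
    obtain ⟨W₁, hW₁, e₁, f₁, g₁⟩ := hw₁.ws h2₁
    by_cases hi₁ : Irrational (W₁.nu θ)
    · obtain ⟨m₂, hm₂, α₂, β₂, hw₂, ht₂⟩ := hR (m₁ + 1)
      have h2₂ : 2 ≤ m₂ := by omega
      obtain ⟨W₂, hW₂, e₂, f₂, g₂⟩ := hw₂.ws h2₂
      by_cases hi₂ : Irrational (W₂.nu θ)
      · exfalso
        obtain ⟨a1, a2⟩ := hwin hw₁ ht₁
        obtain ⟨b1, b2⟩ := hwin hw₂ ht₂
        exact hI W₁ W₂ θ hW₁ hW₂ (by rw [e₁, e₂]; omega) (g₁ θ a1 a2).1 (g₁ θ a1 a2).2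
          (g₂ θ b1 b2).1 (g₂ θ b1 b2).2 hi₁ hi₂
      · unfold Irrational at hi₂
        push Not at hi₂
        obtain ⟨x, hx⟩ := hi₂
        exact ⟨m₂, α₂, β₂, W₂, x, (le_max_left M 2).trans (by omega), h2₂, hw₂, ht₂, hW₂, e₂, f₂, g₂,
          hx.symm⟩
    · unfold Irrational at hi₁
      push Not at hi₁
      obtain ⟨x, hx⟩ := hi₁
      exact ⟨m₁, α₁, β₁, W₁, x, (le_max_left M 2).trans hm₁, h2₁, hw₁, ht₁, hW₁, e₁, f₁, g₁,
        hx.symm⟩
  by_cases hT : ∀ M : ℕ, ∃ (W : WS) (x : ℚ), W.Ok ∧ M ≤ W.m ∧ 0 < x ∧ x < 1 ∧ 3 ≤ x.den ∧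
      (W.dat x).tm < θ ∧ θ < (W.dat x).tp
  · exact Or.inl hT
  right
  push Not at hT
  obtain ⟨M₀, hM₀⟩ := hT
  intro M
  obtain ⟨m, α, β, W, x, hMm, h2, hw, ht, hW, e, f, g, hx⟩ := hgood (max M M₀)
  obtain ⟨a1, a2⟩ := hwin hw ht
  have hab := hw.lt
  obtain ⟨g1, g2⟩ := g θ a1 a2
  rw [hx] at g1 g2
  have hx0 : 0 < x := by exact_mod_cast g1
  have hx1 : x < 1 := by exact_mod_cast g2
  have hpl := (WS.plateau hW hx0 hx1 θ).1 hx
  obtain ⟨⟨r, hr⟩, s, hs⟩ := plateau_rat hW hx0 hx1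
  have hp1 : (W.dat x).tm < θ := lt_of_le_of_ne hpl.1 fun h => hirr r (by rw [← h, hr])
  have hp2 : θ < (W.dat x).tp := lt_of_le_of_ne hpl.2 fun h => hirr s (by rw [h, hs])
  have hden : x.den = 2 := by
    have h3 : ¬ 3 ≤ x.den := fun h3 => by
      have := hM₀ W x hW (by rw [e]; exact (le_max_right _ _).trans hMm) hx0 hx1 h3 hp1
      exact absurd hp2 (not_lt.2 this)
    have h4 := Pool.Agent.Work.MLC.two_le_den hx0 hx1
    omega
  have hx2 : x = 1 / 2 := by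
    have h3 : x.num = 1 := by
      have h4 : 0 < x.num := Rat.num_pos.2 hx0
      have h5 : x.num < x.den := by
        exact Rat.num_lt_denom_iff.2 hx1
      omega
    rw [← Rat.num_div_den x, h3, hden]
    norm_num
  -- the plateau of `1 / 2`
  obtain ⟨u, κ, hu, hu1, hiff⟩ := hH m α β hw h2 1 one_pos
  rw [hu1 rfl, one_mul] at hiff
  have hL : 0 < β - α := by linarith
  have hpm : (1 : ℝ) < 2 ^ m := one_lt_pow₀ (by norm_num) (by omega)
  have hs1 : α < sL m α β 1 := by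
    unfold sL
    have : 0 < (β - α) * 2 ^ (m * 1) / (2 ^ m * (2 ^ (m * 1) + 1)) := by positivity
    linarith
  have hs2 : sL m α β 1 < sR m α β 1 := by
    unfold sL sR
    have : (β - α) * 2 ^ (m * 1) / (2 ^ m * (2 ^ (m * 1) + 1)) < (β - α) / 2 := by
      rw [mul_one, div_lt_div_iff₀ (by positivity) (by norm_num)]
      nlinarith [mul_pos hL (by positivity : (0 : ℝ) < 2 ^ m)]
    linarith
  have hs3 : sR m α β 1 < β := by
    unfold sR
    have : 0 < (β - α) * 2 ^ (m * 1) / (2 ^ m * (2 ^ (m * 1) + 1)) := by positivity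
    linarith
  have hκ : κ = W.k := by
    obtain ⟨c1, c2⟩ := g (sL m α β 1) hs1 (hs2.trans hs3)
    have c3 := (hiff (sL m α β 1)).2 ⟨le_rfl, hs2.le⟩
    unfold WS.nu at c1 c2
    rw [e, f, c3] at c1 c2
    have d1 : ((W.k - 1 : ℤ) : ℝ) < κ := by push_cast; linarith
    have d2 : (κ : ℝ) < ((W.k + 1 : ℤ) : ℝ) := by push_cast; linarith
    have d3 := cast_lt_of d1
    have d4 := cast_lt_of d2
    omega
  have hin : sL m α β 1 ≤ θ ∧ θ ≤ sR m α β 1 := by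
    rw [← hiff]
    unfold WS.nu at hx
    rw [e, f, hx2] at hx
    rw [hκ]
    push_cast at hx
    linarith
  have hsr : ∀ n, ∃ r : ℚ, sR m α β n = r := by
    intro n
    obtain ⟨r, hr⟩ := sL_rat hw.refl n
    exact ⟨1 - r, by rw [sR_refl, hr]; push_cast; ring⟩
  have hn1 : ∀ n, θ ≠ sL m α β n := fun n h => by
    obtain ⟨r, hr⟩ := sL_rat hw n
    exact hirr r (by rw [h, hr])
  have hn2 : ∀ n, θ ≠ sR m α β n := fun n h => by
    obtain ⟨r, hr⟩ := hsr n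
    exact hirr r (by rw [h, hr])
  obtain ⟨⟨ra, hra⟩, rb, hrb⟩ := hw.rat
  refine ⟨m, α, β, ?_⟩
  rcases tuned_window hw.pos hab ht with h | h
  · have h3 : θ < α + (β - α) / 2 ^ m := lt_of_le_of_ne h.2 fun h4 =>
      hirr (ra + (rb - ra) / 2 ^ m) (by rw [h4, hra, hrb]; push_cast; ring)
    obtain ⟨n, hn, c1, c2⟩ := exists_sL hw.pos (lt_of_le_of_ne hin.1 (hn1 1).symm) h3 hn1
    exact ⟨n, (le_max_left _ _).trans hMm, hw, hn, Or.inl ⟨c1, c2⟩⟩
  · have h3 : β - (β - α) / 2 ^ m < θ := lt_of_le_of_ne h.1 fun h4 =>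
      hirr (rb - (rb - ra) / 2 ^ m) (by rw [← h4, hra, hrb]; push_cast; ring)
    obtain ⟨n, hn, c1, c2⟩ := exists_sL (α := 1 - β) (β := 1 - α) (θ := 1 - θ) hw.pos (by
        have := lt_of_le_of_ne hin.2 (hn2 1)
        rw [sR_refl] at this
        linarith) (by
        have e1 : (1 - α) - (1 - β) = β - α := by ring
        rw [e1]; linarith) (fun n h => hn2 n (by rw [sR_refl]; linarith))
    refine ⟨n, (le_max_left _ _).trans hMm, hw, hn, Or.inr ⟨?_, ?_⟩⟩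
    · rw [sR_refl]; linarith
    · rw [sR_refl]; linarith

end Pool.Agent.Work.MLC.Shp
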