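import Pool.Agent.Work.MLC.Shp0
import Pool.Agent.Work.MLC.PriBT57b

set_option autoImplicit false

/-! # Theorem CAP, modules T_irr and T_pieces (helper60) -/

namespace Pool.Agent.Work.MLC.Shp

open Filter Topology Metric Set
open Pool.Agent.Work.MLC.Circ Pool.Agent.Work.MLC.Cnt CircleDeg1Lift

namespace P60

/-- if the orbit of `θ` leaves the half open half circles, then it comes back to `θ` -/
lemma back {w : ℕ → ℤ} {θ : ℝ} (h : ¬ HO w θ θ) : ∃ l > 0, ∃ c : ℤ, gw w θ l θ = θ + c := by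
  classical
  unfold HO at h
  push Not at h
  have h1 := Nat.find_spec h
  have h2 : ∀ i < Nat.find h, ∃ k : ℤ, (θ + w i) / 2 + k ≤ 2 ^ i * θ ∧
      2 ^ i * θ < (θ + w i) / 2 + k + 1 / 2 := by
    intro i hi
    have := Nat.find_min h hi
    push Not at this
    exact this
  generalize Nat.find h = j at h1 h2
  obtain ⟨m, hm⟩ := gw_lin w θ θ j fun i hi => by
    obtain ⟨k, h3, h4⟩ := h2 i hi
    exact ⟨k, h3, h4.le⟩
  have e1 := Int.floor_le ((2 : ℝ) ^ j * θ - (θ + w j) / 2)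
  have e2 := Int.lt_floor_add_one ((2 : ℝ) ^ j * θ - (θ + w j) / 2)
  set k := ⌊(2 : ℝ) ^ j * θ - (θ + w j) / 2⌋
  have e3 := h1 k (by linarith)
  refine ⟨j + 1, by omega, w j + (k - m) + 1, ?_⟩
  rw [gw_succ_apply, hm, tdbl_flat (k - m) (by push_cast; linarith) (by push_cast; linarith)]
  push_cast; ring

/-- **an irrational rotation number**: the orbit of `θ` has the itinerary of the word -/
lemma exists_ho {w : ℕ → ℤ} {n : ℕ} (hn : 0 < n) (hw : ∀ i, w (i + n) = w i) {θ : ℝ}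
    (hirr : Irrational (nu w n θ)) : ∃ i, HO (fun j => w (i + j)) θ θ := by
  by_contra hcon
  push Not at hcon
  choose l hl c hc using fun i => back (hcon i)
  let f : ℕ → ℕ := fun r => Nat.rec 0 (fun _ x => x + l x) r
  have hf : ∀ r, f (r + 1) = f r + l (f r) := fun r => rfl
  have hmono : StrictMono f := strictMono_nat_of_lt_succ fun r => by
    rw [hf]; have := hl (f r); omega
  have hret : ∀ r d, ∃ c : ℤ, gw (fun i => w (f r + i)) θ (f (r + d) - f r) θ = θ + c := by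
    intro r d
    induction d with
    | zero => exact ⟨0, by simp⟩
    | succ d ih =>
      obtain ⟨c1, h1⟩ := ih
      have h2 := hc (f (r + d))
      have h3 : f r ≤ f (r + d) := hmono.monotone (by omega)
      have h4 : f (r + (d + 1)) - f r = (f (r + d) - f r) + l (f (r + d)) := by
        rw [show r + (d + 1) = (r + d) + 1 by ring, hf]; omega
      have h5 : (fun i => w (f r + ((f (r + d) - f r) + i))) = fun i => w (f (r + d) + i) := by
        funext i; congr 1; omega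
      refine ⟨c1 + c (f (r + d)), ?_⟩
      rw [h4, gw_add, CircleDeg1Lift.mul_apply, h1, CircleDeg1Lift.map_add_int, h5, h2]
      push_cast; ring
  obtain ⟨r, s, hrs, hmod⟩ := Finite.exists_ne_map_eq_of_infinite
    (fun r => (⟨f r % n, Nat.mod_lt _ hn⟩ : Fin n))
  wlog hlt : r < s generalizing r s
  · exact this s r hrs.symm hmod.symm (by omega)
  have hmod' : f r % n = f s % n := congrArg Fin.val hmod
  have hfl : f r < f s := hmono hlt
  obtain ⟨q, hq⟩ : n ∣ f s - f r := (Nat.modEq_iff_dvd' hfl.le).1 hmod'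
  have hq0 : 0 < q := by
    rcases Nat.eq_zero_or_pos q with h0 | h0
    · rw [h0, mul_zero] at hq; omega
    · exact h0
  obtain ⟨e, he⟩ := hret r (s - r)
  rw [show r + (s - r) = s by omega, hq, gw_mul _ _ _ _ (fun i => by
    show w (f r + (i + n)) = w (f r + i)
    rw [← add_assoc, hw])] at he
  have h6 : nu (fun i => w (f r + i)) n θ = e / q := translationNumber_of_map_pow_eq_add_int _ he hq0
  rw [nu_shift_word w n hw] at h6
  refine hirr ⟨(e : ℚ) / q, ?_⟩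
  rw [h6]; push_cast; rfl

/-- the word of a component, for the data of `1 / 2` -/
lemma word_dat {W : WS} (hW : W.Ok) : Word W.m (W.dat (1 / 2)).w ∧
    ∀ θ, nu (W.dat (1 / 2)).w W.m θ = nu W.w W.m θ := by
  have h0 : (0 : ℚ) < 1 / 2 := by norm_num
  have h1 : (1 / 2 : ℚ) < 1 := by norm_num
  have hP := WS.dat_par hW h0 h1
  have hm := WS.dat_m hW h0 h1
  obtain ⟨i₀, -, h3, -⟩ := (WS.dat_choose hW h0 h1).2.2.2.2.2.1
  refine ⟨⟨hP.bits.bit, ?_, ?_⟩, fun θ => ?_⟩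
  · have := hP.bits.per
    rwa [hm] at this
  · have := hP.wprim
    rwa [hm] at this
  · have h4 : (fun i => W.w (i + i₀)) = fun i => W.w (i₀ + i) := by
      funext i; rw [add_comm]
    rw [h3, h4, nu_shift_word W.w W.m hW.wide.bits.per]

/-- words of different lengths do not have the same orbit -/
lemma word_len {n n' : ℕ} {w w' : ℕ → ℤ} {θ : ℝ} (hn : 0 < n) (hn' : 0 < n') (hw : Word n w)
    (hw' : Word n' w') (h : HO w θ θ) (h' : HO w' θ θ) : n = n' := by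
  have he := HO.word_eq hw.1 hw'.1 h h'
  subst he
  rcases lt_trichotomy n n' with h1 | h1 | h1
  · obtain ⟨i, hi⟩ := hw'.2.2 n hn h1
    exact absurd (hw.2.1 i) hi
  · exact h1
  · obtain ⟨i, hi⟩ := hw.2.2 n' hn' h1
    exact absurd (hw'.2.1 i) hi

end P60

/-- **IRR** -/
theorem t_irr : T_irr := by
  intro W W' θ hW hW' hne _ _ _ _ h1 h2
  obtain ⟨hw, hnu⟩ := P60.word_dat hW
  obtain ⟨hw', hnu'⟩ := P60.word_dat hW'
  have e1 : Irrational (nu (W.dat (1 / 2)).w W.m θ) := by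
    rw [hnu]
    unfold WS.nu at h1
    exact (irrational_sub_intCast_iff).1 h1
  have e2 : Irrational (nu (W'.dat (1 / 2)).w W'.m θ) := by
    rw [hnu']
    unfold WS.nu at h2
    exact (irrational_sub_intCast_iff).1 h2
  have hn := hW.wide.pos
  have hn' := hW'.wide.pos
  obtain ⟨i, hi⟩ := P60.exists_ho hn hw.2.1 e1
  obtain ⟨i', hi'⟩ := P60.exists_ho hn' hw'.2.1 e2
  exact hne (P60.word_len hn hn' (word_shift hn hw i) (word_shift hn' hw' i') hi hi')

namespace P60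

/-! ### the copy is next to the ends -/

lemma geom {m : ℕ} (hm : 0 < m) :
    HasSum (fun i : ℕ => ((2 : ℝ) ^ m - 1) / 2 ^ (m * (i + 1))) 1 := by
  have h1 : (1 : ℝ) < 2 ^ m := one_lt_pow₀ (by norm_num) hm.ne'
  have h2 : |((2 : ℝ) ^ m)⁻¹| < 1 := by
    rw [abs_of_pos (by positivity)]
    exact inv_lt_one_of_one_lt₀ h1
  have h3 := (hasSum_geometric_of_abs_lt_one h2).mul_left (((2 : ℝ) ^ m - 1) / 2 ^ m)
  have h5 : ((2 : ℝ) ^ m - 1) ≠ 0 := by linarith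
  have h6 : ((2 : ℝ) ^ m) ≠ 0 := by positivity
  have h4 : ((2 : ℝ) ^ m - 1) / 2 ^ m * (1 - ((2 : ℝ) ^ m)⁻¹)⁻¹ = 1 := by
    have : (1 - ((2 : ℝ) ^ m)⁻¹) = ((2 : ℝ) ^ m - 1) / 2 ^ m := by field_simp
    rw [this]
    exact mul_inv_cancel₀ (div_ne_zero h5 h6)
  rw [h4] at h3
  have h7 : (fun i : ℕ => ((2 : ℝ) ^ m - 1) / 2 ^ (m * (i + 1))) = fun i : ℕ =>
      ((2 : ℝ) ^ m - 1) / 2 ^ m * (((2 : ℝ) ^ m)⁻¹) ^ i := by
    funext i
    rw [mul_add, mul_one, pow_add, pow_mul, inv_pow]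
    field_simp
  rw [h7]
  exact h3

lemma coef_nonneg (m i : ℕ) : (0 : ℝ) ≤ ((2 : ℝ) ^ m - 1) / 2 ^ (m * (i + 1)) := by
  have : (1 : ℝ) ≤ 2 ^ m := one_le_pow₀ (by norm_num)
  exact div_nonneg (by linarith) (by positivity)

/-- the copy is next to the ends -/
lemma tuned_mem {m : ℕ} {α β θ : ℝ} (hW : Wake m α β) (h : θ ∈ Tuned m α β) :
    (α ≤ θ ∧ θ ≤ α + (β - α) / 2 ^ m) ∨ (β - (β - α) / 2 ^ m ≤ θ ∧ θ ≤ β) := by
  obtain ⟨ε, hε, hs⟩ := h
  have hg := geom hW.pos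
  have hlt := hW.lt
  have h6 : ((2 : ℝ) ^ m) ≠ 0 := by positivity
  have c0 : ((2 : ℝ) ^ m - 1) / 2 ^ (m * (0 + 1)) = 1 - 1 / 2 ^ m := by
    rw [zero_add, mul_one, sub_div, div_self h6]
  have hs' : HasSum (fun i => ε i * (((2 : ℝ) ^ m - 1) / 2 ^ (m * (i + 1)))) θ := by
    have e : (fun i => ε i * (((2 : ℝ) ^ m - 1) / 2 ^ (m * (i + 1)))) =
        fun i => (2 ^ m - 1) * ε i / 2 ^ (m * (i + 1)) := by funext i; ring
    rw [e]; exact hs
  have hb : ∀ i, α ≤ ε i ∧ ε i ≤ β := fun i => by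
    rcases hε i with h | h <;> rw [h] <;> constructor <;> linarith
  have h1 : α ≤ θ := by
    have h2 := hg.mul_left α
    rw [mul_one] at h2
    exact hasSum_le (fun i => mul_le_mul_of_nonneg_right (hb i).1 (coef_nonneg m i)) h2 hs'
  have h2 : θ ≤ β := by
    have h3 := hg.mul_left β
    rw [mul_one] at h3
    exact hasSum_le (fun i => mul_le_mul_of_nonneg_right (hb i).2 (coef_nonneg m i)) hs' h3
  rcases hε 0 with h0 | h0
  · left
    refine ⟨h1, ?_⟩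
    have h3 := (hg.mul_left β).add (hasSum_ite_eq 0 ((1 - 1 / 2 ^ m) * (α - β)))
    have h4 := hasSum_le (fun i => ?_) hs' h3
    · have : β * 1 + (1 - 1 / 2 ^ m) * (α - β) = α + (β - α) / 2 ^ m := by
        field_simp; ring
      linarith
    · rcases Nat.eq_zero_or_pos i with hi | hi
      · subst hi
        rw [if_pos rfl, h0, c0]
        linarith
      · rw [if_neg hi.ne', add_zero]
        exact mul_le_mul_of_nonneg_right (hb i).2 (coef_nonneg m i)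
  · right
    refine ⟨?_, h2⟩
    have h3 := (hg.mul_left α).add (hasSum_ite_eq 0 ((1 - 1 / 2 ^ m) * (β - α)))
    have h4 := hasSum_le (fun i => ?_) h3 hs'
    · have : α * 1 + (1 - 1 / 2 ^ m) * (β - α) = β - (β - α) / 2 ^ m := by
        field_simp; ring
      linarith
    · rcases Nat.eq_zero_or_pos i with hi | hi
      · subst hi
        rw [if_pos rfl, h0, c0]
        linarith
      · rw [if_neg hi.ne', add_zero]
        exact mul_le_mul_of_nonneg_right (hb i).1 (coef_nonneg m i)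

/-! ### rational ends -/

lemma rat_of_per {t : ℝ} {n : ℕ} (hn : 0 < n) {a : ℤ} (h : (2 ^ n - 1) * t = a) : ∃ r : ℚ, t = r := by
  have h1 : (1 : ℝ) < 2 ^ n := one_lt_pow₀ (by norm_num) hn.ne'
  refine ⟨(a : ℚ) / (2 ^ n - 1), ?_⟩
  push_cast
  rw [eq_div_iff (by linarith)]
  linarith

lemma rat_tm {W : WS} (hW : W.Ok) {y : ℚ} (h0 : 0 < y) (h1 : y < 1) :
    (∃ r : ℚ, (W.dat y).tm = r) ∧ ∃ r : ℚ, (W.dat y).tp = r := by
  have hP := WS.dat_par hW h0 h1
  have hC := WS.dat_cir hW h0 h1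
  have e1 : ∃ r : ℚ, (W.dat y).tm = r := by
    obtain ⟨h2, ⟨k, hk⟩, -⟩ := hC.per
    exact rat_of_per (Nat.mul_pos hP.m_pos h2) (a := k) (by linarith)
  refine ⟨e1, ?_⟩
  obtain ⟨r, hr⟩ := e1
  obtain ⟨j, l, hl⟩ := hC.orb
  exact ⟨2 ^ ((W.dat y).m * j) * r + l, by rw [hl, hr]; push_cast; rfl⟩

lemma rat_s {m : ℕ} {α β : ℝ} (hW : Wake m α β) (n : ℕ) :
    (∃ r : ℚ, sL m α β n = r) ∧ ∃ r : ℚ, sR m α β n = r := by
  obtain ⟨a, ha⟩ := hW.per
  obtain ⟨b, hb⟩ := hW.per'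
  obtain ⟨r, hr⟩ := rat_of_per hW.pos ha
  obtain ⟨s, hs⟩ := rat_of_per hW.pos hb
  constructor
  · exact ⟨r + (s - r) * 2 ^ (m * n) / (2 ^ m * (2 ^ (m * n) + 1)), by
      unfold sL; rw [hr, hs]; push_cast; rfl⟩
  · exact ⟨s - (s - r) * 2 ^ (m * n) / (2 ^ m * (2 ^ (m * n) + 1)), by
      unfold sR; rw [hr, hs]; push_cast; rfl⟩

/-- an irrational angle is not an end -/
lemma lt_of_irr {θ t : ℝ} (hθ : Irrational θ) (ht : ∃ r : ℚ, t = r) (h : t ≤ θ) : t < θ := by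
  obtain ⟨r, hr⟩ := ht
  refine lt_of_le_of_ne h fun h1 => hθ ⟨r, ?_⟩
  rw [← hr, h1]

lemma lt_of_irr' {θ t : ℝ} (hθ : Irrational θ) (ht : ∃ r : ℚ, t = r) (h : θ ≤ t) : θ < t := by
  obtain ⟨r, hr⟩ := ht
  refine lt_of_le_of_ne h fun h1 => hθ ⟨r, ?_⟩
  rw [← hr, ← h1]

/-- the component of a wake -/
lemma exists_ws {m : ℕ} {w : ℕ → ℤ} (hm : 0 < m) (hw : Word m w) (k : ℤ) :
    ∃ W : WS, W.Ok ∧ W.m = m ∧ W.w = w ∧ W.k = k := by
  obtain ⟨σ, h1, h2⟩ := Pri.exists_wide_word hm hw k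
  exact ⟨⟨m, w, k, σ⟩, ⟨h1, h2⟩, rfl, rfl, rfl⟩

/-! ### the ends of the plateaus `1 / 2` -/

lemma sL_eq (m : ℕ) (α β : ℝ) (n : ℕ) :
    sL m α β n = α + (β - α) / 2 ^ m * (1 - (((2 : ℝ) ^ m) ^ n + 1)⁻¹) := by
  unfold sL
  rw [← pow_mul]
  field_simp
  ring

lemma sR_eq (m : ℕ) (α β : ℝ) (n : ℕ) :
    sR m α β n = β - (β - α) / 2 ^ m * (1 - (((2 : ℝ) ^ m) ^ n + 1)⁻¹) := by
  unfold sR
  rw [← pow_mul]
  field_simp
  ring

lemma inv_tendsto {m : ℕ} (hm : 0 < m) :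
    Tendsto (fun n : ℕ => (((2 : ℝ) ^ m) ^ n + 1)⁻¹) atTop (𝓝 0) := by
  have h1 : (1 : ℝ) < 2 ^ m := one_lt_pow₀ (by norm_num) hm.ne'
  exact (tendsto_atTop_add_const_right _ _ (tendsto_pow_atTop_atTop_of_one_lt h1)).inv_tendsto_atTop

lemma s_tendsto {m : ℕ} (hm : 0 < m) (α β : ℝ) :
    Tendsto (fun n => sL m α β n) atTop (𝓝 (α + (β - α) / 2 ^ m)) ∧
    Tendsto (fun n => sR m α β n) atTop (𝓝 (β - (β - α) / 2 ^ m)) := by
  have h1 := ((tendsto_const_nhds (x := (1 : ℝ))).sub (inv_tendsto hm)).const_mul ((β - α) / 2 ^ m)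
  rw [sub_zero, mul_one] at h1
  constructor
  · have h2 := (tendsto_const_nhds (x := α)).add h1
    exact h2.congr fun n => (sL_eq m α β n).symm
  · have h2 := (tendsto_const_nhds (x := β)).sub h1
    exact h2.congr fun n => (sR_eq m α β n).symm

/-- the ends of the first plateau -/
lemma s_one {m : ℕ} (hm : 0 < m) {α β : ℝ} (hab : α < β) : α < sL m α β 1 ∧
    sL m α β 1 ≤ sR m α β 1 ∧ sR m α β 1 < β := by
  have h1 : (2 : ℝ) ≤ 2 ^ m := by
    calc (2 : ℝ) = 2 ^ 1 := (pow_one 2).symm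
      _ ≤ 2 ^ m := pow_le_pow_right₀ (by norm_num) hm
  have e : (β - α) * 2 ^ (m * 1) / (2 ^ m * (2 ^ (m * 1) + 1)) = (β - α) / (2 ^ m + 1) := by
    rw [mul_one]; field_simp
  unfold sL sR
  rw [e]
  have h2 : 0 < (β - α) / (2 ^ m + 1) := div_pos (by linarith) (by linarith)
  have h3 : (β - α) / (2 ^ m + 1) ≤ (β - α) / 2 := by
    apply div_le_div_of_nonneg_left (by linarith) (by norm_num) (by linarith)
  refine ⟨by linarith, by linarith, by linarith⟩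

/-- **one wake** -/
lemma one_wake (hH : T_half) {m : ℕ} {α β θ : ℝ} (hm : 2 ≤ m) (hW : Wake m α β)
    (hT : θ ∈ Tuned m α β) (hθ : Irrational θ) :
    (∃ (W : WS) (x : ℚ), W.Ok ∧ W.m = m ∧ 0 < x ∧ x < 1 ∧ 3 ≤ x.den ∧
      (W.dat x).tm < θ ∧ θ < (W.dat x).tp) ∨
    (∃ n : ℕ, 0 < n ∧ ((sL m α β n < θ ∧ θ < sL m α β (n + 1)) ∨
      (sR m α β (n + 1) < θ ∧ θ < sR m α β n))) ∨
    ∃ W : WS, W.Ok ∧ W.m = m ∧ 0 < W.nu θ ∧ W.nu θ < 1 ∧ Irrational (W.nu θ) := by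
  have hm0 : 0 < m := hW.pos
  obtain ⟨k, hword, hk0, hk1, hin⟩ := hW.strip hm
  have hab := hW.lt
  have hra : ∃ r : ℚ, α = r := by obtain ⟨a, ha⟩ := hW.per; exact rat_of_per hm0 ha
  have hrb : ∃ r : ℚ, β = r := by obtain ⟨a, ha⟩ := hW.per'; exact rat_of_per hm0 ha
  have hmem := tuned_mem hW hT
  have hpow : (1 : ℝ) ≤ 2 ^ m := one_le_pow₀ (by norm_num)
  have hle1 : (β - α) / 2 ^ m ≤ β - α := div_le_self (by linarith) hpow
  have h1 : α < θ := lt_of_irr hθ hra (by rcases hmem with h | h <;> linarith [h.1])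
  have h2 : θ < β := lt_of_irr' hθ hrb (by rcases hmem with h | h <;> linarith [h.2])
  obtain ⟨W, hOk, hWm, hWw, hWk⟩ := exists_ws hm0 hword k
  have hν : ∀ t, W.nu t = nu (wL α) m t - k := fun t => by
    unfold WS.nu; rw [hWm, hWw, hWk]
  have h3 : 0 < W.nu θ := by rw [hν]; linarith [(hin θ h1 h2).1]
  have h4 : W.nu θ < 1 := by rw [hν]; linarith [(hin θ h1 h2).2]
  by_cases hirr : Irrational (W.nu θ)
  · exact Or.inr (Or.inr ⟨W, hOk, hWm, h3, h4, hirr⟩)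
  -- a rational number
  obtain ⟨x, hx⟩ : ∃ x : ℚ, (x : ℝ) = W.nu θ := by
    unfold Irrational at hirr
    push Not at hirr
    exact hirr
  have hx0 : 0 < x := by
    have : (0 : ℝ) < x := by rw [hx]; exact h3
    exact_mod_cast this
  have hx1 : x < 1 := by
    have : (x : ℝ) < 1 := by rw [hx]; exact h4
    exact_mod_cast this
  by_cases hd : 3 ≤ x.den
  · left
    obtain ⟨h5, h6⟩ := (WS.plateau hOk hx0 hx1 θ).1 hx.symm
    obtain ⟨r1, r2⟩ := rat_tm hOk hx0 hx1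
    exact ⟨W, x, hOk, hWm, hx0, hx1, hd, lt_of_irr hθ r1 h5, lt_of_irr' hθ r2 h6⟩
  -- the number `1 / 2`
  right; left
  have hxh : x = 1 / 2 := by
    have hd0 := x.den_pos
    have hnd := Rat.num_div_den x
    have hn0 : 0 < x.num := Rat.num_pos.2 hx0
    have hn1 : x.num < x.den := Rat.num_lt_denom_iff.2 hx1
    have hd2 : x.den = 2 := by omega
    have hn2 : x.num = 1 := by omega
    rw [← hnd, hd2, hn2]; norm_num
  have h5 : nu (wL α) m θ = k + 1 / 2 := by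
    have := hν θ
    rw [← hx, hxh] at this
    push_cast at this
    linarith
  obtain ⟨u, κ, -, hu, hpl⟩ := hH m α β hW hm 1 one_pos
  rw [hu rfl, one_mul] at hpl
  obtain ⟨s1, s2, s3⟩ := s_one hm0 hab
  have hκ : κ = k := by
    have e1 := (hpl (sL m α β 1)).2 ⟨le_rfl, s2⟩
    obtain ⟨e2, e3⟩ := hin (sL m α β 1) s1 (lt_of_le_of_lt s2 s3)
    rw [e1] at e2 e3
    have f1 : (k : ℝ) < ((κ + 1 : ℤ) : ℝ) := by push_cast; linarith
    have f2 : (κ : ℝ) < ((k + 1 : ℤ) : ℝ) := by push_cast; linarith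
    have := cast_lt_of f1
    have := cast_lt_of f2
    omega
  obtain ⟨h6, h7⟩ := (hpl θ).1 (by rw [hκ]; exact h5)
  obtain ⟨hL, hR⟩ := s_tendsto hm0 α β
  have rL : ∃ r : ℚ, α + (β - α) / 2 ^ m = r := by
    obtain ⟨r, hr⟩ := hra
    obtain ⟨s, hs⟩ := hrb
    exact ⟨r + (s - r) / 2 ^ m, by rw [hr, hs]; push_cast; rfl⟩
  have rR : ∃ r : ℚ, β - (β - α) / 2 ^ m = r := by
    obtain ⟨r, hr⟩ := hra
    obtain ⟨s, hs⟩ := hrb
    exact ⟨s - (s - r) / 2 ^ m, by rw [hr, hs]; push_cast; rfl⟩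
  classical
  rcases hmem with ⟨-, h8⟩ | ⟨h8, -⟩
  · have h9 : θ < α + (β - α) / 2 ^ m := lt_of_irr' hθ rL h8
    have hex : ∃ n, θ < sL m α β (n + 1) :=
      (((tendsto_add_atTop_iff_nat 1).2 hL).eventually (lt_mem_nhds h9)).exists
    have hsp := Nat.find_spec hex
    have hmin := fun j => Nat.find_min hex (m := j)
    generalize Nat.find hex = n at hsp hmin
    have hn : 0 < n := by
      rcases Nat.eq_zero_or_pos n with h0 | h0
      · rw [h0] at hsp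
        exact absurd h6 (not_le.2 hsp)
      · exact h0
    have h10 := hmin (n - 1) (by omega)
    rw [show n - 1 + 1 = n by omega] at h10
    exact ⟨n, hn, Or.inl ⟨lt_of_irr hθ (rat_s hW n).1 (not_lt.1 h10), hsp⟩⟩
  · have h9 : β - (β - α) / 2 ^ m < θ := lt_of_irr hθ rR h8
    have hex : ∃ n, sR m α β (n + 1) < θ :=
      (((tendsto_add_atTop_iff_nat 1).2 hR).eventually (gt_mem_nhds h9)).exists
    have hsp := Nat.find_spec hex
    have hmin := fun j => Nat.find_min hex (m := j)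
    generalize Nat.find hex = n at hsp hmin
    have hn : 0 < n := by
      rcases Nat.eq_zero_or_pos n with h0 | h0
      · rw [h0] at hsp
        exact absurd h7 (not_le.2 hsp)
      · exact h0
    have h10 := hmin (n - 1) (by omega)
    rw [show n - 1 + 1 = n by omega] at h10
    exact ⟨n, hn, Or.inr ⟨hsp, lt_of_irr' hθ (rat_s hW n).2 (not_lt.1 h10)⟩⟩

end P60

/-- **T3** -/
theorem t_pieces (hH : T_half) : T_pieces := by
  refine ⟨Set.range ((↑) : ℚ → ℝ), Set.countable_range _, fun θ hθ hinf => ?_⟩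
  have hθ' : Irrational θ := hθ
  by_contra hcon
  push Not at hcon
  obtain ⟨⟨M₁, h1⟩, M₂, h2⟩ := hcon
  have key : ∀ N : ℕ, ∃ W : WS, W.Ok ∧ N ≤ W.m ∧ 0 < W.nu θ ∧ W.nu θ < 1 ∧
      Irrational (W.nu θ) := by
    intro N
    obtain ⟨m, hm, α, β, hW, hT⟩ := hinf (max (max M₁ M₂) (max N 2))
    have e1 : M₁ ≤ m := (le_max_left _ _).trans ((le_max_left _ _).trans hm)
    have e2 : M₂ ≤ m := (le_max_right _ _).trans ((le_max_left _ _).trans hm)
    have e3 : N ≤ m := (le_max_left _ _).trans ((le_max_right _ _).trans hm)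
    have e4 : 2 ≤ m := (le_max_right _ _).trans ((le_max_right _ _).trans hm)
    rcases P60.one_wake hH e4 hW hT hθ' with ⟨W, x, a1, a2, a3, a4, a5, a6, a7⟩ | ⟨n, a1, a2⟩ |
      ⟨W, a1, a2, a3⟩
    · exact absurd a7 (not_lt.2 (h1 W x a1 (by omega) a3 a4 a5 a6))
    · exfalso
      obtain ⟨b1, b2⟩ := h2 m α β n e2 hW a1
      rcases a2 with ⟨a2, a3⟩ | ⟨a2, a3⟩
      · exact absurd a3 (not_lt.2 (b1 a2))
      · exact absurd a3 (not_lt.2 (b2 a2))
    · exact ⟨W, a1, by omega, a3⟩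
  obtain ⟨W, a1, -, a3, a4, a5⟩ := key 0
  obtain ⟨W', b1, b2, b3, b4, b5⟩ := key (W.m + 1)
  exact t_irr W W' θ a1 b1 (by omega) a3 a4 b3 b4 a5 b5

end Pool.Agent.Work.MLC.Shp
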