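import Pool.Agent.Work.MLC.Stab4
import Pool.Agent.Work.MLC.Defs

set_option autoImplicit false

/-! # Half circles and stability, in terms of the common definitions (helper4) -/

namespace Pool.Agent.Work.MLC

open Filter Topology Metric Set

lemma G_c_eq (c : ℂ) : G c c = 2 * G c 0 := by
  have h1 := G_f c 0
  have h2 : f c 0 = c := by simp [f]
  rwa [h2] at h1

lemma continuous_f_right (c : ℂ) : Continuous (f c) := continuous_it_right c 1

/-- a ray landing at `b` has its angle in the open half circle of the side of `b` -/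
theorem half_of_side {c b : ℂ} {β θ s : ℝ} {R : ℝ → ℂ} (hR : Ray c β b R) (hc : 0 < G c c)
    (hθ : eta c ((G c c : ℂ) + 2 * Real.pi * θ * Complex.I) = c) {e : ℤ} (hs : s = θ + e)
    (hS : Side c s b) : ∃ k : ℤ, s / 2 + k < β ∧ β < s / 2 + k + 1 / 2 := by
  obtain ⟨hGb, ψ, ⟨hψd, hψf, h, ⟨hhd, hhf, hhe⟩, hψh⟩, hψb⟩ := hS
  set g := G c c with hg
  have hg0 : G c 0 = g / 2 := by rw [hg, G_c_eq]; ring
  have hRb : b ≠ 0 := by
    intro h0
    have := hR.G_b
    rw [h0, hg0] at this
    linarith
  have hcθ : eR c θ g = c := by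
    unfold eR
    rw [← hθ]
    have : (g : ℂ) + 2 * Real.pi * θ * Complex.I = (g : ℂ) + 2 * Real.pi * Complex.I * (θ : ℂ) := by
      ring
    rw [hθ]
    rw [← this, hθ]
  -- `2 β ≢ s`
  have hns : ∀ m : ℤ, 2 * β ≠ s + m := by
    intro m hm
    have h1 := hR.conj (g / 2) (by linarith) 1 (by rw [hg0]; linarith)
    rw [pow_one, it_one, hm, hs] at h1
    have h2 : θ + (e : ℝ) + m = θ + ((e + m : ℤ) : ℝ) := by push_cast; ring
    have h3 : 2 * (g / 2) = g := by ring
    rw [h2, h3, eR_add_int, hcθ] at h1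
    have h4 : R (g / 2) ^ 2 = 0 := by
      have : R (g / 2) ^ 2 + c = c := h1
      linear_combination this
    have h5 := hR.ne (g / 2) (by linarith) 0
    exact h5 (by simpa using h4)
  obtain ⟨m', hm'1, hm'2⟩ : ∃ m' : ℤ, s + m' < 2 * β ∧ 2 * β < s + m' + 1 := by
    refine ⟨⌊2 * β - s⌋, ?_, ?_⟩
    · have h1 := Int.floor_le (2 * β - s)
      rcases h1.lt_or_eq with h2 | h2
      · linarith
      · exact absurd (by linarith : 2 * β = s + (⌊2 * β - s⌋ : ℤ)) (hns _)
    · have h1 := Int.lt_floor_add_one (2 * β - s)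
      linarith
  -- the path in the half strip
  set γ : ℝ → ℂ := fun t => (t : ℂ) + 2 * Real.pi * Complex.I * ((β - m' / 2 : ℝ) : ℂ) with hγ
  have hγre : ∀ t, (γ t).re = t := by intro t; simp only [hγ]; rw [eR_re]
  have hγim : ∀ t, (γ t).im = 2 * Real.pi * (β - m' / 2) := by
    intro t; simp [hγ]
  have hpi := Real.pi_pos
  have him : ∀ t, Real.pi * s < (γ t).im ∧ (γ t).im < Real.pi * (s + 1) := by
    intro t
    rw [hγim]
    constructor <;> nlinarith
  have hγ2 : ∀ t, g / 4 < t → eta c (2 * γ t) = f c (R t) := by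
    intro t ht
    have h1 := hR.conj t (by linarith) 1 (by rw [hg0]; linarith)
    rw [pow_one, it_one] at h1
    rw [h1, ← eR_add_int c (2 * β) (2 * t) (-m')]
    unfold eR
    congr 1
    simp only [hγ]
    push_cast; ring
  have hγc : Continuous γ := by simp only [hγ]; fun_prop
  -- sign of `ψ (f (R t))`
  have hpos : ∀ t, 0 < t → t < g / 2 → G c (f c (R t)) < g := by
    intro t ht ht'
    rw [G_f, hR.green ht]; linarith
  have hψR : ∀ t, 0 < t → t < g / 2 → ψ (f c (R t)) = R t := by
    have hcont : ContinuousOn (fun t => ψ (f c (R t))) (Ioo 0 (g / 2)) := by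
      refine hψd.continuousOn.comp ((continuous_f_right c).comp_continuousOn
        (hR.cont.mono fun t ht => ht.1)) ?_
      intro t ht
      exact hpos t ht.1 ht.2
    have hsq : ∀ t ∈ Ioo 0 (g / 2), (ψ (f c (R t))) ^ 2 = R t ^ 2 := by
      intro t ht
      have h1 := hψf _ (hpos t ht.1 ht.2)
      have h2 : (ψ (f c (R t))) ^ 2 + c = R t ^ 2 + c := h1
      linear_combination h2
    have hRc : ContinuousOn R (Ioo 0 (g / 2)) := hR.cont.mono fun t ht => ht.1
    have hcase := isPreconnected_Ioo.eq_or_eq_neg_of_sq_eq hcont hRc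
      (fun t ht => hsq t ht) (fun {t} ht => by
        have := hR.ne t ht.1 0
        simpa using this)
    rcases hcase with h1 | h1
    · intro t ht ht'
      exact h1 ⟨ht, ht'⟩
    · exfalso
      -- limit at zero
      have h2 : Tendsto (fun t => ψ (f c (R t))) (𝓝[>] 0) (𝓝 (ψ (f c b))) := by
        have hopen : IsOpen {v | G c v < g} := isOpen_lt (continuous_G_right c) continuous_const
        have h3 : ContinuousAt ψ (f c b) :=
          (hψd.continuousOn).continuousAt (hopen.mem_nhds hGb)
        exact h3.tendsto.comp (((continuous_f_right c).tendsto b).comp hR.lands)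
      have h3 : Tendsto (fun t => ψ (f c (R t))) (𝓝[>] 0) (𝓝 (-b)) := by
        refine hR.lands.neg.congr' ?_
        filter_upwards [Ioo_mem_nhdsGT (by linarith : (0 : ℝ) < g / 2)] with t ht
        exact (h1 ht).symm
      have h4 := tendsto_nhds_unique h2 h3
      rw [hψb] at h4
      exact hRb (self_eq_neg.1 h4)
  have hZ : EqOn (fun t => h (γ t)) R (Ioi (g / 4)) := by
    refine unique_lift (c := c) isPreconnected_Ioi (a := 3 * g / 8)
      (show g / 4 < 3 * g / 8 by linarith) ?_ ?_ (hR.cont.mono fun t ht => ?_) ?_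
    · have h1 := hψh (γ (3 * g / 8)) (by rw [hγre]; linarith) (by rw [hγre]; linarith)
        (him _).1 (him _).2
      rw [hγ2 _ (by linarith), hψR _ (by linarith) (by linarith)] at h1
      exact h1.symm
    · refine hhd.continuousOn.comp hγc.continuousOn ?_
      intro t ht
      exact ⟨by rw [hγre]; exact ht, (him t).1, (him t).2⟩
    · have ht' : g / 4 < t := ht
      show 0 < t
      linarith
    · intro t ht
      have ht' : g / 4 < t := ht
      refine ⟨1, ?_, deriv_it_ne fun i _ => hR.ne t (by linarith) i⟩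
      filter_upwards [self_mem_nhdsWithin] with u hu
      have hu' : g / 4 < u := hu
      rw [it_one, it_one, hhf _ (by rw [hγre]; exact hu') (him u).1 (him u).2, hγ2 u hu']
  -- compare for large potential
  have hfin : eta c (γ g) = eR c β g := by
    have h1 : h (γ g) = R g := hZ (show g / 4 < g by linarith)
    rw [hhe (γ g) (by rw [hγre]; linarith) (him _).1 (him _).2] at h1
    rw [h1, hR.far (by rw [hg0]; linarith)]
  unfold eR at hfin
  rw [eta_eq_iff (by rw [hγre, hg0]; linarith) (by rw [eR_re, hg0]; linarith)] at hfin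
  obtain ⟨k, hk⟩ := hfin
  have hkm : (m' : ℝ) / 2 = k := by
    have h1 := congrArg Complex.im hk
    simp [hγ] at h1
    have h2 : 2 * Real.pi * (m' / 2 : ℝ) = 2 * Real.pi * k := by linarith
    exact mul_left_cancel₀ (by positivity) h2
  refine ⟨k, ?_, ?_⟩
  · rw [← hkm]; linarith
  · rw [← hkm]; linarith

/-- **All doublings of a landing angle lie in the open half circles of the itinerary.** -/
theorem compat_of_lands {n : ℕ} {c b : ℂ} {θ β : ℝ} {w : ℕ → ℤ} (hE : Ext n c b θ w)
    (hL : Lands c β b) : Compat β θ w := by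
  obtain ⟨R, hR⟩ := hL
  obtain ⟨hc, hθ, -, -, -, hS⟩ := hE
  intro i
  exact half_of_side (hR.push_it i) hc hθ rfl (hS i)

end Pool.Agent.Work.MLC
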