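import Pool.Agent.Work.MLC.CapMu6

set_option autoImplicit false

/-! # Random towers, the measure part: the sum over cylinders (helper78)

For a measure on sequences, a sum over prefixes which converges becomes, along almost every
sequence, the convergence of the sum of the terms divided by the measures of the cylinders. -/

namespace Pool.Agent.Work.MLC.Tow

open Filter Topology Metric Set Complex MeasureTheory
open Pool.Agent.Work.MLC.Sat Pool.Agent.Work.MLC.Cnt Pool.Agent.Work.MLC.Cap
open scoped ENNReal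

/-- the prefix of length `k` of a sequence, the most recent entry first -/
def pre {α : Type} (x : ℕ → α) : ℕ → List α
  | 0 => []
  | k + 1 => x k :: pre x k

lemma pre_zero {α : Type} (x : ℕ → α) : pre x 0 = [] := rfl

lemma pre_succ {α : Type} (x : ℕ → α) (k : ℕ) : pre x (k + 1) = x k :: pre x k := rfl

lemma pre_length {α : Type} (x : ℕ → α) (k : ℕ) : (pre x k).length = k := by
  induction k with
  | zero => rfl
  | succ k ih => rw [pre_succ, List.length_cons, ih]

lemma mem_pre {α : Type} {x : ℕ → α} {k : ℕ} {a : α} (h : a ∈ pre x k) : ∃ i < k, x i = a := by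
  induction k with
  | zero => simp [pre_zero] at h
  | succ k ih =>
    rw [pre_succ, List.mem_cons] at h
    rcases h with h | h
    · exact ⟨k, by omega, h.symm⟩
    · obtain ⟨i, hi, h1⟩ := ih h
      exact ⟨i, by omega, h1⟩

lemma pre_eq_iff {α : Type} {x y : ℕ → α} {k : ℕ} : pre x k = pre y k ↔ ∀ i < k, x i = y i := by
  induction k with
  | zero => simp [pre_zero]
  | succ k ih =>
    rw [pre_succ, pre_succ, List.cons.injEq, ih]
    constructor
    · rintro ⟨h1, h2⟩ i hi
      rcases Nat.lt_succ_iff_lt_or_eq.1 hi with h | rfl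
      · exact h2 i h
      · exact h1
    · intro h
      exact ⟨h k (by omega), fun i hi => h i (by omega)⟩

/-- the sequences with the prefix `p` -/
def cyl {α : Type} (p : List α) : Set (ℕ → α) := {x | pre x p.length = p}

lemma mem_cyl {α : Type} {x : ℕ → α} {p : List α} : x ∈ cyl p ↔ pre x p.length = p := Iff.rfl

lemma cyl_pre {α : Type} (x : ℕ → α) (k : ℕ) : cyl (pre x k) = {y | ∀ i < k, y i = x i} := by
  ext y
  rw [mem_cyl, pre_length, pre_eq_iff]
  rfl

lemma measurableSet_cyl {α : Type} [MeasurableSpace α] [MeasurableSingletonClass α] (p : List α) :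
    MeasurableSet (cyl p) := by
  induction p with
  | nil =>
    have h : cyl ([] : List α) = univ := by
      ext x
      rw [mem_cyl]
      simp [pre_zero]
    rw [h]
    exact MeasurableSet.univ
  | cons a l ih =>
    have h : cyl (a :: l) = (fun x : ℕ → α => x l.length) ⁻¹' {a} ∩ cyl l := by
      ext x
      rw [mem_cyl, List.length_cons, pre_succ, List.cons.injEq]
      rfl
    rw [h]
    exact (measurable_pi_apply _ (measurableSet_singleton a)).inter ih

/-- **the abstract statement**: `G` is a set of prefixes, `d` and `N` are functions of the prefix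
with `∑ d / N` finite over `G`; for almost every sequence `x` such that the sum of
`1 / (N * μ (cylinder))` over the prefixes of `x` in `G` is infinite, `d` is arbitrarily small on
these prefixes, infinitely often -/
theorem pure_tower {α : Type} [Countable α] [MeasurableSpace α] [MeasurableSingletonClass α]
    (μ : Measure (ℕ → α)) (G : Set (List α)) (d N : List α → ℝ≥0∞) (hN : ∀ p ∈ G, N p ≠ 0)
    (hs : ∑' p : G, d p / N p ≠ ⊤) :
    ∀ᵐ x ∂μ, ∑' k : {k : ℕ // pre x k ∈ G}, 1 / (N (pre x k) * μ (cyl (pre x k))) = ⊤ →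
      ∀ δ : ℝ≥0∞, δ ≠ 0 → δ ≠ ⊤ → {k | pre x k ∈ G ∧ d (pre x k) < δ}.Infinite := by
  have key := pure_measure μ (fun p : G => cyl (p : List α)) (fun p => measurableSet_cyl _)
    (fun p => d p) (fun p => N p) (fun p => hN p p.2) hs
  filter_upwards [key] with x hx htop δ hδ hδt
  by_contra hfin
  rw [Set.not_infinite] at hfin
  refine hx δ hδ hδt ?_ ?_
  · have h1 : {a : G | x ∈ cyl (a : List α) ∧ d a < δ} ⊆
        (fun a : G => (a : List α)) ⁻¹' (pre x '' {k | pre x k ∈ G ∧ d (pre x k) < δ}) := by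
      rintro ⟨p, hp⟩ ⟨h2, h3⟩
      have h4 : pre x p.length = p := h2
      refine ⟨p.length, ⟨?_, ?_⟩, h4⟩
      · rw [h4]; exact hp
      · rw [h4]; exact h3
    exact ((hfin.image _).preimage Subtype.val_injective.injOn).subset h1
  · rw [← htop]
    let e : {k : ℕ // pre x k ∈ G} ≃ {a : G // x ∈ cyl (a : List α)} :=
      { toFun := fun k => ⟨⟨pre x k, k.2⟩, by
          show pre x (pre x (k : ℕ)).length = pre x k
          rw [pre_length]⟩
        invFun := fun a => ⟨(a : G).1.length, by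
          have h4 : pre x (a : G).1.length = (a : G).1 := a.2
          rw [h4]; exact (a : G).2⟩
        left_inv := fun k => Subtype.ext (pre_length x k)
        right_inv := fun a => Subtype.ext (Subtype.ext a.2) }
    exact (e.tsum_eq fun a => 1 / (N (a : G) * μ (cyl ((a : G) : List α)))).symm

/-- admissible prefixes -/
def Adm (p : List ℚ) : Prop := ∀ y ∈ p, 0 < y ∧ y < 1

/-- product of the denominators -/
def dens (p : List ℚ) : ℕ := (p.map Rat.den).prod

lemma dens_cons (p : List ℚ) (x : ℚ) : dens (x :: p) = dens p * x.den := by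
  simp [dens, mul_comm]

lemma dens_pos (p : List ℚ) : 0 < dens p := by
  induction p with
  | nil => simp [dens]
  | cons a l ih => rw [dens_cons]; exact Nat.mul_pos ih a.pos

lemma dens_pre (x : ℕ → ℚ) (k : ℕ) : dens (pre x k) = ∏ i ∈ Finset.range k, (x i).den := by
  induction k with
  | zero => simp [dens, pre_zero]
  | succ k ih => rw [pre_succ, dens_cons, ih, Finset.prod_range_succ]

/-- **the sum over cylinders**: `ρ` assigns a root to each nonempty admissible prefix, injectively,
with period the product of the denominators of the earlier entries; along almost every sequence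
with infinite sum the diameters of the limbs are arbitrarily small, infinitely often -/
theorem tower_cyl {C : ℝ} (h : C_limbsum C) (μ : Measure (ℕ → ℚ)) (ρ : List ℚ → ℂ)
    (hroot : ∀ (p : List ℚ) (y : ℚ), Adm (y :: p) → 3 ≤ y.den →
      IsRoot (dens p) y.den (ρ (y :: p)))
    (hinj : ∀ (p p' : List ℚ) (y y' : ℚ), Adm (y :: p) → Adm (y' :: p') →
      ρ (y :: p) = ρ (y' :: p') → y = y' ∧ p = p') :
    ∀ᵐ x ∂μ, (∀ k, 0 < x k ∧ x k < 1) →
      ∑' k, (if 3 ≤ (x k).den then
        1 / (((∏ i ∈ Finset.range (k + 1), (x i).den : ℕ) : ℝ≥0∞) *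
          μ {y | ∀ i < k + 1, y i = x i}) else 0) = ⊤ →
      ∀ ε > 0, {k | 3 ≤ (x k).den ∧ diam (LimS (ρ (pre x (k + 1)))) < ε}.Infinite := by
  classical
  set G : Set (List ℚ) := {p | Adm p ∧ ∃ y p', p = y :: p' ∧ 3 ≤ y.den} with hG
  have hGe : ∀ p ∈ G, ∃ y p', p = y :: p' ∧ 3 ≤ y.den ∧ Adm (y :: p') := by
    rintro p ⟨h1, y, p', rfl, h2⟩
    exact ⟨y, p', rfl, h2, h1⟩
  have hsum : ∑' p : G, ENNReal.ofReal (diam (LimS (ρ p)) ^ 2) / ((dens p : ℕ) : ℝ≥0∞) ≠ ⊤ := by
    refine ne_top_of_le_ne_top (b := ENNReal.ofReal C) ENNReal.ofReal_ne_top ?_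
    rw [ENNReal.tsum_eq_iSup_sum]
    refine iSup_le fun F => ?_
    have hρ : Set.InjOn (fun p : G => ρ p) (F : Set G) := by
      rintro ⟨p, hp⟩ - ⟨p', hp'⟩ - heq
      obtain ⟨y, a, rfl, h1, h2⟩ := hGe p hp
      obtain ⟨y', a', rfl, h1', h2'⟩ := hGe p' hp'
      obtain ⟨h3, h4⟩ := hinj a a' y y' h2 h2' heq
      subst h3 h4
      rfl
    -- a function of the root with the product of the denominators
    set N : ℂ → ℕ := fun r => if hr : ∃ p : G, p ∈ F ∧ ρ p = r then dens hr.choose else 1 with hNdef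
    have hN : ∀ p ∈ F, N (ρ p) = dens p := by
      intro p hp
      have hr : ∃ q : G, q ∈ F ∧ ρ q = ρ p := ⟨p, hp, rfl⟩
      rw [hNdef]
      simp only [dif_pos hr]
      rw [hρ hr.choose_spec.1 hp hr.choose_spec.2]
    have h1 := capI_sum h (F.image fun p : G => ρ p) N fun r hr => by
      obtain ⟨p, hp, rfl⟩ := Finset.mem_image.1 hr
      obtain ⟨y, a, h2, h3, h4⟩ := hGe p p.2
      refine ⟨dens a, y.den, h3, ?_, ?_⟩
      · have := hroot a y h4 h3
        rwa [← h2] at this
      · rw [hN p hp, h2, dens_cons]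
    rw [Finset.sum_image hρ] at h1
    refine le_trans (le_of_eq ?_) (ENNReal.ofReal_le_ofReal h1)
    rw [ENNReal.ofReal_sum_of_nonneg fun r _ => by positivity]
    refine Finset.sum_congr rfl fun p hp => ?_
    rw [hN p hp, ENNReal.ofReal_div_of_pos (by exact_mod_cast dens_pos _), ENNReal.ofReal_natCast]
    rfl
  have key := pure_tower μ G (fun p => ENNReal.ofReal (diam (LimS (ρ p)) ^ 2))
    (fun p => ((dens p : ℕ) : ℝ≥0∞)) (fun p _ => by exact_mod_cast (dens_pos p).ne') hsum
  filter_upwards [key] with x hx hx01 htop ε hε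
  have hAdm : ∀ k, Adm (pre x k) := by
    intro k y hy
    obtain ⟨i, -, rfl⟩ := mem_pre hy
    exact hx01 i
  have hmem : ∀ k, pre x (k + 1) ∈ G ↔ 3 ≤ (x k).den := by
    intro k
    constructor
    · rintro ⟨-, y, p', h1, h2⟩
      rw [pre_succ, List.cons.injEq] at h1
      rw [h1.1]; exact h2
    · intro h1
      exact ⟨hAdm _, x k, pre x k, pre_succ x k, h1⟩
  have hzero : pre x 0 ∉ G := by
    rintro ⟨-, y, p', h1, -⟩
    simp [pre_zero] at h1
  have h1 : ∑' k : {k : ℕ // pre x k ∈ G},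
      1 / (((dens (pre x k) : ℕ) : ℝ≥0∞) * μ (cyl (pre x k))) = ⊤ := by
    rw [← htop]
    have h2 := tsum_subtype {k : ℕ | pre x k ∈ G} fun k =>
      1 / (((dens (pre x k) : ℕ) : ℝ≥0∞) * μ (cyl (pre x k)))
    refine h2.trans ?_
    rw [tsum_eq_zero_add' ENNReal.summable]
    have h3 : (0 : ℕ) ∉ {k : ℕ | pre x k ∈ G} := hzero
    rw [indicator_of_notMem h3, zero_add]
    refine tsum_congr fun k => ?_
    by_cases h4 : 3 ≤ (x k).den
    · have h5 : k + 1 ∈ {k : ℕ | pre x k ∈ G} := (hmem k).2 h4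
      rw [indicator_of_mem h5, if_pos h4, dens_pre, cyl_pre]
    · have h5 : k + 1 ∉ {k : ℕ | pre x k ∈ G} := fun h6 => h4 ((hmem k).1 h6)
      rw [indicator_of_notMem h5, if_neg h4]
  have h2 := hx h1 (ENNReal.ofReal (ε ^ 2)) (ENNReal.ofReal_pos.2 (by positivity)).ne'
    ENNReal.ofReal_ne_top
  intro hfin
  refine h2 ((hfin.image fun k => k + 1).subset ?_)
  rintro k ⟨h3, h4⟩
  rcases k with _ | k
  · exact absurd h3 hzero
  · refine ⟨k, ⟨(hmem k).1 h3, ?_⟩, rfl⟩
    have h5 : diam (LimS (ρ (pre x (k + 1)))) ^ 2 < ε ^ 2 := by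
      rwa [ENNReal.ofReal_lt_ofReal_iff (by positivity)] at h4
    exact lt_of_pow_lt_pow_left₀ 2 hε.le h5

/-- infinitely many terms bounded below give an infinite sum -/
lemma tsum_top_of_infinite {f : ℕ → ℝ≥0∞} {c : ℝ≥0∞} (hc : c ≠ 0)
    (h : {k | c ≤ f k}.Infinite) : ∑' k, f k = ⊤ := by
  classical
  have h1 : Infinite {k | c ≤ f k} := h.to_subtype
  have h2 : ∑' _ : {k | c ≤ f k}, c = ⊤ := ENNReal.tsum_const_eq_top_of_ne_zero hc
  have h3 : ∑' k : {k | c ≤ f k}, c ≤ ∑' k : {k | c ≤ f k}, f k :=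
    ENNReal.tsum_le_tsum fun k => k.2
  have h4 : ∑' k : {k | c ≤ f k}, f k ≤ ∑' k, f k :=
    ENNReal.tsum_comp_le_tsum_of_injective Subtype.val_injective f
  exact top_le_iff.1 (h2 ▸ h3.trans h4)

/-- a measure with `μ (cylinder) ≤ K / (product of the denominators)` satisfies the hypothesis of
`tower_cyl` at every sequence with infinitely many denominators `≥ 3` -/
lemma tsum_top_of_le {μ : Measure (ℕ → ℚ)} {K : ℝ≥0∞} (hK : K ≠ ⊤) {x : ℕ → ℚ}
    (hμ : ∀ k, ((∏ i ∈ Finset.range (k + 1), (x i).den : ℕ) : ℝ≥0∞) *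
      μ {y | ∀ i < k + 1, y i = x i} ≤ K) (hinf : {k | 3 ≤ (x k).den}.Infinite) :
    ∑' k, (if 3 ≤ (x k).den then
      1 / (((∏ i ∈ Finset.range (k + 1), (x i).den : ℕ) : ℝ≥0∞) *
        μ {y | ∀ i < k + 1, y i = x i}) else 0) = ⊤ := by
  refine tsum_top_of_infinite (c := 1 / K) (ENNReal.div_ne_zero.2 ⟨one_ne_zero, hK⟩)
    (hinf.mono ?_)
  intro k hk
  have hk' : 3 ≤ (x k).den := hk
  show 1 / K ≤ _
  rw [if_pos hk']
  exact ENNReal.div_le_div_left (hμ k) 1

end Pool.Agent.Work.MLC.Tow
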