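import Pool.Agent.Work.MLC.CapC60
import Pool.Agent.Work.MLC.CntR60

set_option autoImplicit false

/-! # Random towers of satellites: the child component and its root (helper6) -/

namespace Pool.Agent.Work.MLC.Tw

open Filter Topology Metric Set Complex
open Pool.Agent.Work.MLC.Sat Pool.Agent.Work.MLC.Cnt Pool.Agent.Work.MLC.Cap

/-- `W'` is the component attached to `W` at the root `x` -/
structure Ch (W : WS) (x : ℚ) (W' : WS) : Prop where
  ok : W'.Ok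
  m : W'.m = W.m * x.den
  n : W'.m = (W.dat x).n
  w : W'.w = (W.dat x).u
  k : W'.k = (W.dat x).k
  arc : ∀ y : ℚ, 0 < y → y < 1 → (W.dat x).tm < (W'.dat y).tm ∧ (W'.dat y).tp < (W.dat x).tp

theorem exists_ch {W : WS} (hW : W.Ok) {x : ℚ} (h0 : 0 < x) (h1 : x < 1) : ∃ W', Ch W x W' := by
  set D := W.dat x with hD
  have hP : D.Par := WS.dat_par hW h0 h1
  have hC : D.Cir := WS.dat_cir hW h0 h1
  have hn : 0 < D.n := Par_n_pos hP
  have hword : Word D.n D.u := ⟨hC.ubits.bit, hC.ubits.per, hC.uprim⟩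
  obtain ⟨σ, hV, hex⟩ := Pri.exists_wide_word hn hword D.k
  set W' : WS := ⟨D.n, D.u, D.k, σ⟩ with hW'
  have hok : W'.Ok := ⟨hV, hex⟩
  have hnear : ∀ θ, Circ.nu D.w D.m θ = D.k₀ + D.x → D.Near θ := by
    intro θ h
    have hn0 : (0 : ℝ) < D.n := by exact_mod_cast hn
    have hq0 : (0 : ℝ) < D.x.den := by exact_mod_cast D.x.pos
    unfold Dat.Near
    rw [h, sub_self, abs_zero]
    positivity
  have hum : Circ.nu D.u D.n D.tm = D.k :=
    hC.nu_left _ (hnear _ ((hC.plateau D.tm).2 ⟨le_rfl, hC.lt.le⟩)) le_rfl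
  have hup : Circ.nu D.u D.n D.tp = D.k + 1 :=
    hC.nu_right _ (hnear _ ((hC.plateau D.tp).2 ⟨hC.lt.le, le_rfl⟩)) le_rfl
  have hin : ∀ θ, (D.k : ℝ) < Circ.nu D.u D.n θ → Circ.nu D.u D.n θ < D.k + 1 →
      D.tm < θ ∧ θ < D.tp := by
    intro θ h2 h3
    constructor
    · by_contra hcon
      push Not at hcon
      have := Circ.nu_mono D.u D.n hcon
      linarith
    · by_contra hcon
      push Not at hcon
      have := Circ.nu_mono D.u D.n hcon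
      linarith
  have hnu' : ∀ θ, W'.nu θ = Circ.nu D.u D.n θ - D.k := fun θ => rfl
  refine ⟨W', hok, ?_, rfl, rfl, rfl, ?_⟩
  · show D.m * D.x.den = W.m * x.den
    rw [hD, WS.dat_m hW h0 h1, WS.dat_x hW h0 h1]
  · intro y hy0 hy1
    have hy0' : (0 : ℝ) < y := by exact_mod_cast hy0
    have hy1' : (y : ℝ) < 1 := by exact_mod_cast hy1
    have hlt := (WS.dat_cir hok hy0 hy1).lt
    have a1 := (WS.plateau hok hy0 hy1 (W'.dat y).tm).2 ⟨le_rfl, hlt.le⟩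
    have a2 := (WS.plateau hok hy0 hy1 (W'.dat y).tp).2 ⟨hlt.le, le_rfl⟩
    rw [hnu'] at a1 a2
    exact ⟨(hin _ (by linarith) (by linarith)).1, (hin _ (by linarith) (by linarith)).2⟩

lemma e_le_map {D : Dat} {Z : ℂ → Set ℂ} {e : ℂ → ℂ} (hCh : Child D Z e) {ℓ : ℂ}
    (hℓ : ℓ ∈ ball (0 : ℂ) (cR D.n)) : 𝓝 (e ℓ) ≤ map e (𝓝 ℓ) := by
  have h1 : AnalyticAt ℂ e ℓ := hCh.diff.analyticAt (isOpen_ball.mem_nhds hℓ)
  rcases h1.eventually_constant_or_nhds_le_map_nhds with h2 | h2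
  · exfalso
    obtain ⟨ℓ', ⟨h3, h4⟩, h5⟩ := (((h2.and (isOpen_ball.mem_nhds hℓ)).filter_mono
      (nhdsWithin_le_nhds (s := {ℓ}ᶜ))).and self_mem_nhdsWithin).exists
    exact h5 (hCh.inj h4 hℓ h3)
  · exact h2

/-- the inequality for integer rotation fails in the wide domain -/
lemma no_int {n : ℕ} (hn : 0 < n) {L ℓ' : ℂ} (hL : L ∈ Pri.D0 n) {j : ℤ} (h2 : exp ℓ' = exp L)
    (h : ‖ℓ' - 2 * Real.pi * ((j : ℝ) : ℂ) * I‖ ^ 2 ≤ 81 * n * ℓ'.re) : False := by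
  rw [Complex.exp_eq_exp_iff_exists_int] at h2
  obtain ⟨i, hi⟩ := h2
  obtain ⟨h0, h1, h4⟩ := hL
  have hn' : (0 : ℝ) < n := by exact_mod_cast hn
  have hpi := Real.pi_pos
  have hre : ℓ'.re = L.re := by rw [hi]; simp
  have hμ : 0 < min L.im (2 * Real.pi - L.im) := lt_min h0 (by linarith)
  have hμ1 : min L.im (2 * Real.pi - L.im) ≤ L.im := min_le_left _ _
  have hμ2 : min L.im (2 * Real.pi - L.im) ≤ 2 * Real.pi - L.im := min_le_right _ _
  unfold Pri.hgt at h4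
  set μ := min L.im (2 * Real.pi - L.im)
  rw [lt_div_iff₀ (by positivity)] at h4
  rw [hre] at h
  have h5 : ‖ℓ' - 2 * Real.pi * ((j : ℝ) : ℂ) * I‖ ^ 2 < μ ^ 2 := by nlinarith [pow_pos hμ 2]
  have h6 : ‖ℓ' - 2 * Real.pi * ((j : ℝ) : ℂ) * I‖ < μ := lt_of_pow_lt_pow_left₀ 2 hμ.le h5
  have h7 := (abs_im_le_norm (ℓ' - 2 * Real.pi * ((j : ℝ) : ℂ) * I)).trans_lt h6
  have h8 : (ℓ' - 2 * Real.pi * ((j : ℝ) : ℂ) * I).im = L.im - 2 * Real.pi * ((j - i : ℤ) : ℝ) := by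
    rw [hi]
    simp
    ring
  rw [h8] at h7
  rcases lt_or_ge 0 (j - i) with h9 | h9
  · have h10 : (1 : ℝ) ≤ ((j - i : ℤ) : ℝ) := by exact_mod_cast h9
    have := (abs_lt.1 h7).1
    nlinarith
  · have h10 : ((j - i : ℤ) : ℝ) ≤ 0 := by exact_mod_cast h9
    have := (abs_lt.1 h7).2
    nlinarith

/-- near the root the child is given by the coordinate of Theorem S -/
theorem ch_axis {W : WS} (hW : W.Ok) {x : ℚ} (h0 : 0 < x) (h1 : x < 1) {W' : WS} (h : Ch W x W')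
    {Z : ℂ → Set ℂ} {e : ℂ → ℂ} (hR : Regions (W.dat x)) (hG : Glued (W.dat x) Z)
    (hCh : Child (W.dat x) Z e) {y : ℝ} (hy0 : 0 < y) (hy : 2 * Real.pi * y < cR (W.dat x).n)
    (hy1 : y < 1) :
    W'.c (2 * Real.pi * y * I) = (W.dat x).c (e (2 * Real.pi * y * I)) := by
  have hP : (W.dat x).Par := WS.dat_par hW h0 h1
  have hC : (W.dat x).Cir := WS.dat_cir hW h0 h1
  set D := W.dat x with hD
  have hn : 0 < D.n := Par_n_pos hP
  have hn0 : (0 : ℝ) < D.n := by exact_mod_cast hn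
  have hpi := Real.pi_pos
  set ℓ : ℂ := 2 * Real.pi * y * I with hℓ
  have hre : ℓ.re = 0 := by simp [hℓ]
  have him : ℓ.im = 2 * Real.pi * y := by simp [hℓ]
  have hnorm : ‖ℓ‖ = 2 * Real.pi * y := by
    rw [hℓ, norm_mul, Complex.norm_I, mul_one, norm_mul, norm_mul]
    simp [abs_of_pos hpi, abs_of_pos hy0]
  have hℓb : ℓ ∈ ball (0 : ℂ) (cR D.n) := by rw [mem_ball_zero_iff, hnorm]; exact hy
  have hℓ0 : ℓ ≠ 0 := by
    rintro h2; rw [h2, norm_zero] at hnorm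
    have : 0 < 2 * Real.pi * y := by positivity
    linarith
  have hU := e_mem_U hP hCh hℓb hℓ0
  obtain ⟨z, hz⟩ := hG.fam.ne _ hU
  have hper := (hG.fam.fix _ hU z hz).1
  have hmul : mul D.n (D.c (e ℓ), z) = exp ℓ := hCh.mul_eq ℓ hℓb hℓ0 z hz
  obtain ⟨-, -, hfr⟩ := s3_neutral D.n (D.c (e ℓ), z) y hn hper hy0 hy1 hmul
  have hV := h.ok.wide
  rw [h.n, h.w, h.k] at hV
  have hD0 : ℓ ∈ Pri.D0 D.n := T60.axis_mem_D0 hn hy0 hy1
  -- exterior parameters near `ℓ`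
  have hfr2 : ∃ᶠ L in 𝓝 ℓ, D.c (e L) ∉ MM := by
    have h2 : 𝓝 (D.c (e ℓ)) ≤ map (fun L => D.c (e L)) (𝓝 ℓ) := by
      rw [← c_map_nhds hP (U_sub_B hP hU)]
      exact map_mono (e_le_map hCh hℓb)
    exact hfr.filter_mono h2
  have hfr3 : ∃ᶠ L in 𝓝 ℓ, W'.c L = D.c (e L) := by
    have e1 : ∀ᶠ L in 𝓝 ℓ, L ∈ ball (0 : ℂ) (cR D.n) := isOpen_ball.mem_nhds hℓb
    have e2 : ∀ᶠ L in 𝓝 ℓ, L ∈ Pri.D0 D.n := (Pri.isOpen_D0 D.n).mem_nhds hD0
    have e3 : ∀ᶠ L in 𝓝 ℓ, L ≠ 0 := isOpen_ne.mem_nhds hℓ0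
    refine (hfr2.and_eventually (e1.and (e2.and e3))).mono ?_
    rintro L ⟨hL1, hLb, hLD, hL0⟩
    have hLU := e_mem_U hP hCh hLb hL0
    obtain ⟨z', hz'⟩ := hG.fam.ne _ hLU
    rw [hG.ext _ ⟨hLU, hL1⟩] at hz'
    obtain ⟨θ, hTh, z₀, hE, i, hi⟩ := hz'
    have hz₀ : z₀ ∈ Z (e L) := by
      rw [hG.ext _ ⟨hLU, hL1⟩]
      exact ⟨θ, hTh, z₀, hE, 0, rfl⟩
    have hper₀ := (hG.fam.fix _ hLU z₀ hz₀).1
    have hmul₀ : mul D.n (D.c (e L), z₀) = exp L := hCh.mul_eq L hLb hL0 z₀ hz₀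
    have hLre : 0 < L.re := by
      have h3 : 1 < ‖mult D.n (D.c (e L)) z₀‖ :=
        one_lt_norm_mult_of_ext hn (not_mem_MM_iff.1 hL1) hper₀
      have h4 : mult D.n (D.c (e L)) z₀ = exp L := hmul₀
      rw [h4, Complex.norm_exp] at h3
      exact Real.one_lt_exp_iff.1 h3
    -- the rotation number
    have hnear := hR.near _ hLU θ hTh
    have hν0 : (D.k : ℝ) ≤ Circ.nu D.u D.n θ ∧ Circ.nu D.u D.n θ ≤ D.k + 1 := by
      rcases le_or_gt θ D.tm with h3 | h3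
      · rw [hC.nu_left θ hnear h3]; constructor <;> linarith
      rcases le_or_gt D.tp θ with h4 | h4
      · rw [hC.nu_right θ hnear h4]; constructor <;> linarith
      · exact ⟨(hC.nu_in θ h3 h4).1.le, (hC.nu_in θ h3 h4).2.le⟩
    have hlt : ‖mul D.n (D.c (e L), z₀)‖ < 23 / 10 := by rw [hmul₀]; exact Pri.lt_D0 hn hLD
    have hG4 : G (D.c (e L)) (D.c (e L)) ≤ 4 := G_le_four_of_mul_lt hn hE.2.2.1 hlt
    obtain ⟨-, ℓ', hℓ', hply⟩ := extP_ply hn hE hG4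
    have hnint : ∀ j : ℤ, Circ.nu D.u D.n θ ≠ j := by
      intro j hj
      rw [hj] at hply
      exact no_int hn hLD (ℓ' := ℓ') (j := j) (by rw [hℓ', ← hmul₀]; rfl) hply
    have hk1 : (D.k : ℝ) < Circ.nu D.u D.n θ := lt_of_le_of_ne hν0.1 (hnint D.k).symm
    have hk2 : Circ.nu D.u D.n θ < D.k + 1 := by
      refine lt_of_le_of_ne hν0.2 ?_
      have := hnint (D.k + 1)
      push_cast at this
      exact this
    have hσ : (D.c (e L), z₀) = W'.σ L := by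
      refine hV.uniq L hLD hLre _ hper₀ hmul₀ ?_
      rw [((hV.lab L hLD hLre).2 θ hk1 hk2)]
      exact FF_ext (x := (D.c (e L), z₀)) hE
    show (W'.σ L).1 = _
    rw [← hσ]
  have hc1 : ContinuousAt W'.c ℓ :=
    continuous_fst.continuousAt.comp (hV.cont.continuousAt ((Pri.isOpen_D0 _).mem_nhds hD0))
  have hc2 : ContinuousAt (fun L => D.c (e L)) ℓ :=
    ContinuousAt.comp (g := D.c) (c_contAt hP (U_sub_B hP hU)) (e_contAt hCh hℓb)
  by_contra hne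
  obtain ⟨A, B, hA, hB, hyA, hB', hAB⟩ := t2_separation hne
  obtain ⟨L, h3, h4, h5⟩ := (hfr3.and_eventually
    ((hc1.eventually (hA.mem_nhds hyA)).and (hc2.eventually (hB.mem_nhds hB')))).exists
  rw [h3] at h4
  exact Set.disjoint_left.1 hAB h4 h5

/-- the left half of the wide domain -/
def LH : Set ℂ := {L | 0 < L.im ∧ L.im < 2 * Real.pi ∧ L.re < 0}

lemma LH_convex : Convex ℝ LH :=
  (convex_halfSpace_im_gt 0).inter ((convex_halfSpace_im_lt (2 * Real.pi)).inter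
    (convex_halfSpace_re_lt 0))

lemma LH_sub {n : ℕ} (hn : 0 < n) : LH ⊆ Pri.D0 n := by
  rintro L ⟨h0, h1, h2⟩
  refine ⟨h0, h1, h2.trans_le ?_⟩
  unfold Pri.hgt
  positivity

lemma ok_pos {W : WS} (hW : W.Ok) : 0 < W.m := hW.wide.pos

lemma ok_contAt {W : WS} (hW : W.Ok) {L : ℂ} (hL : L ∈ Pri.D0 W.m) : ContinuousAt W.c L :=
  continuous_fst.continuousAt.comp (hW.wide.cont.continuousAt ((Pri.isOpen_D0 _).mem_nhds hL))

/-- the hyperbolic component -/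
def Hy (W : WS) : Set ℂ := connectedComponentIn (Hyp.AA W.m) (W.c (-1 + Real.pi * I))

lemma base_mem : (-1 + Real.pi * I : ℂ) ∈ LH := by
  have := Real.pi_pos
  refine ⟨?_, ?_, ?_⟩ <;> simp <;> linarith

lemma left_AA {W : WS} (hW : W.Ok) {L : ℂ} (hL : L ∈ LH) : W.c L ∈ Hyp.AA W.m := by
  have h1 := hW.wide.sec L (LH_sub (ok_pos hW) hL)
  refine ⟨(W.σ L).2, (Hyp.mem_Att_iff (ok_pos hW)).1 ⟨h1.1, hW.ex L (LH_sub (ok_pos hW) hL), ?_⟩⟩
  show ‖mul W.m (W.σ L)‖ < 1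
  rw [h1.2, Complex.norm_exp]
  exact Real.exp_lt_one_iff.2 hL.2.2

lemma left_Hy {W : WS} (hW : W.Ok) : W.c '' LH ⊆ Hy W := by
  refine (LH_convex.isPreconnected.image _ fun L hL =>
    (ok_contAt hW (LH_sub (ok_pos hW) hL)).continuousWithinAt).subset_connectedComponentIn
    ⟨_, base_mem, rfl⟩ ?_
  rintro _ ⟨L, hL, rfl⟩
  exact left_AA hW hL

lemma hyp_Hy {W : WS} (hW : W.Ok) : HypComp W.m (Hy W) :=
  ⟨_, left_AA hW base_mem, rfl⟩

/-- the axis is in the closure of the component -/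
lemma axis_closure {W : WS} (hW : W.Ok) {y : ℝ} (hy0 : 0 < y) (hy1 : y < 1) :
    W.c (2 * Real.pi * y * I) ∈ closure (Hy W) := by
  have hpi := Real.pi_pos
  have h1 : Tendsto (fun t : ℝ => (2 * Real.pi * y * I - t : ℂ)) (𝓝[>] 0)
      (𝓝 (2 * Real.pi * y * I)) := by
    have : Tendsto (fun t : ℝ => (2 * Real.pi * y * I - t : ℂ)) (𝓝 0)
        (𝓝 (2 * Real.pi * y * I - ((0 : ℝ) : ℂ))) := Continuous.tendsto (by fun_prop) 0
    rw [Complex.ofReal_zero, sub_zero] at this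
    exact this.mono_left nhdsWithin_le_nhds
  have h2 := (ok_contAt hW (T60.axis_mem_D0 (ok_pos hW) hy0 hy1)).tendsto.comp h1
  refine mem_closure_of_tendsto h2 ?_
  filter_upwards [self_mem_nhdsWithin] with t ht
  have ht' : (0 : ℝ) < t := ht
  refine left_Hy hW ⟨_, ⟨?_, ?_, ?_⟩, rfl⟩
  · simp; positivity
  · simp; nlinarith
  · simp; exact ht'

/-- **the root is in the closure of the child component** -/
theorem ch_closure {W : WS} (hW : W.Ok) {x : ℚ} (h0 : 0 < x) (h1 : x < 1) {W' : WS}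
    (h : Ch W x W') : rt (W.dat x) ∈ closure (Hy W') := by
  have hP : (W.dat x).Par := WS.dat_par hW h0 h1
  have hC : (W.dat x).Cir := WS.dat_cir hW h0 h1
  have hR := regions_all _ hP hC
  obtain ⟨Z, hG⟩ := glue_all _ hP hC hR
  obtain ⟨e, hCh⟩ := child_all _ Z hP hC hR hG
  have hn : 0 < (W.dat x).n := Par_n_pos hP
  have hcR := cR_pos hn
  have hpi := Real.pi_pos
  have hz : (0 : ℂ) ∈ ball (0 : ℂ) (cR (W.dat x).n) := mem_ball_self hcR
  have h2 : Tendsto (fun y : ℝ => (2 * Real.pi * y * I : ℂ)) (𝓝[>] 0) (𝓝 0) := by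
    have : Tendsto (fun y : ℝ => (2 * Real.pi * y * I : ℂ)) (𝓝 0)
        (𝓝 (2 * Real.pi * ((0 : ℝ) : ℂ) * I)) := Continuous.tendsto (by fun_prop) 0
    rw [Complex.ofReal_zero, mul_zero, zero_mul] at this
    exact this.mono_left nhdsWithin_le_nhds
  have h3 : Tendsto e (𝓝 0) (𝓝 (W.dat x).a) := by
    have := (e_contAt hCh hz).tendsto
    rwa [hCh.zero] at this
  have h4 : Tendsto (fun y : ℝ => (W.dat x).c (e (2 * Real.pi * y * I))) (𝓝[>] 0)
      (𝓝 (rt (W.dat x))) := (c_contAt hP (a_mem_B hP)).tendsto.comp (h3.comp h2)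
  refine closure_minimal (le_refl _) isClosed_closure (mem_closure_of_tendsto h4 ?_)
  have h5 : ∀ᶠ y : ℝ in 𝓝[>] 0, 2 * Real.pi * y < cR (W.dat x).n ∧ y < 1 := by
    have h6 : ∀ᶠ y : ℝ in 𝓝 0, y < min (cR (W.dat x).n / (2 * Real.pi)) 1 :=
      gt_mem_nhds (lt_min (by positivity) one_pos)
    filter_upwards [h6.filter_mono nhdsWithin_le_nhds] with y hy
    refine ⟨?_, hy.trans_le (min_le_right _ _)⟩
    have := hy.trans_le (min_le_left _ _)
    rw [lt_div_iff₀ (by positivity)] at this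
    linarith
  filter_upwards [h5, self_mem_nhdsWithin] with y hy hy0
  rw [← ch_axis hW h0 h1 h hR hG hCh hy0 hy.1 hy.2]
  exact axis_closure h.ok hy0 hy.2

end Pool.Agent.Work.MLC.Tw
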