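import Pool.Agent.Work.MLC.TwA6
import Pool.Agent.Work.MLC.CapQ13
import Pool.Agent.Work.MLC.CapS6

set_option autoImplicit false

/-! # Random towers of satellites: the tower (helper6)

`tow l` is the component of the list `l` of rationals in `(0, 1)` (most recent first): `tow []` is
the main cardioid, `tow (x :: l)` is attached to `tow l` at the root of internal angle `x`. -/

namespace Pool.Agent.Work.MLC.Tw

open Filter Topology Metric Set Complex
open Pool.Agent.Work.MLC.Sat Pool.Agent.Work.MLC.Cnt Pool.Agent.Work.MLC.Cap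

/-- all elements are in `(0, 1)` -/
def Val (l : List ℚ) : Prop := ∀ x ∈ l, 0 < x ∧ x < 1

lemma val_nil : Val [] := fun x hx => absurd hx (by simp)

lemma val_cons {x : ℚ} {l : List ℚ} : Val (x :: l) ↔ (0 < x ∧ x < 1) ∧ Val l := by
  constructor
  · intro h
    exact ⟨h x (by simp), fun y hy => h y (by simp [hy])⟩
  · rintro ⟨h1, h2⟩ y hy
    rcases List.mem_cons.1 hy with rfl | h3
    · exact h1
    · exact h2 y h3

lemma exists_W0 : ∃ W : WS, W.Ok ∧ W.m = 1 := by
  have hw : Word 1 (fun _ : ℕ => (0 : ℤ)) :=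
    ⟨fun _ => Or.inl rfl, fun _ => rfl, fun d h0 h1 => absurd h1 (by omega)⟩
  obtain ⟨σ, hV, hex⟩ := Pri.exists_wide_word one_pos hw 0
  exact ⟨⟨1, fun _ => 0, 0, σ⟩, ⟨hV, hex⟩, rfl⟩

open Classical in
/-- the component of the list -/
noncomputable def tow : List ℚ → WS
  | [] => exists_W0.choose
  | x :: l => if h : (tow l).Ok ∧ 0 < x ∧ x < 1 then (exists_ch h.1 h.2.1 h.2.2).choose else tow l

lemma tow_nil : (tow []).Ok ∧ (tow []).m = 1 := by
  have := exists_W0.choose_spec
  unfold tow
  exact this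

lemma tow_ok {l : List ℚ} (h : Val l) : (tow l).Ok := by
  induction l with
  | nil => exact tow_nil.1
  | cons x l ih =>
    obtain ⟨⟨h0, h1⟩, h2⟩ := val_cons.1 h
    have hh : (tow l).Ok ∧ 0 < x ∧ x < 1 := ⟨ih h2, h0, h1⟩
    rw [tow, dif_pos hh]
    exact (exists_ch hh.1 hh.2.1 hh.2.2).choose_spec.ok

lemma tow_ch {x : ℚ} {l : List ℚ} (h : Val (x :: l)) : Ch (tow l) x (tow (x :: l)) := by
  obtain ⟨⟨h0, h1⟩, h2⟩ := val_cons.1 h
  have hh : (tow l).Ok ∧ 0 < x ∧ x < 1 := ⟨tow_ok h2, h0, h1⟩
  rw [tow, dif_pos hh]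
  exact (exists_ch hh.1 hh.2.1 hh.2.2).choose_spec

/-- the period -/
def per (l : List ℚ) : ℕ := (l.map fun x => x.den).prod

lemma tow_m {l : List ℚ} (h : Val l) : (tow l).m = per l := by
  induction l with
  | nil => exact tow_nil.2
  | cons x l ih =>
    rw [(tow_ch h).m, ih (val_cons.1 h).2, per, per, List.map_cons, List.prod_cons, mul_comm]

/-- the datum of a nonempty list -/
noncomputable def dt (x : ℚ) (l : List ℚ) : Dat := (tow l).dat x

section

variable {x : ℚ} {l : List ℚ}

lemma dt_par (h : Val (x :: l)) : (dt x l).Par :=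
  WS.dat_par (tow_ok (val_cons.1 h).2) (val_cons.1 h).1.1 (val_cons.1 h).1.2

lemma dt_cir (h : Val (x :: l)) : (dt x l).Cir :=
  WS.dat_cir (tow_ok (val_cons.1 h).2) (val_cons.1 h).1.1 (val_cons.1 h).1.2

/-- the arcs are nested -/
lemma dt_arc {y : ℚ} (h : Val (y :: x :: l)) :
    (dt x l).tm < (dt y (x :: l)).tm ∧ (dt y (x :: l)).tp < (dt x l).tp :=
  (tow_ch (val_cons.1 h).2).arc y (val_cons.1 h).1.1 (val_cons.1 h).1.2

/-- the roots are nested -/
lemma rt_nest {y : ℚ} (h : Val (y :: x :: l)) : rt (dt y (x :: l)) ∈ Lm (dt x l) := by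
  have h2 := (val_cons.1 h).2
  exact nest_of_arc (dt_par h2) (dt_cir h2) (dt_par h) (dt_cir h) (dt_arc h).1 (dt_arc h).2

/-- the arcs are in the strip of the main cardioid -/
lemma dt_strip (h : Val (x :: l)) : 0 < (tow []).nu (dt x l).tm ∧ (tow []).nu (dt x l).tp < 1 := by
  induction l generalizing x with
  | nil =>
    obtain ⟨⟨h0, h1⟩, -⟩ := val_cons.1 h
    have hlt := (dt_cir h).lt
    have a1 := (WS.plateau tow_nil.1 h0 h1 (dt x []).tm).2 ⟨le_rfl, hlt.le⟩
    have a2 := (WS.plateau tow_nil.1 h0 h1 (dt x []).tp).2 ⟨hlt.le, le_rfl⟩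
    rw [a1, a2]
    exact ⟨by exact_mod_cast h0, by exact_mod_cast h1⟩
  | cons y l ih =>
    have h2 := (val_cons.1 h).2
    have h3 := ih h2
    have h4 := dt_arc h
    exact ⟨h3.1.trans_le ((tow []).nu_mono h4.1.le), ((tow []).nu_mono h4.2.le).trans_lt h3.2⟩

/-- two arcs with the same root are equal -/
lemma dt_same {x' : ℚ} {l' : List ℚ} (h : Val (x :: l)) (h' : Val (x' :: l'))
    (he : rt (dt x l) = rt (dt x' l')) :
    (dt x l).tm = (dt x' l').tm ∧ (dt x l).tp = (dt x' l').tp := by
  obtain ⟨k, h1, h2⟩ := plateau_unique n2_ray (dt_par h) (dt_cir h) (dt_par h') (dt_cir h') he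
  have a := dt_strip h
  have a' := dt_strip h'
  have b := (dt_cir h).lt
  have b' := (dt_cir h').lt
  have c1 := (tow []).nu_mono b.le
  have c2 := (tow []).nu_mono b'.le
  have hk : k = 0 := by
    have hw := tow_nil.1.wide
    have key : ∀ (t : ℝ), 0 < (tow []).nu t → (tow []).nu (t + 1) < 1 → False := by
      intro t ht ht1
      have h3 : ((tow []).k : ℝ) < Circ.nu (tow []).w (tow []).m t := by
        unfold WS.nu at ht; linarith
      have h4 := s2_width (tow []).m (tow []).w t (tow []).k hw.pos hw.bits h3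
      unfold WS.nu at ht1; linarith
    rcases lt_trichotomy k 0 with h3 | h3 | h3
    · exfalso
      have h4 : (k : ℝ) ≤ -1 := by exact_mod_cast Int.le_sub_one_of_lt h3
      refine key (dt x l).tm a.1 ?_
      have h5 : (dt x l).tm + 1 ≤ (dt x' l').tm := by linarith
      exact (((tow []).nu_mono h5).trans c2).trans_lt a'.2
    · exact h3
    · exfalso
      have h4 : (1 : ℝ) ≤ k := by exact_mod_cast h3
      refine key (dt x' l').tm a'.1 ?_
      have h5 : (dt x' l').tm + 1 ≤ (dt x l).tm := by linarith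
      exact (((tow []).nu_mono h5).trans c1).trans_lt a.2
  rw [hk, Int.cast_zero, add_zero] at h1 h2
  exact ⟨h1, h2⟩

/-- different rationals on one component: disjoint arcs -/
lemma dt_sib {x' : ℚ} (h : Val (x :: l)) (h' : Val (x' :: l)) (hne : x ≠ x') :
    (dt x l).tp < (dt x' l).tm ∨ (dt x' l).tp < (dt x l).tm := by
  have key : ∀ {x x' : ℚ}, Val (x :: l) → Val (x' :: l) → x < x' →
      (dt x l).tp < (dt x' l).tm := by
    intro x x' h h' hlt
    obtain ⟨⟨h0, h1⟩, h2⟩ := val_cons.1 h
    obtain ⟨⟨h0', h1'⟩, -⟩ := val_cons.1 h'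
    have a1 := (WS.plateau (tow_ok h2) h0 h1 (dt x l).tp).2 ⟨(dt_cir h).lt.le, le_rfl⟩
    have a2 := (WS.plateau (tow_ok h2) h0' h1' (dt x' l).tm).2 ⟨le_rfl, (dt_cir h').lt.le⟩
    by_contra hcon
    push Not at hcon
    have h3 := (tow l).nu_mono hcon
    rw [a1, a2] at h3
    have h4 : x' ≤ x := by exact_mod_cast h3
    exact absurd hlt (not_lt.2 h4)
  rcases lt_or_gt_of_ne hne with h1 | h1
  · exact Or.inl (key h h' h1)
  · exact Or.inr (key h' h h1)

/-- lists of the same length: disjoint arcs -/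
lemma dt_disj {x' : ℚ} {l' : List ℚ} (hl : l.length = l'.length) (h : Val (x :: l))
    (h' : Val (x' :: l')) (hne : x :: l ≠ x' :: l') :
    (dt x l).tp < (dt x' l').tm ∨ (dt x' l').tp < (dt x l).tm := by
  induction l generalizing x x' l' with
  | nil =>
    obtain rfl : l' = [] := List.length_eq_zero_iff.1 hl.symm
    exact dt_sib h h' fun he => hne (by rw [he])
  | cons y l ih =>
    obtain _ | ⟨y', l'⟩ := l'
    · simp at hl
    by_cases he : y :: l = y' :: l'
    · rw [← he] at h' hne ⊢
      exact dt_sib h h' fun he2 => hne (by rw [he2])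
    · have h1 := ih (by simpa using hl) (val_cons.1 h).2 (val_cons.1 h').2 he
      have h2 := dt_arc h
      have h3 := dt_arc h'
      rcases h1 with h1 | h1
      · left; linarith
      · right; linarith

/-- arcs along a list -/
lemma dt_sub {s : List ℚ} {y : ℚ} (h : Val (y :: (s ++ x :: l))) :
    (dt x l).tm < (dt y (s ++ x :: l)).tm ∧ (dt y (s ++ x :: l)).tp < (dt x l).tp := by
  induction s generalizing y with
  | nil => exact dt_arc h
  | cons z s ih =>
    have h1 : Val (y :: z :: (s ++ x :: l)) := h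
    have h2 := dt_arc h1
    have h3 := ih (val_cons.1 h1).2
    exact ⟨h3.1.trans h2.1, h2.2.trans h3.2⟩

/-- **the root determines the list** -/
theorem dt_inj {x' : ℚ} {l' : List ℚ} (h : Val (x :: l)) (h' : Val (x' :: l'))
    (he : rt (dt x l) = rt (dt x' l')) : x :: l = x' :: l' := by
  have key : ∀ {x x' : ℚ} {l l' : List ℚ}, Val (x :: l) → Val (x' :: l') →
      rt (dt x l) = rt (dt x' l') → l.length ≤ l'.length → x :: l = x' :: l' := by
    intro x x' l l' h h' he hle
    obtain ⟨h1, h2⟩ := dt_same h h' he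
    have hlt := (dt_cir h).lt
    have hlt' := (dt_cir h').lt
    rcases hle.eq_or_lt with h3 | h3
    · by_contra hne
      rcases dt_disj h3 h h' hne with h4 | h4 <;> linarith
    · exfalso
      -- the suffix of the same length
      set n := l'.length - (l.length + 1) with hn
      obtain ⟨u, v, huv⟩ : ∃ u v, l'.drop n = u :: v := by
        have h4 : (l'.drop n).length = l.length + 1 := by
          rw [List.length_drop]; omega
        cases hd : l'.drop n with
        | nil => rw [hd] at h4; simp at h4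
        | cons u v => exact ⟨u, v, rfl⟩
      have hlen : v.length = l.length := by
        have h4 : (l'.drop n).length = l.length + 1 := by
          rw [List.length_drop]; omega
        rw [huv] at h4
        simpa using h4
      have hl' : l' = l'.take n ++ u :: v := by rw [← huv, List.take_append_drop]
      rw [hl'] at h' h1 h2
      have h5 := dt_sub h'
      have hv : Val (u :: v) := fun z hz => h' z (by
        rw [List.mem_cons, List.mem_append]
        exact Or.inr (Or.inr hz))
      by_cases heq : x :: l = u :: v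
      · obtain ⟨e1, e2⟩ := List.cons_eq_cons.1 heq
        subst e1 e2
        linarith
      · rcases dt_disj hlen.symm h hv heq with h6 | h6 <;> linarith
  rcases le_total l.length l'.length with h1 | h1
  · exact key h h' he h1
  · exact (key h' h he.symm h1).symm

end

end Pool.Agent.Work.MLC.Tw
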