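import Pool.Agent.Work.MLC.TwB6
import Pool.Agent.Work.MLC.TowM78

set_option autoImplicit false

/-! # Random towers of satellites: the theorem (helper6)

For every measure on the sequences of rationals in `(0, 1)`, the Mandelbrot set is locally connected
at the infinitely satellite renormalizable parameter with internal angles `x 0, x 1, ...` for almost
every `x` such that the sum of `1 / (q 0 ... q k * μ [x 0, ..., x k])` over the `k` with `q k ≥ 3`
is infinite. -/

namespace Pool.Agent.Work.MLC.Tw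

open Filter Topology Metric Set Complex MeasureTheory
open Pool.Agent.Work.MLC.Sat Pool.Agent.Work.MLC.Cnt Pool.Agent.Work.MLC.Cap
open scoped ENNReal

/-- `z ^ 2 + c` has a point of exact period `n` and multiplier `ρ` -/
def HasPoint (n : ℕ) (c ρ : ℂ) : Prop := ∃ b, 0 < n ∧
  Function.minimalPeriod (fun z : ℂ => z ^ 2 + c) b = n ∧
  deriv ((fun z : ℂ => z ^ 2 + c)^[n]) b = ρ

/-- `z ^ 2 + c` has an attracting point of exact period `n` -/
def AttPer (n : ℕ) : Set ℂ := {c | ∃ ρ, HasPoint n c ρ ∧ ‖ρ‖ < 1}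

lemma attPer_eq (n : ℕ) : AttPer n = Hyp.AA n := by
  ext c
  constructor
  · rintro ⟨ρ, ⟨b, h1, h2, h3⟩, h4⟩
    refine ⟨b, ⟨h1, h2⟩, ?_⟩
    have h5 := (Pool.Agent.Work.MLC.hasDerivAt_it c n b).deriv
    have h6 : deriv ((fun z : ℂ => z ^ 2 + c)^[n]) b = mult n c b := h5
    rw [← h6, h3]; exact h4
  · rintro ⟨b, ⟨h1, h2⟩, h3⟩
    exact ⟨_, ⟨b, h1, h2, rfl⟩, by
      have h5 := (Pool.Agent.Work.MLC.hasDerivAt_it c n b).deriv
      have h6 : deriv ((fun z : ℂ => z ^ 2 + c)^[n]) b = mult n c b := h5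
      rw [h6]; exact h3⟩

/-- exact period -/
lemma perN_of' {n : ℕ} {c z : ℂ} (hn : 0 < n) (h1 : it c n z = z)
    (h2 : ∀ d, 0 < d → d < n → it c d z ≠ z) : PerN n c z := by
  refine ⟨hn, ?_⟩
  have h3 : Function.IsPeriodicPt (f c) n z := h1
  have h4 := h3.minimalPeriod_le hn
  have h5 := h3.minimalPeriod_pos hn
  have h6 : it c (Function.minimalPeriod (f c) z) z = z := Function.iterate_minimalPeriod
  by_contra hne
  exact h2 _ h5 (lt_of_le_of_ne h4 hne) h6

/-- the root of a nonempty list -/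
noncomputable def rl : List ℚ → ℂ
  | [] => 0
  | x :: l => rt (dt x l)

lemma rl_cons (x : ℚ) (l : List ℚ) : rl (x :: l) = rt (dt x l) := rfl

/-- the cycle of the root -/
lemma rl_point {x : ℚ} {l : List ℚ} (h : Val (x :: l)) :
    ∃ b, 0 < per l ∧ Function.minimalPeriod (fun z : ℂ => z ^ 2 + rl (x :: l)) b = per l ∧
      deriv ((fun z : ℂ => z ^ 2 + rl (x :: l))^[per l]) b = exp (axisPt x) := by
  obtain ⟨⟨h0, h1⟩, h2⟩ := val_cons.1 h
  have hok := tow_ok h2
  have h0' : (0 : ℝ) < x := by exact_mod_cast h0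
  have h1' : (x : ℝ) < 1 := by exact_mod_cast h1
  have hD : axisPt x ∈ Pri.D0 (tow l).m := by
    have := T60.axis_mem_D0 (ok_pos hok) h0' h1'
    have e : axisPt x = 2 * Real.pi * (x : ℝ) * I := by unfold axisPt; push_cast; ring
    rw [e]; exact this
  have h3 := hok.wide.sec _ hD
  have h4 := hok.ex _ hD
  have h5 : rl (x :: l) = ((tow l).σ (axisPt x)).1 := by
    show (WS.dat (tow l) x).c (WS.dat (tow l) x).a = _
    rw [WS.dat_c hok h0 h1, WS.dat_a hok h0 h1]
    rfl
  have h6 : PerN (per l) (rl (x :: l)) ((tow l).σ (axisPt x)).2 := by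
    rw [← tow_m h2, h5]
    exact perN_of' (ok_pos hok) h3.1 h4
  refine ⟨((tow l).σ (axisPt x)).2, h6.1, h6.2, ?_⟩
  have h7 := (Pool.Agent.Work.MLC.hasDerivAt_it (rl (x :: l)) (per l) ((tow l).σ (axisPt x)).2).deriv
  have h8 : deriv ((fun z : ℂ => z ^ 2 + rl (x :: l))^[per l]) ((tow l).σ (axisPt x)).2 =
      mult (per l) (rl (x :: l)) ((tow l).σ (axisPt x)).2 := h7
  rw [h8, h5, ← tow_m h2]
  exact h3.2

lemma rl_isRoot {x : ℚ} {l : List ℚ} (h : Val (x :: l)) : IsRoot (per l) x.den (rl (x :: l)) := by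
  obtain ⟨⟨h0, h1⟩, h2⟩ := val_cons.1 h
  obtain ⟨b, h3, h4, h5⟩ := rl_point h
  have hnum : 0 < x.num := Rat.num_pos.2 h0
  obtain ⟨p, hp⟩ := Int.eq_ofNat_of_zero_le hnum.le
  have hx : x = (p : ℚ) / x.den := by
    conv_lhs => rw [← Rat.num_div_den x, hp]
    simp
  have hpq : p < x.den := by
    have h6 : (0 : ℚ) < x.den := by exact_mod_cast x.pos
    rw [hx, div_lt_one (by simpa using x.pos)] at h1
    exact_mod_cast h1
  refine ⟨p, b, h3, by omega, hpq, ?_, h4, ?_⟩
  · have := x.reduced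
    rwa [hp, Int.natAbs_natCast] at this
  · rw [h5, axis_pq hx]

/-- the limb of the root -/
lemma LimS_rl {x : ℚ} {l : List ℚ} (h : Val (x :: l)) :
    LimS (rl (x :: l)) = insert (rt (dt x l)) (Lm (dt x l)) := limb_eq (dt_par h) (dt_cir h)

/-- nested limbs -/
lemma LimS_nest {x y : ℚ} {l : List ℚ} (h : Val (y :: x :: l)) :
    LimS (rl (y :: x :: l)) ⊆ Lm (dt x l) := by
  have h2 := (val_cons.1 h).2
  rw [LimS_rl h]
  exact limb_sub (dt_par h2) (dt_cir h2) (dt_par h) (dt_cir h) (rt_nest h)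

/-- both roots are in the closure of the component -/
lemma rl_closure {x y : ℚ} {l : List ℚ} (h : Val (y :: x :: l)) :
    rl (x :: l) ∈ closure (Hy (tow (x :: l))) ∧ rl (y :: x :: l) ∈ closure (Hy (tow (x :: l))) := by
  have h2 := (val_cons.1 h).2
  have h3 := val_cons.1 h2
  obtain ⟨hy0, hy1⟩ := (val_cons.1 h).1
  refine ⟨ch_closure (tow_ok h3.2) h3.1.1 h3.1.2 (tow_ch h2), ?_⟩
  have h4 := axis_closure (tow_ok h2) (y := (y : ℝ)) (by exact_mod_cast hy0) (by exact_mod_cast hy1)
  have h5 : rl (y :: x :: l) = (tow (x :: l)).c (2 * Real.pi * (y : ℝ) * I) := by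
    show (WS.dat (tow (x :: l)) y).c (WS.dat (tow (x :: l)) y).a = _
    rw [WS.dat_c (tow_ok h2) hy0 hy1, WS.dat_a (tow_ok h2) hy0 hy1]
    congr 1
    unfold axisPt; push_cast; ring
  rw [h5]
  exact h4

open Pool.Agent.Work.MLC.Tow in
/-- **Theorem M**: for every measure on the sequences of internal angles, the Mandelbrot set is
locally connected at almost every infinitely satellite renormalizable parameter with infinite sum
of `1 / (q 0 ... q k * μ [x 0, ..., x k])` -/
theorem tower_all {C : ℝ} (hC : C_limbsum C) (μ : Measure (ℕ → ℚ)) :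
    ∀ᵐ x ∂μ, (∀ k, 0 < x k ∧ x k < 1) →
      ∑' k, (if 3 ≤ (x k).den then
        1 / (((∏ i ∈ Finset.range (k + 1), (x i).den : ℕ) : ℝ≥0∞) *
          μ {y | ∀ i < k + 1, y i = x i}) else 0) = ⊤ →
      ∃ r : ℕ → ℂ,
        (∀ k, HasPoint (∏ i ∈ Finset.range k, (x i).den) (r k)
          (exp (2 * Real.pi * (x k : ℝ) * I))) ∧
        (∀ k, ∃ c ∈ AttPer (∏ i ∈ Finset.range (k + 1), (x i).den),
          r k ∈ closure (connectedComponentIn
            (AttPer (∏ i ∈ Finset.range (k + 1), (x i).den)) c) ∧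
          r (k + 1) ∈ closure (connectedComponentIn
            (AttPer (∏ i ∈ Finset.range (k + 1), (x i).den)) c)) ∧
        Tendsto (fun k => diam (LimS (r k))) atTop (𝓝 0) ∧
        ∃ c, (⋂ k, LimS (r k)) = {c} ∧ LCat MM c := by
  have key := tower_cyl hC μ rl
    (fun p y h _ => by
      have h1 := rl_isRoot (x := y) (l := p) h
      have e : per p = dens p := rfl
      rw [← e]; exact h1)
    (fun p p' y y' h h' he => by
      have := dt_inj (x := y) (l := p) (x' := y') (l' := p') h h' he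
      exact List.cons_eq_cons.1 this)
  filter_upwards [key] with x hx hx01 htop
  have hinf := hx hx01 htop
  have hval : ∀ k, Val (pre x k) := by
    intro k y hy
    obtain ⟨i, -, rfl⟩ := mem_pre hy
    exact hx01 i
  have hper : ∀ k, per (pre x k) = ∏ i ∈ Finset.range k, (x i).den := fun k => dens_pre x k
  set r : ℕ → ℂ := fun k => rl (x k :: pre x k) with hr
  have hval' : ∀ k, Val (x k :: pre x k) := fun k => hval (k + 1)
  have hval'' : ∀ k, Val (x (k + 1) :: x k :: pre x k) := fun k => hval (k + 2)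
  have hcpt : ∀ k, IsCompact (LimS (r k)) := fun k => by
    rw [hr]
    simp only
    rw [LimS_rl (hval' k)]
    exact isCompact_limb (dt_par (hval' k)) (dt_cir (hval' k))
  have hnest : ∀ k, LimS (r (k + 1)) ⊆ Lm (dt (x k) (pre x k)) := fun k => LimS_nest (hval'' k)
  have hLm : ∀ k, Lm (dt (x k) (pre x k)) ⊆ LimS (r k) := fun k => by
    rw [hr]
    simp only
    rw [LimS_rl (hval' k)]
    exact subset_insert _ _
  have hanti : Antitone fun k => LimS (r k) :=
    antitone_nat_of_succ_le fun k => (hnest k).trans (hLm k)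
  have hdiam : Tendsto (fun k => diam (LimS (r k))) atTop (𝓝 0) := by
    rw [Metric.tendsto_atTop]
    intro ε hε
    obtain ⟨k, -, hk⟩ := (hinf ε hε).nonempty
    refine ⟨k, fun n hn => ?_⟩
    rw [Real.dist_eq, sub_zero, abs_of_nonneg diam_nonneg]
    exact (diam_mono (hanti hn) (hcpt k).isBounded).trans_lt hk
  refine ⟨r, fun k => ?_, fun k => ?_, hdiam, ?_⟩
  · obtain ⟨b, h1, h2, h3⟩ := rl_point (hval' k)
    rw [hper] at h1 h2 h3
    refine ⟨b, h1, h2, h3.trans ?_⟩
    congr 1
    unfold axisPt; push_cast; ring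
  · have h1 := tow_ok (hval' k)
    have hm : (tow (x k :: pre x k)).m = ∏ i ∈ Finset.range (k + 1), (x i).den := by
      rw [tow_m (hval' k)]
      exact hper (k + 1)
    rw [← hm, attPer_eq]
    exact ⟨_, left_AA h1 base_mem, (rl_closure (hval'' k)).1, (rl_closure (hval'' k)).2⟩
  · have hne : (⋂ k, LimS (r k)).Nonempty :=
      IsCompact.nonempty_iInter_of_sequence_nonempty_isCompact_isClosed (fun k => LimS (r k))
        (fun k => hanti (Nat.le_succ k))
        (fun k => by
          rw [hr]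
          simp only
          rw [LimS_rl (hval' k)]
          exact insert_nonempty _ _)
        (hcpt 0) (fun k => (hcpt k).isClosed)
    obtain ⟨c, hc⟩ := hne
    have hck : ∀ k, c ∈ LimS (r k) := mem_iInter.1 hc
    refine ⟨c, ?_, ?_⟩
    · refine (subset_antisymm (fun c' hc' => ?_) (singleton_subset_iff.2 hc))
      have hck' : ∀ k, c' ∈ LimS (r k) := mem_iInter.1 hc'
      have h1 : dist c' c ≤ 0 := ge_of_tendsto' hdiam fun k =>
        dist_le_diam_of_mem (hcpt k).isBounded (hck' k) (hck k)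
      exact dist_le_zero.1 h1
    · intro U hU
      obtain ⟨ε, hε, hεU⟩ := Metric.mem_nhds_iff.1 hU
      obtain ⟨k, hk⟩ := ((Metric.tendsto_atTop.1 hdiam ε hε).imp fun k h => h k le_rfl)
      rw [Real.dist_eq, sub_zero, abs_of_nonneg diam_nonneg] at hk
      have h3 : c ∈ Lm (dt (x k) (pre x k)) := hnest k (hck (k + 1))
      refine ⟨LimS (r k), fun z hz => ⟨hz.1, hεU ?_⟩, hcpt k, ⟨⟨c, hck k⟩, ?_⟩, ?_⟩
      · rw [mem_ball]
        exact (dist_le_diam_of_mem (hcpt k).isBounded hz (hck k)).trans_lt hk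
      · rw [hr]
        simp only
        rw [LimS_rl (hval' k)]
        exact isPreconnected_limb (dt_par (hval' k)) (dt_cir (hval' k))
      · rw [mem_nhdsWithin_iff_eventually]
        filter_upwards [lm_open (dt_par (hval' k)) (dt_cir (hval' k)) h3] with w hw hwM
        exact hLm k (hw hwM)

end Pool.Agent.Work.MLC.Tw
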