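import Pool.Agent.Work.MLC.Dyn51

/-!
# Rotation types at a repelling point (helper51)

`TypeL c Λ L q N`: there is a curve `g` in the logarithmic coordinate of the linearizing plane,
with `G c (Λ (exp (g s))) > 0` and `g (s + 1) = g s + (q L + 2 π i N)`.
-/

set_option autoImplicit false

open Complex Filter Topology Set Metric

namespace Pool.Agent.Work.MLC.Tr

/-- rotation type `(q, N)` -/
def TypeL (c : ℂ) (Λ : ℂ → ℂ) (L : ℂ) (q : ℕ) (N : ℤ) : Prop :=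
  ∃ g : ℝ → ℂ, Continuous g ∧ (∀ s, 0 < G c (Λ (exp (g s)))) ∧
    ∀ s, g (s + 1) = g s + (q * L + N * (2 * Real.pi * I))

variable {c b ρ : ℂ} {n : ℕ} {Λ : ℂ → ℂ}

/-- two linearizers differ by a scaling -/
theorem Lin.unique {Λ' : ℂ → ℂ} (h : Lin c b ρ n Λ) (h' : Lin c b ρ n Λ') :
    ∃ κ : ℂ, κ ≠ 0 ∧ ∀ x, Λ' x = Λ (κ * x) := by
  obtain ⟨g, δ, r, hδ, hr, hgd, hg1, hg2, hg3⟩ := h.exists_local_inverse
  have hρ0 := h.rho_ne
  have hnb : ∀ᶠ x in 𝓝 (0 : ℂ), Λ' x ∈ ball b δ := by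
    apply h'.diff.continuous.continuousAt.eventually_mem
    rw [h'.zero]; exact ball_mem_nhds b hδ
  obtain ⟨r', hr', hball⟩ := Metric.eventually_nhds_iff_ball.1 hnb
  set H : ℂ → ℂ := fun x => g (Λ' x) with hH
  have hstep : ∀ x ∈ ball (0 : ℂ) r', H x = ρ * H (ρ⁻¹ * x) := by
    intro x hx
    have hx2 : ρ⁻¹ * x ∈ ball (0 : ℂ) r' := by
      rw [mem_ball_zero_iff] at hx ⊢
      rw [norm_mul, norm_inv]
      calc ‖ρ‖⁻¹ * ‖x‖ ≤ 1 * ‖x‖ := by
            gcongr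
            exact inv_le_one_of_one_le₀ h.rho.le
        _ < r' := by rw [one_mul]; exact hx
    have h1 : it c n (Λ' (ρ⁻¹ * x)) = Λ' x := by
      rw [← h'.eqn, ← mul_assoc, mul_inv_cancel₀ hρ0, one_mul]
    have h2 := hg2 (Λ' (ρ⁻¹ * x)) (hball _ hx2) (by rw [h1]; exact hball x hx)
    rw [h1] at h2
    exact h2
  have hpow : ∀ k : ℕ, ∀ x ∈ ball (0 : ℂ) r', H x = ρ ^ k * H (ρ⁻¹ ^ k * x) := by
    intro k
    induction k with
    | zero => intro x _; simp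
    | succ k ih =>
      intro x hx
      have hx2 : ρ⁻¹ * x ∈ ball (0 : ℂ) r' := by
        rw [mem_ball_zero_iff] at hx ⊢
        rw [norm_mul, norm_inv]
        calc ‖ρ‖⁻¹ * ‖x‖ ≤ 1 * ‖x‖ := by
              gcongr
              exact inv_le_one_of_one_le₀ h.rho.le
          _ < r' := by rw [one_mul]; exact hx
      rw [hstep x hx, ih _ hx2, pow_succ, pow_succ]
      ring_nf
  have hH0 : H 0 = 0 := by
    have h1 := (hg3 0 (mem_ball_self hr)).2
    rw [h.zero] at h1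
    simp only [hH, h'.zero, h1]
  have hHd : HasDerivAt H (deriv H 0) 0 := by
    have h1 : DifferentiableAt ℂ g (Λ' 0) := by
      rw [h'.zero]
      exact hgd.differentiableAt (ball_mem_nhds b hδ)
    exact (h1.comp 0 (h'.diff 0)).hasDerivAt
  set κ := deriv H 0 with hκ
  have hlin : ∀ x ∈ ball (0 : ℂ) r', H x = κ * x := by
    intro x hx
    rw [← sub_eq_zero, ← norm_eq_zero]
    apply le_antisymm _ (norm_nonneg _)
    apply le_of_forall_pos_le_add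
    intro ε hε
    rw [zero_add]
    have h1 := hHd.isLittleO
    simp only [hH0, sub_zero, smul_eq_mul] at h1
    have hε2 : 0 < ε / (‖x‖ + 1) := by positivity
    have h2 := h1.bound hε2
    have hx0 : Tendsto (fun k : ℕ => ρ⁻¹ ^ k * x) atTop (𝓝 0) := by
      have h1 : Tendsto (fun k : ℕ => ρ⁻¹ ^ k) atTop (𝓝 0) := by
        apply tendsto_pow_atTop_nhds_zero_of_norm_lt_one
        rw [norm_inv]
        exact inv_lt_one_of_one_lt₀ h.rho
      simpa using h1.mul_const x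
    obtain ⟨k, hk⟩ := (hx0.eventually h2).exists
    have h3 : H x - κ * x = ρ ^ k * (H (ρ⁻¹ ^ k * x) - ρ⁻¹ ^ k * x * κ) := by
      rw [hpow k x hx, mul_sub]
      congr 1
      rw [← mul_assoc, ← mul_assoc, ← mul_pow, mul_inv_cancel₀ hρ0, one_pow, one_mul, mul_comm]
    rw [h3, norm_mul, norm_pow]
    calc ‖ρ‖ ^ k * ‖H (ρ⁻¹ ^ k * x) - ρ⁻¹ ^ k * x * κ‖
        ≤ ‖ρ‖ ^ k * (ε / (‖x‖ + 1) * ‖ρ⁻¹ ^ k * x‖) := by gcongr
      _ = ε / (‖x‖ + 1) * ‖x‖ := by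
          have h4 : ‖ρ‖ ≠ 0 := norm_ne_zero_iff.2 hρ0
          rw [norm_mul, norm_pow, norm_inv]
          have h5 : ‖ρ‖ ^ k * (‖ρ‖⁻¹ ^ k) = 1 := by
            rw [← mul_pow, mul_inv_cancel₀ h4, one_pow]
          linear_combination (ε / (‖x‖ + 1) * ‖x‖) * h5
      _ ≤ ε := by
          rw [div_mul_eq_mul_div, div_le_iff₀ (by positivity)]
          nlinarith [norm_nonneg x]
  have hloc : ∀ x ∈ ball (0 : ℂ) r', Λ' x = Λ (κ * x) := by
    intro x hx
    rw [← hlin x hx]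
    exact (hg1 _ (hball x hx)).symm
  have hev : Λ' =ᶠ[𝓝 0] fun x => Λ (κ * x) := by
    filter_upwards [ball_mem_nhds (0 : ℂ) hr'] with x hx
    exact hloc x hx
  have hd2 : Differentiable ℂ fun x => Λ (κ * x) := h.diff.comp (by fun_prop)
  have heq : Λ' = fun x => Λ (κ * x) := by
    have h1 : AnalyticOnNhd ℂ Λ' univ := fun x _ => h'.diff.analyticAt x
    have h2 : AnalyticOnNhd ℂ (fun x => Λ (κ * x)) univ := fun x _ => hd2.analyticAt x
    exact h1.eq_of_eventuallyEq h2 hev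
  refine ⟨κ, ?_, fun x => by rw [heq]⟩
  intro h0
  apply h'.der
  rw [heq, h0]
  simp

theorem TypeL.indep {Λ' : ℂ → ℂ} (h : Lin c b ρ n Λ) (h' : Lin c b ρ n Λ') {L : ℂ} {q : ℕ}
    {N : ℤ} (hT : TypeL c Λ L q N) : TypeL c Λ' L q N := by
  obtain ⟨κ, hκ, hκ2⟩ := h'.unique h
  obtain ⟨g, hg, hpos, hper⟩ := hT
  refine ⟨fun s => g s + log κ, hg.add continuous_const, ?_, ?_⟩
  · intro s
    have h1 := hpos s
    rw [hκ2] at h1
    rw [exp_add, exp_log hκ, mul_comm]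
    exact h1
  · intro s
    simp only [hper s]; ring

/-- the type of a tract -/
theorem Tract.typeL {ψ F : ℂ → ℂ} {q : ℕ} {a N : ℤ} (h : Lin c b ρ n Λ) (hc : G c 0 = 0)
    (T : Tract c b ρ n Λ ψ q a) {L : ℂ}
    (hF : DifferentiableOn ℂ F {z : ℂ | 0 < z.re})
    (hFe : ∀ z : ℂ, 0 < z.re → exp (F z) = ψ z)
    (hFN : ∀ z : ℂ, 0 < z.re → F (2 ^ (n * q) * z + 2 * Real.pi * I * a)
        = F z + (q * L + N * (2 * Real.pi * I))) : TypeL c Λ L q N := by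
  have hm : 0 < n * q := Nat.mul_pos h.hn T.hq
  have hre : ∀ s : ℝ, 0 < (cen (n * q) a + ((2 ^ ((n * q : ℕ) * s) : ℝ) : ℂ)).re := by
    intro s
    rw [add_re, cen_re, zero_add, ofReal_re]
    positivity
  refine ⟨fun s => F (cen (n * q) a + ((2 ^ ((n * q : ℕ) * s) : ℝ) : ℂ)), ?_, ?_, ?_⟩
  · have h1 : Continuous fun s : ℝ => (2 : ℝ) ^ (((n * q : ℕ) : ℝ) * s) :=
      (Real.continuous_const_rpow (by norm_num)).comp (by fun_prop)
    exact hF.continuousOn.comp_continuous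
      (continuous_const.add (continuous_ofReal.comp h1)) hre
  · intro s
    rw [hFe _ (hre s), T.lift _ (hre s), G_eta (by rw [hc]; exact hre s)]
    exact hre s
  · intro s
    have h3 := cen_eq hm a
    have h4 : ((2 ^ (((n * q : ℕ) : ℝ) * (s + 1)) : ℝ) : ℂ)
        = 2 ^ (n * q) * ((2 ^ (((n * q : ℕ) : ℝ) * s) : ℝ) : ℂ) := by
      rw [mul_add, mul_one, Real.rpow_add (by norm_num), Real.rpow_natCast]
      push_cast
      ring
    have h5 := hFN _ (hre s)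
    have h6 : cen (n * q) a + ((2 ^ (((n * q : ℕ) : ℝ) * (s + 1)) : ℝ) : ℂ)
        = 2 ^ (n * q) * (cen (n * q) a + ((2 ^ (((n * q : ℕ) : ℝ) * s) : ℝ) : ℂ))
          + 2 * Real.pi * I * a := by
      rw [h4]
      linear_combination (-1 : ℂ) * h3
    simp only [h6]
    exact h5

/-- **(R1)** existence of a type together with PLY (`c` in the Mandelbrot set). -/
theorem exists_type (h : Lin c b ρ n Λ) (hc : G c 0 = 0) {L : ℂ} (hL : exp L = ρ) :
    ∃ (q : ℕ) (N : ℤ), 0 < q ∧ TypeL c Λ L q N ∧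
      ‖q * L + N * (2 * Real.pi * I)‖ ^ 2 ≤ 2 * (n * q) * Real.log 2 * L.re := by
  obtain ⟨x0, hx0⟩ := exists_pos h
  obtain ⟨ψ, q, a, T, -⟩ := exists_tract h hc hx0
  obtain ⟨F, N, hF, hFe, hFN, hply⟩ := T.ply h hL
  exact ⟨q, N, T.hq, T.typeL h hc hF hFe hFN, hply⟩

/-! **(R2)** (helper25, Cross/RotUniq file): for `h : Lin c b ρ n Λ`, `hc : G c 0 = 0`,
`hL : exp L = ρ`, `0 < q`, `0 < q'`, `TypeL c Λ L q N → TypeL c Λ L q' N' → N * q' = N' * q`. -/

end Pool.Agent.Work.MLC.Tr
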