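import Pool.Agent.Work.MLC.Shp0
import Pool.Agent.Work.MLC.Cap26
import Pool.Agent.Work.MLC.CapW6
import Pool.Agent.Work.MLC.CntG78

set_option autoImplicit false

/-! # Theorem U (MLC quasi-everywhere, no combinatorial hypothesis): interface (author: helper6)

`Uni_thm`: the set of ALL angles in `[0, 1)` at which `Psi` has no limit or `M` is not locally
connected at the limit is a null set for the gauge `1 / log (1 / t)`. No Yoccoz theorem, no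
hypothesis on the angle. Blueprint: note of helper6 (Dec 3, 04:20).

Definitions, and the statements of the modules as propositions. -/

namespace Pool.Agent.Work.MLC.Uni

open Filter Topology Metric Set Complex MeasureTheory
open Pool.Agent.Work.MLC.Sat Pool.Agent.Work.MLC.Cnt
open Pool.Agent.Work.MLC.Shp (Wake lg RayE Hd)
open scoped ENNReal

/-! ## Part I: circle combinatorics -/

/-- exactly one of `θ`, `t` is in some wake of period at most `n` -/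
def Sepd (n : ℕ) (θ t : ℝ) : Prop := ∃ (m : ℕ) (α β : ℝ), m ≤ n ∧ Wake m α β ∧
  ¬ ((α < θ ∧ θ < β) ↔ (α < t ∧ t < β))

/-- U1: every periodic angle is an end of a wake -/
def U_ends : Prop := ∀ (m : ℕ) (τ : ℝ), 2 ≤ m → 0 < τ → τ < 1 →
  (∃ a : ℤ, (2 ^ m - 1) * τ = a) → (∀ d, 0 < d → d < m → ¬ ∃ a : ℤ, (2 ^ d - 1) * τ = a) →
  ∃ α β : ℝ, Wake m α β ∧ (τ = α ∨ τ = β)

/-- U2: two wakes are equal, or disjoint or nested without common ends -/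
def U_lam : Prop := ∀ (m m' : ℕ) (α β α' β' : ℝ), Wake m α β → Wake m' α' β' →
  (m = m' ∧ α = α' ∧ β = β') ∨ β < α' ∨ β' < α ∨ (α < α' ∧ β' < β) ∨ (α' < α ∧ β < β')

/-- U3: angles which are not separated have the same kneading symbols -/
def U_par : Prop := ∀ (n : ℕ) (θ t : ℝ), Irrational θ → Irrational t → 0 < θ → θ < 1 → 0 < t →
  t < 1 → ¬ Sepd n θ t → ∀ j < n, wL θ j = wL t j

/-- U4: the logarithmic no wandering triangle lemma for `α < θ < β`: if the symbols of `θ` are those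
of `α` up to the time `m - 1` and have no tail of period `p` from `i` with `i + p ≤ B`, then one side
of the triangle is short -/
def U_nwt : Prop := ∀ (m B : ℕ) (α β θ : ℝ), Wake m α β → α < θ → θ < β → Irrational θ →
  (∀ j, j + 1 < m → wL θ j = wL α j) → 2 * B < m → B + 1 < m →
  (∀ i p : ℕ, 0 < p → i + p ≤ B → ∃ k, i ≤ k ∧ k + p + 1 < m ∧ wL θ (k + p) ≠ wL θ k) →
  min (θ - α) (β - θ) * (β - α) ≤ (1 / 2) ^ (B + 2)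

/-- U5: windows without a tail period, for a sequence which is not eventually periodic -/
def U_win : Prop := ∀ w : ℕ → ℤ, (¬ ∃ l p : ℕ, 0 < p ∧ ∀ k, l ≤ k → w (k + p) = w k) →
  ∀ n₀ : ℕ, ∃ n, n₀ ≤ n ∧ ∀ N, n ≤ N → N ≤ 4 * n → ∀ l p : ℕ, 0 < p → 16 * (l + p) ≤ N →
    ∃ k, l ≤ k ∧ k + p < N ∧ w (k + p) ≠ w k

/-- the rotation number for some component is irrational -/
def IrrRot (θ : ℝ) : Prop := ∃ W : WS, W.Ok ∧ 0 < W.nu θ ∧ W.nu θ < 1 ∧ Irrational (W.nu θ)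

/-- U6: an irrational angle with an eventually periodic kneading sequence -/
def U_evp : Prop := ∀ θ : ℝ, Irrational θ →
  (∃ l p : ℕ, 0 < p ∧ ∀ k, l ≤ k → wL θ (k + p) = wL θ k) → IrrRot θ

/-- U7: the component of a wake, its roots -/
def U_ws : Prop := ∀ (m : ℕ) (α β : ℝ), Wake m α β → ∃ W : WS, W.Ok ∧ W.m = m ∧
  (∀ θ, (0 < W.nu θ ∧ W.nu θ < 1) ↔ (α < θ ∧ θ < β)) ∧
  (2 ≤ m → (W.dat (1 / 2)).tm = α + (β - α) / (2 ^ m + 1) ∧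
    (W.dat (1 / 2)).tp = β - (β - α) / (2 ^ m + 1)) ∧
  ∀ x : ℚ, 0 < x → x < 1 → Wake (m * x.den) (W.dat x).tm (W.dat x).tp

/-- a piece with one arc, level `n` -/
structure One (n : ℕ) (W : WS) : Prop where
  ok : W.Ok
  lt : 2 * n < W.m
  le : W.m ≤ 4 * n
  len : (W.dat (1 / 2)).tp - (W.dat (1 / 2)).tm ≤ (1 / 2) ^ (n / 20)

/-- a piece with two arcs, level `n` -/
structure Two (n : ℕ) (W W' : WS) : Prop where
  ok : W.Ok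
  ok' : W'.Ok
  lt : 2 * n < W.m
  le : W.m ≤ 4 * n
  lt' : n ≤ 16 * W'.m
  le' : W'.m < W.m
  left : (W.dat (1 / 2)).tm < (W'.dat (1 / 2)).tm
  right : (W'.dat (1 / 2)).tp < (W.dat (1 / 2)).tp
  len : (W'.dat (1 / 2)).tm - (W.dat (1 / 2)).tm ≤ (1 / 2) ^ (n / 20)
  len' : (W.dat (1 / 2)).tp - (W'.dat (1 / 2)).tp ≤ (1 / 2) ^ (n / 20)

/-- `θ` is in only finitely many arcs with denominators at least `3` -/
def FewLimbs (θ : ℝ) : Prop := ∃ M : ℕ, ∀ (W : WS) (x : ℚ), W.Ok → M ≤ W.m → 0 < x → x < 1 →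
  3 ≤ x.den → ¬ ((W.dat x).tm < θ ∧ θ < (W.dat x).tp)

/-- U8: the combinatorial theorem -/
def U_comb : Prop := ∀ θ : ℝ, 0 < θ → θ < 1 → Irrational θ → ¬ IrrRot θ → FewLimbs θ →
  ∀ n₀ : ℕ, ∃ n, n₀ ≤ n ∧ ∃ W : WS, 0 < (W.dat (1 / 2)).tm ∧ (W.dat (1 / 2)).tp < 1 ∧
    (W.dat (1 / 2)).tm < θ ∧ θ < (W.dat (1 / 2)).tp ∧
    (One n W ∨ ∃ W' : WS, Two n W W' ∧ ¬ ((W'.dat (1 / 2)).tm ≤ θ ∧ θ ≤ (W'.dat (1 / 2)).tp))

/-! ## Part II: irrational rotation numbers -/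

/-- IR: the conclusion holds at irrational points of the boundaries of components -/
def U_irr : Prop := ∀ θ : ℝ, IrrRot θ → ∃ c₀ ∈ MM,
  Tendsto Psi (𝓝[{z | 1 < ‖z‖}] (Complex.exp (2 * Real.pi * θ * Complex.I))) (𝓝 c₀) ∧ LCat MM c₀

/-! ## Part III: one piece -/

/-- the part of the component near the axis, away from the root -/
noncomputable def HK (W : WS) : Set ℂ :=
  W.c '' {L | -1 / (10 ^ 6 * W.m) < L.re ∧ L.re < 0 ∧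
    2 * Real.pi / 200 < L.im ∧ L.im < 2 * Real.pi * (1 - 1 / 200)}

/-- GA: the axis between the roots at `1 / 100` and `99 / 100` is covered by few small gates
(compare `C_cutgate`) -/
def U_gate : Prop := ∃ C : ℝ, 0 < C ∧ ∀ W : WS, W.Ok → ∀ x₁ x₂ : ℚ, 1 / 150 < x₁ → x₁ < 1 / 100 →
  99 / 100 < x₂ → x₂ < 1 - 1 / 150 → ∃ (F : Finset ℕ) (P : ℕ → Set ℂ),
    (∀ i ∈ F, Bornology.IsBounded (P i)) ∧
    (∀ y : ℝ, (x₁ : ℝ) ≤ y → y ≤ x₂ → ∃ i ∈ F, W.c (2 * Real.pi * y * I) ∈ P i) ∧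
    (∃ i ∈ F, W.Gt x₁ (6 / (2000 * W.m * (100 : ℝ) ^ 2)) ⊆ P i) ∧
    (∃ i ∈ F, W.Gt x₂ (6 / (2000 * W.m * (100 : ℝ) ^ 2)) ⊆ P i) ∧
    ENNReal.ofReal ((∑ i ∈ F, diam (P i)) ^ 2) ≤ ENNReal.ofReal (C * W.m) * volume (HK W)

/-- T2': the enclosure of a piece with two arcs, with two heights (compare `Cap.C_top2`) -/
def U_top : Prop := ∀ W W' : WS, W.Ok → W'.Ok → ∀ (V : Dat) (x x₁ x₂ x₁' x₂' : ℚ),
  V.Par → V.Cir → 0 < x₁ → x₁ < x → x < x₂ → x₂ < 1 → 0 < x₁' → x₁' < x₂' → x₂' < 1 →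
  Lm V ⊆ Lm (W.dat x) → (∀ y : ℝ, 0 < y → y < 1 → W'.c (2 * Real.pi * y * I) ∈ Lm V) →
  (W.dat x).tm ≤ V.tm → V.tm ≤ (W'.dat x₁').tm → (W'.dat x₂').tp ≤ V.tp → V.tp ≤ (W.dat x).tp →
  IsPreconnected (Cap.KP (W.dat x) V) →
  ∀ (g₁ g₂ g₁' g₂' h₁ h₂ : ℝ), 0 < g₁ → g₁ ≤ h₁ → 0 < g₂ → g₂ ≤ h₂ → 0 < g₁' → g₁' ≤ h₁ →
  0 < g₂' → g₂' ≤ h₂ →
  ∀ (κ : Type) (F : Finset κ) (P : κ → Set ℂ),
  (∀ i ∈ F, Bornology.IsBounded (P i)) →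
  (∀ y : ℝ, (x₁ : ℝ) ≤ y → y ≤ x₂ → ∃ i ∈ F, W.c (2 * Real.pi * y * I) ∈ P i) →
  (∀ u : ℝ, 0 < u → u ≤ g₁ → ∃ i ∈ F, cOf ((u : ℂ) + 2 * Real.pi * (W.dat x₁).tm * I) ∈ P i) →
  (∀ u : ℝ, 0 < u → u ≤ g₂ → ∃ i ∈ F, cOf ((u : ℂ) + 2 * Real.pi * (W.dat x₂).tp * I) ∈ P i) →
  (∀ y : ℝ, (x₁' : ℝ) ≤ y → y ≤ x₂' → ∃ i ∈ F, W'.c (2 * Real.pi * y * I) ∈ P i) →
  (∀ u : ℝ, 0 < u → u ≤ g₁' → ∃ i ∈ F, cOf ((u : ℂ) + 2 * Real.pi * (W'.dat x₁').tm * I) ∈ P i) →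
  (∀ u : ℝ, 0 < u → u ≤ g₂' → ∃ i ∈ F, cOf ((u : ℂ) + 2 * Real.pi * (W'.dat x₂').tp * I) ∈ P i) →
  diam (Cap.KP (W.dat x) V) ≤
    diam (RaySeg (W.dat x₁).tm g₁ h₁) + diam (RaySeg (W.dat x₂).tp g₂ h₂) +
    diam (RaySeg (W'.dat x₁').tm g₁' h₁) + diam (RaySeg (W'.dat x₂').tp g₂' h₂) +
    diam (RoofH h₁ (W.dat x₁).tm (W'.dat x₁').tm) + diam (RoofH h₂ (W'.dat x₂').tp (W.dat x₂).tp) +
    ∑ i ∈ F, diam (P i)

/-- CH: the child of the root at `1 / 2`; its plateaus near `0` and `1` are close to the ends of the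
wake (compare `Cap.C_child`) -/
def U_child : Prop := ∀ W : WS, W.Ok → ∃ W' : WS, W'.Ok ∧ W'.m = 2 * W.m ∧
  (∀ y : ℝ, 0 < y → y < 1 → W'.c (2 * Real.pi * y * I) ∈ Lm (W.dat (1 / 2))) ∧
  (∀ y : ℚ, 0 < y → y < 1 → (W.dat (1 / 2)).tm < (W'.dat y).tm ∧
    (W'.dat y).tp < (W.dat (1 / 2)).tp) ∧
  (W'.dat (1 / 2)).tm - (W.dat (1 / 2)).tm ≤ 1 / (2 ^ W'.m - 1) ∧
  (∀ y : ℚ, 0 < y → y ≤ 1 / 100 →
    (W'.dat y).tm - (W.dat (1 / 2)).tm ≤ 1 / (2 ^ (99 * W'.m) - 1)) ∧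
  (∀ y : ℚ, 99 / 100 ≤ y → y < 1 →
    (W.dat (1 / 2)).tp - (W'.dat y).tp ≤ 1 / (2 ^ (99 * W'.m) - 1))

/-- E1: one piece with one arc -/
def U_one : Prop := ∃ C : ℝ, 0 < C ∧ ∀ (n : ℕ) (W : WS), 4000 ≤ n → One n W →
  ENNReal.ofReal (diam (insert (rt (W.dat (1 / 2))) (Lm (W.dat (1 / 2)))) ^ 2) ≤
    ENNReal.ofReal (C * n) * (RayE (W.dat (1 / 2)).tm ((W.dat (1 / 2)).tp - (W.dat (1 / 2)).tm) +
      RayE (W.dat (1 / 2)).tp ((W.dat (1 / 2)).tp - (W.dat (1 / 2)).tm) + volume (Hd W (1 / 2)))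

/-- E2: one piece with two arcs; `W''` is the child of the inner root -/
def U_two : Prop := ∃ C : ℝ, 0 < C ∧ ∀ (n : ℕ) (W W' : WS), 4000 ≤ n → Two n W W' →
  ∃ W'' : WS, W''.Ok ∧ W''.m = 2 * W'.m ∧ (W'.dat (1 / 2)).tm < (W''.dat (1 / 2)).tm ∧
  (W''.dat (1 / 2)).tm - (W'.dat (1 / 2)).tm ≤ 1 / (2 ^ (2 * W'.m) - 1) ∧
  ENNReal.ofReal (diam (Cap.KP (W.dat (1 / 2)) (W'.dat (1 / 2))) ^ 2) ≤ ENNReal.ofReal (C * n) *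
    (RayE (W.dat (1 / 2)).tm ((W'.dat (1 / 2)).tm - (W.dat (1 / 2)).tm) +
      RayE (W'.dat (1 / 2)).tm ((W'.dat (1 / 2)).tm - (W.dat (1 / 2)).tm) +
      RayE (W'.dat (1 / 2)).tp ((W.dat (1 / 2)).tp - (W'.dat (1 / 2)).tp) +
      RayE (W.dat (1 / 2)).tp ((W.dat (1 / 2)).tp - (W'.dat (1 / 2)).tp) +
      volume (Hd W (1 / 2)) + volume (HK W''))

/-! ## Part IV: sums and the choice of the pieces -/

/-- HS: the sum of the areas `HK` over different components -/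
def U_area : Prop := ∃ C : ℝ, ∀ (ι : Type) (F : Finset ι) (W : ι → WS), (∀ i ∈ F, (W i).Ok) →
  (∀ i ∈ F, ∀ j ∈ F, WS.Same (W i) (W j) → i = j) →
  ∑ i ∈ F, volume (HK (W i)) ≤ ENNReal.ofReal C

/-- the angles of a piece with one arc -/
def A1 (W : WS) : Set ℝ := {θ | (W.dat (1 / 2)).tm < θ ∧ θ < (W.dat (1 / 2)).tp}

/-- the angles of a piece with two arcs -/
def A2 (W W' : WS) : Set ℝ :=
  {θ | θ ∈ A1 W ∧ ¬ ((W'.dat (1 / 2)).tm ≤ θ ∧ θ ≤ (W'.dat (1 / 2)).tp)}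

/-- S1: the sum over the pieces with one arc, at most three in each window `2 ^ k ≤ n < 2 ^ (k + 1)`
at every irrational angle -/
def U_sum1 : Prop := ∃ C : ℝ, ∀ (ι : Type) (F : Finset ι) (n : ι → ℕ) (W : ι → WS),
  (∀ i ∈ F, 4000 ≤ n i ∧ One (n i) (W i) ∧ 0 < ((W i).dat (1 / 2)).tm ∧
    ((W i).dat (1 / 2)).tp < 1) →
  (∀ (k : ℕ) (θ : ℝ), Irrational θ → ∀ T ⊆ F,
    (∀ i ∈ T, 2 ^ k ≤ n i ∧ n i < 2 ^ (k + 1) ∧ θ ∈ A1 (W i)) → T.card ≤ 3) →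
  ∑ i ∈ F, diam (insert (rt ((W i).dat (1 / 2))) (Lm ((W i).dat (1 / 2)))) ^ 2 / n i ≤ C

/-- S2: the sum over the pieces with two arcs -/
def U_sum2 : Prop := ∃ C : ℝ, ∀ (ι : Type) (F : Finset ι) (n : ι → ℕ) (W W' : ι → WS),
  (∀ i ∈ F, 4000 ≤ n i ∧ Two (n i) (W i) (W' i) ∧ 0 < ((W i).dat (1 / 2)).tm ∧
    ((W i).dat (1 / 2)).tp < 1) →
  (∀ (k : ℕ) (θ : ℝ), Irrational θ → ∀ T ⊆ F,
    (∀ i ∈ T, 2 ^ k ≤ n i ∧ n i < 2 ^ (k + 1) ∧ θ ∈ A2 (W i) (W' i)) → T.card ≤ 3) →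
  ∑ i ∈ F, diam (Cap.KP ((W i).dat (1 / 2)) ((W' i).dat (1 / 2))) ^ 2 / n i ≤ C

/-- N1: the null lemma for the pieces with one arc -/
def U_null1 : Prop := Cap.Null {θ | Irrational θ ∧ ¬ Cap.Good Psi θ ∧ ∀ n₀ : ℕ, ∃ n, n₀ ≤ n ∧
  ∃ W : WS, One n W ∧ 0 < (W.dat (1 / 2)).tm ∧ (W.dat (1 / 2)).tp < 1 ∧ θ ∈ A1 W}

/-- N2: the null lemma for the pieces with two arcs -/
def U_null2 : Prop := Cap.Null {θ | Irrational θ ∧ ¬ Cap.Good Psi θ ∧ ∀ n₀ : ℕ, ∃ n, n₀ ≤ n ∧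
  ∃ W W' : WS, Two n W W' ∧ 0 < (W.dat (1 / 2)).tm ∧ (W.dat (1 / 2)).tp < 1 ∧ θ ∈ A2 W W'}

/-- **Theorem U** -/
def Uni_thm : Prop := Cap.Null {θ | θ ∈ Ico (0 : ℝ) 1 ∧ ¬ Cap.Good Psi θ}

end Pool.Agent.Work.MLC.Uni
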