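import Pool.Agent.Work.MLC.Uni0
import Pool.Agent.Work.MLC.CapH78

set_option autoImplicit false

/-! # Theorem U, module HS: the areas `HK` of different components (helper53) -/

namespace Pool.Agent.Work.MLC.Uni

open Filter Topology Metric Set Complex MeasureTheory
open Pool.Agent.Work.MLC.Sat Pool.Agent.Work.MLC.Cnt
open scoped ENNReal

/-- the rectangle of `HK` -/
def RK (m : ℕ) : Set ℂ := {L | -1 / (10 ^ 6 * (m : ℝ)) < L.re ∧ L.re < 0 ∧
    2 * Real.pi / 200 < L.im ∧ L.im < 2 * Real.pi * (1 - 1 / 200)}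

lemma RK_strip {m : ℕ} {L : ℂ} (h : L ∈ RK m) : 0 < L.im ∧ L.im < 2 * Real.pi ∧ L.re < 0 := by
  obtain ⟨_, h2, h3, h4⟩ := h
  have hpi := Real.pi_gt_three
  refine ⟨?_, ?_, h2⟩
  · have : (0 : ℝ) < 2 * Real.pi / 200 := by positivity
    linarith
  · nlinarith

lemma RK_D0 (W : WS) : RK W.m ⊆ Pri.D0 W.m := fun L hL => by
  obtain ⟨h0, h1, h2⟩ := RK_strip hL
  exact ⟨h0, h1, h2.trans_le (by unfold Pri.hgt; positivity)⟩

lemma isOpen_RK (m : ℕ) : IsOpen (RK m) := by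
  have h1 : IsOpen {L : ℂ | -1 / (10 ^ 6 * (m : ℝ)) < L.re} := isOpen_lt continuous_const continuous_re
  have h2 : IsOpen {L : ℂ | L.re < 0} := isOpen_lt continuous_re continuous_const
  have h3 : IsOpen {L : ℂ | 2 * Real.pi / 200 < L.im} := isOpen_lt continuous_const continuous_im
  have h4 : IsOpen {L : ℂ | L.im < 2 * Real.pi * (1 - 1 / 200)} := isOpen_lt continuous_im continuous_const
  exact h1.inter (h2.inter (h3.inter h4))

lemma meas_HK {W : WS} (hW : W.Ok) : MeasurableSet (HK W) := by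
  have hc : ContinuousOn W.c (RK W.m) :=
    (continuous_fst.comp_continuousOn hW.wide.cont).mono (RK_D0 W)
  refine (isOpen_RK W.m).measurableSet.image_of_continuousOn_injOn hc ?_
  intro L hL L' hL' h
  obtain ⟨s1, s2, s3⟩ := RK_strip hL
  obtain ⟨t1, t2, t3⟩ := RK_strip hL'
  exact (Cap.same78 hW hW s1 s2 s3 t1 t2 t3 h).2

lemma bdd_HK {W : WS} (hW : W.Ok) : HK W ⊆ ball 0 5 := by
  rintro _ ⟨L, hL, rfl⟩
  have hD := RK_D0 W hL
  obtain ⟨a1, a2⟩ := hW.wide.sec L hD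
  have h1 := (Per_bdd hW.wide.pos a1 (by rw [a2]; exact Pri.lt_D0 hW.wide.pos hD)).1
  rw [mem_ball, dist_zero_right]
  show ‖(W.σ L).1‖ < 5
  linarith

/-- **HS** -/
theorem u_area : U_area := by
  refine ⟨(volume (ball (0 : ℂ) 5)).toReal, ?_⟩
  intro ι F W hF hS
  rw [ENNReal.ofReal_toReal measure_ball_lt_top.ne]
  rw [← measure_biUnion_finset ?_ (fun i hi => meas_HK (hF i hi))]
  · refine measure_mono ?_
    intro c hc
    simp only [mem_iUnion] at hc
    obtain ⟨i, hi, hc⟩ := hc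
    exact bdd_HK (hF i hi) hc
  · intro i hi j hj hij
    rw [Function.onFun, Set.disjoint_left]
    rintro c ⟨L, hL, hLc⟩ ⟨L', hL', hLc'⟩
    obtain ⟨s1, s2, s3⟩ := RK_strip hL
    obtain ⟨t1, t2, t3⟩ := RK_strip hL'
    exact hij (hS i hi j hj
      (Cap.same78 (hF i hi) (hF j hj) s1 s2 s3 t1 t2 t3 (hLc.trans hLc'.symm)).1)

end Pool.Agent.Work.MLC.Uni
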