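import Pool.Agent.Work.MLC.Uni0

set_option autoImplicit false

/-! # Theorem U: the combinatorial theorem `U_comb` (helper6) -/

namespace Pool.Agent.Work.MLC.Uni

open Filter Topology Metric Set
open Pool.Agent.Work.MLC.Cnt
open Pool.Agent.Work.MLC.Shp (Wake)

/-! ### the smallest wake of an angle -/

/-- the trivial wake -/
lemma wake_one : Wake 1 0 1 where
  pos := one_pos
  nonneg := le_rfl
  lt := one_pos
  le_one := le_rfl
  per := ⟨0, by norm_num⟩
  per' := ⟨1, by norm_num⟩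
  exact := fun d h1 h2 => by omega
  exact' := fun d h1 h2 => by omega
  side := by
    intro θ h0 h1 i
    refine ⟨1, -1, 2 ^ i - 1, ?_, ?_, ?_, ?_⟩ <;> push_cast <;> linarith

lemma pow_sub_pos {m : ℕ} (hm : 0 < m) : (0 : ℝ) < 2 ^ m - 1 := by
  have : (1 : ℝ) < 2 ^ m := one_lt_pow₀ (by norm_num) hm.ne'
  linarith

lemma wake_num {m : ℕ} {α β : ℝ} (h : Wake m α β) : ∃ a b : ℕ, a ≤ 2 ^ m ∧ b ≤ 2 ^ m ∧
    α = a / (2 ^ m - 1) ∧ β = b / (2 ^ m - 1) := by
  obtain ⟨a, ha⟩ := h.per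
  obtain ⟨b, hb⟩ := h.per'
  have hp := pow_sub_pos h.pos
  have h0 := h.nonneg
  have h1 := h.le_one
  have hlt := h.lt
  have key : ∀ (x : ℝ) (c : ℤ), 0 ≤ x → x ≤ 1 → (2 ^ m - 1) * x = c →
      ∃ n : ℕ, n ≤ 2 ^ m ∧ x = n / (2 ^ m - 1) := by
    intro x c hx0 hx1 hc
    have hc0 : (0 : ℤ) ≤ c := by
      have : (0 : ℝ) ≤ c := by rw [← hc]; positivity
      exact_mod_cast this
    obtain ⟨n, rfl⟩ := Int.eq_ofNat_of_zero_le hc0
    refine ⟨n, ?_, ?_⟩
    · have : (n : ℝ) ≤ 2 ^ m := by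
        have h2 : (2 ^ m - 1) * x ≤ (2 ^ m - 1) * 1 := mul_le_mul_of_nonneg_left hx1 hp.le
        rw [hc] at h2
        push_cast at h2
        linarith
      exact_mod_cast this
    · rw [eq_div_iff hp.ne', mul_comm, hc]
      push_cast
      rfl
  obtain ⟨n, h2, h3⟩ := key α a h0 (by linarith) ha
  obtain ⟨n', h4, h5⟩ := key β b (by linarith) h1 hb
  exact ⟨n, n', h2, h4, h3, h5⟩

/-- there are finitely many wakes of bounded period -/
lemma finite_wakes (n : ℕ) : {p : ℕ × ℝ × ℝ | p.1 ≤ n ∧ Wake p.1 p.2.1 p.2.2}.Finite := by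
  have hfin : ((Set.Iic n) ×ˢ ((Set.Iic (2 ^ n)) ×ˢ (Set.Iic (2 ^ n))) : Set (ℕ × ℕ × ℕ)).Finite :=
    (Set.finite_Iic n).prod ((Set.finite_Iic _).prod (Set.finite_Iic _))
  refine (hfin.image fun q : ℕ × ℕ × ℕ =>
    ((q.1, (q.2.1 : ℝ) / (2 ^ q.1 - 1), (q.2.2 : ℝ) / (2 ^ q.1 - 1)) : ℕ × ℝ × ℝ)).subset ?_
  rintro ⟨m, α, β⟩ ⟨hm, hw⟩
  obtain ⟨a, b, h1, h2, h3, h4⟩ := wake_num hw
  have hle : 2 ^ m ≤ 2 ^ n := Nat.pow_le_pow_right (by norm_num) hm
  refine ⟨(m, a, b), ⟨hm, h1.trans hle, h2.trans hle⟩, ?_⟩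
  simp only
  rw [← h3, ← h4]

/-- `(m, α, β)` is the smallest wake of period at most `n` around `θ` -/
structure Sm (n : ℕ) (θ : ℝ) (m : ℕ) (α β : ℝ) : Prop where
  wake : Wake m α β
  le : m ≤ n
  lo : α < θ
  hi : θ < β
  min : ∀ (m' : ℕ) (α' β' : ℝ), m' ≤ n → Wake m' α' β' → α' < θ → θ < β' →
    (m' = m ∧ α' = α ∧ β' = β) ∨ (α' < α ∧ β < β')

lemma exists_sm (hlam : U_lam) {n : ℕ} (hn : 1 ≤ n) {θ : ℝ} (h0 : 0 < θ) (h1 : θ < 1) :
    ∃ m α β, Sm n θ m α β := by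
  have hfin : {p : ℕ × ℝ × ℝ | (p.1 ≤ n ∧ Wake p.1 p.2.1 p.2.2) ∧
    p.2.1 < θ ∧ θ < p.2.2}.Finite := (finite_wakes n).subset fun p hp => hp.1
  have hne : {p : ℕ × ℝ × ℝ | (p.1 ≤ n ∧ Wake p.1 p.2.1 p.2.2) ∧
    p.2.1 < θ ∧ θ < p.2.2}.Nonempty := ⟨(1, 0, 1), ⟨hn, wake_one⟩, h0, h1⟩
  obtain ⟨⟨m, α, β⟩, ⟨⟨hm, hw⟩, hlo, hhi⟩, hmin⟩ :=
    Set.exists_min_image _ (fun p : ℕ × ℝ × ℝ => p.2.2 - p.2.1) hfin hne
  refine ⟨m, α, β, hw, hm, hlo, hhi, ?_⟩
  intro m' α' β' hm' hw' hlo' hhi'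
  have h2 := hmin (m', α', β') ⟨⟨hm', hw'⟩, hlo', hhi'⟩
  simp only at h2 hlo hhi
  rcases hlam m' m α' β' α β hw' hw with h | h | h | h | h
  · exact Or.inl h
  · linarith
  · linarith
  · exact Or.inr h
  · linarith [h.1, h.2]

/-- the next wake -/
lemma next_wake (hws : U_ws) {θ : ℝ} (hir : Irrational θ) (hno : ¬ IrrRot θ)
    {m : ℕ} {α β : ℝ} (hw : Wake m α β) (hlo : α < θ) (hhi : θ < β) :
    ∃ (W : WS) (x : ℚ), W.Ok ∧ W.m = m ∧ 0 < x ∧ x < 1 ∧ (W.dat x).tm < θ ∧ θ < (W.dat x).tp ∧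
      α < (W.dat x).tm ∧ (W.dat x).tp < β ∧ Wake (m * x.den) (W.dat x).tm (W.dat x).tp ∧
      (2 ≤ m → (W.dat (1 / 2)).tm = α + (β - α) / (2 ^ m + 1) ∧
        (W.dat (1 / 2)).tp = β - (β - α) / (2 ^ m + 1)) := by
  obtain ⟨W, hok, hm, hstrip, hhalf, hsat⟩ := hws m α β hw
  have h1 := (hstrip θ).2 ⟨hlo, hhi⟩
  have h2 : ¬ Irrational (W.nu θ) := fun h => hno ⟨W, hok, h1.1, h1.2, h⟩
  rw [Irrational, not_not] at h2
  obtain ⟨x, hx⟩ := h2
  have hx0 : 0 < x := by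
    have : (0 : ℝ) < x := by rw [hx]; exact h1.1
    exact_mod_cast this
  have hx1 : x < 1 := by
    have : (x : ℝ) < 1 := by rw [hx]; exact h1.2
    exact_mod_cast this
  obtain ⟨h3, h4⟩ := (WS.plateau hok hx0 hx1 θ).1 hx.symm
  have hsx := hsat x hx0 hx1
  obtain ⟨a, b, -, -, ha, hb⟩ := wake_num hsx
  have hne : (W.dat x).tm ≠ θ := by
    intro h
    refine hir ⟨(a : ℚ) / (2 ^ (m * x.den) - 1), ?_⟩
    rw [← h, ha]
    push_cast
    rfl
  have hne' : θ ≠ (W.dat x).tp := by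
    intro h
    refine hir ⟨(b : ℚ) / (2 ^ (m * x.den) - 1), ?_⟩
    rw [h, hb]
    push_cast
    rfl
  have h5 := lt_of_le_of_ne h3 hne
  have h6 := lt_of_le_of_ne h4 hne'
  have hlt := (WS.dat_cir hok hx0 hx1).lt
  have h7 : W.nu (W.dat x).tm = x := (WS.plateau hok hx0 hx1 _).2 ⟨le_rfl, hlt.le⟩
  have h8 : W.nu (W.dat x).tp = x := (WS.plateau hok hx0 hx1 _).2 ⟨hlt.le, le_rfl⟩
  have hx0' : (0 : ℝ) < x := by exact_mod_cast hx0
  have hx1' : (x : ℝ) < 1 := by exact_mod_cast hx1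
  have h9 := (hstrip (W.dat x).tm).1 ⟨by rw [h7]; exact hx0', by rw [h7]; exact hx1'⟩
  have h10 := (hstrip (W.dat x).tp).1 ⟨by rw [h8]; exact hx0', by rw [h8]; exact hx1'⟩
  exact ⟨W, x, hok, hm, hx0, hx1, h5, h6, h9.1, h10.2, hsx, hhalf⟩

lemma den_two {x : ℚ} (h0 : 0 < x) (h1 : x < 1) : 2 ≤ x.den := by
  have hp := x.den_pos
  by_contra hcon
  have h2 : x.den = 1 := by omega
  have h3 : x = x.num := by
    rw [← Rat.coe_int_num_of_den_eq_one h2]
    simp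
  rw [h3] at h0 h1
  have h4 : (0 : ℤ) < x.num := by exact_mod_cast h0
  have h5 : x.num < (1 : ℤ) := by exact_mod_cast h1
  omega

lemma eq_half {x : ℚ} (h0 : 0 < x) (h1 : x < 1) (h2 : x.den = 2) : x = 1 / 2 := by
  have h3 : x = x.num / x.den := (Rat.num_div_den x).symm
  rw [h2] at h3
  have h4 : (0 : ℤ) < x.num := Rat.num_pos.2 h0
  have h5 : x.num < 2 := by
    have : (x.num : ℚ) < 2 := by
      rw [h3] at h1
      push_cast at h1
      rw [div_lt_one (by norm_num)] at h1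
      exact h1
    exact_mod_cast this
  have h6 : x.num = 1 := by omega
  rw [h3, h6]
  norm_num

/-- the smallest wakes have large period -/
lemma sm_large (hlam : U_lam) (hws : U_ws) {θ : ℝ} (h0 : 0 < θ) (h1 : θ < 1) (hir : Irrational θ)
    (hno : ¬ IrrRot θ) (K : ℕ) : ∃ n₁, ∀ n, n₁ ≤ n → ∀ m α β, Sm n θ m α β → K < m := by
  obtain ⟨m₁, α₁, β₁, hS⟩ := exists_sm hlam (n := K + 1) (by omega) h0 h1
  obtain ⟨W, x, hok, hm, hx0, hx1, h3, h4, h5, h6, h7, -⟩ := next_wake hws hir hno hS.wake hS.lo hS.hi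
  refine ⟨m₁ * x.den, fun n hn m α β hs => ?_⟩
  by_contra hcon
  push Not at hcon
  -- the smallest wake is inside of the next wake
  rcases hs.min _ _ _ hn h7 h3 h4 with ⟨-, h8, h9⟩ | ⟨h8, h9⟩
  · rcases hS.min _ _ _ (by omega) hs.wake hs.lo hs.hi with ⟨-, h10, h11⟩ | ⟨h10, h11⟩ <;> linarith
  · rcases hS.min _ _ _ (by omega) hs.wake hs.lo hs.hi with ⟨-, h10, h11⟩ | ⟨h10, h11⟩ <;> linarith

/-! ### one-sided limits of the symbols -/

lemma exists_irr_right {y : ℝ} {P : ℝ → Prop} (h : ∀ᶠ t in 𝓝[>] y, P t) :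
    ∃ t, Irrational t ∧ y < t ∧ P t := by
  rw [eventually_nhdsWithin_iff, Metric.eventually_nhds_iff] at h
  obtain ⟨ε, hε, h⟩ := h
  obtain ⟨t, ht, h1, h2⟩ := exists_irrational_btwn (show y < y + ε by linarith)
  refine ⟨t, ht, h1, h ?_ h1⟩
  rw [Real.dist_eq, abs_of_pos (by linarith)]
  linarith

lemma exists_irr_left {y : ℝ} {P : ℝ → Prop} (h : ∀ᶠ t in 𝓝[<] y, P t) :
    ∃ t, Irrational t ∧ t < y ∧ P t := by
  rw [eventually_nhdsWithin_iff, Metric.eventually_nhds_iff] at h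
  obtain ⟨ε, hε, h⟩ := h
  obtain ⟨t, ht, h1, h2⟩ := exists_irrational_btwn (show y - ε < y by linarith)
  refine ⟨t, ht, h2, h ?_ h2⟩
  rw [Real.dist_eq, abs_of_neg (by linarith)]
  linarith

lemma wL_right (y : ℝ) (j : ℕ) : ∀ᶠ t in 𝓝[>] y, wL t j = wL y j := by
  have hc : (0 : ℝ) < 2 ^ (j + 1) - 1 := pow_sub_pos (by omega)
  rw [eventually_nhdsWithin_iff]
  have h1 : ∀ᶠ t in 𝓝 y, 2 ^ (j + 1) * t - t < (⌊2 ^ (j + 1) * y - y⌋ : ℝ) + 1 := by
    have hcont : Continuous fun t : ℝ => 2 ^ (j + 1) * t - t := by fun_prop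
    exact (hcont.tendsto y).eventually (gt_mem_nhds (Int.lt_floor_add_one _))
  filter_upwards [h1] with t ht hty
  have h2 : ⌊2 ^ (j + 1) * t - t⌋ = ⌊2 ^ (j + 1) * y - y⌋ := by
    rw [Int.floor_eq_iff]
    refine ⟨?_, ht⟩
    have h3 := Int.floor_le (2 ^ (j + 1) * y - y)
    have h4 : (2 ^ (j + 1) - 1) * y ≤ (2 ^ (j + 1) - 1) * t :=
      mul_le_mul_of_nonneg_left (le_of_lt hty) hc.le
    linarith
  unfold wL
  rw [h2]

lemma wL_left (y : ℝ) (j : ℕ) : ∀ᶠ t in 𝓝[<] y, wL t j = wR y j := by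
  have hc : (0 : ℝ) < 2 ^ (j + 1) - 1 := pow_sub_pos (by omega)
  rw [eventually_nhdsWithin_iff]
  have h1 : ∀ᶠ t in 𝓝 y, (⌈2 ^ (j + 1) * y - y⌉ : ℝ) - 1 < 2 ^ (j + 1) * t - t := by
    have hcont : Continuous fun t : ℝ => 2 ^ (j + 1) * t - t := by fun_prop
    refine (hcont.tendsto y).eventually (lt_mem_nhds ?_)
    have := Int.ceil_lt_add_one (2 ^ (j + 1) * y - y)
    linarith
  filter_upwards [h1] with t ht hty
  have h2 : ⌊2 ^ (j + 1) * t - t⌋ = ⌈2 ^ (j + 1) * y - y⌉ - 1 := by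
    rw [Int.floor_eq_iff]
    refine ⟨by push_cast; exact ht.le, ?_⟩
    have h3 := Int.le_ceil (2 ^ (j + 1) * y - y)
    have h4 : (2 ^ (j + 1) - 1) * t < (2 ^ (j + 1) - 1) * y :=
      mul_lt_mul_of_pos_left hty hc
    push_cast
    linarith
  unfold wL wR
  rw [h2]

/-! ### angles which are not separated -/

/-- no wake of period less than `m` around `t` is inside of `(α, β)` -/
def NS (m : ℕ) (α β t : ℝ) : Prop := ∀ (m' : ℕ) (α' β' : ℝ), m' < m → Wake m' α' β' → α' < t →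
  t < β' → α' < α ∧ β < β'

lemma Sm.ns {n m : ℕ} {θ α β : ℝ} (h : Sm n θ m α β) : NS m α β θ := by
  intro m' α' β' hm' hw' h1 h2
  rcases h.min m' α' β' (by have := h.le; omega) hw' h1 h2 with h3 | h3
  · omega
  · exact h3

lemma word_eq (hpar : U_par) {m : ℕ} {α β θ t : ℝ} (hw : Wake m α β) (hθ : Irrational θ)
    (ht : Irrational t) (h1 : α < θ) (h2 : θ < β) (h3 : α < t) (h4 : t < β) (hn : NS m α β θ)
    (hn' : NS m α β t) : ∀ j, j + 1 < m → wL θ j = wL t j := by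
  have hpos := hw.pos
  have h0 := hw.nonneg
  have h1' := hw.le_one
  intro j hj
  refine hpar (m - 1) θ t hθ ht (by linarith) (by linarith) (by linarith) (by linarith) ?_ j
    (by omega)
  rintro ⟨m', α', β', hle, hw', hiff⟩
  apply hiff
  constructor
  · rintro ⟨a1, a2⟩
    obtain ⟨b1, b2⟩ := hn m' α' β' (by omega) hw' a1 a2
    exact ⟨by linarith, by linarith⟩
  · rintro ⟨a1, a2⟩
    obtain ⟨b1, b2⟩ := hn' m' α' β' (by omega) hw' a1 a2
    exact ⟨by linarith, by linarith⟩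

lemma eventually_wakes {m : ℕ} {l : Filter ℝ} {P : ℕ → ℝ → ℝ → ℝ → Prop}
    (h : ∀ (m' : ℕ) (α' β' : ℝ), m' < m → Wake m' α' β' → ∀ᶠ t in l, P m' α' β' t) :
    ∀ᶠ t in l, ∀ (m' : ℕ) (α' β' : ℝ), m' < m → Wake m' α' β' → P m' α' β' t := by
  have hfin : {p : ℕ × ℝ × ℝ | p.1 ≤ m ∧ Wake p.1 p.2.1 p.2.2}.Finite := finite_wakes m
  have h1 : ∀ᶠ t in l, ∀ p ∈ {p : ℕ × ℝ × ℝ | p.1 ≤ m ∧ Wake p.1 p.2.1 p.2.2},
      p.1 < m → P p.1 p.2.1 p.2.2 t := by
    rw [Filter.eventually_all_finite hfin]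
    rintro ⟨m', α', β'⟩ ⟨-, hw⟩
    by_cases hm : m' < m
    · filter_upwards [h m' α' β' hm hw] with t ht _
      exact ht
    · exact Filter.Eventually.of_forall fun t h2 => absurd h2 hm
  filter_upwards [h1] with t ht m' α' β' hm hw
  exact ht (m', α', β') ⟨hm.le, hw⟩ hm

/-- the symbols of the left end -/
lemma word_left (hlam : U_lam) (hpar : U_par) {m : ℕ} {α β θ : ℝ} (hw : Wake m α β)
    (hθ : Irrational θ) (h1 : α < θ) (h2 : θ < β) (hn : NS m α β θ) :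
    ∀ j, j + 1 < m → wL θ j = wL α j := by
  have hab := hw.lt
  have e1 : ∀ᶠ t in 𝓝[>] α, NS m α β t := by
    refine eventually_wakes fun m' α' β' hm' hw' => ?_
    rcases hlam m' m α' β' α β hw' hw with h | h | h | h | h
    · omega
    · filter_upwards [self_mem_nhdsWithin] with t ht _ h4
      have : α < t := ht
      linarith
    · have : ∀ᶠ t in 𝓝[>] α, t < β := (gt_mem_nhds hab).filter_mono nhdsWithin_le_nhds
      filter_upwards [this] with t ht h3 _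
      linarith
    · exact Filter.Eventually.of_forall fun t _ _ => h
    · have : ∀ᶠ t in 𝓝[>] α, t < α' := (gt_mem_nhds h.1).filter_mono nhdsWithin_le_nhds
      filter_upwards [this] with t ht h3 _
      linarith
  have e2 : ∀ᶠ t in 𝓝[>] α, t < β := (gt_mem_nhds hab).filter_mono nhdsWithin_le_nhds
  have e3 : ∀ᶠ t in 𝓝[>] α, ∀ j ∈ Finset.range m, wL t j = wL α j := by
    rw [Filter.eventually_all_finset]
    exact fun j _ => wL_right α j
  obtain ⟨t, ht, h3, h4, h5, h6⟩ := exists_irr_right (e1.and (e2.and e3))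
  intro j hj
  rw [word_eq hpar hw hθ ht h1 h2 h3 h5 hn h4 j hj]
  exact h6 j (Finset.mem_range.2 (by omega))

/-! ### the wake which covers the middle -/

/-- if no angle of the middle part is unseparated, one wake inside covers the middle part -/
theorem exists_inner (hlam : U_lam) {m : ℕ} {α β θ δ : ℝ} (hw : Wake m α β) (hδ : 0 < δ)
    (hd : 2 * δ < β - α) (hn : NS m α β θ)
    (hmid : ∀ t, Irrational t → α + δ < t → t < β - δ → ¬ NS m α β t) :
    ∃ (m₁ : ℕ) (α₁ β₁ : ℝ), m₁ < m ∧ Wake m₁ α₁ β₁ ∧ α < α₁ ∧ β₁ < β ∧ α₁ ≤ α + δ ∧ β - δ ≤ β₁ ∧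
      ¬ (α₁ < θ ∧ θ < β₁) ∧ ∀ᶠ t in 𝓝[<] α₁, α < t ∧ NS m α β t := by
  have hfin : {p : ℕ × ℝ × ℝ | (p.1 < m ∧ Wake p.1 p.2.1 p.2.2) ∧ α < p.2.1 ∧ p.2.2 < β}.Finite :=
    (finite_wakes m).subset fun p hp => ⟨hp.1.1.le, hp.1.2⟩
  -- cover
  have hcov : ∀ t, Irrational t → α + δ < t → t < β - δ → ∃ (m' : ℕ) (α' β' : ℝ), m' < m ∧
      Wake m' α' β' ∧ α < α' ∧ β' < β ∧ α' < t ∧ t < β' := by
    intro t ht h1 h2
    have h3 := hmid t ht h1 h2
    unfold NS at h3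
    push Not at h3
    obtain ⟨m', α', β', h4, h5, h6, h7, h8⟩ := h3
    rcases hlam m' m α' β' α β h5 hw with h | h | h | h | h
    · omega
    · linarith
    · linarith
    · exact absurd (h8 h.1) (not_le.2 h.2)
    · exact ⟨m', α', β', h4, h5, h.1, h.2, h6, h7⟩
  obtain ⟨t₀, ht₀, h1, h2⟩ := exists_irrational_btwn (show α + δ < β - δ by linarith)
  obtain ⟨m', α', β', a1, a2, a3, a4, a5, a6⟩ := hcov t₀ ht₀ h1 h2
  have hfin' : {p : ℕ × ℝ × ℝ | ((p.1 < m ∧ Wake p.1 p.2.1 p.2.2) ∧ α < p.2.1 ∧ p.2.2 < β) ∧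
      p.2.1 < t₀ ∧ t₀ < p.2.2}.Finite := hfin.subset fun p hp => hp.1
  obtain ⟨⟨m₁, α₁, β₁⟩, ⟨⟨⟨b1, b2⟩, b3, b4⟩, b5, b6⟩, hmax⟩ :=
    Set.exists_max_image _ (fun p : ℕ × ℝ × ℝ => p.2.2 - p.2.1) hfin'
      ⟨(m', α', β'), ⟨⟨a1, a2⟩, a3, a4⟩, a5, a6⟩
  simp only at b1 b2 b3 b4 b5 b6
  have hmax' : ∀ (m' : ℕ) (α' β' : ℝ), m' < m → Wake m' α' β' → α < α' → β' < β →
      ¬ (α' < α₁ ∧ β₁ < β') := by
    rintro m' α' β' c1 c2 c3 c4 ⟨c5, c6⟩
    have := hmax (m', α', β') ⟨⟨⟨c1, c2⟩, c3, c4⟩, by simp only; linarith, by simp only; linarith⟩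
    simp only at this
    linarith
  refine ⟨m₁, α₁, β₁, b1, b2, b3, b4, ?_, ?_, ?_, ?_⟩
  · by_contra hcon
    push Not at hcon
    have e1 : ∀ᶠ t in 𝓝[<] α₁, ∀ (m' : ℕ) (α' β' : ℝ), m' < m → Wake m' α' β' → α < α' → β' < β →
        ¬ (α' < t ∧ t < β') := by
      refine eventually_wakes fun m' α' β' hm' hw' => ?_
      rcases hlam m' m₁ α' β' α₁ β₁ hw' b2 with h | h | h | h | h
      · filter_upwards [self_mem_nhdsWithin] with t ht _ _ h4
        have : t < α₁ := ht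
        linarith [h.2.1, h4.1]
      · have : ∀ᶠ t in 𝓝[<] α₁, β' < t := (lt_mem_nhds h).filter_mono nhdsWithin_le_nhds
        filter_upwards [this] with t ht _ _ h4
        linarith [h4.2]
      · filter_upwards [self_mem_nhdsWithin] with t ht _ _ h4
        have : t < α₁ := ht
        linarith [h4.1]
      · exact Filter.Eventually.of_forall fun t h3 h4 => absurd h (hmax' m' α' β' hm' hw' h3 h4)
      · filter_upwards [self_mem_nhdsWithin] with t ht _ _ h4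
        have : t < α₁ := ht
        linarith [h.1, h4.1]
    have e2 : ∀ᶠ t in 𝓝[<] α₁, α + δ < t := (lt_mem_nhds hcon).filter_mono nhdsWithin_le_nhds
    obtain ⟨t, ht, c1, c2, c3⟩ := exists_irr_left (e1.and e2)
    obtain ⟨m', α', β', d1, d2, d3, d4, d5, d6⟩ := hcov t ht c3 (by linarith)
    exact c2 m' α' β' d1 d2 d3 d4 ⟨d5, d6⟩
  · by_contra hcon
    push Not at hcon
    have e1 : ∀ᶠ t in 𝓝[>] β₁, ∀ (m' : ℕ) (α' β' : ℝ), m' < m → Wake m' α' β' → α < α' → β' < β →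
        ¬ (α' < t ∧ t < β') := by
      refine eventually_wakes fun m' α' β' hm' hw' => ?_
      rcases hlam m' m₁ α' β' α₁ β₁ hw' b2 with h | h | h | h | h
      · filter_upwards [self_mem_nhdsWithin] with t ht _ _ h4
        have : β₁ < t := ht
        linarith [h.2.2, h4.2]
      · filter_upwards [self_mem_nhdsWithin] with t ht _ _ h4
        have : β₁ < t := ht
        linarith [h4.2]
      · have : ∀ᶠ t in 𝓝[>] β₁, t < α' := (gt_mem_nhds h).filter_mono nhdsWithin_le_nhds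
        filter_upwards [this] with t ht _ _ h4
        linarith [h4.1]
      · exact Filter.Eventually.of_forall fun t h3 h4 => absurd h (hmax' m' α' β' hm' hw' h3 h4)
      · filter_upwards [self_mem_nhdsWithin] with t ht _ _ h4
        have : β₁ < t := ht
        linarith [h.2, h4.2]
    have e2 : ∀ᶠ t in 𝓝[>] β₁, t < β - δ := (gt_mem_nhds hcon).filter_mono nhdsWithin_le_nhds
    obtain ⟨t, ht, c1, c2, c3⟩ := exists_irr_right (e1.and e2)
    obtain ⟨m', α', β', d1, d2, d3, d4, d5, d6⟩ := hcov t ht (by linarith) c3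
    exact c2 m' α' β' d1 d2 d3 d4 ⟨d5, d6⟩
  · rintro ⟨c1, c2⟩
    have := (hn m₁ α₁ β₁ b1 b2 c1 c2).1
    linarith
  · have e2 : ∀ᶠ t in 𝓝[<] α₁, α < t := (lt_mem_nhds b3).filter_mono nhdsWithin_le_nhds
    refine e2.and (eventually_wakes fun m' α' β' hm' hw' => ?_)
    rcases hlam m' m α' β' α β hw' hw with h | h | h | h | h
    · omega
    · filter_upwards [e2] with t ht _ h4
      linarith
    · filter_upwards [self_mem_nhdsWithin] with t ht h3 _
      have h5 : t < α₁ := ht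
      have h6 := b2.lt
      linarith
    · exact Filter.Eventually.of_forall fun t _ _ => h
    · rcases hlam m' m₁ α' β' α₁ β₁ hw' b2 with g | g | g | g | g
      · filter_upwards [self_mem_nhdsWithin] with t ht h3 _
        have : t < α₁ := ht
        linarith [g.2.1]
      · have : ∀ᶠ t in 𝓝[<] α₁, β' < t := (lt_mem_nhds g).filter_mono nhdsWithin_le_nhds
        filter_upwards [this] with t ht _ h4
        linarith
      · filter_upwards [self_mem_nhdsWithin] with t ht h3 _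
        have h5 : t < α₁ := ht
        have h6 := b2.lt
        linarith
      · exact absurd g (hmax' m' α' β' hm' hw' h.1 h.2)
      · filter_upwards [self_mem_nhdsWithin] with t ht h3 _
        have : t < α₁ := ht
        linarith [g.1]

/-- **the combinatorial theorem** -/
theorem u_comb (hlam : U_lam) (hpar : U_par) (hnwt : U_nwt) (hwin : U_win) (hevp : U_evp)
    (hws : U_ws) : U_comb := by
  intro θ h0 h1 hir hno ⟨M, hM⟩ n₀
  obtain ⟨n₁, hn₁⟩ := sm_large hlam hws h0 h1 hir hno (max M 2)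
  have hnper : ¬ ∃ l p : ℕ, 0 < p ∧ ∀ k, l ≤ k → wL θ (k + p) = wL θ k :=
    fun h => hno (hevp θ hir h)
  obtain ⟨n, hn, hwn⟩ := hwin (wL θ) hnper (max n₀ (max n₁ 160))
  have hn0 : n₀ ≤ n := (le_max_left _ _).trans hn
  have hn1 : n₁ ≤ n := ((le_max_left _ _).trans (le_max_right _ _)).trans hn
  have hn2 : 160 ≤ n := ((le_max_right _ _).trans (le_max_right _ _)).trans hn
  refine ⟨n, hn0, ?_⟩
  obtain ⟨m, α, β, hS⟩ := exists_sm hlam (n := 4 * n) (by omega) h0 h1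
  have hmM := hn₁ (4 * n) (by omega) m α β hS
  have hmM1 : M ≤ m := (le_max_left M 2).trans hmM.le
  have hm2 : 2 ≤ m := (le_max_right M 2).trans hmM.le
  have hw := hS.wake
  have hab := hw.lt
  have hα0 := hw.nonneg
  have hβ1 := hw.le_one
  -- the component
  obtain ⟨W, x, hok, hWm, hx0, hx1, c1, c2, c3, c4, c5, c6⟩ :=
    next_wake hws hir hno hw hS.lo hS.hi
  have hx2 : x.den = 2 := by
    have hd := den_two hx0 hx1
    by_contra hcon
    exact hM W x hok (by omega) hx0 hx1 (by omega) ⟨c1, c2⟩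
  have hx : x = 1 / 2 := eq_half hx0 hx1 hx2
  rw [hx2] at c5
  rw [hx] at c1 c2 c3 c4 c5
  obtain ⟨c7, c8⟩ := c6 hm2
  have hm2n : 2 * n < m := by
    by_contra hcon
    push Not at hcon
    rcases hS.min _ _ _ (by omega) c5 c1 c2 with h | h
    · linarith [h.2.1]
    · linarith [h.1]
  have hm4n := hS.le
  have hns := hS.ns
  have hwα := word_left hlam hpar hw hir hS.lo hS.hi hns
  set B := n / 8 with hB
  set b := B / 2 with hb
  have hn20 : n / 20 ≤ b := by omega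
  -- the key estimate
  have key : ∀ t, Irrational t → α < t → t < β → NS m α β t →
      min (t - α) (β - t) * (β - α) ≤ (1 / 2) ^ (B + 2) := by
    intro t ht h2 h3 h4
    have hwt := word_eq hpar hw hir ht hS.lo hS.hi h2 h3 hns h4
    refine hnwt m B α β t hw h2 h3 ht ?_ (by omega) (by omega) ?_
    · intro j hj
      rw [← hwt j hj, hwα j hj]
    · intro i p hp hip
      obtain ⟨k, k1, k2, k3⟩ := hwn (m - 1) (by omega) (by omega) i p hp (by omega)
      refine ⟨k, k1, by omega, ?_⟩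
      rw [← hwt (k + p) (by omega), ← hwt k (by omega)]
      exact k3
  refine ⟨W, by linarith, by linarith, c1, c2, ?_⟩
  rcases lt_or_ge (β - α) ((1 / 2) ^ b) with hA | hA
  · left
    refine ⟨hok, by omega, by omega, ?_⟩
    have : ((1 : ℝ) / 2) ^ b ≤ (1 / 2) ^ (n / 20) :=
      pow_le_pow_of_le_one (by norm_num) (by norm_num) hn20
    linarith
  · right
    set δ : ℝ := (1 / 2) ^ (b + 2) with hδ
    have hδ0 : 0 < δ := by positivity
    have hδb : ((1 : ℝ) / 2) ^ b = 4 * δ := by rw [hδ, pow_add]; ring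
    have hmid : ∀ t, Irrational t → α + δ < t → t < β - δ → ¬ NS m α β t := by
      intro t ht h2 h3 h4
      have h5 := key t ht (by linarith) (by linarith) h4
      have h6 : δ < min (t - α) (β - t) := lt_min (by linarith) (by linarith)
      have h7 : ((1 : ℝ) / 2) ^ (B + 2) ≤ δ * (1 / 2) ^ b := by
        rw [hδ, ← pow_add]
        exact pow_le_pow_of_le_one (by norm_num) (by norm_num) (by omega)
      have h8 : δ * (1 / 2) ^ b < min (t - α) (β - t) * (β - α) := by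
        have h9 : (0 : ℝ) < (1 / 2) ^ b := by positivity
        calc δ * (1 / 2) ^ b < min (t - α) (β - t) * (1 / 2) ^ b :=
              mul_lt_mul_of_pos_right h6 h9
          _ ≤ min (t - α) (β - t) * (β - α) := mul_le_mul_of_nonneg_left hA (by linarith)
      linarith
    obtain ⟨m₁, α₁, β₁, d1, d2, d3, d4, d5, d6, d7, d8⟩ :=
      exists_inner hlam hw hδ0 (by linarith) hns hmid
    -- the period of the inner wake
    have hm₁ : m - 1 < 16 * m₁ := by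
      by_contra hcon
      push Not at hcon
      obtain ⟨k, -, k2, k3⟩ := hwn (m - 1) (by omega) (by omega) 0 m₁ d2.pos (by omega)
      have e3 : ∀ᶠ t in 𝓝[<] α₁, ∀ j ∈ Finset.range m, wL t j = wR α₁ j := by
        rw [Filter.eventually_all_finset]
        exact fun j _ => wL_left α₁ j
      obtain ⟨t, ht, g1, ⟨g2, g3⟩, g4⟩ := exists_irr_left (d8.and e3)
      have hwt := word_eq hpar hw hir ht hS.lo hS.hi g2 (by linarith [d2.lt]) hns g3
      obtain ⟨a, ha⟩ := d2.per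
      have hper := wR_per (t := α₁) (n := m₁) (a := a) (by rw [← ha]; ring) k
      apply k3
      rw [hwt (k + m₁) (by omega), hwt k (by omega), g4 _ (Finset.mem_range.2 (by omega)),
        g4 _ (Finset.mem_range.2 (by omega)), hper]
    have hm₁2 : 2 ≤ m₁ := by omega
    obtain ⟨W₁, hok₁, hWm₁, -, hhalf, hsat⟩ := hws m₁ α₁ β₁ d2
    obtain ⟨f1, f2⟩ := hhalf hm₁2
    have hlt₁ := d2.lt
    have hp₁ : (0 : ℝ) < 2 ^ m₁ + 1 := by positivity
    have hp : (0 : ℝ) < 2 ^ m + 1 := by positivity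
    have hq₁ : 0 < (β₁ - α₁) / (2 ^ m₁ + 1) := div_pos (by linarith) hp₁
    have hq₂ : (β₁ - α₁) / (2 ^ m₁ + 1) ≤ (1 / 2) ^ (b + 1) := by
      have g1 : ((1 : ℝ) / 2) ^ m₁ ≤ (1 / 2) ^ (b + 1) :=
        pow_le_pow_of_le_one (by norm_num) (by norm_num) (by omega)
      refine le_trans ?_ g1
      rw [div_le_iff₀ hp₁, one_div, inv_pow]
      have g2 : (0 : ℝ) < 2 ^ m₁ := by positivity
      have g3 : ((2 : ℝ) ^ m₁)⁻¹ * (2 ^ m₁ + 1) = 1 + ((2 : ℝ) ^ m₁)⁻¹ := by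
        field_simp
      rw [g3]
      have g4 : 0 < ((2 : ℝ) ^ m₁)⁻¹ := by positivity
      linarith
    have hb1 : ((1 : ℝ) / 2) ^ (b + 1) = 2 * δ := by rw [hδ, pow_add, pow_add]; norm_num; ring
    -- nested arcs
    have hnest : (W.dat (1 / 2)).tm < α₁ ∧ β₁ < (W.dat (1 / 2)).tp := by
      have hmid0 : (W.dat (1 / 2)).tm < (α + β) / 2 ∧ (α + β) / 2 < (W.dat (1 / 2)).tp := by
        rw [c7, c8]
        have g1 : (β - α) / (2 ^ m + 1) < (β - α) / 2 := by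
          apply div_lt_div_of_pos_left (by linarith) (by norm_num)
          have : (2 : ℝ) ^ 1 ≤ 2 ^ m := pow_le_pow_right₀ (by norm_num) (by omega)
          linarith
        constructor <;> linarith
      rcases hlam _ _ _ _ _ _ c5 d2 with h | h | h | h | h
      · omega
      · linarith [hmid0.2]
      · linarith [hmid0.1]
      · exact h
      · exact absurd ⟨by linarith [h.1], by linarith [h.2]⟩ d7
    refine ⟨W₁, ⟨hok, hok₁, by omega, by omega, by omega, by omega, ?_, ?_, ?_, ?_⟩, ?_⟩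
    · rw [f1]; linarith [hnest.1]
    · rw [f2]; linarith [hnest.2]
    · have : ((1 : ℝ) / 2) ^ b ≤ (1 / 2) ^ (n / 20) :=
        pow_le_pow_of_le_one (by norm_num) (by norm_num) hn20
      rw [f1]
      linarith
    · have : ((1 : ℝ) / 2) ^ b ≤ (1 / 2) ^ (n / 20) :=
        pow_le_pow_of_le_one (by norm_num) (by norm_num) hn20
      rw [f2]
      linarith
    · rintro ⟨g1, g2⟩
      exact d7 ⟨by linarith, by linarith⟩

end Pool.Agent.Work.MLC.Uni
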