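import Pool.Agent.Work.MLC.Uni0
import Pool.Agent.Work.MLC.ShpP60

set_option autoImplicit false

/-! # Theorem U, module U6 (`U_evp`): an irrational angle with an eventually periodic kneading
sequence has an irrational rotation number for some component (helper43) -/

namespace Pool.Agent.Work.MLC.Uni

open Filter Topology Metric Set
open Pool.Agent.Work.MLC.Circ Pool.Agent.Work.MLC.Cnt CircleDeg1Lift

namespace E43

/-- the orbit of a point which stays in the half circles, after `N` steps -/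
lemma step {v : ℕ → ℤ} {N : ℕ} (hv : ∀ i, v (i + N) = v i) {θ x : ℝ} (hx : HO v θ x) (j : ℕ) :
    ∃ m : ℤ, gw v θ N (2 ^ (N * j) * x) = 2 ^ (N * (j + 1)) * x - m := by
  have hper : ∀ j i, v (N * j + i) = v i := by
    intro j
    induction j with
    | zero => intro i; simp
    | succ j ih =>
      intro i
      rw [show N * (j + 1) + i = (N * j + i) + N by ring, hv, ih]
  have h1 := hx.shift (N * j)
  have h2 : (fun i => v (N * j + i)) = v := funext fun i => hper j i
  rw [h2] at h1
  obtain ⟨m, hm⟩ := gw_lin v θ (2 ^ (N * j) * x) N fun i _ => by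
    obtain ⟨k, h3, h4⟩ := h1 i
    exact ⟨k, h3, h4.le⟩
  refine ⟨m, ?_⟩
  rw [hm, ← mul_assoc, ← pow_add, show N + N * j = N * (j + 1) by ring]

/-- a point which stays in the half circles of a periodic word is rational if the rotation number
is rational -/
lemma rat_of_nu {v : ℕ → ℤ} {p : ℕ} (hp : 0 < p) (hv : ∀ i, v (i + p) = v i) {θ x : ℝ}
    (hx : HO v θ x) {P : ℤ} {q : ℕ} (hq : 0 < q) (hnu : nu v p θ = P / q) : ∃ r : ℚ, x = r := by
  obtain ⟨z, hz⟩ := (nu_eq_rat_iff v p θ q hq P).1 hnu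
  have hvN : ∀ i, v (i + p * q) = v i := by
    intro i
    induction q with
    | zero => simp
    | succ q ih =>
      rcases Nat.eq_zero_or_pos q with h0 | h0
      · subst h0; simpa using hv i
      · have : ∀ q : ℕ, v (i + p * q) = v i := by
          intro q
          induction q with
          | zero => simp
          | succ q ih => rw [show i + p * (q + 1) = (i + p * q) + p by ring, hv, ih]
        exact this _
  rw [← gw_mul v θ p q hv] at hz
  have hN0 : 0 < p * q := Nat.mul_pos hp hq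
  generalize p * q = N at hz hvN hN0
  let H : ℝ → ℝ := fun y => gw v θ N y - P
  have hHm : Monotone H := fun a b h => sub_le_sub_right ((gw v θ N).monotone h) _
  have hHint : ∀ (y : ℝ) (k : ℤ), H (y + k) = H y + k := fun y k => by
    show gw v θ N (y + k) - P = gw v θ N y - P + k
    rw [map_add_int]; ring
  have hHz : ∀ k : ℤ, H (z + k) = z + k := fun k => by
    rw [hHint]
    show gw v θ N z - P + k = z + k
    rw [hz]; ring
  -- the orbit of `x`
  have hlin : ∀ j, ∃ m : ℤ, H^[j] x = 2 ^ (N * j) * x - m := by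
    intro j
    induction j with
    | zero => exact ⟨0, by simp⟩
    | succ j ih =>
      obtain ⟨m, hm⟩ := ih
      obtain ⟨m', hm'⟩ := step hvN hx j
      refine ⟨m' + P + m, ?_⟩
      rw [Function.iterate_succ_apply', hm, show (2 : ℝ) ^ (N * j) * x - m =
        2 ^ (N * j) * x + ((-m : ℤ) : ℝ) by push_cast; ring, hHint]
      show gw v θ N (2 ^ (N * j) * x) - P + ((-m : ℤ) : ℝ) = _
      rw [hm']
      push_cast; ring
  choose m hm using hlin
  -- bounds
  set k := ⌊x - z⌋ with hk
  have hk1 : z + k ≤ x := by have := Int.floor_le (x - z); linarith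
  have hk2 : x ≤ z + k + 1 := by have := (Int.lt_floor_add_one (x - z)).le; linarith
  have hbd : ∀ j, z + k ≤ H^[j] x ∧ H^[j] x ≤ z + k + 1 := by
    intro j
    induction j with
    | zero => exact ⟨hk1, hk2⟩
    | succ j ih =>
      rw [Function.iterate_succ_apply']
      constructor
      · calc z + k = H (z + k) := (hHz k).symm
          _ ≤ _ := hHm ih.1
      · have h1 := hHz (k + 1)
        push_cast at h1
        calc H (H^[j] x) ≤ H (z + (k + 1)) := hHm (by linarith [ih.2])
          _ = z + k + 1 := by rw [h1]; ring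
  -- convergence
  obtain ⟨l, hl⟩ : ∃ l, Tendsto (fun j => H^[j] x) atTop (𝓝 l) := by
    rcases le_total x (H x) with h | h
    · exact ⟨_, tendsto_atTop_ciSup (hHm.monotone_iterate_of_le_map h)
        ⟨z + k + 1, by rintro _ ⟨j, rfl⟩; exact (hbd j).2⟩⟩
    · exact ⟨_, tendsto_atTop_ciInf (hHm.antitone_iterate_of_map_le h)
        ⟨z + k, by rintro _ ⟨j, rfl⟩; exact (hbd j).1⟩⟩
  have hd : Tendsto (fun j => H^[j + 1] x - H^[j] x) atTop (𝓝 0) := by
    have := ((tendsto_add_atTop_iff_nat 1).2 hl).sub hl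
    rwa [sub_self] at this
  -- the difference of consecutive differences is an integer
  have he : Tendsto (fun j => (H^[j + 1 + 1] x - H^[j + 1] x) - 2 ^ N * (H^[j + 1] x - H^[j] x))
      atTop (𝓝 0) := by
    have := ((tendsto_add_atTop_iff_nat 1).2 hd).sub (hd.const_mul ((2 : ℝ) ^ N))
    rwa [mul_zero, sub_zero] at this
  have hint : ∀ j, (H^[j + 1 + 1] x - H^[j + 1] x) - 2 ^ N * (H^[j + 1] x - H^[j] x) =
      ((-m (j + 1 + 1) + m (j + 1) + 2 ^ N * m (j + 1) - 2 ^ N * m j : ℤ) : ℝ) := by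
    intro j
    rw [hm, hm, hm, show N * (j + 1 + 1) = N * j + N + N by ring, show N * (j + 1) = N * j + N by ring,
      pow_add, pow_add]
    push_cast; ring
  have hev : ∀ᶠ j in atTop, (H^[j + 1 + 1] x - H^[j + 1] x) - 2 ^ N * (H^[j + 1] x - H^[j] x) = 0 := by
    have h1 : ∀ᶠ j in atTop, |(H^[j + 1 + 1] x - H^[j + 1] x) -
        2 ^ N * (H^[j + 1] x - H^[j] x)| < 1 := by
      have := (Metric.tendsto_nhds.1 he) 1 one_pos
      simpa [Real.dist_eq] using this
    filter_upwards [h1] with j hj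
    rw [hint] at hj ⊢
    have h2 : |(-m (j + 1 + 1) + m (j + 1) + 2 ^ N * m (j + 1) - 2 ^ N * m j : ℤ)| < 1 := by
      exact_mod_cast hj
    rw [Int.abs_lt_one_iff] at h2
    rw [h2]; simp
  obtain ⟨J, hJ⟩ := eventually_atTop.1 hev
  have hpow : ∀ i, H^[J + i + 1] x - H^[J + i] x = 2 ^ (N * i) * (H^[J + 1] x - H^[J] x) := by
    intro i
    induction i with
    | zero => simp
    | succ i ih =>
      have h1 := hJ (J + i) (by omega)
      have h2 : H^[J + (i + 1) + 1] x - H^[J + (i + 1)] x = 2 ^ N * (H^[J + i + 1] x - H^[J + i] x) := by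
        have e : J + (i + 1) = J + i + 1 := by ring
        rw [e]; linarith
      rw [h2, ih, show N * (i + 1) = N * i + N by ring, pow_add]; ring
  have hzero : H^[J + 1] x - H^[J] x = 0 := by
    by_contra hne
    have hpos : 0 < |H^[J + 1] x - H^[J] x| := abs_pos.2 hne
    obtain ⟨i, hi⟩ := pow_unbounded_of_one_lt (1 / |H^[J + 1] x - H^[J] x|) (one_lt_two (α := ℝ))
    have h1 : |H^[J + i + 1] x - H^[J + i] x| ≤ 1 := by
      rw [abs_le]
      constructor <;> linarith [(hbd (J + i + 1)).1, (hbd (J + i + 1)).2, (hbd (J + i)).1,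
        (hbd (J + i)).2]
    rw [hpow, abs_mul, abs_of_pos (by positivity)] at h1
    rw [div_lt_iff₀ hpos] at hi
    have h2 : (2 : ℝ) ^ i ≤ 2 ^ (N * i) := pow_le_pow_right₀ (by norm_num)
      (Nat.le_mul_of_pos_left i hN0)
    nlinarith
  rw [hm, hm] at hzero
  have h3 : (2 : ℝ) ^ (N * J) < 2 ^ (N * (J + 1)) := pow_lt_pow_right₀ (by norm_num) (by
    rw [mul_add, mul_one]; omega)
  refine ⟨((m (J + 1) - m J : ℤ) : ℚ) / (2 ^ (N * (J + 1)) - 2 ^ (N * J)), ?_⟩
  push_cast
  rw [eq_div_iff (by linarith)]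
  linarith

end E43

/-- **U6** -/
theorem u_evp : U_evp := by
  rintro θ hθ ⟨l₀, p₀, hp₀, h₀⟩
  classical
  have hex : ∃ p, 0 < p ∧ ∃ l, ∀ k, l ≤ k → wL θ (k + p) = wL θ k := ⟨p₀, hp₀, l₀, h₀⟩
  obtain ⟨hp, l, hl⟩ := Nat.find_spec hex
  have hmin := fun d => Nat.find_min hex (m := d)
  generalize Nat.find hex = p at hp hl hmin
  let v : ℕ → ℤ := fun i => wL θ (l + i)
  have hword : Word p v := by
    refine ⟨fun i => wL_bit _ _, fun i => ?_, fun d hd hdp => ?_⟩
    · show wL θ (l + (i + p)) = wL θ (l + i)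
      rw [← add_assoc]; exact hl _ (by omega)
    · by_contra hcon
      push Not at hcon
      refine hmin d hdp ⟨hd, l, fun k hk => ?_⟩
      have h1 : wL θ (l + (k - l + d)) = wL θ (l + (k - l)) := hcon (k - l)
      rwa [show l + (k - l + d) = k + d by omega, show l + (k - l) = k by omega] at h1
  have hHO : HO v θ (2 ^ l * θ) := HO.shift (w := wL θ) (fun j => wL_in θ j) l
  by_cases hirr : Irrational (Circ.nu v p θ)
  · obtain ⟨W, hOk, hm, hw, hk⟩ := Shp.P60.exists_ws hp hword ⌊Circ.nu v p θ⌋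
    have e : W.nu θ = Circ.nu v p θ - ⌊Circ.nu v p θ⌋ := by unfold WS.nu; rw [hm, hw, hk]
    refine ⟨W, hOk, ?_, ?_, ?_⟩
    · rw [e]
      have h1 := Int.floor_le (Circ.nu v p θ)
      have h2 := hirr.ne_int ⌊Circ.nu v p θ⌋
      have h3 := lt_of_le_of_ne h1 (Ne.symm h2)
      linarith
    · rw [e]
      have := Int.lt_floor_add_one (Circ.nu v p θ)
      linarith
    · rw [e]; exact hirr.sub_intCast _
  · exfalso
    unfold Irrational at hirr
    push Not at hirr
    obtain ⟨r, hr⟩ := hirr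
    obtain ⟨s, hs⟩ := E43.rat_of_nu hp hword.2.1 hHO r.den_pos (P := r.num) (by
      rw [← hr]; exact Rat.cast_def r)
    refine hθ ⟨s / 2 ^ l, ?_⟩
    push_cast
    rw [← hs]
    field_simp

end Pool.Agent.Work.MLC.Uni
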