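import Pool.Agent.Work.MLC.Uni0
import Pool.Agent.Work.MLC.ShpT
import Pool.Agent.Work.MLC.ShpC24
import Pool.Agent.Work.MLC.Lab54g

set_option autoImplicit false

/-! # Theorem U, module U1: every periodic angle is an end of a wake (helper78) -/

namespace Pool.Agent.Work.MLC.Uni

open Filter Topology Metric Set
open Pool.Agent.Work.MLC.Circ Pool.Agent.Work.MLC.Cnt CircleDeg1Lift
open Pool.Agent.Work.MLC.Shp (Wake SameSide cast_lt_of cast_le_of nu_one_sub wake_of_ca)

/-- the pair does not contain the angle `1` -/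
lemma le_one_of_side {s t : ℝ} (h0 : 0 ≤ s) (h1 : s < 1) (hst : s < t) (hlt : t < s + 1)
    (h : ∀ θ, s < θ → θ < t → ∀ i : ℕ, SameSide θ (2 ^ i * s) (2 ^ i * t)) : t ≤ 1 := by
  by_contra hcon
  push Not at hcon
  have hside := h 1 h1 hcon
  choose w j k hjk using hside
  -- the differences of the indices double
  have hstep : ∀ i, k (i + 1) - j (i + 1) = 2 * (k i - j i) := by
    intro i
    obtain ⟨a1, a2, a3, a4⟩ := hjk i
    obtain ⟨b1, b2, b3, b4⟩ := hjk (i + 1)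
    have es : (2 : ℝ) ^ (i + 1) * s = 2 * (2 ^ i * s) := by rw [pow_succ]; ring
    have et : (2 : ℝ) ^ (i + 1) * t = 2 * (2 ^ i * t) := by rw [pow_succ]; ring
    rw [es] at b1 b2
    rw [et] at b3 b4
    have f1 : ((1 + w (i + 1) + 2 * j (i + 1) : ℤ) : ℝ) < ((2 * (1 + w i + 2 * j i + 1) : ℤ) : ℝ) := by
      push_cast; linarith
    have f2 : ((2 * (1 + w i + 2 * j i) : ℤ) : ℝ) < ((1 + w (i + 1) + 2 * j (i + 1) + 1 : ℤ) : ℝ) := by
      push_cast; linarith
    have f3 : ((1 + w (i + 1) + 2 * k (i + 1) : ℤ) : ℝ) < ((2 * (1 + w i + 2 * k i + 1) : ℤ) : ℝ) := by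
      push_cast; linarith
    have f4 : ((2 * (1 + w i + 2 * k i) : ℤ) : ℝ) < ((1 + w (i + 1) + 2 * k (i + 1) + 1 : ℤ) : ℝ) := by
      push_cast; linarith
    have := cast_lt_of f1
    have := cast_lt_of f2
    have := cast_lt_of f3
    have := cast_lt_of f4
    omega
  have hD : ∀ i, k i - j i = 2 ^ i * (k 0 - j 0) := by
    intro i
    induction i with
    | zero => simp
    | succ i ih => rw [hstep, ih]; ring
  have hclose : ∀ i : ℕ, |(t - s) - ((k 0 - j 0 : ℤ) : ℝ)| * 2 ^ i < 1 := by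
    intro i
    obtain ⟨a1, a2, a3, a4⟩ := hjk i
    have hp : (0 : ℝ) < 2 ^ i := by positivity
    have h2 : ((k i - j i : ℤ) : ℝ) = 2 ^ i * ((k 0 - j 0 : ℤ) : ℝ) := by
      rw [hD i]; push_cast; ring
    rw [← abs_of_pos hp, ← abs_mul, abs_lt]
    push_cast at h2 ⊢
    constructor <;> nlinarith
  have hz : t - s = ((k 0 - j 0 : ℤ) : ℝ) := by
    by_contra hne
    have hpos : 0 < |(t - s) - ((k 0 - j 0 : ℤ) : ℝ)| := abs_pos.2 (sub_ne_zero.2 hne)
    obtain ⟨i, hi⟩ := pow_unbounded_of_one_lt (1 / |(t - s) - ((k 0 - j 0 : ℤ) : ℝ)|)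
      (by norm_num : (1 : ℝ) < 2)
    rw [div_lt_iff₀ hpos] at hi
    have := hclose i
    linarith
  have f1 : ((0 : ℤ) : ℝ) < ((k 0 - j 0 : ℤ) : ℝ) := by rw [← hz]; push_cast; linarith
  have f2 : ((k 0 - j 0 : ℤ) : ℝ) < ((1 : ℤ) : ℝ) := by rw [← hz]; push_cast; linarith
  have := cast_lt_of f1
  have := cast_lt_of f2
  omega

/-- a characteristic pair is a wake -/
theorem wake_of_cp {n : ℕ} {v : ℕ → ℤ} {s t : ℝ} (h : CP n v s t) (h0 : 0 ≤ s) (h1 : s < 1) :
    Wake n s t := by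
  have hside : ∀ θ, s < θ → θ < t → ∀ i : ℕ, SameSide θ (2 ^ i * s) (2 ^ i * t) := by
    intro θ h2 h3 i
    obtain ⟨k, k1, k2⟩ := h.compat_s h2 h3 i
    obtain ⟨l, l1, l2⟩ := h.compat_t h2 h3 i
    exact ⟨v i, k, l, k1, k2, l1, l2⟩
  exact
    { pos := by have := h.two; omega
      nonneg := h0
      lt := h.lt
      le_one := le_one_of_side h0 h1 h.lt (by linarith [h.short]) hside
      per := by
        obtain ⟨a, ha⟩ := h.per_s
        exact ⟨a, by linarith⟩
      per' := by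
        obtain ⟨a, ha⟩ := h.per_t
        exact ⟨a, by linarith⟩
      exact := by
        rintro d hd hdn ⟨a, ha⟩
        refine h.sep_s d (-a) hd hdn ⟨?_, ?_⟩
        · push_cast; linarith
        · push_cast; linarith [h.lt]
      exact' := by
        rintro d hd hdn ⟨a, ha⟩
        refine h.sep_t d (-a) hd hdn ⟨?_, ?_⟩
        · push_cast; linarith [h.lt]
        · push_cast; linarith
      side := hside }

/-- a left end is the left end of a wake -/
theorem wake_of_left {n : ℕ} (hn : 2 ≤ n) {t : ℝ} (h0 : 0 < t) (h1 : t < 1) {w : ℕ → ℤ} {k : ℤ}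
    (hw : Word n w) (hnu : nu w n t = k) (hgt : ∀ θ, t < θ → (k : ℝ) < nu w n θ) :
    ∃ β, Wake n t β := by
  obtain ⟨i₀, -, h⟩ := exists_LE (by omega : 0 < n) hw hnu hgt
  set w' : ℕ → ℤ := fun j => w (i₀ + j) with hw'
  rcases h.cases with hex | ⟨d, Q, t', hdQ, hCA⟩
  · obtain ⟨M, hM⟩ : ∃ M : ℤ, gw (flw n w') t n t = t + M := by
      obtain ⟨m, hm⟩ := gw_lin (flw n w') t t n fun i _ => by
        obtain ⟨m, h1, h2⟩ := h.closed i
        exact ⟨m, h1.le, h2⟩
      obtain ⟨a, ha⟩ := h.per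
      exact ⟨a - m, by rw [hm]; push_cast; linarith⟩
    obtain ⟨t', hCP⟩ := exists_CP h hn hex hM (nb n w' t k M h hn hex hM)
    exact ⟨t', wake_of_cp hCP h0.le h1⟩
  · have hside : ∀ θ, t < θ → θ < t' → ∀ i : ℕ, SameSide θ (2 ^ i * t) (2 ^ i * t') := by
      intro θ h2 h3 i
      obtain ⟨k, k1, k2⟩ := hCA.compat θ h2 h3 i
      obtain ⟨l, l1, l2⟩ := hCA.compat_t h2 h3 i
      exact ⟨flw n w' i, k, l, k1, k2, l1, l2⟩
    have hle := le_one_of_side h0.le h1 hCA.lt hCA.lt' hside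
    have := wake_of_ca hCA h0.le hle
    rw [hdQ] at this
    exact ⟨t', this⟩

/-- **Module U1**: every periodic angle is an end of a wake -/
theorem u_ends : U_ends := by
  intro m τ hm h0 h1 hper hex
  obtain ⟨a, ha⟩ := hper
  have ha' : (2 : ℝ) ^ m * τ - τ = a := by linarith
  have hex' : ∀ d, 0 < d → d < m → ¬ ∃ b : ℤ, (2 : ℝ) ^ d * τ - τ = b := by
    rintro d hd hdm ⟨b, hb⟩
    exact hex d hd hdm ⟨b, by linarith⟩
  rcases gs_end hm ha' hex' with ⟨w, k, hw, hnu, hgt⟩ | ⟨w, k, hw, hnu, hgt⟩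
  · obtain ⟨β, hβ⟩ := wake_of_left hm h0 h1 hw hnu hgt
    exact ⟨τ, β, hβ, Or.inl rfl⟩
  · -- the reflection
    set v : ℕ → ℤ := fun i => 1 - w i with hv
    have hvw : (fun i => 1 - v i) = w := by funext i; rw [hv]; ring
    have hW : Word m v := by
      refine ⟨fun i => ?_, fun i => ?_, fun d hd hdm => ?_⟩
      · have := hw.1 i
        show 1 - w i = 0 ∨ 1 - w i = 1
        omega
      · show 1 - w (i + m) = 1 - w i
        rw [hw.2.1]
      · obtain ⟨i, hi⟩ := hw.2.2 d hd hdm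
        exact ⟨i, fun h => hi (by have h' : 1 - w (i + d) = 1 - w i := h; omega)⟩
    set c : ℤ := m + ∑ i ∈ Finset.range m, v i with hc
    have hnu' : ∀ x, nu v m (1 + x) = ((c - m : ℤ) : ℝ) + nu w m x := by
      intro x
      have e1 := nu_one_sub v m (-x)
      have e2 := gs_nu_refl v (-x) m
      rw [neg_neg, hvw] at e2
      have e3 : (1 : ℝ) + x = 1 - -x := by ring
      rw [e3, e1, ← hc]
      push_cast
      linarith
    have hL : nu v m (1 - τ) = ((c - m + k : ℤ) : ℝ) := by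
      have := hnu' (-τ)
      rw [hnu] at this
      rw [show (1 : ℝ) - τ = 1 + -τ by ring, this]
      push_cast; ring
    have hG : ∀ θ, 1 - τ < θ → ((c - m + k : ℤ) : ℝ) < nu v m θ := by
      intro θ hθ
      have h3 := hnu' (θ - 1)
      rw [show 1 + (θ - 1) = θ by ring] at h3
      have h4 := hgt (θ - 1) (by linarith)
      rw [h3]
      push_cast
      linarith
    obtain ⟨β, hβ⟩ := wake_of_left hm (t := 1 - τ) (by linarith) (by linarith) hW hL hG
    have h5 := hβ.refl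
    rw [show 1 - (1 - τ) = τ by ring] at h5
    exact ⟨1 - β, τ, h5, Or.inr rfl⟩

end Pool.Agent.Work.MLC.Uni
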