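import Pool.Agent.Work.MLC.Uni0
import Pool.Agent.Work.MLC.CapG26
import Pool.Agent.Work.MLC.CntR43

set_option autoImplicit false

/-! # Theorem U, module GA (`U_gate`): the gates along the axis away from the root (helper43) -/

namespace Pool.Agent.Work.MLC.Uni

open Filter Topology Metric Set Complex MeasureTheory
open Pool.Agent.Work.MLC.Sat Pool.Agent.Work.MLC.Cnt
open scoped ENNReal

namespace G43

/-- the region of `HK` in the coordinate `L` -/
def KR (m : ℕ) : Set ℂ := {L | -1 / (10 ^ 6 * m) < L.re ∧ L.re < 0 ∧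
    2 * Real.pi / 200 < L.im ∧ L.im < 2 * Real.pi * (1 - 1 / 200)}

lemma KR_strip {m : ℕ} {L : ℂ} (hL : L ∈ KR m) : 0 < L.im ∧ L.im < 2 * Real.pi ∧ L.re < 0 := by
  obtain ⟨-, h2, h3, h4⟩ := hL
  have := Real.pi_pos
  exact ⟨by linarith, by linarith, h2⟩

/-- the halves of the gates on the grid fill the part `HK` of the component at most four times -/
lemma sum_halves43 {W : WS} (hW : W.Ok) {B : ℕ} (hB : 0 < B)
    (F : Finset ℕ) (hm : ∀ a ∈ F, MeasurableSet (W.Hf ((a : ℚ) / B) (10 / B)))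
    (hsub : ∀ a ∈ F, {L : ℂ | L ∈ ball (axisPt ((a : ℚ) / B)) (10 / B) ∧ L.re < 0} ⊆
      KR W.m) :
    ∑ a ∈ F, volume (W.Hf ((a : ℚ) / B) (10 / B)) ≤ 4 * volume (HK W) := by
  have hBR : (0 : ℝ) < B := by exact_mod_cast hB
  rw [← Finset.sum_fiberwise_of_maps_to (s := F) (t := Finset.range 4) (g := fun a => a % 4)
    (fun a _ => Finset.mem_range.2 (Nat.mod_lt _ (by norm_num)))]
  have key : ∀ r ∈ Finset.range 4, ∑ a ∈ F.filter (fun a => a % 4 = r),
      volume (W.Hf ((a : ℚ) / B) (10 / B)) ≤ volume (HK W) := by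
    intro r _
    rw [← measure_biUnion_finset]
    · refine measure_mono (iUnion₂_subset fun a ha => ?_)
      exact image_mono (hsub a (Finset.mem_filter.1 ha).1)
    · intro a ha a' ha' hne
      rw [Finset.mem_coe, Finset.mem_filter] at ha ha'
      rw [Function.onFun, Set.disjoint_left]
      rintro _ ⟨L, hL, rfl⟩ ⟨L', hL', h⟩
      obtain ⟨s1, s2, s3⟩ := KR_strip (hsub a ha.1 hL)
      obtain ⟨t1, t2, t3⟩ := KR_strip (hsub a' ha'.1 hL')
      have he := Cap.c_inj26 hW t1 t2 t3 s1 s2 s3 h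
      subst he
      have h1 := mem_ball.1 hL.1
      have h2 := mem_ball.1 hL'.1
      have h3 : dist (axisPt ((a : ℚ) / B)) (axisPt ((a' : ℚ) / B)) < 20 / B := by
        have := dist_triangle_left (axisPt ((a : ℚ) / B)) (axisPt ((a' : ℚ) / B)) L'
        have e : 20 / (B : ℝ) = 10 / B + 10 / B := by ring
        linarith
      rw [dist_eq_norm, LimbData.axisPt_sub] at h3
      have h4 : (4 : ℝ) ≤ |(a : ℝ) - a'| := by
        rcases lt_or_gt_of_ne hne with h5 | h5
        · have h6 : a + 4 ≤ a' := by omega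
          have h7 : (a : ℝ) + 4 ≤ a' := by exact_mod_cast h6
          rw [abs_sub_comm, abs_of_nonneg (by linarith)]; linarith
        · have h6 : a' + 4 ≤ a := by omega
          have h7 : (a' : ℝ) + 4 ≤ a := by exact_mod_cast h6
          rw [abs_of_nonneg (by linarith)]; linarith
      have e2 : ((((a : ℚ) / B : ℚ) : ℝ) - (((a' : ℚ) / B : ℚ) : ℝ)) = ((a : ℝ) - a') / B := by
        push_cast; ring
      rw [e2, abs_div, abs_of_pos hBR, mul_div_assoc', div_lt_div_iff_of_pos_right hBR] at h3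
      have := Real.pi_gt_three
      nlinarith
    · intro a ha
      exact hm a (Finset.mem_filter.1 ha).1
  refine (Finset.sum_le_sum key).trans ?_
  rw [Finset.sum_const, Finset.card_range, nsmul_eq_mul]
  norm_num

end G43

open G43

/-- **GA** -/
theorem u_gate : U_gate := by
  refine ⟨10 ^ 21, by positivity, ?_⟩
  intro W hW x₁ x₂ hx1 hx1' hx2 hx2'
  have hG := q_gate
  have hm := hW.wide.pos
  have hm1 : (1 : ℝ) ≤ W.m := by exact_mod_cast hm
  have e1 : (1 / 150 : ℝ) < x₁ := by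
    have h : ((1 / 150 : ℚ) : ℝ) < x₁ := by exact_mod_cast hx1
    push_cast at h; exact h
  have e1' : (x₁ : ℝ) < 1 / 100 := by
    have h : (x₁ : ℝ) < ((1 / 100 : ℚ) : ℝ) := by exact_mod_cast hx1'
    push_cast at h; exact h
  have e2 : (99 / 100 : ℝ) < x₂ := by
    have h : ((99 / 100 : ℚ) : ℝ) < x₂ := by exact_mod_cast hx2
    push_cast at h; exact h
  have e2' : (x₂ : ℝ) < 1 - 1 / 150 := by
    have h : (x₂ : ℝ) < ((1 - 1 / 150 : ℚ) : ℝ) := by exact_mod_cast hx2'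
    push_cast at h; exact h
  obtain ⟨B, hBdef⟩ : ∃ B : ℕ, B = 2000 * W.m * 100 ^ 2 := ⟨_, rfl⟩
  have hB : 0 < B := by rw [hBdef]; positivity
  have hBR : (0 : ℝ) < B := by exact_mod_cast hB
  have hBe : (B : ℝ) = 2000 * W.m * (100 : ℝ) ^ 2 := by rw [hBdef]; push_cast; ring
  have hBi0 : 0 < 1 / (B : ℝ) := by positivity
  have hBinv : 1 / (B : ℝ) ≤ 1 / 20000000 := by
    refine one_div_le_one_div_of_le (by positivity) ?_
    rw [hBe]; linarith
  have hst : (x₁ : ℝ) ≤ x₂ := by linarith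
  have hgr : ∀ a ∈ grid B x₁ x₂, 10 / (B : ℝ) ≤ gR W.m ((a : ℚ) / B) / 8 := by
    intro a ha
    obtain ⟨-, g1, g2⟩ := mem_grid.1 ha
    unfold gR
    have hc : (((a : ℚ) / B : ℚ) : ℝ) = (a : ℝ) / B := by push_cast; rfl
    rw [hc]
    have h5 : (1 / 160 : ℝ) ≤ min ((a : ℝ) / B) (1 - (a : ℝ) / B) :=
      le_min (by linarith) (by linarith)
    have h6 : (1 / 160 : ℝ) ^ 2 ≤ (min ((a : ℝ) / B) (1 - (a : ℝ) / B)) ^ 2 :=
      pow_le_pow_left₀ (by positivity) h5 2
    have h7 : 10 / (B : ℝ) ≤ 1 / 4 * (1 / 160 : ℝ) ^ 2 / W.m / 8 := by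
      have e : 1 / 4 * (1 / 160 : ℝ) ^ 2 / W.m / 8 = (1 / 819200) / W.m := by
        field_simp
        norm_num
      have e2 : 10 / (B : ℝ) = (1 / 2000000) / W.m := by
        rw [hBe]
        field_simp
        norm_num
      rw [e, e2]
      exact div_le_div_of_nonneg_right (by norm_num) (by positivity)
    refine h7.trans ?_
    gcongr
  have hs : 1 / (B : ℝ) < x₁ := by linarith
  have ht : (x₂ : ℝ) < 1 - 1 / B := by linarith
  obtain ⟨k1, k2, k3⟩ := gates26 hG hW hB hst hs ht hgr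
  have e6 : 6 / (2000 * (W.m : ℝ) * (100 : ℝ) ^ 2) = 6 / B := by rw [hBe]
  refine ⟨grid B x₁ x₂, fun a => W.Gt ((a : ℚ) / B) (10 / B), fun a ha => (k1 a ha).2.2, ?_, ?_,
    ?_, ?_⟩
  · intro y g1 g2
    obtain ⟨a, ha, h5⟩ := k2 y g1 g2
    exact ⟨a, ha, h5 0 (by positivity) ⟨_, mem_closedBall_self le_rfl, rfl⟩⟩
  · obtain ⟨a, ha, h5⟩ := k2 x₁ le_rfl hst
    refine ⟨a, ha, ?_⟩
    have h6 := h5 (6 / B) le_rfl
    rw [e6]
    unfold WS.Gt
    rw [axisPt_eq26]
    exact h6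
  · obtain ⟨a, ha, h5⟩ := k2 x₂ hst le_rfl
    refine ⟨a, ha, ?_⟩
    have h6 := h5 (6 / B) le_rfl
    rw [e6]
    unfold WS.Gt
    rw [axisPt_eq26]
    exact h6
  · have hmeas : ∀ a ∈ grid B (x₁ : ℝ) x₂, MeasurableSet (W.Hf ((a : ℚ) / B) (10 / B)) :=
      fun a ha => (hG W hW ((a : ℚ) / B) (10 / B) (k1 a ha).1 (k1 a ha).2.1 (by positivity)
        (hgr a ha)).1
    have hsub : ∀ a ∈ grid B (x₁ : ℝ) x₂,
        {L : ℂ | L ∈ ball (axisPt ((a : ℚ) / B)) (10 / B) ∧ L.re < 0} ⊆ KR W.m := by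
      rintro a ha L ⟨g3, g4⟩
      obtain ⟨-, g1, g2⟩ := mem_grid.1 ha
      rw [mem_ball, dist_eq_norm] at g3
      have g5 := (abs_re_le_norm _).trans_lt g3
      have g6 := (abs_im_le_norm _).trans_lt g3
      rw [sub_re, LimbData.axisPt_re, sub_zero] at g5
      rw [sub_im, LimbData.axisPt_im] at g6
      have hc : (((a : ℚ) / B : ℚ) : ℝ) = (a : ℝ) / B := by push_cast; rfl
      rw [hc] at g6
      have hpi := Real.pi_gt_three
      have hpi4 := Real.pi_lt_four
      have e10 : 10 / (B : ℝ) = 10 * (1 / B) := by ring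
      rw [abs_lt] at g5 g6
      have hpa1 : 2 * Real.pi * (1 / 160) ≤ 2 * Real.pi * ((a : ℝ) / B) :=
        mul_le_mul_of_nonneg_left (by linarith) (by positivity)
      have hpa2 : 2 * Real.pi * ((a : ℝ) / B) ≤ 2 * Real.pi * (1 - 1 / 160) :=
        mul_le_mul_of_nonneg_left (by linarith) (by positivity)
      refine ⟨?_, g4, ?_, ?_⟩
      · have e : -(10 / (B : ℝ)) = -(1 / 2000000) / W.m := by
          rw [hBe]
          field_simp
          norm_num
        have e' : -1 / (10 ^ 6 * (W.m : ℝ)) = -(1 / 1000000) / W.m := by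
          field_simp
          norm_num
        rw [e']
        rw [e] at g5
        refine lt_of_le_of_lt ?_ g5.1
        exact div_le_div_of_nonneg_right (by norm_num) (by positivity)
      · rw [e10] at g6
        linarith [g6.1]
      · rw [e10] at g6
        linarith [g6.2]
    have h5 := sum_halves43 hW hB (grid B x₁ x₂) hmeas hsub
    have h6 : ((x₂ : ℝ) - x₁) * B + 3 ≤ 10 ^ 8 * W.m := by
      have h7 : ((x₂ : ℝ) - x₁) * B ≤ 1 * B :=
        mul_le_mul_of_nonneg_right (by linarith) hBR.le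
      rw [one_mul] at h7
      linarith
    have h7 : ENNReal.ofReal (∑ a ∈ grid B (x₁ : ℝ) x₂,
        (volume (W.Hf ((a : ℚ) / B) (10 / B))).toReal) ≤ 4 * volume (HK W) := by
      rw [ENNReal.ofReal_sum_of_nonneg fun a _ => ENNReal.toReal_nonneg]
      exact (Finset.sum_le_sum fun a _ => ENNReal.ofReal_toReal_le).trans h5
    have h0 : 0 ≤ ∑ a ∈ grid B (x₁ : ℝ) x₂, (volume (W.Hf ((a : ℚ) / B) (10 / B))).toReal :=
      Finset.sum_nonneg fun a _ => ENNReal.toReal_nonneg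
    calc ENNReal.ofReal ((∑ a ∈ grid B (x₁ : ℝ) x₂, diam (W.Gt ((a : ℚ) / B) (10 / B))) ^ 2)
        ≤ ENNReal.ofReal (10 ^ 8 * W.m * 10 ^ 12 *
            ∑ a ∈ grid B (x₁ : ℝ) x₂, (volume (W.Hf ((a : ℚ) / B) (10 / B))).toReal) := by
          refine ENNReal.ofReal_le_ofReal (k3.trans ?_)
          rw [← mul_assoc]
          exact mul_le_mul_of_nonneg_right (mul_le_mul_of_nonneg_right h6 (by norm_num)) h0
      _ = ENNReal.ofReal (10 ^ 8 * W.m * 10 ^ 12) * ENNReal.ofReal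
            (∑ a ∈ grid B (x₁ : ℝ) x₂, (volume (W.Hf ((a : ℚ) / B) (10 / B))).toReal) := by
          rw [ENNReal.ofReal_mul (by positivity)]
      _ ≤ ENNReal.ofReal (10 ^ 8 * W.m * 10 ^ 12) * (4 * volume (HK W)) := by gcongr
      _ = ENNReal.ofReal (10 ^ 8 * W.m * 10 ^ 12) * ENNReal.ofReal 4 * volume (HK W) := by
          rw [show (4 : ℝ≥0∞) = ENNReal.ofReal 4 by simp, ← mul_assoc]
      _ = ENNReal.ofReal (10 ^ 8 * W.m * 10 ^ 12 * 4) * volume (HK W) := by
          rw [← ENNReal.ofReal_mul (by positivity)]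
      _ ≤ ENNReal.ofReal (10 ^ 21 * W.m) * volume (HK W) := by
          refine mul_le_mul' (ENNReal.ofReal_le_ofReal ?_) le_rfl
          linarith

end Pool.Agent.Work.MLC.Uni
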