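import Pool.Agent.Work.MLC.Uni0
import Pool.Agent.Work.MLC.Res31_6
import Pool.Agent.Work.MLC.CntF60
import Pool.Agent.Work.MLC.CntT60
import Pool.Agent.Work.MLC.CntPsi36

set_option autoImplicit false

/-! # Theorem U, module U_irr: irrational rotation numbers (helper60) -/

namespace Pool.Agent.Work.MLC.Uni

open Filter Topology Metric Set Complex MeasureTheory
open Pool.Agent.Work.MLC.Sat Pool.Agent.Work.MLC.Cnt

namespace I60

variable {W : WS}

lemma rt_eq (hW : W.Ok) {y : ℚ} (h0 : 0 < y) (h1 : y < 1) :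
    rt (W.dat y) = W.c (2 * Real.pi * ((y : ℝ) : ℂ) * I) := by
  rw [rt, WS.dat_c hW h0 h1, WS.dat_a hW h0 h1, axisPt_eq]

/-- **the size of a limb** -/
lemma limb_dist (hW : W.Ok) {y : ℚ} (h0 : 0 < y) (h1 : y < 1) {z : ℂ} (hz : z ∈ Lm (W.dat y)) :
    dist z (rt (W.dat y)) ≤ 2 * 10 ^ 27 * ((W.m : ℝ) ^ 12 / y.den) := by
  set D := W.dat y with hD
  have hP : D.Par := WS.dat_par hW h0 h1
  have hC : D.Cir := WS.dat_cir hW h0 h1
  have hDm : D.m = W.m := WS.dat_m hW h0 h1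
  have hDx : D.x = y := WS.dat_x hW h0 h1
  have haB := CH.a_mem hP
  have h3 := hP.sec D.a haB
  have h4 : mul D.m (rt D, D.b D.a) = Complex.exp (axisPt D.x) := h3.2
  have h5 : it (rt D) D.m (D.b D.a) = D.b D.a := h3.1
  have hnum : 0 < y.num := Rat.num_pos.2 h0
  have hlt : y.num < y.den := Rat.num_lt_denom_iff.2 h1
  have hnn : ((y.num.toNat : ℕ) : ℤ) = y.num := Int.toNat_of_nonneg hnum.le
  have hcop : Nat.Coprime y.num.toNat y.den := by
    have h7 := y.reduced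
    have h8 : y.num.natAbs = y.num.toNat := by omega
    rwa [h8] at h7
  have hx : y = ((y.num.toNat : ℕ) : ℚ) / (y.den : ℚ) := by
    have h9 : ((y.num.toNat : ℕ) : ℚ) = (y.num : ℚ) := by
      have : (((y.num.toNat : ℕ) : ℤ) : ℚ) = (y.num : ℚ) := by rw [hnn]
      exact_mod_cast this
    rw [h9, Rat.num_div_den]
  rw [hDx, hDm] at h4
  rw [hDm] at h5
  have h6 := (res31_limbBound W.m y.num.toNat y.den (rt D) (D.b D.a) hW.wide.pos (by omega)
    (by omega) hcop h5 (by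
      rw [← axis_pq hx, ← h4]
      exact (Pool.Agent.Work.MLC.hasDerivAt_it (rt D) W.m (D.b D.a)).deriv)).1 z ?_
  · exact h6.2
  · have h7 : z ∈ Sep (rt D) := by rw [n6_sep D hP hC]; exact hz
    exact ⟨h7.1, h7.2.2⟩

/-- a point with a multiplier of modulus at most one is in `MM` -/
lemma c_mem_MM (hW : W.Ok) {L : ℂ} (hL : L ∈ Pri.D0 W.m) (hre : L.re ≤ 0) : W.c L ∈ MM := by
  by_contra hM
  have h2 := hW.wide.sec L hL
  have h3 : 1 < ‖mult W.m (W.σ L).1 (W.σ L).2‖ :=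
    one_lt_norm_mult_of_ext hW.wide.pos (not_mem_MM_iff.1 hM) h2.1
  have h4 : mult W.m (W.σ L).1 (W.σ L).2 = exp L := h2.2
  rw [h4, Complex.norm_exp, Real.one_lt_exp_iff] at h3
  linarith

lemma c_contAt (hW : W.Ok) {L : ℂ} (hL : L ∈ Pri.D0 W.m) : ContinuousAt W.c L :=
  continuous_fst.continuousAt.comp (hW.wide.cont.continuousAt ((Pri.isOpen_D0 _).mem_nhds hL))

lemma c_map (hW : W.Ok) {L : ℂ} (hL : L ∈ Pri.D0 W.m) : Filter.map W.c (𝓝 L) = 𝓝 (W.c L) :=
  (section_strict (Pri.goodDom_D0 hW.wide.pos) hW.wide.cont hW.wide.sec hL).map_nhds_eq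
    (section_deriv_ne_zero (Pri.goodDom_D0 hW.wide.pos) hW.wide.cont hW.wide.sec hL)

/-- the chart is injective near every point -/
lemma c_inj (hW : W.Ok) {L : ℂ} (hL : L ∈ Pri.D0 W.m) : ∃ r : ℝ, 0 < r ∧
    ball L r ⊆ Pri.D0 W.m ∧ InjOn W.c (ball L r) := by
  have h1 := section_strict (Pri.goodDom_D0 hW.wide.pos) hW.wide.cont hW.wide.sec hL
  have h2 := section_deriv_ne_zero (Pri.goodDom_D0 hW.wide.pos) hW.wide.cont hW.wide.sec hL
  have hs := h1.hasStrictFDerivAt_equiv h2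
  have hS : (hs.toOpenPartialHomeomorph _).source ∈ 𝓝 L :=
    (hs.toOpenPartialHomeomorph _).open_source.mem_nhds hs.mem_toOpenPartialHomeomorph_source
  have hinj : InjOn W.c (hs.toOpenPartialHomeomorph _).source := by
    have := (hs.toOpenPartialHomeomorph _).injOn
    rwa [HasStrictFDerivAt.toOpenPartialHomeomorph_coe] at this
  obtain ⟨r, hr, hsub⟩ := Metric.mem_nhds_iff.1 (inter_mem hS ((Pri.isOpen_D0 W.m).mem_nhds hL))
  exact ⟨r, hr, hsub.trans inter_subset_right, hinj.mono (hsub.trans inter_subset_left)⟩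

/-- the limbs and the axis near an irrational point of the axis -/
lemma small (hW : W.Ok) {ν : ℝ} (h0 : 0 < ν) (h1 : ν < 1) (hν : Irrational ν) {ε : ℝ}
    (hε : 0 < ε) : ∃ δ : ℝ, 0 < δ ∧
      (∀ y : ℝ, |y - ν| < δ → dist (W.c (2 * Real.pi * y * I)) (W.c (2 * Real.pi * ν * I)) < ε) ∧
      ∀ y : ℚ, 0 < y → y < 1 → |(y : ℝ) - ν| < δ → ∀ z ∈ Lm (W.dat y),
        dist z (W.c (2 * Real.pi * ν * I)) < ε := by
  have hL := T60.axis_mem_D0 hW.wide.pos h0 h1
  have hc : ContinuousAt (fun y : ℝ => W.c (2 * Real.pi * y * I)) ν := by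
    have h2 : ContinuousAt (fun y : ℝ => (2 * Real.pi * y * I : ℂ)) ν := by
      have : Continuous fun y : ℝ => (2 * Real.pi * y * I : ℂ) := by fun_prop
      exact this.continuousAt
    exact ContinuousAt.comp (f := fun y : ℝ => (2 * Real.pi * y * I : ℂ)) (c_contAt hW hL) h2
  obtain ⟨δ₁, hδ₁, h2⟩ := Metric.continuousAt_iff.1 hc (ε / 2) (by positivity)
  obtain ⟨N, hN⟩ := exists_nat_gt (2 * 10 ^ 27 * (W.m : ℝ) ^ 12 / (ε / 2))
  have h3 := hν.eventually_forall_le_dist_cast_rat_of_den_le N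
  obtain ⟨δ₂, h4, h5⟩ := ((h3.filter_mono (nhdsWithin_le_nhds (s := Ioi 0))).and
    self_mem_nhdsWithin).exists
  have hδ₂ : 0 < δ₂ := h5
  refine ⟨min δ₁ δ₂, lt_min hδ₁ hδ₂, ?_, ?_⟩
  · intro y hy
    have := h2 (x := y) (by rw [Real.dist_eq]; exact hy.trans_le (min_le_left _ _))
    linarith
  · intro y hy0 hy1 hy z hz
    have h6 := h2 (x := (y : ℝ)) (by rw [Real.dist_eq]; exact hy.trans_le (min_le_left _ _))
    have h7 := limb_dist hW hy0 hy1 hz
    rw [rt_eq hW hy0 hy1] at h7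
    have h8 : N < y.den := by
      by_contra hcon
      push Not at hcon
      have h9 := h4 y hcon
      rw [Real.dist_eq, abs_sub_comm] at h9
      exact absurd (hy.trans_le (min_le_right _ _)) (not_lt.2 h9)
    have hd : (0 : ℝ) < y.den := by exact_mod_cast y.pos
    have h9 : 2 * 10 ^ 27 * ((W.m : ℝ) ^ 12 / y.den) < ε / 2 := by
      have h10 : 2 * 10 ^ 27 * (W.m : ℝ) ^ 12 / (ε / 2) < y.den := by
        have : (N : ℝ) < y.den := by exact_mod_cast h8
        linarith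
      rw [div_lt_iff₀ (by positivity)] at h10
      rw [← mul_div_assoc, div_lt_iff₀ hd]
      linarith
    calc dist z (W.c (2 * Real.pi * ν * I)) ≤ dist z (W.c (2 * Real.pi * ((y : ℝ) : ℂ) * I)) +
          dist (W.c (2 * Real.pi * ((y : ℝ) : ℂ) * I)) (W.c (2 * Real.pi * ν * I)) :=
            dist_triangle _ _ _
      _ < ε := by linarith

/-- rationals on both sides -/
lemma rats {ν δ : ℝ} (h0 : 0 < ν) (h1 : ν < 1) (hδ : 0 < δ) : ∃ x₁ x₂ : ℚ, 0 < x₁ ∧ x₂ < 1 ∧
    (x₁ : ℝ) < ν ∧ ν < x₂ ∧ x₁ < x₂ ∧ ν - δ < x₁ ∧ (x₂ : ℝ) < ν + δ := by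
  obtain ⟨x₁, h2, h3⟩ := exists_rat_btwn (show max 0 (ν - δ) < ν from max_lt h0 (by linarith))
  obtain ⟨x₂, h4, h5⟩ := exists_rat_btwn (show ν < min 1 (ν + δ) from lt_min h1 (by linarith))
  refine ⟨x₁, x₂, ?_, ?_, h3, h4, ?_, (le_max_right _ _).trans_lt h2, h5.trans_le (min_le_right _ _)⟩
  · have : (0 : ℝ) < x₁ := (le_max_left _ _).trans_lt h2
    exact_mod_cast this
  · have : (x₂ : ℝ) < 1 := h5.trans_le (min_le_left _ _)
    exact_mod_cast this
  · have : (x₁ : ℝ) < x₂ := h3.trans h4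
    exact_mod_cast this

/-- the angle is between the plateaus -/
lemma between (hW : W.Ok) {θ : ℝ} {x₁ x₂ : ℚ} (h0 : 0 < x₁) (h1 : x₂ < 1) (h12 : x₁ < x₂)
    (h2 : (x₁ : ℝ) < W.nu θ) (h3 : W.nu θ < x₂) : (W.dat x₁).tm < θ ∧ θ < (W.dat x₂).tp := by
  have hx1 : x₁ < 1 := h12.trans h1
  have hx2 : 0 < x₂ := h0.trans h12
  have a1 := (WS.plateau hW h0 hx1 (W.dat x₁).tm).2 ⟨le_rfl, (WS.dat_cir hW h0 hx1).lt.le⟩
  have a2 := (WS.plateau hW hx2 h1 (W.dat x₂).tp).2 ⟨(WS.dat_cir hW hx2 h1).lt.le, le_rfl⟩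
  constructor
  · by_contra hcon
    push Not at hcon
    have := WS.nu_mono W hcon
    linarith
  · by_contra hcon
    push Not at hcon
    have := WS.nu_mono W hcon
    linarith

/-- **the ends of the rays are away from the other points** -/
lemma ray_away (hW : W.Ok) {y : ℚ} (h0 : 0 < y) (h1 : y < 1) {c₀ : ℂ} (hM : c₀ ∈ MM)
    (hc : c₀ ≠ rt (W.dat y)) {t : ℝ} (ht : t = (W.dat y).tm ∨ t = (W.dat y).tp) :
    ∀ᶠ c in 𝓝 c₀, ∀ u : ℝ, 0 < u → c ≠ cOf ((u : ℂ) + 2 * Real.pi * t * I) := by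
  set D := W.dat y with hD
  have hP : D.Par := WS.dat_par hW h0 h1
  have hC : D.Cir := WS.dat_cir hW h0 h1
  have hd : 0 < dist (rt D) c₀ := dist_pos.2 hc.symm
  set η : ℝ := dist (rt D) c₀ / 2 with hη
  have hη0 : 0 < η := by rw [hη]; linarith
  have hmD : D.a ∈ Pri.D0 W.m := by
    rw [WS.dat_a hW h0 h1, axisPt_eq]
    exact T60.axis_mem_D0 hW.wide.pos (by exact_mod_cast h0) (by exact_mod_cast h1)
  have hca : ContinuousAt W.c D.a := c_contAt hW hmD
  obtain ⟨s₀, hs₀, hs⟩ := Metric.continuousAt_iff.1 hca η hη0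
  set s : ℝ := min (s₀ / 2) (sG D) with hs'
  have hs0 : 0 < s := lt_min (by linarith) (CH.sG_pos hP)
  have hsub : D.c '' closedBall D.a s ⊆ ball (rt D) η := by
    rintro _ ⟨L, hL, rfl⟩
    have h3 : dist L D.a < s₀ := by
      have h4 : dist L D.a ≤ s := hL
      have h5 : s ≤ s₀ / 2 := min_le_left _ _
      linarith
    have h4 := hs h3
    show dist (D.c L) (rt D) < η
    rw [rt, WS.dat_c hW h0 h1, WS.dat_c hW h0 h1]
    exact h4
  -- the potential below which the ray is in the gate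
  set g₀ : ℝ := Real.exp (-(130000 * (D.m : ℝ) ^ 3 * D.x.den / s ^ 4)) with hg₀
  have hg₀0 : 0 < g₀ := Real.exp_pos _
  have hray : ∀ g : ℝ, 0 < g → g ≤ g₀ → cOf ((g : ℂ) + 2 * Real.pi * t * I) ∈ ball (rt D) η := by
    intro g hg hgg
    have h3 : 130000 * (D.m : ℝ) ^ 3 * D.x.den ≤ s ^ 4 * (-Real.log g) := by
      have h4 : Real.log g ≤ -(130000 * (D.m : ℝ) ^ 3 * D.x.den / s ^ 4) := by
        rw [Real.log_le_iff_le_exp hg]; exact hgg
      have h5 : 130000 * (D.m : ℝ) ^ 3 * D.x.den / s ^ 4 ≤ -Real.log g := by linarith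
      rw [div_le_iff₀ (by positivity)] at h5
      linarith
    have h4 := n2_ray D hP hC s g hs0 (min_le_right _ _) hg h3
    rcases ht with rfl | rfl
    · exact hsub h4.1
    · exact hsub h4.2
  have e1 : ∀ᶠ c in 𝓝 c₀, c ∈ ball c₀ η := ball_mem_nhds _ hη0
  have e2 : ∀ᶠ c in 𝓝 c₀, G c c < g₀ := by
    refine (continuous_G_diag.tendsto c₀).eventually (eventually_lt_nhds ?_)
    rw [mem_M_iff'.1 hM]; exact hg₀0
  filter_upwards [e1, e2] with c h3 h4 u hu hcu
  have h5 : G c c = u := by rw [hcu, G_cOf (by rw [CH.re_pt]; exact hu), CH.re_pt]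
  have h6 := hray u hu (by rw [← h5]; exact h4.le)
  rw [← hcu] at h6
  have h7 : dist (rt D) c₀ ≤ dist c (rt D) + dist c c₀ := by
    have := dist_triangle (rt D) c c₀
    rwa [dist_comm (rt D) c] at this
  have h8 : dist c (rt D) < η := h6
  have h9 : dist c c₀ < η := h3
  rw [hη] at h8 h9
  linarith

end I60

/-- **module U_irr** -/
theorem u_irr : U_irr := by
  rintro θ ⟨W, hW, hν0, hν1, hνi⟩
  set ν : ℝ := W.nu θ with hν
  set L₀ : ℂ := 2 * Real.pi * ν * I with hL₀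
  have hm := hW.wide.pos
  have hm0 : (0 : ℝ) < W.m := by exact_mod_cast hm
  have hpi := Real.pi_pos
  have hL₀D : L₀ ∈ Pri.D0 W.m := T60.axis_mem_D0 hm hν0 hν1
  have hL₀re : L₀.re = 0 := by simp [hL₀]
  have hcM : W.c L₀ ∈ MM := I60.c_mem_MM hW hL₀D hL₀re.le
  refine ⟨W.c L₀, hcM, ?_, ?_⟩
  · -- the limit
    refine tendsto_Psi_of_unique fun g t c hg hg0 ht hc => ?_
    have hM : c ∈ MM := by
      refine mem_MM_of_tendsto (u := fun n => (g n : ℂ) + 2 * Real.pi * t n * I) ?_ ?_ hc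
      · intro n
        rw [CH.re_pt]; exact hg n
      · refine hg0.congr fun n => ?_
        rw [CH.re_pt]
    refine eq_of_forall_dist_le fun ε hε => ?_
    obtain ⟨δ, hδ, h2, h3⟩ := I60.small hW hν0 hν1 hνi hε
    obtain ⟨x₁, x₂, hx0, hx1, hx3, hx4, hx5, hx6, hx7⟩ := I60.rats hν0 hν1 hδ
    obtain ⟨h4, h5⟩ := I60.between hW hx0 hx1 hx5 hx3 hx4
    have hcl : c ∈ closure (T60.Ext (W.dat x₁).tm (W.dat x₂).tp 1) := by
      refine mem_closure_of_tendsto hc ?_
      filter_upwards [hg0.eventually_lt_const one_pos, ht.eventually_const_lt h4,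
        ht.eventually_lt_const h5] with n h6 h7 h8
      refine ⟨_, ⟨?_, ?_, ?_, ?_⟩, rfl⟩
      · rw [CH.re_pt]; exact hg n
      · rw [CH.re_pt]; exact h6
      · rw [CH.im_pt]; exact mul_lt_mul_of_pos_left h7 (by positivity)
      · rw [CH.im_pt]; exact mul_lt_mul_of_pos_left h8 (by positivity)
    rcases T60.limit_Ext hW hx0 hx5 hx1 hM hcl with ⟨y, hy1, hy2, hy⟩ | ⟨y, hy1, hy2, hy⟩
    · have hy1' : (x₁ : ℝ) ≤ y := by exact_mod_cast hy1
      have hy2' : (y : ℝ) ≤ x₂ := by exact_mod_cast hy2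
      exact (h3 y (hx0.trans_le hy1) (hy2.trans_lt hx1)
        (abs_lt.2 ⟨by linarith, by linarith⟩) c hy).le
    · rw [hy]
      exact (h2 y (abs_lt.2 ⟨by linarith, by linarith⟩)).le
  · -- local connectivity
    intro U hU
    obtain ⟨ε₀, hε₀, hεU⟩ := Metric.mem_nhds_iff.1 hU
    set ε : ℝ := ε₀ / 2 with hε
    have hε0 : 0 < ε := by rw [hε]; linarith
    obtain ⟨δ, hδ, h2, h3⟩ := I60.small hW hν0 hν1 hνi hε0
    obtain ⟨r, hr, hrD, hinj⟩ := I60.c_inj hW hL₀D
    have hcc := I60.c_contAt hW hL₀D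
    obtain ⟨r', hr', hrε⟩ := Metric.continuousAt_iff.1 hcc ε hε0
    set ρ₁ : ℝ := min r r' / 2 with hρ₁
    have hρ₁0 : 0 < ρ₁ := by rw [hρ₁]; have := lt_min hr hr'; positivity
    have hρ₁r : ρ₁ < r := by
      have := min_le_left r r'
      rw [hρ₁]; have := lt_min hr hr'; linarith
    have hρ₁r' : ρ₁ < r' := by
      have := min_le_right r r'
      rw [hρ₁]; have := lt_min hr hr'; linarith
    obtain ⟨x₁, x₂, hx0, hx1, hx3, hx4, hx5, hx6, hx7⟩ := I60.rats hν0 hν1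
      (lt_min hδ (show 0 < ρ₁ / (2 * Real.pi) by positivity))
    have hxa : ∀ y : ℝ, (x₁ : ℝ) ≤ y → y ≤ x₂ → |y - ν| < δ := fun y hy1 hy2 => by
      have := min_le_left δ (ρ₁ / (2 * Real.pi))
      exact abs_lt.2 ⟨by linarith, by linarith⟩
    have hxb : ∀ y : ℝ, (x₁ : ℝ) ≤ y → y ≤ x₂ → (2 * Real.pi * y * I : ℂ) ∈ ball L₀ ρ₁ := by
      intro y hy1 hy2
      have h4 : |y - ν| < ρ₁ / (2 * Real.pi) := by
        have := min_le_right δ (ρ₁ / (2 * Real.pi))
        exact abs_lt.2 ⟨by linarith, by linarith⟩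
      have h5 : (2 * Real.pi * y * I : ℂ) - L₀ = ((2 * Real.pi * (y - ν) : ℝ) : ℂ) * I := by
        rw [hL₀]; push_cast; ring
      rw [mem_ball, dist_eq_norm, h5, norm_mul, norm_I, mul_one, norm_real, Real.norm_eq_abs,
        abs_mul, abs_of_pos Real.two_pi_pos]
      rw [lt_div_iff₀ Real.two_pi_pos] at h4
      linarith
    -- the sets
    set A : Set ℂ := W.c '' (closedBall L₀ ρ₁ ∩ {L | L.re ≤ 0}) with hA
    set K' : Set ℂ := A ∪ ⋃ y ∈ {y : ℚ | x₁ ≤ y ∧ y ≤ x₂}, (Lm (W.dat y) ∪ {rt (W.dat y)}) with hK'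
    have hballr : closedBall L₀ ρ₁ ⊆ ball L₀ r := closedBall_subset_ball hρ₁r
    have hAc : IsPreconnected A := by
      refine (((convex_closedBall L₀ ρ₁).inter ?_).isPreconnected).image _ ?_
      · have := convex_halfSpace_re_le 0
        exact this
      · intro L hL
        exact (I60.c_contAt hW (hrD (hballr hL.1))).continuousWithinAt
    have hcA : W.c L₀ ∈ A := ⟨L₀, ⟨mem_closedBall_self hρ₁0.le, hL₀re.le⟩, rfl⟩
    have hrtA : ∀ y : ℚ, x₁ ≤ y → y ≤ x₂ → rt (W.dat y) ∈ A := by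
      intro y hy1 hy2
      rw [I60.rt_eq hW (hx0.trans_le hy1) (hy2.trans_lt hx1)]
      refine ⟨_, ⟨ball_subset_closedBall (hxb y (by exact_mod_cast hy1) (by exact_mod_cast hy2)),
        ?_⟩, rfl⟩
      show (2 * Real.pi * ((y : ℝ) : ℂ) * I : ℂ).re ≤ 0
      simp
    have hAM : A ⊆ MM := by
      rintro _ ⟨L, ⟨hL1, hL2⟩, rfl⟩
      exact I60.c_mem_MM hW (hrD (hballr hL1)) hL2
    have hAε : A ⊆ ball (W.c L₀) ε := by
      rintro _ ⟨L, ⟨hL1, hL2⟩, rfl⟩
      have hL3 : dist L L₀ ≤ ρ₁ := hL1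
      exact hrε (by linarith)
    have hK'M : K' ⊆ MM := by
      rintro z (hz | hz)
      · exact hAM hz
      · rw [mem_iUnion₂] at hz
        obtain ⟨y, ⟨hy1, hy2⟩, hz | hz⟩ := hz
        · exact hz.1
        · rw [mem_singleton_iff.1 hz]
          exact hAM (hrtA y hy1 hy2)
    have hK'ε : K' ⊆ ball (W.c L₀) ε := by
      rintro z (hz | hz)
      · exact hAε hz
      · rw [mem_iUnion₂] at hz
        obtain ⟨y, ⟨hy1, hy2⟩, hz | hz⟩ := hz
        · exact h3 y (hx0.trans_le hy1) (hy2.trans_lt hx1) (hxa y (by exact_mod_cast hy1)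
            (by exact_mod_cast hy2)) z hz
        · rw [mem_singleton_iff.1 hz]
          exact hAε (hrtA y hy1 hy2)
    have hK'c : IsPreconnected K' := by
      refine isPreconnected_of_forall (W.c L₀) fun z hz => ?_
      rcases hz with hz | hz
      · exact ⟨A, subset_union_left, hcA, hz, hAc⟩
      · rw [mem_iUnion₂] at hz
        obtain ⟨y, ⟨hy1, hy2⟩, hz⟩ := hz
        have hy0 := hx0.trans_le hy1
        have hyl := hy2.trans_lt hx1
        refine ⟨A ∪ (Lm (W.dat y) ∪ {rt (W.dat y)}), ?_, Or.inl hcA, Or.inr hz, ?_⟩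
        · refine union_subset_union_right _ fun z hz => ?_
          rw [mem_iUnion₂]
          exact ⟨y, ⟨hy1, hy2⟩, hz⟩
        · exact IsPreconnected.union (rt (W.dat y)) (hrtA y hy1 hy2) (Or.inr rfl) hAc
            (CH.preconn_K n5_open n5_closed (WS.dat_par hW hy0 hyl) (WS.dat_cir hW hy0 hyl))
    refine ⟨closure K', ?_, ?_, ?_, ?_⟩
    · refine subset_inter (closure_minimal hK'M isCompact_MM.isClosed) ?_
      refine (closure_mono hK'ε).trans (closure_ball_subset_closedBall.trans ?_)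
      refine Subset.trans ?_ hεU
      exact closedBall_subset_ball (by rw [hε]; linarith)
    · exact isCompact_MM.of_isClosed_subset isClosed_closure
        (closure_minimal hK'M isCompact_MM.isClosed)
    · exact ⟨⟨_, subset_closure (Or.inl hcA)⟩, hK'c.closure⟩
    · -- the neighbourhood
      have hne : ∀ y : ℚ, x₁ ≤ y → y ≤ x₂ → W.c L₀ ≠ rt (W.dat y) := by
        intro y hy1 hy2 hcon
        rw [I60.rt_eq hW (hx0.trans_le hy1) (hy2.trans_lt hx1)] at hcon
        have h4 := hinj (mem_ball_self hr) (hballr (ball_subset_closedBall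
          (hxb y (by exact_mod_cast hy1) (by exact_mod_cast hy2)))) hcon
        have h5 := congrArg Complex.im h4
        rw [hL₀] at h5
        simp at h5
        exact hνi ⟨y, h5.symm⟩
      have e1 := I60.ray_away hW hx0 (hx5.trans hx1) hcM (hne x₁ le_rfl hx5.le) (Or.inl rfl)
      have e2 := I60.ray_away hW (hx0.trans hx5) hx1 hcM (hne x₂ hx5.le le_rfl) (Or.inr rfl)
      have e3 : ∀ᶠ c in 𝓝 (W.c L₀), G c c < 1 := by
        refine (continuous_G_diag.tendsto _).eventually (eventually_lt_nhds ?_)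
        rw [mem_M_iff'.1 hcM]; exact one_pos
      obtain ⟨ρ₂, hρ₂, hN⟩ := Metric.mem_nhds_iff.1 (hcc.eventually ((e1.and e2).and e3))
      -- the radius for the exterior points
      set x₀ : ℝ := min (ν - x₁) (x₂ - ν) with hx₀
      have hx₀0 : 0 < x₀ := lt_min (by linarith) (by linarith)
      set η : ℝ := min 1 (x₀ ^ 2 / (81 * W.m)) with hη
      have hη0 : 0 < η := lt_min one_pos (by positivity)
      set ρ : ℝ := min (min ρ₁ ρ₂) (min x₀ η) with hρ
      have hρ0 : 0 < ρ := lt_min (lt_min hρ₁0 hρ₂) (lt_min hx₀0 hη0)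
      have hρ1 : ρ ≤ ρ₁ := (min_le_left _ _).trans (min_le_left _ _)
      have hρ2 : ρ ≤ ρ₂ := (min_le_left _ _).trans (min_le_right _ _)
      have hρ3 : ρ ≤ x₀ := (min_le_right _ _).trans (min_le_left _ _)
      have hρ4 : ρ ≤ x₀ ^ 2 / (81 * W.m) :=
        ((min_le_right _ _).trans (min_le_right _ _)).trans (min_le_right _ _)
      set B : Set ℂ := ball L₀ ρ ∩ {L | 0 < L.re} with hB
      have hBD : B ⊆ Pri.D0 W.m := fun L hL => hrD (hballr (ball_subset_closedBall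
        (ball_subset_ball hρ1 hL.1)))
      set R : Set ℂ := T60.Reg W x₁ x₂ 1 with hR
      have hBc : IsPreconnected (W.c '' B) := by
        refine (((convex_ball L₀ ρ).inter (convex_halfSpace_re_gt 0)).isPreconnected).image _ ?_
        intro L hL
        exact (I60.c_contAt hW (hBD hL)).continuousWithinAt
      have hBR : (W.c '' B ∩ R).Nonempty := by
        have h4 := hW.wide.exists_ext (y := 2 * Real.pi * ν) (by positivity) (by nlinarith)
        have h5 : ((2 * Real.pi * ν : ℝ) : ℂ) * I = L₀ := by rw [hL₀]; push_cast; ring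
        rw [h5] at h4
        obtain ⟨L, ⟨hLD, hLre, hLM⟩, hLb⟩ := (h4.and_eventually (ball_mem_nhds L₀ hρ0)).exists
        refine ⟨W.c L, ⟨L, ⟨hLb, hLre⟩, rfl⟩, Or.inl ?_⟩
        obtain ⟨θ', hT⟩ := hW.wide.ang L hLD hLM
        have h6 := hW.wide.ply L hLD θ' hT
        have h7 : (2 * Real.pi * ((Circ.nu W.w W.m θ' - W.k : ℝ) : ℂ) * I : ℂ) =
          2 * Real.pi * ((W.nu θ' : ℝ) : ℂ) * I := rfl
        rw [h7] at h6
        have hb : ‖L - L₀‖ < ρ := by rw [← dist_eq_norm]; exact hLb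
        have h8 : L.re < ρ := by
          have h9 := Complex.abs_re_le_norm (L - L₀)
          rw [Complex.sub_re, hL₀re, sub_zero, abs_of_pos hLre] at h9
          linarith
        have h9 : ‖L - 2 * Real.pi * ((W.nu θ' : ℝ) : ℂ) * I‖ < x₀ := by
          refine lt_of_pow_lt_pow_left₀ 2 hx₀0.le (h6.trans_lt ?_)
          have h10 : L.re < x₀ ^ 2 / (81 * W.m) := h8.trans_le hρ4
          rw [lt_div_iff₀ (by positivity)] at h10
          linarith
        have h10 : |W.nu θ' - ν| < x₀ := by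
          have h11 : (2 * Real.pi * (W.nu θ' - ν) : ℝ) =
              ((L - L₀) - (L - 2 * Real.pi * ((W.nu θ' : ℝ) : ℂ) * I)).im := by
            rw [hL₀]; simp; ring
          have h12 := Complex.abs_im_le_norm
            ((L - L₀) - (L - 2 * Real.pi * ((W.nu θ' : ℝ) : ℂ) * I))
          rw [← h11, abs_mul, abs_of_pos Real.two_pi_pos] at h12
          have h13 := norm_sub_le (L - L₀) (L - 2 * Real.pi * ((W.nu θ' : ℝ) : ℂ) * I)
          have h14 : 2 * Real.pi * |W.nu θ' - ν| < 2 * x₀ := by linarith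
          have h15 : 2 * |W.nu θ' - ν| ≤ 2 * Real.pi * |W.nu θ' - ν| := by
            have := Real.pi_gt_three
            nlinarith [abs_nonneg (W.nu θ' - ν)]
          linarith
        obtain ⟨h11, h12⟩ := abs_lt.1 h10
        have h13 : x₀ ≤ ν - x₁ := min_le_left _ _
        have h14 : x₀ ≤ x₂ - ν := min_le_right _ _
        obtain ⟨h15, h16⟩ := I60.between hW hx0 hx1 hx5 (show (x₁ : ℝ) < W.nu θ' by linarith)
          (show W.nu θ' < x₂ by linarith)
        have h17 := hN (ball_subset_ball hρ2 hLb)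
        exact T60.mem_Ext (k := 0) hT.1.ang h17.2 (by simpa using h15) (by simpa using h16)
      have hBfr : ∀ z ∈ W.c '' B, z ∉ frontier R := by
        rintro _ ⟨L, ⟨hLb, hLre⟩, rfl⟩ hfr
        obtain ⟨⟨h4, h5⟩, h6⟩ := hN (ball_subset_ball hρ2 hLb)
        rcases T60.frontier_Reg hW hx0 hx5 hx1 one_pos hfr with ⟨u, hu0, huh, h7 | h7⟩ | h7 |
          ⟨y, hy1, hy2, h7⟩
        · exact h4 u hu0 h7
        · exact h5 u hu0 h7
        · obtain ⟨u, -, h8⟩ := h7
          have h9 : G (W.c L) (W.c L) = 1 := by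
            rw [← h8]
            show G (cOf (((1 : ℝ) : ℂ) + 2 * Real.pi * u * I))
              (cOf (((1 : ℝ) : ℂ) + 2 * Real.pi * u * I)) = 1
            rw [G_cOf (by rw [CH.re_pt]; exact one_pos), CH.re_pt]
          rw [h9] at h6
          exact lt_irrefl _ h6
        · have h8 := hinj (hballr (ball_subset_closedBall (ball_subset_ball hρ1 hLb)))
            (hballr (ball_subset_closedBall (hxb y hy1 hy2))) h7
          rw [h8] at hLre
          simp at hLre
      have hBsub : W.c '' B ⊆ R := by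
        intro z hz
        by_contra hzR
        obtain ⟨w, hw1, hw2⟩ := T60.inter_frontier hBc hBR ⟨z, hz, hzR⟩
        exact hBfr w hw1 hw2
      have hNb : W.c '' (ball L₀ ρ) ∈ 𝓝 (W.c L₀) := by
        rw [← I60.c_map hW hL₀D]
        exact image_mem_map (ball_mem_nhds _ hρ0)
      refine mem_of_superset (inter_mem self_mem_nhdsWithin (mem_nhdsWithin_of_mem_nhds hNb)) ?_
      rintro _ ⟨hzM, L, hL, rfl⟩
      refine subset_closure ?_
      rcases le_or_gt L.re 0 with h4 | h4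
      · exact Or.inl ⟨L, ⟨ball_subset_closedBall (ball_subset_ball hρ1 hL), h4⟩, rfl⟩
      · rcases hBsub ⟨L, ⟨hL, h4⟩, rfl⟩ with h5 | ⟨y, hy1, hy2, h5⟩
        · obtain ⟨θ', h6, -, -⟩ := T60.ang_Ext h5
          exact absurd hzM (not_mem_MM_iff.2 h6.1)
        · right
          rw [mem_iUnion₂]
          exact ⟨y, ⟨hy1, hy2⟩, Or.inl h5⟩

end Pool.Agent.Work.MLC.Uni
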