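import Pool.Agent.Work.MLC.Uni0
import Pool.Agent.Work.MLC.ShpP60
import Pool.Agent.Work.MLC.ShpS31
import Pool.Agent.Work.MLC.CapD43

set_option autoImplicit false

/-! # Theorem U, module `U_lam`: wakes are nested or disjoint, without common ends (helper57)

The separation of adjacent wakes is the argument of helper90 in `ShpT`. -/

namespace Pool.Agent.Work.MLC.Uni

open Filter Topology Metric Set
open Pool.Agent.Work.MLC.Sat Pool.Agent.Work.MLC.Cnt Pool.Agent.Work.MLC.Circ CircleDeg1Lift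
open Pool.Agent.Work.MLC.Shp

namespace L57

variable {m m' : ℕ} {α β α' β' : ℝ}

/-- the left end of a wake is not the right end of a strip (helper90) -/
lemma not_right (h : Wake m α β) (hm : 2 ≤ m) (hword : Word m (wR α))
    (hlt : ∀ θ, θ < α → nu (wR α) m θ < nu (wR α) m α) : False := by
  have hm0 : 0 < m := h.pos
  obtain ⟨B, hB⟩ := h.per'
  by_cases hc : ∃ j, 0 < j ∧ j < m ∧ ∃ l : ℤ, (2 : ℝ) ^ j * β + l = α
  · obtain ⟨j, hj, hjm, l, hl⟩ := hc
    obtain ⟨i, hi⟩ := hword.2.2 j hj hjm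
    apply hi
    obtain ⟨n, n', h1, h2, h3, h4, -⟩ := h.side_int i
    have hab := h.lt
    have e1 : ⌈(2 : ℝ) ^ (i + 1) * α - α⌉ = n + 1 := by
      rw [Int.ceil_eq_iff]
      push_cast
      constructor <;> linarith
    have e2 : ⌊(2 : ℝ) ^ (i + j + 1) * β - β⌋ = n - 2 ^ (i + 1) * l := by
      have e3 : (2 : ℝ) ^ (i + j + 1) * β = 2 ^ (i + 1) * (α - l) := by
        rw [← hl, show i + j + 1 = (i + 1) + j by ring, pow_add]; ring
      rw [e3, Int.floor_eq_iff]
      push_cast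
      constructor <;> linarith
    rw [h.wR_eq (i + j)]
    unfold wL wR
    rw [e1, e2]
    have : (2 : ℤ) ^ (i + 1) * l = 2 * (2 ^ i * l) := by rw [pow_succ]; ring
    omega
  · push Not at hc
    have hab := h.lt
    have hLm : ∀ l : ℤ, (2 : ℝ) ^ m * β + l ≠ α := by
      intro l hl
      have f0 := h.nonneg
      have f1 := h.le_one
      have f2 : ((B + l : ℤ) : ℝ) < ((0 : ℤ) : ℝ) := by push_cast; linarith
      have f3 : ((-1 : ℤ) : ℝ) ≤ ((B + l : ℤ) : ℝ) := by push_cast; linarith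
      have f4 := cast_lt_of f2
      have f5 := cast_le_of f3
      have f6 : B + l = -1 := by omega
      have f7 : (B : ℝ) + l = -1 := by exact_mod_cast f6
      have f8 : α = 0 := by linarith
      exact h.exact 1 one_pos (by omega) ⟨0, by rw [f8]; simp⟩
    have hne : ∀ i < m, ∀ l : ℤ, (2 : ℝ) ^ (i + 1) * β + l ≠ α := by
      intro i hi l
      rcases Nat.lt_or_ge (i + 1) m with h1 | h1
      · exact hc (i + 1) (by omega) h1 l
      · rw [show i + 1 = m by omega]; exact hLm l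
    have hev : ∀ᶠ θ : ℝ in 𝓝[<] α, ∀ i ∈ Finset.range m,
        (2 : ℝ) ^ (i + 1) * β - θ < ⌊(2 : ℝ) ^ (i + 1) * β - β⌋ + 1 := by
      rw [Filter.eventually_all_finset]
      intro i hi
      obtain ⟨n, n', h1, h2, h3, h4, -⟩ := h.side_int i
      have e2 : ⌊(2 : ℝ) ^ (i + 1) * β - β⌋ = n' := by
        rw [Int.floor_eq_iff]
        constructor <;> linarith
      have h5 : (2 : ℝ) ^ (i + 1) * β - α < n' + 1 := by
        refine lt_of_le_of_ne h4 fun hcon => hne i (Finset.mem_range.1 hi) (-(n' + 1)) ?_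
        push_cast
        linarith
      rw [e2]
      exact mem_nhdsWithin_of_mem_nhds ((isOpen_lt (f := fun s : ℝ => (2 : ℝ) ^ (i + 1) * β - s)
        (g := fun _ => (n' : ℝ) + 1) (by fun_prop) (by fun_prop)).mem_nhds h5)
    obtain ⟨θ₁, hθ₁, hθ₁α⟩ := (hev.and self_mem_nhdsWithin).exists
    have hθα : θ₁ < α := hθ₁α
    have hint : ∀ θ, θ₁ ≤ θ → θ ≤ α → ∃ k : ℤ, nu (wR α) m θ = k := by
      intro θ h1 h2
      have hw : wR α = wL β := funext fun j => h.wR_eq j
      obtain ⟨M, hM⟩ := gw_lin (wR α) θ β m fun i hi => by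
        set z := ⌊(2 : ℝ) ^ (i + 1) * β - β⌋ with hz
        have e1 := Int.floor_le ((2 : ℝ) ^ (i + 1) * β - β)
        have e2 := hθ₁ i (Finset.mem_range.2 hi)
        rw [← hz] at e1 e2
        have e3 : wR α i = z % 2 := by rw [hw]; rfl
        refine ⟨z / 2, ?_⟩
        have e4 : (wR α i : ℤ) + 2 * (z / 2) = z := by omega
        have e5 : (wR α i : ℝ) + 2 * ((z / 2 : ℤ) : ℝ) = z := by exact_mod_cast e4
        rw [pow_succ] at e1 e2
        constructor <;> linarith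
      refine ⟨B - M, ?_⟩
      have h3 : gw (wR α) θ m β = β + ((B - M : ℤ) : ℝ) := by
        rw [hM]; push_cast; linarith
      exact translationNumber_of_eq_add_int _ h3
    have h6 := nu_const_of_int hθα.le hint
    exact absurd h6 (hlt θ₁ hθα).ne

/-- the component of a wake with the ends of its strip -/
lemma ws (h : Wake m α β) (hm : 2 ≤ m) : ∃ W : WS, W.Ok ∧ W.m = m ∧ W.w = wL α ∧
    W.nu α = 0 ∧ W.nu β = 1 ∧ ∀ θ, α < θ → θ < β → 0 < W.nu θ ∧ W.nu θ < 1 := by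
  obtain ⟨k, hw, ha, hb, hk⟩ := h.strip hm
  obtain ⟨σ, hσ, hex⟩ := Pri.exists_wide_word h.pos hw k
  refine ⟨⟨m, wL α, k, σ⟩, ⟨hσ, hex⟩, rfl, rfl, ?_, ?_, fun θ h1 h2 => ?_⟩
  · unfold WS.nu; simp only; rw [ha]; ring
  · unfold WS.nu; simp only; rw [hb]; ring
  · obtain ⟨h3, h4⟩ := hk θ h1 h2
    unfold WS.nu
    constructor <;> simp only <;> linarith

lemma nu_cont (W : WS) : Continuous W.nu := by
  unfold WS.nu
  exact (nu_continuous W.w W.m).sub continuous_const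

/-- different wakes are not adjacent -/
lemma ne_adj (h : Wake m α β) (hm : 2 ≤ m) (h' : Wake m' α' β') (hm' : 2 ≤ m') : β ≠ α' := by
  intro he
  subst he
  have hmm : m = m' := by
    have h1 : m ∣ m' := by
      rw [← h.dvd']
      obtain ⟨a, ha⟩ := h'.per
      exact ⟨a, by linarith⟩
    have h2 : m' ∣ m := by
      rw [← h'.dvd]
      obtain ⟨a, ha⟩ := h.per'
      exact ⟨a, by linarith⟩
    exact Nat.dvd_antisymm h1 h2
  subst hmm
  obtain ⟨k, hw, ha, hb, hk⟩ := h.strip hm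
  have e : wR β = wL α := funext fun j => (h.wL_eq j).symm
  refine not_right h' hm (by rw [e]; exact hw) fun θ hθ => ?_
  rw [e, hb]
  rcases lt_or_ge α θ with h1 | h1
  · exact (hk θ h1 hθ).2
  · have h2 := nu_mono (wL α) m h1
    rw [ha] at h2
    linarith

/-- one angle with two irrational rotation numbers -/
lemma same_of_irr (h : Wake m α β) (h' : Wake m' α' β') {W W' : WS} (hW : W.Ok) (hW' : W'.Ok)
    (hm : W.m = m) (hm' : W'.m = m') (h0 : W.nu α = 0) (h1 : W.nu β = 1)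
    (hin : ∀ θ, α < θ → θ < β → 0 < W.nu θ ∧ W.nu θ < 1) (h0' : W'.nu α' = 0) (h1' : W'.nu β' = 1)
    (hin' : ∀ θ, α' < θ → θ < β' → 0 < W'.nu θ ∧ W'.nu θ < 1)
    {θ : ℝ} (a1 : α < θ) (a2 : θ < β) (b1 : α' < θ) (b2 : θ < β')
    (hi : Irrational (W.nu θ)) (hi' : Irrational (W'.nu θ)) : m = m' ∧ α = α' ∧ β = β' := by
  have hwd : Word W.m W.w := hW.wide.word hW.ex
  have hwd' : Word W'.m W'.w := hW'.wide.word hW'.ex
  have e1 : Irrational (nu W.w W.m θ) := by
    unfold WS.nu at hi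
    exact (irrational_sub_intCast_iff).1 hi
  have e2 : Irrational (nu W'.w W'.m θ) := by
    unfold WS.nu at hi'
    exact (irrational_sub_intCast_iff).1 hi'
  have hn := hW.wide.pos
  have hn' := hW'.wide.pos
  obtain ⟨i, hoi⟩ := P60.exists_ho hn hwd.2.1 e1
  obtain ⟨i', hoi'⟩ := P60.exists_ho hn' hwd'.2.1 e2
  have hs := word_shift hn hwd i
  have hs' := word_shift hn' hwd' i'
  have hmm : W.m = W'.m := P60.word_len hn hn' hs hs' hoi hoi'
  have hww := HO.word_eq hs.1 hs'.1 hoi hoi'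
  have hnn : ∀ t, nu W.w W.m t = nu W'.w W'.m t := by
    intro t
    rw [← nu_shift_word W.w W.m hwd.2.1 t i, ← nu_shift_word W'.w W'.m hwd'.2.1 t i', hww, hmm]
  have hdiff : ∀ t, W.nu t = W'.nu t + ((W'.k - W.k : ℤ) : ℝ) := by
    intro t
    unfold WS.nu
    rw [hnn]
    push_cast
    ring
  have hk : W'.k - W.k = 0 := by
    have c1 := hin θ a1 a2
    have c2 := hin' θ b1 b2
    have c3 := hdiff θ
    have c4 : ((W'.k - W.k : ℤ) : ℝ) < ((1 : ℤ) : ℝ) := by push_cast; push_cast at c3; linarith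
    have c5 : ((-1 : ℤ) : ℝ) < ((W'.k - W.k : ℤ) : ℝ) := by push_cast; push_cast at c3; linarith
    have c6 := cast_lt_of c4
    have c7 := cast_lt_of c5
    omega
  have heq : ∀ t, W.nu t = W'.nu t := fun t => by rw [hdiff t, hk]; simp
  have hab := h.lt
  have hab' := h'.lt
  refine ⟨by omega, ?_, ?_⟩
  · rcases lt_trichotomy α α' with h2 | h2 | h2
    · have := (hin α' h2 (by linarith)).1
      rw [heq, h0'] at this
      exact absurd this (lt_irrefl _)
    · exact h2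
    · have := (hin' α h2 (by linarith)).1
      rw [← heq, h0] at this
      exact absurd this (lt_irrefl _)
  · rcases lt_trichotomy β β' with h2 | h2 | h2
    · have := (hin' β (by linarith) h2).2
      rw [← heq, h1] at this
      exact absurd this (lt_irrefl _)
    · exact h2
    · have := (hin β' (by linarith) h2).2
      rw [heq, h1'] at this
      exact absurd this (lt_irrefl _)

/-- the ends of a wake are periodic, so their rotation numbers are rational -/
lemma rat_of_per {W : WS} {n : ℕ} (hn : 0 < n) {t : ℝ} (ht : ∃ a : ℤ, (2 : ℝ) ^ n * t - t = a) :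
    ∃ r : ℚ, W.nu t = r := by
  obtain ⟨r, hr⟩ := Cap.nu_rat43 (w := W.w) (m := W.m) hn ht
  refine ⟨r - W.k, ?_⟩
  unfold WS.nu
  rw [hr]
  push_cast
  ring

/-- the ends of a plateau have rational rotation numbers -/
lemma rat_ends {W W' : WS} (hW' : W'.Ok) {y : ℚ} (y0 : 0 < y) (y1 : y < 1) :
    (∃ r : ℚ, W.nu (W'.dat y).tm = r) ∧ ∃ r : ℚ, W.nu (W'.dat y).tp = r := by
  have hC := WS.dat_cir hW' y0 y1
  have hm := WS.dat_m hW' y0 y1
  have hn := hW'.wide.pos
  obtain ⟨hq, ⟨k, hk⟩, -⟩ := hC.per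
  have hpos : 0 < (W'.dat y).m * (W'.dat y).x.den := by
    rw [hm]; exact Nat.mul_pos hn hq
  refine ⟨rat_of_per hpos ⟨k, hk⟩, rat_of_per hpos ?_⟩
  obtain ⟨j, l, hl⟩ := hC.orb
  refine ⟨2 ^ ((W'.dat y).m * j) * k + (2 ^ ((W'.dat y).m * (W'.dat y).x.den) - 1) * l, ?_⟩
  push_cast
  rw [hl, ← hk]
  ring

/-- an end of a plateau of `W'` around `θ₀` is not inside the wake of `W`, if the rotation number of
`θ₀` is irrational for `W` -/
lemma not_mem {W W' : WS} (hW : W.Ok) (hW' : W'.Ok) {y : ℚ} (y0 : 0 < y) (y1 : y < 1) {θ₀ : ℝ}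
    (hy : W'.nu θ₀ = y) (hirr : Irrational (W.nu θ₀)) {a : ℝ}
    (ha : a = (W'.dat y).tm ∨ a = (W'.dat y).tp) (h0 : 0 < W.nu a) (h1 : W.nu a < 1) : False := by
  have hP' := WS.dat_par hW' y0 y1
  have hC' := WS.dat_cir hW' y0 y1
  obtain ⟨p1, p2⟩ := (WS.plateau hW' y0 y1 θ₀).1 hy
  obtain ⟨x, hx⟩ : ∃ r : ℚ, W.nu a = r := by
    rcases ha with ha | ha
    · rw [ha]; exact (rat_ends hW' y0 y1).1
    · rw [ha]; exact (rat_ends hW' y0 y1).2
  rw [hx] at h0 h1
  have x0 : 0 < x := by exact_mod_cast h0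
  have x1 : x < 1 := by exact_mod_cast h1
  have hP := WS.dat_par hW x0 x1
  have hC := WS.dat_cir hW x0 x1
  obtain ⟨q1, q2⟩ := (WS.plateau hW x0 x1 a).1 hx
  have hout : ¬ ((W.dat x).tm ≤ θ₀ ∧ θ₀ ≤ (W.dat x).tp) := fun hc =>
    hirr ⟨x, ((WS.plateau hW x0 x1 θ₀).2 hc).symm⟩
  have l1 := hC'.lt
  have l2 := hC'.lt_one
  have l3 := hC.lt
  have l4 := hC.lt_one
  by_cases he : rt (W.dat x) = rt (W'.dat y)
  · obtain ⟨k, k1, k2⟩ := plateau_unique n2_ray hP hC hP' hC' he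
    have f1 : ((-1 : ℤ) : ℝ) < (k : ℤ) := by
      push_cast
      rcases ha with ha | ha <;> rw [ha] at q1 q2 <;> linarith
    have f2 : ((k : ℤ) : ℝ) < ((1 : ℤ) : ℝ) := by
      push_cast
      rcases ha with ha | ha <;> rw [ha] at q1 q2 <;> linarith
    have g1 := cast_lt_of f1
    have g2 := cast_lt_of f2
    have g3 : k = 0 := by omega
    rw [g3, Int.cast_zero, add_zero] at k1 k2
    exact hout ⟨by rw [k1]; exact p1, by rw [k2]; exact p2⟩
  · rcases laminar60 hP hC hP' hC' he 0 with h | h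
    · rw [Int.cast_zero, add_zero, add_zero] at h
      exact hout ⟨by linarith [h.1], by linarith [h.2]⟩
    · rw [Int.cast_zero, add_zero, add_zero] at h
      rcases ha with ha | ha
      · rw [ha] at q1 q2
        rcases h.1 with h2 | h2 <;> linarith
      · rw [ha] at q1 q2
        rcases h.2 with h2 | h2 <;> linarith

/-- **nested wakes** -/
lemma nest {W W' : WS} (hW : W.Ok) (hW' : W'.Ok)
    (hin : ∀ θ, α < θ → θ < β → 0 < W.nu θ ∧ W.nu θ < 1)
    (h0' : W'.nu α' = 0) (h1' : W'.nu β' = 1) {y : ℚ} (y0 : 0 < y) (y1 : y < 1) {θ₀ : ℝ}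
    (a1 : α < θ₀) (a2 : θ₀ < β) (hy : W'.nu θ₀ = y) (hirr : Irrational (W.nu θ₀)) :
    α' < α ∧ β < β' := by
  obtain ⟨p1, p2⟩ := (WS.plateau hW' y0 y1 θ₀).1 hy
  obtain ⟨⟨r, hr⟩, s, hs⟩ := rat_ends (W := W) hW' y0 y1
  have hC' := WS.dat_cir hW' y0 y1
  have p1' : (W'.dat y).tm < θ₀ := lt_of_le_of_ne p1 fun h => hirr ⟨r, by rw [← hr, h]⟩
  have p2' : θ₀ < (W'.dat y).tp := lt_of_le_of_ne p2 fun h => hirr ⟨s, by rw [← hs, h]⟩
  have v1 : W'.nu (W'.dat y).tm = y := (WS.plateau hW' y0 y1 _).2 ⟨le_rfl, hC'.lt.le⟩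
  have v2 : W'.nu (W'.dat y).tp = y := (WS.plateau hW' y0 y1 _).2 ⟨hC'.lt.le, le_rfl⟩
  have y0' : (0 : ℝ) < y := by exact_mod_cast y0
  have y1' : (y : ℝ) < 1 := by exact_mod_cast y1
  have b1 : α' < (W'.dat y).tm := by
    by_contra hcon
    have := W'.nu_mono (not_lt.1 hcon)
    rw [v1, h0'] at this
    linarith
  have b2 : (W'.dat y).tp < β' := by
    by_contra hcon
    have := W'.nu_mono (not_lt.1 hcon)
    rw [v2, h1'] at this
    linarith
  have c1 : (W'.dat y).tm ≤ α := by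
    by_contra hcon
    push Not at hcon
    obtain ⟨d1, d2⟩ := hin _ hcon (p1'.trans a2)
    exact not_mem hW hW' y0 y1 hy hirr (Or.inl rfl) d1 d2
  have c2 : β ≤ (W'.dat y).tp := by
    by_contra hcon
    push Not at hcon
    obtain ⟨d1, d2⟩ := hin _ (a1.trans p2') hcon
    exact not_mem hW hW' y0 y1 hy hirr (Or.inr rfl) d1 d2
  exact ⟨by linarith, by linarith⟩

/-- an irrational value on an interval on which a continuous function is not constant -/
lemma exists_irr {f : ℝ → ℝ} (hf : Continuous f) {a b : ℝ} (hab : a < b) (hne : f a ≠ f b) :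
    ∃ t, a < t ∧ t < b ∧ Irrational (f t) := by
  rcases lt_or_gt_of_ne hne with h | h
  · obtain ⟨c, hc, h1, h2⟩ := exists_irrational_btwn h
    obtain ⟨t, ht, rfl⟩ := intermediate_value_Ioo hab.le hf.continuousOn ⟨h1, h2⟩
    exact ⟨t, ht.1, ht.2, hc⟩
  · obtain ⟨c, hc, h1, h2⟩ := exists_irrational_btwn h
    obtain ⟨t, ht, rfl⟩ := intermediate_value_Ioo' hab.le hf.continuousOn ⟨h1, h2⟩
    exact ⟨t, ht.1, ht.2, hc⟩

/-- the overlapping case, periods at least `2`, `α' ≤ α` -/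
lemma overlap (h : Wake m α β) (h' : Wake m' α' β') (hm : 2 ≤ m) (hm' : 2 ≤ m') (hle : α' ≤ α)
    (hlt : α < β') : (m = m' ∧ α = α' ∧ β = β') ∨ (α < α' ∧ β' < β) ∨ (α' < α ∧ β < β') := by
  obtain ⟨W, hW, e1, -, n0, n1, hin⟩ := ws h hm
  obtain ⟨W', hW', e1', -, n0', n1', hin'⟩ := ws h' hm'
  have hab := h.lt
  have hab' := h'.lt
  have hmin : α < min β β' := lt_min hab hlt
  -- a point with an irrational rotation number for `W`
  obtain ⟨b, hb1, hb2⟩ := exists_between hmin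
  have hbβ : b < β := hb2.trans_le (min_le_left _ _)
  have hbβ' : b < β' := hb2.trans_le (min_le_right _ _)
  obtain ⟨t, ht1, ht2, hti⟩ := exists_irr (nu_cont W) hb1 (by rw [n0]; exact (hin b hb1 hbβ).1.ne)
  by_cases hi : Irrational (W'.nu t)
  · exact Or.inl (same_of_irr h h' hW hW' e1 e1' n0 n1 hin n0' n1' hin' ht1 (ht2.trans hbβ)
      (hle.trans_lt ht1) (ht2.trans hbβ') hti hi)
  · unfold Irrational at hi
    push Not at hi
    obtain ⟨y, hy⟩ := hi
    have hy2 := hin' t (hle.trans_lt ht1) (ht2.trans hbβ')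
    rw [← hy] at hy2
    exact Or.inr (Or.inr (nest hW hW' hin n0' n1' (by exact_mod_cast hy2.1)
      (by exact_mod_cast hy2.2) ht1 (ht2.trans hbβ) hy.symm hti))

lemma lam2 (h : Wake m α β) (h' : Wake m' α' β') (hm : 2 ≤ m) (hm' : 2 ≤ m') :
    (m = m' ∧ α = α' ∧ β = β') ∨ β < α' ∨ β' < α ∨ (α < α' ∧ β' < β) ∨ (α' < α ∧ β < β') := by
  rcases lt_or_ge β α' with c1 | c1
  · exact Or.inr (Or.inl c1)
  rcases lt_or_ge β' α with c2 | c2
  · exact Or.inr (Or.inr (Or.inl c2))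
  have d1 : α' < β := lt_of_le_of_ne c1 (Ne.symm (ne_adj h hm h' hm'))
  have d2 : α < β' := lt_of_le_of_ne c2 (Ne.symm (ne_adj h' hm' h hm))
  rcases le_total α' α with h1 | h1
  · rcases overlap h h' hm hm' h1 d2 with h2 | h2 | h2
    · exact Or.inl h2
    · exact Or.inr (Or.inr (Or.inr (Or.inl h2)))
    · exact Or.inr (Or.inr (Or.inr (Or.inr h2)))
  · rcases overlap h' h hm' hm h1 d1 with h2 | h2 | h2
    · exact Or.inl ⟨h2.1.symm, h2.2.1.symm, h2.2.2.symm⟩
    · exact Or.inr (Or.inr (Or.inr (Or.inr h2)))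
    · exact Or.inr (Or.inr (Or.inr (Or.inl h2)))

/-- the wake of period one -/
lemma one (h : Wake 1 α β) : α = 0 ∧ β = 1 := by
  obtain ⟨a, ha⟩ := h.per
  obtain ⟨b, hb⟩ := h.per'
  have h1 := h.nonneg
  have h2 := h.lt
  have h3 := h.le_one
  norm_num at ha hb
  rw [ha] at h1 h2
  rw [hb] at h2 h3
  have g1 : (0 : ℤ) ≤ a := by exact_mod_cast h1
  have g2 : a < b := by exact_mod_cast h2
  have g3 : b ≤ (1 : ℤ) := by exact_mod_cast h3
  have g4 : a = 0 := by omega
  have g5 : b = 1 := by omega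
  rw [ha, hb, g4, g5]
  simp

/-- the wakes of larger periods are inside -/
lemma big (h : Wake m α β) (hm : 2 ≤ m) : 0 < α ∧ β < 1 := by
  refine ⟨lt_of_le_of_ne h.nonneg fun h0 => ?_, lt_of_le_of_ne h.le_one fun h0 => ?_⟩
  · exact h.exact 1 one_pos (by omega) ⟨0, by rw [← h0]; simp⟩
  · exact h.exact' 1 one_pos (by omega) ⟨1, by rw [h0]; norm_num⟩

end L57

/-- **Module `U_lam`** -/
theorem u_lam : U_lam := by
  intro m m' α β α' β' h h'
  have hp := h.pos
  have hp' := h'.pos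
  rcases Nat.lt_or_ge m 2 with h1 | h1
  · have e : m = 1 := by omega
    subst e
    obtain ⟨a1, a2⟩ := L57.one h
    rcases Nat.lt_or_ge m' 2 with h2 | h2
    · have e' : m' = 1 := by omega
      subst e'
      obtain ⟨b1, b2⟩ := L57.one h'
      exact Or.inl ⟨rfl, by rw [a1, b1], by rw [a2, b2]⟩
    · obtain ⟨b1, b2⟩ := L57.big h' h2
      exact Or.inr (Or.inr (Or.inr (Or.inl ⟨by rw [a1]; exact b1, by rw [a2]; exact b2⟩)))
  · rcases Nat.lt_or_ge m' 2 with h2 | h2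
    · have e' : m' = 1 := by omega
      subst e'
      obtain ⟨b1, b2⟩ := L57.one h'
      obtain ⟨a1, a2⟩ := L57.big h h1
      exact Or.inr (Or.inr (Or.inr (Or.inr ⟨by rw [b1]; exact a1, by rw [b2]; exact a2⟩)))
    · exact L57.lam2 h h' h1 h2

end Pool.Agent.Work.MLC.Uni
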