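import Pool.Agent.Work.MLC.Uni0

set_option autoImplicit false

/-! # Theorem U: module `U_par` (helper31)

Angles which are not separated by a wake of period at most `n` have the same first `n` symbols. -/

namespace Pool.Agent.Work.MLC.Uni

open Pool.Agent.Work.MLC.Sat Pool.Agent.Work.MLC.Cnt
open Pool.Agent.Work.MLC.Shp (Wake lg RayE Hd)

namespace P31

/-- the set of periods is closed under subtraction -/
lemma per_sub {τ : ℝ} {d e : ℕ} (hde : d ≤ e) (hd : ∃ a : ℤ, ((2 : ℝ) ^ d - 1) * τ = a)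
    (he : ∃ a : ℤ, ((2 : ℝ) ^ e - 1) * τ = a) : ∃ a : ℤ, ((2 : ℝ) ^ (e - d) - 1) * τ = a := by
  obtain ⟨a, ha⟩ := hd
  obtain ⟨b, hb⟩ := he
  refine ⟨b - 2 ^ (e - d) * a, ?_⟩
  have h1 : (2 : ℝ) ^ e = 2 ^ (e - d) * 2 ^ d := by rw [← pow_add]; congr 1; omega
  push_cast
  rw [← ha, ← hb, h1]
  ring

/-- multiples of a period -/
lemma per_mul {τ : ℝ} {d : ℕ} (hd : ∃ a : ℤ, ((2 : ℝ) ^ d - 1) * τ = a) (k : ℕ) :
    ∃ a : ℤ, ((2 : ℝ) ^ (d * k) - 1) * τ = a := by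
  obtain ⟨a, ha⟩ := hd
  induction k with
  | zero => exact ⟨0, by simp⟩
  | succ k ih =>
    obtain ⟨b, hb⟩ := ih
    refine ⟨b + 2 ^ (d * k) * a, ?_⟩
    have h1 : (2 : ℝ) ^ (d * (k + 1)) = 2 ^ (d * k) * 2 ^ d := by rw [← pow_add]; ring_nf
    push_cast
    rw [← ha, ← hb, h1]
    ring

/-- the exact period -/
lemma exists_exact {τ : ℝ} {N : ℕ} (hN : 0 < N) (h : ∃ a : ℤ, ((2 : ℝ) ^ N - 1) * τ = a) :
    ∃ d, 0 < d ∧ d ∣ N ∧ (∃ a : ℤ, ((2 : ℝ) ^ d - 1) * τ = a) ∧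
      ∀ e, 0 < e → e < d → ¬ ∃ a : ℤ, ((2 : ℝ) ^ e - 1) * τ = a := by
  classical
  have hex : ∃ d, 0 < d ∧ ∃ a : ℤ, ((2 : ℝ) ^ d - 1) * τ = a := ⟨N, hN, h⟩
  obtain ⟨hd0, hd1⟩ := Nat.find_spec hex
  set d := Nat.find hex with hd
  have hmin : ∀ e, 0 < e → e < d → ¬ ∃ a : ℤ, ((2 : ℝ) ^ e - 1) * τ = a := fun e he hed hh =>
    Nat.find_min hex hed ⟨he, hh⟩
  refine ⟨d, hd0, ?_, hd1, hmin⟩
  by_contra hdvd
  have h1 : 0 < N % d := Nat.pos_of_ne_zero fun h0 => hdvd (Nat.dvd_of_mod_eq_zero h0)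
  have h2 : N % d < d := Nat.mod_lt _ hd0
  apply hmin _ h1 h2
  have h3 : N - d * (N / d) = N % d := by
    have := Nat.div_add_mod N d
    omega
  rw [← h3]
  exact per_sub (Nat.mul_div_le N d) (per_mul hd1 _) h

/-- `τ`, `τ'` are the two ends of a wake -/
def Pair (τ τ' : ℝ) : Prop := ∃ (m : ℕ) (α β : ℝ), Wake m α β ∧
  ((τ = α ∧ τ' = β) ∨ (τ = β ∧ τ' = α))

lemma Pair.symm {τ τ' : ℝ} (h : Pair τ τ') : Pair τ' τ := by
  obtain ⟨m, α, β, hW, h | h⟩ := h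
  · exact ⟨m, α, β, hW, Or.inr ⟨h.2, h.1⟩⟩
  · exact ⟨m, α, β, hW, Or.inl ⟨h.2, h.1⟩⟩

lemma Pair.ne {τ τ' : ℝ} (h : Pair τ τ') : τ' ≠ τ := by
  obtain ⟨m, α, β, hW, h | h⟩ := h
  · rw [h.1, h.2]; exact ne_of_gt hW.lt
  · rw [h.1, h.2]; exact ne_of_lt hW.lt

lemma Pair.unique (hL : U_lam) {τ τ' τ'' : ℝ} (h : Pair τ τ') (h' : Pair τ τ'') : τ' = τ'' := by
  obtain ⟨m, α, β, hW, h⟩ := h
  obtain ⟨m', α', β', hW', h'⟩ := h'
  have h1 := hW.lt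
  have h2 := hW'.lt
  rcases hL m m' α β α' β' hW hW' with ⟨-, ea, eb⟩ | h3 | h3 | h3 | h3
  · rcases h with ⟨h, k⟩ | ⟨h, k⟩ <;> rcases h' with ⟨h', k'⟩ | ⟨h', k'⟩
    · rw [k, k', eb]
    · exfalso; linarith
    · exfalso; linarith
    · rw [k, k', ea]
  all_goals
    exfalso
    rcases h with ⟨h, k⟩ | ⟨h, k⟩ <;> rcases h' with ⟨h', k'⟩ | ⟨h', k'⟩ <;> linarith

/-- the partner of a periodic angle between two angles which are not separated -/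
lemma partner (hE : U_ends) {n N : ℕ} (hN : 0 < N) (hNn : N ≤ n) {θ t : ℝ} (hθi : Irrational θ)
    (hti : Irrational t) (h0 : 0 < θ) (h1 : t < 1) (hS : ¬ Sepd n θ t) {τ : ℝ} (hτ : θ < τ)
    (hτ' : τ < t) (hp : ∃ a : ℤ, ((2 : ℝ) ^ N - 1) * τ = a) :
    ∃ τ', Pair τ τ' ∧ θ < τ' ∧ τ' < t ∧ ∃ a : ℤ, ((2 : ℝ) ^ N - 1) * τ' = a := by
  obtain ⟨d, hd0, hdN, hd1, hd2⟩ := exists_exact hN hp
  have hd : 2 ≤ d := by
    by_contra hlt
    have hd' : d = 1 := by omega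
    obtain ⟨a, ha⟩ := hd1
    rw [hd'] at ha
    have h3 : τ = a := by linarith
    have h4 : (0 : ℝ) < a := by linarith
    have h5 : (a : ℝ) < 1 := by linarith
    have h6 : 0 < a := by exact_mod_cast h4
    have h7 : a < 1 := by exact_mod_cast h5
    omega
  obtain ⟨α, β, hW, hab⟩ := hE d τ hd (by linarith) (by linarith) hd1 hd2
  have hns : (α < θ ∧ θ < β) ↔ (α < t ∧ t < β) := by
    by_contra hc
    exact hS ⟨d, α, β, (Nat.le_of_dvd hN hdN).trans hNn, hW, hc⟩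
  have hlt := hW.lt
  obtain ⟨k, hk⟩ := hdN
  have hrat : ∀ x : ℝ, (∃ a : ℤ, ((2 : ℝ) ^ d - 1) * x = a) → ¬ Irrational x := by
    rintro x ⟨a, ha⟩ hx
    have h3 : (0 : ℝ) < 2 ^ d - 1 := by
      have : (1 : ℝ) < 2 ^ d := one_lt_pow₀ (by norm_num) (by omega)
      linarith
    apply hx
    refine ⟨(a : ℚ) / (2 ^ d - 1), ?_⟩
    push_cast
    rw [← ha]
    field_simp
  rcases hab with hab | hab
  · refine ⟨β, ⟨d, α, β, hW, Or.inl ⟨hab, rfl⟩⟩, by linarith, ?_, hk ▸ per_mul hW.per' k⟩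
    by_contra hc
    have h3 : t ≠ β := fun h => hrat β hW.per' (h ▸ hti)
    have h4 : t < β := lt_of_le_of_ne (not_lt.1 hc) h3
    have h5 := hns.2 ⟨by linarith, h4⟩
    linarith [h5.1]
  · refine ⟨α, ⟨d, α, β, hW, Or.inr ⟨hab, rfl⟩⟩, ?_, by linarith, hk ▸ per_mul hW.per k⟩
    by_contra hc
    have h3 : α ≠ θ := fun h => hrat α hW.per (h ▸ hθi)
    have h4 : α < θ := lt_of_le_of_ne (not_lt.1 hc) h3
    have h5 := hns.1 ⟨h4, by linarith⟩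
    linarith [h5.2]

lemma main (hE : U_ends) (hL : U_lam) {n j : ℕ} (hj : j < n) {θ t : ℝ} (hθi : Irrational θ)
    (hti : Irrational t) (h0 : 0 < θ) (hlt : θ < t) (h1 : t < 1) (hS : ¬ Sepd n θ t) :
    wL θ j = wL t j := by
  classical
  set N := j + 1 with hN
  have hQ : (0 : ℝ) < 2 ^ N - 1 := by
    have : (1 : ℝ) < 2 ^ N := one_lt_pow₀ (by norm_num) (by omega)
    linarith
  set Q : ℝ := 2 ^ N - 1 with hQd
  set S : Finset ℤ := Finset.Ioc ⌊Q * θ⌋ ⌊Q * t⌋ with hSd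
  have hmem : ∀ a : ℤ, a ∈ S ↔ θ < a / Q ∧ (a : ℝ) / Q < t := by
    intro a
    rw [hSd, Finset.mem_Ioc, Int.floor_lt, Int.le_floor, lt_div_iff₀ hQ, div_lt_iff₀ hQ, mul_comm θ,
      mul_comm t]
    constructor
    · rintro ⟨h2, h3⟩
      refine ⟨h2, lt_of_le_of_ne h3 ?_⟩
      intro h4
      apply hti
      refine ⟨(a : ℚ) / (2 ^ N - 1), ?_⟩
      push_cast
      rw [h4, ← hQd]
      field_simp
    · rintro ⟨h2, h3⟩
      exact ⟨h2, h3.le⟩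
  have hpart : ∀ a ∈ S, ∃ b ∈ S, Pair (a / Q) ((b : ℤ) / Q) := by
    intro a ha
    obtain ⟨h2, h3⟩ := (hmem a).1 ha
    obtain ⟨τ', h4, h5, h6, b, hb⟩ := partner hE (by omega : 0 < N) (by omega : N ≤ n) hθi hti h0 h1
      hS h2 h3 ⟨a, by rw [← hQd]; field_simp⟩
    have h7 : τ' = b / Q := by
      rw [eq_div_iff hQ.ne', ← hb]; ring
    rw [h7] at h4 h5 h6
    exact ⟨b, (hmem b).2 ⟨h5, h6⟩, h4⟩
  choose! g hg1 hg2 using hpart
  have hinj : ∀ a b : ℤ, (a : ℝ) / Q = b / Q → a = b := by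
    intro a b h
    rw [div_left_inj' hQ.ne'] at h
    exact_mod_cast h
  have hsum : ∑ x ∈ S, (1 : ZMod 2) = 0 := by
    apply Finset.sum_involution (fun a _ => g a)
    · intro a _; decide
    · intro a ha _ h2
      exact (hg2 a ha).ne (by rw [h2])
    · intro a ha; exact hg1 a ha
    · intro a ha
      apply hinj
      exact Pair.unique hL (hg2 (g a) (hg1 a ha)) (hg2 a ha).symm
  have hcard : ((S.card : ℕ) : ZMod 2) = 0 := by
    rw [← hsum]; simp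
  have hev : 2 ∣ S.card := (ZMod.natCast_eq_zero_iff _ _).1 hcard
  have hle : ⌊Q * θ⌋ ≤ ⌊Q * t⌋ := Int.floor_le_floor (by nlinarith)
  have hc : (S.card : ℤ) = ⌊Q * t⌋ - ⌊Q * θ⌋ := by
    rw [hSd, Int.card_Ioc]
    exact Int.toNat_of_nonneg (by omega)
  have e1 : ∀ x : ℝ, (2 : ℝ) ^ (j + 1) * x - x = Q * x := by
    intro x; rw [hQd, hN]; ring
  unfold wL
  rw [e1, e1]
  obtain ⟨k, hk⟩ := hev
  have h5 : ⌊Q * t⌋ = ⌊Q * θ⌋ + 2 * k := by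
    have : (S.card : ℤ) = 2 * k := by exact_mod_cast hk
    omega
  rw [h5]
  omega

end P31

/-- U3 -/
theorem u_par (hE : U_ends) (hL : U_lam) : U_par := by
  intro n θ t hθi hti h0 h1 h2 h3 hS j hj
  rcases lt_trichotomy θ t with h | h | h
  · exact P31.main hE hL hj hθi hti h0 h h3 hS
  · rw [h]
  · refine (P31.main hE hL hj hti hθi h2 h h1 ?_).symm
    rintro ⟨m, α, β, hm, hW, hc⟩
    exact hS ⟨m, α, β, hm, hW, fun hh => hc hh.symm⟩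

end Pool.Agent.Work.MLC.Uni
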