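import Pool.Agent.Work.MLC.Uni0
import Pool.Agent.Work.MLC.ShpZ54

set_option autoImplicit false

/-! # Theorem U: the sums over the pieces (helper54)

`U_sum1`, `U_sum2` from the sum of the weighted areas next to the ends (`M_class`), the estimates of
one piece (`U_one`, `U_two`) and the sums of the areas inside the components (`H_sum`, `U_area`). -/

namespace Pool.Agent.Work.MLC.Uni

open Filter Topology Metric Set Complex MeasureTheory
open Pool.Agent.Work.MLC.Sat Pool.Agent.Work.MLC.Cnt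
open Pool.Agent.Work.MLC.Shp (Wake lg RayE Hd)
open Pool.Agent.Work.MLC.Shp.Z54 (reps exists_delta same_refl same_symm same_trans half_pos half_lt
  hgt_pos hgt_nonneg same_hd ok_m_pos same_tm per_V child_tm)
open scoped ENNReal

namespace S54

/-! ### the windows -/

lemma log_eq {a b : ℕ} (ha : 0 < a) (hb : 0 < b) (h : Nat.log 2 a % 10 = Nat.log 2 b % 10)
    (h1 : a ≤ 500 * b) (h2 : b ≤ 500 * a) : Nat.log 2 a = Nat.log 2 b := by
  wlog hab : Nat.log 2 b ≤ Nat.log 2 a generalizing a b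
  · exact (this hb ha h.symm h2 h1 (by omega)).symm
  by_contra hne
  have h3 : Nat.log 2 b + 10 ≤ Nat.log 2 a := by omega
  have h4 : 2 ^ Nat.log 2 a ≤ a := Nat.pow_log_le_self 2 ha.ne'
  have h5 : b < 2 ^ (Nat.log 2 b + 1) := Nat.lt_pow_succ_log_self (by norm_num) b
  have h6 : 2 ^ (Nat.log 2 b + 10) ≤ 2 ^ Nat.log 2 a := Nat.pow_le_pow_right (by norm_num) h3
  have h7 : 2 ^ (Nat.log 2 b + 10) = 512 * 2 ^ (Nat.log 2 b + 1) := by ring
  omega

lemma split10 {ι : Type} (F : Finset ι) (n : ι → ℕ) (f : ι → ℝ≥0∞) (T : ℝ≥0∞)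
    (h : ∀ F' ⊆ F, (∀ i ∈ F', ∀ j ∈ F', Nat.log 2 (n i) % 10 = Nat.log 2 (n j) % 10) →
      ∑ i ∈ F', f i ≤ T) : ∑ i ∈ F, f i ≤ 10 * T := by
  classical
  have hm : ∀ i ∈ F, Nat.log 2 (n i) % 10 ∈ Finset.range 10 := fun i _ =>
    Finset.mem_range.2 (Nat.mod_lt _ (by norm_num))
  rw [← Finset.sum_fiberwise_of_maps_to hm]
  refine (Finset.sum_le_sum (g := fun _ => T) fun j _ => h _ (Finset.filter_subset _ _) ?_).trans ?_
  · intro i hi i' hi'
    rw [(Finset.mem_filter.1 hi).2, (Finset.mem_filter.1 hi').2]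
  · rw [Finset.sum_const, Finset.card_range, nsmul_eq_mul]
    norm_num

/-- the overlap in one class of windows -/
def Cls {ι : Type} (F : Finset ι) (n : ι → ℕ) (A : ι → Set ℝ) : Prop :=
  (∀ i ∈ F, 0 < n i) ∧ (∀ i ∈ F, ∀ j ∈ F, Nat.log 2 (n i) % 10 = Nat.log 2 (n j) % 10) ∧
  ∀ (k : ℕ) (θ : ℝ), Irrational θ → ∀ T ⊆ F,
    (∀ i ∈ T, 2 ^ k ≤ n i ∧ n i < 2 ^ (k + 1) ∧ θ ∈ A i) → T.card ≤ 3

lemma Cls.card {ι : Type} {F : Finset ι} {n : ι → ℕ} {A : ι → Set ℝ} (h : Cls F n A)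
    {T : Finset ι} (hT : T ⊆ F) (hc : ∀ i ∈ T, ∀ j ∈ T, n j ≤ 500 * n i) {U : Set ℝ}
    (hU : IsOpen U) (hne : U.Nonempty) (hUA : ∀ i ∈ T, U ⊆ A i) : T.card ≤ 3 := by
  obtain ⟨θ, hθU, hθ⟩ : ∃ θ ∈ U, Irrational θ := by
    obtain ⟨θ, h1, h2⟩ := dense_irrational.inter_open_nonempty U hU hne
    exact ⟨θ, h1, h2⟩
  rcases T.eq_empty_or_nonempty with rfl | ⟨i₀, hi₀⟩
  · simp
  · refine h.2.2 (Nat.log 2 (n i₀)) θ hθ T hT fun i hi => ?_
    have e := log_eq (h.1 i (hT hi)) (h.1 i₀ (hT hi₀)) (h.2.1 i (hT hi) i₀ (hT hi₀))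
      (hc i₀ hi₀ i hi) (hc i hi i₀ hi₀)
    rw [← e]
    exact ⟨Nat.pow_log_le_self 2 (h.1 i (hT hi)).ne', Nat.lt_pow_succ_log_self (by norm_num) _,
      hUA i hi hθU⟩

lemma lg_le_nat {ℓ : ℝ} {N : ℕ} (h : (1 / 2 : ℝ) ^ N ≤ ℓ) : lg ℓ ≤ N := by
  have h0 : 0 < ℓ := lt_of_lt_of_le (by positivity) h
  unfold lg
  rw [Real.logb_le_iff_le_rpow (by norm_num) (by positivity), Real.rpow_natCast,
    div_le_iff₀ h0]
  have h1 : (2 : ℝ) ^ N * (1 / 2) ^ N = 1 := by rw [← mul_pow]; norm_num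
  rw [← h1]
  exact mul_le_mul_of_nonneg_left h (by positivity)

lemma nat_le_lg {ℓ : ℝ} (h0 : 0 < ℓ) {N : ℕ} (h : ℓ ≤ (1 / 2 : ℝ) ^ N) : (N : ℝ) ≤ lg ℓ := by
  unfold lg
  rw [Real.le_logb_iff_rpow_le (by norm_num) (by positivity), Real.rpow_natCast,
    le_div_iff₀ h0]
  have h1 : (2 : ℝ) ^ N * (1 / 2) ^ N = 1 := by rw [← mul_pow]; norm_num
  rw [← h1]
  exact mul_le_mul_of_nonneg_left h (by positivity)

/-- the sum of the energies of the rays -/
lemma ray_sum (hM : Shp.M_class) : ∃ C : ℝ, ∀ (ι : Type) (F : Finset ι) (n : ι → ℕ)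
    (A : ι → Set ℝ) (e ℓ : ι → ℝ), Cls F n A →
    (∀ i ∈ F, 4000 ≤ n i ∧ 0 < e i ∧ e i + ℓ i < 1 ∧ ℓ i ≤ (1 / 2) ^ (n i / 20) ∧
      (1 / 2) ^ (16 * n i) ≤ ℓ i ∧ Ioo (e i) (e i + ℓ i) ⊆ A i) →
    ∑ i ∈ F, RayE (e i) (ℓ i) ≤ ENNReal.ofReal C ∧
      ∑ i ∈ F, RayE (e i + ℓ i) (ℓ i) ≤ ENNReal.ofReal C := by
  obtain ⟨C, hC⟩ := hM
  refine ⟨C, fun ι F n A e ℓ hcl h => hC ι F e ℓ ?_ ?_⟩
  · intro i hi
    obtain ⟨h1, -, -, h4, h5, -⟩ := h i hi
    refine ⟨lt_of_lt_of_le (by positivity) h5, h4.trans ?_⟩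
    rw [← one_div_pow]
    exact pow_le_pow_of_le_one (by norm_num) (by norm_num) (by omega)
  · intro L x hL _ T hT hTL
    refine hcl.card hT ?_ (U := ⋂ i ∈ T, Ioo (e i) (e i + ℓ i))
      (isOpen_biInter_finset fun i _ => isOpen_Ioo) ⟨Int.fract x, ?_⟩ ?_
    · intro i hi j hj
      obtain ⟨h1, -, -, h4, h5, -⟩ := h i (hT hi)
      obtain ⟨h1', -, -, h4', h5', -⟩ := h j (hT hj)
      obtain ⟨a1, a2, -⟩ := hTL i hi
      obtain ⟨b1, b2, -⟩ := hTL j hj
      have c1 := lg_le_nat h5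
      have c2 := nat_le_lg (lt_of_lt_of_le (by positivity) h5') h4'
      push_cast at c1
      have c3 : ((n j / 20 : ℕ) : ℝ) ≤ 20 * (n i : ℝ) := by
        have : (0 : ℝ) ≤ n i := Nat.cast_nonneg _
        linarith
      have c4 : n j / 20 ≤ 20 * n i := by exact_mod_cast c3
      omega
    · simp only [mem_iInter]
      intro i hi
      obtain ⟨-, h2, h3, -, -, -⟩ := h i (hT hi)
      obtain ⟨-, -, k, k1, k2⟩ := hTL i hi
      have h6 : ⌊x⌋ = -k := by
        rw [Int.floor_eq_iff]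
        push_cast
        constructor <;> linarith
      have h7 : Int.fract x = x + k := by
        rw [← Int.self_sub_floor, h6]
        push_cast
        ring
      rw [h7]
      exact ⟨k1, k2⟩
    · intro i hi
      exact (iInter₂_subset i hi).trans (h i (hT hi)).2.2.2.2.2

/-- the sum of the areas over one class of windows -/
lemma vol_cls {ι : Type} (F : Finset ι) (W : ι → WS) (V : WS → ℝ≥0∞)
    (hV : ∀ i ∈ F, ∀ j ∈ F, WS.Same (W i) (W j) → V (W i) = V (W j)) (C : ℝ≥0∞)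
    (hC : ∀ G ⊆ F, (∀ i ∈ G, ∀ j ∈ G, WS.Same (W i) (W j) → i = j) → ∑ i ∈ G, V (W i) ≤ C)
    (h3 : ∀ i₀ ∈ F, ∀ T ⊆ F, (∀ i ∈ T, WS.Same (W i) (W i₀)) → T.card ≤ 3) :
    ∑ i ∈ F, V (W i) ≤ 3 * C := by
  classical
  obtain ⟨ρ, hρ, hρ'⟩ := reps F (fun i j => WS.Same (W i) (W j)) (fun i => same_refl _)
    (fun i j h => same_symm h) (fun i j k h h' => same_trans h h')
  have hmaps : ∀ i ∈ F, ρ i ∈ F.image ρ := fun i hi => Finset.mem_image_of_mem _ hi
  rw [← Finset.sum_fiberwise_of_maps_to hmaps]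
  have hfib : ∀ j ∈ F.image ρ, ∑ i ∈ F.filter (fun i => ρ i = j), V (W i) ≤ 3 * V (W j) := by
    intro j hj
    obtain ⟨i', hi', rfl⟩ := Finset.mem_image.1 hj
    have hjF := (hρ i' hi').1
    have e1 : ∀ i ∈ F.filter (fun i => ρ i = ρ i'), V (W i) = V (W (ρ i')) := by
      intro i hi
      obtain ⟨hiF, hij⟩ := Finset.mem_filter.1 hi
      exact hV i hiF _ hjF (by rw [← hij]; exact (hρ i hiF).2)
    rw [Finset.sum_congr rfl e1, Finset.sum_const, nsmul_eq_mul]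
    refine mul_le_mul_left ?_ _
    have h4 := h3 (ρ i') hjF _ (Finset.filter_subset (fun i => ρ i = ρ i') F) (by
      intro i hi
      obtain ⟨hiF, hij⟩ := Finset.mem_filter.1 hi
      rw [← hij]
      exact (hρ i hiF).2)
    exact_mod_cast h4
  refine (Finset.sum_le_sum hfib).trans ?_
  rw [← Finset.mul_sum]
  refine mul_le_mul_right (hC _ ?_ ?_) _
  · intro j hj
    obtain ⟨i', hi', rfl⟩ := Finset.mem_image.1 hj
    exact (hρ _ hi').1
  · intro j hj j' hj' hs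
    obtain ⟨i, hi, rfl⟩ := Finset.mem_image.1 hj
    obtain ⟨i', hi', rfl⟩ := Finset.mem_image.1 hj'
    exact hρ' _ _ (same_trans (same_trans (hρ i hi).2 hs) (same_symm (hρ i' hi').2))

lemma same_hk {W W' : WS} (h : WS.Same W W') : HK W = HK W' := by
  unfold HK
  rw [← h.1]
  refine image_congr fun L hL => h.2 L ?_
  obtain ⟨-, h1, h2, h3⟩ := hL
  have hpi := Real.pi_pos
  exact ⟨by linarith, by linarith, h1.trans_le (hgt_nonneg _ _)⟩

/-- the left ends of the roots at `1 / 2` of the same component are equal -/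
lemma same_tm' {W W' : WS} (hW : W.Ok) (hW' : W'.Ok) (h : WS.Same W W')
    (h0 : 0 < (W.dat (1 / 2)).tm) (h1 : (W.dat (1 / 2)).tm < 1) (h0' : 0 < (W'.dat (1 / 2)).tm)
    (h1' : (W'.dat (1 / 2)).tm < 1) : (W.dat (1 / 2)).tm = (W'.dat (1 / 2)).tm := by
  obtain ⟨k, hk⟩ := same_tm hW hW' h
  have h2 : (k : ℝ) < 1 := by linarith
  have h3 : (-1 : ℝ) < k := by linarith
  have h4 : k < 1 := by exact_mod_cast h2
  have h5 : -1 < k := by exact_mod_cast h3
  have h6 : k = 0 := by omega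
  rw [hk, h6]
  simp

lemma per_V' {W : WS} (h : W.Ok) :
    ∃ a : ℤ, (2 : ℝ) ^ (2 * W.m) * (W.dat (1 / 2)).tp - (W.dat (1 / 2)).tp = a := by
  obtain ⟨a, ha⟩ := per_V h
  obtain ⟨j, l, hjl⟩ := (WS.dat_cir h half_pos half_lt).orb
  refine ⟨2 ^ ((W.dat (1 / 2)).m * j) * a + (2 ^ (2 * W.m) - 1) * l, ?_⟩
  rw [hjl]
  push_cast
  rw [← ha]
  ring

lemma gap {M M' : ℕ} {s t : ℝ} (hM : 0 < M) (hM' : 0 < M')
    (hs : ∃ a : ℤ, (2 : ℝ) ^ M * s - s = a) (ht : ∃ a : ℤ, (2 : ℝ) ^ M' * t - t = a)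
    (h : s < t) : (1 / 2 : ℝ) ^ (M + M') ≤ t - s := by
  obtain ⟨a, ha⟩ := hs
  obtain ⟨b, hb⟩ := ht
  obtain ⟨A, hA⟩ : ∃ A : ℤ, A = 2 ^ M - 1 := ⟨_, rfl⟩
  obtain ⟨B, hB⟩ : ∃ B : ℤ, B = 2 ^ M' - 1 := ⟨_, rfl⟩
  have hA1 : (1 : ℤ) < 2 ^ M := one_lt_pow₀ (by norm_num) hM.ne'
  have hB1 : (1 : ℤ) < 2 ^ M' := one_lt_pow₀ (by norm_num) hM'.ne'
  have hA0 : 0 < A := by omega
  have hB0 : 0 < B := by omega
  have hAr : (A : ℝ) = 2 ^ M - 1 := by rw [hA]; push_cast; ring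
  have hBr : (B : ℝ) = 2 ^ M' - 1 := by rw [hB]; push_cast; ring
  have hA0r : (0 : ℝ) < A := by exact_mod_cast hA0
  have hB0r : (0 : ℝ) < B := by exact_mod_cast hB0
  have e1 : (A : ℝ) * s = a := by rw [hAr, ← ha]; ring
  have e2 : (B : ℝ) * t = b := by rw [hBr, ← hb]; ring
  have h1 : (0 : ℝ) < ((A * b - B * a : ℤ) : ℝ) := by
    have : ((A * b - B * a : ℤ) : ℝ) = A * B * (t - s) := by
      push_cast
      rw [← e1, ← e2]
      ring
    rw [this]
    have : 0 < t - s := by linarith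
    positivity
  have h2 : 0 < A * b - B * a := by exact_mod_cast h1
  have h3 : (1 : ℝ) ≤ ((A * b - B * a : ℤ) : ℝ) := by exact_mod_cast h2
  have h4 : ((A * b - B * a : ℤ) : ℝ) = A * B * (t - s) := by
    push_cast
    rw [← e1, ← e2]
    ring
  rw [h4] at h3
  have h5 : (A : ℝ) * B ≤ 2 ^ M * 2 ^ M' := by
    rw [hAr, hBr]
    have h6 : (1 : ℝ) < 2 ^ M := by exact_mod_cast hA1
    have h7 : (1 : ℝ) < 2 ^ M' := by exact_mod_cast hB1
    nlinarith
  have h6 : (1 / 2 : ℝ) ^ (M + M') * (2 ^ M * 2 ^ M') = 1 := by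
    rw [← pow_add, ← mul_pow]
    norm_num
  have h7 : 0 < t - s := by linarith
  have h8 : (1 : ℝ) ≤ (2 ^ M * 2 ^ M') * (t - s) := h3.trans (mul_le_mul_of_nonneg_right h5 h7.le)
  have h9 : (0 : ℝ) < (1 / 2 : ℝ) ^ (M + M') := by positivity
  calc (1 / 2 : ℝ) ^ (M + M') = (1 / 2 : ℝ) ^ (M + M') * 1 := by ring
    _ ≤ (1 / 2 : ℝ) ^ (M + M') * ((2 ^ M * 2 ^ M') * (t - s)) :=
        mul_le_mul_of_nonneg_left h8 h9.le
    _ = (1 / 2 : ℝ) ^ (M + M') * (2 ^ M * 2 ^ M') * (t - s) := by ring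
    _ = t - s := by rw [h6, one_mul]

lemma div_n {d C₀ : ℝ} {n : ℕ} (hn : 0 < n) (hC₀ : 0 < C₀) {X : ℝ≥0∞}
    (h : ENNReal.ofReal d ≤ ENNReal.ofReal (C₀ * n) * X) :
    ENNReal.ofReal (d / n) ≤ ENNReal.ofReal C₀ * X := by
  have hn0 : (0 : ℝ) < n := by exact_mod_cast hn
  have h1 : ENNReal.ofReal (d / n) = ENNReal.ofReal (1 / n) * ENNReal.ofReal d := by
    rw [← ENNReal.ofReal_mul (by positivity)]
    congr 1
    ring
  rw [h1]
  refine (mul_le_mul_right h _).trans (le_of_eq ?_)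
  rw [← mul_assoc, ← ENNReal.ofReal_mul (by positivity)]
  congr 2
  field_simp

/-- the areas next to the roots at `1 / 2` -/
lemma hd_sum {C₂ : ℝ} (hH : ∀ (ι : Type) (F : Finset ι) (W : ι → WS) (x : ι → ℚ),
    (∀ i ∈ F, (W i).Ok ∧ 0 < x i ∧ x i < 1) →
    (∀ i ∈ F, ∀ j ∈ F, WS.Same (W i) (W j) → x i = x j → i = j) →
    ∑ i ∈ F, volume (Hd (W i) (x i)) / (x i).den ≤ ENNReal.ofReal C₂) {ι : Type} (G : Finset ι)
    (W : ι → WS) (hW : ∀ i ∈ G, (W i).Ok)
    (hG : ∀ i ∈ G, ∀ j ∈ G, WS.Same (W i) (W j) → i = j) :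
    ∑ i ∈ G, volume (Hd (W i) (1 / 2)) ≤ 2 * ENNReal.ofReal C₂ := by
  have h3 := hH ι G W (fun _ => 1 / 2) (fun i hi => ⟨hW i hi, half_pos, half_lt⟩)
    (fun i hi j hj hs _ => hG i hi j hj hs)
  have hd : (((1 / 2 : ℚ)).den : ℝ≥0∞) = 2 := by norm_num
  simp only [hd] at h3
  have h4 : ∑ i ∈ G, volume (Hd (W i) (1 / 2)) =
      2 * ∑ i ∈ G, volume (Hd (W i) (1 / 2)) / 2 := by
    rw [Finset.mul_sum]
    refine Finset.sum_congr rfl fun i _ => ?_
    rw [ENNReal.mul_div_cancel (by norm_num) (by norm_num)]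
  rw [h4]
  exact mul_le_mul_right h3 _

/-- pieces of the same outer component: comparable levels -/
lemma comp_m {a b m : ℕ} (h1 : 2 * a < m) (h2 : m ≤ 4 * a) (h3 : 2 * b < m) : b ≤ 500 * a := by
  omega

/-- pieces with the same left end which is a left end of the set of angles -/
lemma card_right {ι : Type} {F : Finset ι} {n : ι → ℕ} {A : ι → Set ℝ} (h : Cls F n A)
    {T : Finset ι} (hT : T ⊆ F) (hc : ∀ i ∈ T, ∀ j ∈ T, n j ≤ 500 * n i) (e : ℝ) (ℓ : ι → ℝ)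
    (hℓ : ∀ i ∈ T, 0 < ℓ i) (hA : ∀ i ∈ T, Ioo e (e + ℓ i) ⊆ A i) : T.card ≤ 3 := by
  obtain ⟨δ, hδ, hδ'⟩ := exists_delta T ℓ hℓ
  refine h.card hT hc (U := Ioo e (e + δ)) isOpen_Ioo ⟨e + δ / 2, by constructor <;> linarith⟩ ?_
  intro i hi x hx
  exact hA i hi ⟨hx.1, hx.2.trans_le (by linarith [hδ' i hi])⟩

lemma card_left {ι : Type} {F : Finset ι} {n : ι → ℕ} {A : ι → Set ℝ} (h : Cls F n A)
    {T : Finset ι} (hT : T ⊆ F) (hc : ∀ i ∈ T, ∀ j ∈ T, n j ≤ 500 * n i) (e : ℝ) (ℓ : ι → ℝ)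
    (hℓ : ∀ i ∈ T, 0 < ℓ i) (hA : ∀ i ∈ T, Ioo (e - ℓ i) e ⊆ A i) : T.card ≤ 3 := by
  obtain ⟨δ, hδ, hδ'⟩ := exists_delta T ℓ hℓ
  refine h.card hT hc (U := Ioo (e - δ) e) isOpen_Ioo ⟨e - δ / 2, by constructor <;> linarith⟩ ?_
  intro i hi x hx
  exact hA i hi ⟨lt_of_le_of_lt (by linarith [hδ' i hi]) hx.1, hx.2⟩

end S54

open S54

/-- **S1** -/
theorem u_sum1 (hM : Shp.M_class) (hO : U_one) (hH : Shp.H_sum) : U_sum1 := by
  classical
  obtain ⟨C₁, hR⟩ := ray_sum hM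
  obtain ⟨C₀, hC₀, hO⟩ := hO
  obtain ⟨C₂, hH⟩ := hH
  obtain ⟨T, hT⟩ : ∃ T : ℝ≥0∞, T = 10 * (ENNReal.ofReal C₀ * (ENNReal.ofReal C₁ +
    ENNReal.ofReal C₁ + 3 * (2 * ENNReal.ofReal C₂))) := ⟨_, rfl⟩
  have hTtop : T ≠ ⊤ := by
    rw [hT]
    finiteness
  refine ⟨T.toReal, fun ι F n W hF hm => ?_⟩
  have key : ∑ i ∈ F, ENNReal.ofReal (diam (insert (rt ((W i).dat (1 / 2)))
      (Lm ((W i).dat (1 / 2)))) ^ 2 / n i) ≤ T := by
    rw [hT]
    refine split10 F n _ _ fun F' hF' hmod => ?_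
    have hcl : Cls F' n (fun i => A1 (W i)) :=
      ⟨fun i hi => by have := (hF i (hF' hi)).1; omega, hmod,
        fun k θ hθ S hS => hm k θ hθ S (hS.trans hF')⟩
    have hlt : ∀ i ∈ F', (W i).Ok ∧ 0 < (W i).m ∧
        ((W i).dat (1 / 2)).tm < ((W i).dat (1 / 2)).tp := fun i hi => by
      have h1 := (hF i (hF' hi)).2.1.ok
      exact ⟨h1, ok_m_pos h1, (WS.dat_cir h1 half_pos half_lt).lt⟩
    have hr := hR ι F' n _ (fun i => ((W i).dat (1 / 2)).tm)
      (fun i => ((W i).dat (1 / 2)).tp - ((W i).dat (1 / 2)).tm) hcl (by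
        intro i hi
        obtain ⟨h1, h2, h3, h4⟩ := hF i (hF' hi)
        obtain ⟨g1, g2, g3⟩ := hlt i hi
        refine ⟨h1, h3, by linarith, h2.len, ?_, ?_⟩
        · refine le_trans ?_ (gap (M := 2 * (W i).m) (M' := 2 * (W i).m) (by omega) (by omega)
            (per_V g1) (per_V' g1) g3)
          have := h2.le
          exact pow_le_pow_of_le_one (by norm_num) (by norm_num) (by omega)
        · intro x hx
          exact ⟨hx.1, by linarith [hx.2]⟩)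
    have hv := vol_cls F' W (fun W => volume (Hd W (1 / 2))) (fun i _ j _ hs => by rw [same_hd hs])
      (2 * ENNReal.ofReal C₂)
      (fun G hG hGG => hd_sum hH G W (fun i hi => (hlt i (hG hi)).1) hGG) (by
        intro i₀ hi₀ S hS hSS
        refine card_right hcl hS ?_ ((W i₀).dat (1 / 2)).tm
          (fun i => ((W i).dat (1 / 2)).tp - ((W i).dat (1 / 2)).tm)
          (fun i hi => by linarith [(hlt i (hS hi)).2.2]) ?_
        · intro i hi j hj
          have h1 := (hF i (hF' (hS hi))).2.1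
          have h2 := (hF j (hF' (hS hj))).2.1
          have e : (W i).m = (W j).m := by rw [(hSS i hi).1, (hSS j hj).1]
          exact comp_m h1.lt h1.le (by rw [e]; exact h2.lt)
        · intro i hi x hx
          obtain ⟨-, -, h3, h4⟩ := hF i (hF' (hS hi))
          obtain ⟨-, -, h3', h4'⟩ := hF i₀ (hF' hi₀)
          have e := same_tm' (hlt i (hS hi)).1 (hlt i₀ hi₀).1 (hSS i hi) h3
            (by linarith [(hlt i (hS hi)).2.2]) h3' (by linarith [(hlt i₀ hi₀).2.2])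
          rw [← e] at hx
          exact ⟨hx.1, by linarith [hx.2]⟩)
    have hone : ∀ i ∈ F', ENNReal.ofReal (diam (insert (rt ((W i).dat (1 / 2)))
        (Lm ((W i).dat (1 / 2)))) ^ 2 / n i) ≤ ENNReal.ofReal C₀ *
        (RayE ((W i).dat (1 / 2)).tm (((W i).dat (1 / 2)).tp - ((W i).dat (1 / 2)).tm) +
        RayE ((W i).dat (1 / 2)).tp (((W i).dat (1 / 2)).tp - ((W i).dat (1 / 2)).tm) +
        volume (Hd (W i) (1 / 2))) := by
      intro i hi
      obtain ⟨h1, h2, -, -⟩ := hF i (hF' hi)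
      exact div_n (by omega) hC₀ (hO (n i) (W i) h1 h2)
    refine (Finset.sum_le_sum hone).trans ?_
    rw [← Finset.mul_sum, Finset.sum_add_distrib, Finset.sum_add_distrib]
    have e : ∑ i ∈ F', RayE ((W i).dat (1 / 2)).tp
        (((W i).dat (1 / 2)).tp - ((W i).dat (1 / 2)).tm) = ∑ i ∈ F',
        RayE (((W i).dat (1 / 2)).tm + (((W i).dat (1 / 2)).tp - ((W i).dat (1 / 2)).tm))
          (((W i).dat (1 / 2)).tp - ((W i).dat (1 / 2)).tm) := by
      refine Finset.sum_congr rfl fun i _ => ?_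
      rw [add_sub_cancel]
    rw [e]
    gcongr
    · exact hr.1
    · exact hr.2
  rw [← ENNReal.ofReal_sum_of_nonneg (fun i _ => by positivity)] at key
  exact (ENNReal.ofReal_le_iff_le_toReal hTtop).1 key

/-- **S2** -/
theorem u_sum2 (hM : Shp.M_class) (hO : U_two) (hH : Shp.H_sum) (hA : U_area) : U_sum2 := by
  classical
  obtain ⟨C₁, hR⟩ := ray_sum hM
  obtain ⟨C₀, hC₀, hO⟩ := hO
  obtain ⟨C₂, hH⟩ := hH
  obtain ⟨C₃, hA⟩ := hA
  obtain ⟨T, hT⟩ : ∃ T : ℝ≥0∞, T = 10 * (ENNReal.ofReal C₀ * (ENNReal.ofReal C₁ +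
    ENNReal.ofReal C₁ + ENNReal.ofReal C₁ + ENNReal.ofReal C₁ + 3 * (2 * ENNReal.ofReal C₂) +
    3 * ENNReal.ofReal C₃)) := ⟨_, rfl⟩
  have hTtop : T ≠ ⊤ := by
    rw [hT]
    finiteness
  refine ⟨T.toReal, fun ι F n W W' hF hm => ?_⟩
  have h3 : ∀ i, i ∈ F → ∃ W'' : WS, W''.Ok ∧ W''.m = 2 * (W' i).m ∧
      ((W' i).dat (1 / 2)).tm < (W''.dat (1 / 2)).tm ∧
      (W''.dat (1 / 2)).tm - ((W' i).dat (1 / 2)).tm ≤ 1 / (2 ^ (2 * (W' i).m) - 1) ∧
      ENNReal.ofReal (diam (Cap.KP ((W i).dat (1 / 2)) ((W' i).dat (1 / 2))) ^ 2 / n i) ≤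
        ENNReal.ofReal C₀ *
        (RayE ((W i).dat (1 / 2)).tm (((W' i).dat (1 / 2)).tm - ((W i).dat (1 / 2)).tm) +
        RayE ((W' i).dat (1 / 2)).tm (((W' i).dat (1 / 2)).tm - ((W i).dat (1 / 2)).tm) +
        RayE ((W' i).dat (1 / 2)).tp (((W i).dat (1 / 2)).tp - ((W' i).dat (1 / 2)).tp) +
        RayE ((W i).dat (1 / 2)).tp (((W i).dat (1 / 2)).tp - ((W' i).dat (1 / 2)).tp) +
        volume (Hd (W i) (1 / 2)) + volume (HK W'')) := by
    intro i hi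
    obtain ⟨h1, h2, -, -⟩ := hF i hi
    obtain ⟨W'', a1, a2, a3, a4, a5⟩ := hO (n i) (W i) (W' i) h1 h2
    exact ⟨W'', a1, a2, a3, a4, div_n (by omega) hC₀ a5⟩
  have : Nonempty WS := ⟨⟨0, fun _ => 0, 0, fun _ => (0, 0)⟩⟩
  choose! W'' b1 b2 b3 b4 b5 using h3
  have key : ∑ i ∈ F, ENNReal.ofReal (diam (Cap.KP ((W i).dat (1 / 2))
      ((W' i).dat (1 / 2))) ^ 2 / n i) ≤ T := by
    rw [hT]
    refine split10 F n _ _ fun F' hF' hmod => ?_
    have hcl : Cls F' n (fun i => A2 (W i) (W' i)) :=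
      ⟨fun i hi => by have := (hF i (hF' hi)).1; omega, hmod,
        fun k θ hθ S hS => hm k θ hθ S (hS.trans hF')⟩
    have hlt : ∀ i ∈ F', 0 < (W i).m ∧ 0 < (W' i).m ∧
        ((W' i).dat (1 / 2)).tm < ((W' i).dat (1 / 2)).tp := fun i hi => by
      have h1 := (hF i (hF' hi)).2.1
      exact ⟨ok_m_pos h1.ok, ok_m_pos h1.ok', (WS.dat_cir h1.ok' half_pos half_lt).lt⟩
    have hr1 := hR ι F' n _ (fun i => ((W i).dat (1 / 2)).tm)
      (fun i => ((W' i).dat (1 / 2)).tm - ((W i).dat (1 / 2)).tm) hcl (by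
        intro i hi
        obtain ⟨h1, h2, h3, h4⟩ := hF i (hF' hi)
        obtain ⟨g1, g2, g3⟩ := hlt i hi
        have k1 := h2.left
        have k2 := h2.right
        refine ⟨h1, h3, by linarith, h2.len, ?_, ?_⟩
        · refine le_trans ?_ (gap (M := 2 * (W i).m) (M' := 2 * (W' i).m) (by omega) (by omega)
            (per_V h2.ok) (per_V h2.ok') k1)
          have k3 := h2.le
          have k4 := h2.le'
          exact pow_le_pow_of_le_one (by norm_num) (by norm_num) (by omega)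
        · intro x hx
          refine ⟨⟨hx.1, by linarith [hx.2]⟩, fun h5 => ?_⟩
          linarith [hx.2, h5.1])
    have hr2 := hR ι F' n _ (fun i => ((W' i).dat (1 / 2)).tp)
      (fun i => ((W i).dat (1 / 2)).tp - ((W' i).dat (1 / 2)).tp) hcl (by
        intro i hi
        obtain ⟨h1, h2, h3, h4⟩ := hF i (hF' hi)
        obtain ⟨g1, g2, g3⟩ := hlt i hi
        have k1 := h2.left
        have k2 := h2.right
        refine ⟨h1, by linarith, by linarith, h2.len', ?_, ?_⟩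
        · refine le_trans ?_ (gap (M := 2 * (W' i).m) (M' := 2 * (W i).m) (by omega) (by omega)
            (per_V' h2.ok') (per_V' h2.ok) k2)
          have k3 := h2.le
          have k4 := h2.le'
          exact pow_le_pow_of_le_one (by norm_num) (by norm_num) (by omega)
        · intro x hx
          refine ⟨⟨by linarith [hx.1], by linarith [hx.2]⟩, fun h5 => ?_⟩
          linarith [hx.1, h5.2])
    have hv1 := vol_cls F' W (fun W => volume (Hd W (1 / 2)))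
      (fun i _ j _ hs => by rw [same_hd hs]) (2 * ENNReal.ofReal C₂)
      (fun G hG hGG => hd_sum hH G W (fun i hi => (hF i (hF' (hG hi))).2.1.ok) hGG) (by
        intro i₀ hi₀ S hS hSS
        refine card_right hcl hS ?_ ((W i₀).dat (1 / 2)).tm
          (fun i => ((W' i).dat (1 / 2)).tm - ((W i).dat (1 / 2)).tm)
          (fun i hi => by linarith [(hF i (hF' (hS hi))).2.1.left]) ?_
        · intro i hi j hj
          have h1 := (hF i (hF' (hS hi))).2.1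
          have h2 := (hF j (hF' (hS hj))).2.1
          have e : (W i).m = (W j).m := by rw [(hSS i hi).1, (hSS j hj).1]
          exact comp_m h1.lt h1.le (by rw [e]; exact h2.lt)
        · intro i hi x hx
          obtain ⟨-, q2, q3, q4⟩ := hF i (hF' (hS hi))
          obtain ⟨-, q2', q3', q4'⟩ := hF i₀ (hF' hi₀)
          have k1 := q2.left
          have k2 := q2.right
          have k1' := q2'.left
          have k2' := q2'.right
          have e := same_tm' q2.ok q2'.ok (hSS i hi) q3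
            (by linarith [(hlt i (hS hi)).2.2]) q3' (by linarith [(hlt i₀ hi₀).2.2])
          rw [← e] at hx
          refine ⟨⟨hx.1, by linarith [hx.2, (hlt i (hS hi)).2.2]⟩, fun h5 => ?_⟩
          linarith [hx.2, h5.1])
    have hv2 := vol_cls F' W'' (fun W => volume (HK W))
      (fun i _ j _ hs => by rw [same_hk hs]) (ENNReal.ofReal C₃)
      (fun G hG hGG => hA ι G W'' (fun i hi => b1 i (hF' (hG hi))) hGG) (by
        intro i₀ hi₀ S hS hSS
        refine card_left hcl hS ?_ ((W' i₀).dat (1 / 2)).tm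
          (fun i => ((W' i).dat (1 / 2)).tm - ((W i).dat (1 / 2)).tm)
          (fun i hi => by linarith [(hF i (hF' (hS hi))).2.1.left]) ?_
        · intro i hi j hj
          have h1 := (hF i (hF' (hS hi))).2.1
          have h2 := (hF j (hF' (hS hj))).2.1
          have e : (W'' i).m = (W'' j).m := by rw [(hSS i hi).1, (hSS j hj).1]
          rw [b2 i (hF' (hS hi)), b2 j (hF' (hS hj))] at e
          have e1 := h1.le
          have e2 := h1.le'
          have e3 := h2.lt'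
          omega
        · intro i hi x hx
          obtain ⟨-, q2, q3, q4⟩ := hF i (hF' (hS hi))
          obtain ⟨-, q2', q3', q4'⟩ := hF i₀ (hF' hi₀)
          have k1 := q2.left
          have k2 := q2.right
          have k1' := q2'.left
          have k2' := q2'.right
          obtain ⟨k, hk⟩ := same_tm (b1 i (hF' (hS hi))) (b1 i₀ (hF' hi₀)) (hSS i hi)
          have h4 := (hSS i hi).1
          rw [b2 i (hF' (hS hi)), b2 i₀ (hF' hi₀)] at h4
          have hk' := child_tm q2.ok' q2'.ok' (by omega : (W' i).m = (W' i₀).m) hk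
            (b3 i (hF' (hS hi))) (b4 i (hF' (hS hi))) (b3 i₀ (hF' hi₀)) (b4 i₀ (hF' hi₀))
          have g1 := (hlt i (hS hi)).2.2
          have g2 := (hlt i₀ hi₀).2.2
          have c1 : (k : ℝ) < 1 := by linarith
          have c2 : (-1 : ℝ) < k := by linarith
          have c3 : k < 1 := by exact_mod_cast c1
          have c4 : -1 < k := by exact_mod_cast c2
          have c5 : k = 0 := by omega
          rw [c5, Int.cast_zero, add_zero] at hk'
          rw [← hk'] at hx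
          refine ⟨⟨by linarith [hx.1], by linarith [hx.2]⟩, fun h5 => ?_⟩
          linarith [hx.2, h5.1])
    refine (Finset.sum_le_sum fun i hi => b5 i (hF' hi)).trans ?_
    rw [← Finset.mul_sum, Finset.sum_add_distrib, Finset.sum_add_distrib, Finset.sum_add_distrib,
      Finset.sum_add_distrib, Finset.sum_add_distrib]
    have e1 : ∑ i ∈ F', RayE ((W' i).dat (1 / 2)).tm
        (((W' i).dat (1 / 2)).tm - ((W i).dat (1 / 2)).tm) = ∑ i ∈ F',
        RayE (((W i).dat (1 / 2)).tm + (((W' i).dat (1 / 2)).tm - ((W i).dat (1 / 2)).tm))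
          (((W' i).dat (1 / 2)).tm - ((W i).dat (1 / 2)).tm) := by
      refine Finset.sum_congr rfl fun i _ => ?_
      rw [add_sub_cancel]
    have e2 : ∑ i ∈ F', RayE ((W i).dat (1 / 2)).tp
        (((W i).dat (1 / 2)).tp - ((W' i).dat (1 / 2)).tp) = ∑ i ∈ F',
        RayE (((W' i).dat (1 / 2)).tp + (((W i).dat (1 / 2)).tp - ((W' i).dat (1 / 2)).tp))
          (((W i).dat (1 / 2)).tp - ((W' i).dat (1 / 2)).tp) := by
      refine Finset.sum_congr rfl fun i _ => ?_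
      rw [add_sub_cancel]
    rw [e1, e2]
    gcongr
    · exact hr1.1
    · exact hr1.2
    · exact hr2.1
    · exact hr2.2
  rw [← ENNReal.ofReal_sum_of_nonneg (fun i _ => by positivity)] at key
  exact (ENNReal.ofReal_le_iff_le_toReal hTtop).1 key

end Pool.Agent.Work.MLC.Uni
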