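import Pool.Agent.Work.MLC.Uni0
import Pool.Agent.Work.MLC.CapE26
import Pool.Agent.Work.MLC.CapT6

set_option autoImplicit false

/-! # Theorem U: the estimates of one piece (helper26) -/

namespace Pool.Agent.Work.MLC.Uni

open Filter Topology Metric Set Complex MeasureTheory
open Pool.Agent.Work.MLC.Sat Pool.Agent.Work.MLC.Cnt
open Pool.Agent.Work.MLC.Shp (Wake lg RayE Hd)
open scoped ENNReal

/-! ### comparison of weights -/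

lemma bet_cmp26 {N N' g : ℝ} (hN' : 0 < N') (h : N' ≤ 6561 * N) :
    Cap.bet N g ≤ 3 * Cap.bet N' g := by
  have h1 : Cap.bet (6561 * N) g ≤ Cap.bet N' g := Cap.bet_anti hN' h
  have h2 : Cap.bet N g ≤ 3 * Cap.bet (6561 * N) g := by
    unfold Cap.bet
    have h3 : (3 : ℝ) = 6561 ^ ((1 : ℝ) / 8) := by
      rw [show (6561 : ℝ) = 3 ^ (8 : ℕ) by norm_num, ← Real.rpow_natCast,
        ← Real.rpow_mul (by norm_num)]
      norm_num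
    rw [h3, ← Real.mul_rpow (by norm_num) (le_trans zero_le_one (le_max_left _ _))]
    refine Real.rpow_le_rpow (le_trans zero_le_one (le_max_left _ _)) ?_ (by norm_num)
    refine max_le ?_ ?_
    · have := le_max_left (1 : ℝ) (Real.logb 2 (1 / g) / (6561 * N))
      linarith
    · have h4 := le_max_right (1 : ℝ) (Real.logb 2 (1 / g) / (6561 * N))
      have e : Real.logb 2 (1 / g) / (6561 * N) = Real.logb 2 (1 / g) / N / 6561 := by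
        rw [div_div, mul_comm N]
      rw [e] at h4 ⊢
      linarith
  linarith

/-- comparison of the ray energies -/
lemma rayE_le26 {N e e' D ℓ : ℝ} (hN0 : 0 < N) (hN : N ≤ 100000 * lg ℓ)
    (hD : D + |e - e'| ≤ ℓ ^ (5 / 4 : ℝ)) : Cap.rayE N e D ℓ ≤ 3 * RayE e' ℓ := by
  unfold Cap.rayE RayE Shp.Ray
  have hsub : Cap.RS e D ℓ ⊆ Shp.Sc e' (ℓ ^ (5 / 4 : ℝ)) ℓ := by
    rintro z ⟨h1, h2, h3⟩
    refine ⟨h1, h2, ?_⟩
    have := abs_sub_le (z.im / (2 * Real.pi)) e e'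
    linarith
  have hlg : 0 < lg ℓ := by linarith
  rw [← lintegral_const_mul' _ _ (by norm_num : (3 : ℝ≥0∞) ≠ ⊤)]
  refine (lintegral_mono_set hsub).trans (setLIntegral_mono' (Cap.meas_Sc _ _ _) fun z _ => ?_)
  rw [show (3 : ℝ≥0∞) = ENNReal.ofReal 3 by simp, ← ENNReal.ofReal_mul (by norm_num)]
  refine ENNReal.ofReal_le_ofReal ?_
  rw [Cap.bet_eq, ← mul_div_assoc]
  have h1 := bet_cmp26 (N := 16 * lg ℓ) (g := z.re) hN0 (by linarith)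
  have h2 := Cap.bet_pos N z.re
  have h3 := Cap.bet_pos (16 * lg ℓ) z.re
  rw [div_le_div_iff₀ h2 h3]
  have h4 : 0 ≤ ‖deriv cOf z‖ ^ 2 := by positivity
  nlinarith [mul_le_mul_of_nonneg_left h1 h4]

/-! ### lengths of arcs -/

/-- the ends of the plateau at `1 / 2` are periodic -/
lemma per26 {W : WS} (hW : W.Ok) : (∃ k : ℤ, ((2 : ℝ) ^ (2 * W.m) - 1) * (W.dat (1 / 2)).tm = k) ∧
    ∃ k : ℤ, ((2 : ℝ) ^ (2 * W.m) - 1) * (W.dat (1 / 2)).tp = k := by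
  have h0 : (0 : ℚ) < 1 / 2 := by norm_num
  have h1 : (1 / 2 : ℚ) < 1 := by norm_num
  have hd : ((1 / 2 : ℚ)).den = 2 := by norm_num
  have hC := WS.dat_cir hW h0 h1
  obtain ⟨-, ⟨k, hk⟩, -⟩ := hC.per
  obtain ⟨j, l, hjl⟩ := hC.orb
  rw [WS.dat_m hW h0 h1, WS.dat_x hW h0 h1, hd, mul_comm W.m 2] at hk
  rw [WS.dat_m hW h0 h1] at hjl
  refine ⟨⟨k, by linarith⟩, ⟨2 ^ (W.m * j) * k + (2 ^ (2 * W.m) - 1) * l, ?_⟩⟩
  push_cast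
  rw [hjl, ← hk]
  ring

lemma arc26 {a b : ℕ} (ha : 0 < a) (hb : 0 < b) {s t : ℝ} (hs : ∃ k : ℤ, ((2 : ℝ) ^ a - 1) * s = k)
    (ht : ∃ k : ℤ, ((2 : ℝ) ^ b - 1) * t = k) (h : s < t) : (1 / 2) ^ (a + b) ≤ t - s := by
  obtain ⟨k, hk⟩ := hs
  obtain ⟨l, hl⟩ := ht
  have ha1 : (1 : ℝ) < 2 ^ a := one_lt_pow₀ (by norm_num) ha.ne'
  have hb1 : (1 : ℝ) < 2 ^ b := one_lt_pow₀ (by norm_num) hb.ne'
  have hz : ((2 : ℝ) ^ a - 1) * ((2 : ℝ) ^ b - 1) * (t - s) =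
      (((2 ^ a - 1) * l - (2 ^ b - 1) * k : ℤ) : ℝ) := by
    push_cast
    rw [← hk, ← hl]
    ring
  have hpos : 0 < ((2 : ℝ) ^ a - 1) * ((2 : ℝ) ^ b - 1) * (t - s) :=
    mul_pos (mul_pos (by linarith) (by linarith)) (by linarith)
  have h1 : (1 : ℝ) ≤ ((2 : ℝ) ^ a - 1) * ((2 : ℝ) ^ b - 1) * (t - s) := by
    rw [hz] at hpos ⊢
    have : 0 < (2 ^ a - 1) * l - (2 ^ b - 1) * k := by exact_mod_cast hpos
    exact_mod_cast this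
  have h2 : ((2 : ℝ) ^ a - 1) * ((2 : ℝ) ^ b - 1) ≤ 2 ^ (a + b) := by
    rw [pow_add]
    nlinarith
  have h3 : (1 : ℝ) ≤ 2 ^ (a + b) * (t - s) :=
    h1.trans (mul_le_mul_of_nonneg_right h2 (by linarith))
  rw [one_div, inv_pow, inv_le_iff_one_le_mul₀ (by positivity)]
  linarith

/-- powers of one half -/
lemma pow26 {ℓ : ℝ} {a b : ℕ} (h : (1 / 2) ^ a ≤ ℓ) (hab : 5 * a + 4 ≤ 4 * b) :
    2 * (1 / 2) ^ b ≤ ℓ ^ (5 / 4 : ℝ) := by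
  have h1 : ((1 / 2 : ℝ) ^ a) ^ (5 / 4 : ℝ) ≤ ℓ ^ (5 / 4 : ℝ) :=
    Real.rpow_le_rpow (by positivity) h (by norm_num)
  refine le_trans ?_ h1
  rw [← Real.rpow_natCast (1 / 2) a, ← Real.rpow_mul (by norm_num)]
  have h2 : (2 : ℝ) * (1 / 2) ^ b = (1 / 2 : ℝ) ^ ((b : ℝ) - 1) := by
    rw [Real.rpow_sub (by norm_num), Real.rpow_one, Real.rpow_natCast]
    ring
  rw [h2]
  refine Real.rpow_le_rpow_of_exponent_ge (by norm_num) (by norm_num) ?_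
  have h3 : (5 * (a : ℝ) + 4) ≤ 4 * b := by exact_mod_cast hab
  linarith

lemma lg26 {ℓ : ℝ} {n : ℕ} (h0 : 0 < ℓ) (hn : 4000 ≤ n) (h : ℓ ≤ (1 / 2) ^ (n / 20)) :
    (n : ℝ) / 21 ≤ lg ℓ := by
  have h1 : ((n / 20 : ℕ) : ℝ) ≤ lg ℓ := by
    unfold lg
    rw [Real.le_logb_iff_rpow_le (by norm_num) (by positivity), Real.rpow_natCast,
      le_div_iff₀ h0]
    calc (2 : ℝ) ^ (n / 20) * ℓ ≤ 2 ^ (n / 20) * (1 / 2) ^ (n / 20) := by gcongr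
      _ = 1 := by rw [← mul_pow]; norm_num
  have h2 : n ≤ 21 * (n / 20) := by omega
  have h3 : (n : ℝ) ≤ 21 * ((n / 20 : ℕ) : ℝ) := by exact_mod_cast h2
  linarith

lemma le_one26 {ℓ : ℝ} {k : ℕ} (h : ℓ ≤ (1 / 2) ^ k) : ℓ ≤ 1 :=
  h.trans (pow_le_one₀ (by norm_num) (by norm_num))

lemma rpow_le26 {ℓ : ℝ} (h0 : 0 < ℓ) (h : ℓ ≤ 1) : ℓ ^ (5 / 4 : ℝ) ≤ ℓ := by
  have := Real.rpow_le_rpow_of_exponent_ge h0 h (show (1 : ℝ) ≤ 5 / 4 by norm_num)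
  rwa [Real.rpow_one] at this

lemma DD26 (m : ℕ) : Cap.DD m 2 = 2 * (1 / 2) ^ (5 * m) := by
  unfold Cap.DD
  rw [show m * (3 * 2 - 1) = 5 * m by ring]

/-! ### one arc -/

/-- **E1** -/
theorem u_one : U_one := by
  refine ⟨25 * 10 ^ 17, by norm_num, fun n W hn hT => ?_⟩
  have h0 : (0 : ℚ) < 1 / 2 := by norm_num
  have h1 : (1 / 2 : ℚ) < 1 := by norm_num
  have hd : ((1 / 2 : ℚ)).den = 2 := by norm_num
  have hP := WS.dat_par hT.ok h0 h1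
  have hC := WS.dat_cir hT.ok h0 h1
  have hm := hT.ok.wide.pos
  rw [Cap.diam_limb hP hC]
  obtain ⟨p1, p2⟩ := per26 hT.ok
  obtain ⟨ℓ, hℓ⟩ : ∃ ℓ, ℓ = (W.dat (1 / 2)).tp - (W.dat (1 / 2)).tm := ⟨_, rfl⟩
  have hlt := hC.lt
  have hpos : 0 < ℓ := by rw [hℓ]; linarith
  have hlen := hT.len
  rw [← hℓ] at hlen ⊢
  have hℓ1 := le_one26 hlen
  have hlg := lg26 hpos hn hlen
  have hnR : (4000 : ℝ) ≤ n := by exact_mod_cast hn
  have hmn : (W.m : ℝ) ≤ 4 * n := by exact_mod_cast hT.le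
  have hm1 : (1 : ℝ) ≤ W.m := by exact_mod_cast hm
  -- the length is at least `2 ^ (- 2 m)`
  have hlow : (1 / 2) ^ (2 * W.m) ≤ ℓ := by
    have h2 := Cap.plat15 hT.ok h0 h1
    rw [hd, ← hℓ, mul_comm W.m 2] at h2
    rw [one_div, inv_pow, inv_le_iff_one_le_mul₀ (by positivity)]
    linarith
  have hDD : Cap.DD W.m 2 ≤ ℓ ^ (5 / 4 : ℝ) := by
    rw [DD26]
    exact pow26 hlow (by omega)
  have hkey := Cap.one_all W hT.ok (1 / 2) ℓ h0 h1 hℓ1 (by rw [← hℓ]; linarith)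
    (by rw [hd]; exact hDD.trans (rpow_le26 hpos hℓ1))
  refine hkey.trans ?_
  have r1 : Cap.rayE (4 * W.m * ((1 / 2 : ℚ)).den) (W.dat (1 / 2)).tm
      (Cap.DD W.m ((1 / 2 : ℚ)).den) ℓ ≤ 3 * RayE (W.dat (1 / 2)).tm ℓ := by
    rw [hd]
    refine rayE_le26 (by positivity) (by push_cast; linarith) ?_
    rw [sub_self, abs_zero, add_zero]
    exact hDD
  have r2 : Cap.rayE (4 * W.m * ((1 / 2 : ℚ)).den) (W.dat (1 / 2)).tp
      (Cap.DD W.m ((1 / 2 : ℚ)).den) ℓ ≤ 3 * RayE (W.dat (1 / 2)).tp ℓ := by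
    rw [hd]
    refine rayE_le26 (by positivity) (by push_cast; linarith) ?_
    rw [sub_self, abs_zero, add_zero]
    exact hDD
  have f1 : Cap.en (Cap.Rf (W.dat (1 / 2)).tm (W.dat (1 / 2)).tp ℓ) ≤ RayE (W.dat (1 / 2)).tm ℓ :=
    Cap.roofE_le hpos (by linarith) le_rfl (by linarith)
  unfold Cap.cutE
  obtain ⟨a, ha⟩ : ∃ a, a = RayE (W.dat (1 / 2)).tm ℓ := ⟨_, rfl⟩
  obtain ⟨b, hb⟩ : ∃ b, b = RayE (W.dat (1 / 2)).tp ℓ := ⟨_, rfl⟩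
  obtain ⟨v, hv⟩ : ∃ v, v = volume (Hd W (1 / 2)) := ⟨_, rfl⟩
  have hv' : volume (Cap.HH W (1 / 2)) = v := by rw [hv]; rfl
  rw [← ha] at r1 f1
  rw [← hb] at r2
  rw [← ha, ← hb, ← hv, hv']
  have g1 : ENNReal.ofReal (W.m * ((1 / 2 : ℚ)).den) ≤ 8 * ENNReal.ofReal n := by
    rw [show (8 : ℝ≥0∞) = ENNReal.ofReal 8 by simp, ← ENNReal.ofReal_mul (by norm_num), hd]
    refine ENNReal.ofReal_le_ofReal ?_
    push_cast
    linarith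
  have g2 : ENNReal.ofReal (W.m : ℝ) ≤ 4 * ENNReal.ofReal n := by
    rw [show (4 : ℝ≥0∞) = ENNReal.ofReal 4 by simp, ← ENNReal.ofReal_mul (by norm_num)]
    exact ENNReal.ofReal_le_ofReal hmn
  have g3 : (1 : ℝ≥0∞) ≤ ENNReal.ofReal n := by
    rw [← ENNReal.ofReal_one]
    exact ENNReal.ofReal_le_ofReal (by linarith)
  have e1 : ENNReal.ofReal (25 * 10 ^ 17 * n) * (a + b + v) =
      ENNReal.ofReal (10 ^ 17) * (25 * ENNReal.ofReal n * (a + b + v)) := by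
    rw [← mul_assoc]
    congr 1
    rw [show (25 : ℝ≥0∞) = ENNReal.ofReal 25 by simp, ← ENNReal.ofReal_mul (by norm_num),
      ← ENNReal.ofReal_mul (by norm_num)]
    congr 1
    ring
  rw [e1]
  refine mul_le_mul' le_rfl ?_
  obtain ⟨L, hL⟩ : ∃ L, L = ENNReal.ofReal (n : ℝ) := ⟨_, rfl⟩
  rw [← hL] at g1 g2 g3 ⊢
  have k1 := mul_le_mul' g1 (add_le_add r1 r2)
  have k2 := mul_le_mul' g2 (le_refl v)
  have k3 : Cap.en (Cap.Rf (W.dat (1 / 2)).tm (W.dat (1 / 2)).tp ℓ) ≤ L * a := f1.trans (by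
    calc a = 1 * a := (one_mul a).symm
      _ ≤ L * a := mul_le_mul' g3 le_rfl)
  refine (add_le_add (add_le_add k1 k2) k3).trans ?_
  have e2 : 8 * L * (3 * a + 3 * b) + 4 * L * v + L * a =
      25 * (L * a) + 24 * (L * b) + 4 * (L * v) := by ring
  have e3 : 25 * L * (a + b + v) = 25 * (L * a) + 25 * (L * b) + 25 * (L * v) := by ring
  rw [e2, e3]
  gcongr <;> norm_num

/-! ### the cuts with two heights -/

/-- the outer cut -/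
lemma outer26 {W : WS} (hW : W.Ok) {x : ℚ} (hx0 : 0 < x) (hx1 : x < 1) {h₁ h₂ : ℝ} (h10 : 0 < h₁)
    (h11 : h₁ ≤ 1) (h20 : 0 < h₂) (h21 : h₂ ≤ 1) :
    ∃ (x₁ x₂ : ℚ) (g₁ g₂ : ℝ) (F : Finset ℕ) (P : ℕ → Set ℂ), 0 < x₁ ∧ x₁ < x ∧ x < x₂ ∧ x₂ < 1 ∧
      0 < g₁ ∧ g₁ ≤ h₁ ∧ 0 < g₂ ∧ g₂ ≤ h₂ ∧ (∀ i ∈ F, Bornology.IsBounded (P i)) ∧
      (∀ y : ℝ, (x₁ : ℝ) ≤ y → y ≤ x₂ → ∃ i ∈ F, W.c (2 * Real.pi * y * I) ∈ P i) ∧
      (∀ t : ℝ, 0 < t → t ≤ g₁ → ∃ i ∈ F,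
        cOf ((t : ℂ) + 2 * Real.pi * (W.dat x₁).tm * I) ∈ P i) ∧
      (∀ t : ℝ, 0 < t → t ≤ g₂ → ∃ i ∈ F,
        cOf ((t : ℂ) + 2 * Real.pi * (W.dat x₂).tp * I) ∈ P i) ∧
      (W.dat x).tm - (W.dat x₁).tm ≤ Cap.DD W.m x.den ∧
      (W.dat x₂).tp - (W.dat x).tp ≤ Cap.DD W.m x.den ∧
      ENNReal.ofReal (diam (RaySeg (W.dat x₁).tm g₁ h₁) ^ 2) ≤
        ENNReal.ofReal (2 * 10 ^ 7 * (W.m * x.den)) *
          Cap.rayE (4 * W.m * x.den) (W.dat x).tm (Cap.DD W.m x.den) h₁ ∧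
      ENNReal.ofReal (diam (RaySeg (W.dat x₂).tp g₂ h₂) ^ 2) ≤
        ENNReal.ofReal (2 * 10 ^ 7 * (W.m * x.den)) *
          Cap.rayE (4 * W.m * x.den) (W.dat x).tp (Cap.DD W.m x.den) h₂ ∧
      ENNReal.ofReal ((∑ i ∈ F, diam (P i)) ^ 2) ≤
        ENNReal.ofReal (10 ^ 16 * W.m) * volume (Cap.HH W x) := by
  obtain ⟨u, v, hn⟩ := Cap.c_nbr x hx0 hx1
  have hray := Cap.c_cutray_explicit Cap.c_leaf Cap.c_average Cap.c_dist
  obtain ⟨x₁, -, g₁, a1, a2, -, -, a3, a4, a5, -, a6, -⟩ :=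
    hray W hW x u v hx0 hx1 hn h₁ h10 h11
  obtain ⟨-, x₂, g₂, -, -, b1, b2, b3, b4, -, b5, -, b6⟩ :=
    hray W hW x u v hx0 hx1 hn h₂ h20 h21
  obtain ⟨F, P, k1, k2, ⟨i₁, hi₁, k3⟩, ⟨i₂, hi₂, k4⟩, k5⟩ :=
    Cap.c_cutgate q_gate W hW x u v x₁ x₂ hx0 hx1 hn a1 a2 b1 b2
  have hu0 : 0 < u := by
    refine lt_of_lt_of_le ?_ hn.u0
    have : (0 : ℚ) < x.den := by exact_mod_cast x.den_pos
    positivity
  have hv1 : v < 1 := by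
    refine lt_of_le_of_lt hn.v1 ?_
    have : (0 : ℚ) < x.den := by exact_mod_cast x.den_pos
    have h : (0 : ℚ) < 2 / (3 * x.den) := by positivity
    linarith
  exact ⟨x₁, x₂, g₁, g₂, F, P, hu0.trans a1, a2, b1, b2.trans hv1, a3, a4, b3, b4, k1, k2,
    fun t ht ht' => ⟨i₁, hi₁, k3 (a5 t ht ht')⟩, fun t ht ht' => ⟨i₂, hi₂, k4 (b5 t ht ht')⟩,
    (Cap.c_dist W hW x u v x₁ hx0 hx1 hn).1 a1 a2, (Cap.c_dist W hW x u v x₂ hx0 hx1 hn).2 b1 b2,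
    a6, b6, k5⟩

/-- the inner cut -/
lemma inner26 {C : ℝ} (hG : ∀ W : WS, W.Ok → ∀ x₁ x₂ : ℚ, 1 / 150 < x₁ → x₁ < 1 / 100 →
      99 / 100 < x₂ → x₂ < 1 - 1 / 150 → ∃ (F : Finset ℕ) (P : ℕ → Set ℂ),
      (∀ i ∈ F, Bornology.IsBounded (P i)) ∧
      (∀ y : ℝ, (x₁ : ℝ) ≤ y → y ≤ x₂ → ∃ i ∈ F, W.c (2 * Real.pi * y * I) ∈ P i) ∧
      (∃ i ∈ F, W.Gt x₁ (6 / (2000 * W.m * (100 : ℝ) ^ 2)) ⊆ P i) ∧
      (∃ i ∈ F, W.Gt x₂ (6 / (2000 * W.m * (100 : ℝ) ^ 2)) ⊆ P i) ∧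
      ENNReal.ofReal ((∑ i ∈ F, diam (P i)) ^ 2) ≤ ENNReal.ofReal (C * W.m) * volume (HK W))
    {W : WS} (hW : W.Ok) {e e' D h₁ h₂ : ℝ} (hD : 0 ≤ D)
    (hl : ∀ y : ℚ, 0 < y → y ≤ 1 / 100 → |(W.dat y).tm - e| ≤ D)
    (hr : ∀ y : ℚ, 99 / 100 ≤ y → y < 1 → |(W.dat y).tp - e'| ≤ D) (h10 : 0 < h₁)
    (h11 : h₁ ≤ 1) (h20 : 0 < h₂) (h21 : h₂ ≤ 1) :
    ∃ (x₁ x₂ : ℚ) (g₁ g₂ : ℝ) (F : Finset ℕ) (P : ℕ → Set ℂ), 0 < x₁ ∧ x₁ ≤ 1 / 100 ∧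
      99 / 100 ≤ x₂ ∧ x₂ < 1 ∧
      0 < g₁ ∧ g₁ ≤ h₁ ∧ 0 < g₂ ∧ g₂ ≤ h₂ ∧ (∀ i ∈ F, Bornology.IsBounded (P i)) ∧
      (∀ y : ℝ, (x₁ : ℝ) ≤ y → y ≤ x₂ → ∃ i ∈ F, W.c (2 * Real.pi * y * I) ∈ P i) ∧
      (∀ t : ℝ, 0 < t → t ≤ g₁ → ∃ i ∈ F,
        cOf ((t : ℂ) + 2 * Real.pi * (W.dat x₁).tm * I) ∈ P i) ∧
      (∀ t : ℝ, 0 < t → t ≤ g₂ → ∃ i ∈ F,
        cOf ((t : ℂ) + 2 * Real.pi * (W.dat x₂).tp * I) ∈ P i) ∧
      ENNReal.ofReal (diam (RaySeg (W.dat x₁).tm g₁ h₁) ^ 2) ≤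
        ENNReal.ofReal (2 * 10 ^ 9 * W.m) * Cap.rayE (400 * W.m) e D h₁ ∧
      ENNReal.ofReal (diam (RaySeg (W.dat x₂).tp g₂ h₂) ^ 2) ≤
        ENNReal.ofReal (2 * 10 ^ 9 * W.m) * Cap.rayE (400 * W.m) e' D h₂ ∧
      ENNReal.ofReal ((∑ i ∈ F, diam (P i)) ^ 2) ≤
        ENNReal.ofReal (C * W.m) * volume (HK W) := by
  have hm := Cnt.mpos15 hW
  have hm0 : (0 : ℝ) < W.m := by exact_mod_cast hm
  have hK : (0 : ℝ) < Cap.KC15 W.m 100 := by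
    rw [Cap.KC15_cast]
    positivity
  obtain ⟨n₁, hn₁⟩ := Cap.exists_n15 hK (Cap.logb_nonneg15 h10 h11)
  obtain ⟨n₂, hn₂⟩ := Cap.exists_n15 hK (Cap.logb_nonneg15 h20 h21)
  have num1 : ((1 / 101 : ℚ)).num = 1 := by norm_num
  have den1 : ((1 / 101 : ℚ)).den = 101 := by norm_num
  have num2 : ((1 / 102 : ℚ)).num = 1 := by norm_num
  have den2 : ((1 / 102 : ℚ)).den = 102 := by norm_num
  have num3 : ((100 / 101 : ℚ)).num = 100 := by norm_num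
  have den3 : ((100 / 101 : ℚ)).den = 101 := by norm_num
  have num4 : ((101 / 102 : ℚ)).num = 101 := by norm_num
  have den4 : ((101 / 102 : ℚ)).den = 102 := by norm_num
  obtain ⟨x₁, a1, a2, a3, a4⟩ := Cap.sideC15 Cap.c_leaf Cap.c_average hW (q := 100) (by norm_num)
    (a := 1 / 102) (b := 1 / 101) (by norm_num) (by rw [num1, num2, den1, den2]; norm_num)
    (by norm_num) (by norm_num) (by rw [den1, den2]; norm_num) h10 h11 hn₁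
    (fun y => (W.dat y).tm) (fun y _ _ => Or.inl rfl) (e := e) hD
    (fun y hy1 hy2 => hl y (by linarith) (by linarith))
  obtain ⟨x₂, b1, b2, b3, b4⟩ := Cap.sideC15 Cap.c_leaf Cap.c_average hW (q := 100) (by norm_num)
    (a := 100 / 101) (b := 101 / 102) (by norm_num) (by rw [num3, num4, den3, den4]; norm_num)
    (by norm_num) (by norm_num) (by rw [den3, den4]; norm_num) h20 h21 hn₂
    (fun y => (W.dat y).tp) (fun y _ _ => Or.inr rfl) (e := e') hD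
    (fun y hy1 hy2 => hr y (by linarith) (by linarith))
  obtain ⟨F, P, k1, k2, ⟨i₁, hi₁, k3⟩, ⟨i₂, hi₂, k4⟩, k5⟩ :=
    hG W hW x₁ x₂ (by linarith) (by linarith) (by linarith) (by linarith)
  simp only [Nat.cast_ofNat] at a3 a4 b3 b4
  have e1 : (2 : ℝ) * 10 ^ 7 * (W.m * 100) = 2 * 10 ^ 9 * W.m := by ring
  have e2 : (4 : ℝ) * W.m * 100 = 400 * W.m := by ring
  rw [e1, e2] at a4 b4
  exact ⟨x₁, x₂, h₁ / 2 ^ (Cap.KC15 W.m 100 * 3 ^ n₁), h₂ / 2 ^ (Cap.KC15 W.m 100 * 3 ^ n₂), F, P,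
    by linarith, by linarith, by linarith, by linarith, by positivity,
    div_le_self h10.le (one_le_pow₀ (by norm_num)), by positivity,
    div_le_self h20.le (one_le_pow₀ (by norm_num)), k1, k2,
    fun t ht ht' => ⟨i₁, hi₁, k3 (a3 t ht ht')⟩, fun t ht ht' => ⟨i₂, hi₂, k4 (b3 t ht ht')⟩,
    a4, b4, k5⟩

/-- the square of a sum of eight numbers -/
lemma sq8_26 {E : ℝ≥0∞} {t : Fin 8 → ℝ} {X : ℝ} (hX0 : 0 ≤ X) (hX : X ≤ ∑ i, t i)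
    (ht : ∀ i, ENNReal.ofReal (t i ^ 2) ≤ E) : ENNReal.ofReal (X ^ 2) ≤ 64 * E := by
  rcases eq_or_ne E ⊤ with h | h
  · rw [h, ENNReal.mul_top (by norm_num)]
    exact le_top
  have hE : E = ENNReal.ofReal E.toReal := (ENNReal.ofReal_toReal h).symm
  have he0 : 0 ≤ E.toReal := ENNReal.toReal_nonneg
  obtain ⟨e, he⟩ : ∃ e, e = E.toReal := ⟨_, rfl⟩
  rw [← he] at hE he0
  have h1 : ∀ i, t i ≤ √e := fun i => by
    have h2 := ht i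
    rw [hE, ENNReal.ofReal_le_ofReal_iff he0] at h2
    exact Real.le_sqrt_of_sq_le h2
  have h2 : X ≤ 8 * √e := by
    refine hX.trans ((Finset.sum_le_sum fun i _ => h1 i).trans ?_)
    simp
  rw [hE, show (64 : ℝ≥0∞) = ENNReal.ofReal 64 by simp, ← ENNReal.ofReal_mul (by norm_num)]
  refine ENNReal.ofReal_le_ofReal ?_
  calc X ^ 2 ≤ (8 * √e) ^ 2 := pow_le_pow_left₀ hX0 h2 2
    _ = 64 * e := by rw [mul_pow, Real.sq_sqrt he0]; norm_num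

/-- a ray -/
lemma ray26 {N e e' D ℓ A K n : ℝ} {r : ℝ} {R T : ℝ≥0∞} (hAK : 3 * A ≤ K * n)
    (h : ENNReal.ofReal (r ^ 2) ≤ ENNReal.ofReal A * Cap.rayE N e D ℓ) (hN0 : 0 < N)
    (hN : N ≤ 100000 * lg ℓ) (hD : D + |e - e'| ≤ ℓ ^ (5 / 4 : ℝ)) (hR : R = RayE e' ℓ)
    (hT : R ≤ T) : ENNReal.ofReal (r ^ 2) ≤ ENNReal.ofReal (K * n) * T := by
  have h1 := rayE_le26 hN0 hN hD
  rw [← hR] at h1
  calc ENNReal.ofReal (r ^ 2) ≤ ENNReal.ofReal A * Cap.rayE N e D ℓ := h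
    _ ≤ ENNReal.ofReal A * (3 * T) := mul_le_mul' le_rfl (h1.trans (mul_le_mul' le_rfl hT))
    _ = ENNReal.ofReal (3 * A) * T := by
        rw [ENNReal.ofReal_mul (by norm_num), show ENNReal.ofReal 3 = 3 by simp]
        ring
    _ ≤ _ := mul_le_mul' (ENNReal.ofReal_le_ofReal hAK) le_rfl

/-- **E2** -/
theorem u_two (hG : U_gate) (hT : U_top) (hCh : U_child) : U_two := by
  obtain ⟨C, hC0, hG⟩ := hG
  obtain ⟨K, hK⟩ : ∃ K : ℝ, K = 10 ^ 17 + 8 * C := ⟨_, rfl⟩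
  refine ⟨64 * K, by rw [hK]; positivity, fun n W W' hn hTw => ?_⟩
  have h0 : (0 : ℚ) < 1 / 2 := by norm_num
  have h1 : (1 / 2 : ℚ) < 1 := by norm_num
  have hd : ((1 / 2 : ℚ)).den = 2 := by norm_num
  obtain ⟨W'', hW'', hm'', hax, hang, hchl, hdl, hdr⟩ := hCh W' hTw.ok'
  obtain ⟨U, hU⟩ : ∃ U, U = W.dat (1 / 2) := ⟨_, rfl⟩
  obtain ⟨V, hV⟩ : ∃ V, V = W'.dat (1 / 2) := ⟨_, rfl⟩
  have hUP : U.Par := hU ▸ WS.dat_par hTw.ok h0 h1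
  have hUC : U.Cir := hU ▸ WS.dat_cir hTw.ok h0 h1
  have hVP : V.Par := hV ▸ WS.dat_par hTw.ok' h0 h1
  have hVC : V.Cir := hV ▸ WS.dat_cir hTw.ok' h0 h1
  have hUV1 := hTw.left
  have hUV2 := hTw.right
  rw [← hU, ← hV] at hUV1 hUV2
  have hmem := Cap.nest_of_arc hUP hUC hVP hVC hUV1 hUV2
  have hsub : Lm V ⊆ Lm U := (subset_insert _ _).trans (limb_sub hUP hUC hVP hVC hmem)
  have hpre := Cap.c_pre U V hUP hUC hVP hVC hsub hmem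
  -- numbers
  have hmn := hTw.le
  have hmn' := hTw.lt'
  have hmm := hTw.le'
  have hmn2 := hTw.lt
  have hnR : (4000 : ℝ) ≤ n := by exact_mod_cast hn
  have hmnR : (W.m : ℝ) ≤ 4 * n := by exact_mod_cast hmn
  have hmmR : (W'.m : ℝ) ≤ W.m := by exact_mod_cast hmm.le
  have hm1 : 1 ≤ W'.m := by omega
  have hm1R : (1 : ℝ) ≤ W'.m := by exact_mod_cast hm1
  have hm2R : (W''.m : ℝ) = 2 * W'.m := by rw [hm'']; push_cast; ring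
  -- the two lengths
  obtain ⟨p1, p2⟩ := per26 hTw.ok
  obtain ⟨q1, q2⟩ := per26 hTw.ok'
  rw [← hU] at p1 p2
  rw [← hV] at q1 q2
  obtain ⟨l₁, hl₁⟩ : ∃ l, l = V.tm - U.tm := ⟨_, rfl⟩
  obtain ⟨l₂, hl₂⟩ : ∃ l, l = U.tp - V.tp := ⟨_, rfl⟩
  have hlen1 := hTw.len
  have hlen2 := hTw.len'
  rw [← hU, ← hV, ← hl₁] at hlen1
  rw [← hU, ← hV, ← hl₂] at hlen2
  have hpos1 : 0 < l₁ := by rw [hl₁]; linarith
  have hpos2 : 0 < l₂ := by rw [hl₂]; linarith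
  have h11 := le_one26 hlen1
  have h21 := le_one26 hlen2
  have hlg1 := lg26 hpos1 hn hlen1
  have hlg2 := lg26 hpos2 hn hlen2
  have hlow1 : (1 / 2) ^ (2 * W.m + 2 * W'.m) ≤ l₁ := by
    rw [hl₁]
    exact arc26 (by omega) (by omega) p1 q1 hUV1
  have hlow2 : (1 / 2) ^ (2 * W.m + 2 * W'.m) ≤ l₂ := by
    rw [hl₂, add_comm]
    exact arc26 (by omega) (by omega) q2 p2 hUV2
  have hDD1 : Cap.DD W.m 2 ≤ l₁ ^ (5 / 4 : ℝ) := by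
    rw [DD26]
    exact pow26 hlow1 (by omega)
  have hDD2 : Cap.DD W.m 2 ≤ l₂ ^ (5 / 4 : ℝ) := by
    rw [DD26]
    exact pow26 hlow2 (by omega)
  -- the distance of the inner cut
  obtain ⟨D, hDdef⟩ : ∃ D : ℝ, D = 1 / (2 ^ (99 * W''.m) - 1) := ⟨_, rfl⟩
  have hD2 : D ≤ 2 * (1 / 2) ^ (99 * W''.m) := by
    have h2 : (2 : ℝ) ≤ 2 ^ (99 * W''.m) := by
      calc (2 : ℝ) = 2 ^ 1 := by norm_num
        _ ≤ 2 ^ (99 * W''.m) := pow_le_pow_right₀ (by norm_num) (by omega)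
    rw [hDdef, one_div_pow, div_le_iff₀ (by linarith), ← mul_div_assoc, mul_one,
      div_mul_eq_mul_div, le_div_iff₀ (by positivity)]
    linarith
  have hD0 : 0 ≤ D := by
    have h2 : (1 : ℝ) < 2 ^ (99 * W''.m) := one_lt_pow₀ (by norm_num) (by omega)
    rw [hDdef]
    have : (0 : ℝ) < 2 ^ (99 * W''.m) - 1 := by linarith
    positivity
  have hDl1 : D ≤ l₁ ^ (5 / 4 : ℝ) := hD2.trans (pow26 hlow1 (by omega))
  have hDl2 : D ≤ l₂ ^ (5 / 4 : ℝ) := hD2.trans (pow26 hlow2 (by omega))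
  have hr1 := rpow_le26 hpos1 h11
  have hr2 := rpow_le26 hpos2 h21
  rw [← hV, ← hDdef] at hdl hdr
  rw [← hV] at hax hang hchl
  -- the cuts
  obtain ⟨x₁, x₂, g₁, g₂, F, P, a1, a2, a3, a4, a5, a6, a7, a8, a9, a10, a11, a12, a13, a14, a15,
    a16, a17⟩ := outer26 hTw.ok h0 h1 hpos1 h11 hpos2 h21
  obtain ⟨y₁, y₂, k₁, k₂, F', P', b1, b2, b3, b4, b5, b6, b7, b8, b9, b10, b11, b12, b13, b14,
    b15⟩ := inner26 hG hW'' (e := V.tm) (e' := V.tp) hD0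
      (fun y hy0 hy1 => by
        have h2 := (hang y hy0 (by linarith)).1
        rw [abs_of_pos (by linarith)]
        exact hdl y hy0 hy1)
      (fun y hy0 hy1 => by
        have h2 := (hang y (by linarith) hy1).2
        rw [abs_sub_comm, abs_of_pos (by linarith)]
        exact hdr y hy0 hy1) hpos1 h11 hpos2 h21
  rw [hd, ← hU] at a13 a14 a15 a16
  have hy1 : y₁ < 1 := by linarith
  have hy2 : 0 < y₂ := by linarith
  have c1 := (hang y₁ b1 hy1).1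
  have c2 := (hang y₂ hy2 b4).2
  have c3 := hdl y₁ b1 b2
  have c4 := hdr y₂ b3 b4
  have c5 : (W.dat x₁).tm ≤ U.tm := hU ▸ WS.tm_mono hTw.ok a1 a2.le h1
  have c6 : U.tp ≤ (W.dat x₂).tp := hU ▸ WS.tp_mono hTw.ok h0 a3.le a4
  -- the topology
  have h2 := hT W W'' hTw.ok hW'' V (1 / 2) x₁ x₂ y₁ y₂ hVP hVC a1 a2 a3 a4 b1 (by linarith) b4
    (by rw [← hU]; exact hsub) hax (by rw [← hU]; exact hUV1.le) c1.le c2.le
    (by rw [← hU]; exact hUV2.le) (by rw [← hU]; exact hpre) g₁ g₂ k₁ k₂ l₁ l₂ a5 a6 a7 a8 b5 b6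
    b7 b8 (ℕ ⊕ ℕ) (F.disjSum F') (Sum.elim P P') ?_ ?_ ?_ ?_ ?_ ?_ ?_
  rotate_left
  · intro i hi
    rcases i with i | i
    · exact a9 i (Finset.inl_mem_disjSum.1 hi)
    · exact b9 i (Finset.inr_mem_disjSum.1 hi)
  · intro y h1 h2
    obtain ⟨i, hi, h3⟩ := a10 y h1 h2
    exact ⟨Sum.inl i, Finset.inl_mem_disjSum.2 hi, h3⟩
  · intro y h1 h2
    obtain ⟨i, hi, h3⟩ := a11 y h1 h2
    exact ⟨Sum.inl i, Finset.inl_mem_disjSum.2 hi, h3⟩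
  · intro y h1 h2
    obtain ⟨i, hi, h3⟩ := a12 y h1 h2
    exact ⟨Sum.inl i, Finset.inl_mem_disjSum.2 hi, h3⟩
  · intro y h1 h2
    obtain ⟨i, hi, h3⟩ := b10 y h1 h2
    exact ⟨Sum.inr i, Finset.inr_mem_disjSum.2 hi, h3⟩
  · intro y h1 h2
    obtain ⟨i, hi, h3⟩ := b11 y h1 h2
    exact ⟨Sum.inr i, Finset.inr_mem_disjSum.2 hi, h3⟩
  · intro y h1 h2
    obtain ⟨i, hi, h3⟩ := b12 y h1 h2
    exact ⟨Sum.inr i, Finset.inr_mem_disjSum.2 hi, h3⟩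
  have hsum : ∑ i ∈ F.disjSum F', diam ((Sum.elim P P') i) =
      ∑ i ∈ F, diam (P i) + ∑ i ∈ F', diam (P' i) := by
    rw [Finset.sum_disjSum]
    rfl
  rw [hsum] at h2
  -- the roofs
  have r1 := Cap.c_roof (W.dat x₁).tm (W''.dat y₁).tm l₁ hpos1 h11 (by linarith) (by linarith)
  have r2 := Cap.c_roof (W''.dat y₂).tp (W.dat x₂).tp l₂ hpos2 h21 (by linarith) (by linarith)
  have r3 : Cap.en (Cap.Rf ((W.dat x₁).tm + l₁) ((W''.dat y₁).tm - l₁) l₁) ≤ RayE U.tm l₁ := by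
    refine (Cap.en_mono fun z hz => ?_).trans
      (Cap.roofE_le (s := U.tm) (t := V.tm) hpos1 (by linarith) le_rfl (by linarith))
    obtain ⟨z1, z2, z3, z4⟩ := hz
    exact ⟨z1, z2, by linarith, by linarith⟩
  have r4 : Cap.en (Cap.Rf ((W''.dat y₂).tp + l₂) ((W.dat x₂).tp - l₂) l₂) ≤ RayE V.tp l₂ := by
    refine (Cap.en_mono fun z hz => ?_).trans
      (Cap.roofE_le (s := V.tp) (t := U.tp) hpos2 (by linarith) le_rfl (by linarith))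
    obtain ⟨z1, z2, z3, z4⟩ := hz
    exact ⟨z1, z2, by linarith, by linarith⟩
  refine ⟨W'', hW'', hm'', by rw [← hV]; exact (hang _ h0 h1).1, by rw [← hV, ← hm'']; exact hchl,
    ?_⟩
  rw [← hU, ← hV, ← hl₁, ← hl₂]
  obtain ⟨R₁, hR₁⟩ : ∃ a, a = RayE U.tm l₁ := ⟨_, rfl⟩
  obtain ⟨R₂, hR₂⟩ : ∃ a, a = RayE V.tm l₁ := ⟨_, rfl⟩
  obtain ⟨R₃, hR₃⟩ : ∃ a, a = RayE V.tp l₂ := ⟨_, rfl⟩
  obtain ⟨R₄, hR₄⟩ : ∃ a, a = RayE U.tp l₂ := ⟨_, rfl⟩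
  obtain ⟨v, hv⟩ : ∃ v, v = volume (Hd W (1 / 2)) := ⟨_, rfl⟩
  obtain ⟨v', hv'⟩ : ∃ v, v = volume (HK W'') := ⟨_, rfl⟩
  have hvH : volume (Cap.HH W (1 / 2)) = v := by rw [hv]; rfl
  rw [← hR₁, ← hR₂, ← hR₃, ← hR₄, ← hv, ← hv']
  rw [hvH] at a17
  rw [← hv'] at b15
  rw [← hR₁] at r3
  rw [← hR₃] at r4
  obtain ⟨T, hTd⟩ : ∃ T, T = R₁ + R₂ + R₃ + R₄ + v + v' := ⟨_, rfl⟩
  rw [← hTd]
  have t1 : R₁ ≤ T := by rw [hTd]; simp only [add_assoc]; exact le_self_add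
  have t2 : R₂ ≤ T := by
    rw [hTd]
    calc R₂ ≤ R₂ + (R₁ + R₃ + R₄ + v + v') := le_self_add
      _ = _ := by ring
  have t3 : R₃ ≤ T := by
    rw [hTd]
    calc R₃ ≤ R₃ + (R₁ + R₂ + R₄ + v + v') := le_self_add
      _ = _ := by ring
  have t4 : R₄ ≤ T := by
    rw [hTd]
    calc R₄ ≤ R₄ + (R₁ + R₂ + R₃ + v + v') := le_self_add
      _ = _ := by ring
  have t5 : v ≤ T := by
    rw [hTd]
    calc v ≤ v + (R₁ + R₂ + R₃ + R₄ + v') := le_self_add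
      _ = _ := by ring
  have t6 : v' ≤ T := by
    rw [hTd]
    calc v' ≤ v' + (R₁ + R₂ + R₃ + R₄ + v) := le_self_add
      _ = _ := by ring
  have hKn : (10 : ℝ) ^ 17 * n + 8 * C * n = K * n := by rw [hK]; ring
  have hCn : 0 ≤ C * n := by positivity
  have hfin : ENNReal.ofReal (64 * K * n) * T = 64 * (ENNReal.ofReal (K * n) * T) := by
    rw [mul_assoc, ENNReal.ofReal_mul (by norm_num), mul_assoc]
    congr 1
    simp
  rw [hfin]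
  refine sq8_26 (t := ![diam (RaySeg (W.dat x₁).tm g₁ l₁), diam (RaySeg (W.dat x₂).tp g₂ l₂),
    diam (RaySeg (W''.dat y₁).tm k₁ l₁), diam (RaySeg (W''.dat y₂).tp k₂ l₂),
    diam (RoofH l₁ (W.dat x₁).tm (W''.dat y₁).tm), diam (RoofH l₂ (W''.dat y₂).tp (W.dat x₂).tp),
    ∑ i ∈ F, diam (P i), ∑ i ∈ F', diam (P' i)]) diam_nonneg ?_ ?_
  · rw [hU]
    refine h2.trans (le_of_eq ?_)
    simp [Fin.sum_univ_succ]
    ring
  · have hroof : ∀ R : ℝ≥0∞, R ≤ T → (10 : ℝ≥0∞) ^ 5 * R ≤ ENNReal.ofReal (K * n) * T := by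
      intro R hR
      refine mul_le_mul' ?_ hR
      rw [show (10 : ℝ≥0∞) ^ 5 = ENNReal.ofReal (10 ^ 5) by norm_num]
      refine ENNReal.ofReal_le_ofReal ?_
      linarith
    intro i
    fin_cases i
    · refine ray26 (e' := U.tm) ?_ a15 (by push_cast; linarith) ?_ ?_ hR₁ t1
      · push_cast
        linarith
      · push_cast
        linarith
      · rw [sub_self, abs_zero, add_zero]
        exact hDD1
    · refine ray26 (e' := U.tp) ?_ a16 (by push_cast; linarith) ?_ ?_ hR₄ t4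
      · push_cast
        linarith
      · push_cast
        linarith
      · rw [sub_self, abs_zero, add_zero]
        exact hDD2
    · refine ray26 (e' := V.tm) ?_ b13 (by rw [hm2R]; linarith) ?_ ?_ hR₂ t2
      · rw [hm2R]
        linarith
      · rw [hm2R]
        linarith
      · rw [sub_self, abs_zero, add_zero]
        exact hDl1
    · refine ray26 (e' := V.tp) ?_ b14 (by rw [hm2R]; linarith) ?_ ?_ hR₃ t3
      · rw [hm2R]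
        linarith
      · rw [hm2R]
        linarith
      · rw [sub_self, abs_zero, add_zero]
        exact hDl2
    · exact r1.trans (hroof _ (r3.trans t1))
    · exact r2.trans (hroof _ (r4.trans t3))
    · refine a17.trans (mul_le_mul' (ENNReal.ofReal_le_ofReal ?_) t5)
      linarith
    · refine b15.trans (mul_le_mul' (ENNReal.ofReal_le_ofReal ?_) t6)
      rw [hm2R]
      have h3 : C * W'.m ≤ C * (4 * n) := mul_le_mul_of_nonneg_left (by linarith) hC0.le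
      linarith

end Pool.Agent.Work.MLC.Uni
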