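import Pool.Agent.Work.MLC.Uni0

set_option autoImplicit false

/-! # Theorem U, module U_win: windows without a tail period (helper24) -/

namespace Pool.Agent.Work.MLC.Uni

/-- a sequence all of whose windows have a short tail period is eventually periodic -/
lemma evp_of_windows {w : ℕ → ℤ} {n₁ : ℕ} (h : ∀ n, n₁ ≤ n → ∃ l p : ℕ, 0 < p ∧
    4 * (l + p) ≤ n ∧ ∀ k, l ≤ k → k + p < n → w (k + p) = w k) :
    ∃ l p : ℕ, 0 < p ∧ ∀ k, l ≤ k → w (k + p) = w k := by
  obtain ⟨l, p, hp, h1, h2⟩ := h n₁ le_rfl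
  refine ⟨l, p, hp, ?_⟩
  have h3 : ∀ n, n₁ ≤ n → ∀ k, l ≤ k → k + p < n → w (k + p) = w k := by
    intro n hn
    induction n, hn using Nat.le_induction with
    | base => exact h2
    | succ n hn ih =>
      intro k hk1 hk2
      rcases Nat.lt_or_ge (k + p) n with hk3 | hk3
      · exact ih k hk1 hk3
      · obtain ⟨l', p', hp', g1, g2⟩ := h (n + 1) (by omega)
        have hk : k + p = n := by omega
        obtain ⟨i, hi⟩ : ∃ i, n = i + p' + p := ⟨n - p' - p, by omega⟩
        have e1 := g2 (i + p) (by omega) (by omega)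
        have e2 := ih i (by omega) (by omega)
        have e3 := g2 i (by omega) (by omega)
        have e4 : k + p = i + p + p' := by omega
        have e5 : k = i + p' := by omega
        rw [e4, e1, e2, e5, e3]
  intro k hk
  exact h3 (n₁ + k + p + 1) (by omega) k hk (by omega)

/-- **U5** -/
theorem u_win : U_win := by
  intro w hw n₀
  by_contra hcon
  push Not at hcon
  refine hw (evp_of_windows (n₁ := n₀) fun n hn => ?_)
  obtain ⟨N, g1, g2, l, p, g3, g4, g5⟩ := hcon n hn
  exact ⟨l, p, g3, by omega, fun k hk1 hk2 => g5 k hk1 (by omega)⟩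

end Pool.Agent.Work.MLC.Uni
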