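import Pool.Agent.Work.MLC.Uni0
import Pool.Agent.Work.MLC.CapT49

set_option autoImplicit false

/-! # Theorem U: the enclosure of a piece with two arcs, with two heights (helper26, after CapT49 of
helper49)

The region is the one of `CapT49` at the height `min h₁ h₂` together with the exterior parts over the
left arc up to `h₁` and over the right arc up to `h₂`. -/

namespace Pool.Agent.Work.MLC.Uni

open Filter Topology Metric Set Complex MeasureTheory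
open Pool.Agent.Work.MLC.Sat Pool.Agent.Work.MLC.Cnt
open Pool.Agent.Work.MLC.Cap (KP)
open Pool.Agent.Work.MLC.Cap.T49

namespace X26

/-- exterior parts over different arcs are disjoint -/
lemma disj_Ext {a b c d h h' : ℝ} (hbc : b ≤ c) (had : d ≤ a + 1) {z : ℂ}
    (h1 : z ∈ T60.Ext a b h) (h2 : z ∈ T60.Ext c d h') : False := by
  obtain ⟨θ, hθ, h3, h4⟩ := T60.ang_Ext h1
  obtain ⟨θ', hθ', h5, h6⟩ := T60.ang_Ext h2
  obtain ⟨k, hk⟩ := hθ.unique hθ'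
  have h7 : (0 : ℝ) < k := by linarith
  have h8 : (k : ℝ) < 1 := by linarith
  have h9 : 0 < k := by exact_mod_cast h7
  have h10 : k < 1 := by exact_mod_cast h8
  omega

/-- a point of `MM` in the closure of the exterior part is a limit of points of small potential -/
lemma low_Ext {s t h h' : ℝ} (hh : 0 < h) {z : ℂ} (hM : z ∈ MM)
    (hz : z ∈ closure (T60.Ext s t h')) : z ∈ closure (T60.Ext s t h) := by
  rw [mem_closure_iff_frequently] at hz ⊢
  have hG : ∀ᶠ c in 𝓝 z, G c c < h := by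
    refine (continuous_G_diag.tendsto z).eventually (eventually_lt_nhds ?_)
    rw [mem_M_iff'.1 hM]; exact hh
  refine (hz.and_eventually hG).mono ?_
  rintro c ⟨⟨w, hw, rfl⟩, h2⟩
  rw [G_cOf hw.1] at h2
  exact ⟨w, ⟨hw.1, h2, hw.2.2.1, hw.2.2.2⟩, rfl⟩

lemma bounded_Ext (s t h : ℝ) : Bornology.IsBounded (T60.Ext s t h) := by
  refine ((isCompact_G_diag_le h).isBounded).subset ?_
  rintro c ⟨z, hz, rfl⟩
  show G (cOf z) (cOf z) ≤ _
  rw [G_cOf hz.1]; exact hz.2.1.le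

lemma mono_Ext {s t s' t' h h' : ℝ} (hs : s' ≤ s) (ht : t ≤ t') (hh : h ≤ h') :
    T60.Ext s t h ⊆ T60.Ext s' t' h' := by
  have hpi := Real.two_pi_pos
  rintro c ⟨w, hw, rfl⟩
  refine ⟨w, ⟨hw.1, hw.2.1.trans_le hh, lt_of_le_of_lt ?_ hw.2.2.1, lt_of_lt_of_le hw.2.2.2 ?_⟩,
    rfl⟩
  · exact mul_le_mul_of_nonneg_left hs hpi.le
  · exact mul_le_mul_of_nonneg_left ht hpi.le

/-- the frontier of the difference of the regions (from `Cap.c_top2`) -/
theorem frontier_diff {W W' : WS} (hW : W.Ok) (hW' : W'.Ok) {x₁ x₂ x₁' x₂' : ℚ} (h0 : 0 < x₁)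
    (h12 : x₁ < x₂) (h1 : x₂ < 1) (h0' : 0 < x₁') (h12' : x₁' < x₂') (h1' : x₂' < 1) {h : ℝ}
    (hh : 0 < h) {z : ℂ}
    (hz : z ∈ frontier (T60.Reg W x₁ x₂ h \ closure (T60.Reg W' x₁' x₂' h))) :
    (∃ u : ℝ, 0 < u ∧ u ≤ h ∧ (z = cOf ((u : ℂ) + 2 * Real.pi * (W.dat x₁).tm * I) ∨
      z = cOf ((u : ℂ) + 2 * Real.pi * (W.dat x₂).tp * I) ∨
      z = cOf ((u : ℂ) + 2 * Real.pi * (W'.dat x₁').tm * I) ∨
      z = cOf ((u : ℂ) + 2 * Real.pi * (W'.dat x₂').tp * I))) ∨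
    z ∈ RoofH h (W.dat x₁).tm (W'.dat x₁').tm ∨ z ∈ RoofH h (W'.dat x₂').tp (W.dat x₂).tp ∨
    (∃ y : ℝ, (x₁ : ℝ) ≤ y ∧ y ≤ x₂ ∧ z = W.c (2 * Real.pi * y * I)) ∨
    ∃ y : ℝ, (x₁' : ℝ) ≤ y ∧ y ≤ x₂' ∧ z = W'.c (2 * Real.pi * y * I) := by
  set A : Set ℂ := T60.Reg W x₁ x₂ h with hA
  set B : Set ℂ := T60.Reg W' x₁' x₂' h with hB
  set s : ℝ := (W.dat x₁).tm with hs
  set t : ℝ := (W.dat x₂).tp with ht
  set s' : ℝ := (W'.dat x₁').tm with hs'
  set t' : ℝ := (W'.dat x₂').tp with ht'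
  have hzc : z ∈ closure (A \ closure B) := frontier_subset_closure hz
  have hz2 : z ∈ frontier A ∨ z ∈ frontier B := by
    rw [sdiff_eq] at hz
    rcases frontier_inter_subset _ _ hz with h2 | h2
    · exact Or.inl h2.1
    · right
      rw [frontier_compl] at h2
      exact frontier_closure_subset h2.2
  rcases hz2 with hz2 | hz2
  · rcases T60.frontier_Reg hW h0 h12 h1 hh hz2 with ⟨u, hu0, huh, h3 | h3⟩ | h3 | h3
    · exact Or.inl ⟨u, hu0, huh, Or.inl h3⟩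
    · exact Or.inl ⟨u, hu0, huh, Or.inr (Or.inl h3)⟩
    · obtain ⟨u, ⟨hu1, hu2⟩, h3⟩ := h3
      rcases le_or_gt u s' with h4 | h4
      · exact Or.inr (Or.inl ⟨u, ⟨hu1, h4⟩, h3⟩)
      rcases le_or_gt t' u with h5 | h5
      · exact Or.inr (Or.inr (Or.inl ⟨u, ⟨h5, hu2⟩, h3⟩))
      rw [← h3] at hzc
      exact absurd hzc (roof_notMem hh h4 h5)
    · exact Or.inr (Or.inr (Or.inr (Or.inl h3)))
  · rcases T60.frontier_Reg hW' h0' h12' h1' hh hz2 with ⟨u, hu0, huh, h3 | h3⟩ | h3 | h3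
    · exact Or.inl ⟨u, hu0, huh, Or.inr (Or.inr (Or.inl h3))⟩
    · exact Or.inl ⟨u, hu0, huh, Or.inr (Or.inr (Or.inr h3))⟩
    · obtain ⟨u, ⟨hu1, hu2⟩, h3⟩ := h3
      rcases hu1.eq_or_lt with h4 | h4
      · exact Or.inl ⟨h, hh, le_rfl, Or.inr (Or.inr (Or.inl (by rw [← h3, ← h4])))⟩
      rcases hu2.eq_or_lt with h5 | h5
      · exact Or.inl ⟨h, hh, le_rfl, Or.inr (Or.inr (Or.inr (by rw [← h3, h5])))⟩
      rw [← h3] at hzc
      exact absurd hzc (roof_notMem hh h4 h5)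
    · exact Or.inr (Or.inr (Or.inr (Or.inr h3)))

/-- the arc between two plateaus is shorter than one -/
lemma lt_one {W : WS} (hW : W.Ok) {x₁ x₂ : ℚ} (h0 : 0 < x₁) (h11 : x₁ < 1) (h20 : 0 < x₂)
    (h1 : x₂ < 1) : (W.dat x₂).tp < (W.dat x₁).tm + 1 := by
  by_contra hcon
  push Not at hcon
  have a1 := (WS.plateau hW h0 h11 (W.dat x₁).tm).2 ⟨le_rfl, (WS.dat_cir hW h0 h11).lt.le⟩
  have a2 := (WS.plateau hW h20 h1 (W.dat x₂).tp).2 ⟨(WS.dat_cir hW h20 h1).lt.le, le_rfl⟩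
  unfold WS.nu at a1 a2
  have b1 : (0 : ℝ) < x₁ := by exact_mod_cast h0
  have b2 : (x₂ : ℝ) < 1 := by exact_mod_cast h1
  have h3 := s2_width W.m W.w (W.dat x₁).tm W.k hW.wide.pos hW.wide.bits (by linarith)
  have h4 := Circ.nu_mono W.w W.m hcon
  linarith

end X26

open X26 in
/-- **T2'** -/
theorem u_top : U_top := by
  intro W W' hW hW' V x x₁ x₂ x₁' x₂' hVP hVC h0 hx1 hx2 h1 h0' h12' h1' hsub hax' hU1 hU2 hU3 hU4
    hK g₁ g₂ g₁' g₂' h₁ h₂ hg₁ hgh₁ hg₂ hgh₂ hg₁' hgh₁' hg₂' hgh₂' κ F P hPb hax hr1 hr2 haxI hr1'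
    hr2'
  have hh₁ : 0 < h₁ := hg₁.trans_le hgh₁
  have hh₂ : 0 < h₂ := hg₂.trans_le hgh₂
  have h12 : x₁ < x₂ := hx1.trans hx2
  have hx0 : 0 < x := h0.trans hx1
  have hxl : x < 1 := hx2.trans h1
  obtain ⟨h, hhd⟩ : ∃ h, h = min h₁ h₂ := ⟨_, rfl⟩
  have hh : 0 < h := hhd ▸ lt_min hh₁ hh₂
  have hl1 : h ≤ h₁ := hhd ▸ min_le_left _ _
  have hl2 : h ≤ h₂ := hhd ▸ min_le_right _ _
  have hst1 := lt_one hW h0 (hx1.trans hxl) (hx0.trans hx2) h1
  have hss := (T60.ends hW h0 h1 hx1.le hx2.le).1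
  have htt := (T60.ends hW h0 h1 hx1.le hx2.le).2
  have hst' : (W'.dat x₁').tm < (W'.dat x₂').tp :=
    lt_of_le_of_lt (T60.ends hW' h0' h1' le_rfl h12'.le).1
      (lt_of_lt_of_le (WS.dat_cir hW' h0' (h12'.trans h1')).lt
        (T60.ends hW' h0' h1' le_rfl h12'.le).2)
  set s : ℝ := (W.dat x₁).tm with hs
  set t : ℝ := (W.dat x₂).tp with ht
  set s' : ℝ := (W'.dat x₁').tm with hs'
  set t' : ℝ := (W'.dat x₂').tp with ht'
  have hss' : s ≤ s' := by linarith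
  have htt' : t' ≤ t := by linarith
  have hrayb : ∀ t g h : ℝ, 0 < g → Bornology.IsBounded (RaySeg t g h) := by
    intro t g h hg
    have hc : ContinuousOn (fun u : ℝ => cOf ((u : ℂ) + 2 * Real.pi * t * I)) (Icc g h) := by
      refine continuousOn_cOf.comp (by fun_prop) fun u hu => ?_
      show 0 < ((u : ℂ) + 2 * Real.pi * t * I).re
      rw [CH.re_pt]; exact hg.trans_le hu.1
    exact (isCompact_Icc.image_of_continuousOn hc).isBounded
  have hroofb : ∀ h s t : ℝ, 0 < h → Bornology.IsBounded (RoofH h s t) := by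
    intro h s t hh
    have hc : ContinuousOn (fun u : ℝ => cOf ((h : ℂ) + 2 * Real.pi * u * I)) (Icc s t) := by
      refine continuousOn_cOf.comp (by fun_prop) fun u hu => ?_
      show 0 < ((h : ℂ) + 2 * Real.pi * u * I).re
      rw [CH.re_pt]; exact hh
    exact (isCompact_Icc.image_of_continuousOn hc).isBounded
  set F' : Finset (κ ⊕ Fin 6) := F.disjSum Finset.univ with hF'
  set P' : κ ⊕ Fin 6 → Set ℂ :=
    Sum.elim P ![RaySeg s g₁ h₁, RaySeg t g₂ h₂, RaySeg s' g₁' h₁, RaySeg t' g₂' h₂,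
      RoofH h₁ s s', RoofH h₂ t' t] with hP'
  have hsum : ∑ i ∈ F', diam (P' i) = diam (RaySeg s g₁ h₁) + diam (RaySeg t g₂ h₂) +
      diam (RaySeg s' g₁' h₁) + diam (RaySeg t' g₂' h₂) +
      diam (RoofH h₁ s s') + diam (RoofH h₂ t' t) + ∑ i ∈ F, diam (P i) := by
    rw [hF', Finset.sum_disjSum, Fin.sum_univ_six]
    simp [hP']
    ring
  have hin : ∀ z : ℂ, (∃ i ∈ F, z ∈ P i) → z ∈ ⋃ i ∈ F', P' i := by
    rintro z ⟨i, hi, hz⟩
    rw [mem_iUnion₂]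
    exact ⟨Sum.inl i, by simp [hF', hi], hz⟩
  have hin' : ∀ (z : ℂ) (j : Fin 6), z ∈ P' (Sum.inr j) → z ∈ ⋃ i ∈ F', P' i := by
    intro z j hz
    rw [mem_iUnion₂]
    exact ⟨Sum.inr j, by simp [hF'], hz⟩
  -- the rays
  have ray1 : ∀ u : ℝ, 0 < u → u ≤ h₁ → cOf ((u : ℂ) + 2 * Real.pi * s * I) ∈ ⋃ i ∈ F', P' i := by
    intro u hu0 huh
    rcases le_or_gt u g₁ with h4 | h4
    · exact hin _ (hr1 u hu0 h4)
    · exact hin' _ 0 ⟨u, ⟨h4.le, huh⟩, rfl⟩
  have ray2 : ∀ u : ℝ, 0 < u → u ≤ h₂ → cOf ((u : ℂ) + 2 * Real.pi * t * I) ∈ ⋃ i ∈ F', P' i := by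
    intro u hu0 huh
    rcases le_or_gt u g₂ with h4 | h4
    · exact hin _ (hr2 u hu0 h4)
    · exact hin' _ 1 ⟨u, ⟨h4.le, huh⟩, rfl⟩
  have ray3 : ∀ u : ℝ, 0 < u → u ≤ h₁ → cOf ((u : ℂ) + 2 * Real.pi * s' * I) ∈ ⋃ i ∈ F', P' i := by
    intro u hu0 huh
    rcases le_or_gt u g₁' with h4 | h4
    · exact hin _ (hr1' u hu0 h4)
    · exact hin' _ 2 ⟨u, ⟨h4.le, huh⟩, rfl⟩
  have ray4 : ∀ u : ℝ, 0 < u → u ≤ h₂ → cOf ((u : ℂ) + 2 * Real.pi * t' * I) ∈ ⋃ i ∈ F', P' i := by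
    intro u hu0 huh
    rcases le_or_gt u g₂' with h4 | h4
    · exact hin _ (hr2' u hu0 h4)
    · exact hin' _ 3 ⟨u, ⟨h4.le, huh⟩, rfl⟩
  set A : Set ℂ := T60.Reg W x₁ x₂ h with hA
  set B : Set ℂ := T60.Reg W' x₁' x₂' h with hB
  set E₁ : Set ℂ := T60.Ext s s' h₁ with hE₁
  set E₂ : Set ℂ := T60.Ext t' t h₂ with hE₂
  set Q : Set ℂ := (A \ closure B) ∪ E₁ ∪ E₂ with hQ
  -- the exterior parts of low height are in the difference
  have hlow : ∀ a b : ℝ, s ≤ a → b ≤ t → (b ≤ s' ∨ t' ≤ a) →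
      T60.Ext a b h ⊆ A \ closure B := by
    intro a b ha hb hab c hc
    refine ⟨Or.inl (mono_Ext ha hb le_rfl hc), fun hcB => ?_⟩
    obtain ⟨d, hd1, hd2⟩ := mem_closure_iff_nhds.1 hcB _ ((T60.isOpen_Ext a b h).mem_nhds hc)
    rcases hd2 with hd2 | ⟨y, -, -, hy⟩
    · rcases hab with h2 | h2
      · exact disj_Ext h2 (by linarith) hd1 hd2
      · exact disj_Ext h2 (by linarith) hd2 hd1
    · obtain ⟨w, hw, rfl⟩ := hd1
      have h4 := mem_M_iff'.1 hy.1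
      rw [G_cOf hw.1] at h4
      linarith [hw.1]
  have hfr : frontier Q ⊆ ⋃ i ∈ F', P' i := by
    intro z hz
    have hzc : z ∈ closure Q := frontier_subset_closure hz
    have hzi : z ∉ interior Q := hz.2
    have n1 : z ∉ interior (A \ closure B) := fun h2 =>
      hzi (interior_mono (subset_union_left.trans subset_union_left) h2)
    have n2 : z ∉ E₁ := fun h2 => hzi (interior_maximal
      (subset_union_right.trans subset_union_left) (T60.isOpen_Ext _ _ _) h2)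
    have n3 : z ∉ E₂ := fun h2 => hzi (interior_maximal
      subset_union_right (T60.isOpen_Ext _ _ _) h2)
    have key : z ∈ closure (A \ closure B) → z ∈ ⋃ i ∈ F', P' i := by
      intro h2
      rcases frontier_diff hW hW' h0 h12 h1 h0' h12' h1' hh ⟨h2, n1⟩ with
        ⟨u, hu0, huh, h3 | h3 | h3 | h3⟩ | ⟨u, ⟨hu1, hu2⟩, h3⟩ | ⟨u, ⟨hu1, hu2⟩, h3⟩ |
        ⟨y, hy1, hy2, h3⟩ | ⟨y, hy1, hy2, h3⟩
      · rw [h3]; exact ray1 u hu0 (huh.trans hl1)
      · rw [h3]; exact ray2 u hu0 (huh.trans hl2)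
      · rw [h3]; exact ray3 u hu0 (huh.trans hl1)
      · rw [h3]; exact ray4 u hu0 (huh.trans hl2)
      · rcases hu1.eq_or_lt with h4 | h4
        · rw [← h3, ← h4]; exact ray1 h hh hl1
        rcases hu2.eq_or_lt with h5 | h5
        · rw [← h3, h5]; exact ray3 h hh hl1
        rcases hl1.eq_or_lt with h6 | h6
        · exact hin' z 4 ⟨u, ⟨hu1, hu2⟩, by rw [← h6]; exact h3⟩
        · exfalso
          refine n2 ⟨(h : ℂ) + 2 * Real.pi * u * I, ⟨?_, ?_, ?_, ?_⟩, h3⟩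
          · rw [CH.re_pt]; exact hh
          · rw [CH.re_pt]; exact h6
          · rw [CH.im_pt]; exact mul_lt_mul_of_pos_left h4 Real.two_pi_pos
          · rw [CH.im_pt]; exact mul_lt_mul_of_pos_left h5 Real.two_pi_pos
      · rcases hu1.eq_or_lt with h4 | h4
        · rw [← h3, ← h4]; exact ray4 h hh hl2
        rcases hu2.eq_or_lt with h5 | h5
        · rw [← h3, h5]; exact ray2 h hh hl2
        rcases hl2.eq_or_lt with h6 | h6
        · exact hin' z 5 ⟨u, ⟨hu1, hu2⟩, by rw [← h6]; exact h3⟩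
        · exfalso
          refine n3 ⟨(h : ℂ) + 2 * Real.pi * u * I, ⟨?_, ?_, ?_, ?_⟩, h3⟩
          · rw [CH.re_pt]; exact hh
          · rw [CH.re_pt]; exact h6
          · rw [CH.im_pt]; exact mul_lt_mul_of_pos_left h4 Real.two_pi_pos
          · rw [CH.im_pt]; exact mul_lt_mul_of_pos_left h5 Real.two_pi_pos
      · rw [h3]; exact hin _ (hax y hy1 hy2)
      · rw [h3]; exact hin _ (haxI y hy1 hy2)
    rw [hQ, closure_union, closure_union] at hzc
    by_cases hM : z ∈ MM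
    · rcases hzc with (h2 | h2) | h2
      · exact key h2
      · exact key (closure_mono (hlow s s' le_rfl (by linarith) (Or.inl le_rfl))
          (low_Ext hh hM h2))
      · exact key (closure_mono (hlow t' t (by linarith) le_rfl (Or.inr le_rfl))
          (low_Ext hh hM h2))
    · rcases hzc with (h2 | h2) | h2
      · exact key h2
      · rcases T60.frontier_Ext hM h2 n2 with ⟨u, hu0, huh, h3 | h3⟩ | h3
        · rw [h3]; exact ray1 u hu0 huh
        · rw [h3]; exact ray3 u hu0 huh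
        · exact hin' z 4 h3
      · rcases T60.frontier_Ext hM h2 n3 with ⟨u, hu0, huh, h3 | h3⟩ | h3
        · rw [h3]; exact ray4 u hu0 huh
        · rw [h3]; exact ray2 u hu0 huh
        · exact hin' z 5 h3
  rw [← hsum]
  refine diam_le_of_forall_dist_le (Finset.sum_nonneg fun i _ => diam_nonneg) ?_
  intro z hz z' hz'
  refine T60.proj (Q := Q) ?_ hK ?_ ?_ hfr hz hz'
  · exact (((T60.bounded_Reg W x₁ x₂ h).subset sdiff_subset).union (bounded_Ext _ _ _)).union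
      (bounded_Ext _ _ _)
  · rintro c ⟨hc | hc, hcV⟩
    · right
      rw [hc, rt_dat hW hx0 hxl]
      exact hin _ (hax x (by exact_mod_cast hx1.le) (by exact_mod_cast hx2.le))
    · left
      refine Or.inl (Or.inl ⟨Or.inr ⟨x, hx1.le, hx2.le, hc⟩, fun hcB => hcV ?_⟩)
      exact closure_sub hW' hVP hVC h0' h12' h1' hax' hh hc.1 hcB
  · intro i hi
    rcases i with i | i
    · refine hPb i ?_
      simpa [hF'] using hi
    · fin_cases i
      · exact hrayb s g₁ h₁ hg₁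
      · exact hrayb t g₂ h₂ hg₂
      · exact hrayb s' g₁' h₁ hg₁'
      · exact hrayb t' g₂' h₂ hg₂'
      · exact hroofb h₁ s s' hh₁
      · exact hroofb h₂ t' t hh₂

end Pool.Agent.Work.MLC.Uni
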