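import Pool.Agent.Work.MLC.UniF6
import Pool.Agent.Work.MLC.UniC6
import Pool.Agent.Work.MLC.UniN90
import Pool.Agent.Work.MLC.UniS54
import Pool.Agent.Work.MLC.UniI60
import Pool.Agent.Work.MLC.UniT26
import Pool.Agent.Work.MLC.UniX26
import Pool.Agent.Work.MLC.UniH26
import Pool.Agent.Work.MLC.UniG43
import Pool.Agent.Work.MLC.UniE43
import Pool.Agent.Work.MLC.UniE78
import Pool.Agent.Work.MLC.UniL57
import Pool.Agent.Work.MLC.UniN70
import Pool.Agent.Work.MLC.UniP31
import Pool.Agent.Work.MLC.UniV24
import Pool.Agent.Work.MLC.UniW24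
import Pool.Agent.Work.MLC.UniA53
import Pool.Agent.Work.MLC.ShpH60
import Pool.Agent.Work.MLC.ShpM26

set_option autoImplicit false

/-! # Theorem U: all modules together -/

namespace Pool.Agent.Work.MLC.Uni

open Pool.Agent.Work.MLC

/-- **Theorem U**: the set of all angles in `[0, 1)` at which the Riemann map has no limit, or the
Mandelbrot set is not locally connected at the limit, is a null set for the gauge
`1 / log (1 / t)` -/
theorem uni_all : Uni_thm :=
  uni_thm (u_comb u_lam (u_par u_ends u_lam) u_nwt u_win u_evp u_ws) u_irr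
    (u_null1 (u_sum1 Shp.m_class u_one Shp.h_sum))
    (u_null2 (u_sum2 Shp.m_class (u_two u_gate u_top u_child) Shp.h_sum u_area))

end Pool.Agent.Work.MLC.Uni
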