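import Mathlib
import Pool.Agent.Work.MLC.ShpDef

set_option autoImplicit false

/-! # Narrow wakes (helper57)

For a natural number `a` with `a < 2 ^ j * a % (2 ^ m - 1)` for all `0 < j < m` (a Lyndon word of
length `m`) the interval from `a / (2 ^ m - 1)` to `(a + 1) / (2 ^ m - 1)` is a wake of period `m`.
If `m` is prime there are at least `(2 ^ m - 2) / m` such numbers. -/

namespace Pool.Agent.Work.MLC.UniB

open Pool.Agent.Work.MLC.Shp (Wake SameSide)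
open Filter Topology

/-- Lyndon words -/
def Lyn (m a : ℕ) : Prop := 0 < a ∧ a < 2 ^ m - 1 ∧ ∀ j, 0 < j → j < m → a < 2 ^ j * a % (2 ^ m - 1)

lemma two_le_pow {m : ℕ} (hm : 2 ≤ m) : 4 ≤ 2 ^ m := by
  calc 4 = 2 ^ 2 := by norm_num
    _ ≤ 2 ^ m := Nat.pow_le_pow_right (by norm_num) hm

lemma int_core {P Q a q t : ℤ} (hP : 1 ≤ P) (hQ : 1 ≤ Q) (ha : 1 ≤ a) (hq : 0 ≤ q)
    (h1 : a + 1 ≤ t) (h2 : t < P) (h3 : t - (q + 1) = P * (a + 1 - 2 * Q * (q + 1))) : False := by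
  have hqa : q + 1 ≤ a := by
    by_contra hcon
    push Not at hcon
    have e1 : q + 1 ≤ Q * (q + 1) := le_mul_of_one_le_left (by linarith) hQ
    have e2 : a + 1 - 2 * Q * (q + 1) ≤ -(q + 1) := by linarith
    have e3 : P * (a + 1 - 2 * Q * (q + 1)) ≤ P * (-(q + 1)) :=
      mul_le_mul_of_nonneg_left e2 (by linarith)
    have e4 : q + 1 ≤ P * (q + 1) := le_mul_of_one_le_left (by linarith) hP
    linarith
  have hz : 1 ≤ a + 1 - 2 * Q * (q + 1) := by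
    by_contra hcon
    push Not at hcon
    have e1 : a + 1 - 2 * Q * (q + 1) ≤ 0 := by linarith
    have e2 : P * (a + 1 - 2 * Q * (q + 1)) ≤ 0 := mul_nonpos_of_nonneg_of_nonpos (by linarith) e1
    linarith
  have e5 : P ≤ P * (a + 1 - 2 * Q * (q + 1)) := le_mul_of_one_le_right (by linarith) hz
  linarith

/-- the orbit intervals do not wrap around -/
lemma fact2 {m a j : ℕ} (h0 : 0 < a) (h1 : a < 2 ^ m - 1) (hjm : j < m) :
    2 ^ j * a % (2 ^ m - 1) + 2 ^ j ≤ (2 ^ m - 1) + a := by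
  by_contra hc
  push Not at hc
  have hN : 0 < 2 ^ m - 1 := by omega
  have hρ : 2 ^ j * a % (2 ^ m - 1) < 2 ^ m - 1 := Nat.mod_lt _ hN
  have hdiv := Nat.div_add_mod (2 ^ j * a) (2 ^ m - 1)
  generalize 2 ^ j * a / (2 ^ m - 1) = q at hdiv
  generalize 2 ^ j * a % (2 ^ m - 1) = ρ at hdiv hc hρ
  have hM : 1 ≤ 2 ^ m := Nat.one_le_two_pow
  have hpow : 2 ^ m = 2 ^ j * (2 * 2 ^ (m - j - 1)) := by
    rw [← pow_succ', ← pow_add]; congr 1; omega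
  have hP0 : 1 ≤ 2 ^ j := Nat.one_le_two_pow
  have hQ0 : 1 ≤ 2 ^ (m - j - 1) := Nat.one_le_two_pow
  generalize 2 ^ (m - j - 1) = Q at hpow hQ0
  generalize 2 ^ j = P at hpow hP0 hdiv hc
  generalize 2 ^ m = M at hpow hM hdiv hc hρ hN h1
  subst hpow
  have hdiv' : ((P : ℤ) * (2 * Q) - 1) * q + ρ = P * a := by
    have h : ((P * (2 * Q) - 1 : ℕ) : ℤ) * q + ρ = P * a := by exact_mod_cast hdiv
    rw [Nat.cast_sub hM] at h
    push_cast at h
    exact h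
  have hc' : ((P : ℤ) * (2 * Q) - 1) + a + 1 ≤ ρ + P := by
    have h : ((P * (2 * Q) - 1 : ℕ) : ℤ) + a + 1 ≤ ρ + P := by exact_mod_cast hc
    rw [Nat.cast_sub hM] at h
    push_cast at h
    exact h
  have hρ' : (ρ : ℤ) < (P : ℤ) * (2 * Q) - 1 := by
    have h : (ρ : ℤ) < ((P * (2 * Q) - 1 : ℕ) : ℤ) := by exact_mod_cast hρ
    rw [Nat.cast_sub hM] at h
    push_cast at h
    exact h
  refine int_core (P := P) (Q := Q) (a := a) (q := q) (t := ρ + P - (P * (2 * Q) - 1))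
    (by exact_mod_cast hP0) (by exact_mod_cast hQ0) (by exact_mod_cast h0) (by positivity)
    (by linarith) (by linarith) (by linarith)

lemma odd_of_lyn {m a : ℕ} (hm : 2 ≤ m) (h : Lyn m a) : a % 2 = 1 := by
  by_contra hc
  have h2 : a = 2 * (a / 2) := by omega
  obtain ⟨c, hcd⟩ : ∃ c, c = a / 2 := ⟨_, rfl⟩
  rw [← hcd] at h2
  have h3 := h.2.2 (m - 1) (by omega) (by omega)
  have hM : 1 ≤ 2 ^ m := Nat.one_le_two_pow
  have h4 : 2 ^ (m - 1) * a = c + (2 ^ m - 1) * c := by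
    have h5 : 2 ^ m = 2 ^ (m - 1) * 2 := by
      rw [← pow_succ]; congr 1; omega
    have h6 : 2 ^ (m - 1) * a = 2 ^ m * c := by rw [h2, h5]; ring
    rw [h6, Nat.sub_mul, one_mul]
    have : c ≤ 2 ^ m * c := Nat.le_mul_of_pos_left c (by positivity)
    omega
  have hcN : c < 2 ^ m - 1 := by have := h.2.1; omega
  rw [h4, Nat.add_mul_mod_self_left, Nat.mod_eq_of_lt hcN] at h3
  have := h.1
  omega

lemma sameSide_shift {θ x y x' y' : ℝ} (h : SameSide θ x y) (a b : ℤ) (hx : x' = x + a)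
    (hy : y' = y + b) : SameSide θ x' y' := by
  obtain ⟨w, j, k, h1, h2, h3, h4⟩ := h
  refine ⟨w, j + a, k + b, ?_, ?_, ?_, ?_⟩ <;> push_cast <;> linarith

/-- powers of `2` modulo `2 ^ m - 1` -/
lemma pow_mod_period (m i : ℕ) : 2 ^ i ≡ 2 ^ (i % m) [MOD 2 ^ m - 1] := by
  have h1 : 2 ^ m ≡ 1 [MOD 2 ^ m - 1] := by
    exact ((Nat.modEq_iff_dvd' (Nat.one_le_two_pow : 1 ≤ 2 ^ m)).2 dvd_rfl).symm
  have h2 : 2 ^ i = (2 ^ m) ^ (i / m) * 2 ^ (i % m) := by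
    rw [← pow_mul, ← pow_add, Nat.div_add_mod]
  rw [h2]
  calc (2 ^ m) ^ (i / m) * 2 ^ (i % m) ≡ 1 ^ (i / m) * 2 ^ (i % m) [MOD 2 ^ m - 1] :=
        Nat.ModEq.mul_right _ (h1.pow _)
    _ = 2 ^ (i % m) := by rw [one_pow, one_mul]

lemma real_shift {m i x : ℕ} (hm : 2 ≤ m) :
    ∃ z : ℤ, (2 : ℝ) ^ i * ((x : ℝ) / (2 ^ m - 1)) = 2 ^ (i % m) * ((x : ℝ) / (2 ^ m - 1)) + z := by
  have h := (pow_mod_period m i).mul_right x
  have hM : 1 ≤ 2 ^ m := Nat.one_le_two_pow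
  obtain ⟨z, hz⟩ := (Nat.modEq_iff_dvd.1 h.symm)
  refine ⟨z, ?_⟩
  have hN : (0 : ℝ) < 2 ^ m - 1 := by
    have : (4 : ℝ) ≤ 2 ^ m := by exact_mod_cast two_le_pow hm
    linarith
  have hz' : ((2 ^ i * x : ℕ) : ℝ) - ((2 ^ (i % m) * x : ℕ) : ℝ) = ((2 ^ m - 1 : ℕ) : ℝ) * z := by
    exact_mod_cast hz
  rw [Nat.cast_sub hM] at hz'
  push_cast at hz'
  field_simp
  linarith

lemma real_mod {m i x : ℕ} (hm : 2 ≤ m) :
    ∃ z : ℤ, (2 : ℝ) ^ i * ((x : ℝ) / (2 ^ m - 1)) = ((2 ^ i * x % (2 ^ m - 1) : ℕ) : ℝ) / (2 ^ m - 1) + z := by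
  have hM : 1 ≤ 2 ^ m := Nat.one_le_two_pow
  have h := Nat.div_add_mod (2 ^ i * x) (2 ^ m - 1)
  generalize 2 ^ i * x / (2 ^ m - 1) = q at h
  generalize 2 ^ i * x % (2 ^ m - 1) = ρ at h ⊢
  refine ⟨(q : ℤ), ?_⟩
  have hN : (0 : ℝ) < 2 ^ m - 1 := by
    have : (4 : ℝ) ≤ 2 ^ m := by exact_mod_cast two_le_pow hm
    linarith
  have h' : ((2 ^ m - 1 : ℕ) : ℝ) * (q : ℝ) + (ρ : ℝ) = 2 ^ i * x := by exact_mod_cast h
  rw [Nat.cast_sub hM] at h'
  push_cast at h' ⊢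
  field_simp
  linarith

/-- **narrow wakes** -/
theorem narrow_wake' {m a : ℕ} (hm : 2 ≤ m) (h : Lyn m a) :
    Wake m ((a : ℝ) / (2 ^ m - 1)) (((a : ℝ) + 1) / (2 ^ m - 1)) := by
  have hM : 1 ≤ 2 ^ m := Nat.one_le_two_pow
  have h4 : (4 : ℝ) ≤ 2 ^ m := by exact_mod_cast two_le_pow hm
  have hN : (0 : ℝ) < 2 ^ m - 1 := by linarith
  have hNc : ((2 ^ m - 1 : ℕ) : ℝ) = 2 ^ m - 1 := by
    rw [Nat.cast_sub hM]; push_cast; ring
  have hodd := odd_of_lyn hm h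
  obtain ⟨h0, h1, hL⟩ := h
  have ha0 : (0 : ℝ) < a := by exact_mod_cast h0
  have ha1 : (a : ℝ) + 1 ≤ 2 ^ m - 1 := by
    rw [← hNc]; exact_mod_cast h1
  refine ⟨by omega, by positivity, ?_, ?_, ⟨a, ?_⟩, ⟨a + 1, ?_⟩, ?_, ?_, ?_⟩
  · exact (div_lt_div_iff_of_pos_right hN).2 (by linarith)
  · rw [div_le_one hN]; exact ha1
  · push_cast; field_simp
  · push_cast; field_simp
  · -- exactness of the left end
    intro d hd hdm hx
    obtain ⟨z, hz⟩ := hx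
    have e1 := real_mod (m := m) (i := d) (x := a) hm
    obtain ⟨y, hy⟩ := e1
    have h2 : ((2 ^ d * a % (2 ^ m - 1) : ℕ) : ℝ) - a = (2 ^ m - 1) * (z - y) := by
      have : ((2 ^ d * a % (2 ^ m - 1) : ℕ) : ℝ) / (2 ^ m - 1) - a / (2 ^ m - 1) = z - y := by
        linarith
      field_simp at this
      linarith
    have h3 := hL d hd hdm
    have h4 : 2 ^ d * a % (2 ^ m - 1) < 2 ^ m - 1 := Nat.mod_lt _ (by omega)
    obtain ⟨ρ, hρ⟩ : ∃ ρ, ρ = 2 ^ d * a % (2 ^ m - 1) := ⟨_, rfl⟩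
    rw [← hρ] at h2 h3 h4
    have h5 : ((ρ : ℤ) - a) = ((2 ^ m - 1 : ℕ) : ℤ) * (z - y) := by
      have : (((ρ : ℤ) - a : ℤ) : ℝ) = (((2 ^ m - 1 : ℕ) : ℤ) * (z - y) : ℤ) := by
        push_cast [hNc]; linarith
      exact_mod_cast this
    rcases le_or_gt (z - y) 0 with h6 | h6
    · nlinarith
    · have : (1 : ℤ) ≤ z - y := by omega
      nlinarith
  · intro d hd hdm hx
    obtain ⟨z, hz⟩ := hx
    obtain ⟨y, hy⟩ := real_mod (m := m) (i := d) (x := a) hm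
    have h3 := hL d hd hdm
    have h4 := fact2 h0 h1 hdm
    obtain ⟨ρ, hρ⟩ : ∃ ρ, ρ = 2 ^ d * a % (2 ^ m - 1) := ⟨_, rfl⟩
    rw [← hρ] at hy h3 h4
    have h2 : (ρ : ℝ) + 2 ^ d - (a + 1) = (2 ^ m - 1) * (z - y) := by
      have e1 : (2 : ℝ) ^ d * (((a : ℝ) + 1) / (2 ^ m - 1)) =
          2 ^ d * ((a : ℝ) / (2 ^ m - 1)) + 2 ^ d / (2 ^ m - 1) := by ring
      have : (ρ : ℝ) / (2 ^ m - 1) + 2 ^ d / (2 ^ m - 1) - (a + 1) / (2 ^ m - 1) = z - y := by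
        linarith
      field_simp at this
      linarith
    have h5 : ((ρ : ℤ) + 2 ^ d - (a + 1)) = ((2 ^ m - 1 : ℕ) : ℤ) * (z - y) := by
      have : (((ρ : ℤ) + 2 ^ d - (a + 1) : ℤ) : ℝ) = (((2 ^ m - 1 : ℕ) : ℤ) * (z - y) : ℤ) := by
        push_cast [hNc]; linarith
      exact_mod_cast this
    have h7 : (1 : ℤ) ≤ 2 ^ d := by exact_mod_cast Nat.one_le_two_pow
    have h8 : (ρ : ℤ) + 2 ^ d ≤ ((2 ^ m - 1 : ℕ) : ℤ) + a := by exact_mod_cast h4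
    have h9 : (a : ℤ) < ρ := by exact_mod_cast h3
    have h10 : (0 : ℤ) ≤ ((2 ^ m - 1 : ℕ) : ℤ) := by positivity
    rcases le_or_gt (z - y) 0 with h6 | h6
    · nlinarith
    · have : (1 : ℤ) ≤ z - y := by omega
      nlinarith
  · intro θ hθ1 hθ2 i
    obtain ⟨z1, hz1⟩ := real_shift (m := m) (i := i) (x := a) hm
    obtain ⟨z2, hz2⟩ := real_shift (m := m) (i := i) (x := a + 1) hm
    push_cast at hz2
    refine sameSide_shift ?_ z1 z2 hz1 hz2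
    have hr : i % m < m := Nat.mod_lt _ (by omega)
    obtain ⟨r, hrd⟩ : ∃ r, r = i % m := ⟨_, rfl⟩
    rw [← hrd] at hr ⊢
    clear hz1 hz2 hrd
    rw [div_lt_iff₀ hN] at hθ1
    rw [lt_div_iff₀ hN] at hθ2
    rcases Nat.lt_or_ge (r + 1) m with hr1 | hr1
    · -- generic time
      have h3 := hL (r + 1) (by omega) hr1
      have h5 := fact2 h0 h1 hr1
      obtain ⟨y, hy⟩ := real_mod (m := m) (i := r) (x := a) hm
      have hρN : 2 ^ r * a % (2 ^ m - 1) < 2 ^ m - 1 := Nat.mod_lt _ (by omega)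
      have hrel : ∃ ε : ℕ, 2 * (2 ^ r * a % (2 ^ m - 1)) =
          2 ^ (r + 1) * a % (2 ^ m - 1) + (2 ^ m - 1) * ε := by
        refine ⟨2 * (2 ^ r * a % (2 ^ m - 1)) / (2 ^ m - 1), ?_⟩
        have e1 : 2 ^ (r + 1) * a % (2 ^ m - 1) = 2 * (2 ^ r * a % (2 ^ m - 1)) % (2 ^ m - 1) := by
          rw [Nat.mul_mod 2 (2 ^ r * a % (2 ^ m - 1)), Nat.mod_mod, ← Nat.mul_mod]
          congr 1; ring
        rw [e1]
        exact (Nat.mod_add_div _ _).symm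
      obtain ⟨ε, hε⟩ := hrel
      obtain ⟨ρ, hρ⟩ : ∃ ρ, ρ = 2 ^ r * a % (2 ^ m - 1) := ⟨_, rfl⟩
      obtain ⟨σ, hσ⟩ : ∃ σ, σ = 2 ^ (r + 1) * a % (2 ^ m - 1) := ⟨_, rfl⟩
      rw [← hρ] at hy hε hρN
      rw [← hσ] at h3 h5 hε
      have hεr : (2 : ℝ) * ρ = σ + (2 ^ m - 1) * ε := by
        rw [← hNc]; exact_mod_cast hε
      have h3r : (a : ℝ) + 1 ≤ σ := by exact_mod_cast h3
      have h5r : (σ : ℝ) + 2 ^ (r + 1) ≤ (2 ^ m - 1) + a := by
        rw [← hNc]; exact_mod_cast h5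
      have hp : (2 : ℝ) ^ (r + 1) = 2 * 2 ^ r := by ring
      have hp0 : (0 : ℝ) < 2 ^ r := by positivity
      have hyb : (2 : ℝ) ^ r * (((a : ℝ) + 1) / (2 ^ m - 1)) =
          ((ρ : ℝ) + 2 ^ r) / (2 ^ m - 1) + y := by
        have e1 : (2 : ℝ) ^ r * (((a : ℝ) + 1) / (2 ^ m - 1)) =
          2 ^ r * ((a : ℝ) / (2 ^ m - 1)) + 2 ^ r / (2 ^ m - 1) := by ring
        rw [e1, hy]; ring
      refine sameSide_shift (x := (ρ : ℝ) / (2 ^ m - 1)) (y := ((ρ : ℝ) + 2 ^ r) / (2 ^ m - 1))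
        ⟨ε, 0, 0, ?_, ?_, ?_, ?_⟩ y y hy hyb
      · push_cast
        rw [lt_div_iff₀ hN]
        nlinarith
      · push_cast
        rw [div_lt_iff₀ hN]
        nlinarith
      · push_cast
        rw [lt_div_iff₀ hN]
        nlinarith
      · push_cast
        rw [div_lt_iff₀ hN]
        nlinarith
    · -- the last time
      have hrm : r = m - 1 := by omega
      obtain ⟨c, hc⟩ : ∃ c, a = 2 * c + 1 := ⟨a / 2, by omega⟩
      have hpw : (2 : ℝ) ^ m = 2 * 2 ^ r := by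
        rw [hrm, ← pow_succ']; congr 1; omega
      have har : (a : ℝ) = 2 * c + 1 := by rw [hc]; push_cast; ring
      refine sameSide_shift (x := ((a : ℝ) / (2 ^ m - 1) + 1) / 2)
        (y := (((a : ℝ) + 1) / (2 ^ m - 1)) / 2) ⟨0, 0, 0, ?_, ?_, ?_, ?_⟩ c (c + 1) ?_ ?_
      · push_cast
        have : θ < a / (2 ^ m - 1) + 1 := by
          have : θ ≤ 1 := by
            by_contra hcon
            push Not at hcon
            nlinarith
          have : 0 < (a : ℝ) / (2 ^ m - 1) := by positivity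
          linarith
        linarith
      · push_cast
        have : (a : ℝ) / (2 ^ m - 1) < θ := by rw [div_lt_iff₀ hN]; exact hθ1
        linarith
      · push_cast
        have : θ < ((a : ℝ) + 1) / (2 ^ m - 1) := by rw [lt_div_iff₀ hN]; exact hθ2
        linarith
      · push_cast
        have h8 : ((a : ℝ) + 1) / (2 ^ m - 1) ≤ 1 := by rw [div_le_one hN]; exact ha1
        have h9 : 0 < θ := by
          by_contra hcon
          push Not at hcon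
          nlinarith
        linarith
      · push_cast
        have hu : ((2 : ℝ) ^ m - 1) * (a / (2 ^ m - 1)) = a := mul_div_cancel₀ _ hN.ne'
        generalize (a : ℝ) / (2 ^ m - 1) = u at hu
        rw [hpw, har] at hu
        linarith
      · push_cast
        have hu : ((2 : ℝ) ^ m - 1) * ((a + 1) / (2 ^ m - 1)) = a + 1 := mul_div_cancel₀ _ hN.ne'
        generalize ((a : ℝ) + 1) / (2 ^ m - 1) = u at hu
        rw [hpw, har] at hu
        linarith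

lemma pow_mul_mod (m i b : ℕ) : 2 ^ i * b % (2 ^ m - 1) = 2 ^ (i % m) * b % (2 ^ m - 1) :=
  (pow_mod_period m i).mul_right b

lemma coprime_two {m : ℕ} (hm : 1 ≤ m) : Nat.Coprime (2 ^ m - 1) 2 := by
  have h : (2 ^ m - 1) % 2 = 1 := by
    obtain ⟨n, rfl⟩ : ∃ n, m = n + 1 := ⟨m - 1, by omega⟩
    have : 1 ≤ 2 ^ n := Nat.one_le_two_pow
    rw [pow_succ]; omega
  rw [Nat.coprime_two_right, Nat.odd_iff]
  exact h

lemma mod_ne_self {m i a : ℕ} (hm : m.Prime) (hi : 0 < i) (him : i < m) (h0 : 0 < a)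
    (h1 : a < 2 ^ m - 1) : 2 ^ i * a % (2 ^ m - 1) ≠ a := by
  intro h
  have h2 : 2 ^ i * a ≡ a [MOD 2 ^ m - 1] := by
    rw [Nat.ModEq, h, Nat.mod_eq_of_lt h1]
  have h3 : a ≤ 2 ^ i * a := Nat.le_mul_of_pos_left a (by positivity)
  have h4 : (2 ^ m - 1) ∣ 2 ^ i * a - a := (Nat.modEq_iff_dvd' h3).1 h2.symm
  have h5 : 2 ^ i * a - a = (2 ^ i - 1) * a := by rw [Nat.sub_mul, one_mul]
  rw [h5] at h4
  have h6 : Nat.Coprime (2 ^ m - 1) (2 ^ i - 1) := by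
    rw [Nat.Coprime, Nat.pow_sub_one_gcd_pow_sub_one,
      (Nat.coprime_of_lt_prime hi.ne' him hm).gcd_eq_one, pow_one]
  have h7 := h6.dvd_of_dvd_mul_left h4
  have := Nat.le_of_dvd h0 h7
  omega

lemma mod_pos {m i a : ℕ} (hm : 2 ≤ m) (h0 : 0 < a) (h1 : a < 2 ^ m - 1) :
    0 < 2 ^ i * a % (2 ^ m - 1) := by
  rw [Nat.pos_iff_ne_zero]
  intro h
  have h2 := Nat.dvd_of_mod_eq_zero h
  have h3 : Nat.Coprime (2 ^ m - 1) (2 ^ i) := (coprime_two (by omega)).pow_right i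
  have := Nat.le_of_dvd h0 (h3.dvd_of_dvd_mul_left h2)
  omega

/-- the number of Lyndon words of prime length -/
lemma card_lyn {m : ℕ} (hm : m.Prime) :
    ∃ S : Finset ℕ, 2 ^ m - 2 ≤ S.card * m ∧ ∀ a ∈ S, Lyn m a := by
  classical
  have hm2 := hm.two_le
  have h4 := two_le_pow hm2
  refine ⟨(Finset.range (2 ^ m - 1)).filter (Lyn m), ?_, fun a ha => (Finset.mem_filter.1 ha).2⟩
  have hsub : Finset.Ioo 0 (2 ^ m - 1) ⊆
      (((Finset.range (2 ^ m - 1)).filter (Lyn m)) ×ˢ Finset.range m).image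
        (fun x => 2 ^ x.2 * x.1 % (2 ^ m - 1)) := by
    intro b hb
    obtain ⟨hb0, hb1⟩ := Finset.mem_Ioo.1 hb
    obtain ⟨j, hj, hmin⟩ := Finset.exists_min_image (Finset.range m)
      (fun j => 2 ^ j * b % (2 ^ m - 1)) ⟨0, Finset.mem_range.2 hm.pos⟩
    have hjm := Finset.mem_range.1 hj
    rw [Finset.mem_image]
    have ha0 : 0 < 2 ^ j * b % (2 ^ m - 1) := mod_pos hm2 hb0 hb1
    have ha1 : 2 ^ j * b % (2 ^ m - 1) < 2 ^ m - 1 := Nat.mod_lt _ (by omega)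
    have hmul : ∀ i, 2 ^ i * (2 ^ j * b % (2 ^ m - 1)) % (2 ^ m - 1) =
        2 ^ ((i + j) % m) * b % (2 ^ m - 1) := by
      intro i
      rw [← pow_mul_mod, Nat.mul_mod, Nat.mod_mod, ← Nat.mul_mod]
      congr 1; ring
    refine ⟨(2 ^ j * b % (2 ^ m - 1), (m - j) % m), ?_, ?_⟩
    · rw [Finset.mem_product]
      refine ⟨Finset.mem_filter.2 ⟨Finset.mem_range.2 ha1, ha0, ha1, ?_⟩,
        Finset.mem_range.2 (Nat.mod_lt _ hm.pos)⟩
      intro i hi him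
      refine lt_of_le_of_ne ?_ (mod_ne_self hm hi him ha0 ha1).symm
      rw [hmul]
      exact hmin _ (Finset.mem_range.2 (Nat.mod_lt _ hm.pos))
    · simp only
      rw [hmul]
      have : ((m - j) % m + j) % m = 0 := by
        rw [Nat.mod_add_mod, Nat.sub_add_cancel hjm.le, Nat.mod_self]
      rw [this, pow_zero, one_mul, Nat.mod_eq_of_lt hb1]
  have h := (Finset.card_le_card hsub).trans Finset.card_image_le
  rw [Finset.card_product, Finset.card_range, Nat.card_Ioo] at h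
  omega

lemma exists_large_prime (s : ℕ) : ∃ m : ℕ, m.Prime ∧ 4 * (4 * m) ^ s * m ≤ 2 ^ m - 2 := by
  have h := tendsto_pow_const_div_const_pow_of_one_lt (s + 1) (r := (2 : ℝ)) (by norm_num)
  have hC : (0 : ℝ) < 1 / (2 * (4 * 4 ^ s)) := by positivity
  obtain ⟨n, hn⟩ := eventually_atTop.1 (h.eventually (gt_mem_nhds hC))
  obtain ⟨m, hmn, hm⟩ := Nat.exists_infinite_primes (max n 2)
  refine ⟨m, hm, ?_⟩
  have h1 := hn m ((le_max_left _ _).trans hmn)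
  have h2 : (4 : ℝ) ≤ 2 ^ m := by exact_mod_cast two_le_pow hm.two_le
  rw [div_lt_div_iff₀ (by positivity) (by positivity)] at h1
  have h3 : (4 : ℝ) * (4 * m) ^ s * m + 2 ≤ 2 ^ m := by
    rw [mul_pow]
    have : (4 : ℝ) * (4 ^ s * m ^ s) * m = 4 * 4 ^ s * m ^ (s + 1) := by ring
    rw [this]
    nlinarith
  have h4 : 4 * (4 * m) ^ s * m + 2 ≤ 2 ^ m := by exact_mod_cast h3
  omega

/-- **many narrow wakes of the same period** -/
theorem many_wakes (s : ℕ) : ∃ m : ℕ, m.Prime ∧ ∃ S : Finset ℕ, 4 * (4 * m) ^ s ≤ S.card ∧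
    ∀ a ∈ S, Lyn m a ∧ a % 2 = 1 ∧
      Wake m ((a : ℝ) / (2 ^ m - 1)) (((a : ℝ) + 1) / (2 ^ m - 1)) := by
  obtain ⟨m, hm, h1⟩ := exists_large_prime s
  obtain ⟨S, hS, hL⟩ := card_lyn hm
  refine ⟨m, hm, S, ?_, fun a ha => ⟨hL a ha, odd_of_lyn hm.two_le (hL a ha),
    narrow_wake' hm.two_le (hL a ha)⟩⟩
  exact Nat.le_of_mul_le_mul_right (h1.trans hS) hm.pos

lemma lyn_lt_half {m a : ℕ} (hm : 2 ≤ m) (h : Lyn m a) : (a : ℝ) / (2 ^ m - 1) < 1 / 2 := by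
  have h4 := two_le_pow hm
  have h1 := h.2.2 1 one_pos (by omega)
  have h2 := h.2.1
  have h3 : 2 * a < 2 ^ m - 1 := by
    by_contra hc
    push Not at hc
    have e1 : 2 ^ 1 * a = (2 * a - (2 ^ m - 1)) + (2 ^ m - 1) := by omega
    rw [e1, Nat.add_mod_right, Nat.mod_eq_of_lt (by omega)] at h1
    omega
  have hN : (0 : ℝ) < 2 ^ m - 1 := by
    have : (4 : ℝ) ≤ 2 ^ m := by exact_mod_cast h4
    linarith
  have h5 : 2 * (a : ℝ) < 2 ^ m - 1 := by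
    have h6 : ((2 * a : ℕ) : ℝ) < ((2 ^ m - 1 : ℕ) : ℝ) := by exact_mod_cast h3
    rw [Nat.cast_sub Nat.one_le_two_pow] at h6
    push_cast at h6
    exact h6
  rw [div_lt_iff₀ hN]
  linarith

/-- many wakes of the same period, with different left ends in the first half -/
theorem many_wakes' (s : ℕ) : ∃ m : ℕ, 2 ≤ m ∧ ∃ S : Finset (ℝ × ℝ), 4 * (4 * m) ^ s ≤ S.card ∧
    (∀ w ∈ S, Wake m w.1 w.2 ∧ w.1 < 1 / 2) ∧ (∀ w ∈ S, ∀ w' ∈ S, w.1 = w'.1 → w = w') := by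
  classical
  obtain ⟨m, hm, S, hS, h⟩ := many_wakes s
  have h4 : (4 : ℝ) ≤ 2 ^ m := by exact_mod_cast two_le_pow hm.two_le
  have hN : (0 : ℝ) < 2 ^ m - 1 := by linarith
  have hinj : ∀ a b : ℕ, (a : ℝ) / (2 ^ m - 1) = b / (2 ^ m - 1) → a = b := by
    intro a b hab
    rw [div_left_inj' hN.ne'] at hab
    exact_mod_cast hab
  refine ⟨m, hm.two_le, S.image (fun a : ℕ => ((a : ℝ) / (2 ^ m - 1), ((a : ℝ) + 1) / (2 ^ m - 1))),
    ?_, ?_, ?_⟩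
  · rw [Finset.card_image_of_injective]
    · exact hS
    · intro a b hab
      exact hinj a b (Prod.ext_iff.1 hab).1
  · intro w hw
    obtain ⟨a, ha, rfl⟩ := Finset.mem_image.1 hw
    exact ⟨(h a ha).2.2, lyn_lt_half hm.two_le (h a ha).1⟩
  · intro w hw w' hw' he
    obtain ⟨a, ha, rfl⟩ := Finset.mem_image.1 hw
    obtain ⟨b, hb, rfl⟩ := Finset.mem_image.1 hw'
    rw [hinj a b he]

end Pool.Agent.Work.MLC.UniB
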