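import Pool.Agent.Work.MLC.ShpWa24
import Pool.Agent.Work.MLC.ShpU24

set_option autoImplicit false

/-! # Tuning of wakes (helper6)

`wake_tun`: the tuned angles of a wake of period `m` are the wake of period `n * m` in the copy. -/

namespace Pool.Agent.Work.MLC.Shp

open Filter Topology Set
open Pool.Agent.Work.MLC.Sat Pool.Agent.Work.MLC.Cnt

variable {n m : ℕ} {α β : ℝ}

/-- the binary digits -/
noncomputable def dg (x : ℝ) (i : ℕ) : ℤ := ⌊2 ^ (i + 1) * x⌋ - 2 * ⌊2 ^ i * x⌋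

lemma dg_or (x : ℝ) (i : ℕ) : dg x i = 0 ∨ dg x i = 1 := by
  unfold dg
  have e : (2 : ℝ) ^ (i + 1) * x = 2 * (2 ^ i * x) := by rw [pow_succ]; ring
  rw [e]
  set y := (2 : ℝ) ^ i * x
  have h1 := Int.floor_le y
  have h2 := Int.lt_floor_add_one y
  have h3 : 2 * ⌊y⌋ ≤ ⌊2 * y⌋ := by
    rw [Int.le_floor]; push_cast; linarith
  have h4 : ⌊2 * y⌋ < 2 * ⌊y⌋ + 2 := by
    rw [Int.floor_lt]; push_cast; linarith
  omega

lemma dg_fract (x : ℝ) (i : ℕ) : dg (Int.fract (2 * x)) i = dg x (i + 1) := by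
  unfold dg
  have e1 : (2 : ℝ) ^ (i + 1) * Int.fract (2 * x) = 2 ^ (i + 1 + 1) * x -
      ((2 ^ (i + 1) * ⌊2 * x⌋ : ℤ) : ℝ) := by
    unfold Int.fract; push_cast; ring
  have e2 : (2 : ℝ) ^ i * Int.fract (2 * x) = 2 ^ (i + 1) * x - ((2 ^ i * ⌊2 * x⌋ : ℤ) : ℝ) := by
    unfold Int.fract; push_cast; ring
  rw [e1, e2, Int.floor_sub_intCast, Int.floor_sub_intCast]
  ring

lemma dg_zero {x : ℝ} (h0 : 0 ≤ x) (h1 : x < 1) : dg x 0 = ⌊2 * x⌋ := by
  unfold dg
  have : ⌊x⌋ = 0 := by rw [Int.floor_eq_iff]; constructor <;> push_cast <;> linarith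
  simp only [zero_add, pow_one, pow_zero, one_mul, this]
  ring

/-- the angle for a digit -/
noncomputable def ee (α β : ℝ) (d : ℤ) : ℝ := if d = 1 then β else α

/-- replace the digits by the periods -/
noncomputable def TT (n : ℕ) (α β x : ℝ) : ℝ :=
  ∑' i : ℕ, (2 ^ n - 1) * ee α β (dg x i) / 2 ^ (n * (i + 1))

lemma ee_or (α β : ℝ) (d : ℤ) : ee α β d = α ∨ ee α β d = β := by
  unfold ee; split_ifs
  · exact Or.inr rfl
  · exact Or.inl rfl

lemma hasSum_cst (hn : 0 < n) (e : ℝ) :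
    HasSum (fun i : ℕ => (2 ^ n - 1) * e / 2 ^ (n * (i + 1))) e := by
  have hp : (0 : ℝ) < 2 ^ n := by positivity
  have h1 : (1 : ℝ) < 2 ^ n := one_lt_pow₀ (by norm_num) hn.ne'
  have h2 := (hasSum_geometric_of_lt_one (r := 1 / (2 : ℝ) ^ n) (by positivity)
    ((div_lt_one hp).2 h1)).mul_left ((2 ^ n - 1) * e / 2 ^ n)
  have h3 : (2 ^ n - 1) * e / 2 ^ n * (1 - 1 / (2 : ℝ) ^ n)⁻¹ = e := by
    have h6 : (2 : ℝ) ^ n - 1 ≠ 0 := by linarith
    have h7 : (1 - 1 / 2 ^ n : ℝ) = (2 ^ n - 1) / 2 ^ n := by field_simp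
    rw [h7, inv_div]
    field_simp
  rw [h3] at h2
  have h5 : (fun i : ℕ => (2 ^ n - 1) * e / (2 : ℝ) ^ (n * (i + 1))) =
      fun i => (2 ^ n - 1) * e / 2 ^ n * (1 / 2 ^ n) ^ i := by
    funext i
    have h4 : (2 : ℝ) ^ (n * (i + 1)) = 2 ^ n * (2 ^ n) ^ i := by
      rw [← pow_mul, ← pow_add, Nat.mul_succ, add_comm]
    rw [h4, div_pow, one_pow, div_mul_div_comm, mul_one]
  rw [h5]
  exact h2

lemma summable_TT (hn : 0 < n) (α β x : ℝ) :
    Summable (fun i : ℕ => (2 ^ n - 1) * ee α β (dg x i) / 2 ^ (n * (i + 1))) := by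
  have h1 : (1 : ℝ) < 2 ^ n := one_lt_pow₀ (by norm_num) hn.ne'
  refine Summable.of_norm_bounded (hasSum_cst hn (|α| + |β|)).summable fun i => ?_
  rw [Real.norm_eq_abs, abs_div, abs_mul, abs_of_pos (show (0 : ℝ) < 2 ^ n - 1 by linarith),
    abs_of_pos (show (0 : ℝ) < 2 ^ (n * (i + 1)) by positivity)]
  refine div_le_div_of_nonneg_right (mul_le_mul_of_nonneg_left ?_ (by linarith)) (by positivity)
  rcases ee_or α β (dg x i) with h | h <;> rw [h]
  · linarith [abs_nonneg β]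
  · linarith [abs_nonneg α]

lemma TT_mem (hn : 0 < n) (α β x : ℝ) : TT n α β x ∈ Tuned n α β :=
  ⟨fun i => ee α β (dg x i), fun i => ee_or _ _ _, (summable_TT hn α β x).hasSum⟩

lemma TT_bounds (hn : 0 < n) (hab : α < β) (x : ℝ) : α ≤ TT n α β x ∧ TT n α β x ≤ β := by
  have h1 : (1 : ℝ) < 2 ^ n := one_lt_pow₀ (by norm_num) hn.ne'
  have hs := (summable_TT hn α β x).hasSum
  constructor
  · refine hasSum_le (fun i => ?_) (hasSum_cst hn α) hs
    refine div_le_div_of_nonneg_right (mul_le_mul_of_nonneg_left ?_ (by linarith)) (by positivity)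
    rcases ee_or α β (dg x i) with h | h <;> rw [h]
    exact hab.le
  · refine hasSum_le (fun i => ?_) hs (hasSum_cst hn β)
    refine div_le_div_of_nonneg_right (mul_le_mul_of_nonneg_left ?_ (by linarith)) (by positivity)
    rcases ee_or α β (dg x i) with h | h <;> rw [h]
    exact hab.le

/-- the functional equation -/
lemma TT_step (hn : 0 < n) {x : ℝ} (h0 : 0 ≤ x) (h1 : x < 1) :
    2 ^ n * TT n α β x = (2 ^ n - 1) * ee α β ⌊2 * x⌋ + TT n α β (Int.fract (2 * x)) := by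
  have hs := summable_TT hn α β x
  have hp : (0 : ℝ) < 2 ^ n := by positivity
  unfold TT
  rw [hs.tsum_eq_zero_add, mul_add, zero_add, mul_one, dg_zero h0 h1, mul_div_cancel₀ _ hp.ne',
    ← tsum_mul_left]
  congr 1
  refine tsum_congr fun i => ?_
  rw [dg_fract]
  have h2 : (2 : ℝ) ^ (n * (i + 1 + 1)) = 2 ^ n * 2 ^ (n * (i + 1)) := by
    rw [← pow_add]; congr 1; ring
  rw [h2, mul_div_assoc', mul_div_mul_left _ _ hp.ne']

lemma fl_or {x : ℝ} (h0 : 0 ≤ x) (h1 : x < 1) : ⌊2 * x⌋ = 0 ∨ ⌊2 * x⌋ = 1 := by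
  rw [← dg_zero h0 h1]; exact dg_or x 0

/-- the point is next to an end -/
lemma TT_near (hn : 0 < n) (hab : α < β) {x : ℝ} (h0 : 0 ≤ x) (h1 : x < 1) :
    ∃ δ : ℝ, 0 ≤ δ ∧ δ * 2 ^ n ≤ β - α ∧
      ((⌊2 * x⌋ = 0 ∧ TT n α β x = α + δ) ∨ (⌊2 * x⌋ = 1 ∧ TT n α β x = β - δ)) := by
  have hp : (0 : ℝ) < 2 ^ n := by positivity
  have h2 := TT_step (α := α) (β := β) hn h0 h1
  obtain ⟨h3, h4⟩ := TT_bounds hn hab (Int.fract (2 * x))
  rcases fl_or h0 h1 with h | h
  · rw [h] at h2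
    have h5 : ee α β 0 = α := by unfold ee; simp
    rw [h5] at h2
    refine ⟨TT n α β x - α, ?_, ?_, Or.inl ⟨h, by ring⟩⟩
    · have : 0 ≤ 2 ^ n * (TT n α β x - α) := by nlinarith
      exact nonneg_of_mul_nonneg_right this hp
    · nlinarith
  · rw [h] at h2
    have h5 : ee α β 1 = β := by unfold ee; simp
    rw [h5] at h2
    refine ⟨β - TT n α β x, ?_, ?_, Or.inr ⟨h, by ring⟩⟩
    · have : 0 ≤ 2 ^ n * (β - TT n α β x) := by nlinarith
      exact nonneg_of_mul_nonneg_right this hp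
    · nlinarith

/-- **separation** -/
lemma TT_sep (hn : 2 ≤ n) (hab : α < β) : ∀ (N : ℕ) {x y : ℝ}, 0 ≤ x → x < y → y < 1 →
    1 ≤ 2 ^ N * (y - x) → (β - α) / 2 * (1 / 2 ^ n) ^ (N - 1) ≤ TT n α β y - TT n α β x := by
  have hn0 : 0 < n := by omega
  have hp : (0 : ℝ) < 2 ^ n := by positivity
  have h4n : (4 : ℝ) ≤ 2 ^ n := by
    calc (4 : ℝ) = 2 ^ 2 := by norm_num
      _ ≤ 2 ^ n := pow_le_pow_right₀ (by norm_num) hn
  intro N
  induction N with
  | zero =>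
    intro x y h0 hxy h1 h
    exfalso
    simp only [pow_zero, one_mul] at h
    linarith
  | succ N ih =>
    intro x y h0 hxy h1 h
    have sx := TT_step (α := α) (β := β) hn0 h0 (hxy.trans h1)
    have sy := TT_step (α := α) (β := β) hn0 (h0.trans hxy.le) h1
    obtain ⟨x1, x2⟩ := TT_bounds hn0 hab (Int.fract (2 * x))
    obtain ⟨y1, y2⟩ := TT_bounds hn0 hab (Int.fract (2 * y))
    have hxe : (⌊2 * x⌋ : ℝ) + Int.fract (2 * x) = 2 * x := Int.floor_add_fract _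
    have hye : (⌊2 * y⌋ : ℝ) + Int.fract (2 * y) = 2 * y := Int.floor_add_fract _
    have hr0 : (0 : ℝ) < 1 / 2 ^ n := by positivity
    have hr1 : (1 : ℝ) / 2 ^ n ≤ 1 := by rw [div_le_one hp]; linarith
    rcases fl_or h0 (hxy.trans h1) with hx | hx <;> rcases fl_or (h0.trans hxy.le) h1 with hy | hy
    · rw [hx] at sx hxe
      rw [hy] at sy hye
      push_cast at hxe hye
      have hlt : Int.fract (2 * x) < Int.fract (2 * y) := by linarith
      have h2 : 1 ≤ 2 ^ N * (Int.fract (2 * y) - Int.fract (2 * x)) := by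
        have e : (2 : ℝ) ^ (N + 1) * (y - x) = 2 ^ N * (2 * y - 2 * x) := by rw [pow_succ]; ring
        rw [e] at h
        have e2 : 2 * y - 2 * x = Int.fract (2 * y) - Int.fract (2 * x) := by linarith
        rwa [e2] at h
      have h3 := ih (Int.fract_nonneg _) hlt (Int.fract_lt_one _) h2
      have hN : 0 < N := by
        rcases Nat.eq_zero_or_pos N with h5 | h5
        · exfalso
          rw [h5, pow_zero, one_mul] at h2
          linarith [Int.fract_lt_one (2 * y), Int.fract_nonneg (2 * x)]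
        · exact h5
      have e3 : (N + 1 - 1 : ℕ) = (N - 1) + 1 := by omega
      rw [e3, pow_succ, ← mul_assoc]
      have e4 : TT n α β y - TT n α β x =
          (TT n α β (Int.fract (2 * y)) - TT n α β (Int.fract (2 * x))) * (1 / 2 ^ n) := by
        field_simp
        linarith
      rw [e4]
      exact mul_le_mul_of_nonneg_right h3 hr0.le
    · rw [hx] at sx
      rw [hy] at sy
      have a0 : ee α β 0 = α := by unfold ee; simp
      have a1 : ee α β 1 = β := by unfold ee; simp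
      rw [a0] at sx
      rw [a1] at sy
      have h5 : (β - α) / 2 ≤ TT n α β y - TT n α β x := by
        have : 2 ^ n * ((β - α) / 2) ≤ 2 ^ n * (TT n α β y - TT n α β x) := by nlinarith
        exact le_of_mul_le_mul_left this hp
      refine le_trans ?_ h5
      exact mul_le_of_le_one_right (by linarith) (pow_le_one₀ hr0.le hr1)
    · exfalso
      rw [hx] at hxe
      rw [hy] at hye
      push_cast at hxe hye
      linarith [Int.fract_lt_one (2 * y), Int.fract_nonneg (2 * x)]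
    · rw [hx] at sx hxe
      rw [hy] at sy hye
      push_cast at hxe hye
      have hlt : Int.fract (2 * x) < Int.fract (2 * y) := by linarith
      have h2 : 1 ≤ 2 ^ N * (Int.fract (2 * y) - Int.fract (2 * x)) := by
        have e : (2 : ℝ) ^ (N + 1) * (y - x) = 2 ^ N * (2 * y - 2 * x) := by rw [pow_succ]; ring
        rw [e] at h
        have e2 : 2 * y - 2 * x = Int.fract (2 * y) - Int.fract (2 * x) := by linarith
        rwa [e2] at h
      have h3 := ih (Int.fract_nonneg _) hlt (Int.fract_lt_one _) h2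
      have hN : 0 < N := by
        rcases Nat.eq_zero_or_pos N with h5 | h5
        · exfalso
          rw [h5, pow_zero, one_mul] at h2
          linarith [Int.fract_lt_one (2 * y), Int.fract_nonneg (2 * x)]
        · exact h5
      have e3 : (N + 1 - 1 : ℕ) = (N - 1) + 1 := by omega
      rw [e3, pow_succ, ← mul_assoc]
      have e4 : TT n α β y - TT n α β x =
          (TT n α β (Int.fract (2 * y)) - TT n α β (Int.fract (2 * x))) * (1 / 2 ^ n) := by
        field_simp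
        linarith
      rw [e4]
      exact mul_le_mul_of_nonneg_right h3 hr0.le

lemma TT_lt (hn : 2 ≤ n) (hab : α < β) {x y : ℝ} (h0 : 0 ≤ x) (hxy : x < y) (h1 : y < 1) :
    TT n α β x < TT n α β y := by
  obtain ⟨N, hN⟩ := pow_unbounded_of_one_lt (1 / (y - x)) (one_lt_two : (1 : ℝ) < 2)
  have h2 : 1 ≤ 2 ^ N * (y - x) := by
    rw [div_lt_iff₀ (by linarith)] at hN
    exact hN.le
  have h3 := TT_sep hn hab N h0 hxy h1 h2
  have h4 : 0 < (β - α) / 2 * (1 / 2 ^ n : ℝ) ^ (N - 1) := by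
    have : 0 < β - α := by linarith
    positivity
  linarith

lemma TT_le (hn : 2 ≤ n) (hab : α < β) {x y : ℝ} (h0 : 0 ≤ x) (hxy : x ≤ y) (h1 : y < 1) :
    TT n α β x ≤ TT n α β y := by
  rcases hxy.eq_or_lt with h | h
  · rw [h]
  · exact (TT_lt hn hab h0 h h1).le

lemma fract_two_mul_fract (x : ℝ) (j : ℕ) :
    Int.fract (2 * Int.fract (2 ^ j * x)) = Int.fract (2 ^ (j + 1) * x) := by
  rw [Int.fract_eq_fract]
  refine ⟨-(2 * ⌊2 ^ j * x⌋), ?_⟩
  unfold Int.fract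
  push_cast
  rw [pow_succ]
  ring

/-- returns -/
lemma TT_iter (hn : 0 < n) {A B : ℤ} (hA : (2 ^ n - 1) * α = A) (hB : (2 ^ n - 1) * β = B)
    {x : ℝ} (h0 : 0 ≤ x) (h1 : x < 1) (j : ℕ) :
    ∃ l : ℤ, 2 ^ (n * j) * TT n α β x = TT n α β (Int.fract (2 ^ j * x)) + l := by
  induction j with
  | zero =>
    refine ⟨0, ?_⟩
    have : Int.fract x = x := Int.fract_eq_self.2 ⟨h0, h1⟩
    simp [this]
  | succ j ih =>
    obtain ⟨l, hl⟩ := ih
    have h2 := TT_step (α := α) (β := β) hn (Int.fract_nonneg (2 ^ j * x))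
      (Int.fract_lt_one (2 ^ j * x))
    rw [fract_two_mul_fract] at h2
    have h3 : ∃ D : ℤ, (2 ^ n - 1) * ee α β ⌊2 * Int.fract (2 ^ j * x)⌋ = D := by
      rcases ee_or α β ⌊2 * Int.fract (2 ^ j * x)⌋ with h | h <;> rw [h]
      · exact ⟨A, hA⟩
      · exact ⟨B, hB⟩
    obtain ⟨D, hD⟩ := h3
    refine ⟨D + 2 ^ n * l, ?_⟩
    have e : (2 : ℝ) ^ (n * (j + 1)) = 2 ^ n * 2 ^ (n * j) := by
      rw [← pow_add]; congr 1; ring
    rw [e, mul_assoc, hl, mul_add, h2, hD]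
    push_cast
    ring

/-- the two words end with different digits -/
lemma Wake.parity (h : Wake n α β) {A B : ℤ} (hA : (2 ^ n - 1) * α = A)
    (hB : (2 ^ n - 1) * β = B) : ∃ l : ℤ, B = A + 1 + 2 * l := by
  obtain ⟨a, b, e1, e2, e3, e4, l, hl⟩ := h.side_int (n - 1)
  have hn : n - 1 + 1 = n := Nat.sub_add_cancel h.pos
  rw [hn] at e1 e2 e3 e4
  have hab := h.lt
  have h0 := h.nonneg
  have h1 := h.le_one
  have f1 : ((a : ℤ) : ℝ) < ((A : ℤ) : ℝ) := by linarith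
  have f2 : ((A : ℤ) : ℝ) ≤ ((a + 1 : ℤ) : ℝ) := by push_cast; linarith
  have f3 : ((b : ℤ) : ℝ) ≤ ((B : ℤ) : ℝ) := by linarith
  have f4 : ((B : ℤ) : ℝ) < ((b + 1 : ℤ) : ℝ) := by push_cast; linarith
  have g1 := cast_lt_of f1
  have g2 := cast_le_of f2
  have g3 := cast_le_of f3
  have g4 := cast_lt_of f4
  exact ⟨l - 1, by omega⟩

lemma SameSide.of_half {θ x y : ℝ} {w : ℤ}
    (hx : ∃ k : ℤ, (θ + w) / 2 + k < x ∧ x < (θ + w) / 2 + k + 1 / 2)
    (hy : ∃ k : ℤ, (θ + w) / 2 + k < y ∧ y < (θ + w) / 2 + k + 1 / 2) : SameSide θ x y := by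
  obtain ⟨j, h1, h2⟩ := hx
  obtain ⟨k, h3, h4⟩ := hy
  exact ⟨w, j, k, h1, h2, h3, h4⟩

lemma half_add_int {θ x : ℝ} {w : ℤ} (l : ℤ)
    (hx : ∃ k : ℤ, (θ + w) / 2 + k < x ∧ x < (θ + w) / 2 + k + 1 / 2) :
    ∃ k : ℤ, (θ + w) / 2 + k < x + l ∧ x + l < (θ + w) / 2 + k + 1 / 2 := by
  obtain ⟨k, h1, h2⟩ := hx
  exact ⟨k + l, by push_cast; linarith, by push_cast; linarith⟩

/-- the wake is short -/
lemma Wake.third (h : Wake m α β) (hm : 2 ≤ m) : 3 * (β - α) ≤ 1 := by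
  have h0 : α ≠ 0 := fun h0 => h.exact 1 one_pos (by omega) ⟨0, by rw [h0]; simp⟩
  have h1 : β ≠ 1 := fun h1 => h.exact' 1 one_pos (by omega) ⟨1, by rw [h1]; norm_num⟩
  have h0' : 0 < α := lt_of_le_of_ne h.nonneg (Ne.symm h0)
  have h1' : β < 1 := lt_of_le_of_ne h.le_one h1
  have h2 := h.avoid 1 0
  have h3 := h.avoid' 1 (-1)
  simp only [pow_one, not_and_or, not_lt] at h2 h3
  push_cast at h2 h3
  have h4 : β ≤ 2 * α := by
    rcases h2 with h2 | h2 <;> linarith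
  have h5 : 2 * β - 1 ≤ α := by
    rcases h3 with h3 | h3 <;> linarith
  linarith

lemma Wake.pos_lt (h : Wake m α β) (hm : 2 ≤ m) : 0 < α ∧ β < 1 := by
  have h0 : α ≠ 0 := fun h0 => h.exact 1 one_pos (by omega) ⟨0, by rw [h0]; simp⟩
  have h1 : β ≠ 1 := fun h1 => h.exact' 1 one_pos (by omega) ⟨1, by rw [h1]; norm_num⟩
  exact ⟨lt_of_le_of_ne h.nonneg (Ne.symm h0), lt_of_le_of_ne h.le_one h1⟩

/-- the period of a tuned angle -/
lemma TT_per (h : Wake n α β) (hn : 2 ≤ n) {x : ℝ} (hx0 : 0 < x) (hx1 : x < 1)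
    (hper : ∃ a : ℤ, (2 ^ m - 1) * x = a) :
    ∃ a : ℤ, (2 ^ (n * m) - 1) * TT n α β x = a := by
  obtain ⟨A, hA⟩ := h.per
  obtain ⟨B, hB⟩ := h.per'
  obtain ⟨l, hl⟩ := TT_iter h.pos hA hB hx0.le hx1 m
  obtain ⟨a, ha⟩ := hper
  have h1 : Int.fract (2 ^ m * x) = x := by
    have h2 : (2 : ℝ) ^ m * x = x + a := by linarith
    rw [h2, Int.fract_add_intCast, Int.fract_eq_self.2 ⟨hx0.le, hx1⟩]
  rw [h1] at hl
  exact ⟨l, by linarith⟩

lemma TT_inside (h : Wake n α β) (hn : 2 ≤ n) {x : ℝ} (hx0 : 0 < x) (hx1 : x < 1) :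
    α < TT n α β x ∧ TT n α β x < β := by
  have hab := h.lt
  constructor
  · exact lt_of_le_of_lt (TT_bounds h.pos hab 0).1 (TT_lt hn hab le_rfl hx0 hx1)
  · exact lt_of_lt_of_le (TT_lt hn hab hx0.le (show x < (x + 1) / 2 by linarith) (by linarith))
      (TT_bounds h.pos hab _).2

lemma TT_exact (h : Wake n α β) (hn : 2 ≤ n) {x : ℝ} (hx0 : 0 < x) (hx1 : x < 1)
    (hex : ∀ d, 0 < d → d < m → ¬ ∃ a : ℤ, (2 ^ d - 1) * x = a) :
    ∀ d, 0 < d → d < n * m → ¬ ∃ a : ℤ, (2 ^ d - 1) * TT n α β x = a := by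
  rintro d hd hdm ⟨a, ha⟩
  obtain ⟨A, hA⟩ := h.per
  obtain ⟨B, hB⟩ := h.per'
  have hab := h.lt
  have hn0 := h.pos
  obtain ⟨i1, i2⟩ := TT_inside h hn hx0 hx1
  obtain ⟨l, hl⟩ := TT_iter h.pos hA hB hx0.le hx1 (d / n)
  set u := Int.fract (2 ^ (d / n) * x) with hu
  have hu0 : 0 ≤ u := Int.fract_nonneg _
  have hu1 : u < 1 := Int.fract_lt_one _
  have hd2 : (2 : ℝ) ^ d = 2 ^ (d % n) * 2 ^ (n * (d / n)) := by
    rw [← pow_add, Nat.mod_add_div]
  have key : 2 ^ (d % n) * TT n α β u + ((2 ^ (d % n) * l - a : ℤ) : ℝ) = TT n α β x := by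
    push_cast
    have h1 : (2 : ℝ) ^ d * TT n α β x = 2 ^ (d % n) * (TT n α β u + l) := by
      rw [hd2, mul_assoc, hl]
    linarith
  rcases Nat.eq_zero_or_pos (d % n) with hr | hr
  · rw [hr] at key
    simp only [pow_zero, one_mul] at key
    obtain ⟨b1, b2⟩ := TT_bounds hn0 hab u
    have h0 := h.nonneg
    have h1 := h.le_one
    have g1 : ((-1 : ℤ) : ℝ) < ((l - a : ℤ) : ℝ) := by push_cast at key ⊢; linarith
    have g2 : ((l - a : ℤ) : ℝ) < ((1 : ℤ) : ℝ) := by push_cast at key ⊢; linarith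
    have g3 := cast_lt_of g1
    have g4 := cast_lt_of g2
    have g5 : l - a = 0 := by omega
    rw [g5, Int.cast_zero, add_zero] at key
    have hux : u = x := by
      rcases lt_trichotomy u x with h2 | h2 | h2
      · have := TT_lt hn hab hu0 h2 hx1
        linarith
      · exact h2
      · have := TT_lt hn hab hx0.le h2 hu1
        linarith
    have hdn : 0 < d / n := by
      rcases Nat.eq_zero_or_pos (d / n) with h2 | h2
      · have := Nat.mod_add_div d n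
        rw [hr, h2] at this
        omega
      · exact h2
    have hdm' : d / n < m := Nat.div_lt_of_lt_mul hdm
    refine hex _ hdn hdm' ⟨⌊2 ^ (d / n) * x⌋, ?_⟩
    have : u = 2 ^ (d / n) * x - ⌊2 ^ (d / n) * x⌋ := rfl
    linarith
  · have hrn := Nat.mod_lt d hn0
    obtain ⟨δ, d1, d2, d3⟩ := TT_near (α := α) (β := β) hn0 hab hu0 hu1
    rcases d3 with ⟨-, d3⟩ | ⟨-, d3⟩
    · refine h.win hr hrn d1 d2 (2 ^ (d % n) * l - a) ?_
      rw [← d3, key]
      exact ⟨i1, i2⟩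
    · refine h.win' hr hrn d1 d2 (2 ^ (d % n) * l - a) ?_
      rw [← d3, key]
      exact ⟨i1, i2⟩

/-- the side of the last letter -/
lemma TT_last (h : Wake n α β) {A B : ℤ} (hA : (2 ^ n - 1) * α = A) (hB : (2 ^ n - 1) * β = B)
    {θ u : ℝ} (hθ1 : α < θ) (hθ2 : θ < β) (hu0 : 0 ≤ u) (hu1 : u < 1)
    (hne : TT n α β (Int.fract (2 * u)) ≠ θ) {z : ℤ}
    (hz : z = A + ⌊2 * u⌋ - (if TT n α β (Int.fract (2 * u)) < θ then 1 else 0)) :
    ∃ k : ℤ, (θ + (z % 2 : ℤ)) / 2 + k < 2 ^ (n - 1) * TT n α β u ∧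
      2 ^ (n - 1) * TT n α β u < (θ + (z % 2 : ℤ)) / 2 + k + 1 / 2 := by
  obtain ⟨l, hl⟩ := h.parity hA hB
  have hab := h.lt
  have hn0 := h.pos
  have h0 := h.nonneg
  have h1 := h.le_one
  obtain ⟨b1, b2⟩ := TT_bounds hn0 hab (Int.fract (2 * u))
  have hst := TT_step (α := α) (β := β) hn0 hu0 hu1
  have hp : (2 : ℝ) * (2 ^ (n - 1) * TT n α β u) = 2 ^ n * TT n α β u := by
    rw [← mul_assoc, ← pow_succ', Nat.sub_add_cancel hn0]
  have hE : ∃ e : ℤ, (2 ^ n - 1) * ee α β ⌊2 * u⌋ = ((A + ⌊2 * u⌋ + 2 * e : ℤ) : ℝ) := by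
    rcases fl_or hu0 hu1 with h2 | h2 <;> rw [h2]
    · refine ⟨0, ?_⟩
      have : ee α β 0 = α := by unfold ee; simp
      rw [this, hA]; push_cast; ring
    · refine ⟨l, ?_⟩
      have : ee α β 1 = β := by unfold ee; simp
      rw [this, hB, hl]
  obtain ⟨e, he⟩ := hE
  rw [he] at hst
  have hw : z % 2 = (z + 2 * e) % 2 := by omega
  refine half_of_index (z := z + 2 * e) hw ?_ ?_
  · rw [hp, hst, hz]
    split_ifs with h3
    · push_cast; linarith
    · push_cast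
      have := lt_of_le_of_ne (not_lt.1 h3) (Ne.symm hne)
      linarith
  · rw [hp, hst, hz]
    split_ifs with h3
    · push_cast; linarith
    · push_cast
      have := lt_of_le_of_ne (not_lt.1 h3) (Ne.symm hne)
      linarith

/-- **tuning of wakes** -/
theorem wake_tun {α' β' : ℝ} (h : Wake n α β) (hn : 2 ≤ n) (h' : Wake m α' β') (hm : 2 ≤ m) :
    Wake (n * m) (TT n α β α') (TT n α β β') := by
  obtain ⟨A, hA⟩ := h.per
  obtain ⟨B, hB⟩ := h.per'
  have hab := h.lt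
  have hn0 := h.pos
  obtain ⟨p1, p2⟩ := h'.pos_lt hm
  have hlt' := h'.lt
  have hα1 : α' < 1 := by linarith
  have hβ0 : 0 < β' := by linarith
  obtain ⟨i1, i2⟩ := TT_inside h hn p1 hα1
  obtain ⟨j1, j2⟩ := TT_inside h hn hβ0 p2
  have hlt := TT_lt hn hab p1.le hlt' p2
  refine ⟨Nat.mul_pos h.pos h'.pos, h.nonneg.trans i1.le, hlt, j2.le.trans h.le_one,
    TT_per h hn p1 hα1 h'.per, TT_per h hn hβ0 p2 h'.per', TT_exact h hn p1 hα1 h'.exact,
    TT_exact h hn hβ0 p2 h'.exact', ?_⟩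
  intro θ h1 h2 i
  have hθ1 : α < θ := by linarith
  have hθ2 : θ < β := by linarith
  obtain ⟨la, hla⟩ := TT_iter h.pos hA hB p1.le hα1 (i / n)
  obtain ⟨lb, hlb⟩ := TT_iter h.pos hA hB hβ0.le p2 (i / n)
  have hi2 : (2 : ℝ) ^ i = 2 ^ (i % n) * 2 ^ (n * (i / n)) := by
    rw [← pow_add, Nat.mod_add_div]
  set u := Int.fract (2 ^ (i / n) * α') with hu
  set v := Int.fract (2 ^ (i / n) * β') with hv
  have hu0 : 0 ≤ u := Int.fract_nonneg _
  have hu1 : u < 1 := Int.fract_lt_one _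
  have hv0 : 0 ≤ v := Int.fract_nonneg _
  have hv1 : v < 1 := Int.fract_lt_one _
  have ea : (2 : ℝ) ^ i * TT n α β α' = 2 ^ (i % n) * TT n α β u + ((2 ^ (i % n) * la : ℤ) : ℝ) := by
    rw [hi2, mul_assoc, hla]; push_cast; ring
  have eb : (2 : ℝ) ^ i * TT n α β β' = 2 ^ (i % n) * TT n α β v + ((2 ^ (i % n) * lb : ℤ) : ℝ) := by
    rw [hi2, mul_assoc, hlb]; push_cast; ring
  rw [ea, eb]
  have hrn := Nat.mod_lt i hn0
  rcases Nat.lt_or_ge (i % n + 1) n with hr | hr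
  · obtain ⟨δ, d1, d2, d3⟩ := TT_near (α := α) (β := β) hn0 hab hu0 hu1
    obtain ⟨δ', d1', d2', d3'⟩ := TT_near (α := α) (β := β) hn0 hab hv0 hv1
    refine SameSide.of_half (w := wL α (i % n)) (half_add_int _ (h.mid hr d1 d2 ?_ hθ1 hθ2))
      (half_add_int _ (h.mid hr d1' d2' ?_ hθ1 hθ2))
    · rcases d3 with ⟨-, d3⟩ | ⟨-, d3⟩
      · exact Or.inl d3
      · exact Or.inr d3
    · rcases d3' with ⟨-, d3'⟩ | ⟨-, d3'⟩
      · exact Or.inl d3'
      · exact Or.inr d3'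
  · have hr' : i % n = n - 1 := by omega
    -- the angle `θ'`
    set θ' : ℝ := (α' + β') / 2 with hθ'
    have t1 : α' < θ' := by linarith
    have t2 : θ' < β' := by linarith
    set u' := Int.fract (2 * u) with hu'
    set v' := Int.fract (2 * v) with hv'
    have hu'e : u' = Int.fract (2 ^ (i / n + 1) * α') := fract_two_mul_fract _ _
    have hv'e : v' = Int.fract (2 ^ (i / n + 1) * β') := fract_two_mul_fract _ _
    have hu'0 : 0 ≤ u' := Int.fract_nonneg _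
    have hu'1 : u' < 1 := Int.fract_lt_one _
    have hv'0 : 0 ≤ v' := Int.fract_nonneg _
    have hv'1 : v' < 1 := Int.fract_lt_one _
    have av : u' ≤ α' ∨ β' ≤ u' := by
      by_contra hcon
      push Not at hcon
      refine h'.avoid (i / n + 1) (-⌊2 ^ (i / n + 1) * α'⌋) ?_
      rw [hu'e] at hcon
      unfold Int.fract at hcon
      push_cast
      exact ⟨by linarith [hcon.1], by linarith [hcon.2]⟩
    have av' : v' ≤ α' ∨ β' ≤ v' := by
      by_contra hcon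
      push Not at hcon
      refine h'.avoid' (i / n + 1) (-⌊2 ^ (i / n + 1) * β'⌋) ?_
      rw [hv'e] at hcon
      unfold Int.fract at hcon
      push_cast
      exact ⟨by linarith [hcon.1], by linarith [hcon.2]⟩
    have cu : (u' < θ' ∧ TT n α β u' < θ) ∨ (θ' < u' ∧ θ < TT n α β u') := by
      rcases av with h3 | h3
      · exact Or.inl ⟨by linarith, lt_of_le_of_lt (TT_le hn hab hu'0 h3 hα1) h1⟩
      · exact Or.inr ⟨by linarith, lt_of_lt_of_le h2 (TT_le hn hab hβ0.le h3 hu'1)⟩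
    have cv : (v' < θ' ∧ TT n α β v' < θ) ∨ (θ' < v' ∧ θ < TT n α β v') := by
      rcases av' with h3 | h3
      · exact Or.inl ⟨by linarith, lt_of_le_of_lt (TT_le hn hab hv'0 h3 hα1) h1⟩
      · exact Or.inr ⟨by linarith, lt_of_lt_of_le h2 (TT_le hn hab hβ0.le h3 hv'1)⟩
    obtain ⟨w, j, k, s1, s2, s3, s4⟩ := h'.side θ' t1 t2 (i / n)
    have fu : (⌊2 * u⌋ : ℝ) + u' = 2 * u := Int.floor_add_fract _
    have fv : (⌊2 * v⌋ : ℝ) + v' = 2 * v := Int.floor_add_fract _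
    have gu : (⌊2 ^ (i / n) * α'⌋ : ℝ) + u = 2 ^ (i / n) * α' := Int.floor_add_fract _
    have gv : (⌊2 ^ (i / n) * β'⌋ : ℝ) + v = 2 ^ (i / n) * β' := Int.floor_add_fract _
    set fa := ⌊(2 : ℝ) ^ (i / n) * α'⌋ with hfa
    set fb := ⌊(2 : ℝ) ^ (i / n) * β'⌋ with hfb
    -- parity
    have hpar : ∃ e : ℤ, (⌊2 * u⌋ - (if TT n α β u' < θ then 1 else 0)) =
        (⌊2 * v⌋ - (if TT n α β v' < θ then 1 else 0)) + 2 * e := by
      have qa : ⌊2 * u⌋ - (if TT n α β u' < θ then 1 else 0) = w + 2 * j - 2 * fa := by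
        rcases cu with ⟨c1, c2⟩ | ⟨c1, c2⟩
        · rw [if_pos c2]
          have g1 : ((w + 2 * j - 2 * fa : ℤ) : ℝ) < ((⌊2 * u⌋ : ℤ) : ℝ) := by
            push_cast; linarith
          have g2 : ((⌊2 * u⌋ : ℤ) : ℝ) < ((w + 2 * j - 2 * fa + 2 : ℤ) : ℝ) := by
            push_cast; linarith
          have g3 := cast_lt_of g1
          have g4 := cast_lt_of g2
          omega
        · rw [if_neg (not_lt.2 c2.le)]
          have g1 : ((w + 2 * j - 2 * fa - 1 : ℤ) : ℝ) < ((⌊2 * u⌋ : ℤ) : ℝ) := by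
            push_cast; linarith
          have g2 : ((⌊2 * u⌋ : ℤ) : ℝ) < ((w + 2 * j - 2 * fa + 1 : ℤ) : ℝ) := by
            push_cast; linarith
          have g3 := cast_lt_of g1
          have g4 := cast_lt_of g2
          omega
      have qb : ⌊2 * v⌋ - (if TT n α β v' < θ then 1 else 0) = w + 2 * k - 2 * fb := by
        rcases cv with ⟨c1, c2⟩ | ⟨c1, c2⟩
        · rw [if_pos c2]
          have g1 : ((w + 2 * k - 2 * fb : ℤ) : ℝ) < ((⌊2 * v⌋ : ℤ) : ℝ) := by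
            push_cast; linarith
          have g2 : ((⌊2 * v⌋ : ℤ) : ℝ) < ((w + 2 * k - 2 * fb + 2 : ℤ) : ℝ) := by
            push_cast; linarith
          have g3 := cast_lt_of g1
          have g4 := cast_lt_of g2
          omega
        · rw [if_neg (not_lt.2 c2.le)]
          have g1 : ((w + 2 * k - 2 * fb - 1 : ℤ) : ℝ) < ((⌊2 * v⌋ : ℤ) : ℝ) := by
            push_cast; linarith
          have g2 : ((⌊2 * v⌋ : ℤ) : ℝ) < ((w + 2 * k - 2 * fb + 1 : ℤ) : ℝ) := by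
            push_cast; linarith
          have g3 := cast_lt_of g1
          have g4 := cast_lt_of g2
          omega
      exact ⟨j - fa - k + fb, by rw [qa, qb]; ring⟩
    obtain ⟨e, he⟩ := hpar
    have hu3 := TT_last h hA hB hθ1 hθ2 hu0 hu1 (fun hc => by
      rcases cu with ⟨-, c2⟩ | ⟨-, c2⟩
      · exact absurd hc c2.ne
      · exact absurd hc c2.ne') rfl
    have hv3 := TT_last h hA hB hθ1 hθ2 hv0 hv1 (fun hc => by
      rcases cv with ⟨-, c2⟩ | ⟨-, c2⟩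
      · exact absurd hc c2.ne
      · exact absurd hc c2.ne') rfl
    have hww : (A + ⌊2 * u⌋ - (if TT n α β (Int.fract (2 * u)) < θ then 1 else 0)) % 2 =
        (A + ⌊2 * v⌋ - (if TT n α β (Int.fract (2 * v)) < θ then 1 else 0)) % 2 := by
      have he' : (⌊2 * u⌋ - (if TT n α β (Int.fract (2 * u)) < θ then 1 else 0)) =
        (⌊2 * v⌋ - (if TT n α β (Int.fract (2 * v)) < θ then 1 else 0)) + 2 * e := he
      omega
    rw [hr']
    refine SameSide.of_half (half_add_int _ hu3) (half_add_int _ ?_)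
    rw [hww]
    exact hv3

end Pool.Agent.Work.MLC.Shp
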