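import Mathlib

set_option autoImplicit false

/-! # Mass distribution for the gauges `(1 / log (1 / t)) ^ s` (helper70)

`not_nullS_range`: the image of the space of sequences in `Fin K` under a map which separates
sequences that differ before the time `k` by at least `2 ^ (-4 m ^ k)` is not a null set, if
`(4 m) ^ s ≤ K`. `not_nullS_intervals`: the same for nested intervals. -/

namespace Pool.Agent.Work.MLC.Uni

open Set Filter Topology

/-- zero measure for the gauge `(1 / log (1 / t)) ^ s` -/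
def NullS (s : ℕ) (E : Set ℝ) : Prop := ∀ ε > 0, ∃ a l : ℕ → ℝ, (∀ i, 0 < l i ∧ l i < 1) ∧
  E ⊆ (⋃ i, Icc (a i) (a i + l i)) ∧ Summable (fun i => (1 / Real.log (1 / l i)) ^ s) ∧
  ∑' i, (1 / Real.log (1 / l i)) ^ s < ε

theorem NullS.mono {s : ℕ} {E E' : Set ℝ} (h : E ⊆ E') (hE : NullS s E') : NullS s E := by
  intro ε hε
  obtain ⟨a, l, h1, h2, h3, h4⟩ := hE ε hε
  exact ⟨a, l, h1, h.trans h2, h3, h4⟩

namespace B70

/-- a map which contracts is continuous -/
theorem cont {K : ℕ} {φ : (ℕ → Fin K) → ℝ}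
    (h1 : ∀ k ω ω', (∀ i < k, ω i = ω' i) → |φ ω - φ ω'| ≤ (1 / 2) ^ k) : Continuous φ := by
  rw [continuous_iff_continuousAt]
  intro ω
  rw [ContinuousAt, Metric.tendsto_nhds]
  intro ε hε
  obtain ⟨k, hk⟩ := exists_pow_lt_of_lt_one hε (by norm_num : (1 / 2 : ℝ) < 1)
  have h2 : ∀ᶠ ω' in 𝓝 ω, ∀ i ∈ Finset.range k, ω' i = ω i := by
    rw [Filter.eventually_all_finset]
    intro i _
    have h3 : Tendsto (fun ω' : ℕ → Fin K => ω' i) (𝓝 ω) (𝓝 (ω i)) :=
      (continuous_apply i).tendsto ω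
    exact h3.eventually ((isOpen_discrete {ω i}).mem_nhds rfl)
  filter_upwards [h2] with ω' hω'
  rw [Real.dist_eq]
  exact (h1 k ω' ω fun i hi => hω' i (Finset.mem_range.2 hi)).trans_lt hk

/-- the number of words of length `k` which agree up to the time `j` -/
theorem card_agree {K k j : ℕ} (hj : j ≤ k) (S : Finset (Fin k → Fin K))
    (hS : ∀ w ∈ S, ∀ w' ∈ S, ∀ i : Fin k, (i : ℕ) < j → w i = w' i) : S.card ≤ K ^ (k - j) := by
  have h1 : S.card ≤ (Finset.univ : Finset (Fin (k - j) → Fin K)).card := by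
    refine Finset.card_le_card_of_injOn
      (fun w i => w ⟨j + i, by have := i.2; omega⟩) (fun _ _ => Finset.mem_univ _) ?_
    intro w hw w' hw' he
    funext i
    rcases lt_or_ge (i : ℕ) j with h | h
    · exact hS w hw w' hw' i h
    · have h2 := congrFun he ⟨(i : ℕ) - j, by have := i.2; omega⟩
      simp only at h2
      have h3 : (⟨j + ((i : ℕ) - j), by have := i.2; omega⟩ : Fin k) = i := by
        apply Fin.ext
        simp only
        omega
      rw [h3] at h2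
      exact h2
  rwa [Finset.card_univ, Fintype.card_fun, Fintype.card_fin, Fintype.card_fin] at h1

/-- choice of the level of a short interval -/
theorem level {m K s : ℕ} (hm : 2 ≤ m) (hK : (4 * m) ^ s ≤ K) (hs : 1 ≤ s) {l : ℝ} (hl : 0 < l)
    (hl1 : l < 1) (hg : (1 / Real.log (1 / l)) ^ s ≤ (1 / (400 * m)) ^ s) :
    ∃ k : ℕ, 3 * l ≤ (1 / 2) ^ (4 * m ^ k) ∧
      (1 / (K : ℝ)) ^ k ≤ (4 * m) ^ s * (1 / Real.log (1 / l)) ^ s := by
  have hm0 : (2 : ℝ) ≤ m := by exact_mod_cast hm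
  have hlog : 0 < Real.log (1 / l) := Real.log_pos (by rw [lt_div_iff₀ hl]; linarith)
  have hg' : 1 / Real.log (1 / l) ≤ 1 / (400 * m) :=
    le_of_pow_le_pow_left₀ (by omega) (by positivity) hg
  have hbig : 400 * (m : ℝ) ≤ Real.log (1 / l) := by
    rwa [one_div_le_one_div hlog (by positivity)] at hg'
  have h800 : (800 : ℝ) ≤ Real.log (1 / l) := by linarith
  have hlog2 := Real.log_two_lt_d9
  have hlog2' := Real.log_two_gt_d9
  have hlog3 : Real.log 3 ≤ 2 := by
    have := Real.log_le_sub_one_of_pos (show (0 : ℝ) < 3 by norm_num)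
    linarith
  have hlogl : Real.log (1 / l) = -Real.log l := by rw [one_div, Real.log_inv]
  -- comparison of `3 l` and powers of `1 / 2`
  have hcmp : ∀ n : ℕ, (n : ℝ) * Real.log 2 ≤ Real.log (1 / l) - 2 → 3 * l ≤ (1 / 2) ^ n := by
    intro n hn
    have h1 : Real.log (3 * l) ≤ Real.log ((1 / 2) ^ n) := by
      rw [Real.log_mul (by norm_num) hl.ne', Real.log_pow, one_div, Real.log_inv]
      rw [hlogl] at hn
      nlinarith
    exact (Real.log_le_log_iff (by positivity) (by positivity)).1 h1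
  -- the set of levels is bounded
  have hex : ∃ k : ℕ, (1 / 2 : ℝ) ^ (4 * m ^ (k + 1)) < 3 * l := by
    obtain ⟨n, hn⟩ := exists_pow_lt_of_lt_one (show 0 < 3 * l by positivity)
      (by norm_num : (1 / 2 : ℝ) < 1)
    refine ⟨n, lt_of_le_of_lt ?_ hn⟩
    refine pow_le_pow_of_le_one (by norm_num) (by norm_num) ?_
    have h2 : n < 2 ^ n := Nat.lt_two_pow_self
    calc n ≤ 2 ^ n := h2.le
      _ ≤ m ^ n := Nat.pow_le_pow_left hm n
      _ ≤ m ^ (n + 1) := Nat.pow_le_pow_right (by omega) (by omega)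
      _ ≤ 4 * m ^ (n + 1) := by omega
  classical
  obtain ⟨k, hk⟩ : ∃ k, k = Nat.find hex := ⟨_, rfl⟩
  have hk1 : (1 / 2 : ℝ) ^ (4 * m ^ (k + 1)) < 3 * l := by rw [hk]; exact Nat.find_spec hex
  refine ⟨k, ?_, ?_⟩
  · rcases Nat.eq_zero_or_pos k with h | h
    · rw [h]
      apply hcmp
      push_cast
      linarith
    · have h2 := Nat.find_min hex (m := k - 1) (by omega)
      rw [show k - 1 + 1 = k by omega] at h2
      exact not_lt.1 h2
  · -- the logarithm is at most `4 m ^ (k + 1)`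
    have hup : Real.log (1 / l) ≤ 4 * (m : ℝ) ^ (k + 1) := by
      by_contra hcon
      push Not at hcon
      have h2 : 3 * l ≤ (1 / 2) ^ (4 * m ^ (k + 1)) := by
        apply hcmp
        push_cast
        nlinarith
      linarith
    have hKR : ((4 : ℝ) * m) ^ s ≤ K := by exact_mod_cast hK
    have h4 : (1 : ℝ) / (4 * (m : ℝ) ^ (k + 1)) ≤ 1 / Real.log (1 / l) :=
      one_div_le_one_div_of_le hlog hup
    have h5 : ((1 : ℝ) / (4 * (m : ℝ) ^ (k + 1))) ^ s ≤ (1 / Real.log (1 / l)) ^ s :=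
      pow_le_pow_left₀ (by positivity) h4 s
    have h6 : ((m : ℝ) ^ s) ≤ K := by
      refine le_trans ?_ hKR
      exact pow_le_pow_left₀ (by positivity) (by linarith) s
    have hK0 : (0 : ℝ) < K := lt_of_lt_of_le (by positivity) h6
    have h7 : (1 / (K : ℝ)) ^ k ≤ (1 / (m : ℝ) ^ s) ^ k :=
      pow_le_pow_left₀ (by positivity) (one_div_le_one_div_of_le (by positivity) h6) k
    calc (1 / (K : ℝ)) ^ k ≤ (1 / (m : ℝ) ^ s) ^ k := h7
      _ = (4 * (m : ℝ)) ^ s * (1 / (4 * (m : ℝ) ^ (k + 1))) ^ s := by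
          rw [← mul_pow, div_pow, one_pow, ← pow_mul, mul_comm s k, pow_mul, pow_succ]
          rw [show 4 * (m : ℝ) * (1 / (4 * ((m : ℝ) ^ k * m))) = 1 / (m : ℝ) ^ k by
            field_simp]
          rw [div_pow, one_pow]
      _ ≤ (4 * (m : ℝ)) ^ s * (1 / Real.log (1 / l)) ^ s :=
          mul_le_mul_of_nonneg_left h5 (by positivity)

end B70

/-- mass distribution -/
theorem not_nullS_range {K m s : ℕ} (hm : 2 ≤ m) (hK : (4 * m) ^ s ≤ K) {φ : (ℕ → Fin K) → ℝ}
    (h1 : ∀ k ω ω', (∀ i < k, ω i = ω' i) → |φ ω - φ ω'| ≤ (1 / 2) ^ k)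
    (h2 : ∀ k ω ω', (∃ i < k, ω i ≠ ω' i) → (1 / 2) ^ (4 * m ^ k) ≤ |φ ω - φ ω'|) :
    ¬ NullS s (range φ) := by
  intro hN
  have hm0 : (2 : ℝ) ≤ m := by exact_mod_cast hm
  have hK1 : 1 ≤ K := le_trans (Nat.one_le_pow _ _ (by omega)) hK
  rcases Nat.eq_zero_or_pos s with rfl | hs
  · obtain ⟨a, l, -, -, h3, -⟩ := hN 1 one_pos
    simp only [pow_zero] at h3
    have h4 : Tendsto (fun _ : ℕ => (1 : ℝ)) atTop (nhds 1) := tendsto_const_nhds
    exact one_ne_zero (tendsto_nhds_unique h4 h3.tendsto_atTop_zero)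
  obtain ⟨a, l, hl, hcov, hsum, hlt⟩ := hN ((1 / (400 * m)) ^ s) (by positivity)
  have hlog : ∀ i, 0 < Real.log (1 / l i) := fun i =>
    Real.log_pos (by rw [lt_div_iff₀ (hl i).1]; linarith [(hl i).2])
  have hg0 : ∀ i, 0 ≤ (1 / Real.log (1 / l i)) ^ s := fun i => by
    have := hlog i
    positivity
  have hgi : ∀ i, (1 / Real.log (1 / l i)) ^ s ≤ (1 / (400 * m)) ^ s := fun i =>
    (hsum.le_tsum i fun j _ => hg0 j).trans hlt.le
  choose k hk1 hk2 using fun i => B70.level hm hK hs (hl i).1 (hl i).2 (hgi i)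
  have hc := B70.cont h1
  have hcomp : IsCompact (range φ) := isCompact_range hc
  obtain ⟨F, hF⟩ := hcomp.elim_finite_subcover (fun i => Ioo (a i - l i) (a i + 2 * l i))
    (fun i => isOpen_Ioo) (by
      refine hcov.trans (iUnion_mono fun i x hx => ?_)
      have := (hl i).1
      exact ⟨by linarith [hx.1], by linarith [hx.2]⟩)
  obtain ⟨n, hn⟩ : ∃ n : ℕ, ∀ i ∈ F, k i ≤ n := ⟨F.sup k, fun i hi => Finset.le_sup hi⟩
  -- words of length `n`
  have hex : ∀ w : Fin n → Fin K, ∃ i ∈ F,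
      φ (fun j => if h : j < n then w ⟨j, h⟩ else ⟨0, hK1⟩) ∈
        Ioo (a i - l i) (a i + 2 * l i) := by
    intro w
    have := hF (mem_range_self (fun j => if h : j < n then w ⟨j, h⟩ else ⟨0, hK1⟩))
    rw [mem_iUnion₂] at this
    obtain ⟨i, hi, h⟩ := this
    exact ⟨i, hi, h⟩
  choose I hIF hI using hex
  classical
  have hcount : ∀ i ∈ F, ((Finset.univ : Finset (Fin n → Fin K)).filter fun w => I w = i).card ≤
      K ^ (n - k i) := by
    intro i hi
    refine B70.card_agree (hn i hi) _ ?_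
    intro w hw w' hw' j hj
    rw [Finset.mem_filter] at hw hw'
    by_contra hne
    have h3 := h2 (k i) (fun j => if h : j < n then w ⟨j, h⟩ else ⟨0, hK1⟩)
      (fun j => if h : j < n then w' ⟨j, h⟩ else ⟨0, hK1⟩)
      ⟨j, hj, by simpa [j.2] using hne⟩
    have h4 := hI w
    have h5 := hI w'
    rw [hw.2] at h4
    rw [hw'.2] at h5
    have h6 := hk1 i
    have h7 : |φ (fun j => if h : j < n then w ⟨j, h⟩ else ⟨0, hK1⟩) -
        φ (fun j => if h : j < n then w' ⟨j, h⟩ else ⟨0, hK1⟩)| < 3 * l i := by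
      rw [abs_lt]
      constructor
      · linarith [h4.1, h5.2]
      · linarith [h4.2, h5.1]
    linarith
  have htot : K ^ n ≤ ∑ i ∈ F, K ^ (n - k i) := by
    have h3 : (Finset.univ : Finset (Fin n → Fin K)).card = K ^ n := by
      rw [Finset.card_univ, Fintype.card_fun, Fintype.card_fin, Fintype.card_fin]
    rw [← h3, Finset.card_eq_sum_card_fiberwise (f := I) (t := F) fun w _ => hIF w]
    exact Finset.sum_le_sum hcount
  have hK0 : (0 : ℝ) < K := by exact_mod_cast hK1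
  have htot' : (K : ℝ) ^ n ≤ K ^ n * ∑ i ∈ F, (1 / (K : ℝ)) ^ k i := by
    have h3 : ((K ^ n : ℕ) : ℝ) ≤ ((∑ i ∈ F, K ^ (n - k i) : ℕ) : ℝ) := by exact_mod_cast htot
    push_cast at h3
    refine h3.trans (le_of_eq ?_)
    rw [Finset.mul_sum]
    refine Finset.sum_congr rfl fun i hi => ?_
    have h4 := hn i hi
    rw [one_div, inv_pow, ← div_eq_mul_inv, eq_div_iff (by positivity), ← pow_add,
      Nat.sub_add_cancel h4]
  have hone : 1 ≤ ∑ i ∈ F, (1 / (K : ℝ)) ^ k i := by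
    have h3 : (0 : ℝ) < (K : ℝ) ^ n := by positivity
    by_contra hcon
    push Not at hcon
    nlinarith
  have hfin : ∑ i ∈ F, (1 / (K : ℝ)) ^ k i ≤ (4 * (m : ℝ)) ^ s * (1 / (400 * m)) ^ s := by
    calc ∑ i ∈ F, (1 / (K : ℝ)) ^ k i
        ≤ ∑ i ∈ F, (4 * (m : ℝ)) ^ s * (1 / Real.log (1 / l i)) ^ s :=
          Finset.sum_le_sum fun i _ => hk2 i
      _ = (4 * (m : ℝ)) ^ s * ∑ i ∈ F, (1 / Real.log (1 / l i)) ^ s := by rw [Finset.mul_sum]
      _ ≤ (4 * (m : ℝ)) ^ s * (1 / (400 * m)) ^ s := by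
          refine mul_le_mul_of_nonneg_left ?_ (by positivity)
          exact (hsum.sum_le_tsum F fun i _ => hg0 i).trans hlt.le
  have hlast : (4 * (m : ℝ)) ^ s * (1 / (400 * m)) ^ s < 1 := by
    rw [← mul_pow]
    refine pow_lt_one₀ (by positivity) ?_ (by omega)
    rw [mul_one_div, div_lt_one (by positivity)]
    linarith
  linarith

/-- mass distribution for nested intervals -/
theorem not_nullS_intervals {K m s : ℕ} (hm : 2 ≤ m) (hK : (4 * m) ^ s ≤ K)
    {A B : ℕ → (ℕ → Fin K) → ℝ} (hAB : ∀ k ω, A k ω ≤ B k ω)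
    (hA : ∀ k ω, A k ω ≤ A (k + 1) ω) (hB : ∀ k ω, B (k + 1) ω ≤ B k ω)
    (hdep : ∀ k ω ω', (∀ i < k, ω i = ω' i) → A k ω = A k ω' ∧ B k ω = B k ω')
    (hlen : ∀ k ω, B k ω - A k ω ≤ (1 / 2) ^ k)
    (hsep : ∀ k ω ω', (∃ i < k, ω i ≠ ω' i) → B k ω + (1 / 2) ^ (4 * m ^ k) ≤ A k ω' ∨
      B k ω' + (1 / 2) ^ (4 * m ^ k) ≤ A k ω) :
    ¬ NullS s {x | ∃ ω, ∀ k, A k ω ≤ x ∧ x ≤ B k ω} := by
  have hAm : ∀ ω, Monotone fun k => A k ω := fun ω => monotone_nat_of_le_succ fun k => hA k ω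
  have hBm : ∀ ω, Antitone fun k => B k ω := fun ω => antitone_nat_of_succ_le fun k => hB k ω
  have hle : ∀ ω j k, A j ω ≤ B k ω := fun ω j k =>
    (hAm ω (le_max_left j k)).trans ((hAB _ ω).trans (hBm ω (le_max_right j k)))
  obtain ⟨φ, hφ⟩ : ∃ φ : (ℕ → Fin K) → ℝ, φ = fun ω => ⨆ k, A k ω := ⟨_, rfl⟩
  have hbdd : ∀ ω, BddAbove (range fun k => A k ω) := fun ω =>
    ⟨B 0 ω, by rintro _ ⟨j, rfl⟩; exact hle ω j 0⟩
  have hin : ∀ ω k, A k ω ≤ φ ω ∧ φ ω ≤ B k ω := by
    intro ω k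
    rw [hφ]
    exact ⟨le_ciSup (hbdd ω) k, ciSup_le fun j => hle ω j k⟩
  intro hN
  refine not_nullS_range (φ := φ) hm hK ?_ ?_ (hN.mono ?_)
  · intro k ω ω' h
    obtain ⟨e1, e2⟩ := hdep k ω ω' h
    have h3 := hin ω k
    have h4 := hin ω' k
    have h5 := hlen k ω
    rw [← e1, ← e2] at h4
    rw [abs_le]
    constructor <;> linarith [h3.1, h3.2, h4.1, h4.2]
  · intro k ω ω' h
    have h3 := hin ω k
    have h4 := hin ω' k
    rcases hsep k ω ω' h with h5 | h5
    · rw [abs_sub_comm]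
      exact le_trans (by linarith [h3.2, h4.1]) (le_abs_self _)
    · exact le_trans (by linarith [h3.1, h4.2]) (le_abs_self _)
  · rintro _ ⟨ω, rfl⟩
    exact ⟨ω, hin ω⟩

/-- mass distribution, form with the first difference and any finite alphabet -/
theorem not_null_tree (s m : ℕ) (hm : 2 ≤ m) {S : Type} [Fintype S]
    (hK : (4 * m) ^ s ≤ Fintype.card S) (th : (ℕ → S) → ℝ)
    (hclose : ∀ w w' k, (∀ j < k, w j = w' j) → |th w - th w'| ≤ (1 / 2) ^ (m ^ k))
    (hsep : ∀ w w' k, (∀ j < k, w j = w' j) → w k ≠ w' k →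
      (1 / 2) ^ (4 * m ^ (k + 1)) ≤ |th w - th w'|) :
    ¬ NullS s (range th) := by
  classical
  let e : S ≃ Fin (Fintype.card S) := Fintype.equivFin S
  have hr : range th = range (fun ω : ℕ → Fin (Fintype.card S) => th fun i => e.symm (ω i)) := by
    ext x
    constructor
    · rintro ⟨w, rfl⟩
      exact ⟨fun i => e (w i), by simp⟩
    · rintro ⟨ω, rfl⟩
      exact ⟨fun i => e.symm (ω i), rfl⟩
  rw [hr]
  refine not_nullS_range hm hK ?_ ?_
  · intro k ω ω' h
    refine (hclose _ _ k fun j hj => by rw [h j hj]).trans ?_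
    exact pow_le_pow_of_le_one (by norm_num) (by norm_num) (Nat.lt_pow_self (by omega)).le
  · intro k ω ω' h
    obtain ⟨i, hi, hne⟩ := h
    have hex : ∃ j, ω j ≠ ω' j := ⟨i, hne⟩
    have hlt : Nat.find hex < k := lt_of_le_of_lt (Nat.find_min' hex hne) hi
    refine le_trans ?_ (hsep _ _ (Nat.find hex) (fun j hj => ?_) ?_)
    · refine pow_le_pow_of_le_one (by norm_num) (by norm_num) ?_
      exact Nat.mul_le_mul_left _ (Nat.pow_le_pow_right (by omega) hlt)
    · have := Nat.find_min hex hj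
      rw [not_not] at this
      rw [this]
    · intro h'
      exact Nat.find_spec hex (e.symm.injective h')

end Pool.Agent.Work.MLC.Uni
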