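import Pool.Agent.Work.MLC.UniB6
import Pool.Agent.Work.MLC.UniB70

set_option autoImplicit false

/-! # The infinitely renormalizable angles are not a null set for any power of the gauge (helper6) -/

namespace Pool.Agent.Work.MLC.Uni

open Filter Topology Set
open Pool.Agent.Work.MLC Pool.Agent.Work.MLC.Shp

variable {S : Type} {m : ℕ} {a b : S → ℝ}

/-- the composed wakes -/
noncomputable def st (m : ℕ) (a b : S → ℝ) (w : ℕ → S) : ℕ → ℕ × ℝ × ℝ
  | 0 => (m, a (w 0), b (w 0))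
  | k + 1 => ((st m a b w k).1 * m,
      TT (st m a b w k).1 (st m a b w k).2.1 (st m a b w k).2.2 (a (w (k + 1))),
      TT (st m a b w k).1 (st m a b w k).2.1 (st m a b w k).2.2 (b (w (k + 1))))

lemma st_n (w : ℕ → S) (k : ℕ) : (st m a b w k).1 = m ^ (k + 1) := by
  induction k with
  | zero => simp [st]
  | succ k ih => rw [pow_succ, ← ih]; rfl

lemma st_wake (hm : 2 ≤ m) (hW : ∀ s, Wake m (a s) (b s)) (w : ℕ → S) (k : ℕ) :
    Wake (st m a b w k).1 (st m a b w k).2.1 (st m a b w k).2.2 := by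
  induction k with
  | zero => exact hW _
  | succ k ih =>
    refine wake_tun ih ?_ (hW _) hm
    rw [st_n]
    calc 2 ≤ m := hm
      _ = m ^ 1 := (pow_one m).symm
      _ ≤ m ^ (k + 1) := Nat.pow_le_pow_right (by omega) (by omega)

lemma two_le_pow (hm : 2 ≤ m) (k : ℕ) : 2 ≤ m ^ (k + 1) := by
  calc 2 ≤ m := hm
    _ = m ^ 1 := (pow_one m).symm
    _ ≤ m ^ (k + 1) := Nat.pow_le_pow_right (by omega) (by omega)

/-- the left ends -/
lemma st_step (hm : 2 ≤ m) (hW : ∀ s, Wake m (a s) (b s)) (hh : ∀ s, a s < 1 / 2) (w : ℕ → S)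
    (k : ℕ) : (st m a b w k).2.1 ≤ (st m a b w (k + 1)).2.1 ∧
    (st m a b w (k + 1)).2.1 ≤ (st m a b w k).2.1 + 1 / 3 * (1 / 2) ^ (m ^ (k + 1)) := by
  have hw := st_wake hm hW w k
  have hn : 2 ≤ (st m a b w k).1 := by rw [st_n]; exact two_le_pow hm k
  have h0 := ((hW (w (k + 1))).pos_lt hm).1
  have h1 := hh (w (k + 1))
  obtain ⟨δ, d1, d2, d3⟩ := TT_near (n := (st m a b w k).1) hw.pos hw.lt h0.le
    (show a (w (k + 1)) < 1 by linarith)
  have hfl : ⌊2 * a (w (k + 1))⌋ = 0 := by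
    rw [Int.floor_eq_iff]; constructor <;> push_cast <;> linarith
  have h3 := hw.third hn
  rcases d3 with ⟨-, d3⟩ | ⟨d4, -⟩
  · have e : (st m a b w (k + 1)).2.1 = (st m a b w k).2.1 + δ := d3
    rw [e]
    refine ⟨by linarith, ?_⟩
    have hp : (0 : ℝ) < 2 ^ (m ^ (k + 1)) := by positivity
    have h4 : δ * 2 ^ (m ^ (k + 1)) ≤ 1 / 3 := by
      rw [st_n] at d2
      linarith
    have h5 : (1 / 2 : ℝ) ^ (m ^ (k + 1)) = 1 / 2 ^ (m ^ (k + 1)) := by rw [div_pow, one_pow]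
    rw [h5, mul_one_div]
    have : δ ≤ 1 / 3 / 2 ^ (m ^ (k + 1)) := by rw [le_div_iff₀ hp]; exact h4
    linarith
  · rw [hfl] at d4
    exact absurd d4 (by norm_num)

lemma st_mono (hm : 2 ≤ m) (hW : ∀ s, Wake m (a s) (b s)) (hh : ∀ s, a s < 1 / 2) (w : ℕ → S) :
    Monotone fun k => (st m a b w k).2.1 :=
  monotone_nat_of_le_succ fun k => (st_step hm hW hh w k).1

lemma st_up (hm : 2 ≤ m) (hW : ∀ s, Wake m (a s) (b s)) (hh : ∀ s, a s < 1 / 2) (w : ℕ → S)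
    (j : ℕ) : ∀ k, (st m a b w (k + j)).2.1 ≤
      (st m a b w k).2.1 + 4 / 9 * (1 / 2) ^ (m ^ (k + 1)) := by
  induction j with
  | zero => intro k; rw [add_zero]; linarith [show (0 : ℝ) < (1 / 2) ^ (m ^ (k + 1)) by positivity]
  | succ j ih =>
    intro k
    have h1 := ih (k + 1)
    have h2 := (st_step hm hW hh w k).2
    have e : k + 1 + j = k + (j + 1) := by ring
    rw [e] at h1
    have h3 : (1 / 2 : ℝ) ^ (m ^ (k + 1 + 1)) ≤ 1 / 4 * (1 / 2) ^ (m ^ (k + 1)) := by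
      have h4 : 2 + m ^ (k + 1) ≤ m ^ (k + 1 + 1) := by
        have h5 := two_le_pow hm k
        rw [pow_succ m (k + 1)]
        nlinarith
      calc (1 / 2 : ℝ) ^ (m ^ (k + 1 + 1)) ≤ (1 / 2) ^ (2 + m ^ (k + 1)) :=
            pow_le_pow_of_le_one (by norm_num) (by norm_num) h4
        _ = 1 / 4 * (1 / 2) ^ (m ^ (k + 1)) := by rw [pow_add]; norm_num
    linarith

/-- the limit -/
noncomputable def th (m : ℕ) (a b : S → ℝ) (w : ℕ → S) : ℝ := ⨆ k, (st m a b w k).2.1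

lemma bdd_st (hm : 2 ≤ m) (hW : ∀ s, Wake m (a s) (b s)) (w : ℕ → S) :
    BddAbove (range fun k => (st m a b w k).2.1) := by
  refine ⟨1, ?_⟩
  rintro _ ⟨k, rfl⟩
  have := st_wake hm hW w k
  exact this.lt.le.trans this.le_one

lemma tendsto_th (hm : 2 ≤ m) (hW : ∀ s, Wake m (a s) (b s)) (hh : ∀ s, a s < 1 / 2) (w : ℕ → S) :
    Tendsto (fun k => (st m a b w k).2.1) atTop (𝓝 (th m a b w)) :=
  tendsto_atTop_ciSup (st_mono hm hW hh w) (bdd_st hm hW w)

lemma th_bounds (hm : 2 ≤ m) (hW : ∀ s, Wake m (a s) (b s)) (hh : ∀ s, a s < 1 / 2) (w : ℕ → S)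
    (k : ℕ) : (st m a b w k).2.1 ≤ th m a b w ∧
    th m a b w ≤ (st m a b w k).2.1 + 4 / 9 * (1 / 2) ^ (m ^ (k + 1)) := by
  have ht := tendsto_th hm hW hh w
  constructor
  · exact ge_of_tendsto ht (eventually_atTop.2 ⟨k, fun j hj => st_mono hm hW hh w hj⟩)
  · refine le_of_tendsto ht (eventually_atTop.2 ⟨k, fun j hj => ?_⟩)
    obtain ⟨i, rfl⟩ := Nat.exists_eq_add_of_le hj
    exact st_up hm hW hh w i k

lemma st_congr {w w' : ℕ → S} {k : ℕ} (h : ∀ j < k + 1, w j = w' j) :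
    st m a b w k = st m a b w' k := by
  induction k with
  | zero => simp only [st, h 0 (by omega)]
  | succ k ih =>
    have h1 := ih fun j hj => h j (by omega)
    simp only [st, h1, h (k + 1) (by omega)]

/-- a copy in a copy -/
lemma st_tuned (hm : 2 ≤ m) (hW : ∀ s, Wake m (a s) (b s)) (w : ℕ → S) (k : ℕ) :
    Tuned (st m a b w (k + 1)).1 (st m a b w (k + 1)).2.1 (st m a b w (k + 1)).2.2 ⊆
      Tuned (st m a b w k).1 (st m a b w k).2.1 (st m a b w k).2.2 := by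
  have hw := st_wake hm hW w k
  set n := (st m a b w k).1 with hn
  set α := (st m a b w k).2.1 with hα
  set β := (st m a b w k).2.2 with hβ
  have hs := hW (w (k + 1))
  obtain ⟨p1, p2⟩ := hs.pos_lt hm
  have hlt := hs.lt
  have key : ∀ x : ℝ, 0 < x → x < 1 → (∃ z : ℤ, (2 ^ m - 1) * x = z) →
      ∃ y : ℕ → ℝ, y 0 = TT n α β x ∧ y m = TT n α β x ∧ (∀ i, |y i| ≤ 1) ∧
        ∀ i, ∃ e, (e = α ∨ e = β) ∧ y (i + 1) = 2 ^ n * y i - (2 ^ n - 1) * e := by
    intro x h0 h1 ⟨z, hz⟩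
    have hfr : Int.fract x = x := Int.fract_eq_self.2 ⟨h0.le, h1⟩
    refine ⟨fun i => TT n α β (Int.fract (2 ^ i * x)), ?_, ?_, fun i => ?_, fun i => ?_⟩
    · show TT n α β (Int.fract (2 ^ 0 * x)) = _
      rw [pow_zero, one_mul, hfr]
    · show TT n α β (Int.fract (2 ^ m * x)) = _
      have h2 : (2 : ℝ) ^ m * x = x + z := by linarith
      rw [h2, Int.fract_add_intCast, hfr]
    · obtain ⟨b1, b2⟩ := TT_bounds hw.pos hw.lt (Int.fract (2 ^ i * x))
      show |TT n α β (Int.fract (2 ^ i * x))| ≤ 1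
      rw [abs_le]
      have := hw.nonneg
      have := hw.le_one
      constructor <;> linarith
    · have h2 := TT_step (α := α) (β := β) hw.pos (Int.fract_nonneg (2 ^ i * x))
        (Int.fract_lt_one (2 ^ i * x))
      rw [fract_two_mul_fract] at h2
      exact ⟨_, ee_or α β ⌊2 * Int.fract (2 ^ i * x)⌋, by
        show TT n α β (Int.fract (2 ^ (i + 1) * x)) = 2 ^ n * TT n α β (Int.fract (2 ^ i * x)) - _
        linarith⟩
  obtain ⟨ya, a0, aq, ab, as⟩ := key _ p1 (by linarith) hs.per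
  obtain ⟨yb, b0, bq, bb, bs⟩ := key _ (by linarith) p2 hs.per'
  exact tuned_trans hw.pos (by omega) a0 aq ab as b0 bq bb bs

/-- the limit is infinitely renormalizable -/
lemma th_infRen (hm : 2 ≤ m) (hW : ∀ s, Wake m (a s) (b s)) (hh : ∀ s, a s < 1 / 2) (w : ℕ → S) :
    InfRen (th m a b w) := by
  intro N
  have hN : N ≤ m ^ (N + 1) := (Nat.lt_pow_self (by omega : 1 < m)).le.trans
    (Nat.pow_le_pow_right (by omega) (by omega))
  refine ⟨(st m a b w N).1, by rw [st_n]; exact hN, (st m a b w N).2.1, (st m a b w N).2.2,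
    st_wake hm hW w N, ?_⟩
  have hsub : ∀ j, Tuned (st m a b w (N + j)).1 (st m a b w (N + j)).2.1 (st m a b w (N + j)).2.2 ⊆
      Tuned (st m a b w N).1 (st m a b w N).2.1 (st m a b w N).2.2 := by
    intro j
    induction j with
    | zero => exact Subset.rfl
    | succ j ih => exact (st_tuned hm hW w (N + j)).trans ih
  refine (isClosed_tuned (st_wake hm hW w N).pos _ _).mem_of_tendsto (tendsto_th hm hW hh w)
    (eventually_atTop.2 ⟨N + 1, fun j hj => ?_⟩)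
  obtain ⟨i, rfl⟩ := Nat.exists_eq_add_of_le hj
  have h1 : N + 1 + i = (N + i) + 1 := by ring
  rw [h1]
  exact hsub i (TT_mem (st_wake hm hW w (N + i)).pos _ _ _)

lemma gap_of_per {x y : ℝ} (hm : 0 < m) (hxy : x < y) (hx : ∃ z : ℤ, (2 ^ m - 1) * x = z)
    (hy : ∃ z : ℤ, (2 ^ m - 1) * y = z) : 1 ≤ (2 ^ m - 1) * (y - x) := by
  obtain ⟨u, hu⟩ := hx
  obtain ⟨v, hv⟩ := hy
  have h1 : (1 : ℝ) < 2 ^ m := one_lt_pow₀ (by norm_num) hm.ne'
  have h2 : (u : ℝ) < v := by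
    rw [← hu, ← hv]
    exact mul_lt_mul_of_pos_left hxy (by linarith)
  have h3 : u + 1 ≤ v := by
    have : u < v := by exact_mod_cast h2
    omega
  have h4 : (u : ℝ) + 1 ≤ v := by exact_mod_cast h3
  linarith [mul_sub ((2 : ℝ) ^ m - 1) y x]

lemma th_lt_half (hm : 2 ≤ m) (hW : ∀ s, Wake m (a s) (b s)) (hh : ∀ s, a s < 1 / 2) (w : ℕ → S) :
    0 < th m a b w ∧ th m a b w < 1 / 2 := by
  obtain ⟨h1, h2⟩ := th_bounds hm hW hh w 0
  have e : (st m a b w 0).2.1 = a (w 0) := rfl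
  rw [e] at h1 h2
  refine ⟨lt_of_lt_of_le ((hW (w 0)).pos_lt hm).1 h1, lt_of_le_of_lt h2 ?_⟩
  obtain ⟨z, hz⟩ := (hW (w 0)).per
  have hp : (1 : ℝ) < 2 ^ m := one_lt_pow₀ (by norm_num) (by omega)
  have h3 : (2 * z : ℝ) < 2 ^ m - 1 := by
    rw [← hz]
    have := hh (w 0)
    nlinarith
  have h4 : 2 * z ≤ 2 ^ m - 2 := by
    have h5 : 2 * z < 2 ^ m - 1 := by exact_mod_cast h3
    omega
  have h5 : (2 * z : ℝ) ≤ 2 ^ m - 2 := by exact_mod_cast h4
  have h6 : (1 / 2 : ℝ) ^ (m ^ (0 + 1)) = 1 / 2 ^ m := by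
    rw [zero_add, pow_one, div_pow, one_pow]
  rw [h6]
  have hp0 : (0 : ℝ) < 2 ^ m := by positivity
  have h7 : a (w 0) ≤ 1 / 2 - 1 / 2 * (1 / 2 ^ m) := by
    have h8 : (2 ^ m - 1) * a (w 0) ≤ (2 ^ m - 1) * (1 / 2 - 1 / 2 * (1 / 2 ^ m)) := by
      rw [hz]
      have h9 : (2 ^ m - 1) * (1 / 2 - 1 / 2 * (1 / 2 ^ m : ℝ)) =
          1 / 2 * (2 ^ m - 2) + 1 / 2 * (1 / 2 ^ m) := by field_simp; ring
      rw [h9]
      have : (0 : ℝ) < 1 / 2 ^ m := by positivity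
      linarith
    exact le_of_mul_le_mul_left h8 (by linarith)
  have : (0 : ℝ) < 1 / 2 ^ m := by positivity
  linarith

/-- closeness -/
lemma th_close (hm : 2 ≤ m) (hW : ∀ s, Wake m (a s) (b s)) (hh : ∀ s, a s < 1 / 2)
    (w w' : ℕ → S) (k : ℕ) (h : ∀ j < k, w j = w' j) :
    |th m a b w - th m a b w'| ≤ (1 / 2) ^ (m ^ k) := by
  rcases Nat.eq_zero_or_pos k with hk | hk
  · subst hk
    rw [pow_zero, pow_one, abs_le]
    have h1 := th_lt_half hm hW hh w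
    have h2 := th_lt_half hm hW hh w'
    constructor <;> linarith [h1.1, h1.2, h2.1, h2.2]
  · obtain ⟨i, rfl⟩ : ∃ i, k = i + 1 := ⟨k - 1, by omega⟩
    obtain ⟨h1, h2⟩ := th_bounds hm hW hh w i
    obtain ⟨h3, h4⟩ := th_bounds hm hW hh w' i
    rw [st_congr h] at h1 h2
    have h5 : (0 : ℝ) < (1 / 2) ^ (m ^ (i + 1)) := by positivity
    rw [abs_le]
    constructor <;> linarith

/-- separation, ordered form -/
lemma th_sep_aux (hm : 2 ≤ m) (hW : ∀ s, Wake m (a s) (b s)) (hh : ∀ s, a s < 1 / 2)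
    (w w' : ℕ → S) (k : ℕ) (h : ∀ j < k, w j = w' j) (hlt : a (w k) < a (w' k)) :
    (1 / 2) ^ (4 * m ^ (k + 1)) ≤ th m a b w' - th m a b w := by
  have hm0 : 0 < m := by omega
  have hP : (1 / 2 : ℝ) ^ (4 * m ^ (k + 1)) ≤ 1 / 18 * (1 / 2) ^ (m ^ (k + 1)) := by
    have h5 := two_le_pow hm k
    calc (1 / 2 : ℝ) ^ (4 * m ^ (k + 1)) ≤ (1 / 2) ^ (5 + m ^ (k + 1)) :=
          pow_le_pow_of_le_one (by norm_num) (by norm_num) (by omega)
      _ = 1 / 32 * (1 / 2) ^ (m ^ (k + 1)) := by rw [pow_add]; norm_num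
      _ ≤ 1 / 18 * (1 / 2) ^ (m ^ (k + 1)) :=
          mul_le_mul_of_nonneg_right (by norm_num) (by positivity)
  have hpos : (0 : ℝ) < (1 / 2) ^ (m ^ (k + 1)) := by positivity
  have hgap := gap_of_per hm0 hlt (hW (w k)).per (hW (w' k)).per
  obtain ⟨-, h2⟩ := th_bounds hm hW hh w k
  obtain ⟨h3, -⟩ := th_bounds hm hW hh w' k
  have hmain : (st m a b w k).2.1 + 1 / 2 * (1 / 2) ^ (m ^ (k + 1)) ≤ (st m a b w' k).2.1 := by
    rcases Nat.eq_zero_or_pos k with hk | hk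
    · subst hk
      show a (w 0) + _ ≤ a (w' 0)
      have hp0 : (0 : ℝ) < 2 ^ m := by positivity
      have h6 : (1 / 2 : ℝ) ^ (m ^ (0 + 1)) = 1 / 2 ^ m := by
        rw [zero_add, pow_one, div_pow, one_pow]
      rw [h6]
      have h7 : 1 / 2 ^ m ≤ a (w' 0) - a (w 0) := by
        rw [div_le_iff₀ hp0]
        nlinarith
      have : (0 : ℝ) < 1 / 2 ^ m := by positivity
      linarith
    · obtain ⟨i, rfl⟩ : ∃ i, k = i + 1 := ⟨k - 1, by omega⟩
      have hst := st_congr (m := m) (a := a) (b := b) h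
      have hw := st_wake hm hW w' i
      have hn : 2 ≤ (st m a b w' i).1 := by rw [st_n]; exact two_le_pow hm i
      have e1 : (st m a b w (i + 1)).2.1 = TT (st m a b w' i).1 (st m a b w' i).2.1
          (st m a b w' i).2.2 (a (w (i + 1))) := by
        simp only [st, hst]
      have e2 : (st m a b w' (i + 1)).2.1 = TT (st m a b w' i).1 (st m a b w' i).2.1
          (st m a b w' i).2.2 (a (w' (i + 1))) := rfl
      have h0 := ((hW (w (i + 1))).pos_lt hm).1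
      have h1 := hh (w' (i + 1))
      have hsep := TT_sep hn hw.lt m h0.le hlt (by linarith) (by
        nlinarith)
      rw [← e1, ← e2] at hsep
      have hg2 := gap_of_per (m := (st m a b w' i).1) hw.pos hw.lt hw.per hw.per'
      have hp1 : (0 : ℝ) < 2 ^ (st m a b w' i).1 := by positivity
      have h8 : 1 / 2 ^ (st m a b w' i).1 ≤ (st m a b w' i).2.2 - (st m a b w' i).2.1 := by
        rw [div_le_iff₀ hp1]
        have := hw.lt
        nlinarith
      have h9 : (1 / 2 : ℝ) ^ (m ^ (i + 1 + 1)) =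
          (1 / 2 ^ (st m a b w' i).1) * (1 / 2 ^ (st m a b w' i).1) ^ (m - 1) := by
        rw [← pow_succ', Nat.sub_add_cancel hm0, st_n, ← one_div_pow, ← pow_mul, ← pow_succ]
      have h10 : (0 : ℝ) < (1 / 2 ^ (st m a b w' i).1) ^ (m - 1) := by positivity
      rw [h9]
      have h11 : 1 / 2 * ((1 / 2 ^ (st m a b w' i).1) * (1 / 2 ^ (st m a b w' i).1) ^ (m - 1)) ≤
          ((st m a b w' i).2.2 - (st m a b w' i).2.1) / 2 *
            (1 / 2 ^ (st m a b w' i).1) ^ (m - 1) := by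
        have := mul_le_mul_of_nonneg_right h8 h10.le
        linarith
      linarith
  linarith

lemma th_sep (hm : 2 ≤ m) (hW : ∀ s, Wake m (a s) (b s)) (hh : ∀ s, a s < 1 / 2)
    (hinj : Function.Injective a) (w w' : ℕ → S) (k : ℕ) (h : ∀ j < k, w j = w' j)
    (hne : w k ≠ w' k) : (1 / 2) ^ (4 * m ^ (k + 1)) ≤ |th m a b w - th m a b w'| := by
  rcases lt_trichotomy (a (w k)) (a (w' k)) with h1 | h1 | h1
  · rw [abs_sub_comm]
    exact (th_sep_aux hm hW hh w w' k h h1).trans (le_abs_self _)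
  · exact absurd (hinj h1) hne
  · exact (th_sep_aux hm hW hh w' w k (fun j hj => (h j hj).symm) h1).trans (le_abs_self _)

/-- **from many wakes of one period** -/
theorem not_nullS_of_wakes {s m : ℕ} (hm : 2 ≤ m) {S : Finset (ℝ × ℝ)}
    (hS : (4 * m) ^ s ≤ S.card) (hW : ∀ p ∈ S, Wake m p.1 p.2) (hh : ∀ p ∈ S, p.1 < 1 / 2)
    (hinj : ∀ p ∈ S, ∀ q ∈ S, p.1 = q.1 → p = q) :
    ¬ NullS s {θ | θ ∈ Ico (0 : ℝ) 1 ∧ InfRen θ} := by
  intro hN
  have hcard : (4 * m) ^ s ≤ Fintype.card S := by rw [Fintype.card_coe]; exact hS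
  have hW' : ∀ p : S, Wake m p.1.1 p.1.2 := fun p => hW p.1 p.2
  have hh' : ∀ p : S, p.1.1 < 1 / 2 := fun p => hh p.1 p.2
  refine not_null_tree s m hm hcard (th m (fun p : S => p.1.1) fun p => p.1.2)
    (fun w w' k h => th_close hm hW' hh' w w' k h)
    (fun w w' k h hne => th_sep hm hW' hh' (fun p q h => Subtype.ext (hinj _ p.2 _ q.2 h))
      w w' k h hne) (NullS.mono ?_ hN)
  rintro _ ⟨w, rfl⟩
  have h1 := th_lt_half hm hW' hh' w
  exact ⟨⟨h1.1.le, by linarith [h1.2]⟩, th_infRen hm hW' hh' w⟩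

end Pool.Agent.Work.MLC.Uni
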