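import Pool.Agent.Work.MLC.UniI6
import Pool.Agent.Work.MLC.UniB57

set_option autoImplicit false

/-! # The infinitely renormalizable angles are not a null set for any power of the gauge (helper6)
-/

namespace Pool.Agent.Work.MLC.Uni

open Set
open Pool.Agent.Work.MLC.Shp

/-- **the infinitely renormalizable angles have positive measure for every gauge
`(1 / log (1 / t)) ^ s`** -/
theorem not_nullS_infRen (s : ℕ) : ¬ NullS s {θ | θ ∈ Ico (0 : ℝ) 1 ∧ InfRen θ} := by
  obtain ⟨m, hm, S, h1, h2, h3⟩ := UniB.many_wakes' s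
  refine not_nullS_of_wakes hm (S := S) ?_ (fun p hp => (h2 p hp).1) (fun p hp => (h2 p hp).2)
    (fun p hp q hq h => h3 p hp q hq h)
  exact le_trans (Nat.le_mul_of_pos_left _ (by norm_num)) h1

end Pool.Agent.Work.MLC.Uni
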