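import Pool.Agent.Work.MLC.UniAll26

set_option autoImplicit false

/-! # Theorem U: the form with points (helper6) -/

namespace Pool.Agent.Work.MLC.Uni

open Filter Topology Metric Set Complex
open Pool.Agent.Work.MLC

/-- every point of the boundary is a limit point of the Riemann map -/
lemma exists_cluster_angle {c : ℂ} (hc : c ∈ frontier MM) : ∃ θ ∈ Ico (0 : ℝ) 1,
    MapClusterPt c (𝓝[{z | 1 < ‖z‖}] (Complex.exp (2 * Real.pi * θ * Complex.I))) Psi := by
  have hcl : IsClosed MM := isCompact_MM.isClosed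
  have hcM : c ∈ MM := hcl.frontier_subset hc
  have hc' : c ∈ closure MMᶜ := by
    rw [← frontier_compl] at hc
    exact frontier_subset_closure hc
  obtain ⟨u, hu, hut⟩ := mem_closure_iff_seq_limit.1 hc'
  have h1 : ∀ n, ∃ z : ℂ, 1 < ‖z‖ ∧ Psi z = u n := fun n => bijOn_Psi.surjOn (hu n)
  choose z hz1 hz2 using h1
  -- boundedness
  obtain ⟨B, hB⟩ := (Metric.isBounded_range_of_tendsto u hut).exists_norm_le
  have hbig : ∀ᶠ w : ℂ in Bornology.cobounded ℂ, ‖w‖ ≤ 2 * ‖Psi w‖ := by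
    have h2 := tendsto_Psi_div.norm.eventually (lt_mem_nhds (a := (1 / 2 : ℝ)) (by norm_num))
    filter_upwards [h2, (hasBasis_cobounded_norm.mem_of_mem (i := (1 : ℝ)) trivial :
      {x : ℂ | 1 ≤ ‖x‖} ∈ Bornology.cobounded ℂ)] with w hw hw1
    rw [norm_div, lt_div_iff₀ (by have : (1 : ℝ) ≤ ‖w‖ := hw1; linarith)] at hw
    linarith
  obtain ⟨R, -, hR⟩ := hasBasis_cobounded_norm.eventually_iff.1 hbig
  have hzb : ∀ n, z n ∈ closedBall (0 : ℂ) (max R (2 * B)) := by
    intro n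
    rw [mem_closedBall_zero_iff]
    by_cases h : R ≤ ‖z n‖
    · have h3 := hR (x := z n) h
      rw [hz2] at h3
      exact le_max_of_le_right (h3.trans (by linarith [hB (u n) ⟨n, rfl⟩]))
    · exact le_max_of_le_left (not_le.1 h).le
  obtain ⟨a, -, φ, hφ, hφt⟩ := tendsto_subseq_of_bounded isBounded_closedBall hzb
  have hua : Tendsto (fun n => Psi (z (φ n))) atTop (𝓝 c) := by
    simp only [hz2]
    exact hut.comp hφ.tendsto_atTop
  have ha1 : 1 ≤ ‖a‖ := ge_of_tendsto' hφt.norm fun n => (hz1 (φ n)).le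
  have ha2 : ‖a‖ = 1 := by
    by_contra hne
    have hgt : 1 < ‖a‖ := lt_of_le_of_ne ha1 (Ne.symm hne)
    have hopen : IsOpen {w : ℂ | 1 < ‖w‖} := isOpen_lt continuous_const continuous_norm
    have hcont : ContinuousAt Psi a :=
      (differentiableOn_Psi.differentiableAt (hopen.mem_nhds hgt)).continuousAt
    have h4 := tendsto_nhds_unique hua (hcont.tendsto.comp hφt)
    exact bijOn_Psi.mapsTo hgt (by rw [← h4]; exact hcM)
  have ha3 : Complex.exp (Complex.arg a * Complex.I) = a := by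
    have := Complex.norm_mul_exp_arg_mul_I a
    rwa [ha2, Complex.ofReal_one, one_mul] at this
  have hpi : (2 * Real.pi : ℝ) ≠ 0 := by positivity
  refine ⟨Int.fract (Complex.arg a / (2 * Real.pi)), ⟨Int.fract_nonneg _, Int.fract_lt_one _⟩, ?_⟩
  have ha4 : Complex.exp (2 * Real.pi * (Int.fract (Complex.arg a / (2 * Real.pi)) : ℝ) *
      Complex.I) = a := by
    rw [← ha3]
    rw [Complex.exp_eq_exp_iff_exists_int]
    refine ⟨-⌊Complex.arg (Complex.exp (Complex.arg a * Complex.I)) / (2 * Real.pi)⌋, ?_⟩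
    rw [ha3]
    have h5 : (Int.fract (Complex.arg a / (2 * Real.pi)) : ℝ) =
        Complex.arg a / (2 * Real.pi) - ⌊Complex.arg a / (2 * Real.pi)⌋ := rfl
    rw [h5]
    push_cast
    have hpi' : (Real.pi : ℂ) ≠ 0 := by exact_mod_cast Real.pi_ne_zero
    field_simp
    ring
  rw [ha4]
  have h6 : Tendsto (fun n => z (φ n)) atTop (𝓝[{z | 1 < ‖z‖}] a) :=
    tendsto_nhdsWithin_iff.2 ⟨hφt, Eventually.of_forall fun n => hz1 (φ n)⟩
  exact MapClusterPt.of_comp h6 (Tendsto.mapClusterPt hua)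

/-- **Theorem U, for points**: there is a null set `E` of angles such that the Riemann map has a
limit at every other angle, and the Mandelbrot set is locally connected at each of its points
that is not a limit point of the Riemann map at an angle of `E` -/
theorem uni_points : ∃ E ⊆ Ico (0 : ℝ) 1, Cap.Null E ∧
    (∀ θ ∈ Ico (0 : ℝ) 1, θ ∉ E → ∃ c,
      Tendsto Psi (𝓝[{z | 1 < ‖z‖}] (Complex.exp (2 * Real.pi * θ * Complex.I))) (𝓝 c)) ∧
    ∀ c ∈ MM, (∀ θ ∈ E, ¬ MapClusterPt c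
      (𝓝[{z | 1 < ‖z‖}] (Complex.exp (2 * Real.pi * θ * Complex.I))) Psi) →
      ∀ U ∈ 𝓝 c, ∃ K ⊆ MM ∩ U, IsCompact K ∧ IsConnected K ∧ K ∈ 𝓝[MM] c := by
  refine ⟨{θ | θ ∈ Ico (0 : ℝ) 1 ∧ ¬ Cap.Good Psi θ}, fun θ h => h.1, uni_all, ?_, ?_⟩
  · intro θ hθ hE
    by_contra hcon
    exact hE ⟨hθ, fun ⟨c, _, h, _⟩ => hcon ⟨c, h⟩⟩
  · intro c hc hE U hU
    by_cases hci : c ∈ interior MM
    · obtain ⟨r, hr, hr2⟩ := Metric.nhds_basis_closedBall.mem_iff.1
        (inter_mem (isOpen_interior.mem_nhds hci) hU)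
      refine ⟨closedBall c r, fun z hz => ⟨interior_subset (hr2 hz).1, (hr2 hz).2⟩,
        isCompact_closedBall c r, (convex_closedBall c r).isConnected
          ⟨c, mem_closedBall_self hr.le⟩,
        mem_nhdsWithin_of_mem_nhds (closedBall_mem_nhds c hr)⟩
    · have hcf : c ∈ frontier MM := ⟨subset_closure hc, hci⟩
      obtain ⟨θ, hθ, hcl⟩ := exists_cluster_angle hcf
      have hg : Cap.Good Psi θ := by
        by_contra hg
        exact hE θ ⟨hθ, hg⟩ hcl
      obtain ⟨c', -, ht, hlc⟩ := hg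
      have : c = c' := by
        by_contra hne'
        obtain ⟨V, V', hV, hV', hcV, hcV', hd⟩ := t2_separation hne'
        have h1 := hcl.frequently (hV.mem_nhds hcV)
        have h2 := ht.eventually (hV'.mem_nhds hcV')
        obtain ⟨w, hw1, hw2⟩ := (h1.and_eventually h2).exists
        exact Set.disjoint_left.1 hd hw1 hw2
      subst this
      exact hlc U hU

end Pool.Agent.Work.MLC.Uni
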