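import Pool.Agent.Work.MLC.Uni0
import Pool.Agent.Work.MLC.ShpWa24
import Pool.Agent.Work.MLC.ShpC24

set_option autoImplicit false

/-! # Theorem U, module U_ws: the component of a wake and its roots (helper24) -/

namespace Pool.Agent.Work.MLC.Uni

open Filter Topology Metric Set Complex
open Pool.Agent.Work.MLC.Circ Pool.Agent.Work.MLC.Sat Pool.Agent.Work.MLC.Cnt
open Pool.Agent.Work.MLC.Shp CircleDeg1Lift

/-- the roots of a component with the strip `(α, β)` -/
lemma wake_roots {W : WS} (hW : W.Ok) {α β : ℝ} (h0 : 0 ≤ α) (h1 : β ≤ 1)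
    (hs : ∀ θ, (0 < W.nu θ ∧ W.nu θ < 1) ↔ (α < θ ∧ θ < β)) {x : ℚ} (hx0 : 0 < x) (hx1 : x < 1) :
    Wake (W.m * x.den) (W.dat x).tm (W.dat x).tp := by
  have hlt := (WS.dat_cir hW hx0 hx1).lt
  have h0' : (0 : ℝ) < x := by exact_mod_cast hx0
  have h1' : (x : ℝ) < 1 := by exact_mod_cast hx1
  have a1 := (WS.plateau hW hx0 hx1 (W.dat x).tm).2 ⟨le_rfl, hlt.le⟩
  have a2 := (WS.plateau hW hx0 hx1 (W.dat x).tp).2 ⟨hlt.le, le_rfl⟩
  have b1 := (hs (W.dat x).tm).1 ⟨by rw [a1]; exact h0', by rw [a1]; exact h1'⟩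
  have b2 := (hs (W.dat x).tp).1 ⟨by rw [a2]; exact h0', by rw [a2]; exact h1'⟩
  have h2 := ca_of (WS.dat_par hW hx0 hx1) (WS.dat_cir hW hx0 hx1)
  rw [WS.dat_m hW hx0 hx1, WS.dat_x hW hx0 hx1] at h2
  exact wake_of_ca h2 (by linarith [b1.1]) (by linarith [b2.2])

lemma word_zero : Word 1 (fun _ => (0 : ℤ)) :=
  ⟨fun _ => Or.inl rfl, fun _ => rfl, fun d h1 h2 => by omega⟩

lemma gw_zero_one (θ x : ℝ) : gw (fun _ => (0 : ℤ)) θ 1 x = tdbl θ x := by
  rw [gw_succ_apply, gw_zero]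
  simp

/-- the strip of the main component -/
lemma nu_main (θ : ℝ) : (0 < nu (fun _ => (0 : ℤ)) 1 θ ∧ nu (fun _ => (0 : ℤ)) 1 θ < 1) ↔
    (0 < θ ∧ θ < 1) := by
  have hc := gw_continuous' (fun _ => (0 : ℤ)) θ 1
  constructor
  · rintro ⟨h1, h2⟩
    constructor
    · by_contra hcon
      push Not at hcon
      have h3 := nu_mono (fun _ => (0 : ℤ)) 1 hcon
      have h4 : nu (fun _ => (0 : ℤ)) 1 0 = ((0 : ℤ) : ℝ) := by
        refine translationNumber_of_eq_add_int (x := 0) _ ?_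
        rw [gw_zero_one, tdbl_lin 0 (by norm_num) (by norm_num)]
        norm_num
      rw [h4] at h3
      push_cast at h3
      linarith
    · by_contra hcon
      push Not at hcon
      have h3 := nu_mono (fun _ => (0 : ℤ)) 1 hcon
      have h4 : nu (fun _ => (0 : ℤ)) 1 1 = ((1 : ℤ) : ℝ) := by
        refine translationNumber_of_eq_add_int (x := 1) _ ?_
        rw [gw_zero_one, tdbl_lin 0 (by norm_num) (by norm_num)]
        norm_num
      rw [h4] at h3
      push_cast at h3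
      linarith
  · rintro ⟨h1, h2⟩
    constructor
    · refine lt_translationNumber_of_forall_add_lt _ hc fun x => ?_
      rw [gw_zero_one]
      linarith [(tdbl_bound θ x).1]
    · refine translationNumber_lt_of_forall_lt_add _ hc fun x => ?_
      rw [gw_zero_one]
      linarith [(tdbl_bound θ x).2]

/-- **U7** -/
theorem u_ws : U_ws := by
  intro m α β h
  have hab := h.lt
  have h0 := h.nonneg
  have h1 := h.le_one
  rcases Nat.lt_or_ge m 2 with hm | hm
  · -- the main component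
    have hm1 : m = 1 := by have := h.pos; omega
    subst hm1
    obtain ⟨a, ha⟩ := h.per
    obtain ⟨b, hb⟩ := h.per'
    have ha' : α = a := by linarith
    have hb' : β = b := by linarith
    have e1 : a < b := by rw [ha', hb'] at hab; exact_mod_cast hab
    have e2 : 0 ≤ a := by rw [ha'] at h0; exact_mod_cast h0
    have e3 : b ≤ 1 := by rw [hb'] at h1; exact_mod_cast h1
    have hα : α = 0 := by rw [ha', show a = 0 by omega]; simp
    have hβ : β = 1 := by rw [hb', show b = 1 by omega]; simp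
    obtain ⟨σ, g1, g2⟩ := Pri.exists_wide_word (by norm_num) word_zero 0
    have hok : WS.Ok ⟨1, fun _ => 0, 0, σ⟩ := ⟨g1, g2⟩
    have hs : ∀ θ, (0 < WS.nu ⟨1, fun _ => 0, 0, σ⟩ θ ∧ WS.nu ⟨1, fun _ => 0, 0, σ⟩ θ < 1) ↔
        (α < θ ∧ θ < β) := by
      intro θ
      rw [hα, hβ, ← nu_main θ]
      simp [WS.nu]
    exact ⟨_, hok, rfl, hs, fun h2 => absurd h2 (by norm_num),
      fun x hx0 hx1 => wake_roots hok h0 h1 hs hx0 hx1⟩
  · obtain ⟨k, hw, hka, hkb, hin⟩ := h.strip hm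
    obtain ⟨σ, g1, g2⟩ := Pri.exists_wide_word (by omega) hw k
    set W : WS := ⟨m, wL α, k, σ⟩ with hWdef
    have hok : W.Ok := ⟨g1, g2⟩
    have hnu : ∀ θ, W.nu θ = nu (wL α) m θ - k := fun θ => rfl
    have hs : ∀ θ, (0 < W.nu θ ∧ W.nu θ < 1) ↔ (α < θ ∧ θ < β) := by
      intro θ
      rw [hnu]
      constructor
      · rintro ⟨e1, e2⟩
        constructor
        · by_contra hcon
          push Not at hcon
          have := nu_mono (wL α) m hcon
          linarith
        · by_contra hcon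
          push Not at hcon
          have := nu_mono (wL α) m hcon
          linarith
      · rintro ⟨e1, e2⟩
        have := hin θ e1 e2
        exact ⟨by linarith, by linarith⟩
    refine ⟨W, hok, rfl, hs, fun _ => ?_, fun x hx0 hx1 => wake_roots hok h0 h1 hs hx0 hx1⟩
    obtain ⟨u, κ, -, hu, hpl⟩ := h.half hm (n := 1) (by norm_num)
    rw [hu rfl, mul_one, one_mul] at hpl
    have hM : (0 : ℝ) < 2 ^ m := by positivity
    have e0 : (β - α) * 2 ^ m / (2 ^ m * (2 ^ m + 1)) = (β - α) / (2 ^ m + 1) := by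
      field_simp
    rw [e0] at hpl
    have hd : 0 < (β - α) / (2 ^ m + 1) := div_pos (by linarith) (by positivity)
    have hd2 : (β - α) / (2 ^ m + 1) ≤ (β - α) / 5 := by
      have : (4 : ℝ) ≤ 2 ^ m := by
        calc (4 : ℝ) = 2 ^ 2 := by norm_num
          _ ≤ 2 ^ m := pow_le_pow_right₀ (by norm_num) hm
      exact div_le_div_of_nonneg_left (by linarith) (by norm_num) (by linarith)
    set E := (β - α) / (2 ^ m + 1) with hE
    -- the two intervals
    have hκ : κ = k := by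
      have e1 := (hpl (α + E)).2 ⟨le_rfl, by linarith⟩
      have e2 := hin (α + E) (by linarith) (by linarith)
      rw [e1] at e2
      have e3 : (k : ℝ) < κ + 1 := by linarith [e2.1]
      have e4 : (κ : ℝ) < k + 1 := by linarith [e2.2]
      have e3' : k < κ + 1 := by exact_mod_cast e3
      have e4' : κ < k + 1 := by exact_mod_cast e4
      omega
    have hhalf0 : (0 : ℚ) < 1 / 2 := by norm_num
    have hhalf1 : (1 / 2 : ℚ) < 1 := by norm_num
    have hpl' : ∀ θ, (α + E ≤ θ ∧ θ ≤ β - E) ↔ ((W.dat (1 / 2)).tm ≤ θ ∧ θ ≤ (W.dat (1 / 2)).tp) := by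
      intro θ
      rw [← hpl θ, ← WS.plateau hok hhalf0 hhalf1 θ, hnu, hκ]
      push_cast
      constructor <;> intro h <;> linarith
    have hlt := (WS.dat_cir hok hhalf0 hhalf1).lt
    have c1 := (hpl' (α + E)).1 ⟨le_rfl, by linarith⟩
    have c2 := (hpl' (β - E)).1 ⟨by linarith, le_rfl⟩
    have c3 := (hpl' (W.dat (1 / 2)).tm).2 ⟨le_rfl, hlt.le⟩
    have c4 := (hpl' (W.dat (1 / 2)).tp).2 ⟨hlt.le, le_rfl⟩
    exact ⟨le_antisymm c1.1 c3.1, le_antisymm c4.2 c2.2⟩

end Pool.Agent.Work.MLC.Uni
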